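import Pool.Agent.MP_17e62b_gt.Mg.G_H72Iface

attribute [-instance] FunLike.toDecidableEq NonUnitalAlgSemiHomClass.toDistribMulActionSemiHomClass
  LinearOrder.toDecidableEq AddQuantale.instAddLeftMono CoalgHomClass.toSemilinearMapClass
  MonoidWithZeroHomClass.toZeroHomClass RingHomClass.toLinearMapClassNNRat
  NonUnitalNonAssocSemiring.toAddCommMonoid SemilinearIsometryClass.toSemilinearMapClass
  NonUnitalNonAssocRing.toAddCommGroup FirstOrder.Language.instDecidableEqRelations
  NumberField.to_charZero FirstOrder.Language.instDecidableEqFunctions FinEnum.decEq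
  AddGroupWithOne.toAddGroup RingHomClass.toLinearMapClassRat RCLike.toDecidableEq
  AddMonoidWithOne.toAddMonoid IdemSemiring.toCanonicallyOrderedAdd

/-! Merging finitely many classes of states into nodes, all at once. -/

set_option linter.unusedSectionVars false

namespace Pool.Agent.MP_17e62b_gt.G

open Set H14
open scoped BigOperators

variable {V W : Type} [Fintype V] [Fintype W]

open Classical in
/-- The Poisson equation. -/
theorem exists_pot {R : V → V → ℝ} {B : Set V} (hR : ∀ a b, 0 ≤ R a b) (hA : Abs R B)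
    (φ : V → ℝ) : ∃ k : V → ℝ, (∀ b ∈ B, k b = 0) ∧ ∀ a, a ∉ B → gen R k a = -φ a := by
  have key : ∀ a, (if a ∈ B then (∑ x, (mat R B)⁻¹ a x * if x ∈ B then 0 else φ x) else
      -gen R (fun c => ∑ x, (mat R B)⁻¹ c x * if x ∈ B then 0 else φ x) a) =
      if a ∈ B then 0 else φ a := fun a => by
    rw [← green_nonneg_mul R B (fun c => ∑ x, (mat R B)⁻¹ c x * if x ∈ B then 0 else φ x) a]
    simp only [Finset.mul_sum, ← mul_assoc]
    rw [Finset.sum_comm]
    simp only [← Finset.sum_mul, ← Matrix.mul_apply, Matrix.mul_nonsing_inv _ (mat_det hR hA),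
      Matrix.one_apply, ite_mul, one_mul, zero_mul, Finset.sum_ite_eq, Finset.mem_univ, if_true]
  refine ⟨fun c => ∑ x, (mat R B)⁻¹ c x * if x ∈ B then 0 else φ x, fun b hb => ?_, fun a ha => ?_⟩
  · simpa only [if_pos hb] using key b
  · have h := key a
    rw [if_neg ha, if_neg ha] at h
    linarith

/-- `π` merges the classes over `J` (free nodes) and possibly points of `B` with each other. -/
structure Fib (π : V → W) (B : Set V) (J : Finset W) : Prop where
  surj : Function.Surjective π
  off : ∀ a, π a ∈ J → a ∉ B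
  inj : ∀ a a', π a = π a' → a = a' ∨ π a ∈ J ∨ (a ∈ B ∧ a' ∈ B)

open Classical in
/-- The uniform source on each class. -/
noncomputable def nmu (π : V → W) (J : Finset W) (a : V) : ℝ :=
  if π a ∈ J then 1 / ((Finset.univ.filter fun a' => π a' = π a).card : ℝ) else 0

open Classical in
/-- The emission weights: the Green function of `nmu` on the classes, one elsewhere. -/
noncomputable def nw (R : V → V → ℝ) (B : Set V) (π : V → W) (J : Finset W) (a : V) : ℝ :=
  if π a ∈ J then green R B (nmu π J) a else 1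

/-- The merged chain. -/
noncomputable def nrate (R : V → V → ℝ) (B : Set V) (π : V → W) (J : Finset W) : W → W → ℝ :=
  mrg π fun a b => nw R B π J a * R a b

open Classical in
theorem sum_fib (π : V → W) (f : V → ℝ) : ∑ p, (∑ a, if π a = p then f a else 0) = ∑ a, f a := by
  rw [Finset.sum_comm]
  simp only [Finset.sum_ite_eq, Finset.mem_univ, ↓ reduceIte]

open Classical in
theorem adj_mrg (π : V → W) (Q : V → V → ℝ) (G : W → ℝ) (p : W) :
    G p * ∑ c, mrg π Q p c - ∑ q, G q * mrg π Q q p =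
      ∑ z, if π z = p then G (π z) * ∑ c, Q z c - ∑ a, G (π a) * Q a z else 0 := by
  have h1 : ∑ c, mrg π Q p c = ∑ z, if π z = p then ∑ c, Q z c else 0 := by
    simp only [mrg]
    rw [Finset.sum_comm]
    refine Finset.sum_congr rfl fun z _ => ?_
    rw [Finset.sum_comm]
    by_cases h : π z = p <;> simp only [h, true_and, Finset.sum_ite_eq, Finset.mem_univ, ↓ reduceIte, false_and, Finset.sum_const_zero]
  have h2 : ∑ q, G q * mrg π Q q p = ∑ z, if π z = p then ∑ a, G (π a) * Q a z else 0 := by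
    simp only [mrg, Finset.mul_sum]
    rw [Finset.sum_comm]
    have : ∀ a, ∑ q, ∑ z, G q * (if π a = q ∧ π z = p then Q a z else 0) =
        ∑ z, if π z = p then G (π a) * Q a z else 0 := fun a => by
      rw [Finset.sum_comm]
      refine Finset.sum_congr rfl fun z _ => ?_
      by_cases h : π z = p <;> simp only [h, and_true, mul_ite, mul_zero, Finset.sum_ite_eq, Finset.mem_univ, ↓ reduceIte, and_false, Finset.sum_const_zero]
    simp only [this]
    rw [Finset.sum_comm]
    refine Finset.sum_congr rfl fun z _ => ?_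
    by_cases h : π z = p <;> simp only [h, ↓ reduceIte, Finset.sum_const_zero]
  rw [h1, h2, Finset.mul_sum, ← Finset.sum_sub_distrib]
  refine Finset.sum_congr rfl fun z _ => ?_
  by_cases h : π z = p <;> simp only [h, ↓ reduceIte, mul_zero, sub_self]

variable {R : V → V → ℝ} {B : Set V} {π : V → W} {J : Finset W}

theorem Fib.mem_iff (h : Fib π B J) {a : V} : π a ∈ π '' B ↔ a ∈ B := by
  refine ⟨?_, fun ha => ⟨a, ha, rfl⟩⟩
  rintro ⟨b, hb, e⟩
  rcases h.inj b a e with h1 | h1 | h1
  exacts [h1 ▸ hb, absurd hb (h.off b h1), h1.2]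

theorem Fib.not_mem (h : Fib π B J) {j : W} (hj : j ∈ J) : j ∉ π '' B := by
  rintro ⟨b, hb, rfl⟩
  exact h.off b hj hb

open Classical in
theorem Fib.single (h : Fib π B J) {a : V} (ha : a ∉ B) (hJ : π a ∉ J) {X : Type} [AddCommMonoid X]
    (f : V → X) : (∑ z, if π z = π a then f z else 0) = f a := by
  rw [Finset.sum_eq_single a (fun z _ hz => if_neg fun e => ?_) (by simp only [Finset.mem_univ, not_true_eq_false, ↓ reduceIte, IsEmpty.forall_iff]), if_pos rfl]
  rcases h.inj z a e with h1 | h1 | h1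
  exacts [hz h1, hJ (e ▸ h1), ha h1.2]

theorem nmu_nonneg (a : V) : 0 ≤ nmu π J a := by
  unfold nmu
  split_ifs
  exacts [by positivity, le_rfl]

open Classical in
theorem nmu_fib (h : Fib π B J) (p : W) :
    (∑ z, if π z = p then nmu π J z else 0) = if p ∈ J then 1 else 0 := by
  obtain ⟨x, rfl⟩ := h.surj p
  have h1 : ∀ z, (if π z = π x then nmu π J z else 0) = if π z = π x then nmu π J x else 0 :=
    fun z => by
      split_ifs with e
      · simp only [nmu, e]
      · rfl
  have h2 : ((Finset.univ.filter fun a' => π a' = π x).card : ℝ) ≠ 0 :=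
    Nat.cast_ne_zero.2 (Finset.card_ne_zero.2 ⟨x, by simp only [Finset.mem_filter, Finset.mem_univ, and_self]⟩)
  simp only [h1]
  rw [← Finset.sum_filter, Finset.sum_const, nsmul_eq_mul, nmu]
  split_ifs
  · exact mul_one_div_cancel h2
  · exact mul_zero _

open Classical in
theorem nmu_sum (h : Fib π B J) : (∑ a, if a ∈ B then 0 else nmu π J a) = J.card := by
  have h1 : ∀ a, (if a ∈ B then 0 else nmu π J a) = nmu π J a := fun a => by
    split_ifs with ha
    · rw [nmu, if_neg fun e => h.off a e ha]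
    · rfl
  simp only [h1]
  rw [← sum_fib π]
  simp only [nmu_fib h, Finset.sum_ite_mem, Finset.univ_inter, Finset.sum_const, nsmul_eq_mul, mul_one]

theorem nw_pos (hR : ∀ a b, 0 ≤ R a b) (hA : Abs R B) (h : Fib π B J) (a : V) :
    0 < nw R B π J a := by
  classical
  unfold nw
  split_ifs with ha
  · have h0 : ∀ a, 0 ≤ green R B (nmu π J) a := green_nonneg hR hA fun a _ => nmu_nonneg a
    have h1 := green_adj hR hA (nmu π J) (h.off a ha)
    have h2 : 0 ≤ ∑ x, green R B (nmu π J) x * R x a :=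
      Finset.sum_nonneg fun x _ => mul_nonneg (h0 x) (hR x a)
    have h3 : 0 < nmu π J a := by
      rw [nmu, if_pos ha]
      exact one_div_pos.2 (Nat.cast_pos.2 (Finset.card_pos.2 ⟨a, by simp only [Finset.mem_filter, Finset.mem_univ, and_self]⟩))
    refine lt_of_le_of_ne (h0 a) fun e => ?_
    rw [← e] at h1
    linarith
  · exact one_pos

theorem nw_one {a : V} (ha : π a ∉ J) : nw R B π J a = 1 := if_neg ha

theorem nrate_nonneg (hR : ∀ a b, 0 ≤ R a b) (hA : Abs R B) (h : Fib π B J) (p q : W) :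
    0 ≤ nrate R B π J p q :=
  mrg_nonneg π (fun a b => mul_nonneg (nw_pos hR hA h a).le (hR a b)) p q

theorem nrate_pos_iff (hR : ∀ a b, 0 ≤ R a b) (hA : Abs R B) (h : Fib π B J) {p q : W} :
    0 < nrate R B π J p q ↔ ∃ a b, π a = p ∧ π b = q ∧ 0 < R a b := by
  rw [nrate, mrg_pos_iff π fun a b => mul_nonneg (nw_pos hR hA h a).le (hR a b)]
  simp only [mul_pos_iff_of_pos_left (nw_pos hR hA h _)]

theorem abs_nrate (hR : ∀ a b, 0 ≤ R a b) (hA : Abs R B) (h : Fib π B J) :
    Abs (nrate R B π J) (π '' B) :=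
  abs_mrg h.surj (fun a b => mul_nonneg (nw_pos hR hA h a).le (hR a b))
    (hA.mono subset_rfl fun a _ hab => mul_pos (nw_pos hR hA h a) hab)

open Classical in
theorem gen_nrate {E : Type} [AddCommGroup E] [Module ℝ E] (g : W → E) (p : W) :
    gen (nrate R B π J) g p =
      ∑ a, if π a = p then nw R B π J a • gen R (fun b => g (π b)) a else 0 := by
  rw [nrate, gen_mrg]
  refine Finset.sum_congr rfl fun a _ => ?_
  simp only [gen, Finset.smul_sum, mul_smul]

theorem gen_nrate_single (h : Fib π B J) {E : Type} [AddCommGroup E] [Module ℝ E] (g : W → E)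
    {a : V} (ha : a ∉ B) (hJ : π a ∉ J) :
    gen (nrate R B π J) g (π a) = gen R (fun b => g (π b)) a := by
  rw [gen_nrate, h.single ha hJ, nw_one hJ, one_smul]

open Classical in
/-- The flow of the merged chain started at the node `j₀`, read in the unmerged chain: it is
dominated by the Green function of `nmu`, and its sources have mass at most two on every class. -/
theorem nodes_core (hR : ∀ a b, 0 ≤ R a b) (hA : Abs R B) (h : Fib π B J) {j₀ : W} (h₀ : j₀ ∈ J) :
    ∃ (G : W → ℝ) (s : V → ℝ), (∀ p ∈ π '' B, G p = 0) ∧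
      (∀ p, p ∉ π '' B → G p * ∑ c, nrate R B π J p c - ∑ q, G q * nrate R B π J q p =
        if p = j₀ then 1 else 0) ∧
      (∀ a, 0 ≤ G (π a) * nw R B π J a) ∧ (∀ a, G (π a) * nw R B π J a ≤ green R B (nmu π J) a) ∧
      (∀ z, G (π z) * nw R B π J z * ∑ c, R z c - ∑ a, G (π a) * nw R B π J a * R a z = s z) ∧
      (∀ z, z ∉ B → π z ∉ J → s z = 0) ∧
      (∀ j ∈ J, (∑ z, if π z = j then s z else 0) = if j = j₀ then 1 else 0) ∧
      (∑ b, if b ∈ B then ∑ a, G (π a) * nw R B π J a * R a b else 0) = 1 ∧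
      ∀ j ∈ J, (∑ z, if π z = j then |s z| else 0) ≤ 2 := by
  have hR' := nrate_nonneg hR hA h
  have hA' := abs_nrate hR hA h
  obtain ⟨G, hG⟩ : ∃ G, G = green (nrate R B π J) (π '' B) fun p => if p = j₀ then 1 else 0 :=
    ⟨_, rfl⟩
  obtain ⟨Γ, hΓ⟩ : ∃ Γ, Γ = green R B (nmu π J) := ⟨_, rfl⟩
  have G0 : ∀ p, 0 ≤ G p := hG ▸ green_nonneg hR' hA' fun p _ => by split_ifs <;> norm_num
  have GB : ∀ p ∈ π '' B, G p = 0 := fun p hp => hG ▸ green_bd _ hp
  have Gadj : ∀ p, p ∉ π '' B → G p * ∑ c, nrate R B π J p c - ∑ q, G q * nrate R B π J q p =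
      if p = j₀ then 1 else 0 := fun p hp => hG ▸ green_adj hR' hA' _ hp
  have Γ0 : ∀ a, 0 ≤ Γ a := hΓ ▸ green_nonneg hR hA fun a _ => nmu_nonneg a
  have ΓB : ∀ a ∈ B, Γ a = 0 := fun a ha => hΓ ▸ green_bd _ ha
  have Γadj : ∀ z, z ∉ B → Γ z * ∑ c, R z c - ∑ a, Γ a * R a z = nmu π J z :=
    fun z hz => hΓ ▸ green_adj hR hA _ hz
  have wJ : ∀ a, π a ∈ J → nw R B π J a = Γ a := fun a ha => hΓ ▸ if_pos ha
  have pull : ∀ (X : W → ℝ) (p : W),
      X p * ∑ c, nrate R B π J p c - ∑ q, X q * nrate R B π J q p =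
      ∑ z, if π z = p then X (π z) * nw R B π J z * ∑ c, R z c -
        ∑ a, X (π a) * nw R B π J a * R a z else 0 := fun X p => by
    rw [nrate, adj_mrg]
    simp only [← Finset.mul_sum, mul_assoc]
  obtain ⟨H, hH⟩ : ∃ H : V → ℝ, ∀ a, G (π a) * nw R B π J a = H a := ⟨_, fun _ => rfl⟩
  obtain ⟨s, hs⟩ : ∃ s : V → ℝ, ∀ z, H z * ∑ c, R z c - ∑ a, H a * R a z = s z :=
    ⟨_, fun _ => rfl⟩
  have H0 : ∀ a, 0 ≤ H a := fun a => hH a ▸ mul_nonneg (G0 _) (nw_pos hR hA h a).le
  have HB : ∀ a ∈ B, H a = 0 := fun a ha => by rw [← hH, GB _ ⟨a, ha, rfl⟩, zero_mul]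
  have sfib : ∀ p, p ∉ π '' B → (∑ z, if π z = p then s z else 0) = if p = j₀ then 1 else 0 :=
    fun p hp => by
      rw [← Gadj p hp, pull]
      simp only [hH, hs]
  have soff : ∀ z, z ∉ B → π z ∉ J → s z = 0 := fun z hz hJ => by
    have h1 := sfib (π z) fun e => hz (h.mem_iff.1 e)
    rwa [h.single hz hJ, if_neg fun e : π z = j₀ => hJ (e ▸ h₀)] at h1
  have HΓ : ∀ a, H a ≤ Γ a := by
    obtain ⟨Y, hY⟩ : ∃ Y : W → ℝ, ∀ p, Y p =
      if p ∈ J then 1 else if p ∈ π '' B then 0 else Γ (Function.surjInv h.surj p) := ⟨_, fun _ => rfl⟩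
    have Y1 : ∀ a, Y (π a) * nw R B π J a = Γ a := fun a => by
      rw [hY]
      by_cases h1 : π a ∈ J
      · rw [if_pos h1, wJ a h1, one_mul]
      rw [if_neg h1, nw_one h1, mul_one]
      by_cases h2 : a ∈ B
      · rw [if_pos ⟨a, h2, rfl⟩, ΓB a h2]
      rw [if_neg fun e => h2 (h.mem_iff.1 e)]
      rcases h.inj a _ (Function.surjInv_eq h.surj (π a)).symm with h3 | h3 | h3
      exacts [by rw [← h3], absurd h3 h1, absurd h3.1 h2]
    intro a
    have h1 := exists_psi_nonneg hR' hA' (G := fun p => Y p - G p)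
      (σ := fun p => (if p ∈ J then 1 else 0) - if p = j₀ then 1 else 0)
      (fun p hp => by
        rw [GB p hp, hY, if_neg fun e => h.not_mem e hp, if_pos hp, sub_zero])
      (fun p hp => by
        have e1 := pull Y p
        have e2 : (∑ z, if π z = p then Y (π z) * nw R B π J z * ∑ c, R z c -
            ∑ a, Y (π a) * nw R B π J a * R a z else 0) = if p ∈ J then 1 else 0 := by
          rw [← nmu_fib h p]
          refine Finset.sum_congr rfl fun z _ => ?_
          split_ifs with e
          · simp only [Y1]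
            exact Γadj z fun hz => hp ⟨z, hz, e⟩
          · rfl
        rw [← Gadj p hp, ← e2, ← e1]
        simp only [sub_mul, Finset.sum_sub_distrib]
        ring)
      (fun p _ => by
        by_cases e : p = j₀
        · rw [if_pos e, if_pos (e ▸ h₀), sub_self]
        · rw [if_neg e]
          split_ifs <;> norm_num) (π a)
    rw [← hH, ← Y1]
    exact mul_le_mul_of_nonneg_right (sub_nonneg.1 h1) (nw_pos hR hA h a).le
  have tot : ∀ m σ : V → ℝ, (∀ b ∈ B, m b = 0) →
      (∀ z, m z * ∑ c, R z c - ∑ a, m a * R a z = σ z) →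
      (∑ b, if b ∈ B then ∑ a, m a * R a b else 0) = ∑ b, if b ∈ B then 0 else σ b := by
    intro m σ h1 h2
    have h3 := dual h1 (fun z _ => h2 z) fun _ => 1
    simp only [gen, sub_self, smul_zero, Finset.sum_const_zero, mul_zero, mul_one] at h3
    rw [← sub_eq_zero, ← Finset.sum_sub_distrib]
    refine (Finset.sum_congr rfl fun b _ => ?_).trans h3.symm
    split_ifs <;> simp only [sub_zero, zero_sub]
  have cut : ∀ (f : V → ℝ) (p : W), p ∉ π '' B →
      (∑ z, if π z = p then (if z ∈ B then 0 else f z) else 0) =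
        ∑ z, if π z = p then f z else 0 := fun f p hp =>
    Finset.sum_congr rfl fun z _ => by
      by_cases e : π z = p
      · rw [if_pos e, if_pos e, if_neg fun hz => hp ⟨z, hz, e⟩]
      · rw [if_neg e, if_neg e]
  have cut0 : ∀ (f : V → ℝ) (p : W), p ∈ π '' B →
      (∑ z, if π z = p then (if z ∈ B then 0 else f z) else 0) = 0 := fun f p hp =>
    Finset.sum_eq_zero fun z _ => by
      by_cases e : π z = p
      · rw [if_pos e, if_pos (h.mem_iff.1 (e ▸ hp))]
      · rw [if_neg e]
  have one : (∑ b, if b ∈ B then ∑ a, H a * R a b else 0) = 1 := by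
    rw [tot H s HB hs, ← sum_fib π, Finset.sum_eq_single j₀ (fun p _ hp => ?_) (by simp only [Finset.mem_univ, not_true_eq_false, IsEmpty.forall_iff]),
      cut _ _ (h.not_mem h₀), sfib _ (h.not_mem h₀), if_pos rfl]
    by_cases e : p ∈ π '' B
    · exact cut0 _ _ e
    · rw [cut _ _ e, sfib _ e, if_neg hp]
  refine ⟨G, s, GB, Gadj, fun a => hH a ▸ H0 a, fun a => by rw [hH, ← hΓ]; exact HΓ a,
    fun z => by simp only [hH, hs], soff, fun j hj => sfib j (h.not_mem hj),
    by simp only [hH, one], fun j hj => ?_⟩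
  obtain ⟨m, hm⟩ : ∃ m : V → ℝ, ∀ a, m a = min (H a) (G j * Γ a) := ⟨_, fun _ => rfl⟩
  obtain ⟨σ, hσ⟩ : ∃ σ : V → ℝ, ∀ z, m z * ∑ c, R z c - ∑ a, m a * R a z = σ z :=
    ⟨_, fun _ => rfl⟩
  have k1 : ∀ z, H z ≤ G j * Γ z → s z ≤ σ z := fun z hz => by
    rw [← hσ, ← hs, hm, min_eq_left hz]
    exact sub_le_sub_left (Finset.sum_le_sum fun a _ =>
      mul_le_mul_of_nonneg_right (hm a ▸ min_le_left _ _) (hR a z)) _
  have k2 : ∀ z, z ∉ B → G j * Γ z ≤ H z → 0 ≤ σ z := fun z hz hz' => by
    have e1 : ∑ a, m a * R a z ≤ G j * ∑ a, Γ a * R a z := by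
      rw [Finset.mul_sum]
      exact Finset.sum_le_sum fun a _ => by
        rw [← mul_assoc]
        exact mul_le_mul_of_nonneg_right (hm a ▸ min_le_right _ _) (hR a z)
    have e2 := mul_nonneg (G0 j) ((nmu_nonneg z).trans_eq (Γadj z hz).symm)
    rw [← hσ, hm, min_eq_right hz']
    linarith only [e1, e2]
  have HJ : ∀ z, π z ∈ J → H z = G (π z) * Γ z := fun z hz => by rw [← hH, wJ z hz]
  have k3 : ∀ p, 0 ≤ ∑ z, if π z = p then (if z ∈ B then 0 else σ z) else 0 := fun p => by
    by_cases e : p ∈ π '' B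
    · exact (cut0 _ _ e).ge
    rw [cut _ _ e]
    by_cases hp : p ∈ J ∧ G p ≤ G j
    · refine le_trans ?_ (Finset.sum_le_sum (f := fun z => if π z = p then s z else 0)
        fun z _ => ?_)
      · rw [sfib p e]
        split_ifs <;> norm_num
      · split_ifs with e'
        · refine k1 z ?_
          rw [HJ z (e' ▸ hp.1), e']
          exact mul_le_mul_of_nonneg_right hp.2 (Γ0 z)
        · exact le_rfl
    refine Finset.sum_nonneg fun z _ => ?_
    split_ifs with e'
    · have hz : z ∉ B := fun hz => e ⟨z, hz, e'⟩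
      by_cases hJ : π z ∈ J
      · refine k2 z hz ?_
        rw [HJ z hJ, e']
        exact mul_le_mul_of_nonneg_right (not_le.1 fun h' => hp ⟨e' ▸ hJ, h'⟩).le (Γ0 z)
      · rcases le_total (H z) (G j * Γ z) with h' | h'
        exacts [(soff z hz hJ).ge.trans (k1 z h'), k2 z hz h']
    · exact le_rfl
  have k4 : (∑ z, if π z = j then σ z else 0) ≤ 1 := by
    rw [← cut _ _ (h.not_mem hj), ← one]
    refine (Finset.single_le_sum (fun p _ => k3 p) (Finset.mem_univ j)).trans ?_
    rw [sum_fib, ← tot m σ (fun b hb => by rw [hm, HB b hb, ΓB b hb, mul_zero, min_self]) hσ]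
    refine Finset.sum_le_sum fun b _ => ?_
    split_ifs
    · exact Finset.sum_le_sum fun a _ =>
        mul_le_mul_of_nonneg_right (hm a ▸ min_le_left _ _) (hR a b)
    · exact le_rfl
  have k5 : (∑ z, if π z = j then |s z| else 0) ≤
      2 * (∑ z, if π z = j then σ z else 0) - ∑ z, if π z = j then s z else 0 := by
    rw [Finset.mul_sum, ← Finset.sum_sub_distrib]
    refine Finset.sum_le_sum fun z _ => ?_
    split_ifs with e
    · have e1 : H z = G j * Γ z := by rw [HJ z (e ▸ hj), e]
      have e2 := k1 z e1.le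
      have e3 := k2 z (h.off z (e ▸ hj)) e1.ge
      rw [abs_le]
      constructor <;> linarith only [e3, e2]
    · norm_num
  rw [sfib j (h.not_mem hj)] at k5
  split_ifs at k5 <;> linarith only [k4, k5]

open Classical in
/-- NODES 1. Potentials (expected counts) pass to the merged chain with the factor `N + 1`. -/
theorem nodes_pot (hR : ∀ a b, 0 ≤ R a b) (hA : Abs R B) (h : Fib π B J) {φ k : V → ℝ} {δ : ℝ}
    (hφ0 : ∀ a, 0 ≤ φ a) (hk0 : ∀ a, 0 ≤ k a) (hk : ∀ a, k a ≤ δ)
    (hφ : ∀ a, a ∉ B → φ a ≤ -gen R k a) :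
    ∃ k' : W → ℝ, (∀ p, 0 ≤ k' p) ∧ (∀ p, k' p ≤ (J.card + 1) * δ) ∧ (∀ p ∈ π '' B, k' p = 0) ∧
      ∀ p, p ∉ π '' B →
        gen (nrate R B π J) k' p = -∑ a, if π a = p then nw R B π J a * φ a else 0 := by
  have hR' := nrate_nonneg hR hA h
  have hA' := abs_nrate hR hA h
  obtain ⟨k', k1, k2⟩ := exists_pot hR' hA' fun p => ∑ a, if π a = p then nw R B π J a * φ a else 0
  have k0 : ∀ p, 0 ≤ k' p := mat_det_min hR' hA' (fun p hp => by
    rw [k2 p hp, neg_nonpos]
    refine Finset.sum_nonneg fun a _ => ?_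
    split_ifs
    exacts [mul_nonneg (nw_pos hR hA h a).le (hφ0 a), le_rfl]) fun p hp => (k1 p hp).ge
  have kJ : ∀ j ∈ J, k' j ≤ J.card * δ := fun j hj => by
    obtain ⟨G, s, g1, g2, -, g4, -⟩ := nodes_core hR hA h hj
    have e1 := dual g1 g2 k'
    have e2 : (∑ b, if b ∈ π '' B then (∑ a, G a * nrate R B π J a b) * k' b
        else -((if b = j then 1 else 0) * k' b)) = -k' j := by
      rw [Finset.sum_eq_single j (fun p _ hp => ?_) (by simp only [Finset.mem_univ, not_true_eq_false, mem_image, ↓ reduceIte, one_mul, IsEmpty.forall_iff]), if_neg (h.not_mem hj), if_pos rfl,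
        one_mul]
      split_ifs with e
      · rw [k1 p e, mul_zero]
      · simp
    have e3 : ∑ p, G p * gen (nrate R B π J) k' p = -∑ a, G (π a) * nw R B π J a * φ a := by
      rw [← sum_fib π, ← Finset.sum_neg_distrib]
      refine Finset.sum_congr rfl fun p _ => ?_
      by_cases e : p ∈ π '' B
      · rw [g1 p e, zero_mul, Finset.sum_eq_zero fun a _ => ?_, neg_zero]
        split_ifs with e'
        · rw [e', g1 p e, zero_mul, zero_mul]
        · rfl
      · rw [k2 p e, mul_neg, Finset.mul_sum]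
        refine congrArg _ (Finset.sum_congr rfl fun a _ => ?_)
        split_ifs with e'
        · rw [e', mul_assoc]
        · exact mul_zero _
    have e4 := green_le hR (green_nonneg hR hA fun a _ => nmu_nonneg (π := π) (J := J) a)
      (fun b hb => green_bd _ hb) (fun a _ => nmu_nonneg a) (fun b hb => green_adj hR hA _ hb)
      hk0 hk hφ
    rw [nmu_sum h] at e4
    have e5 : ∑ a, G (π a) * nw R B π J a * φ a ≤ ∑ a, green R B (nmu π J) a * φ a :=
      Finset.sum_le_sum fun a _ => mul_le_mul_of_nonneg_right (g4 a) (hφ0 a)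
    linarith
  refine ⟨k', k0, fun p => ?_, k1, k2⟩
  obtain ⟨a, rfl⟩ := h.surj p
  have δ0 : 0 ≤ δ := (hk0 a).trans (hk a)
  have e := mat_det_max hR (hA.mono (B' := B ∪ {z | π z ∈ J}) subset_union_left fun _ _ x => x)
    (u := fun z => k' (π z) - k z - J.card * δ) (fun z hz => ?_) (fun z hz => ?_) a
  · linarith [hk a]
  · have z1 : z ∉ B := fun e => hz (Or.inl e)
    have z2 : π z ∉ J := fun e => hz (Or.inr e)
    have e1 : gen R (fun z => k' (π z) - k z - J.card * δ) z =
        gen R (fun z => k' (π z)) z - gen R k z := by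
      simp only [gen, smul_eq_mul, ← Finset.sum_sub_distrib]
      exact Finset.sum_congr rfl fun b _ => by ring
    rw [e1, ← gen_nrate_single h k' z1 z2, k2 _ fun e => z1 (h.mem_iff.1 e), h.single z1 z2,
      nw_one z2, one_mul]
    linarith [hφ z z1]
  · have e1 : (0 : ℝ) ≤ J.card * δ := by positivity
    rcases hz with hz | hz
    · linarith [k1 _ ⟨z, hz, rfl⟩, hk0 z]
    · linarith [kJ _ hz, hk0 z]

open Classical in
/-- NODES 2. A harmonic function of the merged chain is close to every test function `w` of the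
unmerged chain that has small total drift and small oscillation on the classes. -/
theorem nodes_err (hR : ∀ a b, 0 ≤ R a b) (hA : Abs R B) (h : Fib π B J) {E : Type}
    [NormedAddCommGroup E] [NormedSpace ℝ E] {w : V → E} {g : W → E} {k : V → ℝ} {δ η ρ : ℝ}
    (hη : 0 ≤ η) (hρ : 0 ≤ ρ) (hk0 : ∀ a, 0 ≤ k a) (hk : ∀ a, k a ≤ δ)
    (hw : ∀ a, a ∉ B → ‖gen R w a‖ ≤ -gen R k a) (hB : ∀ b ∈ B, ‖g (π b) - w b‖ ≤ η)
    (hosc : ∀ a a', π a = π a' → π a ∈ J → ‖w a - w a'‖ ≤ ρ)
    (hg : ∀ p, p ∉ π '' B → gen (nrate R B π J) g p = 0) (a : V) :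
    ‖g (π a) - w a‖ ≤ η + (J.card + 1) * δ + (2 * J.card + 1) * ρ := by
  obtain ⟨l, hl, hx⟩ := exists_dual_vector'' ℝ (g (π a) - w a)
  have ll : ∀ x, |l x| ≤ ‖x‖ := fun x => (l.le_of_opNorm_le hl x).trans_eq (one_mul _)
  have δ0 : 0 ≤ δ := (hk0 a).trans (hk a)
  obtain ⟨u, hu⟩ : ∃ u : V → ℝ, ∀ z, u z = l (g (π z) - w z) := ⟨_, fun _ => rfl⟩
  have ug : ∀ z, gen R u z = l (gen R (fun b => g (π b)) z) - l (gen R w z) := fun z => by
    simp only [gen, hu, map_sum, map_smul, map_sub, smul_eq_mul, ← Finset.sum_sub_distrib]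
    exact Finset.sum_congr rfl fun b _ => by ring
  have uo : ∀ z z', π z = π z' → π z ∈ J → |u z - u z'| ≤ ρ := fun z z' e hz => by
    rw [hu, hu, ← map_sub, e, sub_sub_sub_cancel_left]
    exact (ll _).trans (hosc z' z e.symm (e ▸ hz))
  have uJ : ∀ x, π x ∈ J → u x ≤ η + J.card * δ + (2 * J.card + 1) * ρ := fun x hx => by
    obtain ⟨G, s, g1, -, g3, g4, g5, g6, g7, g8, g9⟩ := nodes_core hR hA h hx
    have e1 := dual (G := fun a => G (π a) * nw R B π J a) (R := R) (B := B)
      (fun b hb => by rw [g1 _ ⟨b, hb, rfl⟩, zero_mul]) (fun z _ => g5 z) u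
    have e2 : ∑ z, G (π z) * nw R B π J z * l (gen R (fun b => g (π b)) z) = 0 := by
      rw [← sum_fib π]
      refine Finset.sum_eq_zero fun p _ => ?_
      by_cases e : p ∈ π '' B
      · refine Finset.sum_eq_zero fun z _ => ?_
        split_ifs with e'
        · rw [e', g1 p e, zero_mul, zero_mul]
        · rfl
      · have e3 := congrArg (fun y => G p * l y) ((gen_nrate g p).symm.trans (hg p e))
        simp only [map_sum, map_zero, mul_zero, Finset.mul_sum] at e3
        refine (Finset.sum_congr rfl fun z _ => ?_).trans e3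
        split_ifs with e'
        · rw [e', map_smul, smul_eq_mul, mul_assoc]
        · simp
    have e4 := green_le hR (green_nonneg hR hA fun a _ => nmu_nonneg (π := π) (J := J) a)
      (fun b hb => green_bd _ hb) (fun a _ => nmu_nonneg a) (fun b hb => green_adj hR hA _ hb)
      hk0 hk hw
    rw [nmu_sum h] at e4
    have e5 : ∑ z, G (π z) * nw R B π J z * l (gen R w z) ≤
        ∑ a, green R B (nmu π J) a * ‖gen R w a‖ :=
      Finset.sum_le_sum fun z _ => (mul_le_mul_of_nonneg_left ((le_abs_self _).trans (ll _))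
        (g3 z)).trans (mul_le_mul_of_nonneg_right (g4 z) (norm_nonneg _))
    have e6 : ∑ z, G (π z) * nw R B π J z * gen R u z =
        -∑ z, G (π z) * nw R B π J z * l (gen R w z) := by
      simp only [ug, mul_sub, Finset.sum_sub_distrib, e2, zero_sub]
    obtain ⟨y, hy⟩ : ∃ y : W → V, ∀ p, π (y p) = p := ⟨_, Function.surjInv_eq h.surj⟩
    have e7 : (∑ b, if b ∈ B then (∑ a, G (π a) * nw R B π J a * R a b) * u b else -(s b * u b)) ≤
        η * (∑ b, if b ∈ B then ∑ a, G (π a) * nw R B π J a * R a b else 0) +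
        ∑ p, ((if p ∈ J then ρ * ∑ z, if π z = p then |s z| else 0 else 0) -
          if p ∈ J then u (y p) * ∑ z, if π z = p then s z else 0 else 0) := by
      have e8 : ∀ p, ((if p ∈ J then ρ * ∑ z, if π z = p then |s z| else 0 else 0) -
          if p ∈ J then u (y p) * ∑ z, if π z = p then s z else 0 else 0) =
          ∑ z, if π z = p then (if π z ∈ J then ρ * |s z| - u (y (π z)) * s z else 0) else 0 :=
        fun p => by
          by_cases hp : p ∈ J
          · rw [if_pos hp, if_pos hp, Finset.mul_sum, Finset.mul_sum, ← Finset.sum_sub_distrib]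
            refine Finset.sum_congr rfl fun z _ => ?_
            by_cases e : π z = p
            · simp only [e, if_true, if_pos hp]
            · simp [e]
          · rw [if_neg hp, if_neg hp, sub_zero]
            refine (Finset.sum_eq_zero fun z _ => ?_).symm
            by_cases e : π z = p
            · simp only [e, if_true, if_neg hp]
            · exact if_neg e
      simp only [e8]
      rw [sum_fib, Finset.mul_sum, ← Finset.sum_add_distrib]
      refine Finset.sum_le_sum fun b _ => ?_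
      by_cases hb : b ∈ B
      · rw [if_pos hb, if_pos hb, if_neg fun e => h.off b e hb, add_zero, mul_comm η]
        exact mul_le_mul_of_nonneg_left (hu b ▸ (le_abs_self _).trans ((ll _).trans (hB b hb)))
          (Finset.sum_nonneg fun a _ => mul_nonneg (g3 a) (hR a b))
      rw [if_neg hb, if_neg hb, mul_zero, zero_add]
      split_ifs with hJ
      · have e9 := uo b (y (π b)) (hy _).symm hJ
        have e10 : |s b * (u b - u (y (π b)))| ≤ |s b| * ρ := by
          rw [abs_mul]
          exact mul_le_mul_of_nonneg_left e9 (abs_nonneg _)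
        linarith only [(abs_le.1 e10).1]
      · rw [g6 b hb hJ, zero_mul, neg_zero]
    have e11 : (∑ p, if p ∈ J then ρ * ∑ z, if π z = p then |s z| else 0 else 0) ≤
        2 * J.card * ρ := by
      rw [Finset.sum_ite_mem, Finset.univ_inter]
      refine (Finset.sum_le_card_nsmul _ _ (ρ * 2) fun p hp =>
        mul_le_mul_of_nonneg_left (g9 p hp) hρ).trans_eq ?_
      rw [nsmul_eq_mul]
      ring
    have e12 : (∑ p, if p ∈ J then u (y p) * ∑ z, if π z = p then s z else 0 else 0) =
        u (y (π x)) := by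
      rw [Finset.sum_eq_single (π x) (fun p _ hp => ?_) (by simp only [Finset.mem_univ, not_true_eq_false, ite_eq_right_iff, mul_eq_zero, IsEmpty.forall_iff]), if_pos hx, g7 _ hx, if_pos rfl,
        mul_one]
      split_ifs with e
      · rw [g7 p e, if_neg hp, mul_zero]
      · rfl
    rw [g8, Finset.sum_sub_distrib, e12] at e7
    have e13 := (abs_le.1 (uo x (y (π x)) (hy _).symm hx)).2
    linarith only [e1, e4, e5, e6, e7, e11, e13]
  have e := mat_det_max hR (hA.mono (B' := B ∪ {z | π z ∈ J}) subset_union_left fun _ _ x => x)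
    (u := fun z => u z - k z - (η + J.card * δ + (2 * J.card + 1) * ρ)) (fun z hz => ?_)
    (fun z hz => ?_) a
  · rw [hu, hx] at e
    have e1 : ((‖g (π a) - w a‖ : ℝ)) = ‖g (π a) - w a‖ := rfl
    simp only [RCLike.ofReal_real_eq_id, id] at e
    linarith [hk a]
  · have z1 : z ∉ B := fun e => hz (Or.inl e)
    have z2 : π z ∉ J := fun e => hz (Or.inr e)
    have e1 : gen R (fun z => u z - k z - (η + J.card * δ + (2 * J.card + 1) * ρ)) z =
        gen R u z - gen R k z := by
      simp only [gen, smul_eq_mul, ← Finset.sum_sub_distrib]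
      exact Finset.sum_congr rfl fun b _ => by ring
    rw [e1, ug, ← gen_nrate_single h g z1 z2, hg _ fun e => z1 (h.mem_iff.1 e), map_zero]
    linarith [hw z z1, (abs_le.1 (ll (gen R w z))).2]
  · have e1 : (0 : ℝ) ≤ J.card * δ := by positivity
    have e2 : (0 : ℝ) ≤ (2 * J.card + 1) * ρ := by positivity
    rcases hz with hz | hz
    · linarith [hu z, (le_abs_self _).trans ((ll _).trans (hB z hz)), hk0 z]
    · linarith [uJ z hz, hk0 z]

end Pool.Agent.MP_17e62b_gt.G
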