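import Pool.Agent.MP_d9ba76_lc.Fix
import Pool.Agent.MP_17e62b_gt.Defs
import Pool.Agent.MP_17e62b_gt.H14.M1
import Pool.Agent.MP_17e62b_gt.Rigid

attribute [-instance] FunLike.toDecidableEq AddQuantale.instAddLeftMono
  NonUnitalNonAssocSemiring.toAddCommMonoid AddMonoidWithOne.toAddMonoid littleWedderburn
  NonUnitalNonAssocRing.toAddCommGroup NonUnitalNonAssocSemiring.toMulZeroClass
  LinearOrder.toDecidableEq CommRing.toCommSemiring GrpTypeEquivalenceGrp.grpGroup NormedRing.toRing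
  instCoeTCOfCoe NumberField.to_charZero LieAdmissibleAlgebra.toModule
  CoalgHomClass.toSemilinearMapClass MulSemiringAction.toDistribMulAction RKHS.instFunLike
  NonUnitalNormedRing.toNonUnitalSeminormedRing AddQuantale.instAddRightMono
  RightPreLieAlgebra.toModule decidableEq_of_subsingleton Algebra.complexToReal Valued.toUniformSpace
  LeftPreLieAlgebra.toModule instSMulZeroClass Nontrivial.to_nonempty
  FirstOrder.Language.instDecidableEqRelations Action.FintypeCat.instMulActionObjFiniteOf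
  NonUnitalAlgSemiHomClass.toDistribMulActionSemiHomClass LieRing.toAddCommGroup
  IdemSemiring.toCanonicallyOrderedAdd MulZeroOneClass.toMulZeroClass IdemSemiring.toSemiring
  Quantale.instMulRightMono AddCommMonoidWithOne.toAddCommMonoid FinEnum.decEq
  NonUnitalNormedCommRing.toNonUnitalSeminormedCommRing
  LinearOrderedAddCommMonoidWithTop.toAddCommMonoid NormedRing.toSeminormedRing
  continuousSub_of_discreteTopology LinearOrderedCommMonoidWithZero.toPosMulStrictMono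
  FiniteDimensional.rclike_to_real RCLike.toDecidableEq AddCommGroupWithOne.toAddGroupWithOne
  SemilinearIsometryClass.toSemilinearMapClass Bialgebra.toAlgebra bot_nonempty
  FirstOrder.Language.instDecidableEqFunctions Zero.instNonempty
  IsIsometricSMul.to_continuousConstSMul NormedAlgebra.complexToReal NormedCommRing.toCommRing
  BooleanRing.toRing Torsor.toMulAction One.instNonempty LieAdmissibleRing.toNonUnitalNonAssocRing
  NonUnitalNormedRing.toNorm MonoidWithZeroHomClass.toZeroHomClass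
  LinearOrderedAddCommGroupWithTop.toAddCommMonoid SeminormedRing.toNonUnitalSeminormedRing
  NormedRing.toNorm EuclideanDomain.toCommRing

-- part MP_17e62b_gt.H14.M2
section

/-! Finite chains given by rates: maximum principle, harmonic extension, Green function. -/

namespace Pool.Agent.MP_17e62b_gt.H14

open Set
open scoped BigOperators

variable {V : Type} [Fintype V]

/-- The generator of the rates `R`. -/
def gen {E : Type} [AddCommGroup E] [Module ℝ E] (R : V → V → ℝ) (u : V → E) (a : V) : E :=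
  ∑ b, R a b • (u b - u a)

/-- Every non-empty set of nodes off `B` can be left. -/
def Abs (R : V → V → ℝ) (B : Set V) : Prop :=
  ∀ S : Set V, S.Nonempty → Disjoint S B → ∃ a ∈ S, ∃ b, b ∉ S ∧ 0 < R a b

theorem Abs.mono {R R' : V → V → ℝ} {B B' : Set V} (h : Abs R B) (hB : B ⊆ B')
    (hR : ∀ a b, 0 < R a b → 0 < R' a b) : Abs R' B' := by
  intro S hS hd
  obtain ⟨a, ha, b, hb, hab⟩ := h S hS (hd.mono_right hB)
  exact ⟨a, ha, b, hb, hR a b hab⟩

/-- N1. A strict Lyapunov function makes the chain absorbing. Hint: take `a ∈ S` where `h` is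
minimal on `S`; if no jump leaves `S` then `gen R h a ≥ 0`. -/
theorem abs_of_lyap {R : V → V → ℝ} {B : Set V} (hR : ∀ a b, 0 ≤ R a b) {h : V → ℝ}
    (hh : ∀ a, a ∉ B → gen R h a < 0) : Abs R B := by
  intro S hS hd
  obtain ⟨a, ha, hm⟩ := Set.exists_min_image S h (toFinite S) hS
  by_contra hn
  refine (hh a (disjoint_left.1 hd ha)).not_ge (Finset.sum_nonneg fun b _ => ?_)
  by_cases hb : b ∈ S
  · exact mul_nonneg (hR a b) (sub_nonneg.2 (hm b hb))
  · rw [le_antisymm (not_lt.1 fun h' => hn ⟨a, ha, b, hb, h'⟩) (hR a b), zero_smul]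

/-- N2. Ascending chains. Hint: let `S` be the set of nodes reachable from `a`; if it misses `B`,
take the set of points of `S` where `u` is maximal on `S`: it is closed under jumps. -/
theorem asc {R : V → V → ℝ} {B : Set V} (hR : ∀ a b, 0 ≤ R a b) (hA : Abs R B) {u : V → ℝ}
    (hu : ∀ a, a ∉ B → 0 ≤ gen R u a) (a : V) :
    ∃ b ∈ B, u a ≤ u b ∧
      Relation.ReflTransGen (fun x y => x ∉ B ∧ 0 < R x y ∧ u a ≤ u x ∧ u a ≤ u y) a b := by
  by_contra hn
  set r : V → V → Prop := fun x y => x ∉ B ∧ 0 < R x y ∧ u a ≤ u x ∧ u a ≤ u y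
  have h1 : ∀ y, Relation.ReflTransGen r a y → u a ≤ u y := fun y hy => by
    cases hy with
    | refl => exact le_rfl
    | tail _ h => exact h.2.2.2
  have h2 : ∀ y, Relation.ReflTransGen r a y → y ∉ B := fun y hy hb => hn ⟨y, hb, h1 y hy, hy⟩
  obtain ⟨m, hm, hM⟩ := Set.exists_max_image {y | Relation.ReflTransGen r a y} u (toFinite _)
    ⟨a, Relation.ReflTransGen.refl⟩
  obtain ⟨x, ⟨hx, hxm⟩, y, hy, hxy⟩ := hA {y | Relation.ReflTransGen r a y ∧ u y = u m}
    ⟨m, hm, rfl⟩ (disjoint_left.2 fun y hy => h2 y hy.1)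
  have h3 : ∀ b, R x b • (u b - u x) ≤ 0 := fun b => by
    rcases (hR x b).eq_or_lt with h | h
    · rw [← h, zero_smul]
    · refine mul_nonpos_of_nonneg_of_nonpos h.le (sub_nonpos.2 ?_)
      rcases le_total (u a) (u b) with h' | h'
      · exact (hM b (hx.tail ⟨h2 x hx, h, h1 x hx, h'⟩)).trans hxm.ge
      · exact h'.trans (h1 x hx)
  have h4 := (Finset.sum_eq_zero_iff_of_nonpos fun b _ => h3 b).1
    (le_antisymm (Finset.sum_nonpos fun b _ => h3 b) (hu x (h2 x hx))) y (Finset.mem_univ y)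
  have h5 : u y = u x := sub_eq_zero.1 ((mul_eq_zero.1 h4).resolve_left hxy.ne')
  exact hy ⟨hx.tail ⟨h2 x hx, hxy, h1 x hx, h5 ▸ h1 x hx⟩, h5.trans hxm⟩

open Classical in
/-- The matrix of the Dirichlet problem. -/
noncomputable def mat (R : V → V → ℝ) (B : Set V) : Matrix V V ℝ := fun a b =>
  if a ∈ B then (if a = b then 1 else 0) else (if a = b then ∑ c, R a c else 0) - R a b

open Classical in
/-- The harmonic extension of `φ` from `B`. -/
noncomputable def harm {E : Type} [AddCommGroup E] [Module ℝ E] (R : V → V → ℝ) (B : Set V)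
    (φ : V → E) (a : V) : E :=
  ∑ b, (mat R B)⁻¹ a b • (if b ∈ B then φ b else 0)

open Classical in
/-- The Green function (occupation density) of the source `μ`. -/
noncomputable def green (R : V → V → ℝ) (B : Set V) (μ : V → ℝ) (b : V) : ℝ :=
  if b ∈ B then 0 else ∑ a, (if a ∈ B then 0 else μ a) * (mat R B)⁻¹ a b

open Classical in
theorem mat_det_row {E : Type} [AddCommGroup E] [Module ℝ E] (R : V → V → ℝ) (B : Set V)
    (u : V → E) (a : V) : ∑ b, mat R B a b • u b = if a ∈ B then u a else -gen R u a := by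
  by_cases ha : a ∈ B
  · simp only [mat, ha, ↓ reduceIte, ite_smul, one_smul, zero_smul, Finset.sum_ite_eq, Finset.mem_univ]
  · simp only [mat, ha, ↓ reduceIte, sub_smul, ite_smul, Finset.sum_smul, zero_smul, Finset.sum_sub_distrib, Finset.sum_ite_eq, Finset.mem_univ, gen, smul_sub, neg_sub]

theorem mat_det_max {R : V → V → ℝ} {B : Set V} (hR : ∀ a b, 0 ≤ R a b) (hA : Abs R B)
    {u : V → ℝ} (hu : ∀ a, a ∉ B → 0 ≤ gen R u a) (hB : ∀ b ∈ B, u b ≤ 0) (a : V) : u a ≤ 0 := by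
  obtain ⟨b, hb, h, -⟩ := asc hR hA hu a
  exact h.trans (hB b hb)

theorem mat_det_min {R : V → V → ℝ} {B : Set V} (hR : ∀ a b, 0 ≤ R a b) (hA : Abs R B)
    {u : V → ℝ} (hu : ∀ a, a ∉ B → gen R u a ≤ 0) (hB : ∀ b ∈ B, 0 ≤ u b) (a : V) : 0 ≤ u a := by
  refine neg_nonpos.1 (mat_det_max hR hA (u := fun b => -u b) (fun a ha => ?_)
    (fun b hb => neg_nonpos.2 (hB b hb)) a)
  have h : gen R (fun b => -u b) a = -gen R u a := by
    simp only [gen, ← Finset.sum_neg_distrib, smul_eq_mul]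
    exact Finset.sum_congr rfl fun b _ => by ring
  rw [h]
  exact neg_nonneg.2 (hu a ha)

open Classical in
/-- N3. Hint: `(mat R B).mulVec u` is `u` on `B` and `- gen R u` off `B`; a vector in the kernel
vanishes by `asc` applied to `u` and `-u`. -/
theorem mat_det {R : V → V → ℝ} {B : Set V} (hR : ∀ a b, 0 ≤ R a b) (hA : Abs R B) :
    IsUnit (mat R B).det := by
  rw [isUnit_iff_ne_zero]
  intro h0
  obtain ⟨v, hv, h⟩ := Matrix.exists_mulVec_eq_zero_iff.2 h0
  have h1 : ∀ a, (if a ∈ B then v a else -gen R v a) = 0 := fun a =>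
    (mat_det_row R B v a).symm.trans (congrFun h a)
  have h2 : ∀ a, a ∉ B → gen R v a = 0 := fun a ha => by simpa [ha] using h1 a
  have h3 : ∀ a ∈ B, v a = 0 := fun a ha => by simpa [ha] using h1 a
  refine hv (funext fun a => le_antisymm
    (mat_det_max hR hA (fun a ha => (h2 a ha).ge) (fun b hb => (h3 b hb).le) a)
    (mat_det_min hR hA (fun a ha => (h2 a ha).le) (fun b hb => (h3 b hb).ge) a))

open Classical in
theorem harm_bd_row {E : Type} [AddCommGroup E] [Module ℝ E] {R : V → V → ℝ} {B : Set V}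
    (hR : ∀ a b, 0 ≤ R a b) (hA : Abs R B) (φ : V → E) (a : V) :
    (if a ∈ B then harm R B φ a else -gen R (harm R B φ) a) = if a ∈ B then φ a else 0 := by
  rw [← mat_det_row]
  simp only [harm, Finset.smul_sum, smul_smul]
  rw [Finset.sum_comm]
  simp only [← Finset.sum_smul, ← Matrix.mul_apply, Matrix.mul_nonsing_inv _ (mat_det hR hA),
    Matrix.one_apply, ite_smul, one_smul, zero_smul, Finset.sum_ite_eq, Finset.mem_univ, if_true]

/-- N4a. Hint: `mat * mat⁻¹ = 1`, row `a`. -/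
theorem harm_bd {E : Type} [AddCommGroup E] [Module ℝ E] {R : V → V → ℝ} {B : Set V}
    (hR : ∀ a b, 0 ≤ R a b) (hA : Abs R B) (φ : V → E) {a : V} (ha : a ∈ B) :
    harm R B φ a = φ a := by
  simpa [ha] using harm_bd_row hR hA φ a

/-- N4b. -/
theorem harm_gen {E : Type} [AddCommGroup E] [Module ℝ E] {R : V → V → ℝ} {B : Set V}
    (hR : ∀ a b, 0 ≤ R a b) (hA : Abs R B) (φ : V → E) {a : V} (ha : a ∉ B) :
    gen R (harm R B φ) a = 0 := by
  simpa [ha] using harm_bd_row hR hA φ a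

open Classical in
theorem harm_mem_rep {E : Type} [AddCommGroup E] [Module ℝ E] {R : V → V → ℝ} {B : Set V}
    (hR : ∀ a b, 0 ≤ R a b) (hA : Abs R B) {u : V → E} (hu : ∀ a, a ∉ B → gen R u a = 0) (a : V) :
    u a = ∑ b ∈ Finset.univ.filter (· ∈ B), (mat R B)⁻¹ a b • u b := by
  have h1 : ∑ b, (mat R B)⁻¹ a b • ∑ c, mat R B b c • u c = u a := by
    simp only [Finset.smul_sum, smul_smul]
    rw [Finset.sum_comm]
    simp only [← Finset.sum_smul, ← Matrix.mul_apply, Matrix.nonsing_inv_mul _ (mat_det hR hA),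
      Matrix.one_apply, ite_smul, one_smul, zero_smul, Finset.sum_ite_eq, Finset.mem_univ, if_true]
  rw [← h1, Finset.sum_filter]
  refine Finset.sum_congr rfl fun b _ => ?_
  rw [mat_det_row]
  split_ifs with hb
  · rfl
  · rw [hu b hb, neg_zero, smul_zero]

/-- N4c. A harmonic function takes values in every convex set that contains its boundary values.
Hint: the entries of `(mat R B)⁻¹` in the columns of `B` are harmonic measures: non-negative with
row sum one (by `asc`); a harmonic `u` equals `harm R B u` (apply `mat⁻¹ * mat = 1`). -/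
theorem harm_mem {E : Type} [AddCommGroup E] [Module ℝ E] {R : V → V → ℝ} {B : Set V}
    (hR : ∀ a b, 0 ≤ R a b) (hA : Abs R B) {u : V → E} (hu : ∀ a, a ∉ B → gen R u a = 0)
    {C : Set E} (hC : Convex ℝ C) (hB : ∀ b ∈ B, u b ∈ C) (a : V) : u a ∈ C := by
  classical
  rw [harm_mem_rep hR hA hu a]
  refine hC.sum_mem (fun b hb => ?_) ?_ fun b hb => hB b (Finset.mem_filter.1 hb).2
  · have h1 : ∀ x, (if x ∈ B then (mat R B)⁻¹ x b else -gen R (fun c => (mat R B)⁻¹ c b) x) =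
        if x = b then 1 else 0 := fun x => by
      rw [← mat_det_row R B (fun c => (mat R B)⁻¹ c b) x, ← Matrix.one_apply,
        ← Matrix.mul_nonsing_inv _ (mat_det hR hA), Matrix.mul_apply]
      rfl
    refine mat_det_min hR hA (u := fun c => (mat R B)⁻¹ c b) (fun x hx => ?_) (fun x hx => ?_) a
    · have h2 := h1 x
      rw [if_neg hx, if_neg fun h : x = b => hx (h ▸ (Finset.mem_filter.1 hb).2),
        neg_eq_zero] at h2
      exact h2.le
    · have h2 := h1 x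
      rw [if_pos hx] at h2
      rw [h2]
      split_ifs
      exacts [zero_le_one, le_rfl]
  · simpa only [smul_eq_mul, mul_one] using (harm_mem_rep hR hA (u := fun _ => (1 : ℝ)) (fun a _ => by simp only [gen, sub_self, smul_eq_mul, mul_zero, Finset.sum_const_zero]) a).symm

/-- N5. Continuity in the rates. Hint: `continuousAt_matrix_inv`. -/
theorem harm_cont {E : Type} [NormedAddCommGroup E] [NormedSpace ℝ E] {R : V → V → ℝ} {B : Set V}
    (hR : ∀ a b, 0 ≤ R a b) (hA : Abs R B) (φ : V → E) (a : V) :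
    ContinuousAt (fun R' : V → V → ℝ => harm R' B φ a) R := by
  classical
  have h1 : Continuous fun R' : V → V → ℝ => mat R' B := by
    refine continuous_matrix fun x y => ?_
    simp only [mat]
    split_ifs <;> fun_prop
  obtain ⟨d, hd⟩ := mat_det hR hA
  have h2 : ContinuousAt (fun R' : V → V → ℝ => (mat R' B)⁻¹) R :=
    ContinuousAt.comp (f := fun R' : V → V → ℝ => mat R' B)
      (continuousAt_matrix_inv _ (hd ▸ NormedRing.inverse_continuousAt d)) h1.continuousAt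
  refine tendsto_finsetSum _ fun b _ => ContinuousAt.smul ?_ continuousAt_const
  exact ((continuous_apply_apply a b).continuousAt).comp h2

/-- N6a. -/
theorem green_cont (R : V → V → ℝ) (B : Set V) (b : V) :
    Continuous fun μ : V → ℝ => green R B μ b := by
  classical
  by_cases hb : b ∈ B
  · simp only [green, hb, if_true]
    exact continuous_const
  · simp only [green, hb, if_false]
    refine continuous_finsetSum _ fun a _ => ?_
    by_cases ha : a ∈ B
    · simp only [ha, if_true]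
      exact continuous_const
    · simp only [ha, if_false]
      exact (continuous_apply a).mul continuous_const

open Classical in
theorem green_nonneg_mul (R : V → V → ℝ) (B : Set V) (u : V → ℝ) (a : V) :
    ∑ c, mat R B a c * u c = if a ∈ B then u a else -gen R u a := by
  by_cases ha : a ∈ B
  · simp only [mat, ha, ↓ reduceIte, ite_mul, one_mul, zero_mul, Finset.sum_ite_eq, Finset.mem_univ]
  · simp only [mat, ha, if_false, gen, smul_eq_mul, sub_mul, mul_sub, Finset.sum_sub_distrib,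
      ite_mul, zero_mul, Finset.sum_ite_eq, Finset.mem_univ, if_true, Finset.sum_mul]
    ring

open Classical in
theorem green_nonneg_col {R : V → V → ℝ} {B : Set V} (hR : ∀ a b, 0 ≤ R a b) (hA : Abs R B)
    (a b : V) : (if a ∈ B then (mat R B)⁻¹ a b else -gen R (fun c => (mat R B)⁻¹ c b) a) =
      if a = b then 1 else 0 := by
  have h := congrFun (congrFun (Matrix.mul_nonsing_inv _ (mat_det hR hA)) a) b
  rw [Matrix.mul_apply, Matrix.one_apply] at h
  rw [← h]
  exact (green_nonneg_mul R B (fun c => (mat R B)⁻¹ c b) a).symm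

open Classical in
theorem green_nonneg_inv {R : V → V → ℝ} {B : Set V} (hR : ∀ a b, 0 ≤ R a b) (hA : Abs R B)
    (a b : V) : 0 ≤ (mat R B)⁻¹ a b := by
  have hu : ∀ x, x ∉ B → 0 ≤ gen R (fun c => -(mat R B)⁻¹ c b) x := by
    intro x hx
    have h := green_nonneg_col hR hA x b
    rw [if_neg hx] at h
    have h2 : gen R (fun c => -(mat R B)⁻¹ c b) x = -gen R (fun c => (mat R B)⁻¹ c b) x := by
      simp only [gen, smul_eq_mul, ← Finset.sum_neg_distrib]
      exact Finset.sum_congr rfl fun c _ => by ring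
    rw [h2, h]
    split_ifs <;> norm_num
  obtain ⟨c, hc, hle, -⟩ := asc hR hA hu a
  have h := green_nonneg_col hR hA c b
  rw [if_pos hc] at h
  have h3 : (0 : ℝ) ≤ (mat R B)⁻¹ c b := by
    rw [h]
    split_ifs <;> norm_num
  linarith

/-- N6b. Hint: the columns of `(mat R B)⁻¹` off `B` are superharmonic with zero boundary values. -/
theorem green_nonneg {R : V → V → ℝ} {B : Set V} (hR : ∀ a b, 0 ≤ R a b) (hA : Abs R B)
    {μ : V → ℝ} (hμ : ∀ a, a ∉ B → 0 ≤ μ a) (b : V) : 0 ≤ green R B μ b := by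
  classical
  unfold green
  split_ifs with hb
  · exact le_rfl
  · refine Finset.sum_nonneg fun a _ => mul_nonneg ?_ (green_nonneg_inv hR hA a b)
    split_ifs with ha
    · exact le_rfl
    · exact hμ a ha

theorem green_bd {R : V → V → ℝ} {B : Set V} (μ : V → ℝ) {b : V} (hb : b ∈ B) :
    green R B μ b = 0 := by
  simp [green, hb]

/-- N6c. The adjoint equation. Hint: `mat⁻¹ * mat = 1`, column `b`. -/
theorem green_adj {R : V → V → ℝ} {B : Set V} (hR : ∀ a b, 0 ≤ R a b) (hA : Abs R B)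
    (μ : V → ℝ) {b : V} (hb : b ∉ B) :
    green R B μ b * ∑ c, R b c - ∑ a, green R B μ a * R a b = μ b := by
  classical
  have h1 : ∀ x, ∑ a, (mat R B)⁻¹ x a * mat R B a b = if x = b then 1 else 0 := by
    intro x
    have h := congrFun (congrFun (Matrix.nonsing_inv_mul _ (mat_det hR hA)) x) b
    rw [Matrix.mul_apply, Matrix.one_apply] at h
    exact h
  have h2 : ∑ a, (∑ x, (if x ∈ B then 0 else μ x) * (mat R B)⁻¹ x a) * mat R B a b = μ b := by
    simp only [Finset.sum_mul, mul_assoc]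
    rw [Finset.sum_comm]
    simp only [← Finset.mul_sum, h1]
    simp only [mul_ite, mul_one, mul_zero, Finset.sum_ite_eq', Finset.mem_univ, ↓ reduceIte, hb]
  have h3 : ∀ a, (∑ x, (if x ∈ B then 0 else μ x) * (mat R B)⁻¹ x a) * mat R B a b =
      (if a = b then green R B μ a * ∑ c, R a c else 0) - green R B μ a * R a b := by
    intro a
    by_cases ha : a ∈ B
    · have hab : a ≠ b := fun h => hb (h ▸ ha)
      simp only [ite_mul, zero_mul, mat, ha, ↓ reduceIte, hab, mul_zero, green, sub_self]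
    · have hg : green R B μ a = ∑ x, (if x ∈ B then 0 else μ x) * (mat R B)⁻¹ x a := by
        simp only [green, ha, if_false]
      rw [← hg]
      have hm : mat R B a b = (if a = b then ∑ c, R a c else 0) - R a b := by
        simp only [mat, ha, if_false]
      rw [hm]
      split_ifs <;> ring
  rw [← h2, Finset.sum_congr rfl fun a _ => h3 a, Finset.sum_sub_distrib]
  simp only [Finset.sum_ite_eq', Finset.mem_univ, ↓ reduceIte]

/-- N6d. -/
theorem green_pos {R : V → V → ℝ} {B : Set V} (hR : ∀ a b, 0 ≤ R a b) (hA : Abs R B)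
    {μ : V → ℝ} (hμ : ∀ a, a ∉ B → 0 < μ a) {b : V} (hb : b ∉ B) : 0 < green R B μ b := by
  have h0 : ∀ a, 0 ≤ green R B μ a := green_nonneg hR hA fun a ha => (hμ a ha).le
  have h1 := green_adj hR hA μ hb
  have h2 : 0 ≤ ∑ a, green R B μ a * R a b :=
    Finset.sum_nonneg fun a _ => mul_nonneg (h0 a) (hR a b)
  have h3 := hμ b hb
  refine lt_of_le_of_ne (h0 b) fun h => ?_
  rw [← h] at h1
  linarith

open Classical in
/-- N7. Duality: pure algebra (exchange the sums). -/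
theorem dual {R : V → V → ℝ} {B : Set V} {G μ : V → ℝ} (hG : ∀ b ∈ B, G b = 0)
    (hadj : ∀ b, b ∉ B → G b * ∑ c, R b c - ∑ a, G a * R a b = μ b) (u : V → ℝ) :
    ∑ a, G a * gen R u a =
      ∑ b, if b ∈ B then (∑ a, G a * R a b) * u b else -(μ b * u b) := by
  have h1 : ∑ a, G a * gen R u a =
      ∑ b, ((∑ a, G a * R a b) * u b - G b * (∑ c, R b c) * u b) := by
    simp only [gen, smul_eq_mul, mul_sub, Finset.sum_sub_distrib, Finset.mul_sum, Finset.sum_mul]
    rw [Finset.sum_comm]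
    congr 1
    · exact Finset.sum_congr rfl fun b _ => Finset.sum_congr rfl fun a _ => by ring
    · exact Finset.sum_congr rfl fun b _ => Finset.sum_congr rfl fun a _ => by ring
  rw [h1]
  refine Finset.sum_congr rfl fun b _ => ?_
  split_ifs with hb
  · rw [hG b hb]; ring
  · rw [← hadj b hb]; ring

open Classical in
/-- N8. A potential bounds the occupation integral. Hint: `dual` with `u = k`. -/
theorem green_le {R : V → V → ℝ} {B : Set V} (hR : ∀ a b, 0 ≤ R a b) {G μ : V → ℝ}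
    (hG0 : ∀ b, 0 ≤ G b) (hG : ∀ b ∈ B, G b = 0) (hμ : ∀ a, a ∉ B → 0 ≤ μ a)
    (hadj : ∀ b, b ∉ B → G b * ∑ c, R b c - ∑ a, G a * R a b = μ b) {k φ : V → ℝ} {δ : ℝ}
    (hk0 : ∀ a, 0 ≤ k a) (hk : ∀ a, k a ≤ δ) (hφ : ∀ a, a ∉ B → φ a ≤ -gen R k a) :
    ∑ a, G a * φ a ≤ δ * ∑ a, if a ∈ B then 0 else μ a := by
  have h1 : ∑ a, G a * φ a ≤ -∑ a, G a * gen R k a := by
    rw [← Finset.sum_neg_distrib]
    refine Finset.sum_le_sum fun a _ => ?_
    by_cases ha : a ∈ B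
    · rw [hG a ha]; simp
    · have := mul_le_mul_of_nonneg_left (hφ a ha) (hG0 a)
      linarith
  refine h1.trans ?_
  rw [dual hG hadj k, ← Finset.sum_neg_distrib, Finset.mul_sum]
  refine Finset.sum_le_sum fun b _ => ?_
  split_ifs with hb
  · have : 0 ≤ (∑ a, G a * R a b) * k b :=
      mul_nonneg (Finset.sum_nonneg fun a _ => mul_nonneg (hG0 a) (hR a b)) (hk0 b)
    linarith
  · have := mul_le_mul_of_nonneg_left (hk b) (hμ b hb)
    linarith

open Classical in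
theorem exists_psi_nonneg {R : V → V → ℝ} {B : Set V} (hR : ∀ a b, 0 ≤ R a b) (hA : Abs R B)
    {G σ : V → ℝ} (hG : ∀ b ∈ B, G b = 0)
    (hadj : ∀ b, b ∉ B → G b * ∑ c, R b c - ∑ a, G a * R a b = σ b)
    (hσ : ∀ b, b ∉ B → 0 ≤ σ b) (x : V) : 0 ≤ G x := by
  by_cases hx : x ∈ B
  · exact (hG x hx).ge
  have h := dual hG hadj (fun c => (mat R B)⁻¹ c x)
  have h1 : ∀ a, G a * gen R (fun c => (mat R B)⁻¹ c x) a = if a = x then -G a else 0 := by
    intro a
    by_cases ha : a ∈ B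
    · rw [hG a ha]; simp
    · have h2 := green_nonneg_col hR hA a x
      rw [if_neg ha] at h2
      rw [neg_eq_iff_eq_neg.mp h2]
      split_ifs <;> ring
  rw [Finset.sum_congr rfl fun a _ => h1 a] at h
  simp only [Finset.sum_ite_eq', Finset.mem_univ, if_true] at h
  have h3 : (∑ b, if b ∈ B then (∑ a, G a * R a b) * (mat R B)⁻¹ b x
      else -(σ b * (mat R B)⁻¹ b x)) ≤ 0 := by
    refine Finset.sum_nonpos fun b _ => ?_
    split_ifs with hb
    · have h2 := green_nonneg_col hR hA b x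
      have hbx : b ≠ x := fun e => hx (e ▸ hb)
      rw [if_pos hb, if_neg hbx] at h2
      rw [h2]; simp only [mul_zero, Std.le_refl]
    · have := mul_nonneg (hσ b hb) (green_nonneg_inv hR hA b x)
      linarith only [this]
  linarith

open Classical in
/-- N9. The Green ratio of a flow `R` with sources at least `μ`, and its energy.
Hint: `ψ = green R B μ'`. The function `K - ψ` (zero on `B`) solves the adjoint equation with the
source `K * (out - in) - μ' ≥ 0`, so it is the Green function of that source (uniqueness: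
`mat_det`), hence non-negative. Energy: expand the square; with `out a = ∑ b, R a b` and
`inn a = ∑ b ∉ B, R b a ≤ out a` the sum is `∑ ψ² out - 2 ∑ ψ (ψ out - μ') + ∑ ψ² inn`. -/
theorem exists_psi {R : V → V → ℝ} {B : Set V} (hR : ∀ a b, 0 ≤ R a b) (hA : Abs R B)
    {μ μ' : V → ℝ} {K : ℝ} (hK : 0 ≤ K) (hμ : ∀ a, a ∉ B → 0 ≤ μ a)
    (hsrc : ∀ a, a ∉ B → μ a ≤ ∑ b, R a b - ∑ b, if b ∈ B then 0 else R b a)
    (h0 : ∀ a, a ∉ B → 0 ≤ μ' a) (h1 : ∀ a, a ∉ B → μ' a ≤ K * μ a) :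
    ∃ ψ : V → ℝ, (∀ a, 0 ≤ ψ a) ∧ (∀ a, ψ a ≤ K) ∧ (∀ b ∈ B, ψ b = 0) ∧
      (∑ a, if a ∈ B then 0 else ∑ b, R a b * (ψ a - ψ b) ^ 2) ≤
        2 * K * ∑ a, (if a ∈ B then 0 else μ' a) ∧
      ∀ u : V → ℝ, (∀ b ∈ B, u b = 0) → ∑ a, ψ a * gen R u a = -∑ a, μ' a * u a := by
  set ψ := green R B μ' with hψ
  have hψ0 : ∀ a, 0 ≤ ψ a := green_nonneg hR hA h0
  have hψB : ∀ b ∈ B, ψ b = 0 := fun b hb => green_bd μ' hb
  have hadj : ∀ b, b ∉ B → ψ b * ∑ c, R b c - ∑ a, ψ a * R a b = μ' b :=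
    fun b hb => green_adj hR hA μ' hb
  have hψK : ∀ a, ψ a ≤ K := by
    intro x
    by_cases hx : x ∈ B
    · rw [hψB x hx]; exact hK
    have h := exists_psi_nonneg hR hA (G := fun a => if a ∈ B then 0 else K - ψ a)
      (σ := fun b => K * (∑ c, R b c - ∑ c, if c ∈ B then 0 else R c b) - μ' b)
      (fun b hb => if_pos hb) ?_ ?_ x
    · simp only [hx, if_false] at h
      linarith
    · intro b hb
      have e : ∑ a, (if a ∈ B then 0 else K - ψ a) * R a b =
          K * (∑ c, if c ∈ B then 0 else R c b) - ∑ a, ψ a * R a b := by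
        rw [Finset.mul_sum, ← Finset.sum_sub_distrib]
        refine Finset.sum_congr rfl fun a _ => ?_
        split_ifs with ha
        · rw [hψB a ha]; ring
        · ring
      simp only [hb, if_false]
      rw [e, ← hadj b hb]
      ring
    · intro b hb
      have := mul_le_mul_of_nonneg_left (hsrc b hb) hK
      have := h1 b hb
      linarith
  refine ⟨ψ, hψ0, hψK, hψB, ?_, fun u hu => ?_⟩
  · have e1 : (∑ a, if a ∈ B then 0 else ∑ b, R a b * (ψ a - ψ b) ^ 2) =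
        ∑ a, (ψ a ^ 2 * ∑ b, R a b - 2 * (ψ a * ∑ b, ψ b * R b a) +
          ψ a ^ 2 * ∑ b, if b ∈ B then 0 else R b a) := by
      have e2 : ∀ a, (if a ∈ B then 0 else ∑ b, R a b * (ψ a - ψ b) ^ 2) =
          ∑ b, (ψ a ^ 2 * R a b - 2 * (ψ b * (ψ a * R a b)) +
            ψ b ^ 2 * if a ∈ B then 0 else R a b) := by
        intro a
        split_ifs with ha
        · rw [hψB a ha]; simp only [ne_eq, OfNat.ofNat_ne_zero, not_false_eq_true, zero_pow, zero_mul, mul_zero, sub_self, add_zero, Finset.sum_const_zero]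
        · exact Finset.sum_congr rfl fun b _ => by ring
      simp only [e2, Finset.sum_add_distrib, Finset.sum_sub_distrib, Finset.mul_sum]
      congr 1
      · congr 1
        exact Finset.sum_comm
      · exact Finset.sum_comm
    rw [e1, Finset.mul_sum]
    refine Finset.sum_le_sum fun a _ => ?_
    by_cases ha : a ∈ B
    · rw [hψB a ha, if_pos ha]; simp only [ne_eq, OfNat.ofNat_ne_zero, not_false_eq_true, zero_pow, zero_mul, mul_zero, sub_self, add_zero, Std.le_refl]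
    · rw [if_neg ha]
      have e3 : ∑ b, ψ b * R b a = ψ a * ∑ c, R a c - μ' a := by linarith [hadj a ha]
      have e4 : (∑ b, if b ∈ B then 0 else R b a) ≤ ∑ c, R a c := by
        linarith [hsrc a ha, hμ a ha]
      have e5 := mul_le_mul_of_nonneg_left e4 (sq_nonneg (ψ a))
      have e6 := mul_le_mul_of_nonneg_right (hψK a) (h0 a ha)
      rw [e3]
      linarith only [e5, e6]
  · rw [dual hψB hadj u, ← Finset.sum_neg_distrib]
    refine Finset.sum_congr rfl fun b _ => ?_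
    split_ifs with hb
    · rw [hu b hb]; simp only [mul_zero, neg_zero]
    · rfl

theorem harm_energy_sq {X : Type} [NormedAddCommGroup X] [InnerProductSpace ℝ X] (R : V → V → ℝ)
    (Z : V → X) (a : V) :
    gen R (fun b => ‖Z b‖ ^ 2) a =
      ∑ b, R a b * ‖Z b - Z a‖ ^ 2 + 2 * inner ℝ (Z a) (gen R Z a) := by
  simp only [gen, smul_eq_mul, inner_sum, inner_smul_right, Finset.mul_sum,
    ← Finset.sum_add_distrib]
  refine Finset.sum_congr rfl fun b _ => ?_
  rw [norm_sub_sq_real, inner_sub_right, real_inner_self_eq_norm_sq, real_inner_comm]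
  ring

open Classical in
/-- N10. Energy of a harmonic function for a conserved flow (`B` does not emit).
Hint: `dual` with `G = 1` off `B` and `u = ‖Z‖ ^ 2`, then with `u = 1`;
`gen R ‖Z‖² a = ∑ b, R a b ‖Z b - Z a‖² + 2 ⟪Z a, gen R Z a⟫`. -/
theorem harm_energy {X : Type} [NormedAddCommGroup X] [InnerProductSpace ℝ X] {R : V → V → ℝ}
    {B : Set V} (hR : ∀ a b, 0 ≤ R a b) {μ : V → ℝ} (hμ : ∀ a, a ∉ B → 0 ≤ μ a)
    (hsrc : ∀ a, a ∉ B → μ a = ∑ b, R a b - ∑ b, if b ∈ B then 0 else R b a)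
    {Z : V → X} (hZ : ∀ a, a ∉ B → gen R Z a = 0) {D : ℝ} (hD : ∀ b ∈ B, ‖Z b‖ ≤ D) :
    (∑ a, if a ∈ B then 0 else ∑ b, R a b * ‖Z b - Z a‖ ^ 2) ≤
      D ^ 2 * ∑ a, if a ∈ B then 0 else μ a := by
  have hG : ∀ b ∈ B, (fun a => if a ∈ B then (0 : ℝ) else 1) b = 0 := fun b hb => if_pos hb
  have hadj : ∀ b, b ∉ B → (fun a => if a ∈ B then (0 : ℝ) else 1) b * ∑ c, R b c -
      ∑ a, (fun a => if a ∈ B then (0 : ℝ) else 1) a * R a b = μ b := by
    intro b hb
    rw [hsrc b hb]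
    simp only [hb, ↓ reduceIte, one_mul, ite_mul, zero_mul]
  have h1 := dual hG hadj fun b => ‖Z b‖ ^ 2
  have h2 := dual hG hadj fun _ => 1
  have e1 : (∑ a, if a ∈ B then 0 else ∑ b, R a b * ‖Z b - Z a‖ ^ 2) =
      ∑ a, (if a ∈ B then (0 : ℝ) else 1) * gen R (fun b => ‖Z b‖ ^ 2) a := by
    refine Finset.sum_congr rfl fun a _ => ?_
    split_ifs with ha
    · simp
    · rw [harm_energy_sq, hZ a ha]; simp only [inner_zero_right, mul_zero, add_zero, one_mul]
  have e2 : ∑ a, (if a ∈ B then (0 : ℝ) else 1) * gen R (fun _ => (1 : ℝ)) a = 0 := by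
    simp only [gen, sub_self, smul_eq_mul, mul_zero, Finset.sum_const_zero]
  rw [e2] at h2
  rw [e1, h1]
  have e3 := congrArg (fun t => D ^ 2 * t) h2
  simp only [mul_zero, Finset.mul_sum] at e3
  rw [Finset.mul_sum]
  refine le_trans ?_ (le_of_eq (((congrArg (fun t => (∑ a, D ^ 2 * if a ∈ B then 0 else μ a) + t)
    e3).symm.trans (add_zero _))))
  rw [← Finset.sum_add_distrib]
  refine Finset.sum_le_sum fun b _ => ?_
  split_ifs with hb
  · have h3 : 0 ≤ ∑ a, (if a ∈ B then (0 : ℝ) else 1) * R a b :=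
      Finset.sum_nonneg fun a _ => mul_nonneg (by split_ifs <;> norm_num) (hR a b)
    have h4 : ‖Z b‖ ^ 2 ≤ D ^ 2 := pow_le_pow_left₀ (norm_nonneg _) (hD b hb) 2
    have h5 := mul_le_mul_of_nonneg_left h4 h3
    linarith
  · have h3 := mul_nonneg (hμ b hb) (sq_nonneg ‖Z b‖)
    linarith

/-- N11. A potential bounds the distance to the harmonic extension. Hint: for a functional `l` of
norm at most one, `u = l (φ - harm R B φ) - k` has `0 ≤ gen R u` off `B` and `u ≤ 0` on `B`; use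
`asc`, then `exists_dual_vector''`. -/
theorem harm_sub_le {E : Type} [NormedAddCommGroup E] [NormedSpace ℝ E] {R : V → V → ℝ}
    {B : Set V} (hR : ∀ a b, 0 ≤ R a b) (hA : Abs R B) {φ : V → E} {k : V → ℝ}
    (hk : ∀ b ∈ B, 0 ≤ k b) (hφ : ∀ a, a ∉ B → ‖gen R φ a‖ ≤ -gen R k a) (a : V) :
    ‖harm R B φ a - φ a‖ ≤ k a := by
  obtain ⟨l, hl, hx⟩ := exists_dual_vector'' ℝ (harm R B φ a - φ a)
  have h := mat_det_max hR hA (u := fun b => l (harm R B φ b - φ b) - k b) (fun x hx => ?_)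
    (fun b hb => ?_) a
  · rw [hx] at h
    exact sub_nonpos.1 h
  · have h1 : gen R (fun b => l (harm R B φ b - φ b) - k b) x =
        l (gen R (harm R B φ) x) - l (gen R φ x) - gen R k x := by
      simp only [gen, map_sum, map_smul, map_sub, smul_eq_mul, ← Finset.sum_sub_distrib]
      exact Finset.sum_congr rfl fun b _ => by ring
    have h2 : l (gen R φ x) ≤ ‖gen R φ x‖ :=
      (le_abs_self _).trans ((l.le_of_opNorm_le hl _).trans_eq (one_mul _))
    rw [h1, harm_gen hR hA φ hx, map_zero]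
    linarith [hφ x hx]
  · rw [harm_bd hR hA φ hb, sub_self, map_zero, zero_sub]
    exact neg_nonpos.2 (hk b hb)

/-- N12. -/
theorem gen_map {E E' : Type} [AddCommGroup E] [Module ℝ E] [AddCommGroup E'] [Module ℝ E']
    (R : V → V → ℝ) (u : V → E) (l : E →ₗ[ℝ] E') (a : V) :
    gen R (fun b => l (u b)) a = l (gen R u a) := by
  simp only [gen, map_sum, map_smul, map_sub]

/-- N13. -/
theorem gen_norm_sq {X : Type} [NormedAddCommGroup X] [InnerProductSpace ℝ X] (R : V → V → ℝ)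
    (Z : V → X) (a : V) :
    gen R (fun b => ‖Z b‖ ^ 2) a =
      ∑ b, R a b * ‖Z b - Z a‖ ^ 2 + 2 * inner ℝ (Z a) (gen R Z a) := by
  simp only [gen, inner_sum, real_inner_smul_right, Finset.mul_sum, ← Finset.sum_add_distrib,
    smul_eq_mul]
  refine Finset.sum_congr rfl fun b _ => ?_
  have h := norm_add_sq_real (Z a) (Z b - Z a)
  rw [add_sub_cancel] at h
  rw [h]
  ring

end Pool.Agent.MP_17e62b_gt.H14

/-! Subdivision of the jumps of a flow into directed cables. -/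

namespace Pool.Agent.MP_17e62b_gt.H14

open Set
open scoped BigOperators

/-- Subdivision parameters `0 = τ e 0 < ... < τ e (N e + 1) = 1` on every ordered pair. -/
structure Cut (V : Type) where
  N : V × V → ℕ
  τ : V × V → ℕ → ℝ
  zero : ∀ e, τ e 0 = 0
  one : ∀ e, τ e (N e + 1) = 1
  lt : ∀ e j, j ≤ N e → τ e j < τ e (j + 1)

namespace Cut

variable {V : Type} (c : Cut V)

/-- Old nodes and subdivision nodes. -/
abbrev Nd : Type := V ⊕ (Σ e : V × V, Fin (c.N e))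

/-- The `j`-th node of the cable `e`. -/
def node (e : V × V) (j : ℕ) : c.Nd :=
  if h0 : j = 0 then .inl e.1 else if h : j ≤ c.N e then .inr ⟨e, ⟨j - 1, by omega⟩⟩ else .inl e.2

/-- The length of the `j`-th piece. -/
def len (e : V × V) (j : ℕ) : ℝ := c.τ e (j + 1) - c.τ e j

/-- Affine interpolation along the cables. -/
noncomputable def ext {E : Type} [AddCommGroup E] [Module ℝ E] (φ : V → E) : c.Nd → E
  | .inl a => φ a
  | .inr u => AffineMap.lineMap (φ u.1.1) (φ u.1.2) (c.τ u.1 (u.2 + 1))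

theorem node_zero (e : V × V) : c.node e 0 = .inl e.1 := by simp [node]

theorem node_last (e : V × V) : c.node e (c.N e + 1) = .inl e.2 := by simp [node]

theorem node_succ (e : V × V) (j : Fin (c.N e)) : c.node e (j + 1) = .inr ⟨e, j⟩ := by
  have := j.2
  simp only [node, Nat.add_eq_zero_iff, one_ne_zero, and_false, ↓ reduceDIte, Nat.succ_le_of_lt this, add_tsub_cancel_right, Fin.eta]

/-- S1. -/
theorem τ_lt (e : V × V) {i j : ℕ} (hij : i < j) (hj : j ≤ c.N e + 1) : c.τ e i < c.τ e j := by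
  induction j with
  | zero => omega
  | succ k ih =>
    have hk : c.τ e k < c.τ e (k + 1) := c.lt e k (by omega)
    rcases Nat.lt_succ_iff_lt_or_eq.1 hij with h | h
    · exact (ih h (by omega)).trans hk
    · rw [h]; exact hk

theorem τ_mem (e : V × V) {j : ℕ} (hj : j ≤ c.N e + 1) : c.τ e j ∈ Icc (0 : ℝ) 1 := by
  constructor
  · rcases Nat.eq_zero_or_pos j with h | h
    · rw [h, c.zero]
    · have := c.τ_lt e h hj
      rw [c.zero] at this
      exact this.le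
  · rcases hj.lt_or_eq with h | h
    · have := c.τ_lt e h le_rfl
      rw [c.one] at this
      exact this.le
    · rw [h, c.one]

theorem ext_node {E : Type} [AddCommGroup E] [Module ℝ E] (φ : V → E) (e : V × V) {j : ℕ}
    (hj : j ≤ c.N e + 1) :
    c.ext φ (c.node e j) = AffineMap.lineMap (φ e.1) (φ e.2) (c.τ e j) := by
  rcases Nat.eq_zero_or_pos j with h | h
  · rw [h, c.node_zero, c.zero, AffineMap.lineMap_apply_zero]
    rfl
  · rcases hj.lt_or_eq with h' | h'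
    · obtain ⟨k, rfl⟩ : ∃ k, j = k + 1 := ⟨j - 1, by omega⟩
      have hk : k < c.N e := by omega
      have := c.node_succ e ⟨k, hk⟩
      simp only at this
      rw [this]
      rfl
    · rw [h', c.node_last, c.one, AffineMap.lineMap_apply_one]
      rfl

theorem rate_len_pos (e : V × V) {j : ℕ} (hj : j ≤ c.N e) : 0 < c.len e j :=
  sub_pos.2 (c.lt e j hj)

theorem sum_inl_node_eq (e : V × V) (j : ℕ) (a : V) :
    Sum.inl a = c.node e j ↔ (j = 0 ∧ a = e.1) ∨ (c.N e < j ∧ a = e.2) := by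
  unfold node
  split_ifs with h0 h1
  · simp [h0]
  · simp only [false_iff]
    rintro (⟨h, -⟩ | ⟨h, -⟩) <;> omega
  · simp only [Sum.inl.injEq]
    constructor
    · intro h; exact Or.inr ⟨by omega, h⟩
    · rintro (⟨h, -⟩ | ⟨-, h⟩)
      · exact absurd h h0
      · exact h

theorem sum_inr_node_eq (e e' : V × V) (j : Fin (c.N e)) (j' : ℕ) :
    Sum.inr ⟨e, j⟩ = c.node e' j' ↔ e' = e ∧ j' = j + 1 := by
  constructor
  · intro h
    unfold node at h
    split_ifs at h with h0 h1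
    · simp only [Sum.inr.injEq, Sigma.mk.injEq] at h
      obtain ⟨rfl, h2⟩ := h
      refine ⟨rfl, ?_⟩
      have h3 := congrArg Fin.val (eq_of_heq h2)
      simp only at h3
      omega
  · rintro ⟨rfl, rfl⟩
    exact (c.node_succ e' j).symm

variable [Fintype V]

open Classical in
/-- The subdivided flow: on the `j`-th piece `q (1 - τ j) / len` forwards and
`q (1 - τ (j + 1)) / len` backwards. -/
noncomputable def rate (q : V → V → ℝ) (u u' : c.Nd) : ℝ :=
  ∑ e : V × V, ∑ j ∈ Finset.range (c.N e + 1),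
    ((if u = c.node e j ∧ u' = c.node e (j + 1) then q e.1 e.2 * (1 - c.τ e j) / c.len e j else 0) +
      if u = c.node e (j + 1) ∧ u' = c.node e j then q e.1 e.2 * (1 - c.τ e (j + 1)) / c.len e j
      else 0)

variable {q : V → V → ℝ}

omit [Fintype V] in
theorem rate_term_nonneg (hq : ∀ a b, 0 ≤ q a b) (e : V × V) {i j : ℕ} (hj : j ≤ c.N e)
    (hi : i ≤ c.N e + 1) (p : Prop) {_ : Decidable p} :
    0 ≤ if p then q e.1 e.2 * (1 - c.τ e i) / c.len e j else 0 := by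
  split_ifs
  · exact div_nonneg (mul_nonneg (hq _ _) (sub_nonneg.2 (c.τ_mem e hi).2))
      (c.rate_len_pos e hj).le
  · exact le_rfl

omit [Fintype V] in
theorem rate_term_pos {e : V × V} (he : 0 < q e.1 e.2) {i j : ℕ} (hj : j ≤ c.N e)
    (hi : i ≤ c.N e) : 0 < q e.1 e.2 * (1 - c.τ e i) / c.len e j := by
  have h := c.τ_lt e (Nat.lt_succ_of_le hi) le_rfl
  rw [c.one] at h
  exact div_pos (mul_pos he (sub_pos.2 h)) (c.rate_len_pos e hj)

/-- S2. -/
theorem rate_nonneg (hq : ∀ a b, 0 ≤ q a b) (u u' : c.Nd) : 0 ≤ c.rate q u u' := by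
  unfold rate
  refine Finset.sum_nonneg fun e _ => Finset.sum_nonneg fun j hj => ?_
  have hj' : j ≤ c.N e := Nat.lt_succ_iff.1 (Finset.mem_range.1 hj)
  exact add_nonneg (c.rate_term_nonneg hq e hj' (by omega) _)
    (c.rate_term_nonneg hq e hj' (by omega) _)

theorem rate_fwd (hq : ∀ a b, 0 ≤ q a b) {e : V × V} (he : 0 < q e.1 e.2) {j : ℕ}
    (hj : j ≤ c.N e) : 0 < c.rate q (c.node e j) (c.node e (j + 1)) := by
  unfold rate
  refine Finset.sum_pos' (fun e' _ => Finset.sum_nonneg fun j' hj' => ?_)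
    ⟨e, Finset.mem_univ _, Finset.sum_pos' (fun j' hj' => ?_)
      ⟨j, Finset.mem_range.2 (Nat.lt_succ_of_le hj), ?_⟩⟩
  · have hj'' : j' ≤ c.N e' := Nat.lt_succ_iff.1 (Finset.mem_range.1 hj')
    exact add_nonneg (c.rate_term_nonneg hq e' hj'' (by omega) _)
      (c.rate_term_nonneg hq e' hj'' (by omega) _)
  · have hj'' : j' ≤ c.N e := Nat.lt_succ_iff.1 (Finset.mem_range.1 hj')
    exact add_nonneg (c.rate_term_nonneg hq e hj'' (by omega) _)
      (c.rate_term_nonneg hq e hj'' (by omega) _)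
  · refine add_pos_of_pos_of_nonneg ?_ (c.rate_term_nonneg hq e hj (by omega) _)
    rw [if_pos ⟨rfl, rfl⟩]
    exact c.rate_term_pos he hj hj

theorem rate_bwd (hq : ∀ a b, 0 ≤ q a b) {e : V × V} (he : 0 < q e.1 e.2) {j : ℕ}
    (hj : j < c.N e) : 0 < c.rate q (c.node e (j + 1)) (c.node e j) := by
  unfold rate
  refine Finset.sum_pos' (fun e' _ => Finset.sum_nonneg fun j' hj' => ?_)
    ⟨e, Finset.mem_univ _, Finset.sum_pos' (fun j' hj' => ?_)
      ⟨j, Finset.mem_range.2 (Nat.lt_succ_of_lt hj), ?_⟩⟩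
  · have hj'' : j' ≤ c.N e' := Nat.lt_succ_iff.1 (Finset.mem_range.1 hj')
    exact add_nonneg (c.rate_term_nonneg hq e' hj'' (by omega) _)
      (c.rate_term_nonneg hq e' hj'' (by omega) _)
  · have hj'' : j' ≤ c.N e := Nat.lt_succ_iff.1 (Finset.mem_range.1 hj')
    exact add_nonneg (c.rate_term_nonneg hq e hj'' (by omega) _)
      (c.rate_term_nonneg hq e hj'' (by omega) _)
  · refine add_pos_of_nonneg_of_pos (c.rate_term_nonneg hq e hj.le (by omega) _) ?_
    rw [if_pos ⟨rfl, rfl⟩]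
    exact c.rate_term_pos he hj.le hj

theorem of_rate_pos (hq : ∀ a b, 0 ≤ q a b) {u u' : c.Nd} (h : 0 < c.rate q u u') :
    ∃ e : V × V, ∃ j ≤ c.N e, 0 < q e.1 e.2 ∧
      ((u = c.node e j ∧ u' = c.node e (j + 1)) ∨ (u = c.node e (j + 1) ∧ u' = c.node e j)) := by
  by_contra hcon
  refine h.ne' ?_
  unfold rate
  refine Finset.sum_eq_zero fun e _ => Finset.sum_eq_zero fun j hj => ?_
  have hj' : j ≤ c.N e := Nat.lt_succ_iff.1 (Finset.mem_range.1 hj)
  rcases (hq e.1 e.2).lt_or_eq with he | he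
  · rw [if_neg, if_neg, add_zero]
    · exact fun h' => hcon ⟨e, j, hj', he, Or.inr h'⟩
    · exact fun h' => hcon ⟨e, j, hj', he, Or.inl h'⟩
  · simp [← he]

open Classical in
theorem sum_inl_master {E : Type} [AddCommGroup E] [Module ℝ E] (u : c.Nd) (g : c.Nd → E) :
    ∑ u', c.rate q u u' • g u' = ∑ e : V × V, ∑ j ∈ Finset.range (c.N e + 1),
      ((if u = c.node e j then (q e.1 e.2 * (1 - c.τ e j) / c.len e j) • g (c.node e (j + 1))
        else 0) +
      if u = c.node e (j + 1) then (q e.1 e.2 * (1 - c.τ e (j + 1)) / c.len e j) • g (c.node e j)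
        else 0) := by
  unfold rate
  simp only [Finset.sum_smul]
  rw [Finset.sum_comm]
  refine Finset.sum_congr rfl fun e _ => ?_
  rw [Finset.sum_comm]
  refine Finset.sum_congr rfl fun j _ => ?_
  simp only [add_smul, Finset.sum_add_distrib]
  congr 1
  · by_cases h : u = c.node e j
    · simp only [h, true_and, if_true, ite_smul, zero_smul]
      rw [Finset.sum_ite_eq' Finset.univ (c.node e (j + 1))]
      simp only [Finset.mem_univ, ↓ reduceIte]
    · simp only [h, false_and, ↓ reduceIte, zero_smul, Finset.sum_const_zero]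
  · by_cases h : u = c.node e (j + 1)
    · simp only [h, true_and, if_true, ite_smul, zero_smul]
      rw [Finset.sum_ite_eq' Finset.univ (c.node e j)]
      simp only [Finset.mem_univ, ↓ reduceIte]
    · simp only [h, false_and, ↓ reduceIte, zero_smul, Finset.sum_const_zero]

/-- S3. For any test function `g u u'`: the sum over all jumps out of an old node. -/
theorem sum_inl {E : Type} [AddCommGroup E] [Module ℝ E] (a : V) (g : c.Nd → E) :
    ∑ u, c.rate q (.inl a) u • g u = ∑ b, (q a b / c.τ (a, b) 1) • g (c.node (a, b) 1) := by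
  classical
  rw [c.sum_inl_master]
  have key : ∀ e : V × V, ∑ j ∈ Finset.range (c.N e + 1),
      ((if Sum.inl a = c.node e j then
        (q e.1 e.2 * (1 - c.τ e j) / c.len e j) • g (c.node e (j + 1)) else 0) +
      if Sum.inl a = c.node e (j + 1) then
        (q e.1 e.2 * (1 - c.τ e (j + 1)) / c.len e j) • g (c.node e j) else 0) =
      if a = e.1 then (q e.1 e.2 / c.τ e 1) • g (c.node e 1) else 0 := by
    intro e
    rw [Finset.sum_add_distrib]
    have h2 : ∑ j ∈ Finset.range (c.N e + 1), (if Sum.inl a = c.node e (j + 1) then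
        (q e.1 e.2 * (1 - c.τ e (j + 1)) / c.len e j) • g (c.node e j) else 0) = 0 := by
      refine Finset.sum_eq_zero fun j hj => ?_
      have hj' : j ≤ c.N e := Nat.lt_succ_iff.1 (Finset.mem_range.1 hj)
      split_ifs with h
      · rcases (c.sum_inl_node_eq e (j + 1) a).1 h with ⟨h1, -⟩ | ⟨h1, -⟩
        · omega
        · have : j = c.N e := by omega
          rw [this, c.one]
          simp
      · rfl
    rw [h2, add_zero, Finset.sum_eq_single 0]
    · rw [c.node_zero]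
      simp [len, c.zero]
    · intro j hj hj0
      have hj' : j ≤ c.N e := Nat.lt_succ_iff.1 (Finset.mem_range.1 hj)
      rw [if_neg]
      intro h
      rcases (c.sum_inl_node_eq e j a).1 h with ⟨h1, -⟩ | ⟨h1, -⟩ <;> omega
    · intro h
      exact absurd (Finset.mem_range.2 (Nat.succ_pos _)) h
  refine (Finset.sum_congr rfl fun e _ => ?_).trans
    (?_ : ∑ e : V × V, (if a = e.1 then (q e.1 e.2 / c.τ e 1) • g (c.node e 1) else 0) = _)
  · convert key e
  · rw [Fintype.sum_prod_type, Finset.sum_eq_single a]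
    · simp only [↓ reduceIte]
    · intro b _ hb
      simp [hb.symm]
    · intro h
      exact absurd (Finset.mem_univ a) h

/-- S4. The same for a subdivision node. -/
theorem sum_inr {E : Type} [AddCommGroup E] [Module ℝ E] (e : V × V) (j : Fin (c.N e))
    (g : c.Nd → E) :
    ∑ u, c.rate q (.inr ⟨e, j⟩) u • g u =
      (q e.1 e.2 * (1 - c.τ e (j + 1)) / c.len e (j + 1)) • g (c.node e (j + 2)) +
        (q e.1 e.2 * (1 - c.τ e (j + 1)) / c.len e j) • g (c.node e j) := by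
  classical
  rw [c.sum_inl_master, Finset.sum_eq_single e]
  · rw [Finset.sum_add_distrib, Finset.sum_eq_single (j.1 + 1), Finset.sum_eq_single j.1]
    · rw [if_pos (c.node_succ e j).symm, if_pos (c.node_succ e j).symm]
    · intro i _ hi
      rw [if_neg]
      intro h
      have := ((c.sum_inr_node_eq e e j (i + 1)).1 h).2
      omega
    · intro h
      exact absurd (Finset.mem_range.2 (Nat.lt_succ_of_lt j.2)) h
    · intro i _ hi
      rw [if_neg]
      intro h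
      exact hi ((c.sum_inr_node_eq e e j i).1 h).2
    · intro h
      exact absurd (Finset.mem_range.2 (Nat.succ_lt_succ j.2)) h
  · intro e' _ he'
    refine Finset.sum_eq_zero fun i _ => ?_
    rw [if_neg, if_neg, add_zero]
    · exact fun h => he' ((c.sum_inr_node_eq e e' j _).1 h).1
    · exact fun h => he' ((c.sum_inr_node_eq e e' j _).1 h).1
  · intro h
    exact absurd (Finset.mem_univ e) h

/-- S5. The kink at a subdivision node. -/
theorem gen_inr {E : Type} [AddCommGroup E] [Module ℝ E] (e : V × V) (j : Fin (c.N e))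
    (g : c.Nd → E) :
    gen (c.rate q) g (.inr ⟨e, j⟩) = (q e.1 e.2 * (1 - c.τ e (j + 1))) •
      ((c.len e (j + 1))⁻¹ • (g (c.node e (j + 2)) - g (.inr ⟨e, j⟩)) -
        (c.len e j)⁻¹ • (g (.inr ⟨e, j⟩) - g (c.node e j))) := by
  unfold gen
  rw [c.sum_inr e j (fun u => g u - g (.inr ⟨e, j⟩))]
  simp only [div_eq_mul_inv]
  module

theorem gen_ext_inl {E : Type} [AddCommGroup E] [Module ℝ E] (φ : V → E) (a : V) :
    gen (c.rate q) (c.ext φ) (.inl a) = gen q φ a := by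
  unfold gen
  rw [c.sum_inl a (fun u => c.ext φ u - c.ext φ (.inl a))]
  refine Finset.sum_congr rfl fun b _ => ?_
  have h1 : 0 < c.τ (a, b) 1 := by
    have := c.lt (a, b) 0 (Nat.zero_le _)
    rwa [c.zero] at this
  rw [c.ext_node φ (a, b) (Nat.succ_le_succ (Nat.zero_le _))]
  have h2 : c.ext φ (.inl a) = φ a := rfl
  rw [h2, AffineMap.lineMap_apply_module']
  simp only [add_sub_cancel_right, smul_smul]
  rw [div_mul_cancel₀ _ h1.ne']

theorem gen_ext_inr {E : Type} [AddCommGroup E] [Module ℝ E] (φ : V → E) (e : V × V)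
    (j : Fin (c.N e)) : gen (c.rate q) (c.ext φ) (.inr ⟨e, j⟩) = 0 := by
  have hj := j.2
  rw [c.gen_inr, ← c.node_succ e j, c.ext_node φ e (j := j + 2) (by omega),
    c.ext_node φ e (j := j + 1) (by omega), c.ext_node φ e (j := j) (by omega)]
  have h1 := (c.rate_len_pos e (j := j + 1) (by omega)).ne'
  have h0 := (c.rate_len_pos e (j := j) (by omega)).ne'
  have e1 : AffineMap.lineMap (φ e.1) (φ e.2) (c.τ e (j + 2)) -
      AffineMap.lineMap (φ e.1) (φ e.2) (c.τ e (j + 1)) = c.len e (j + 1) • (φ e.2 - φ e.1) := by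
    simp only [AffineMap.lineMap_apply_module', len]
    module
  have e0 : AffineMap.lineMap (φ e.1) (φ e.2) (c.τ e (j + 1)) -
      AffineMap.lineMap (φ e.1) (φ e.2) (c.τ e j) = c.len e j • (φ e.2 - φ e.1) := by
    simp only [AffineMap.lineMap_apply_module', len]
    module
  rw [e1, e0, smul_smul, smul_smul, inv_mul_cancel₀ h1, inv_mul_cancel₀ h0, sub_self, smul_zero]

theorem cons_inl_master (g : c.Nd → ℝ) :
    ∑ u, ∑ u', c.rate q u u' * (g u - g u') =
      ∑ e : V × V, q e.1 e.2 * (g (.inl e.1) - g (.inl e.2)) := by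
  classical
  have h1 : ∀ u, ∑ u', c.rate q u u' * (g u - g u') = _ := fun u =>
    c.sum_inl_master (q := q) u (fun u' => g u - g u')
  simp only [h1]
  rw [Finset.sum_comm]
  refine Finset.sum_congr rfl fun e _ => ?_
  rw [Finset.sum_comm, ← c.node_zero e, ← c.node_last e,
    ← Finset.sum_range_sub' (fun j => g (c.node e j)), Finset.mul_sum]
  refine Finset.sum_congr rfl fun j hj => ?_
  have hj' : j ≤ c.N e := Nat.lt_succ_iff.1 (Finset.mem_range.1 hj)
  have hl := (c.rate_len_pos e hj').ne'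
  rw [Finset.sum_add_distrib, Finset.sum_ite_eq' Finset.univ (c.node e j),
    Finset.sum_ite_eq' Finset.univ (c.node e (j + 1))]
  simp only [Finset.mem_univ, if_true, smul_eq_mul]
  have hl' : c.len e j = c.τ e (j + 1) - c.τ e j := rfl
  field_simp
  rw [hl']
  ring

open Classical in
theorem cons_inl_ind (u₀ : c.Nd) :
    ∑ u, c.rate q u₀ u - ∑ u, c.rate q u u₀ = ∑ e : V × V, q e.1 e.2 *
      ((if Sum.inl e.1 = u₀ then 1 else 0) - if Sum.inl e.2 = u₀ then 1 else 0) := by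
  rw [← c.cons_inl_master (q := q) (fun u => if u = u₀ then 1 else 0)]
  simp only [mul_sub, Finset.sum_sub_distrib]
  congr 1
  · symm
    rw [Finset.sum_eq_single u₀]
    · simp only [if_true, mul_one]
    · intro u _ hu
      simp only [hu, ↓ reduceIte, mul_zero, Finset.sum_const_zero]
    · intro h
      exact absurd (Finset.mem_univ _) h
  · refine Finset.sum_congr rfl fun u _ => ?_
    simp only [mul_ite, mul_one, mul_zero, Finset.sum_ite_eq', Finset.mem_univ, ↓ reduceIte]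

/-- S6. Conservation. Hint: for every `g`, `∑ u, g u * (out u - inn u)` is the sum over the pieces
of `q e * (g (node e j) - g (node e (j + 1)))`, which telescopes to
`∑ e, q e * (g (inl e.1) - g (inl e.2))`; take indicators. -/
theorem cons_inl (a : V) :
    ∑ u, c.rate q (.inl a) u - ∑ u, c.rate q u (.inl a) = ∑ b, q a b - ∑ b, q b a := by
  classical
  rw [c.cons_inl_ind]
  simp only [mul_sub, Finset.sum_sub_distrib, Fintype.sum_prod_type, Sum.inl.injEq]
  congr 1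
  · rw [Finset.sum_eq_single a]
    · simp only [↓ reduceIte, mul_one]
    · intro b _ hb
      simp only [hb, ↓ reduceIte, mul_zero, Finset.sum_const_zero]
    · intro h
      exact absurd (Finset.mem_univ _) h
  · refine Finset.sum_congr rfl fun b _ => ?_
    simp only [mul_ite, mul_one, mul_zero, Finset.sum_ite_eq', Finset.mem_univ, ↓ reduceIte]

theorem cons_inr (u₀ : Σ e : V × V, Fin (c.N e)) :
    ∑ u, c.rate q (.inr u₀) u - ∑ u, c.rate q u (.inr u₀) = 0 := by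
  rw [c.cons_inl_ind]
  simp only [reduceCtorEq, ↓ reduceIte, sub_self, mul_zero, Finset.sum_const_zero]

theorem rate_stop {b : V} (hb : ∀ a, q b a = 0) (u : c.Nd) : c.rate q (.inl b) u = 0 := by
  classical
  have h := c.sum_inl (q := q) b (fun u' => if u' = u then (1 : ℝ) else 0)
  simpa only [smul_eq_mul, mul_ite, mul_one, mul_zero, Finset.sum_ite_eq', Finset.mem_univ, ↓ reduceIte, hb, zero_div, ite_self, Finset.sum_const_zero] using h

/-- S7. Hint: a set closed under jumps contains with a node of a cable its last node. -/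
theorem abs (hq : ∀ a b, 0 ≤ q a b) {B : Set V} (hA : Abs q B)
    (hN : ∀ e, c.N e ≠ 0 → 0 < q e.1 e.2) : Abs (c.rate q) (Sum.inl '' B) := by
  intro S hS hd
  by_contra hcon
  have hcl : ∀ u ∈ S, ∀ u', 0 < c.rate q u u' → u' ∈ S := by
    intro u hu u' h
    by_contra h'
    exact hcon ⟨u, hu, u', h', h⟩
  have hlast : ∀ e : V × V, 0 < q e.1 e.2 → ∀ j, j ≤ c.N e + 1 → c.node e j ∈ S →
      Sum.inl e.2 ∈ S := by
    intro e he j hj hjS
    rw [← c.node_last e]
    induction hj' : c.N e + 1 - j generalizing j with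
    | zero =>
      have : j = c.N e + 1 := by omega
      rwa [← this]
    | succ k ih =>
      exact ih (j + 1) (by omega) (hcl _ hjS _ (c.rate_fwd hq he (by omega))) (by omega)
  have hne : {a : V | Sum.inl a ∈ S}.Nonempty := by
    obtain ⟨u, hu⟩ := hS
    rcases u with a | ⟨e, j⟩
    · exact ⟨a, hu⟩
    · have hj := j.2
      exact ⟨e.2, hlast e (hN e (by omega)) (j + 1) (by omega) (by rwa [c.node_succ])⟩
  have hdis : Disjoint {a : V | Sum.inl a ∈ S} B :=
    Set.disjoint_left.2 fun a ha hb => Set.disjoint_left.1 hd ha ⟨a, hb, rfl⟩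
  obtain ⟨a, ha, b, hb, hab⟩ := hA _ hne hdis
  exact hb (hlast (a, b) hab 0 (Nat.zero_le _) (by rwa [c.node_zero]))

end Cut

end Pool.Agent.MP_17e62b_gt.H14

/-! Merging nodes: the merged chain and the error estimate. -/

namespace Pool.Agent.MP_17e62b_gt.H14

open Set
open scoped BigOperators

variable {V N : Type} [Fintype V] [Fintype N]

open Classical in
/-- The rates after merging the fibres of `π`. -/
noncomputable def mrg (π : V → N) (R : V → V → ℝ) (p p' : N) : ℝ :=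
  ∑ a, ∑ a', if π a = p ∧ π a' = p' then R a a' else 0

open Classical in
/-- G1. -/
theorem gen_mrg {E : Type} [AddCommGroup E] [Module ℝ E] (π : V → N) (R : V → V → ℝ) (g : N → E)
    (p : N) : gen (mrg π R) g p = ∑ a, if π a = p then gen R (fun b => g (π b)) a else 0 := by
  simp only [gen, mrg, Finset.sum_smul]
  rw [Finset.sum_comm]
  refine Finset.sum_congr rfl fun a _ => ?_
  by_cases h : π a = p
  · subst h
    rw [if_pos rfl, Finset.sum_comm]
    refine Finset.sum_congr rfl fun b _ => ?_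
    simp only [true_and, ite_smul, zero_smul, Finset.sum_ite_eq, Finset.mem_univ, ↓ reduceIte]
  · simp only [h, false_and, ↓ reduceIte, zero_smul, Finset.sum_const_zero]

theorem mrg_nonneg (π : V → N) {R : V → V → ℝ} (hR : ∀ a b, 0 ≤ R a b) (p p' : N) :
    0 ≤ mrg π R p p' := by
  classical
  refine Finset.sum_nonneg fun a _ => Finset.sum_nonneg fun b _ => ?_
  split_ifs
  exacts [hR a b, le_rfl]

theorem mrg_pos_iff (π : V → N) {R : V → V → ℝ} (hR : ∀ a b, 0 ≤ R a b) {p p' : N} :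
    0 < mrg π R p p' ↔ ∃ a a', π a = p ∧ π a' = p' ∧ 0 < R a a' := by
  classical
  have h0 : ∀ a b, 0 ≤ if π a = p ∧ π b = p' then R a b else 0 := fun a b => by
    split_ifs
    exacts [hR a b, le_rfl]
  rw [mrg, Finset.sum_pos_iff_of_nonneg fun a _ => Finset.sum_nonneg fun b _ => h0 a b]
  constructor
  · rintro ⟨a, -, h⟩
    obtain ⟨b, -, h⟩ := (Finset.sum_pos_iff_of_nonneg fun b _ => h0 a b).1 h
    split_ifs at h with h1
    exacts [⟨a, b, h1.1, h1.2, h⟩, absurd h (lt_irrefl _)]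
  · rintro ⟨a, b, h1, h2, h⟩
    exact ⟨a, Finset.mem_univ a, (Finset.sum_pos_iff_of_nonneg fun b _ => h0 a b).2
      ⟨b, Finset.mem_univ b, by rwa [if_pos ⟨h1, h2⟩]⟩⟩

theorem abs_mrg {π : V → N} (hπ : Function.Surjective π) {R : V → V → ℝ}
    (hR : ∀ a b, 0 ≤ R a b) {B : Set V} (hA : Abs R B) : Abs (mrg π R) (π '' B) := by
  rintro S ⟨p, hp⟩ hd
  obtain ⟨a, rfl⟩ := hπ p
  obtain ⟨x, hx, y, hy, h⟩ := hA (π ⁻¹' S) ⟨a, hp⟩
    (disjoint_left.2 fun b h1 h2 => disjoint_left.1 hd h1 ⟨b, h2, rfl⟩)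
  exact ⟨π x, hx, π y, hy, (mrg_pos_iff π hR).2 ⟨x, y, rfl, rfl, h⟩⟩

theorem kink_est_cs {r f g : V → V → ℝ} (hf : ∀ a b, 0 ≤ f a b) (hg : ∀ a b, 0 ≤ g a b)
    (h : ∀ a b, r a b ^ 2 ≤ f a b * g a b) :
    |∑ a, ∑ b, r a b| ≤ √(∑ a, ∑ b, f a b) * √(∑ a, ∑ b, g a b) := by
  simp only [← Fintype.sum_prod_type']
  refine (Finset.abs_sum_le_sum_abs _ _).trans ((Finset.sum_le_sum fun x _ => ?_).trans
    (Real.sum_sqrt_mul_sqrt_le _ (fun x : V × V => hf x.1 x.2) fun x : V × V => hg x.1 x.2))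
  rw [← Real.sqrt_mul (hf _ _)]
  exact Real.abs_le_sqrt (h _ _)

open Classical in
/-- G2. Transport inside the fibres. Hint: on a fibre with `D = ∑ k⁺ = ∑ k⁻ > 0` put
`t a a' = k a * (- k a') / D` for `k a > 0 > k a'`; then `∑ ψ k = ∑ t a a' (ψ a - ψ a')` and
`∑ t ^ 2 / c ≤ A p`; Cauchy-Schwarz over all pairs. -/
theorem kink_est (π : V → N) {c : V → V → ℝ} {k ψ : V → ℝ} {A : N → ℝ}
    (hc : ∀ a a', 0 ≤ c a a') (hA : ∀ p, 0 ≤ A p)
    (hk0 : ∀ p, (∑ a, if π a = p then k a else 0) = 0)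
    (hk : ∀ a a', π a = π a' → 0 < k a → k a' < 0 → k a * -k a' ≤ c a a' * A (π a)) :
    |∑ a, ψ a * k a| ≤ √(∑ a, ∑ a', c a a' * (ψ a - ψ a') ^ 2) * √(∑ p, A p) := by
  obtain ⟨D, hD⟩ : ∃ D : N → ℝ, ∀ p, D p = ∑ a, if π a = p then max (k a) 0 else 0 :=
    ⟨_, fun _ => rfl⟩
  have e0 : ∀ a, k a = max (k a) 0 - max (-k a) 0 := fun a =>
    (max_zero_sub_max_neg_zero_eq_self _).symm
  have hD' : ∀ p, D p = ∑ a, if π a = p then max (-k a) 0 else 0 := fun p => by
    rw [hD, ← sub_eq_zero, ← Finset.sum_sub_distrib]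
    refine (Finset.sum_congr rfl fun a _ => ?_).trans (hk0 p)
    split_ifs
    exacts [(e0 a).symm, sub_zero _]
  have key : ∀ x : V → ℝ, (∀ a, 0 ≤ x a) → (∀ p, D p = ∑ a, if π a = p then x a else 0) →
      ∀ a, x a * D (π a) / D (π a) = x a := fun x hx h a => by
    by_cases h0 : D (π a) = 0
    · have h1 := (Finset.sum_eq_zero_iff_of_nonneg fun b _ => by
        split_ifs
        exacts [hx b, le_rfl]).1 ((h _).symm.trans h0) a (Finset.mem_univ a)
      rw [if_pos rfl] at h1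
      rw [h1, zero_mul, zero_div]
    · exact mul_div_cancel_right₀ _ h0
  have D0 : ∀ p, 0 ≤ D p := fun p => hD p ▸ Finset.sum_nonneg fun a _ => by
    split_ifs
    exacts [le_max_right _ _, le_rfl]
  obtain ⟨t, ht⟩ : ∃ t : V → V → ℝ, ∀ a b,
      t a b = if π a = π b then max (k a) 0 * max (-k b) 0 / D (π a) else 0 := ⟨_, fun _ _ => rfl⟩
  have t0 : ∀ a b, 0 ≤ t a b := fun a b => by
    rw [ht]
    split_ifs
    exacts [div_nonneg (mul_nonneg (le_max_right _ _) (le_max_right _ _)) (D0 _), le_rfl]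
  have t1 : ∀ a, ∑ b, t a b = max (k a) 0 := fun a => by
    rw [← key (fun a => max (k a) 0) (fun a => le_max_right _ _) hD a]
    conv_rhs => rw [mul_div_assoc, hD' (π a), Finset.sum_div, Finset.mul_sum, ← hD' (π a)]
    refine Finset.sum_congr rfl fun b _ => ?_
    rw [ht]
    by_cases h : π a = π b
    · rw [if_pos h, if_pos h.symm, mul_div_assoc]
    · rw [if_neg h, if_neg (Ne.symm h), zero_div, mul_zero]
  have t2 : ∀ b, ∑ a, t a b = max (-k b) 0 := fun b => by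
    rw [← key (fun a => max (-k a) 0) (fun a => le_max_right _ _) hD' b]
    conv_rhs => rw [mul_div_assoc, hD (π b), Finset.sum_div, Finset.mul_sum, ← hD (π b)]
    refine Finset.sum_congr rfl fun a _ => ?_
    rw [ht]
    by_cases h : π a = π b
    · rw [if_pos h, if_pos h, h]
      ring
    · rw [if_neg h, if_neg h, zero_div, mul_zero]
  have e1 : ∑ a, ψ a * k a = ∑ a, ∑ b, t a b * (ψ a - ψ b) := by
    simp only [mul_sub, Finset.sum_sub_distrib]
    rw [Finset.sum_comm (f := fun a b => t a b * ψ b)]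
    simp only [← Finset.sum_mul, t1, t2]
    rw [← Finset.sum_sub_distrib]
    exact Finset.sum_congr rfl fun a _ => by linear_combination ψ a * e0 a
  rw [e1]
  refine (kink_est_cs (g := fun a b => A (π a) / D (π a) * t a b)
    (fun a b => mul_nonneg (hc a b) (sq_nonneg (ψ a - ψ b)))
    (fun a b => mul_nonneg (div_nonneg (hA _) (D0 _)) (t0 a b)) fun a b => ?_).trans
    (mul_le_mul_of_nonneg_left (Real.sqrt_le_sqrt ?_) (Real.sqrt_nonneg _))
  · have h1 : t a b ≤ c a b * (A (π a) / D (π a)) := by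
      have h2 : 0 ≤ c a b * A (π a) := mul_nonneg (hc a b) (hA _)
      rw [ht, ← mul_div_assoc]
      split_ifs with h
      · refine div_le_div_of_nonneg_right ?_ (D0 _)
        rcases le_or_gt (k a) 0 with h3 | h3
        · rwa [max_eq_right h3, zero_mul]
        rcases le_or_gt 0 (k b) with h4 | h4
        · rwa [max_eq_right (neg_nonpos.2 h4), mul_zero]
        rw [max_eq_left h3.le, max_eq_left (neg_nonneg.2 h4.le)]
        exact hk a b h h3 h4
      · exact div_nonneg h2 (D0 _)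
    linarith only [mul_le_mul_of_nonneg_right h1 (mul_nonneg (t0 a b) (sq_nonneg (ψ a - ψ b)))]
  · simp only [← Finset.mul_sum, t1]
    rw [← Finset.sum_fiberwise Finset.univ π]
    refine Finset.sum_le_sum fun p _ => ?_
    rw [Finset.sum_congr rfl fun a ha => by rw [(Finset.mem_filter.1 ha).2], ← Finset.mul_sum,
      Finset.sum_filter, ← hD, div_mul_comm]
    exact mul_le_of_le_one_left (hA p) (div_self_le_one _)

/-- G3. Symmetrise, then Cauchy-Schwarz. -/
theorem link_est {c : V → V → ℝ} (hc : ∀ a a', 0 ≤ c a a') (hs : ∀ a a', c a a' = c a' a)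
    (ψ F : V → ℝ) : |∑ a, ψ a * gen c F a| ≤
      √(∑ a, ∑ a', c a a' * (ψ a - ψ a') ^ 2) * √(∑ a, ∑ a', c a a' * (F a - F a') ^ 2) := by
  have e1 : ∑ a, ψ a * gen c F a = ∑ a, ∑ b, c a b * (ψ a - ψ b) * (F b - F a) / 2 := by
    have e2 : ∑ a, ∑ b, c a b * ψ b * (F b - F a) = -∑ a, ∑ b, c a b * ψ a * (F b - F a) := by
      rw [Finset.sum_comm]
      simp only [← Finset.sum_neg_distrib]
      exact Finset.sum_congr rfl fun a _ => Finset.sum_congr rfl fun b _ => by rw [hs b a]; ring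
    have e3 : ∑ a, ψ a * gen c F a = ∑ a, ∑ b, c a b * ψ a * (F b - F a) := by
      simp only [gen, Finset.mul_sum, smul_eq_mul]
      exact Finset.sum_congr rfl fun a _ => Finset.sum_congr rfl fun b _ => by ring
    simp only [← Finset.sum_div, mul_sub (c _ _), sub_mul, Finset.sum_sub_distrib]
    rw [e2, e3]
    ring
  rw [e1]
  refine kink_est_cs (fun a b => mul_nonneg (hc a b) (sq_nonneg _))
    (fun a b => mul_nonneg (hc a b) (sq_nonneg _)) fun a b => ?_
  linarith only [sq_nonneg (c a b * (ψ a - ψ b) * (F b - F a))]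

open Classical in
/-- G4. Hint: `exists_psi` for `R + c` with `μ'` the indicator of `z`, tested on
`u = g ∘ π - F`; `gen c (g ∘ π) = 0`; `kink_est` with `k` cut off on `B`; `link_est`. -/
theorem merge_est (π : V → N) {R c : V → V → ℝ} {B : Set V} {μ F : V → ℝ} {g A : N → ℝ}
    {K η A₀ M₀ : ℝ} {z : V} (hR : ∀ a b, 0 ≤ R a b) (hAb : Abs R B) (hc : ∀ a a', 0 ≤ c a a')
    (hs : ∀ a a', c a a' = c a' a) (hcπ : ∀ a a', c a a' ≠ 0 → π a = π a' ∧ a ∉ B)
    (hμ : ∀ a, a ∉ B → 0 ≤ μ a)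
    (hsrc : ∀ a, a ∉ B → μ a ≤ ∑ b, R a b - ∑ b, if b ∈ B then 0 else R b a)
    (hz : z ∉ B) (hK : 1 ≤ K * μ z) (hB : ∀ b ∈ B, g (π b) = F b)
    (hfib : ∀ p, (∑ a, if π a = p ∧ a ∉ B then gen R (fun b => g (π b)) a else 0) = 0)
    (hA : ∀ p, 0 ≤ A p)
    (hk : ∀ a a', a ∉ B → a' ∉ B → π a = π a' → 0 < gen R (fun b => g (π b)) a →
      gen R (fun b => g (π b)) a' < 0 →
        gen R (fun b => g (π b)) a * -gen R (fun b => g (π b)) a' ≤ c a a' * A (π a))
    (hA₀ : ∑ p, A p ≤ A₀) (hη : (∑ a, if a ∈ B then 0 else |gen R F a|) ≤ η)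
    (hM : ∑ a, ∑ a', c a a' * (F a - F a') ^ 2 ≤ M₀) :
    |g (π z) - F z| ≤ K * η + √(2 * K) * (√A₀ + √M₀) := by
  have K0 : 0 ≤ K := by
    by_contra h
    linarith only [mul_nonneg (neg_nonneg.2 (not_le.1 h).le) (hμ z hz), hK]
  have c0 : ∀ a ∈ B, ∀ b, c a b = 0 := fun a ha b => by
    by_contra h
    exact (hcπ a b h).2 ha
  obtain ⟨ψ, p0, p1, p2, p3, p4⟩ := exists_psi (R := fun a b => R a b + c a b) (μ := μ)
    (μ' := fun a => if a = z then 1 else 0) (fun a b => add_nonneg (hR a b) (hc a b))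
    (hAb.mono subset_rfl fun a b h => add_pos_of_pos_of_nonneg h (hc a b)) K0 hμ
    (fun a ha => (hsrc a ha).trans (by
      rw [← Finset.sum_sub_distrib, ← Finset.sum_sub_distrib]
      refine Finset.sum_le_sum fun b _ => ?_
      split_ifs
      · linarith [hc a b]
      · linarith [hs a b]))
    (fun a _ => by
      split_ifs
      exacts [zero_le_one, le_rfl])
    (fun a ha => by
      split_ifs with h
      exacts [h ▸ hK, mul_nonneg K0 (hμ a ha)])
  have e1 : (∑ a, if a ∈ B then 0 else if a = z then (1 : ℝ) else 0) = 1 := by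
    rw [Finset.sum_eq_single z (fun a _ h => by simp [h]) (by simp only [Finset.mem_univ, not_true_eq_false, ↓ reduceIte, ite_eq_left_iff, one_ne_zero, imp_false, Decidable.not_not, IsEmpty.forall_iff]), if_neg hz, if_pos rfl]
  have hE : √(∑ a, ∑ b, c a b * (ψ a - ψ b) ^ 2) ≤ √(2 * K) := by
    rw [e1, mul_one] at p3
    refine Real.sqrt_le_sqrt ((Finset.sum_le_sum fun a _ => ?_).trans p3)
    split_ifs with h
    · simp only [c0 a h, zero_mul, Finset.sum_const_zero, Std.le_refl]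
    · exact Finset.sum_le_sum fun b _ => mul_le_mul_of_nonneg_right
        (le_add_of_nonneg_left (hR a b)) (sq_nonneg _)
  have h1 := p4 (fun a => g (π a) - F a) fun b hb => sub_eq_zero.2 (hB b hb)
  have e2 : ∀ a, ψ a * gen (fun a b => R a b + c a b) (fun a => g (π a) - F a) a =
      ψ a * (if a ∈ B then 0 else gen R (fun b => g (π b)) a) - ψ a * gen R F a -
        ψ a * gen c F a := fun a => by
    by_cases h : a ∈ B
    · simp [p2 a h]
    rw [if_neg h, ← mul_sub, ← mul_sub]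
    simp only [gen, smul_eq_mul, ← Finset.sum_sub_distrib]
    refine congrArg _ (Finset.sum_congr rfl fun b _ => ?_)
    by_cases h2 : c a b = 0
    · rw [h2]
      ring
    · rw [(hcπ a b h2).1]
      ring
  simp only [e2, Finset.sum_sub_distrib, ite_mul, one_mul, zero_mul, Finset.sum_ite_eq',
    Finset.mem_univ, if_true] at h1
  have h2 := (kink_est π (k := fun a => if a ∈ B then 0 else gen R (fun b => g (π b)) a) (ψ := ψ)
    hc hA (fun p => (Finset.sum_congr rfl fun a _ => by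
      by_cases h : a ∈ B <;> simp [h]).trans (hfib p)) fun a b h h3 h4 => by
      by_cases ha : a ∈ B
      · simp [ha] at h3
      by_cases hb : b ∈ B
      · simp [hb] at h4
      simp only [if_neg ha, if_neg hb] at h3 h4 ⊢
      exact hk a b ha hb h h3 h4).trans
    (mul_le_mul hE (Real.sqrt_le_sqrt hA₀) (Real.sqrt_nonneg _) (Real.sqrt_nonneg _))
  have h3 := (link_est hc hs ψ F).trans
    (mul_le_mul hE (Real.sqrt_le_sqrt hM) (Real.sqrt_nonneg _) (Real.sqrt_nonneg _))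
  have h4 : |∑ a, ψ a * gen R F a| ≤ K * η := by
    refine (Finset.abs_sum_le_sum_abs _ _).trans
      (le_trans ?_ (mul_le_mul_of_nonneg_left hη K0))
    rw [Finset.mul_sum]
    refine Finset.sum_le_sum fun a _ => ?_
    split_ifs with h
    · simp [p2 a h]
    · rw [abs_mul, abs_of_nonneg (p0 a)]
      exact mul_le_mul_of_nonneg_right (p1 a) (abs_nonneg _)
  rw [abs_le] at h2 h3 h4 ⊢
  constructor <;> linarith only [h2.1, h2.2, h3.1, h3.2, h4.1, h4.2, h1]

end Pool.Agent.MP_17e62b_gt.H14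

/-! Mixing: symmetric jumps between neighbours make a bounded harmonic map almost continuous. -/

namespace Pool.Agent.MP_17e62b_gt.H14

open Set
open scoped BigOperators

variable {V : Type} [Fintype V]

/-- M1. The Green function of the source `1` is at least one, whatever symmetric rates are added.
Hint: `green_adj` at a point off `B` where `G` is minimal among the points off `B`. -/
theorem one_le_green {P c : V → V → ℝ} {B : Set V} (hP : ∀ a b, 0 ≤ P a b)
    (hP1 : ∀ a, a ∉ B → ∑ b, P a b = 1) (hc : ∀ a b, 0 ≤ c a b) (hs : ∀ a b, c a b = c b a)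
    (hcB : ∀ a b, c a b ≠ 0 → a ∉ B) (hA : Abs (fun a b => P a b + c a b) B) {b : V}
    (hb : b ∉ B) : 1 ≤ green (fun a b => P a b + c a b) B (fun _ => 1) b := by
  have hR : ∀ a b, 0 ≤ P a b + c a b := fun a b => add_nonneg (hP a b) (hc a b)
  have h0 := green_nonneg hR hA (μ := fun _ => 1) fun _ _ => zero_le_one
  obtain ⟨m, hm, hmin⟩ := Set.exists_min_image Bᶜ
    (green (fun a b => P a b + c a b) B fun _ => 1) (Set.toFinite _) ⟨b, hb⟩
  have h1 := green_adj hR hA (fun _ => 1) hm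
  generalize green (fun a b => P a b + c a b) B (fun _ => 1) = G at h0 hmin h1 ⊢
  have h2 : ∑ a, G m * c m a ≤ ∑ a, G a * (P a m + c a m) := Finset.sum_le_sum fun a _ => by
    rw [mul_add, hs m a]
    refine le_add_of_nonneg_of_le (mul_nonneg (h0 a) (hP a m)) ?_
    by_cases h : c a m = 0
    · rw [h, mul_zero, mul_zero]
    · exact mul_le_mul_of_nonneg_right (hmin a (hcB a m h)) (hc a m)
  rw [Finset.sum_add_distrib, hP1 m hm, mul_add, Finset.mul_sum] at h1
  linarith [hmin b hb]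

/-- M2. The fixed point. Hint: for `Z : V → X` put
`c Z a b = if nb a b then Λ * max 0 (min 1 (2 * ‖Z a - Z b‖ / κ - 1)) else 0` with
`D ^ 2 * card V < Λ * κ ^ 2`. The map `Z ↦ harm (P + c Z) B ω` is continuous (`harm_cont`,
`Abs.mono`) and bounded (`harm_mem` with a closed ball); rescale and use
`Pool.Agent.MP_d9ba76_lc.exists_fixed_of_bdd`. At the fixed point apply `harm_energy` to the flow
`G a * R a b` (`G` the Green function of `1`, `green_adj`, `one_le_green`): it gives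
`c a b * ‖Z a - Z b‖ ^ 2 ≤ D ^ 2 * card V`. -/
theorem mix_fix {X : Type} [NormedAddCommGroup X] [InnerProductSpace ℝ X] [FiniteDimensional ℝ X]
    {P : V → V → ℝ} {B : Set V} {nb : V → V → Prop} {ω : V → X} {D κ : ℝ}
    (hP : ∀ a b, 0 ≤ P a b) (hP1 : ∀ a, a ∉ B → ∑ b, P a b = 1) (hA : Abs P B)
    (hs : ∀ a b, nb a b → nb b a) (hnB : ∀ a b, nb a b → a ∉ B) (hD : ∀ b ∈ B, ‖ω b‖ ≤ D)
    (hκ : 0 < κ) :
    ∃ c : V → V → ℝ, (∀ a b, 0 ≤ c a b) ∧
      (∀ a b, 0 < c a b → nb a b ∧ κ / 2 ≤ ‖harm (fun a b => P a b + c a b) B ω a -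
        harm (fun a b => P a b + c a b) B ω b‖) ∧
      ∀ a b, nb a b → ‖harm (fun a b => P a b + c a b) B ω a -
        harm (fun a b => P a b + c a b) B ω b‖ ≤ κ := by
  classical
  obtain ⟨L, hL⟩ : ∃ L : ℝ, L * κ ^ 2 = D ^ 2 * Fintype.card V + 1 :=
    ⟨_, div_mul_cancel₀ _ (pow_pos hκ 2).ne'⟩
  have hL0 : 0 ≤ L := ((mul_pos_iff_of_pos_right (pow_pos hκ 2)).1 (hL ▸ by positivity)).le
  let c : (V → X) → V → V → ℝ := fun Z a b =>
    if nb a b then L * max 0 (min 1 (2 * ‖Z a - Z b‖ / κ - 1)) else 0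
  have c0 : ∀ Z a b, 0 ≤ c Z a b := fun Z a b => by
    simp only [c]
    split_ifs
    · exact mul_nonneg hL0 (le_max_left _ _)
    · exact le_rfl
  have hR : ∀ Z a b, 0 ≤ P a b + c Z a b := fun Z a b => add_nonneg (hP a b) (c0 Z a b)
  have hA' : ∀ Z, Abs (fun a b => P a b + c Z a b) B := fun Z =>
    hA.mono subset_rfl fun a b h => add_pos_of_pos_of_nonneg h (c0 Z a b)
  have hc : Continuous fun Z a b => P a b + c Z a b := by
    refine continuous_pi fun a => continuous_pi fun b => continuous_const.add ?_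
    simp only [c]
    split_ifs
    · fun_prop
    · exact continuous_const
  let F : (V → X) → V → X := fun Z => harm (fun a b => P a b + c Z a b) B ω
  have hF : Continuous F := continuous_pi fun a => continuous_iff_continuousAt.2 fun Z =>
    (harm_cont (hR Z) (hA' Z) ω a).comp (f := fun Z a b => P a b + c Z a b) hc.continuousAt
  have hFD : ∀ Z a, ‖F Z a‖ ≤ D := fun Z a => mem_closedBall_zero_iff.1
    (harm_mem (hR Z) (hA' Z) (fun a ha => harm_gen (hR Z) (hA' Z) ω ha) (convex_closedBall 0 D)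
      (fun b hb => mem_closedBall_zero_iff.2 ((harm_bd (hR Z) (hA' Z) ω hb).symm ▸ hD b hb)) a)
  have hs0 : 0 < |D| + 1 := by positivity
  obtain ⟨u, hu⟩ := Pool.Agent.MP_d9ba76_lc.exists_fixed_of_bdd
    (fun u : V → X => (|D| + 1)⁻¹ • F ((|D| + 1) • u)) (by fun_prop) fun u => by
      rw [norm_smul, norm_inv, Real.norm_of_nonneg hs0.le, inv_mul_le_one₀ hs0]
      exact (pi_norm_le_iff_of_nonneg hs0.le).2 fun a =>
        (hFD _ a).trans ((le_abs_self D).trans (le_add_of_nonneg_right zero_le_one))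
  have hZ : F ((|D| + 1) • u) = (|D| + 1) • u := (inv_smul_eq_iff₀ hs0.ne').1 hu
  generalize (|D| + 1) • u = Z at hZ
  refine ⟨c Z, c0 Z, fun a b h => ?_, fun a b h => ?_⟩
  · change _ ∧ _ ≤ ‖F Z a - F Z b‖
    rw [hZ]
    simp only [c] at h
    split_ifs at h with h1
    · have h2 := (lt_max_iff.1 (pos_of_mul_pos_right h hL0)).resolve_left (lt_irrefl _)
      have h3 := (lt_min_iff.1 h2).2
      rw [sub_pos, one_lt_div hκ] at h3
      exact ⟨h1, by linarith only [h3]⟩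
    · exact absurd h (lt_irrefl _)
  change ‖F Z a - F Z b‖ ≤ _
  rw [hZ]
  by_contra hlt
  rw [not_le] at hlt
  have hcs : ∀ a b, c Z a b = c Z b a := fun a b => by
    simp only [c, norm_sub_rev (Z a), show nb a b ↔ nb b a from ⟨hs a b, hs b a⟩]
  have hG1 := one_le_green hP hP1 (c0 Z) hcs (fun a b h => hnB a b (by_contra fun h' =>
    h (if_neg h'))) (hA' Z) (hnB a b h)
  have hG0 := green_nonneg (hR Z) (hA' Z) (μ := fun _ => 1) fun _ _ => zero_le_one
  have hGB := fun b (hb : b ∈ B) => green_bd (R := fun a b => P a b + c Z a b) (fun _ => 1) hb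
  have hGa := fun b (hb : b ∉ B) => green_adj (hR Z) (hA' Z) (fun _ => 1) hb
  generalize green (fun a b => P a b + c Z a b) B (fun _ => 1) = G at hG1 hG0 hGB hGa
  have hRG : ∀ a b, 0 ≤ G a * (P a b + c Z a b) := fun a b => mul_nonneg (hG0 a) (hR Z a b)
  have hE := harm_energy (B := B) hRG (μ := fun _ => 1) (fun _ _ => zero_le_one) (fun a ha => by
      rw [← hGa a ha, Finset.mul_sum]
      refine congrArg _ (Finset.sum_congr rfl fun b _ => ?_)
      split_ifs with hb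
      · rw [hGB b hb, zero_mul]
      · rfl) (Z := Z) (fun a ha => by
      have h1 : gen _ (F Z) a = 0 := harm_gen (hR Z) (hA' Z) ω ha
      rw [hZ] at h1
      simp only [gen, mul_smul, ← Finset.smul_sum] at h1 ⊢
      rw [h1, smul_zero]) (D := D) fun b _ => hZ ▸ hFD Z b
  have h1 : (∑ a : V, if a ∈ B then 0 else 1 : ℝ) ≤ Fintype.card V := by
    rw [Fintype.card, Finset.card_eq_sum_ones, Nat.cast_sum]
    refine Finset.sum_le_sum fun a _ => ?_
    split_ifs <;> simp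
  have h2 : c Z a b = L := by
    have h3 : 1 ≤ 2 * ‖Z a - Z b‖ / κ - 1 := by
      rw [le_sub_iff_add_le, le_div_iff₀ hκ]
      linarith only [hlt]
    simp only [c, if_pos h, min_eq_left h3, max_eq_right zero_le_one, mul_one]
  have h3 : L * κ ^ 2 ≤ G a * (P a b + c Z a b) * ‖Z b - Z a‖ ^ 2 := by
    rw [norm_sub_rev]
    refine mul_le_mul ?_ (pow_le_pow_left₀ hκ.le hlt.le 2) (by positivity) (hRG a b)
    rw [h2]
    nlinarith only [hP a b, hL0, hG1]
  have h4 := Finset.single_le_sum (f := fun b => G a * (P a b + c Z a b) * ‖Z b - Z a‖ ^ 2)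
    (fun b _ => mul_nonneg (hRG a b) (sq_nonneg _)) (Finset.mem_univ b)
  have h5 := Finset.single_le_sum (f := fun a => if a ∈ B then 0 else
    ∑ b, G a * (P a b + c Z a b) * ‖Z b - Z a‖ ^ 2) (fun a _ => by
      split_ifs
      · exact le_rfl
      · exact Finset.sum_nonneg fun b _ => mul_nonneg (hRG a b) (sq_nonneg _)) (Finset.mem_univ a)
  rw [if_neg (hnB a b h)] at h5
  have h6 := mul_le_mul_of_nonneg_left h1 (sq_nonneg D)
  have h7 := h5.trans (le_of_eq_of_le (by congr) (hE.trans (le_of_eq_of_le (by congr) h6)))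
  linarith only [hL, hE, h3, h4, h5, h6]

theorem mix_rate {E : Type} [AddCommGroup E] [Module ℝ E] (P c : V → V → ℝ) (u : V → E) (a : V) :
    gen (fun a b => P a b + c a b) u a = gen P u a + gen c u a := by
  simp only [gen, add_smul, Finset.sum_add_distrib]

theorem mix_lin (R : V → V → ℝ) (u v w : V → ℝ) (x y z t : ℝ) (a : V) :
    gen R (fun b => x * u b + y * v b + z * w b + t) a =
      x * gen R u a + y * gen R v a + z * gen R w a := by
  simp only [gen, smul_eq_mul, Finset.mul_sum, ← Finset.sum_add_distrib]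
  exact Finset.sum_congr rfl fun b _ => by ring

theorem mix_norm {E : Type} [NormedAddCommGroup E] [NormedSpace ℝ E] {R : V → V → ℝ} {a : V}
    (hR : ∀ b, 0 ≤ R a b) {u : V → E} {ρ : ℝ} (h : ∀ b, 0 < R a b → ‖u b - u a‖ ≤ ρ) :
    ‖gen R u a‖ ≤ ρ * ∑ b, R a b := by
  rw [Finset.mul_sum]
  refine norm_sum_le_of_le _ fun b _ => ?_
  rw [norm_smul, Real.norm_of_nonneg (hR b), mul_comm ρ]
  rcases (hR b).eq_or_lt with h0 | h0
  · rw [← h0, zero_mul, zero_mul]
  · exact mul_le_mul_of_nonneg_left (h b h0) (hR b)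

theorem mix_sq {E : Type} [NormedAddCommGroup E] {R : V → V → ℝ} {a : V} (hR : ∀ b, 0 ≤ R a b)
    {u : V → E} {r : ℝ} (hr : 0 ≤ r) (h : ∀ b, 0 < R a b → r ≤ ‖u b - u a‖) :
    r ^ 2 * ∑ b, R a b ≤ ∑ b, R a b * ‖u b - u a‖ ^ 2 := by
  rw [Finset.mul_sum]
  refine Finset.sum_le_sum fun b _ => ?_
  rw [mul_comm]
  rcases (hR b).eq_or_lt with h0 | h0
  · rw [← h0, zero_mul, zero_mul]
  · exact mul_le_mul_of_nonneg_left (pow_le_pow_left₀ hr (h b h0) 2) (hR b)

theorem mix_inner {E : Type} [NormedAddCommGroup E] [InnerProductSpace ℝ E] (R : V → V → ℝ)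
    {u : V → E} {a : V} {M t : ℝ} (hM : ‖u a‖ ≤ M) (ht : ‖gen R u a‖ ≤ t) :
    ∑ b, R a b * ‖u b - u a‖ ^ 2 - 2 * M * t ≤ gen R (fun b => ‖u b‖ ^ 2) a := by
  have h1 := (abs_le.1 ((abs_real_inner_le_norm (u a) (gen R u a)).trans
    (mul_le_mul hM ht (norm_nonneg _) ((norm_nonneg _).trans hM)))).1
  rw [gen_norm_sq]
  linarith

/-- M3. Hint: `Abs P B` by `abs_of_lyap` with `M ^ 2 - ‖Φ‖ ^ 2 + (2 M ρ + 1) k₂`, `k₂` the indicator
of the complement of `B` (`gen_norm_sq`). Take `c` from `mix_fix`, `Z = harm R B ω`,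
`k₁ = 4 (D ^ 2 - ‖Z‖ ^ 2) / κ ^ 2`, so `∑ b, c a b ≤ - gen R k₁ a`;
`k₄ = M ^ 2 - ‖Φ‖ ^ 2 + 2 M ρ (k₁ + k₂)` has `- gen R k₄ ≥ 0`, and `≥ r ^ 2 / 2` at the nodes of the
second kind; apply `harm_sub_le` with `k = 2 β / r ^ 2 * k₄ + ρ (k₁ + k₂)`. -/
theorem mix {E X : Type} [NormedAddCommGroup E] [InnerProductSpace ℝ E] [NormedAddCommGroup X]
    [InnerProductSpace ℝ X] [FiniteDimensional ℝ X] {P : V → V → ℝ} {B : Set V}
    {nb : V → V → Prop} {Φ : V → E} {ω : V → X} {M D ρ r β κ : ℝ}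
    (hP : ∀ a b, 0 ≤ P a b) (hP1 : ∀ a, a ∉ B → ∑ b, P a b = 1)
    (hs : ∀ a b, nb a b → nb b a) (hnB : ∀ a b, nb a b → a ∉ B)
    (hnb : ∀ a b, nb a b → ‖Φ a - Φ b‖ ≤ ρ)
    (hstep : ∀ a, a ∉ B → (∀ b, 0 < P a b → b ∈ B ∧ ‖Φ b - Φ a‖ ≤ ρ) ∨
      (‖gen P Φ a‖ ≤ β ∧ ∀ b, 0 < P a b → r ≤ ‖Φ b - Φ a‖))
    (hM : ∀ a, ‖Φ a‖ ≤ M) (hD : ∀ b ∈ B, ‖ω b‖ ≤ D) (hr : 0 < r) (hκ : 0 < κ) (hρ : 0 ≤ ρ)
    (hβ0 : 0 ≤ β) (hβ : 4 * M * β ≤ r ^ 2) :
    ∃ R : V → V → ℝ, (∀ a b, 0 ≤ R a b) ∧ Abs R B ∧ (∀ a b, 0 < R a b → 0 < P a b ∨ nb a b) ∧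
      (∀ a b, nb a b → ‖harm R B ω a - harm R B ω b‖ ≤ κ) ∧
      ∀ a, ‖harm R B Φ a - Φ a‖ ≤ ρ * (1 + 4 * D ^ 2 / κ ^ 2) +
        2 * β / r ^ 2 * (M ^ 2 + 2 * M * ρ * (1 + 4 * D ^ 2 / κ ^ 2)) := by
  classical
  let k₂ : V → ℝ := fun a => if a ∈ B then 0 else 1
  have k0 : ∀ a, 0 ≤ k₂ a ∧ k₂ a ≤ 1 := fun a => by
    simp only [k₂]
    split_ifs <;> simp
  have M0 : ∀ _ : V, 0 ≤ M := fun a => (norm_nonneg _).trans (hM a)
  have S0 : ∀ {R : V → V → ℝ}, (∀ a b, 0 ≤ R a b) → ∀ a, 0 ≤ ∑ b, R a b * ‖Φ b - Φ a‖ ^ 2 :=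
    fun h a => Finset.sum_nonneg fun b _ => mul_nonneg (h a b) (sq_nonneg _)
  have hst : ∀ a, a ∉ B → (gen P k₂ a = -1 ∧ ‖gen P Φ a‖ ≤ ρ) ∨ (gen P k₂ a ≤ 0 ∧
      ‖gen P Φ a‖ ≤ β ∧ r ^ 2 ≤ ∑ b, P a b * ‖Φ b - Φ a‖ ^ 2) := fun a ha => by
    rcases hstep a ha with h | ⟨h1, h2⟩
    · refine Or.inl ⟨?_, ?_⟩
      · rw [← hP1 a ha, ← Finset.sum_neg_distrib]
        refine Finset.sum_congr rfl fun b _ => ?_
        rcases (hP a b).eq_or_lt with h0 | h0
        · rw [← h0, zero_smul, neg_zero]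
        · simp only [k₂, if_pos (h b h0).1, if_neg ha, smul_eq_mul]
          ring
      · simpa only [hP1 a ha, mul_one] using mix_norm (hP a) fun b hb => (h b hb).2
    · refine Or.inr ⟨Finset.sum_nonpos fun b _ => mul_nonpos_of_nonneg_of_nonpos (hP a b) ?_, h1,
        by simpa only [hP1 a ha, mul_one] using mix_sq (hP a) hr.le h2⟩
      simp only [k₂, if_neg ha]
      exact sub_nonpos.2 (k0 b).2
  have hA : Abs P B := abs_of_lyap hP (h := fun b => -1 * ‖Φ b‖ ^ 2 + (2 * M * ρ + 1) * k₂ b +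
      0 * k₂ b + 0) fun a ha => by
    rw [mix_lin]
    have h0 : 0 ≤ 2 * M * ρ := by have := M0 a; positivity
    rcases hst a ha with ⟨h1, h2⟩ | ⟨h1, h2, h3⟩
    · have := mix_inner P (hM a) h2
      rw [h1]
      linarith [S0 hP a]
    · have := mix_inner P (hM a) h2
      have := mul_nonpos_of_nonneg_of_nonpos (add_nonneg h0 zero_le_one) h1
      linarith [pow_pos hr 2]
  obtain ⟨c, c0, c1, c2⟩ := mix_fix hP hP1 hA hs hnB hD hκ
  have hR : ∀ a b, 0 ≤ P a b + c a b := fun a b => add_nonneg (hP a b) (c0 a b)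
  have hA' : Abs (fun a b => P a b + c a b) B :=
    hA.mono subset_rfl fun a b h => add_pos_of_pos_of_nonneg h (c0 a b)
  refine ⟨_, hR, hA', fun a b h => ?_, c2, fun a => ?_⟩
  · rcases (c0 a b).eq_or_lt with h0 | h0
    · exact Or.inl (by simpa only [← h0, add_zero] using h)
    · exact Or.inr (c1 a b h0).1
  have hZ0 := fun a (ha : a ∉ B) => harm_gen hR hA' ω ha
  have hZD := fun a => mem_closedBall_zero_iff.1 (harm_mem hR hA' hZ0 (convex_closedBall 0 D)
    (fun b hb => mem_closedBall_zero_iff.2 ((harm_bd hR hA' ω hb).symm ▸ hD b hb)) a)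
  generalize harm (fun a b => P a b + c a b) B ω = Z at c1 hZ0 hZD
  obtain ⟨x, hx, hx0⟩ : ∃ x, x = 2 * β / r ^ 2 ∧ 0 ≤ x := ⟨_, rfl, by positivity⟩
  obtain ⟨y, hy, hy0⟩ : ∃ y, y = 4 / κ ^ 2 ∧ 0 ≤ y := ⟨_, rfl, by positivity⟩
  have hxr : x * r ^ 2 = 2 * β := by
    rw [hx, div_mul_cancel₀ _ (pow_pos hr 2).ne']
  have hyκ : y * (κ / 2) ^ 2 = 1 := by
    rw [hy]
    field_simp
    norm_num
  obtain ⟨w, hw, hw0⟩ : ∃ w, w = x * (2 * M * ρ) + ρ ∧ 0 ≤ w :=
    ⟨_, rfl, by have := M0 a; positivity⟩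
  have hb : ∀ a, ‖Φ a‖ ^ 2 ≤ M ^ 2 ∧ ‖Z a‖ ^ 2 ≤ D ^ 2 := fun a =>
    ⟨pow_le_pow_left₀ (norm_nonneg _) (hM a) 2, pow_le_pow_left₀ (norm_nonneg _) (hZD a) 2⟩
  refine (harm_sub_le hR hA' (k := fun b => -x * ‖Φ b‖ ^ 2 + -(w * y) * ‖Z b‖ ^ 2 + w * k₂ b +
    (x * M ^ 2 + w * y * D ^ 2)) (fun b _ => ?_) (fun a ha => ?_) a).trans ?_
  · have h1 := mul_le_mul_of_nonneg_left (hb b).1 hx0
    have h2 := mul_le_mul_of_nonneg_left (hb b).2 (mul_nonneg hw0 hy0)
    have h3 := mul_nonneg hw0 (k0 b).1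
    linarith only [h1, h2, h3]
  · have h0 : 0 ≤ ∑ b, c a b := Finset.sum_nonneg fun b _ => c0 a b
    have h1 : ‖gen c Φ a‖ ≤ ρ * ∑ b, c a b := mix_norm (c0 a) fun b h => by
      rw [norm_sub_rev]
      exact hnb a b (c1 a b h).1
    have h2 : gen c k₂ a = 0 := Finset.sum_eq_zero fun b _ => by
      rcases (c0 a b).eq_or_lt with h | h
      · rw [← h, zero_smul]
      · simp only [k₂, if_neg ha, if_neg (hnB b a (hs a b (c1 a b h).1)), sub_self, smul_zero]
    have h3 : ∑ b, c a b ≤ y * gen (fun a b => P a b + c a b) (fun b => ‖Z b‖ ^ 2) a := by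
      rw [gen_norm_sq, hZ0 a ha, inner_zero_right, mul_zero, add_zero, ← one_mul (∑ b, c a b),
        ← hyκ, mul_assoc]
      refine mul_le_mul_of_nonneg_left ((mix_sq (c0 a) (half_pos hκ).le fun b h => ?_).trans
        (Finset.sum_le_sum fun b _ => mul_le_mul_of_nonneg_right
          (le_add_of_nonneg_left (hP a b)) (sq_nonneg _))) hy0
      rw [norm_sub_rev]
      exact (c1 a b h).2
    have h4 : ∑ b, P a b * ‖Φ b - Φ a‖ ^ 2 ≤ ∑ b, (P a b + c a b) * ‖Φ b - Φ a‖ ^ 2 :=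
      Finset.sum_le_sum fun b _ => mul_le_mul_of_nonneg_right
        (le_add_of_nonneg_right (c0 a b)) (sq_nonneg _)
    have h5 : ∀ t, ‖gen P Φ a‖ ≤ t →
        ‖gen (fun a b => P a b + c a b) Φ a‖ ≤ t + ρ * ∑ b, c a b := fun t ht => by
      rw [mix_rate]
      exact norm_add_le_of_le ht h1
    have h6 := mul_le_mul_of_nonneg_left h3 hw0
    rw [mix_lin, mix_rate P c k₂, h2, add_zero]
    rcases hst a ha with ⟨s1, s2⟩ | ⟨s1, s2, s3⟩
    · have h7 := mul_le_mul_of_nonneg_left (mix_inner _ (hM a) (h5 _ s2)) hx0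
      have h8 := mul_nonneg hx0 (S0 hR a)
      have h9 := h5 _ s2
      rw [s1]
      rw [hw] at h6 ⊢
      linarith only [h6, h7, h8, h9]
    · have h7 := mul_le_mul_of_nonneg_left (mix_inner _ (hM a) (h5 _ s2)) hx0
      have h8 := mul_le_mul_of_nonneg_left (s3.trans h4) hx0
      have h9 := h5 _ s2
      have h10 := mul_nonpos_of_nonneg_of_nonpos hw0 s1
      have h11 := mul_le_mul_of_nonneg_left hβ hx0
      rw [hw] at h6 h10 ⊢
      linarith only [hxr, h6, h7, h8, h9, h10, h11]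
  · have h1 := mul_nonneg hx0 (sq_nonneg ‖Φ a‖)
    have h2 := mul_nonneg (mul_nonneg hw0 hy0) (sq_nonneg ‖Z a‖)
    have h3 := mul_le_mul_of_nonneg_left (k0 a).2 hw0
    rw [← hx, show 4 * D ^ 2 / κ ^ 2 = y * D ^ 2 by rw [hy]; ring]
    rw [hw] at h2 h3 ⊢
    linarith only [h1, h2, h3]

end Pool.Agent.MP_17e62b_gt.H14

end

-- part MP_17e62b_gt.T55.D0
section

/-!
Definitions: polyhedra, charts, arcs, discs, cell complexes, triangulations, and chains modulo two
on a triangulated surface.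
-/

namespace Pool.Agent.MP_17e62b_gt

open Set Metric Topology
open scoped InnerProductSpace

/-- `S` is a polyhedral map: piecewise linear with respect to a finite triangulation of `M`. -/
def Surface.IsPolyhedron {n : ℕ} (S : Surface n) : Prop :=
  ∃ (N : ℕ) (K : Geometry.SimplicialComplex ℝ (EuclideanSpace ℝ (Fin N))) (h : S.M ≃ₜ K.space),
    K.faces.Finite ∧ ∀ s ∈ K.faces,
      ∃ A : EuclideanSpace ℝ (Fin N) →ᵃ[ℝ] EuclideanSpace ℝ (Fin n),
        ∀ x : S.M, (h x : EuclideanSpace ℝ (Fin N)) ∈ convexHull ℝ (s : Set _) → S.f x = A (h x)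

namespace T55

section Top

variable {M : Type} [TopologicalSpace M]

/-- A chart onto an open subset of the closed upper half plane; `B` is the boundary. -/
structure Chart (M : Type) [TopologicalSpace M] (B : Set M) where
  U : Set M
  O : Set ℂ
  φ : M → ℂ
  ψ : ℂ → M
  openU : IsOpen U
  openO : IsOpen O
  contφ : ContinuousOn φ U
  contψ : ContinuousOn ψ (O ∩ {z | 0 ≤ z.im})
  mapφ : MapsTo φ U (O ∩ {z | 0 ≤ z.im})
  mapψ : MapsTo ψ (O ∩ {z | 0 ≤ z.im}) U
  left : ∀ x ∈ U, ψ (φ x) = x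
  right : ∀ z ∈ O ∩ {z : ℂ | 0 ≤ z.im}, φ (ψ z) = z
  bd : ∀ x ∈ U, x ∈ B ↔ (φ x).im = 0

/-- `M` is a surface with boundary `B`. -/
def Atl (M : Type) [TopologicalSpace M] (B : Set M) : Prop := ∀ x, ∃ c : Chart M B, x ∈ c.U

/-- `e` is an arc from `a` to `b`. -/
def Arc (e : Set M) (a b : M) : Prop :=
  ∃ γ : ℝ → M, ContinuousOn γ (Icc 0 1) ∧ InjOn γ (Icc 0 1) ∧ γ 0 = a ∧ γ 1 = b ∧
    γ '' Icc 0 1 = e

/-- `d` is a closed disc with boundary curve `J`. -/
def Dsc (d J : Set M) : Prop :=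
  ∃ Ψ : ℂ → M, ContinuousOn Ψ (closedBall 0 1) ∧ InjOn Ψ (closedBall 0 1) ∧
    Ψ '' closedBall 0 1 = d ∧ Ψ '' sphere 0 1 = J

/-- A finite regular cell complex without parametrisations: points, arcs, discs. -/
structure Cells (A : Set M) where
  P : Set M
  E : Set (Set M)
  D : Set (Set M × Set M)
  finP : P.Finite
  finE : E.Finite
  finD : D.Finite
  arc : ∀ e ∈ E, ∃ a b, Arc e a b ∧ e ∩ P = {a, b}
  ee : ∀ e ∈ E, ∀ e' ∈ E, e ≠ e' → e ∩ e' ⊆ P
  dsc : ∀ d ∈ D, Dsc d.1 d.2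
  bdy : ∀ d ∈ D, ∀ x ∈ d.2, ∃ e ∈ E, x ∈ e ∧ e ⊆ d.2
  de : ∀ d ∈ D, ∀ e ∈ E, d.1 ∩ e ⊆ d.2
  dd : ∀ d ∈ D, ∀ d' ∈ D, d ≠ d' → d.1 ∩ d'.1 ⊆ d.2
  pe : ∀ p ∈ P, ∃ e ∈ E, p ∈ e
  ed : ∀ e ∈ E, ∃ d ∈ D, e ⊆ d.2
  cover : ⋃ d ∈ D, d.1 = A

/-- A finite triangulation of `A`, given by barycentric coordinates. -/
structure Tri (A : Set M) where
  V : Type
  [fin : Fintype V]
  [dec : DecidableEq V]
  T : Finset (Finset V)
  card : ∀ t ∈ T, t.card = 3
  used : ∀ v, ∃ t ∈ T, v ∈ t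
  lam : M → V → ℝ
  pt : V → M
  cont : ContinuousOn lam A
  inj : InjOn lam A
  img : lam '' A = {y | y ∈ stdSimplex ℝ V ∧ ∃ t ∈ T, ∀ v, v ∉ t → y v = 0}
  pt_mem : ∀ v, pt v ∈ A
  lam_pt : ∀ v, lam (pt v) = Pi.single v 1

attribute [instance] Tri.fin Tri.dec

variable {A : Set M}

/-- The closed simplex spanned by `s`. -/
def Tri.face (K : Tri A) (s : Finset K.V) : Set M := {x ∈ A | ∀ v, v ∉ s → K.lam x v = 0}

/-- The dual cell of a vertex. -/
def Tri.tile (K : Tri A) (v : K.V) : Set M := {x ∈ A | ∀ w, K.lam x w ≤ K.lam x v}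

/-- The union of the dual cells of a set of vertices. -/
def Tri.N (K : Tri A) (H : Set K.V) : Set M := ⋃ v ∈ H, K.tile v

/-- The part of the frontier of `K.N H` inside the triangle `t`. -/
def Tri.J (K : Tri A) (H : Set K.V) (t : Finset K.V) : Set M := K.face t ∩ K.N H ∩ K.N Hᶜ

/-- The barycentre of `s` is the only point of this set. -/
def Tri.ctr (K : Tri A) (s : Finset K.V) : Set M :=
  {x ∈ A | ∀ v, K.lam x v = if v ∈ s then ((s.card : ℝ))⁻¹ else 0}

/-- The segment from the barycentre of `s` to the barycentre of `s'`, for `s ⊆ s'`. -/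
def Tri.seg (K : Tri A) (s s' : Finset K.V) : Set M :=
  {x ∈ K.face s' | (∀ v ∈ s, ∀ w, K.lam x w ≤ K.lam x v) ∧
    ∀ v ∈ s' \ s, ∀ w ∈ s' \ s, K.lam x v = K.lam x w}

/-- The part of `A` where the vertices of `H` have weight at least one half. -/
def Tri.half (K : Tri A) (H : Finset K.V) : Set M := {x ∈ A | 1 / 2 ≤ ∑ v ∈ H, K.lam x v}

/-- The part of `t` where the vertices of `H` have weight one half. -/
def Tri.mid (K : Tri A) (H t : Finset K.V) : Set M := {x ∈ K.face t | ∑ v ∈ H, K.lam x v = 1 / 2}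

end Top

/-- The unit square and its sides. -/
def Sq : Set ℂ := {z | z.re ∈ Icc (0 : ℝ) 1 ∧ z.im ∈ Icc (0 : ℝ) 1}

/-- Bottom (`false`) and top (`true`) side. -/
def SqH (i : Bool) : Set ℂ := {z | z.re ∈ Icc (0 : ℝ) 1 ∧ z.im = if i then 1 else 0}

/-- Left (`false`) and right (`true`) side. -/
def SqV (i : Bool) : Set ℂ := {z | z.re = (if i then 1 else 0) ∧ z.im ∈ Icc (0 : ℝ) 1}

/-- The affine function of a line. -/
def af (l : ℂ × ℝ) (z : ℂ) : ℝ := (l.1 * z).re - l.2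

/-- The points of `Q` on two lines of `L` that are not parallel. -/
def vert (L : Finset (ℂ × ℝ)) (Q : Set ℂ) : Set ℂ :=
  {z ∈ Q | ∃ l ∈ L, ∃ l' ∈ L, af l z = 0 ∧ af l' z = 0 ∧ (l.1 * (starRingEnd ℂ) l'.1).im ≠ 0}

/-- `a` and `b` are consecutive vertices on a line of `L`. -/
def Nbr (L : Finset (ℂ × ℝ)) (Q : Set ℂ) (a b : ℂ) : Prop :=
  a ∈ vert L Q ∧ b ∈ vert L Q ∧ a ≠ b ∧ (∃ l ∈ L, af l a = 0 ∧ af l b = 0) ∧
    Disjoint (openSegment ℝ a b) (vert L Q)

section Comb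

variable {V : Type} [Fintype V] [DecidableEq V] (T : Finset (Finset V))

/-- The number of triangles that contain `u` and `v`. -/
def deg (u v : V) : ℕ := (T.filter fun t => u ∈ t ∧ v ∈ t).card

def Adj (u v : V) : Prop := u ≠ v ∧ ∃ t ∈ T, u ∈ t ∧ v ∈ t

/-- The boundary vertices. -/
def Bd : Set V := {v | ∃ u, u ≠ v ∧ deg T u v = 1}

/-- `x` and `y` are joined by an edge path inside `A`. -/
def Jn (A : Set V) (x y : V) : Prop :=
  x ∈ A ∧ Relation.ReflTransGen (fun a b => b ∈ A ∧ Adj T a b) x y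

def Conn (A : Set V) : Prop := ∀ x ∈ A, ∀ y ∈ A, Jn T A x y

/-- A connected combinatorial surface with non-empty boundary. -/
structure IsSurf : Prop where
  card : ∀ t ∈ T, t.card = 3
  used : ∀ v, ∃ t ∈ T, v ∈ t
  two : ∀ u v, u ≠ v → deg T u v ≤ 2
  link : ∀ (v : V) (Q : Set (Finset V)),
    (∀ t ∈ T, ∀ t' ∈ T, ∀ w, w ≠ v → v ∈ t → w ∈ t → v ∈ t' → w ∈ t' → t ∈ Q → t' ∈ Q) →
      ∀ t ∈ T, ∀ t' ∈ T, v ∈ t → v ∈ t' → t ∈ Q → t' ∈ Q
  conn : Conn T univ
  bd : (Bd T).Nonempty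

/-- The Euler characteristic. -/
noncomputable def chi : ℤ :=
  (Fintype.card V : ℤ) - ({s : Finset V | s.card = 2 ∧ ∃ t ∈ T, s ⊆ t}.ncard : ℤ) + (T.card : ℤ)

/-- `z` is a 1-chain modulo two with all edges inside `A`. -/
def On (A : Set V) (z : V → V → ZMod 2) : Prop :=
  (∀ u v, z u v = z v u) ∧ ∀ u v, z u v ≠ 0 → u ∈ A ∧ v ∈ A ∧ Adj T u v

/-- The boundary of a 1-chain. -/
def d1 (z : V → V → ZMod 2) (v : V) : ZMod 2 := ∑ u, z u v

/-- The boundary of a 2-chain. -/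
def d2 (Q : Finset V → ZMod 2) (u v : V) : ZMod 2 :=
  if u = v then 0 else ∑ t ∈ T.filter (fun t => u ∈ t ∧ v ∈ t), Q t

/-- The 1-chain that consists of one edge. -/
def edge (a b : V) (u v : V) : ZMod 2 :=
  if a ≠ b ∧ ((u = a ∧ v = b) ∨ (u = b ∧ v = a)) then 1 else 0

/-- The 0-chain with the two points `a`, `b`. -/
def ends (a b : V) : V → ZMod 2 := Pi.single a 1 + Pi.single b 1

def Cyc (A : Set V) (z : V → V → ZMod 2) : Prop := On T A z ∧ d1 z = 0

/-- Every cycle in `A` bounds in `A`. -/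
def Acyc (A : Set V) : Prop :=
  ∀ z, Cyc T A z → ∃ Q, (∀ t ∈ T, Q t ≠ 0 → ∀ v ∈ t, v ∈ A) ∧ d2 T Q = z

/-- `z` is the boundary of a 2-chain that has no triangle with a vertex in `R`. -/
def Bnd (R : Set V) (z : V → V → ZMod 2) : Prop :=
  ∃ Q, (∀ t ∈ T, (∃ v ∈ t, v ∈ R) → Q t = 0) ∧ d2 T Q = z

/-- `A` together with the components of its complement that miss `R`. -/
def hull (R A : Set V) : Set V := {v | ¬ ∃ r ∈ R, Jn T Aᶜ v r}

/-- More than `N` cycles are dependent modulo boundaries. -/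
def Rk (N : ℕ) : Prop :=
  ∀ (ι : Type) [Fintype ι] (z : ι → V → V → ZMod 2), (∀ i, Cyc T univ (z i)) →
    N < Fintype.card ι → ∃ I : Finset ι, I.Nonempty ∧ ∃ Q, d2 T Q = ∑ i ∈ I, z i

/-- `z` is zero in the homology relative to `B`. -/
def Nul (B : Set V) (z : V → V → ZMod 2) : Prop := ∃ Q b, On T B b ∧ z = d2 T Q + b

/-- `z` is a cycle relative to `B`. -/
def Rel (B : Set V) (z : V → V → ZMod 2) : Prop := On T univ z ∧ ∀ v, v ∉ B → d1 z v = 0

/-- A triangle with a vertex in `W` and a vertex outside. -/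
def Mixed (W : Set V) (t : Finset V) : Prop := t ∈ T ∧ (∃ w ∈ t, w ∈ W) ∧ ∃ v ∈ t, v ∉ W

/-- `t` and `t'` are joined inside `L` through edges that leave `W`. -/
def FJn (W : Set V) (L : Set (Finset V)) (t t' : Finset V) : Prop :=
  t ∈ L ∧ Relation.ReflTransGen
    (fun a b => b ∈ L ∧ ∃ w ∈ W, ∃ v, v ∉ W ∧ w ∈ a ∧ v ∈ a ∧ w ∈ b ∧ v ∈ b) t t'

/-- `L` is a chain of mixed triangles whose boundary on the edges that leave `W` is `g`. -/
def Side (W : Set V) (L : Finset V → ZMod 2) (g : V → V → ZMod 2) : Prop :=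
  (∀ t ∈ T, L t ≠ 0 → Mixed T W t) ∧ ∀ w ∈ W, ∀ v, v ∉ W → d2 T L w v = g w v

/-- `S` is a union of connected classes, each with a root. -/
def Cls (S : Set V) (root : V → V) : Prop :=
  ∀ v ∈ S, root (root v) = root v ∧ Jn T {u ∈ S | root u = root v} v (root v)

/-- Some vertex of `K` has a neighbour in `S`. -/
def Tch (K S : Set V) : Prop := ∃ u ∈ K, ∃ s ∈ S, Adj T u s

variable {n : ℕ} (F : V → EuclideanSpace ℝ (Fin n))

omit [Fintype V] [DecidableEq V] in
def Small (R : ℝ) (A : Set V) : Prop := ∀ u ∈ A, ∀ v ∈ A, dist (F u) (F v) ≤ R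

/-- `K` is a connected subset of `U` with small image. -/
def Pc (U : Set V) (R : ℝ) (K : Set V) : Prop := K ⊆ U ∧ Conn T K ∧ Small F R K

/-- The vertices joined to `X` by a small connected subset of `U`. -/
def nb (U : Set V) (R : ℝ) (X : Set V) : Set V :=
  {v | ∃ K, Pc T F U R K ∧ v ∈ K ∧ (K ∩ X).Nonempty}

/-- Small jumps and the maximum principle up to `ω`. -/
structure Sad (ω : ℝ) : Prop where
  nonneg : 0 ≤ ω
  jump : ∀ u v, Adj T u v → dist (F u) (F v) ≤ ω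
  maxp : ∀ (H : Set V) (ν : EuclideanSpace ℝ (Fin n)) (c : ℝ), Disjoint H (Bd T) →
    (∀ v ∈ H, ∀ w, w ∉ H → Adj T v w → ⟪ν, F w⟫_ℝ ≤ c) → ∀ v ∈ H, ⟪ν, F v⟫_ℝ ≤ c + ω * ‖ν‖

/-- Classes of radius at most `ρ`, at most `N` of them with a root off the boundary, and tubes. -/
structure Base (N : ℕ) (ρ : ℝ) (S Y : Set V) (root : V → V) : Prop where
  cls : Cls T S root
  rad : ∀ v ∈ S, dist (F v) (F (root v)) ≤ ρ
  bd : ∀ v ∈ Bd T, v ∈ S ∧ root v ∈ Bd T
  few : (root '' S \ Bd T).ncard ≤ N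
  disj : Disjoint S Y
  tube : ∀ y ∈ Y, ∃ a b, ∀ u, Jn T Y y u → ∀ w, w ∉ Y → Adj T u w →
    w ∈ S ∧ (root w = a ∨ root w = b)

/-- Every small connected set outside `B` lies in an acyclic set outside `B`. -/
def Sys (B : Set V) (s : ℝ) : Prop :=
  ∀ A, Pc T F Bᶜ s A → Acyc T (hull T (Bd T) A) ∧ hull T (Bd T) A ⊆ Bᶜ

/-- A band with its two end zones `L false`, `L true`. -/
structure Band (ρ δ : ℝ) (S U W : Set V) (L : Bool → Set (Finset V)) : Prop where
  conn : Conn T W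
  acyc : Acyc T W
  mix : ∀ i, ∀ t ∈ L i, Mixed T W t
  lconn : ∀ i, ∀ t ∈ L i, ∀ t' ∈ L i, FJn W (L i) t t'
  apart : ∀ t ∈ L false, ∀ t' ∈ L true, ∀ w ∈ W, w ∈ t → w ∉ t'
  rest : ∀ t, Mixed T W t → t ∉ L false → t ∉ L true → ∀ v ∈ t, v ∈ W ∨ v ∈ U
  small : ∀ i, Small F ρ {v | ∃ t ∈ L i, v ∈ t}
  touch : ∀ i, ∃ t ∈ L i, ∃ v ∈ t, v ∈ S
  long : ∀ K, Pc T F W δ K → (∃ t ∈ L false, ∃ v ∈ t, v ∈ K) → ¬ ∃ t ∈ L true, ∃ v ∈ t, v ∈ K
  wide : ∀ K, Pc T F W δ K → ∀ t t', t ∈ {t | Mixed T W t} \ (L false ∪ L true) →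
    t' ∈ {t | Mixed T W t} \ (L false ∪ L true) → (∃ v ∈ t, v ∈ K) → (∃ v ∈ t', v ∈ K) →
    FJn W ({t | Mixed T W t} \ (L false ∪ L true)) t t'

/-- The skeleton: classes, tubes, bands; the components of the rest are acyclic. -/
structure Skel (N : ℕ) (ρ δ : ℝ) (S Y : Set V) (root : V → V) (m : ℕ) (W : Fin m → Set V)
    (L : Fin m → Bool → Set (Finset V)) : Prop where
  base : Base T F N ρ S Y root
  out : ∀ j, Disjoint (W j) (S ∪ Y)
  sep : ∀ j k, j ≠ k → Disjoint (W j) (W k) ∧ ¬ Tch T (W j) (W k)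
  band : ∀ j, Band T F ρ δ S (S ∪ Y ∪ ⋃ j, W j)ᶜ (W j) (L j)
  disc : ∀ u, Acyc T {v | Jn T (S ∪ Y ∪ ⋃ j, W j)ᶜ u v}

/-- An axis `X` with its end zones, and the properties that concern one axis, at scale `r`. -/
structure Axis (ρ r : ℝ) (S Fr X : Set V) (Z : Bool → Set V) : Prop where
  sub : X ⊆ Fr
  conn : Conn T X
  acyc : Acyc T X
  zone : ∀ i, Z i ⊆ X ∧ Conn T (Z i) ∧ Conn T (X \ Z i) ∧ Small F ρ (Z i) ∧ Tch T (Z i) S
  disc : Acyc T (hull T S (nb T F Fr r X))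
  near : ∀ K, Pc T F Fr r K → Tch T K S → K ∩ X ⊆ Z false ∪ Z true
  long : ∀ K, Pc T F Fr r K → (K ∩ Z false).Nonempty → ¬ (K ∩ Z true).Nonempty

/-- The invariant of the induction; `B₀` is the set at the start. -/
structure Inv (N : ℕ) (ρ r : ℝ) (B₀ S Y : Set V) (root : V → V) (m : ℕ) (X : Fin m → Set V)
    (Z : Fin m → Bool → Set V) : Prop where
  base : Base T F N ρ S Y root
  sub : B₀ ⊆ S ∪ Y
  axis : ∀ j, Axis T F ρ r S (S ∪ Y)ᶜ (X j) (Z j)
  sep : ∀ j k, j ≠ k → ∀ K, Pc T F (S ∪ Y)ᶜ r K → (K ∩ X j).Nonempty → ¬ (K ∩ X k).Nonempty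
  ess : ∀ v ∈ S ∪ Y ∪ ⋃ j, X j, (∃ b ∈ B₀, Jn T (S ∪ Y ∪ ⋃ j, X j) v b) ∨
    ∃ z, Cyc T {u | Jn T (S ∪ Y ∪ ⋃ j, X j) v u} z ∧ ¬ ∃ Q, d2 T Q = z

/-- A chain of `k` small pieces with 1-chains inside them. -/
def Seq (U : Set V) (η : ℝ) (k : ℕ) (x : ℕ → V) (P : ℕ → Set V) (c : ℕ → V → V → ZMod 2) :
    Prop :=
  ∀ i < k, Pc T F U η (P i) ∧ x i ∈ P i ∧ x (i + 1) ∈ P i ∧ On T (P i) (c i) ∧
    d1 (c i) = ends (x i) (x (i + 1))

/-- A closed chain of pieces, or one from `S` to `S`, that is not zero relative to `Uᶜ`. -/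
def Obj (S U : Set V) (η : ℝ) (k : ℕ) (x : ℕ → V) (P : ℕ → Set V) (c : ℕ → V → V → ZMod 2) :
    Prop :=
  0 < k ∧ Seq T F U η k x P c ∧ ((x k = x 0 ∧ ¬ Nul T Uᶜ (∑ i ∈ Finset.range k, c i)) ∨
    ∃ s₀ ∈ S, ∃ s₁ ∈ S, Adj T s₀ (x 0) ∧ Adj T (x k) s₁ ∧
      ¬ Nul T Uᶜ (edge s₀ (x 0) + ∑ i ∈ Finset.range k, c i + edge (x k) s₁))

end Comb

end T55

end Pool.Agent.MP_17e62b_gt

end

-- part MP_17e62b_gt.G.H72Iface
section

/-! Interfaces of the general case: bands (`BandNet`), discs (`DiscNet`, `DiscOut`). -/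

namespace Pool.Agent.MP_17e62b_gt.G

open Set Filter Topology Metric
open scoped BigOperators
open H14 T55

/-- The combination of the values `φ` with the weights `p`. -/
noncomputable def cmb {N E : Type} [Fintype N] [AddCommGroup E] [Module ℝ E] (φ : N → E)
    (p : N → ℝ) : E := ∑ n, p n • φ n

/-- `x` and `y` lie in a connected subset of `A` on which `f` varies by at most `ρ`. -/
def Near {X E : Type} [TopologicalSpace X] [NormedAddCommGroup E] (f : X → E) (A : Set X) (ρ : ℝ)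
    (x y : X) : Prop :=
  ∃ C ⊆ A, IsPreconnected C ∧ x ∈ C ∧ y ∈ C ∧ ∀ a ∈ C, ∀ b ∈ C, ‖f a - f b‖ ≤ ρ

/-- The left (`false`) and the right (`true`) half of the unit square. -/
def Half (i : Bool) : Set ℂ := {z ∈ Sq | if i then 1 / 2 ≤ z.re else z.re ≤ 1 / 2}

/-- I2. A band cut along the middle line `re = 1 / 2`. The nodes on the middle line with height in
`[y0, y1]` are the cut nodes; the parts below `y0` and above `y1` are small. `Z` is the zone. -/
structure BandNet {E : Type} [NormedAddCommGroup E] [NormedSpace ℝ E] (f : ℂ → E)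
    (d ρ e η s : ℝ) (M : ℕ) where
  N : Type
  [fin : Fintype N]
  r : N → N → ℝ
  pt : N → ℂ
  T : N → ℂ
  g : N → E
  g0 : N → E
  Z : Set ℂ
  y0 : ℝ
  y1 : ℝ
  lam : Bool → ℂ → N → ℝ
  nonneg : ∀ p q, 0 ≤ r p q
  stop : ∀ p q, pt p ∈ frontier Sq → r p q = 0
  abs : Abs r {p | pt p ∈ frontier Sq}
  mem : ∀ p, pt p ∈ Sq
  inj : Function.Injective pt
  T_le : ∀ p, ‖T p‖ ≤ 2
  T_harm : ∀ p, pt p ∉ frontier Sq → gen r T p = 0
  g_near : ∀ p, ‖g p - f (pt p)‖ ≤ η
  g_harm : ∀ p, pt p ∉ frontier Sq → pt p ∉ Z → gen r g p = 0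
  g0_near : ∀ p, ‖g0 p - f (pt p)‖ ≤ e
  g0_harm : ∀ p, pt p ∉ frontier Sq → gen r g0 p = 0
  far : ∀ z ∈ Z, ∀ b ∈ frontier Sq, ¬ Near f Sq d z b
  y_lt : 0 < y0 ∧ y0 < y1 ∧ y1 < 1
  cut_Z : ∀ t ∈ Icc y0 y1, (⟨1 / 2, t⟩ : ℂ) ∈ Z
  cut_card : {p | (pt p).re = 1 / 2 ∧ (pt p).im ∈ Icc y0 y1}.ncard ≤ M
  cut_sep : ∀ x, (pt x).re = 1 / 2 → (pt x).im ∈ Icc y0 y1 → ∀ p, p ≠ x → s ≤ ‖T p - T x‖
  ends : ∀ t t', t ∈ Icc 0 y0 ∧ t' ∈ Icc 0 y0 ∨ t ∈ Icc y1 1 ∧ t' ∈ Icc y1 1 →
    ‖f ⟨1 / 2, t⟩ - f ⟨1 / 2, t'⟩‖ ≤ ρ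
  side : ∀ t ∈ Icc (0 : ℝ) 1, ∀ i, ∀ b ∈ SqV i, ¬ Near f Sq d ⟨1 / 2, t⟩ b
  gap : ∀ t t', 0 ≤ t → t ≤ t' → t' ≤ 1 →
    (∀ p, (pt p).re = 1 / 2 → (pt p).im ∉ Ioo t t') → ‖f ⟨1 / 2, t⟩ - f ⟨1 / 2, t'⟩‖ ≤ e
  cont : ∀ i, ContinuousOn (lam i) (Half i)
  simplex : ∀ i, ∀ y ∈ Half i, lam i y ∈ stdSimplex ℝ N
  node : ∀ i p, pt p ∈ Half i → ∀ n, n ≠ p → lam i (pt p) n = 0
  loc : ∀ i, ∀ y ∈ Half i, ∀ n, lam i y n ≠ 0 →
    Near f (Half i) e y (pt n) ∧ (y ∉ Z → Near f (Half i) η y (pt n))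
  star : ∀ i, ∀ y ∈ Half i, ∀ n, lam i y n ≠ 0 → ∃ C ⊆ Half i, IsPreconnected C ∧ y ∈ C ∧
    pt n ∈ C ∧ ∀ z ∈ C, ∀ n', lam i z n' ≠ 0 → lam i y n' ≠ 0
  up : ∀ i, ∀ y ∈ Half i, ∀ u : N → ℝ, ∃ n, ∃ C ⊆ Half i, IsPreconnected C ∧ y ∈ C ∧ pt n ∈ C ∧
    ∀ z ∈ C, cmb u (lam i y) ≤ cmb u (lam i z)
  edge : ∀ p q, 0 < r p q → ∃ i, ∃ C ⊆ Half i, IsPreconnected C ∧ pt p ∈ C ∧ pt q ∈ C ∧
    (∀ z ∈ C, ∀ n, lam i z n ≠ 0 → n = p ∨ n = q) ∧ (∀ a ∈ C, ∀ b ∈ C, ‖f a - f b‖ ≤ e) ∧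
    (pt p ∉ Z → ∀ a ∈ C, ∀ b ∈ C, ‖f a - f b‖ ≤ η)

attribute [instance] BandNet.fin

/-- The statement of part BAND. -/
def BandStmt : Prop :=
  ∀ (E : Type) [NormedAddCommGroup E] [InnerProductSpace ℝ E] [FiniteDimensional ℝ E]
    (f : ℂ → E), Continuous f → (∀ l : E →L[ℝ] ℝ, MP (interior Sq) fun z => l (f z)) →
    ∀ δ > 0, (∀ a ∈ SqH false, ∀ b ∈ SqH true, ¬ Near f Sq δ a b) →
      (∀ a ∈ SqV false, ∀ b ∈ SqV true, ¬ Near f Sq δ a b) → ∀ e > 0,
      ∃ M : ℕ, ∃ s > 0, ∀ η > 0, ∃ k : ℂ ≃ₜ ℂ, k '' Sq = Sq ∧ (∀ i, k '' SqH i = SqH i) ∧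
        (∀ i, k '' SqV i = SqV i) ∧ Nonempty (BandNet (fun z => f (k z)) (δ / 1000) (δ / 10) e η s M)

section Disc

variable {E ν ι : Type} [NormedAddCommGroup E] [NormedSpace ℝ E] [Fintype ν] [Fintype ι]

open Classical in
/-- The rates of the trace chain on the nodes: direct rates and passages through the discs. -/
noncomputable def trace {Λ : ι → Lens} (app : ∀ c, (Λ c).Vt → ν) (a : ν → ν → ℝ)
    (w : ∀ c, (Λ c).Vt → (Λ c).Vt → ℝ) (x y : ν) : ℝ :=
  a x y + ∑ c, ∑ α, ∑ β, if app c α = x ∧ app c β = y then w c α β else 0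

open Classical in
/-- I3. Nodes `ν`, absorbing nodes `B`, discs `Λ c` whose corners belong to nodes (`app`), exit
laws `Φ c`, exit intensities `w c α β` from the corner `α` to the corner `β`, direct rates `a`. -/
structure DiscNet (Λ : ι → Lens) (app : ∀ c, (Λ c).Vt → ν) (B : Set ν) (a : ν → ν → ℝ)
    (w : ∀ c, (Λ c).Vt → (Λ c).Vt → ℝ) (F : ν → E) (Φ : ∀ c, ℂ → (Λ c).Vt → ℝ) (J R δ : ℝ) :
    Prop where
  a_nonneg : ∀ x y, 0 ≤ a x y
  w_nonneg : ∀ c α β, 0 ≤ w c α β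
  w_self : ∀ c α, w c α α = 0
  a_stop : ∀ x ∈ B, ∀ y, a x y = 0
  w_stop : ∀ c α β, app c α ∈ B → w c α β = 0
  abs : Abs (trace app a w) B
  harm : ∀ x, x ∉ B → gen (trace app a w) F x = 0
  bound : ∀ x, ‖F x‖ ≤ R
  pot : ∃ k : ν → ℝ, (∀ x, 0 ≤ k x) ∧ (∀ x, k x ≤ J) ∧ ∀ x, x ∉ B →
    (∑ c, ∑ α, ∑ β, if app c α = x then w c α β else 0) ≤ -gen (trace app a w) k x
  cont : ∀ c, ContinuousOn (Φ c) (Λ c).P
  simplex : ∀ c, ∀ z ∈ (Λ c).P, Φ c z ∈ stdSimplex ℝ (Λ c).Vt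
  vt : ∀ c (α : (Λ c).Vt), Φ c α = Pi.single α 1
  hp : ∀ c, HP (Λ c).P (Λ c).Vt (Φ c) δ
  bdy : ∀ c, ∃ β : ℂ → ℂ, ContinuousOn β (frontier (Λ c).P) ∧
    BijOn β (frontier (Λ c).P) (frontier (Λ c).P) ∧ (∀ v ∈ (Λ c).Vt, β v = v) ∧
    ∀ y ∈ frontier (Λ c).P, ‖cmb (fun v : (Λ c).Vt => (v : ℂ)) (Φ c y) - β y‖ ≤ δ
  em : ∀ c (α : (Λ c).Vt) (l : ((Λ c).Vt → ℝ) →L[ℝ] ℝ), ‖l‖ ≤ 1 →
    0 < gen (w c) (fun β => l (Pi.single β 1)) α → ∃ β : (Λ c).Vt, β ≠ α ∧
      JoinedIn {y | y ∈ (Λ c).P ∧ l (Pi.single α 1) - δ ≤ l (Φ c y)} α β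

/-- I4. Cell complexes on the discs with values `g`; the nodes have the values `F'`. Only the
points in the interior and the corners, and the edges that are not in the frontier, count. -/
structure DiscOut (Λ : ι → Lens) (app : ∀ c, (Λ c).Vt → ν) (B : Set ν) (a : ν → ν → ℝ)
    (F : ν → E) (Φ : ∀ c, ℂ → (Λ c).Vt → ℝ) (ε : ℝ) (F' : ν → E) (C : ∀ c, Cells (Λ c).P)
    (g : ι → ℂ → E) : Prop where
  close : ∀ x, ‖F' x - F x‖ ≤ ε
  vt : ∀ c (α : (Λ c).Vt), (α : ℂ) ∈ (C c).P ∧ g c α = F' (app c α)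
  fr : ∀ c, ∀ y ∈ frontier (Λ c).P, ∃ e ∈ (C c).E, y ∈ e ∧ e ⊆ frontier (Λ c).P
  small : ∀ c, ∀ d ∈ (C c).D, ∀ x ∈ d.1, ∀ y ∈ d.1,
    ‖cmb (fun v => F (app c v)) (Φ c x) - cmb (fun v => F (app c v)) (Φ c y)‖ ≤ ε
  val : ∀ c, ∀ p ∈ (C c).P, p ∈ interior (Λ c).P →
    ‖g c p - cmb (fun v => F (app c v)) (Φ c p)‖ ≤ ε
  max : ∀ (l : E →L[ℝ] ℝ) (m : ℝ) (A : Set ν) (X : ι → Set ℂ),
    (∀ x ∈ A, l (F' x) = m ∧ ∀ y, 0 < a x y → l (F' y) ≤ m ∧ (l (F' y) = m → y ∈ A)) →
    (∀ c, ∀ p ∈ X c, p ∈ (C c).P ∧ (p ∈ interior (Λ c).P ∨ p ∈ (Λ c).Vt) ∧ l (g c p) = m ∧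
      ∀ q ∈ (C c).P, q ∈ interior (Λ c).P ∨ q ∈ (Λ c).Vt →
        (∃ e ∈ (C c).E, ¬ e ⊆ frontier (Λ c).P ∧ p ∈ e ∧ q ∈ e) →
          l (g c q) ≤ m ∧ (l (g c q) = m → q ∈ X c)) →
    (∀ c (α : (Λ c).Vt), (α : ℂ) ∈ X c ↔ app c α ∈ A) →
    A.Nonempty ∨ (∃ c, (X c).Nonempty) → ∃ x ∈ A, x ∈ B

end Disc

/-- The statement of part S6. -/
def DiscStmt : Prop :=
  ∀ (E ι : Type) [NormedAddCommGroup E] [NormedSpace ℝ E] [Fintype ι] (Λ : ι → Lens) (K : ℕ)
    (J R ε : ℝ), 0 < ε → ∃ δ > 0, ∀ (ν : Type) [Fintype ν], Fintype.card ν ≤ K →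
      ∀ (app : ∀ c, (Λ c).Vt → ν) (B : Set ν) (a : ν → ν → ℝ)
        (w : ∀ c, (Λ c).Vt → (Λ c).Vt → ℝ) (F : ν → E) (Φ : ∀ c, ℂ → (Λ c).Vt → ℝ),
        DiscNet Λ app B a w F Φ J R δ →
          ∃ F' C g, DiscOut Λ app B a F Φ ε F' C g

end Pool.Agent.MP_17e62b_gt.G

end
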