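import Pool.Agent.MP_17e62b_gt.H14.M1
import Pool.Agent.MP_17e62b_gt.Mg.G_H72Iface

attribute [-instance] LieAdmissibleAlgebra.toModule AddQuantale.instAddLeftMono
  RightPreLieAlgebra.toModule LeftPreLieAlgebra.toModule instCoeTCOfCoe
  IdemSemiring.toCanonicallyOrderedAdd AddQuantale.instAddRightMono IsOrderedMonoid.toMulLeftMono
  IdemSemiring.toMulLeftMono NumberField.to_charZero Quantale.instMulRightMono RKHS.instFunLike
  Action.FintypeCat.instMulActionObjFiniteOf Quantale.instMulLeftMono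
  NonUnitalNonAssocSemiring.toAddCommMonoid CanonicallyOrderedAdd.toMulLeftMono
  MulSemiringAction.toDistribMulAction LinearOrderedCommMonoidWithZero.toPosMulStrictMono
  GrpTypeEquivalenceGrp.grpGroup DivisionRing.toRing NonUnitalRing.toNonUnitalNonAssocRing
  CommRing.toRing CoalgHomClass.toSemilinearMapClass instNonemptyOfMonad
  NonUnitalAlgSemiHomClass.toDistribMulActionSemiHomClass ProperSMul.toContinuousSMul
  NormedRing.toRing instCoeTOfCoeDep NonUnitalNormedRing.toNonUnitalSeminormedRing littleWedderburn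
  ContinuousMonoidHom.instCoeOutOfMonoidHomClassOfContinuousMapClass
  AddCommMonoidWithOne.toAddMonoidWithOne MonoidWithZeroHomClass.toZeroHomClass
  LieAdmissibleRing.toNonUnitalNonAssocRing IsTopologicalTorsor.toContinuousSMul
  covariant_swap_mul_of_covariant_mul Torsor.toMulAction Algebra.WeaklyEtale.flat
  Nontrivial.to_nonempty instCoeHTCT IdemSemiring.toSemiring CanonicallyOrderedMul.toMulLeftMono
  NonUnitalNonAssocSemiring.toMulZeroClass instCoeHTC instCoeTC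
  SemilinearIsometryClass.toSemilinearMapClass SubsemiringClass.toCommSemiring Bialgebra.toAlgebra
  bot_nonempty BooleanRing.toRing Zero.instNonempty LieRing.toAddCommGroup
  AddCommGroupWithOne.toAddGroupWithOne NormedRing.toNorm NonarchimedeanRing.toIsTopologicalRing
  One.instNonempty RingHomClass.toLinearMapClassNNRat instSMulZeroClass
  NonUnitalNormedCommRing.toNonUnitalSeminormedCommRing NormedRing.toSeminormedRing

/-! A finite chain in general position with exactly harmonic plane coordinate. -/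

namespace Pool.Agent.MP_17e62b_gt.H14

open Set Filter Topology Metric
open scoped BigOperators

/-- The finite data extracted from an almost saddle graph over the polygon. -/
structure Chain {E V : Type} [NormedAddCommGroup E] [NormedSpace ℝ E] [Fintype V] (Λ : Lens)
    (φ : ℂ → E) (L β η : ℝ) (B : Set V) (R : V → V → ℝ) (T : V → ℂ) (F : V → E) : Prop where
  nonneg : ∀ a b, 0 ≤ R a b
  stop : ∀ b ∈ B, ∀ a, R b a = 0
  mem : ∀ a, T a ∈ Λ.P
  bd : ∀ b ∈ B, T b ∈ Λ.Vt ∧ F b = φ (T b)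
  all : ∀ v ∈ Λ.Vt, ∃ b ∈ B, T b = v
  inj : Function.Injective T
  harmT : ∀ a, a ∉ B → gen R T a = 0
  pot : ∃ k : V → ℝ, (∀ a, 0 ≤ k a) ∧ (∀ a, k a ≤ β) ∧ ∀ a, a ∉ B → 0 < -gen R k a ∧
    ‖gen R F a‖ ≤ -gen R k a ∧
      ∑ b, R a b * (‖T b - T a‖ * (L * ‖T b - T a‖ + η) ^ 2) ≤ -gen R k a
  lip : ∀ a b, ‖F a - F b‖ ≤ L * ‖T a - T b‖ + η
  vert : ∀ a b, 0 < R a b → (T a).re ≠ (T b).re
  gen3 : ∀ a b d, 0 < R a b → d ≠ a → d ≠ b → det2 (T b - T a) (T d - T a) ≠ 0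
  corner : ∀ a, a ∉ B → ∀ b, T b = 1 ∨ T b = -1 → 0 < R a b

variable {E : Type} [NormedAddCommGroup E] [NormedSpace ℝ E]

/-- C1. Steps of size `κ` on a fine net. Hint: the net is so fine that `(T, F)` moves by at most
`δ` from a point to its net point. On the path given by `hp`, either `‖T y - T s‖ < κ` throughout,
or some point has `‖T y - T s‖ = κ` (intermediate values); then `hull_approx`. -/
theorem coarse_step {P : Set ℂ} (hP : IsCompact P) (Vt : Finset ℂ) {T : ℂ → ℂ} {F : ℂ → E}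
    (hT : ContinuousOn T P) (hF : ContinuousOn F P) {κ δ : ℝ} (hδ : 0 < δ) (hκ : 2 * δ ≤ κ)
    (hp : HP P Vt (fun x => (T x, F x)) δ) :
    ∃ S : Finset ℂ, (∀ s ∈ S, s ∈ P) ∧ (∀ x ∈ P, ∃ s ∈ S, ‖T s - T x‖ ≤ δ ∧ ‖F s - F x‖ ≤ δ) ∧
      ∀ s : S, ∃ p : S ⊕ Vt → ℝ, (∀ v, 0 ≤ p v) ∧ ∑ v, p v = 1 ∧
        (∀ s' : S, p (.inl s') ≠ 0 → κ / 2 ≤ ‖T s' - T s‖ ∧ ‖T s' - T s‖ ≤ 2 * κ) ∧
        (∀ b : Vt, p (.inr b) ≠ 0 → ‖T b - T s‖ ≤ κ) ∧
        ‖∑ v, p v • T (Sum.elim Subtype.val Subtype.val v) - T s‖ ≤ 2 * δ ∧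
        ‖∑ v, p v • F (Sum.elim Subtype.val Subtype.val v) - F s‖ ≤ 2 * δ := by
  have hW : ContinuousOn (fun x => (T x, F x)) P := hT.prodMk hF
  obtain ⟨S, hS, hc⟩ := hP.elim_nhdsWithin_subcover
    (fun s => (fun x => (T x, F x)) ⁻¹' closedBall (T s, F s) δ)
    fun s hs => hW s hs (closedBall_mem_nhds _ hδ)
  have net : ∀ x ∈ P, ∃ s ∈ S, ‖(T s, F s) - (T x, F x)‖ ≤ δ := fun x hx => by
    obtain ⟨s, hs, h⟩ := mem_iUnion₂.1 (hc hx)
    exact ⟨s, hs, mem_closedBall_iff_norm'.1 h⟩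
  refine ⟨S, hS, fun x hx => ?_, fun s => ?_⟩
  · obtain ⟨s, hs, h⟩ := net x hx
    exact ⟨s, hs, (norm_fst_le _).trans h, (norm_snd_le _).trans h⟩
  obtain ⟨p, p0, p1, p2, p3⟩ := hull_approx (ι := S ⊕ Vt)
    (fun v => (T (Sum.elim Subtype.val Subtype.val v), F (Sum.elim Subtype.val Subtype.val v)))
    {v | Sum.elim (fun s' : S => κ / 2 ≤ ‖T s' - T s‖ ∧ ‖T s' - T s‖ ≤ 2 * κ)
      (fun b : Vt => ‖T b - T s‖ ≤ κ) v} (T s, F s) (δ := 2 * δ) (by linarith) fun l hl => by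
      obtain ⟨b, hb, γ, hγ⟩ := hp s (hS s s.2) l hl
      by_cases h : ‖T b - T s‖ ≤ κ
      · have h1 := (hγ 1).2
        rw [γ.target] at h1
        exact ⟨.inr ⟨b, hb⟩, h, by dsimp only [Sum.elim_inr] at h1 ⊢; linarith⟩
      · have g : Continuous fun t => ‖T (γ t) - T s‖ :=
          ((hT.comp_continuous γ.continuous fun t => (hγ t).1).sub continuous_const).norm
        obtain ⟨t, ht⟩ := intermediate_value_univ 0 1 g (show κ ∈ Icc _ _ from ⟨by
          rw [γ.source, sub_self, norm_zero]; linarith only [hδ, hκ], by rw [γ.target]; exact (not_le.1 h).le⟩)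
        obtain ⟨s', hs', h2⟩ := net (γ t) (hγ t).1
        have h3 : ‖T s' - T (γ t)‖ ≤ δ := (norm_fst_le _).trans h2
        have h4 := (hγ t).2
        have h5 := (l.le_opNorm _).trans (mul_le_mul hl h2 (norm_nonneg _) zero_le_one)
        rw [map_sub, Real.norm_eq_abs, one_mul, abs_le] at h5
        have h6 := norm_sub_le_norm_sub_add_norm_sub (T s') (T (γ t)) (T s)
        have h7 := norm_sub_le_norm_sub_add_norm_sub (T (γ t)) (T s') (T s)
        rw [norm_sub_rev (T (γ t)) (T s')] at h7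
        dsimp only at ht h4
        exact ⟨.inl ⟨s', hs'⟩, ⟨by dsimp only; linarith only [hκ, ht, h3, h7], by dsimp only; linarith only [hδ, hκ, ht, h3, h6]⟩, by
          dsimp only [Sum.elim_inl]; linarith only [h5.1, h4]⟩
  refine ⟨p, p0, p1, fun s' h => p2 _ h, fun b h => p2 _ h, ?_, ?_⟩
  · simpa only [Prod.fst_sub, Prod.fst_sum, Prod.smul_fst] using (norm_fst_le _).trans p3
  · simpa only [Prod.snd_sub, Prod.snd_sum, Prod.smul_snd] using (norm_snd_le _).trans p3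

/-- C2. Repair by jumps to the vertices. `t v ∈ P` are the old positions, `t'` the new ones.
Hint: let `W = ϑ / (1 - ϑ)`, `d = ∑ v, p v • (t' v - t' s) - 2 ϑ ^ 3 • t' s`. The point
`ζ = t' s - W⁻¹ • d` equals `(1 - ϑ) • y + e` with `y = ∑ s', p (inl s') • t (inl s') ∈ P`
(`0 ∈ P`) and `‖e‖ ≤ 3 ϑ ^ 3 + 8 ϑ ^ 2 ≤ ϑ / 4`, so `ζ ∈ P` (`ball_sub`). Write `ζ` as a convex
combination `ω` of the vertices (`Λ.hull`, `Finset.mem_convexHull'`), and put
`w b = W * ω b + ϑ ^ 3 * [b = 1] + ϑ ^ 3 * [b = -1]`. -/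
theorem repair (Λ : Lens) {S : Type} [Fintype S] {t t' : S ⊕ Λ.Vt → ℂ} {ϑ : ℝ} (h0 : 0 < ϑ)
    (h1 : ϑ ≤ 1 / 40) (ht : ∀ v, t v ∈ Λ.P) (htb : ∀ b, t (.inr b) = b)
    (htb' : ∀ b, t' (.inr b) = b) (hts : ∀ s, ‖t' (.inl s) - (1 - ϑ) • t (.inl s)‖ ≤ ϑ ^ 3)
    {p : S ⊕ Λ.Vt → ℝ} (hp : ∀ v, 0 ≤ p v) (hp1 : ∑ v, p v = 1) (s : S)
    (hd : ‖∑ v, p v • t v - t (.inl s)‖ ≤ 2 * ϑ ^ 3) :
    ∃ w : Λ.Vt → ℝ, (∀ b, 0 ≤ w b) ∧ ∑ b, w b ≤ 3 * ϑ ∧
      (∀ b : Λ.Vt, (b : ℂ) = 1 ∨ (b : ℂ) = -1 → 0 < w b) ∧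
      ∑ v, p v • (t' v - t' (.inl s)) + ∑ b, w b • ((b : ℂ) - t' (.inl s)) = 0 := by
  classical
  have c0 : 0 < 1 - ϑ := by linarith
  have cv : Convex ℝ Λ.P := Λ.convex_reg 0
  have bs : closedBall (0 : ℂ) (1 / 4) ⊆ Λ.P := Λ.ball_sub le_rfl
  obtain ⟨y, hy⟩ : ∃ y, y = ∑ s', p (.inl s') • t (.inl s') := ⟨_, rfl⟩
  have yP : y ∈ Λ.P := by
    have := cv.sum_mem (t := Finset.univ) (w := p) (z := Sum.elim (fun s' => t (.inl s')) 0)
      (fun v _ => hp v) hp1 fun v _ => by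
        rcases v with v | v
        · exact ht _
        · exact bs (mem_closedBall_self (by norm_num))
    simpa only [hy, Complex.real_smul, Fintype.sum_sum_type, Sum.elim_inl, Finset.univ_eq_attach, Sum.elim_inr, Pi.zero_apply, mul_zero, Finset.sum_const_zero, add_zero] using this
  obtain ⟨a, ha⟩ : ∃ a, a = t' (.inl s) := ⟨_, rfl⟩
  obtain ⟨A, hA⟩ : ∃ A, A = ∑ v, p v • t' v := ⟨_, rfl⟩
  have e1 : ‖A - ∑ v, p v • t v + ϑ • y‖ ≤ ϑ ^ 3 := by
    have e : A - ∑ v, p v • t v + ϑ • y =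
        ∑ s', p (.inl s') • (t' (.inl s') - (1 - ϑ) • t (.inl s')) := by
      simp only [hA, Fintype.sum_sum_type, htb, htb', smul_sub, Finset.sum_sub_distrib,
        smul_comm (p _) (1 - ϑ), ← Finset.smul_sum, ← hy]
      module
    have e' : ∑ s', p (.inl s') ≤ 1 := by
      rw [← hp1, Fintype.sum_sum_type]
      exact le_add_of_nonneg_right (Finset.sum_nonneg fun b _ => hp _)
    rw [e]
    refine (norm_sum_le_of_le _ (n := fun s' => p (.inl s') * ϑ ^ 3) fun s' _ => ?_).trans ?_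
    · rw [norm_smul, Real.norm_of_nonneg (hp _)]
      exact mul_le_mul_of_nonneg_left (hts s') (hp _)
    · rw [← Finset.sum_mul]
      exact mul_le_of_le_one_left (by positivity) e'
  have e2 := hts s
  rw [← ha] at e2
  have t3 : ϑ ^ 3 ≤ ϑ / 1600 := by nlinarith [mul_pos h0 h0]
  have e3 : ‖a‖ ≤ 21 / 10 := by
    have h2 := Λ.norm_le (s := 0) (by norm_num) (ht (.inl s))
    have h3 := norm_le_norm_sub_add a ((1 - ϑ) • t (.inl s))
    rw [norm_smul, Real.norm_of_nonneg c0.le] at h3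
    nlinarith only [h0, h1, e2, t3, h2, h3]
  obtain ⟨u, hu⟩ : ∃ u, u = (∑ v, p v • t v - t (.inl s)) + (A - ∑ v, p v • t v + ϑ • y) -
      (a - (1 - ϑ) • t (.inl s)) - (2 * ϑ ^ 3) • a := ⟨_, rfl⟩
  have e4 : ‖u‖ ≤ 41 / 5 * ϑ ^ 3 := by
    rw [hu]
    refine (norm_sub_le_of_le (norm_sub_le_of_le (norm_add_le_of_le hd e1) e2)
      (show ‖(2 * ϑ ^ 3) • a‖ ≤ 2 * ϑ ^ 3 * (21 / 10) from ?_)).trans (by linarith only [])
    rw [norm_smul, Real.norm_of_nonneg (by positivity)]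
    exact mul_le_mul_of_nonneg_left e3 (by positivity)
  obtain ⟨z, hz⟩ : ∃ z, z = ϑ⁻¹ • (a - (1 - ϑ) • t (.inl s)) - ((1 - ϑ) * ϑ⁻¹ * ϑ⁻¹) • u :=
    ⟨_, rfl⟩
  have e5 : ‖z‖ ≤ 1 / 4 := by
    have i0 : 0 < ϑ⁻¹ := inv_pos.2 h0
    rw [hz]
    refine (norm_sub_le _ _).trans ?_
    rw [norm_smul, norm_smul, Real.norm_of_nonneg i0.le, Real.norm_of_nonneg (by positivity)]
    refine (add_le_add (mul_le_mul_of_nonneg_left e2 i0.le)
      (mul_le_mul_of_nonneg_left e4 (by positivity))).trans ?_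
    rw [show ϑ⁻¹ * ϑ ^ 3 + (1 - ϑ) * ϑ⁻¹ * ϑ⁻¹ * (41 / 5 * ϑ ^ 3) =
      ϑ ^ 2 + (1 - ϑ) * (41 / 5 * ϑ) by field_simp]
    nlinarith only [h1]
  obtain ⟨ω, w0, w1, w2⟩ := Finset.mem_convexHull'.1 (Λ.hull (cv yP
    (bs (mem_closedBall_zero_iff.2 e5)) c0.le h0.le (sub_add_cancel 1 ϑ)))
  rw [← Finset.sum_coe_sort] at w1 w2
  have W0 : 0 < ϑ / (1 - ϑ) := div_pos h0 c0
  have one : ∀ {M : Type} [AddCommMonoid M] (c : ℂ) (hc : c ∈ Λ.Vt) (f : ℂ → M),
      ∑ b : Λ.Vt, (if (b : ℂ) = c then f b else 0) = f c := fun c hc f => by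
    rw [Finset.sum_coe_sort Λ.Vt fun b => if b = c then f b else 0, Finset.sum_ite_eq', if_pos hc]
  refine ⟨fun b => ϑ / (1 - ϑ) * ω b + (if (b : ℂ) = 1 then ϑ ^ 3 else 0) +
    if (b : ℂ) = -1 then ϑ ^ 3 else 0, fun b => ?_, ?_, fun b hb => ?_, ?_⟩
  · have := w0 b b.2
    positivity
  · rw [Finset.sum_add_distrib, Finset.sum_add_distrib, ← Finset.mul_sum, w1,
      one 1 Λ.one_mem fun _ => ϑ ^ 3, one (-1) Λ.neg_mem fun _ => ϑ ^ 3]
    have : ϑ / (1 - ϑ) ≤ 2 * ϑ := by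
      rw [div_le_iff₀ c0]
      nlinarith only [h0, h1]
    linarith only [h0, t3, this]
  · have := w0 b b.2
    dsimp only
    rcases hb with hb | hb
    · rw [if_pos hb]
      positivity
    · rw [if_pos hb]
      positivity
  · simp only [← ha, add_smul, ite_smul, zero_smul, Finset.sum_add_distrib, mul_smul,
      ← Finset.smul_sum]
    rw [one 1 Λ.one_mem fun b => ϑ ^ 3 • (b - a), one (-1) Λ.neg_mem fun b => ϑ ^ 3 • (b - a)]
    simp only [smul_sub, Finset.sum_sub_distrib, ← Finset.sum_smul, hp1, w1, w2, ← hA]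
    rw [hz, hu]
    match_scalars <;> field_simp <;> ring

theorem coarse_sum {S W X : Type} [Fintype S] [Fintype W] [AddCommGroup X] [Module ℝ X]
    (p : S ⊕ W → ℝ) (w : W → ℝ) (f : S ⊕ W → X) :
    ∑ v, (p v + Sum.elim (fun _ => (0 : ℝ)) w v) • f v =
      ∑ v, p v • f v + ∑ b, w b • f (.inr b) := by
  simp only [add_smul, Finset.sum_add_distrib]
  congr 1
  rw [Fintype.sum_sum_type]
  simp only [Sum.elim_inl, zero_smul, Finset.sum_const_zero, Sum.elim_inr, zero_add]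

theorem coarse_const {L β : ℝ} (hL : 0 ≤ L) (hβ : 0 < β) :
    ∃ κ : ℝ, 0 < κ ∧ (4 * L + 1) * κ ≤ 1 / 40 ∧ 1300 * (4 * L + 1) ^ 2 * κ ≤ β := by
  have hM : 0 < 4 * L + 1 := by linarith
  refine ⟨min (1 / (40 * (4 * L + 1))) (β / (1300 * (4 * L + 1) ^ 2)), by positivity, ?_, ?_⟩
  · calc (4 * L + 1) * min (1 / (40 * (4 * L + 1))) (β / (1300 * (4 * L + 1) ^ 2))
        ≤ (4 * L + 1) * (1 / (40 * (4 * L + 1))) := by gcongr; exact min_le_left _ _
      _ = 1 / 40 := by field_simp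
  · calc 1300 * (4 * L + 1) ^ 2 * min (1 / (40 * (4 * L + 1))) (β / (1300 * (4 * L + 1) ^ 2))
        ≤ 1300 * (4 * L + 1) ^ 2 * (β / (1300 * (4 * L + 1) ^ 2)) := by
          gcongr; exact min_le_right _ _
      _ = β := by field_simp

theorem coarse_mem (Λ : Lens) {ϑ : ℝ} (h0 : 0 < ϑ) (h1 : ϑ ≤ 1 / 40) {y z : ℂ} (hy : y ∈ Λ.P)
    (hz : ‖z - (1 - ϑ) • y‖ ≤ ϑ ^ 3) : z ∈ Λ.P := by
  have he : ϑ⁻¹ • (z - (1 - ϑ) • y) ∈ Λ.P := by
    refine Λ.ball_sub le_rfl ?_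
    rw [mem_closedBall, dist_zero_right, norm_smul, norm_inv, Real.norm_of_nonneg h0.le,
      inv_mul_le_iff₀ h0]
    have : ϑ ^ 2 ≤ 1 / 4 := by nlinarith
    calc _ ≤ ϑ ^ 3 := hz
      _ = ϑ * ϑ ^ 2 := by ring
      _ ≤ ϑ * (1 / 4) := by gcongr
  have := (Λ.convex_reg 0) hy he (a := 1 - ϑ) (b := ϑ) (by linarith) h0.le (by ring)
  rw [smul_smul, mul_inv_cancel₀ h0.ne', one_smul, add_sub_cancel] at this
  exact this

theorem coarse_move {ϑ : ℝ} (h0 : 0 < ϑ) (h1 : ϑ ≤ 1 / 40) {y z : ℂ} (hy : ‖y‖ ≤ 2)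
    (hz : ‖z - (1 - ϑ) • y‖ ≤ ϑ ^ 3) : ‖z - y‖ ≤ 3 * ϑ := by
  have e : z - y = (z - (1 - ϑ) • y) - ϑ • y := by
    rw [sub_smul, one_smul]; abel
  have h2 : ‖ϑ • y‖ ≤ ϑ * 2 := by
    rw [norm_smul, Real.norm_of_nonneg h0.le]; gcongr
  have h3 : ϑ ^ 3 ≤ ϑ := by
    have : ϑ ^ 2 ≤ 1 := by nlinarith only [h0, h1]
    nlinarith
  rw [e]
  linarith [norm_sub_le (z - (1 - ϑ) • y) (ϑ • y)]

theorem coarse_diff {x y x' y' : ℂ} {r : ℝ} (hx : ‖x' - x‖ ≤ r) (hy : ‖y' - y‖ ≤ r) :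
    ‖x - y‖ ≤ ‖x' - y'‖ + 2 * r ∧ ‖x' - y'‖ ≤ ‖x - y‖ + 2 * r := by
  constructor
  · have e : x - y = (x' - y') - (x' - x) + (y' - y) := by ring
    rw [e]
    linarith [norm_add_le ((x' - y') - (x' - x)) (y' - y), norm_sub_le (x' - y') (x' - x)]
  · have e : x' - y' = (x - y) + (x' - x) - (y' - y) := by ring
    rw [e]
    linarith [norm_sub_le ((x - y) + (x' - x)) (y' - y), norm_add_le (x - y) (x' - x)]

/-- The basic potential decreases at unit rate. -/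
theorem coarse_lyap {S W : Type} [Fintype S] [Fintype W] {R : S ⊕ W → S ⊕ W → ℝ}
    {p : S ⊕ W → ℝ} {w : W → ℝ} {T : S ⊕ W → ℂ} {κ : ℝ} (hκ : 0 < κ) (s : S)
    (hR : ∀ v, R (.inl s) v = p v + Sum.elim (fun _ => (0 : ℝ)) w v) (hp : ∀ v, 0 ≤ p v)
    (hp1 : ∑ v, p v = 1) (hw : ∀ b, 0 ≤ w b) (hT : gen R T (.inl s) = 0)
    (hfar : ∀ s', p (.inl s') ≠ 0 → κ / 4 ≤ ‖T (.inl s') - T (.inl s)‖) :
    1 ≤ -gen R (fun v => 16 * (4 - ‖T v‖ ^ 2) / κ ^ 2 +
      Sum.elim (fun _ => (1 : ℝ)) (fun _ => 0) v) (.inl s) := by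
  have h1 := gen_norm_sq R T (.inl s)
  rw [hT, inner_zero_right, mul_zero, add_zero] at h1
  have h2 : -gen R (fun v => 16 * (4 - ‖T v‖ ^ 2) / κ ^ 2 +
      Sum.elim (fun _ => (1 : ℝ)) (fun _ => 0) v) (.inl s) =
      16 / κ ^ 2 * gen R (fun v => ‖T v‖ ^ 2) (.inl s) +
        ∑ v, R (.inl s) v * Sum.elim (fun _ => (0 : ℝ)) (fun _ => 1) v := by
    simp only [gen, smul_eq_mul, Finset.mul_sum, ← Finset.sum_neg_distrib,
      ← Finset.sum_add_distrib]
    refine Finset.sum_congr rfl fun v _ => ?_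
    rcases v with v | v
    · simp only [Sum.elim_inl]; ring
    · simp only [Sum.elim_inl, Sum.elim_inr]; ring
  rw [h2, h1, Finset.mul_sum, ← Finset.sum_add_distrib]
  refine hp1.symm.trans_le (Finset.sum_le_sum fun v _ => ?_)
  rw [hR]
  rcases v with v | v
  · simp only [Sum.elim_inl, add_zero, mul_zero]
    by_cases h : p (.inl v) = 0
    · rw [h]; simp
    · have h3 : (κ / 4) ^ 2 ≤ ‖T (.inl v) - T (.inl s)‖ ^ 2 := by
        have := hfar v h
        gcongr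
      calc p (.inl v) = 16 / κ ^ 2 * (p (.inl v) * (κ / 4) ^ 2) := by field_simp; ring
        _ ≤ _ := by have := hp (.inl v); gcongr
  · simp only [Sum.elim_inr, mul_one]
    have := hp (.inr v)
    have := hw v
    have : 0 ≤ 16 / κ ^ 2 * ((p (.inr v) + w v) * ‖T (.inr v) - T (.inl s)‖ ^ 2) := by positivity
    linarith

/-- C3. Hint: choose `κ`, then `ϑ ≤ min (1 / 40) (κ / 24)`, then `δ = ϑ ^ 3`, `η = δ + 6 L ϑ`.
Nodes `S ⊕ Λ.Vt` from `coarse_step`, `B = range inr`, positions from `generic` applied to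
`(1 - ϑ) • T s` and the vertices with `ε = ϑ ^ 3`; `R (inl s) v = p s v + w s b` for `v = inr b`
(`repair`), `R (inr _) _ = 0`. Each position moves by at most `3 ϑ` (`norm_le`).
`k₀ = 16 (4 - ‖T‖ ^ 2) / κ ^ 2 + [a ∉ B]` has `- gen R k₀ ≥ 1` (`gen_norm_sq`),
`k₀ ≤ H = 64 / κ ^ 2 + 1`. Take `k = θ k₀` where `θ` is the larger of `2 δ + 3 ϑ (4 L + 1)` and
`3 κ (3 L κ + η) ^ 2 + 12 ϑ (4 L + η) ^ 2`; one needs `H θ ≤ β`. -/
theorem coarse (Λ : Lens) (φ : ℂ → E) {L β : ℝ} (hL : 0 ≤ L) (hβ : 0 < β) :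
    ∃ δ > 0, ∀ (T₀ : ℂ → ℂ) (F₀ : ℂ → E), ContinuousOn T₀ Λ.P → ContinuousOn F₀ Λ.P →
      MapsTo T₀ Λ.P Λ.P → (∀ b ∈ Λ.Vt, T₀ b = b ∧ F₀ b = φ b) →
      HP Λ.P Λ.Vt (fun x => (T₀ x, F₀ x)) δ →
      (∀ x ∈ Λ.P, ∀ y ∈ Λ.P, ‖F₀ x - F₀ y‖ ≤ L * ‖T₀ x - T₀ y‖ + δ) →
      ∃ (V : Type) (_ : Fintype V) (B : Set V) (R : V → V → ℝ) (T : V → ℂ) (F : V → E) (η : ℝ),
        0 ≤ η ∧ η ≤ β ∧ Chain Λ φ L β η B R T F ∧
          ∀ x ∈ Λ.P, ∃ a, a ∉ B ∧ ‖T a - T₀ x‖ ≤ β ∧ ‖F a - F₀ x‖ ≤ β := by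
  classical
  obtain ⟨κ, hκ, hκ1, hκ2⟩ := coarse_const hL hβ
  obtain ⟨M, hM⟩ : ∃ M, M = 4 * L + 1 := ⟨_, rfl⟩
  rw [← hM] at hκ1 hκ2
  have hM1 : 1 ≤ M := by linarith only [hL, hM]
  have hκ40 : κ ≤ 1 / 40 := by nlinarith only [hL, hκ1, hM]
  have hκβ : κ ≤ β := by
    have : 1 ≤ M ^ 2 := by nlinarith only [hL, hM]
    nlinarith only [hκ, hκ2, this]
  obtain ⟨ϑ, hϑ⟩ : ∃ ϑ, ϑ = κ ^ 3 := ⟨_, rfl⟩
  have hϑ0 : 0 < ϑ := by rw [hϑ]; positivity
  have hκsq : κ ^ 2 ≤ 1 / 1600 := by nlinarith only [hκ, hκ40]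
  have hϑκ : ϑ ≤ κ / 1600 := by
    calc ϑ = κ * κ ^ 2 := by rw [hϑ]; ring
      _ ≤ κ * (1 / 1600) := by gcongr
      _ = κ / 1600 := by ring
  have hϑ1 : ϑ ≤ 1 / 40 := by linarith only [hκ40, hϑκ]
  have hδ0 : 0 < ϑ ^ 3 := by positivity
  have hδϑ : ϑ ^ 3 ≤ ϑ := by
    have : ϑ ^ 2 ≤ 1 := by nlinarith only [hϑ0, hκsq, hϑκ]
    nlinarith
  have hLϑ : L * ϑ ≤ κ / 24 := by
    have h1 : L * κ ≤ 1 / 160 := by nlinarith only [hκ1, hM, hϑ0, hϑκ]
    calc L * ϑ = (L * κ) * κ * κ := by rw [hϑ]; ring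
      _ ≤ (1 / 160) * (1 / 40) * κ := by gcongr
      _ ≤ κ / 24 := by linarith only [hϑ0, hϑκ]
  refine ⟨ϑ ^ 3, hδ0, fun T₀ F₀ hT₀ hF₀ hmap hbd hp hlip => ?_⟩
  obtain ⟨S, hS, hnet, hstep⟩ := coarse_step (Λ.compact_reg 0) Λ.Vt hT₀ hF₀ (κ := κ) hδ0
    (by linarith only [hϑ0, hϑκ, hδϑ]) hp
  choose p hp0 hp1 hpS hpB hpT hpF using hstep
  obtain ⟨x, hx⟩ : ∃ x : S ⊕ Λ.Vt → ℂ, x = Sum.elim Subtype.val Subtype.val := ⟨_, rfl⟩
  have hxl : ∀ s : S, x (.inl s) = s := fun s => by rw [hx]; rfl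
  have hxr : ∀ b : Λ.Vt, x (.inr b) = b := fun b => by rw [hx]; rfl
  rw [← hx] at hpT hpF
  have hxP : ∀ v, x v ∈ Λ.P := by
    rintro (s | b)
    · rw [hxl]; exact hS _ s.2
    · rw [hxr]; exact Λ.vt_mem b.2
  have htP : ∀ v, T₀ (x v) ∈ Λ.P := fun v => hmap (hxP v)
  have htb : ∀ b : Λ.Vt, T₀ (x (.inr b)) = b := fun b => by rw [hxr]; exact (hbd _ b.2).1
  have hn2 : ∀ z ∈ Λ.P, ‖z‖ ≤ 2 := fun z hz => Λ.norm_le (s := 0) (by norm_num) hz
  obtain ⟨T, hTb, hTc, hTi, hTre, hTdet⟩ := generic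
    (Sum.elim (fun s : S => (1 - ϑ) • T₀ s) (fun b : Λ.Vt => (b : ℂ))) (range Sum.inr)
    (by
      rintro _ ⟨b, rfl⟩ _ ⟨b', rfl⟩ h
      simp only [Sum.elim_inr] at h
      rw [Subtype.ext h]) hδ0
  have hTr : ∀ b : Λ.Vt, T (.inr b) = b := fun b => hTb _ ⟨b, rfl⟩
  have hTl : ∀ s : S, ‖T (.inl s) - (1 - ϑ) • T₀ (x (.inl s))‖ ≤ ϑ ^ 3 := fun s => by
    rw [hxl]; exact hTc (.inl s)
  have hTP : ∀ v, T v ∈ Λ.P := by
    rintro (s | b)
    · exact coarse_mem Λ hϑ0 hϑ1 (htP _) (hTl s)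
    · rw [hTr]; exact Λ.vt_mem b.2
  have hmv : ∀ v, ‖T v - T₀ (x v)‖ ≤ 3 * ϑ := by
    rintro (s | b)
    · exact coarse_move hϑ0 hϑ1 (hn2 _ (htP _)) (hTl s)
    · rw [hTr, htb, sub_self, norm_zero]; positivity
  have hrep := fun s : S => repair Λ (t := fun v => T₀ (x v)) (t' := T) hϑ0 hϑ1 htP htb hTr hTl
    (hp0 s) (hp1 s) s (by rw [hxl]; exact hpT s)
  choose w hw0 hw1 hwc hwT using hrep
  obtain ⟨R, hR⟩ : ∃ R : S ⊕ Λ.Vt → S ⊕ Λ.Vt → ℝ, R =
    Sum.elim (fun s v => p s v + Sum.elim (fun _ => (0 : ℝ)) (w s) v) (fun _ _ => 0) := ⟨_, rfl⟩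
  have hRl : ∀ s v, R (.inl s) v = p s v + Sum.elim (fun _ => (0 : ℝ)) (w s) v :=
    fun s v => by rw [hR]; rfl
  have hRr : ∀ b v, R (.inr b) v = 0 := fun b v => by rw [hR]; rfl
  have hnB : ∀ a : S ⊕ Λ.Vt, a ∉ range Sum.inr → ∃ s, a = .inl s := by
    rintro (s | b) h
    · exact ⟨s, rfl⟩
    · exact absurd ⟨b, rfl⟩ h
  have hlB : ∀ s : S, (Sum.inl s : S ⊕ Λ.Vt) ∉ range Sum.inr := by
    rintro s ⟨b, h⟩; cases h
  have hpos : ∀ a b, 0 < R a b → a ∉ range Sum.inr ∧ b ≠ a := by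
    rintro (s | c) b h
    · refine ⟨hlB s, ?_⟩
      rintro rfl
      rw [hRl] at h
      simp only [Sum.elim_inl, add_zero] at h
      have := (hpS s s h.ne').1
      rw [sub_self, norm_zero] at this
      linarith only [hϑ0, hϑκ, this]
    · rw [hRr] at h; exact absurd h (lt_irrefl _)
  have hharm : ∀ s : S, gen R T (.inl s) = 0 := fun s => by
    simp only [gen, hRl]
    rw [coarse_sum (p s) (w s) (fun v => T v - T (.inl s))]
    simp only [hTr]
    exact hwT s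
  have hη0 : 0 ≤ ϑ ^ 3 + 6 * (L * ϑ) := by positivity
  have hηκ : ϑ ^ 3 + 6 * (L * ϑ) ≤ κ := by linarith only [hϑ0, hϑκ, hδϑ, hLϑ]
  have hlip' : ∀ a b, ‖F₀ (x a) - F₀ (x b)‖ ≤ L * ‖T a - T b‖ + (ϑ ^ 3 + 6 * (L * ϑ)) := by
    intro a b
    have h1 := hlip _ (hxP a) _ (hxP b)
    have h2 := (coarse_diff (hmv a) (hmv b)).1
    have h3 : L * ‖T₀ (x a) - T₀ (x b)‖ ≤ L * (‖T a - T b‖ + 2 * (3 * ϑ)) := by gcongr
    linarith only [h1, h3]
  have h4 : ∀ a b, ‖T a - T b‖ ≤ 4 := fun a b => by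
    linarith only [norm_sub_le (T a) (T b), hn2 _ (hTP a), hn2 _ (hTP b)]
  refine ⟨S ⊕ Λ.Vt, inferInstance, range Sum.inr, R, T, fun v => F₀ (x v),
    ϑ ^ 3 + 6 * (L * ϑ), hη0, hηκ.trans hκβ, ⟨?_, ?_, hTP, ?_, ?_, hTi, ?_, ?_, hlip', ?_, ?_, ?_⟩,
    ?_⟩
  · rintro (s | c) b
    · rw [hRl]
      rcases b with b | b
      · simpa only [Sum.elim_inl, add_zero] using hp0 s _
      · exact add_nonneg (hp0 s _) (hw0 s b)
    · rw [hRr]
  · rintro _ ⟨b, rfl⟩ a; exact hRr b a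
  · rintro _ ⟨b, rfl⟩
    rw [hTr, hxr]
    exact ⟨b.2, (hbd _ b.2).2⟩
  · intro v hv; exact ⟨.inr ⟨v, hv⟩, ⟨_, rfl⟩, hTr _⟩
  · intro a ha
    obtain ⟨s, rfl⟩ := hnB a ha
    exact hharm s
  · obtain ⟨k₀, hk₀⟩ : ∃ k₀ : S ⊕ Λ.Vt → ℝ, k₀ = fun v => 16 * (4 - ‖T v‖ ^ 2) / κ ^ 2 +
      Sum.elim (fun _ => (1 : ℝ)) (fun _ => 0) v := ⟨_, rfl⟩
    have hk0 : ∀ v, 0 ≤ k₀ v ∧ k₀ v ≤ 65 / κ ^ 2 := fun v => by
      have h1 := hn2 _ (hTP v)
      have h2 := norm_nonneg (T v)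
      have h3 : 0 ≤ 4 - ‖T v‖ ^ 2 := by nlinarith only [h1, h2]
      have h5 : 16 * (4 - ‖T v‖ ^ 2) / κ ^ 2 ≤ 64 / κ ^ 2 := by
        gcongr; nlinarith only []
      have h6 : 0 ≤ 16 * (4 - ‖T v‖ ^ 2) / κ ^ 2 := by positivity
      have h7 : 1 ≤ 1 / κ ^ 2 := by
        rw [le_div_iff₀ (by positivity)]; linarith only [hκsq]
      have h8 : 65 / κ ^ 2 = 64 / κ ^ 2 + 1 / κ ^ 2 := by ring
      rw [hk₀]
      rcases v with v | v
      · simp only [Sum.elim_inl]; constructor <;> linarith only [h6, h7, h8, h5]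
      · simp only [Sum.elim_inr]; constructor <;> linarith only [h6, h7, h8, h5]
    have hθ0 : 0 < 20 * M ^ 2 * ϑ := by positivity
    refine ⟨fun v => 20 * M ^ 2 * ϑ * k₀ v, fun v => mul_nonneg hθ0.le (hk0 v).1, fun v => ?_,
      fun a ha => ?_⟩
    · calc 20 * M ^ 2 * ϑ * k₀ v ≤ 20 * M ^ 2 * ϑ * (65 / κ ^ 2) := by
            gcongr; exact (hk0 v).2
        _ = 1300 * M ^ 2 * κ := by rw [hϑ]; field_simp; ring
        _ ≤ β := hκ2
    obtain ⟨s, rfl⟩ := hnB a ha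
    have hl : 1 ≤ -gen R k₀ (.inl s) := by
      rw [hk₀]
      refine coarse_lyap hκ s (hRl s) (hp0 s) (hp1 s) (hw0 s) (hharm s) fun s' h => ?_
      have h1 := (hpS s s' h).1
      have h2 := (coarse_diff (hmv (.inl s')) (hmv (.inl s))).1
      rw [hxl, hxl] at h2
      linarith only [hϑ0, hϑκ, h1, h2]
    have hg : -gen R (fun v => 20 * M ^ 2 * ϑ * k₀ v) (.inl s) =
        20 * M ^ 2 * ϑ * -gen R k₀ (.inl s) := by
      simp only [gen, smul_eq_mul, Finset.mul_sum, ← Finset.sum_neg_distrib]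
      exact Finset.sum_congr rfl fun v _ => by ring
    have hge : 20 * M ^ 2 * ϑ ≤ -gen R (fun v => 20 * M ^ 2 * ϑ * k₀ v) (.inl s) := by
      rw [hg]; nlinarith only [hθ0, hl]
    have hMM : M * ϑ ≤ M ^ 2 * ϑ := by gcongr; nlinarith only [hL, hM]
    have hM0 : ϑ ≤ M * ϑ := by nlinarith only [hL, hM, hϑ0]
    refine ⟨hθ0.trans_le hge, le_trans ?_ hge, le_trans ?_ hge⟩
    · simp only [gen, hRl]
      rw [coarse_sum (p s) (w s) (fun v => F₀ (x v) - F₀ (x (.inl s)))]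
      have h1 : ∑ v, p s v • (F₀ (x v) - F₀ (x (.inl s))) = ∑ v, p s v • F₀ (x v) - F₀ s := by
        simp only [smul_sub, Finset.sum_sub_distrib, ← Finset.sum_smul, hp1, one_smul, hxl]
      have h2 : ‖∑ b, w s b • (F₀ (x (.inr b)) - F₀ (x (.inl s)))‖ ≤ ∑ b, w s b * M := by
        refine norm_sum_le_of_le _ fun b _ => ?_
        rw [norm_smul, Real.norm_of_nonneg (hw0 s b)]
        have h3 := hlip' (.inr b) (.inl s)
        have h5 : L * ‖T (.inr b) - T (.inl s)‖ ≤ L * 4 := by gcongr; exact h4 _ _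
        have := hw0 s b
        gcongr
        linarith only [hM, hκ40, hϑκ, hδϑ, hLϑ, h3, h5]
      rw [← Finset.sum_mul] at h2
      have h3 : (∑ b, w s b) * M ≤ 3 * ϑ * M := by gcongr; exact hw1 s
      have h5 := hpF s
      rw [h1]
      refine (norm_add_le _ _).trans ?_
      linarith only [hϑ0, hδϑ, hMM, hM0, h2, h3, h5]
    · have e := coarse_sum (p s) (w s) (fun v => ‖T v - T (.inl s)‖ *
        (L * ‖T v - T (.inl s)‖ + (ϑ ^ 3 + 6 * (L * ϑ))) ^ 2)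
      simp only [smul_eq_mul] at e
      simp only [hRl]
      rw [e]
      have h1 : ∑ v, p s v * (‖T v - T (.inl s)‖ *
          (L * ‖T v - T (.inl s)‖ + (ϑ ^ 3 + 6 * (L * ϑ))) ^ 2) ≤
          ∑ v, p s v * (3 * κ * (M * κ) ^ 2) := by
        refine Finset.sum_le_sum fun v _ => ?_
        by_cases h : p s v = 0
        · rw [h]; simp
        have h2 : ‖T v - T (.inl s)‖ ≤ 3 * κ := by
          have h3 := (coarse_diff (hmv v) (hmv (.inl s))).2
          rw [hxl] at h3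
          rcases v with v | v
          · have := (hpS s v h).2
            rw [hxl] at h3
            linarith only [hϑ0, hϑκ, h3, this]
          · have := hpB s v h
            rw [hxr] at h3
            linarith only [hϑ0, hϑκ, h3, this]
        have h3 : L * ‖T v - T (.inl s)‖ ≤ L * (3 * κ) := by gcongr
        have h5 : 0 ≤ L * κ := by positivity
        have h6 : L * ‖T v - T (.inl s)‖ + (ϑ ^ 3 + 6 * (L * ϑ)) ≤ M * κ := by
          rw [hM]; linarith only [hϑ0, hϑκ, hδϑ, hLϑ, h3, h5]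
        have := hp0 s v
        gcongr
      have h2 : ∑ b, w s b * (‖T (.inr b) - T (.inl s)‖ *
          (L * ‖T (.inr b) - T (.inl s)‖ + (ϑ ^ 3 + 6 * (L * ϑ))) ^ 2) ≤
          ∑ b, w s b * (4 * M ^ 2) := by
        refine Finset.sum_le_sum fun b _ => ?_
        have h3 := h4 (.inr b) (.inl s)
        have h5 : L * ‖T (.inr b) - T (.inl s)‖ ≤ L * 4 := by gcongr
        have h6 : L * ‖T (.inr b) - T (.inl s)‖ + (ϑ ^ 3 + 6 * (L * ϑ)) ≤ M := by linarith only [hM, hκ40, hϑκ, hδϑ, hLϑ, h5]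
        have := hw0 s b
        gcongr
      rw [← Finset.sum_mul, hp1, one_mul] at h1
      rw [← Finset.sum_mul] at h2
      have h3 : (∑ b, w s b) * (4 * M ^ 2) ≤ 3 * ϑ * (4 * M ^ 2) := by gcongr; exact hw1 s
      have h5 : 3 * κ * (M * κ) ^ 2 = 3 * (M ^ 2 * ϑ) := by rw [hϑ]; ring
      have h6 : 0 ≤ M ^ 2 * ϑ := by positivity
      linarith only [hϑ0, hMM, hM0, h1, h2, h3, h5]
  · intro a b h
    exact hTre a (hpos a b h).1 b (hpos a b h).2
  · intro a b d h hda hdb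
    exact hTdet a (hpos a b h).1 b d (hpos a b h).2 hda hdb
  · intro a ha b hb
    obtain ⟨s, rfl⟩ := hnB a ha
    have key : ∀ c : Λ.Vt, ((c : ℂ) = 1 ∨ (c : ℂ) = -1) → T b = c → 0 < R (.inl s) b := by
      intro c hc h
      obtain rfl : b = .inr c := hTi (h.trans (hTr c).symm)
      rw [hRl]
      exact add_pos_of_nonneg_of_pos (hp0 s _) (hwc s c hc)
    rcases hb with hb | hb
    · exact key ⟨1, Λ.one_mem⟩ (Or.inl rfl) hb
    · exact key ⟨-1, Λ.neg_mem⟩ (Or.inr rfl) hb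
  · intro y hy
    obtain ⟨s, hs, h1, h2⟩ := hnet y hy
    refine ⟨.inl ⟨s, hs⟩, hlB _, ?_, ?_⟩
    · have h3 := hmv (.inl ⟨s, hs⟩)
      rw [hxl] at h3
      have e : T (.inl ⟨s, hs⟩) - T₀ y = (T (.inl ⟨s, hs⟩) - T₀ s) + (T₀ s - T₀ y) := by ring
      rw [e]
      refine (norm_add_le _ _).trans ?_
      change ‖T (.inl ⟨s, hs⟩) - T₀ s‖ ≤ _ at h3
      linarith only [hκβ, hϑ0, hϑκ, hδϑ, h1, h3]
    · show ‖F₀ (x (.inl ⟨s, hs⟩)) - F₀ y‖ ≤ β
      rw [hxl]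
      change ‖F₀ s - F₀ y‖ ≤ β
      linarith only [hκβ, hϑ0, hϑκ, hδϑ, h2]

end Pool.Agent.MP_17e62b_gt.H14

/-! Cutting straight cables at their crossings; local time; mass of the links. -/

namespace Pool.Agent.MP_17e62b_gt.H14

open Set
open scoped BigOperators

variable {V : Type}

/-- The direction of a cable. -/
def dir (T : V → ℂ) (e : V × V) : ℂ := T e.2 - T e.1

/-- The cut is adapted to the active cables `Act` drawn with positions `T`. -/
structure GoodCut (T : V → ℂ) (Act : V × V → Prop) (c : Cut V) : Prop where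
  act : ∀ e, c.N e ≠ 0 → Act e
  old : ∀ u a, c.ext T u = T a → u = .inl a
  node : ∀ e, Act e → ∀ j ≤ c.N e, ∀ u,
    c.ext T u ∈ segment ℝ (c.ext T (c.node e j)) (c.ext T (c.node e (j + 1))) →
      c.ext T u = c.ext T (c.node e j) ∨ c.ext T u = c.ext T (c.node e (j + 1))
  planar : ∀ e e', Act e → Act e' → ∀ j ≤ c.N e, ∀ j' ≤ c.N e',
    ∀ z ∈ segment ℝ (c.ext T (c.node e j)) (c.ext T (c.node e (j + 1))),
      z ∈ segment ℝ (c.ext T (c.node e' j')) (c.ext T (c.node e' (j' + 1))) →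
        (∃ u, c.ext T u = z) ∨
          (c.ext T (c.node e j) = c.ext T (c.node e' j') ∧
            c.ext T (c.node e (j + 1)) = c.ext T (c.node e' (j' + 1))) ∨
          (c.ext T (c.node e j) = c.ext T (c.node e' (j' + 1)) ∧
            c.ext T (c.node e (j + 1)) = c.ext T (c.node e' j'))
  par : ∀ (e e' : V × V) (j : Fin (c.N e)) (j' : Fin (c.N e')),
    c.ext T (.inr ⟨e, j⟩) = c.ext T (.inr ⟨e', j'⟩) → det2 (dir T e) (dir T e') = 0 →
      (e = e' ∧ (j : ℕ) = j') ∨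
        (c.ext T (c.node e j) = c.ext T (c.node e' (j' + 2)) ∧
          c.ext T (c.node e (j + 2)) = c.ext T (c.node e' j') ∧
          c.len e j = c.len e' (j' + 1) ∧ c.len e (j + 1) = c.len e' j')

/-- K1. Enumeration of finite subsets of `(0, 1)`. Hint: `Finset.orderEmbOfFin`. -/
theorem exists_cut (Θ : V × V → Finset ℝ) (hΘ : ∀ e, ∀ t ∈ Θ e, 0 < t ∧ t < 1) :
    ∃ c : Cut V, (∀ e, c.N e = (Θ e).card) ∧
      ∀ e t, t ∈ Θ e ↔ ∃ j, 1 ≤ j ∧ j ≤ c.N e ∧ c.τ e j = t := by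
  let τ : V × V → ℕ → ℝ := fun e j => if h0 : j = 0 then 0 else
    if h : j ≤ (Θ e).card then (Θ e).orderEmbOfFin rfl ⟨j - 1, by omega⟩ else 1
  have hτ : ∀ e j (h0 : 1 ≤ j) (h : j ≤ (Θ e).card),
      τ e j = (Θ e).orderEmbOfFin rfl ⟨j - 1, by omega⟩ := fun e j h0 h => by
    simp only [τ]
    rw [dif_neg (by omega), dif_pos h]
  have h0 : ∀ e, τ e 0 = 0 := fun e => by simp [τ]
  have h1 : ∀ e, τ e ((Θ e).card + 1) = 1 := fun e => by simp only [τ, Nat.add_eq_zero_iff, Finset.card_eq_zero, one_ne_zero, and_false, ↓ reduceDIte, add_le_iff_nonpos_right, nonpos_iff_eq_zero]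
  refine ⟨⟨fun e => (Θ e).card, τ, h0, h1, fun e j hj => ?_⟩, fun _ => rfl, fun e t => ?_⟩
  · rcases Nat.eq_zero_or_pos j with rfl | hj0
    · rw [h0]
      rcases Nat.eq_zero_or_pos (Θ e).card with h | h
      · rw [← h, h1]
        exact one_pos
      · rw [hτ e _ le_rfl h]
        exact (hΘ e _ (Finset.orderEmbOfFin_mem _ _ _)).1
    · rw [hτ e j hj0 hj]
      rcases hj.eq_or_lt with h | h
      · rw [show j + 1 = (Θ e).card + 1 by omega, h1]
        exact (hΘ e _ (Finset.orderEmbOfFin_mem _ _ _)).2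
      · rw [hτ e _ (by omega) h]
        exact ((Θ e).orderEmbOfFin rfl).strictMono (Fin.mk_lt_mk.2 (by omega))
  · constructor
    · intro ht
      have h : t ∈ Set.range ((Θ e).orderEmbOfFin rfl) := by
        rw [Finset.range_orderEmbOfFin]
        exact ht
      obtain ⟨i, rfl⟩ := h
      exact ⟨i + 1, by omega, i.2, hτ e _ (by omega) i.2⟩
    · rintro ⟨j, hj0, hj, rfl⟩
      change τ e j ∈ _
      rw [hτ e j hj0 hj]
      exact Finset.orderEmbOfFin_mem _ _ _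

theorem exists_goodCut_line (T : V → ℂ) (e : V × V) (t : ℝ) :
    AffineMap.lineMap (T e.1) (T e.2) t = T e.1 + t • dir T e := by
  rw [AffineMap.lineMap_apply, dir, vsub_eq_sub, vadd_eq_add, add_comm]

theorem exists_goodCut_seg {a b z : ℂ} {s s' : ℝ} (h : s ≤ s')
    (hz : z ∈ segment ℝ (AffineMap.lineMap a b s) (AffineMap.lineMap a b s')) :
    ∃ t, s ≤ t ∧ t ≤ s' ∧ AffineMap.lineMap a b t = z := by
  rw [← image_segment, segment_eq_Icc h] at hz
  obtain ⟨t, ht, rfl⟩ := hz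
  exact ⟨t, ht.1, ht.2, rfl⟩

theorem exists_goodCut_gap (c : Cut V) (e : V × V) {j : ℕ} (hj : j ≤ c.N e) {x : ℝ}
    (hx : ∃ i ≤ c.N e + 1, c.τ e i = x) : x ≤ c.τ e j ∨ c.τ e (j + 1) ≤ x := by
  obtain ⟨i, hi, rfl⟩ := hx
  rcases lt_trichotomy i j with h | rfl | h
  · exact Or.inl (c.τ_lt e h (by omega)).le
  · exact Or.inl le_rfl
  · rcases (Nat.succ_le_of_lt h).eq_or_lt with h | h
    · exact Or.inr (le_of_eq (by rw [← h]))
    · exact Or.inr (c.τ_lt e h hi).le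

theorem exists_goodCut_par {T : V → ℂ} {e e' : V × V} (hne : e'.1 ≠ e'.2)
    (h3 : ∀ d, d ≠ e.1 → d ≠ e.2 → det2 (dir T e) (T d - T e.1) ≠ 0)
    (hd : det2 (dir T e) (dir T e') = 0) {s s' : ℝ}
    (h : AffineMap.lineMap (T e.1) (T e.2) s = AffineMap.lineMap (T e'.1) (T e'.2) s') :
    e' = e ∨ e' = e.swap := by
  rw [exists_goodCut_line, exists_goodCut_line] at h
  have key : ∀ (d : V) (r : ℝ), T d = T e'.1 + r • dir T e' → d = e.1 ∨ d = e.2 := by
    intro d r hr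
    by_contra hc
    rw [not_or] at hc
    refine h3 d hc.1 hc.2 ?_
    have e1 : T d - T e.1 = s • dir T e + (r - s') • dir T e' := by
      rw [hr, sub_smul]
      linear_combination -h
    rw [e1]
    simp only [det2, Complex.add_re, Complex.add_im, Complex.smul_re, Complex.smul_im,
      smul_eq_mul] at hd ⊢
    linear_combination (r - s') * hd
  obtain ⟨a, b⟩ := e
  obtain ⟨a', b'⟩ := e'
  have h1 := key a' 0 (by simp)
  have h2 := key b' 1 (by simp [dir])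
  simp only [Prod.swap_prod_mk, Prod.mk.injEq] at *
  rcases h1 with rfl | rfl <;> rcases h2 with rfl | rfl <;> simp_all

theorem exists_goodCut_fin [Fintype V] (T : V → ℂ) (e : V × V) :
    {t : ℝ | ∃ e' : V × V, det2 (dir T e) (dir T e') ≠ 0 ∧
      AffineMap.lineMap (T e.1) (T e.2) t ∈ segment ℝ (T e'.1) (T e'.2)}.Finite := by
  refine (Set.finite_range fun e' : V × V =>
    det2 (T e'.1 - T e.1) (dir T e') / det2 (dir T e) (dir T e')).subset ?_
  rintro t ⟨e', hd, ht⟩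
  refine ⟨e', ?_⟩
  rw [segment_eq_image_lineMap] at ht
  obtain ⟨s, -, hs⟩ := ht
  rw [exists_goodCut_line, exists_goodCut_line] at hs
  have e1 : T e'.1 - T e.1 = t • dir T e - s • dir T e' := by linear_combination hs
  simp only
  rw [div_eq_iff hd, e1]
  simp only [det2, Complex.sub_re, Complex.sub_im, Complex.smul_re, Complex.smul_im, smul_eq_mul]
  ring

/-- K2. Hint: `Θ e` is the set of `t ∈ (0, 1)` such that `e` is active and
`lineMap (T e.1) (T e.2) t ∈ segment ℝ (T e'.1) (T e'.2)` for an active `e'` with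
`det2 (dir T e) (dir T e') ≠ 0` (at most one `t` for each `e'`). No `τ e i` lies strictly between
`τ e j` and `τ e (j + 1)`. Two active cables that are parallel and meet have `e' = e` or
`e' = e.swap` (by `h3`), and `t ∈ Θ e ↔ 1 - t ∈ Θ e.swap` if both are active. -/
theorem exists_goodCut [Fintype V] {T : V → ℂ} (hT : Function.Injective T) {Act : V × V → Prop}
    (hne : ∀ e, Act e → e.1 ≠ e.2)
    (h3 : ∀ e, Act e → ∀ d, d ≠ e.1 → d ≠ e.2 → det2 (dir T e) (T d - T e.1) ≠ 0) :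
    ∃ c : Cut V, GoodCut T Act c := by
  let L : V × V → ℝ → ℂ := fun e t => AffineMap.lineMap (T e.1) (T e.2) t
  let Q : V × V → Set ℝ := fun e => {t | (0 < t ∧ t < 1) ∧ Act e ∧ ∃ e', Act e' ∧
    det2 (dir T e) (dir T e') ≠ 0 ∧ L e t ∈ segment ℝ (T e'.1) (T e'.2)}
  have hQ : ∀ e, (Q e).Finite := fun e => (exists_goodCut_fin T e).subset
    fun t ⟨_, _, e', _, h⟩ => ⟨e', h⟩
  obtain ⟨c, hN, hc⟩ := exists_cut (fun e => (hQ e).toFinset)
    fun e t ht => ((hQ e).mem_toFinset.1 ht).1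
  simp only [Set.Finite.mem_toFinset] at hc
  have hin : ∀ (e : V × V) (j : Fin (c.N e)), c.τ e (j + 1) ∈ Q e := fun e j =>
    (hc e _).2 ⟨j + 1, by omega, j.2, rfl⟩
  have hL : ∀ e, Act e → Function.Injective (L e) := fun e he =>
    AffineMap.lineMap_injective ℝ (hT.ne (hne e he))
  have hsw : ∀ e t, L e.swap (1 - t) = L e t := fun e t => AffineMap.lineMap_apply_one_sub _ _ _
  have hA : ∀ e, Act e → ∀ t, 0 < t → t < 1 → ∀ a, L e t ≠ T a := by
    intro e he t h0 h1 a h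
    by_cases ha : a = e.1
    · exact h0.ne' (hL e he (h.trans (by simp [L, ha])))
    by_cases hb : a = e.2
    · exact h1.ne (hL e he (h.trans (by simp [L, hb])))
    refine h3 e he a ha hb ?_
    rw [← h]
    simp only [L]
    rw [exists_goodCut_line, add_sub_cancel_left]
    simp only [det2, Complex.smul_re, Complex.smul_im, smul_eq_mul]
    ring
  have hQs : ∀ e t, Act e.swap → t ∈ Q e → 1 - t ∈ Q e.swap := by
    rintro e t he ⟨⟨h0, h1⟩, -, e', he', hd, hs⟩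
    refine ⟨⟨by linarith, by linarith⟩, he, e', he', fun h => hd ?_, by rwa [hsw]⟩
    simp only [det2, dir, Prod.fst_swap, Prod.snd_swap, Complex.sub_re, Complex.sub_im] at h ⊢
    linear_combination -h
  let M : V × V → ℝ → Prop := fun e x => ∃ i ≤ c.N e + 1, c.τ e i = x
  have hM0 : ∀ e, M e 0 := fun e => ⟨0, by omega, c.zero e⟩
  have hM1 : ∀ e, M e 1 := fun e => ⟨_, le_rfl, c.one e⟩
  have hMQ : ∀ e x, x ∈ Q e → M e x := fun e x hx => by
    obtain ⟨j, -, hj, h⟩ := (hc e x).1 hx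
    exact ⟨j, by omega, h⟩
  have hMs : ∀ e x, Act e.swap → M e x → M e.swap (1 - x) := by
    rintro e x he ⟨i, hi, rfl⟩
    rcases Nat.eq_zero_or_pos i with rfl | h0
    · rw [c.zero, sub_zero]
      exact hM1 _
    rcases hi.eq_or_lt with rfl | h1
    · rw [c.one, sub_self]
      exact hM0 _
    exact hMQ _ _ (hQs e _ he ((hc e _).2 ⟨i, h0, by omega, rfl⟩))
  have hend : ∀ e s, 0 ≤ s → s ≤ 1 → (0 < s → s < 1 → s ∈ Q e) → M e s := by
    intro e s h0 h1 h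
    rcases h0.eq_or_lt with rfl | h0
    · exact hM0 e
    rcases h1.eq_or_lt with rfl | h1
    · exact hM1 e
    exact hMQ e s (h h0 h1)
  have hcr : ∀ e e', Act e → Act e' → det2 (dir T e) (dir T e') ≠ 0 → ∀ s s', 0 ≤ s' → s' ≤ 1 →
      L e s = L e' s' → 0 < s → s < 1 → s ∈ Q e := fun e e' he he' hd s s' h0 h1 h h2 h3 =>
    ⟨⟨h2, h3⟩, he, e', he', hd, by
      rw [h, segment_eq_image_lineMap]
      exact ⟨s', ⟨h0, h1⟩, rfl⟩⟩
  have hx : ∀ e {j : ℕ}, j ≤ c.N e + 1 → c.ext T (c.node e j) = L e (c.τ e j) :=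
    fun e j hj => c.ext_node T e hj
  have hlt : ∀ e {j : ℕ}, j ≤ c.N e → c.τ e j < c.τ e (j + 1) := fun e j hj => c.lt e j hj
  refine ⟨c, fun e he => (hin e ⟨0, by omega⟩).2.1, ?_, ?_, ?_, ?_⟩
  · rintro (b | ⟨e, j⟩) a h
    · exact congrArg _ (hT h)
    · exact absurd h (hA e (hin e j).2.1 _ (hin e j).1.1 (hin e j).1.2 a)
  · intro e he j hj u hu
    rw [hx e (by omega), hx e (by omega)] at hu ⊢
    obtain ⟨s, hs1, hs2, hs⟩ := exists_goodCut_seg (hlt e hj).le hu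
    have hM : M e s := by
      refine hend e s ((c.τ_mem e (by omega)).1.trans hs1)
        (hs2.trans (c.τ_mem e (by omega)).2) fun h0 h1 => ?_
      rcases u with a | ⟨e', j'⟩
      · exact absurd hs (hA e he s h0 h1 a)
      have h4 := hin e' j'
      have h5 : L e s = L e' (c.τ e' (j' + 1)) := hs
      by_cases hd : det2 (dir T e) (dir T e') = 0
      · rcases exists_goodCut_par (hne e' h4.2.1) (h3 e he) hd h5 with rfl | rfl
        · rw [hL _ he h5]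
          exact h4
        · rw [← hsw e s] at h5
          have h6 := hQs e.swap _ he h4
          rwa [← hL _ h4.2.1 h5, sub_sub_cancel] at h6
      · exact hcr e e' he h4.2.1 hd s _ h4.1.1.le h4.1.2.le h5 h0 h1
    rw [← hs]
    rcases exists_goodCut_gap c e hj hM with h | h
    · exact Or.inl (congrArg (L e) (le_antisymm h hs1))
    · exact Or.inr (congrArg (L e) (le_antisymm hs2 h))
  · intro e e' he he' j hj j' hj' z hz hz'
    rw [hx e (by omega), hx e (by omega)] at hz ⊢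
    rw [hx e' (by omega), hx e' (by omega)] at hz' ⊢
    obtain ⟨s, hs1, hs2, hs⟩ := exists_goodCut_seg (hlt e hj).le hz
    obtain ⟨s', hs1', hs2', hs'⟩ := exists_goodCut_seg (hlt e' hj').le hz'
    by_cases hM : M e s
    · obtain ⟨i, hi, rfl⟩ := hM
      exact Or.inl ⟨c.node e i, (hx e hi).trans hs⟩
    have m1 : M e (c.τ e j) := ⟨j, by omega, rfl⟩
    have m2 : M e (c.τ e (j + 1)) := ⟨j + 1, by omega, rfl⟩
    have m3 : M e' (c.τ e' j') := ⟨j', by omega, rfl⟩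
    have m4 : M e' (c.τ e' (j' + 1)) := ⟨j' + 1, by omega, rfl⟩
    have l1 : c.τ e j < s := hs1.lt_of_ne fun h => hM (h ▸ m1)
    have l2 : s < c.τ e (j + 1) := hs2.lt_of_ne fun h => hM (h ▸ m2)
    have h5 : L e s = L e' s' := hs.trans hs'.symm
    have hd : det2 (dir T e) (dir T e') = 0 := by
      by_contra hd
      exact hM (hend e s ((c.τ_mem e (by omega)).1.trans hs1)
        (hs2.trans (c.τ_mem e (by omega)).2) (hcr e e' he he' hd s s'
          ((c.τ_mem e' (by omega)).1.trans hs1') (hs2'.trans (c.τ_mem e' (by omega)).2) h5))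
    rcases exists_goodCut_par (hne e' he') (h3 e he) hd h5 with rfl | rfl
    · obtain rfl := hL _ he h5
      have g1 := (exists_goodCut_gap c e' hj m3).resolve_right (by linarith only [l2, hs1'])
      have g2 := (exists_goodCut_gap c e' hj m4).resolve_left (by linarith only [l1, hs2'])
      have g3 := (exists_goodCut_gap c e' hj' m1).resolve_right (by linarith only [l1, l2, g2])
      have g4 := (exists_goodCut_gap c e' hj' m2).resolve_left (by linarith only [l1, l2, g1])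
      exact Or.inr (Or.inl ⟨by rw [le_antisymm g3 g1], by rw [le_antisymm g2 g4]⟩)
    · rw [← hsw e s] at h5
      obtain rfl := hL _ he' h5
      have g1 := (exists_goodCut_gap c e hj (hMs e.swap _ he m3)).resolve_left (by linarith only [l1, hs1'])
      have g2 := (exists_goodCut_gap c e hj (hMs e.swap _ he m4)).resolve_right (by linarith only [l2, hs2'])
      have g3 := (exists_goodCut_gap c _ hj' (hMs _ _ he' m1)).resolve_left (by linarith only [l1, l2, g1])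
      have g4 := (exists_goodCut_gap c _ hj' (hMs _ _ he' m2)).resolve_right (by linarith only [l1, l2, g2])
      refine Or.inr (Or.inr ⟨?_, ?_⟩)
      · rw [← hsw e, show 1 - c.τ e j = c.τ e.swap (j' + 1) by linarith only [g2, g3]]
      · rw [← hsw e, show 1 - c.τ e (j + 1) = c.τ e.swap j' by linarith only [g1, g4]]
  · intro e e' j j' h hd
    have he := (hin e j).2.1
    have he' := (hin e' j').2.1
    have h5 : L e (c.τ e (j + 1)) = L e' (c.τ e' (j' + 1)) := h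
    have hj := j.2
    have hj' := j'.2
    rcases exists_goodCut_par (hne e' he') (h3 e he) hd h5 with rfl | rfl
    · refine Or.inl ⟨rfl, ?_⟩
      have h6 := hL _ he h5
      rcases lt_trichotomy (j : ℕ) j' with h7 | h7 | h7
      · exact absurd h6 (c.τ_lt e' (by omega) (by omega)).ne
      · exact h7
      · exact absurd h6 (c.τ_lt e' (by omega) (by omega)).ne'
    · rw [← hsw e] at h5
      have h6 := hL _ he' h5
      have l1 := hlt e hj.le
      have l2 : c.τ e (j + 1) < c.τ e (j + 2) := hlt e hj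
      have l3 := hlt e.swap hj'.le
      have l4 : c.τ e.swap (j' + 1) < c.τ e.swap (j' + 2) := hlt e.swap hj'
      have g1 : c.τ e.swap (j' + 2) ≤ 1 - c.τ e j :=
        (exists_goodCut_gap c e.swap hj' (hMs _ _ he' ⟨j, by omega, rfl⟩)).resolve_left
          (by linarith only [h6, l1])
      have g2 : 1 - c.τ e.swap (j' + 2) ≤ c.τ e j :=
        (exists_goodCut_gap c e hj.le (hMs e.swap _ he ⟨j' + 2, by omega, rfl⟩)).resolve_right
          (by linarith only [h6, l4])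
      have g3 : 1 - c.τ e (j + 2) ≤ c.τ e.swap j' :=
        (exists_goodCut_gap c e.swap hj'.le (hMs _ _ he' ⟨j + 2, by omega, rfl⟩)).resolve_right
          (by linarith only [h6, l2])
      have g4 : c.τ e (j + 2) ≤ 1 - c.τ e.swap j' :=
        (exists_goodCut_gap c e hj (hMs e.swap _ he ⟨j', by omega, rfl⟩)).resolve_left (by linarith only [h6, l3])
      refine Or.inr ⟨?_, ?_, ?_, ?_⟩
      · rw [hx e (by omega), hx e.swap (by omega), ← hsw e,
          show 1 - c.τ e j = c.τ e.swap (j' + 2) by linarith only [g1, g2]]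
      · rw [hx e (by omega), hx e.swap (by omega), ← hsw e,
          show 1 - c.τ e (j + 2) = c.τ e.swap j' by linarith only [g3, g4]]
      · change c.τ e (j + 1) - c.τ e j = c.τ e.swap (j' + 2) - c.τ e.swap (j' + 1)
        linarith only [h6, g1, g2]
      · change c.τ e (j + 2) - c.τ e (j + 1) = c.τ e.swap (j' + 1) - c.τ e.swap j'
        linarith only [h6, g3, g4]

open Classical in
/-- K3. Local time on a line. Hint: let `h z = det2 v (z - p)`, `u a = |h (T a)|`, `σ a` the sign of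
`h (T a)`. As `T` is harmonic, `gen q u a = ∑ b, q a b (u b - u a - σ a * det2 v (T b - T a))`; each
term is `≥ 0`, and `≥ 2 (1 - t) |det2 v (dir T e)|` if the cable meets the line at `t ∈ (0, 1)`.
The sum over `a` is bounded with `dual` (`G = 1` off `B`), tested on `u` and on `1`. -/
theorem local_time [Fintype V] {q : V → V → ℝ} {B : Set V} {μ : V → ℝ} {T : V → ℂ}
    (hq : ∀ a b, 0 ≤ q a b) (hstop : ∀ b ∈ B, ∀ a, q b a = 0) (hμ : ∀ a, a ∉ B → 0 ≤ μ a)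
    (hsrc : ∀ a, a ∉ B → μ a = ∑ b, q a b - ∑ b, q b a) (hT : ∀ a, a ∉ B → gen q T a = 0)
    {v p : ℂ} {D : ℝ} (hD : ∀ b ∈ B, |det2 v (T b - p)| ≤ D) (s : Finset (V × V))
    (t : V × V → ℝ) (ht : ∀ e ∈ s, 0 < t e ∧ t e < 1 ∧
      det2 v (AffineMap.lineMap (T e.1) (T e.2) (t e) - p) = 0) :
    ∑ e ∈ s, q e.1 e.2 * (1 - t e) * |det2 v (dir T e)| ≤
      D * ∑ a, if a ∈ B then 0 else μ a := by
  obtain ⟨h, hh⟩ : ∃ h : V → ℝ, ∀ a, h a = det2 v (T a - p) := ⟨_, fun _ => rfl⟩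
  obtain ⟨σ, hσ⟩ : ∃ σ : V → ℝ, ∀ a, σ a = if 0 ≤ h a then 1 else -1 := ⟨_, fun _ => rfl⟩
  have h1 : ∀ a, ∑ b, q a b * (h b - h a) = 0 := fun a => by
    by_cases ha : a ∈ B
    · simp only [hstop a ha, zero_mul, Finset.sum_const_zero]
    have h2 := hT a ha
    have h3 := congrArg Complex.re h2
    have h4 := congrArg Complex.im h2
    simp only [gen, Complex.re_sum, Complex.im_sum, Complex.smul_re, Complex.smul_im, smul_eq_mul,
      Complex.zero_re, Complex.zero_im] at h3 h4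
    have h5 : ∑ b, q a b * (h b - h a) = v.re * ∑ b, q a b * (T b - T a).im -
        v.im * ∑ b, q a b * (T b - T a).re := by
      rw [Finset.mul_sum, Finset.mul_sum, ← Finset.sum_sub_distrib]
      refine Finset.sum_congr rfl fun b _ => ?_
      simp only [hh, det2, Complex.sub_re, Complex.sub_im]
      ring
    rw [h5, h3, h4, mul_zero, mul_zero, sub_self]
  have h6 : ∀ a, σ a * h a = |h a| := fun a => by
    rw [hσ]
    split_ifs with h0
    · rw [one_mul, abs_of_nonneg h0]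
    · rw [neg_one_mul, abs_of_neg (not_le.1 h0)]
  have h7 : ∀ a b, σ a * h b ≤ |h b| := fun a b => by
    rw [hσ]
    split_ifs
    · rw [one_mul]
      exact le_abs_self _
    · rw [neg_one_mul]
      exact neg_le_abs _
  have h8 : ∀ e ∈ s, q e.1 e.2 * (1 - t e) * |det2 v (dir T e)| ≤
      q e.1 e.2 * (|h e.2| - σ e.1 * h e.2) := fun e he => by
    obtain ⟨t0, t1, t2⟩ := ht e he
    have e1 : (1 - t e) * h e.1 + t e * h e.2 = 0 := by
      rw [← t2, AffineMap.lineMap_apply_module]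
      simp only [hh, det2, Complex.sub_re, Complex.sub_im, Complex.add_re, Complex.add_im,
        Complex.smul_re, Complex.smul_im, smul_eq_mul]
      ring
    have e2 : det2 v (dir T e) = h e.2 - h e.1 := by
      simp only [hh, det2, dir, Complex.sub_re, Complex.sub_im]
      ring
    have e3 : (1 - t e) * |det2 v (dir T e)| = |h e.2| := by
      rw [← abs_of_pos (sub_pos.2 t1), ← abs_mul, e2]
      congr 1
      linear_combination -e1
    have e4 : σ e.1 * h e.2 ≤ 0 := by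
      rw [hσ]
      split_ifs with h0
      · rw [one_mul]
        by_contra h9
        have := mul_pos t0 (not_le.1 h9)
        have := mul_nonneg (sub_pos.2 t1).le h0
        linarith
      · rw [neg_one_mul, neg_nonpos]
        by_contra h9
        have := mul_pos t0 (neg_pos.2 (not_le.1 h9))
        have := mul_pos (sub_pos.2 t1) (neg_pos.2 (not_le.1 h0))
        linarith
    rw [mul_assoc, e3]
    exact mul_le_mul_of_nonneg_left (by linarith) (hq _ _)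
  have h9 : ∀ a, ∑ b, q a b * (|h b| - σ a * h b) =
      ∑ b, q a b * |h b| - |h a| * ∑ b, q a b := fun a => by
    have e1 : ∑ b, q a b * (|h b| - σ a * h b) = ∑ b, q a b * |h b| - |h a| * ∑ b, q a b -
        σ a * ∑ b, q a b * (h b - h a) := by
      rw [Finset.mul_sum, Finset.mul_sum, ← Finset.sum_sub_distrib, ← Finset.sum_sub_distrib]
      refine Finset.sum_congr rfl fun b _ => ?_
      rw [← h6 a]
      ring
    rw [e1, h1, mul_zero, sub_zero]
  have h10 : ∑ a, (∑ b, q b a - ∑ b, q a b) = 0 := by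
    rw [Finset.sum_sub_distrib, Finset.sum_comm, sub_self]
  calc _ ≤ ∑ e ∈ s, q e.1 e.2 * (|h e.2| - σ e.1 * h e.2) := Finset.sum_le_sum h8
    _ ≤ ∑ e : V × V, q e.1 e.2 * (|h e.2| - σ e.1 * h e.2) :=
      Finset.sum_le_sum_of_subset_of_nonneg (Finset.subset_univ _) fun e _ _ =>
        mul_nonneg (hq _ _) (sub_nonneg.2 (h7 _ _))
    _ = ∑ a, |h a| * (∑ b, q b a - ∑ b, q a b) := by
      rw [Fintype.sum_prod_type]
      simp only [h9]
      simp only [mul_sub, Finset.sum_sub_distrib]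
      rw [Finset.sum_comm]
      simp only [Finset.mul_sum, mul_comm]
    _ ≤ ∑ a, (D * (∑ b, q b a - ∑ b, q a b) + D * if a ∈ B then 0 else μ a) := by
      refine Finset.sum_le_sum fun a _ => ?_
      split_ifs with ha
      · have e1 : ∑ b, q a b = 0 := by simp only [hstop a ha, Finset.sum_const_zero]
        rw [e1, sub_zero, mul_zero, add_zero, hh]
        exact mul_le_mul_of_nonneg_right (hD a ha) (Finset.sum_nonneg fun b _ => hq b a)
      · have e1 : ∑ b, q b a - ∑ b, q a b = -μ a := by rw [hsrc a ha, neg_sub]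
        rw [e1, mul_neg, mul_neg, neg_add_cancel, neg_nonpos]
        exact mul_nonneg (abs_nonneg _) (hμ a ha)
    _ = _ := by
      rw [Finset.sum_add_distrib, ← Finset.mul_sum, ← Finset.mul_sum, h10, mul_zero, zero_add]

open Classical in
/-- The conductance of the link between two subdivision nodes at the same place. -/
noncomputable def link (c : Cut V) (q : V → V → ℝ) (T : V → ℂ) (lam : ℝ) : c.Nd → c.Nd → ℝ
  | .inr u, .inr u' => if c.ext T (.inr u) = c.ext T (.inr u') then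
      lam * (q u.1.1 u.1.2 * (1 - c.τ u.1 (u.2 + 1))) *
        (q u'.1.1 u'.1.2 * (1 - c.τ u'.1 (u'.2 + 1))) * |det2 (dir T u.1) (dir T u'.1)| else 0
  | _, _ => 0

theorem link_nonneg (c : Cut V) {q : V → V → ℝ} (hq : ∀ a b, 0 ≤ q a b) (T : V → ℂ) {lam : ℝ}
    (hl : 0 ≤ lam) (u u' : c.Nd) : 0 ≤ link c q T lam u u' := by
  rcases u with a | u
  · exact le_rfl
  rcases u' with a' | u'
  · exact le_rfl
  simp only [link]
  split_ifs
  · exact mul_nonneg (mul_nonneg (mul_nonneg hl (mul_nonneg (hq _ _)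
      (sub_nonneg.2 (c.τ_mem u.1 (by have := u.2.2; omega)).2))) (mul_nonneg (hq _ _)
      (sub_nonneg.2 (c.τ_mem u'.1 (by have := u'.2.2; omega)).2))) (abs_nonneg _)
  · exact le_rfl

theorem link_symm (c : Cut V) (q : V → V → ℝ) (T : V → ℂ) (lam : ℝ) (u u' : c.Nd) :
    link c q T lam u u' = link c q T lam u' u := by
  rcases u with a | u <;> rcases u' with a' | u'
  · rfl
  · rfl
  · rfl
  simp only [link]
  have h : |det2 (dir T u.1) (dir T u'.1)| = |det2 (dir T u'.1) (dir T u.1)| := by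
    rw [← abs_neg]
    congr 1
    simp only [det2]
    ring
  by_cases e : c.ext T (.inr u) = c.ext T (.inr u')
  · rw [if_pos e, if_pos e.symm, h]
    ring
  · rw [if_neg e, if_neg fun e' => e e'.symm]

theorem link_ne (c : Cut V) (q : V → V → ℝ) (T : V → ℂ) (lam : ℝ) {u u' : c.Nd}
    (h : link c q T lam u u' ≠ 0) : c.ext T u = c.ext T u' ∧ ∀ a, u ≠ .inl a := by
  rcases u with a | u
  · exact absurd rfl h
  rcases u' with a' | u'
  · exact absurd rfl h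
  refine ⟨?_, fun a => Sum.inr_ne_inl⟩
  by_contra e
  exact h (by simp only [link, if_neg e])

/-- K4. Interpolated values at the same place are close. Hint: both are convex combinations, and
`‖T x - T x'‖ ≤ ‖dir T e‖ + ‖dir T e'‖` for ends `x` of `e`, `x'` of `e'`. -/
theorem ext_close (c : Cut V) {T : V → ℂ} {F : V → ℝ} {L η : ℝ} (hL : 0 ≤ L) (hη : 0 ≤ η)
    (hF : ∀ a b, |F a - F b| ≤ L * ‖T a - T b‖ + η) {u u' : Σ e : V × V, Fin (c.N e)}
    (h : c.ext T (.inr u) = c.ext T (.inr u')) :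
    |c.ext F (.inr u) - c.ext F (.inr u')| ≤ (L * ‖dir T u.1‖ + η) + (L * ‖dir T u'.1‖ + η) := by
  have k1 : ∀ {A B C K x : ℝ}, x ∈ Icc (0 : ℝ) 1 → |A - C| ≤ K → |B - C| ≤ K →
      |AffineMap.lineMap A B x - C| ≤ K := fun {A B C K x} hx h1 h2 => by
    rw [AffineMap.lineMap_apply_module, smul_eq_mul, smul_eq_mul,
      show (1 - x) * A + x * B - C = (1 - x) * (A - C) + x * (B - C) by ring]
    refine (abs_add_le _ _).trans ?_
    rw [abs_mul, abs_mul, abs_of_nonneg hx.1, abs_of_nonneg (sub_nonneg.2 hx.2)]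
    have h3 := mul_le_mul_of_nonneg_left h1 (sub_nonneg.2 hx.2)
    have h4 := mul_le_mul_of_nonneg_left h2 hx.1
    linarith
  have k2 : ∀ w : Σ e : V × V, Fin (c.N e), c.τ w.1 (w.2 + 1) ∈ Icc (0 : ℝ) 1 := fun w =>
    c.τ_mem w.1 (by have := w.2.2; omega)
  have k3 : ∀ w : Σ e : V × V, Fin (c.N e), ‖T w.1.1 - c.ext T (.inr w)‖ ≤ ‖dir T w.1‖ ∧
      ‖T w.1.2 - c.ext T (.inr w)‖ ≤ ‖dir T w.1‖ := fun w => by
    obtain ⟨h1, h2⟩ := k2 w
    simp only [Cut.ext]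
    rw [← dist_eq_norm, ← dist_eq_norm, dist_left_lineMap, dist_right_lineMap, dist_comm,
      dist_eq_norm, Real.norm_of_nonneg h1, Real.norm_of_nonneg (sub_nonneg.2 h2)]
    exact ⟨mul_le_of_le_one_left (norm_nonneg _) h2,
      mul_le_of_le_one_left (norm_nonneg _) (sub_le_self _ h1)⟩
  have k4 : ∀ a b, ‖T a - c.ext T (.inr u)‖ ≤ ‖dir T u.1‖ →
      ‖T b - c.ext T (.inr u')‖ ≤ ‖dir T u'.1‖ →
      |F b - F a| ≤ (L * ‖dir T u.1‖ + η) + (L * ‖dir T u'.1‖ + η) := fun a b h1 h2 => by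
    have h3 : ‖T b - T a‖ ≤ ‖dir T u.1‖ + ‖dir T u'.1‖ := by
      rw [show T b - T a = (T b - c.ext T (.inr u')) - (T a - c.ext T (.inr u)) by rw [h]; ring]
      exact (norm_sub_le _ _).trans (by linarith)
    have h4 := mul_le_mul_of_nonneg_left h3 hL
    have h5 := hF b a
    linarith
  refine k1 (k2 u) ?_ ?_
  · rw [abs_sub_comm]
    exact k1 (k2 u') (k4 _ _ (k3 u).1 (k3 u').1) (k4 _ _ (k3 u).1 (k3 u').2)
  · rw [abs_sub_comm]
    exact k1 (k2 u') (k4 _ _ (k3 u).2 (k3 u').1) (k4 _ _ (k3 u).2 (k3 u').2)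

theorem link_mass_uniq {T : V → ℂ} {e e' : V × V} (hd : det2 (dir T e) (dir T e') ≠ 0)
    {x x' y y' : ℝ}
    (h : AffineMap.lineMap (T e.1) (T e.2) x = AffineMap.lineMap (T e'.1) (T e'.2) y)
    (h' : AffineMap.lineMap (T e.1) (T e.2) x' = AffineMap.lineMap (T e'.1) (T e'.2) y') :
    x = x' ∧ y = y' := by
  simp only [AffineMap.lineMap_apply_module, Complex.ext_iff, Complex.add_re, Complex.add_im,
    Complex.smul_re, Complex.smul_im, smul_eq_mul] at h h'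
  simp only [det2, dir, Complex.sub_re, Complex.sub_im] at hd
  constructor
  · refine mul_right_cancel₀ hd ?_
    linear_combination ((T e'.2).im - (T e'.1).im) * (h.1 - h'.1) -
      ((T e'.2).re - (T e'.1).re) * (h.2 - h'.2)
  · refine mul_right_cancel₀ hd ?_
    linear_combination ((T e.2).im - (T e.1).im) * (h.1 - h'.1) -
      ((T e.2).re - (T e.1).re) * (h.2 - h'.2)

theorem link_mass_inj (c : Cut V) (e : V × V) {i j : Fin (c.N e)}
    (h : c.τ e (i + 1) = c.τ e (j + 1)) : i = j := by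
  have hi := i.2
  have hj := j.2
  rcases lt_trichotomy (i : ℕ) j with h1 | h1 | h1
  · exact absurd h (c.τ_lt e (by omega) (by omega)).ne
  · exact Fin.ext h1
  · exact absurd h (c.τ_lt e (by omega) (by omega)).ne'

theorem link_mass_row [Fintype V] (c : Cut V) {q : V → V → ℝ} (hq : ∀ a b, 0 ≤ q a b) {T : V → ℂ}
    {lam M : ℝ} (hl : 0 ≤ lam) (e : V × V)
    (hloc : ∀ (s : Finset (V × V)) (t : V × V → ℝ), (∀ e' ∈ s, 0 < t e' ∧ t e' < 1 ∧
      det2 (dir T e) (AffineMap.lineMap (T e'.1) (T e'.2) (t e') - T e.1) = 0) →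
        ∑ e' ∈ s, q e'.1 e'.2 * (1 - t e') * |det2 (dir T e) (dir T e')| ≤ M) :
    ∑ j : Fin (c.N e), ∑ u' : Σ e : V × V, Fin (c.N e), link c q T lam (.inr ⟨e, j⟩) (.inr u') ≤
      lam * q e.1 e.2 * M := by
  classical
  have k : ∀ e' : V × V, ∃ t : ℝ, ((∃ p : Fin (c.N e) × Fin (c.N e'),
      c.ext T (.inr ⟨e, p.1⟩) = c.ext T (.inr ⟨e', p.2⟩)) → 0 < t ∧ t < 1 ∧
        det2 (dir T e) (AffineMap.lineMap (T e'.1) (T e'.2) t - T e.1) = 0) ∧
      ∑ p : Fin (c.N e) × Fin (c.N e'), link c q T lam (.inr ⟨e, p.1⟩) (.inr ⟨e', p.2⟩) ≤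
        if ∃ p : Fin (c.N e) × Fin (c.N e'), c.ext T (.inr ⟨e, p.1⟩) = c.ext T (.inr ⟨e', p.2⟩)
        then lam * q e.1 e.2 * (q e'.1 e'.2 * (1 - t) * |det2 (dir T e) (dir T e')|)
        else 0 := fun e' => by
    by_cases hp : ∃ p : Fin (c.N e) × Fin (c.N e'),
        c.ext T (.inr ⟨e, p.1⟩) = c.ext T (.inr ⟨e', p.2⟩)
    · obtain ⟨p, hp'⟩ := id hp
      have b1 := p.1.2
      have b2 := p.2.2
      refine ⟨c.τ e' (p.2 + 1), fun _ => ⟨?_, ?_, ?_⟩, ?_⟩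
      · exact (c.zero e').symm.trans_lt (c.τ_lt e' (by omega) (by omega))
      · exact (c.τ_lt e' (by omega) le_rfl).trans_eq (c.one e')
      · simp only [Cut.ext] at hp'
        rw [← hp', AffineMap.lineMap_apply_module]
        simp only [det2, dir, Complex.sub_re, Complex.sub_im, Complex.add_re, Complex.add_im,
          Complex.smul_re, Complex.smul_im, smul_eq_mul]
        ring
      rw [if_pos hp]
      by_cases hd : det2 (dir T e) (dir T e') = 0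
      · simp only [link, hd, abs_zero, mul_zero, ite_self, Finset.sum_const_zero, Std.le_refl]
      rw [Fintype.sum_eq_single p fun p' hne => ?_]
      · simp only [link, if_pos hp']
        have h1 := c.τ_mem e (j := p.1 + 1) (by omega)
        have h2 := c.τ_mem e' (j := p.2 + 1) (by omega)
        rw [mul_assoc, mul_assoc lam (q e.1 e.2), mul_assoc lam]
        refine mul_le_mul_of_nonneg_left (mul_le_mul_of_nonneg_right
          (mul_le_of_le_one_right (hq _ _) (sub_le_self _ h1.1))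
          (mul_nonneg (mul_nonneg (hq _ _) (sub_nonneg.2 h2.2)) (abs_nonneg _))) hl
      · simp only [link]
        refine if_neg fun h => hne ?_
        obtain ⟨h1, h2⟩ := link_mass_uniq hd h hp'
        exact Prod.ext (link_mass_inj c e h1) (link_mass_inj c e' h2)
    · refine ⟨0, fun h => absurd h hp, ?_⟩
      rw [if_neg hp]
      refine (Finset.sum_eq_zero fun p _ => ?_).le
      simp only [link]
      exact if_neg fun h => hp ⟨p, h⟩
  choose t ht hs using k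
  rw [Finset.sum_comm, Fintype.sum_sigma]
  refine (Finset.sum_le_sum fun e' _ => ?_).trans
    ((Finset.sum_le_sum (s := Finset.univ) fun e' _ => hs e').trans ?_)
  · rw [Fintype.sum_prod_type_right]
  · rw [← Finset.sum_filter, ← Finset.mul_sum]
    exact mul_le_mul_of_nonneg_left (hloc _ t fun e' he => ht e' (Finset.mem_filter.1 he).2)
      (mul_nonneg hl (hq _ _))

/-- K5. Hint: with `α e = L ‖dir T e‖ + η`, `ext_close` and symmetry bound the sum by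
`4 ∑ u, α u.1 ^ 2 * ∑ u', link u u'`. For fixed `e` and `e'` with non-zero determinant at most one
pair `(j, j')` has equal positions; so `∑ j, ∑ u', link ⟨e, j⟩ u' ≤ lam * q e * (m * ‖dir T e‖)`
by `hloc` applied to the set of those `e'`. -/
theorem link_mass [Fintype V] (c : Cut V) {q : V → V → ℝ} (hq : ∀ a b, 0 ≤ q a b) {T : V → ℂ}
    {F : V → ℝ} {L η lam m : ℝ} (hL : 0 ≤ L) (hη : 0 ≤ η) (hl : 0 ≤ lam)
    (hF : ∀ a b, |F a - F b| ≤ L * ‖T a - T b‖ + η)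
    (hloc : ∀ (e : V × V) (s : Finset (V × V)) (t : V × V → ℝ), (∀ e' ∈ s, 0 < t e' ∧ t e' < 1 ∧
      det2 (dir T e) (AffineMap.lineMap (T e'.1) (T e'.2) (t e') - T e.1) = 0) →
        ∑ e' ∈ s, q e'.1 e'.2 * (1 - t e') * |det2 (dir T e) (dir T e')| ≤ m * ‖dir T e‖) :
    ∑ u, ∑ u', link c q T lam u u' * (c.ext F u - c.ext F u') ^ 2 ≤
      4 * lam * m * ∑ a, ∑ b, q a b * (‖T b - T a‖ * (L * ‖T b - T a‖ + η) ^ 2) := by
  obtain ⟨α, hα⟩ : ∃ α : V × V → ℝ, ∀ e, α e = L * ‖dir T e‖ + η := ⟨_, fun _ => rfl⟩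
  have h1 : ∀ u u' : Σ e : V × V, Fin (c.N e),
      link c q T lam (.inr u) (.inr u') * (c.ext F (.inr u) - c.ext F (.inr u')) ^ 2 ≤
        2 * (α u.1 ^ 2 * link c q T lam (.inr u) (.inr u')) +
          2 * (α u'.1 ^ 2 * link c q T lam (.inr u') (.inr u)) := fun u u' => by
    rw [link_symm c q T lam (.inr u') (.inr u)]
    by_cases h0 : link c q T lam (.inr u) (.inr u') = 0
    · simp [h0]
    have h2 := ext_close c hL hη hF (link_ne c q T lam h0).1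
    rw [← hα, ← hα] at h2
    have h3 : (c.ext F (.inr u) - c.ext F (.inr u')) ^ 2 ≤ 2 * α u.1 ^ 2 + 2 * α u'.1 ^ 2 := by
      have h4 := pow_le_pow_left₀ (abs_nonneg _) h2 2
      rw [sq_abs] at h4
      have h5 := sq_nonneg (α u.1 - α u'.1)
      linarith
    have h6 := mul_le_mul_of_nonneg_left h3 (link_nonneg c hq T hl (.inr u) (.inr u'))
    linarith
  have h7 : ∑ u : Σ e : V × V, Fin (c.N e), ∑ u' : Σ e : V × V, Fin (c.N e),
      α u.1 ^ 2 * link c q T lam (.inr u) (.inr u') ≤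
        lam * m * ∑ a, ∑ b, q a b * (‖T b - T a‖ * (L * ‖T b - T a‖ + η) ^ 2) := by
    rw [← Fintype.sum_prod_type' fun a b => q a b * (‖T b - T a‖ * (L * ‖T b - T a‖ + η) ^ 2),
      Finset.mul_sum, Fintype.sum_sigma]
    refine Finset.sum_le_sum fun e _ => ?_
    simp only [← Finset.mul_sum]
    refine (mul_le_mul_of_nonneg_left (link_mass_row c hq hl e (hloc e)) (sq_nonneg _)).trans_eq ?_
    rw [hα, dir]
    ring
  have h8 : ∑ u, ∑ u', link c q T lam u u' * (c.ext F u - c.ext F u') ^ 2 =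
      ∑ u : Σ e : V × V, Fin (c.N e), ∑ u' : Σ e : V × V, Fin (c.N e),
        link c q T lam (.inr u) (.inr u') * (c.ext F (.inr u) - c.ext F (.inr u')) ^ 2 := by
    simp only [Fintype.sum_sum_type]
    simp only [link, zero_mul, Finset.sum_const_zero, zero_add]
  rw [h8]
  refine (Finset.sum_le_sum fun u _ => Finset.sum_le_sum fun u' _ => h1 u u').trans ?_
  simp only [Finset.sum_add_distrib, ← Finset.mul_sum _ _ (2 : ℝ)]
  rw [Finset.sum_comm (f := fun u u' : Σ e : V × V, Fin (c.N e) =>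
    α u'.1 ^ 2 * link c q T lam (.inr u') (.inr u))]
  linarith only [h7]

end Pool.Agent.MP_17e62b_gt.H14

/-! Straight planar networks in the polygon. -/

namespace Pool.Agent.MP_17e62b_gt.H14

open Set Filter Topology Metric
open scoped BigOperators InnerProductSpace

/-- A planar network with straight edges whose position is harmonic off the vertices. -/
structure PNet (Λ : Lens) (Nd : Finset ℂ) (r : Nd → Nd → ℝ) : Prop where
  nonneg : ∀ p q, 0 ≤ r p q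
  mem : ∀ p ∈ Nd, p ∈ Λ.P
  abs : Abs r {p | (p : ℂ) ∈ Λ.Vt}
  harm : ∀ p : Nd, (p : ℂ) ∉ Λ.Vt → gen r (fun q => (q : ℂ)) p = 0
  vert : ∀ p p', 0 < r p p' → (p : ℂ).re ≠ (p' : ℂ).re
  node : ∀ p p', 0 < r p p' → ∀ q : Nd, (q : ℂ) ∈ segment ℝ (p : ℂ) p' → q = p ∨ q = p'
  planar : ∀ p p' q q', 0 < r p p' → 0 < r q q' → ∀ z ∈ segment ℝ (p : ℂ) p',
    z ∈ segment ℝ (q : ℂ) q' → z ∈ Nd ∨ (p = q ∧ p' = q') ∨ (p = q' ∧ p' = q)

/-- The union of the edges. -/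
def Eg {Nd : Finset ℂ} (r : Nd → Nd → ℝ) : Set ℂ :=
  {z | ∃ p p', 0 < r p p' ∧ z ∈ segment ℝ (p : ℂ) p'}

/-- `G` extends `g` and is affine on the edges. -/
def IsExt {E : Type} [AddCommGroup E] [Module ℝ E] {Nd : Finset ℂ} (r : Nd → Nd → ℝ) (g : Nd → E)
    (G : ℂ → E) : Prop :=
  (∀ p : Nd, G p = g p) ∧ ∀ p p', 0 < r p p' → ∀ t ∈ Icc (0 : ℝ) 1,
    G (AffineMap.lineMap (p : ℂ) (p' : ℂ) t) = AffineMap.lineMap (g p) (g p') t

variable {Λ : Lens} {Nd : Finset ℂ} {r : Nd → Nd → ℝ}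

theorem PNet.eg_sub (h : PNet Λ Nd r) : Eg r ⊆ Λ.P := by
  rintro z ⟨p, p', -, hz⟩
  exact (Λ.convex_reg 0).segment_subset (h.mem _ p.2) (h.mem _ p'.2) hz

/-- P1. Hint: `G z = g z` on nodes; otherwise choose an edge through `z` and a parameter. -/
theorem PNet.exists_ext {E : Type} [AddCommGroup E] [Module ℝ E] (h : PNet Λ Nd r) (g : Nd → E) :
    ∃ G : ℂ → E, IsExt r g G := by
  classical
  let Q : ℂ → Nd × Nd × ℝ → Prop := fun z x => 0 < r x.1 x.2.1 ∧ x.2.2 ∈ Icc (0 : ℝ) 1 ∧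
    AffineMap.lineMap (x.1 : ℂ) (x.2.1 : ℂ) x.2.2 = z
  refine ⟨fun z => if hz : z ∈ Nd then g ⟨z, hz⟩ else if hq : ∃ x, Q z x then
    AffineMap.lineMap (g hq.choose.1) (g hq.choose.2.1) hq.choose.2.2 else 0, fun p => ?_, ?_⟩
  · simp only [dif_pos p.2]
  intro p p' hpp t ht
  have hne : (p : ℂ) ≠ p' := fun e => h.vert p p' hpp (by rw [e])
  have hinj := AffineMap.lineMap_injective ℝ hne
  have hseg : AffineMap.lineMap (p : ℂ) (p' : ℂ) t ∈ segment ℝ (p : ℂ) p' := by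
    rw [segment_eq_image_lineMap]; exact ⟨t, ht, rfl⟩
  by_cases hz : AffineMap.lineMap (p : ℂ) (p' : ℂ) t ∈ Nd
  · simp only [dif_pos hz]
    rcases h.node p p' hpp ⟨_, hz⟩ hseg with e | e
    · have e' : AffineMap.lineMap (p : ℂ) (p' : ℂ) t =
          AffineMap.lineMap (p : ℂ) (p' : ℂ) (0 : ℝ) := by
        rw [AffineMap.lineMap_apply_zero]; exact congrArg Subtype.val e
      rw [e, hinj e', AffineMap.lineMap_apply_zero]
    · have e' : AffineMap.lineMap (p : ℂ) (p' : ℂ) t =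
          AffineMap.lineMap (p : ℂ) (p' : ℂ) (1 : ℝ) := by
        rw [AffineMap.lineMap_apply_one]; exact congrArg Subtype.val e
      rw [e, hinj e', AffineMap.lineMap_apply_one]
  · have hq : ∃ x, Q (AffineMap.lineMap (p : ℂ) (p' : ℂ) t) x := ⟨(p, p', t), hpp, ht, rfl⟩
    simp only [dif_neg hz, dif_pos hq]
    obtain ⟨h1, h2, h3⟩ := hq.choose_spec
    generalize hq.choose = x at h1 h2 h3 ⊢
    obtain ⟨q, q', s⟩ := x
    simp only at h1 h2 h3 ⊢
    have hseg' : AffineMap.lineMap (p : ℂ) (p' : ℂ) t ∈ segment ℝ (q : ℂ) q' := by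
      rw [segment_eq_image_lineMap]; exact ⟨s, h2, h3⟩
    rcases h.planar p p' q q' hpp h1 _ hseg hseg' with e | ⟨e1, e2⟩ | ⟨e1, e2⟩
    · exact absurd e hz
    · subst e1 e2
      rw [hinj h3]
    · subst e1 e2
      rw [← AffineMap.lineMap_apply_one_sub] at h3
      rw [← hinj h3, AffineMap.lineMap_apply_one_sub]

/-- P2. Ascending paths along the edges, from a node. Hint: `asc`; on an edge an affine function
is at least the smaller end value. -/
theorem PNet.up_node (h : PNet Λ Nd r) {u : Nd → ℝ} {U : ℂ → ℝ} (hU : IsExt r u U)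
    (hu : ∀ p : Nd, (p : ℂ) ∉ Λ.Vt → gen r u p = 0) (p : Nd) :
    ∃ b : Nd, (b : ℂ) ∈ Λ.Vt ∧ JoinedIn {z | z ∈ Eg r ∪ Nd ∧ u p ≤ U z} p b := by
  obtain ⟨b, hb, -, hc⟩ := asc h.nonneg h.abs (u := u) (fun a ha => (hu a ha).ge) p
  refine ⟨b, hb, ?_⟩
  clear hb
  induction hc with
  | refl => exact JoinedIn.refl ⟨Or.inr p.2, (hU.1 p).ge⟩
  | @tail x y _ hxy ih =>
    refine ih.trans (JoinedIn.of_segment_subset fun z hz => ⟨Or.inl ⟨x, y, hxy.2.1, hz⟩, ?_⟩)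
    rw [segment_eq_image_lineMap] at hz
    obtain ⟨t, ht, rfl⟩ := hz
    rw [hU.2 x y hxy.2.1 t ht, AffineMap.lineMap_apply_module]
    simp only [smul_eq_mul]
    linarith only [mul_nonneg ht.1 (sub_nonneg.2 hxy.2.2.2), mul_nonneg (sub_nonneg.2 ht.2) (sub_nonneg.2 hxy.2.2.1)]

/-- P3. Hint: `z ↦ l (z, G z)` extends a harmonic function (`gen_map`, `h.harm`); from a point of
an edge walk to the better end, then `up_node`. -/
theorem PNet.hp {E : Type} [NormedAddCommGroup E] [NormedSpace ℝ E] (h : PNet Λ Nd r) {g : Nd → E}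
    {G : ℂ → E} (hG : IsExt r g G) (hg : ∀ p : Nd, (p : ℂ) ∉ Λ.Vt → gen r g p = 0) :
    HP (Eg r ∪ Nd) {b | b ∈ Λ.Vt ∧ b ∈ Nd} (fun z => (z, G z)) 0 := by
  intro x hx l _
  have hU : IsExt r (fun q : Nd => l ((q : ℂ), g q)) fun z => l (z, G z) := by
    refine ⟨fun p => by simp only [hG.1 p], fun p p' hpp t ht => ?_⟩
    simp only [hG.2 p p' hpp t ht]
    simp only [AffineMap.lineMap_apply_module, ← map_smul, ← map_add, Prod.smul_mk,
      Prod.mk_add_mk]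
  have hu : ∀ p : Nd, (p : ℂ) ∉ Λ.Vt → gen r (fun q : Nd => l ((q : ℂ), g q)) p = 0 := by
    intro p hp
    have e := gen_map r (fun q : Nd => ((q : ℂ), g q)) (l : ℂ × E →ₗ[ℝ] ℝ) p
    have e1 := gen_map r (fun q : Nd => ((q : ℂ), g q)) (LinearMap.fst ℝ ℂ E) p
    have e2 := gen_map r (fun q : Nd => ((q : ℂ), g q)) (LinearMap.snd ℝ ℂ E) p
    have e0 : gen r (fun q : Nd => ((q : ℂ), g q)) p = 0 :=
      Prod.ext (e1.symm.trans (h.harm p hp)) (e2.symm.trans (hg p hp))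
    rw [e0, map_zero] at e
    exact e
  have key : ∀ p : Nd, l (x, G x) ≤ l ((p : ℂ), g p) →
      JoinedIn {y | y ∈ Eg r ∪ Nd ∧ l (x, G x) - 0 ≤ l (y, G y)} x p →
      ∃ b ∈ {b | b ∈ Λ.Vt ∧ b ∈ Nd},
        JoinedIn {y | y ∈ Eg r ∪ Nd ∧ l (x, G x) - 0 ≤ l (y, G y)} x b := by
    intro p hp hj
    obtain ⟨b, hb, hj'⟩ := h.up_node hU hu p
    refine ⟨b, ⟨hb, b.2⟩, hj.trans (hj'.mono fun y hy => ⟨hy.1, ?_⟩)⟩
    have := hy.2
    linarith
  rcases hx with ⟨p, p', hpp, hz⟩ | hx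
  · rw [segment_eq_image_lineMap] at hz
    obtain ⟨t, ht, rfl⟩ := hz
    have hv : ∀ s ∈ Icc (0 : ℝ) 1, l (AffineMap.lineMap (p : ℂ) (p' : ℂ) s,
        G (AffineMap.lineMap (p : ℂ) (p' : ℂ) s)) =
        (1 - s) * l ((p : ℂ), g p) + s * l ((p' : ℂ), g p') := by
      intro s hs
      have := hU.2 p p' hpp s hs
      simp only at this
      rw [this, AffineMap.lineMap_apply_module]
      simp only [smul_eq_mul]
    have hE : ∀ s ∈ Icc (0 : ℝ) 1, AffineMap.lineMap (p : ℂ) (p' : ℂ) s ∈ Eg r ∪ Nd := by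
      intro s hs
      refine Or.inl ⟨p, p', hpp, ?_⟩
      rw [segment_eq_image_lineMap]; exact ⟨s, hs, rfl⟩
    obtain ⟨t0, t1⟩ := ht
    rcases le_total (l ((p : ℂ), g p)) (l ((p' : ℂ), g p')) with hle | hle
    · refine key p' (by rw [hv t ⟨t0, t1⟩]; nlinarith only [t1, hle]) (JoinedIn.of_segment_subset fun z hz => ?_)
      rw [segment_eq_image_lineMap] at hz
      obtain ⟨s, ⟨s0, s1⟩, rfl⟩ := hz
      have hs : t + s * (1 - t) ∈ Icc (0 : ℝ) 1 := ⟨by nlinarith only [t0, s0, s1], by nlinarith only [t1, s1]⟩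
      have e : AffineMap.lineMap (AffineMap.lineMap (p : ℂ) (p' : ℂ) t) (p' : ℂ) s =
          AffineMap.lineMap (p : ℂ) (p' : ℂ) (t + s * (1 - t)) := by
        simp only [AffineMap.lineMap_apply_module]
        module
      rw [e]
      refine ⟨hE _ hs, ?_⟩
      rw [hv _ hs, hv t ⟨t0, t1⟩]
      linarith only [mul_nonneg (mul_nonneg s0 (sub_nonneg.2 t1)) (sub_nonneg.2 hle)]
    · refine key p (by rw [hv t ⟨t0, t1⟩]; nlinarith only [t0, hle]) (JoinedIn.of_segment_subset fun z hz => ?_)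
      rw [segment_eq_image_lineMap] at hz
      obtain ⟨s, ⟨s0, s1⟩, rfl⟩ := hz
      have hs : t * (1 - s) ∈ Icc (0 : ℝ) 1 := ⟨by nlinarith only [t0, s1], by nlinarith only [t0, t1, s0]⟩
      have e : AffineMap.lineMap (AffineMap.lineMap (p : ℂ) (p' : ℂ) t) (p : ℂ) s =
          AffineMap.lineMap (p : ℂ) (p' : ℂ) (t * (1 - s)) := by
        simp only [AffineMap.lineMap_apply_module]
        module
      rw [e]
      refine ⟨hE _ hs, ?_⟩
      rw [hv _ hs, hv t ⟨t0, t1⟩]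
      linarith only [mul_nonneg (mul_nonneg s0 t0) (sub_nonneg.2 hle)]
  · refine key ⟨x, hx⟩ (by rw [← hG.1 ⟨x, hx⟩]) (JoinedIn.refl ⟨Or.inr hx, by simp⟩)

/-- P4. `rado` with `δ = 0`. -/
theorem PNet.lip {E : Type} [NormedAddCommGroup E] [NormedSpace ℝ E] (h : PNet Λ Nd r)
    {g : Nd → E} {G : ℂ → E} (hG : IsExt r g G)
    (hg : ∀ p : Nd, (p : ℂ) ∉ Λ.Vt → gen r g p = 0) {L₀ : ℝ} (hL : 0 ≤ L₀)
    (hb : ∀ a b : Nd, (a : ℂ) ∈ Λ.Vt → (b : ℂ) ∈ Λ.Vt → ‖g a - g b‖ ≤ L₀ * ‖(a : ℂ) - b‖)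
    {z z' : ℂ} (hz : z ∈ Eg r ∪ Nd) (hz' : z' ∈ Eg r ∪ Nd) :
    ‖G z - G z'‖ ≤ (L₀ / Λ.c₀ + 1) * ‖z - z'‖ := by
  have hX : Eg r ∪ Nd ⊆ Λ.P := union_subset h.eg_sub fun p hp => h.mem p hp
  have := rado (D := Λ.P) (X := Eg r ∪ Nd) (Vt := {b | b ∈ Λ.Vt ∧ b ∈ Nd}) (δ := 0) (M := 2)
    Λ.c_pos hL hX (fun b hb => Λ.expo b hb.1) (T := fun z => z) (F := G) (fun _ _ => rfl)
    (fun y hy => Λ.norm_le (s := 0) (by norm_num) (hX hy))
    (fun a ha b hb' => by
      have := hb ⟨a, ha.2⟩ ⟨b, hb'.2⟩ ha.1 hb'.1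
      rwa [← hG.1 ⟨a, ha.2⟩, ← hG.1 ⟨b, hb'.2⟩] at this)
    (h.hp hG hg) hz hz'
  simpa only [ge_iff_le, mul_zero, zero_mul, add_zero] using this

/-- Two straight lines of edges cross at `p`; `g` is convex along the first and concave along the
second. The slopes are `a < a'` and `b' > b`. -/
def Xing (r : Nd → Nd → ℝ) (g : Nd → ℝ) (p : Nd) (v w : ℂ) (a a' b b' : ℝ) : Prop :=
  det2 v w ≠ 0 ∧ ∃ (p₁ p₂ p₃ p₄ : Nd) (α₁ α₂ α₃ α₄ : ℝ), 0 < α₁ ∧ 0 < α₂ ∧ 0 < α₃ ∧ 0 < α₄ ∧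
    0 < r p p₁ ∧ 0 < r p p₂ ∧ 0 < r p p₃ ∧ 0 < r p p₄ ∧
    (p₁ : ℂ) = p + α₁ • v ∧ (p₃ : ℂ) = p - α₃ • v ∧ (p₂ : ℂ) = p + α₂ • w ∧
    (p₄ : ℂ) = p - α₄ • w ∧ g p₁ - g p = α₁ * a' ∧ g p - g p₃ = α₃ * a ∧
    g p₂ - g p = α₂ * b ∧ g p - g p₄ = α₄ * b'

/-- Values of the extension on an edge. -/
theorem Xing.edge_val {g : Nd → ℝ} {G : ℂ → ℝ} (hG : IsExt r g G) {p q : Nd} (hr : 0 < r p q)
    {α c s : ℝ} {v : ℂ} (hα : 0 < α) (hq : (q : ℂ) = p + α • v) (hc : g q - g p = α * c)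
    (h0 : 0 ≤ s) (h1 : s ≤ α) : (p : ℂ) + s • v ∈ Eg r ∧ G (p + s • v) = g p + s * c := by
  have ht : s / α ∈ Icc (0 : ℝ) 1 := ⟨div_nonneg h0 hα.le, (div_le_one hα).2 h1⟩
  have he : AffineMap.lineMap (p : ℂ) (q : ℂ) (s / α) = (p : ℂ) + s • v := by
    rw [AffineMap.lineMap_apply, hq]
    simp only [vsub_eq_sub, vadd_eq_add, add_sub_cancel_left, smul_smul]
    rw [div_mul_cancel₀ _ hα.ne', add_comm]
  refine ⟨⟨p, q, hr, ?_⟩, ?_⟩
  · rw [← he]
    exact lineMap_mem_segment ℝ _ _ ht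
  · rw [← he, hG.2 p q hr _ ht, AffineMap.lineMap_apply]
    simp only [vsub_eq_sub, vadd_eq_add, smul_eq_mul, hc]
    field_simp
    ring

/-- Subtracting a linear function. -/
theorem Xing.ext_sub {g : Nd → ℝ} {G : ℂ → ℝ} (hG : IsExt r g G) (ξ : ℂ) :
    IsExt r (fun q : Nd => g q - ⟪ξ, (q : ℂ)⟫_ℝ) (fun z => G z - ⟪ξ, z⟫_ℝ) := by
  refine ⟨fun q => by simp only [hG.1 q], fun q q' hr t ht => ?_⟩
  simp only [hG.2 q q' hr t ht]
  simp only [AffineMap.lineMap_apply, vsub_eq_sub, vadd_eq_add, smul_eq_mul, inner_add_right,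
    inner_sub_right, real_inner_smul_right]
  ring

theorem Xing.ext_neg {g : Nd → ℝ} {G : ℂ → ℝ} (hG : IsExt r g G) :
    IsExt r (fun q : Nd => -g q) (fun z => -G z) := by
  refine ⟨fun q => by simp only [hG.1 q], fun q q' hr t ht => ?_⟩
  simp only [hG.2 q q' hr t ht]
  simp only [AffineMap.lineMap_apply, vsub_eq_sub, vadd_eq_add, smul_eq_mul]
  ring

/-- Every vector is a combination of two independent ones. -/
theorem Xing.span {v w : ℂ} (hd : det2 v w ≠ 0) (ξ : ℂ) : ∃ s t : ℝ, ξ = s • v - t • w := by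
  refine ⟨det2 ξ w / det2 v w, det2 ξ v / det2 v w, ?_⟩
  apply Complex.ext
  · simp only [Complex.sub_re, Complex.smul_re, smul_eq_mul]
    field_simp
    simp only [det2]
    ring
  · simp only [Complex.sub_im, Complex.smul_im, smul_eq_mul]
    field_simp
    simp only [det2]
    ring

/-- On a short piece of a line through `p` the function is at least its value at `p`. -/
theorem Xing.line_ge {u : Nd → ℝ} {U : ℂ → ℝ} (hU : IsExt r u U) {p q q' : Nd} (hr : 0 < r p q)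
    (hr' : 0 < r p q') {α α' c c' s : ℝ} {v : ℂ} (hα : 0 < α) (hα' : 0 < α')
    (hq : (q : ℂ) = p + α • v) (hq' : (q' : ℂ) = p - α' • v) (hc : u q - u p = α * c)
    (hc' : u q' - u p = α' * c') (h0 : 0 ≤ c) (h0' : 0 ≤ c') (h1 : |s| ≤ α) (h1' : |s| ≤ α') :
    (p : ℂ) + s • v ∈ Eg r ∧ u p ≤ U (p + s • v) := by
  rcases le_total 0 s with hs | hs
  · rw [abs_of_nonneg hs] at h1
    obtain ⟨a1, a2⟩ := Xing.edge_val hU hr hα hq hc hs h1
    exact ⟨a1, by rw [a2]; linarith only [mul_nonneg hs h0]⟩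
  · rw [abs_of_nonpos hs] at h1'
    have hq2 : (q' : ℂ) = p + α' • (-v) := by rw [hq', smul_neg, sub_eq_add_neg]
    obtain ⟨a1, a2⟩ := Xing.edge_val hU hr' hα' hq2 hc' (neg_nonneg.2 hs) h1'
    rw [smul_neg, neg_smul, neg_neg] at a1 a2
    exact ⟨a1, by rw [a2]; linarith only [mul_nonneg (neg_nonneg.2 hs) h0']⟩

/-- P5. Hint: `U z = G z - ⟪ξ, z⟫` rises along `± v` and falls along `± w`. Write a small multiple
of `ξ` as `s • v + t • w`; then `U (p + s • v) > U (p - t • w)` unless `ξ = 0`. -/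
theorem Xing.norm_le {g : Nd → ℝ} {G : ℂ → ℝ} (hG : IsExt r g G) {C : ℝ} (hC0 : 0 ≤ C)
    (hC : ∀ z ∈ Eg r, ∀ z' ∈ Eg r, |G z - G z'| ≤ C * ‖z - z'‖) {p : Nd} {v w : ℂ}
    {a a' b b' : ℝ} (hx : Xing r g p v w a a' b b') {ξ : ℂ} (hξ : ξ ∈ Par v w a a' b b') :
    ‖ξ‖ ≤ C := by
  obtain ⟨hd, p₁, p₂, p₃, p₄, α₁, α₂, α₃, α₄, h1, h2, h3, h4, r1, r2, r3, r4, e1, e3, e2, e4,
    g1, g3, g2, g4⟩ := hx
  obtain ⟨x1, x2, x3, x4⟩ := hξ
  obtain ⟨s, t, hst⟩ := Xing.span hd ξ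
  have hU := Xing.ext_sub hG ξ
  obtain ⟨m, hm, m1, m2, m3, m4⟩ : ∃ m : ℝ, 0 < m ∧ m ≤ α₁ ∧ m ≤ α₂ ∧ m ≤ α₃ ∧ m ≤ α₄ :=
    ⟨min (min α₁ α₂) (min α₃ α₄), by positivity, (min_le_left _ _).trans (min_le_left _ _),
      (min_le_left _ _).trans (min_le_right _ _), (min_le_right _ _).trans (min_le_left _ _),
      (min_le_right _ _).trans (min_le_right _ _)⟩
  have hK : 0 < |s| + |t| + 1 := by positivity
  obtain ⟨ε, hε, hs, ht⟩ : ∃ ε : ℝ, 0 < ε ∧ |ε * s| ≤ m ∧ |ε * t| ≤ m := by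
    refine ⟨m / (|s| + |t| + 1), by positivity, ?_, ?_⟩
    · rw [abs_mul, abs_of_pos (by positivity), div_mul_eq_mul_div, div_le_iff₀ hK]
      nlinarith only [abs_nonneg t, hm]
    · rw [abs_mul, abs_of_pos (by positivity), div_mul_eq_mul_div, div_le_iff₀ hK]
      nlinarith only [abs_nonneg s, hm]
  obtain ⟨a1, a2⟩ := Xing.line_ge hU r1 r3 (c := a' - ⟪ξ, v⟫_ℝ) (c' := ⟪ξ, v⟫_ℝ - a) h1 h3 e1 e3
    (by simp only [e1, inner_add_right, real_inner_smul_right]; linarith only [g1])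
    (by simp only [e3, inner_sub_right, real_inner_smul_right]; linarith only [g3])
    (by linarith only [x2]) (by linarith only [x1]) (hs.trans m1) (hs.trans m3)
  obtain ⟨b1, b2⟩ := Xing.line_ge (Xing.ext_neg hU) r2 r4 (c := ⟪ξ, w⟫_ℝ - b)
    (c' := b' - ⟪ξ, w⟫_ℝ) h2 h4 e2 e4
    (by simp only [e2, inner_add_right, real_inner_smul_right]; linarith only [g2])
    (by simp only [e4, inner_sub_right, real_inner_smul_right]; linarith only [g4])
    (by linarith only [x3]) (by linarith only [x4]) (ht.trans m2) (ht.trans m4)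
  have hl := hC _ a1 _ b1
  have hv : ((p : ℂ) + (ε * s) • v) - (p + (ε * t) • w) = ε • ξ := by
    rw [hst, smul_sub, smul_smul, smul_smul]
    ring
  rw [hv, norm_smul, Real.norm_eq_abs, abs_of_pos hε] at hl
  have hi : ⟪ξ, (p : ℂ) + (ε * s) • v⟫_ℝ - ⟪ξ, (p : ℂ) + (ε * t) • w⟫_ℝ = ε * ‖ξ‖ ^ 2 := by
    rw [← inner_sub_right, hv, real_inner_smul_right, real_inner_self_eq_norm_sq]
  have hle := le_abs_self (G (p + (ε * s) • v) - G (p + (ε * t) • w))
  have key : ε * ‖ξ‖ ^ 2 ≤ C * (ε * ‖ξ‖) := by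
    linarith only [a2, b2, hl, hi, hle]
  by_contra hn
  push Not at hn
  have : 0 < ε * ‖ξ‖ * (‖ξ‖ - C) := mul_pos (mul_pos hε (by linarith only [hC0, hn])) (by linarith only [hn])
  linarith only [a2, b2, hl, hi, hle, this]

/-- One rising arm of a crossing. -/
theorem Xing.arm (h : PNet Λ Nd r) {u : Nd → ℝ} {U : ℂ → ℝ} (hU : IsExt r u U)
    (hu : ∀ p : Nd, (p : ℂ) ∉ Λ.Vt → gen r u p = 0) {p q : Nd} (hr : 0 < r p q) {α c m : ℝ}
    {v : ℂ} (hq : (q : ℂ) = p + α • v) (hc : u q - u p = α * c) (h0 : 0 < c) (hm : 0 < m)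
    (hmα : m ≤ α) :
    (∀ t ∈ Ioc (0 : ℝ) 1, U p < U (p + t • m • v)) ∧
      ∃ b ∈ Λ.Vt, JoinedIn {z | z ∈ Λ.P ∧ U p < U z} (p + m • v) b := by
  have hα : 0 < α := hm.trans_le hmα
  have hs : ∀ s : ℝ, 0 < s → s ≤ α → (p : ℂ) + s • v ∈ {z | z ∈ Λ.P ∧ U p < U z} := by
    intro s s0 s1
    obtain ⟨a1, a2⟩ := Xing.edge_val hU hr hα hq hc s0.le s1
    exact ⟨h.eg_sub a1, by rw [a2, hU.1 p]; linarith only [mul_pos s0 h0]⟩
  refine ⟨fun t ht => ?_, ?_⟩
  · rw [smul_smul]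
    exact (hs _ (mul_pos ht.1 hm) (by nlinarith only [ht.2, hm, hmα])).2
  · obtain ⟨b, hb, hj⟩ := h.up_node hU hu q
    refine ⟨b, hb, JoinedIn.trans ?_ (hj.mono ?_)⟩
    · refine JoinedIn.of_segment_subset ?_
      rintro z ⟨x, y, hx, hy, hxy, rfl⟩
      have : x • ((p : ℂ) + m • v) + y • (q : ℂ) = p + (x * m + y * α) • v := by
        rw [hq, smul_add, smul_add, smul_smul, smul_smul, add_smul]
        have : (p : ℂ) = x • (p : ℂ) + y • (p : ℂ) := by rw [← add_smul, hxy, one_smul]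
        linear_combination -this
      rw [this]
      exact hs _ (by nlinarith only [hm, hmα, hy, hxy]) (by nlinarith only [hm, hmα, hx, hxy])
    · rintro z ⟨hz, hz'⟩
      refine ⟨hz.elim (fun hz => h.eg_sub hz) (fun hz => h.mem z hz), ?_⟩
      rw [hU.1 p]
      linarith only [mul_pos hα h0, hc, hz']

/-- P6. Hint: scale `v`, `w` by the least of the `α`; `up_node` for `u` at `p₁`, `p₃` and for `- u`
at `p₂`, `p₄`. -/
theorem Xing.cross (h : PNet Λ Nd r) {g : Nd → ℝ} {G : ℂ → ℝ} (hG : IsExt r g G)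
    (hg : ∀ p : Nd, (p : ℂ) ∉ Λ.Vt → gen r g p = 0) {p : Nd} {v w : ℂ} {a a' b b' : ℝ}
    (hx : Xing r g p v w a a' b b') {ξ : ℂ} (hξ : ξ ∈ Par v w a a' b b') :
    ∃ b₁ ∈ Λ.Vt, ∃ b₃ ∈ Λ.Vt, Cross Λ.P Λ.Vt (fun z => G z - ⟪ξ, z⟫_ℝ) p b₁ b₃ := by
  obtain ⟨hd, p₁, p₂, p₃, p₄, α₁, α₂, α₃, α₄, h1, h2, h3, h4, r1, r2, r3, r4, e1, e3, e2, e4,
    g1, g3, g2, g4⟩ := hx
  obtain ⟨x1, x2, x3, x4⟩ := hξ
  have hU := Xing.ext_sub hG ξ
  have hu : ∀ q : Nd, (q : ℂ) ∉ Λ.Vt → gen r (fun q : Nd => g q - ⟪ξ, (q : ℂ)⟫_ℝ) q = 0 := by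
    intro q hq
    have a1 := gen_map r (fun q : Nd => (q : ℂ)) (innerₗ ℂ ξ) q
    rw [h.harm q hq, map_zero] at a1
    have a2 := hg q hq
    simp only [gen, innerₗ_apply_apply, smul_eq_mul] at a1 a2 ⊢
    rw [← sub_eq_zero.2 (a2.trans a1.symm), ← Finset.sum_sub_distrib]
    exact Finset.sum_congr rfl fun b _ => by ring
  have hu' : ∀ q : Nd, (q : ℂ) ∉ Λ.Vt →
      gen r (fun q : Nd => -(g q - ⟪ξ, (q : ℂ)⟫_ℝ)) q = 0 := by
    intro q hq
    have a2 := hu q hq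
    simp only [gen, smul_eq_mul] at a2 ⊢
    rw [← neg_eq_zero.2 a2, ← Finset.sum_neg_distrib]
    exact Finset.sum_congr rfl fun b _ => by ring
  obtain ⟨m, hm, m1, m2, m3, m4⟩ : ∃ m : ℝ, 0 < m ∧ m ≤ α₁ ∧ m ≤ α₂ ∧ m ≤ α₃ ∧ m ≤ α₄ :=
    ⟨min (min α₁ α₂) (min α₃ α₄), by positivity, (min_le_left _ _).trans (min_le_left _ _),
      (min_le_left _ _).trans (min_le_right _ _), (min_le_right _ _).trans (min_le_left _ _),
      (min_le_right _ _).trans (min_le_right _ _)⟩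
  have e3' : (p₃ : ℂ) = p + α₃ • (-v) := by rw [e3, smul_neg, sub_eq_add_neg]
  have e4' : (p₄ : ℂ) = p + α₄ • (-w) := by rw [e4, smul_neg, sub_eq_add_neg]
  obtain ⟨a1, b₁, hb₁, j1⟩ := Xing.arm h hU hu r1 (c := a' - ⟪ξ, v⟫_ℝ) e1
    (by simp only [e1, inner_add_right, real_inner_smul_right]; linarith only [g1]) (by linarith only [x2]) hm m1
  obtain ⟨a3, b₃, hb₃, j3⟩ := Xing.arm h hU hu r3 (c := ⟪ξ, v⟫_ℝ - a) e3'
    (by simp only [e3, inner_sub_right, real_inner_smul_right]; linarith only [g3]) (by linarith only [x1]) hm m3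
  obtain ⟨a2, b₂, hb₂, j2⟩ := Xing.arm h (Xing.ext_neg hU) hu' r2 (c := ⟪ξ, w⟫_ℝ - b) e2
    (by simp only [e2, inner_add_right, real_inner_smul_right]; linarith only [g2]) (by linarith only [x3]) hm m2
  obtain ⟨a4, b₄, hb₄, j4⟩ := Xing.arm h (Xing.ext_neg hU) hu' r4 (c := b' - ⟪ξ, w⟫_ℝ) e4'
    (by simp only [e4, inner_sub_right, real_inner_smul_right]; linarith only [g4]) (by linarith only [x4]) hm m4
  simp only [smul_neg, ← sub_eq_add_neg, neg_lt_neg_iff] at a2 a3 a4 j2 j3 j4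
  refine ⟨b₁, hb₁, b₃, hb₃, m • v, m • w, ?_, fun t ht => ⟨a1 t ht, a3 t ht, a2 t ht, a4 t ht⟩,
    j1, j3, ⟨b₂, hb₂, j2⟩, b₄, hb₄, j4⟩
  have : det2 (m • v) (m • w) = m ^ 2 * det2 v w := by
    simp only [det2, Complex.smul_re, Complex.smul_im, smul_eq_mul]
    ring
  rw [this]
  exact mul_ne_zero (by positivity) hd

/-- P7. Hint: `area_sum` over the nodes with `A p ≠ 0`; the multiplicity bound is the injection
`p ↦ (b₁, b₃)` (`cross_inj`, `Finset.card_le_card_of_injOn`). -/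
theorem PNet.kink_sum (h : PNet Λ Nd r) {g : Nd → ℝ}
    (hg : ∀ p : Nd, (p : ℂ) ∉ Λ.Vt → gen r g p = 0) {L₀ : ℝ} (hL : 0 ≤ L₀)
    (hb : ∀ a b : Nd, (a : ℂ) ∈ Λ.Vt → (b : ℂ) ∈ Λ.Vt → |g a - g b| ≤ L₀ * ‖(a : ℂ) - b‖)
    {A : Nd → ℝ} (hA : ∀ p, A p = 0 ∨ ∃ v w a a' b b', Xing r g p v w a a' b b' ∧ a ≤ a' ∧
      b ≤ b' ∧ A p = (a' - a) * (b' - b) / |det2 v w|) :
    ∑ p, A p ≤ (Λ.Vt.card : ℝ) ^ 2 * (Real.pi * (L₀ / Λ.c₀ + 1) ^ 2) := by
  classical
  obtain ⟨G, hG⟩ := h.exists_ext g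
  have hC0 : 0 ≤ L₀ / Λ.c₀ + 1 := by have := Λ.c_pos; positivity
  have hC : ∀ z ∈ Eg r, ∀ z' ∈ Eg r, |G z - G z'| ≤ (L₀ / Λ.c₀ + 1) * ‖z - z'‖ :=
    fun z hz z' hz' => h.lip hG hg hL hb (Or.inl hz) (Or.inl hz')
  have hA' : ∀ p, ∃ v w a a' b b', A p ≠ 0 → Xing r g p v w a a' b b' ∧ a ≤ a' ∧
      b ≤ b' ∧ A p = (a' - a) * (b' - b) / |det2 v w| := by
    intro p
    rcases hA p with h0 | ⟨v, w, a, a', b, b', hp⟩
    · exact ⟨0, 0, 0, 0, 0, 0, fun hn => absurd h0 hn⟩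
    · exact ⟨v, w, a, a', b, b', fun _ => hp⟩
  choose v w a a' b b' hp using hA'
  have hV : ∀ c ∈ (Λ.Vt : Set ℂ), ∃ n : ℂ, ∀ z ∈ Λ.P, z ≠ c → 0 < ⟪n, z - c⟫_ℝ := by
    intro c hc
    obtain ⟨n, -, hn⟩ := Λ.expo c hc
    exact ⟨n, fun z hz hne =>
      (mul_pos Λ.c_pos (norm_pos_iff.2 (sub_ne_zero.2 hne))).trans_le (hn z hz)⟩
  have hs : ∀ p ∈ Finset.univ.filter (fun p => A p ≠ 0), A p ≠ 0 :=
    fun p hp => (Finset.mem_filter.1 hp).2
  have key := area_sum (Finset.univ.filter fun p => A p ≠ 0) v w a a' b b'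
    (m := Λ.Vt.card ^ 2) hC0 (fun p hq => (hp p (hs p hq)).1.1)
    (fun p hq => (hp p (hs p hq)).2.1) (fun p hq => (hp p (hs p hq)).2.2.1)
    (fun p hq ξ hξ => Xing.norm_le hG hC0 hC (hp p (hs p hq)).1 hξ) (by
      intro ξ t ht hξ
      have hc : ∀ p : Nd, ∃ c : ℂ × ℂ, p ∈ t → c ∈ Λ.Vt ×ˢ Λ.Vt ∧
          Cross Λ.P Λ.Vt (fun z => G z - ⟪ξ, z⟫_ℝ) p c.1 c.2 := by
        intro p
        by_cases hq : p ∈ t
        · obtain ⟨b₁, h₁, b₃, h₃, hc⟩ := Xing.cross h hG hg (hp p (hs p (ht hq))).1 (hξ p hq)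
          exact ⟨(b₁, b₃), fun _ => ⟨Finset.mem_product.2 ⟨h₁, h₃⟩, hc⟩⟩
        · exact ⟨0, fun hq' => absurd hq' hq⟩
      choose c hc using hc
      rw [sq, ← Finset.card_product]
      refine Finset.card_le_card_of_injOn c (fun p hq => (hc p hq).1) fun p hq p' hq' he => ?_
      have h2 := (hc p' hq').2
      rw [← he] at h2
      exact Subtype.ext (cross_inj (Λ.convex_reg 0) hV (hc p hq).2 h2))
  rw [← Finset.sum_filter_ne_zero, Finset.sum_congr rfl fun p hq => (hp p (hs p hq)).2.2.2]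
  exact_mod_cast key

end Pool.Agent.MP_17e62b_gt.H14

/-! From the chain to the planar network. -/

namespace Pool.Agent.MP_17e62b_gt.H14

open Set
open scoped BigOperators

variable {V : Type} [Fintype V]

open Classical in
/-- The places of the nodes. -/
noncomputable def places (c : Cut V) (T : V → ℂ) : Finset ℂ := Finset.univ.image (c.ext T)

/-- The place of a node. -/
noncomputable def place (c : Cut V) (T : V → ℂ) (u : c.Nd) : places c T :=
  ⟨c.ext T u, by simp only [places, Finset.mem_image, Finset.mem_univ, true_and, exists_apply_eq_apply]⟩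

/-- A conserved flow with harmonic positions in general position. -/
structure Flow (Λ : Lens) (B : Set V) (q : V → V → ℝ) (μ : V → ℝ) (T : V → ℂ) : Prop where
  nonneg : ∀ a b, 0 ≤ q a b
  stop : ∀ b ∈ B, ∀ a, q b a = 0
  abs : Abs q B
  mu : ∀ a, a ∉ B → 0 ≤ μ a
  src : ∀ a, a ∉ B → μ a = ∑ b, q a b - ∑ b, q b a
  mem : ∀ a, T a ∈ Λ.P
  bd : ∀ a, T a ∈ Λ.Vt ↔ a ∈ B
  all : ∀ v ∈ Λ.Vt, ∃ b, T b = v
  harmT : ∀ a, a ∉ B → gen q T a = 0
  vert : ∀ a b, 0 < q a b → (T a).re ≠ (T b).re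

variable {Λ : Lens} {B : Set V} {q : V → V → ℝ} {μ : V → ℝ} {T : V → ℂ} {c : Cut V}

/-- B1. Hint: a place in `Λ.Vt` is `T b` with `b ∈ B`; use `hc.old`. -/
theorem Flow.place_vt (h : Flow Λ B q μ T) (hc : GoodCut T (fun e => 0 < q e.1 e.2) c) (u : c.Nd) :
    c.ext T u ∈ Λ.Vt ↔ u ∈ (Sum.inl '' B : Set c.Nd) := by
  constructor
  · intro hu
    obtain ⟨b, hb⟩ := h.all _ hu
    exact ⟨b, (h.bd b).1 (hb ▸ hu), (hc.old u b hb.symm).symm⟩
  · rintro ⟨b, hb, rfl⟩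
    exact (h.bd b).2 hb

theorem Flow.pnet_edge (h : Flow Λ B q μ T) {p p' : places c T}
    (hp : 0 < mrg (place c T) (c.rate q) p p') : ∃ e : V × V, ∃ j ≤ c.N e, 0 < q e.1 e.2 ∧
      (((p : ℂ) = c.ext T (c.node e j) ∧ (p' : ℂ) = c.ext T (c.node e (j + 1))) ∨
        ((p : ℂ) = c.ext T (c.node e (j + 1)) ∧ (p' : ℂ) = c.ext T (c.node e j))) := by
  obtain ⟨a, a', rfl, rfl, hr⟩ := (mrg_pos_iff _ (c.rate_nonneg h.nonneg)).1 hp
  obtain ⟨e, j, hj, he, ⟨rfl, rfl⟩ | ⟨rfl, rfl⟩⟩ := c.of_rate_pos h.nonneg hr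
  exacts [⟨e, j, hj, he, .inl ⟨rfl, rfl⟩⟩, ⟨e, j, hj, he, .inr ⟨rfl, rfl⟩⟩]

omit [Fintype V] in
theorem Flow.pnet_step (T : V → ℂ) (e : V × V) {j : ℕ} (hj : j ≤ c.N e) :
    c.ext T (c.node e (j + 1)) = c.ext T (c.node e j) + c.len e j • dir T e := by
  rw [c.ext_node T e (Nat.succ_le_succ hj), c.ext_node T e (hj.trans (Nat.le_succ _)),
    AffineMap.lineMap_apply_module', AffineMap.lineMap_apply_module', Cut.len, dir]
  module

theorem Flow.pnet_surj : Function.Surjective (place c T) := by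
  classical
  rintro ⟨p, hp⟩
  obtain ⟨u, -, rfl⟩ := Finset.mem_image.1 hp
  exact ⟨u, rfl⟩

/-- B2. Hint: `mrg_pos_iff`, `Cut.of_rate_pos`, `abs_mrg`, `Cut.abs`, `gen_mrg` with
`Cut.gen_ext_inl`, `Cut.gen_ext_inr`. -/
theorem Flow.pnet (h : Flow Λ B q μ T) (hc : GoodCut T (fun e => 0 < q e.1 e.2) c) :
    PNet Λ (places c T) (mrg (place c T) (c.rate q)) := by
  have hre : ∀ (e : V × V) (j : ℕ), j ≤ c.N e → 0 < q e.1 e.2 →
      (c.ext T (c.node e j)).re ≠ (c.ext T (c.node e (j + 1))).re := fun e j hj he h0 => by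
    rw [Flow.pnet_step T e hj, Complex.add_re, Complex.smul_re, left_eq_add, smul_eq_mul,
      mul_eq_zero, dir, Complex.sub_re, sub_eq_zero, Cut.len, sub_eq_zero] at h0
    exact h0.elim (c.lt e j hj).ne' (h.vert _ _ he).symm
  refine ⟨mrg_nonneg _ (c.rate_nonneg h.nonneg), fun p hp => ?_, ?_, fun p hp => ?_,
    fun p p' hp => ?_, fun p p' hp r hr => ?_, fun p p' r r' hp hr z hz hz' => ?_⟩
  · obtain ⟨u, hu⟩ := Flow.pnet_surj (c := c) (T := T) ⟨p, hp⟩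
    obtain rfl : c.ext T u = p := congrArg Subtype.val hu
    rcases u with a | ⟨e, j⟩
    · exact h.mem a
    · exact (Λ.convex_reg 0).lineMap_mem (h.mem _) (h.mem _)
        (c.τ_mem e (Nat.succ_le_succ j.2.le))
  · refine (abs_mrg Flow.pnet_surj (c.rate_nonneg h.nonneg)
      (c.abs h.nonneg h.abs hc.act)).mono ?_ fun _ _ => id
    rintro _ ⟨u, hu, rfl⟩
    exact (h.place_vt hc u).2 hu
  · rw [gen_mrg]
    refine Finset.sum_eq_zero fun u _ => ?_
    split_ifs with hu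
    · subst hu
      rcases u with a | ⟨e, j⟩
      · exact (c.gen_ext_inl T a).trans (h.harmT a fun ha => hp ((h.bd a).2 ha))
      · exact c.gen_ext_inr T e j
    · rfl
  · obtain ⟨e, j, hj, he, ⟨h1, h2⟩ | ⟨h1, h2⟩⟩ := h.pnet_edge hp <;> rw [h1, h2]
    exacts [hre e j hj he, (hre e j hj he).symm]
  · obtain ⟨u, rfl⟩ := Flow.pnet_surj r
    obtain ⟨e, j, hj, he, ⟨h1, h2⟩ | ⟨h1, h2⟩⟩ := h.pnet_edge hp
    · rw [h1, h2] at hr
      exact (hc.node e he j hj u hr).imp (fun e => Subtype.ext (e.trans h1.symm))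
        fun e => Subtype.ext (e.trans h2.symm)
    · rw [h1, h2, segment_symm] at hr
      exact (hc.node e he j hj u hr).symm.imp (fun e => Subtype.ext (e.trans h1.symm))
        fun e => Subtype.ext (e.trans h2.symm)
  · have hn : (∃ u, c.ext T u = z) → z ∈ places c T := by
      rintro ⟨u, rfl⟩
      exact (place c T u).2
    simp only [Subtype.ext_iff]
    obtain ⟨e, j, hj, he, ⟨h1, h2⟩ | ⟨h1, h2⟩⟩ := h.pnet_edge hp <;>
      obtain ⟨e', j', hj', he', ⟨h3, h4⟩ | ⟨h3, h4⟩⟩ := h.pnet_edge hr <;>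
        rw [h1, h2] at hz ⊢ <;> rw [h3, h4] at hz' ⊢
    · exact (hc.planar e e' he he' j hj j' hj' z hz hz').imp_left hn
    · rw [segment_symm] at hz'
      exact (hc.planar e e' he he' j hj j' hj' z hz hz').imp hn Or.symm
    · rw [segment_symm] at hz
      exact (hc.planar e e' he he' j hj j' hj' z hz hz').imp hn
        fun h => h.symm.imp And.symm And.symm
    · rw [segment_symm] at hz hz'
      exact (hc.planar e e' he he' j hj j' hj' z hz hz').imp hn fun h => h.imp And.symm And.symm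

/-- B3. A cable is the union of its pieces. -/
theorem Flow.seg_sub (h : Flow Λ B q μ T) {a b : V} (hab : 0 < q a b) :
    segment ℝ (T a) (T b) ⊆ Eg (mrg (place c T) (c.rate q)) := by
  classical
  intro z hz
  rw [segment_eq_image_lineMap] at hz
  obtain ⟨t, ht, rfl⟩ := hz
  have hex : ∃ j, t ≤ c.τ (a, b) (j + 1) := ⟨c.N (a, b), by rw [c.one]; exact ht.2⟩
  have hj : Nat.find hex ≤ c.N (a, b) := Nat.find_min' hex (by rw [c.one]; exact ht.2)
  have h1 : c.τ (a, b) (Nat.find hex) ≤ t := by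
    rcases Nat.eq_zero_or_eq_succ_pred (Nat.find hex) with h0 | h0
    · rw [h0, c.zero]
      exact ht.1
    · rw [h0]
      exact (not_le.1 (Nat.find_min hex (by omega))).le
  refine ⟨place c T (c.node (a, b) (Nat.find hex)), place c T (c.node (a, b) (Nat.find hex + 1)),
    (mrg_pos_iff _ (c.rate_nonneg h.nonneg)).2 ⟨_, _, rfl, rfl, c.rate_fwd h.nonneg hab hj⟩, ?_⟩
  show _ ∈ segment ℝ (c.ext T _) (c.ext T _)
  rw [c.ext_node T _ (Nat.succ_le_succ hj), c.ext_node T _ (hj.trans (Nat.le_succ _)),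
    ← image_segment ℝ (AffineMap.lineMap (T a) (T b)), segment_eq_Icc (c.lt _ _ hj).le]
  exact ⟨t, ⟨h1, Nat.find_spec hex⟩, rfl⟩

theorem Flow.xing_node (h : Flow Λ B q μ T) (hc : GoodCut T (fun e => 0 < q e.1 e.2) c)
    (e : V × V) (j : Fin (c.N e)) :
    0 < c.len e j ∧ 0 < c.len e (j + 1) ∧ 0 < q e.1 e.2 * (1 - c.τ e (j + 1)) ∧
      0 < mrg (place c T) (c.rate q) (place c T (.inr ⟨e, j⟩)) (place c T (c.node e (j + 2))) ∧
      0 < mrg (place c T) (c.rate q) (place c T (.inr ⟨e, j⟩)) (place c T (c.node e j)) ∧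
      c.ext T (c.node e (j + 2)) = c.ext T (.inr ⟨e, j⟩) + c.len e (j + 1) • dir T e ∧
      c.ext T (c.node e j) = c.ext T (.inr ⟨e, j⟩) - c.len e j • dir T e := by
  have hj := j.2
  have he : 0 < q e.1 e.2 := hc.act e (by omega)
  have h1 : c.τ e (j + 1) < 1 := (c.τ_lt e (Nat.succ_lt_succ hj) le_rfl).trans_eq (c.one e)
  rw [← c.node_succ e j]
  refine ⟨sub_pos.2 (c.lt e j hj.le), sub_pos.2 (c.lt e _ hj), mul_pos he (sub_pos.2 h1),
    (mrg_pos_iff _ (c.rate_nonneg h.nonneg)).2 ⟨_, _, rfl, rfl, c.rate_fwd h.nonneg he hj⟩,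
    (mrg_pos_iff _ (c.rate_nonneg h.nonneg)).2 ⟨_, _, rfl, rfl, c.rate_bwd h.nonneg he hj⟩,
    Flow.pnet_step T e hj, ?_⟩
  rw [Flow.pnet_step T e hj.le, add_sub_cancel_right]

/-- B4. Two kinks of opposite signs at one place give a crossing. Hint: if `u = inl a`, the fibre
is `{u}` (`hc.old`), so its kink vanishes by `gen_mrg`. For two subdivision nodes use
`Cut.gen_inr`; if the determinant vanishes, `hc.par` shows that the brackets agree, so the kinks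
have the same sign. Otherwise `v = dir T e`, `w = dir T e'`, the `α` are the lengths `c.len`. -/
theorem Flow.xing (h : Flow Λ B q μ T) (hc : GoodCut T (fun e => 0 < q e.1 e.2) c)
    {g : places c T → ℝ}
    (hg : ∀ p : places c T, (p : ℂ) ∉ Λ.Vt → gen (mrg (place c T) (c.rate q)) g p = 0)
    {lam : ℝ} (hl : 0 < lam) {u u' : c.Nd} (hu : u ∉ (Sum.inl '' B : Set c.Nd))
    (hu' : u' ∉ (Sum.inl '' B : Set c.Nd)) (hp : place c T u = place c T u')
    (h1 : 0 < gen (c.rate q) (fun b => g (place c T b)) u)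
    (h2 : gen (c.rate q) (fun b => g (place c T b)) u' < 0) :
    ∃ v w a a' b b', Xing (mrg (place c T) (c.rate q)) g (place c T u) v w a a' b b' ∧ a ≤ a' ∧
      b ≤ b' ∧ gen (c.rate q) (fun b => g (place c T b)) u *
        -gen (c.rate q) (fun b => g (place c T b)) u' =
          link c q T lam u u' * (lam⁻¹ * ((a' - a) * (b' - b) / |det2 v w|)) := by
  have hp' : c.ext T u = c.ext T u' := congrArg Subtype.val hp
  have hne : u ≠ u' := fun e => by
    subst e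
    exact lt_asymm h1 h2
  rcases u with a | ⟨e, j⟩
  · exact absurd (hc.old u' a hp'.symm).symm hne
  rcases u' with a | ⟨e', j'⟩
  · exact absurd (hc.old _ a hp') hne
  obtain ⟨l0, l1, hd, r1, r3, x1, x3⟩ := h.xing_node hc e j
  obtain ⟨l0', l1', hd', r2, r4, x2, x4⟩ := h.xing_node hc e' j'
  rw [c.gen_inr] at h1 h2 ⊢
  rw [c.gen_inr]
  simp only [smul_eq_mul] at h1 h2 ⊢
  rw [← hp] at h2 r2 r4 ⊢
  rw [← hp'] at x2 x4
  have k1 := (mul_pos_iff_of_pos_left hd).1 h1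
  have k2 := neg_of_mul_neg_right h2 hd'.le
  have hdet : det2 (dir T e) (dir T e') ≠ 0 := fun h0 => by
    rcases hc.par e e' j j' hp' h0 with ⟨rfl, h3⟩ | ⟨h3, h4, h5, h6⟩
    · exact hne (by rw [Fin.ext h3])
    · have e3 : place c T (c.node e j) = place c T (c.node e' (j' + 2)) := Subtype.ext h3
      have e4 : place c T (c.node e (j + 2)) = place c T (c.node e' j') := Subtype.ext h4
      rw [e3, e4, h5, h6] at k1
      linarith only [k1, k2]
  refine ⟨dir T e, dir T e', _, _, _, _, ⟨hdet, place c T (c.node e (j + 2)),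
    place c T (c.node e' (j' + 2)), place c T (c.node e j), place c T (c.node e' j'), _, _, _, _,
    l1, l1', l0, l0', r1, r2, r3, r4, x1, x3, x2, x4, (mul_inv_cancel_left₀ l1.ne' _).symm,
    (mul_inv_cancel_left₀ l0.ne' _).symm, (mul_inv_cancel_left₀ l1'.ne' _).symm,
    (mul_inv_cancel_left₀ l0'.ne' _).symm⟩, (sub_pos.1 k1).le, (sub_neg.1 k2).le, ?_⟩
  have ha : |det2 (dir T e) (dir T e')| ≠ 0 := abs_ne_zero.2 hdet
  have hl' := hl.ne'
  simp only [link, if_pos hp']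
  generalize (c.len e (j + 1))⁻¹ * _ = A', (c.len e j)⁻¹ * _ = A, (c.len e' (j' + 1))⁻¹ * _ = C,
    (c.len e' j')⁻¹ * _ = C'
  field_simp
  ring

theorem est_max {ι : Type} [Finite ι] {S : ℝ → Prop} {Q : ι → Prop} {P : ι → ℝ → Prop} (h0 : S 0)
    (hm : ∀ i x y, x ≤ y → P i x → P i y) (h : ∀ i, Q i → ∃ x, 0 ≤ x ∧ S x ∧ P i x) :
    ∃ x, 0 ≤ x ∧ S x ∧ ∀ i, Q i → P i x := by
  have : ∀ i : Option ι, ∃ x, 0 ≤ x ∧ S x ∧ ∀ j, i = some j → Q j → P j x := by
    intro i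
    cases i with
    | none => exact ⟨0, le_rfl, h0, by simp⟩
    | some j =>
      by_cases hq : Q j
      · obtain ⟨x, h1, h2, h3⟩ := h j hq
        exact ⟨x, h1, h2, by rintro _ ⟨rfl⟩ _; exact h3⟩
      · exact ⟨0, le_rfl, h0, by rintro _ ⟨rfl⟩ hq'; exact absurd hq' hq⟩
  choose f h1 h2 h3 using this
  obtain ⟨i₀, hi₀⟩ := Finite.exists_max f
  exact ⟨f i₀, h1 _, h2 _, fun j hj => hm j _ _ (hi₀ (some j)) (h3 _ j rfl hj)⟩

theorem est_place_surj (c : Cut V) (T : V → ℂ) : Function.Surjective (place c T) := by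
  classical
  rintro ⟨p, hp⟩
  obtain ⟨u, -, hu⟩ := Finset.mem_image.1 (by simpa only [places] using hp)
  exact ⟨u, Subtype.ext hu⟩

theorem est_vt (h : Flow Λ B q μ T) (hc : GoodCut T (fun e => 0 < q e.1 e.2) c)
    {p : places c T} (hp : (p : ℂ) ∈ Λ.Vt) : ∃ b ∈ B, p = place c T (.inl b) := by
  obtain ⟨u, rfl⟩ := est_place_surj c T p
  obtain ⟨b, hb, rfl⟩ := (h.place_vt hc u).1 hp
  exact ⟨b, hb, rfl⟩

theorem est_det (v w : ℂ) : |det2 v w| ≤ ‖v‖ * ‖w‖ := by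
  have : det2 v w = ((starRingEnd ℂ) v * w).im := by
    simp only [det2, Complex.mul_im, Complex.conj_re, Complex.conj_im]; ring
  rw [this]
  refine (Complex.abs_im_le_norm _).trans ?_
  rw [norm_mul, Complex.norm_conj]

open Classical in
theorem est_mass (h : Flow Λ B q μ T) {F : V → ℝ} {L η lam γ : ℝ} (hL : 0 ≤ L) (hη : 0 ≤ η)
    (hF : ∀ a b, |F a - F b| ≤ L * ‖T a - T b‖ + η) (hl : 0 < lam)
    (hμ : (∑ a, if a ∈ B then 0 else μ a) ≤ 2)
    (h2 : ∑ a, ∑ b, q a b * (‖T b - T a‖ * (L * ‖T b - T a‖ + η) ^ 2) ≤ γ) :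
    ∑ u, ∑ u', link c q T lam u u' * (c.ext F u - c.ext F u') ^ 2 ≤ 32 * lam * γ := by
  have hm := link_mass c h.nonneg (m := 8) hL hη hl.le hF (by
    intro e s t ht
    have hD : ∀ b ∈ B, |det2 (dir T e) (T b - T e.1)| ≤ 4 * ‖dir T e‖ := by
      intro b _
      have h1 : ‖T b‖ ≤ 2 := Λ.norm_le (by norm_num) (h.mem b)
      have h2 : ‖T e.1‖ ≤ 2 := Λ.norm_le (by norm_num) (h.mem e.1)
      have h3 := norm_sub_le (T b) (T e.1)
      have h4 := est_det (dir T e) (T b - T e.1)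
      nlinarith only [norm_nonneg (dir T e), h1, h2, h3, h4]
    have := local_time h.nonneg h.stop h.mu h.src h.harmT hD s t ht
    nlinarith only [norm_nonneg (dir T e), hμ, this])
  nlinarith only [hl, h2, hm]

open Classical in
/-- B5. The real-valued estimate. Hint: `merge_est` with `π = place c T`, `R = c.rate q`,
`c = link c q T lam`, source `μ` on old nodes and `0` on new ones (`Cut.cons_inl`, `cons_inr`,
`rate_stop`), test function `c.ext F`. `A p` is `lam⁻¹` times the largest area given by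
`Flow.xing` at `p` (zero if there is none); `PNet.kink_sum`. `link_mass` with `m = 8`, from
`local_time` with `D = 4 ‖dir T e‖` (`norm_le`). -/
theorem Flow.est (h : Flow Λ B q μ T) (hc : GoodCut T (fun e => 0 < q e.1 e.2) c)
    {g : places c T → ℝ}
    (hg : ∀ p : places c T, (p : ℂ) ∉ Λ.Vt → gen (mrg (place c T) (c.rate q)) g p = 0)
    {F : V → ℝ} (hB : ∀ b ∈ B, g (place c T (.inl b)) = F b) {L₀ L η lam K γ : ℝ} (hL₀ : 0 ≤ L₀)
    (hb : ∀ a ∈ B, ∀ b ∈ B, |F a - F b| ≤ L₀ * ‖T a - T b‖) (hL : 0 ≤ L) (hη : 0 ≤ η)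
    (hF : ∀ a b, |F a - F b| ≤ L * ‖T a - T b‖ + η) (hl : 0 < lam)
    (hμ : (∑ a, if a ∈ B then 0 else μ a) ≤ 2)
    (h1 : (∑ a, if a ∈ B then 0 else |gen q F a|) ≤ γ)
    (h2 : ∑ a, ∑ b, q a b * (‖T b - T a‖ * (L * ‖T b - T a‖ + η) ^ 2) ≤ γ) {z : V} (hz : z ∉ B)
    (hK : 1 ≤ K * μ z) :
    |g (place c T (.inl z)) - F z| ≤ K * γ + √(2 * K) *
      (√(lam⁻¹ * ((Λ.Vt.card : ℝ) ^ 2 * (Real.pi * (L₀ / Λ.c₀ + 1) ^ 2))) + √(32 * lam * γ)) := by
  have hN := h.pnet hc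
  have harea : ∀ p : places c T, ∃ x, 0 ≤ x ∧
      (x = 0 ∨ ∃ v w a a' b b', Xing (mrg (place c T) (c.rate q)) g p v w a a' b b' ∧ a ≤ a' ∧
        b ≤ b' ∧ x = (a' - a) * (b' - b) / |det2 v w|) ∧
      ∀ i : c.Nd × c.Nd, (i.1 ∉ (Sum.inl '' B : Set c.Nd) ∧ i.2 ∉ (Sum.inl '' B : Set c.Nd) ∧
        place c T i.1 = p ∧ place c T i.1 = place c T i.2 ∧
        0 < gen (c.rate q) (fun b => g (place c T b)) i.1 ∧
        gen (c.rate q) (fun b => g (place c T b)) i.2 < 0) →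
        gen (c.rate q) (fun b => g (place c T b)) i.1 *
          -gen (c.rate q) (fun b => g (place c T b)) i.2 ≤
            link c q T lam i.1 i.2 * (lam⁻¹ * x) := by
    intro p
    refine est_max (Or.inl rfl) ?_ ?_
    · intro i x y hxy hx
      refine hx.trans (mul_le_mul_of_nonneg_left ?_ (link_nonneg c h.nonneg T hl.le _ _))
      exact mul_le_mul_of_nonneg_left hxy (inv_nonneg.2 hl.le)
    · rintro i ⟨i1, i2, rfl, i4, i5, i6⟩
      obtain ⟨v, w, a, a', b, b', hx, ha, hb', he⟩ := h.xing hc hg hl i1 i2 i4 i5 i6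
      exact ⟨_, div_nonneg (mul_nonneg (sub_nonneg.2 ha) (sub_nonneg.2 hb')) (abs_nonneg _),
        Or.inr ⟨v, w, a, a', b, b', hx, ha, hb', rfl⟩, he.le⟩
  choose A hA0 hA1 hA2 using harea
  have hsum := hN.kink_sum hg hL₀ (by
    intro a b ha hb'
    obtain ⟨a', ha', rfl⟩ := est_vt h hc ha
    obtain ⟨b', hb'', rfl⟩ := est_vt h hc hb'
    rw [hB a' ha', hB b' hb'']
    exact hb a' ha' b' hb'') hA1
  have hinl : ∀ a : V, (Sum.inl a : c.Nd) ∈ (Sum.inl '' B : Set c.Nd) ↔ a ∈ B := fun a =>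
    Sum.inl_injective.mem_set_image
  refine merge_est (place c T) (R := c.rate q) (c := link c q T lam) (B := Sum.inl '' B)
    (μ := Sum.elim μ fun _ => 0) (F := c.ext F) (A := fun p => lam⁻¹ * A p) (z := .inl z)
    (c.rate_nonneg h.nonneg) (c.abs h.nonneg h.abs hc.act) (link_nonneg c h.nonneg T hl.le)
    (link_symm c q T lam) ?_ ?_ ?_ (by rwa [hinl]) hK ?_ ?_
    (fun p => mul_nonneg (inv_nonneg.2 hl.le) (hA0 p)) ?_ ?_ ?_ (est_mass h hL hη hF hl hμ h2)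
  · intro u u' hne
    obtain ⟨h1, h2⟩ := link_ne c q T lam hne
    exact ⟨Subtype.ext h1, fun ⟨b, _, hb⟩ => h2 b hb.symm⟩
  · rintro (a | u) ha
    · exact h.mu a (by rwa [hinl] at ha)
    · exact le_rfl
  · intro u hu
    have : (∑ b, if b ∈ (Sum.inl '' B : Set c.Nd) then 0 else c.rate q b u) =
        ∑ b, c.rate q b u := by
      refine Finset.sum_congr rfl fun b _ => ?_
      split_ifs with hb'
      · obtain ⟨b', hb'', rfl⟩ := hb'
        exact (c.rate_stop (h.stop b' hb'') u).symm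
      · rfl
    rw [this]
    rcases u with a | u
    · rw [c.cons_inl]
      exact (h.src a (by rwa [hinl] at hu)).le
    · rw [c.cons_inr]
      exact le_rfl
  · rintro _ ⟨b, hb', rfl⟩
    exact hB b hb'
  · intro p
    by_cases hp : (p : ℂ) ∈ Λ.Vt
    · refine Finset.sum_eq_zero fun u _ => if_neg ?_
      rintro ⟨rfl, hu⟩
      exact hu ((h.place_vt hc u).1 hp)
    · refine Eq.trans ?_ ((gen_mrg (place c T) (c.rate q) g p).symm.trans (hg p hp))
      refine Finset.sum_congr rfl fun u _ => ?_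
      by_cases hu : place c T u = p
      · have : u ∉ (Sum.inl '' B : Set c.Nd) := fun hu' => hp (hu ▸ (h.place_vt hc u).2 hu')
        rw [if_pos hu, if_pos ⟨hu, this⟩]
      · rw [if_neg hu, if_neg fun h' => hu h'.1]
  · intro u u' hu hu' hp k1 k2
    exact hA2 _ (u, u') ⟨hu, hu', rfl, hp, k1, k2⟩
  · rw [← Finset.mul_sum]
    exact mul_le_mul_of_nonneg_left hsum (inv_nonneg.2 hl.le)
  · refine le_trans (le_of_eq ?_) h1
    rw [Fintype.sum_sum_type]
    have : ∀ u : (Σ e : V × V, Fin (c.N e)), gen (c.rate q) (c.ext F) (.inr u) = 0 :=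
      fun u => c.gen_ext_inr F u.1 u.2
    simp only [this, hinl, c.gen_ext_inl, abs_zero, ite_self, Finset.sum_const_zero, add_zero]

theorem build_const {C K ε : ℝ} (hC : 0 ≤ C) (hK : 0 < K) (hε : 0 < ε) :
    ∃ lam > 0, ∃ β > 0, K * (2 * β) + √(2 * K) * (√(lam⁻¹ * C) + √(32 * lam * (2 * β))) ≤ ε := by
  have hs : 0 < √(2 * K) := Real.sqrt_pos.2 (by positivity)
  set x := ε / (3 * √(2 * K)) with hx
  have hx0 : 0 < x := by positivity
  refine ⟨(C + 1) / x ^ 2, by positivity, min (ε / (6 * K)) (x ^ 4 / (64 * (C + 1))),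
    lt_min (by positivity) (by positivity), ?_⟩
  have h1 : K * (2 * min (ε / (6 * K)) (x ^ 4 / (64 * (C + 1)))) ≤ ε / 3 := by
    calc _ ≤ K * (2 * (ε / (6 * K))) := by gcongr; exact min_le_left _ _
      _ = ε / 3 := by field_simp; ring
  have h2 : √(((C + 1) / x ^ 2)⁻¹ * C) ≤ x := by
    refine Real.sqrt_le_iff.2 ⟨hx0.le, ?_⟩
    rw [inv_div, div_mul_eq_mul_div, div_le_iff₀ (by positivity)]
    linarith only [sq_nonneg x]
  have h3 : √(32 * ((C + 1) / x ^ 2) * (2 * min (ε / (6 * K)) (x ^ 4 / (64 * (C + 1))))) ≤ x := by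
    refine Real.sqrt_le_iff.2 ⟨hx0.le, ?_⟩
    calc _ ≤ 32 * ((C + 1) / x ^ 2) * (2 * (x ^ 4 / (64 * (C + 1)))) := by
          gcongr; exact min_le_right _ _
      _ = x ^ 2 := by field_simp; ring
  have h4 : √(2 * K) * (x + x) = 2 * ε / 3 := by rw [hx]; field_simp; ring
  have h5 := mul_le_mul_of_nonneg_left (add_le_add h2 h3) hs.le
  linarith

open Classical in
theorem build_mu (B : Set V) [Nonempty V] (Z₀ : Finset V) {K : ℕ} (hK : Z₀.card ≤ K) :
    ∃ μ : V → ℝ, (∀ a, 0 < μ a) ∧ (∑ a, if a ∈ B then 0 else μ a) ≤ 2 ∧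
      ∀ z ∈ Z₀, 1 ≤ ((K : ℝ) + 1) * μ z := by
  have hc : (0 : ℝ) < Fintype.card V := Nat.cast_pos.2 Fintype.card_pos
  have hK1 : (0 : ℝ) < (K : ℝ) + 1 := by positivity
  have hpos : ∀ a, 0 < (if a ∈ Z₀ then ((K : ℝ) + 1)⁻¹ else 0) + (Fintype.card V : ℝ)⁻¹ := by
    intro a
    split_ifs <;> positivity
  refine ⟨fun a => (if a ∈ Z₀ then ((K : ℝ) + 1)⁻¹ else 0) + (Fintype.card V : ℝ)⁻¹, hpos, ?_, ?_⟩
  · calc _ ≤ ∑ a, ((if a ∈ Z₀ then ((K : ℝ) + 1)⁻¹ else 0) + (Fintype.card V : ℝ)⁻¹) := by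
          refine Finset.sum_le_sum fun a _ => ?_
          by_cases ha : a ∈ B
          · rw [if_pos ha]; exact (hpos a).le
          · rw [if_neg ha]
      _ = Z₀.card * ((K : ℝ) + 1)⁻¹ + 1 := by
          rw [Finset.sum_add_distrib, Finset.sum_ite_mem, Finset.univ_inter]
          simp only [Finset.sum_const, nsmul_eq_mul, Finset.card_univ, ne_eq, hc.ne', not_false_eq_true, mul_inv_cancel₀]
      _ ≤ 2 := by
          have : (Z₀.card : ℝ) ≤ K := Nat.cast_le.2 hK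
          have h1 : (Z₀.card : ℝ) * ((K : ℝ) + 1)⁻¹ ≤ 1 := by
            rw [← div_eq_mul_inv, div_le_one hK1]; linarith only [this]
          linarith only [h1]
  · intro z hz
    simp only [if_pos hz, mul_add, mul_inv_cancel₀ hK1.ne']
    have : 0 ≤ ((K : ℝ) + 1) * (Fintype.card V : ℝ)⁻¹ := by positivity
    linarith only [this]

/-- B6. Hint: choose `lam`, then `β`, with `γ = 2 β` and `K + 1` for `K`. Let
`μ a = [a ∈ Z₀] / (K + 1) + 1 / card V`, `G = green R B μ` (`abs_of_lyap` with the potential,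
`green_pos`), `q a b = G a * R a b`; `green_le` bounds the two sums of `Flow.est` by `2 β`.
`g = harm r {p | p ∈ Λ.Vt} φ`; apply `Flow.est` to `l ∘ g`, `l ∘ F` for a norming functional `l`.
-/
theorem build {E : Type} [NormedAddCommGroup E] [NormedSpace ℝ E] (Λ : Lens) (φ : ℂ → E)
    {L₀ : ℝ} (hL₀ : 0 ≤ L₀) (hφ : ∀ a ∈ Λ.Vt, ∀ b ∈ Λ.Vt, ‖φ a - φ b‖ ≤ L₀ * ‖a - b‖) (K : ℕ)
    {ε : ℝ} (hε : 0 < ε) :
    ∃ β > 0, ∀ (V : Type) [Fintype V] (B : Set V) (R : V → V → ℝ) (T : V → ℂ) (F : V → E)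
      (L η : ℝ), 0 ≤ L → 0 ≤ η → Chain Λ φ L β η B R T F → ∀ Z₀ : Finset V,
      (∀ z ∈ Z₀, z ∉ B) → Z₀.card ≤ K →
      ∃ (Nd : Finset ℂ) (r : Nd → Nd → ℝ) (g : Nd → E), PNet Λ Nd r ∧
        (∀ p : Nd, (p : ℂ) ∉ Λ.Vt → gen r g p = 0) ∧ (∀ p : Nd, (p : ℂ) ∈ Λ.Vt → g p = φ p) ∧
        (∀ a b, 0 < R a b → segment ℝ (T a) (T b) ⊆ Eg r) ∧
        ∀ z ∈ Z₀, ∃ p : Nd, (p : ℂ) = T z ∧ ‖g p - F z‖ ≤ ε := by
  classical
  obtain ⟨lam, hl, β, hβ, hconst⟩ := build_const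
    (C := (Λ.Vt.card : ℝ) ^ 2 * (Real.pi * (L₀ / Λ.c₀ + 1) ^ 2)) (K := (K : ℝ) + 1)
    (by positivity) (by positivity) hε
  refine ⟨β, hβ, fun V _ B R T F L η hL hη hC Z₀ hZ hZK => ?_⟩
  obtain ⟨k, hk0, hkβ, hk⟩ := hC.pot
  have hA : Abs R B := abs_of_lyap hC.nonneg (h := k) fun a ha => by linarith only [(hk a ha).1]
  have : Nonempty V := by
    obtain ⟨b, -⟩ := hC.all 1 Λ.one_mem
    exact ⟨b⟩
  obtain ⟨μ, hμ0, hμ2, hμZ⟩ := build_mu B Z₀ hZK
  set G := green R B μ with hG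
  have hG0 : ∀ a, 0 ≤ G a := green_nonneg hC.nonneg hA fun a _ => (hμ0 a).le
  have hGB : ∀ b ∈ B, G b = 0 := fun b hb => green_bd μ hb
  have hadj : ∀ b, b ∉ B → G b * ∑ c, R b c - ∑ a, G a * R a b = μ b := fun b hb =>
    green_adj hC.nonneg hA μ hb
  have hq : ∀ a b, 0 < R a b → 0 < G a * R a b := fun a b hab => by
    refine mul_pos (green_pos hC.nonneg hA (fun a _ => hμ0 a) fun ha => ?_) hab
    exact hab.ne' (hC.stop a ha b)
  have hq' : ∀ a b, 0 < G a * R a b → 0 < R a b := fun a b hab =>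
    (hC.nonneg a b).lt_of_ne fun h0 => by rw [← h0, mul_zero] at hab; exact lt_irrefl _ hab
  have hgen : ∀ {X : Type} [AddCommGroup X] [Module ℝ X] (u : V → X) (a : V),
      gen (fun a b => G a * R a b) u a = G a • gen R u a := by
    intro X _ _ u a
    simp only [gen, Finset.smul_sum, mul_smul]
  have hF : Flow Λ B (fun a b => G a * R a b) μ T :=
    { nonneg := fun a b => mul_nonneg (hG0 a) (hC.nonneg a b)
      stop := fun b hb a => by simp only [hGB b hb, zero_mul]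
      abs := hA.mono subset_rfl hq
      mu := fun a _ => (hμ0 a).le
      src := fun a ha => by rw [← hadj a ha, Finset.mul_sum]
      mem := hC.mem
      bd := fun a => ⟨fun ha => by
        obtain ⟨b, hb, hab⟩ := hC.all _ ha
        rwa [← hC.inj hab], fun ha => (hC.bd a ha).1⟩
      all := fun v hv => (hC.all v hv).imp fun b hb => hb.2
      harmT := fun a ha => by rw [hgen, hC.harmT a ha, smul_zero]
      vert := fun a b hab => hC.vert a b (hq' a b hab) }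
  obtain ⟨c, hc⟩ := exists_goodCut hC.inj (Act := fun e => 0 < G e.1 * R e.1 e.2)
    (fun e he h => hC.vert _ _ (hq' _ _ he) (by rw [h]))
    (fun e he d h1 h2 => hC.gen3 _ _ d (hq' _ _ he) h1 h2)
  have hN := hF.pnet hc
  have hle : ∀ ψ : V → ℝ, (∀ a, a ∉ B → ψ a ≤ -gen R k a) → ∑ a, G a * ψ a ≤ 2 * β := by
    intro ψ hψ
    have := green_le hC.nonneg hG0 hGB (fun a _ => (hμ0 a).le) hadj hk0 hkβ hψ
    have h2 := mul_le_mul_of_nonneg_left hμ2 hβ.le
    linarith only [this, h2]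
  set g := harm (mrg (place c T) (c.rate fun a b => G a * R a b))
    {p : places c T | (p : ℂ) ∈ Λ.Vt} (fun p => φ p) with hg
  have hg1 : ∀ p : places c T, (p : ℂ) ∉ Λ.Vt →
      gen (mrg (place c T) (c.rate fun a b => G a * R a b)) g p = 0 := fun p hp =>
    harm_gen hN.nonneg hN.abs _ hp
  have hg2 : ∀ p : places c T, (p : ℂ) ∈ Λ.Vt → g p = φ p := fun p hp =>
    harm_bd hN.nonneg hN.abs _ hp
  refine ⟨places c T, _, g, hN, hg1, hg2, fun a b hab => hF.seg_sub (hq a b hab), fun z hz =>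
    ⟨place c T (.inl z), rfl, ?_⟩⟩
  obtain ⟨l, hl1, hl2⟩ := exists_dual_vector'' ℝ (g (place c T (.inl z)) - F z)
  have hll : ∀ x : E, |l x| ≤ ‖x‖ := fun x =>
    (l.le_opNorm x).trans (mul_le_of_le_one_left (norm_nonneg _) hl1)
  have key := hF.est hc (g := fun p => l (g p)) (F := fun a => l (F a)) (L₀ := L₀) (L := L)
    (η := η) (lam := lam) (K := (K : ℝ) + 1) (γ := 2 * β)
    (fun p hp => by
      have := gen_map (mrg (place c T) (c.rate fun a b => G a * R a b)) g l.toLinearMap p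
      rw [hg1 p hp, map_zero] at this
      exact this)
    (fun b hb => by
      rw [hg2 _ (hC.bd b hb).1, (hC.bd b hb).2]
      rfl)
    hL₀
    (fun a ha b hb => by
      rw [← map_sub, (hC.bd a ha).2, (hC.bd b hb).2]
      exact (hll _).trans (hφ _ (hC.bd a ha).1 _ (hC.bd b hb).1))
    hL hη
    (fun a b => by
      rw [← map_sub]
      exact (hll _).trans (hC.lip a b))
    hl hμ2
    (by
      refine le_trans (Finset.sum_le_sum fun a _ => ?_)
        (hle (fun a => ‖gen R F a‖) fun a ha => (hk a ha).2.1)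
      split_ifs with ha
      · exact mul_nonneg (hG0 a) (norm_nonneg _)
      · have := gen_map R F l.toLinearMap a
        rw [hgen, smul_eq_mul, abs_mul, abs_of_nonneg (hG0 a)]
        refine mul_le_mul_of_nonneg_left ?_ (hG0 a)
        exact (congrArg abs this).trans_le (hll _))
    (by
      refine le_trans (le_of_eq ?_) (hle _ fun a ha => (hk a ha).2.2)
      simp only [Finset.mul_sum, mul_assoc])
    (hZ z hz) (hμZ z hz)
  rw [← map_sub, hl2] at key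
  exact ((le_abs_self _).trans key).trans hconst

end Pool.Agent.MP_17e62b_gt.H14
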