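import Pool.Agent.MP_17e62b_gt.H14.M1
import Pool.Agent.MP_17e62b_gt.Rigid
import Pool.Agent.MP_17e62b_gt.Mg.G_H72Iface
import Pool.Agent.MP_17e62b_gt.H14.PDefs

attribute [-instance] IsScalarTower.complexToReal RightPreLieAlgebra.toModule RKHS.instFunLike
  LeftPreLieAlgebra.toModule instCoeTCOfCoe ProperSMul.toContinuousSMul AddQuantale.instAddLeftMono
  NonUnitalNonAssocRing.toAddCommGroup LieRinehartAlgebra.toIsScalarTower Valued.toUniformSpace
  NonarchimedeanAddGroup.toIsTopologicalAddGroup NumberField.to_charZero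
  NonUnitalNonAssocSemiring.toDistrib IsTopologicalTorsor.toContinuousSMul
  Action.FintypeCat.instMulActionObjFiniteOf CommRing.toRing DivisionRing.toRing
  continuousSub_of_discreteTopology littleWedderburn Group.IsPerfect.subsingleton_of_isMulCommutative
  ContinuousMonoidHom.instCoeOutOfMonoidHomClassOfContinuousMapClass TotallySeparatedSpace.t2Space
  NonUnitalNormedRing.toNonUnitalSeminormedRing AddQuantale.instAddRightMono
  CoalgHomClass.toSemilinearMapClass IdemSemiring.toCanonicallyOrderedAdd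
  LinearOrderedCommMonoidWithZero.toPosMulStrictMono CStarAlgebra.toNormedRing
  instCoeHTCOfCoeHeadOfCoeOTC NonUnitalRing.toNonUnitalNonAssocRing instCoeTOfCoeDep
  NonUnitalAlgSemiHomClass.toDistribMulActionSemiHomClass TestFunctionClass.toDFunLike
  ESeminormedAddMonoid.toAddMonoid MulSemiringAction.toDistribMulAction
  IsAffineAddMonoid.toIsCancelAdd LieRing.toAddCommGroup Invertible.toNeZero NeZero.of_gt'
  AlexandrovDiscrete.locallyPathConnectedSpace Quantale.instMulRightMono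
  NonUnitalNormedCommRing.toNonUnitalSeminormedCommRing instSMulZeroClass
  NonAssocSemiring.toAddCommMonoidWithOne ContDiffMapSupportedInClass.toDFunLike
  AddCommGroupWithOne.toAddGroupWithOne SemilinearIsometryClass.toSemilinearMapClass
  ESeminormedAddCommMonoid.toAddCommMonoid NormedCommRing.toCommRing
  CStarAlgebra.instOrderClosedTopology NonAssocSemiring.toNonUnitalNonAssocSemiring
  IdemSemiring.toSemiring Torsor.toMulAction FiniteDimensional.rclike_to_real instCoeTC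
  instCoeOutOfCoeFun LieAdmissibleRing.toNonUnitalNonAssocRing
  ContinuousAddMonoidHom.instCoeOutOfAddMonoidHomClassOfContinuousMapClass
  NormedRing.toSeminormedRing RingHomClass.toLinearMapClassNNRat AddCommMonoidWithOne.toAddCommMonoid
  NonUnitalNormedCommRing.toNonUnitalCommRing Algebra.complexToReal
  continuousSub_of_indiscreteTopology Ring.toAddCommGroup
  IsValuativeTopology.instIsTopologicalAddGroup NonarchimedeanRing.toIsTopologicalRing
  NonUnitalNonAssocCommSemiring.toNonUnitalNonAssocSemiring RingHomClass.toLinearMapClassRat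
  SeminormedCommRing.toCommRing NonAssocRing.toNonUnitalNonAssocRing instIsModuleTopology

/-! The micro chain of a map with the maximum principle. -/

namespace Pool.Agent.MP_17e62b_gt.H14

open Set Filter Topology Metric
open scoped BigOperators

/-- The data of a micro chain: a finite net `S` of `C` and a cell `Ω a` for each point of it. -/
structure Micro {E : Type} [NormedAddCommGroup E] [NormedSpace ℝ E] (C : Set ℂ) (f : ℂ → E)
    (r β η : ℝ) (S : Finset ℂ) (Ω : ℂ → Set ℂ) : Prop where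
  pos : 0 < η
  sub : ∀ s ∈ S, s ∈ C
  net : ∀ y ∈ C, ∃ s ∈ S, ‖y - s‖ < η
  cell_sub : ∀ a ∈ S, Ω a ⊆ C
  joined : ∀ a ∈ S, ∀ y ∈ Ω a, JoinedIn (Ω a) a y
  osc : ∀ a ∈ S, ∀ y ∈ Ω a, ‖f y - f a‖ ≤ 3 * r
  near : ∀ a ∈ S, ∀ y ∈ C, ‖y - a‖ < 4 * η → y ∈ Ω a
  seen : ∀ a ∈ S, ∀ y ∈ Ω a, ∃ s ∈ S, s ∈ Ω a ∧ ‖y - s‖ < 5 * η
  step : ∀ a ∈ S, (∃ y ∈ Ω a, y ∈ frontier C) ∨ ∃ p : S → ℝ, (∀ s, 0 ≤ p s) ∧ ∑ s, p s = 1 ∧
    (∀ s, p s ≠ 0 → (s : ℂ) ∈ Ω a ∧ r ≤ ‖f s - f a‖) ∧ ‖∑ s, p s • f s - f a‖ ≤ β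

/-- The component of `a` in the part of the interior of `C` where `f` is within `ρ` of `f a`. -/
def comp {E : Type} [NormedAddCommGroup E] (C : Set ℂ) (f : ℂ → E) (ρ : ℝ) (a : ℂ) : Set ℂ :=
  connectedComponentIn {y | y ∈ interior C ∧ ‖f y - f a‖ < ρ} a

/-- U1. Hint: a component of an open set is open (`IsOpen.connectedComponentIn`) and its frontier
misses the open set. The frontier of the bounded non-empty set `comp` is compact and non-empty;
apply `MP` with `c` the maximum of `l ∘ f` on it. -/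
theorem comp_exit {E : Type} [NormedAddCommGroup E] [NormedSpace ℝ E] {C : Set ℂ}
    (hC : IsCompact C) {f : ℂ → E} (hf : Continuous f)
    (hMP : ∀ l : E →L[ℝ] ℝ, MP (interior C) fun z => l (f z)) {ρ : ℝ} (hρ : 0 < ρ) {a : ℂ}
    (ha : a ∈ interior C) (hcl : closure (comp C f ρ a) ⊆ interior C) (l : E →L[ℝ] ℝ) :
    ∃ z ∈ closure (comp C f ρ a), ‖f z - f a‖ = ρ ∧ l (f a) ≤ l (f z) := by
  set U : Set ℂ := {y | y ∈ interior C ∧ ‖f y - f a‖ < ρ} with hU
  have hUo : IsOpen U :=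
    isOpen_interior.inter (isOpen_lt (f := fun y => ‖f y - f a‖) (by fun_prop) continuous_const)
  have hVo : IsOpen (comp C f ρ a) := hUo.connectedComponentIn
  have haV : a ∈ comp C f ρ a := mem_connectedComponentIn ⟨ha, by simpa using hρ⟩
  have hVc : IsCompact (closure (comp C f ρ a)) :=
    hC.of_isClosed_subset isClosed_closure (hcl.trans interior_subset)
  have hFc : IsCompact (frontier (comp C f ρ a)) :=
    hVc.of_isClosed_subset isClosed_frontier frontier_subset_closure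
  have hFn : (frontier (comp C f ρ a)).Nonempty := by
    rw [nonempty_frontier_iff]
    refine ⟨⟨a, haV⟩, fun h => ?_⟩
    rw [h, closure_univ] at hVc
    exact noncompact_univ ℂ hVc
  obtain ⟨z, hz, hmax⟩ := hFc.exists_isMaxOn hFn (f := fun z => l (f z)) (by fun_prop)
  have hzc : z ∈ closure (comp C f ρ a) := frontier_subset_closure hz
  refine ⟨z, hzc, ?_, hMP l _ hVo hVc hcl (l (f z)) (fun x hx => hmax hx) a haV⟩
  have hle : ‖f z - f a‖ ≤ ρ := by
    have h1 : closure (comp C f ρ a) ⊆ {y | ‖f y - f a‖ ≤ ρ} :=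
      closure_minimal (fun y hy => (connectedComponentIn_subset _ _ hy).2.le)
        (isClosed_le (by fun_prop) continuous_const)
    exact h1 hzc
  refine le_antisymm hle (not_lt.mp fun hlt => ?_)
  have hzU : z ∈ U := ⟨hcl hzc, hlt⟩
  obtain ⟨w, hw1, hw2⟩ := mem_closure_iff.mp hzc _ (hUo.connectedComponentIn (x := z))
    (mem_connectedComponentIn hzU)
  have e1 := connectedComponentIn_eq hw1
  have e2 : connectedComponentIn U a = connectedComponentIn U w := connectedComponentIn_eq hw2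
  have hzV : z ∈ comp C f ρ a := by
    change z ∈ connectedComponentIn U a
    rw [e2, ← e1]
    exact mem_connectedComponentIn hzU
  rw [hVo.frontier_eq] at hz
  exact hz.2 hzV

/-- U2. Hint: take `η` with `‖f y - f z‖ ≤ min r β` for `y, z ∈ C`, `‖y - z‖ < 4 η`, and
`Ω a = {y ∈ C | ∃ v ∈ insert a (comp C f (2 r) a), ‖y - v‖ < 4 η}`. `comp` is open and connected,
hence path connected; segments inside `C ∩ ball v (4 η)` lie in `Ω a`. If `a` is interior and the
closure of `comp` lies in the interior, use `comp_exit` and `hull_approx`; otherwise a point of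
`frontier C` lies in `insert a (closure comp)`. -/
theorem exists_micro {E : Type} [NormedAddCommGroup E] [NormedSpace ℝ E] {C : Set ℂ}
    (hC : IsCompact C) (hCc : Convex ℝ C) {f : ℂ → E} (hf : Continuous f)
    (hMP : ∀ l : E →L[ℝ] ℝ, MP (interior C) fun z => l (f z)) {r β : ℝ} (hr : 0 < r)
    (hβ : 0 < β) : ∃ η S Ω, Micro C f r β η S Ω := by
  classical
  obtain ⟨δ, hδ, hu⟩ := Metric.uniformContinuousOn_iff.mp
    (hC.uniformContinuousOn_of_continuous hf.continuousOn) (min r β) (lt_min hr hβ)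
  set η := δ / 4 with hη
  have hηp : 0 < η := by positivity
  have hu' : ∀ y ∈ C, ∀ z ∈ C, ‖y - z‖ < 4 * η → ‖f y - f z‖ < min r β := fun y hy z hz h => by
    rw [← dist_eq_norm]
    exact hu y hy z hz (by rw [dist_eq_norm]; linarith)
  obtain ⟨t, htC, htf, hcov⟩ := finite_cover_balls_of_compact hC hηp
  have hnet : ∀ y ∈ C, ∃ s ∈ htf.toFinset, ‖y - s‖ < η := fun y hy => by
    obtain ⟨s, hs, hys⟩ := mem_iUnion₂.mp (hcov hy)
    exact ⟨s, htf.mem_toFinset.mpr hs, mem_ball_iff_norm.mp hys⟩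
  have hsub : ∀ s ∈ htf.toFinset, s ∈ C := fun s hs => htC (htf.mem_toFinset.mp hs)
  have hcompC : ∀ a, comp C f (2 * r) a ⊆ C := fun a y hy =>
    interior_subset (connectedComponentIn_subset _ _ hy).1
  have hvC : ∀ a ∈ C, ∀ v ∈ insert a (comp C f (2 * r) a), v ∈ C := fun a ha v hv => by
    rcases hv with rfl | hv
    · exact ha
    · exact hcompC a hv
  refine ⟨η, htf.toFinset,
    fun a => {y | y ∈ C ∧ ∃ v ∈ insert a (comp C f (2 * r) a), ‖y - v‖ < 4 * η},
    hηp, hsub, hnet, fun a _ y hy => hy.1, ?_, ?_, ?_, ?_, ?_⟩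
  · rintro a ha y ⟨hyC, v, hv, hyv⟩
    have hvC' := hvC a (hsub a ha) v hv
    have h2 : JoinedIn {y | y ∈ C ∧ ∃ v ∈ insert a (comp C f (2 * r) a), ‖y - v‖ < 4 * η} v y := by
      refine JoinedIn.of_segment_subset fun w hw => ⟨hCc.segment_subset hvC' hyC hw, v, hv, ?_⟩
      exact mem_ball_iff_norm.mp ((convex_ball v (4 * η)).segment_subset
        (mem_ball_self (by positivity)) (mem_ball_iff_norm.mpr hyv) hw)
    refine JoinedIn.trans ?_ h2
    rcases hv with rfl | hv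
    · exact JoinedIn.refl ⟨hvC', v, mem_insert _ _, by simpa using hηp⟩
    · have hUo : IsOpen {y | y ∈ interior C ∧ ‖f y - f a‖ < 2 * r} :=
        isOpen_interior.inter
          (isOpen_lt (f := fun y => ‖f y - f a‖) (by fun_prop) continuous_const)
      have haU := connectedComponentIn_nonempty_iff.mp ⟨v, hv⟩
      have hpc : IsPathConnected (comp C f (2 * r) a) :=
        (hUo.connectedComponentIn.isConnected_iff_isPathConnected).mp
          (isConnected_connectedComponentIn_iff.mpr haU)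
      exact (hpc.joinedIn a (mem_connectedComponentIn haU) v hv).mono fun w hw =>
        ⟨hcompC a hw, w, mem_insert_of_mem _ hw, by simpa using hηp⟩
  · rintro a ha y ⟨hyC, v, hv, hyv⟩
    have h1 := (hu' y hyC v (hvC a (hsub a ha) v hv) hyv).trans_le (min_le_left _ _)
    have h2 : ‖f v - f a‖ ≤ 2 * r := by
      rcases hv with rfl | hv
      · simp only [sub_self, norm_zero]; positivity
      · exact (connectedComponentIn_subset _ _ hv).2.le
    have h3 := norm_sub_le_norm_sub_add_norm_sub (f y) (f v) (f a)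
    linarith only [h1, h2, h3]
  · intro a _ y hy h
    exact ⟨hy, a, mem_insert _ _, h⟩
  · rintro a ha y ⟨hyC, v, hv, hyv⟩
    obtain ⟨s, hs, hvs⟩ := hnet v (hvC a (hsub a ha) v hv)
    refine ⟨s, hs, ⟨hsub s hs, v, hv, ?_⟩, ?_⟩
    · rw [norm_sub_rev]; linarith
    · have h3 := norm_sub_le_norm_sub_add_norm_sub y v s
      linarith
  · intro a ha
    have haC := hsub a ha
    by_cases hai : a ∈ interior C
    swap
    · exact Or.inl ⟨a, ⟨haC, a, mem_insert _ _, by simpa using hηp⟩, subset_closure haC, hai⟩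
    by_cases hcl : closure (comp C f (2 * r) a) ⊆ interior C
    swap
    · obtain ⟨z, hz, hzi⟩ := not_subset.mp hcl
      have hzC : z ∈ C := closure_minimal (hcompC a) hC.isClosed hz
      obtain ⟨v, hv, hzv⟩ := Metric.mem_closure_iff.mp hz (4 * η) (by positivity)
      exact Or.inl ⟨z, ⟨hzC, v, mem_insert_of_mem _ hv, by rwa [← dist_eq_norm]⟩,
        subset_closure hzC, hzi⟩
    right
    refine hull_approx (fun s : htf.toFinset => f s)
      {s | ((s : ℂ) ∈ C ∧ ∃ v ∈ insert a (comp C f (2 * r) a), ‖(s : ℂ) - v‖ < 4 * η) ∧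
        r ≤ ‖f s - f a‖} (f a) hβ.le fun l hl => ?_
    obtain ⟨z, hz, hzr, hlz⟩ := comp_exit hC hf hMP (by positivity : 0 < 2 * r) hai hcl l
    have hzC : z ∈ C := interior_subset (hcl hz)
    obtain ⟨s, hs, hzs⟩ := hnet z hzC
    obtain ⟨v, hv, hzv⟩ := Metric.mem_closure_iff.mp hz η hηp
    rw [dist_eq_norm] at hzv
    have h1 := hu' z hzC s (hsub s hs) (by linarith only [hηp, hzs])
    have h1r := h1.trans_le (min_le_left _ _)
    have h1b := h1.trans_le (min_le_right _ _)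
    refine ⟨⟨s, hs⟩, ⟨⟨hsub s hs, v, mem_insert_of_mem _ hv, ?_⟩, ?_⟩, ?_⟩
    · have h3 := norm_sub_le_norm_sub_add_norm_sub s z v
      rw [norm_sub_rev s z] at h3
      change ‖s - v‖ < 4 * η
      linarith only [hηp, hzs, hzv, h3]
    · have h3 := norm_sub_le_norm_sub_add_norm_sub (f z) (f s) (f a)
      change r ≤ ‖f s - f a‖
      linarith only [hzr, h1r, h3]
    · have h3 : l (f z - f s) ≤ ‖f z - f s‖ :=
        (le_abs_self _).trans ((l.le_opNorm _).trans (mul_le_of_le_one_left (norm_nonneg _) hl))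
      rw [map_sub] at h3
      change l (f a) - β ≤ l (f s)
      linarith only [hlz, h1b, h3]

/-- U3. A partition of unity. Hint: `a s y = max 0 (η - ‖y - s‖)`, divided by the sum. -/
theorem exists_pou {C : Set ℂ} {η : ℝ} {S : Finset ℂ} (hnet : ∀ y ∈ C, ∃ s ∈ S, ‖y - s‖ < η) :
    ∃ lam : S → ℂ → ℝ, (∀ s, ContinuousOn (lam s) C) ∧ (∀ s, ∀ y ∈ C, 0 ≤ lam s y) ∧
      (∀ y ∈ C, ∑ s, lam s y = 1) ∧ ∀ s, ∀ y ∈ C, lam s y ≠ 0 → ‖y - s‖ < η := by
  have hpos : ∀ y ∈ C, 0 < ∑ s : S, max 0 (η - ‖y - s‖) := fun y hy => by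
    obtain ⟨s, hs, hys⟩ := hnet y hy
    exact Finset.sum_pos' (fun _ _ => le_max_left _ _)
      ⟨⟨s, hs⟩, Finset.mem_univ _, lt_max_of_lt_right (sub_pos.mpr hys)⟩
  refine ⟨fun s y => max 0 (η - ‖y - s‖) / ∑ s : S, max 0 (η - ‖y - s‖), fun s => ?_,
    fun s y hy => div_nonneg (le_max_left _ _) (hpos y hy).le, fun y hy => ?_, fun s y _ h => ?_⟩
  · exact ContinuousOn.div (by fun_prop) (by fun_prop) fun y hy => (hpos y hy).ne'
  · rw [← Finset.sum_div, div_self (hpos y hy).ne']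
  · by_contra hn
    apply h
    simp only
    rw [max_eq_left (by linarith [not_lt.mp hn]), zero_div]

/-- U4. Interpolation of node values that are `κ`-close on common cells. Hint: `W y = ∑ s, lam s y •
Z s`. If `‖y - s₀‖ < 5 η` and `‖y - s‖ < η`, a net point `s'` within `η` of the midpoint of `s`,
`s₀` is within `4 η` of both, so `‖Z s - Z s₀‖ ≤ 2 κ` (`near`); then use `seen`. -/
theorem Micro.interp {E X : Type} [NormedAddCommGroup E] [NormedSpace ℝ E] [NormedAddCommGroup X]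
    [NormedSpace ℝ X] {C : Set ℂ} (hCc : Convex ℝ C) {f : ℂ → E} {r β η : ℝ} {S : Finset ℂ}
    {Ω : ℂ → Set ℂ} (h : Micro C f r β η S Ω) {Z : S → X} {κ : ℝ}
    (hZ : ∀ a a' : S, (∃ b ∈ S, (a : ℂ) ∈ Ω b ∧ (a' : ℂ) ∈ Ω b) → ‖Z a - Z a'‖ ≤ κ)
    {H : Set X} (hH : Convex ℝ H) (hZH : ∀ a, Z a ∈ H) :
    ∃ W : ℂ → X, ContinuousOn W C ∧ (∀ y ∈ C, W y ∈ H) ∧
      ∀ b ∈ S, ∀ a : S, (a : ℂ) ∈ Ω b → ∀ y ∈ Ω b, ‖W y - Z a‖ ≤ 3 * κ := by
  obtain ⟨lam, hc, h0, h1, hs⟩ := exists_pou h.net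
  refine ⟨fun y => ∑ s, lam s y • Z s,
    continuousOn_finsetSum _ fun s _ => (hc s).smul continuousOn_const,
    fun y hy => hH.sum_mem (fun s _ => h0 s y hy) (h1 y hy) fun s _ => hZH s, ?_⟩
  intro b hb a ha y hy
  have hyC := h.cell_sub b hb hy
  obtain ⟨s₀, hs₀, hs₀b, hys₀⟩ := h.seen b hb y hy
  have k1 : ‖Z ⟨s₀, hs₀⟩ - Z a‖ ≤ κ := hZ ⟨s₀, hs₀⟩ a ⟨b, hb, hs₀b, ha⟩
  have hκ : 0 ≤ κ := (norm_nonneg _).trans k1
  have key : ∀ s : S, lam s y ≠ 0 → ‖Z s - Z a‖ ≤ 3 * κ := fun s hne => by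
    have hys := hs s y hyC hne
    have hm : midpoint ℝ (s : ℂ) s₀ ∈ C := hCc.midpoint_mem (h.sub s s.2) (h.sub s₀ hs₀)
    obtain ⟨s', hs', hms⟩ := h.net _ hm
    have d0 : dist (s : ℂ) s₀ < 6 * η := by
      have := dist_triangle_left (s : ℂ) s₀ y
      rw [dist_eq_norm y, dist_eq_norm y] at this
      linarith
    have d1 : dist (s : ℂ) (midpoint ℝ (s : ℂ) s₀) = dist (s : ℂ) s₀ / 2 := by
      rw [dist_left_midpoint]; simp [div_eq_inv_mul]
    have d2 : dist s₀ (midpoint ℝ (s : ℂ) s₀) = dist (s : ℂ) s₀ / 2 := by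
      rw [dist_right_midpoint]; simp [div_eq_inv_mul]
    rw [← dist_eq_norm] at hms
    have m1 : (s : ℂ) ∈ Ω s' := h.near s' hs' s (h.sub s s.2) (by
      rw [← dist_eq_norm]
      linarith only [dist_triangle (s : ℂ) (midpoint ℝ (s : ℂ) s₀) s', hms, d0, d1])
    have m2 : s₀ ∈ Ω s' := h.near s' hs' s₀ (h.sub s₀ hs₀) (by
      rw [← dist_eq_norm]
      linarith [dist_triangle s₀ (midpoint ℝ (s : ℂ) s₀) s'])
    have k2 : ‖Z s - Z ⟨s₀, hs₀⟩‖ ≤ κ := hZ s ⟨s₀, hs₀⟩ ⟨s', hs', m1, m2⟩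
    linarith only [norm_sub_le_norm_sub_add_norm_sub (Z s) (Z ⟨s₀, hs₀⟩) (Z a), k1, hκ, k2]
  have e : ∑ s, lam s y • Z s - Z a = ∑ s, lam s y • (Z s - Z a) := by
    simp only [smul_sub, Finset.sum_sub_distrib, ← Finset.sum_smul, h1 y hyC, one_smul]
  change ‖∑ s, lam s y • Z s - Z a‖ ≤ 3 * κ
  rw [e]
  calc ‖∑ s, lam s y • (Z s - Z a)‖ ≤ ∑ s, lam s y * (3 * κ) := by
        refine norm_sum_le_of_le _ fun s _ => ?_
        rw [norm_smul, Real.norm_of_nonneg (h0 s y hyC)]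
        by_cases hne : lam s y = 0
        · simp [hne]
        · exact mul_le_mul_of_nonneg_left (key s hne) (h0 s y hyC)
    _ = 3 * κ := by rw [← Finset.sum_mul, h1 y hyC, one_mul]

end Pool.Agent.MP_17e62b_gt.H14

/-! A saddle map on a convex set can be augmented, with any boundary values, to an almost saddle
map. -/

namespace Pool.Agent.MP_17e62b_gt.H14

open Set Filter Topology Metric
open scoped BigOperators

theorem aug_core_const {M K δ : ℝ} (hM : 0 < M) (hK : 0 ≤ K) (hδ : 0 < δ) :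
    ∃ r β : ℝ, 0 < r ∧ 0 < β ∧ 4 * M * β ≤ r ^ 2 ∧
      6 * r + (6 * r * K + 2 * β / r ^ 2 * (M ^ 2 + 2 * M * (6 * r) * K)) ≤ δ / 2 := by
  obtain ⟨r, hr, h1⟩ : ∃ r : ℝ, 0 < r ∧ 6 * r + 6 * r * K = δ / 4 :=
    ⟨δ / (24 * (1 + K)), by positivity, by field_simp; ring⟩
  have hQ : 0 < M ^ 2 + 2 * M * (6 * r) * K := by positivity
  set Q := M ^ 2 + 2 * M * (6 * r) * K
  refine ⟨r, min (r ^ 2 / (4 * M)) (δ * r ^ 2 / (8 * Q)), hr, by positivity, ?_, ?_⟩
  · have := min_le_left (r ^ 2 / (4 * M)) (δ * r ^ 2 / (8 * Q))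
    rw [le_div_iff₀ (by positivity)] at this
    linarith only [this]
  · have := min_le_right (r ^ 2 / (4 * M)) (δ * r ^ 2 / (8 * Q))
    rw [le_div_iff₀ (by positivity)] at this
    have h2 : 2 * min (r ^ 2 / (4 * M)) (δ * r ^ 2 / (8 * Q)) / r ^ 2 * Q ≤ δ / 4 := by
      rw [div_mul_eq_mul_div, div_le_iff₀ (by positivity)]
      linarith only [this]
    linarith

theorem aug_core_step {E : Type} [NormedAddCommGroup E] [NormedSpace ℝ E] {C : Set ℂ}
    (hF : (frontier C).Nonempty) {f : ℂ → E} {r β η : ℝ} {S : Finset ℂ} {Ω : ℂ → Set ℂ}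
    (h : Micro C f r β η S Ω) (a : S) :
    ∃ y ∈ frontier C, ∃ q : S ⊕ S → ℝ, (∀ n, 0 ≤ q n) ∧ ∑ n, q n = 1 ∧
      ((y ∈ Ω a ∧ ∀ n, 0 < q n → n = Sum.inr a) ∨
        ((∀ g : S → E, ‖∑ n, q n • (Sum.elim (fun s : S => f s) g n - f a)‖ ≤ β) ∧
          ∀ n, 0 < q n → ∃ s : S, n = Sum.inl s ∧ (s : ℂ) ∈ Ω a ∧ r ≤ ‖f s - f a‖)) := by
  classical
  rcases h.step a a.2 with ⟨y, hy, hy'⟩ | ⟨p, hp0, hp1, hp, hβ⟩
  · refine ⟨y, hy', fun n => if n = Sum.inr a then 1 else 0, fun n => by positivity, by simp only [Finset.sum_ite_eq', Finset.mem_univ, ↓ reduceIte],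
      Or.inl ⟨hy, fun n hn => ?_⟩⟩
    by_contra h0
    simp [h0] at hn
  · obtain ⟨y, hy⟩ := hF
    refine ⟨y, hy, Sum.elim p fun _ => 0, ?_, by simpa only [Fintype.sum_sum_type, Finset.univ_eq_attach, Sum.elim_inl, Sum.elim_inr, Finset.sum_const_zero, add_zero] using hp1, Or.inr ⟨fun g => ?_, ?_⟩⟩
    · rintro (s | s)
      · exact hp0 s
      · exact le_rfl
    · simp only [Fintype.sum_sum_type, Sum.elim_inl, Sum.elim_inr, zero_smul,
        Finset.sum_const_zero, add_zero, smul_sub, Finset.sum_sub_distrib, ← Finset.sum_smul, hp1,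
        one_smul]
      exact hβ
    · rintro (s | s) hn
      · exact ⟨s, rfl, hp s (ne_of_gt hn)⟩
      · exact absurd hn (lt_irrefl _)

/-- A1. Hint: `κ = δ / 6`; `M` bounds `f` on `C`; choose `r`, then `β`, so that with `ρ = 6 r` the
error `e` of `mix` satisfies `6 r + e ≤ δ / 2`. Nodes `S ⊕ S`, `B = range inr`. If the cell of `a`
meets the frontier, `y a` is such a point and `inl a` jumps to `inr a` at rate one; otherwise `y a`
is any point of the frontier and `inl a` jumps to `inl s` at rate `p s`. `Φ (inl a) = f a`,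
`Φ (inr a) = f (y a)`, data `ω (y a)`; `nb (inl a) (inl a')` if `a`, `a'` lie in one cell. `W` comes
from `Micro.interp` for `Z = harm R B ω` (`harm_mem`). The function
`u a = l (harm R B Φ a, Z a)` is harmonic (`gen_map`); follow the chain of `asc` from a net point
near `x`: each jump stays in one cell `Ω b`, on which `l (f z, W z) ≥ u a - δ / 2`. -/
theorem aug_core {E X : Type} [NormedAddCommGroup E] [InnerProductSpace ℝ E]
    [NormedAddCommGroup X] [InnerProductSpace ℝ X] [FiniteDimensional ℝ X] {C : Set ℂ}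
    (hC : IsCompact C) (hCc : Convex ℝ C) (hne : C.Nonempty) {f : ℂ → E} (hf : Continuous f)
    (hMP : ∀ l : E →L[ℝ] ℝ, MP (interior C) fun z => l (f z)) {ω : ℂ → X} {D : ℝ}
    (hω : ∀ y ∈ frontier C, ‖ω y‖ ≤ D) {δ : ℝ} (hδ : 0 < δ) :
    ∃ W : ℂ → X, ContinuousOn W C ∧ (∀ x ∈ C, W x ∈ convexHull ℝ (ω '' frontier C)) ∧
      ∀ x ∈ C, ∀ l : E × X →L[ℝ] ℝ, ‖l‖ ≤ 1 → ∃ y ∈ frontier C,
        l (f x, W x) - δ ≤ l (f y, ω y) ∧
          JoinedIn {z | z ∈ C ∧ l (f x, W x) - δ ≤ l (f z, W z)} x y := by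
  have hF : (frontier C).Nonempty := nonempty_frontier_iff.2 ⟨hne, hC.ne_univ⟩
  have hFC : frontier C ⊆ C := hC.isClosed.frontier_subset
  obtain ⟨M₀, hM₀⟩ := hC.exists_bound_of_continuousOn hf.continuousOn
  have hM : ∀ x ∈ C, ‖f x‖ ≤ max M₀ 1 := fun x hx => (hM₀ x hx).trans (le_max_left _ _)
  have hMp : 0 < max M₀ 1 := one_pos.trans_le (le_max_right _ _)
  obtain ⟨r, β, hr, hβ, hβr, herr⟩ :=
    aug_core_const (K := 1 + 4 * D ^ 2 / (δ / 6) ^ 2) hMp (by positivity) hδ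
  obtain ⟨η, S, Ω, hm⟩ := exists_micro hC hCc hf hMP hr hβ
  choose y hy q hq0 hq1 hq using aug_core_step hF hm
  have self : ∀ a : S, (a : ℂ) ∈ Ω a := fun a =>
    hm.near a a.2 a (hm.sub a a.2) (by simpa using hm.pos)
  have osc : ∀ b ∈ S, ∀ z ∈ Ω b, ∀ z' ∈ Ω b, ‖f z - f z'‖ ≤ 6 * r := fun b hb z hz z' hz' => by
    have := norm_sub_le_norm_sub_add_norm_sub (f z) (f b) (f z')
    rw [norm_sub_rev (f b)] at this
    linarith only [hm.osc b hb z hz, hm.osc b hb z' hz', this]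
  have notB : ∀ n : S ⊕ S, n ∉ range (Sum.inr : S → S ⊕ S) → ∃ a, n = Sum.inl a := by
    rintro (a | a) hn
    · exact ⟨a, rfl⟩
    · exact absurd ⟨a, rfl⟩ hn
  set Φ : S ⊕ S → E := Sum.elim (fun s : S => f s) fun s => f (y s) with hΦ
  set ω' : S ⊕ S → X := Sum.elim (fun s => ω (y s)) fun s => ω (y s) with hω'
  set B : Set (S ⊕ S) := range Sum.inr with hB
  obtain ⟨R, hR, hA, hRP, hZ, hH⟩ := mix (P := Sum.elim q fun _ _ => 0) (B := B)
    (nb := fun n n' => ∃ a a' : S, n = Sum.inl a ∧ n' = Sum.inl a' ∧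
      ∃ b ∈ S, (a : ℂ) ∈ Ω b ∧ (a' : ℂ) ∈ Ω b) (Φ := Φ) (ω := ω') (M := max M₀ 1) (D := D)
    (ρ := 6 * r) (r := r) (β := β) (κ := δ / 6)
    (by
      rintro (a | a) n
      · exact hq0 a n
      · exact le_rfl)
    (fun n hn => by
      obtain ⟨a, rfl⟩ := notB n hn
      exact hq1 a)
    (by
      rintro _ _ ⟨a, a', rfl, rfl, b, hb, h1, h2⟩
      exact ⟨a', a, rfl, rfl, b, hb, h2, h1⟩)
    (by
      rintro _ _ ⟨a, a', rfl, rfl, -⟩ ⟨c, hc⟩
      cases hc)
    (by
      rintro _ _ ⟨a, a', rfl, rfl, b, hb, h1, h2⟩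
      exact osc b hb _ h1 _ h2)
    (fun n hn => by
      obtain ⟨a, rfl⟩ := notB n hn
      rcases hq a with ⟨h1, h2⟩ | ⟨h1, h2⟩
      · refine Or.inl fun n hn => ?_
        rw [h2 n hn]
        exact ⟨⟨a, rfl⟩, osc a a.2 _ h1 _ (self a)⟩
      · refine Or.inr ⟨h1 _, fun n hn => ?_⟩
        obtain ⟨s, rfl, -, hs⟩ := h2 n hn
        exact hs)
    (by
      rintro (a | a)
      · exact hM _ (hm.sub a a.2)
      · exact hM _ (hFC (hy a)))
    (by
      rintro _ ⟨a, rfl⟩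
      exact hω _ (hy a))
    hr (by positivity) (by positivity) hβ.le hβr
  obtain ⟨W, hWc, hWH, hW⟩ := hm.interp hCc (Z := fun a => harm R B ω' (Sum.inl a)) (κ := δ / 6)
    (fun a a' h => hZ _ _ ⟨a, a', rfl, rfl, h⟩) (convex_convexHull ℝ (ω '' frontier C))
    (fun a => harm_mem hR hA (fun n hn => harm_gen hR hA ω' hn) (convex_convexHull ℝ _)
      (by
        rintro _ ⟨c, rfl⟩
        rw [harm_bd hR hA ω' ⟨c, rfl⟩]
        exact subset_convexHull ℝ _ ⟨y c, hy c, rfl⟩) _)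
  refine ⟨W, hWc, hWH, fun x hx l hl => ?_⟩
  set u : S ⊕ S → ℝ := fun n => l (harm R B Φ n, harm R B ω' n) with hu
  have hgen : ∀ n, n ∉ B → 0 ≤ gen R u n := fun n hn => by
    have h1 := gen_map R (fun n => (harm R B Φ n, harm R B ω' n)) l.toLinearMap n
    have h2 : gen R (fun n => (harm R B Φ n, harm R B ω' n)) n = 0 := by
      refine Prod.ext ?_ ?_
      · simpa only [gen, Prod.mk_sub_mk, Prod.smul_mk, Fintype.sum_sum_type, Finset.univ_eq_attach, Prod.fst_add, Prod.fst_sum, Prod.fst_zero] using harm_gen hR hA Φ hn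
      · simpa only [gen, Prod.mk_sub_mk, Prod.smul_mk, Fintype.sum_sum_type, Finset.univ_eq_attach, Prod.snd_add, Prod.snd_sum, Prod.snd_zero] using harm_gen hR hA ω' hn
    rw [h2, map_zero] at h1
    exact h1.ge
  have close : ∀ b ∈ S, ∀ a : S, (a : ℂ) ∈ Ω b → ∀ z ∈ Ω b,
      |l (f z, W z) - u (Sum.inl a)| ≤ δ / 2 := fun b hb a ha z hz => by
    rw [hu, ← map_sub, ← Real.norm_eq_abs]
    refine (l.le_opNorm _).trans ((mul_le_of_le_one_left (norm_nonneg _) hl).trans ?_)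
    rw [Prod.mk_sub_mk, Prod.norm_mk]
    refine max_le ?_ (by linarith only [hW b hb a ha z hz])
    have h1 := norm_sub_le_norm_sub_add_norm_sub (f z) (f a) (harm R B Φ (Sum.inl a))
    have h2 : ‖harm R B Φ (Sum.inl a) - f a‖ ≤ _ := hH (Sum.inl a)
    rw [norm_sub_rev] at h2
    linarith [osc b hb z hz a ha]
  obtain ⟨a₀, ha₀, hxa⟩ := hm.net x hx
  have hx₀ : x ∈ Ω a₀ := hm.near a₀ ha₀ x hx (by linarith only [hm.pos, hxa])
  have h₀ := (abs_le.1 (close a₀ ha₀ ⟨a₀, ha₀⟩ (self ⟨a₀, ha₀⟩) x hx₀)).2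
  have cell : ∀ b ∈ S, ∀ a : S, (a : ℂ) ∈ Ω b → u (Sum.inl ⟨a₀, ha₀⟩) ≤ u (Sum.inl a) →
      ∀ z ∈ Ω b, JoinedIn {z | z ∈ C ∧ l (f x, W x) - δ ≤ l (f z, W z)} a z :=
    fun b hb a ha hle z hz =>
      ((hm.joined b hb a ha).symm.trans (hm.joined b hb z hz)).mono fun z' hz' =>
        ⟨hm.cell_sub b hb hz', by linarith only [(abs_le.1 (close b hb a ha z' hz')).1, h₀, hle]⟩
  obtain ⟨n, hnB, hle, hch⟩ := asc hR hA hgen (Sum.inl ⟨a₀, ha₀⟩)
  have hj : JoinedIn {z | z ∈ C ∧ l (f x, W x) - δ ≤ l (f z, W z)} x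
      (Sum.elim (fun s : S => (s : ℂ)) y n) := by
    clear hnB hle
    induction hch with
    | refl => exact (cell a₀ ha₀ ⟨a₀, ha₀⟩ (self ⟨a₀, ha₀⟩) le_rfl x hx₀).symm
    | tail _ hs ih =>
      obtain ⟨h1, h2, h3, -⟩ := hs
      obtain ⟨a, rfl⟩ := notB _ h1
      refine ih.trans ?_
      rcases hRP _ _ h2 with h4 | ⟨a', a'', e, rfl, b, hb, h5, h6⟩
      · rcases hq a with ⟨h7, h8⟩ | ⟨-, h8⟩
        · rw [h8 _ h4]
          exact cell a a.2 a (self a) h3 _ h7
        · obtain ⟨s, rfl, hs, -⟩ := h8 _ h4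
          exact cell a a.2 a (self a) h3 _ hs
      · cases e
        exact cell b hb a h5 h3 _ h6
  obtain ⟨c, rfl⟩ := hnB
  refine ⟨y c, hy c, ?_, hj⟩
  have e : u (Sum.inr c) = l (f (y c), ω (y c)) := by
    rw [hu]
    simp only
    rw [harm_bd hR hA Φ ⟨c, rfl⟩, harm_bd hR hA ω' ⟨c, rfl⟩]
    rfl
  linarith only [hδ, h₀, hle, e]

/-- Expands `θ • C` onto `C` and collapses the rest of `C` radially to the frontier. -/
noncomputable def ret (C : Set ℂ) (θ : ℝ) (x : ℂ) : ℂ := (max θ (gauge C x))⁻¹ • x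

/-- A2a. Hint: `continuous_gauge`. -/
theorem continuous_ret {C : Set ℂ} (hCc : Convex ℝ C) (h0 : C ∈ 𝓝 (0 : ℂ)) {θ : ℝ} (hθ : 0 < θ) :
    Continuous (ret C θ) := by
  have hg := continuous_gauge hCc h0
  refine Continuous.smul (Continuous.inv₀ (continuous_const.max hg) fun x => ?_) continuous_id
  exact (lt_of_lt_of_le hθ (le_max_left _ _)).ne'

/-- A2b. Hint: `gauge_smul_of_nonneg`, `gauge_le_one_iff_mem_closure`. -/
theorem ret_mem {C : Set ℂ} (hC : IsClosed C) (hCc : Convex ℝ C) (h0 : C ∈ 𝓝 (0 : ℂ)) {θ : ℝ}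
    (hθ : 0 < θ) (x : ℂ) : ret C θ x ∈ C := by
  have hm : 0 < max θ (gauge C x) := lt_of_lt_of_le hθ (le_max_left _ _)
  refine hC.closure_subset ((gauge_le_one_iff_mem_closure hCc h0).1 ?_)
  show gauge C ((max θ (gauge C x))⁻¹ • x) ≤ 1
  rw [gauge_smul_of_nonneg (inv_nonneg.2 hm.le), smul_eq_mul, inv_mul_le_iff₀ hm, mul_one]
  exact le_max_right _ _

/-- A2c. -/
theorem ret_close {C : Set ℂ} (hCc : Convex ℝ C) (h0 : C ∈ 𝓝 (0 : ℂ)) {θ : ℝ} (hθ : 0 < θ)
    (hθ1 : θ ≤ 1) {x : ℂ} (hx : x ∈ C) : ‖ret C θ x - x‖ ≤ (θ⁻¹ - 1) * ‖x‖ := by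
  have hm : 0 < max θ (gauge C x) := lt_of_lt_of_le hθ (le_max_left _ _)
  have h1 : max θ (gauge C x) ≤ 1 := max_le hθ1 (gauge_le_one_of_mem hx)
  have h2 : 1 ≤ (max θ (gauge C x))⁻¹ := (one_le_inv₀ hm).2 h1
  have h3 : (max θ (gauge C x))⁻¹ ≤ θ⁻¹ := inv_anti₀ hθ (le_max_left _ _)
  have h4 : ret C θ x - x = ((max θ (gauge C x))⁻¹ - 1) • x := by
    rw [sub_smul, one_smul]; rfl
  rw [h4, norm_smul, Real.norm_eq_abs, abs_of_nonneg (by linarith)]
  exact mul_le_mul_of_nonneg_right (by linarith only [h3]) (norm_nonneg _)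

/-- A2d. Hint: `gauge_eq_one_iff_mem_frontier`. -/
theorem ret_frontier {C : Set ℂ} (hCc : Convex ℝ C) (h0 : C ∈ 𝓝 (0 : ℂ)) {θ : ℝ} (hθ : 0 < θ)
    {y : ℂ} (hy : y ∈ frontier C) {s : ℝ} (hs : θ ≤ s) : ret C θ (s • y) = y := by
  have hs0 : 0 < s := hθ.trans_le hs
  have h1 : gauge C (s • y) = s := by
    rw [gauge_smul_of_nonneg hs0.le, (gauge_eq_one_iff_mem_frontier hCc h0).2 hy, smul_eq_mul,
      mul_one]
  rw [ret, h1, max_eq_right hs, smul_smul, inv_mul_cancel₀ hs0.ne', one_smul]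

/-- A3. The collar. Hint: `Z x = W (ret x) + τ x • (ω (ret x) - W (ret x))` with
`τ x = min 1 ((max θ (gauge C x) - θ) / (1 - θ))`. For `x = θ • x₀`, `x₀ ∈ C`, one has
`ret x = x₀`, `τ x = 0`: scale the path of `hW` by `θ` and add the segment from `θ • y` to `y`, on
which the value is affine. For `x = s • y`, `y ∈ frontier C`, `θ ≤ s ≤ 1`, walk along the ray to
the better end. -/
theorem aug_collar {E X : Type} [NormedAddCommGroup E] [NormedSpace ℝ E] [NormedAddCommGroup X]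
    [NormedSpace ℝ X] {C : Set ℂ} (hC : IsCompact C) (hCc : Convex ℝ C) (h0 : C ∈ 𝓝 (0 : ℂ))
    {f : ℂ → E} {ω W : ℂ → X} (hω : Continuous ω) (hWc : ContinuousOn W C) {H : Set X}
    (hH : Convex ℝ H) (hWH : ∀ x ∈ C, W x ∈ H) (hωH : ∀ y ∈ frontier C, ω y ∈ H) {δ θ : ℝ}
    (hδ : 0 ≤ δ) (hθ : 0 < θ) (hθ1 : θ < 1)
    (hW : ∀ x ∈ C, ∀ l : E × X →L[ℝ] ℝ, ‖l‖ ≤ 1 → ∃ y ∈ frontier C,
      l (f x, W x) - δ ≤ l (f y, ω y) ∧
        JoinedIn {z | z ∈ C ∧ l (f x, W x) - δ ≤ l (f z, W z)} x y) :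
    ∃ Z : ℂ → X, Continuous Z ∧ EqOn Z ω (frontier C) ∧ (∀ x ∈ C, Z x ∈ H) ∧
      HP C (frontier C) (fun x => (f (ret C θ x), Z x)) δ := by
  have hcl := hC.isClosed
  have h1θ : 0 < 1 - θ := by linarith
  have hFC : frontier C ⊆ C := hcl.frontier_subset
  have hz : (0 : ℂ) ∈ C := mem_of_mem_nhds h0
  set τ : ℂ → ℝ := fun x => min 1 ((max θ (gauge C x) - θ) / (1 - θ)) with hτ
  set Z : ℂ → X := fun x => W (ret C θ x) + τ x • (ω (ret C θ x) - W (ret C θ x)) with hZ
  have hr := continuous_ret hCc h0 hθ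
  have hWr : Continuous fun x => W (ret C θ x) :=
    hWc.comp_continuous hr (ret_mem hcl hCc h0 hθ)
  have hτc : Continuous τ :=
    continuous_const.min (((continuous_const.max (continuous_gauge hCc h0)).sub
      continuous_const).div_const _)
  have hsm : ∀ y ∈ C, ∀ s : ℝ, 0 ≤ s → s ≤ 1 → s • y ∈ C := fun y hy s h1 h2 =>
    hCc.smul_mem_of_zero_mem hz hy ⟨h1, h2⟩
  have hray : ∀ y ∈ frontier C, ∀ s : ℝ, θ ≤ s → s ≤ 1 →
      Z (s • y) = W y + ((s - θ) / (1 - θ)) • (ω y - W y) := by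
    intro y hy s h1 h2
    have hg : gauge C (s • y) = s := by
      rw [gauge_smul_of_nonneg (hθ.le.trans h1), (gauge_eq_one_iff_mem_frontier hCc h0).2 hy,
        smul_eq_mul, mul_one]
    have ht : τ (s • y) = (s - θ) / (1 - θ) := by
      simp only [hτ]
      rw [hg, max_eq_right h1, min_eq_right]
      rw [div_le_one h1θ]; linarith only [h2]
    simp only [hZ]
    rw [ret_frontier hCc h0 hθ hy h1, ht]
  have hin : ∀ z ∈ C, ret C θ (θ • z) = z ∧ Z (θ • z) = W z := by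
    intro z hzC
    have hg : gauge C (θ • z) ≤ θ := by
      rw [gauge_smul_of_nonneg hθ.le, smul_eq_mul]
      exact mul_le_of_le_one_right hθ.le (gauge_le_one_of_mem hzC)
    have h1 : ret C θ (θ • z) = z := by
      rw [ret, max_eq_left hg, smul_smul, inv_mul_cancel₀ hθ.ne', one_smul]
    refine ⟨h1, ?_⟩
    have ht : τ (θ • z) = 0 := by
      simp only [hτ]
      rw [max_eq_left hg, sub_self, zero_div, min_eq_right zero_le_one]
    simp only [hZ]
    rw [h1, ht, zero_smul, add_zero]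
  have hcase : ∀ x ∈ C, (∃ z ∈ C, x = θ • z) ∨
      ∃ y ∈ frontier C, ∃ s : ℝ, θ ≤ s ∧ s ≤ 1 ∧ x = s • y := by
    intro x hx
    rcases le_total (gauge C x) θ with h | h
    · refine Or.inl ⟨ret C θ x, ret_mem hcl hCc h0 hθ x, ?_⟩
      rw [ret, max_eq_left h, smul_smul, mul_inv_cancel₀ hθ.ne', one_smul]
    · have hp : 0 < gauge C x := hθ.trans_le h
      refine Or.inr ⟨(gauge C x)⁻¹ • x, ?_, gauge C x, h, gauge_le_one_of_mem hx, ?_⟩
      · rw [← gauge_eq_one_iff_mem_frontier hCc h0, gauge_smul_of_nonneg (inv_nonneg.2 hp.le),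
          smul_eq_mul, inv_mul_cancel₀ hp.ne']
      · rw [smul_smul, mul_inv_cancel₀ hp.ne', one_smul]
  refine ⟨Z, hWr.add (hτc.smul ((hω.comp hr).sub hWr)), fun y hy => ?_, fun x hx => ?_, ?_⟩
  · have := hray y hy 1 hθ1.le le_rfl
    rw [one_smul, div_self h1θ.ne', one_smul, add_sub_cancel] at this
    exact this
  · rcases hcase x hx with ⟨z, hzC, rfl⟩ | ⟨y, hy, s, h1, h2, rfl⟩
    · rw [(hin z hzC).2]; exact hWH z hzC
    · rw [hray y hy s h1 h2]
      refine hH.add_smul_sub_mem (hWH y (hFC hy)) (hωH y hy) ⟨div_nonneg (by linarith only [h1]) h1θ.le, ?_⟩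
      rw [div_le_one h1θ]; linarith
  · intro x hx l hl
    have hval : ∀ y ∈ frontier C, ∀ s : ℝ, θ ≤ s → s ≤ 1 →
        l (f (ret C θ (s • y)), Z (s • y)) =
          l (f y, W y) + ((s - θ) / (1 - θ)) * (l (f y, ω y) - l (f y, W y)) := by
      intro y hy s h1 h2
      rw [ret_frontier hCc h0 hθ hy h1, hray y hy s h1 h2, ← smul_eq_mul, ← map_sub, ← map_smul,
        ← map_add]
      congr 1
      ext <;> simp only [Prod.mk_sub_mk, sub_self, Prod.smul_mk, smul_zero, Prod.mk_add_mk, add_zero]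
    have hseg : ∀ y ∈ frontier C, ∀ c s t : ℝ, θ ≤ s → s ≤ 1 → θ ≤ t → t ≤ 1 →
        c ≤ l (f (ret C θ (s • y)), Z (s • y)) → c ≤ l (f (ret C θ (t • y)), Z (t • y)) →
        JoinedIn {z | z ∈ C ∧ c ≤ l (f (ret C θ z), Z z)} (s • y) (t • y) := by
      intro y hy c s t h1 h2 h3 h4 h5 h6
      refine JoinedIn.of_segment_subset ?_
      rintro _ ⟨u, v, hu, hv, huv, rfl⟩
      have e : u • s • y + v • t • y = (u * s + v * t) • y := by
        rw [add_smul, smul_smul, smul_smul]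
      have hv' : v = 1 - u := by linarith only [huv]
      have a1 : θ ≤ u * s + v * t := by
        have := mul_le_mul_of_nonneg_left h1 hu
        have := mul_le_mul_of_nonneg_left h3 hv
        have : u * θ + v * θ = θ := by rw [← add_mul, huv, one_mul]
        linarith
      have a2 : u * s + v * t ≤ 1 := by
        have := mul_le_mul_of_nonneg_left h2 hu
        have := mul_le_mul_of_nonneg_left h4 hv
        linarith
      rw [e]
      refine ⟨hsm y (hFC hy) _ (hθ.le.trans a1) a2, ?_⟩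
      rw [hval y hy _ h1 h2] at h5
      rw [hval y hy _ h3 h4] at h6
      rw [hval y hy _ a1 a2]
      have e2 : l (f y, W y) + ((u * s + v * t - θ) / (1 - θ)) * (l (f y, ω y) - l (f y, W y)) =
          u * (l (f y, W y) + ((s - θ) / (1 - θ)) * (l (f y, ω y) - l (f y, W y))) +
          v * (l (f y, W y) + ((t - θ) / (1 - θ)) * (l (f y, ω y) - l (f y, W y))) := by
        rw [hv']; field_simp; ring
      have := mul_le_mul_of_nonneg_left h5 hu
      have := mul_le_mul_of_nonneg_left h6 hv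
      have : u * c + v * c = c := by rw [← add_mul, huv, one_mul]
      rw [e2]; linarith
    have hinn : ∀ z ∈ C, ∃ y ∈ frontier C,
        JoinedIn {w | w ∈ C ∧ l (f z, W z) - δ ≤ l (f (ret C θ w), Z w)} (θ • z) y := by
      intro z hzC
      obtain ⟨y, hy, h1, h2⟩ := hW z hzC l hl
      refine ⟨y, hy, ?_⟩
      have h3 := h2.map (f := fun w : ℂ => θ • w) (continuous_const_smul θ)
      have h4 := hseg y hy (l (f z, W z) - δ) θ 1 le_rfl hθ1.le hθ1.le le_rfl
        (by rw [(hin y (hFC hy)).1, (hin y (hFC hy)).2]; exact h2.target_mem.2)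
        (by rw [hval y hy 1 hθ1.le le_rfl, div_self h1θ.ne']; linarith)
      rw [one_smul] at h4
      refine JoinedIn.trans (h3.mono ?_) h4
      rintro _ ⟨w, hw, rfl⟩
      refine ⟨hsm w hw.1 θ hθ.le hθ1.le, ?_⟩
      show _ ≤ l (f (ret C θ (θ • w)), Z (θ • w))
      rw [(hin w hw.1).1, (hin w hw.1).2]; exact hw.2
    rcases hcase x hx with ⟨z, hzC, rfl⟩ | ⟨y, hy, s, h1, h2, rfl⟩
    · obtain ⟨y, hy, h⟩ := hinn z hzC
      refine ⟨y, hy, ?_⟩
      show JoinedIn {w | w ∈ C ∧ l (f (ret C θ (θ • z)), Z (θ • z)) - δ ≤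
        l (f (ret C θ w), Z w)} (θ • z) y
      rw [(hin z hzC).1, (hin z hzC).2]; exact h
    · have b1 : 0 ≤ (s - θ) / (1 - θ) := div_nonneg (by linarith) h1θ.le
      have b2 : (s - θ) / (1 - θ) ≤ 1 := by rw [div_le_one h1θ]; linarith only [h2]
      rcases le_total (l (f y, W y)) (l (f y, ω y)) with h | h
      · refine ⟨y, hy, ?_⟩
        have h4 := hseg y hy (l (f (ret C θ (s • y)), Z (s • y)) - δ) s 1 h1 h2 hθ1.le le_rfl
          (by linarith only [hδ]) (by
            rw [hval y hy 1 hθ1.le le_rfl, hval y hy s h1 h2, div_self h1θ.ne']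
            have := mul_le_mul_of_nonneg_right b2 (sub_nonneg.2 h)
            linarith only [hδ, this])
        rw [one_smul] at h4
        exact h4
      · obtain ⟨y', hy', h'⟩ := hinn y (hFC hy)
        have b3 : l (f (ret C θ (s • y)), Z (s • y)) ≤ l (f y, W y) := by
          rw [hval y hy s h1 h2]
          have := mul_nonneg b1 (sub_nonneg.2 h)
          linarith only [this]
        refine ⟨y', hy', ?_⟩
        have h4 := hseg y hy (l (f (ret C θ (s • y)), Z (s • y)) - δ) s θ h1 h2 le_rfl hθ1.le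
          (by linarith only [hδ]) (by rw [(hin y (hFC hy)).1, (hin y (hFC hy)).2]; linarith only [hδ, b3])
        exact h4.trans (h'.mono fun w hw => ⟨hw.1, by linarith only [hw.2, b3]⟩)

/-- A4. Two coordinates: a plane one with boundary values the identity, and one with boundary
values `ω`. Hint: `aug_core`, `aug_collar` with `X = WithLp 2 (ℂ × E)`; then `HP.map` with
`WithLp.prodContinuousLinearEquiv`, which has norm at most one towards the sup norm. -/
theorem aug {E : Type} [NormedAddCommGroup E] [InnerProductSpace ℝ E] [FiniteDimensional ℝ E]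
    {C : Set ℂ} (hC : IsCompact C) (hCc : Convex ℝ C) (h0 : C ∈ 𝓝 (0 : ℂ)) {f : ℂ → E}
    (hf : Continuous f) (hMP : ∀ l : E →L[ℝ] ℝ, MP (interior C) fun z => l (f z)) {ω : ℂ → E}
    (hω : Continuous ω) {δ θ : ℝ} (hδ : 0 < δ) (hθ : 0 < θ) (hθ1 : θ < 1) :
    ∃ (T : ℂ → ℂ) (F : ℂ → E), Continuous T ∧ Continuous F ∧ (∀ y ∈ frontier C, T y = y) ∧
      (∀ y ∈ frontier C, F y = ω y) ∧ MapsTo T C C ∧
      HP C (frontier C) (fun x => (f (ret C θ x), T x, F x)) δ := by
  have hcl := hC.isClosed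
  have hFC : frontier C ⊆ C := hcl.frontier_subset
  let e := WithLp.prodContinuousLinearEquiv 2 ℝ ℂ E
  let ω' : ℂ → WithLp 2 (ℂ × E) := fun y => e.symm (y, ω y)
  have hω' : Continuous ω' := e.symm.continuous.comp (continuous_id.prodMk hω)
  obtain ⟨D, hD⟩ := (hC.of_isClosed_subset isClosed_frontier hFC).exists_bound_of_continuousOn
    hω'.continuousOn
  obtain ⟨W, hWc, hWH, hW⟩ := aug_core hC hCc ⟨0, mem_of_mem_nhds h0⟩ hf hMP hD hδ
  obtain ⟨Z, hZc, hZe, hZH, hZ⟩ := aug_collar hC hCc h0 hω' hWc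
    (convex_convexHull ℝ (ω' '' frontier C)) hWH
    (fun y hy => subset_convexHull ℝ _ (mem_image_of_mem _ hy)) hδ.le hθ hθ1 hW
  have heZ : Continuous fun x => e (Z x) := e.continuous.comp hZc
  refine ⟨fun x => (e (Z x)).1, fun x => (e (Z x)).2, heZ.fst, heZ.snd, fun y hy => ?_,
    fun y hy => ?_, fun x hx => ?_, ?_⟩
  · show (e (Z y)).1 = y
    rw [hZe hy, e.apply_symm_apply]
  · show (e (Z y)).2 = ω y
    rw [hZe hy, e.apply_symm_apply]
  · have hc : Convex ℝ {w : WithLp 2 (ℂ × E) | (e w).1 ∈ C} :=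
      hCc.linear_preimage ((LinearMap.fst ℝ ℂ E).comp e.toLinearEquiv.toLinearMap)
    refine convexHull_min ?_ hc (hZH x hx)
    rintro _ ⟨y, hy, rfl⟩
    show (e (e.symm (y, ω y))).1 ∈ C
    rw [e.apply_symm_apply]; exact hFC hy
  · refine hZ.map ((ContinuousLinearMap.id ℝ E).prodMap (e : WithLp 2 (ℂ × E) →L[ℝ] ℂ × E)) ?_
    refine ContinuousLinearMap.opNorm_le_bound _ zero_le_one fun p => ?_
    rw [one_mul]
    refine max_le (norm_fst_le p) (le_trans (max_le ?_ ?_) (norm_snd_le p))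
    · exact WithLp.norm_fst_le _ p.2
    · exact WithLp.norm_snd_le _ p.2

end Pool.Agent.MP_17e62b_gt.H14

/-! Barycentric coordinates on a compact space: triangulation and the saddle property. -/

namespace Pool.Agent.MP_17e62b_gt.H14

open Set
open scoped BigOperators

/-- `lam` maps `M` injectively onto a union of faces of the standard simplex. -/
structure IsBary {M ι : Type} [TopologicalSpace M] [Fintype ι] (lam : M → ι → ℝ) : Prop where
  cont : Continuous lam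
  nonneg : ∀ x i, 0 ≤ lam x i
  sum : ∀ x, ∑ i, lam x i = 1
  inj : Function.Injective lam
  full : ∀ x, ∀ w : ι → ℝ, (∀ i, 0 ≤ w i) → ∑ i, w i = 1 → (∀ i, w i ≠ 0 → lam x i ≠ 0) →
    ∃ y, lam y = w

/-- Two vertices of one face. -/
def Adj {M ι : Type} (lam : M → ι → ℝ) (i j : ι) : Prop := ∃ x, lam x i ≠ 0 ∧ lam x j ≠ 0

/-- Every plateau of local maxima of a linear function of the vertex values reaches `bd`. -/
def Spread {M ι E : Type} [NormedAddCommGroup E] [NormedSpace ℝ E] (lam : M → ι → ℝ) (val : ι → E)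
    (bd : Set M) : Prop :=
  ∀ (l : E →L[ℝ] ℝ) (m : ℝ) (A : Set ι), A.Nonempty →
    (∀ i ∈ A, l (val i) = m ∧ ∀ j, Adj lam i j → l (val j) ≤ m ∧ (l (val j) = m → j ∈ A)) →
      ∃ i ∈ A, ∃ x ∈ bd, lam x i = 1

variable {M M' ι : Type} [TopologicalSpace M] [TopologicalSpace M'] [Fintype ι]

theorem IsBary.comp {lam : M → ι → ℝ} (h : IsBary lam) (e : M' ≃ₜ M) :
    IsBary fun x => lam (e x) :=
  ⟨h.cont.comp e.continuous, fun _ => h.nonneg _, fun _ => h.sum _, h.inj.comp e.injective,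
    fun x w h0 h1 h2 => by
      obtain ⟨y, hy⟩ := h.full (e x) w h0 h1 h2
      exact ⟨e.symm y, by simpa using hy⟩⟩

omit [Fintype ι] in
theorem Spread.comp {E : Type} [NormedAddCommGroup E] [NormedSpace ℝ E] {lam : M → ι → ℝ}
    {val : ι → E} {bd : Set M} (h : Spread lam val bd) (e : M' ≃ₜ M) {bd' : Set M'}
    (hb : ∀ x ∈ bd, e.symm x ∈ bd') : Spread (fun x => lam (e x)) val bd' := by
  intro l m A hA H
  obtain ⟨i, hi, x, hx, h1⟩ := h l m A hA fun i hi => ⟨(H i hi).1, fun j ⟨y, hy⟩ =>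
    (H i hi).2 j ⟨e.symm y, by simpa using hy⟩⟩
  exact ⟨i, hi, e.symm x, hb x hx, by simpa using h1⟩

theorem IsBary.path_aux [CompactSpace M] {lam : M → ι → ℝ} (h : IsBary lam) {x y z : M}
    (hy : ∀ i, lam y i ≠ 0 → lam x i ≠ 0) (hz : ∀ i, lam z i ≠ 0 → lam x i ≠ 0) :
    ∃ γ : Path y z, ∀ t : unitInterval, lam (γ t) = (1 - (t : ℝ)) • lam y + (t : ℝ) • lam z := by
  have hE := h.cont.isClosedEmbedding h.inj
  have hex : ∀ t : unitInterval, ∃ p, lam p = (1 - (t : ℝ)) • lam y + (t : ℝ) • lam z := by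
    intro t
    refine h.full x _ (fun i => ?_) ?_ (fun i hi => ?_)
    · have h0 := t.2.1
      have h1 : 0 ≤ 1 - (t : ℝ) := sub_nonneg.2 t.2.2
      simp only [Pi.add_apply, Pi.smul_apply, smul_eq_mul]
      exact add_nonneg (mul_nonneg h1 (h.nonneg _ _)) (mul_nonneg h0 (h.nonneg _ _))
    · simp only [Pi.add_apply, Pi.smul_apply, smul_eq_mul, Finset.sum_add_distrib,
        ← Finset.mul_sum, h.sum]
      ring
    · by_contra hx
      have a1 : lam y i = 0 := by by_contra a; exact hy i a hx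
      have a2 : lam z i = 0 := by by_contra a; exact hz i a hx
      simp [a1, a2] at hi
  choose f hf using hex
  have hc : Continuous f := by
    rw [hE.isEmbedding.continuous_iff]
    have : lam ∘ f = fun t : unitInterval => (1 - (t : ℝ)) • lam y + (t : ℝ) • lam z :=
      funext hf
    rw [this]
    fun_prop
  refine ⟨⟨⟨f, hc⟩, h.inj ?_, h.inj ?_⟩, hf⟩
  · simp only [hf, Icc.coe_zero, sub_zero, one_smul, zero_smul, add_zero]
  · simp only [hf, Icc.coe_one, sub_self, zero_smul, one_smul, zero_add]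

/-- Y1. The segment from a point to a point of a face through it. -/
theorem IsBary.path [CompactSpace M] {lam : M → ι → ℝ} (h : IsBary lam) {x y : M}
    (hxy : ∀ i, lam y i ≠ 0 → lam x i ≠ 0) :
    ∃ γ : Path x y, ∀ t : unitInterval, lam (γ t) = (1 - (t : ℝ)) • lam x + (t : ℝ) • lam y :=
  h.path_aux (fun _ a => a) hxy

theorem IsBary.vertex [DecidableEq ι] {lam : M → ι → ℝ} (h : IsBary lam) {x : M} {i : ι}
    (hi : lam x i ≠ 0) : ∃ v, lam v = Pi.single i 1 := by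
  refine h.full x _ (fun j => ?_) (by simp only [Finset.sum_pi_single', Finset.mem_univ, ↓ reduceIte]) (fun j hj => ?_)
  · by_cases a : j = i
    · subst a; simp
    · simp [a]
  · by_cases a : j = i
    · subst a; exact hi
    · simp [a] at hj

theorem IsBary.eq_single [DecidableEq ι] {lam : M → ι → ℝ} (h : IsBary lam) {x : M} {i : ι}
    (hi : lam x i = 1) : lam x = Pi.single i 1 := by
  funext j
  by_cases a : j = i
  · subst a; simp [hi]
  · have h1 := h.sum x
    rw [← Finset.add_sum_erase _ _ (Finset.mem_univ i), hi] at h1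
    have h2 : ∑ k ∈ Finset.univ.erase i, lam x k = 0 := by linarith
    rw [Finset.sum_eq_zero_iff_of_nonneg fun k _ => h.nonneg x k] at h2
    simp [a, h2 j (by simp only [Finset.mem_erase, ne_eq, a, not_false_eq_true, Finset.mem_univ, and_self])]

theorem no_crust_stay {U : Set M} (hUo : IsOpen U) {y z : M} (γ : Path y z) (hy : y ∈ U)
    (H : ∀ t, γ t ∈ closure U → γ t ∈ U) : z ∈ U := by
  have hcl : IsClopen (γ ⁻¹' U) := by
    refine ⟨?_, hUo.preimage γ.continuous⟩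
    have : γ ⁻¹' U = γ ⁻¹' closure U :=
      Set.ext fun t => ⟨fun a => subset_closure a, H t⟩
    rw [this]
    exact isClosed_closure.preimage γ.continuous
  have := hcl.eq_univ ⟨0, by simpa only [mem_preimage, Path.source] using hy⟩
  have h1 : (1 : unitInterval) ∈ γ ⁻¹' U := by rw [this]; trivial
  simpa only [mem_preimage, Path.target] using h1

/-- Y2. No crust. -/
theorem IsBary.no_crust [CompactSpace M] {E : Type} [NormedAddCommGroup E] [NormedSpace ℝ E]
    {lam : M → ι → ℝ} (h : IsBary lam) {val : ι → E} {bd : Set M} (hs : Spread lam val bd)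
    (l : E →L[ℝ] ℝ) (c : ℝ) {U : Set M} (hU : U.Nonempty) (hUo : IsOpen U)
    (hd : Disjoint (closure U) bd) (h1 : ∀ x ∈ U, c < l (∑ i, lam x i • val i))
    (h2 : ∀ x ∈ closure U \ U, l (∑ i, lam x i • val i) = c) : False := by
  classical
  set u : (ι → ℝ) → ℝ := fun w => ∑ i, w i * l (val i) with hu
  have hul : ∀ w : ι → ℝ, l (∑ i, w i • val i) = u w := fun w => by
    simp only [map_sum, map_smul, smul_eq_mul, hu]
  simp only [hul] at h1 h2
  have huc : Continuous fun x => u (lam x) := by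
    have := h.cont
    simp only [hu]
    fun_prop
  obtain ⟨x0, hx0, hmax⟩ := isClosed_closure.isCompact.exists_isMaxOn (hU.mono subset_closure)
    huc.continuousOn
  set m := u (lam x0) with hm
  have hle : ∀ x ∈ U, u (lam x) ≤ m := fun x hx => hmax (subset_closure hx)
  have hcm : c < m := by
    obtain ⟨y, hy⟩ := hU
    exact (h1 y hy).trans_le (hle y hy)
  have hx0U : x0 ∈ U := by
    by_contra a
    exact hcm.ne' (h2 x0 ⟨hx0, a⟩)
  have hseg : ∀ (a b : ℝ) (w w' : ι → ℝ), u (a • w + b • w') = a * u w + b * u w' := by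
    intro a b w w'
    simp only [hu, Pi.add_apply, Pi.smul_apply, smul_eq_mul, Finset.mul_sum,
      ← Finset.sum_add_distrib]
    exact Finset.sum_congr rfl fun i _ => by ring
  have hsing : ∀ i, u (Pi.single i 1) = l (val i) := fun i => by
    simp only [hu, Pi.single_apply, ite_mul, one_mul, zero_mul, Finset.sum_ite_eq', Finset.mem_univ, ↓ reduceIte]
  have step : ∀ x y z : M, (∀ i, lam y i ≠ 0 → lam x i ≠ 0) → (∀ i, lam z i ≠ 0 → lam x i ≠ 0) →
      y ∈ U → u (lam y) = m → m ≤ u (lam z) → z ∈ U := by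
    intro x y z hy hz hyU hym hzm
    obtain ⟨γ, hγ⟩ := h.path_aux hy hz
    refine no_crust_stay hUo γ hyU fun t ht => ?_
    by_contra a
    have e1 := h2 _ ⟨ht, a⟩
    rw [hγ, hseg, hym] at e1
    have t0 := t.2.1
    linarith only [mul_nonneg t0 (sub_nonneg.2 hzm), hcm, e1]
  have hsupp : ∀ {x v : M} {i : ι}, lam x i ≠ 0 → lam v = Pi.single i 1 →
      ∀ j, lam v j ≠ 0 → lam x j ≠ 0 := by
    intro x v i hi hv j hj
    by_cases a : j = i
    · subst a; exact hi
    · simp [hv, a] at hj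
  obtain ⟨i, ⟨v, hvU, hv, -⟩, x, hx, hx1⟩ := hs l m
    {i | ∃ v ∈ U, lam v = Pi.single i 1 ∧ l (val i) = m} (by
      have : ∃ i, lam x0 i ≠ 0 ∧ m ≤ l (val i) := by
        by_contra! a
        have hne : ∃ i, lam x0 i ≠ 0 := by
          by_contra! b
          have := h.sum x0
          simp only [b, Finset.sum_const_zero, zero_ne_one] at this
        obtain ⟨i0, hi0⟩ := hne
        have : ∑ i, lam x0 i * l (val i) < ∑ i, lam x0 i * m := by
          refine Finset.sum_lt_sum (fun i _ => ?_) ⟨i0, Finset.mem_univ _, ?_⟩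
          · by_cases b : lam x0 i = 0
            · simp [b]
            · exact mul_le_mul_of_nonneg_left (a i b).le (h.nonneg _ _)
          · exact mul_lt_mul_of_pos_left (a i0 hi0) (lt_of_le_of_ne (h.nonneg _ _) hi0.symm)
        rw [← Finset.sum_mul, h.sum, one_mul] at this
        exact lt_irrefl _ this
      obtain ⟨i, hi, him⟩ := this
      obtain ⟨v, hv⟩ := h.vertex hi
      have hvU := step x0 x0 v (fun _ a => a) (hsupp hi hv) hx0U rfl (by rw [hv, hsing]; exact him)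
      refine ⟨i, v, hvU, hv, le_antisymm ?_ him⟩
      have := hle v hvU
      rwa [hv, hsing] at this) (by
      rintro i ⟨v, hvU, hv, him⟩
      refine ⟨him, fun j ⟨x, hi, hj⟩ => ?_⟩
      obtain ⟨w, hw⟩ := h.vertex hj
      have key : m ≤ l (val j) → w ∈ U := fun a =>
        step x v w (hsupp hi hv) (hsupp hj hw) hvU (by rw [hv, hsing, him])
          (by rw [hw, hsing]; exact a)
      refine ⟨?_, fun a => ⟨w, key a.ge, hw, a⟩⟩
      by_contra! a
      have := hle w (key a.le)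
      rw [hw, hsing] at this
      exact absurd a (not_lt.2 this))
  have : x = v := h.inj (by rw [hv, h.eq_single hx1])
  exact Set.disjoint_left.1 hd (subset_closure hvU) (this ▸ hx)

/-- Y3. A barycentric map gives a triangulation on which the surface is affine. -/
theorem polyhedral_of_bary {n : ℕ} (S : Surface n) {lam : S.M → ι → ℝ} (h : IsBary lam)
    (val : ι → EuclideanSpace ℝ (Fin n)) (hf : ∀ x, S.f x = ∑ i, lam x i • val i) :
    S.IsPolyhedral := by
  classical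
  have := S.compact
  set m := Fintype.card ι
  set e : ι ≃ Fin m := Fintype.equivFin ι
  set V : ι → EuclideanSpace ℝ (Fin m) := fun i => EuclideanSpace.single (e i) 1 with hV
  set T : Finset (EuclideanSpace ℝ (Fin m)) := Finset.univ.image V with hT
  have hind : AffineIndependent ℝ ((↑) : T → EuclideanSpace ℝ (Fin m)) := by
    have h1 : LinearIndependent ℝ V := by
      have := (EuclideanSpace.basisFun (Fin m) ℝ).toBasis.linearIndependent.comp e e.injective
      have e1 : V = (EuclideanSpace.basisFun (Fin m) ℝ).toBasis ∘ e := by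
        funext i
        simp [hV]
      rw [e1]
      exact this
    have h2 := h1.affineIndependent.range
    exact h2.mono (t := Set.range V) (by simp only [hT, Finset.coe_image, Finset.coe_univ, image_univ, Std.le_refl])
  set F : Set (Finset (EuclideanSpace ℝ (Fin m))) :=
    {s | s.Nonempty ∧ ∃ x, ∀ p ∈ s, ∃ i, lam x i ≠ 0 ∧ p = V i} with hF
  have hsub : ∀ s ∈ F, s ⊆ T := by
    rintro s ⟨-, x, hx⟩ p hp
    obtain ⟨i, -, rfl⟩ := hx p hp
    simp only [hT, Finset.mem_image, Finset.mem_univ, true_and, exists_apply_eq_apply]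
  let K : Geometry.SimplicialComplex ℝ (EuclideanSpace ℝ (Fin m)) :=
    { faces := F
      isRelLowerSet_faces := by
        rintro s ⟨h0, x, hx⟩
        exact ⟨h0, fun t hts ht => ⟨ht, x, fun p hp => hx p (hts hp)⟩⟩
      indep := fun {s} hs => hind.mono (t := (T : Set _)) (by exact_mod_cast hsub s hs)
      inter_subset_convexHull := fun {s t} hs ht =>
        (hind.convexHull_inter (hsub s hs) (hsub t ht)).ge }
  set Φ : S.M → EuclideanSpace ℝ (Fin m) := fun x => ∑ i, lam x i • V i with hΦ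
  have hΦe : ∀ x i, Φ x (e i) = lam x i := by
    intro x i
    simp only [hΦ, hV, WithLp.ofLp_sum, WithLp.ofLp_smul, PiLp.ofLp_single, Finset.sum_apply, Pi.smul_apply, Pi.single_apply, EmbeddingLike.apply_eq_iff_eq, smul_eq_mul, mul_ite, mul_one, mul_zero, Finset.sum_ite_eq, Finset.mem_univ, ↓ reduceIte]
  have hmem : ∀ x, Φ x ∈ K.space := by
    intro x
    rw [Geometry.SimplicialComplex.mem_space_iff]
    refine ⟨(Finset.univ.filter fun i => lam x i ≠ 0).image V, ⟨?_, x, fun p hp => ?_⟩, ?_⟩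
    · by_contra a
      have b : ∀ i, lam x i = 0 := by
        intro i
        by_contra b
        exact a ⟨V i, Finset.mem_image_of_mem _ (by simpa only [ne_eq, Finset.mem_filter, Finset.mem_univ, true_and] using b)⟩
      have := h.sum x
      simp only [b, Finset.sum_const_zero, zero_ne_one] at this
    · obtain ⟨i, hi, rfl⟩ := Finset.mem_image.1 hp
      exact ⟨i, by simpa only [ne_eq, Finset.mem_filter, Finset.mem_univ, true_and] using hi, rfl⟩
    · have e1 : Φ x = ∑ i ∈ Finset.univ.filter fun i => lam x i ≠ 0, lam x i • V i := by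
        simp only [hΦ]
        refine (Finset.sum_subset (Finset.filter_subset _ _) fun i _ hi => ?_).symm
        have : lam x i = 0 := by simpa only [ne_eq, Finset.mem_filter, Finset.mem_univ, true_and, Decidable.not_not] using hi
        simp [this]
      rw [e1]
      refine (convex_convexHull ℝ _).sum_mem (fun i _ => h.nonneg x i) ?_ fun i hi => ?_
      · rw [← h.sum x]
        refine Finset.sum_subset (Finset.filter_subset _ _) fun i _ hi => ?_
        simpa only [ne_eq, Finset.mem_filter, Finset.mem_univ, true_and, Decidable.not_not] using hi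
      · exact subset_convexHull ℝ _ (by exact_mod_cast Finset.mem_image_of_mem V hi)
  have hsurj : ∀ p ∈ K.space, ∃ y, Φ y = p := by
    intro p hp
    obtain ⟨s, ⟨-, x, hx⟩, hps⟩ := Geometry.SimplicialComplex.mem_space_iff.1 hp
    have hC : Convex ℝ {q : EuclideanSpace ℝ (Fin m) | (∀ i, 0 ≤ q (e i)) ∧ ∑ i, q (e i) = 1 ∧
        ∀ i, lam x i = 0 → q (e i) = 0} := by
      rintro q ⟨q0, q1, q2⟩ r ⟨r0, r1, r2⟩ a b ha hb hab
      refine ⟨fun i => ?_, ?_, fun i hi => ?_⟩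
      · simpa only [PiLp.add_apply, PiLp.smul_apply, smul_eq_mul] using add_nonneg (mul_nonneg ha (q0 i)) (mul_nonneg hb (r0 i))
      · simp only [PiLp.add_apply, PiLp.smul_apply, smul_eq_mul, Finset.sum_add_distrib, ← Finset.mul_sum, q1, mul_one, r1, hab]
      · simp [q2 i hi, r2 i hi]
    obtain ⟨p0, p1, p2⟩ := convexHull_min (fun q hq => by
      obtain ⟨i, hi, rfl⟩ := hx q hq
      refine ⟨fun j => ?_, ?_, fun j hj => ?_⟩
      · by_cases a : j = i
        · subst a; simp [hV]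
        · simp [hV, a]
      · simp only [hV, PiLp.single_apply, EmbeddingLike.apply_eq_iff_eq, Finset.sum_ite_eq', Finset.mem_univ, ↓ reduceIte]
      · have a : j ≠ i := fun a => hi (a ▸ hj)
        simp [hV, a]) hC hps
    obtain ⟨y, hy⟩ := h.full x (fun i => p (e i)) p0 p1 fun i hi a => hi (p2 i a)
    refine ⟨y, ?_⟩
    ext k
    obtain ⟨i, rfl⟩ := e.surjective k
    rw [hΦe, hy]
  have hbij : Function.Bijective fun x => (⟨Φ x, hmem x⟩ : K.space) := by
    refine ⟨fun x y hxy => h.inj (funext fun i => ?_), fun ⟨p, hp⟩ => ?_⟩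
    · have : Φ x = Φ y := congrArg Subtype.val hxy
      rw [← hΦe, ← hΦe, this]
    · obtain ⟨y, hy⟩ := hsurj p hp
      exact ⟨y, Subtype.ext hy⟩
  have hcont : Continuous (Equiv.ofBijective _ hbij) := by
    refine Continuous.subtype_mk ?_ hmem
    have := h.cont
    simp only [hΦ]
    fun_prop
  let L : EuclideanSpace ℝ (Fin m) →ₗ[ℝ] EuclideanSpace ℝ (Fin n) :=
    { toFun := fun p => ∑ i, p (e i) • val i
      map_add' := fun p q => by simp only [PiLp.add_apply, add_smul, Finset.sum_add_distrib]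
      map_smul' := fun a p => by simp only [PiLp.smul_apply, smul_eq_mul, Real.ringHom_apply, Finset.smul_sum, smul_smul] }
  refine ⟨m, K, hcont.homeoOfEquivCompactToT2, ?_, fun s _ => ⟨L.toAffineMap, fun x _ => ?_⟩⟩
  · exact (T.powerset.finite_toSet).subset fun s hs => by simpa using hsub s hs
  · rw [hf]
    change _ = ∑ i, Φ x (e i) • val i
    simp only [hΦe]

end Pool.Agent.MP_17e62b_gt.H14

/-! The standard triangulation of a rectangle, and piecewise linear interpolation. -/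

namespace Pool.Agent.MP_17e62b_gt.H14

open Set
open scoped BigOperators

/-- The hat function of the triangulation of the plane by `s`, `t`, `s + t ∈ ℤ`. -/
def cour (s t : ℝ) : ℝ := max 0 (1 - max (max |s| |t|) |s + t|)

/-- The rectangle. -/
def Rect (I J : ℕ) : Set (ℝ × ℝ) := Icc (0 : ℝ) I ×ˢ Icc (0 : ℝ) J

/-- Barycentric coordinates on the rectangle. -/
def hatB (I J : ℕ) (w : Rect I J) (k : Fin (I + 1) × Fin (J + 1)) : ℝ :=
  cour (w.1.1 - k.1) (w.1.2 - k.2)

/-- The grid point. -/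
def gridPt {I J : ℕ} (k : Fin (I + 1) × Fin (J + 1)) : Rect I J :=
  ⟨(k.1, k.2), ⟨Nat.cast_nonneg _, Nat.cast_le.2 (Nat.lt_succ_iff.1 k.1.2)⟩,
    ⟨Nat.cast_nonneg _, Nat.cast_le.2 (Nat.lt_succ_iff.1 k.2.2)⟩⟩

theorem isCompact_rect (I J : ℕ) : IsCompact (Rect I J) := isCompact_Icc.prod isCompact_Icc

theorem cour_lower_zero {s t : ℝ} (h : 1 ≤ |s| ∨ 1 ≤ |t| ∨ 1 ≤ |s + t|) : cour s t = 0 := by
  refine max_eq_left (sub_nonpos.2 ?_)
  rcases h with h | h | h
  · exact h.trans ((le_max_left _ _).trans (le_max_left _ _))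
  · exact h.trans ((le_max_right _ _).trans (le_max_left _ _))
  · exact h.trans (le_max_right _ _)

theorem cour_lower_eq {s t m : ℝ} (hm : m ≤ 1) (h1 : |s| ≤ m) (h2 : |t| ≤ m) (h3 : |s + t| ≤ m)
    (h : m ≤ |s| ∨ m ≤ |t| ∨ m ≤ |s + t|) : cour s t = 1 - m := by
  have e : max (max |s| |t|) |s + t| = m := by
    refine le_antisymm (max_le (max_le h1 h2) h3) ?_
    rcases h with h | h | h
    · exact h.trans ((le_max_left _ _).trans (le_max_left _ _))
    · exact h.trans ((le_max_right _ _).trans (le_max_left _ _))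
    · exact h.trans (le_max_right _ _)
  rw [cour, e]
  exact max_eq_right (sub_nonneg.2 hm)

theorem cour_lower_far {a : ℝ} (h0 : 0 ≤ a) (h1 : a ≤ 1) {p : ℤ} (hp : p ≤ -1 ∨ 2 ≤ p) :
    1 ≤ |a - p| := by
  rcases hp with hp | hp
  · have : (p : ℝ) ≤ -1 := by exact_mod_cast hp
    exact le_abs.2 (Or.inl (by linarith))
  · have : (2 : ℝ) ≤ p := by exact_mod_cast hp
    exact le_abs.2 (Or.inr (by linarith))

/-- T1. The values in the lower and the upper triangle of the square with corner `(i, j)`;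
`p`, `q` are integers. -/
theorem cour_lower {a b : ℝ} (ha : 0 ≤ a) (hb : 0 ≤ b) (hab : a + b ≤ 1) (p q : ℤ) :
    cour (a - p) (b - q) = if p = 0 ∧ q = 0 then 1 - a - b else if p = 1 ∧ q = 0 then a
      else if p = 0 ∧ q = 1 then b else 0 := by
  split_ifs with h1 h2 h3
  · rw [h1.1, h1.2, Int.cast_zero, sub_zero, sub_zero, sub_sub]
    exact cour_lower_eq hab (abs_le.2 ⟨by linarith, by linarith⟩)
      (abs_le.2 ⟨by linarith, by linarith⟩) (abs_le.2 ⟨by linarith, by linarith⟩)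
      (Or.inr (Or.inr (le_abs_self _)))
  · rw [h2.1, h2.2, Int.cast_zero, Int.cast_one, sub_zero,
      cour_lower_eq (m := 1 - a) (by linarith) (abs_le.2 ⟨by linarith, by linarith⟩)
      (abs_le.2 ⟨by linarith, by linarith⟩) (abs_le.2 ⟨by linarith, by linarith⟩)
      (Or.inl (le_abs.2 (Or.inr (by linarith)))), sub_sub_cancel]
  · rw [h3.1, h3.2, Int.cast_zero, Int.cast_one, sub_zero,
      cour_lower_eq (m := 1 - b) (by linarith) (abs_le.2 ⟨by linarith, by linarith⟩)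
      (abs_le.2 ⟨by linarith, by linarith⟩) (abs_le.2 ⟨by linarith, by linarith⟩)
      (Or.inr (Or.inl (le_abs.2 (Or.inr (by linarith))))), sub_sub_cancel]
  · refine cour_lower_zero ?_
    by_cases hp : p ≤ -1 ∨ 2 ≤ p
    · exact Or.inl (cour_lower_far ha (by linarith) hp)
    by_cases hq : q ≤ -1 ∨ 2 ≤ q
    · exact Or.inr (Or.inl (cour_lower_far hb (by linarith) hq))
    obtain ⟨rfl, rfl⟩ : p = 1 ∧ q = 1 := by omega
    refine Or.inr (Or.inr (le_abs.2 (Or.inr ?_)))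
    rw [Int.cast_one]
    linarith

theorem cour_upper {a b : ℝ} (ha : a ≤ 1) (hb : b ≤ 1) (hab : 1 ≤ a + b) (p q : ℤ) :
    cour (a - p) (b - q) = if p = 1 ∧ q = 1 then a + b - 1 else if p = 1 ∧ q = 0 then 1 - b
      else if p = 0 ∧ q = 1 then 1 - a else 0 := by
  split_ifs with h1 h2 h3
  · rw [h1.1, h1.2, Int.cast_one,
      cour_lower_eq (m := 2 - a - b) (by linarith) (abs_le.2 ⟨by linarith, by linarith⟩)
      (abs_le.2 ⟨by linarith, by linarith⟩) (abs_le.2 ⟨by linarith, by linarith⟩)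
      (Or.inr (Or.inr (le_abs.2 (Or.inr (by linarith)))))]
    ring
  · rw [h2.1, h2.2, Int.cast_zero, Int.cast_one, sub_zero]
    exact cour_lower_eq hb (abs_le.2 ⟨by linarith, by linarith⟩)
      (abs_le.2 ⟨by linarith, by linarith⟩) (abs_le.2 ⟨by linarith, by linarith⟩)
      (Or.inr (Or.inl (le_abs_self _)))
  · rw [h3.1, h3.2, Int.cast_zero, Int.cast_one, sub_zero]
    exact cour_lower_eq ha (abs_le.2 ⟨by linarith, by linarith⟩)
      (abs_le.2 ⟨by linarith, by linarith⟩) (abs_le.2 ⟨by linarith, by linarith⟩)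
      (Or.inl (le_abs_self _))
  · refine cour_lower_zero ?_
    by_cases hp : p ≤ -1 ∨ 2 ≤ p
    · exact Or.inl (cour_lower_far (by linarith) ha hp)
    by_cases hq : q ≤ -1 ∨ 2 ≤ q
    · exact Or.inr (Or.inl (cour_lower_far (by linarith) hb hq))
    obtain ⟨rfl, rfl⟩ : p = 0 ∧ q = 0 := by omega
    refine Or.inr (Or.inr (le_abs.2 (Or.inl ?_)))
    rw [Int.cast_zero]
    linarith

theorem hat_bary_tri {I J i j d : ℕ} (hd : d ≤ 1) {α β γ : ℝ} (hα : 0 ≤ α) (hβ : 0 ≤ β)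
    (hγ : 0 ≤ γ) (hs : α + β + γ = 1) {y : Rect I J} (h1 : y.1.1 = i + β + d * α)
    (h2 : y.1.2 = j + γ + d * α) {A B C : Fin (I + 1) × Fin (J + 1)}
    (hA : (A.1 : ℕ) = i + d ∧ (A.2 : ℕ) = j + d) (hB : (B.1 : ℕ) = i + 1 ∧ (B.2 : ℕ) = j)
    (hC : (C.1 : ℕ) = i ∧ (C.2 : ℕ) = j + 1) :
    hatB I J y = Pi.single A α + Pi.single B β + Pi.single C γ := by
  funext k
  have e1 : y.1.1 - k.1 = (β + d * α) - (((k.1 : ℕ) : ℤ) - i : ℤ) := by
    rw [h1]; push_cast; ring
  have e2 : y.1.2 - k.2 = (γ + d * α) - (((k.2 : ℕ) : ℤ) - j : ℤ) := by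
    rw [h2]; push_cast; ring
  have ex : ∀ K : Fin (I + 1) × Fin (J + 1), k = K ↔ (k.1 : ℕ) = K.1 ∧ (k.2 : ℕ) = K.2 :=
    fun K => by rw [Prod.ext_iff, Fin.ext_iff, Fin.ext_iff]
  rw [hatB, e1, e2, Pi.add_apply, Pi.add_apply, Pi.single_apply, Pi.single_apply,
    Pi.single_apply]
  simp only [ex, hA.1, hA.2, hB.1, hB.2, hC.1, hC.2]
  obtain rfl | rfl : d = 0 ∨ d = 1 := by omega
  · rw [Nat.cast_zero, zero_mul, add_zero, add_zero, cour_lower hβ hγ (by linarith only [hα, hs])]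
    split_ifs <;> first | omega | linarith only [hs]
  · rw [Nat.cast_one, one_mul, cour_upper (by linarith only [hγ, hs]) (by linarith only [hβ, hs]) (by linarith only [hα, hs])]
    split_ifs <;> first | omega | linarith only [hs]

theorem hat_bary_ex {I J : ℕ} (hI : 0 < I) (hJ : 0 < J) (y : Rect I J) :
    ∃ (i j d : ℕ) (α β γ : ℝ), i < I ∧ j < J ∧ d ≤ 1 ∧ 0 ≤ α ∧ 0 ≤ β ∧ 0 ≤ γ ∧ α + β + γ = 1 ∧
      y.1.1 = i + β + d * α ∧ y.1.2 = j + γ + d * α := by
  have cell : ∀ n : ℕ, 0 < n → ∀ s : ℝ, s ∈ Icc (0 : ℝ) n → ∃ i < n, (i : ℝ) ≤ s ∧ s ≤ i + 1 := by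
    intro n hn s hs
    by_cases h : ⌊s⌋₊ < n
    · exact ⟨_, h, Nat.floor_le hs.1, (Nat.lt_floor_add_one s).le⟩
    · obtain ⟨m, rfl⟩ : ∃ m, n = m + 1 := ⟨n - 1, by omega⟩
      have h3 : ((m + 1 : ℕ) : ℝ) ≤ s := (Nat.cast_le.2 (not_lt.1 h)).trans (Nat.floor_le hs.1)
      have h4 := hs.2
      rw [Nat.cast_add, Nat.cast_one] at h3 h4
      exact ⟨m, Nat.lt_succ_self m, by linarith only [h3], h4⟩
  obtain ⟨i, hi, i1, i2⟩ := cell I hI _ y.2.1
  obtain ⟨j, hj, j1, j2⟩ := cell J hJ _ y.2.2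
  rcases le_total (y.1.1 - i + (y.1.2 - j)) 1 with h | h
  · exact ⟨i, j, 0, 1 - (y.1.1 - i) - (y.1.2 - j), y.1.1 - i, y.1.2 - j, hi, hj, zero_le_one,
      by linarith only [h], by linarith only [i1], by linarith only [j1], by ring, by push_cast; ring, by push_cast; ring⟩
  · exact ⟨i, j, 1, y.1.1 - i + (y.1.2 - j) - 1, 1 - (y.1.2 - j), 1 - (y.1.1 - i), hi, hj, le_rfl,
      by linarith only [h], by linarith only [j2], by linarith only [i2], by ring, by push_cast; ring, by push_cast; ring⟩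

theorem hat_bary_sum {ι : Type} [Fintype ι] [DecidableEq ι] (A B C : ι) (α β γ : ℝ) (f : ι → ℝ) :
    ∑ k, (Pi.single A α + Pi.single B β + Pi.single C γ : ι → ℝ) k * f k =
      α * f A + β * f B + γ * f C := by
  simp only [Pi.add_apply, add_mul, Finset.sum_add_distrib, Pi.single_apply, ite_mul, zero_mul,
    Finset.sum_ite_eq', Finset.mem_univ, if_true]

theorem hat_bary_mom {I J : ℕ} (hI : 0 < I) (hJ : 0 < J) (y : Rect I J) :
    ∑ k, hatB I J y k = 1 ∧ ∑ k, hatB I J y k * (k.1 : ℕ) = y.1.1 ∧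
      ∑ k, hatB I J y k * (k.2 : ℕ) = y.1.2 := by
  obtain ⟨i, j, d, α, β, γ, hi, hj, hd, hα, hβ, hγ, hs, h1, h2⟩ := hat_bary_ex hI hJ y
  rw [hat_bary_tri hd hα hβ hγ hs h1 h2 (A := (⟨i + d, by omega⟩, ⟨j + d, by omega⟩))
    (B := (⟨i + 1, by omega⟩, ⟨j, by omega⟩)) (C := (⟨i, by omega⟩, ⟨j + 1, by omega⟩))
    ⟨rfl, rfl⟩ ⟨rfl, rfl⟩ ⟨rfl, rfl⟩, hat_bary_sum, hat_bary_sum, h1, h2]
  refine ⟨?_, ?_, ?_⟩
  · refine (Finset.sum_congr rfl fun k _ => (mul_one _).symm).trans ?_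
    rw [hat_bary_sum (f := fun _ => 1)]
    linarith only [hs]
  · push_cast
    linear_combination (i : ℝ) * hs
  · push_cast
    linear_combination (j : ℝ) * hs

/-- T2. Hint: a point lies in a square `[i, i + 1] × [j, j + 1]`, `i < I`, `j < J`, and in one of
its two triangles; there `hatB` is given by T1. Injectivity: `∑ k, hatB w k • (k.1, k.2) = w`.
Fullness: `y = ∑ k, w k • (k.1, k.2)` lies in the same triangle. -/
theorem hat_bary {I J : ℕ} (hI : 0 < I) (hJ : 0 < J) : IsBary (hatB I J) := by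
  refine ⟨continuous_pi fun k => ?_, fun x k => le_max_left _ _, fun x => (hat_bary_mom hI hJ x).1,
    fun x y h => ?_, fun x w h0 h1 h2 => ?_⟩
  · unfold hatB cour
    fun_prop
  · obtain ⟨-, x1, x2⟩ := hat_bary_mom hI hJ x
    obtain ⟨-, y1, y2⟩ := hat_bary_mom hI hJ y
    rw [h] at x1 x2
    exact Subtype.ext (Prod.ext (x1.symm.trans y1) (x2.symm.trans y2))
  · obtain ⟨i, j, d, α, β, γ, hi, hj, hd, hα, hβ, hγ, hs, e1, e2⟩ := hat_bary_ex hI hJ x
    obtain ⟨A, hA⟩ : ∃ A : Fin (I + 1) × Fin (J + 1), (A.1 : ℕ) = i + d ∧ (A.2 : ℕ) = j + d :=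
      ⟨(⟨i + d, by omega⟩, ⟨j + d, by omega⟩), rfl, rfl⟩
    obtain ⟨B, hB⟩ : ∃ B : Fin (I + 1) × Fin (J + 1), (B.1 : ℕ) = i + 1 ∧ (B.2 : ℕ) = j :=
      ⟨(⟨i + 1, by omega⟩, ⟨j, by omega⟩), rfl, rfl⟩
    obtain ⟨C, hC⟩ : ∃ C : Fin (I + 1) × Fin (J + 1), (C.1 : ℕ) = i ∧ (C.2 : ℕ) = j + 1 :=
      ⟨(⟨i, by omega⟩, ⟨j + 1, by omega⟩), rfl, rfl⟩
    have hAB : A ≠ B := fun h => by rw [h] at hA; omega
    have hAC : A ≠ C := fun h => by rw [h] at hA; omega
    have hBC : B ≠ C := fun h => by rw [h] at hB; omega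
    rw [hat_bary_tri hd hα hβ hγ hs e1 e2 hA hB hC] at h2
    have hw : w = Pi.single A (w A) + Pi.single B (w B) + Pi.single C (w C) := by
      funext k
      rw [Pi.add_apply, Pi.add_apply]
      by_cases ka : k = A
      · rw [ka, Pi.single_eq_same, Pi.single_eq_of_ne hAB, Pi.single_eq_of_ne hAC, add_zero,
          add_zero]
      by_cases kb : k = B
      · rw [kb, Pi.single_eq_same, Pi.single_eq_of_ne hAB.symm, Pi.single_eq_of_ne hBC, zero_add,
          add_zero]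
      by_cases kc : k = C
      · rw [kc, Pi.single_eq_same, Pi.single_eq_of_ne hAC.symm, Pi.single_eq_of_ne hBC.symm,
          zero_add, zero_add]
      rw [Pi.single_eq_of_ne ka, Pi.single_eq_of_ne kb, Pi.single_eq_of_ne kc, add_zero, add_zero]
      by_contra h3
      refine h2 k h3 ?_
      rw [Pi.add_apply, Pi.add_apply, Pi.single_eq_of_ne ka, Pi.single_eq_of_ne kb,
        Pi.single_eq_of_ne kc, add_zero, add_zero]
    have hs' : w A + w B + w C = 1 := by
      have h3 := hat_bary_sum A B C (w A) (w B) (w C) fun _ => 1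
      rw [← hw] at h3
      simp only [mul_one] at h3
      exact h3.symm.trans h1
    have a0 := h0 A
    have b0 := h0 B
    have c0 := h0 C
    have d0 : (0 : ℝ) ≤ d * w A := mul_nonneg (Nat.cast_nonneg d) a0
    have d1 : (d : ℝ) * w A ≤ w A := mul_le_of_le_one_left a0 (by exact_mod_cast hd)
    have i0 : (0 : ℝ) ≤ i := Nat.cast_nonneg i
    have j0 : (0 : ℝ) ≤ j := Nat.cast_nonneg j
    have i1 : (i : ℝ) + 1 ≤ I := by exact_mod_cast hi
    have j1 : (j : ℝ) + 1 ≤ J := by exact_mod_cast hj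
    refine ⟨⟨(i + w B + d * w A, j + w C + d * w A), ⟨by linarith, by linarith only [hs', c0, d1, i1]⟩,
      ⟨by linarith, by linarith only [hs', b0, d1, j1]⟩⟩, ?_⟩
    exact (hat_bary_tri hd a0 b0 c0 hs' rfl rfl hA hB hC).trans hw.symm

theorem hat_grid {I J : ℕ} (k : Fin (I + 1) × Fin (J + 1)) : hatB I J (gridPt k) k = 1 := by
  simp only [hatB, cour, gridPt, sub_self, abs_zero, max_self, add_zero, sub_zero, zero_le_one, sup_of_le_right]

theorem hat_supp {I J : ℕ} {w : Rect I J} {k : Fin (I + 1) × Fin (J + 1)} (h : hatB I J w k ≠ 0) :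
    |w.1.1 - k.1| < 1 ∧ |w.1.2 - k.2| < 1 :=
  ⟨not_le.1 fun h1 => h (cour_lower_zero (Or.inl h1)),
    not_le.1 fun h1 => h (cour_lower_zero (Or.inr (Or.inl h1)))⟩

theorem hat_adj_ne {s t : ℝ} (h1 : |s| < 1) (h2 : |t| < 1) (h3 : |s + t| < 1) : cour s t ≠ 0 :=
  ((sub_pos.2 (max_lt (max_lt h1 h2) h3)).trans_le (le_max_right _ _)).ne'

/-- T3. Horizontal and vertical neighbours are adjacent (take the midpoint). -/
theorem hat_adj {I J : ℕ} {k k' : Fin (I + 1) × Fin (J + 1)}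
    (h : ((k.1 : ℕ) + 1 = k'.1 ∧ k.2 = k'.2) ∨ (k.1 = k'.1 ∧ (k.2 : ℕ) + 1 = k'.2)) :
    Adj (hatB I J) k k' ∧ Adj (hatB I J) k' k := by
  suffices H : Adj (hatB I J) k k' from ⟨H, H.imp fun _ hx => hx.symm⟩
  have a0 : (0 : ℝ) ≤ (k.1 : ℕ) := Nat.cast_nonneg _
  have b0 : (0 : ℝ) ≤ (k.2 : ℕ) := Nat.cast_nonneg _
  have a1 : ((k'.1 : ℕ) : ℝ) ≤ I := Nat.cast_le.2 (Nat.lt_succ_iff.1 k'.1.2)
  have b1 : ((k'.2 : ℕ) : ℝ) ≤ J := Nat.cast_le.2 (Nat.lt_succ_iff.1 k'.2.2)
  rcases h with ⟨h1, h2⟩ | ⟨h1, h2⟩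
  · have e1 : ((k'.1 : ℕ) : ℝ) = (k.1 : ℕ) + 1 := by exact_mod_cast h1.symm
    have e2 : ((k'.2 : ℕ) : ℝ) = (k.2 : ℕ) := by rw [h2]
    refine ⟨⟨((k.1 : ℕ) + 1 / 2, (k.2 : ℕ)), ⟨by linarith, by linarith only [a1, e1]⟩, ⟨b0, by linarith only [b1, e2]⟩⟩,
      hat_adj_ne ?_ ?_ ?_, hat_adj_ne ?_ ?_ ?_⟩ <;>
    exact abs_lt.2 ⟨by linarith only [e1, e2], by linarith only [e1, e2]⟩
  · have e1 : ((k'.1 : ℕ) : ℝ) = (k.1 : ℕ) := by rw [h1]
    have e2 : ((k'.2 : ℕ) : ℝ) = (k.2 : ℕ) + 1 := by exact_mod_cast h2.symm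
    refine ⟨⟨((k.1 : ℕ), (k.2 : ℕ) + 1 / 2), ⟨a0, by linarith only [a1, e1]⟩, ⟨by linarith, by linarith only [b1, e2]⟩⟩,
      hat_adj_ne ?_ ?_ ?_, hat_adj_ne ?_ ?_ ?_⟩ <;>
    exact abs_lt.2 ⟨by linarith only [e1, e2], by linarith only [e1, e2]⟩

/-- The one-dimensional hat. -/
def hat1 (s : ℝ) : ℝ := max 0 (1 - |s|)

/-- Piecewise linear interpolation of `a 0, ..., a n`. -/
def pl (n : ℕ) (a : ℕ → ℝ) (s : ℝ) : ℝ := ∑ i ∈ Finset.range (n + 1), hat1 (s - i) * a i

theorem pl_hat1_zero {s : ℝ} (h : 1 ≤ |s|) : hat1 s = 0 :=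
  max_eq_left (by linarith)

/-- T4. -/
theorem pl_eq {n i : ℕ} (hi : i < n) (a : ℕ → ℝ) {s : ℝ} (h1 : (i : ℝ) ≤ s) (h2 : s ≤ i + 1) :
    pl n a s = (1 - (s - i)) * a i + (s - i) * a (i + 1) := by
  have hsub : ({i, i + 1} : Finset ℕ) ⊆ Finset.range (n + 1) := by
    intro k hk
    simp only [Finset.mem_insert, Finset.mem_singleton] at hk
    rw [Finset.mem_range]
    omega
  have e1 : hat1 (s - i) = 1 - (s - i) := by
    unfold hat1
    rw [abs_of_nonneg (by linarith only [h1])]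
    exact max_eq_right (by linarith only [h2])
  have e2 : hat1 (s - ((i + 1 : ℕ) : ℝ)) = s - i := by
    unfold hat1
    push_cast
    rw [abs_of_nonpos (by linarith only [h2]), max_eq_right (by linarith)]
    ring
  unfold pl
  rw [← Finset.sum_subset hsub, Finset.sum_pair (by omega), e1, e2]
  intro k _ hk
  simp only [Finset.mem_insert, Finset.mem_singleton, not_or] at hk
  rw [pl_hat1_zero, zero_mul]
  rcases (by omega : k + 1 ≤ i ∨ i + 2 ≤ k) with h | h
  · have h' : (k : ℝ) + 1 ≤ i := by exact_mod_cast h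
    exact le_abs.2 (Or.inl (by linarith only [h1, h']))
  · have h' : (i : ℝ) + 2 ≤ k := by exact_mod_cast h
    exact le_abs.2 (Or.inr (by linarith only [h2, h']))

theorem pl_nat {n i : ℕ} (hi : i ≤ n) (a : ℕ → ℝ) : pl n a i = a i := by
  unfold pl
  rw [Finset.sum_eq_single i]
  · simp only [hat1, sub_self, abs_zero, sub_zero, zero_le_one, sup_of_le_right, one_mul]
  · intro k _ hk
    rw [pl_hat1_zero, zero_mul]
    rcases (by omega : k + 1 ≤ i ∨ i + 1 ≤ k) with h | h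
    · have h' : (k : ℝ) + 1 ≤ i := by exact_mod_cast h
      exact le_abs.2 (Or.inl (by linarith only [h']))
    · have h' : (i : ℝ) + 1 ≤ k := by exact_mod_cast h
      exact le_abs.2 (Or.inr (by linarith only [h']))
  · intro h
    exact absurd (Finset.mem_range.2 (by omega)) h

theorem exists_cell {n : ℕ} (hn : 0 < n) {s : ℝ} (hs : s ∈ Icc (0 : ℝ) n) :
    ∃ i < n, (i : ℝ) ≤ s ∧ s ≤ i + 1 := by
  rcases hs.2.lt_or_eq with h | h
  · exact ⟨⌊s⌋₊, (Nat.floor_lt hs.1).2 h, Nat.floor_le hs.1, (Nat.lt_floor_add_one s).le⟩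
  · obtain ⟨m, rfl⟩ : ∃ m, n = m + 1 := ⟨n - 1, by omega⟩
    push_cast at h
    exact ⟨m, Nat.lt_succ_self m, by linarith only [h], h.le⟩

theorem pl_seq_lt {n : ℕ} {a : ℕ → ℝ} (ha : ∀ i < n, a i < a (i + 1)) {i j : ℕ} (hij : i < j)
    (hj : j ≤ n) : a i < a j := by
  induction j, hij using Nat.le_induction with
  | base => exact ha i hj
  | succ k _ ih => exact (ih (by omega)).trans (ha k hj)

theorem pl_strictMono {n : ℕ} {a : ℕ → ℝ} (ha : ∀ i < n, a i < a (i + 1)) :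
    StrictMonoOn (pl n a) (Icc 0 n) := by
  intro s hs t ht hst
  have hn : 0 < n := by
    have : (0 : ℝ) < n := by linarith [hs.1, ht.2]
    exact_mod_cast this
  obtain ⟨i, hi, hi1, hi2⟩ := exists_cell hn hs
  obtain ⟨j, hj, hj1, hj2⟩ := exists_cell hn ht
  rw [pl_eq hi a hi1 hi2, pl_eq hj a hj1 hj2]
  have h1 := ha i hi
  have h2 := ha j hj
  rcases lt_trichotomy i j with h | rfl | h
  · rcases (by omega : i + 1 = j ∨ i + 1 < j) with rfl | h'
    · push_cast at hj1 hj2 ⊢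
      rcases hi2.lt_or_eq with h3 | h3
      · linarith only [mul_pos (sub_pos.2 h3) (sub_pos.2 h1), mul_nonneg (sub_nonneg.2 hj1) (sub_pos.2 h2).le]
      · nlinarith only [mul_pos (sub_pos.2 (h3 ▸ hst)) (sub_pos.2 h2), hi2, h1]
    · have h3 := pl_seq_lt ha h' hj.le
      linarith only [mul_nonneg (sub_nonneg.2 hi2) (sub_pos.2 h1).le, mul_nonneg (sub_nonneg.2 hj1) (sub_pos.2 h2).le, h3]
  · linarith only [mul_pos (sub_pos.2 hst) (sub_pos.2 h1)]
  · have h' : (j : ℝ) + 1 ≤ i := by exact_mod_cast h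
    linarith only [hst, hi1, hj2, h']

theorem pl_continuous (n : ℕ) (a : ℕ → ℝ) : Continuous (pl n a) := by
  unfold pl hat1
  fun_prop

theorem pl_bijOn {n : ℕ} {a : ℕ → ℝ} (ha : ∀ i < n, a i < a (i + 1)) :
    BijOn (pl n a) (Icc 0 n) (Icc (a 0) (a n)) := by
  have hn : (0 : ℝ) ≤ n := Nat.cast_nonneg n
  have h0 : pl n a 0 = a 0 := by simpa using pl_nat (Nat.zero_le n) a
  have h1 : pl n a n = a n := pl_nat le_rfl a
  have hm := (pl_strictMono ha).monotoneOn
  refine ⟨fun s hs => ⟨?_, ?_⟩, (pl_strictMono ha).injOn, ?_⟩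
  · exact h0 ▸ hm (left_mem_Icc.2 hn) hs hs.1
  · exact h1 ▸ hm hs (right_mem_Icc.2 hn) hs.2
  · rw [← h0, ← h1]
    exact intermediate_value_Icc hn (pl_continuous n a).continuousOn

end Pool.Agent.MP_17e62b_gt.H14
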