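import Pool.Agent.Lib.PlaneTop.HasLog
import Pool.Agent.MP_4a6971_al.H83.Schoen
import Pool.Agent.MP_17e62b_gt.Mg.H14_M3
import Pool.Agent.MP_17e62b_gt.Mg.H14_M4
import Pool.Agent.MP_17e62b_gt.Disc

attribute [-instance] LieAdmissibleAlgebra.toModule AddQuantale.instAddLeftMono
  RightPreLieAlgebra.toModule LeftPreLieAlgebra.toModule RKHS.instFunLike ProperSMul.toContinuousSMul
  NumberField.to_charZero NonarchimedeanAddGroup.toIsTopologicalAddGroup instCoeTCOfCoe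
  continuousSub_of_discreteTopology AddQuantale.instAddRightMono Valued.toUniformSpace
  Group.IsPerfect.subsingleton_of_isMulCommutative NonUnitalNonAssocRing.toAddCommGroup
  IsTopologicalTorsor.toContinuousSMul IdemSemiring.toCanonicallyOrderedAdd
  NonarchimedeanRing.toIsTopologicalRing Quantale.instMulRightMono
  LinearOrderedCommMonoidWithZero.toPosMulStrictMono NonUnitalNonAssocSemiring.toAddCommMonoid
  CoalgHomClass.toSemilinearMapClass CommRing.toRing continuousSub_of_indiscreteTopology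
  AlexandrovDiscrete.locallyPathConnectedSpace RingHomClass.toLinearMapClassNNRat
  TopologicalSpace.UpgradedIsCompletelyPseudoMetrizableSpace.toPseudoMetricSpace
  Valued.isTopologicalDivisionRing ContDiffMapSupportedInClass.toDFunLike
  IsModuleTopology.toContinuousSMul NormedRing.toRing CStarAlgebra.instOrderClosedTopology
  NeZero.of_gt' TestFunctionClass.toDFunLike instCoeHTCOfCoeHeadOfCoeOTC instCoeTOfCoeDep
  MulSemiringAction.toDistribMulAction NonUnitalNormedRing.toNonUnitalSeminormedRing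
  RingHomClass.toLinearMapClassRat instCoeHTCTOfCoeTailOfCoeHTC
  SemilinearIsometryClass.toSemilinearMapClass LieRing.toAddCommGroup
  IsValuativeTopology.instIsTopologicalAddGroup
  NonUnitalAlgSemiHomClass.toDistribMulActionSemiHomClass instSMulZeroClass
  NormedDivisionRing.toDivisionRing Invertible.toNeZero Action.FintypeCat.instMulActionObjFiniteOf
  LieAdmissibleRing.toNonUnitalNonAssocRing AddCommGroupWithOne.toAddGroupWithOne
  NonAssocSemiring.toAddCommMonoidWithOne instCoeOutOfCoeFun Algebra.WeaklyEtale.flat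
  Torsor.toMulAction Algebra.complexToReal NormedRing.toSeminormedRing
  UpgradedStandardBorel.toTopologicalSpace NonUnitalNormedCommRing.toNonUnitalSeminormedCommRing

/-!
Almost monotone maps of the plane: points with close values are joined inside the preimage of a
small disc.
-/

namespace Pool.Agent.MP_17e62b_gt.H72
open Set Topology Metric Complex Filter
open scoped InnerProductSpace
open Pool.Agent.Lib.PlaneTop

/-- From every point of `K` and in every direction an almost ascending continuum reaches the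
frontier of `K`. -/
def UP (K : Set ℂ) (T : ℂ → ℂ) (η : ℝ) : Prop :=
  ∀ x ∈ K, ∀ ν : ℂ, ‖ν‖ = 1 → ∃ C ⊆ K, IsPreconnected C ∧ x ∈ C ∧ (C ∩ frontier K).Nonempty ∧
    ∀ y ∈ C, ⟪ν, T x⟫_ℝ - η ≤ ⟪ν, T y⟫_ℝ

/-- Points with values `a`-close to a point `w` of `W` are joined where the values are `e`-close
to `w`. -/
def LC (Z : ℂ → ℂ) (W : Set ℂ) (a e : ℝ) : Prop :=
  ∀ w ∈ W, ∀ p q, ‖Z p - w‖ ≤ a → ‖Z q - w‖ ≤ a →
    ∃ U, IsPreconnected U ∧ p ∈ U ∧ q ∈ U ∧ ∀ z ∈ U, ‖Z z - w‖ < e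

lemma ip_le {ν : ℂ} (hν : ‖ν‖ = 1) (z : ℂ) : ⟪ν, z⟫_ℝ ≤ ‖z‖ := by
  simpa only [Complex.inner, mul_re, conj_re, conj_im, mul_neg, sub_neg_eq_add, hν, one_mul] using real_inner_le_norm ν z

lemma ip_ge {ν : ℂ} (hν : ‖ν‖ = 1) (z : ℂ) : -‖z‖ ≤ ⟪ν, z⟫_ℝ := by
  have := ip_le hν (-z)
  rw [inner_neg_right, norm_neg] at this
  linarith

lemma ip_self {ν : ℂ} (hν : ‖ν‖ = 1) : ⟪ν, ν⟫_ℝ = 1 := by
  rw [real_inner_self_eq_norm_sq, hν]; norm_num

lemma ip_close {ν : ℂ} (hν : ‖ν‖ = 1) {a b : ℂ} {η : ℝ} (h : ‖a - b‖ ≤ η) :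
    ⟪ν, b⟫_ℝ - η ≤ ⟪ν, a⟫_ℝ ∧ ⟪ν, a⟫_ℝ ≤ ⟪ν, b⟫_ℝ + η := by
  have h1 := ip_le hν (a - b)
  have h2 := ip_ge hν (a - b)
  rw [inner_sub_right] at h1 h2
  constructor <;> linarith

lemma joined_of_open {O C : Set ℂ} (hO : IsOpen O) (hC : IsPreconnected C) (h : C ⊆ O) {x b : ℂ}
    (hx : x ∈ C) (hb : b ∈ C) : JoinedIn O x b := by
  have h1 : IsOpen (connectedComponentIn O x) := hO.connectedComponentIn
  have h2 : IsConnected (connectedComponentIn O x) :=
    isConnected_connectedComponentIn_iff.2 (h hx)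
  exact ((h1.isConnected_iff_isPathConnected.1 h2).joinedIn _ (mem_connectedComponentIn (h hx)) _
    (hC.subset_connectedComponentIn hx h hb)).mono (connectedComponentIn_subset _ _)

lemma hasLog_half {ν : ℂ} (hν : ‖ν‖ = 1) {F : ℂ → ℂ} {K : Set ℂ} (hF : ContinuousOn F K)
    (h : ∀ z ∈ K, 0 < ⟪ν, F z⟫_ℝ) : HasLogOn F K := by
  have h0 : ν ≠ 0 := by rintro rfl; simp at hν
  have h1 : HasLogOn (fun z => F z * (starRingEnd ℂ) ν) K :=
    hasLogOn_slit (hF.mul continuousOn_const) fun z hz =>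
      Or.inl (by have := h z hz; rwa [Complex.inner] at this)
  refine (h1.mul (hasLogOn_const h0 K)).congr fun z _ => ?_
  rw [mul_assoc, conj_mul', hν]; simp

/-- escape to infinity -/
lemma escape {P : Set ℂ} (hP : IsCompact P) (hPc : Convex ℝ P) {Z : ℂ → ℂ} {η : ℝ} (hη : 0 ≤ η)
    (hB : ∀ z, z ∉ interior P → ‖Z z - z‖ ≤ η) (hU : UP P Z η) (x : ℂ) {ν : ℂ} (hν : ‖ν‖ = 1)
    (M : ℝ) : ∃ C, IsPreconnected C ∧ x ∈ C ∧ (∃ b ∈ C, M ≤ ⟪ν, b⟫_ℝ) ∧
      ∀ y ∈ C, ⟪ν, Z x⟫_ℝ - 3 * η ≤ ⟪ν, Z y⟫_ℝ := by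
  obtain ⟨C₀, c1, c2, b₀, c3, c4, c5⟩ : ∃ C₀, IsPreconnected C₀ ∧ x ∈ C₀ ∧ ∃ b₀ ∈ C₀,
      b₀ ∉ interior P ∧ ∀ y ∈ C₀, ⟪ν, Z x⟫_ℝ - η ≤ ⟪ν, Z y⟫_ℝ := by
    by_cases hx : x ∈ interior P
    · obtain ⟨C, -, c1, c2, ⟨b, c3, c4⟩, c5⟩ := hU x (interior_subset hx) ν hν
      exact ⟨C, c1, c2, b, c3, c4.2, c5⟩
    · exact ⟨{x}, isPreconnected_singleton, rfl, x, rfl, hx, by rintro _ rfl; linarith⟩
  obtain ⟨f, hf⟩ := geometric_hahn_banach_open_point hPc.interior isOpen_interior c4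
  obtain ⟨d, d1, d2, d3⟩ : ∃ d : ℂ, ‖d‖ = 1 ∧ ⟪ν, d⟫_ℝ = 0 ∧ 0 ≤ f d := by
    have e1 : ‖I * ν‖ = 1 := by simp [hν]
    have e2 : ⟪ν, I * ν⟫_ℝ = 0 := by
      rw [Complex.inner, mul_assoc, mul_conj]; simp
    rcases le_total 0 (f (I * ν)) with h | h
    · exact ⟨_, e1, e2, h⟩
    · exact ⟨-(I * ν), by simpa using e1, by rw [inner_neg_right, e2, neg_zero],
        by rw [map_neg]; linarith⟩
  obtain ⟨R, hR⟩ := hP.isBounded.exists_norm_le
  set L : ℝ := |R| + ‖b₀‖ + 1 with hL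
  have L0 : 0 ≤ L := by positivity
  set N : ℝ := |M| + ‖b₀‖ with hN
  have N0 : 0 ≤ N := by positivity
  have hdν : ⟪d, ν⟫_ℝ = 0 := by rw [real_inner_comm, d2]
  have s1 : ∀ y ∈ segment ℝ b₀ (b₀ + L • d), y ∉ interior P ∧ ⟪ν, b₀⟫_ℝ ≤ ⟪ν, y⟫_ℝ := by
    intro y hy
    rw [segment_eq_image'] at hy
    obtain ⟨t, ht, rfl⟩ := hy
    simp only [add_sub_cancel_left]
    refine ⟨fun h => ?_, by rw [inner_add_right, inner_smul_right, inner_smul_right, d2]; simp⟩
    have := hf _ h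
    rw [map_add, map_smul, map_smul, smul_eq_mul, smul_eq_mul] at this
    have := mul_nonneg ht.1 (mul_nonneg L0 d3)
    linarith
  have s2 : ∀ y ∈ segment ℝ (b₀ + L • d) (b₀ + L • d + N • ν),
      y ∉ interior P ∧ ⟪ν, b₀⟫_ℝ ≤ ⟪ν, y⟫_ℝ := by
    intro y hy
    rw [segment_eq_image'] at hy
    obtain ⟨t, ht, rfl⟩ := hy
    simp only [add_sub_cancel_left]
    refine ⟨fun h => ?_, ?_⟩
    · have a1 := hR _ (interior_subset h)
      have a2 := ip_le d1 (b₀ + L • d + t • N • ν)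
      rw [inner_add_right, inner_add_right, inner_smul_right, inner_smul_right, inner_smul_right,
        hdν, ip_self d1] at a2
      have a3 := ip_ge d1 b₀
      have a4 := le_abs_self R
      linarith
    · rw [inner_add_right, inner_add_right, inner_smul_right, inner_smul_right, inner_smul_right,
        d2, ip_self hν]
      have := mul_nonneg ht.1 N0
      linarith
  have key : ∀ y, y ∉ interior P ∧ ⟪ν, b₀⟫_ℝ ≤ ⟪ν, y⟫_ℝ → ⟪ν, Z x⟫_ℝ - 3 * η ≤ ⟪ν, Z y⟫_ℝ := by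
    rintro y ⟨y1, y2⟩
    have a1 := (ip_close hν (hB y y1)).1
    have a2 := (ip_close hν (hB b₀ c4)).2
    have a3 := c5 b₀ c3
    linarith
  refine ⟨C₀ ∪ segment ℝ b₀ (b₀ + L • d) ∪ segment ℝ (b₀ + L • d) (b₀ + L • d + N • ν),
    (c1.union b₀ c3 (left_mem_segment _ _ _) (convex_segment _ _).isPreconnected).union
      (b₀ + L • d) (Or.inr (right_mem_segment _ _ _)) (left_mem_segment _ _ _)
      (convex_segment _ _).isPreconnected, Or.inl (Or.inl c2),
    ⟨_, Or.inr (right_mem_segment _ _ _), ?_⟩, ?_⟩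
  · rw [inner_add_right, inner_add_right, inner_smul_right, inner_smul_right, d2, ip_self hν]
    have a3 := ip_ge hν b₀
    have a4 := le_abs_self M
    linarith
  · rintro y ((hy | hy) | hy)
    · linarith [c5 y hy]
    · exact key y (s1 y hy)
    · exact key y (s2 y hy)

lemma glue_log {F : ℂ → ℂ} {K A : Set ℂ} (h : HasLogOn F K) {ω₀ : ℂ → ℂ} (h1' : ContinuousOn ω₀ A)
    (h2' : ∀ x ∈ A, exp (ω₀ x) = F x) (hK : IsClosed K) (hA : IsClosed A)
    (hc : IsPreconnected (K ∩ A)) :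
    ∃ ω : ℂ → ℂ, ContinuousOn ω (K ∪ A) ∧ (∀ x ∈ K ∪ A, exp (ω x) = F x) ∧ EqOn ω ω₀ A := by
  classical
  obtain ⟨ω, h1, h2⟩ := h
  obtain ⟨c, hc1, hc2⟩ : ∃ c : ℂ, exp c = 1 ∧ ∀ x ∈ K ∩ A, ω₀ x = ω x + c := by
    rcases (K ∩ A).eq_empty_or_nonempty with he | ⟨y, hy⟩
    · exact ⟨0, exp_zero, by simp [he]⟩
    · have hee : ∀ x ∈ K ∩ A, exp (ω₀ x) = exp (ω x) := fun x hx => by
        rw [h2 x hx.1, h2' x hx.2]
      refine ⟨ω₀ y - ω y, by rw [exp_sub, hee y hy, div_self (exp_ne_zero _)], fun x hx => ?_⟩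
      have := log_sub_const hc (h1'.mono inter_subset_right) (h1.mono inter_subset_left) hee hx hy
      linear_combination this
  refine ⟨fun x => if x ∈ A then ω₀ x else ω x + c, ?_, fun x hx => ?_, fun x hx => by simp [hx]⟩
  · refine ContinuousOn.union_of_isClosed ?_ ?_ hK hA
    · refine (h1.add continuousOn_const : ContinuousOn (fun x => ω x + c) K).congr
        fun x hx => ?_
      by_cases hxK : x ∈ A
      · simp [hxK, hc2 x ⟨hx, hxK⟩]
      · simp [hxK]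
    · exact h1'.congr fun x hx => by simp [hx]
  · by_cases hxK : x ∈ A
    · simp [hxK, h2' x hxK]
    · simp [hxK, exp_add, hc1, h2 x (hx.resolve_right hxK)]

lemma far_half {ν w : ℂ} (hν : ‖ν‖ = 1) {t R : ℝ} (ht : 0 ≤ t) (hR : t ≤ R) :
    IsPreconnected {z : ℂ | R ≤ ‖z - w‖ ∧ t ≤ ⟪ν, z - w⟫_ℝ} := by
  have hG : Convex ℝ {z : ℂ | R ≤ ⟪ν, z - w⟫_ℝ} := by
    intro a ha b hb s u hs hu hsu
    have e : s • a + u • b - w = s • (a - w) + u • (b - w) := by
      rw [smul_sub, smul_sub, show s • a - s • w + (u • b - u • w) = s • a + u • b - (s + u) • w by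
        rw [add_smul]; abel, hsu, one_smul]
    change R ≤ _
    rw [e, inner_add_right, inner_smul_right, inner_smul_right]
    have a1 := mul_le_mul_of_nonneg_left (show R ≤ _ from ha) hs
    have a2 := mul_le_mul_of_nonneg_left (show R ≤ _ from hb) hu
    have : s * R + u * R = R := by rw [← add_mul, hsu, one_mul]
    linarith
  refine isPreconnected_of_forall (w + R • ν) fun y hy => ⟨segment ℝ y (y + R • ν) ∪
    {z : ℂ | R ≤ ⟪ν, z - w⟫_ℝ}, ?_, Or.inr ?_, Or.inl (left_mem_segment _ _ _), ?_⟩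
  · rintro z (hz | hz)
    · rw [segment_eq_image'] at hz
      obtain ⟨s, hs, rfl⟩ := hz
      simp only [add_sub_cancel_left]
      have e : y + s • R • ν - w = (y - w) + (s * R) • ν := by rw [smul_smul]; abel
      have p : 0 ≤ s * R := mul_nonneg hs.1 (ht.trans hR)
      constructor
      · rw [e]
        have q := norm_add_sq_real (y - w) ((s * R) • ν)
        rw [inner_smul_right, real_inner_comm] at q
        have q2 := mul_nonneg p (ht.trans hy.2)
        refine hy.1.trans (abs_le_of_sq_le_sq' ?_ (norm_nonneg _)).2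
        linarith only [sq_nonneg ‖(s * R) • ν‖, q, q2]
      · rw [e, inner_add_right, inner_smul_right, ip_self hν]
        linarith [hy.2]
    · exact ⟨le_trans hz (ip_le hν _), hR.trans hz⟩
  · change R ≤ _
    rw [add_sub_cancel_left, inner_smul_right, ip_self hν, mul_one]
  · refine (convex_segment _ _).isPreconnected.union (y + R • ν) (right_mem_segment _ _ _) ?_
      hG.isPreconnected
    change R ≤ _
    rw [show y + R • ν - w = (y - w) + R • ν by abel, inner_add_right, inner_smul_right,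
      ip_self hν]
    linarith [hy.2]

/-- the logarithm lemma -/
lemma exists_log {P : Set ℂ} (hP : IsCompact P) (hPc : Convex ℝ P) {Z : ℂ → ℂ} (hZ : Continuous Z)
    {η : ℝ} (hη : 0 < η) (hB : ∀ z, z ∉ interior P → ‖Z z - z‖ ≤ η) (hU : UP P Z η) {x w : ℂ}
    {s : ℝ} (hx : ‖Z x - w‖ ≤ s) :
    HasLogOn (fun z => (z - x) / (Z z - w)) {z | s + 11 * η ≤ ‖Z z - w‖} := by
  have hs : 0 ≤ s := (norm_nonneg _).trans hx
  obtain ⟨R₀, hR₀⟩ := hP.isBounded.exists_norm_le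
  set R : ℝ := |R₀| + ‖w‖ + ‖x - w‖ + s + 6 * η + 1 with hR
  have n1 := abs_nonneg R₀
  have n2 := norm_nonneg w
  have n3 := norm_nonneg (x - w)
  set A : Set ℂ := {z | R ≤ ‖z - w‖} with hA
  have hAc : IsClosed A := isClosed_le continuous_const (by fun_prop)
  have hAP : ∀ z ∈ A, ‖Z z - z‖ ≤ η := fun z hz => hB z fun h => by
    have a1 := hR₀ z (interior_subset h)
    have a2 := norm_sub_le z w
    have a3 := le_abs_self R₀
    have a4 : R ≤ ‖z - w‖ := hz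
    linarith
  have hAu : ∀ z ∈ A, R - η ≤ ‖Z z - w‖ := fun z hz => by
    have a1 := hAP z hz
    have a2 : ‖z - w‖ ≤ ‖Z z - w‖ + ‖Z z - z‖ := by
      calc ‖z - w‖ = ‖(Z z - w) - (Z z - z)‖ := by congr 1; ring
        _ ≤ _ := norm_sub_le _ _
    have a4 : R ≤ ‖z - w‖ := hz
    linarith only [a1, a2, a4]
  have hAs : ∀ z ∈ A, (z - x) / (Z z - w) ∈ slitPlane := fun z hz => by
    have a1 := hAu z hz
    have a0 : 0 < ‖Z z - w‖ := by linarith
    have a2 : Z z - w ≠ 0 := norm_pos_iff.1 a0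
    have e : (z - x) / (Z z - w) = 1 + (-(Z z - z) - (x - w)) / (Z z - w) := by
      field_simp; ring
    rw [e]
    refine mem_slitPlane_of_norm_lt_one ?_
    rw [norm_div, div_lt_one a0]
    have a3 := norm_sub_le (-(Z z - z)) (x - w)
    rw [norm_neg] at a3
    linarith only [hAP z hz, hη, hs, n1, n2, a1, a3]
  have hg : ∀ K : Set ℂ, (∀ z ∈ K, Z z - w ≠ 0) → ContinuousOn (fun z => (z - x) / (Z z - w)) K :=
    fun K hK => ContinuousOn.div (by fun_prop) (by fun_prop) hK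
  have hA0 : ∀ z ∈ A, Z z - w ≠ 0 := fun z hz => norm_pos_iff.1 (by linarith [hAu z hz])
  -- the branch on the preimage of a half plane
  have br : ∀ ν : ℂ, ‖ν‖ = 1 → ∃ ω : ℂ → ℂ,
      ContinuousOn ω ({z | s + 6 * η ≤ ⟪ν, Z z - w⟫_ℝ} ∪ A) ∧
      (∀ z ∈ {z | s + 6 * η ≤ ⟪ν, Z z - w⟫_ℝ} ∪ A, exp (ω z) = (z - x) / (Z z - w)) ∧
      EqOn ω (fun z => log ((z - x) / (Z z - w))) A := by
    intro ν hν
    set D : Set ℂ := {z | s + 6 * η ≤ ⟪ν, Z z - w⟫_ℝ} ∪
      {z | R ≤ ‖z - w‖ ∧ s + 5 * η ≤ ⟪ν, z - w⟫_ℝ} with hD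
    have hDc : IsClosed D := (isClosed_le continuous_const (by fun_prop)).union
      (hAc.inter (isClosed_le continuous_const
        (by fun_prop : Continuous fun z : ℂ => ⟪ν, z - w⟫_ℝ)))
    have cl : ∀ z, ‖Z z - z‖ ≤ η → ⟪ν, z - w⟫_ℝ - η ≤ ⟪ν, Z z - w⟫_ℝ ∧
        ⟪ν, Z z - w⟫_ℝ ≤ ⟪ν, z - w⟫_ℝ + η := fun z hz =>
      ip_close hν (by rwa [sub_sub_sub_cancel_right])
    have e : D ∩ A = {z | R ≤ ‖z - w‖ ∧ s + 5 * η ≤ ⟪ν, z - w⟫_ℝ} := by
      ext z
      constructor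
      · rintro ⟨h | h, hz⟩
        · refine ⟨hz, ?_⟩
          have a1 := (cl z (hAP z hz)).2
          have a2 : s + 6 * η ≤ ⟪ν, Z z - w⟫_ℝ := h
          linarith only [a1, a2]
        · exact h
      · exact fun h => ⟨Or.inr h, h.1⟩
    have l1 : HasLogOn (fun z => Z z - w) D := hasLog_half hν (by fun_prop) (by
      rintro z (h | h)
      · have a2 : s + 6 * η ≤ ⟪ν, Z z - w⟫_ℝ := h
        linarith
      · linarith [(cl z (hAP z h.1)).1, h.2])
    have hν' : ‖-ν‖ = 1 := by rwa [norm_neg]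
    obtain ⟨C, c1, c2, ⟨b, c3, c4⟩, c5⟩ := escape hP hPc hη.le hB hU x hν' (|R₀| + ‖w‖ + 1)
    have hCD : C ⊆ Dᶜ := by
      intro y hy h
      have a1 := c5 y hy
      rw [inner_neg_left, inner_neg_left] at a1
      have a2 := ip_le hν (Z x - w)
      have a3 : ⟪ν, Z y - w⟫_ℝ ≤ s + 3 * η := by
        rw [inner_sub_right] at a2 ⊢
        linarith only [hx, a1, a2]
      rcases h with h | h
      · have a4 : s + 6 * η ≤ ⟪ν, Z y - w⟫_ℝ := h
        linarith only [hη, a3, a4]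
      · linarith [(cl y (hAP y h.1)).1, h.2]
    have l2 : HasLogOn (fun z => z - b) D := hasLog_half hν (by fun_prop) (by
      intro z hz
      rw [inner_neg_left] at c4
      rw [inner_sub_right]
      have a1 := ip_ge hν w
      by_cases hzP : z ∈ interior P
      · have a2 := hR₀ z (interior_subset hzP)
        have a3 := ip_ge hν z
        have a4 := le_abs_self R₀
        linarith only [n2, c4, a2, a3, a4]
      · have a5 : s + 5 * η ≤ ⟪ν, z - w⟫_ℝ := by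
          rcases hz with h | h
          · have a4 : s + 6 * η ≤ ⟪ν, Z z - w⟫_ℝ := h
            linarith [(cl z (hB z hzP)).2]
          · exact h.2
        rw [inner_sub_right] at a5
        linarith)
    have l3 : HasLogOn (fun z => z - x) D :=
      l2.of_joinedIn (joined_of_open hDc.isOpen_compl c1 hCD c3 c2)
    obtain ⟨ω, o1, o2, o3⟩ := glue_log (l3.div l1) ((hg A hA0).clog hAs)
      (fun z hz => exp_log (slitPlane_ne_zero (hAs z hz))) hDc hAc
      (by rw [e]; exact far_half hν (by linarith) (by linarith))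
    have sub : {z | s + 6 * η ≤ ⟪ν, Z z - w⟫_ℝ} ∪ A ⊆ D ∪ A :=
      union_subset_union_left _ subset_union_left
    exact ⟨ω, o1.mono sub, fun z hz => o2 z (sub hz), o3⟩
  choose! ω o1 o2 o3 using br
  obtain ⟨M, hM⟩ := (isCompact_closedBall w R).exists_bound_of_continuousOn
    (f := fun z => Z z - w) (by fun_prop)
  have M0 : 0 < |M| + 1 := by positivity
  have cmp : ∀ ν ν' : ℂ, ‖ν‖ = 1 → ‖ν'‖ = 1 → ‖ν' - ν‖ ≤ η / (|M| + 1) → ∀ z,
      s + 10 * η ≤ ⟪ν, Z z - w⟫_ℝ → ω ν' z = ω ν z := by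
    intro ν ν' hν hν' hd z hz
    obtain ⟨C, c1, c2, ⟨b, c3, c4⟩, c5⟩ := escape hP hPc hη.le hB hU z hν (R + ‖w‖)
    have bA : b ∈ A := by
      have a1 := ip_le hν (b - w)
      have a2 := ip_le hν w
      rw [inner_sub_right] at a1
      change R ≤ _
      linarith only [c4, a1, a2]
    have c6 : ∀ y ∈ C, s + 7 * η ≤ ⟪ν, Z y - w⟫_ℝ := fun y hy => by
      have := c5 y hy
      rw [inner_sub_right] at hz ⊢
      linarith only [hz, this]
    have s1 : C ⊆ {z | s + 6 * η ≤ ⟪ν, Z z - w⟫_ℝ} ∪ A := fun y hy =>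
      Or.inl (show s + 6 * η ≤ _ by linarith only [c6 y hy, hη])
    have s2 : C ⊆ {z | s + 6 * η ≤ ⟪ν', Z z - w⟫_ℝ} ∪ A := fun y hy => by
      by_cases hyA : y ∈ A
      · exact Or.inr hyA
      left
      have a1 : ‖Z y - w‖ ≤ |M| + 1 := by
        have := hM y (by rw [mem_closedBall, dist_eq_norm]; exact (not_le.1 hyA).le)
        linarith only [le_abs_self M, this]
      have a2 := abs_real_inner_le_norm (ν' - ν) (Z y - w)
      have a3 : ‖ν' - ν‖ * ‖Z y - w‖ ≤ η := by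
        calc _ ≤ η / (|M| + 1) * (|M| + 1) := mul_le_mul hd a1 (norm_nonneg _) (by positivity)
          _ = η := by field_simp
      rw [inner_sub_left] at a2
      have a4 := (abs_le.1 (a2.trans a3)).1
      change s + 6 * η ≤ _
      linarith only [c6 y hy, a4]
    have := log_sub_const c1 ((o1 ν' hν').mono s2) ((o1 ν hν).mono s1)
      (fun y hy => by rw [o2 ν' hν' y (s2 hy), o2 ν hν y (s1 hy)]) c2 c3
    rw [o3 ν' hν' bA, o3 ν hν bA, sub_self] at this
    exact sub_eq_zero.1 this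
  set dir : ℂ → ℂ := fun z => ‖Z z - w‖⁻¹ • (Z z - w) with hdir
  have pos : ∀ z ∈ {z | s + 11 * η ≤ ‖Z z - w‖}, 0 < ‖Z z - w‖ := fun z hz => by
    have : s + 11 * η ≤ ‖Z z - w‖ := hz
    linarith
  have d1 : ∀ z ∈ {z | s + 11 * η ≤ ‖Z z - w‖}, ‖dir z‖ = 1 := fun z hz =>
    norm_smul_inv_norm (𝕜 := ℝ) (norm_pos_iff.1 (pos z hz))
  have d2 : ∀ z ∈ {z | s + 11 * η ≤ ‖Z z - w‖}, ⟪dir z, Z z - w⟫_ℝ = ‖Z z - w‖ := fun z hz => by
    have := (pos z hz).ne'
    rw [hdir]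
    simp only [inner_smul_left, real_inner_self_eq_norm_sq, conj_trivial]
    field_simp
  refine ⟨fun z => ω (dir z) z, fun z₀ hz₀ => ?_, fun z hz => o2 _ (d1 z hz) z (Or.inl ?_)⟩
  · have hz₀' : s + 11 * η ≤ ‖Z z₀ - w‖ := hz₀
    have e1 : ∀ᶠ z in 𝓝 z₀, s + 10 * η < ⟪dir z₀, Z z - w⟫_ℝ :=
      ContinuousAt.eventually_lt continuousAt_const (by fun_prop) (by rw [d2 z₀ hz₀]; linarith only [hη, hz₀'])
    have cd : ContinuousAt dir z₀ :=
      ContinuousAt.smul (ContinuousAt.inv₀ (f := fun z => ‖Z z - w‖) (by fun_prop)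
        (pos z₀ hz₀).ne') (by fun_prop)
    have e2 : ∀ᶠ z in 𝓝 z₀, ‖dir z - dir z₀‖ < η / (|M| + 1) :=
      ContinuousAt.eventually_lt (by fun_prop) continuousAt_const (by simp only [sub_self, norm_zero]; positivity)
    have c0 : ContinuousAt (ω (dir z₀)) z₀ := (o1 _ (d1 z₀ hz₀)).continuousAt
      (by filter_upwards [e1] with z hz using Or.inl (show s + 6 * η ≤ _ by linarith only [hη, hz]))
    refine c0.continuousWithinAt.congr_of_eventuallyEq ?_ rfl
    filter_upwards [nhdsWithin_le_nhds e1, nhdsWithin_le_nhds e2, self_mem_nhdsWithin]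
      with z h1 h2 h3 using cmp _ _ (d1 z₀ hz₀) (d1 z h3) h2.le z h1.le
  · have hz' : s + 11 * η ≤ ‖Z z - w‖ := hz
    change s + 6 * η ≤ _
    rw [d2 z hz]
    linarith

/-- Eilenberg's criterion -/
lemma eilenberg {F : Set ℂ} (hF : IsClosed F) (hb : Bornology.IsBounded Fᶜ) {p q : ℂ} (hp : p ∉ F)
    (hq : q ∉ F) (h : HasLogOn (fun z => (z - p) / (z - q)) F) :
    q ∈ connectedComponentIn Fᶜ p := by
  classical
  by_contra hn
  set U := connectedComponentIn Fᶜ p with hUd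
  have hU : IsOpen U := hF.isOpen_compl.connectedComponentIn
  have hcl : ∀ z ∈ closure U, z ∉ F → z ∈ U := fun z hz hzF => by
    obtain ⟨y, y1, y2⟩ := mem_closure_iff.1 hz _ (hF.isOpen_compl.connectedComponentIn (x := z))
      (mem_connectedComponentIn hzF)
    rw [hUd, connectedComponentIn_eq y2, ← connectedComponentIn_eq y1]
    exact mem_connectedComponentIn hzF
  obtain ⟨ω, h1, h2⟩ := h
  obtain ⟨g, hg⟩ := ContinuousMap.exists_restrict_eq hF ⟨F.domRestrict ω, h1.domRestrict⟩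
  have hg' : ∀ z ∈ F, g z = ω z := fun z hz => congrFun (congrArg DFunLike.coe hg) ⟨z, hz⟩
  have cG : Continuous fun z => if z ∈ U then exp (g z) * (z - q) else z - p := by
    refine Continuous.if ?_ (by fun_prop) (by fun_prop)
    intro z hz
    have hz' : z ∈ frontier U := hz
    rw [hU.frontier_eq] at hz'
    have zF : z ∈ F := by_contra fun a => hz'.2 (hcl z hz'.1 a)
    have : z - q ≠ 0 := fun e => hq (sub_eq_zero.1 e ▸ zF)
    rw [hg' z zF, h2 z zF]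
    field_simp
  obtain ⟨R, hR⟩ := hb.subset_ball p
  have R0 : 0 < R := by simpa using hR hp
  have l := hasLogOn_of_convex (convex_closedBall p R) cG.continuousOn fun z _ => by
    by_cases hz : z ∈ U
    · rw [if_pos hz]
      exact mul_ne_zero (exp_ne_zero _) fun e => hn (sub_eq_zero.1 e ▸ hz)
    · rw [if_neg hz]
      exact fun e => hz (sub_eq_zero.1 e ▸ mem_connectedComponentIn hp)
  refine not_hasLogOn_sphere p R0 ((l.mono sphere_subset_closedBall).congr fun z hz => ?_)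
  rw [if_neg fun a => (mem_ball.1 (hR (connectedComponentIn_subset _ _ a))).ne hz]

theorem lc_of_up {P : Set ℂ} (hP : IsCompact P) (hPc : Convex ℝ P) {Z : ℂ → ℂ} (hZ : Continuous Z)
    {η : ℝ} (hη : 0 < η) (hB : ∀ z, z ∉ interior P → ‖Z z - z‖ ≤ η) (hU : UP P Z η) (s : ℝ) :
    LC Z univ s (s + 11 * η) := by
  intro w _ p q hp hq
  have hs : 0 ≤ s := (norm_nonneg _).trans hp
  set F : Set ℂ := {z | s + 11 * η ≤ ‖Z z - w‖} with hF
  have nF : ∀ x, ‖Z x - w‖ ≤ s → x ∉ F := fun x hx h => by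
    have : s + 11 * η ≤ ‖Z x - w‖ := h
    linarith
  have l := (exists_log hP hPc hZ hη hB hU hp).div (exists_log hP hPc hZ hη hB hU hq)
  have l' : HasLogOn (fun z => (z - p) / (z - q)) F := l.congr fun z hz => by
    have a : s + 11 * η ≤ ‖Z z - w‖ := hz
    have : Z z - w ≠ 0 := norm_pos_iff.1 (by linarith only [hη, hs, a])
    rw [div_div_div_cancel_right₀ this]
  have hb : Bornology.IsBounded Fᶜ := by
    refine (hP.isBounded.union (isBounded_closedBall (x := w) (r := s + 12 * η))).subset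
      fun z hz => ?_
    by_cases h : z ∈ interior P
    · exact Or.inl (interior_subset h)
    · right
      have a1 := hB z h
      have a2 : ‖Z z - w‖ < s + 11 * η := not_le.1 hz
      rw [mem_closedBall, dist_eq_norm]
      calc ‖z - w‖ = ‖(Z z - w) - (Z z - z)‖ := by congr 1; ring
        _ ≤ _ := norm_sub_le _ _
        _ ≤ _ := by linarith
  exact ⟨_, isPreconnected_connectedComponentIn, mem_connectedComponentIn (nF p hp),
    eilenberg (isClosed_le continuous_const (by fun_prop)) hb (nF p hp) (nF q hq) l',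
    fun z hz => not_le.1 (connectedComponentIn_subset _ _ hz)⟩

end Pool.Agent.MP_17e62b_gt.H72

/-!
Monotone arcs along chains, and straightening of one chord of a rectangle.
-/

namespace Pool.Agent.MP_17e62b_gt.H72
open Set Topology Metric Complex Filter
open Pool.Agent.Lib.PlaneTop Pool.Agent.MP_4a6971_al.H83

/-- An arc from `a` to `y` that runs through the sets `U 0, ..., U k` in this order. -/
structure MArc (U : ℕ → Set ℂ) (k : ℕ) (a y : ℂ) (γ : ℝ → ℂ) (τ : ℝ → ℕ) : Prop where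
  cont : ContinuousOn γ (Icc 0 1)
  inj : InjOn γ (Icc 0 1)
  e0 : γ 0 = a
  e1 : γ 1 = y
  mono : MonotoneOn τ (Icc 0 1)
  le : ∀ t ∈ Icc (0 : ℝ) 1, τ t ≤ k
  mem : ∀ t ∈ Icc (0 : ℝ) 1, γ t ∈ U (τ t)

theorem MArc_line {U : ℕ → Set ℂ} {k : ℕ} {a z : ℂ} (h : z ≠ a) (hA : segment ℝ a z ⊆ U k) :
    MArc U k a z (fun t => a + t • (z - a)) fun _ => k where
  cont := by fun_prop
  inj := fun _ _ _ _ e => smul_left_injective ℝ (sub_ne_zero.2 h) (add_left_cancel e)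
  e0 := by simp
  e1 := by simp
  mono := monotoneOn_const
  le := fun _ _ => le_rfl
  mem := fun t ht => hA (Cone_seg a z ht.1 ht.2)

theorem MArc_cut {U : ℕ → Set ℂ} {k : ℕ} {a y : ℂ} {γ : ℝ → ℂ} {τ : ℝ → ℕ} (h : MArc U k a y γ τ)
    {r : ℝ} (h0 : 0 < r) (h1 : r ≤ 1) :
    MArc U k a (γ r) (fun t => γ (r * t)) fun t => τ (r * t) := by
  have m : MapsTo (fun t => r * t) (Icc (0 : ℝ) 1) (Icc 0 1) := fun t ht =>
    ⟨mul_nonneg h0.le ht.1, mul_le_one₀ h1 ht.1 ht.2⟩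
  exact ⟨h.cont.comp (by fun_prop) m, fun t ht t' ht' e =>
    mul_left_cancel₀ h0.ne' (h.inj (m ht) (m ht') e), by simp [h.e0], by simp,
    fun t ht t' ht' e => h.mono (m ht) (m ht') (mul_le_mul_of_nonneg_left e h0.le),
    fun t ht => h.le _ (m ht), fun t ht => h.mem _ (m ht)⟩

theorem MArc_cat {U : ℕ → Set ℂ} {k : ℕ} {a w z : ℂ} {γ : ℝ → ℂ} {τ : ℝ → ℕ}
    (h : MArc U k a w γ τ) (hz : z ≠ w)
    (hA : segment ℝ w z ⊆ U k) (hd : ∀ t ∈ Ico (0 : ℝ) 1, γ t ∉ segment ℝ w z) :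
    MArc U k a z (fun t => γ (min (2 * t) 1) + max (2 * t - 1) 0 • (z - w))
      fun t => if 2 * t < 1 then τ (2 * t) else k := by
  have m : MapsTo (fun t : ℝ => min (2 * t) 1) (Icc (0 : ℝ) 1) (Icc 0 1) := fun t ht =>
    ⟨le_min (by linarith [ht.1]) zero_le_one, min_le_right _ _⟩
  have p1 : ∀ t : ℝ, 2 * t < 1 → γ (min (2 * t) 1) + max (2 * t - 1) 0 • (z - w) = γ (2 * t) :=
    fun t ht => by rw [min_eq_left ht.le, max_eq_right (by linarith), zero_smul, add_zero]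
  have p2 : ∀ t : ℝ, 1 ≤ 2 * t →
      γ (min (2 * t) 1) + max (2 * t - 1) 0 • (z - w) = w + (2 * t - 1) • (z - w) :=
    fun t ht => by rw [min_eq_right ht, max_eq_left (by linarith), h.e1]
  refine ⟨(h.cont.comp (by fun_prop) m).add (by fun_prop), fun t ht t' ht' e => ?_,
    by simp only [mul_zero, zero_le_one, inf_of_le_left, h.e0, zero_sub, Left.neg_nonpos_iff, sup_of_le_right, zero_smul, add_zero], ?_, fun t ht t' ht' e => ?_, fun t ht => ?_, fun t ht => ?_⟩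
  · rcases lt_or_ge (2 * t) 1 with c | c <;> rcases lt_or_ge (2 * t') 1 with c' | c'
    · simp only [p1 t c, p1 t' c'] at e
      linarith [h.inj ⟨by linarith only [ht.1], c.le⟩ ⟨by linarith [ht'.1], c'.le⟩ e]
    · simp only [p1 t c, p2 t' c'] at e
      exact (hd _ ⟨by linarith [ht.1], c⟩
        (e ▸ Cone_seg w z (by linarith) (by linarith [ht'.2]))).elim
    · simp only [p2 t c, p1 t' c'] at e
      exact (hd _ ⟨by linarith [ht'.1], c'⟩
        (e ▸ Cone_seg w z (by linarith) (by linarith [ht.2]))).elim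
    · simp only [p2 t c, p2 t' c'] at e
      linarith [smul_left_injective ℝ (sub_ne_zero.2 hz) (add_left_cancel e)]
  · rw [p2 1 (by norm_num)]
    norm_num
  · split_ifs with c c' c'
    · exact h.mono ⟨by linarith only [ht.1], c.le⟩ ⟨by linarith [ht'.1], c'.le⟩ (by linarith)
    · exact h.le _ ⟨by linarith [ht.1], c.le⟩
    · linarith
    · exact le_rfl
  · split_ifs with c
    · exact h.le _ ⟨by linarith only [ht.1], c.le⟩
    · exact le_rfl
  · rcases lt_or_ge (2 * t) 1 with c | c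
    · rw [p1 t c, if_pos c]
      exact h.mem _ ⟨by linarith [ht.1], c.le⟩
    · rw [p2 t c, if_neg c.not_gt]
      exact hA (Cone_seg w z (by linarith) (by linarith [ht.2]))

theorem MArc_reach {U : ℕ → Set ℂ} {k : ℕ} {a y z : ℂ} (h : y = a ∨ ∃ γ τ, MArc U k a y γ τ)
    (hA : segment ℝ y z ⊆ U k) : z = a ∨ ∃ γ τ, MArc U k a z γ τ := by
  refine or_iff_not_imp_left.2 fun hz => ?_
  rcases h with rfl | ⟨γ, τ, h⟩
  · exact ⟨_, _, MArc_line hz hA⟩
  have hc : IsCompact (Icc (0 : ℝ) 1 ∩ γ ⁻¹' segment ℝ y z) :=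
    isCompact_Icc.of_isClosed_subset (h.cont.preimage_isClosed_of_isClosed isClosed_Icc
      (by rw [segment_eq_image']; exact (isCompact_Icc.image (by fun_prop)).isClosed))
      inter_subset_left
  obtain ⟨r, ⟨hr, hw⟩, hm⟩ := hc.exists_isLeast
    ⟨1, right_mem_Icc.2 zero_le_one, by rw [mem_preimage, h.e1]; exact left_mem_segment _ _ _⟩
  have hs : segment ℝ (γ r) z ⊆ segment ℝ y z :=
    (convex_segment y z).segment_subset hw (right_mem_segment _ _ _)
  rcases hr.1.eq_or_lt with rfl | h0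
  · exact ⟨_, _, MArc_line hz (h.e0 ▸ hs.trans hA)⟩
  by_cases e : z = γ r
  · exact ⟨_, _, e ▸ MArc_cut h h0 hr.2⟩
  refine ⟨_, _, MArc_cat (MArc_cut h h0 hr.2) e (hs.trans hA) fun t ht c => ?_⟩
  have h1 : r * t < r := mul_lt_of_lt_one_right h0 ht.2
  exact h1.not_ge (hm ⟨⟨mul_nonneg h0.le ht.1, h1.le.trans hr.2⟩, hs c⟩)

theorem chain_arc (U : ℕ → Set ℂ) (p : ℕ → ℂ) (m : ℕ)
    (hU : ∀ k ≤ m, p k ∈ U k ∧ p (k + 1) ∈ U k ∧
      ((IsOpen (U k) ∧ IsPreconnected (U k)) ∨ Convex ℝ (U k))) :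
    p (m + 1) = p 0 ∨ ∃ γ τ, MArc U m (p 0) (p (m + 1)) γ τ := by
  have step : ∀ k ≤ m, (p k = p 0 ∨ ∃ γ τ, MArc U k (p 0) (p k) γ τ) →
      p (k + 1) = p 0 ∨ ∃ γ τ, MArc U k (p 0) (p (k + 1)) γ τ := by
    intro k hk h
    obtain ⟨a1, a2, ⟨o, c⟩ | c⟩ := hU k hk
    · refine c.induction₂' (fun y z => (y = p 0 ∨ ∃ γ τ, MArc U k (p 0) y γ τ) →
        z = p 0 ∨ ∃ γ τ, MArc U k (p 0) z γ τ) (fun y hy => ?_)
        (fun _ _ _ _ _ _ f g h => g (f h)) a1 a2 h
      obtain ⟨r, hr, hb⟩ := Metric.isOpen_iff.1 o y hy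
      filter_upwards [nhdsWithin_le_nhds (ball_mem_nhds y hr)] with z hz
      exact ⟨fun h => MArc_reach h (((convex_ball y r).segment_subset (mem_ball_self hr) hz).trans
        hb), fun h => MArc_reach h (((convex_ball y r).segment_subset hz
        (mem_ball_self hr)).trans hb)⟩
    · exact MArc_reach h (c.segment_subset a1 a2)
  have all : ∀ k ≤ m, p (k + 1) = p 0 ∨ ∃ γ τ, MArc U k (p 0) (p (k + 1)) γ τ := by
    intro k
    induction k with
    | zero => exact fun hk => step 0 hk (Or.inl rfl)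
    | succ k ih =>
      intro hk
      refine step _ hk ((ih (by omega)).imp_right ?_)
      rintro ⟨γ, τ, h⟩
      exact ⟨γ, τ, h.cont, h.inj, h.e0, h.e1, h.mono, fun t ht => (h.le t ht).trans (by omega),
        h.mem⟩
  exact all m le_rfl

lemma cut_conn {U A S : Set ℂ} (hU : IsPreconnected U) (hA : IsClosed A) (hS : IsPreconnected S)
    (h : U ∩ frontier A ⊆ S) {s₀ : ℂ} (hs₀ : s₀ ∈ U ∩ frontier A) :
    IsPreconnected (U ∩ A ∪ S) := by
  classical
  refine isPreconnected_of_forall_constant fun f hf => ?_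
  have hs := h hs₀
  have cS : ∀ x ∈ S, f x = f s₀ := fun x hx =>
    hS.constant (hf.mono subset_union_right) hx hs
  have c : ContinuousOn (A.piecewise f fun _ => f s₀) U :=
    ContinuousOn.piecewise (fun a ha => cS a (h ha))
      (by rw [hA.closure_eq]; exact hf.mono subset_union_left) continuousOn_const
  have all : ∀ x ∈ U ∩ A ∪ S, f x = f s₀ := by
    rintro x (hx | hx)
    · have := hU.constant c hx.1 hs₀.1
      rwa [piecewise_eq_of_mem _ _ _ hx.2,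
        piecewise_eq_of_mem _ _ _ (hA.frontier_subset hs₀.2)] at this
    · exact cS x hx
  exact fun x hx y hy => (all x hx).trans (all y hy).symm

lemma meets_frontier {U A : Set ℂ} (hU : IsPreconnected U) {p q : ℂ} (hp : p ∈ U) (hpA : p ∈ A)
    (hq : q ∈ U) (hqA : q ∉ interior A) : (U ∩ frontier A).Nonempty := by
  by_contra hn
  rw [not_nonempty_iff_eq_empty] at hn
  have a : ∀ z ∈ U, z ∈ closure A → z ∈ interior A := fun z hz h => by_contra fun h' =>
    (show z ∈ (∅ : Set ℂ) from hn ▸ ⟨hz, h, h'⟩)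
  exact hqA (hU.subset_of_closure_inter_subset isOpen_interior ⟨p, hp, a p hp (subset_closure hpA)⟩
    (fun z hz => a z hz.2 (closure_mono interior_subset hz.1)) hq)

lemma reparam {y ℓ : ℝ → ℝ} (hy : ContinuousOn y (Icc 0 1)) (hl : MonotoneOn ℓ (Icc 0 1))
    {α β E : ℝ} (hE : 0 < E) (hαβ : α < β) (h : ∀ t ∈ Icc (0 : ℝ) 1, |y t - ℓ t| ≤ E)
    (hβ : ℓ 1 ≤ β) (h0 : |y 0 - α| ≤ E) (h1 : |y 1 - β| ≤ E) :
    ∃ X : ℝ → ℝ, Continuous X ∧ StrictMonoOn X (Icc 0 1) ∧ X 0 = α ∧ X 1 = β ∧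
      ∀ t ∈ Icc (0 : ℝ) 1, |X t - ℓ t| ≤ 4 * E := by
  set y' : ℝ → ℝ := fun t => y (projIcc (0 : ℝ) 1 zero_le_one t) with hy'
  have cy : Continuous y' :=
    hy.comp_continuous (by fun_prop) fun t => (projIcc (0 : ℝ) 1 zero_le_one t).2
  have ey : ∀ t ∈ Icc (0 : ℝ) 1, y' t = y t := fun t ht => by simp [hy', projIcc_of_mem _ ht]
  set M : ℝ → ℝ := fun t => sSup ((fun s => y' (s * t)) '' Icc (0 : ℝ) 1) with hM
  have cM : Continuous M :=
    isCompact_Icc.continuous_sSup (f := fun t s => y' (s * t)) (by fun_prop)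
  have bd : ∀ t, BddAbove ((fun s => y' (s * t)) '' Icc (0 : ℝ) 1) := fun t =>
    (isCompact_Icc.image (by fun_prop)).bddAbove
  have ne : ∀ t, ((fun s => y' (s * t)) '' Icc (0 : ℝ) 1).Nonempty := fun t =>
    (nonempty_Icc.2 zero_le_one).image _
  have lo : ∀ t ∈ Icc (0 : ℝ) 1, ∀ u ∈ Icc (0 : ℝ) t, y u ≤ M t := fun t ht u hu => by
    refine le_csSup (bd t) ?_
    rcases ht.1.eq_or_lt with rfl | t0
    · exact ⟨0, left_mem_Icc.2 zero_le_one, by
        rw [le_antisymm hu.2 hu.1]; simpa using ey 0 ht⟩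
    · exact ⟨u / t, ⟨div_nonneg hu.1 ht.1, (div_le_one t0).2 hu.2⟩, by
        dsimp only; rw [div_mul_cancel₀ _ t0.ne', ey u ⟨hu.1, hu.2.trans ht.2⟩]⟩
  have up : ∀ t ∈ Icc (0 : ℝ) 1, ∀ B, (∀ u ∈ Icc (0 : ℝ) t, y u ≤ B) → M t ≤ B := fun t ht B hB => by
    refine csSup_le (ne t) ?_
    rintro _ ⟨s, hs, rfl⟩
    have m : s * t ∈ Icc (0 : ℝ) t := ⟨mul_nonneg hs.1 ht.1, mul_le_of_le_one_left ht.1 hs.2⟩
    dsimp only
    rw [ey _ ⟨m.1, m.2.trans ht.2⟩]
    exact hB _ m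
  have mM : MonotoneOn M (Icc 0 1) := fun t ht t' ht' e =>
    up t ht _ fun u hu => lo t' ht' u ⟨hu.1, hu.2.trans e⟩
  have b1 : ∀ t ∈ Icc (0 : ℝ) 1, ℓ t - E ≤ M t := fun t ht => by
    linarith [lo t ht t ⟨ht.1, le_rfl⟩, (abs_le.1 (h t ht)).1]
  have b2 : ∀ t ∈ Icc (0 : ℝ) 1, M t ≤ ℓ t + E := fun t ht => up t ht _ fun u hu => by
    have hu' : u ∈ Icc (0 : ℝ) 1 := ⟨hu.1, hu.2.trans ht.2⟩
    linarith [(abs_le.1 (h u hu')).2, hl hu' ht hu.2]
  have i0 : (0 : ℝ) ∈ Icc (0 : ℝ) 1 := left_mem_Icc.2 zero_le_one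
  have i1 : (1 : ℝ) ∈ Icc (0 : ℝ) 1 := right_mem_Icc.2 zero_le_one
  have M0 : M 0 = y 0 := le_antisymm (up 0 i0 _ fun u hu => by rw [le_antisymm hu.2 hu.1])
    (lo 0 i0 0 ⟨le_rfl, le_rfl⟩)
  set G : ℝ → ℝ := fun t => M t + E * t with hG
  have sG : StrictMonoOn G (Icc 0 1) := fun t ht t' ht' e => by
    have := mM ht ht' e.le
    have := mul_lt_mul_of_pos_left e hE
    simp only [hG]; linarith
  have d : 0 < G 1 - G 0 := sub_pos.2 (sG i0 i1 one_pos)
  refine ⟨fun t => α + (G t - G 0) / (G 1 - G 0) * (β - α), by fun_prop, fun t ht t' ht' e => ?_,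
    by simp, by simp [div_self d.ne'], fun t ht => ?_⟩
  · have := mul_lt_mul_of_pos_right (div_lt_div_of_pos_right (sub_lt_sub_right (sG ht ht' e) (G 0)) d)
      (sub_pos.2 hαβ)
    dsimp only
    linarith
  · set l := (G t - G 0) / (G 1 - G 0) with hl'
    have l0 : 0 ≤ l := div_nonneg (sub_nonneg.2 (sG.monotoneOn i0 ht ht.1)) d.le
    have l1 : l ≤ 1 := (div_le_one d).2 (sub_le_sub_right (sG.monotoneOn ht i1 ht.2) _)
    have eG : G t = G 0 + l * (G 1 - G 0) := by rw [hl', div_mul_cancel₀ _ d.ne']; ring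
    have g0 : |α - G 0| ≤ 2 * E := by
      simp only [hG, M0, mul_zero, add_zero]
      rw [abs_sub_comm]; linarith only [hE, h0]
    have g1 : |β - G 1| ≤ 2 * E := by
      have := lo 1 i1 1 i1
      have := b2 1 i1
      have := abs_le.1 h1
      simp only [hG, mul_one]
      rw [abs_le]; constructor <;> linarith
    have g2 : |G t - ℓ t| ≤ 2 * E := by
      have := b1 t ht
      have := b2 t ht
      have := mul_nonneg hE.le ht.1
      have := mul_le_of_le_one_right hE.le ht.2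
      simp only [hG]
      rw [abs_le]; constructor <;> linarith
    have e : α + l * (β - α) - ℓ t = (1 - l) * (α - G 0) + l * (β - G 1) + (G t - ℓ t) := by
      rw [eG]; ring
    rw [abs_le] at g0 g1 g2 ⊢
    dsimp only
    rw [e]
    have := mul_le_mul_of_nonneg_left g0.1 (sub_nonneg.2 l1)
    have := mul_le_mul_of_nonneg_left g0.2 (sub_nonneg.2 l1)
    have := mul_le_mul_of_nonneg_left g1.1 l0
    have := mul_le_mul_of_nonneg_left g1.2 l0
    constructor <;> linarith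

lemma convex_rect {s t : Set ℝ} (hs : Convex ℝ s) (ht : Convex ℝ t) : Convex ℝ (s ×ℂ t) :=
  (hs.linear_preimage reLm).inter (ht.linear_preimage imLm)

lemma mem_int_rect {α β c d : ℝ} {z : ℂ} : z ∈ interior (Icc α β ×ℂ Icc c d) ↔
    (α < z.re ∧ z.re < β) ∧ c < z.im ∧ z.im < d := by
  rw [interior_reProdIm, interior_Icc, interior_Icc]; rfl

lemma mem_rect {α β c d : ℝ} {z : ℂ} : z ∈ Icc α β ×ℂ Icc c d ↔
    (α ≤ z.re ∧ z.re ≤ β) ∧ c ≤ z.im ∧ z.im ≤ d := Iff.rfl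

lemma norm_le_re_im {z w : ℂ} {r s : ℝ} (h1 : |z.re - w.re| ≤ r) (h2 : |z.im - w.im| ≤ s) :
    ‖z - w‖ ≤ r + s :=
  (norm_le_abs_re_add_abs_im _).trans (by rw [sub_re, sub_im]; linarith)

lemma re_im_le {z w : ℂ} {r : ℝ} (h : ‖z - w‖ ≤ r) :
    (w.re - r ≤ z.re ∧ z.re ≤ w.re + r) ∧ w.im - r ≤ z.im ∧ z.im ≤ w.im + r := by
  have h1 := abs_le.1 ((abs_re_le_norm _).trans h)
  have h2 := abs_le.1 ((abs_im_le_norm _).trans h)
  rw [sub_re] at h1
  rw [sub_im] at h2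
  exact ⟨⟨by linarith, by linarith⟩, by linarith, by linarith⟩

lemma tri {a b c : ℂ} {r s : ℝ} (h1 : ‖a - b‖ ≤ r) (h2 : ‖b - c‖ ≤ s) : ‖a - c‖ ≤ r + s :=
  (norm_sub_le_norm_sub_add_norm_sub a b c).trans (add_le_add h1 h2)

lemma collar {Z : ℂ → ℂ} (hZ : Continuous Z) {α β c d eB : ℝ} (hαβ : α ≤ β) (h0 : 0 < eB)
    (hside : ∀ z ∈ Icc α β ×ℂ Icc c d, z.re = α ∨ z.re = β → ‖Z z - z‖ ≤ eB) :
    ∃ θ > 0, θ ≤ eB ∧ ∀ z ∈ Icc α β ×ℂ Icc c d, z.re ≤ α + θ ∨ β - θ ≤ z.re →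
      ‖Z z - z‖ ≤ 2 * eB := by
  obtain ⟨δ, δ0, hδ⟩ := Metric.uniformContinuousOn_iff.1
    ((isCompact_Icc.reProdIm isCompact_Icc : IsCompact (Icc α β ×ℂ Icc c d)
      ).uniformContinuousOn_of_continuous (f := fun z => Z z - z) (by fun_prop)) eB h0
  refine ⟨min eB (δ / 2), by positivity, min_le_left _ _, fun z hz h => ?_⟩
  have m := min_le_right eB (δ / 2)
  obtain ⟨x, x1, x2, x3⟩ : ∃ x, (α ≤ x ∧ x ≤ β) ∧ (x = α ∨ x = β) ∧ |z.re - x| ≤ δ / 2 := by
    rcases h with h | h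
    · exact ⟨α, ⟨le_rfl, hαβ⟩, Or.inl rfl, abs_le.2 ⟨by linarith only [hz.1.1, δ0], by linarith only [m, h]⟩⟩
    · exact ⟨β, ⟨hαβ, le_rfl⟩, Or.inr rfl, abs_le.2 ⟨by linarith, by linarith only [hz.1.2, δ0]⟩⟩
  have hz' : (⟨x, z.im⟩ : ℂ) ∈ Icc α β ×ℂ Icc c d := ⟨x1, hz.2⟩
  have a1 := hδ z hz _ hz' (by
    rw [dist_eq_norm]
    have := norm_le_re_im (z := z) (w := ⟨x, z.im⟩) (s := 0) x3 (by simp)
    linarith only [δ0, this])
  rw [dist_eq_norm] at a1
  have a2 := hside _ hz' x2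
  have a3 := tri (c := 0) a1.le (by rw [sub_zero])
  rw [sub_zero] at a3
  linarith only [a2, a3]

lemma rect_surj {Z : ℂ → ℂ} (hZ : Continuous Z) {α β c d e e' : ℝ} (hαβ : α ≤ β) (hcd : c ≤ d)
    (hside : ∀ z ∈ Icc α β ×ℂ Icc c d, z.re = α ∨ z.re = β → ‖Z z - z‖ ≤ e)
    (htb : ∀ z ∈ Icc α β ×ℂ Icc c d, z.im = c ∨ z.im = d → ‖Z z - z‖ ≤ e') {w : ℂ}
    (h1 : α + e ≤ w.re) (h2 : w.re + e ≤ β) (h3 : c + e' ≤ w.im) (h4 : w.im + e' ≤ d) :
    ∃ p ∈ Icc α β ×ℂ Icc c d, Z p = w := by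
  set φ : ℝ → ℝ → ℂ := fun s t => ((α + s * (β - α) : ℝ) : ℂ) + ((c + t * (d - c) : ℝ) : ℂ) * I
    with hφ
  have r : ∀ s t, (φ s t).re = α + s * (β - α) := fun s t => by simp [hφ]
  have i : ∀ s t, (φ s t).im = c + t * (d - c) := fun s t => by simp [hφ]
  have m : ∀ s ∈ Icc (0 : ℝ) 1, ∀ t ∈ Icc (0 : ℝ) 1, φ s t ∈ Icc α β ×ℂ Icc c d := by
    intro s hs t ht
    rw [mem_rect, r, i]
    have := mul_nonneg hs.1 (sub_nonneg.2 hαβ)
    have := mul_nonneg ht.1 (sub_nonneg.2 hcd)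
    have := mul_le_of_le_one_left (sub_nonneg.2 hαβ) hs.2
    have := mul_le_of_le_one_left (sub_nonneg.2 hcd) ht.2
    exact ⟨⟨by linarith, by linarith⟩, by linarith, by linarith⟩
  have i0 : (0 : ℝ) ∈ Icc (0 : ℝ) 1 := left_mem_Icc.2 zero_le_one
  have i1 : (1 : ℝ) ∈ Icc (0 : ℝ) 1 := right_mem_Icc.2 zero_le_one
  obtain ⟨s, hs, t, ht, h⟩ := miranda (u := fun s t => Z (φ s t) - w) (by fun_prop)
    (fun t ht => by
      have := (re_im_le (hside _ (m 0 i0 t ht) (Or.inl (by rw [r]; ring)))).1.2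
      rw [r] at this
      rw [sub_re]; linarith)
    (fun t ht => by
      have := (re_im_le (hside _ (m 1 i1 t ht) (Or.inr (by rw [r]; ring)))).1.1
      rw [r] at this
      rw [sub_re]; linarith)
    (fun s hs => by
      have := (re_im_le (htb _ (m s hs 0 i0) (Or.inl (by rw [i]; ring)))).2.2
      rw [i] at this
      rw [sub_im]; linarith)
    (fun s hs => by
      have := (re_im_le (htb _ (m s hs 1 i1) (Or.inr (by rw [i]; ring)))).2.1
      rw [i] at this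
      rw [sub_im]; linarith)
  exact ⟨_, m s hs t ht, sub_eq_zero.1 h⟩

/-- one horizontal chord of a rectangle can be straightened -/
theorem chord {Z : ℂ → ℂ} (hZ : Continuous Z) {W : Set ℂ} {a e eB e' α β c d b : ℝ}
    (hL : LC Z W a e) (hW : Icc α β ×ℂ Icc c d ⊆ W) (h0 : 0 < eB) (h6 : 6 * eB ≤ a) (hae : a ≤ e)
    (he' : 0 ≤ e')
    (hside : ∀ z ∈ Icc α β ×ℂ Icc c d, z.re = α ∨ z.re = β → ‖Z z - z‖ ≤ eB)
    (htb : ∀ z ∈ Icc α β ×ℂ Icc c d, z.im = c ∨ z.im = d → ‖Z z - z‖ ≤ e')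
    (hb1 : c + 2 * e + e' ≤ b) (hb2 : b + 2 * e + e' ≤ d) (hw : 4 * e ≤ β - α) :
    ∃ h : ℂ ≃ₜ ℂ, Supp h (Icc α β ×ℂ Icc c d) ∧
      ∀ z ∈ Icc α β ×ℂ Icc c d, z.im = b → ‖Z (h.symm z) - z‖ ≤ 20 * e := by
  classical
  have hαβ : α < β := by linarith
  obtain ⟨θ, θ0, θ1, hθ⟩ := collar hZ hαβ.le h0 hside
  set R := Icc α β ×ℂ Icc c d with hR
  set A := Icc (α + θ) (β - θ) ×ℂ Icc c d with hA
  have AR : A ⊆ R := fun z hz => ⟨⟨by linarith only [hz.1.1, θ0], by linarith [hz.1.2]⟩, hz.2⟩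
  have pts : ∀ x, α ≤ x ∧ x ≤ β → ∃ p ∈ A, ‖Z p - ⟨x, b⟩‖ ≤ 5 * eB ∧
      (x = α → p = ⟨α + θ, b⟩) ∧ (x = β → p = ⟨β - θ, b⟩) := by
    intro x hx
    by_cases h1 : x ≤ α + θ + 2 * eB
    · have m : (⟨α + θ, b⟩ : ℂ) ∈ A := ⟨⟨le_rfl, by dsimp only; linarith only [h0, h6, hae, hw, θ1]⟩, by dsimp only; linarith,
        by dsimp only; linarith⟩
      refine ⟨_, m, ?_, fun _ => rfl, fun h => by linarith⟩
      have := tri (hθ _ (AR m) (Or.inl le_rfl)) (norm_le_re_im (w := ⟨x, b⟩) (r := 2 * eB) (s := 0)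
        (abs_le.2 ⟨by dsimp only; linarith, by dsimp only; linarith⟩) (by simp))
      linarith only [h0, this]
    by_cases h2 : β - θ - 2 * eB ≤ x
    · have m : (⟨β - θ, b⟩ : ℂ) ∈ A := ⟨⟨by dsimp only; linarith only [h0, h6, hae, hw, θ1], le_rfl⟩, by dsimp only; linarith,
        by dsimp only; linarith⟩
      refine ⟨_, m, ?_, fun h => by linarith, fun _ => rfl⟩
      have := tri (hθ _ (AR m) (Or.inr le_rfl)) (norm_le_re_im (w := ⟨x, b⟩) (r := 2 * eB) (s := 0)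
        (abs_le.2 ⟨by dsimp only; linarith, by dsimp only; linarith⟩) (by simp))
      linarith
    obtain ⟨p, hp, e⟩ := rect_surj hZ (α := α + θ) (β := β - θ) (c := c) (d := d) (e := 2 * eB)
      (e' := e') (w := ⟨x, b⟩) (by linarith) (by linarith)
      (fun z hz h => hθ z (AR hz) (h.imp le_of_eq ge_of_eq)) (fun z hz h => htb z (AR hz) h)
      (by dsimp only; linarith) (by dsimp only; linarith) (by dsimp only; linarith)
      (by dsimp only; linarith)
    exact ⟨p, hp, by rw [e, sub_self, norm_zero]; linarith, fun h => by linarith,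
      fun h => by linarith⟩
  choose! P P1 P2 P3 P4 using pts
  have link : ∀ x x', α ≤ x ∧ x ≤ β → α ≤ x' ∧ x' ≤ β → |x' - x| ≤ eB →
      ∃ O, IsOpen O ∧ IsPreconnected O ∧ P x ∈ O ∧ P x' ∈ O ∧
        ∀ z ∈ O, z ∈ interior R ∧ ‖Z z - ⟨x, b⟩‖ ≤ 4 * e := by
    intro x x' hx hx' hd
    have cR : (⟨x, b⟩ : ℂ) ∈ R := ⟨hx, by dsimp only; linarith, by dsimp only; linarith⟩
    obtain ⟨U, u1, u2, u3, u4⟩ := hL _ (hW cR) (P x) (P x') (by linarith [P2 x hx]) (by
      have := tri (P2 x' hx') (norm_le_re_im (w := ⟨x, b⟩) (s := 0) hd (by simp))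
      linarith)
    have tb : ∀ z ∈ U ∩ A, c < z.im ∧ z.im < d := fun z hz => by
      have a1 := (re_im_le (u4 z hz.1).le).2
      dsimp only at a1
      refine ⟨hz.2.2.1.lt_of_ne fun h => ?_, hz.2.2.2.lt_of_ne fun h => ?_⟩
      · linarith [(re_im_le (htb z (AR hz.2) (Or.inl h.symm))).2.2]
      · linarith [(re_im_le (htb z (AR hz.2) (Or.inr h))).2.1]
    set G := interior R ∩ {z | ‖Z z - ⟨x, b⟩‖ < 4 * e} with hG
    have g1 : U ∩ A ⊆ G := fun z hz => ⟨mem_int_rect.2 ⟨⟨by linarith [hz.2.1.1],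
      by linarith [hz.2.1.2]⟩, tb z hz⟩, (u4 z hz.1).trans_le (by linarith)⟩
    obtain ⟨V, v1, v2, v3⟩ : ∃ V, IsPreconnected V ∧ U ∩ A ⊆ V ∧ V ⊆ G := by
      have hAc : IsClosed A := isClosed_Icc.reProdIm isClosed_Icc
      by_cases hn : (U ∩ frontier A).Nonempty
      · obtain ⟨s₀, hs₀⟩ := hn
        have fr : ∀ z ∈ U ∩ frontier A, (z.re = α + θ ∨ z.re = β - θ) ∧
            ‖z - ⟨x, b⟩‖ ≤ 2 * eB + e := fun z hz => by
          have zA := hAc.frontier_subset hz.2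
          have t := tb z ⟨hz.1, zA⟩
          have o : z.re = α + θ ∨ z.re = β - θ := by
            by_contra h
            push Not at h
            exact hz.2.2 (mem_int_rect.2 ⟨⟨zA.1.1.lt_of_ne h.1.symm, zA.1.2.lt_of_ne h.2⟩, t⟩)
          have := hθ z (AR zA) (o.imp le_of_eq ge_of_eq)
          rw [norm_sub_rev] at this
          exact ⟨o, tri this (u4 z hz.1).le⟩
        have f0 := fr s₀ hs₀
        have f1 := (re_im_le f0.2).1
        dsimp only at f1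
        refine ⟨U ∩ A ∪ {s₀.re} ×ℂ Icc (b - (2 * eB + e)) (b + (2 * eB + e)), cut_conn u1 hAc
          (convex_rect (convex_singleton _) (convex_Icc _ _)).isPreconnected (fun z hz => ?_) hs₀,
          subset_union_left, union_subset g1 fun z hz => ?_⟩
        · have f2 := fr z hz
          have f3 := re_im_le f2.2
          dsimp only at f3
          refine ⟨?_, f3.2⟩
          change z.re = s₀.re
          rcases f0.1 with h | h <;> rcases f2.1 with h' | h' <;> linarith only [f3.1.1, f3.1.2, h, h', h0, h6, hae, hw, θ1, f1]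
        · have z1 : z.re = s₀.re := hz.1
          have z2 := hz.2
          have zi : z ∈ interior R := mem_int_rect.2
            ⟨by rcases f0.1 with h | h <;> constructor <;> linarith only [θ0, z1, h, h0, h6, hae, hw, θ1],
              by linarith only [z2.1, h0, h6, hae, he', hb1], by linarith only [z2.2, h0, h6, hae, he', hb2]⟩
          refine ⟨zi, ?_⟩
          have := tri (hθ z (interior_subset zi) (by rw [z1]; exact f0.1.imp le_of_eq ge_of_eq))
            (norm_le_re_im (w := ⟨x, b⟩) (r := 2 * eB + e) (s := 2 * eB + e)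
              (abs_le.2 ⟨by dsimp only; linarith only [f1, z1], by dsimp only; linarith only [f1, z1]⟩)
              (abs_le.2 ⟨by dsimp only; linarith only [z2.1], by dsimp only; linarith only [z2.2]⟩))
          exact this.trans_lt (by linarith only [h0, h6, hae])
      · exact ⟨U, u1, inter_subset_left, fun z hz => g1 ⟨hz, interior_subset (by_contra fun h =>
          hn (meets_frontier u1 u2 (P1 x hx) hz h))⟩⟩
    have oG : IsOpen G := isOpen_interior.inter (isOpen_lt (by fun_prop) continuous_const)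
    have m1 := v2 ⟨u2, P1 x hx⟩
    exact ⟨connectedComponentIn G (P x), oG.connectedComponentIn,
      isPreconnected_connectedComponentIn, mem_connectedComponentIn (v3 m1),
      v1.subset_connectedComponentIn m1 v3 (v2 ⟨u3, P1 x' hx'⟩), fun z hz =>
        ⟨(connectedComponentIn_subset _ _ hz).1, le_of_lt (connectedComponentIn_subset _ _ hz).2⟩⟩
  choose! O O1 O2 O3 O4 O5 using link
  obtain ⟨n, hn⟩ := exists_nat_gt ((β - α) / eB)
  have n0 : (0 : ℝ) < n := lt_trans (div_pos (by linarith only [h0, h6, hae, hw]) h0) hn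
  set s := (β - α) / n with hs
  have s0 : 0 < s := div_pos (by linarith only [h0, h6, hae, hw]) n0
  have s1 : s ≤ eB := by
    rw [hs, div_le_iff₀ n0]
    rw [div_lt_iff₀ h0] at hn
    linarith only [hn]
  set x : ℕ → ℝ := fun k => α + k * s with hx
  have xn : x n = β := by simp only [hx, hs]; field_simp; ring
  have xm : Monotone x := fun k l h => by
    simp only [hx]
    have := mul_le_mul_of_nonneg_right (Nat.cast_le (α := ℝ).2 h) s0.le
    linarith only [this]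
  have x0 : x 0 = α := by simp [hx]
  have xr : ∀ k ≤ n, α ≤ x k ∧ x k ≤ β := fun k hk => ⟨x0 ▸ xm (Nat.zero_le k), xn ▸ xm hk⟩
  have xs : ∀ k, |x (k + 1) - x k| ≤ eB := fun k => by
    rw [show x (k + 1) - x k = s by simp only [hx]; push_cast; ring, abs_of_pos s0]
    exact s1
  set U : ℕ → Set ℂ := fun j => if j = 0 then Icc α (α + θ) ×ℂ {b} else
    if j = n + 1 then Icc (β - θ) β ×ℂ {b} else O (x (j - 1)) (x j) with hU
  set p : ℕ → ℂ := fun j => if j = 0 then ⟨α, b⟩ else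
    if j = n + 2 then ⟨β, b⟩ else P (x (j - 1)) with hp
  have hU1 : ∀ k ≤ n + 1, p k ∈ U k ∧ p (k + 1) ∈ U k ∧
      ((IsOpen (U k) ∧ IsPreconnected (U k)) ∨ Convex ℝ (U k)) := by
    intro k hk
    rcases k with _ | k
    · simp only [hU, hp, if_true, zero_add, one_ne_zero, if_false,
        show (1 : ℕ) ≠ n + 2 by omega, Nat.sub_self]
      rw [P3 _ (xr 0 (by omega)) x0]
      exact ⟨⟨⟨le_rfl, by dsimp only; linarith only [θ0]⟩, rfl⟩, ⟨⟨by dsimp only; linarith only [θ0], le_rfl⟩, rfl⟩,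
        Or.inr (convex_rect (convex_Icc _ _) (convex_singleton _))⟩
    · by_cases h : k = n
      · subst h
        simp only [hU, hp, Nat.add_one_ne_zero, if_true, if_false,
          show k + 1 ≠ k + 2 by omega, Nat.add_sub_cancel]
        rw [P4 _ (xr k le_rfl) xn]
        exact ⟨⟨⟨le_rfl, by dsimp only; linarith only [θ0]⟩, rfl⟩, ⟨⟨by dsimp only; linarith only [θ0], le_rfl⟩, rfl⟩,
          Or.inr (convex_rect (convex_Icc _ _) (convex_singleton _))⟩
      · simp only [hU, hp, Nat.add_one_ne_zero, if_false, show k + 1 ≠ n + 1 by omega,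
          show k + 1 ≠ n + 2 by omega, show k + 1 + 1 ≠ n + 2 by omega, Nat.add_sub_cancel]
        have a1 := xr k (by omega)
        have a2 := xr (k + 1) (by omega)
        exact ⟨O3 _ _ a1 a2 (xs k), O4 _ _ a1 a2 (xs k),
          Or.inl ⟨O1 _ _ a1 a2 (xs k), O2 _ _ a1 a2 (xs k)⟩⟩
  have hU2 : ∀ k ≤ n + 1, ∀ z ∈ U k, (z ∈ interior R ∨ z = ⟨α, b⟩ ∨ z = ⟨β, b⟩) ∧
      ‖Z z - ⟨x (k - 1), b⟩‖ ≤ 4 * e := by
    intro k hk z hz
    have en : ∀ u : ℝ, z.im = b → α ≤ z.re → z.re ≤ β → z.re ≤ α + θ ∨ β - θ ≤ z.re →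
        |z.re - u| ≤ θ →
        (z ∈ interior R ∨ z = ⟨α, b⟩ ∨ z = ⟨β, b⟩) ∧ ‖Z z - ⟨u, b⟩‖ ≤ 4 * e := by
      intro u z1 z2 z3 z4 z5
      constructor
      · rcases z2.eq_or_lt with h | h
        · exact Or.inr (Or.inl (Complex.ext h.symm z1))
        rcases z3.eq_or_lt with h' | h'
        · exact Or.inr (Or.inr (Complex.ext h' z1))
        exact Or.inl (mem_int_rect.2 ⟨⟨h, h'⟩, by linarith only [h0, h6, hae, he', hb1, z1], by linarith only [h0, h6, hae, he', hb2, z1]⟩)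
      · have := tri (hθ z ⟨⟨z2, z3⟩, by linarith only [h0, h6, hae, he', hb1, z1], by linarith only [h0, h6, hae, he', hb2, z1]⟩ z4)
          (norm_le_re_im (w := ⟨u, b⟩) (s := 0) z5 (by simp [z1]))
        linarith only [h0, h6, hae, θ1, this]
    rcases k with _ | k
    · simp only [hU, if_true] at hz
      rw [Nat.zero_sub, x0]
      exact en α hz.2 hz.1.1 (by linarith only [hz.1.2, h0, h6, hae, hw, θ1]) (Or.inl hz.1.2)
        (abs_le.2 ⟨by linarith only [hz.1.1, θ0], by linarith only [hz.1.2]⟩)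
    · by_cases h : k = n
      · subst h
        simp only [hU, Nat.add_one_ne_zero, if_true, if_false] at hz
        rw [Nat.add_sub_cancel, xn]
        exact en β hz.2 (by linarith only [hz.1.1, h0, h6, hae, hw, θ1]) hz.1.2 (Or.inr hz.1.1)
          (abs_le.2 ⟨by linarith only [hz.1.1], by linarith only [hz.1.2, θ0]⟩)
      · simp only [hU, Nat.add_one_ne_zero, if_false, show k + 1 ≠ n + 1 by omega,
          Nat.add_sub_cancel] at hz
        have := O5 _ _ (xr k (by omega)) (xr (k + 1) (by omega)) (xs k) z hz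
        exact ⟨Or.inl this.1, this.2⟩
  have p0 : p 0 = ⟨α, b⟩ := by simp [hp]
  have p1 : p (n + 1 + 1) = ⟨β, b⟩ := by simp [hp]
  obtain h | ⟨γ, τ, h⟩ := chain_arc U p (n + 1) hU1
  · rw [p0, p1] at h
    exact absurd (congrArg Complex.re h) hαβ.ne'
  rw [p0, p1] at h
  have i0 : (0 : ℝ) ∈ Icc (0 : ℝ) 1 := left_mem_Icc.2 zero_le_one
  have i1 : (1 : ℝ) ∈ Icc (0 : ℝ) 1 := right_mem_Icc.2 zero_le_one
  have mα : (⟨α, b⟩ : ℂ) ∈ R := ⟨⟨le_rfl, hαβ.le⟩, by dsimp only; linarith only [h0, h6, hae, he', hb1], by dsimp only; linarith only [h0, h6, hae, he', hb2]⟩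
  have mβ : (⟨β, b⟩ : ℂ) ∈ R := ⟨⟨hαβ.le, le_rfl⟩, by dsimp only; linarith only [h0, h6, hae, he', hb1], by dsimp only; linarith only [h0, h6, hae, he', hb2]⟩
  have nα : (⟨α, b⟩ : ℂ) ∉ interior R := fun h => lt_irrefl α (mem_int_rect.1 h).1.1
  have nβ : (⟨β, b⟩ : ℂ) ∉ interior R := fun h => lt_irrefl β (mem_int_rect.1 h).1.2
  have hγ := fun t ht => hU2 _ (h.le t ht) _ (h.mem t ht)
  have a1 : PArc R γ := ⟨h.cont, h.inj, h.e0 ▸ mα, h.e0 ▸ nα, h.e1 ▸ mβ, h.e1 ▸ nβ, fun t ht => by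
    have ht' := Ioo_subset_Icc_self ht
    rcases (hγ t ht').1 with c | c | c
    · exact c
    · exact (ht.1.ne' (h.inj ht' i0 (c.trans h.e0.symm))).elim
    · exact (ht.2.ne (h.inj ht' i1 (c.trans h.e1.symm))).elim⟩
  obtain ⟨X, X1, X2, X3, X4, X5⟩ := reparam (y := fun t => (Z (γ t)).re)
    (ℓ := fun t => x (τ t - 1)) (E := 4 * e) (α := α) (β := β)
    (continuous_re.comp_continuousOn (hZ.comp_continuousOn h.cont))
    (fun t ht t' ht' e => xm (Nat.sub_le_sub_right (h.mono ht ht' e) 1)) (by linarith only [h0, h6, hae]) hαβ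
    (fun t ht => by
      have := (re_im_le (hγ t ht).2).1
      exact abs_le.2 ⟨by linarith only [this.1], by linarith only [this.2]⟩)
    (xr _ (by have := h.le 1 i1; omega)).2
    (by
      have := (re_im_le (hside _ mα (Or.inl rfl))).1
      rw [h.e0]
      exact abs_le.2 ⟨by linarith only [this.1, h0, h6, hae], by linarith only [this.2, h0, h6, hae]⟩)
    (by
      have := (re_im_le (hside _ mβ (Or.inr rfl))).1
      rw [h.e1]
      exact abs_le.2 ⟨by linarith only [this.1, h0, h6, hae], by linarith only [this.2, h0, h6, hae]⟩)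
  have e2 : ∀ t, ((X t : ℂ) + b * I) = ⟨X t, b⟩ := fun t => Complex.ext (by simp) (by simp)
  have a2 : PArc R fun t => (X t : ℂ) + b * I := by
    refine ⟨by fun_prop, fun t ht t' ht' e => X2.injOn ht ht' (by simpa using e), ?_, ?_, ?_, ?_,
      fun t ht => ?_⟩
    · rwa [e2, X3]
    · rwa [e2, X3]
    · rwa [e2, X4]
    · rwa [e2, X4]
    · rw [e2]
      have ht' := Ioo_subset_Icc_self ht
      exact mem_int_rect.2 ⟨⟨X3 ▸ X2 i0 ht' ht.1, X4 ▸ X2 ht' i1 ht.2⟩,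
        by dsimp only; linarith only [h0, h6, hae, he', hb1], by dsimp only; linarith only [h0, h6, hae, he', hb2]⟩
  obtain ⟨g, g1, g2⟩ := arc_lemma (isCompact_Icc.reProdIm isCompact_Icc)
    (convex_rect (convex_Icc _ _) (convex_Icc _ _)) a1 a2 (by rw [h.e0, e2, X3])
    (by rw [h.e1, e2, X4])
  refine ⟨g, g1, fun z hz hb => ?_⟩
  obtain ⟨t, ht, e3⟩ := intermediate_value_Icc zero_le_one X1.continuousOn
    (show z.re ∈ Icc (X 0) (X 1) by rw [X3, X4]; exact hz.1)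
  have e4 : g.symm z = γ t := by
    rw [Homeomorph.symm_apply_eq, g2 t ht, e2]
    exact Complex.ext e3.symm hb
  rw [e4]
  have := tri (hγ t ht).2 (norm_le_re_im (w := z) (r := 4 * (4 * e)) (s := 0)
    (by rw [← e3, abs_sub_comm]; exact X5 t ht) (by simp [hb]))
  linarith only [this]

end Pool.Agent.MP_17e62b_gt.H72

/-!
An almost monotone map of a convex disc onto a convex disc is close to a homeomorphism.
-/

namespace Pool.Agent.MP_17e62b_gt.H72
open Set Topology Metric Complex Filter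
open scoped InnerProductSpace
open Pool.Agent.Lib.PlaneTop Pool.Agent.MP_4a6971_al.H83

lemma LC.comp {Z : ℂ → ℂ} {W : Set ℂ} {a e : ℝ} (hL : LC Z W a e) (h : ℂ ≃ₜ ℂ) :
    LC (fun z => Z (h.symm z)) W a e := by
  intro w hw p q hp hq
  obtain ⟨U, u1, u2, u3, u4⟩ := hL w hw _ _ hp hq
  refine ⟨h '' U, u1.image _ h.continuous.continuousOn, ⟨_, u2, by simp⟩, ⟨_, u3, by simp⟩, ?_⟩
  rintro _ ⟨z, hz, rfl⟩
  simpa using u4 z hz

lemma fix_symm {h : ℂ ≃ₜ ℂ} {z : ℂ} (e : h z = z) : h.symm z = z := by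
  rw [Homeomorph.symm_apply_eq, e]

theorem rows {W : Set ℂ} {a e eB e' α β δ : ℝ} (h0 : 0 < eB) (h6 : 6 * eB ≤ a) (hae : a ≤ e)
    (he' : 20 * e ≤ e') (hδ : 2 * e + e' ≤ δ) (hw : 4 * e ≤ β - α) (m : ℕ) :
    ∀ (c d : ℝ) (Z : ℂ → ℂ), d = c + (m + 1) * δ → Continuous Z → LC Z W a e →
      Icc α β ×ℂ Icc c d ⊆ W →
      (∀ z ∈ Icc α β ×ℂ Icc c d, z.re = α ∨ z.re = β → ‖Z z - z‖ ≤ eB) →
      (∀ z ∈ Icc α β ×ℂ Icc c d, z.im = c ∨ z.im = d → ‖Z z - z‖ ≤ e') →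
      ∃ h : ℂ ≃ₜ ℂ, Supp h (Icc α β ×ℂ Icc c d) ∧ ∀ z ∈ Icc α β ×ℂ Icc c d,
        (∃ j : ℕ, z.im = c + j * δ) → ‖Z (h.symm z) - z‖ ≤ e' := by
  have δ0 : 0 < δ := by linarith
  induction m with
  | zero =>
    intro c d Z hd _ _ _ _ htb
    refine ⟨Homeomorph.refl _, fun _ _ => rfl, fun z hz ⟨j, hj⟩ => htb z hz ?_⟩
    rcases j with _ | j
    · left; simpa using hj
    · right
      have := mul_nonneg (Nat.cast_nonneg (α := ℝ) j) δ0.le
      push_cast at hj hd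
      linarith only [hz.2.2, this, hj, hd]
  | succ m ih =>
    intro c d Z hd hZ hL hW hside htb
    have := mul_nonneg (Nat.cast_nonneg (α := ℝ) m) δ0.le
    push_cast at hd
    obtain ⟨g, g1, g2⟩ := chord hZ hL hW h0 h6 hae (by linarith) hside htb (b := c + δ)
      (by linarith) (by linarith) hw
    have sub : Icc α β ×ℂ Icc (c + δ) d ⊆ Icc α β ×ℂ Icc c d := fun z hz =>
      ⟨hz.1, by linarith [hz.2.1], hz.2.2⟩
    obtain ⟨h, h1, h2⟩ := ih (c + δ) d (fun z => Z (g.symm z)) (by linarith) (by fun_prop)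
      (hL.comp g) (sub.trans hW) (fun z hz h => by
        rw [fix_symm (g1 z fun i => by
          have := (mem_int_rect.1 i).1
          rcases h with h | h <;> linarith [this.1, this.2])]
        exact hside z (sub hz) h) (fun z hz h => by
        rcases h with h | h
        · linarith [g2 z (sub hz) h]
        · rw [fix_symm (g1 z fun i => by linarith [(mem_int_rect.1 i).2.2])]
          exact htb z (sub hz) (Or.inr h))
    refine ⟨g.trans h, fun z hz => ?_, fun z hz ⟨j, hj⟩ => ?_⟩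
    · rw [Homeomorph.trans_apply, g1 z hz, h1 z fun i => hz (interior_mono sub i)]
    · rw [Homeomorph.symm_trans_apply]
      rcases j with _ | j
      · have hj' : z.im = c := by simpa using hj
        rw [fix_symm (h1 z fun i => by linarith [(mem_int_rect.1 i).2.1]),
          fix_symm (g1 z fun i => by linarith [(mem_int_rect.1 i).2.1])]
        exact htb z hz (Or.inl hj')
      · have := mul_nonneg (Nat.cast_nonneg (α := ℝ) j) δ0.le
        push_cast at hj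
        exact h2 z ⟨hz.1, by linarith, hz.2.2⟩ ⟨j, by linarith only [hj]⟩

/-- exchange of the coordinates -/
def swp : ℂ ≃ₜ ℂ where
  toFun z := ⟨z.im, z.re⟩
  invFun z := ⟨z.im, z.re⟩
  left_inv _ := rfl
  right_inv _ := rfl
  continuous_toFun := equivRealProdCLM.symm.continuous.comp (continuous_im.prodMk continuous_re)
  continuous_invFun := equivRealProdCLM.symm.continuous.comp (continuous_im.prodMk continuous_re)

lemma swp_swp (z : ℂ) : swp (swp z) = z := rfl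

lemma swp_norm (z w : ℂ) : ‖swp z - w‖ = ‖z - swp w‖ := by
  rw [Complex.norm_def, Complex.norm_def, normSq_apply, normSq_apply, add_comm]
  rfl

/-- the unit square -/
abbrev Sq : Set ℂ := Icc (0 : ℝ) 1 ×ℂ Icc (0 : ℝ) 1

theorem grid {Z : ℂ → ℂ} (hZ : Continuous Z) {η a₁ e₁ a₂ e₂ δ : ℝ} {m : ℕ} (h0 : 0 < η)
    (h1 : 6 * η ≤ a₁) (h2 : a₁ ≤ e₁) (h3 : 120 * e₁ ≤ a₂) (h4 : a₂ ≤ e₂) (h5 : 22 * e₂ ≤ δ)
    (hm : (m + 1) * δ = 1) (L1 : LC Z Sq a₁ e₁) (L2 : LC Z Sq a₂ e₂)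
    (hB : ∀ z ∈ Sq, z ∉ interior Sq → ‖Z z - z‖ ≤ η) :
    ∃ h : ℂ ≃ₜ ℂ, Supp h Sq ∧ ∀ z ∈ Sq, (∃ j : ℕ, z.re = j * δ ∨ z.im = j * δ) →
      ‖Z (h.symm z) - z‖ ≤ 20 * e₂ := by
  have δ0 : 0 < δ := by linarith
  have m0 := mul_nonneg (Nat.cast_nonneg (α := ℝ) m) δ0.le
  have sw : ∀ z ∈ Sq, swp z ∈ Sq := fun z hz => ⟨hz.2, hz.1⟩
  have sw' : ∀ z, swp z ∈ interior Sq → z ∈ interior Sq := fun z hz =>
    mem_int_rect.2 (mem_int_rect.1 hz).symm
  have hB' : ∀ z ∈ Sq, (z.re = 0 ∨ z.re = 1) ∨ z.im = 0 ∨ z.im = 1 → ‖Z z - z‖ ≤ η :=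
    fun z hz h => hB z hz fun i => by
      obtain ⟨⟨i1, i2⟩, i3, i4⟩ := mem_int_rect.1 i
      rcases h with (h | h) | h | h <;> linarith
  obtain ⟨g', g1, g2⟩ := rows (W := Sq) (e' := 20 * e₁) (α := 0) (β := 1) (δ := δ) h0 h1 h2 le_rfl
    (by linarith) (by linarith) m 0 1 (fun z => swp (Z (swp z))) (by linarith) (by fun_prop)
    (fun w hw p q hp hq => by
      rw [swp_norm] at hp hq
      obtain ⟨U, u1, u2, u3, u4⟩ := L1 _ (sw w hw) _ _ hp hq
      refine ⟨swp '' U, u1.image _ swp.continuous.continuousOn, ⟨_, u2, rfl⟩, ⟨_, u3, rfl⟩, ?_⟩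
      rintro _ ⟨z, hz, rfl⟩
      rw [swp_norm]
      exact u4 z hz) Subset.rfl
    (fun z hz h => by rw [swp_norm]; exact hB' _ (sw z hz) (Or.inr h))
    (fun z hz h => by rw [swp_norm]; linarith [hB' _ (sw z hz) (Or.inl h)])
  set g : ℂ ≃ₜ ℂ := (swp.trans g').trans swp with hg
  have g3 : Supp g Sq := fun z hz => by
    change swp (g' (swp z)) = z
    rw [g1 _ fun i => hz (sw' z i), swp_swp]
  have g4 : ∀ z ∈ Sq, (∃ j : ℕ, z.re = j * δ) → ‖Z (g.symm z) - z‖ ≤ 20 * e₁ := by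
    rintro z hz ⟨j, hj⟩
    have := g2 _ (sw z hz) ⟨j, by rw [zero_add]; exact hj⟩
    rwa [swp_norm] at this
  have main : ∀ k ≤ m + 1, ∃ h : ℂ ≃ₜ ℂ,
      (∀ z, z ∉ interior Sq ∨ (∃ i : ℕ, z.re = i * δ) ∨ k * δ ≤ z.re → h z = z) ∧
      ∀ z ∈ Sq, z.re ≤ k * δ → (∃ j : ℕ, z.im = j * δ) →
        ‖Z (g.symm (h.symm z)) - z‖ ≤ 20 * e₂ := by
    intro k
    induction k with
    | zero =>
      refine fun _ => ⟨Homeomorph.refl _, fun _ _ => rfl, fun z hz h _ => ?_⟩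
      have := g4 z hz ⟨0, le_antisymm h (by simpa only [CharP.cast_eq_zero, zero_mul] using hz.1.1)⟩
      exact this.trans (by linarith only [h0, h1, h2, h3, h4])
    | succ k ih =>
      intro hk
      obtain ⟨h, a1, a2⟩ := ih (by omega)
      have k0 := mul_nonneg (Nat.cast_nonneg (α := ℝ) k) δ0.le
      have k1 : (k + 1) * δ ≤ 1 := by
        have : (k + 1 : ℝ) ≤ m + 1 := by exact_mod_cast hk
        exact (mul_le_mul_of_nonneg_right this δ0.le).trans hm.le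
      have sub : Icc (k * δ) ((k + 1) * δ) ×ℂ Icc (0 : ℝ) 1 ⊆ Sq := fun z hz =>
        ⟨⟨k0.trans hz.1.1, hz.1.2.trans k1⟩, hz.2⟩
      obtain ⟨h', b1, b2⟩ := rows (W := Sq) (eB := 20 * e₁) (a := a₂) (e := e₂) (e' := 20 * e₂)
        (α := k * δ) (β := (k + 1) * δ) (δ := δ) (by linarith only [h0, h1, h2]) (by linarith only [h3]) h4 le_rfl
        (by linarith only [h5]) (by linarith only [h0, h1, h2, h3, h4, h5]) m 0 1 (fun z => Z (g.symm (h.symm z))) (by linarith only [hm])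
        (by fun_prop) ((L2.comp g).comp h) sub
        (fun z hz e => by
          have e' : ∃ i : ℕ, z.re = i * δ := by
            rcases e with e | e
            exacts [⟨k, e⟩, ⟨k + 1, by rw [e]; push_cast; rfl⟩]
          rw [fix_symm (a1 z (Or.inr (Or.inl e')))]
          exact g4 z (sub hz) e')
        (fun z hz e => by
          have i : z ∉ interior Sq := fun i => by
            obtain ⟨-, i3, i4⟩ := mem_int_rect.1 i
            rcases e with e | e <;> linarith only [i3, e, i4]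
          rw [fix_symm (a1 z (Or.inl i)), fix_symm (g3 z i)]
          linarith only [hB z (sub hz) i, h0, h1, h2, h3, h4])
      refine ⟨h.trans h', fun z hz => ?_, fun z hz e hj => ?_⟩
      · push_cast at hz
        rw [Homeomorph.trans_apply, a1 z (hz.imp_right (Or.imp_right fun h => by linarith only [h0, h1, h2, h3, h4, h5, h])),
          b1 z fun i => ?_]
        obtain ⟨⟨i1, i2⟩, -⟩ := mem_int_rect.1 i
        rcases hz with hz | ⟨j, hj⟩ | hz
        · exact hz (interior_mono sub i)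
        · rw [hj] at i1 i2
          have c1 : k < j := by exact_mod_cast lt_of_mul_lt_mul_right i1 δ0.le
          have c2 : j < k + 1 := by exact_mod_cast lt_of_mul_lt_mul_right i2 δ0.le
          omega
        · linarith only [i2, hz]
      · rw [Homeomorph.symm_trans_apply h h']
        push_cast at e
        rcases le_total z.re (k * δ) with c | c
        · rw [fix_symm (b1 z fun i => by linarith only [(mem_int_rect.1 i).1.1, c])]
          exact a2 z hz c hj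
        · exact b2 z ⟨⟨c, e⟩, hz.2⟩ (by simpa only [zero_add] using hj)
  obtain ⟨h, a1, a2⟩ := main (m + 1) le_rfl
  refine ⟨g.trans h, fun z hz => ?_, fun z hz ⟨j, hj⟩ => ?_⟩
  · rw [Homeomorph.trans_apply, g3 z hz, a1 z (Or.inl hz)]
  · rw [Homeomorph.symm_trans_apply]
    rcases hj with hj | hj
    · rw [fix_symm (a1 z (Or.inr (Or.inl ⟨j, hj⟩)))]
      linarith only [g4 z hz ⟨j, hj⟩, h0, h1, h2, h3, h4]
    · exact a2 z hz (by push_cast; linarith [hz.1.2]) ⟨j, hj⟩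

lemma unif {K : Set ℂ} (hK : IsCompact K) {ψ : ℂ → ℂ} (hψ : Continuous ψ) {ε : ℝ} (hε : 0 < ε) :
    ∃ δ > 0, ∀ x ∈ K, ∀ y, ‖y - x‖ ≤ δ → ‖ψ y - ψ x‖ < ε := by
  obtain ⟨δ, δ0, h⟩ := Metric.uniformContinuousOn_iff.1
    ((hK.cthickening (r := 1)).uniformContinuousOn_of_continuous hψ.continuousOn) ε hε
  refine ⟨min 1 (δ / 2), by positivity, fun x hx y hy => ?_⟩
  rw [← dist_eq_norm] at hy ⊢
  exact h y (mem_cthickening_of_dist_le y x 1 K hx (hy.trans (min_le_left _ _))) x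
    (self_subset_cthickening K hx) (by linarith [min_le_right 1 (δ / 2)])

lemma cell {δ : ℝ} (δ0 : 0 < δ) {m : ℕ} (hm : (m + 1) * δ = 1) {x : ℝ} (hx : 0 ≤ x ∧ x ≤ 1) :
    ∃ i : ℕ, i * δ ≤ x ∧ x ≤ (i + 1) * δ ∧ (i + 1) * δ ≤ 1 := by
  by_cases h : m * δ ≤ x
  · exact ⟨m, h, by linarith [hx.2], hm.le⟩
  · have a1 := Nat.floor_le (div_nonneg hx.1 δ0.le)
    have a2 := Nat.lt_floor_add_one (x / δ)
    rw [le_div_iff₀ δ0] at a1
    rw [div_lt_iff₀ δ0] at a2
    have a3 : ⌊x / δ⌋₊ < m := by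
      have : (⌊x / δ⌋₊ : ℝ) * δ < m * δ := by linarith
      exact_mod_cast lt_of_mul_lt_mul_right this δ0.le
    have a4 : (⌊x / δ⌋₊ : ℝ) + 1 ≤ m + 1 := by exact_mod_cast (by omega)
    exact ⟨_, a1, a2.le, (mul_le_mul_of_nonneg_right a4 δ0.le).trans hm.le⟩

theorem near_id {P : Set ℂ} (hP : IsCompact P) (hPc : Convex ℝ P) (hPn : (interior P).Nonempty)
    {ε : ℝ} (hε : 0 < ε) : ∃ η > 0, ∀ Z : ℂ → ℂ, Continuous Z →
      (∀ z, z ∉ interior P → ‖Z z - z‖ ≤ η) → UP P Z η →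
      ∃ h : ℂ ≃ₜ ℂ, Supp h P ∧ ∀ x ∈ P, ‖h x - Z x‖ ≤ ε := by
  have hQ : IsCompact Sq := isCompact_Icc.reProdIm isCompact_Icc
  obtain ⟨ψ, p1, p2, -⟩ := exists_homeomorph_image_eq hPc hPn
    ((NormedSpace.isVonNBounded_iff ℝ).2 hP.isBounded)
    (convex_rect (convex_Icc (0 : ℝ) 1) (convex_Icc (0 : ℝ) 1))
    ⟨⟨1 / 2, 1 / 2⟩, mem_int_rect.2 (by norm_num)⟩
    ((NormedSpace.isVonNBounded_iff ℝ).2 hQ.isBounded)
  rw [hP.isClosed.closure_eq, hQ.isClosed.closure_eq] at p2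
  have q1 : ∀ z, ψ z ∈ interior Sq ↔ z ∈ interior P := fun z => by
    rw [← p1]; exact ψ.injective.mem_set_image
  have q2 : ∀ z, ψ z ∈ Sq ↔ z ∈ P := fun z => by
    rw [← p2]; exact ψ.injective.mem_set_image
  have q3 : ∀ w ∈ Sq, ψ.symm w ∈ P := fun w hw => (q2 _).1 (by simpa using hw)
  have tr : ∀ e > 0, ∃ a > 0, a ≤ e ∧ ∃ η₀ > 0, ∀ (Z : ℂ → ℂ) (η : ℝ), η ≤ η₀ →
      (∀ s, LC Z univ s (s + 11 * η)) → LC (fun z => ψ (Z (ψ.symm z))) Sq a e := by
    intro e he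
    obtain ⟨ρ, ρ0, hρ⟩ := unif hP ψ.continuous he
    obtain ⟨a, a0, ha⟩ := unif hQ ψ.symm.continuous (half_pos ρ0)
    refine ⟨min a e, by positivity, min_le_right _ _, ρ / 22, by positivity,
      fun Z η hη hL w hw p q hp hq => ?_⟩
    have c1 := ha w hw _ (hp.trans (min_le_left _ _))
    have c2 := ha w hw _ (hq.trans (min_le_left _ _))
    rw [ψ.symm_apply_apply] at c1 c2
    obtain ⟨U, u1, u2, u3, u4⟩ := hL (ρ / 2) _ (mem_univ _) _ _ c1.le c2.le
    refine ⟨ψ '' U, u1.image _ ψ.continuous.continuousOn, ⟨_, u2, by simp⟩, ⟨_, u3, by simp⟩, ?_⟩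
    rintro _ ⟨z, hz, rfl⟩
    simpa only [Homeomorph.symm_apply_apply, Homeomorph.apply_symm_apply] using hρ _ (q3 w hw) (Z z) (by linarith only [u4 z hz, hη])
  obtain ⟨r, r0, hr⟩ := unif hQ ψ.symm.continuous (show 0 < ε / 3 by positivity)
  obtain ⟨m, hm⟩ := exists_nat_gt (2 / r)
  set δ : ℝ := 1 / (m + 1) with hδ
  have δ0 : 0 < δ := by positivity
  have δ1 : (m + 1) * δ = 1 := by rw [hδ]; field_simp
  have δ2 : 2 * δ ≤ r := by
    rw [div_lt_iff₀ r0] at hm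
    rw [hδ, mul_one_div, div_le_iff₀ (by positivity)]
    linarith only [r0, hm]
  obtain ⟨a₂, a20, a21, η₂, η20, t2⟩ := tr (δ / 22) (by positivity)
  obtain ⟨a₁, a10, a11, η₁, η10, t1⟩ := tr (a₂ / 120) (by positivity)
  obtain ⟨η₃, η30, t3⟩ := unif hP ψ.continuous (show 0 < a₁ / 6 by positivity)
  refine ⟨min (min η₁ η₂) (min η₃ (ε / 3)), by positivity, fun Z hZ hB hU => ?_⟩
  set η := min (min η₁ η₂) (min η₃ (ε / 3)) with hη
  have hL := lc_of_up hP hPc hZ (by positivity) hB hU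
  obtain ⟨φ, f1, f2⟩ := grid (Z := fun z => ψ (Z (ψ.symm z))) (η := a₁ / 6) (e₁ := a₂ / 120)
    (e₂ := δ / 22) (by fun_prop) (by positivity) (by linarith only []) a11 (by linarith only []) a21 (by linarith only [])
    δ1 (t1 Z η ((min_le_left _ _).trans (min_le_left _ _)) hL)
    (t2 Z η ((min_le_left _ _).trans (min_le_right _ _)) hL) (fun z hz hi => by
      have := t3 _ (q3 z hz) _ ((hB _ fun h => hi (by simpa using (q1 _).2 h)).trans
        ((min_le_right _ _).trans (min_le_left _ _)))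
      rw [ψ.apply_symm_apply] at this
      exact this.le)
  refine ⟨(ψ.trans φ).trans ψ.symm, fun z hz => ?_, fun x hx => ?_⟩
  · change ψ.symm (φ (ψ z)) = z
    rw [f1 _ (mt (q1 z).1 hz), ψ.symm_apply_apply]
  change ‖ψ.symm (φ (ψ x)) - Z x‖ ≤ ε
  have zQ : ∀ y ∈ P, φ (ψ y) ∈ Sq := fun y hy => f1.mem.2 ((q2 y).2 hy)
  set z := φ (ψ x) with hz
  set v := Z x - ψ.symm z with hv
  rw [norm_sub_rev]
  rcases eq_or_ne v 0 with v0 | v0
  · rw [← hv, v0, norm_zero]; exact hε.le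
  have n1 : ‖‖v‖⁻¹ • v‖ = 1 := norm_smul_inv_norm (𝕜 := ℝ) v0
  have n2 : ⟪‖v‖⁻¹ • v, v⟫_ℝ = ‖v‖ := by
    have := norm_ne_zero_iff.2 v0
    simp only [inner_smul_left, real_inner_self_eq_norm_sq, conj_trivial]
    field_simp
  obtain ⟨C, c0, c1, c2, ⟨b, c3, c4⟩, c5⟩ := hU x hx _ n1
  obtain ⟨i, i1, i2, i3⟩ := cell δ0 δ1 (zQ x hx).1
  obtain ⟨j, j1, j2, j3⟩ := cell δ0 δ1 (zQ x hx).2
  have i0 := mul_nonneg (Nat.cast_nonneg (α := ℝ) i) δ0.le
  have j0 := mul_nonneg (Nat.cast_nonneg (α := ℝ) j) δ0.le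
  have sub : Icc (i * δ) ((i + 1) * δ) ×ℂ Icc (j * δ) ((j + 1) * δ) ⊆ Sq := fun z hz =>
    ⟨⟨i0.trans hz.1.1, hz.1.2.trans i3⟩, j0.trans hz.2.1, hz.2.2.trans j3⟩
  obtain ⟨_, ⟨y, hy, rfl⟩, y1⟩ := meets_frontier
    (A := Icc (i * δ) ((i + 1) * δ) ×ℂ Icc (j * δ) ((j + 1) * δ))
    (c1.image (fun y => φ (ψ y)) (by fun_prop)) ⟨x, c2, rfl⟩ ⟨⟨i1, i2⟩, j1, j2⟩ ⟨b, c3, rfl⟩
    fun h => c4.2 ((q1 b).1 (f1.mem_interior.1 (interior_mono sub h)))
  have y2 := (isClosed_Icc.reProdIm isClosed_Icc).frontier_subset y1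
  have y3 := f2 _ (sub y2) (by
    by_contra h
    push Not at h
    refine y1.2 (mem_int_rect.2 ⟨⟨y2.1.1.lt_of_ne (h i).1.symm, y2.1.2.lt_of_ne ?_⟩,
      y2.2.1.lt_of_ne (h j).2.symm, y2.2.2.lt_of_ne ?_⟩)
    · simpa using (h (i + 1)).1
    · simpa using (h (j + 1)).2)
  simp only [Homeomorph.symm_apply_apply] at y3
  have y4 := hr _ (sub y2) _ (y3.trans (by linarith only [δ2, a21, a10, a11]))
  rw [ψ.symm_apply_apply] at y4
  have y5 := hr _ (zQ x hx) (φ (ψ y)) ((norm_le_re_im (r := δ) (s := δ)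
    (abs_le.2 ⟨by linarith only [y2.1.1, i2], by linarith only [y2.1.2, i1]⟩)
    (abs_le.2 ⟨by linarith only [y2.2.1, j2], by linarith only [y2.2.2, j1]⟩)).trans (by linarith only [δ2]))
  have y6 := (ip_close n1 (tri y4.le y5.le)).2
  have y7 := c5 y hy
  have y8 : η ≤ ε / 3 := (min_le_right _ _).trans (min_le_right _ _)
  rw [← n2, hv, inner_sub_right, ← hv]
  linarith only [y6, y7, y8]

/-- The near-homeomorphism theorem. -/
theorem near_homeo {P : Set ℂ} (hP : IsCompact P) (hPc : Convex ℝ P) (hPn : (interior P).Nonempty)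
    {ε : ℝ} (hε : 0 < ε) : ∃ η > 0, ∀ K : Set ℂ, IsCompact K → Convex ℝ K → (interior K).Nonempty →
      ∀ T β : ℂ → ℂ, ContinuousOn β (frontier K) → BijOn β (frontier K) (frontier P) →
      (∀ b ∈ frontier K, ‖T b - β b‖ ≤ η) →
      (∀ x ∈ K, ∀ᶠ y in 𝓝[K] x, ‖T y - T x‖ ≤ η) → UP K T η →
      ∃ h : ℂ ≃ₜ ℂ, h '' K = P ∧ EqOn h β (frontier K) ∧ ∀ x ∈ K, ‖h x - T x‖ ≤ ε := by
  obtain ⟨η₀, η0, H⟩ := near_id hP hPc hPn (half_pos hε)
  refine ⟨min (η₀ / 5) (ε / 4), by positivity, fun K hK hKc hKn T β hβ hbij hb ho hU => ?_⟩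
  set η := min (η₀ / 5) (ε / 4) with hη
  have e0 : 0 < η := by positivity
  have e1 : η ≤ η₀ / 5 := min_le_left _ _
  have e2 : η ≤ ε / 4 := min_le_right _ _
  obtain ⟨k, k1, k2, k3⟩ := exists_cone hK hKc hKn hP hPc hPn hβ hbij
  have q1 : ∀ z, k z ∈ interior P ↔ z ∈ interior K := fun z => by
    rw [← k2]; exact k.injective.mem_set_image
  have q2 : ∀ z, k z ∈ P ↔ z ∈ K := fun z => by
    rw [← k1]; exact k.injective.mem_set_image
  obtain ⟨g, hg⟩ := exists_continuous_forall_mem_convex_of_local_const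
    (t := fun x => {v : ℂ | (x ∈ K → ‖v - T x‖ ≤ 2 * η) ∧ (x ∉ interior K → ‖v - k x‖ ≤ 2 * η)})
    (fun x => by
      have c : ∀ (p : Prop) (c : ℂ), Convex ℝ {v : ℂ | p → ‖v - c‖ ≤ 2 * η} := fun p c => by
        by_cases hp : p
        · have : {v : ℂ | p → ‖v - c‖ ≤ 2 * η} = closedBall c (2 * η) := by
            ext v
            simp only [hp, forall_const, mem_ofPred_eq, mem_closedBall, dist_eq_norm]
          rw [this]
          exact convex_closedBall c (2 * η)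
        · simpa [hp] using convex_univ
      exact (c _ _).inter (c _ _))
    (fun x => by
      have kc : ∀ᶠ y in 𝓝 x, ‖k x - k y‖ < 2 * η :=
        ContinuousAt.eventually_lt (by fun_prop) continuousAt_const (by simpa using e0)
      by_cases hx : x ∈ K
      · have o := eventually_nhdsWithin_iff.1 (ho x hx)
        by_cases hi : x ∈ interior K
        · refine ⟨T x, ?_⟩
          filter_upwards [o, isOpen_interior.mem_nhds hi] with y h1 h2
          exact ⟨fun h => by rw [norm_sub_rev]; linarith only [h1 h, e0], fun h => (h h2).elim⟩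
        · refine ⟨k x, ?_⟩
          have hf : x ∈ frontier K := ⟨subset_closure hx, hi⟩
          filter_upwards [o, kc] with y h1 h2
          refine ⟨fun h => ?_, fun _ => h2.le⟩
          rw [norm_sub_rev, k3 hf]
          linarith only [tri (h1 h) (hb x hf)]
      · refine ⟨k x, ?_⟩
        filter_upwards [hK.isClosed.isOpen_compl.mem_nhds hx, kc] with y h1 h2
        exact ⟨fun h => (h1 h).elim, fun _ => h2.le⟩)
  obtain ⟨h, h1, h2⟩ := H (fun z => g (k.symm z)) (by fun_prop)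
    (fun z hz => by
      have := (hg (k.symm z)).2 fun i => hz (by simpa using (q1 _).2 i)
      rw [k.apply_symm_apply] at this
      linarith only [e0, e1, this])
    (fun x hx ν hν => by
      have hx' : k.symm x ∈ K := (q2 _).1 (by simpa using hx)
      obtain ⟨C, c0, c1, c2, ⟨b, c3, c4⟩, c5⟩ := hU _ hx' ν hν
      refine ⟨k '' C, k1 ▸ image_mono c0, c1.image _ k.continuous.continuousOn, ⟨_, c2, by simp⟩,
        ⟨k b, ⟨b, c3, rfl⟩, by rw [k3 c4]; exact hbij.mapsTo c4⟩, ?_⟩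
      rintro _ ⟨y, hy, rfl⟩
      dsimp only
      rw [k.symm_apply_apply]
      linarith only [c5 y hy, (ip_close hν ((hg y).1 (c0 hy))).1, (ip_close hν ((hg _).1 hx')).2, e1])
  refine ⟨k.trans h, ?_, fun b hb' => ?_, fun x hx => ?_⟩
  · ext z
    constructor
    · rintro ⟨x, hx, rfl⟩
      exact h1.mem.2 ((q2 x).2 hx)
    · intro hz
      refine ⟨(k.trans h).symm z, (q2 _).1 (h1.mem.1 ?_), (k.trans h).apply_symm_apply z⟩
      simpa using hz
  · rw [Homeomorph.trans_apply, h1 _ fun i => hb'.2 ((q1 b).1 i), k3 hb']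
  · have := h2 _ ((q2 x).2 hx)
    rw [k.symm_apply_apply] at this
    rw [Homeomorph.trans_apply]
    linarith only [tri this ((hg x).1 hx), e2]

end Pool.Agent.MP_17e62b_gt.H72

/-! A triangulation of the polygon adapted to a planar network. -/

namespace Pool.Agent.MP_17e62b_gt.H14

open Set
open scoped BigOperators

/-- Verticals `x i` and, on each, monotone heights `y i j`. -/
structure GridData (Λ : Lens) {Nd : Finset ℂ} (r : Nd → Nd → ℝ) (s : ℝ) (I J : ℕ) (x : ℕ → ℝ)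
    (y : ℕ → ℕ → ℝ) : Prop where
  I_pos : 0 < I
  J_pos : 0 < J
  x_zero : x 0 = -1
  x_last : x I = 1
  x_lt : ∀ i < I, x i < x (i + 1)
  x_step : ∀ i < I, x (i + 1) - x i ≤ s
  y_zero : ∀ i ≤ I, y i 0 = -Λ.up (x i)
  y_last : ∀ i ≤ I, y i J = Λ.up (x i)
  y_le : ∀ i ≤ I, ∀ j < J, y i j ≤ y i (j + 1)
  y_step : ∀ i ≤ I, ∀ j < J, y i (j + 1) - y i j ≤ s
  y_side : ∀ i < I, ∀ j ≤ J, |y (i + 1) j - y i j| ≤ s
  nodes : ∀ p ∈ Nd, ∃ i ≤ I, p.re = x i
  cover : ∀ z ∈ Eg r, ∀ i ≤ I, z.re = x i → ∃ j ≤ J, z.im = y i j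
  strip : ∀ p p', 0 < r p p' → ∀ i < I, ∀ z ∈ segment ℝ (p : ℂ) p', ∀ z' ∈ segment ℝ (p : ℂ) p',
    z.re = x i → z'.re = x (i + 1) → ∃ j ≤ J, z.im = y i j ∧ z'.im = y (i + 1) j

theorem exists_verticals_step {m : ℕ} (hm : 0 < m) {c t : ℝ} (hc : 0 < c) (h1 : -c ≤ t)
    (h2 : t < c) : ∃ k ≤ m, t < -c + 2 * c * k / m ∧ -c + 2 * c * k / m ≤ t + 2 * c / m := by
  have hm' : (0 : ℝ) < m := Nat.cast_pos.2 hm
  have h0 : 0 ≤ (t + c) * m / (2 * c) := div_nonneg (mul_nonneg (by linarith only [h1]) hm'.le) (by linarith only [hc])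
  have h3 := Nat.lt_floor_add_one ((t + c) * m / (2 * c))
  have h4 := Nat.floor_le h0
  have h5 : ⌊(t + c) * m / (2 * c)⌋₊ < m :=
    (Nat.floor_lt h0).2 ((div_lt_iff₀ (by linarith only [hc])).2 (by nlinarith only [h2, hm']))
  refine ⟨⌊(t + c) * m / (2 * c)⌋₊ + 1, h5, ?_, ?_⟩
  · rw [div_lt_iff₀ (by linarith only [hc])] at h3
    rw [← sub_lt_iff_lt_add', lt_div_iff₀ hm']
    push_cast
    linarith only [h3]
  · rw [le_div_iff₀ (by linarith only [hc])] at h4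
    rw [← sub_nonneg]
    have e : t + 2 * c / m - (-c + 2 * c * ((⌊(t + c) * m / (2 * c)⌋₊ + 1 : ℕ) : ℝ) / m) =
        ((t + c) * m - ⌊(t + c) * m / (2 * c)⌋₊ * (2 * c)) / m := by
      push_cast
      field_simp
      ring
    rw [e]
    exact div_nonneg (by linarith only [h4]) hm'.le

theorem exists_verticals_nat {c σ : ℝ} (hσ : 0 < σ) : ∃ m : ℕ, 0 < m ∧ c / m ≤ σ := by
  obtain ⟨m, hm⟩ := exists_nat_ge (c / σ)
  refine ⟨m + 1, m.succ_pos, (div_le_iff₀ (by positivity)).2 ?_⟩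
  rw [div_le_iff₀ hσ] at hm
  push_cast
  linarith
/-- D1. Verticals: an increasing enumeration of `[-1, 1]` through given points, with small steps.
Hint: add the points `-1 + 2 k / m` and use `Finset.orderEmbOfFin`. -/
theorem exists_verticals (X : Finset ℝ) {σ : ℝ} (hσ : 0 < σ) : ∃ (I : ℕ) (x : ℕ → ℝ), 0 < I ∧
    x 0 = -1 ∧ x I = 1 ∧ (∀ i < I, x i < x (i + 1)) ∧ (∀ i < I, x (i + 1) - x i ≤ σ) ∧
      ∀ t ∈ X, |t| ≤ 1 → ∃ i ≤ I, t = x i := by
  classical
  obtain ⟨m, hm, hmσ⟩ := exists_verticals_nat (c := 2 * 1) hσ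
  have hm' : (0 : ℝ) < m := Nat.cast_pos.2 hm
  obtain ⟨S, hS⟩ : ∃ S : Finset ℝ, ∀ t, t ∈ S ↔
      (t ∈ X ∧ |t| ≤ 1) ∨ ∃ k ≤ m, -1 + 2 * 1 * (k : ℝ) / m = t :=
    ⟨X.filter (fun t => |t| ≤ 1) ∪ (Finset.range (m + 1)).image fun k : ℕ =>
      -1 + 2 * 1 * (k : ℝ) / m, fun t => by simp only [mul_one, Finset.mem_union, Finset.mem_filter, Finset.mem_image, Finset.mem_range, Order.lt_add_one_iff]⟩
  have hb : ∀ t ∈ S, -1 ≤ t ∧ t ≤ 1 := fun t ht => by
    rcases (hS t).1 ht with h | ⟨k, hk, rfl⟩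
    · exact abs_le.1 h.2
    · have h1 : 0 ≤ 2 * 1 * (k : ℝ) / m := by positivity
      have h2 : 2 * 1 * (k : ℝ) / m ≤ 2 :=
        (div_le_iff₀ hm').2 (by linarith only [(Nat.cast_le.2 hk : (k : ℝ) ≤ m)])
      constructor <;> linarith only [h1, h2]
  have h1 : (-1 : ℝ) ∈ S := (hS _).2 (Or.inr ⟨0, m.zero_le, by simp⟩)
  have h2 : (1 : ℝ) ∈ S := (hS _).2 (Or.inr ⟨m, le_rfl, by field_simp; ring⟩)
  obtain ⟨I, hI⟩ : ∃ I, S.card = I + 1 :=
    Nat.exists_eq_succ_of_ne_zero (Finset.card_ne_zero_of_mem h1)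
  have hI0 : 0 < I := by
    have := Finset.one_lt_card.2 ⟨_, h1, _, h2, by norm_num⟩
    omega
  have hr := S.range_orderEmbOfFin hI
  generalize S.orderEmbOfFin hI = e at hr
  have he : ∀ j, e j ∈ S := fun j => by
    rw [← Finset.mem_coe, ← hr]
    exact mem_range_self j
  have hs : ∀ t ∈ S, ∃ j, e j = t := fun t ht => by
    rwa [← Finset.mem_coe, ← hr] at ht
  refine ⟨I, fun i => e ⟨min i I, by omega⟩, hI0, ?_, ?_, fun i hi => ?_, fun i hi => ?_,
    fun t ht h => ?_⟩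
  · obtain ⟨j, hj⟩ := hs _ h1
    exact le_antisymm (hj ▸ e.monotone (Fin.le_def.2 (by simp))) (hb _ (he _)).1
  · obtain ⟨j, hj⟩ := hs _ h2
    exact le_antisymm (hb _ (he _)).2 (hj ▸ e.monotone (Fin.le_def.2 (by simp only; omega)))
  · exact e.strictMono (Fin.lt_def.2 (by simp only; omega))
  · by_contra hc
    push Not at hc
    obtain ⟨k, hk, h3, h4⟩ := exists_verticals_step hm one_pos (hb _ (he ⟨min i I, by omega⟩)).1
      (by linarith only [(hb _ (he ⟨min (i + 1) I, by omega⟩)).2, hσ, hi, hc])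
    obtain ⟨j, hj⟩ := hs _ ((hS _).2 (Or.inr ⟨k, hk, rfl⟩))
    rw [← hj] at h3 h4
    have h5 := Fin.lt_def.1 (e.lt_iff_lt.1 h3)
    have h7 : e j < e ⟨min (i + 1) I, by omega⟩ := by linarith only [hmσ, hc, h4]
    have h6 := Fin.lt_def.1 (e.lt_iff_lt.1 h7)
    simp only at h5 h6
    omega
  · obtain ⟨j, hj⟩ := hs _ ((hS _).2 (Or.inl ⟨ht, h⟩))
    exact ⟨j, by omega, hj ▸ congrArg e (Fin.ext (by simp only; omega))⟩

theorem exists_order_aux {α β t t' : ℝ} (ht : t < t')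
    (h : α ≠ 0 → ∀ u, t < u → u < t' → α * u + β ≠ 0) (hm : α * ((t + t') / 2) + β ≤ 0) :
    α * t + β ≤ 0 ∧ α * t' + β ≤ 0 := by
  rcases eq_or_ne α 0 with rfl | h0
  · constructor <;> linarith
  have e : α * (-β / α) + β = 0 := by field_simp; ring
  generalize -β / α = u at e
  constructor <;> by_contra hc <;> push Not at hc
  · have h1 : α < 0 := by nlinarith only [ht, hm, hc]
    exact h h0 u (by nlinarith) (by nlinarith) e
  · have h1 : 0 < α := by nlinarith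
    exact h h0 u (by nlinarith) (by nlinarith) e
/-- D2. Order statistics of `J + 1` lines `t ↦ a k * t + b k`. Hint: `o t j` is the `j`-th entry of
the sorted tuple (`Tuple.sort`). If no two different lines meet over the open interval, the
permutation that sorts at the midpoint sorts at both ends
(`Tuple.comp_sort_eq_comp_iff_monotone`). -/
theorem exists_order (J : ℕ) (a b : Fin (J + 1) → ℝ) : ∃ o : ℝ → Fin (J + 1) → ℝ,
    (∀ t, Monotone (o t)) ∧ (∀ t, ∃ σ : Equiv.Perm (Fin (J + 1)), ∀ j,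
      o t j = a (σ j) * t + b (σ j)) ∧
    ∀ t t', t < t' → (∀ k k', a k ≠ a k' → ∀ u, t < u → u < t' → a k * u + b k ≠ a k' * u + b k') →
      ∃ σ : Equiv.Perm (Fin (J + 1)), ∀ j, o t j = a (σ j) * t + b (σ j) ∧
        o t' j = a (σ j) * t' + b (σ j) := by
  refine ⟨fun t => (fun k => a k * t + b k) ∘ Tuple.sort fun k => a k * t + b k,
    fun t => Tuple.monotone_sort _, fun t => ⟨_, fun j => rfl⟩, fun t t' ht h => ?_⟩
  have hm := Tuple.monotone_sort fun k => a k * ((t + t') / 2) + b k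
  generalize (Tuple.sort fun k => a k * ((t + t') / 2) + b k) = σ at hm
  have key : ∀ j j', j ≤ j' → (a (σ j) - a (σ j')) * t + (b (σ j) - b (σ j')) ≤ 0 ∧
      (a (σ j) - a (σ j')) * t' + (b (σ j) - b (σ j')) ≤ 0 := fun j j' hj =>
    exists_order_aux ht (fun h0 u h1 h2 e => h _ _ (sub_ne_zero.1 h0) u h1 h2 (by linarith only [e]))
      (by have := hm hj; simp only [Function.comp] at this; linarith only [this])
  have h1 : Monotone ((fun k => a k * t + b k) ∘ σ) := fun j j' hj => by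
    simp only [Function.comp]
    linarith [(key j j' hj).1]
  have h2 : Monotone ((fun k => a k * t' + b k) ∘ σ) := fun j j' hj => by
    simp only [Function.comp]
    linarith [(key j j' hj).2]
  exact ⟨σ, fun j => ⟨(congrFun (Tuple.comp_sort_eq_comp_iff_monotone.2 h1) j).symm,
    (congrFun (Tuple.comp_sort_eq_comp_iff_monotone.2 h2) j).symm⟩⟩

theorem exists_gridData_mono {I : ℕ} {x : ℕ → ℝ} (h : ∀ i < I, x i < x (i + 1)) {i j : ℕ}
    (hij : i ≤ j) (hj : j ≤ I) : x i ≤ x j := by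
  induction j, hij using Nat.le_induction with
  | base => exact le_rfl
  | succ n _ ih => exact (ih (by omega)).trans (h n (by omega)).le

theorem exists_gridData_line {p p' z : ℂ} (h : p.re ≠ p'.re) (hz : z ∈ segment ℝ p p') :
    z.im = (p'.im - p.im) / (p'.re - p.re) * z.re +
      (p.im - (p'.im - p.im) / (p'.re - p.re) * p.re) := by
  obtain ⟨u, v, -, -, e, rfl⟩ := hz
  obtain rfl : u = 1 - v := by linarith
  have h0 := sub_ne_zero.2 h.symm
  simp only [Complex.add_im, Complex.add_re, Complex.smul_im, Complex.smul_re, smul_eq_mul]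
  field_simp
  ring

theorem exists_gridData_lines (Nd : Finset ℂ) {m : ℕ} (hm : 0 < m) :
    ∃ (J : ℕ) (a b : Fin (J + 1) → ℝ), 0 < J ∧
      (∀ l ≤ m, ∃ k, ∀ t, a k * t + b k = -2 + 2 * 2 * (l : ℝ) / m) ∧
      ∀ p p' : Nd, (p : ℂ).re ≠ (p' : ℂ).re → ∃ k, ∀ z ∈ segment ℝ (p : ℂ) p',
        z.im = a k * z.re + b k := by
  obtain ⟨J, hJ, h0⟩ : ∃ J, Fintype.card ((Nd × Nd) ⊕ Fin (m + 1)) = J + 1 ∧ 0 < J :=
    ⟨Fintype.card (Nd × Nd) + m, by rw [Fintype.card_sum, Fintype.card_fin, add_assoc], by omega⟩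
  have e := Fintype.equivFinOfCardEq hJ
  refine ⟨J, fun k => Sum.elim (fun q : Nd × Nd => ((q.2 : ℂ).im - (q.1 : ℂ).im) /
      ((q.2 : ℂ).re - (q.1 : ℂ).re)) (fun _ => 0) (e.symm k),
    fun k => Sum.elim (fun q : Nd × Nd => (q.1 : ℂ).im - ((q.2 : ℂ).im - (q.1 : ℂ).im) /
      ((q.2 : ℂ).re - (q.1 : ℂ).re) * (q.1 : ℂ).re)
      (fun l : Fin (m + 1) => -2 + 2 * 2 * ((l : ℕ) : ℝ) / m) (e.symm k), h0,
    fun l hl => ⟨e (Sum.inr ⟨l, by omega⟩), fun t => by simp only [Equiv.symm_apply_apply, Sum.elim_inr, zero_mul, zero_add]⟩,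
    fun p p' h => ⟨e (Sum.inl (p, p')), fun z hz => ?_⟩⟩
  simpa only [Equiv.symm_apply_apply, Sum.elim_inl] using exists_gridData_line h hz

theorem exists_gridData_clamp {u v : ℝ} (h : |v| ≤ u + 0) : v = max (-u) (min u v) := by
  rw [add_zero, abs_le] at h
  rw [min_eq_right h.2, max_eq_right h.1]
/-- D3. Hint: the lines are those of the edges (not vertical) and the horizontals
`- 2 + 4 k / m`, `k ≤ m`, `4 / m ≤ s`. `X` holds the abscissae of the nodes and of the meeting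
points of two lines; `σ = s / (A + 2)`, `A` a bound of the slopes.
`y i j = max (- up) (min up (o (x i) j))`. -/
theorem exists_gridData {Λ : Lens} {Nd : Finset ℂ} {r : Nd → Nd → ℝ} (h : PNet Λ Nd r) {s : ℝ}
    (hs : 0 < s) : ∃ I J x y, GridData Λ r s I J x y := by
  classical
  obtain ⟨m, hm, hms⟩ := exists_verticals_nat (c := 2 * 2) hs
  have hm' : (0 : ℝ) < m := Nat.cast_pos.2 hm
  obtain ⟨J, a, b, hJ, hh, hl⟩ := exists_gridData_lines Nd hm
  obtain ⟨o, ho, ho1, ho2⟩ := exists_order J a b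
  have hA : ∀ k, |a k| ≤ ∑ k, |a k| := fun k =>
    Finset.single_le_sum (f := fun k => |a k|) (fun _ _ => abs_nonneg _) (Finset.mem_univ k)
  have hA0 : 0 ≤ ∑ k, |a k| := (abs_nonneg _).trans (hA 0)
  generalize ∑ k, |a k| = A at hA hA0
  have hσ : 0 < s / (A + 2) := by positivity
  have hσ' : (A + 2) * (s / (A + 2)) = s := by field_simp
  generalize s / (A + 2) = σ at hσ hσ'
  have hAσ := mul_nonneg hA0 hσ.le
  obtain ⟨I, x, hI, hx0, hxI, hlt, hst, hX⟩ := exists_verticals (Nd.image Complex.re ∪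
    Finset.univ.image fun k : Fin (J + 1) × Fin (J + 1) => (b k.2 - b k.1) / (a k.1 - a k.2)) hσ
  have hx : ∀ i ≤ I, |x i| ≤ 1 := fun i hi => abs_le.2
    ⟨hx0 ▸ exists_gridData_mono hlt i.zero_le hi, hxI ▸ exists_gridData_mono hlt hi le_rfl⟩
  have hu : ∀ i ≤ I, 0 ≤ Λ.up (x i) ∧ Λ.up (x i) ≤ 1 := fun i hi =>
    ⟨by linarith only [Λ.half_le (hx i hi), hx i hi], Λ.up_le _ (hx i hi)⟩
  have hk : ∀ t k, ∃ j, o t j = a k * t + b k := fun t k => by
    obtain ⟨τ, hτ⟩ := ho1 t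
    exact ⟨τ.symm k, by rw [hτ, τ.apply_symm_apply]⟩
  have hH : ∀ t, ∀ l ≤ m, ∃ j, o t j = -2 + 2 * 2 * (l : ℝ) / m := fun t l hl => by
    obtain ⟨k, e⟩ := hh l hl
    exact e t ▸ hk t k
  have hτ : ∀ i < I, ∃ τ : Equiv.Perm (Fin (J + 1)), ∀ j, o (x i) j = a (τ j) * x i + b (τ j) ∧
      o (x (i + 1)) j = a (τ j) * x (i + 1) + b (τ j) := fun i hi => by
    refine ho2 _ _ (hlt i hi) fun k k' hk u h1 h2 e => ?_
    obtain ⟨l, hl, rfl⟩ := hX u (Finset.mem_union_right _ (Finset.mem_image.2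
      ⟨(k, k'), Finset.mem_univ _, (div_eq_iff (sub_ne_zero.2 hk)).2 (by linarith only [e])⟩))
      (abs_le.2 ⟨by linarith only [abs_le.1 (hx i hi.le), h1], by linarith only [abs_le.1 (hx (i + 1) hi), h2]⟩)
    rcases le_or_gt l i with h3 | h3
    · exact h1.not_ge (exists_gridData_mono hlt h3 hi.le)
    · exact h2.not_ge (exists_gridData_mono hlt h3 hl)
  have hf : ∀ j : Fin (J + 1), (⟨min j J, by omega⟩ : Fin (J + 1)) = j := fun j =>
    Fin.ext (by simp only; omega)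
  refine ⟨I, J, x, fun i j => max (-Λ.up (x i)) (min (Λ.up (x i)) (o (x i) ⟨min j J, by omega⟩)),
    hI, hJ, hx0, hxI, hlt, fun i hi => by linarith only [hst i hi, hs, hσ', hAσ], fun i hi => ?_, fun i hi => ?_,
    fun i hi j hj => ?_, fun i hi j hj => ?_, fun i hi j hj => ?_, fun p hp => ?_,
    fun z hz i hi e => ?_, fun p p' hp i hi z hz z' hz' e e' => ?_⟩
  · obtain ⟨j, hj⟩ := hH (x i) 0 m.zero_le
    have h1 : o (x i) ⟨min 0 J, by omega⟩ ≤ o (x i) j := ho _ (Fin.le_def.2 (by simp))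
    rw [hj, Nat.cast_zero, mul_zero, zero_div] at h1
    exact max_eq_left ((min_le_right _ _).trans (by linarith only [hu i hi, hJ, h1]))
  · obtain ⟨j, hj⟩ := hH (x i) m le_rfl
    have h1 : o (x i) j ≤ o (x i) ⟨min J J, by omega⟩ := ho _ (Fin.le_def.2 (by simp only; omega))
    rw [hj, mul_div_cancel_right₀ _ hm'.ne'] at h1
    show max _ (min _ _) = _
    rw [min_eq_left (by linarith only [hu i hi, h1]), max_eq_right (by linarith only [hu i hi])]
  · exact max_le_max le_rfl (min_le_min le_rfl (ho _ (Fin.le_def.2 (by simp only; omega))))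
  · by_contra hc
    push Not at hc
    obtain ⟨h0, h1⟩ := hu i hi
    generalize Λ.up (x i) = u at hc h0 h1
    have h2 : max (-u) (min u (o (x i) ⟨min (j + 1) J, by omega⟩)) ≤ u :=
      max_le (by linarith only [h0]) (min_le_left _ _)
    have h3 := le_max_left (-u) (min u (o (x i) ⟨min j J, by omega⟩))
    obtain ⟨l, hl, h4, h5⟩ := exists_verticals_step hm two_pos
      (t := max (-u) (min u (o (x i) ⟨min j J, by omega⟩))) (by linarith only [hσ, hσ', hAσ, hj, hc, h1, h2, h3]) (by linarith only [hσ, hσ', hAσ, hj, hc, h1, h2, h3])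
    obtain ⟨j', hj'⟩ := hH (x i) l hl
    rw [← hj'] at h4 h5
    have h6 : o (x i) j' < max (-u) (min u (o (x i) ⟨min (j + 1) J, by omega⟩)) := by linarith only [hms, hc, h5]
    have h7 : o (x i) ⟨min j J, by omega⟩ < o (x i) j' :=
      (min_lt_iff.1 (max_lt_iff.1 h4).2).resolve_left (by linarith only [hms, hc, h2, h5])
    have h8 : o (x i) j' < o (x i) ⟨min (j + 1) J, by omega⟩ :=
      (lt_min_iff.1 ((lt_max_iff.1 h6).resolve_left (by linarith only [hj, h3, h4]))).2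
    have h9 := Fin.lt_def.1 ((ho _).reflect_lt h7)
    have h10 := Fin.lt_def.1 ((ho _).reflect_lt h8)
    simp only at h9 h10
    omega
  · obtain ⟨τ, h1⟩ := hτ i hi
    have h2 : |x (i + 1) - x i| ≤ σ := abs_le.2 ⟨by linarith only [hlt i hi, hσ], hst i hi⟩
    have h3 : |Λ.up (x (i + 1)) - Λ.up (x i)| ≤ s := by linarith only [Λ.lip (x (i + 1)) (x i), hσ', hAσ, h2]
    refine (abs_max_sub_max_le_max _ _ _ _).trans (max_le ?_
      ((abs_min_sub_min_le_max _ _ _ _).trans (max_le h3 ?_)))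
    · rwa [neg_sub_neg, abs_sub_comm]
    · rw [(h1 _).1, (h1 _).2, add_sub_add_right_eq_sub, ← mul_sub, abs_mul]
      linarith only [mul_le_mul (hA (τ ⟨min j J, by omega⟩)) h2 (abs_nonneg _) hA0, hσ, hσ', hj]
  · exact hX _ (Finset.mem_union_left _ (Finset.mem_image_of_mem _ hp)) (h.mem p hp).1
  · have h1 := (h.eg_sub hz).2
    obtain ⟨p, p', hp, hz⟩ := hz
    obtain ⟨k, h2⟩ := hl p p' (h.vert p p' hp)
    obtain ⟨j, hj⟩ := hk (x i) k
    refine ⟨j, by omega, ?_⟩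
    show _ = max _ (min _ _)
    rw [hf, hj, ← e, ← h2 z hz]
    exact exists_gridData_clamp h1
  · obtain ⟨τ, h1⟩ := hτ i hi
    obtain ⟨k, h2⟩ := hl p p' (h.vert p p' hp)
    refine ⟨τ.symm k, by omega, ?_, ?_⟩
    · show _ = max _ (min _ _)
      rw [hf, (h1 _).1, τ.apply_symm_apply, ← e, ← h2 z hz]
      exact exists_gridData_clamp (h.eg_sub ⟨p, p', hp, hz⟩).2
    · show _ = max _ (min _ _)
      rw [hf, (h1 _).2, τ.apply_symm_apply, ← e', ← h2 z' hz']
      exact exists_gridData_clamp (h.eg_sub ⟨p, p', hp, hz'⟩).2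

variable {Λ : Lens} {Nd : Finset ℂ} {r : Nd → Nd → ℝ} {s : ℝ} {I J : ℕ} {x : ℕ → ℝ}
  {y : ℕ → ℕ → ℝ}

theorem GridData.exists_rep_x (h : GridData Λ r s I J x y) {a b : ℕ} (hab : a < b) (hb : b ≤ I) :
    x a < x b := by
  induction b, hab using Nat.le_induction with
  | base => exact h.x_lt a hb
  | succ n _ ih => exact (ih (by omega)).trans (h.x_lt n hb)

theorem GridData.exists_rep_x' (h : GridData Λ r s I J x y) {a b : ℕ} (hab : a ≤ b) (hb : b ≤ I) :
    x a ≤ x b :=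
  hab.eq_or_lt.elim (fun e => e ▸ le_rfl) fun e => (h.exists_rep_x e hb).le

theorem GridData.exists_rep_y (h : GridData Λ r s I J x y) {i a b : ℕ} (hi : i ≤ I) (hab : a ≤ b)
    (hb : b ≤ J) : y i a ≤ y i b := by
  induction b, hab using Nat.le_induction with
  | base => exact le_rfl
  | succ n _ ih => exact (ih (by omega)).trans (h.y_le i hi n hb)

theorem exists_rep_nat (E : ℕ → Prop) (J : ℕ) : ∃ g : ℕ → ℕ, (∃ k ≤ J, E k) → ∀ j ≤ J, g j ≤ J ∧
    E (g j) ∧ ((g j ≤ j ∧ ∀ k, E k → k ≤ j → k ≤ g j) ∨ (j < g j ∧ ∀ k, E k → g j ≤ k)) := by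
  classical
  refine ⟨fun j => if ∃ k ≤ j, E k then Nat.findGreatest E j else sInf {k | E k}, ?_⟩
  rintro ⟨k₀, hk₀, h₀⟩ j hj
  dsimp only
  split_ifs with h
  · obtain ⟨k, hk, hE⟩ := h
    exact ⟨(Nat.findGreatest_le j).trans hj, Nat.findGreatest_spec hk hE,
      Or.inl ⟨Nat.findGreatest_le j, fun k hE hk => Nat.le_findGreatest hk hE⟩⟩
  · have h1 : E (sInf {k | E k}) := Nat.sInf_mem (s := {k | E k}) ⟨k₀, h₀⟩
    exact ⟨(Nat.sInf_le h₀).trans hk₀, h1, Or.inr ⟨not_le.1 fun h' => h ⟨_, h', h1⟩,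
      fun k hk => Nat.sInf_le hk⟩⟩

/-- D4. Representatives. `rep i j` is the largest `j' ≤ j` with `(x i, y i j') ∈ Eg r`, or the least
such `j'` if there is none below. Hint for the distance: apply `hd` to `(x i, y i j - s)` if this
point lies in the polygon, and to `(x i, y i j)`. -/
theorem GridData.exists_rep (h : GridData Λ r s I J x y) (hs : 0 ≤ s)
    (hd : ∀ p ∈ Λ.P, ∃ p' ∈ Eg r, p'.re = p.re ∧ ‖p' - p‖ ≤ s) :
    ∃ rep : ℕ → ℕ → ℕ, ∀ i ≤ I, ∀ j ≤ J, rep i j ≤ J ∧ (⟨x i, y i (rep i j)⟩ : ℂ) ∈ Eg r ∧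
      |y i (rep i j) - y i j| ≤ 2 * s ∧ ((⟨x i, y i j⟩ : ℂ) ∈ Eg r → rep i j = j) ∧
      ∀ j', (j ≤ j' ∧ j' ≤ rep i j) ∨ (rep i j ≤ j' ∧ j' ≤ j) → rep i j' = rep i j := by
  choose g hg using fun i => exists_rep_nat (fun j => (⟨x i, y i j⟩ : ℂ) ∈ Eg r) J
  refine ⟨g, fun i hi => ?_⟩
  have hx : |x i| ≤ 1 := abs_le.2 ⟨h.x_zero ▸ h.exists_rep_x' (Nat.zero_le i) hi,
    h.x_last ▸ h.exists_rep_x' hi le_rfl⟩
  have hlo : ∀ j ≤ J, -Λ.up (x i) ≤ y i j := fun j hj =>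
    h.y_zero i hi ▸ h.exists_rep_y hi (Nat.zero_le j) hj
  have hup : ∀ j ≤ J, y i j ≤ Λ.up (x i) := fun j hj =>
    h.y_last i hi ▸ h.exists_rep_y hi hj le_rfl
  have key : ∀ t, -Λ.up (x i) ≤ t → t ≤ Λ.up (x i) → ∃ k ≤ J, (⟨x i, y i k⟩ : ℂ) ∈ Eg r ∧
      |y i k - t| ≤ s := fun t h1 h2 => by
    obtain ⟨p', hp, h3, h4⟩ := hd ⟨x i, t⟩ ⟨hx, by simpa using abs_le.2 ⟨h1, h2⟩⟩
    obtain ⟨k, hk, h5⟩ := h.cover p' hp i hi h3
    refine ⟨k, hk, (Complex.ext h3 h5 : p' = ⟨x i, y i k⟩) ▸ hp, ?_⟩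
    simpa [h5] using (Complex.abs_im_le_norm _).trans h4
  have hG := hg i ((key _ (hlo 0 (Nat.zero_le _)) (hup 0 (Nat.zero_le _))).imp
    fun k hk => ⟨hk.1, hk.2.1⟩)
  intro j hj
  obtain ⟨h1, h2, h3⟩ := hG j hj
  refine ⟨h1, h2, ?_, fun hE => ?_, fun j' hj' => ?_⟩
  · rcases h3 with ⟨h3, h4⟩ | ⟨h3, h4⟩
    · have h5 := h.exists_rep_y hi h3 hj
      have h6 := hlo _ h1
      refine abs_le.2 ⟨?_, by linarith only [hs, h5]⟩
      by_cases h7 : -Λ.up (x i) ≤ y i j - s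
      · obtain ⟨k, hk, hE, h8⟩ := key _ h7 (by linarith only [hup j hj, hs])
        obtain ⟨h8, h9⟩ := abs_le.1 h8
        rcases le_total k j with hkj | hkj
        · linarith only [h.exists_rep_y hi (h4 k hE hkj) h1, h8]
        · rw [le_antisymm (by linarith only [h9]) (h.exists_rep_y hi hkj hk)] at hE
          linarith only [h.exists_rep_y hi (h4 j hE le_rfl) h1, hs]
      · linarith only [h5, h6, h7]
    · obtain ⟨k, hk, hE, h8⟩ := key _ (hlo j hj) (hup j hj)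
      have h5 := h.exists_rep_y hi h3.le h1
      have h6 := h.exists_rep_y hi (h4 k hE) hk
      exact abs_le.2 ⟨by linarith only [hs, h5], by linarith only [(abs_le.1 h8).2, hs, h6]⟩
  · rcases h3 with ⟨h3, h4⟩ | ⟨h3, h4⟩
    · exact le_antisymm h3 (h4 j hE le_rfl)
    · exact absurd (h4 j hE) (not_le.2 h3)
  · obtain ⟨-, g2, g3⟩ := hG j' (by omega)
    rcases h3 with ⟨h3, h4⟩ | ⟨h3, h4⟩ <;> rcases g3 with ⟨g3, g4⟩ | ⟨g3, g4⟩ <;>
      have := h4 _ g2 <;> have := g4 _ h2 <;> omega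

theorem spread_walk {P : ℕ → Prop} {a b : ℕ} (ha : P a) (hs : ∀ k k', min a b ≤ k → k ≤ max a b →
    min a b ≤ k' → k' ≤ max a b → k + 1 = k' ∨ k' + 1 = k → P k → P k') : P b := by
  rcases le_total a b with h | h
  · have : ∀ n, a + n ≤ b → P (a + n) := fun n => by
      induction n with
      | zero => exact fun _ => ha
      | succ n ih =>
        exact fun hn => hs (a + n) _ (by omega) (by omega) (by omega) (by omega) (Or.inl rfl)
          (ih (by omega))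
    simpa [h] using this (b - a) (by omega)
  · have : ∀ n, n ≤ a - b → P (a - n) := fun n => by
      induction n with
      | zero => exact fun _ => ha
      | succ n ih =>
        exact fun hn => hs (a - n) _ (by omega) (by omega) (by omega) (by omega) (by omega)
          (ih (by omega))
    simpa [Nat.sub_sub_self h] using this (a - b) le_rfl

/-- an edge as a graph over its abscissae -/
theorem spread_edge {a b : ℂ} (hab : a.re ≠ b.re) {U : ℂ → ℝ} {α β : ℝ}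
    (hU : ∀ t ∈ Icc (0 : ℝ) 1, U (AffineMap.lineMap a b t) = AffineMap.lineMap α β t) :
    (∃ c d, ∀ z ∈ segment ℝ a b, U z = c * z.re + d) ∧
      (∀ z ∈ segment ℝ a b, ∀ z' ∈ segment ℝ a b, z.re = z'.re → z = z') ∧
      (∀ z ∈ segment ℝ a b, ∀ z' ∈ segment ℝ a b, ∀ t, z.re ≤ t → t ≤ z'.re →
        ∃ w ∈ segment ℝ a b, w.re = t) ∧
      ∀ z ∈ segment ℝ a b, min a.re b.re ≤ z.re ∧ z.re ≤ max a.re b.re := by
  have hre : ∀ t : ℝ, (AffineMap.lineMap a b t : ℂ).re = a.re + t * (b.re - a.re) := fun t => by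
    simp [AffineMap.lineMap_apply]
    ring
  have h0 : b.re - a.re ≠ 0 := sub_ne_zero.2 hab.symm
  refine ⟨⟨(β - α) / (b.re - a.re), α - (β - α) / (b.re - a.re) * a.re, ?_⟩, ?_, ?_, ?_⟩
  · rw [segment_eq_image_lineMap]
    rintro _ ⟨t, ht, rfl⟩
    rw [hU t ht, hre, AffineMap.lineMap_apply]
    simp only [vsub_eq_sub, smul_eq_mul, vadd_eq_add]
    field_simp
    ring
  · rw [segment_eq_image_lineMap]
    rintro _ ⟨t, -, rfl⟩ _ ⟨t', -, rfl⟩ h
    rw [hre, hre, add_right_inj] at h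
    rw [mul_right_cancel₀ h0 h]
  · intro z hz z' hz' t h1 h2
    exact ((convex_segment a b).isPreconnected.image _
      Complex.continuous_re.continuousOn).Icc_subset ⟨z, hz, rfl⟩ ⟨z', hz', rfl⟩ ⟨h1, h2⟩
  · intro z hz
    have := (convex_Icc (min a.re b.re) (max a.re b.re)).linear_preimage Complex.reLm
    exact this.segment_subset ⟨min_le_left _ _, le_max_left _ _⟩
      ⟨min_le_right _ _, le_max_right _ _⟩ hz

/-- D5. The combinatorial maximum principle. Hint: suppose that `A` has no boundary index. Let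
`Q z` mean that `z ∈ Eg r` and `z = (x i, y i j)` for some `(i, j) ∈ A`; then all `(i, j')` at the
same place are in `A`. From `(i, j) ∈ A` walk to `(i, rep i j)`. If `Q z`, `z` on an edge, and `z'`
is the point of the edge on the next vertical, then `U z' ≤ m`, with `Q z'` in case of equality
(`strip`). So if `U = m` on an edge that has a point with `Q`, both ends have `Q`. A node with
`Q` is not a vertex; by harmonicity `Q` passes along the jumps, against `h.abs`. -/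
theorem GridData.spread (hN : PNet Λ Nd r) (h : GridData Λ r s I J x y) {rep : ℕ → ℕ → ℕ}
    (hrep : ∀ i ≤ I, ∀ j ≤ J, rep i j ≤ J ∧ (⟨x i, y i (rep i j)⟩ : ℂ) ∈ Eg r ∧
      ((⟨x i, y i j⟩ : ℂ) ∈ Eg r → rep i j = j) ∧
      ∀ j', (j ≤ j' ∧ j' ≤ rep i j) ∨ (rep i j ≤ j' ∧ j' ≤ j) → rep i j' = rep i j)
    {u : Nd → ℝ} {U : ℂ → ℝ} (hU : IsExt r u U) (hu : ∀ p : Nd, (p : ℂ) ∉ Λ.Vt → gen r u p = 0)
    {m : ℝ} {A : Set (ℕ × ℕ)} (hA : A.Nonempty)
    (h1 : ∀ k ∈ A, k.1 ≤ I ∧ k.2 ≤ J ∧ U ⟨x k.1, y k.1 (rep k.1 k.2)⟩ = m)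
    (h2 : ∀ k ∈ A, ∀ k' : ℕ × ℕ, k'.1 ≤ I → k'.2 ≤ J →
      ((k.1 + 1 = k'.1 ∨ k'.1 + 1 = k.1) ∧ k.2 = k'.2) ∨
        (k.1 = k'.1 ∧ (k.2 + 1 = k'.2 ∨ k'.2 + 1 = k.2)) →
      U ⟨x k'.1, y k'.1 (rep k'.1 k'.2)⟩ ≤ m ∧ (U ⟨x k'.1, y k'.1 (rep k'.1 k'.2)⟩ = m → k' ∈ A)) :
    ∃ k ∈ A, k.1 = 0 ∨ k.1 = I ∨ k.2 = 0 ∨ k.2 = J := by
  by_contra hne
  simp only [not_exists, not_and, not_or] at hne
  have hx : ∀ {a b}, a ≤ I → b ≤ I → x a ≤ x b → a ≤ b := fun ha hb hab =>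
    not_lt.1 fun h' => absurd hab (not_le.2 (h.exists_rep_x h' ha))
  have hv : ∀ i j j₂, (i, j) ∈ A → j₂ ≤ J → (∀ k, min j j₂ ≤ k → k ≤ max j j₂ →
      U ⟨x i, y i (rep i k)⟩ = m) → (i, j₂) ∈ A := fun i j j₂ hj hj₂ hk =>
    spread_walk (P := fun k => (i, k) ∈ A) hj fun k k' _ _ a b c hA =>
      (h2 _ hA (i, k') (h1 _ hj).1 (by have := (h1 _ hj).2.1; dsimp only at *; omega)
        (Or.inr ⟨rfl, c⟩)).2 (hk k' a b)
  have hm : ∀ i j, (i, j) ∈ A → (⟨x i, y i j⟩ : ℂ) ∈ Eg r → U ⟨x i, y i j⟩ = m := fun i j hj hE => by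
    have := (h1 _ hj).2.2
    rwa [(hrep i (h1 _ hj).1 j (h1 _ hj).2.1).2.2.1 hE] at this
  have hsame : ∀ i j j₂, (i, j) ∈ A → (⟨x i, y i j⟩ : ℂ) ∈ Eg r → j₂ ≤ J → y i j₂ = y i j →
      (i, j₂) ∈ A := fun i j j₂ hj hE hj₂ e => hv i j j₂ hj hj₂ fun k a b => by
    have hi : i ≤ I := (h1 _ hj).1
    have hJ : j ≤ J := (h1 _ hj).2.1
    have e' : y i k = y i j := by
      rcases le_total j j₂ with c | c
      · exact le_antisymm (e ▸ h.exists_rep_y hi (by omega) hj₂)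
          (h.exists_rep_y hi (by omega) (by omega))
      · exact le_antisymm (h.exists_rep_y hi (by omega) hJ)
          (e ▸ h.exists_rep_y hi (by omega) (by omega))
    rw [(hrep i hi k (by omega)).2.2.1 (e' ▸ hE), e']
    exact hm i j hj hE
  set Q : ℕ → ℂ → Prop := fun i z => ∃ j, (i, j) ∈ A ∧ z = ⟨x i, y i j⟩ with hQ
  have edge : ∀ p p' : Nd, 0 < r p p' → ∀ a ≤ I, ∀ b ≤ I, (p : ℂ).re = x a → (p' : ℂ).re = x b →
      (∀ i, ∀ z ∈ segment ℝ (p : ℂ) p', Q i z → Q a p ∨ Q b p') ∧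
        (Q a p → u p' ≤ u p ∧ (u p' = u p → Q b p')) := by
    intro p p' hr a ha b hb ea eb
    obtain ⟨⟨c, d, e3⟩, e5, e4, e6⟩ := spread_edge (hN.vert p p' hr) (hU.2 p p' hr)
    have hp := left_mem_segment ℝ (p : ℂ) p'
    have hp' := right_mem_segment ℝ (p : ℂ) p'
    have e1 : ∀ z ∈ segment ℝ (p : ℂ) p', z ∈ Eg r := fun z hz => ⟨p, p', hr, hz⟩
    have step : ∀ i i', i + 1 = i' ∨ i' + 1 = i → i' ≤ I → ∀ z ∈ segment ℝ (p : ℂ) p',
        ∀ z' ∈ segment ℝ (p : ℂ) p', Q i z → z'.re = x i' → U z' ≤ m ∧ (U z' = m → Q i' z') := by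
      rintro i i' hii hi' _ hz z' hz' ⟨j, hj, rfl⟩ e
      obtain ⟨k, hk, k1, k2⟩ : ∃ k ≤ J, y i j = y i k ∧ z'.im = y i' k := by
        rcases hii with rfl | rfl
        · exact h.strip p p' hr i hi' _ hz z' hz' rfl e
        · exact (h.strip p p' hr i' (h1 _ hj).1 z' hz' _ hz e rfl).imp
            fun k hk => ⟨hk.1, hk.2.2, hk.2.1⟩
      obtain rfl : z' = ⟨x i', y i' k⟩ := Complex.ext e k2
      have := h2 _ (hsame i j k hj (e1 _ hz) hk k1.symm) (i', k) hi' hk (Or.inl ⟨hii, rfl⟩)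
      rw [(hrep i' hi' k hk).2.2.1 (e1 _ hz')] at this
      exact ⟨this.1, fun e => ⟨k, this.2 e, rfl⟩⟩
    have W : ∀ i, ∀ z ∈ segment ℝ (p : ℂ) p', Q i z → ∀ i' ≤ I, ∀ z' ∈ segment ℝ (p : ℂ) p',
        z'.re = x i' → (i < i' → c ≤ 0) ∧ (i' < i → 0 ≤ c) ∧ (c = 0 → Q i' z') := by
      intro i z hz hq i' hi' z' hz' e
      obtain ⟨hi, ez, Uz⟩ : i ≤ I ∧ z.re = x i ∧ U z = m := by
        obtain ⟨j, hj, rfl⟩ := hq
        exact ⟨(h1 _ hj).1, rfl, hm i j hj (e1 _ hz)⟩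
      have mid : ∀ k, min i i' ≤ k → k ≤ max i i' → ∃ w ∈ segment ℝ (p : ℂ) p', w.re = x k := by
        intro k k1 k2
        rcases le_total i i' with c | c
        · exact e4 z hz z' hz' _ (ez ▸ h.exists_rep_x' (by omega) (by omega))
            (e ▸ h.exists_rep_x' (by omega) hi')
        · exact e4 z' hz' z hz _ (e ▸ h.exists_rep_x' (by omega) (by omega))
            (ez ▸ h.exists_rep_x' (by omega) hi)
      refine ⟨fun hlt => ?_, fun hlt => ?_, fun hc => ?_⟩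
      · obtain ⟨w, hw, ew⟩ := mid (i + 1) (by omega) (by omega)
        have h3 := (step i (i + 1) (Or.inl rfl) (by omega) z hz w hw hq ew).1
        rw [← Uz, e3 z hz, e3 w hw, ew, ez] at h3
        nlinarith only [h.x_lt i (by omega), h3]
      · obtain ⟨w, hw, ew⟩ := mid (i - 1) (by omega) (by omega)
        have h3 := (step i (i - 1) (by omega) (by omega) z hz w hw hq ew).1
        rw [← Uz, e3 z hz, e3 w hw, ew, ez] at h3
        nlinarith only [h.exists_rep_x (show i - 1 < i by omega) hi, h3]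
      · refine spread_walk (P := fun k => ∀ w ∈ segment ℝ (p : ℂ) p', w.re = x k → Q k w)
          (a := i) (fun w hw ew => e5 z hz w hw (ez.trans ew.symm) ▸ hq)
          (fun k k' k1 k2 k3 k4 hk hP w hw ew => ?_) z' hz' e
        obtain ⟨v, hv, ev⟩ := mid k k1 k2
        refine (step k k' hk (by omega) v hv w hw (hP v hv ev) ew).2 ?_
        rw [← Uz, e3 z hz, e3 w hw, hc, zero_mul, zero_mul]
    refine ⟨fun i z hz hq => ?_, fun hq => ?_⟩
    · obtain ⟨a1, a2, a3⟩ := W i z hz hq a ha p hp ea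
      obtain ⟨b1, b2, -⟩ := W i z hz hq b hb p' hp' eb
      obtain ⟨hi, ez⟩ : i ≤ I ∧ z.re = x i := by
        obtain ⟨j, hj, rfl⟩ := hq
        exact ⟨(h1 _ hj).1, rfl⟩
      by_cases ia : i = a
      · exact Or.inl (ia ▸ e5 z hz p hp (by rw [ez, ea, ia]) ▸ hq)
      by_cases ib : i = b
      · exact Or.inr (ib ▸ e5 z hz p' hp' (by rw [ez, eb, ib]) ▸ hq)
      obtain ⟨l1, l2⟩ := e6 z hz
      rw [ea, eb, ez] at l1 l2
      have l3 := (min_le_iff.1 l1).imp (hx ha hi) (hx hb hi)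
      have l4 := (le_max_iff.1 l2).imp (hx hi ha) (hx hi hb)
      rcases lt_or_gt_of_ne ia with c1 | c1
      · exact Or.inl (a3 (le_antisymm (a1 c1) (b2 (by omega))))
      · exact Or.inl (a3 (le_antisymm (b1 (by omega)) (a2 c1)))
    · obtain ⟨b1, b2, b3⟩ := W a p hp hq b hb p' hp' eb
      have e : u p' - u p = c * (x b - x a) := by
        rw [← hU.1, ← hU.1, e3 _ hp, e3 _ hp', ea, eb]
        ring
      have hne' : x b - x a ≠ 0 := ea ▸ eb ▸ sub_ne_zero.2 (hN.vert p p' hr).symm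
      refine ⟨?_, fun e' => b3 ((mul_eq_zero.1 (by rw [← e, e', sub_self])).resolve_right hne')⟩
      rcases lt_trichotomy a b with c1 | c1 | c1
      · nlinarith only [b1 c1, h.exists_rep_x c1 hb, e]
      · exact absurd (by rw [c1, sub_self]) hne'
      · nlinarith only [b2 c1, h.exists_rep_x c1 ha, e]
  choose! ix hix using h.nodes
  have hS : ∀ p : Nd, Q (ix p) p → (p : ℂ) ∈ Eg r → (p : ℂ) ∉ Λ.Vt := by
    rintro p ⟨j, hj, e⟩ hE hp
    have hi := (hix p p.2).1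
    have h3 := (Λ.vt _ hp).2
    rw [e] at h3 hE
    rcases eq_or_eq_neg_of_abs_eq h3 with h4 | h4
    · exact (hne _ (hsame _ j J hj hE le_rfl ((h.y_last _ hi).trans h4.symm))).2.2.2 rfl
    · exact (hne _ (hsame _ j 0 hj hE (Nat.zero_le _) ((h.y_zero _ hi).trans h4.symm))).2.2.1 rfl
  have edge' := fun (p p' : Nd) hr => edge p p' hr _ (hix p p.2).1 _ (hix p' p'.2).1 (hix p p.2).2
    (hix p' p'.2).2
  obtain ⟨p, ⟨hq, hE⟩, p', hp', hr⟩ := hN.abs {p | Q (ix p) p ∧ (p : ℂ) ∈ Eg r} (by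
    obtain ⟨⟨i, j⟩, hj⟩ := hA
    obtain ⟨r1, ⟨p, p', hr, hz⟩, -, r4⟩ := hrep i (h1 _ hj).1 j (h1 _ hj).2.1
    have hk := hv i j _ hj r1 fun k a b => by
      rw [r4 k (by omega)]
      exact (h1 _ hj).2.2
    rcases (edge' p p' hr).1 i _ hz ⟨_, hk, rfl⟩ with e | e
    · exact ⟨p, e, p, p', hr, left_mem_segment _ _ _⟩
    · exact ⟨p', e, p, p', hr, right_mem_segment _ _ _⟩)
    (disjoint_left.2 fun p hp => hS p hp.1 hp.2)
  refine hp' ⟨((edge' p p' hr).2 hq).2 ?_, p, p', hr, right_mem_segment _ _ _⟩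
  have h0 := (Finset.sum_eq_zero_iff_of_nonpos fun q _ => ?_).1 (hu p (hS p hq hE)) p'
    (Finset.mem_univ _)
  · exact sub_eq_zero.1 ((mul_eq_zero.1 h0).resolve_left hr.ne')
  · rcases (hN.nonneg p q).eq_or_lt with e | e
    · rw [← e, zero_smul]
    · exact mul_nonpos_of_nonneg_of_nonpos e.le (sub_nonpos.2 ((edge' p q e).2 hq).1)

theorem param_x_mem (h : GridData Λ r s I J x y) {i : ℕ} (hi : i ≤ I) : |x i| ≤ 1 := by
  have h1 := (pl_bijOn h.x_lt).mapsTo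
    (show (i : ℝ) ∈ Icc (0 : ℝ) I from ⟨Nat.cast_nonneg i, Nat.cast_le.2 hi⟩)
  rw [pl_nat hi, h.x_zero, h.x_last] at h1
  exact abs_le.2 h1

theorem param_up_nonneg (Λ : Lens) {t : ℝ} (ht : |t| ≤ 1) : 0 ≤ Λ.up t :=
  le_trans (by linarith) (Λ.half_le ht)

theorem param_near {n i i' : ℕ} {σ : ℝ} (h1 : (i' : ℝ) ≤ σ) (h2 : σ ≤ i' + 1) (_ : i' < n)
    (h : |σ - i| < 1) : i = i' ∨ i = i' + 1 := by
  obtain ⟨h3, h4⟩ := abs_lt.1 h
  have a1 : (i' : ℝ) < (i + 1 : ℕ) := by push_cast; linarith only [h1, h4]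
  have a2 : (i : ℝ) < (i' + 2 : ℕ) := by push_cast; linarith only [h2, h3]
  have := Nat.cast_lt.1 a1
  have := Nat.cast_lt.1 a2
  omega

theorem param_conv {c D p q t : ℝ} (ht0 : 0 ≤ t) (ht1 : t ≤ 1) (hp : |p - c| ≤ D)
    (hq : |q - c| ≤ D) : |(1 - t) * p + t * q - c| ≤ D := by
  obtain ⟨a1, a2⟩ := abs_le.1 hp
  obtain ⟨a3, a4⟩ := abs_le.1 hq
  have ht2 : 0 ≤ 1 - t := by linarith
  refine abs_le.2 ⟨?_, ?_⟩
  · linarith only [mul_le_mul_of_nonneg_left a1 ht2, mul_le_mul_of_nonneg_left a3 ht0]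
  · linarith only [mul_le_mul_of_nonneg_left a2 ht2, mul_le_mul_of_nonneg_left a4 ht0]

/-- D6. Hint: `v i j = (y i j + s (2 j / J - 1)) / (up (x i) + s)` increases strictly in `j` from
`-1` to `1`. `Ψ (σ, τ) = (X, V * (up X + s))` with `X = pl I x σ`,
`V = pl J (fun j => pl I (fun i => v i j) σ) τ`; `pl_bijOn`, `Lens.mem_frontier`. -/
theorem GridData.exists_param (h : GridData Λ r s I J x y) (hs : 0 < s) :
    ∃ Ψ : ℝ × ℝ → ℂ, Continuous Ψ ∧ BijOn Ψ (Rect I J) (reg Λ.up s) ∧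
      (∀ w ∈ Rect I J, w.1 = 0 ∨ w.1 = I ∨ w.2 = 0 ∨ w.2 = J → Ψ w ∈ frontier (reg Λ.up s)) ∧
      ∀ w ∈ Rect I J, ∀ i ≤ I, ∀ j ≤ J, |w.1 - i| < 1 → |w.2 - j| < 1 →
        ‖Ψ w - ⟨x i, y i j⟩‖ ≤ 6 * s := by
  have hJ : (0 : ℝ) < J := Nat.cast_pos.2 h.J_pos
  have hpos : ∀ t, |t| ≤ 1 → 0 < Λ.up t + s := fun t ht => by
    linarith [param_up_nonneg Λ ht]
  obtain ⟨v, hv⟩ : ∃ v : ℕ → ℕ → ℝ, ∀ i ≤ I, ∀ j,
      v i j * (Λ.up (x i) + s) = y i j + s * (2 * j / J - 1) :=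
    ⟨fun i j => (y i j + s * (2 * j / J - 1)) / (Λ.up (x i) + s), fun i hi j =>
      div_mul_cancel₀ _ (hpos _ (param_x_mem h hi)).ne'⟩
  have v0 : ∀ i ≤ I, v i 0 = -1 := fun i hi => by
    refine mul_right_cancel₀ (hpos _ (param_x_mem h hi)).ne' ?_
    rw [hv i hi, h.y_zero i hi]
    simp only [Nat.cast_zero, mul_zero, zero_div]
    ring
  have v1 : ∀ i ≤ I, v i J = 1 := fun i hi => by
    refine mul_right_cancel₀ (hpos _ (param_x_mem h hi)).ne' ?_
    rw [hv i hi, h.y_last i hi, mul_div_assoc, div_self hJ.ne']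
    ring
  have vlt : ∀ i ≤ I, ∀ j < J, v i j < v i (j + 1) := fun i hi j hj => by
    refine lt_of_mul_lt_mul_right ?_ (hpos _ (param_x_mem h hi)).le
    rw [hv i hi, hv i hi]
    have h1 : (2 * (j : ℝ)) / J < 2 * ((j + 1 : ℕ) : ℝ) / J :=
      div_lt_div_of_pos_right (by push_cast; linarith only []) hJ
    nlinarith only [h.y_le i hi j hj, hs, h1]
  have vabs : ∀ i ≤ I, ∀ j ≤ J, |v i j| ≤ 1 := fun i hi j hj => by
    have h1 := (pl_bijOn (vlt i hi)).mapsTo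
      (show (j : ℝ) ∈ Icc (0 : ℝ) J from ⟨Nat.cast_nonneg j, Nat.cast_le.2 hj⟩)
    rw [pl_nat hj, v0 i hi, v1 i hi] at h1
    exact abs_le.2 h1
  have hX : BijOn (pl I x) (Icc 0 I) (Icc (-1) 1) := by
    simpa only [h.x_zero, h.x_last] using pl_bijOn h.x_lt
  have hV : ∀ σ ∈ Icc (0 : ℝ) I,
      BijOn (pl J fun j => pl I (fun i => v i j) σ) (Icc 0 J) (Icc (-1) 1) ∧
        pl I (fun i => v i 0) σ = -1 ∧ pl I (fun i => v i J) σ = 1 := fun σ hσ => by
    obtain ⟨i, hi, h1, h2⟩ := exists_cell h.I_pos hσ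
    have e0 : pl I (fun i => v i 0) σ = -1 := by
      rw [pl_eq hi _ h1 h2, v0 i hi.le, v0 (i + 1) hi]
      ring
    have e1 : pl I (fun i => v i J) σ = 1 := by
      rw [pl_eq hi _ h1 h2, v1 i hi.le, v1 (i + 1) hi]
      ring
    refine ⟨?_, e0, e1⟩
    have := pl_bijOn (n := J) (a := fun j => pl I (fun i => v i j) σ) fun j hj => by
      simp only [pl_eq hi _ h1 h2]
      have a1 := sub_pos.2 (vlt i hi.le j hj)
      have a2 := sub_pos.2 (vlt (i + 1) hi j hj)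
      rcases h1.lt_or_eq with h3 | h3
      · linarith only [mul_pos (sub_pos.2 h3) a2, mul_nonneg (sub_nonneg.2 h2) a1.le]
      · rw [← h3]
        linarith only [a1]
    simpa only [e0, e1] using this
  have hmap : ∀ w ∈ Rect I J, (⟨pl I x w.1, pl J (fun j => pl I (fun i => v i j) w.1) w.2 *
      (Λ.up (pl I x w.1) + s)⟩ : ℂ) ∈ reg Λ.up s := fun w hw => by
    have a1 := abs_le.2 (hX.mapsTo hw.1)
    have a2 := abs_le.2 ((hV _ hw.1).1.mapsTo hw.2)
    refine ⟨a1, ?_⟩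
    simp only [abs_mul, abs_of_pos (hpos _ a1)]
    exact mul_le_of_le_one_left (hpos _ a1).le a2
  refine ⟨fun w => ⟨pl I x w.1, pl J (fun j => pl I (fun i => v i j) w.1) w.2 *
    (Λ.up (pl I x w.1) + s)⟩, ?_, ⟨hmap, ?_, ?_⟩, ?_, ?_⟩
  · have c1 : Continuous fun w : ℝ × ℝ => pl I x w.1 := (pl_continuous I x).comp continuous_fst
    have c2 : Continuous fun w : ℝ × ℝ => pl J (fun j => pl I (fun i => v i j) w.1) w.2 := by
      unfold pl hat1
      fun_prop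
    exact Complex.equivRealProdCLM.symm.continuous.comp
      (c1.prodMk (c2.mul ((Λ.continuous_up.comp c1).add continuous_const)))
  · rintro ⟨σ, τ⟩ hw ⟨σ', τ'⟩ hw' e
    have e1 : pl I x σ = pl I x σ' := congrArg Complex.re e
    obtain rfl : σ = σ' := hX.injOn hw.1 hw'.1 e1
    have e2 := mul_right_cancel₀ (hpos _ (abs_le.2 (hX.mapsTo hw.1))).ne' (congrArg Complex.im e)
    obtain rfl : τ = τ' := (hV _ hw.1).1.injOn hw.2 hw'.2 e2
    rfl
  · intro z hz
    obtain ⟨σ, hσ, e1⟩ := hX.surjOn (abs_le.1 hz.1)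
    have hp := hpos _ hz.1
    obtain ⟨τ, hτ, e2⟩ := (hV σ hσ).1.surjOn (abs_le.1 (show |z.im / (Λ.up z.re + s)| ≤ 1 by
      rw [abs_div, abs_of_pos hp, div_le_one hp]
      exact hz.2))
    refine ⟨(σ, τ), ⟨hσ, hτ⟩, Complex.ext e1 ?_⟩
    simp only [e1, e2]
    exact div_mul_cancel₀ _ hp.ne'
  · intro w hw hb
    refine Λ.mem_frontier.2 ⟨hmap w hw, ?_⟩
    have hp := hpos _ (abs_le.2 (hX.mapsTo hw.1))
    have z0 : ∀ (n : ℕ) (a : ℕ → ℝ), pl n a 0 = a 0 := fun n a => by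
      simpa using pl_nat (Nat.zero_le n) a
    rcases hb with e | e | e | e
    · left
      simp only [e, z0, h.x_zero, abs_neg, abs_one]
    · left
      simp only [e, pl_nat le_rfl, h.x_last, abs_one]
    · right
      simp only [e, z0, (hV _ hw.1).2.1, neg_mul, one_mul, abs_neg, abs_of_pos hp]
    · right
      simp only [e, pl_nat le_rfl, (hV _ hw.1).2.2, one_mul, abs_of_pos hp]
  · intro w hw i hi j hj hwi hwj
    obtain ⟨i', hi', a1, a2⟩ := exists_cell h.I_pos hw.1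
    obtain ⟨j', hj', b1, b2⟩ := exists_cell h.J_pos hw.2
    have ci := param_near a1 a2 hi' hwi
    have cj := param_near b1 b2 hj' hwj
    have hxx : ∀ a, a = i' ∨ a = i' + 1 → |pl I x w.1 - x a| ≤ s := fun a ha => by
      rw [pl_eq hi' _ a1 a2]
      have c1 := h.x_lt i' hi'
      have c2 := h.x_step i' hi'
      refine param_conv (by linarith only [a1]) (by linarith only [a2]) ?_ ?_ <;> rcases ha with rfl | rfl <;>
        exact abs_le.2 ⟨by linarith only [hs, c2, c1], by linarith only [hs, c1, c2]⟩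
    have key : ∀ a, a = i' ∨ a = i' + 1 → ∀ b, b = j' ∨ b = j' + 1 →
        |v a b * (Λ.up (pl I x w.1) + s) - y i j| ≤ 5 * s := fun a ha b hb => by
      have ha' : a ≤ I := by omega
      have hb' : b ≤ J := by omega
      have c1 : |y a b - y i b| ≤ s := by
        have := abs_le.1 (h.y_side i' hi' b hb')
        rcases ha with rfl | rfl <;> rcases ci with rfl | rfl <;>
          exact abs_le.2 ⟨by linarith only [hs, this], by linarith only [hs, this]⟩
      have c2 : |y i b - y i j| ≤ s := by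
        have := h.y_le i hi j' hj'
        have := h.y_step i hi j' hj'
        rcases hb with rfl | rfl <;> rcases cj with rfl | rfl <;>
          exact abs_le.2 ⟨by linarith, by linarith⟩
      have c3 : |s * (2 * (b : ℝ) / J - 1)| ≤ s := by
        have d1 : (0 : ℝ) ≤ 2 * (b : ℝ) / J := by positivity
        have d2 : 2 * (b : ℝ) / J ≤ 2 := by
          rw [div_le_iff₀ hJ]
          have : (b : ℝ) ≤ J := Nat.cast_le.2 hb'
          linarith only [this]
        exact abs_le.2 ⟨by nlinarith only [hs, d1], by nlinarith only [hs, d2]⟩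
      have c4 : |v a b * (Λ.up (pl I x w.1) - Λ.up (x a))| ≤ 2 * s := by
        rw [abs_mul]
        have d1 := (Λ.lip (pl I x w.1) (x a)).trans
          (mul_le_mul_of_nonneg_left (hxx a ha) zero_le_two)
        exact (mul_le_of_le_one_left (abs_nonneg _) (vabs a ha' b hb')).trans d1
      have c5 := hv a ha' b
      obtain ⟨d1, d2⟩ := abs_le.1 c1
      obtain ⟨d3, d4⟩ := abs_le.1 c2
      obtain ⟨d5, d6⟩ := abs_le.1 c3
      obtain ⟨d7, d8⟩ := abs_le.1 c4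
      exact abs_le.2 ⟨by linarith only [c5, d1, d3, d5, d7], by linarith only [c5, d2, d4, d6, d8]⟩
    have him : |pl J (fun j => pl I (fun i => v i j) w.1) w.2 * (Λ.up (pl I x w.1) + s) -
        y i j| ≤ 5 * s := by
      have row : ∀ b, b = j' ∨ b = j' + 1 →
          |pl I (fun i => v i b) w.1 * (Λ.up (pl I x w.1) + s) - y i j| ≤ 5 * s := fun b hb => by
        have := param_conv (t := w.1 - i') (by linarith only [a1]) (by linarith only [a2]) (key _ (Or.inl rfl) b hb)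
          (key _ (Or.inr rfl) b hb)
        rw [pl_eq hi' (fun i => v i b) a1 a2]
        convert this using 2
        ring
      have := param_conv (t := w.2 - j') (by linarith only [b1]) (by linarith only [b2]) (row _ (Or.inl rfl))
        (row _ (Or.inr rfl))
      rw [pl_eq hj' _ b1 b2]
      convert this using 2
      ring
    refine (Complex.norm_le_abs_re_add_abs_im _).trans ?_
    have hre := hxx i ci
    simp only [Complex.sub_re, Complex.sub_im]
    linarith only [him, hre]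

/-- D7. Hint: compose `Ψ` with the rescaling of `rescale_near` (`c = 2 s`, `Lens.shrink`) to get a
homeomorphism `Rect I J ≃ₜ Λ.P`; `lam = hatB ∘ inverse`, `pt (i, j) = (x i, y i (rep i j))`;
`hat_bary`, `hat_adj`, `hat_grid`, `hat_supp`, `IsBary.comp`, `Spread.comp`. -/
theorem grid {E : Type} [NormedAddCommGroup E] [NormedSpace ℝ E] (hN : PNet Λ Nd r) {g : Nd → E}
    {G : ℂ → E} (hG : IsExt r g G) (hg : ∀ p : Nd, (p : ℂ) ∉ Λ.Vt → gen r g p = 0) (hs : 0 < s)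
    (hs' : s ≤ 1 / 4) (hd : ∀ p ∈ Λ.P, ∃ p' ∈ Eg r, p'.re = p.re ∧ ‖p' - p‖ ≤ s) :
    ∃ (ι : Type) (_ : Fintype ι) (lam : Λ.P → ι → ℝ) (pt : ι → ℂ), IsBary lam ∧
      Spread lam (fun i => G (pt i)) {w | (w : ℂ) ∈ frontier Λ.P} ∧ (∀ i, pt i ∈ Eg r) ∧
      ∀ w i, lam w i ≠ 0 → ‖pt i - w‖ ≤ 12 * s := by
  obtain ⟨I, J, x, y, h⟩ := exists_gridData hN hs
  obtain ⟨rep, hrep⟩ := h.exists_rep hs.le hd
  obtain ⟨Ψ, hc, hb, hfr, hnear⟩ := h.exists_param hs
  obtain ⟨ρ, hρ1, hρ2, hρ3⟩ := rescale_near (A := Λ.P) (B := reg Λ.up s) (c := 2 * s)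
    (Λ.compact_reg 0) (Λ.convex_reg 0) (Λ.nhds_reg le_rfl) (Λ.compact_reg s) (Λ.convex_reg s)
    (fun z hz => ⟨hz.1, by linarith only [hz.2, hs]⟩) (by linarith only [hs]) (by linarith)
    fun z hz => Λ.shrink hs.le hs' hz
  have hb2 : BijOn (ρ ∘ Ψ) (Rect I J) Λ.P :=
    (hρ1 ▸ ρ.injective.injOn.bijOn_image : BijOn ρ (reg Λ.up s) Λ.P).comp hb
  have : CompactSpace (Rect I J) := isCompact_iff_compactSpace.1 (isCompact_rect I J)
  have hce : Continuous (hb2.equiv (ρ ∘ Ψ)) :=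
    ((ρ.continuous.comp hc).comp continuous_subtype_val).subtype_mk _
  obtain ⟨e, he⟩ : ∃ e : Rect I J ≃ₜ Λ.P, ∀ w, (e w : ℂ) = ρ (Ψ w) :=
    ⟨hce.homeoOfEquivCompactToT2, fun _ => rfl⟩
  have le1 : ∀ k : Fin (I + 1) × Fin (J + 1), (k.1 : ℕ) ≤ I := fun k => Nat.lt_succ_iff.1 k.1.2
  have le2 : ∀ k : Fin (I + 1) × Fin (J + 1), (k.2 : ℕ) ≤ J := fun k => Nat.lt_succ_iff.1 k.2.2
  refine ⟨Fin (I + 1) × Fin (J + 1), inferInstance, fun w => hatB I J (e.symm w),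
    fun k => ⟨x k.1, y k.1 (rep k.1 k.2)⟩, (hat_bary h.I_pos h.J_pos).comp e.symm, ?_,
    fun k => (hrep _ (le1 k) _ (le2 k)).2.1, ?_⟩
  · refine Spread.comp (bd := {w : Rect I J | w.1.1 = 0 ∨ w.1.1 = (I : ℝ) ∨ w.1.2 = 0 ∨
      w.1.2 = (J : ℝ)}) ?_ e.symm ?_
    · intro l m A hA H
      obtain ⟨k, ⟨k₀, hk₀, rfl⟩, hk⟩ := h.spread hN (rep := rep) (u := fun p => l (g p))
        (U := fun z => l (G z)) (m := m)
        (A := (fun k : Fin (I + 1) × Fin (J + 1) => ((k.1 : ℕ), (k.2 : ℕ))) '' A)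
        (fun i hi j hj => ⟨(hrep i hi j hj).1, (hrep i hi j hj).2.1, (hrep i hi j hj).2.2.2⟩)
        ⟨fun p => congrArg l (hG.1 p), fun p p' hp t ht =>
          (congrArg l (hG.2 p p' hp t ht)).trans (by simp [AffineMap.lineMap_apply])⟩
        (fun p hp => by
          have := gen_map r g (l : E →ₗ[ℝ] ℝ) p
          rw [hg p hp, map_zero] at this
          exact this)
        (hA.image _) (by
          rintro _ ⟨k, hk, rfl⟩
          exact ⟨le1 k, le2 k, (H k hk).1⟩) (by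
          rintro _ ⟨k, hk, rfl⟩ ⟨i, j⟩ hi hj hn
          have adj : Adj (hatB I J) k (⟨i, Nat.lt_succ_iff.2 hi⟩, ⟨j, Nat.lt_succ_iff.2 hj⟩) := by
            rcases hn with ⟨h1 | h1, h2⟩ | ⟨h1, h2 | h2⟩
            · exact (hat_adj (Or.inl ⟨h1, Fin.ext h2⟩)).1
            · exact (hat_adj (Or.inl ⟨h1, Fin.ext h2.symm⟩)).2
            · exact (hat_adj (Or.inr ⟨Fin.ext h1, h2⟩)).1
            · exact (hat_adj (Or.inr ⟨Fin.ext h1.symm, h2⟩)).2
          exact ⟨((H k hk).2 _ adj).1, fun hm => ⟨_, ((H k hk).2 _ adj).2 hm, rfl⟩⟩)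
      refine ⟨k₀, hk₀, gridPt k₀, ?_, hat_grid k₀⟩
      simp only [gridPt, mem_ofPred_eq, Nat.cast_eq_zero, Nat.cast_inj]
      exact hk
    · intro w hw
      show ((e w : Λ.P) : ℂ) ∈ frontier Λ.P
      rw [he, ← hρ2]
      exact mem_image_of_mem _ (hfr w w.2 hw)
  · intro w k hk
    obtain ⟨w, rfl⟩ := e.surjective w
    simp only [e.symm_apply_apply] at hk
    have h1 := hnear w w.2 _ (le1 k) _ (le2 k) (hat_supp hk).1 (hat_supp hk).2
    have h2 := (hρ3 (Ψ w)).trans (mul_le_mul_of_nonneg_left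
      (Λ.norm_le (by linarith only [hs, hs']) (hb.mapsTo w.2)) (by linarith))
    have h3 : ‖(⟨x k.1, y k.1 (rep k.1 k.2)⟩ : ℂ) - ⟨x k.1, y k.1 k.2⟩‖ ≤ 2 * s := by
      refine (Complex.norm_le_abs_re_add_abs_im _).trans ?_
      simpa only [Complex.sub_re, sub_self, abs_zero, Complex.sub_im, zero_add] using (hrep _ (le1 k) _ (le2 k)).2.2.1
    simp only [he]
    have h4 := norm_sub_le_norm_sub_add_norm_sub (⟨x k.1, y k.1 (rep k.1 k.2)⟩ : ℂ)
      ⟨x k.1, y k.1 k.2⟩ (ρ (Ψ w))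
    have h5 := norm_sub_le_norm_sub_add_norm_sub (⟨x k.1, y k.1 k.2⟩ : ℂ) (Ψ w) (ρ (Ψ w))
    rw [norm_sub_rev] at h1 h2
    linarith only [h1, h2, h3, h4, h5]

end Pool.Agent.MP_17e62b_gt.H14

/-! Saddle discs are limits of saddle polyhedra. -/

namespace Pool.Agent.MP_17e62b_gt.H14

open Set Filter Topology Metric
open scoped BigOperators ENNReal

/-- F1. The cables to the corners cross every vertical densely. Hint: take the corner on the side
of `p`; `|a.im| ≤ 2 (1 - |a.re|)` (`Lens.le_two`). -/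
theorem Lens.corner_dense (Λ : Lens) {a p : ℂ} (ha : a ∈ Λ.P) (hp : p ∈ Λ.P) :
    ∃ p' ∈ segment ℝ a 1 ∪ segment ℝ a (-1), p'.re = p.re ∧ ‖p' - p‖ ≤ 4 * ‖a - p‖ := by
  have ha1 : |a.re| ≤ 1 := ha.1
  have hp1 : |p.re| ≤ 1 := hp.1
  have him : |a.im| ≤ 2 * (1 - |a.re|) := by
    have h1 := ha.2
    have h2 := Λ.le_two ha1
    simp only [add_zero] at h1
    linarith
  have hre : |p.re - a.re| ≤ ‖a - p‖ := by
    have h1 := Complex.abs_re_le_norm (a - p)
    rw [Complex.sub_re, abs_sub_comm] at h1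
    exact h1
  have key : ∀ e : ℝ, |e| = 1 → e * a.re < e * p.re →
      ∃ p' ∈ segment ℝ a (e : ℂ), p'.re = p.re ∧ ‖p' - p‖ ≤ 4 * ‖a - p‖ := by
    intro e he hlt
    have hee : e * e = 1 := by
      have h1 := abs_mul_abs_self e
      rw [he] at h1
      linarith only [h1]
    have hep : e * p.re ≤ 1 := by
      have h1 := le_abs_self (e * p.re)
      rw [abs_mul, he] at h1
      linarith
    have hea : e * a.re ≤ |a.re| := by
      have h1 := le_abs_self (e * a.re)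
      rw [abs_mul, he] at h1
      linarith
    have hd : 0 < 1 - e * a.re := by linarith
    obtain ⟨t, ht⟩ : ∃ t : ℝ, t = (e * p.re - e * a.re) / (1 - e * a.re) := ⟨_, rfl⟩
    have ht0 : 0 ≤ t := by
      rw [ht]
      exact div_nonneg (by linarith only [hlt]) hd.le
    have ht1 : t ≤ 1 := by
      rw [ht, div_le_one hd]
      linarith only [hep]
    have htm : t * (1 - e * a.re) = e * p.re - e * a.re := by
      rw [ht]
      field_simp
    have hdiff : e * p.re - e * a.re ≤ ‖a - p‖ := by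
      have h1 := le_abs_self (e * (p.re - a.re))
      rw [abs_mul, he] at h1
      linarith only [hre, h1]
    refine ⟨(1 - t) • a + t • (e : ℂ), ⟨1 - t, t, by linarith only [ht1], ht0, by ring, rfl⟩, ?_, ?_⟩
    · simp only [Complex.add_re, Complex.smul_re, Complex.ofReal_re, smul_eq_mul]
      have h1 : t * e - t * a.re = p.re - a.re := by
        have h2 : e * (t * (1 - e * a.re)) = e * (e * p.re - e * a.re) := by rw [htm]
        have h3 : e * (t * (1 - e * a.re)) = t * e - t * (e * e) * a.re := by ring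
        have h4 : e * (e * p.re - e * a.re) = (e * e) * (p.re - a.re) := by ring
        rw [h3, h4, hee] at h2
        linarith only [h2]
      linarith only [h1]
    · have h1 : (1 - t) • a + t • (e : ℂ) - p = t • ((e : ℂ) - a) + (a - p) := by
        simp only [Complex.real_smul]
        push_cast
        ring
      have h2 : ‖(e : ℂ) - a‖ ≤ 3 * (1 - e * a.re) := by
        have h3 := Complex.norm_le_abs_re_add_abs_im ((e : ℂ) - a)
        have h4 : |((e : ℂ) - a).re| = 1 - e * a.re := by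
          have h5 : ((e : ℂ) - a).re = e * (1 - e * a.re) := by
            simp only [Complex.sub_re, Complex.ofReal_re]
            have h6 : e * (1 - e * a.re) = e - (e * e) * a.re := by ring
            rw [h6, hee, one_mul]
          rw [h5, abs_mul, he, one_mul, abs_of_pos hd]
        have h7 : |((e : ℂ) - a).im| = |a.im| := by
          simp only [Complex.sub_im, Complex.ofReal_im, zero_sub, abs_neg]
        rw [h4, h7] at h3
        linarith only [him, hea, h3]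
      rw [h1]
      have h8 : ‖t • ((e : ℂ) - a)‖ ≤ 3 * ‖a - p‖ := by
        rw [norm_smul, Real.norm_eq_abs, abs_of_nonneg ht0]
        have h9 := mul_le_mul_of_nonneg_left h2 ht0
        linarith only [htm, hdiff, h9]
      have h10 := norm_add_le (t • ((e : ℂ) - a)) (a - p)
      linarith only [h8, h10]
  rcases lt_trichotomy a.re p.re with h | h | h
  · obtain ⟨p', h1, h2⟩ := key 1 abs_one (by linarith)
    exact ⟨p', Or.inl (by simpa using h1), h2⟩
  · exact ⟨a, Or.inl (left_mem_segment ℝ a 1), h, by linarith [norm_nonneg (a - p)]⟩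
  · obtain ⟨p', h1, h2⟩ := key (-1) (by simp) (by linarith)
    exact ⟨p', Or.inr (by simpa using h1), h2⟩

theorem stageB_mono {E V : Type} [NormedAddCommGroup E] [NormedSpace ℝ E] [Fintype V] {Λ : Lens}
    {φ : ℂ → E} {L β β' η : ℝ} {B : Set V} {R : V → V → ℝ} {T : V → ℂ} {F : V → E}
    (h : Chain Λ φ L β η B R T F) (hβ : β ≤ β') : Chain Λ φ L β' η B R T F := by
  obtain ⟨k, h0, h1, h2⟩ := h.pot
  exact ⟨h.nonneg, h.stop, h.mem, h.bd, h.all, h.inj, h.harmT,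
    ⟨k, h0, fun a => (h1 a).trans hβ, h2⟩, h.lip, h.vert, h.gen3, h.corner⟩

theorem stageB_avg {E ι : Type} [NormedAddCommGroup E] [NormedSpace ℝ E] [Fintype ι]
    {w : ι → ℝ} (h0 : ∀ i, 0 ≤ w i) (h1 : ∑ i, w i = 1) {v : ι → E} {y : E} {c : ℝ}
    (h : ∀ i, w i ≠ 0 → ‖v i - y‖ ≤ c) : ‖∑ i, w i • v i - y‖ ≤ c := by
  have e1 : ∑ i, w i • v i - y = ∑ i, w i • (v i - y) := by
    simp only [smul_sub, Finset.sum_sub_distrib, ← Finset.sum_smul, h1, one_smul]
  rw [e1]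
  refine (norm_sum_le _ _).trans ?_
  have e2 : ∑ i, w i * c = c := by rw [← Finset.sum_mul, h1, one_mul]
  rw [← e2]
  refine Finset.sum_le_sum fun i _ => ?_
  rw [norm_smul, Real.norm_eq_abs, abs_of_nonneg (h0 i)]
  by_cases hi : w i = 0
  · simp [hi]
  · exact mul_le_mul_of_nonneg_left (h i hi) (h0 i)

/-- F2. Hint: `L = L₀ / c₀ + 1`. Choose `s`; `Y` a finite `s`-net of the polygon, `K = card Y`;
`β ≤ s` from `build` (a chain for a smaller `β` is a chain for a larger one); `δ₁` from `coarse`;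
`δ = min s (δ₁ / (2 (L + 1) + 1))`, so that `rado` gives the Lipschitz hypothesis of `coarse`.
`Z₀` holds one node within `2 s` of each point of `Y`. `corner_dense` gives the hypothesis of
`grid` with `8 s`; `PNet.lip`. -/
theorem stageB {E : Type} [NormedAddCommGroup E] [NormedSpace ℝ E] (Λ : Lens) (φ : ℂ → E)
    {L₀ : ℝ} (hL₀ : 0 ≤ L₀) (hφ : ∀ a ∈ Λ.Vt, ∀ b ∈ Λ.Vt, ‖φ a - φ b‖ ≤ L₀ * ‖a - b‖) {ε : ℝ}
    (hε : 0 < ε) :
    ∃ δ > 0, ∀ (T : ℂ → ℂ) (F : ℂ → E), ContinuousOn T Λ.P → ContinuousOn F Λ.P →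
      MapsTo T Λ.P Λ.P → (∀ b ∈ Λ.Vt, T b = b ∧ F b = φ b) →
      HP Λ.P Λ.Vt (fun x => (T x, F x)) δ → (∀ p ∈ Λ.P, ∃ x ∈ Λ.P, ‖T x - p‖ ≤ δ) →
      ∃ (ι : Type) (_ : Fintype ι) (lam : Λ.P → ι → ℝ) (val : ι → E), IsBary lam ∧
        Spread lam val {w | (w : ℂ) ∈ frontier Λ.P} ∧ ∀ w : Λ.P, ∀ x ∈ Λ.P,
          ‖∑ i, lam w i • val i - F x‖ ≤ ε + (L₀ / Λ.c₀ + 1) * ‖(w : ℂ) - T x‖ := by
  classical
  obtain ⟨L, hLd⟩ : ∃ L : ℝ, L = L₀ / Λ.c₀ + 1 := ⟨_, rfl⟩
  have hL1 : 1 ≤ L := by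
    have h1 : 0 ≤ L₀ / Λ.c₀ := div_nonneg hL₀ Λ.c_pos.le
    linarith
  have hL0 : 0 ≤ L := by linarith only [hL1]
  obtain ⟨s, hs0, hs1, hs2⟩ : ∃ s : ℝ, 0 < s ∧ s ≤ 1 / 32 ∧ 107 * L * s ≤ ε := by
    refine ⟨min (1 / 32) (ε / (107 * L)), lt_min (by norm_num) (by positivity), min_le_left _ _, ?_⟩
    have h1 : min (1 / 32) (ε / (107 * L)) ≤ ε / (107 * L) := min_le_right _ _
    rw [le_div_iff₀ (by positivity)] at h1
    linarith only [h1]
  obtain ⟨Y, hYP, hYf, hYc⟩ := finite_cover_balls_of_compact (Λ.compact_reg 0) hs0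
  obtain ⟨β₀, hβ₀, hbuild⟩ := build Λ φ hL₀ hφ hYf.toFinset.card hs0
  have hβ : 0 < min β₀ s := lt_min hβ₀ hs0
  obtain ⟨δ₁, hδ₁, hcoarse⟩ := coarse Λ φ hL0 hβ
  obtain ⟨δ, hδ0, hδs, hδ1, hδ2⟩ : ∃ δ : ℝ, 0 < δ ∧ δ ≤ s ∧ δ ≤ δ₁ ∧ 2 * δ * (L + 1) ≤ δ₁ := by
    have h1 : min s (δ₁ / (2 * (L + 1))) ≤ δ₁ / (2 * (L + 1)) := min_le_right _ _
    have h2 : 0 < min s (δ₁ / (2 * (L + 1))) := lt_min hs0 (by positivity)
    rw [le_div_iff₀ (by positivity)] at h1
    refine ⟨min s (δ₁ / (2 * (L + 1))), h2, min_le_left _ _, ?_, by linarith only [h1]⟩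
    nlinarith only [hL1, h1, h2]
  refine ⟨δ, hδ0, fun T F hT hF hTP hb hp hsurj => ?_⟩
  have hrado : ∀ x ∈ Λ.P, ∀ y ∈ Λ.P, ‖F x - F y‖ ≤ L * ‖T x - T y‖ + 2 * δ * (L + 1) := by
    intro x hx y hy
    have h1 := rado (D := Λ.P) (X := Λ.P) (Vt := (Λ.Vt : Set ℂ)) (M := 2) Λ.c_pos hL₀
      Subset.rfl Λ.expo (fun b hb' => (hb b hb').1)
      (fun z hz => Λ.norm_le (s := 0) (by norm_num) (hTP hz))
      (fun a ha b hb' => by
        rw [(hb a ha).2, (hb b hb').2]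
        exact hφ a ha b hb') hp hx hy
    have h2 : L₀ / Λ.c₀ + 2 = L + 1 := by
      rw [hLd]
      ring
    rw [h2, ← hLd] at h1
    exact h1
  obtain ⟨V, iV, B, R, T', F', η, hη0, -, hch, hnear⟩ := hcoarse T F hT hF hTP hb (hp.mono hδ1)
    fun x hx y hy => (hrado x hx y hy).trans (by linarith only [hδ2])
  have hnode : ∀ y ∈ Λ.P, ∃ x ∈ Λ.P, ∃ a, a ∉ B ∧ ‖T x - y‖ ≤ s ∧ ‖T' a - T x‖ ≤ s ∧
      ‖F' a - F x‖ ≤ s := by
    intro y hy
    obtain ⟨x, hx, h1⟩ := hsurj y hy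
    obtain ⟨a, ha, h2, h3⟩ := hnear x hx
    exact ⟨x, hx, a, ha, h1.trans hδs, h2.trans (min_le_right _ _), h3.trans (min_le_right _ _)⟩
  choose xs hxs nd hnd using hnode
  obtain ⟨Z₀, hZ1, hZ2, hZ3⟩ : ∃ Z₀ : Finset V, (∀ z ∈ Z₀, z ∉ B) ∧
      Z₀.card ≤ hYf.toFinset.card ∧ ∀ (y : ℂ) (hy : y ∈ Y), nd y (hYP hy) ∈ Z₀ := by
    refine ⟨hYf.toFinset.attach.image fun y : hYf.toFinset =>
      nd y.1 (hYP (hYf.mem_toFinset.1 y.2)), fun z hz => ?_, ?_, fun y hy => ?_⟩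
    · obtain ⟨y, -, rfl⟩ := Finset.mem_image.1 hz
      exact (hnd _ _).1
    · exact Finset.card_image_le.trans (by rw [Finset.card_attach])
    · exact Finset.mem_image.2 ⟨⟨y, hYf.mem_toFinset.2 hy⟩, Finset.mem_attach _ _, rfl⟩
  obtain ⟨Nd, r, g, hN, hg, hgb, hseg, hZ⟩ := hbuild V B R T' F' L η hL0 hη0
    (stageB_mono hch (min_le_left _ _)) Z₀ hZ1 hZ2
  obtain ⟨G, hG⟩ := hN.exists_ext g
  have hd : ∀ p ∈ Λ.P, ∃ p' ∈ Eg r, p'.re = p.re ∧ ‖p' - p‖ ≤ 8 * s := by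
    intro p hp'
    obtain ⟨ha, h1, h2, -⟩ := hnd p hp'
    obtain ⟨p', h3, h4, h5⟩ := Λ.corner_dense (hch.mem (nd p hp')) hp'
    have h6 : ‖T' (nd p hp') - p‖ ≤ 2 * s := by
      have h7 := norm_sub_le_norm_sub_add_norm_sub (T' (nd p hp')) (T (xs p hp')) p
      linarith only [h1, h2, h7]
    refine ⟨p', ?_, h4, by linarith only [h5, h6]⟩
    rcases h3 with h3 | h3
    · obtain ⟨b, -, hb1⟩ := hch.all 1 Λ.one_mem
      refine hseg _ b (hch.corner _ ha b (Or.inl hb1)) ?_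
      rw [hb1]
      exact h3
    · obtain ⟨b, -, hb1⟩ := hch.all (-1) Λ.neg_mem
      refine hseg _ b (hch.corner _ ha b (Or.inr hb1)) ?_
      rw [hb1]
      exact h3
  obtain ⟨ι, iι, lam, pt, hlam, hspr, hpt, hw⟩ := grid hN hG hg (s := 8 * s) (by linarith only [hs0])
    (by linarith only [hs1]) hd
  refine ⟨ι, iι, lam, fun i => G (pt i), hlam, hspr, fun w x hx => ?_⟩
  refine stageB_avg (hlam.nonneg w) (hlam.sum w) fun i hi => ?_
  obtain ⟨y, hy, hxy⟩ := mem_iUnion₂.1 (hYc (hTP hx))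
  have hyP : y ∈ Λ.P := hYP hy
  obtain ⟨p, hp1, hp2⟩ := hZ (nd y hyP) (hZ3 y hy)
  obtain ⟨-, h1, h2, h3⟩ := hnd y hyP
  have h4 : ‖T x - y‖ ≤ s := by
    rw [mem_ball, dist_eq_norm] at hxy
    exact hxy.le
  have h5 : ‖T (xs y hyP) - T x‖ ≤ 2 * s := by
    have h6 := norm_sub_le_norm_sub_add_norm_sub (T (xs y hyP)) y (T x)
    rw [norm_sub_rev y] at h6
    linarith only [h1, h4, h6]
  have h6 : ‖pt i - p‖ ≤ 99 * s + ‖(w : ℂ) - T x‖ := by
    have h7 := hw w i hi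
    have h8 := norm_sub_le_norm_sub_add_norm_sub (pt i) w p
    have h9 := norm_sub_le_norm_sub_add_norm_sub (w : ℂ) (T x) p
    have h10 := norm_sub_le_norm_sub_add_norm_sub (T x) (T (xs y hyP)) p
    rw [norm_sub_rev (T x) (T _)] at h10
    rw [← hp1, norm_sub_rev] at h2
    linarith only [h2, h5, h7, h8, h9, h10]
  have h7 : ‖G (pt i) - G p‖ ≤ L * ‖pt i - p‖ := by
    rw [hLd]
    refine hN.lip hG hg hL₀ (fun a b ha hb' => ?_) (Or.inl (hpt i)) (Or.inr p.2)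
    rw [hgb a ha, hgb b hb']
    exact hφ a ha b hb'
  rw [hG.1 p] at h7
  have h8 := hrado _ (hxs y hyP) x hx
  have h9 := norm_sub_le_norm_sub_add_norm_sub (G (pt i)) (g p) (F x)
  have h10 := norm_sub_le_norm_sub_add_norm_sub (g p) (F' (nd y hyP)) (F x)
  have h11 := norm_sub_le_norm_sub_add_norm_sub (F' (nd y hyP)) (F (xs y hyP)) (F x)
  have h12 := mul_le_mul_of_nonneg_left h6 hL0
  have h13 := mul_le_mul_of_nonneg_left h5 hL0
  have h14 : δ * (L + 1) ≤ s * (L + 1) := mul_le_mul_of_nonneg_right hδs (by linarith only [hL1, hs0, hs1])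
  have h15 : 1 * s ≤ L * s := mul_le_mul_of_nonneg_right hL1 hs0.le
  rw [← hLd]
  linarith only [hs2, hp2, h3, h7, h8, h9, h10, h11, h12, h13, h14, h15]

/-- F3. On the polygon. Hint: `L₀` exists as `Λ.Vt` is finite. Take `δ₁` from `stageB` (`φ = f`),
`η` from `H72.near_homeo` for the accuracy `min δ₁ (ε / L)`, `θ` close to one (`ret_close`, uniform
continuity), `T`, `F` from `aug` with `δ = min (min δ₁ η) ε`. `HP.map`, `HP.to_vertices`;
`HP.norm_le` for `2⁻¹ • (F - f ∘ ret)` (on the frontier `ret y = y` by `ret_frontier` with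
`s = 1`). The homeomorphism `h` maps `Λ.P` onto itself and fixes the frontier; use
`IsBary.comp`, `Spread.comp`. -/
theorem on_lens {E : Type} [NormedAddCommGroup E] [InnerProductSpace ℝ E] [FiniteDimensional ℝ E]
    (Λ : Lens) {f ω : ℂ → E} (hf : Continuous f)
    (hMP : ∀ l : E →L[ℝ] ℝ, MP (interior Λ.P) fun z => l (f z)) (hω : Continuous ω)
    (hv : ∀ v ∈ Λ.Vt, ω v = f v)
    (hs : ∀ y ∈ frontier Λ.P, ∃ v ∈ Λ.Vt, ∃ v' ∈ Λ.Vt, y ∈ segment ℝ v v' ∧
      segment ℝ v v' ⊆ frontier Λ.P ∧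
        ∀ t ∈ Icc (0 : ℝ) 1, ω (AffineMap.lineMap v v' t) = AffineMap.lineMap (f v) (f v') t)
    {ε : ℝ} (hε : 0 < ε) (hb : ∀ y ∈ frontier Λ.P, ‖ω y - f y‖ ≤ ε) :
    ∃ (ι : Type) (_ : Fintype ι) (lam : Λ.P → ι → ℝ) (val : ι → E), IsBary lam ∧
      Spread lam val {w | (w : ℂ) ∈ frontier Λ.P} ∧
        ∀ w : Λ.P, ‖∑ i, lam w i • val i - f w‖ ≤ 6 * ε := by
  have hP : IsCompact Λ.P := Λ.compact_reg 0
  have hPc : Convex ℝ Λ.P := Λ.convex_reg 0
  have h0 : Λ.P ∈ 𝓝 (0 : ℂ) := Λ.nhds_reg le_rfl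
  have hVt : ∀ b ∈ Λ.Vt, b ∈ frontier Λ.P := fun b hb =>
    Λ.mem_frontier.2 ⟨Λ.vt_mem hb, Or.inr (by rw [add_zero]; exact (Λ.vt b hb).2)⟩
  obtain ⟨L₀, l0, hL⟩ : ∃ L₀ : ℝ, 0 ≤ L₀ ∧ ∀ a ∈ Λ.Vt, ∀ b ∈ Λ.Vt,
      ‖f a - f b‖ ≤ L₀ * ‖a - b‖ := by
    refine ⟨∑ p ∈ Λ.Vt ×ˢ Λ.Vt, ‖f p.1 - f p.2‖ / ‖p.1 - p.2‖,
      Finset.sum_nonneg fun _ _ => by positivity, fun a ha b hb => ?_⟩
    rcases eq_or_ne a b with rfl | h
    · simp
    rw [← div_le_iff₀ (norm_pos_iff.2 (sub_ne_zero.2 h))]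
    exact Finset.single_le_sum (f := fun p : ℂ × ℂ => ‖f p.1 - f p.2‖ / ‖p.1 - p.2‖)
      (fun _ _ => by positivity) (Finset.mk_mem_product ha hb)
  obtain ⟨δ₁, d1, hB⟩ := stageB Λ f l0 hL hε
  have L0 : 0 < L₀ / Λ.c₀ + 1 := by have := Λ.c_pos; positivity
  generalize L₀ / Λ.c₀ + 1 = L at hB L0
  obtain ⟨η, η0, hH⟩ := H72.near_homeo hP hPc ⟨0, mem_interior_iff_mem_nhds.2 h0⟩
    (lt_min d1 (div_pos hε L0))
  obtain ⟨ρ, ρ0, hρ⟩ := Metric.uniformContinuousOn_iff.1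
    (hP.uniformContinuousOn_of_continuous hf.continuousOn) ε hε
  have θ0 : 0 < (1 + ρ / 4)⁻¹ := by positivity
  have θ1 : (1 + ρ / 4)⁻¹ < 1 := inv_lt_one_of_one_lt₀ (by linarith)
  have hr : ∀ x ∈ Λ.P, ‖f (ret Λ.P (1 + ρ / 4)⁻¹ x) - f x‖ ≤ ε := fun x hx => by
    rw [← dist_eq_norm]
    refine (hρ _ (ret_mem hP.isClosed hPc h0 θ0 x) _ hx ?_).le
    have h1 := ret_close hPc h0 θ0 θ1.le hx
    have h2 := mul_le_mul_of_nonneg_left (Λ.norm_le (s := 0) (by norm_num) hx) ρ0.le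
    rw [inv_inv] at h1
    rw [dist_eq_norm]
    linarith only [ρ0, h1, h2]
  generalize (1 + ρ / 4)⁻¹ = θ at θ0 θ1 hr
  obtain ⟨T, F, cT, cF, hT, hF, mT, hW⟩ := aug hP hPc h0 hf hMP hω
    (lt_min (lt_min d1 η0) hε) θ0 θ1
  have w1 := hW.map (ContinuousLinearMap.snd ℝ E (ℂ × E)) (ContinuousLinearMap.norm_snd_le _ _ _)
  have w2 := w1.map (ContinuousLinearMap.fst ℝ ℂ E) (ContinuousLinearMap.norm_fst_le _ _ _)
  obtain ⟨h, h1, h2, h3⟩ := hH Λ.P hP hPc ⟨0, mem_interior_iff_mem_nhds.2 h0⟩ T id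
    continuousOn_id (bijOn_id _) (fun b hb => by rw [hT b hb, id, sub_self, norm_zero]; exact η0.le)
    (fun x _ => mem_nhdsWithin_of_mem_nhds (mem_of_superset
      (cT.continuousAt.preimage_mem_nhds (closedBall_mem_nhds _ η0))
        fun y hy => mem_closedBall_iff_norm.1 hy)) fun x hx ν hν => by
      obtain ⟨b, hb, γ, hγ⟩ := (w2.mono ((min_le_left _ _).trans (min_le_right _ _))) x hx
        (innerSL ℝ ν) (by rw [innerSL_apply_norm, hν])
      refine ⟨range γ, ?_, isPreconnected_range γ.continuous, ⟨0, γ.source⟩,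
        ⟨b, ⟨1, γ.target⟩, hb⟩, ?_⟩
      · rintro _ ⟨t, rfl⟩
        exact (hγ t).1
      · rintro _ ⟨t, rfl⟩
        exact (hγ t).2
  obtain ⟨ι, _, lam, val, b1, b2, b3⟩ := hB T F cT.continuousOn cF.continuousOn mT
    (fun b hb => ⟨hT b (hVt b hb), (hF b (hVt b hb)).trans (hv b hb)⟩)
    ((w1.to_vertices fun y hy => by
      obtain ⟨v, v1, v', v2, s1, s2, s3⟩ := hs y hy
      refine ⟨v, v1, v', v2, s1, s2.trans hP.isClosed.frontier_subset, fun t ht => ?_⟩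
      have m := s2 (lineMap_mem_segment ℝ v v' ht)
      refine Prod.ext ?_ ?_
      · rw [AffineMap.fst_lineMap]
        change T _ = AffineMap.lineMap (T v) (T v') t
        rw [hT _ m, hT _ (hVt _ v1), hT _ (hVt _ v2)]
      · rw [AffineMap.snd_lineMap]
        change F _ = AffineMap.lineMap (F v) (F v') t
        rw [hF _ m, hF _ (hVt _ v1), hF _ (hVt _ v2), hv _ v1, hv _ v2, s3 t ht]).mono
      ((min_le_left _ _).trans (min_le_left _ _))) fun p hp => by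
      obtain ⟨x, hx, rfl⟩ := h1.symm ▸ hp
      exact ⟨x, hx, norm_sub_rev (h x) _ ▸ (h3 x hx).trans (min_le_left _ _)⟩
  have he : Λ.P = h ⁻¹' Λ.P := by
    conv_rhs => rw [← h1]
    exact (h.injective.preimage_image _).symm
  refine ⟨ι, ‹_›, fun w => lam (h.sets he w), val, b1.comp _, b2.comp _ fun x hx => ?_,
    fun w => ?_⟩
  · change h.symm x ∈ frontier Λ.P
    rwa [show h.symm x = x from h.symm_apply_eq.2 (h2 hx).symm]
  · have e1 : ‖∑ i, lam (h.sets he w) i • val i - F w‖ ≤ ε + L * ‖h w - T w‖ := b3 _ _ w.2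
    have e2 := mul_le_mul_of_nonneg_left ((h3 _ w.2).trans (min_le_right _ _)) L0.le
    rw [mul_div_cancel₀ _ L0.ne'] at e2
    have e3 : ‖(2⁻¹ : ℝ) • (F w - f (ret Λ.P θ w))‖ ≤ 2⁻¹ * ε + min (min δ₁ η) ε :=
      (hW.map ((2⁻¹ : ℝ) • ((ContinuousLinearMap.snd ℝ ℂ E).comp
        (ContinuousLinearMap.snd ℝ E (ℂ × E)) - ContinuousLinearMap.fst ℝ E (ℂ × E)))
        (ContinuousLinearMap.opNorm_le_bound _ zero_le_one fun p => by
          change ‖(2⁻¹ : ℝ) • (p.2.2 - p.1)‖ ≤ _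
          rw [norm_smul, Real.norm_of_nonneg (by norm_num)]
          linarith only [norm_sub_le p.2.2 p.1, norm_fst_le p, norm_snd_le p, norm_snd_le p.2])).norm_le
        (fun y hy => by
          have := ret_frontier hPc h0 θ0 hy θ1.le
          rw [one_smul] at this
          change ‖(2⁻¹ : ℝ) • (F y - f (ret Λ.P θ y))‖ ≤ _
          rw [this, hF y hy, norm_smul, Real.norm_of_nonneg (by norm_num)]
          linarith [hb y hy]) w.2
    rw [norm_smul, Real.norm_of_nonneg (by norm_num)] at e3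
    have e4 := norm_sub_le_norm_sub_add_norm_sub (∑ i, lam (h.sets he w) i • val i) (F w) (f w)
    have e5 := norm_sub_le_norm_sub_add_norm_sub (F w) (f (ret Λ.P θ w)) (f w)
    linarith [hr _ w.2, min_le_right (min δ₁ η) ε]

/-- F4. On the disc. Hint: uniform continuity of `f` on the disc gives `σ`; `exists_lens_sides`,
`rescale_disc` (for `y`, `v` on the frontier, `‖y‖ ≥ 1 / 4`, the radial projections are within
`8 ‖y - v‖`), `MP.comp`, `on_lens` for `f ∘ j`. -/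
theorem on_disc {E : Type} [NormedAddCommGroup E] [InnerProductSpace ℝ E] [FiniteDimensional ℝ E]
    {f : ℂ → E} (hf : Continuous f) (hMP : ∀ l : E →L[ℝ] ℝ, MP (ball 0 1) fun z => l (f z))
    {ε : ℝ} (hε : 0 < ε) :
    ∃ (ι : Type) (_ : Fintype ι) (lam : Disc → ι → ℝ) (val : ι → E), IsBary lam ∧
      Spread lam val {w | ‖(w : ℂ)‖ = 1} ∧ ∀ w : Disc, ‖∑ i, lam w i • val i - f w‖ ≤ ε := by
  have hK : IsCompact (closedBall (0 : ℂ) 2 \ ball 0 (1 / 4)) :=
    (isCompact_closedBall _ _).diff isOpen_ball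
  have hg : ContinuousOn (fun z : ℂ => f (‖z‖⁻¹ • z)) (closedBall 0 2 \ ball 0 (1 / 4)) :=
    hf.comp_continuousOn ((continuous_norm.continuousOn.inv₀ fun z hz h =>
      hz.2 (by rw [mem_ball_zero_iff, h]; norm_num)).smul continuousOn_id)
  obtain ⟨ρ, ρ0, hρ⟩ := Metric.uniformContinuousOn_iff.1
    (hK.uniformContinuousOn_of_continuous hg) (ε / 6) (by positivity)
  obtain ⟨Λ, hΛ⟩ := exists_lens_sides (E := E) (half_pos ρ0)
  have hP : IsCompact Λ.P := Λ.compact_reg 0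
  obtain ⟨j, j1, j2, j3⟩ := rescale_disc hP (Λ.convex_reg 0) (Λ.nhds_reg le_rfl)
  obtain ⟨ω, w1, w2, w3⟩ := hΛ fun z => f (j z)
  have hF : frontier Λ.P ⊆ closedBall 0 2 \ ball 0 (1 / 4) := fun y hy =>
    ⟨mem_closedBall_zero_iff.2 (Λ.norm_le (s := 0) (by norm_num) (hP.isClosed.frontier_subset hy)),
      fun h => hy.2 (interior_maximal (ball_subset_closedBall.trans (Λ.ball_sub le_rfl))
        isOpen_ball h)⟩
  obtain ⟨ι, _, lam, val, b1, b2, b3⟩ := on_lens Λ (f := fun z => f (j z)) (hf.comp j.continuous)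
    (fun l => ((hMP l).comp (j.toOpenPartialHomeomorph.restrOpen _ isOpen_interior)
      fun z hz => j2 ▸ ⟨j.symm z, hz.2, j.apply_symm_apply z⟩).mono fun z hz => ⟨mem_univ _, hz⟩)
    w1 w2 (fun y hy => by
      obtain ⟨v, v1, v', v2, -, h⟩ := w3 y hy
      exact ⟨v, v1, v', v2, h⟩) (by positivity : 0 < ε / 6) fun y hy => by
      obtain ⟨v, -, v', -, s0, s1, s2, s3⟩ := w3 y hy
      have key : ∀ u ∈ segment ℝ v v', f (j u) ∈ closedBall (f (j y)) (ε / 6) := fun u hu => by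
        rw [(j3 u (s2 hu)).2, (j3 y hy).2]
        refine (hρ _ (hF (s2 hu)) _ (hF hy) ?_).le
        have a1 := dist_add_dist_of_mem_segment hu
        have a2 := dist_add_dist_of_mem_segment s1
        have a3 := dist_triangle_left u y v
        have a4 := dist_triangle_right u y v'
        rw [dist_eq_norm v v'] at a1 a2
        linarith only [ρ0, s0, a1, a2, a3, a4]
      obtain ⟨t, ht, rfl⟩ := segment_eq_image_lineMap ℝ v v' ▸ s1
      rw [s3 t ht, ← mem_closedBall_iff_norm]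
      exact (convex_closedBall _ _).segment_subset (key v (left_mem_segment _ _ _))
        (key v' (right_mem_segment _ _ _)) (lineMap_mem_segment ℝ _ _ ht)
  have he : Λ.P = j ⁻¹' closedBall 0 1 := by
    rw [← j1]
    exact (j.injective.preimage_image _).symm
  refine ⟨ι, ‹_›, fun w => lam ((j.sets he).symm w), val, b1.comp _, b2.comp _ fun x hx => ?_,
    fun w => ?_⟩
  · change ‖j x‖ = 1
    rw [(j3 _ hx).2, norm_smul, norm_inv, norm_norm, inv_mul_cancel₀ (norm_ne_zero_iff.2 (j3 _ hx).1)]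
  · have e : ‖∑ i, lam ((j.sets he).symm w) i • val i - f (j (j.symm w))‖ ≤ 6 * (ε / 6) := b3 _
    rw [j.apply_symm_apply] at e
    linarith only [he, e]

/-- F5. Hint: `f z = S.f (j.symm (jD z))`, `mp_of_saddle` with
`jD.trans j.symm.toOpenPartialHomeomorph`; `T.M = Disc` with `discCharts` as in `S0`;
`disc_boundary`, `IsBary.no_crust` with `innerSL ℝ ν`, `polyhedral_of_bary`. -/
theorem disc_main {n : ℕ} (S : Surface n) (hS : S.IsSaddle)
    (hD : Nonempty (S.M ≃ₜ closedBall (0 : ℂ) 1)) {ε : ℝ≥0∞} (hε : 0 < ε) :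
    ∃ T : Surface n, T.IsSaddle ∧ T.IsPolyhedral ∧ frechetDist S T < ε := by
  obtain ⟨j⟩ := hD
  obtain ⟨r, r0, r1, r2⟩ := ENNReal.lt_iff_exists_real_btwn.1 hε
  have cj : Continuous jD := Continuous.subtype_mk (continuous_id.div (by fun_prop) fun z => by
    have : (0 : ℝ) < max 1 ‖z‖ := by positivity
    exact_mod_cast this.ne') _
  have ej : ∀ w : Disc, jD w = w := fun w => Subtype.ext (by
    change (w : ℂ) / (max 1 ‖(w : ℂ)‖ : ℝ) = w
    rw [max_eq_left (mem_closedBall_zero_iff.1 w.2), Complex.ofReal_one, div_one])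
  obtain ⟨ι, _, lam, val, b1, b2, b3⟩ := on_disc (f := fun z => S.f (j.symm (jD z)))
    (S.continuous.comp (j.symm.continuous.comp cj))
    (fun l => (mp_of_saddle hS (jD.trans j.symm.toOpenPartialHomeomorph) l).mono
      fun z hz => ⟨hz, mem_univ _⟩) (ENNReal.ofReal_pos.1 r1)
  let T : Surface n :=
    { M := Disc
      top := inferInstance
      charts := discCharts
      t2 := inferInstance
      compact := inferInstance
      connected := S0.connected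
      boundary_nonempty := S0.boundary_nonempty
      f z := ∑ i, lam z i • val i
      continuous := continuous_finsetSum _ fun i _ =>
        ((continuous_apply i).comp b1.cont).smul continuous_const }
  refine ⟨T, ?_, polyhedral_of_bary T b1 val fun _ => rfl, ?_⟩
  · rintro ν c U - ⟨h1, h2, -, h3, h4, h5⟩
    exact b1.no_crust b2 (innerSL ℝ ν) c h1 h2 (h3.mono_right disc_boundary) h4 h5
  · refine ((iInf_le _ j).trans (iSup_le fun x => ?_)).trans_lt r2
    have := b3 (j x)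
    rw [ej, j.symm_apply_apply] at this
    rw [edist_comm, edist_dist, dist_eq_norm]
    exact ENNReal.ofReal_le_ofReal this

end Pool.Agent.MP_17e62b_gt.H14
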