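import Pool.Agent.MP_17e62b_gt.Mg.G_H72Iface
import Pool.Agent.Lib.PlaneTop.Jump
import Pool.Agent.MP_4a6971_al.H83.Conv

attribute [-instance] AddQuantale.instAddLeftMono LieAdmissibleAlgebra.toModule
  LeftPreLieAlgebra.toModule RightPreLieAlgebra.toModule ProperSMul.toContinuousSMul
  Valued.toUniformSpace IdemSemiring.toCanonicallyOrderedAdd
  Group.IsPerfect.subsingleton_of_isMulCommutative NonUnitalNonAssocRing.toAddCommGroup
  NumberField.to_charZero TotallySeparatedSpace.t2Space AddQuantale.instAddRightMono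
  continuousSub_of_discreteTopology LinearOrderedCommMonoidWithZero.toPosMulStrictMono
  NonUnitalNonAssocSemiring.toAddCommMonoid NonarchimedeanRing.toIsTopologicalRing
  IsTopologicalTorsor.toContinuousSMul MulSemiringAction.toDistribMulAction exists_prop_decidable
  NormedRing.toRing NonUnitalNormedRing.toNormedAddCommGroup littleWedderburn
  NonUnitalNormedRing.toNonUnitalSeminormedRing Quantale.instMulRightMono
  NonarchimedeanAddGroup.toIsTopologicalAddGroup NormedCommRing.toCommRing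
  CStarAlgebra.instOrderClosedTopology DenselyNormedField.toNormedField instSMulZeroClass
  Semiring.toAddCommMonoid instZeroLEOneClass FunLike.toDecidableEq
  LinearOrderedCommMonoidWithZero.toIsBotZeroClass LieRing.toAddCommGroup
  Topology.IsScott.instClosedIicTopologyOfUnivSet IsPurelyInseparable.isIntegral
  Valued.isTopologicalDivisionRing TopologicalSpace.IsCompletelyMetrizableSpace.MetrizableSpace
  AddCommGroupWithOne.toAddGroupWithOne MulZeroOneClass.toMulZeroClass instCoeTCOfCoe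
  NonUnitalNormedCommRing.toNonUnitalSeminormedCommRing Algebra.complexToReal
  NormedRing.toSeminormedRing SeminormedCommRing.toCommRing Torsor.toMulAction
  continuousSub_of_indiscreteTopology LieAdmissibleRing.toNonUnitalNonAssocRing
  continuousDiv_of_discreteTopology

section

/-!
Invariance of domain in the plane and on surfaces with boundary.
-/

namespace Pool.Agent.MP_17e62b_gt.T55

open Set Metric Topology
open scoped InnerProductSpace Manifold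

open Pool.Agent.Lib.PlaneTop in
/-- An odd function has no logarithm on a circle about the origin. -/
theorem a1_odd {g : ℂ → ℂ} {r : ℝ} (hr : 0 < r) (ho : ∀ z, g (-z) = -g z) :
    ¬ HasLogOn g (sphere 0 r) := by
  intro h
  obtain ⟨ω, h1, h2⟩ := id h
  have hn : MapsTo (fun z : ℂ => -z) (sphere 0 r) (sphere 0 r) := fun z hz => by simpa using hz
  have hx : (r : ℂ) ∈ sphere (0 : ℂ) r := by simp [hr.le]
  have hc : IsPreconnected (sphere (0 : ℂ) r) :=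
    isPreconnected_sphere (by simp [Complex.rank_real_complex]) _ _
  have := log_sub_const (ω := ω) (ω' := fun z => ω (-z) + Real.pi * Complex.I) hc h1
    ((h1.comp continuous_neg.continuousOn hn).add continuousOn_const)
    (fun z hz => by
      rw [Complex.exp_add, Complex.exp_pi_mul_I, h2 _ (hn hz), h2 z hz, ho]; ring) hx (hn hx)
  simp only [neg_neg] at this
  have h3 : ω (-r) = ω r := by linear_combination (-1 / 2 : ℂ) * this
  have h4 : g (-r) = g r := by rw [← h2 _ (hn hx), ← h2 _ hx, h3]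
  rw [ho] at h4
  exact h.ne_zero hx (by linear_combination (-1 / 2 : ℂ) * h4)

open Pool.Agent.Lib.PlaneTop in
theorem a1_deg {f : ℂ → ℂ} {c : ℂ} {r : ℝ} (hr : 0 < r) (hc : ContinuousOn f (closedBall c r))
    (hi : InjOn f (closedBall c r)) : ¬ HasLogOn (fun z => f (c + z) - f c) (sphere 0 r) := by
  intro h
  have hm : ∀ s : ℝ, |s| ≤ 1 → ∀ z ∈ sphere (0 : ℂ) r, c + s * z ∈ closedBall c r := by
    intro s hs z hz
    have hz' : ‖z‖ = r := by simpa using hz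
    simp only [mem_closedBall, dist_self_add_left, norm_mul, Complex.norm_real, Real.norm_eq_abs,
      hz']
    nlinarith only [hr, hs]
  have m1 : ∀ t ∈ Icc (0 : ℝ) 1, |1 - t / 2| ≤ 1 := fun t ht =>
    abs_le.2 ⟨by linarith only [ht.2], by linarith [ht.1]⟩
  have m2 : ∀ t ∈ Icc (0 : ℝ) 1, |-(t / 2)| ≤ 1 := fun t ht =>
    abs_le.2 ⟨by linarith [ht.2], by linarith [ht.1]⟩
  have := HasLogOn.homotopy (K := sphere (0 : ℂ) r)
    (H := fun t z => f (c + (1 - t / 2 : ℝ) * z) - f (c + (-(t / 2) : ℝ) * z))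
    ((hc.comp (f := fun p : ℝ × ℂ => c + (1 - p.1 / 2 : ℝ) * p.2) (by fun_prop)
      fun p hp => hm _ (m1 _ hp.1) _ hp.2).sub
      (hc.comp (f := fun p : ℝ × ℂ => c + (-(p.1 / 2) : ℝ) * p.2) (by fun_prop)
        fun p hp => hm _ (m2 _ hp.1) _ hp.2))
    (fun t ht z hz h0 => by
      have e := hi (hm _ (m1 t ht) z hz) (hm _ (m2 t ht) z hz) (sub_eq_zero.1 h0)
      have e' : z = 0 := by
        push_cast at e
        linear_combination e
      rw [e'] at hz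
      simp at hz
      exact hr.ne hz)
    (by simpa using h)
  refine a1_odd hr (fun z => ?_) this
  have e1 : (((1 - 1 / 2 : ℝ) : ℝ) : ℂ) * -z = ((-(1 / 2) : ℝ) : ℂ) * z := by
    push_cast; ring
  have e2 : ((-(1 / 2) : ℝ) : ℂ) * -z = (((1 - 1 / 2 : ℝ) : ℝ) : ℂ) * z := by
    push_cast; ring
  rw [e1, e2]; ring

/-- Invariance of domain. Plan: closed disc `D` about `c` inside `O`; suppose `f c` is not interior
to `K = f '' D`. Extend `f⁻¹ - c` from `K` to a continuous `G` on `ℂ` (Tietze). Take a small ball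
`B` about `f c` that misses the image of the circle, and `w ∈ B \ K`; push `K` radially from `w` to
`(K \ B) ∪ sphere`. On the sphere of `B`, with `m > 0` a lower bound of `‖G‖` on `K \ B`,
approximate `G` by a smooth `p` within `m/8`, choose a small `v` outside the image of the circle
under `p` (`ContDiff.dense_compl_range_of_finrank_lt_finrank`), and interpolate between `G` (where
`‖G‖ ≥ m`) and `p - v` (where `‖G‖ ≤ m/2`). The composite has no zero on `D` and equals `z - c` on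
the circle: `hasLogOn_of_convex` against `not_hasLogOn_sphere`. Any other proof is fine. -/
theorem invariance {O : Set ℂ} (hO : IsOpen O) {f : ℂ → ℂ} (hc : ContinuousOn f O)
    (hi : InjOn f O) : IsOpen (f '' O) := by
  rw [Metric.isOpen_iff]
  rintro _ ⟨c, hcO, rfl⟩
  obtain ⟨r, hr, hb⟩ := nhds_basis_closedBall.mem_iff.1 (hO.mem_nhds hcO)
  have hs : sphere c r ⊆ O := sphere_subset_closedBall.trans hb
  have hS : IsClosed (f '' sphere c r) :=
    ((isCompact_sphere c r).image_of_continuousOn (hc.mono hs)).isClosed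
  have hn : f c ∈ (f '' sphere c r)ᶜ := by
    rintro ⟨z, hz, e⟩
    rw [hi (hs hz) hcO e] at hz
    simp at hz
    exact hr.ne hz
  obtain ⟨δ, hδ, hball⟩ := Metric.isOpen_iff.1 hS.isOpen_compl _ hn
  refine ⟨δ, hδ, fun w hw => ?_⟩
  by_contra hwO
  have hm : ∀ z ∈ closedBall (0 : ℂ) r, c + z ∈ closedBall c r := fun z hz => by simpa only [mem_closedBall, dist_self_add_left, dist_zero_right] using hz
  have hcc : ContinuousOn (fun z => f (c + z)) (closedBall 0 r) :=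
    (hc.mono hb).comp (by fun_prop) hm
  have h0 := (Pool.Agent.Lib.PlaneTop.hasLogOn_of_convex (F := fun z => f (c + z) - w)
    (convex_closedBall (0 : ℂ) r) (hcc.sub continuousOn_const)
    fun z hz e => hwO ⟨_, hb (hm z hz), sub_eq_zero.1 e⟩).mono sphere_subset_closedBall
  have := Pool.Agent.Lib.PlaneTop.HasLogOn.homotopy (K := sphere (0 : ℂ) r)
    (H := fun t z => f (c + z) - ((1 - t) • w + t • f c))
    ((hcc.comp continuous_snd.continuousOn fun p hp => sphere_subset_closedBall hp.2).sub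
      (by fun_prop))
    (fun t ht z hz e => hball (convex_ball (f c) δ hw (mem_ball_self hδ) (by linarith [ht.2]) ht.1
      (by ring : 1 - t + t = 1)) ⟨c + z, by simpa using hz, sub_eq_zero.1 e⟩)
    (by simpa using h0)
  exact a1_deg hr (hc.mono hb) (hi.mono hb) (by simpa only [sub_self, zero_smul, one_smul, zero_add] using this)

theorem a1_half {W : Set ℂ} (hW : IsOpen W) (h : ∀ z ∈ W, 0 ≤ z.im) {z : ℂ} (hz : z ∈ W) :
    z.im ≠ 0 := by
  intro h0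
  obtain ⟨ε, hε, hb⟩ := Metric.isOpen_iff.1 hW z hz
  have := h (z - (ε / 2 : ℝ) * Complex.I) (hb (by
    simp only [mem_ball, dist_self_sub_left, norm_mul, Complex.norm_real, Complex.norm_I,
      Real.norm_eq_abs, mul_one]
    rw [abs_of_pos (by linarith)]; linarith only [hε]))
  simp only [Complex.ofReal_div, Complex.ofReal_ofNat, Complex.sub_im, h0, Complex.mul_im, Complex.div_ofNat_re, Complex.ofReal_re, Complex.I_im, mul_one, Complex.div_ofNat_im, Complex.ofReal_im, zero_div, Complex.I_re, mul_zero, add_zero, zero_sub, Left.nonneg_neg_iff] at this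
  linarith only [hε, this]

theorem a1_loc {M : Type} [TopologicalSpace M] {B : Set M} (c : Chart M B) {O : Set ℂ}
    (hO : IsOpen O) {Ψ : ℂ → M} (hc : ContinuousOn Ψ O) (hi : InjOn Ψ O) :
    IsOpen (Ψ '' (O ∩ Ψ ⁻¹' c.U)) ∧ ∀ z ∈ O, Ψ z ∈ c.U → (c.φ (Ψ z)).im ≠ 0 := by
  have hW : IsOpen ((fun z => c.φ (Ψ z)) '' (O ∩ Ψ ⁻¹' c.U)) :=
    invariance (hc.isOpen_inter_preimage hO c.openU)
      (c.contφ.comp (hc.mono inter_subset_left) fun z hz => hz.2)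
      fun z hz z' hz' e => hi hz.1 hz'.1 (by
        rw [← c.left _ hz.2, ← c.left _ hz'.2]; exact congrArg c.ψ e)
  refine ⟨?_, fun z hz hU => a1_half hW ?_ ⟨z, ⟨hz, hU⟩, rfl⟩⟩
  · convert c.contφ.isOpen_inter_preimage c.openU hW using 1
    ext x
    constructor
    · rintro ⟨z, hz, rfl⟩
      exact ⟨hz.2, z, hz, rfl⟩
    · rintro ⟨hx, z, hz, e⟩
      exact ⟨z, hz, by rw [← c.left _ hz.2, ← c.left _ hx]; exact congrArg c.ψ e⟩
  · rintro _ ⟨y, hy, rfl⟩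
    exact (c.mapφ hy.2).2

theorem a1_int {M : Type} [TopologicalSpace M] {B : Set M} (c : Chart M B) :
    IsOpen (c.O ∩ {z | 0 < z.im}) ∧ ContinuousOn c.ψ (c.O ∩ {z | 0 < z.im}) ∧
      InjOn c.ψ (c.O ∩ {z | 0 < z.im}) := by
  have hs : c.O ∩ {z | 0 < z.im} ⊆ c.O ∩ {z | 0 ≤ z.im} := fun z hz =>
    ⟨hz.1, (le_of_lt hz.2 : (0 : ℝ) ≤ z.im)⟩
  exact ⟨c.openO.inter (isOpen_lt continuous_const Complex.continuous_im), c.contψ.mono hs,
    fun z hz z' hz' e => by rw [← c.right _ (hs hz), e, c.right _ (hs hz')]⟩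

theorem a1_cmp {M : Type} [TopologicalSpace M] {B B' : Set M} (c : Chart M B) (c' : Chart M B')
    {x : M} (hx : x ∈ c.U) (hx' : x ∈ c'.U) (h : (c'.φ x).im = 0) : (c.φ x).im = 0 := by
  by_contra h0
  obtain ⟨h1, h2, h3⟩ := a1_int c
  have := (a1_loc c' h1 h2 h3).2 (c.φ x) ⟨(c.mapφ hx).1, lt_of_le_of_ne (c.mapφ hx).2 (Ne.symm h0)⟩
  rw [c.left x hx] at this
  exact this hx' h

/-- The projection of the plane onto the model half plane. -/
noncomputable def a1_up (z : ℂ) : EuclideanHalfSpace 2 :=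
  ⟨!₂[max z.im 0, z.re], by simp only [Fin.isValue, Matrix.cons_val_zero, le_sup_right]⟩

theorem a1_up_cont : Continuous a1_up := by
  refine Continuous.subtype_mk ?_ _
  fun_prop

/-- The chart of a surface at a point, with its own boundary. -/
noncomputable def a1_chart {M : Type} [TopologicalSpace M]
    (e : OpenPartialHomeomorph M (EuclideanHalfSpace 2)) : Chart M {y | (e y).val 0 = 0} where
  U := e.source
  O := a1_up ⁻¹' e.target
  φ y := ⟨(e y).val 1, (e y).val 0⟩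
  ψ z := e.symm (a1_up z)
  openU := e.open_source
  openO := e.open_target.preimage a1_up_cont
  contφ := by
    have hv : Continuous (Subtype.val : EuclideanHalfSpace 2 → EuclideanSpace ℝ (Fin 2)) :=
      continuous_subtype_val
    have h : Continuous fun v : EuclideanSpace ℝ (Fin 2) => (⟨v 1, v 0⟩ : ℂ) := by
      have : (fun v : EuclideanSpace ℝ (Fin 2) => (⟨v 1, v 0⟩ : ℂ)) =
          fun v => (v 1 : ℂ) + (v 0 : ℂ) * Complex.I := by
        funext v; apply Complex.ext <;> simp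
      rw [this]; fun_prop
    exact (h.comp hv).comp_continuousOn e.continuousOn
  contψ := e.continuousOn_symm.comp a1_up_cont.continuousOn fun z hz => hz.1
  mapφ y hy := by
    have : a1_up ⟨(e y).val 1, (e y).val 0⟩ = e y := by
      apply Subtype.ext
      ext i
      fin_cases i <;> simp only [Fin.isValue, a1_up, (e y).2, sup_of_le_left, Fin.zero_eta, Matrix.cons_val_zero, Fin.mk_one, Matrix.cons_val_one, Matrix.cons_val_fin_one]
    exact ⟨by rw [mem_preimage, this]; exact e.map_source hy, (e y).2⟩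
  mapψ z hz := e.map_target hz.1
  left y hy := by
    have : a1_up ⟨(e y).val 1, (e y).val 0⟩ = e y := by
      apply Subtype.ext
      ext i
      fin_cases i <;> simp [a1_up, (e y).2]
    rw [this, e.left_inv hy]
  right z hz := by
    have h : 0 ≤ z.im := hz.2
    rw [e.right_inv hz.1]
    apply Complex.ext <;> simp [a1_up, h]
  bd y _ := Iff.rfl

/-- Plan: `chartAt`, composed with the identification of `EuclideanSpace ℝ (Fin 2)` with `ℂ` that
sends coordinate `0` to the imaginary part. The field `bd` compares two charts: use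
`Pool.Agent.Lib.PlaneTop.not_boundary` in both directions (or `invariance`). -/
theorem atl {n : ℕ} (S : Surface n) : Atl S.M ((𝓡∂ 2).boundary S.M) := by
  intro x
  have hb : ∀ y : S.M, y ∈ (𝓡∂ 2).boundary S.M ↔
      (chartAt (EuclideanHalfSpace 2) y y).val 0 = 0 := fun y => by
    change extChartAt (𝓡∂ 2) y y ∈ frontier (range (𝓡∂ 2)) ↔ _
    rw [frontier_range_modelWithCornersEuclideanHalfSpace]
    exact eq_comm
  let c := fun y : S.M => a1_chart (chartAt (EuclideanHalfSpace 2) y)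
  have hc : ∀ y, y ∈ (c y).U := fun y => mem_chart_source _ y
  have hd : ∀ y ∈ (c x).U, y ∈ (𝓡∂ 2).boundary S.M ↔ ((c x).φ y).im = 0 := fun y hy =>
    (hb y).trans ⟨a1_cmp (c x) (c y) hy (hc y), a1_cmp (c y) (c x) (hc y) hy⟩
  exact ⟨{ c x with bd := hd }, hc x⟩

variable {M : Type} [TopologicalSpace M] {B : Set M}

theorem Atl.open_emb (hA : Atl M B) {O : Set ℂ} (hO : IsOpen O) {Ψ : ℂ → M}
    (hc : ContinuousOn Ψ O) (hi : InjOn Ψ O) : IsOpen (Ψ '' O) ∧ Disjoint (Ψ '' O) B := by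
  refine ⟨isOpen_iff_forall_mem_open.2 ?_, disjoint_left.2 ?_⟩
  · rintro _ ⟨z, hz, rfl⟩
    obtain ⟨c, h⟩ := hA (Ψ z)
    exact ⟨_, image_mono inter_subset_left, (a1_loc c hO hc hi).1, z, ⟨hz, h⟩, rfl⟩
  · rintro _ ⟨z, hz, rfl⟩ hB
    obtain ⟨c, h⟩ := hA (Ψ z)
    exact (a1_loc c hO hc hi).2 z hz h ((c.bd _ h).1 hB)

theorem Atl.open_co (hA : Atl M B) {W : Set M} (hW : IsOpen W) (hd : Disjoint W B) {g : M → ℂ}
    (hc : ContinuousOn g W) (hi : InjOn g W) : IsOpen (g '' W) := by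
  refine isOpen_iff_forall_mem_open.2 ?_
  rintro _ ⟨x, hx, rfl⟩
  obtain ⟨c, h⟩ := hA x
  obtain ⟨h1, h2, h3⟩ := a1_int c
  refine ⟨(fun z => g (c.ψ z)) '' (c.O ∩ {z | 0 < z.im} ∩ c.ψ ⁻¹' W), ?_,
    invariance (h2.isOpen_inter_preimage h1 hW) (hc.comp (h2.mono inter_subset_left) fun z hz => hz.2)
      fun z hz z' hz' e => h3 hz.1 hz'.1 (hi hz.2 hz'.2 e),
    c.φ x, ⟨⟨(c.mapφ h).1, lt_of_le_of_ne (c.mapφ h).2 fun e =>
      disjoint_left.1 hd hx ((c.bd x h).2 e.symm)⟩, ?_⟩, ?_⟩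
  · rintro _ ⟨z, hz, rfl⟩
    exact ⟨_, hz.2, rfl⟩
  · rwa [mem_preimage, c.left x h]
  · simp only [c.left x h]

theorem Atl.closed (hA : Atl M B) : IsClosed B := by
  refine ⟨isOpen_iff_forall_mem_open.2 fun x hx => ?_⟩
  obtain ⟨c, h⟩ := hA x
  exact ⟨c.U ∩ c.φ ⁻¹' {z | z.im ≠ 0}, fun y hy hB => hy.2 ((c.bd y hy.1).1 hB),
    c.contφ.isOpen_inter_preimage c.openU (isOpen_ne_fun Complex.continuous_im continuous_const),
    h, fun e => hx ((c.bd x h).2 e)⟩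

theorem a1_cl (c : Chart M B) {x : M} (h : x ∈ c.U) {T : Set ℂ} (hT : T ⊆ c.O ∩ {z | 0 ≤ z.im})
    {ε : ℝ} (hε : 0 < ε) (ht : ∀ t : ℝ, 0 < t → t < ε → c.φ x + t ∈ T) :
    x ∈ closure (c.ψ '' (T \ {c.φ x})) := by
  have := ((c.contψ _ (c.mapφ h)).mono ((sdiff_subset (t := {c.φ x})).trans hT)).mem_closure_image
    (Metric.mem_closure_iff.2 fun η hη => ⟨c.φ x + (min ε η / 2 : ℝ), ⟨ht _ ?_ ?_, ?_⟩, ?_⟩)
  · rwa [c.left x h] at this
  all_goals have h1 := lt_min hε hη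
  · linarith
  · linarith only [min_le_left ε η, hε]
  · rw [mem_singleton_iff, add_eq_left, Complex.ofReal_eq_zero]
    linarith
  · rw [dist_self_add_right, Complex.norm_real, Real.norm_eq_abs, abs_of_pos (by linarith)]
    linarith [min_le_right ε η]

theorem a1_shift {z : ℂ} {t ε : ℝ} (h0 : 0 < t) (h1 : t < ε) : z + t ∈ ball z ε := by
  rwa [mem_ball, dist_self_add_left, Complex.norm_real, Real.norm_eq_abs, abs_of_pos h0]

theorem Atl.acc (hA : Atl M B) {x : M} (hx : x ∈ B) : x ∈ closure (B \ {x}) := by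
  obtain ⟨c, h⟩ := hA x
  obtain ⟨ε, hε, hb⟩ := Metric.isOpen_iff.1 c.openO _ (c.mapφ h).1
  have hT : c.O ∩ {z | z.im = 0} ⊆ c.O ∩ {z | 0 ≤ z.im} := fun z hz => ⟨hz.1, hz.2.ge⟩
  refine closure_mono ?_ (a1_cl c h hT hε fun t h0 h1 =>
    ⟨hb (a1_shift h0 h1), by simpa using (c.bd x h).1 hx⟩)
  rintro _ ⟨z, hz, rfl⟩
  refine ⟨(c.bd _ (c.mapψ (hT hz.1))).2 (by rw [c.right _ (hT hz.1)]; exact hz.1.2), fun e => hz.2 ?_⟩
  rw [mem_singleton_iff] at e ⊢
  rw [← e, c.right _ (hT hz.1)]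

theorem a1_conn {a : ℂ} (ha : 0 ≤ a.im) {ε : ℝ} (hε : 0 < ε) :
    IsPreconnected ((ball a ε ∩ {z | 0 ≤ z.im}) \ {a}) := by
  set C := ball a ε ∩ {z : ℂ | 0 ≤ z.im} with hC
  have hv : Convex ℝ C := (convex_ball a ε).inter (convex_halfSpace_im_ge 0)
  have hp : ∀ u v : ℝ, |u| ≤ ε / 4 → 0 ≤ v → v ≤ ε / 4 → a + ⟨u, v⟩ ∈ C := by
    intro u v h1 h2 h3
    refine ⟨?_, add_nonneg ha h2⟩
    rw [mem_ball, dist_self_add_left]
    have := Complex.norm_le_abs_re_add_abs_im ⟨u, v⟩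
    simp only [abs_of_nonneg h2] at this
    linarith only [hε, h1, h3, this]
  have hq : 0 < ε / 4 := by linarith only [hε]
  have cU := (hv.inter (convex_halfSpace_im_gt a.im)).isPreconnected
  have cD := (hv.inter (convex_halfSpace_im_lt a.im)).isPreconnected
  have cR := (hv.inter (convex_halfSpace_re_gt a.re)).isPreconnected
  have cL := (hv.inter (convex_halfSpace_re_lt a.re)).isPreconnected
  have p1 := hp (ε / 4) (ε / 4) (abs_of_pos hq).le hq.le le_rfl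
  have p2 := hp (-(ε / 4)) (ε / 4) (by rw [abs_neg, abs_of_pos hq]) hq.le le_rfl
  have p3 := hp (ε / 4) 0 (abs_of_pos hq).le le_rfl hq.le
  have c1 := IsPreconnected.union (a + ⟨ε / 4, ε / 4⟩) (mem_inter p1 (by simpa using hε))
    (mem_inter p1 (by simpa using hε)) cU cR
  have c2 := IsPreconnected.union (a + ⟨-(ε / 4), ε / 4⟩)
    (Or.inl (mem_inter p2 (by simpa using hε))) (mem_inter p2 (by simpa using hε)) c1 cL
  have s2 : C ∩ {z | a.im < z.im} ∪ C ∩ {z | a.re < z.re} ∪ C ∩ {z | z.re < a.re} ⊆ C \ {a} := by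
    rintro z ((h | h) | h) <;> exact ⟨h.1, fun e => by rw [e] at h; simpa using h.2⟩
  have m1 : a + ⟨ε / 4, ε / 4⟩ ∈
      C ∩ {z | a.im < z.im} ∪ C ∩ {z | a.re < z.re} ∪ C ∩ {z | z.re < a.re} :=
    Or.inl (Or.inl ⟨p1, by simpa using hε⟩)
  refine isPreconnected_of_forall (a + ⟨ε / 4, ε / 4⟩) fun y hy => ?_
  by_cases h : y ∈ C ∩ {z | a.im < z.im} ∪ C ∩ {z | a.re < z.re} ∪ C ∩ {z | z.re < a.re}
  · exact ⟨_, s2, m1, h, c2⟩
  have e1 : y.re = a.re := le_antisymm (not_lt.1 fun e => h (Or.inl (Or.inr ⟨hy.1, e⟩)))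
    (not_lt.1 fun e => h (Or.inr ⟨hy.1, e⟩))
  have e2 : y.im < a.im := lt_of_le_of_ne (not_lt.1 fun e => h (Or.inl (Or.inl ⟨hy.1, e⟩)))
    fun e => hy.2 (Complex.ext e1 e)
  have p4 := hv hy.1 p3 (a := 1 / 2) (b := 1 / 2) (by norm_num) (by norm_num) (by norm_num)
  refine ⟨_ ∪ C ∩ {z | z.im < a.im}, union_subset s2 fun z hz => ⟨hz.1, fun e => ?_⟩, Or.inl m1,
    Or.inr ⟨hy.1, e2⟩, IsPreconnected.union _ (Or.inl (Or.inr ⟨p4, ?_⟩)) ⟨p4, ?_⟩ c2 cD⟩
  · rw [e] at hz; simpa using hz.2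
  · simp only [one_div, Complex.real_smul, Complex.ofReal_inv, Complex.ofReal_ofNat, smul_add, mem_ofPred_eq, Complex.add_re, Complex.mul_re, Complex.inv_re, Complex.re_ofNat, Complex.normSq_ofNat, div_self_mul_self', e1, Complex.inv_im, Complex.im_ofNat, neg_zero, zero_div, zero_mul, sub_zero, mul_zero]; linarith only [hε]
  · simp only [one_div, Complex.real_smul, Complex.ofReal_inv, Complex.ofReal_ofNat, smul_add, mem_ofPred_eq, Complex.add_im, Complex.mul_im, Complex.inv_re, Complex.re_ofNat, Complex.normSq_ofNat, div_self_mul_self', Complex.inv_im, Complex.im_ofNat, neg_zero, zero_div, zero_mul, add_zero, mul_zero]; linarith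

/-- Punctured neighbourhoods: a ball or a half ball without its centre. -/
theorem Atl.punct (hA : Atl M B) (x : M) {N : Set M} (hN : N ∈ 𝓝 x) :
    ∃ W ∈ 𝓝 x, W ⊆ N ∧ IsPreconnected (W \ {x}) ∧ x ∈ closure (W \ {x}) := by
  obtain ⟨c, h⟩ := hA x
  have h1 : c.ψ ⁻¹' N ∈ 𝓝[c.O ∩ {z | 0 ≤ z.im}] c.φ x :=
    c.contψ _ (c.mapφ h) (by rwa [c.left x h])
  obtain ⟨ε₁, hε₁, hb₁⟩ := Metric.mem_nhdsWithin_iff.1 h1
  obtain ⟨ε₂, hε₂, hb₂⟩ := Metric.isOpen_iff.1 c.openO _ (c.mapφ h).1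
  have hε := lt_min hε₁ hε₂
  set T := ball (c.φ x) (min ε₁ ε₂) ∩ {z : ℂ | 0 ≤ z.im} with hT
  have hs : T ⊆ c.O ∩ {z | 0 ≤ z.im} := fun z hz =>
    ⟨hb₂ (ball_subset_ball (min_le_right _ _) hz.1), hz.2⟩
  have he : c.ψ '' T \ {x} = c.ψ '' (T \ {c.φ x}) := by
    ext y
    constructor
    · rintro ⟨⟨z, hz, rfl⟩, hne⟩
      exact ⟨z, ⟨hz, fun e => hne (by rw [e, c.left x h]; rfl)⟩, rfl⟩
    · rintro ⟨z, hz, rfl⟩
      exact ⟨⟨z, hz.1, rfl⟩, fun e => hz.2 (by rw [← e, c.right _ (hs hz.1)]; rfl)⟩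
  refine ⟨c.ψ '' T, ?_, ?_, ?_, ?_⟩
  · refine Filter.mem_of_superset ((c.contφ.isOpen_inter_preimage c.openU
      (isOpen_ball (x := c.φ x) (ε := min ε₁ ε₂))).mem_nhds ⟨h, mem_ball_self hε⟩) fun y hy => ?_
    exact ⟨c.φ y, ⟨hy.2, (c.mapφ hy.1).2⟩, c.left y hy.1⟩
  · rintro _ ⟨z, hz, rfl⟩
    exact hb₁ ⟨ball_subset_ball (min_le_left _ _) hz.1, hs hz⟩
  · rw [he]
    exact (a1_conn (c.mapφ h).2 hε).image _ (c.contψ.mono (sdiff_subset.trans hs))
  · rw [he]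
    exact a1_cl c h hs hε fun t h0 h1 => ⟨a1_shift h0 h1, by simpa only [mem_ofPred_eq, Complex.add_im, Complex.ofReal_im, add_zero] using (c.mapφ h).2⟩

theorem Dsc.open_int (hA : Atl M B) {d J : Set M} (h : Dsc d J) :
    IsOpen (d \ J) ∧ Disjoint (d \ J) B := by
  obtain ⟨Ψ, hc, hi, rfl, rfl⟩ := h
  rw [← hi.image_sdiff_subset sphere_subset_closedBall, closedBall_sdiff_sphere]
  exact hA.open_emb isOpen_ball (hc.mono ball_subset_closedBall) (hi.mono ball_subset_closedBall)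

theorem Dsc.front [T2Space M] (hA : Atl M B) {d J : Set M} (h : Dsc d J) {x : M} (hx : x ∈ J)
    (hB : x ∉ B) : x ∉ interior d := by
  obtain ⟨Ψ, hc, hi, rfl, rfl⟩ := h
  intro hx'
  set g := Function.invFunOn Ψ (closedBall 0 1) with hg
  have hl : ∀ z ∈ closedBall (0 : ℂ) 1, g (Ψ z) = z := hi.leftInvOn_invFunOn
  have hgc : ContinuousOn g (Ψ '' closedBall 0 1) := by
    refine continuousOn_iff_isClosed.2 fun t ht => ⟨Ψ '' (closedBall 0 1 ∩ t),
      (((isCompact_closedBall _ _).inter_right ht).image_of_continuousOn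
        (hc.mono inter_subset_left)).isClosed, ?_⟩
    ext y
    constructor
    · rintro ⟨h1, z, hz, rfl⟩
      exact ⟨⟨z, ⟨hz, by rwa [mem_preimage, hl z hz] at h1⟩, rfl⟩, z, hz, rfl⟩
    · rintro ⟨⟨z, hz, rfl⟩, h2⟩
      exact ⟨by rw [mem_preimage, hl z hz.1]; exact hz.2, h2⟩
  have hs : interior (Ψ '' closedBall 0 1) ∩ Bᶜ ⊆ Ψ '' closedBall 0 1 :=
    inter_subset_left.trans interior_subset
  have hW := hA.open_co (isOpen_interior.inter hA.closed.isOpen_compl)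
    (disjoint_left.2 fun y hy => hy.2) (hgc.mono hs) fun y hy y' hy' e => by
      obtain ⟨z, hz, rfl⟩ := hs hy
      obtain ⟨z', hz', rfl⟩ := hs hy'
      rw [hl z hz, hl z' hz'] at e
      rw [e]
  have hb : g '' (interior (Ψ '' closedBall 0 1) ∩ Bᶜ) ⊆ ball 0 1 := by
    rw [← interior_closedBall (0 : ℂ) one_ne_zero]
    refine interior_maximal ?_ hW
    rintro _ ⟨y, hy, rfl⟩
    obtain ⟨z, hz, rfl⟩ := hs hy
    rwa [hl z hz]
  obtain ⟨z, hz, rfl⟩ := hx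
  have := hb ⟨_, ⟨hx', hB⟩, hl z (sphere_subset_closedBall hz)⟩
  exact (mem_ball.1 this).ne (mem_sphere.1 hz)

end Pool.Agent.MP_17e62b_gt.T55

end

section

/-!
Arcs, simple closed curves and discs.
-/

namespace Pool.Agent.MP_17e62b_gt.T55

open Set Metric Topology
open scoped InnerProductSpace Manifold

variable {M : Type} [TopologicalSpace M] [T2Space M]

theorem a2_seg {E : Type} [NormedAddCommGroup E] [NormedSpace ℝ E] {a b : E} (hab : a ≠ b) :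
    Arc (segment ℝ a b) a b :=
  ⟨AffineMap.lineMap a b, AffineMap.lineMap_continuous.continuousOn,
    (AffineMap.lineMap_injective ℝ hab).injOn, by simp, by simp,
    (segment_eq_image_lineMap ℝ a b).symm⟩

omit [T2Space M] in
theorem a2_map {X : Type} [TopologicalSpace X] {e : Set X} {a b : X} (h : Arc e a b) {Ψ : X → M}
    (hc : ContinuousOn Ψ e) (hi : InjOn Ψ e) : Arc (Ψ '' e) (Ψ a) (Ψ b) := by
  obtain ⟨γ, h1, h2, rfl, rfl, rfl⟩ := h
  exact ⟨Ψ ∘ γ, hc.comp h1 (mapsTo_image _ _), hi.comp h2 (mapsTo_image _ _), rfl, rfl,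
    image_comp _ _ _⟩

omit [T2Space M] in
theorem a2_icc {u v : ℝ} (huv : u < v) {γ : ℝ → M} (hc : ContinuousOn γ (Icc u v))
    (hi : InjOn γ (Icc u v)) : Arc (γ '' Icc u v) (γ u) (γ v) :=
  a2_map (segment_eq_Icc huv.le ▸ a2_seg huv.ne) hc hi

theorem a2_inv {X : Type} [TopologicalSpace X] [Nonempty X] {K : Set X} (hK : IsCompact K)
    {Ψ : X → M} (hc : ContinuousOn Ψ K) (hi : InjOn Ψ K) :
    ∃ g : M → X, ContinuousOn g (Ψ '' K) ∧ ∀ x ∈ K, g (Ψ x) = x := by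
  refine ⟨Function.invFunOn Ψ K, continuousOn_iff_isClosed.2 fun t ht =>
    ⟨Ψ '' (K ∩ t), ((hK.inter_right ht).image_of_continuousOn
      (hc.mono inter_subset_left)).isClosed, ?_⟩, fun x hx => hi.leftInvOn_invFunOn hx⟩
  refine Subset.antisymm ?_ ?_
  · rintro _ ⟨h1, x, hx, rfl⟩
    rw [mem_preimage, hi.leftInvOn_invFunOn hx] at h1
    exact ⟨⟨x, ⟨hx, h1⟩, rfl⟩, x, hx, rfl⟩
  · rintro _ ⟨⟨x, ⟨hx, h1⟩, rfl⟩, h2⟩
    exact ⟨by rwa [mem_preimage, hi.leftInvOn_invFunOn hx], h2⟩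

theorem a2_real {s : Set ℝ} {x y : ℝ} (h : Arc s x y) : s = uIcc x y := by
  obtain ⟨γ, h1, h2, rfl, rfl, rfl⟩ := h
  have m0 : (0 : ℝ) ∈ Icc (0 : ℝ) 1 := left_mem_Icc.2 zero_le_one
  have m1 : (1 : ℝ) ∈ Icc (0 : ℝ) 1 := right_mem_Icc.2 zero_le_one
  refine Subset.antisymm ?_ ((isPreconnected_Icc.image γ h1).ordConnected.uIcc_subset
    ⟨0, m0, rfl⟩ ⟨1, m1, rfl⟩)
  rintro _ ⟨t, ht, rfl⟩
  rcases h1.strictMonoOn_of_injOn_Icc' zero_le_one h2 with h | h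
  · exact mem_uIcc_of_le (h.monotoneOn m0 ht ht.1) (h.monotoneOn ht m1 ht.2)
  · exact mem_uIcc_of_ge (h.antitoneOn ht m1 ht.2) (h.antitoneOn m0 ht ht.1)

theorem a2_coord {e : Set M} {a b : M} (h : Arc e a b) : ∃ g : M → ℝ, ContinuousOn g e ∧
    InjOn g e ∧ g '' e = Icc 0 1 ∧ g a = 0 ∧ g b = 1 := by
  obtain ⟨γ, h1, h2, rfl, rfl, rfl⟩ := h
  obtain ⟨g, g1, g2⟩ := a2_inv isCompact_Icc h1 h2
  refine ⟨g, g1, ?_, ?_, g2 _ (left_mem_Icc.2 zero_le_one), g2 _ (right_mem_Icc.2 zero_le_one)⟩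
  · rintro _ ⟨t, ht, rfl⟩ _ ⟨t', ht', rfl⟩ e
    rw [g2 t ht, g2 t' ht'] at e
    rw [e]
  · rw [image_image]
    exact (image_congr g2).trans (image_id' _)

omit [T2Space M] in
theorem Arc.symm {e : Set M} {a b : M} (h : Arc e a b) : Arc e b a := by
  obtain ⟨γ, h1, h2, rfl, rfl, rfl⟩ := h
  have h3 : Arc (Icc (0 : ℝ) 1) 1 0 := by
    rw [← segment_eq_Icc zero_le_one, segment_symm]
    exact a2_seg one_ne_zero
  exact a2_map h3 h1 h2

omit [T2Space M] in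
theorem Arc.basic {e : Set M} {a b : M} (h : Arc e a b) :
    IsCompact e ∧ IsPreconnected e ∧ a ∈ e ∧ b ∈ e ∧ a ≠ b ∧ IsPreconnected (e \ {a, b}) ∧
      e ⊆ closure (e \ {a, b}) := by
  obtain ⟨γ, h1, h2, rfl, rfl, rfl⟩ := h
  have m0 : (0 : ℝ) ∈ Icc (0 : ℝ) 1 := left_mem_Icc.2 zero_le_one
  have m1 : (1 : ℝ) ∈ Icc (0 : ℝ) 1 := right_mem_Icc.2 zero_le_one
  have e : γ '' Icc 0 1 \ {γ 0, γ 1} = γ '' Ioo 0 1 := by
    rw [← image_pair, ← h2.image_sdiff_subset (pair_subset m0 m1), Icc_sdiff_both]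
  rw [e]
  refine ⟨isCompact_Icc.image_of_continuousOn h1, isPreconnected_Icc.image γ h1, ⟨0, m0, rfl⟩,
    ⟨1, m1, rfl⟩, fun g => zero_ne_one (h2 m0 m1 g),
    isPreconnected_Ioo.image γ (h1.mono Ioo_subset_Icc_self), ?_⟩
  rw [← closure_Ioo zero_ne_one] at h1 ⊢
  exact h1.image_closure

omit [T2Space M] in
theorem Arc.split {e : Set M} {a b x : M} (h : Arc e a b) (hx : x ∈ e) (ha : x ≠ a) (hb : x ≠ b) :
    ∃ e₁ e₂, Arc e₁ a x ∧ Arc e₂ x b ∧ e₁ ∪ e₂ = e ∧ e₁ ∩ e₂ = {x} := by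
  obtain ⟨γ, h1, h2, rfl, rfl, rfl⟩ := h
  obtain ⟨t, ht, rfl⟩ := hx
  have t0 : 0 < t := ht.1.lt_of_ne fun g => ha (g ▸ rfl)
  have t1 : t < 1 := ht.2.lt_of_ne fun g => hb (g ▸ rfl)
  have s0 : Icc 0 t ⊆ Icc (0 : ℝ) 1 := Icc_subset_Icc_right ht.2
  have s1 : Icc t 1 ⊆ Icc (0 : ℝ) 1 := Icc_subset_Icc_left ht.1
  refine ⟨_, _, a2_icc t0 (h1.mono s0) (h2.mono s0), a2_icc t1 (h1.mono s1) (h2.mono s1), ?_, ?_⟩
  · rw [← image_union, Icc_union_Icc_eq_Icc ht.1 ht.2]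
  · rw [← h2.image_inter s0 s1, Icc_inter_Icc_eq_singleton ht.1 ht.2, image_singleton]

omit [T2Space M] in
theorem Arc.trans {e₁ e₂ : Set M} {a b x : M} (h₁ : Arc e₁ a x) (h₂ : Arc e₂ x b)
    (h : e₁ ∩ e₂ ⊆ {x}) : Arc (e₁ ∪ e₂) a b := by
  obtain ⟨γ, h1, h2, rfl, h3, rfl⟩ := h₁
  obtain ⟨δ, g1, g2, g3, rfl, rfl⟩ := h₂
  obtain ⟨c, c1, c2⟩ : ∃ c : ℝ → M, (∀ t ∈ Icc (0 : ℝ) 1, c t = γ t) ∧
      ∀ t ∈ Icc (1 : ℝ) 2, c t = δ (t - 1) := by
    refine ⟨fun t => if t ≤ 1 then γ t else δ (t - 1), fun t ht => if_pos ht.2, fun t ht => ?_⟩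
    rcases ht.1.eq_or_lt with rfl | g
    · simp [h3, g3]
    · exact if_neg g.not_ge
  have m : MapsTo (fun t : ℝ => t - 1) (Icc 1 2) (Icc 0 1) := fun t ht =>
    ⟨by linarith [ht.1], by linarith only [ht.2]⟩
  have u : Icc (0 : ℝ) 2 = Icc 0 1 ∪ Icc 1 2 := (Icc_union_Icc_eq_Icc zero_le_one one_le_two).symm
  have m1 : (1 : ℝ) ∈ Icc (0 : ℝ) 1 := right_mem_Icc.2 zero_le_one
  have cross : ∀ t ∈ Icc (0 : ℝ) 1, ∀ t' ∈ Icc (1 : ℝ) 2, c t = c t' → t = t' :=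
    fun t ht t' ht' e => by
      rw [c1 t ht, c2 t' ht'] at e
      have e1 : γ t = x := h ⟨⟨t, ht, rfl⟩, _, m ht', e.symm⟩
      have e2 := h2 ht m1 (e1.trans h3.symm)
      have e3 := g2 (m ht') (left_mem_Icc.2 zero_le_one) (e.symm.trans (e1.trans g3.symm))
      linarith
  have key := a2_icc (γ := c) two_pos (by
    rw [u]
    exact (h1.congr c1).union_of_isClosed
      ((g1.comp (by fun_prop) m).congr c2) isClosed_Icc isClosed_Icc) (by
    rw [u]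
    rintro t (ht | ht) t' (ht' | ht') e
    · exact h2 ht ht' (by rwa [c1 t ht, c1 t' ht'] at e)
    · exact cross t ht t' ht' e
    · exact (cross t' ht' t ht e.symm).symm
    · exact sub_left_injective (g2 (m ht) (m ht') (by rwa [c2 t ht, c2 t' ht'] at e)))
  rw [c1 0 (left_mem_Icc.2 zero_le_one), c2 2 (right_mem_Icc.2 one_le_two), u, image_union,
    image_congr c1, image_congr c2, ← image_image δ fun t : ℝ => t - 1, image_sub_const_Icc,
    sub_self, show (2 : ℝ) - 1 = 1 by norm_num] at key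
  exact key

/-- The ends of an arc are determined by the set. -/
theorem Arc.ends_eq {e : Set M} {a b a' b' : M} (h : Arc e a b) (h' : Arc e a' b') :
    ({a, b} : Set M) = {a', b'} := by
  obtain ⟨g, g1, g2, g3, g4, g5⟩ := a2_coord h
  obtain ⟨-, -, ma, mb, -⟩ := h.basic
  obtain ⟨-, -, ma', mb', -⟩ := h'.basic
  have e := a2_real (a2_map h' g1 g2)
  rw [g3, uIcc, Icc_eq_Icc_iff zero_le_one] at e
  rcases le_total (g a') (g b') with l | l
  · rw [min_eq_left l, max_eq_right l] at e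
    rw [g2 ma ma' (g4.trans e.1), g2 mb mb' (g5.trans e.2)]
  · rw [min_eq_right l, max_eq_left l] at e
    rw [g2 ma mb' (g4.trans e.1), g2 mb ma' (g5.trans e.2), pair_comm]

/-- A subarc is determined by its ends. -/
theorem Arc.sub_eq {e s s' : Set M} {a b x y : M} (h : Arc e a b) (hs : Arc s x y)
    (hs' : Arc s' x y) (h1 : s ⊆ e) (h2 : s' ⊆ e) : s = s' := by
  obtain ⟨g, g1, g2, -⟩ := a2_coord h
  exact (g2.image_eq_image_iff h1 h2).1 ((a2_real (a2_map hs (g1.mono h1) (g2.mono h1))).trans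
    (a2_real (a2_map hs' (g1.mono h2) (g2.mono h2))).symm)

omit [T2Space M] in
theorem arc_seg {a b : ℂ} (hab : a ≠ b) {Ψ : ℂ → M} (hc : ContinuousOn Ψ (segment ℝ a b))
    (hi : InjOn Ψ (segment ℝ a b)) : Arc (Ψ '' segment ℝ a b) (Ψ a) (Ψ b) := by
  exact a2_map (a2_seg hab) hc hi

omit [T2Space M] in
theorem Dsc.basic {d J : Set M} (h : Dsc d J) :
    IsCompact d ∧ IsCompact J ∧ J ⊆ d ∧ IsPreconnected d ∧ IsPreconnected J ∧
      IsPreconnected (d \ J) ∧ (d \ J).Nonempty ∧ J.Infinite ∧ d ⊆ closure (d \ J) := by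
  obtain ⟨Ψ, h1, h2, rfl, rfl⟩ := h
  have s1 : sphere (0 : ℂ) 1 ⊆ closedBall 0 1 := sphere_subset_closedBall
  have e : Ψ '' closedBall 0 1 \ Ψ '' sphere 0 1 = Ψ '' ball 0 1 := by
    rw [← h2.image_sdiff_subset s1, closedBall_sdiff_sphere]
  have p : IsPreconnected (sphere (0 : ℂ) 1) :=
    isPreconnected_sphere (by simp [Complex.rank_real_complex]) 0 1
  rw [e]
  refine ⟨(isCompact_closedBall 0 1).image_of_continuousOn h1,
    (isCompact_sphere 0 1).image_of_continuousOn (h1.mono s1), image_mono s1,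
    (convex_closedBall 0 1).isPreconnected.image Ψ h1, p.image Ψ (h1.mono s1),
    (convex_ball 0 1).isPreconnected.image Ψ (h1.mono ball_subset_closedBall),
    (nonempty_ball.2 one_pos).image Ψ, Infinite.image (h2.mono s1)
      (p.infinite_of_nontrivial ⟨1, by simp, -1, by simp, by norm_num⟩), ?_⟩
  rw [← closure_ball 0 one_ne_zero] at h1 ⊢
  exact h1.image_closure

/-- A proper subcontinuum of the boundary curve is an arc, and so is the rest. Plan: remove a point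
outside `s`, parametrise the circle by `[0, 2π]` from there; the preimage of `s` is a compact
connected subset of the open interval. -/
theorem Dsc.sub_arc {d J s : Set M} (h : Dsc d J) (hs : s ⊆ J) (hc : IsClosed s)
    (hp : IsPreconnected s) (hn : s.Nontrivial) (hne : s ≠ J) :
    ∃ a b, Arc s a b ∧ Arc (closure (J \ s)) a b ∧ s ∩ closure (J \ s) = {a, b} := by
  obtain ⟨c, c1, c2, c3, c4⟩ : ∃ c : ℝ → M, Continuous c ∧ Function.Periodic c (2 * Real.pi) ∧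
      range c = J ∧ ∀ t t', |t - t'| < 2 * Real.pi → c t = c t' → t = t' := by
    obtain ⟨Ψ, h1, h2, -, rfl⟩ := h
    have m : ∀ t, circleMap 0 1 t ∈ closedBall (0 : ℂ) 1 := fun t =>
      sphere_subset_closedBall (circleMap_mem_sphere 0 zero_le_one t)
    refine ⟨Ψ ∘ circleMap 0 1, h1.comp_continuous (continuous_circleMap 0 1) m,
      (periodic_circleMap 0 1).comp Ψ, ?_, fun t t' g e =>
        eq_of_circleMap_eq one_ne_zero g (h2 (m t) (m t') e)⟩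
    rw [range_comp, range_circleMap, abs_one]
  obtain ⟨_, ⟨θ, rfl⟩, hθ⟩ := exists_of_ssubset (c3 ▸ hs.ssubset_of_ne hne)
  have k1 : IsCompact (Icc θ (θ + 2 * Real.pi) ∩ c ⁻¹' s) :=
    isCompact_Icc.inter_right (hc.preimage c1)
  have k2 : ∀ t ∈ Icc θ (θ + 2 * Real.pi) ∩ c ⁻¹' s, θ < t ∧ t < θ + 2 * Real.pi := fun t ht =>
    ⟨ht.1.1.lt_of_ne fun g => hθ (g ▸ ht.2), ht.1.2.lt_of_ne fun g => hθ (by
      rw [← c2 θ, ← g]
      exact ht.2)⟩
  have k3 : InjOn c (Icc θ (θ + 2 * Real.pi) ∩ c ⁻¹' s) := fun t ht t' ht' =>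
    c4 t t' (abs_lt.2 ⟨by linarith [k2 t ht, k2 t' ht'], by linarith only [k2 t ht, k2 t' ht']⟩)
  have k4 : c '' (Icc θ (θ + 2 * Real.pi) ∩ c ⁻¹' s) = s := by
    rw [image_inter_preimage, c2.image_Icc Real.two_pi_pos, c3, inter_eq_right.2 hs]
  obtain ⟨g, g1, g2⟩ := a2_inv k1 c1.continuousOn k3
  have k5 : IsConnected (Icc θ (θ + 2 * Real.pi) ∩ c ⁻¹' s) := by
    have := IsConnected.image (k4.symm ▸ ⟨hn.nonempty, hp⟩) g g1
    rwa [image_image, image_congr g2, image_id'] at this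
  have k6 := eq_Icc_of_connected_compact k5 k1
  have k7 : (Icc θ (θ + 2 * Real.pi) ∩ c ⁻¹' s).Nontrivial := nontrivial_of_image c _ (k4.symm ▸ hn)
  generalize sInf (Icc θ (θ + 2 * Real.pi) ∩ c ⁻¹' s) = u at k6
  generalize sSup (Icc θ (θ + 2 * Real.pi) ∩ c ⁻¹' s) = v at k6
  rw [k6] at k2 k3 k4 k7
  have uv : u < v := by
    obtain ⟨x, hx, y, hy, l⟩ := k7
    exact not_le.1 fun g => l (le_antisymm (hx.2.trans (g.trans hy.1)) (hy.2.trans (g.trans hx.1)))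
  have mu : u ∈ Icc u v := left_mem_Icc.2 uv.le
  have mv : v ∈ Icc u v := right_mem_Icc.2 uv.le
  have vu : v < u + 2 * Real.pi := by linarith [k2 u mu, k2 v mv]
  have su : c u ∈ s := k4 ▸ mem_image_of_mem c mu
  have sv : c v ∈ s := k4 ▸ mem_image_of_mem c mv
  have e1 : J \ s = c '' Ioo v (u + 2 * Real.pi) := by
    refine Subset.antisymm (fun x hx => ?_) ?_
    · obtain ⟨t, ht, rfl⟩ : x ∈ c '' Icc u (u + 2 * Real.pi) := by
        rw [c2.image_Icc Real.two_pi_pos, c3]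
        exact hx.1
      exact ⟨t, ⟨not_le.1 fun l => hx.2 (k4 ▸ mem_image_of_mem c ⟨ht.1, l⟩),
        ht.2.lt_of_ne fun l => hx.2 (by rwa [l, c2 u])⟩, rfl⟩
    · rintro _ ⟨t, ht, rfl⟩
      refine ⟨c3 ▸ mem_range_self t, fun l => ?_⟩
      obtain ⟨t', ht', e⟩ : c t ∈ c '' Icc u v := k4.symm ▸ l
      have := c4 t' t (abs_lt.2 ⟨by linarith [ht.2, ht'.1],
        by linarith [ht.1, ht'.2, Real.two_pi_pos]⟩) e
      linarith [ht.1, ht'.2]
  have e2 : closure (J \ s) = c '' Icc v (u + 2 * Real.pi) := by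
    rw [e1]
    refine Subset.antisymm (closure_minimal (image_mono Ioo_subset_Icc_self)
      (isCompact_Icc.image c1).isClosed) ?_
    rw [← closure_Ioo vu.ne]
    exact image_closure_subset_closure_image c1
  have a2 := (a2_icc vu c1.continuousOn fun t ht t' ht' => c4 t t'
    (abs_lt.2 ⟨by linarith [ht.1, ht'.2], by linarith [ht.2, ht'.1]⟩)).symm
  rw [c2 u, ← e2] at a2
  refine ⟨c u, c v, k4 ▸ a2_icc uv c1.continuousOn k3, a2, Subset.antisymm ?_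
    (pair_subset ⟨su, a2.basic.2.2.1⟩ ⟨sv, a2.basic.2.2.2.1⟩)⟩
  rw [e2]
  rintro _ ⟨l, t, ht, rfl⟩
  rcases ht.1.eq_or_lt with rfl | l1
  · exact Or.inr rfl
  rcases ht.2.eq_or_lt with rfl | l2
  · exact Or.inl (c2 u)
  · exact ((e1 ▸ mem_image_of_mem c (⟨l1, l2⟩ : t ∈ Ioo _ _) : c t ∈ J \ s).2 l).elim

/-- Plan: `exists_homeomorph_image_interior_closure_frontier_eq_unitBall`. -/
theorem dsc_convex {K : Set ℂ} (hK : IsCompact K) (hc : Convex ℝ K) (hn : (interior K).Nonempty)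
    {Ψ : ℂ → M} (h1 : ContinuousOn Ψ K) (h2 : InjOn Ψ K) : Dsc (Ψ '' K) (Ψ '' frontier K) := by
  obtain ⟨φ, -, φ2, φ3⟩ :=
    exists_homeomorph_image_interior_closure_frontier_eq_unitBall hc hn hK.isBounded
  rw [hK.isClosed.closure_eq] at φ2
  have e1 : φ.symm '' closedBall 0 1 = K := φ2 ▸ φ.toEquiv.symm_image_image K
  have e2 : φ.symm '' sphere 0 1 = frontier K := φ3 ▸ φ.toEquiv.symm_image_image _
  have m : MapsTo φ.symm (closedBall 0 1) K := e1 ▸ mapsTo_image _ _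
  exact ⟨Ψ ∘ φ.symm, h1.comp φ.symm.continuous.continuousOn m, h2.comp φ.symm.injective.injOn m,
    by rw [image_comp, e1], by rw [image_comp, e2]⟩

/-- A parametrisation of the boundary curve extends. Plan: `H83.exists_cone`. -/
theorem Dsc.param {d J : Set M} (h : Dsc d J) {K : Set ℂ} (hK : IsCompact K) (hc : Convex ℝ K)
    (hn : (interior K).Nonempty) {β : ℂ → M} (h1 : ContinuousOn β (frontier K))
    (h2 : BijOn β (frontier K) J) :
    ∃ Ψ : ℂ → M, ContinuousOn Ψ K ∧ InjOn Ψ K ∧ Ψ '' K = d ∧ EqOn Ψ β (frontier K) := by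
  obtain ⟨Ψ, p1, p2, rfl, rfl⟩ := h
  have s1 : sphere (0 : ℂ) 1 ⊆ closedBall 0 1 := sphere_subset_closedBall
  obtain ⟨g, g1, g2⟩ := a2_inv (isCompact_closedBall (0 : ℂ) 1) p1 p2
  have hb : BijOn g (Ψ '' sphere 0 1) (sphere 0 1) := by
    refine ⟨?_, ?_, fun z hz => ⟨Ψ z, mem_image_of_mem Ψ hz, g2 z (s1 hz)⟩⟩
    · rintro _ ⟨z, hz, rfl⟩
      rwa [g2 z (s1 hz)]
    · rintro _ ⟨z, hz, rfl⟩ _ ⟨w, hw, rfl⟩ e
      rw [g2 z (s1 hz), g2 w (s1 hw)] at e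
      rw [e]
  obtain ⟨φ, φ1, -, φ3⟩ := Pool.Agent.MP_4a6971_al.H83.exists_cone hK hc hn
    (isCompact_closedBall (0 : ℂ) 1) (convex_closedBall 0 1)
    (by rw [interior_closedBall 0 one_ne_zero]; exact nonempty_ball.2 one_pos) (b := g ∘ β)
    (g1.comp h1 (h2.mapsTo.mono_right (image_mono s1)))
    (by rw [frontier_closedBall 0 one_ne_zero]; exact hb.comp h2)
  have m : MapsTo φ K (closedBall 0 1) := φ1 ▸ mapsTo_image _ _
  refine ⟨Ψ ∘ φ, p1.comp φ.continuous.continuousOn m, p2.comp φ.injective.injOn m,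
    by rw [image_comp, φ1], fun z hz => ?_⟩
  obtain ⟨w, hw, e⟩ := h2.mapsTo hz
  rw [Function.comp_apply, φ3 hz, Function.comp_apply, ← e, g2 w (s1 hw)]

end Pool.Agent.MP_17e62b_gt.T55

end

section

/-!
Squares, and the union of two discs along an arc.
-/

namespace Pool.Agent.MP_17e62b_gt.T55

open Set Metric Topology
open scoped InnerProductSpace Manifold

variable {M : Type} [TopologicalSpace M] [T2Space M]

theorem a3_rect {p : ℝ} (hp : p < 1) : IsCompact (Icc (0 : ℝ) 1 ×ℂ Icc p 1) ∧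
    Convex ℝ (Icc (0 : ℝ) 1 ×ℂ Icc p 1) ∧ (interior (Icc (0 : ℝ) 1 ×ℂ Icc p 1)).Nonempty ∧
    frontier (Icc (0 : ℝ) 1 ×ℂ Icc p 1) =
      {z : ℂ | (z.re ∈ Icc (0 : ℝ) 1 ∧ (z.im = p ∨ z.im = 1)) ∨
        ((z.re = 0 ∨ z.re = 1) ∧ z.im ∈ Icc p 1)} := by
  refine ⟨isCompact_Icc.reProdIm isCompact_Icc, ?_, ?_, ?_⟩
  · exact ((convex_Icc 0 1).linear_preimage Complex.reLm).inter
      ((convex_Icc p 1).linear_preimage Complex.imLm)
  · rw [Complex.interior_reProdIm, interior_Icc, interior_Icc]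
    refine ⟨⟨1 / 2, (p + 1) / 2⟩, ?_, ?_⟩
    · constructor <;> norm_num
    · constructor
      · show p < (p + 1) / 2
        linarith
      · show (p + 1) / 2 < 1
        linarith only [hp]
  · rw [Complex.frontier_reProdIm, closure_Icc, closure_Icc, frontier_Icc zero_le_one,
      frontier_Icc hp.le]
    ext z
    simp only [mem_union, Complex.mem_reProdIm, mem_insert_iff, mem_singleton_iff, mem_ofPred_eq]

theorem sq_basic : IsCompact Sq ∧ Convex ℝ Sq ∧ (interior Sq).Nonempty ∧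
    frontier Sq = SqH false ∪ SqH true ∪ SqV false ∪ SqV true := by
  obtain ⟨h1, h2, h3, h4⟩ := a3_rect (p := 0) (by norm_num)
  have e : Sq = Icc (0 : ℝ) 1 ×ℂ Icc (0 : ℝ) 1 := rfl
  rw [e]
  refine ⟨h1, h2, h3, ?_⟩
  rw [h4]
  ext z
  simp only [SqH, SqV, mem_union, mem_ofPred_eq, Bool.false_eq_true, if_false, if_true]
  tauto

/-- The three sides other than the bottom one. -/
def a3_U : Set ℂ := SqH true ∪ SqV false ∪ SqV true

/-- The parameter along the sides of the square. -/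
def a3_tau (u v : ℝ) (z : ℂ) : ℝ := z.re * (1 - z.im) + z.im * (u + (v - u) * z.re)

theorem a3_memU {z : ℂ} : z ∈ a3_U ↔ ((0 ≤ z.re ∧ z.re ≤ 1) ∧ z.im = 1) ∨
    (z.re = 0 ∧ 0 ≤ z.im ∧ z.im ≤ 1) ∨ (z.re = 1 ∧ 0 ≤ z.im ∧ z.im ≤ 1) := by
  simp only [a3_U, SqH, SqV, mem_union, mem_ofPred_eq, Bool.false_eq_true, if_false, if_true,
    mem_Icc, or_assoc]

theorem a3_front : frontier Sq = SqH false ∪ a3_U := by
  rw [sq_basic.2.2.2, a3_U]
  simp only [union_assoc]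

theorem a3_closedH (i : Bool) : IsClosed (SqH i) :=
  (isClosed_Icc.preimage Complex.continuous_re).inter
    (isClosed_eq Complex.continuous_im continuous_const)

theorem a3_closedV (i : Bool) : IsClosed (SqV i) :=
  (isClosed_eq Complex.continuous_re continuous_const).inter
    (isClosed_Icc.preimage Complex.continuous_im)

theorem a3_closedU : IsClosed a3_U :=
  ((a3_closedH true).union (a3_closedV false)).union (a3_closedV true)

theorem a3_tau_cont (u v : ℝ) : Continuous (a3_tau u v) := by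
  unfold a3_tau
  fun_prop

theorem a3_tau_maps {u v : ℝ} (hu : 0 < u) (huv : u < v) (hv : v < 1) :
    MapsTo (a3_tau u v) a3_U (Icc 0 1) := by
  intro z hz
  rcases a3_memU.1 hz with ⟨⟨h1, h2⟩, h3⟩ | ⟨h1, h2, h3⟩ | ⟨h1, h2, h3⟩
  · simp only [a3_tau, h3, mem_Icc]
    constructor <;> nlinarith only [hu, huv, h1, hv, h2]
  · simp only [a3_tau, h1, mem_Icc]
    constructor <;> nlinarith only [hu, h2, huv, hv, h3]
  · simp only [a3_tau, h1, mem_Icc]
    constructor <;> nlinarith only [hu, huv, h2, h3, hv]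

theorem a3_zero {c x : ℝ} (hc : 0 < c) (h : c * x = 0) : x = 0 :=
  (mul_eq_zero.1 h).resolve_left hc.ne'

theorem a3_tau_inj {u v : ℝ} (hu : 0 < u) (huv : u < v) (hv : v < 1) :
    InjOn (a3_tau u v) a3_U := by
  intro z hz w hw h
  have h1 : 0 < v - u := by linarith
  have h2 : 0 < 1 - v := by linarith
  rcases a3_memU.1 hz with ⟨⟨a1, a2⟩, a3⟩ | ⟨a1, a2, a3⟩ | ⟨a1, a2, a3⟩ <;>
    rcases a3_memU.1 hw with ⟨⟨b1, b2⟩, b3⟩ | ⟨b1, b2, b3⟩ | ⟨b1, b2, b3⟩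
  · simp only [a3_tau, a3, b3] at h
    have : z.re - w.re = 0 := a3_zero h1 (by linarith only [h])
    exact Complex.ext (by linarith only [this]) (by linarith only [a3, b3])
  · simp only [a3_tau, a3, b1] at h
    have p1 := mul_nonneg h1.le a1
    have p2 := mul_nonneg hu.le (sub_nonneg.2 b3)
    have q1 : z.re = 0 := a3_zero h1 (by linarith)
    have q2 : 1 - w.im = 0 := a3_zero hu (by linarith)
    exact Complex.ext (by linarith only [a1, b1, q1]) (by linarith only [a3, b3, q2])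
  · simp only [a3_tau, a3, b1] at h
    have p1 := mul_nonneg h1.le (sub_nonneg.2 a2)
    have p2 := mul_nonneg h2.le (sub_nonneg.2 b3)
    have q1 : 1 - z.re = 0 := a3_zero h1 (by linarith)
    have q2 : 1 - w.im = 0 := a3_zero h2 (by linarith only [h, p1, p2])
    exact Complex.ext (by linarith only [a2, b1, q1]) (by linarith only [a3, b3, q2])
  · simp only [a3_tau, a1, b3] at h
    have p1 := mul_nonneg h1.le b1
    have p2 := mul_nonneg hu.le (sub_nonneg.2 a3)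
    have q1 : w.re = 0 := a3_zero h1 (by linarith)
    have q2 : 1 - z.im = 0 := a3_zero hu (by linarith only [h, p1, p2])
    exact Complex.ext (by linarith only [a1, b1, q1]) (by linarith only [a3, b3, q2])
  · simp only [a3_tau, a1, b1] at h
    have : z.im - w.im = 0 := a3_zero hu (by linarith)
    exact Complex.ext (by linarith only [a1, b1]) (by linarith only [this])
  · simp only [a3_tau, a1, b1] at h
    have p1 := mul_nonneg hu.le (sub_nonneg.2 a3)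
    have p2 := mul_nonneg h2.le (sub_nonneg.2 b3)
    exfalso
    linarith
  · simp only [a3_tau, a1, b3] at h
    have p1 := mul_nonneg h1.le (sub_nonneg.2 b2)
    have p2 := mul_nonneg h2.le (sub_nonneg.2 a3)
    have q1 : 1 - w.re = 0 := a3_zero h1 (by linarith)
    have q2 : 1 - z.im = 0 := a3_zero h2 (by linarith only [h, p1, p2])
    exact Complex.ext (by linarith only [a1, b2, q1]) (by linarith only [a3, b3, q2])
  · simp only [a3_tau, a1, b1] at h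
    have p1 := mul_nonneg hu.le (sub_nonneg.2 b3)
    have p2 := mul_nonneg h2.le (sub_nonneg.2 a3)
    exfalso
    linarith
  · simp only [a3_tau, a1, b1] at h
    have : z.im - w.im = 0 := a3_zero h2 (by linarith)
    exact Complex.ext (by linarith only [a1, b1]) (by linarith only [this])

theorem a3_tau_top {u v : ℝ} (huv : u < v) : a3_tau u v '' SqH true = Icc u v := by
  have h1 : 0 < v - u := by linarith
  ext t
  simp only [SqH, if_true, mem_image, mem_ofPred_eq, mem_Icc]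
  constructor
  · rintro ⟨z, ⟨⟨a1, a2⟩, a3⟩, rfl⟩
    simp only [a3_tau, a3]
    constructor <;> nlinarith only [huv, a1, a2]
  · rintro ⟨a1, a2⟩
    refine ⟨⟨(t - u) / (v - u), 1⟩, ⟨⟨div_nonneg (by linarith) h1.le, ?_⟩, rfl⟩, ?_⟩
    · exact (div_le_one h1).2 (by linarith)
    · simp only [a3_tau]
      field_simp
      ring

theorem a3_tau_surj {u v : ℝ} (hu : 0 < u) (huv : u < v) (hv : v < 1) :
    a3_tau u v '' a3_U = Icc 0 1 := by
  refine (a3_tau_maps hu huv hv).image_subset.antisymm ?_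
  rintro t ⟨a1, a2⟩
  have h2 : 0 < 1 - v := by linarith
  rcases le_total t u with h | h
  · refine ⟨⟨0, t / u⟩, a3_memU.2 (Or.inr (Or.inl ⟨rfl, div_nonneg a1 hu.le,
      (div_le_one hu).2 h⟩)), ?_⟩
    simp only [a3_tau]
    field_simp
    ring
  rcases le_total t v with h' | h'
  · obtain ⟨z, hz, e⟩ := (a3_tau_top huv).ge (show t ∈ Icc u v from ⟨h, h'⟩)
    exact ⟨z, Or.inl (Or.inl hz), e⟩
  · refine ⟨⟨1, (1 - t) / (1 - v)⟩, a3_memU.2 (Or.inr (Or.inr ⟨rfl,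
      div_nonneg (by linarith) h2.le, (div_le_one h2).2 (by linarith)⟩)), ?_⟩
    simp only [a3_tau]
    field_simp
    ring

/-- A disc whose boundary is the union of two arcs is parametrised by the square. -/
theorem a3_two {d J : Set M} (h : Dsc d J) {γ δ : ℝ → M} (cγ : ContinuousOn γ (Icc 0 1))
    (iγ : InjOn γ (Icc 0 1)) (cδ : ContinuousOn δ (Icc 0 1)) (iδ : InjOn δ (Icc 0 1))
    (e0 : γ 0 = δ 0) (e1 : γ 1 = δ 1) (hU : γ '' Icc 0 1 ∪ δ '' Icc 0 1 = J)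
    (hI : γ '' Icc 0 1 ∩ δ '' Icc 0 1 ⊆ {δ 0, δ 1}) {u v : ℝ} (hu : 0 < u) (huv : u < v)
    (hv : v < 1) :
    ∃ Ψ : ℂ → M, ContinuousOn Ψ Sq ∧ InjOn Ψ Sq ∧ Ψ '' Sq = d ∧ Ψ '' frontier Sq = J ∧
      (∀ z ∈ SqH false, Ψ z = γ z.re) ∧ Ψ '' a3_U = δ '' Icc 0 1 ∧
      Ψ '' SqH true = δ '' Icc u v := by
  classical
  obtain ⟨k1, k2, k3, -⟩ := sq_basic
  have hm := a3_tau_maps hu huv hv
  have hi := a3_tau_inj hu huv hv
  set β : ℂ → M := fun z => if z.im = 0 then γ z.re else δ (a3_tau u v z) with hβ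
  have hH : ∀ z ∈ SqH false, z.re ∈ Icc (0 : ℝ) 1 ∧ z.im = 0 := fun z hz => by
    simpa only [SqH, mem_ofPred_eq, Bool.false_eq_true, if_false] using hz
  have b0 : ∀ z ∈ SqH false, β z = γ z.re := fun z hz => by
    simp only [hβ, (hH z hz).2, if_true]
  have b1 : ∀ z ∈ a3_U, β z = δ (a3_tau u v z) := fun z hz => by
    by_cases h0 : z.im = 0
    · simp only [hβ, h0, if_true]
      rcases a3_memU.1 hz with ⟨_, a3⟩ | ⟨a1, _⟩ | ⟨a1, _⟩
      · rw [h0] at a3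
        exact absurd a3 (by norm_num)
      · simp only [a3_tau, a1, h0, e0]
        norm_num
      · simp only [a3_tau, a1, h0, e1]
        norm_num
    · simp only [hβ, h0, if_false]
  have cβ : ContinuousOn β (frontier Sq) := by
    rw [a3_front]
    refine ContinuousOn.union_of_isClosed ?_ ?_ (a3_closedH false) a3_closedU
    · exact (cγ.comp Complex.continuous_re.continuousOn fun z hz => (hH z hz).1).congr b0
    · exact (cδ.comp (a3_tau_cont u v).continuousOn hm).congr b1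
  have i0 : β '' SqH false = γ '' Icc 0 1 := by
    apply Subset.antisymm
    · rintro _ ⟨z, hz, rfl⟩
      exact ⟨z.re, (hH z hz).1, (b0 z hz).symm⟩
    · rintro _ ⟨t, ht, rfl⟩
      have : (⟨t, 0⟩ : ℂ) ∈ SqH false := ⟨ht, rfl⟩
      exact ⟨_, this, b0 _ this⟩
  have i1 : β '' a3_U = δ '' Icc 0 1 := by
    rw [← a3_tau_surj hu huv hv, image_image]
    exact image_congr b1
  have i2 : β '' SqH true = δ '' Icc u v := by
    rw [← a3_tau_top huv, image_image]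
    exact image_congr fun z hz => b1 z (Or.inl (Or.inl hz))
  have mix : ∀ z ∈ SqH false, ∀ w ∈ a3_U, β z = β w → z = w := by
    intro z hz w hw e
    have z0 : (0 : ℂ) ∈ a3_U := a3_memU.2 (Or.inr (Or.inl ⟨rfl, le_rfl, by simp⟩))
    have z1 : (1 : ℂ) ∈ a3_U := a3_memU.2 (Or.inr (Or.inr ⟨rfl, le_rfl, by simp⟩))
    have t0 : a3_tau u v 0 = 0 := by simp [a3_tau]
    have t1 : a3_tau u v 1 = 1 := by simp [a3_tau]
    have m0 : (0 : ℝ) ∈ Icc (0 : ℝ) 1 := ⟨le_rfl, zero_le_one⟩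
    have m1 : (1 : ℝ) ∈ Icc (0 : ℝ) 1 := ⟨zero_le_one, le_rfl⟩
    have hz' : β z ∈ ({δ 0, δ 1} : Set M) :=
      hI ⟨i0.le ⟨z, hz, rfl⟩, i1.le ⟨w, hw, e.symm⟩⟩
    rcases hz' with e' | e'
    · have a1 : z.re = 0 := iγ (hH z hz).1 m0 (by rw [← b0 z hz, e', e0])
      have a2 : w = 0 := hi hw z0 (iδ (hm hw) (hm z0) (by rw [← b1 w hw, ← e, e', t0]))
      rw [a2]
      exact Complex.ext a1 (hH z hz).2
    · have a1 : z.re = 1 := iγ (hH z hz).1 m1 (by rw [← b0 z hz, e', e1])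
      have a2 : w = 1 := hi hw z1 (iδ (hm hw) (hm z1) (by rw [← b1 w hw, ← e, e', t1]))
      rw [a2]
      exact Complex.ext a1 (hH z hz).2
  have iβ : InjOn β (frontier Sq) := by
    rw [a3_front]
    rintro z (hz | hz) w (hw | hw) e
    · have a1 : z.re = w.re := iγ (hH z hz).1 (hH w hw).1 (by rw [← b0 z hz, ← b0 w hw, e])
      exact Complex.ext a1 ((hH z hz).2.trans (hH w hw).2.symm)
    · exact mix z hz w hw e
    · exact (mix w hw z hz e.symm).symm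
    · exact hi hz hw (iδ (hm hz) (hm hw) (by rw [← b1 z hz, ← b1 w hw, e]))
  have im : β '' frontier Sq = J := by rw [a3_front, image_union, i0, i1, hU]
  obtain ⟨Ψ, c1, c2, c3, c4⟩ := h.param k1 k2 k3 cβ (im ▸ iβ.bijOn_image)
  have s0 : SqH false ⊆ frontier Sq := by rw [a3_front]; exact subset_union_left
  have s1 : a3_U ⊆ frontier Sq := by rw [a3_front]; exact subset_union_right
  refine ⟨Ψ, c1, c2, c3, c4.image_eq.trans im, fun z hz => (c4 (s0 hz)).trans (b0 z hz),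
    (c4.mono s1).image_eq.trans i1, (c4.mono fun z hz => s1 (Or.inl (Or.inl hz))).image_eq.trans i2⟩

/-- The complementary arc. -/
theorem a3_compl {d J s : Set M} {a b : M} (h : Dsc d J) (hs : Arc s a b) (hJ : s ⊆ J) :
    Arc (closure (J \ s)) a b ∧ s ∩ closure (J \ s) = {a, b} ∧ s ∪ closure (J \ s) = J := by
  have key : ∀ {s : Set M} {a b : M}, Arc s a b → s ⊆ J → s ≠ J →
      Arc (closure (J \ s)) a b ∧ s ∩ closure (J \ s) = {a, b} := by
    intro s a b hs hJ hne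
    obtain ⟨c1, c2, c3, c4, c5, -⟩ := hs.basic
    obtain ⟨a', b', k1, k2, k3⟩ := h.sub_arc hJ c1.isClosed c2 ⟨a, c3, b, c4, c5⟩ hne
    have e := hs.ends_eq k1
    refine ⟨?_, k3.trans e.symm⟩
    rcases pair_eq_pair_iff.1 e with ⟨rfl, rfl⟩ | ⟨rfl, rfl⟩
    · exact k2
    · exact k2.symm
  have hne : s ≠ J := by
    rintro rfl
    obtain ⟨-, -, -, -, -, -, -, hinf, -⟩ := h.basic
    obtain ⟨x, hx, hx'⟩ := hinf.exists_notMem_finite (toFinite ({a, b} : Set M))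
    have xa : x ≠ a := fun e => hx' (Or.inl e)
    have xb : x ≠ b := fun e => hx' (Or.inr e)
    obtain ⟨e₁, e₂, k1, k2, k3, k4⟩ := hs.split hx xa xb
    have hb : b ∉ e₁ := fun hb => xb (k4.le ⟨hb, k2.basic.2.2.2.1⟩ : b = x).symm
    obtain ⟨k5, -⟩ := key k1 (k3 ▸ subset_union_left)
      fun e => hb (e ▸ hs.basic.2.2.2.1)
    have k6 : closure (s \ e₁) ⊆ e₂ := by
      refine closure_minimal ?_ k2.basic.1.isClosed
      rintro y ⟨y1, y2⟩
      exact (k3.ge y1).resolve_left y2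
    exact xa (k4.le ⟨k1.basic.2.2.1, k6 k5.basic.2.2.1⟩ : a = x).symm
  obtain ⟨k1, k2⟩ := key hs hJ hne
  refine ⟨k1, k2, Subset.antisymm (union_subset hJ (closure_minimal sdiff_subset
    h.basic.2.1.isClosed)) fun y hy => ?_⟩
  by_cases hy' : y ∈ s
  · exact Or.inl hy'
  · exact Or.inr (subset_closure ⟨hy, hy'⟩)

omit [T2Space M] in
theorem a3_subarc {δ : ℝ → M} (cδ : ContinuousOn δ (Icc 0 1)) (iδ : InjOn δ (Icc 0 1))
    {u v : ℝ} (hu : 0 ≤ u) (huv : u < v) (hv : v ≤ 1) : Arc (δ '' Icc u v) (δ u) (δ v) := by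
  have h1 : 0 < v - u := by linarith
  have hm : MapsTo (fun t => u + (v - u) * t) (Icc (0 : ℝ) 1) (Icc u v) := by
    rintro t ⟨a1, a2⟩
    constructor <;> nlinarith only [huv, a1, a2]
  have hs : Icc u v ⊆ Icc (0 : ℝ) 1 := Icc_subset_Icc hu hv
  refine ⟨fun t => δ (u + (v - u) * t), cδ.comp (by fun_prop) (hm.mono_right hs), ?_, by simp,
    by simp, ?_⟩
  · intro x hx y hy e
    have := iδ (hs (hm hx)) (hs (hm hy)) e
    have : x - y = 0 := a3_zero h1 (by linarith only [this])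
    linarith
  · apply Subset.antisymm
    · rintro _ ⟨t, ht, rfl⟩
      exact ⟨_, hm ht, rfl⟩
    · rintro _ ⟨t, ⟨a1, a2⟩, rfl⟩
      refine ⟨(t - u) / (v - u), ⟨div_nonneg (by linarith) h1.le,
        (div_le_one h1).2 (by linarith)⟩, ?_⟩
      have : u + (v - u) * ((t - u) / (v - u)) = t := by
        field_simp
        ring
      exact congrArg δ this

/-- Plan: `Dsc.sub_arc` for `s₀`; `s₁` lies in the complementary arc away from its ends, which it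
cuts into three arcs; paste the four parametrisations on the sides; `Dsc.param`. -/
theorem Dsc.square {d J : Set M} (h : Dsc d J) {s : Bool → Set M} {a b : Bool → M}
    (hs : ∀ i, Arc (s i) (a i) (b i)) (hJ : ∀ i, s i ⊆ J) (hd : Disjoint (s false) (s true)) :
    ∃ Ψ : ℂ → M, ContinuousOn Ψ Sq ∧ InjOn Ψ Sq ∧ Ψ '' Sq = d ∧ Ψ '' frontier Sq = J ∧
      ∀ i, Ψ '' SqH i = s i := by
  obtain ⟨k1, k2, k3⟩ := a3_compl h (hs false) (hJ false)
  obtain ⟨γ, cγ, iγ, g0, g1, gi⟩ := hs false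
  have k1' := k1
  obtain ⟨δ, cδ, iδ, d0, d1, di⟩ := k1'
  have hsub : s true ⊆ closure (J \ s false) := fun y hy =>
    subset_closure ⟨hJ true hy, fun hy' => disjoint_left.1 hd hy' hy⟩
  obtain ⟨-, -, a0, b0, -⟩ := (hs false).basic
  have key : ∀ {x y : M}, Arc (s true) x y → ∀ {u v : ℝ}, u ∈ Icc (0 : ℝ) 1 → v ∈ Icc (0 : ℝ) 1 →
      u < v → δ u = x → δ v = y → ∃ Ψ : ℂ → M, ContinuousOn Ψ Sq ∧ InjOn Ψ Sq ∧ Ψ '' Sq = d ∧
        Ψ '' frontier Sq = J ∧ ∀ i, Ψ '' SqH i = s i := by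
    intro x y hxy u v hu hv huv ex ey
    obtain ⟨-, -, x1, y1, -⟩ := hxy.basic
    have hu0 : 0 < u := lt_of_le_of_ne hu.1 fun e =>
      disjoint_left.1 hd a0 (by rw [← d0, e, ex]; exact x1)
    have hv1 : v < 1 := lt_of_le_of_ne hv.2 fun e =>
      disjoint_left.1 hd b0 (by rw [← d1, ← e, ey]; exact y1)
    obtain ⟨Ψ, c1, c2, c3, c4, c5, -, c7⟩ := a3_two h cγ iγ cδ iδ (g0.trans d0.symm)
      (g1.trans d1.symm) (by rw [gi, di, k3]) (by rw [gi, di, k2, d0, d1]) hu0 huv hv1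
    refine ⟨Ψ, c1, c2, c3, c4, fun i => ?_⟩
    cases i
    · rw [← gi]
      apply Subset.antisymm
      · rintro _ ⟨z, hz, rfl⟩
        exact ⟨z.re, hz.1, (c5 z hz).symm⟩
      · rintro _ ⟨t, ht, rfl⟩
        have : (⟨t, 0⟩ : ℂ) ∈ SqH false := ⟨ht, rfl⟩
        exact ⟨_, this, c5 _ this⟩
    · rw [c7]
      have := a3_subarc cδ iδ hu.1 huv hv.2
      rw [ex, ey] at this
      exact k1.sub_eq this hxy (di ▸ image_mono (Icc_subset_Icc hu.1 hv.2)) hsub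
  obtain ⟨-, -, a1, b1, hab, -⟩ := (hs true).basic
  obtain ⟨u, hu, eu⟩ := di.ge (hsub a1)
  obtain ⟨v, hv, ev⟩ := di.ge (hsub b1)
  rcases lt_trichotomy u v with huv | huv | huv
  · exact key (hs true) hu hv huv eu ev
  · exact absurd (by rw [← eu, ← ev, huv]) hab
  · exact key (hs true).symm hv hu huv ev eu

/-- Plan: parametrise `D` by the left and `d` by the right half of a rectangle (or two triangles
with a common side), with the common arc on the common side (`Dsc.sub_arc`, `Arc.ends_eq`,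
`Dsc.param`), paste, and use `dsc_convex`. -/
theorem Dsc.glue {D J d j : Set M} {a b : M} (h : Dsc D J) (h' : Dsc d j) (hs : Arc (D ∩ d) a b)
    (hJ : D ∩ d ⊆ J ∩ j) : Dsc (D ∪ d) (closure ((J ∪ j) \ (D ∩ d))) := by
  classical
  obtain ⟨⟨δ, cδ, iδ, d0, d1, di⟩, k2, k3⟩ := a3_compl h hs fun y hy => (hJ hy).1
  obtain ⟨⟨ε, cε, iε, e0, e1, ei⟩, l2, l3⟩ := a3_compl h' hs fun y hy => (hJ hy).2
  obtain ⟨γ, cγ, iγ, g0, g1, gi⟩ := hs
  obtain ⟨Ψ, c1, c2, c3, -, c5, c6, -⟩ := a3_two h cγ iγ cδ iδ (g0.trans d0.symm)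
    (g1.trans d1.symm) (by rw [gi, di, k3]) (by rw [gi, di, k2, d0, d1])
    (u := 1 / 3) (v := 2 / 3) (by norm_num) (by norm_num) (by norm_num)
  obtain ⟨Φ, f1, f2, f3, -, f5, f6, -⟩ := a3_two h' cγ iγ cε iε (g0.trans e0.symm)
    (g1.trans e1.symm) (by rw [gi, ei, l3]) (by rw [gi, ei, l2, e0, e1])
    (u := 1 / 3) (v := 2 / 3) (by norm_num) (by norm_num) (by norm_num)
  obtain ⟨r1, r2, r3, r4⟩ := a3_rect (p := -1) (by norm_num)
  set σ : ℂ → ℂ := fun z => ⟨z.re, -z.im⟩ with hσ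
  have cσ : Continuous σ := by
    have : σ = fun z => (starRingEnd ℂ) z := funext fun z => Complex.ext rfl rfl
    rw [this]
    exact Complex.continuous_conj
  have σσ : ∀ z, σ (σ z) = z := fun z => Complex.ext rfl (neg_neg _)
  set Θ : ℂ → M := fun z => if 0 ≤ z.im then Ψ z else Φ (σ z) with hΘ
  have t1 : ∀ z ∈ Sq, Θ z = Ψ z := fun z hz => by simp only [hΘ, hz.2.1, if_true]
  have t2 : ∀ z ∈ σ ⁻¹' Sq, Θ z = Φ (σ z) := fun z hz => by
    by_cases h0 : 0 ≤ z.im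
    · have a1 : 0 ≤ -z.im := hz.2.1
      have a2 : z.im = 0 := by linarith only [h0, a1]
      have a3 : σ z = z := Complex.ext rfl (by show -z.im = z.im; linarith only [h0, a1])
      have a4 : z ∈ SqH false := ⟨hz.1, a2⟩
      simp only [hΘ, h0, if_true, a3, c5 z a4, f5 z a4]
    · simp only [hΘ, h0, if_false]
  have hR : Icc (0 : ℝ) 1 ×ℂ Icc (-1 : ℝ) 1 = Sq ∪ σ ⁻¹' Sq := by
    ext z
    simp only [Complex.mem_reProdIm, Sq, hσ, mem_union, mem_preimage, mem_ofPred_eq, mem_Icc]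
    constructor
    · rintro ⟨a1, a2, a3⟩
      rcases le_total 0 z.im with a | a
      · exact Or.inl ⟨a1, a, a3⟩
      · exact Or.inr ⟨a1, by linarith only [a], by linarith⟩
    · rintro (⟨a1, a2, a3⟩ | ⟨a1, a2, a3⟩)
      · exact ⟨a1, by linarith, a3⟩
      · exact ⟨a1, by linarith, by linarith⟩
  have hF : frontier (Icc (0 : ℝ) 1 ×ℂ Icc (-1 : ℝ) 1) = a3_U ∪ σ ⁻¹' a3_U := by
    rw [r4]
    ext z
    simp only [a3_memU, hσ, mem_union, mem_preimage, mem_ofPred_eq, mem_Icc]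
    constructor
    · rintro (⟨a1, a2 | a2⟩ | ⟨a1 | a1, a2, a3⟩)
      · exact Or.inr (Or.inl ⟨a1, by linarith only [a2]⟩)
      · exact Or.inl (Or.inl ⟨a1, a2⟩)
      · rcases le_total 0 z.im with a | a
        · exact Or.inl (Or.inr (Or.inl ⟨a1, a, a3⟩))
        · exact Or.inr (Or.inr (Or.inl ⟨a1, by linarith, by linarith⟩))
      · rcases le_total 0 z.im with a | a
        · exact Or.inl (Or.inr (Or.inr ⟨a1, a, a3⟩))
        · exact Or.inr (Or.inr (Or.inr ⟨a1, by linarith, by linarith⟩))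
    · rintro ((⟨a1, a2⟩ | ⟨a1, a2, a3⟩ | ⟨a1, a2, a3⟩) | (⟨a1, a2⟩ | ⟨a1, a2, a3⟩ | ⟨a1, a2, a3⟩))
      · exact Or.inl ⟨a1, Or.inr a2⟩
      · exact Or.inr ⟨Or.inl a1, by linarith, a3⟩
      · exact Or.inr ⟨Or.inr a1, by linarith, a3⟩
      · exact Or.inl ⟨a1, Or.inl (by linarith)⟩
      · exact Or.inr ⟨Or.inl a1, by linarith, by linarith⟩
      · exact Or.inr ⟨Or.inr a1, by linarith, by linarith⟩
  have hU : a3_U ⊆ Sq := by
    intro z hz
    rcases a3_memU.1 hz with ⟨a1, a2⟩ | ⟨a1, a2⟩ | ⟨a1, a2⟩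
    · exact ⟨a1, by rw [a2]; exact ⟨zero_le_one, le_rfl⟩⟩
    · exact ⟨by rw [a1]; exact ⟨le_rfl, zero_le_one⟩, a2⟩
    · exact ⟨by rw [a1]; exact ⟨zero_le_one, le_rfl⟩, a2⟩
  have img : ∀ A ⊆ Sq, Θ '' (A ∪ σ ⁻¹' A) = Ψ '' A ∪ Φ '' A := by
    intro A hA
    rw [image_union]
    congr 1
    · exact image_congr fun z hz => t1 z (hA hz)
    · apply Subset.antisymm
      · rintro _ ⟨z, hz, rfl⟩
        exact ⟨σ z, hz, (t2 z (hA hz)).symm⟩
      · rintro _ ⟨z, hz, rfl⟩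
        have a1 : σ z ∈ σ ⁻¹' A := by rw [mem_preimage, σσ]; exact hz
        exact ⟨σ z, a1, by rw [t2 _ (hA a1), σσ]⟩
  have cΘ : ContinuousOn Θ (Sq ∪ σ ⁻¹' Sq) :=
    ContinuousOn.union_of_isClosed (c1.congr t1)
      ((f1.comp cσ.continuousOn fun z hz => hz).congr t2) sq_basic.1.isClosed
      (sq_basic.1.isClosed.preimage cσ)
  have mix : ∀ z ∈ Sq, ∀ w ∈ σ ⁻¹' Sq, Θ z = Θ w → z = w := by
    intro z hz w hw e
    rw [t1 z hz, t2 w hw] at e
    obtain ⟨t, ht, et⟩ := gi.ge ⟨c3.le ⟨z, hz, rfl⟩, f3.le ⟨σ w, hw, e.symm⟩⟩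
    have a1 : (⟨t, 0⟩ : ℂ) ∈ SqH false := ⟨ht, rfl⟩
    have a2 : (⟨t, 0⟩ : ℂ) ∈ Sq := ⟨ht, le_rfl, zero_le_one⟩
    have a3 : z = ⟨t, 0⟩ := c2 hz a2 (by rw [c5 _ a1, et])
    have a4 : σ w = ⟨t, 0⟩ := f2 hw a2 (by rw [f5 _ a1, et, e])
    rw [a3, ← σσ w, a4]
    exact Complex.ext rfl neg_zero.symm
  have iΘ : InjOn Θ (Sq ∪ σ ⁻¹' Sq) := by
    rintro z (hz | hz) w (hw | hw) e
    · exact c2 hz hw (by rw [← t1 z hz, ← t1 w hw, e])
    · exact mix z hz w hw e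
    · exact (mix w hw z hz e.symm).symm
    · have := f2 hz hw (by rw [← t2 z hz, ← t2 w hw, e])
      rw [← σσ z, this, σσ]
  have := dsc_convex r1 r2 r3 (Ψ := Θ) (hR ▸ cΘ) (hR ▸ iΘ)
  rw [hF, img _ hU, hR, img _ Subset.rfl, c3, f3, c6, f6, di, ei] at this
  rwa [union_sdiff_distrib, closure_union]

end Pool.Agent.MP_17e62b_gt.T55

end

section

/-!
Operations on cell complexes.
-/

namespace Pool.Agent.MP_17e62b_gt.T55

open Set Metric Topology
open scoped InnerProductSpace Manifold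

variable {M : Type} [TopologicalSpace M] [T2Space M]

omit [T2Space M] in
theorem Cells.empty : Nonempty (Cells (∅ : Set M)) := by
  exact ⟨⟨∅, ∅, ∅, finite_empty, finite_empty, finite_empty, by simp only [mem_empty_iff_false, inter_empty, IsEmpty.forall_iff, implies_true], by simp, by simp, by simp only [mem_empty_iff_false, false_and, exists_const, imp_false, IsEmpty.forall_iff, implies_true],
    by simp, by simp, by simp, by simp, by simp⟩⟩

omit [T2Space M] in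
theorem a4_d {A : Set M} (C : Cells A) {d : Set M × Set M} (h : d ∈ C.D) : d.1 ⊆ A ∧ d.2 ⊆ A :=
  have h1 : d.1 ⊆ A := C.cover ▸ subset_biUnion_of_mem (u := Prod.fst) h
  ⟨h1, (C.dsc d h).basic.2.2.1.trans h1⟩

omit [T2Space M] in
theorem a4_e {A : Set M} (C : Cells A) {e : Set M} (h : e ∈ C.E) : e ⊆ A := by
  obtain ⟨d, h1, h2⟩ := C.ed e h
  exact h2.trans (a4_d C h1).2

omit [T2Space M] in
theorem a4_p {A : Set M} (C : Cells A) : C.P ⊆ A := fun p h => by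
  obtain ⟨e, h1, h2⟩ := C.pe p h
  exact a4_e C h1 h2

omit [T2Space M] in
theorem Cells.compact {A : Set M} (C : Cells A) : IsCompact A := by
  exact C.cover ▸ C.finD.isCompact_biUnion fun d h => (C.dsc d h).basic.1

theorem Cells.map {X : Type} [TopologicalSpace X] {A : Set X} (C : Cells A) {Ψ : X → M}
    (hc : ContinuousOn Ψ A) (hi : InjOn Ψ A) :
    ∃ C' : Cells (Ψ '' A), C'.P = Ψ '' C.P ∧ C'.E = (fun e => Ψ '' e) '' C.E ∧
      C'.D = (fun d => (Ψ '' d.1, Ψ '' d.2)) '' C.D := by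
  refine ⟨⟨Ψ '' C.P, (fun e => Ψ '' e) '' C.E, (fun d => (Ψ '' d.1, Ψ '' d.2)) '' C.D,
    C.finP.image _, C.finE.image _, C.finD.image _, ?_, ?_, ?_, ?_, ?_, ?_, ?_, ?_, ?_⟩,
    rfl, rfl, rfl⟩
  · rintro _ ⟨e, he, rfl⟩
    obtain ⟨a, b, ⟨γ, g1, g2, g3, g4, g5⟩, h⟩ := C.arc e he
    have m : MapsTo γ (Icc 0 1) A := fun t ht => a4_e C he (g5 ▸ mem_image_of_mem γ ht)
    refine ⟨Ψ a, Ψ b, ⟨Ψ ∘ γ, hc.comp g1 m, hi.comp g2 m, congrArg Ψ g3, congrArg Ψ g4, ?_⟩, ?_⟩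
    · rw [image_comp, g5]
    · rw [← hi.image_inter (a4_e C he) (a4_p C), h, image_pair]
  · rintro _ ⟨e, he, rfl⟩ _ ⟨e', he', rfl⟩ h
    rw [← hi.image_inter (a4_e C he) (a4_e C he')]
    exact image_mono (C.ee e he e' he' fun q => h (q ▸ rfl))
  · rintro _ ⟨d, hd, rfl⟩
    obtain ⟨γ, g1, g2, g3, g4⟩ := C.dsc d hd
    have m : MapsTo γ (closedBall 0 1) A := fun t ht => (a4_d C hd).1 (g3 ▸ mem_image_of_mem γ ht)
    exact ⟨Ψ ∘ γ, hc.comp g1 m, hi.comp g2 m, by rw [image_comp, g3], by rw [image_comp, g4]⟩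
  · rintro _ ⟨d, hd, rfl⟩ _ ⟨x, hx, rfl⟩
    obtain ⟨e, he, h1, h2⟩ := C.bdy d hd x hx
    exact ⟨_, mem_image_of_mem _ he, mem_image_of_mem _ h1, image_mono h2⟩
  · rintro _ ⟨d, hd, rfl⟩ _ ⟨e, he, rfl⟩
    rw [← hi.image_inter (a4_d C hd).1 (a4_e C he)]
    exact image_mono (C.de d hd e he)
  · rintro _ ⟨d, hd, rfl⟩ _ ⟨d', hd', rfl⟩ h
    rw [← hi.image_inter (a4_d C hd).1 (a4_d C hd').1]
    exact image_mono (C.dd d hd d' hd' fun q => h (q ▸ rfl))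
  · rintro _ ⟨p, hp, rfl⟩
    obtain ⟨e, he, h⟩ := C.pe p hp
    exact ⟨_, mem_image_of_mem _ he, mem_image_of_mem _ h⟩
  · rintro _ ⟨e, he, rfl⟩
    obtain ⟨d, hd, h⟩ := C.ed e he
    exact ⟨_, mem_image_of_mem _ hd, image_mono h⟩
  · rw [biUnion_image, ← image_iUnion₂, C.cover]

omit [T2Space M] in
theorem Cells.sub {A : Set M} (C : Cells A) {D' : Set (Set M × Set M)} (h : D' ⊆ C.D) :
    ∃ C' : Cells (⋃ d ∈ D', d.1), C'.D = D' ∧ C'.E = {e ∈ C.E | ∃ d ∈ D', e ⊆ d.2} ∧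
      C'.P = {p ∈ C.P | ∃ d ∈ D', p ∈ d.2} := by
  refine ⟨⟨{p ∈ C.P | ∃ d ∈ D', p ∈ d.2}, {e ∈ C.E | ∃ d ∈ D', e ⊆ d.2}, D',
    C.finP.subset (sep_subset _ _), C.finE.subset (sep_subset _ _), C.finD.subset h, ?_, ?_,
    fun d hd => C.dsc d (h hd), ?_, fun d hd e he => C.de d (h hd) e he.1,
    fun d hd d' hd' => C.dd d (h hd) d' (h hd'), ?_, fun e he => he.2, rfl⟩, rfl, rfl, rfl⟩
  · rintro e ⟨he, d, hd, h1⟩
    obtain ⟨a, b, h2, h3⟩ := C.arc e he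
    exact ⟨a, b, h2, h3 ▸ Subset.antisymm (fun x hx => ⟨hx.1, hx.2.1⟩)
      fun x hx => ⟨hx.1, hx.2, d, hd, h1 hx.1⟩⟩
  · rintro e ⟨he, d, hd, h1⟩ e' he' q x hx
    exact ⟨C.ee e he e' he'.1 q hx, d, hd, h1 hx.1⟩
  · intro d hd x hx
    obtain ⟨e, he, h1, h2⟩ := C.bdy d (h hd) x hx
    exact ⟨e, ⟨he, d, hd, h2⟩, h1, h2⟩
  · rintro p ⟨-, d, hd, hx⟩
    obtain ⟨e, he, h1, h2⟩ := C.bdy d (h hd) p hx
    exact ⟨e, ⟨he, d, hd, h2⟩, h1⟩

omit [T2Space M] in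
theorem a4_glue {ι : Type} [Finite ι] {A : ι → Set M} (C : ∀ i, Cells (A i))
    (h : ∀ i j, i ≠ j → ∀ x ∈ A i ∩ A j,
      x ∈ (C i).P ∩ (C j).P ∨ ∃ e ∈ (C i).E ∩ (C j).E, x ∈ e)
    (h₁ : ∀ i j, (C i).P ∩ A j ⊆ (C j).P) {B : Set M} (hB : ⋃ i, A i = B) :
    ∃ C' : Cells B, C'.P = ⋃ i, (C i).P ∧ C'.E = ⋃ i, (C i).E ∧ C'.D = ⋃ i, (C i).D := by
  have key : ∀ {i j}, i ≠ j → ∀ d ∈ (C i).D, d.1 ∩ A j ⊆ d.2 := fun {i j} q d hd x hx => by
    obtain p | ⟨e, he, p⟩ := h i j q x ⟨(a4_d _ hd).1 hx.1, hx.2⟩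
    · obtain ⟨e, he, p⟩ := (C i).pe x p.1
      exact (C i).de d hd e he ⟨hx.1, p⟩
    · exact (C i).de d hd e he.1 ⟨hx.1, p⟩
  have fa : ∀ {X : Type} {s : ι → Set X} {p : X → Prop}, (∀ x ∈ ⋃ i, s i, p x) ↔
      ∀ i, ∀ x ∈ s i, p x := ⟨fun h i x hx => h x (mem_iUnion.2 ⟨i, hx⟩), fun h x hx =>
    (mem_iUnion.1 hx).elim fun i hi => h i x hi⟩
  refine ⟨⟨⋃ i, (C i).P, ⋃ i, (C i).E, ⋃ i, (C i).D, finite_iUnion fun i => (C i).finP,
    finite_iUnion fun i => (C i).finE, finite_iUnion fun i => (C i).finD, ?_, ?_, ?_, ?_, ?_, ?_,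
    ?_, ?_, by rw [biUnion_iUnion, ← hB]; exact iUnion_congr fun i => (C i).cover⟩, rfl, rfl,
    rfl⟩ <;> simp only [fa]
  · intro i e he
    obtain ⟨a, b, h2, h3⟩ := (C i).arc e he
    refine ⟨a, b, h2, h3 ▸ Subset.antisymm (fun x hx => ⟨hx.1, ?_⟩)
      fun x hx => ⟨hx.1, mem_iUnion.2 ⟨i, hx.2⟩⟩⟩
    obtain ⟨j, hj⟩ := mem_iUnion.1 hx.2
    exact h₁ j i ⟨hj, a4_e _ he hx.1⟩
  · intro i e he j e' he' q x hx
    refine mem_iUnion.2 ?_
    by_cases r : i = j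
    · subst r
      exact ⟨i, (C i).ee e he e' he' q hx⟩
    obtain p | ⟨f, hf, p⟩ := h i j r x ⟨a4_e _ he hx.1, a4_e _ he' hx.2⟩
    · exact ⟨i, p.1⟩
    by_cases s : e = f
    · exact ⟨j, (C j).ee e (s ▸ hf.2) e' he' q hx⟩
    · exact ⟨i, (C i).ee e he f hf.1 s ⟨hx.1, p⟩⟩
  · exact fun i => (C i).dsc
  · intro i d hd x hx
    obtain ⟨e, he, p⟩ := (C i).bdy d hd x hx
    exact ⟨e, mem_iUnion.2 ⟨i, he⟩, p⟩
  · intro i d hd j e he
    by_cases r : i = j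
    · subst r
      exact (C i).de d hd e he
    · exact (inter_subset_inter_right _ (a4_e _ he)).trans (key r d hd)
  · intro i d hd j d' hd' q
    by_cases r : i = j
    · subst r
      exact (C i).dd d hd d' hd' q
    · exact (inter_subset_inter_right _ (a4_d _ hd').1).trans (key r d hd)
  · intro i p hp
    obtain ⟨e, he, p⟩ := (C i).pe p hp
    exact ⟨e, mem_iUnion.2 ⟨i, he⟩, p⟩
  · intro i e he
    obtain ⟨d, hd, p⟩ := (C i).ed e he
    exact ⟨d, mem_iUnion.2 ⟨i, hd⟩, p⟩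

omit [T2Space M] in
theorem Cells.glue {A₁ A₂ : Set M} (C₁ : Cells A₁) (C₂ : Cells A₂)
    (h : ∀ x ∈ A₁ ∩ A₂, x ∈ C₁.P ∩ C₂.P ∨ ∃ e ∈ C₁.E ∩ C₂.E, x ∈ e)
    (h₁ : C₁.P ∩ A₂ ⊆ C₂.P) (h₂ : C₂.P ∩ A₁ ⊆ C₁.P) :
    ∃ C : Cells (A₁ ∪ A₂), C.P = C₁.P ∪ C₂.P ∧ C.E = C₁.E ∪ C₂.E ∧ C.D = C₁.D ∪ C₂.D := by
  obtain ⟨C, p1, p2, p3⟩ := a4_glue (ι := Bool) (A := fun b => cond b A₁ A₂)
    (fun b => match b with
      | true => C₁
      | false => C₂) (B := A₁ ∪ A₂) (by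
      rintro (_ | _) (_ | _) q x hx
      · exact absurd rfl q
      · exact (h x hx.symm).imp And.symm fun ⟨e, he, p⟩ => ⟨e, he.symm, p⟩
      · exact h x hx
      · exact absurd rfl q) (by
      rintro (_ | _) (_ | _)
      exacts [inter_subset_left, h₂, h₁, inter_subset_left]) (union_eq_iUnion).symm
  refine ⟨C, p1.trans ?_, p2.trans ?_, p3.trans ?_⟩ <;> ext x <;>
    simp only [mem_iUnion, Bool.exists_bool, mem_union, or_comm]

omit [T2Space M] in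
/-- The union of finitely many complexes. -/
theorem Cells.iglue {ι : Type} [Finite ι] {A : ι → Set M} (C : ∀ i, Cells (A i))
    (h : ∀ i j, i ≠ j → ∀ x ∈ A i ∩ A j,
      x ∈ (C i).P ∩ (C j).P ∨ ∃ e ∈ (C i).E ∩ (C j).E, x ∈ e)
    (h₁ : ∀ i j, (C i).P ∩ A j ⊆ (C j).P) :
    ∃ C' : Cells (⋃ i, A i), C'.P = ⋃ i, (C i).P ∧ C'.E = ⋃ i, (C i).E ∧
      C'.D = ⋃ i, (C i).D := by
  exact a4_glue C h h₁ rfl

theorem a4_arc {A : Set M} (C : Cells A) {s : Set M} {a b : M} (hs : Arc s a b)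
    (h : ∀ x ∈ s, ∃ e ∈ C.E, x ∈ e) (hP : s ∩ C.P = {a, b}) : s ∈ C.E := by
  obtain ⟨-, -, ha, hb, hab, hc, hcl⟩ := hs.basic
  obtain ⟨x, hx⟩ := closure_nonempty_iff.1 ⟨a, hcl ha⟩
  obtain ⟨e, he, hxe⟩ := h x hx.1
  have cl : ∀ f ∈ C.E, IsClosed f := fun f hf => by
    obtain ⟨a, b, h, -⟩ := C.arc f hf
    exact h.basic.1.isClosed
  have dj : ∀ y ∈ s \ {a, b}, y ∈ e → y ∉ ⋃ f ∈ C.E \ {e}, f := fun y hy h1 h2 => by
    obtain ⟨f, hf, h3⟩ := mem_iUnion₂.1 h2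
    exact hy.2 (hP ▸ ⟨hy.1, C.ee f hf.1 e he hf.2 ⟨h3, h1⟩⟩)
  have h1 : s ⊆ e := hcl.trans (closure_minimal
    ((isPreconnected_iff_subset_of_disjoint_closed.1 hc e _ (cl e he)
      ((C.finE.subset sdiff_subset).isClosed_biUnion fun f hf => cl f hf.1) (fun y hy => by
        obtain ⟨f, hf, h3⟩ := h y hy.1
        by_cases q : f = e
        · exact Or.inl (q ▸ h3)
        · exact Or.inr (mem_iUnion₂.2 ⟨f, ⟨hf, q⟩, h3⟩))
      (eq_empty_of_forall_notMem fun y hy => dj y hy.1 hy.2.1 hy.2.2)).resolve_right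
        fun q => dj x hx hxe (q hx)) (cl e he))
  obtain ⟨a', b', h2, h3⟩ := C.arc e he
  have h4 : ∀ y ∈ ({a, b} : Set M), y ∈ ({a', b'} : Set M) := fun y hy => by
    rw [← hP] at hy
    exact h3 ▸ ⟨h1 hy.1, hy.2⟩
  have h5 : Arc e a b := by
    obtain rfl | rfl := h4 a (Or.inl rfl) <;> obtain rfl | rfl := h4 b (Or.inr rfl)
    exacts [absurd rfl hab, h2, h2.symm, absurd rfl hab]
  exact h2.sub_eq hs h5 h1 Subset.rfl ▸ he

omit [T2Space M] in
theorem a4_step {A : Set M} (C : Cells A) {z : M} (h : ∃ e ∈ C.E, z ∈ e) :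
    ∃ C' : Cells A, C'.P = insert z C.P ∧ C'.D = C.D ∧ (∀ e' ∈ C'.E, ∃ e ∈ C.E, e' ⊆ e) ∧
      ∀ e ∈ C.E, ∀ x ∈ e, ∃ e' ∈ C'.E, x ∈ e' ∧ e' ⊆ e := by
  by_cases hz : z ∈ C.P
  · exact ⟨C, (insert_eq_of_mem hz).symm, rfl, fun e he => ⟨e, he, Subset.rfl⟩,
      fun e he x hx => ⟨e, he, hx, Subset.rfl⟩⟩
  obtain ⟨f, hf, hzf⟩ := h
  obtain ⟨a, b, h1, h2⟩ := C.arc f hf
  have ha : a ∈ f ∩ C.P := h2 ▸ Or.inl rfl
  have hb : b ∈ f ∩ C.P := h2 ▸ Or.inr rfl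
  obtain ⟨e₁, e₂, g1, g2, g3, g4⟩ := h1.split hzf (fun q => hz (q ▸ ha.2)) fun q => hz (q ▸ hb.2)
  have s1 : e₁ ⊆ f := g3 ▸ subset_union_left
  have s2 : e₂ ⊆ f := g3 ▸ subset_union_right
  have k1 : ∀ e' ∈ insert e₁ (insert e₂ (C.E \ {f})), ∃ e ∈ C.E, e' ⊆ e := by
    rintro e (rfl | rfl | he)
    exacts [⟨f, hf, s1⟩, ⟨f, hf, s2⟩, ⟨e, he.1, Subset.rfl⟩]
  have k2 : ∀ e ∈ C.E, ∀ x ∈ e, ∃ e' ∈ insert e₁ (insert e₂ (C.E \ {f})), x ∈ e' ∧ e' ⊆ e :=
    fun e he x hx => by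
      by_cases q : e = f
      · subst q
        obtain p | p : x ∈ e₁ ∪ e₂ := g3 ▸ hx
        exacts [⟨e₁, Or.inl rfl, p, s1⟩, ⟨e₂, Or.inr (Or.inl rfl), p, s2⟩]
      · exact ⟨e, Or.inr (Or.inr ⟨he, q⟩), hx, Subset.rfl⟩
  have k3 : ∀ e ∈ C.E \ {f}, e ∩ f ⊆ insert z C.P := fun e he =>
    (C.ee e he.1 f hf he.2).trans (subset_insert _ _)
  have k4 : e₁ ∩ e₂ ⊆ insert z C.P := g4 ▸ singleton_subset_iff.2 (mem_insert _ _)
  have k5 : ∀ {x}, x ∈ e₁ → x ∈ e₂ → x ∉ C.P := fun p q r =>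
    hz (mem_singleton_iff.1 (g4.subset ⟨p, q⟩) ▸ r)
  refine ⟨⟨insert z C.P, insert e₁ (insert e₂ (C.E \ {f})), C.D, C.finP.insert _,
    ((C.finE.subset sdiff_subset).insert _).insert _, C.finD, ?_, ?_, C.dsc, fun d hd x hx => ?_,
    fun d hd e he => ?_, C.dd, ?_, fun e he => ?_, C.cover⟩, rfl, rfl, k1, k2⟩
  · rintro e (rfl | rfl | he)
    · refine ⟨a, z, g1, Subset.antisymm ?_ ?_⟩
      · rintro x ⟨p, rfl | q⟩
        · exact Or.inr rfl
        · obtain rfl | rfl : x ∈ ({a, b} : Set M) := h2 ▸ ⟨s1 p, q⟩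
          exacts [Or.inl rfl, absurd q (k5 p g2.basic.2.2.2.1)]
      · rintro x (rfl | rfl)
        exacts [⟨g1.basic.2.2.1, Or.inr ha.2⟩, ⟨g1.basic.2.2.2.1, Or.inl rfl⟩]
    · refine ⟨z, b, g2, Subset.antisymm ?_ ?_⟩
      · rintro x ⟨p, rfl | q⟩
        · exact Or.inl rfl
        · obtain rfl | rfl : x ∈ ({a, b} : Set M) := h2 ▸ ⟨s2 p, q⟩
          exacts [absurd q (k5 g1.basic.2.2.1 p), Or.inr rfl]
      · rintro x (rfl | rfl)
        exacts [⟨g2.basic.2.2.1, Or.inl rfl⟩, ⟨g2.basic.2.2.2.1, Or.inr hb.2⟩]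
    · obtain ⟨a', b', p, q⟩ := C.arc e he.1
      exact ⟨a', b', p, by
        rw [inter_insert_of_notMem fun r => hz (C.ee e he.1 f hf he.2 ⟨r, hzf⟩), q]⟩
  · rintro e (rfl | rfl | he) e' (rfl | rfl | he') q
    · exact absurd rfl q
    · exact k4
    · exact fun x hx => k3 e' he' ⟨hx.2, s1 hx.1⟩
    · exact fun x hx => k4 hx.symm
    · exact absurd rfl q
    · exact fun x hx => k3 e' he' ⟨hx.2, s2 hx.1⟩
    · exact fun x hx => k3 e he ⟨hx.1, s1 hx.2⟩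
    · exact fun x hx => k3 e he ⟨hx.1, s2 hx.2⟩
    · exact (C.ee e he.1 e' he'.1 q).trans (subset_insert _ _)
  · obtain ⟨e, he, p, q⟩ := C.bdy d hd x hx
    obtain ⟨e', he', r, s⟩ := k2 e he x p
    exact ⟨e', he', r, s.trans q⟩
  · obtain ⟨e', he', p⟩ := k1 e he
    exact (inter_subset_inter_right _ p).trans (C.de d hd e' he')
  · rintro p (rfl | hp)
    · exact ⟨e₁, Or.inl rfl, g1.basic.2.2.2.1⟩
    · obtain ⟨e, he, q⟩ := C.pe p hp
      obtain ⟨e', he', r, -⟩ := k2 e he p q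
      exact ⟨e', he', r⟩
  · obtain ⟨e', he', p⟩ := k1 e he
    obtain ⟨d, hd, q⟩ := C.ed e' he'
    exact ⟨d, hd, p.trans q⟩

/-- Subdivision of edges. Plan: add one point at a time with `Arc.split`; the last clause from
`Arc.sub_eq` or by connectedness of the open arc. -/
theorem Cells.subdiv {A : Set M} (C : Cells A) {Z : Set M} (hZ : Z.Finite)
    (h : ∀ z ∈ Z, ∃ e ∈ C.E, z ∈ e) :
    ∃ C' : Cells A, C'.P = C.P ∪ Z ∧ C'.D = C.D ∧ (∀ e' ∈ C'.E, ∃ e ∈ C.E, e' ⊆ e) ∧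
      (∀ e ∈ C.E, ∀ x ∈ e, ∃ e' ∈ C'.E, x ∈ e' ∧ e' ⊆ e) ∧
      ∀ e ∈ C.E, ∀ s a b, Arc s a b → s ⊆ e → s ∩ C'.P = {a, b} → s ∈ C'.E := by
  suffices H : ∃ C' : Cells A, C'.P = C.P ∪ Z ∧ C'.D = C.D ∧ (∀ e' ∈ C'.E, ∃ e ∈ C.E, e' ⊆ e) ∧
      ∀ e ∈ C.E, ∀ x ∈ e, ∃ e' ∈ C'.E, x ∈ e' ∧ e' ⊆ e by
    obtain ⟨C', p1, p2, p3, p4⟩ := H
    refine ⟨C', p1, p2, p3, p4, fun e he s a b hs h1 h2 => a4_arc C' hs (fun x hx => ?_) h2⟩
    obtain ⟨e', he', r, -⟩ := p4 e he x (h1 hx)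
    exact ⟨e', he', r⟩
  induction Z, hZ using Set.Finite.induction_on with
  | empty => exact ⟨C, (union_empty _).symm, rfl, fun e he => ⟨e, he, Subset.rfl⟩,
      fun e he x hx => ⟨e, he, hx, Subset.rfl⟩⟩
  | @insert z Z _ _ ih =>
    obtain ⟨C', p1, p2, p3, p4⟩ := ih fun y hy => h y (Or.inr hy)
    obtain ⟨e, he, hz⟩ := h z (Or.inl rfl)
    obtain ⟨e', he', r, -⟩ := p4 e he z hz
    obtain ⟨C'', q1, q2, q3, q4⟩ := a4_step C' ⟨e', he', r⟩
    refine ⟨C'', by rw [q1, p1, union_insert], q2.trans p2, fun f hf => ?_, fun f hf x hx => ?_⟩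
    · obtain ⟨g, hg, s⟩ := q3 f hf
      obtain ⟨g', hg', s'⟩ := p3 g hg
      exact ⟨g', hg', s.trans s'⟩
    · obtain ⟨g, hg, s, t⟩ := p4 f hf x hx
      obtain ⟨g', hg', s', t'⟩ := q4 g hg x s
      exact ⟨g', hg', s', t'.trans t⟩

omit [T2Space M] in
/-- One disc whose boundary is covered by arcs. -/
theorem Cells.one {d J P : Set M} {E : Set (Set M)} (h : Dsc d J) (hP : P.Finite) (hE : E.Finite)
    (arc : ∀ e ∈ E, ∃ a b, Arc e a b ∧ e ∩ P = {a, b})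
    (ee : ∀ e ∈ E, ∀ e' ∈ E, e ≠ e' → e ∩ e' ⊆ P) (hJ : ⋃₀ E = J) (hPJ : P ⊆ J) :
    ∃ C : Cells d, C.P = P ∧ C.E = E ∧ C.D = {(d, J)} := by
  have k : ∀ e ∈ E, e ⊆ J := fun e he => hJ ▸ subset_sUnion_of_mem he
  refine ⟨⟨P, E, {(d, J)}, hP, hE, finite_singleton _, arc, ee, ?_, ?_, ?_, ?_,
    fun p hp => (hJ ▸ hPJ hp : p ∈ ⋃₀ E), fun e he => ⟨_, rfl, k e he⟩, biUnion_singleton _ _⟩,
    rfl, rfl, rfl⟩
  · rintro _ rfl
    exact h
  · rintro _ rfl x hx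
    obtain ⟨e, he, p⟩ : x ∈ ⋃₀ E := hJ ▸ hx
    exact ⟨e, he, p, k e he⟩
  · rintro _ rfl e he
    exact inter_subset_right.trans (k e he)
  · rintro _ rfl _ rfl q
    exact absurd rfl q

end Pool.Agent.MP_17e62b_gt.T55

end

section

/-!
The triangulation by flags of a cell complex.
-/

namespace Pool.Agent.MP_17e62b_gt.T55

open Set Metric Topology
open scoped InnerProductSpace Manifold

variable {M : Type} [TopologicalSpace M] [T2Space M]

theorem a5_inv {F : Type} [TopologicalSpace F] [Nonempty F] {K : Set F} (hK : IsCompact K)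
    {Ψ : F → M} (hc : ContinuousOn Ψ K) (hi : InjOn Ψ K) :
    ContinuousOn (Function.invFunOn Ψ K) (Ψ '' K) := by
  refine continuousOn_iff_isClosed.2 fun t ht => ⟨Ψ '' (K ∩ t),
    ((hK.inter_right ht).image_of_continuousOn (hc.mono inter_subset_left)).isClosed, ?_⟩
  ext x
  constructor
  · rintro ⟨h, z, hz, rfl⟩
    rw [mem_preimage, hi.leftInvOn_invFunOn hz] at h
    exact ⟨⟨z, ⟨hz, h⟩, rfl⟩, z, hz, rfl⟩
  · rintro ⟨⟨z, hz, rfl⟩, h⟩
    exact ⟨by rw [mem_preimage, hi.leftInvOn_invFunOn hz.1]; exact hz.2, h⟩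

theorem a5_unit {F : Type} [NormedAddCommGroup F] [NormedSpace ℝ F] {z : F} (hz : z ≠ 0) :
    ‖z‖⁻¹ • z ∈ sphere (0 : F) 1 := by
  rw [mem_sphere_zero_iff_norm, norm_smul, norm_inv, norm_norm,
    inv_mul_cancel₀ (norm_ne_zero_iff.2 hz)]

theorem a5_rad {F W : Type} [NormedAddCommGroup F] [NormedSpace ℝ F] [ProperSpace F]
    [NormedAddCommGroup W] [NormedSpace ℝ W] {g : F → W} (hg : ContinuousOn g (sphere 0 1)) :
    Continuous fun z : F => ‖z‖ • g (‖z‖⁻¹ • z) := by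
  obtain ⟨B, hB⟩ := (isCompact_sphere (0 : F) 1).exists_bound_of_continuousOn hg
  refine continuous_iff_continuousAt.2 fun z => ?_
  by_cases hz : z = 0
  · subst hz
    rw [ContinuousAt, norm_zero, zero_smul]
    refine squeeze_zero_norm (a := fun z => ‖z‖ * B) (fun z => ?_)
      (by simpa only [norm_zero, zero_mul] using (continuous_norm.mul_const B).tendsto (0 : F))
    by_cases h : z = 0
    · simp [h]
    · rw [norm_smul, norm_norm]
      exact mul_le_mul_of_nonneg_left (hB _ (a5_unit h)) (norm_nonneg _)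
  · refine ContinuousOn.continuousAt (s := {0}ᶜ) ?_ (isOpen_compl_singleton.mem_nhds hz)
    exact continuous_norm.continuousOn.smul (hg.comp ((continuous_norm.continuousOn.inv₀
      fun w hw => norm_ne_zero_iff.2 hw).smul continuousOn_id) fun w hw => a5_unit hw)

/-- coordinates on a closed set extend over finitely many attached cones -/
theorem a5_cone (F : Type) [NormedAddCommGroup F] [NormedSpace ℝ F] [ProperSpace F] [Nontrivial F]
    {V ι : Type} [Fintype V] [DecidableEq V] [Finite ι] {X : Set M} (hX : IsClosed X)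
    {μ : M → V → ℝ} (hc : ContinuousOn μ X) (hi : InjOn μ X) {c b : ι → Set M}
    (par : ∀ i, ∃ Ψ : F → M, ContinuousOn Ψ (closedBall 0 1) ∧ InjOn Ψ (closedBall 0 1) ∧
      Ψ '' closedBall 0 1 = c i ∧ Ψ '' sphere 0 1 = b i)
    (hb : ∀ i, b i ⊆ X) (hcX : ∀ i, c i ∩ X ⊆ b i) (hcc : ∀ i j, i ≠ j → c i ∩ c j ⊆ b i)
    {δ : ι → V} (hδ : Function.Injective δ) (h0 : ∀ i, ∀ x ∈ X, μ x (δ i) = 0) :
    ∃ lam : M → V → ℝ, IsClosed (X ∪ ⋃ i, c i) ∧ ContinuousOn lam (X ∪ ⋃ i, c i) ∧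
      InjOn lam (X ∪ ⋃ i, c i) ∧ EqOn lam μ X ∧ ∀ i w, w ∈ lam '' c i ↔
        ∃ y ∈ b i, ∃ ρ ∈ Icc (0 : ℝ) 1, w = (1 - ρ) • Pi.single (δ i) (1 : ℝ) + ρ • μ y := by
  classical
  choose Ψ Ψc Ψi Ψd Ψs using par
  have hcl : ∀ i, IsClosed (c i) := fun i =>
    Ψd i ▸ ((isCompact_closedBall 0 1).image_of_continuousOn (Ψc i)).isClosed
  set G : ι → F → V → ℝ := fun i z =>
    (1 - ‖z‖) • Pi.single (δ i) (1 : ℝ) + ‖z‖ • μ (Ψ i (‖z‖⁻¹ • z)) with hG
  have hsX : ∀ i, ∀ z ∈ sphere (0 : F) 1, Ψ i z ∈ X := fun i z hz => hb i (Ψs i ▸ ⟨z, hz, rfl⟩)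
  have Gc : ∀ i, Continuous (G i) := fun i =>
    ((continuous_const.sub continuous_norm).smul continuous_const).add
      (a5_rad (g := fun z => μ (Ψ i z)) (hc.comp ((Ψc i).mono sphere_subset_closedBall) (hsX i)))
  have Gs : ∀ i, ∀ z ∈ closedBall (0 : F) 1, Ψ i z ∈ X → ‖z‖ = 1 := fun i z hz h => by
    obtain ⟨w, hw, e⟩ : Ψ i z ∈ Ψ i '' sphere 0 1 := Ψs i ▸ hcX i ⟨Ψd i ▸ ⟨z, hz, rfl⟩, h⟩
    rw [← Ψi i (sphere_subset_closedBall hw) hz e]
    exact mem_sphere_zero_iff_norm.1 hw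
  have Gd : ∀ i j z, G i z (δ j) = if j = i then 1 - ‖z‖ else 0 := fun i j z => by
    have : ‖z‖ * μ (Ψ i (‖z‖⁻¹ • z)) (δ j) = 0 := by
      by_cases h : z = 0
      · simp [h]
      · rw [h0 j _ (hsX i _ (a5_unit h)), mul_zero]
    simp [hG, this, Pi.single_apply, hδ.eq_iff]
  set lam : M → V → ℝ := fun x => if x ∈ X then μ x else if h : ∃ i, x ∈ c i then
    G h.choose (Function.invFunOn (Ψ h.choose) (closedBall 0 1) x) else 0 with hlam
  have hμ : EqOn lam μ X := fun x hx => if_pos hx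
  have hl : ∀ i, ∀ z ∈ closedBall (0 : F) 1, lam (Ψ i z) = G i z := fun i z hz => by
    have hz' : Ψ i z ∈ c i := Ψd i ▸ ⟨z, hz, rfl⟩
    by_cases h : Ψ i z ∈ X
    · simp [hμ h, hG, Gs i z hz h]
    · have h' : ∃ j, Ψ i z ∈ c j := ⟨i, hz'⟩
      have e : h'.choose = i := by_contra fun e => h (hb _ (hcc _ _ e ⟨h'.choose_spec, hz'⟩))
      rw [hlam]
      simp only [if_neg h, dif_pos h', e, (Ψi i).leftInvOn_invFunOn hz]
  have hin : ∀ x ∈ X ∪ ⋃ i, c i, x ∉ X → ∃ i, ∃ z ∈ closedBall (0 : F) 1, Ψ i z = x ∧ ‖z‖ ≠ 1 := by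
    rintro x (h | h) hx
    · exact absurd h hx
    · obtain ⟨i, h⟩ := mem_iUnion.1 h
      obtain ⟨z, hz, rfl⟩ : x ∈ Ψ i '' closedBall 0 1 := Ψd i ▸ h
      exact ⟨i, z, hz, rfl, fun e => hx (hsX i z (mem_sphere_zero_iff_norm.2 e))⟩
  have hne : ∀ x ∈ X ∪ ⋃ i, c i, x ∉ X → ∀ x' ∈ X, lam x ≠ lam x' := fun x hx h x' h' e => by
    obtain ⟨i, z, hz, rfl, h1⟩ := hin x hx h
    have := congrFun e (δ i)
    rw [hl i z hz, Gd, if_pos rfl, hμ h', h0 i _ h', sub_eq_zero] at this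
    exact h1 this.symm
  refine ⟨lam, hX.union (isClosed_iUnion_of_finite hcl), (hc.congr hμ).union_of_isClosed
    ((locallyFinite_of_finite c).continuousOn_iUnion hcl fun i => ?_) hX
    (isClosed_iUnion_of_finite hcl), fun x hx x' hx' e => ?_, hμ, fun i w => ?_⟩
  · rw [← Ψd i]
    refine ((Gc i).comp_continuousOn (a5_inv (isCompact_closedBall 0 1) (Ψc i) (Ψi i))).congr ?_
    rintro _ ⟨z, hz, rfl⟩
    rw [hl i z hz, Function.comp_apply, (Ψi i).leftInvOn_invFunOn hz]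
  · by_cases h : x ∈ X <;> by_cases h' : x' ∈ X
    · exact hi h h' (by rwa [hμ h, hμ h'] at e)
    · exact absurd e.symm (hne x' hx' h' x h)
    · exact absurd e (hne x hx h x' h')
    obtain ⟨i, z, hz, rfl, h1⟩ := hin x hx h
    obtain ⟨j, z', hz', rfl, -⟩ := hin x' hx' h'
    rw [hl i z hz, hl j z' hz'] at e
    have h2 := congrFun e (δ i)
    rw [Gd, Gd, if_pos rfl] at h2
    obtain rfl : i = j := by_contra fun h3 => h1 (by rw [if_neg h3, sub_eq_zero] at h2; exact h2.symm)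
    rw [if_pos rfl, sub_right_inj] at h2
    by_cases h4 : z = 0
    · rw [h4, norm_zero, eq_comm, norm_eq_zero] at h2
      rw [h4, h2]
    · have h5 : z' ≠ 0 := norm_ne_zero_iff.1 (h2 ▸ norm_ne_zero_iff.2 h4)
      have h6 := Ψi i (sphere_subset_closedBall (a5_unit h4)) (sphere_subset_closedBall (a5_unit h5))
        (hi (hsX i _ (a5_unit h4)) (hsX i _ (a5_unit h5)) (by
          simp only [hG, ← h2, add_right_inj] at e ⊢
          exact smul_right_injective _ (norm_ne_zero_iff.2 h4) e))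
      rw [← h2] at h6
      rw [smul_right_injective _ (inv_ne_zero (norm_ne_zero_iff.2 h4)) h6]
  · rw [← Ψd i, ← Ψs i]
    constructor
    · rintro ⟨_, ⟨z, hz, rfl⟩, rfl⟩
      rw [hl i z hz]
      by_cases h : z = 0
      · obtain ⟨u, hu⟩ := NormedSpace.sphere_nonempty (E := F) (x := 0) (r := 1) |>.2 zero_le_one
        exact ⟨_, ⟨u, hu, rfl⟩, 0, ⟨le_rfl, zero_le_one⟩, by simp [hG, h]⟩
      · exact ⟨_, ⟨_, a5_unit h, rfl⟩, ‖z‖, ⟨norm_nonneg _, mem_closedBall_zero_iff.1 hz⟩, rfl⟩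
    · rintro ⟨_, ⟨u, hu, rfl⟩, ρ, hρ, rfl⟩
      have h1 : ‖ρ • u‖ = ρ := by
        rw [norm_smul, mem_sphere_zero_iff_norm.1 hu, mul_one, Real.norm_of_nonneg hρ.1]
      have h2 : ρ • u ∈ closedBall (0 : F) 1 := mem_closedBall_zero_iff.2 (h1.symm ▸ hρ.2)
      refine ⟨_, ⟨_, h2, rfl⟩, ?_⟩
      rw [hl i _ h2]
      simp only [hG, h1]
      by_cases h : ρ = 0
      · simp only [h, sub_zero, one_smul, inv_zero, zero_smul, smul_zero, add_zero]
      · rw [inv_smul_smul₀ h]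

omit [T2Space M] in
theorem a5_arc {e : Set M} {a b : M} (h : Arc e a b) : ∃ Ψ : ℝ → M,
    ContinuousOn Ψ (closedBall 0 1) ∧ InjOn Ψ (closedBall 0 1) ∧ Ψ '' closedBall 0 1 = e ∧
      Ψ '' sphere 0 1 = {a, b} := by
  obtain ⟨γ, h1, h2, rfl, rfl, rfl⟩ := h
  have hm : MapsTo (fun t : ℝ => (t + 1) / 2) (closedBall 0 1) (Icc 0 1) := fun t ht => by
    have := abs_le.1 (mem_closedBall_zero_iff.1 ht)
    constructor <;> linarith only [this.1, this.2]
  refine ⟨fun t => γ ((t + 1) / 2), h1.comp (by fun_prop) hm, fun t ht t' ht' e => by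
    linarith [h2 (hm ht) (hm ht') e], Subset.antisymm ?_ ?_, ?_⟩
  · rintro _ ⟨t, ht, rfl⟩
    exact ⟨_, hm ht, rfl⟩
  · rintro _ ⟨t, ht, rfl⟩
    exact ⟨2 * t - 1, mem_closedBall_zero_iff.2 (abs_le.2 ⟨by linarith [ht.1], by linarith [ht.2]⟩),
      congrArg γ (by ring)⟩
  · rw [Real.sphere_eq_pair _ zero_le_one, image_pair]
    norm_num

/-- Plan: vertices are the cells (points, edges, discs are different sets). On an edge with
parameter `γ` the coordinates are `1 - 2s, 2s` and `2 - 2s, 2s - 1`; this defines a continuous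
injective `μ` on the union of the edges. On a disc with parameter `Ψ`, the point `Ψ z` gets
`(1 - ‖z‖) • single d + ‖z‖ • μ (Ψ (z / ‖z‖))`. Continuity on a finite union of closed sets. -/
theorem Cells.tri {A : Set M} (C : Cells A) :
    ∃ (K : Tri A) (c : K.V → Set M), Function.Injective c ∧
      range c = (fun p => {p}) '' C.P ∪ C.E ∪ Prod.fst '' C.D ∧
      (∀ t, t ∈ K.T ↔ ∃ u v w, t = {u, v, w} ∧ (∃ p ∈ C.P, c u = {p}) ∧ c v ∈ C.E ∧
        (∃ d ∈ C.D, c w = d.1) ∧ c u ⊆ c v ∧ c v ⊆ c w) ∧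
      (∀ v p, c v = {p} → K.pt v = p) ∧
      ∀ t ∈ K.T, ∀ w ∈ t, (∃ d ∈ C.D, c w = d.1) → K.face t ⊆ c w := by
  classical
  set S : Set (Set M) := (fun p => {p}) '' C.P ∪ C.E ∪ Prod.fst '' C.D with hS
  have fS : S.Finite := ((C.finP.image _).union C.finE).union (C.finD.image _)
  let : Fintype S := fS.fintype
  have := C.finE.to_subtype
  have := C.finD.to_subtype
  have dJ : ∀ d ∈ C.D, d.2 ⊆ d.1 ∧ ¬ d.1 ⊆ d.2 ∧ d.2.Infinite := fun d hd =>
    have h := (C.dsc d hd).basic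
    ⟨h.2.2.1, fun h' => h.2.2.2.2.2.2.1.elim fun _ hx => hx.2 (h' hx.1), h.2.2.2.2.2.2.2.1⟩
  have pE : ∀ p, ∀ e ∈ C.E, e ≠ {p} := fun p e he h => by
    obtain ⟨a, b, h1, -⟩ := C.arc e he
    obtain ⟨-, -, ha, hb, hab, -⟩ := h1.basic
    rw [h] at ha hb
    exact hab (ha.trans hb.symm)
  have pD : ∀ p, ∀ d ∈ C.D, d.1 ≠ {p} := fun p d hd h =>
    (dJ d hd).2.2 ((finite_singleton p).subset (h ▸ (dJ d hd).1))
  have eD : ∀ e ∈ C.E, ∀ d ∈ C.D, d.1 ≠ e := fun e he d hd h =>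
    (dJ d hd).2.1 fun x hx => C.de d hd e he ⟨hx, h ▸ hx⟩
  have DD : ∀ d ∈ C.D, ∀ d' ∈ C.D, d.1 = d'.1 → d = d' := fun d hd d' hd' h => by_contra fun h' =>
    (dJ d hd).2.1 fun x hx => C.dd d hd d' hd' h' ⟨hx, h ▸ hx⟩
  have eP : ∀ e ∈ C.E, ∃ p ∈ C.P, p ∈ e := fun e he => by
    obtain ⟨a, b, -, h⟩ := C.arc e he
    have : a ∈ e ∩ C.P := h ▸ mem_insert _ _
    exact ⟨a, this.2, this.1⟩
  set μ : M → S → ℝ := fun x v => if v.1 = {x} then 1 else 0 with hμ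
  have μs : ∀ (u : S) p, u.1 = {p} → μ p = Pi.single u 1 := fun u p h => by
    funext v
    simp only [hμ, Pi.single_apply, ← h, Subtype.val_inj]
  obtain ⟨l₁, c₁, k₁, i₁, e₁, s₁⟩ := a5_cone ℝ (ι := C.E) C.finP.isClosed (C.finP.continuousOn μ)
    (fun x hx y _ h => by
      have := congrFun h ⟨{x}, Or.inl (Or.inl ⟨x, hx, rfl⟩)⟩
      simpa [hμ] using this)
    (c := fun e => e.1) (b := fun e => e.1 ∩ C.P)
    (fun e => by
      obtain ⟨a, b, h1, h2⟩ := C.arc e.1 e.2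
      exact h2 ▸ a5_arc h1)
    (fun _ => inter_subset_right) (fun _ => Subset.rfl)
    (fun e e' h x hx => ⟨hx.1, C.ee _ e.2 _ e'.2 (Subtype.val_injective.ne h) hx⟩)
    (δ := fun e => ⟨e.1, Or.inl (Or.inr e.2)⟩)
    (fun e e' h => Subtype.ext (congrArg (fun z : S => z.1) h)) fun e x _ => if_neg (pE x _ e.2)
  have hX : ∀ x ∈ C.P ∪ ⋃ e : C.E, e.1, ∃ e ∈ C.E, x ∈ e := by
    rintro x (h | h)
    · exact C.pe x h
    · obtain ⟨e, h⟩ := mem_iUnion.1 h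
      exact ⟨e.1, e.2, h⟩
  obtain ⟨l, -, k₂, i₂, e₂, s₂⟩ := a5_cone ℂ (ι := C.D) c₁ k₁ i₁ (c := fun d => d.1.1)
    (b := fun d => d.1.2) (fun d => C.dsc d.1 d.2)
    (fun d x hx => by
      obtain ⟨e, he, h, -⟩ := C.bdy _ d.2 x hx
      exact Or.inr (mem_iUnion.2 ⟨⟨e, he⟩, h⟩))
    (fun d x hx => by
      obtain ⟨e, he, h⟩ := hX x hx.2
      exact C.de _ d.2 e he ⟨hx.1, h⟩)
    (fun d d' h => C.dd _ d.2 _ d'.2 (Subtype.val_injective.ne h))
    (δ := fun d => ⟨d.1.1, Or.inr ⟨_, d.2, rfl⟩⟩)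
    (fun d d' h => Subtype.ext (DD _ d.2 _ d'.2 (congrArg Subtype.val h))) fun d x hx => by
      obtain ⟨e, he, h⟩ := hX x hx
      obtain ⟨y, -, ρ, -, h'⟩ := (s₁ ⟨e, he⟩ _).1 ⟨x, h, rfl⟩
      simp [h', hμ, Subtype.ext_iff, eD e he _ d.2, pD y _ d.2]
  have hdA : ∀ d ∈ C.D, d.1 ⊆ A := fun d hd => C.cover ▸ subset_biUnion_of_mem (u := Prod.fst) hd
  have hAd : ∀ x ∈ A, ∃ d ∈ C.D, x ∈ d.1 := fun x hx => by
    rw [← C.cover] at hx
    simpa only [mem_iUnion, exists_prop] using hx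
  have hA : A ⊆ (C.P ∪ ⋃ e : C.E, e.1) ∪ ⋃ d : C.D, d.1.1 := fun x hx => by
    obtain ⟨d, hd, h⟩ := hAd x hx
    exact Or.inr (mem_iUnion.2 ⟨⟨d, hd⟩, h⟩)
  set Fl : S → S → S → Prop := fun u v w => (∃ p ∈ C.P, u.1 = {p}) ∧ v.1 ∈ C.E ∧
    (∃ d ∈ C.D, w.1 = d.1) ∧ u.1 ⊆ v.1 ∧ v.1 ⊆ w.1 with hFl
  have hne : ∀ u v w, Fl u v w → u ≠ v ∧ u ≠ w ∧ v ≠ w := by
    rintro u v w ⟨⟨p, -, hp⟩, hv, ⟨d, hd, hw⟩, -⟩
    exact ⟨fun h => pE p _ hv (h ▸ hp), fun h => pD p d hd (hw ▸ h ▸ hp),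
      fun h => eD _ hv d hd (hw ▸ h ▸ rfl)⟩
  have onto : ∀ u v w, Fl u v w → ∀ y ∈ stdSimplex ℝ S, (∀ z, z ∉ ({u, v, w} : Finset S) → y z = 0) →
      ∃ x ∈ w.1, x ∈ A ∧ l x = y := by
    intro u v w hF y hy h0
    obtain ⟨n1, n2, n3⟩ := hne u v w hF
    obtain ⟨⟨p, hp, hu⟩, hv, ⟨d, hd, hw⟩, huv, hvw⟩ := hF
    have h1 : y u + (y v + y w) = 1 := by
      rw [← hy.2, ← Finset.sum_subset (Finset.subset_univ {u, v, w}) fun z _ hz => h0 z hz,
        Finset.sum_insert (by simp [n1, n2]), Finset.sum_pair n3]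
    have a1 := hy.1 u
    have a2 := hy.1 v
    have a3 := hy.1 w
    obtain ⟨s, hs, es⟩ : ∃ s ∈ Icc (0 : ℝ) 1, (1 - y w) * s = y u := by
      by_cases h : 1 - y w = 0
      · exact ⟨0, ⟨le_rfl, zero_le_one⟩, by linarith only [h1, a1, a2, h]⟩
      · have h' : 0 < 1 - y w := lt_of_le_of_ne (by linarith only [h1, a1, a2]) (Ne.symm h)
        exact ⟨y u / (1 - y w), ⟨by positivity, (div_le_one h').2 (by linarith only [h1, a2])⟩, by field_simp⟩
    obtain ⟨x, hx, ex⟩ := (s₁ ⟨v.1, hv⟩ _).2 ⟨p, ⟨huv (hu ▸ rfl), hp⟩, s, hs, rfl⟩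
    obtain ⟨x', hx', ex'⟩ := (s₂ ⟨d, hd⟩ _).2 ⟨x, C.de d hd _ hv ⟨hw ▸ hvw hx, hx⟩, 1 - y w,
      ⟨by linarith only [h1, a1, a2], by linarith⟩, rfl⟩
    refine ⟨x', hw ▸ hx', hdA d hd hx', ?_⟩
    rw [ex', ex, μs u p hu, show (⟨d.1, Or.inr ⟨_, hd, rfl⟩⟩ : S) = w from Subtype.ext hw.symm]
    funext z
    simp only [Pi.add_apply, Pi.smul_apply, Pi.single_apply, smul_eq_mul]
    by_cases z1 : z = u
    · simp only [z1, n1, n2, if_true, if_false]
      linarith only [es]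
    by_cases z2 : z = v
    · simp only [z2, n1.symm, n3, if_true, if_false]
      linarith only [h1, es]
    by_cases z3 : z = w
    · simp only [z3, n2.symm, n3.symm, if_true, if_false]
      linarith only []
    simp [z1, z2, z3, h0 z]
  have into : ∀ x ∈ A, l x ∈ stdSimplex ℝ S ∧ ∃ u v w, Fl u v w ∧
      ∀ z, z ∉ ({u, v, w} : Finset S) → l x z = 0 := by
    intro x hx
    obtain ⟨d, hd, h⟩ := hAd x hx
    obtain ⟨y, hy, ρ, hρ, h1⟩ := (s₂ ⟨d, hd⟩ _).1 ⟨x, h, rfl⟩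
    obtain ⟨e, he, h2, h3⟩ := C.bdy d hd y hy
    obtain ⟨p, hp, s, hs, h4⟩ := (s₁ ⟨e, he⟩ _).1 ⟨y, h2, rfl⟩
    rw [h1, h4, μs ⟨{p}, Or.inl (Or.inl ⟨p, hp.2, rfl⟩)⟩ p rfl]
    refine ⟨convex_stdSimplex ℝ S (single_mem_stdSimplex ℝ _) (convex_stdSimplex ℝ S
      (single_mem_stdSimplex ℝ _) (single_mem_stdSimplex ℝ _) (sub_nonneg.2 hs.2) hs.1
      (sub_add_cancel _ _)) (sub_nonneg.2 hρ.2) hρ.1 (sub_add_cancel _ _),
      ⟨{p}, Or.inl (Or.inl ⟨p, hp.2, rfl⟩)⟩, ⟨e, Or.inl (Or.inr he)⟩, ⟨d.1, Or.inr ⟨_, hd, rfl⟩⟩,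
      ⟨⟨p, hp.2, rfl⟩, he, ⟨d, hd, rfl⟩, singleton_subset_iff.2 hp.1, h3.trans (dJ d hd).1⟩,
      fun z hz => ?_⟩
    simp only [Finset.mem_insert, Finset.mem_singleton, not_or] at hz
    simp [hz.1, hz.2.1, hz.2.2]
  have flag : ∀ p ∈ C.P, ∀ e ∈ C.E, ∀ d ∈ C.D, p ∈ e → e ⊆ d.2 → ∀ z : S,
      z.1 = {p} ∨ z.1 = e ∨ z.1 = d.1 → ∃ u v w, Fl u v w ∧ z ∈ ({u, v, w} : Finset S) :=
    fun p hp e he d hd h1 h2 z hz => ⟨⟨{p}, Or.inl (Or.inl ⟨p, hp, rfl⟩)⟩, ⟨e, Or.inl (Or.inr he)⟩,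
      ⟨d.1, Or.inr ⟨_, hd, rfl⟩⟩, ⟨⟨p, hp, rfl⟩, he, ⟨d, hd, rfl⟩, singleton_subset_iff.2 h1,
        h2.trans (dJ d hd).1⟩, by simpa [Subtype.ext_iff] using hz⟩
  have used : ∀ z : S, ∃ u v w, Fl u v w ∧ z ∈ ({u, v, w} : Finset S) := by
    intro z
    rcases z.2 with (⟨p, hp, h⟩ | he) | ⟨d, hd, h⟩
    · obtain ⟨e, he, h1⟩ := C.pe p hp
      obtain ⟨d, hd, h2⟩ := C.ed e he
      exact flag p hp e he d hd h1 h2 z (Or.inl h.symm)
    · obtain ⟨p, hp, h1⟩ := eP _ he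
      obtain ⟨d, hd, h2⟩ := C.ed _ he
      exact flag p hp _ he d hd h1 h2 z (Or.inr (Or.inl rfl))
    · obtain ⟨x, hx⟩ := (dJ d hd).2.2.nonempty
      obtain ⟨e, he, -, h2⟩ := C.bdy d hd x hx
      obtain ⟨p, hp, h1⟩ := eP _ he
      exact flag p hp e he d hd h1 h2 z (Or.inr (Or.inr h.symm))
  have hpt : ∀ z : S, ∃ x ∈ A, l x = Pi.single z 1 := fun z => by
    obtain ⟨u, v, w, hF, hz⟩ := used z
    obtain ⟨x, -, hx⟩ := onto u v w hF _ (single_mem_stdSimplex ℝ z) fun z' h =>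
      Pi.single_eq_of_ne (fun e : z' = z => h (e ▸ hz)) _
    exact ⟨x, hx⟩
  choose pt pA pl using hpt
  have hT : ∀ t, t ∈ Finset.univ.filter (fun t : Finset S => ∃ u v w, t = {u, v, w} ∧ Fl u v w) ↔
      ∃ u v w, t = {u, v, w} ∧ Fl u v w := fun t => by simp only [Subtype.exists, Finset.mem_filter, Finset.mem_univ, true_and]
  refine ⟨⟨S, Finset.univ.filter fun t => ∃ u v w, t = {u, v, w} ∧ Fl u v w, fun t ht => ?_,
    fun z => ?_, l, pt, k₂.mono hA, i₂.mono hA, ?_, pA, pl⟩, Subtype.val, Subtype.val_injective,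
    Subtype.range_coe, hT, fun v p hv => ?_, fun t ht w hw hd x hx => ?_⟩
  · obtain ⟨u, v, w, rfl, hF⟩ := (hT t).1 ht
    exact Finset.card_eq_three.2 ⟨u, v, w, (hne u v w hF).1, (hne u v w hF).2.1,
      (hne u v w hF).2.2, rfl⟩
  · obtain ⟨u, v, w, hF, hz⟩ := used z
    exact ⟨_, (hT _).2 ⟨u, v, w, rfl, hF⟩, hz⟩
  · ext y
    constructor
    · rintro ⟨x, hx, rfl⟩
      obtain ⟨h1, u, v, w, hF, h2⟩ := into x hx
      exact ⟨h1, _, (hT _).2 ⟨u, v, w, rfl, hF⟩, h2⟩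
    · rintro ⟨h1, t, ht, h2⟩
      obtain ⟨u, v, w, rfl, hF⟩ := (hT t).1 ht
      obtain ⟨x, -, hx⟩ := onto u v w hF y h1 h2
      exact ⟨x, hx⟩
  · have hp : p ∈ C.P := by
      rcases v.2 with (⟨q, hq, h⟩ | he) | ⟨d, hd, h⟩
      · exact singleton_injective (h.trans hv) ▸ hq
      · exact absurd hv (pE p _ he)
      · exact absurd (h.trans hv) (pD p d hd)
    exact i₂ (hA (pA v)) (Or.inl (Or.inl hp))
      (by rw [pl, e₂ (Or.inl hp), e₁ hp, μs v p hv])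
  · obtain ⟨u, v, w', rfl, hF⟩ := (hT t).1 ht
    obtain ⟨x', h1, h2, h3⟩ := onto u v w' hF _ (into x hx.1).1 hx.2
    obtain ⟨d, hd, e⟩ := hd
    obtain ⟨⟨p, -, hp⟩, hv, -⟩ := hF
    rcases Finset.mem_insert.1 hw with h | h
    · exact absurd (e.symm.trans (h ▸ hp)) (pD p d hd)
    rcases Finset.mem_insert.1 h with h | h
    · exact absurd e.symm (eD _ (h ▸ hv) d hd)
    · rw [Finset.mem_singleton.1 h, ← i₂ (hA h2) (hA hx.1) h3]
      exact h1

end Pool.Agent.MP_17e62b_gt.T55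

end

section

/-!
The cells of an arrangement of lines in a convex polygon.
-/

namespace Pool.Agent.MP_17e62b_gt.T55

open Set Metric Topology
open scoped InnerProductSpace Manifold

theorem a11_sub (l : ℂ × ℝ) (x y : ℂ) : (l.1 * (y - x)).re = af l y - af l x := by
  simp only [af, mul_sub, Complex.sub_re]
  ring

theorem a11_add (l : ℂ × ℝ) (x v : ℂ) (t : ℝ) : af l (x + t • v) = af l x + t * (l.1 * v).re := by
  simp only [af, mul_add, mul_smul_comm, Complex.add_re, Complex.smul_re, smul_eq_mul]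
  ring

theorem a11_cont (l : ℂ × ℝ) : Continuous (af l) := by
  unfold af
  fun_prop

theorem a11_zero {v : ℂ} {r : ℝ} (hv : v ≠ 0) (h1 : r * v.re = 0) (h2 : r * v.im = 0) : r = 0 := by
  by_contra h
  exact hv (Complex.ext ((mul_eq_zero.1 h1).resolve_left h) ((mul_eq_zero.1 h2).resolve_left h))

theorem a11_two {c c' v : ℂ} (hv : v ≠ 0) (h : (c * v).re = 0) (h' : (c' * v).re = 0) :
    (c * (starRingEnd ℂ) c').im = 0 := by
  simp only [Complex.mul_re, Complex.mul_im, Complex.conj_re, Complex.conj_im] at *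
  exact a11_zero hv (by linear_combination c.im * h' - c'.im * h)
    (by linear_combination c.re * h' - c'.re * h)

theorem a11_par {c c' v : ℂ} (hc : c' ≠ 0) (h : (c * (starRingEnd ℂ) c').im = 0)
    (h' : (c' * v).re = 0) : (c * v).re = 0 := by
  simp only [Complex.mul_re, Complex.mul_im, Complex.conj_re, Complex.conj_im] at *
  exact a11_zero hc (by linear_combination c.re * h' - v.im * h)
    (by linear_combination c.im * h' - v.re * h)

theorem a11_col {c v w : ℂ} (hc : c ≠ 0) (hv : v ≠ 0) (h : (c * v).re = 0) (h' : (c * w).re = 0) :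
    ∃ t : ℝ, w = t • v := by
  have h1 := a11_two hc (mul_comm c w ▸ h') (mul_comm c v ▸ h)
  have h2 : v.re * v.re + v.im * v.im ≠ 0 := (Complex.normSq_pos.2 hv).ne'
  simp only [Complex.mul_im, Complex.conj_re, Complex.conj_im] at h1
  refine ⟨(w.re * v.re + w.im * v.im) / (v.re * v.re + v.im * v.im), Complex.ext ?_ ?_⟩
  · rw [Complex.smul_re, smul_eq_mul, div_mul_eq_mul_div, eq_div_iff h2]
    linear_combination -v.im * h1
  · rw [Complex.smul_im, smul_eq_mul, div_mul_eq_mul_div, eq_div_iff h2]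
    linear_combination v.re * h1

theorem a11_move {l : ℂ × ℝ} (hl : l.1 ≠ 0) {w : ℂ} (hw : af l w = 0) {c : ℝ} (hc : c ≠ 0) :
    w ∈ closure {y | c * af l y < 0} := by
  have h1 : Filter.Tendsto (fun t : ℝ => w + t • ((-c) • (starRingEnd ℂ) l.1)) (𝓝[>] 0) (𝓝 w) :=
    (Continuous.tendsto' (by fun_prop) 0 w (by simp)).mono_left nhdsWithin_le_nhds
  refine mem_closure_of_tendsto h1 (eventually_nhdsWithin_of_forall fun t ht => ?_)
  have h2 := mul_pos (mul_pos ht (mul_self_pos.2 hc)) (Complex.normSq_pos.2 hl)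
  rw [mem_ofPred_eq, a11_add, hw, mul_smul_comm, Complex.mul_conj, Complex.smul_re,
    Complex.ofReal_re, smul_eq_mul]
  linarith

theorem a11_convex {L : Finset (ℂ × ℝ)} (c : ℂ × ℝ → ℝ) :
    Convex ℝ {w | ∀ l ∈ L, 0 ≤ c l * af l w} := by
  refine convex_iff_add_mem.2 fun x hx y hy a b ha hb hab l hl => ?_
  have e : a • x + b • y = x + b • (y - x) := by
    rw [show a = 1 - b by linarith, sub_smul, one_smul, smul_sub]
    abel
  rw [e, a11_add, a11_sub]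
  have h1 := mul_nonneg ha (hx l hl)
  have h2 := mul_nonneg hb (hy l hl)
  rw [show a = 1 - b by linarith] at h1
  linarith

theorem a11_frontier {L : Finset (ℂ × ℝ)} (hL : ∀ l ∈ L, l.1 ≠ 0) {c : ℂ × ℝ → ℝ}
    (hc : ∀ l ∈ L, c l ≠ 0) : IsClosed {w | ∀ l ∈ L, 0 ≤ c l * af l w} ∧
      frontier {w | ∀ l ∈ L, 0 ≤ c l * af l w} =
        {w ∈ {w | ∀ l ∈ L, 0 ≤ c l * af l w} | ∃ l ∈ L, af l w = 0} := by
  have h1 : IsClosed {w | ∀ l ∈ L, 0 ≤ c l * af l w} := by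
    simp only [ofPred_forall]
    exact isClosed_iInter fun l => isClosed_iInter fun _ =>
      isClosed_le continuous_const (continuous_const.mul (a11_cont l))
  refine ⟨h1, ?_⟩
  rw [h1.frontier_eq]
  ext w
  refine and_congr_right fun hw => ⟨fun h => ?_, fun ⟨l, hl, e⟩ h => ?_⟩
  · by_contra h2
    push Not at h2
    refine h (mem_interior_iff_mem_nhds.2 ((Filter.eventually_all_finset L).2 fun l hl => ?_))
    exact ((continuous_const.mul (a11_cont l)).tendsto w).eventually_const_le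
      ((hw l hl).lt_of_ne (mul_ne_zero (hc l hl) (h2 l hl)).symm)
  · obtain ⟨y, h3, h4⟩ := mem_closure_iff_nhds.1 (a11_move (hL l hl) e (hc l hl)) _
      (mem_interior_iff_mem_nhds.1 h)
    exact (h3 l hl).not_gt h4

theorem a11_sign {c x y : ℝ} (h : 0 ≤ c * x) (h1 : 0 ≤ x * y) (h2 : x = 0 → y = 0) : 0 ≤ c * y := by
  rcases eq_or_ne x 0 with h0 | h0
  · rw [h2 h0, mul_zero]
  · refine nonneg_of_mul_nonneg_left ?_ (mul_self_pos.2 h0)
    linarith [mul_nonneg h h1]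

theorem a11_acc {J V : Set ℂ} (hJ : IsPreconnected J) (hn : J.Nontrivial) (hV : V.Finite) :
    J ⊆ closure (J \ V) := fun x hx => by
  refine mem_closure_iff_nhds.2 fun U hU => ?_
  have h1 : (V \ {x})ᶜ ∈ 𝓝 x := (hV.subset sdiff_subset).isClosed.isOpen_compl.mem_nhds (by simp)
  obtain ⟨y, ⟨⟨h2, h3⟩, h4⟩, h5⟩ := accPt_iff_nhds.1 (hJ.preperfect_of_nontrivial hn x hx) _
    (Filter.inter_mem hU h1)
  exact ⟨y, h2, h4, fun h => h3 ⟨h, h5⟩⟩

section

variable {L L₀ : Finset (ℂ × ℝ)} {Q : Set ℂ}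

theorem a11_finP : (vert L Q).Finite := by
  refine Finite.subset (L.finite_toSet.biUnion fun l _ => L.finite_toSet.biUnion fun l' _ =>
    (?_ : {z | af l z = 0 ∧ af l' z = 0 ∧ (l.1 * (starRingEnd ℂ) l'.1).im ≠ 0}.Finite)) ?_
  · refine Subsingleton.finite fun x hx y hy => ?_
    by_contra h
    exact hx.2.2 (a11_two (sub_ne_zero.2 h) (by rw [a11_sub, hx.1, hy.1, sub_self])
      (by rw [a11_sub, hx.2.1, hy.2.1, sub_self]))
  · rintro z ⟨-, l, hl, l', hl', h⟩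
    exact mem_biUnion hl (mem_biUnion hl' h)

theorem a11_vert {a v : ℂ} (ha : a ∈ vert L Q) (hv : v ≠ 0) :
    ∃ l ∈ L, af l a = 0 ∧ (l.1 * v).re ≠ 0 := by
  obtain ⟨-, l, hl, l', hl', h1, h2, h3⟩ := ha
  by_contra h
  push Not at h
  exact h3 (a11_two hv (h l hl h1) (h l' hl' h2))

/-- An edge is the set of points with the weak signs of an inner point. -/
theorem a11_face (hL : ∀ l ∈ L, l.1 ≠ 0) (hQ : Convex ℝ Q) {a b x : ℂ} (h : Nbr L Q a b)
    (hx : x ∈ openSegment ℝ a b) (y : ℂ) :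
    y ∈ segment ℝ a b ↔ ∀ l ∈ L, 0 ≤ af l x * af l y ∧ (af l x = 0 → af l y = 0) := by
  obtain ⟨ha, hb, hab, ⟨l₀, hl₀, h1, h2⟩, hd⟩ := h
  have hv := sub_ne_zero.2 hab.symm
  have h0 : (l₀.1 * (b - a)).re = 0 := by rw [a11_sub, h1, h2, sub_self]
  have key : ∀ u ∈ Ioo (0 : ℝ) 1, ∀ l ∈ L, af l a + u * (l.1 * (b - a)).re = 0 →
      (l.1 * (b - a)).re = 0 := fun u hu l hl e => by
    have h3 : a + u • (b - a) ∈ openSegment ℝ a b := by
      rw [openSegment_eq_image']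
      exact ⟨u, hu, rfl⟩
    by_contra h4
    exact disjoint_left.1 hd h3 ⟨hQ.openSegment_subset ha.1 hb.1 h3, l, hl, l₀, hl₀,
      by rw [a11_add, e], by rw [a11_add, h1, h0, mul_zero, add_zero],
      fun h5 => h4 (a11_par (hL l₀ hl₀) h5 h0)⟩
  rw [openSegment_eq_image'] at hx
  obtain ⟨s, hs, rfl⟩ := hx
  rw [segment_eq_image']
  constructor
  · rintro ⟨t, ht, rfl⟩ l hl
    simp only [a11_add]
    have k := fun u hu => key u hu l hl
    generalize af l a = α at k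
    generalize (l.1 * (b - a)).re = β at k
    refine ⟨?_, fun e => ?_⟩
    · by_contra h3
      push Not at h3
      have h4 : β ≠ 0 := by
        rintro rfl
        linarith only [mul_self_nonneg α, h3]
      obtain ⟨u, rfl⟩ : ∃ u, α = -(u * β) := ⟨-α / β, by field_simp⟩
      have h5 : (s - u) * (t - u) < 0 := by
        by_contra h5
        linarith only [mul_nonneg (not_lt.1 h5) (mul_self_nonneg β), h3]
      refine h4 (k u ⟨?_, ?_⟩ (by ring)) <;> by_contra h6 <;> push Not at h6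
      · linarith only [mul_nonneg (by linarith [hs.1] : 0 ≤ s - u) (by linarith [ht.1] : 0 ≤ t - u), h5]
      · linarith only [mul_nonneg (by linarith [hs.2] : 0 ≤ u - s) (by linarith [ht.2] : 0 ≤ u - t), h5]
    · have h3 := k s hs e
      rwa [h3, mul_zero] at e ⊢
  · intro h
    obtain ⟨t, ht⟩ := a11_col (hL l₀ hl₀) hv h0 (w := y - a) (by
      rw [a11_sub, h1, (h l₀ hl₀).2 (by simp only [a11_add, h1, h0, mul_zero, add_zero]), sub_self])
    obtain rfl : y = a + t • (b - a) := by rw [← ht, add_sub_cancel]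
    refine ⟨t, ⟨?_, ?_⟩, rfl⟩
    · obtain ⟨l, hl, h3, h4⟩ := a11_vert ha hv
      have h5 := (h l hl).1
      simp only [a11_add, h3, zero_add] at h5
      refine nonneg_of_mul_nonneg_left ?_ (mul_pos hs.1 (mul_self_pos.2 h4))
      linarith
    · obtain ⟨l, hl, h3, h4⟩ := a11_vert hb hv
      have h5 := (h l hl).1
      have h6 : af l a = -(l.1 * (b - a)).re := by rw [a11_sub, h3, zero_sub, neg_neg]
      simp only [a11_add, h6] at h5
      refine sub_nonneg.1 (nonneg_of_mul_nonneg_left ?_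
        (mul_pos (sub_pos.2 hs.2) (mul_self_pos.2 h4)))
      linarith

/-- The first vertex on a ray inside a line. -/
theorem a11_ray (h0 : L₀ ⊆ L) (hL : ∀ l ∈ L, l.1 ≠ 0) (hQ : Q = {z | ∀ l ∈ L₀, 0 ≤ af l z})
    (hc : IsCompact Q) {x v : ℂ} (hx : x ∈ Q) (hV : x ∉ vert L Q) {l₀ : ℂ × ℝ} (hl₀ : l₀ ∈ L)
    (h1 : af l₀ x = 0) (hv : v ≠ 0) (h2 : (l₀.1 * v).re = 0) :
    ∃ t : ℝ, 0 < t ∧ x + t • v ∈ vert L Q ∧ ∀ s, 0 ≤ s → s < t → x + s • v ∉ vert L Q := by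
  classical
  have h3 : ∀ l ∈ L, af l x = 0 → (l.1 * v).re = 0 := fun l hl e => by
    by_contra h
    exact hV ⟨hx, l, hl, l₀, hl₀, e, h1, fun h' => h (a11_par (hL l₀ hl₀) h' h2)⟩
  have hx' : ∀ l ∈ L₀, 0 ≤ af l x := by rwa [hQ] at hx
  have h4 : (L.filter fun l => af l x * (l.1 * v).re < 0).Nonempty := by
    by_contra h
    simp only [Finset.filter_nonempty_iff, not_exists, not_and, not_lt] at h
    obtain ⟨R, hR⟩ := hc.isBounded.subset_closedBall x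
    have hn := norm_pos_iff.2 hv
    have h5 : 0 ≤ (|R| + 1) / ‖v‖ := by positivity
    have h6 : x + ((|R| + 1) / ‖v‖) • v ∈ Q := by
      rw [hQ]
      intro l hl
      rw [a11_add]
      refine add_nonneg (hx' l hl) (mul_nonneg h5 ?_)
      simpa only [one_mul] using a11_sign (c := 1) (by linarith only [hx' l hl]) (h l (h0 hl))
        (h3 l (h0 hl))
    have h7 := hR h6
    rw [mem_closedBall, dist_self_add_left, norm_smul, Real.norm_of_nonneg h5,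
      div_mul_cancel₀ _ hn.ne'] at h7
    linarith only [le_abs_self R, h7]
  obtain ⟨l₁, hl₁, hm⟩ := Finset.exists_min_image _ (fun l => -af l x / (l.1 * v).re) h4
  obtain ⟨hl₁, h5⟩ := Finset.mem_filter.1 hl₁
  have h6 : (l₁.1 * v).re ≠ 0 := fun e => by simp [e] at h5
  have h7 : 0 < -af l₁ x / (l₁.1 * v).re := by
    rw [← mul_div_mul_right _ _ h6]
    exact div_pos (by linarith) (mul_self_pos.2 h6)
  have h8 : af l₁ (x + (-af l₁ x / (l₁.1 * v).re) • v) = 0 := by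
    rw [a11_add, div_mul_cancel₀ _ h6, add_neg_cancel]
  generalize -af l₁ x / (l₁.1 * v).re = t at hm h7 h8
  have h9 : ∀ l ∈ L, af l x ≠ 0 → ∀ s, 0 ≤ s → (s ≤ t → 0 ≤ af l x * af l (x + s • v)) ∧
      (s < t → 0 < af l x * af l (x + s • v)) := fun l hl e s hs => by
    rw [a11_add, mul_add, mul_left_comm]
    have e1 := mul_self_pos.2 e
    rcases le_or_gt 0 (af l x * (l.1 * v).re) with h | h
    · constructor <;> intro <;> linarith [mul_nonneg hs h]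
    · have e2 := hm l (Finset.mem_filter.2 ⟨hl, h⟩)
      rw [← mul_div_mul_left _ _ e, le_div_iff_of_neg h] at e2
      exact ⟨fun h' => by linarith [mul_le_mul_of_nonpos_right h' h.le],
        fun h' => by linarith [mul_lt_mul_of_neg_right h' h]⟩
  refine ⟨t, h7, ⟨?_, l₁, hl₁, l₀, hl₀, h8, by rw [a11_add, h1, h2, mul_zero, add_zero],
    fun h => h6 (a11_par (hL l₀ hl₀) h h2)⟩, fun s hs hs' h => ?_⟩
  · rw [hQ]
    intro l hl
    rcases (hx' l hl).eq_or_lt with e | e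
    · rw [a11_add, h3 l (h0 hl) e.symm, mul_zero, add_zero, ← e]
    · exact nonneg_of_mul_nonneg_right ((h9 l (h0 hl) e.ne' t h7.le).1 le_rfl) e
  · obtain ⟨l, hl, e, e'⟩ := a11_vert h hv
    have e1 := (h9 l hl (fun e1 => e' (h3 l hl e1)) s hs).2 hs'
    rw [e, mul_zero] at e1
    exact e1.false

theorem a11_edge (h0 : L₀ ⊆ L) (hL : ∀ l ∈ L, l.1 ≠ 0) (hQ : Q = {z | ∀ l ∈ L₀, 0 ≤ af l z})
    (hc : IsCompact Q) {x : ℂ} (hx : x ∈ Q) (hV : x ∉ vert L Q) {l₀ : ℂ × ℝ} (hl₀ : l₀ ∈ L)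
    (h1 : af l₀ x = 0) : ∃ a b, Nbr L Q a b ∧ x ∈ openSegment ℝ a b := by
  obtain ⟨v, hv, h2⟩ : ∃ v : ℂ, v ≠ 0 ∧ (l₀.1 * v).re = 0 :=
    ⟨(starRingEnd ℂ) l₀.1 * Complex.I, mul_ne_zero ((map_ne_zero _).2 (hL l₀ hl₀))
      Complex.I_ne_zero, by rw [← mul_assoc, Complex.mul_conj]; simp⟩
  have h3 : (l₀.1 * -v).re = 0 := by rw [mul_neg, Complex.neg_re, h2, neg_zero]
  obtain ⟨t, ht, h4, h5⟩ := a11_ray h0 hL hQ hc hx hV hl₀ h1 hv h2
  obtain ⟨u, hu, h6, h7⟩ := a11_ray h0 hL hQ hc hx hV hl₀ h1 (neg_ne_zero.2 hv) h3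
  have e : ∀ s : ℝ, x + u • -v + s • (x + t • v - (x + u • -v)) = x + (s * (t + u) - u) • v :=
    fun s => by module
  refine ⟨x + u • -v, x + t • v, ⟨h6, h4, fun h => ?_, ⟨l₀, hl₀,
    by rw [a11_add, h1, h3, mul_zero, add_zero], by rw [a11_add, h1, h2, mul_zero, add_zero]⟩,
    disjoint_left.2 fun y hy => ?_⟩, ?_⟩
  · have h8 : (t + u) • v = 0 := by linear_combination (norm := module) -h
    exact smul_ne_zero (by linarith) hv h8
  · rw [openSegment_eq_image'] at hy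
    obtain ⟨s, hs, rfl⟩ := hy
    simp only [e]
    have h8 := mul_pos hs.1 (add_pos ht hu)
    have h9 := mul_pos (sub_pos.2 hs.2) (add_pos ht hu)
    rcases le_total 0 (s * (t + u) - u) with h | h
    · exact h5 _ h (by linarith only [h9])
    · rw [← neg_smul_neg]
      exact h7 _ (by linarith) (by linarith)
  · rw [openSegment_eq_image']
    refine ⟨u / (t + u), ⟨by positivity, (div_lt_one (add_pos ht hu)).2 (by linarith)⟩, ?_⟩
    simp only [e, div_mul_cancel₀ _ (add_pos ht hu).ne', sub_self, zero_smul, add_zero]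

theorem a11_cover (hL : ∀ l ∈ L, l.1 ≠ 0) (hQ : Convex ℝ Q) (hn : (interior Q).Nonempty) {x : ℂ}
    (hx : x ∈ Q) : ∃ z ∈ Q, (∀ l ∈ L, af l z ≠ 0) ∧ ∀ l ∈ L, 0 ≤ af l z * af l x := by
  have h1 : Dense (⋂ l ∈ (L : Set (ℂ × ℝ)), {y | af l y ≠ 0}) := by
    refine dense_biInter_of_isOpen (fun l _ => isOpen_ne_fun (a11_cont l) continuous_const)
      L.countable_toSet fun l hl y => ?_
    by_cases h : af l y = 0
    · exact closure_mono (fun w hw e => by simp [e] at hw) (a11_move (hL l hl) h one_ne_zero)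
    · exact subset_closure h
  obtain ⟨y, hy, hy'⟩ := h1.exists_mem_open isOpen_interior hn
  have h2 : ∀ᶠ t : ℝ in 𝓝[>] 0, ∀ l ∈ L, af l (x + t • (y - x)) ≠ 0 ∧
      0 ≤ af l (x + t • (y - x)) * af l x := by
    refine (Filter.eventually_all_finset L).2 fun l hl => ?_
    by_cases h : af l x = 0
    · refine eventually_nhdsWithin_of_forall fun t ht => ?_
      rw [a11_add, a11_sub, h, zero_add, sub_zero, mul_zero]
      exact ⟨mul_ne_zero (ne_of_gt ht) (mem_iInter₂.1 hy l hl), le_rfl⟩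
    · have h3 : Filter.Tendsto (fun t : ℝ => af l (x + t • (y - x)) * af l x) (𝓝 0)
          (𝓝 (af l x * af l x)) :=
        Continuous.tendsto' (((a11_cont l).comp (by fun_prop)).mul continuous_const) _ _ (by simp)
      refine ((h3.eventually_const_lt (mul_self_pos.2 h)).filter_mono nhdsWithin_le_nhds).mono
        fun t ht => ⟨left_ne_zero_of_mul ht.ne', ht.le⟩
  obtain ⟨t, ht, ht'⟩ := (h2.and (Ioo_mem_nhdsGT zero_lt_one)).exists
  exact ⟨_, hQ.add_smul_sub_mem hx (interior_subset hy') (Ioo_subset_Icc_self ht'),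
    fun l hl => (ht l hl).1, fun l hl => (ht l hl).2⟩

theorem a11_finD : {d : Set ℂ × Set ℂ | ∃ z ∈ Q, (∀ l ∈ L, af l z ≠ 0) ∧
    d.1 = {w | ∀ l ∈ L, 0 ≤ af l z * af l w} ∧ d.2 = {w ∈ d.1 | ∃ l ∈ L, af l w = 0}}.Finite := by
  classical
  refine (finite_range fun σ : L → Bool => ({w | ∀ l : L, 0 ≤ (if σ l then 1 else -1) * af l w},
    {w ∈ {w | ∀ l : L, 0 ≤ (if σ l then 1 else -1) * af l w} | ∃ l ∈ L, af l w = 0})).subset ?_
  rintro ⟨d, J⟩ ⟨z, -, hz, h1, h2⟩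
  have e : {w | ∀ l : L, 0 ≤ (if decide (0 < af l z) then 1 else -1) * af l w} = d := by
    simp only at h1
    rw [h1]
    ext w
    simp only [mem_ofPred_eq, Subtype.forall, decide_eq_true_eq]
    refine forall₂_congr fun l hl => ?_
    rcases (hz l hl).lt_or_gt with h | h
    · rw [if_neg h.not_gt, neg_one_mul, neg_nonneg, mul_nonneg_iff_neg_imp_nonpos]
      exact ⟨fun h' => ⟨fun _ => h', fun _ => h.le⟩, fun h' => h'.1 h⟩
    · rw [if_pos h, one_mul, mul_nonneg_iff_of_pos_left h]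
  exact ⟨fun l => decide (0 < af l z), Prod.ext e (by simp only [e]; exact h2.symm)⟩

end

/-- Plan: for `z` on no line the closed cell is the compact convex set of `w` with
`0 ≤ af l z * af l w` for all `l`; its interior is given by strict inequalities (`dsc_convex`).
A point `x ∈ Q` on a line that is not a vertex: all lines through `x` coincide; the points of that
line with the same weak signs as `x` for the other lines form a segment whose ends are vertices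
(`Q` is bounded) and whose interior has none. Every point of `Q` is a limit of points on no line. -/
theorem arrangement {L L₀ : Finset (ℂ × ℝ)} (h0 : L₀ ⊆ L) (hL : ∀ l ∈ L, l.1 ≠ 0) {Q : Set ℂ}
    (hQ : Q = {z | ∀ l ∈ L₀, 0 ≤ af l z}) (hc : IsCompact Q) (hn : (interior Q).Nonempty) :
    ∃ C : Cells Q, C.P = vert L Q ∧ C.E = {e | ∃ a b, Nbr L Q a b ∧ e = segment ℝ a b} ∧
      C.D = {d | ∃ z ∈ Q, (∀ l ∈ L, af l z ≠ 0) ∧ d.1 = {w | ∀ l ∈ L, 0 ≤ af l z * af l w} ∧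
        d.2 = {w ∈ d.1 | ∃ l ∈ L, af l w = 0}} ∧
      ∀ d ∈ C.D, Convex ℝ d.1 ∧ d.2 = frontier d.1 := by
  have hq : Convex ℝ Q := by simpa only [one_mul, ← hQ] using a11_convex (L := L₀) fun _ => 1
  have hsub : ∀ z ∈ Q, (∀ l ∈ L, af l z ≠ 0) → ∀ w, (∀ l ∈ L, 0 ≤ af l z * af l w) → w ∈ Q :=
    fun z hz hg w hw => by
      rw [hQ] at hz ⊢
      exact fun l hl => nonneg_of_mul_nonneg_right (hw l (h0 hl))
        ((hz l hl).lt_of_ne (hg l (h0 hl)).symm)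
  have hdsc : ∀ z ∈ Q, (∀ l ∈ L, af l z ≠ 0) → Dsc {w | ∀ l ∈ L, 0 ≤ af l z * af l w}
      {w ∈ {w | ∀ l ∈ L, 0 ≤ af l z * af l w} | ∃ l ∈ L, af l w = 0} := fun z hz hg => by
    obtain ⟨h1, h2⟩ := a11_frontier hL hg
    have h3 : z ∈ interior {w | ∀ l ∈ L, 0 ≤ af l z * af l w} := by
      by_contra h
      have h4 : z ∈ frontier {w | ∀ l ∈ L, 0 ≤ af l z * af l w} :=
        ⟨subset_closure fun l _ => mul_self_nonneg _, h⟩
      rw [h2] at h4
      obtain ⟨-, l, hl, e⟩ := h4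
      exact hg l hl e
    have h4 := dsc_convex (hc.of_isClosed_subset h1 (hsub z hz hg)) (a11_convex _) ⟨z, h3⟩
      continuousOn_id (injOn_id _)
    rwa [image_id, image_id, h2] at h4
  have hline : ∀ a b, Nbr L Q a b → ∃ l ∈ L, ∀ y ∈ segment ℝ a b, af l y = 0 := by
    rintro a b ⟨-, -, -, ⟨l, hl, h1, h2⟩, -⟩
    refine ⟨l, hl, fun y hy => ?_⟩
    rw [segment_eq_image'] at hy
    obtain ⟨t, -, rfl⟩ := hy
    simp only [a11_add, a11_sub, h1, h2, sub_self, mul_zero, add_zero]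
  have hin : ∀ a b, Nbr L Q a b → ∀ x ∈ openSegment ℝ a b, ∀ z, (∀ l ∈ L, 0 ≤ af l z * af l x) →
      segment ℝ a b ⊆ {w ∈ {w | ∀ l ∈ L, 0 ≤ af l z * af l w} | ∃ l ∈ L, af l w = 0} :=
    fun a b h x hx z hz y hy => by
      obtain ⟨l, hl, e⟩ := hline a b h
      have h1 := (a11_face hL hq h hx y).1 hy
      exact ⟨fun l hl => a11_sign (hz l hl) (h1 l hl).1 (h1 l hl).2, l, hl, e y hy⟩
  have hE : {e | ∃ a b, Nbr L Q a b ∧ e = segment ℝ a b}.Finite := by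
    refine (((a11_finP (L := L) (Q := Q)).prod (a11_finP (L := L) (Q := Q))).image
      fun p => segment ℝ p.1 p.2).subset ?_
    rintro _ ⟨a, b, h, rfl⟩
    exact ⟨(a, b), ⟨h.1, h.2.1⟩, rfl⟩
  have hop : ∀ a b, Nbr L Q a b → ∀ x ∈ segment ℝ a b, x ∉ vert L Q → x ∈ openSegment ℝ a b :=
    fun a b h x hx hV => mem_openSegment_of_ne_left_right (fun e => hV (e ▸ h.1))
      (fun e => hV (e ▸ h.2.1)) hx
  have hbdy : ∀ z ∈ Q, (∀ l ∈ L, af l z ≠ 0) → ∀ J, J = {w ∈ {w | ∀ l ∈ L, 0 ≤ af l z * af l w} |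
      ∃ l ∈ L, af l w = 0} → ∀ x ∈ J, ∃ e ∈ {e | ∃ a b, Nbr L Q a b ∧ e = segment ℝ a b},
        x ∈ e ∧ e ⊆ J := fun z hz hg J hJ x hx => by
    obtain ⟨-, -, -, -, h1, -, -, h2, -⟩ := (hdsc z hz hg).basic
    rw [← hJ] at h1 h2
    have h3 : IsClosed (⋃ e ∈ {e ∈ {e | ∃ a b, Nbr L Q a b ∧ e = segment ℝ a b} | e ⊆ J}, e) := by
      refine (hE.subset (sep_subset _ _)).isClosed_biUnion ?_
      rintro _ ⟨⟨a, b, -, rfl⟩, -⟩
      rw [segment_eq_image']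
      exact (isCompact_Icc.image (by fun_prop)).isClosed
    refine (mem_iUnion₂.1 (closure_minimal ?_ h3 (a11_acc h1 h2.nontrivial
      (a11_finP (L := L) (Q := Q)) hx))).imp fun e ⟨he, h4⟩ => ⟨he.1, h4, he.2⟩
    rintro y ⟨hy, hV⟩
    rw [hJ] at hy
    obtain ⟨hy, l, hl, e⟩ := hy
    obtain ⟨a, b, h, h4⟩ := a11_edge h0 hL hQ hc (hsub z hz hg y hy) hV hl e
    exact mem_biUnion (x := segment ℝ a b) ⟨⟨a, b, h, rfl⟩, hJ ▸ hin a b h y h4 z hy⟩
      (openSegment_subset_segment ℝ a b h4)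
  refine ⟨⟨vert L Q, _, _, a11_finP, hE, a11_finD (L := L) (Q := Q), ?_, ?_, ?_, ?_, ?_, ?_, ?_, ?_,
    ?_⟩, rfl, rfl, rfl, ?_⟩
  · rintro _ ⟨a, b, h, rfl⟩
    refine ⟨a, b, by simpa using arc_seg h.2.2.1 continuousOn_id (injOn_id _), ?_⟩
    refine Subset.antisymm (fun x hx => ?_) (pair_subset ⟨left_mem_segment ℝ a b, h.1⟩
      ⟨right_mem_segment ℝ a b, h.2.1⟩)
    by_contra h1
    simp only [mem_insert_iff, mem_singleton_iff, not_or] at h1
    exact disjoint_left.1 h.2.2.2.2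
      (mem_openSegment_of_ne_left_right (Ne.symm h1.1) (Ne.symm h1.2) hx.1) hx.2
  · rintro _ ⟨a, b, h, rfl⟩ _ ⟨a', b', h', rfl⟩ hne x hx
    by_contra hV
    exact hne (Set.ext fun y => (a11_face hL hq h (hop a b h x hx.1 hV) y).trans
      (a11_face hL hq h' (hop a' b' h' x hx.2 hV) y).symm)
  · rintro d ⟨z, hz, hg, h1, h2⟩
    rw [h2, h1]
    exact hdsc z hz hg
  · rintro ⟨d, J⟩ ⟨z, hz, hg, rfl, h⟩
    exact hbdy z hz hg J h
  · rintro d ⟨z, hz, hg, -, h2⟩ _ ⟨a, b, h, rfl⟩ x hx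
    obtain ⟨l, hl, e⟩ := hline a b h
    rw [h2]
    exact ⟨hx.1, l, hl, e x hx.2⟩
  · rintro ⟨d, J⟩ ⟨z, hz, hg, h1, h2⟩ ⟨d', J'⟩ ⟨z', hz', hg', h1', h2'⟩ hne x hx
    simp only at h1 h2 h1' h2' hx ⊢
    rw [h2]
    refine ⟨hx.1, ?_⟩
    by_contra h
    push Not at h
    have h3 : d = d' := by
      rw [h1, h1'] at hx ⊢
      ext w
      refine forall₂_congr fun l hl => ?_
      have h4 : 0 ≤ af l z * af l z' :=
        a11_sign (hx.1 l hl) (mul_comm (af l z') _ ▸ hx.2 l hl) fun e => absurd e (h l hl)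
      exact ⟨fun h5 => a11_sign (mul_comm (af l z) _ ▸ h4) h5 fun e => absurd e (hg l hl),
        fun h5 => a11_sign h4 h5 fun e => absurd e (hg' l hl)⟩
    exact hne (Prod.ext h3 (by simp only [h2, h2', h3]))
  · intro p hp
    obtain ⟨z, hz, hg, h⟩ := a11_cover hL hq hn hp.1
    obtain ⟨-, l, hl, -, -, e, -⟩ := hp
    obtain ⟨e, he, h1, -⟩ := hbdy z hz hg _ rfl p ⟨h, l, hl, e⟩
    exact ⟨e, he, h1⟩
  · rintro _ ⟨a, b, h, rfl⟩
    have h1 := midpoint_mem_openSegment (𝕜 := ℝ) a b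
    obtain ⟨z, hz, hg, h2⟩ := a11_cover hL hq hn (hq.openSegment_subset h.1.1 h.2.1.1 h1)
    exact ⟨(_, _), ⟨z, hz, hg, rfl, rfl⟩, hin a b h _ h1 z h2⟩
  · refine Subset.antisymm (iUnion₂_subset ?_) fun x hx => ?_
    · rintro ⟨d, J⟩ ⟨z, hz, hg, rfl, -⟩
      exact hsub z hz hg
    · obtain ⟨z, hz, hg, h⟩ := a11_cover hL hq hn hx
      exact mem_biUnion (x := ({w | ∀ l ∈ L, 0 ≤ af l z * af l w},
        {w ∈ {w | ∀ l ∈ L, 0 ≤ af l z * af l w} | ∃ l ∈ L, af l w = 0})) ⟨z, hz, hg, rfl, rfl⟩ h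
  · rintro d ⟨z, hz, hg, h1, h2⟩
    rw [h2, h1]
    exact ⟨a11_convex _, (a11_frontier hL hg).2.symm⟩

end Pool.Agent.MP_17e62b_gt.T55

end
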