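import Pool.Agent.MP_17e62b_gt.Mg.G_H16Net
import Pool.Agent.MP_17e62b_gt.Mg.G_H16Nodes
import Pool.Agent.MP_17e62b_gt.Mg.H14_M5
import Pool.Agent.MP_17e62b_gt.Mg.T55_MA1

attribute [-instance] AddQuantale.instAddLeftMono instCoeTCOfCoe RightPreLieAlgebra.toModule
  LeftPreLieAlgebra.toModule RKHS.instFunLike Nontrivial.to_nonempty AddQuantale.instAddRightMono
  Zero.instNonempty NumberField.to_charZero AddTorsor.nonempty ProperSMul.toContinuousSMul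
  One.instNonempty CoalgHomClass.toSemilinearMapClass Quantale.instMulRightMono
  IdemSemiring.toCanonicallyOrderedAdd NonUnitalNonAssocRing.toAddCommGroup
  IsScalarTower.complexToReal GrpTypeEquivalenceGrp.grpGroup
  NonUnitalAlgSemiHomClass.toDistribMulActionSemiHomClass NonUnitalNonAssocSemiring.toAddCommMonoid
  Valued.toUniformSpace NonUnitalNormedRing.toNonUnitalSeminormedRing
  ContinuousMonoidHom.instCoeOutOfMonoidHomClassOfContinuousMapClass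
  LinearOrderedCommMonoidWithZero.toPosMulStrictMono CommRing.toRing
  SemilinearIsometryClass.toSemilinearMapClass NonarchimedeanAddGroup.toIsTopologicalAddGroup
  NormedRing.toRing Algebra.WeaklyEtale.flat IsTopologicalTorsor.toContinuousSMul instCoeTOfCoeDep
  littleWedderburn bot_nonempty LieAdmissibleAlgebra.toIsScalarTower
  IsModuleTopology.toContinuousSMul NonarchimedeanRing.toIsTopologicalRing
  TotallySeparatedSpace.t2Space LieAdmissibleAlgebra.toSMulCommClass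
  NonUnitalNormedCommRing.toNonUnitalSeminormedCommRing RingHomClass.toLinearMapClassRat
  RightPreLieAlgebra.toIsScalarTower TestFunctionClass.toDFunLike instCoeHTCOfCoeHeadOfCoeOTC
  IsLeftCancelMul.mulLeftStrictMono_of_mulLeftMono LeftPreLieAlgebra.toIsScalarTower
  LieRing.toAddCommGroup IsometryClass.instCoeOutIsometryEquiv NeZero.of_gt'

/-! From the exit laws on the discs to cell complexes with the maximum principle. -/

set_option linter.unusedSectionVars false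

namespace Pool.Agent.MP_17e62b_gt.G

section H16Emit

open Set H14 T55 Filter Topology Metric
open scoped BigOperators InnerProductSpace

theorem h16emit_near {ι : Type} [Fintype ι] (T : ι → ℂ) (hT : ∀ v, ‖T v‖ ≤ 2) {p : ι → ℝ}
    (hp : p ∈ stdSimplex ℝ ι) (α : ι) : ‖cmb T p - T α‖ ≤ 4 * (1 - p α) := by
  classical
  have h1 : cmb T p - T α = ∑ v, p v • (T v - T α) := by
    simp only [smul_sub, Finset.sum_sub_distrib, ← Finset.sum_smul, hp.2, one_smul, cmb]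
  have h2 : ∑ v ∈ Finset.univ.erase α, p v = 1 - p α := by
    rw [Finset.sum_erase_eq_sub (Finset.mem_univ α), hp.2]
  rw [h1, ← Finset.sum_erase _ (a := α) (by simp), ← h2, Finset.mul_sum]
  refine (norm_sum_le _ _).trans (Finset.sum_le_sum fun v _ => ?_)
  rw [norm_smul, Real.norm_of_nonneg (hp.1 v), mul_comm]
  exact mul_le_mul_of_nonneg_right ((norm_sub_le _ _).trans (by linarith [hT v, hT α])) (hp.1 v)

theorem h16emit_single {ι : Type} [Fintype ι] [DecidableEq ι] (T : ι → ℂ) (v : ι) :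
    cmb T (Pi.single v 1) = T v := by
  simp only [cmb, Pi.single_apply, ite_smul, one_smul, zero_smul, Finset.sum_ite_eq', Finset.mem_univ, ↓ reduceIte]

theorem h16emit_dir {ι : Type} [Fintype ι] [DecidableEq ι] {w : ι → ℝ} (hw : ∀ v, 0 ≤ w v)
    {α : ι} (hw0 : w α = 0) :
    ‖∑ v, w v • ((Pi.single v 1 : ι → ℝ) - Pi.single α 1)‖ ≤ ∑ v, w v ∧
      (∑ v, w v • ((Pi.single v 1 : ι → ℝ) - Pi.single α 1) : ι → ℝ) α = -∑ v, w v := by
  have h0 : 0 ≤ ∑ v, w v := Finset.sum_nonneg fun v _ => hw v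
  have h1 : ∀ u, (∑ v, w v • ((Pi.single v 1 : ι → ℝ) - Pi.single α 1) : ι → ℝ) u =
      w u - (∑ v, w v) * (Pi.single α 1 : ι → ℝ) u := by
    intro u
    simp only [Finset.sum_apply, Pi.smul_apply, Pi.sub_apply, smul_eq_mul, mul_sub,
      Finset.sum_sub_distrib, ← Finset.sum_mul]
    simp only [Pi.single_apply, mul_ite, mul_one, mul_zero, Finset.sum_ite_eq, Finset.mem_univ, ↓ reduceIte]
  refine ⟨(pi_norm_le_iff_of_nonneg h0).2 fun u => ?_, by simp only [h1, hw0, Pi.single_eq_same, mul_one, zero_sub]⟩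
  rw [h1]
  rcases eq_or_ne u α with rfl | h
  · simp only [hw0, Pi.single_eq_same, mul_one, zero_sub, norm_neg, Real.norm_eq_abs, abs_of_nonneg h0, Std.le_refl]
  · rw [Pi.single_eq_of_ne h, mul_zero, sub_zero, Real.norm_of_nonneg (hw u)]
    exact Finset.single_le_sum (fun v _ => hw v) (Finset.mem_univ u)

/-- The emission law of the corner `α`. Write `T₀ y = cmb Subtype.val (Φ y)`, `W = ∑ v, w v`.
Plan: if `W = 0` take `e = 0`. Otherwise let `ŵ = W⁻¹ • ∑ v, w v • (single v 1 - single α 1)`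
(sup norm `≤ 1`, coordinate `α` equal to `-1`), `n s = (1 - Φ s α)⁻¹ • (Φ s - single α 1)` and
`A = {s | κ / 2 ≤ ‖T₀ s - α‖ ≤ 2 κ}`. Always `‖T₀ y - α‖ ≤ 4 (1 - Φ y α)`. Apply `hull_approx` to
`n`, `A`, `ŵ` with `49 δ / κ`: for `‖l‖ ≤ 1` put `c = l ŵ`,
`l' = 3⁻¹ • (l + (c - δ) • proj α)`; then `‖l'‖ ≤ 1`, `l' ŵ = δ / 3 > 0`, so `hem` gives a path
from `α` to another corner; on it some `y` has `‖T₀ y - α‖ = κ` (intermediate values, `hsep`);
take its net point `s`: `l (Φ s - single α 1) - (c - δ) (1 - Φ s α) ≥ - 6 δ` and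
`1 - Φ s α ≥ κ / 8`. Finally `e s = W * p s / (1 - Φ s α)`. -/
theorem emit_step (Λ : Lens) {Φ : ℂ → Λ.Vt → ℝ} (hc : ContinuousOn Φ Λ.P)
    (hs : ∀ z ∈ Λ.P, Φ z ∈ stdSimplex ℝ Λ.Vt) (hv : ∀ v : Λ.Vt, Φ v = Pi.single v 1) {κ δ : ℝ}
    (hδ : 0 < δ) (hκ : 2 * δ ≤ κ) (hκ1 : κ ≤ 1) (α : Λ.Vt)
    (hsep : ∀ v : Λ.Vt, v ≠ α → κ ≤ ‖(v : ℂ) - α‖) {w : Λ.Vt → ℝ} (hw : ∀ v, 0 ≤ w v)
    (hw0 : w α = 0)
    (hem : ∀ l : (Λ.Vt → ℝ) →L[ℝ] ℝ, ‖l‖ ≤ 1 →
      0 < ∑ v, w v * (l (Pi.single v 1) - l (Pi.single α 1)) → ∃ β : Λ.Vt, β ≠ α ∧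
        JoinedIn {y | y ∈ Λ.P ∧ l (Pi.single α 1) - δ ≤ l (Φ y)} α β)
    {S : Finset ℂ} (hS : ∀ s ∈ S, s ∈ Λ.P)
    (hnet : ∀ y ∈ Λ.P, ∃ s ∈ S, ‖cmb (fun v : Λ.Vt => (v : ℂ)) (Φ s) -
      cmb (fun v : Λ.Vt => (v : ℂ)) (Φ y)‖ ≤ δ ∧ ‖Φ s - Φ y‖ ≤ δ) :
    ∃ e : S → ℝ, (∀ s, 0 ≤ e s) ∧
      (∀ s, e s ≠ 0 → κ / 2 ≤ ‖cmb (fun v : Λ.Vt => (v : ℂ)) (Φ s) - α‖ ∧
        ‖cmb (fun v : Λ.Vt => (v : ℂ)) (Φ s) - α‖ ≤ 2 * κ ∧ κ / 8 ≤ 1 - Φ s α ∧
        ‖cmb (fun v : Λ.Vt => (v : ℂ)) (Φ s) - α‖ ≤ 4 * (1 - Φ s α)) ∧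
      ∑ s, e s * (1 - Φ s α) = ∑ v, w v ∧
      ‖∑ s, e s • (Φ s - Pi.single α 1) -
        ∑ v, w v • ((Pi.single v 1 : Λ.Vt → ℝ) - Pi.single α 1)‖ ≤ 49 * δ / κ * ∑ v, w v := by
  have hW : 0 ≤ ∑ v, w v := Finset.sum_nonneg fun v _ => hw v
  have hκ0 : 0 < κ := by linarith
  obtain ⟨d1, d2⟩ := h16emit_dir hw hw0
  have hl : ∀ l : (Λ.Vt → ℝ) →L[ℝ] ℝ, ∑ v, w v * (l (Pi.single v 1) - l (Pi.single α 1)) =
      l (∑ v, w v • ((Pi.single v 1 : Λ.Vt → ℝ) - Pi.single α 1)) := fun l => by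
    simp only [map_sum, map_smul, map_sub, smul_eq_mul]
  simp only [hl] at hem
  generalize (∑ v, w v • ((Pi.single v 1 : Λ.Vt → ℝ) - Pi.single α 1)) = D at *
  generalize ∑ v, w v = W at *
  rcases hW.eq_or_lt with rfl | hW0
  · refine ⟨fun _ => 0, fun _ => le_rfl, fun s h => absurd rfl h, by simp only [Finset.univ_eq_attach, zero_mul, Finset.sum_const_zero], ?_⟩
    simpa only [Finset.univ_eq_attach, zero_smul, Finset.sum_const_zero, zero_sub, norm_neg, mul_zero, norm_le_zero_iff] using d1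
  set T : Λ.Vt → ℂ := fun v => (v : ℂ) with hT
  have hT2 : ∀ v, ‖T v‖ ≤ 2 := fun v => Λ.norm_le (s := 0) (by norm_num) (Λ.vt_mem v.2)
  obtain ⟨p, p0, p1, pA, pn⟩ := hull_approx
    (fun s : S => (1 - Φ s α)⁻¹ • (Φ s - Pi.single α 1))
    {s : S | κ / 2 ≤ ‖cmb T (Φ s) - α‖ ∧ ‖cmb T (Φ s) - α‖ ≤ 2 * κ ∧ κ / 8 ≤ 1 - Φ s α ∧
      ‖cmb T (Φ s) - α‖ ≤ 4 * (1 - Φ s α)} (W⁻¹ • D) (δ := 49 * δ / κ) (by positivity) (by
    intro l hl1
    have c1 : |l (W⁻¹ • D)| ≤ 1 := by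
      refine (l.le_opNorm _).trans (mul_le_one₀ hl1 (norm_nonneg _) ?_)
      rw [norm_smul, norm_inv, Real.norm_of_nonneg hW]
      exact inv_mul_le_one_of_le₀ d1 hW
    have c2 : l D = W * l (W⁻¹ • D) := by
      rw [map_smul, smul_eq_mul, mul_inv_cancel_left₀ hW0.ne']
    generalize l (W⁻¹ • D) = c at *
    let l' : (Λ.Vt → ℝ) →L[ℝ] ℝ := (3⁻¹ : ℝ) • (l + (c - δ) • ContinuousLinearMap.proj α)
    have e' : ∀ x, l' x = 3⁻¹ * (l x + (c - δ) * x α) := fun _ => rfl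
    have n' : ‖l'‖ ≤ 1 := by
      refine ContinuousLinearMap.opNorm_le_bound _ zero_le_one fun x => ?_
      have a1 : |l x| ≤ ‖x‖ := (l.le_opNorm x).trans (mul_le_of_le_one_left (norm_nonneg _) hl1)
      have a2 : |(c - δ) * x α| ≤ 2 * ‖x‖ := by
        rw [abs_mul]
        refine mul_le_mul ?_ (norm_le_pi_norm x α) (abs_nonneg _) zero_le_two
        rw [abs_le] at c1 ⊢
        constructor <;> linarith only [c1.1, c1.2, hδ, hκ, hκ1]
      rw [e', Real.norm_eq_abs, abs_le] at *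
      constructor <;> linarith [a1.1, a1.2, a2.1, a2.2]
    obtain ⟨β, hβ, γ, hγ⟩ := hem l' n' (by
      rw [e', d2, c2]
      linarith only [mul_pos hW0 hδ])
    have g0 : Continuous fun t => ‖cmb T (Φ (γ t)) - α‖ := by
      have g1 : Continuous fun t => Φ (γ t) := hc.comp_continuous γ.continuous fun t => (hγ t).1
      exact ((continuous_finsetSum _ fun v _ =>
        ((continuous_apply v).comp g1).smul continuous_const).sub continuous_const).norm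
    obtain ⟨t, ht⟩ := intermediate_value_univ (0 : unitInterval) 1 g0 (show κ ∈ _ from ⟨by
      simp only [γ.source, hv, h16emit_single, hT, sub_self, norm_zero]
      exact hκ0.le, by
      simp only [γ.target, hv, h16emit_single, hT]
      exact hsep β hβ⟩)
    obtain ⟨s, hsS, s1, s2⟩ := hnet _ (hγ t).1
    have s3 := abs_le.1 ((abs_norm_sub_norm_le (cmb T (Φ s) - α) (cmb T (Φ (γ t)) - α)).trans
      ((congrArg norm (sub_sub_sub_cancel_right _ _ _)).trans_le s1))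
    have s4 : ‖cmb T (Φ s) - α‖ ≤ 4 * (1 - Φ s α) := h16emit_near T hT2 (hs s (hS s hsS)) α
    simp only at ht
    have s5 : κ / 8 ≤ 1 - Φ s α := by linarith only [s3.1, hκ, ht, s4]
    refine ⟨⟨s, hsS⟩, ⟨by linarith only [s3.1, hκ, ht], by linarith only [s3.2, hδ, hκ, ht], s5, s4⟩, ?_⟩
    have s6 := abs_le.1 ((l'.le_opNorm (Φ s - Φ (γ t))).trans
      ((mul_le_of_le_one_left (norm_nonneg _) n').trans s2))
    have s7 := (hγ t).2
    rw [map_sub] at s6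
    have s8 : l' (Pi.single α 1) - 2 * δ ≤ l' (Φ s) := by linarith only [s6.1, s7]
    rw [e', e', Pi.single_eq_same] at s8
    have m0 : 0 < 1 - Φ s α := by linarith only [hδ, hκ, ht, s3, s4]
    have s9 : 6 * δ ≤ 48 * δ / κ * (1 - Φ s α) := by
      rw [div_mul_eq_mul_div, le_div_iff₀ hκ0]
      nlinarith only [hκ, ht, s3, s4]
    have s10 : δ ≤ δ / κ := by
      rw [le_div_iff₀ hκ0]
      nlinarith only [hδ, hκ1]
    simp only [map_smul, map_sub, smul_eq_mul]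
    rw [← div_eq_inv_mul, le_div_iff₀ m0]
    have s11 : 49 * δ / κ = 48 * δ / κ + δ / κ := by ring
    nlinarith only [mul_le_mul_of_nonneg_right s10 m0.le, hκ1, ht, s3, s4, s8, s9, s11])
  have m0 : ∀ s : S, p s ≠ 0 → 0 < 1 - Φ s α := fun s h => by linarith only [(pA s h).2.2.1, hδ, hκ]
  refine ⟨fun s => W * p s * (1 - Φ s α)⁻¹, fun s => ?_, fun s h => pA s fun h0 => h ?_, ?_, ?_⟩
  · rcases eq_or_ne (p s) 0 with h | h
    · simp [h]
    · exact mul_nonneg (mul_nonneg hW (p0 s)) (inv_nonneg.2 (m0 s h).le)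
  · simp [h0]
  · refine (Finset.sum_congr rfl fun s _ => ?_).trans
      ((Finset.mul_sum _ p W).symm.trans (by rw [p1, mul_one]))
    rcases eq_or_ne (p s) 0 with h | h
    · simp [h]
    · exact inv_mul_cancel_right₀ (m0 s h).ne' _
  · have e1 : ∑ s : S, (W * p s * (1 - Φ s α)⁻¹) • (Φ s - Pi.single α 1) - D =
        W • (∑ s : S, p s • (1 - Φ s α)⁻¹ • (Φ s - Pi.single α 1) - W⁻¹ • D) := by
      rw [smul_sub, smul_inv_smul₀ hW0.ne', Finset.smul_sum]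
      simp only [mul_smul]
    rw [e1, norm_smul, Real.norm_of_nonneg hW, mul_comm]
    exact mul_le_mul_of_nonneg_right pn hW

end H16Emit

section H16Disc

open Set H14 T55 Filter Topology Metric
open scoped BigOperators InnerProductSpace

theorem h16disc_hp (Λ : Lens) {Φ : ℂ → Λ.Vt → ℝ} {ε : ℝ}
    (h : HP Λ.P Λ.Vt Φ (ε / (2 * Fintype.card Λ.Vt))) :
    HP Λ.P Λ.Vt (fun z => (cmb (fun v : Λ.Vt => (v : ℂ)) (Φ z), Φ z)) ε := by
  have hn : (1 : ℝ) ≤ Fintype.card Λ.Vt := by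
    have : Nonempty Λ.Vt := ⟨⟨1, Λ.one_mem⟩⟩
    exact_mod_cast Fintype.card_pos
  obtain ⟨c, hc⟩ : ∃ c : ℝ, c = 2 * Fintype.card Λ.Vt := ⟨_, rfl⟩
  rw [← hc] at h
  have hc1 : 1 ≤ c := by linarith
  have hc0 : 0 < c := by linarith
  have hb : ∀ y : Λ.Vt → ℝ, ‖((Fintype.linearCombination ℝ fun v : Λ.Vt => (v : ℂ)).prod
      LinearMap.id) y‖ ≤ c * ‖y‖ := by
    intro y
    change ‖((∑ v : Λ.Vt, y v • (v : ℂ)), y)‖ ≤ _
    rw [Prod.norm_mk, max_le_iff]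
    refine ⟨?_, le_mul_of_one_le_left (norm_nonneg _) hc1⟩
    refine (norm_sum_le_of_le _ (n := fun _ => ‖y‖ * 2) fun v _ => ?_).trans ?_
    · rw [norm_smul]
      exact mul_le_mul (norm_le_pi_norm y v) (Λ.norm_le (s := 0) (by norm_num) (Λ.vt_mem v.2))
        (norm_nonneg _) (norm_nonneg _)
    · rw [Finset.sum_const, Finset.card_univ, nsmul_eq_mul, hc]
      exact le_of_eq (by ring)
  obtain ⟨A, hA, hA'⟩ : ∃ A : (Λ.Vt → ℝ) →L[ℝ] ℂ × (Λ.Vt → ℝ), ‖A‖ ≤ c ∧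
      ∀ y, A y = (cmb (fun v : Λ.Vt => (v : ℂ)) y, y) :=
    ⟨LinearMap.mkContinuous _ c hb, LinearMap.mkContinuous_norm_le _ hc0.le hb, fun _ => rfl⟩
  intro x hx l hl
  obtain ⟨b, hb, hj⟩ := h x hx (c⁻¹ • l.comp A) (by
    rw [norm_smul, norm_inv, Real.norm_of_nonneg hc0.le, inv_mul_le_iff₀ hc0, mul_one]
    exact (l.opNorm_comp_le A).trans ((mul_le_of_le_one_left (norm_nonneg _) hl).trans hA))
  refine ⟨b, hb, hj.mono fun y hy => ⟨hy.1, ?_⟩⟩
  have h2 := mul_le_mul_of_nonneg_left hy.2 hc0.le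
  simp only [smul_apply, ContinuousLinearMap.comp_apply, hA', smul_eq_mul,
    mul_sub, mul_inv_cancel_left₀ hc0.ne', mul_div_cancel₀ _ hc0.ne'] at h2
  exact h2

theorem h16disc_int (Λ : Lens) {ϑ : ℝ} (h0 : 0 < ϑ) (h1 : ϑ ≤ 1 / 40) {y z : ℂ} (hy : y ∈ Λ.P)
    (hz : ‖z - (1 - ϑ) • y‖ ≤ ϑ ^ 3) : z ∈ interior Λ.P := by
  have he : ϑ⁻¹ • (z - (1 - ϑ) • y) ∈ interior Λ.P := by
    refine interior_maximal (ball_subset_closedBall.trans (Λ.ball_sub le_rfl)) isOpen_ball ?_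
    rw [mem_ball, dist_zero_right, norm_smul, norm_inv, Real.norm_of_nonneg h0.le,
      inv_mul_lt_iff₀ h0]
    have : ϑ ^ 2 < 1 / 4 := by nlinarith
    calc _ ≤ ϑ ^ 3 := hz
      _ = ϑ * ϑ ^ 2 := by ring
      _ < ϑ * (1 / 4) := by gcongr
  have := (Λ.convex_reg 0).combo_self_interior_mem_interior hy he (a := 1 - ϑ) (b := ϑ)
    (by linarith) h0 (by ring)
  rw [smul_smul, mul_inv_cancel₀ h0.ne', one_smul, add_sub_cancel] at this
  exact this

theorem h16disc_one {ι : Type} [Fintype ι] {y z : ι → ℝ} (hy : y ∈ stdSimplex ℝ ι)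
    (hz : z ∈ stdSimplex ℝ ι) : ‖y - z‖ ≤ 1 := by
  refine (pi_norm_le_iff_of_nonneg zero_le_one).2 fun i => ?_
  have h1 := mem_Icc_of_mem_stdSimplex hy i
  have h2 := mem_Icc_of_mem_stdSimplex hz i
  rw [Pi.sub_apply, Real.norm_eq_abs, abs_le]
  constructor <;> linarith [h1.1, h1.2, h2.1, h2.2]

/-- Plan: follow the proof of `H14.coarse` with `F₀ = Φ` (values in `Λ.Vt → ℝ`, sup norm) and
`T₀ y = cmb Subtype.val (Φ y)`. Take `δ = ϑ ^ 3 / (2 * card Λ.Vt)`: the linear map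
`y ↦ (cmb Subtype.val y, y)` has norm at most `2 * card`, so `HP Λ.P Λ.Vt (T₀, Φ) (ϑ ^ 3)`.
`V = S ⊕ Λ.Vt` from `coarse_step` with `ϑ ^ 3`, `T` from `generic`, rows of `inl s` with `repair`,
`R (inr α) (inl s) = e α s` from `emit_step` (with `ϑ ^ 3`; `49 ϑ ^ 3 / κ ≤ ϑ`),
`R (inr _) (inr _) = 0`. `T a ∈ Λ.Vt` iff `a = inr _` (injectivity). `int`: as `coarse_mem`, the
small vector lies in the interior (`ball_sub`), `Convex.combo_self_interior_mem_interior`.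
`vert`, `gen3` for an edge from a corner: apply `generic` at the other end. `lyap` is
`coarse_lyap`. `em_len`: `‖T s - α‖ ≤ 4 (1 - Φ s α) + 3 ϑ ≤ 5 (1 - Φ s α)`. -/
theorem disc_chain (Λ : Lens) {κ ϑ : ℝ} (hϑ : 0 < ϑ) (hϑκ : 1600 * ϑ ≤ κ) (hκ : κ ≤ 1 / 40)
    (hsep : ∀ a ∈ Λ.Vt, ∀ b ∈ Λ.Vt, a ≠ b → κ ≤ ‖a - b‖) :
    ∃ δ > 0, ∀ (Φ : ℂ → Λ.Vt → ℝ) (w : Λ.Vt → Λ.Vt → ℝ), ContinuousOn Φ Λ.P →
      (∀ z ∈ Λ.P, Φ z ∈ stdSimplex ℝ Λ.Vt) → (∀ v : Λ.Vt, Φ v = Pi.single v 1) →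
      HP Λ.P Λ.Vt Φ δ → (∀ α β, 0 ≤ w α β) → (∀ α, w α α = 0) →
      (∀ (α : Λ.Vt) (l : (Λ.Vt → ℝ) →L[ℝ] ℝ), ‖l‖ ≤ 1 →
        0 < gen w (fun β => l (Pi.single β 1)) α → ∃ β : Λ.Vt, β ≠ α ∧
          JoinedIn {y | y ∈ Λ.P ∧ l (Pi.single α 1) - δ ≤ l (Φ y)} α β) →
      ∃ (V : Type) (_ : Fintype V) (R : V → V → ℝ) (T x : V → ℂ), DChain Λ Φ w κ ϑ R T x := by
  have hκ0 : 0 < κ := by linarith only [hϑ, hϑκ]
  have hϑ1 : ϑ ≤ 1 / 40 := by linarith only [hϑ, hϑκ, hκ]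
  have hδ0 : 0 < ϑ ^ 3 := by positivity
  have hδϑ : ϑ ^ 3 ≤ ϑ := by
    have : ϑ ^ 2 ≤ 1 := by nlinarith only [hϑ, hϑκ, hκ]
    nlinarith
  have hn : (1 : ℝ) ≤ Fintype.card Λ.Vt := by
    have : Nonempty Λ.Vt := ⟨⟨1, Λ.one_mem⟩⟩
    exact_mod_cast Fintype.card_pos
  have hδle : ϑ ^ 3 / (2 * Fintype.card Λ.Vt) ≤ ϑ ^ 3 := div_le_self hδ0.le (by linarith only [hϑ, hϑκ, hκ, hn])
  refine ⟨ϑ ^ 3 / (2 * Fintype.card Λ.Vt), by positivity,
    fun Φ w hΦ hsx hv hp hw hw0' hem => ?_⟩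
  obtain ⟨T₀, hT₀d⟩ : ∃ T₀ : ℂ → ℂ, T₀ = fun z => cmb (fun v : Λ.Vt => (v : ℂ)) (Φ z) := ⟨_, rfl⟩
  have hT₀e : ∀ z, cmb (fun v : Λ.Vt => (v : ℂ)) (Φ z) = T₀ z := fun z => by rw [hT₀d]
  have hT₀ : ContinuousOn T₀ Λ.P := by
    rw [hT₀d]
    unfold cmb
    exact continuousOn_finsetSum _ fun v _ =>
      ((continuous_apply v).comp_continuousOn hΦ).smul continuousOn_const
  have hmap : ∀ z ∈ Λ.P, T₀ z ∈ Λ.P := fun z hz => by
    rw [← hT₀e]
    exact (Λ.convex_reg 0).sum_mem (fun v _ => (hsx z hz).1 v) (hsx z hz).2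
      fun v _ => Λ.vt_mem v.2
  have hbd : ∀ b : Λ.Vt, T₀ b = b := fun b => by
    rw [← hT₀e, hv, cmb, Finset.sum_eq_single b]
    · simp
    · intro c _ hc
      simp [hc]
    · intro h
      exact absurd (Finset.mem_univ b) h
  have hp' := h16disc_hp Λ hp
  simp only [hT₀e] at hp'
  obtain ⟨S, hS, hnet, hstep⟩ := coarse_step (Λ.compact_reg 0) Λ.Vt hT₀ hΦ (κ := κ) hδ0
    (by linarith only [hϑ, hϑκ, hδϑ]) hp'
  choose p hp0 hp1 hpS hpB hpT hpF using hstep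
  have hemit := fun α : Λ.Vt => emit_step Λ hΦ hsx hv (κ := κ) hδ0 (by linarith only [hϑ, hϑκ, hδϑ]) (by linarith only [hϑ, hϑκ, hκ]) α
    (fun v h => hsep _ v.2 _ α.2 fun h' => h (Subtype.ext h')) (hw α) (hw0' α)
    (fun l hl h => by
      obtain ⟨β, hβ, hj⟩ := hem α l hl h
      exact ⟨β, hβ, hj.mono fun y hy => ⟨hy.1, by linarith only [hy.2, hδle]⟩⟩) hS
    (by simp only [hT₀e]; exact hnet)
  simp only [hT₀e] at hemit
  choose e he0 heS heW heF using hemit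
  obtain ⟨x, hx⟩ : ∃ x : S ⊕ Λ.Vt → ℂ, x = Sum.elim Subtype.val Subtype.val := ⟨_, rfl⟩
  have hxl : ∀ s : S, x (.inl s) = s := fun s => by rw [hx]; rfl
  have hxr : ∀ b : Λ.Vt, x (.inr b) = b := fun b => by rw [hx]; rfl
  rw [← hx] at hpT hpF
  have hxP : ∀ v, x v ∈ Λ.P := by
    rintro (s | b)
    · rw [hxl]; exact hS _ s.2
    · rw [hxr]; exact Λ.vt_mem b.2
  have htP : ∀ v, T₀ (x v) ∈ Λ.P := fun v => hmap _ (hxP v)
  have htb : ∀ b : Λ.Vt, T₀ (x (.inr b)) = b := fun b => by rw [hxr]; exact hbd b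
  have hn2 : ∀ z ∈ Λ.P, ‖z‖ ≤ 2 := fun z hz => Λ.norm_le (s := 0) (by norm_num) hz
  obtain ⟨T, hTb, hTc, hTi, hTre, hTdet⟩ := generic
    (Sum.elim (fun s : S => (1 - ϑ) • T₀ s) (fun b : Λ.Vt => (b : ℂ))) (range Sum.inr)
    (by
      rintro _ ⟨b, rfl⟩ _ ⟨b', rfl⟩ h
      simp only [Sum.elim_inr] at h
      rw [Subtype.ext h]) hδ0
  have hTr : ∀ b : Λ.Vt, T (.inr b) = b := fun b => hTb _ ⟨b, rfl⟩
  have hTl : ∀ s : S, ‖T (.inl s) - (1 - ϑ) • T₀ (x (.inl s))‖ ≤ ϑ ^ 3 := fun s => by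
    rw [hxl]; exact hTc (.inl s)
  have hmv : ∀ v, ‖T v - T₀ (x v)‖ ≤ 3 * ϑ := by
    rintro (s | b)
    · exact coarse_move hϑ hϑ1 (hn2 _ (htP _)) (hTl s)
    · rw [hTr, htb, sub_self, norm_zero]; positivity
  have hrep := fun s : S => repair Λ (t := fun v => T₀ (x v)) (t' := T) hϑ hϑ1 htP htb hTr hTl
    (hp0 s) (hp1 s) s (by rw [hxl]; exact hpT s)
  choose u hu0 hu1 huc huT using hrep
  obtain ⟨R, hR⟩ : ∃ R : S ⊕ Λ.Vt → S ⊕ Λ.Vt → ℝ, R =
    Sum.elim (fun s v => p s v + Sum.elim (fun _ => (0 : ℝ)) (u s) v)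
      (fun α => Sum.elim (e α) fun _ => 0) := ⟨_, rfl⟩
  have hRl : ∀ s v, R (.inl s) v = p s v + Sum.elim (fun _ => (0 : ℝ)) (u s) v :=
    fun s v => by rw [hR]; rfl
  have hRr : ∀ b c, R (.inr b) (.inr c) = 0 := fun b v => by rw [hR]; rfl
  have hRe : ∀ b s, R (.inr b) (.inl s) = e b s := fun b v => by rw [hR]; rfl
  have hV : ∀ a, T a ∈ Λ.Vt → ∃ b, a = .inr b := fun a ha =>
    ⟨⟨T a, ha⟩, hTi (hTr ⟨T a, ha⟩).symm⟩
  have hnV : ∀ a, T a ∉ Λ.Vt → ∃ s, a = .inl s := by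
    rintro (s | b) h
    · exact ⟨s, rfl⟩
    · exact absurd (hTr b ▸ b.2) h
  have hlV : ∀ s : S, T (.inl s) ∉ Λ.Vt := fun s h => by
    obtain ⟨b, hb⟩ := hV _ h
    cases hb
  have hlB : ∀ s : S, (Sum.inl s : S ⊕ Λ.Vt) ∉ range Sum.inr := by
    rintro s ⟨b, h⟩; cases h
  have hpos : ∀ s b, 0 < R (.inl s) b → b ≠ .inl s := by
    rintro s b h rfl
    rw [hRl] at h
    simp only [Sum.elim_inl, add_zero] at h
    have := (hpS s s h.ne').1
    rw [sub_self, norm_zero] at this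
    linarith only [hϑ, hϑκ, this]
  have hpos' : ∀ c b, 0 < R (.inr c) b → ∃ s, b = .inl s ∧ e c s ≠ 0 := by
    rintro c (s | b) h
    · exact ⟨s, rfl, (hRe c s ▸ h).ne'⟩
    · rw [hRr] at h; exact absurd h (lt_irrefl _)
  have hharm : ∀ s : S, gen R T (.inl s) = 0 := fun s => by
    simp only [gen, hRl]
    rw [coarse_sum (p s) (u s) (fun v => T v - T (.inl s))]
    simp only [hTr]
    exact huT s
  have hem1 : ∀ (c : Λ.Vt) (s : S), ‖T (.inl s) - c‖ ≤ ‖T₀ s - c‖ + 3 * ϑ := fun c s => by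
    have h1 := hmv (.inl s)
    rw [hxl] at h1
    linarith only [norm_sub_le_norm_sub_add_norm_sub (T (.inl s)) (T₀ s) (c : ℂ), h1]
  refine ⟨S ⊕ Λ.Vt, inferInstance, R, T, x, ?_, ?_, ?_, hTi, ?_, ?_, ?_, ?_, ?_, hxP, ?_, ?_, ?_,
    ?_, ?_, ?_, ?_, ?_, ?_, ?_⟩
  · rintro (s | c) (b | b)
    · rw [hRl]; simpa only [Sum.elim_inl, add_zero] using hp0 s _
    · rw [hRl]; exact add_nonneg (hp0 s _) (hu0 s b)
    · rw [hRe]; exact he0 c b
    · rw [hRr]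
  · intro a ha
    obtain ⟨s, rfl⟩ := hnV a ha
    exact h16disc_int Λ hϑ hϑ1 (htP _) (hTl s)
  · intro v hv; exact ⟨.inr ⟨v, hv⟩, hTr _⟩
  · intro a b ha hb
    obtain ⟨a, rfl⟩ := hV a ha
    obtain ⟨b, rfl⟩ := hV b hb
    exact hRr a b
  · intro a ha
    obtain ⟨s, rfl⟩ := hnV a ha
    exact hharm s
  · rintro (s | c) b h
    · exact hTre _ (hlB s) b (hpos s b h)
    · obtain ⟨s, rfl, -⟩ := hpos' c b h
      exact (hTre _ (hlB s) _ Sum.inr_ne_inl).symm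
  · rintro (s | c) b d h hda hdb
    · exact hTdet _ (hlB s) b d (hpos s b h) hda hdb
    · obtain ⟨s, rfl, -⟩ := hpos' c b h
      intro h0
      refine hTdet _ (hlB s) (.inr c) d Sum.inr_ne_inl hdb hda ?_
      simp only [det2, Complex.sub_re, Complex.sub_im] at h0 ⊢
      linarith only [h0]
  · intro a ha b hb
    obtain ⟨s, rfl⟩ := hnV a ha
    have key : ∀ c : Λ.Vt, ((c : ℂ) = 1 ∨ (c : ℂ) = -1) → T b = c → 0 < R (.inl s) b := by
      intro c hc h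
      obtain rfl : b = .inr c := hTi (h.trans (hTr c).symm)
      rw [hRl]
      exact add_pos_of_nonneg_of_pos (hp0 s _) (huc s c hc)
    rcases hb with hb | hb
    · exact key ⟨1, Λ.one_mem⟩ (Or.inl rfl) hb
    · exact key ⟨-1, Λ.neg_mem⟩ (Or.inr rfl) hb
  · intro a ha
    obtain ⟨b, rfl⟩ := hV a ha
    rw [hxr, hTr]
  · intro a
    rw [hT₀e]
    exact hmv a
  · intro a ha
    obtain ⟨s, rfl⟩ := hnV a ha
    simp only [gen, hRl]
    rw [coarse_sum (p s) (u s) (fun v => Φ (x v) - Φ (x (.inl s)))]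
    have h1 : ∑ v, p s v • (Φ (x v) - Φ (x (.inl s))) = ∑ v, p s v • Φ (x v) - Φ s := by
      simp only [smul_sub, Finset.sum_sub_distrib, ← Finset.sum_smul, hp1, one_smul, hxl]
    have h2 : ‖∑ b, u s b • (Φ (x (.inr b)) - Φ (x (.inl s)))‖ ≤ ∑ b, u s b := by
      refine norm_sum_le_of_le _ fun b _ => ?_
      rw [norm_smul, Real.norm_of_nonneg (hu0 s b)]
      exact mul_le_of_le_one_right (hu0 s b) (h16disc_one (hsx _ (hxP _)) (hsx _ (hxP _)))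
    have h3 := hu1 s
    have h5 := hpF s
    rw [h1]
    refine (norm_add_le _ _).trans ?_
    linarith only [hδϑ, h2, h3, h5]
  · intro a ha
    obtain ⟨s, rfl⟩ := hnV a ha
    refine (coarse_lyap hκ0 s (hRl s) (hp0 s) (hp1 s) (hu0 s) (hharm s) fun s' h => ?_).trans_eq ?_
    · have h1 := (hpS s s' h).1
      have h2 := (coarse_diff (hmv (.inl s')) (hmv (.inl s))).1
      rw [hxl, hxl] at h2
      linarith only [hϑ, hϑκ, h1, h2]
    · congr 2
      funext b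
      rcases b with b | b
      · rw [if_neg (hlV b)]; rfl
      · rw [if_pos (hTr b ▸ b.2)]; rfl
  · intro a ha h c₁ c₂ h1 h2 h3 h4
    obtain ⟨s, rfl⟩ := hnV a ha
    have e1 := coarse_sum (p s) (u s) h
    simp only [smul_eq_mul] at e1
    simp only [hRl]
    rw [e1]
    have h5 : ∑ v, p s v * h v ≤ ∑ v, p s v * c₁ := by
      refine Finset.sum_le_sum fun v _ => ?_
      by_cases h0 : p s v = 0
      · rw [h0]; simp
      refine mul_le_mul_of_nonneg_left (h4 v ?_) (hp0 s v)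
      have h6 := (coarse_diff (hmv v) (hmv (.inl s))).2
      rw [hxl] at h6
      rcases v with v | v
      · have := (hpS s v h0).2
        rw [hxl] at h6
        linarith only [hϑ, hϑκ, h6, this]
      · have := hpB s v h0
        rw [hxr] at h6
        linarith only [hϑ, hϑκ, h6, this]
    have h6 : ∑ b, u s b * h (.inr b) ≤ ∑ b, u s b * c₂ :=
      Finset.sum_le_sum fun b _ => mul_le_mul_of_nonneg_left (h3 _) (hu0 s b)
    rw [← Finset.sum_mul, hp1, one_mul] at h5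
    rw [← Finset.sum_mul] at h6
    linarith only [mul_le_mul_of_nonneg_right (hu1 s) h2, h5, h6]
  · intro a α ha
    obtain rfl : a = .inr α := hTi (ha.trans (hTr α).symm)
    simp only [gen, Fintype.sum_sum_type, hRe, hRr, zero_smul, Finset.sum_const_zero, add_zero,
      hxl, hxr, hv]
    refine (heF α).trans (mul_le_mul_of_nonneg_right ?_ (Finset.sum_nonneg fun v _ => hw α v))
    rw [div_le_iff₀ hκ0]
    have : 49 * ϑ ^ 2 ≤ κ := by nlinarith only [hϑκ, hκ, hδ0]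
    nlinarith
  · intro a b ha h
    obtain ⟨c, rfl⟩ := hV a ha
    obtain ⟨s, rfl, hs⟩ := hpos' c b h
    rw [hTr]
    linarith only [hem1 c s, (heS c s hs).2.1, hϑ, hϑκ]
  · intro a α ha
    obtain rfl : a = .inr α := hTi (ha.trans (hTr α).symm)
    simp only [Fintype.sum_sum_type, hRe, hRr, zero_mul, Finset.sum_const_zero, add_zero, hTr]
    rw [← heW α, Finset.mul_sum]
    refine Finset.sum_le_sum fun s _ => ?_
    by_cases h0 : e α s = 0
    · rw [h0]; simp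
    have h1 : ‖T (.inl s) - α‖ ≤ 5 * (1 - Φ s α) := by
      linarith only [hem1 α s, (heS α s h0).2.2.1, (heS α s h0).2.2.2, hϑ, hϑκ]
    linarith only [mul_le_mul_of_nonneg_left h1 (he0 α s)]
  · intro a α ha
    obtain rfl : a = .inr α := hTi (ha.trans (hTr α).symm)
    simp only [Fintype.sum_sum_type, hRe, hRr, Finset.sum_const_zero, add_zero]
    rw [← heW α, Finset.mul_sum, Finset.mul_sum]
    refine Finset.sum_le_sum fun s _ => ?_
    by_cases h0 : e α s = 0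
    · rw [h0]; simp
    linarith only [mul_le_mul_of_nonneg_left (heS α s h0).2.2.1 (he0 α s)]
  · intro y hy
    obtain ⟨s, hs, h1, h2⟩ := hnet y hy
    refine ⟨.inl ⟨s, hs⟩, hlV _, ?_, ?_⟩
    · rw [hxl]
      exact h2.trans hδϑ
    · have h3 := hmv (.inl ⟨s, hs⟩)
      rw [hxl] at h3
      rw [hT₀e]
      change ‖T (.inl ⟨s, hs⟩) - T₀ s‖ ≤ _ at h3
      linarith only [norm_sub_le_norm_sub_add_norm_sub (T (.inl ⟨s, hs⟩)) (T₀ s) (T₀ y), hδϑ, h1, h3]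

end H16Disc

section H16Coarse

open Set H14 T55 Filter Topology Metric
open scoped BigOperators InnerProductSpace

variable {C E : Type} [Fintype C] [NormedAddCommGroup E] [NormedSpace ℝ E]

open Classical in
/-- The trace chain is the glued chain of the corners. -/
theorem gen_trace {Nn X : Type} [Fintype Nn] [AddCommGroup X] [Module ℝ X] {Λ : C → Lens}
    (app : ∀ c, (Λ c).Vt → Nn) (D : Nn → Nn → ℝ) (w : ∀ c, (Λ c).Vt → (Λ c).Vt → ℝ) (ξ : Nn → X)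
    (a : Nn) : gen (trace app D w) ξ a = gen D ξ a +
      ∑ c, ∑ α, if app c α = a then gen (w c) (fun v => ξ (app c v)) α else 0 := by
  simp only [gen, trace, add_smul, Finset.sum_add_distrib, Finset.sum_smul]
  congr 1
  rw [Finset.sum_comm]
  refine Finset.sum_congr rfl fun c _ => ?_
  rw [Finset.sum_comm]
  refine Finset.sum_congr rfl fun α _ => ?_
  rw [Finset.sum_comm]
  by_cases h : app c α = a
  · rw [if_pos h]
    refine Finset.sum_congr rfl fun v _ => ?_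
    rw [Finset.sum_eq_single (app c v) (fun y _ hy => by
      rw [if_neg fun g => hy g.2.symm, zero_smul]) (by simp only [Finset.mem_univ, not_true_eq_false, and_true, ite_smul, zero_smul, ite_eq_right_iff, smul_eq_zero, IsEmpty.forall_iff]), if_pos ⟨h, rfl⟩, h]
  · rw [if_neg h]
    exact Finset.sum_eq_zero fun v _ => Finset.sum_eq_zero fun y _ => by
      rw [if_neg fun g => h g.1, zero_smul]

open Classical in
/-- A sum over the corners among the states is a sum over the corners. -/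
theorem nsum_cor {Nn X : Type} [AddCommMonoid X] {Λ : C → Lens} (app : ∀ c, (Λ c).Vt → Nn)
    {V : C → Type} [∀ c, Fintype (V c)] {T : ∀ c, V c → ℂ} {b : ∀ c, (Λ c).Vt → V c}
    (hT : ∀ c, Function.Injective (T c)) (hb : ∀ c α, T c (b c α) = α) (f : ∀ c, V c → X)
    (a : Nn) : nsum (cor Λ T) (fun c y => appx app c (T c y)) f a =
      ∑ c, ∑ α, if app c α = a then f c (b c α) else 0 := by
  unfold nsum
  refine Finset.sum_congr rfl fun c _ => ?_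
  symm
  refine Finset.sum_of_injOn (b c) (fun α _ α' _ h => Subtype.ext ?_) (fun _ _ => Finset.mem_univ _)
    (fun y _ hy => if_neg fun g => hy ⟨⟨T c y, g.1⟩, Finset.mem_coe.2 (Finset.mem_univ _),
      hT c (hb c _)⟩) fun α _ => ?_
  · rw [← hb c α, ← hb c α', h]
  · have h1 : b c α ∈ cor Λ T c := by
      show T c (b c α) ∈ (Λ c).Vt
      rw [hb]
      exact α.2
    simp only [hb, appx_vt, h1, true_and]

section Basic

variable {N X : Type} [Fintype N] [NormedAddCommGroup X] [NormedSpace ℝ X]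

theorem h16coarse_sub (ξ : N → X) (p q : N → ℝ) : cmb ξ p - cmb ξ q = cmb ξ (p - q) := by
  simp only [cmb, Pi.sub_apply, sub_smul, Finset.sum_sub_distrib]

theorem h16coarse_norm {ξ : N → X} {n K : ℝ} (hn : (Fintype.card N : ℝ) ≤ n) (hK : 0 ≤ K)
    (hξ : ∀ v, ‖ξ v‖ ≤ K) (p : N → ℝ) : ‖cmb ξ p‖ ≤ n * K * ‖p‖ := by
  have h1 : ‖cmb ξ p‖ ≤ ∑ _v : N, K * ‖p‖ := norm_sum_le_of_le _ fun v _ => by
    rw [norm_smul, mul_comm K]
    exact mul_le_mul (norm_le_pi_norm p v) (hξ v) (norm_nonneg _) (norm_nonneg _)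
  rw [Finset.sum_const, Finset.card_univ, nsmul_eq_mul] at h1
  rw [mul_assoc]
  exact h1.trans (mul_le_mul_of_nonneg_right hn (by positivity))

theorem h16coarse_gen {V : Type} [Fintype V] (ξ : N → X) (R : V → V → ℝ) (u : V → N → ℝ) (a : V) :
    gen R (fun b => cmb ξ (u b)) a = cmb ξ (gen R u a) :=
  gen_map R u (Fintype.linearCombination ℝ ξ) a

theorem h16coarse_single [DecidableEq N] (ξ : N → X) (v : N) : cmb ξ (Pi.single v 1) = ξ v := by
  simp only [cmb, Pi.single_apply, ite_smul, one_smul, zero_smul, Finset.sum_ite_eq', Finset.mem_univ, ↓ reduceIte]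

theorem h16coarse_mem {ξ p : N → ℝ} {K : ℝ} (hp : p ∈ stdSimplex ℝ N)
    (hξ : ∀ v, 0 ≤ ξ v ∧ ξ v ≤ K) : 0 ≤ cmb ξ p ∧ cmb ξ p ≤ K := by
  refine ⟨Finset.sum_nonneg fun v _ => mul_nonneg (hp.1 v) (hξ v).1, ?_⟩
  have h1 : cmb ξ p ≤ ∑ v, p v * K :=
    Finset.sum_le_sum fun v _ => mul_le_mul_of_nonneg_left (hξ v).2 (hp.1 v)
  rwa [← Finset.sum_mul, hp.2, one_mul] at h1

theorem h16coarse_lin {V : Type} [Fintype V] (R : V → V → ℝ) (u v : V → ℝ) (r s : ℝ) (a : V) :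
    gen R (fun b => r * u b + s * v b) a = r * gen R u a + s * gen R v a := by
  simp only [gen, smul_eq_mul, Finset.mul_sum, ← Finset.sum_add_distrib]
  exact Finset.sum_congr rfl fun b _ => by ring

theorem h16coarse_nlin {U : C → Type} [∀ c, Fintype (U c)] (D : N → N → ℝ)
    (R : ∀ c, U c → U c → ℝ) (B : ∀ c, Set (U c)) (nd : ∀ c, U c → N) (uN vN : N → ℝ)
    (u v : ∀ c, U c → ℝ) (r s : ℝ) (a : N) :
    ngen D R B nd (fun a => r * uN a + s * vN a) (fun c y => r * u c y + s * v c y) a =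
      r * ngen D R B nd uN u a + s * ngen D R B nd vN v a := by
  simp only [ngen, nsum, h16coarse_lin, mul_add, Finset.mul_sum]
  rw [add_add_add_comm, ← Finset.sum_add_distrib]
  congr 1
  refine Finset.sum_congr rfl fun c _ => ?_
  rw [← Finset.sum_add_distrib]
  refine Finset.sum_congr rfl fun y _ => ?_
  split_ifs <;> simp

end Basic

section One

variable {V X : Type} [Fintype V] [NormedAddCommGroup X] [NormedSpace ℝ X] {Λ : Lens}
  {Φ : ℂ → Λ.Vt → ℝ} {w : Λ.Vt → Λ.Vt → ℝ} {κ ϑ n : ℝ} {R : V → V → ℝ} {T x : V → ℂ}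

theorem h16coarse_two (h : DChain Λ Φ w κ ϑ R T x) (a : V) : ‖T a‖ ≤ 2 := by
  refine Λ.norm_le (s := 0) (by norm_num) ?_
  by_cases ha : T a ∈ Λ.Vt
  exacts [Λ.vt_mem ha, interior_subset (h.int a ha)]

theorem h16coarse_in (h : DChain Λ Φ w κ ϑ R T x) (hn : (Fintype.card Λ.Vt : ℝ) ≤ n)
    {ξ : Λ.Vt → X} {K : ℝ} (hK : 0 ≤ K) (hξ : ∀ v, ‖ξ v‖ ≤ K) {a : V} (ha : T a ∉ Λ.Vt) :
    ‖gen R (fun b => cmb ξ (Φ (x b))) a‖ ≤ 5 * (n * K * ϑ) := by
  rw [h16coarse_gen ξ R fun b => Φ (x b)]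
  have h0 : 0 ≤ n * K := mul_nonneg ((Nat.cast_nonneg _).trans hn) hK
  have h1 := mul_le_mul_of_nonneg_left (h.drift a ha) h0
  linarith [h16coarse_norm hn hK hξ (gen R (fun b => Φ (x b)) a)]

theorem h16coarse_co (h : DChain Λ Φ w κ ϑ R T x) (hn : (Fintype.card Λ.Vt : ℝ) ≤ n)
    {ξ : Λ.Vt → X} {K : ℝ} (hK : 0 ≤ K) (hξ : ∀ v, ‖ξ v‖ ≤ K) {a : V} {α : Λ.Vt} (ha : T a = α) :
    ‖gen R (fun b => cmb ξ (Φ (x b))) a - gen w ξ α‖ ≤ n * K * ϑ * ∑ v, w α v := by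
  have e : gen w ξ α = cmb ξ (gen w (fun v => (Pi.single v 1 : Λ.Vt → ℝ)) α) := by
    rw [← h16coarse_gen]
    simp only [h16coarse_single]
  rw [h16coarse_gen ξ R fun b => Φ (x b), e, h16coarse_sub, mul_assoc (n * K)]
  have h0 : 0 ≤ n * K := mul_nonneg ((Nat.cast_nonneg _).trans hn) hK
  exact (h16coarse_norm hn hK hξ _).trans (mul_le_mul_of_nonneg_left (h.em_drift a α ha) h0)

theorem h16coarse_sq (v : Λ.Vt) : 0 ≤ ‖(v : ℂ)‖ ^ 2 ∧ ‖(v : ℂ)‖ ^ 2 ≤ 4 := by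
  have h1 : ‖(v : ℂ)‖ ≤ 2 := Λ.norm_le (s := 0) (by norm_num) (Λ.vt_mem v.2)
  have h2 := norm_nonneg (v : ℂ)
  exact ⟨by positivity, by nlinarith only [h1, h2]⟩

/-- The basic potential on one disc. -/
theorem h16coarse_k0 (h : DChain Λ Φ w κ ϑ R T x) (hn : (Fintype.card Λ.Vt : ℝ) ≤ n)
    (hκ : 0 < κ) (hκ1 : κ ≤ 1 / 40000) (hϑ : n * ϑ ≤ κ ^ 3 / 4) (hw : ∀ α v, 0 ≤ w α v)
    (hs : ∀ z ∈ Λ.P, Φ z ∈ stdSimplex ℝ Λ.Vt) (hv : ∀ v : Λ.Vt, Φ v = Pi.single v 1) :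
    ∃ k : V → ℝ, (∀ a, T a ∈ Λ.Vt → k a = 64) ∧ (∀ a, 0 ≤ k a ∧ k a ≤ 129) ∧
      (∀ a, T a ∉ Λ.Vt → κ ^ 2 / 2 ≤ -gen R k a) ∧
      ∀ a (α : Λ.Vt), T a = α → gen R k a ≤ 400 * ∑ v, w α v := by
  classical
  obtain ⟨g, hg⟩ : ∃ g : V → ℝ, ∀ b, g b =
    16 * (4 - ‖T b‖ ^ 2) / κ ^ 2 + if T b ∈ Λ.Vt then 0 else 1 := ⟨_, fun _ => rfl⟩
  have hq : ∀ v : Λ.Vt, ‖‖(v : ℂ)‖ ^ 2‖ ≤ 4 := fun v => by
    rw [Real.norm_of_nonneg (h16coarse_sq v).1]
    exact (h16coarse_sq v).2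
  have hg' : ∀ b, κ ^ 2 * g b =
      16 * (4 - ‖T b‖ ^ 2) + κ ^ 2 * if T b ∈ Λ.Vt then 0 else 1 := fun b => by
    rw [hg, mul_add, mul_div_cancel₀ _ (by positivity)]
  have hκ2 : κ ^ 2 ≤ 1 := by nlinarith only [hκ, hκ1]
  have hκ3 : κ ^ 3 ≤ κ ^ 2 / 40000 := by nlinarith only [hκ1]
  refine ⟨fun b => κ ^ 2 * g b + 16 * cmb (fun v : Λ.Vt => ‖(v : ℂ)‖ ^ 2) (Φ (x b)),
    fun a ha => ?_, fun a => ?_, fun a ha => ?_, fun a α ha => ?_⟩
  · have e : Φ (x a) = Pi.single (⟨T a, ha⟩ : Λ.Vt) 1 := by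
      rw [h.xvt a ha]
      exact hv ⟨T a, ha⟩
    simp only [hg', if_pos ha, e, h16coarse_single]
    ring
  · have h1 := h16coarse_mem (hs _ (h.xmem a)) h16coarse_sq
    have h2 := h16coarse_two h a
    have h3 := norm_nonneg (T a)
    have h4 : ‖T a‖ ^ 2 ≤ 4 := by nlinarith only [h2, h3]
    have h5 := sq_nonneg κ
    simp only [hg']
    split_ifs <;> constructor <;> nlinarith only [h1.1, h1.2, sq_nonneg ‖T a‖, h4, hκ, hκ1, hκ2]
  · rw [h16coarse_lin]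
    have h1 : 1 ≤ -gen R g a := by
      rw [funext hg]
      convert h.lyap a ha
    have h2 := (le_abs_self _).trans (h16coarse_in h hn (by norm_num) hq ha)
    have h3 := mul_le_mul_of_nonneg_left h1 (sq_nonneg κ)
    linarith only [sq_nonneg κ, hϑ, hκ3, h2, h3]
  · rw [h16coarse_lin]
    have hW : 0 ≤ ∑ v, w α v := Finset.sum_nonneg fun v _ => hw α v
    have h1 : κ ^ 2 * gen R g a ≤ 64 * ∑ b, R a b * ‖T b - T a‖ + κ * (κ * ∑ b, R a b) := by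
      simp only [gen, smul_eq_mul, Finset.mul_sum, ← Finset.sum_add_distrib]
      refine Finset.sum_le_sum fun b _ => ?_
      have e1 : κ ^ 2 * (g b - g a) ≤ 64 * ‖T b - T a‖ + κ ^ 2 := by
        have e2 : ‖T a‖ - ‖T b‖ ≤ ‖T b - T a‖ := by
          rw [norm_sub_rev]
          exact norm_sub_norm_le _ _
        have e3 := h16coarse_two h a
        have e4 := h16coarse_two h b
        have e5 : ‖T a‖ ^ 2 - ‖T b‖ ^ 2 ≤ 4 * ‖T b - T a‖ := by
          nlinarith only [norm_nonneg (T a), norm_nonneg (T b), norm_nonneg (T b - T a), e2, e3, e4]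
        have e6 : T a ∈ Λ.Vt := ha ▸ α.2
        rw [mul_sub, hg', hg', if_pos e6]
        split_ifs <;> linarith only [sq_nonneg κ, e5]
      linarith only [mul_le_mul_of_nonneg_left e1 (h.nonneg a b)]
    have h2 := (le_abs_self _).trans (h16coarse_co h hn (by norm_num) hq ha)
    have h3 : gen w (fun v : Λ.Vt => ‖(v : ℂ)‖ ^ 2) α ≤ 4 * ∑ v, w α v := by
      rw [Finset.mul_sum]
      refine Finset.sum_le_sum fun v _ => ?_
      rw [smul_eq_mul, mul_comm 4]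
      exact mul_le_mul_of_nonneg_left (by linarith only [(h16coarse_sq v).2, (h16coarse_sq α).1])
        (hw α v)
    have h4 := h.em_len a α ha
    have h5 := mul_le_mul_of_nonneg_left (h.em_rate a α ha) hκ.le
    have h6 : n * 4 * ϑ * ∑ v, w α v ≤ (1 / 4) * ∑ v, w α v :=
      mul_le_mul_of_nonneg_right (by linarith only [hϑ, hκ2, hκ3]) hW
    have h7 : κ * ∑ v, w α v ≤ 1 * ∑ v, w α v := mul_le_mul_of_nonneg_right (by linarith only [hκ, hκ1]) hW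
    linarith only [hW, h1, h2, h3, h4, h5, h6, h7]

/-- The cubic sums. -/
theorem h16coarse_cube (h : DChain Λ Φ w κ ϑ R T x) {L η : ℝ} (hL : 0 ≤ L) (hη : 0 ≤ η)
    (hηκ : η ≤ κ) (hκ1 : κ ≤ 1) (hϑ : ϑ ≤ κ ^ 3) :
    (∀ a, T a ∉ Λ.Vt → ∑ b, R a b * (‖T b - T a‖ * (L * ‖T b - T a‖ + η) ^ 2) ≤
      15 * ((4 * L + 1) ^ 2 * κ * κ ^ 2)) ∧
    ∀ a (α : Λ.Vt), T a = α → ∑ b, R a b * (‖T b - T a‖ * (L * ‖T b - T a‖ + η) ^ 2) ≤
      (4 * L + 1) ^ 2 * κ * κ * (5 * ∑ v, w α v) := by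
  have hκ := hη.trans hηκ
  have key : ∀ a b, ‖T b - T a‖ ≤ 3 * κ →
      (L * ‖T b - T a‖ + η) ^ 2 ≤ ((4 * L + 1) * κ) ^ 2 := fun a b hb => by
    have h1 := mul_le_mul_of_nonneg_left hb hL
    have h2 := mul_nonneg hL hκ
    exact pow_le_pow_left₀ (by positivity) (by linarith) 2
  refine ⟨fun a ha => ?_, fun a α ha => ?_⟩
  · have h1 := h.steps a ha (fun b => ‖T b - T a‖ * (L * ‖T b - T a‖ + η) ^ 2)
      (3 * κ * ((4 * L + 1) * κ) ^ 2) (4 * (4 * L + 1) ^ 2) (by positivity) (by positivity)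
      (fun b => by
        have e1 : ‖T b - T a‖ ≤ 4 := by
          linarith [norm_sub_le (T b) (T a), h16coarse_two h a, h16coarse_two h b]
        have e2 := mul_le_mul_of_nonneg_left e1 hL
        exact mul_le_mul e1 (pow_le_pow_left₀ (by positivity) (by linarith) 2) (by positivity)
          (by norm_num))
      fun b hb => mul_le_mul hb (key a b hb) (by positivity) (by positivity)
    have h2 := mul_le_mul_of_nonneg_right hϑ (sq_nonneg (4 * L + 1))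
    linarith only [h1, h2]
  · have h1 : ∑ b, R a b * (‖T b - T a‖ * (L * ‖T b - T a‖ + η) ^ 2) ≤
        ((4 * L + 1) * κ) ^ 2 * ∑ b, R a b * ‖T b - T a‖ := by
      rw [Finset.mul_sum]
      refine Finset.sum_le_sum fun b _ => ?_
      rcases (h.nonneg a b).eq_or_lt with h0 | h0
      · rw [← h0]
        simp
      · rw [← mul_assoc, mul_comm (_ ^ 2)]
        exact mul_le_mul_of_nonneg_left (key a b (h.em_short a b (ha ▸ α.2) h0)) (by positivity)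
    have h2 := mul_le_mul_of_nonneg_left (h.em_len a α ha) (sq_nonneg ((4 * L + 1) * κ))
    calc _ ≤ _ := h1.trans h2
      _ = _ := by ring

end One

theorem h16coarse_strict {N : Type} [Fintype N] {R : N → N → ℝ} {B : Set N}
    (hR : ∀ a b, 0 ≤ R a b) (hA : Abs R B) {k W : N → ℝ} {J : ℝ} (h0 : ∀ a, 0 ≤ k a)
    (hJ : ∀ a, k a ≤ J) (hW0 : ∀ a, 0 ≤ W a) (hW : ∀ a, a ∉ B → W a ≤ -gen R k a) :
    ∃ k' : N → ℝ, (∀ a, 0 ≤ k' a ∧ k' a ≤ J + 1) ∧
      ∀ a, a ∉ B → 0 < -gen R k' a ∧ W a ≤ -gen R k' a := by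
  obtain ⟨u, hu0, hu⟩ := exists_pot hR hA fun _ => 1
  have h1 : ∀ a, 0 ≤ u a :=
    mat_det_min hR hA (fun a ha => by rw [hu a ha]; norm_num) fun b hb => (hu0 b hb).ge
  have h2 : 0 < ∑ a, u a + 1 := add_pos_of_nonneg_of_pos (Finset.sum_nonneg fun a _ => h1 a) one_pos
  have h3 := inv_pos.2 h2
  refine ⟨fun a => 1 * k a + (∑ a, u a + 1)⁻¹ * u a, fun a => ?_, fun a ha => ?_⟩
  · have h4 : (∑ a, u a + 1)⁻¹ * u a ≤ 1 := by
      rw [inv_mul_le_iff₀ h2]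
      linarith [Finset.single_le_sum (f := u) (fun a _ => h1 a) (Finset.mem_univ a)]
    have h5 := mul_nonneg h3.le (h1 a)
    constructor <;> linarith only [h0 a, hJ a, h5, h4]
  · rw [h16coarse_lin, hu a ha]
    constructor <;> linarith [hW0 a, hW a ha]

section All

variable {Nn X : Type} [Fintype Nn] [NormedAddCommGroup X] [NormedSpace ℝ X] {Λ : C → Lens}
  {V : C → Type} [∀ c, Fintype (V c)] {Φ : ∀ c, ℂ → (Λ c).Vt → ℝ}
  {w : ∀ c, (Λ c).Vt → (Λ c).Vt → ℝ} {κ ϑ n : ℝ} {R : ∀ c, V c → V c → ℝ} {T x : ∀ c, V c → ℂ}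
  {b : ∀ c, (Λ c).Vt → V c}

open Classical in
theorem h16coarse_node (app : ∀ c, (Λ c).Vt → Nn) (D : Nn → Nn → ℝ)
    (h : ∀ c, DChain (Λ c) (Φ c) (w c) κ ϑ (R c) (T c) (x c)) (hb : ∀ c α, T c (b c α) = α)
    (hn : ∀ c, (Fintype.card (Λ c).Vt : ℝ) ≤ n) {ξ : Nn → X} {K : ℝ} (hK : 0 ≤ K)
    (hξ : ∀ a, ‖ξ a‖ ≤ K) (a : Nn) :
    ‖ngen D R (cor Λ T) (fun c y => appx app c (T c y)) ξ
        (fun c y => cmb (fun v => ξ (app c v)) (Φ c (x c y))) a - gen (trace app D w) ξ a‖ ≤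
      n * K * ϑ * ∑ c, ∑ α, if app c α = a then ∑ v, w c α v else 0 := by
  rw [ngen, nsum_cor app (fun c => (h c).inj) hb, gen_trace, add_sub_add_left_eq_sub,
    ← Finset.sum_sub_distrib, Finset.mul_sum]
  refine norm_sum_le_of_le _ fun c _ => ?_
  rw [← Finset.sum_sub_distrib, Finset.mul_sum]
  refine norm_sum_le_of_le _ fun α _ => ?_
  split_ifs
  · exact h16coarse_co (h c) (hn c) hK (fun v => hξ _) (hb c α)
  · simp

open Classical in
theorem h16coarse_nsum (app : ∀ c, (Λ c).Vt → Nn) (hT : ∀ c, Function.Injective (T c))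
    (hb : ∀ c α, T c (b c α) = α) {f : ∀ c, V c → ℝ} {r : ℝ}
    (hf : ∀ c α, f c (b c α) ≤ r * ∑ v, w c α v) (a : Nn) :
    nsum (cor Λ T) (fun c y => appx app c (T c y)) f a ≤
      r * ∑ c, ∑ α, if app c α = a then ∑ v, w c α v else 0 := by
  rw [nsum_cor app hT hb, Finset.mul_sum]
  refine Finset.sum_le_sum fun c _ => ?_
  rw [Finset.mul_sum]
  refine Finset.sum_le_sum fun α _ => ?_
  split_ifs
  exacts [hf c α, (mul_zero r).ge]

theorem h16coarse_bd (app : ∀ c, (Λ c).Vt → Nn)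
    (h : ∀ c, DChain (Λ c) (Φ c) (w c) κ ϑ (R c) (T c) (x c))
    (hv : ∀ c (v : (Λ c).Vt), Φ c v = Pi.single v 1) (ξ : Nn → X) (c : C) (y : V c)
    (hy : T c y ∈ (Λ c).Vt) :
    cmb (fun v => ξ (app c v)) (Φ c (x c y)) = ξ (appx app c (T c y)) := by
  rw [(h c).xvt y hy, hv c ⟨_, hy⟩, h16coarse_single, appx_vt app c ⟨_, hy⟩]

open Classical in
/-- Combinations of the basic potentials of the discs and of the potential of the nodes. -/
theorem h16coarse_comb (app : ∀ c, (Λ c).Vt → Nn) (D : Nn → Nn → ℝ)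
    (h : ∀ c, DChain (Λ c) (Φ c) (w c) κ ϑ (R c) (T c) (x c)) (hb : ∀ c α, T c (b c α) = α)
    (hn : ∀ c, (Fintype.card (Λ c).Vt : ℝ) ≤ n) (hκ : 0 < κ) (hκ1 : κ ≤ 1 / 40000)
    (hϑ : n * ϑ ≤ κ ^ 3 / 4) (hw : ∀ c α v, 0 ≤ w c α v)
    (hs : ∀ c, ∀ z ∈ (Λ c).P, Φ c z ∈ stdSimplex ℝ (Λ c).Vt)
    (hv : ∀ c (v : (Λ c).Vt), Φ c v = Pi.single v 1) {k : Nn → ℝ} {J r s : ℝ} (hJ : 0 ≤ J)
    (hJϑ : n * J * ϑ ≤ κ ^ 3 / 4) (hk : ∀ a, 0 ≤ k a ∧ k a ≤ J) (hr : 0 ≤ r) (hs0 : 0 ≤ s) :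
    ∃ (kN : Nn → ℝ) (u : ∀ c, V c → ℝ), Cmp (cor Λ T) (fun c a => appx app c (T c a)) kN u ∧
      (∀ a, 0 ≤ kN a ∧ kN a ≤ r * 129 + s * J) ∧ (∀ c a, 0 ≤ u c a ∧ u c a ≤ r * 129 + s * J) ∧
      (∀ c a, T c a ∉ (Λ c).Vt → r * (κ ^ 2 / 2) - s * (5 * (κ ^ 3 / 4)) ≤ -gen (R c) (u c) a) ∧
      ∀ a, s * -gen (trace app D w) k a - (s * (κ ^ 3 / 4) + r * 400) *
          (∑ c, ∑ α, if app c α = a then ∑ v, w c α v else 0) ≤
        -ngen D R (cor Λ T) (fun c a => appx app c (T c a)) kN u a := by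
  choose g g1 g2 g3 g4 using fun c => h16coarse_k0 (h c) (hn c) hκ hκ1 hϑ (hw c) (hs c) (hv c)
  have hk' : ∀ a, ‖k a‖ ≤ J := fun a => by
    rw [Real.norm_of_nonneg (hk a).1]
    exact (hk a).2
  have bd : ∀ p q : ℝ, 0 ≤ p ∧ p ≤ 129 → 0 ≤ q ∧ q ≤ J →
      0 ≤ r * p + s * q ∧ r * p + s * q ≤ r * 129 + s * J := fun p q hp hq =>
    ⟨add_nonneg (mul_nonneg hr hp.1) (mul_nonneg hs0 hq.1),
      add_le_add (mul_le_mul_of_nonneg_left hp.2 hr) (mul_le_mul_of_nonneg_left hq.2 hs0)⟩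
  refine ⟨fun a => r * 64 + s * k a,
    fun c y => r * g c y + s * cmb (fun v => k (app c v)) (Φ c (x c y)), fun c y hy => ?_,
    fun a => bd _ _ (by norm_num) (hk a),
    fun c y => bd _ _ (g2 c y) (h16coarse_mem (hs c _ ((h c).xmem y)) fun v => hk _),
    fun c y hy => ?_, fun a => ?_⟩
  · simp only [g1 c y hy, h16coarse_bd app h hv k c y hy]
  · rw [h16coarse_lin]
    have h1 := (le_abs_self _).trans (h16coarse_in (h c) (hn c) hJ (fun v => hk' (app c v)) hy)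
    have h2 := mul_le_mul_of_nonneg_left (h1.trans
      (mul_le_mul_of_nonneg_left hJϑ (by norm_num : (0 : ℝ) ≤ 5))) hs0
    have h3 := mul_le_mul_of_nonneg_left (g3 c y hy) hr
    linarith only [h2, h3]
  · rw [h16coarse_nlin D R _ _ (fun _ => 64) k]
    have hW : 0 ≤ ∑ c, ∑ α, if app c α = a then ∑ v, w c α v else 0 :=
      Finset.sum_nonneg fun c _ => Finset.sum_nonneg fun α _ => by
        split_ifs
        exacts [Finset.sum_nonneg fun v _ => hw c α v, le_rfl]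
    have h1 := (le_abs_self _).trans (h16coarse_node app D h hb hn hJ hk' a)
    have h2 := mul_le_mul_of_nonneg_left
      (h1.trans (mul_le_mul_of_nonneg_right hJϑ hW)) hs0
    have h3 := h16coarse_nsum app (fun c => (h c).inj) hb (f := fun c y => gen (R c) (g c) y)
      (fun c α => g4 c _ α (hb c α)) a
    have h4 : ngen D R (cor Λ T) (fun c a => appx app c (T c a)) (fun _ => 64) g a =
        nsum (cor Λ T) (fun c y => appx app c (T c y)) (fun c y => gen (R c) (g c) y) a := by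
      simp only [ngen, gen, sub_self, smul_eq_mul, mul_zero, Finset.sum_const_zero, zero_add]
    have h5 := mul_le_mul_of_nonneg_left (h4.trans_le h3) hr
    linarith only [h2, h5]

end All

/-- Plan. Let `n ≥ 1` bound all `card (Λ c).Vt`, `J' = J + 1`, `M' = 4 L + 1`, `σ > 0` a lower
bound for the distances of different corners. Choose `κ ≤ min σ (1 / 40000)` with `M' κ ≤ 1 / 40`
and `60 M' ^ 2 (129 + 1000 J') κ ≤ min β 1`, then `ϑ = κ ^ 3 / (4 n (1 + J') (1 + M) M')`;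
`δ ≤ ϑ` below all `δ` of `disc_chain` (finitely many discs; `HP.mono`, `JoinedIn.mono`).
`F c y = cmb (φ ∘ app c) (Φ c (x c y))`, `η = δ + 6 L ϑ ≤ κ` (`coarse_diff`).
Strict potential: `k = k' + k₁ / (max k₁ + 1)` with `k'` from `pot`, `k₁` from `exists_pot` for
`trace` and the function `1` (`mat_det_min`); so `0 ≤ k ≤ J'` and `Y a := - gen trace k a > 0`,
`Y a ≥ W a := ∑ over corners α at a of ∑ v, w c α v`.
For `ξ : Nn → X` with `‖ξ‖ ≤ N` put `ξ^ c y = cmb (ξ ∘ app c) (Φ c (x c y))`; `cmb` is linear with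
`‖cmb ξ p‖ ≤ n N ‖p‖`, so `‖gen (R c) (ξ^ c) y‖ ≤ 5 n N ϑ` inside (`drift`, `gen_map`) and
`‖ngen ξ ξ^ a - gen trace ξ a‖ ≤ n N ϑ W a` (`em_drift`, `gen_trace`, `nsum_cor`).
`k₀ c y = 16 (4 - ‖T y‖ ^ 2) / κ ^ 2 + [T y ∉ Vt] + 16 / κ ^ 2 * cmb (‖·‖ ^ 2) (Φ (x y))` equals
`64 / κ ^ 2` at corners, lies in `[0, 129 / κ ^ 2]`, `- gen k₀ ≥ 1 / 2` inside (`lyap`, `drift`),
and `gen k₀ ≤ 400 / κ ^ 2 * ∑ v, w α v` at a corner (`‖α‖ ^ 2 - ‖T y‖ ^ 2 ≤ 4 ‖T y - α‖`,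
`em_len`, `em_rate`, `em_drift`). `k₁ = k₀ + 1000 / κ ^ 2 * k^` has `- gen ≥ 1 / 4` inside and
`- ngen ≥ 100 Y / κ ^ 2` at nodes. `pot`: `θ k₁` with `θ = 60 M' ^ 2 κ ^ 3` (cubic sums: `steps`
with `c₁ = 3 κ (M' κ) ^ 2`, `c₂ = 4 M' ^ 2`; at corners `em_short`, `em_len`).
`emit`: `10 k^ + θ k₁ ≤ 10 J' + 1`. -/
theorem gcoarse (Λ : C → Lens) {L J M β : ℝ} (hL : 0 ≤ L) (hJ : 0 ≤ J) (hM : 0 ≤ M) (hβ : 0 < β) :
    ∃ δ > 0, ∀ (Nn : Type) [Fintype Nn] (app : ∀ c, (Λ c).Vt → Nn) (B0 : Set Nn)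
      (D : Nn → Nn → ℝ) (w : ∀ c, (Λ c).Vt → (Λ c).Vt → ℝ) (φ : Nn → E)
      (Φ : ∀ c, ℂ → (Λ c).Vt → ℝ), DiscNet Λ app B0 D w φ Φ J M δ →
      (∀ c, ∀ x ∈ (Λ c).P, ∀ y ∈ (Λ c).P,
        ‖cmb (fun v => φ (app c v)) (Φ c x) - cmb (fun v => φ (app c v)) (Φ c y)‖ ≤
          L * ‖cmb (fun v : (Λ c).Vt => (v : ℂ)) (Φ c x) -
            cmb (fun v : (Λ c).Vt => (v : ℂ)) (Φ c y)‖ + δ) →
      ∃ (V : C → Type) (_ : ∀ c, Fintype (V c)) (R : ∀ c, V c → V c → ℝ) (T : ∀ c, V c → ℂ)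
        (F : ∀ c, V c → E) (η : ℝ), 0 ≤ η ∧ GChain Λ (appx app) B0 D φ L β η (10 * J + 11) R T F ∧
        ∀ c, ∀ x ∈ (Λ c).P, ∃ a, T c a ∉ (Λ c).Vt ∧
          ‖T c a - cmb (fun v : (Λ c).Vt => (v : ℂ)) (Φ c x)‖ ≤ β ∧
          ‖F c a - cmb (fun v => φ (app c v)) (Φ c x)‖ ≤ β := by
  classical
  have ev : ∀ r : ℝ, 0 < r → ∀ᶠ t in 𝓝[>] (0 : ℝ), t ≤ r := fun r hr =>
    mem_of_superset (Ioc_mem_nhdsGT hr) fun t ht => ht.2
  have hA : 0 < 60 * (4 * L + 1) ^ 2 * (129 + 1000 * (J + 1)) := by positivity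
  have e1 : ∀ᶠ t in 𝓝[>] (0 : ℝ), ∀ c, ∀ a ∈ (Λ c).Vt, ∀ b ∈ (Λ c).Vt, a ≠ b → t ≤ ‖a - b‖ :=
    eventually_all.2 fun c => (Finset.eventually_all _).2 fun a _ =>
      (Finset.eventually_all _).2 fun b _ => eventually_all.2 fun hab =>
        ev _ (norm_pos_iff.2 (sub_ne_zero.2 hab))
  obtain ⟨κ, ⟨⟨hsep, hκ1⟩, hκA⟩, hκ⟩ := (((e1.and (ev (1 / 40000) (by norm_num))).and
    (ev _ (div_pos (lt_min hβ one_pos) hA))).and self_mem_nhdsWithin).exists
  replace hκ : 0 < κ := hκ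
  rw [le_div_iff₀ hA, le_min_iff] at hκA
  obtain ⟨m, hm⟩ : ∃ m, (4 * L + 1) ^ 2 * κ = m := ⟨_, rfl⟩
  have hκm : κ ≤ m := by
    rw [← hm]
    exact le_mul_of_one_le_left hκ.le (one_le_pow₀ (by linarith only [hL]))
  have hm0 : 0 < m := hκ.trans_le hκm
  have hmA : κ * (60 * (4 * L + 1) ^ 2 * (129 + 1000 * (J + 1))) =
      60 * m * 129 + 60000 * m * (J + 1) := by
    rw [← hm]
    ring
  rw [hmA] at hκA
  have hmJ : 0 ≤ m * J := mul_nonneg hm0.le hJ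
  have hκβ : κ ≤ β := by linarith only [hκA.1, hκ, hκm, hmJ]
  have hκ3 : κ ^ 3 ≤ κ ^ 2 / 40000 := by nlinarith only [hκ1]
  have hκ2 : κ ^ 2 ≤ κ / 40000 := by nlinarith only [hκ1, hκ]
  have hκ30 : 0 < κ ^ 3 := by positivity
  obtain ⟨n, hn'⟩ : ∃ n : ℝ, ∑ c, (Fintype.card (Λ c).Vt : ℝ) = n := ⟨_, rfl⟩
  have hn0 : 0 ≤ n := hn' ▸ Finset.sum_nonneg fun c _ => Nat.cast_nonneg _
  have hn : ∀ c, (Fintype.card (Λ c).Vt : ℝ) ≤ n := fun c => hn' ▸
    Finset.single_le_sum (f := fun c => (Fintype.card (Λ c).Vt : ℝ))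
      (fun c _ => Nat.cast_nonneg _) (Finset.mem_univ c)
  obtain ⟨ϑ, hϑ, hQ⟩ : ∃ ϑ > 0, ∀ t, t ≤ 1 + n + n * (J + 1) + n * M + L → t * ϑ ≤ κ ^ 3 / 4 := by
    have hQ : 0 < 1 + n + n * (J + 1) + n * M + L := by positivity
    refine ⟨κ ^ 3 / 4 / (1 + n + n * (J + 1) + n * M + L), by positivity, fun t ht => ?_⟩
    refine (mul_le_mul_of_nonneg_right ht (by positivity)).trans_eq ?_
    rw [mul_div_cancel₀ _ hQ.ne']
  have hnJ : 0 ≤ n * (J + 1) := by positivity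
  have hnM : 0 ≤ n * M := by positivity
  have q1 := hQ 1 (by linarith only [hL, hn0, hnJ, hnM])
  have q2 := hQ n (by linarith only [hL, hκA, hκm, hmJ, hκ3, hκ2, hϑ, hnJ, hnM, q1])
  have q3 := hQ (n * (J + 1)) (by linarith only [hL, hκA, hκm, hmJ, hκ3, hκ2, hn0, hϑ, hnM, q1])
  have q4 := hQ (n * M) (by linarith only [hL, hκA, hκm, hmJ, hκ3, hκ2, hn0, hϑ, hnJ, q1])
  have q5 := hQ L (by linarith only [hκA, hκm, hmJ, hκ3, hκ2, hn0, hϑ, hnJ, hnM, q1])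
  have q6 : 0 ≤ L * ϑ := by positivity
  choose δ hδ hch using fun c =>
    disc_chain (Λ c) (κ := κ) hϑ (by linarith only [hκ3, hκ2, hϑ, q1]) (by linarith only [hκA, hκm, hmJ]) (hsep c)
  obtain ⟨δ₀, ⟨hδ1, hδ2⟩, hδ0⟩ := (((eventually_all.2 fun c => ev _ (hδ c)).and
    (ev _ hϑ)).and self_mem_nhdsWithin).exists
  replace hδ0 : 0 < δ₀ := hδ0
  refine ⟨δ₀, hδ0, fun Nn _ app B0 D w φ Φ hN hlip => ?_⟩
  choose V iV R T x h using fun c => hch c (Φ c) (w c) (hN.cont c) (hN.simplex c) (hN.vt c)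
    ((hN.hp c).mono (hδ1 c)) (hN.w_nonneg c) (hN.w_self c) fun α l hl h0 => by
      obtain ⟨γ, h1, h2⟩ := hN.em c α l hl h0
      exact ⟨γ, h1, h2.mono fun y hy => ⟨hy.1, by linarith only [hy.2, hδ1 c]⟩⟩
  choose b hb using fun c (α : (Λ c).Vt) => (h c).all α α.2
  obtain ⟨W, hW⟩ : ∃ W : Nn → ℝ, ∀ a,
    (∑ c, ∑ α, if app c α = a then ∑ v, w c α v else 0) = W a := ⟨_, fun _ => rfl⟩
  have hW0 : ∀ a, 0 ≤ W a := fun a => hW a ▸
    Finset.sum_nonneg fun c _ => Finset.sum_nonneg fun α _ => by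
      split_ifs
      exacts [Finset.sum_nonneg fun v _ => hN.w_nonneg c α v, le_rfl]
  obtain ⟨k', k1, k2, k3⟩ := hN.pot
  obtain ⟨k, hk, hY⟩ := h16coarse_strict (R := trace app D w) (W := W)
    (fun a a' => add_nonneg (hN.a_nonneg a a') (Finset.sum_nonneg fun c _ =>
      Finset.sum_nonneg fun α _ => Finset.sum_nonneg fun γ _ => by
        split_ifs
        exacts [hN.w_nonneg c α γ, le_rfl]))
    hN.abs k1 k2 hW0 fun a ha => by
      refine le_of_eq_of_le ?_ (k3 a ha)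
      rw [← hW]
      simp only [Finset.sum_ite_irrel, Finset.sum_const_zero]
  have comb := fun r s => h16coarse_comb app D h hb hn hκ hκ1 q2 hN.w_nonneg hN.simplex hN.vt
    (r := r) (s := s) (by linarith only [hJ]) q3 hk
  simp only [hW] at comb
  have hη0 : 0 ≤ δ₀ + 6 * (L * ϑ) := by positivity
  have cube := fun c => h16coarse_cube (h c) hL hη0 (by linarith only [hκ3, hκ2, hϑ, q1, q5, hδ2]) (by linarith only [hκA, hκm, hmJ]) (by linarith only [hϑ, q1])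
  simp only [hm] at cube
  have hmκ : m * κ ^ 3 ≤ m * (κ ^ 2 / 40000) := mul_le_mul_of_nonneg_left hκ3 hm0.le
  have hκκ : κ ^ 3 ≤ m * κ ^ 2 := by
    rw [pow_succ' κ 2]
    exact mul_le_mul_of_nonneg_right hκm (sq_nonneg κ)
  refine ⟨V, iV, R, T, fun c y => cmb (fun v => φ (app c v)) (Φ c (x c y)), δ₀ + 6 * (L * ϑ), hη0,
    ⟨hN.a_nonneg, fun c => (h c).nonneg, fun c => (h c).int, h16coarse_bd app h hN.vt φ,
      fun c => (h c).all, fun c => (h c).inj, fun c => (h c).novv, fun c => (h c).harmT,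
      fun c a a' => ?_, fun c => (h c).vert, fun c => (h c).gen3, fun c => (h c).corner, ?_, ?_⟩,
    fun c y hy => ?_⟩
  · have h1 := hlip c _ ((h c).xmem a) _ ((h c).xmem a')
    have h2 := mul_le_mul_of_nonneg_left (coarse_diff ((h c).move a) ((h c).move a')).1 hL
    linarith only [h1, h2]
  · obtain ⟨kN, u, c1, c2, c3, c4, c5⟩ := comb (60 * m) (60000 * m) (by positivity) (by positivity)
    refine ⟨kN, u, c1, fun a => ⟨(c2 a).1, (c2 a).2.trans hκA.1⟩,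
      fun c a => ⟨(c3 c a).1, (c3 c a).2.trans hκA.1⟩, fun c a ha => ?_, fun a ha => ?_⟩
    · have h1 : 15 * (m * κ ^ 2) ≤ -gen (R c) (u c) a := by linarith only [c4 c a ha, hϑ, q1, hmκ, hκκ]
      have h2 := h16coarse_in (h c) (hn c) hM (fun v => hN.bound (app c v)) ha
      exact ⟨by linarith only [hϑ, q1, hκκ, h1], by linarith only [hϑ, q1, q4, hκκ, h1, h2], ((cube c).1 a ha).trans h1⟩
    · obtain ⟨y1, y2⟩ := hY a ha
      have h0 := mul_le_mul_of_nonneg_left y2 hm0.le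
      have h1 := mul_pos hm0 y1
      have h2 : m * κ ^ 3 * W a ≤ m * 1 * W a :=
        mul_le_mul_of_nonneg_right (mul_le_mul_of_nonneg_left (by linarith only [hκA, hκm, hmJ, hκ3, hκ2]) hm0.le) (hW0 a)
      have h3 : 21000 * (m * -gen (trace app D w) k a) ≤
          -ngen D R (cor Λ T) (fun c a => appx app c (T c a)) kN u a := by linarith only [c5 a, h0, h2]
      have h4 := h16coarse_node app D h hb hn hM hN.bound a
      rw [hN.harm a ha, sub_zero, hW] at h4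
      have h5 : n * M * ϑ * W a ≤ m * W a := mul_le_mul_of_nonneg_right (by linarith only [hκm, hκ3, hκ2, hϑ, q1, q4]) (hW0 a)
      have h6 := h16coarse_nsum app (fun c => (h c).inj) hb (w := w) (r := 5 * m)
        (f := fun c a => ∑ b, R c a b *
          (‖T c b - T c a‖ * (L * ‖T c b - T c a‖ + (δ₀ + 6 * (L * ϑ))) ^ 2))
        (fun c α => ((cube c).2 _ α (hb c α)).trans (by
          have e2 : 0 ≤ m * ∑ v, w c α v :=
            mul_nonneg hm0.le (Finset.sum_nonneg fun v _ => hN.w_nonneg c α v)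
          nlinarith only [hκ1, e2])) a
      rw [hW] at h6
      exact ⟨by linarith only [h1, h3], by linarith only [h0, h1, h3, h4, h5], by linarith only [h0, h1, h3, h6]⟩
  · obtain ⟨kN, u, c1, c2, c3, c4, c5⟩ := comb (60 * m) (60000 * m + 10) (by positivity)
      (by positivity)
    have h0 : 60 * m * 129 + (60000 * m + 10) * (J + 1) ≤ 10 * J + 11 := by linarith only [hκA.2]
    refine ⟨kN, u, c1, fun a => ⟨(c2 a).1, (c2 a).2.trans h0⟩,
      fun c a => ⟨(c3 c a).1, (c3 c a).2.trans h0⟩, fun c a ha => by linarith only [c4 c a ha, hϑ, q1, hmκ, hκκ],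
      fun a ha => ?_⟩
    obtain ⟨y1, y2⟩ := hY a ha
    have h1 := mul_le_mul_of_nonneg_left y2 hm0.le
    have h2 : m * κ ^ 3 * W a ≤ m * 1 * W a :=
      mul_le_mul_of_nonneg_right (mul_le_mul_of_nonneg_left (by linarith only [hκA, hκm, hmJ, hκ3, hκ2]) hm0.le) (hW0 a)
    have h3 : κ ^ 3 * W a ≤ 1 * W a := mul_le_mul_of_nonneg_right (by linarith only [hκA, hκm, hmJ, hκ3, hκ2]) (hW0 a)
    have h4 := mul_nonneg hm0.le (hW0 a)
    have h6 := h16coarse_nsum app (fun c => (h c).inj) hb (w := w) (r := 5)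
      (f := fun c a => ∑ b, R c a b * ‖T c b - T c a‖) (fun c α => (h c).em_len _ α (hb c α)) a
    rw [hW] at h6
    linarith only [c5 a, y1, y2, h1, h2, h3, h4, h6]
  · obtain ⟨a, h1, h2, h3⟩ := (h c).net y hy
    refine ⟨a, h1, by linarith only [hκA, hκm, hmJ, hκ3, hκ2, hϑ, q1, h3], ?_⟩
    rw [h16coarse_sub]
    have h4 := h16coarse_norm (hn c) hM (fun v => hN.bound (app c v)) (Φ c (x c a) - Φ c y)
    have h5 := mul_le_mul_of_nonneg_left h2 hnM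
    linarith only [hκA, hκm, hmJ, hκ3, hκ2, hϑ, q1, q4, h4, h5]

end H16Coarse

section H16LensA

open Set H14 T55 Filter Topology Metric
open scoped BigOperators InnerProductSpace

theorem h16lensa_conc (Λ : Lens) {p q y : ℝ} (h : p < q) (h1 : p ≤ y) (h2 : y ≤ q) :
    (q - y) * Λ.up p + (y - p) * Λ.up q ≤ (q - p) * Λ.up y := by
  have hd : 0 < q - p := sub_pos.2 h
  have h3 := Λ.conc.2 (mem_univ p) (mem_univ q) (div_nonneg (sub_nonneg.2 h2) hd.le)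
    (div_nonneg (sub_nonneg.2 h1) hd.le) (by field_simp; ring)
  have h4 : ((q - y) / (q - p)) • p + ((y - p) / (q - p)) • q = y := by
    simp only [smul_eq_mul]
    field_simp
    ring
  rw [h4] at h3
  simp only [smul_eq_mul] at h3
  have h5 := mul_le_mul_of_nonneg_left h3 hd.le
  have h6 : (q - p) * ((q - y) / (q - p) * Λ.up p + (y - p) / (q - p) * Λ.up q) =
      (q - y) * Λ.up p + (y - p) * Λ.up q := by
    field_simp
  linarith only [h5, h6]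

theorem h16lensa_nonneg (Λ : Lens) {x : ℝ} (hx : |x| ≤ 1) : 0 ≤ Λ.up x := by
  have := Λ.half_le hx
  linarith

theorem h16lensa_abs {e u : ℝ} (he : e = 1 ∨ e = -1) (hu : 0 ≤ u) : |e * u| = u := by
  rcases he with rfl | rfl
  · rw [one_mul, abs_of_nonneg hu]
  · rw [neg_one_mul, abs_neg, abs_of_nonneg hu]

/-- Plan: for `e = ± 1` and `|x| ≤ 1` there are corners `a`, `b` with `a.im = e * up a.re`,
`b.im = e * up b.re`, `a.re ≤ x ≤ b.re`, `a.re < b.re`, and no such corner with real part strictly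
between (finite set, `± 1` are corners of both signs). All corners lie on one side of the chord
through `a`, `b` (concavity of `up` outside `[a.re, b.re]`; `up ≥ 0`), so does `Λ.P` (`Λ.hull`);
by concavity `up` is at least the chord on `[a.re, b.re]`, so it equals the chord there. -/
theorem lens_chord (Λ : Lens) {e x : ℝ} (he : e = 1 ∨ e = -1) (hx : |x| ≤ 1) :
    ∃ a ∈ Λ.Vt, ∃ b ∈ Λ.Vt, a.re < b.re ∧ a.re ≤ x ∧ x ≤ b.re ∧ a.im = e * Λ.up a.re ∧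
      b.im = e * Λ.up b.re ∧
      (∀ y ∈ Icc a.re b.re,
        (b.re - a.re) * Λ.up y = (b.re - y) * Λ.up a.re + (y - a.re) * Λ.up b.re) ∧
      ∀ z ∈ Λ.P, (b.re - a.re) * (e * z.im) ≤
        (b.re - z.re) * Λ.up a.re + (z.re - a.re) * Λ.up b.re := by
  classical
  obtain ⟨hx1, hx2⟩ := abs_le.1 hx
  have hee : e * e = 1 := by rcases he with rfl | rfl <;> norm_num
  obtain ⟨a, ha, hamax⟩ := (Λ.Vt.filter fun v => v.im = e * Λ.up v.re ∧ v.re ≤ x ∧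
    v.re < 1).exists_max_image (fun v => v.re) ⟨-1, by
      simp only [Finset.mem_filter, Complex.neg_re, Complex.one_re, Complex.neg_im, Complex.one_im,
        neg_zero, Λ.up_neg, mul_zero, true_and]
      exact ⟨Λ.neg_mem, hx1, by norm_num⟩⟩
  obtain ⟨haV, haS, hax, ha1⟩ := Finset.mem_filter.1 ha
  obtain ⟨b, hb, hbmin⟩ := (Λ.Vt.filter fun v => v.im = e * Λ.up v.re ∧
    a.re < v.re).exists_min_image (fun v => v.re) ⟨1, by
      simp only [Finset.mem_filter, Complex.one_re, Complex.one_im, Λ.up_one, mul_zero, true_and]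
      exact ⟨Λ.one_mem, ha1⟩⟩
  obtain ⟨hbV, hbS, hab⟩ := Finset.mem_filter.1 hb
  have hxb : x ≤ b.re := by
    by_contra hn
    have hn' : b.re < x := lt_of_not_ge hn
    have := hamax b (Finset.mem_filter.2 ⟨hbV, hbS, hn'.le, by linarith⟩)
    linarith only [hab, this]
  have hua := h16lensa_nonneg Λ (Λ.vt a haV).1
  have hub := h16lensa_nonneg Λ (Λ.vt b hbV).1
  have hd : 0 < b.re - a.re := sub_pos.2 hab
  have hV : ∀ v ∈ Λ.Vt, (b.re - a.re) * (e * v.im) ≤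
      (b.re - v.re) * Λ.up a.re + (v.re - a.re) * Λ.up b.re := fun v hv => by
    obtain ⟨hv1, hv2⟩ := Λ.vt v hv
    have huv := h16lensa_nonneg Λ hv1
    have hle : e * v.im ≤ Λ.up v.re := by
      rw [← hv2]
      rcases he with rfl | rfl
      · rw [one_mul]; exact le_abs_self _
      · rw [neg_one_mul]; exact neg_le_abs _
    have hle' := mul_le_mul_of_nonneg_left hle hd.le
    rcases le_or_gt v.re a.re with h | h
    · have := h16lensa_conc Λ (h.trans_lt hab) h hab.le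
      linarith
    rcases le_or_gt b.re v.re with h' | h'
    · have := h16lensa_conc Λ h hab.le h'
      linarith
    have hne : v.im ≠ e * Λ.up v.re := fun hS => by
      have := hbmin v (Finset.mem_filter.2 ⟨hv, hS, h⟩)
      linarith only [h', this]
    have hneg : e * v.im ≤ 0 := by
      rcases abs_eq huv |>.1 hv2 with h2 | h2 <;> rcases he with rfl | rfl
      · exact absurd (by rw [h2, one_mul]) hne
      · rw [h2]; linarith only [huv]
      · rw [h2]; linarith only [huv]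
      · exact absurd (by rw [h2, neg_one_mul]) hne
    have h1 := mul_nonneg (sub_nonneg.2 h'.le) hua
    have h2 := mul_nonneg (sub_nonneg.2 h.le) hub
    have h3 := mul_nonneg hd.le (neg_nonneg.2 hneg)
    linarith only [h1, h2, h3]
  have hP : ∀ z ∈ Λ.P, (b.re - a.re) * (e * z.im) ≤
      (b.re - z.re) * Λ.up a.re + (z.re - a.re) * Λ.up b.re := fun z hz => by
    refine convexHull_min (t := {z : ℂ | (b.re - a.re) * (e * z.im) ≤
      (b.re - z.re) * Λ.up a.re + (z.re - a.re) * Λ.up b.re}) (fun v hv => hV v hv) ?_ (Λ.hull hz)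
    intro u hu w hw s t hs ht hst
    have h1 := mul_le_mul_of_nonneg_left hu hs
    have h2 := mul_le_mul_of_nonneg_left hw ht
    obtain rfl : t = 1 - s := by linarith only [hst]
    simp only [mem_ofPred_eq, Complex.add_re, Complex.add_im, Complex.smul_re, Complex.smul_im,
      smul_eq_mul]
    linarith only [h1, h2]
  refine ⟨a, haV, b, hbV, hab, hax, hxb, haS, hbS, fun y hy => le_antisymm ?_
    (h16lensa_conc Λ hab hy.1 hy.2), hP⟩
  have hy1 : |y| ≤ 1 := abs_le.2 ⟨(abs_le.1 (Λ.vt a haV).1).1.trans hy.1,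
    hy.2.trans (abs_le.1 (Λ.vt b hbV).1).2⟩
  have := hP ⟨y, e * Λ.up y⟩ ⟨hy1, by
    rw [add_zero]; exact (h16lensa_abs he (h16lensa_nonneg Λ hy1)).le⟩
  rwa [← mul_assoc e e, hee, one_mul] at this

/-- From `lens_chord` and `Lens.mem_frontier`. -/
theorem lens_side (Λ : Lens) {y : ℂ} (hy : y ∈ frontier Λ.P) :
    ∃ v v' : ℂ, v ≠ v' ∧ y ∈ segment ℝ v v' ∧ segment ℝ v v' ⊆ frontier Λ.P := by
  obtain ⟨⟨h1, h2⟩, h3⟩ := Λ.mem_frontier.1 hy
  rw [add_zero] at h2 h3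
  have h0 := h16lensa_nonneg Λ h1
  have h4 : |y.im| = Λ.up y.re := h3.elim (fun h => by
    have h5 := Λ.le_two h1
    rw [h] at h5
    linarith [abs_nonneg y.im]) id
  obtain ⟨e, he, hye⟩ : ∃ e : ℝ, (e = 1 ∨ e = -1) ∧ y.im = e * Λ.up y.re := by
    rcases (abs_eq h0).1 h4 with h | h
    · exact ⟨1, Or.inl rfl, by rw [h, one_mul]⟩
    · exact ⟨-1, Or.inr rfl, by rw [h, neg_one_mul]⟩
  obtain ⟨a, haV, b, hbV, hab, hax, hxb, haS, hbS, hch, -⟩ := lens_chord Λ he h1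
  have hd : 0 < b.re - a.re := sub_pos.2 hab
  refine ⟨a, b, fun h => by rw [h] at hab; exact lt_irrefl _ hab, ?_, ?_⟩
  · refine ⟨(b.re - y.re) / (b.re - a.re), (y.re - a.re) / (b.re - a.re),
      div_nonneg (sub_nonneg.2 hxb) hd.le, div_nonneg (sub_nonneg.2 hax) hd.le,
      by field_simp; ring, Complex.ext ?_ ?_⟩
    · simp only [Complex.add_re, Complex.smul_re, smul_eq_mul]
      field_simp
      ring
    · simp only [Complex.add_im, Complex.smul_im, smul_eq_mul]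
      rw [haS, hbS, hye]
      have := hch y.re ⟨hax, hxb⟩
      field_simp
      linear_combination -e * this
  · rintro z ⟨s, t, hs, ht, hst, rfl⟩
    obtain rfl : t = 1 - s := by linarith only [hst]
    have hre : (s • a + (1 - s) • b).re = s * a.re + (1 - s) * b.re := by
      simp only [Complex.add_re, Complex.smul_re, smul_eq_mul]
    have him : (s • a + (1 - s) • b).im = e * (s * Λ.up a.re + (1 - s) * Λ.up b.re) := by
      simp only [Complex.add_im, Complex.smul_im, smul_eq_mul]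
      rw [haS, hbS]
      ring
    have hm : s * a.re + (1 - s) * b.re ∈ Icc a.re b.re := ⟨by nlinarith only [hab, ht], by nlinarith only [hab, hs]⟩
    have hy1 : |s * a.re + (1 - s) * b.re| ≤ 1 :=
      abs_le.2 ⟨(abs_le.1 (Λ.vt a haV).1).1.trans hm.1, hm.2.trans (abs_le.1 (Λ.vt b hbV).1).2⟩
    have hup : s * Λ.up a.re + (1 - s) * Λ.up b.re = Λ.up (s * a.re + (1 - s) * b.re) := by
      refine mul_left_cancel₀ hd.ne' ?_
      rw [hch _ hm]
      ring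
    have habs : |(s • a + (1 - s) • b).im| = Λ.up (s • a + (1 - s) • b).re + 0 := by
      rw [him, hre, hup, add_zero]
      exact h16lensa_abs he (h16lensa_nonneg Λ hy1)
    exact Λ.mem_frontier.2 ⟨⟨by rw [hre]; exact hy1, habs.le⟩, Or.inr habs⟩

/-- Plan: the lines `re = ± 1` and, for all `e = ± 1` and pairs of corners with the last property
of `lens_chord` and `a.re < b.re`, the chord. -/
theorem lens_half (Λ : Lens) : ∃ L₀ : Finset (ℂ × ℝ), (∀ l ∈ L₀, l.1 ≠ 0) ∧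
    Λ.P = {z | ∀ l ∈ L₀, 0 ≤ af l z} := by
  classical
  let ln : ℝ × ℂ × ℂ → ℂ × ℝ := fun p =>
    (⟨Λ.up p.2.2.re - Λ.up p.2.1.re, (p.2.2.re - p.2.1.re) * p.1⟩,
      p.2.1.re * Λ.up p.2.2.re - p.2.2.re * Λ.up p.2.1.re)
  have hln : ∀ (e : ℝ) (a b z : ℂ), af (ln (e, a, b)) z = (b.re - z.re) * Λ.up a.re +
      (z.re - a.re) * Λ.up b.re - (b.re - a.re) * (e * z.im) := fun e a b z => by
    simp only [af, ln, Complex.mul_re]
    ring
  let F : Finset (ℝ × ℂ × ℂ) := (({1, -1} : Finset ℝ) ×ˢ Λ.Vt ×ˢ Λ.Vt).filter fun p =>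
    p.2.1.re < p.2.2.re ∧ ∀ z ∈ Λ.P, 0 ≤ af (ln p) z
  refine ⟨{(1, -1), (-1, -1)} ∪ F.image ln, fun l hl => ?_, Set.ext fun z => ⟨fun hz l hl => ?_,
    fun hz => ?_⟩⟩
  · rcases Finset.mem_union.1 hl with h | h
    · rcases Finset.mem_insert.1 h with rfl | h
      · exact one_ne_zero
      · rw [Finset.mem_singleton.1 h]
        exact neg_ne_zero.2 one_ne_zero
    · obtain ⟨⟨e, a, b⟩, hp, rfl⟩ := Finset.mem_image.1 h
      obtain ⟨h1, h2, -⟩ := Finset.mem_filter.1 hp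
      have h3 := (Finset.mem_product.1 h1).1
      intro h0
      have h4 : (b.re - a.re) * e = 0 := congrArg Complex.im h0
      have h5 : b.re - a.re ≠ 0 := (sub_pos.2 h2).ne'
      have h6 := (mul_eq_zero.1 h4).resolve_left h5
      rcases Finset.mem_insert.1 h3 with h | h
      · exact one_ne_zero (h.symm.trans h6)
      · exact neg_ne_zero.2 one_ne_zero ((Finset.mem_singleton.1 h).symm.trans h6)
  · obtain ⟨h1, h2⟩ := abs_le.1 hz.1
    rcases Finset.mem_union.1 hl with h | h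
    · rcases Finset.mem_insert.1 h with rfl | h
      · simp only [af, one_mul]
        linarith
      · rw [Finset.mem_singleton.1 h]
        simp only [af, neg_mul, one_mul, Complex.neg_re]
        linarith
    · obtain ⟨p, hp, rfl⟩ := Finset.mem_image.1 h
      exact (Finset.mem_filter.1 hp).2.2 z hz
  · have h1 := hz (1, -1) (by simp only [Finset.insert_union, Finset.singleton_union, Finset.mem_insert, Prod.mk.injEq, and_true, Finset.mem_image, Prod.exists, true_or])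
    have h2 := hz (-1, -1) (by simp only [Finset.insert_union, Finset.singleton_union, Finset.mem_insert, Prod.mk.injEq, and_true, Finset.mem_image, Prod.exists, true_or, or_true])
    simp only [af, neg_mul, one_mul, Complex.neg_re] at h1 h2
    have hx : |z.re| ≤ 1 := abs_le.2 ⟨by linarith, by linarith⟩
    have key : ∀ e : ℝ, (e = 1 ∨ e = -1) → e * z.im ≤ Λ.up z.re := fun e he => by
      obtain ⟨a, haV, b, hbV, hab, hax, hxb, -, -, hch, hP⟩ := lens_chord Λ he hx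
      have h3 := hz (ln (e, a, b)) (Finset.mem_union_right _ (Finset.mem_image_of_mem _
        (Finset.mem_filter.2 ⟨Finset.mem_product.2 ⟨by simpa using he,
          Finset.mem_product.2 ⟨haV, hbV⟩⟩, hab, fun w hw => by
            rw [hln]; exact sub_nonneg.2 (hP w hw)⟩)))
      rw [hln, ← hch _ ⟨hax, hxb⟩] at h3
      exact le_of_mul_le_mul_left (sub_nonneg.1 h3) (sub_pos.2 hab)
    have h3 := key 1 (Or.inl rfl)
    have h4 := key (-1) (Or.inr rfl)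
    exact ⟨hx, abs_le.2 ⟨by linarith, by linarith⟩⟩

end H16LensA

section H16Lens

open Set H14 T55 Filter Topology Metric
open scoped BigOperators InnerProductSpace

/-- Walking from `a` to `b` along a line of the arrangement. Plan: induction on the number of
vertices on `segment ℝ a b`. If `a ≠ b`, the vertex `a' ≠ a` of the segment nearest to `a`
satisfies `Nbr L Q a a'`; `u` is affine on the segment, so `u a' ≤ m = u a` gives `u b ≤ m`, and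
`u b = m` gives `u a' = m`. -/
theorem walk {L : Finset (ℂ × ℝ)} {Q X : Set ℂ} {u : ℂ → ℝ} {m : ℝ} {a b : ℂ}
    (hb : b ∈ vert L Q) {l : ℂ × ℝ} (hl : l ∈ L) (hla : af l a = 0) (hlb : af l b = 0)
    (ha : a ∈ vert L Q) (haX : a ∈ X) (hm : ∀ p ∈ X, u p = m)
    (hu : ∀ t ∈ Icc (0 : ℝ) 1, AffineMap.lineMap a b t ∈ vert L Q →
      u (AffineMap.lineMap a b t) = (1 - t) * u a + t * u b)
    (hX : ∀ p ∈ X, ∀ q, Nbr L Q p q → segment ℝ p q ⊆ segment ℝ a b →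
      u q ≤ m ∧ (u q = m → q ∈ X)) :
    u b ≤ m ∧ (u b = m → b ∈ X) := by
  by_cases hab : a = b
  · exact hab ▸ ⟨(hm a haX).le, fun _ => haX⟩
  have hγ : ∀ t : ℝ, AffineMap.lineMap a b t = a + t • (b - a) := fun t => by
    simp [AffineMap.lineMap_apply, add_comm]
  simp only [hγ] at hu
  have hv : b - a ≠ 0 := sub_ne_zero.2 (Ne.symm hab)
  have hinj : Function.Injective fun t : ℝ => a + t • (b - a) := fun s t h =>
    smul_left_injective ℝ hv (add_left_cancel h)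
  have hfin : {t : ℝ | a + t • (b - a) ∈ vert L Q}.Finite :=
    (a11_finP (L := L) (Q := Q)).preimage hinj.injOn
  obtain ⟨s, ⟨hs, hsV, hsX⟩, hmax⟩ := exists_max_image
    {t : ℝ | t ∈ Icc (0 : ℝ) 1 ∧ a + t • (b - a) ∈ vert L Q ∧ a + t • (b - a) ∈ X} id
    (hfin.subset fun t ht => ht.2.1) ⟨0, ⟨le_rfl, zero_le_one⟩, by simpa using ha, by simpa using haX⟩
  rcases hs.2.eq_or_lt with rfl | hs1
  · have hbX : b ∈ X := by simpa using hsX
    exact ⟨(hm b hbX).le, fun _ => hbX⟩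
  obtain ⟨t, ⟨ht, htV⟩, hmin⟩ := exists_min_image
    {t : ℝ | t ∈ Ioc s 1 ∧ a + t • (b - a) ∈ vert L Q} id
    (hfin.subset fun t ht => ht.2) ⟨1, ⟨hs1, le_rfl⟩, by simpa only [one_smul, add_sub_cancel] using hb⟩
  have e : ∀ θ : ℝ, a + s • (b - a) + θ • (a + t • (b - a) - (a + s • (b - a))) =
      a + (s + θ * (t - s)) • (b - a) := fun θ => by module
  have hl0 : ∀ θ : ℝ, af l (a + θ • (b - a)) = 0 := fun θ => by
    rw [a11_add, a11_sub, hla, hlb, sub_self, mul_zero, add_zero]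
  have hN : Nbr L Q (a + s • (b - a)) (a + t • (b - a)) := by
    refine ⟨hsV, htV, fun h => ht.1.ne (hinj h), ⟨l, hl, hl0 s, hl0 t⟩,
      disjoint_left.2 fun y hy hV => ?_⟩
    rw [openSegment_eq_image'] at hy
    obtain ⟨θ, hθ, rfl⟩ := hy
    simp only [e] at hV
    have h1 := mul_pos hθ.1 (sub_pos.2 ht.1)
    have h2 := mul_pos (sub_pos.2 hθ.2) (sub_pos.2 ht.1)
    have h3 : t ≤ s + θ * (t - s) := hmin _ ⟨⟨by linarith, by linarith [ht.2]⟩, hV⟩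
    linarith
  have ht' : t ∈ Icc (0 : ℝ) 1 := ⟨hs.1.trans ht.1.le, ht.2⟩
  have hseg : ∀ θ ∈ Icc (0 : ℝ) 1, a + θ • (b - a) ∈ segment ℝ a b := fun θ hθ => by
    rw [segment_eq_image']
    exact ⟨θ, hθ, rfl⟩
  obtain ⟨h1, h2⟩ := hX _ hsX _ hN ((convex_segment a b).segment_subset (hseg s hs) (hseg t ht'))
  have h3 : u (a + t • (b - a)) < m :=
    h1.lt_of_ne fun h => ht.1.not_ge (hmax t ⟨ht', htV, h2 h⟩)
  rw [hu t ht' htV, hm a haX] at h3
  have h4 : u b < m := lt_of_mul_lt_mul_left (by linarith) ht'.1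
  exact ⟨h4.le, fun h => absurd h h4.ne⟩

/-- The frontier is covered by edges. Plan: `lens_side` gives a segment `J` in the frontier;
`a11_acc` with the finite set of vertices; a point of `J` that is not a vertex lies on a line of
`L₀` (`a11_frontier`), in an open edge (`a11_edge`), and the edge lies on the same line
(`a11_face`); the union of the finitely many closed edges in the frontier is closed. -/
theorem lens_edges (Λ : Lens) {L L₀ : Finset (ℂ × ℝ)} (h0 : L₀ ⊆ L) (hL : ∀ l ∈ L, l.1 ≠ 0)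
    (hQ : Λ.P = {z | ∀ l ∈ L₀, 0 ≤ af l z}) {y : ℂ} (hy : y ∈ frontier Λ.P) :
    ∃ a b, Nbr L Λ.P a b ∧ y ∈ segment ℝ a b ∧ segment ℝ a b ⊆ frontier Λ.P := by
  obtain ⟨v, v', hne, hyJ, hJ⟩ := lens_side Λ hy
  have hq : Convex ℝ Λ.P := Λ.convex_reg 0
  have hc : IsCompact Λ.P := Λ.compact_reg 0
  have hfr : frontier Λ.P = {w ∈ Λ.P | ∃ l ∈ L₀, af l w = 0} := by
    simpa only [one_mul, ← hQ] using
      (a11_frontier (L := L₀) (fun l hl => hL l (h0 hl)) (c := fun _ => 1) fun _ _ => one_ne_zero).2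
  have hE : {e | ∃ a b, Nbr L Λ.P a b ∧ e = segment ℝ a b}.Finite := by
    refine (((a11_finP (L := L) (Q := Λ.P)).prod (a11_finP (L := L) (Q := Λ.P))).image
      fun p => segment ℝ p.1 p.2).subset ?_
    rintro _ ⟨a, b, h, rfl⟩
    exact ⟨(a, b), ⟨h.1, h.2.1⟩, rfl⟩
  have h3 : IsClosed (⋃ e ∈ {e ∈ {e | ∃ a b, Nbr L Λ.P a b ∧ e = segment ℝ a b} |
      e ⊆ frontier Λ.P}, e) := by
    refine (hE.subset (sep_subset _ _)).isClosed_biUnion ?_
    rintro _ ⟨⟨a, b, -, rfl⟩, -⟩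
    rw [segment_eq_image']
    exact (isCompact_Icc.image (by fun_prop)).isClosed
  obtain ⟨_, ⟨⟨a, b, h, rfl⟩, h4⟩, h5⟩ := mem_iUnion₂.1 (closure_minimal (s := segment ℝ v v' \
    vert L Λ.P) (by
      rintro x ⟨hx, hV⟩
      have h6 := hJ hx
      rw [hfr] at h6
      obtain ⟨h6, l, hl, e⟩ := h6
      obtain ⟨a, b, h, h7⟩ := a11_edge h0 hL hQ hc h6 hV (h0 hl) e
      refine mem_biUnion (x := segment ℝ a b) ⟨⟨a, b, h, rfl⟩, fun w hw => ?_⟩
        (openSegment_subset_segment ℝ a b h7)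
      rw [hfr]
      exact ⟨hq.segment_subset h.1.1 h.2.1.1 hw, l, hl,
        ((a11_face hL hq h h7 w).1 hw l (h0 hl)).2 e⟩) h3
    (a11_acc (convex_segment v v').isPreconnected
      ⟨v, left_mem_segment ℝ v v', v', right_mem_segment ℝ v v', hne⟩ a11_finP hyJ))
  exact ⟨a, b, h, h5, h4⟩

end H16Lens

section H16CellsA

open Set H14 T55 Filter Topology Metric
open scoped BigOperators InnerProductSpace

variable {Λ : Lens} {Nd : Finset ℂ} {r : Nd → Nd → ℝ}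

/-- The target of a point: the nearest point of `A` above it on the vertical, or, if there is
none, the nearest one below. Plan: `A` meets every vertical in a compact set. If the gap above
`p` were longer than `2 s`, apply `hd` to its midpoint. -/
theorem exists_target {P A : Set ℂ} (hP : Convex ℝ P) (hA : IsCompact A) (hAP : A ⊆ P) {s : ℝ}
    (hd : ∀ p ∈ P, ∃ p' ∈ A, p'.re = p.re ∧ ‖p' - p‖ ≤ s) :
    ∃ t : ℂ → ℂ, (∀ p ∈ A, t p = p) ∧ ∀ p ∈ P, t p ∈ A ∧ (t p).re = p.re ∧ ‖t p - p‖ ≤ 2 * s ∧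
      ∀ q ∈ segment ℝ p (t p), t q = t p := by
  classical
  obtain ⟨R, hR⟩ : ∃ R : ℂ → ℂ → Prop, ∀ p w, R p w ↔ w ∈ A ∧ w.re = p.re ∧
      ((p.im ≤ w.im ∧ ∀ w' ∈ A, w'.re = p.re → p.im ≤ w'.im → w.im ≤ w'.im) ∨
        (w.im < p.im ∧ ∀ w' ∈ A, w'.re = p.re → w'.im ≤ w.im)) := ⟨_, fun _ _ => Iff.rfl⟩
  have uniq : ∀ p w w', R p w → R p w' → w = w' := fun p w w' h h' => by
    obtain ⟨h1, h2, h3⟩ := (hR p w).1 h
    obtain ⟨h4, h5, h6⟩ := (hR p w').1 h'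
    refine Complex.ext (h2.trans h5.symm) ?_
    rcases h3 with h3 | h3 <;> rcases h6 with h6 | h6
    · exact le_antisymm (h3.2 w' h4 h5 h6.1) (h6.2 w h1 h2 h3.1)
    · linarith only [h6.2 w h1 h2, h3.1, h6.1]
    · linarith only [h3.2 w' h4 h5, h3.1, h6.1]
    · exact le_antisymm (h6.2 w h1 h2) (h3.2 w' h4 h5)
  obtain ⟨t, ht⟩ : ∃ t : ℂ → ℂ, ∀ p w, R p w → t p = w :=
    ⟨fun p => if h : ∃ w, R p w then h.choose else p, fun p w h => by
      have h' : ∃ w, R p w := ⟨w, h⟩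
      simp only [dif_pos h']
      exact uniq p _ _ h'.choose_spec h⟩
  have ex : ∀ p ∈ P, ∃ w, R p w := fun p hp => by
    have h1 : IsCompact (A ∩ {w | w.re = p.re}) :=
      hA.inter_right (isClosed_eq Complex.continuous_re continuous_const)
    by_cases h : (A ∩ {w | w.re = p.re} ∩ {w | p.im ≤ w.im}).Nonempty
    · obtain ⟨w, hw, hm⟩ := (h1.inter_right
        (isClosed_le continuous_const Complex.continuous_im)).exists_isMinOn h
        Complex.continuous_im.continuousOn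
      exact ⟨w, (hR p w).2 ⟨hw.1.1, hw.1.2, .inl ⟨hw.2, fun w' a b c => hm ⟨⟨a, b⟩, c⟩⟩⟩⟩
    · obtain ⟨p', h2, h3, -⟩ := hd p hp
      obtain ⟨w, hw, hm⟩ := h1.exists_isMaxOn ⟨p', h2, h3⟩ Complex.continuous_im.continuousOn
      exact ⟨w, (hR p w).2 ⟨hw.1, hw.2, .inr ⟨not_le.1 fun h4 => h ⟨w, hw, h4⟩,
        fun w' a b => hm ⟨a, b⟩⟩⟩⟩
  have nrm : ∀ p w : ℂ, w.re = p.re → ‖w - p‖ = |w.im - p.im| := fun p w h => by
    have : w - p = ((w.im - p.im : ℝ) : ℂ) * Complex.I := Complex.ext (by simp [h]) (by simp)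
    rw [this, norm_mul, Complex.norm_I, mul_one, Complex.norm_real, Real.norm_eq_abs]
  refine ⟨t, fun p hp => ht p p ((hR p p).2 ⟨hp, rfl, .inl ⟨le_rfl, fun _ _ _ h => h⟩⟩),
    fun p hp => ?_⟩
  obtain ⟨w, hw⟩ := ex p hp
  rw [ht p w hw]
  obtain ⟨h1, h2, h3⟩ := (hR p w).1 hw
  refine ⟨h1, h2, ?_, fun q hq => ht q w ((hR q w).2 ?_)⟩
  · rw [nrm p w h2]
    rcases h3 with h3 | h3
    · by_contra hn
      rw [abs_of_nonneg (sub_nonneg.2 h3.1), not_le] at hn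
      obtain ⟨c, h4, h5, h6⟩ := hd ((1 / 2 : ℝ) • p + (1 / 2 : ℝ) • w)
        (hP hp (hAP h1) (by norm_num) (by norm_num) (by norm_num))
      rw [nrm _ c h5, abs_le] at h6
      simp only [Complex.add_re, Complex.add_im, Complex.smul_re, Complex.smul_im, smul_eq_mul,
        h2] at h5 h6
      have := h3.2 c h4 (by linarith only [h5]) (by linarith only [hn, h6])
      linarith only [hn, h6, this]
    · obtain ⟨c, h4, h5, h6⟩ := hd p hp
      rw [nrm _ c h5, abs_le] at h6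
      have := h3.2 c h4 h5
      rw [abs_le]
      constructor <;> linarith [h3.1]
  · obtain ⟨a, b, ha, hb, hab, rfl⟩ := hq
    have e1 : (a • p + b • w).re = p.re := by
      simp only [Complex.add_re, Complex.smul_re, smul_eq_mul, h2]
      rw [← add_mul, hab, one_mul]
    have e2 : (a • p + b • w).im = p.im + b * (w.im - p.im) := by
      simp only [Complex.add_im, Complex.smul_im, smul_eq_mul]
      rw [show a = 1 - b by linarith]
      ring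
    rw [e1, e2]
    refine ⟨h1, h2, ?_⟩
    rcases h3 with h3 | h3
    · have h4 := mul_nonneg hb (sub_nonneg.2 h3.1)
      have h5 := mul_nonneg ha (sub_nonneg.2 h3.1)
      rw [show a = 1 - b by linarith only [hab]] at h5
      exact .inl ⟨by linarith, fun w' c d e => h3.2 w' c d (by linarith)⟩
    · have h5 := mul_nonneg ha (sub_nonneg.2 h3.1.le)
      rw [show a = 1 - b by linarith only [hab]] at h5
      rcases (show w.im ≤ p.im + b * (w.im - p.im) by linarith).eq_or_lt with e | e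
      · exact .inl ⟨e.ge, fun w' _ _ h => e.le.trans h⟩
      · exact .inr ⟨e, h3.2⟩

theorem h16cellsa_grid {s a b c : ℝ} (hs : 0 < s) (ha : |a| ≤ 1)
    (h : ∀ k ∈ Finset.Icc (-(⌈1 / s⌉ + 1)) (⌈1 / s⌉ + 1), a - k * s ≠ 0 ∧
      0 ≤ (a - k * s) * (b - k * s) ∧ 0 ≤ (a - k * s) * (c - k * s)) : |b - c| ≤ s := by
  have h1 := Int.floor_le (a / s)
  have h2 := Int.lt_floor_add_one (a / s)
  have h3 := Int.le_ceil (1 / s)
  have h4 : a / s ≤ 1 / s := div_le_div_of_nonneg_right (abs_le.1 ha).2 hs.le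
  have h5 : -(1 / s) ≤ a / s := by
    rw [← neg_div]
    exact div_le_div_of_nonneg_right (abs_le.1 ha).1 hs.le
  have h6 : ⌊a / s⌋ ≤ ⌈1 / s⌉ := by exact_mod_cast (h1.trans (h4.trans h3))
  have h7 : -(⌈1 / s⌉ + 1) ≤ ⌊a / s⌋ := by
    have : (-(⌈1 / s⌉ + 1) : ℝ) ≤ ⌊a / s⌋ := by linarith only [h2, h3, h5]
    exact_mod_cast this
  obtain ⟨a1, a2, a3⟩ := h ⌊a / s⌋ (Finset.mem_Icc.2 ⟨h7, by omega⟩)
  obtain ⟨-, b2, b3⟩ := h (⌊a / s⌋ + 1) (Finset.mem_Icc.2 ⟨by omega, by omega⟩)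
  push_cast at b2 b3
  rw [le_div_iff₀ hs] at h1
  rw [div_lt_iff₀ hs] at h2
  have p1 : 0 < a - ⌊a / s⌋ * s := (sub_nonneg.2 h1).lt_of_ne a1.symm
  have p2 : a - (⌊a / s⌋ + 1) * s < 0 := sub_neg.2 h2
  have q1 := nonneg_of_mul_nonneg_right a2 p1
  have q2 := nonneg_of_mul_nonneg_right a3 p1
  have q3 := nonpos_of_mul_nonneg_right b2 p2
  have q4 := nonpos_of_mul_nonneg_right b3 p2
  rw [abs_le]
  constructor <;> linarith only [q1, q4, q2, q3]

theorem h16cellsa_re (x : ℝ) (z : ℂ) : af (1, x) z = z.re - x := by simp [af]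

theorem h16cellsa_im (y : ℝ) (z : ℂ) : af (-Complex.I, y) z = z.im - y := by simp [af]

/-- The lines. Plan: `L₁` consists of `L₀`, the lines of the edges, the horizontals through the
nodes and the horizontals `im = k s`; add the verticals through the nodes, through the points of
`vert L₁ Λ.P` (`a11_finP`) and the verticals `re = k s`, for the integers `|k| ≤ 2 / s + 1`.
`af (1, x) z = z.re - x`, `af (-I, y) z = z.im - y`. -/
theorem exists_lines (hN : PNet Λ Nd r) (L₀ : Finset (ℂ × ℝ)) (h0 : ∀ l ∈ L₀, l.1 ≠ 0) {s : ℝ}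
    (hs : 0 < s) :
    ∃ L : Finset (ℂ × ℝ), L₀ ⊆ L ∧ (∀ l ∈ L, l.1 ≠ 0) ∧ (∀ p ∈ Nd, p ∈ vert L Λ.P) ∧
      (∀ p p', 0 < r p p' → ∃ l ∈ L, af l p = 0 ∧ af l p' = 0) ∧
      (∀ p ∈ vert L Λ.P, ∃ l ∈ L, ∀ z : ℂ, z.re = p.re → af l z = 0) ∧
      (∀ p ∈ vert L Λ.P, ∀ z ∈ Eg r, z.re = p.re → z ∈ vert L Λ.P) ∧
      ∀ z ∈ Λ.P, (∀ l ∈ L, af l z ≠ 0) → ∀ x y : ℂ, (∀ l ∈ L, 0 ≤ af l z * af l x) →
        (∀ l ∈ L, 0 ≤ af l z * af l y) → ‖x - y‖ ≤ 2 * s := by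
  classical
  obtain ⟨ℓ, hℓ⟩ : ∃ ℓ : ℂ → ℂ → ℂ × ℝ, ∀ p q, ℓ p q = (Complex.I * (starRingEnd ℂ) (q - p),
      (Complex.I * (starRingEnd ℂ) (q - p) * p).re) := ⟨_, fun _ _ => rfl⟩
  have hℓ0 : ∀ p q, ∀ z ∈ segment ℝ p q, af (ℓ p q) z = 0 := fun p q z hz => by
    rw [segment_eq_image'] at hz
    obtain ⟨t, -, rfl⟩ := hz
    rw [a11_add, hℓ]
    simp only [af, sub_self, zero_add]
    rw [mul_assoc, mul_comm ((starRingEnd ℂ) (q - p)), Complex.mul_conj]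
    simp only [Complex.mul_re, Complex.I_re, Complex.ofReal_re, zero_mul, Complex.I_im, Complex.ofReal_im, mul_zero, sub_self]
  have hℓ1 : ∀ p q, ((ℓ p q).1 * (starRingEnd ℂ) (1 : ℂ)).im = q.re - p.re := fun p q => by
    simp [hℓ]
  obtain ⟨K, hK⟩ : ∃ K : Finset ℤ, K = Finset.Icc (-(⌈1 / s⌉ + 1)) (⌈1 / s⌉ + 1) := ⟨_, rfl⟩
  obtain ⟨L₁, hL₁⟩ : ∃ L₁ : Finset (ℂ × ℝ), ∀ l, l ∈ L₁ ↔ l ∈ L₀ ∨
      (∃ p p' : Nd, 0 < r p p' ∧ ℓ p p' = l) ∨ (∃ p ∈ Nd, (-Complex.I, p.im) = l) ∨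
      ∃ k ∈ K, (-Complex.I, (k : ℝ) * s) = l :=
    ⟨L₀ ∪ (((Finset.univ.filter fun x : Nd × Nd => 0 < r x.1 x.2).image fun x => ℓ x.1 x.2) ∪
      ((Nd.image fun p => (-Complex.I, p.im)) ∪ K.image fun k : ℤ => (-Complex.I, (k : ℝ) * s))),
      fun l => by
        simp only [Finset.mem_union, Finset.mem_image, Finset.mem_filter, Finset.mem_univ,
          true_and, Prod.exists]⟩
  obtain ⟨L, hL⟩ : ∃ L : Finset (ℂ × ℝ), ∀ l, l ∈ L ↔ l ∈ L₁ ∨ (∃ p ∈ Nd, (1, p.re) = l) ∨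
      (∃ p ∈ vert L₁ Λ.P, (1, p.re) = l) ∨ ∃ k ∈ K, (1, (k : ℝ) * s) = l :=
    ⟨L₁ ∪ ((Nd.image fun p => (1, p.re)) ∪
      (((a11_finP (L := L₁) (Q := Λ.P)).toFinset.image fun p => (1, p.re)) ∪
        K.image fun k : ℤ => (1, (k : ℝ) * s))), fun l => by
      simp only [Finset.mem_union, Finset.mem_image, Finite.mem_toFinset]⟩
  have s1 : ∀ l ∈ L₁, l ∈ L := fun l h => (hL l).2 (.inl h)
  have cs : ∀ l ∈ L, l ∈ L₁ ∨ ∃ x, (1, x) = l := fun l h => ((hL l).1 h).imp_right fun h => by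
    rcases h with ⟨p, -, h⟩ | ⟨p, -, h⟩ | ⟨p, -, h⟩ <;> exact ⟨_, h⟩
  have edge : ∀ p p', 0 < r p p' → ℓ p p' ∈ L := fun p p' h =>
    s1 _ ((hL₁ _).2 (.inr (.inl ⟨p, p', h, rfl⟩)))
  have ver : ∀ p ∈ vert L Λ.P, ((1 : ℂ), p.re) ∈ L := by
    rintro p ⟨hp, l, hl, l', hl', h1, h2, h3⟩
    rcases cs l hl with h4 | ⟨x, rfl⟩
    · rcases cs l' hl' with h5 | ⟨x, rfl⟩
      · exact (hL _).2 (.inr (.inr (.inl ⟨p, ⟨hp, l, h4, l', h5, h1, h2, h3⟩, rfl⟩)))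
      · rwa [sub_eq_zero.1 ((h16cellsa_re x p).symm.trans h2)]
    · rwa [sub_eq_zero.1 ((h16cellsa_re x p).symm.trans h1)]
  refine ⟨L, fun l h => s1 l ((hL₁ l).2 (.inl h)), fun l h => ?_, fun p hp => ?_,
    fun p p' h => ⟨_, edge p p' h, hℓ0 _ _ _ (left_mem_segment ℝ _ _),
      hℓ0 _ _ _ (right_mem_segment ℝ _ _)⟩,
    fun p hp => ⟨_, ver p hp, fun z hz => by rw [h16cellsa_re, hz, sub_self]⟩, ?_,
    fun z hz hg x y hx hy => ?_⟩
  · rcases cs l h with h | ⟨x, rfl⟩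
    · rcases (hL₁ l).1 h with h | ⟨p, p', h', rfl⟩ | ⟨p, -, rfl⟩ | ⟨p, -, rfl⟩
      · exact h0 l h
      · intro e
        have := hℓ1 p p'
        rw [e, zero_mul, Complex.zero_im] at this
        exact hN.vert p p' h' (by linarith only [this])
      · exact neg_ne_zero.2 Complex.I_ne_zero
      · exact neg_ne_zero.2 Complex.I_ne_zero
    · exact one_ne_zero
  · exact ⟨hN.mem p hp, _, (hL _).2 (.inr (.inl ⟨p, hp, rfl⟩)), _,
      s1 _ ((hL₁ _).2 (.inr (.inr (.inl ⟨p, hp, rfl⟩)))), by rw [h16cellsa_re, sub_self],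
      by rw [h16cellsa_im, sub_self], by simp only [map_neg, Complex.conj_I, neg_neg, one_mul, Complex.I_im, ne_eq, one_ne_zero, not_false_eq_true]⟩
  · rintro p hp z hz e
    obtain ⟨q, q', h, hz'⟩ := id hz
    exact ⟨hN.eg_sub hz, _, edge q q' h, _, ver p hp, hℓ0 _ _ _ hz',
      by rw [h16cellsa_re, e, sub_self], by rw [hℓ1]; exact sub_ne_zero.2 (hN.vert q q' h).symm⟩
  · have h1 : |x.re - y.re| ≤ s := h16cellsa_grid hs hz.1 fun k hk => by
      have h := (hL _).2 (.inr (.inr (.inr ⟨k, hK ▸ hk, rfl⟩)))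
      simpa only [h16cellsa_re] using And.intro (hg _ h) (And.intro (hx _ h) (hy _ h))
    have h2 : |x.im - y.im| ≤ s :=
      h16cellsa_grid hs (hz.2.trans (by simpa using Λ.up_le _ hz.1)) fun k hk => by
        have h := s1 _ ((hL₁ _).2 (.inr (.inr (.inr ⟨k, hK ▸ hk, rfl⟩))))
        simpa only [h16cellsa_im] using And.intro (hg _ h) (And.intro (hx _ h) (hy _ h))
    have h3 := Complex.norm_le_abs_re_add_abs_im (x - y)
    rw [Complex.sub_re, Complex.sub_im] at h3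
    linarith

end H16CellsA

section H16Cells

open Set H14 T55 Filter Topology Metric
open scoped BigOperators InnerProductSpace

variable {Λ : Lens} {Nd : Finset ℂ} {r : Nd → Nd → ℝ}

theorem h16cells_compact (r : Nd → Nd → ℝ) : IsCompact (Eg r ∪ (Nd : Set ℂ)) := by
  refine IsCompact.union ?_ Nd.finite_toSet.isCompact
  have e : Eg r = ⋃ p : Nd, ⋃ p' : Nd, ⋃ _ : 0 < r p p', segment ℝ (p : ℂ) p' := by
    ext z
    simp only [Eg, mem_ofPred_eq, mem_iUnion, exists_prop]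
  rw [e]
  refine isCompact_iUnion fun p => isCompact_iUnion fun p' => isCompact_iUnion fun _ => ?_
  rw [segment_eq_image_lineMap]
  exact isCompact_Icc.image AffineMap.lineMap_continuous

/-- A segment of interior points and corners does not lie in the frontier. -/
theorem h16cells_nf (Λ : Lens) {a b : ℂ} (hab : a ≠ b)
    (h : ∀ z ∈ segment ℝ a b, z ∈ interior Λ.P ∨ z ∈ Λ.Vt) : ¬ segment ℝ a b ⊆ frontier Λ.P := by
  intro hf
  have h1 : segment ℝ a b ⊆ (Λ.Vt : Set ℂ) := fun z hz =>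
    (h z hz).resolve_left (hf hz).2
  have h2 : (segment ℝ a b).Infinite := by
    rw [segment_eq_image_lineMap]
    exact (Icc_infinite zero_lt_one).image (AffineMap.lineMap_injective ℝ hab).injOn
  exact h2 (Λ.Vt.finite_toSet.subset h1)

theorem h16cells_af (l : ℂ × ℝ) (a b : ℂ) (τ : ℝ) :
    af l (AffineMap.lineMap a b τ) = (1 - τ) * af l a + τ * af l b := by
  rw [AffineMap.lineMap_apply, vsub_eq_sub, vadd_eq_add, add_comm, a11_add, a11_sub]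
  ring

theorem h16cells_line (a b : ℂ) (α β τ : ℝ) :
    AffineMap.lineMap (AffineMap.lineMap a b α : ℂ) (AffineMap.lineMap a b β : ℂ) τ =
      AffineMap.lineMap a b ((1 - τ) * α + τ * β) := by
  simp only [AffineMap.lineMap_apply_module]
  module

/-- Plan: `lens_half`, `exists_lines`, `arrangement`, `exists_target` for `A = Eg r ∪ Nd`,
`lens_edges`. Last part: `walk` with `u z = l (G (t z))`, first on the vertical from `p` to `t p`
(`u` is constant there; points other than `t p` are interior), then along an edge of `r`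
(`t z = z`, `hG.2`; points of `Eg r` are interior or corners by `hin`; a segment with two
different ends is infinite, so it does not lie in the finite set of corners). A point inside an
edge: walk to both ends. -/
theorem cells {E : Type} [NormedAddCommGroup E] [NormedSpace ℝ E] (hN : PNet Λ Nd r)
    (hall : ∀ v ∈ Λ.Vt, v ∈ Nd) (hin : ∀ z ∈ Eg r ∪ Nd, z ∈ frontier Λ.P → z ∈ Λ.Vt) {g : Nd → E}
    {G : ℂ → E} (hG : IsExt r g G) {s : ℝ} (hs : 0 < s)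
    (hd : ∀ p ∈ Λ.P, ∃ p' ∈ Eg r, p'.re = p.re ∧ ‖p' - p‖ ≤ s) :
    ∃ (K : Cells Λ.P) (t : ℂ → ℂ), (∀ p ∈ Nd, p ∈ K.P ∧ t p = p) ∧
      (∀ p ∈ Λ.P, t p ∈ Eg r ∪ Nd ∧ ‖t p - p‖ ≤ 2 * s) ∧
      (∀ y ∈ frontier Λ.P, ∃ e ∈ K.E, y ∈ e ∧ e ⊆ frontier Λ.P) ∧
      (∀ d ∈ K.D, ∀ x ∈ d.1, ∀ y ∈ d.1, ‖x - y‖ ≤ 2 * s) ∧
      ∀ (l : E →L[ℝ] ℝ) (m : ℝ) (X : Set ℂ),
        (∀ p ∈ X, p ∈ K.P ∧ (p ∈ interior Λ.P ∨ p ∈ Λ.Vt) ∧ l (G (t p)) = m ∧
          ∀ q ∈ K.P, q ∈ interior Λ.P ∨ q ∈ Λ.Vt →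
            (∃ e ∈ K.E, ¬ e ⊆ frontier Λ.P ∧ p ∈ e ∧ q ∈ e) →
              l (G (t q)) ≤ m ∧ (l (G (t q)) = m → q ∈ X)) →
        (X.Nonempty → ∃ p : Nd, (p : ℂ) ∈ X) ∧
          ∀ p : Nd, (p : ℂ) ∈ X → ∀ q, 0 < r p q → l (g q) ≤ m ∧ (l (g q) = m → (q : ℂ) ∈ X) := by
  obtain ⟨L₀, hL0, hQ⟩ := lens_half Λ
  obtain ⟨L, h0, hL, hnd, hed, hve, hvv, hdi⟩ := exists_lines hN L₀ hL0 hs
  have hPc : Convex ℝ Λ.P := Λ.convex_reg 0
  have hP : IsCompact Λ.P := Λ.compact_reg 0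
  obtain ⟨K, hKP, hKE, hKD, -⟩ := arrangement h0 hL hQ hP
    ⟨0, mem_interior_iff_mem_nhds.2 (Λ.nhds_reg le_rfl)⟩
  have hAP : Eg r ∪ (Nd : Set ℂ) ⊆ Λ.P := union_subset hN.eg_sub fun p hp => hN.mem p hp
  obtain ⟨t, ht1, ht2⟩ := exists_target hPc (h16cells_compact r) hAP (s := s) fun p hp => by
    obtain ⟨p', h1, h2⟩ := hd p hp
    exact ⟨p', Or.inl h1, h2⟩
  have hA : ∀ z ∈ Eg r ∪ (Nd : Set ℂ), z ∈ interior Λ.P ∨ z ∈ Λ.Vt := fun z hz => by
    by_cases h : z ∈ interior Λ.P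
    · exact Or.inl h
    · exact Or.inr (hin z hz ⟨subset_closure (hAP hz), h⟩)
  refine ⟨K, t, fun p hp => ⟨hKP ▸ hnd p hp, ht1 p (Or.inr hp)⟩,
    fun p hp => ⟨(ht2 p hp).1, (ht2 p hp).2.2.1⟩, fun y hy => ?_, fun d hd' x hx y hy => ?_,
    fun l m X hX => ?_⟩
  · obtain ⟨a, b, h1, h2, h3⟩ := lens_edges Λ h0 hL hQ hy
    exact ⟨_, hKE ▸ ⟨a, b, h1, rfl⟩, h2, h3⟩
  · rw [hKD] at hd'
    obtain ⟨z, hz, h1, h2, -⟩ := hd'
    rw [h2] at hx hy
    exact hdi z hz h1 x y hx hy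
  rw [hKP, hKE] at hX
  have W : ∀ a ∈ X, ∀ b ∈ vert L Λ.P, (∃ k ∈ L, af k a = 0 ∧ af k b = 0) →
      (∀ z ∈ segment ℝ a b, z ∈ interior Λ.P ∨ z ∈ Λ.Vt) →
      (∀ τ ∈ Icc (0 : ℝ) 1, l (G (t (AffineMap.lineMap a b τ))) =
        (1 - τ) * l (G (t a)) + τ * l (G (t b))) →
      l (G (t b)) ≤ m ∧ (l (G (t b)) = m → b ∈ X) := by
    rintro a ha b hb ⟨k, hk, h1, h2⟩ h3 h4
    refine walk (u := fun z => l (G (t z))) hb hk h1 h2 (hX a ha).1 ha
      (fun p hp => (hX p hp).2.2.1) (fun τ hτ _ => h4 τ hτ) fun p hp q hq hs' => ?_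
    exact (hX p hp).2.2.2 q hq.2.1 (h3 q (hs' (right_mem_segment ℝ p q)))
      ⟨_, ⟨p, q, hq, rfl⟩, h16cells_nf Λ hq.2.2.1 fun z hz => h3 z (hs' hz),
        left_mem_segment ℝ p q, right_mem_segment ℝ p q⟩
  have hmem : ∀ p p' : Nd, 0 < r p p' → ∀ σ ∈ Icc (0 : ℝ) 1,
      AffineMap.lineMap (p : ℂ) (p' : ℂ) σ ∈ segment ℝ (p : ℂ) p' := fun p p' _ σ hσ => by
    rw [segment_eq_image_lineMap]
    exact ⟨σ, hσ, rfl⟩
  have hu : ∀ p p' : Nd, 0 < r p p' → ∀ σ ∈ Icc (0 : ℝ) 1,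
      l (G (t (AffineMap.lineMap (p : ℂ) (p' : ℂ) σ))) = (1 - σ) * l (g p) + σ * l (g p') :=
    fun p p' h σ hσ => by
      rw [ht1 _ (Or.inl ⟨p, p', h, hmem p p' h σ hσ⟩), hG.2 p p' h σ hσ,
        AffineMap.lineMap_apply_module, map_add, map_smul, map_smul, smul_eq_mul, smul_eq_mul]
  have WB : ∀ p p' : Nd, 0 < r p p' → ∀ α ∈ Icc (0 : ℝ) 1, ∀ β ∈ Icc (0 : ℝ) 1,
      AffineMap.lineMap (p : ℂ) (p' : ℂ) α ∈ X →
      AffineMap.lineMap (p : ℂ) (p' : ℂ) β ∈ vert L Λ.P →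
      (1 - β) * l (g p) + β * l (g p') ≤ m ∧
        ((1 - β) * l (g p) + β * l (g p') = m → AffineMap.lineMap (p : ℂ) (p' : ℂ) β ∈ X) := by
    intro p p' h α hα β hβ ha hb
    obtain ⟨k, hk, h1, h2⟩ := hed p p' h
    rw [← hu p p' h β hβ]
    refine W _ ha _ hb ⟨k, hk, by rw [h16cells_af, h1, h2]; ring,
      by rw [h16cells_af, h1, h2]; ring⟩ (fun z hz => hA z (Or.inl ⟨p, p', h, ?_⟩)) fun τ hτ => ?_
    · exact (convex_segment (p : ℂ) p').segment_subset (hmem p p' h α hα) (hmem p p' h β hβ) hz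
    · have h3 : (1 - τ) * α + τ * β ∈ Icc (0 : ℝ) 1 :=
        convex_Icc (0 : ℝ) 1 hα hβ (sub_nonneg.2 hτ.2) hτ.1 (by ring)
      rw [h16cells_line, hu p p' h _ h3, hu p p' h α hα, hu p p' h β hβ]
      ring
  have h01 : (0 : ℝ) ∈ Icc (0 : ℝ) 1 := left_mem_Icc.2 zero_le_one
  have h11 : (1 : ℝ) ∈ Icc (0 : ℝ) 1 := right_mem_Icc.2 zero_le_one
  refine ⟨fun ⟨p, hp⟩ => ?_, fun p hp q hq => ?_⟩
  · obtain ⟨hpv, hpi, hpm, -⟩ := hX p hp
    obtain ⟨h1, h2, -, h4⟩ := ht2 p hpv.1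
    have htX : t p ∈ X := by
      rcases hpi with hpi | hpi
      · obtain ⟨k, hk, hk'⟩ := hve p hpv
        have h5 : t p ∈ vert L Λ.P := h1.elim (fun h => hvv p hpv _ h h2) (hnd _)
        refine (W p hp _ h5 ⟨k, hk, hk' p rfl, hk' _ h2⟩ (fun z hz => ?_) fun τ hτ => ?_).2
          (by rw [ht1 _ h1, hpm])
        · rw [← insert_endpoints_openSegment] at hz
          rcases hz with rfl | rfl | hz
          · exact Or.inl hpi
          · exact hA _ h1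
          · exact Or.inl (hPc.openSegment_interior_self_subset_interior hpi (hAP h1) hz)
        · rw [h4 _ (by rw [segment_eq_image_lineMap]; exact ⟨τ, hτ, rfl⟩), ht1 _ h1]
          ring
      · rwa [ht1 p (Or.inr (hall p hpi))]
    rcases h1 with ⟨a, b, hab, hz⟩ | h1
    · rw [segment_eq_image_lineMap] at hz
      obtain ⟨α, hα, hz⟩ := hz
      have h5 := WB a b hab α hα 0 h01 (hz ▸ htX)
        (by rw [AffineMap.lineMap_apply_zero]; exact hnd _ a.2)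
      have h6 := WB a b hab α hα 1 h11 (hz ▸ htX)
        (by rw [AffineMap.lineMap_apply_one]; exact hnd _ b.2)
      have h7 := hu a b hab α hα
      rw [hz, (hX _ htX).2.2.1] at h7
      rw [AffineMap.lineMap_apply_zero, sub_zero, one_mul, zero_mul, add_zero] at h5
      rw [AffineMap.lineMap_apply_one, sub_self, one_mul, zero_mul, zero_add] at h6
      by_cases h8 : l (g a) = m
      · exact ⟨a, h5.2 h8⟩
      · refine ⟨b, h6.2 (le_antisymm h6.1 (le_of_not_gt fun h9 => ?_))⟩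
        have h10 := lt_of_le_of_ne h5.1 h8
        rcases eq_or_lt_of_le hα.1 with rfl | h11
        · exact h8 (by linarith only [h10, h7])
        · linarith only [mul_pos h11 (sub_pos.2 h9), mul_nonneg (sub_nonneg.2 hα.2) (sub_pos.2 h10).le, h7]
    · exact ⟨⟨t p, h1⟩, htX⟩
  · have h5 := WB p q hq 0 h01 1 h11 (by rwa [AffineMap.lineMap_apply_zero])
      (by rw [AffineMap.lineMap_apply_one]; exact hnd _ q.2)
    rwa [AffineMap.lineMap_apply_one, sub_self, one_mul, zero_mul, zero_add] at h5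

end H16Cells

section H16S6

open Set H14 T55 Filter Topology Metric
open scoped BigOperators InnerProductSpace

theorem s6_hp {V X : Type} [Fintype V] [NormedAddCommGroup X] [NormedSpace ℝ X] {P B : Set ℂ}
    {Φ : ℂ → V → ℝ} {δ b N : ℝ} (h : HP P B Φ δ) {ξ : V → X} (hb : ∀ v, ‖ξ v‖ ≤ b)
    (hN : Fintype.card V * b ≤ N) (N0 : 0 < N) : HP P B (fun x => cmb ξ (Φ x)) (N * δ) := by
  have h1 : ∀ p : V → ℝ, ‖Fintype.linearCombination ℝ ξ p‖ ≤ N * ‖p‖ := fun p => by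
    rw [Fintype.linearCombination_apply]
    refine (norm_sum_le_of_le _ (n := fun _ => b * ‖p‖) fun v _ => ?_).trans ?_
    · rw [norm_smul, mul_comm]
      exact mul_le_mul (hb v) (norm_le_pi_norm p v) (norm_nonneg _) ((norm_nonneg _).trans (hb v))
    · rw [Finset.sum_const, Finset.card_univ, nsmul_eq_mul, ← mul_assoc]
      exact mul_le_mul_of_nonneg_right hN (norm_nonneg _)
  intro x hx l hl
  obtain ⟨c, hc, hj⟩ := h x hx (N⁻¹ • l.comp ((Fintype.linearCombination ℝ ξ).mkContinuous N h1))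
    (by
      rw [norm_smul, norm_inv, Real.norm_of_nonneg N0.le, inv_mul_le_iff₀ N0, mul_one]
      exact (l.opNorm_comp_le _).trans ((mul_le_mul hl (LinearMap.mkContinuous_norm_le _ N0.le h1)
        (norm_nonneg _) zero_le_one).trans_eq (one_mul _)))
  refine ⟨c, hc, hj.mono fun y hy => ⟨hy.1, ?_⟩⟩
  have h2 : N⁻¹ * l (cmb ξ (Φ x)) - δ ≤ N⁻¹ * l (cmb ξ (Φ y)) := hy.2
  have h3 := mul_le_mul_of_nonneg_left h2 N0.le
  rwa [mul_sub, mul_inv_cancel_left₀ N0.ne', mul_inv_cancel_left₀ N0.ne'] at h3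

theorem s6_single {V X : Type} [Fintype V] [DecidableEq V] [AddCommGroup X] [Module ℝ X]
    (ξ : V → X) (v : V) : cmb ξ (Pi.single v 1) = ξ v := by
  simp only [cmb, Pi.single_apply, ite_smul, one_smul, zero_smul, Finset.sum_ite_eq', Finset.mem_univ, ↓ reduceIte]

theorem s6_pull {P : Set ℂ} (K : Cells P) (h : ℂ ≃ₜ ℂ) (hP : h '' P = P) :
    ∃ K' : Cells P, (∀ x, x ∈ K'.P ↔ h x ∈ K.P) ∧ (∀ e ∈ K.E, h ⁻¹' e ∈ K'.E) ∧
      ∀ d ∈ K'.D, ∃ d' ∈ K.D, ∀ x ∈ d.1, h x ∈ d'.1 := by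
  have key : ∀ Q, Q = h.symm '' P → ∃ K' : Cells Q, (∀ x, x ∈ K'.P ↔ h x ∈ K.P) ∧
      (∀ e ∈ K.E, h ⁻¹' e ∈ K'.E) ∧ ∀ d ∈ K'.D, ∃ d' ∈ K.D, ∀ x ∈ d.1, h x ∈ d'.1 := by
    rintro _ rfl
    obtain ⟨K', h1, h2, h3⟩ := K.map h.symm.continuous.continuousOn h.symm.injective.injOn
    simp only [h.image_symm] at h1 h2 h3
    refine ⟨K', fun x => by rw [h1, mem_preimage], fun e he => h2 ▸ ⟨e, he, rfl⟩, fun d hd => ?_⟩
    obtain ⟨d', hd', rfl⟩ := h3 ▸ hd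
    exact ⟨d', hd', fun x hx => hx⟩
  refine key P ?_
  conv_rhs => rw [← hP, h.image_symm, h.injective.preimage_image]

theorem s6_min {ι : Type} [Finite ι] {p : ι → ℝ → Prop} (h : ∀ i, ∃ η > 0, p i η) :
    ∃ η₀ > 0, ∀ i, ∃ η, η₀ ≤ η ∧ p i η := by
  choose η h1 h2 using h
  rcases isEmpty_or_nonempty ι with e | e
  · exact ⟨1, one_pos, e.elim⟩
  · obtain ⟨j, hj⟩ := Finite.exists_min η
    exact ⟨η j, h1 j, fun i => ⟨η i, hj i, h2 i⟩⟩

theorem s6_sep {ι : Type} [Fintype ι] (Λ : ι → Lens) {M : ℝ} (hM : 0 ≤ M) :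
    ∃ L₀, 0 ≤ L₀ ∧ ∀ c, ∀ a ∈ (Λ c).Vt, ∀ b ∈ (Λ c).Vt, a ≠ b → 2 * M ≤ L₀ * ‖a - b‖ := by
  refine ⟨∑ c, ∑ p ∈ (Λ c).Vt ×ˢ (Λ c).Vt, 2 * M / ‖p.1 - p.2‖,
    Finset.sum_nonneg fun _ _ => Finset.sum_nonneg fun _ _ => by positivity,
    fun c a ha b hb h => ?_⟩
  rw [← div_le_iff₀ (norm_pos_iff.2 (sub_ne_zero.2 h))]
  exact (Finset.single_le_sum (f := fun p : ℂ × ℂ => 2 * M / ‖p.1 - p.2‖)
    (fun _ _ => by positivity) (Finset.mk_mem_product ha hb)).trans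
    (Finset.single_le_sum (f := fun c => ∑ p ∈ (Λ c).Vt ×ˢ (Λ c).Vt, 2 * M / ‖p.1 - p.2‖)
      (fun _ _ => Finset.sum_nonneg fun _ _ => by positivity) (Finset.mem_univ c))

section

variable {E ν ι : Type} [NormedAddCommGroup E] [NormedSpace ℝ E] [Fintype ν] [Fintype ι]

theorem DiscNet.mono3 {Λ : ι → Lens} {app : ∀ c, (Λ c).Vt → ν} {B : Set ν} {a : ν → ν → ℝ}
    {w : ∀ c, (Λ c).Vt → (Λ c).Vt → ℝ} {F : ν → E} {Φ : ∀ c, ℂ → (Λ c).Vt → ℝ}
    {J R δ J' R' δ' : ℝ} (h : DiscNet Λ app B a w F Φ J R δ) (hJ : J ≤ J') (hR : R ≤ R')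
    (hδ : δ ≤ δ') : DiscNet Λ app B a w F Φ J' R' δ' :=
  { h with
    bound := fun x => (h.bound x).trans hR
    pot := h.pot.imp fun _ hk => ⟨hk.1, fun x => (hk.2.1 x).trans hJ, hk.2.2⟩
    hp := fun c => (h.hp c).mono hδ
    bdy := fun c => (h.bdy c).imp fun _ hb =>
      ⟨hb.1, hb.2.1, hb.2.2.1, fun y hy => (hb.2.2.2 y hy).trans hδ⟩
    em := fun c α l h1 h2 => (h.em c α l h1 h2).imp fun _ hb =>
      ⟨hb.1, hb.2.mono fun y hy => ⟨hy.1, by linarith [hy.2]⟩⟩ }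

theorem GChain.mono {V : ι → Type} [∀ c, Fintype (V c)] {Λ : ι → Lens} {app : ι → ℂ → ν}
    {B0 : Set ν} {D : ν → ν → ℝ} {φ : ν → E} {L β β' η S : ℝ} {R : ∀ c, V c → V c → ℝ}
    {T : ∀ c, V c → ℂ} {F : ∀ c, V c → E} (h : GChain Λ app B0 D φ L β η S R T F) (hβ : β ≤ β') :
    GChain Λ app B0 D φ L β' η S R T F :=
  { h with
    pot := by
      obtain ⟨kN, k, h1, h2, h3, h4⟩ := h.pot
      exact ⟨kN, k, h1, fun a => ⟨(h2 a).1, (h2 a).2.trans hβ⟩,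
        fun c a => ⟨(h3 c a).1, (h3 c a).2.trans hβ⟩, h4⟩ }

end

theorem discStmt : DiscStmt := by
  classical
  intro E ι _ _ _ Λ K J R ε hε
  obtain ⟨M, M0, RM⟩ : ∃ M, 0 ≤ M ∧ R ≤ M := ⟨max R 0, le_max_right _ _, le_max_left _ _⟩
  obtain ⟨J', J0, JJ⟩ : ∃ J', 0 ≤ J' ∧ J ≤ J' := ⟨max J 0, le_max_right _ _, le_max_left _ _⟩
  obtain ⟨L₀, l0, hsep⟩ := s6_sep Λ M0
  have c0 : ∀ c, 0 ≤ L₀ / (Λ c).c₀ := fun c => div_nonneg l0 (Λ c).c_pos.le
  obtain ⟨L, L1, hL⟩ : ∃ L : ℝ, 1 ≤ L ∧ ∀ c, L₀ / (Λ c).c₀ + 1 ≤ L :=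
    ⟨∑ c, L₀ / (Λ c).c₀ + 1, le_add_of_nonneg_left (Finset.sum_nonneg fun c _ => c0 c),
      fun c => add_le_add (Finset.single_le_sum (fun c _ => c0 c) (Finset.mem_univ c)) le_rfl⟩
  obtain ⟨N, N1, hN⟩ : ∃ N : ℝ, 1 ≤ N ∧ ∀ c, Fintype.card (Λ c).Vt * (2 + M) ≤ N :=
    ⟨∑ c, Fintype.card (Λ c).Vt * (2 + M) + 1,
      le_add_of_nonneg_left (Finset.sum_nonneg fun c _ => by positivity),
      fun c => (Finset.single_le_sum (f := fun c => (Fintype.card (Λ c).Vt : ℝ) * (2 + M))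
        (fun c _ => by positivity) (Finset.mem_univ c)).trans (le_add_of_nonneg_right zero_le_one)⟩
  have L0 : 0 ≤ L := by linarith
  obtain ⟨s, s0, s1⟩ : ∃ s : ℝ, 0 < s ∧ 25 * (L * s) = ε :=
    ⟨ε / (25 * L), by positivity, by field_simp⟩
  have s2 : s ≤ L * s := le_mul_of_one_le_left s0.le L1
  have hP : ∀ c, IsCompact (Λ c).P := fun c => (Λ c).compact_reg 0
  have hPc : ∀ c, Convex ℝ (Λ c).P := fun c => (Λ c).convex_reg 0
  have hPn : ∀ c, (interior (Λ c).P).Nonempty :=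
    fun c => ⟨0, mem_interior_iff_mem_nhds.2 ((Λ c).nhds_reg le_rfl)⟩
  have n2 : ∀ c, ∀ z ∈ (Λ c).P, ‖z‖ ≤ 2 := fun c z hz => (Λ c).norm_le (s := 0) (by norm_num) hz
  have hVt : ∀ c, ∀ b ∈ (Λ c).Vt, b ∈ frontier (Λ c).P := fun c b hb => (Λ c).mem_frontier.2
    ⟨(Λ c).vt_mem hb, Or.inr (by rw [add_zero]; exact ((Λ c).vt b hb).2)⟩
  choose Y Y1 Y2 Y3 using fun c => finite_cover_balls_of_compact (hP c) s0
  obtain ⟨β₀, b0, hbuild⟩ := gbuild (E := E) Λ (S := 10 * J' + 11) (by positivity) l0 hsep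
    (K + ∑ c, (Y2 c).toFinset.card) s0
  obtain ⟨δ₁, d1, hcoarse⟩ := gcoarse (E := E) Λ L0 J0 M0 (lt_min b0 s0)
  obtain ⟨η₀, e0, hnear⟩ := s6_min fun c => H72.near_homeo (hP c) (hPc c) (hPn c) s0
  obtain ⟨δ, d0, d2⟩ : ∃ δ : ℝ, 0 < δ ∧ 2 * (N * δ) * (L + 1) = min (min δ₁ s) η₀ :=
    ⟨min (min δ₁ s) η₀ / (2 * N * (L + 1)), by positivity, by field_simp⟩
  have d3 : δ ≤ N * δ := le_mul_of_one_le_left d0.le N1
  have d4 : N * δ ≤ min (min δ₁ s) η₀ := by nlinarith only [L1, d0, d2, d3]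
  have d5 : min (min δ₁ s) η₀ ≤ δ₁ := (min_le_left _ _).trans (min_le_left _ _)
  have d6 : min (min δ₁ s) η₀ ≤ s := (min_le_left _ _).trans (min_le_right _ _)
  have d7 : min (min δ₁ s) η₀ ≤ η₀ := min_le_right _ _
  generalize min (min δ₁ s) η₀ = ξ at d2 d4 d5 d6 d7
  refine ⟨δ, d0, fun ν _ hν app B a w φ Φ h => ?_⟩
  have hφ : ∀ x, ‖φ x‖ ≤ M := fun x => (h.bound x).trans RM
  obtain ⟨T, hT⟩ : ∃ T : ι → ℂ → ℂ, ∀ c x, cmb (fun v : (Λ c).Vt => (v : ℂ)) (Φ c x) = T c x :=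
    ⟨_, fun _ _ => rfl⟩
  obtain ⟨F, hF⟩ : ∃ F : ι → ℂ → E, ∀ c x, cmb (fun v => φ (app c v)) (Φ c x) = F c x :=
    ⟨_, fun _ _ => rfl⟩
  have TP : ∀ c, ∀ x ∈ (Λ c).P, T c x ∈ (Λ c).P := fun c x hx => hT c x ▸
    (hPc c).sum_mem (fun v _ => (h.simplex c x hx).1 v) (h.simplex c x hx).2
      fun v _ => (Λ c).vt_mem v.2
  have Tv : ∀ c, ∀ b ∈ (Λ c).Vt, T c b = b := fun c b hb => by
    rw [← hT, h.vt c ⟨b, hb⟩, s6_single]
  have Fv : ∀ c b (hb : b ∈ (Λ c).Vt), F c b = φ (app c ⟨b, hb⟩) := fun c b hb => by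
    rw [← hF, h.vt c ⟨b, hb⟩, s6_single]
  have Tc : ∀ c, ContinuousOn (T c) (Λ c).P := fun c =>
    (continuousOn_finsetSum _ fun v _ => ((continuous_apply v).comp_continuousOn (h.cont c)).smul
      continuousOn_const).congr fun x _ => (hT c x).symm
  have hp : ∀ c, HP (Λ c).P (Λ c).Vt (fun x => (T c x, F c x)) (N * δ) := fun c => by
    have h1 := s6_hp (h.hp c) (ξ := fun v => ((v : ℂ), φ (app c v))) (b := 2 + M)
      (fun v => norm_prod_le_iff.2 ⟨by linarith only [n2 c v ((Λ c).vt_mem v.2), M0],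
        by linarith only [hφ (app c v)]⟩) (hN c) (by linarith only [N1])
    refine (congrArg (fun W => HP _ _ W _) (funext fun x => ?_)).mp h1
    rw [← hT, ← hF]
    exact Prod.ext (by simp only [cmb, Prod.fst_sum, Prod.smul_fst])
      (by simp only [cmb, Prod.snd_sum, Prod.smul_snd])
  have lipv : ∀ {X : ν → E}, (∀ x, ‖X x‖ ≤ M) → ∀ c, ∀ u ∈ (Λ c).Vt, ∀ v ∈ (Λ c).Vt,
      ‖X (appx app c u) - X (appx app c v)‖ ≤ L₀ * ‖u - v‖ := fun hX c u hu v hv => by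
    rcases eq_or_ne u v with rfl | huv
    · simp
    · exact (norm_sub_le_of_le (hX _) (hX _)).trans (by linarith only [hsep c u hu v hv huv])
  have rd : ∀ c, ∀ x ∈ (Λ c).P, ∀ y ∈ (Λ c).P, ‖F c x - F c y‖ ≤ L * ‖T c x - T c y‖ + ξ :=
    fun c x hx y hy => by
    have h1 := rado (D := (Λ c).P) (X := (Λ c).P) (Vt := ((Λ c).Vt : Set ℂ)) (M := 2) (Λ c).c_pos l0
      Subset.rfl (Λ c).expo (Tv c) (fun z hz => n2 c _ (TP c z hz))
      (fun u hu v hv => by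
        rw [Fv c u hu, Fv c v hv, ← appx_vt app c ⟨u, hu⟩, ← appx_vt app c ⟨v, hv⟩]
        exact lipv hφ c u hu v hv) (hp c) hx hy
    have h2 := mul_le_mul_of_nonneg_right (hL c) (norm_nonneg (T c x - T c y))
    have h3 := mul_le_mul_of_nonneg_left (hL c) (show 0 ≤ N * δ by linarith only [d0, d3])
    linarith only [d2, h1, h2, h3]
  have hom : ∀ c, ∃ k : ℂ ≃ₜ ℂ, k '' (Λ c).P = (Λ c).P ∧ (∀ v ∈ (Λ c).Vt, k v = v) ∧
      ∀ x ∈ (Λ c).P, ‖k x - T c x‖ ≤ s := fun c => by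
    obtain ⟨η, h1, h2⟩ := hnear c
    obtain ⟨β, b1, b2, b3, b4⟩ := h.bdy c
    have w2 := ((hp c).map (ContinuousLinearMap.fst ℝ ℂ E)
      (ContinuousLinearMap.norm_fst_le _ _ _)).mono (show N * δ ≤ η by linarith only [d4, d7, h1])
    obtain ⟨k, k1, k2, k3⟩ := h2 _ (hP c) (hPc c) (hPn c) (T c) β b1 b2
      (fun b hb => hT c b ▸ (b4 b hb).trans (by linarith only [d3, d4, d7, h1]))
      (fun x hx => mem_of_superset (Tc c x hx (closedBall_mem_nhds _ (e0.trans_le h1)))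
        fun y hy => mem_closedBall_iff_norm.1 hy) fun x hx n hn => by
        obtain ⟨b, hb, γ, hγ⟩ := w2 x hx (innerSL ℝ n) (by rw [innerSL_apply_norm, hn])
        refine ⟨range γ, ?_, isPreconnected_range γ.continuous, ⟨0, γ.source⟩,
          ⟨b, ⟨1, γ.target⟩, hVt c b hb⟩, ?_⟩
        · rintro _ ⟨t, rfl⟩
          exact (hγ t).1
        · rintro _ ⟨t, rfl⟩
          exact (hγ t).2
    exact ⟨k, k1, fun v hv => (k2 (hVt c v hv)).trans (b3 v hv), k3⟩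
  choose k k1 k2 k3 using hom
  have kP : ∀ c, k c ⁻¹' (Λ c).P = (Λ c).P := fun c => by
    conv_lhs => rw [← k1 c, (k c).injective.preimage_image]
  have kf : ∀ c x, k c x ∈ frontier (Λ c).P ↔ x ∈ frontier (Λ c).P := fun c x => by
    rw [← mem_preimage, (k c).preimage_frontier, kP]
  have ki : ∀ c x, k c x ∈ interior (Λ c).P ↔ x ∈ interior (Λ c).P := fun c x => by
    rw [← mem_preimage, (k c).preimage_interior, kP]
  have kv : ∀ c x, k c x ∈ (Λ c).Vt ↔ x ∈ (Λ c).Vt := fun c x =>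
    ⟨fun hx => (k c).injective (k2 c _ hx) ▸ hx, fun hx => (k2 c x hx).symm ▸ hx⟩
  obtain ⟨V, iV, R', T', F', η, η0, hch, hnet⟩ := hcoarse ν app B a w φ Φ
    (h.mono3 JJ RM (by linarith only [d3, d4, d5])) fun c x hx y hy => by
      rw [hT, hT, hF, hF]
      linarith only [rd c x hx y hy, d5]
  simp only [hT, hF] at hnet
  have hnode : ∀ c, ∀ y ∈ (Λ c).P, ∃ x ∈ (Λ c).P, ∃ u, T' c u ∉ (Λ c).Vt ∧ ‖T c x - y‖ ≤ s ∧
      ‖T' c u - T c x‖ ≤ s ∧ ‖F' c u - F c x‖ ≤ s := fun c y hy => by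
    obtain ⟨x, hx, rfl⟩ := (k1 c).symm ▸ hy
    obtain ⟨u, h1, h2, h3⟩ := hnet c x hx
    exact ⟨x, hx, u, h1, norm_sub_rev (k c x) _ ▸ k3 c x hx, h2.trans (min_le_right _ _),
      h3.trans (min_le_right _ _)⟩
  choose xs hxs nd hnd using hnode
  have hZ : ∀ c, ∃ Z₀ : Finset (V c), (∀ z ∈ Z₀, T' c z ∉ (Λ c).Vt) ∧
      Z₀.card ≤ K + ∑ c, (Y2 c).toFinset.card ∧ ∀ y (hy : y ∈ Y c), nd c y (Y1 c hy) ∈ Z₀ :=
    fun c => by
    refine ⟨(Y2 c).toFinset.attach.image fun y : (Y2 c).toFinset =>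
      nd c y.1 (Y1 c ((Y2 c).mem_toFinset.1 y.2)), fun z hz => ?_, ?_, fun y hy => ?_⟩
    · obtain ⟨y, -, rfl⟩ := Finset.mem_image.1 hz
      exact (hnd _ _ _).1
    · refine Finset.card_image_le.trans ?_
      rw [Finset.card_attach]
      exact (Finset.single_le_sum (f := fun c => (Y2 c).toFinset.card) (fun _ _ => Nat.zero_le _)
        (Finset.mem_univ c)).trans (Nat.le_add_left _ _)
    · exact Finset.mem_image.2 ⟨⟨y, (Y2 c).mem_toFinset.2 hy⟩, Finset.mem_attach _ _, rfl⟩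
  choose Z₀ z1 z2 z3 using hZ
  obtain ⟨Nd, r, g, gN, hG, g1, g2, g3, g4⟩ := hbuild ν (appx app) B a φ V R' T' F' L η L0 η0 hφ
    (hch.mono (min_le_left _ _)) (hν.trans (Nat.le_add_right _ _)) Z₀ z1 z2
  choose G hGe using fun c => (hG.pnet c).exists_ext (g c)
  have hd : ∀ c, ∀ p ∈ (Λ c).P, ∃ p' ∈ Eg (r c), p'.re = p.re ∧ ‖p' - p‖ ≤ 8 * s :=
    fun c p hp' => by
    obtain ⟨ha, h1, h2, -⟩ := hnd c p hp'
    obtain ⟨p', h3, h4, h5⟩ := (Λ c).corner_dense (interior_subset (hch.int c _ ha)) hp'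
    have h7 := norm_sub_le_norm_sub_add_norm_sub (T' c (nd c p hp')) (T c (xs c p hp')) p
    refine ⟨p', ?_, h4, by linarith only [h1, h2, h5, h7]⟩
    rcases h3 with h3 | h3
    · obtain ⟨b, hb1⟩ := hch.all c 1 (Λ c).one_mem
      exact g3 c _ b ha (hch.corner c _ ha b (Or.inl hb1)) (hb1 ▸ h3)
    · obtain ⟨b, hb1⟩ := hch.all c (-1) (Λ c).neg_mem
      exact g3 c _ b ha (hch.corner c _ ha b (Or.inr hb1)) (hb1 ▸ h3)
  have cl : ∀ c, ∀ z ∈ Eg (r c) ∪ Nd c, ∀ x ∈ (Λ c).P,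
      ‖G c z - F c x‖ ≤ L * ‖z - T c x‖ + 8 * (L * s) := fun c z hz x hx => by
    obtain ⟨y, hy, hxy⟩ := mem_iUnion₂.1 (Y3 c (TP c x hx))
    obtain ⟨p, p1, p2⟩ := g4 c _ (z3 c y hy)
    obtain ⟨-, h1, h2, h3⟩ := hnd c y (Y1 c hy)
    rw [mem_ball, dist_eq_norm] at hxy
    have h5 := norm_sub_le_norm_sub_add_norm_sub (T c (xs c y (Y1 c hy))) y (T c x)
    rw [norm_sub_rev y] at h5
    have h6 := norm_sub_le_norm_sub_add_norm_sub z (T c x) p
    have h7 := norm_sub_le_norm_sub_add_norm_sub (T c x) (T c (xs c y (Y1 c hy))) p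
    rw [norm_sub_rev (T c x) (T c _)] at h7
    rw [← p1, norm_sub_rev] at h2
    have h8 := (hG.pnet c).lip (hGe c) (hG.harm c) l0 (fun u v hu hv => by
      rw [hG.bd c u hu, hG.bd c v hv]
      exact lipv g1 c _ hu _ hv) hz (Or.inr p.2)
    rw [(hGe c).1 p] at h8
    have h9 := mul_le_mul_of_nonneg_right (hL c) (norm_nonneg (z - p))
    have h10 := rd c _ (hxs c y (Y1 c hy)) x hx
    have h11 := norm_sub_le_norm_sub_add_norm_sub (G c z) (g c p) (F c x)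
    have h12 := norm_sub_le_norm_sub_add_norm_sub (g c p) (F' c (nd c y (Y1 c hy))) (F c x)
    have h13 := norm_sub_le_norm_sub_add_norm_sub (F' c (nd c y (Y1 c hy)))
      (F c (xs c y (Y1 c hy))) (F c x)
    have h14 := mul_le_mul_of_nonneg_left (show ‖z - p‖ ≤ ‖z - T c x‖ + 3 * s by linarith only [hxy, h1, h2, h5, h6, h7]) L0
    have h15 := mul_le_mul_of_nonneg_left
      (show ‖T c (xs c y (Y1 c hy)) - T c x‖ ≤ 2 * s by linarith only [hxy, h1, h5]) L0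
    linarith only [s2, d6, p2, h3, h8, h9, h10, h11, h12, h13, h14, h15]
  choose Kc t t1 t2 t3 t4 t5 using fun c => cells (hG.pnet c) (hG.all c) (hG.inner c) (hGe c)
    (s := 8 * s) (by linarith only [s0]) (hd c)
  choose K' q1 q2 q3 using fun c => s6_pull (Kc c) (k c) (k1 c)
  refine ⟨gN, K', fun c x => G c (t c (k c x)), fun x => by linarith only [g2 x, hε, s1, s2], fun c α => ?_,
    fun c y hy => ?_, fun c d hd x hx y hy => ?_, fun c p _ hp' => ?_,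
    fun l m A X x1 x2 x3 x4 => ?_⟩
  · have h1 := t1 c α (hG.all c α α.2)
    rw [q1, k2 c α α.2, h1.2, (hGe c).1 ⟨α, hG.all c α α.2⟩, hG.bd c _ α.2, appx_vt]
    exact ⟨h1.1, rfl⟩
  · obtain ⟨e, h1, h2, h3⟩ := t3 c _ ((kf c y).2 hy)
    exact ⟨_, q2 c e h1, h2, fun z hz => (kf c z).1 (h3 hz)⟩
  · obtain ⟨d', h1, h2⟩ := q3 c d hd
    have h3 := t4 c d' h1 _ (h2 x hx) _ (h2 y hy)
    have xP := (a4_d (K' c) hd).1 hx
    have yP := (a4_d (K' c) hd).1 hy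
    have h4 := norm_sub_le_norm_sub_add_norm_sub (T c x) (k c x) (T c y)
    have h5 := norm_sub_le_norm_sub_add_norm_sub (k c x) (k c y) (T c y)
    rw [norm_sub_rev (T c x) (k c x)] at h4
    have h6 := mul_le_mul_of_nonneg_left
      (show ‖T c x - T c y‖ ≤ 18 * s by linarith only [k3 c x xP, k3 c y yP, h3, h4, h5]) L0
    rw [hF, hF]
    linarith only [rd c x xP y yP, s0, s1, s2, d6, h6]
  · have pP := interior_subset hp'
    have h1 := t2 c _ (interior_subset ((ki c p).2 hp'))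
    have h2 := norm_sub_le_norm_sub_add_norm_sub (t c (k c p)) (k c p) (T c p)
    have h3 := mul_le_mul_of_nonneg_left
      (show ‖t c (k c p) - T c p‖ ≤ 17 * s by linarith only [k3 c p pP, h1.2, h2]) L0
    rw [hF]
    linarith only [cl c _ h1.1 p pP, s1, h3]
  · have h1 := fun c => t5 c l m (k c '' X c) (by
      rintro _ ⟨p, hp', rfl⟩
      obtain ⟨y1, y2, y3, y4⟩ := x2 c p hp'
      refine ⟨(q1 c p).1 y1, by rwa [ki, kv], y3, fun q hq h2 ⟨e, h3, h4, h5, h6⟩ => ?_⟩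
      obtain ⟨q, rfl⟩ := (k c).surjective q
      rw [ki, kv] at h2
      refine (y4 q ((q1 c q).2 hq) h2 ⟨_, q2 c e h3, fun h7 => h4 fun z hz => ?_, h5, h6⟩).imp_right
        fun h7 h8 => ⟨q, h7 h8, rfl⟩
      obtain ⟨z, rfl⟩ := (k c).surjective z
      exact (kf c z).2 (h7 hz))
    refine hG.plat l m A (fun c => {p | (p : ℂ) ∈ k c '' X c}) (fun c p hp' => ?_)
      (fun x hx => (x1 x hx).1) (fun c p ⟨y, hy, e⟩ => ?_) (fun x hx => (x1 x hx).2)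
      (fun c p hp' => (h1 c).2 p hp') (x4.imp_right fun ⟨c, hc⟩ => ⟨c, (h1 c).1 (hc.image _)⟩)
    · rw [appx_vt app c ⟨p, hp'⟩, ← x3, mem_ofPred_eq]
      conv_lhs => rw [← k2 c p hp', (k c).injective.mem_set_image]
    · have h2 := (x2 c y hy).2.2.1
      rwa [e, (t1 c p p.2).2, (hGe c).1 p] at h2

end H16S6

end Pool.Agent.MP_17e62b_gt.G
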