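import Pool.Agent.MP_17e62b_gt.Mg.H14_M3
import Pool.Agent.MP_17e62b_gt.Mg.G_H72Iface
import Pool.Agent.MP_4a6971_al.H83.Conv

attribute [-instance] LieAdmissibleAlgebra.toModule RightPreLieAlgebra.toModule
  LeftPreLieAlgebra.toModule instCoeTCOfCoe AddQuantale.instAddLeftMono AddQuantale.instAddRightMono
  NumberField.to_charZero RKHS.instFunLike Quantale.instMulRightMono
  NonUnitalNonAssocRing.toAddCommGroup GrpTypeEquivalenceGrp.grpGroup Semiring.toAddCommMonoid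
  DivisionRing.toRing IdemSemiring.toCanonicallyOrderedAdd CommRing.toRing instCoeTOfCoeDep
  MulSemiringAction.toDistribMulAction Valued.toUniformSpace
  LinearOrderedCommMonoidWithZero.toPosMulStrictMono CoalgHomClass.toSemilinearMapClass
  TotallySeparatedSpace.t2Space IsAffineAddMonoid.toIsCancelAdd
  NonUnitalNormedRing.toNonUnitalSeminormedRing instCoeTC AddCommMonoidWithOne.toAddMonoidWithOne
  instSMulZeroClass NonarchimedeanAddGroup.toIsTopologicalAddGroup instCoeHTCOfCoeHeadOfCoeOTC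
  ProperSMul.toContinuousSMul NormedRing.toRing instCoeHTC NonarchimedeanRing.toIsTopologicalRing
  IsTopologicalTorsor.toContinuousSMul continuousSub_of_discreteTopology instCoeOutOfCoeFun
  NonUnitalRing.toNonUnitalNonAssocRing AddCommGroupWithOne.toAddGroupWithOne
  NonUnitalAlgSemiHomClass.toDistribMulActionSemiHomClass Torsor.toMulAction
  LieAdmissibleRing.toNonUnitalNonAssocRing SemilinearIsometryClass.toSemilinearMapClass
  LieRing.toAddCommGroup RingHomClass.toLinearMapClassNNRat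

section
/-! Definitions for the networks on a band. -/

namespace Pool.Agent.MP_17e62b_gt.G

open Set Filter Topology Metric
open scoped BigOperators InnerProductSpace Classical
open H14
open T55 (af Sq SqH SqV Cells Nbr vert)
open Pool.Agent.MP_4a6971_al.H83 (PArc)

/-- The polygon has the corners of the coarse lens and slightly curved sides. -/
def Bul (Λ : Lens) (m : ℕ) (b : ℝ) : Prop :=
  ∃ u : ℝ → ℝ, ConcaveOn ℝ univ u ∧ (∀ x, |x| ≤ 1 → upm m x ≤ u x ∧ u x ≤ 1 - x ^ 2) ∧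
    (∀ x, Λ.up x = (1 - b) * upm m x + b * u x) ∧
    ∀ k ≤ m + 2, vk (m + 2) k 1 ∈ Λ.Vt ∧ vk (m + 2) k (-1) ∈ Λ.Vt

/-- The polygon as an intersection of half planes. -/
def Poly (Λ : Lens) (L₀ : Finset (ℂ × ℝ)) : Prop :=
  (∀ l ∈ L₀, l.1 ≠ 0) ∧ Λ.P = {z | ∀ l ∈ L₀, 0 ≤ T55.af l z}

/-- Boundary data that are affine in the abscissa over the coarse intervals. -/
structure CData {E : Type} [NormedAddCommGroup E] [NormedSpace ℝ E] (m : ℕ) (L : ℝ)
    (I : Bool → ℝ → E) : Prop where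
  nonneg : 0 ≤ L
  left : I false (-1) = I true (-1)
  right : I false 1 = I true 1
  aff : ∀ e, ∀ k < m + 2, ∀ t ∈ Icc (0 : ℝ) 1,
    I e (AffineMap.lineMap (tk (m + 2) k) (tk (m + 2) (k + 1)) t) =
      AffineMap.lineMap (I e (tk (m + 2) k)) (I e (tk (m + 2) (k + 1))) t
  lip : ∀ e x x', |x| ≤ 1 → |x'| ≤ 1 → ‖I e x - I e x'‖ ≤ L * |x - x'|

/-- The boundary function. -/
noncomputable def om {E : Type} (I : Bool → ℝ → E) (z : ℂ) : E :=
  if 0 ≤ z.im then I true z.re else I false z.re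

/-- A planar network whose vertices do not emit and whose edges meet the frontier in vertices. -/
structure Good (Λ : Lens) (Nd : Finset ℂ) (r : Nd → Nd → ℝ) : Prop where
  pnet : PNet Λ Nd r
  stop : ∀ p q : Nd, (p : ℂ) ∈ Λ.Vt → r p q = 0
  vt : ∀ v ∈ Λ.Vt, v ∈ Nd
  fr : ∀ z ∈ Eg r, z ∈ frontier Λ.P → z ∈ Λ.Vt

/-- The bound on the areas of the crossings. -/
def Kink {Nd : Finset ℂ} (r : Nd → Nd → ℝ) (g : Nd → ℝ) (A₀ : ℝ) : Prop :=
  ∀ A : Nd → ℝ, (∀ p, A p = 0 ∨ ∃ v w a a' b b', Xing r g p v w a a' b b' ∧ a ≤ a' ∧ b ≤ b' ∧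
    A p = (a' - a) * (b' - b) / |det2 v w|) → ∑ p, A p ≤ A₀

section

variable {V : Type} [Fintype V]

/-- Values interpolated on two crossing cables differ by at most `α + α'`. -/
def Mis (R : V → V → ℝ) (T : V → ℂ) (F : V → ℝ) (α : V × V → ℝ) : Prop :=
  ∀ a b a' b', 0 < R a b → 0 < R a' b' → ∀ t ∈ Icc (0 : ℝ) 1, ∀ t' ∈ Icc (0 : ℝ) 1,
    AffineMap.lineMap (T a) (T b) t = AffineMap.lineMap (T a') (T b') t' →
      |AffineMap.lineMap (F a) (F b) t - AffineMap.lineMap (F a') (F b') t'| ≤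
        α (a, b) + α (a', b')

end

section

variable {V : Type} [Fintype V]

/-- The chain `R` with positions `T` is drawn as the planar network `r`. -/
structure Drawn (Λ : Lens) (R : V → V → ℝ) (T : V → ℂ) (𝓛 : Finset (ℂ × ℝ)) (Nd : Finset ℂ)
    (r : Nd → Nd → ℝ) : Prop where
  pnet : PNet Λ Nd r
  stop : ∀ p q : Nd, (p : ℂ) ∈ Λ.Vt → r p q = 0
  old : ∀ a, T a ∈ Nd
  seg : ∀ a b, 0 < R a b → segment ℝ (T a) (T b) ⊆ Eg r
  sub : ∀ p p', 0 < r p p' → ∃ a b, 0 < R a b ∧ segment ℝ (p : ℂ) p' ⊆ segment ℝ (T a) (T b)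
  cut : ∀ p p', 0 < r p p' → ∀ l ∈ 𝓛, af l p ≠ af l p' → ∀ z ∈ segment ℝ (p : ℂ) p',
    af l z = 0 → z = p ∨ z = p'
  new : ∀ p ∈ Nd, (∃ a, T a = p) ∨ ∃ a b, 0 < R a b ∧ p ∈ segment ℝ (T a) (T b) ∧
    ((∃ a' b', 0 < R a' b' ∧ det2 (T b - T a) (T b' - T a') ≠ 0 ∧ p ∈ segment ℝ (T a') (T b')) ∨
      ∃ l ∈ 𝓛, af l (T a) ≠ af l (T b) ∧ af l p = 0)
  harm : ∀ (X : Type) [AddCommGroup X] [Module ℝ X] (G : ℂ → X) (p : Nd), (p : ℂ) ∉ Λ.Vt →
    (∀ a b, 0 < R a b → (p : ℂ) ∈ segment ℝ (T a) (T b) → ∀ t ∈ Icc (0 : ℝ) 1,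
      G (AffineMap.lineMap (T a) (T b) t) = AffineMap.lineMap (G (T a)) (G (T b)) t) →
    (∀ a, T a = p → gen R (fun b => G (T b)) a = 0) → gen r (fun n => G n) p = 0

end

section

variable {V : Type} [Fintype V]

/-- A chain with harmonic positions and no node inside a cable. -/
structure Plan (Λ : Lens) (B : Set V) (R : V → V → ℝ) (T : V → ℂ) : Prop where
  nonneg : ∀ a b, 0 ≤ R a b
  stop : ∀ b ∈ B, ∀ a, R b a = 0
  abs : Abs R B
  mem : ∀ a, T a ∈ Λ.P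
  bd : ∀ a, T a ∈ Λ.Vt ↔ a ∈ B
  all : ∀ v ∈ Λ.Vt, ∃ b, T b = v
  inj : Function.Injective T
  harmT : ∀ a, a ∉ B → gen R T a = 0
  vert : ∀ a b, 0 < R a b → (T a).re ≠ (T b).re
  node : ∀ a b, 0 < R a b → ∀ d, T d ∈ segment ℝ (T a) (T b) → d = a ∨ d = b

end

/-- Every steep line through `z` meets, within `σ`, a flat segment that lies in the edges. -/
def Den {Nd : Finset ℂ} (r : Nd → Nd → ℝ) (z : ℂ) (σ : ℝ) : Prop :=
  ∀ v : ℂ, ‖v‖ = 1 → 4 * |v.re| ≤ |v.im| → ∃ t : ℝ, |t| ≤ σ ∧ ∃ w, w ≠ z + t • v ∧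
    segment ℝ (z + t • v) w ⊆ Eg r ∧ |(w - (z + t • v)).im| ≤ 2 * |(w - (z + t • v)).re|

theorem Den.mono {Nd : Finset ℂ} {r : Nd → Nd → ℝ} {z : ℂ} {σ σ' : ℝ} (h : Den r z σ)
    (hσ : σ ≤ σ') : Den r z σ' := fun v h1 h2 =>
  (h v h1 h2).imp fun _ ht => ⟨ht.1.trans hσ, ht.2⟩

/-- A network with short edges that is dense. -/
structure Fine (Λ : Lens) (Nd : Finset ℂ) (r : Nd → Nd → ℝ) (s : ℝ) : Prop where
  good : Good Λ Nd r
  short : ∀ p p', 0 < r p p' → ‖(p' : ℂ) - p‖ ≤ s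
  den : ∀ z ∈ Λ.P, Den r z s
  net : ∀ z ∈ Λ.P, ∃ p ∈ Nd, ‖p - z‖ ≤ s

/-- The points of the grid spanned by `μ (1 + 4 i)` and `μ (-1 + 4 i)`. -/
def gp (μ : ℝ) (k : ℤ × ℤ) : ℂ := ⟨μ * (k.1 - k.2), 4 * μ * (k.1 + k.2)⟩

/-- Neighbours in the grid. -/
def GAdj (a b : ℤ × ℤ) : Prop :=
  (a.1 = b.1 ∧ (a.2 + 1 = b.2 ∨ b.2 + 1 = a.2)) ∨ (a.2 = b.2 ∧ (a.1 + 1 = b.1 ∨ b.1 + 1 = a.1))

/-- The lines of the grid. -/
noncomputable def grid (μ : ℝ) : Finset (ℂ × ℝ) :=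
  (Finset.Icc (-⌈2 / μ⌉) ⌈2 / μ⌉).image (fun j : ℤ => ((⟨4, 1⟩ : ℂ), 8 * μ * j)) ∪
    (Finset.Icc (-⌈2 / μ⌉) ⌈2 / μ⌉).image fun j : ℤ => ((⟨4, -1⟩ : ℂ), 8 * μ * j)

/-- A polygonal cross cut along lines of the grid. -/
structure CutArc (Λ : Lens) (μ : ℝ) (n : ℕ) (v : ℕ → ℂ) (γ : ℝ → ℂ) : Prop where
  two : 2 ≤ n
  arc : PArc Λ.P γ
  lin : ∀ i < n, ∀ t ∈ Icc (0 : ℝ) 1, γ ((i + t) / n) = AffineMap.lineMap (v i) (v (i + 1)) t
  line : ∀ i < n, ∃ l ∈ grid μ, af l (v i) = 0 ∧ af l (v (i + 1)) = 0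
  long : ∀ i, 0 < i → i + 1 < n → μ ≤ ‖v (i + 1) - v i‖

/-- A finite net in general position. -/
structure GNet (ζ : ℝ) (Y : Finset ℂ) : Prop where
  net : ∀ z : ℂ, ‖z‖ ≤ 3 → ∃ y ∈ Y, ‖y - z‖ ≤ ζ
  re : ∀ a ∈ Y, ∀ b ∈ Y, a ≠ b → a.re ≠ b.re
  det : ∀ a ∈ Y, ∀ b ∈ Y, ∀ d ∈ Y, b ≠ a → d ≠ a → d ≠ b → det2 (b - a) (d - a) ≠ 0

/-- The points of `Y` and the crossing points of segments between them and of lines of `𝓛`. -/
structure Pts72 (Y : Finset ℂ) (𝓛 : Finset (ℂ × ℝ)) (X : Finset ℂ) : Prop where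
  sub : Y ⊆ X
  two : ∀ a ∈ Y, ∀ b ∈ Y, ∀ a' ∈ Y, ∀ b' ∈ Y, det2 (b - a) (b' - a') ≠ 0 →
    ∀ z ∈ segment ℝ a b, z ∈ segment ℝ a' b' → z ∈ X
  line : ∀ a ∈ Y, ∀ b ∈ Y, ∀ l ∈ 𝓛, af l a ≠ af l b → ∀ z ∈ segment ℝ a b, af l z = 0 → z ∈ X

/-- The new points `La` and all points `W`. -/
structure Lat (Nd : Finset ℂ) (ℓ : Set ℂ) (Y : Finset ℂ) (k ζ : ℝ) (La W : Finset ℂ) : Prop where
  mem : ∀ p, p ∈ W ↔ p ∈ La ∨ (p ∈ Nd ∧ 9 * k ≤ infDist p ℓ)
  disj : ∀ p ∈ La, p ∈ Nd → infDist p ℓ < 9 * k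
  dist : ∀ p ∈ La, infDist p ℓ ≤ 12 * k + ζ
  net : ∀ z, infDist z ℓ ≤ 119 / 10 * k → ∃ p ∈ La, ‖p - z‖ ≤ 2 * ζ
  gen : ∀ a ∈ La, (a ∈ Y ∧ infDist a ℓ ≤ 4 * k) ∨ (3 * k < infDist a ℓ ∧
    (∀ b ∈ W, b ≠ a → a.re ≠ b.re) ∧
      ∀ b ∈ W, ∀ d ∈ W, b ≠ a → d ≠ a → d ≠ b → det2 (b - a) (d - a) ≠ 0)

/-- `u` is harmonic on the old network and almost Lipschitz. -/
def Test (Λ : Lens) {Nd : Finset ℂ} (r : Nd → Nd → ℝ) {X : Type} [NormedAddCommGroup X]
    [NormedSpace ℝ X] (u : ℂ → X) (L β : ℝ) : Prop :=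
  0 ≤ L ∧ (∀ n : Nd, (n : ℂ) ∉ Λ.Vt → gen r (fun n => u n) n = 0) ∧
    ∀ z ∈ Λ.P, ∀ z' ∈ Λ.P, ‖u z - u z'‖ ≤ L * ‖z - z'‖ + β

/-- The thinned chain. The rows of the points in `New` are new. -/
structure Thin (Λ : Lens) {Nd : Finset ℂ} (r : Nd → Nd → ℝ) (ℓ : Set ℂ) (Y : Finset ℂ) (k ζ : ℝ)
    (W : Finset ℂ) (R : W → W → ℝ) (New : Set ℂ) : Prop where
  plan : Plan Λ {p : W | (p : ℂ) ∈ Λ.Vt} R (fun p => p)
  keep : ∀ p ∈ Nd, 10 * k ≤ infDist p ℓ → p ∈ W ∧ p ∉ New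
  old : ∀ p : W, (p : ℂ) ∉ New → ∃ hp : (p : ℂ) ∈ Nd, 10 * k ≤ infDist (p : ℂ) ℓ ∧
    (∀ q : W, 0 < R p q → ∃ hq : (q : ℂ) ∈ Nd, 0 < r ⟨p, hp⟩ ⟨q, hq⟩) ∧
    (∀ q : Nd, 0 < r ⟨p, hp⟩ q → ∃ hq : (q : ℂ) ∈ W, 0 < R p ⟨q, hq⟩) ∧
    ∀ (X : Type) [AddCommGroup X] [Module ℝ X] (u : ℂ → X),
      gen R (fun n => u n) p = gen r (fun n => u n) ⟨p, hp⟩
  new : ∀ p : W, (p : ℂ) ∈ New → infDist (p : ℂ) ℓ ≤ 12 * k + ζ ∧ ∑ q, R p q ≤ 2 ∧
    (∀ q, 0 < R p q → ‖(q : ℂ) - p‖ ≤ 3 / 2 * k) ∧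
    ∀ (X : Type) [NormedAddCommGroup X] [NormedSpace ℝ X] (u : ℂ → X) (L β : ℝ),
      Test Λ r u L β → ‖gen R (fun n => u n) p‖ ≤ 30 * L * ζ + 4 * β
  pot : ∃ κ : W → ℝ, (∀ p, 0 ≤ κ p ∧ κ p ≤ 64 / k ^ 2 + 1) ∧ ∀ p : W, (p : ℂ) ∉ Λ.Vt →
    0 ≤ -gen R κ p ∧ ((p : ℂ) ∈ New → 1 ≤ -gen R κ p)
  deep : ∀ p ∈ W, infDist p ℓ ≤ 3 * k → p ∈ Y
  den : ∀ z, infDist z ℓ ≤ 23 / 2 * k → ∃ y y₁ y₂ : W, 0 < R y y₁ ∧ 0 < R y y₂ ∧
    ‖(y : ℂ) - z‖ ≤ 2 * ζ ∧ ‖(y₁ : ℂ) - (y + 8 * ζ)‖ ≤ 2 * ζ ∧ ‖(y₂ : ℂ) - (y - 8 * ζ)‖ ≤ 2 * ζ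

/-- The thinned network `r'`. -/
structure Thinned (Λ : Lens) {Nd : Finset ℂ} (r : Nd → Nd → ℝ) (ℓ : Set ℂ) (𝓛 : Finset (ℂ × ℝ))
    (X : Finset ℂ) (k s : ℝ) (Nd' : Finset ℂ) (r' : Nd' → Nd' → ℝ) : Prop where
  good : Good Λ Nd' r'
  cut : ∀ p p', 0 < r' p p' → ∀ l ∈ 𝓛, af l p ≠ af l p' → ∀ z ∈ segment ℝ (p : ℂ) p',
    af l z = 0 → z = p ∨ z = p'
  short : ∀ p p', 0 < r' p p' → ‖(p' : ℂ) - p‖ ≤ 2 * k
  short' : ∀ p p', 0 < r' p p' → ∀ z ∈ segment ℝ (p : ℂ) p', 137 / 10 * k ≤ infDist z ℓ →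
    ‖(p' : ℂ) - p‖ ≤ s ∧ segment ℝ (p : ℂ) p' ⊆ Eg r
  den : ∀ z ∈ Λ.P, Den r' z (2 * k)
  den' : ∀ z ∈ Λ.P, 11 * k ≤ infDist z ℓ → Den r' z s
  deep : ∀ p ∈ Nd', infDist p ℓ ≤ k → p ∈ X
  far : ∀ p : Nd', 137 / 10 * k ≤ infDist (p : ℂ) ℓ → (p : ℂ) ∈ Eg r ∪ Nd ∧
    ∀ (Z : Type) [AddCommGroup Z] [Module ℝ Z] (g : Nd → Z) (G : ℂ → Z), IsExt r g G →
      (∀ n : Nd, (n : ℂ) ∉ Λ.Vt → gen r g n = 0) → (p : ℂ) ∉ Λ.Vt → gen r' (fun n => G n) p = 0

/-- The polygon, the cutting arc, the chart that straightens it, and the network. -/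
structure Setup (Λ : Lens) (L₀ : Finset (ℂ × ℝ)) (μ : ℝ) (n : ℕ) (v : ℕ → ℂ) (γ : ℝ → ℂ)
    (k : ℂ ≃ₜ ℂ) (Nd : Finset ℂ) (r : Nd → Nd → ℝ) : Prop where
  poly : Poly Λ L₀
  arc : CutArc Λ μ n v γ
  sq : k '' Sq = Λ.P
  mid : ∀ t ∈ Icc (0 : ℝ) 1, k ⟨1 / 2, t⟩ = γ t
  good : Good Λ Nd r
  cut : ∀ p p', 0 < r p p' → ∀ l ∈ grid μ, af l p ≠ af l p' → ∀ z ∈ segment ℝ (p : ℂ) p',
    af l z = 0 → z = p ∨ z = p'

/-- The lines of the arrangement. -/
structure Lines (Λ : Lens) (L₀ : Finset (ℂ × ℝ)) (μ : ℝ) (n : ℕ) (v : ℕ → ℂ) {Nd : Finset ℂ}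
    (r : Nd → Nd → ℝ) (σ : ℝ) (L : Finset (ℂ × ℝ)) : Prop where
  sub : L₀ ⊆ L ∧ grid μ ⊆ L
  ne : ∀ l ∈ L, l.1 ≠ 0
  edge : ∀ p p', 0 < r p p' → ∃ l ∈ L, l.1.im ≠ 0 ∧ af l p = 0 ∧ af l p' = 0
  node : ∀ p ∈ Nd, p ∈ vert L Λ.P
  corner : ∀ i ≤ n, v i ∈ vert L Λ.P
  vertical : ∀ z ∈ vert L Λ.P, ((1 : ℂ), z.re) ∈ L
  small : ∀ p ∈ Λ.P, ∀ p' ∈ Λ.P, (∀ l ∈ L, 0 ≤ af l p * af l p') → ‖p' - p‖ ≤ σ

/-- `a` and `b` are vertices on one line and the segment between them lies in `H`. -/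
def Hop (L : Finset (ℂ × ℝ)) (Q H : Set ℂ) (a b : ℂ) (σ : ℝ) : Prop :=
  a ∈ vert L Q ∧ b ∈ vert L Q ∧ (∃ l ∈ L, af l a = 0 ∧ af l b = 0) ∧ segment ℝ a b ⊆ H ∧
    ‖b - a‖ ≤ σ

/-- Near `y` the network is dense and has short edges. -/
def Loc (Λ : Lens) {Nd : Finset ℂ} (r : Nd → Nd → ℝ) (σ : ℝ) (y : ℂ) : Prop :=
  (∀ z ∈ Λ.P, ‖z - y‖ ≤ 20 * σ → Den r z σ) ∧ ∀ p p', 0 < r p p' →
    ∀ z ∈ segment ℝ (p : ℂ) p', ‖z - y‖ ≤ 20 * σ → ‖(p' : ℂ) - p‖ ≤ σ

/-- The interpolation weights on the set `H`. -/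
structure Wts (Λ : Lens) (μ σ₀ : ℝ) {Nd : Finset ℂ} (r : Nd → Nd → ℝ) (H : Set ℂ)
    (lam : ℂ → Nd → ℝ) : Prop where
  cont : ContinuousOn lam H
  simplex : ∀ y ∈ H, lam y ∈ stdSimplex ℝ Nd
  node : ∀ p : Nd, (p : ℂ) ∈ H → ∀ n, n ≠ p → lam p n = 0
  loc : ∀ y ∈ H, ∀ n, lam y n ≠ 0 → ∃ C ⊆ H, IsPreconnected C ∧ y ∈ C ∧ (n : ℂ) ∈ C ∧
    (∀ z ∈ C, ∀ n', lam z n' ≠ 0 → lam y n' ≠ 0) ∧
    ∀ σ, σ₀ ≤ σ → 10 * σ ≤ μ → Loc Λ r σ y → ∀ z ∈ C, ‖z - y‖ ≤ 30 * σ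
  up : ∀ y ∈ H, ∀ u : Nd → ℝ, ∃ n : Nd, ∃ C ⊆ H, IsPreconnected C ∧ y ∈ C ∧ (n : ℂ) ∈ C ∧
    ∀ z ∈ C, cmb u (lam y) ≤ cmb u (lam z)
  edge : ∀ p q, 0 < r p q → segment ℝ (p : ℂ) q ⊆ H → ∃ C ⊆ H, IsPreconnected C ∧ (p : ℂ) ∈ C ∧
    (q : ℂ) ∈ C ∧ (∀ z ∈ C, ∀ n, lam z n ≠ 0 → n = p ∨ n = q) ∧
    ∀ z ∈ C, ∃ w ∈ segment ℝ (p : ℂ) q, ‖z - w‖ ≤ 2 * σ₀

end Pool.Agent.MP_17e62b_gt.G

end

section
/-! Bulged lenses. -/

namespace Pool.Agent.MP_17e62b_gt.G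

open Set Filter Topology Metric
open scoped BigOperators InnerProductSpace Classical
open H14
open T55 (af Sq SqH SqV Cells Nbr vert)
open Pool.Agent.MP_4a6971_al.H83 (PArc)

theorem exists_bul_lens_c (V : Finset ℂ)
    (h : ∀ b ∈ V, ∃ n : ℂ, ‖n‖ = 1 ∧ ∀ a ∈ V, a ≠ b → 0 < ⟪n, a - b⟫_ℝ) :
    ∃ c > 0, ∀ b ∈ V, ∃ n : ℂ, ‖n‖ = 1 ∧
      ∀ a ∈ convexHull ℝ (V : Set ℂ), c * ‖a - b‖ ≤ ⟪n, a - b⟫_ℝ := by
  have hev : ∀ᶠ c in 𝓝[>] (0 : ℝ), ∀ b ∈ V, ∃ n : ℂ, ‖n‖ = 1 ∧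
      ∀ a ∈ V, c * ‖a - b‖ ≤ ⟪n, a - b⟫_ℝ := by
    refine (eventually_all_finset V).2 fun b hb => ?_
    obtain ⟨n, hn, h⟩ := h b hb
    refine ((eventually_all_finset V).2 fun a ha => ?_).mono fun c hc => ⟨n, hn, hc⟩
    rcases eq_or_ne a b with rfl | hab
    · exact Eventually.of_forall fun c => by simp
    · have h1 : Tendsto (fun c : ℝ => c * ‖a - b‖) (𝓝 0) (𝓝 (0 * ‖a - b‖)) :=
        tendsto_id.mul_const _
      rw [zero_mul] at h1
      exact (h1.eventually_le_const (h a ha hab)).filter_mono nhdsWithin_le_nhds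
  obtain ⟨c, hc, hc0⟩ := (hev.and self_mem_nhdsWithin).exists
  have hc0' : 0 < c := hc0
  refine ⟨c, hc0', fun b hb => ?_⟩
  obtain ⟨n, hn, h⟩ := hc b hb
  refine ⟨n, hn, fun a ha => convexHull_min (t := {a | c * ‖a - b‖ ≤ ⟪n, a - b⟫_ℝ}) h ?_ ha⟩
  intro x hx y hy p q hp hq hpq
  have e : p • x + q • y - b = p • (x - b) + q • (y - b) := by
    rw [smul_sub, smul_sub, sub_add_sub_comm, ← add_smul, hpq, one_smul]
  have h1 := norm_add_le (p • (x - b)) (q • (y - b))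
  rw [norm_smul, norm_smul, Real.norm_of_nonneg hp, Real.norm_of_nonneg hq] at h1
  have h2 := mul_le_mul_of_nonneg_left h1 hc0'.le
  have h3 := mul_le_mul_of_nonneg_left (show c * ‖x - b‖ ≤ ⟪n, x - b⟫_ℝ from hx) hp
  have h4 := mul_le_mul_of_nonneg_left (show c * ‖y - b‖ ≤ ⟪n, y - b⟫_ℝ from hy) hq
  rw [mem_ofPred_eq, e, inner_add_right, real_inner_smul_right, real_inner_smul_right]
  linarith

theorem exists_bul_lens_expo {u : ℝ → ℝ} {t σ b e : ℝ} (hb : 0 < b) (he : e = 1 ∨ e = -1)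
    (h : ∀ x, |x| ≤ 1 → u x ≤ u t + σ * (x - t) - b * (x - t) ^ 2) :
    ∃ n : ℂ, ‖n‖ = 1 ∧ ∀ a : ℂ, |a.re| ≤ 1 → |a.im| ≤ u a.re → a ≠ ⟨t, e * u t⟩ →
      0 < ⟪n, a - ⟨t, e * u t⟩⟫_ℝ := by
  have he2 : e * e = 1 := by rcases he with rfl | rfl <;> norm_num
  have hea : |e| = 1 := by rcases he with rfl | rfl <;> norm_num
  have hn : (⟨σ, -e⟩ : ℂ) ≠ 0 := fun h => by
    have := congrArg Complex.im h
    simp only [Complex.zero_im, neg_eq_zero] at this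
    rw [this] at he2
    norm_num at he2
  refine ⟨‖(⟨σ, -e⟩ : ℂ)‖⁻¹ • (⟨σ, -e⟩ : ℂ), norm_smul_inv_norm hn, fun a h1 ha hab => ?_⟩
  rw [real_inner_smul_left]
  refine mul_pos (inv_pos.2 (norm_pos_iff.2 hn)) ?_
  have h3 : e * a.im ≤ u a.re := (le_abs_self _).trans (by rwa [abs_mul, hea, one_mul])
  have h4 : ⟪(⟨σ, -e⟩ : ℂ), a - ⟨t, e * u t⟩⟫_ℝ = σ * (a.re - t) + u t - e * a.im := by
    rw [Complex.inner]
    simp only [Complex.mul_re, Complex.sub_re, Complex.sub_im, Complex.conj_re, Complex.conj_im]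
    linear_combination u t * he2
  rw [h4]
  by_contra hc
  have h2 := h _ h1
  have h5 : b * (a.re - t) ^ 2 = 0 := le_antisymm (by linarith) (by positivity)
  have h6 : a.re = t :=
    sub_eq_zero.1 (pow_eq_zero_iff two_ne_zero |>.1 ((mul_eq_zero.1 h5).resolve_left hb.ne'))
  refine hab (Complex.ext h6 ?_)
  rw [h6, sub_self, mul_zero] at hc
  rw [h6] at h3
  have h7 : e * a.im = u t := by linarith only [h3, hc]
  show a.im = e * u t
  rw [← h7, ← mul_assoc, he2, one_mul]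

theorem exists_bul_lens_aff {m m' : ℕ} (hm : m + 2 ∣ m' + 2) {k : ℕ} (hk : k < m' + 2) {s : ℝ}
    (hs : s ∈ Icc (0 : ℝ) 1) : upm m (tk (m' + 2) k + s * (2 / (m' + 2 : ℕ))) =
      (1 - s) * upm m (tk (m' + 2) k) + s * upm m (tk (m' + 2) (k + 1)) := by
  obtain ⟨q, hq⟩ := hm
  have hq0 : 0 < q := Nat.pos_of_ne_zero fun h => by simp [h] at hq
  have e : ∀ j, tk (m + 2) j = tk (m' + 2) (j * q) := fun j => by
    have : (q : ℝ) ≠ 0 := by positivity
    rw [hq, tk, tk, Nat.cast_mul, Nat.cast_mul, ← mul_assoc, mul_div_mul_right _ _ this]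
  have hj : k / q < m + 2 := (Nat.div_lt_iff_lt_mul hq0).2 (hq ▸ hk)
  have h1 : tk (m + 2) (k / q) ≤ tk (m' + 2) k := e _ ▸ upm_eq_mono _ (Nat.div_mul_le_self k q)
  have h2 : tk (m' + 2) (k + 1) ≤ tk (m + 2) (k / q + 1) :=
    e _ ▸ upm_eq_mono _ ((Nat.div_lt_iff_lt_mul hq0).1 (Nat.lt_succ_self _))
  have h3 := upm_eq_mono (m' + 2) (Nat.le_succ k)
  have h0 : (0 : ℝ) < 2 / (m' + 2 : ℕ) := by positivity
  have h4 := mul_nonneg hs.1 h0.le
  have h5 := mul_le_of_le_one_left h0.le hs.2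
  have h6 := exists_lens_succ (m' + 2) k
  rw [upm_eq hj (by linarith only [h1, h4]) (by linarith only [h2, h5, h6]), upm_eq hj h1 (h3.trans h2),
    upm_eq hj (h1.trans h3) h2, h6]
  unfold chord
  ring

/-- U1. Hint: follow `exists_lens`. `upm m` is affine on the fine intervals (`upm_eq`: a fine
interval lies in a coarse one), so `up` is. At the vertex over `t` take a supergradient `σ₀` of
`upm m` (the slope of a chord through `t`); `up x ≤ up t + σ (x - t) - b (x - t) ^ 2` on `[-1, 1]`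
with `σ = (1 - b) σ₀ - 2 b t` (`exists_lens_le`, `exists_lens_tk`). -/
theorem exists_bul_lens {m m' : ℕ} (hm : m + 2 ∣ m' + 2) {b : ℝ} (h0 : 0 < b) (h1 : b ≤ 1) :
    ∃ Λ : Lens, (∀ x, Λ.up x = (1 - b) * upm m x + b * upm m' x) ∧
      (∀ v, v ∈ Λ.Vt ↔ ∃ k ≤ m' + 2, v = ⟨tk (m' + 2) k, Λ.up (tk (m' + 2) k)⟩ ∨
        v = ⟨tk (m' + 2) k, -Λ.up (tk (m' + 2) k)⟩) ∧
      ∀ k < m' + 2, ∀ s ∈ Icc (0 : ℝ) 1, Λ.up (tk (m' + 2) k + s * (2 / (m' + 2 : ℕ))) =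
        (1 - s) * Λ.up (tk (m' + 2) k) + s * Λ.up (tk (m' + 2) (k + 1)) := by
  obtain ⟨A, hA, -⟩ := exists_lens m
  obtain ⟨C, hC, -⟩ := exists_lens m'
  have h2 : 0 ≤ 1 - b := sub_nonneg.2 h1
  obtain ⟨u, hu⟩ : ∃ u : ℝ → ℝ, ∀ x, u x = (1 - b) * A.up x + b * C.up x := ⟨_, fun _ => rfl⟩
  obtain ⟨V, hV⟩ : ∃ V : Finset ℂ, ∀ v, v ∈ V ↔ ∃ k ≤ m' + 2,
      v = ⟨tk (m' + 2) k, u (tk (m' + 2) k)⟩ ∨ v = ⟨tk (m' + 2) k, -u (tk (m' + 2) k)⟩ :=
    ⟨((Finset.range (m' + 3)).image fun k => ⟨tk (m' + 2) k, u (tk (m' + 2) k)⟩) ∪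
      (Finset.range (m' + 3)).image fun k => ⟨tk (m' + 2) k, -u (tk (m' + 2) k)⟩, fun v => by
      simp only [Finset.mem_union, Finset.mem_image, Finset.mem_range, Nat.lt_succ_iff,
        and_or_left, exists_or, eq_comm]⟩
  have hV' : ∀ k ≤ m' + 2, ∀ e : ℝ, e = 1 ∨ e = -1 →
      (⟨tk (m' + 2) k, e * u (tk (m' + 2) k)⟩ : ℂ) ∈ V := fun k hk e he =>
    (hV _).2 ⟨k, hk, he.imp (fun h => by rw [h, one_mul]) fun h => by rw [h, neg_one_mul]⟩
  have haff : ∀ k < m' + 2, ∀ s ∈ Icc (0 : ℝ) 1, u (tk (m' + 2) k + s * (2 / (m' + 2 : ℕ))) =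
      (1 - s) * u (tk (m' + 2) k) + s * u (tk (m' + 2) (k + 1)) := fun k hk s hs => by
    rw [hu, hu, hu, hA, hC, exists_bul_lens_aff hm hk hs, exists_bul_lens_aff dvd_rfl hk hs]
    ring
  have hpos : ∀ x, |x| ≤ 1 → 0 ≤ u x := fun x hx => by
    rw [hu]
    exact add_nonneg (mul_nonneg h2 (by linarith only [A.half_le hx, hx]))
      (mul_nonneg h0.le (by linarith only [C.half_le hx, hx]))
  have hvt : ∀ v ∈ V, |v.re| ≤ 1 ∧ |v.im| = u v.re := by
    intro v hv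
    obtain ⟨k, hk, h⟩ := (hV v).1 hv
    have h3 := exists_lens_abs hk
    rcases h with rfl | rfl
    · exact ⟨h3, abs_of_nonneg (hpos _ h3)⟩
    · exact ⟨h3, (abs_neg _).trans (abs_of_nonneg (hpos _ h3))⟩
  have hhull : reg u 0 ⊆ convexHull ℝ (V : Set ℂ) := by
    rintro z ⟨h3, h4⟩
    obtain ⟨k, hk, s, hs, hx⟩ := exists_lens_cover m' h3
    have hc := convex_convexHull ℝ (V : Set ℂ)
    have h5 : ∀ e : ℝ, e = 1 ∨ e = -1 →
        (⟨z.re, e * u z.re⟩ : ℂ) ∈ convexHull ℝ (V : Set ℂ) := fun e he => by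
      convert hc (subset_convexHull ℝ _ (hV' k hk.le e he))
        (subset_convexHull ℝ _ (hV' (k + 1) hk e he)) (sub_nonneg.2 hs.2) hs.1
        (sub_add_cancel 1 s) using 1
      rw [hx, haff k hk s hs]
      refine Complex.ext ?_ ?_
      · simp only [Complex.add_re, Complex.smul_re, smul_eq_mul, exists_lens_succ]
        ring
      · simp only [Complex.add_im, Complex.smul_im, smul_eq_mul]
        ring
    rw [add_zero, abs_le] at h4
    obtain ⟨p, q, hp, hq, hpq, hy⟩ : z.im ∈ segment ℝ (-u z.re) (u z.re) := by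
      rw [segment_eq_Icc (h4.1.trans h4.2)]
      exact h4
    convert hc (h5 (-1) (Or.inr rfl)) (h5 1 (Or.inl rfl)) hp hq hpq using 1
    refine Complex.ext ?_ ?_
    · simp only [Complex.add_re, Complex.smul_re, smul_eq_mul]
      rw [← add_mul, hpq, one_mul]
    · simp only [Complex.add_im, Complex.smul_im, smul_eq_mul, neg_one_mul, one_mul]
      exact hy.symm
  have hsup : ∀ k ≤ m' + 2, ∃ σ : ℝ, ∀ x, |x| ≤ 1 → u x ≤ u (tk (m' + 2) k) +
      σ * (x - tk (m' + 2) k) - b * (x - tk (m' + 2) k) ^ 2 := fun k hk => by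
    obtain ⟨j, hj, h⟩ := Finset.exists_mem_eq_inf' (s := Finset.range (m + 2)) ⟨0, by simp only [Finset.mem_range, lt_add_iff_pos_left, add_pos_iff, Order.lt_two_iff, zero_le, or_true]⟩
      fun j => chord (m + 2) j (tk (m' + 2) k)
    have h3 : upm m (tk (m' + 2) k) = chord (m + 2) j (tk (m' + 2) k) := h
    refine ⟨-((1 - b) * (tk (m + 2) j + tk (m + 2) (j + 1))) - 2 * b * tk (m' + 2) k,
      fun x hx => ?_⟩
    have h4 : upm m x ≤ chord (m + 2) j x := Finset.inf'_le _ hj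
    have h5 := mul_le_mul_of_nonneg_left h4 h2
    have h6 := mul_le_mul_of_nonneg_left (exists_lens_le m' hx) h0.le
    rw [hu, hu, hA, hC, h3, exists_lens_tk hk]
    unfold chord at h5 ⊢
    linarith only [h5, h6]
  obtain ⟨c, hc0, hc⟩ := exists_bul_lens_c V fun v hv => by
    obtain ⟨k, hk, h⟩ := (hV v).1 hv
    obtain ⟨σ, hσ⟩ := hsup k hk
    obtain ⟨e, he, rfl⟩ : ∃ e : ℝ, (e = 1 ∨ e = -1) ∧
        v = ⟨tk (m' + 2) k, e * u (tk (m' + 2) k)⟩ := by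
      rcases h with rfl | rfl
      · exact ⟨1, Or.inl rfl, by rw [one_mul]⟩
      · exact ⟨-1, Or.inr rfl, by rw [neg_one_mul]⟩
    obtain ⟨n, hn, h⟩ := exists_bul_lens_expo h0 he hσ
    exact ⟨n, hn, fun a ha => h a (hvt a ha).1 (hvt a ha).2.le⟩
  have u1 : u 1 = 0 := by rw [hu, A.up_one, C.up_one]; ring
  have u2 : u (-1) = 0 := by rw [hu, A.up_neg, C.up_neg]; ring
  refine ⟨⟨u, V, c, fun x x' => ?_, ⟨convex_univ, fun x _ y _ p q hp hq hpq => ?_⟩, u1, u2, ?_,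
    fun x hx => ?_, (hV _).2 ⟨m' + 2, le_rfl, Or.inl ?_⟩, (hV _).2 ⟨0, Nat.zero_le _, Or.inl ?_⟩,
    hvt, hhull, hc0, fun v hv => (hc v hv).imp fun n hn => ⟨hn.1, fun a ha => hn.2 a (hhull ha)⟩⟩,
    fun x => by rw [← hA, ← hC]; exact hu x, hV, haff⟩
  · have a1 := abs_le.1 (A.lip x x')
    have a2 := abs_le.1 (C.lip x x')
    have a3 := mul_le_mul_of_nonneg_left a1.1 h2
    have a4 := mul_le_mul_of_nonneg_left a1.2 h2
    have a5 := mul_le_mul_of_nonneg_left a2.1 h0.le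
    have a6 := mul_le_mul_of_nonneg_left a2.2 h0.le
    rw [hu, hu, abs_le]
    constructor <;> linarith only [a3, a5, a4, a6]
  · have a1 := mul_le_mul_of_nonneg_left (A.conc.2 (mem_univ x) (mem_univ y) hp hq hpq) h2
    have a2 := mul_le_mul_of_nonneg_left (C.conc.2 (mem_univ x) (mem_univ y) hp hq hpq) h0.le
    rw [hu, hu, hu]
    simp only [smul_eq_mul] at a1 a2 ⊢
    linarith
  · have a1 := mul_le_mul_of_nonneg_left A.up_zero h2
    have a2 := mul_le_mul_of_nonneg_left C.up_zero h0.le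
    rw [hu]
    linarith
  · have a1 := mul_le_mul_of_nonneg_left (A.up_le x hx) h2
    have a2 := mul_le_mul_of_nonneg_left (C.up_le x hx) h0.le
    rw [hu]
    linarith
  · rw [exists_lens_last, u1]
    rfl
  · rw [exists_lens_zero, u2]
    exact Complex.ext (by simp) (by simp)

end Pool.Agent.MP_17e62b_gt.G

end

section
/-! Bulged lenses with short sides; coarse data. -/

namespace Pool.Agent.MP_17e62b_gt.G

open Set Filter Topology Metric
open scoped BigOperators InnerProductSpace Classical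
open H14
open T55 (af Sq SqH SqV Cells Nbr vert)
open Pool.Agent.MP_4a6971_al.H83 (PArc)

theorem exists_bul_sides {E : Type} [NormedAddCommGroup E] [NormedSpace ℝ E]
    [FiniteDimensional ℝ E] {Λ : Lens} {m : ℕ} {σ : ℝ} (h4 : 3 * ((2 : ℝ) / (m + 2 : ℕ)) ≤ σ)
    (hV : ∀ v, v ∈ Λ.Vt ↔ ∃ k ≤ m + 2, v = ⟨tk (m + 2) k, Λ.up (tk (m + 2) k)⟩ ∨
      v = ⟨tk (m + 2) k, -Λ.up (tk (m + 2) k)⟩)
    (haff : ∀ k < m + 2, ∀ s ∈ Icc (0 : ℝ) 1, Λ.up (tk (m + 2) k + s * (2 / (m + 2 : ℕ))) =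
      (1 - s) * Λ.up (tk (m + 2) k) + s * Λ.up (tk (m + 2) (k + 1))) (φ : ℂ → E) :
    ∃ ω : ℂ → E, Continuous ω ∧ (∀ v ∈ Λ.Vt, ω v = φ v) ∧
      ∀ y ∈ frontier Λ.P, ∃ v ∈ Λ.Vt, ∃ v' ∈ Λ.Vt,
        ‖v - v'‖ ≤ σ ∧ y ∈ segment ℝ v v' ∧ segment ℝ v v' ⊆ frontier Λ.P ∧
          ∀ t ∈ Icc (0 : ℝ) 1, ω (AffineMap.lineMap v v' t) = AffineMap.lineMap (φ v) (φ v') t := by
  obtain ⟨w, hw⟩ : ∃ w : ℕ → ℝ → ℂ, ∀ k e, w k e = ⟨tk (m + 2) k, e * Λ.up (tk (m + 2) k)⟩ :=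
    ⟨_, fun _ _ => rfl⟩
  have hline : ∀ k < m + 2, ∀ e : ℝ, ∀ s ∈ Icc (0 : ℝ) 1,
      AffineMap.lineMap (w k e) (w (k + 1) e) s = (⟨tk (m + 2) k + s * (2 / (m + 2 : ℕ)),
        e * Λ.up (tk (m + 2) k + s * (2 / (m + 2 : ℕ)))⟩ : ℂ) := fun k hk e s hs => by
    rw [haff k hk s hs, AffineMap.lineMap_apply_module, hw, hw]
    refine Complex.ext ?_ ?_
    · simp only [Complex.add_re, Complex.smul_re, smul_eq_mul, exists_lens_succ]
      ring
    · simp only [Complex.add_im, Complex.smul_im, smul_eq_mul]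
      ring
  obtain ⟨J, hJc, hJ⟩ : ∃ J : ℝ → ℝ → E, (∀ e, Continuous (J e)) ∧ ∀ e, ∀ k < m + 2,
      ∀ s ∈ Icc (0 : ℝ) 1, J e (tk (m + 2) k + s * (2 / (m + 2 : ℕ))) =
        AffineMap.lineMap (φ (w k e)) (φ (w (k + 1) e)) s :=
    ⟨fun e x => ∑ j ∈ Finset.range (m + 3),
      max 0 (1 - |(x + 1) * (m + 2 : ℕ) / 2 - j|) • φ (w j e), fun e => by fun_prop,
      fun e k hk s hs => exists_lens_sides_hat hk (fun j => φ (w j e)) hs⟩
  have h01 : (0 : ℝ) ∈ Icc (0 : ℝ) 1 := left_mem_Icc.2 zero_le_one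
  have h11 : (1 : ℝ) ∈ Icc (0 : ℝ) 1 := right_mem_Icc.2 zero_le_one
  have hend : ∀ x, |x| ≤ 1 → Λ.up x ≤ 0 → J 1 x = J (-1) x := fun x hx h => by
    have h1 : |x| = 1 := le_antisymm hx (by linarith only [Λ.half_le hx, h])
    rcases (abs_eq zero_le_one).1 h1 with rfl | rfl
    · have := fun e => hJ e (m + 1) (by omega) 1 h11
      simp only [one_mul, ← exists_lens_succ, AffineMap.lineMap_apply_one, exists_lens_last,
        hw, Λ.up_one, mul_zero] at this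
      rw [this, this]
    · have := fun e => hJ e 0 (by omega) 0 h01
      simp only [zero_mul, add_zero, AffineMap.lineMap_apply_zero, exists_lens_zero,
        hw, Λ.up_neg, mul_zero] at this
      rw [this, this]
  have hfr : ∀ y, y ∈ frontier Λ.P ↔ |y.re| ≤ 1 ∧ |y.im| = Λ.up y.re := fun y => by
    rw [Lens.P, Λ.mem_frontier, add_zero]
    refine ⟨fun ⟨⟨h1, h2⟩, h3⟩ => ⟨h1, h3.elim (fun h => ?_) id⟩,
      fun ⟨h1, h2⟩ => ⟨⟨h1, by rw [add_zero, h2]⟩, Or.inr h2⟩⟩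
    have h4 := Λ.le_two h1
    have h5 := Λ.half_le h1
    rw [h] at h4 h5
    linarith only [abs_nonneg y.im, h2, h4]
  have hcont : ContinuousOn (fun z : ℂ => if 0 ≤ z.im then J 1 z.re else J (-1) z.re)
      (frontier Λ.P) := by
    refine ContinuousOn.if (fun z hz => ?_) ((hJc 1).comp Complex.continuous_re).continuousOn
      ((hJc (-1)).comp Complex.continuous_re).continuousOn
    have h1 : 0 = z.im := frontier_le_subset_eq continuous_const Complex.continuous_im hz.2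
    obtain ⟨h2, h3⟩ := (hfr z).1 hz.1
    exact hend _ h2 (by rw [← h3, ← h1, abs_zero])
  have := TietzeExtension.of_tvs.{0} ℝ (E := E)
  obtain ⟨ω, hω⟩ := ContinuousMap.exists_restrict_eq isClosed_frontier
    ⟨_, continuousOn_iff_continuous_domRestrict.1 hcont⟩
  have hside : ∀ e : ℝ, e = 1 ∨ e = -1 → ∀ k < m + 2, ∀ s ∈ Icc (0 : ℝ) 1,
      AffineMap.lineMap (w k e) (w (k + 1) e) s ∈ frontier Λ.P ∧
      ω (AffineMap.lineMap (w k e) (w (k + 1) e) s) =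
        AffineMap.lineMap (φ (w k e)) (φ (w (k + 1) e)) s := by
    intro e he k hk s hs
    have h0 : (0 : ℝ) < 2 / (m + 2 : ℕ) := by positivity
    have h1 : |tk (m + 2) k + s * (2 / (m + 2 : ℕ))| ≤ 1 := by
      have h2 := abs_le.1 (exists_lens_abs hk.le)
      have h3 := abs_le.1 (exists_lens_abs (m := m) (k := k + 1) hk)
      rw [exists_lens_succ] at h3
      exact abs_le.2 ⟨by linarith only [mul_nonneg hs.1 h0.le, h2],
        by linarith only [mul_le_of_le_one_left h0.le hs.2, h3]⟩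
    rw [hline k hk e s hs, ← hJ e k hk s hs]
    generalize tk (m + 2) k + s * (2 / (m + 2 : ℕ)) = x at h1
    have h2 : 0 ≤ Λ.up x := le_trans (by linarith only [h1]) (Λ.half_le h1)
    have h3 : (⟨x, e * Λ.up x⟩ : ℂ) ∈ frontier Λ.P := (hfr _).2 ⟨h1, by
      rcases he with rfl | rfl <;> simp [abs_of_nonneg h2]⟩
    refine ⟨h3, (DFunLike.congr_fun hω ⟨_, h3⟩).trans ?_⟩
    change (if 0 ≤ e * Λ.up x then J 1 x else J (-1) x) = J e x
    rcases he with rfl | rfl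
    · rw [if_pos (by linarith only [h2])]
    · split_ifs with h
      · exact hend x h1 (by linarith only [h])
      · rfl
  have hmem : ∀ e : ℝ, e = 1 ∨ e = -1 → ∀ k ≤ m + 2, w k e ∈ Λ.Vt := fun e he k hk =>
    (hV _).2 ⟨k, hk, he.imp (fun h => by rw [h, hw, one_mul]) fun h => by rw [h, hw, neg_one_mul]⟩
  refine ⟨ω, ω.continuous, fun v hv => ?_, fun y hy => ?_⟩
  · obtain ⟨k, hk, e, he, rfl⟩ : ∃ k ≤ m + 2, ∃ e : ℝ, (e = 1 ∨ e = -1) ∧ v = w k e := by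
      obtain ⟨k, hk, h | h⟩ := (hV v).1 hv
      · exact ⟨k, hk, 1, Or.inl rfl, by rw [h, hw, one_mul]⟩
      · exact ⟨k, hk, -1, Or.inr rfl, by rw [h, hw, neg_one_mul]⟩
    rcases k with _ | k
    · simpa only [AffineMap.lineMap_apply_zero] using (hside e he 0 (by omega) 0 h01).2
    · simpa only [AffineMap.lineMap_apply_one] using (hside e he k (by omega) 1 h11).2
  · obtain ⟨h1, h2⟩ := (hfr y).1 hy
    obtain ⟨k, hk, s, hs, hx⟩ := exists_lens_cover m h1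
    obtain ⟨e, he, h3⟩ : ∃ e : ℝ, (e = 1 ∨ e = -1) ∧ y.im = e * Λ.up y.re := by
      rcases abs_choice y.im with h | h
      · exact ⟨1, Or.inl rfl, by linarith only [h2, h]⟩
      · exact ⟨-1, Or.inr rfl, by linarith only [h2, h]⟩
    refine ⟨_, hmem e he k hk.le, _, hmem e he (k + 1) hk, ?_, ?_, ?_,
      fun t ht => (hside e he k hk t ht).2⟩
    · have h0 : (0 : ℝ) < 2 / (m + 2 : ℕ) := by positivity
      refine (Complex.norm_le_abs_re_add_abs_im _).trans (le_trans ?_ h4)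
      simp only [hw, Complex.sub_re, Complex.sub_im]
      rw [exists_lens_succ]
      generalize (2 : ℝ) / (m + 2 : ℕ) = h at *
      generalize tk (m + 2) k = t at *
      have h7 : |t - (t + h)| ≤ h := abs_le.2 ⟨by linarith only [], by linarith only [h0]⟩
      have h9 := abs_le.1 ((Λ.lip t (t + h)).trans (mul_le_mul_of_nonneg_left h7 zero_le_two))
      have h8 : |e * Λ.up t - e * Λ.up (t + h)| ≤ 2 * h := by
        rcases he with rfl | rfl <;> exact abs_le.2 ⟨by linarith only [h9.1, h9.2],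
          by linarith only [h9.1, h9.2]⟩
      linarith only [h7, h8]
    · rw [segment_eq_image_lineMap]
      refine ⟨s, hs, ?_⟩
      rw [hline k hk e s hs, ← hx, ← h3]
    · rw [segment_eq_image_lineMap]
      rintro _ ⟨t, ht, rfl⟩
      exact (hside e he k hk t ht).1

theorem exists_bul_poly {Λ : Lens} {m m' : ℕ} {b : ℝ} (h0 : 0 ≤ b) (h1 : b ≤ 1)
    (hup : ∀ x, Λ.up x = (1 - b) * upm m x + b * upm m' x) : ∃ L₀, Poly Λ L₀ := by
  have hex : ∀ m x, ∃ k < m + 2, upm m x = chord (m + 2) k x := fun m x => by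
    obtain ⟨k, hk, h⟩ := Finset.exists_mem_eq_inf' (s := Finset.range (m + 2)) ⟨0, by simp only [Finset.mem_range, lt_add_iff_pos_left, add_pos_iff, Order.lt_two_iff, zero_le, or_true]⟩
      fun k => chord (m + 2) k x
    exact ⟨k, Finset.mem_range.1 hk, h⟩
  have hle : ∀ m x, ∀ k < m + 2, upm m x ≤ chord (m + 2) k x := fun m x k hk =>
    Finset.inf'_le _ (Finset.mem_range.2 hk)
  obtain ⟨ln, hln, hne⟩ : ∃ ln : ℝ → ℕ × ℕ → ℂ × ℝ, (∀ e k z, af (ln e k) z =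
      (1 - b) * chord (m + 2) k.1 z.re + b * chord (m' + 2) k.2 z.re - e * z.im) ∧
      ∀ e k, (ln e k).1.im = e := by
    refine ⟨fun e k => (⟨-((1 - b) * (tk (m + 2) k.1 + tk (m + 2) (k.1 + 1)) +
      b * (tk (m' + 2) k.2 + tk (m' + 2) (k.2 + 1))), e⟩,
      -((1 - b) * (1 + tk (m + 2) k.1 * tk (m + 2) (k.1 + 1)) +
        b * (1 + tk (m' + 2) k.2 * tk (m' + 2) (k.2 + 1)))), fun e k z => ?_, fun _ _ => rfl⟩
    simp only [af, chord, Complex.mul_re]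
    ring
  refine ⟨{(1, -1), (-1, -1)} ∪ ((Finset.range (m + 2) ×ˢ Finset.range (m' + 2)).image (ln 1) ∪
    (Finset.range (m + 2) ×ˢ Finset.range (m' + 2)).image (ln (-1))), fun l hl => ?_, ?_⟩
  · simp only [Finset.mem_union, Finset.mem_insert, Finset.mem_singleton, Finset.mem_image] at hl
    rcases hl with (rfl | rfl) | ⟨k, -, rfl⟩ | ⟨k, -, rfl⟩
    · exact one_ne_zero
    · exact neg_ne_zero.2 one_ne_zero
    · intro h
      have := hne 1 k
      rw [h] at this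
      simp at this
    · intro h
      have := hne (-1) k
      rw [h] at this
      simp at this
  · ext z
    simp only [Lens.P, reg, mem_ofPred_eq, add_zero, Finset.mem_union, Finset.mem_insert,
      Finset.mem_singleton, Finset.mem_image, Finset.mem_product, Finset.mem_range, abs_le]
    constructor
    · rintro ⟨⟨a1, a2⟩, a3, a4⟩ l hl
      have key : ∀ k : ℕ × ℕ, k.1 < m + 2 ∧ k.2 < m' + 2 → Λ.up z.re ≤
          (1 - b) * chord (m + 2) k.1 z.re + b * chord (m' + 2) k.2 z.re := fun k hk => by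
        rw [hup]
        exact add_le_add (mul_le_mul_of_nonneg_left (hle m _ _ hk.1) (sub_nonneg.2 h1))
          (mul_le_mul_of_nonneg_left (hle m' _ _ hk.2) h0)
      rcases hl with (rfl | rfl) | ⟨k, hk, rfl⟩ | ⟨k, hk, rfl⟩
      · simp only [af, one_mul]
        linarith
      · simp only [af, neg_mul, one_mul, Complex.neg_re]
        linarith
      · rw [hln]
        linarith only [key k hk, a4]
      · rw [hln]
        linarith only [key k hk, a3]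
    · intro h
      have a1 := h (1, -1) (Or.inl (Or.inl rfl))
      have a2 := h (-1, -1) (Or.inl (Or.inr rfl))
      simp only [af, one_mul, neg_mul, Complex.neg_re] at a1 a2
      obtain ⟨k, hk, e⟩ := hex m z.re
      obtain ⟨k', hk', e'⟩ := hex m' z.re
      have a3 := h _ (Or.inr (Or.inl ⟨(k, k'), ⟨hk, hk'⟩, rfl⟩))
      have a4 := h _ (Or.inr (Or.inr ⟨(k, k'), ⟨hk, hk'⟩, rfl⟩))
      rw [hln] at a3 a4
      rw [hup, e, e']
      exact ⟨⟨by linarith only [a1], by linarith only [a2]⟩, by linarith only [a4], by linarith only [a3]⟩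

/-- U2. Hint: `exists_bul_lens` with `m' + 2 = (m + 2) N`, `N` large. `upm m ≤ upm m'` on `[-1, 1]`
(concavity, equality at the coarse abscissae). Lines: `re = ± 1` and `± im = (1 - b) chord k +
b chord k'` for all pairs `(k, k')`. The sides as in `exists_lens_sides`
(`exists_lens_sides_hat`). -/
theorem exists_bul {E : Type} [NormedAddCommGroup E] [NormedSpace ℝ E] [FiniteDimensional ℝ E]
    (m : ℕ) {b σ : ℝ} (h0 : 0 < b) (h1 : b ≤ 1) (hσ : 0 < σ) :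
    ∃ (Λ : Lens) (L₀ : Finset (ℂ × ℝ)), Bul Λ m b ∧ Poly Λ L₀ ∧ ∀ φ : ℂ → E, ∃ ω : ℂ → E,
      Continuous ω ∧ (∀ v ∈ Λ.Vt, ω v = φ v) ∧ ∀ y ∈ frontier Λ.P, ∃ v ∈ Λ.Vt, ∃ v' ∈ Λ.Vt,
        ‖v - v'‖ ≤ σ ∧ y ∈ segment ℝ v v' ∧ segment ℝ v v' ⊆ frontier Λ.P ∧
          ∀ t ∈ Icc (0 : ℝ) 1, ω (AffineMap.lineMap v v' t) = AffineMap.lineMap (φ v) (φ v') t := by
  obtain ⟨N, hN⟩ := exists_nat_ge (6 / σ)
  obtain ⟨m', hm'⟩ : ∃ m', m' + 2 = (m + 2) * (N + 1) :=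
    ⟨(m + 2) * N + m, by ring⟩
  obtain ⟨Λ, hup, hV, haff⟩ := exists_bul_lens (m := m) (m' := m') ⟨N + 1, hm'⟩ h0 h1
  obtain ⟨L₀, hL⟩ := exists_bul_poly h0.le h1 hup
  obtain ⟨Λ', hup', -⟩ := exists_lens m'
  have htk : ∀ k, tk (m + 2) k = tk (m' + 2) (k * (N + 1)) := fun k => by
    rw [hm', tk, tk]
    push_cast
    field_simp
  have hle : ∀ k ≤ m + 2, k * (N + 1) ≤ m' + 2 := fun k hk =>
    hm' ▸ Nat.mul_le_mul_right _ hk
  have hval : ∀ k ≤ m + 2, upm m' (tk (m + 2) k) = 1 - tk (m + 2) k ^ 2 := fun k hk => by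
    rw [htk]
    exact exists_lens_tk (hle k hk)
  refine ⟨Λ, L₀, ⟨upm m', hup' ▸ Λ'.conc, fun x hx => ⟨?_, exists_lens_le m' hx⟩, hup,
    fun k hk => ?_⟩, hL, exists_bul_sides ?_ hV haff⟩
  · obtain ⟨k, hk, s, hs, rfl⟩ := exists_lens_cover m hx
    have h2 := (hup' ▸ Λ'.conc).2 (mem_univ (tk (m + 2) k)) (mem_univ (tk (m + 2) (k + 1)))
      (sub_nonneg.2 hs.2) hs.1 (by ring)
    rw [hval k hk.le, hval (k + 1) hk] at h2
    simp only [smul_eq_mul] at h2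
    rw [exists_lens_up hk hs]
    refine h2.trans (le_of_eq (congrArg _ ?_))
    rw [exists_lens_succ]
    ring
  · have h2 : Λ.up (tk (m' + 2) (k * (N + 1))) = 1 - tk (m + 2) k ^ 2 := by
      rw [← htk, hup, hval k hk, exists_lens_tk hk]
      ring
    refine ⟨(hV _).2 ⟨_, hle k hk, Or.inl ?_⟩, (hV _).2 ⟨_, hle k hk, Or.inr ?_⟩⟩
    · rw [h2, ← htk, vk, one_mul]
    · rw [h2, ← htk, vk, neg_one_mul]
  · rw [div_le_iff₀ hσ] at hN
    rw [← mul_div_assoc, div_le_iff₀ (by positivity), hm']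
    push_cast
    have h2 : (0 : ℝ) ≤ m := Nat.cast_nonneg m
    have h3 : (0 : ℝ) ≤ N := Nat.cast_nonneg N
    linarith only [mul_nonneg hσ.le (mul_nonneg h2 h3), mul_nonneg hσ.le h2, hσ, hN]

/-- U3. Hint: `exists_lens_sides_hat`; a sum of hat functions is Lipschitz. -/
theorem exists_cdata {E : Type} [NormedAddCommGroup E] [NormedSpace ℝ E] (m : ℕ) (φ : ℂ → E) :
    ∃ (L : ℝ) (I : Bool → ℝ → E), CData m L I ∧ ∀ k ≤ m + 2,
      I true (tk (m + 2) k) = φ (vk (m + 2) k 1) ∧ I false (tk (m + 2) k) = φ (vk (m + 2) k (-1)) := by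
  obtain ⟨g, hg1, hg2⟩ : ∃ g : Bool → ℕ → E, (∀ j, g true j = φ (vk (m + 2) j 1)) ∧
      ∀ j, g false j = φ (vk (m + 2) j (-1)) :=
    ⟨fun e j => φ (vk (m + 2) j (if e then 1 else -1)), fun _ => rfl, fun _ => rfl⟩
  obtain ⟨I, hI⟩ : ∃ I : Bool → ℝ → E, ∀ e x, I e x = ∑ j ∈ Finset.range (m + 3),
      max 0 (1 - |(x + 1) * (m + 2 : ℕ) / 2 - j|) • g e j := ⟨_, fun _ _ => rfl⟩
  have hJ : ∀ e, ∀ k < m + 2, ∀ s ∈ Icc (0 : ℝ) 1, I e (tk (m + 2) k + s * (2 / (m + 2 : ℕ))) =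
      AffineMap.lineMap (g e k) (g e (k + 1)) s := fun e k hk s hs => by
    rw [hI]
    exact exists_lens_sides_hat hk (g e) hs
  have hval : ∀ e, ∀ k ≤ m + 2, I e (tk (m + 2) k) = g e k := fun e k hk => by
    rcases k with _ | k
    · simpa only [zero_mul, add_zero, AffineMap.lineMap_apply_zero] using
        hJ e 0 (by omega) 0 (left_mem_Icc.2 zero_le_one)
    · simpa only [one_mul, ← exists_lens_succ, AffineMap.lineMap_apply_one] using
        hJ e k (by omega) 1 (right_mem_Icc.2 zero_le_one)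
  refine ⟨∑ j ∈ Finset.range (m + 3), (m + 2 : ℕ) / 2 * (‖g true j‖ + ‖g false j‖), I,
    ⟨by positivity, ?_, ?_, fun e k hk t ht => ?_, fun e x x' _ _ => ?_⟩,
    fun k hk => ⟨by rw [hval _ k hk, hg1], by rw [hval _ k hk, hg2]⟩⟩
  · have h := fun e => hval e 0 (Nat.zero_le _)
    rw [exists_lens_zero] at h
    rw [h, h, hg1, hg2]
    simp only [vk, exists_lens_zero, even_two, Even.neg_pow, one_pow, sub_self, mul_zero]
  · have h := fun e => hval e (m + 2) le_rfl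
    rw [exists_lens_last] at h
    rw [h, h, hg1, hg2]
    simp [vk, exists_lens_last]
  · rw [hval e k hk.le, hval e (k + 1) hk, ← hJ e k hk t ht, AffineMap.lineMap_apply_ring,
      exists_lens_succ]
    congr 1
    ring
  · rw [hI, hI, ← Finset.sum_sub_distrib, Finset.sum_mul]
    refine (norm_sum_le _ _).trans (Finset.sum_le_sum fun j _ => ?_)
    rw [← sub_smul, norm_smul, Real.norm_eq_abs]
    have h1 : |max 0 (1 - |(x + 1) * (m + 2 : ℕ) / 2 - j|) -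
        max 0 (1 - |(x' + 1) * (m + 2 : ℕ) / 2 - j|)| ≤ (m + 2 : ℕ) / 2 * |x - x'| := by
      rw [max_comm 0, max_comm 0]
      refine (abs_max_sub_max_le_abs _ _ _).trans ?_
      rw [sub_sub_sub_cancel_left]
      refine (abs_abs_sub_abs_le_abs_sub _ _).trans (le_of_eq ?_)
      rw [abs_sub_comm x, ← abs_of_nonneg (show (0 : ℝ) ≤ (m + 2 : ℕ) / 2 by positivity),
        ← abs_mul]
      congr 1
      ring
    have h2 : ‖g e j‖ ≤ ‖g true j‖ + ‖g false j‖ := by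
      cases e
      · exact le_add_of_nonneg_left (norm_nonneg _)
      · exact le_add_of_nonneg_right (norm_nonneg _)
    calc _ ≤ (m + 2 : ℕ) / 2 * |x - x'| * (‖g true j‖ + ‖g false j‖) :=
          mul_le_mul h1 h2 (norm_nonneg _) (by positivity)
      _ = _ := by ring

end Pool.Agent.MP_17e62b_gt.G

end

section
/-! The Lipschitz bound for coarse data. -/

namespace Pool.Agent.MP_17e62b_gt.G

open Set Filter Topology Metric
open scoped BigOperators InnerProductSpace Classical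
open H14
open T55 (af Sq SqH SqV Cells Nbr vert)
open Pool.Agent.MP_4a6971_al.H83 (PArc)

/-- U4. The cone constant at the coarse corners. Hint: `c = min c₀ 1 / 2` for the lens of
`exists_lens m`. Move `a` vertically to `a'` in that lens;
`‖a - a'‖ ≤ b (1 - x ^ 2 - upm m x) ≤ 4 b |x - t|`. -/
theorem bul_cone (m : ℕ) : ∃ c > 0, ∀ (Λ : Lens) (b : ℝ), 0 < b → b ≤ c / 8 → Bul Λ m b →
    ∀ k ≤ m + 2, ∀ v, v = vk (m + 2) k 1 ∨ v = vk (m + 2) k (-1) →
      ∃ n : ℂ, ‖n‖ = 1 ∧ ∀ a ∈ Λ.P, c * ‖a - v‖ ≤ ⟪n, a - v⟫_ℝ := by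
  obtain ⟨Λ₀, hup, hV⟩ := exists_lens m
  have hc1 : 0 < min Λ₀.c₀ 1 := lt_min Λ₀.c_pos one_pos
  refine ⟨min Λ₀.c₀ 1 / 2, by positivity, fun Λ b hb hbc hB k hk v hv => ?_⟩
  obtain ⟨u, -, hu, hΛ, -⟩ := hB
  obtain ⟨n, hn, hnv⟩ := Λ₀.expo v ((hV v).2 ⟨k, hk, hv⟩)
  refine ⟨n, hn, fun a ha => ?_⟩
  have hre : v.re = tk (m + 2) k := by rcases hv with rfl | rfl <;> rfl
  have ha1 : |a.re| ≤ 1 := ha.1
  have ha2 : |a.im| ≤ Λ.up a.re + 0 := ha.2
  have hU : 0 ≤ upm m a.re := by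
    have := Λ₀.half_le ha1
    rw [hup] at this
    linarith only [ha1, this]
  have hlip := Λ₀.lip a.re (tk (m + 2) k)
  rw [hup, exists_lens_tk hk] at hlip
  have ht := exists_lens_abs hk
  have hd : |a.re - tk (m + 2) k| ≤ ‖a - v‖ := by
    have := Complex.abs_re_le_norm (a - v)
    rwa [Complex.sub_re, hre] at this
  have hq : 1 - a.re ^ 2 - upm m a.re ≤ 4 * ‖a - v‖ := by
    have e1 : tk (m + 2) k ^ 2 - a.re ^ 2 ≤ 2 * |a.re - tk (m + 2) k| := by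
      have e2 : |a.re + tk (m + 2) k| ≤ 2 := (abs_add_le _ _).trans (by linarith only [ha1, ht])
      have e3 := neg_abs_le ((a.re + tk (m + 2) k) * (a.re - tk (m + 2) k))
      rw [abs_mul] at e3
      have e4 := mul_le_mul_of_nonneg_right e2 (abs_nonneg (a.re - tk (m + 2) k))
      linarith only [e3, e4]
    have e5 := neg_abs_le (upm m a.re - (1 - tk (m + 2) k ^ 2))
    linarith only [hlip, hd, e1, e5]
  have hex : |a.im| ≤ upm m a.re + 4 * b * ‖a - v‖ := by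
    rw [hΛ] at ha2
    have e1 := mul_le_mul_of_nonneg_left (hu _ ha1).2 hb.le
    have e2 := mul_le_mul_of_nonneg_left hq hb.le
    linarith only [ha2, e1, e2]
  have hpos : 0 ≤ 4 * b * ‖a - v‖ := by positivity
  obtain ⟨y, hy1, hy2⟩ : ∃ y : ℝ, |y| ≤ upm m a.re ∧ |a.im - y| ≤ 4 * b * ‖a - v‖ := by
    rw [abs_le] at hex
    rcases le_total a.im (upm m a.re) with h1 | h1
    · rcases le_total a.im (-upm m a.re) with h2 | h2
      · exact ⟨-upm m a.re, by rw [abs_neg, abs_of_nonneg hU], abs_le.2 ⟨by linarith only [hex], by linarith only [hpos, h2]⟩⟩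
      · exact ⟨a.im, abs_le.2 ⟨h2, h1⟩, by rw [sub_self, abs_zero]; exact hpos⟩
    · exact ⟨upm m a.re, by rw [abs_of_nonneg hU], abs_le.2 ⟨by linarith only [hpos, h1], by linarith only [hex]⟩⟩
  have hmem : (⟨a.re, y⟩ : ℂ) ∈ reg Λ₀.up 0 := ⟨ha1, by rw [hup]; simpa using hy1⟩
  have h1 := hnv _ hmem
  have h2 : ‖a - ⟨a.re, y⟩‖ ≤ 4 * b * ‖a - v‖ := by
    have := Complex.norm_le_abs_re_add_abs_im (a - ⟨a.re, y⟩)
    simp only [Complex.sub_re, Complex.sub_im, sub_self, abs_zero, zero_add] at this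
    exact this.trans hy2
  have h3 : ⟪n, a - v⟫_ℝ = ⟪n, (⟨a.re, y⟩ : ℂ) - v⟫_ℝ + ⟪n, a - ⟨a.re, y⟩⟫_ℝ := by
    rw [← inner_add_right]
    congr 1
    ring
  have h4 : -‖a - ⟨a.re, y⟩‖ ≤ ⟪n, a - ⟨a.re, y⟩⟫_ℝ := by
    have := abs_real_inner_le_norm n (a - ⟨a.re, y⟩)
    rw [hn, one_mul] at this
    linarith only [neg_abs_le ⟪n, a - ⟨a.re, y⟩⟫_ℝ, this]
  have h5 : ‖a - v‖ ≤ ‖a - ⟨a.re, y⟩‖ + ‖(⟨a.re, y⟩ : ℂ) - v‖ := norm_sub_le_norm_sub_add_norm_sub _ _ _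
  have h6 : min Λ₀.c₀ 1 * ‖(⟨a.re, y⟩ : ℂ) - v‖ ≤ Λ₀.c₀ * ‖(⟨a.re, y⟩ : ℂ) - v‖ :=
    mul_le_mul_of_nonneg_right (min_le_left _ _) (norm_nonneg _)
  have h7 := mul_le_mul_of_nonneg_left h5 hc1.le
  have h8 : min Λ₀.c₀ 1 * ‖a - ⟨a.re, y⟩‖ ≤ ‖a - ⟨a.re, y⟩‖ :=
    mul_le_of_le_one_left (norm_nonneg _) (min_le_right _ _)
  have h9 := mul_le_mul_of_nonneg_right hbc (norm_nonneg (a - v))
  linarith only [h1, h2, h3, h4, h6, h7, h8, h9]

theorem bul_hp_join {S : Set ℂ} {f : ℝ → ℂ} (hf : Continuous f) {a b : ℝ}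
    (h : ∀ τ ∈ uIcc a b, f τ ∈ S) : JoinedIn S (f a) (f b) :=
  ((((convex_uIcc a b).isPathConnected ⟨a, left_mem_uIcc⟩).image hf).joinedIn _
    ⟨a, left_mem_uIcc, rfl⟩ _ ⟨b, right_mem_uIcc, rfl⟩).mono (by
      rintro _ ⟨τ, hτ, rfl⟩
      exact h τ hτ)

theorem bul_hp_fr (Λ : Lens) {z : ℂ} :
    z ∈ frontier Λ.P ↔ |z.re| ≤ 1 ∧ |z.im| = Λ.up z.re := by
  rw [Lens.P, Λ.mem_frontier]
  refine ⟨fun ⟨h1, h2⟩ => ⟨h1.1, ?_⟩, fun ⟨h1, h2⟩ =>
    ⟨⟨h1, by rw [h2, add_zero]⟩, Or.inr (by rw [h2, add_zero])⟩⟩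
  rcases h2 with h2 | h2
  · have h3 := Λ.le_two h1.1
    have h4 := Λ.half_le h1.1
    have h5 := h1.2
    have h6 := abs_nonneg z.im
    rw [h2] at h3 h4
    linarith only [h3, h5, h6]
  · rwa [add_zero] at h2

theorem bul_hp_om {E : Type} [NormedAddCommGroup E] [NormedSpace ℝ E] (Λ : Lens) {m : ℕ} {L : ℝ}
    {I : Bool → ℝ → E} (hI : CData m L I) {s : ℝ} (hs : |s| ≤ 1) :
    om I ⟨s, 1 * Λ.up s⟩ = I true s ∧ om I ⟨s, -1 * Λ.up s⟩ = I false s := by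
  have h1 := Λ.half_le hs
  refine ⟨if_pos (by change 0 ≤ 1 * Λ.up s; linarith), ?_⟩
  unfold om
  split_ifs with h
  · change 0 ≤ -1 * Λ.up s at h
    have h2 : |s| = 1 := by linarith only [hs, h1, h]
    change I true s = I false s
    rcases (abs_eq zero_le_one).1 h2 with rfl | rfl
    · exact hI.right.symm
    · exact hI.left.symm
  · rfl

/-- U5. Along the frontier to a coarse corner. Hint: over a coarse interval
`l ((x, ± up x), I x)` differs by at most `b` from an affine function; walk to its better end. -/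
theorem bul_hp {E : Type} [NormedAddCommGroup E] [NormedSpace ℝ E] {Λ : Lens} {m : ℕ} {b L : ℝ}
    {I : Bool → ℝ → E} (h : Bul Λ m b) (h0 : 0 ≤ b) (hI : CData m L I) :
    HP (frontier Λ.P) {v | ∃ k ≤ m + 2, v = vk (m + 2) k 1 ∨ v = vk (m + 2) k (-1)}
      (fun z => (z, om I z)) (2 * b) := by
  obtain ⟨Λ₀, hup, -⟩ := exists_lens m
  obtain ⟨u, -, hu, hΛ, -⟩ := h
  intro x hx l hl
  obtain ⟨hx1, hx2⟩ := (bul_hp_fr Λ).1 hx
  obtain ⟨e, ε, he, hxe, hom⟩ : ∃ (e : ℝ) (ε : Bool), (e = 1 ∨ e = -1) ∧ x.im = e * Λ.up x.re ∧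
      ∀ s, |s| ≤ 1 → om I ⟨s, e * Λ.up s⟩ = I ε s := by
    rcases le_total 0 x.im with h1 | h1
    · exact ⟨1, true, Or.inl rfl, by rw [← hx2, abs_of_nonneg h1, one_mul],
        fun s hs => (bul_hp_om Λ hI hs).1⟩
    · exact ⟨-1, false, Or.inr rfl, by rw [← hx2, abs_of_nonpos h1]; ring,
        fun s hs => (bul_hp_om Λ hI hs).2⟩
  have hea : |e| = 1 := by rcases he with rfl | rfl <;> norm_num
  obtain ⟨k, hk, τ₀, hτ₀, hxr⟩ := exists_lens_cover m hx1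
  set σ : ℝ → ℝ := fun τ => tk (m + 2) k + τ * (2 / (m + 2 : ℕ)) with hσ
  set f : ℝ → ℂ := fun τ => ⟨σ τ, e * Λ.up (σ τ)⟩ with hf
  have hh : (0 : ℝ) < 2 / (m + 2 : ℕ) := by positivity
  have hσ1 : ∀ τ ∈ Icc (0 : ℝ) 1, |σ τ| ≤ 1 := fun τ hτ => by
    have e1 := abs_le.1 (exists_lens_abs hk.le)
    have e2 := abs_le.1 (exists_lens_abs (m := m) (k := k + 1) hk)
    rw [exists_lens_succ] at e2
    have e3 := mul_nonneg hτ.1 hh.le
    have e4 := mul_le_of_le_one_left hh.le hτ.2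
    exact abs_le.2 ⟨by simp only [hσ]; linarith only [e1, e3], by simp only [hσ]; linarith only [e2, e4]⟩
  have hcont : Continuous f := by
    have c1 : Continuous σ := by rw [hσ]; fun_prop
    have c2 : f = fun τ => ((σ τ : ℝ) : ℂ) + ((e * Λ.up (σ τ) : ℝ) : ℂ) * Complex.I := by
      funext τ
      exact Complex.ext (by simp [hf]) (by simp [hf])
    have c3 := Λ.continuous_up
    rw [c2]
    fun_prop
  have hx0 : f τ₀ = x := Complex.ext hxr.symm (by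
    change e * Λ.up (σ τ₀) = x.im
    rw [hxe, hxr])
  have hfr : ∀ τ ∈ Icc (0 : ℝ) 1, f τ ∈ frontier Λ.P := fun τ hτ =>
    (bul_hp_fr Λ).2 ⟨hσ1 τ hτ, by
      change |e * Λ.up (σ τ)| = Λ.up (σ τ)
      have := Λ.half_le (hσ1 τ hτ)
      rw [abs_mul, hea, one_mul, abs_of_nonneg (by linarith only [hσ1 τ hτ, this])]⟩
  set A₀ := l (vk (m + 2) k e, I ε (tk (m + 2) k)) with hA₀
  set A₁ := l (vk (m + 2) (k + 1) e, I ε (tk (m + 2) (k + 1))) with hA₁
  have hval : ∀ τ ∈ Icc (0 : ℝ) 1, |l (f τ, om I (f τ)) - ((1 - τ) * A₀ + τ * A₁)| ≤ b := by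
    intro τ hτ
    have e1 : om I (f τ) = I ε (σ τ) := hom _ (hσ1 τ hτ)
    have e2 : σ τ = AffineMap.lineMap (tk (m + 2) k) (tk (m + 2) (k + 1)) τ := by
      rw [AffineMap.lineMap_apply_module, exists_lens_succ]
      simp only [hσ, smul_eq_mul]
      ring
    have e3 := hI.aff ε k hk τ hτ
    rw [← e2] at e3
    have e4 := exists_lens_side hk e hτ
    have e5 : (1 - τ) * A₀ + τ * A₁ = l (⟨σ τ, e * upm m (σ τ)⟩, I ε (σ τ)) := by
      rw [e3, ← e4, hA₀, hA₁]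
      simp only [AffineMap.lineMap_apply_module, ← smul_eq_mul, ← map_smul, ← map_add,
        Prod.smul_mk, Prod.mk_add_mk]
    rw [e5, e1, ← map_sub, Prod.mk_sub_mk, sub_self]
    refine (l.le_opNorm _).trans ((mul_le_of_le_one_left (norm_nonneg _) hl).trans ?_)
    rw [Prod.norm_mk, norm_zero, max_eq_left (norm_nonneg _)]
    refine (Complex.norm_le_abs_re_add_abs_im _).trans ?_
    simp only [hf, Complex.sub_re, Complex.sub_im, sub_self, abs_zero, zero_add]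
    have e6 := hu _ (hσ1 τ hτ)
    have e7 := Λ₀.half_le (hσ1 τ hτ)
    rw [hup] at e7
    have e8 : e * Λ.up (σ τ) - e * upm m (σ τ) = e * (b * (u (σ τ) - upm m (σ τ))) := by
      rw [hΛ]
      ring
    rw [e8, abs_mul, hea, one_mul, abs_of_nonneg (mul_nonneg h0 (sub_nonneg.2 e6.1))]
    refine mul_le_of_le_one_right h0 ?_
    have e9 := hσ1 τ hτ
    linarith only [sq_nonneg (σ τ), e6, e7, e9]
  have hend : ∀ j ≤ m + 2, (⟨tk (m + 2) j, e * Λ.up (tk (m + 2) j)⟩ : ℂ) = vk (m + 2) j e := by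
    intro j hj
    have e1 := hu _ (exists_lens_abs hj)
    have e2 := exists_lens_tk hj
    have e3 : u (tk (m + 2) j) = 1 - tk (m + 2) j ^ 2 := le_antisymm e1.2 (e2 ▸ e1.1)
    rw [hΛ, e2, e3, vk]
    congr 1
    ring
  have hmem : ∀ j ≤ m + 2, vk (m + 2) j e ∈
      {v | ∃ k ≤ m + 2, v = vk (m + 2) k 1 ∨ v = vk (m + 2) k (-1)} := fun j hj =>
    ⟨j, hj, he.imp (fun h => by rw [h]) fun h => by rw [h]⟩
  have key : ∀ τ₁ ∈ Icc (0 : ℝ) 1, (∀ τ ∈ uIcc τ₀ τ₁,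
      (1 - τ₀) * A₀ + τ₀ * A₁ ≤ (1 - τ) * A₀ + τ * A₁) →
      JoinedIn {y | y ∈ frontier Λ.P ∧ l (x, om I x) - 2 * b ≤ l (y, om I y)} x (f τ₁) := by
    intro τ₁ h1 h2
    have := bul_hp_join (S := {y | y ∈ frontier Λ.P ∧ l (x, om I x) - 2 * b ≤ l (y, om I y)})
      hcont (a := τ₀) (b := τ₁) fun τ hτ => by
        have e1 : τ ∈ Icc (0 : ℝ) 1 := uIcc_subset_Icc hτ₀ h1 hτ
        refine ⟨hfr τ e1, ?_⟩
        have e2 := abs_le.1 (hval τ e1)
        have e3 := abs_le.1 (hval τ₀ hτ₀)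
        rw [hx0] at e3
        linarith only [h2 τ hτ, e2, e3]
    rwa [hx0] at this
  rcases le_total A₀ A₁ with h6 | h6
  · refine ⟨_, hmem (k + 1) hk, ?_⟩
    have := key 1 ⟨zero_le_one, le_rfl⟩ fun τ hτ => by
      rw [uIcc_of_le hτ₀.2] at hτ
      linarith only [mul_nonneg (sub_nonneg.2 hτ.1) (sub_nonneg.2 h6)]
    have e1 : f 1 = vk (m + 2) (k + 1) e := by
      rw [← hend (k + 1) hk, exists_lens_succ]
      simp only [hf, hσ, one_mul]
    rwa [e1] at this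
  · refine ⟨_, hmem k hk.le, ?_⟩
    have := key 0 ⟨le_rfl, zero_le_one⟩ fun τ hτ => by
      rw [uIcc_of_ge hτ₀.1] at hτ
      linarith only [mul_nonneg (sub_nonneg.2 hτ.2) (sub_nonneg.2 h6)]
    have e1 : f 0 = vk (m + 2) k e := by
      rw [← hend k hk.le]
      simp only [hf, hσ, zero_mul, add_zero]
    rwa [e1] at this

/-- An extension may be changed on the frontier. Hint: a node that is not a vertex has an edge
(`PNet.abs` for a singleton). -/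
theorem Good.ext_fr {E : Type} [AddCommGroup E] [Module ℝ E] {Λ : Lens} {Nd : Finset ℂ}
    {r : Nd → Nd → ℝ} (h : Good Λ Nd r) {g : Nd → E} {G ω : ℂ → E} (hG : IsExt r g G)
    (hω : ∀ p : Nd, (p : ℂ) ∈ Λ.Vt → g p = ω p) :
    ∃ G' : ℂ → E, IsExt r g G' ∧ (∀ z ∈ Eg r ∪ Nd, G' z = G z) ∧ ∀ z ∈ frontier Λ.P, G' z = ω z := by
  have key : ∀ z ∈ Eg r ∪ Nd, (if z ∈ frontier Λ.P then ω z else G z) = G z := by
    intro z hz
    split_ifs with hf
    · have hv : z ∈ Λ.Vt := by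
        rcases hz with hz | hz
        · exact h.fr z hz hf
        · by_contra hn
          obtain ⟨a, ha, q, -, hq⟩ := h.pnet.abs {⟨z, hz⟩} (singleton_nonempty _)
            (disjoint_singleton_left.2 hn)
          rw [mem_singleton_iff] at ha
          subst ha
          exact hn (h.fr z ⟨_, q, hq, left_mem_segment ℝ _ _⟩ hf)
      exact ((hG.1 ⟨z, h.vt z hv⟩).trans (hω ⟨z, h.vt z hv⟩ hv)).symm
    · rfl
  refine ⟨fun z => if z ∈ frontier Λ.P then ω z else G z,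
    ⟨fun p => (key p (Or.inr p.2)).trans (hG.1 p), fun p p' hpp t ht => ?_⟩, key,
    fun z hz => if_pos hz⟩
  refine (key _ (Or.inl ⟨p, p', hpp, ?_⟩)).trans (hG.2 p p' hpp t ht)
  rw [segment_eq_image_lineMap]
  exact ⟨t, ht, rfl⟩

theorem bul_lip_cross {E : Type} [NormedAddCommGroup E] [NormedSpace ℝ E] {m : ℕ} {L : ℝ}
    {I : Bool → ℝ → E} (hI : CData m L I) {x x' : ℝ} (hx : |x| ≤ 1) (hx' : |x'| ≤ 1) :
    ‖I true x - I false x'‖ ≤ L * (2 * (1 - |x|) + |x - x'|) := by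
  rcases le_total 0 x with h | h
  · have h1 := hI.lip true x 1 hx (by simp)
    have h2 := hI.lip false 1 x' (by simp) hx'
    have h3 := norm_sub_le_norm_sub_add_norm_sub (I true x) (I true 1) (I false x')
    rw [hI.right] at h2
    rw [abs_of_nonneg h] at hx ⊢
    rw [abs_of_nonpos (by linarith)] at h1
    rw [abs_of_nonneg (by linarith [(abs_le.1 hx').2])] at h2
    have h4 := mul_le_mul_of_nonneg_left (le_abs_self (x - x')) hI.nonneg
    linarith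
  · have h1 := hI.lip true x (-1) hx (by simp)
    have h2 := hI.lip false (-1) x' (by simp) hx'
    have h3 := norm_sub_le_norm_sub_add_norm_sub (I true x) (I true (-1)) (I false x')
    rw [hI.left] at h2
    rw [abs_of_nonpos h] at hx ⊢
    rw [abs_of_nonneg (by linarith)] at h1
    rw [abs_of_nonpos (by linarith [(abs_le.1 hx').1])] at h2
    have h4 := mul_le_mul_of_nonneg_left (neg_abs_le (x - x')) hI.nonneg
    linarith

theorem bul_lip_om {E : Type} [NormedAddCommGroup E] [NormedSpace ℝ E] (Λ : Lens) {m : ℕ} {L : ℝ}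
    {I : Bool → ℝ → E} (hI : CData m L I) {a a' : ℂ} (ha : a ∈ frontier Λ.P)
    (ha' : a' ∈ frontier Λ.P) : ‖om I a - om I a'‖ ≤ 5 * L * ‖a - a'‖ := by
  have same : ∀ ε, ‖I ε a.re - I ε a'.re‖ ≤ 5 * L * ‖a - a'‖ := fun ε => by
    have h1 := hI.lip ε _ _ ((bul_hp_fr Λ).1 ha).1 ((bul_hp_fr Λ).1 ha').1
    have h2 := Complex.abs_re_le_norm (a - a')
    rw [Complex.sub_re] at h2
    have h3 := mul_le_mul_of_nonneg_left h2 hI.nonneg
    have h4 := mul_nonneg hI.nonneg (norm_nonneg (a - a'))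
    linarith
  have cross : ∀ a a' : ℂ, a ∈ frontier Λ.P → a' ∈ frontier Λ.P → 0 ≤ a.im → ¬0 ≤ a'.im →
      ‖I true a.re - I false a'.re‖ ≤ 5 * L * ‖a - a'‖ := fun a a' ha ha' h h' => by
    obtain ⟨p1, p2⟩ := (bul_hp_fr Λ).1 ha
    have h1 := bul_lip_cross hI p1 ((bul_hp_fr Λ).1 ha').1
    have h2 := Complex.abs_re_le_norm (a - a')
    have h3 := (le_abs_self _).trans (Complex.abs_im_le_norm (a - a'))
    rw [Complex.sub_re] at h2
    rw [Complex.sub_im] at h3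
    have h4 := Λ.half_le p1
    rw [← p2, abs_of_nonneg h] at h4
    have h5 : 2 * (1 - |a.re|) + |a.re - a'.re| ≤ 5 * ‖a - a'‖ := by linarith only [h', h2, h3, h4]
    have h6 := mul_le_mul_of_nonneg_left h5 hI.nonneg
    linarith only [h1, h6]
  unfold om
  split_ifs with h h' h'
  · exact same true
  · exact cross a a' ha ha' h h'
  · rw [norm_sub_rev, norm_sub_rev a]
    exact cross a' a ha' ha h' h
  · exact same false

/-- U6. Hint: `rado` with `X = Eg r ∪ Nd ∪ frontier`, the coarse corners, `T = id`, `F = G'` from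
`Good.ext_fr`, `δ = 2 b` (`PNet.hp`, then `bul_hp`), `L₀ = 3 L`: between an upper and a lower
corner pass through `1` or `-1`. -/
theorem bul_lip (m : ℕ) (L : ℝ) : ∃ L' ≥ 1, ∃ b₀ > 0, ∀ (E : Type) [NormedAddCommGroup E]
    [NormedSpace ℝ E] (I : Bool → ℝ → E), CData m L I → ∀ (Λ : Lens) (b : ℝ), 0 < b → b ≤ b₀ →
      Bul Λ m b → ∀ (Nd : Finset ℂ) (r : Nd → Nd → ℝ), Good Λ Nd r → ∀ (g : Nd → E) (G : ℂ → E),
        IsExt r g G → (∀ p : Nd, (p : ℂ) ∉ Λ.Vt → gen r g p = 0) →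
        (∀ p : Nd, (p : ℂ) ∈ Λ.Vt → g p = om I p) →
        ∀ z ∈ Eg r ∪ Nd, ∀ z' ∈ Eg r ∪ Nd, ‖G z - G z'‖ ≤ L' * ‖z - z'‖ + 8 * L' * b := by
  obtain ⟨c, hc, hcone⟩ := bul_cone m
  have hK : 0 ≤ 5 * |L| / c := by positivity
  refine ⟨5 * |L| / c + 1, by linarith, c / 8, by positivity,
    fun E _ _ I hI Λ b hb hbc hB Nd r hg g G hG hharm hbd z hz z' hz' => ?_⟩
  obtain ⟨G', hG', h1, h2⟩ := hg.ext_fr (ω := om I) hG hbd
  have hcl : frontier Λ.P ⊆ Λ.P := (Λ.compact_reg 0).isClosed.frontier_subset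
  have hX : Eg r ∪ Nd ∪ frontier Λ.P ⊆ Λ.P :=
    union_subset (union_subset hg.pnet.eg_sub fun p hp => hg.pnet.mem p hp) hcl
  have hvf : ∀ v ∈ Λ.Vt, v ∈ frontier Λ.P := fun v hv => (bul_hp_fr Λ).2 (Λ.vt v hv)
  have hcf : ∀ v ∈ {v | ∃ k ≤ m + 2, v = vk (m + 2) k 1 ∨ v = vk (m + 2) k (-1)},
      v ∈ frontier Λ.P := by
    obtain ⟨u, -, -, -, hv⟩ := hB
    rintro v ⟨k, hk, rfl | rfl⟩
    · exact hvf _ (hv k hk).1
    · exact hvf _ (hv k hk).2
  have hfr : ∀ x ∈ frontier Λ.P, ∀ l : ℂ × E →L[ℝ] ℝ, ‖l‖ ≤ 1 →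
      ∃ v ∈ {v | ∃ k ≤ m + 2, v = vk (m + 2) k 1 ∨ v = vk (m + 2) k (-1)},
        JoinedIn {y | y ∈ Eg r ∪ Nd ∪ frontier Λ.P ∧ l (x, G' x) - 2 * b ≤ l (y, G' y)} x v := by
    intro x hx l hl
    obtain ⟨v, hv, hj⟩ := bul_hp hB hb.le hI x hx l hl
    exact ⟨v, hv, hj.mono fun y hy => ⟨Or.inr hy.1, by rw [h2 x hx, h2 y hy.1]; exact hy.2⟩⟩
  have hp : HP (Eg r ∪ Nd ∪ frontier Λ.P)
      {v | ∃ k ≤ m + 2, v = vk (m + 2) k 1 ∨ v = vk (m + 2) k (-1)} (fun z => (z, G' z))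
      (2 * b) := by
    rintro x (hx | hx) l hl
    · obtain ⟨w, hw, hj⟩ := hg.pnet.hp hG' hharm x hx l hl
      obtain ⟨v, hv, hj'⟩ := hfr w (hvf w hw.1) l hl
      have e1 := hj.target_mem.2
      refine ⟨v, hv, JoinedIn.trans (y := w) (hj.mono fun y hy => ?_) (hj'.mono fun y hy => ?_)⟩
      · exact ⟨Or.inl hy.1, by linarith only [hy.2, hb]⟩
      · exact ⟨hy.1, by linarith only [hy.2, e1]⟩
    · exact hfr x hx l hl
  have := rado (D := Λ.P) (M := 2) (L₀ := 5 * L)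
    (Vt := {v | ∃ k ≤ m + 2, v = vk (m + 2) k 1 ∨ v = vk (m + 2) k (-1)}) hc (by linarith only [hI.nonneg]) hX
    (fun v ⟨k, hk, hv⟩ => hcone Λ b hb hbc hB k hk v hv) (T := fun z => z) (F := G')
    (fun _ _ => rfl) (fun y hy => Λ.norm_le (s := 0) (by norm_num) (hX hy))
    (fun a ha a' ha' => by
      rw [h2 a (hcf a ha), h2 a' (hcf a' ha')]
      exact bul_lip_om Λ hI (hcf a ha) (hcf a' ha')) hp (Or.inl hz) (Or.inl hz')
  rw [h1 z hz, h1 z' hz'] at this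
  rw [abs_of_nonneg hI.nonneg] at hK ⊢
  linarith only [mul_nonneg hK hb.le, this]

end Pool.Agent.MP_17e62b_gt.G

end

section
/-! Level sets on the frontier. -/

namespace Pool.Agent.MP_17e62b_gt.G

open Set Filter Topology Metric
open scoped BigOperators InnerProductSpace Classical
open H14
open T55 (af Sq SqH SqV Cells Nbr vert)
open Pool.Agent.MP_4a6971_al.H83 (PArc)

theorem cdata_convex_cover (m : ℕ) {x : ℝ} (hx : |x| ≤ 1) :
    ∃ k < m + 2, x ∈ Icc (tk (m + 2) k) (tk (m + 2) (k + 1)) := by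
  obtain ⟨k, hk, s, hs, rfl⟩ := exists_lens_cover m hx
  have h0 : (0 : ℝ) < 2 / (m + 2 : ℕ) := by positivity
  refine ⟨k, hk, le_add_of_nonneg_right (mul_nonneg hs.1 h0.le), ?_⟩
  rw [exists_lens_succ]
  exact add_le_add_right (mul_le_of_le_one_left h0.le hs.2) _

theorem cdata_convex_slope {m : ℕ} {L : ℝ} {I : Bool → ℝ → ℝ} (hI : CData m L I) (e : Bool)
    (k : ℕ) : ∃ s : ℝ, k < m + 2 → |s| ≤ L ∧ ∀ x ∈ Icc (tk (m + 2) k) (tk (m + 2) (k + 1)),
      I e x = I e (tk (m + 2) k) + s * (x - tk (m + 2) k) := by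
  have h0 : (0 : ℝ) < 2 / (m + 2 : ℕ) := by positivity
  have h1 := exists_lens_succ (m + 2) k
  generalize (2 : ℝ) / (m + 2 : ℕ) = h at h0 h1
  refine ⟨(I e (tk (m + 2) (k + 1)) - I e (tk (m + 2) k)) / h, fun hk => ⟨?_, fun x hx => ?_⟩⟩
  · have h2 := hI.lip e _ _ (exists_lens_abs (m := m) (k := k + 1) hk) (exists_lens_abs hk.le)
    rw [h1, add_sub_cancel_left, abs_of_pos h0, Real.norm_eq_abs, ← h1] at h2
    rwa [abs_div, abs_of_pos h0, div_le_iff₀ h0]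
  · have h2 := hI.aff e k hk ((x - tk (m + 2) k) / h) ⟨div_nonneg (sub_nonneg.2 hx.1) h0.le,
      (div_le_one h0).2 (by linarith only [hx.2, h1])⟩
    have h3 : AffineMap.lineMap (tk (m + 2) k) (tk (m + 2) (k + 1)) ((x - tk (m + 2) k) / h) =
        x := by
      rw [AffineMap.lineMap_apply_ring', h1, add_sub_cancel_left, div_mul_cancel₀ _ h0.ne',
        sub_add_cancel]
    rw [h3, AffineMap.lineMap_apply_ring'] at h2
    rw [h2]
    ring

theorem cdata_convex_pw {m : ℕ} {f : ℝ → ℝ} {σ : ℕ → ℝ}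
    (hf : ∀ k < m + 2, ∀ x ∈ Icc (tk (m + 2) k) (tk (m + 2) (k + 1)),
      f x = f (tk (m + 2) k) + σ k * (x - tk (m + 2) k))
    (hσ : ∀ k, k + 1 < m + 2 → σ k ≤ σ (k + 1)) : ConvexOn ℝ (Icc (-1) 1) f := by
  have hm := fun j k => upm_eq_mono (m + 2) (j := j) (k := k)
  have hc := fun x => cdata_convex_cover m (x := x)
  generalize tk (m + 2) = t at hf hm hc
  have step : ∀ k, k + 1 < m + 2 → ∀ x, f (t (k + 1)) + σ (k + 1) * (x - t (k + 1)) -
      (f (t k) + σ k * (x - t k)) = (σ (k + 1) - σ k) * (x - t (k + 1)) := fun k hk x => by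
    rw [hf k (by omega) (t (k + 1)) ⟨hm _ _ (Nat.le_succ k), le_rfl⟩]
    ring
  have key : ∀ k < m + 2, ∀ x, |x| ≤ 1 → f (t k) + σ k * (x - t k) ≤ f x := fun k hk x hx => by
    obtain ⟨j, hj, h⟩ := hc x hx
    rw [hf j hj x h]
    rcases le_total k j with hkj | hjk
    · have h1 := h.1
      clear h
      induction j, hkj using Nat.le_induction with
      | base => exact le_rfl
      | succ j _ ih =>
        have h2 := ih (by omega) ((hm _ _ (Nat.le_succ j)).trans h1)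
        have h3 := mul_nonneg (sub_nonneg.2 (hσ j hj)) (sub_nonneg.2 h1)
        linarith only [step j hj x, h2, h3]
    · induction k, hjk using Nat.le_induction with
      | base => exact le_rfl
      | succ k hjk ih =>
        have h2 := ih (by omega)
        have h3 := mul_nonpos_of_nonneg_of_nonpos (sub_nonneg.2 (hσ k hk))
          (sub_nonpos.2 (h.2.trans (hm _ _ (Nat.succ_le_succ hjk))))
        linarith only [step k hk x, h2, h3]
  refine ⟨convex_Icc _ _, fun x hx y hy a b ha hb hab => ?_⟩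
  obtain ⟨k, hk, h⟩ := hc _ (abs_le.2 (convex_Icc (-1 : ℝ) 1 hx hy ha hb hab))
  have h1 := mul_le_mul_of_nonneg_left (key k hk x (abs_le.2 hx)) ha
  have h2 := mul_le_mul_of_nonneg_left (key k hk y (abs_le.2 hy)) hb
  rw [hf k hk _ h]
  obtain rfl : b = 1 - a := by linarith only [hab]
  simp only [smul_eq_mul]
  linarith only [h1, h2]

/-- U7a. Hint: over the `k`-th interval the function is affine with slope
`s k + a (tk k + tk (k + 1))`, `|s k| ≤ L`; these slopes increase, so the function is the maximum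
of its affine pieces. -/
theorem cdata_convex {m : ℕ} {L a : ℝ} {I : Bool → ℝ → ℝ} (hI : CData m L I) (e : Bool)
    (ha : L * (m + 2) ≤ 2 * a) :
    ConvexOn ℝ (Icc (-1) 1) (fun x => I e x - a * upm m x) ∧
      ConcaveOn ℝ (Icc (-1) 1) fun x => I e x + a * upm m x := by
  choose s hs using cdata_convex_slope hI e
  have hn : (0 : ℝ) < (m + 2 : ℕ) := by positivity
  have h1 : 2 * L ≤ a * (2 * (2 / (m + 2 : ℕ))) := by
    rw [← mul_div_assoc, ← mul_div_assoc, le_div_iff₀ hn]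
    push_cast
    linarith
  have key : ∀ ε : ℝ, |ε| = 1 → ConvexOn ℝ (Icc (-1) 1) fun x => ε * I e x - a * upm m x :=
    fun ε hε => by
    refine cdata_convex_pw (m := m)
      (σ := fun k => ε * s k + a * (tk (m + 2) k + tk (m + 2) (k + 1)))
      (fun k hk x hx => ?_) fun k hk => ?_
    · rw [(hs k hk).2 x hx, upm_eq hk hx.1 hx.2, exists_lens_tk hk.le, chord]
      ring
    · have h2 : ∀ j < m + 2, |ε * s j| ≤ L := fun j hj => by
        rw [abs_mul, hε, one_mul]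
        exact (hs j hj).1
      have h3 := abs_le.1 (h2 k (by omega))
      have h4 := abs_le.1 (h2 (k + 1) hk)
      simp only [exists_lens_succ]
      linarith only [h3.2, h4.1, h1]
  refine ⟨(key 1 abs_one).congr fun x _ => by simp only [one_mul],
    neg_convexOn_iff.1 ((key (-1) (by simp)).congr fun x _ => ?_)⟩
  simp only [Pi.neg_apply]
  ring

theorem bul_far_ends (Λ : Lens) {x : ℝ} (hx : |x| ≤ 1) (h : Λ.up x ≤ 0) : x = 1 ∨ x = -1 :=
  (abs_eq zero_le_one).1 (le_antisymm hx (by linarith [Λ.half_le hx]))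

theorem bul_far_fr (Λ : Lens) {y : ℂ} : y ∈ frontier Λ.P ↔ |y.re| ≤ 1 ∧ |y.im| = Λ.up y.re := by
  rw [Lens.P, Λ.mem_frontier, add_zero]
  refine ⟨fun ⟨⟨h1, h2⟩, h3⟩ => ⟨h1, h3.elim (fun h => ?_) id⟩,
    fun ⟨h1, h2⟩ => ⟨⟨h1, by rw [add_zero, h2]⟩, Or.inr h2⟩⟩
  have h4 := Λ.le_two h1
  have h5 := Λ.half_le h1
  rw [h] at h4 h5
  linarith only [abs_nonneg y.im, h2, h4]

theorem bul_far_rep (Λ : Lens) {y : ℂ} (h : |y.im| = Λ.up y.re) :
    ∃ e : Bool, y = ⟨y.re, cond e 1 (-1) * Λ.up y.re⟩ := by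
  rcases abs_choice y.im with h1 | h1
  · exact ⟨true, Complex.ext rfl (by simp only [cond_true]; linarith)⟩
  · exact ⟨false, Complex.ext rfl (by simp only [cond_false]; linarith)⟩

theorem bul_far_pt (Λ : Lens) {m : ℕ} {L : ℝ} {I : Bool → ℝ → ℝ} (hI : CData m L I) (ξ : ℂ)
    (e : Bool) {x : ℝ} (hx : |x| ≤ 1) :
    (⟨x, cond e 1 (-1) * Λ.up x⟩ : ℂ) ∈ frontier Λ.P ∧
      om I ⟨x, cond e 1 (-1) * Λ.up x⟩ - ⟪ξ, (⟨x, cond e 1 (-1) * Λ.up x⟩ : ℂ)⟫_ℝ =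
        I e x - ξ.re * x - cond e 1 (-1) * ξ.im * Λ.up x := by
  have h2 : 0 ≤ Λ.up x := le_trans (by linarith) (Λ.half_le hx)
  refine ⟨(bul_far_fr Λ).2 ⟨hx, by cases e <;> simp [abs_of_nonneg h2]⟩, ?_⟩
  have h3 : om I ⟨x, cond e 1 (-1) * Λ.up x⟩ = I e x := by
    unfold om
    cases e
    · split_ifs with h
      · simp only [cond_false] at h
        rcases bul_far_ends Λ hx (by linarith) with rfl | rfl
        · exact hI.right.symm
        · exact hI.left.symm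
      · rfl
    · rw [if_pos (by simpa only [cond_true, one_mul] using h2)]
  rw [h3, Complex.inner]
  simp only [Complex.mul_re, Complex.conj_re, Complex.conj_im]
  ring

theorem bul_far_join (Λ : Lens) {m : ℕ} {L : ℝ} {I : Bool → ℝ → ℝ} (hI : CData m L I) (ξ : ℂ)
    (P : ℝ → Prop) (e : Bool) {x x' : ℝ} (hx : |x| ≤ 1) (hx' : |x'| ≤ 1)
    (h : ∀ y ∈ segment ℝ x x', P (I e y - ξ.re * y - cond e 1 (-1) * ξ.im * Λ.up y)) :
    JoinedIn {z | z ∈ frontier Λ.P ∧ P (om I z - ⟪ξ, z⟫_ℝ)} ⟨x, cond e 1 (-1) * Λ.up x⟩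
      ⟨x', cond e 1 (-1) * Λ.up x'⟩ := by
  have hc : Continuous fun x : ℝ => (⟨x, cond e 1 (-1) * Λ.up x⟩ : ℂ) := by
    have := Λ.continuous_up
    simp only [Complex.mk_eq_add_mul_I]
    fun_prop
  refine ((JoinedIn.of_segment_subset Subset.rfl).map hc).mono ?_
  rintro _ ⟨y, hy, rfl⟩
  have h1 := bul_far_pt Λ hI ξ e (abs_le.2 ((convex_Icc (-1 : ℝ) 1).segment_subset (abs_le.1 hx)
    (abs_le.1 hx') hy))
  exact ⟨h1.1, h1.2 ▸ h y hy⟩

theorem bul_far_conv {g : ℝ → ℝ} {p q x : ℝ} (hg : ConvexOn ℝ (Icc p q) g) (hx : x ∈ Icc p q) :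
    (∀ y ∈ segment ℝ x p, g x ≤ g y) ∨ ∀ y ∈ segment ℝ x q, g x ≤ g y := by
  by_contra hc
  push Not at hc
  obtain ⟨⟨y, hy, h1⟩, z, hz, h2⟩ := hc
  rw [segment_symm, segment_eq_Icc hx.1] at hy
  rw [segment_eq_Icc hx.2] at hz
  have := hg.le_on_segment (x := y) (y := z) (z := x) ⟨hy.1, hy.2.trans hx.2⟩
    ⟨hx.1.trans hz.1, hz.2⟩ (Icc_subset_segment ⟨hy.2, hz.1⟩)
  exact (max_lt h1 h2).not_ge this

theorem bul_far_lin (s : Set ℝ) (hs : Convex ℝ s) (p q : ℝ) : ConvexOn ℝ s fun x => p + q * x :=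
  ⟨hs, fun x _ y _ a b _ _ hab => by
    obtain rfl : b = 1 - a := by linarith
    simp only [smul_eq_mul]
    linarith⟩

theorem bul_far_mul {s : Set ℝ} (hs : Convex ℝ s) {u : ℝ → ℝ} (hu : ConcaveOn ℝ univ u) {c : ℝ}
    (hc : 0 ≤ c) : ConcaveOn ℝ s fun x => c * u x := (hu.subset (subset_univ _) hs).smul hc

/-- U7. For large `ξ` the upper level sets on the frontier are connected. Hint: if
`L (m + 2) ≤ |ξ.im|`, the function is convex on one half of the frontier and concave on the other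
(`cdata_convex` with `a = (1 - b) |ξ.im|`): join a point of the convex half to a corner `± 1`
above the level. Otherwise `L + 2 |ξ.im| ≤ |ξ.re|` and both halves are monotone in the same
direction. -/
theorem bul_far {Λ : Lens} {m : ℕ} {b L : ℝ} {I : Bool → ℝ → ℝ} (h : Bul Λ m b) (h0 : 0 ≤ b)
    (h1 : b ≤ 1 / 2) (hI : CData m L I) {ξ : ℂ} (hξ : L * (3 * m + 7) ≤ ‖ξ‖) {c : ℝ} {a a' : ℂ}
    (ha : a ∈ frontier Λ.P) (ha' : a' ∈ frontier Λ.P) (hc : c < om I a - ⟪ξ, a⟫_ℝ)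
    (hc' : c < om I a' - ⟪ξ, a'⟫_ℝ) :
    JoinedIn {z | z ∈ frontier Λ.P ∧ c < om I z - ⟪ξ, z⟫_ℝ} a a' := by
  obtain ⟨u, hu, -, hup, -⟩ := h
  have hL := hI.nonneg
  have hm : (0 : ℝ) ≤ m := Nat.cast_nonneg m
  have hJ := bul_far_join Λ hI ξ (fun r => c < r)
  have hP := bul_far_pt Λ hI ξ
  have hlip : ∀ (e : Bool) x x', |x| ≤ 1 → |x'| ≤ 1 →
      I e x - cond e 1 (-1) * ξ.im * Λ.up x - (I e x' - cond e 1 (-1) * ξ.im * Λ.up x') ≤
        (L + 2 * |ξ.im|) * |x - x'| := fun e x x' hx hx' => by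
    have h2 := (le_abs_self _).trans (hI.lip e x x' hx hx')
    have h3 : |cond e 1 (-1) * ξ.im * (Λ.up x - Λ.up x')| ≤ |ξ.im| * (2 * |x - x'|) := by
      rw [abs_mul, show |cond e 1 (-1) * ξ.im| = |ξ.im| by cases e <;> simp]
      exact mul_le_mul_of_nonneg_left (Λ.lip x x') (abs_nonneg _)
    linarith only [(abs_le.1 h3).1, h2]
  have hvx : ∀ e A, L * (m + 2) ≤ A →
      ConvexOn ℝ (Icc (-1) 1) (fun x => I e x - ξ.re * x - A * Λ.up x) ∧
        ConcaveOn ℝ (Icc (-1) 1) fun x => I e x - ξ.re * x - -A * Λ.up x := fun e A hA => by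
    have hA0 : 0 ≤ A := le_trans (by positivity) hA
    have h2 := cdata_convex (a := (1 - b) * A) hI e (by nlinarith only [h1, hA, hA0])
    have h3 := bul_far_mul (convex_Icc (-1 : ℝ) 1) hu (mul_nonneg h0 hA0)
    refine ⟨((h2.1.sub h3).add (bul_far_lin _ (convex_Icc _ _) 0 (-ξ.re))).congr fun x _ => ?_,
      ((h2.2.add h3).sub (bul_far_lin _ (convex_Icc _ _) 0 ξ.re)).congr fun x _ => ?_⟩ <;>
    · simp only [Pi.add_apply, Pi.sub_apply, hup]
      ring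
  have hco : ∀ (e e' : Bool) (x : ℝ), x = -1 ∨ x = 1 →
      (⟨x, cond e 1 (-1) * Λ.up x⟩ : ℂ) = ⟨x, cond e' 1 (-1) * Λ.up x⟩ := by
    rintro e e' x (rfl | rfl) <;> simp only [Λ.up_one, Λ.up_neg, mul_zero]
  obtain ⟨H, hH, hH'⟩ : ∃ H : Set ℂ, (∀ p ∈ H, ∀ q ∈ H,
      JoinedIn {z | z ∈ frontier Λ.P ∧ c < om I z - ⟪ξ, z⟫_ℝ} p q) ∧ ∀ (e : Bool) x, |x| ≤ 1 →
        c < I e x - ξ.re * x - cond e 1 (-1) * ξ.im * Λ.up x → ∃ p ∈ H,
          JoinedIn {z | z ∈ frontier Λ.P ∧ c < om I z - ⟪ξ, z⟫_ℝ}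
            ⟨x, cond e 1 (-1) * Λ.up x⟩ p := by
    rcases le_total (L * (m + 2)) |ξ.im| with hA | hA
    · obtain ⟨e₀, h2, h3⟩ : ∃ e₀ : Bool, ConcaveOn ℝ (Icc (-1) 1)
          (fun x => I e₀ x - ξ.re * x - cond e₀ 1 (-1) * ξ.im * Λ.up x) ∧ ∀ e ≠ e₀,
            ConvexOn ℝ (Icc (-1) 1) fun x => I e x - ξ.re * x - cond e 1 (-1) * ξ.im * Λ.up x := by
        rcases abs_choice ξ.im with h4 | h4 <;> rw [h4] at hA
        · refine ⟨false, by simpa only [cond_false, neg_mul, one_mul, sub_neg_eq_add] using (hvx false _ hA).2, fun e he => ?_⟩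
          obtain rfl : e = true := by simpa using he
          simpa only [cond_true, one_mul] using (hvx true _ hA).1
        · refine ⟨true, by simpa only [cond_true, one_mul, neg_neg] using (hvx true _ hA).2, fun e he => ?_⟩
          obtain rfl : e = false := by simpa using he
          simpa only [cond_false, neg_mul, one_mul, sub_neg_eq_add] using (hvx false _ hA).1
      refine ⟨{p | ∃ x, |x| ≤ 1 ∧ c < I e₀ x - ξ.re * x - cond e₀ 1 (-1) * ξ.im * Λ.up x ∧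
        p = ⟨x, cond e₀ 1 (-1) * Λ.up x⟩}, ?_, fun e x hx hc => ?_⟩
      · rintro _ ⟨x, hx, h4, rfl⟩ _ ⟨x', hx', h5, rfl⟩
        exact hJ e₀ hx hx' fun y hy => (lt_min h4 h5).trans_le
          (h2.ge_on_segment (abs_le.1 hx) (abs_le.1 hx') hy)
      · rcases eq_or_ne e e₀ with rfl | he
        · exact ⟨_, ⟨x, hx, hc, rfl⟩, JoinedIn.refl ⟨(hP e hx).1, (hP e hx).2 ▸ hc⟩⟩
        obtain ⟨y, hy, h4⟩ : ∃ y : ℝ, (y = -1 ∨ y = 1) ∧ ∀ w ∈ segment ℝ x y,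
            c < I e w - ξ.re * w - cond e 1 (-1) * ξ.im * Λ.up w := by
          rcases bul_far_conv (h3 e he) (abs_le.1 hx) with h4 | h4
          · exact ⟨-1, .inl rfl, fun w hw => hc.trans_le (h4 w hw)⟩
          · exact ⟨1, .inr rfl, fun w hw => hc.trans_le (h4 w hw)⟩
        have hy1 : |y| ≤ 1 := by rcases hy with rfl | rfl <;> simp
        have h5 := hJ e hx hy1 h4
        rw [hco e e₀ y hy] at h5
        exact ⟨_, ⟨y, hy1, (hP e₀ hy1).2 ▸ h5.target_mem.2, rfl⟩, h5⟩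
    · have h2 : L + 2 * |ξ.im| ≤ |ξ.re| := by
        linarith only [Complex.norm_le_abs_re_add_abs_im ξ, hξ, hA]
      obtain ⟨y, hy, h3⟩ : ∃ y : ℝ, (y = -1 ∨ y = 1) ∧ ∀ x, |x| ≤ 1 → ∀ w ∈ segment ℝ x y,
          ξ.re * (x - w) = |ξ.re| * |x - w| := by
        rcases le_total 0 ξ.re with h4 | h4
        · refine ⟨-1, .inl rfl, fun x hx w hw => ?_⟩
          rw [segment_symm, segment_eq_Icc (abs_le.1 hx).1] at hw
          rw [abs_of_nonneg h4, abs_of_nonneg (sub_nonneg.2 hw.2)]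
        · refine ⟨1, .inr rfl, fun x hx w hw => ?_⟩
          rw [segment_eq_Icc (abs_le.1 hx).2] at hw
          rw [abs_of_nonpos h4, abs_of_nonpos (sub_nonpos.2 hw.1)]
          ring
      have hy1 : |y| ≤ 1 := by rcases hy with rfl | rfl <;> simp
      by_cases h4 : c < I true y - ξ.re * y - cond true 1 (-1) * ξ.im * Λ.up y
      · refine ⟨{⟨y, cond true 1 (-1) * Λ.up y⟩}, ?_, fun e x hx hc => ⟨_, rfl, ?_⟩⟩
        · rintro _ rfl _ rfl
          exact JoinedIn.refl ⟨(hP true hy1).1, (hP true hy1).2 ▸ h4⟩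
        · rw [hco true e y hy]
          refine hJ e hx hy1 fun w hw => ?_
          have h5 := hlip e x w hx (abs_le.2 ((convex_Icc (-1 : ℝ) 1).segment_subset
            (abs_le.1 hx) (abs_le.1 hy1) hw))
          have h6 := mul_le_mul_of_nonneg_right h2 (abs_nonneg (x - w))
          linarith only [h3 x hx w hw, hc, h5, h6]
      · refine ⟨∅, fun _ h => h.elim, fun e x hx hc => (h4 ?_).elim⟩
        have h5 := hlip e x y hx hy1
        have h6 := mul_le_mul_of_nonneg_right h2 (abs_nonneg (x - y))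
        have h7 := (hP e hy1).2
        rw [hco e true y hy, (hP true hy1).2] at h7
        linarith only [h3 x hx y (right_mem_segment _ _ _), hc, h5, h6, h7]
  have fin : ∀ z ∈ frontier Λ.P, c < om I z - ⟪ξ, z⟫_ℝ → ∃ p ∈ H,
      JoinedIn {z | z ∈ frontier Λ.P ∧ c < om I z - ⟪ξ, z⟫_ℝ} z p := fun z hz hc => by
    obtain ⟨h2, h3⟩ := (bul_far_fr Λ).1 hz
    obtain ⟨e, he⟩ := bul_far_rep Λ h3
    rw [he] at hc ⊢
    exact hH' e _ h2 ((hP e h2).2 ▸ hc)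
  obtain ⟨p, hp, h2⟩ := fin a ha hc
  obtain ⟨q, hq, h3⟩ := fin a' ha' hc'
  exact (h2.trans (hH p hp q hq)).trans h3.symm

/-- U8. Few targets. Hint: for every coarse side take its two ends and a vertex on it where the
function is maximal among the vertices on it; on the side the function is convex or concave. -/
theorem bul_mult {Λ : Lens} {m : ℕ} {b L : ℝ} {I : Bool → ℝ → ℝ} (h : Bul Λ m b)
    (hI : CData m L I) (ξ : ℂ) :
    ∃ Tg : Finset ℂ, Tg ⊆ Λ.Vt ∧ Tg.card ≤ 4 * (m + 3) ∧ ∀ a ∈ Λ.Vt, ∃ a' ∈ Tg,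
      JoinedIn {z | z ∈ frontier Λ.P ∧ om I a - ⟪ξ, a⟫_ℝ ≤ om I z - ⟪ξ, z⟫_ℝ} a a' := by
  obtain ⟨-, -, -, -, hV⟩ := h
  have hP := bul_far_pt Λ hI ξ
  have hend : ∀ e : Bool, ∀ k ≤ m + 2,
      (⟨tk (m + 2) k, cond e 1 (-1) * Λ.up (tk (m + 2) k)⟩ : ℂ) ∈ Λ.Vt := fun e k hk => by
    have h1 := (Λ.vt _ (hV k hk).1).2
    have h2 : 0 ≤ 1 - tk (m + 2) k ^ 2 :=
      sub_nonneg.2 ((sq_le_one_iff_abs_le_one _).2 (exists_lens_abs hk))
    simp only [vk, one_mul, abs_of_nonneg h2] at h1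
    rw [← h1]
    cases e
    exacts [(hV k hk).2, (hV k hk).1]
  have hmax : ∀ p : Bool × ℕ, ∃ v : ℂ, p.2 < m + 2 → v ∈ Λ.Vt ∧
      (∃ x ∈ Icc (tk (m + 2) p.2) (tk (m + 2) (p.2 + 1)), v = ⟨x, cond p.1 1 (-1) * Λ.up x⟩) ∧
      ∀ w ∈ Λ.Vt, (∃ x ∈ Icc (tk (m + 2) p.2) (tk (m + 2) (p.2 + 1)),
        w = ⟨x, cond p.1 1 (-1) * Λ.up x⟩) → om I w - ⟪ξ, w⟫_ℝ ≤ om I v - ⟪ξ, v⟫_ℝ := fun p => by
    by_cases hp : p.2 < m + 2
    · obtain ⟨v, hv, h1⟩ := (Λ.Vt.filter fun w : ℂ =>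
          ∃ x ∈ Icc (tk (m + 2) p.2) (tk (m + 2) (p.2 + 1)),
            w = ⟨x, cond p.1 1 (-1) * Λ.up x⟩).exists_max_image (fun w => om I w - ⟪ξ, w⟫_ℝ)
        ⟨_, Finset.mem_filter.2 ⟨hend p.1 p.2 hp.le, _,
          ⟨le_rfl, upm_eq_mono _ (Nat.le_succ _)⟩, rfl⟩⟩
      exact ⟨v, fun _ => ⟨(Finset.mem_filter.1 hv).1, (Finset.mem_filter.1 hv).2,
        fun w hw hw' => h1 w (Finset.mem_filter.2 ⟨hw, hw'⟩)⟩⟩
    · exact ⟨0, fun h => (hp h).elim⟩
  choose M hM using hmax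
  refine ⟨(Finset.univ ×ˢ Finset.range (m + 3)).image (fun p : Bool × ℕ =>
    (⟨tk (m + 2) p.2, cond p.1 1 (-1) * Λ.up (tk (m + 2) p.2)⟩ : ℂ)) ∪
      (Finset.univ ×ˢ Finset.range (m + 2)).image M, fun v hv => ?_, ?_, fun a ha => ?_⟩
  · simp only [Finset.mem_union, Finset.mem_image, Finset.mem_product, Finset.mem_range] at hv
    rcases hv with ⟨p, hp, rfl⟩ | ⟨p, hp, rfl⟩
    · exact hend _ _ (by omega)
    · exact (hM p hp.2).1
  · refine (Finset.card_union_le _ _).trans ((add_le_add Finset.card_image_le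
      Finset.card_image_le).trans ?_)
    simp only [Finset.card_product, Finset.card_univ, Fintype.card_bool, Finset.card_range]
    omega
  · obtain ⟨h1, h2⟩ := Λ.vt a ha
    obtain ⟨e, he⟩ := bul_far_rep Λ h2
    generalize a.re = x at he h1
    subst he
    obtain ⟨k, hk, hx⟩ := cdata_convex_cover m h1
    obtain ⟨s, hs⟩ := cdata_convex_slope hI e k
    have hJ := fun {x' : ℝ} => bul_far_join Λ hI ξ (fun r => om I ⟨x, cond e 1 (-1) * Λ.up x⟩ -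
      ⟪ξ, (⟨x, cond e 1 (-1) * Λ.up x⟩ : ℂ)⟫_ℝ ≤ r) e (x' := x') h1
    have hc : Convex ℝ (Icc (tk (m + 2) k) (tk (m + 2) (k + 1))) := convex_Icc _ _
    simp only [Finset.mem_union, Finset.mem_image, Finset.mem_product, Finset.mem_range,
      Finset.mem_univ, true_and]
    rcases le_total 0 (cond e 1 (-1) * ξ.im) with hA | hA
    · have h3 : ConvexOn ℝ (Icc (tk (m + 2) k) (tk (m + 2) (k + 1)))
          fun y => I e y - ξ.re * y - cond e 1 (-1) * ξ.im * Λ.up y :=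
        ((bul_far_lin _ hc (I e (tk (m + 2) k) - s * tk (m + 2) k) (s - ξ.re)).sub
          (bul_far_mul hc Λ.conc hA)).congr fun y hy => by
            simp only [Pi.sub_apply, (hs hk).2 y hy]
            ring
      rcases bul_far_conv h3 hx with h4 | h4
      · exact ⟨_, .inl ⟨(e, k), by simp only; omega, rfl⟩,
          hJ (exists_lens_abs hk.le) fun y hy => (hP e h1).2.trans_le (h4 y hy)⟩
      · exact ⟨_, .inl ⟨(e, k + 1), by simp only; omega, rfl⟩,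
          hJ (exists_lens_abs (m := m) (k := k + 1) hk) fun y hy =>
            (hP e h1).2.trans_le (h4 y hy)⟩
    · have h3 : ConcaveOn ℝ (Icc (tk (m + 2) k) (tk (m + 2) (k + 1)))
          fun y => I e y - ξ.re * y - cond e 1 (-1) * ξ.im * Λ.up y :=
        ((bul_far_mul hc Λ.conc (neg_nonneg.2 hA)).sub
          (bul_far_lin _ hc (s * tk (m + 2) k - I e (tk (m + 2) k)) (ξ.re - s))).congr
            fun y hy => by
            simp only [Pi.sub_apply, (hs hk).2 y hy]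
            ring
      obtain ⟨-, ⟨x', hx', h4⟩, h5⟩ := hM (e, k) hk
      have h6 := h5 _ ha ⟨x, hx, rfl⟩
      have h7 : |x'| ≤ 1 := abs_le.2 ⟨(abs_le.1 (exists_lens_abs hk.le)).1.trans hx'.1,
        hx'.2.trans (abs_le.1 (exists_lens_abs (m := m) (k := k + 1) hk)).2⟩
      refine ⟨_, .inr ⟨(e, k), hk, rfl⟩, ?_⟩
      rw [h4] at h6 ⊢
      exact hJ h7 fun y hy => (le_min (hP e h1).2.le (h6.trans_eq (hP e h7).2)).trans
        (h3.ge_on_segment hx hx' hy)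

end Pool.Agent.MP_17e62b_gt.G

end

section
/-! The areas of the crossings for coarse data. -/

namespace Pool.Agent.MP_17e62b_gt.G

open Set Filter Topology Metric
open scoped BigOperators InnerProductSpace Classical
open H14
open T55 (af Sq SqH SqV Cells Nbr vert)
open Pool.Agent.MP_4a6971_al.H83 (PArc)

/-- U9. Hint: as `cross_inj_le`, with the closed curve made of the two rising paths and the
segment from `p - v` to `p + v`. -/
theorem cross_loop {D Vt : Set ℂ} (hD : Convex ℝ D)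
    (hV : ∀ b ∈ Vt, ∃ n : ℂ, ∀ z ∈ D, z ≠ b → 0 < ⟪n, z - b⟫_ℝ) {u : ℂ → ℝ} {p b : ℂ} :
    ¬ Cross D Vt u p b b := by
  rintro ⟨v, w, hd, hl, J1, J3, J2, J4⟩
  have up : ∀ t : ℝ, |t| ≤ 1 → t ≠ 0 → u p < u (p + t • v) := fun t ht h0 =>
    cross_inj_sign (r := fun a b => a < b) (fun t ht => ⟨(hl t ht).1, (hl t ht).2.1⟩) ht h0
  have dn : ∀ t : ℝ, |t| ≤ 1 → t ≠ 0 → u (p + t • w) < u p := fun t ht h0 =>
    cross_inj_sign (r := fun a b => b < a) (fun t ht => (hl t ht).2.2) ht h0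
  obtain ⟨γ, hγ⟩ := J1.trans J3.symm
  obtain ⟨ψ, hψ⟩ := cross_inj_chart p hd
  have hK : ∀ z ∈ range γ ∪ ψ.toOpenPartialHomeomorph '' {y | y.im = 0 ∧ |y.re| ≤ (1 : ℝ)},
      z ∈ D ∧ u p ≤ u z := by
    rintro z (⟨t, rfl⟩ | ⟨y, hy, rfl⟩)
    · exact ⟨(hγ t).1, (hγ t).2.le⟩
    · have e : ψ.toOpenPartialHomeomorph y = p + y.re • v := by
        change ψ y = _
        rw [hψ, hy.1, zero_smul, add_zero]
      rw [e]
      refine ⟨cross_inj_mem hD J1.source_mem.1 J3.source_mem.1 hy.2, ?_⟩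
      by_cases h0 : y.re = 0
      · rw [h0, zero_smul, add_zero]
      · exact (up _ hy.2 h0).le
  have key : ∀ q : ℂ, (∃ b ∈ Vt, JoinedIn {z | z ∈ D ∧ u z < u p} q b) →
      Pool.Agent.Lib.PlaneTop.HasLogOn (fun z => z - q)
        (range γ ∪ ψ.toOpenPartialHomeomorph '' {y | y.im = 0 ∧ |y.re| ≤ (1 : ℝ)}) := by
    rintro q ⟨b, hb, J⟩
    obtain ⟨n, hn⟩ := hV b hb
    have hzb : ∀ z ∈ range γ ∪ ψ.toOpenPartialHomeomorph '' {y | y.im = 0 ∧ |y.re| ≤ (1 : ℝ)},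
        0 < ((z - b) * (starRingEnd ℂ) n).re := by
      intro z hz
      rw [← Complex.inner]
      refine hn z (hK z hz).1 ?_
      rintro rfl
      exact absurd J.target_mem.2 (not_lt.2 (hK z hz).2)
    have hn0 : (starRingEnd ℂ) n ≠ 0 := by
      intro h0
      have := hzb _ (Or.inl ⟨0, rfl⟩)
      rw [h0] at this
      simp at this
    refine Pool.Agent.Lib.PlaneTop.HasLogOn.of_joinedIn (a := b)
      (J.symm.mono fun z hz hzK => ?_) ?_
    · exact absurd hz.2 (not_lt.2 (hK z hzK).2)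
    · refine ((Pool.Agent.Lib.PlaneTop.hasLogOn_slit
        (F := fun z => (z - b) * (starRingEnd ℂ) n) (by fun_prop)
        fun z hz => Or.inl (hzb z hz)).div
          (Pool.Agent.Lib.PlaneTop.hasLogOn_const hn0 _)).congr fun z _ => ?_
      rw [mul_div_assoc, div_self hn0, mul_one]
  refine Pool.Agent.Lib.PlaneTop.jump ψ.toOpenPartialHomeomorph (s := 1) one_pos
    (fun y _ _ _ => mem_univ y)
    (π := range γ) (isCompact_range γ.continuous).isClosed (isPreconnected_range γ.continuous)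
    ⟨0, ?_⟩ ⟨1, ?_⟩ ?_ ?_ ?_
  · change _ = ψ _
    rw [hψ]; simp
  · change _ = ψ _
    rw [hψ]; simp [sub_eq_add_neg]
  · rintro τ hτ ⟨t, ht⟩
    have e : ψ.toOpenPartialHomeomorph (τ * Complex.I) = p + τ • w := by
      change ψ _ = _
      rw [hψ]; simp
    rw [e] at ht
    have h2 := (hγ t).2
    rw [ht] at h2
    by_cases h0 : τ = 0
    · rw [h0, zero_smul, add_zero] at h2
      exact lt_irrefl _ h2
    · exact lt_asymm h2 (dn τ hτ h0)
  · have e : ψ.toOpenPartialHomeomorph (((1 : ℝ) : ℂ) * Complex.I) = p + w := by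
      change ψ _ = _
      rw [hψ]; simp
    rw [e]
    exact key _ J2
  · have e : ψ.toOpenPartialHomeomorph (-(((1 : ℝ) : ℂ) * Complex.I)) = p - w := by
      change ψ _ = _
      rw [hψ]; simp [sub_eq_add_neg]
    rw [e]
    exact key _ J4

/-- The rising paths of a crossing may be prolonged. -/
theorem bul_kink_ext {D Vt : Set ℂ} {u : ℂ → ℝ} {p b₁ b₃ c₁ c₃ : ℂ} (h : Cross D Vt u p b₁ b₃)
    (h1 : u p < u b₁ → JoinedIn {z | z ∈ D ∧ u p < u z} b₁ c₁)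
    (h3 : u p < u b₃ → JoinedIn {z | z ∈ D ∧ u p < u z} b₃ c₃) : Cross D Vt u p c₁ c₃ := by
  obtain ⟨v, w, hd, hl, J1, J3, J2, J4⟩ := h
  exact ⟨v, w, hd, hl, J1.trans (h1 J1.target_mem.2), J3.trans (h3 J3.target_mem.2), J2, J4⟩

theorem bul_kink_lt {D Vt : Set ℂ} {u : ℂ → ℝ} {p b₁ b₃ : ℂ} (h : Cross D Vt u p b₁ b₃) :
    b₃ ∈ D ∧ u p < u b₃ := by
  obtain ⟨v, w, -, -, -, J3, -, -⟩ := h
  exact J3.target_mem

/-- U10. Hint: as `PNet.kink_sum`, with the extension of `Good.ext_fr`. `Xing.cross`; prolong the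
rising paths along the frontier: `bul_far` and `cross_loop` bound `‖ξ‖`, `bul_mult` and
`cross_inj` bound the multiplicity; `area_sum`. -/
theorem bul_kink {Λ : Lens} {m : ℕ} {b L : ℝ} {I : Bool → ℝ → ℝ} (h : Bul Λ m b) (h0 : 0 ≤ b)
    (h1 : b ≤ 1 / 2) (hI : CData m L I) {Nd : Finset ℂ} {r : Nd → Nd → ℝ} (hN : Good Λ Nd r)
    {g : Nd → ℝ} (hg : ∀ p : Nd, (p : ℂ) ∉ Λ.Vt → gen r g p = 0)
    (hb : ∀ p : Nd, (p : ℂ) ∈ Λ.Vt → g p = om I p) :
    Kink r g ((4 * (m + 3)) ^ 2 * (Real.pi * (L * (3 * m + 7)) ^ 2)) := by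
  intro A hA
  obtain ⟨G₀, hG₀⟩ := hN.pnet.exists_ext g
  obtain ⟨G, hG, -, hfr⟩ := hN.ext_fr (ω := om I) hG₀ hb
  have hC0 : 0 ≤ L * (3 * m + 7) := by have := hI.nonneg; positivity
  have hA' : ∀ p, ∃ v w a a' b b', A p ≠ 0 → Xing r g p v w a a' b b' ∧ a ≤ a' ∧
      b ≤ b' ∧ A p = (a' - a) * (b' - b) / |det2 v w| := by
    intro p
    rcases hA p with h0 | ⟨v, w, a, a', b, b', hp⟩
    · exact ⟨0, 0, 0, 0, 0, 0, fun hn => absurd h0 hn⟩
    · exact ⟨v, w, a, a', b, b', fun _ => hp⟩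
  choose v w a a' c c' hp using hA'
  have hV : ∀ c ∈ (Λ.Vt : Set ℂ), ∃ n : ℂ, ∀ z ∈ Λ.P, z ≠ c → 0 < ⟪n, z - c⟫_ℝ := by
    intro c hc
    obtain ⟨n, -, hn⟩ := Λ.expo c hc
    exact ⟨n, fun z hz hne =>
      (mul_pos Λ.c_pos (norm_pos_iff.2 (sub_ne_zero.2 hne))).trans_le (hn z hz)⟩
  have hs : ∀ p ∈ Finset.univ.filter (fun p => A p ≠ 0), A p ≠ 0 :=
    fun p hp => (Finset.mem_filter.1 hp).2
  have hsub : frontier Λ.P ⊆ Λ.P := (Λ.compact_reg 0).isClosed.frontier_subset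
  have hvf : ∀ z ∈ Λ.Vt, z ∈ frontier Λ.P := fun z hz =>
    Λ.mem_frontier.2 ⟨Λ.vt_mem hz, Or.inr (by rw [(Λ.vt z hz).2, add_zero])⟩
  have key := area_sum (Finset.univ.filter fun p => A p ≠ 0) v w a a' c c'
    (m := (4 * (m + 3)) ^ 2) hC0 (fun p hq => (hp p (hs p hq)).1.1)
    (fun p hq => (hp p (hs p hq)).2.1) (fun p hq => (hp p (hs p hq)).2.2.1)
    (fun p hq ξ hξ => by
      by_contra hn
      obtain ⟨b₁, h₁, b₃, h₃, hc⟩ := Xing.cross hN.pnet hG hg (hp p (hs p hq)).1 hξ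
      obtain ⟨h4, h5⟩ := bul_kink_lt hc
      refine cross_loop (Λ.convex_reg 0) hV (bul_kink_ext (c₁ := b₃) (c₃ := b₃) hc
        (fun h6 => ?_) fun h6 => JoinedIn.refl ⟨h4, h6⟩)
      simp only [hfr _ (hvf _ h₁), hfr _ (hvf _ h₃)] at h5 h6
      refine (bul_far h h0 h1 hI (not_le.1 hn).le (hvf _ h₁) (hvf _ h₃) h6 h5).mono ?_
      rintro z ⟨h7, h8⟩
      exact ⟨hsub h7, by simpa only [hfr _ h7] using h8⟩) (by
      intro ξ t ht hξ
      obtain ⟨Tg, -, hT, hTg⟩ := bul_mult h hI ξ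
      have hj : ∀ (p : ℂ), ∀ z ∈ Λ.Vt, ∃ z' ∈ Tg, G p - ⟪ξ, p⟫_ℝ < G z - ⟪ξ, z⟫_ℝ →
          JoinedIn {y | y ∈ Λ.P ∧ G p - ⟪ξ, p⟫_ℝ < G y - ⟪ξ, y⟫_ℝ} z z' := by
        intro p z hz
        obtain ⟨z', hz', J⟩ := hTg z hz
        refine ⟨z', hz', fun h6 => J.mono ?_⟩
        rintro y ⟨h7, h8⟩
        rw [hfr _ (hvf _ hz)] at h6
        exact ⟨hsub h7, by rw [hfr _ h7]; exact h6.trans_le h8⟩
      have hc : ∀ p : Nd, ∃ c : ℂ × ℂ, p ∈ t → c ∈ Tg ×ˢ Tg ∧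
          Cross Λ.P Λ.Vt (fun z => G z - ⟪ξ, z⟫_ℝ) p c.1 c.2 := by
        intro p
        by_cases hq : p ∈ t
        · obtain ⟨b₁, h₁, b₃, h₃, hc⟩ :=
            Xing.cross hN.pnet hG hg (hp p (hs p (ht hq))).1 (hξ p hq)
          obtain ⟨c₁, k₁, j₁⟩ := hj p b₁ h₁
          obtain ⟨c₃, k₃, j₃⟩ := hj p b₃ h₃
          exact ⟨(c₁, c₃), fun _ => ⟨Finset.mem_product.2 ⟨k₁, k₃⟩, bul_kink_ext hc j₁ j₃⟩⟩
        · exact ⟨0, fun hq' => absurd hq' hq⟩
      choose d hd using hc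
      refine le_trans ?_ (Nat.pow_le_pow_left hT 2)
      rw [sq, ← Finset.card_product]
      refine Finset.card_le_card_of_injOn d (fun p hq => (hd p hq).1) fun p hq p' hq' he => ?_
      have h2 := (hd p' hq').2
      rw [← he] at h2
      exact Subtype.ext (cross_inj (Λ.convex_reg 0) hV (hd p hq).2 h2))
  rw [← Finset.sum_filter_ne_zero, Finset.sum_congr rfl fun p hq => (hp p (hs p hq)).2.2.2]
  exact_mod_cast key

end Pool.Agent.MP_17e62b_gt.G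

end

section
/-! Cuts with additional lines. -/

namespace Pool.Agent.MP_17e62b_gt.G

open Set Filter Topology Metric
open scoped BigOperators InnerProductSpace Classical
open H14
open T55 (af Sq SqH SqV Cells Nbr vert)
open Pool.Agent.MP_4a6971_al.H83 (PArc)

variable {V : Type} [Fintype V]

theorem exists_goodCut'_fin (𝓛 : Finset (ℂ × ℝ)) (a b : ℂ) :
    {t : ℝ | ∃ l ∈ 𝓛, af l a ≠ af l b ∧ af l (AffineMap.lineMap a b t) = 0}.Finite := by
  refine (𝓛.finite_toSet.image fun l => af l a / (af l a - af l b)).subset ?_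
  rintro t ⟨l, hl, hd, ht⟩
  refine ⟨l, hl, ?_⟩
  simp only
  rw [div_eq_iff (sub_ne_zero.2 hd)]
  simp only [af, AffineMap.lineMap_apply, vsub_eq_sub, vadd_eq_add, Complex.mul_re, Complex.add_re,
    Complex.add_im, Complex.smul_re, Complex.smul_im, Complex.sub_re, Complex.sub_im,
    smul_eq_mul] at ht ⊢
  linear_combination ht

omit [Fintype V] in
theorem exists_goodCut'_par {T : V → ℂ} {e e' : V × V} (hne : e.1 ≠ e.2) (h0 : dir T e ≠ 0)
    (hA : ∀ t : ℝ, 0 < t → t < 1 → ∀ a, AffineMap.lineMap (T e.1) (T e.2) t ≠ T a)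
    (h3 : ∀ d, T d ∈ segment ℝ (T e'.1) (T e'.2) → d = e'.1 ∨ d = e'.2)
    (hd : det2 (dir T e) (dir T e') = 0) {s s' : ℝ} (s0 : 0 < s) (s1 : s < 1) (s0' : 0 ≤ s')
    (s1' : s' ≤ 1)
    (h : AffineMap.lineMap (T e.1) (T e.2) s = AffineMap.lineMap (T e'.1) (T e'.2) s') :
    e' = e ∨ e' = e.swap := by
  obtain ⟨r, hr⟩ : ∃ r : ℝ, dir T e' = r • dir T e := by
    have h1 : (dir T e' / dir T e).im = 0 := by
      rw [Complex.div_im, ← sub_div, div_eq_zero_iff]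
      left
      rw [det2] at hd
      linear_combination hd
    refine ⟨(dir T e' / dir T e).re, ?_⟩
    rw [Complex.real_smul, ← div_eq_iff h0]
    exact Complex.ext (by simp) (by rw [h1, Complex.ofReal_im])
  rw [exists_goodCut_line, exists_goodCut_line, hr] at h
  have ha : T e'.1 = AffineMap.lineMap (T e.1) (T e.2) (s - s' * r) := by
    rw [exists_goodCut_line, sub_smul, mul_smul]
    linear_combination -h
  have hb : T e'.2 = AffineMap.lineMap (T e.1) (T e.2) (s + (1 - s') * r) := by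
    rw [exists_goodCut_line, add_smul, mul_smul, sub_smul, one_smul]
    rw [dir] at hr
    linear_combination hr - h
  have na : s - s' * r ≤ 0 ∨ 1 ≤ s - s' * r := by
    by_contra hc
    exact hA _ (not_le.1 fun h => hc (Or.inl h)) (not_le.1 fun h => hc (Or.inr h)) _ ha.symm
  have nb : s + (1 - s') * r ≤ 0 ∨ 1 ≤ s + (1 - s') * r := by
    by_contra hc
    exact hA _ (not_le.1 fun h => hc (Or.inl h)) (not_le.1 fun h => hc (Or.inr h)) _ hb.symm
  have key : ∀ t : ℝ, 0 ≤ t → t ≤ 1 → ∀ d, AffineMap.lineMap (T e.1) (T e.2) t = T d →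
      d = e'.1 ∨ d = e'.2 := by
    intro t t0 t1 d ht
    refine h3 d ?_
    rw [ha, hb, ← image_segment, segment_eq_uIcc, ← ht]
    refine mem_image_of_mem _ (mem_uIcc.2 ?_)
    rcases le_total 0 r with h1 | h1
    · have h2 := mul_nonneg s0' h1
      have h4 := mul_nonneg (sub_nonneg.2 s1') h1
      exact Or.inl ⟨(na.resolve_right (by linarith)).trans t0,
        t1.trans (nb.resolve_left (by linarith))⟩
    · have h2 := mul_nonpos_of_nonneg_of_nonpos s0' h1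
      have h4 := mul_nonpos_of_nonneg_of_nonpos (sub_nonneg.2 s1') h1
      exact Or.inr ⟨(nb.resolve_right (by linarith)).trans t0,
        t1.trans (na.resolve_left (by linarith))⟩
  have h1 := key 0 le_rfl zero_le_one e.1 (by simp)
  have h2 := key 1 zero_le_one le_rfl e.2 (by simp)
  rcases h1 with h1 | h1 <;> rcases h2 with h2 | h2
  · exact absurd (h1.trans h2.symm) hne
  · exact Or.inl (Prod.ext h1.symm h2.symm)
  · exact Or.inr (Prod.ext h2.symm h1.symm)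
  · exact absurd (h1.trans h2.symm) hne

/-- C1. Hint: follow `exists_goodCut`; add to `Θ e` the `t ∈ (0, 1)` where the active cable meets
a line `l ∈ 𝓛` with `af l (T e.1) ≠ af l (T e.2)`. Two parallel active cables that meet are equal,
or swapped, or meet only in a common end: if they overlap, an end of one lies on the other
(`h3`). -/
theorem exists_goodCut' {T : V → ℂ} (hT : Function.Injective T) {Act : V × V → Prop}
    (hne : ∀ e, Act e → e.1 ≠ e.2)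
    (h3 : ∀ e, Act e → ∀ d, T d ∈ segment ℝ (T e.1) (T e.2) → d = e.1 ∨ d = e.2)
    (𝓛 : Finset (ℂ × ℝ)) :
    ∃ c : Cut V, GoodCut T Act c ∧
      (∀ e, Act e → ∀ l ∈ 𝓛, af l (T e.1) ≠ af l (T e.2) → ∀ z ∈ segment ℝ (T e.1) (T e.2),
        af l z = 0 → ∃ u, c.ext T u = z) ∧
      ∀ (e : V × V) (j : Fin (c.N e)), (∃ e', Act e' ∧ det2 (dir T e) (dir T e') ≠ 0 ∧
        c.ext T (.inr ⟨e, j⟩) ∈ segment ℝ (T e'.1) (T e'.2)) ∨
        ∃ l ∈ 𝓛, af l (T e.1) ≠ af l (T e.2) ∧ af l (c.ext T (.inr ⟨e, j⟩)) = 0 := by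
  let L : V × V → ℝ → ℂ := fun e t => AffineMap.lineMap (T e.1) (T e.2) t
  let Q : V × V → Set ℝ := fun e => {t | (0 < t ∧ t < 1) ∧ Act e ∧ ((∃ e', Act e' ∧
    det2 (dir T e) (dir T e') ≠ 0 ∧ L e t ∈ segment ℝ (T e'.1) (T e'.2)) ∨
      ∃ l ∈ 𝓛, af l (T e.1) ≠ af l (T e.2) ∧ af l (L e t) = 0)}
  have hQ : ∀ e, (Q e).Finite := fun e =>
    ((exists_goodCut_fin T e).union (exists_goodCut'_fin 𝓛 (T e.1) (T e.2))).subset
      fun t ⟨_, _, h⟩ => h.imp (fun ⟨e', _, h⟩ => ⟨e', h⟩) id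
  obtain ⟨c, hN, hc⟩ := exists_cut (fun e => (hQ e).toFinset)
    fun e t ht => ((hQ e).mem_toFinset.1 ht).1
  simp only [Set.Finite.mem_toFinset] at hc
  have hin : ∀ (e : V × V) (j : Fin (c.N e)), c.τ e (j + 1) ∈ Q e := fun e j =>
    (hc e _).2 ⟨j + 1, by omega, j.2, rfl⟩
  have hL : ∀ e, Act e → Function.Injective (L e) := fun e he =>
    AffineMap.lineMap_injective ℝ (hT.ne (hne e he))
  have hsw : ∀ e t, L e.swap (1 - t) = L e t := fun e t => AffineMap.lineMap_apply_one_sub _ _ _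
  have hA : ∀ e, Act e → ∀ t, 0 < t → t < 1 → ∀ a, L e t ≠ T a := by
    intro e he t h0 h1 a h
    rcases h3 e he a (by
      rw [← h, segment_eq_image_lineMap]
      exact ⟨t, ⟨h0.le, h1.le⟩, rfl⟩) with ha | hb
    · exact h0.ne' (hL e he (h.trans (by simp [L, ha])))
    · exact h1.ne (hL e he (h.trans (by simp [L, hb])))
  have hpar : ∀ {e e'}, Act e → Act e' → det2 (dir T e) (dir T e') = 0 → ∀ {s s'}, 0 < s →
      s < 1 → 0 ≤ s' → s' ≤ 1 → L e s = L e' s' → e' = e ∨ e' = e.swap :=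
    fun he he' hd _ _ h0 h1 h0' h1' h => exists_goodCut'_par (hne _ he)
      (sub_ne_zero.2 (hT.ne (hne _ he)).symm) (hA _ he) (h3 _ he') hd h0 h1 h0' h1' h
  have hQs : ∀ e t, Act e.swap → t ∈ Q e → 1 - t ∈ Q e.swap := by
    rintro e t he ⟨⟨h0, h1⟩, -, ⟨e', he', hd, hs⟩ | ⟨l, hl, hd, hs⟩⟩
    swap
    · exact ⟨⟨by linarith, by linarith⟩, he, Or.inr ⟨l, hl, hd.symm, by rwa [hsw]⟩⟩
    refine ⟨⟨by linarith, by linarith⟩, he, Or.inl ⟨e', he', fun h => hd ?_, by rwa [hsw]⟩⟩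
    simp only [det2, dir, Prod.fst_swap, Prod.snd_swap, Complex.sub_re, Complex.sub_im] at h ⊢
    linear_combination -h
  let M : V × V → ℝ → Prop := fun e x => ∃ i ≤ c.N e + 1, c.τ e i = x
  have hM0 : ∀ e, M e 0 := fun e => ⟨0, by omega, c.zero e⟩
  have hM1 : ∀ e, M e 1 := fun e => ⟨_, le_rfl, c.one e⟩
  have hMQ : ∀ e x, x ∈ Q e → M e x := fun e x hx => by
    obtain ⟨j, -, hj, h⟩ := (hc e x).1 hx
    exact ⟨j, by omega, h⟩
  have hMs : ∀ e x, Act e.swap → M e x → M e.swap (1 - x) := by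
    rintro e x he ⟨i, hi, rfl⟩
    rcases Nat.eq_zero_or_pos i with rfl | h0
    · rw [c.zero, sub_zero]
      exact hM1 _
    rcases hi.eq_or_lt with rfl | h1
    · rw [c.one, sub_self]
      exact hM0 _
    exact hMQ _ _ (hQs e _ he ((hc e _).2 ⟨i, h0, by omega, rfl⟩))
  have hend : ∀ e s, 0 ≤ s → s ≤ 1 → (0 < s → s < 1 → s ∈ Q e) → M e s := by
    intro e s h0 h1 h
    rcases h0.eq_or_lt with rfl | h0
    · exact hM0 e
    rcases h1.eq_or_lt with rfl | h1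
    · exact hM1 e
    exact hMQ e s (h h0 h1)
  have hcr : ∀ e e', Act e → Act e' → det2 (dir T e) (dir T e') ≠ 0 → ∀ s s', 0 ≤ s' → s' ≤ 1 →
      L e s = L e' s' → 0 < s → s < 1 → s ∈ Q e := fun e e' he he' hd s s' h0 h1 h h2 h3 =>
    ⟨⟨h2, h3⟩, he, Or.inl ⟨e', he', hd, by
      rw [h, segment_eq_image_lineMap]
      exact ⟨s', ⟨h0, h1⟩, rfl⟩⟩⟩
  have hx : ∀ e {j : ℕ}, j ≤ c.N e + 1 → c.ext T (c.node e j) = L e (c.τ e j) :=
    fun e j hj => c.ext_node T e hj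
  have hlt : ∀ e {j : ℕ}, j ≤ c.N e → c.τ e j < c.τ e (j + 1) := fun e j hj => c.lt e j hj
  refine ⟨c, ⟨fun e he => (hin e ⟨0, by omega⟩).2.1, ?_, ?_, ?_, ?_⟩, ?_, fun e j => (hin e j).2.2⟩
  rotate_right
  · intro e he l hl hd z hz h0
    rw [segment_eq_image_lineMap] at hz
    obtain ⟨t, ht, rfl⟩ := hz
    obtain ⟨i, hi, rfl⟩ := hend e t ht.1 ht.2 fun h1 h2 => ⟨⟨h1, h2⟩, he, Or.inr ⟨l, hl, hd, h0⟩⟩
    exact ⟨c.node e i, hx e hi⟩
  · rintro (b | ⟨e, j⟩) a h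
    · exact congrArg _ (hT h)
    · exact absurd h (hA e (hin e j).2.1 _ (hin e j).1.1 (hin e j).1.2 a)
  · intro e he j hj u hu
    rw [hx e (by omega), hx e (by omega)] at hu ⊢
    obtain ⟨s, hs1, hs2, hs⟩ := exists_goodCut_seg (hlt e hj).le hu
    have hM : M e s := by
      refine hend e s ((c.τ_mem e (by omega)).1.trans hs1)
        (hs2.trans (c.τ_mem e (by omega)).2) fun h0 h1 => ?_
      rcases u with a | ⟨e', j'⟩
      · exact absurd hs (hA e he s h0 h1 a)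
      have h4 := hin e' j'
      have h5 : L e s = L e' (c.τ e' (j' + 1)) := hs
      by_cases hd : det2 (dir T e) (dir T e') = 0
      · rcases hpar he h4.2.1 hd h0 h1 h4.1.1.le h4.1.2.le h5 with rfl | rfl
        · rw [hL _ he h5]
          exact h4
        · rw [← hsw e s] at h5
          have h6 := hQs e.swap _ he h4
          rwa [← hL _ h4.2.1 h5, sub_sub_cancel] at h6
      · exact hcr e e' he h4.2.1 hd s _ h4.1.1.le h4.1.2.le h5 h0 h1
    rw [← hs]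
    rcases exists_goodCut_gap c e hj hM with h | h
    · exact Or.inl (congrArg (L e) (le_antisymm h hs1))
    · exact Or.inr (congrArg (L e) (le_antisymm hs2 h))
  · intro e e' he he' j hj j' hj' z hz hz'
    rw [hx e (by omega), hx e (by omega)] at hz ⊢
    rw [hx e' (by omega), hx e' (by omega)] at hz' ⊢
    obtain ⟨s, hs1, hs2, hs⟩ := exists_goodCut_seg (hlt e hj).le hz
    obtain ⟨s', hs1', hs2', hs'⟩ := exists_goodCut_seg (hlt e' hj').le hz'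
    by_cases hM : M e s
    · obtain ⟨i, hi, rfl⟩ := hM
      exact Or.inl ⟨c.node e i, (hx e hi).trans hs⟩
    have m1 : M e (c.τ e j) := ⟨j, by omega, rfl⟩
    have m2 : M e (c.τ e (j + 1)) := ⟨j + 1, by omega, rfl⟩
    have m3 : M e' (c.τ e' j') := ⟨j', by omega, rfl⟩
    have m4 : M e' (c.τ e' (j' + 1)) := ⟨j' + 1, by omega, rfl⟩
    have l1 : c.τ e j < s := hs1.lt_of_ne fun h => hM (h ▸ m1)
    have l2 : s < c.τ e (j + 1) := hs2.lt_of_ne fun h => hM (h ▸ m2)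
    have h5 : L e s = L e' s' := hs.trans hs'.symm
    have hd : det2 (dir T e) (dir T e') = 0 := by
      by_contra hd
      exact hM (hend e s ((c.τ_mem e (by omega)).1.trans hs1)
        (hs2.trans (c.τ_mem e (by omega)).2) (hcr e e' he he' hd s s'
          ((c.τ_mem e' (by omega)).1.trans hs1') (hs2'.trans (c.τ_mem e' (by omega)).2) h5))
    rcases hpar he he' hd ((c.τ_mem e (by omega)).1.trans_lt l1)
      (l2.trans_le (c.τ_mem e (by omega)).2) ((c.τ_mem e' (by omega)).1.trans hs1')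
      (hs2'.trans (c.τ_mem e' (by omega)).2) h5 with rfl | rfl
    · obtain rfl := hL _ he h5
      have g1 := (exists_goodCut_gap c e' hj m3).resolve_right (by linarith only [l2, hs1'])
      have g2 := (exists_goodCut_gap c e' hj m4).resolve_left (by linarith only [l1, hs2'])
      have g3 := (exists_goodCut_gap c e' hj' m1).resolve_right (by linarith only [l1, l2, g2])
      have g4 := (exists_goodCut_gap c e' hj' m2).resolve_left (by linarith only [l1, l2, g1])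
      exact Or.inr (Or.inl ⟨by rw [le_antisymm g3 g1], by rw [le_antisymm g2 g4]⟩)
    · rw [← hsw e s] at h5
      obtain rfl := hL _ he' h5
      have g1 := (exists_goodCut_gap c e hj (hMs e.swap _ he m3)).resolve_left (by linarith only [l1, hs1'])
      have g2 := (exists_goodCut_gap c e hj (hMs e.swap _ he m4)).resolve_right (by linarith only [l2, hs2'])
      have g3 := (exists_goodCut_gap c _ hj' (hMs _ _ he' m1)).resolve_left (by linarith only [l1, l2, g1])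
      have g4 := (exists_goodCut_gap c _ hj' (hMs _ _ he' m2)).resolve_right (by linarith only [l1, l2, g2])
      refine Or.inr (Or.inr ⟨?_, ?_⟩)
      · rw [← hsw e, show 1 - c.τ e j = c.τ e.swap (j' + 1) by linarith only [g2, g3]]
      · rw [← hsw e, show 1 - c.τ e (j + 1) = c.τ e.swap j' by linarith only [g1, g4]]
  · intro e e' j j' h hd
    have he := (hin e j).2.1
    have he' := (hin e' j').2.1
    have h5 : L e (c.τ e (j + 1)) = L e' (c.τ e' (j' + 1)) := h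
    have hj := j.2
    have hj' := j'.2
    rcases hpar he he' hd (hin e j).1.1 (hin e j).1.2 (hin e' j').1.1.le (hin e' j').1.2.le h5
      with rfl | rfl
    · refine Or.inl ⟨rfl, ?_⟩
      have h6 := hL _ he h5
      rcases lt_trichotomy (j : ℕ) j' with h7 | h7 | h7
      · exact absurd h6 (c.τ_lt e' (by omega) (by omega)).ne
      · exact h7
      · exact absurd h6 (c.τ_lt e' (by omega) (by omega)).ne'
    · rw [← hsw e] at h5
      have h6 := hL _ he' h5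
      have l1 := hlt e hj.le
      have l2 : c.τ e (j + 1) < c.τ e (j + 2) := hlt e hj
      have l3 := hlt e.swap hj'.le
      have l4 : c.τ e.swap (j' + 1) < c.τ e.swap (j' + 2) := hlt e.swap hj'
      have g1 : c.τ e.swap (j' + 2) ≤ 1 - c.τ e j :=
        (exists_goodCut_gap c e.swap hj' (hMs _ _ he' ⟨j, by omega, rfl⟩)).resolve_left
          (by linarith only [h6, l1])
      have g2 : 1 - c.τ e.swap (j' + 2) ≤ c.τ e j :=
        (exists_goodCut_gap c e hj.le (hMs e.swap _ he ⟨j' + 2, by omega, rfl⟩)).resolve_right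
          (by linarith only [h6, l4])
      have g3 : 1 - c.τ e (j + 2) ≤ c.τ e.swap j' :=
        (exists_goodCut_gap c e.swap hj'.le (hMs _ _ he' ⟨j + 2, by omega, rfl⟩)).resolve_right
          (by linarith only [h6, l2])
      have g4 : c.τ e (j + 2) ≤ 1 - c.τ e.swap j' :=
        (exists_goodCut_gap c e hj (hMs e.swap _ he ⟨j', by omega, rfl⟩)).resolve_left (by linarith only [h6, l3])
      refine Or.inr ⟨?_, ?_, ?_, ?_⟩
      · rw [hx e (by omega), hx e.swap (by omega), ← hsw e,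
          show 1 - c.τ e j = c.τ e.swap (j' + 2) by linarith only [g1, g2]]
      · rw [hx e (by omega), hx e.swap (by omega), ← hsw e,
          show 1 - c.τ e (j + 2) = c.τ e.swap j' by linarith only [g3, g4]]
      · change c.τ e (j + 1) - c.τ e j = c.τ e.swap (j' + 2) - c.τ e.swap (j' + 1)
        linarith only [h6, g1, g2]
      · change c.τ e (j + 2) - c.τ e (j + 1) = c.τ e.swap (j' + 1) - c.τ e.swap j'
        linarith only [h6, g3, g4]

end Pool.Agent.MP_17e62b_gt.G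

end

section
/-! The merging estimate with a general mismatch. -/

namespace Pool.Agent.MP_17e62b_gt.G

open Set Filter Topology Metric
open scoped BigOperators InnerProductSpace Classical
open H14
open T55 (af Sq SqH SqV Cells Nbr vert)
open Pool.Agent.MP_4a6971_al.H83 (PArc)

variable {V : Type} [Fintype V]

/-- C2. Hint: copy `link_mass` (`link_mass_row`); the link vanishes unless both rates are
positive. -/
theorem link_mass' (c : Cut V) {q : V → V → ℝ} (hq : ∀ a b, 0 ≤ q a b) {T : V → ℂ} {F : V → ℝ}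
    {α : V × V → ℝ} {lam m : ℝ} (hl : 0 ≤ lam) (hF : Mis q T F α)
    (hloc : ∀ (e : V × V) (s : Finset (V × V)) (t : V × V → ℝ), (∀ e' ∈ s, 0 < t e' ∧ t e' < 1 ∧
      det2 (dir T e) (AffineMap.lineMap (T e'.1) (T e'.2) (t e') - T e.1) = 0) →
        ∑ e' ∈ s, q e'.1 e'.2 * (1 - t e') * |det2 (dir T e) (dir T e')| ≤ m * ‖dir T e‖) :
    ∑ u, ∑ u', link c q T lam u u' * (c.ext F u - c.ext F u') ^ 2 ≤
      4 * lam * m * ∑ a, ∑ b, q a b * (‖T b - T a‖ * α (a, b) ^ 2) := by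
  have h1 : ∀ u u' : Σ e : V × V, Fin (c.N e),
      link c q T lam (.inr u) (.inr u') * (c.ext F (.inr u) - c.ext F (.inr u')) ^ 2 ≤
        2 * (α u.1 ^ 2 * link c q T lam (.inr u) (.inr u')) +
          2 * (α u'.1 ^ 2 * link c q T lam (.inr u') (.inr u)) := fun u u' => by
    rw [link_symm c q T lam (.inr u') (.inr u)]
    by_cases h0 : link c q T lam (.inr u) (.inr u') = 0
    · simp [h0]
    have hp : ∀ w w' : Σ e : V × V, Fin (c.N e), link c q T lam (.inr w) (.inr w') ≠ 0 →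
        0 < q w.1.1 w.1.2 := fun w w' hw => (hq _ _).lt_of_ne' fun e => hw (by simp [link, e])
    have h2 : |c.ext F (.inr u) - c.ext F (.inr u')| ≤ α u.1 + α u'.1 :=
      hF _ _ _ _ (hp u u' h0) (hp u' u (by rwa [link_symm])) _
        (c.τ_mem u.1 (by have := u.2.2; omega)) _ (c.τ_mem u'.1 (by have := u'.2.2; omega))
        (link_ne c q T lam h0).1
    have h3 : (c.ext F (.inr u) - c.ext F (.inr u')) ^ 2 ≤ 2 * α u.1 ^ 2 + 2 * α u'.1 ^ 2 := by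
      have h4 := pow_le_pow_left₀ (abs_nonneg _) h2 2
      rw [sq_abs] at h4
      have h5 := sq_nonneg (α u.1 - α u'.1)
      linarith
    have h6 := mul_le_mul_of_nonneg_left h3 (link_nonneg c hq T hl (.inr u) (.inr u'))
    linarith
  have h7 : ∑ u : Σ e : V × V, Fin (c.N e), ∑ u' : Σ e : V × V, Fin (c.N e),
      α u.1 ^ 2 * link c q T lam (.inr u) (.inr u') ≤
        lam * m * ∑ a, ∑ b, q a b * (‖T b - T a‖ * α (a, b) ^ 2) := by
    rw [← Fintype.sum_prod_type' fun a b => q a b * (‖T b - T a‖ * α (a, b) ^ 2),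
      Finset.mul_sum, Fintype.sum_sigma]
    refine Finset.sum_le_sum fun e _ => ?_
    simp only [← Finset.mul_sum]
    refine (mul_le_mul_of_nonneg_left (link_mass_row c hq hl e (hloc e)) (sq_nonneg _)).trans_eq ?_
    rw [dir]
    ring
  have h8 : ∑ u, ∑ u', link c q T lam u u' * (c.ext F u - c.ext F u') ^ 2 =
      ∑ u : Σ e : V × V, Fin (c.N e), ∑ u' : Σ e : V × V, Fin (c.N e),
        link c q T lam (.inr u) (.inr u') * (c.ext F (.inr u) - c.ext F (.inr u')) ^ 2 := by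
    simp only [Fintype.sum_sum_type]
    simp only [link, zero_mul, Finset.sum_const_zero, zero_add]
  rw [h8]
  refine (Finset.sum_le_sum fun u _ => Finset.sum_le_sum fun u' _ => h1 u u').trans ?_
  simp only [Finset.sum_add_distrib, ← Finset.mul_sum _ _ (2 : ℝ)]
  rw [Finset.sum_comm (f := fun u u' : Σ e : V × V, Fin (c.N e) =>
    α u'.1 ^ 2 * link c q T lam (.inr u') (.inr u))]
  linarith

theorem est'_mass {Λ : Lens} {B : Set V} {q : V → V → ℝ} {μ : V → ℝ} {T : V → ℂ} {c : Cut V}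
    (h : Flow Λ B q μ T) {F : V → ℝ} {α : V × V → ℝ} {lam γ : ℝ} (hF : Mis q T F α)
    (hl : 0 < lam) (hμ : (∑ a, if a ∈ B then 0 else μ a) ≤ 2)
    (h2 : ∑ a, ∑ b, q a b * (‖T b - T a‖ * α (a, b) ^ 2) ≤ γ) :
    ∑ u, ∑ u', link c q T lam u u' * (c.ext F u - c.ext F u') ^ 2 ≤ 32 * lam * γ := by
  have hm := link_mass' c h.nonneg (m := 8) hl.le hF (by
    intro e s t ht
    have hD : ∀ b ∈ B, |det2 (dir T e) (T b - T e.1)| ≤ 4 * ‖dir T e‖ := by
      intro b _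
      have h1 : ‖T b‖ ≤ 2 := Λ.norm_le (by norm_num) (h.mem b)
      have h2 : ‖T e.1‖ ≤ 2 := Λ.norm_le (by norm_num) (h.mem e.1)
      have h3 := norm_sub_le (T b) (T e.1)
      have h4 := est_det (dir T e) (T b - T e.1)
      nlinarith only [norm_nonneg (dir T e), h1, h2, h3, h4]
    have := local_time h.nonneg h.stop h.mu h.src h.harmT hD s t ht
    nlinarith only [norm_nonneg (dir T e), hμ, this])
  nlinarith

/-- C3. Hint: copy `Flow.est` and `est_mass`, with `link_mass'` and the hypothesis `hA`. -/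
theorem est' {Λ : Lens} {B : Set V} {q : V → V → ℝ} {μ : V → ℝ} {T : V → ℂ} {c : Cut V}
    (h : Flow Λ B q μ T) (hc : GoodCut T (fun e => 0 < q e.1 e.2) c) {g : places c T → ℝ}
    (hg : ∀ p : places c T, (p : ℂ) ∉ Λ.Vt → gen (mrg (place c T) (c.rate q)) g p = 0)
    {F : V → ℝ} (hB : ∀ b ∈ B, g (place c T (.inl b)) = F b) {α : V × V → ℝ}
    {A₀ lam K γ : ℝ} (hA : Kink (mrg (place c T) (c.rate q)) g A₀) (hF : Mis q T F α)
    (hl : 0 < lam) (hμ : (∑ a, if a ∈ B then 0 else μ a) ≤ 2)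
    (h1 : (∑ a, if a ∈ B then 0 else |gen q F a|) ≤ γ)
    (h2 : ∑ a, ∑ b, q a b * (‖T b - T a‖ * α (a, b) ^ 2) ≤ γ) {z : V} (hz : z ∉ B)
    (hK : 1 ≤ K * μ z) :
    |g (place c T (.inl z)) - F z| ≤ K * γ + √(2 * K) * (√(lam⁻¹ * A₀) + √(32 * lam * γ)) := by
  have harea : ∀ p : places c T, ∃ x, 0 ≤ x ∧
      (x = 0 ∨ ∃ v w a a' b b', Xing (mrg (place c T) (c.rate q)) g p v w a a' b b' ∧ a ≤ a' ∧
        b ≤ b' ∧ x = (a' - a) * (b' - b) / |det2 v w|) ∧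
      ∀ i : c.Nd × c.Nd, (i.1 ∉ (Sum.inl '' B : Set c.Nd) ∧ i.2 ∉ (Sum.inl '' B : Set c.Nd) ∧
        place c T i.1 = p ∧ place c T i.1 = place c T i.2 ∧
        0 < gen (c.rate q) (fun b => g (place c T b)) i.1 ∧
        gen (c.rate q) (fun b => g (place c T b)) i.2 < 0) →
        gen (c.rate q) (fun b => g (place c T b)) i.1 *
          -gen (c.rate q) (fun b => g (place c T b)) i.2 ≤
            link c q T lam i.1 i.2 * (lam⁻¹ * x) := by
    intro p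
    refine est_max (Or.inl rfl) ?_ ?_
    · intro i x y hxy hx
      refine hx.trans (mul_le_mul_of_nonneg_left ?_ (link_nonneg c h.nonneg T hl.le _ _))
      exact mul_le_mul_of_nonneg_left hxy (inv_nonneg.2 hl.le)
    · rintro i ⟨i1, i2, rfl, i4, i5, i6⟩
      obtain ⟨v, w, a, a', b, b', hx, ha, hb', he⟩ := h.xing hc hg hl i1 i2 i4 i5 i6
      exact ⟨_, div_nonneg (mul_nonneg (sub_nonneg.2 ha) (sub_nonneg.2 hb')) (abs_nonneg _),
        Or.inr ⟨v, w, a, a', b, b', hx, ha, hb', rfl⟩, he.le⟩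
  choose A hA0 hA1 hA2 using harea
  have hsum := hA A hA1
  have hinl : ∀ a : V, (Sum.inl a : c.Nd) ∈ (Sum.inl '' B : Set c.Nd) ↔ a ∈ B := fun a =>
    Sum.inl_injective.mem_set_image
  refine merge_est (place c T) (R := c.rate q) (c := link c q T lam) (B := Sum.inl '' B)
    (μ := Sum.elim μ fun _ => 0) (F := c.ext F) (A := fun p => lam⁻¹ * A p) (z := .inl z)
    (c.rate_nonneg h.nonneg) (c.abs h.nonneg h.abs hc.act) (link_nonneg c h.nonneg T hl.le)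
    (link_symm c q T lam) ?_ ?_ ?_ (by rwa [hinl]) hK ?_ ?_
    (fun p => mul_nonneg (inv_nonneg.2 hl.le) (hA0 p)) ?_ ?_ ?_ (est'_mass h hF hl hμ h2)
  · intro u u' hne
    obtain ⟨h1, h2⟩ := link_ne c q T lam hne
    exact ⟨Subtype.ext h1, fun ⟨b, _, hb⟩ => h2 b hb.symm⟩
  · rintro (a | u) ha
    · exact h.mu a (by rwa [hinl] at ha)
    · exact le_rfl
  · intro u hu
    have : (∑ b, if b ∈ (Sum.inl '' B : Set c.Nd) then 0 else c.rate q b u) =
        ∑ b, c.rate q b u := by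
      refine Finset.sum_congr rfl fun b _ => ?_
      split_ifs with hb'
      · obtain ⟨b', hb'', rfl⟩ := hb'
        exact (c.rate_stop (h.stop b' hb'') u).symm
      · rfl
    rw [this]
    rcases u with a | u
    · rw [c.cons_inl]
      exact (h.src a (by rwa [hinl] at hu)).le
    · rw [c.cons_inr]
      exact le_rfl
  · rintro _ ⟨b, hb', rfl⟩
    exact hB b hb'
  · intro p
    by_cases hp : (p : ℂ) ∈ Λ.Vt
    · refine Finset.sum_eq_zero fun u _ => if_neg ?_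
      rintro ⟨rfl, hu⟩
      exact hu ((h.place_vt hc u).1 hp)
    · refine Eq.trans ?_ ((gen_mrg (place c T) (c.rate q) g p).symm.trans (hg p hp))
      refine Finset.sum_congr rfl fun u _ => ?_
      by_cases hu : place c T u = p
      · have : u ∉ (Sum.inl '' B : Set c.Nd) := fun hu' => hp (hu ▸ (h.place_vt hc u).2 hu')
        rw [if_pos hu, if_pos ⟨hu, this⟩]
      · rw [if_neg hu, if_neg fun h' => hu h'.1]
  · intro u u' hu hu' hp k1 k2
    exact hA2 _ (u, u') ⟨hu, hu', rfl, hp, k1, k2⟩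
  · rw [← Finset.mul_sum]
    exact mul_le_mul_of_nonneg_left hsum (inv_nonneg.2 hl.le)
  · refine le_trans (le_of_eq ?_) h1
    rw [Fintype.sum_sum_type]
    have : ∀ u : (Σ e : V × V, Fin (c.N e)), gen (c.rate q) (c.ext F) (.inr u) = 0 :=
      fun u => c.gen_ext_inr F u.1 u.2
    simp only [this, hinl, c.gen_ext_inl, abs_zero, ite_self, Finset.sum_const_zero, add_zero]

end Pool.Agent.MP_17e62b_gt.G

end

section
/-! Drawing a chain. -/

namespace Pool.Agent.MP_17e62b_gt.G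

open Set Filter Topology Metric
open scoped BigOperators InnerProductSpace Classical
open H14
open T55 (af Sq SqH SqV Cells Nbr vert)
open Pool.Agent.MP_4a6971_al.H83 (PArc)

variable {V : Type} [Fintype V]

theorem drawn_congr {W X : Type} [Fintype W] [AddCommGroup X] [Module ℝ X] {R : W → W → ℝ}
    (hR : ∀ a b, 0 ≤ R a b) {f g : W → X} {a : W}
    (h : ∀ b, 0 < R a b → f a = g a ∧ f b = g b) : gen R f a = gen R g a := by
  refine Finset.sum_congr rfl fun b _ => ?_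
  rcases (hR a b).lt_or_eq with h0 | h0
  · rw [(h b h0).1, (h b h0).2]
  · rw [← h0, zero_smul, zero_smul]

omit [Fintype V] in
theorem drawn_mem (T : V → ℂ) (c : Cut V) (e : V × V) {j : ℕ} (hj : j ≤ c.N e + 1) :
    c.ext T (c.node e j) ∈ segment ℝ (T e.1) (T e.2) := by
  rw [c.ext_node T e hj, segment_eq_image_lineMap]
  exact ⟨_, c.τ_mem e hj, rfl⟩

omit [Fintype V] in
theorem drawn_af (T : V → ℂ) (c : Cut V) (e : V × V) (l : ℂ × ℝ)
    (h : af l (T e.1) = af l (T e.2)) {j : ℕ} (hj : j ≤ c.N e + 1) :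
    af l (c.ext T (c.node e j)) = af l (T e.1) := by
  rw [c.ext_node T e hj, AffineMap.lineMap_apply_module']
  simp only [af, sub_left_inj] at h ⊢
  rw [mul_add, Complex.add_re, mul_smul_comm, Complex.smul_re, mul_sub, Complex.sub_re, h,
    sub_self, smul_zero, zero_add]

theorem drawn_edge {Λ : Lens} {B : Set V} {q : V → V → ℝ} {μ : V → ℝ} {T : V → ℂ} {c : Cut V}
    (h : Flow Λ B q μ T) {p p' : places c T} (hp : 0 < mrg (place c T) (c.rate q) p p') :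
    ∃ e : V × V, 0 < q e.1 e.2 ∧ ∃ j ≤ c.N e + 1, ∃ j' ≤ c.N e + 1,
      (p : ℂ) = c.ext T (c.node e j) ∧ (p' : ℂ) = c.ext T (c.node e j') := by
  obtain ⟨e, j, hj, he, ⟨h1, h2⟩ | ⟨h1, h2⟩⟩ := h.pnet_edge hp
  · exact ⟨e, he, j, by omega, j + 1, by omega, h1, h2⟩
  · exact ⟨e, he, j + 1, by omega, j, by omega, h1, h2⟩

/-- C4. Hint: `Flow.pnet`, `Flow.place_vt`, `Cut.rate_stop`, `Flow.seg_sub`, `Flow.pnet_edge`,
`PNet.node`. For `harm`: `gen_mrg`; on the nodes reached from `u` in the fibre of `p` the function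
`G ∘ place` equals `c.ext (G ∘ T)` (`Cut.of_rate_pos`, `Cut.ext_node`); `Cut.gen_ext_inl`,
`Cut.gen_ext_inr`. -/
theorem drawn {Λ : Lens} {B : Set V} {q : V → V → ℝ} {μ : V → ℝ} {T : V → ℂ} {c : Cut V}
    (h : Flow Λ B q μ T) (hc : GoodCut T (fun e => 0 < q e.1 e.2) c) {𝓛 : Finset (ℂ × ℝ)}
    (h1 : ∀ e : V × V, 0 < q e.1 e.2 → ∀ l ∈ 𝓛, af l (T e.1) ≠ af l (T e.2) →
      ∀ z ∈ segment ℝ (T e.1) (T e.2), af l z = 0 → ∃ u, c.ext T u = z)
    (h2 : ∀ (e : V × V) (j : Fin (c.N e)), (∃ e' : V × V, 0 < q e'.1 e'.2 ∧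
      det2 (dir T e) (dir T e') ≠ 0 ∧ c.ext T (.inr ⟨e, j⟩) ∈ segment ℝ (T e'.1) (T e'.2)) ∨
        ∃ l ∈ 𝓛, af l (T e.1) ≠ af l (T e.2) ∧ af l (c.ext T (.inr ⟨e, j⟩)) = 0) :
    Drawn Λ q T 𝓛 (places c T) (mrg (place c T) (c.rate q)) := by
  have hN := h.pnet hc
  have hsub : ∀ (e : V × V) (j j' : ℕ), j ≤ c.N e + 1 → j' ≤ c.N e + 1 →
      segment ℝ (c.ext T (c.node e j)) (c.ext T (c.node e j')) ⊆ segment ℝ (T e.1) (T e.2) :=
    fun e j j' hj hj' =>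
      (convex_segment _ _).segment_subset (drawn_mem T c e hj) (drawn_mem T c e hj')
  refine ⟨hN, fun p p' hp => ?_, fun a => (place c T (.inl a)).2, fun a b hab => h.seg_sub hab,
    fun p p' hp => ?_, fun p p' hp l hl hne z hz h0 => ?_, fun p hp => ?_,
    fun X _ _ G p hp hG h0 => ?_⟩
  · refine ((hN.nonneg p p').lt_or_eq.resolve_left fun hpos => ?_).symm
    obtain ⟨u, u', rfl, rfl, hr⟩ := (mrg_pos_iff _ (c.rate_nonneg h.nonneg)).1 hpos
    obtain ⟨b, hb, rfl⟩ := (h.place_vt hc u).1 hp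
    exact hr.ne' (c.rate_stop (h.stop b hb) u')
  · obtain ⟨e, he, j, hj, j', hj', k1, k2⟩ := drawn_edge h hp
    refine ⟨e.1, e.2, he, ?_⟩
    rw [k1, k2]
    exact hsub e j j' hj hj'
  · obtain ⟨e, he, j, hj, j', hj', k1, k2⟩ := drawn_edge h hp
    have hz' : z ∈ segment ℝ (T e.1) (T e.2) := by
      rw [k1, k2] at hz
      exact hsub e j j' hj hj' hz
    obtain ⟨u, rfl⟩ := h1 e he l hl (fun h3 => hne (by
      rw [k1, k2, drawn_af T c e l h3 hj, drawn_af T c e l h3 hj'])) z hz' h0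
    exact (hN.node p p' hp (place c T u) hz).imp (congrArg Subtype.val) (congrArg Subtype.val)
  · obtain ⟨u, hu⟩ := Flow.pnet_surj (c := c) (T := T) ⟨p, hp⟩
    obtain rfl : c.ext T u = p := congrArg Subtype.val hu
    rcases u with a | ⟨e, j⟩
    · exact .inl ⟨a, rfl⟩
    · have hj := j.2
      refine .inr ⟨e.1, e.2, hc.act e (by omega), ?_, ?_⟩
      · rw [← c.node_succ e j]
        exact drawn_mem T c e (by omega)
      · rcases h2 e j with ⟨e', k1, k2, k3⟩ | k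
        · exact .inl ⟨e'.1, e'.2, k1, k2, k3⟩
        · exact .inr k
  · rw [gen_mrg]
    refine Finset.sum_eq_zero fun u _ => ?_
    split_ifs with hu
    · subst hu
      have key : ∀ (e : V × V), 0 < q e.1 e.2 → ∀ j ≤ c.N e + 1, u = c.node e j →
          ∀ i ≤ c.N e + 1, G (c.ext T (c.node e i)) = c.ext (fun b => G (T b)) (c.node e i) := by
        rintro e he j hj rfl i hi
        rw [c.ext_node T e hi, c.ext_node _ e hi]
        exact hG e.1 e.2 he (drawn_mem T c e hj) _ (c.τ_mem e hi)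
      rw [drawn_congr (c.rate_nonneg h.nonneg) (g := c.ext fun b => G (T b)) (fun u' hr => by
        obtain ⟨e, j, hj, he, ⟨k1, rfl⟩ | ⟨k1, rfl⟩⟩ := c.of_rate_pos h.nonneg hr
        · refine ⟨?_, key e he j (by omega) k1 _ (by omega)⟩
          have := key e he j (by omega) k1 j (by omega)
          rwa [← k1] at this
        · refine ⟨?_, key e he (j + 1) (by omega) k1 _ (by omega)⟩
          have := key e he (j + 1) (by omega) k1 (j + 1) (by omega)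
          rwa [← k1] at this)]
      rcases u with a | ⟨e, j⟩
      · exact (c.gen_ext_inl _ a).trans (h0 a rfl)
      · exact c.gen_ext_inr _ e j
    · rfl

/-- C5. Hint: copy the first half of `build` (`build_mu`, `G = green R B μ`, the flow
`G a * R a b`, `green_le`); `exists_goodCut'`, `drawn`, `est'`. -/
theorem draw {Λ : Lens} {B : Set V} {R : V → V → ℝ} {T : V → ℂ} (h : Plan Λ B R T)
    (𝓛 : Finset (ℂ × ℝ)) (Z₀ : Finset V) {K : ℕ} (hK : Z₀.card ≤ K) :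
    ∃ (Nd : Finset ℂ) (r : Nd → Nd → ℝ), Drawn Λ R T 𝓛 Nd r ∧
      ∀ (g : Nd → ℝ) (F k : V → ℝ) (α : V × V → ℝ) (A₀ lam β : ℝ), 0 < lam →
        (∀ p : Nd, (p : ℂ) ∉ Λ.Vt → gen r g p = 0) →
        (∀ b ∈ B, ∀ p : Nd, (p : ℂ) = T b → g p = F b) → Kink r g A₀ → Mis R T F α →
        (∀ a, 0 ≤ k a ∧ k a ≤ β) →
        (∀ a, a ∉ B → |gen R F a| ≤ -gen R k a ∧
          ∑ b, R a b * (‖T b - T a‖ * α (a, b) ^ 2) ≤ -gen R k a) →
        ∀ z ∈ Z₀, z ∉ B → ∀ p : Nd, (p : ℂ) = T z → |g p - F z| ≤ ((K : ℝ) + 1) * (2 * β) +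
          √(2 * ((K : ℝ) + 1)) * (√(lam⁻¹ * A₀) + √(32 * lam * (2 * β))) := by
  have hA := h.abs
  have : Nonempty V := by
    obtain ⟨b, -⟩ := h.all 1 Λ.one_mem
    exact ⟨b⟩
  obtain ⟨μ, hμ0, hμ2, hμZ⟩ := build_mu B Z₀ hK
  set G := green R B μ with hG
  have hG0 : ∀ a, 0 ≤ G a := green_nonneg h.nonneg hA fun a _ => (hμ0 a).le
  have hGB : ∀ b ∈ B, G b = 0 := fun b hb => green_bd μ hb
  have hadj : ∀ b, b ∉ B → G b * ∑ c, R b c - ∑ a, G a * R a b = μ b := fun b hb =>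
    green_adj h.nonneg hA μ hb
  have hq : ∀ a b, 0 < R a b → 0 < G a * R a b := fun a b hab => by
    refine mul_pos (green_pos h.nonneg hA (fun a _ => hμ0 a) fun ha => ?_) hab
    exact hab.ne' (h.stop a ha b)
  have hq' : ∀ a b, 0 < G a * R a b → 0 < R a b := fun a b hab =>
    (h.nonneg a b).lt_of_ne fun h0 => by rw [← h0, mul_zero] at hab; exact lt_irrefl _ hab
  have hgen : ∀ {X : Type} [AddCommGroup X] [Module ℝ X] (u : V → X) (a : V),
      gen (fun a b => G a * R a b) u a = G a • gen R u a := by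
    intro X _ _ u a
    simp only [gen, Finset.smul_sum, mul_smul]
  have hF : Flow Λ B (fun a b => G a * R a b) μ T :=
    { nonneg := fun a b => mul_nonneg (hG0 a) (h.nonneg a b)
      stop := fun b hb a => by simp only [hGB b hb, zero_mul]
      abs := hA.mono subset_rfl hq
      mu := fun a _ => (hμ0 a).le
      src := fun a ha => by rw [← hadj a ha, Finset.mul_sum]
      mem := h.mem
      bd := h.bd
      all := h.all
      harmT := fun a ha => by rw [hgen, h.harmT a ha, smul_zero]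
      vert := fun a b hab => h.vert a b (hq' a b hab) }
  obtain ⟨c, hc, k1, k2⟩ := exists_goodCut' h.inj (Act := fun e => 0 < G e.1 * R e.1 e.2)
    (fun e he h0 => h.vert _ _ (hq' _ _ he) (by rw [h0]))
    (fun e he d hd => h.node _ _ (hq' _ _ he) d hd) 𝓛
  have hD := drawn hF hc k1 k2
  refine ⟨places c T, _, ⟨hD.pnet, hD.stop, hD.old, fun a b hab => hD.seg a b (hq a b hab),
    fun p p' hp => ?_, hD.cut, fun p hp => ?_, fun X _ _ u p hp h1 h2 => ?_⟩,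
    fun g F k α A₀ lam β hl hg hB hA₀ hM hk hpot z hz hzB p hp => ?_⟩
  · obtain ⟨a, b, hab, hs⟩ := hD.sub p p' hp
    exact ⟨a, b, hq' a b hab, hs⟩
  · refine (hD.new p hp).imp_right ?_
    rintro ⟨a, b, hab, hs, h3⟩
    refine ⟨a, b, hq' a b hab, hs, h3.imp_left ?_⟩
    rintro ⟨a', b', hab', h4⟩
    exact ⟨a', b', hq' a' b' hab', h4⟩
  · refine hD.harm X u p hp (fun a b hab => h1 a b (hq' a b hab)) fun a ha => ?_
    rw [hgen, h2 a ha, smul_zero]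
  · have hβ : 0 ≤ β := (hk z).1.trans (hk z).2
    have hle : ∀ ψ : V → ℝ, (∀ a, a ∉ B → ψ a ≤ -gen R k a) → ∑ a, G a * ψ a ≤ 2 * β := by
      intro ψ hψ
      have := green_le h.nonneg hG0 hGB (fun a _ => (hμ0 a).le) hadj (fun a => (hk a).1)
        (fun a => (hk a).2) hψ
      have h2 := mul_le_mul_of_nonneg_left hμ2 hβ
      linarith only [this, h2]
    obtain rfl : p = place c T (.inl z) := Subtype.ext hp
    refine est' hF hc hg (fun b hb => hB b hb _ rfl) hA₀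
      (fun a b a' b' hab hab' => hM a b a' b' (hq' a b hab) (hq' a' b' hab')) hl hμ2 ?_ ?_ hzB
      (hμZ z hz)
    · refine le_trans (Finset.sum_le_sum fun a _ => ?_)
        (hle (fun a => |gen R F a|) fun a ha => (hpot a ha).1)
      split_ifs with ha
      · exact mul_nonneg (hG0 a) (abs_nonneg _)
      · rw [hgen, smul_eq_mul, abs_mul, abs_of_nonneg (hG0 a)]
    · refine le_trans (le_of_eq ?_) (hle _ fun a ha => (hpot a ha).2)
      simp only [Finset.mul_sum, mul_assoc]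

end Pool.Agent.MP_17e62b_gt.G

end
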