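import Pool.Agent.MP_17e62b_gt.Mg.G_H72M1
import Pool.Agent.MP_17e62b_gt.Mg.H14_M5

attribute [-instance] instCoeTCOfCoe LieAdmissibleAlgebra.toModule LeftPreLieAlgebra.toModule
  AddQuantale.instAddLeftMono RightPreLieAlgebra.toModule NonUnitalNonAssocSemiring.toAddCommMonoid
  NonUnitalNonAssocRing.toAddCommGroup RKHS.instFunLike NumberField.to_charZero
  AddQuantale.instAddRightMono CoalgHomClass.toSemilinearMapClass
  NonUnitalAlgSemiHomClass.toDistribMulActionSemiHomClass IdemSemiring.toCanonicallyOrderedAdd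
  littleWedderburn NormedRing.toRing RingHomClass.toLinearMapClassNNRat
  LinearOrderedCommMonoidWithZero.toPosMulStrictMono MulSemiringAction.toDistribMulAction
  GrpTypeEquivalenceGrp.grpGroup NonUnitalNormedRing.toNonUnitalSeminormedRing Valued.toUniformSpace
  SemilinearIsometryClass.toSemilinearMapClass Quantale.instMulRightMono
  RingHomClass.toLinearMapClassRat instCoeTOfCoeDep AddCommMonoidWithOne.toAddMonoidWithOne
  NormedCommRing.toCommRing AddCommGroupWithOne.toAddGroupWithOne LieRing.toAddCommGroup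
  MonoidWithZeroHomClass.toZeroHomClass NonarchimedeanAddGroup.toIsTopologicalAddGroup
  ProperSMul.toContinuousSMul MonTypeEquivalenceMon.monMonoid Algebra.complexToReal
  MulZeroOneClass.toMulZeroClass NormedRing.toSeminormedRing EuclideanDomain.toCommRing
  AddCommMonoidWithOne.toAddCommMonoid SeminormedCommRing.toCommRing instCoeTC instCoeHTCT
  NonUnitalNormedCommRing.toNonUnitalSeminormedCommRing IdemSemiring.toSemiring instCoeHTC
  Algebra.WeaklyEtale.flat instSMulZeroClass NormedDivisionRing.toDivisionRing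
  NonUnitalRing.toNonUnitalNonAssocRing IsPurelyInseparable.isIntegral
  MulSemiringActionSemiHomClass.toDistribMulActionSemiHomClass BooleanRing.toRing
  AddCommGroupWithOne.toAddCommGroup Bialgebra.toAlgebra

section
/-! Density of the edges. -/

namespace Pool.Agent.MP_17e62b_gt.G

open Set Filter Topology Metric
open scoped BigOperators InnerProductSpace Classical
open H14
open T55 (af Sq SqH SqV Cells Nbr vert)
open Pool.Agent.MP_4a6971_al.H83 (PArc)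

theorem den_corner_flat {E : Set ℂ} {a b b' q : ℂ} (h : segment ℝ a b ⊆ E)
    (h' : segment ℝ a b' ⊆ E) (sl : |(b - a).im| ≤ 2 * |(b - a).re|)
    (sl' : |(b' - a).im| ≤ 2 * |(b' - a).re|) (hne : b ≠ b') {s : ℝ} (hs0 : 0 ≤ s) (hs1 : s ≤ 1)
    (hq : q = a + s • (b - a)) :
    ∃ w, w ≠ q ∧ segment ℝ q w ⊆ E ∧ |(w - q).im| ≤ 2 * |(w - q).re| := by
  have hqs : q ∈ segment ℝ a b := by
    refine ⟨1 - s, s, by linarith, hs0, by ring, ?_⟩
    rw [hq]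
    simp only [Complex.real_smul]
    push_cast
    ring
  by_cases hqb : q = b
  · by_cases hab : a = b
    · have hqa : q = a := hqb.trans hab.symm
      rw [hqa]
      exact ⟨b', fun h0 => hne (hab.symm.trans h0.symm), h', sl'⟩
    · rw [hqb]
      refine ⟨a, hab, by rw [segment_symm]; exact h, ?_⟩
      rw [← neg_sub b a, Complex.neg_im, Complex.neg_re, abs_neg, abs_neg]
      exact sl
  · refine ⟨b, fun h0 => hqb h0.symm, ?_, ?_⟩
    · exact ((convex_segment a b).segment_subset hqs (right_mem_segment ℝ a b)).trans h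
    · have h1 : b - q = (1 - s) • (b - a) := by
        rw [hq]
        simp only [Complex.real_smul]
        push_cast
        ring
      rw [h1, Complex.smul_im, Complex.smul_re, smul_eq_mul, smul_eq_mul, abs_mul, abs_mul,
        abs_of_nonneg (by linarith : 0 ≤ 1 - s)]
      have h2 := mul_le_mul_of_nonneg_left sl (by linarith : 0 ≤ 1 - s)
      linarith

theorem den_corner_im {v : ℂ} (hv : ‖v‖ = 1) (hs : 4 * |v.re| ≤ |v.im|) :
    v.re ^ 2 + v.im ^ 2 = 1 ∧ 24 / 25 ≤ |v.im| := by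
  have h1 : v.re ^ 2 + v.im ^ 2 = 1 := by
    have h2 := Complex.sq_norm v
    rw [hv, Complex.normSq_apply] at h2
    linarith
  refine ⟨h1, ?_⟩
  by_contra hn
  push Not at hn
  have h3 := sq_abs v.re
  have h4 := sq_abs v.im
  have h5 := abs_nonneg v.re
  have h6 := abs_nonneg v.im
  nlinarith

theorem den_corner_one {a b z v : ℂ} {κ : ℝ} (hκ0 : 0 ≤ κ) (hκ2 : κ ≤ 2) (hv : ‖v‖ = 1)
    (hs : 4 * |v.re| ≤ |v.im|) (sl : |(b - a).im| ≤ κ * |(b - a).re|)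
    (hsg : (v.re * (a - z).im - v.im * (a - z).re) * (v.re * (b - z).im - v.im * (b - z).re) ≤ 0) :
    ∃ t s : ℝ, |t| * ((1 - κ / 4) * (24 / 25)) ≤ (1 + κ) * ‖a - z‖ ∧ 0 ≤ s ∧ s ≤ 1 ∧
      z + t • v = a + s • (b - a) := by
  obtain ⟨hv1, hv2⟩ := den_corner_im hv hs
  obtain ⟨A, hA⟩ : ∃ A, A = v.re * (a - z).im - v.im * (a - z).re := ⟨_, rfl⟩
  obtain ⟨B, hB⟩ : ∃ B, B = v.re * (b - z).im - v.im * (b - z).re := ⟨_, rfl⟩
  rw [← hA, ← hB] at hsg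
  obtain ⟨s, hs0, hs1, hs2⟩ : ∃ s : ℝ, 0 ≤ s ∧ s ≤ 1 ∧ (1 - s) * A + s * B = 0 := by
    have hc : ContinuousOn (fun s : ℝ => (1 - s) * A + s * B) (uIcc 0 1) := by fun_prop
    have h0 : (0 : ℝ) ∈ uIcc ((1 - 0) * A + 0 * B) ((1 - 1) * A + 1 * B) := by
      simp only [sub_zero, one_mul, zero_mul, add_zero, sub_self, zero_add]
      rw [mem_uIcc]
      rcases le_total A 0 with h | h
      · rcases le_total 0 B with h' | h'
        · exact Or.inl ⟨h, h'⟩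
        · rcases h.eq_or_lt with h1 | h1
          · exact Or.inr ⟨h', h1.ge⟩
          · exact Or.inl ⟨h, by nlinarith only [hsg, h1]⟩
      · rcases le_total B 0 with h' | h'
        · exact Or.inr ⟨h', h⟩
        · rcases h.eq_or_lt with h1 | h1
          · exact Or.inl ⟨h1.ge, h'⟩
          · exact Or.inr ⟨by nlinarith only [hsg, h1], h⟩
    obtain ⟨s, hs, hs'⟩ := intermediate_value_uIcc hc h0
    rw [uIcc_of_le zero_le_one] at hs
    exact ⟨s, hs.1, hs.2, hs'⟩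
  obtain ⟨X, hX⟩ : ∃ X, X = (a - z).re + s * (b - a).re := ⟨_, rfl⟩
  obtain ⟨Y, hY⟩ : ∃ Y, Y = (a - z).im + s * (b - a).im := ⟨_, rfl⟩
  have hXY : v.re * Y = v.im * X := by
    rw [hA, hB] at hs2
    rw [hX, hY]
    simp only [Complex.sub_re, Complex.sub_im] at hs2 ⊢
    linarith only [hs2]
  obtain ⟨t, ht⟩ : ∃ t, t = v.re * X + v.im * Y := ⟨_, rfl⟩
  have htX : t * v.re = X := by
    have : t * v.re = (v.re ^ 2 + v.im ^ 2) * X + v.im * (v.re * Y - v.im * X) := by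
      rw [ht]; ring
    rw [this, hv1, hXY]; ring
  have htY : t * v.im = Y := by
    have : t * v.im = (v.re ^ 2 + v.im ^ 2) * Y - v.re * (v.re * Y - v.im * X) := by
      rw [ht]; ring
    rw [this, hv1, hXY]; ring
  refine ⟨t, s, ?_, hs0, hs1, ?_⟩
  · have hre := Complex.abs_re_le_norm (a - z)
    have him := Complex.abs_im_le_norm (a - z)
    have hn := norm_nonneg (a - z)
    have ht0 := abs_nonneg t
    rcases (abs_nonneg (b - a).re).eq_or_lt with h0 | h0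
    · have h1 : (b - a).im = 0 := by
        rw [← h0, mul_zero] at sl
        exact abs_nonpos_iff.1 sl
      rw [h1, mul_zero, add_zero] at hY
      have h2 : |t| * |v.im| ≤ ‖a - z‖ := by
        rw [← abs_mul, htY, hY]
        exact him
      have h3 : |t| * (24 / 25) ≤ ‖a - z‖ := (mul_le_mul_of_nonneg_left hv2 ht0).trans h2
      have h4 := mul_nonneg hκ0 hn
      have h5 := mul_nonneg hκ0 ht0
      linarith only [h3, h4, h5]
    · have h1 : t * ((b - a).re * v.im - (b - a).im * v.re) =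
          (b - a).re * (a - z).im - (b - a).im * (a - z).re := by
        have : t * ((b - a).re * v.im - (b - a).im * v.re) =
          (b - a).re * (t * v.im) - (b - a).im * (t * v.re) := by ring
        rw [this, htX, htY, hX, hY]
        ring
      have h2 : |(b - a).re * (a - z).im - (b - a).im * (a - z).re| ≤
          |(b - a).re| * ((1 + κ) * ‖a - z‖) := by
        refine (abs_sub _ _).trans ?_
        rw [abs_mul, abs_mul]
        have h3 := mul_le_mul_of_nonneg_left him h0.le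
        have h4 := mul_le_mul sl hre (abs_nonneg _) (mul_nonneg hκ0 h0.le)
        linarith only [h3, h4]
      have h3 : |(b - a).re| * ((1 - κ / 4) * (24 / 25)) ≤
          |(b - a).re * v.im - (b - a).im * v.re| := by
        refine le_trans ?_ (abs_sub_abs_le_abs_sub _ _)
        rw [abs_mul, abs_mul]
        have h4 := mul_le_mul sl (by linarith only [hs] : |v.re| ≤ |v.im| / 4) (abs_nonneg _)
          (mul_nonneg hκ0 h0.le)
        have h5 := mul_le_mul_of_nonneg_left hv2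
          (mul_nonneg h0.le (by linarith only [hκ2] : 0 ≤ 1 - κ / 4))
        linarith only [h4, h5]
      have h4 : |t| * (|(b - a).re| * ((1 - κ / 4) * (24 / 25))) ≤
          |(b - a).re| * ((1 + κ) * ‖a - z‖) := by
        refine (mul_le_mul_of_nonneg_left h3 ht0).trans ?_
        rw [← abs_mul, h1]
        exact h2
      refine le_of_mul_le_mul_left ?_ h0
      linarith only [h4]
  · apply Complex.ext
    · simp only [Complex.add_re, Complex.smul_re, smul_eq_mul]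
      rw [htX, hX, Complex.sub_re a z]
      ring
    · simp only [Complex.add_im, Complex.smul_im, smul_eq_mul]
      rw [htY, hY, Complex.sub_im a z]
      ring

theorem den_corner_key {E : Set ℂ} {a b b' z v : ℂ} {κ : ℝ} (hκ0 : 0 ≤ κ) (hκ2 : κ ≤ 2)
    (hv : ‖v‖ = 1) (hs : 4 * |v.re| ≤ |v.im|) (h : segment ℝ a b ⊆ E) (h' : segment ℝ a b' ⊆ E)
    (sl : |(b - a).im| ≤ κ * |(b - a).re|) (sl' : |(b' - a).im| ≤ κ * |(b' - a).re|)
    (hne : b ≠ b') (hz : |(b - z).im| ≤ 2 * (b - z).re) (hz' : |(b' - z).im| ≤ -2 * (b' - z).re) :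
    ∃ t : ℝ, |t| * ((1 - κ / 4) * (24 / 25)) ≤ (1 + κ) * ‖a - z‖ ∧ ∃ w, w ≠ z + t • v ∧
      segment ℝ (z + t • v) w ⊆ E ∧ |(w - (z + t • v)).im| ≤ 2 * |(w - (z + t • v)).re| := by
  have s2 : |(b - a).im| ≤ 2 * |(b - a).re| :=
    sl.trans (mul_le_mul_of_nonneg_right hκ2 (abs_nonneg _))
  have s2' : |(b' - a).im| ≤ 2 * |(b' - a).re| :=
    sl'.trans (mul_le_mul_of_nonneg_right hκ2 (abs_nonneg _))
  obtain ⟨A, hA⟩ : ∃ A, A = v.re * (a - z).im - v.im * (a - z).re := ⟨_, rfl⟩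
  obtain ⟨B, hB⟩ : ∃ B, B = v.re * (b - z).im - v.im * (b - z).re := ⟨_, rfl⟩
  obtain ⟨B', hB'⟩ : ∃ B, B = v.re * (b' - z).im - v.im * (b' - z).re := ⟨_, rfl⟩
  have hr : |v.re| ≤ |v.im| / 4 := by linarith only [hs]
  have e1 : |v.re * (b - z).im| ≤ |v.im| * (b - z).re := by
    rw [abs_mul]
    have h1 := mul_le_mul hr hz (abs_nonneg _) (by positivity)
    have h2 := mul_nonneg (abs_nonneg v.im)
      (by linarith only [abs_nonneg (b - z).im, hz] : 0 ≤ (b - z).re)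
    linarith only [h1, h2]
  have e2 : |v.re * (b' - z).im| ≤ -(|v.im| * (b' - z).re) := by
    rw [abs_mul]
    have h1 := mul_le_mul hr hz' (abs_nonneg _) (by positivity)
    have h2 := mul_nonneg (abs_nonneg v.im)
      (by linarith only [abs_nonneg (b' - z).im, hz'] : 0 ≤ -(b' - z).re)
    linarith only [h1, h2]
  obtain ⟨e3, e4⟩ := abs_le.1 e1
  obtain ⟨e5, e6⟩ := abs_le.1 e2
  have hBB : (B ≤ 0 ∧ 0 ≤ B') ∨ (0 ≤ B ∧ B' ≤ 0) := by
    rcases le_total 0 v.im with h0 | h0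
    · rw [abs_of_nonneg h0] at e3 e4 e5 e6
      exact Or.inl ⟨by linarith only [hB, e4], by linarith only [hB', e5]⟩
    · rw [abs_of_nonpos h0] at e3 e4 e5 e6
      exact Or.inr ⟨by linarith only [hB, e3], by linarith only [hB', e6]⟩
  have hor : A * B ≤ 0 ∨ A * B' ≤ 0 := by
    rcases le_total 0 A with h0 | h0
    · rcases hBB with h1 | h1
      · exact Or.inl (mul_nonpos_of_nonneg_of_nonpos h0 h1.1)
      · exact Or.inr (mul_nonpos_of_nonneg_of_nonpos h0 h1.2)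
    · rcases hBB with h1 | h1
      · exact Or.inr (mul_nonpos_of_nonpos_of_nonneg h0 h1.2)
      · exact Or.inl (mul_nonpos_of_nonpos_of_nonneg h0 h1.1)
  rcases hor with h0 | h0
  · rw [hA, hB] at h0
    obtain ⟨t, s, h1, h2, h3, h4⟩ := den_corner_one hκ0 hκ2 hv hs sl h0
    exact ⟨t, h1, den_corner_flat h h' s2 s2' hne h2 h3 h4⟩
  · rw [hA, hB'] at h0
    obtain ⟨t, s, h1, h2, h3, h4⟩ := den_corner_one hκ0 hκ2 hv hs sl' h0
    exact ⟨t, h1, den_corner_flat h' h s2' s2 hne.symm h2 h3 h4⟩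

/-- F1. Hint: the two segments form the graph of a function `Γ` on `[-1, 1]` with slopes at most
`2` (`Lens.le_two`), zero at `± 1`; extend it by zero. `t ↦ (z + t v).im - Γ (z + t v).re` is
monotone with rate at least `|v.im| / 2 ≥ 0.48` and is at most `3 ‖a - z‖` at `t = 0`. The zero
has `|re| ≤ 1` because `|z.im| ≤ 2 (1 - |z.re|)`. -/
theorem den_corner (Λ : Lens) {Nd : Finset ℂ} {r : Nd → Nd → ℝ} {a z : ℂ} (ha : a ∈ Λ.P)
    (hz : z ∈ Λ.P) (h1 : segment ℝ a 1 ⊆ Eg r) (h2 : segment ℝ a (-1) ⊆ Eg r) :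
    Den r z (7 * ‖a - z‖) := by
  intro v hv hs
  have key : ∀ p ∈ Λ.P, |p.im| ≤ 2 * (1 - p.re) ∧ |p.im| ≤ 2 * (1 + p.re) := fun p hp => by
    have h3 := hp.2
    have h4 := Λ.le_two hp.1
    have h5 := le_abs_self p.re
    have h6 := neg_abs_le p.re
    rw [add_zero] at h3
    exact ⟨by linarith, by linarith only [h3, h4, h6]⟩
  obtain ⟨a1, a2⟩ := key a ha
  obtain ⟨z1, z2⟩ := key z hz
  obtain ⟨t, ht, hw⟩ := den_corner_key (z := z) zero_le_two le_rfl hv hs h1 h2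
    (by
      simp only [Complex.sub_im, Complex.sub_re, Complex.one_im, Complex.one_re, zero_sub, abs_neg]
      linarith only [le_abs_self (1 - a.re), a1])
    (by
      simp only [Complex.sub_im, Complex.sub_re, Complex.neg_im, Complex.neg_re, Complex.one_im,
        Complex.one_re, neg_zero, zero_sub, abs_neg]
      linarith [neg_abs_le (-1 - a.re)])
    (fun h0 => by
      have h3 := congrArg Complex.re h0
      simp only [Complex.one_re, Complex.neg_re] at h3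
      linarith)
    (by
      simp only [Complex.sub_im, Complex.sub_re, Complex.one_im, Complex.one_re, zero_sub, abs_neg]
      linarith)
    (by
      simp only [Complex.sub_im, Complex.sub_re, Complex.neg_im, Complex.neg_re, Complex.one_im,
        Complex.one_re, neg_zero, zero_sub, abs_neg]
      linarith)
  exact ⟨t, by linarith [norm_nonneg (a - z)], hw⟩

/-- F2. The same for two short segments. -/
theorem den_local {Nd : Finset ℂ} {r : Nd → Nd → ℝ} {y y₁ y₂ z : ℂ} {ζ : ℝ} (hζ : 0 < ζ)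
    (h1 : segment ℝ y y₁ ⊆ Eg r) (h2 : segment ℝ y y₂ ⊆ Eg r) (e1 : ‖y₁ - (y + 8 * ζ)‖ ≤ 2 * ζ)
    (e2 : ‖y₂ - (y - 8 * ζ)‖ ≤ 2 * ζ) (hz : ‖y - z‖ ≤ 2 * ζ) : Den r z (4 * ζ) := by
  intro v hv hs
  obtain ⟨a1, a2⟩ := abs_le.1 ((Complex.abs_re_le_norm _).trans e1)
  obtain ⟨a3, a4⟩ := abs_le.1 ((Complex.abs_im_le_norm _).trans e1)
  obtain ⟨b1, b2⟩ := abs_le.1 ((Complex.abs_re_le_norm _).trans e2)
  obtain ⟨b3, b4⟩ := abs_le.1 ((Complex.abs_im_le_norm _).trans e2)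
  obtain ⟨c1, c2⟩ := abs_le.1 ((Complex.abs_re_le_norm _).trans hz)
  obtain ⟨c3, c4⟩ := abs_le.1 ((Complex.abs_im_le_norm _).trans hz)
  have r8 : ((8 : ℂ) * ζ).re = 8 * ζ := by simp
  have i8 : ((8 : ℂ) * ζ).im = 0 := by simp
  simp only [Complex.sub_re, Complex.sub_im, Complex.add_re, Complex.add_im, r8, i8]
    at a1 a2 a3 a4 b1 b2 b3 b4 c1 c2 c3 c4
  obtain ⟨t, ht, hw⟩ := den_corner_key (z := z) (κ := 1 / 3) (by norm_num) (by norm_num) hv hs h1 h2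
    (by
      simp only [Complex.sub_im, Complex.sub_re]
      exact abs_le.2 ⟨by linarith only [le_abs_self (y₁.re - y.re), a1, a3],
        by linarith only [le_abs_self (y₁.re - y.re), a1, a4]⟩)
    (by
      simp only [Complex.sub_im, Complex.sub_re]
      exact abs_le.2 ⟨by linarith only [neg_abs_le (y₂.re - y.re), b2, b3],
        by linarith only [neg_abs_le (y₂.re - y.re), b2, b4]⟩)
    (fun h0 => by
      have h3 := congrArg Complex.re h0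
      linarith only [hζ, a1, b2, h3])
    (by
      simp only [Complex.sub_im, Complex.sub_re]
      exact abs_le.2 ⟨by linarith only [hζ, c1, c3, a1, a3], by linarith only [hζ, c1, c4, a1, a4]⟩)
    (by
      simp only [Complex.sub_im, Complex.sub_re]
      exact abs_le.2 ⟨by linarith only [hζ, c2, c3, b2, b3], by linarith only [hζ, c2, c4, b2, b4]⟩)
  exact ⟨t, by linarith only [hζ, hz, ht], hw⟩

theorem exists_hv_one {σ : ℝ} (hσ : 0 < σ) {x x' : ℝ} (hx : |x| ≤ 2) (hx' : |x'| ≤ 2)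
    (h : ∀ k ∈ Finset.Icc (-⌈4 / σ⌉) ⌈4 / σ⌉, 0 ≤ (x - k * (σ / 2)) * (x' - k * (σ / 2))) :
    x' - x ≤ σ / 2 := by
  by_contra hn
  push Not at hn
  obtain ⟨a1, a2⟩ := abs_le.1 hx
  obtain ⟨a3, a4⟩ := abs_le.1 hx'
  have hp : 0 < σ / 2 := by linarith only [hσ]
  obtain ⟨k, hk⟩ : ∃ k : ℤ, k = ⌊x / (σ / 2)⌋ + 1 := ⟨_, rfl⟩
  have h1 : x < k * (σ / 2) := by
    rw [← div_lt_iff₀ hp, hk]
    push_cast
    exact Int.lt_floor_add_one _
  have h2 : (k : ℝ) * (σ / 2) ≤ x + σ / 2 := by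
    have h3 := Int.floor_le (x / (σ / 2))
    rw [le_div_iff₀ hp] at h3
    rw [hk]
    push_cast
    linarith only [h3]
  have hc := Int.le_ceil (4 / σ)
  have h4 : (k : ℝ) ≤ 4 / σ := by
    rw [le_div_iff₀ hσ]
    linarith only [hn, a4, h2]
  have h5 : -(k : ℝ) ≤ 4 / σ := by
    rw [le_div_iff₀ hσ]
    linarith only [a1, h1]
  have h6 : k ∈ Finset.Icc (-⌈4 / σ⌉) ⌈4 / σ⌉ := by
    rw [Finset.mem_Icc]
    constructor
    · have : ((-⌈4 / σ⌉ : ℤ) : ℝ) ≤ k := by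
        push_cast
        linarith only [hc, h5]
      exact_mod_cast this
    · exact_mod_cast h4.trans hc
  exact (mul_neg_of_neg_of_pos (by linarith only [h1]) (by linarith only [hn, h2])).not_ge (h k h6)

/-- F3. Horizontal and vertical lines. Hint: `af (1, c) z = z.re - c`, `af (-I, c) z = z.im - c`,
`c = k σ / 2`. -/
theorem exists_hv {σ : ℝ} (hσ : 0 < σ) : ∃ 𝓛 : Finset (ℂ × ℝ), (∀ l ∈ 𝓛, l.1 ≠ 0) ∧
    ∀ p p' : ℂ, ‖p‖ ≤ 2 → ‖p'‖ ≤ 2 → (∀ l ∈ 𝓛, 0 ≤ af l p * af l p') → ‖p' - p‖ ≤ σ := by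
  refine ⟨(Finset.Icc (-⌈4 / σ⌉) ⌈4 / σ⌉).image (fun k : ℤ => ((1 : ℂ), (k : ℝ) * (σ / 2))) ∪
    (Finset.Icc (-⌈4 / σ⌉) ⌈4 / σ⌉).image (fun k : ℤ => (-Complex.I, (k : ℝ) * (σ / 2))), ?_, ?_⟩
  · intro l hl
    rcases Finset.mem_union.1 hl with h | h
    · obtain ⟨k, -, rfl⟩ := Finset.mem_image.1 h
      exact one_ne_zero
    · obtain ⟨k, -, rfl⟩ := Finset.mem_image.1 h
      exact neg_ne_zero.2 Complex.I_ne_zero
  · intro p p' hp hp' h
    have hre : ∀ k ∈ Finset.Icc (-⌈4 / σ⌉) ⌈4 / σ⌉,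
        0 ≤ (p.re - k * (σ / 2)) * (p'.re - k * (σ / 2)) := fun k hk => by
      have h1 := h _ (Finset.mem_union_left _ (Finset.mem_image_of_mem _ hk))
      simpa only [af, one_mul] using h1
    have him : ∀ k ∈ Finset.Icc (-⌈4 / σ⌉) ⌈4 / σ⌉,
        0 ≤ (p.im - k * (σ / 2)) * (p'.im - k * (σ / 2)) := fun k hk => by
      have h1 := h _ (Finset.mem_union_right _ (Finset.mem_image_of_mem _ hk))
      have h2 : ∀ q : ℂ, (-Complex.I * q).re = q.im := fun q => by simp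
      simpa only [af, h2] using h1
    have r1 := (Complex.abs_re_le_norm p).trans hp
    have r2 := (Complex.abs_re_le_norm p').trans hp'
    have i1 := (Complex.abs_im_le_norm p).trans hp
    have i2 := (Complex.abs_im_le_norm p').trans hp'
    have a1 := exists_hv_one hσ r1 r2 hre
    have a2 := exists_hv_one hσ r2 r1 fun k hk => by rw [mul_comm]; exact hre k hk
    have a3 := exists_hv_one hσ i1 i2 him
    have a4 := exists_hv_one hσ i2 i1 fun k hk => by rw [mul_comm]; exact him k hk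
    refine (Complex.norm_le_abs_re_add_abs_im _).trans ?_
    have b1 : |(p' - p).re| ≤ σ / 2 := by
      rw [Complex.sub_re]
      exact abs_le.2 ⟨by linarith only [a2], a1⟩
    have b2 : |(p' - p).im| ≤ σ / 2 := by
      rw [Complex.sub_im]
      exact abs_le.2 ⟨by linarith only [a4], a3⟩
    linarith only [b1, b2]

end Pool.Agent.MP_17e62b_gt.G

end

section
/-! The fine network. -/

namespace Pool.Agent.MP_17e62b_gt.G

open Set Filter Topology Metric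
open scoped BigOperators InnerProductSpace Classical
open H14
open T55 (af Sq SqH SqV Cells Nbr vert)
open Pool.Agent.MP_4a6971_al.H83 (PArc)

theorem chain_good_int {E V : Type} [NormedAddCommGroup E] [NormedSpace ℝ E] [Fintype V]
    {Λ : Lens} {φ : ℂ → E} {L β η : ℝ} {B : Set V} {R : V → V → ℝ} {T : V → ℂ} {F : V → E}
    (h : Chain Λ φ L β η B R T F) {a : V} (ha : a ∉ B) : T a ∈ interior Λ.P := by
  by_contra hn
  have hc : Convex ℝ Λ.P := Λ.convex_reg 0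
  have h0 : (0 : ℂ) ∈ interior Λ.P := mem_interior_iff_mem_nhds.2 (Λ.nhds_reg le_rfl)
  obtain ⟨f, hf⟩ := geometric_hahn_banach_open_point hc.interior isOpen_interior hn
  have hle : ∀ y ∈ Λ.P, f y ≤ f (T a) := fun y hy => by
    have h1 : y ∈ closure (interior Λ.P) := by
      rw [hc.closure_interior_eq_closure_of_nonempty_interior ⟨0, h0⟩]
      exact subset_closure hy
    exact closure_minimal (t := {y | f y ≤ f (T a)}) (fun w hw => (hf w hw).le)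
      (isClosed_le f.continuous continuous_const) h1
  have h2 := gen_map R T f.toLinearMap a
  rw [h.harmT a ha, map_zero] at h2
  have h3 := (Finset.sum_eq_zero_iff_of_nonpos fun b _ =>
    smul_nonpos_of_nonneg_of_nonpos (h.nonneg a b) (sub_nonpos.2 (hle _ (h.mem b)))).1 h2
  have h4 : ∀ b, T b = 1 ∨ T b = -1 → f (T b) = f (T a) := fun b hb => by
    have h5 := h3 b (Finset.mem_univ _)
    rw [smul_eq_mul, mul_eq_zero] at h5
    exact sub_eq_zero.1 (h5.resolve_left (h.corner a ha b hb).ne')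
  obtain ⟨b, -, hb⟩ := h.all 1 Λ.one_mem
  obtain ⟨b', -, hb'⟩ := h.all (-1) Λ.neg_mem
  have h6 := h4 b (.inl hb)
  have h7 := h4 b' (.inr hb')
  have h8 := hf 0 h0
  rw [hb] at h6
  rw [hb', map_neg] at h7
  rw [map_zero] at h8
  linarith

/-- F4. Hint: if `T a` is on the frontier, take a supporting functional
(`geometric_hahn_banach_open_point` for the interior); harmonicity puts `1` and `-1` on the
supporting line, so `0` is on it, against `Lens.ball_sub`. A segment from an interior point meets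
the frontier only in its other end (`Convex.openSegment_interior_closure_subset_interior`). -/
theorem chain_good {E V : Type} [NormedAddCommGroup E] [NormedSpace ℝ E] [Fintype V] {Λ : Lens}
    {φ : ℂ → E} {L β η : ℝ} {B : Set V} {R : V → V → ℝ} {T : V → ℂ} {F : V → E}
    (h : Chain Λ φ L β η B R T F) :
    Plan Λ B R T ∧ ∀ (𝓛 : Finset (ℂ × ℝ)) (Nd : Finset ℂ) (r : Nd → Nd → ℝ),
      Drawn Λ R T 𝓛 Nd r → Good Λ Nd r := by
  obtain ⟨k, -, -, hk⟩ := h.pot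
  have hbd : ∀ a, T a ∈ Λ.Vt ↔ a ∈ B := fun a => ⟨fun ha => by
    obtain ⟨b, hb, hab⟩ := h.all _ ha
    rwa [← h.inj hab], fun ha => (h.bd a ha).1⟩
  refine ⟨⟨h.nonneg, h.stop, abs_of_lyap h.nonneg (h := k) fun a ha => by linarith [(hk a ha).1],
    h.mem, hbd, fun v hv => (h.all v hv).imp fun b hb => hb.2, h.inj, h.harmT, h.vert,
    fun a b hab d hd => ?_⟩, fun 𝓛 Nd r hD => ⟨hD.pnet, hD.stop, fun v hv => ?_, ?_⟩⟩
  · by_contra hn
    rw [not_or] at hn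
    refine h.gen3 a b d hab hn.1 hn.2 ?_
    rw [segment_eq_image_lineMap] at hd
    obtain ⟨t, -, ht⟩ := hd
    rw [← ht, AffineMap.lineMap_apply_module']
    simp only [det2, add_sub_cancel_right, Complex.smul_re, Complex.smul_im, smul_eq_mul]
    ring
  · obtain ⟨b, -, rfl⟩ := h.all v hv
    exact hD.old b
  · rintro z ⟨p, p', hp, hz⟩ hf
    obtain ⟨a, b, hab, hs⟩ := hD.sub p p' hp
    have ha := chain_good_int h (a := a) fun ha => hab.ne' (h.stop a ha b)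
    have hz' := hs hz
    rw [← insert_endpoints_openSegment] at hz'
    rcases hz' with rfl | rfl | hz'
    · exact absurd ha hf.2
    · exact (hbd b).2 (by_contra fun hb => hf.2 (chain_good_int h hb))
    · exact absurd ((Λ.convex_reg 0).openSegment_interior_self_subset_interior ha (h.mem b) hz')
        hf.2

theorem build'_mis {V : Type} [Fintype V] (R : V → V → ℝ) {T : V → ℂ} {F : V → ℝ} {L η : ℝ}
    (hL : 0 ≤ L) (hη : 0 ≤ η) (hF : ∀ a b, |F a - F b| ≤ L * ‖T a - T b‖ + η) :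
    Mis R T F fun e => L * ‖T e.2 - T e.1‖ + η := by
  have k1 : ∀ {A B C K x : ℝ}, x ∈ Icc (0 : ℝ) 1 → |A - C| ≤ K → |B - C| ≤ K →
      |AffineMap.lineMap A B x - C| ≤ K := fun {A B C K x} hx h1 h2 => by
    rw [AffineMap.lineMap_apply_module, smul_eq_mul, smul_eq_mul,
      show (1 - x) * A + x * B - C = (1 - x) * (A - C) + x * (B - C) by ring]
    refine (abs_add_le _ _).trans ?_
    rw [abs_mul, abs_mul, abs_of_nonneg hx.1, abs_of_nonneg (sub_nonneg.2 hx.2)]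
    have h3 := mul_le_mul_of_nonneg_left h1 (sub_nonneg.2 hx.2)
    have h4 := mul_le_mul_of_nonneg_left h2 hx.1
    linarith
  have k3 : ∀ (x y : ℂ), ∀ t ∈ Icc (0 : ℝ) 1, ‖x - AffineMap.lineMap x y t‖ ≤ ‖y - x‖ ∧
      ‖y - AffineMap.lineMap x y t‖ ≤ ‖y - x‖ := fun x y t ⟨h1, h2⟩ => by
    rw [← dist_eq_norm x, ← dist_eq_norm y (AffineMap.lineMap x y t), dist_left_lineMap,
      dist_right_lineMap, dist_comm, dist_eq_norm, Real.norm_of_nonneg h1,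
      Real.norm_of_nonneg (sub_nonneg.2 h2)]
    exact ⟨mul_le_of_le_one_left (norm_nonneg _) h2,
      mul_le_of_le_one_left (norm_nonneg _) (sub_le_self _ h1)⟩
  intro a b a' b' _ _ t ht t' ht' h
  have k4 : ∀ c d, ‖T c - AffineMap.lineMap (T a) (T b) t‖ ≤ ‖T b - T a‖ →
      ‖T d - AffineMap.lineMap (T a') (T b') t'‖ ≤ ‖T b' - T a'‖ →
      |F d - F c| ≤ (L * ‖T b - T a‖ + η) + (L * ‖T b' - T a'‖ + η) := fun c d h1 h2 => by
    have h3 : ‖T d - T c‖ ≤ ‖T b - T a‖ + ‖T b' - T a'‖ := by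
      rw [show T d - T c = (T d - AffineMap.lineMap (T a') (T b') t') -
        (T c - AffineMap.lineMap (T a) (T b) t) by rw [h]; ring]
      exact (norm_sub_le _ _).trans (by linarith)
    have h4 := mul_le_mul_of_nonneg_left h3 hL
    have h5 := hF d c
    linarith
  refine k1 ht ?_ ?_
  · rw [abs_sub_comm]
    exact k1 ht' (k4 _ _ (k3 _ _ t ht).1 (k3 _ _ t' ht').1) (k4 _ _ (k3 _ _ t ht).1 (k3 _ _ t' ht').2)
  · rw [abs_sub_comm]
    exact k1 ht' (k4 _ _ (k3 _ _ t ht).2 (k3 _ _ t' ht').1) (k4 _ _ (k3 _ _ t ht).2 (k3 _ _ t' ht').2)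

/-- F5. Hint: as the second half of `build`: `build_const`, `draw`, `PNet.kink_sum`,
`α (a, b) = L ‖T b - T a‖ + η` (compare `ext_close`), a norming functional. -/
theorem build' {E : Type} [NormedAddCommGroup E] [NormedSpace ℝ E] (Λ : Lens) (φ : ℂ → E)
    {L₀ : ℝ} (hL₀ : 0 ≤ L₀) (hφ : ∀ a ∈ Λ.Vt, ∀ b ∈ Λ.Vt, ‖φ a - φ b‖ ≤ L₀ * ‖a - b‖) (K : ℕ)
    {ε : ℝ} (hε : 0 < ε) :
    ∃ β > 0, ∀ (V : Type) [Fintype V] (B : Set V) (R : V → V → ℝ) (T : V → ℂ) (F : V → E)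
      (L η : ℝ), 0 ≤ L → 0 ≤ η → Chain Λ φ L β η B R T F → ∀ Z₀ : Finset V,
      (∀ z ∈ Z₀, z ∉ B) → Z₀.card ≤ K → ∀ 𝓛 : Finset (ℂ × ℝ),
      ∃ (Nd : Finset ℂ) (r : Nd → Nd → ℝ) (g : Nd → E), Drawn Λ R T 𝓛 Nd r ∧
        (∀ p : Nd, (p : ℂ) ∉ Λ.Vt → gen r g p = 0) ∧ (∀ p : Nd, (p : ℂ) ∈ Λ.Vt → g p = φ p) ∧
        ∀ z ∈ Z₀, ∃ p : Nd, (p : ℂ) = T z ∧ ‖g p - F z‖ ≤ ε := by
  obtain ⟨lam, hl, β, hβ, hconst⟩ := build_const
    (C := (Λ.Vt.card : ℝ) ^ 2 * (Real.pi * (L₀ / Λ.c₀ + 1) ^ 2)) (K := (K : ℝ) + 1)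
    (by positivity) (by positivity) hε
  refine ⟨β, hβ, fun V _ B R T F L η hL hη hC Z₀ hZ hZK 𝓛 => ?_⟩
  obtain ⟨k, hk0, hkβ, hk⟩ := hC.pot
  obtain ⟨Nd, r, hD, hest⟩ := draw (chain_good hC).1 𝓛 Z₀ hZK
  have hN := hD.pnet
  obtain ⟨g, hg1, hg2⟩ : ∃ g : Nd → E, (∀ p : Nd, (p : ℂ) ∉ Λ.Vt → gen r g p = 0) ∧
      ∀ p : Nd, (p : ℂ) ∈ Λ.Vt → g p = φ p :=
    ⟨harm r {p : Nd | (p : ℂ) ∈ Λ.Vt} (fun p => φ p),
      fun p hp => harm_gen hN.nonneg hN.abs _ hp, fun p hp => harm_bd hN.nonneg hN.abs _ hp⟩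
  refine ⟨Nd, r, g, hD, hg1, hg2, fun z hz => ⟨⟨T z, hD.old z⟩, rfl, ?_⟩⟩
  obtain ⟨l, hl1, hl2⟩ := exists_dual_vector'' ℝ (g ⟨T z, hD.old z⟩ - F z)
  have hll : ∀ x : E, |l x| ≤ ‖x‖ := fun x =>
    (l.le_opNorm x).trans (mul_le_of_le_one_left (norm_nonneg _) hl1)
  have hlg : ∀ p : Nd, (p : ℂ) ∉ Λ.Vt → gen r (fun p => l (g p)) p = 0 := fun p hp => by
    have := gen_map r g l.toLinearMap p
    rw [hg1 p hp, map_zero] at this
    exact this
  have key := hest (fun p => l (g p)) (fun a => l (F a)) k (fun e => L * ‖T e.2 - T e.1‖ + η)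
    ((Λ.Vt.card : ℝ) ^ 2 * (Real.pi * (L₀ / Λ.c₀ + 1) ^ 2)) lam β hl hlg
    (fun b hb p hp => by
      show l (g p) = l (F b)
      rw [hg2 p (hp ▸ (hC.bd b hb).1), (hC.bd b hb).2, hp])
    (fun A hA => hN.kink_sum hlg hL₀ (fun a b ha hb => by
      rw [← map_sub, hg2 a ha, hg2 b hb]
      exact (hll _).trans (hφ _ ha _ hb)) hA)
    (build'_mis R hL hη fun a b => by
      rw [← map_sub]
      exact (hll _).trans (hC.lip a b))
    (fun a => ⟨hk0 a, hkβ a⟩)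
    (fun a ha => ⟨((congrArg abs (gen_map R F l.toLinearMap a)).trans_le (hll _)).trans
      (hk a ha).2.1, (hk a ha).2.2⟩) z hz (hZ z hz) ⟨T z, hD.old z⟩ rfl
  rw [← map_sub, hl2] at key
  exact ((le_abs_self _).trans key).trans hconst

theorem stageB'_side {Λ : Lens} {V : Type} [Fintype V] {R : V → V → ℝ} {T : V → ℂ}
    {𝓛 : Finset (ℂ × ℝ)} {Nd : Finset ℂ} {r : Nd → Nd → ℝ} (hD : Drawn Λ R T 𝓛 Nd r) {p p' : Nd}
    (hp : 0 < r p p') {l : ℂ × ℝ} (hl : l ∈ 𝓛) : 0 ≤ af l p * af l p' := by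
  by_contra hn
  rw [not_le] at hn
  have hne : af l p - af l p' ≠ 0 := fun h => by
    rw [sub_eq_zero.1 h] at hn
    exact hn.not_ge (mul_self_nonneg _)
  have hsq : 0 < (af l p - af l p') ^ 2 := by positivity
  have h1 : 0 ≤ af l p / (af l p - af l p') := by
    rw [show af l p / (af l p - af l p') = af l p * (af l p - af l p') / (af l p - af l p') ^ 2 by
      field_simp]
    exact div_nonneg (by linarith only [mul_self_nonneg (af l p), hn]) hsq.le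
  have h2 : 0 ≤ -af l p' / (af l p - af l p') := by
    rw [show -af l p' / (af l p - af l p') =
      -af l p' * (af l p - af l p') / (af l p - af l p') ^ 2 by field_simp]
    exact div_nonneg (by linarith only [mul_self_nonneg (af l p'), hn]) hsq.le
  have h3 : -af l p' / (af l p - af l p') + af l p / (af l p - af l p') = 1 := by
    field_simp
    ring
  have h4 : ∀ a b : ℝ, a + b = 1 → af l (a • (p : ℂ) + b • (p' : ℂ)) = a * af l p + b * af l p' :=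
    fun a b hab => by
      simp only [af, mul_add, mul_smul_comm, Complex.add_re, Complex.smul_re, smul_eq_mul]
      linear_combination l.2 * hab
  rcases hD.cut p p' hp l hl (sub_ne_zero.1 hne) _ ⟨_, _, h2, h1, h3, rfl⟩ (by
    rw [h4 _ _ h3]
    field_simp
    ring) with h | h
  · have h5 := h4 _ _ h3
    rw [h, show -af l p' / (af l p - af l p') * af l p + af l p / (af l p - af l p') * af l p' = 0
      by field_simp; ring] at h5
    rw [h5, zero_mul] at hn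
    exact lt_irrefl _ hn
  · have h5 := h4 _ _ h3
    rw [h, show -af l p' / (af l p - af l p') * af l p + af l p / (af l p - af l p') * af l p' = 0
      by field_simp; ring] at h5
    rw [h5, mul_zero] at hn
    exact lt_irrefl _ hn

/-- F6. Hint: copy `stageB` with `build'`, the lines of `exists_hv`, `chain_good`, `den_corner`;
`PNet.lip` replaces the grid. -/
theorem stageB' {E : Type} [NormedAddCommGroup E] [NormedSpace ℝ E] (Λ : Lens) (φ : ℂ → E)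
    {L₀ : ℝ} (hL₀ : 0 ≤ L₀) (hφ : ∀ a ∈ Λ.Vt, ∀ b ∈ Λ.Vt, ‖φ a - φ b‖ ≤ L₀ * ‖a - b‖) {ε s : ℝ}
    (hε : 0 < ε) (hs : 0 < s) :
    ∃ δ > 0, ∀ (T : ℂ → ℂ) (F : ℂ → E), ContinuousOn T Λ.P → ContinuousOn F Λ.P →
      MapsTo T Λ.P Λ.P → (∀ b ∈ Λ.Vt, T b = b ∧ F b = φ b) →
      HP Λ.P Λ.Vt (fun x => (T x, F x)) δ → (∀ p ∈ Λ.P, ∃ x ∈ Λ.P, ‖T x - p‖ ≤ δ) →
      ∃ (Nd : Finset ℂ) (r : Nd → Nd → ℝ) (g : Nd → E) (G : ℂ → E), Fine Λ Nd r s ∧
        (∀ p : Nd, (p : ℂ) ∉ Λ.Vt → gen r g p = 0) ∧ (∀ p : Nd, (p : ℂ) ∈ Λ.Vt → g p = φ p) ∧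
        IsExt r g G ∧ ∀ z ∈ Eg r ∪ Nd, ∀ x ∈ Λ.P,
          ‖G z - F x‖ ≤ ε + (L₀ / Λ.c₀ + 1) * ‖z - T x‖ := by
  obtain ⟨L, hLd⟩ : ∃ L : ℝ, L = L₀ / Λ.c₀ + 1 := ⟨_, rfl⟩
  have hL1 : 1 ≤ L := by
    have h1 : 0 ≤ L₀ / Λ.c₀ := div_nonneg hL₀ Λ.c_pos.le
    linarith
  have hL0 : 0 ≤ L := by linarith only [hL1]
  obtain ⟨𝓛, -, h𝓛⟩ := exists_hv hs
  obtain ⟨σ, hs0, hs1, hs2⟩ : ∃ σ : ℝ, 0 < σ ∧ σ ≤ s / 14 ∧ 11 * L * σ ≤ ε := by
    refine ⟨min (s / 14) (ε / (11 * L)), lt_min (by positivity) (by positivity), min_le_left _ _,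
      ?_⟩
    have h1 : min (s / 14) (ε / (11 * L)) ≤ ε / (11 * L) := min_le_right _ _
    rw [le_div_iff₀ (by positivity)] at h1
    linarith
  obtain ⟨Y, hYP, hYf, hYc⟩ := finite_cover_balls_of_compact (Λ.compact_reg 0) hs0
  obtain ⟨β₀, hβ₀, hbuild⟩ := build' Λ φ hL₀ hφ hYf.toFinset.card hs0
  have hβ : 0 < min β₀ σ := lt_min hβ₀ hs0
  obtain ⟨δ₁, hδ₁, hcoarse⟩ := coarse Λ φ hL0 hβ
  obtain ⟨δ, hδ0, hδs, hδ1, hδ2⟩ : ∃ δ : ℝ, 0 < δ ∧ δ ≤ σ ∧ δ ≤ δ₁ ∧ 2 * δ * (L + 1) ≤ δ₁ := by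
    have h1 : min σ (δ₁ / (2 * (L + 1))) ≤ δ₁ / (2 * (L + 1)) := min_le_right _ _
    have h2 : 0 < min σ (δ₁ / (2 * (L + 1))) := lt_min hs0 (by positivity)
    rw [le_div_iff₀ (by positivity)] at h1
    refine ⟨min σ (δ₁ / (2 * (L + 1))), h2, min_le_left _ _, ?_, by linarith only [h1]⟩
    nlinarith only [hL1, h1, h2]
  refine ⟨δ, hδ0, fun T F hT hF hTP hb hp hsurj => ?_⟩
  have hrado : ∀ x ∈ Λ.P, ∀ y ∈ Λ.P, ‖F x - F y‖ ≤ L * ‖T x - T y‖ + 2 * δ * (L + 1) := by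
    intro x hx y hy
    have h1 := rado (D := Λ.P) (X := Λ.P) (Vt := (Λ.Vt : Set ℂ)) (M := 2) Λ.c_pos hL₀
      Subset.rfl Λ.expo (fun b hb' => (hb b hb').1)
      (fun z hz => Λ.norm_le (s := 0) (by norm_num) (hTP hz))
      (fun a ha b hb' => by
        rw [(hb a ha).2, (hb b hb').2]
        exact hφ a ha b hb') hp hx hy
    have h2 : L₀ / Λ.c₀ + 2 = L + 1 := by
      rw [hLd]
      ring
    rw [h2, ← hLd] at h1
    exact h1
  obtain ⟨V, iV, B, R, T', F', η, hη0, -, hch, hnear⟩ := hcoarse T F hT hF hTP hb (hp.mono hδ1)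
    fun x hx y hy => (hrado x hx y hy).trans (by linarith only [hδ2])
  have hnode : ∀ y ∈ Λ.P, ∃ x ∈ Λ.P, ∃ a, a ∉ B ∧ ‖T x - y‖ ≤ σ ∧ ‖T' a - T x‖ ≤ σ ∧
      ‖F' a - F x‖ ≤ σ := by
    intro y hy
    obtain ⟨x, hx, h1⟩ := hsurj y hy
    obtain ⟨a, ha, h2, h3⟩ := hnear x hx
    exact ⟨x, hx, a, ha, h1.trans hδs, h2.trans (min_le_right _ _), h3.trans (min_le_right _ _)⟩
  choose xs hxs nd hnd using hnode
  obtain ⟨Z₀, hZ1, hZ2, hZ3⟩ : ∃ Z₀ : Finset V, (∀ z ∈ Z₀, z ∉ B) ∧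
      Z₀.card ≤ hYf.toFinset.card ∧ ∀ (y : ℂ) (hy : y ∈ Y), nd y (hYP hy) ∈ Z₀ := by
    refine ⟨hYf.toFinset.attach.image fun y : hYf.toFinset =>
      nd y.1 (hYP (hYf.mem_toFinset.1 y.2)), fun z hz => ?_, ?_, fun y hy => ?_⟩
    · obtain ⟨y, -, rfl⟩ := Finset.mem_image.1 hz
      exact (hnd _ _).1
    · exact Finset.card_image_le.trans (by rw [Finset.card_attach])
    · exact Finset.mem_image.2 ⟨⟨y, hYf.mem_toFinset.2 hy⟩, Finset.mem_attach _ _, rfl⟩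
  obtain ⟨Nd, r, g, hD, hg, hgb, hZ⟩ := hbuild V B R T' F' L η hL0 hη0
    (stageB_mono hch (min_le_left _ _)) Z₀ hZ1 hZ2 𝓛
  have hN := hD.pnet
  obtain ⟨G, hG⟩ := hN.exists_ext g
  have hcl : ∀ p (hp' : p ∈ Λ.P), ‖T' (nd p hp') - p‖ ≤ 2 * σ := fun p hp' => by
    obtain ⟨-, h1, h2, -⟩ := hnd p hp'
    have h7 := norm_sub_le_norm_sub_add_norm_sub (T' (nd p hp')) (T (xs p hp')) p
    linarith only [h1, h2, h7]
  refine ⟨Nd, r, g, G, ⟨(chain_good hch).2 𝓛 Nd r hD, fun p p' hpp => ?_, fun p hp' => ?_,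
    fun p hp' => ⟨_, hD.old (nd p hp'), by linarith only [hcl p hp', hs0, hs1]⟩⟩, hg, hgb, hG,
    fun z hz x hx => ?_⟩
  · exact h𝓛 _ _ (Λ.norm_le (s := 0) (by norm_num) (hN.mem _ p.2))
      (Λ.norm_le (s := 0) (by norm_num) (hN.mem _ p'.2)) fun l hl => stageB'_side hD hpp hl
  · obtain ⟨b, -, hb1⟩ := hch.all 1 Λ.one_mem
    obtain ⟨b', -, hb2⟩ := hch.all (-1) Λ.neg_mem
    have h1 := hD.seg _ b (hch.corner _ (hnd p hp').1 b (.inl hb1))
    have h2 := hD.seg _ b' (hch.corner _ (hnd p hp').1 b' (.inr hb2))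
    rw [hb1] at h1
    rw [hb2] at h2
    exact (den_corner Λ (hch.mem _) hp' h1 h2).mono (by linarith only [hcl p hp', hs1])
  obtain ⟨y, hy, hxy⟩ := mem_iUnion₂.1 (hYc (hTP hx))
  have hyP : y ∈ Λ.P := hYP hy
  obtain ⟨p, hp1, hp2⟩ := hZ (nd y hyP) (hZ3 y hy)
  obtain ⟨-, h1, h2, h3⟩ := hnd y hyP
  have h4 : ‖T x - y‖ ≤ σ := by
    rw [mem_ball, dist_eq_norm] at hxy
    exact hxy.le
  have h5 : ‖T (xs y hyP) - T x‖ ≤ 2 * σ := by
    have h6 := norm_sub_le_norm_sub_add_norm_sub (T (xs y hyP)) y (T x)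
    rw [norm_sub_rev y] at h6
    linarith only [h1, h4, h6]
  have h6 : ‖z - p‖ ≤ 3 * σ + ‖z - T x‖ := by
    have h9 := norm_sub_le_norm_sub_add_norm_sub z (T x) p
    have h10 := norm_sub_le_norm_sub_add_norm_sub (T x) (T (xs y hyP)) p
    rw [norm_sub_rev (T x) (T _)] at h10
    rw [← hp1, norm_sub_rev] at h2
    linarith only [h2, h5, h9, h10]
  have h7 : ‖G z - G p‖ ≤ L * ‖z - p‖ := by
    rw [hLd]
    refine hN.lip hG hg hL₀ (fun a b ha hb' => ?_) hz (Or.inr p.2)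
    rw [hgb a ha, hgb b hb']
    exact hφ a ha b hb'
  rw [hG.1 p] at h7
  have h8 := hrado _ (hxs y hyP) x hx
  have h9 := norm_sub_le_norm_sub_add_norm_sub (G z) (g p) (F x)
  have h10 := norm_sub_le_norm_sub_add_norm_sub (g p) (F' (nd y hyP)) (F x)
  have h11 := norm_sub_le_norm_sub_add_norm_sub (F' (nd y hyP)) (F (xs y hyP)) (F x)
  have h12 := mul_le_mul_of_nonneg_left h6 hL0
  have h13 := mul_le_mul_of_nonneg_left h5 hL0
  have h14 : δ * (L + 1) ≤ σ * (L + 1) := mul_le_mul_of_nonneg_right hδs (by linarith only [hL1])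
  have h15 : 1 * σ ≤ L * σ := mul_le_mul_of_nonneg_right hL1 hs0.le
  rw [← hLd]
  linarith only [hs2, hp2, h3, h7, h8, h9, h10, h11, h12, h13, h14, h15]

end Pool.Agent.MP_17e62b_gt.G

end

section
/-! The fine network on the square. -/

namespace Pool.Agent.MP_17e62b_gt.G

open Set Filter Topology Metric
open scoped BigOperators InnerProductSpace Classical
open H14
open T55 (af Sq SqH SqV Cells Nbr vert)
open Pool.Agent.MP_4a6971_al.H83 (PArc)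

/-- F7. Hint: copy `on_lens` with `stageB'` and `s = min s₀ (ε / (1000 L))`. -/
theorem on_lens' {E : Type} [NormedAddCommGroup E] [InnerProductSpace ℝ E] [FiniteDimensional ℝ E]
    (Λ : Lens) {f ω : ℂ → E} (hf : Continuous f)
    (hMP : ∀ l : E →L[ℝ] ℝ, MP (interior Λ.P) fun z => l (f z)) (hω : Continuous ω)
    (hv : ∀ v ∈ Λ.Vt, ω v = f v)
    (hs : ∀ y ∈ frontier Λ.P, ∃ v ∈ Λ.Vt, ∃ v' ∈ Λ.Vt, y ∈ segment ℝ v v' ∧
      segment ℝ v v' ⊆ frontier Λ.P ∧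
        ∀ t ∈ Icc (0 : ℝ) 1, ω (AffineMap.lineMap v v' t) = AffineMap.lineMap (f v) (f v') t)
    {ε s₀ : ℝ} (hε : 0 < ε) (hs₀ : 0 < s₀) (hb : ∀ y ∈ frontier Λ.P, ‖ω y - f y‖ ≤ ε) :
    ∃ (h : ℂ ≃ₜ ℂ) (Nd : Finset ℂ) (r : Nd → Nd → ℝ) (g : Nd → E) (G : ℂ → E) (s : ℝ),
      h '' Λ.P = Λ.P ∧ (∀ y ∈ frontier Λ.P, h y = y) ∧ 0 < s ∧ s ≤ s₀ ∧ Fine Λ Nd r s ∧
        (∀ p : Nd, (p : ℂ) ∉ Λ.Vt → gen r g p = 0) ∧ (∀ p : Nd, (p : ℂ) ∈ Λ.Vt → g p = f p) ∧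
        IsExt r g G ∧ ∀ z ∈ Eg r ∪ Nd, ∀ x ∈ Λ.P, ‖z - h x‖ ≤ 1000 * s → ‖G z - f x‖ ≤ 7 * ε := by
  have hP : IsCompact Λ.P := Λ.compact_reg 0
  have hPc : Convex ℝ Λ.P := Λ.convex_reg 0
  have h0 : Λ.P ∈ 𝓝 (0 : ℂ) := Λ.nhds_reg le_rfl
  have hVt : ∀ b ∈ Λ.Vt, b ∈ frontier Λ.P := fun b hb =>
    Λ.mem_frontier.2 ⟨Λ.vt_mem hb, Or.inr (by rw [add_zero]; exact (Λ.vt b hb).2)⟩
  obtain ⟨L₀, l0, hL⟩ : ∃ L₀ : ℝ, 0 ≤ L₀ ∧ ∀ a ∈ Λ.Vt, ∀ b ∈ Λ.Vt,
      ‖f a - f b‖ ≤ L₀ * ‖a - b‖ := by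
    refine ⟨∑ p ∈ Λ.Vt ×ˢ Λ.Vt, ‖f p.1 - f p.2‖ / ‖p.1 - p.2‖,
      Finset.sum_nonneg fun _ _ => by positivity, fun a ha b hb => ?_⟩
    rcases eq_or_ne a b with rfl | h
    · simp
    rw [← div_le_iff₀ (norm_pos_iff.2 (sub_ne_zero.2 h))]
    exact Finset.single_le_sum (f := fun p : ℂ × ℂ => ‖f p.1 - f p.2‖ / ‖p.1 - p.2‖)
      (fun _ _ => by positivity) (Finset.mk_mem_product ha hb)
  have L0 : 0 < L₀ / Λ.c₀ + 1 := by have := Λ.c_pos; positivity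
  obtain ⟨s, s0, s1, s2⟩ : ∃ s : ℝ, 0 < s ∧ s ≤ s₀ ∧ (L₀ / Λ.c₀ + 1) * (1000 * s) ≤ ε := by
    refine ⟨min s₀ (ε / (1000 * (L₀ / Λ.c₀ + 1))), lt_min hs₀ (by positivity), min_le_left _ _, ?_⟩
    have h1 := min_le_right s₀ (ε / (1000 * (L₀ / Λ.c₀ + 1)))
    rw [le_div_iff₀ (by positivity)] at h1
    linarith
  obtain ⟨δ₁, d1, hB⟩ := stageB' Λ f l0 hL hε s0
  generalize L₀ / Λ.c₀ + 1 = L at hB L0 s2
  obtain ⟨η, η0, hH⟩ := H72.near_homeo hP hPc ⟨0, mem_interior_iff_mem_nhds.2 h0⟩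
    (lt_min d1 (div_pos hε L0))
  obtain ⟨ρ, ρ0, hρ⟩ := Metric.uniformContinuousOn_iff.1
    (hP.uniformContinuousOn_of_continuous hf.continuousOn) ε hε
  have θ0 : 0 < (1 + ρ / 4)⁻¹ := by positivity
  have θ1 : (1 + ρ / 4)⁻¹ < 1 := inv_lt_one_of_one_lt₀ (by linarith only [ρ0])
  have hr : ∀ x ∈ Λ.P, ‖f (ret Λ.P (1 + ρ / 4)⁻¹ x) - f x‖ ≤ ε := fun x hx => by
    rw [← dist_eq_norm]
    refine (hρ _ (ret_mem hP.isClosed hPc h0 θ0 x) _ hx ?_).le
    have h1 := ret_close hPc h0 θ0 θ1.le hx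
    have h2 := mul_le_mul_of_nonneg_left (Λ.norm_le (s := 0) (by norm_num) hx) ρ0.le
    rw [inv_inv] at h1
    rw [dist_eq_norm]
    linarith only [ρ0, h1, h2]
  generalize (1 + ρ / 4)⁻¹ = θ at θ0 θ1 hr
  obtain ⟨T, F, cT, cF, hT, hF, mT, hW⟩ := aug hP hPc h0 hf hMP hω
    (lt_min (lt_min d1 η0) hε) θ0 θ1
  have w1 := hW.map (ContinuousLinearMap.snd ℝ E (ℂ × E)) (ContinuousLinearMap.norm_snd_le _ _ _)
  have w2 := w1.map (ContinuousLinearMap.fst ℝ ℂ E) (ContinuousLinearMap.norm_fst_le _ _ _)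
  obtain ⟨h, h1, h2, h3⟩ := hH Λ.P hP hPc ⟨0, mem_interior_iff_mem_nhds.2 h0⟩ T id
    continuousOn_id (bijOn_id _) (fun b hb => by rw [hT b hb, id, sub_self, norm_zero]; exact η0.le)
    (fun x _ => mem_nhdsWithin_of_mem_nhds (mem_of_superset
      (cT.continuousAt.preimage_mem_nhds (closedBall_mem_nhds _ η0))
        fun y hy => mem_closedBall_iff_norm.1 hy)) fun x hx ν hν => by
      obtain ⟨b, hb, γ, hγ⟩ := (w2.mono ((min_le_left _ _).trans (min_le_right _ _))) x hx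
        (innerSL ℝ ν) (by rw [innerSL_apply_norm, hν])
      refine ⟨range γ, ?_, isPreconnected_range γ.continuous, ⟨0, γ.source⟩,
        ⟨b, ⟨1, γ.target⟩, hb⟩, ?_⟩
      · rintro _ ⟨t, rfl⟩
        exact (hγ t).1
      · rintro _ ⟨t, rfl⟩
        exact (hγ t).2
  obtain ⟨Nd, r, g, G, b1, b2, b3, b4, b5⟩ := hB T F cT.continuousOn cF.continuousOn mT
    (fun b hb => ⟨hT b (hVt b hb), (hF b (hVt b hb)).trans (hv b hb)⟩)
    ((w1.to_vertices fun y hy => by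
      obtain ⟨v, v1, v', v2, s1, s2, s3⟩ := hs y hy
      refine ⟨v, v1, v', v2, s1, s2.trans hP.isClosed.frontier_subset, fun t ht => ?_⟩
      have m := s2 (lineMap_mem_segment ℝ v v' ht)
      refine Prod.ext ?_ ?_
      · rw [AffineMap.fst_lineMap]
        change T _ = AffineMap.lineMap (T v) (T v') t
        rw [hT _ m, hT _ (hVt _ v1), hT _ (hVt _ v2)]
      · rw [AffineMap.snd_lineMap]
        change F _ = AffineMap.lineMap (F v) (F v') t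
        rw [hF _ m, hF _ (hVt _ v1), hF _ (hVt _ v2), hv _ v1, hv _ v2, s3 t ht]).mono
      ((min_le_left _ _).trans (min_le_left _ _))) fun p hp => by
      obtain ⟨x, hx, rfl⟩ := h1.symm ▸ hp
      exact ⟨x, hx, norm_sub_rev (h x) _ ▸ (h3 x hx).trans (min_le_left _ _)⟩
  refine ⟨h, Nd, r, g, G, s, h1, fun y hy => h2 hy, s0, s1, b1, b2, b3, b4,
    fun z hz w hw hzw => ?_⟩
  have e1 := b5 z hz w hw
  have e2 := mul_le_mul_of_nonneg_left ((h3 _ hw).trans (min_le_right _ _)) L0.le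
  rw [mul_div_cancel₀ _ L0.ne'] at e2
  have e3 : ‖(2⁻¹ : ℝ) • (F w - f (ret Λ.P θ w))‖ ≤ 2⁻¹ * ε + min (min δ₁ η) ε :=
    (hW.map ((2⁻¹ : ℝ) • ((ContinuousLinearMap.snd ℝ ℂ E).comp
      (ContinuousLinearMap.snd ℝ E (ℂ × E)) - ContinuousLinearMap.fst ℝ E (ℂ × E)))
      (ContinuousLinearMap.opNorm_le_bound _ zero_le_one fun p => by
        change ‖(2⁻¹ : ℝ) • (p.2.2 - p.1)‖ ≤ _
        rw [norm_smul, Real.norm_of_nonneg (by norm_num)]
        linarith only [norm_sub_le p.2.2 p.1, norm_fst_le p, norm_snd_le p, norm_snd_le p.2])).norm_le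
      (fun y hy => by
        have := ret_frontier hPc h0 θ0 hy θ1.le
        rw [one_smul] at this
        change ‖(2⁻¹ : ℝ) • (F y - f (ret Λ.P θ y))‖ ≤ _
        rw [this, hF y hy, norm_smul, Real.norm_of_nonneg (by norm_num)]
        linarith [hb y hy]) hw
  rw [norm_smul, Real.norm_of_nonneg (by norm_num)] at e3
  have e4 := norm_sub_le_norm_sub_add_norm_sub (G z) (F w) (f w)
  have e5 := norm_sub_le_norm_sub_add_norm_sub (F w) (f (ret Λ.P θ w)) (f w)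
  have e6 := mul_le_mul_of_nonneg_left (norm_sub_le_norm_sub_add_norm_sub z (h w) (T w)) L0.le
  have e7 := mul_le_mul_of_nonneg_left hzw L0.le
  linarith [hr _ hw, min_le_right (min δ₁ η) ε]

theorem chart_sq_trans (f g : ℂ ≃ₜ ℂ) (A : Set ℂ) : f.trans g '' A = g '' (f '' A) :=
  image_comp g f A

/-- F8. Charts of the square that are radial on the frontier. Hint: `rescale_disc` for the square
translated by `- (1 + I) / 2` (call it `j₂`) and for `A`; `π z = c + j₂.symm (‖z‖⁻¹ • z)`. -/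
theorem chart_sq : ∃ π : ℂ → ℂ, ContinuousOn π {z | z ≠ 0} ∧ ∀ A : Set ℂ, IsCompact A →
    Convex ℝ A → A ∈ 𝓝 (0 : ℂ) → ∃ j : ℂ ≃ₜ ℂ, j '' A = Sq ∧ j '' interior A = interior Sq ∧
      ∀ y ∈ frontier A, j y = π y := by
  have hS : IsCompact Sq := isCompact_Icc.reProdIm isCompact_Icc
  have hSc : Convex ℝ Sq := ((convex_Icc 0 1).linear_preimage Complex.reLm).inter
    ((convex_Icc 0 1).linear_preimage Complex.imLm)
  have hS0 : Sq ∈ 𝓝 (⟨1 / 2, 1 / 2⟩ : ℂ) := by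
    refine mem_of_superset ((isOpen_Ioo.reProdIm isOpen_Ioo (s := Ioo 0 1) (t := Ioo 0 1)).mem_nhds
      ⟨⟨?_, ?_⟩, ?_, ?_⟩) fun z hz => ⟨Ioo_subset_Icc_self hz.1, Ioo_subset_Icc_self hz.2⟩ <;>
    norm_num
  obtain ⟨j₂, j1, -, -⟩ := rescale_disc
    ((Homeomorph.addLeft (⟨1 / 2, 1 / 2⟩ : ℂ)).isCompact_preimage.2 hS)
    (hSc.translate_preimage_right _)
    ((Homeomorph.addLeft (⟨1 / 2, 1 / 2⟩ : ℂ)).continuous.continuousAt.preimage_mem_nhds
      (by simpa using hS0))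
  obtain ⟨k, hk⟩ : ∃ k : ℂ ≃ₜ ℂ, k '' closedBall 0 1 = Sq := by
    refine ⟨j₂.symm.trans (Homeomorph.addLeft (⟨1 / 2, 1 / 2⟩ : ℂ)), ?_⟩
    rw [← j1, chart_sq_trans, Homeomorph.image_symm, Homeomorph.preimage_image,
      Homeomorph.image_preimage]
  refine ⟨fun z => k (‖z‖⁻¹ • z), k.continuous.comp_continuousOn
    ((continuous_norm.continuousOn.inv₀ fun z hz => norm_ne_zero_iff.2 hz).smul continuousOn_id),
    fun A hA hAc hA0 => ?_⟩
  obtain ⟨j, i1, -, i3⟩ := rescale_disc hA hAc hA0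
  have e : j.trans k '' A = Sq := by rw [chart_sq_trans, i1, hk]
  refine ⟨j.trans k, e, by rw [Homeomorph.image_interior, e], fun y hy => ?_⟩
  rw [Homeomorph.trans_apply, (i3 y hy).2]

theorem stage1_near (Λ : Lens) {m k : ℕ} (hk : k ≤ m + 2) {e : ℝ} (he : e = 1 ∨ e = -1)
    (hc : vk (m + 2) k e ∈ Λ.Vt) {p : ℂ} (hp : p.im = e * Λ.up p.re) :
    dist (vk (m + 2) k e) p ≤ 3 * |tk (m + 2) k - p.re| := by
  have h1 : |e * (1 - tk (m + 2) k ^ 2)| = Λ.up (tk (m + 2) k) := (Λ.vt _ hc).2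
  have h2 : 0 ≤ 1 - tk (m + 2) k ^ 2 :=
    sub_nonneg.2 ((sq_le_one_iff_abs_le_one _).2 (exists_lens_abs hk))
  have h3 : |e| = 1 := by rcases he with rfl | rfl <;> simp
  rw [abs_mul, h3, one_mul, abs_of_nonneg h2] at h1
  have h4 := Complex.norm_le_abs_re_add_abs_im (vk (m + 2) k e - p)
  have h5 : (vk (m + 2) k e - p).im = e * (Λ.up (tk (m + 2) k) - Λ.up p.re) := by
    rw [Complex.sub_im, hp, ← h1, mul_sub e _ (Λ.up p.re)]
    rfl
  have h6 : (vk (m + 2) k e - p).re = tk (m + 2) k - p.re := rfl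
  rw [h5, h6, abs_mul, h3, one_mul] at h4
  rw [dist_eq_norm]
  linarith only [Λ.lip (tk (m + 2) k) p.re, h4]

/-- F9. Hint: as `on_disc`. `φ = f ∘ π` is uniformly continuous on
`closedBall 0 2 \ ball 0 (1 / 4)`; choose `m`, `exists_cdata`. Then `exists_bul`, `chart_sq`,
`on_lens'` for `f ∘ j`, `κ = j.symm.trans h`. A vertex over the `k`-th coarse interval is within
`6 / (m + 2)` of the two coarse corners (`Λ.lip`), and `om I v` lies between their values. -/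
theorem stage1 {E : Type} [NormedAddCommGroup E] [InnerProductSpace ℝ E] [FiniteDimensional ℝ E]
    {f : ℂ → E} (hf : Continuous f) (hMP : ∀ l : E →L[ℝ] ℝ, MP (interior Sq) fun z => l (f z))
    {e : ℝ} (he : 0 < e) :
    ∃ (m : ℕ) (L : ℝ) (I : Bool → ℝ → E), CData m L I ∧ ∀ b, 0 < b → b ≤ 1 → ∀ η > 0, ∀ s₀ > 0,
      ∃ (Λ : Lens) (L₀ : Finset (ℂ × ℝ)) (κ : ℂ ≃ₜ ℂ) (Nd : Finset ℂ) (r : Nd → Nd → ℝ)
        (g : Nd → E) (G : ℂ → E) (s : ℝ), Bul Λ m b ∧ Poly Λ L₀ ∧ κ '' Sq = Λ.P ∧ 0 < s ∧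
        s ≤ s₀ ∧ Fine Λ Nd r s ∧ (∀ p : Nd, (p : ℂ) ∉ Λ.Vt → gen r g p = 0) ∧ IsExt r g G ∧
        (∀ p : Nd, (p : ℂ) ∈ Λ.Vt → ‖g p - om I p‖ ≤ e) ∧
        ∀ z ∈ Eg r ∪ Nd, ∀ x ∈ Λ.P, ‖z - x‖ ≤ 1000 * s → ‖G z - f (κ.symm x)‖ ≤ η := by
  obtain ⟨π, cπ, hπ⟩ := chart_sq
  have hK : IsCompact (closedBall (0 : ℂ) 2 \ ball 0 (1 / 4)) :=
    (isCompact_closedBall _ _).diff isOpen_ball
  have hg := Metric.uniformContinuousOn_iff.1 (hK.uniformContinuousOn_of_continuous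
    (hf.comp_continuousOn (cπ.mono fun z hz h => hz.2 (by
      rw [mem_ball_zero_iff, h, norm_zero]; norm_num))))
  obtain ⟨ρ₁, ρ1, hρ₁⟩ := hg e he
  obtain ⟨m, hm⟩ := exists_nat_gt (6 / ρ₁)
  have hm0 : (0 : ℝ) < 2 / (m + 2 : ℕ) := by positivity
  have hm1 : 3 * ((2 : ℝ) / (m + 2 : ℕ)) < ρ₁ := by
    rw [div_lt_iff₀ ρ1] at hm
    rw [← mul_div_assoc, div_lt_iff₀ (by positivity)]
    push_cast
    linarith
  obtain ⟨L, I, hI, hc⟩ := exists_cdata m fun z => f (π z)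
  refine ⟨m, L, I, hI, fun b b0 b1 η η0 s₀ hs₀ => ?_⟩
  obtain ⟨ρ, ρ0, hρ⟩ := hg (η / 7) (by positivity)
  obtain ⟨Λ, L₀, hB, hL, hΛ⟩ := exists_bul (E := E) m b0 b1 (half_pos ρ0)
  have hP : IsCompact Λ.P := Λ.compact_reg 0
  obtain ⟨j, j1, j2, j3⟩ := hπ _ hP (Λ.convex_reg 0) (Λ.nhds_reg le_rfl)
  obtain ⟨ω, w1, w2, w3⟩ := hΛ fun z => f (j z)
  have hF : frontier Λ.P ⊆ closedBall 0 2 \ ball 0 (1 / 4) := fun y hy =>
    ⟨mem_closedBall_zero_iff.2 (Λ.norm_le (s := 0) (by norm_num) (hP.isClosed.frontier_subset hy)),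
      fun h => hy.2 (interior_maximal (ball_subset_closedBall.trans (Λ.ball_sub le_rfl))
        isOpen_ball h)⟩
  have hVt : ∀ b ∈ Λ.Vt, b ∈ frontier Λ.P := fun b hb =>
    Λ.mem_frontier.2 ⟨Λ.vt_mem hb, Or.inr (by rw [add_zero]; exact (Λ.vt b hb).2)⟩
  obtain ⟨h, Nd, r, g, G, s, h1, -, s0, s1, c1, c2, c3, c4, c5⟩ := on_lens' Λ
    (f := fun z => f (j z)) (hf.comp j.continuous)
    (fun l => ((hMP l).comp (j.toOpenPartialHomeomorph.restrOpen _ isOpen_interior)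
      fun z hz => j2 ▸ ⟨j.symm z, hz.2, j.apply_symm_apply z⟩).mono fun z hz => ⟨mem_univ _, hz⟩)
    w1 w2 (fun y hy => by
      obtain ⟨v, v1, v', v2, -, h⟩ := w3 y hy
      exact ⟨v, v1, v', v2, h⟩) (by positivity : 0 < η / 7) hs₀ fun y hy => by
      obtain ⟨v, -, v', -, s0, s1, s2, s3⟩ := w3 y hy
      have key : ∀ u ∈ segment ℝ v v', f (j u) ∈ closedBall (f (j y)) (η / 7) := fun u hu => by
        rw [j3 u (s2 hu), j3 y hy]
        refine (hρ _ (hF (s2 hu)) _ (hF hy) ?_).le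
        have a1 := dist_add_dist_of_mem_segment hu
        have a2 := dist_add_dist_of_mem_segment s1
        have a3 := dist_triangle_left u y v
        have a4 := dist_triangle_right u y v'
        rw [dist_eq_norm v v'] at a1 a2
        linarith only [ρ0, s0, a1, a2, a3, a4]
      obtain ⟨t, ht, rfl⟩ := segment_eq_image_lineMap ℝ v v' ▸ s1
      rw [s3 t ht, ← mem_closedBall_iff_norm]
      exact (convex_closedBall _ _).segment_subset (key v (left_mem_segment _ _ _))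
        (key v' (right_mem_segment _ _ _)) (lineMap_mem_segment ℝ _ _ ht)
  refine ⟨Λ, L₀, j.symm.trans h, Nd, r, g, G, s, hB, hL, ?_, s0, s1, c1, c2, c4, fun p hp => ?_,
    fun z hz x hx hzx => ?_⟩
  · rw [← j1, chart_sq_trans, Homeomorph.image_symm, Homeomorph.preimage_image,
      h1]
  · obtain ⟨-, -, -, -, hV⟩ := hB
    obtain ⟨k, hk, t, ht, hx⟩ := exists_lens_cover m (Λ.vt _ hp).1
    have hl : (p : ℂ).re = AffineMap.lineMap (tk (m + 2) k) (tk (m + 2) (k + 1)) t := by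
      rw [hx, AffineMap.lineMap_apply_ring', exists_lens_succ]
      ring
    have key : ∀ σ : ℝ, σ = 1 ∨ σ = -1 → (p : ℂ).im = σ * Λ.up (p : ℂ).re →
        vk (m + 2) k σ ∈ Λ.Vt → vk (m + 2) (k + 1) σ ∈ Λ.Vt →
        ‖g p - AffineMap.lineMap (f (π (vk (m + 2) k σ))) (f (π (vk (m + 2) (k + 1) σ))) t‖ ≤ e := by
      intro σ hσ hi v1 v2
      have n1 := stage1_near Λ hk.le hσ v1 hi
      have n2 := stage1_near Λ (k := k + 1) hk hσ v2 hi
      have t0 := mul_nonneg ht.1 hm0.le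
      have t1 := mul_le_of_le_one_left hm0.le ht.2
      have a1 : |tk (m + 2) k - (p : ℂ).re| ≤ 2 / (m + 2 : ℕ) := abs_le.2 ⟨by linarith only [hx, t1], by linarith only [hm0, hx, t0]⟩
      have a2 : |tk (m + 2) (k + 1) - (p : ℂ).re| ≤ 2 / (m + 2 : ℕ) := by
        rw [exists_lens_succ]
        exact abs_le.2 ⟨by linarith only [hm0, hx, t1], by linarith only [hx, t0]⟩
      rw [c3 p hp, norm_sub_rev, ← mem_closedBall_iff_norm, j3 _ (hVt _ hp)]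
      exact (convex_closedBall _ _).segment_subset
        (hρ₁ _ (hF (hVt _ v1)) _ (hF (hVt _ hp)) (by linarith only [hm1, n1, a1])).le
        (hρ₁ _ (hF (hVt _ v2)) _ (hF (hVt _ hp)) (by linarith only [hm1, n2, a2])).le (lineMap_mem_segment ℝ _ _ ht)
    have hi := (Λ.vt _ hp).2
    unfold om
    split_ifs with h
    · rw [hl, hI.aff _ k hk t ht, (hc k hk.le).1, (hc (k + 1) hk).1]
      rw [abs_of_nonneg h] at hi
      exact key 1 (Or.inl rfl) (by linarith only [hi]) (hV k hk.le).1 (hV (k + 1) hk).1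
    · rw [hl, hI.aff _ k hk t ht, (hc k hk.le).2, (hc (k + 1) hk).2]
      rw [abs_of_neg (not_le.1 h)] at hi
      exact key (-1) (Or.inr rfl) (by linarith only [hi]) (hV k hk.le).2 (hV (k + 1) hk).2
  · obtain ⟨y, hy, rfl⟩ := h1.symm ▸ hx
    have e1 : (j.symm.trans h).symm (h y) = j y := by
      rw [Homeomorph.symm_apply_eq, Homeomorph.trans_apply, j.symm_apply_apply]
    have e2 := c5 z hz y hy hzx
    rw [e1]
    linarith only [e2]

end Pool.Agent.MP_17e62b_gt.G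

end

section
/-! Nets in general position. -/

namespace Pool.Agent.MP_17e62b_gt.G

open Set Filter Topology Metric
open scoped BigOperators InnerProductSpace Classical
open H14
open T55 (af Sq SqH SqV Cells Nbr vert)
open Pool.Agent.MP_4a6971_al.H83 (PArc)

/-- T1. -/
theorem exists_gnet {ζ : ℝ} (hζ : 0 < ζ) : ∃ Y, GNet ζ Y := by
  obtain ⟨t, -, ht, hc⟩ := (isCompact_closedBall (0 : ℂ) 3).finite_cover_balls (half_pos hζ)
  have := ht.fintype
  obtain ⟨T, -, t2, t3, t4, t5⟩ := generic (ι := t) (fun a => (a : ℂ)) ∅ (by simp) (half_pos hζ)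
  refine ⟨Finset.univ.image T, ?_, ?_, ?_⟩
  · intro z hz
    obtain ⟨y, hy, hz'⟩ := mem_iUnion₂.1 (hc (mem_closedBall_zero_iff.2 hz))
    refine ⟨T ⟨y, hy⟩, Finset.mem_image_of_mem _ (Finset.mem_univ _), ?_⟩
    have h1 := t2 ⟨y, hy⟩
    have h2 : ‖y - z‖ < ζ / 2 := by rw [norm_sub_rev]; exact mem_ball_iff_norm.1 hz'
    calc ‖T ⟨y, hy⟩ - z‖ = ‖(T ⟨y, hy⟩ - y) + (y - z)‖ := by congr 1; ring
      _ ≤ ‖T ⟨y, hy⟩ - y‖ + ‖y - z‖ := norm_add_le _ _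
      _ ≤ ζ := by linarith only [h1, h2]
  · intro a ha b hb hab
    obtain ⟨a, -, rfl⟩ := Finset.mem_image.1 ha
    obtain ⟨b, -, rfl⟩ := Finset.mem_image.1 hb
    exact t4 a (notMem_empty _) b fun h => hab (by rw [h])
  · intro a ha b hb d hd h1 h2 h3
    obtain ⟨a, -, rfl⟩ := Finset.mem_image.1 ha
    obtain ⟨b, -, rfl⟩ := Finset.mem_image.1 hb
    obtain ⟨d, -, rfl⟩ := Finset.mem_image.1 hd
    exact t5 a (notMem_empty _) b d (fun h => h1 (by rw [h])) (fun h => h2 (by rw [h]))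
      fun h => h3 (by rw [h])

theorem exists_pts_two {a b a' b' : ℂ} (h : det2 (b - a) (b' - a') ≠ 0) :
    (segment ℝ a b ∩ segment ℝ a' b').Subsingleton := by
  rintro z ⟨h1, h2⟩ w ⟨h3, h4⟩
  rw [segment_eq_image'] at h1 h2 h3 h4
  obtain ⟨s, -, hs⟩ := h1
  obtain ⟨s', -, hs'⟩ := h2
  obtain ⟨t, -, ht⟩ := h3
  obtain ⟨t', -, ht'⟩ := h4
  simp only at hs hs' ht ht'
  have e : (s - t) • (b - a) = (s' - t') • (b' - a') := by
    rw [sub_smul, sub_smul]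
    linear_combination hs - hs' - ht + ht'
  have e1 := congrArg Complex.re e
  have e2 := congrArg Complex.im e
  simp only [Complex.smul_re, Complex.smul_im, smul_eq_mul] at e1 e2
  have e3 : (s - t) * det2 (b - a) (b' - a') = 0 := by
    unfold det2
    linear_combination (b' - a').im * e1 - (b' - a').re * e2
  have e4 : s = t := sub_eq_zero.1 ((mul_eq_zero.1 e3).resolve_right h)
  rw [← hs, ← ht, e4]

theorem exists_pts_line {a b : ℂ} {l : ℂ × ℝ} (h : af l a ≠ af l b) :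
    (segment ℝ a b ∩ {z | af l z = 0}).Subsingleton := by
  rintro z ⟨h1, h2⟩ w ⟨h3, h4⟩
  rw [segment_eq_image'] at h1 h3
  obtain ⟨s, -, rfl⟩ := h1
  obtain ⟨t, -, rfl⟩ := h3
  have e : ∀ s : ℝ, af l (a + s • (b - a)) = af l a + s * (af l b - af l a) := by
    intro s
    simp only [af, Complex.mul_re, Complex.add_re, Complex.add_im, Complex.smul_re,
      Complex.smul_im, smul_eq_mul, Complex.sub_re, Complex.sub_im]
    ring
  have h2' : af l (a + s • (b - a)) = 0 := h2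
  have h4' : af l (a + t • (b - a)) = 0 := h4
  rw [e] at h2' h4'
  have e3 : (s - t) * (af l b - af l a) = 0 := by linear_combination h2' - h4'
  have e4 : s = t := sub_eq_zero.1 ((mul_eq_zero.1 e3).resolve_right (sub_ne_zero.2 h.symm))
  simp only [e4]

theorem exists_pts_sep (X : Finset ℂ) : ∃ s > 0, ∀ x ∈ X, ∀ x' ∈ X, x ≠ x' → s ≤ ‖x - x'‖ := by
  by_cases hne : X.offDiag.Nonempty
  · obtain ⟨p, hp, hm⟩ := X.offDiag.exists_min_image (fun p => ‖p.1 - p.2‖) hne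
    refine ⟨‖p.1 - p.2‖, norm_pos_iff.2 (sub_ne_zero.2 (Finset.mem_offDiag.1 hp).2.2), ?_⟩
    intro x hx x' hx' h
    exact hm (x, x') (Finset.mem_offDiag.2 ⟨hx, hx', h⟩)
  · exact ⟨1, one_pos, fun x hx x' hx' h =>
      absurd ⟨(x, x'), Finset.mem_offDiag.2 ⟨hx, hx', h⟩⟩ hne⟩

/-- T2. -/
theorem exists_pts72 (Y : Finset ℂ) (𝓛 : Finset (ℂ × ℝ)) :
    ∃ X, Pts72 Y 𝓛 X ∧ ∃ s > 0, ∀ x ∈ X, ∀ x' ∈ X, x ≠ x' → s ≤ ‖x - x'‖ := by
  have f1 : (⋃ a ∈ Y, ⋃ b ∈ Y, ⋃ a' ∈ Y, ⋃ b' ∈ Y, ⋃ _ : det2 (b - a) (b' - a') ≠ 0,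
      segment ℝ a b ∩ segment ℝ a' b').Finite :=
    Y.finite_toSet.biUnion fun a _ => Y.finite_toSet.biUnion fun b _ =>
      Y.finite_toSet.biUnion fun a' _ => Y.finite_toSet.biUnion fun b' _ =>
        finite_iUnion fun h => (exists_pts_two h).finite
  have f2 : (⋃ a ∈ Y, ⋃ b ∈ Y, ⋃ l ∈ 𝓛, ⋃ _ : af l a ≠ af l b,
      segment ℝ a b ∩ {z | af l z = 0}).Finite :=
    Y.finite_toSet.biUnion fun a _ => Y.finite_toSet.biUnion fun b _ =>
      𝓛.finite_toSet.biUnion fun l _ => finite_iUnion fun h => (exists_pts_line h).finite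
  refine ⟨Y ∪ (f1.toFinset ∪ f2.toFinset), ⟨Finset.subset_union_left, ?_, ?_⟩, exists_pts_sep _⟩
  · intro a ha b hb a' ha' b' hb' h z h1 h2
    refine Finset.mem_union_right _ (Finset.mem_union_left _ (f1.mem_toFinset.2 ?_))
    simp only [mem_iUnion]
    exact ⟨a, ha, b, hb, a', ha', b', hb', h, h1, h2⟩
  · intro a ha b hb l hl h z h1 h2
    refine Finset.mem_union_right _ (Finset.mem_union_right _ (f2.mem_toFinset.2 ?_))
    simp only [mem_iUnion]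
    exact ⟨a, ha, b, hb, l, hl, h, h1, h2⟩

theorem round4_dir (l : ℂ →L[ℝ] ℝ) :
    ∃ i : Fin 4, ∀ w : ℂ, l w ≤ 2 * ‖w‖ * l (Complex.I ^ (i : ℕ)) := by
  have e : ∀ w : ℂ, l w = w.re * l 1 + w.im * l Complex.I := by
    intro w
    conv_lhs => rw [← Complex.re_add_im w]
    rw [map_add]
    have h1 : ((w.re : ℝ) : ℂ) = w.re • (1 : ℂ) := by simp
    have h2 : ((w.im : ℝ) : ℂ) * Complex.I = w.im • Complex.I := by simp
    rw [h2, h1, map_smul, map_smul, smul_eq_mul, smul_eq_mul]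
  have key : ∀ M : ℝ, |l 1| ≤ M → |l Complex.I| ≤ M → ∀ w : ℂ, l w ≤ 2 * ‖w‖ * M := by
    intro M h1 h2 w
    rw [e w]
    have a1 : w.re * l 1 ≤ ‖w‖ * M := (le_abs_self _).trans (by
      rw [abs_mul]; exact mul_le_mul (Complex.abs_re_le_norm w) h1 (abs_nonneg _) (norm_nonneg _))
    have a2 : w.im * l Complex.I ≤ ‖w‖ * M := (le_abs_self _).trans (by
      rw [abs_mul]; exact mul_le_mul (Complex.abs_im_le_norm w) h2 (abs_nonneg _) (norm_nonneg _))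
    linarith
  have p2 : l (Complex.I ^ 2) = -l 1 := by rw [Complex.I_sq, map_neg]
  have p3 : l (Complex.I ^ 3) = -l Complex.I := by rw [Complex.I_pow_three, map_neg]
  rcases le_total |l 1| |l Complex.I| with h | h
  · rcases le_total 0 (l Complex.I) with h' | h'
    · refine ⟨1, ?_⟩
      rw [abs_of_nonneg h'] at h
      simpa only [Fin.isValue, Fin.coe_ofNat_eq_mod, Nat.one_mod, pow_one] using key _ h (abs_of_nonneg h').le
    · refine ⟨3, ?_⟩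
      rw [abs_of_nonpos h'] at h
      have := key _ h (abs_of_nonpos h').le
      rw [← p3] at this
      exact this
  · rcases le_total 0 (l 1) with h' | h'
    · refine ⟨0, ?_⟩
      rw [abs_of_nonneg h'] at h
      simpa only [Fin.isValue, Fin.coe_ofNat_eq_mod, Nat.zero_mod, pow_zero] using key _ (abs_of_nonneg h').le h
    · refine ⟨2, ?_⟩
      rw [abs_of_nonpos h'] at h
      have := key _ (abs_of_nonpos h').le h
      rw [← p2] at this
      exact this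

/-- T3. -/
theorem round4 {c z : ℂ} {ζ : ℝ} (hζ : 0 < ζ) {y : Fin 4 → ℂ}
    (hy : ∀ i, ‖y i - (c + 8 * ζ * Complex.I ^ (i : ℕ))‖ ≤ 2 * ζ) (hz : ‖z - c‖ ≤ ζ) :
    ∃ b : Fin 4 → ℝ, (∀ i, 0 < b i) ∧ ∑ i, b i = 1 ∧ ∑ i, b i • y i = z := by
  set e : Fin 4 → ℂ := fun i => y i - (c + 8 * ζ * Complex.I ^ (i : ℕ)) with he
  have hs : ∑ i, y i = 4 * c + ∑ i, e i := by
    simp only [he, Fin.sum_univ_four]
    have h0 : ((0 : Fin 4) : ℕ) = 0 := rfl
    have h1 : ((1 : Fin 4) : ℕ) = 1 := rfl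
    have h2 : ((2 : Fin 4) : ℕ) = 2 := rfl
    have h3 : ((3 : Fin 4) : ℕ) = 3 := rfl
    rw [h0, h1, h2, h3, Complex.I_sq, Complex.I_pow_three]
    ring
  have hE : ‖∑ i, e i‖ ≤ 8 * ζ := by
    refine (norm_sum_le _ _).trans ?_
    have := Finset.sum_le_sum fun i (_ : i ∈ (Finset.univ : Finset (Fin 4))) => hy i
    simp only [Finset.sum_const, Finset.card_univ, Fintype.card_fin, nsmul_eq_mul] at this
    refine this.trans ?_
    push_cast
    linarith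
  set z' : ℂ := c + ((5 / 4 : ℝ) • (z - c) - (1 / 16 : ℝ) • ∑ i, e i) with hz'
  have hn : ‖(5 / 4 : ℝ) • (z - c) - (1 / 16 : ℝ) • ∑ i, e i‖ ≤ 7 / 4 * ζ := by
    refine (norm_sub_le _ _).trans ?_
    rw [norm_smul, norm_smul, Real.norm_of_nonneg (by norm_num), Real.norm_of_nonneg (by norm_num)]
    linarith only [hz, hE]
  obtain ⟨p, p1, p2, -, p4⟩ := hull_approx y univ z' le_rfl (by
    intro l _
    obtain ⟨i, hi⟩ := round4_dir l
    refine ⟨i, mem_univ _, ?_⟩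
    have hM : 0 ≤ l (Complex.I ^ (i : ℕ)) := by
      have a := hi 1
      have b := hi (-1)
      rw [map_neg, norm_neg] at b
      rw [norm_one] at a b
      linarith only [a, b]
    have a := hi ((5 / 4 : ℝ) • (z - c) - (1 / 16 : ℝ) • ∑ i, e i)
    have b := hi (-e i)
    rw [map_neg, norm_neg] at b
    have ey : y i = c + (8 * ζ) • Complex.I ^ (i : ℕ) + e i := by
      simp only [he, Complex.real_smul]
      push_cast
      ring
    have a' := mul_le_mul_of_nonneg_right hn hM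
    have b' := mul_le_mul_of_nonneg_right (hy i) hM
    have c' := mul_nonneg hζ.le hM
    rw [ey, hz', map_add, map_add, map_add, map_smul l (8 * ζ), smul_eq_mul]
    linarith only [a, b, a', b', c'])
  have p5 : ∑ i, p i • y i = z' := sub_eq_zero.1 (norm_le_zero_iff.1 p4)
  refine ⟨fun i => 4 / 5 * p i + 1 / 20, fun i => by have := p1 i; positivity, ?_, ?_⟩
  · rw [Finset.sum_add_distrib, ← Finset.mul_sum, p2]
    simp only [Finset.sum_const, Finset.card_univ, Fintype.card_fin, nsmul_eq_mul]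
    norm_num
  · simp only [add_smul, mul_smul]
    rw [Finset.sum_add_distrib, ← Finset.smul_sum, ← Finset.smul_sum, p5, hs, hz']
    simp only [Complex.real_smul]
    push_cast
    ring

/-- T4. The same as a law on a finite set `W`, supported in `S`. -/
theorem round_law {W : Finset ℂ} {S : Set ℂ} {c z : ℂ} {ζ : ℝ} (hζ : 0 < ζ)
    (hS : ∀ i : Fin 4, ∃ y ∈ W, y ∈ S ∧ ‖y - (c + 8 * ζ * Complex.I ^ (i : ℕ))‖ ≤ 2 * ζ)
    (hz : ‖z - c‖ ≤ ζ) :
    ∃ b : W → ℝ, (∀ q, 0 ≤ b q) ∧ ∑ q, b q = 1 ∧ ∑ q, b q • (q : ℂ) = z ∧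
      (∀ q, b q ≠ 0 → (q : ℂ) ∈ S ∧ 6 * ζ ≤ ‖(q : ℂ) - c‖ ∧ ‖(q : ℂ) - c‖ ≤ 10 * ζ) ∧
      (∃ q, 0 < b q ∧ ‖(q : ℂ) - (c + 8 * ζ)‖ ≤ 2 * ζ) ∧
      ∃ q, 0 < b q ∧ ‖(q : ℂ) - (c - 8 * ζ)‖ ≤ 2 * ζ := by
  choose y y1 y2 y3 using hS
  obtain ⟨b, b1, b2, b3⟩ := round4 hζ y3 hz
  set Y : Fin 4 → W := fun i => ⟨y i, y1 i⟩ with hY
  have nn : ∀ q : W, ∀ i ∈ (Finset.univ : Finset (Fin 4)), 0 ≤ if Y i = q then b i else 0 := by
    intro q i _
    split_ifs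
    · exact (b1 i).le
    · exact le_rfl
  have pos : ∀ i, 0 < ∑ j, if Y j = Y i then b j else 0 := by
    intro i
    refine lt_of_lt_of_le ?_ (Finset.single_le_sum (nn (Y i)) (Finset.mem_univ i))
    rw [if_pos rfl]
    exact b1 i
  refine ⟨fun q => ∑ i, if Y i = q then b i else 0, fun q => Finset.sum_nonneg (nn q), ?_, ?_, ?_,
    ⟨Y 0, pos 0, ?_⟩, Y 2, pos 2, ?_⟩
  · rw [Finset.sum_comm, ← b2]
    exact Finset.sum_congr rfl fun i _ => by simp only [Finset.univ_eq_attach, Finset.sum_ite_eq, Finset.mem_attach, ↓ reduceIte]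
  · simp only [Finset.sum_smul]
    rw [Finset.sum_comm, ← b3]
    refine Finset.sum_congr rfl fun i _ => ?_
    simp only [ite_smul, zero_smul, Finset.sum_ite_eq, Finset.mem_univ, if_true]
    rfl
  · intro q hq
    obtain ⟨i, -, hi⟩ := Finset.exists_ne_zero_of_sum_ne_zero hq
    have e : Y i = q := by
      by_contra h
      exact hi (if_neg h)
    have e' : (q : ℂ) = y i := by rw [← e]
    have n8 : ‖(8 * ζ * Complex.I ^ (i : ℕ) : ℂ)‖ = 8 * ζ := by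
      rw [norm_mul, norm_mul, norm_pow, Complex.norm_I, one_pow, mul_one, Complex.norm_real,
        Real.norm_of_nonneg hζ.le]
      norm_num
    have h := y3 i
    rw [← sub_sub] at h
    have h1 := abs_norm_sub_norm_le (y i - c) (8 * ζ * Complex.I ^ (i : ℕ))
    rw [n8] at h1
    have h2 := abs_le.1 (h1.trans h)
    rw [e']
    exact ⟨y2 i, by linarith only [h2.1], by linarith only [h2.2]⟩
  · have h := y3 0
    have h0 : ((0 : Fin 4) : ℕ) = 0 := rfl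
    rw [h0, pow_zero, mul_one] at h
    exact h
  · have h := y3 2
    have h2 : ((2 : Fin 4) : ℕ) = 2 := rfl
    rw [h2, Complex.I_sq, mul_neg_one, ← sub_eq_add_neg] at h
    exact h

/-- T6. -/
theorem exists_lat (Nd : Finset ℂ) {ℓ : Set ℂ} (hℓ : ℓ.Nonempty) {Y : Finset ℂ} {k ζ : ℝ}
    (hζ : 0 < ζ) (hk : 100 * ζ ≤ k) (hY : GNet ζ Y) (h3 : ∀ z, infDist z ℓ ≤ 20 * k → ‖z‖ ≤ 3) :
    ∃ La W, Lat Nd ℓ Y k ζ La W := by
  have lip : ∀ p q : ℂ, infDist p ℓ ≤ infDist q ℓ + ‖p - q‖ := fun p q => by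
    rw [← dist_eq_norm]; exact infDist_le_infDist_add_dist
  set A : Finset ℂ := Y.filter fun y => infDist y ℓ ≤ 12 * k with hA
  set K : Finset ℂ := Nd.filter fun p => 9 * k ≤ infDist p ℓ with hK
  set c : A ⊕ K → ℂ := Sum.elim (fun a => a) (fun p => p) with hc
  set B : Set (A ⊕ K) := {j | Sum.elim (fun a : A => infDist (a : ℂ) ℓ ≤ 4 * k) (fun _ => True) j}
    with hB
  have inj : InjOn c B := by
    rintro (a | a) ha (b | b) hb h
    · exact congrArg Sum.inl (Subtype.ext h)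
    · have h1 : infDist (a : ℂ) ℓ ≤ 4 * k := ha
      have h2 := (Finset.mem_filter.1 b.2).2
      have h' : (a : ℂ) = b := h
      rw [h'] at h1
      linarith
    · have h1 : infDist (b : ℂ) ℓ ≤ 4 * k := hb
      have h2 := (Finset.mem_filter.1 a.2).2
      have h' : (a : ℂ) = b := h
      rw [h'] at h2
      linarith only [hζ, hk, h1, h2]
    · exact congrArg Sum.inr (Subtype.ext h)
  obtain ⟨T, t1, t2, t3, t4, t5⟩ := generic c B inj hζ
  have tK : ∀ p : K, T (Sum.inr p) = p := fun p => t1 (Sum.inr p) trivial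
  have tA : ∀ a : A, ‖T (Sum.inl a) - a‖ ≤ ζ := fun a => t2 (Sum.inl a)
  have sur : ∀ b ∈ (Finset.univ.image fun a : A => T (Sum.inl a)) ∪ K, ∃ j, T j = b := by
    intro b hb
    rcases Finset.mem_union.1 hb with h | h
    · obtain ⟨a, -, rfl⟩ := Finset.mem_image.1 h
      exact ⟨_, rfl⟩
    · exact ⟨Sum.inr ⟨b, h⟩, tK _⟩
  refine ⟨Finset.univ.image fun a : A => T (Sum.inl a),
    (Finset.univ.image fun a : A => T (Sum.inl a)) ∪ K, ?_, ?_, ?_, ?_, ?_⟩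
  · intro p
    exact Finset.mem_union.trans (or_congr Iff.rfl Finset.mem_filter)
  · intro p hp hN
    obtain ⟨a, -, rfl⟩ := Finset.mem_image.1 hp
    by_contra h
    have := tK ⟨T (Sum.inl a), Finset.mem_filter.2 ⟨hN, not_lt.1 h⟩⟩
    exact Sum.inr_ne_inl (t3 this)
  · intro p hp
    obtain ⟨a, -, rfl⟩ := Finset.mem_image.1 hp
    linarith [lip (T (Sum.inl a)) a, tA a, (Finset.mem_filter.1 a.2).2]
  · intro z hz
    obtain ⟨y, hy, hyz⟩ := hY.net z (h3 z (by linarith))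
    have hyA : y ∈ A := Finset.mem_filter.2 ⟨hy, by linarith [lip y z]⟩
    refine ⟨T (Sum.inl ⟨y, hyA⟩), Finset.mem_image_of_mem _ (Finset.mem_univ _), ?_⟩
    calc ‖T (Sum.inl ⟨y, hyA⟩) - z‖ = ‖(T (Sum.inl ⟨y, hyA⟩) - y) + (y - z)‖ := by congr 1; ring
      _ ≤ ‖T (Sum.inl ⟨y, hyA⟩) - y‖ + ‖y - z‖ := norm_add_le _ _
      _ ≤ 2 * ζ := by linarith only [tA ⟨y, hyA⟩, hyz]
  · intro p hp
    obtain ⟨a, -, rfl⟩ := Finset.mem_image.1 hp
    by_cases h : infDist (a : ℂ) ℓ ≤ 4 * k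
    · have e : T (Sum.inl a) = a := t1 (Sum.inl a) h
      rw [e]
      exact Or.inl ⟨(Finset.mem_filter.1 a.2).1, h⟩
    · have nB : Sum.inl a ∉ B := h
      refine Or.inr ⟨?_, ?_, ?_⟩
      · have h1 := lip a (T (Sum.inl a))
        rw [norm_sub_rev] at h1
        linarith only [tA a, hζ, hk, h, h1]
      · intro b hb h1
        obtain ⟨j, rfl⟩ := sur b hb
        exact t4 _ nB j fun h => h1 (by rw [h])
      · intro b hb d hd h1 h2 h3
        obtain ⟨i, rfl⟩ := sur b hb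
        obtain ⟨j, rfl⟩ := sur d hd
        exact t5 _ nB i j (fun h => h1 (by rw [h])) (fun h => h2 (by rw [h]))
          fun h => h3 (by rw [h])

end Pool.Agent.MP_17e62b_gt.G

end

section
/-! The new rows. -/

namespace Pool.Agent.MP_17e62b_gt.G

open Set Filter Topology Metric
open scoped BigOperators InnerProductSpace Classical
open H14
open T55 (af Sq SqH SqV Cells Nbr vert)
open Pool.Agent.MP_4a6971_al.H83 (PArc)

theorem exit_law_gen {V : Type} [Fintype V] {r : V → V → ℝ} {A : Set V} (hR : ∀ a b, 0 ≤ r a b)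
    (hA : Abs r A) {p₀ : V} (hp0 : p₀ ∉ A) :
    ∃ m : V → ℝ, (∀ p, 0 ≤ m p) ∧ (∀ p, m p ≠ 0 → p ∈ A ∧ ∃ x, x ∉ A ∧ 0 < r x p) ∧
      ∀ (X : Type) [AddCommGroup X] [Module ℝ X] (u : V → X),
        (∀ p, p ∉ A → gen r u p = 0) → ∑ p, m p • u p = u p₀ := by
  refine ⟨fun p => if p ∈ A then (mat r A)⁻¹ p₀ p else 0, fun p => ?_, fun p hm => ?_, ?_⟩
  · dsimp only
    split_ifs
    · exact green_nonneg_inv hR hA _ _
    · exact le_rfl
  · have hpA : p ∈ A := by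
      by_contra hn
      exact hm (if_neg hn)
    refine ⟨hpA, ?_⟩
    by_contra hn
    refine hm ?_
    have hu : ∀ x, x ∉ A → 0 ≤ gen r (fun x => (mat r A)⁻¹ x p) x := by
      intro x hx
      have h1 := green_nonneg_col hR hA x p
      rw [if_neg hx, if_neg fun h' : x = p => hx (h' ▸ hpA), neg_eq_zero] at h1
      exact h1.ge
    obtain ⟨b, hb, hle, hpath⟩ := asc hR hA hu p₀
    have hbp : b ≠ p := by
      rintro rfl
      cases hpath with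
      | refl => exact hp0 hb
      | @tail x _ _ hx => exact hn ⟨x, hx.1, hx.2.1⟩
    have h1 := green_nonneg_col hR hA b p
    rw [if_pos hb, if_neg hbp] at h1
    have h2 := green_nonneg_inv hR hA p₀ p
    show (if p ∈ A then (mat r A)⁻¹ p₀ p else 0) = 0
    rw [if_pos hpA]
    have h3 : (mat r A)⁻¹ p₀ p ≤ (mat r A)⁻¹ b p := hle
    linarith
  · intro X _ _ u hu
    rw [harm_mem_rep hR hA hu p₀, Finset.sum_filter]
    refine Finset.sum_congr rfl fun p _ => ?_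
    dsimp only
    split_ifs
    · rfl
    · exact zero_smul _ _

/-- T5. The exit law from a disc. Hint: `A = {p | ρ ≤ ‖p - c‖}`, `m p = (mat r A)⁻¹ p₀ p` on `A`
(`Abs.mono`, `harm_mem_rep`, `green_nonneg_inv`). For `p` with `ρ + s < ‖p - c‖` the harmonic
extension of the indicator of `p` vanishes at `p₀` by `asc`. -/
theorem exit_law {Λ : Lens} {Nd : Finset ℂ} {r : Nd → Nd → ℝ} {s ρ : ℝ} (h : Fine Λ Nd r s)
    {c : ℂ} (hc : ∀ v ∈ Λ.Vt, ρ ≤ ‖v - c‖) {p₀ : Nd} (hp : ‖(p₀ : ℂ) - c‖ < ρ) :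
    ∃ m : Nd → ℝ, (∀ p, 0 ≤ m p) ∧ ∑ p, m p = 1 ∧
      (∀ p, m p ≠ 0 → ρ ≤ ‖(p : ℂ) - c‖ ∧ ‖(p : ℂ) - c‖ ≤ ρ + s) ∧
      ∀ (X : Type) [AddCommGroup X] [Module ℝ X] (u : Nd → X),
        (∀ p : Nd, (p : ℂ) ∉ Λ.Vt → gen r u p = 0) → ∑ p, m p • u p = u p₀ := by
  have hA : Abs r {p | ρ ≤ ‖(p : ℂ) - c‖} :=
    h.good.pnet.abs.mono (fun p hp' => hc _ hp') fun _ _ h' => h'
  obtain ⟨m, h0, hs, hrep⟩ := exit_law_gen h.good.pnet.nonneg hA (p₀ := p₀) (not_le.2 hp)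
  refine ⟨m, h0, ?_, fun p hm => ?_, fun X _ _ u hu => hrep X u fun a ha =>
    hu a fun hv => ha (hc _ hv)⟩
  · simpa only [Finset.univ_eq_attach, smul_eq_mul, mul_one] using hrep ℝ (fun _ => (1 : ℝ)) fun p _ => by simp only [gen, Finset.univ_eq_attach, sub_self, smul_eq_mul, mul_zero, Finset.sum_const_zero]
  · obtain ⟨h1, x, hx, hxp⟩ := hs p hm
    refine ⟨h1, ?_⟩
    have h2 := h.short x p hxp
    have h3 : ‖(x : ℂ) - c‖ < ρ := not_le.1 hx
    have h4 : ‖(p : ℂ) - c‖ ≤ ‖(p : ℂ) - x‖ + ‖(x : ℂ) - c‖ :=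
      norm_sub_le_norm_sub_add_norm_sub _ _ _
    linarith

theorem lat_row_inf (ℓ : Set ℂ) (x y : ℂ) : infDist x ℓ ≤ infDist y ℓ + ‖x - y‖ := by
  rw [← dist_eq_norm]
  exact infDist_le_infDist_add_dist

theorem lat_row_avg {ι X : Type} [Fintype ι] [NormedAddCommGroup X] [NormedSpace ℝ X]
    {b : ι → ℝ} (h0 : ∀ q, 0 ≤ b q) (h1 : ∑ q, b q = 1) {v : ι → X} {C : ℝ}
    (hv : ∀ q, b q ≠ 0 → ‖v q‖ ≤ C) : ‖∑ q, b q • v q‖ ≤ C := by
  refine (norm_sum_le _ _).trans ?_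
  calc ∑ q, ‖b q • v q‖ ≤ ∑ q, b q * C := by
        refine Finset.sum_le_sum fun q _ => ?_
        rw [norm_smul, Real.norm_of_nonneg (h0 q)]
        by_cases hq : b q = 0
        · simp [hq]
        · exact mul_le_mul_of_nonneg_left (hv q hq) (h0 q)
    _ = C := by rw [← Finset.sum_mul, h1, one_mul]

theorem lat_row_low {ι : Type} [Fintype ι] {b : ι → ℝ} (h0 : ∀ q, 0 ≤ b q) (h1 : ∑ q, b q = 1)
    {v : ι → ℝ} {C : ℝ} (hv : ∀ q, b q ≠ 0 → C ≤ v q) : C ≤ ∑ q, b q * v q := by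
  calc C = ∑ q, b q * C := by rw [← Finset.sum_mul, h1, one_mul]
    _ ≤ ∑ q, b q * v q := by
        refine Finset.sum_le_sum fun q _ => ?_
        by_cases hq : b q = 0
        · simp [hq]
        · exact mul_le_mul_of_nonneg_left (hv q hq) (h0 q)

theorem lat_row_split {ι κ X : Type} [Fintype ι] [Fintype κ] [AddCommGroup X] [Module ℝ X]
    (m : ι → ℝ) (B : ι → κ → ℝ) (b : κ → ℝ) (v : κ → X) :
    ∑ q, (∑ p, m p * B p q + b q) • v q = ∑ p, m p • ∑ q, B p q • v q + ∑ q, b q • v q := by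
  simp only [add_smul, Finset.sum_add_distrib, Finset.sum_smul, Finset.smul_sum, mul_smul]
  rw [Finset.sum_comm]

theorem lat_row_near {Λ : Lens} {Nd : Finset ℂ} {r : Nd → Nd → ℝ} {s k ζ : ℝ} {ℓ : Set ℂ}
    {Y La W : Finset ℂ} (h : Fine Λ Nd r s) (hs : s ≤ ζ) (hζ : 0 < ζ)
    (hk : 100 * ζ ≤ k) (hi : ∀ z, infDist z ℓ ≤ 20 * k → z ∈ interior Λ.P)
    (hL : Lat Nd ℓ Y k ζ La W) {c : ℂ} (hc : infDist c ℓ ≤ 14 * k) (i : Fin 4) :
    ∃ y ∈ W, y ∈ (univ : Set ℂ) ∧ ‖y - (c + 8 * ζ * Complex.I ^ (i : ℕ))‖ ≤ 2 * ζ := by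
  set w : ℂ := c + 8 * ζ * Complex.I ^ (i : ℕ) with hw
  by_cases h1 : infDist w ℓ ≤ 119 / 10 * k
  · obtain ⟨p, hp, h2⟩ := hL.net w h1
    exact ⟨p, (hL.mem p).2 (Or.inl hp), mem_univ _, h2⟩
  · have h2 : ‖w - c‖ = 8 * ζ := by
      rw [hw, add_sub_cancel_left, norm_mul, norm_mul, norm_pow, Complex.norm_I, one_pow, mul_one,
        Complex.norm_real, Real.norm_of_nonneg hζ.le]
      simp
    have h3 := lat_row_inf ℓ w c
    obtain ⟨p, hp, h4⟩ := h.net w (interior_subset (hi w (by linarith only [hζ, hk, hc, h2, h3])))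
    have h5 := lat_row_inf ℓ w p
    rw [norm_sub_rev] at h5
    exact ⟨p, (hL.mem p).2 (Or.inr ⟨hp, by linarith only [hs, hζ, hk, h1, h4, h5]⟩), mem_univ _, by linarith only [hs, hζ, h4]⟩

/-- T7. The row of a new point `y`. Hint: for `c` with `infDist c ℓ ≤ 14 k` the points
`c + 8 ζ I ^ i` have a point of `W` within `2 ζ` (`Lat.net`, or a node within `s`, which is kept).
Take a node `p₀` within `s` of `y`, `exit_law` with `ρ = k`, `round_law` at each exit node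
(`c = z = p`), and add `round_law` with `c = y`, `z = y - (p₀ - y)`. -/
theorem lat_row {Λ : Lens} {Nd : Finset ℂ} {r : Nd → Nd → ℝ} {s k ζ : ℝ} {ℓ : Set ℂ}
    {Y La W : Finset ℂ} (h : Fine Λ Nd r s) (hℓ : ℓ.Nonempty) (hs : s ≤ ζ) (hζ : 0 < ζ)
    (hk : 100 * ζ ≤ k) (hi : ∀ z, infDist z ℓ ≤ 20 * k → z ∈ interior Λ.P)
    (hL : Lat Nd ℓ Y k ζ La W) {y : ℂ} (hy : y ∈ La) :
    ∃ ρ : W → ℝ, (∀ q, 0 ≤ ρ q) ∧ ∑ q, ρ q = 2 ∧ ∑ q, ρ q • ((q : ℂ) - y) = 0 ∧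
      (∀ q, ρ q ≠ 0 → (q : ℂ) ≠ y ∧ ‖(q : ℂ) - y‖ ≤ 3 / 2 * k) ∧
      k ^ 2 / 4 ≤ ∑ q, ρ q * ‖(q : ℂ) - y‖ ^ 2 ∧
      (∃ q, 0 < ρ q ∧ ‖(q : ℂ) - (y + 8 * ζ)‖ ≤ 2 * ζ) ∧
      (∃ q, 0 < ρ q ∧ ‖(q : ℂ) - (y - 8 * ζ)‖ ≤ 2 * ζ) ∧
      ∀ (X : Type) [NormedAddCommGroup X] [NormedSpace ℝ X] (u : ℂ → X) (L β : ℝ),
        Test Λ r u L β → ‖∑ q, ρ q • (u q - u y)‖ ≤ 30 * L * ζ + 4 * β := by
  have hyd := hL.dist y hy
  have hP : ∀ z, infDist z ℓ ≤ 20 * k → z ∈ Λ.P := fun z hz => interior_subset (hi z hz)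
  have hyP : y ∈ Λ.P := hP y (by linarith)
  obtain ⟨p₀, hp₀, hp₀y⟩ := h.net y hyP
  have hV : ∀ v ∈ Λ.Vt, k ≤ ‖v - y‖ := by
    intro v hv
    by_contra hn
    have h1 := lat_row_inf ℓ v y
    have h2 := hi v (by linarith [not_le.1 hn])
    have h3 : v ∈ frontier Λ.P :=
      Λ.mem_frontier.2 ⟨Λ.vt_mem hv, Or.inr (by rw [add_zero]; exact (Λ.vt v hv).2)⟩
    exact h3.2 h2
  obtain ⟨m, hm0, hm1, hms, hmr⟩ := exit_law h hV (p₀ := ⟨p₀, hp₀⟩) (by
    show ‖p₀ - y‖ < k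
    linarith)
  have hmd : ∀ p : Nd, m p ≠ 0 → infDist (p : ℂ) ℓ ≤ 14 * k := fun p hp => by
    have h1 := lat_row_inf ℓ p y
    linarith [(hms p hp).2]
  have hB : ∀ p : Nd, ∃ b : W → ℝ, (∀ q, 0 ≤ b q) ∧ (m p ≠ 0 → ∑ q, b q = 1 ∧
      ∑ q, b q • (q : ℂ) = p ∧ ∀ q, b q ≠ 0 → ‖(q : ℂ) - p‖ ≤ 10 * ζ) := by
    intro p
    by_cases hp : m p = 0
    · exact ⟨fun _ => 0, fun _ => le_rfl, fun h' => absurd hp h'⟩
    · obtain ⟨b, h0, h1, h2, h3, -⟩ := round_law (z := p) hζ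
        (lat_row_near h hs hζ hk hi hL (hmd p hp)) (by simpa only [sub_self, norm_zero] using hζ.le)
      exact ⟨b, h0, fun _ => ⟨h1, h2, fun q hq => (h3 q hq).2.2⟩⟩
  choose B hB0 hB using hB
  obtain ⟨b, hb0, hb1, hb2, hb3, ⟨q₁, hq₁, hq₁'⟩, q₂, hq₂, hq₂'⟩ :=
    round_law (z := y - (p₀ - y)) hζ (lat_row_near h hs hζ hk hi hL (c := y) (by linarith)) (by
      rw [sub_sub_cancel_left, norm_neg]
      linarith)
  have hmB : ∀ q, 0 ≤ ∑ p, m p * B p q := fun q =>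
    Finset.sum_nonneg fun p _ => mul_nonneg (hm0 p) (hB0 p q)
  have hcongr : ∀ (X : Type) [AddCommGroup X] [Module ℝ X] (f g : Nd → X),
      (∀ p, m p ≠ 0 → f p = g p) → ∑ p, m p • f p = ∑ p, m p • g p := by
    intro X _ _ f g hfg
    refine Finset.sum_congr rfl fun p _ => ?_
    by_cases hp : m p = 0
    · simp [hp]
    · rw [hfg p hp]
  have hfar : ∀ p q, m p ≠ 0 → B p q ≠ 0 →
      k - 10 * ζ ≤ ‖(q : ℂ) - y‖ ∧ ‖(q : ℂ) - y‖ ≤ k + 11 * ζ := by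
    intro p q hp hq
    have h1 := (hB p hp).2.2 q hq
    have h2 := hms p hp
    have h3 : ‖(q : ℂ) - y‖ ≤ ‖(q : ℂ) - p‖ + ‖(p : ℂ) - y‖ := norm_sub_le_norm_sub_add_norm_sub _ _ _
    have h4 : ‖(p : ℂ) - y‖ ≤ ‖(p : ℂ) - q‖ + ‖(q : ℂ) - y‖ := norm_sub_le_norm_sub_add_norm_sub _ _ _
    rw [norm_sub_rev (p : ℂ) q] at h4
    constructor <;> linarith only [h2.1, h2.2, h1, h4, hs, h3]
  refine ⟨fun q => ∑ p, m p * B p q + b q, fun q => add_nonneg (hmB q) (hb0 q), ?_, ?_,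
    fun q hq => ?_, ?_, ⟨q₁, by linarith [hmB q₁], hq₁'⟩, ⟨q₂, by linarith [hmB q₂], hq₂'⟩, ?_⟩
  · have h1 := lat_row_split m B b fun _ => (1 : ℝ)
    rw [hcongr ℝ _ (fun _ => (1 : ℝ)) fun p hp => by simpa only [Finset.univ_eq_attach, smul_eq_mul, mul_one] using (hB p hp).1] at h1
    simp only [smul_eq_mul, mul_one] at h1
    rw [h1, hm1, hb1]
    norm_num
  · rw [lat_row_split, hcongr ℂ _ (fun p => (p : ℂ) - y) fun p hp => by
      simp only [smul_sub, Finset.sum_sub_distrib, ← Finset.sum_smul, (hB p hp).1, (hB p hp).2.1,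
        one_smul]]
    simp only [smul_sub, Finset.sum_sub_distrib, ← Finset.sum_smul, hm1, hb1, hb2, one_smul,
      hmr ℂ (fun p => (p : ℂ)) h.good.pnet.harm]
    ring
  · by_cases hbq : b q = 0
    · have h1 : ∑ p, m p * B p q ≠ 0 := by simpa only [Finset.univ_eq_attach, ne_eq, hbq, add_zero] using hq
      obtain ⟨p, -, hp⟩ := Finset.exists_ne_zero_of_sum_ne_zero h1
      have h2 := hfar p q (left_ne_zero_of_mul hp) (right_ne_zero_of_mul hp)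
      refine ⟨fun h' => ?_, by linarith only [h2.2, hζ, hk]⟩
      have h3 := h2.1
      rw [h', sub_self, norm_zero] at h3
      linarith
    · have h2 := (hb3 q hbq).2
      refine ⟨fun h' => ?_, by linarith [h2.2]⟩
      have h3 := h2.1
      rw [h', sub_self, norm_zero] at h3
      linarith
  · have h1 := lat_row_split m B b fun q => ‖(q : ℂ) - y‖ ^ 2
    simp only [smul_eq_mul] at h1
    rw [h1]
    have h2 : 0 ≤ ∑ q, b q * ‖(q : ℂ) - y‖ ^ 2 :=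
      Finset.sum_nonneg fun q _ => mul_nonneg (hb0 q) (sq_nonneg _)
    have h3 : k ^ 2 / 4 ≤ ∑ p, m p * ∑ q, B p q * ‖(q : ℂ) - y‖ ^ 2 := by
      refine lat_row_low hm0 hm1 fun p hp => lat_row_low (hB0 p) (hB p hp).1 fun q hq => ?_
      have h4 := (hfar p q hp hq).1
      have h5 : k / 2 ≤ ‖(q : ℂ) - y‖ := by linarith only [hζ, hk, h4]
      have h6 := pow_le_pow_left₀ (by linarith only [hζ, hk]) h5 2
      linarith only [h6]
    linarith
  · intro X _ _ u L β hT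
    obtain ⟨hL0, hu, hlip⟩ := hT
    have hβ : 0 ≤ β := by simpa only [sub_self, norm_zero, mul_zero, zero_add] using hlip y hyP y hyP
    have hLζ : 0 ≤ L * ζ := mul_nonneg hL0 hζ.le
    rw [lat_row_split, hcongr X _ (fun p => ∑ q, B p q • (u q - u p) + (u p - u y)) fun p hp => by
      simp only [smul_sub, Finset.sum_sub_distrib, ← Finset.sum_smul, (hB p hp).1, one_smul]
      abel]
    have e1 : ∑ p, m p • (∑ q, B p q • (u q - u p) + (u p - u y)) =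
        ∑ p, m p • ∑ q, B p q • (u q - u p) + (u p₀ - u y) := by
      simp only [smul_add, Finset.sum_add_distrib]
      congr 1
      simp only [smul_sub, Finset.sum_sub_distrib, ← Finset.sum_smul, hm1, one_smul,
        hmr X (fun p => u p) hu]
    rw [e1]
    have h1 : ‖∑ p, m p • ∑ q, B p q • (u q - u p)‖ ≤ L * (10 * ζ) + β := by
      refine lat_row_avg hm0 hm1 fun p hp => lat_row_avg (hB0 p) (hB p hp).1 fun q hq => ?_
      have h2 := (hB p hp).2.2 q hq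
      have h3 := lat_row_inf ℓ q p
      have h4 := hmd p hp
      have h5 := hlip q (hP q (by linarith only [hζ, hk, h2, h3, h4])) p (hP p (by linarith only [hζ, hk, h4]))
      have h6 := mul_le_mul_of_nonneg_left h2 hL0
      linarith only [h5, h6]
    have h2 : ‖u p₀ - u y‖ ≤ L * ζ + β := by
      have h3 := hlip p₀ (h.good.pnet.mem p₀ hp₀) y hyP
      have h4 := mul_le_mul_of_nonneg_left (hp₀y.trans hs) hL0
      linarith only [h3, h4]
    have h3 : ‖∑ q, b q • (u q - u y)‖ ≤ L * (10 * ζ) + β := by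
      refine lat_row_avg hb0 hb1 fun q hq => ?_
      have h4 := (hb3 q hq).2.2
      have h5 := lat_row_inf ℓ q y
      have h6 := hlip q (hP q (by linarith only [hζ, hk, hyd, h4, h5])) y hyP
      have h7 := mul_le_mul_of_nonneg_left h4 hL0
      linarith only [h6, h7]
    refine (norm_add₃_le).trans ?_
    linarith

theorem lat_node_det {a b d : ℂ} (hd : d ∈ segment ℝ a b) :
    det2 (b - a) (d - a) = 0 ∧ det2 (a - d) (b - d) = 0 ∧ ‖d - a‖ ≤ ‖b - a‖ := by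
  rw [segment_eq_image'] at hd
  obtain ⟨t, ht, rfl⟩ := hd
  refine ⟨?_, ?_, ?_⟩
  · simp [det2]
    ring
  · simp only [det2, Complex.real_smul, sub_add_cancel_left, Complex.neg_re, Complex.mul_re, Complex.ofReal_re, Complex.sub_re, Complex.ofReal_im, Complex.sub_im, zero_mul, sub_zero, Complex.add_im, Complex.mul_im, add_zero, neg_mul, Complex.neg_im, Complex.add_re, sub_neg_eq_add]
    ring
  · show ‖a + t • (b - a) - a‖ ≤ _
    rw [add_sub_cancel_left, norm_smul, Real.norm_of_nonneg ht.1]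
    exact mul_le_of_le_one_left (norm_nonneg _) ht.2

theorem lat_node_two {W : Finset ℂ} {a b : ℂ} (hb : b ∈ W) (hab : a ≠ b)
    (h1 : ∀ b ∈ W, b ≠ a → a.re ≠ b.re)
    (h2 : ∀ b ∈ W, ∀ d ∈ W, b ≠ a → d ≠ a → d ≠ b → det2 (b - a) (d - a) ≠ 0) :
    a.re ≠ b.re ∧ ∀ d ∈ W, d ∈ segment ℝ a b → d = a ∨ d = b := by
  refine ⟨h1 b hb hab.symm, fun d hd hs => ?_⟩
  by_contra hn
  rw [not_or] at hn
  exact h2 b hb d hd hab.symm hn.1 hn.2 (lat_node_det hs).1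

theorem lat_node_symm {W : Finset ℂ} {a b : ℂ}
    (h : b.re ≠ a.re ∧ ∀ d ∈ W, d ∈ segment ℝ b a → d = b ∨ d = a) :
    a.re ≠ b.re ∧ ∀ d ∈ W, d ∈ segment ℝ a b → d = a ∨ d = b :=
  ⟨h.1.symm, fun d hd hs => (h.2 d hd (segment_symm ℝ a b ▸ hs)).symm⟩

theorem lat_node_new {Nd : Finset ℂ} {k ζ : ℝ} {ℓ : Set ℂ} {Y La W : Finset ℂ} (hk : 0 < k)
    (hY : GNet ζ Y) (hL : Lat Nd ℓ Y k ζ La W) {a b : ℂ} (ha : a ∈ La) (hb : b ∈ W)
    (hab : a ≠ b) (hd : ‖b - a‖ ≤ 3 / 2 * k) :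
    a.re ≠ b.re ∧ ∀ d ∈ W, d ∈ segment ℝ a b → d = a ∨ d = b := by
  have haW : a ∈ W := (hL.mem a).2 (Or.inl ha)
  rcases hL.gen a ha with h1 | h1
  · have hLa : ∀ d ∈ W, ‖d - a‖ ≤ 3 / 2 * k → d ∈ La := fun d hdW h2 =>
      ((hL.mem d).1 hdW).resolve_right fun h3 => by
        have h4 := lat_row_inf ℓ d a
        linarith only [h1.2, h3.2, hk, h2, h4]
    rcases hL.gen b (hLa b hb hd) with h2 | h2
    · refine ⟨hY.re a h1.1 b h2.1 hab, fun d hdW hs => ?_⟩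
      by_contra hn
      rw [not_or] at hn
      have h3 := lat_node_det hs
      rcases hL.gen d (hLa d hdW (h3.2.2.trans hd)) with h4 | h4
      · exact hY.det a h1.1 b h2.1 d h4.1 hab.symm hn.1 hn.2 h3.1
      · exact h4.2.2 a haW b hb (Ne.symm hn.1) (Ne.symm hn.2) hab.symm h3.2.1
    · exact lat_node_symm (lat_node_two haW hab.symm h2.2.1 h2.2.2)
  · exact lat_node_two hb hab h1.2.1 h1.2.2

/-- T8. General position of the cables. Hint: a cable with an end of the second kind of `Lat.gen`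
is fine. A cable from a point of the first kind ends in `La` (it stays within `6 k` of `ℓ`); if
both ends are in `Y`, a third point on it is not a kept node, and not in `La`. A point of `La` does
not lie on an old cable (the first kind is too far). -/
theorem lat_node {Λ : Lens} {Nd : Finset ℂ} {r : Nd → Nd → ℝ} {s k ζ : ℝ} {ℓ : Set ℂ}
    {Y La W : Finset ℂ} (h : Fine Λ Nd r s) (hℓ : ℓ.Nonempty) (hs : s ≤ ζ) (hζ : 0 < ζ)
    (hk : 100 * ζ ≤ k) (hY : GNet ζ Y) (hL : Lat Nd ℓ Y k ζ La W) {a b : ℂ} (ha : a ∈ W)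
    (hb : b ∈ W) (hab : (a ≠ b ∧ ‖b - a‖ ≤ 3 / 2 * k ∧ (a ∈ La ∨ b ∈ La)) ∨
      ∃ (ha' : a ∈ Nd) (hb' : b ∈ Nd), 10 * k ≤ infDist a ℓ ∧ 0 < r ⟨a, ha'⟩ ⟨b, hb'⟩) :
    a.re ≠ b.re ∧ ∀ d ∈ W, d ∈ segment ℝ a b → d = a ∨ d = b := by
  have hk0 : 0 < k := by linarith
  rcases hab with ⟨h1, h2, h3 | h3⟩ | ⟨ha', hb', h1, h2⟩
  · exact lat_node_new hk0 hY hL h3 hb h1 h2
  · exact lat_node_symm (lat_node_new hk0 hY hL h3 ha h1.symm (by rwa [norm_sub_rev]))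
  · have hre : a.re ≠ b.re := h.good.pnet.vert _ _ h2
    refine ⟨hre, fun d hd hseg => ?_⟩
    rcases (hL.mem d).1 hd with h3 | h3
    · by_contra hn
      rw [not_or] at hn
      have h4 := lat_node_det hseg
      rcases hL.gen d h3 with h5 | h5
      · have h6 : ‖b - a‖ ≤ s := h.short _ _ h2
        have h7 := lat_row_inf ℓ a d
        rw [norm_sub_rev] at h7
        linarith only [h4.2.2, h5.2, hs, hζ, hk, h1, h6, h7]
      · exact h5.2.2 a ha b hb (Ne.symm hn.1) (Ne.symm hn.2) (fun h' => hre (by rw [h'])) h4.2.1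
    · exact (h.good.pnet.node _ _ h2 ⟨d, h3.1⟩ hseg).imp (congrArg Subtype.val)
        (congrArg Subtype.val)

end Pool.Agent.MP_17e62b_gt.G

end

section
/-! The thinned chain. -/

namespace Pool.Agent.MP_17e62b_gt.G

open Set Filter Topology Metric
open scoped BigOperators InnerProductSpace Classical
open H14
open T55 (af Sq SqH SqV Cells Nbr vert)
open Pool.Agent.MP_4a6971_al.H83 (PArc)

/-- What is needed of the row `ρ` of the point `p`. -/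
structure ThinRow (Λ : Lens) {Nd : Finset ℂ} (r : Nd → Nd → ℝ) (ℓ : Set ℂ) (k ζ : ℝ)
    (La W : Finset ℂ) (p : W) (ρ : W → ℝ) : Prop where
  nonneg : ∀ q, 0 ≤ ρ q
  stop : (p : ℂ) ∈ Λ.Vt → ∀ q, ρ q = 0
  harm : (p : ℂ) ∉ Λ.Vt → ∑ q, ρ q • ((q : ℂ) - p) = 0
  cable : ∀ q, 0 < ρ q → ((p : ℂ) ≠ q ∧ ‖(q : ℂ) - p‖ ≤ 3 / 2 * k ∧
      ((p : ℂ) ∈ La ∨ (q : ℂ) ∈ La)) ∨
    ∃ (hp : (p : ℂ) ∈ Nd) (hq : (q : ℂ) ∈ Nd), 10 * k ≤ infDist (p : ℂ) ℓ ∧ 0 < r ⟨p, hp⟩ ⟨q, hq⟩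
  old : ¬ ((p : ℂ) ∈ La ∨ infDist (p : ℂ) ℓ < 10 * k) → ∃ hp : (p : ℂ) ∈ Nd,
    10 * k ≤ infDist (p : ℂ) ℓ ∧
    (∀ q : W, 0 < ρ q → ∃ hq : (q : ℂ) ∈ Nd, 0 < r ⟨p, hp⟩ ⟨q, hq⟩) ∧
    (∀ q : Nd, 0 < r ⟨p, hp⟩ q → ∃ hq : (q : ℂ) ∈ W, 0 < ρ ⟨q, hq⟩) ∧
    ∀ (X : Type) [AddCommGroup X] [Module ℝ X] (u : ℂ → X),
      ∑ q, ρ q • (u q - u p) = gen r (fun n => u n) ⟨p, hp⟩
  new : ((p : ℂ) ∈ La ∨ infDist (p : ℂ) ℓ < 10 * k) → infDist (p : ℂ) ℓ ≤ 12 * k + ζ ∧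
    ∑ q, ρ q ≤ 2 ∧ (∀ q, 0 < ρ q → ‖(q : ℂ) - p‖ ≤ 3 / 2 * k) ∧
    (∀ (X : Type) [NormedAddCommGroup X] [NormedSpace ℝ X] (u : ℂ → X) (L β : ℝ),
      Test Λ r u L β → ‖∑ q, ρ q • (u q - u p)‖ ≤ 30 * L * ζ + 4 * β) ∧
    1 ≤ 16 / k ^ 2 * ∑ q, ρ q * ‖(q : ℂ) - p‖ ^ 2 +
      ∑ q, ρ q * ((if (q : ℂ) ∈ La then 1 else 0) - if (p : ℂ) ∈ La then 1 else 0)
  pos : (p : ℂ) ∉ Λ.Vt → 0 < 16 / k ^ 2 * ∑ q, ρ q * ‖(q : ℂ) - p‖ ^ 2 +
      ∑ q, ρ q * ((if (q : ℂ) ∈ La then 1 else 0) - if (p : ℂ) ∈ La then 1 else 0)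
  den : (p : ℂ) ∈ La → (∃ q, 0 < ρ q ∧ ‖(q : ℂ) - (p + 8 * ζ)‖ ≤ 2 * ζ) ∧
    ∃ q, 0 < ρ q ∧ ‖(q : ℂ) - (p - 8 * ζ)‖ ≤ 2 * ζ

theorem exists_thin_vt {Λ : Lens} {ℓ : Set ℂ} {k : ℝ}
    (hi : ∀ z, infDist z ℓ ≤ 20 * k → z ∈ interior Λ.P) {v : ℂ} (hv : v ∈ Λ.Vt) :
    20 * k < infDist v ℓ := by
  refine lt_of_not_ge fun h => ?_
  have h1 : v ∈ frontier (reg Λ.up 0) :=
    Λ.mem_frontier.2 ⟨Λ.vt_mem hv, Or.inr (by rw [add_zero]; exact (Λ.vt v hv).2)⟩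
  exact h1.2 (hi v h)

theorem exists_thin_dist (ℓ : Set ℂ) (a b : ℂ) : infDist a ℓ ≤ infDist b ℓ + ‖a - b‖ := by
  rw [← dist_eq_norm]
  exact infDist_le_infDist_add_dist

variable {Λ : Lens} {Nd : Finset ℂ} {r : Nd → Nd → ℝ} {s k ζ : ℝ} {ℓ : Set ℂ} {Y La W : Finset ℂ}

theorem exists_thin_mem (h : Fine Λ Nd r s) (hζ : 0 < ζ) (hk : 100 * ζ ≤ k)
    (hi : ∀ z, infDist z ℓ ≤ 20 * k → z ∈ interior Λ.P) (hL : Lat Nd ℓ Y k ζ La W) (p : W) :
    (p : ℂ) ∈ Λ.P := by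
  rcases (hL.mem p).1 p.2 with hp | hp
  · exact interior_subset (hi p (by linarith [hL.dist p hp]))
  · exact h.good.pnet.mem p hp.1

theorem exists_thin_la (h : Fine Λ Nd r s) (hℓ : ℓ.Nonempty) (hs : s ≤ ζ) (hζ : 0 < ζ)
    (hk : 100 * ζ ≤ k) (hi : ∀ z, infDist z ℓ ≤ 20 * k → z ∈ interior Λ.P)
    (hL : Lat Nd ℓ Y k ζ La W) (p : W) (hp : (p : ℂ) ∈ La) :
    ∃ ρ, ThinRow Λ r ℓ k ζ La W p ρ := by
  obtain ⟨ρ, h0, h1, h2, h3, h4, h5, h6, h7⟩ := lat_row h hℓ hs hζ hk hi hL hp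
  have hk0 : 0 < k := by linarith only [hζ, hk]
  have hd := hL.dist p hp
  have hE : 1 ≤ 16 / k ^ 2 * ∑ q, ρ q * ‖(q : ℂ) - p‖ ^ 2 +
      ∑ q, ρ q * ((if (q : ℂ) ∈ La then 1 else 0) - if (p : ℂ) ∈ La then 1 else 0) := by
    have a1 : 4 ≤ 16 / k ^ 2 * ∑ q, ρ q * ‖(q : ℂ) - p‖ ^ 2 :=
      calc (4 : ℝ) = 16 / k ^ 2 * (k ^ 2 / 4) := by field_simp; norm_num
        _ ≤ _ := mul_le_mul_of_nonneg_left h4 (by positivity)
    have a2 : ∑ q, ρ q * (-1) ≤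
        ∑ q, ρ q * ((if (q : ℂ) ∈ La then 1 else 0) - if (p : ℂ) ∈ La then 1 else 0) :=
      Finset.sum_le_sum fun q _ => mul_le_mul_of_nonneg_left
        (by rw [if_pos hp]; split_ifs <;> norm_num) (h0 q)
    rw [← Finset.sum_mul, h1] at a2
    linarith only [a1, a2]
  exact ⟨ρ, h0, fun hv => absurd (exists_thin_vt hi hv) (by linarith only [hζ, hk, hd]), fun _ => h2,
    fun q hq => Or.inl ⟨(h3 q hq.ne').1.symm, (h3 q hq.ne').2, Or.inl hp⟩,
    fun hn => absurd (Or.inl hp) hn,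
    fun _ => ⟨hd, h1.le, fun q hq => (h3 q hq.ne').2, h7, hE⟩,
    fun _ => zero_lt_one.trans_le hE, fun _ => ⟨h5, h6⟩⟩

theorem exists_thin_mid (h : Fine Λ Nd r s) (hζ : 0 < ζ)
    (hk : 100 * ζ ≤ k) (hi : ∀ z, infDist z ℓ ≤ 20 * k → z ∈ interior Λ.P)
    (hL : Lat Nd ℓ Y k ζ La W) (p : W) (hp : (p : ℂ) ∉ La) (hd : infDist (p : ℂ) ℓ < 10 * k) :
    ∃ ρ, ThinRow Λ r ℓ k ζ La W p ρ := by
  have hk0 : 0 < k := by linarith
  obtain ⟨ρ, h0, h1, h2, h3, -, -⟩ := round_law (W := W) (S := La) (c := p) (z := p) hζ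
    (fun i => by
      have a1 := exists_thin_dist ℓ ((p : ℂ) + 8 * ζ * Complex.I ^ (i : ℕ)) p
      have a2 : ‖(p : ℂ) + 8 * ζ * Complex.I ^ (i : ℕ) - p‖ = 8 * ζ := by
        simp [abs_of_pos hζ]
      obtain ⟨y, hy, hy'⟩ := hL.net ((p : ℂ) + 8 * ζ * Complex.I ^ (i : ℕ)) (by linarith only [hζ, hk, hd, a1, a2])
      exact ⟨y, (hL.mem y).2 (Or.inl hy), hy, hy'⟩) (by simpa only [sub_self, norm_zero] using hζ.le)
  have hE : 1 ≤ 16 / k ^ 2 * ∑ q, ρ q * ‖(q : ℂ) - p‖ ^ 2 +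
      ∑ q, ρ q * ((if (q : ℂ) ∈ La then 1 else 0) - if (p : ℂ) ∈ La then 1 else 0) := by
    have a1 : 0 ≤ 16 / k ^ 2 * ∑ q, ρ q * ‖(q : ℂ) - p‖ ^ 2 :=
      mul_nonneg (by positivity) (Finset.sum_nonneg fun q _ => mul_nonneg (h0 q) (sq_nonneg _))
    have a2 : ∑ q, ρ q * ((if (q : ℂ) ∈ La then 1 else 0) - if (p : ℂ) ∈ La then 1 else 0) =
        ∑ q, ρ q := Finset.sum_congr rfl fun q _ => by
      by_cases hq : ρ q = 0
      · rw [hq, zero_mul]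
      · rw [if_neg hp, if_pos (Finset.mem_coe.1 (h3 q hq).1), sub_zero, mul_one]
    rw [a2, h1]
    linarith only [a1]
  have hlen : ∀ q, 0 < ρ q → ‖(q : ℂ) - p‖ ≤ 3 / 2 * k := fun q hq => by
    linarith only [(h3 q hq.ne').2.2, hζ, hk]
  refine ⟨ρ, h0, fun hv => absurd (exists_thin_vt hi hv) (by linarith only [hζ, hk, hd]), fun _ => ?_,
    fun q hq => Or.inl ⟨fun e => ?_, hlen q hq, Or.inr (h3 q hq.ne').1⟩,
    fun hn => absurd (Or.inr hd) hn,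
    fun _ => ⟨by linarith only [hζ, hk, hd], by linarith only [h1], hlen, fun X _ _ u L β hu => ?_, hE⟩,
    fun _ => zero_lt_one.trans_le hE, fun hp' => absurd hp' hp⟩
  · simp only [smul_sub, Finset.sum_sub_distrib, ← Finset.sum_smul, h1, h2, one_smul, sub_self]
  · have := (h3 q hq.ne').2.1
    rw [e, sub_self, norm_zero] at this
    linarith only [hζ, this]
  · have hm := exists_thin_mem h hζ hk hi hL
    have hβ : 0 ≤ β := by simpa only [sub_self, norm_zero, mul_zero, zero_add] using hu.2.2 p (hm p) p (hm p)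
    have hLζ := mul_nonneg hu.1 hζ.le
    calc ‖∑ q, ρ q • (u q - u p)‖ ≤ ∑ q, ρ q * (L * (10 * ζ) + β) := by
          refine (norm_sum_le _ _).trans (Finset.sum_le_sum fun q _ => ?_)
          by_cases hq : ρ q = 0
          · simp [hq]
          · rw [norm_smul, Real.norm_eq_abs, abs_of_nonneg (h0 q)]
            refine mul_le_mul_of_nonneg_left ((hu.2.2 q (hm q) p (hm p)).trans ?_) (h0 q)
            linarith only [mul_le_mul_of_nonneg_left (h3 q hq).2.2 hu.1]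
      _ ≤ 30 * L * ζ + 4 * β := by
          rw [← Finset.sum_mul, h1]
          linarith only [hβ, hLζ]

theorem exists_thin_old (h : Fine Λ Nd r s) (hs : s ≤ ζ) (hζ : 0 < ζ) (hk : 100 * ζ ≤ k)
    (hL : Lat Nd ℓ Y k ζ La W) (p : W) (hp : (p : ℂ) ∉ La) (hd : 10 * k ≤ infDist (p : ℂ) ℓ) :
    ∃ ρ, ThinRow Λ r ℓ k ζ La W p ρ := by
  have hk0 : 0 < k := by linarith
  have hN : (p : ℂ) ∈ Nd := (((hL.mem p).1 p.2).resolve_left hp).1
  have hr := h.good.pnet.nonneg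
  have hW : ∀ q : Nd, 0 < r ⟨p, hN⟩ q → (q : ℂ) ∈ W := fun q hq => by
    have a1 : ‖(q : ℂ) - p‖ ≤ s := h.short _ _ hq
    have a2 := exists_thin_dist ℓ p q
    rw [norm_sub_rev] at a2
    exact (hL.mem q).2 (Or.inr ⟨q.2, by linarith⟩)
  set ρ : W → ℝ := fun q => if hq : (q : ℂ) ∈ Nd then r ⟨p, hN⟩ ⟨q, hq⟩ else 0 with hρ
  have h0 : ∀ q, 0 ≤ ρ q := fun q => by
    simp only [hρ]
    split_ifs
    exacts [hr _ _, le_rfl]
  have h1 : ∀ q : W, 0 < ρ q → ∃ hq : (q : ℂ) ∈ Nd, 0 < r ⟨p, hN⟩ ⟨q, hq⟩ := fun q hq => by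
    simp only [hρ] at hq
    split_ifs at hq with h'
    exacts [⟨h', hq⟩, absurd hq (lt_irrefl _)]
  have h2 : ∀ q : Nd, 0 < r ⟨p, hN⟩ q → ∃ hq : (q : ℂ) ∈ W, 0 < ρ ⟨q, hq⟩ := fun q hq =>
    ⟨hW q hq, by simp only [hρ]; rwa [dif_pos q.2]⟩
  have h3 : ∀ (X : Type) [AddCommGroup X] [Module ℝ X] (u : ℂ → X),
      ∑ q, ρ q • (u q - u p) = gen r (fun n => u n) ⟨p, hN⟩ := fun X _ _ u => by
    set f : ℂ → X := fun z => (if hz : z ∈ Nd then r ⟨p, hN⟩ ⟨z, hz⟩ else 0) • (u z - u p) with hf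
    have e1 : ∑ q, ρ q • (u q - u p) = ∑ z ∈ W, f z := Finset.sum_coe_sort W f
    have e2 : gen r (fun n => u n) ⟨p, hN⟩ = ∑ z ∈ Nd, f z := by
      rw [← Finset.sum_coe_sort Nd f]
      refine Finset.sum_congr rfl fun q _ => ?_
      simp only [hf]
      rw [dif_pos q.2]
    have e3 : ∑ z ∈ W ∩ Nd, f z = ∑ z ∈ W, f z :=
      Finset.sum_subset Finset.inter_subset_left fun z hz hn => by
        simp only [hf]
        rw [dif_neg fun h' => hn (Finset.mem_inter.2 ⟨hz, h'⟩), zero_smul]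
    have e4 : ∑ z ∈ W ∩ Nd, f z = ∑ z ∈ Nd, f z :=
      Finset.sum_subset Finset.inter_subset_right fun z hz hn => by
        simp only [hf]
        rw [dif_pos hz, le_antisymm (not_lt.1 fun h' =>
          hn (Finset.mem_inter.2 ⟨hW ⟨z, hz⟩ h', hz⟩)) (hr _ _), zero_smul]
    rw [e1, e2, ← e3, e4]
  have hn : ¬ ((p : ℂ) ∈ La ∨ infDist (p : ℂ) ℓ < 10 * k) := fun h' => h'.elim hp hd.not_gt
  refine ⟨ρ, h0, fun hv q => ?_, fun hv => ?_, fun q hq => ?_, fun _ => ⟨hN, hd, h1, h2, h3⟩,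
    fun h' => absurd h' hn, fun hv => ?_, fun hp' => absurd hp' hp⟩
  · simp only [hρ]
    split_ifs
    exacts [h.good.stop _ _ hv, rfl]
  · exact (h3 ℂ id).trans (h.good.pnet.harm ⟨p, hN⟩ hv)
  · obtain ⟨hq', hq''⟩ := h1 q hq
    exact Or.inr ⟨hN, hq', hd, hq''⟩
  · obtain ⟨a, ha, b, hb, hab⟩ := h.good.pnet.abs {⟨p, hN⟩} (singleton_nonempty _)
      (disjoint_singleton_left.2 hv)
    obtain rfl : a = ⟨p, hN⟩ := ha
    obtain ⟨hbW, hb'⟩ := h2 b hab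
    have a1 : 0 < ∑ q, ρ q * ‖(q : ℂ) - p‖ ^ 2 := by
      refine Finset.sum_pos' (fun q _ => mul_nonneg (h0 q) (sq_nonneg _))
        ⟨⟨b, hbW⟩, Finset.mem_univ _, mul_pos hb' (pow_pos (norm_pos_iff.2 ?_) 2)⟩
      exact sub_ne_zero.2 fun e => hb (Subtype.ext e)
    have a2 : 0 ≤
        ∑ q, ρ q * ((if (q : ℂ) ∈ La then 1 else 0) - if (p : ℂ) ∈ La then 1 else 0) :=
      Finset.sum_nonneg fun q _ => mul_nonneg (h0 q)
        (by rw [if_neg hp]; split_ifs <;> norm_num)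
    exact add_pos_of_pos_of_nonneg (mul_pos (by positivity) a1) a2

/-- T9. Hint: `New = La ∪ {infDist < 10 k}`. Rows: `lat_row` on `La`; `round_law` with `S = La`,
`c = z = p` on the kept nodes with `infDist < 10 k`; the old rows on the others (their targets are
kept and not in `La`). `κ = 16 (4 - ‖p‖ ^ 2) / k ^ 2 + 1 - [p ∈ La]` (`gen_norm_sq`) has
`0 < - gen R κ` off the vertices, so `abs_of_lyap` applies. -/
theorem exists_thin {Λ : Lens} {Nd : Finset ℂ} {r : Nd → Nd → ℝ} {s k ζ : ℝ} {ℓ : Set ℂ}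
    {Y : Finset ℂ} (h : Fine Λ Nd r s) (hℓ : ℓ.Nonempty) (hs : s ≤ ζ) (hζ : 0 < ζ)
    (hk : 100 * ζ ≤ k) (hY : GNet ζ Y) (hi : ∀ z, infDist z ℓ ≤ 20 * k → z ∈ interior Λ.P) :
    ∃ W R New, Thin Λ r ℓ Y k ζ W R New := by
  have hk0 : 0 < k := by linarith
  obtain ⟨La, W, hL⟩ := exists_lat Nd hℓ hζ hk hY fun z hz =>
    (Λ.norm_le (s := 0) (by norm_num) (interior_subset (hi z hz))).trans (by norm_num)
  have hrow : ∀ p : W, ∃ ρ, ThinRow Λ r ℓ k ζ La W p ρ := fun p => by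
    by_cases hp : (p : ℂ) ∈ La
    · exact exists_thin_la h hℓ hs hζ hk hi hL p hp
    · rcases lt_or_ge (infDist (p : ℂ) ℓ) (10 * k) with hd | hd
      · exact exists_thin_mid h hζ hk hi hL p hp hd
      · exact exists_thin_old h hs hζ hk hL p hp hd
  choose R hR using hrow
  have hm := exists_thin_mem h hζ hk hi hL
  set κ : W → ℝ := fun p => 16 / k ^ 2 * (4 - ‖(p : ℂ)‖ ^ 2) + 1 -
    if (p : ℂ) ∈ La then 1 else 0 with hκ
  have hgen : ∀ p : W, (p : ℂ) ∉ Λ.Vt → -gen R κ p =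
      16 / k ^ 2 * ∑ q, R p q * ‖(q : ℂ) - p‖ ^ 2 +
        ∑ q, R p q * ((if (q : ℂ) ∈ La then 1 else 0) - if (p : ℂ) ∈ La then 1 else 0) := by
    intro p hp
    have a1 := gen_norm_sq R (fun q : W => (q : ℂ)) p
    have a2 : gen R (fun q : W => (q : ℂ)) p = 0 := (hR p).harm hp
    rw [a2, inner_zero_right, mul_zero, add_zero] at a1
    rw [← a1]
    simp only [gen, hκ, smul_eq_mul, Finset.mul_sum, ← Finset.sum_add_distrib,
      ← Finset.sum_neg_distrib]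
    exact Finset.sum_congr rfl fun q _ => by ring
  have hcab := fun (a b : W) (hab : 0 < R a b) =>
    lat_node h hℓ hs hζ hk hY hL a.2 b.2 ((hR a).cable b hab)
  refine ⟨W, R, {p | p ∈ La ∨ infDist p ℓ < 10 * k},
    ⟨fun a => (hR a).nonneg, fun b hb => (hR b).stop hb,
      abs_of_lyap (fun a => (hR a).nonneg) (h := κ) fun a ha => ?_, hm, fun _ => Iff.rfl,
      fun v hv => ?_, Subtype.val_injective, fun a ha => (hR a).harm ha,
      fun a b hab => (hcab a b hab).1, fun a b hab d hd =>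
        ((hcab a b hab).2 d d.2 hd).imp Subtype.ext Subtype.ext⟩,
    fun p hp hd => ⟨(hL.mem p).2 (Or.inr ⟨hp, by linarith only [hζ, hk, hd]⟩), fun h' => ?_⟩,
    fun p hp => (hR p).old hp, fun p hp => ?_, ⟨κ, fun p => ?_, fun p hp => ?_⟩,
    fun p hp hd => ?_, fun z hz => ?_⟩
  · have := (hR a).pos ha
    rw [← hgen a ha] at this
    linarith
  · exact ⟨⟨v, (hL.mem v).2 (Or.inr ⟨h.good.vt v hv, by linarith [exists_thin_vt hi hv]⟩)⟩, rfl⟩
  · rcases h' with h' | h'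
    · linarith [hL.disj p h' hp]
    · exact hd.not_gt h'
  · obtain ⟨a1, a2, a3, a4, -⟩ := (hR p).new hp
    exact ⟨a1, a2, a3, a4⟩
  · have a1 : ‖(p : ℂ)‖ ≤ 2 := Λ.norm_le (s := 0) (by norm_num) (hm p)
    have a2 : ‖(p : ℂ)‖ ^ 2 ≤ 4 := by nlinarith only [norm_nonneg (p : ℂ), a1]
    have a3 : 0 ≤ 16 / k ^ 2 * (4 - ‖(p : ℂ)‖ ^ 2) := mul_nonneg (by positivity) (by linarith only [a2])
    have a4 : 16 / k ^ 2 * (4 - ‖(p : ℂ)‖ ^ 2) ≤ 64 / k ^ 2 :=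
      calc _ ≤ 16 / k ^ 2 * 4 := mul_le_mul_of_nonneg_left
            (by linarith only [sq_nonneg ‖(p : ℂ)‖]) (by positivity)
        _ = 64 / k ^ 2 := by ring
    simp only [hκ]
    split_ifs <;> constructor <;> linarith only [a3, a4]
  · rw [hgen p hp]
    exact ⟨((hR p).pos hp).le, fun hn => ((hR p).new hn).2.2.2.2⟩
  · rcases (hL.mem p).1 hp with h' | h'
    · rcases hL.gen p h' with h'' | h''
      · exact h''.1
      · linarith only [h''.1, hd]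
    · linarith only [h'.2, hζ, hk, hd]
  · obtain ⟨y, hy, hy'⟩ := hL.net z (by linarith)
    obtain ⟨⟨y₁, a1, a2⟩, y₂, a3, a4⟩ := (hR ⟨y, (hL.mem y).2 (Or.inl hy)⟩).den hy
    exact ⟨_, y₁, y₂, a1, a3, hy', a2, a4⟩

end Pool.Agent.MP_17e62b_gt.G

end

section
/-! The thinned network. -/

namespace Pool.Agent.MP_17e62b_gt.G

open Set Filter Topology Metric
open scoped BigOperators InnerProductSpace Classical
open H14
open T55 (af Sq SqH SqV Cells Nbr vert)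
open Pool.Agent.MP_4a6971_al.H83 (PArc)

theorem thinned_norm {a b p q : ℂ} (hp : p ∈ segment ℝ a b) (hq : q ∈ segment ℝ a b) :
    ‖q - p‖ ≤ ‖b - a‖ := by
  rw [segment_eq_image_lineMap] at hp hq
  obtain ⟨t, ht, rfl⟩ := hp
  obtain ⟨u, hu, rfl⟩ := hq
  have e : AffineMap.lineMap a b u - AffineMap.lineMap a b t = (u - t) • (b - a) := by
    simp only [AffineMap.lineMap_apply, vsub_eq_sub, vadd_eq_add, sub_smul]
    abel
  rw [e, norm_smul, Real.norm_eq_abs]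
  exact mul_le_of_le_one_left (norm_nonneg _)
    (abs_le.2 ⟨by linarith [ht.2, hu.1], by linarith [ht.1, hu.2]⟩)

theorem thinned_dist (ℓ : Set ℂ) (p q : ℂ) : infDist p ℓ ≤ infDist q ℓ + ‖p - q‖ := by
  rw [← dist_eq_norm]
  exact infDist_le_infDist_add_dist

theorem thinned_seg (ℓ : Set ℂ) {a b p q : ℂ} (hp : p ∈ segment ℝ a b) (hq : q ∈ segment ℝ a b) :
    infDist p ℓ ≤ infDist q ℓ + ‖b - a‖ :=
  (thinned_dist ℓ p q).trans (by linarith [thinned_norm hq hp])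

/-- A cable is old or new. -/
theorem thinned_cable {Λ : Lens} {Nd : Finset ℂ} {r : Nd → Nd → ℝ} {s k ζ : ℝ} {ℓ : Set ℂ}
    {Y W : Finset ℂ} {R : W → W → ℝ} {New : Set ℂ} (h : Fine Λ Nd r s)
    (hT : Thin Λ r ℓ Y k ζ W R New) {a b : W} (hab : 0 < R a b) :
    (∃ (ha : (a : ℂ) ∈ Nd) (hb : (b : ℂ) ∈ Nd), 0 < r ⟨a, ha⟩ ⟨b, hb⟩ ∧ ‖(b : ℂ) - a‖ ≤ s ∧
      segment ℝ (a : ℂ) b ⊆ Eg r ∧ ∀ z ∈ segment ℝ (a : ℂ) b, 10 * k - s ≤ infDist z ℓ) ∨
    (‖(b : ℂ) - a‖ ≤ 3 / 2 * k ∧ ∀ z ∈ segment ℝ (a : ℂ) b, infDist z ℓ ≤ 27 / 2 * k + ζ) := by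
  by_cases hN : (a : ℂ) ∈ New
  · obtain ⟨h1, -, h2, -⟩ := hT.new a hN
    refine Or.inr ⟨h2 b hab, fun z hz => ?_⟩
    linarith [thinned_seg ℓ hz (left_mem_segment ℝ _ _), h2 b hab]
  · obtain ⟨ha, h1, h2, -⟩ := hT.old a hN
    obtain ⟨hb, h3⟩ := h2 b hab
    have h4 : ‖(b : ℂ) - a‖ ≤ s := h.short _ _ h3
    refine Or.inl ⟨ha, hb, h3, h4, fun z hz => ⟨_, _, h3, hz⟩, fun z hz => ?_⟩
    linarith [thinned_seg ℓ (left_mem_segment ℝ _ _) hz]

/-- Old edges far from `ℓ` are kept. -/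
theorem thinned_keep {Λ : Lens} {Nd : Finset ℂ} {r : Nd → Nd → ℝ} {s k ζ : ℝ} {ℓ : Set ℂ}
    {Y W : Finset ℂ} {𝓛 : Finset (ℂ × ℝ)} {R : W → W → ℝ} {New : Set ℂ} (h : Fine Λ Nd r s)
    (hT : Thin Λ r ℓ Y k ζ W R New) {Nd' : Finset ℂ} {r' : Nd' → Nd' → ℝ}
    (hD : Drawn Λ R (fun p => p) 𝓛 Nd' r') {x : ℂ} (hx : x ∈ Eg r)
    (hd : 10 * k + s ≤ infDist x ℓ) : x ∈ Eg r' := by
  obtain ⟨p, q, hpq, hx⟩ := hx
  have h1 : 10 * k ≤ infDist (p : ℂ) ℓ := by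
    linarith [thinned_seg ℓ hx (left_mem_segment ℝ _ _), h.short _ _ hpq]
  obtain ⟨hW, hN⟩ := hT.keep p p.2 h1
  obtain ⟨_, -, -, h2, -⟩ := hT.old ⟨p, hW⟩ hN
  obtain ⟨hq, h3⟩ := h2 q hpq
  exact hD.seg _ _ h3 hx

theorem thinned_den {Λ : Lens} {Nd : Finset ℂ} {r : Nd → Nd → ℝ} {s k ζ : ℝ} {ℓ : Set ℂ}
    {Y W : Finset ℂ} {𝓛 : Finset (ℂ × ℝ)} {R : W → W → ℝ} {New : Set ℂ} (h : Fine Λ Nd r s)
    (hs : s ≤ ζ) (hζ : 0 < ζ) (hk : 100 * ζ ≤ k) (hT : Thin Λ r ℓ Y k ζ W R New)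
    {Nd' : Finset ℂ} {r' : Nd' → Nd' → ℝ} (hD : Drawn Λ R (fun p => p) 𝓛 Nd' r') {z : ℂ}
    (hz : z ∈ Λ.P) (hd : 11 * k ≤ infDist z ℓ) : Den r' z s := by
  intro v hv hv'
  obtain ⟨t, ht, w, hw, hseg, hflat⟩ := h.den z hz v hv hv'
  set z0 := z + t • v with hz0
  have hn : 0 < ‖w - z0‖ := norm_pos_iff.2 (sub_ne_zero.2 hw)
  set θ := min 1 (ζ / ‖w - z0‖) with hθ
  have hθ0 : 0 < θ := lt_min one_pos (div_pos hζ hn)
  have hθ1 : θ ≤ 1 := min_le_left _ _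
  have hθ2 : θ * ‖w - z0‖ ≤ ζ := (le_div_iff₀ hn).1 (min_le_right _ _)
  have e : z0 + θ • (w - z0) - z0 = θ • (w - z0) := by abel
  have hm : z0 + θ • (w - z0) ∈ segment ℝ z0 w := by
    rw [segment_eq_image']
    exact ⟨θ, ⟨hθ0.le, hθ1⟩, rfl⟩
  refine ⟨t, ht, z0 + θ • (w - z0), fun h0 => ?_, fun x hx => ?_, ?_⟩
  · rw [h0, sub_self] at e
    exact (smul_ne_zero hθ0.ne' (sub_ne_zero.2 hw)) e.symm
  · refine thinned_keep h hT hD
      (hseg ((convex_segment z0 w).segment_subset (left_mem_segment ℝ _ _) hm hx)) ?_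
    have h1 := thinned_seg ℓ (left_mem_segment ℝ _ _) hx
    rw [e, norm_smul, Real.norm_of_nonneg hθ0.le] at h1
    have h2 := thinned_dist ℓ z z0
    have h3 : ‖z - z0‖ = |t| := by
      rw [hz0, sub_add_cancel_left, norm_neg, norm_smul, hv, mul_one, Real.norm_eq_abs]
    linarith only [hs, hζ, hk, hd, ht, hθ2, h1, h2, h3]
  · rw [e, Complex.smul_im, Complex.smul_re, smul_eq_mul, smul_eq_mul, abs_mul, abs_mul,
      abs_of_pos hθ0, mul_left_comm]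
    exact mul_le_mul_of_nonneg_left hflat hθ0.le

/-- T10. Hint: a cable is old (a segment of `r` of length at most `s`, at distance at least
`10 k - s` from `ℓ`) or new (within `27 / 2 k + ζ` of `ℓ`, in the interior). A point of `Eg r` at
distance at least `10 k + s` lies in `Eg r'`; shorten the flat segment of `Den`. `den_local`.
A cable that meets `infDist ≤ k` has both ends in `Y`. -/
theorem thinned {Λ : Lens} {Nd : Finset ℂ} {r : Nd → Nd → ℝ} {s k ζ : ℝ} {ℓ : Set ℂ}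
    {Y X W : Finset ℂ} {𝓛 : Finset (ℂ × ℝ)} {R : W → W → ℝ} {New : Set ℂ} (h : Fine Λ Nd r s)
    (hℓ : ℓ.Nonempty) (hs : s ≤ ζ) (hζ : 0 < ζ) (hk : 100 * ζ ≤ k) (hX : Pts72 Y 𝓛 X)
    (hi : ∀ z, infDist z ℓ ≤ 20 * k → z ∈ interior Λ.P) (hT : Thin Λ r ℓ Y k ζ W R New)
    {Nd' : Finset ℂ} {r' : Nd' → Nd' → ℝ} (hD : Drawn Λ R (fun p => p) 𝓛 Nd' r') :
    Thinned Λ r ℓ 𝓛 X k s Nd' r' := by
  have hk0 : 0 < k := by linarith
  have hdeep : ∀ a b : W, 0 < R a b → ∀ p ∈ segment ℝ (a : ℂ) b, infDist p ℓ ≤ k →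
      (a : ℂ) ∈ Y ∧ (b : ℂ) ∈ Y := by
    intro a b hab p hp hd
    rcases thinned_cable h hT hab with ⟨_, _, -, -, -, h1⟩ | ⟨h1, -⟩
    · linarith [h1 p hp]
    · exact ⟨hT.deep a a.2 (by linarith [thinned_seg ℓ (left_mem_segment ℝ _ _) hp]),
        hT.deep b b.2 (by linarith [thinned_seg ℓ (right_mem_segment ℝ _ _) hp])⟩
  have hold : ∀ a : W, 137 / 10 * k ≤ infDist (a : ℂ) ℓ → (a : ℂ) ∉ New := fun a ha hN => by
    linarith [(hT.new a hN).1]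
  refine ⟨⟨hD.pnet, hD.stop, fun v hv => ?_, ?_⟩, hD.cut, fun p p' hp => ?_,
    fun p p' hp z hz hd => ?_, fun z hz => ?_, fun z hz hd => thinned_den h hs hζ hk hT hD hz hd,
    fun p hp hd => ?_, fun p hd => ⟨?_, fun Z _ _ g G hG hg hp => hD.harm Z G p hp ?_ ?_⟩⟩
  · obtain ⟨b, rfl⟩ := hT.plan.all v hv
    exact hD.old b
  · rintro z ⟨p, p', hp, hz⟩ hf
    obtain ⟨a, b, hab, hsub⟩ := hD.sub p p' hp
    rcases thinned_cable h hT hab with ⟨_, _, -, -, h1, -⟩ | ⟨-, h1⟩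
    · exact h.good.fr z (h1 (hsub hz)) hf
    · exact absurd (hi z (by linarith [h1 z (hsub hz)])) hf.2
  · obtain ⟨a, b, hab, hsub⟩ := hD.sub p p' hp
    have h0 := thinned_norm (hsub (left_mem_segment ℝ _ _)) (hsub (right_mem_segment ℝ _ _))
    rcases thinned_cable h hT hab with ⟨_, _, -, h1, -⟩ | ⟨h1, -⟩ <;> linarith
  · obtain ⟨a, b, hab, hsub⟩ := hD.sub p p' hp
    have h0 := thinned_norm (hsub (left_mem_segment ℝ _ _)) (hsub (right_mem_segment ℝ _ _))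
    rcases thinned_cable h hT hab with ⟨_, _, -, h1, h2, -⟩ | ⟨-, h1⟩
    · exact ⟨h0.trans h1, hsub.trans h2⟩
    · linarith [h1 z (hsub hz)]
  · rcases le_total (11 * k) (infDist z ℓ) with hd | hd
    · exact (thinned_den h hs hζ hk hT hD hz hd).mono (by linarith)
    · obtain ⟨y, y₁, y₂, h1, h2, h3, h4, h5⟩ := hT.den z (by linarith)
      exact (den_local hζ (hD.seg _ _ h1) (hD.seg _ _ h2) h4 h5 h3).mono (by linarith)
  · rcases hD.new p hp with ⟨a, rfl⟩ | ⟨a, b, hab, h1, ⟨a', b', hab', h2, h3⟩ | ⟨l, hl, h2, h3⟩⟩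
    · exact hX.sub (hT.deep a a.2 (by linarith))
    · obtain ⟨ha, hb⟩ := hdeep a b hab p h1 hd
      obtain ⟨ha', hb'⟩ := hdeep a' b' hab' p h3 hd
      exact hX.two _ ha _ hb _ ha' _ hb' h2 p h1 h3
    · obtain ⟨ha, hb⟩ := hdeep a b hab p h1 hd
      exact hX.line _ ha _ hb l hl h2 p h1 h3
  · rcases hD.new p p.2 with ⟨a, ha⟩ | ⟨a, b, hab, h1, -⟩
    · have ha' : (a : ℂ) = p := ha
      obtain ⟨h1, -⟩ := hT.old a (hold a (ha' ▸ hd))
      exact Or.inr (ha' ▸ h1)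
    · rcases thinned_cable h hT hab with ⟨_, _, -, -, h2, -⟩ | ⟨-, h2⟩
      · exact Or.inl (h2 h1)
      · linarith [h2 _ h1]
  · intro a b hab h1 t ht
    rcases thinned_cable h hT hab with ⟨ha, hb, h2, -⟩ | ⟨-, h2⟩
    · rw [hG.1 ⟨a, ha⟩, hG.1 ⟨b, hb⟩]
      exact hG.2 _ _ h2 t ht
    · linarith [h2 _ h1]
  · intro a ha
    have ha' : (a : ℂ) = p := ha
    obtain ⟨h1, -, -, -, h2⟩ := hT.old a (hold a (ha' ▸ hd))
    rw [h2 Z G, funext hG.1]
    exact hg ⟨a, h1⟩ (by rw [← ha'] at hp; exact hp)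

/-- T11. Hint: on an old cable the interpolated value is `F z`; on a new one it is a mean of values
within `L (3 / 2 k) + β` of `F z`. -/
theorem thin_mis {Λ : Lens} {Nd : Finset ℂ} {r : Nd → Nd → ℝ} {k ζ L β : ℝ} {ℓ : Set ℂ}
    {Y W : Finset ℂ} {R : W → W → ℝ} {New : Set ℂ} (hT : Thin Λ r ℓ Y k ζ W R New) (hk : 0 ≤ k)
    {F : ℂ → ℝ} (hF : Test Λ r F L β) (hE : IsExt r (fun p => F p) F) :
    Mis R (fun p => p) (fun p => F p)
      fun e => if (e.1 : ℂ) ∈ New then 2 * L * k + β else 0 := by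
  have key : ∀ a b : W, 0 < R a b → ∀ t ∈ Icc (0 : ℝ) 1,
      |AffineMap.lineMap (F a) (F b) t - F (AffineMap.lineMap (a : ℂ) (b : ℂ) t)| ≤
        if (a : ℂ) ∈ New then 2 * L * k + β else 0 := by
    intro a b hab t ht
    split_ifs with hN
    · obtain ⟨-, -, h1, -⟩ := hT.new a hN
      have h2 := h1 b hab
      set z := AffineMap.lineMap (a : ℂ) (b : ℂ) t
      have hz : z ∈ segment ℝ (a : ℂ) b := by
        rw [segment_eq_image_lineMap]
        exact ⟨t, ht, rfl⟩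
      have ha : (a : ℂ) ∈ Λ.P := hT.plan.mem a
      have hb : (b : ℂ) ∈ Λ.P := hT.plan.mem b
      have hP : z ∈ Λ.P := (Λ.convex_reg 0).segment_subset ha hb hz
      have h3 : ∀ c ∈ segment ℝ (a : ℂ) b, c ∈ Λ.P → |F c - F z| ≤ 2 * L * k + β := by
        intro c hc hcP
        have h4 := hF.2.2 c hcP z hP
        have h5 := mul_le_mul_of_nonneg_left ((thinned_norm hz hc).trans h2) hF.1
        rw [Real.norm_eq_abs] at h4
        linarith only [mul_nonneg hF.1 hk, h4, h5]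
      have h4 := abs_le.1 (h3 a (left_mem_segment ℝ _ _) ha)
      have h5 := abs_le.1 (h3 b (right_mem_segment ℝ _ _) hb)
      rw [AffineMap.lineMap_apply_ring]
      have h6 : 0 ≤ 1 - t := sub_nonneg.2 ht.2
      have a1 := mul_le_mul_of_nonneg_left h4.1 h6
      have a2 := mul_le_mul_of_nonneg_left h5.1 ht.1
      have a3 := mul_le_mul_of_nonneg_left h4.2 h6
      have a4 := mul_le_mul_of_nonneg_left h5.2 ht.1
      exact abs_le.2 ⟨by linarith only [a1, a2], by linarith only [a3, a4]⟩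
    · obtain ⟨ha, -, h1, -⟩ := hT.old a hN
      obtain ⟨hb, h2⟩ := h1 b hab
      rw [hE.2 _ _ h2 t ht, sub_self, abs_zero]
  intro a b a' b' h1 h2 t ht t' ht' he
  have h3 := key a b h1 t ht
  have h4 := key a' b' h2 t' ht'
  rw [← he, abs_sub_comm] at h4
  exact (abs_sub_le _ _ _).trans (add_le_add h3 h4)

end Pool.Agent.MP_17e62b_gt.G

end

section
/-! The thinning estimate. -/

namespace Pool.Agent.MP_17e62b_gt.G

open Set Filter Topology Metric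
open scoped BigOperators InnerProductSpace Classical
open H14
open T55 (af Sq SqH SqV Cells Nbr vert)
open Pool.Agent.MP_4a6971_al.H83 (PArc)

theorem thin_move {ℓ : Set ℂ} (hℓ : ℓ.Nonempty) (hℓ' : IsCompact ℓ) {k : ℝ} (hk : 0 < k) {z : ℂ}
    (hz : infDist z ℓ ≤ 14 * k) : ∃ z', ‖z' - z‖ ≤ 3 * k ∧ infDist z' ℓ ≤ 11 * k := by
  by_cases h : infDist z ℓ ≤ 11 * k
  · exact ⟨z, by rw [sub_self, norm_zero]; positivity, h⟩
  · push Not at h
    obtain ⟨a, ha, hd⟩ := hℓ'.exists_infDist_eq_dist hℓ z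
    rw [hd, dist_eq_norm] at h hz
    have h0 : 0 < ‖z - a‖ := by linarith
    have ht : 0 ≤ 11 * k / ‖z - a‖ := by positivity
    have ht1 : 11 * k / ‖z - a‖ ≤ 1 := (div_le_one h0).2 h.le
    refine ⟨a + (11 * k / ‖z - a‖) • (z - a), ?_, ?_⟩
    · have e : a + (11 * k / ‖z - a‖) • (z - a) - z = -((1 - 11 * k / ‖z - a‖) • (z - a)) := by
        rw [sub_smul, one_smul]; ring
      rw [e, norm_neg, norm_smul, Real.norm_of_nonneg (sub_nonneg.2 ht1), sub_mul, one_mul,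
        div_mul_cancel₀ _ h0.ne']
      linarith only [hz]
    · refine (infDist_le_dist_of_mem ha).trans ?_
      rw [dist_eq_norm, add_sub_cancel_left, norm_smul, Real.norm_of_nonneg ht,
        div_mul_cancel₀ _ h0.ne']

theorem thin_test {E : Type} [NormedAddCommGroup E] [NormedSpace ℝ E] {Λ : Lens} {Nd : Finset ℂ}
    {r : Nd → Nd → ℝ} {F : ℂ → E} {L β : ℝ} (hF : Test Λ r F L β) (l : E →L[ℝ] ℝ)
    (hl : ‖l‖ ≤ 1) : Test Λ r (fun z => l (F z)) L β := by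
  refine ⟨hF.1, fun n hn => ?_, fun z hz z' hz' => ?_⟩
  · have h := gen_map r (fun n : Nd => F n) (l : E →ₗ[ℝ] ℝ) n
    rw [hF.2.1 n hn, map_zero] at h
    exact h
  · rw [← map_sub]
    refine (l.le_opNorm _).trans ((mul_le_of_le_one_left (norm_nonneg _) hl).trans ?_)
    exact hF.2.2 z hz z' hz'

theorem thin_ext {E : Type} [NormedAddCommGroup E] [NormedSpace ℝ E] {Nd : Finset ℂ}
    {r : Nd → Nd → ℝ} {F : ℂ → E} (hE : IsExt r (fun p => F p) F) (l : E →L[ℝ] ℝ) :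
    IsExt r (fun p => l (F p)) fun z => l (F z) := by
  refine ⟨fun _ => rfl, fun p p' hp t ht => ?_⟩
  show l (F _) = _
  rw [hE.2 p p' hp t ht]
  simp only [AffineMap.lineMap_apply, vsub_eq_sub, vadd_eq_add, map_add, map_smul, map_sub]

/-- T12. Hint: `exists_thin`; `Z₀` holds, for every centre `c ∈ Y₁` that has one, a point of `W`
off the vertices within `μ` of `c` and within `12 k` of `ℓ`; `draw`, `thinned`, `thin_mis`, the
potential `γ / (64 / k ^ 2 + 1) * κ`, a norming functional. For `z` go towards a nearest point of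
`ℓ` until the distance is `11 k`, and use `Thin.den`. -/
theorem thin {E : Type} [NormedAddCommGroup E] [NormedSpace ℝ E] {Λ : Lens} {Nd : Finset ℂ}
    {r : Nd → Nd → ℝ} {s k ζ L β μ A₀ lam γ θ : ℝ} {ℓ : Set ℂ} {Y X Y₁ : Finset ℂ}
    {𝓛 : Finset (ℂ × ℝ)} (h : Fine Λ Nd r s) (hℓ : ℓ.Nonempty) (hℓ' : IsCompact ℓ) (hs : s ≤ ζ)
    (hζ : 0 < ζ) (hk : 100 * ζ ≤ k) (hY : GNet ζ Y) (hX : Pts72 Y 𝓛 X)
    (hi : ∀ z, infDist z ℓ ≤ 20 * k → z ∈ interior Λ.P) {F : ℂ → E} (hF : Test Λ r F L β)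
    (hE : IsExt r (fun p => F p) F) (hY₁ : ∀ z : ℂ, ‖z‖ ≤ 2 → ∃ c ∈ Y₁, ‖z - c‖ ≤ μ)
    (hl : 0 < lam) (hθ : ((Y₁.card : ℝ) + 1) * (2 * γ) + √(2 * ((Y₁.card : ℝ) + 1)) *
      (√(lam⁻¹ * A₀) + √(32 * lam * (2 * γ))) ≤ θ)
    (h1 : (64 / k ^ 2 + 1) * (30 * L * ζ + 4 * β) ≤ γ)
    (h2 : (64 / k ^ 2 + 1) * (3 * k * (2 * L * k + β) ^ 2) ≤ γ)
    (hK : ∀ (Nd' : Finset ℂ) (r' : Nd' → Nd' → ℝ), Good Λ Nd' r' → ∀ g : Nd' → E,
      (∀ p : Nd', (p : ℂ) ∉ Λ.Vt → gen r' g p = 0) → (∀ p : Nd', (p : ℂ) ∈ Λ.Vt → g p = F p) →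
      ∀ l : E →L[ℝ] ℝ, ‖l‖ ≤ 1 → Kink r' (fun p => l (g p)) A₀) :
    ∃ (Nd' : Finset ℂ) (r' : Nd' → Nd' → ℝ) (g : Nd' → E), Thinned Λ r ℓ 𝓛 X k s Nd' r' ∧
      (∀ p : Nd', (p : ℂ) ∉ Λ.Vt → gen r' g p = 0) ∧ (∀ p : Nd', (p : ℂ) ∈ Λ.Vt → g p = F p) ∧
      ∀ z, infDist z ℓ ≤ 14 * k → ∃ p : Nd', ‖(p : ℂ) - z‖ ≤ 2 * μ + 4 * k ∧ ‖g p - F p‖ ≤ θ := by
  have hk0 : 0 < k := by linarith only [hζ, hk]
  obtain ⟨W, R, New, hT⟩ := exists_thin h hℓ hs hζ hk hY hi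
  have hch : ∀ c : ℂ, ∃ S : Finset W, S.card ≤ 1 ∧
      ((∃ w : W, (w : ℂ) ∉ Λ.Vt ∧ ‖(w : ℂ) - c‖ ≤ μ) →
        ∃ w ∈ S, (w : ℂ) ∉ Λ.Vt ∧ ‖(w : ℂ) - c‖ ≤ μ) := fun c => by
    by_cases hc : ∃ w : W, (w : ℂ) ∉ Λ.Vt ∧ ‖(w : ℂ) - c‖ ≤ μ
    · obtain ⟨w, hw⟩ := hc
      exact ⟨{w}, by simp, fun _ => ⟨w, Finset.mem_singleton_self w, hw⟩⟩
    · exact ⟨∅, by simp, fun h' => absurd h' hc⟩
  choose S hS1 hS2 using hch
  have hcard : (Y₁.biUnion S).card ≤ Y₁.card := by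
    simpa using Finset.card_biUnion_le_card_mul Y₁ S 1 fun c _ => hS1 c
  obtain ⟨Nd', r', hD, hest⟩ := draw hT.plan 𝓛 (Y₁.biUnion S) hcard
  have hTh := thinned h hℓ hs hζ hk hX hi hT hD
  have hn := hTh.good.pnet.nonneg
  have ha := hTh.good.pnet.abs
  have hg1 : ∀ p : Nd', (p : ℂ) ∉ Λ.Vt →
      gen r' (harm r' {p | (p : ℂ) ∈ Λ.Vt} fun p : Nd' => F p) p = 0 := fun p hp =>
    harm_gen hn ha _ hp
  have hg2 : ∀ p : Nd', (p : ℂ) ∈ Λ.Vt →
      harm r' {p | (p : ℂ) ∈ Λ.Vt} (fun p : Nd' => F p) p = F p := fun p hp =>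
    harm_bd hn ha _ hp
  refine ⟨Nd', r', _, hTh, hg1, hg2, fun z hz => ?_⟩
  generalize (harm r' {p | (p : ℂ) ∈ Λ.Vt} fun p : Nd' => F p) = g at hg1 hg2 ⊢
  obtain ⟨z', hz1, hz2⟩ := thin_move hℓ hℓ' hk0 hz
  obtain ⟨y, y₁, -, hy1, -, hy2, -⟩ := hT.den z' (by linarith only [hζ, hk, hz2])
  have hyv : (y : ℂ) ∉ Λ.Vt := fun hv => hy1.ne' (hT.plan.stop y hv y₁)
  obtain ⟨c, hc, hcy⟩ := hY₁ y (Λ.norm_le (by norm_num) (hT.plan.mem y))
  obtain ⟨w, hwS, hwv, hwc⟩ := hS2 c ⟨y, hyv, hcy⟩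
  refine ⟨⟨w, hD.old w⟩, ?_, ?_⟩
  · have e : (w : ℂ) - z = (w - c) - (y - c) + (y - z') + (z' - z) := by ring
    have h3 := norm_add₃_le (a := (w : ℂ) - c - (y - c)) (b := y - z') (c := z' - z)
    have h4 := norm_sub_le ((w : ℂ) - c) (y - c)
    show ‖(w : ℂ) - z‖ ≤ _
    rw [e]
    linarith only [hζ, hk, hz1, hy2, hcy, hwc, h3, h4]
  obtain ⟨l, hl1, hl2⟩ := exists_dual_vector'' ℝ (g ⟨w, hD.old w⟩ - F w)
  obtain ⟨κ, hκ1, hκ2⟩ := hT.pot
  have hM : 0 < 64 / k ^ 2 + 1 := by positivity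
  have hγ : 0 ≤ γ := le_trans (by positivity) h2
  have hc0 : 0 ≤ γ / (64 / k ^ 2 + 1) := div_nonneg hγ hM.le
  have hgen : ∀ a, -gen R (fun a => γ / (64 / k ^ 2 + 1) * κ a) a =
      γ / (64 / k ^ 2 + 1) * -gen R κ a := fun a => by
    simp only [gen, smul_eq_mul, mul_neg, Finset.mul_sum]
    congr 1
    exact Finset.sum_congr rfl fun b _ => by ring
  have hFl := thin_test hF l hl1
  have key := hest (fun p => l (g p)) (fun a => l (F a)) (fun a => γ / (64 / k ^ 2 + 1) * κ a)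
    (fun e => if (e.1 : ℂ) ∈ New then 2 * L * k + β else 0) A₀ lam γ hl
    (fun p hp => by
      have h := gen_map r' g (l : E →ₗ[ℝ] ℝ) p
      rw [hg1 p hp, map_zero] at h
      exact h)
    (fun b hb p hp => by
      have hb' : (p : ℂ) ∈ Λ.Vt := by rw [hp]; exact hb
      show l (g p) = l (F b)
      rw [hg2 p hb', hp])
    (hK Nd' r' hTh.good g hg1 hg2 l hl1) (thin_mis hT hk0.le hFl (thin_ext hE l))
    (fun a => ⟨mul_nonneg hc0 (hκ1 a).1, by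
      calc γ / (64 / k ^ 2 + 1) * κ a ≤ γ / (64 / k ^ 2 + 1) * (64 / k ^ 2 + 1) :=
            mul_le_mul_of_nonneg_left (hκ1 a).2 hc0
        _ = γ := div_mul_cancel₀ _ hM.ne'⟩)
    (fun a hav => by
      rw [hgen a]
      obtain ⟨h3, h4⟩ := hκ2 a hav
      by_cases hN : (a : ℂ) ∈ New
      · obtain ⟨-, h5, h6, h7⟩ := hT.new a hN
        have h8 : γ / (64 / k ^ 2 + 1) ≤ γ / (64 / k ^ 2 + 1) * -gen R κ a :=
          le_mul_of_one_le_right hc0 (h4 hN)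
        refine ⟨le_trans ?_ h8, le_trans ?_ h8⟩
        · rw [le_div_iff₀' hM]
          exact (mul_le_mul_of_nonneg_left (h7 ℝ _ L β hFl) hM.le).trans h1
        · rw [le_div_iff₀' hM]
          refine (mul_le_mul_of_nonneg_left ?_ hM.le).trans h2
          simp only [hN, if_true]
          have h9 : ∀ b, R a b * (‖(b : ℂ) - a‖ * (2 * L * k + β) ^ 2) ≤
              R a b * (3 / 2 * k * (2 * L * k + β) ^ 2) := fun b => by
            rcases (hT.plan.nonneg a b).eq_or_lt with h0 | h0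
            · rw [← h0, zero_mul, zero_mul]
            · exact mul_le_mul_of_nonneg_left
                (mul_le_mul_of_nonneg_right (h6 b h0) (sq_nonneg _)) h0.le
          refine (Finset.sum_le_sum fun b _ => h9 b).trans ?_
          rw [← Finset.sum_mul]
          have h10 : 0 ≤ 3 / 2 * k * (2 * L * k + β) ^ 2 := by positivity
          nlinarith only [h5, h10]
      · obtain ⟨hp, -, -, -, h5⟩ := hT.old a hN
        have h6 := h5 ℝ fun z => l (F z)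
        rw [hFl.2.1 ⟨a, hp⟩ hav] at h6
        have h7 := mul_nonneg hc0 h3
        refine ⟨by rw [h6, abs_zero]; exact h7, ?_⟩
        simp only [hN, if_false]
        simpa only [Finset.univ_eq_attach, ne_eq, OfNat.ofNat_ne_zero, not_false_eq_true, zero_pow, mul_zero, Finset.sum_const_zero, mul_neg, Left.nonneg_neg_iff] using h7)
    w (Finset.mem_biUnion.2 ⟨c, hc, hwS⟩) hwv ⟨w, hD.old w⟩ rfl
  have e : l (g ⟨w, hD.old w⟩) - l (F w) = ‖g ⟨w, hD.old w⟩ - F w‖ := by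
    rw [← map_sub, hl2]; rfl
  rw [e, abs_norm] at key
  exact key.trans hθ

/-- T13. The new harmonic function is close to `F` everywhere. Hint: in the zone use `h3` and the
two Lipschitz bounds; `g - F` is harmonic at the nodes with `14 k < infDist` (`Thinned.far`);
`harm_mem` for the absorbing set of vertices and nodes of the zone (`Abs.mono`). -/
theorem thin_close {E : Type} [NormedAddCommGroup E] [NormedSpace ℝ E] {Λ : Lens}
    {Nd Nd' X : Finset ℂ} {r : Nd → Nd → ℝ} {r' : Nd' → Nd' → ℝ} {s k L β σ θ : ℝ} {ℓ : Set ℂ}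
    {𝓛 : Finset (ℂ × ℝ)} (h : Thinned Λ r ℓ 𝓛 X k s Nd' r') (hk : 0 ≤ k) {F : ℂ → E}
    (hF : Test Λ r F L β) (hE : IsExt r (fun p => F p) F) {g : Nd' → E}
    (h1 : ∀ p : Nd', (p : ℂ) ∉ Λ.Vt → gen r' g p = 0)
    (h2 : ∀ p : Nd', (p : ℂ) ∈ Λ.Vt → g p = F p)
    (h3 : ∀ z, infDist z ℓ ≤ 14 * k → ∃ p : Nd', ‖(p : ℂ) - z‖ ≤ σ ∧ ‖g p - F p‖ ≤ θ)
    (h4 : ∀ p q : Nd', ‖g p - g q‖ ≤ L * ‖(p : ℂ) - q‖ + β) (h0 : 0 ≤ 2 * L * σ + 2 * β + θ)
    (p : Nd') : ‖g p - F p‖ ≤ 2 * L * σ + 2 * β + θ := by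
  have hm := h.good.pnet.mem
  have hA : Abs r' {p : Nd' | (p : ℂ) ∈ Λ.Vt ∨ infDist (p : ℂ) ℓ ≤ 14 * k} :=
    h.good.pnet.abs.mono (fun _ hp => Or.inl hp) fun _ _ h => h
  have key := harm_mem h.good.pnet.nonneg hA (u := fun p => g p - F p)
    (C := closedBall 0 (2 * L * σ + 2 * β + θ)) (fun a ha => by
      have hv : (a : ℂ) ∉ Λ.Vt := fun hv => ha (Or.inl hv)
      have hd : 14 * k < infDist (a : ℂ) ℓ := not_le.1 fun hd => ha (Or.inr hd)
      have h5 := (h.far a (by linarith)).2 E (fun p => F p) F hE hF.2.1 hv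
      have h6 := h1 a hv
      have e : gen r' (fun p => g p - F p) a = gen r' g a - gen r' (fun n => F n) a := by
        simp only [gen, ← Finset.sum_sub_distrib, ← smul_sub]
        exact Finset.sum_congr rfl fun b _ => by congr 1; abel
      rw [e, h5, h6, sub_self])
    (convex_closedBall _ _) (fun b hb => by
      rw [mem_closedBall, dist_zero_right]
      rcases hb with hb | hb
      · rw [h2 b hb, sub_self, norm_zero]
        exact h0
      · obtain ⟨q, hq1, hq2⟩ := h3 b hb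
        have h5 := h4 b q
        have h6 := hF.2.2 q (hm _ q.2) b (hm _ b.2)
        have h7 := mul_le_mul_of_nonneg_left hq1 hF.1
        rw [norm_sub_rev (b : ℂ)] at h5
        have e : g b - F b = (g b - g q) + (g q - F q) + (F q - F b) := by abel
        have h8 := norm_add₃_le (a := g b - g q) (b := g q - F q) (c := F q - F b)
        rw [e]
        linarith only [hq2, h5, h6, h7, h8]) p
  rwa [mem_closedBall, dist_zero_right] at key

end Pool.Agent.MP_17e62b_gt.G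

end
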