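import Pool.Agent.MP_17e62b_gt.Mg.G_H72Iface

/-! Interfaces: the skeleton of a saddle surface and the big discs. -/

namespace Pool.Agent.MP_17e62b_gt.G

open Set H14 T55
open scoped Manifold

/-- The standard polygons. -/
noncomputable def lens (m : ℕ) : Lens := (exists_lens m).choose

/-- `v`, `v'` are consecutive vertices of `lens m`, from left to right. -/
def LSide (m : ℕ) (v v' : ℂ) : Prop :=
  ∃ k < m + 2, ∃ e : ℝ, (e = 1 ∨ e = -1) ∧ v = vk (m + 2) k e ∧ v' = vk (m + 2) (k + 1) e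

/-- I1. Classes, tubes and bands. -/
structure Geo {n : ℕ} (S : Surface n) (N : ℕ) (ρ δ : ℝ) where
  κ : Type
  τ : Type
  β : Type
  [fκ : Fintype κ]
  [fτ : Fintype τ]
  [fβ : Fintype β]
  Cl : κ → Set S.M
  root : κ → S.M
  Dir : Set κ
  Tb : τ → Set S.M
  Ψ : β → ℂ → S.M
  en : β → Bool → κ
  cl_closed : ∀ x, IsClosed (Cl x)
  cl_ne : ∀ x, (Cl x).Nonempty
  rad : ∀ x, ∀ y ∈ Cl x, ‖S.f y - S.f (root x)‖ ≤ ρ
  few : Dirᶜ.ncard ≤ N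
  bd : ∀ y ∈ (𝓡∂ 2).boundary S.M, ∃ x ∈ Dir, y ∈ Cl x
  iso : ∀ x, x ∉ Dir → ∀ x', ∀ y ∈ Cl x, ∀ y' ∈ Cl x', Near S.f univ δ y y' → x' = x
  tb_closed : ∀ i, IsClosed (Tb i)
  tb_open : ∀ i, IsOpen (Tb i \ ⋃ x, Cl x)
  tb_bd : ∀ i, Disjoint (Tb i) ((𝓡∂ 2).boundary S.M)
  cont : ∀ j, Continuous (Ψ j)
  inj : ∀ j, InjOn (Ψ j) Sq
  band_cl : ∀ j x, Disjoint (Ψ j '' interior Sq) (Cl x)
  ends : ∀ j i, ∀ z ∈ SqH i, Ψ j z ∈ Cl (en j i)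
  long : ∀ j, ∀ a ∈ SqH false, ∀ b ∈ SqH true, ¬ Near (fun z => S.f (Ψ j z)) Sq δ a b
  wide : ∀ j, ∀ a ∈ SqV false, ∀ b ∈ SqV true, ¬ Near (fun z => S.f (Ψ j z)) Sq δ a b

attribute [instance] Geo.fκ Geo.fτ Geo.fβ

section Band

variable {E : Type} [NormedAddCommGroup E] [NormedSpace ℝ E] {f : ℂ → E} {d ρ e η s : ℝ} {M : ℕ}

/-- The cut nodes. -/
def BandNet.IsCut (B : BandNet f d ρ e η s M) (p : B.N) : Prop :=
  (B.pt p).re = 1 / 2 ∧ (B.pt p).im ∈ Icc B.y0 B.y1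

/-- An end of the band together with the small end part of the middle line. -/
def BandNet.En (B : BandNet f d ρ e η s M) (i : Bool) : Set ℂ :=
  {z ∈ Sq | z ∈ SqH i ∨ (z.re = 1 / 2 ∧ if i then B.y1 < z.im else z.im < B.y0)}

end Band

variable {n : ℕ} {S : Surface n} {N : ℕ} {ρ δ : ℝ}

/-- The networks on the bands, in charts `k j` that keep the sides of the square. -/
structure Nets (G : Geo S N ρ δ) (e η s : ℝ) (M : ℕ) where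
  k : G.β → ℂ ≃ₜ ℂ
  sq : ∀ j, k j '' Sq = Sq
  sqH : ∀ j i, k j '' SqH i = SqH i
  sqV : ∀ j i, k j '' SqV i = SqV i
  B : ∀ j, BandNet (fun z => S.f (G.Ψ j (k j z))) (δ / 1000) (δ / 10) e η s M

variable {G : Geo S N ρ δ} {e η s : ℝ} {M : ℕ}

/-- The nodes: classes and cut nodes. -/
abbrev Nets.Nu (X : Nets G e η s M) : Type := G.κ ⊕ (Σ j : G.β, {p // (X.B j).IsCut p})

noncomputable instance (X : Nets G e η s M) : Fintype X.Nu := Fintype.ofFinite _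

/-- The value of the surface at a node. -/
noncomputable def Nets.fn (X : Nets G e η s M) : X.Nu → EuclideanSpace ℝ (Fin n)
  | .inl x => S.f (G.root x)
  | .inr u => S.f (G.Ψ u.1 (X.k u.1 ((X.B u.1).pt u.2)))

/-- Direct jumps pass through a tube. -/
def Nets.Link (X : Nets G e η s M) (u v : X.Nu) : Prop :=
  ∃ x y i, u = .inl x ∧ v = .inl y ∧ (G.Tb i ∩ G.Cl x).Nonempty ∧ (G.Tb i ∩ G.Cl y).Nonempty

/-- The big discs: the surface cut along classes, tubes and the middle lines of the bands. -/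
structure Big (X : Nets G e η s M) (C : Type) (Mx : ℕ) where
  m : C → ℕ
  Θ : C → ℂ → S.M
  A : C → Set ℂ
  d : G.β → Bool → C
  ι : G.β → Bool → ℂ → ℂ
  app : ∀ c, (lens (m c)).Vt → X.Nu
  lab : ∀ c, ℂ → (lens (m c)).Vt
  card : Fintype.card X.Nu ≤ Mx ∧ ∀ c, m c ≤ Mx
  cont : ∀ c, Continuous (Θ c)
  inj : ∀ c, InjOn (Θ c) (interior (lens (m c)).P)
  off : ∀ c x, Disjoint (Θ c '' interior (lens (m c)).P) (G.Cl x)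
  cover : ∀ y : S.M, (∃ x, y ∈ G.Cl x) ∨ (∃ i, y ∈ G.Tb i) ∨
    (∃ c, y ∈ Θ c '' interior (lens (m c)).P) ∨
      ∃ j, ∃ z ∈ Sq, z.re = 1 / 2 ∧ y = G.Ψ j (X.k j z)
  ι_cont : ∀ j σ, ContinuousOn (ι j σ) (Half σ)
  ι_inj : ∀ j σ, InjOn (ι j σ) (Half σ)
  ι_mem : ∀ j σ, MapsTo (ι j σ) (Half σ) (lens (m (d j σ))).P
  ι_comm : ∀ j σ, ∀ y ∈ Half σ, Θ (d j σ) (ι j σ y) = G.Ψ j (X.k j y)
  ι_disj : ∀ j σ j' σ', d j σ = d j' σ' → ∀ y ∈ Half σ, ∀ y' ∈ Half σ', ι j σ y = ι j' σ' y' →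
    j = j' ∧ σ = σ'
  A_closed : ∀ c, IsClosed (A c)
  A_sub : ∀ c, A c ⊆ (lens (m c)).P
  pieces : ∀ c, ∀ z ∈ (lens (m c)).P, z ∈ A c ∨ ∃ j σ, d j σ = c ∧ z ∈ ι j σ '' Half σ
  A_inter : ∀ j σ, ∀ y ∈ Half σ, ι j σ y ∈ A (d j σ) → y ∈ SqV σ
  ι_fr : ∀ j σ, ∀ y ∈ Half σ, ι j σ y ∈ frontier (lens (m (d j σ))).P ↔
    y.re = 1 / 2 ∨ y ∈ SqH false ∪ SqH true
  lab_A : ∀ c, ∀ b ∈ A c, b ∈ frontier (lens (m c)).P →
    ∃ x, app c (lab c b) = .inl x ∧ Θ c b ∈ G.Cl x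
  lab_en : ∀ j σ i, ∀ y ∈ Half σ, y ∈ (X.B j).En i →
    app (d j σ) (lab (d j σ) (ι j σ y)) = .inl (G.en j i)
  lab_cut : ∀ j σ (p : {p // (X.B j).IsCut p}),
    app (d j σ) (lab (d j σ) (ι j σ ((X.B j).pt p))) = .inr ⟨j, p⟩
  lab_side : ∀ c (v v' : (lens (m c)).Vt), LSide (m c) v v' → lab c v = v ∧ lab c v' = v' ∧
    ∀ s ∈ Icc (0 : ℝ) 1, lab c (AffineMap.lineMap (v : ℂ) (v' : ℂ) s) = v ∨
      ∀ s' ∈ Icc s 1, lab c (AffineMap.lineMap (v : ℂ) (v' : ℂ) s') = v'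
  sep : ∀ c, ∀ b ∈ frontier (lens (m c)).P, ∀ b' ∈ frontier (lens (m c)).P,
    (b ∈ A c ∨ ∃ j σ i, d j σ = c ∧ b ∈ ι j σ '' (Half σ ∩ (X.B j).En i)) →
    (b' ∈ A c ∨ ∃ j σ i, d j σ = c ∧ b' ∈ ι j σ '' (Half σ ∩ (X.B j).En i)) →
    ∀ x x', x ∉ G.Dir → x' ∉ G.Dir → app c (lab c b) = .inl x → app c (lab c b') = .inl x' →
    Near (fun z => S.f (Θ c z)) (lens (m c)).P (δ / 1000) b b' → lab c b = lab c b'
  near : ∀ c (v v' : (lens (m c)).Vt), LSide (m c) v v' → ∀ b ∈ segment ℝ (v : ℂ) v',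
    ‖S.f (Θ c b) - X.fn (app c v)‖ ≤ 10 * ρ ∧ ‖S.f (Θ c b) - X.fn (app c v')‖ ≤ 10 * ρ

/-- The statement of the parts TOP, GEO and ASSEMBLY. -/
def TopStmt : Prop :=
  ∀ (n : ℕ) (S : Surface n), S.IsSaddle → ∃ N : ℕ, ∀ ρ > 0, ∃ δ > 0, δ ≤ ρ ∧
    ∃ (G : Geo S N ρ δ) (C : Type) (_ : Fintype C), ∀ M : ℕ, ∃ Mx : ℕ,
      ∀ (e η s : ℝ) (X : Nets G e η s M), e ≤ δ / 10 → ∃ D : Big X C Mx,
        ∀ (ε : ℝ) (a : X.Nu → X.Nu → ℝ) (F F' : X.Nu → EuclideanSpace ℝ (Fin n))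
          (Φ : ∀ c, ℂ → (lens (D.m c)).Vt → ℝ) (K : ∀ c, Cells (lens (D.m c)).P)
          (g : C → ℂ → EuclideanSpace ℝ (Fin n)),
          DiscOut (fun c => lens (D.m c)) D.app (Sum.inl '' G.Dir) a F Φ ε F' K g →
          (∀ u v, 0 < a u v → X.Link u v) → (∀ u, ‖F u - X.fn u‖ ≤ ε) →
          (∀ c, ∀ z ∈ (lens (D.m c)).P,
            ‖cmb (fun v => F (D.app c v)) (Φ c z) - S.f (D.Θ c z)‖ ≤ ε) →
          ∃ T : Surface n, T.IsSaddle ∧ T.IsPolyhedron ∧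
            frechetDist S T ≤ ENNReal.ofReal (100 * (ε + ρ))

/-- The statement of part GLOBAL. -/
def GlobStmt : Prop :=
  ∀ (n : ℕ) (S : Surface n), S.IsSaddle → ∀ (N : ℕ) (ρ δ : ℝ), 0 < δ → δ ≤ ρ →
    ∀ G : Geo S N ρ δ, ∃ e > 0, e ≤ δ / 10 ∧ ∀ s > 0, ∃ J R : ℝ, ∀ ϑ > 0, ∃ η > 0,
      ∀ (M : ℕ) (X : Nets G e η s M) (C : Type) [Fintype C] (Mx : ℕ) (D : Big X C Mx),
        ∃ (a : X.Nu → X.Nu → ℝ) (w : ∀ c, (lens (D.m c)).Vt → (lens (D.m c)).Vt → ℝ)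
          (F : X.Nu → EuclideanSpace ℝ (Fin n)) (Φ : ∀ c, ℂ → (lens (D.m c)).Vt → ℝ),
          DiscNet (fun c => lens (D.m c)) D.app (Sum.inl '' G.Dir) a w F Φ J R ϑ ∧
          (∀ u v, 0 < a u v → X.Link u v) ∧ (∀ u, ‖F u - X.fn u‖ ≤ 100 * (N + 1) * ρ) ∧
          ∀ c, ∀ z ∈ (lens (D.m c)).P,
            ‖cmb (fun v => F (D.app c v)) (Φ c z) - S.f (D.Θ c z)‖ ≤ 100 * (N + 1) * ρ

end Pool.Agent.MP_17e62b_gt.G
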