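import Pool.Agent.MP_17e62b_gt.Mg.G_H72Iface
import Pool.Agent.MP_17e62b_gt.Mg.T55_MA1
import Pool.Agent.MP_17e62b_gt.Mg.G_H14Iface
import Pool.Agent.MP_17e62b_gt.Mg.H14_M4

attribute [-instance] RightPreLieAlgebra.toModule LeftPreLieAlgebra.toModule
  IsScalarTower.complexToReal instCoeTCOfCoe ProperSMul.toContinuousSMul
  NonarchimedeanAddGroup.toIsTopologicalAddGroup AddQuantale.instAddLeftMono RKHS.instFunLike
  continuousSub_of_discreteTopology CoalgHomClass.toSemilinearMapClass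
  IsTopologicalTorsor.toContinuousSMul Valued.toUniformSpace LieRinehartAlgebra.toIsScalarTower
  AddQuantale.instAddRightMono Group.IsPerfect.subsingleton_of_isMulCommutative
  NonUnitalNonAssocRing.toAddCommGroup CommRing.toRing DivisionRing.toRing
  NonUnitalAlgSemiHomClass.toDistribMulActionSemiHomClass CStarAlgebra.instOrderClosedTopology
  NumberField.to_charZero SemilinearIsometryClass.toSemilinearMapClass
  RingHomClass.toLinearMapClassNNRat MonoidWithZeroHomClass.toZeroHomClass Quantale.instMulRightMono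
  Action.FintypeCat.instMulActionObjFiniteOf LinearOrderedCommMonoidWithZero.toPosMulStrictMono
  continuousSub_of_indiscreteTopology Topology.IsScott.instClosedIicTopologyOfUnivSet
  NonUnitalNonAssocSemiring.toDistrib NormedRing.toRing LieRing.toAddCommGroup
  RingHomClass.toLinearMapClassRat AlexandrovDiscrete.locallyPathConnectedSpace
  AddCommGroupWithOne.toAddGroupWithOne IsAffineAddMonoid.toIsCancelAdd
  NonUnitalNormedRing.toNonUnitalSeminormedRing instFiniteSubtypeLtOfLocallyFiniteOrderBot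
  IsValuativeTopology.instIsTopologicalAddGroup BooleanRing.toRing TotallySeparatedSpace.t2Space
  LinearOrderedCommMonoidWithZero.toIsBotZeroClass instIsModuleTopology
  UpgradedStandardBorel.toTopologicalSpace

/-! Small connected sets, exits from components, tails of paths. -/

namespace Pool.Agent.MP_17e62b_gt.G

open Set Filter Topology Metric H14 T55
open scoped Manifold

section

variable {X Y E : Type} [TopologicalSpace X] [TopologicalSpace Y] [NormedAddCommGroup E]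
  {f : X → E} {A A' : Set X} {ρ ρ' : ℝ} {x y z : X}

theorem Near.refl (hx : x ∈ A) (hρ : 0 ≤ ρ) : Near f A ρ x x := by
  refine ⟨{x}, singleton_subset_iff.2 hx, isPreconnected_singleton, rfl, rfl, ?_⟩
  rintro a rfl b rfl
  simpa only [sub_self, norm_zero] using hρ

theorem Near.symm (h : Near f A ρ x y) : Near f A ρ y x := by
  obtain ⟨C, h1, h2, h3, h4, h5⟩ := h
  exact ⟨C, h1, h2, h4, h3, h5⟩

theorem Near.mono (h : Near f A ρ x y) (hA : A ⊆ A') (hρ : ρ ≤ ρ') : Near f A' ρ' x y := by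
  obtain ⟨C, h1, h2, h3, h4, h5⟩ := h
  exact ⟨C, h1.trans hA, h2, h3, h4, fun a ha b hb => (h5 a ha b hb).trans hρ⟩

theorem Near.trans (h : Near f A ρ x y) (h' : Near f A ρ' y z) : Near f A (ρ + ρ') x z := by
  obtain ⟨C, h1, h2, h3, h4, h5⟩ := h
  obtain ⟨C', h1', h2', h3', h4', h5'⟩ := h'
  have p : 0 ≤ ρ := (norm_nonneg _).trans (h5 y h4 y h4)
  have p' : 0 ≤ ρ' := (norm_nonneg _).trans (h5' y h3' y h3')
  refine ⟨C ∪ C', union_subset h1 h1', h2.union y h4 h3' h2', Or.inl h3, Or.inr h4', ?_⟩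
  rintro a (ha | ha) b (hb | hb)
  · linarith [h5 a ha b hb]
  · linarith [h5 a ha y h4, h5' y h3' b hb, norm_sub_le_norm_sub_add_norm_sub (f a) (f y) (f b)]
  · linarith [h5' a ha y h3', h5 y h4 b hb, norm_sub_le_norm_sub_add_norm_sub (f a) (f y) (f b)]
  · linarith [h5' a ha b hb]

theorem Near.norm_le (h : Near f A ρ x y) : ‖f x - f y‖ ≤ ρ := by
  obtain ⟨C, -, -, h3, h4, h5⟩ := h
  exact h5 x h3 y h4

theorem Near.mem (h : Near f A ρ x y) : x ∈ A ∧ y ∈ A := by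
  obtain ⟨C, h1, -, h3, h4, -⟩ := h
  exact ⟨h1 h3, h1 h4⟩

theorem Near.image {g : Y → E} {B : Set Y} {ι : X → Y} (h : Near f A ρ x y)
    (hc : ContinuousOn ι A) (hm : MapsTo ι A B) (he : ∀ a ∈ A, g (ι a) = f a) :
    Near g B ρ (ι x) (ι y) := by
  obtain ⟨C, h1, h2, h3, h4, h5⟩ := h
  refine ⟨ι '' C, (hm.mono_left h1).image_subset, h2.image ι (hc.mono h1), mem_image_of_mem ι h3,
    mem_image_of_mem ι h4, ?_⟩
  rintro _ ⟨a, ha, rfl⟩ _ ⟨b, hb, rfl⟩
  rw [he a (h1 ha), he b (h1 hb)]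
  exact h5 a ha b hb

theorem near_of_ball {c : E} {C : Set X} (hC : IsPreconnected C)
    (h : ∀ a ∈ C, a ∈ A ∧ ‖f a - c‖ ≤ ρ) (hx : x ∈ C) (hy : y ∈ C) : Near f A (2 * ρ) x y := by
  refine ⟨C, fun a ha => (h a ha).1, hC, hx, hy, fun a ha b hb => ?_⟩
  have h1 := norm_sub_le_norm_sub_add_norm_sub (f a) c (f b)
  rw [norm_sub_rev c] at h1
  linarith [(h a ha).2, (h b hb).2]

theorem Near.of_joinedIn {c : E} (h : JoinedIn {a | a ∈ A ∧ ‖f a - c‖ ≤ ρ} x y) :
    Near f A (2 * ρ) x y := by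
  obtain ⟨γ, hγ⟩ := h
  refine near_of_ball (c := c) (C := range γ) (isPreconnected_range γ.continuous) ?_ γ.source_mem_range
    γ.target_mem_range
  rintro _ ⟨t, rfl⟩
  exact hγ t

/-- A chain of small connected sets whose base points stay near `c`. Hint: induction; the union
lies in `{a | ‖f a - c‖ ≤ R + ρ}`. -/
theorem near_chain {S : Type} {pos : S → X} {rel : S → S → Prop} {c : E} {R : ℝ}
    (h : ∀ s s', rel s s' → Near f A ρ (pos s) (pos s') ∧ ‖f (pos s') - c‖ ≤ R) {s s' : S}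
    (hb : Near f A ρ x (pos s)) (hs : ‖f (pos s) - c‖ ≤ R)
    (hr : Relation.ReflTransGen rel s s') : Near f A (2 * (R + ρ)) x (pos s') := by
  have key : ∀ {u v : X}, Near f A ρ u v → ‖f v - c‖ ≤ R → ∃ C, IsPreconnected C ∧
      (∀ a ∈ C, a ∈ A ∧ ‖f a - c‖ ≤ R + ρ) ∧ u ∈ C ∧ v ∈ C := by
    rintro u v ⟨C, h1, h2, h3, h4, h5⟩ hv
    refine ⟨C, h2, fun a ha => ⟨h1 ha, ?_⟩, h3, h4⟩
    linarith [h5 a ha v h4, norm_sub_le_norm_sub_add_norm_sub (f a) (f v) c]
  have main : ∃ C, IsPreconnected C ∧ (∀ a ∈ C, a ∈ A ∧ ‖f a - c‖ ≤ R + ρ) ∧ x ∈ C ∧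
      pos s' ∈ C := by
    induction hr with
    | refl => exact key hb hs
    | tail _ hst ih =>
      obtain ⟨C, h1, h2, h3, h4⟩ := ih
      obtain ⟨C', h1', h2', h3', h4'⟩ := key (h _ _ hst).1 (h _ _ hst).2
      exact ⟨C ∪ C', h1.union _ h4 h3' h1', fun a ha => ha.elim (h2 a) (h2' a), Or.inl h3,
        Or.inr h4'⟩
  obtain ⟨C, h1, h2, h3, h4⟩ := main
  exact near_of_ball h1 h2 h3 h4

/-- Hint: the path component of `x` in `U` is open, and so is the rest of `U`. -/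
theorem joined_of_open [LocallyPathConnectedSpace X] {U C : Set X} (hU : IsOpen U)
    (hC : IsPreconnected C) (h : C ⊆ U) (hx : x ∈ C) (hy : y ∈ C) : JoinedIn U x y := by
  have h1 := hC.subset_connectedComponentIn hx h
  have h2 := (hU.connectedComponentIn (x := x)).isConnected_iff_isPathConnected.1
    (isConnected_connectedComponentIn_iff.2 (h hx))
  exact (h2.joinedIn x (h1 hx) y (h1 hy)).mono (connectedComponentIn_subset U x)

theorem joined_tail_sub {ι : Type} [Finite ι] {F : ι → Set X} {C : Set X}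
    (hF : ∀ i, IsClosed (F i)) (hd : Pairwise fun i j => Disjoint (F i) (F j))
    (hC : IsPreconnected C) (h : C ⊆ ⋃ i, F i) (hy : y ∈ C) {i : ι} (hi : y ∈ F i) : C ⊆ F i := by
  have hdis : ∀ a ∈ F i, a ∉ ⋃ j : {j // j ≠ i}, F j := fun a ha h' => by
    obtain ⟨j, hj⟩ := mem_iUnion.1 h'
    exact disjoint_left.1 (hd j.2) hj ha
  refine (isPreconnected_iff_subset_of_disjoint_closed.1 hC (F i) (⋃ j : {j // j ≠ i}, F j) (hF i)
    (isClosed_iUnion_of_finite fun j => hF j) (fun a ha => ?_) ?_).resolve_right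
    fun h' => hdis y hi (h' hy)
  · obtain ⟨j, hj⟩ := mem_iUnion.1 (h ha)
    by_cases e : j = i
    · exact Or.inl (e ▸ hj)
    · exact Or.inr (mem_iUnion.2 ⟨⟨j, e⟩, hj⟩)
  · exact eq_empty_of_forall_notMem fun a ha => hdis a ha.2.1 ha.2.2

/-- The tail of a path. Hint: if the path meets `A`, let `t₀` be the last time; on `(t₀, 1]` it is
preconnected and covered by the disjoint closed sets `F i` and the union of the others. -/
theorem joined_tail {ι : Type} [Finite ι] {F : ι → Set X} {Q : Set X} (hA : IsClosed A)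
    (hF : ∀ i, IsClosed (F i)) (hd : Pairwise fun i j => Disjoint (F i) (F j))
    (hQ : Q ⊆ A ∪ ⋃ i, F i) (h : JoinedIn Q x y) {i : ι} (hy : y ∈ F i) :
    JoinedIn (Q ∩ F i) x y ∨ ∃ b ∈ A ∩ F i, JoinedIn (Q ∩ F i) b y ∧ JoinedIn Q x b := by
  obtain ⟨γ, hγ⟩ := id h
  have hc : Continuous γ.extend := γ.continuous_extend
  have hm : ∀ t, γ.extend t ∈ Q := fun t => hγ _
  have hj : ∀ a b : ℝ, a ≤ b → JoinedIn (γ.extend '' Icc a b) (γ.extend a) (γ.extend b) :=
    fun a b hab => (((convex_Icc a b).isPathConnected (nonempty_Icc.2 hab)).image hc).joinedIn _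
      (mem_image_of_mem _ (left_mem_Icc.2 hab)) _ (mem_image_of_mem _ (right_mem_Icc.2 hab))
  by_cases hT : (Icc (0 : ℝ) 1 ∩ γ.extend ⁻¹' A).Nonempty
  · obtain ⟨t, ⟨ht, htA⟩, hmax⟩ :=
      (isCompact_Icc.inter_right (hA.preimage hc)).exists_isGreatest hT
    have hsub : γ.extend '' Icc t 1 ⊆ F i := by
      rcases ht.2.eq_or_lt with rfl | hlt
      · simpa only [Icc_self, image_singleton, mem_Icc, zero_le_one, Std.le_refl, and_self, Path.extend_apply, Icc.mk_one, Path.target, singleton_subset_iff] using hy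
      · have h1 : γ.extend '' Ioc t 1 ⊆ F i := by
          refine joined_tail_sub hF hd (isPreconnected_Ioc.image _ hc.continuousOn) ?_
            ⟨1, ⟨hlt, le_rfl⟩, γ.extend_one⟩ hy
          rintro _ ⟨u, hu, rfl⟩
          refine (hQ (hm u)).resolve_left fun hu' => ?_
          exact absurd (hmax ⟨⟨ht.1.trans hu.1.le, hu.2⟩, hu'⟩) (not_le.2 hu.1)
        rw [image_subset_iff, ← closure_Ioc hlt.ne]
        exact closure_minimal (image_subset_iff.1 h1) ((hF i).preimage hc)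
    refine Or.inr ⟨γ.extend t, ⟨htA, hsub (mem_image_of_mem _ (left_mem_Icc.2 ht.2))⟩, ?_, ?_⟩
    · have h1 := hj t 1 ht.2
      rw [γ.extend_one] at h1
      exact h1.mono (subset_inter (image_subset_iff.2 fun u _ => hm u) hsub)
    · have h1 := hj 0 t ht.1
      rw [γ.extend_zero] at h1
      exact h1.mono (image_subset_iff.2 fun u _ => hm u)
  · have hsub : γ.extend '' Icc 0 1 ⊆ F i := by
      refine joined_tail_sub hF hd (isPreconnected_Icc.image _ hc.continuousOn) ?_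
        ⟨1, right_mem_Icc.2 zero_le_one, γ.extend_one⟩ hy
      rintro _ ⟨u, hu, rfl⟩
      exact (hQ (hm u)).resolve_left fun hu' => hT ⟨u, hu, hu'⟩
    have h1 := hj 0 1 zero_le_one
    rw [γ.extend_zero, γ.extend_one] at h1
    exact Or.inl (h1.mono (subset_inter (image_subset_iff.2 fun u _ => hm u) hsub))

/-- Paths lift through an embedding of a compact set. -/
theorem joined_pull [T2Space Y] {H : Set X} (hH : IsCompact H) {ι : X → Y}
    (hc : ContinuousOn ι H) (hi : InjOn ι H) {Q : Set Y} (hx : x ∈ H) (hy : y ∈ H)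
    (h : JoinedIn (Q ∩ ι '' H) (ι x) (ι y)) : JoinedIn (H ∩ ι ⁻¹' Q) x y := by
  have : CompactSpace H := isCompact_iff_compactSpace.1 hH
  have he : IsInducing (H.domRestrict ι) :=
    (hc.domRestrict.isClosedEmbedding hi.injective).isInducing
  have e : H.domRestrict ι '' {a : H | ι a ∈ Q} = Q ∩ ι '' H := by
    ext b
    constructor
    · rintro ⟨a, ha, rfl⟩
      exact ⟨ha, a, a.2, rfl⟩
    · rintro ⟨hb, a, ha, rfl⟩
      exact ⟨⟨a, ha⟩, hb, rfl⟩
  have h1 := (he.joinedIn_image (F := {a : H | ι a ∈ Q}) (x := ⟨x, hx⟩) (y := ⟨y, hy⟩)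
    h.source_mem.1 h.target_mem.1).1 (e ▸ h)
  refine (h1.map continuous_subtype_val).mono ?_
  rintro _ ⟨a, ha, rfl⟩
  exact ⟨a.2, ha⟩

end

/-- Hint: `joined_of_open` in the subtype `K` (`Convex.locallyPathConnectedSpace`). -/
theorem joined_of_convex {K C : Set ℂ} (hK : Convex ℝ K) {u : ℂ → ℝ} (hu : ContinuousOn u K)
    (hC : IsPreconnected C) (h : C ⊆ K) {c : ℝ} (hc : ∀ z ∈ C, c < u z) {x y : ℂ} (hx : x ∈ C)
    (hy : y ∈ C) : JoinedIn {z | z ∈ K ∧ c ≤ u z} x y := by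
  have := hK.locallyPathConnectedSpace
  have h1 : IsPreconnected (Subtype.val ⁻¹' C : Set K) := by
    rw [← IsInducing.subtypeVal.isPreconnected_image, Subtype.image_preimage_coe,
      inter_eq_right.2 h]
    exact hC
  have h2 := joined_of_open (U := {z : K | c < u z}) (isOpen_lt continuous_const hu.domRestrict) h1
    (fun z hz => hc z hz) (x := ⟨x, h hx⟩) (y := ⟨y, h hy⟩) hx hy
  refine (h2.map continuous_subtype_val).mono ?_
  rintro _ ⟨a, ha, rfl⟩
  exact ⟨a.2, le_of_lt ha⟩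

theorem near_of_close {E : Type} [NormedAddCommGroup E] {K : Set ℂ} (hK : Convex ℝ K) {f : ℂ → E}
    {η₀ η : ℝ} (hf : ∀ y ∈ K, ∀ y' ∈ K, ‖y - y'‖ ≤ η₀ → ‖f y - f y'‖ ≤ η) {x y : ℂ} (hx : x ∈ K)
    (hy : y ∈ K) (h : ‖x - y‖ ≤ η₀) : Near f K η x y := by
  have hs := hK.segment_subset hx hy
  refine ⟨segment ℝ x y, hs, (convex_segment x y).isPreconnected, left_mem_segment ℝ x y,
    right_mem_segment ℝ x y, fun a ha b hb => hf a (hs ha) b (hs hb) (le_trans ?_ h)⟩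
  have h1 := dist_add_dist_of_mem_segment hb
  have h2 := (convex_closedBall b (dist x y)).segment_subset (x := x) (y := y)
    (by rw [mem_closedBall]; linarith [dist_nonneg (x := b) (y := y)])
    (by rw [mem_closedBall, dist_comm y b]; linarith [dist_nonneg (x := x) (y := b)]) ha
  simpa only [mem_closedBall, dist_eq_norm] using h2

/-- A point on the frontier of the component where `g` is at least as large as at `a`. -/
theorem exit_plane_core {X : Type} [TopologicalSpace X] [LocallyConnectedSpace X]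
    [PreconnectedSpace X] {W : Set X} (hW : IsOpen W) {a : X} (ha : a ∈ W)
    (hK : IsCompact (closure (connectedComponentIn W a))) (hn : connectedComponentIn W a ≠ univ)
    {g : X → ℝ} (hg : Continuous g)
    (hM : ∀ V : Set X, IsOpen V → closure V ⊆ connectedComponentIn W a →
      ∀ c : ℝ, (∀ x ∈ frontier V, g x ≤ c) → ∀ x ∈ V, g x ≤ c) :
    ∃ y ∈ closure (connectedComponentIn W a), y ∉ W ∧ g a ≤ g y := by
  obtain ⟨U, hU⟩ : ∃ U, U = connectedComponentIn W a := ⟨_, rfl⟩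
  have hUo : IsOpen U := hU ▸ hW.connectedComponentIn
  have haU : a ∈ U := hU ▸ mem_connectedComponentIn ha
  have hfr : ∀ z ∈ closure U, z ∈ W → z ∈ U := fun z hz hzW => by
    obtain ⟨w, hw1, hw2⟩ := mem_closure_iff.1 hz _ (hW.connectedComponentIn (x := z))
      (mem_connectedComponentIn hzW)
    rw [hU] at hw2 ⊢
    rw [connectedComponentIn_eq hw2, ← connectedComponentIn_eq hw1]
    exact mem_connectedComponentIn hzW
  rw [← hU] at hK hn hM ⊢
  obtain ⟨y, hy, hmax⟩ := (hK.of_isClosed_subset isClosed_frontier frontier_subset_closure).exists_isMaxOn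
    (nonempty_frontier_iff.2 ⟨⟨a, haU⟩, hn⟩) hg.continuousOn
  rw [hUo.frontier_eq] at hy
  refine ⟨y, hy.1, fun h => hy.2 (hfr y hy.1 h), not_lt.1 fun hlt => ?_⟩
  have hVo : IsOpen (U ∩ g ⁻¹' Ioi ((g y + g a) / 2)) := hUo.inter (isOpen_Ioi.preimage hg)
  have hcl : closure (U ∩ g ⁻¹' Ioi ((g y + g a) / 2)) ⊆ U := fun z hz => by
    by_contra hzU
    have h1 : g z ≤ g y := hmax (by
      rw [hUo.frontier_eq]; exact ⟨closure_mono inter_subset_left hz, hzU⟩)
    have h2 : (g y + g a) / 2 ≤ g z :=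
      closure_minimal (t := g ⁻¹' Ici ((g y + g a) / 2))
        (inter_subset_right.trans (preimage_mono Ioi_subset_Ici_self))
        (isClosed_Ici.preimage hg) hz
    linarith
  have h3 := hM _ hVo hcl ((g y + g a) / 2) (fun x hx => by
    rw [hVo.frontier_eq] at hx
    exact not_lt.1 fun h => hx.2 ⟨hcl hx.1, h⟩) a ⟨haU, by
      change (g y + g a) / 2 < g a
      linarith only [hlt]⟩
  linarith

theorem exit_plane_near {X E : Type} [TopologicalSpace X] [NormedAddCommGroup E] {f : X → E}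
    (hf : Continuous f) {O A : Set X} {r : ℝ} {a : X} (ha : a ∈ O ∩ {z | ‖f z - f a‖ < 2 * r})
    (hA : closure O ⊆ A) {y : X}
    (hy : y ∈ closure (connectedComponentIn (O ∩ {z | ‖f z - f a‖ < 2 * r}) a)) :
    y ∈ closure O ∧ ‖f y - f a‖ ≤ 2 * r ∧ Near f A (4 * r) a y := by
  have hs := connectedComponentIn_subset (O ∩ {z | ‖f z - f a‖ < 2 * r}) a
  have h1 := closure_mono (hs.trans inter_subset_left)
  have h2 : closure (connectedComponentIn (O ∩ {z | ‖f z - f a‖ < 2 * r}) a) ⊆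
      {z | ‖f z - f a‖ ≤ 2 * r} :=
    closure_minimal (fun z hz => show ‖f z - f a‖ ≤ 2 * r from le_of_lt (hs hz).2)
      (isClosed_le (by fun_prop) continuous_const)
  refine ⟨h1 hy, h2 hy, _, h1.trans hA, isPreconnected_connectedComponentIn.closure,
    subset_closure (mem_connectedComponentIn ha), hy, fun u hu v hv => ?_⟩
  have h3 : ‖f u - f a‖ ≤ 2 * r := h2 hu
  have h4 : ‖f v - f a‖ ≤ 2 * r := h2 hv
  have h5 := norm_sub_le (f u - f a) (f v - f a)
  rw [sub_sub_sub_cancel_right] at h5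
  linarith

/-- E1. Hint: `U` the component of `a` in `{z ∈ interior P | ‖f z - f a‖ < 2 r}`; its frontier is
compact and non-empty, let `y` maximise `l ∘ f` on it. If `l (f y) < c < l (f a)`, apply `MP` to
`{z ∈ U | c < l (f z)}`, whose closure lies in `U`. The closure of `U` is preconnected. -/
theorem exit_plane {E : Type} [NormedAddCommGroup E] [NormedSpace ℝ E] {P : Set ℂ}
    (hP : IsCompact P) {f : ℂ → E} (hf : Continuous f)
    (hMP : ∀ l : E →L[ℝ] ℝ, MP (interior P) fun z => l (f z)) {r : ℝ} (hr : 0 < r) {a : ℂ}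
    (ha : a ∈ interior P) (l : E →L[ℝ] ℝ) :
    ∃ y ∈ P, l (f a) ≤ l (f y) ∧ (‖f y - f a‖ = 2 * r ∨ y ∈ frontier P) ∧
      Near f P (4 * r) a y := by
  have hW : IsOpen (interior P ∩ {z | ‖f z - f a‖ < 2 * r}) :=
    isOpen_interior.inter (isOpen_lt (by fun_prop) continuous_const)
  have haW : a ∈ interior P ∩ {z | ‖f z - f a‖ < 2 * r} := ⟨ha, by simpa using hr⟩
  have hA : closure (interior P) ⊆ P := closure_minimal interior_subset hP.isClosed
  have hs := (connectedComponentIn_subset (interior P ∩ {z | ‖f z - f a‖ < 2 * r}) a).trans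
    inter_subset_left
  obtain ⟨y, hy, hyW, hl⟩ := exit_plane_core hW haW
    (hP.of_isClosed_subset isClosed_closure ((closure_mono hs).trans hA))
    (fun h => noncompact_univ ℂ (by
      rw [h] at hs
      rwa [univ_subset_iff.1 (hs.trans interior_subset)] at hP))
    (g := fun z => l (f z)) (by fun_prop) (fun V hV hc => hMP l V hV
      (hP.of_isClosed_subset isClosed_closure (hc.trans (hs.trans interior_subset))) (hc.trans hs))
  obtain ⟨h1, h2, h3⟩ := exit_plane_near hf haW hA hy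
  refine ⟨y, hA h1, hl, ?_, h3⟩
  by_cases hi : y ∈ interior P
  · exact Or.inl (le_antisymm h2 (not_lt.1 fun h => hyW ⟨hi, h⟩))
  · exact Or.inr ⟨subset_closure (hA h1), hi⟩

variable {n : ℕ} {S : Surface n}

/-- The maximum principle on a saddle surface away from the boundary. -/
theorem exit_surf_mp (hS : S.IsSaddle) (l : EuclideanSpace ℝ (Fin n) →L[ℝ] ℝ) {V : Set S.M}
    (hV : IsOpen V) (hd : Disjoint (closure V) ((𝓡∂ 2).boundary S.M)) {c : ℝ}
    (hfr : ∀ x ∈ frontier V, l (S.f x) ≤ c) : ∀ x ∈ V, l (S.f x) ≤ c := by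
  have := S.compact
  have := S.connected
  intro x hx
  by_contra hcon
  obtain ⟨ν, hl⟩ : ∃ ν : EuclideanSpace ℝ (Fin n), ∀ v, inner ℝ ν v = l v :=
    ⟨(InnerProductSpace.toDual ℝ _).symm l, fun v => InnerProductSpace.toDual_symm_apply⟩
  have hν0 : ν ≠ 0 := by
    intro h0
    have hl0 : ∀ v, l v = 0 := fun v => by rw [← hl, h0, inner_zero_left]
    obtain ⟨y, hy⟩ : (frontier V).Nonempty := by
      refine nonempty_frontier_iff.2 ⟨⟨x, hx⟩, fun h => ?_⟩
      obtain ⟨b, hb⟩ := S.boundary_nonempty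
      exact disjoint_left.1 hd (subset_closure (h ▸ mem_univ b)) hb
    have := hfr y hy
    simp only [hl0] at this hcon
    exact hcon this
  have hF : Continuous fun z => l (S.f z) := l.continuous.comp S.continuous
  have ho : IsOpen (V ∩ (fun z => l (S.f z)) ⁻¹' Ioi c) := hV.inter (isOpen_Ioi.preimage hF)
  have hc := closure_mono (inter_subset_left (s := V) (t := (fun z => l (S.f z)) ⁻¹' Ioi c))
  refine hS ν c (V ∩ (fun z => l (S.f z)) ⁻¹' Ioi c) hν0 ⟨⟨x, hx, not_le.1 hcon⟩, ho,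
    isClosed_closure.isCompact,
    hd.mono_left hc, fun z hz => ?_, fun z hz => ?_⟩
  · rw [hl]; exact hz.2
  · rw [hl]
    refine le_antisymm ?_ (closure_minimal (t := (fun z => l (S.f z)) ⁻¹' Ici c)
      (inter_subset_right.trans (preimage_mono Ioi_subset_Ici_self)) (isClosed_Ici.preimage hF) hz.1)
    by_cases hzV : z ∈ V
    · exact not_lt.1 fun h => hz.2 ⟨hzV, h⟩
    · exact hfr z (by rw [hV.frontier_eq]; exact ⟨hc hz.1, hzV⟩)

/-- E2. Hint: as `exit_plane`; `M` is locally connected (`ChartedSpace.locallyPathConnectedSpace`),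
the frontier of `U` is not empty as `M` is connected with non-empty boundary, and
`{z ∈ U | c < l (f z)}` is a crust (compare `mp_of_saddle` in `Disc.lean`). -/
theorem exit_surf (hS : S.IsSaddle) {O : Set S.M} (hO : IsOpen O) {r : ℝ} (hr : 0 < r) {a : S.M}
    (ha : a ∈ O)
    (hb : ∀ y ∈ (𝓡∂ 2).boundary S.M, y ∈ closure O → ¬ Near S.f univ (4 * r) a y)
    (l : EuclideanSpace ℝ (Fin n) →L[ℝ] ℝ) :
    ∃ y ∈ closure O, l (S.f a) ≤ l (S.f y) ∧ ((y ∈ O ∧ ‖S.f y - S.f a‖ = 2 * r) ∨ y ∉ O) ∧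
      Near S.f univ (4 * r) a y := by
  have := S.compact
  have := S.connected
  have : LocallyConnectedSpace S.M := ChartedSpace.locallyConnectedSpace (EuclideanHalfSpace 2) _
  have hf := S.continuous
  have hW : IsOpen (O ∩ {z | ‖S.f z - S.f a‖ < 2 * r}) :=
    hO.inter (isOpen_lt (by fun_prop) continuous_const)
  have haW : a ∈ O ∩ {z | ‖S.f z - S.f a‖ < 2 * r} := ⟨ha, by simpa using hr⟩
  have hd : Disjoint (closure (connectedComponentIn (O ∩ {z | ‖S.f z - S.f a‖ < 2 * r}) a))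
      ((𝓡∂ 2).boundary S.M) := disjoint_left.2 fun y hy hB => by
    obtain ⟨h1, -, h3⟩ := exit_plane_near hf haW (subset_univ _) hy
    exact hb y hB h1 h3
  obtain ⟨y, hy, hyW, hl⟩ := exit_plane_core hW haW isClosed_closure.isCompact
    (fun h => by
      obtain ⟨b, hB⟩ := S.boundary_nonempty
      exact disjoint_left.1 hd (subset_closure (h ▸ mem_univ b)) hB)
    (g := fun z => l (S.f z)) (by fun_prop) (fun V hV hc c hfr =>
      exit_surf_mp hS l hV (hd.mono_left (hc.trans subset_closure)) hfr)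
  obtain ⟨h1, h2, h3⟩ := exit_plane_near hf haW (subset_univ _) hy
  refine ⟨y, h1, hl, ?_, h3⟩
  by_cases hi : y ∈ O
  · exact Or.inl ⟨hi, le_antisymm h2 (not_lt.1 fun h => hyW ⟨hi, h⟩)⟩
  · exact Or.inr hi

/-- The maximum principle in an embedded open set. Hint: `Atl.open_emb` with `atl S` shows that
the image of `{z ∈ V | c' < l (f z)}` is a crust. -/
theorem mp_emb (hS : S.IsSaddle) {O : Set ℂ} (hO : IsOpen O) {Θ : ℂ → S.M} (hc : Continuous Θ)
    (hi : InjOn Θ O) (l : EuclideanSpace ℝ (Fin n) →L[ℝ] ℝ) : MP O fun z => l (S.f (Θ z)) := by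
  have := S.t2
  intro V hV hK hs c hfr x hx
  have hcl : closure (Θ '' V) ⊆ Θ '' closure V :=
    closure_minimal (image_mono subset_closure) (hK.image hc).isClosed
  have ho := ((atl S).open_emb hV hc.continuousOn (hi.mono (subset_closure.trans hs))).1
  refine exit_surf_mp hS l ho (((atl S).open_emb hO hc.continuousOn hi).2.mono_left
    (hcl.trans (image_mono hs))) (fun y hy => ?_) _ (mem_image_of_mem Θ hx)
  rw [ho.frontier_eq] at hy
  obtain ⟨z, hz, rfl⟩ := hcl hy.1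
  exact hfr z (by rw [hV.frontier_eq]; exact ⟨hz, fun h => hy.2 (mem_image_of_mem Θ h)⟩)

/-- E3. Hint: `U` the component of `y` in `{w ∈ interior P | ‖f (Θ w) - f (Θ y)‖ < 2 t}`. If its
closure lies in the interior, the witness `C` of `h` is covered by the disjoint open sets `Θ '' U`
(`Atl.open_emb`) and `(Θ '' closure U)ᶜ`. -/
theorem back_to_frontier {P : Set ℂ} (hP : IsCompact P) {Θ : ℂ → S.M} (hc : Continuous Θ)
    (hi : InjOn Θ (interior P)) {z : S.M} (hz : z ∉ Θ '' interior P) {y : ℂ} (hy : y ∈ interior P)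
    {t : ℝ} (ht : 0 < t) (h : Near S.f univ t z (Θ y)) :
    ∃ b ∈ frontier P, Near (fun w => S.f (Θ w)) P (4 * t) b y ∧
      Near S.f univ (5 * t) z (Θ b) := by
  have := S.t2
  have cg : Continuous fun w => ‖S.f (Θ w) - S.f (Θ y)‖ :=
    ((S.continuous.comp hc).sub continuous_const).norm
  set W : Set ℂ := {w ∈ interior P | ‖S.f (Θ w) - S.f (Θ y)‖ < 2 * t} with hW
  have oW : IsOpen W := isOpen_interior.inter (isOpen_lt cg continuous_const)
  have yW : y ∈ W := ⟨hy, by rw [sub_self, norm_zero]; positivity⟩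
  set U : Set ℂ := connectedComponentIn W y with hU
  have yU : y ∈ U := mem_connectedComponentIn yW
  have sU : U ⊆ W := connectedComponentIn_subset _ _
  have pU : IsPreconnected U := isPreconnected_connectedComponentIn
  have iU : U ⊆ interior P := fun w hw => (sU hw).1
  have cP : closure U ⊆ P := closure_minimal (iU.trans interior_subset) hP.isClosed
  have cN : ∀ w ∈ closure U, ‖S.f (Θ w) - S.f (Θ y)‖ ≤ 2 * t := fun w hw =>
    closure_minimal (t := {w | ‖S.f (Θ w) - S.f (Θ y)‖ ≤ 2 * t}) (fun w hw => (sU hw).2.le)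
      (isClosed_le cg continuous_const) hw
  obtain ⟨b, hb, hb'⟩ : ∃ b ∈ closure U, b ∉ interior P := by
    by_contra hn
    push Not at hn
    obtain ⟨C, -, pC, zC, yC, hC⟩ := h
    have o1 : IsOpen (Θ '' U) :=
      ((atl S).open_emb oW.connectedComponentIn hc.continuousOn (hi.mono iU)).1
    have o2 : IsOpen (Θ '' closure U)ᶜ :=
      ((hP.of_isClosed_subset isClosed_closure cP).image hc).isClosed.isOpen_compl
    refine hz (image_mono iU (pC.subset_left_of_subset_union o1 o2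
      (disjoint_compl_right.mono_left (image_mono subset_closure)) (fun c hc' => ?_)
      ⟨_, yC, mem_image_of_mem Θ yU⟩ zC))
    refine or_iff_not_imp_right.2 fun g => ?_
    obtain ⟨w, hw, rfl⟩ := not_not.1 g
    have wW : w ∈ W := ⟨hn w hw, (hC _ hc' _ yC).trans_lt (by linarith)⟩
    have pw := pU.subset_closure (subset_insert w U) (insert_subset hw subset_closure)
    exact mem_image_of_mem Θ (pw.subset_connectedComponentIn (mem_insert_of_mem _ yU)
      (insert_subset wW sU) (mem_insert _ _))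
  have h1 : Near (fun w => S.f (Θ w)) P (4 * t) b y := by
    refine ⟨closure U, cP, pU.closure, hb, subset_closure yU, fun u hu v hv => ?_⟩
    have h2 := norm_sub_le_norm_sub_add_norm_sub (S.f (Θ u)) (S.f (Θ y)) (S.f (Θ v))
    rw [norm_sub_rev (S.f (Θ y))] at h2
    linarith only [cN u hu, cN v hv, h2]
  refine ⟨b, ⟨subset_closure (cP hb), hb'⟩, h1, ?_⟩
  exact (h.trans (h1.symm.image hc.continuousOn (mapsTo_univ _ _) fun _ _ => rfl)).mono
    Subset.rfl (by linarith)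

/-- E4. Hint: `joined_of_open` in `{w | ‖f w - f z‖ < 3 t / 2}`, `joined_tail` with
`A = (Ψ '' interior P)ᶜ` and the one set `Ψ '' P`, `joined_pull`, `Near.of_joinedIn`. -/
theorem pull_surf {P : Set ℂ} (hP : IsCompact P) {Ψ : ℂ → S.M} (hc : Continuous Ψ)
    (hi : InjOn Ψ P) {z : S.M} (hz : z ∉ Ψ '' interior P) {y : ℂ} (hy : y ∈ P) {t : ℝ}
    (ht : 0 < t) (h : Near S.f univ t z (Ψ y)) :
    ∃ b ∈ frontier P, Near (fun w => S.f (Ψ w)) P (3 * t) b y ∧
      Near S.f univ (3 * t) z (Ψ b) := by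
  have := S.t2
  have : LocallyPathConnectedSpace S.M :=
    ChartedSpace.locallyPathConnectedSpace (EuclideanHalfSpace 2) S.M
  obtain ⟨C, -, pC, zC, yC, hC⟩ := h
  set Q : Set S.M := {w | ‖S.f w - S.f z‖ < 3 * t / 2} with hQ
  have oQ : IsOpen Q := isOpen_lt (S.continuous.sub continuous_const).norm continuous_const
  have j1 : JoinedIn Q z (Ψ y) :=
    joined_of_open oQ pC (fun c hc' => (hC c hc' z zC).trans_lt (by linarith)) zC yC
  have o1 : IsOpen (Ψ '' interior P) :=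
    ((atl S).open_emb isOpen_interior hc.continuousOn (hi.mono interior_subset)).1
  obtain ⟨_, ⟨hb, b, bP, rfl⟩, j2, j3⟩ : ∃ b ∈ (Ψ '' interior P)ᶜ ∩ Ψ '' P,
      JoinedIn (Q ∩ Ψ '' P) b (Ψ y) ∧ JoinedIn Q z b := by
    rcases joined_tail (F := fun _ : Unit => Ψ '' P) (i := ()) o1.isClosed_compl
      (fun _ => (hP.image hc).isClosed) (fun _ _ g => absurd (Subsingleton.elim _ _) g)
      (fun w _ => or_iff_not_imp_left.2 fun g =>
        mem_iUnion.2 ⟨(), image_mono interior_subset (not_not.1 g)⟩) j1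
      (mem_image_of_mem Ψ hy) with g | g
    · exact ⟨z, ⟨hz, g.source_mem.2⟩, g, JoinedIn.refl j1.source_mem⟩
    · exact g
  have e : 3 * t = 2 * (3 * t / 2) := by ring
  refine ⟨b, ⟨subset_closure bP, fun g => hb (mem_image_of_mem Ψ g)⟩, ?_, ?_⟩
  · rw [e]
    exact Near.of_joinedIn (c := S.f z)
      ((joined_pull hP hc.continuousOn hi bP hy j2).mono fun w hw => ⟨hw.1, le_of_lt hw.2⟩)
  · rw [e]
    exact Near.of_joinedIn (c := S.f z) (j3.mono fun w hw => ⟨mem_univ _, le_of_lt hw⟩)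

/-- A finite subset that is dense for a bounded function with values in a proper space. -/
theorem exists_fnet {X E : Type} [NormedAddCommGroup E] [ProperSpace E] (f : X → E) (A : Set X)
    {R : ℝ} (hR : ∀ x ∈ A, ‖f x‖ ≤ R) {η : ℝ} (hη : 0 < η) :
    ∃ Z : Finset X, (∀ z ∈ Z, z ∈ A) ∧ ∀ x ∈ A, ∃ z ∈ Z, ‖f x - f z‖ < η := by
  have h1 : TotallyBounded (f '' A) := by
    refine (isCompact_closedBall (0 : E) R).totallyBounded.subset ?_
    rintro _ ⟨x, hx, rfl⟩
    exact mem_closedBall_zero_iff.2 (hR x hx)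
  obtain ⟨t, h2, h3, h4⟩ := finite_approx_of_totallyBounded h1 η hη
  obtain ⟨Z, h5, h6, rfl⟩ := h3.exists_subset_finite_image_eq h2
  refine ⟨h6.toFinset, fun z hz => h5 (h6.mem_toFinset.1 hz), fun x hx => ?_⟩
  obtain ⟨_, ⟨z, hz, rfl⟩, h7⟩ := mem_iUnion₂.1 (h4 (mem_image_of_mem f hx))
  exact ⟨z, h6.mem_toFinset.2 hz, by simpa only [mem_ball, dist_eq_norm] using h7⟩

end Pool.Agent.MP_17e62b_gt.G

/-! Gluing of weights on embedded pieces with a partition of unity on the rest. -/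

namespace Pool.Agent.MP_17e62b_gt.G

open Set Filter Topology Metric
open scoped BigOperators

/-- W1. Hint: Tietze (`ContinuousMap.exists_restrict_eq`), positive part, and the cut-off
`max 0 (1 - infDist y K / η)`, `K = {y ∈ F | u y ≠ 0}`; take zero if `K` is empty. -/
theorem ext_supp {F : Set ℂ} (hF : IsClosed F) {u : ℂ → ℝ} (hu : ContinuousOn u F)
    (h0 : ∀ y ∈ F, 0 ≤ u y) {η : ℝ} (hη : 0 < η) :
    ∃ v : ℂ → ℝ, Continuous v ∧ (∀ y, 0 ≤ v y) ∧ EqOn v u F ∧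
      ∀ y, v y ≠ 0 → ∃ y' ∈ F, u y' ≠ 0 ∧ ‖y - y'‖ < η := by
  obtain ⟨g, hg⟩ := ContinuousMap.exists_restrict_eq hF ⟨F.domRestrict u, hu.domRestrict⟩
  have hg' : ∀ y ∈ F, g y = u y := fun y hy => DFunLike.congr_fun hg ⟨y, hy⟩
  rcases {y ∈ F | u y ≠ 0}.eq_empty_or_nonempty with hK | hK
  · refine ⟨fun _ => 0, continuous_const, fun _ => le_rfl, fun y hy => ?_, fun y h => absurd rfl h⟩
    by_contra h
    exact (hK.subset (⟨hy, fun e => h e.symm⟩ : y ∈ {y ∈ F | u y ≠ 0})).elim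
  refine ⟨fun y => max 0 (g y) * max 0 (1 - infDist y {y ∈ F | u y ≠ 0} / η), by fun_prop,
    fun y => mul_nonneg (le_max_left _ _) (le_max_left _ _), fun y hy => ?_, fun y h => ?_⟩
  · beta_reduce
    rw [hg' y hy, max_eq_right (h0 y hy)]
    rcases eq_or_ne (u y) 0 with h | h
    · rw [h, zero_mul]
    · rw [infDist_zero_of_mem (s := {y ∈ F | u y ≠ 0}) ⟨hy, h⟩]
      simp only [zero_div, sub_zero, zero_le_one, sup_of_le_right, mul_one]
  · have h1 : infDist y {y ∈ F | u y ≠ 0} < η := by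
      by_contra h2
      exact right_ne_zero_of_mul h
        (max_eq_left (sub_nonpos.2 ((one_le_div hη).2 (not_lt.1 h2))))
    obtain ⟨y', hy', h2⟩ := (infDist_lt_iff hK).1 h1
    exact ⟨y', hy'.1, hy'.2, by rwa [← dist_eq_norm]⟩

/-- W2. Transport through embeddings with disjoint images. Hint: the inverse of `ι i` is
continuous on the compact image; a function continuous on each of finitely many closed sets is
continuous on the union. -/
theorem glue_emb {I X : Type} [Finite I] [TopologicalSpace X] [Inhabited X] {H : I → Set ℂ}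
    (hH : ∀ i, IsCompact (H i)) {ι : I → ℂ → ℂ} (hc : ∀ i, ContinuousOn (ι i) (H i))
    (hi : ∀ i, InjOn (ι i) (H i))
    (hd : ∀ i j, ∀ y ∈ H i, ∀ y' ∈ H j, ι i y = ι j y' → i = j) {μ : I → ℂ → X}
    (hμ : ∀ i, ContinuousOn (μ i) (H i)) :
    ∃ ν : ℂ → X, ContinuousOn ν (⋃ i, ι i '' H i) ∧ ∀ i, ∀ y ∈ H i, ν (ι i y) = μ i y := by
  classical
  have h : ∀ z : ℂ, ∃ x : X, ∀ i, ∀ y ∈ H i, ι i y = z → x = μ i y := by
    intro z
    by_cases hz : ∃ i, ∃ y ∈ H i, ι i y = z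
    · obtain ⟨i, y, hy, e⟩ := hz
      refine ⟨μ i y, fun j y' hy' e' => ?_⟩
      obtain rfl := hd i j y hy y' hy' (e.trans e'.symm)
      rw [hi i hy hy' (e.trans e'.symm)]
    · exact ⟨default, fun i y hy e => absurd ⟨i, y, hy, e⟩ hz⟩
  choose ν hν using h
  refine ⟨ν, continuousOn_iff_isClosed.2 fun t ht => ⟨⋃ i, ι i '' (H i ∩ μ i ⁻¹' t),
    isClosed_iUnion_of_finite fun i => ?_, ?_⟩, fun i y hy => hν _ i y hy rfl⟩
  · exact (((hH i).of_isClosed_subset ((hμ i).preimage_isClosed_of_isClosed (hH i).isClosed ht)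
      inter_subset_left).image_of_continuousOn ((hc i).mono inter_subset_left)).isClosed
  · ext z
    simp only [mem_inter_iff, mem_iUnion, mem_preimage, mem_image]
    constructor
    · rintro ⟨h1, i, y, hy, e⟩
      exact ⟨⟨i, y, ⟨hy, hν z i y hy e ▸ h1⟩, e⟩, i, y, hy, e⟩
    · rintro ⟨⟨i, y, hy, e⟩, h2⟩
      exact ⟨(hν z i y hy.1 e).symm ▸ hy.2, h2⟩

/-- W3. Hint: `F = ⋃ i, ι i '' H i`, `ν` from `glue_emb`, `v s` from `ext_supp`;
`a s y = v s y + infDist y F * b s y` (`1` in place of `infDist y F` if `F` is empty) with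
`b s y = max 0 (η - ‖y - pos s‖)` for `s ∈ D₀` and zero otherwise; divide by the sum. -/
theorem exists_weights {I D : Type} [Finite I] [Fintype D] {P A : Set ℂ} {H : I → Set ℂ}
    (hH : ∀ i, IsCompact (H i)) {ι : I → ℂ → ℂ} (hc : ∀ i, ContinuousOn (ι i) (H i))
    (hi : ∀ i, InjOn (ι i) (H i))
    (hd : ∀ i j, ∀ y ∈ H i, ∀ y' ∈ H j, ι i y = ι j y' → i = j) {μ : I → ℂ → D → ℝ}
    (hμ : ∀ i, ContinuousOn (μ i) (H i)) (hs : ∀ i, ∀ y ∈ H i, μ i y ∈ stdSimplex ℝ D)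
    (hP : ∀ z ∈ P, z ∈ A ∨ ∃ i, z ∈ ι i '' H i) {pos : D → ℂ} {D₀ : Set D} {η : ℝ} (hη : 0 < η)
    (hn : ∀ y ∈ A, ∃ s ∈ D₀, ‖y - pos s‖ < η) :
    ∃ lam : ℂ → D → ℝ, ContinuousOn lam P ∧ (∀ y ∈ P, lam y ∈ stdSimplex ℝ D) ∧
      (∀ i, ∀ y ∈ H i, ι i y ∈ P → lam (ι i y) = μ i y) ∧
      ∀ y ∈ P, ∀ s, lam y s ≠ 0 → (s ∈ D₀ ∧ ‖y - pos s‖ < η) ∨
        ∃ i, ∃ y' ∈ H i, ‖y - ι i y'‖ < η ∧ μ i y' s ≠ 0 := by
  classical
  obtain ⟨ν, n1, n2⟩ := glue_emb hH hc hi hd hμ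
  have hF : IsClosed (⋃ i, ι i '' H i) :=
    isClosed_iUnion_of_finite fun i => ((hH i).image_of_continuousOn (hc i)).isClosed
  have n3 : ∀ z ∈ ⋃ i, ι i '' H i, ν z ∈ stdSimplex ℝ D := by
    simp only [mem_iUnion]
    rintro _ ⟨i, y, hy, rfl⟩
    exact n2 i y hy ▸ hs i y hy
  choose v v1 v2 v3 v4 using fun s : D => ext_supp hF (u := fun y => ν y s)
    ((continuous_apply s).comp_continuousOn n1) (fun y hy => (n3 y hy).1 s) hη
  obtain ⟨c, c1, c2, c3, c4⟩ : ∃ c : ℂ → ℝ, Continuous c ∧ (∀ y, 0 ≤ c y) ∧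
      (∀ y ∈ ⋃ i, ι i '' H i, c y = 0) ∧ ∀ y, y ∉ ⋃ i, ι i '' H i → 0 < c y := by
    rcases (⋃ i, ι i '' H i).eq_empty_or_nonempty with h | h
    · exact ⟨fun _ => 1, continuous_const, fun _ => zero_le_one,
        fun y hy => (h.subset hy).elim, fun _ _ => one_pos⟩
    · exact ⟨fun y => infDist y _, continuous_infDist_pt _, fun _ => infDist_nonneg,
        fun y hy => infDist_zero_of_mem hy, fun y hy => (hF.notMem_iff_infDist_pos h).1 hy⟩
  obtain ⟨b, b1, b2, b3, b4⟩ : ∃ b : D → ℂ → ℝ, (∀ s, Continuous (b s)) ∧ (∀ s y, 0 ≤ b s y) ∧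
      (∀ s y, b s y ≠ 0 → s ∈ D₀ ∧ ‖y - pos s‖ < η) ∧
      ∀ s ∈ D₀, ∀ y, ‖y - pos s‖ < η → 0 < b s y := by
    refine ⟨fun s y => if s ∈ D₀ then max 0 (η - ‖y - pos s‖) else 0, fun s => ?_,
      fun s y => ?_, fun s y h => ?_, fun s h y hy => ?_⟩ <;> beta_reduce at *
    · split_ifs <;> fun_prop
    · split_ifs
      · exact le_max_left _ _
      · exact le_rfl
    · split_ifs at h with h1
      · exact ⟨h1, not_le.1 fun h2 => h (max_eq_left (sub_nonpos.2 h2))⟩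
      · exact absurd rfl h
    · rw [if_pos h]
      exact lt_max_of_lt_right (sub_pos.2 hy)
  have a0 : ∀ y s, 0 ≤ v s y + c y * b s y := fun y s =>
    add_nonneg (v2 s y) (mul_nonneg (c2 y) (b2 s y))
  have a1 : ∀ y ∈ ⋃ i, ι i '' H i, ∀ s, v s y + c y * b s y = ν y s := fun y hy s => by
    rw [c3 y hy, zero_mul, add_zero, v3 s hy]
  have a2 : ∀ y ∈ ⋃ i, ι i '' H i, ∑ s, (v s y + c y * b s y) = 1 := fun y hy => by
    simp only [a1 y hy, (n3 y hy).2]
  have a3 : ∀ y ∈ P, 0 < ∑ s, (v s y + c y * b s y) := fun y hy => by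
    by_cases h : y ∈ ⋃ i, ι i '' H i
    · rw [a2 y h]
      exact one_pos
    · obtain ⟨s, h1, h2⟩ := hn y ((hP y hy).resolve_right fun g => h (mem_iUnion.2 g))
      exact Finset.sum_pos' (fun s _ => a0 y s) ⟨s, Finset.mem_univ _,
        add_pos_of_nonneg_of_pos (v2 s y) (mul_pos (c4 y h) (b4 s h1 y h2))⟩
  have a4 : ∀ s, Continuous fun y => v s y + c y * b s y := fun s => (v1 s).add (c1.mul (b1 s))
  refine ⟨fun y s => (v s y + c y * b s y) / ∑ s, (v s y + c y * b s y),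
    continuousOn_pi.2 fun s => (a4 s).continuousOn.div
      (continuous_finsetSum _ fun s _ => a4 s).continuousOn fun y hy => (a3 y hy).ne',
    fun y hy => ⟨fun s => div_nonneg (a0 y s) (a3 y hy).le, ?_⟩, fun i y hy _ => funext fun s => ?_,
    fun y _ s h => ?_⟩
  · rw [← Finset.sum_div, div_self (a3 y hy).ne']
  · have h : ι i y ∈ ⋃ i, ι i '' H i := mem_iUnion.2 ⟨i, y, hy, rfl⟩
    beta_reduce
    rw [a2 _ h, a1 _ h, n2 i y hy, div_one]
  · by_cases h1 : b s y = 0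
    · obtain ⟨z, hz, h2, h3⟩ := v4 s y fun h2 => h (by simp only [h2, h1, mul_zero, add_zero, zero_div])
      obtain ⟨i, y', hy', rfl⟩ := mem_iUnion.1 hz
      exact Or.inr ⟨i, y', hy', h3, n2 i y' hy' ▸ h2⟩
    · exact Or.inl (b3 s y h1)

end Pool.Agent.MP_17e62b_gt.G

/-! The collar, and functions on the sides of the standard polygons. -/

namespace Pool.Agent.MP_17e62b_gt.G

open Set Filter Topology Metric H14
open scoped BigOperators

/-- C1. Hint: copy the first half of the proof of `aug_collar`; off the collar the factor `τ`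
vanishes, so extend `ω` first (Tietze, `ContinuousMap.exists_restrict_eq`). -/
theorem collar {X : Type} [NormedAddCommGroup X] [NormedSpace ℝ X] [FiniteDimensional ℝ X]
    {C : Set ℂ} (hC : IsCompact C) (hCc : Convex ℝ C) (h0 : C ∈ 𝓝 (0 : ℂ)) {ω W : ℂ → X}
    (hω : ContinuousOn ω (frontier C)) (hW : ContinuousOn W C) {θ : ℝ} (hθ : 0 < θ)
    (hθ1 : θ < 1) :
    ∃ Z : ℂ → X, Continuous Z ∧ (∀ x ∈ C, Z (θ • x) = W x) ∧
      (∀ y ∈ frontier C, ∀ t ∈ Icc (0 : ℝ) 1,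
        Z (AffineMap.lineMap (θ • y) y t) = AffineMap.lineMap (W y) (ω y) t) ∧
      ∀ x ∈ C, (∃ z ∈ C, x = θ • z) ∨
        ∃ y ∈ frontier C, ∃ t ∈ Icc (0 : ℝ) 1, x = AffineMap.lineMap (θ • y) y t := by
  have := TietzeExtension.of_tvs.{0} ℝ (E := X)
  obtain ⟨g, hg⟩ := ContinuousMap.exists_restrict_eq isClosed_frontier
    (⟨fun y : frontier C => ω y, hω.domRestrict⟩ : C(frontier C, X))
  have hgω : ∀ y ∈ frontier C, g y = ω y := fun y hy => DFunLike.congr_fun hg ⟨y, hy⟩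
  have hcl := hC.isClosed
  have h1θ : 0 < 1 - θ := by linarith
  have hline : ∀ (y : ℂ) (t : ℝ), AffineMap.lineMap (θ • y) y t = (θ + t * (1 - θ)) • y := by
    intro y t
    rw [AffineMap.lineMap_apply_module]
    module
  set τ : ℂ → ℝ := fun x => (max θ (gauge C x) - θ) / (1 - θ) with hτ
  have hr := continuous_ret hCc h0 hθ
  have hWr : Continuous fun x => W (ret C θ x) :=
    hW.comp_continuous hr (ret_mem hcl hCc h0 hθ)
  have hτc : Continuous τ :=
    ((continuous_const.max (continuous_gauge hCc h0)).sub continuous_const).div_const _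
  refine ⟨fun x => W (ret C θ x) + τ x • (g (ret C θ x) - W (ret C θ x)),
    hWr.add (hτc.smul ((g.continuous.comp hr).sub hWr)), fun z hz => ?_, fun y hy t ht => ?_,
    fun x hx => ?_⟩
  · have hg' : gauge C (θ • z) ≤ θ := by
      rw [gauge_smul_of_nonneg hθ.le, smul_eq_mul]
      exact mul_le_of_le_one_right hθ.le (gauge_le_one_of_mem hz)
    have h1 : ret C θ (θ • z) = z := by
      rw [ret, max_eq_left hg', smul_smul, inv_mul_cancel₀ hθ.ne', one_smul]
    have ht : τ (θ • z) = 0 := by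
      simp only [hτ]
      rw [max_eq_left hg', sub_self, zero_div]
    show W (ret C θ (θ • z)) + τ (θ • z) • (g (ret C θ (θ • z)) - W (ret C θ (θ • z))) = W z
    rw [h1, ht, zero_smul, add_zero]
  · have h1 : θ ≤ θ + t * (1 - θ) := le_add_of_nonneg_right (mul_nonneg ht.1 h1θ.le)
    have hg' : gauge C ((θ + t * (1 - θ)) • y) = θ + t * (1 - θ) := by
      rw [gauge_smul_of_nonneg (hθ.le.trans h1), (gauge_eq_one_iff_mem_frontier hCc h0).2 hy,
        smul_eq_mul, mul_one]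
    have hτ' : τ ((θ + t * (1 - θ)) • y) = t := by
      simp only [hτ]
      rw [hg', max_eq_right h1, add_sub_cancel_left, mul_div_assoc, div_self h1θ.ne', mul_one]
    rw [hline]
    show W (ret C θ _) + τ _ • (g (ret C θ _) - W (ret C θ _)) = _
    rw [ret_frontier hCc h0 hθ hy h1, hτ', hgω y hy, AffineMap.lineMap_apply_module]
    module
  · rcases le_total (gauge C x) θ with h | h
    · refine Or.inl ⟨ret C θ x, ret_mem hcl hCc h0 hθ x, ?_⟩
      rw [ret, max_eq_left h, smul_smul, mul_inv_cancel₀ hθ.ne', one_smul]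
    · have hp : 0 < gauge C x := hθ.trans_le h
      have h1 := gauge_le_one_of_mem hx
      refine Or.inr ⟨(gauge C x)⁻¹ • x, ?_, (gauge C x - θ) / (1 - θ),
        ⟨div_nonneg (by linarith only [h]) h1θ.le, (div_le_one h1θ).2 (by linarith)⟩, ?_⟩
      · rw [← gauge_eq_one_iff_mem_frontier hCc h0, gauge_smul_of_nonneg (inv_nonneg.2 hp.le),
          smul_eq_mul, inv_mul_cancel₀ hp.ne']
      · rw [hline, div_mul_cancel₀ _ h1θ.ne', add_sub_cancel, smul_smul, mul_inv_cancel₀ hp.ne',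
          one_smul]

variable {m : ℕ}

theorem lens_spec (m : ℕ) : (lens m).up = upm m ∧
    ∀ v, v ∈ (lens m).Vt ↔ ∃ k ≤ m + 2, v = vk (m + 2) k 1 ∨ v = vk (m + 2) k (-1) :=
  (exists_lens m).choose_spec

/-- C2. Hint: `Lens.mem_frontier`, `exists_lens_cover`, `exists_lens_side`. -/
theorem side_cover {y : ℂ} (hy : y ∈ frontier (lens m).P) :
    ∃ v v' : (lens m).Vt, LSide m v v' ∧ ∃ t ∈ Icc (0 : ℝ) 1,
      y = AffineMap.lineMap (v : ℂ) (v' : ℂ) t := by
  obtain ⟨hu, hv⟩ := lens_spec m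
  obtain ⟨⟨h1, h2⟩, h3⟩ := (Lens.mem_frontier (lens m) (s := 0)).1 hy
  have him : |y.im| = upm m y.re := by
    rw [← hu]
    rcases h3 with h3 | h3
    · have h0 : (lens m).up y.re = 0 := by
        rcases eq_or_eq_neg_of_abs_eq h3 with h | h
        · rw [h, (lens m).up_one]
        · rw [h, (lens m).up_neg]
      rw [h0] at h2 ⊢
      exact le_antisymm (by simpa using h2) (abs_nonneg _)
    · simpa using h3
  obtain ⟨k, hk, t, ht, hx⟩ := exists_lens_cover m h1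
  obtain ⟨e, he, hy'⟩ : ∃ e : ℝ, (e = 1 ∨ e = -1) ∧ y.im = e * upm m y.re := by
    rcases eq_or_eq_neg_of_abs_eq him with h | h
    · exact ⟨1, .inl rfl, by rw [one_mul]; exact h⟩
    · exact ⟨-1, .inr rfl, by rw [neg_one_mul]; exact h⟩
  have hm : ∀ j ≤ m + 2, vk (m + 2) j e ∈ (lens m).Vt := fun j hj =>
    (hv _).2 ⟨j, hj, by rcases he with rfl | rfl; exacts [.inl rfl, .inr rfl]⟩
  refine ⟨⟨_, hm k hk.le⟩, ⟨_, hm (k + 1) hk⟩, ⟨k, hk, e, he, rfl, rfl⟩, t, ht, ?_⟩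
  simp only
  rw [exists_lens_side hk e ht, ← hx, ← hy']

theorem side_sub {v v' : ℂ} (h : LSide m v v') : segment ℝ v v' ⊆ frontier (lens m).P := by
  obtain ⟨k, hk, e, he, rfl, rfl⟩ := h
  rw [segment_eq_image_lineMap]
  rintro _ ⟨t, ht, rfl⟩
  have h1 : |tk (m + 2) k + t * (2 / (m + 2 : ℕ))| ≤ 1 := by
    have a := abs_le.1 (exists_lens_abs hk.le)
    have b := abs_le.1 (exists_lens_abs (m := m) (k := k + 1) hk)
    rw [exists_lens_succ] at b
    have c : (0 : ℝ) ≤ 2 / (m + 2 : ℕ) := by positivity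
    rw [abs_le]
    constructor <;> nlinarith only [ht.1, ht.2, a, b]
  have h0 : 0 ≤ upm m (tk (m + 2) k + t * (2 / (m + 2 : ℕ))) := by
    have := (lens m).half_le h1
    rw [(lens_spec m).1] at this
    linarith only [h1, this]
  have h2 : |e * upm m (tk (m + 2) k + t * (2 / (m + 2 : ℕ)))| =
      upm m (tk (m + 2) k + t * (2 / (m + 2 : ℕ))) := by
    rcases he with rfl | rfl
    · rw [one_mul, abs_of_nonneg h0]
    · rw [neg_one_mul, abs_neg, abs_of_nonneg h0]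
  rw [exists_lens_side hk e ht]
  refine (Lens.mem_frontier (lens m) (s := 0)).2 ⟨⟨h1, ?_⟩, .inr ?_⟩ <;>
    simp only [(lens_spec m).1, add_zero, h2, le_refl]

theorem side_re {v v' : ℂ} (h : LSide m v v') : v.re < v'.re := by
  obtain ⟨k, -, e, -, rfl, rfl⟩ := h
  show tk (m + 2) k < tk (m + 2) (k + 1)
  rw [exists_lens_succ]
  have c : (0 : ℝ) < 2 / (m + 2 : ℕ) := by positivity
  linarith

/-- C3. Two sides meet at vertices only. Hint: compare real parts; in the open side the imaginary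
part has the sign `e` (`Lens.half_le`). -/
theorem side_uniq {v v' w w' : ℂ} (h : LSide m v v') (h' : LSide m w w') {t t' : ℝ}
    (ht : t ∈ Icc (0 : ℝ) 1) (ht' : t' ∈ Icc (0 : ℝ) 1)
    (he : AffineMap.lineMap v v' t = AffineMap.lineMap w w' t') :
    (v = w ∧ v' = w' ∧ t = t') ∨ ((t = 0 ∨ t = 1) ∧ (t' = 0 ∨ t' = 1)) := by
  obtain ⟨k, hk, e, h1, rfl, rfl⟩ := h
  obtain ⟨k', hk', e', h1', rfl, rfl⟩ := h'
  rw [exists_lens_side hk e ht, exists_lens_side hk' e' ht'] at he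
  have c : (0 : ℝ) < (m + 2 : ℕ) := by positivity
  have hre := congrArg Complex.re he
  have him := congrArg Complex.im he
  simp only at hre him
  have hs : (k : ℝ) + t = k' + t' := by
    simp only [tk] at hre
    field_simp at hre
    linarith only [hre]
  rcases lt_trichotomy k k' with hl | rfl | hl
  · have : (k : ℝ) + 1 ≤ k' := by exact_mod_cast hl
    exact .inr ⟨.inr (by linarith only [ht.2, ht'.1, hs, this]), .inl (by linarith only [ht.2, ht'.1, hs, this])⟩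
  · have htt : t = t' := by linarith only [hs]
    subst htt
    by_cases hee : e = e'
    · subst hee
      exact .inl ⟨rfl, rfl, rfl⟩
    · have h0 : upm m (tk (m + 2) k + t * (2 / (m + 2 : ℕ))) = 0 := by
        by_contra hn
        exact hee (mul_right_cancel₀ hn him)
      by_contra hn
      have ht0 : t ≠ 0 := fun h => hn (.inr ⟨.inl h, .inl h⟩)
      have ht1 : t ≠ 1 := fun h => hn (.inr ⟨.inr h, .inr h⟩)
      have p0 := lt_of_le_of_ne ht.1 ht0.symm
      have p1 := lt_of_le_of_ne ht.2 ht1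
      have a := abs_le.1 (exists_lens_abs hk.le)
      have b := abs_le.1 (exists_lens_abs (m := m) (k := k + 1) hk)
      rw [exists_lens_succ] at b
      have c' : (0 : ℝ) < 2 / (m + 2 : ℕ) := by positivity
      have h2 : |tk (m + 2) k + t * (2 / (m + 2 : ℕ))| < 1 := by
        rw [abs_lt]
        constructor <;> nlinarith only [p0, a, c', p1, b]
      have := (lens m).half_le h2.le
      rw [(lens_spec m).1, h0] at this
      linarith only [h2, this]
  · have : (k' : ℝ) + 1 ≤ k := by exact_mod_cast hl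
    exact .inr ⟨.inl (by linarith only [ht.1, ht'.2, hs, this]), .inr (by linarith only [ht.1, ht'.2, hs, this])⟩

theorem side_end (v : (lens m).Vt) :
    ∃ v' : (lens m).Vt, LSide m v v' ∨ LSide m v' v := by
  obtain ⟨k, hk, h⟩ := ((lens_spec m).2 v).1 v.2
  obtain ⟨e, he, hv⟩ : ∃ e : ℝ, (e = 1 ∨ e = -1) ∧ (v : ℂ) = vk (m + 2) k e := by
    rcases h with h | h
    exacts [⟨1, .inl rfl, h⟩, ⟨-1, .inr rfl, h⟩]
  have hm : ∀ j ≤ m + 2, vk (m + 2) j e ∈ (lens m).Vt := fun j hj =>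
    ((lens_spec m).2 _).2 ⟨j, hj, by rcases he with rfl | rfl; exacts [.inl rfl, .inr rfl]⟩
  rcases hk.lt_or_eq with hk | rfl
  · exact ⟨⟨_, hm (k + 1) hk⟩, .inl ⟨k, hk, e, he, hv, rfl⟩⟩
  · exact ⟨⟨_, hm (m + 1) (by omega)⟩, .inr ⟨m + 1, by omega, e, he, rfl, hv⟩⟩

/-- C4. Hint: choose a side and a parameter (`side_cover`); by `side_uniq` the value does not
depend on the choice; on a side the parameter is a continuous function of the real part. -/
theorem glue_sides {X : Type} [TopologicalSpace X] (φ : (lens m).Vt → X)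
    (u : (lens m).Vt → (lens m).Vt → ℝ → X)
    (hu : ∀ v v' : (lens m).Vt, LSide m v v' → ContinuousOn (u v v') (Icc 0 1) ∧
      u v v' 0 = φ v ∧ u v v' 1 = φ v') :
    ∃ ω : ℂ → X, ContinuousOn ω (frontier (lens m).P) ∧ ∀ v v' : (lens m).Vt, LSide m v v' →
      ∀ t ∈ Icc (0 : ℝ) 1, ω (AffineMap.lineMap (v : ℂ) (v' : ℂ) t) = u v v' t := by
  classical
  have key : ∀ v v' w w' : (lens m).Vt, LSide m v v' → LSide m w w' → ∀ t ∈ Icc (0 : ℝ) 1,
      ∀ t' ∈ Icc (0 : ℝ) 1, AffineMap.lineMap (v : ℂ) (v' : ℂ) t =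
        AffineMap.lineMap (w : ℂ) (w' : ℂ) t' → u v v' t = u w w' t' := by
    intro v v' w w' h h' t ht t' ht' he
    obtain ⟨-, a0, a1⟩ := hu v v' h
    obtain ⟨-, b0, b1⟩ := hu w w' h'
    rcases side_uniq h h' ht ht' he with ⟨e1, e2, rfl⟩ | ⟨rfl | rfl, rfl | rfl⟩
    · rw [Subtype.ext e1, Subtype.ext e2]
    all_goals
      simp only [AffineMap.lineMap_apply_zero, AffineMap.lineMap_apply_one] at he
      simp only [a0, a1, b0, b1]
      exact congrArg φ (Subtype.ext he)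
  have hex : ∀ y : ℂ, ∃ x : X, ∀ v v' : (lens m).Vt, LSide m v v' → ∀ t ∈ Icc (0 : ℝ) 1,
      y = AffineMap.lineMap (v : ℂ) (v' : ℂ) t → x = u v v' t := by
    intro y
    by_cases hy : ∃ v v' : (lens m).Vt, LSide m v v' ∧ ∃ t ∈ Icc (0 : ℝ) 1,
        y = AffineMap.lineMap (v : ℂ) (v' : ℂ) t
    · obtain ⟨v, v', h, t, ht, rfl⟩ := hy
      exact ⟨u v v' t, fun w w' h' t' ht' he => key v v' w w' h h' t ht t' ht' he⟩
    · exact ⟨φ ⟨1, (lens m).one_mem⟩, fun v v' h t ht he => (hy ⟨v, v', h, t, ht, he⟩).elim⟩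
  choose ω hω using hex
  refine ⟨ω, ?_, fun v v' h t ht => hω _ v v' h t ht rfl⟩
  have hc : ∀ a : {a : (lens m).Vt × (lens m).Vt // LSide m a.1 a.2},
      ContinuousOn ω (segment ℝ (a.1.1 : ℂ) a.1.2) := by
    rintro ⟨⟨v, v'⟩, h⟩
    have hlt := sub_pos.2 (side_re h)
    have hp : ∀ t : ℝ, ((AffineMap.lineMap (v : ℂ) (v' : ℂ) t : ℂ).re - (v : ℂ).re) /
        ((v' : ℂ).re - (v : ℂ).re) = t := fun t => by
      rw [div_eq_iff hlt.ne']
      simp [AffineMap.lineMap_apply]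
    have hcont : Continuous fun y : ℂ => (y.re - (v : ℂ).re) / ((v' : ℂ).re - (v : ℂ).re) := by
      fun_prop
    refine ((hu v v' h).1.comp hcont.continuousOn ?_).congr ?_
    · rw [segment_eq_image_lineMap]
      rintro _ ⟨t, ht, rfl⟩
      simpa only [hp] using ht
    · rw [segment_eq_image_lineMap]
      rintro _ ⟨t, ht, rfl⟩
      simp only [Function.comp, hp]
      exact hω _ v v' h t ht rfl
  refine ((locallyFinite_of_finite _).continuousOn_iUnion (fun a => ?_) hc).mono fun y hy => ?_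
  · rw [segment_eq_image_lineMap]
    exact (isCompact_Icc.image AffineMap.lineMap_continuous).isClosed
  · obtain ⟨v, v', h, t, ht, rfl⟩ := side_cover hy
    exact mem_iUnion.2 ⟨⟨(v, v'), h⟩, by
      rw [segment_eq_image_lineMap]; exact ⟨t, ht, rfl⟩⟩

/-- C5. Hint: `a` the largest parameter in `T ∪ {0}` with `p`, `b` the least in `T ∪ {1}` without;
`a < b`; `σ t = max 0 (min 1 ((t - a) / (b - a)))`. -/
theorem exists_sigma {p : ℝ → Prop} (h0 : p 0) (h1 : ¬ p 1)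
    (hm : ∀ s ∈ Icc (0 : ℝ) 1, p s ∨ ∀ s' ∈ Icc s 1, ¬ p s') {T : Set ℝ} (hT : T.Finite) :
    ∃ σ : ℝ → ℝ, Continuous σ ∧ Monotone σ ∧ σ 0 = 0 ∧ σ 1 = 1 ∧
      ∀ t ∈ T, t ∈ Icc (0 : ℝ) 1 → (p t → σ t = 0) ∧ (¬ p t → σ t = 1) := by
  obtain ⟨a, ⟨-, ha, hpa⟩, hamax⟩ := Set.exists_max_image
    {t | t ∈ insert (0 : ℝ) T ∧ t ∈ Icc (0 : ℝ) 1 ∧ p t} id
    ((hT.insert 0).subset fun _ h => h.1) ⟨0, mem_insert _ _, left_mem_Icc.2 zero_le_one, h0⟩
  obtain ⟨b, ⟨-, hb, hpb⟩, hbmin⟩ := Set.exists_min_image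
    {t | t ∈ insert (1 : ℝ) T ∧ t ∈ Icc (0 : ℝ) 1 ∧ ¬ p t} id
    ((hT.insert 1).subset fun _ h => h.1) ⟨1, mem_insert _ _, right_mem_Icc.2 zero_le_one, h1⟩
  have hab : 0 < b - a := by
    refine sub_pos.2 (lt_of_not_ge fun h => ?_)
    rcases hm b hb with h' | h'
    · exact hpb h'
    · exact h' a ⟨h, ha.2⟩ hpa
  have hlo : ∀ t, t ≤ a → max 0 (min 1 ((t - a) / (b - a))) = (0 : ℝ) := fun t ht =>
    max_eq_left ((min_le_right _ _).trans
      (div_nonpos_of_nonpos_of_nonneg (sub_nonpos.2 ht) hab.le))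
  have hhi : ∀ t, b ≤ t → max 0 (min 1 ((t - a) / (b - a))) = (1 : ℝ) := fun t ht => by
    rw [min_eq_left ((one_le_div hab).2 (by linarith)), max_eq_right zero_le_one]
  refine ⟨fun t => max 0 (min 1 ((t - a) / (b - a))),
    continuous_const.max (continuous_const.min
      ((continuous_id.sub continuous_const).div_const _)),
    fun s t hst => max_le_max le_rfl (min_le_min le_rfl
      (div_le_div_of_nonneg_right (by linarith) hab.le)),
    hlo 0 ha.1, hhi 1 hb.2, fun t htT ht => ⟨fun h => hlo t ?_, fun h => hhi t ?_⟩⟩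
  · exact hamax t ⟨mem_insert_of_mem _ htT, ht, h⟩
  · exact hbmin t ⟨mem_insert_of_mem _ htT, ht, h⟩

/-- C6. Hint: `glue_sides` with `lineMap v v' (σ' t)`, `σ' t = (1 - τ) σ t + τ t` strictly
increasing from `0` to `1`, `τ = min 1 (δ / 4)`; `side_uniq`; `‖v - v'‖ ≤ 4`. -/
theorem exists_beta (σ : (lens m).Vt → (lens m).Vt → ℝ → ℝ)
    (hσ : ∀ v v' : (lens m).Vt, LSide m v v' → Continuous (σ v v') ∧ Monotone (σ v v') ∧
      σ v v' 0 = 0 ∧ σ v v' 1 = 1) {δ : ℝ} (hδ : 0 < δ) :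
    ∃ β : ℂ → ℂ, ContinuousOn β (frontier (lens m).P) ∧
      BijOn β (frontier (lens m).P) (frontier (lens m).P) ∧ (∀ v ∈ (lens m).Vt, β v = v) ∧
      ∀ v v' : (lens m).Vt, LSide m v v' → ∀ t ∈ Icc (0 : ℝ) 1,
        ‖AffineMap.lineMap (v : ℂ) (v' : ℂ) (σ v v' t) -
          β (AffineMap.lineMap (v : ℂ) (v' : ℂ) t)‖ ≤ δ := by
  set τ : ℝ := min 1 (δ / 4) with hτ
  have hτ0 : 0 < τ := lt_min zero_lt_one (by positivity)
  have hτ1 : τ ≤ 1 := min_le_left _ _
  have hτδ : τ ≤ δ / 4 := min_le_right _ _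
  set s : (lens m).Vt → (lens m).Vt → ℝ → ℝ := fun v v' t => (1 - τ) * σ v v' t + τ * t with hs
  have hsc : ∀ v v' : (lens m).Vt, LSide m v v' → Continuous (s v v') := fun v v' h =>
    (continuous_const.mul (hσ v v' h).1).add (continuous_const.mul continuous_id)
  have hsm : ∀ v v' : (lens m).Vt, LSide m v v' → StrictMono (s v v') := fun v v' h a b hab => by
    have h1 := mul_le_mul_of_nonneg_left ((hσ v v' h).2.1 hab.le) (sub_nonneg.2 hτ1)
    have h2 := mul_lt_mul_of_pos_left hab hτ0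
    simp only [hs]
    linarith only [h1, h2]
  have hs0 : ∀ v v' : (lens m).Vt, LSide m v v' → s v v' 0 = 0 := fun v v' h => by
    simp only [hs]
    rw [(hσ v v' h).2.2.1]; ring
  have hs1 : ∀ v v' : (lens m).Vt, LSide m v v' → s v v' 1 = 1 := fun v v' h => by
    simp only [hs]
    rw [(hσ v v' h).2.2.2]; ring
  have hsI : ∀ v v' : (lens m).Vt, LSide m v v' → ∀ t ∈ Icc (0 : ℝ) 1,
      s v v' t ∈ Icc (0 : ℝ) 1 := fun v v' h t ht =>
    ⟨hs0 v v' h ▸ (hsm v v' h).monotone ht.1, hs1 v v' h ▸ (hsm v v' h).monotone ht.2⟩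
  have hsE : ∀ v v' : (lens m).Vt, LSide m v v' → ∀ t, s v v' t = 0 ∨ s v v' t = 1 →
      s v v' t = t := fun v v' h t ht => by
    rcases ht with ht | ht
    · rw [ht]; exact ((hsm v v' h).injective (ht.trans (hs0 v v' h).symm)).symm
    · rw [ht]; exact ((hsm v v' h).injective (ht.trans (hs1 v v' h).symm)).symm
  have hF : ∀ v v' : (lens m).Vt, LSide m v v' → ∀ t ∈ Icc (0 : ℝ) 1,
      AffineMap.lineMap (v : ℂ) (v' : ℂ) t ∈ frontier (lens m).P := fun v v' h t ht =>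
    side_sub h (by rw [segment_eq_image_lineMap]; exact mem_image_of_mem _ ht)
  obtain ⟨β, hβc, hβ⟩ := glue_sides (m := m) (fun v => (v : ℂ))
    (fun v v' t => AffineMap.lineMap (v : ℂ) (v' : ℂ) (s v v' t)) fun v v' h =>
      ⟨(AffineMap.lineMap_continuous.comp (hsc v v' h)).continuousOn,
        by rw [hs0 v v' h, AffineMap.lineMap_apply_zero],
        by rw [hs1 v v' h, AffineMap.lineMap_apply_one]⟩
  refine ⟨β, hβc, ⟨fun y hy => ?_, fun y hy y' hy' he => ?_, fun y hy => ?_⟩, fun v hv => ?_,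
    fun v v' h t ht => ?_⟩
  · obtain ⟨v, v', h, t, ht, rfl⟩ := side_cover hy
    rw [hβ v v' h t ht]
    exact hF v v' h _ (hsI v v' h t ht)
  · obtain ⟨v, v', h, t, ht, rfl⟩ := side_cover hy
    obtain ⟨w, w', h', t', ht', rfl⟩ := side_cover hy'
    rw [hβ v v' h t ht, hβ w w' h' t' ht'] at he
    rcases side_uniq h h' (hsI v v' h t ht) (hsI w w' h' t' ht') he with ⟨e1, e2, e3⟩ | ⟨e1, e2⟩
    · obtain rfl : v = w := Subtype.ext e1
      obtain rfl : v' = w' := Subtype.ext e2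
      rw [(hsm v v' h).injective e3]
    · rwa [hsE v v' h t e1, hsE w w' h' t' e2] at he
  · obtain ⟨v, v', h, t, ht, rfl⟩ := side_cover hy
    obtain ⟨r, hr, hrt⟩ := intermediate_value_Icc zero_le_one (hsc v v' h).continuousOn
      (show t ∈ Icc (s v v' 0) (s v v' 1) by rwa [hs0 v v' h, hs1 v v' h])
    exact ⟨_, hF v v' h r hr, by rw [hβ v v' h r hr, hrt]⟩
  · obtain ⟨v', h | h⟩ := side_end (m := m) ⟨v, hv⟩
    · have := hβ ⟨v, hv⟩ v' h 0 (left_mem_Icc.2 zero_le_one)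
      rwa [hs0 _ _ h, AffineMap.lineMap_apply_zero] at this
    · have := hβ v' ⟨v, hv⟩ h 1 (right_mem_Icc.2 zero_le_one)
      rwa [hs1 _ _ h, AffineMap.lineMap_apply_one] at this
  · have h1 : ‖(v' : ℂ) - v‖ ≤ 4 := by
      have a1 := (lens m).norm_le (s := 0) (by norm_num) ((lens m).vt_mem v.2)
      have a2 := (lens m).norm_le (s := 0) (by norm_num) ((lens m).vt_mem v'.2)
      linarith only [norm_sub_le (v' : ℂ) v, a1, a2]
    have h2 : σ v v' t ∈ Icc (0 : ℝ) 1 :=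
      ⟨(hσ v v' h).2.2.1 ▸ (hσ v v' h).2.1 ht.1, (hσ v v' h).2.2.2 ▸ (hσ v v' h).2.1 ht.2⟩
    have h3 : |σ v v' t - t| ≤ 1 := abs_le.2 ⟨by linarith only [h2.1, ht.2], by linarith [h2.2, ht.1]⟩
    have e : AffineMap.lineMap (v : ℂ) (v' : ℂ) (σ v v' t) -
        AffineMap.lineMap (v : ℂ) (v' : ℂ) (s v v' t) =
          (τ * (σ v v' t - t)) • ((v' : ℂ) - v) := by
      simp only [hs, AffineMap.lineMap_apply_module]
      module
    rw [hβ v v' h t ht, e, norm_smul, Real.norm_eq_abs, abs_mul, abs_of_pos hτ0]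
    have h4 : τ * |σ v v' t - t| ≤ δ / 4 := (mul_le_of_le_one_right hτ0.le h3).trans hτδ
    calc τ * |σ v v' t - t| * ‖(v' : ℂ) - v‖ ≤ δ / 4 * 4 :=
          mul_le_mul h4 h1 (norm_nonneg _) (by positivity)
      _ = δ := by ring

end Pool.Agent.MP_17e62b_gt.G

/-! From the exit law at the states to the exit law on the polygon. -/

namespace Pool.Agent.MP_17e62b_gt.G

open Set Filter Topology Metric H14
open scoped BigOperators

variable {m : ℕ} {D : Type} [Fintype D]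

/-- `x` and `y` lie in a connected subset of `P` on which `u` is at least `c`. -/
def Abv (P : Set ℂ) (u : ℂ → ℝ) (c : ℝ) (x y : ℂ) : Prop :=
  ∃ C ⊆ P, IsPreconnected C ∧ x ∈ C ∧ y ∈ C ∧ ∀ z ∈ C, c ≤ u z

theorem Abv.trans {P : Set ℂ} {u : ℂ → ℝ} {c : ℝ} {x y z : ℂ} (h : Abv P u c x y)
    (h' : Abv P u c y z) : Abv P u c x z := by
  obtain ⟨C, h1, h2, h3, h4, h5⟩ := h
  obtain ⟨C', g1, g2, g3, g4, g5⟩ := h'
  exact ⟨C ∪ C', union_subset h1 g1, h2.union y h4 g3 g2, Or.inl h3, Or.inr g4,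
    fun w hw => hw.elim (h5 w) (g5 w)⟩

theorem Abv.symm {P : Set ℂ} {u : ℂ → ℝ} {c : ℝ} {x y : ℂ} (h : Abv P u c x y) :
    Abv P u c y x := by
  obtain ⟨C, h1, h2, h3, h4, h5⟩ := h
  exact ⟨C, h1, h2, h4, h3, h5⟩

theorem Abv.mono {P : Set ℂ} {u : ℂ → ℝ} {c c' : ℝ} {x y : ℂ} (h : Abv P u c x y) (hc : c' ≤ c) :
    Abv P u c' x y := by
  obtain ⟨C, h1, h2, h3, h4, h5⟩ := h
  exact ⟨C, h1, h2, h3, h4, fun z hz => hc.trans (h5 z hz)⟩

open Classical in
/-- The states `In` of one disc, their law `Φ` and the interpolation `W`. -/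
structure Loc14 (lab : ℂ → (lens m).Vt) (In : Set D) (pos : D → ℂ) (q : D → D → ℝ)
    (Φ : D → (lens m).Vt → ℝ) (W : ℂ → (lens m).Vt → ℝ) (δ : ℝ) : Prop where
  nonneg : ∀ s s', 0 ≤ q s s'
  closed : ∀ s ∈ In, ∀ s', 0 < q s s' → s' ∈ In
  mem : ∀ s ∈ In, pos s ∈ (lens m).P
  abs : ∀ A : Set D, A.Nonempty → A ⊆ In → (∀ s ∈ A, ∀ s', 0 < q s s' → s' ∈ A) →
    ∃ s ∈ A, pos s ∈ frontier (lens m).P
  harm : ∀ s ∈ In, ∑ s', q s s' • (Φ s' - Φ s) +
    (if pos s ∈ frontier (lens m).P then Pi.single (lab (pos s)) 1 - Φ s else 0) = 0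
  cont : ContinuousOn W (lens m).P
  simplex : ∀ y ∈ (lens m).P, W y ∈ stdSimplex ℝ (lens m).Vt
  at_pos : ∀ s ∈ In, ‖W (pos s) - Φ s‖ ≤ δ
  up : ∀ x ∈ (lens m).P, ∀ l : ((lens m).Vt → ℝ) →L[ℝ] ℝ, ‖l‖ ≤ 1 → ∃ s ∈ In,
    l (W x) - δ ≤ l (Φ s) ∧ Abv (lens m).P (fun z => l (W z)) (l (W x) - δ) x (pos s)
  jump : ∀ s ∈ In, ∀ s', 0 < q s s' → ∀ l : ((lens m).Vt → ℝ) →L[ℝ] ℝ, ‖l‖ ≤ 1 →
    Abv (lens m).P (fun z => l (W z)) (min (l (Φ s)) (l (Φ s')) - δ) (pos s) (pos s')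
  side : ∀ v v' : (lens m).Vt, LSide m v v' → lab v = v ∧ lab v' = v' ∧
    ∀ s ∈ Icc (0 : ℝ) 1, lab (AffineMap.lineMap (v : ℂ) (v' : ℂ) s) = v ∨
      ∀ s' ∈ Icc s 1, lab (AffineMap.lineMap (v : ℂ) (v' : ℂ) s') = v'

variable {lab : ℂ → (lens m).Vt} {In : Set D} {pos : D → ℂ} {q : D → D → ℝ}
  {Φ : D → (lens m).Vt → ℝ} {W : ℂ → (lens m).Vt → ℝ} {δ : ℝ}

open Classical in
/-- D1. Ascent to a gate. Hint: `asc` on `D ⊕ D` with the rates `q s s'` from `inl s` to `inl s'`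
and one from `inl s` to `inr s` at gates, absorbing off `inl '' In`; `u (inl s) = l (Φ s)`,
`u (inr s) = l (single (lab (pos s)) 1)`. Induction along the chain with `jump`. -/
theorem Loc14.ascend (h : Loc14 lab In pos q Φ W δ) {s : D} (hs : s ∈ In)
    (l : ((lens m).Vt → ℝ) →L[ℝ] ℝ) (hl : ‖l‖ ≤ 1) :
    ∃ u ∈ In, pos u ∈ frontier (lens m).P ∧ l (Φ s) ≤ l (Pi.single (lab (pos u)) 1) ∧
      Abv (lens m).P (fun z => l (W z)) (l (Φ s) - δ) (pos s) (pos u) := by
  by_contra hn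
  have s0 : Abv (lens m).P (fun z => l (W z)) (l (Φ s) - δ) (pos s) (pos s) := by
    refine ⟨{pos s}, singleton_subset_iff.2 (h.mem s hs), isPreconnected_singleton, rfl, rfl, ?_⟩
    rintro _ rfl
    have h1 := abs_le.1 ((l.le_opNorm (W (pos s) - Φ s)).trans
      ((mul_le_of_le_one_left (norm_nonneg _) hl).trans (h.at_pos s hs)))
    rw [map_sub] at h1
    linarith [h1.1]
  obtain ⟨x, hx, hm⟩ := exists_max_image {u | u ∈ In ∧ l (Φ s) ≤ l (Φ u) ∧
    Abv (lens m).P (fun z => l (W z)) (l (Φ s) - δ) (pos s) (pos u)} (fun u => l (Φ u))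
    (toFinite _) ⟨s, hs, le_rfl, s0⟩
  have st : ∀ u ∈ In, l (Φ u) = l (Φ x) →
      Abv (lens m).P (fun z => l (W z)) (l (Φ s) - δ) (pos s) (pos u) → ∀ u', 0 < q u u' →
      l (Φ s) ≤ l (Φ u') → Abv (lens m).P (fun z => l (W z)) (l (Φ s) - δ) (pos s) (pos u') :=
    fun u h1 h2 h3 u' h4 h5 => h3.trans ((h.jump u h1 u' h4 l hl).mono
      (sub_le_sub_right (le_min (hx.2.1.trans h2.ge) h5) δ))
  have key : ∀ u ∈ In, l (Φ u) = l (Φ x) →
      Abv (lens m).P (fun z => l (W z)) (l (Φ s) - δ) (pos s) (pos u) →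
      pos u ∉ frontier (lens m).P ∧ ∀ u', 0 < q u u' → l (Φ u') = l (Φ x) := by
    intro u h1 h2 h3
    have t1 : ∀ u' ∈ Finset.univ, q u u' * (l (Φ u') - l (Φ u)) ≤ 0 := by
      intro u' _
      rcases (h.nonneg u u').eq_or_lt with h4 | h4
      · rw [← h4, zero_mul]
      · refine mul_nonpos_of_nonneg_of_nonpos h4.le (sub_nonpos.2 (h2 ▸ ?_))
        rcases le_total (l (Φ s)) (l (Φ u')) with h5 | h5
        · exact hm u' ⟨h.closed u h1 u' h4, h5, st u h1 h2 h3 u' h4 h5⟩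
        · exact h5.trans hx.2.1
    have t2 := congrArg l (h.harm u h1)
    simp only [map_add, map_sum, map_smul, map_sub, map_zero, smul_eq_mul] at t2
    have t3 : pos u ∉ frontier (lens m).P := fun hf => by
      rw [if_pos hf, map_sub] at t2
      exact hn ⟨u, h1, hf, by linarith [Finset.sum_nonpos t1, hx.2.1], h3⟩
    rw [if_neg t3, map_zero, add_zero] at t2
    refine ⟨t3, fun u' h4 => ?_⟩
    have t4 := (Finset.sum_eq_zero_iff_of_nonpos t1).1 t2 u' (Finset.mem_univ _)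
    rw [← h2]
    exact sub_eq_zero.1 ((mul_eq_zero.1 t4).resolve_left h4.ne')
  obtain ⟨u, ⟨h1, h2, h3⟩, h4⟩ := h.abs {u | u ∈ In ∧ l (Φ u) = l (Φ x) ∧
    Abv (lens m).P (fun z => l (W z)) (l (Φ s) - δ) (pos s) (pos u)} ⟨x, hx.1, rfl, hx.2.2⟩
    (fun _ hu => hu.1) fun u ⟨h1, h2, h3⟩ u' h4 => ⟨h.closed u h1 u' h4, (key u h1 h2 h3).2 u' h4,
      st u h1 h2 h3 u' h4 (hx.2.1.trans ((key u h1 h2 h3).2 u' h4).ge)⟩
  exact (key u h1 h2 h3).1 h4

theorem exists_omega_seg {v v' : ℂ} (h : LSide m v v') {u : ℂ → ℝ} {c a b : ℝ} (ha : 0 ≤ a)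
    (hab : a ≤ b) (hb : b ≤ 1) (hu : ∀ r ∈ Icc a b, c ≤ u (AffineMap.lineMap v v' r)) :
    Abv (frontier (lens m).P) u c (AffineMap.lineMap v v' a) (AffineMap.lineMap v v' b) := by
  refine ⟨AffineMap.lineMap v v' '' Icc a b, ((image_mono (Icc_subset_Icc ha hb)).trans
    (segment_eq_image_lineMap ℝ v v').ge).trans (side_sub h),
    isPreconnected_Icc.image _ AffineMap.lineMap_continuous.continuousOn,
    ⟨a, ⟨le_rfl, hab⟩, rfl⟩, ⟨b, ⟨hab, le_rfl⟩, rfl⟩, ?_⟩
  rintro _ ⟨r, hr, rfl⟩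
  exact hu r hr

theorem exists_omega_cmb {ι : Type} [Fintype ι] [DecidableEq ι] (T : ι → ℂ) (v v' : ι) (r : ℝ) :
    cmb T (AffineMap.lineMap (Pi.single v 1 : ι → ℝ) (Pi.single v' 1) r) =
      AffineMap.lineMap (T v) (T v') r := by
  simp only [cmb, AffineMap.lineMap_apply_module, Pi.add_apply, Pi.smul_apply, Pi.single_apply, smul_eq_mul, mul_ite, mul_one, mul_zero, add_smul, ite_smul, zero_smul, Finset.sum_add_distrib, Finset.sum_ite_eq', Finset.mem_univ, ↓ reduceIte]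

open Classical in
/-- D2. The values on the frontier. Hint: `exists_sigma` on every side with `p t` meaning that the
label of `lineMap v v' t` is `v` and `T` the preimage of `Eb`; `glue_sides` with
`lineMap (single v 1) (single v' 1) (σ t)`; `exists_beta`. For the last clause: on a side `l ∘ ω`
is monotone and is `l (single v 1)` between `b` and `v` if the label of `b ∈ Eb` is `v`. -/
theorem exists_omega (lab : ℂ → (lens m).Vt)
    (hl : ∀ v v' : (lens m).Vt, LSide m v v' → lab v = v ∧ lab v' = v' ∧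
      ∀ s ∈ Icc (0 : ℝ) 1, lab (AffineMap.lineMap (v : ℂ) (v' : ℂ) s) = v ∨
        ∀ s' ∈ Icc s 1, lab (AffineMap.lineMap (v : ℂ) (v' : ℂ) s') = v')
    {Eb : Set ℂ} (hE : Eb.Finite) {δ : ℝ} (hδ : 0 < δ) :
    ∃ ω : ℂ → (lens m).Vt → ℝ, ContinuousOn ω (frontier (lens m).P) ∧
      (∀ v : (lens m).Vt, ω v = Pi.single v 1) ∧
      (∀ v v' : (lens m).Vt, LSide m v v' → ∀ y ∈ segment ℝ (v : ℂ) v',
        ω y ∈ segment ℝ (Pi.single v 1 : (lens m).Vt → ℝ) (Pi.single v' 1)) ∧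
      (∃ β : ℂ → ℂ, ContinuousOn β (frontier (lens m).P) ∧
        BijOn β (frontier (lens m).P) (frontier (lens m).P) ∧ (∀ v ∈ (lens m).Vt, β v = v) ∧
        ∀ y ∈ frontier (lens m).P, ‖cmb (fun v : (lens m).Vt => (v : ℂ)) (ω y) - β y‖ ≤ δ) ∧
      (∀ y ∈ frontier (lens m).P, ∀ l : ((lens m).Vt → ℝ) →L[ℝ] ℝ, ∃ v : (lens m).Vt,
        Abv (frontier (lens m).P) (fun z => l (ω z)) (l (ω y)) y v) ∧
      ∀ b ∈ Eb, b ∈ frontier (lens m).P → ω b = Pi.single (lab b) 1 ∧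
        ∀ l : ((lens m).Vt → ℝ) →L[ℝ] ℝ,
          Abv (frontier (lens m).P) (fun z => l (ω z)) (l (ω b)) b (lab b) := by
  have hs : ∀ v v' : (lens m).Vt, ∃ σ : ℝ → ℝ, LSide m v v' →
      (Continuous σ ∧ Monotone σ ∧ σ 0 = 0 ∧ σ 1 = 1) ∧ ∀ t ∈ Icc (0 : ℝ) 1,
        AffineMap.lineMap (v : ℂ) (v' : ℂ) t ∈ Eb →
          (lab (AffineMap.lineMap (v : ℂ) (v' : ℂ) t) = v ∧ σ t = 0) ∨
          (lab (AffineMap.lineMap (v : ℂ) (v' : ℂ) t) = v' ∧ σ t = 1) := by
    intro v v'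
    by_cases h : LSide m v v'
    swap
    · exact ⟨id, fun g => absurd g h⟩
    have ne : (v : ℂ) ≠ v' := fun e => (side_re h).ne (congrArg _ e)
    obtain ⟨l1, l2, l3⟩ := hl v v' h
    obtain ⟨σ, s1, s2, s3, s4, s5⟩ := exists_sigma
      (p := fun t => lab (AffineMap.lineMap (v : ℂ) (v' : ℂ) t) = v) (by simpa using l1)
      (by simpa [l2] using fun e => ne (congrArg _ (Eq.symm e)))
      (fun s hs => (l3 s hs).imp_right fun g s' hs' e =>
        ne (congrArg _ (e.symm.trans (g s' hs'))))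
      (hE.preimage (AffineMap.lineMap_injective ℝ ne).injOn)
    refine ⟨σ, fun _ => ⟨⟨s1, s2, s3, s4⟩, fun t ht hb => ?_⟩⟩
    by_cases g : lab (AffineMap.lineMap (v : ℂ) (v' : ℂ) t) = v
    · exact Or.inl ⟨g, (s5 t hb ht).1 g⟩
    · exact Or.inr ⟨(l3 t ht).resolve_left g t ⟨le_rfl, ht.2⟩, (s5 t hb ht).2 g⟩
  choose σ hσ using hs
  obtain ⟨ω, w1, w2⟩ := glue_sides (fun v : (lens m).Vt => (Pi.single v 1 : (lens m).Vt → ℝ))
    (fun v v' t => AffineMap.lineMap (Pi.single v 1 : (lens m).Vt → ℝ) (Pi.single v' 1) (σ v v' t))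
    fun v v' h => ⟨(AffineMap.lineMap_continuous.comp (hσ v v' h).1.1).continuousOn,
      by simp only [(hσ v v' h).1.2.2.1, AffineMap.lineMap_apply_zero],
      by simp only [(hσ v v' h).1.2.2.2, AffineMap.lineMap_apply_one]⟩
  have σI : ∀ v v' : (lens m).Vt, LSide m v v' → ∀ t ∈ Icc (0 : ℝ) 1, σ v v' t ∈ Icc (0 : ℝ) 1 :=
    fun v v' h t ht => ⟨(hσ v v' h).1.2.2.1.ge.trans ((hσ v v' h).1.2.1 ht.1),
      ((hσ v v' h).1.2.1 ht.2).trans (hσ v v' h).1.2.2.2.le⟩
  have w3 : ∀ v v' : (lens m).Vt, LSide m v v' → ∀ l : ((lens m).Vt → ℝ) →L[ℝ] ℝ,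
      ∀ t ∈ Icc (0 : ℝ) 1, l (ω (AffineMap.lineMap (v : ℂ) (v' : ℂ) t)) =
        (1 - σ v v' t) * l (Pi.single v 1) + σ v v' t * l (Pi.single v' 1) := fun v v' h l t ht => by
    rw [w2 v v' h t ht, AffineMap.lineMap_apply_module, map_add, map_smul, map_smul, smul_eq_mul,
      smul_eq_mul]
  obtain ⟨β, b1, b2, b3, b4⟩ := exists_beta σ (fun v v' h => (hσ v v' h).1) hδ
  refine ⟨ω, w1, fun v => ?_, fun v v' h y hy => ?_, ⟨β, b1, b2, b3, fun y hy => ?_⟩,
    fun y hy l => ?_, fun b hb hy => ?_⟩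
  · obtain ⟨v', h | h⟩ := side_end v
    · simpa only [(hσ v v' h).1.2.2.1, AffineMap.lineMap_apply_zero] using
        w2 v v' h 0 ⟨le_rfl, zero_le_one⟩
    · simpa only [(hσ v' v h).1.2.2.2, AffineMap.lineMap_apply_one] using
        w2 v' v h 1 ⟨zero_le_one, le_rfl⟩
  · rw [segment_eq_image_lineMap] at hy ⊢
    obtain ⟨t, ht, rfl⟩ := hy
    exact ⟨_, σI v v' h t ht, (w2 v v' h t ht).symm⟩
  · obtain ⟨v, v', h, t, ht, rfl⟩ := side_cover hy
    rw [w2 v v' h t ht, exists_omega_cmb]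
    exact b4 v v' h t ht
  · obtain ⟨v, v', h, t, ht, rfl⟩ := side_cover hy
    rcases le_total (l (Pi.single v 1)) (l (Pi.single v' 1)) with g | g
    · refine ⟨v', ?_⟩
      simpa only [AffineMap.lineMap_apply_one] using exists_omega_seg h (u := fun z => l (ω z))
        (c := l (ω (AffineMap.lineMap (v : ℂ) (v' : ℂ) t))) ht.1 ht.2 le_rfl fun r hr => by
          rw [w3 v v' h l t ht, w3 v v' h l r ⟨ht.1.trans hr.1, hr.2⟩]
          nlinarith only [(hσ v v' h).1.2.1 hr.1, g]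
    · refine ⟨v, Abv.symm ?_⟩
      simpa only [AffineMap.lineMap_apply_zero] using exists_omega_seg h (u := fun z => l (ω z))
        (c := l (ω (AffineMap.lineMap (v : ℂ) (v' : ℂ) t))) le_rfl ht.1 ht.2 fun r hr => by
          rw [w3 v v' h l t ht, w3 v v' h l r ⟨hr.1, hr.2.trans ht.2⟩]
          nlinarith only [(hσ v v' h).1.2.1 hr.2, g]
  · obtain ⟨v, v', h, t, ht, rfl⟩ := side_cover hy
    rcases (hσ v v' h).2 t ht hb with ⟨g1, g2⟩ | ⟨g1, g2⟩
    · refine ⟨by rw [w2 v v' h t ht, g1, g2, AffineMap.lineMap_apply_zero], fun l => Abv.symm ?_⟩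
      rw [g1]
      simpa only [AffineMap.lineMap_apply_zero] using exists_omega_seg h (u := fun z => l (ω z))
        (c := l (ω (AffineMap.lineMap (v : ℂ) (v' : ℂ) t))) le_rfl ht.1 ht.2 fun r hr => by
          have r1 : r ∈ Icc (0 : ℝ) 1 := ⟨hr.1, hr.2.trans ht.2⟩
          rw [w3 v v' h l t ht, w3 v v' h l r r1, g2,
            (((hσ v v' h).1.2.1 hr.2).trans g2.le).antisymm (σI v v' h r r1).1]
    · refine ⟨by rw [w2 v v' h t ht, g1, g2, AffineMap.lineMap_apply_one], fun l => ?_⟩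
      rw [g1]
      simpa only [AffineMap.lineMap_apply_one] using exists_omega_seg h (u := fun z => l (ω z))
        (c := l (ω (AffineMap.lineMap (v : ℂ) (v' : ℂ) t))) ht.1 ht.2 le_rfl fun r hr => by
          have r1 : r ∈ Icc (0 : ℝ) 1 := ⟨ht.1.trans hr.1, hr.2⟩
          rw [w3 v v' h l t ht, w3 v v' h l r r1, g2,
            (σI v v' h r r1).2.antisymm (g2.ge.trans ((hσ v v' h).1.2.1 hr.1))]

theorem phi_val {P : Set ℂ} {u : ℂ → ℝ} {c : ℝ} {x y : ℂ} (h : Abv P u c x y) :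
    c ≤ u x ∧ c ≤ u y := by
  obtain ⟨C, -, -, hx, hy, hc⟩ := h
  exact ⟨hc x hx, hc y hy⟩

theorem phi_map {P Q : Set ℂ} {u u' : ℂ → ℝ} {c : ℝ} {x y : ℂ} (h : Abv P u c x y) {f : ℂ → ℂ}
    (hf : Continuous f) (hQ : ∀ z ∈ P, f z ∈ Q ∧ u' (f z) = u z) : Abv Q u' c (f x) (f y) := by
  obtain ⟨C, hP, hC, hx, hy, hc⟩ := h
  refine ⟨f '' C, ?_, hC.image f hf.continuousOn, mem_image_of_mem f hx, mem_image_of_mem f hy, ?_⟩
  · rintro _ ⟨z, hz, rfl⟩
    exact (hQ z (hP hz)).1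
  · rintro _ ⟨z, hz, rfl⟩
    rw [(hQ z (hP hz)).2]
    exact hc z hz

theorem phi_fibre {P : Set ℂ} {u : ℂ → ℝ} {p : ℝ → ℂ} (hp : Continuous p) {a b : ℝ}
    (h : ∀ t ∈ Icc (0 : ℝ) 1, p t ∈ P ∧ u (p t) = a + t * (b - a)) {t t' c : ℝ}
    (ht : t ∈ Icc (0 : ℝ) 1) (ht' : t' ∈ Icc (0 : ℝ) 1) (h1 : c ≤ u (p t)) (h2 : c ≤ u (p t')) :
    Abv P u c (p t) (p t') := by
  have hs : uIcc t t' ⊆ Icc (0 : ℝ) 1 := uIcc_subset_Icc ht ht'
  refine ⟨p '' uIcc t t', ?_, isPreconnected_uIcc.image p hp.continuousOn,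
    mem_image_of_mem p left_mem_uIcc, mem_image_of_mem p right_mem_uIcc, ?_⟩
  · rintro _ ⟨s, hs', rfl⟩
    exact (h s (hs hs')).1
  · rintro _ ⟨s, hs', rfl⟩
    rw [(h t ht).2] at h1
    rw [(h t' ht').2] at h2
    rw [(h s (hs hs')).2]
    rcases mem_uIcc.1 hs' with h3 | h3 <;> rcases le_total 0 (b - a) with h4 | h4
    · linarith only [mul_nonneg (sub_nonneg.2 h3.1) h4, h1]
    · linarith only [mul_nonneg (sub_nonneg.2 h3.2) (neg_nonneg.2 h4), h2]
    · linarith only [mul_nonneg (sub_nonneg.2 h3.1) h4, h2]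
    · linarith only [mul_nonneg (sub_nonneg.2 h3.2) (neg_nonneg.2 h4), h1]

open Classical in
/-- D3. Hint: `ω` from `exists_omega` for `Eb ∪ pos '' univ`, `θ` close to one (uniform continuity
of `g`), `Z` from `collar`. A set `C` on which `l ∘ W ≥ c` gives the set `θ • C` on which
`l ∘ Z ≥ c`; on the fibre over `y` the function `l ∘ Z` is affine from `l (W y)` to `l (ω y)`.
Chain `up`, `ascend`, the fibre over the gate and the frontier; `joined_of_convex` at the end. -/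
theorem Loc14.phi {E : Type} [NormedAddCommGroup E] [NormedSpace ℝ E] (h : Loc14 lab In pos q Φ W δ)
    (hδ : 0 < δ) {Eb : Set ℂ} (hE : Eb.Finite) {g : ℂ → E} (hg : Continuous g)
    {φ : (lens m).Vt → E} {ε ε' : ℝ} (hε' : 0 < ε')
    (h1 : ∀ y ∈ (lens m).P, ‖cmb φ (W y) - g y‖ ≤ ε)
    (h2 : ∀ v v' : (lens m).Vt, LSide m v v' → ∀ b ∈ segment ℝ (v : ℂ) v',
      ‖φ v - g b‖ ≤ ε ∧ ‖φ v' - g b‖ ≤ ε) :
    ∃ Z : ℂ → (lens m).Vt → ℝ, ContinuousOn Z (lens m).P ∧
      (∀ z ∈ (lens m).P, Z z ∈ stdSimplex ℝ (lens m).Vt) ∧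
      (∀ α : (lens m).Vt, Z α = Pi.single α 1) ∧ HP (lens m).P (lens m).Vt Z (3 * δ) ∧
      (∃ β : ℂ → ℂ, ContinuousOn β (frontier (lens m).P) ∧
        BijOn β (frontier (lens m).P) (frontier (lens m).P) ∧ (∀ v ∈ (lens m).Vt, β v = v) ∧
        ∀ y ∈ frontier (lens m).P, ‖cmb (fun v : (lens m).Vt => (v : ℂ)) (Z y) - β y‖ ≤ 3 * δ) ∧
      (∀ b ∈ Eb, b ∈ frontier (lens m).P → ∀ s ∈ In, ∀ l : ((lens m).Vt → ℝ) →L[ℝ] ℝ, ‖l‖ ≤ 1 →
        l (Pi.single (lab b) 1) < l (Φ s) →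
        Abv (lens m).P (fun z => l (W z)) (l (Pi.single (lab b) 1) - δ) b (pos s) →
        ∃ β : (lens m).Vt, β ≠ lab b ∧ JoinedIn
          {y | y ∈ (lens m).P ∧ l (Pi.single (lab b) 1) - 3 * δ ≤ l (Z y)} (lab b) β) ∧
      ∀ z ∈ (lens m).P, ‖cmb φ (Z z) - g z‖ ≤ ε + ε' := by
  obtain ⟨ω, ωc, ωv, ωs, ⟨β, βc, βb, βv, βe⟩, ωa, ωb⟩ :=
    exists_omega lab h.side (hE.union (finite_range pos)) hδ
  have hK : IsCompact (lens m).P := (lens m).compact_reg 0
  have hcv : Convex ℝ (lens m).P := (lens m).convex_reg 0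
  have h0 : (lens m).P ∈ 𝓝 (0 : ℂ) := (lens m).nhds_reg le_rfl
  have hF : frontier (lens m).P ⊆ (lens m).P := hK.isClosed.frontier_subset
  obtain ⟨η, hη, hu⟩ := Metric.uniformContinuousOn_iff.1
    (hK.uniformContinuousOn_of_continuous hg.continuousOn) ε' hε'
  obtain ⟨θ, θ0, θ1, θη⟩ : ∃ θ : ℝ, 0 < θ ∧ θ < 1 ∧ (1 - θ) * 2 < η := by
    refine ⟨1 - min (1 / 2) (η / 4), ?_, ?_, ?_⟩
    · linarith [min_le_left (1 / 2 : ℝ) (η / 4)]
    · linarith [lt_min (by norm_num : (0 : ℝ) < 1 / 2) (by linarith : 0 < η / 4)]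
    · linarith [min_le_right (1 / 2 : ℝ) (η / 4)]
  obtain ⟨Z, Zc, Zi, Zf, Zd⟩ := collar hK hcv h0 ωc h.cont θ0 θ1
  have hsm : ∀ z ∈ (lens m).P, θ • z ∈ (lens m).P := fun z hz =>
    hcv.smul_mem_of_zero_mem (mem_of_mem_nhds h0) hz ⟨θ0.le, θ1.le⟩
  have hpt : ∀ y ∈ frontier (lens m).P, ∀ t ∈ Icc (0 : ℝ) 1,
      AffineMap.lineMap (θ • y) y t ∈ (lens m).P := fun y hy t ht =>
    hcv.lineMap_mem (hsm y (hF hy)) (hF hy) ht
  have Zω : ∀ y ∈ frontier (lens m).P, Z y = ω y := fun y hy => by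
    simpa using Zf y hy 1 (right_mem_Icc.2 zero_le_one)
  have hside : ∀ y ∈ frontier (lens m).P, ∃ v v' : (lens m).Vt, LSide m v v' ∧
      y ∈ segment ℝ (v : ℂ) v' := fun y hy => by
    obtain ⟨v, v', hv, t, ht, e⟩ := side_cover hy
    exact ⟨v, v', hv, by rw [segment_eq_image_lineMap]; exact ⟨t, ht, e.symm⟩⟩
  have hfib : ∀ (l : ((lens m).Vt → ℝ) →L[ℝ] ℝ), ∀ y ∈ frontier (lens m).P, ∀ t ∈ Icc (0 : ℝ) 1,
      l (Z (AffineMap.lineMap (θ • y) y t)) = l (W y) + t * (l (ω y) - l (W y)) := by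
    intro l y hy t ht
    rw [Zf y hy t ht, AffineMap.lineMap_apply_module', map_add, map_smul, map_sub, smul_eq_mul,
      add_comm]
  have fib : ∀ (l : ((lens m).Vt → ℝ) →L[ℝ] ℝ), ∀ y ∈ frontier (lens m).P, ∀ t ∈ Icc (0 : ℝ) 1,
      ∀ t' ∈ Icc (0 : ℝ) 1, ∀ c, c ≤ l (Z (AffineMap.lineMap (θ • y) y t)) →
        c ≤ l (Z (AffineMap.lineMap (θ • y) y t')) → Abv (lens m).P (fun z => l (Z z)) c
          (AffineMap.lineMap (θ • y) y t) (AffineMap.lineMap (θ • y) y t') :=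
    fun l y hy t ht t' ht' c c1 c2 => phi_fibre (u := fun z => l (Z z))
      AffineMap.lineMap_continuous (fun s hs => ⟨hpt y hy s hs, hfib l y hy s hs⟩) ht ht' c1 c2
  have fib01 : ∀ (l : ((lens m).Vt → ℝ) →L[ℝ] ℝ), ∀ y ∈ frontier (lens m).P, ∀ c, c ≤ l (W y) →
      c ≤ l (ω y) → Abv (lens m).P (fun z => l (Z z)) c (θ • y) y := by
    intro l y hy c c1 c2
    have := fib l y hy 0 (left_mem_Icc.2 zero_le_one) 1 (right_mem_Icc.2 zero_le_one) c
      (by rw [AffineMap.lineMap_apply_zero, Zi y (hF hy)]; exact c1)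
      (by rw [AffineMap.lineMap_apply_one, Zω y hy]; exact c2)
    rwa [AffineMap.lineMap_apply_zero, AffineMap.lineMap_apply_one] at this
  have scale : ∀ (l : ((lens m).Vt → ℝ) →L[ℝ] ℝ) c x y, Abv (lens m).P (fun z => l (W z)) c x y →
      Abv (lens m).P (fun z => l (Z z)) c (θ • x) (θ • y) := fun l c x y hA =>
    phi_map (f := fun z => θ • z) hA (continuous_const_smul θ) fun z hz =>
      ⟨hsm z hz, by simp only [Zi z hz]⟩
  have front : ∀ (l : ((lens m).Vt → ℝ) →L[ℝ] ℝ) c x y,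
      Abv (frontier (lens m).P) (fun z => l (ω z)) c x y →
      Abv (lens m).P (fun z => l (Z z)) c x y := fun l c x y hA =>
    phi_map (f := id) hA continuous_id fun z hz => ⟨hF hz, by simp only [id, Zω z hz]⟩
  have core : ∀ s ∈ In, ∀ l : ((lens m).Vt → ℝ) →L[ℝ] ℝ, ‖l‖ ≤ 1 → ∃ v : (lens m).Vt,
      l (Φ s) ≤ l (Pi.single v 1) ∧
        Abv (lens m).P (fun z => l (Z z)) (l (Φ s) - δ) (θ • pos s) v := by
    intro s hs l hl
    obtain ⟨u, -, uf, ul, uA⟩ := h.ascend hs l hl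
    obtain ⟨e, hA⟩ := ωb (pos u) (Or.inr ⟨u, rfl⟩) uf
    have c2 : l (Φ s) - δ ≤ l (ω (pos u)) := by rw [e]; linarith only [hδ, ul]
    exact ⟨lab (pos u), ul, ((scale l _ _ _ uA).trans (fib01 l _ uf _ (phi_val uA).2 c2)).trans
      ((front l _ _ _ (hA l)).mono c2)⟩
  have inner : ∀ z ∈ (lens m).P, ∀ l : ((lens m).Vt → ℝ) →L[ℝ] ℝ, ‖l‖ ≤ 1 → ∃ v : (lens m).Vt,
      Abv (lens m).P (fun z => l (Z z)) (l (W z) - 2 * δ) (θ • z) v := by
    intro z hz l hl
    obtain ⟨s, hs, s1, s2⟩ := h.up z hz l hl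
    obtain ⟨v, -, hv⟩ := core s hs l hl
    exact ⟨v, ((scale l _ _ _ s2).mono (by linarith)).trans (hv.mono (by linarith))⟩
  have join : ∀ (l : ((lens m).Vt → ℝ) →L[ℝ] ℝ) c x y,
      Abv (lens m).P (fun z => l (Z z)) (c - 2 * δ) x y →
      JoinedIn {y | y ∈ (lens m).P ∧ c - 3 * δ ≤ l (Z y)} x y := by
    rintro l c x y ⟨C, c1, c2, c3, c4, c5⟩
    exact joined_of_convex (u := fun z => l (Z z)) hcv (l.continuous.comp Zc).continuousOn c2 c1
      (fun z hz => by linarith [c5 z hz]) c3 c4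
  have ωsx : ∀ y ∈ frontier (lens m).P, ω y ∈ stdSimplex ℝ (lens m).Vt := fun y hy => by
    obtain ⟨v, v', hv, hy'⟩ := hside y hy
    exact (convex_stdSimplex ℝ _).segment_subset (single_mem_stdSimplex ℝ v)
      (single_mem_stdSimplex ℝ v') (ωs v v' hv y hy')
  refine ⟨Z, Zc.continuousOn, fun z hz => ?_, fun α => ?_, fun x hx l hl => ?_,
    ⟨β, βc, βb, βv, fun y hy => ?_⟩, fun b hb bf s hs l hl h3 h4 => ?_, fun z hz => ?_⟩
  · rcases Zd z hz with ⟨x, hx, rfl⟩ | ⟨y, hy, t, ht, rfl⟩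
    · rw [Zi x hx]
      exact h.simplex x hx
    · rw [Zf y hy t ht]
      exact (convex_stdSimplex ℝ _).lineMap_mem (h.simplex y (hF hy)) (ωsx y hy) ht
  · obtain ⟨v', hv | hv⟩ := side_end α
    · rw [Zω _ (side_sub hv (left_mem_segment ℝ _ _)), ωv]
    · rw [Zω _ (side_sub hv (right_mem_segment ℝ _ _)), ωv]
  · suffices ∃ v : (lens m).Vt, Abv (lens m).P (fun z => l (Z z)) (l (Z x) - 2 * δ) x v by
      obtain ⟨v, hv⟩ := this
      exact ⟨v, v.2, join l _ _ _ hv⟩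
    rcases Zd x hx with ⟨z, hz, rfl⟩ | ⟨y, hy, t, ht, rfl⟩
    · rw [Zi z hz]
      exact inner z hz l hl
    · have e := hfib l y hy t ht
      rcases le_total (l (W y)) (l (ω y)) with h3 | h3
      · have h4 : l (Z (AffineMap.lineMap (θ • y) y t)) ≤ l (ω y) := by
          rw [e]
          linarith only [mul_nonneg (sub_nonneg.2 ht.2) (sub_nonneg.2 h3)]
        obtain ⟨v, hv⟩ := ωa y hy l
        have h5 := fib l y hy t ht 1 (right_mem_Icc.2 zero_le_one) _ le_rfl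
          (by simpa only [Complex.real_smul, AffineMap.lineMap_apply_one, Zω y hy] using h4)
        rw [AffineMap.lineMap_apply_one] at h5
        exact ⟨v, (h5.trans ((front l _ _ _ hv).mono h4)).mono (by linarith only [hδ])⟩
      · have h4 : l (Z (AffineMap.lineMap (θ • y) y t)) ≤ l (W y) := by
          rw [e]
          linarith only [mul_nonneg ht.1 (sub_nonneg.2 h3)]
        obtain ⟨v, hv⟩ := inner y (hF hy) l hl
        have h5 := fib l y hy t ht 0 (left_mem_Icc.2 zero_le_one) _ le_rfl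
          (by rw [AffineMap.lineMap_apply_zero, Zi y (hF hy)]; exact h4)
        rw [AffineMap.lineMap_apply_zero] at h5
        exact ⟨v, (h5.mono (by linarith only [hδ])).trans (hv.mono (by linarith only [h4]))⟩
  · rw [Zω y hy]
    linarith [βe y hy]
  · obtain ⟨e, hA⟩ := ωb b (Or.inl hb) bf
    obtain ⟨v, v1, v2⟩ := core s hs l hl
    refine ⟨v, fun e' => ?_, join l _ _ _ ?_⟩
    · rw [e'] at v1
      linarith only [h3, v1]
    · have c2 : l (Pi.single (lab b) 1) - δ ≤ l (ω b) := by rw [e]; linarith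
      exact (((((front l _ _ _ (hA l)).mono c2).symm.trans
        (fib01 l b bf _ (phi_val h4).1 c2).symm).trans (scale l _ _ _ h4)).trans
        (v2.mono (by linarith))).mono (by linarith)
  · have hL : ∀ p, cmb φ p = Fintype.linearCombination ℝ φ p := fun p => by
      rw [Fintype.linearCombination_apply]; rfl
    have near : ∀ y ∈ (lens m).P, ∀ x ∈ (lens m).P, ‖y - x‖ ≤ (1 - θ) * ‖y‖ → ∀ p : E,
        ‖p - g y‖ ≤ ε → ‖p - g x‖ ≤ ε + ε' := by
      intro y hy x hx h3 p hp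
      have h4 : ‖y‖ ≤ 2 := (lens m).norm_le (by norm_num) hy
      have h5 := hu y hy x hx (by
        rw [dist_eq_norm]
        linarith only [mul_le_mul_of_nonneg_left h4 (sub_nonneg.2 θ1.le), θη, h3])
      rw [dist_eq_norm] at h5
      linarith [norm_sub_le_norm_sub_add_norm_sub p (g y) (g x)]
    have hn : ∀ y : ℂ, ‖y - θ • y‖ = (1 - θ) * ‖y‖ := fun y => by
      rw [show y - θ • y = (1 - θ) • y by rw [sub_smul, one_smul], norm_smul,
        Real.norm_of_nonneg (sub_nonneg.2 θ1.le)]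
    rcases Zd z hz with ⟨x, hx, rfl⟩ | ⟨y, hy, t, ht, rfl⟩
    · rw [Zi x hx]
      exact near x hx _ hz (hn x).le _ (h1 x hx)
    · refine near y (hF hy) _ hz ?_ _ ?_
      · rw [← hn, show y - AffineMap.lineMap (θ • y) y t = (1 - t) • (y - θ • y) by
          rw [AffineMap.lineMap_apply_module']; module, norm_smul,
          Real.norm_of_nonneg (sub_nonneg.2 ht.2)]
        exact mul_le_of_le_one_left (norm_nonneg _) (by linarith [ht.1])
      · obtain ⟨v, v', hv, hy'⟩ := hside y hy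
        have hB : Convex ℝ {p : (lens m).Vt → ℝ | ‖cmb φ p - g y‖ ≤ ε} := by
          have := (convex_closedBall (g y) ε).linear_preimage (Fintype.linearCombination ℝ φ)
          simpa only [hL, preimage, mem_closedBall, dist_eq_norm] using this
        have hv1 : ∀ w : (lens m).Vt, cmb φ (Pi.single w 1) = φ w := fun w => by
          rw [hL, Fintype.linearCombination_apply_single, one_smul]
        rw [Zf y hy t ht]
        refine hB.lineMap_mem (h1 y (hF hy)) (hB.segment_subset ?_ ?_ (ωs v v' hv y hy')) ht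
        · show ‖cmb φ (Pi.single v 1) - g y‖ ≤ ε
          rw [hv1]; exact (h2 v v' hv y hy').1
        · show ‖cmb φ (Pi.single v' 1) - g y‖ ≤ ε
          rw [hv1]; exact (h2 v v' hv y hy').2

end Pool.Agent.MP_17e62b_gt.G
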