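import Pool.Agent.MP_17e62b_gt.Mg.G_H72M1
import Pool.Agent.MP_17e62b_gt.Mg.G_GB
import Pool.Agent.Lib.PlaneTop.HasLog
import Pool.Agent.MP_17e62b_gt.Mg.H14_M4
import Pool.Agent.MP_4a6971_al.H83.Schoen

attribute [-instance] AddQuantale.instAddLeftMono LieAdmissibleAlgebra.toModule
  RightPreLieAlgebra.toModule LeftPreLieAlgebra.toModule NumberField.to_charZero instCoeTCOfCoe
  IdemSemiring.toCanonicallyOrderedAdd AddQuantale.instAddRightMono RKHS.instFunLike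
  NonUnitalNonAssocRing.toAddCommGroup ProperSMul.toContinuousSMul Valued.toUniformSpace
  NonarchimedeanRing.toIsTopologicalRing Quantale.instMulRightMono
  LinearOrderedCommMonoidWithZero.toPosMulStrictMono DivisionRing.toRing CommRing.toRing
  IsTopologicalTorsor.toContinuousSMul NormedRing.toRing
  Group.IsPerfect.subsingleton_of_isMulCommutative instCoeTOfCoeDep continuousSub_of_discreteTopology
  Valued.isTopologicalDivisionRing instCoeHTCOfCoeHeadOfCoeOTC CStarAlgebra.instOrderClosedTopology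
  TotallySeparatedSpace.t2Space LieRing.toAddCommGroup NeZero.of_gt' TestFunctionClass.toDFunLike
  NonUnitalNormedRing.toNonUnitalSeminormedRing

section
/-! Distances measured by the variation of a map. -/

namespace Pool.Agent.MP_17e62b_gt.G

open Set Filter Topology Metric
open scoped BigOperators InnerProductSpace Classical
open H14
open T55 (af Sq SqH SqV Cells Nbr vert)
open Pool.Agent.MP_4a6971_al.H83 (PArc)

section Near

variable {X E : Type} [TopologicalSpace X] [NormedAddCommGroup E] {f : X → E} {A : Set X}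
  {ρ ρ' : ℝ} {x y z : X}

theorem Near.mono72 (h : Near f A ρ x y) (hρ : ρ ≤ ρ') : Near f A ρ' x y := by
  obtain ⟨C, hC, hp, hx, hy, hb⟩ := h
  exact ⟨C, hC, hp, hx, hy, fun a ha b hb' => (hb a ha b hb').trans hρ⟩

theorem Near.map {Y : Type} [TopologicalSpace Y] (k : X ≃ₜ Y) {g : Y → E} :
    Near (fun x => g (k x)) A ρ x y ↔ Near g (k '' A) ρ (k x) (k y) := by
  constructor
  · rintro ⟨C, hC, hp, hx, hy, hb⟩
    refine ⟨k '' C, image_mono hC, hp.image _ k.continuous.continuousOn, mem_image_of_mem _ hx,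
      mem_image_of_mem _ hy, ?_⟩
    rintro _ ⟨a, ha, rfl⟩ _ ⟨b, hb', rfl⟩
    exact hb a ha b hb'
  · rintro ⟨C, hC, hp, hx, hy, hb⟩
    refine ⟨k ⁻¹' C, fun a ha => ?_, k.isPreconnected_preimage.2 hp, hx, hy,
      fun a ha b hb' => hb _ ha _ hb'⟩
    obtain ⟨a', ha', h⟩ := hC ha
    exact k.injective h ▸ ha'

end Near

/-- Two close points of a convex set. -/
theorem near_seg {E : Type} [NormedAddCommGroup E] {f : ℂ → E} {A : Set ℂ} (hA : Convex ℝ A)
    {σ ρ : ℝ} (h : ∀ z ∈ A, ∀ z' ∈ A, ‖z - z'‖ ≤ σ → ‖f z - f z'‖ ≤ ρ) {x y : ℂ} (hx : x ∈ A)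
    (hy : y ∈ A) (hxy : ‖x - y‖ ≤ σ) : Near f A ρ x y := by
  refine ⟨segment ℝ x y, hA.segment_subset hx hy, (convex_segment x y).isPreconnected,
    left_mem_segment ℝ x y, right_mem_segment ℝ x y, fun a ha b hb =>
      h a (hA.segment_subset hx hy ha) b (hA.segment_subset hx hy hb) ?_⟩
  rw [segment_eq_image'] at ha hb
  obtain ⟨s, hs, rfl⟩ := ha
  obtain ⟨t, ht, rfl⟩ := hb
  have e : x + s • (y - x) - (x + t • (y - x)) = (t - s) • (x - y) := by
    simp only [sub_smul, smul_sub]; abel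
  have h1 : |t - s| ≤ 1 := abs_le.2 ⟨by linarith [hs.2, ht.1], by linarith [hs.1, ht.2]⟩
  show ‖x + s • (y - x) - (x + t • (y - x))‖ ≤ σ
  rw [e, norm_smul, Real.norm_eq_abs]
  nlinarith only [norm_nonneg (x - y), hxy, h1]

/-- P1. The distance to `B` measured by the variation of `f`. Hint: `D z` is the infimum of the
`ρ` with `Near f A ρ z b` for some `b ∈ B`; `near_seg` and uniform continuity. -/
theorem exists_dist {E : Type} [NormedAddCommGroup E] {f : ℂ → E} (hf : Continuous f) {A B : Set ℂ}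
    (hA : IsCompact A) (hc : Convex ℝ A) (hB : B ⊆ A) (hn : B.Nonempty) :
    ∃ D : ℂ → ℝ, ContinuousOn D A ∧ (∀ z ∈ A, ∀ ρ, D z < ρ → ∃ b ∈ B, Near f A ρ z b) ∧
      ∀ z ρ, ∀ b ∈ B, Near f A ρ z b → D z ≤ ρ := by
  let S : ℂ → Set ℝ := fun z => {ρ | ∃ b ∈ B, Near f A ρ z b}
  have hbd : ∀ z, BddBelow (S z) := fun z => ⟨0, by
    rintro ρ ⟨b, -, C, -, -, hz, -, h⟩
    exact (norm_nonneg _).trans (h z hz z hz)⟩
  obtain ⟨M, hM⟩ := hA.exists_bound_of_continuousOn hf.continuousOn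
  have hne : ∀ z ∈ A, (S z).Nonempty := fun z hz => by
    obtain ⟨b, hb⟩ := hn
    refine ⟨M + M, b, hb, A, Subset.rfl, hc.isPreconnected, hz, hB hb, fun a ha a' ha' => ?_⟩
    exact (norm_sub_le _ _).trans (add_le_add (hM a ha) (hM a' ha'))
  have key : ∀ z z' ε, z' ∈ A → Near f A ε z z' → sInf (S z) - sInf (S z') ≤ ε := by
    intro z z' ε hz' h
    have : sInf (S z) - ε ≤ sInf (S z') := le_csInf (hne z' hz') <| by
      rintro ρ ⟨b, hb, h'⟩
      have := csInf_le (hbd z) ⟨b, hb, h.trans h'⟩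
      linarith
    linarith
  refine ⟨fun z => sInf (S z), ?_, fun z hz ρ hρ => ?_,
    fun z ρ b hb h => csInf_le (hbd z) ⟨b, hb, h⟩⟩
  · refine Metric.continuousOn_iff.2 fun z hz ε hε => ?_
    obtain ⟨δ, hδ, hu⟩ := Metric.uniformContinuousOn_iff.1
      (hA.uniformContinuousOn_of_continuous hf.continuousOn) (ε / 2) (by linarith)
    refine ⟨δ / 2, by linarith, fun w hw hwz => ?_⟩
    have hn' : Near f A (ε / 2) w z := near_seg hc (σ := δ / 2)
      (fun a ha b hb hab => by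
        have := hu a ha b hb (by rw [dist_eq_norm]; linarith)
        rw [dist_eq_norm] at this
        exact this.le) hw hz (by rw [← dist_eq_norm]; exact hwz.le)
    rw [Real.dist_eq, abs_lt]
    constructor <;> linarith only [key w z _ hz hn', key z w _ hw hn'.symm, hε]
  · obtain ⟨ρ', ⟨b, hb, h⟩, hlt⟩ := exists_lt_of_csInf_lt (hne z hz) hρ
    exact ⟨b, hb, h.mono72 hlt.le⟩

/-- P2. Hint: let `U` be the set, `U₀` the points joined in `U` to the bottom side; `U₀` and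
`U \ U₀` are open in the square. If `U₀` misses the top side, separate the closed sets
`SqH false ∪ (K ∩ U₀)` and `SqH true ∪ (K \ U₀)`, `K = {D = 1 / 2}`, by a Urysohn function and
apply `Pool.Agent.Lib.PlaneTop.miranda` (extend `D` by clamping the coordinates). -/
theorem cross_sq {D : ℂ → ℝ} (hD : ContinuousOn D Sq) (h0 : ∀ z ∈ SqV false, D z ≤ 0)
    (h1 : ∀ z ∈ SqV true, 1 ≤ D z) :
    ∃ a ∈ SqH false, ∃ b ∈ SqH true, JoinedIn {z | z ∈ Sq ∧ 1 / 3 < D z ∧ D z < 2 / 3} a b := by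
  by_contra hcon
  push Not at hcon
  set U : Set ℂ := {z | z ∈ Sq ∧ 1 / 3 < D z ∧ D z < 2 / 3} with hU
  have hSc : IsClosed Sq :=
    (isClosed_Icc.preimage Complex.continuous_re).inter (isClosed_Icc.preimage Complex.continuous_im)
  have hSv : Convex ℝ Sq :=
    ((convex_Icc (0 : ℝ) 1).linear_preimage Complex.reLm).inter
      ((convex_Icc (0 : ℝ) 1).linear_preimage Complex.imLm)
  have hH : ∀ i, IsClosed (SqH i) := fun i =>
    (isClosed_Icc.preimage Complex.continuous_re).inter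
      (isClosed_eq Complex.continuous_im continuous_const)
  let K : Set ℂ := Sq ∩ D ⁻¹' {1 / 2}
  have hK : IsClosed K := hD.preimage_isClosed_of_isClosed hSc isClosed_singleton
  have hKU : K ⊆ U := fun z hz => by
    have : D z = 1 / 2 := hz.2
    exact ⟨hz.1, by linarith, by linarith only [this]⟩
  have loc : ∀ z ∈ K, ∃ r > 0, ∀ w ∈ K, dist z w < r → JoinedIn U z w := fun z hz => by
    obtain ⟨r, hr, h⟩ := Metric.continuousOn_iff.1 hD z hz.1 (1 / 6) (by norm_num)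
    have hz2 : D z = 1 / 2 := hz.2
    refine ⟨r, hr, fun w hw hzw => JoinedIn.of_segment_subset ?_⟩
    refine ((hSv.inter (convex_ball z r)).segment_subset ⟨hz.1, mem_ball_self hr⟩
      ⟨hw.1, mem_ball'.2 hzw⟩).trans fun a ha => ?_
    have := h a ha.1 ha.2
    rw [Real.dist_eq, abs_lt] at this
    exact ⟨ha.1, by linarith only [this.1, hz2], by linarith only [this.2, hz2]⟩
  let U₀ : Set ℂ := {z | ∃ a ∈ SqH false, JoinedIn U a z}
  have c0 : IsClosed (K ∩ U₀) := by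
    refine isClosed_of_closure_subset fun z hz => ?_
    have hzK : z ∈ K := hK.closure_subset (closure_mono inter_subset_left hz)
    obtain ⟨r, hr, h⟩ := loc z hzK
    obtain ⟨w, ⟨hw, a, ha, hj⟩, hd⟩ := Metric.mem_closure_iff.1 hz r hr
    exact ⟨hzK, a, ha, hj.trans (h w hw hd).symm⟩
  have c1 : IsClosed (K \ U₀) := by
    refine isClosed_of_closure_subset fun z hz => ?_
    have hzK : z ∈ K := hK.closure_subset (closure_mono sdiff_subset hz)
    obtain ⟨r, hr, h⟩ := loc z hzK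
    obtain ⟨w, ⟨hw, hw'⟩, hd⟩ := Metric.mem_closure_iff.1 hz r hr
    exact ⟨hzK, fun ⟨a, ha, hj⟩ => hw' ⟨a, ha, hj.trans (h w hw hd)⟩⟩
  have hdis : Disjoint (SqH false ∪ K ∩ U₀) (SqH true ∪ K \ U₀) := by
    rw [Set.disjoint_left]
    rintro z (hz | hz) (hz' | hz')
    · have a := hz.2
      have b := hz'.2
      simp at a b
      linarith only [a, b]
    · exact hz'.2 ⟨z, hz, JoinedIn.refl (hKU hz'.1)⟩
    · obtain ⟨a, ha, hj⟩ := hz.2
      exact hcon a ha z hz' hj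
    · exact hz'.2 hz.2
  obtain ⟨g, g0, g1, -⟩ :=
    exists_continuous_zero_one_of_isClosed ((hH false).union c0) ((hH true).union c1) hdis
  let cl : ℝ → ℝ := fun x => max 0 (min 1 x)
  have hclm : ∀ x, cl x ∈ Icc (0 : ℝ) 1 := fun x =>
    ⟨le_max_left _ _, max_le zero_le_one (min_le_left _ _)⟩
  have hcl : ∀ x ∈ Icc (0 : ℝ) 1, cl x = x := fun x hx => by
    simp only [cl, min_eq_right hx.2, max_eq_right hx.1]
  let P : ℝ → ℝ → ℂ := fun s t => ⟨cl s, cl t⟩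
  have hP : Continuous fun p : ℝ × ℝ => P p.1 p.2 := by
    have : (fun p : ℝ × ℝ => P p.1 p.2) = fun p => (cl p.1 : ℂ) + cl p.2 * Complex.I := by
      funext p; exact Complex.mk_eq_add_mul_I _ _
    rw [this]; fun_prop
  have hDP : Continuous fun p : ℝ × ℝ => D (P p.1 p.2) :=
    hD.comp_continuous hP fun p => ⟨hclm _, hclm _⟩
  have z0 := hcl 0 ⟨le_rfl, zero_le_one⟩
  have z1 := hcl 1 ⟨zero_le_one, le_rfl⟩
  obtain ⟨s, -, t, -, h⟩ := Pool.Agent.Lib.PlaneTop.miranda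
    (u := fun s t => ((D (P s t) - 1 / 2 : ℝ) : ℂ) + (g (P s t) - 1 / 2 : ℝ) * Complex.I)
    ((Complex.continuous_ofReal.comp (hDP.sub continuous_const)).add
      ((Complex.continuous_ofReal.comp ((g.continuous.comp hP).sub continuous_const)).mul
        continuous_const))
    (fun t _ => by
      have := h0 (P 0 t) ⟨z0, hclm t⟩
      simp only [one_div, Complex.ofReal_sub, Complex.ofReal_inv, Complex.ofReal_ofNat, Complex.add_re, Complex.sub_re, Complex.ofReal_re, Complex.inv_re, Complex.re_ofNat, Complex.normSq_ofNat, div_self_mul_self', Complex.mul_re, Complex.I_re, mul_zero, Complex.sub_im, Complex.ofReal_im, Complex.inv_im, Complex.im_ofNat, neg_zero, zero_div, sub_self, Complex.I_im, mul_one, add_zero, tsub_le_iff_right, zero_add, ge_iff_le]; linarith only [this])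
    (fun t _ => by
      have := h1 (P 1 t) ⟨z1, hclm t⟩
      simp only [one_div, Complex.ofReal_sub, Complex.ofReal_inv, Complex.ofReal_ofNat, Complex.add_re, Complex.sub_re, Complex.ofReal_re, Complex.inv_re, Complex.re_ofNat, Complex.normSq_ofNat, div_self_mul_self', Complex.mul_re, Complex.I_re, mul_zero, Complex.sub_im, Complex.ofReal_im, Complex.inv_im, Complex.im_ofNat, neg_zero, zero_div, sub_self, Complex.I_im, mul_one, add_zero, sub_nonneg, ge_iff_le]; linarith only [this])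
    (fun s _ => by
      have : g (P s 0) = 0 := g0 (Or.inl ⟨hclm s, z0⟩)
      simp only [one_div, Complex.ofReal_sub, Complex.ofReal_inv, Complex.ofReal_ofNat, this, zero_sub, Complex.ofReal_neg, neg_mul, Complex.add_im, Complex.sub_im, Complex.ofReal_im, Complex.inv_im, Complex.im_ofNat, neg_zero, Complex.normSq_ofNat, zero_div, sub_self, Complex.neg_im, Complex.mul_im, Complex.inv_re, Complex.re_ofNat, div_self_mul_self', Complex.I_im, mul_one, Complex.I_re, mul_zero, add_zero, zero_add, Left.neg_nonpos_iff, inv_nonneg, Nat.ofNat_nonneg])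
    (fun s _ => by
      have : g (P s 1) = 1 := g1 (Or.inl ⟨hclm s, z1⟩)
      simp only [one_div, Complex.ofReal_sub, Complex.ofReal_inv, Complex.ofReal_ofNat, this, Complex.ofReal_one, Complex.add_im, Complex.sub_im, Complex.ofReal_im, Complex.inv_im, Complex.im_ofNat, neg_zero, Complex.normSq_ofNat, zero_div, sub_self, Complex.mul_im, Complex.sub_re, Complex.one_re, Complex.inv_re, Complex.re_ofNat, div_self_mul_self', Complex.I_im, mul_one, Complex.one_im, Complex.I_re, mul_zero, add_zero, zero_add, sub_nonneg, ge_iff_le]; norm_num)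
  have hre := congrArg Complex.re h
  have him := congrArg Complex.im h
  simp only [one_div, Complex.ofReal_sub, Complex.ofReal_inv, Complex.ofReal_ofNat, Complex.add_re, Complex.sub_re, Complex.ofReal_re, Complex.inv_re, Complex.re_ofNat, Complex.normSq_ofNat, div_self_mul_self', Complex.mul_re, Complex.I_re, mul_zero, Complex.sub_im, Complex.ofReal_im, Complex.inv_im, Complex.im_ofNat, neg_zero, zero_div, sub_self, Complex.I_im, mul_one, add_zero, Complex.zero_re, Complex.add_im, Complex.mul_im, zero_add, Complex.zero_im] at hre him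
  have hzK : P s t ∈ K := ⟨⟨hclm s, hclm t⟩, by show D (P s t) = 1 / 2; linarith only [hre]⟩
  by_cases hz : P s t ∈ U₀
  · have : g (P s t) = 0 := g0 (Or.inr ⟨hzK, hz⟩)
    linarith only [him, this]
  · have : g (P s t) = 1 := g1 (Or.inr ⟨hzK, hz⟩)
    linarith only [him, this]

end Pool.Agent.MP_17e62b_gt.G

end

section
/-! Walks in the grid. -/

namespace Pool.Agent.MP_17e62b_gt.G

open Set Filter Topology Metric
open scoped BigOperators InnerProductSpace Classical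
open H14
open T55 (af Sq SqH SqV Cells Nbr vert)
open Pool.Agent.MP_4a6971_al.H83 (PArc)

theorem grid_steep {μ : ℝ} {l : ℂ × ℝ} (hl : l ∈ grid μ) :
    l.1 ≠ 0 ∧ ∀ a b, af l a = af l b → 4 * |(b - a).re| = |(b - a).im| := by
  simp only [grid, Finset.mem_union, Finset.mem_image] at hl
  rcases hl with ⟨j, -, rfl⟩ | ⟨j, -, rfl⟩
  · refine ⟨fun h => by simpa using congrArg Complex.re h, fun a b h => ?_⟩
    simp only [af, Complex.mul_re] at h
    rw [show (b - a).im = 4 * (b - a).re by simp only [Complex.sub_re, Complex.sub_im]; linarith,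
      abs_mul, abs_of_pos (by norm_num : (0 : ℝ) < 4)]
  · refine ⟨fun h => by simpa using congrArg Complex.re h, fun a b h => ?_⟩
    simp only [af, Complex.mul_re] at h
    rw [show (b - a).im = -(4 * (b - a).re) by
      simp only [Complex.sub_re, Complex.sub_im]; linarith,
      abs_neg, abs_mul, abs_of_pos (by norm_num : (0 : ℝ) < 4)]

theorem gp_near_box {μ c : ℝ} {z : ℂ} {k : ℤ × ℤ} (h1 : |8 * μ * k.1 - (4 * z.re + z.im)| ≤ c)
    (h2 : |8 * μ * k.2 - (z.im - 4 * z.re)| ≤ c) :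
    |(gp μ k - z).re| ≤ c / 4 ∧ |(gp μ k - z).im| ≤ c ∧ ‖gp μ k - z‖ ≤ c := by
  have h3 := Complex.norm_le_abs_re_add_abs_im (gp μ k - z)
  simp only [gp, Complex.sub_re, Complex.sub_im] at h3 ⊢
  rw [abs_le] at h1 h2
  refine ⟨abs_le.2 ⟨by linarith, by linarith only [h1, h2]⟩, abs_le.2 ⟨by linarith, by linarith⟩, h3.trans ?_⟩
  rcases abs_cases (μ * (k.1 - k.2) - z.re) with h | h <;>
    rcases abs_cases (4 * μ * (k.1 + k.2) - z.im) with h' | h' <;> linarith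

/-- P3. Hint: the coordinates of `z` are `(4 re + im) / (8 μ)` and `(im - 4 re) / (8 μ)`; round
them. -/
theorem gp_near {μ : ℝ} (hμ : 0 < μ) (z : ℂ) : ∃ k, ‖gp μ k - z‖ ≤ 5 * μ := by
  have key : ∀ s : ℝ, |8 * μ * (round (s / (8 * μ)) : ℤ) - s| ≤ 4 * μ := fun s => by
    have h := abs_sub_round (s / (8 * μ))
    have e : 8 * μ * (round (s / (8 * μ)) : ℤ) - s =
        -(8 * μ * (s / (8 * μ) - round (s / (8 * μ)))) := by
      field_simp
      ring
    rw [e, abs_neg, abs_mul, abs_of_pos (by positivity : 0 < 8 * μ)]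
    nlinarith
  refine ⟨(round ((4 * z.re + z.im) / (8 * μ)), round ((z.im - 4 * z.re) / (8 * μ))), ?_⟩
  exact (gp_near_box (key _) (key _)).2.2.trans (by linarith)

theorem shadow_line {f : ℤ → ℤ × ℤ} (h : ∀ m, GAdj (f m) (f (m + 1)) ∧ GAdj (f (m + 1)) (f m))
    {S : ℤ × ℤ → Prop} {i j : ℤ} (hij : i ≤ j) (hS : ∀ m, i ≤ m → m ≤ j → S (f m)) :
    Relation.ReflTransGen (fun u v => GAdj u v ∧ S v) (f i) (f j) ∧
      Relation.ReflTransGen (fun u v => GAdj u v ∧ S v) (f j) (f i) := by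
  induction j, hij using Int.leInduction with
  | base => exact ⟨.refl, .refl⟩
  | succ n hn ih =>
    obtain ⟨a, b⟩ := ih fun m h1 h2 => hS m h1 (by omega)
    exact ⟨a.tail ⟨(h n).1, hS _ (by omega) le_rfl⟩, b.head ⟨(h n).2, hS _ hn (by omega)⟩⟩

theorem shadow_line' {f : ℤ → ℤ × ℤ} (h : ∀ m, GAdj (f m) (f (m + 1)) ∧ GAdj (f (m + 1)) (f m))
    {S : ℤ × ℤ → Prop} {i j : ℤ} (hS : ∀ m, min i j ≤ m → m ≤ max i j → S (f m)) :
    Relation.ReflTransGen (fun u v => GAdj u v ∧ S v) (f i) (f j) := by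
  rcases le_total i j with hij | hij
  · exact (shadow_line h hij fun m h1 h2 => hS m (by omega) (by omega)).1
  · exact (shadow_line h hij fun m h1 h2 => hS m (by omega) (by omega)).2

theorem shadow_row (j m : ℤ) : GAdj (m, j) (m + 1, j) ∧ GAdj (m + 1, j) (m, j) :=
  ⟨Or.inr ⟨rfl, Or.inl rfl⟩, Or.inr ⟨rfl, Or.inr rfl⟩⟩

theorem shadow_col (i m : ℤ) : GAdj (i, m) (i, m + 1) ∧ GAdj (i, m + 1) (i, m) :=
  ⟨Or.inl ⟨rfl, Or.inl rfl⟩, Or.inl ⟨rfl, Or.inr rfl⟩⟩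

theorem shadow_mid {μ s c : ℝ} (hμ : 0 < μ) {i j m : ℤ} (hi : |8 * μ * i - s| ≤ c)
    (hj : |8 * μ * j - s| ≤ c) (h1 : min i j ≤ m) (h2 : m ≤ max i j) : |8 * μ * m - s| ≤ c := by
  rw [abs_le] at hi hj ⊢
  have key : ∀ p q : ℤ, p ≤ q → 8 * μ * p ≤ 8 * μ * q := fun p q h =>
    mul_le_mul_of_nonneg_left (by exact_mod_cast h) (by positivity)
  constructor
  · rcases min_le_iff.1 h1 with h | h <;> linarith only [key _ _ h, hi, hj]
  · rcases le_max_iff.1 h2 with h | h <;> linarith [key _ _ h]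

theorem shadow_box {μ : ℝ} {z : ℂ} {k : ℤ × ℤ} (h : ‖gp μ k - z‖ ≤ 6 * μ) :
    |8 * μ * k.1 - (4 * z.re + z.im)| ≤ 30 * μ ∧ |8 * μ * k.2 - (z.im - 4 * z.re)| ≤ 30 * μ := by
  have h1 := abs_le.1 ((Complex.abs_re_le_norm _).trans h)
  have h2 := abs_le.1 ((Complex.abs_im_le_norm _).trans h)
  simp only [gp, Complex.sub_re, Complex.sub_im] at h1 h2
  exact ⟨abs_le.2 ⟨by linarith, by linarith⟩, abs_le.2 ⟨by linarith, by linarith⟩⟩

theorem shadow_loc {μ : ℝ} (hμ : 0 < μ) {z : ℂ} {a b : ℤ × ℤ} (ha : ‖gp μ a - z‖ ≤ 6 * μ)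
    (hb : ‖gp μ b - z‖ ≤ 6 * μ) :
    Relation.ReflTransGen (fun u v => GAdj u v ∧ ‖gp μ v - z‖ ≤ 30 * μ) a b := by
  obtain ⟨a1, a2⟩ := shadow_box ha
  obtain ⟨b1, b2⟩ := shadow_box hb
  have w1 := shadow_line' (f := fun m => (m, a.2)) (shadow_row a.2)
    (S := fun v => ‖gp μ v - z‖ ≤ 30 * μ) (i := a.1) (j := b.1) fun m h1 h2 =>
      (gp_near_box (k := (m, a.2)) (shadow_mid hμ a1 b1 h1 h2) a2).2.2
  have w2 := shadow_line' (f := fun m => (b.1, m)) (shadow_col b.1)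
    (S := fun v => ‖gp μ v - z‖ ≤ 30 * μ) (i := a.2) (j := b.2) fun m h1 h2 =>
      (gp_near_box (k := (b.1, m)) b1 (shadow_mid hμ a2 b2 h1 h2)).2.2
  exact w1.trans w2

/-- P4. A walk in the grid that follows a connected set. Hint: two grid points within `6 μ` of `z`
are joined by an L-shaped walk within `30 μ` of `z`; `IsPreconnected.induction₂'`. -/
theorem shadow {μ : ℝ} (hμ : 0 < μ) {C : Set ℂ} (hC : IsPreconnected C) {x y : ℂ} (hx : x ∈ C)
    (hy : y ∈ C) {a b : ℤ × ℤ} (ha : ‖gp μ a - x‖ ≤ 5 * μ) (hb : ‖gp μ b - y‖ ≤ 5 * μ) :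
    Relation.ReflTransGen (fun u v => GAdj u v ∧ ∃ z ∈ C, ‖gp μ v - z‖ ≤ 30 * μ) a b := by
  have key := hC.induction₂' (fun x y => ∀ a b : ℤ × ℤ, ‖gp μ a - x‖ ≤ 5 * μ →
      ‖gp μ b - y‖ ≤ 5 * μ →
      Relation.ReflTransGen (fun u v => GAdj u v ∧ ∃ z ∈ C, ‖gp μ v - z‖ ≤ 30 * μ) a b)
    (fun x hx => ?_) (fun x y z _ _ _ h h' a b ha hb => ?_) hx hy
  · exact key a b ha hb
  · filter_upwards [mem_nhdsWithin_of_mem_nhds (closedBall_mem_nhds x hμ)] with y hy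
    rw [mem_closedBall, dist_eq_norm] at hy
    have e : ∀ k, ‖gp μ k - y‖ ≤ 5 * μ → ‖gp μ k - x‖ ≤ 6 * μ := fun k hk => by
      linarith [norm_sub_le_norm_sub_add_norm_sub (gp μ k) y x]
    have m : ∀ a b, Relation.ReflTransGen (fun u v => GAdj u v ∧ ‖gp μ v - x‖ ≤ 30 * μ) a b →
        Relation.ReflTransGen (fun u v => GAdj u v ∧ ∃ z ∈ C, ‖gp μ v - z‖ ≤ 30 * μ) a b := by
      intro a b w
      induction w with
      | refl => exact .refl
      | tail _ h ih => exact ih.tail ⟨h.1, x, hx, h.2⟩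
    exact ⟨fun a b ha hb => m _ _ (shadow_loc hμ (by linarith) (e b hb)),
      fun a b ha hb => m _ _ (shadow_loc hμ (e a ha) (by linarith))⟩
  · obtain ⟨k, hk⟩ := gp_near hμ y
    exact (h a k ha hk).trans (h' k b hk hb)

/-- A walk with monotone labels. -/
def simple_walk_W {α : Type} (Adj : α → α → Prop) (G : ℕ → Set α) (n : ℕ) (v : ℕ → α)
    (c : ℕ → ℕ) : Prop :=
  (∀ i < n, Adj (v i) (v (i + 1))) ∧ (∀ i ≤ n, v i ∈ G (c i)) ∧
    (∀ i j, i ≤ j → j ≤ n → c i ≤ c j) ∧ c 0 = 0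

theorem simple_walk_ext {α : Type} {Adj : α → α → Prop} {G : ℕ → Set α} {L : ℕ} {x x' y : α}
    (h : ∃ n v c, simple_walk_W Adj G n v c ∧ v 0 = x ∧ v n = x' ∧ c n ≤ L)
    (w : Relation.ReflTransGen (fun u v => Adj u v ∧ v ∈ G L) x' y) :
    ∃ n v c, simple_walk_W Adj G n v c ∧ v 0 = x ∧ v n = y ∧ c n ≤ L := by
  induction w with
  | refl => exact h
  | @tail p q _ hq ih =>
    obtain ⟨n, v, c, ⟨h1, h2, h3, h4⟩, h5, h6, h7⟩ := ih
    refine ⟨n + 1, fun i => if i ≤ n then v i else q, fun i => if i ≤ n then c i else L,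
      ⟨fun i hi => ?_, fun i hi => ?_, fun i j hij hj => ?_, by simpa using h4⟩,
      by simpa using h5, by simp, by simp⟩
    · by_cases e : i + 1 ≤ n
      · simp only [if_pos e, if_pos (Nat.le_of_succ_le e)]
        exact h1 i e
      · obtain rfl : i = n := by omega
        simp only [if_neg e, if_pos le_rfl, h6]
        exact hq.1
    · by_cases e : i ≤ n
      · simp only [if_pos e]
        exact h2 i e
      · simp only [if_neg e]
        exact hq.2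
    · by_cases e : j ≤ n
      · simp only [if_pos e, if_pos (hij.trans e)]
        exact h3 i j hij e
      · by_cases e' : i ≤ n
        · simp only [if_neg e, if_pos e']
          exact (h3 i n e' le_rfl).trans h7
        · simp only [if_neg e, if_neg e', le_rfl]

theorem simple_walk_cut {α : Type} {Adj : α → α → Prop} {G : ℕ → Set α} {n : ℕ} {v : ℕ → α}
    {c : ℕ → ℕ} (h : simple_walk_W Adj G n v c) {i d : ℕ} (hj : i + 1 + d ≤ n)
    (ha : Adj (v i) (v (i + 1 + d))) :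
    ∃ v' c', simple_walk_W Adj G (n - d) v' c' ∧ v' 0 = v 0 ∧ v' (n - d) = v n ∧
      c' (n - d) = c n := by
  obtain ⟨h1, h2, h3, h4⟩ := h
  have e0 : ¬ n - d ≤ i := by omega
  have e1 : n - d + d = n := by omega
  refine ⟨fun m => if m ≤ i then v m else v (m + d), fun m => if m ≤ i then c m else c (m + d),
    ⟨fun m hm => ?_, fun m hm => ?_, fun m m' hm hm' => ?_, by simpa using h4⟩, by simp,
    by simp only [if_neg e0, e1], by simp only [if_neg e0, e1]⟩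
  · by_cases e : m + 1 ≤ i
    · simp only [if_pos e, if_pos (Nat.le_of_succ_le e)]
      exact h1 m (by omega)
    · by_cases e' : m ≤ i
      · obtain rfl : m = i := by omega
        simp only [if_neg e, if_pos le_rfl]
        exact ha
      · simp only [if_neg e, if_neg e', show m + 1 + d = m + d + 1 by omega]
        exact h1 _ (by omega)
  · by_cases e : m ≤ i
    · simp only [if_pos e]
      exact h2 m (by omega)
    · simp only [if_neg e]
      exact h2 _ (by omega)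
  · simp only
    split_ifs <;> exact h3 _ _ (by omega) (by omega)

/-- P5. Hint: among the walks from `Out` to `Out` with monotone labels in `{0, 1, 2}`, from `0` to
`2`, each vertex in the set of its label, take a shortest one. -/
theorem simple_walk {α : Type} {Adj : α → α → Prop} {G₀ G₁ G₂ Out : Set α}
    (h02 : Disjoint G₀ G₂) (h02' : ∀ a ∈ G₀, ∀ b ∈ G₂, ¬ Adj a b) (h1 : Disjoint G₁ Out)
    {x₀ x₁ x₂ x₃ : α} (o0 : x₀ ∈ Out) (g0 : x₀ ∈ G₀) (o3 : x₃ ∈ Out) (g3 : x₃ ∈ G₂)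
    (w0 : Relation.ReflTransGen (fun u v => Adj u v ∧ v ∈ G₀) x₀ x₁)
    (w1 : Relation.ReflTransGen (fun u v => Adj u v ∧ v ∈ G₁) x₁ x₂)
    (w2 : Relation.ReflTransGen (fun u v => Adj u v ∧ v ∈ G₂) x₂ x₃) :
    ∃ (n a b : ℕ) (v : ℕ → α), 0 < a ∧ a ≤ b ∧ b < n ∧ InjOn v (Iic n) ∧
      (∀ i < n, Adj (v i) (v (i + 1))) ∧ v 0 ∈ Out ∧ v n ∈ Out ∧
      (∀ i, 0 < i → i < n → v i ∉ Out) ∧ (∀ i < a, v i ∈ G₀) ∧
      (∀ i, a ≤ i → i ≤ b → v i ∈ G₁) ∧ ∀ i, b < i → i ≤ n → v i ∈ G₂ := by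
  let G : ℕ → Set α := fun L => if L = 0 then G₀ else if L = 1 then G₁ else G₂
  have hex : ∃ n, ∃ v c, simple_walk_W Adj G n v c ∧ v 0 ∈ Out ∧ v n ∈ Out ∧ c n = 2 := by
    have s0 : ∃ n v c, simple_walk_W Adj G n v c ∧ v 0 = x₀ ∧ v n = x₀ ∧ c n ≤ 0 :=
      ⟨0, fun _ => x₀, fun _ => 0, ⟨fun i hi => absurd hi (Nat.not_lt_zero i), fun _ _ => g0,
        fun _ _ _ _ => le_rfl, rfl⟩, rfl, rfl, le_rfl⟩
    obtain ⟨n, v, c, a1, a2, a3, a4⟩ := simple_walk_ext (L := 0) s0 w0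
    obtain ⟨n, v, c, a1, a2, a3, a4⟩ :=
      simple_walk_ext (L := 1) ⟨n, v, c, a1, a2, a3, by omega⟩ w1
    obtain ⟨n, v, c, ⟨h1, h2, h3, h4⟩, a2, a3, a4⟩ :=
      simple_walk_ext (L := 2) ⟨n, v, c, a1, a2, a3, by omega⟩ w2
    have n0 : n ≠ 0 := by
      rintro rfl
      exact disjoint_left.1 h02 g0 (by rw [← a2, a3]; exact g3)
    refine ⟨n, v, fun i => if i = n then 2 else c i, ⟨h1, fun i hi => ?_, fun i j hij hj => ?_,
      by simp only [if_neg n0.symm, h4]⟩, a2 ▸ o0, a3 ▸ o3, by simp⟩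
    · by_cases e : i = n
      · simp only [if_pos e]
        rw [e, a3]
        exact g3
      · simp only [if_neg e]
        exact h2 i hi
    · have := h3 i j hij hj
      have := h3 j n hj le_rfl
      simp only
      split_ifs <;> omega
  obtain ⟨v, c, hW, v0, vn, cn⟩ := Nat.find_spec hex
  have hmin := fun m (hm : m < Nat.find hex) => Nat.find_min hex hm
  generalize Nat.find hex = n at *
  have ⟨h1, h2, h3, h4⟩ := hW
  have m0 : ∀ i ≤ n, c i = 0 → v i ∈ G₀ := fun i hi e => by simpa [G, e] using h2 i hi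
  have m1 : ∀ i ≤ n, c i = 1 → v i ∈ G₁ := fun i hi e => by simpa [G, e] using h2 i hi
  have m2 : ∀ i ≤ n, 2 ≤ c i → v i ∈ G₂ := fun i hi e => by
    simpa [G, show c i ≠ 0 by omega, show c i ≠ 1 by omega] using h2 i hi
  have cut : ∀ i d, 0 < d → i + 1 + d ≤ n → ¬ Adj (v i) (v (i + 1 + d)) := fun i d hd hj ha => by
    obtain ⟨v', c', a1, a2, a3, a4⟩ := simple_walk_cut hW hj ha
    exact hmin (n - d) (by omega) ⟨v', c', a1, a2 ▸ v0, a3 ▸ vn, a4.trans cn⟩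
  have inj : ∀ i j, i < j → j ≤ n → v i ≠ v j := fun i j hij hj e => by
    rcases hj.lt_or_eq with hj | rfl
    · refine cut i (j - i) (by omega) (by omega) ?_
      rw [e, show i + 1 + (j - i) = j + 1 by omega]
      exact h1 j hj
    · rcases i with _ | i
      · exact disjoint_left.1 h02 (m0 0 (Nat.zero_le _) h4) (e ▸ m2 j le_rfl cn.ge)
      · refine cut i (j - (i + 1)) (by omega) (by omega) ?_
        rw [show i + 1 + (j - (i + 1)) = j by omega, ← e]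
        exact h1 i (by omega)
  have ea : ∃ i, 1 ≤ c i := ⟨n, by omega⟩
  have eb : ∃ i, 2 ≤ c i := ⟨n, by omega⟩
  have a1 := Nat.find_spec ea
  have a2 := fun m (hm : m < Nat.find ea) => Nat.find_min ea hm
  have a3 : Nat.find ea ≤ n := Nat.find_min' ea (by omega)
  have b1 := Nat.find_spec eb
  have b2 := fun m (hm : m < Nat.find eb) => Nat.find_min eb hm
  have b3 : Nat.find eb ≤ n := Nat.find_min' eb (by omega)
  generalize Nat.find ea = a at *
  generalize Nat.find eb = b at *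
  have a0 : 0 < a := Nat.pos_of_ne_zero (by rintro rfl; omega)
  have ab : a < b := by
    by_contra! hc
    have e := a2 (a - 1) (by omega)
    refine h02' _ (m0 (a - 1) (by omega) (by omega)) _ (m2 a a3 (b1.trans (h3 _ _ hc a3))) ?_
    have := h1 (a - 1) (by omega)
    rwa [show a - 1 + 1 = a by omega] at this
  refine ⟨n, a, b - 1, v, a0, by omega, by omega, fun i hi j hj e => ?_, h1, v0, vn,
    fun i i0 hi ho => ?_, fun i hi => m0 i (by omega) (by have := a2 i hi; omega),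
    fun i p q => m1 i (by omega) ?_, fun i p q => m2 i q (b1.trans (h3 _ _ (by omega) q))⟩
  · rcases lt_trichotomy i j with h | h | h
    · exact (inj i j h hj e).elim
    · exact h
    · exact (inj j i h hi e.symm).elim
  · have := h3 i n hi.le le_rfl
    rcases (by omega : c i = 0 ∨ c i = 1 ∨ c i = 2) with e | e | e
    · refine hmin (n - i) (by omega) ⟨fun m => v (m + i), fun m => c (m + i),
        ⟨fun m hm => ?_, fun m hm => h2 _ (by omega), fun m m' p q => h3 _ _ (by omega) (by omega),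
          by simpa using e⟩, by simpa using ho, ?_, ?_⟩
      · simp only [show m + 1 + i = m + i + 1 by omega]
        exact h1 _ (by omega)
      · simp only [show n - i + i = n by omega]
        exact vn
      · simp only [show n - i + i = n by omega]
        exact cn
    · exact disjoint_left.1 ‹Disjoint G₁ Out› (m1 i hi.le e) ho
    · exact hmin i hi ⟨v, c, ⟨fun m hm => h1 m (by omega), fun m hm => h2 m (by omega),
        fun m m' p q => h3 m m' p (by omega), h4⟩, v0, ho, e⟩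
  · have := h3 a i p (by omega)
    have := b2 i (by omega)
    omega

/-- P7. Leaving the polygon. Hint: walk in the direction `± (1, 0)` in which `|im|` grows;
`up re - |im|` is `3`-Lipschitz, vanishes at `a`, drops by `2 μ` at each step and is positive in
the interior. -/
theorem walk_out (Λ : Lens) {μ : ℝ} (hμ : 0 < μ) {a : ℂ} (ha : a ∈ frontier Λ.P) {k : ℤ × ℤ}
    (hk : ‖gp μ k - a‖ ≤ 405 * μ) : ∃ k', gp μ k' ∉ interior Λ.P ∧ ‖gp μ k' - a‖ ≤ 4000 * μ ∧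
      Relation.ReflTransGen (fun u v => GAdj u v ∧ ‖gp μ v - a‖ ≤ 4000 * μ) k k' ∧
      Relation.ReflTransGen (fun u v => GAdj u v ∧ ‖gp μ v - a‖ ≤ 4000 * μ) k' k := by
  have h0 := (Λ.mem_frontier (s := 0)).1 ha
  have hup : Λ.up a.re = |a.im| := by
    have h1 := h0.1.2
    rcases h0.2 with h | h
    · have : Λ.up a.re = 0 := by
        rcases (abs_eq zero_le_one).1 h with e | e <;> rw [e]
        · exact Λ.up_one
        · exact Λ.up_neg
      linarith [abs_nonneg a.im]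
    · linarith
  have r1 := abs_le.1 ((Complex.abs_re_le_norm _).trans hk)
  have r2 := abs_le.1 ((Complex.abs_im_le_norm _).trans hk)
  simp only [gp, Complex.sub_re, Complex.sub_im] at r1 r2
  have near : ∀ m : ℤ, k.1 - 608 ≤ m → m ≤ k.1 + 608 → ‖gp μ (m, k.2) - a‖ ≤ 4000 * μ := by
    intro m p q
    have p' : μ * ((k.1 : ℝ) - 608) ≤ μ * m :=
      mul_le_mul_of_nonneg_left (by exact_mod_cast p) hμ.le
    have q' : μ * m ≤ μ * ((k.1 : ℝ) + 608) :=
      mul_le_mul_of_nonneg_left (by exact_mod_cast q) hμ.le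
    refine (Complex.norm_le_abs_re_add_abs_im _).trans ?_
    simp only [gp, Complex.sub_re, Complex.sub_im]
    have t1 : |μ * (m - k.2) - a.re| ≤ 1013 * μ := abs_le.2 ⟨by linarith only [r1, p'], by linarith⟩
    have t2 : |4 * μ * (m + k.2) - a.im| ≤ 2837 * μ := abs_le.2 ⟨by linarith, by linarith⟩
    linarith
  have out : ∀ m : ℤ, |μ * (m - k.2) - a.re| ≤ 1013 * μ →
      |a.im| + 2027 * μ ≤ |4 * μ * (m + k.2)| → gp μ (m, k.2) ∉ interior Λ.P := by
    intro m p q hi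
    have h1 := (interior_subset hi).2
    have h2 := abs_le.1 (Λ.lip (μ * (m - k.2)) a.re)
    simp only [gp] at h1
    linarith
  have walk : ∀ i j : ℤ, k.1 - 608 ≤ min i j → max i j ≤ k.1 + 608 →
      Relation.ReflTransGen (fun u v => GAdj u v ∧ ‖gp μ v - a‖ ≤ 4000 * μ) (i, k.2) (j, k.2) :=
    fun i j p q => shadow_line' (f := fun m => (m, k.2)) (shadow_row k.2)
      (S := fun v => ‖gp μ v - a‖ ≤ 4000 * μ) fun m h1 h2 => near m (by omega) (by omega)
  rcases le_total 0 a.im with h | h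
  · refine ⟨(k.1 + 608, k.2), out _ ?_ ?_, near _ (by omega) le_rfl,
      walk k.1 _ (by omega) (by omega), walk _ k.1 (by omega) (by omega)⟩
    · push_cast
      exact abs_le.2 ⟨by linarith only [hμ, r1], by linarith⟩
    · push_cast
      rw [abs_of_nonneg h]
      exact le_trans (by linarith) (le_abs_self _)
  · refine ⟨(k.1 - 608, k.2), out _ ?_ ?_, near _ le_rfl (by omega),
      walk k.1 _ (by omega) (by omega), walk _ k.1 (by omega) (by omega)⟩
    · push_cast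
      exact abs_le.2 ⟨by linarith, by linarith⟩
    · push_cast
      rw [abs_of_nonpos h]
      exact le_trans (by linarith) (neg_le_abs _)

end Pool.Agent.MP_17e62b_gt.G

end

section
/-! Arcs. -/

namespace Pool.Agent.MP_17e62b_gt.G

open Set Filter Topology Metric
open scoped BigOperators InnerProductSpace Classical
open H14
open T55 (af Sq SqH SqV Cells Nbr vert)
open Pool.Agent.MP_4a6971_al.H83 (PArc)

theorem arc_of_walk_adj {a b : ℤ × ℤ} (h : GAdj a b) : ∃ p q : ℤ, b.1 = a.1 + p ∧ b.2 = a.2 + q ∧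
    (p = 0 ∧ (q = 1 ∨ q = -1) ∨ q = 0 ∧ (p = 1 ∨ p = -1)) :=
  ⟨b.1 - a.1, b.2 - a.2, by ring, by ring, by unfold GAdj at h; omega⟩

theorem arc_of_walk_meet {a b c d : ℤ × ℤ} (h : GAdj a b) (h' : GAdj c d) {τ σ : ℝ} (h0 : 0 < τ)
    (h1 : τ < 1) (h2 : 0 ≤ σ) (h3 : σ ≤ 1)
    (e1 : (1 - τ) * a.1 + τ * b.1 = (1 - σ) * c.1 + σ * d.1)
    (e2 : (1 - τ) * a.2 + τ * b.2 = (1 - σ) * c.2 + σ * d.2) :
    (a = c ∧ τ = σ) ∨ (a = d ∧ b = c) := by
  obtain ⟨p, q, hp, hq, hpq⟩ := arc_of_walk_adj h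
  obtain ⟨p', q', hp', hq', hpq'⟩ := arc_of_walk_adj h'
  have key : ∀ x y k : ℤ, (x : ℝ) < y + k → x < y + k := fun x y k h => by exact_mod_cast h
  have f1 : (a.1 : ℝ) + τ * p = c.1 + σ * p' := by
    rw [hp, hp'] at e1; push_cast at e1; linarith only [e1]
  have f2 : (a.2 : ℝ) + τ * q = c.2 + σ * q' := by
    rw [hq, hq'] at e2; push_cast at e2; linarith only [e2]
  clear e1 e2
  rcases hpq with ⟨rfl, rfl | rfl⟩ | ⟨rfl, rfl | rfl⟩ <;>
  rcases hpq' with ⟨rfl, rfl | rfl⟩ | ⟨rfl, rfl | rfl⟩ <;>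
  push_cast at f1 f2 <;>
  (try have := key a.1 c.1 0 (by push_cast; linarith)) <;>
  (try have := key a.1 c.1 1 (by push_cast; linarith)) <;>
  (try have := key a.1 c.1 2 (by push_cast; linarith)) <;>
  (try have := key c.1 a.1 0 (by push_cast; linarith)) <;>
  (try have := key c.1 a.1 1 (by push_cast; linarith)) <;>
  (try have := key c.1 a.1 2 (by push_cast; linarith)) <;>
  (try have := key a.2 c.2 0 (by push_cast; linarith)) <;>
  (try have := key a.2 c.2 1 (by push_cast; linarith)) <;>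
  (try have := key a.2 c.2 2 (by push_cast; linarith only [h0, h1, h3, f2, h2])) <;>
  (try have := key c.2 a.2 0 (by push_cast; linarith)) <;>
  (try have := key c.2 a.2 1 (by push_cast; linarith)) <;>
  (try have := key c.2 a.2 2 (by push_cast; linarith only [h0, h1, h2, f2, h3])) <;>
  first
    | (exfalso; omega)
    | exact Or.inr ⟨Prod.ext (by omega) (by omega), Prod.ext (by omega) (by omega)⟩
    | (have g1 : a.1 = c.1 := by omega
       have g2 : a.2 = c.2 := by omega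
       rw [g1] at f1
       rw [g2] at f2
       exact Or.inl ⟨Prod.ext g1 g2, by linarith only [f2, f1]⟩)

theorem arc_of_walk_exit {P : Set ℂ} (hP : IsClosed P) {Γ : ℝ → ℂ} (hc : Continuous Γ)
    (h0 : Γ 0 ∉ interior P) (h1 : Γ 1 ∈ interior P) : ∃ s, 0 ≤ s ∧ s < 1 ∧ Γ s ∈ P ∧
      Γ s ∉ interior P ∧ ∀ t, s < t → t ≤ 1 → Γ t ∈ interior P := by
  have hK : IsCompact (Icc (0 : ℝ) 1 ∩ Γ ⁻¹' (interior P)ᶜ) :=
    isCompact_Icc.inter_right (isOpen_interior.isClosed_compl.preimage hc)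
  obtain ⟨s, ⟨hs, hs'⟩, hm⟩ := hK.exists_isGreatest ⟨0, left_mem_Icc.2 zero_le_one, h0⟩
  have hlt : s < 1 := lt_of_le_of_ne hs.2 fun e => hs' (e ▸ h1)
  have hin : ∀ t, s < t → t ≤ 1 → Γ t ∈ interior P := fun t a b => by
    by_contra c
    exact absurd (hm ⟨⟨hs.1.trans a.le, b⟩, c⟩) (not_le.2 a)
  refine ⟨s, hs.1, hlt, ?_, hs', hin⟩
  have h2 : s ∈ closure (Ioc s 1) := by
    rw [closure_Ioc hlt.ne]; exact left_mem_Icc.2 hlt.le
  exact hP.closure_subset (hc.continuousWithinAt.mem_closure h2 fun t ht =>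
    interior_subset (hin t ht.1 ht.2))

theorem arc_of_walk_grid (Λ : Lens) {μ : ℝ} (hμ : 0 < μ) {k : ℤ × ℤ} (hk : gp μ k ∈ Λ.P) :
    ((⟨4, -1⟩ : ℂ), 8 * μ * k.1) ∈ grid μ ∧ ((⟨4, 1⟩ : ℂ), 8 * μ * (-k.2 : ℤ)) ∈ grid μ := by
  have a1 := abs_le.1 hk.1
  have a2 := abs_le.1 (hk.2.trans (by linarith [Λ.up_le _ hk.1] : _ ≤ (1 : ℝ)))
  simp only [gp] at a1 a2
  have key : ∀ j : ℤ, |μ * j| ≤ 2 → j ∈ Finset.Icc (-⌈2 / μ⌉) ⌈2 / μ⌉ := fun j hj => by
    rw [abs_mul, abs_of_pos hμ, mul_comm, ← le_div_iff₀ hμ] at hj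
    have h2 : |j| ≤ ⌈2 / μ⌉ := by exact_mod_cast hj.trans (Int.le_ceil _)
    exact Finset.mem_Icc.2 (abs_le.1 h2)
  constructor
  · exact Finset.mem_union_right _ (Finset.mem_image_of_mem _
      (key k.1 (abs_le.2 ⟨by linarith, by linarith⟩)))
  · exact Finset.mem_union_left _ (Finset.mem_image_of_mem _
      (key (-k.2) (abs_le.2 ⟨by push_cast; linarith, by push_cast; linarith⟩)))

/-- P6. Hint: replace the first and the last vertex by the points where the first and the last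
edge meet the frontier. `γ t = ∑ i, max 0 (1 - |n t - i|) • w i` (compare `H14.pl`). Two edges of
the grid meet only in a common end (use the coordinates of P3). -/
theorem arc_of_walk (Λ : Lens) {μ : ℝ} (hμ : 0 < μ) (hμ' : μ ≤ 1 / 100) {n : ℕ} (hn : 2 ≤ n)
    {u : ℕ → ℤ × ℤ} (hi : InjOn u (Iic n)) (ha : ∀ i < n, GAdj (u i) (u (i + 1)))
    (h0 : gp μ (u 0) ∉ interior Λ.P) (h1 : gp μ (u n) ∉ interior Λ.P)
    (hm : ∀ i, 0 < i → i < n → gp μ (u i) ∈ interior Λ.P) :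
    ∃ (v : ℕ → ℂ) (γ : ℝ → ℂ), CutArc Λ μ n v γ ∧ ∀ i < n,
      segment ℝ (v i) (v (i + 1)) ⊆ segment ℝ (gp μ (u i)) (gp μ (u (i + 1))) := by
  have hn0 : 0 < n := by omega
  have hnR : (2 : ℝ) ≤ n := by exact_mod_cast hn
  obtain ⟨X, hX⟩ : ∃ X, X = pl n fun i => ((u i).1 : ℝ) := ⟨_, rfl⟩
  obtain ⟨Y, hY⟩ : ∃ Y, Y = pl n fun i => ((u i).2 : ℝ) := ⟨_, rfl⟩
  obtain ⟨Γ, hΓ⟩ : ∃ Γ : ℝ → ℂ, Γ = fun s => ⟨μ * (X s - Y s), 4 * μ * (X s + Y s)⟩ := ⟨_, rfl⟩
  have cX : Continuous X := hX ▸ pl_continuous _ _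
  have cY : Continuous Y := hY ▸ pl_continuous _ _
  have cΓ : Continuous Γ := by
    rw [hΓ]
    simp only [Complex.mk_eq_add_mul_I]
    fun_prop
  have nΓ : ∀ i ≤ n, Γ i = gp μ (u i) := fun i hi => by
    simp only [hΓ, hX, hY, pl_nat hi, gp]
  have lΓ : ∀ i < n, ∀ s : ℝ, i ≤ s → s ≤ i + 1 →
      Γ s = AffineMap.lineMap (gp μ (u i)) (gp μ (u (i + 1))) (s - i) := fun i hi s a b => by
    simp only [hΓ, hX, hY, pl_eq hi _ a b, gp, AffineMap.lineMap_apply_module]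
    apply Complex.ext <;> simp only [Complex.real_smul, Complex.ofReal_sub, Complex.ofReal_one, Complex.ofReal_natCast, Complex.add_re, Complex.mul_re, Complex.sub_re, Complex.one_re, Complex.ofReal_re, Complex.natCast_re, Complex.sub_im, Complex.one_im, Complex.ofReal_im, Complex.natCast_im, sub_self, zero_mul, sub_zero, Complex.add_im, Complex.mul_im, add_zero] <;> ring
  have iΓ : InjOn Γ (Icc 0 n) := by
    have half : ∀ i < n, ∀ j < n, ∀ s t : ℝ, i < s → s < i + 1 → j ≤ t → t ≤ j + 1 →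
        X s = X t → Y s = Y t → s = t := by
      intro i hi' j hj s t a b c d e1 e2
      rw [hX, pl_eq hi' _ a.le b.le, pl_eq hj _ c d] at e1
      rw [hY, pl_eq hi' _ a.le b.le, pl_eq hj _ c d] at e2
      rcases arc_of_walk_meet (ha i hi') (ha j hj) (by linarith only [a]) (by linarith only [b]) (by linarith only [c])
        (by linarith only [d]) e1 e2 with ⟨f1, f2⟩ | ⟨f1, f2⟩
      · obtain rfl : i = j := hi (mem_Iic.2 hi'.le) (mem_Iic.2 hj.le) f1
        linarith only [f2]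
      · have g1 : i = j + 1 := hi (mem_Iic.2 hi'.le) (mem_Iic.2 hj) f1
        have g2 : i + 1 = j := hi (mem_Iic.2 hi') (mem_Iic.2 hj.le) f2
        omega
    have alt : ∀ s ∈ Icc (0 : ℝ) n, (∃ i < n, (i : ℝ) < s ∧ s < i + 1) ∨ ∃ k ≤ n, s = (k : ℕ) := by
      intro s hs
      obtain ⟨i, hi', a, b⟩ := exists_cell hn0 hs
      rcases a.eq_or_lt with a | a
      · exact Or.inr ⟨i, hi'.le, a.symm⟩
      rcases b.eq_or_lt with b | b
      · exact Or.inr ⟨i + 1, hi', by push_cast; exact b⟩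
      exact Or.inl ⟨i, hi', a, b⟩
    intro s hs t ht e
    have e' := e
    rw [hΓ] at e'
    simp only [Complex.mk.injEq] at e'
    have e3 := mul_left_cancel₀ hμ.ne' e'.1
    have e4 := mul_left_cancel₀ (by positivity : 4 * μ ≠ 0) e'.2
    have e1 : X s = X t := by linarith only [e3, e4]
    have e2 : Y s = Y t := by linarith only [e3, e4]
    obtain ⟨i, hi', a, b⟩ := exists_cell hn0 hs
    obtain ⟨j, hj, c, d⟩ := exists_cell hn0 ht
    rcases alt s hs with ⟨k, hk, a', b'⟩ | ⟨k, hk, rfl⟩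
    · exact half k hk j hj s t a' b' c d e1 e2
    rcases alt t ht with ⟨l, hl, c', d'⟩ | ⟨l, hl, rfl⟩
    · exact (half l hl i hi' _ _ c' d' a b e1.symm e2.symm).symm
    rw [hX, pl_nat hk, pl_nat hl] at e1
    rw [hY, pl_nat hk, pl_nat hl] at e2
    rw [hi (mem_Iic.2 hk) (mem_Iic.2 hl) (Prod.ext (by exact_mod_cast e1) (by exact_mod_cast e2))]
  have hP : IsClosed Λ.P := (Λ.compact_reg 0).isClosed
  have hC : Convex ℝ (interior Λ.P) := (Λ.convex_reg 0).interior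
  obtain ⟨s₀, p1, p2, p3, p4, p5⟩ := arc_of_walk_exit hP cΓ
    (by rw [← Nat.cast_zero, nΓ 0 hn0.le]; exact h0)
    (by rw [← Nat.cast_one, nΓ 1 hn0]; exact hm 1 one_pos hn)
  obtain ⟨s₁, q1, q2, q3, q4, q5⟩ := arc_of_walk_exit (Γ := fun s => Γ (n - s)) hP (by fun_prop)
    (by rw [sub_zero, nΓ n le_rfl]; exact h1)
    (by rw [← Nat.cast_pred hn0, nΓ _ (Nat.sub_le _ _)]; exact hm _ (by omega) (by omega))
  have mid : ∀ s, s₀ < s → s < n - s₁ → Γ s ∈ interior Λ.P := by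
    intro s a b
    by_cases c : s ≤ 1
    · exact p5 s a c
    by_cases d : n - s ≤ 1
    · simpa only [sub_sub_cancel] using q5 (n - s) (by linarith only [b]) d
    obtain ⟨i, hi', e1, e2⟩ := exists_cell hn0 (s := s) ⟨by linarith only [hμ, hμ', c], by linarith only [hμ, hμ', d]⟩
    have e3 : 0 < i := by
      have : (0 : ℝ) < i := by linarith only [c, e2]
      exact_mod_cast this
    have e4 : i + 1 < n := by
      have : (i : ℝ) + 1 < n := by linarith only [d, e1]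
      exact_mod_cast this
    rw [lΓ i hi' s e1 e2]
    exact hC.lineMap_mem (hm i e3 hi') (hm _ (by omega) e4) ⟨by linarith only [e1], by linarith only [e2]⟩
  obtain ⟨a, a0, an, ai⟩ : ∃ a : ℕ → ℝ, a 0 = s₀ ∧ a n = n - s₁ ∧ ∀ i, 0 < i → i < n → a i = i :=
    ⟨fun i => if i = 0 then s₀ else if i = n then n - s₁ else i, by simp, by simp [hn0.ne'],
      fun i h h' => by simp [h.ne', h'.ne]⟩
  have ab : ∀ i < n, (i : ℝ) ≤ a i ∧ a i < a (i + 1) ∧ a (i + 1) ≤ i + 1 := by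
    intro i hi'
    rcases Nat.eq_zero_or_pos i with rfl | h
    · rw [a0, ai _ (by omega) (by omega)]
      push_cast
      exact ⟨p1, by linarith only [p2], by linarith only []⟩
    rw [ai i h hi']
    rcases (Nat.succ_le_of_lt hi').eq_or_lt with e | e
    · have e' : (i : ℝ) + 1 = n := by exact_mod_cast e
      rw [show i + 1 = n from e, an]
      exact ⟨le_rfl, by linarith only [q2, e'], by linarith only [q1, e']⟩
    · rw [ai _ (by omega) e]
      push_cast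
      exact ⟨le_rfl, by linarith only [hμ, hμ'], le_rfl⟩
  have am := pl_strictMono fun i hi' => (ab i hi').2.1
  have z0 : pl n a 0 = s₀ := by rw [← a0]; simpa using pl_nat hn0.le a
  have z1 : pl n a n = n - s₁ := by rw [← an]; exact pl_nat le_rfl a
  have mm : ∀ t ∈ Icc (0 : ℝ) 1, n * t ∈ Icc (0 : ℝ) n := fun t ht =>
    ⟨mul_nonneg (by linarith only [hμ, hμ', hnR]) ht.1, mul_le_of_le_one_right (by linarith only [hμ, hμ', hnR]) ht.2⟩
  have l0 : (0 : ℝ) ∈ Icc (0 : ℝ) n := left_mem_Icc.2 (by linarith only [hμ, hμ', hnR])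
  have l1 : (n : ℝ) ∈ Icc (0 : ℝ) n := right_mem_Icc.2 (by linarith only [hμ, hμ', hnR])
  have mp : ∀ s ∈ Icc (0 : ℝ) n, pl n a s ∈ Icc (0 : ℝ) n := fun s hs =>
    ⟨by linarith only [am.monotoneOn l0 hs hs.1, p1, z0], by linarith only [am.monotoneOn hs l1 hs.2, q1, z1]⟩
  have v0 : ∀ i < n, Γ (a i) =
      AffineMap.lineMap (gp μ (u i)) (gp μ (u (i + 1))) (a i - i) := fun i hi' =>
    lΓ i hi' _ (ab i hi').1 (by linarith only [ab i hi'])
  have v1 : ∀ i < n, Γ (a (i + 1)) =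
      AffineMap.lineMap (gp μ (u i)) (gp μ (u (i + 1))) (a (i + 1) - i) := fun i hi' =>
    lΓ i hi' _ (by linarith only [ab i hi']) (ab i hi').2.2
  refine ⟨fun i => Γ (a i), fun t => Γ (pl n a (n * t)), ⟨hn, ⟨?_, ?_, ?_, ?_, ?_, ?_, ?_⟩, ?_, ?_,
    ?_⟩, ?_⟩
  · exact (cΓ.comp ((pl_continuous n a).comp (by fun_prop))).continuousOn
  · intro s hs t ht e
    exact mul_left_cancel₀ (by positivity : (n : ℝ) ≠ 0)
      (am.injOn (mm s hs) (mm t ht) (iΓ (mp _ (mm s hs)) (mp _ (mm t ht)) e))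
  · rwa [mul_zero, z0]
  · rwa [mul_zero, z0]
  · rwa [mul_one, z1]
  · rwa [mul_one, z1]
  · intro t ht
    have h2 := mm t (Ioo_subset_Icc_self ht)
    exact mid _ (z0 ▸ am l0 h2 (mul_pos (by linarith only [hμ, hμ', hnR]) ht.1))
      (z1 ▸ am h2 l1 (mul_lt_of_lt_one_right (by linarith only [hμ, hμ', hnR]) ht.2))
  · intro i hi' t ht
    obtain ⟨b1, b2, b3⟩ := ab i hi'
    rw [mul_div_cancel₀ _ (by positivity : (n : ℝ) ≠ 0),
      pl_eq hi' a (by linarith only [ht.1]) (by linarith only [ht.2]), v0 i hi', v1 i hi',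
      lΓ i hi' _ (by nlinarith only [ht.1, b1, b2]) (by nlinarith only [ht.2, b2, b3])]
    simp only [AffineMap.lineMap_apply_module]
    module
  · intro i hi'
    obtain ⟨k, hk, hk'⟩ : ∃ k, (k = u i ∨ k = u (i + 1)) ∧ gp μ k ∈ Λ.P := by
      rcases Nat.eq_zero_or_pos i with rfl | h
      · exact ⟨_, Or.inr rfl, interior_subset (hm _ (by omega) (by omega))⟩
      · exact ⟨_, Or.inl rfl, interior_subset (hm _ h hi')⟩
    obtain ⟨g1, g2⟩ := arc_of_walk_grid Λ hμ hk'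
    rw [v0 i hi', v1 i hi']
    rcases ha i hi' with ⟨e, -⟩ | ⟨e, -⟩
    · have e' : k.1 = (u i).1 := by rcases hk with rfl | rfl <;> omega
      refine ⟨_, g1, ?_, ?_⟩ <;> simp only [af, gp, ← e, AffineMap.lineMap_apply_module, Complex.real_smul, Complex.ofReal_sub, Complex.ofReal_one, Complex.ofReal_natCast, Complex.mul_re, Complex.add_re, Complex.sub_re, Complex.one_re, Complex.ofReal_re, Complex.natCast_re, Complex.sub_im, Complex.one_im, Complex.ofReal_im, Complex.natCast_im, sub_self, zero_mul, sub_zero, Complex.add_im, Complex.mul_im, add_zero, neg_mul, one_mul, neg_add_rev, e'] <;> ring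
    · have e' : k.2 = (u i).2 := by rcases hk with rfl | rfl <;> omega
      refine ⟨_, g2, ?_, ?_⟩ <;> simp only [af, gp, ← e, AffineMap.lineMap_apply_module, Complex.real_smul, Complex.ofReal_sub, Complex.ofReal_one, Complex.ofReal_natCast, Complex.mul_re, Complex.add_re, Complex.sub_re, Complex.one_re, Complex.ofReal_re, Complex.natCast_re, Complex.sub_im, Complex.one_im, Complex.ofReal_im, Complex.natCast_im, sub_self, zero_mul, sub_zero, Complex.add_im, Complex.mul_im, add_zero, one_mul, e', Int.cast_neg, mul_neg, sub_neg_eq_add] <;> ring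
  · intro i b1 b2
    obtain ⟨p, q, hp, hq, hpq⟩ := arc_of_walk_adj (ha i (by omega))
    rw [ai i b1 (by omega), ai _ (by omega) b2, nΓ i (by omega), nΓ _ b2.le]
    refine le_trans (le_of_eq ?_) (Complex.abs_re_le_norm _)
    have e : (gp μ (u (i + 1)) - gp μ (u i)).re = μ * (p - q : ℤ) := by
      simp only [gp, Complex.sub_re, hp, hq]
      push_cast
      ring
    rw [e, abs_mul, abs_of_pos hμ]
    rcases hpq with ⟨rfl, rfl | rfl⟩ | ⟨rfl, rfl | rfl⟩ <;> simp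
  · intro i hi'
    obtain ⟨b1, b2, b3⟩ := ab i hi'
    simp only [v0 i hi', v1 i hi']
    exact (convex_segment _ _).segment_subset
      (lineMap_mem_segment ℝ _ _ ⟨by linarith only [b1], by linarith only [b2, b3]⟩)
      (lineMap_mem_segment ℝ _ _ ⟨by linarith only [b1, b2], by linarith only [b3]⟩)

theorem straighten_hat (x y : ℝ) : |hat1 x - hat1 y| ≤ |x - y| := by
  unfold hat1
  rw [max_comm 0, max_comm 0]
  refine (abs_max_sub_max_le_abs _ _ _).trans ?_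
  rw [sub_sub_sub_cancel_left, abs_sub_comm]
  exact abs_abs_sub_abs_le_abs_sub x y

/-- A horizontal shear. -/
theorem straighten_shear {a b : ℝ} (ha : |a| < 1 / 2) (hb : |b| < 1 / 2) :
    ∃ (j : ℂ ≃ₜ ℂ) (A : ℝ → ℝ), A 0 = a ∧ A 1 = b ∧ (∀ z, (j z).im = z.im) ∧
      (∀ z, (j z).re = z.re + A z.im * hat1 (2 * z.re - 1)) ∧
      ∀ y, StrictMono fun x => x + A y * hat1 (2 * x - 1) := by
  obtain ⟨A, hA⟩ : ∃ A : ℝ → ℝ, A = fun y => a * hat1 y + b * hat1 (y - 1) := ⟨_, rfl⟩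
  have cH : Continuous hat1 := by unfold hat1; fun_prop
  have cA : Continuous A := by rw [hA]; fun_prop
  have bA : ∀ y, |A y| < 1 / 2 := fun y => by
    have h1 : 0 ≤ hat1 y := le_max_left _ _
    have h2 : 0 ≤ hat1 (y - 1) := le_max_left _ _
    have h3 : hat1 y + hat1 (y - 1) ≤ 1 := by
      unfold hat1
      have := abs_nonneg y
      have := abs_nonneg (y - 1)
      have := le_abs_self y
      have := neg_abs_le (y - 1)
      rcases max_cases 0 (1 - |y|) with h | h <;> rcases max_cases 0 (1 - |y - 1|) with h' | h' <;>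
        linarith [h.1, h'.1]
    have h4 : |A y| ≤ max |a| |b| * (hat1 y + hat1 (y - 1)) := by
      rw [hA, mul_add]
      refine (abs_add_le _ _).trans (add_le_add ?_ ?_)
      · rw [abs_mul, abs_of_nonneg h1]; exact mul_le_mul_of_nonneg_right (le_max_left _ _) h1
      · rw [abs_mul, abs_of_nonneg h2]; exact mul_le_mul_of_nonneg_right (le_max_right _ _) h2
    exact (h4.trans (mul_le_of_le_one_right (le_max_of_le_left (abs_nonneg a)) h3)).trans_lt
      (max_lt ha hb)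
  have sm : ∀ y, StrictMono fun x => x + A y * hat1 (2 * x - 1) := fun y x x' h => by
    have h1 := straighten_hat (2 * x - 1) (2 * x' - 1)
    rw [abs_of_neg (by linarith only [h] : 2 * x - 1 - (2 * x' - 1) < 0)] at h1
    have h2 := le_abs_self (A y * (hat1 (2 * x - 1) - hat1 (2 * x' - 1)))
    rw [abs_mul] at h2
    have h3 := mul_le_mul_of_nonneg_left h1 (abs_nonneg (A y))
    have h4 := mul_lt_mul_of_pos_right (bA y) (by linarith only [h] : 0 < -(2 * x - 1 - (2 * x' - 1)))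
    simp only
    linarith
  have out : ∀ x y : ℝ, x ∉ Icc (0 : ℝ) 1 → x + A y * hat1 (2 * x - 1) = x := fun x y hx => by
    rw [pl_hat1_zero, mul_zero, add_zero]
    rw [mem_Icc, not_and_or, not_le, not_le] at hx
    exact le_abs.2 (hx.symm.imp (fun h => by linarith only [h]) fun h => by linarith only [h])
  obtain ⟨j, hj⟩ := MP_4a6971_al.H83.homeo_of_supp
    (f := fun z : ℂ => (⟨z.re + A z.im * hat1 (2 * z.re - 1), z.im⟩ : ℂ))
    (K := Icc 0 1 ×ℂ Icc (-1) 2) (by simp only [Complex.mk_eq_add_mul_I]; fun_prop)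
    ⟨fun z w e => by
      simp only [Complex.mk.injEq] at e
      refine Complex.ext ((sm z.im).injective ?_) e.2
      simpa only [e.2] using e.1, fun w => by
      by_cases hw : w.re ∈ Icc (0 : ℝ) 1
      · obtain ⟨x, -, hx⟩ := intermediate_value_Icc (zero_le_one' ℝ)
          (f := fun x => x + A w.im * hat1 (2 * x - 1)) (by fun_prop)
          (show w.re ∈ _ by simpa only [hat1, mul_zero, zero_sub, abs_neg, abs_one, sub_self, max_self, add_zero, mul_one, show (2 : ℝ) - 1 = 1 by norm_num, mem_Icc] using hw)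
        exact ⟨⟨x, w.im⟩, Complex.ext hx rfl⟩
      · exact ⟨w, Complex.ext (out _ _ hw) rfl⟩⟩
    (isCompact_Icc.reProdIm isCompact_Icc) fun z hz => by
      refine Complex.ext ?_ rfl
      by_cases hw : z.re ∈ Icc (0 : ℝ) 1
      · have h1 : z.im ∉ Icc (-1 : ℝ) 2 := fun h => hz ⟨hw, h⟩
        rw [mem_Icc, not_and_or, not_le, not_le] at h1
        simp only [hA]
        rw [pl_hat1_zero (s := z.im), pl_hat1_zero (s := z.im - 1)]
        · ring
        · exact le_abs.2 (h1.symm.imp (fun h => by linarith only [h]) fun h => by linarith only [h])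
        · exact le_abs.2 (h1.symm.imp (fun h => by linarith only [h]) fun h => by linarith only [h])
      · exact out _ _ hw
  exact ⟨j, A, by simp only [hA, hat1, abs_zero, sub_zero, zero_le_one, sup_of_le_right, mul_one, zero_sub, abs_neg, abs_one, sub_self, max_self, mul_zero, add_zero], by simp only [hA, hat1, abs_one, sub_self, max_self, mul_zero, abs_zero, sub_zero, zero_le_one, sup_of_le_right, mul_one, zero_add], fun z => by rw [hj], fun z => by rw [hj], sm⟩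

theorem straighten_img {k : ℂ ≃ₜ ℂ} {S : Set ℂ} (h : ∀ z, k z ∈ S ↔ z ∈ S) : k '' S = S := by
  ext w
  obtain ⟨z, rfl⟩ := k.surjective w
  rw [k.injective.mem_set_image, h]

/-- P10. Hint: `exists_cone` with a boundary map that keeps the sides and sends the midpoints of
the horizontal sides to the ends of `γ` (or an explicit shear); then `arc_lemma`. -/
theorem straighten {γ : ℝ → ℂ} (h : PArc Sq γ) (h0 : γ 0 ∈ SqH false) (h1 : γ 1 ∈ SqH true)
    (h2 : ∀ i, γ 0 ∉ SqV i ∧ γ 1 ∉ SqV i) :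
    ∃ k : ℂ ≃ₜ ℂ, k '' Sq = Sq ∧ (∀ i, k '' SqH i = SqH i) ∧ (∀ i, k '' SqV i = SqV i) ∧
      ∀ t ∈ Icc (0 : ℝ) 1, k ⟨1 / 2, t⟩ = γ t := by
  have hI : interior Sq = Ioo 0 1 ×ℂ Ioo 0 1 := by
    rw [show Sq = Icc 0 1 ×ℂ Icc 0 1 from rfl, Complex.interior_reProdIm, interior_Icc]
  have mI : ∀ z : ℂ, z ∈ interior Sq ↔ z.re ∈ Ioo (0 : ℝ) 1 ∧ z.im ∈ Ioo (0 : ℝ) 1 := fun z => by
    rw [hI]; rfl
  have bd : ∀ z ∈ Sq, (∀ i, z ∉ SqV i) → |z.re - 1 / 2| < 1 / 2 := fun z hz hv => by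
    have a : z.re ≠ 0 := fun e => hv false ⟨by simpa using e, hz.2⟩
    have b : z.re ≠ 1 := fun e => hv true ⟨by simpa using e, hz.2⟩
    have c := lt_of_le_of_ne hz.1.1 a.symm
    have d := lt_of_le_of_ne hz.1.2 b
    exact abs_lt.2 ⟨by linarith only [c], by linarith only [d]⟩
  obtain ⟨j, A, A0, A1, ji, jr, sm⟩ := straighten_shear (bd _ h.m0 fun i => (h2 i).1)
    (bd _ h.m1 fun i => (h2 i).2)
  have s0 : ∀ y, 0 + A y * hat1 (2 * 0 - 1) = 0 := fun y => by simp [hat1]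
  have s1 : ∀ y, 1 + A y * hat1 (2 * 1 - 1) = 1 := fun y => by norm_num [hat1]
  have r0 : ∀ z, 0 ≤ (j z).re ↔ 0 ≤ z.re := fun z => by
    rw [jr, ← (sm z.im).le_iff_le (a := 0) (b := z.re), s0]
  have r1 : ∀ z, (j z).re ≤ 1 ↔ z.re ≤ 1 := fun z => by
    rw [jr, ← (sm z.im).le_iff_le (a := z.re) (b := 1), s1]
  have r2 : ∀ z, 0 < (j z).re ↔ 0 < z.re := fun z => by
    rw [jr, ← (sm z.im).lt_iff_lt (a := 0) (b := z.re), s0]
  have r3 : ∀ z, (j z).re < 1 ↔ z.re < 1 := fun z => by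
    rw [jr, ← (sm z.im).lt_iff_lt (a := z.re) (b := 1), s1]
  have r4 : ∀ z, (j z).re = 0 ↔ z.re = 0 := fun z => by
    rw [jr, ← (sm z.im).injective.eq_iff (a := z.re) (b := 0), s0]
  have r5 : ∀ z, (j z).re = 1 ↔ z.re = 1 := fun z => by
    rw [jr, ← (sm z.im).injective.eq_iff (a := z.re) (b := 1), s1]
  have i0 : (γ 0).im = 0 := by simpa using h0.2
  have i1 : (γ 1).im = 1 := by simpa using h1.2
  have e0 : j ⟨1 / 2, 0⟩ = γ 0 :=
    Complex.ext (by rw [jr]; simp only [one_div, A0, hat1, ne_eq, OfNat.ofNat_ne_zero, not_false_eq_true, mul_inv_cancel₀, sub_self, abs_zero, sub_zero, zero_le_one, sup_of_le_right, mul_one, add_sub_cancel]) (by rw [ji, i0])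
  have e1 : j ⟨1 / 2, 1⟩ = γ 1 :=
    Complex.ext (by rw [jr]; simp only [one_div, A1, hat1, ne_eq, OfNat.ofNat_ne_zero, not_false_eq_true, mul_inv_cancel₀, sub_self, abs_zero, sub_zero, zero_le_one, sup_of_le_right, mul_one, add_sub_cancel]) (by rw [ji, i1])
  have hj : PArc Sq fun t => j ⟨1 / 2, t⟩ :=
    { cont := (j.continuous.comp (f := fun t : ℝ => (⟨1 / 2, t⟩ : ℂ))
        (by simp only [Complex.mk_eq_add_mul_I]; fun_prop)).continuousOn
      inj := fun s _ t _ e => congrArg Complex.im (j.injective e)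
      m0 := e0 ▸ h.m0
      n0 := e0 ▸ h.n0
      m1 := e1 ▸ h.m1
      n1 := e1 ▸ h.n1
      mid := fun t ht => (mI _).2
        ⟨⟨(r2 _).2 (by norm_num), (r3 _).2 (by norm_num)⟩, by rw [ji]; exact ht⟩ }
  obtain ⟨g, gs, hg⟩ := MP_4a6971_al.H83.arc_lemma
    (K := Sq) (isCompact_Icc.reProdIm isCompact_Icc)
    (((convex_Icc (0 : ℝ) 1).linear_preimage Complex.reLm).inter
      ((convex_Icc (0 : ℝ) 1).linear_preimage Complex.imLm)) hj h e0 e1
  have gS : ∀ S : Set ℂ, (∀ z ∈ S, z ∉ interior Sq) → ∀ z, g z ∈ S ↔ z ∈ S := fun S hS z => by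
    by_cases c : z ∈ interior Sq
    · exact iff_of_false (fun d => hS _ d (gs.mem_interior.2 c)) fun d => hS _ d c
    · rw [gs z c]
  refine ⟨j.trans g, straighten_img fun z => ?_, fun i => straighten_img fun z => ?_,
    fun i => straighten_img fun z => ?_, hg⟩
  · rw [Homeomorph.trans_apply, gs.mem]
    simp only [Sq, mem_ofPred_eq, mem_Icc, r0, r1, ji]
  · rw [Homeomorph.trans_apply, gS]
    · simp only [SqH, mem_ofPred_eq, mem_Icc, r0, r1, ji]
    · intro w hw hw'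
      have := ((mI w).1 hw').2
      rw [hw.2] at this
      cases i <;> simp only [Bool.false_eq_true, ↓ reduceIte, mem_Ioo, lt_self_iff_false, zero_lt_one, and_true, and_false] at this
  · rw [Homeomorph.trans_apply, gS]
    · cases i <;> simp only [SqV, Bool.false_eq_true, ↓ reduceIte, mem_Icc, mem_ofPred_eq, r4, ji, r5]
    · intro w hw hw'
      have := ((mI w).1 hw').1
      rw [hw.1] at this
      cases i <;> simp only [Bool.false_eq_true, ↓ reduceIte, mem_Ioo, lt_self_iff_false, zero_lt_one, and_true, and_false] at this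

end Pool.Agent.MP_17e62b_gt.G

end

section
/-! The cutting arc. -/

namespace Pool.Agent.MP_17e62b_gt.G

open Set Filter Topology Metric
open scoped BigOperators InnerProductSpace Classical
open H14
open T55 (af Sq SqH SqV Cells Nbr vert)
open Pool.Agent.MP_4a6971_al.H83 (PArc)

theorem three_pieces_fr (z : ℂ) : z ∈ frontier Sq ↔
    (z ∈ SqH false ∨ z ∈ SqH true) ∨ (z ∈ SqV false ∨ z ∈ SqV true) := by
  have h : Sq = Icc (0 : ℝ) 1 ×ℂ Icc (0 : ℝ) 1 := by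
    ext z
    simp only [Sq, mem_Icc, mem_ofPred_eq, Complex.mem_reProdIm]
  rw [h, Complex.frontier_reProdIm, closure_Icc, frontier_Icc zero_le_one]
  simp only [mem_union, Complex.mem_reProdIm, mem_insert_iff, mem_singleton_iff, SqH, SqV,
    mem_ofPred_eq, Bool.false_eq_true, if_false, if_true]
  tauto

theorem three_pieces_fr' {Λ : Lens} {κ : ℂ ≃ₜ ℂ} (hκ : κ '' Sq = Λ.P) (w : ℂ) :
    w ∈ frontier Λ.P ↔ (w ∈ κ '' SqH false ∨ w ∈ κ '' SqH true) ∨
      (w ∈ κ '' SqV false ∨ w ∈ κ '' SqV true) := by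
  rw [← hκ, ← κ.image_frontier]
  constructor
  · rintro ⟨z, hz, rfl⟩
    rcases (three_pieces_fr z).1 hz with (h | h) | (h | h)
    · exact Or.inl (Or.inl ⟨z, h, rfl⟩)
    · exact Or.inl (Or.inr ⟨z, h, rfl⟩)
    · exact Or.inr (Or.inl ⟨z, h, rfl⟩)
    · exact Or.inr (Or.inr ⟨z, h, rfl⟩)
  · rintro ((⟨z, h, rfl⟩ | ⟨z, h, rfl⟩) | (⟨z, h, rfl⟩ | ⟨z, h, rfl⟩))
    · exact ⟨z, (three_pieces_fr z).2 (Or.inl (Or.inl h)), rfl⟩
    · exact ⟨z, (three_pieces_fr z).2 (Or.inl (Or.inr h)), rfl⟩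
    · exact ⟨z, (three_pieces_fr z).2 (Or.inr (Or.inl h)), rfl⟩
    · exact ⟨z, (three_pieces_fr z).2 (Or.inr (Or.inr h)), rfl⟩

theorem three_pieces_closed (Λ : Lens) : IsClosed Λ.P := (Λ.compact_reg 0).isClosed

theorem three_pieces_sub {Λ : Lens} {w : ℂ} (h : w ∈ frontier Λ.P) : w ∈ Λ.P :=
  (three_pieces_closed Λ).frontier_subset h

theorem three_pieces_refl {E : Type} [NormedAddCommGroup E] {f : ℂ → E} {A : Set ℂ} {ρ : ℝ}
    (hρ : 0 ≤ ρ) {z : ℂ} (hz : z ∈ A) : Near f A ρ z z :=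
  ⟨{z}, singleton_subset_iff.2 hz, isPreconnected_singleton, rfl, rfl, by
    rintro a rfl b rfl
    simpa only [sub_self, norm_zero] using hρ⟩

theorem three_pieces_of {E : Type} [NormedAddCommGroup E] {f : ℂ → E} {A C : Set ℂ} {ρ : ℝ}
    (hC : C ⊆ A) (hc : IsPreconnected C) (hv : ∀ a ∈ C, ∀ b ∈ C, ‖f a - f b‖ ≤ ρ) {x y : ℂ}
    (hx : x ∈ C) (hy : y ∈ C) : Near f A ρ x y := ⟨C, hC, hc, hx, hy, hv⟩

/-- P8. Three connected pieces. Hint: `exists_dist` for the four arcs; `cross_sq` for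
`D_L ∘ κ / δ`; on the path `Γ` let `t₀` be the last time with `D₀ ≤ δ / 100` and `t₁` the first
later time with `D₁ ≤ δ / 100`. The frontier of the polygon is the union of the four arcs. -/
theorem three_pieces {E : Type} [NormedAddCommGroup E] (Λ : Lens) {κ : ℂ ≃ₜ ℂ}
    (hκ : κ '' Sq = Λ.P) {f : ℂ → E} (hf : Continuous f) {δ : ℝ} (hδ : 0 < δ)
    (hl : ∀ a ∈ κ '' SqH false, ∀ b ∈ κ '' SqH true, ¬ Near f Λ.P δ a b)
    (hw : ∀ a ∈ κ '' SqV false, ∀ b ∈ κ '' SqV true, ¬ Near f Λ.P δ a b) :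
    ∃ (C₀ C₁ C₂ : Set ℂ) (x₀ x₁ x₂ x₃ : ℂ), C₀ ∪ C₁ ∪ C₂ ⊆ Λ.P ∧ IsPreconnected C₀ ∧
      IsPreconnected C₁ ∧ IsPreconnected C₂ ∧ x₀ ∈ κ '' SqH false ∧ x₃ ∈ κ '' SqH true ∧
      x₀ ∈ C₀ ∧ x₁ ∈ C₀ ∧ x₁ ∈ C₁ ∧ x₂ ∈ C₁ ∧ x₂ ∈ C₂ ∧ x₃ ∈ C₂ ∧
      (∀ a ∈ C₀, ∀ b ∈ C₀, ‖f a - f b‖ ≤ δ / 50) ∧ (∀ a ∈ C₂, ∀ b ∈ C₂, ‖f a - f b‖ ≤ δ / 50) ∧
      (∀ z ∈ C₀ ∪ C₁ ∪ C₂, ∀ i, ∀ w ∈ κ '' SqV i, ¬ Near f Λ.P (δ / 4) z w) ∧
      ∀ z ∈ C₁, ∀ w ∈ frontier Λ.P, ¬ Near f Λ.P (δ / 150) z w := by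
  have hPc : IsCompact Λ.P := Λ.compact_reg 0
  have hPv : Convex ℝ Λ.P := Λ.convex_reg 0
  have sH : ∀ i, κ '' SqH i ⊆ Λ.P := fun i w hw =>
    three_pieces_sub ((three_pieces_fr' hκ w).2 (Or.inl (by cases i; exacts [Or.inl hw, Or.inr hw])))
  have sV : ∀ i, κ '' SqV i ⊆ Λ.P := fun i w hw =>
    three_pieces_sub ((three_pieces_fr' hκ w).2 (Or.inr (by cases i; exacts [Or.inl hw, Or.inr hw])))
  obtain ⟨DL, cL, aL, bL⟩ := exists_dist hf hPc hPv (sV false)
    ⟨κ 0, 0, by simp only [SqV, Bool.false_eq_true, ↓ reduceIte, mem_Icc, mem_ofPred_eq, Complex.zero_re, Complex.zero_im, Std.le_refl, zero_le_one, and_self], rfl⟩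
  obtain ⟨D0, c0, a0, b0⟩ := exists_dist hf hPc hPv (sH false)
    ⟨κ 0, 0, by simp only [SqH, mem_Icc, Bool.false_eq_true, ↓ reduceIte, mem_ofPred_eq, Complex.zero_re, Std.le_refl, zero_le_one, and_self, Complex.zero_im], rfl⟩
  obtain ⟨D1, c1, a1, b1⟩ := exists_dist hf hPc hPv (sH true)
    ⟨κ Complex.I, Complex.I, by simp only [SqH, mem_Icc, ↓ reduceIte, mem_ofPred_eq, Complex.I_re, Std.le_refl, zero_le_one, and_self, Complex.I_im], rfl⟩
  have mκ : MapsTo κ Sq Λ.P := fun z hz => hκ ▸ mem_image_of_mem _ hz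
  obtain ⟨p, hp, q, hq, hj⟩ := cross_sq (D := fun z => DL (κ z) / δ)
    ((cL.comp κ.continuous.continuousOn mκ).div_const δ)
    (fun z hz => div_nonpos_of_nonpos_of_nonneg
      (bL _ 0 _ (mem_image_of_mem _ hz) (three_pieces_refl le_rfl (sV _ (mem_image_of_mem _ hz))))
      hδ.le)
    (fun z hz => by
      rw [le_div_iff₀ hδ, one_mul]
      by_contra h
      obtain ⟨b, hb, hn⟩ := aL _ (sV _ (mem_image_of_mem _ hz)) δ (not_le.1 h)
      exact hw b hb _ (mem_image_of_mem _ hz) hn.symm)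
  obtain ⟨γ, hγ⟩ := hj
  set Γ : ℝ → ℂ := fun t => κ (γ.extend t) with hΓ
  have cΓ : Continuous Γ := κ.continuous.comp γ.continuous_extend
  have hmem : ∀ t, γ.extend t ∈ {z | z ∈ Sq ∧ 1 / 3 < DL (κ z) / δ ∧ DL (κ z) / δ < 2 / 3} := by
    intro t
    obtain ⟨s, hs⟩ : γ.extend t ∈ range γ := γ.extend_range ▸ mem_range_self t
    exact hs ▸ hγ s
  have mΓ : ∀ t, Γ t ∈ Λ.P := fun t => mκ (hmem t).1
  have lo : ∀ t, δ / 3 < DL (Γ t) := fun t => by
    have := (hmem t).2.1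
    rw [lt_div_iff₀ hδ] at this
    linarith only [this]
  have hi : ∀ t, DL (Γ t) < 2 * δ / 3 := fun t => by
    have := (hmem t).2.2
    rw [div_lt_iff₀ hδ] at this
    linarith only [this]
  have side : ∀ t z, Near f Λ.P (δ / 80) (Γ t) z → ∀ i, ∀ w ∈ κ '' SqV i,
      ¬ Near f Λ.P (δ / 4) z w := by
    intro t z hz i w hw' hn
    have h1 := hz.trans hn
    cases i
    · have := bL _ _ w hw' h1
      have := lo t
      linarith
    · obtain ⟨b, hb, hn'⟩ := aL _ (mΓ t) _ (hi t)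
      exact hw b hb w hw' ((hn'.symm.trans h1).mono72 (by linarith))
  have g0 : Continuous fun t => D0 (Γ t) := c0.comp_continuous cΓ mΓ
  have g1 : Continuous fun t => D1 (Γ t) := c1.comp_continuous cΓ mΓ
  have e0 : Γ 0 ∈ κ '' SqH false := ⟨p, hp, by simp only [hΓ, mem_Icc, Std.le_refl, zero_le_one, and_self, Path.extend_apply, Icc.mk_zero, Path.source]⟩
  have e1 : Γ 1 ∈ κ '' SqH true := ⟨q, hq, by simp only [hΓ, mem_Icc, zero_le_one, Std.le_refl, and_self, Path.extend_apply, Icc.mk_one, Path.target]⟩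
  have k0 : IsCompact (Icc (0 : ℝ) 1 ∩ {t | D0 (Γ t) ≤ δ / 100}) :=
    isCompact_Icc.inter_right (isClosed_le g0 continuous_const)
  obtain ⟨t0, ⟨ht0, ht0'⟩, mx⟩ := k0.exists_isGreatest ⟨0, by simp only [mem_Icc, Std.le_refl, zero_le_one, and_self],
    (b0 _ 0 _ e0 (three_pieces_refl le_rfl (mΓ 0))).trans (by positivity)⟩
  have k1 : IsCompact (Icc t0 1 ∩ {t | D1 (Γ t) ≤ δ / 100}) :=
    isCompact_Icc.inter_right (isClosed_le g1 continuous_const)
  obtain ⟨t1, ⟨ht1, ht1'⟩, mn⟩ := k1.exists_isLeast ⟨1, ⟨ht0.2, le_rfl⟩,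
    (b1 _ 0 _ e1 (three_pieces_refl le_rfl (mΓ 1))).trans (by positivity)⟩
  obtain ⟨x0, hx0, n0⟩ := a0 _ (mΓ t0) (δ / 80) (lt_of_le_of_lt ht0' (by linarith only [hδ]))
  obtain ⟨x3, hx3, n3⟩ := a1 _ (mΓ t1) (δ / 80) (lt_of_le_of_lt ht1' (by linarith))
  have lt : t0 < t1 := by
    refine lt_of_le_of_ne ht1.1 fun h => ?_
    rw [h] at n0
    exact hl x0 hx0 x3 hx3 ((n0.symm.trans n3).mono72 (by linarith))
  have mid : ∀ t ∈ Icc t0 t1, δ / 100 ≤ D0 (Γ t) ∧ δ / 100 ≤ D1 (Γ t) := by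
    have hc : IsClosed {t | δ / 100 ≤ D0 (Γ t) ∧ δ / 100 ≤ D1 (Γ t)} :=
      (isClosed_le continuous_const g0).inter (isClosed_le continuous_const g1)
    rw [← closure_Ioo lt.ne]
    refine fun t ht => hc.closure_subset_iff.2 (fun t ht => ⟨?_, ?_⟩) ht
    · by_contra h
      exact absurd (mx ⟨⟨ht0.1.trans ht.1.le, ht.2.le.trans ht1.2⟩, (not_le.1 h).le⟩)
        (not_le.2 ht.1)
    · by_contra h
      exact absurd (mn ⟨⟨ht.1.le, ht.2.le.trans ht1.2⟩, (not_le.1 h).le⟩) (not_le.2 ht.2)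
  obtain ⟨C0, s0, p0, m0, m0', v0⟩ := n0
  obtain ⟨C2, s2, p2, m2, m2', v2⟩ := n3
  have all : ∀ z ∈ C0 ∪ Γ '' Icc t0 t1 ∪ C2, ∀ i, ∀ w ∈ κ '' SqV i,
      ¬ Near f Λ.P (δ / 4) z w := by
    rintro z ((hz | ⟨t, -, rfl⟩) | hz)
    · exact side t0 z (three_pieces_of s0 p0 v0 m0 hz)
    · exact side t _ (three_pieces_refl (by positivity) (mΓ t))
    · exact side t1 z (three_pieces_of s2 p2 v2 m2 hz)
  refine ⟨C0, Γ '' Icc t0 t1, C2, x0, Γ t0, Γ t1, x3, ?_, p0,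
    isPreconnected_Icc.image _ cΓ.continuousOn, p2, hx0, hx3, m0', m0,
    mem_image_of_mem _ (left_mem_Icc.2 lt.le), mem_image_of_mem _ (right_mem_Icc.2 lt.le), m2, m2',
    fun a ha b hb => (v0 a ha b hb).trans (by linarith),
    fun a ha b hb => (v2 a ha b hb).trans (by linarith), all, ?_⟩
  · rintro z ((hz | ⟨t, -, rfl⟩) | hz)
    exacts [s0 hz, mΓ t, s2 hz]
  · rintro z ⟨t, ht, rfl⟩ w hw' hn
    rcases (three_pieces_fr' hκ w).1 hw' with (h | h) | (h | h)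
    · have := b0 _ _ w h hn
      have := (mid t ht).1
      linarith
    · have := b1 _ _ w h hn
      have := (mid t ht).2
      linarith
    · exact all _ (Or.inl (Or.inr ⟨t, ht, rfl⟩)) _ w h (hn.mono72 (by linarith))
    · exact all _ (Or.inl (Or.inr ⟨t, ht, rfl⟩)) _ w h (hn.mono72 (by linarith))

theorem cut_path_adj {μ : ℝ} (hμ : 0 < μ) {a b : ℤ × ℤ} (h : GAdj a b) :
    ‖gp μ a - gp μ b‖ ≤ 5 * μ := by
  have key : ∀ z : ℂ, |z.re| = μ → |z.im| = 4 * μ → ‖z‖ ≤ 5 * μ := fun z h1 h2 => by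
    have := Complex.norm_le_abs_re_add_abs_im z
    linarith
  obtain ⟨a1, a2⟩ := a
  obtain ⟨b1, b2⟩ := b
  have hμ4 : (0 : ℝ) < 4 * μ := by positivity
  rcases h with ⟨h1, h2 | h2⟩ | ⟨h1, h2 | h2⟩ <;> simp only at h1 h2 <;> subst h1 h2 <;>
    refine key _ ?_ ?_ <;> simp only [gp, Complex.sub_re, Complex.sub_im] <;> push_cast
  · rw [abs_eq hμ.le]; left; ring
  · rw [abs_eq hμ4.le]; right; ring
  · rw [abs_eq hμ.le]; right; ring
  · rw [abs_eq hμ4.le]; left; ring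
  · rw [abs_eq hμ.le]; right; ring
  · rw [abs_eq hμ4.le]; right; ring
  · rw [abs_eq hμ.le]; left; ring
  · rw [abs_eq hμ4.le]; left; ring

theorem cut_path_mono {α : Type} {r s : α → α → Prop} {a b : α}
    (h : Relation.ReflTransGen r a b) (hrs : ∀ x y, r x y → s x y) :
    Relation.ReflTransGen s a b := by
  induction h with
  | refl => exact .refl
  | tail _ h ih => exact ih.tail (hrs _ _ h)

theorem cut_path_idx {n c d : ℕ} (hn : 0 < n) (hcd : c < d) {t : ℝ}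
    (ht : t ∈ Icc ((c : ℝ) / n) (d / n)) :
    ∃ i, c ≤ i ∧ i < d ∧ ∃ s ∈ Icc (0 : ℝ) 1, t = (i + s) / n := by
  have hn' : (0 : ℝ) < n := by exact_mod_cast hn
  have h1 : (c : ℝ) ≤ t * n := (div_le_iff₀ hn').1 ht.1
  have h2 : t * n ≤ d := (le_div_iff₀ hn').1 ht.2
  have h0 : 0 ≤ t * n := le_trans (by positivity) h1
  rcases h2.eq_or_lt with h | h
  · obtain ⟨e, rfl⟩ : ∃ e, d = e + 1 := ⟨d - 1, by omega⟩
    refine ⟨e, by omega, by omega, 1, by simp only [mem_Icc, zero_le_one, Std.le_refl, and_self], ?_⟩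
    rw [eq_div_iff hn'.ne', h]
    push_cast
    ring
  · refine ⟨⌊t * n⌋₊, Nat.le_floor h1, (Nat.floor_lt h0).2 h, t * n - ⌊t * n⌋₊,
      ⟨sub_nonneg.2 (Nat.floor_le h0), by linarith only [Nat.lt_floor_add_one (t * n)]⟩, ?_⟩
    rw [eq_div_iff hn'.ne']
    ring

theorem cut_path_seg {a b z : ℂ} {r : ℝ} (h : ‖a - b‖ ≤ r) (hz : z ∈ segment ℝ a b) :
    ‖a - z‖ ≤ r ∧ ‖b - z‖ ≤ r := by
  have h1 : dist a z + dist z b = dist a b := dist_add_dist_of_mem_segment hz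
  rw [dist_eq_norm, dist_eq_norm, dist_eq_norm, norm_sub_rev z b] at h1
  have := norm_nonneg (a - z)
  have := norm_nonneg (b - z)
  constructor <;> linarith

theorem cut_path_tri {a b c : ℂ} {r s u : ℝ} (h1 : ‖a - b‖ ≤ r) (h2 : ‖a - c‖ ≤ s)
    (h : r + s ≤ u) : ‖b - c‖ ≤ u := by
  have := norm_sub_le_norm_sub_add_norm_sub b a c
  rw [norm_sub_rev b a] at this
  linarith

theorem cut_path_move (Λ : Lens) {μ : ℝ} (hμ : 0 < μ) {z : ℂ} (hz : z ∈ Λ.P) :
    ‖(1 - 200 * μ) • z - z‖ ≤ 400 * μ := by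
  have h : (1 - 200 * μ) • z - z = -((200 * μ) • z) := by module
  have h2 : ‖z‖ ≤ 2 := Λ.norm_le (s := 0) (by norm_num) hz
  rw [h, norm_neg, norm_smul, Real.norm_of_nonneg (by positivity)]
  nlinarith only [hμ, h2]

theorem cut_path_int (Λ : Lens) {μ : ℝ} (hμ : 0 < μ) (hμ' : μ ≤ 1 / 1000) {z : ℂ} (hz : z ∈ Λ.P)
    {w : ℂ} (hw : ‖w - (1 - 200 * μ) • z‖ ≤ 30 * μ) : w ∈ interior Λ.P := by
  have hb : ball ((1 - 200 * μ) • z) (50 * μ) ⊆ Λ.P := by
    intro y hy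
    rw [mem_ball, dist_eq_norm] at hy
    have h0 : (0 : ℝ) < 200 * μ := by positivity
    have h1 : (200 * μ)⁻¹ • (y - (1 - 200 * μ) • z) ∈ Λ.P := by
      refine Λ.ball_sub le_rfl ?_
      rw [mem_closedBall, dist_zero_right, norm_smul, Real.norm_of_nonneg (by positivity),
        inv_mul_le_iff₀ h0]
      linarith only [hy]
    have h2 := Λ.convex_reg 0 hz h1 (a := 1 - 200 * μ) (b := 200 * μ) (by linarith only [hμ, hμ']) h0.le
      (by ring)
    rwa [smul_inv_smul₀ h0.ne', add_sub_cancel] at h2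
  refine interior_maximal hb isOpen_ball ?_
  rw [mem_ball, dist_eq_norm]
  linarith

/-- P9. Hint: shrink the pieces by the factor `1 - 200 μ` (points move by at most `400 μ`, and
balls of radius `50 μ` about the new points lie in the polygon, `Lens.ball_sub`); `shadow`,
`walk_out`, `simple_walk` with `G₀`, `G₂` the grid points within `4000 μ` of `C₀`, `C₂`, and `G₁`
those within `30 μ` of the shrunk `C₁`; `arc_of_walk`. -/
theorem cut_path {E : Type} [NormedAddCommGroup E] (Λ : Lens) {κ : ℂ ≃ₜ ℂ} (hκ : κ '' Sq = Λ.P)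
    {f : ℂ → E} (hf : Continuous f) {δ μ : ℝ} (hδ : 0 < δ) (hμ : 0 < μ) (hμ' : μ ≤ 1 / 1000)
    (hl : ∀ a ∈ κ '' SqH false, ∀ b ∈ κ '' SqH true, ¬ Near f Λ.P δ a b)
    (hw : ∀ a ∈ κ '' SqV false, ∀ b ∈ κ '' SqV true, ¬ Near f Λ.P δ a b)
    (hm : ∀ z ∈ Λ.P, ∀ z' ∈ Λ.P, ‖z - z'‖ ≤ 10000 * μ → ‖f z - f z'‖ ≤ δ / 1000) :
    ∃ (n a b : ℕ) (v : ℕ → ℂ) (γ : ℝ → ℂ), CutArc Λ μ n v γ ∧ 0 < a ∧ a < b ∧ b < n ∧
      γ 0 ∈ κ '' SqH false ∧ γ 1 ∈ κ '' SqH true ∧
      (∀ t ∈ Icc (0 : ℝ) 1, ∀ i, ∀ w ∈ κ '' SqV i, ¬ Near f Λ.P (δ / 8) (γ t) w) ∧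
      (∀ t ∈ Icc ((a : ℝ) / n) (b / n), ∀ w ∈ frontier Λ.P, ¬ Near f Λ.P (δ / 200) (γ t) w) ∧
      ∀ t t', t ∈ Icc 0 ((a : ℝ) / n) ∧ t' ∈ Icc 0 ((a : ℝ) / n) ∨
        t ∈ Icc ((b : ℝ) / n) 1 ∧ t' ∈ Icc ((b : ℝ) / n) 1 → ‖f (γ t) - f (γ t')‖ ≤ δ / 10 := by
  obtain ⟨C0, C1, C2, x0, x1, x2, x3, sub, p0, p1, p2, hx0, hx3, m00, m10, m11, m21, m22, m32,
    v0, v2, sideV, far⟩ := three_pieces Λ hκ hf hδ hl hw
  have hPv : Convex ℝ Λ.P := Λ.convex_reg 0
  have s0 : C0 ⊆ Λ.P := fun z hz => sub (Or.inl (Or.inl hz))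
  have s1 : C1 ⊆ Λ.P := fun z hz => sub (Or.inl (Or.inr hz))
  have s2 : C2 ⊆ Λ.P := fun z hz => sub (Or.inr hz)
  have near : ∀ z ∈ Λ.P, ∀ z' ∈ Λ.P, ‖z - z'‖ ≤ 10000 * μ → Near f Λ.P (δ / 1000) z z' :=
    fun z hz z' hz' h => near_seg hPv hm hz hz' h
  set σ : ℂ → ℂ := fun z => (1 - 200 * μ) • z with hσ
  have cσ : Continuous σ := continuous_id.const_smul (1 - 200 * μ)
  have mv : ∀ z ∈ Λ.P, ‖σ z - z‖ ≤ 400 * μ := fun z hz => cut_path_move Λ hμ hz
  have back : ∀ {C : Set ℂ}, C ⊆ Λ.P → ∀ {w : ℂ}, (∃ z ∈ σ '' C, ‖w - z‖ ≤ 30 * μ) →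
      ∃ z ∈ C, ‖w - z‖ ≤ 430 * μ := by
    rintro C hC w ⟨_, ⟨z, hz, rfl⟩, h⟩
    rw [norm_sub_rev] at h
    exact ⟨z, hz, cut_path_tri h (mv z (hC hz)) (by linarith only [])⟩
  obtain ⟨k0, hk0⟩ := gp_near hμ (σ x0)
  obtain ⟨k1, hk1⟩ := gp_near hμ (σ x1)
  obtain ⟨k2, hk2⟩ := gp_near hμ (σ x2)
  obtain ⟨k3, hk3⟩ := gp_near hμ (σ x3)
  have f0 : x0 ∈ frontier Λ.P := (three_pieces_fr' hκ x0).2 (Or.inl (Or.inl hx0))
  have f3 : x3 ∈ frontier Λ.P := (three_pieces_fr' hκ x3).2 (Or.inl (Or.inr hx3))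
  obtain ⟨k0', o0, d0, -, wk0⟩ := walk_out Λ hμ f0 (k := k0)
    (cut_path_tri (a := σ x0) ((norm_sub_rev _ _).trans_le hk0) (mv x0 (s0 m00)) (by linarith only []))
  obtain ⟨k3', o3, d3, wk3, -⟩ := walk_out Λ hμ f3 (k := k3)
    (cut_path_tri (a := σ x3) ((norm_sub_rev _ _).trans_le hk3) (mv x3 (s2 m32)) (by linarith only []))
  set G0 : Set (ℤ × ℤ) := {k | ∃ z ∈ C0, ‖gp μ k - z‖ ≤ 4000 * μ} with hG0
  set G1 : Set (ℤ × ℤ) := {k | ∃ z ∈ σ '' C1, ‖gp μ k - z‖ ≤ 30 * μ} with hG1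
  set G2 : Set (ℤ × ℤ) := {k | ∃ z ∈ C2, ‖gp μ k - z‖ ≤ 4000 * μ} with hG2
  have apart : ∀ z ∈ C0, ∀ z' ∈ C2, ¬ ‖z - z'‖ ≤ 10000 * μ := fun z hz z' hz' h =>
    hl x0 hx0 x3 hx3 ((((three_pieces_of s0 p0 v0 m00 hz).trans
      (near z (s0 hz) z' (s2 hz') h)).trans (three_pieces_of s2 p2 v2 hz' m32)).mono72 (by linarith only [hδ]))
  have apart' : ∀ a ∈ G0, ∀ b ∈ G2, ¬ ‖gp μ a - gp μ b‖ ≤ 10 * μ := by
    rintro a ⟨z, hz, h1⟩ b ⟨z', hz', h2⟩ h
    have h3 : ‖gp μ b - z‖ ≤ 4010 * μ := cut_path_tri h h1 (by linarith only [])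
    exact apart z hz z' hz' (cut_path_tri h3 h2 (by linarith only [hμ]))
  obtain ⟨n, a, b, u, ha, hab, hb, inj, adj, u0, un, umid, l0, l1, l2⟩ :=
    simple_walk (Adj := GAdj) (G₀ := G0) (G₁ := G1) (G₂ := G2)
      (Out := {k | gp μ k ∉ interior Λ.P}) (x₀ := k0') (x₁ := k1) (x₂ := k2) (x₃ := k3')
      (Set.disjoint_left.2 fun k h0 h2 => apart' k h0 k h2 (by simp only [sub_self, norm_zero, Nat.ofNat_pos, mul_nonneg_iff_of_pos_left]; positivity))
      (fun a ha b hb h => apart' a ha b hb ((cut_path_adj hμ h).trans (by linarith only [hμ])))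
      (Set.disjoint_left.2 (by
        rintro k ⟨_, ⟨z, hz, rfl⟩, h⟩ h'
        exact h' (cut_path_int Λ hμ hμ' (s1 hz) h)))
      o0 ⟨x0, m00, d0⟩ o3 ⟨x3, m32, d3⟩
      ((cut_path_mono wk0 fun _ _ h => ⟨h.1, x0, m00, h.2⟩).trans
        (cut_path_mono (shadow hμ (p0.image _ cσ.continuousOn) (mem_image_of_mem _ m00)
          (mem_image_of_mem _ m10) hk0 hk1) fun _ _ h =>
            ⟨h.1, (back s0 h.2).imp fun _ h' => ⟨h'.1, h'.2.trans (by linarith only [hμ])⟩⟩))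
      (shadow hμ (p1.image _ cσ.continuousOn) (mem_image_of_mem _ m11)
        (mem_image_of_mem _ m21) hk1 hk2)
      ((cut_path_mono (shadow hμ (p2.image _ cσ.continuousOn) (mem_image_of_mem _ m22)
          (mem_image_of_mem _ m32) hk2 hk3) fun _ _ h =>
            ⟨h.1, (back s2 h.2).imp fun _ h' => ⟨h'.1, h'.2.trans (by linarith only [hμ])⟩⟩).trans
        (cut_path_mono wk3 fun _ _ h => ⟨h.1, x3, m32, h.2⟩))
  have hab' : a < b := by
    refine lt_of_le_of_ne hab fun h => ?_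
    subst h
    obtain ⟨e, rfl⟩ : ∃ e, a = e + 1 := ⟨a - 1, by omega⟩
    have h1 := cut_path_adj hμ (adj e (by omega))
    have h2 := cut_path_adj hμ (adj (e + 1) hb)
    rw [norm_sub_rev] at h1
    exact apart' _ (l0 e (by omega)) _ (l2 (e + 1 + 1) (by omega) (by omega))
      (cut_path_tri h1 h2 (by linarith only []))
  have hn : 0 < n := by omega
  have hn' : (0 : ℝ) < n := by exact_mod_cast hn
  obtain ⟨v, γ, arc, seg⟩ := arc_of_walk Λ hμ (by linarith only [hμ, hμ']) (n := n) (by omega) inj adj u0 un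
    (fun i h1 h2 => not_not.1 (umid i h1 h2))
  have loc : ∀ {c d : ℕ}, c < d → d ≤ n → ∀ t ∈ Icc ((c : ℝ) / n) (d / n), γ t ∈ Λ.P ∧
      ∃ i, c ≤ i ∧ i < d ∧ ‖gp μ (u i) - γ t‖ ≤ 5 * μ ∧ ‖gp μ (u (i + 1)) - γ t‖ ≤ 5 * μ := by
    intro c d hcd hd t ht
    refine ⟨arc.arc.mem ⟨le_trans (by positivity) ht.1, ht.2.trans ?_⟩, ?_⟩
    · rw [div_le_one hn']
      exact_mod_cast hd
    obtain ⟨i, h1, h2, s, hs, rfl⟩ := cut_path_idx hn hcd ht
    refine ⟨i, h1, h2, cut_path_seg (cut_path_adj hμ (adj i (by omega))) (seg i (by omega) ?_)⟩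
    rw [arc.lin i (by omega) s hs, segment_eq_image_lineMap]
    exact mem_image_of_mem _ hs
  have A0 : ∀ t ∈ Icc 0 ((a : ℝ) / n), γ t ∈ Λ.P ∧ ∃ z ∈ C0, ‖z - γ t‖ ≤ 10000 * μ := by
    intro t ht
    obtain ⟨h, i, -, h2, h3, -⟩ := loc ha (by omega) t (by simpa only [CharP.cast_eq_zero, zero_div, mem_Icc] using ht)
    obtain ⟨z, hz, h4⟩ := l0 i h2
    exact ⟨h, z, hz, cut_path_tri h4 h3 (by linarith only [hμ])⟩
  have A1 : ∀ t ∈ Icc ((a : ℝ) / n) (b / n), γ t ∈ Λ.P ∧ ∃ z ∈ C1, ‖z - γ t‖ ≤ 10000 * μ := by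
    intro t ht
    obtain ⟨h, i, h1, h2, h3, -⟩ := loc hab' hb.le t ht
    obtain ⟨z, hz, h4⟩ := back s1 (l1 i h1 h2.le)
    exact ⟨h, z, hz, cut_path_tri h4 h3 (by linarith only [hμ])⟩
  have A2 : ∀ t ∈ Icc ((b : ℝ) / n) 1, γ t ∈ Λ.P ∧ ∃ z ∈ C2, ‖z - γ t‖ ≤ 10000 * μ := by
    intro t ht
    obtain ⟨h, i, h1, h2, -, h3⟩ := loc hb le_rfl t (by rwa [div_self hn'.ne'])
    obtain ⟨z, hz, h4⟩ := l2 (i + 1) (by omega) (by omega)
    exact ⟨h, z, hz, cut_path_tri h4 h3 (by linarith only [hμ])⟩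
  have sd : ∀ t ∈ Icc (0 : ℝ) 1, ∀ i, ∀ w ∈ κ '' SqV i, ¬ Near f Λ.P (δ / 8) (γ t) w := by
    intro t ht i w hw' hn
    obtain ⟨h, z, hz, h1⟩ : γ t ∈ Λ.P ∧ ∃ z ∈ C0 ∪ C1 ∪ C2, ‖z - γ t‖ ≤ 10000 * μ := by
      rcases le_total t ((a : ℝ) / n) with h | h
      · exact (A0 t ⟨ht.1, h⟩).imp_right fun ⟨z, hz, h'⟩ => ⟨z, Or.inl (Or.inl hz), h'⟩
      rcases le_total t ((b : ℝ) / n) with h' | h'
      · exact (A1 t ⟨h, h'⟩).imp_right fun ⟨z, hz, h'⟩ => ⟨z, Or.inl (Or.inr hz), h'⟩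
      · exact (A2 t ⟨h', ht.2⟩).imp_right fun ⟨z, hz, h'⟩ => ⟨z, Or.inr hz, h'⟩
    exact sideV z hz i w hw' (((near z (sub hz) _ h h1).trans hn).mono72 (by linarith only [hδ]))
  have fr : ∀ {w : ℂ}, w ∈ Λ.P → w ∉ interior Λ.P → w ∈ frontier Λ.P := fun h h' =>
    ⟨subset_closure h, h'⟩
  have var : ∀ {C : Set ℂ}, C ⊆ Λ.P → (∀ a ∈ C, ∀ b ∈ C, ‖f a - f b‖ ≤ δ / 50) → ∀ {y y' : ℂ},
      (y ∈ Λ.P ∧ ∃ z ∈ C, ‖z - y‖ ≤ 10000 * μ) → (y' ∈ Λ.P ∧ ∃ z ∈ C, ‖z - y'‖ ≤ 10000 * μ) →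
      ‖f y - f y'‖ ≤ δ / 10 := by
    rintro C hC hv y y' ⟨hy, z, hz, h⟩ ⟨hy', z', hz', h'⟩
    have h1 := hm z (hC hz) y hy h
    have h2 := hm z' (hC hz') y' hy' h'
    have h3 := hv z hz z' hz'
    have h4 := norm_sub_le_norm_sub_add_norm_sub (f y) (f z) (f y')
    have h5 := norm_sub_le_norm_sub_add_norm_sub (f z) (f z') (f y')
    rw [norm_sub_rev (f y) (f z)] at h4
    linarith only [hδ, h1, h2, h3, h4, h5]
  refine ⟨n, a, b, v, γ, arc, ha, hab', hb, ?_, ?_, sd, ?_, ?_⟩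
  · obtain ⟨h, z, hz, h1⟩ := A0 0 ⟨le_rfl, by positivity⟩
    rcases (three_pieces_fr' hκ _).1 (fr h arc.arc.n0) with (h2 | h2) | (h2 | h2)
    · exact h2
    · exact absurd (((three_pieces_of s0 p0 v0 m00 hz).trans (near z (s0 hz) _ h h1)).mono72
        (by linarith only [hδ])) (hl x0 hx0 _ h2)
    · exact absurd (three_pieces_refl (by positivity) h) (sd 0 (by simp only [mem_Icc, Std.le_refl, zero_le_one, and_self]) _ _ h2)
    · exact absurd (three_pieces_refl (by positivity) h) (sd 0 (by simp only [mem_Icc, Std.le_refl, zero_le_one, and_self]) _ _ h2)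
  · obtain ⟨h, z, hz, h1⟩ := A2 1 ⟨by
      rw [div_le_one hn']
      exact_mod_cast hb.le, le_rfl⟩
    rcases (three_pieces_fr' hκ _).1 (fr h arc.arc.n1) with (h2 | h2) | (h2 | h2)
    · exact absurd (((near z (s2 hz) _ h h1).symm.trans (three_pieces_of s2 p2 v2 hz m32)).mono72
        (by linarith only [hδ])) (hl _ h2 x3 hx3)
    · exact h2
    · exact absurd (three_pieces_refl (by positivity) h) (sd 1 (by simp only [mem_Icc, zero_le_one, Std.le_refl, and_self]) _ _ h2)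
    · exact absurd (three_pieces_refl (by positivity) h) (sd 1 (by simp only [mem_Icc, zero_le_one, Std.le_refl, and_self]) _ _ h2)
  · intro t ht w hw' hn
    obtain ⟨h, z, hz, h1⟩ := A1 t ht
    exact far z hz w hw' (((near z (s1 hz) _ h h1).trans hn).mono72 (by linarith only [hδ]))
  · rintro t t' (⟨h, h'⟩ | ⟨h, h'⟩)
    · exact var s0 v0 (A0 t h) (A0 t' h')
    · exact var s2 v2 (A2 t h) (A2 t' h')

end Pool.Agent.MP_17e62b_gt.G

end

section
/-! The coarse function and the constants. -/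

namespace Pool.Agent.MP_17e62b_gt.G

open Set Filter Topology Metric
open scoped BigOperators InnerProductSpace Classical
open H14
open T55 (af Sq SqH SqV Cells Nbr vert)
open Pool.Agent.MP_4a6971_al.H83 (PArc)

/-- F10. The coarse function. Hint: `g₀ = harm r Vt (om I)`, `G₀` an extension;
`‖g₀ - g‖ ≤ e` by `harm_mem`, also along edges. `F z = G₀ z` on `Eg r ∪ Nd`, and the value at a
node within `s` at the other points of the polygon. -/
theorem coarse_fun {E : Type} [NormedAddCommGroup E] [NormedSpace ℝ E] {Λ : Lens}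
    {Nd : Finset ℂ} {r : Nd → Nd → ℝ} {s L β e η : ℝ} (h : Fine Λ Nd r s) (hs : 0 ≤ s)
    (hL : 0 ≤ L) {g : Nd → E} {G ω f : ℂ → E} (hg : ∀ p : Nd, (p : ℂ) ∉ Λ.Vt → gen r g p = 0)
    (hG : IsExt r g G) (hω : ∀ p : Nd, (p : ℂ) ∈ Λ.Vt → ‖g p - ω p‖ ≤ e)
    (hf : ∀ z ∈ Eg r ∪ Nd, ∀ x ∈ Λ.P, ‖z - x‖ ≤ s → ‖G z - f x‖ ≤ η)
    (hlip : ∀ (g₀ : Nd → E) (G₀ : ℂ → E), IsExt r g₀ G₀ →
      (∀ p : Nd, (p : ℂ) ∉ Λ.Vt → gen r g₀ p = 0) → (∀ p : Nd, (p : ℂ) ∈ Λ.Vt → g₀ p = ω p) →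
      ∀ z ∈ Eg r ∪ Nd, ∀ z' ∈ Eg r ∪ Nd, ‖G₀ z - G₀ z'‖ ≤ L * ‖z - z'‖ + β) :
    ∃ F : ℂ → E, IsExt r (fun p => F p) F ∧ (∀ p : Nd, (p : ℂ) ∉ Λ.Vt → gen r (fun n => F n) p = 0) ∧
      (∀ v ∈ Λ.Vt, F v = ω v) ∧ (∀ z ∈ Λ.P, ‖F z - f z‖ ≤ e + η) ∧
      ∀ z ∈ Λ.P, ∀ z' ∈ Λ.P, ‖F z - F z'‖ ≤ L * ‖z - z'‖ + (β + 2 * L * s) := by
  have hn := h.good.pnet
  obtain ⟨G₀, hG₀⟩ := hn.exists_ext (harm r {p : Nd | (p : ℂ) ∈ Λ.Vt} fun p => ω p)
  have h1 : ∀ p : Nd, (p : ℂ) ∉ Λ.Vt →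
      gen r (harm r {p : Nd | (p : ℂ) ∈ Λ.Vt} fun p => ω p) p = 0 := fun p hp =>
    harm_gen hn.nonneg hn.abs _ hp
  have h2 : ∀ p : Nd, (p : ℂ) ∈ Λ.Vt →
      harm r {p : Nd | (p : ℂ) ∈ Λ.Vt} (fun p => ω p) p = ω p := fun p hp =>
    harm_bd hn.nonneg hn.abs _ hp
  generalize (harm r {p : Nd | (p : ℂ) ∈ Λ.Vt} fun p => ω p) = g₀ at hG₀ h1 h2
  have h3 : ∀ p, g₀ p - g p ∈ closedBall (0 : E) e := by
    refine harm_mem hn.nonneg hn.abs (u := fun p => g₀ p - g p) (fun a ha => ?_)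
      (convex_closedBall _ _) fun b hb => ?_
    · have : gen r (fun p => g₀ p - g p) a = gen r g₀ a - gen r g a := by
        simp only [gen, ← Finset.sum_sub_distrib, ← smul_sub]
        exact Finset.sum_congr rfl fun b _ => by congr 1; abel
      rw [this, h1 a ha, hg a ha, sub_zero]
    · rw [mem_closedBall_zero_iff, h2 b hb, norm_sub_rev]
      exact hω b hb
  have h4 : ∀ z ∈ Eg r ∪ (Nd : Set ℂ), ‖G₀ z - G z‖ ≤ e := by
    rintro z (⟨p, p', hp, hz⟩ | hz)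
    · rw [segment_eq_image_lineMap] at hz
      obtain ⟨t, ht, rfl⟩ := hz
      rw [hG₀.2 p p' hp t ht, hG.2 p p' hp t ht, ← mem_closedBall_zero_iff]
      have := (convex_closedBall (0 : E) e) (h3 p) (h3 p') (sub_nonneg.2 ht.2) ht.1 (by ring)
      convert this using 1
      simp only [AffineMap.lineMap_apply_module, smul_sub]
      abel
    · have e1 := hG₀.1 ⟨z, hz⟩
      have e2 := hG.1 ⟨z, hz⟩
      simp only at e1 e2
      rw [e1, e2, ← mem_closedBall_zero_iff]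
      exact h3 _
  have h5 : ∀ z : ℂ, ∃ w : ℂ, (z ∈ Eg r ∪ (Nd : Set ℂ) → w = z) ∧
      (z ∈ Λ.P → w ∈ Eg r ∪ (Nd : Set ℂ) ∧ ‖w - z‖ ≤ s) := fun z => by
    by_cases hz : z ∈ Eg r ∪ (Nd : Set ℂ)
    · exact ⟨z, fun _ => rfl, fun _ => ⟨hz, by simpa only [sub_self, norm_zero] using hs⟩⟩
    by_cases hP : z ∈ Λ.P
    · obtain ⟨p, hp, hd⟩ := h.net z hP
      exact ⟨p, fun k => absurd k hz, fun _ => ⟨Or.inr hp, hd⟩⟩
    · exact ⟨z, fun _ => rfl, fun k => absurd k hP⟩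
  choose π hπ hπ' using h5
  have h6 : ∀ p : Nd, G₀ (π p) = g₀ p := fun p => by rw [hπ p (Or.inr p.2), hG₀.1]
  have h7 : (fun p : Nd => G₀ (π p)) = g₀ := funext h6
  refine ⟨fun z => G₀ (π z), ⟨fun _ => rfl, fun p p' hp t ht => ?_⟩, fun p hp => ?_,
    fun v hv => ?_, fun z hz => ?_, fun z hz z' hz' => ?_⟩
  · have : AffineMap.lineMap (p : ℂ) (p' : ℂ) t ∈ Eg r :=
      ⟨p, p', hp, by rw [segment_eq_image_lineMap]; exact ⟨t, ht, rfl⟩⟩
    simp only [h6, hπ _ (Or.inl this)]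
    exact hG₀.2 p p' hp t ht
  · rw [h7]
    exact h1 p hp
  · exact (h6 ⟨v, h.good.vt v hv⟩).trans (h2 ⟨v, h.good.vt v hv⟩ hv)
  · obtain ⟨k1, k2⟩ := hπ' z hz
    exact (norm_sub_le_norm_sub_add_norm_sub _ (G (π z)) _).trans
      (add_le_add (h4 _ k1) (hf _ k1 z hz k2))
  · obtain ⟨k1, k2⟩ := hπ' z hz
    obtain ⟨k3, k4⟩ := hπ' z' hz'
    have k5 := hlip g₀ G₀ hG₀ h1 h2 _ k1 _ k3
    have k6 : ‖π z - π z'‖ ≤ ‖z - z'‖ + 2 * s := by
      have e1 := norm_sub_le_norm_sub_add_norm_sub (π z) z (π z')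
      have e2 := norm_sub_le_norm_sub_add_norm_sub z z' (π z')
      rw [norm_sub_rev z' (π z')] at e2
      linarith
    have k7 := mul_le_mul_of_nonneg_left k6 hL
    linarith only [k5, k7]

/-- B2. The constants of the thinning. Hint: `build_const`; then `k`, then `ζ`. -/
theorem band_const {L A₀ K μ θ : ℝ} (hL : 1 ≤ L) (hA : 0 ≤ A₀) (hK : 0 < K) (hμ : 0 < μ)
    (hθ : 0 < θ) : ∃ lam γ k ζ : ℝ, 0 < lam ∧ 0 < ζ ∧ 100 * ζ ≤ k ∧ 100 * k ≤ μ ∧
      K * (2 * γ) + √(2 * K) * (√(lam⁻¹ * A₀) + √(32 * lam * (2 * γ))) ≤ θ ∧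
      (64 / k ^ 2 + 1) * (30 * L * ζ + 4 * (10 * L * ζ)) ≤ γ ∧
      (64 / k ^ 2 + 1) * (3 * k * (2 * L * k + 10 * L * ζ) ^ 2) ≤ γ := by
  obtain ⟨lam, hl, γ, hγ, hc⟩ := build_const hA hK hθ
  have hL0 : 0 < L := by linarith only [hL]
  obtain ⟨k, hk0, hk1, hk2, hk3⟩ : ∃ k : ℝ, 0 < k ∧ k ≤ 1 ∧ 100 * k ≤ μ ∧
      1755 * L ^ 2 * k ≤ γ := by
    refine ⟨min 1 (min (μ / 100) (γ / (1755 * L ^ 2))), by positivity, min_le_left _ _, ?_, ?_⟩
    · have := (min_le_right 1 _).trans (min_le_left (μ / 100) (γ / (1755 * L ^ 2)))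
      linarith only [this]
    · have := (min_le_right 1 _).trans (min_le_right (μ / 100) (γ / (1755 * L ^ 2)))
      rwa [le_div_iff₀' (by positivity)] at this
  have hC : 0 < 64 / k ^ 2 + 1 := by positivity
  obtain ⟨ζ, h0, h1, h2⟩ : ∃ ζ : ℝ, 0 < ζ ∧ 100 * ζ ≤ k ∧ (64 / k ^ 2 + 1) * (70 * L) * ζ ≤ γ := by
    refine ⟨min (k / 100) (γ / ((64 / k ^ 2 + 1) * (70 * L))), by positivity, ?_, ?_⟩
    · have := min_le_left (k / 100) (γ / ((64 / k ^ 2 + 1) * (70 * L)))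
      linarith only [this]
    · have := min_le_right (k / 100) (γ / ((64 / k ^ 2 + 1) * (70 * L)))
      rwa [le_div_iff₀' (by positivity)] at this
  refine ⟨lam, γ, k, ζ, hl, h0, h1, hk2, hc, by linarith only [h2], ?_⟩
  have e1 : 64 / k ^ 2 + 1 ≤ 65 / k ^ 2 := by
    have : 1 ≤ 1 / k ^ 2 := by
      rw [le_div_iff₀ (by positivity)]
      nlinarith only [hk0, hk1]
    have e : 65 / k ^ 2 = 64 / k ^ 2 + 1 / k ^ 2 := by ring
    linarith only [this, e]
  have e2 : 2 * L * k + 10 * L * ζ ≤ 3 * L * k := by nlinarith only [hL, h0, h1]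
  calc _ ≤ 65 / k ^ 2 * (3 * k * (3 * L * k) ^ 2) := by gcongr
    _ = 1755 * L ^ 2 * k := by field_simp; ring
    _ ≤ γ := hk3

/-- B3. A set that is far from the frontier in the sense of `f` is far in the plane. -/
theorem far_interior {E : Type} [NormedAddCommGroup E] (Λ : Lens) {f : ℂ → E} {ℓ : Set ℂ}
    (hℓ : IsCompact ℓ) (hn : ℓ.Nonempty) (hP : ℓ ⊆ Λ.P) {σ ρ : ℝ}
    (hm : ∀ z ∈ Λ.P, ∀ z' ∈ Λ.P, ‖z - z'‖ ≤ σ → ‖f z - f z'‖ ≤ ρ)
    (hf : ∀ z ∈ ℓ, ∀ w ∈ frontier Λ.P, ¬ Near f Λ.P ρ z w) {z : ℂ} (hz : infDist z ℓ ≤ σ) :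
    z ∈ interior Λ.P := by
  obtain ⟨x, hx, hd⟩ := hℓ.exists_infDist_eq_dist hn z
  have hcl : IsClosed Λ.P := (Λ.compact_reg 0).isClosed
  have h1 : ∀ w ∈ segment ℝ x z, w ∉ frontier Λ.P := fun w hw hfr => by
    refine hf x hx w hfr (near_seg (Λ.convex_reg 0) hm (hP hx) (hcl.frontier_subset hfr) ?_)
    have := dist_add_dist_of_mem_segment hw
    rw [← dist_eq_norm]
    rw [hd, dist_comm] at hz
    linarith [dist_nonneg (x := w) (y := z)]
  have h2 : segment ℝ x z ⊆ interior Λ.P ∪ Λ.Pᶜ := fun w hw => by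
    by_cases hP : w ∈ Λ.P
    · exact Or.inl ((mem_interior_iff_notMem_frontier hP).2 (h1 w hw))
    · exact Or.inr hP
  refine (convex_segment x z).isPreconnected.subset_left_of_subset_union isOpen_interior
    hcl.isOpen_compl (disjoint_compl_right.mono_left interior_subset) h2
    ⟨x, left_mem_segment ℝ x z, ?_⟩ (right_mem_segment ℝ x z)
  exact (mem_interior_iff_notMem_frontier (hP hx)).2 (h1 x (left_mem_segment ℝ x z))

end Pool.Agent.MP_17e62b_gt.G

end
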