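import Pool.Agent.MP_17e62b_gt.Mg.G_H72M4
import Pool.Agent.MP_17e62b_gt.Mg.G_H72M3
import Pool.Agent.MP_17e62b_gt.Mg.G_H72M2
import Pool.Agent.MP_17e62b_gt.Mg.G_H72M1

section
/-! The network on a band. -/

namespace Pool.Agent.MP_17e62b_gt.G

open Set Filter Topology Metric
open scoped BigOperators InnerProductSpace Classical
open H14
open T55 (af Sq SqH SqV Cells Nbr vert)
open Pool.Agent.MP_4a6971_al.H83 (PArc)

theorem band_cdata {E : Type} [NormedAddCommGroup E] [NormedSpace ℝ E] {m : ℕ} {L : ℝ}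
    {I : Bool → ℝ → E} (hI : CData m L I) {l : E →L[ℝ] ℝ} (hl : ‖l‖ ≤ 1) :
    CData m L fun e x => l (I e x) where
  nonneg := hI.nonneg
  left := by simp only [hI.left]
  right := by simp only [hI.right]
  aff e k hk t ht := by
    simp only [hI.aff e k hk t ht]
    simp only [AffineMap.lineMap_apply, vsub_eq_sub, vadd_eq_add, map_add, map_smul, map_sub]
  lip e x x' hx hx' := by
    rw [← map_sub]
    exact (l.le_opNorm _).trans ((mul_le_of_le_one_left (norm_nonneg _) hl).trans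
      (hI.lip e x x' hx hx'))

theorem band_net {μ : ℝ} (hμ : 0 < μ) :
    ∃ Y₁ : Finset ℂ, ∀ z : ℂ, ‖z‖ ≤ 2 → ∃ c ∈ Y₁, ‖z - c‖ ≤ μ := by
  obtain ⟨t, -, ht, h⟩ := finite_cover_balls_of_compact (isCompact_closedBall (0 : ℂ) 2) hμ
  refine ⟨ht.toFinset, fun z hz => ?_⟩
  obtain ⟨c, hc, hz'⟩ := mem_iUnion₂.1 (h (mem_closedBall_zero_iff.2 hz))
  exact ⟨c, ht.mem_toFinset.2 hc, (mem_ball_iff_norm.1 hz').le⟩

theorem band_arc {Λ : Lens} {κ : ℂ ≃ₜ ℂ} (hκ : κ '' Sq = Λ.P) {γ : ℝ → ℂ} (h : PArc Λ.P γ) :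
    PArc Sq fun t => κ.symm (γ t) := by
  have h1 : ∀ z, κ.symm z ∈ Sq ↔ z ∈ Λ.P := fun z => by
    rw [← hκ, κ.image_eq_preimage_symm]; rfl
  have h2 : ∀ z, κ.symm z ∈ interior Sq ↔ z ∈ interior Λ.P := fun z => by
    rw [← hκ, ← κ.image_interior, κ.image_eq_preimage_symm]; rfl
  exact ⟨κ.symm.continuous.comp_continuousOn h.cont,
    fun a ha b hb hab => h.inj ha hb (κ.symm.injective hab), (h1 _).2 h.m0,
    fun c => h.n0 ((h2 _).1 c), (h1 _).2 h.m1, fun c => h.n1 ((h2 _).1 c),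
    fun t ht => (h2 _).2 (h.mid t ht)⟩

theorem band_mem {K : Set ℂ} {γ : ℝ → ℂ} (h : PArc K γ) {t : ℝ} (ht : t ∈ Icc (0 : ℝ) 1) :
    γ t ∈ K := by
  rcases ht.1.eq_or_lt with h0 | h0
  · exact h0 ▸ h.m0
  rcases ht.2.eq_or_lt with h1 | h1
  · exact h1 ▸ h.m1
  exact interior_subset (h.mid t ⟨h0, h1⟩)

/-- B4. The network on a band. -/
theorem band : BandStmt := by
  intro E _ _ _ f hf hMP δ hδ hl hw e he
  obtain ⟨e₁, he₁, he2, he3⟩ : ∃ e₁ > 0, 100 * e₁ ≤ e ∧ 100 * e₁ ≤ δ / 1000 :=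
    ⟨min e (δ / 1000) / 100, by positivity, by linarith [min_le_left e (δ / 1000)],
      by linarith only [min_le_right e (δ / 1000)]⟩
  obtain ⟨m, L, I, hI, hst⟩ := stage1 hf hMP he₁
  obtain ⟨L', hL', b₀, hb₀, hlip⟩ := bul_lip m L
  have hL0 : 0 < L' := by linarith
  obtain ⟨μ, hμ, hμ1, hμ2⟩ : ∃ μ > 0, μ ≤ 1 / 1000 ∧ L' * (10000 * μ) ≤ e₁ := by
    refine ⟨min (1 / 1000) (e₁ / (10000 * L')), by positivity, min_le_left _ _, ?_⟩
    have := min_le_right (1 / 1000) (e₁ / (10000 * L'))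
    rw [le_div_iff₀ (by positivity)] at this
    linarith
  obtain ⟨Y₁, hY₁⟩ := band_net hμ
  obtain ⟨lam, γ', k, ζ, hlam, hζ, hk, hkμ, hθ, hc1, hc2⟩ :=
    band_const (A₀ := (4 * (m + 3)) ^ 2 * (Real.pi * (L * (3 * m + 7)) ^ 2))
      (K := (Y₁.card : ℝ) + 1) hL' (by positivity) (by positivity) hμ he₁
  obtain ⟨Y, hY⟩ := exists_gnet hζ
  obtain ⟨X, hX, s₀, hs₀, hsep⟩ := exists_pts72 Y (grid μ)
  have hk0 : 0 < k := by linarith only [hζ, hk]
  refine ⟨X.card, min s₀ k, lt_min hs₀ hk0, fun η hη => ?_⟩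
  obtain ⟨b, hb, hb1, hb2, hb3⟩ : ∃ b > 0, b ≤ ζ ∧ b ≤ b₀ ∧ b ≤ 1 / 2 :=
    ⟨min ζ (min b₀ (1 / 2)), by positivity, min_le_left _ _,
      (min_le_right _ _).trans (min_le_left _ _), (min_le_right _ _).trans (min_le_right _ _)⟩
  obtain ⟨η₁, hη₁, hη2, hη3⟩ : ∃ η₁ > 0, 2 * η₁ ≤ η ∧ 2 * η₁ ≤ e₁ :=
    ⟨min η e₁ / 2, by positivity, by linarith only [min_le_left η e₁], by linarith only [min_le_right η e₁]⟩
  obtain ⟨Λ, L₀, κ, Nd, r, g, G, s, hB, hP, hκ, hs, hsζ, hF, hg, hG, hω, hGf⟩ :=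
    hst b hb (by linarith only [hμ1, hζ, hk, hkμ, hb1]) η₁ hη₁ ζ hζ
  obtain ⟨f', hf'⟩ : ∃ f' : ℂ → E, f' = fun x => f (κ.symm x) := ⟨_, rfl⟩
  have hf'c : Continuous f' := hf' ▸ hf.comp κ.symm.continuous
  have hf'κ : (fun x => f' (κ x)) = f := by funext x; simp [hf']
  have hGf' : ∀ z ∈ Eg r ∪ Nd, ∀ x ∈ Λ.P, ‖z - x‖ ≤ 1000 * s → ‖G z - f' x‖ ≤ η₁ := by
    rw [hf']; exact hGf
  have hcv : Convex ℝ Λ.P := Λ.convex_reg 0
  obtain ⟨F, hFE, hFh, hFv, hFf, hFl⟩ := coarse_fun (L := L') (β := 8 * L' * b) (f := f') hF hs.le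
    hL0.le hg hG hω (fun z hz x hx h => hGf' z hz x hx (by linarith only [hs, h]))
    (fun g₀ G₀ h1 h2 h3 => hlip E I hI Λ b hb hb2 hB Nd r hF.good g₀ G₀ h1 h2 h3)
  have hβ1 : 8 * L' * b + 2 * L' * s ≤ 10 * L' * ζ := by nlinarith only [hL', hb1, hsζ]
  have hβ2 : 8 * L' * b ≤ 10 * L' * ζ := by nlinarith only [hL', hζ, hb1]
  have hβ3 : 1000 * (10 * L' * ζ) ≤ L' * μ := by nlinarith only [hL', hk, hkμ]
  have hβ4 : 100 * (L' * k) ≤ L' * μ := by nlinarith only [hL', hkμ]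
  have hβ5 : 0 ≤ L' * μ := by positivity
  have hβ6 : 0 ≤ L' * ζ := by positivity
  have hβ7 : 0 ≤ L' * k := by positivity
  have hT : Test Λ r F L' (10 * L' * ζ) :=
    ⟨hL0.le, hFh, fun z hz z' hz' => (hFl z hz z' hz').trans (by linarith only [hβ1])⟩
  have hm : ∀ z ∈ Λ.P, ∀ z' ∈ Λ.P, ‖z - z'‖ ≤ 10000 * μ → ‖f' z - f' z'‖ ≤ 5 * e₁ := by
    intro z hz z' hz' h
    have h1 := hT.2.2 z hz z' hz'
    have h2 := mul_le_mul_of_nonneg_left h hL0.le
    have h3 := hFf z hz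
    have h4 := hFf z' hz'
    have h5 : f' z - f' z' = (F z - F z') - (F z - f' z) + (F z' - f' z') := by abel
    have h6 := norm_add_le ((F z - F z') - (F z - f' z)) (F z' - f' z')
    have h7 := norm_sub_le (F z - F z') (F z - f' z)
    rw [h5]
    linarith only [hμ2, hη₁, hη3, hβ3, h1, h2, h3, h4, h6, h7]
  have hN : ∀ {ρ : ℝ} {x y : ℂ}, Near f' Λ.P ρ (κ x) (κ y) ↔ Near f Sq ρ x y := by
    intro ρ x y
    rw [← hκ, ← Near.map κ, hf'κ]
  have hl' : ∀ a ∈ κ '' SqH false, ∀ b ∈ κ '' SqH true, ¬ Near f' Λ.P δ a b := by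
    rintro _ ⟨a, ha, rfl⟩ _ ⟨c, hc, rfl⟩ h
    exact hl a ha c hc (hN.1 h)
  have hw' : ∀ a ∈ κ '' SqV false, ∀ b ∈ κ '' SqV true, ¬ Near f' Λ.P δ a b := by
    rintro _ ⟨a, ha, rfl⟩ _ ⟨c, hc, rfl⟩ h
    exact hw a ha c hc (hN.1 h)
  obtain ⟨n, a, c, v, γ, hA, ha, hac, hcn, hγ0, hγ1, hside, hfar, hends⟩ :=
    cut_path Λ hκ hf'c hδ hμ hμ1 hl' hw' fun z hz z' hz' h => (hm z hz z' hz' h).trans (by linarith only [he3, hη₁, hη3])
  have hn : (0 : ℝ) < n := by exact_mod_cast (by omega : 0 < n)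
  have hy : (0 : ℝ) < a / n ∧ (a : ℝ) / n < c / n ∧ (c : ℝ) / n < 1 :=
    ⟨div_pos (by exact_mod_cast ha) hn, div_lt_div_of_pos_right (by exact_mod_cast hac) hn,
      (div_lt_one hn).2 (by exact_mod_cast hcn)⟩
  have hsym : ∀ {S : Set ℂ} {z : ℂ}, z ∈ κ '' S ↔ κ.symm z ∈ S := by
    intro S z
    rw [κ.image_eq_preimage_symm]; rfl
  have hself : ∀ t ∈ Icc (0 : ℝ) 1, ∀ i, κ.symm (γ t) ∉ SqV i := fun t ht i h =>
    hside t ht i _ (hsym.2 h) ⟨{γ t}, singleton_subset_iff.2 (band_mem hA.arc ht),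
      isPreconnected_singleton, rfl, rfl, by
        rintro _ rfl _ rfl
        rw [sub_self, norm_zero]; positivity⟩
  obtain ⟨k₀, hk1, hk2, hk3, hk4⟩ := straighten (band_arc hκ hA.arc) (hsym.1 hγ0) (hsym.1 hγ1)
    fun i => ⟨hself 0 (by simp only [mem_Icc, Std.le_refl, zero_le_one, and_self]) i, hself 1 (by simp only [mem_Icc, zero_le_one, Std.le_refl, and_self]) i⟩
  have hsub : Icc ((a : ℝ) / n) (c / n) ⊆ Icc 0 1 := Icc_subset_Icc hy.1.le hy.2.2.le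
  have hℓc : IsCompact (γ '' Icc ((a : ℝ) / n) (c / n)) :=
    isCompact_Icc.image_of_continuousOn (hA.arc.cont.mono hsub)
  have hℓn : (γ '' Icc ((a : ℝ) / n) (c / n)).Nonempty := (nonempty_Icc.2 hy.2.1.le).image _
  have hi : ∀ z, infDist z (γ '' Icc ((a : ℝ) / n) (c / n)) ≤ 20 * k → z ∈ interior Λ.P :=
    fun z hz => far_interior Λ (f := f') (ρ := δ / 200) hℓc hℓn
      (by rintro _ ⟨t, ht, rfl⟩; exact band_mem hA.arc (hsub ht))
      (fun z hz z' hz' h => (hm z hz z' hz' (by linarith only [hζ, hk, hkμ, h])).trans (by linarith only [he3, hη₁, hη3]))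
      (by rintro _ ⟨t, ht, rfl⟩; exact hfar t ht) hz
  obtain ⟨Nd', r', g₀, hTh, hg1, hg2, hg3⟩ := thin hF hℓn hℓc hsζ hζ hk hY hX hi hT hFE hY₁ hlam hθ
    hc1 hc2 (by
      intro Nd' r' hgood g' h1 h2 l hl1
      refine bul_kink hB hb.le hb3 (band_cdata hI hl1) hgood (fun p hp => ?_) fun p hp => ?_
      · have := congrArg l (h1 p hp)
        simpa only [gen, map_sum, map_smul, map_sub, map_zero] using this
      · rw [h2 p hp, hFv _ hp]
        unfold om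
        split_ifs <;> rfl)
  obtain ⟨G₀, hG₀⟩ := hTh.good.pnet.exists_ext g₀
  have hclose := thin_close hTh hk0.le hT hFE hg1 hg2 hg3 (fun p q => by
    have := hlip E I hI Λ b hb hb2 hB Nd' r' hTh.good g₀ G₀ hG₀ hg1
      (fun p hp => (hg2 p hp).trans (hFv _ hp)) p (Or.inr p.2) q (Or.inr q.2)
    rw [hG₀.1 p, hG₀.1 q] at this
    linarith only [hβ2, this]) (by positivity)
  have himg : ∀ S : Set ℂ, k₀ '' S = S → (k₀.trans κ) '' S = κ '' S := fun S h => by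
    rw [show ⇑(k₀.trans κ) = κ ∘ k₀ from rfl, image_comp, h]
  have hS : Setup Λ L₀ μ n v γ (k₀.trans κ) Nd' r' :=
    ⟨hP, hA, (himg _ hk1).trans hκ, fun t ht => by
      rw [Homeomorph.trans_apply, hk4 t ht, κ.apply_symm_apply], hTh.good, hTh.cut⟩
  have hlong : μ ≤ ‖γ 1 - γ 0‖ := by
    by_contra hlt
    refine hl' _ hγ0 _ hγ1 ((near_seg hcv hm hA.arc.m0 hA.arc.m1 ?_).mono72 (by linarith only [he3, hη₁, hη3]))
    rw [norm_sub_rev]
    linarith only [hζ, hk, hkμ, hlt]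
  have key := net_of (d := δ / 1000) (ρ := δ / 10) (e := e) (η := η) (s₀ := min s₀ k) (f := f')
    hS hTh hy hs (by linarith only [hk, hsζ]) hkμ hlong
    (fun x hx x' hx' h => (min_le_left _ _).trans (hsep x hx x' hx' h)) (min_le_right _ _) hG hg
    hη.le (fun z hz hz' => (hGf' z hz z hz' (by rw [sub_self, norm_zero]; positivity)).trans
      (by linarith only [hη₁, hη2])) hg1
    (fun p => by
      have h1 := hclose p
      have h2 := hFf p (hTh.good.pnet.mem _ p.2)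
      have h3 := norm_add_le (g₀ p - F p) (F p - f' p)
      rw [sub_add_sub_cancel] at h3
      linarith only [he2, hμ2, hη₁, hη3, hβ3, hβ4, h1, h2, h3])
    (fun z hz z' hz' h => by
      obtain ⟨p, hp, hpz⟩ := hF.net z hz
      have h1 := hGf' p (Or.inr hp) z hz (by linarith only [hs, hpz])
      have h0 := norm_add_le (p - z) (z - z')
      rw [sub_add_sub_cancel] at h0
      have h2 := hGf' p (Or.inr hp) z' hz' (by linarith only [hs, h, hpz, h0])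
      have h3 := norm_sub_le (G p - f' z') (G p - f' z)
      rw [sub_sub_sub_cancel_left] at h3
      linarith only [hη2, h1, h2, h3])
    (fun z hz z' hz' h => (hm z hz z' hz' (by linarith only [hζ, hk, hkμ, h])).trans (le_min (by linarith only [he2, hη₁, hη3]) (by linarith only [he3, hη₁, hη3])))
    (fun t ht w hw h => hfar t ht w hw (h.mono72 (by linarith only [he3, hη₁, hη3])))
    (fun t ht i w hw h => hside t ht i w (himg _ (hk3 i) ▸ hw) (h.mono72 (by linarith only [he3, hη₁, hη3]))) hends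
  refine ⟨k₀, hk1, hk2, hk3, ?_⟩
  have : (fun z => f' ((k₀.trans κ) z)) = fun z => f (k₀ z) := by funext z; simp [hf']
  rwa [this] at key

end Pool.Agent.MP_17e62b_gt.G

end
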