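import Pool.Agent.MP_17e62b_gt.Mg.G_H72Iface

attribute [-instance] NeZero.charZero_one MulSemiringActionSemiHomClass.toRingHomClass
  IdemSemiring.toSemiring AlgHomClass.toRingHomClass NonUnitalNonAssocSemiring.toAddCommMonoid
  instNonemptyOfMonad instCharZeroOfIsSemireal Pi.partialOrder RCLike.charZero_rclike
  ContinuousMonoidHom.instCoeOutOfMonoidHomClassOfContinuousMapClass Submodule.IsLattice.finite
  littleWedderburn NonUnitalAlgSemiHomClass.toDistribMulActionSemiHomClass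
  NormMulClass.toNoZeroDivisors instIsRightCancelAddOfAddRightReflectLE
  Algebra.IsFiniteSplit.instFree Module.FaithfullyFlat.toFlat IdemCommSemiring.toIdemSemiring
  BooleanRing.toRing NumberField.instFiniteDimensional NumberField.to_charZero
  LinearOrderedAddCommMonoidWithTop.toAddCommMonoid NormedRing.toRing

section

/-!
Tameness of a chain of pieces.
-/

namespace Pool.Agent.MP_17e62b_gt.T55

open Set Metric Topology
open scoped InnerProductSpace Manifold

variable {V : Type} [Fintype V] [DecidableEq V] (T : Finset (Finset V)) {n : ℕ}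
  (F : V → EuclideanSpace ℝ (Fin n))

/-- Pieces that are close have close indices, cyclically. -/
def T1 (U : Set V) (η : ℝ) (k : ℕ) (P : ℕ → Set V) : Prop :=
  ∀ i j, i ≤ j → j < k → ∀ K, Pc T F U η K → (K ∩ P i).Nonempty → (K ∩ P j).Nonempty →
    j ≤ i + 2 ∨ k + i ≤ j + 2

/-- Only the first and the last pieces are close to `S`. -/
def T2 (S U : Set V) (η : ℝ) (k : ℕ) (P : ℕ → Set V) : Prop :=
  ∀ i < k, ∀ K, Pc T F U η K → (K ∩ P i).Nonempty → Tch T K S → i ≤ 3 ∨ k ≤ i + 3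

omit [Fintype V] [DecidableEq V] in
/-- The two end zones of a chain of pieces. -/
def End (k : ℕ) (P : ℕ → Set V) (K₀ : Set V) (i : Bool) : Set V :=
  if i then {v | ∃ j < k, k ≤ j + 11 ∧ v ∈ P j} else K₀ ∪ {v | ∃ j ≤ 10, v ∈ P j}

/-- The middle part of a chain of pieces. -/
def Spine (k : ℕ) (x : ℕ → V) (P : ℕ → Set V) (K₀ : Set V) : Set V :=
  {v | Jn T ({u | ∃ j < k, u ∈ P j} \ (End k P K₀ false ∪ End k P K₀ true)) (x 100) v}

/-- The thick band about the middle part. -/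
def Wout (U : Set V) (η : ℝ) (k : ℕ) (x : ℕ → V) (P : ℕ → Set V) (K₀ : Set V) : Set V :=
  hull T (U \ (End k P K₀ false ∪ End k P K₀ true))ᶜ
    (nb T F (U \ (End k P K₀ false ∪ End k P K₀ true)) (η / 10) (Spine T k x P K₀))

end Pool.Agent.MP_17e62b_gt.T55

end

section

/-!
The skeleton with labels and separation.
-/

namespace Pool.Agent.MP_17e62b_gt.T55

open Set Metric Topology

variable {V : Type} [Fintype V] [DecidableEq V] (T : Finset (Finset V)) {n : ℕ}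
  (F : V → EuclideanSpace ℝ (Fin n))

/-- `z` is zero relative to `H`, by a 2-chain that has no triangle with a vertex in `A`. -/
def NulA (A H : Set V) (z : V → V → ZMod 2) : Prop :=
  ∃ Q a, On T H a ∧ z = d2 T Q + a ∧ ∀ t ∈ T, (∃ v ∈ t, v ∈ A) → Q t = 0

/-- Every small chord from `H` to `H` that misses `A` is zero. -/
def Sep (A H : Set V) (R : ℝ) : Prop :=
  ∀ K, Pc T F (H ∪ A)ᶜ R K → ∀ u ∈ K, ∀ u' ∈ K, ∀ b ∈ H, ∀ b' ∈ H, Adj T b u → Adj T u' b' →
    ∀ p, On T K p → d1 p = ends u u' → NulA T A H (edge b u + p + edge u' b')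

omit [Fintype V] [DecidableEq V] in
/-- The classes together with the end zones. -/
def Zs (S : Set V) {m : ℕ} (Z : Fin m → Bool → Set V) : Set V := S ∪ ⋃ j, (Z j false ∪ Z j true)

omit [Fintype V] [DecidableEq V] in
/-- The middle parts of the axes. -/
def Md {m : ℕ} (X : Fin m → Set V) (Z : Fin m → Bool → Set V) : Set V :=
  ⋃ j, X j \ (Z j false ∪ Z j true)

/-- The mixed triangles of the two long sides of a band. -/
def Rest (W : Set V) (L : Bool → Set (Finset V)) : Set (Finset V) :=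
  {t | Mixed T W t} \ (L false ∪ L true)

variable (S Y : Set V) (lab : V → V) {m : ℕ} (W : Fin m → Set V)
  (L : Fin m → Bool → Set (Finset V)) (z : Fin m → Bool → V)

omit [Fintype V] [DecidableEq V] in
/-- The vertices outside classes, tubes and bands. -/
def Uu : Set V := (S ∪ Y ∪ ⋃ j, W j)ᶜ

/-- A step inside one class: along an edge, or along the end of a band. -/
def Lk (a b : V) : Prop :=
  b ∈ S ∧ lab b = lab a ∧
    (Adj T a b ∨ ∃ j i, z j i = lab a ∧ (∃ t ∈ L j i, a ∈ t) ∧ ∃ t ∈ L j i, b ∈ t)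

omit [Fintype V] [DecidableEq V] in
/-- The vertices whose dual cells carry the class `a`. -/
def Own (a : V) : Set V :=
  {v | (v ∈ S ∧ lab v = a) ∨ ∃ j i, z j i = a ∧ v ∈ W j ∧ ∃ t ∈ L j i, v ∈ t}

/-- The triangles at the frontier of `Uu` that face a free class only. -/
def FT : Set (Finset V) :=
  {t | Mixed T (Uu S Y W) t ∧ ∀ v ∈ t, v ∉ Uu S Y W →
    (v ∈ S ∧ lab v ∉ Bd T) ∨ ∃ j i, z j i ∉ Bd T ∧ v ∈ W j ∧ t ∈ L j i}

/-- A step that enters or leaves a band through a long side only. -/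
def Stp (a b : V) : Prop :=
  Adj T a b ∧ ((a ∈ Uu S Y W ∧ b ∈ Uu S Y W) ∨
    ∃ j, (a ∈ W j ∧ b ∈ W j) ∨ ∃ t ∈ Rest T (W j) (L j), a ∈ t ∧ b ∈ t)

/-- `K` reaches a free class at the triangle `c`: directly, or inside a band whose long side ends
at `c`. -/
def Pos (K : Set V) (c : Finset V) : Prop :=
  (c ∈ FT T S Y lab W L z ∧ ∃ v ∈ c, v ∈ K ∧ v ∈ Uu S Y W) ∨
    ∃ j i, z j i ∉ Bd T ∧ (∃ t ∈ L j i, ∃ w ∈ t, w ∈ K ∧ w ∈ W j) ∧ c ∈ L j i ∧
      ∃ t₀ t₁, (∃ v ∈ t₀, v ∈ K) ∧ FJn (W j) (Rest T (W j) (L j)) t₀ t₁ ∧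
        ∃ w ∈ W j, ∃ u, u ∉ W j ∧ w ∈ t₁ ∧ u ∈ t₁ ∧ w ∈ c ∧ u ∈ c

/-- A small connected set that meets a free class meets no other class. -/
def Iso (δ : ℝ) : Prop :=
  ∀ K, Pc T F univ δ K → ∀ a a', a ∉ Bd T → (K ∩ Own S lab W L z a).Nonempty →
    (K ∩ Own S lab W L z a').Nonempty → a = a'

/-- A small set reaches one arc of a free class only. -/
def Sepa (δ : ℝ) : Prop :=
  ∀ K, K ⊆ (S ∪ Y)ᶜ → Small F δ K →
    (∀ a ∈ K, ∀ b ∈ K, Relation.ReflTransGen (fun x y => y ∈ K ∧ Stp T S Y W L x y) a b) →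
    ∀ c c', Pos T S Y lab W L z K c → Pos T S Y lab W L z K c' →
      FJn (Uu S Y W) (FT T S Y lab W L z) c c'

/-- The labelled skeleton. -/
structure Sk1 (N : ℕ) (ρ δ : ℝ) : Prop where
  few : (lab '' S \ Bd T).ncard ≤ N
  m_le : m ≤ N
  rad : ∀ v ∈ S, dist (F v) (F (lab v)) ≤ ρ
  radL : ∀ j i, ∀ t ∈ L j i, ∀ v ∈ t, dist (F v) (F (z j i)) ≤ ρ
  bd : ∀ v ∈ Bd T, v ∈ S ∧ lab v ∈ Bd T
  cls : ∀ v ∈ S, lab v ∈ S ∧ lab (lab v) = lab v ∧
    Relation.ReflTransGen (Lk T S lab L z) v (lab v)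
  touch : ∀ j i, ∃ t ∈ L j i, ∃ s ∈ t, s ∈ S ∧ lab s = z j i
  disj : Disjoint S Y
  tube : ∀ y ∈ Y, ∃ a b, ∀ u, Jn T Y y u → ∀ w, w ∉ Y → Adj T u w →
    w ∈ S ∧ (lab w = a ∨ lab w = b)
  out : ∀ j, Disjoint (W j) (S ∪ Y)
  sep : ∀ j k, j ≠ k → Disjoint (W j) (W k) ∧ ¬ Tch T (W j) (W k)
  band : ∀ j, Band T F ρ δ S (Uu S Y W) (W j) (L j)
  disc : ∀ u, Acyc T {v | Jn T (Uu S Y W) u v}
  free_adj : ∀ s ∈ S, lab s ∉ Bd T → ∀ s' ∈ S, Adj T s s' → lab s' = lab s
  free_L : ∀ j i, ∀ t ∈ L j i, ∀ s ∈ t, s ∈ S → lab s ∉ Bd T ∨ z j i ∉ Bd T → lab s = z j i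

/-- The labelled skeleton with separation and without trivial discs. -/
structure Sk (N : ℕ) (ρ δ : ℝ) : Prop extends Sk1 T F S Y lab W L z N ρ δ where
  iso : Iso T F S lab W L z δ
  sepa : Sepa T F S Y lab W L z δ
  nontriv : ∀ u ∈ Uu S Y W, ∃ t, Mixed T (Uu S Y W) t ∧ (∃ v ∈ t, Jn T (Uu S Y W) u v) ∧
    t ∉ FT T S Y lab W L z

/-- The bands `W` about the axes `X`, built at the scale `r'`, inside the invariant at the scale
`r`. -/
structure Pre (N : ℕ) (ρ r r' : ℝ) (B₀ : Set V) (root : V → V) (X : Fin m → Set V)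
    (Z : Fin m → Bool → Set V) : Prop where
  inv : Inv T F N ρ r B₀ S Y root m X Z
  sep : Sep T F (Md X Z) (Zs S Z) (r / 4)
  pos : 0 ≤ r'
  le : 10 * r' ≤ r
  eq : ∀ j, W j = hull T S (nb T F (S ∪ Y)ᶜ (r' / 5) (X j))
  close : ∀ j i, ∀ t ∈ L j i, ∀ u ∈ t, u ∈ W j → ∃ K, Pc T F (W j) (2 * r' / 5) K ∧ u ∈ K ∧
    (K ∩ Z j i).Nonempty ∧ K ∩ X j ⊆ Z j i

end Pool.Agent.MP_17e62b_gt.T55

end

section

/-!
Paths and chains.
-/

namespace Pool.Agent.MP_17e62b_gt.T55

open Set Metric Topology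
open scoped InnerProductSpace Manifold

variable {V : Type} [Fintype V] [DecidableEq V] {T : Finset (Finset V)}

section
variable {A B C K K' O R R' U X : Set V} {a b u v w x y : V} {z z' : V → V → ZMod 2}
  {Q Q' : Finset V → ZMod 2} {t t' : Finset V}

theorem Adj.symm (h : Adj T u v) : Adj T v u := by
  obtain ⟨h1, t, h2, h3, h4⟩ := h
  exact ⟨h1.symm, t, h2, h4, h3⟩

theorem Tch.symm (h : Tch T A B) : Tch T B A := by
  obtain ⟨u, h1, s, h2, h3⟩ := h
  exact ⟨s, h2, u, h1, h3.symm⟩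

theorem Jn.refl (h : x ∈ A) : Jn T A x x := by
  exact ⟨h, .refl⟩

theorem Jn.right (h : Jn T A x y) : y ∈ A := by
  obtain ⟨h1, h2⟩ := h
  induction h2 with
  | refl => exact h1
  | tail _ h _ => exact h.1

theorem Jn.symm (h : Jn T A x y) : Jn T A y x := by
  refine ⟨h.right, ?_⟩
  obtain ⟨h1, h2⟩ := h
  induction h2 with
  | refl => exact .refl
  | tail h3 h ih => exact .head ⟨Jn.right ⟨h1, h3⟩, h.2.symm⟩ ih

theorem Jn.trans (h : Jn T A x y) (h' : Jn T A y w) : Jn T A x w := by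
  exact ⟨h.1, h.2.trans h'.2⟩

theorem Jn.mono (h : Jn T A x y) (hAB : A ⊆ B) : Jn T B x y := by
  exact ⟨hAB h.1, Relation.ReflTransGen.mono (fun _ _ h => ⟨hAB h.1, h.2⟩) _ _ h.2⟩

theorem Jn.step (h : Jn T A x y) (hw : w ∈ A) (ha : Adj T y w) : Jn T A x w := by
  exact ⟨h.1, h.2.tail ⟨hw, ha⟩⟩

theorem conn_comp (A : Set V) (x : V) : Conn T {u | Jn T A x u} := by
  have h : ∀ u, Jn T A x u → Jn T {u | Jn T A x u} x u := by
    rintro u ⟨h1, h2⟩
    induction h2 with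
    | refl => exact .refl (Jn.refl h1)
    | tail h3 h ih => exact ih.step ⟨h1, h3.tail h⟩ h.2
  exact fun a ha b hb => (h a ha).symm.trans (h b hb)

theorem conn_of_jn (h : ∀ u ∈ A, Jn T A u x) : Conn T A := by
  exact fun a ha b hb => (h a ha).trans (h b hb).symm

theorem Conn.union (hA : Conn T A) (hB : Conn T B) (h : (A ∩ B).Nonempty ∨ Tch T A B) :
    Conn T (A ∪ B) := by
  obtain ⟨a, ha, b, hb, h1⟩ : ∃ a ∈ A, ∃ b ∈ B, Jn T (A ∪ B) b a := by
    rcases h with ⟨a, h1, h2⟩ | ⟨a, h1, b, h2, h3⟩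
    · exact ⟨a, h1, a, h2, .refl (.inl h1)⟩
    · exact ⟨a, h1, b, h2, (Jn.refl (.inr h2)).step (.inl h1) h3.symm⟩
  refine conn_of_jn (x := a) fun u hu => hu.elim
    (fun hu => (hA u hu a ha).mono subset_union_left) fun hu => ?_
  exact ((hB u hu b hb).mono subset_union_right).trans h1

/-- The first exit of a path from `C`. -/
theorem Jn.exit (h : Jn T A x y) (hx : x ∈ C) (hy : y ∉ C) :
    ∃ u v, Jn T (A ∩ C) x u ∧ v ∈ A ∧ v ∉ C ∧ Adj T u v := by
  refine Or.resolve_left (a := Jn T (A ∩ C) x y) ?_ fun h => hy h.right.2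
  obtain ⟨h1, h2⟩ := h
  clear hy
  induction h2 with
  | refl => exact .inl (.refl ⟨h1, hx⟩)
  | @tail b c _ h ih =>
    refine ih.elim (fun ih => ?_) .inr
    by_cases hc : c ∈ C
    exacts [.inl (ih.step ⟨h.1, hc⟩ h.2), .inr ⟨b, c, ih, h.1, hc, h.2⟩]

theorem On.zero : On T A 0 := by
  exact ⟨fun _ _ => rfl, fun _ _ h => absurd rfl h⟩

theorem On.add (h : On T A z) (h' : On T A z') : On T A (z + z') := by
  refine ⟨fun u v => by simp only [Pi.add_apply, h.1 u v, h'.1 u v], fun u v h0 => ?_⟩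
  by_cases h1 : z u v = 0
  exacts [h'.2 u v (by simpa [h1] using h0), h.2 u v h1]

theorem On.mono (h : On T A z) (hAB : A ⊆ B) : On T B z := by
  exact ⟨h.1, fun u v h0 => ⟨hAB (h.2 u v h0).1, hAB (h.2 u v h0).2.1, (h.2 u v h0).2.2⟩⟩

theorem On.sum {ι : Type} {I : Finset ι} {c : ι → V → V → ZMod 2} (h : ∀ i ∈ I, On T A (c i)) :
    On T A (∑ i ∈ I, c i) := by
  exact Finset.sum_induction c (On T A) (fun _ _ => On.add) On.zero h

theorem on_edge (h : Adj T a b) (ha : a ∈ A) (hb : b ∈ A) : On T A (edge a b) := by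
  refine ⟨fun u v => if_congr (by tauto) rfl rfl, fun u v h0 => ?_⟩
  rcases (ite_ne_right_iff.1 h0).1.2 with ⟨rfl, rfl⟩ | ⟨rfl, rfl⟩
  exacts [⟨ha, hb, h⟩, ⟨hb, ha, h.symm⟩]

theorem edge_comm (a b : V) : edge a b = edge b a := by
  funext u v
  exact if_congr (by rw [ne_comm, or_comm]) rfl rfl

theorem add_self1 (z : V → V → ZMod 2) : z + z = 0 := by
  funext u v
  exact CharTwo.add_self_eq_zero _

theorem ends_add (a b c : V) : ends a b + ends b c = ends a c := by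
  funext v
  simp only [ends, Pi.add_apply]
  linear_combination CharTwo.add_self_eq_zero ((Pi.single b 1 : V → ZMod 2) v)

theorem ends_self (a : V) : ends a a = 0 := by
  funext v
  exact CharTwo.add_self_eq_zero _

theorem ends_comm (a b : V) : ends a b = ends b a := by
  exact add_comm _ _

theorem d1_add (z z' : V → V → ZMod 2) : d1 (z + z') = d1 z + d1 z' := by
  funext v
  simp only [d1, Pi.add_apply, Finset.sum_add_distrib]

theorem d1_sum {ι : Type} (I : Finset ι) (c : ι → V → V → ZMod 2) :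
    d1 (∑ i ∈ I, c i) = ∑ i ∈ I, d1 (c i) := by
  funext v
  simp only [d1, Finset.sum_apply]
  exact Finset.sum_comm

theorem d1_edge (a b : V) : d1 (edge a b) = ends a b := by
  by_cases h : a = b
  · funext v
    simp only [d1, edge, h, ne_eq, not_true_eq_false, or_self, false_and, ↓ reduceIte, Finset.sum_const_zero, ends_self, Pi.zero_apply]
  funext v
  have h1 : ∀ u, edge a b u v = (if u = b then (Pi.single a 1 : V → ZMod 2) v else 0) +
      if u = a then (Pi.single b 1 : V → ZMod 2) v else 0 := fun u => by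
    simp only [edge, Pi.single_apply]
    by_cases h1 : u = a <;> by_cases h2 : u = b <;> simp_all
  simp only [d1, h1, Finset.sum_add_distrib, Finset.sum_ite_eq', Finset.mem_univ, ↓ reduceIte, ends, Pi.add_apply]

theorem On.d1_mem (h : On T A z) (hv : v ∉ A) : d1 z v = 0 := by
  exact Finset.sum_eq_zero fun u _ => by_contra fun h0 => hv (h.2 u v h0).2.1

theorem On.sum_d1 (h : On T A z) : ∑ v, d1 z v = 0 := by
  simp only [d1, ← Finset.sum_product']
  refine Finset.sum_involution (fun p _ => p.swap) (fun p _ => ?_) (fun p _ h0 e => ?_)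
    (by simp only [Finset.univ_product_univ, Finset.mem_univ, imp_self, implies_true]) (by simp only [Finset.univ_product_univ, Finset.mem_univ, Prod.swap_swap, imp_self, implies_true])
  · rw [h.1]
    exact CharTwo.add_self_eq_zero _
  · exact (h.2 _ _ h0).2.2.1 (congrArg Prod.fst e)

theorem d2_add (Q Q' : Finset V → ZMod 2) : d2 T (Q + Q') = d2 T Q + d2 T Q' := by
  funext u v
  simp only [d2, Pi.add_apply]
  split_ifs <;> simp [Finset.sum_add_distrib]

theorem d2_zero : d2 T 0 = 0 := by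
  funext u v
  simp [d2]

theorem d2_congr (h : ∀ t ∈ T, Q t = Q' t) : d2 T Q = d2 T Q' := by
  funext u v
  exact if_congr Iff.rfl rfl (Finset.sum_congr rfl fun t ht => h t (Finset.mem_filter.1 ht).1)

theorem on_d2 (h : ∀ t ∈ T, Q t ≠ 0 → ∀ v ∈ t, v ∈ A) : On T A (d2 T Q) := by
  refine ⟨fun u v => if_congr eq_comm rfl (by simp only [and_comm]), fun u v h0 => ?_⟩
  obtain ⟨h1, h2⟩ := ite_ne_left_iff.1 h0
  obtain ⟨t, h3, h4⟩ := Finset.exists_ne_zero_of_sum_ne_zero h2.symm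
  obtain ⟨h5, h6, h7⟩ := Finset.mem_filter.1 h3
  exact ⟨h t h5 h4 u h6, h t h5 h4 v h7, h1, t, h5, h6, h7⟩

theorem d1_d2 (hT : IsSurf T) (Q : Finset V → ZMod 2) : d1 (d2 T Q) = 0 := by
  funext v
  have h1 : ∀ u, d2 T Q u v = ∑ t ∈ T, if v ∈ t then if u ∈ t.erase v then Q t else 0 else 0 :=
    fun u => by
      by_cases h : u = v <;> simp [d2, h, Finset.sum_filter, ite_and, and_comm (a := u ∈ _)]
  simp only [d1, h1]
  rw [Finset.sum_comm]
  refine Finset.sum_eq_zero fun t ht => ?_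
  by_cases h : v ∈ t
  · simp only [h, if_true]
    rw [Finset.sum_ite_mem, Finset.univ_inter, Finset.sum_const, Finset.card_erase_of_mem h,
      hT.card t ht, two_nsmul]
    exact CharTwo.add_self_eq_zero _
  · simp only [h, ↓ reduceIte, Finset.sum_const_zero]

theorem d2_tri (hT : IsSurf T) {a b c : V} (h : {a, b, c} ∈ T) :
    d2 T (Pi.single {a, b, c} 1) = edge a b + edge b c + edge c a := by
  have h1 := hT.card _ h
  have h2 : a ≠ b := by
    rintro rfl
    exact absurd (Finset.card_le_two (a := a) (b := c)) (by simp at h1; omega)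
  have h3 : b ≠ c := by
    rintro rfl
    exact absurd (Finset.card_le_two (a := a) (b := b)) (by simp at h1; omega)
  have h4 : c ≠ a := by
    rintro rfl
    exact absurd (Finset.card_le_two (a := c) (b := b))
      (by rw [Finset.pair_comm b c, Finset.insert_idem] at h1; omega)
  funext u v
  simp only [d2, Finset.sum_pi_single', Finset.mem_filter, h, true_and, edge, Pi.add_apply,
    Finset.mem_insert, Finset.mem_singleton]
  have h5 := h2.symm
  have h6 := h3.symm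
  have h7 := h4.symm
  by_cases u1 : u = a <;> by_cases u2 : u = b <;> by_cases u3 : u = c <;> by_cases v1 : v = a <;>
    by_cases v2 : v = b <;> by_cases v3 : v = c <;> simp_all

theorem Jn.fill (h : Jn T A x y) : ∃ z, On T A z ∧ d1 z = ends x y := by
  obtain ⟨h1, h2⟩ := h
  induction h2 with
  | refl => exact ⟨0, On.zero, (ends_self x).symm ▸ funext fun v => Finset.sum_const_zero⟩
  | tail h3 h ih =>
    obtain ⟨z, h4, h5⟩ := ih
    exact ⟨_, h4.add (on_edge h.2 (Jn.right ⟨h1, h3⟩) h.1), by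
      rw [d1_add, h5, d1_edge, ends_add]⟩

theorem Conn.fill (h : Conn T A) {σ : V → ZMod 2} (h1 : ∀ v, σ v ≠ 0 → v ∈ A)
    (h2 : ∑ v, σ v = 0) : ∃ z, On T A z ∧ d1 z = σ := by
  have h0 : d1 (0 : V → V → ZMod 2) = 0 := funext fun v => Finset.sum_const_zero
  by_cases h3 : σ = 0
  · exact ⟨0, On.zero, h3 ▸ h0⟩
  obtain ⟨x, hx⟩ := Function.ne_iff.1 h3
  have h4 : ∀ v, ∃ z, On T A z ∧ d1 z = σ v • ends x v := fun v => by
    by_cases h5 : σ v = 0
    · exact ⟨0, On.zero, by rw [h5, zero_smul, h0]⟩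
    · have h6 : ∀ s : ZMod 2, s ≠ 0 → s = 1 := by decide
      rw [h6 _ h5, one_smul]
      exact (h x (h1 x hx) v (h1 v h5)).fill
  choose c h5 h6 using h4
  refine ⟨∑ v, c v, On.sum fun v _ => h5 v, ?_⟩
  simp only [d1_sum, h6, ends, smul_add, Finset.sum_add_distrib, ← Finset.sum_smul, h2, zero_smul,
    zero_add]
  funext w
  simp only [Finset.sum_apply, Pi.smul_apply, Pi.single_apply, smul_eq_mul, mul_ite, mul_one, mul_zero, Finset.sum_ite_eq, Finset.mem_univ, ↓ reduceIte]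

/-- An edge with an end off the boundary lies in exactly two triangles. -/
theorem two_tri (hT : IsSurf T) (h : Adj T u v) (hu : u ∉ Bd T) :
    ∃ t ∈ T, ∃ t' ∈ T, t ≠ t' ∧ T.filter (fun s => u ∈ s ∧ v ∈ s) = {t, t'} := by
  obtain ⟨h1, s, h2, h3⟩ := h
  have h4 := hT.two u v h1
  have h5 : deg T u v ≠ 1 := fun e => hu ⟨v, h1.symm, by simpa only [deg, and_comm] using e⟩
  have h6 : 0 < deg T u v := Finset.card_pos.2 ⟨s, Finset.mem_filter.2 ⟨h2, h3⟩⟩
  obtain ⟨t, t', h7, h8⟩ := Finset.card_eq_two.1 (show deg T u v = 2 by omega)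
  exact ⟨t, Finset.mem_of_mem_filter t (h8.ge (by simp)), t',
    Finset.mem_of_mem_filter t' (h8.ge (by simp)), h7, h8⟩

theorem status (hT : IsSurf T) (h : ∀ u, d2 T Q u v = 0) (ht : t ∈ T) (ht' : t' ∈ T) (hv : v ∈ t)
    (hv' : v ∈ t') : Q t = Q t' := by
  refine (hT.link v {s | Q s = Q t} (fun s hs s' hs' w h1 h2 h3 h4 h5 h6 => ?_) t ht t' ht' hv hv'
    rfl).symm
  by_cases e : s = s'
  · exact e ▸ h6
  have h7 := h w
  rw [d2, if_neg h1, ← Finset.eq_of_subset_of_card_le (s := {s, s'})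
    (by simp [Finset.insert_subset_iff, *]) ((hT.two w v h1).trans (Finset.card_pair e).ge),
    Finset.sum_pair e] at h7
  exact (CharTwo.add_eq_zero.1 h7).symm.trans h6

theorem status_bd (hT : IsSurf T) (h : ∀ u, d2 T Q u v = 0) (hb : v ∈ Bd T) (ht : t ∈ T)
    (hv : v ∈ t) : Q t = 0 := by
  obtain ⟨u, h1, h2⟩ := hb
  obtain ⟨s, h3⟩ := Finset.card_eq_one.1 h2
  obtain ⟨h4, -, h5⟩ := Finset.mem_filter.1 (h3 ▸ Finset.mem_singleton_self s)
  have h6 := h u
  rw [d2, if_neg h1, h3, Finset.sum_singleton] at h6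
  exact (status hT h ht h4 hv h5).trans h6

theorem status_jn (hT : IsSurf T) (h : ∀ v ∈ A, ∀ u, d2 T Q u v = 0) (hj : Jn T A x y)
    (ht : t ∈ T) (ht' : t' ∈ T) (hx : x ∈ t) (hy : y ∈ t') : Q t = Q t' := by
  obtain ⟨h1, h2⟩ := hj
  induction h2 generalizing t' with
  | refl => exact status hT (h x h1) ht ht' hx hy
  | tail _ h3 ih =>
    obtain ⟨h4, -, s, h5, h6, h7⟩ := h3
    exact (ih h5 h6).trans (status hT (h _ h4) h5 ht' h7 hy)

theorem d2_inj (hT : IsSurf T) (h : d2 T Q = d2 T Q') : ∀ t ∈ T, Q t = Q' t := by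
  intro t ht
  have h1 : ∀ v u, d2 T (Q + Q') u v = 0 := fun v u => by rw [d2_add, h, add_self1]; rfl
  obtain ⟨v, hv⟩ := Finset.card_pos.1 (show 0 < t.card by rw [hT.card t ht]; decide)
  obtain ⟨b, hb⟩ := hT.bd
  obtain ⟨s, h2, h3⟩ := hT.used b
  exact CharTwo.add_eq_zero.1 ((status_jn hT (fun v _ => h1 v) (hT.conn v trivial b trivial) ht h2
    hv h3).trans (status_bd hT (h1 b) hb h2 h3))

end

end Pool.Agent.MP_17e62b_gt.T55

end

section

/-!
Hulls, the chain lemma, small sets.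
-/

namespace Pool.Agent.MP_17e62b_gt.T55

open Set Metric Topology
open scoped InnerProductSpace Manifold

variable {V : Type} [Fintype V] [DecidableEq V] {T : Finset (Finset V)}

section
variable {A B C K K' O R R' U X : Set V} {a b u v w x y : V} {z z' : V → V → ZMod 2}
  {Q Q' : Finset V → ZMod 2} {t t' : Finset V}

theorem subset_hull : A ⊆ hull T R A := by
  exact fun _ hv ⟨_, _, h⟩ => h.1 hv

theorem hull_disj (h : Disjoint A R) : Disjoint (hull T R A) R := by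
  exact disjoint_left.2 fun v hv hr => hv ⟨v, hr, Jn.refl fun ha => disjoint_left.1 h ha hr⟩

theorem hull_adj (hv : v ∈ hull T R A) (hA : v ∉ A) (h : Adj T v w) : w ∈ hull T R A := by
  exact fun ⟨r, hr, hj⟩ => hv ⟨r, hr, ((Jn.refl (A := Aᶜ) hA).step hj.1 h).trans hj⟩

theorem hull_out (hv : v ∉ hull T R A) : ∃ r ∈ R, Jn T (hull T R A)ᶜ v r := by
  obtain ⟨r, hr, hj⟩ := not_not.1 hv
  exact ⟨r, hr, (conn_comp Aᶜ v v (Jn.refl hj.1) r hj).mono fun u hu h =>
    h ⟨r, hr, (Jn.symm hu).trans hj⟩⟩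

theorem hull_conn (hT : IsSurf T) (hR : R.Nonempty) (h : Conn T A) : Conn T (hull T R A) := by
  have h1 : ∀ v ∈ hull T R A, ∃ a ∈ A, Jn T (hull T R A) v a := fun v hv => by
    by_cases hA : v ∈ A
    · exact ⟨v, hA, Jn.refl hv⟩
    obtain ⟨r, hr⟩ := hR
    obtain ⟨u, w, h2, -, h3, h4⟩ := (hT.conn v trivial r trivial).exit (C := hull T R A \ A)
      ⟨hv, hA⟩ fun h => h.1 ⟨r, hr, Jn.refl h.2⟩
    have h5 := hull_adj h2.right.2.1 h2.right.2.2 h4
    exact ⟨w, by_contra fun h => h3 ⟨h5, h⟩, (h2.mono fun _ h => h.2.1).step h5 h4⟩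
  intro x hx y hy
  obtain ⟨a, ha, h2⟩ := h1 x hx
  obtain ⟨b, hb, h3⟩ := h1 y hy
  exact (h2.trans ((h a ha b hb).mono subset_hull)).trans h3.symm

theorem b1_eq (hT : IsSurf T) (h : d2 T Q = z) (hz : On T A z) (hj : Jn T Aᶜ x y) (ht : t ∈ T)
    (ht' : t' ∈ T) (hx : x ∈ t) (hy : y ∈ t') : Q t = Q t' :=
  status_jn (A := Aᶜ) hT (fun v hv u => by_contra fun e => hv (hz.2 u v (h ▸ e)).2.1) hj ht ht' hx hy

theorem acyc_sub (hT : IsSurf T) (hO : Acyc T O) (hA : A ⊆ O)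
    (h : ∀ v, v ∉ A → ∃ r, r ∉ O ∧ Jn T Aᶜ v r) : Acyc T A := by
  intro z hz
  obtain ⟨Q, h1, h2⟩ := hO z ⟨hz.1.mono hA, hz.2⟩
  refine ⟨Q, fun t ht h0 v hv => by_contra fun h3 => ?_, h2⟩
  obtain ⟨r, hr, hj⟩ := h v h3
  obtain ⟨t', ht', h4⟩ := hT.used r
  exact hr (h1 t' ht' (b1_eq hT h2 hz.1 hj ht ht' hv h4 ▸ h0) r h4)

theorem acyc_hull (hT : IsSurf T) (h : ∀ z, Cyc T (hull T R A) z → Bnd T R z) :
    Acyc T (hull T R A) := by
  intro z hz
  obtain ⟨Q, h1, h2⟩ := h z hz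
  refine ⟨Q, fun t ht h0 v hv => by_contra fun h3 => h0 ?_, h2⟩
  obtain ⟨r, hr, hj⟩ := hull_out h3
  obtain ⟨t', ht', h4⟩ := hT.used r
  exact (b1_eq hT h2 hz.1 hj ht ht' hv h4).trans (h1 t' ht' ⟨r, h4, hr⟩)

theorem Acyc.bnd (hO : Acyc T O) (hR : Disjoint O R) (hz : Cyc T O z) : Bnd T R z := by
  obtain ⟨Q, h1, h2⟩ := hO z hz
  exact ⟨Q, fun t ht ⟨v, hv, hr⟩ => by_contra fun h0 => disjoint_left.1 hR (h1 t ht h0 v hv) hr, h2⟩

theorem Bnd.zero : Bnd T R 0 := by
  exact ⟨0, fun _ _ _ => rfl, d2_zero⟩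

theorem Bnd.add (h : Bnd T R z) (h' : Bnd T R z') : Bnd T R (z + z') := by
  obtain ⟨Q, h1, rfl⟩ := h
  obtain ⟨Q', h2, rfl⟩ := h'
  exact ⟨Q + Q', fun t ht h => by rw [Pi.add_apply, h1 t ht h, h2 t ht h, add_zero], d2_add _ _⟩

theorem Bnd.grow (hT : IsSurf T) (h : Bnd T R z) (hz : On T A z)
    (hR : ∀ v ∈ R', ∃ r ∈ R, Jn T Aᶜ v r) : Bnd T R' z := by
  obtain ⟨Q, h1, h2⟩ := h
  refine ⟨Q, fun t ht ⟨v, hv, h3⟩ => ?_, h2⟩
  obtain ⟨r, hr, hj⟩ := hR v h3
  obtain ⟨t', ht', h4⟩ := hT.used r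
  exact (b1_eq hT h2 hz hj ht ht' hv h4).trans (h1 t' ht' ⟨r, h4, hr⟩)

theorem Nul.add (h : Nul T B z) (h' : Nul T B z') : Nul T B (z + z') := by
  obtain ⟨Q, b, h1, rfl⟩ := h
  obtain ⟨Q', b', h2, rfl⟩ := h'
  exact ⟨Q + Q', b + b', h1.add h2, by rw [d2_add, add_add_add_comm]⟩

theorem nul_d2 (Q : Finset V → ZMod 2) : Nul T B (d2 T Q) := by
  exact ⟨Q, 0, On.zero, (add_zero _).symm⟩

theorem On.nul (h : On T B z) : Nul T B z := by
  exact ⟨0, z, h, by rw [d2_zero, zero_add]⟩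

theorem Nul.mono (h : Nul T A z) (hAB : A ⊆ B) : Nul T B z := by
  obtain ⟨Q, b, h1, e⟩ := h
  exact ⟨Q, b, h1.mono hAB, e⟩

omit [Fintype V] [DecidableEq V] in
theorem b1_self (σ : V → ZMod 2) : σ + σ = 0 := funext fun _ => CharTwo.add_self_eq_zero _

/-- The chain lemma. Plan: let `z k` be the part of `z` on edges whose ends have level at most
`k`; its boundary is an even 0-chain in `D k`, filled by `p k`; `z (k+1) + p (k+1) + z k + p k` is
a cycle in `D k ∪ D (k+1)`. -/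
theorem chain_lemma {G : (V → V → ZMod 2) → Prop} (h0 : G 0)
    (hadd : ∀ z z', G z → G z' → G (z + z')) (lev : V → ℕ) (D : ℕ → Set V)
    (h1 : ∀ u ∈ A, ∀ v ∈ A, Adj T u v → lev u ≤ lev v + 1) (h2 : ∀ v ∈ A, v ∈ D (lev v))
    (h3 : ∀ k, Conn T (D k)) (h4 : ∀ k z, Cyc T (D k ∪ D (k + 1)) z → G z) (hz : Cyc T A z) :
    G z := by
  have _ := h0
  obtain ⟨c, hc⟩ : ∃ c : ℕ → V → V → ZMod 2,
      ∀ k u v, c k u v = if lev u ≤ k ∧ lev v ≤ k then z u v else 0 := ⟨_, fun _ _ _ => rfl⟩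
  have c1 : ∀ k u v, c k u v = c k v u := fun k u v => by
    rw [hc, hc, hz.1.1 u v]
    exact if_congr and_comm rfl rfl
  have c2 : ∀ k u v, c k u v ≠ 0 → z u v ≠ 0 ∧ lev u ≤ k ∧ lev v ≤ k := fun k u v h => by
    rw [hc] at h
    split_ifs at h with h5
    exacts [⟨h, h5⟩, absurd rfl h]
  have c3 : ∀ k, On T A (c k) := fun k => ⟨c1 k, fun u v h => hz.1.2 u v (c2 k u v h).1⟩
  have c4 : ∀ k v, d1 (c k) v ≠ 0 → v ∈ D k := fun k v h => by
    obtain ⟨u, -, hu⟩ := Finset.exists_ne_zero_of_sum_ne_zero h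
    obtain ⟨h5, -, h6⟩ := c2 k u v hu
    have h7 := (hz.1.2 u v h5).2.1
    rcases h6.eq_or_lt with e | h8
    · exact e ▸ h2 v h7
    refine absurd (Eq.trans (Finset.sum_congr rfl fun w _ => ?_) (congrFun hz.2 v)) h
    rw [hc]
    split_ifs with h9
    · rfl
    by_contra h10
    obtain ⟨a1, a2, a3⟩ := hz.1.2 w v (Ne.symm h10)
    exact h9 ⟨(h1 w a1 v a2 a3).trans h8, h6⟩
  have key : ∀ k p, On T (D k) p → d1 p = d1 (c k) → G (c k + p) := by
    intro k
    induction k with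
    | zero =>
      intro p hp e
      refine h4 0 _ ⟨On.mono (On.add ⟨c1 0, fun u v h => ?_⟩ hp) subset_union_left, ?_⟩
      · obtain ⟨h5, h6, h7⟩ := c2 0 u v h
        obtain ⟨a1, a2, a3⟩ := hz.1.2 u v h5
        exact ⟨Nat.le_zero.1 h6 ▸ h2 u a1, Nat.le_zero.1 h7 ▸ h2 v a2, a3⟩
      · rw [d1_add, e, b1_self]
    | succ k ih =>
      intro p hp e
      obtain ⟨q, hq, e'⟩ := (h3 k).fill (c4 k) (c3 k).sum_d1
      have h5 : On T (D k ∪ D (k + 1)) (c (k + 1) + c k) := by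
        refine ⟨fun u v => by simp only [Pi.add_apply, c1 _ u v], fun u v h => ?_⟩
        have h6 : z u v ≠ 0 ∧ (lev u ≤ k + 1 ∧ lev v ≤ k + 1) ∧ ¬ (lev u ≤ k ∧ lev v ≤ k) := by
          simp only [Pi.add_apply, hc] at h
          split_ifs at h with a1 a2 a2
          · exact absurd (CharTwo.add_self_eq_zero _) h
          · exact ⟨by simpa using h, a1, a2⟩
          · omega
          · exact absurd (add_zero _) h
        obtain ⟨a1, a2, a3⟩ := hz.1.2 u v h6.1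
        have a4 := h1 u a1 v a2 a3
        have a5 := h1 v a2 u a1 a3.symm
        have a6 : ∀ w ∈ A, lev w = k ∨ lev w = k + 1 → w ∈ D k ∪ D (k + 1) := fun w hw h =>
          Or.imp (fun e : lev w = k => e ▸ h2 w hw) (fun e : lev w = k + 1 => e ▸ h2 w hw) h
        exact ⟨a6 u a1 (by omega), a6 v a2 (by omega), a3⟩
      have h6 := hadd _ _ (ih q hq e') (h4 k (c (k + 1) + c k + q + p)
        ⟨(h5.add (hq.mono subset_union_left)).add (hp.mono subset_union_right), by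
          rw [d1_add, d1_add, d1_add, e, e', add_assoc (d1 _), b1_self, add_zero, b1_self]⟩)
      have e2 : c k + q + (c (k + 1) + c k + q + p) = c (k + 1) + p + (c k + q + (c k + q)) := by
        abel
      rwa [e2, add_self1, add_zero] at h6
  have e : c (Finset.univ.sup lev) = z := funext fun u => funext fun v => by
    rw [hc, if_pos ⟨Finset.le_sup (Finset.mem_univ u), Finset.le_sup (Finset.mem_univ v)⟩]
  have h5 := key (Finset.univ.sup lev) 0 On.zero (by
    rw [e, hz.2]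
    exact funext fun v => Finset.sum_eq_zero fun _ _ => rfl)
  rwa [e, add_zero] at h5

variable {n : ℕ} {F : V → EuclideanSpace ℝ (Fin n)} {ω r r' ρ : ℝ}

theorem Pc.mono (h : Pc T F U r K) {U' : Set V} (hU : K ⊆ U') (hr : r ≤ r') : Pc T F U' r' K := by
  exact ⟨hU, h.2.1, fun u hu v hv => (h.2.2 u hu v hv).trans hr⟩

theorem pc_single (hv : v ∈ U) (hr : 0 ≤ r) : Pc T F U r {v} := by
  refine ⟨singleton_subset_iff.2 hv, ?_, ?_⟩
  · rintro _ rfl _ rfl
    exact Jn.refl rfl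
  · rintro _ rfl _ rfl
    rwa [dist_self]

omit [Fintype V] [DecidableEq V] in
theorem b1_small (h : Small F r K) (h' : Small F r' K') (hx : x ∈ K) (hy : y ∈ K')
    (e : dist (F x) (F y) ≤ ω) (h0 : 0 ≤ ω) : Small F (r + r' + ω) (K ∪ K') := by
  have h1 : 0 ≤ r := dist_nonneg.trans (h x hx x hx)
  have h2 : 0 ≤ r' := dist_nonneg.trans (h' y hy y hy)
  have h3 : ∀ u ∈ K, ∀ v ∈ K', dist (F u) (F v) ≤ r + r' + ω := fun u hu v hv => by
    linarith [dist_triangle4 (F u) (F x) (F y) (F v), h u hu x hx, h' y hy v hv]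
  rintro u (hu | hu) v (hv | hv)
  · linarith [h u hu v hv]
  · exact h3 u hu v hv
  · exact dist_comm (F u) (F v) ▸ h3 v hv u hu
  · linarith [h' u hu v hv]

theorem Pc.union (h : Pc T F U r K) (h' : Pc T F U r' K') (hn : (K ∩ K').Nonempty) :
    Pc T F U (r + r') (K ∪ K') := by
  refine ⟨union_subset h.1 h'.1, h.2.1.union h'.2.1 (.inl hn), ?_⟩
  obtain ⟨x, h1, h2⟩ := hn
  simpa using b1_small h.2.2 h'.2.2 h1 h2 (dist_self _).le le_rfl

theorem Pc.union_adj (hF : Sad T F ω) (h : Pc T F U r K) (h' : Pc T F U r' K')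
    (hn : Tch T K K') : Pc T F U (r + r' + ω) (K ∪ K') := by
  refine ⟨union_subset h.1 h'.1, h.2.1.union h'.2.1 (.inr hn), ?_⟩
  obtain ⟨x, h1, y, h2, h3⟩ := hn
  exact b1_small h.2.2 h'.2.2 h1 h2 (hF.jump x y h3) hF.nonneg

theorem nb_sub : nb T F U r X ⊆ U := by
  exact fun _ ⟨_, h, hv, _⟩ => h.1 hv

theorem sub_nb (hX : X ⊆ U) (hr : 0 ≤ r) : X ⊆ nb T F U r X := by
  exact fun v hv => ⟨{v}, pc_single (hX hv) hr, rfl, v, rfl, hv⟩

theorem nb_conn (hX : X ⊆ U) (hr : 0 ≤ r) (h : Conn T X) : Conn T (nb T F U r X) := by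
  have h1 : ∀ v ∈ nb T F U r X, ∃ x ∈ X, Jn T (nb T F U r X) v x := fun v ⟨K, hK, hv, x, hx⟩ =>
    ⟨x, hx.2, (hK.2.1 v hv x hx.1).mono fun u hu => ⟨K, hK, hu, x, hx⟩⟩
  intro x hx y hy
  obtain ⟨a, ha, h2⟩ := h1 x hx
  obtain ⟨b, hb, h3⟩ := h1 y hy
  exact (h2.trans ((h a ha b hb).mono (sub_nb hX hr))).trans h3.symm

theorem nb_small (hr : 0 ≤ r) (h : Small F ρ X) (h0 : 0 ≤ ρ) :
    Small F (ρ + 2 * r) (nb T F U r X) := by
  have _ := hr
  have _ := h0
  rintro u ⟨K, hK, hu, x, hx⟩ v ⟨K', hK', hv, y, hy⟩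
  linarith [dist_triangle4 (F u) (F x) (F y) (F v), hK.2.2 u hu x hx.1, h x hx.2 y hy.2,
    hK'.2.2 y hy.1 v hv]

/-- The maximum principle for the distance from a point. -/
theorem Sad.dist_le (hT : IsSurf T) (hF : Sad T F ω) (hA : Disjoint A (Bd T))
    {p : EuclideanSpace ℝ (Fin n)} (h : ∀ v ∈ A, ∀ w, w ∉ A → Adj T v w → dist (F w) p ≤ r) :
    ∀ v ∈ A, dist (F v) p ≤ r + ω := by
  intro v hv
  obtain ⟨b, hb⟩ := hT.bd
  obtain ⟨u, w, h1, -, h2, h3⟩ := (hT.conn v trivial b trivial).exit (C := A) hv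
    fun e => disjoint_left.1 hA e hb
  have h4 : 0 ≤ r + ω := add_nonneg (dist_nonneg.trans (h u h1.right.2 w h2 h3)) hF.nonneg
  have h5 := hF.maxp A (F v - p) (⟪F v - p, p⟫_ℝ + r * ‖F v - p‖) hA (fun x hx y hy ha => by
    have a1 := real_inner_le_norm (F v - p) (F y - p)
    have a2 := h x hx y hy ha
    rw [dist_eq_norm] at a2
    rw [inner_sub_right] at a1
    linarith [mul_le_mul_of_nonneg_left a2 (norm_nonneg (F v - p))]) v hv
  have h6 := real_inner_self_eq_norm_mul_norm (F v - p)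
  rw [inner_sub_right] at h6
  rw [dist_eq_norm]
  rcases (norm_nonneg (F v - p)).eq_or_lt with e | e
  · exact e ▸ h4
  · exact le_of_mul_le_mul_right (by linarith) e

theorem hull_small (hT : IsSurf T) (hF : Sad T F ω) (hR : Bd T ⊆ R) (h : Small F ρ A) :
    Small F (ρ + 2 * ω) (hull T R A) := by
  have h1 : Disjoint (hull T R A \ A) (Bd T) :=
    disjoint_left.2 fun v hv hb => hv.1 ⟨v, hR hb, Jn.refl hv.2⟩
  have h2 : ∀ (p : EuclideanSpace ℝ (Fin n)) (s : ℝ), (∀ a ∈ A, dist (F a) p ≤ s) →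
      ∀ v ∈ hull T R A, dist (F v) p ≤ s + ω := fun p s hs v hv => by
    by_cases hA : v ∈ A
    · exact (hs v hA).trans (le_add_of_nonneg_right hF.nonneg)
    exact hF.dist_le hT h1 (fun x hx y hy ha => hs y
      (by_contra fun e => hy ⟨hull_adj hx.1 hx.2 ha, e⟩)) v ⟨hv, hA⟩
  intro u hu v hv
  have h3 := h2 (F v) (ρ + ω) (fun a ha => by
    rw [dist_comm]
    exact h2 (F a) ρ (fun b hb => h b hb a ha) v hv) u hu
  linarith

end

end Pool.Agent.MP_17e62b_gt.T55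

end

section

/-!
The frontier of a connected acyclic set is one circle; sides.
-/

namespace Pool.Agent.MP_17e62b_gt.T55

open Set Metric Topology
open scoped InnerProductSpace Manifold

variable {V : Type} [Fintype V] [DecidableEq V] {T : Finset (Finset V)}

variable {W K S U : Set V} {L L' : Finset V → ZMod 2} {g p : V → V → ZMod 2}
  {w v w₀ v₀ w₁ v₁ : V} {t t' : Finset V}

omit [Fintype V] [DecidableEq V] in
theorem b2_right {A : Set (Finset V)} (h : FJn W A t t') : t' ∈ A := by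
  obtain ⟨h0, h⟩ := h
  induction h with
  | refl => exact h0
  | tail _ h _ => exact h.1

omit [Fintype V] [DecidableEq V] in
theorem b2_step {A : Set (Finset V)} {s : Finset V} (h : FJn W A t t') (hs : s ∈ A) (hw : w ∈ W)
    (hv : v ∉ W) (h1 : w ∈ t' ∧ v ∈ t') (h2 : w ∈ s ∧ v ∈ s) : FJn W A t s :=
  ⟨h.1, h.2.tail ⟨hs, w, hw, v, hv, h1.1, h1.2, h2.1, h2.2⟩⟩

theorem FJn.trans {A : Set (Finset V)} {t'' : Finset V} (h : FJn W A t t') (h' : FJn W A t' t'') :
    FJn W A t t'' :=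
  ⟨h.1, h.2.trans h'.2⟩

theorem FJn.symm {A : Set (Finset V)} (h : FJn W A t t') : FJn W A t' t := by
  obtain ⟨h0, h⟩ := h
  induction h with
  | refl => exact ⟨h0, .refl⟩
  | @tail a b h1 h2 ih =>
    obtain ⟨hb, x, hx, y, hy, xa, ya, xb, yb⟩ := h2
    exact FJn.trans (b2_step ⟨hb, .refl⟩ ih.1 hx hy ⟨xb, yb⟩ ⟨xa, ya⟩) ih

theorem FJn.mono {A A' : Set (Finset V)} (h : FJn W A t t') (hA : A ⊆ A') : FJn W A' t t' := by
  obtain ⟨h0, h⟩ := h
  refine ⟨hA h0, ?_⟩
  induction h with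
  | refl => exact .refl
  | tail _ h ih => exact ih.tail ⟨hA h.1, h.2⟩

theorem b2_self (x : ZMod 2) : x + x = 0 := by revert x; decide

theorem b2_eq {x y : ZMod 2} (h : x + y = 0) : x = y := by revert x y; decide

theorem b2_one {x : ZMod 2} (h : x ≠ 0) : x = 1 := by revert x; decide

omit [Fintype V] in
theorem b2_symm (Q : Finset V → ZMod 2) (a b : V) : d2 T Q a b = d2 T Q b a := by
  unfold d2
  by_cases h : a = b
  · simp [h]
  · rw [if_neg h, if_neg (Ne.symm h)]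
    simp only [and_comm]

omit [Fintype V] in
theorem b2_esymm (a b x y : V) : edge a b x y = edge a b y x := by
  unfold edge
  refine if_congr ?_ rfl rfl
  tauto

omit [Fintype V] in
theorem b2_edge (hw : w ∈ W) (hv : v ∉ W) {a b : V} (ha : a ∈ W) :
    edge w v a b = if (a, b) = (w, v) then 1 else 0 := by
  unfold edge
  refine if_congr ?_ rfl rfl
  have h1 : w ≠ v := fun h => hv (h ▸ hw)
  have h2 : a ≠ v := fun h => hv (h ▸ ha)
  simp only [Prod.mk.injEq]
  tauto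

omit [Fintype V] in
theorem b2_edge0 (hv : v ∉ W) {a b : V} (ha : a ∈ W) (hb : b ∈ W) : edge w v a b = 0 := by
  unfold edge
  have h1 : b ≠ v := fun h => hv (h ▸ hb)
  have h2 : a ≠ v := fun h => hv (h ▸ ha)
  rw [if_neg]
  tauto

/-- The two cases at an edge that leaves `W`. -/
theorem b2_cases (hT : IsSurf T) (hb : Disjoint W (Bd T)) (hw : w ∈ W) (hv : v ∉ W) :
    ((∀ s ∈ T, ¬ (w ∈ s ∧ v ∈ s)) ∧ ∀ Q, d2 T Q w v = 0) ∨
    ∃ a b, (a ∈ T ∧ w ∈ a ∧ v ∈ a) ∧ (b ∈ T ∧ w ∈ b ∧ v ∈ b) ∧ a ≠ b ∧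
      (∀ s ∈ T, w ∈ s ∧ v ∈ s → s = a ∨ s = b) ∧ ∀ Q, d2 T Q w v = Q a + Q b := by
  have h1 : w ≠ v := fun h => hv (h ▸ hw)
  by_cases h : ∃ s ∈ T, w ∈ s ∧ v ∈ s
  · right
    obtain ⟨a, ha, b, hb', hab, e⟩ := two_tri hT ⟨h1, h⟩ (Set.disjoint_left.1 hb hw)
    have hm : ∀ s, s ∈ T ∧ w ∈ s ∧ v ∈ s ↔ s = a ∨ s = b := fun s => by
      have := Finset.ext_iff.1 e s
      simpa using this
    refine ⟨a, b, (hm a).2 (.inl rfl), (hm b).2 (.inr rfl), hab,
      fun s hs h => (hm s).1 ⟨hs, h⟩, fun Q => ?_⟩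
    unfold d2
    rw [if_neg h1, e, Finset.sum_pair hab]
  · left
    refine ⟨fun s hs h' => h ⟨s, hs, h'⟩, fun Q => ?_⟩
    unfold d2
    rw [if_neg h1]
    exact Finset.sum_eq_zero fun s hs => absurd ⟨s, Finset.mem_filter.1 hs⟩ h

open Classical in
theorem b2_on (Q : Finset V → ZMod 2) :
    On T W fun a b => if a ∈ W ∧ b ∈ W then d2 T Q a b else 0 := by
  refine ⟨fun a b => ?_, fun a b h => ?_⟩
  · simp only [and_comm, b2_symm Q a b]
  · by_cases h' : a ∈ W ∧ b ∈ W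
    · simp only [if_pos h'] at h
      exact ⟨h'.1, h'.2, ((on_d2 (A := univ) fun _ _ _ _ _ => trivial).2 a b h).2.2⟩
    · simp only [if_neg h'] at h
      exact absurd rfl h

open Classical in
/-- Parity: the boundary of a 2-chain has an even number of edges that leave `W`. -/
theorem b2_sum (hT : IsSurf T) (Q : Finset V → ZMod 2) :
    ∑ a, ∑ b, (if a ∈ W ∧ b ∉ W then d2 T Q a b else 0) = 0 := by
  have h1 := (b2_on (T := T) (W := W) Q).sum_d1
  have h2 : ∀ a, ∑ b, (if a ∈ W ∧ b ∉ W then d2 T Q a b else 0) =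
      d1 (fun a b => if a ∈ W ∧ b ∈ W then d2 T Q a b else 0) a := fun a => by
    unfold d1
    by_cases ha : a ∈ W
    · apply b2_eq
      rw [← Finset.sum_add_distrib]
      refine Eq.trans (Finset.sum_congr rfl fun b _ => ?_) (congrFun (d1_d2 hT Q) a)
      by_cases hb : b ∈ W <;> simp [ha, hb, b2_symm Q a b]
    · simp only [ha, false_and, ↓ reduceIte, Finset.sum_const_zero, and_false]
  rw [Finset.sum_congr rfl fun a _ => h2 a, h1]

open Classical in
theorem b2_sum_edge (hw : w ∈ W) (hv : v ∉ W) (c : ZMod 2) :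
    ∑ a, ∑ b, (if a ∈ W ∧ b ∉ W then edge w v a b * c else 0) = c := by
  have h : ∀ a b, (if a ∈ W ∧ b ∉ W then edge w v a b * c else 0) =
      if a = w then if b = v then c else 0 else 0 := fun a b => by
    by_cases h : a ∈ W ∧ b ∉ W
    · rw [if_pos h, b2_edge hw hv h.1]
      by_cases h1 : a = w <;> by_cases h2 : b = v <;> simp [h1, h2]
    · rw [if_neg h]
      by_cases h1 : a = w <;> by_cases h2 : b = v <;> simp_all
  simp only [h, Finset.sum_ite_irrel, Finset.sum_ite_eq', Finset.mem_univ, ↓ reduceIte, Finset.sum_const_zero]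

omit [Fintype V] in
theorem b2_add {g' : V → V → ZMod 2} (h : Side T W L g) (h' : Side T W L' g') :
    Side T W (L + L') (g + g') := by
  refine ⟨fun t ht h0 => ?_, fun a ha b hb => ?_⟩
  · by_cases h1 : L t = 0
    · exact h'.1 t ht fun h2 => h0 (by simp [h1, h2])
    · exact h.1 t ht h1
  · have := h.2 a ha b hb
    have := h'.2 a ha b hb
    unfold d2 at *
    split_ifs at * <;> simp_all [Finset.sum_add_distrib]

omit [Fintype V] in
/-- A triangle has at most two edges that leave `W`. -/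
theorem b2_two (hc : t.card = 3) (h0 : w₀ ∈ W) (h0' : v₀ ∉ W) (h1 : w₁ ∈ W) (h1' : v₁ ∉ W)
    (hw : w ∈ W) (hv : v ∉ W) (m0 : w₀ ∈ t ∧ v₀ ∈ t) (m1 : w₁ ∈ t ∧ v₁ ∈ t) (m : w ∈ t ∧ v ∈ t)
    (hne : (w₀, v₀) ≠ (w₁, v₁)) : (w, v) = (w₀, v₀) ∨ (w, v) = (w₁, v₁) := by
  have key : ∀ a b c d, a ∈ t → b ∈ t → c ∈ t → d ∈ t → a ≠ b → a ≠ c → b ≠ c →
      d = a ∨ d = b ∨ d = c := by
    intro a b c d ha hb hc' hd ab ac bc
    have : ({a, b, c} : Finset V) = t := by
      apply Finset.eq_of_subset_of_card_le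
      · intro x hx
        simp only [Finset.mem_insert, Finset.mem_singleton] at hx
        rcases hx with rfl | rfl | rfl <;> assumption
      · rw [hc, Finset.card_eq_three.2 ⟨a, b, c, ab, ac, bc, rfl⟩]
    rw [← this] at hd
    simpa using hd
  have n : ∀ a b, a ∈ W → b ∉ W → a ≠ b := fun a b ha hb h => hb (h ▸ ha)
  simp only [Prod.mk.injEq, ne_eq] at hne ⊢
  by_cases e : w₀ = w₁
  · have e' : v₀ ≠ v₁ := fun h => hne ⟨e, h⟩
    have k1 := key w₀ v₀ v₁ w m0.1 m0.2 m1.2 m.1 (n _ _ h0 h0') (n _ _ h0 h1') e'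
    have k2 := key w₀ v₀ v₁ v m0.1 m0.2 m1.2 m.2 (n _ _ h0 h0') (n _ _ h0 h1') e'
    have := n _ _ hw h0'
    have := n _ _ hw h1'
    have := (n _ _ h0 hv).symm
    subst e
    tauto
  · have k0 := key w₀ w₁ v₀ v₁ m0.1 m1.1 m0.2 m1.2 e (n _ _ h0 h0') (n _ _ h1 h0')
    have k1 := key w₀ w₁ v₀ w m0.1 m1.1 m0.2 m.1 e (n _ _ h0 h0') (n _ _ h1 h0')
    have k2 := key w₀ w₁ v₀ v m0.1 m1.1 m0.2 m.2 e (n _ _ h0 h0') (n _ _ h1 h0')
    have e1 : v₁ = v₀ := (k0.resolve_left (n _ _ h0 h1').symm).resolve_left (n _ _ h1 h1').symm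
    have e2 : v = v₀ := (k2.resolve_left (n _ _ h0 hv).symm).resolve_left (n _ _ h1 hv).symm
    have := n _ _ hw h0'
    subst e1 e2
    tauto

theorem b2_tri (hT : IsSurf T) (ht : t ∈ T) (h0 : w₀ ∈ W) (h0' : v₀ ∉ W) (h1 : w₁ ∈ W)
    (h1' : v₁ ∉ W) (m0 : w₀ ∈ t ∧ v₀ ∈ t) (m1 : w₁ ∈ t ∧ v₁ ∈ t) :
    ∃ L, Side T W L (edge w₀ v₀ + edge w₁ v₁) := by
  by_cases hne : (w₀, v₀) = (w₁, v₁)
  · obtain ⟨rfl, rfl⟩ := Prod.mk.inj hne
    refine ⟨0, fun _ _ h => absurd rfl h, fun a _ b _ => ?_⟩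
    rw [add_self1, d2_zero]
  refine ⟨Pi.single t 1, fun s hs h => ?_, fun a ha b hb => ?_⟩
  · obtain rfl : s = t := by
      by_contra h'
      exact h (Pi.single_eq_of_ne h' _)
    exact ⟨hs, ⟨w₀, m0.1, h0⟩, v₀, m0.2, h0'⟩
  · have hab : a ≠ b := fun h => hb (h ▸ ha)
    have e : d2 T (Pi.single t 1) a b = if a ∈ t ∧ b ∈ t then 1 else 0 := by
      unfold d2
      rw [if_neg hab, Finset.sum_pi_single']
      simp [ht]
    rw [e, Pi.add_apply, Pi.add_apply, b2_edge h0 h0' ha, b2_edge h1 h1' ha]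
    by_cases m : a ∈ t ∧ b ∈ t
    · rw [if_pos m]
      rcases b2_two (hT.card t ht) h0 h0' h1 h1' ha hb m0 m1 m hne with h | h
      · rw [if_pos h, if_neg (h ▸ hne), add_zero]
      · rw [if_pos h, if_neg (h ▸ Ne.symm hne), zero_add]
    · rw [if_neg m, if_neg, if_neg, add_zero]
      · intro h
        obtain ⟨rfl, rfl⟩ := Prod.mk.inj h
        exact m m1
      · intro h
        obtain ⟨rfl, rfl⟩ := Prod.mk.inj h
        exact m m0

/-- Plan: the chain `z` of the inner edges of the triangles of `L` (the restriction of `d2 T L` to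
edges inside `W`) is closed up by `p` to a cycle of `W`; add its filling to `L`. -/
theorem side_ext (hT : IsSurf T) (ha : Acyc T W) (hL : Side T W L (edge w₀ v₀ + edge w₁ v₁))
    (h0 : w₀ ∈ W) (h0' : v₀ ∉ W) (h1 : w₁ ∈ W) (h1' : v₁ ∉ W) (hp : On T W p)
    (hd : d1 p = ends w₀ w₁) :
    ∃ Q, (∀ t, Mixed T W t → Q t = L t) ∧
      ∀ w ∈ W, ∀ u, d2 T Q u w = (p + edge w₀ v₀ + edge w₁ v₁) u w := by
  classical
  have hz := b2_on (T := T) (W := W) L
  set z : V → V → ZMod 2 := fun a b => if a ∈ W ∧ b ∈ W then d2 T L a b else 0 with hzd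
  have e : ∀ w ∈ W, ∀ u, z u w = (d2 T L + (edge w₀ v₀ + edge w₁ v₁)) u w := fun w hw u => by
    by_cases hu : u ∈ W
    · simp [hzd, hu, hw, b2_edge0 h0' hu hw, b2_edge0 h1' hu hw]
    · have := hL.2 w hw u hu
      simp only [Pi.add_apply] at this ⊢
      rw [b2_symm L u w, this, b2_esymm w₀ v₀ u w, b2_esymm w₁ v₁ u w, b2_self]
      simp [hzd, hu]
  have hc : d1 (z + p) = 0 := by
    funext a
    by_cases ha' : a ∈ W
    · have e1 : d1 z a = d1 (d2 T L + (edge w₀ v₀ + edge w₁ v₁)) a :=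
        Finset.sum_congr rfl fun u _ => e a ha' u
      have n0 : a ≠ v₀ := fun h => h0' (h ▸ ha')
      have n1 : a ≠ v₁ := fun h => h1' (h ▸ ha')
      rw [d1_add, Pi.add_apply, e1, d1_add, d1_add, d1_d2 hT, d1_edge, d1_edge, hd]
      simp only [ends, Pi.add_apply, Pi.zero_apply, Pi.single_eq_of_ne n0, Pi.single_eq_of_ne n1,
        add_zero, zero_add, b2_self]
    · exact (hz.add hp).d1_mem ha'
  obtain ⟨Q, hQ, hQ'⟩ := ha _ ⟨hz.add hp, hc⟩
  refine ⟨L + Q, fun t ht => ?_, fun w hw u => ?_⟩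
  · obtain ⟨ht, -, b, hb, hb'⟩ := ht
    have : Q t = 0 := by
      by_contra h
      exact hb' (hQ t ht h b hb)
    simp [this]
  · rw [d2_add, hQ']
    simp only [Pi.add_apply, e w hw u]
    linear_combination b2_self (d2 T L u w)

theorem side_const (hT : IsSurf T) (hc : Conn T W) (ha : Acyc T W) (hL : Side T W L 0)
    (ht : Mixed T W t) (ht' : Mixed T W t') : L t = L t' := by
  obtain ⟨a, ha1, ha2⟩ := ht.2.1
  obtain ⟨b, -, hb2⟩ := ht.2.2
  obtain ⟨c, hc1, hc2⟩ := ht'.2.1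
  obtain ⟨Q, hQ, hQ'⟩ := side_ext (p := 0) hT ha (by rwa [add_self1]) ha2 hb2 ha2 hb2 On.zero
    (by rw [ends_self]; funext x; simp only [d1, Pi.zero_apply, Finset.sum_const_zero])
  rw [← hQ t ht, ← hQ t' ht']
  refine status_jn hT (fun x hx u => ?_) (hc a ha2 c hc2) ht.1 ht'.1 ha1 hc1
  rw [hQ' x hx u, zero_add, add_self1]
  rfl

theorem side_same (hT : IsSurf T) (hb : Disjoint W (Bd T)) (hL : Side T W L g) (hw : w ∈ W)
    (hv : v ∉ W) (ht : t ∈ T) (ht' : t' ∈ T) (h1 : w ∈ t ∧ v ∈ t) (h2 : w ∈ t' ∧ v ∈ t') :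
    (g w v = 0 → L t = L t') ∧ (t ≠ t' → L t + L t' = g w v) := by
  have key : t ≠ t' → L t + L t' = g w v := fun hne => by
    rcases b2_cases hT hb hw hv with ⟨h, -⟩ | ⟨a, b, -, -, -, h, hQ⟩
    · exact absurd h1 (h t ht)
    · rw [← hL.2 w hw v hv, hQ]
      rcases h t ht h1 with rfl | rfl <;> rcases h t' ht' h2 with rfl | rfl
      · exact absurd rfl hne
      · rfl
      · exact add_comm _ _
      · exact absurd rfl hne
  refine ⟨fun h => ?_, key⟩
  by_cases hne : t = t'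
  · rw [hne]
  · exact b2_eq ((key hne).trans h)

theorem fjn_all (hT : IsSurf T) (hc : Conn T W) (ha : Acyc T W) (hb : Disjoint W (Bd T))
    (ht : Mixed T W t) (ht' : Mixed T W t') : FJn W {s | Mixed T W s} t t' := by
  classical
  have hL : Side T W (fun s => if FJn W {s | Mixed T W s} t s then 1 else 0) 0 := by
    refine ⟨fun s _ h => ?_, fun x hx y hy => ?_⟩
    · by_contra h'
      exact h (if_neg fun h'' => h' (b2_right h''))
    · rcases b2_cases hT hb hx hy with ⟨-, hQ⟩ | ⟨a, b, ha, hb, -, -, hQ⟩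
      · exact hQ _
      · have : FJn W {s | Mixed T W s} t a ↔ FJn W {s | Mixed T W s} t b :=
          ⟨fun h => b2_step h ⟨hb.1, ⟨x, hb.2.1, hx⟩, y, hb.2.2, hy⟩ hx hy ha.2 hb.2,
            fun h => b2_step h ⟨ha.1, ⟨x, ha.2.1, hx⟩, y, ha.2.2, hy⟩ hx hy hb.2 ha.2⟩
        rw [hQ]
        simp only [this]
        exact b2_self _
  have := side_const hT hc ha hL ht ht'
  by_contra h
  simp only [if_neg h, if_pos (show FJn W {s | Mixed T W s} t t from ⟨ht, .refl⟩)] at this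
  exact one_ne_zero this

theorem side_compl (hT : IsSurf T) (hb : Disjoint W (Bd T)) (hL : Side T W L g) :
    ∃ L', Side T W L' g ∧ ∀ t, Mixed T W t → L' t = L t + 1 := by
  classical
  refine ⟨fun s => if Mixed T W s then L s + 1 else 0, ⟨fun s _ h => ?_, fun x hx y hy => ?_⟩,
    fun t ht => if_pos ht⟩
  · by_contra h'
    exact h (if_neg h')
  · rw [← hL.2 x hx y hy]
    rcases b2_cases hT hb hx hy with ⟨-, hQ⟩ | ⟨a, b, ha, hb, -, -, hQ⟩
    · rw [hQ, hQ]
    · have h1 : Mixed T W a := ⟨ha.1, ⟨x, ha.2.1, hx⟩, y, ha.2.2, hy⟩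
      have h2 : Mixed T W b := ⟨hb.1, ⟨x, hb.2.1, hx⟩, y, hb.2.2, hy⟩
      rw [hQ, hQ]
      simp only [if_pos h1, if_pos h2]
      linear_combination b2_self 1

theorem side_exists (hT : IsSurf T) (hc : Conn T W) (ha : Acyc T W) (hb : Disjoint W (Bd T))
    (h0 : w₀ ∈ W) (h0' : v₀ ∉ W) (a0 : Adj T w₀ v₀) (h1 : w₁ ∈ W) (h1' : v₁ ∉ W)
    (a1 : Adj T w₁ v₁) : ∃ L, Side T W L (edge w₀ v₀ + edge w₁ v₁) := by
  obtain ⟨-, t, ht, m0⟩ := a0
  obtain ⟨-, t', ht', m1⟩ := a1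
  obtain ⟨-, h⟩ := fjn_all hT hc ha hb ⟨ht, ⟨w₀, m0.1, h0⟩, v₀, m0.2, h0'⟩
    ⟨ht', ⟨w₁, m1.1, h1⟩, v₁, m1.2, h1'⟩
  clear ht'
  induction h generalizing w₁ v₁ with
  | refl => exact b2_tri hT ht h0 h0' h1 h1' m0 m1
  | @tail a b _ h2 ih =>
    obtain ⟨hb, x, hx, y, hy, xa, ya, xb, yb⟩ := h2
    obtain ⟨L, hL⟩ := ih hx hy ⟨xa, ya⟩
    obtain ⟨L', hL'⟩ := b2_tri hT hb.1 hx hy h1 h1' ⟨xb, yb⟩ m1
    have := b2_add hL hL'
    rw [add_assoc, ← add_assoc (edge x y), add_self1, zero_add] at this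
    exact ⟨_, this⟩

theorem side_cross (hT : IsSurf T) (ha : Acyc T W) (hL : Side T W L (edge w₀ v₀ + edge w₁ v₁))
    (h0 : w₀ ∈ W) (h0' : v₀ ∉ W) (h1 : w₁ ∈ W) (h1' : v₁ ∉ W) (hp : On T W p)
    (hd : d1 p = ends w₀ w₁) (hK : K ⊆ W) (hc : Conn T K)
    (hKp : ∀ k ∈ K, k ≠ w₀ ∧ k ≠ w₁ ∧ ∀ u, p u k = 0) (ht : Mixed T W t) (ht' : Mixed T W t')
    (m : ∃ k ∈ t, k ∈ K) (m' : ∃ k ∈ t', k ∈ K) : L t = L t' := by
  obtain ⟨Q, hQ, hQ'⟩ := side_ext hT ha hL h0 h0' h1 h1' hp hd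
  obtain ⟨a, ha1, ha2⟩ := m
  obtain ⟨c, hc1, hc2⟩ := m'
  rw [← hQ t ht, ← hQ t' ht']
  refine status_jn hT (fun x hx u => ?_) (hc a ha2 c hc2) ht.1 ht'.1 ha1 hc1
  obtain ⟨n0, n1, hx'⟩ := hKp x hx
  rw [hQ' x (hK hx) u]
  simp only [Pi.add_apply]
  rw [hx', b2_esymm w₀, b2_esymm w₁, b2_edge h0 h0' (hK hx), b2_edge h1 h1' (hK hx)]
  simp [n0, n1]

/-- Interlacing is symmetric. Plan: every mixed triangle has exactly two edges that leave `W`, so
the sum of `d2 T (L * L')` over these edges is zero. -/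
theorem side_inter (hT : IsSurf T) (hc : Conn T W) (ha : Acyc T W) (hb : Disjoint W (Bd T))
    {w v x y : Bool → V} (hL : Side T W L (edge (w false) (v false) + edge (w true) (v true)))
    (hL' : Side T W L' (edge (x false) (y false) + edge (x true) (y true)))
    (hw : ∀ i, w i ∈ W ∧ v i ∉ W) (hx : ∀ i, x i ∈ W ∧ y i ∉ W)
    (hne : ∀ i j, (w i, v i) ≠ (x j, y j)) {s r : Bool → Finset V}
    (hs : ∀ i, s i ∈ T ∧ w i ∈ s i ∧ v i ∈ s i) (hr : ∀ i, r i ∈ T ∧ x i ∈ r i ∧ y i ∈ r i) :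
    L' (s false) + L' (s true) = L (r false) + L (r true) := by
  classical
  have _ := hc
  have _ := ha
  have key : ∀ a ∈ W, ∀ b, b ∉ W → d2 T (L * L') a b =
      edge (w false) (v false) a b * L' (s false) + edge (w true) (v true) a b * L' (s true) +
      (edge (x false) (y false) a b * L (r false) + edge (x true) (y true) a b * L (r true)) := by
    intro a ha b hb'
    have z : ∀ i j, edge (w i) (v i) a b * edge (x j) (y j) a b = 0 := fun i j => by
      rw [b2_edge (hw i).1 (hw i).2 ha, b2_edge (hx j).1 (hx j).2 ha]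
      split_ifs with h1 h2
      · exact absurd (h1.symm.trans h2) (hne i j)
      all_goals simp
    rcases b2_cases hT hb ha hb' with ⟨h, hQ⟩ | ⟨c, d, hc, hd, -, -, hQ⟩
    · have z1 : ∀ i, edge (w i) (v i) a b = 0 := fun i => by
        rw [b2_edge (hw i).1 (hw i).2 ha, if_neg]
        intro e
        obtain ⟨rfl, rfl⟩ := Prod.mk.inj e
        exact h _ (hs i).1 (hs i).2
      have z2 : ∀ i, edge (x i) (y i) a b = 0 := fun i => by
        rw [b2_edge (hx i).1 (hx i).2 ha, if_neg]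
        intro e
        obtain ⟨rfl, rfl⟩ := Prod.mk.inj e
        exact h _ (hr i).1 (hr i).2
      simp [hQ, z1, z2]
    · have z1 : ∀ i, edge (w i) (v i) a b * L' (s i) = edge (w i) (v i) a b * L' c := fun i => by
        have q0 := z i false
        have q1 := z i true
        rw [b2_edge (hw i).1 (hw i).2 ha] at q0 q1 ⊢
        split_ifs at q0 q1 ⊢ with e
        · obtain ⟨rfl, rfl⟩ := Prod.mk.inj e
          rw [one_mul] at q0 q1
          rw [(side_same hT hb hL' ha hb' (hs i).1 hc.1 (hs i).2 hc.2).1 (by simp [q0, q1])]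
        · simp
      have z2 : ∀ i, edge (x i) (y i) a b * L (r i) = edge (x i) (y i) a b * L c := fun i => by
        have q0 := z false i
        have q1 := z true i
        rw [b2_edge (hx i).1 (hx i).2 ha] at q0 q1 ⊢
        split_ifs at q0 q1 ⊢ with e
        · obtain ⟨rfl, rfl⟩ := Prod.mk.inj e
          rw [mul_one] at q0 q1
          rw [(side_same hT hb hL ha hb' (hr i).1 hc.1 (hr i).2 hc.2).1 (by simp [q0, q1])]
        · simp
      have e1 := hL.2 a ha b hb'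
      have e2 := hL'.2 a ha b hb'
      rw [hQ] at e1 e2 ⊢
      simp only [Pi.add_apply, Pi.mul_apply] at e1 e2 ⊢
      rw [z1, z1, z2, z2]
      have f1 : L d = L c + (edge (w false) (v false) a b + edge (w true) (v true) a b) := by
        linear_combination e1 - b2_self (L c)
      have f2 : L' d = L' c + (edge (x false) (y false) a b + edge (x true) (y true) a b) := by
        linear_combination e2 - b2_self (L' c)
      rw [f1, f2]
      linear_combination z false false + z false true + z true false + z true true +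
        b2_self (L c * L' c)
  have h0 := b2_sum (W := W) hT (L * L')
  have e : ∀ a b, (if a ∈ W ∧ b ∉ W then d2 T (L * L') a b else 0) =
      (if a ∈ W ∧ b ∉ W then edge (w false) (v false) a b * L' (s false) else 0) +
      (if a ∈ W ∧ b ∉ W then edge (w true) (v true) a b * L' (s true) else 0) +
      ((if a ∈ W ∧ b ∉ W then edge (x false) (y false) a b * L (r false) else 0) +
      (if a ∈ W ∧ b ∉ W then edge (x true) (y true) a b * L (r true) else 0)) := fun a b => by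
    split_ifs with h
    · exact key a h.1 b h.2
    · simp
  simp only [e, Finset.sum_add_distrib, b2_sum_edge (hw _).1 (hw _).2,
    b2_sum_edge (hx _).1 (hx _).2] at h0
  exact b2_eq h0

theorem b2_side (hT : IsSurf T) (hb : Disjoint W (Bd T)) (hL : Side T W L g) (hw : w ∈ W)
    (hv : v ∉ W) (h : g w v = 1) : ∃ t ∈ T, L t ≠ 0 ∧ w ∈ t ∧ v ∈ t := by
  have e := hL.2 w hw v hv
  rcases b2_cases hT hb hw hv with ⟨-, hQ⟩ | ⟨a, b, ha, hb, -, -, hQ⟩
  · rw [hQ, h] at e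
    exact absurd e zero_ne_one
  · rw [hQ, h] at e
    by_cases h1 : L a = 0
    · exact ⟨b, hb.1, fun h2 => by simp only [h1, h2, add_zero, zero_ne_one] at e, hb.2⟩
    · exact ⟨a, ha.1, h1, ha.2⟩

/-- One side is connected. Plan: the part `L₁` of `L` joined to the triangle of `L` at the first
edge has the same boundary (parity), so `L + L₁` is constant on mixed triangles. -/
theorem side_conn (hT : IsSurf T) (hc : Conn T W) (ha : Acyc T W) (hb : Disjoint W (Bd T))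
    (hL : Side T W L (edge w₀ v₀ + edge w₁ v₁)) (h0 : w₀ ∈ W) (h0' : v₀ ∉ W) (a0 : Adj T w₀ v₀)
    (h1 : w₁ ∈ W) (h1' : v₁ ∉ W) (a1 : Adj T w₁ v₁) (hne : (w₀, v₀) ≠ (w₁, v₁)) :
    (∀ t ∈ {s | s ∈ T ∧ L s ≠ 0}, ∀ t' ∈ {s | s ∈ T ∧ L s ≠ 0},
      FJn W {s | s ∈ T ∧ L s ≠ 0} t t') ∧ (∃ t ∈ T, L t ≠ 0 ∧ w₀ ∈ t ∧ v₀ ∈ t) ∧
      ∃ t ∈ T, L t ≠ 0 ∧ w₁ ∈ t ∧ v₁ ∈ t := by
  classical
  have _ := a0
  have _ := a1
  have g0 : (edge w₀ v₀ + edge w₁ v₁) w₀ v₀ = 1 := by
    simp only [Pi.add_apply]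
    rw [b2_edge h0 h0' h0, b2_edge h1 h1' h0, if_pos rfl, if_neg hne, add_zero]
  have g1 : (edge w₀ v₀ + edge w₁ v₁) w₁ v₁ = 1 := by
    simp only [Pi.add_apply]
    rw [b2_edge h0 h0' h1, b2_edge h1 h1' h1, if_pos rfl, if_neg hne.symm, zero_add]
  obtain ⟨t₀, ht₀, l₀, m₀⟩ := b2_side hT hb hL h0 h0' g0
  refine ⟨?_, ⟨t₀, ht₀, l₀, m₀⟩, b2_side hT hb hL h1 h1' g1⟩
  set A : Set (Finset V) := {s | s ∈ T ∧ L s ≠ 0} with hA
  set M : Finset V → ZMod 2 := fun s => if FJn W A t₀ s then L s else 0 with hM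
  have r₀ : FJn W A t₀ t₀ := ⟨⟨ht₀, l₀⟩, .refl⟩
  have key : ∀ a ∈ W, ∀ b, b ∉ W →
      d2 T M a b = edge w₀ v₀ a b * 1 + edge w₁ v₁ a b * d2 T M w₁ v₁ := by
    intro a ha' b hb'
    have e := hL.2 a ha' b hb'
    simp only [Pi.add_apply] at e
    rw [b2_edge h0 h0' ha', b2_edge h1 h1' ha'] at e ⊢
    by_cases e1 : (a, b) = (w₁, v₁)
    · obtain ⟨rfl, rfl⟩ := Prod.mk.inj e1
      simp [hne.symm]
    rw [if_neg e1, add_zero] at e
    rw [if_neg e1, zero_mul, add_zero, mul_one, ← e]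
    rcases b2_cases hT hb ha' hb' with ⟨-, hQ⟩ | ⟨c, d, hc', hd, -, h, hQ⟩
    · rw [hQ, hQ]
    rw [hQ] at e
    rw [hQ, hQ]
    by_cases e0 : (a, b) = (w₀, v₀)
    · obtain ⟨rfl, rfl⟩ := Prod.mk.inj e0
      rw [if_pos rfl, ← b2_one l₀] at e
      rcases h t₀ ht₀ m₀ with rfl | rfl
      · have : L d = 0 := by simpa using e
        simp [hM, r₀, this]
      · have : L c = 0 := by simpa using e
        simp [hM, r₀, this]
    · rw [if_neg e0] at e
      have e' := b2_eq e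
      rw [e]
      by_cases lc : L c = 0
      · simp [hM, lc, ← e']
      · have : FJn W A t₀ c ↔ FJn W A t₀ d :=
          ⟨fun h => b2_step h ⟨hd.1, e' ▸ lc⟩ ha' hb' hc'.2 hd.2,
            fun h => b2_step h ⟨hc'.1, lc⟩ ha' hb' hd.2 hc'.2⟩
        simp only [hM, this, e']
        exact b2_self _
  have par : d2 T M w₁ v₁ = 1 := by
    have h0'' := b2_sum (W := W) hT M
    have e : ∀ a b, (if a ∈ W ∧ b ∉ W then d2 T M a b else 0) =
        (if a ∈ W ∧ b ∉ W then edge w₀ v₀ a b * 1 else 0) +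
        (if a ∈ W ∧ b ∉ W then edge w₁ v₁ a b * d2 T M w₁ v₁ else 0) := fun a b => by
      split_ifs with h
      · exact key a h.1 b h.2
      · simp
    rw [Finset.sum_congr rfl fun a _ => Finset.sum_congr rfl fun b _ => e a b] at h0''
    simp only [Finset.sum_add_distrib, b2_sum_edge h0 h0', b2_sum_edge h1 h1'] at h0''
    exact (b2_eq h0'').symm
  have hMs : Side T W M (edge w₀ v₀ + edge w₁ v₁) := by
    refine ⟨fun s hs h => hL.1 s hs fun h' => h (by simp [hM, h']), fun a ha' b hb' => ?_⟩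
    rw [key a ha' b hb', par]
    simp
  have hz := b2_add hL hMs
  rw [add_self1] at hz
  have all : ∀ s ∈ A, FJn W A t₀ s := fun s hs => by
    have := side_const hT hc ha hz (hL.1 s hs.1 hs.2) (hL.1 t₀ ht₀ l₀)
    by_contra h
    simp only [Pi.add_apply, hM, if_pos r₀, if_neg h, b2_self, add_zero] at this
    exact hs.2 this
  exact fun s hs s' hs' => (all s hs).symm.trans (all s' hs')

end Pool.Agent.MP_17e62b_gt.T55

end

section

/-!
The hex lemma, and sliding along a frontier.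
-/

namespace Pool.Agent.MP_17e62b_gt.T55

open Set Metric Topology
open scoped InnerProductSpace Manifold

variable {V : Type} [Fintype V] [DecidableEq V] {T : Finset (Finset V)}

theorem b3_pair (Q : Finset V → ZMod 2) {f g : V → ZMod 2} (h : ∀ a, f a * g a = 0) :
    ∑ a, ∑ b, f a * g b * d2 T Q a b = ∑ t ∈ T, Q t * ((∑ a ∈ t, f a) * ∑ b ∈ t, g b) := by
  have e : ∀ a b, f a * g b * d2 T Q a b =
      ∑ t ∈ T, Q t * ((if a ∈ t then f a else 0) * if b ∈ t then g b else 0) := by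
    intro a b
    unfold d2
    split_ifs with hab
    · subst hab
      rw [mul_zero]
      refine (Finset.sum_eq_zero fun t _ => ?_).symm
      split_ifs <;> simp [h]
    · rw [Finset.sum_filter, Finset.mul_sum]
      refine Finset.sum_congr rfl fun t _ => ?_
      by_cases h1 : a ∈ t <;> by_cases h2 : b ∈ t <;> simp [h1, h2, mul_comm]
  simp only [e]
  rw [Finset.sum_congr rfl fun a _ => Finset.sum_comm, Finset.sum_comm]
  refine Finset.sum_congr rfl fun t _ => ?_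
  simp only [← Finset.mul_sum, ← Finset.sum_mul, Finset.sum_ite_mem, Finset.univ_inter]

theorem b3_one (hT : IsSurf T) {a : V} (ha : a ∉ Bd T) (b : V) : d2 T (fun _ => 1) a b = 0 := by
  unfold d2
  split_ifs with hab
  · rfl
  by_cases h : Adj T a b
  · obtain ⟨t, -, t', -, hne, e⟩ := two_tri hT h ha
    rw [e, Finset.sum_pair hne]
    decide
  · exact Finset.sum_eq_zero fun t ht =>
      absurd ⟨hab, t, (Finset.mem_filter.1 ht).1, (Finset.mem_filter.1 ht).2⟩ h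

omit [Fintype V] in
theorem b3_third {t : Finset V} (ht : t.card = 3) {a b : V} (ha : a ∈ t) (hb : b ∈ t)
    (hab : a ≠ b) : ∃ c, c ≠ a ∧ c ≠ b ∧ t = {a, b, c} := by
  have h2 : ({a, b} : Finset V) ⊆ t := by
    intro x hx
    rcases Finset.mem_insert.1 hx with rfl | hx
    · exact ha
    · exact Finset.mem_singleton.1 hx ▸ hb
  obtain ⟨c, hc, hc'⟩ := Finset.exists_mem_notMem_of_card_lt_card
    (show ({a, b} : Finset V).card < t.card by rw [Finset.card_pair hab, ht]; decide)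
  simp only [Finset.mem_insert, Finset.mem_singleton, not_or] at hc'
  refine ⟨c, hc'.1, hc'.2, (Finset.eq_of_subset_of_card_le ?_ ?_).symm⟩
  · intro x hx
    simp only [Finset.mem_insert, Finset.mem_singleton] at hx
    rcases hx with rfl | rfl | rfl <;> assumption
  · rw [ht, Finset.card_eq_three.2 ⟨a, b, c, hab, Ne.symm hc'.1, Ne.symm hc'.2, rfl⟩]

/-- The pairs of types that occur in a triangle. -/
def b3ok (l : ZMod 2) (p q : Fin 7) : Prop :=
  ¬ (p = 0 ∧ q = 1) ∧ ¬ (p = 2 ∧ q = 3) ∧ ¬ (p = 2 ∧ q = 5) ∧ ¬ (p = 3 ∧ q = 4) ∧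
    (p < 4 → q = 6 → (l ≠ 0 → p = 0) ∧ (l = 0 → p = 1))

/-- The ordered triples of types. -/
def b3ok3 (l : ZMod 2) (p q r : Fin 7) : Prop :=
  b3ok l p q ∧ ¬ (p < 4 ∧ q = 4 ∧ r = 5)

instance (l : ZMod 2) (p q r : Fin 7) : Decidable (b3ok3 l p q r) := by
  unfold b3ok3 b3ok
  infer_instance

/-- Indicators of types. -/
def b3is (k p : Fin 7) : ZMod 2 := if p = k then 1 else 0

def b3in (p : Fin 7) : ZMod 2 := if p < 4 then 1 else 0

theorem b3_cases : ∀ (l : ZMod 2) (p q r : Fin 7), b3ok3 l p q r → b3ok3 l p r q →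
    b3ok3 l q p r → b3ok3 l q r p → b3ok3 l r p q → b3ok3 l r q p →
    l * ((b3in p + b3in q + b3in r) * (b3is 4 p + b3is 4 q + b3is 4 r)) =
      1 * ((b3is 0 p + b3is 0 q + b3is 0 r) * (b3is 4 p + b3is 4 q + b3is 4 r)) +
        1 * ((b3is 0 p + b3is 0 q + b3is 0 r) * (b3is 2 p + b3is 2 q + b3is 2 r)) := by
  decide +kernel

theorem b3_edge_sum (f g : V → ZMod 2) {x y : V} (h : x ≠ y) :
    ∑ a, ∑ b, f a * g b * edge x y a b = f x * g y + f y * g x := by
  have e : ∀ a b, f a * g b * edge x y a b =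
      (if b = y then (if a = x then f x * g y else 0) else 0) +
        if b = x then (if a = y then f y * g x else 0) else 0 := by
    intro a b
    unfold edge
    by_cases h1 : a = x <;> by_cases h2 : b = y <;> by_cases h3 : a = y <;> by_cases h4 : b = x <;>
      simp_all
  simp only [e, Finset.sum_add_distrib, Finset.sum_ite_eq', Finset.mem_univ, if_true]

/-- Plan: (1) the number of triangles with one vertex in `Lo`, one in `Y` and one in `E false` is
odd: sum `L t` times the number of edges of `t` from `W` to `E false` over mixed `t`; count in the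
same way with the indicator of `Lo`. (2) Let `Y₀` be the vertices joined in `Y` to a neighbour of
`E false`; count the pairs (triangle, edge from `Lo` to `Y₀`) modulo two. -/
theorem hex (hT : IsSurf T) {W Lo Hi Y : Set V} {E : Bool → Set V} {w v : Bool → V}
    {L : Finset V → ZMod 2} (hb : Disjoint W (Bd T)) (hW : W = Lo ∪ Hi ∪ Y)
    (d1 : Disjoint Lo Hi) (d2 : Disjoint Lo Y) (d3 : Disjoint Hi Y) (hn : ¬ Tch T Lo Hi)
    (hE : ∀ i, Disjoint W (E i)) (hEE : ∀ u ∈ W, Tch T {u} (E false) → ¬ Tch T {u} (E true))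
    (hw : ∀ i, w i ∈ W ∧ v i ∈ E i ∧ Adj T (w i) (v i))
    (hL : Side T W L (edge (w false) (v false) + edge (w true) (v true)))
    (hs : ∀ t ∈ T, ∀ a ∈ t, ∀ b ∈ t, a ∈ W → b ∉ W → b ∉ E false → b ∉ E true →
      (L t ≠ 0 → a ∈ Lo) ∧ (L t = 0 → a ∈ Hi)) :
    ∃ y₀ y₁, Jn T Y y₀ y₁ ∧ Tch T {y₀} (E false) ∧ Tch T {y₁} (E true) := by
  classical
  by_contra hcon
  obtain ⟨Y₀, hY₀⟩ : ∃ Y₀ : Set V, ∀ y, y ∈ Y₀ ↔ ∃ y₀, Jn T Y y₀ y ∧ Tch T {y₀} (E false) :=
    ⟨{y | ∃ y₀, Jn T Y y₀ y ∧ Tch T {y₀} (E false)}, fun _ => Iff.rfl⟩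
  have hY : Y₀ ⊆ Y := fun y hy => by
    obtain ⟨y₀, h, -⟩ := (hY₀ y).1 hy
    exact h.right
  have mW : ∀ x, x ∈ W ↔ x ∈ Lo ∨ x ∈ Hi ∨ x ∈ Y := fun x => by
    rw [hW, mem_union, mem_union, or_assoc]
  obtain ⟨ty, hty⟩ : ∃ ty : V → Fin 7, ∀ x, (ty x = 0 ↔ x ∈ Lo) ∧ (ty x = 1 ↔ x ∈ Hi) ∧
      (ty x = 2 → x ∈ Y₀) ∧ (ty x = 3 → x ∈ Y ∧ x ∉ Y₀) ∧ (ty x = 4 ↔ x ∈ E false) ∧
      (ty x = 5 → x ∈ E true) ∧ (ty x = 6 → x ∉ E false ∧ x ∉ E true) ∧ (ty x < 4 ↔ x ∈ W) := by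
    refine ⟨fun x => if x ∈ Lo then 0 else if x ∈ Hi then 1 else if x ∈ Y₀ then 2 else
      if x ∈ Y then 3 else if x ∈ E false then 4 else if x ∈ E true then 5 else 6, fun x => ?_⟩
    have a1 := @disjoint_left.1 d1 x
    have a2 := @disjoint_left.1 (hE false) x
    have a3 := mW x
    have a4 := @hY x
    clear * - a1 a2 a3 a4
    beta_reduce
    split_ifs <;> simp_all
  have ok : ∀ t ∈ T, ∀ a ∈ t, ∀ b ∈ t, ∀ c ∈ t, a ≠ b → a ≠ c →
      b3ok3 (L t) (ty a) (ty b) (ty c) := by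
    intro t ht a ha b hb' c hc hab hac
    have adj : Adj T a b := ⟨hab, t, ht, ha, hb'⟩
    obtain ⟨a0, a1, a2, a3, -, -, -, a7⟩ := hty a
    obtain ⟨-, b1, -, b3, b4, b5, b6, b7⟩ := hty b
    refine ⟨⟨fun h => hn ⟨a, a0.1 h.1, b, b1.1 h.2, adj⟩, fun h => ?_, fun h => ?_, fun h => ?_,
      fun h h' => ?_⟩, fun h => ?_⟩
    · obtain ⟨y₀, h1, h2⟩ := (hY₀ a).1 (a2 h.1)
      exact (b3 h.2).2 ((hY₀ b).2 ⟨y₀, h1.step (b3 h.2).1 adj, h2⟩)
    · obtain ⟨y₀, h1, h2⟩ := (hY₀ a).1 (a2 h.1)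
      exact hcon ⟨y₀, a, h1, h2, a, rfl, b, b5 h.2, adj⟩
    · exact (a3 h.1).2 ((hY₀ a).2 ⟨a, Jn.refl (a3 h.1).1, a, rfl, b, b4.1 h.2, adj⟩)
    · have := hs t ht a ha b hb' (a7.1 h) (fun hw => by
        have := b7.2 hw
        rw [h'] at this
        exact absurd this (by decide)) (b6 h').1 (b6 h').2
      exact ⟨fun hl => a0.2 (this.1 hl), fun hl => a1.2 (this.2 hl)⟩
    · exact hEE a (a7.1 h.1) ⟨a, rfl, b, b4.1 h.2.1, adj⟩
        ⟨a, rfl, c, (hty c).2.2.2.2.2.1 h.2.2, hac, t, ht, ha, hc⟩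
  have z : ∀ k : Fin 7, ∑ a, ∑ b, b3is 0 (ty a) * b3is k (ty b) * T55.d2 T (fun _ => 1) a b = 0 :=
    fun k => Finset.sum_eq_zero fun a _ => Finset.sum_eq_zero fun b _ => by
      by_cases h : ty a = 0
      · rw [b3_one hT (disjoint_left.1 hb ((mW a).2 (Or.inl ((hty a).1.1 h)))), mul_zero]
      · simp [b3is, h]
  have s1 := b3_pair (T := T) L (f := fun a => b3in (ty a)) (g := fun a => b3is 4 (ty a))
    fun a => (by decide : ∀ p, b3in p * b3is 4 p = 0) _
  have s2 := b3_pair (T := T) (fun _ => 1) (f := fun a => b3is 0 (ty a))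
    (g := fun a => b3is 4 (ty a)) fun a => (by decide : ∀ p, b3is 0 p * b3is 4 p = 0) _
  have s3 := b3_pair (T := T) (fun _ => 1) (f := fun a => b3is 0 (ty a))
    (g := fun a => b3is 2 (ty a)) fun a => (by decide : ∀ p, b3is 0 p * b3is 2 p = 0) _
  rw [z] at s2 s3
  have s4 : ∑ a, ∑ b, b3in (ty a) * b3is 4 (ty b) * T55.d2 T L a b = 1 := by
    have e : ∀ a b, b3in (ty a) * b3is 4 (ty b) * T55.d2 T L a b =
        b3in (ty a) * b3is 4 (ty b) * edge (w false) (v false) a b +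
          b3in (ty a) * b3is 4 (ty b) * edge (w true) (v true) a b := fun a b => by
      by_cases h1 : ty a < 4
      · by_cases h2 : ty b = 4
        · rw [hL.2 a ((hty a).2.2.2.2.2.2.2.1 h1) b fun h =>
            disjoint_left.1 (hE false) h ((hty b).2.2.2.2.1.1 h2), ← mul_add]
          rfl
        · simp [b3is, h2]
      · simp [b3in, h1]
    have i1 : ∀ i, b3in (ty (w i)) = 1 := fun i => if_pos ((hty _).2.2.2.2.2.2.2.2 (hw i).1)
    have i2 : ∀ i, b3in (ty (v i)) = 0 := fun i => if_neg fun h =>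
      disjoint_left.1 (hE i) ((hty _).2.2.2.2.2.2.2.1 h) (hw i).2.1
    have i3 : b3is 4 (ty (v false)) = 1 := if_pos ((hty _).2.2.2.2.1.2 (hw false).2.1)
    have i4 : b3is 4 (ty (v true)) = 0 := if_neg fun h =>
      hEE _ (hw true).1 ⟨_, rfl, _, (hty _).2.2.2.2.1.1 h, (hw true).2.2⟩
        ⟨_, rfl, _, (hw true).2.1, (hw true).2.2⟩
    simp only [e, Finset.sum_add_distrib]
    rw [b3_edge_sum (fun a => b3in (ty a)) (fun a => b3is 4 (ty a)) (hw false).2.2.1,
      b3_edge_sum (fun a => b3in (ty a)) (fun a => b3is 4 (ty a)) (hw true).2.2.1]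
    simp [i1, i2, i3, i4]
  have s5 := congrArg₂ (· + ·) s2 s3
  simp only [← Finset.sum_add_distrib] at s5
  rw [s4, Finset.sum_congr rfl fun t ht => ?_, ← s5] at s1
  · exact absurd s1 (by decide)
  obtain ⟨a, b, c, hab, hac, hbc, rfl⟩ := Finset.card_eq_three.1 (hT.card t ht)
  have m : ∀ f : V → ZMod 2, ∑ x ∈ ({a, b, c} : Finset V), f x = f a + f b + f c := fun f => by
    rw [Finset.sum_insert (by simp [hab, hac]), Finset.sum_pair hbc, add_assoc]
  have ma : a ∈ ({a, b, c} : Finset V) := by simp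
  have mb : b ∈ ({a, b, c} : Finset V) := by simp
  have mc : c ∈ ({a, b, c} : Finset V) := by simp
  simp only [m]
  exact b3_cases _ _ _ _ (ok _ ht a ma b mb c mc hab hac) (ok _ ht a ma c mc b mb hac hab)
    (ok _ ht b mb a ma c mc hab.symm hbc) (ok _ ht b mb c mc a ma hbc hab.symm)
    (ok _ ht c mc a ma b mb hac.symm hbc.symm) (ok _ ht c mc b mb a ma hbc.symm hac.symm)

/-- Plan: the edges from `W` to `U` that are reached without meeting `S` give a set of mixed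
triangles closed under sharing an edge that leaves `W`; `fjn_all`. -/
theorem slide (hT : IsSurf T) {W S U : Set V} (hc : Conn T W) (ha : Acyc T W)
    (hb : Disjoint W (Bd T)) (hU : Disjoint W U) (hS : Disjoint W S) (hUS : Disjoint U S)
    (hn : ∀ a ∈ W, ∀ b, b ∉ W → Adj T a b → b ∈ U ∪ S) (ht : Tch T W S) {w u : V} (hw : w ∈ W)
    (hu : u ∈ U) (h : Adj T w u) :
    ∃ u' s γ, s ∈ S ∧ Adj T u' s ∧ Jn T U u u' ∧ On T {y | Jn T U u y} γ ∧ d1 γ = ends u u' ∧
      Nul T (W ∪ S) (edge w u + γ + edge u' s) := by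
  by_contra hcon
  obtain ⟨P, hP⟩ : ∃ P : V → V → Prop, ∀ a b, P a b ↔ a ∈ W ∧ Jn T U u b ∧
      ∃ γ, On T {y | Jn T U u y} γ ∧ d1 γ = ends u b ∧
        Nul T (W ∪ S) (edge w u + γ + edge b a) := ⟨_, fun _ _ => Iff.rfl⟩
  have key : ∀ t ∈ T, ∀ a ∈ t, ∀ b ∈ t, P a b → ∀ a' ∈ t, ∀ b' ∈ t, a' ∈ W → b' ∉ W →
      P a' b' := by
    intro t ht a ha' b hb' hp a' ha'' b' hb'' h1 h2
    obtain ⟨p1, p2, γ, p3, p4, p5⟩ := (hP a b).1 hp
    have hbW : b ∉ W := fun h => disjoint_left.1 hU h p2.right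
    obtain ⟨c, hca, hcb, rfl⟩ := b3_third (hT.card t ht) ha' hb' fun e => hbW (e ▸ p1)
    have mc : c ∈ ({a, b, c} : Finset V) := by simp
    have tri := p5.add (d2_tri hT ht ▸ nul_d2 (T := T) (B := W ∪ S) (Pi.single {a, b, c} 1))
    have e1 : edge w u + γ + edge b a + (edge a b + edge b c + edge c a) =
        edge w u + (γ + edge b c) + edge c a := by
      rw [edge_comm b a]
      linear_combination (exp := 1) add_self1 (edge a b)
    rw [e1] at tri
    have tri' : c ∈ W ∪ S → Nul T (W ∪ S) (edge w u + γ + edge b c) := fun h => by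
      have := tri.add (on_edge ⟨hca, _, ht, mc, ha'⟩ h (Or.inl p1)).nul
      rwa [add_assoc, add_self1, add_zero, ← add_assoc] at this
    simp only [Finset.mem_insert, Finset.mem_singleton] at ha'' hb''
    rcases ha'' with rfl | rfl | rfl
    · rcases hb'' with rfl | rfl | rfl
      · exact absurd h1 h2
      · exact hp
      · have adj : Adj T b b' := ⟨hcb.symm, _, ht, hb', mc⟩
        rcases hn a' h1 b' h2 ⟨hca.symm, _, ht, ha', mc⟩ with h3 | h3
        · refine (hP _ _).2 ⟨h1, p2.step h3 adj, _, p3.add (on_edge adj p2 (p2.step h3 adj)),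
            ?_, tri⟩
          rw [d1_add, p4, d1_edge, ends_add]
        · exact absurd ⟨b, b', γ, h3, adj, p2, p3, p4, tri' (Or.inr h3)⟩ hcon
    · exact absurd h1 hbW
    · rcases hb'' with rfl | rfl | rfl
      · exact absurd p1 h2
      · exact (hP _ _).2 ⟨h1, p2, γ, p3, p4, tri' (Or.inl h1)⟩
      · exact absurd h1 h2
  obtain ⟨a, ha', s, hs, -, t', ht', m1, m2⟩ := ht
  obtain ⟨-, t, ht, m3, m4⟩ := h
  have hs' : s ∉ W := fun h => disjoint_left.1 hS h hs
  have hj := (fjn_all hT hc ha hb ⟨ht, ⟨w, m3, hw⟩, u, m4, fun h => disjoint_left.1 hU h hu⟩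
    ⟨ht', ⟨a, m1, ha'⟩, s, m2, hs'⟩).2
  have all : t' ∈ T ∧ ∃ a ∈ t', ∃ b ∈ t', P a b := by
    clear m1 m2 ht'
    induction hj with
    | refl =>
      refine ⟨ht, w, m3, u, m4, (hP _ _).2 ⟨hw, Jn.refl hu, 0, On.zero, ?_, ?_⟩⟩
      · rw [ends_self]
        funext x
        simp only [d1, Pi.zero_apply, Finset.sum_const_zero]
      · rw [add_zero, edge_comm u w, add_self1]
        exact On.zero.nul
    | tail _ h2 ih =>
      obtain ⟨i1, a, i2, b, i3, i4⟩ := ih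
      obtain ⟨h3, x, hx, y, hy, j1, j2, j3, j4⟩ := h2
      exact ⟨h3.1, x, j3, y, j4, key _ i1 a i2 b i3 i4 x j1 y j2 hx hy⟩
  obtain ⟨-, x, hx, y, hy, hp⟩ := all
  exact disjoint_left.1 hUS ((hP _ _).1 (key _ ht' x hx y hy hp a m1 s m2 ha' hs')).2.1.right hs

theorem b3_cut (hT : IsSurf T) {A : Set V} (hc : Conn T A) (hb : Disjoint A (Bd T))
    (hn : A.Nontrivial) : ∃ v ∈ A, Conn T (A \ {v}) ∧ ∃ u, u ∉ A ∧ Adj T v u := by
  by_contra hcon
  obtain ⟨v₀, hv₀, u₀, hu₀, h₀⟩ : ∃ v ∈ A, ∃ u, u ∉ A ∧ Adj T v u := by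
    obtain ⟨x, hx⟩ := hn.nonempty
    obtain ⟨y, hy⟩ := hT.bd
    obtain ⟨u, v, h1, -, h2, h3⟩ := (hT.conn x trivial y trivial).exit hx
      fun h => disjoint_left.1 hb h hy
    exact ⟨u, h1.right.2, v, h2, h3⟩
  obtain ⟨x₀, hx₀, hx₀'⟩ := hn.exists_ne v₀
  obtain ⟨⟨v, x⟩, ⟨hv, ⟨u, hu, hvu⟩, hx⟩, hmin⟩ := exists_min_image
    {p : V × V | p.1 ∈ A ∧ (∃ u, u ∉ A ∧ Adj T p.1 u) ∧ p.2 ∈ A \ {p.1}}
    (fun p => {y | Jn T (A \ {p.1}) p.2 y}.ncard) (toFinite _)
    ⟨(v₀, x₀), hv₀, ⟨u₀, hu₀, h₀⟩, hx₀, hx₀'⟩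
  obtain ⟨C, hC⟩ : ∃ C : Set V, C = {y | Jn T (A \ {v}) x y} := ⟨_, rfl⟩
  have mC : ∀ y, y ∈ C ↔ Jn T (A \ {v}) x y := fun y => by rw [hC, mem_ofPred_eq]
  have hvC : v ∉ C := fun h => ((mC v).1 h).right.2 rfl
  have stp : ∀ c ∈ C, ∀ y ∈ A, y ≠ v → Adj T c y → y ∈ C := fun c hc' y hy hyv h =>
    (mC y).2 (((mC c).1 hc').step ⟨hy, hyv⟩ h)
  obtain ⟨v', hv', hout⟩ : ∃ v' ∈ C, ∃ u, u ∉ A ∧ Adj T v' u := by
    by_contra hno
    have hin : ∀ c ∈ C, ∀ y, Adj T c y → y ∈ A := fun c hc' y h => by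
      by_contra hy
      exact hno ⟨c, hc', y, hy, h⟩
    obtain ⟨c, y, h1, h2, h3, h4⟩ := (hc x hx.1 v hv).exit ((mC x).2 (Jn.refl hx)) hvC
    obtain rfl : y = v := by
      by_contra hy
      exact h3 (stp c h1.right.2 y h2 hy h4)
    obtain ⟨-, t, ht, m1, m2⟩ := h4
    obtain ⟨-, t', ht', m3, m4⟩ := hvu
    obtain ⟨c', m5, hc'⟩ := hT.link y {s | ∃ c ∈ s, c ∈ C} (by
      rintro s hs s' - z hz - m6 - m7 ⟨c', m8, hc'⟩
      refine ⟨z, m7, ?_⟩
      by_cases e : c' = z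
      · exact e ▸ hc'
      · exact stp c' hc' z (hin c' hc' z ⟨e, s, hs, m8, m6⟩) hz ⟨e, s, hs, m8, m6⟩)
      t ht t' ht' m2 m3 ⟨c, m1, h1.right.2⟩
    exact hu (hin c' hc' u ⟨fun e => hu (e ▸ ((mC c').1 hc').right.1), t', ht', m5, m4⟩)
  have hv'A := ((mC v').1 hv').right
  obtain ⟨y, hy, hyv⟩ : ∃ y ∈ A \ {v'}, ¬ Jn T (A \ {v'}) y v := by
    by_contra h
    refine hcon ⟨v', hv'A.1, conn_of_jn (x := v) fun y hy => ?_, hout⟩
    by_contra h'
    exact h ⟨y, hy, h'⟩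
  refine absurd (hmin (v', y) ⟨hv'A.1, hout, hy⟩) (not_le.2 ?_)
  refine ncard_lt_ncard ⟨fun z hz => (mC z).1 ?_, fun h => (h ((mC v').1 hv')).right.2 rfl⟩
  by_contra hzC
  refine hyv (Jn.trans hz (Jn.mono (A := A \ C) ?_ fun a ha => ⟨ha.1, fun e => ha.2 (e ▸ hv')⟩))
  by_contra hD
  obtain ⟨a, b, h1, h2, h3, h4⟩ := (hc z (Jn.right hz).1 v hv).exit
    (C := {y | Jn T (A \ C) z y}) (Jn.refl ⟨(Jn.right hz).1, hzC⟩) hD
  have ha := h1.right
  by_cases hbC : b ∈ C
  · exact (Jn.right ha.2).2 (stp b hbC a ha.1 (fun e => hD (e ▸ ha.2)) h4.symm)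
  · exact h3 (Jn.step ha.2 ⟨h2, hbC⟩ h4)

/-- Shelling. Plan: among the pairs of a vertex `v ∈ A` with a neighbour outside `A` and a
component of `A \ {v}` take one with the smallest component; if `A \ {v}` is not connected, that
component contains a vertex with a neighbour outside `A` (`IsSurf.link` at `v`) and a smaller
component. Last clause: otherwise close a path of `A \ {v}` from `w` to `w'` through `v`, and sum
the boundary of its filling over the edges from `v` to the class of `w`. -/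
theorem shell (hT : IsSurf T) {A : Set V} (hc : Conn T A) (ha : Acyc T A)
    (hb : Disjoint A (Bd T)) (hn : A.Nontrivial) :
    ∃ v ∈ A, Conn T (A \ {v}) ∧ Acyc T (A \ {v}) ∧ (∃ u, u ∉ A ∧ Adj T v u) ∧
      ∀ w ∈ A, ∀ w' ∈ A, Adj T v w → Adj T v w' →
        Relation.ReflTransGen (fun a b => b ∈ A ∧ ({v, a, b} : Finset V) ∈ T) w w' := by
  classical
  obtain ⟨v, hv, h1, u, hu, hvu⟩ := b3_cut hT hc hb hn
  refine ⟨v, hv, h1, acyc_sub hT ha sdiff_subset fun y hy => ?_, ⟨u, hu, hvu⟩,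
    fun w hw w' hw' a1 a2 => ?_⟩
  · by_cases h : y ∈ A
    · obtain rfl : y = v := by
        by_contra e
        exact hy ⟨h, e⟩
      exact ⟨u, hu, (Jn.refl hy).step (fun h' => hu h'.1) hvu⟩
    · exact ⟨y, h, Jn.refl hy⟩
  by_contra hcon
  obtain ⟨K, hK⟩ : ∃ K : V → Prop, ∀ y, K y ↔
    Relation.ReflTransGen (fun a b => b ∈ A ∧ ({v, a, b} : Finset V) ∈ T) w y :=
      ⟨_, fun _ => Iff.rfl⟩
  have hvK : ¬ K v := fun h => by
    rcases ((hK v).1 h).cases_tail with e | ⟨c, -, -, e⟩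
    · exact a1.1 e
    · have := hT.card _ e
      rw [Finset.pair_comm c v, Finset.insert_idem] at this
      exact absurd (this ▸ Finset.card_le_two) (by decide)
  obtain ⟨z, z1, z2⟩ := (h1 w ⟨hw, a1.1.symm⟩ w' ⟨hw', a2.1.symm⟩).fill
  obtain ⟨Q, q1, q2⟩ := ha (z + edge v w + edge v w') ⟨((z1.mono sdiff_subset).add
    (on_edge a1 hv hw)).add (on_edge a2 hv hw'), by
      rw [d1_add, d1_add, z2, d1_edge, d1_edge, add_comm (ends w w'), ends_add]
      funext x
      exact CharTwo.add_self_eq_zero (ends v w' x)⟩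
  have s1 := b3_pair (T := T) Q (f := fun a => if a = v then 1 else 0)
    (g := fun a => if K a then 1 else 0) fun a => by
      by_cases e : a = v
      · simp [e, hvK]
      · simp [e]
  rw [q2, Finset.sum_eq_zero (s := T) fun t ht => ?_] at s1
  · simp only [Pi.add_apply, mul_add, Finset.sum_add_distrib] at s1
    rw [b3_edge_sum (fun a => if a = v then 1 else 0) (fun a => if K a then 1 else 0) a1.1,
      b3_edge_sum (fun a => if a = v then 1 else 0) (fun a => if K a then 1 else 0) a2.1,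
      Finset.sum_eq_zero fun a _ => Finset.sum_eq_zero fun b _ => ?_] at s1
    · simp only [↓ reduceIte, (hK w).2 Relation.ReflTransGen.refl, mul_one, hvK, mul_zero, add_zero, zero_add, mt (hK w').1 hcon, one_ne_zero] at s1
    · by_cases e : a = v
      · by_cases e' : z a b = 0
        · rw [e', mul_zero]
        · exact absurd e (z1.2 a b e').1.2
      · simp [e]
  by_cases e : Q t = 0
  · rw [e, zero_mul]
  by_cases m : v ∈ t
  · obtain ⟨a, ha', hav⟩ := Finset.exists_mem_ne (by rw [hT.card t ht]; decide) v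
    obtain ⟨b, hbv, hba, rfl⟩ := b3_third (hT.card t ht) m ha' hav.symm
    have iff : K a ↔ K b := by
      rw [hK, hK]
      refine ⟨fun h => h.tail ⟨q1 _ ht e b (by simp), ht⟩,
        fun h => h.tail ⟨q1 _ ht e a ha', ?_⟩⟩
      rwa [Finset.pair_comm b a]
    rw [Finset.sum_insert (f := fun a => if K a then (1 : ZMod 2) else 0)
      (by simp [hav.symm, hbv.symm]), Finset.sum_pair hba.symm, if_neg hvK, zero_add]
    simp only [iff, CharTwo.add_self_eq_zero, mul_zero]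
  · rw [Finset.sum_ite_eq', if_neg m, zero_mul, mul_zero]

end Pool.Agent.MP_17e62b_gt.T55

end

section

/-!
Rank of the first homology, boundary components, and vanishing relative homology.
-/

namespace Pool.Agent.MP_17e62b_gt.T55

open Set Metric Topology
open scoped InnerProductSpace Manifold

variable {V : Type} [Fintype V] [DecidableEq V] {T : Finset (Finset V)}

theorem b4_two (c : ZMod 2) : c = 0 ∨ c = 1 := by
  revert c; decide

theorem b4_on_smul {A : Set V} {z : V → V → ZMod 2} (c : ZMod 2) (h : On T A z) :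
    On T A (c • z) := by
  rcases b4_two c with rfl | rfl
  · rw [zero_smul]; exact On.zero
  · rwa [one_smul]

/-- `d1` as a linear map. -/
noncomputable def b4D1 : (V → V → ZMod 2) →ₗ[ZMod 2] V → ZMod 2 :=
  (AddMonoidHom.mk' d1 d1_add).toZModLinearMap 2

variable (T) in
/-- `d2` as a linear map. -/
noncomputable def b4D2 : (Finset V → ZMod 2) →ₗ[ZMod 2] V → V → ZMod 2 :=
  (AddMonoidHom.mk' (d2 T) d2_add).toZModLinearMap 2

theorem b4_d1_smul (c : ZMod 2) (z : V → V → ZMod 2) : d1 (c • z) = c • d1 z :=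
  map_smul b4D1 c z

theorem b4_dep {κ : Type} [Fintype κ] (w : κ → V → V → ZMod 2) (hw : ∀ k, On T univ (w k))
    (h : {s : Finset V | s.card = 2 ∧ ∃ t ∈ T, s ⊆ t}.ncard < Fintype.card κ) :
    ∃ g : κ → ZMod 2, ∑ k, g k • w k = 0 ∧ ∃ k, g k ≠ 0 := by
  classical
  set E := {s : Finset V | s.card = 2 ∧ ∃ t ∈ T, s ⊆ t} with hE
  have h1 : ∀ e : E, ∃ a b, e.1 = {a, b} := fun e => by
    obtain ⟨a, b, -, h⟩ := Finset.card_eq_two.1 e.2.1
    exact ⟨a, b, h⟩
  choose a b hab using h1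
  have h2 : ¬ LinearIndependent (ZMod 2) fun k (e : E) => w k (a e) (b e) := fun hl => by
    have := hl.fintype_card_le_finrank
    rw [Module.finrank_fintype_fun_eq_card, ← Nat.card_eq_fintype_card (α := E),
      Nat.card_coe_set_eq] at this
    omega
  obtain ⟨g, hg, hk⟩ := Fintype.not_linearIndependent_iff.1 h2
  refine ⟨g, ?_, hk⟩
  have h3 : On T univ (∑ k, g k • w k) := On.sum fun k _ => b4_on_smul _ (hw k)
  by_contra h4
  obtain ⟨u, h5⟩ := Function.ne_iff.1 h4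
  obtain ⟨v, h6⟩ := Function.ne_iff.1 h5
  obtain ⟨-, -, hne, t, ht, hu, hv⟩ := h3.2 u v h6
  let e : E := ⟨{u, v}, Finset.card_pair hne, t, ht, by
    intro x hx
    rcases Finset.mem_insert.1 hx with rfl | hx
    · exact hu
    · rwa [Finset.mem_singleton.1 hx]⟩
  have h7 : (∑ k, g k • w k) (a e) (b e) = 0 := by
    simpa only [Finset.sum_apply, Pi.smul_apply, smul_eq_mul, Pi.zero_apply] using congrFun hg e
  have h8 : ({u, v} : Set V) = {a e, b e} := by
    have h9 : ({u, v} : Finset V) = {a e, b e} := hab e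
    simpa only [Finset.coe_insert, Finset.coe_singleton] using
      congrArg (fun s : Finset V => (s : Set V)) h9
  rcases Set.pair_eq_pair_iff.1 h8 with ⟨h9, h10⟩ | ⟨h9, h10⟩
  · exact h6 (by rw [h9, h10]; exact h7)
  · exact h6 (by rw [h9, h10, h3.1]; exact h7)

/-- Plan: rank and nullity over `ZMod 2`. Symmetric chains on edges have dimension the number of
edges; `d1` has rank `card V - 1` (`Conn.fill`); `d2` is injective on functions on `T`. -/
theorem rk (hT : IsSurf T) {N : ℕ} (h : 1 - chi T ≤ N) : Rk T N := by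
  classical
  intro ι _ z hz hN
  obtain ⟨v₀, -⟩ := hT.bd
  have hp : ∀ v, ∃ p, On T univ p ∧ d1 p = ends v₀ v := fun v =>
    (hT.conn v₀ (mem_univ _) v (mem_univ _)).fill
  choose p hp hd using hp
  obtain ⟨g, hg, k, hk⟩ := b4_dep (T := T) (κ := ι ⊕ T ⊕ {v // v ≠ v₀})
    (Sum.elim z (Sum.elim (fun t => d2 T (Pi.single t.1 1)) fun v => p v.1)) (by
      rintro (i | t | v)
      exacts [(hz i).1, on_d2 fun _ _ _ _ _ => mem_univ _, hp _]) (by
      have h1 : 0 < Fintype.card V := Fintype.card_pos_iff.2 ⟨v₀⟩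
      simp only [Fintype.card_sum, Fintype.card_coe, ne_eq, Fintype.card_subtype_compl,
        Fintype.card_unique]
      unfold chi at h
      omega)
  set Q : Finset V → ZMod 2 := ∑ t : T, g (.inr (.inl t)) • Pi.single t.1 1 with hQ
  have e1 : ∑ t : T, g (.inr (.inl t)) • d2 T (Pi.single t.1 1) = d2 T Q := by
    change _ = b4D2 T Q
    rw [hQ, map_sum]
    exact Finset.sum_congr rfl fun t _ => (map_smul (b4D2 T) _ _).symm
  simp only [Fintype.sum_sum_type, Sum.elim_inl, Sum.elim_inr, e1] at hg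
  have e2 : ∀ v, g (.inr (.inr v)) = 0 := fun v => by
    have h1 := congrFun (congrArg d1 hg) v.1
    have h2 : d1 (0 : V → V → ZMod 2) = 0 := map_zero b4D1
    simp only [d1_add, d1_sum, b4_d1_smul, d1_d2 hT, fun i => (hz i).2, hd, h2, smul_zero,
      Finset.sum_const_zero, zero_add, Finset.sum_apply, Pi.smul_apply, Pi.zero_apply] at h1
    rw [Finset.sum_eq_single v] at h1
    · simpa [ends, v.2] using h1
    · intro w _ hw
      have : v.1 ≠ w.1 := fun e => hw (Subtype.ext e).symm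
      simp [ends, v.2, this]
    · simp only [ne_eq, Finset.mem_univ, not_true_eq_false, smul_eq_mul, mul_eq_zero, IsEmpty.forall_iff]
  simp only [e2, zero_smul, Finset.sum_const_zero, add_zero] at hg
  have e3 : d2 T Q = ∑ i, g (.inl i) • z i := by
    rw [← add_zero (d2 T Q), ← hg, add_comm _ (d2 T Q), ← add_assoc, add_self1, zero_add]
  refine ⟨Finset.univ.filter fun i => g (.inl i) ≠ 0, ?_, Q, ?_⟩
  · by_contra h0
    have h1 : ∀ i, g (.inl i) = 0 := fun i => by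
      by_contra h2
      exact h0 ⟨i, by simpa only [ne_eq, Finset.mem_filter, Finset.mem_univ, true_and] using h2⟩
    simp only [h1, zero_smul, Finset.sum_const_zero] at e3
    rcases k with i | t | v
    · exact hk (h1 i)
    · have h2 := d2_inj hT (e3.trans d2_zero.symm) t.1 t.2
      rw [hQ, Finset.sum_apply, Finset.sum_eq_single t] at h2
      · exact hk (by simpa using h2)
      · intro s _ hs
        have : t.1 ≠ s.1 := fun e => hs (Subtype.ext e).symm
        simp [this]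
      · simp only [Finset.univ_eq_attach, Finset.mem_attach, not_true_eq_false, ne_eq, Pi.smul_apply, Pi.single_eq_same, smul_eq_mul, mul_one, IsEmpty.forall_iff]
    · exact hk (e2 v)
  · rw [e3, Finset.sum_filter]
    refine Finset.sum_congr rfl fun i _ => ?_
    rcases b4_two (g (.inl i)) with h1 | h1 <;> simp only [ne_eq, h1, zero_smul, not_true_eq_false, ↓ reduceIte, one_smul, one_ne_zero, not_false_eq_true]

theorem b4_bd_edge (hT : IsSurf T) {u v : V} (h : d2 T 1 u v ≠ 0) :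
    u ∈ Bd T ∧ v ∈ Bd T ∧ Adj T u v := by
  have ha : Adj T u v := ((on_d2 (A := univ) fun _ _ _ _ _ => mem_univ _).2 u v h).2.2
  have h1 : d2 T 1 u v = (deg T u v : ZMod 2) := by simp [d2, ha.1, deg]
  have h2 := hT.two u v ha.1
  have h3 : deg T u v = 1 := by
    rw [h1] at h
    generalize deg T u v = k at h h2
    interval_cases k
    · exact absurd rfl h
    · rfl
    · exact absurd rfl h
  refine ⟨⟨v, ha.1.symm, ?_⟩, ⟨u, ha.1, h3⟩, ha⟩
  rw [← h3]
  simp only [deg, and_comm]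

theorem b4_const (hT : IsSurf T) {Q : Finset V → ZMod 2}
    (h : ∀ v, ∃ c : ZMod 2, ∀ u, d2 T (Q + c • 1) u v = 0) {t t' : Finset V} (ht : t ∈ T)
    (ht' : t' ∈ T) {x y : V} (hx : x ∈ t) (hy : y ∈ t') : Q t = Q t' := by
  have h1 : ∀ v, ∀ s ∈ T, ∀ s' ∈ T, v ∈ s → v ∈ s' → Q s = Q s' := fun v s hs s' hs' hv hv' => by
    obtain ⟨c, hc⟩ := h v
    simpa using status hT hc hs hs' hv hv'
  obtain ⟨-, hj⟩ := hT.conn x (mem_univ _) y (mem_univ _)
  induction hj generalizing t' with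
  | refl => exact h1 x t ht t' ht' hx hy
  | tail _ hab ih =>
    obtain ⟨-, -, s, hs, h2, h3⟩ := hab
    exact (ih hs h2).trans (h1 _ s hs t' ht' h3 hy)

/-- Plan: the boundary edges inside one component of `Bd T` form a non-zero cycle; a 2-chain whose
boundary has boundary edges only is constant. -/
theorem bd_roots (hT : IsSurf T) {N : ℕ} (h : Rk T N) :
    ∃ R : Finset V, R.card ≤ N + 1 ∧ ∀ v ∈ Bd T, ∃ r ∈ R, Jn T (Bd T) v r := by
  classical
  have : Nonempty V := ⟨hT.bd.some⟩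
  let rep : V → V := fun v => Classical.epsilon fun u => Jn T (Bd T) v u
  have h1 : ∀ v ∈ Bd T, Jn T (Bd T) v (rep v) := fun v hv =>
    Classical.epsilon_spec (p := fun u => Jn T (Bd T) v u) ⟨v, Jn.refl hv⟩
  have h2 : ∀ v w, Jn T (Bd T) v w → rep v = rep w := fun v w hj =>
    congrArg Classical.epsilon (funext fun u => propext ⟨hj.symm.trans, hj.trans⟩)
  let R : Finset V := (Finset.univ.filter fun v => v ∈ Bd T).image rep
  have h3 : ∀ r ∈ R, r ∈ Bd T ∧ rep r = r := fun r hr => by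
    obtain ⟨v, hv, rfl⟩ := Finset.mem_image.1 hr
    have := h1 v (by simpa using hv)
    exact ⟨this.right, (h2 _ _ this).symm⟩
  refine ⟨R, ?_, fun v hv => ⟨rep v, Finset.mem_image_of_mem _ (by simpa using hv), h1 v hv⟩⟩
  by_contra hc
  obtain ⟨r₀, h0⟩ : R.Nonempty := Finset.card_pos.1 (by omega)
  let z : R.erase r₀ → V → V → ZMod 2 := fun r u v =>
    (if Jn T (Bd T) r.1 v then 1 else 0) * d2 T 1 u v
  have h4 : On T univ (d2 T 1) := on_d2 fun _ _ _ _ _ => mem_univ _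
  obtain ⟨I, ⟨i, hi⟩, Q, hQ⟩ := h (R.erase r₀) z (fun r => by
    refine ⟨⟨fun u v => ?_, fun u v hz => h4.2 u v (right_ne_zero_of_mul hz)⟩, funext fun v => ?_⟩
    · by_cases h5 : d2 T 1 u v = 0
      · simp only [z, h5, ← h4.1 u v, mul_zero]
      · obtain ⟨h6, h7, h8⟩ := b4_bd_edge hT h5
        have : Jn T (Bd T) r.1 v ↔ Jn T (Bd T) r.1 u :=
          ⟨fun hj => hj.step h6 h8.symm, fun hj => hj.step h7 h8⟩
        simp only [z, this, h4.1 u v]
    · have := congrFun (d1_d2 hT 1) v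
      simp only [d1, Pi.zero_apply] at this
      simp only [d1, z, ← Finset.mul_sum, this, mul_zero, Pi.zero_apply]) (by
    rw [Fintype.card_coe, Finset.card_erase_of_mem h0]
    omega)
  let c : V → ZMod 2 := fun v => ∑ r ∈ I, if Jn T (Bd T) r.1 v then 1 else 0
  have h5 : ∀ v u, d2 T (Q + c v • 1) u v = 0 := fun v u => by
    have e : d2 T (c v • 1) = c v • d2 T 1 := map_smul (b4D2 T) _ _
    rw [d2_add, e, hQ]
    simp only [Pi.add_apply, Finset.sum_apply, z, c, Pi.smul_apply, smul_eq_mul, Finset.sum_mul]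
    exact CharTwo.add_self_eq_zero _
  have hi' := Finset.mem_erase.1 i.2
  have h6 : ∀ r ∈ R, ∀ r' ∈ R, Jn T (Bd T) r r' → r = r' := fun r hr r' hr' hj => by
    rw [← (h3 r hr).2, h2 _ _ hj, (h3 r' hr').2]
  have c0 : c r₀ = 0 := Finset.sum_eq_zero fun r _ => if_neg fun hj =>
    (Finset.mem_erase.1 r.2).1 (h6 _ (Finset.mem_erase.1 r.2).2 _ h0 hj)
  have c1 : c i.1 = 1 := by
    rw [show c i.1 = _ from Finset.sum_eq_single_of_mem i hi fun r _ hr => if_neg fun hj =>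
      hr (Subtype.ext (h6 _ (Finset.mem_erase.1 r.2).2 _ hi'.2 hj)), if_pos (Jn.refl (h3 _ hi'.2).1)]
  obtain ⟨t, ht, hv⟩ := hT.used r₀
  obtain ⟨t', ht', hv'⟩ := hT.used i.1
  have e0 := status_bd hT (h5 r₀) (h3 _ h0).1 ht hv
  have e1 := status_bd hT (h5 i.1) (h3 _ hi'.2).1 ht' hv'
  have e2 := b4_const hT (fun v => ⟨c v, h5 v⟩) ht ht' hv hv'
  simp only [c0, c1, Pi.add_apply, Pi.smul_apply, Pi.one_apply, smul_eq_mul, mul_one,
    add_zero] at e0 e1
  rw [← e2, e0] at e1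
  exact absurd e1 (by decide)

open Classical in
/-- The pairing of a chain with a function on the edges that leave `C`. -/
noncomputable def b4Pr (C : Set V) (ψ z : V → V → ZMod 2) : ZMod 2 :=
  ∑ c, ∑ w, if c ∈ C ∧ w ∉ C then ψ c w * z c w else 0

omit [DecidableEq V] in
theorem b4_pr_add (C : Set V) (ψ z z' : V → V → ZMod 2) :
    b4Pr C ψ (z + z') = b4Pr C ψ z + b4Pr C ψ z' := by
  simp only [b4Pr, ← Finset.sum_add_distrib, Pi.add_apply, mul_add]
  refine Finset.sum_congr rfl fun c _ => Finset.sum_congr rfl fun w _ => ?_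
  split_ifs <;> simp only [add_zero]

omit [DecidableEq V] in
theorem b4_pr_zero {C : Set V} {ψ z : V → V → ZMod 2} (h : ∀ c ∈ C, ∀ w, w ∉ C → z c w = 0) :
    b4Pr C ψ z = 0 :=
  Finset.sum_eq_zero fun c _ => Finset.sum_eq_zero fun w _ => by
    split_ifs with h1
    · rw [h c h1.1 w h1.2, mul_zero]
    · rfl

theorem b4_pr_edge {C : Set V} (ψ : V → V → ZMod 2) {c w : V} (hc : c ∈ C) (hw : w ∉ C) :
    b4Pr C ψ (edge c w) = ψ c w := by
  have h0 : c ≠ w := fun e => hw (e ▸ hc)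
  have h1 : ∀ a b, a ∈ C → b ∉ C → ¬ (a = c ∧ b = w) → edge c w a b = 0 := fun a b ha hb h => by
    refine if_neg fun h' => h'.2.elim h fun h'' => hw (h''.1 ▸ ha)
  unfold b4Pr
  rw [Finset.sum_eq_single c, Finset.sum_eq_single w]
  · simp [hc, hw, edge, h0]
  · intro b _ hb
    split_ifs with h2
    · rw [h1 c b h2.1 h2.2 fun h => hb h.2, mul_zero]
    · rfl
  · simp only [Finset.mem_univ, not_true_eq_false, ite_eq_right_iff, mul_eq_zero, and_imp, IsEmpty.forall_iff]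
  · intro a _ ha
    refine Finset.sum_eq_zero fun b _ => ?_
    split_ifs with h2
    · rw [h1 a b h2.1 h2.2 fun h => ha h.1, mul_zero]
    · rfl
  · simp only [Finset.mem_univ, not_true_eq_false, IsEmpty.forall_iff]

theorem b4_pr_d2 (hT : IsSurf T) {C : Set V} {ψ : V → V → ZMod 2} {Q : Finset V → ZMod 2}
    (h : ∀ t ∈ T, ∀ c ∈ t, ∀ w ∈ t, c ∈ C → w ∉ C → ψ c w = Q t) (Q' : Finset V → ZMod 2) :
    b4Pr C ψ (d2 T Q') = 0 := by
  classical
  have h1 : ∀ c w, (if c ∈ C ∧ w ∉ C then ψ c w * d2 T Q' c w else 0) = ∑ t ∈ T,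
      (if c ∈ t ∧ c ∈ C then 1 else 0) * (if w ∈ t ∧ w ∉ C then 1 else 0) * (Q t * Q' t) := by
    intro c w
    split_ifs with h2
    · have h0 : c ≠ w := fun e => h2.2 (e ▸ h2.1)
      simp only [d2, h0, if_false, Finset.sum_filter, Finset.mul_sum]
      refine Finset.sum_congr rfl fun t ht => ?_
      by_cases h3 : c ∈ t ∧ w ∈ t
      · simp [h3, h2, h t ht c h3.1 w h3.2 h2.1 h2.2]
      · rcases not_and_or.1 h3 with h4 | h4 <;> simp [h4]
    · refine (Finset.sum_eq_zero fun t _ => ?_).symm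
      rcases not_and_or.1 h2 with h4 | h4 <;> simp [h4]
  unfold b4Pr
  simp only [h1]
  rw [Finset.sum_congr rfl fun c _ => Finset.sum_comm, Finset.sum_comm]
  refine Finset.sum_eq_zero fun t ht => ?_
  simp only [← Finset.sum_mul, ← Finset.mul_sum, Finset.sum_boole]
  have h2 : (Finset.univ.filter fun c => c ∈ t ∧ c ∈ C).card +
      (Finset.univ.filter fun c => c ∈ t ∧ c ∉ C).card = 3 := by
    rw [← hT.card t ht, ← Finset.card_filter_add_card_filter_not (s := t) fun c => c ∈ C]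
    congr 2 <;> ext c <;> simp only [Finset.mem_filter, Finset.mem_univ, true_and]
  generalize (Finset.univ.filter fun c => c ∈ t ∧ c ∈ C).card = a at h2
  generalize (Finset.univ.filter fun c => c ∈ t ∧ c ∉ C).card = b at h2
  have h3 : (a : ZMod 2) * b = 0 := by
    obtain rfl : b = 3 - a := by omega
    have : a ≤ 3 := by omega
    interval_cases a <;> decide
  rw [h3, zero_mul]

/-- Plan: write a cycle `z` of the component `C` as `d2 Q + b`. On an edge from `C` to `B` both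
triangles have the same value `ψ`; `ψ` is a relative cocycle, so it vanishes on relative cycles
and is constant; subtract the constant on all triangles that meet `C`. -/
theorem null_acyc (hT : IsSurf T) {B : Set V} (hb : Bd T ⊆ B) (h : ∀ z, Rel T B z → Nul T B z)
    (u : V) : Acyc T {v | Jn T Bᶜ u v} := by
  classical
  set C := {v | Jn T Bᶜ u v} with hC
  have hCB : ∀ c ∈ C, c ∉ B := fun c hc => Jn.right hc
  have hout : ∀ c ∈ C, ∀ w, w ∉ C → Adj T c w → w ∈ B := fun c hc w hw ha => by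
    by_contra h1
    exact hw (Jn.step hc h1 ha)
  intro z hz
  obtain ⟨Q, b, hb', e⟩ := h z ⟨hz.1.mono (subset_univ _), fun v _ => congrFun hz.2 v⟩
  have h1 : ∀ c ∈ C, ∀ w, d2 T Q c w = z c w := fun c hc w => by
    have : b c w = 0 := by
      by_contra h2
      exact hCB c hc (hb'.2 c w h2).1
    simp [e, this]
  have h2 : ∀ c ∈ C, ∀ w, w ∉ C → ∀ t ∈ T, ∀ t' ∈ T, c ∈ t → w ∈ t → c ∈ t' → w ∈ t' →
      Q t = Q t' := fun c hc w hw t ht t' ht' a1 a2 a3 a4 => by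
    have h0 : c ≠ w := fun e => hw (e ▸ hc)
    obtain ⟨s, -, s', -, hs, hf⟩ := two_tri hT ⟨h0, t, ht, a1, a2⟩ fun h3 => hCB c hc (hb h3)
    have h3 : z c w = 0 := by
      by_contra h4
      exact hw (hz.1.2 c w h4).2.1
    have h4 := (h1 c hc w).trans h3
    simp only [d2, h0, if_false, hf, Finset.sum_pair hs] at h4
    have h5 : Q s = Q s' := CharTwo.add_eq_zero.1 h4
    have h6 : ∀ r ∈ T, c ∈ r → w ∈ r → Q r = Q s := fun r hr b1 b2 => by
      have : r ∈ ({s, s'} : Finset (Finset V)) := hf ▸ Finset.mem_filter.2 ⟨hr, b1, b2⟩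
      rcases Finset.mem_insert.1 this with rfl | h7
      · rfl
      · rw [Finset.mem_singleton.1 h7, h5]
    rw [h6 t ht a1 a2, h6 t' ht' a3 a4]
  let ψ : V → V → ZMod 2 := fun c w => Q (Classical.epsilon fun t => t ∈ T ∧ c ∈ t ∧ w ∈ t)
  have h3 : ∀ t ∈ T, ∀ c ∈ t, ∀ w ∈ t, c ∈ C → w ∉ C → ψ c w = Q t :=
    fun t ht c a1 w a2 hc hw => by
      obtain ⟨b0, b1, b2⟩ := Classical.epsilon_spec (p := fun t => t ∈ T ∧ c ∈ t ∧ w ∈ t)
        ⟨t, ht, a1, a2⟩
      exact h2 c hc w hw _ b0 t ht b1 b2 a1 a2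
  have h4 : ∀ t t', Mixed T C t → Mixed T C t' → Q t = Q t' := by
    rintro t t' ⟨ht, ⟨c, a1, hc⟩, w, a2, hw⟩ ⟨ht', ⟨c', a3, hc'⟩, w', a4, hw'⟩
    have b1 : Adj T c w := ⟨fun e => hw (e ▸ hc), t, ht, a1, a2⟩
    have b2 : Adj T c' w' := ⟨fun e => hw' (e ▸ hc'), t', ht', a3, a4⟩
    obtain ⟨p, hp, hd⟩ := (conn_comp Bᶜ u c hc c' hc').fill
    obtain ⟨Q', b', b3, b4⟩ := h (edge c w + p + edge c' w') ⟨((on_edge b1 (mem_univ _) (mem_univ _)).add
      (hp.mono (subset_univ _))).add (on_edge b2 (mem_univ _) (mem_univ _)), fun v hv => by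
        rw [d1_add, d1_add, d1_edge, d1_edge, hd, ends_comm c w, ends_add, ends_add]
        have c1 : v ≠ w := fun e => hv (e ▸ hout c hc w hw b1)
        have c2 : v ≠ w' := fun e => hv (e ▸ hout c' hc' w' hw' b2)
        simp [ends, c1, c2]⟩
    have b5 := congrArg (b4Pr C ψ) b4
    rw [b4_pr_add, b4_pr_add, b4_pr_add, b4_pr_edge ψ hc hw, b4_pr_edge ψ hc' hw', b4_pr_d2 hT h3,
      b4_pr_zero (z := p), b4_pr_zero (z := b'), h3 t ht c a1 w a2 hc hw,
      h3 t' ht' c' a3 w' a4 hc' hw', add_zero, add_zero] at b5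
    · exact CharTwo.add_eq_zero.1 b5
    · intro x hx y _
      by_contra c1
      exact hCB x hx (b3.2 x y c1).1
    · intro x _ y hy
      by_contra c1
      exact hy (hp.2 x y c1).2.1
  obtain ⟨κ, hκ⟩ : ∃ κ, ∀ t, Mixed T C t → Q t = κ := by
    by_cases h5 : ∃ t, Mixed T C t
    · obtain ⟨t, ht⟩ := h5
      exact ⟨Q t, fun t' ht' => h4 _ _ ht' ht⟩
    · exact ⟨0, fun t ht => absurd ⟨t, ht⟩ h5⟩
  let Q' : Finset V → ZMod 2 := fun t => if ∃ v ∈ t, v ∈ C then Q t + κ else 0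
  have h5 : ∀ t ∈ T, Q' t ≠ 0 → ∀ v ∈ t, v ∈ C := fun t ht h0 v hv => by
    by_contra h6
    by_cases h7 : ∃ v ∈ t, v ∈ C
    · exact h0 (by simp only [Q', if_pos h7, hκ t ⟨ht, h7, v, hv, h6⟩, CharTwo.add_self_eq_zero])
    · exact h0 (if_neg h7)
  refine ⟨Q', h5, funext fun x => funext fun y => ?_⟩
  by_cases hx : x ∈ C
  · rw [← h1 x hx y]
    by_cases h6 : Adj T x y
    · obtain ⟨s, -, s', -, hs, hf⟩ := two_tri hT h6 fun h3 => hCB x hx (hb h3)
      have h7 : ∀ r ∈ ({s, s'} : Finset (Finset V)), Q' r = Q r + κ := fun r hr =>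
        if_pos ⟨x, (Finset.mem_filter.1 (hf ▸ hr)).2.1, hx⟩
      simp only [d2, h6.1, if_false, hf, Finset.sum_pair hs]
      rw [h7 s (by simp), h7 s' (by simp), add_add_add_comm, CharTwo.add_self_eq_zero, add_zero]
    · have h7 : ∀ P : Finset V → ZMod 2, d2 T P x y = 0 := fun P => by
        by_contra h8
        exact h6 ((on_d2 (A := univ) fun _ _ _ _ _ => mem_univ _).2 x y h8).2.2
      rw [h7, h7]
  · have h6 : z x y = 0 := by
      by_contra h7
      exact hx (hz.1.2 x y h7).1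
    rw [h6]
    by_contra h7
    exact hx ((on_d2 h5).2 x y h7).1

theorem b4_push {B B' : Set V} (ha : ∀ v ∈ B', ∃ b ∈ B, Jn T B' v b) {z : V → V → ZMod 2}
    (hz : Rel T B' z) : ∃ p, On T B' p ∧ Rel T B (z + p) := by
  classical
  have h1 : ∀ v : B', ∃ b ∈ B, ∃ p, On T B' p ∧ d1 p = ends v.1 b := fun v => by
    obtain ⟨b, hb, hj⟩ := ha v.1 v.2
    exact ⟨b, hb, hj.fill⟩
  choose β hβ p hp hd using h1
  have h2 : On T B' (∑ v : B', d1 z v.1 • p v) := On.sum fun v _ => b4_on_smul _ (hp v)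
  refine ⟨_, h2, hz.1.add (h2.mono (subset_univ _)), fun w hw => ?_⟩
  have h3 : ∀ v, w ≠ β v := fun v e => hw (e ▸ hβ v)
  simp only [d1_add, d1_sum, b4_d1_smul, hd, Pi.add_apply, Finset.sum_apply, Pi.smul_apply, ends,
    Pi.single_eq_of_ne (h3 _), add_zero, smul_eq_mul]
  by_cases h4 : w ∈ B'
  · rw [Finset.sum_eq_single ⟨w, h4⟩]
    · simp [CharTwo.add_self_eq_zero]
    · intro v _ hv
      rw [Pi.single_eq_of_ne fun e => hv (Subtype.ext e.symm), mul_zero]
    · simp only [Finset.mem_univ, not_true_eq_false, Pi.single_eq_same, mul_one, IsEmpty.forall_iff]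
  · rw [hz.2 w h4, zero_add]
    refine Finset.sum_eq_zero fun v _ => ?_
    rw [Pi.single_eq_of_ne fun e : w = v.1 => h4 (e ▸ v.2), mul_zero]

theorem null_att {B B' : Set V} (hB : B ⊆ B') (ha : ∀ v ∈ B', ∃ b ∈ B, Jn T B' v b)
    (h : ∀ z, Rel T B z → Nul T B z) : ∀ z, Rel T B' z → Nul T B' z := by
  intro z hz
  obtain ⟨p, hp, h1⟩ := b4_push ha hz
  have := ((h _ h1).mono hB).add hp.nul
  rwa [add_assoc, add_self1, add_zero] at this

/-- A set of chains closed under sums as a subspace. -/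
def b4Sub (P : (V → V → ZMod 2) → Prop) (h0 : P 0) (ha : ∀ z z', P z → P z' → P (z + z')) :
    Submodule (ZMod 2) (V → V → ZMod 2) where
  carrier := {z | P z}
  add_mem' := ha _ _
  zero_mem' := h0
  smul_mem' c z hz := by
    rcases b4_two c with rfl | rfl
    · rw [zero_smul]; exact h0
    · rwa [one_smul]

variable (T) in
/-- The relative cycles. -/
def b4R (B : Set V) : Submodule (ZMod 2) (V → V → ZMod 2) :=
  b4Sub (Rel T B) ⟨On.zero, fun _ _ => by simp only [d1, Pi.zero_apply, Finset.sum_const_zero]⟩ fun _ _ h h' => ⟨h.1.add h'.1, fun v hv => by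
    rw [d1_add, Pi.add_apply, h.2 v hv, h'.2 v hv, add_zero]⟩

variable (T) in
/-- The cycles. -/
def b4C (A : Set V) : Submodule (ZMod 2) (V → V → ZMod 2) :=
  b4Sub (Cyc T A) ⟨On.zero, map_zero b4D1⟩ fun _ _ h h' => ⟨h.1.add h'.1, by
    rw [d1_add, h.2, h'.2, add_zero]⟩

variable (T) in
/-- The relative boundaries. -/
def b4N (B : Set V) : Submodule (ZMod 2) (V → V → ZMod 2) :=
  b4Sub (Nul T B) On.zero.nul fun _ _ => Nul.add

section Dim

open Module

variable {k M : Type} [Field k] [AddCommGroup M] [Module k M] [FiniteDimensional k M]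
  {A A' P P' : Submodule k M}

/-- The dimension of the image of `A` in the quotient by `P`. -/
noncomputable def b4D (A P : Submodule k M) : ℕ :=
  finrank k (LinearMap.range (P.mkQ ∘ₗ A.subtype))

theorem b4_inf (A P : Submodule k M) : b4D A P + finrank k (A ⊓ P : Submodule k M) = finrank k A := by
  rw [← LinearMap.finrank_range_add_finrank_ker (P.mkQ ∘ₗ A.subtype), LinearMap.ker_comp,
    Submodule.ker_mkQ, ← Submodule.finrank_map_subtype_eq A (P.comap A.subtype),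
    Submodule.map_comap_subtype, b4D]

theorem b4_sup (A P : Submodule k M) : b4D A P + finrank k P = finrank k (A ⊔ P : Submodule k M) := by
  have h1 := b4_inf A P
  have h2 := Submodule.finrank_sup_add_finrank_inf_eq A P
  omega

theorem b4_le (h : A ≤ A' ⊔ P) : b4D A P ≤ b4D A' P := by
  have h1 := b4_sup A P
  have h2 := b4_sup A' P
  have h3 := Submodule.finrank_mono (sup_le h le_sup_right)
  omega

theorem b4_lt (h : P ≤ P') {z : M} (h1 : z ∈ A) (h2 : z ∉ P) (h3 : z ∈ P') :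
    b4D A P' < b4D A P := by
  have h4 := b4_inf A P
  have h5 := b4_inf A P'
  have h6 := Submodule.finrank_lt_finrank_of_lt (lt_of_le_of_ne (inf_le_inf_left A h) fun e =>
    h2 (e.ge ⟨h1, h3⟩).2)
  omega

theorem b4_anti (h : P ≤ P') : b4D A P' ≤ b4D A P := by
  have h4 := b4_inf A P
  have h5 := b4_inf A P'
  have h6 := Submodule.finrank_mono (inf_le_inf_left A h)
  omega

theorem b4_succ {y : M} (h : A ≤ A' ⊔ k ∙ y) : b4D A P ≤ b4D A' P + 1 := by
  have h1 := b4_sup A P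
  have h2 := b4_sup A' P
  have h3 : A ⊔ P ≤ (A' ⊔ P) ⊔ k ∙ y :=
    sup_le (h.trans (sup_le_sup_right le_sup_left _)) (le_sup_right.trans le_sup_left)
  have h4 := Submodule.finrank_mono h3
  have h5 := Submodule.finrank_add_le_finrank_add_finrank (A' ⊔ P) (k ∙ y)
  have h6 : finrank k (k ∙ y) ≤ 1 := by
    simpa using finrank_span_le_card (R := k) ({y} : Set M)
  omega

end Dim

theorem b4_ins (B : Set V) (x : V) (P : Submodule (ZMod 2) (V → V → ZMod 2)) :
    b4D (b4R T (insert x B)) P ≤ b4D (b4R T B) P + 1 := by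
  have h1 : ∀ z, Rel T (insert x B) z → d1 z x = 0 → Rel T B z := fun z hz h0 =>
    ⟨hz.1, fun v hv => by
      by_cases e : v = x
      · rwa [e]
      · exact hz.2 v fun h => h.elim e hv⟩
  by_cases h : ∃ y, Rel T (insert x B) y ∧ d1 y x = 1
  · obtain ⟨y, hy, h2⟩ := h
    refine b4_succ (y := y) fun z hz => ?_
    rcases b4_two (d1 z x) with h3 | h3
    · exact Submodule.mem_sup_left (h1 z hz h3)
    · have h4 : z + y ∈ b4R T B := h1 _ ((b4R T _).add_mem hz hy) (by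
        rw [d1_add, Pi.add_apply, h2, h3]; rfl)
      have := Submodule.add_mem_sup h4 (Submodule.mem_span_singleton_self (R := ZMod 2) y)
      rwa [add_assoc, add_self1, add_zero] at this
  · refine (b4_le fun z hz => Submodule.mem_sup_left (h1 z hz ?_)).trans (Nat.le_succ _)
    exact (b4_two _).resolve_right fun h3 => h ⟨z, hz, h3⟩

theorem b4_psh {B B' : Set V} (ha : ∀ v ∈ B', ∃ b ∈ B, Jn T B' v b) :
    b4D (b4R T B') (b4N T B') ≤ b4D (b4R T B) (b4N T B') :=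
  b4_le fun z hz => by
    obtain ⟨p, hp, h1⟩ := b4_push ha hz
    have := Submodule.add_mem_sup (S := b4R T B) (T := b4N T B') h1 hp.nul
    rwa [add_assoc, add_self1, add_zero] at this

theorem b4_rk {N : ℕ} (h : Rk T N) {A : Submodule (ZMod 2) (V → V → ZMod 2)}
    (hA : ∀ z ∈ A, Cyc T univ z) (B : Set V) : b4D A (b4N T B) ≤ N := by
  by_contra hc
  let b := Module.finBasis (ZMod 2) (LinearMap.range ((b4N T B).mkQ ∘ₗ A.subtype))
  choose z hz using fun i => (b i).2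
  obtain ⟨I, ⟨i, hi⟩, Q, hQ⟩ := h _ (fun i => (z i).1) (fun i => hA _ (z i).2)
    (by rw [Fintype.card_fin]; exact not_le.1 hc)
  refine one_ne_zero (linearIndependent_iff'.1 b.linearIndependent I (fun _ => 1) ?_ i hi)
  apply Subtype.ext
  have h1 : (b4N T B).mkQ (∑ i ∈ I, (z i).1) = 0 :=
    (Submodule.Quotient.mk_eq_zero _).2 (hQ ▸ nul_d2 Q)
  rw [map_sum] at h1
  simp only [one_smul, Submodule.coe_sum, ← hz]
  exact h1

/-- Plan: `μ B = dim R + dim I`, where `R` and `I` are the images of the relative cycles and of the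
cycles in `Bᶜ` in the quotient of all functions by the subspace `Nul T B`. -/
theorem exists_mu (hT : IsSurf T) {N : ℕ} (h : Rk T N) : ∃ μ : Set V → ℕ,
    (∀ (B : Set V) (R : Finset V), (∀ v ∈ B, ∃ r ∈ R, Jn T B v r) → μ B ≤ 2 * N + R.card) ∧
    (∀ B B' z, B ⊆ B' → (∀ v ∈ B', ∃ b ∈ B, Jn T B' v b) → Rel T B z → ¬ Nul T B z →
      Nul T B' z → μ B' < μ B) ∧
    ∀ B B' x z, B ⊆ B' → (∀ v ∈ B', (∃ b ∈ B, Jn T B' v b) ∨ Jn T B' v x) → Cyc T Bᶜ z →
      ¬ Nul T B z → Nul T B' z → μ B' < μ B := by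
  classical
  have _ := hT
  have hI : ∀ B B' : Set V, B ⊆ B' → b4D (b4C T B'ᶜ) (b4N T B') ≤ b4D (b4C T Bᶜ) (b4N T B') :=
    fun B B' hB => b4_le fun z (hz : Cyc T B'ᶜ z) =>
      Submodule.mem_sup_left (⟨hz.1.mono (compl_subset_compl.2 hB), hz.2⟩ : Cyc T Bᶜ z)
  have hN : ∀ B B' : Set V, B ⊆ B' → b4N T B ≤ b4N T B' := fun B B' hB z hz => Nul.mono hz hB
  refine ⟨fun B => b4D (b4R T B) (b4N T B) + b4D (b4C T Bᶜ) (b4N T B), fun B R hR => ?_,
    fun B B' z hB ha h1 h2 h3 => ?_, fun B B' x z hB ha h1 h2 h3 => ?_⟩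
  · have h1 := b4_psh (B := (R : Set V)) hR
    have h2 : b4D (b4R T (R : Set V)) (b4N T B) ≤ N + R.card := by
      clear h1 hR
      induction R using Finset.induction_on with
      | empty =>
        exact b4_rk h (A := b4R T ((∅ : Finset V) : Set V))
          (fun z hz => ⟨hz.1, funext fun v => hz.2 v (by simp)⟩) B
      | insert a s ha ih =>
        have := b4_ins (T := T) (s : Set V) a (b4N T B)
        rw [Finset.coe_insert, Finset.card_insert_of_notMem ha]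
        omega
    have h3 := b4_rk h (A := b4C T Bᶜ) (fun z hz => ⟨hz.1.mono (subset_univ _), hz.2⟩) B
    simp only
    omega
  · have h4 := b4_psh ha
    have h5 := b4_lt (A := b4R T B) (hN B B' hB) h1 h2 h3
    have h6 := hI B B' hB
    have h7 := b4_anti (A := b4C T Bᶜ) (hN B B' hB)
    simp only
    omega
  · have h4 := b4_psh (B := insert x B) fun v hv => (ha v hv).elim
      (fun ⟨b, hb, hj⟩ => ⟨b, .inr hb, hj⟩) fun hj => ⟨x, .inl rfl, hj⟩
    have h5 := b4_lt (A := b4R T B) (hN B B' hB)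
      (⟨h1.1.mono (subset_univ _), fun v _ => congrFun h1.2 v⟩ : Rel T B z) h2 h3
    have h6 := hI B B' hB
    have h7 := b4_lt (A := b4C T Bᶜ) (hN B B' hB) h1 h2 h3
    have h8 := b4_ins (T := T) B x (b4N T B')
    simp only
    omega

end Pool.Agent.MP_17e62b_gt.T55

end
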