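import Pool.Agent.MP_17e62b_gt.Mg.T55_MB1

attribute [-instance] instCharZeroOfIsSemireal RKHS.instFunLike NumberField.to_charZero
  Pi.partialOrder RCLike.charZero_rclike Set.instCoeSortType instCoeHTCTOfCoeTailOfCoeHTC
  AddQuantale.instAddLeftMono instCoeHTCOfCoeHeadOfCoeOTC List.instDecidableMemOfLawfulBEq
  IdemSemiring.toCanonicallyOrderedAdd Algebra.IsFiniteSplit.instFree IdemSemiring.toSemiring
  IsStrictOrderedRing.toCharZero ContinuousMonoidHom.instCoeOutOfMonoidHomClassOfContinuousMapClass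
  instCoeOutOfCoeFun Finset.decidableDforallFinset NonUnitalNonAssocSemiring.toDistrib
  Multiset.decidableDforallMultiset Vector.instDecidableForallForallMemOfDecidablePred
  Array.instDecidableForallForallMemOfDecidablePred NormedField.toField CommRing.toRing
  Option.decidableForallMem NormedDivisionRing.toDivisionRing
  NonUnitalNonAssocSemiring.toMulZeroClass instCoeTCOfCoe NormedRing.toRing instSMulZeroClass
  SemilatticeInf.toPartialOrder LinearOrderedCommMonoidWithZero.toPosMulStrictMono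

section

/-!
Growing the classes; the forest lemma; tubes.
-/

namespace Pool.Agent.MP_17e62b_gt.T55

open Set Metric Topology
open scoped InnerProductSpace Manifold

variable {V : Type} [Fintype V] [DecidableEq V] {T : Finset (Finset V)}
variable {n : ℕ} {F : V → EuclideanSpace ℝ (Fin n)}

theorem b5_in {A B : Set V} {x y : V} (h : Jn T A x y) (hB : ∀ u, Jn T A x u → u ∈ B) :
    Jn T B x y :=
  (conn_comp A x x (Jn.refl h.1) y h).mono hB

theorem b5_root {S : Set V} {root : V → V} (h : Cls T S root) {v : V} (hv : v ∈ S) :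
    root v ∈ S := (h v hv).2.right.1

/-- Plan: induction on the number of vertices of `K \ S`, adding a neighbour of `S`. -/
theorem absorb {S K : Set V} {root : V → V} (h : Cls T S root)
    (hK : ∀ v ∈ K, v ∉ S → ∃ u s, Jn T (K \ S) v u ∧ s ∈ S ∧ Adj T u s) :
    ∃ root', Cls T (S ∪ K) root' ∧ EqOn root' root S ∧
      ∀ v ∈ K, v ∉ S → ∃ u s, Jn T (K \ S) v u ∧ s ∈ S ∧ Adj T u s ∧ root' v = root s := by
  classical
  by_cases hV : Nonempty V
  swap
  · exact ⟨root, fun v => absurd ⟨v⟩ hV, fun _ _ => rfl, fun v => absurd ⟨v⟩ hV⟩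
  let P : V → V × V → Prop := fun v q => Jn T (K \ S) v q.1 ∧ q.2 ∈ S ∧ Adj T q.1 q.2
  let e : V → V × V := fun v => Classical.epsilon (P v)
  have h1 : ∀ v ∈ K, v ∉ S → P v (e v) := fun v hv hs => by
    obtain ⟨u, s, h1⟩ := hK v hv hs
    exact Classical.epsilon_spec (p := P v) ⟨(u, s), h1⟩
  have h2 : ∀ v w, Jn T (K \ S) v w → e w = e v := fun v w hj =>
    congrArg Classical.epsilon (funext fun q => propext
      (and_congr_left fun _ => ⟨hj.trans, hj.symm.trans⟩))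
  let r : V → V := fun v => if v ∈ S then root v else root (e v).2
  have h3 : EqOn r root S := fun v hv => if_pos hv
  have h4 : ∀ s ∈ S, r (root s) = root s ∧ Jn T {u ∈ S ∪ K | r u = root s} s (root s) :=
    fun s hs => ⟨(h3 (b5_root h hs)).trans (h s hs).1,
      (h s hs).2.mono fun u hu => ⟨.inl hu.1, (h3 hu.1).trans hu.2⟩⟩
  refine ⟨r, fun v hv => ?_, h3, fun v hv hs => ⟨_, _, (h1 v hv hs).1, (h1 v hv hs).2.1,
    (h1 v hv hs).2.2, if_neg hs⟩⟩
  by_cases hs : v ∈ S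
  · rw [h3 hs]
    exact h4 v hs
  · obtain ⟨a1, a2, a3⟩ := h1 v (hv.resolve_left hs) hs
    rw [show r v = root (e v).2 from if_neg hs]
    refine ⟨(h4 _ a2).1, ((b5_in (B := {u ∈ S ∪ K | r u = root (e v).2}) a1 fun u hu =>
      ⟨.inr hu.right.1, ?_⟩).step (h4 _ a2).2.1 a3).trans (h4 _ a2).2⟩
    rw [← h2 v u hu]
    exact if_neg hu.right.2

variable {N N' : ℕ} {ρ ρ' ω R : ℝ} {S Y K : Set V} {root : V → V}

theorem Base.mono (h : Base T F N ρ S Y root) (hN : N ≤ N') (hρ : ρ ≤ ρ') :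
    Base T F N' ρ' S Y root := by
  exact ⟨h.cls, fun v hv => (h.rad v hv).trans hρ, h.bd, h.few.trans hN, h.disj, h.tube⟩

omit [Fintype V] in
theorem b5_tube (h : Base T F N ρ S Y root) {root' : V → V} (he : EqOn root' root S) :
    ∀ y ∈ Y, ∃ a b, ∀ u, Jn T Y y u → ∀ w, w ∉ Y → Adj T u w →
      w ∈ S ∪ K ∧ (root' w = a ∨ root' w = b) := fun y hy => by
  obtain ⟨a, b, h1⟩ := h.tube y hy
  refine ⟨a, b, fun u hu w hw ha => ?_⟩
  obtain ⟨h2, h3⟩ := h1 u hu w hw ha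
  exact ⟨.inl h2, by rwa [he h2]⟩

theorem Base.absorb (hF : Sad T F ω) (h : Base T F N ρ S Y root) (hY : Disjoint K Y) (hR : 0 ≤ R)
    (hK : ∀ v ∈ K, v ∉ S → ∃ u s, Jn T (K \ S) v u ∧ s ∈ S ∧ Adj T u s)
    (hd : ∀ v u, Jn T (K \ S) v u → dist (F v) (F u) ≤ R) :
    ∃ root', Base T F N (ρ + R + ω) (S ∪ K) Y root' ∧ EqOn root' root S := by
  obtain ⟨r, h1, h2, h3⟩ := T55.absorb h.cls hK
  have h0 := hF.nonneg
  refine ⟨r, ⟨h1, fun v hv => ?_, fun v hv => ⟨.inl (h.bd v hv).1, ?_⟩, ?_,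
    disjoint_union_left.2 ⟨h.disj, hY⟩, b5_tube h h2⟩, h2⟩
  · by_cases hs : v ∈ S
    · rw [h2 hs]
      linarith [h.rad v hs]
    · obtain ⟨u, s, a1, a2, a3, a4⟩ := h3 v (hv.resolve_left hs) hs
      rw [a4]
      linarith [dist_triangle4 (F v) (F u) (F s) (F (root s)), hd v u a1, hF.jump u s a3, h.rad s a2]
  · rw [h2 (h.bd v hv).1]
    exact (h.bd v hv).2
  · refine le_trans (ncard_le_ncard (sdiff_subset_sdiff_left ?_) (toFinite _)) h.few
    rintro _ ⟨v, hv, rfl⟩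
    by_cases hs : v ∈ S
    · exact ⟨v, hs, (h2 hs).symm⟩
    · obtain ⟨u, s, -, a2, -, a4⟩ := h3 v (hv.resolve_left hs) hs
      exact ⟨s, a2, a4.symm⟩

theorem Base.new (h : Base T F N ρ S Y root) (hK : Pc T F (S ∪ Y)ᶜ ρ K) (hn : K.Nonempty) :
    ∃ root', Base T F (N + 1) ρ (S ∪ K) Y root' ∧ EqOn root' root S ∧
      ∃ x ∈ K, ∀ v ∈ K, root' v = x := by
  classical
  obtain ⟨x, hx⟩ := hn
  let r : V → V := fun v => if v ∈ K then x else root v
  have h1 : EqOn r root S := fun v hv => if_neg fun hk => hK.1 hk (.inl hv)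
  have h2 : ∀ v ∈ K, r v = x := fun v hv => if_pos hv
  refine ⟨r, ⟨fun v hv => ?_, fun v hv => ?_, fun v hv => ⟨.inl (h.bd v hv).1, ?_⟩, ?_,
    disjoint_union_left.2 ⟨h.disj, disjoint_left.2 fun v hv hy => hK.1 hv (.inr hy)⟩,
    b5_tube h h1⟩, h1, x, hx, h2⟩
  · rcases hv with hv | hv
    · rw [h1 hv]
      exact ⟨(h1 (b5_root h.cls hv)).trans (h.cls v hv).1,
        (h.cls v hv).2.mono fun u hu => ⟨.inl hu.1, (h1 hu.1).trans hu.2⟩⟩
    · rw [h2 v hv]
      exact ⟨h2 x hx, (hK.2.1 v hv x hx).mono fun u hu => ⟨.inr hu, h2 u hu⟩⟩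
  · rcases hv with hv | hv
    · rw [h1 hv]
      exact h.rad v hv
    · rw [h2 v hv]
      exact hK.2.2 v hv x hx
  · rw [h1 (h.bd v hv).1]
    exact (h.bd v hv).2
  · refine le_trans (ncard_le_ncard (t := insert x (root '' S \ Bd T)) ?_ (toFinite _))
      ((ncard_insert_le _ _).trans (Nat.succ_le_succ h.few))
    rintro _ ⟨⟨v, hv | hv, rfl⟩, hb⟩
    · rw [h1 hv] at hb ⊢
      exact .inr ⟨⟨v, hv, rfl⟩, hb⟩
    · exact .inl (h2 v hv)

/-- No vertex outside `S ∪ Y` has a neighbour in a tube. -/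
theorem Base.not_adj (h : Base T F N ρ S Y root) {u y : V} (hu : u ∉ S ∪ Y) (hy : y ∈ Y) :
    ¬ Adj T u y := by
  intro ha
  obtain ⟨a, b, h1⟩ := h.tube y hy
  exact hu (.inl (h1 y (Jn.refl hy) u (fun e => hu (.inr e)) ha.symm).1)

/-- Every vertex of a tube is joined inside `S ∪ Y` to `S`; more precisely the tube touches `S`. -/
theorem Base.tube_tch (hT : IsSurf T) (h : Base T F N ρ S Y root) {y : V} (hy : y ∈ Y) :
    ∃ u s, Jn T Y y u ∧ s ∈ S ∧ Adj T u s := by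
  obtain ⟨b, hb⟩ := hT.bd
  obtain ⟨u, v, h1, -, h2, h3⟩ := (hT.conn y (mem_univ _) b (mem_univ _)).exit hy
    (disjoint_left.1 h.disj (h.bd b hb).1)
  obtain ⟨a, c, h4⟩ := h.tube y hy
  have h5 := h1.mono inter_subset_right
  exact ⟨u, v, h5, (h4 u h5 v h2 h3).1, h3⟩

theorem b5_floor {σ : ℝ} (hσ : 0 < σ) {x y : ℝ} (h : |x - y| ≤ 3 * σ)
    (he : Even ⌊x / (4 * σ)⌋ ↔ Even ⌊y / (4 * σ)⌋) : ⌊x / (4 * σ)⌋ = ⌊y / (4 * σ)⌋ := by
  have h1 : ∀ a b : ℝ, a - b ≤ 3 * σ → ⌊a / (4 * σ)⌋ ≤ ⌊b / (4 * σ)⌋ + 1 := fun a b hab => by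
    rw [← Int.floor_add_one]
    refine Int.floor_le_floor ?_
    rw [div_add_one (by positivity)]
    exact div_le_div_of_nonneg_right (by linarith) (by positivity)
  have h2 := h1 x y (abs_le.1 h).2
  have h3 := h1 y x (by linarith only [(abs_le.1 h).1])
  simp only [Int.even_iff] at he
  omega

theorem b5_cube {σ : ℝ} (hσ : 0 < σ) {x y : EuclideanSpace ℝ (Fin n)}
    (h : ∀ i, ⌊x i / (4 * σ)⌋ = ⌊y i / (4 * σ)⌋) : dist x y ≤ √n * (4 * σ) := by
  have h1 : ∀ i, dist (x i) (y i) ^ 2 ≤ (4 * σ) ^ 2 := fun i => by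
    have h2 := Int.abs_sub_lt_one_of_floor_eq_floor (h i)
    rw [← sub_div, abs_div, abs_of_pos (by positivity : 0 < 4 * σ), div_lt_one (by positivity)] at h2
    exact pow_le_pow_left₀ dist_nonneg h2.le 2
  rw [EuclideanSpace.dist_eq, ← Real.sqrt_sq (by positivity : 0 ≤ 4 * σ), ← Real.sqrt_mul n.cast_nonneg]
  refine Real.sqrt_le_sqrt ((Finset.sum_le_sum fun i _ => h1 i).trans ?_)
  simp only [Finset.sum_const, Finset.card_univ, Fintype.card_fin, nsmul_eq_mul, Std.le_refl]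

/-- Plan: colour a vertex by the parities of `⌊F v i / (4 σ)⌋`; for one colour after the other
absorb the union of the sets `K` of the vertices of that colour. Its components stay within `σ` of
one cube of side `4 σ`. -/
theorem forest (n : ℕ) : ∃ C : ℝ, 0 < C ∧ ∀ (V : Type) [Fintype V] [DecidableEq V]
    (T : Finset (Finset V)) (F : V → EuclideanSpace ℝ (Fin n)) (ω σ ρ : ℝ) (N : ℕ)
    (S Y U : Set V) (root : V → V), Sad T F ω → ω ≤ σ → 0 < σ → Base T F N ρ S Y root →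
      Disjoint U (S ∪ Y) → ∃ root', Base T F N (ρ + C * σ)
        (S ∪ {v | ∃ K, Pc T F U σ K ∧ v ∈ K ∧ Tch T K S}) Y root' := by
  classical
  refine ⟨Fintype.card (Fin n → Bool) * (3 + √n * 4), by positivity, ?_⟩
  intro V _ _ T F ω σ ρ N S Y U root hF hω hσ hB hU
  let col : V → Fin n → Bool := fun v i => decide (Even ⌊F v i / (4 * σ)⌋)
  let G : (Fin n → Bool) → Set V := fun c =>
    {v | ∃ K, Pc T F U σ K ∧ v ∈ K ∧ Tch T K S ∧ ∃ q ∈ K, col q = c}
  have key : ∀ C : Finset (Fin n → Bool), ∃ root', Base T F N (ρ + C.card * (3 + √n * 4) * σ)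
      (S ∪ ⋃ c ∈ C, G c) Y root' := fun C => by
    induction C using Finset.induction_on with
    | empty => exact ⟨root, by simpa using hB⟩
    | insert c C hc ih =>
      obtain ⟨r, hr⟩ := ih
      have h1 : ∀ v ∈ G c, ∃ q, col q = c ∧ dist (F v) (F q) ≤ σ := by
        rintro v ⟨K, hK, hv, -, q, hq, e⟩
        exact ⟨q, e, hK.2.2 v hv q hq⟩
      obtain ⟨r', hr', -⟩ := hr.absorb (K := G c) (R := (2 + √n * 4) * σ) hF
        (disjoint_left.2 fun v ⟨K, hK, hv, _⟩ hy => disjoint_left.1 hU (hK.1 hv) (.inr hy))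
        (by positivity) (by
          rintro v ⟨K, hK, hv, ⟨k, hk, s, hs, ha⟩, hq⟩ h0
          obtain ⟨u, w, a1, -, a2, a3⟩ := (((hK.2.1 v hv k hk).mono (subset_insert s K)).step
            (mem_insert _ _) ha).exit (C := (S ∪ ⋃ c ∈ C, G c)ᶜ) h0 fun e => e (.inl hs)
          refine ⟨u, w, a1.mono ?_, not_not.1 a2, a3⟩
          rintro x ⟨rfl | hx, b⟩
          · exact absurd (.inl hs) b
          · exact ⟨⟨K, hK, hx, ⟨k, hk, s, hs, ha⟩, hq⟩, b⟩) (by
          rintro v u ⟨hv, hj⟩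
          obtain ⟨q₀, e₀, d₀⟩ := h1 v hv.1
          have h2 : ∃ q, col q = c ∧ dist (F u) (F q) ≤ σ ∧
              ∀ i, ⌊F q₀ i / (4 * σ)⌋ = ⌊F q i / (4 * σ)⌋ := by
            induction hj with
            | refl => exact ⟨q₀, e₀, d₀, fun _ => rfl⟩
            | @tail a b _ hab ih =>
              obtain ⟨q, e, d, f⟩ := ih
              obtain ⟨q', e', d'⟩ := h1 b hab.1.1
              refine ⟨q', e', d', fun i => (f i).trans (b5_floor hσ ?_ ?_)⟩
              · have := dist_triangle4 (F q) (F a) (F b) (F q')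
                rw [dist_comm (F q) (F a)] at this
                refine (PiLp.dist_apply_le (F q) (F q') i).trans ?_
                linarith [hF.jump a b hab.2]
              · exact decide_eq_decide.1 (congrFun (e.trans e'.symm) i)
          obtain ⟨q, -, d, f⟩ := h2
          have := dist_triangle4 (F v) (F q₀) (F q) (F u)
          rw [dist_comm (F q) (F u)] at this
          linarith [b5_cube hσ f])
      refine ⟨r', ?_⟩
      rw [Finset.set_biUnion_insert, union_comm (G c), ← union_assoc]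
      refine hr'.mono le_rfl ?_
      rw [Finset.card_insert_of_notMem hc]
      push_cast
      linarith
  obtain ⟨r, hr⟩ := key Finset.univ
  refine ⟨r, ?_⟩
  have e : (⋃ c ∈ (Finset.univ : Finset (Fin n → Bool)), G c) =
      {v | ∃ K, Pc T F U σ K ∧ v ∈ K ∧ Tch T K S} := by
    ext v
    simp only [Finset.mem_univ, iUnion_true, mem_iUnion]
    exact ⟨fun ⟨_, K, a1, a2, a3, _⟩ => ⟨K, a1, a2, a3⟩,
      fun ⟨K, a1, a2, a3⟩ => ⟨col v, K, a1, a2, a3, v, a2, rfl⟩⟩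
  rwa [e] at hr

theorem b5_minimax {C G : Set V} (f : V → ℝ) (h : ∀ v ∈ C, ∃ u ∈ G, Jn T C v u) :
    ∃ m : V → ℝ, ∀ v ∈ C, (∃ w ∈ C, m v = f w) ∧ f v ≤ m v ∧
      (∃ u ∈ G, Jn T {w ∈ C | f w ≤ m v} v u) ∧ (∃ u ∈ G, Jn T {w ∈ C | m w ≤ m v} v u) ∧
      ∀ u ∈ G, ¬ Jn T {w ∈ C | f w < m v} v u := by
  have h1 : ∀ v, ∃ c : ℝ, v ∈ C → (∃ w ∈ C, c = f w) ∧ (∃ u ∈ G, Jn T {w ∈ C | f w ≤ c} v u) ∧
      ∀ u ∈ G, ¬ Jn T {w ∈ C | f w < c} v u := fun v => by
    by_cases hv : v ∈ C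
    swap
    · exact ⟨0, fun e => absurd e hv⟩
    have h2 : ∀ D ⊆ C, ∀ u ∈ G, Jn T D v u →
        ∃ w ∈ D, w ∈ C ∧ ∃ u ∈ G, Jn T {x ∈ C | f x ≤ f w} v u := fun D hD u hu hj => by
      obtain ⟨w, hw, hm⟩ := exists_max_image D f (toFinite _) ⟨v, hj.1⟩
      exact ⟨w, hw, hD hw, u, hu, hj.mono fun x hx => ⟨hD hx, hm x hx⟩⟩
    obtain ⟨u, hu, hj⟩ := h v hv
    obtain ⟨w₁, -, h3⟩ := h2 C subset_rfl u hu hj
    obtain ⟨w, hw, hm⟩ := exists_min_image
      {w | w ∈ C ∧ ∃ u ∈ G, Jn T {x ∈ C | f x ≤ f w} v u} f (toFinite _) ⟨w₁, h3⟩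
    refine ⟨f w, fun _ => ⟨⟨w, hw.1, rfl⟩, hw.2, fun u hu hj => ?_⟩⟩
    obtain ⟨w₂, h4, h5⟩ := h2 _ (sep_subset _ _) u hu hj
    exact (hm w₂ h5).not_gt h4.2
  choose m hm using h1
  refine ⟨m, fun v hv => ?_⟩
  obtain ⟨h2, ⟨u, hu, hj⟩, h3⟩ := hm v hv
  refine ⟨h2, hj.1.2, ⟨u, hu, hj⟩, ⟨u, hu, b5_in hj fun x hx => ⟨hx.right.1, ?_⟩⟩, h3⟩
  by_contra h4
  exact (hm x hx.right.1).2.2 u hu ((hx.symm.trans hj).mono fun y hy =>
    ⟨hy.1, hy.2.trans_lt (not_le.1 h4)⟩)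

theorem b5_geo {d x : EuclideanSpace ℝ (Fin n)} {θ κ : ℝ} (hκ : 0 ≤ κ)
    (h1 : ∀ ν, ⟪ν, d⟫_ℝ = 0 → ⟪ν, x⟫_ℝ ≤ κ * ‖ν‖) (h2 : |⟪d, x⟫_ℝ - θ * ‖d‖ ^ 2| ≤ 3 * κ * ‖d‖) :
    ‖x - θ • d‖ ≤ 4 * κ := by
  have h3 : ∀ y, ⟪y, d⟫_ℝ = 0 → ∀ a : ℝ, x = y + a • d → ‖y‖ ≤ κ := fun y hy a e => by
    have h4 := h1 y hy
    rw [e, inner_add_right, inner_smul_right, hy, real_inner_self_eq_norm_sq] at h4
    nlinarith only [hκ, h4]
  by_cases hd : d = 0
  · have := h3 x (by simp [hd]) 0 (by simp)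
    simp only [hd, smul_zero, sub_zero]
    linarith only [hκ, this]
  have h4 : 0 < ‖d‖ := norm_pos_iff.2 hd
  set a := ⟪d, x⟫_ℝ / ‖d‖ ^ 2 with ha
  have h5 := h3 (x - a • d) (by
    rw [inner_sub_left, inner_smul_left, real_inner_self_eq_norm_sq, real_inner_comm, ha]
    simp only [conj_trivial]
    field_simp
    ring) a (by simp)
  have h6 : ‖(a - θ) • d‖ ≤ 3 * κ := by
    rw [norm_smul, Real.norm_eq_abs]
    refine le_of_mul_le_mul_right (le_trans (le_of_eq ?_) h2) h4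
    rw [show ⟪d, x⟫_ℝ - θ * ‖d‖ ^ 2 = (a - θ) * ‖d‖ ^ 2 by rw [ha]; field_simp, abs_mul,
      abs_of_pos (pow_pos h4 2)]
    ring
  have h7 := norm_add_le (x - a • d) ((a - θ) • d)
  rw [show x - a • d + (a - θ) • d = x - θ • d by rw [sub_smul]; abel] at h7
  linarith only [h5, h6, h7]

/-- The maximum principle for a component of a part of `C`. -/
theorem b5_max (hF : Sad T F ω) {C D : Set V} (hb : Disjoint C (Bd T)) (hD : D ⊆ C) {v : V}
    (hv : v ∈ D) (ν q : EuclideanSpace ℝ (Fin n)) {c : ℝ}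
    (h : ∀ u w, Jn T D v u → w ∉ D → Adj T u w → ⟪ν, F w - q⟫_ℝ ≤ c) :
    ⟪ν, F v - q⟫_ℝ ≤ c + ω * ‖ν‖ := by
  have := hF.maxp {u | Jn T D v u} ν (c + ⟪ν, q⟫_ℝ)
    (hb.mono_left fun u hu => hD (Jn.right hu)) (fun u hu w hw ha => by
      have := h u w hu (fun e => hw (Jn.step hu e ha)) ha
      rw [inner_sub_right] at this
      linarith) v (Jn.refl hv)
  rw [inner_sub_right]
  linarith

theorem b5_clamp {l κ t : ℝ} (hl : 0 ≤ l) (hκ : 0 ≤ κ) (h1 : -(κ * l) ≤ t) (h2 : t ≤ l ^ 2 + κ * l) :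
    |t - max 0 (min 1 (t / l ^ 2)) * l ^ 2| ≤ κ * l := by
  rcases hl.eq_or_lt with rfl | hl
  · have : t = 0 := by linarith
    simp only [this, ne_eq, OfNat.ofNat_ne_zero, not_false_eq_true, zero_pow, div_zero, zero_le_one, inf_of_le_right, max_self, mul_zero, sub_self, abs_zero, Std.le_refl]
  have h3 : 0 < l ^ 2 := pow_pos hl 2
  have h4 : 0 ≤ κ * l := by positivity
  rcases le_total t 0 with h5 | h5
  · rw [max_eq_left ((min_le_right _ _).trans (div_nonpos_of_nonpos_of_nonneg h5 h3.le)), abs_le]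
    constructor <;> linarith
  rcases le_total t (l ^ 2) with h6 | h6
  · rw [min_eq_right ((div_le_one h3).2 h6), max_eq_right (div_nonneg h5 h3.le),
      div_mul_cancel₀ _ h3.ne', sub_self, abs_zero]
    exact h4
  · rw [min_eq_left ((one_le_div h3).2 h6), max_eq_right zero_le_one, abs_le]
    constructor <;> linarith

/-- Plan: if `dist (p false) (p true)` is at most `4 (ρ + ω)` any choice below works. Let `u` be
the coordinate along the segment, cut off to `[0, 1]`; `m v` the least `c` such that `v` is joined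
in `{u ≤ c}` to a neighbour of `A false`; `θ v` the largest `c` such that `v` is joined in
`{c ≤ m}` to a neighbour of `A true`. `Sad.maxp` for components of sub- and superlevel sets, and
for directions orthogonal to the segment. -/
theorem tube_lemma (hT : IsSurf T) (hF : Sad T F ω) {C : Set V} (hc : Conn T C)
    (hb : Disjoint C (Bd T)) {A : Bool → Set V} {p : Bool → EuclideanSpace ℝ (Fin n)}
    (hA : ∀ u ∈ C, ∀ w, w ∉ C → Adj T u w → w ∈ A false ∪ A true) (hd : ∀ i, Disjoint C (A i))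
    (hp : ∀ i, ∀ w ∈ A i, dist (F w) (p i) ≤ ρ) (ht : ∀ i, Tch T C (A i)) :
    ∃ θ : V → ℝ, ∀ v ∈ C, θ v ∈ Icc (0 : ℝ) 1 ∧
      dist (F v) ((1 - θ v) • p false + θ v • p true) ≤ 10 * (ρ + ω) ∧
      (∃ u, Jn T {w ∈ C | θ w ≤ θ v} v u ∧ Tch T {u} (A false)) ∧
      ∃ u, Jn T {w ∈ C | θ v ≤ θ w} v u ∧ Tch T {u} (A true) := by
  have _ := hT
  have _ := hd
  have h0 := hF.nonneg
  have hρ : 0 ≤ ρ := by
    obtain ⟨u, -, w, hw, -⟩ := ht false
    exact dist_nonneg.trans (hp _ w hw)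
  have hG : ∀ i, ∀ v ∈ C, ∃ u ∈ {u | Tch T {u} (A i)}, Jn T C v u := fun i v hv => by
    obtain ⟨u, hu, w, hw, ha⟩ := ht i
    exact ⟨u, ⟨u, rfl, w, hw, ha⟩, hc v hv u hu⟩
  set d := p true - p false with hdd
  set l := ‖d‖ with hl
  have hl0 : 0 ≤ l := norm_nonneg _
  let s : V → ℝ := fun v => ⟪d, F v - p false⟫_ℝ
  have hi : ∀ ν i, ∀ w ∈ A i, ⟪ν, F w - p i⟫_ℝ ≤ ρ * ‖ν‖ := fun ν i w hw => by
    refine (real_inner_le_norm _ _).trans ?_
    rw [mul_comm, ← dist_eq_norm]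
    exact mul_le_mul_of_nonneg_right (hp i w hw) (norm_nonneg _)
  have ht1 : ∀ ν w, ⟪ν, F w - p false⟫_ℝ = ⟪ν, F w - p true⟫_ℝ + ⟪ν, d⟫_ℝ := fun ν w => by
    rw [← inner_add_right, hdd, sub_add_sub_cancel]
  have hdd2 : ⟪d, d⟫_ℝ = l ^ 2 := real_inner_self_eq_norm_sq d
  have hρl : 0 ≤ ρ * l := by positivity
  have hωl : 0 ≤ ω * l := by positivity
  have hl2 : 0 ≤ l ^ 2 := by positivity
  have hs : ∀ w, (w ∈ A false → -(ρ * l) ≤ s w ∧ s w ≤ ρ * l) ∧
      (w ∈ A true → l ^ 2 - ρ * l ≤ s w ∧ s w ≤ l ^ 2 + ρ * l) := fun w => by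
    refine ⟨fun hw => ?_, fun hw => ?_⟩
    · have a1 := hi (-d) _ w hw
      rw [inner_neg_left, norm_neg] at a1
      exact ⟨by simp only [s]; linarith, hi d _ w hw⟩
    · have a1 := hi (-d) _ w hw
      have a2 := hi d _ w hw
      rw [inner_neg_left, norm_neg] at a1
      simp only [s, ht1 d w, hdd2]
      constructor <;> linarith only [a1, a2]
  have up : ∀ D ⊆ C, ∀ v ∈ D, ∀ c, (∀ u w, Jn T D v u → w ∉ D → Adj T u w → s w ≤ c) →
      s v ≤ c + ω * l := fun D hD v hv c h => b5_max hF hb hD hv d _ h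
  have lo : ∀ D ⊆ C, ∀ v ∈ D, ∀ c, (∀ u w, Jn T D v u → w ∉ D → Adj T u w → c ≤ s w) →
      c - ω * l ≤ s v := fun D hD v hv c h => by
    have := b5_max hF hb hD hv (-d) (p false) (c := -c) fun u w a1 a2 a3 => by
      rw [inner_neg_left]
      exact neg_le_neg (h u w a1 a2 a3)
    rw [inner_neg_left, norm_neg] at this
    simp only [s]
    linarith
  have hsC : ∀ v ∈ C, -(ρ * l) - ω * l ≤ s v ∧ s v ≤ l ^ 2 + ρ * l + ω * l := fun v hv =>
    ⟨lo C subset_rfl v hv _ fun u w a1 a2 a3 => (hA u a1.right w a2 a3).elim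
      (fun e => ((hs w).1 e).1) fun e => by linarith [((hs w).2 e).1],
    up C subset_rfl v hv _ fun u w a1 a2 a3 => (hA u a1.right w a2 a3).elim
      (fun e => by linarith [((hs w).1 e).2]) fun e => ((hs w).2 e).2⟩
  obtain ⟨m, hm⟩ := b5_minimax s (hG false)
  obtain ⟨k, hk⟩ := b5_minimax (fun v => -m v) (hG true)
  have hm1 : ∀ v ∈ C, m v ≤ l ^ 2 + ρ * l + ω * l ∧ m v - 2 * (ρ * l + ω * l) ≤ s v :=
    fun v hv => by
    obtain ⟨⟨w, hw, e⟩, a1, -, -, a2⟩ := hm v hv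
    have a3 : m v ≤ l ^ 2 + ρ * l + ω * l := e ▸ (hsC w hw).2
    refine ⟨a3, ?_⟩
    rcases a1.eq_or_lt with a4 | a4
    · linarith
    · have := lo {w ∈ C | s w < m v} (sep_subset _ _) v ⟨hv, a4⟩ (m v - 2 * (ρ * l) - ω * l)
        fun u w b1 b2 b3 => by
          by_cases b4 : w ∈ C
          · have : m v ≤ s w := not_lt.1 fun b5 => b2 ⟨b4, b5⟩
            linarith only [hρl, hωl, this]
          · rcases hA u b1.right.1 w b4 b3 with b5 | b5
            · exact absurd b1 (a2 u ⟨u, rfl, w, b5, b3⟩)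
            · linarith [((hs w).2 b5).1]
      linarith
  have hmono : ∀ a b : ℝ, a ≤ b → max 0 (min 1 (a / l ^ 2)) ≤ max 0 (min 1 (b / l ^ 2)) :=
    fun a b hab => max_le_max_left _ (min_le_min_left _ (div_le_div_of_nonneg_right hab hl2))
  refine ⟨fun v => max 0 (min 1 (-k v / l ^ 2)), fun v hv => ?_⟩
  obtain ⟨⟨w₀, hw₀, e⟩, a1, -, ⟨u₁, hu₁, a2⟩, a3⟩ := hk v hv
  have hkm : ∀ x ∈ C, -k x ≤ m x := fun x hx => by linarith [(hk x hx).2.1]
  refine ⟨⟨le_max_left _ _, max_le zero_le_one (min_le_left _ _)⟩, ?_, ?_,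
    u₁, a2.mono fun x hx => ⟨hx.1, hmono _ _ (neg_le_neg hx.2)⟩, hu₁⟩
  · have b1 : -(ρ * l) - ω * l ≤ -k v := by linarith [(hsC w₀ hw₀).1, (hm w₀ hw₀).2.1]
    have b2 : s v ≤ -k v + 2 * (ρ * l + ω * l) := by
      rcases a1.eq_or_lt with a4 | a4
      · linarith [(hm v hv).2.1]
      · have := up {w ∈ C | -m w < k v} (sep_subset _ _) v ⟨hv, a4⟩ (-k v + 2 * (ρ * l) + ω * l)
          fun u w c1 c2 c3 => by
            by_cases c4 : w ∈ C
            · have : k v ≤ -m w := not_lt.1 fun c5 => c2 ⟨c4, c5⟩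
              linarith only [(hm w c4).2.1, hρl, hωl, this]
            · rcases hA u c1.right.1 w c4 c3 with c5 | c5
              · linarith [((hs w).1 c5).2]
              · exact absurd c1 (a3 u ⟨u, rfl, w, c5, c3⟩)
        linarith
    have b3 := abs_le.1 (b5_clamp (κ := ρ + ω) (t := -k v) hl0 (by positivity) (by linarith)
      (by linarith [hkm v hv, (hm1 v hv).1]))
    have b4 := b5_geo (d := d) (x := F v - p false) (θ := max 0 (min 1 (-k v / l ^ 2)))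
      (κ := ρ + ω) (by positivity) (fun ν hν => by
        have := b5_max hF hb subset_rfl hv ν (p false) (c := ρ * ‖ν‖) fun u w c1 c2 c3 =>
          (hA u c1.right w c2 c3).elim (hi ν _ w) fun c4 => by
            rw [ht1, hν, add_zero]
            exact hi ν _ w c4
        linarith only [this]) (abs_le.2 ⟨by
          change _ ≤ s v - _ * l ^ 2
          linarith [hkm v hv, (hm1 v hv).2], by
          change s v - _ * l ^ 2 ≤ _
          linarith⟩)
    rw [dist_eq_norm, show ∀ θ : ℝ, F v - ((1 - θ) • p false + θ • p true) =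
      F v - p false - θ • d from fun θ => by rw [hdd, sub_smul, smul_sub, one_smul]; abel]
    linarith only [h0, hρ, b4]
  · suffices h : ∃ u ∈ {u | Tch T {u} (A false)}, Jn T {w ∈ C | -k w ≤ -k v} v u by
      obtain ⟨u, hu, hj⟩ := h
      exact ⟨u, hj.mono fun x hx => ⟨hx.1, hmono _ _ hx.2⟩, hu⟩
    have b1 : ∀ x ∈ C, m x ≤ -k v →
        ∃ u ∈ {u | Tch T {u} (A false)}, Jn T {w ∈ C | -k w ≤ -k v} x u := fun x hx b => by
      obtain ⟨u, hu, hj⟩ := (hm x hx).2.2.2.1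
      exact ⟨u, hu, hj.mono fun y hy => ⟨hy.1, (hkm y hy.1).trans (hy.2.trans b)⟩⟩
    by_cases b2 : m v ≤ -k v
    · exact b1 v hv b2
    have b3 : v ∈ {w ∈ C | -m w < k v} := ⟨hv, by linarith only [b2]⟩
    have b4 : ∀ x, Jn T {w ∈ C | -m w < k v} v x → x ∈ {w ∈ C | -k w ≤ -k v} := fun x hx => by
      refine ⟨hx.right.1, neg_le_neg (not_lt.1 fun b5 => ?_)⟩
      obtain ⟨u, hu, hj⟩ := (hk x hx.right.1).2.2.1
      exact a3 u hu (hx.trans (hj.mono fun y hy => ⟨hy.1, hy.2.trans_lt b5⟩))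
    obtain ⟨u, hu, hj⟩ := hG false v hv
    by_cases b5 : Jn T {w ∈ C | -m w < k v} v u
    · exact ⟨u, hu, b5_in b5 b4⟩
    obtain ⟨x, y, c1, c2, c3, c4⟩ := hj.exit (C := {x | Jn T {w ∈ C | -m w < k v} v x})
      (Jn.refl b3) b5
    obtain ⟨u', hu', hj'⟩ := b1 y c2 (by
      have : k v ≤ -m y := not_lt.1 fun c5 => c3 (Jn.step c1.right.2 ⟨c2, c5⟩ c4)
      linarith only [this])
    exact ⟨u', hu', ((c1.mono fun z hz => b4 z hz.2).step hj'.1 c4).trans hj'⟩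

end Pool.Agent.MP_17e62b_gt.T55

end

section

/-!
All but boundedly many essential sets lie in chains.
-/

namespace Pool.Agent.MP_17e62b_gt.T55

open Set Metric Topology
open scoped InnerProductSpace Manifold

variable {V : Type} [Fintype V] [DecidableEq V] {T : Finset (Finset V)}

theorem b6_on_smul {A : Set V} {z : V → V → ZMod 2} (c : ZMod 2) (h : On T A z) :
    On T A (c • z) :=
  ⟨fun u v => by simp only [Pi.smul_apply, h.1 u v], fun u v hne => h.2 u v fun e => hne (by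
    simp only [Pi.smul_apply, e, smul_zero])⟩

omit [DecidableEq V] in
theorem b6_d1_smul (c : ZMod 2) (z : V → V → ZMod 2) : d1 (c • z) = c • d1 z := by
  funext v
  simp only [d1, Pi.smul_apply, smul_eq_mul, Finset.mul_sum]

/-- Chains whose boundaries lie in `R` are dependent modulo boundaries if there are many. -/
theorem b6_rk {N : ℕ} (h : Rk T N) (R : Finset V) {ι : Type} [Fintype ι]
    (z : ι → V → V → ZMod 2) (hz : ∀ i, On T univ (z i)) (hR : ∀ i v, v ∉ R → d1 (z i) v = 0)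
    (hc : N + R.card < Fintype.card ι) :
    ∃ σ : ι → ZMod 2, σ ≠ 0 ∧ ∃ Q, d2 T Q = ∑ i, σ i • z i := by
  classical
  let f : (ι → ZMod 2) →ₗ[ZMod 2] (R → ZMod 2) :=
    { toFun := fun σ r => ∑ i, σ i * d1 (z i) r
      map_add' := fun σ τ => by
        funext r
        simp only [Pi.add_apply, add_mul, Finset.sum_add_distrib]
      map_smul' := fun c σ => by
        funext r
        simp only [Pi.smul_apply, smul_eq_mul, RingHom.id_apply, Finset.mul_sum, mul_assoc] }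
  have hk : N < Module.finrank (ZMod 2) (LinearMap.ker f) := by
    have h1 := f.finrank_range_add_finrank_ker
    have h2 := Submodule.finrank_le (LinearMap.range f)
    rw [Module.finrank_fintype_fun_eq_card] at h1 h2
    rw [Fintype.card_coe] at h2
    omega
  let b := Module.finBasis (ZMod 2) (LinearMap.ker f)
  obtain ⟨I, ⟨j₀, hj₀⟩, Q, hQ⟩ := h _ (fun j => ∑ i, (b j : ι → ZMod 2) i • z i)
    (fun j => ⟨On.sum fun i _ => b6_on_smul _ (hz i), by
      funext v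
      rw [d1_sum]
      simp only [b6_d1_smul, Finset.sum_apply, Pi.smul_apply, smul_eq_mul, Pi.zero_apply]
      by_cases hv : v ∈ R
      · exact congrFun (LinearMap.mem_ker.1 (b j).2) ⟨v, hv⟩
      · simp only [hR _ v hv, mul_zero, Finset.sum_const_zero]⟩) (by simpa only [Fintype.card_fin] using hk)
  refine ⟨∑ j ∈ I, (b j : ι → ZMod 2), fun e => ?_, Q, ?_⟩
  · have h1 : ∑ j ∈ I, (1 : ZMod 2) • b j = 0 := by
      apply Subtype.ext
      simpa only [one_smul, AddSubmonoidClass.coe_finsetSum, ZeroMemClass.coe_zero] using e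
    exact one_ne_zero (linearIndependent_iff'.1 b.linearIndependent I (fun _ => 1) h1 j₀ hj₀)
  · rw [hQ, Finset.sum_comm]
    simp only [Finset.sum_apply, Finset.sum_smul]

variable (T) in
/-- `b` is a component of `W`, or empty. -/
def b6_Cl (W b : Set V) : Prop := b ⊆ W ∧ Conn T b ∧ ∀ u ∈ b, ∀ s ∈ W, Adj T u s → s ∈ b

theorem b6_cl_comp (W : Set V) (v : V) : b6_Cl T W {u | Jn T W v u} :=
  ⟨fun _ h => Jn.right h, conn_comp W v, fun _ hu _ hs ha => Jn.step hu hs ha⟩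

omit [Fintype V] [DecidableEq V] in
theorem b6_closed {A S : Set V} {x y : V} (h : Jn T A x y) (hx : x ∈ S)
    (hS : ∀ u ∈ S, ∀ w ∈ A, Adj T u w → w ∈ S) : y ∈ S := by
  obtain ⟨-, h⟩ := h
  induction h with
  | refl => exact hx
  | tail _ h ih => exact hS _ ih _ h.1 h.2

omit [Fintype V] [DecidableEq V] in
theorem b6_cl_eq {W b b' : Set V} (h : b6_Cl T W b) (h' : b6_Cl T W b') {x : V} (hx : x ∈ b)
    (hx' : x ∈ b') : b = b' :=
  Subset.antisymm
    (fun y hy => b6_closed (h.2.1 x hx y hy) hx' fun u hu w hw => h'.2.2 u hu w (h.1 hw))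
    fun y hy => b6_closed (h'.2.1 x hx' y hy) hx fun u hu w hw => h.2.2 u hu w (h'.1 hw)

open Classical in
theorem b6_d2 (hT : IsSurf T) {W b c : Set V} (hb : b6_Cl T W b) (hc : b6_Cl T Wᶜ c)
    (Q : Finset V → ZMod 2) : ∑ u, ∑ w, (if u ∈ b ∧ w ∈ c then d2 T Q u w else 0) = 0 := by
  have e : ∀ u w, (if u ∈ b ∧ w ∈ c then d2 T Q u w else 0) = ∑ t ∈ T,
      (if u ∈ t ∧ u ∈ b then (1 : ZMod 2) else 0) * (if w ∈ t ∧ w ∈ c then 1 else 0) * Q t := by
    intro u w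
    by_cases h : u ∈ b ∧ w ∈ c
    · have hne : u ≠ w := fun e => hc.1 h.2 (e ▸ hb.1 h.1)
      rw [if_pos h, d2, if_neg hne, Finset.sum_filter]
      refine Finset.sum_congr rfl fun t _ => ?_
      by_cases h1 : u ∈ t <;> by_cases h2 : w ∈ t <;> simp [h1, h2, h.1, h.2]
    · rw [if_neg h]
      refine (Finset.sum_eq_zero fun t _ => ?_).symm
      by_cases h1 : u ∈ b
      · have h2 : w ∉ c := fun h2 => h ⟨h1, h2⟩
        simp [h2]
      · simp [h1]
  simp only [e]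
  rw [Finset.sum_congr rfl fun u _ => Finset.sum_comm, Finset.sum_comm]
  refine Finset.sum_eq_zero fun t ht => ?_
  simp only [← Finset.sum_mul, ← Finset.mul_sum, Finset.sum_boole]
  rw [← Nat.cast_mul, ZMod.natCast_eq_zero_iff_even.2, zero_mul]
  rcases (Finset.univ.filter fun u => u ∈ t ∧ u ∈ b).eq_empty_or_nonempty with h1 | ⟨u, hu⟩
  · simp only [h1, Finset.card_empty, zero_mul, Even.zero]
  rcases (Finset.univ.filter fun u => u ∈ t ∧ u ∈ c).eq_empty_or_nonempty with h2 | ⟨w, hw⟩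
  · simp only [h2, Finset.card_empty, mul_zero, Even.zero]
  rw [Finset.mem_filter] at hu hw
  have h3 : (Finset.univ.filter fun u => u ∈ t ∧ u ∈ b).card +
      (Finset.univ.filter fun u => u ∈ t ∧ u ∈ c).card = 3 := by
    rw [← hT.card t ht, ← Finset.card_union_of_disjoint]
    · congr 1
      ext s
      simp only [Finset.mem_union, Finset.mem_filter, Finset.mem_univ, true_and]
      refine ⟨fun h => h.elim And.left And.left, fun hs => ?_⟩
      by_cases hW : s ∈ W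
      · refine Or.inl ⟨hs, ?_⟩
        rcases eq_or_ne u s with rfl | hne
        · exact hu.2.2
        · exact hb.2.2 u hu.2.2 s hW ⟨hne, t, ht, hu.2.1, hs⟩
      · refine Or.inr ⟨hs, ?_⟩
        rcases eq_or_ne w s with rfl | hne
        · exact hw.2.2
        · exact hc.2.2 w hw.2.2 s hW ⟨hne, t, ht, hw.2.1, hs⟩
    · rw [Finset.disjoint_left]
      intro s h1 h2
      rw [Finset.mem_filter] at h1 h2
      exact hc.1 h2.2.2 (hb.1 h1.2.2)
  rw [Nat.even_mul, Nat.even_iff, Nat.even_iff]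
  omega

open Classical in
/-- The number of touching pairs of components of `W` and of its complement. -/
theorem b6_edges (hT : IsSurf T) {N : ℕ} (h : Rk T N) {W : Set V} (B C : Finset (Set V))
    (hB : ∀ b ∈ B, b6_Cl T W b) (hC : ∀ c ∈ C, b6_Cl T Wᶜ c) :
    ((B ×ˢ C).filter fun e => Tch T e.1 e.2).card ≤ N + B.card + C.card := by
  by_contra hlt
  obtain ⟨E, hE⟩ : ∃ E : Finset (Set V × Set V), E = (B ×ˢ C).filter fun e => Tch T e.1 e.2 :=
    ⟨_, rfl⟩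
  rw [← hE] at hlt
  have hm : ∀ e : E, b6_Cl T W e.1.1 ∧ b6_Cl T Wᶜ e.1.2 ∧ e.1.1 ∈ B ∧ e.1.2 ∈ C ∧
      Tch T e.1.1 e.1.2 := fun e => by
    have h1 := e.2
    simp only [hE, Finset.mem_filter, Finset.mem_product] at h1
    exact ⟨hB _ h1.1.1, hC _ h1.1.2, h1.1.1, h1.1.2, h1.2⟩
  obtain ⟨v₀, -⟩ := hT.bd
  have hr : ∀ K : Set V, ∃ r : V, K.Nonempty → r ∈ K := fun K => by
    rcases K.eq_empty_or_nonempty with rfl | ⟨r, hr⟩
    · exact ⟨v₀, fun h => absurd h not_nonempty_empty⟩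
    · exact ⟨r, fun _ => hr⟩
  choose r hr using hr
  have hz : ∀ e : E, ∃ u ∈ e.1.1, ∃ w ∈ e.1.2, ∃ z, On T univ z ∧
      d1 z = ends (r e.1.1) (r e.1.2) ∧
        ∀ u' ∈ W, ∀ w', w' ∉ W → z u' w' = if u' = u ∧ w' = w then 1 else 0 := fun e => by
    obtain ⟨h1, h2, -, -, u, hu, w, hw, ha⟩ := hm e
    obtain ⟨p, hp, dp⟩ := (h1.2.1 _ (hr _ ⟨u, hu⟩) u hu).fill
    obtain ⟨q, hq, dq⟩ := (h2.2.1 w hw _ (hr _ ⟨w, hw⟩)).fill
    refine ⟨u, hu, w, hw, p + edge u w + q, ((hp.mono (subset_univ _)).add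
      (on_edge ha trivial trivial)).add (hq.mono (subset_univ _)), ?_, fun u' hu' w' hw' => ?_⟩
    · rw [d1_add, d1_add, dp, dq, d1_edge, ends_add, ends_add]
    · have h3 : p u' w' = 0 := by
        by_contra hn
        exact hw' (h1.1 (hp.2 u' w' hn).2.1)
      have h4 : q u' w' = 0 := by
        by_contra hn
        exact h2.1 (hq.2 u' w' hn).1 hu'
      have h5 : u' ≠ w := fun e' => h2.1 hw (e' ▸ hu')
      simp only [Pi.add_apply, h3, h4, zero_add, add_zero, edge, ha.1, h5, ne_eq, not_false_eq_true,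
        true_and, false_and, or_false]
  choose u hu w hw z hz dz ez using hz
  obtain ⟨σ, hσ, Q, hQ⟩ := b6_rk h ((B ∪ C).image r) z hz (fun e v hv => by
    obtain ⟨-, -, h1, h2, -⟩ := hm e
    have h3 : v ≠ r e.1.1 := fun e' =>
      hv (e' ▸ Finset.mem_image_of_mem r (Finset.mem_union_left _ h1))
    have h4 : v ≠ r e.1.2 := fun e' =>
      hv (e' ▸ Finset.mem_image_of_mem r (Finset.mem_union_right _ h2))
    rw [dz, ends, Pi.add_apply, Pi.single_eq_of_ne h3, Pi.single_eq_of_ne h4, add_zero]) (by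
    have h1 := (Finset.card_image_le (s := B ∪ C) (f := r)).trans (Finset.card_union_le B C)
    rw [Fintype.card_coe]
    omega)
  obtain ⟨e₀, he₀⟩ := Function.ne_iff.1 hσ
  apply he₀
  have h0 := b6_d2 hT (hm e₀).1 (hm e₀).2.1 Q
  have e1 : ∀ u' w', (if u' ∈ e₀.1.1 ∧ w' ∈ e₀.1.2 then d2 T Q u' w' else 0) =
      if u' = u e₀ ∧ w' = w e₀ then σ e₀ else 0 := by
    intro u' w'
    by_cases h1 : u' ∈ e₀.1.1 ∧ w' ∈ e₀.1.2
    · rw [if_pos h1, hQ]
      simp only [Finset.sum_apply, Pi.smul_apply, smul_eq_mul]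
      rw [Finset.sum_eq_single e₀, ez e₀ u' ((hm e₀).1.1 h1.1) w' ((hm e₀).2.1.1 h1.2), mul_ite,
        mul_one, mul_zero]
      · intro e _ hne
        rw [ez e u' ((hm e₀).1.1 h1.1) w' ((hm e₀).2.1.1 h1.2), if_neg, mul_zero]
        rintro ⟨rfl, rfl⟩
        exact hne (Subtype.ext (Prod.ext (b6_cl_eq (hm e).1 (hm e₀).1 (hu e) h1.1)
          (b6_cl_eq (hm e).2.1 (hm e₀).2.1 (hw e) h1.2)))
      · exact fun hn => absurd (Finset.mem_univ _) hn
    · rw [if_neg h1, if_neg]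
      rintro ⟨rfl, rfl⟩
      exact h1 ⟨hu e₀, hw e₀⟩
  simp only [e1, ite_and, Finset.sum_ite_eq', Finset.mem_univ, if_true,
    Finset.sum_ite_irrel, Finset.sum_const_zero] at h0
  exact h0

/-- At most `N` nodes have all their neighbours in one component of `U`. -/
theorem b6_leaves (hT : IsSurf T) {N : ℕ} (h : Rk T N) {U : Set V} (L : Finset (Set V))
    (h1 : ∀ Z ∈ L, Disjoint Z (Bd T) ∧ Disjoint Z U ∧ (∃ z, Cyc T Z z ∧ ¬ ∃ Q, d2 T Q = z) ∧
      ∀ u ∈ Z, ∀ u' ∈ Z, ∀ w, w ∉ Z → ∀ w', w' ∉ Z → Adj T u w → Adj T u' w' → Jn T U w w')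
    (h2 : ∀ Z ∈ L, ∀ Z' ∈ L, Z ≠ Z' → Disjoint Z Z' ∧ ¬ Tch T Z Z') : L.card ≤ N := by
  classical
  by_contra hlt
  have hz : ∀ Z : L, ∃ z, Cyc T Z.1 z ∧ ¬ ∃ Q, d2 T Q = z := fun Z => (h1 _ Z.2).2.2.1
  choose z hz hn using hz
  obtain ⟨I, ⟨Z₀, hZ₀⟩, Q, hQ⟩ := h L z (fun Z => ⟨(hz Z).1.mono (subset_univ _), (hz Z).2⟩)
    (by rw [Fintype.card_coe]; omega)
  obtain ⟨A, hA⟩ : ∃ A : Set V, ∀ v, v ∈ A ↔ ∀ Z ∈ I, v ∉ Z.1 := ⟨{v | _}, fun _ => Iff.rfl⟩
  have hUA : U ⊆ A := fun v hv => (hA v).2 fun Z _ hZ => disjoint_left.1 (h1 _ Z.2).2.1 hZ hv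
  have hfree : ∀ v ∈ A, ∃ b ∈ Bd T, Jn T A b v := by
    intro v hv
    obtain ⟨b₀, hb₀⟩ := hT.bd
    have h3 := b6_closed (S := {u | (∃ b ∈ Bd T, Jn T A b u) ∨ ∃ Z ∈ I, u ∈ Z.1 ∧
        ∀ u' ∈ Z.1, ∀ w', w' ∉ Z.1 → Adj T u' w' → ∃ b ∈ Bd T, Jn T A b w'})
      (hT.conn b₀ trivial v trivial) (Or.inl ⟨b₀, hb₀, Jn.refl ((hA _).2 fun Z _ hZ =>
        disjoint_left.1 (h1 _ Z.2).1 hZ hb₀)⟩) (by
      rintro u (⟨b, hb, hj⟩ | ⟨Z, hZ, hu, hall⟩) w - ha
      · by_cases hw : w ∈ A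
        · exact Or.inl ⟨b, hb, hj.step hw ha⟩
        · rw [hA] at hw
          push Not at hw
          obtain ⟨Z, hZ, hw⟩ := hw
          exact Or.inr ⟨Z, hZ, hw, fun u' hu' w' hw' ha' => ⟨b, hb, hj.trans (((h1 _ Z.2).2.2.2 w hw
            u' hu' u ((hA u).1 hj.right Z hZ) w' hw' ha.symm ha').mono hUA)⟩⟩
      · by_cases hw : w ∈ Z.1
        · exact Or.inr ⟨Z, hZ, hw, hall⟩
        · exact Or.inl (hall u hu w hw ha))
    rcases h3 with h3 | ⟨Z, hZ, hu, -⟩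
    · exact h3
    · exact absurd hu ((hA v).1 hv Z hZ)
  have hd : ∀ v ∈ A, ∀ u, d2 T Q u v = 0 := by
    intro v hv u
    rw [hQ]
    simp only [Finset.sum_apply]
    refine Finset.sum_eq_zero fun Z hZ => ?_
    by_contra hne
    exact (hA v).1 hv Z hZ ((hz Z).1.2 u v hne).2.1
  have hQ0 : ∀ t ∈ T, ∀ v ∈ t, v ∈ A → Q t = 0 := by
    intro t ht v hv hvA
    obtain ⟨b, hb, hj⟩ := hfree v hvA
    obtain ⟨t₀, ht₀, hbt⟩ := hT.used b
    rw [← status_jn hT hd hj ht₀ ht hbt hv]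
    exact status_bd hT (hd b hj.1) hb ht₀ hbt
  refine hn Z₀ ⟨fun t => if ∀ v ∈ t, v ∈ Z₀.1 then Q t else 0, ?_⟩
  funext u v
  by_cases hu : u ∈ Z₀.1
  · have h3 : d2 T Q u v = z Z₀ u v := by
      rw [hQ]
      simp only [Finset.sum_apply]
      refine Finset.sum_eq_single_of_mem Z₀ hZ₀ fun Z _ hne => ?_
      by_contra h4
      exact disjoint_left.1 (h2 _ Z.2 _ Z₀.2 fun e => hne (Subtype.ext e)).1
        ((hz Z).1.2 u v h4).1 hu
    rw [← h3, d2, d2]
    refine if_congr Iff.rfl rfl (Finset.sum_congr rfl fun t ht => ?_)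
    rw [Finset.mem_filter] at ht
    split_ifs with h4
    · rfl
    · push Not at h4
      obtain ⟨s, hs, hs'⟩ := h4
      refine (hQ0 t ht.1 s hs ((hA s).2 fun Z _ hZ => ?_)).symm
      exact (h2 _ Z₀.2 _ Z.2 fun e => hs' (e ▸ hZ)).2
        ⟨u, hu, s, hZ, fun e => hs' (e ▸ hu), t, ht.1, ht.2.1, hs⟩
  · have h3 : z Z₀ u v = 0 := by
      by_contra h4
      exact hu ((hz Z₀).1.2 u v h4).1
    rw [h3, d2]
    split_ifs
    · rfl
    · refine Finset.sum_eq_zero fun t ht => if_neg fun h4 => hu (h4 u ?_)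
      exact (Finset.mem_filter.1 ht).2.1

open Classical in
theorem b6_num {α : Type} (X D C : Finset α) (r : α → α → Prop) (N : ℕ)
    (hE : ((X ×ˢ C).filter fun e => r e.1 e.2).card + ((D ×ˢ C).filter fun e => r e.1 e.2).card ≤
      2 * N + 1 + X.card + C.card)
    (h4 : ∀ c ∈ C, (∃ d ∈ D, r d c) ∨ 2 ≤ (X.filter fun x => r x c).card)
    (h5 : ∀ x ∈ X, 3 ≤ (C.filter fun c => r x c).card ∨
      ∃ c ∈ C, r x c ∧ ((∃ d ∈ D, r d c) ∨ 3 ≤ (X.filter fun x => r x c).card))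
    (h6 : (X.filter fun x => (C.filter fun c => r x c).card ≤ 1).card ≤ N) :
    X.card ≤ 15 * N + 6 := by
  obtain ⟨big, hbig⟩ : ∃ big : α → Prop, ∀ c, big c ↔
      (∃ d ∈ D, r d c) ∨ 3 ≤ (X.filter fun x => r x c).card := ⟨fun c => _, fun _ => Iff.rfl⟩
  have e1 : ∀ Y : Finset α, ((Y ×ˢ C).filter fun e => r e.1 e.2).card =
      ∑ c ∈ C, (Y.filter fun x => r x c).card := fun Y => by
    simp only [Finset.card_filter]
    rw [Finset.sum_product_right]
  have e2 : ∑ c ∈ C, (X.filter fun x => r x c).card = ∑ x ∈ X, (C.filter fun c => r x c).card := by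
    simp only [Finset.card_filter]
    exact Finset.sum_comm
  have e3 : ∑ c ∈ C, (X.filter fun x => r x c ∧ big c).card =
      ∑ x ∈ X, (C.filter fun c => r x c ∧ big c).card := by
    simp only [Finset.card_filter]
    exact Finset.sum_comm
  have i1 : ∑ c ∈ C, ((X.filter fun x => r x c ∧ big c).card + 6) ≤
      ∑ c ∈ C, (3 * (X.filter fun x => r x c).card + 6 * (D.filter fun x => r x c).card) := by
    refine Finset.sum_le_sum fun c hc => ?_
    have h1 : (X.filter fun x => r x c ∧ big c).card ≤ (X.filter fun x => r x c).card :=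
      Finset.card_le_card (Finset.monotone_filter_right _ fun x _ h => h.1)
    by_cases hd : ∃ d ∈ D, r d c
    · obtain ⟨d, hd, hr⟩ := hd
      have h2 : 0 < (D.filter fun x => r x c).card :=
        Finset.card_pos.2 ⟨d, Finset.mem_filter.2 ⟨hd, hr⟩⟩
      omega
    · have h2 := (h4 c hc).resolve_left hd
      by_cases hb : big c
      · have h3 := ((hbig c).1 hb).resolve_left hd
        omega
      · have h3 : (X.filter fun x => r x c ∧ big c).card = 0 := by simp [hb]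
        omega
  have i2 : ∑ x ∈ X, 7 ≤ ∑ x ∈ X, (3 * (C.filter fun c => r x c).card +
      (C.filter fun c => r x c ∧ big c).card +
        3 * if (C.filter fun c => r x c).card ≤ 1 then 1 else 0) := by
    refine Finset.sum_le_sum fun x hx => ?_
    rcases h5 x hx with h | ⟨c, hc, hr, hb⟩
    · omega
    · have h1 : 0 < (C.filter fun c => r x c ∧ big c).card :=
        Finset.card_pos.2 ⟨c, Finset.mem_filter.2 ⟨hc, hr, (hbig c).2 hb⟩⟩
      have h2 : 0 < (C.filter fun c => r x c).card :=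
        Finset.card_pos.2 ⟨c, Finset.mem_filter.2 ⟨hc, hr⟩⟩
      split_ifs <;> omega
  rw [e1, e1] at hE
  rw [Finset.card_filter] at h6
  simp only [Finset.sum_add_distrib, ← Finset.mul_sum, Finset.sum_const, smul_eq_mul] at i1 i2
  omega

/-- Plan: bipartite graph `G` with the nodes and the components of `D` on one side and the
components of the rest (cells) on the other. A cell with one neighbour touches only `D`; delete
these. At most `N` nodes have one neighbour (a 2-chain bounded by their cycles is constant on the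
triangles that meet the connected rest), at most `N + 1` components of `D` (`bd_roots`), and the
cycle space of `G` has dimension at most `N` (lift cycles with `Conn.fill`; boundaries project to
zero). So the degrees at least three add up to at most `12 N + 3`. Put into `X` the nodes with
three cells and the nodes next to a cell that touches `D` or three nodes. A connected set of
vertices of degree at most two has at most two edges that leave it. -/
theorem count (hT : IsSurf T) {N : ℕ} (h : Rk T N) {D : Set V} (hD : Bd T ⊆ D)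
    (hD' : ∀ v ∈ D, ∃ b ∈ Bd T, Jn T D v b) {Nd : Set (Set V)}
    (h1 : ∀ Z ∈ Nd, Conn T Z ∧ Disjoint Z D ∧ ¬ Tch T Z D ∧ hull T (Bd T) Z ⊆ Z ∧
      ∃ z, Cyc T Z z ∧ ¬ ∃ Q, d2 T Q = z)
    (h2 : ∀ Z ∈ Nd, ∀ Z' ∈ Nd, Z ≠ Z' → Disjoint Z Z' ∧ ¬ Tch T Z Z') :
    ∃ X ⊆ Nd, X.ncard ≤ 30 * (N + 1) ∧ ∀ y, y ∉ D ∪ ⋃₀ X →
      (∀ u, Jn T (D ∪ ⋃₀ X)ᶜ y u → u ∉ ⋃₀ Nd) ∨ ∃ a ∈ X, ∃ b ∈ X,
        ∀ u, Jn T (D ∪ ⋃₀ X)ᶜ y u → ∀ w ∈ D ∪ ⋃₀ X, Adj T u w → w ∈ a ∪ b := by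
  classical
  obtain ⟨P, hP⟩ : ∃ P : Set (Set V) → Prop, ∀ X, P X ↔ ∀ y, y ∉ D ∪ ⋃₀ X →
      (∀ u, Jn T (D ∪ ⋃₀ X)ᶜ y u → u ∉ ⋃₀ Nd) ∨ ∃ a ∈ X, ∃ b ∈ X,
        ∀ u, Jn T (D ∪ ⋃₀ X)ᶜ y u → ∀ w ∈ D ∪ ⋃₀ X, Adj T u w → w ∈ a ∪ b :=
    ⟨fun X => _, fun _ => Iff.rfl⟩
  obtain ⟨X, ⟨hX, hPX⟩, hmin⟩ := exists_min_image {X | X ⊆ Nd ∧ P X} Set.ncard (toFinite _)
    ⟨Nd, Subset.rfl, (hP _).2 fun y _ => Or.inl fun u hu hn => hu.right (Or.inr hn)⟩
  refine ⟨X, hX, ?_, (hP X).1 hPX⟩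
  obtain ⟨W, hW⟩ : ∃ W : Set V, W = D ∪ ⋃₀ X := ⟨_, rfl⟩
  have hWm : ∀ v, v ∈ W ↔ v ∈ D ∨ ∃ x ∈ X, v ∈ x := fun v => by rw [hW]; rfl
  have hxW : ∀ x ∈ X, ∀ u ∈ x, ∀ s ∈ W, Adj T u s → s ∈ x := by
    intro x hx u hu s hs ha
    rcases (hWm s).1 hs with hs | ⟨x', hx', hs⟩
    · exact absurd ⟨u, hu, s, hs, ha⟩ (h1 x (hX hx)).2.2.1
    · by_contra hn
      exact (h2 x (hX hx) x' (hX hx') fun e => hn (e ▸ hs)).2 ⟨u, hu, s, hs, ha⟩
  obtain ⟨Xf, hXf⟩ : ∃ Xf : Finset (Set V), ∀ x, x ∈ Xf ↔ x ∈ X :=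
    ⟨(toFinite X).toFinset, fun _ => Finite.mem_toFinset _⟩
  obtain ⟨C, hC⟩ : ∃ C : Finset (Set V), ∀ c, c ∈ C ↔
      (∃ w, w ∉ W ∧ c = {u | Jn T Wᶜ w u}) ∧ ∃ x ∈ X, Tch T x c :=
    ⟨(toFinite {c | _}).toFinset, fun _ => Finite.mem_toFinset _⟩
  obtain ⟨R, hR, hR'⟩ := bd_roots hT h
  obtain ⟨Df, hDf⟩ : ∃ Df : Finset (Set V), Df = (R.filter fun r => r ∈ D).image
      fun r => {u | Jn T D r u} := ⟨_, rfl⟩
  have hDc : Df.card ≤ N + 1 := by
    rw [hDf]
    exact Finset.card_image_le.trans ((Finset.card_filter_le _ _).trans hR)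
  have hD1 : ∀ d ∈ Df, ∃ r ∈ D, d = {u | Jn T D r u} := fun d hd => by
    rw [hDf] at hd
    obtain ⟨r, hr, rfl⟩ := Finset.mem_image.1 hd
    exact ⟨r, (Finset.mem_filter.1 hr).2, rfl⟩
  have hD2 : ∀ v ∈ D, ∃ d ∈ Df, v ∈ d := fun v hv => by
    obtain ⟨b, hb, hj⟩ := hD' v hv
    obtain ⟨r, hr, hj'⟩ := hR' b hb
    have h3 := hj.trans (hj'.mono hD)
    exact ⟨_, hDf ▸ Finset.mem_image_of_mem _ (Finset.mem_filter.2 ⟨hr, h3.right⟩), h3.symm⟩
  have hCc : ∀ c ∈ C, b6_Cl T Wᶜ c := fun c hc => by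
    obtain ⟨⟨w, -, rfl⟩, -⟩ := (hC c).1 hc
    exact b6_cl_comp _ _
  have hcell : ∀ x ∈ X, ∀ u ∈ x, ∀ w, w ∉ x → Adj T u w → w ∉ W ∧
      {s | Jn T Wᶜ w s} ∈ C ∧ Tch T x {s | Jn T Wᶜ w s} := by
    intro x hx u hu w hw ha
    have h3 : w ∉ W := fun hn => hw (hxW x hx u hu w hn ha)
    have h4 : Tch T x {s | Jn T Wᶜ w s} := ⟨u, hu, w, Jn.refl h3, ha⟩
    exact ⟨h3, (hC _).2 ⟨⟨w, h3, rfl⟩, x, hx, h4⟩, h4⟩
  have h4 : ∀ c ∈ C, (∃ d ∈ Df, Tch T d c) ∨ 2 ≤ (Xf.filter fun x => Tch T x c).card := by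
    intro c hc
    obtain ⟨⟨w, hw, rfl⟩, x, hx, ht⟩ := (hC c).1 hc
    have h3 : w ∉ hull T (Bd T) x := fun hn =>
      hw ((hWm w).2 (Or.inr ⟨x, hx, (h1 x (hX hx)).2.2.2.1 hn⟩))
    obtain ⟨r, hr, hj⟩ := not_not.1 h3
    obtain ⟨u, v, hu, hv, hv', ha⟩ := hj.exit (C := {u | Jn T Wᶜ w u}) (Jn.refl hw)
      fun hn => hn.right ((hWm r).2 (Or.inl (hD hr)))
    have hu' : Jn T Wᶜ w u := hu.right.2
    have hvW : v ∈ W := by
      by_contra hn
      exact hv' (hu'.step hn ha)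
    rcases (hWm v).1 hvW with hvD | ⟨x', hx', hvx⟩
    · obtain ⟨d, hd, hvd⟩ := hD2 v hvD
      exact Or.inl ⟨d, hd, v, hvd, u, hu', ha.symm⟩
    · refine Or.inr (Finset.one_lt_card.2 ⟨x, Finset.mem_filter.2 ⟨(hXf _).2 hx, ht⟩, x',
        Finset.mem_filter.2 ⟨(hXf _).2 hx', v, hvx, u, hu', ha.symm⟩, fun e => hv (e ▸ hvx)⟩)
  have hcard : Xf.card ≤ 15 * N + 6 := by
    refine b6_num Xf Df C (Tch T) N ?_ h4 (fun x hx => ?_) ?_
    · have h3 := b6_edges hT h (W := W) (Xf ∪ Df) C (fun b hb => ?_) hCc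
      · have hd : Disjoint Xf Df := by
          rw [Finset.disjoint_left]
          intro x hx hd
          obtain ⟨r, hr, e⟩ := hD1 x hd
          exact disjoint_left.1 (h1 x (hX ((hXf x).1 hx))).2.1 (e ▸ Jn.refl hr) hr
        rw [Finset.union_product, Finset.filter_union, Finset.card_union_of_disjoint
          (Finset.disjoint_filter_filter (Finset.disjoint_product.2 (Or.inl hd))),
          Finset.card_union_of_disjoint hd] at h3
        omega
      · rcases Finset.mem_union.1 hb with hb | hb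
        · rw [hXf] at hb
          exact ⟨fun v hv => (hWm v).2 (Or.inr ⟨b, hb, hv⟩), (h1 b (hX hb)).1, hxW b hb⟩
        · obtain ⟨r, -, rfl⟩ := hD1 b hb
          refine ⟨fun v hv => (hWm v).2 (Or.inl (Jn.right hv)), conn_comp _ _,
            fun u hu s hs ha => ?_⟩
          rcases (hWm s).1 hs with hs | ⟨x, hx, hs⟩
          · exact Jn.step hu hs ha
          · exact absurd ⟨s, hs, u, Jn.right hu, ha.symm⟩ (h1 x (hX hx)).2.2.1
    · rw [hXf] at hx
      by_contra hn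
      push Not at hn
      obtain ⟨hn1, hn2⟩ := hn
      have hlt : (X \ {x}).ncard < X.ncard := ncard_diff_singleton_lt_of_mem hx (toFinite _)
      refine not_le.2 hlt (hmin _ ⟨diff_subset.trans hX, (hP _).2 fun y hy => ?_⟩)
      obtain ⟨W', hW'⟩ : ∃ W' : Set V, W' = D ∪ ⋃₀ (X \ {x}) := ⟨_, rfl⟩
      have hWm' : ∀ v, v ∈ W' ↔ v ∈ D ∨ ∃ e ∈ X \ {x}, v ∈ e := fun v => by rw [hW']; rfl
      rw [← hW'] at hy ⊢
      have hU : ∀ v, v ∉ W' → v ∉ x → v ∉ W := by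
        intro v hv hvx hn
        rcases (hWm v).1 hn with h3 | ⟨e, he, h3⟩
        · exact hv ((hWm' v).2 (Or.inl h3))
        · exact hv ((hWm' v).2 (Or.inr ⟨e, ⟨he, fun e' => hvx (e' ▸ h3)⟩, h3⟩))
      have hsub : W' ⊆ W := fun v hv => (hWm v).2
        (((hWm' v).1 hv).imp id fun ⟨e, he, h3⟩ => ⟨e, he.1, h3⟩)
      have alt : (∀ u, Jn T W'ᶜ y u → ∀ w ∈ D, ¬ Adj T u w) → ∀ a b : Set V,
          (∀ e ∈ X \ {x}, ∀ u, Jn T W'ᶜ y u → ∀ w ∈ e, Adj T u w → e = a ∨ e = b) →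
          ∃ a ∈ X \ {x}, ∃ b ∈ X \ {x},
            ∀ u, Jn T W'ᶜ y u → ∀ w ∈ W', Adj T u w → w ∈ a ∪ b := by
        intro hnD a b hab
        obtain ⟨b₀, hb₀⟩ := hT.bd
        obtain ⟨u, v, hu, -, hv, ha⟩ := (hT.conn y trivial b₀ trivial).exit (C := W'ᶜ) hy
          fun hn => hn ((hWm' _).2 (Or.inl (hD hb₀)))
        rw [univ_inter] at hu
        obtain ⟨e₀, he₀, -⟩ := ((hWm' v).1 (not_not.1 hv)).resolve_left fun hv => hnD u hu v hv ha
        refine ⟨if a ∈ X \ {x} then a else e₀, by split_ifs <;> assumption,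
          if b ∈ X \ {x} then b else e₀, by split_ifs <;> assumption, fun u hu w hw ha => ?_⟩
        obtain ⟨e, he, hwe⟩ := ((hWm' w).1 hw).resolve_left fun hv => hnD u hu w hv ha
        rcases hab e he u hu w hwe ha with rfl | rfl
        · rw [if_pos he]
          exact Or.inl hwe
        · rw [if_pos he]
          exact Or.inr hwe
      by_cases hm : ∃ u, Jn T W'ᶜ y u ∧ u ∈ x
      · obtain ⟨u₀, hu₀, hu₀x⟩ := hm
        have hK : ∀ u, Jn T W'ᶜ y u → u ∈ x ∨ ∃ c ∈ C, Tch T x c ∧ u ∈ c := by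
          intro u hu
          refine b6_closed (S := {u | u ∈ x ∨ ∃ c ∈ C, Tch T x c ∧ u ∈ c}) (hu₀.symm.trans hu)
            (Or.inl hu₀x) fun s hs w hw ha => ?_
          by_cases hwx : w ∈ x
          · exact Or.inl hwx
          rcases hs with hs | ⟨c, hc, ht, hs⟩
          · obtain ⟨h3, h5, h6⟩ := hcell x hx s hs w hwx ha
            exact Or.inr ⟨_, h5, h6, Jn.refl h3⟩
          · exact Or.inr ⟨c, hc, ht, (hCc c hc).2.2 s hs w (hU w hw hwx) ha⟩
        have ho : ∀ c, ∃ o, c ∈ C → Tch T x c → ∀ e ∈ X \ {x}, Tch T e c → e = o := by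
          intro c
          by_cases hex : ∃ e ∈ X \ {x}, Tch T e c
          · obtain ⟨o, ho, ht⟩ := hex
            refine ⟨o, fun hc hxc e he hec => ?_⟩
            by_contra hne
            have h3 := (hn2 c hc hxc).2
            refine not_le.2 h3 (Finset.two_lt_card_iff.2 ⟨x, e, o, ?_, ?_, ?_, ?_, ?_, hne⟩)
            · exact Finset.mem_filter.2 ⟨(hXf _).2 hx, hxc⟩
            · exact Finset.mem_filter.2 ⟨(hXf _).2 he.1, hec⟩
            · exact Finset.mem_filter.2 ⟨(hXf _).2 ho.1, ht⟩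
            · exact fun e' => he.2 e'.symm
            · exact fun e' => ho.2 e'.symm
          · exact ⟨x, fun _ _ e he ht => absurd ⟨e, he, ht⟩ hex⟩
        choose o ho using ho
        obtain ⟨c₁, c₂, hc⟩ : ∃ c₁ c₂, ∀ c ∈ C, Tch T x c → c = c₁ ∨ c = c₂ := by
          by_contra hn
          push Not at hn
          obtain ⟨c₁, h3, h3', -⟩ := hn x x
          obtain ⟨c₂, h5, h5', h6, -⟩ := hn c₁ c₁
          obtain ⟨c₃, h7, h7', h8, h9⟩ := hn c₁ c₂
          exact not_le.2 hn1 (Finset.two_lt_card_iff.2 ⟨c₃, c₂, c₁, Finset.mem_filter.2 ⟨h7, h7'⟩,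
            Finset.mem_filter.2 ⟨h5, h5'⟩, Finset.mem_filter.2 ⟨h3, h3'⟩, h9, h8, h6⟩)
        refine Or.inr (alt (fun u hu w hw ha => ?_) (o c₁) (o c₂) fun e he u hu w hw ha => ?_)
        · rcases hK u hu with h3 | ⟨c, hc, ht, h3⟩
          · exact (h1 x (hX hx)).2.2.1 ⟨u, h3, w, hw, ha⟩
          · obtain ⟨d, hd, hwd⟩ := hD2 w hw
            exact (hn2 c hc ht).1 d hd ⟨w, hwd, u, h3, ha.symm⟩
        · rcases hK u hu with h3 | ⟨c, hc', ht, h3⟩
          · exact absurd ⟨u, h3, w, hw, ha⟩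
              (h2 x (hX hx) e (hX he.1) fun e' => he.2 e'.symm).2
          · have h5 := ho c hc' ht e he ⟨w, hw, u, h3, ha.symm⟩
            rcases hc c hc' ht with rfl | rfl
            exacts [Or.inl h5, Or.inr h5]
      · push Not at hm
        have hyW : y ∉ W := hU y hy (hm y (Jn.refl hy))
        have hK : ∀ u, Jn T W'ᶜ y u → Jn T Wᶜ y u := fun u hu =>
          (b6_closed (S := {u | Jn T W'ᶜ y u ∧ Jn T Wᶜ y u}) hu ⟨Jn.refl hy, Jn.refl hyW⟩
            fun s hs w hw ha => ⟨hs.1.step hw ha,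
              hs.2.step (hU w hw (hm w (hs.1.step hw ha))) ha⟩).2
        have h3 := (hP X).1 hPX y (hW ▸ hyW)
        rw [← hW] at h3
        rcases h3 with h3 | ⟨a, ha, b, hb, h3⟩
        · exact Or.inl fun u hu => h3 u (hK u hu)
        · refine Or.inr (alt (fun u hu w hw hadj => ?_) a b fun e he u hu w hw hadj => ?_)
          · rcases h3 u (hK u hu) w ((hWm w).2 (Or.inl hw)) hadj with h5 | h5
            · exact disjoint_left.1 (h1 a (hX ha)).2.1 h5 hw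
            · exact disjoint_left.1 (h1 b (hX hb)).2.1 h5 hw
          · by_contra hne
            push Not at hne
            rcases h3 u (hK u hu) w ((hWm w).2 (Or.inr ⟨e, he.1, hw⟩)) hadj with h5 | h5
            · exact disjoint_left.1 (h2 e (hX he.1) a (hX ha) hne.1).1 hw h5
            · exact disjoint_left.1 (h2 e (hX he.1) b (hX hb) hne.2).1 hw h5
    · refine b6_leaves hT h (U := Wᶜ) _ (fun Z hZ => ?_) fun Z hZ Z' hZ' =>
        h2 Z (hX ((hXf _).1 (Finset.mem_filter.1 hZ).1)) Z'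
          (hX ((hXf _).1 (Finset.mem_filter.1 hZ').1))
      obtain ⟨hZ, hdeg⟩ := Finset.mem_filter.1 hZ
      rw [hXf] at hZ
      refine ⟨(h1 Z (hX hZ)).2.1.mono_right hD, disjoint_left.2 fun v hv hn =>
        hn ((hWm v).2 (Or.inr ⟨Z, hZ, hv⟩)), (h1 Z (hX hZ)).2.2.2.2,
        fun u hu u' hu' w hw w' hw' ha ha' => ?_⟩
      obtain ⟨-, h5, h6⟩ := hcell Z hZ u hu w hw ha
      obtain ⟨h7, h8, h9⟩ := hcell Z hZ u' hu' w' hw' ha'
      have h10 := Finset.card_le_one.1 hdeg _ (Finset.mem_filter.2 ⟨h5, h6⟩) _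
        (Finset.mem_filter.2 ⟨h8, h9⟩)
      have h11 : w' ∈ {s | Jn T Wᶜ w' s} := Jn.refl h7
      rw [← h10] at h11
      exact h11
  have hXe : X = (Xf : Set (Set V)) := Set.ext fun x => (hXf x).symm
  rw [hXe, ncard_coe_finset]
  omega

end Pool.Agent.MP_17e62b_gt.T55

end

section

/-!
The thin part.
-/

namespace Pool.Agent.MP_17e62b_gt.T55

open Set Metric Topology
open scoped InnerProductSpace Manifold

section

variable {V : Type} [Fintype V] [DecidableEq V] {T : Finset (Finset V)}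
variable {n : ℕ} {F : V → EuclideanSpace ℝ (Fin n)}

/-- A maximal family of separated sets with a given property. -/
theorem b7_max {P : Set V → Prop} (hP : ∀ Z, P Z → Z.Nonempty) :
    ∃ G : Set (Set V), (∀ Z ∈ G, P Z) ∧
      (∀ Z ∈ G, ∀ Z' ∈ G, Z ≠ Z' → Disjoint Z Z' ∧ ¬ Tch T Z Z') ∧
      ∀ H, P H → ∃ Z ∈ G, (H ∩ Z).Nonempty ∨ Tch T H Z := by
  obtain ⟨G, -, hG⟩ := Finite.exists_le_maximal (p := fun G : Set (Set V) => (∀ Z ∈ G, P Z) ∧
    ∀ Z ∈ G, ∀ Z' ∈ G, Z ≠ Z' → Disjoint Z Z' ∧ ¬ Tch T Z Z') (a := ∅) (by simp)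
  refine ⟨G, hG.prop.1, hG.prop.2, fun H hH => ?_⟩
  by_contra hn
  have h1 : ∀ Z ∈ G, Disjoint H Z ∧ ¬ Tch T H Z := fun Z hZ =>
    ⟨disjoint_iff_inter_eq_empty.2 (not_nonempty_iff_eq_empty.1 fun h => hn ⟨Z, hZ, Or.inl h⟩),
      fun h => hn ⟨Z, hZ, Or.inr h⟩⟩
  have h2 := hG.le_of_ge (y := insert H G) ⟨?_, ?_⟩ (subset_insert H G)
  · exact hn ⟨H, h2 (mem_insert H G), Or.inl (by simpa using hP H hH)⟩
  · rintro Z (rfl | hZ)
    · exact hH
    · exact hG.prop.1 Z hZ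
  · rintro Z (rfl | hZ) Z' (rfl | hZ') hne
    · exact absurd rfl hne
    · exact h1 Z' hZ'
    · exact ⟨(h1 Z hZ).1.symm, fun h => (h1 Z hZ).2 h.symm⟩
    · exact hG.prop.2 Z hZ Z' hZ' hne

theorem b7_stay {G : Set (Set V)} (hG : ∀ Z ∈ G, ∀ Z' ∈ G, Z ≠ Z' → ¬ Tch T Z Z') {Z : Set V}
    (hZ : Z ∈ G) {v u : V} (hv : v ∈ Z) (h : Jn T (⋃₀ G) v u) : u ∈ Z := by
  by_contra hu
  obtain ⟨a, b, h1, ⟨Z', hZ', hb⟩, h2, h3⟩ := h.exit hv hu
  exact hG Z hZ Z' hZ' (fun e => h2 (e ▸ hb)) ⟨a, h1.right.2, b, hb, h3⟩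

theorem b7_new {N : ℕ} {ρ : ℝ} {S : Set V} {root : V → V} (h : Base T F N ρ S ∅ root)
    {X : Set (Set V)} (h1 : ∀ Z ∈ X, Pc T F Sᶜ ρ Z ∧ Z.Nonempty)
    (h2 : ∀ Z ∈ X, ∀ Z' ∈ X, Z ≠ Z' → Disjoint Z Z') :
    ∃ root', Base T F (N + X.ncard) ρ (S ∪ ⋃₀ X) ∅ root' ∧
      ∀ Z ∈ X, ∃ x, ∀ v ∈ Z, root' v = x := by
  induction X, X.toFinite using Set.Finite.induction_on with
  | empty => exact ⟨root, by simpa using h, by simp only [mem_empty_iff_false, IsEmpty.forall_iff, implies_true]⟩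
  | @insert K X hK hX ih =>
    obtain ⟨r, hr, hc⟩ := ih (fun Z hZ => h1 Z (mem_insert_of_mem _ hZ))
      fun Z hZ Z' hZ' => h2 Z (mem_insert_of_mem _ hZ) Z' (mem_insert_of_mem _ hZ')
    obtain ⟨k1, k2⟩ := h1 K (mem_insert _ _)
    obtain ⟨r', hr', he, x, -, hx⟩ := hr.new (K := K) (k1.mono (by
      rintro v hv ((hS | ⟨Z, hZ, hvZ⟩) | h0)
      · exact k1.1 hv hS
      · exact disjoint_left.1 (h2 K (mem_insert _ _) Z (mem_insert_of_mem _ hZ)
          fun e => hK (e ▸ hZ)) hv hvZ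
      · exact h0) le_rfl) k2
    refine ⟨r', ?_, ?_⟩
    · rw [ncard_insert_of_notMem hK hX, sUnion_insert, union_comm K, ← union_assoc, ← add_assoc]
      exact hr'
    · rintro Z (rfl | hZ)
      · exact ⟨x, hx⟩
      · obtain ⟨y, hy⟩ := hc Z hZ
        exact ⟨y, fun v hv => (he (Or.inr ⟨Z, hZ, hv⟩)).trans (hy v hv)⟩

theorem b7_roots (hT : IsSurf T) {N N' : ℕ} (hk : Rk T N) {ρ : ℝ} {S Y : Set V} {root : V → V}
    (h : Base T F N' ρ S Y root) :
    ∃ R : Finset V, R.card ≤ N' + (N + 1) ∧ ∀ v ∈ S ∪ Y, ∃ r ∈ R, Jn T (S ∪ Y) v r := by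
  obtain ⟨R, hR, hR'⟩ := bd_roots hT hk
  have hS : ∀ v ∈ S, ∃ r ∈ (root '' S \ Bd T).toFinite.toFinset ∪ R, Jn T (S ∪ Y) v r := by
    intro v hv
    have h1 : Jn T (S ∪ Y) v (root v) := (h.cls v hv).2.mono fun u hu => Or.inl hu.1
    by_cases hb : root v ∈ Bd T
    · obtain ⟨r, hr, hj⟩ := hR' _ hb
      exact ⟨r, Finset.mem_union_right _ hr,
        h1.trans (hj.mono fun u hu => Or.inl (h.bd u hu).1)⟩
    · exact ⟨root v, Finset.mem_union_left _ (by
        rw [Set.Finite.mem_toFinset]; exact ⟨⟨v, hv, rfl⟩, hb⟩), h1⟩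
  refine ⟨(root '' S \ Bd T).toFinite.toFinset ∪ R, (Finset.card_union_le _ _).trans
    (add_le_add (by rw [← ncard_eq_toFinset_card]; exact h.few) hR), ?_⟩
  rintro v (hv | hv)
  · exact hS v hv
  · obtain ⟨u, s, h1, h2, h3⟩ := h.tube_tch hT hv
    obtain ⟨r, hr, hj⟩ := hS s h2
    exact ⟨r, hr, ((h1.mono subset_union_right).step (Or.inl h2) h3).trans hj⟩

/-- The hull of a small connected set away from the grown classes is away from them. -/
theorem b7_away (hT : IsSurf T) {N : ℕ} {ω s ρ : ℝ} (hF : Sad T F ω) (hω : ω ≤ s) {S Y A : Set V}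
    {root : V → V} (h : Base T F N ρ S Y root)
    (hA : Pc T F (S ∪ {v | ∃ K, Pc T F (S ∪ Y)ᶜ (3 * s) K ∧ v ∈ K ∧ Tch T K S} ∪ Y)ᶜ s A) :
    Pc T F (S ∪ {v | ∃ K, Pc T F (S ∪ Y)ᶜ (3 * s) K ∧ v ∈ K ∧ Tch T K S} ∪ Y)ᶜ (3 * s)
      (hull T (Bd T) A) ∧ ¬ Tch T (hull T (Bd T) A) (S ∪ Y) := by
  have hc := hull_conn hT hT.bd hA.2.1
  have hs : Small F (3 * s) (hull T (Bd T) A) := fun u hu v hv =>
    (hull_small hT hF subset_rfl hA.2.2 u hu v hv).trans (by linarith)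
  rcases A.eq_empty_or_nonempty with rfl | ⟨a, ha⟩
  · have : hull T (Bd T) ∅ = ∅ := by
      obtain ⟨b, hb⟩ := hT.bd
      exact eq_empty_of_forall_notMem fun v hv =>
        hv ⟨b, hb, by rw [compl_empty]; exact hT.conn v trivial b trivial⟩
    rw [this] at hc hs ⊢
    exact ⟨⟨empty_subset _, hc, hs⟩, fun ⟨_, h0, _⟩ => h0⟩
  have haH : a ∈ hull T (Bd T) A := subset_hull ha
  have haU : a ∈ (S ∪ Y)ᶜ := fun h0 => hA.1 ha (h0.imp_left Or.inl)
  have h1 : hull T (Bd T) A ⊆ (S ∪ Y)ᶜ := by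
    intro x hx hxS
    obtain ⟨u, v, j, -, hv, huv⟩ := (hc a haH x hx).exit haU (not_not.2 hxS)
    rcases not_not.1 hv with hv | hv
    · exact hA.1 ha (Or.inl (Or.inr ⟨{w | Jn T (hull T (Bd T) A ∩ (S ∪ Y)ᶜ) a w},
        ⟨fun w hw => (Jn.right hw).2, conn_comp _ _,
          fun w hw w' hw' => hs w (Jn.right hw).1 w' (Jn.right hw').1⟩,
        Jn.refl ⟨haH, haU⟩, u, j, v, hv, huv⟩))
    · exact h.not_adj j.right.2 hv huv
  have h2 : ¬ Tch T (hull T (Bd T) A) (S ∪ Y) := by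
    rintro ⟨u, hu, v, hv | hv, huv⟩
    · exact hA.1 ha (Or.inl (Or.inr ⟨_, ⟨h1, hc, hs⟩, haH, u, hu, v, hv, huv⟩))
    · exact h.not_adj (h1 hu) hv huv
  refine ⟨⟨?_, hc, hs⟩, h2⟩
  rintro x hx ((hxS | ⟨K, hK, hxK, u, hu, v, hv, huv⟩) | hxY)
  · exact h1 hx (Or.inl hxS)
  · refine h2 ⟨u, ?_, v, Or.inl hv, huv⟩
    by_contra huH
    obtain ⟨p, q, j, -, hq, hpq⟩ := (hK.2.1 x hxK u hu).exit hx huH
    exact hq (hull_adj j.right.2 (fun hp =>
      hA.1 hp (Or.inl (Or.inr ⟨K, hK, j.right.1, u, hu, v, hv, huv⟩))) hpq)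
  · exact h1 hx (Or.inr hxY)

end

/-- Plan: call `A` essential if `Pc T F univ s A` and some cycle in `hull T (Bd T) A` is not a
boundary. Take a maximal family of essential sets no two of which meet a common
`Pc T F univ (10 * s)` set; nodes are their hulls. `D` is `Bd T` with the nodes that meet or touch
it (`Base.absorb`, from `Base T F 0 0 (Bd T) ∅ id`); `count` for the other nodes; `Base.new` for
the nodes in `X`; `Y` is the set of `y` with the second alternative and not the first; `forest`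
with `σ = 10 * s` and `U` the rest. -/
theorem thin (n : ℕ) : ∃ C : ℝ, 0 < C ∧ ∀ (V : Type) [Fintype V] [DecidableEq V]
    (T : Finset (Finset V)) (F : V → EuclideanSpace ℝ (Fin n)) (ω s : ℝ) (N : ℕ), IsSurf T →
      Rk T N → Sad T F ω → ω ≤ s → 0 < s → ∃ (S Y : Set V) (root : V → V) (R : Finset V),
        Base T F (30 * (N + 1)) (C * s) S Y root ∧ Sys T F (S ∪ Y) s ∧ R.card ≤ 31 * (N + 1) ∧
          ∀ v ∈ S ∪ Y, ∃ r ∈ R, Jn T (S ∪ Y) v r := by
  obtain ⟨C, hC, hfor⟩ := forest n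
  refine ⟨4 + 3 * C, by positivity, fun V _ _ T F ω s N hT hk hF hω hs => ?_⟩
  obtain ⟨G, g1, g2, g3⟩ := b7_max (T := T) (P := fun Z => Pc T F univ (3 * s) Z ∧
      hull T (Bd T) Z ⊆ Z ∧ ∃ z, Cyc T Z z ∧ ¬ ∃ Q, d2 T Q = z) (by
    rintro Z ⟨-, -, z, hz, hn⟩
    by_contra h0
    refine hn ⟨0, d2_zero.trans ?_⟩
    funext u v
    by_contra h1
    exact h0 ⟨u, (hz.1.2 u v (Ne.symm h1)).1⟩)
  set G₀ : Set (Set V) := {Z ∈ G | (Z ∩ Bd T).Nonempty ∨ Tch T Z (Bd T)} with hG₀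
  have b0 : Base T F 0 0 (Bd T) ∅ id :=
    ⟨fun v hv => ⟨rfl, Jn.refl ⟨hv, rfl⟩⟩, fun v _ => by simp, fun v hv => ⟨hv, hv⟩, by simp,
      disjoint_empty _, fun _ h => h.elim⟩
  have hK : ∀ v ∈ ⋃₀ G₀, v ∉ Bd T →
      ∃ u b, Jn T (⋃₀ G₀ \ Bd T) v u ∧ b ∈ Bd T ∧ Adj T u b := by
    rintro v ⟨Z, hZ, hv⟩ hb
    have hc := (g1 Z hZ.1).1.2.1
    by_cases h1 : (Z ∩ Bd T).Nonempty
    · obtain ⟨b, hb1, hb2⟩ := h1
      obtain ⟨u, w, j, -, hw, huw⟩ := (hc v hv b hb1).exit (C := (Bd T)ᶜ) hb (not_not.2 hb2)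
      exact ⟨u, w, j.mono fun x hx => ⟨⟨Z, hZ, hx.1⟩, hx.2⟩, not_not.1 hw, huw⟩
    · obtain ⟨u, hu, b, hb', hub⟩ := hZ.2.resolve_left h1
      exact ⟨u, b, (hc v hv u hu).mono fun x hx => ⟨⟨Z, hZ, hx⟩, fun h => h1 ⟨x, hx, h⟩⟩, hb', hub⟩
  obtain ⟨r1, b1, -⟩ := b0.absorb (K := ⋃₀ G₀) (R := 3 * s) hF (disjoint_empty _) (by linarith) hK
    fun v u j => by
      obtain ⟨Z, hZ, hv⟩ := j.1.1
      exact (g1 Z hZ.1).1.2.2 v hv u (b7_stay
        (fun Z hZ Z' hZ' hne => (g2 Z hZ.1 Z' hZ'.1 hne).2) hZ hv (j.mono sdiff_subset))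
  set D := Bd T ∪ ⋃₀ G₀ with hD
  have hsep : ∀ Z ∈ G \ G₀, Disjoint Z D ∧ ¬ Tch T Z D := by
    intro Z hZ
    constructor
    · rw [disjoint_left]
      rintro v hv (hb | ⟨Z', hZ', hv'⟩)
      · exact hZ.2 ⟨hZ.1, Or.inl ⟨v, hv, hb⟩⟩
      · exact disjoint_left.1 (g2 Z hZ.1 Z' hZ'.1 fun e => hZ.2 (e ▸ hZ')).1 hv hv'
    · rintro ⟨u, hu, v, hb | ⟨Z', hZ', hv'⟩, huv⟩
      · exact hZ.2 ⟨hZ.1, Or.inr ⟨u, hu, v, hb, huv⟩⟩
      · exact (g2 Z hZ.1 Z' hZ'.1 fun e => hZ.2 (e ▸ hZ')).2 ⟨u, hu, v, hv', huv⟩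
  obtain ⟨X, hX, hXc, halt⟩ := count hT hk (D := D) subset_union_left (Nd := G \ G₀)
    (fun v hv => by
      by_cases hb : v ∈ Bd T
      · exact ⟨v, hb, Jn.refl hv⟩
      · obtain ⟨u, b, j, hb', hub⟩ := hK v (hv.resolve_left hb) hb
        exact ⟨b, hb', (j.mono fun x hx => Or.inr hx.1).step (Or.inl hb') hub⟩)
    (fun Z hZ => ⟨(g1 Z hZ.1).1.2.1, (hsep Z hZ).1, (hsep Z hZ).2, (g1 Z hZ.1).2⟩)
    fun Z hZ Z' hZ' => g2 Z hZ.1 Z' hZ'.1
  obtain ⟨r2, b2, hr2⟩ := b7_new (b1.mono le_rfl (by linarith only [hω] : 0 + 3 * s + ω ≤ 4 * s)) (X := X)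
    (fun Z hZ => ⟨(g1 Z (hX hZ).1).1.mono (hsep Z (hX hZ)).1.subset_compl_right (by linarith only [hs]), by
      obtain ⟨-, -, z, hz, hn⟩ := g1 Z (hX hZ).1
      by_contra h0
      refine hn ⟨0, d2_zero.trans ?_⟩
      funext u v
      by_contra h1
      exact h0 ⟨u, (hz.1.2 u v (Ne.symm h1)).1⟩⟩)
    fun Z hZ Z' hZ' hne => (g2 Z (hX hZ).1 Z' (hX hZ').1 hne).1
  set S := D ∪ ⋃₀ X with hS
  set Y : Set V := {y | ∃ u, Jn T Sᶜ y u ∧ u ∈ ⋃₀ (G \ G₀)} with hY
  have hYS : Y ⊆ Sᶜ := fun y ⟨_, j, _⟩ => j.1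
  have b3 : Base T F (0 + X.ncard) (4 * s) S Y r2 := by
    refine ⟨b2.cls, b2.rad, b2.bd, b2.few, disjoint_right.2 hYS, fun y hy => ?_⟩
    obtain ⟨u₀, j₀, hu₀⟩ := id hy
    obtain ⟨a, ha, b, hb, hab⟩ := (halt y (hYS hy)).resolve_left fun h => h u₀ j₀ hu₀
    obtain ⟨xa, hxa⟩ := hr2 a ha
    obtain ⟨xb, hxb⟩ := hr2 b hb
    refine ⟨xa, xb, fun u j w hw huw => ?_⟩
    have j' := j.mono hYS
    have hwS : w ∈ S := by
      by_contra h
      exact hw ⟨u₀, (j'.step h huw).symm.trans j₀, hu₀⟩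
    exact ⟨hwS, (hab u j' w hwS huw).imp (hxa w) (hxb w)⟩
  obtain ⟨r3, b4⟩ := hfor V T F ω (3 * s) (4 * s) _ S Y (S ∪ Y)ᶜ r2 hF (by linarith only [hω, hs]) (by linarith only [hs])
    b3 disjoint_compl_left
  have b5 := b4.mono (N' := 30 * (N + 1)) (ρ' := (4 + 3 * C) * s) (by omega) (le_of_eq (by ring))
  obtain ⟨R, hR, hR'⟩ := b7_roots hT hk b5
  refine ⟨_, Y, r3, R, b5, fun A hA => ?_, by omega, hR'⟩
  obtain ⟨k1, k2⟩ := b7_away hT hF hω b3 hA
  refine ⟨acyc_hull hT fun z hz => ?_, k1.1⟩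
  by_cases hQ : ∃ Q, d2 T Q = z
  · obtain ⟨Q, rfl⟩ := hQ
    refine ⟨Q, fun t ht ⟨v, hv, hb⟩ => status_bd hT (fun u => ?_) hb ht hv, rfl⟩
    by_contra h
    exact k1.1 (hz.1.2 u v h).2.1 (Or.inl (Or.inl (b3.bd v hb).1))
  obtain ⟨Z, hZ, hm⟩ := g3 _ ⟨k1.mono (subset_univ _) le_rfl,
    fun v hv => by_contra fun h => hv (hull_out h), z, hz, hQ⟩
  have hZS : Z ⊆ S ∪ Y := by
    intro v hv
    by_cases h : v ∈ S
    · exact Or.inl h
    · exact Or.inr ⟨v, Jn.refl h, Z, ⟨hZ, fun h0 => h (Or.inl (Or.inr ⟨Z, h0, hv⟩))⟩, hv⟩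
  rcases hm with ⟨v, hv, hvZ⟩ | ⟨u, hu, v, hv, huv⟩
  · exact (k1.1 hv ((hZS hvZ).imp_left Or.inl)).elim
  · exact (k2 ⟨u, hu, v, hZS hv, huv⟩).elim

end Pool.Agent.MP_17e62b_gt.T55

end

section

/-!
Existence of a non-zero chain of pieces, and the shortest one.
-/

namespace Pool.Agent.MP_17e62b_gt.T55

open Set Metric Topology
open scoped InnerProductSpace Manifold

variable {V : Type} [Fintype V] [DecidableEq V] {T : Finset (Finset V)}
variable {n : ℕ} {F : V → EuclideanSpace ℝ (Fin n)}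

/-- Walks of `k` pieces from `a` to `b` with total chain `z`. -/
inductive b8_W (T : Finset (Finset V)) (F : V → EuclideanSpace ℝ (Fin n)) (U : Set V) (η : ℝ) :
    ℕ → V → V → (V → V → ZMod 2) → Prop
  | zero (a : V) : b8_W T F U η 0 a a 0
  | step {k : ℕ} {a b c : V} {z γ : V → V → ZMod 2} {K : Set V} : b8_W T F U η k a b z →
      Pc T F U η K → b ∈ K → c ∈ K → On T K γ → d1 γ = ends b c →
      b8_W T F U η (k + 1) a c (z + γ)

theorem b8_one {U K : Set V} {η : ℝ} {b c : V} {γ : V → V → ZMod 2} (h : Pc T F U η K)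
    (hb : b ∈ K) (hc : c ∈ K) (ho : On T K γ) (hd : d1 γ = ends b c) : b8_W T F U η 1 b c γ := by
  simpa using b8_W.step (b8_W.zero b) h hb hc ho hd

theorem b8_cat {U : Set V} {η : ℝ} {k l : ℕ} {a b c : V} {z z' : V → V → ZMod 2}
    (h : b8_W T F U η k a b z) (h' : b8_W T F U η l b c z') :
    b8_W T F U η (k + l) a c (z + z') := by
  induction h' with
  | zero => simpa using h
  | step _ h1 h2 h3 h4 h5 ih =>
    rw [← add_assoc, ← add_assoc]
    exact b8_W.step (ih h) h1 h2 h3 h4 h5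

theorem b8_rev {U : Set V} {η : ℝ} {k : ℕ} {a b : V} {z : V → V → ZMod 2}
    (h : b8_W T F U η k a b z) : b8_W T F U η k b a z := by
  induction h with
  | zero => exact b8_W.zero _
  | step _ h1 h2 h3 h4 h5 ih =>
    have := b8_cat (b8_one h1 h3 h2 h4 (h5.trans (ends_comm _ _))) ih
    rw [add_comm 1] at this
    convert this using 1
    exact add_comm _ _

theorem b8_seq {U : Set V} {η : ℝ} {k : ℕ} {a b : V} {z : V → V → ZMod 2}
    (h : b8_W T F U η k a b z) : ∃ x P c, Seq T F U η k x P c ∧ x 0 = a ∧ x k = b ∧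
      ∑ i ∈ Finset.range k, c i = z := by
  induction h with
  | zero a => exact ⟨fun _ => a, fun _ => ∅, fun _ => 0, fun i hi => absurd hi (by omega), rfl,
      rfl, by simp⟩
  | @step k a b c z γ K _ h1 h2 h3 h4 h5 ih =>
    obtain ⟨x, P, d, hs, h0, hk, hz⟩ := ih
    refine ⟨Function.update x (k + 1) c, Function.update P k K, Function.update d k γ, ?_, ?_, ?_,
      ?_⟩
    · intro i hi
      rcases Nat.lt_succ_iff_lt_or_eq.1 hi with hi | rfl
      · rw [Function.update_of_ne (by omega : i ≠ k), Function.update_of_ne (by omega : i ≠ k),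
          Function.update_of_ne (by omega : i ≠ k + 1),
          Function.update_of_ne (by omega : i + 1 ≠ k + 1)]
        exact hs i hi
      · rw [Function.update_self, Function.update_self, Function.update_self,
          Function.update_of_ne (by omega : i ≠ i + 1), hk]
        exact ⟨h1, h2, h3, h4, h5⟩
    · rw [Function.update_of_ne (by omega), h0]
    · rw [Function.update_self]
    · rw [Finset.sum_range_succ, Function.update_self, ← hz]
      congr 1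
      exact Finset.sum_congr rfl fun i hi =>
        Function.update_of_ne (Finset.mem_range.1 hi).ne _ _

theorem b8_sub {U : Set V} {η : ℝ} {k : ℕ} {x : ℕ → V} {P : ℕ → Set V}
    {c : ℕ → V → V → ZMod 2} (h : Seq T F U η k x P c) {a b : ℕ} (hab : a ≤ b) (hb : b ≤ k) :
    b8_W T F U η (b - a) (x a) (x b)
      (∑ i ∈ Finset.range a, c i + ∑ i ∈ Finset.range b, c i) := by
  induction b, hab using Nat.le_induction with
  | base =>
    rw [Nat.sub_self, add_self1]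
    exact b8_W.zero _
  | succ b hab ih =>
    obtain ⟨h1, h2, h3, h4, h5⟩ := h b hb
    rw [Finset.sum_range_succ, ← add_assoc, show b + 1 - a = b - a + 1 by omega]
    exact b8_W.step (ih (by omega)) h1 h2 h3 h4 h5

theorem b8_obj1 {S U : Set V} {η : ℝ} {k : ℕ} {a : V} {z : V → V → ZMod 2}
    (hno : ¬ ∃ x P c, Obj T F S U η k x P c) (hk : 0 < k) (h : b8_W T F U η k a a z) :
    Nul T Uᶜ z := by
  obtain ⟨x, P, c, hs, h0, h1, hz⟩ := b8_seq h
  by_contra hn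
  exact hno ⟨x, P, c, hk, hs, Or.inl ⟨h1.trans h0.symm, hz ▸ hn⟩⟩

theorem b8_obj2 {S U : Set V} {η : ℝ} {k : ℕ} {a b s s' : V} {z : V → V → ZMod 2}
    (hno : ¬ ∃ x P c, Obj T F S U η k x P c) (hk : 0 < k) (h : b8_W T F U η k a b z)
    (hs : s ∈ S) (hs' : s' ∈ S) (ha : Adj T s a) (hb : Adj T b s') :
    Nul T Uᶜ (edge s a + z + edge b s') := by
  obtain ⟨x, P, c, hq, rfl, rfl, rfl⟩ := b8_seq h
  by_contra hn
  exact hno ⟨x, P, c, hk, hq, Or.inr ⟨s, hs, s', hs', ha, hb, hn⟩⟩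

theorem b8_edge {U : Set V} {ω : ℝ} (hF : Sad T F ω) {a b : V} (ha : a ∈ U) (hb : b ∈ U)
    (h : Adj T a b) : Pc T F U ω {a, b} := by
  have := (pc_single (T := T) (F := F) ha le_rfl).union_adj hF (pc_single hb le_rfl)
    ⟨a, rfl, b, rfl, h⟩
  rwa [zero_add, zero_add, singleton_union] at this

theorem b8_jn {U : Set V} {ω : ℝ} (hF : Sad T F ω) {a b : V} (h : Jn T U a b) :
    ∃ k z, 0 < k ∧ b8_W T F U ω k a b z := by
  obtain ⟨ha, h⟩ := h
  induction h with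
  | refl =>
    exact ⟨1, 0, one_pos, b8_one (pc_single ha hF.nonneg) rfl rfl On.zero
      (by rw [ends_self]; funext v; simp only [d1, Pi.zero_apply, Finset.sum_const_zero])⟩
  | @tail b c hab hbc ih =>
    obtain ⟨k, z, hk, hw⟩ := ih
    have hb : b ∈ U := Jn.right ⟨ha, hab⟩
    exact ⟨k + 1, _, by omega, b8_W.step hw (b8_edge hF hb hbc.1 hbc.2) (by simp) (by simp)
      (on_edge hbc.2 (by simp) (by simp)) (d1_edge _ _)⟩

theorem b8_pot {A B : Set V} (φ : V → V → V → ZMod 2)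
    (hφ : ∀ u ∈ A, ∀ v ∈ A, Adj T u v → Nul T B (edge u v + φ u + φ v))
    {z : V → V → ZMod 2} (hz : On T A z) : Nul T B (z + ∑ v, d1 z v • φ v) := by
  have key : ∀ (m : ℕ) (z : V → V → ZMod 2), On T A z →
      (Finset.univ.filter fun p : V × V => z p.1 p.2 ≠ 0).card ≤ m →
      Nul T B (z + ∑ v, d1 z v • φ v) := by
    intro m
    induction m with
    | zero =>
      intro z _ hc
      have h0 : z = 0 := by
        funext u v
        by_contra hne
        have : (u, v) ∈ Finset.univ.filter fun p : V × V => z p.1 p.2 ≠ 0 := by simpa only [ne_eq, Finset.mem_filter, Finset.mem_univ, true_and, Pi.zero_apply] using hne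
        rw [Finset.card_eq_zero.1 (Nat.le_zero.1 hc)] at this
        simp at this
      subst h0
      have : (0 : V → V → ZMod 2) + ∑ v, d1 (0 : V → V → ZMod 2) v • φ v = 0 := by simp only [d1, Pi.zero_apply, Finset.sum_const_zero, zero_smul, add_zero]
      rw [this]
      exact On.nul On.zero
    | succ m ih =>
      intro z hz hc
      by_cases h0 : ∃ u v, z u v ≠ 0
      · obtain ⟨u, v, huv⟩ := h0
        obtain ⟨hu, hv, ha⟩ := hz.2 u v huv
        have h11 : ∀ a : ZMod 2, a ≠ 0 → a + 1 = 0 := by decide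
        have hsub : (Finset.univ.filter fun p : V × V => (z + edge u v) p.1 p.2 ≠ 0) ⊆
            (Finset.univ.filter fun p : V × V => z p.1 p.2 ≠ 0).erase (u, v) := by
          rintro ⟨a, b⟩ hp
          simp only [Finset.mem_filter, Finset.mem_univ, true_and, Pi.add_apply] at hp
          simp only [Finset.mem_erase, Finset.mem_filter, Finset.mem_univ, true_and]
          by_cases he : (a = u ∧ b = v) ∨ (a = v ∧ b = u)
          · exfalso
            apply hp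
            have e1 : edge u v a b = 1 := by simp only [edge]; rw [if_pos ⟨ha.1, he⟩]
            rw [e1]
            rcases he with ⟨rfl, rfl⟩ | ⟨rfl, rfl⟩
            · exact h11 _ huv
            · rw [hz.1]; exact h11 _ huv
          · have e1 : edge u v a b = 0 := by simp only [edge]; rw [if_neg fun h => he h.2]
            rw [e1, add_zero] at hp
            exact ⟨fun h => he (Or.inl (Prod.mk.inj h)), hp⟩
        have hc' := Finset.card_le_card hsub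
        rw [Finset.card_erase_of_mem (by simpa only [ne_eq, Finset.mem_filter, Finset.mem_univ, true_and] using huv)] at hc'
        have h1 := (ih _ (hz.add (on_edge ha hu hv)) (by omega)).add (hφ u hu v hv ha)
        have h2 : ∑ w, d1 (z + edge u v) w • φ w = ∑ w, d1 z w • φ w + φ u + φ v := by
          rw [d1_add, d1_edge]
          simp only [ends, Pi.add_apply, Pi.single_apply, add_smul, ite_smul, one_smul, zero_smul, Finset.sum_add_distrib, Finset.sum_ite_eq', Finset.mem_univ, ↓ reduceIte, add_assoc]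
        rw [h2] at h1
        convert h1 using 1
        linear_combination -add_self1 (edge u v) - add_self1 (φ u) - add_self1 (φ v)
      · push Not at h0
        refine ih z hz ?_
        simp [h0]
  exact key _ z hz le_rfl

theorem b8_mod {k i i₀ : ℕ} (hi : i ≤ k) (h0 : i₀ < k) :
    (i + i₀ < k ∧ (i + i₀) % k = i + i₀) ∨ (k ≤ i + i₀ ∧ (i + i₀) % k = i + i₀ - k) := by
  rcases lt_or_ge (i + i₀) k with h | h
  · exact Or.inl ⟨h, Nat.mod_eq_of_lt h⟩
  · exact Or.inr ⟨h, by rw [Nat.mod_eq_sub_mod h, Nat.mod_eq_of_lt (by omega)]⟩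

/-- Plan: suppose that there is none. A path in `U` is a chain of pieces (edges). In each component
`C` of `U` fix a vertex `u₀` with a neighbour `s₀ ∈ S` (`slide`) and paths from `u₀` to all
vertices. Every edge in `C`, closed up by two paths, is null; every edge from `C` to `S` or to an
axis (`slide`), completed by a path and the edge `u₀ s₀`, is null; a relative cycle is the sum of
these and a chain in `Uᶜ`. -/
theorem obj_exists (hT : IsSurf T) {ω ρ r : ℝ} (hF : Sad T F ω) (hω : ω ≤ r) {N m : ℕ}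
    {B₀ S Y : Set V} {root : V → V} {X : Fin m → Set V} {Z : Fin m → Bool → Set V}
    (h : Inv T F N ρ r B₀ S Y root m X Z)
    (hn : ¬ ∀ z, Rel T (S ∪ Y ∪ ⋃ j, X j) z → Nul T (S ∪ Y ∪ ⋃ j, X j) z) :
    ∃ k x P c, Obj T F S (S ∪ Y ∪ ⋃ j, X j)ᶜ ω k x P c := by
  classical
  by_contra hno
  apply hn
  set B := S ∪ Y ∪ ⋃ j, X j with hB
  have hno' : ∀ k, ¬ ∃ x P c, Obj T F S Bᶜ ω k x P c := fun k h => hno ⟨k, h⟩
  have hSB : S ⊆ B := fun v hv => Or.inl (Or.inl hv)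
  have hXB : ∀ j, X j ⊆ B := fun j v hv => Or.inr (mem_iUnion.2 ⟨j, hv⟩)
  have hU : ∀ u, u ∈ Bᶜ → u ∉ S ∪ Y := fun u hu h => hu (Or.inl h)
  have hsl : ∀ j, ∀ w ∈ X j, ∀ u ∈ Bᶜ, Adj T w u → ∃ u' s γ, s ∈ S ∧ Adj T u' s ∧
      Jn T Bᶜ u u' ∧ On T {y | Jn T Bᶜ u y} γ ∧ d1 γ = ends u u' ∧
      Nul T (X j ∪ S) (edge w u + γ + edge u' s) := by
    intro j w hw u hu ha
    have hx := h.axis j
    refine slide hT hx.conn hx.acyc ?_ ?_ ?_ ?_ ?_ ?_ hw hu ha
    · exact disjoint_left.2 fun v hv hb => hx.sub hv (Or.inl (h.base.bd v hb).1)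
    · exact disjoint_left.2 fun v hv hb => hb (hXB j hv)
    · exact disjoint_left.2 fun v hv hb => hx.sub hv (Or.inl hb)
    · exact disjoint_left.2 fun v hv hb => hv (hSB hb)
    · intro a ha b hb hab
      by_cases hbB : b ∈ B
      · rcases hbB with (hb' | hb') | hb'
        · exact Or.inr hb'
        · exact absurd hab (h.base.not_adj (hx.sub ha) hb')
        · obtain ⟨i, hi⟩ := mem_iUnion.1 hb'
          have hij : j ≠ i := by rintro rfl; exact hb hi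
          have hK := (b8_edge hF (hx.sub ha) ((h.axis i).sub hi) hab)
          exact absurd ⟨b, by simp, hi⟩ (h.sep j i hij _ (hK.mono hK.1 hω) ⟨a, by simp, ha⟩)
      · exact Or.inl hbB
    · obtain ⟨h1, -, -, -, a, ha, s, hs, has⟩ := hx.zone false
      exact ⟨a, h1 ha, s, hs, has⟩
  have hex : ∀ v, ∃ g : V → V → ZMod 2, (v ∈ B → g = 0) ∧ (v ∈ Bᶜ → ∃ s ∈ S, ∃ a k z,
      Adj T s a ∧ 0 < k ∧ b8_W T F Bᶜ ω k a v z ∧ g = edge s a + z) := by
    intro v
    by_cases hv : v ∈ B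
    · exact ⟨0, fun _ => rfl, fun h => absurd hv h⟩
    · have h1 : ∃ s ∈ S, ∃ a, Adj T a s ∧ Jn T Bᶜ v a := by
        obtain ⟨b, hb⟩ := hT.bd
        obtain ⟨u, w, hu, -, hw, ha⟩ := (hT.conn v trivial b trivial).exit (C := Bᶜ) hv
          (fun hb' => hb' (hSB (h.base.bd b hb).1))
        rw [univ_inter] at hu
        rcases not_not.1 hw with (hw | hw) | hw
        · exact ⟨w, hw, u, ha, hu⟩
        · exact absurd ha (h.base.not_adj (hU u hu.right) hw)
        · obtain ⟨j, hj⟩ := mem_iUnion.1 hw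
          obtain ⟨u', s, -, hs, ha', hj', -⟩ := hsl j w hj u hu.right ha.symm
          exact ⟨s, hs, u', ha', hu.trans hj'⟩
      obtain ⟨s, hs, a, ha, hj⟩ := h1
      obtain ⟨k, z, hk, hw⟩ := b8_jn hF hj.symm
      exact ⟨_, fun h => absurd h hv, fun _ => ⟨s, hs, a, k, z, ha.symm, hk, hw, rfl⟩⟩
  choose φ hφ0 hφ using hex
  have hUU : ∀ u ∈ Bᶜ, ∀ v ∈ Bᶜ, Adj T u v → Nul T B (edge u v + φ u + φ v) := by
    intro u hu v hv ha
    obtain ⟨s, hs, a, k, z, h1, h2, h3, h4⟩ := hφ u hu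
    obtain ⟨s', hs', a', k', z', h1', -, h3', h4'⟩ := hφ v hv
    have hw := b8_cat (b8_W.step h3 (b8_edge hF hu hv ha) (by simp) (by simp)
      (on_edge ha (by simp) (by simp)) (d1_edge u v)) (b8_rev h3')
    have := b8_obj2 (hno' _) (by omega) hw hs hs' h1 h1'.symm
    rw [compl_compl] at this
    convert this using 1
    rw [h4, h4', edge_comm a' s']
    ring
  have hUS : ∀ u ∈ Bᶜ, ∀ v ∈ S, Adj T u v → Nul T B (edge u v + φ u) := by
    intro u hu v hv ha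
    obtain ⟨s, hs, a, k, z, h1, h2, h3, h4⟩ := hφ u hu
    have := b8_obj2 (hno' _) h2 h3 hs hv h1 ha
    rw [compl_compl] at this
    convert this using 1
    rw [h4]
    ring
  have hUB : ∀ u ∈ Bᶜ, ∀ v ∈ B, Adj T u v → Nul T B (edge u v + φ u) := by
    intro u hu v hv ha
    rcases hv with (hv | hv) | hv
    · exact hUS u hu v hv ha
    · exact absurd ha (h.base.not_adj (hU u hu) hv)
    · obtain ⟨j, hj⟩ := mem_iUnion.1 hv
      obtain ⟨u', s, γ, hs, ha', hj', ho, hd, hnul⟩ := hsl j v hj u hu ha.symm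
      have h1 := b8_pot φ hUU (ho.mono fun y hy => Jn.right hy)
      have h2 : ∑ w, d1 γ w • φ w = φ u + φ u' := by
        rw [hd]
        simp only [ends, Pi.add_apply, Pi.single_apply, add_smul, ite_smul, one_smul, zero_smul, Finset.sum_add_distrib, Finset.sum_ite_eq', Finset.mem_univ, ↓ reduceIte]
      rw [h2] at h1
      have := ((hnul.mono (union_subset (hXB j) hSB)).add h1).add (hUS u' hj'.right s hs ha')
      convert this using 1
      rw [edge_comm v u]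
      linear_combination -add_self1 γ - add_self1 (edge u' s) - add_self1 (φ u')
  intro z hz
  have h1 := b8_pot (A := univ) (B := B) φ (by
    intro u _ v _ ha
    by_cases hu : u ∈ B <;> by_cases hv : v ∈ B
    · rw [hφ0 u hu, hφ0 v hv, add_zero, add_zero]
      exact (on_edge ha hu hv).nul
    · rw [hφ0 u hu, add_zero, edge_comm]
      exact hUB v hv u hu ha.symm
    · rw [hφ0 v hv, add_zero]
      exact hUB u hu v hv ha
    · exact hUU u hu v hv ha) hz.1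
  have h2 : ∑ v, d1 z v • φ v = 0 := Finset.sum_eq_zero fun v _ => by
    by_cases hv : v ∈ B
    · rw [hφ0 v hv, smul_zero]
    · rw [hz.2 v hv, zero_smul]
  rwa [h2, add_zero] at h1

/-- Plan: take `k` minimal. A shortcut `K` from `P i` to `P j` splits the chain, up to cycles inside
single pieces, into two objects with `k - (j - i) + 2` and `j - i + 2` pieces. -/
theorem tame {S U : Set V} {η : ℝ} (hS : Disjoint S U)
    (hsys : ∀ K, Pc T F U η K → ∀ z, Cyc T K z → Nul T Uᶜ z)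
    (h : ∃ k x P c, Obj T F S U η k x P c) :
    ∃ k x P c, 0 < k ∧ Seq T F U η k x P c ∧ T1 T F U η k P ∧
      ((∃ s₀ ∈ S, ∃ s₁ ∈ S, Adj T s₀ (x 0) ∧ Adj T (x k) s₁ ∧
        ¬ Nul T Uᶜ (edge s₀ (x 0) + ∑ i ∈ Finset.range k, c i + edge (x k) s₁) ∧
        T2 T F S U η k P) ∨
      (x k = x 0 ∧ ¬ Nul T Uᶜ (∑ i ∈ Finset.range k, c i) ∧
        ∀ i j, i ≤ j → j < k → ∀ K K', Pc T F U η K → Pc T F U η K' → (K ∩ P i).Nonempty →
          (K' ∩ P j).Nonempty → Tch T K S → Tch T K' S → j ≤ i + 3 ∨ k + i ≤ j + 3)) := by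
  classical
  have hmin : ∀ l < Nat.find h, ¬ ∃ x P c, Obj T F S U η l x P c := fun l hl => Nat.find_min h hl
  obtain ⟨x, P, c, hk, hs, ho⟩ := Nat.find_spec h
  generalize Nat.find h = k at *
  -- the two halves of a piece
  have half : ∀ i < k, ∀ p ∈ P i, ∃ α, b8_W T F U η 1 (x i) p α ∧
      b8_W T F U η 1 p (x (i + 1)) (α + c i) := by
    intro i hi p hp
    obtain ⟨h1, h2, h3, h4, h5⟩ := hs i hi
    obtain ⟨α, ha, hd⟩ := (h1.2.1 _ h2 _ hp).fill
    refine ⟨α, b8_one h1 h2 hp ha hd, b8_one h1 hp h3 (ha.add h4) ?_⟩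
    rw [d1_add, hd, h5, ends_comm (x i) p, ends_add]
  have ins : ∀ K, Pc T F U η K → ∀ p ∈ K, ∀ q ∈ K, ∃ κ, b8_W T F U η 1 p q κ := by
    intro K hK p hp q hq
    obtain ⟨κ, ha, hd⟩ := (hK.2.1 _ hp _ hq).fill
    exact ⟨κ, b8_one hK hp hq ha hd⟩
  have s0 : ∑ i ∈ Finset.range 0, c i = 0 := by simp
  refine ⟨k, x, P, c, hk, hs, ?_, ?_⟩
  · rintro i j hij hj K hK ⟨p, hp, hp'⟩ ⟨q, hq, hq'⟩
    by_contra hc
    obtain ⟨α, a1, a2⟩ := half i (by omega) p hp'
    obtain ⟨β, b1, b2⟩ := half j hj q hq'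
    obtain ⟨κ, k1⟩ := ins K hK p hp q hq
    have wA := b8_cat (b8_cat (b8_cat (b8_cat (b8_sub hs (Nat.zero_le i) (by omega)) a1) k1) b2)
      (b8_sub hs (show j + 1 ≤ k by omega) le_rfl)
    have wB := b8_cat (b8_cat (b8_cat (b8_sub hs (show i + 1 ≤ j by omega) hj.le) b1) (b8_rev k1))
      a2
    have nB := b8_obj1 (hmin _ (by omega)) (by omega) wB
    rw [s0, Finset.sum_range_succ c j] at wA
    rw [Finset.sum_range_succ c i] at nB
    rcases ho with ⟨h1, h2⟩ | ⟨s₀, h0, s₁, h1, h2, h3, h4⟩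
    · rw [h1] at wA
      apply h2
      convert (b8_obj1 (hmin _ (by omega)) (by omega) wA).add nB using 1
      linear_combination -add_self1 α - add_self1 β - add_self1 κ - add_self1 (c i) -
        add_self1 (c j) - add_self1 (∑ i ∈ Finset.range i, c i) -
        add_self1 (∑ i ∈ Finset.range j, c i)
    · apply h4
      convert (b8_obj2 (hmin _ (by omega)) (by omega) wA h0 h1 h2 h3).add nB using 1
      linear_combination -add_self1 α - add_self1 β - add_self1 κ - add_self1 (c i) -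
        add_self1 (c j) - add_self1 (∑ i ∈ Finset.range i, c i) -
        add_self1 (∑ i ∈ Finset.range j, c i)
  · rcases ho with ⟨h1, h2⟩ | ⟨s₀, h0, s₁, h1, h2, h3, h4⟩
    · refine Or.inr ⟨h1, h2, ?_⟩
      rintro i j hij hj K K' hK hK' ⟨p, hp, hp'⟩ ⟨q, hq, hq'⟩ ⟨u, hu, s, hs1, hus⟩
        ⟨u', hu', s', hs2, hus'⟩
      by_contra hc
      obtain ⟨α, a1, a2⟩ := half i (by omega) p hp'
      obtain ⟨β, b1, b2⟩ := half j hj q hq'
      obtain ⟨κ, k1⟩ := ins K hK p hp u hu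
      obtain ⟨κ', k2⟩ := ins K' hK' q hq u' hu'
      have wA := b8_cat (b8_cat (b8_cat (b8_cat (b8_rev k1) a2)
        (b8_sub hs (show i + 1 ≤ j by omega) hj.le)) b1) k2
      have w1 := b8_sub hs (show j + 1 ≤ k by omega) le_rfl
      rw [h1] at w1
      have wB := b8_cat (b8_cat (b8_cat (b8_cat (b8_cat (b8_rev k2) b2) w1)
        (b8_sub hs (Nat.zero_le i) (by omega))) a1) k1
      have nA := b8_obj2 (hmin _ (by omega)) (by omega) wA hs1 hs2 hus.symm hus'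
      have nB := b8_obj2 (hmin _ (by omega)) (by omega) wB hs2 hs1 hus'.symm hus
      rw [s0, Finset.sum_range_succ c j, edge_comm s' u', edge_comm u s] at nB
      rw [Finset.sum_range_succ c i] at nA
      apply h2
      convert nA.add nB using 1
      linear_combination -add_self1 α - add_self1 β - add_self1 κ - add_self1 κ' -
        add_self1 (c i) - add_self1 (c j) - add_self1 (∑ i ∈ Finset.range i, c i) -
        add_self1 (∑ i ∈ Finset.range j, c i) - add_self1 (edge s u) - add_self1 (edge u' s')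
    · refine Or.inl ⟨s₀, h0, s₁, h1, h2, h3, h4, ?_⟩
      rintro i hi K hK ⟨p, hp, hp'⟩ ⟨u, hu, s, hs1, hus⟩
      by_contra hc
      obtain ⟨α, a1, a2⟩ := half i hi p hp'
      obtain ⟨κ, k1⟩ := ins K hK p hp u hu
      have wA := b8_cat (b8_cat (b8_sub hs (Nat.zero_le i) hi.le) a1) k1
      have wB := b8_cat (b8_cat (b8_rev k1) a2) (b8_sub hs (show i + 1 ≤ k by omega) le_rfl)
      have nA := b8_obj2 (hmin _ (by omega)) (by omega) wA h0 hs1 h2 hus
      have nB := b8_obj2 (hmin _ (by omega)) (by omega) wB hs1 h1 hus.symm h3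
      rw [s0, edge_comm u s] at nA
      rw [Finset.sum_range_succ c i] at nB
      apply h4
      convert nA.add nB using 1
      linear_combination -add_self1 α - add_self1 κ - add_self1 (c i) -
        add_self1 (∑ i ∈ Finset.range i, c i) - add_self1 (edge s u)

/-- A closed chain of pieces can start anywhere. -/
theorem rotate {U : Set V} {η : ℝ} {k : ℕ} {x : ℕ → V} {P : ℕ → Set V}
    {c : ℕ → V → V → ZMod 2} (h : Seq T F U η k x P c) (hx : x k = x 0) (h1 : T1 T F U η k P)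
    {i₀ : ℕ} (hi : i₀ < k) :
    ∃ x' c', Seq T F U η k x' (fun i => P ((i + i₀) % k)) c' ∧ x' k = x' 0 ∧
      ∑ i ∈ Finset.range k, c' i = ∑ i ∈ Finset.range k, c i ∧
      T1 T F U η k (fun i => P ((i + i₀) % k)) := by
  refine ⟨fun i => x ((i + i₀) % k), fun i => c ((i + i₀) % k), ?_, ?_, ?_, ?_⟩
  · intro i hik
    have e : x ((i + 1 + i₀) % k) = x ((i + i₀) % k + 1) := by
      rcases b8_mod hik.le hi with ⟨a1, a2⟩ | ⟨a1, a2⟩ <;>
        rcases b8_mod (show i + 1 ≤ k from hik) hi with ⟨b1, b2⟩ | ⟨b1, b2⟩ <;> rw [a2, b2]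
      · congr 1; omega
      · rw [show i + 1 + i₀ - k = 0 by omega, show i + i₀ + 1 = k by omega, hx]
      · omega
      · congr 1; omega
    simp only [e]
    exact h _ (Nat.mod_lt _ (by omega))
  · simp
  · refine Finset.sum_bij (fun i _ => (i + i₀) % k) ?_ ?_ ?_ fun _ _ => rfl
    · intro i _
      exact Finset.mem_range.2 (Nat.mod_lt _ (by omega))
    · intro i hi1 j hj1 e
      have := b8_mod (Finset.mem_range.1 hi1).le hi
      have := b8_mod (Finset.mem_range.1 hj1).le hi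
      have := Finset.mem_range.1 hi1
      have := Finset.mem_range.1 hj1
      omega
    · intro j hj
      have hj' := Finset.mem_range.1 hj
      rcases le_or_gt i₀ j with h2 | h2
      · refine ⟨j - i₀, Finset.mem_range.2 (by omega), ?_⟩
        have := b8_mod (show j - i₀ ≤ k by omega) hi
        omega
      · refine ⟨j + k - i₀, Finset.mem_range.2 (by omega), ?_⟩
        have := b8_mod (show j + k - i₀ ≤ k by omega) hi
        omega
  · intro i j hij hj K hK a b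
    have e1 := b8_mod (show i ≤ k by omega) hi
    have e2 := b8_mod hj.le hi
    rcases le_total ((i + i₀) % k) ((j + i₀) % k) with h2 | h2
    · have := h1 _ _ h2 (Nat.mod_lt _ (by omega)) K hK a b
      omega
    · have := h1 _ _ h2 (Nat.mod_lt _ (by omega)) K hK b a
      omega

/-- A run of pieces is a piece. -/
theorem Seq.run {U : Set V} {η : ℝ} {k : ℕ} {x : ℕ → V} {P : ℕ → Set V}
    {c : ℕ → V → V → ZMod 2} (h : Seq T F U η k x P c) {a l : ℕ} (hl : a + l ≤ k) :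
    Pc T F U (l * η) {v | ∃ j, a ≤ j ∧ j < a + l ∧ v ∈ P j} ∧
      On T {v | ∃ j, a ≤ j ∧ j < a + l ∧ v ∈ P j} (∑ j ∈ Finset.Ico a (a + l), c j) ∧
      d1 (∑ j ∈ Finset.Ico a (a + l), c j) = ends (x a) (x (a + l)) := by
  refine ⟨?_, On.sum fun j hj => (h j ?_).2.2.2.1.mono fun v hv => ⟨j, ?_, ?_, hv⟩, ?_⟩
  · induction l with
    | zero =>
      have e : {v | ∃ j, a ≤ j ∧ j < a + 0 ∧ v ∈ P j} = ∅ := by
        ext v
        simp only [mem_ofPred_eq, mem_empty_iff_false, iff_false]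
        rintro ⟨j, h1, h2, -⟩
        omega
      rw [e]
      exact ⟨empty_subset _, fun _ h => h.elim, fun _ h => h.elim⟩
    | succ l ih =>
      have e : {v | ∃ j, a ≤ j ∧ j < a + (l + 1) ∧ v ∈ P j} =
          {v | ∃ j, a ≤ j ∧ j < a + l ∧ v ∈ P j} ∪ P (a + l) := by
        ext v
        constructor
        · rintro ⟨j, h1, h2, h3⟩
          rcases eq_or_ne j (a + l) with rfl | h4
          · exact Or.inr h3
          · exact Or.inl ⟨j, h1, by omega, h3⟩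
        · rintro (⟨j, h1, h2, h3⟩ | h3)
          · exact ⟨j, h1, by omega, h3⟩
          · exact ⟨a + l, by omega, by omega, h3⟩
      obtain ⟨h1, h2, -⟩ := h (a + l) (by omega)
      rw [e]
      rcases l with _ | l
      · have e' : {v | ∃ j, a ≤ j ∧ j < a + 0 ∧ v ∈ P j} = ∅ := by
          ext v
          simp only [mem_ofPred_eq, mem_empty_iff_false, iff_false]
          rintro ⟨j, h1, h2, -⟩
          omega
        rw [e', empty_union]
        simpa using h1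
      · rw [Nat.cast_succ (l + 1), add_mul, one_mul]
        exact (ih (by omega)).union h1
          ⟨x (a + (l + 1)), ⟨a + l, by omega, by omega, (h (a + l) (by omega)).2.2.1⟩, h2⟩
  · have := (Finset.mem_Ico.1 hj).2
    omega
  · exact (Finset.mem_Ico.1 hj).1
  · exact (Finset.mem_Ico.1 hj).2
  · induction l with
    | zero =>
      rw [add_zero, ends_self]
      funext v
      simp only [d1, Std.le_refl, Finset.Ico_eq_empty_of_le, Finset.sum_apply, Finset.sum_empty, Finset.sum_const_zero, Pi.zero_apply]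
    | succ l ih =>
      rw [← add_assoc, Finset.sum_Ico_succ_top (by omega), d1_add, ih (by omega),
        (h (a + l) (by omega)).2.2.2.2, ends_add]

end Pool.Agent.MP_17e62b_gt.T55

end

section

/-!
The thick band about a tame chain of pieces.
-/

namespace Pool.Agent.MP_17e62b_gt.T55

open Set Metric Topology
open scoped InnerProductSpace Manifold

variable {V : Type} [Fintype V] [DecidableEq V] {T : Finset (Finset V)}
variable {n : ℕ} {F : V → EuclideanSpace ℝ (Fin n)}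

variable {S U K₀ : Set V} {ω η : ℝ} {k : ℕ} {x : ℕ → V} {P : ℕ → Set V}
  {c : ℕ → V → V → ZMod 2}

omit [Fintype V] [DecidableEq V] in
theorem b9_endF {v : V} : v ∈ End k P K₀ false ↔ v ∈ K₀ ∨ ∃ j, j ≤ 10 ∧ v ∈ P j := by
  simp only [End, Bool.false_eq_true, ↓ reduceIte, mem_union, mem_ofPred_eq]

omit [Fintype V] [DecidableEq V] in
theorem b9_endT {v : V} : v ∈ End k P K₀ true ↔ ∃ j, j < k ∧ k ≤ j + 11 ∧ v ∈ P j := by
  simp only [End, ↓ reduceIte, mem_ofPred_eq]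

theorem b9_close (h1 : T1 T F U η k P) {i j : ℕ} (hi : i < k) (hj : j < k) {K : Set V} {r : ℝ}
    (hK : Pc T F U r K) (hr : r ≤ η) (ki : (K ∩ P i).Nonempty) (kj : (K ∩ P j).Nonempty) :
    (j ≤ i + 2 ∧ i ≤ j + 2) ∨ k + i ≤ j + 2 ∨ k + j ≤ i + 2 := by
  have hK' : Pc T F U η K := hK.mono hK.1 hr
  rcases le_total i j with hij | hij
  · have := h1 i j hij hj K hK' ki kj
    omega
  · have := h1 j i hij hi K hK' kj ki
    omega

theorem b9_same (hη : 0 ≤ η) (h : Seq T F U η k x P c) (h1 : T1 T F U η k P) {i j : ℕ}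
    (hi : i < k) (hj : j < k) {v : V} (vi : v ∈ P i) (vj : v ∈ P j) :
    (j ≤ i + 2 ∧ i ≤ j + 2) ∨ k + i ≤ j + 2 ∨ k + j ≤ i + 2 :=
  b9_close h1 hi hj (pc_single ((h i hi).1.1 vi) le_rfl) hη ⟨v, rfl, vi⟩ ⟨v, rfl, vj⟩

theorem b9_adj (hF : Sad T F ω) (hω : 100 * ω ≤ η) (h : Seq T F U η k x P c)
    (h1 : T1 T F U η k P) {i j : ℕ} (hi : i < k) (hj : j < k) {u v : V} (ui : u ∈ P i)
    (vj : v ∈ P j) (ha : Adj T u v) :
    (j ≤ i + 2 ∧ i ≤ j + 2) ∨ k + i ≤ j + 2 ∨ k + j ≤ i + 2 := by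
  have h0 := hF.nonneg
  have hK := Pc.union_adj hF (pc_single (T := T) (F := F) ((h i hi).1.1 ui) le_rfl)
    (pc_single ((h j hj).1.1 vj) le_rfl) ⟨u, rfl, v, rfl, ha⟩
  exact b9_close h1 hi hj hK (by linarith only [hω, h0]) ⟨u, Or.inl rfl, ui⟩ ⟨v, Or.inr rfl, vj⟩

theorem b9_k0 (hη : 0 ≤ η) (h1 : T1 T F U η k P)
    (h0 : K₀ = ∅ ∨ (Pc T F U (η / 10) K₀ ∧ (K₀ ∩ P 0).Nonempty)) {j : ℕ} (hj : j < k) {v : V}
    (hv : v ∈ K₀) (vj : v ∈ P j) : j ≤ 2 ∨ k ≤ j + 2 := by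
  rcases h0 with rfl | ⟨hK, hn⟩
  · exact hv.elim
  · have := b9_close h1 (by omega : 0 < k) hj hK (by linarith only [hη]) hn ⟨v, hv, vj⟩
    omega

theorem b9_run (h : Seq T F U η k x P c) {a b : ℕ} (hb : b < k) :
    Conn T {v | ∃ j, a ≤ j ∧ j ≤ b ∧ v ∈ P j} := by
  rcases Nat.lt_or_ge b a with hab | hab
  · rintro u ⟨j, h1, h2, -⟩
    omega
  · have := (h.run (a := a) (l := b + 1 - a) (by omega)).1.2.1
    have he : {v | ∃ j, a ≤ j ∧ j ≤ b ∧ v ∈ P j} =
        {v | ∃ j, a ≤ j ∧ j < a + (b + 1 - a) ∧ v ∈ P j} := by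
      ext v
      refine exists_congr fun j => ?_
      exact ⟨fun hj => ⟨hj.1, by omega, hj.2.2⟩, fun hj => ⟨hj.1, by omega, hj.2.2⟩⟩
    rw [he]
    exact this

theorem b9_mid (hη : 0 ≤ η) (h : Seq T F U η k x P c) (h1 : T1 T F U η k P)
    (h0 : K₀ = ∅ ∨ (Pc T F U (η / 10) K₀ ∧ (K₀ ∩ P 0).Nonempty)) {j : ℕ} (ha : 13 ≤ j)
    (hb : j + 14 ≤ k) {v : V} (hv : v ∈ P j) : v ∉ End k P K₀ false ∪ End k P K₀ true := by
  rintro (hE | hE)
  · rcases b9_endF.1 hE with hE | ⟨i, hi, vi⟩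
    · have := b9_k0 hη h1 h0 (by omega) hE hv
      omega
    · have := b9_same hη h h1 (by omega) (by omega) vi hv
      omega
  · obtain ⟨i, hi, hi', vi⟩ := b9_endT.1 hE
    have := b9_same hη h h1 (by omega) (by omega) vi hv
    omega

theorem b9_sub (hη : 0 ≤ η) (h : Seq T F U η k x P c) (h1 : T1 T F U η k P) (hk : 200 < k)
    (h0 : K₀ = ∅ ∨ (Pc T F U (η / 10) K₀ ∧ (K₀ ∩ P 0).Nonempty)) {j : ℕ} (ha : 13 ≤ j)
    (hb : j + 14 ≤ k) : P j ⊆ Spine T k x P K₀ := by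
  intro v hv
  have hc := b9_run h (a := 13) (b := k - 14) (by omega) (x 100)
    ⟨100, by omega, by omega, (h 100 (by omega)).2.1⟩ v ⟨j, ha, by omega, hv⟩
  refine hc.mono ?_
  rintro u ⟨i, hi, hi', ui⟩
  exact ⟨⟨i, by omega, ui⟩, b9_mid hη h h1 h0 hi (by omega) ui⟩

omit [Fintype V] [DecidableEq V] in
theorem b9_idx {v : V} (hv : v ∈ {u | ∃ j < k, u ∈ P j} \ (End k P K₀ false ∪ End k P K₀ true)) :
    ∃ j, 11 ≤ j ∧ j + 12 ≤ k ∧ v ∈ P j := by
  obtain ⟨⟨j, hj, vj⟩, hE⟩ := hv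
  refine ⟨j, ?_, ?_, vj⟩
  · by_contra hc
    exact hE (Or.inl (b9_endF.2 (Or.inr ⟨j, by omega, vj⟩)))
  · by_contra hc
    exact hE (Or.inr (b9_endT.2 ⟨j, hj, by omega, vj⟩))

theorem b9_exit (hF : Sad T F ω) (hω : 100 * ω ≤ η) (h : Seq T F U η k x P c)
    (h1 : T1 T F U η k P) (hk : 200 < k)
    (h0 : K₀ = ∅ ∨ (Pc T F U (η / 10) K₀ ∧ (K₀ ∩ P 0).Nonempty)) {a : ℕ} (ha : 11 ≤ a)
    (ha' : a + 13 ≤ k) (hf : a + 3 < 100 ∨ 102 < a) {v : V} (hv : v ∈ Spine T k x P K₀)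
    (hv' : ∃ j, a ≤ j ∧ j ≤ a + 1 ∧ v ∈ P j) :
    ∃ u w j, Jn T (Spine T k x P K₀ ∩ {v | ∃ j, a ≤ j ∧ j ≤ a + 1 ∧ v ∈ P j}) v u ∧ Adj T u w ∧
      w ∈ P j ∧ 11 ≤ j ∧ j + 12 ≤ k ∧ (j < a ∨ a + 1 < j) ∧ j ≤ a + 3 ∧ a ≤ j + 2 := by
  have hη : 0 ≤ η := by linarith only [hF.nonneg, hω]
  have h100 := (h 100 (by omega)).2.1
  have hj : Jn T (Spine T k x P K₀) v (x 100) :=
    conn_comp _ _ v hv _ (b9_sub hη h h1 hk h0 (j := 100) (by omega) (by omega) h100)
  obtain ⟨u, w, hu, hw, hw', had⟩ := hj.exit (C := {v | ∃ j, a ≤ j ∧ j ≤ a + 1 ∧ v ∈ P j}) hv' (by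
    rintro ⟨j, j1, j2, j3⟩
    have := b9_same hη h h1 (by omega) (by omega) j3 h100
    omega)
  obtain ⟨j, j1, j2, j3⟩ := b9_idx (Jn.right hw)
  obtain ⟨i, i1, i2, i3⟩ := hu.right.2
  have := b9_adj hF hω h h1 (by omega) (by omega) i3 j3 had
  refine ⟨u, w, j, hu, had, j3, j1, j2, ?_, by omega, by omega⟩
  by_contra hc
  exact hw' ⟨j, by omega, by omega, j3⟩

theorem b9_spine_sub (h : Seq T F U η k x P c) :
    Spine T k x P K₀ ⊆ U \ (End k P K₀ false ∪ End k P K₀ true) := by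
  intro v hv
  obtain ⟨⟨j, hj, vj⟩, hE⟩ := Jn.right hv
  exact ⟨(h j hj).1.1 vj, hE⟩

theorem b9_wout_sub : Wout T F U η k x P K₀ ⊆ U \ (End k P K₀ false ∪ End k P K₀ true) := by
  intro v hv
  have hd : Disjoint (Wout T F U η k x P K₀) (U \ (End k P K₀ false ∪ End k P K₀ true))ᶜ :=
    hull_disj (disjoint_compl_right_iff_subset.2 nb_sub)
  exact disjoint_compl_right_iff_subset.1 hd hv

theorem b9_front {w v : V} (hw : w ∈ Wout T F U η k x P K₀)
    (hv : v ∉ U \ (End k P K₀ false ∪ End k P K₀ true)) (ha : Adj T w v) :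
    ∃ K j, Pc T F (Wout T F U η k x P K₀) (η / 10) K ∧ w ∈ K ∧
      (K ∩ Spine T k x P K₀ ∩ P j).Nonempty ∧ 11 ≤ j ∧ j + 12 ≤ k := by
  have hn : w ∈ nb T F (U \ (End k P K₀ false ∪ End k P K₀ true)) (η / 10) (Spine T k x P K₀) := by
    by_contra hc
    exact hv (b9_wout_sub (hull_adj hw hc ha))
  obtain ⟨K, hK, wK, y, yK, yS⟩ := hn
  obtain ⟨j, j1, j2, j3⟩ := b9_idx (Jn.right yS)
  exact ⟨K, j, hK.mono (fun u hu => subset_hull ⟨K, hK, hu, y, yK, yS⟩) le_rfl, wK,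
    ⟨y, ⟨yK, yS⟩, j3⟩, j1, j2⟩

/-- The middle pieces lie in the spine; windows of the spine are connected. -/
theorem spine_win (hF : Sad T F ω) (hω : 100 * ω ≤ η) (h : Seq T F U η k x P c)
    (h1 : T1 T F U η k P) (hk : 200 < k)
    (h0 : K₀ = ∅ ∨ (Pc T F U (η / 10) K₀ ∧ (K₀ ∩ P 0).Nonempty)) :
    (∀ j, 13 ≤ j → j + 14 ≤ k → P j ⊆ Spine T k x P K₀) ∧
      (∀ v ∈ Spine T k x P K₀, ∃ j, 11 ≤ j ∧ j + 12 ≤ k ∧ v ∈ P j) ∧
      ∀ a b, a = 11 ∨ (13 ≤ a ∧ a + 17 ≤ k) → b + 12 = k ∨ (16 ≤ b ∧ b + 14 ≤ k) →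
        Conn T (Spine T k x P K₀ ∩ {v | ∃ j, a ≤ j ∧ j ≤ b ∧ v ∈ P j}) := by
  have hη : 0 ≤ η := by linarith only [hF.nonneg, hω]
  refine ⟨fun j ha hb => b9_sub hη h h1 hk h0 ha hb, fun v hv => b9_idx (Jn.right hv), ?_⟩
  intro a b ha hb
  rcases Nat.lt_or_ge b a with hab | hab
  · rintro u ⟨-, j, h1, h2, -⟩
    omega
  have hcore : ∀ j, max a 13 ≤ j → j ≤ min b (k - 14) → ∀ v ∈ P j,
      Jn T (Spine T k x P K₀ ∩ {v | ∃ j, a ≤ j ∧ j ≤ b ∧ v ∈ P j}) v (x (max a 13)) := by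
    intro j j1 j2 v hv
    have hc := b9_run h (a := max a 13) (b := min b (k - 14)) (by omega) v ⟨j, j1, j2, hv⟩
      (x (max a 13)) ⟨max a 13, le_rfl, by omega, (h _ (by omega)).2.1⟩
    refine hc.mono ?_
    rintro u ⟨i, i1, i2, ui⟩
    exact ⟨b9_sub hη h h1 hk h0 (by omega) (by omega) ui, i, by omega, by omega, ui⟩
  refine conn_of_jn (x := x (max a 13)) ?_
  rintro v ⟨hv, j, j1, j2, vj⟩
  obtain hj | hj | hj : (13 ≤ j ∧ j + 14 ≤ k) ∨ j < 13 ∨ k < j + 14 := by omega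
  · exact hcore j (by omega) (by omega) v vj
  · obtain ⟨u, w, i, hu, had, wi, i1, i2, i3, i4, i5⟩ := b9_exit hF hω h h1 hk h0 (a := 11)
      le_rfl (by omega) (by omega) hv ⟨j, by omega, by omega, vj⟩
    have hw := hcore i (by omega) (by omega) w wi
    refine ((hu.mono ?_).step hw.1 had).trans hw
    rintro y ⟨y1, l, l1, l2, l3⟩
    exact ⟨y1, l, by omega, by omega, l3⟩
  · obtain ⟨u, w, i, hu, had, wi, i1, i2, i3, i4, i5⟩ := b9_exit hF hω h h1 hk h0 (a := k - 13)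
      (by omega) (by omega) (by omega) hv ⟨j, by omega, by omega, vj⟩
    have hw := hcore i (by omega) (by omega) w wi
    refine ((hu.mono ?_).step hw.1 had).trans hw
    rintro y ⟨y1, l, l1, l2, l3⟩
    exact ⟨y1, l, by omega, by omega, l3⟩

/-- A vertex of the band next to an end zone is near the corresponding end of the spine. -/
theorem wout_idx (hF : Sad T F ω) (hω : 100 * ω ≤ η) (h : Seq T F U η k x P c)
    (h1 : T1 T F U η k P) (hk : 200 < k)
    (h0 : K₀ = ∅ ∨ (Pc T F U (η / 10) K₀ ∧ (K₀ ∩ P 0).Nonempty)) {i : Bool} {w v : V}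
    (hw : w ∈ Wout T F U η k x P K₀) (hv : v ∈ End k P K₀ i) (ha : Adj T w v) :
    ∃ K j, Pc T F (Wout T F U η k x P K₀) (η / 10) K ∧ w ∈ K ∧
      (K ∩ Spine T k x P K₀ ∩ P j).Nonempty ∧ 11 ≤ j ∧ j + 12 ≤ k ∧
      (if i then k ≤ j + 13 else j ≤ 12) := by
  have h0ω := hF.nonneg
  obtain ⟨K, j, hK, wK, hn, j1, j2⟩ := b9_front hw (v := v) (by
    rintro ⟨-, hc⟩
    cases i
    · exact hc (Or.inl hv)
    · exact hc (Or.inr hv)) ha
  refine ⟨K, j, hK, wK, hn, j1, j2, ?_⟩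
  have hKU : Pc T F U (η / 10) K := hK.mono (fun u hu => (b9_wout_sub (hK.1 hu)).1) le_rfl
  obtain ⟨y, ⟨yK, -⟩, yj⟩ := hn
  have key : ∀ l < k, v ∈ P l → (j ≤ l + 2 ∧ l ≤ j + 2) ∨ k + l ≤ j + 2 ∨ k + j ≤ l + 2 :=
    fun l hl vl => b9_close h1 hl (by omega)
      (Pc.union_adj hF hKU (pc_single ((h l hl).1.1 vl) le_rfl) ⟨w, wK, v, rfl, ha⟩)
      (by linarith only [hω, h0ω]) ⟨v, Or.inr rfl, vl⟩ ⟨y, Or.inl yK, yj⟩
  cases i
  · simp only [Bool.false_eq_true, if_false]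
    rcases b9_endF.1 hv with hE | ⟨l, hl, vl⟩
    · rcases h0 with rfl | ⟨hK0, z, z1, z2⟩
      · exact hE.elim
      · have := b9_close h1 (by omega : 0 < k) (by omega : j < k)
          (Pc.union_adj hF hKU hK0 ⟨w, wK, v, hE, ha⟩) (by linarith only [hω, h0ω]) ⟨z, Or.inr z1, z2⟩
          ⟨y, Or.inl yK, yj⟩
        omega
    · have := key l (by omega) vl
      omega
  · simp only [if_true]
    obtain ⟨l, hl, hl', vl⟩ := b9_endT.1 hv
    have := key l hl vl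
    omega

/-- Plan: the pieces with index in `[13, k - 14]` miss the end zones (`T1`) and lie in the spine. A
vertex of the band with a neighbour outside the band is not in a hole (`hull_adj`), so a set of
size `η / 10` joins it to a vertex of the spine in a piece with index in `[11, k - 12]`; next to
the first end zone that index is at most `12`, next to the last at least `k - 13`. The part of the
spine in the pieces with index at most `16` is connected. -/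
theorem wout_basic (hT : IsSurf T) (hF : Sad T F ω) (hω : 100 * ω ≤ η) (hb : Bd T ⊆ Uᶜ)
    (hS : Disjoint S U)
    (h : Seq T F U η k x P c) (h1 : T1 T F U η k P) (h2 : T2 T F S U (η / 10) k P) (hk : 200 < k)
    (h0 : K₀ = ∅ ∨ (Pc T F U (η / 10) K₀ ∧ (K₀ ∩ P 0).Nonempty)) :
    Conn T (Wout T F U η k x P K₀) ∧
      Wout T F U η k x P K₀ ⊆ U \ (End k P K₀ false ∪ End k P K₀ true) ∧
      Spine T k x P K₀ ⊆ Wout T F U η k x P K₀ ∧ Conn T (Spine T k x P K₀) ∧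
      (∀ i, Tch T (Spine T k x P K₀) (End k P K₀ i)) ∧ (∀ i, Pc T F U (12 * η) (End k P K₀ i)) ∧
      ¬ Tch T (Wout T F U η k x P K₀) S ∧
      ∀ K, Pc T F (Wout T F U η k x P K₀) (η / 2) K → Tch T K (End k P K₀ false) →
        ¬ Tch T K (End k P K₀ true) := by
  have h0ω := hF.nonneg
  have hη : 0 ≤ η := by linarith only [hω, h0ω]
  have h10 : 0 ≤ η / 10 := by linarith only [hω, h0ω]
  have h100 := (h 100 (by omega)).2.1
  have hs100 := b9_sub hη h h1 hk h0 (j := 100) (by omega) (by omega) h100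
  have hexit : ∀ a b, a ≤ 100 → 100 ≤ b → b < k → ∀ y l, a ≤ l → l ≤ b → y ∈ P l →
      y ∈ End k P K₀ false ∪ End k P K₀ true → ∃ u ∈ Spine T k x P K₀, ∃ w j, Adj T u w ∧ a ≤ j ∧
        j ≤ b ∧ w ∈ P j ∧ w ∈ End k P K₀ false ∪ End k P K₀ true := by
    intro a b ha hb hbk y l l1 l2 yl yE
    have hc := b9_run h (a := a) hbk (x 100) ⟨100, ha, hb, h100⟩ y ⟨l, l1, l2, yl⟩
    obtain ⟨u, w, hu, ⟨j, j1, j2, wj⟩, hw, had⟩ := hc.exit hs100
      (fun hy => (b9_spine_sub h hy).2 yE)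
    refine ⟨u, hu.right.2, w, j, had, j1, j2, wj, ?_⟩
    by_contra hE
    exact hw (Jn.step hu.right.2 ⟨⟨j, by omega, wj⟩, hE⟩ had)
  refine ⟨hull_conn hT ?_ (nb_conn (b9_spine_sub h) h10 (conn_comp _ _)), b9_wout_sub,
    (sub_nb (b9_spine_sub h) h10).trans subset_hull, conn_comp _ _, ?_, ?_, ?_, ?_⟩
  · obtain ⟨r, hr⟩ := hT.bd
    exact ⟨r, fun hc => hb hr hc.1⟩
  · intro i
    cases i
    · have hx := (h 0 (by omega)).2.1
      obtain ⟨u, hu, w, j, had, j1, j2, wj, wE⟩ := hexit 0 100 (by omega) le_rfl (by omega) (x 0) 0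
        le_rfl (by omega) hx (Or.inl (b9_endF.2 (Or.inr ⟨0, by omega, hx⟩)))
      refine ⟨u, hu, w, ?_, had⟩
      rcases wE with wE | wE
      · exact wE
      · obtain ⟨l, l1, l2, wl⟩ := b9_endT.1 wE
        have := b9_same hη h h1 (by omega) (by omega) wl wj
        exact b9_endF.2 (Or.inr ⟨j, by omega, wj⟩)
    · have hx := (h (k - 1) (by omega)).2.1
      obtain ⟨u, hu, w, j, had, j1, j2, wj, wE⟩ := hexit 100 (k - 1) le_rfl (by omega) (by omega)
        (x (k - 1)) (k - 1) (by omega) le_rfl hx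
        (Or.inr (b9_endT.2 ⟨k - 1, by omega, by omega, hx⟩))
      refine ⟨u, hu, w, ?_, had⟩
      rcases wE with wE | wE
      · rcases b9_endF.1 wE with wE | ⟨l, l1, wl⟩
        · have := b9_k0 hη h1 h0 (by omega) wE wj
          exact b9_endT.2 ⟨j, by omega, by omega, wj⟩
        · have := b9_same hη h h1 (by omega) (by omega) wl wj
          exact b9_endT.2 ⟨j, by omega, by omega, wj⟩
      · exact wE
  · intro i
    cases i
    · have hr := (h.run (a := 0) (l := 11) (by omega)).1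
      have he : End k P K₀ false = K₀ ∪ {v | ∃ j, 0 ≤ j ∧ j < 0 + 11 ∧ v ∈ P j} := by
        ext v
        rw [b9_endF]
        refine or_congr Iff.rfl (exists_congr fun j => ?_)
        exact ⟨fun hj => ⟨by omega, by omega, hj.2⟩, fun hj => ⟨by omega, hj.2.2⟩⟩
      rw [he]
      push_cast at hr
      rcases h0 with rfl | ⟨hK0, z, z1, z2⟩
      · rw [empty_union]
        exact hr.mono hr.1 (by linarith only [hω, h0ω])
      · have hu := hK0.union hr ⟨z, z1, 0, le_rfl, by omega, z2⟩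
        exact hu.mono hu.1 (by linarith only [hω, h0ω])
    · have hr := (h.run (a := k - 11) (l := 11) (by omega)).1
      have he : End k P K₀ true = {v | ∃ j, k - 11 ≤ j ∧ j < k - 11 + 11 ∧ v ∈ P j} := by
        ext v
        rw [b9_endT]
        refine exists_congr fun j => ?_
        exact ⟨fun hj => ⟨by omega, by omega, hj.2.2⟩, fun hj => ⟨by omega, by omega, hj.2.2⟩⟩
      rw [he]
      push_cast at hr
      exact hr.mono hr.1 (by linarith only [hω, h0ω])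
  · rintro ⟨w, hw, s, hs, had⟩
    obtain ⟨K, j, hK, wK, ⟨y, ⟨yK, -⟩, yj⟩, j1, j2⟩ := b9_front hw (v := s)
      (fun hc => Set.disjoint_left.1 hS hs hc.1) had
    have := h2 j (by omega) K (hK.mono (fun u hu => (b9_wout_sub (hK.1 hu)).1) le_rfl)
      ⟨y, yK, yj⟩ ⟨w, wK, s, hs, had⟩
    omega
  · rintro K hK ⟨w₀, w0, v₀, v0, a0⟩ ⟨w₁, w1, v₁, v1, a1⟩
    obtain ⟨A, i, hA, wA, ⟨y, ⟨yA, -⟩, yi⟩, i1, i2, i3⟩ := wout_idx hF hω h h1 hk h0 (hK.1 w0) v0 a0
    obtain ⟨B, j, hB, wB, ⟨z, ⟨zB, -⟩, zj⟩, j1, j2, j3⟩ := wout_idx hF hω h h1 hk h0 (hK.1 w1) v1 a1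
    simp only [Bool.false_eq_true, if_false] at i3
    simp only [if_true] at j3
    have hu := (hA.union hK ⟨w₀, wA, w0⟩).union hB ⟨w₁, Or.inr w1, wB⟩
    have := b9_close h1 (by omega : i < k) (by omega : j < k)
      (hu.mono (fun u hu' => (b9_wout_sub (hu.1 hu')).1) le_rfl) (by linarith only [hω, h0ω])
      ⟨y, Or.inl (Or.inl yA), yi⟩ ⟨z, Or.inr zB, zj⟩
    omega

end Pool.Agent.MP_17e62b_gt.T55

end

section

/-!
The class carried by a path through the thick band.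
-/

namespace Pool.Agent.MP_17e62b_gt.T55

open Set Metric Topology
open scoped InnerProductSpace Manifold

variable {V : Type} [Fintype V] [DecidableEq V] {T : Finset (Finset V)}
variable {n : ℕ} {F : V → EuclideanSpace ℝ (Fin n)}

/-- Plan: compare with the chain through the points `x 15` and `x (k - 15)`: small cycles at both
ends (`hsys`, `wout_idx`, `spine_win`; `wout_basic` with `S = ∅`) and one cycle in the acyclic band. -/
theorem wout_class {U K₀ : Set V} {ω η : ℝ} {k : ℕ} {x : ℕ → V} {P : ℕ → Set V}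
    {c : ℕ → V → V → ZMod 2} (hT : IsSurf T) (hF : Sad T F ω) (hω : 100 * ω ≤ η)
    (hb : Bd T ⊆ Uᶜ) (h : Seq T F U η k x P c) (h1 : T1 T F U η k P) (hk : 200 < k)
    (h0 : K₀ = ∅ ∨ (Pc T F U (η / 10) K₀ ∧ (K₀ ∩ P 0).Nonempty))
    (hsys : ∀ K, Pc T F U (100 * η) K → ∀ z, Cyc T K z → Nul T Uᶜ z)
    (ha : Acyc T (Wout T F U η k x P K₀)) {w v : Bool → V}
    (hw : ∀ i, w i ∈ Wout T F U η k x P K₀ ∧ v i ∈ End k P K₀ i ∧ Adj T (w i) (v i))
    {q : V → V → ZMod 2} (hq : On T (Wout T F U η k x P K₀) q)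
    (hd : d1 q = ends (w false) (w true)) :
    ∃ a₀ a₁, On T (End k P K₀ false) a₀ ∧ d1 a₀ = ends (x 0) (v false) ∧
      On T (End k P K₀ true) a₁ ∧ d1 a₁ = ends (v true) (x k) ∧
      Nul T Uᶜ (∑ i ∈ Finset.range k, c i +
        (a₀ + edge (v false) (w false) + q + edge (w true) (v true) + a₁)) := by
  have hη : 0 ≤ η := by have := hF.nonneg; linarith only [hω, this]
  obtain ⟨-, hWU, hSW, -, -, hE, -, -⟩ := wout_basic (S := ∅) hT hF hω hb (by simp) h h1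
    (fun i _ K _ _ ht => by obtain ⟨u, -, s, hs, -⟩ := ht; exact absurd hs (by simp)) hk h0
  obtain ⟨hPS, -, hwin⟩ := spine_win hF hω h h1 hk h0
  obtain ⟨K0, j0, hK0, hwK0, ⟨s0, ⟨hs0K, hs0S⟩, hs0P⟩, hj0, -, hj0'⟩ :=
    wout_idx hF hω h h1 hk h0 (hw false).1 (hw false).2.1 (hw false).2.2
  obtain ⟨K1, j1, hK1, hwK1, ⟨s1, ⟨hs1K, hs1S⟩, hs1P⟩, -, hj1, hj1'⟩ :=
    wout_idx hF hω h h1 hk h0 (hw true).1 (hw true).2.1 (hw true).2.2
  simp only [Bool.false_eq_true, if_false] at hj0'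
  simp only [if_true] at hj1'
  have hx0 : x 0 ∈ P 0 := (h 0 (by omega)).2.1
  have hxk : x k ∈ P (k - 1) := by
    have := (h (k - 1) (by omega)).2.2.1
    rwa [show k - 1 + 1 = k by omega] at this
  have hm0 : x 15 ∈ P 15 := (h 15 (by omega)).2.1
  have hm1 : x (k - 15) ∈ P (k - 15) := (h (k - 15) (by omega)).2.1
  have hx0E : x 0 ∈ End k P K₀ false := by
    simp only [End, Bool.false_eq_true, if_false]
    exact Or.inr ⟨0, by omega, hx0⟩
  have hxkE : x k ∈ End k P K₀ true := by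
    simp only [End, if_true]
    exact ⟨k - 1, by omega, by omega, hxk⟩
  obtain ⟨a₀, ha₀, hda₀⟩ := ((hE false).2.1 _ hx0E _ (hw false).2.1).fill
  obtain ⟨a₁, ha₁, hda₁⟩ := ((hE true).2.1 _ (hw true).2.1 _ hxkE).fill
  have hw0 := hwin 11 16 (Or.inl rfl) (Or.inr ⟨le_rfl, by omega⟩)
  have hw1 := hwin (k - 17) (k - 12) (Or.inr ⟨by omega, by omega⟩) (Or.inl (by omega))
  have hc0 := hK0.2.1.union hw0 (Or.inl ⟨s0, hs0K, hs0S, j0, hj0, by omega, hs0P⟩)
  have hc1 := hK1.2.1.union hw1 (Or.inl ⟨s1, hs1K, hs1S, j1, by omega, by omega, hs1P⟩)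
  obtain ⟨p0, hp0, hdp0⟩ := (hc0 (w false) (Or.inl hwK0) (x 15)
    (Or.inr ⟨hPS 15 (by omega) (by omega) hm0, 15, by omega, by omega, hm0⟩)).fill
  obtain ⟨p1, hp1, hdp1⟩ := (hc1 (x (k - 15))
    (Or.inr ⟨hPS (k - 15) (by omega) (by omega) hm1, k - 15, by omega, by omega, hm1⟩)
    (w true) (Or.inl hwK1)).fill
  obtain ⟨-, hL, hdL⟩ := h.run (a := 0) (l := 15) (by omega)
  obtain ⟨-, hM, hdM⟩ := h.run (a := 15) (l := k - 30) (by omega)
  obtain ⟨-, hR, hdR⟩ := h.run (a := k - 15) (l := 15) (by omega)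
  obtain ⟨hR0, -, -⟩ := h.run (a := 0) (l := 17) (by omega)
  obtain ⟨hR1, -, -⟩ := h.run (a := k - 17) (l := 17) (by omega)
  rw [show 15 + (k - 30) = k - 15 by omega] at hM hdM
  rw [show k - 15 + 15 = k by omega] at hR hdR
  rw [show k - 17 + 17 = k by omega] at hR1
  rw [zero_add] at hL hdL hR0
  have hK0U : Pc T F U (η / 10) K0 := hK0.mono (fun u hu => (hWU (hK0.1 hu)).1) le_rfl
  have hK1U : Pc T F U (η / 10) K1 := hK1.mono (fun u hu => (hWU (hK1.1 hu)).1) le_rfl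
  have hB0 := ((hE false).union hR0 ⟨x 0, hx0E, 0, le_rfl, by omega, hx0⟩).union hK0U
    ⟨s0, Or.inr ⟨j0, by omega, by omega, hs0P⟩, hs0K⟩
  have hB1 := ((hE true).union hR1 ⟨x k, hxkE, k - 1, by omega, by omega, hxk⟩).union hK1U
    ⟨s1, Or.inr ⟨j1, by omega, by omega, hs1P⟩, hs1K⟩
  have n0 : Nul T Uᶜ (∑ j ∈ Finset.Ico 0 15, c j + a₀ + edge (v false) (w false) + p0) := by
    refine hsys _ (hB0.mono hB0.1 (by push_cast; linarith only [hη])) _ ⟨?_, ?_⟩
    · refine ((On.add (hL.mono ?_) (ha₀.mono ?_)).add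
        (on_edge (hw false).2.2.symm (Or.inl (Or.inl (hw false).2.1)) (Or.inr hwK0))).add
        (hp0.mono ?_)
      · rintro u ⟨j, a, b, e⟩
        exact Or.inl (Or.inr ⟨j, a, by omega, e⟩)
      · exact fun u hu => Or.inl (Or.inl hu)
      · rintro u (hu | ⟨-, j, a, b, e⟩)
        · exact Or.inr hu
        · exact Or.inl (Or.inr ⟨j, by omega, by omega, e⟩)
    · rw [d1_add, d1_add, d1_add, hdL, hda₀, d1_edge, hdp0, ends_comm (x 0) (x 15), ends_add,
        ends_add, ends_add, ends_self]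
  have n1 : Nul T Uᶜ (p1 + edge (w true) (v true) + a₁ + ∑ j ∈ Finset.Ico (k - 15) k, c j) := by
    refine hsys _ (hB1.mono hB1.1 (by push_cast; linarith only [hη])) _ ⟨?_, ?_⟩
    · refine ((On.add (hp1.mono ?_)
        (on_edge (hw true).2.2 (Or.inr hwK1) (Or.inl (Or.inl (hw true).2.1)))).add
        (ha₁.mono ?_)).add (hR.mono ?_)
      · rintro u (hu | ⟨-, j, a, b, e⟩)
        · exact Or.inr hu
        · exact Or.inl (Or.inr ⟨j, by omega, by omega, e⟩)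
      · exact fun u hu => Or.inl (Or.inl hu)
      · rintro u ⟨j, a, b, e⟩
        exact Or.inl (Or.inr ⟨j, by omega, b, e⟩)
    · rw [d1_add, d1_add, d1_add, hdR, hda₁, d1_edge, hdp1, ends_add, ends_add,
        ends_comm (x (k - 15)) (x k), ends_comm (x k) (x (k - 15))]
      nth_rewrite 2 [ends_comm]
      rw [ends_add, ends_self]
  have n2 : Nul T Uᶜ (p0 + ∑ j ∈ Finset.Ico 15 (k - 15), c j + p1 + q) := by
    obtain ⟨Q, -, hQ⟩ := ha (p0 + ∑ j ∈ Finset.Ico 15 (k - 15), c j + p1 + q) ⟨by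
      refine ((On.add (hp0.mono ?_) (hM.mono ?_)).add (hp1.mono ?_)).add hq
      · rintro u (hu | ⟨hu, -⟩)
        · exact hK0.1 hu
        · exact hSW hu
      · rintro u ⟨j, a, b, e⟩
        exact hSW (hPS j (by omega) (by omega) e)
      · rintro u (hu | ⟨hu, -⟩)
        · exact hK1.1 hu
        · exact hSW hu, by
      rw [d1_add, d1_add, d1_add, hdp0, hdM, hdp1, hd, ends_add, ends_add]
      nth_rewrite 2 [ends_comm]
      rw [ends_add, ends_self]⟩
    rw [← hQ]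
    exact nul_d2 Q
  refine ⟨a₀, a₁, ha₀, hda₀, ha₁, hda₁, ?_⟩
  have key : ∑ i ∈ Finset.range k, c i +
      (a₀ + edge (v false) (w false) + q + edge (w true) (v true) + a₁) =
      (∑ j ∈ Finset.Ico 0 15, c j + a₀ + edge (v false) (w false) + p0) +
      (p1 + edge (w true) (v true) + a₁ + ∑ j ∈ Finset.Ico (k - 15) k, c j) +
      (p0 + ∑ j ∈ Finset.Ico 15 (k - 15), c j + p1 + q) := by
    rw [Finset.range_eq_Ico, ← Finset.sum_Ico_consecutive c (Nat.zero_le 15) (by omega : 15 ≤ k),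
      ← Finset.sum_Ico_consecutive c (by omega : 15 ≤ k - 15) (by omega : k - 15 ≤ k)]
    linear_combination (exp := 1) (-1 : V → V → ZMod 2) * add_self1 p0 +
      (-1 : V → V → ZMod 2) * add_self1 p1
  rw [key]
  exact (n0.add n1).add n2

end Pool.Agent.MP_17e62b_gt.T55

end
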