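import Pool.Agent.MP_17e62b_gt.Mg.T55_MB3
import Pool.Agent.MP_17e62b_gt.Mg.T55_MB1
import Pool.Agent.MP_17e62b_gt.Mg.T55_MB2

attribute [-instance] SMulZeroClass.toSMul NonUnitalAlgSemiHomClass.toDistribMulActionSemiHomClass
  NeZero.charZero_one AddQuantale.instAddLeftMono NumberField.to_charZero IdemSemiring.toSemiring
  Algebra.IsFiniteSplit.instFree Module.FaithfullyFlat.toFlat NumberField.instFiniteDimensional
  RKHS.instFunLike NonUnitalNonAssocSemiring.toAddCommMonoid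
  DistribMulActionSemiHomClass.toMulActionSemiHomClass
  LinearOrderedAddCommGroupWithTop.toAddCommMonoid Algebra.WeaklyEtale.flat SemigroupAction.toSMul
  AddQuantale.instAddRightMono Fintype.decidableForallFintype AddCommGroup.toAddGroup
  Submodule.IsLattice.free

section

/-!
Chords: auxiliary operations.
-/

namespace Pool.Agent.MP_17e62b_gt.T55

open Set Metric Topology
open scoped InnerProductSpace Manifold

variable {V : Type} [Fintype V] [DecidableEq V] {T : Finset (Finset V)}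
variable {n : ℕ} {F : V → EuclideanSpace ℝ (Fin n)}

variable {N m : ℕ} {ω ρ r r' : ℝ} {B₀ S Y : Set V} {root : V → V} {X : Fin m → Set V}
  {Z : Fin m → Bool → Set V}

omit [Fintype V] [DecidableEq V] in
theorem e1_zone {Z : Bool → Set V} (i : Bool) {v : V} (h : v ∈ Z i) : v ∈ Z false ∪ Z true := by
  cases i
  exacts [.inl h, .inr h]

omit [Fintype V] [DecidableEq V] in
theorem e1_zs {v : V} (h : v ∈ Zs S Z) (hs : v ∉ S) : ∃ j i, v ∈ Z j i := by
  obtain ⟨j, hj | hj⟩ := mem_iUnion.1 (h.resolve_left hs)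
  exacts [⟨j, _, hj⟩, ⟨j, _, hj⟩]

theorem e1_apart (hF : Sad T F ω) (hω : ω ≤ r) {Fr X : Set V} {Z : Bool → Set V}
    (h : Axis T F ρ r S Fr X Z) : ∀ a ∈ Z false, ∀ b ∈ Z true, a ≠ b ∧ ¬ Adj T a b := by
  intro a ha b hb
  have ha' : a ∈ Fr := h.sub ((h.zone false).1 ha)
  have hb' : b ∈ Fr := h.sub ((h.zone true).1 hb)
  constructor
  · rintro rfl
    exact h.long {a} (pc_single ha' (hF.nonneg.trans hω)) ⟨a, rfl, ha⟩ ⟨a, rfl, hb⟩
  · intro hab
    have h1 := (pc_single (T := T) (F := F) ha' le_rfl).union_adj hF (pc_single hb' le_rfl)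
      ⟨a, rfl, b, rfl, hab⟩
    exact h.long _ (h1.mono h1.1 (by linarith)) ⟨a, .inl rfl, ha⟩ ⟨b, .inr rfl, hb⟩

/-- Plan: sum `d1 c` over the component of `x` in `A`. -/
theorem jn_of_chain {A : Set V} {c : V → V → ZMod 2} {x y : V} (hx : x ∈ A) (hc : On T A c)
    (hd : d1 c = ends x y) : Jn T A x y := by
  classical
  by_contra hn
  let C : Set V := {u | Jn T A x u}
  let c' : V → V → ZMod 2 := fun u v => if u ∈ C ∧ v ∈ C then c u v else 0
  have h1 : On T C c' := by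
    refine ⟨fun u v => ?_, fun u v h => ?_⟩
    · simp only [c', and_comm (a := u ∈ C), hc.1 u v]
    · by_cases e : u ∈ C ∧ v ∈ C
      · refine ⟨e.1, e.2, (hc.2 u v fun e' => h ?_).2.2⟩
        simp only [c', e', ite_self]
      · exact absurd (if_neg e) h
  have hxC : x ∈ C := Jn.refl hx
  have hyC : y ∉ C := hn
  have h2 : d1 c' = Pi.single x 1 := by
    funext v
    by_cases hv : v ∈ C
    · have h3 : d1 c' v = d1 c v := by
        refine Finset.sum_congr rfl fun u _ => ?_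
        by_cases e : c u v = 0
        · simp only [c', e, ite_self]
        · obtain ⟨a1, -, a3⟩ := hc.2 u v e
          exact if_pos ⟨Jn.step hv a1 a3.symm, hv⟩
      have h4 : v ≠ y := fun e => hyC (e ▸ hv)
      rw [h3, hd, ends, Pi.add_apply, Pi.single_eq_of_ne h4, add_zero]
    · have h4 : v ≠ x := fun e => hv (e ▸ hxC)
      rw [h1.d1_mem hv, Pi.single_eq_of_ne h4]
  have h5 := h1.sum_d1
  rw [h2, Finset.sum_pi_single'] at h5
  simp only [Finset.mem_univ, ↓ reduceIte, one_ne_zero] at h5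

/-- Plan: for `x`, `y` in the middle take chains `p₀` in `X \ Z false` and `p₁` in `X \ Z true`;
split the filling of `p₀ + p₁` into the triangles that miss `Z false` and the others, which miss
`Z true` (`Axis.long`); `jn_of_chain`. -/
theorem Axis.mid_conn (hT : IsSurf T) (hF : Sad T F ω) (hω : ω ≤ r) {Fr X : Set V}
    {Z : Bool → Set V} (h : Axis T F ρ r S Fr X Z) :
    Conn T (X \ (Z false ∪ Z true)) ∧ (X \ (Z false ∪ Z true)).Nonempty := by
  classical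
  have hl := e1_apart hF hω h
  constructor
  · intro x hx y hy
    have hx' : ∀ i, x ∈ X \ Z i := fun i => ⟨hx.1, fun e => hx.2 (e1_zone i e)⟩
    have hy' : ∀ i, y ∈ X \ Z i := fun i => ⟨hy.1, fun e => hy.2 (e1_zone i e)⟩
    obtain ⟨p₀, a0, b0⟩ := ((h.zone false).2.2.1 x (hx' _) y (hy' _)).fill
    obtain ⟨p₁, a1, b1⟩ := ((h.zone true).2.2.1 x (hx' _) y (hy' _)).fill
    obtain ⟨Q, hQ, hd⟩ := h.acyc (p₀ + p₁) ⟨(a0.mono sdiff_subset).add (a1.mono sdiff_subset), by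
      rw [d1_add, b0, b1, b1_self]⟩
    let Q₀ : Finset V → ZMod 2 := fun t => if ∃ v ∈ t, v ∈ Z false then 0 else Q t
    let Q₁ : Finset V → ZMod 2 := fun t => if ∃ v ∈ t, v ∈ Z false then Q t else 0
    have hs : Q = Q₀ + Q₁ := by
      funext t
      by_cases e : ∃ v ∈ t, v ∈ Z false
      · simp only [Q₀, Q₁, Pi.add_apply, if_pos e, zero_add]
      · simp only [Q₀, Q₁, Pi.add_apply, if_neg e, add_zero]
    have c0 : On T (X \ Z false) (d2 T Q₀) := by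
      refine on_d2 fun t ht h0 v hv => ?_
      by_cases e : ∃ v ∈ t, v ∈ Z false
      · exact absurd (if_pos e) h0
      · exact ⟨hQ t ht (fun e' => h0 ((if_neg e).trans e')) v hv, fun e' => e ⟨v, hv, e'⟩⟩
    have c1 : On T (X \ Z true) (d2 T Q₁) := by
      refine on_d2 fun t ht h0 v hv => ?_
      by_cases e : ∃ v ∈ t, v ∈ Z false
      · refine ⟨hQ t ht (fun e' => h0 ((if_pos e).trans e')) v hv, fun e' => ?_⟩
        obtain ⟨w, hw, hw'⟩ := e
        by_cases hwv : w = v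
        · exact (hl w hw' v e').1 hwv
        · exact (hl w hw' v e').2 ⟨hwv, t, ht, hw, hv⟩
      · exact absurd (if_neg e) h0
    have he : p₀ + d2 T Q₀ = p₁ + d2 T Q₁ := by
      rw [hs, d2_add] at hd
      calc p₀ + d2 T Q₀ = p₀ + d2 T Q₀ + (d2 T Q₁ + d2 T Q₁) := by rw [add_self1, add_zero]
        _ = p₀ + (d2 T Q₀ + d2 T Q₁) + d2 T Q₁ := by abel
        _ = (p₀ + p₀) + (p₁ + d2 T Q₁) := by rw [hd]; abel
        _ = p₁ + d2 T Q₁ := by rw [add_self1, zero_add]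
    have o0 := a0.add c0
    have o1 := a1.add c1
    rw [← he] at o1
    refine jn_of_chain (c := p₀ + d2 T Q₀) hx ⟨o0.1, fun u v e => ?_⟩ ?_
    · obtain ⟨u0, v0, ha⟩ := o0.2 u v e
      obtain ⟨u1, v1, -⟩ := o1.2 u v e
      exact ⟨⟨u0.1, fun e' => e'.elim u0.2 u1.2⟩, ⟨v0.1, fun e' => e'.elim v0.2 v1.2⟩, ha⟩
    · rw [d1_add, d1_d2 hT, add_zero, b0]
  · obtain ⟨s0, -, -, -, a, ha, -⟩ := h.zone false
    obtain ⟨s1, -, -, -, b, hb, -⟩ := h.zone true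
    obtain ⟨u, v, h1, h2, h3, h4⟩ := (h.conn a (s0 ha) b (s1 hb)).exit ha
      fun e => (hl b e b hb).1 rfl
    exact ⟨v, h2, fun e => e.elim h3 fun e' => (hl u h1.right.2 v e').2 h4⟩

theorem Inv.anti (hT : IsSurf T) (h : Inv T F N ρ r B₀ S Y root m X Z) (h0 : 0 ≤ r')
    (hr : r' ≤ r) : Inv T F N ρ r' B₀ S Y root m X Z := by
  refine ⟨h.base, h.sub, fun j => ?_, fun j k hjk K hK => h.sep j k hjk K (hK.mono hK.1 hr), h.ess⟩
  refine b11_axis hT (h.axis j) subset_rfl (h.axis j).sub le_rfl hr (fun v hv => ?_)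
    fun K hK => (h.axis j).near K (hK.mono hK.1 hr)
  exact ⟨v, fun hh => Set.disjoint_left.1 b11_disj hh hv,
    Jn.refl fun hh => Set.disjoint_left.1 b11_disj hh hv⟩

/-- Absorbing a small subset of a tube. Plan: `absorb`; `S ∪ Y` does not change; for `Axis.disc`
the hull does not change; a set outside `S ∪ Y` does not touch `Y` (`Base.not_adj`). -/
theorem Inv.growY (hT : IsSurf T) (hF : Sad T F ω) (h : Inv T F N ρ r B₀ S Y root m X Z)
    {K : Set V} {R : ℝ} (hK : Pc T F Y R K) (ht : Tch T K S) :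
    ∃ root', Inv T F N (ρ + R + ω) r B₀ (S ∪ K) (Y \ K) root' m X Z := by
  have hω := hF.nonneg
  have hKY : K ⊆ Y := hK.1
  have hKS : ∀ v ∈ K, v ∉ S := fun v hv hs => Set.disjoint_left.1 h.base.disj hs (hKY hv)
  obtain ⟨u₀, hu₀, s₀, hs₀, hus⟩ := ht
  have hR : 0 ≤ R := by simpa only [dist_self] using hK.2.2 u₀ hu₀ u₀ hu₀
  have e : S ∪ K ∪ Y \ K = S ∪ Y := by
    rw [union_assoc, union_sdiff_cancel hKY]
  obtain ⟨root', h1, h2, h3⟩ := absorb (K := K) h.base.cls fun v hv _ =>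
    ⟨u₀, s₀, (hK.2.1 v hv u₀ hu₀).mono fun a ha => ⟨ha, hKS a ha⟩, hs₀, hus⟩
  refine ⟨root', ⟨h1, fun v hv => ?_, fun v hv => ⟨.inl (h.base.bd v hv).1, ?_⟩, ?_,
    disjoint_union_left.2 ⟨h.base.disj.mono_right sdiff_subset, disjoint_sdiff_right⟩,
    fun y hy => ?_⟩, ?_, fun j => ?_, ?_, ?_⟩
  · by_cases hs : v ∈ S
    · rw [h2 hs]
      linarith [h.base.rad v hs]
    · obtain ⟨u, s, a1, a2, a3, a4⟩ := h3 v (hv.resolve_left hs) hs
      rw [a4]
      linarith only [dist_triangle4 (F v) (F u) (F s) (F (root s)), hK.2.2 v a1.1.1 u a1.right.1, hF.jump u s a3, h.base.rad s a2]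
  · rw [h2 (h.base.bd v hv).1]
    exact (h.base.bd v hv).2
  · refine le_trans (ncard_le_ncard (sdiff_subset_sdiff_left ?_) (toFinite _)) h.base.few
    rintro _ ⟨v, hv, rfl⟩
    by_cases hs : v ∈ S
    · exact ⟨v, hs, (h2 hs).symm⟩
    · obtain ⟨u, s, -, a2, -, a4⟩ := h3 v (hv.resolve_left hs) hs
      exact ⟨s, a2, a4.symm⟩
  · obtain ⟨a, b, h4⟩ := h.base.tube y hy.1
    refine ⟨a, b, fun u hu w hw ha => ?_⟩
    have hu' : Jn T Y y u := hu.mono sdiff_subset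
    by_cases hwY : w ∈ Y
    · have hwK : w ∈ K := by_contra fun e' => hw ⟨hwY, e'⟩
      obtain ⟨u', s, a1, a2, a3, a4⟩ := h3 w hwK (hKS w hwK)
      refine ⟨.inr hwK, ?_⟩
      rw [a4]
      exact (h4 u' ((hu'.step hwY ha).trans (a1.mono fun z hz => hKY hz.1)) s
        (Set.disjoint_left.1 h.base.disj a2) a3).2
    · obtain ⟨a1, a2⟩ := h4 u hu' w hwY ha
      exact ⟨.inl a1, by rwa [h2 a1]⟩
  · rw [e]
    exact h.sub
  · rw [e]
    have ha := h.axis j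
    refine ⟨ha.sub, ha.conn, ha.acyc, fun i => ?_, ?_, ?_, ha.long⟩
    · obtain ⟨a1, a2, a3, a4, u, hu, s, hs, a5⟩ := ha.zone i
      exact ⟨a1, a2, a3, fun a ha b hb => (a4 a ha b hb).trans (by linarith only [hω, hR]), u, hu, s, .inl hs, a5⟩
    · have e' : hull T (S ∪ K) (nb T F (S ∪ Y)ᶜ r (X j)) = hull T S (nb T F (S ∪ Y)ᶜ r (X j)) := by
        ext v
        refine not_congr ⟨?_, fun ⟨s, hs, hj⟩ => ⟨s, .inl hs, hj⟩⟩
        rintro ⟨s, hs | hs, hj⟩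
        · exact ⟨s, hs, hj⟩
        · exact ⟨s₀, hs₀, (hj.trans ((hK.2.1 s hs u₀ hu₀).mono fun z hz hh =>
            nb_sub hh (.inr (hKY hz)))).step (fun hh => nb_sub hh (.inl hs₀)) hus⟩
      rw [e']
      exact ha.disc
    · rintro K' hK' ⟨u, hu, s, hs | hs, a5⟩
      · exact ha.near K' hK' ⟨u, hu, s, hs, a5⟩
      · exact absurd a5 (h.base.not_adj (hK'.1 hu) (hKY hs))
  · rw [e]
    exact h.sep
  · rw [e]
    exact h.ess

/-- A chord between end zones is zero. Plan: both ends lie in one zone `Z j i` (`Inv.sep`,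
`Axis.long`); close up in the zone and fill by `Axis.disc`; the filling vanishes at `S`, hence on
`X j \ Z j i` and on the other axes (`status_jn`). -/
theorem Inv.zone_nul (hT : IsSurf T) (hF : Sad T F ω) (h : Inv T F N ρ r B₀ S Y root m X Z)
    {K : Set V} {R : ℝ} (hR : R + 2 * ω ≤ r) (hK : Pc T F (S ∪ Y ∪ ⋃ j, X j)ᶜ R K) {u u' b b' : V}
    (hu : u ∈ K) (hu' : u' ∈ K) (hb : b ∈ Zs S Z) (hb' : b' ∈ Zs S Z) (nb : b ∉ S) (nb' : b' ∉ S)
    (a : Adj T b u) (a' : Adj T u' b') {p : V → V → ZMod 2} (hp : On T K p)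
    (hd : d1 p = ends u u') : NulA T (Md X Z) (Zs S Z) (edge b u + p + edge u' b') := by
  have hω := hF.nonneg
  have hR0 : 0 ≤ R := by simpa only [dist_self] using hK.2.2 u hu u hu
  have hr0 : 0 ≤ r := by linarith
  obtain ⟨j, i, hj⟩ := e1_zs hb nb
  obtain ⟨j', i', hj'⟩ := e1_zs hb' nb'
  have hZX : ∀ j i, Z j i ⊆ X j := fun j i => ((h.axis j).zone i).1
  have hK1 : Pc T F (S ∪ Y)ᶜ R K :=
    hK.mono (hK.1.trans (compl_subset_compl.2 subset_union_left)) le_rfl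
  have hK2 := ((pc_single (T := T) (F := F) ((h.axis j).sub (hZX j i hj)) le_rfl).union_adj hF hK1
    ⟨b, rfl, u, hu, a⟩).union_adj hF
    (pc_single (T := T) (F := F) ((h.axis j').sub (hZX j' i' hj')) le_rfl)
    ⟨u', .inr hu', b', rfl, a'⟩
  have hK3 : Pc T F (S ∪ Y)ᶜ r ({b} ∪ K ∪ {b'}) := hK2.mono hK2.1 (by linarith)
  have mb : b ∈ ({b} ∪ K ∪ {b'} : Set V) := .inl (.inl rfl)
  have mb' : b' ∈ ({b} ∪ K ∪ {b'} : Set V) := .inr rfl
  obtain rfl : j = j' := by_contra fun e =>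
    h.sep j j' e _ hK3 ⟨b, mb, hZX j i hj⟩ ⟨b', mb', hZX j' i' hj'⟩
  obtain rfl : i = i' := by
    cases i <;> cases i'
    · rfl
    · exact absurd ⟨b', mb', hj'⟩ ((h.axis j).long _ hK3 ⟨b, mb, hj⟩)
    · exact absurd ⟨b, mb, hj⟩ ((h.axis j).long _ hK3 ⟨b', mb', hj'⟩)
    · rfl
  obtain ⟨q, hq, hdq⟩ := (((h.axis j).zone i).2.1 b hj b' hj').fill
  have hc : On T (K ∪ Z j i) (edge b u + p + edge u' b' + q) :=
    (((on_edge a (.inr hj) (.inl hu)).add (hp.mono subset_union_left)).add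
      (on_edge a' (.inl hu') (.inr hj'))).add (hq.mono subset_union_right)
  have hO : K ∪ Z j i ⊆ hull T S (T55.nb T F (S ∪ Y)ᶜ r (X j)) := by
    refine Subset.trans ?_ subset_hull
    rintro v (hv | hv)
    · exact ⟨_, hK3, .inl (.inr hv), b, mb, hZX j i hj⟩
    · exact sub_nb (h.axis j).sub hr0 (hZX j i hv)
  obtain ⟨Q, hQ, hdQ⟩ := (h.axis j).disc _ ⟨hc.mono hO, by
    rw [d1_add, d1_add, d1_add, d1_edge, d1_edge, hd, hdq, ends_add, ends_add, b1_self]⟩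
  refine ⟨Q, q, hq.mono fun v hv => .inr (mem_iUnion.2 ⟨j, e1_zone i hv⟩), ?_, ?_⟩
  · rw [hdQ, add_assoc _ q q, add_self1, add_zero]
  have key : ∀ C : Set V, Conn T C → C ⊆ (K ∪ Z j i)ᶜ → Tch T C S → ∀ t ∈ T, ∀ v ∈ t, v ∈ C →
      Q t = 0 := by
    rintro C hC hCs ⟨w, hw, s, hs, hws⟩ t ht v hv hvC
    obtain ⟨t', ht', hs'⟩ := hT.used s
    have hsD : s ∈ (K ∪ Z j i)ᶜ := fun e => Set.disjoint_left.1 b11_disj (hO e) hs
    rw [b1_eq hT hdQ hc (((hC v hvC w hw).mono hCs).step hsD hws) ht ht' hv hs']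
    exact by_contra fun e => Set.disjoint_left.1 b11_disj (hQ t' ht' e s hs') hs
  have hKX : ∀ k, ∀ v ∈ X k, v ∉ K := fun k v hv e => hK.1 e (.inr (mem_iUnion.2 ⟨k, hv⟩))
  rintro t ht ⟨v, hv, hvM⟩
  obtain ⟨k, hk⟩ := mem_iUnion.1 hvM
  by_cases hkj : k = j
  · subst hkj
    refine key (X k \ Z k i) ((h.axis k).zone i).2.2.1
      (fun w hw e => e.elim (hKX k w hw.1) hw.2) ?_ t ht v hv ⟨hk.1, fun e => hk.2 (e1_zone i e)⟩
    obtain ⟨w, hw, s, hs, hws⟩ := ((h.axis k).zone (!i)).2.2.2.2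
    refine ⟨w, ⟨hZX k _ hw, fun e => ?_⟩, s, hs, hws⟩
    have h1 := (h.axis k).long {w} (pc_single ((h.axis k).sub (hZX k _ hw)) hr0)
    cases i
    · exact h1 ⟨w, rfl, e⟩ ⟨w, rfl, hw⟩
    · exact h1 ⟨w, rfl, hw⟩ ⟨w, rfl, e⟩
  · refine key (X k) (h.axis k).conn (fun w hw e => e.elim (hKX k w hw) fun e' => ?_) ?_ t ht v hv
      hk.1
    · exact h.sep k j hkj {w} (pc_single ((h.axis k).sub hw) hr0) ⟨w, rfl, hw⟩ ⟨w, rfl, hZX j i e'⟩
    · obtain ⟨w, hw, s, hs, hws⟩ := ((h.axis k).zone false).2.2.2.2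
      exact ⟨w, hZX k _ hw, s, hs, hws⟩

/-- The components of `Zs S Z` (`bd_roots`, `Base.few`). -/
theorem Inv.roots (hT : IsSurf T) {N₀ : ℕ} (hR : Rk T N₀) (h : Inv T F N ρ r B₀ S Y root m X Z) :
    ∃ R : Finset V, R.card ≤ N₀ + 1 + N ∧ ∀ v ∈ Zs S Z, ∃ a ∈ R, Jn T (Zs S Z) v a := by
  classical
  obtain ⟨R₀, h1, h2⟩ := bd_roots hT hR
  have hS : S ⊆ Zs S Z := subset_union_left
  refine ⟨R₀ ∪ (toFinite (root '' S \ Bd T)).toFinset, ?_, ?_⟩
  · have h3 := h.base.few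
    rw [ncard_eq_toFinset_card _ (toFinite _)] at h3
    exact (Finset.card_union_le _ _).trans (add_le_add h1 h3)
  have h4 : ∀ v ∈ S, ∃ a ∈ R₀ ∪ (toFinite (root '' S \ Bd T)).toFinset, Jn T (Zs S Z) v a := by
    intro v hv
    have h5 : Jn T (Zs S Z) v (root v) := (h.base.cls v hv).2.mono fun u hu => hS hu.1
    by_cases hb : root v ∈ Bd T
    · obtain ⟨a, ha, hj⟩ := h2 _ hb
      exact ⟨a, Finset.mem_union_left _ ha, h5.trans (hj.mono fun u hu => hS (h.base.bd u hu).1)⟩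
    · exact ⟨root v, Finset.mem_union_right _ ((Finite.mem_toFinset _).2 ⟨⟨v, hv, rfl⟩, hb⟩), h5⟩
  intro v hv
  by_cases hs : v ∈ S
  · exact h4 v hs
  obtain ⟨j, i, hj⟩ := e1_zs hv hs
  obtain ⟨-, a2, -, -, u, hu, s, hs', hus⟩ := (h.axis j).zone i
  obtain ⟨a, ha, hj'⟩ := h4 s hs'
  exact ⟨a, ha, (((a2 v hj u hu).mono fun w hw =>
    .inr (mem_iUnion.2 ⟨j, e1_zone i hw⟩)).step (hS hs') hus).trans hj'⟩

end Pool.Agent.MP_17e62b_gt.T55

end

section

/-!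
A measure for chords.
-/

namespace Pool.Agent.MP_17e62b_gt.T55

open Set Metric Topology
open scoped InnerProductSpace Manifold

variable {V : Type} [Fintype V] [DecidableEq V] {T : Finset (Finset V)}
variable {n : ℕ} {F : V → EuclideanSpace ℝ (Fin n)}

variable (T) in
/-- The relative cycles that miss `A`. -/
def e2R (A H : Set V) : Submodule (ZMod 2) (V → V → ZMod 2) :=
  b4Sub (fun z => On T Aᶜ z ∧ ∀ v, v ∉ H → d1 z v = 0) ⟨On.zero, fun _ _ => by simp only [d1, Pi.zero_apply, Finset.sum_const_zero]⟩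
    fun _ _ h h' => ⟨h.1.add h'.1, fun v hv => by
      rw [d1_add, Pi.add_apply, h.2 v hv, h'.2 v hv, add_zero]⟩

theorem e2_on {A H : Set V} {z : V → V → ZMod 2} (h : On T H z) : NulA T A H z :=
  ⟨0, z, h, by rw [d2_zero, zero_add], fun _ _ _ => rfl⟩

variable (T) in
/-- The relative boundaries of chains that miss `A`. -/
def e2N (A H : Set V) : Submodule (ZMod 2) (V → V → ZMod 2) :=
  b4Sub (NulA T A H) (e2_on On.zero) fun _ _ ⟨Q, a, h1, h2, h3⟩ ⟨Q', a', h1', h2', h3'⟩ =>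
    ⟨Q + Q', a + a', h1.add h1', by rw [h2, h2', d2_add, add_add_add_comm], fun t ht hv => by
      rw [Pi.add_apply, h3 t ht hv, h3' t ht hv, add_zero]⟩

theorem e2_split {k M : Type} [Field k] [AddCommGroup M] [Module k M] [FiniteDimensional k M]
    (X P P' : Submodule k M) : b4D X P ≤ b4D X P' + b4D (X ⊓ P') P := by
  have h1 := b4_inf X P
  have h2 := b4_inf X P'
  have h3 := b4_inf (X ⊓ P') P
  have h4 := Submodule.finrank_mono (inf_le_inf_right P (inf_le_left : X ⊓ P' ≤ X))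
  omega

theorem e2_dim (hT : IsSurf T) {m : ℕ} {A : Fin m → Set V} (hA : ∀ j, Conn T (A j)) {H : Set V}
    (hH : Disjoint H (⋃ j, A j)) {Y : Submodule (ZMod 2) (V → V → ZMod 2)}
    (hY : ∀ z ∈ Y, On T (⋃ j, A j)ᶜ z ∧ Nul T H z) : b4D Y (e2N T (⋃ j, A j) H) ≤ m := by
  classical
  have h0 : ∀ j, ∃ t, (A j).Nonempty → t ∈ T ∧ ∃ x ∈ t, x ∈ A j := fun j => by
    by_cases h : (A j).Nonempty
    · obtain ⟨x, hx⟩ := h
      obtain ⟨t, ht, h1⟩ := hT.used x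
      exact ⟨t, fun _ => ⟨ht, x, h1, hx⟩⟩
    · exact ⟨∅, fun h' => absurd h' h⟩
  choose t ht using h0
  by_contra hc
  let b := Module.finBasis (ZMod 2) (LinearMap.range ((e2N T (⋃ j, A j) H).mkQ ∘ₗ Y.subtype))
  choose z hz using fun i => (b i).2
  choose Q a ha hQ using fun i => (hY _ (z i).2).2
  have h2 : ¬ LinearIndependent (ZMod 2) fun i (j : Fin m) => Q i (t j) := fun hl => by
    have := hl.fintype_card_le_finrank
    rw [Module.finrank_fintype_fun_eq_card, Fintype.card_fin, Fintype.card_fin] at this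
    exact hc this
  obtain ⟨g, hg, i, hi⟩ := Fintype.not_linearIndependent_iff.1 h2
  refine hi (Fintype.linearIndependent_iff.1 b.linearIndependent g (Subtype.ext ?_) i)
  have h3 : On T H (∑ i, g i • a i) := On.sum fun i _ => b4_on_smul _ (ha i)
  have h4 : On T (⋃ j, A j)ᶜ (∑ i, g i • (z i).1) :=
    On.sum fun i _ => b4_on_smul _ (hY _ (z i).2).1
  have h5 : ∑ i, g i • (z i).1 = d2 T (∑ i, g i • Q i) + ∑ i, g i • a i := by
    change _ = b4D2 T _ + _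
    rw [map_sum, ← Finset.sum_add_distrib]
    exact Finset.sum_congr rfl fun i _ => by rw [hQ, smul_add, map_smul]; rfl
  have h1 : (e2N T (⋃ j, A j) H).mkQ (∑ i, g i • (z i).1) = 0 := by
    refine (Submodule.Quotient.mk_eq_zero _).2 ⟨_, _, h3, h5, ?_⟩
    rintro s hs ⟨v, hv, hvA⟩
    obtain ⟨j, hj⟩ := mem_iUnion.1 hvA
    obtain ⟨h6, x, h7, h8⟩ := ht j ⟨v, hj⟩
    rw [status_jn hT (A := A j) (Q := ∑ i, g i • Q i) (fun w hw u => ?_)
      (hA j v hj x h8) hs h6 hv h7]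
    · simpa only [Finset.sum_apply, Pi.smul_apply, smul_eq_mul, Pi.zero_apply] using congrFun hg j
    · have e1 : (∑ i, g i • a i) u w = 0 := by_contra fun e =>
        disjoint_left.1 hH (h3.2 u w e).2.1 (mem_iUnion.2 ⟨j, hw⟩)
      have e2 : (∑ i, g i • (z i).1) u w = 0 := by_contra fun e =>
        (h4.2 u w e).2.1 (mem_iUnion.2 ⟨j, hw⟩)
      rwa [h5, Pi.add_apply, Pi.add_apply, e1, add_zero] at e2
  rw [map_sum] at h1
  simp only [Submodule.coe_sum, Submodule.coe_smul, ← hz, ← map_smul]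
  exact h1

theorem e2_rel {N : ℕ} (h : Rk T N) (B : Set V) (R : Finset V) :
    b4D (b4R T (R : Set V)) (b4N T B) ≤ N + R.card := by
  induction R using Finset.induction_on with
  | empty =>
    exact b4_rk h (A := b4R T ((∅ : Finset V) : Set V))
      (fun z hz => ⟨hz.1, funext fun v => hz.2 v (by simp)⟩) B
  | insert a s ha ih =>
    have := b4_ins (T := T) (s : Set V) a (b4N T B)
    rw [Finset.coe_insert, Finset.card_insert_of_notMem ha]
    omega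

/-- Plan: `ν H` is the dimension of the image of the relative cycles that miss `A` in the quotient
of all functions by the subspace `NulA T A H` (see `exists_mu` and its helpers). Bound: modulo
`Nul T H` at most `N + R.card`; a 2-chain for an element of `Nul T H` is constant on the triangles
that meet one `A j` (`status_jn`), so among `m + 1` such elements some sum lies in `NulA`. -/
theorem exists_nu (hT : IsSurf T) {N m : ℕ} (h : Rk T N) {A : Fin m → Set V}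
    (hA : ∀ j, Conn T (A j)) : ∃ ν : Set V → ℕ,
    (∀ (H : Set V) (R : Finset V), Disjoint H (⋃ j, A j) → (∀ v ∈ H, ∃ a ∈ R, Jn T H v a) →
      ν H ≤ N + R.card + m) ∧
    ∀ H H' z, H ⊆ H' → Disjoint H' (⋃ j, A j) → (∀ v ∈ H', ∃ b ∈ H, Jn T H' v b) →
      On T (⋃ j, A j)ᶜ z → (∀ v, v ∉ H → d1 z v = 0) → ¬ NulA T (⋃ j, A j) H z → On T H' z →
      ν H' < ν H := by
  refine ⟨fun H => b4D (e2R T (⋃ j, A j) H) (e2N T (⋃ j, A j) H), fun H R hH hR => ?_,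
    fun H H' z hH hd ha h1 h2 h3 h4 => ?_⟩
  · have h1 := b4_psh (B := (R : Set V)) hR
    have h2 := e2_rel h H R
    have h3 := e2_split (e2R T (⋃ j, A j) H) (e2N T (⋃ j, A j) H) (b4N T H)
    have h4 := e2_dim hT hA hH (Y := e2R T (⋃ j, A j) H ⊓ b4N T H) fun z hz => ⟨hz.1.1, hz.2⟩
    have h5 : b4D (e2R T (⋃ j, A j) H) (b4N T H) ≤ b4D (b4R T H) (b4N T H) :=
      b4_le fun z hz => Submodule.mem_sup_left (⟨hz.1.mono (subset_univ _), hz.2⟩ : Rel T H z)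
    simp only
    omega
  · refine lt_of_le_of_lt (b4_le (A' := e2R T (⋃ j, A j) H) fun y hy => ?_)
      (b4_lt (A := e2R T (⋃ j, A j) H) (z := z)
        (fun y ⟨Q, a, e1, e2⟩ => ⟨Q, a, e1.mono hH, e2⟩) ⟨h1, h2⟩ h3 (e2_on h4))
    obtain ⟨p, hp, h5⟩ := b4_push ha (⟨hy.1.mono (subset_univ _), hy.2⟩ : Rel T H' y)
    have := Submodule.add_mem_sup (S := e2R T (⋃ j, A j) H) (T := e2N T (⋃ j, A j) H')
      ⟨hy.1.add (hp.mono hd.subset_compl_right), h5.2⟩ (e2_on hp)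
    rwa [add_assoc, add_self1, add_zero] at this

end Pool.Agent.MP_17e62b_gt.T55

end

section

/-!
Absorbing all small chords.
-/

namespace Pool.Agent.MP_17e62b_gt.T55

open Set Metric Topology
open scoped InnerProductSpace Manifold

variable {V : Type} [Fintype V] [DecidableEq V] {T : Finset (Finset V)}
variable {n : ℕ} {F : V → EuclideanSpace ℝ (Fin n)}

variable {N m : ℕ} {ω ρ r r' : ℝ} {B₀ S Y : Set V} {root : V → V} {X : Fin m → Set V}
  {Z : Fin m → Bool → Set V}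

theorem e3_disj (h : Inv T F N ρ r B₀ S Y root m X Z) (h0 : 0 ≤ r) :
    Disjoint (Zs S Z) (Md X Z) := by
  refine Set.disjoint_left.2 fun b hb hb' => ?_
  obtain ⟨k, hk, hk'⟩ := mem_iUnion.1 hb'
  have hf := (h.axis k).sub hk
  rcases hb with hb | hb
  · exact hf (Or.inl hb)
  · obtain ⟨j, hj⟩ := mem_iUnion.1 hb
    by_cases e : j = k
    · exact hk' (e ▸ hj)
    · have hX : b ∈ X j := hj.elim (fun c => ((h.axis j).zone false).1 c)
        fun c => ((h.axis j).zone true).1 c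
      exact h.sep j k e {b} (pc_single hf h0) ⟨b, rfl, hX⟩ ⟨b, rfl, hk⟩

omit [Fintype V] [DecidableEq V] in
theorem e3_out {v : V} (hv : v ∉ Zs S Z ∪ Md X Z) : v ∉ S ∧ v ∉ ⋃ j, X j := by
  refine ⟨fun c => hv (Or.inl (Or.inl c)), fun c => ?_⟩
  obtain ⟨j, hj⟩ := mem_iUnion.1 c
  by_cases e : v ∈ Z j false ∪ Z j true
  · exact hv (Or.inl (Or.inr (mem_iUnion.2 ⟨j, e⟩)))
  · exact hv (Or.inr (mem_iUnion.2 ⟨j, hj, e⟩))

/-- Plan: a chord `K` that is not zero lies in `Y` or outside `S ∪ Y ∪ ⋃ j, X j` (`Base.not_adj`).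
In the first case its ends lie in `S`: `Inv.growY`, `Inv.anti`. In the second case one end lies in
`S` (`Inv.zone_nul`): `Inv.grow` with both sets equal to `K`. `null_att`. -/
theorem Inv.chord (hT : IsSurf T) (hF : Sad T F ω) (h : Inv T F N ρ r B₀ S Y root m X Z)
    (hω : 8 * ω ≤ r) (hn : ∀ z, Rel T (S ∪ Y ∪ ⋃ j, X j) z → Nul T (S ∪ Y ∪ ⋃ j, X j) z)
    (hs : ¬ Sep T F (Md X Z) (Zs S Z) (r / 4)) :
    ∃ (S' Y' : Set V) (root' : V → V), Inv T F N (ρ + r) (r / 4) B₀ S' Y' root' m X Z ∧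
      (∀ z, Rel T (S' ∪ Y' ∪ ⋃ j, X j) z → Nul T (S' ∪ Y' ∪ ⋃ j, X j) z) ∧
      Zs S Z ⊆ Zs S' Z ∧ (∀ v ∈ Zs S' Z, ∃ b ∈ Zs S Z, Jn T (Zs S' Z) v b) ∧
      ∃ z, On T (Md X Z)ᶜ z ∧ (∀ v, v ∉ Zs S Z → d1 z v = 0) ∧ ¬ NulA T (Md X Z) (Zs S Z) z ∧
        On T (Zs S' Z) z := by
  have h0 := hF.nonneg
  simp only [Sep, not_forall] at hs
  obtain ⟨K, hK, u, hu, u', hu', b, hb, b', hb', a, a', p, hp, hd, hz⟩ := hs
  have hKo : ∀ v ∈ K, v ∉ S ∧ v ∉ ⋃ j, X j := fun v hv => e3_out (hK.1 hv)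
  have key : Tch T K S ∧ ∃ Y' root', Inv T F N (ρ + r) (r / 4) B₀ (S ∪ K) Y' root' m X Z ∧
      S ∪ Y ⊆ S ∪ K ∪ Y' ∧ Y' ⊆ Y := by
    by_cases hY : ∃ y ∈ K, y ∈ Y
    · obtain ⟨y, hy, hy'⟩ := hY
      have hKY : K ⊆ Y := fun v hv => by
        by_contra hc
        obtain ⟨c, d, h1, h2, h3, h4⟩ := (hK.2.1 y hy v hv).exit hy' hc
        exact h.base.not_adj (fun e => e.elim (hKo d h2).1 h3) h1.right.2 h4.symm
      have hbS : b ∈ S := by
        rcases hb with c | c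
        · exact c
        · obtain ⟨j, hj⟩ := mem_iUnion.1 c
          have hX : b ∈ X j := hj.elim (fun c => ((h.axis j).zone false).1 c)
            fun c => ((h.axis j).zone true).1 c
          exact absurd a (h.base.not_adj ((h.axis j).sub hX) (hKY hu))
      have ht : Tch T K S := ⟨u, hu, b, hbS, a.symm⟩
      obtain ⟨root', hI⟩ := h.growY hT hF (hK.mono hKY le_rfl) ht
      refine ⟨ht, Y \ K, root', b17_mono (hI.anti hT (by linarith) (by linarith only [hω, h0])) le_rfl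
        (by linarith), fun v hv => ?_, sdiff_subset⟩
      by_cases e : v ∈ K
      · exact Or.inl (Or.inr e)
      · exact hv.elim (fun c => Or.inl (Or.inl c)) fun c => Or.inr ⟨c, e⟩
    · have hK' : Pc T F (S ∪ Y ∪ ⋃ j, X j)ᶜ (r / 4) K := hK.mono (fun v hv c =>
        c.elim (fun c => c.elim (hKo v hv).1 fun c => hY ⟨v, hv, c⟩) (hKo v hv).2) le_rfl
      have ht : Tch T K S := by
        by_cases e : b ∈ S
        · exact ⟨u, hu, b, e, a.symm⟩
        by_cases e' : b' ∈ S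
        · exact ⟨u', hu', b', e', a'⟩
        exact absurd (h.zone_nul hT hF (by linarith only [hω, h0]) hK' hu hu' hb hb' e e' a a' hp hd) hz
      obtain ⟨root', hI⟩ := h.grow hT hF (E := fun _ => K) (r' := r / 4) (fun _ => ⟨hK', ht⟩)
        (by linarith) (by linarith)
      rw [union_self] at hI
      exact ⟨ht, Y, root', b17_mono hI le_rfl (by linarith),
        union_subset_union_left _ subset_union_left, Subset.rfl⟩
  obtain ⟨⟨w, hw, s, hs, ws⟩, Y', root', hI, hY1, hY2⟩ := key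
  have hsub : Zs S Z ⊆ Zs (S ∪ K) Z := union_subset_union_left _ subset_union_left
  have hKZ : K ⊆ Zs (S ∪ K) Z := fun v hv => Or.inl (Or.inr hv)
  have hdis := e3_disj h (by linarith)
  have hKA : K ⊆ (Md X Z)ᶜ := fun v hv c => hK.1 hv (Or.inr c)
  refine ⟨S ∪ K, Y', root', hI, null_att (union_subset_union_left _ hY1) (fun v hv => ?_) hn, hsub,
    fun v hv => ?_, edge b u + p + edge u' b', ?_, fun v hv => ?_, hz, ?_⟩
  · by_cases e : v ∈ K
    · exact ⟨s, Or.inl (Or.inl hs), ((hK.2.1 v e w hw).mono fun t ht =>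
        Or.inl (Or.inl (Or.inr ht))).step (Or.inl (Or.inl (Or.inl hs))) ws⟩
    · refine ⟨v, ?_, Jn.refl hv⟩
      rcases hv with ((c | c) | c) | c
      · exact Or.inl (Or.inl c)
      · exact absurd c e
      · exact Or.inl (Or.inr (hY2 c))
      · exact Or.inr c
  · by_cases e : v ∈ K
    · exact ⟨s, Or.inl hs, ((hK.2.1 v e w hw).mono hKZ).step (hsub (Or.inl hs)) ws⟩
    · refine ⟨v, ?_, Jn.refl hv⟩
      rcases hv with (c | c) | c
      · exact Or.inl c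
      · exact absurd c e
      · exact Or.inr c
  · exact ((on_edge a (Set.disjoint_left.1 hdis hb) (hKA hu)).add (hp.mono hKA)).add
      (on_edge a' (hKA hu') (Set.disjoint_left.1 hdis hb'))
  · have e1 : v ≠ b := fun e => hv (e ▸ hb)
    have e2 : v ≠ b' := fun e => hv (e ▸ hb')
    rw [d1_add, d1_add, d1_edge, d1_edge, hd, ends_add, ends_add, ends, Pi.add_apply,
      Pi.single_eq_of_ne e1, Pi.single_eq_of_ne e2, add_zero]
  · exact ((on_edge a (hsub hb) (hKZ hu)).add (hp.mono hKZ)).add (on_edge a' (hKZ hu') (hsub hb'))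

theorem e3_iter (hT : IsSurf T) (hF : Sad T F ω) (ν : Set V → ℕ)
    (hν : ∀ H H' z, H ⊆ H' → Disjoint H' (Md X Z) → (∀ v ∈ H', ∃ b ∈ H, Jn T H' v b) →
      On T (Md X Z)ᶜ z → (∀ v, v ∉ H → d1 z v = 0) → ¬ NulA T (Md X Z) H z → On T H' z →
      ν H' < ν H) (k : ℕ) :
    ∀ (ρ' r : ℝ) (S Y : Set V) (root : V → V), Inv T F N ρ' r B₀ S Y root m X Z →
      (∀ z, Rel T (S ∪ Y ∪ ⋃ j, X j) z → Nul T (S ∪ Y ∪ ⋃ j, X j) z) → ν (Zs S Z) ≤ k →
      ρ' + 2 * r ≤ ρ → 8 * 4 ^ k * ω ≤ r →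
      ∃ (S' Y' : Set V) (root' : V → V) (r' : ℝ), r / 4 ^ k ≤ r' ∧ r' ≤ r ∧
        Inv T F N ρ r' B₀ S' Y' root' m X Z ∧
        (∀ z, Rel T (S' ∪ Y' ∪ ⋃ j, X j) z → Nul T (S' ∪ Y' ∪ ⋃ j, X j) z) ∧
        Sep T F (Md X Z) (Zs S' Z) (r' / 4) := by
  have h0 := hF.nonneg
  have pw : ∀ (k : ℕ) (r : ℝ), 8 * 4 ^ k * ω ≤ r → 8 * ω ≤ r := by
    intro k r h
    have h1 : (1 : ℝ) ≤ 4 ^ k := one_le_pow₀ (by norm_num)
    linarith only [mul_nonneg (sub_nonneg.2 h1) h0, h]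
  induction k with
  | zero =>
    intro ρ' r S Y root h hn hk hρ hω
    have hω' := pw _ _ hω
    by_cases hs : Sep T F (Md X Z) (Zs S Z) (r / 4)
    · exact ⟨S, Y, root, r, by simp, le_rfl, b17_mono h le_rfl (by linarith only [h0, hρ, hω]), hn, hs⟩
    · obtain ⟨S', Y', root', hI, -, a1, a2, z, a3, a4, a5, a6⟩ := h.chord hT hF hω' hn hs
      have := hν _ _ z a1 (e3_disj hI (by linarith only [h0, hω])) a2 a3 a4 a5 a6
      omega
  | succ k ih =>
    intro ρ' r S Y root h hn hk hρ hω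
    have hω' := pw _ _ hω
    by_cases hs : Sep T F (Md X Z) (Zs S Z) (r / 4)
    · exact ⟨S, Y, root, r, div_le_self (by linarith only [h0, hω']) (one_le_pow₀ (by norm_num)), le_rfl,
        b17_mono h le_rfl (by linarith only [h0, hρ, hω']), hn, hs⟩
    · obtain ⟨S', Y', root', hI, hn', a1, a2, z, a3, a4, a5, a6⟩ := h.chord hT hF hω' hn hs
      have := hν _ _ z a1 (e3_disj hI (by linarith only [h0, hω'])) a2 a3 a4 a5 a6
      obtain ⟨S'', Y'', root'', r'', c1, c2, c3⟩ := ih (ρ' + r) (r / 4) S' Y' root' hI hn'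
        (by omega) (by linarith only [h0, hρ, hω']) (by rw [pow_succ] at hω; linarith only [hω])
      refine ⟨S'', Y'', root'', r'', ?_, by linarith only [h0, hω', c2], c3⟩
      rwa [div_div, ← pow_succ'] at c1

/-- Plan: `skel_inv` with `ρ / (M + 1)`, `M = 2 N₀ + 1 + 2 N`; `exists_nu` for the middle parts
(`Axis.mid_conn`), `Inv.roots`; at most `M` steps `Inv.chord` (compare `b13_iter`). -/
theorem inv_sep (n N₀ : ℕ) : ∃ N : ℕ, ∀ ρ : ℝ, 0 < ρ → ∃ r₀ : ℝ, 0 < r₀ ∧ r₀ ≤ ρ ∧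
    ∀ (V : Type) [Fintype V] [DecidableEq V] (T : Finset (Finset V))
      (F : V → EuclideanSpace ℝ (Fin n)) (ω : ℝ), IsSurf T → Rk T N₀ → Sad T F ω →
      10000000 * ω ≤ r₀ → ∃ (B₀ S Y : Set V) (root : V → V) (m : ℕ) (X : Fin m → Set V)
        (Z : Fin m → Bool → Set V) (r : ℝ), m ≤ N ∧ r₀ ≤ r ∧ r ≤ ρ ∧
        Inv T F N ρ r B₀ S Y root m X Z ∧
        (∀ z, Rel T (S ∪ Y ∪ ⋃ j, X j) z → Nul T (S ∪ Y ∪ ⋃ j, X j) z) ∧
        Sep T F (Md X Z) (Zs S Z) (r / 4) := by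
  obtain ⟨N, hN⟩ := skel_inv n N₀
  refine ⟨N, fun ρ hρ => ?_⟩
  obtain ⟨s, hs0, hs1, hs⟩ := hN (ρ / 3) (by linarith)
  obtain ⟨M, hM⟩ : ∃ M : ℕ, M = 2 * N₀ + 1 + 2 * N := ⟨_, rfl⟩
  have hP : (1 : ℝ) ≤ 4 ^ M := one_le_pow₀ (by norm_num)
  have hr : s / 4 ^ M ≤ s := div_le_self hs0.le hP
  refine ⟨s / 4 ^ M, div_pos hs0 (by linarith only [hP]), by linarith only [hs0, hs1, hr], fun V _ _ T F ω hT hR hF hω => ?_⟩
  have h0 := hF.nonneg
  obtain ⟨B₀, S, Y, root, m, X, Z, r, hm, r1, r2, hI, hn⟩ := hs V T F ω hT hR hF (by linarith only [hr, hω])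
  obtain ⟨ν, hν0, hν1⟩ := exists_nu hT hR (A := fun j => X j \ (Z j false ∪ Z j true))
    fun j => ((hI.axis j).mid_conn hT hF (by linarith only [hs0, hr, hω, r1])).1
  obtain ⟨R, hR1, hR2⟩ := hI.roots hT hR
  have hk : ν (Zs S Z) ≤ M := by
    have := hν0 _ R (e3_disj hI (by linarith only [hs0, r1])) hR2
    omega
  obtain ⟨S', Y', root', r', a1, a2, a3⟩ := e3_iter (ρ := ρ) hT hF ν hν1 M _ r S Y root hI hn hk
    (by linarith only [r2]) (by
      rw [le_div_iff₀ (by linarith only [hP])] at hω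
      linarith only [hs0, hω, r1])
  exact ⟨B₀, S', Y', root', m, X, Z, r', hm,
    (div_le_div_of_nonneg_right r1 (by linarith only [hP])).trans a1, by linarith only [hs0, hs1, r2, a2], a3⟩

end Pool.Agent.MP_17e62b_gt.T55

end

section

/-!
Labels.
-/

namespace Pool.Agent.MP_17e62b_gt.T55

open Set Metric Topology
open scoped InnerProductSpace Manifold

variable {V : Type} [Fintype V] [DecidableEq V] {T : Finset (Finset V)}
variable {n : ℕ} {F : V → EuclideanSpace ℝ (Fin n)}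

variable {N N' m : ℕ} {ω ρ ρ' r r' δ : ℝ} {B₀ S Y : Set V} {root lab : V → V}
  {X W : Fin m → Set V} {Z : Fin m → Bool → Set V} {L : Fin m → Bool → Set (Finset V)}
  {z : Fin m → Bool → V}

theorem e4_exit {ι : Type} {E : ι → ι → Prop} {D : Set ι} {u b : ι}
    (h : Relation.ReflTransGen E u b) (hu : u ∉ D) (hb : b ∈ D) :
    ∃ x y, Relation.ReflTransGen E u x ∧ x ∉ D ∧ y ∈ D ∧ E x y := by
  induction h with
  | refl => exact absurd hb hu
  | @tail x y h1 h2 ih =>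
    by_cases hx : x ∈ D
    · exact ih hx
    · exact ⟨x, y, h1, hx, hb, h2⟩

theorem e4_forest {ι : Type} [Finite ι] (E : ι → ι → Prop) (A B : Set ι) (hB : B ⊆ A)
    (h : ∀ u ∈ A, ∃ b ∈ B, Relation.ReflTransGen (fun x y => y ∈ A ∧ E x y) u b) :
    ∃ (g : ι → ι) (d : ι → ℕ), ∀ u ∈ A, g u ∈ B ∧ (u ∈ B → g u = u) ∧ d u ≤ (A \ B).ncard ∧
      (u ∉ B → ∃ u' ∈ A, E u u' ∧ g u' = g u ∧ d u' < d u) := by
  classical
  have key : ∀ k : ℕ, ∀ D : Set ι, B ⊆ D → D ⊆ A → (A \ D).ncard = k →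
      (∃ (g : ι → ι) (d : ι → ℕ), ∀ u ∈ D, g u ∈ B ∧ (u ∈ B → g u = u) ∧ d u ≤ (D \ B).ncard ∧
        (u ∉ B → ∃ u' ∈ D, E u u' ∧ g u' = g u ∧ d u' < d u)) →
      ∃ (g : ι → ι) (d : ι → ℕ), ∀ u ∈ A, g u ∈ B ∧ (u ∈ B → g u = u) ∧ d u ≤ (A \ B).ncard ∧
        (u ∉ B → ∃ u' ∈ A, E u u' ∧ g u' = g u ∧ d u' < d u) := by
    intro k
    induction k with
    | zero =>
      intro D h1 h2 h3 h4
      have h5 : A \ D = ∅ := (ncard_eq_zero (toFinite _)).1 h3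
      have h6 : D = A := h2.antisymm (sdiff_eq_empty.1 h5)
      subst h6
      exact h4
    | succ k ih =>
      rintro D h1 h2 h3 ⟨g, d, h4⟩
      obtain ⟨u, hu⟩ : (A \ D).Nonempty := nonempty_of_ncard_ne_zero (by omega)
      obtain ⟨b, hb, h5⟩ := h u hu.1
      obtain ⟨x, y, h6, hx, hy, -, h7⟩ := e4_exit h5 hu.2 (h1 hb)
      have hxA : x ∈ A := by
        induction h6 with
        | refl => exact hu.1
        | tail _ h8 _ => exact h8.1
      have hxB : x ∉ B := fun e => hx (h1 e)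
      have hc : (insert x D \ B).ncard = (D \ B).ncard + 1 := by
        rw [insert_sdiff_of_notMem _ hxB, ncard_insert_of_notMem (fun e => hx e.1) (toFinite _)]
      refine ih (insert x D) (h1.trans (subset_insert _ _)) (insert_subset hxA h2) ?_
        ⟨Function.update g x (g y), Function.update d x ((D \ B).ncard + 1), ?_⟩
      · have h8 : A \ D = insert x (A \ insert x D) := by
          ext w
          by_cases hw : w = x
          · simp [hw, hxA, hx]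
          · simp [hw]
        rw [h8, ncard_insert_of_notMem (by simp) (toFinite _)] at h3
        omega
      · intro w hw
        have hne : ∀ v ∈ D, v ≠ x := fun v hv e => hx (e ▸ hv)
        rcases hw with rfl | hw
        · simp only [Function.update_self]
          refine ⟨(h4 y hy).1, fun e => absurd e hxB, hc.ge, fun _ => ⟨y, .inr hy, h7, ?_, ?_⟩⟩
          · rw [Function.update_of_ne (hne y hy)]
          · rw [Function.update_of_ne (hne y hy)]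
            exact Nat.lt_succ_of_le (h4 y hy).2.2.1
        · obtain ⟨h8, h9, h10, h11⟩ := h4 w hw
          rw [Function.update_of_ne (hne w hw), Function.update_of_ne (hne w hw)]
          refine ⟨h8, h9, by omega, fun e => ?_⟩
          obtain ⟨u', h12, h13, h14, h15⟩ := h11 e
          exact ⟨u', .inr h12, h13, by rwa [Function.update_of_ne (hne u' h12)],
            by rwa [Function.update_of_ne (hne u' h12)]⟩
  exact key _ B subset_rfl hB rfl ⟨id, fun _ => 0, fun u hu =>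
    ⟨hu, fun _ => rfl, Nat.zero_le _, fun e => absurd hu e⟩⟩

theorem e4_label {ι : Type} [Finite ι] (E : ι → ι → Prop) (hE : ∀ x y, E x y → E y x)
    (A B C : Set ι) (hBC : B ⊆ C) (hCA : C ⊆ A) (h : ∀ u ∈ A, u ∉ C → ∃ c ∈ C, E u c) :
    ∃ (g : ι → ι) (d : ι → ℕ), ∀ u ∈ A, g u ∈ C ∧ g (g u) = g u ∧ (u ∈ B → g u = u) ∧
      d u ≤ (A \ B).ncard ∧ (g u ≠ u → ∃ u' ∈ A, E u u' ∧ g u' = g u ∧ d u' < d u) ∧
      (g u ∉ B → ∀ u' ∈ A, E u u' → g u' = g u) := by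
  classical
  let R : ι → ι → Prop := Relation.ReflTransGen fun x y => y ∈ A ∧ E x y
  have hRA : ∀ u v, u ∈ A → R u v → v ∈ A := fun u v hu h1 => by
    induction h1 with
    | refl => exact hu
    | tail _ h2 _ => exact h2.1
  have hRs : ∀ u v, u ∈ A → R u v → R v u := fun u v hu h1 => by
    induction h1 with
    | refl => exact .refl
    | tail h2 h3 ih => exact .head ⟨hRA _ _ hu h2, hE _ _ h3.2⟩ ih
  have hK : ∀ u v, u ∈ A → R u v → {w | R v w} = {w | R u w} := fun u v hu h1 =>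
    Set.ext fun w => ⟨fun h2 => h1.trans h2, fun h2 => (hRs u v hu h1).trans h2⟩
  have hrep : ∀ K : Set ι, ∃ c : Option ι, (K ∩ C).Nonempty → ∃ a ∈ K ∩ C, c = some a := fun K => by
    by_cases h1 : (K ∩ C).Nonempty
    · obtain ⟨a, ha⟩ := h1
      exact ⟨some a, fun _ => ⟨a, ha, rfl⟩⟩
    · exact ⟨none, fun e => absurd e h1⟩
  choose rep hrep using hrep
  have hne : ∀ u ∈ A, ({w | R u w} ∩ C).Nonempty := fun u hu => by
    by_cases h1 : u ∈ C
    · exact ⟨u, .refl, h1⟩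
    · obtain ⟨c, h2, h3⟩ := h u hu h1
      exact ⟨c, .single ⟨hCA h2, h3⟩, h2⟩
  let B' : Set ι := B ∪ {a | a ∈ C ∧ rep {w | R a w} = some a ∧ ∀ b ∈ B, ¬ R a b}
  have hB'C : B' ⊆ C := union_subset hBC fun a ha => ha.1
  obtain ⟨g, d, hg⟩ := e4_forest E A B' (hB'C.trans hCA) fun u hu => by
    by_cases h1 : ∃ b ∈ B, R u b
    · obtain ⟨b, h2, h3⟩ := h1
      exact ⟨b, .inl h2, h3⟩
    · obtain ⟨a, ⟨h2, h3⟩, h4⟩ := hrep _ (hne u hu)
      refine ⟨a, .inr ⟨h3, ?_, fun b hb h5 => h1 ⟨b, hb, Relation.ReflTransGen.trans h2 h5⟩⟩, h2⟩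
      rw [hK u a hu h2, h4]
  have hpath : ∀ k, ∀ u ∈ A, d u = k → R u (g u) := by
    intro k
    induction k using Nat.strong_induction_on with
    | _ k ih =>
      intro u hu hk
      by_cases h1 : u ∈ B'
      · rw [(hg u hu).2.1 h1]
      · obtain ⟨u', h2, h3, h4, h5⟩ := (hg u hu).2.2.2 h1
        exact .head ⟨h2, h3⟩ (h4 ▸ ih _ (hk ▸ h5) u' h2 rfl)
  refine ⟨g, d, fun u hu => ?_⟩
  obtain ⟨h1, h2, h3, h4⟩ := hg u hu
  refine ⟨hB'C h1, (hg _ (hCA (hB'C h1))).2.1 h1, fun e => h2 (.inl e),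
    h3.trans (ncard_le_ncard (sdiff_subset_sdiff_right subset_union_left) (toFinite _)),
    fun e => h4 fun e' => e (h2 e'), fun e u' hu' h5 => ?_⟩
  obtain ⟨-, h6, h7⟩ := h1.resolve_left e
  have h8 : R (g u) (g u') :=
    (hRs _ _ hu (hpath _ u hu rfl)).trans (.head ⟨hu', h5⟩ (hpath _ u' hu' rfl))
  obtain ⟨-, h9, -⟩ := (hg u' hu').1.resolve_left fun e' => h7 _ e' h8
  rw [hK _ _ (hCA (hB'C h1)) h8, h6] at h9
  exact (Option.some.inj h9).symm

/-- Neighbouring units. -/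
def e4_E (T : Finset (Finset V)) (S : Set V) (root : V → V) (L : Fin m → Bool → Set (Finset V)) :
    V ⊕ Fin m × Bool → V ⊕ Fin m × Bool → Prop
  | .inl a, .inl b => ∃ s ∈ S, ∃ s' ∈ S, root s = a ∧ root s' = b ∧ Adj T s s'
  | .inl a, .inr p => ∃ t ∈ L p.1 p.2, ∃ s ∈ t, s ∈ S ∧ root s = a
  | .inr p, .inl a => ∃ t ∈ L p.1 p.2, ∃ s ∈ t, s ∈ S ∧ root s = a
  | .inr _, .inr _ => False

theorem e4_class (h : Cls T S root) (hl : ∀ u ∈ S, ∀ v ∈ S, root u = root v → lab u = lab v)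
    {v s : V} (hv : v ∈ S) (hs : s ∈ S) (e : root s = root v) :
    Relation.ReflTransGen (Lk T S lab L z) v s := by
  have h1 : Jn T {u ∈ S | root u = root v} v s := by
    have h2 := (h s hs).2.symm
    rw [e] at h2
    exact (h v hv).2.trans h2
  obtain ⟨h2, h3⟩ := h1
  clear hs e
  induction h3 with
  | refl => exact .refl
  | @tail x y h4 h5 ih =>
    have h6 : x ∈ {u ∈ S | root u = root v} := Jn.right ⟨h2, h4⟩
    exact ih.tail ⟨h5.1.1, hl _ h5.1.1 _ h6.1 (h5.1.2.trans h6.2.symm), .inl h5.2⟩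

/-- Plan: units are the classes and the pairs `(j, i)`. Two classes are neighbours if an edge joins
them, a class and `(j, i)` if a triangle of `L j i` has a vertex in the class. Classes with a root
in `Bd T` keep it as label. A unit joined to such a class gets, by induction on the distance, the
label of a neighbour that is closer; there are at most `3 N` other units. On a component without
such a class the label is the root of one of its classes. -/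
theorem Skel.label (hF : Sad T F ω) (hω : ω ≤ ρ) (h : Skel T F N ρ δ S Y root m W L)
    (hm : m ≤ N) : ∃ lab z, Sk1 T F S Y lab W L z N ((9 * N + 9) * ρ) δ := by
  classical
  have h0 : 0 ≤ ρ := hF.nonneg.trans hω
  have hb := h.base
  have ht : ∀ p : Fin m × Bool, ∃ v, ∃ t ∈ L p.1 p.2, v ∈ t ∧ v ∈ S := fun p => by
    obtain ⟨t, h1, v, h2, h3⟩ := (h.band p.1).touch p.2
    exact ⟨v, t, h1, h2, h3⟩
  choose sp hsp using ht
  let val : V ⊕ Fin m × Bool → V := Sum.elim id sp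
  let C : Set (V ⊕ Fin m × Bool) := Sum.inl '' (root '' S)
  let A : Set (V ⊕ Fin m × Bool) := C ∪ range Sum.inr
  let B : Set (V ⊕ Fin m × Bool) := Sum.inl '' (root '' S ∩ Bd T)
  have hA1 : ∀ v ∈ S, Sum.inl (root v) ∈ A := fun v hv => .inl ⟨_, ⟨v, hv, rfl⟩, rfl⟩
  have hA2 : ∀ p, Sum.inr p ∈ A := fun p => .inr ⟨p, rfl⟩
  obtain ⟨g, d, hg⟩ := e4_label (e4_E T S root L) (by
      rintro (a | p) (b | q) h1
      · obtain ⟨s, h2, s', h3, h4, h5, h6⟩ := h1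
        exact ⟨s', h3, s, h2, h5, h4, h6.symm⟩
      · exact h1
      · exact h1
      · exact h1) A B C (image_mono inter_subset_left) subset_union_left (by
      rintro u (h1 | ⟨p, rfl⟩) h2
      · exact absurd h1 h2
      · obtain ⟨t, h3, h4, h5⟩ := hsp p
        exact ⟨.inl (root (sp p)), ⟨_, ⟨_, h5, rfl⟩, rfl⟩, t, h3, _, h4, h5, rfl⟩)
  have hcard : (A \ B).ncard ≤ 3 * N := by
    have h1 : A \ B ⊆ Sum.inl '' (root '' S \ Bd T) ∪ range Sum.inr := by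
      rintro u ⟨⟨a, h2, rfl⟩ | h2, h3⟩
      · exact .inl ⟨a, ⟨h2, fun e => h3 ⟨a, ⟨h2, e⟩, rfl⟩⟩, rfl⟩
      · exact .inr h2
    have h2 := (ncard_le_ncard h1 (toFinite _)).trans (ncard_union_le _ _)
    have h3 : (Sum.inl '' (root '' S \ Bd T) : Set (V ⊕ Fin m × Bool)).ncard ≤ N :=
      (ncard_image_le (toFinite _)).trans hb.few
    have h4 : (range Sum.inr : Set (V ⊕ Fin m × Bool)).ncard ≤ m * 2 := by
      rw [← image_univ]
      refine (ncard_image_le (toFinite _)).trans ?_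
      rw [ncard_univ]
      simp only [Nat.card_eq_fintype_card, Fintype.card_prod, Fintype.card_fin, Fintype.card_bool, Std.le_refl]
    omega
  have hval : ∀ u ∈ A, ∃ a ∈ S, g u = .inl (root a) := fun u hu => by
    obtain ⟨_, ⟨a, h1, rfl⟩, h2⟩ := (hg u hu).1
    exact ⟨a, h1, h2.symm⟩
  have hfree : ∀ u ∈ A, val (g u) ∉ Bd T → g u ∉ B := by
    rintro u - h1 ⟨a, h2, h3⟩
    rw [← h3] at h1
    exact h1 h2.2
  have hstep : ∀ u u', e4_E T S root L u u' → dist (F (val u)) (F (val u')) ≤ 3 * ρ := by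
    have h1 : ∀ (p : Fin m × Bool) a, (∃ t ∈ L p.1 p.2, ∃ s ∈ t, s ∈ S ∧ root s = a) →
        dist (F a) (F (sp p)) ≤ 3 * ρ := by
      rintro p a ⟨t, h2, s, h3, h4, rfl⟩
      obtain ⟨t', h5, h6, -⟩ := hsp p
      have h7 := (h.band p.1).small p.2 s ⟨t, h2, h3⟩ _ ⟨t', h5, h6⟩
      have h8 := hb.rad s h4
      have h9 := dist_triangle_left (F (root s)) (F (sp p)) (F s)
      linarith only [h0, h7, h8, h9]
    rintro (a | p) (b | q) h2
    · obtain ⟨s, h3, s', h4, rfl, rfl, h5⟩ := h2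
      have h6 := hb.rad s h3
      have h7 := hb.rad s' h4
      have h8 := hF.jump s s' h5
      have h9 := dist_triangle4 (F (root s)) (F s) (F s') (F (root s'))
      rw [dist_comm] at h6
      exact h9.trans (by linarith only [hω, h6, h7, h8])
    · exact h1 q a h2
    · rw [dist_comm]
      exact h1 p b h2
    · exact h2.elim
  have hdist : ∀ k, ∀ u ∈ A, d u = k → dist (F (val u)) (F (val (g u))) ≤ 3 * ρ * k := by
    intro k
    induction k using Nat.strong_induction_on with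
    | _ k ih =>
      intro u hu hk
      by_cases h1 : g u = u
      · rw [h1, dist_self]
        positivity
      · obtain ⟨u', h2, h3, h4, h5⟩ := (hg u hu).2.2.2.2.1 h1
        have h6 := ih _ (hk ▸ h5) u' h2 rfl
        have h7 := hstep u u' h3
        have h8 := dist_triangle (F (val u)) (F (val u')) (F (val (g u)))
        have h9 : (d u' : ℝ) + 1 ≤ k := by exact_mod_cast hk ▸ h5
        rw [h4] at h6
        nlinarith only [h0, h6, h7, h8, h9]
  have hd9 : ∀ u ∈ A, dist (F (val u)) (F (val (g u))) ≤ 9 * N * ρ := fun u hu => by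
    have h1 : (d u : ℝ) ≤ 3 * N := by exact_mod_cast (hg u hu).2.2.2.1.trans hcard
    have h2 := hdist _ u hu rfl
    nlinarith only [h0, h1, h2]
  let lab : V → V := fun v => val (g (.inl (root v)))
  let z : Fin m → Bool → V := fun j i => val (g (.inr (j, i)))
  have hl : ∀ u ∈ S, ∀ v ∈ S, root u = root v → lab u = lab v := fun u _ v _ e => by
    simp only [lab, e]
  have hpath : ∀ k, ∀ u ∈ A, d u = k → ∀ v ∈ S, lab v = val (g u) →
      (u = .inl (root v) ∨ ∃ p, u = .inr p ∧ ∃ t ∈ L p.1 p.2, v ∈ t) →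
      Relation.ReflTransGen (Lk T S lab L z) v (val (g u)) := by
    intro k
    induction k using Nat.strong_induction_on with
    | _ k ih =>
      intro u hu hk v hv hlv hm
      by_cases h1 : g u = u
      · rcases hm with rfl | ⟨p, rfl, -⟩
        · rw [h1]
          exact e4_class hb.cls hl hv (b5_root hb.cls hv) (hb.cls v hv).1
        · obtain ⟨a, -, h2⟩ := hval _ hu
          rw [h1] at h2
          exact absurd h2 (by simp)
      · obtain ⟨u', h2, h3, h4, h5⟩ := (hg u hu).2.2.2.2.1 h1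
        have h6 := ih _ (hk ▸ h5) u' h2 rfl
        rw [h4] at h6
        rcases hm with rfl | ⟨p, rfl, t, h7, h8⟩
        · rcases u' with b | q
          · obtain ⟨s, h7, s', h8, h9, rfl, h10⟩ := h3
            have h11 : lab s' = val (g (.inl (root v))) := congrArg val h4
            refine (e4_class hb.cls hl hv h7 h9).trans
              (.head ⟨h8, ?_, .inl h10⟩ (h6 s' h8 h11 (.inl rfl)))
            rw [h11, hl s h7 v hv h9]
          · obtain ⟨t, h7, s, h8, h9, h10⟩ := h3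
            exact (e4_class hb.cls hl hv h9 h10).trans
              (h6 s h9 (hl s h9 v hv h10) (.inr ⟨q, rfl, t, h7, h8⟩))
        · rcases u' with b | q
          · obtain ⟨t', h9, s, h10, h11, rfl⟩ := h3
            have h12 : lab s = val (g (.inr p)) := congrArg val h4
            exact .head ⟨h11, h12.trans hlv.symm,
              .inr ⟨p.1, p.2, hlv.symm, ⟨t, h7, h8⟩, t', h9, h10⟩⟩ (h6 s h11 h12 (.inl rfl))
          · exact h3.elim
  have hlab : ∀ v ∈ S, ∃ a ∈ S, g (.inl (root v)) = .inl (root a) ∧ lab v = root a :=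
    fun v hv => by
      obtain ⟨a, h1, h2⟩ := hval _ (hA1 v hv)
      exact ⟨a, h1, h2, by simp only [lab, h2, val, Sum.elim_inl, id]⟩
  have hρ : ρ ≤ (9 * N + 9) * ρ := by nlinarith only [h0]
  refine ⟨lab, z, ?_, hm, fun v hv => ?_, fun j i t ht v hv => ?_, fun v hv => ?_,
    fun v hv => ?_, fun j i => ?_, hb.disj, fun y hy => ?_, h.out, h.sep, fun j => ?_, h.disc,
    fun s hs h1 s' hs' h2 => ?_, fun j i t ht s hs hS h1 => ?_⟩
  · refine (ncard_le_ncard (sdiff_subset_sdiff_left ?_) (toFinite _)).trans hb.few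
    rintro _ ⟨v, hv, rfl⟩
    obtain ⟨a, h1, -, h2⟩ := hlab v hv
    exact ⟨a, h1, h2.symm⟩
  · have h1 := hd9 _ (hA1 v hv)
    have h2 := hb.rad v hv
    have h3 := dist_triangle (F v) (F (root v)) (F (lab v))
    change dist (F (root v)) (F (lab v)) ≤ _ at h1
    linarith only [h0, h2, h3, h1]
  · have h1 := hd9 _ (hA2 (j, i))
    obtain ⟨t', h2, h3, -⟩ := hsp (j, i)
    have h4 := (h.band j).small i v ⟨t, ht, hv⟩ _ ⟨t', h2, h3⟩
    have h5 := dist_triangle (F v) (F (sp (j, i))) (F (z j i))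
    change dist (F (sp (j, i))) (F (z j i)) ≤ _ at h1
    linarith only [h0, h4, h5, h1]
  · obtain ⟨h1, h2⟩ := hb.bd v hv
    have h3 := (hg _ (hA1 v h1)).2.2.1 ⟨_, ⟨⟨v, h1, rfl⟩, h2⟩, rfl⟩
    refine ⟨h1, ?_⟩
    simp only [lab, h3, val, Sum.elim_inl, id]
    exact h2
  · obtain ⟨a, h1, h2, h3⟩ := hlab v hv
    refine ⟨h3 ▸ b5_root hb.cls h1, ?_, hpath _ _ (hA1 v hv) rfl v hv rfl (.inl rfl)⟩
    have h4 := (hg _ (hA1 v hv)).2.1
    rw [h2] at h4
    rw [h3]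
    simp only [lab, (hb.cls a h1).1, h4, val, Sum.elim_inl, id]
  · obtain ⟨a, -, h1⟩ := hval _ (hA2 (j, i))
    obtain ⟨u', -, h2, h3, -⟩ := (hg _ (hA2 (j, i))).2.2.2.2.1 (by rw [h1]; simp)
    rcases u' with b | q
    · obtain ⟨t, h4, s, h5, h6, rfl⟩ := h2
      exact ⟨t, h4, s, h5, h6, congrArg val h3⟩
    · exact h2.elim
  · obtain ⟨a, b, h1⟩ := hb.tube y hy
    refine ⟨val (g (.inl a)), val (g (.inl b)), fun u hu w hw ha => ?_⟩
    obtain ⟨h2, h3⟩ := h1 u hu w hw ha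
    refine ⟨h2, h3.imp (fun e => ?_) fun e => ?_⟩ <;> simp only [lab, e]
  · obtain ⟨h1, h2, h3, h4, h5, h6, h7, h8, h9, h10⟩ := h.band j
    exact ⟨h1, h2, h3, h4, h5, h6, fun i u hu v hv => (h7 i u hu v hv).trans hρ, h8, h9, h10⟩
  · exact congrArg val ((hg _ (hA1 s hs)).2.2.2.2.2 (hfree _ (hA1 s hs) h1) _ (hA1 s' hs')
      ⟨s, hs, s', hs', rfl, rfl, h2⟩)
  · rcases h1 with h1 | h1
    · exact (congrArg val ((hg _ (hA1 s hS)).2.2.2.2.2 (hfree _ (hA1 s hS) h1) _ (hA2 (j, i))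
        ⟨t, ht, s, hs, hS, rfl⟩)).symm
    · exact congrArg val ((hg _ (hA2 (j, i))).2.2.2.2.2 (hfree _ (hA2 (j, i)) h1) _ (hA1 s hS)
        ⟨t, ht, s, hs, hS, rfl⟩)

end Pool.Agent.MP_17e62b_gt.T55

end

section

/-!
The long sides of a band.
-/

namespace Pool.Agent.MP_17e62b_gt.T55

open Set Metric Topology
open scoped InnerProductSpace Manifold

variable {V : Type} [Fintype V] [DecidableEq V] {T : Finset (Finset V)}
variable {n : ℕ} {F : V → EuclideanSpace ℝ (Fin n)}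

variable {N N' m : ℕ} {ω ρ ρ' r r' δ : ℝ} {B₀ S Y : Set V} {root lab : V → V}
  {X W : Fin m → Set V} {Z : Fin m → Bool → Set V} {L : Fin m → Bool → Set (Finset V)}
  {z : Fin m → Bool → V}

omit [Fintype V] in
theorem e5_three (hT : IsSurf T) {u v : V} (huv : u ≠ v) {a b c : Finset V} (ha : a ∈ T)
    (hb : b ∈ T) (hc : c ∈ T) (h1 : u ∈ a ∧ v ∈ a) (h2 : u ∈ b ∧ v ∈ b) (h3 : u ∈ c ∧ v ∈ c)
    (hac : a ≠ c) (hbc : b ≠ c) : a = b := by
  by_contra hab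
  have hsub : ({a, b, c} : Finset (Finset V)) ⊆ T.filter fun t => u ∈ t ∧ v ∈ t := by
    intro s hs
    simp only [Finset.mem_insert, Finset.mem_singleton] at hs
    rcases hs with rfl | rfl | rfl <;> simp [*]
  have h3 := Finset.card_le_card hsub
  rw [Finset.card_eq_three.2 ⟨a, b, c, hab, hac, hbc, rfl⟩] at h3
  have := hT.two u v huv
  unfold deg at this
  omega

omit [Fintype V] [DecidableEq V] in
/-- The edges that leave `W` between a family of triangles and its complement. -/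
def e5B (T : Finset (Finset V)) (W : Set V) (A : Set (Finset V)) : Set (V × V) :=
  {e : V × V | e.1 ∈ W ∧ e.2 ∉ W ∧ (∃ t ∈ A, e.1 ∈ t ∧ e.2 ∈ t) ∧
    ∃ t ∈ T, t ∉ A ∧ e.1 ∈ t ∧ e.2 ∈ t}

omit [Fintype V] [DecidableEq V] in
/-- The first exit of a chain of triangles from a family. -/
theorem e5_exit {W : Set V} {A C : Set (Finset V)} {t t' : Finset V} (h : FJn W A t t')
    (ht : t ∈ C) (ht' : t' ∉ C) : ∃ a ∈ C, ∃ b ∈ A, b ∉ C ∧ ∃ w ∈ W, ∃ v, v ∉ W ∧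
      (w ∈ a ∧ v ∈ a) ∧ w ∈ b ∧ v ∈ b := by
  obtain ⟨-, h⟩ := h
  induction h with
  | refl => exact absurd ht ht'
  | @tail a b _ h2 ih =>
    by_cases ha : a ∈ C
    · obtain ⟨hb, w, hw, v, hv, h3, h4, h5⟩ := h2
      exact ⟨a, ha, b, hb, ht', w, hw, v, hv, ⟨h3, h4⟩, h5⟩
    · exact ih ha

theorem e5_le_two {α : Type} [Finite α] {E : Set α}
    (h : ∀ a ∈ E, ∀ b ∈ E, a ≠ b → ∀ c ∈ E, c = a ∨ c = b) : E.ncard ≤ 2 := by
  by_contra hc
  obtain ⟨a, ha, b, hb, c, hc', h1, h2, h3⟩ := (two_lt_ncard (toFinite E)).1 (not_le.1 hc)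
  rcases h a ha b hb h1 c hc' with e | e
  exacts [h2 e.symm, h3 e.symm]

/-- Every mixed triangle has two edges that leave `W`, and every such edge lies in two triangles,
so a connected set of mixed triangles has at most two edges to its complement. -/
theorem fjn_two (hT : IsSurf T) {W : Set V} (hb : Disjoint W (Bd T)) {A : Set (Finset V)}
    (hA : ∀ t ∈ A, Mixed T W t) (hc : ∀ t ∈ A, ∀ t' ∈ A, FJn W A t t') :
    {e : V × V | e.1 ∈ W ∧ e.2 ∉ W ∧ (∃ t ∈ A, e.1 ∈ t ∧ e.2 ∈ t) ∧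
      ∃ t ∈ T, t ∉ A ∧ e.1 ∈ t ∧ e.2 ∈ t}.ncard ≤ 2 := by
  have _ := hb
  change (e5B T W A).ncard ≤ 2
  rcases A.eq_empty_or_nonempty with rfl | ⟨t₀, ht₀⟩
  · have : e5B T W ∅ = ∅ := eq_empty_of_forall_notMem fun e ⟨_, _, ⟨_, h, _⟩, _⟩ => h
    simp [this]
  obtain ⟨C, ⟨hCA, hC₀, hC⟩, hmax⟩ := exists_max_image
    {C : Set (Finset V) | C ⊆ A ∧ t₀ ∈ C ∧ (e5B T W C).ncard ≤ 2} ncard (toFinite _)
    ⟨{t₀}, singleton_subset_iff.2 ht₀, rfl, e5_le_two (by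
      rintro ⟨a, a'⟩ ⟨a1, a2, ⟨_, rfl, a3⟩, -⟩ ⟨b, b'⟩ ⟨b1, b2, ⟨_, rfl, b3⟩, -⟩ hne ⟨c, c'⟩
        ⟨c1, c2, ⟨_, rfl, c3⟩, -⟩
      exact b2_two (hT.card _ (hA _ ht₀).1) a1 a2 b1 b2 c1 c2 a3 b3 c3 hne)⟩
  by_cases he : A ⊆ C
  · rwa [Subset.antisymm he hCA]
  obtain ⟨t, ht, htC⟩ := not_subset.1 he
  obtain ⟨a, ha, b, hb', hbC, w, hw, v, hv, m1, m2⟩ := e5_exit (hc t₀ ht₀ t ht) hC₀ htC
  have haT := (hA a (hCA ha)).1
  have hbT := (hA b hb').1
  have hwv : w ≠ v := fun e => hv (e ▸ hw)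
  refine absurd (hmax (insert b C) ⟨insert_subset hb' hCA, .inr hC₀, ?_⟩) (not_le.2 ?_)
  · have h0 : (w, v) ∈ e5B T W C := ⟨hw, hv, ⟨a, ha, m1⟩, b, hbT, hbC, m2⟩
    have h1 : (w, v) ∉ e5B T W (insert b C) := by
      rintro ⟨-, -, -, s, hs, hs', m3⟩
      exact hbC (e5_three hT hwv haT hbT hs m1 m2 m3 (fun e => hs' (.inr (e ▸ ha)))
        (fun e => hs' (.inl e.symm)) ▸ ha)
    have h2 : e5B T W (insert b C) ⊆ (e5B T W C \ {(w, v)}) ∪
        {e : V × V | e.1 ∈ W ∧ e.2 ∉ W ∧ (e.1 ∈ b ∧ e.2 ∈ b) ∧ e ≠ (w, v)} := by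
      intro e he'
      have hne : e ≠ (w, v) := fun h => h1 (h ▸ he')
      obtain ⟨e1, e2, ⟨s, hs | hs, m3⟩, s', hs', hs'', m4⟩ := he'
      · exact .inr ⟨e1, e2, hs ▸ m3, hne⟩
      · exact .inl ⟨⟨e1, e2, ⟨s, hs, m3⟩, s', hs', fun h => hs'' (.inr h), m4⟩, hne⟩
    have h3 : {e : V × V | e.1 ∈ W ∧ e.2 ∉ W ∧ (e.1 ∈ b ∧ e.2 ∈ b) ∧ e ≠ (w, v)}.ncard ≤ 1 := by
      refine (ncard_le_one (toFinite _)).2 ?_
      rintro ⟨x, x'⟩ ⟨x1, x2, x3, x4⟩ ⟨y, y'⟩ ⟨y1, y2, y3, y4⟩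
      exact ((b2_two (hT.card _ hbT) hw hv y1 y2 x1 x2 m2 y3 x3 y4.symm).resolve_left x4)
    have h4 := ncard_diff_singleton_add_one h0 (toFinite _)
    have h5 := (ncard_le_ncard h2 (toFinite _)).trans (ncard_union_le _ _)
    omega
  · exact ncard_lt_ncard ⟨subset_insert _ _, fun h => hbC (h (.inl rfl))⟩ (toFinite _)

/-- Parity: a frontier edge is never alone. -/
theorem e5_par (hT : IsSurf T) {W : Set V} (hb : Disjoint W (Bd T)) {A : Set (Finset V)}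
    (hA : ∀ t ∈ A, t ∈ T) {e : V × V} (he : e ∈ e5B T W A) : ∃ e' ∈ e5B T W A, e' ≠ e := by
  classical
  by_contra hcon
  obtain ⟨w, v⟩ := e
  obtain ⟨hw, hv, ⟨s, hs, m1⟩, s', hs', hs'', m2⟩ := he
  have h0 := b2_sum (W := W) hT fun t => if t ∈ A then 1 else 0
  have key : ∀ a b, (if a ∈ W ∧ b ∉ W then d2 T (fun t => if t ∈ A then 1 else 0) a b else 0) =
      if a ∈ W ∧ b ∉ W then edge w v a b * 1 else 0 := fun a b => by
    split_ifs with h
    swap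
    · rfl
    rw [b2_edge hw hv h.1, mul_one]
    rcases b2_cases hT hb h.1 h.2 with ⟨h1, hQ⟩ | ⟨c, d, hc, hd, -, h1, hQ⟩
    · rw [hQ, if_neg]
      intro e
      obtain ⟨rfl, rfl⟩ := Prod.mk.inj e
      exact h1 s' hs' m2
    rw [hQ]
    by_cases e : (a, b) = (w, v)
    · obtain ⟨rfl, rfl⟩ := Prod.mk.inj e
      rcases h1 s (hA s hs) m1 with rfl | rfl <;> rcases h1 s' hs' m2 with rfl | rfl
      · exact absurd hs hs''
      · simp [hs, hs'']
      · simp [hs, hs'']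
      · exact absurd hs hs''
    · rw [if_neg e]
      have : c ∈ A ↔ d ∈ A :=
        ⟨fun h2 => by_contra fun h3 => hcon ⟨(a, b), ⟨h.1, h.2, ⟨c, h2, hc.2⟩, d, hd.1, h3, hd.2⟩, e⟩,
          fun h2 => by_contra fun h3 =>
            hcon ⟨(a, b), ⟨h.1, h.2, ⟨d, h2, hd.2⟩, c, hc.1, h3, hc.2⟩, e⟩⟩
      simp only [this]
      exact b2_self _
  rw [Finset.sum_congr rfl fun a _ => Finset.sum_congr rfl fun b _ => key a b,
    b2_sum_edge hw hv] at h0
  exact one_ne_zero h0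

theorem e5_pair {α : Type} [Finite α] {E : Set α} (h : E.ncard ≤ 2) {a b c : α} (ha : a ∈ E)
    (hb : b ∈ E) (hab : a ≠ b) (hc : c ∈ E) : c = a ∨ c = b := by
  by_contra hn
  rw [not_or] at hn
  exact absurd ((two_lt_ncard (toFinite E)).2 ⟨a, ha, b, hb, c, hc, hab, Ne.symm hn.1,
    Ne.symm hn.2⟩) (not_lt.2 h)

theorem e5_apart {U W : Set V} {L : Bool → Set (Finset V)} (h : Band T F ρ δ S U W L) {i : Bool}
    {t t' : Finset V} (ht : t ∈ L i) (ht' : t' ∈ L (!i)) {w : V} (hw : w ∈ W) (h1 : w ∈ t) :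
    w ∉ t' := by
  cases i
  · exact h.apart t ht t' ht' w hw h1
  · exact fun h2 => h.apart t' ht' t ht w hw h2 h1

omit [Fintype V] [DecidableEq V] in
theorem e5_or {L : Bool → Set (Finset V)} {t : Finset V} (i : Bool) :
    t ∈ L false ∪ L true ↔ t ∈ L i ∨ t ∈ L (!i) := by
  cases i
  · rfl
  · exact or_comm

/-- A long side has exactly one corner at each end. Plan: the class of `t₀` has an even, non-zero
(`fjn_all`) number of edges to its complement, at most two (`fjn_two`); if both lead to `L i`,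
the union with `L i` has none. -/
theorem Band.corner (hT : IsSurf T) {U W : Set V} {L : Bool → Set (Finset V)}
    (hb : Disjoint W (Bd T)) (h : Band T F ρ δ S U W L) {t₀ : Finset V} (ht : t₀ ∈ Rest T W L)
    (i : Bool) : ∃! e : V × V, e.1 ∈ W ∧ e.2 ∉ W ∧
      (∃ t, FJn W (Rest T W L) t₀ t ∧ e.1 ∈ t ∧ e.2 ∈ t) ∧ ∃ c ∈ L i, e.1 ∈ c ∧ e.2 ∈ c := by
  obtain ⟨C, hC⟩ : ∃ C : Set (Finset V), ∀ t, t ∈ C ↔ FJn W (Rest T W L) t₀ t :=
    ⟨{t | _}, fun _ => Iff.rfl⟩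
  have hCR : ∀ t ∈ C, t ∈ Rest T W L := fun t h1 => b2_right ((hC t).1 h1)
  have hC₀ : t₀ ∈ C := (hC _).2 ⟨ht, .refl⟩
  have hCT : ∀ t ∈ C, t ∈ T := fun t h1 => (hCR t h1).1.1
  have hCL : ∀ k, ∀ t ∈ L k, t ∉ C := fun k t h1 h2 => (hCR t h2).2 ((e5_or k).2 (.inl h1))
  have two : (e5B T W C).ncard ≤ 2 := fjn_two hT hb (fun t h1 => (hCR t h1).1) fun t h1 t' h2 => by
    have key : ∀ s ∈ C, FJn W C t₀ s := fun s hs => by
      obtain ⟨h3, h4⟩ := (hC s).1 hs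
      clear hs
      induction h4 with
      | refl => exact ⟨hC₀, .refl⟩
      | tail h5 h6 ih =>
        obtain ⟨h7, w, hw, v, hv, m1, m2, m3⟩ := id h6
        exact b2_step ih ((hC _).2 ⟨h3, h5.tail h6⟩) hw hv ⟨m1, m2⟩ m3
    exact (key t h1).symm.trans (key t' h2)
  have out : ∀ e ∈ e5B T W C, ∀ k, ∃ c, (c ∈ L k ∨ c ∈ L (!k)) ∧ e.1 ∈ c ∧ e.2 ∈ c := by
    rintro e ⟨e1, e2, ⟨s, hs, m1⟩, s', hs', hs'', m2⟩ k
    refine ⟨s', (e5_or k).1 (by_contra fun hn => hs'' ((hC _).2 ?_)), m2⟩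
    exact b2_step ((hC s).1 hs) ⟨⟨hs', ⟨_, m2.1, e1⟩, _, m2.2, e2⟩, hn⟩ e1 e2 m1 m2
  have ex : ∀ k, ∃ e ∈ e5B T W C, ∃ c ∈ L k, e.1 ∈ c ∧ e.2 ∈ c := by
    intro k
    by_contra hcon
    obtain ⟨τ, hτ, -⟩ := h.touch k
    have all := fjn_all hT h.conn h.acyc hb ht.1 (h.mix k τ hτ)
    have out' : ∀ e ∈ e5B T W C, e ∈ e5B T W (L (!k)) := fun e he => by
      obtain ⟨c, hc | hc, m⟩ := out e he k
      · exact absurd ⟨e, he, c, hc, m⟩ hcon
      · obtain ⟨e1, e2, ⟨s, hs, m1⟩, -⟩ := he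
        exact ⟨e1, e2, ⟨c, hc, m⟩, s, hCT s hs, fun h1 => hCL _ s h1 hs, m1⟩
    obtain ⟨a, ha, b, hb', hbC, w, hw, v, hv, m1, m2⟩ := e5_exit all hC₀ (hCL k τ hτ)
    have h0 : (w, v) ∈ e5B T W C := ⟨hw, hv, ⟨a, ha, m1⟩, b, hb'.1, hbC, m2⟩
    obtain ⟨e', h1, hne⟩ := e5_par hT hb hCT h0
    have two' : (e5B T W (L (!k))).ncard ≤ 2 := fjn_two hT hb (h.mix _) (h.lconn _)
    have hτ' : τ ∉ C ∪ L (!k) := by
      rintro (h2 | h2)
      · exact hCL k τ hτ h2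
      · obtain ⟨-, ⟨x, hx, hxW⟩, -⟩ := h.mix k τ hτ
        exact e5_apart h hτ h2 hxW hx hx
    obtain ⟨a', ha', b', hb'', hbC', x, hx, y, hy, n1, n2⟩ := e5_exit all (.inl hC₀) hτ'
    have h2 : (x, y) ∈ e5B T W C := by
      rcases ha' with ha' | ha'
      · exact ⟨hx, hy, ⟨a', ha', n1⟩, b', hb''.1, fun h2 => hbC' (.inl h2), n2⟩
      · rcases e5_pair two' (out' _ h0) (out' _ h1) hne.symm (c := (x, y))
          ⟨hx, hy, ⟨a', ha', n1⟩, b', hb''.1, fun h2 => hbC' (.inr h2), n2⟩ with e | e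
        exacts [e ▸ h0, e ▸ h1]
    obtain ⟨-, -, ⟨c, hc, n3⟩, -⟩ := out' _ h2
    obtain ⟨-, -, ⟨d, hd, n4⟩, -⟩ := h2
    exact hCL _ c hc (e5_three hT (fun e : x = y => hy (e ▸ hx)) (h.mix _ c hc).1 (hCT d hd) hb''.1
      n3 n4 n2 (fun e => hbC' (.inr (e ▸ hc))) (fun e => hbC' (.inl (e ▸ hd))) ▸ hd)
  obtain ⟨e, he, c, hc, m⟩ := ex i
  obtain ⟨e', he', c', hc', m'⟩ := ex (!i)
  refine ⟨e, ⟨he.1, he.2.1, he.2.2.1.imp fun s hs => ⟨(hC s).1 hs.1, hs.2⟩, c, hc, m⟩, ?_⟩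
  rintro f ⟨f1, f2, ⟨s, hs, n1⟩, d, hd, n2⟩
  have hf : f ∈ e5B T W C :=
    ⟨f1, f2, ⟨s, (hC s).2 hs, n1⟩, d, (h.mix _ d hd).1, hCL _ d hd, n2⟩
  refine (e5_pair two he he' (fun e0 => e5_apart h hc hc' he.1 m.1 (e0 ▸ m'.1)) hf).resolve_right ?_
  exact fun e0 => e5_apart h hd hc' f1 n2.1 (e0 ▸ m'.1)

omit [Fintype V] in
theorem e5_edge_zero {W : Set V} {a b x y : V} (ha : a ∈ W) (hb : b ∉ W) (hx : x ∈ W)
    (hne : (a, b) ≠ (x, y)) : edge a b x y = 0 := by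
  rw [b2_edge ha hb hx, if_neg hne.symm]

omit [Fintype V] [DecidableEq V] in
theorem e5_adj {a b : V} {t : Finset V} {W : Set V} (ht : t ∈ T) (ha : a ∈ t) (hb : b ∈ t)
    (haW : a ∈ W) (hbW : b ∉ W) : Adj T a b :=
  ⟨fun e => hbW (e ▸ haW), t, ht, ha, hb⟩

/-- A side between two edges that vanishes at a third edge. -/
theorem e5_side (hT : IsSurf T) {W : Set V} (hc : Conn T W) (ha : Acyc T W)
    (hb : Disjoint W (Bd T)) {w₀ v₀ w₁ v₁ x y : V} (h0 : w₀ ∈ W) (h0' : v₀ ∉ W)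
    (a0 : Adj T w₀ v₀) (h1 : w₁ ∈ W) (h1' : v₁ ∉ W) (a1 : Adj T w₁ v₁) {s : Finset V}
    (hs : s ∈ T) (hx : x ∈ W) (hy : y ∉ W) (m : x ∈ s ∧ y ∈ s) :
    ∃ L, Side T W L (edge w₀ v₀ + edge w₁ v₁) ∧ L s = 0 := by
  obtain ⟨L, hL⟩ := side_exists hT hc ha hb h0 h0' a0 h1 h1' a1
  by_cases h : L s = 0
  · exact ⟨L, hL, h⟩
  · obtain ⟨L', hL', he⟩ := side_compl hT hb hL
    refine ⟨L', hL', ?_⟩
    rw [he s ⟨hs, ⟨x, m.1, hx⟩, y, m.2, hy⟩, b2_one h]
    rfl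

/-- A side is constant along a joined family that misses one triangle on each end edge. -/
theorem e5_const (hT : IsSurf T) {W : Set V} (hb : Disjoint W (Bd T)) {x y : Bool → V}
    {L : Finset V → ZMod 2} (hL : Side T W L (edge (x false) (y false) + edge (x true) (y true)))
    (hx : ∀ j, x j ∈ W ∧ y j ∉ W) {τ : Bool → Finset V}
    (hτ : ∀ j, τ j ∈ T ∧ x j ∈ τ j ∧ y j ∈ τ j) {A : Set (Finset V)} (hA : ∀ t ∈ A, t ∈ T)
    (hn : ∀ j, τ j ∉ A) {t t' : Finset V} (h : FJn W A t t') : L t = L t' := by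
  obtain ⟨ht, h⟩ := h
  have key : t' ∈ A ∧ L t = L t' := by
    induction h with
    | refl => exact ⟨ht, rfl⟩
    | @tail a b _ hab ih =>
      obtain ⟨hb', w, hw, v, hv, hwa, hva, hwb, hvb⟩ := hab
      refine ⟨hb', ih.2.trans ?_⟩
      by_cases hj : ∃ j, (x j, y j) = (w, v)
      · obtain ⟨j, hj⟩ := hj
        obtain ⟨rfl, rfl⟩ := Prod.mk.inj hj
        have : a = b := e5_three hT (fun e : x j = y j => hv (e ▸ hw)) (hA a ih.1) (hA b hb')
          (hτ j).1 ⟨hwa, hva⟩ ⟨hwb, hvb⟩ (hτ j).2 (fun e => hn j (e ▸ ih.1))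
          (fun e => hn j (e ▸ hb'))
        rw [this]
      · push Not at hj
        refine (side_same hT hb hL hw hv (hA a ih.1) (hA b hb') ⟨hwa, hva⟩ ⟨hwb, hvb⟩).1 ?_
        simp only [Pi.add_apply, e5_edge_zero (hx false).1 (hx false).2 hw (hj false),
          e5_edge_zero (hx true).1 (hx true).2 hw (hj true), add_zero]
  exact key.2

/-- Two triangles of the long sides on which a side between the two ends agrees are joined. -/
theorem e5_join (hT : IsSurf T) {U W : Set V} {L : Bool → Set (Finset V)}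
    (hbd : Disjoint W (Bd T)) (h : Band T F ρ δ S U W L) {w v : Bool → V} {τ : Bool → Finset V}
    (hw : ∀ i, w i ∈ W ∧ v i ∉ W) (hv : ∀ i, v i ∉ U) (hτ : ∀ i, τ i ∈ L i ∧ w i ∈ τ i ∧ v i ∈ τ i)
    {L₀ : Finset V → ZMod 2}
    (hL₀ : Side T W L₀ (edge (w false) (v false) + edge (w true) (v true))) {t t' : Finset V}
    (ht : t ∈ Rest T W L) (ht' : t' ∈ Rest T W L) (e0 : L₀ t = L₀ t') :
    FJn W (Rest T W L) t t' := by
  have hn : ∀ i, t ∉ L i ∧ t' ∉ L i := fun i =>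
    ⟨fun hh => ht.2 ((e5_or i).2 (.inl hh)), fun hh => ht'.2 ((e5_or i).2 (.inl hh))⟩
  obtain ⟨htT, ⟨u, hut, huW⟩, y, hyt, hyW⟩ := id ht.1
  obtain ⟨htT', ⟨u', hut', huW'⟩, y', hyt', hyW'⟩ := id ht'.1
  have auy := e5_adj htT hut hyt huW hyW
  have auy' := e5_adj htT' hut' hyt' huW' hyW'
  have hτT : ∀ i, τ i ∈ T := fun i => (h.mix i _ (hτ i).1).1
  by_cases he : (u, y) = (u', y')
  · obtain ⟨rfl, rfl⟩ := Prod.mk.inj he
    exact b2_step ⟨ht, .refl⟩ ht' huW hyW ⟨hut, hyt⟩ ⟨hut', hyt'⟩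
  have n1 : ∀ i, (w i, v i) ≠ (u, y) := fun i e => hv i ((Prod.mk.inj e).2 ▸
    (h.rest t ht.1 (hn false).1 (hn true).1 y hyt).resolve_left hyW)
  have n2 : ∀ i, (w i, v i) ≠ (u', y') := fun i e => hv i ((Prod.mk.inj e).2 ▸
    (h.rest t' ht'.1 (hn false).2 (hn true).2 y' hyt').resolve_left hyW')
  obtain ⟨L', hL', e3⟩ := e5_side hT h.conn h.acyc hbd huW hyW auy huW' hyW' auy' (hτT false)
    (hw false).1 (hw false).2 (hτ false).2
  have hx : ∀ j : Bool, (bif j then u' else u) ∈ W ∧ (bif j then y' else y) ∉ W := by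
    intro j
    cases j
    · exact ⟨huW, hyW⟩
    · exact ⟨huW', hyW'⟩
  have hrr : ∀ j : Bool, (bif j then t' else t) ∈ T ∧
      (bif j then u' else u) ∈ (bif j then t' else t) ∧
      (bif j then y' else y) ∈ (bif j then t' else t) := by
    intro j
    cases j
    · exact ⟨htT, hut, hyt⟩
    · exact ⟨htT', hut', hyt'⟩
  have e1 := side_inter hT h.conn h.acyc hbd (w := w) (v := v)
    (x := fun j => bif j then u' else u) (y := fun j => bif j then y' else y) hL₀ hL' hw hx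
    (fun i j => by
      cases j
      · exact n1 i
      · exact n2 i) (s := τ) (r := fun j => bif j then t' else t)
    (fun i => ⟨hτT i, (hτ i).2⟩) hrr
  have e2 : ∀ i, L' (τ i) = 0 := by
    intro i
    cases i
    · exact e3
    · simp only [cond_false, cond_true, e0, e3, zero_add] at e1
      rw [e1]
      exact CharTwo.add_self_eq_zero _
  have hsub : {s | s ∈ T ∧ L' s ≠ 0} ⊆ Rest T W L := by
    intro s hs
    have : ∀ i, s ∉ L i := fun i hi => hs.2 ((e5_const hT hbd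
      (x := fun j => bif j then u' else u) (y := fun j => bif j then y' else y) hL' hx hrr
      (fun t ht => (h.mix i t ht).1) (fun j => by
        cases j
        · exact (hn i).1
        · exact (hn i).2) (h.lconn i s hi _ (hτ i).1)).trans (e2 i))
    exact ⟨hL'.1 s hs.1 hs.2, fun hh => hh.elim (this false) (this true)⟩
  obtain ⟨h1, ⟨t₀, ht₀, h2, h3⟩, t₁, ht₁, h4, h5⟩ :=
    side_conn hT h.conn h.acyc hbd hL' huW hyW auy huW' hyW' auy' he
  exact b2_step ((b2_step ⟨ht, .refl⟩ (hsub ⟨ht₀, h2⟩) huW hyW ⟨hut, hyt⟩ h3).trans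
    ((h1 t₀ ⟨ht₀, h2⟩ t₁ ⟨ht₁, h4⟩).mono hsub)) ht' huW' hyW' h5 ⟨hut', hyt'⟩

theorem e5_long {Fr X : Set V} {Z : Bool → Set V} (h : Axis T F ρ r S Fr X Z) (i : Bool)
    {K : Set V} (hK : Pc T F Fr r K) (h1 : (K ∩ Z i).Nonempty) : ¬ (K ∩ Z (!i)).Nonempty := by
  cases i
  · exact h.long K hK h1
  · exact fun h2 => h.long K hK h2 h1

/-- Two small sets that meet one triangle. -/
theorem e5_union (hF : Sad T F ω) {U K K' : Set V} {a b : ℝ} (hK : Pc T F U a K)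
    (hK' : Pc T F U b K') {t : Finset V} (ht : t ∈ T) {x y : V} (hx : x ∈ t) (hy : y ∈ t)
    (h1 : x ∈ K) (h2 : y ∈ K') : Pc T F U (a + b + ω) (K ∪ K') := by
  by_cases e : x = y
  · have := hK.union hK' ⟨x, h1, e ▸ h2⟩
    exact this.mono this.1 (le_add_of_nonneg_right hF.nonneg)
  · exact hK.union_adj hF hK' ⟨x, h1, y, h2, e, t, ht, hx, hy⟩

theorem e5_sub (h : Pre T F S Y W L N ρ r r' B₀ root X Z) {j : Fin m} {K : Set V}
    (hK : Pc T F (S ∪ Y)ᶜ (r' / 5) K) (hX : (K ∩ X j).Nonempty) : K ⊆ W j := fun u hu =>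
  h.eq j ▸ subset_hull ⟨K, hK, hu, hX⟩

theorem e5_in (h : Pre T F S Y W L N ρ r r' B₀ root X Z) {j : Fin m} {a b : V} (ha : a ∈ W j)
    (hb : b ∉ W j) (hab : Adj T a b) :
    ∃ K, Pc T F (S ∪ Y)ᶜ (r' / 5) K ∧ a ∈ K ∧ (K ∩ X j).Nonempty := by
  by_contra hn
  rw [h.eq j] at ha hb
  exact hb (hull_adj ha hn hab)

theorem e5_XW (h : Pre T F S Y W L N ρ r r' B₀ root X Z) (j : Fin m) : X j ⊆ W j := fun x hx =>
  e5_sub h (pc_single ((h.inv.axis j).sub hx) (by linarith [h.pos])) ⟨x, rfl, hx⟩ rfl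

theorem e5_rest (h1 : Sk1 T F S Y lab W L z N' ρ' δ) {j : Fin m} {t : Finset V}
    (ht : t ∈ Rest T (W j) (L j)) {y : V} (hy : y ∈ t) (hy' : y ∉ W j) : y ∈ Uu S Y W :=
  ((h1.band j).rest t ht.1 (fun h => ht.2 (.inl h)) (fun h => ht.2 (.inr h)) y hy).resolve_left hy'

theorem e5_bd (h1 : Sk1 T F S Y lab W L z N' ρ' δ) (j : Fin m) : Disjoint (W j) (Bd T) :=
  disjoint_left.2 fun u hu hb => disjoint_left.1 (h1.out j) hu (.inl (h1.bd u hb).1)

/-- A small set outside the classes meets one long side only. Plan: `K` misses `X j`. Fix edges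
from the zones to `S` and a chain `p` in `X j` between them. `side_exists` and `side_ext` for the
acyclic set `O` of `Axis.disc` give `Q` with known boundary at all vertices of `O ⊇ K ∪ W j`;
`status_jn` along `K`. Then as in the last part of `Axis.band` (`b12_side`, `b12_const`,
`side_inter`, `side_conn`). -/
theorem Pre.wide (hT : IsSurf T) (hF : Sad T F ω) (hω : 20 * ω ≤ r')
    (h : Pre T F S Y W L N ρ r r' B₀ root X Z) (h1 : Sk1 T F S Y lab W L z N' ρ' δ) {K : Set V}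
    (hK : Pc T F (S ∪ Y)ᶜ (r' / 20) K) {j : Fin m} {t t' : Finset V}
    (ht : t ∈ Rest T (W j) (L j)) (ht' : t' ∈ Rest T (W j) (L j)) (m1 : ∃ v ∈ t, v ∈ K)
    (m2 : ∃ v ∈ t', v ∈ K) : Disjoint K (X j) ∧ FJn (W j) (Rest T (W j) (L j)) t t' := by
  classical
  have hω0 := hF.nonneg
  have hr' : 0 ≤ r' := h.pos
  have hle : 10 * r' ≤ r := h.le
  have hA := h.inv.axis j
  have hB := h1.band j
  have hWF : W j ⊆ (S ∪ Y)ᶜ := disjoint_left.1 (h1.out j)
  have hXW := e5_XW h j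
  obtain ⟨k, hkt, hkK⟩ := m1
  obtain ⟨k', hkt', hkK'⟩ := m2
  obtain ⟨htT, ⟨u, hut, huW⟩, y, hyt, hyW⟩ := id ht.1
  have hKX : Disjoint K (X j) := disjoint_left.2 fun x hx hxX => by
    have := e5_union hF hK (pc_single (U := (S ∪ Y)ᶜ)
      (fun hh => e5_rest h1 ht hyt hyW (.inl hh)) le_rfl) htT hkt hyt hkK rfl
    exact hyW (e5_sub h (this.mono this.1 (by linarith only [hω, hω0])) ⟨x, .inl hx, hxX⟩ (.inr rfl))
  refine ⟨hKX, ?_⟩
  obtain ⟨O, hO⟩ : ∃ O, O = hull T S (nb T F (S ∪ Y)ᶜ r (X j)) := ⟨_, rfl⟩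
  have hbS : Bd T ⊆ S := fun v hv => (h1.bd v hv).1
  have hOa : Acyc T O := hO ▸ hA.disc
  have hOc : Conn T O := hO ▸ hull_conn hT (hT.bd.mono hbS) (nb_conn hA.sub (by linarith only [hω, hω0, hle]) hA.conn)
  have hOS : Disjoint O S :=
    hO ▸ hull_disj (disjoint_left.2 fun u hu hS => nb_sub hu (Or.inl hS))
  have hWO : W j ⊆ O := by
    rw [h.eq j, hO]
    rintro v hv ⟨s, hs, hj⟩
    refine hv ⟨s, hs, hj.mono (compl_subset_compl.2 ?_)⟩
    rintro x ⟨K, hK, hx, hX⟩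
    exact ⟨K, hK.mono hK.1 (by linarith), hx, hX⟩
  have hKO : K ⊆ O := fun x hx => by
    obtain ⟨K₁, hK₁, huK, c, hc⟩ := e5_in h huW hyW (e5_adj htT hut hyt huW hyW)
    have := e5_union hF hK hK₁ htT hkt hut hkK huK
    exact hO ▸ subset_hull ⟨_, this.mono this.1 (by linarith), .inl hx, c, .inr hc.1, hc.2⟩
  choose w hw v hv hwv using fun i => (hA.zone i).2.2.2.2
  have hwX : ∀ i, w i ∈ X j := fun i => (hA.zone i).1 (hw i)
  have hwW : ∀ i, w i ∈ W j := fun i => hXW (hwX i)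
  have hvO : ∀ i, v i ∉ O := fun i hh => disjoint_left.1 hOS hh (hv i)
  have hvW : ∀ i, v i ∉ W j := fun i hh => hvO i (hWO hh)
  have hvU : ∀ i, v i ∉ Uu S Y W := fun i hh => hh (.inl (.inl (hv i)))
  choose τ hτ hwτ hvτ using fun i => (hwv i).2
  have hτL : ∀ i, τ i ∈ L j i := fun i => by
    have h2 : τ i ∈ L j false ∪ L j true := by_contra fun hn => hvU i
      (e5_rest h1 ⟨⟨hτ i, ⟨_, hwτ i, hwW i⟩, _, hvτ i, hvW i⟩, hn⟩ (hvτ i) (hvW i))
    refine ((e5_or i).1 h2).resolve_right fun h3 => ?_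
    obtain ⟨K', -, h4, -, h5⟩ := h.close j _ _ h3 _ (hwτ i) (hwW i)
    exact e5_long hA i (pc_single (hWF (hwW i)) (by linarith)) ⟨_, rfl, hw i⟩
      ⟨_, rfl, h5 ⟨h4, hwX i⟩⟩
  obtain ⟨L₁, hL₁⟩ := side_exists hT hOc hOa (hOS.mono_right hbS) (hWO (hwW false)) (hvO false)
    (hwv false) (hWO (hwW true)) (hvO true) (hwv true)
  obtain ⟨p, hp, hd⟩ := (hA.conn _ (hwX false) _ (hwX true)).fill
  obtain ⟨Q, -, hQ⟩ := side_ext hT hOa hL₁ (hWO (hwW false)) (hvO false) (hWO (hwW true))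
    (hvO true) (hp.mono (hXW.trans hWO)) hd
  have e0 : Q t = Q t' := by
    refine status_jn hT (fun x hx a => ?_) (hK.2.1 k hkK k' hkK') htT ht'.1.1 hkt hkt'
    have n0 : ∀ i, edge (w i) (v i) a x = 0 := fun i => by
      rw [b2_esymm]
      exact e5_edge_zero (hWO (hwW i)) (hvO i) (hKO hx) fun e =>
        disjoint_left.1 hKX hx ((Prod.mk.inj e).1 ▸ hwX i)
    have n1 : p a x = 0 := by_contra fun hne => disjoint_left.1 hKX hx (hp.2 a x hne).2.1
    rw [hQ x (hKO hx) a]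
    simp only [Pi.add_apply, n0, n1, add_zero]
  refine e5_join hT (e5_bd h1 j) hB (fun i => ⟨hwW i, hvW i⟩) hvU
    (fun i => ⟨hτL i, hwτ i, hvτ i⟩) (L₀ := fun s => if Mixed T (W j) s then Q s else 0)
    ⟨fun s _ h0 => by_contra fun hn => h0 (if_neg hn), fun a ha b hb => ?_⟩ ht ht' ?_
  · have e1 : d2 T (fun s => if Mixed T (W j) s then Q s else 0) a b = d2 T Q a b :=
      if_congr Iff.rfl rfl (Finset.sum_congr rfl fun s hs => by
        obtain ⟨h2, h3, h4⟩ := Finset.mem_filter.1 hs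
        exact if_pos ⟨h2, ⟨a, h3, ha⟩, b, h4, hb⟩)
    have n1 : p b a = 0 := by_contra fun hne => hb (hXW (hp.2 b a hne).1)
    rw [e1, b2_symm, hQ a (hWO ha) b]
    simp only [Pi.add_apply, n1, zero_add, b2_esymm _ _ b a]
  · exact ((if_pos ht.1).trans e0).trans (if_pos ht'.1).symm

/-- A 2-chain vanishes at a corner far from its boundary. Plan: suppose `Q c = 1`. The triangles
`t` of the long side with `Q t = 1` all of whose vertices in `W j` are joined to `Z j i` by a set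
of size `2 r' / 5` in `W j` form a set closed under `FJn` steps: a new vertex is joined to `X j` by
a set of size `r' / 5` (`hull_adj`), which meets `Z j i`, or else reaches the middle of `X j`
outside `G ∪ Zs S Z`, where `Q` vanishes (`status_jn`). The other corner (`Band.corner`)
contradicts `Axis.long`. -/
theorem Pre.far_zero (hT : IsSurf T) (hF : Sad T F ω) (hω : 20 * ω ≤ r')
    (h : Pre T F S Y W L N ρ r r' B₀ root X Z) (h1 : Sk1 T F S Y lab W L z N' ρ' δ) {G : Set V}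
    {Q : Finset V → ZMod 2} (hQ : ∀ v, v ∉ G ∪ Zs S Z → ∀ u, d2 T Q u v = 0)
    (h0 : ∀ t ∈ T, (∃ v ∈ t, v ∈ Md X Z) → Q t = 0) {j : Fin m} {i : Bool}
    (hG : ∀ K, Pc T F (S ∪ Y)ᶜ r' K → (K ∩ G).Nonempty → ¬ (K ∩ Z j i).Nonempty)
    {c t : Finset V} (hc : c ∈ L j i) (ht : t ∈ Rest T (W j) (L j)) {w u : V} (hw : w ∈ W j)
    (hu : u ∉ W j) (h2 : w ∈ c ∧ u ∈ c) (h3 : w ∈ t ∧ u ∈ t) : Q c = 0 := by
  have hω0 := hF.nonneg
  have hr' : 0 ≤ r' := h.pos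
  have hle : 10 * r' ≤ r := h.le
  have hA := h.inv.axis j
  have hWF : W j ⊆ (S ∪ Y)ᶜ := disjoint_left.1 (h1.out j)
  by_contra hc0
  obtain ⟨P, hP⟩ : ∃ P : Finset V → Prop, ∀ a, P a ↔ a ∈ T ∧ Q a ≠ 0 ∧ ∀ x ∈ a, x ∈ W j →
      ∃ K, Pc T F (S ∪ Y)ᶜ (2 * r' / 5) K ∧ x ∈ K ∧ (K ∩ Z j i).Nonempty := ⟨_, fun _ => Iff.rfl⟩
  have step : ∀ a b x y, P a → b ∈ Rest T (W j) (L j) → x ∈ W j → y ∉ W j → x ∈ a ∧ y ∈ a →
      x ∈ b ∧ y ∈ b → P b := by
    intro a b x y ha hb hx hy m1 m2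
    obtain ⟨haT, ha0, ha1⟩ := (hP a).1 ha
    obtain ⟨K, hK, hxK, hKZ⟩ := ha1 x m1.1 hx
    have hyU := e5_rest h1 hb m2.2 hy
    have hb0 : Q b ≠ 0 := by
      refine status hT (hQ y ?_) haT hb.1.1 m1.2 m2.2 ▸ ha0
      rintro (hh | hh | hh)
      · have := e5_union hF hK (pc_single (U := (S ∪ Y)ᶜ) (fun hh => hyU (.inl hh)) le_rfl) haT
          m1.1 m1.2 hxK rfl
        exact hG _ (this.mono this.1 (by linarith only [hω, hω0])) ⟨y, .inr rfl, hh⟩
          (hKZ.mono (inter_subset_inter_left _ subset_union_left))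
      · exact hyU (.inl (.inl hh))
      · obtain ⟨k, hk⟩ := mem_iUnion.1 hh
        refine hyU (.inr (mem_iUnion.2 ⟨k, e5_XW h k ?_⟩))
        exact hk.elim (fun hk => ((h.inv.axis k).zone false).1 hk)
          fun hk => ((h.inv.axis k).zone true).1 hk
    refine (hP b).2 ⟨hb.1.1, hb0, fun x' hx' hxW => ?_⟩
    obtain ⟨K₁, hK₁, h4, c', h5, h6⟩ := e5_in h hxW hy (e5_adj hb.1.1 hx' m2.2 hxW hy)
    refine ⟨K₁, hK₁.mono hK₁.1 (by linarith only [hω, hω0]), h4, by_contra fun hn => hb0 ?_⟩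
    have hU := e5_union hF hK hK₁ hb.1.1 m2.1 hx' hxK h4
    have hUZ : ((K ∪ K₁) ∩ Z j i).Nonempty :=
      hKZ.mono (inter_subset_inter_left _ subset_union_left)
    have hZ : ∀ k ∈ K₁, k ∉ Z j false ∪ Z j true := fun k hk hh => by
      have h7 : k ∈ Z j i ∨ k ∈ Z j (!i) := by
        cases i
        · exact hh
        · exact Or.symm hh
      rcases h7 with h7 | h7
      · exact hn ⟨k, hk, h7⟩
      · exact e5_long hA i (hU.mono hU.1 (by linarith)) hUZ ⟨k, .inr hk, h7⟩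
    obtain ⟨s, hs, hcs⟩ := hT.used c'
    refine (status_jn hT (fun k hk => hQ k ?_) (hK₁.2.1 x' h4 c' h5) hb.1.1 hs hx' hcs).trans
      (h0 s hs ⟨c', hcs, mem_iUnion.2 ⟨j, h6, hZ c' h5⟩⟩)
    rintro (hh | hh | hh)
    · exact hG _ (hU.mono hU.1 (by linarith)) ⟨k, .inr hk, hh⟩ hUZ
    · exact hK₁.1 hk (.inl hh)
    · obtain ⟨l, hl⟩ := mem_iUnion.1 hh
      by_cases e : j = l
      · exact hZ k hk (e ▸ hl)
      · refine h.inv.sep j l e K₁ (hK₁.mono hK₁.1 (by linarith only [hω, hω0, hle])) ⟨c', h5, h6⟩ ⟨k, hk, ?_⟩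
        exact hl.elim (fun hl => ((h.inv.axis l).zone false).1 hl)
          fun hl => ((h.inv.axis l).zone true).1 hl
  have hPc : P c := (hP c).2 ⟨((h1.band j).mix i c hc).1, hc0, fun x hx hxW => by
    obtain ⟨K, hK, h4, h5, -⟩ := h.close j i c hc x hx hxW
    exact ⟨K, hK.mono (hK.1.trans hWF) le_rfl, h4, h5⟩⟩
  obtain ⟨e, ⟨e1, -, ⟨t₁, ⟨-, hj⟩, m1⟩, c₁, hc₁, m2⟩, -⟩ :=
    (h1.band j).corner hT (e5_bd h1 j) ht (!i)
  have hP₁ : P t₁ := by
    clear m1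
    induction hj with
    | refl => exact step c t w u hPc ht hw hu h2 h3
    | tail _ h4 ih =>
      obtain ⟨h5, x, hx, y, hy, n1, n2, n3⟩ := h4
      exact step _ _ x y ih h5 hx hy ⟨n1, n2⟩ n3
  obtain ⟨K, hK, h4, h5⟩ := ((hP t₁).1 hP₁).2.2 _ m1.1 e1
  obtain ⟨K', hK', h6, h7, -⟩ := h.close j _ c₁ hc₁ _ m2.1 e1
  have := hK.union (hK'.mono (hK'.1.trans hWF) le_rfl) ⟨_, h4, h6⟩
  exact e5_long hA i (this.mono this.1 (by linarith))
    (h5.mono (inter_subset_inter_left _ subset_union_left))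
    (h7.mono (inter_subset_inter_left _ subset_union_right))

theorem e5_notY (h : Sk1 T F S Y lab W L z N ρ δ) {t : Finset V} (ht : t ∈ T) {u x : V}
    (hu : u ∈ Uu S Y W) (hut : u ∈ t) (hx : x ∈ t) : x ∉ Y := fun hY => by
  obtain ⟨a, b, hab⟩ := h.tube x hY
  have h1 : u ∉ Y := fun hh => hu (.inl (.inr hh))
  exact hu (.inl (.inl (hab x (Jn.refl hY) u h1 (e5_adj ht hx hut hY h1)).1))

theorem e5_corner (h : Sk1 T F S Y lab W L z N ρ δ) {j : Fin m} {i : Bool}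
    (hz : z j i ∉ Bd T) {c : Finset V} (hc : c ∈ L j i) {u : V} (hu : u ∈ c)
    (hU : u ∈ Uu S Y W) : c ∈ FT T S Y lab W L z := by
  obtain ⟨hcT, ⟨w, hwc, hwW⟩, -⟩ := (h.band j).mix i c hc
  refine ⟨⟨hcT, ⟨u, hu, hU⟩, w, hwc, fun hh => hh (.inr (mem_iUnion.2 ⟨j, hwW⟩))⟩,
    fun x hx hxU => ?_⟩
  rcases not_not.1 hxU with (hh | hh) | hh
  · exact .inl ⟨hh, h.free_L j i c hc x hx hh (.inr hz) ▸ hz⟩
  · exact absurd hh (e5_notY h hcT hU hu hx)
  · obtain ⟨k, hk⟩ := mem_iUnion.1 hh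
    by_cases e : j = k
    · exact .inr ⟨j, i, hz, e ▸ hk, hc⟩
    · exact absurd ⟨w, hwW, x, hk, e5_adj hcT hwc hx hwW
        (disjoint_right.1 (h.sep j k e).1 hk)⟩ (h.sep j k e).2

/-- A triangle next to a free triangle is free or lies on a long side. -/
theorem Sk1.ft_step (hT : IsSurf T) (h : Sk1 T F S Y lab W L z N ρ δ) {t t' : Finset V}
    (ht : t ∈ FT T S Y lab W L z) (ht' : t' ∈ T) {u v : V} (hu : u ∈ Uu S Y W)
    (hv : v ∉ Uu S Y W) (h1 : u ∈ t ∧ v ∈ t) (h2 : u ∈ t' ∧ v ∈ t')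
    (hr : ∀ j, t' ∉ Rest T (W j) (L j)) : t' ∈ FT T S Y lab W L z := by
  have _ := hT
  have hL : ∀ k, ∀ x ∈ t', x ∈ W k → t' ∈ L k false ∪ L k true := fun k x hx hk =>
    by_contra fun hn => hr k ⟨⟨ht', ⟨x, hx, hk⟩, u, h2.1,
      fun hh => hu (.inr (mem_iUnion.2 ⟨k, hh⟩))⟩, hn⟩
  rcases ht.2 v h1.2 hv with ⟨hS, hl⟩ | ⟨j, i, hz, hW, hc⟩
  · refine ⟨⟨ht', ⟨u, h2.1, hu⟩, v, h2.2, hv⟩, fun x hx hxU => ?_⟩
    rcases not_not.1 hxU with (hh | hh) | hh
    · by_cases e : v = x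
      · exact .inl ⟨hh, e ▸ hl⟩
      · exact .inl ⟨hh, h.free_adj v hS hl x hh ⟨e, t', ht', h2.2, hx⟩ ▸ hl⟩
    · exact absurd hh (e5_notY h ht' hu h2.1 hx)
    · obtain ⟨k, hk⟩ := mem_iUnion.1 hh
      rcases hL k x hx hk with h3 | h3
      · exact .inr ⟨k, false, h.free_L k _ t' h3 v h2.2 hS (.inl hl) ▸ hl, hk, h3⟩
      · exact .inr ⟨k, true, h.free_L k _ t' h3 v h2.2 hS (.inl hl) ▸ hl, hk, h3⟩
  · exact e5_corner h hz (((e5_or i).1 (hL j v h2.2 hW)).resolve_right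
      fun h3 => e5_apart (h.band j) hc h3 hW h1.2 h2.2) h2.1 hu

/-- A corner at a free end is free. -/
theorem Sk1.ft_corner (hT : IsSurf T) (h : Sk1 T F S Y lab W L z N ρ δ) {j : Fin m} {i : Bool}
    (hz : z j i ∉ Bd T) {c : Finset V} (hc : c ∈ L j i) {u : V} (hu : u ∈ c)
    (hU : u ∈ Uu S Y W) : c ∈ FT T S Y lab W L z := by
  have _ := hT
  exact e5_corner h hz hc hu hU

end Pool.Agent.MP_17e62b_gt.T55

end

section

/-!
A small set meets one class only.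
-/

namespace Pool.Agent.MP_17e62b_gt.T55

open Set Metric Topology
open scoped InnerProductSpace Manifold

variable {V : Type} [Fintype V] [DecidableEq V] {T : Finset (Finset V)}
variable {n : ℕ} {F : V → EuclideanSpace ℝ (Fin n)}

variable {N N' m : ℕ} {ω ρ ρ' r r' δ : ℝ} {B₀ S Y : Set V} {root lab : V → V}
  {X W : Fin m → Set V} {Z : Fin m → Bool → Set V} {L : Fin m → Bool → Set (Finset V)}
  {z : Fin m → Bool → V}

/-- A small set outside classes and tubes meets one zone only. -/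
theorem e6_zone (h : Inv T F N ρ r B₀ S Y root m X Z) {K : Set V} (hK : Pc T F (S ∪ Y)ᶜ r K)
    {j k : Fin m} {i i' : Bool} {x y : V} (hx : x ∈ K) (hy : y ∈ K) (hx' : x ∈ Z j i)
    (hy' : y ∈ Z k i') : j = k ∧ i = i' := by
  obtain rfl : j = k := by
    by_contra hne
    exact h.sep j k hne K hK ⟨x, hx, ((h.axis j).zone i).1 hx'⟩ ⟨y, hy, ((h.axis k).zone i').1 hy'⟩
  refine ⟨rfl, ?_⟩
  cases i <;> cases i'
  · rfl
  · exact absurd ⟨y, hy, hy'⟩ ((h.axis j).long K hK ⟨x, hx, hx'⟩)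
  · exact absurd ⟨x, hx, hx'⟩ ((h.axis j).long K hK ⟨y, hy, hy'⟩)
  · rfl

omit [Fintype V] [DecidableEq V] in
theorem e6_mem {v : V} : v ∈ Zs S Z ↔ v ∈ S ∨ ∃ j i, v ∈ Z j i := by
  simp only [Zs, mem_union, mem_iUnion, Bool.exists_bool]

theorem e6_fr (h : Inv T F N ρ r B₀ S Y root m X Z) {j : Fin m} {i : Bool} {v : V}
    (hv : v ∈ Z j i) : v ∈ (S ∪ Y)ᶜ :=
  (h.axis j).sub (((h.axis j).zone i).1 hv)

/-- An excursion outside `Zs S Z` returns to the same component. -/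
theorem e6_exc (hT : IsSurf T) (h : Inv T F N ρ r B₀ S Y root m X Z) (h0 : 0 ≤ r)
    (hs : Sep T F (Md X Z) (Zs S Z) (r / 4)) {G : Set V} (hG : Small F (r / 4) G) {b u x y : V}
    (hb : b ∈ Zs S Z) (hy : y ∈ Zs S Z) (hb' : b ∈ G) (hy' : y ∈ G) (a : Adj T b u)
    (a' : Adj T x y) (hj : Jn T (G \ Zs S Z) u x) : Jn T (Zs S Z) b y := by
  have hc := conn_comp (T := T) (G \ Zs S Z) u
  set K : Set V := {v | Jn T (G \ Zs S Z) u v} with hK
  have hu : u ∈ K := Jn.refl hj.1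
  have hx : x ∈ K := hj
  have hsub : K ⊆ G \ Zs S Z := fun v hv => Jn.right hv
  have hsm : Small F (r / 4) K := fun v hv w hw => hG v (hsub hv).1 w (hsub hw).1
  by_cases hm : (K ∩ Md X Z).Nonempty
  · obtain ⟨w, hw, hw'⟩ := hm
    obtain ⟨j, hwX, hwZ⟩ := mem_iUnion.1 hw'
    have hS : ∀ v ∈ K, v ∉ S := fun v hv hS => (hsub hv).2 (e6_mem.2 (.inl hS))
    have hY : ∀ v ∈ K, v ∉ Y := fun v hv hY => by
      have hwY : w ∉ Y := fun hh => (h.axis j).sub hwX (.inr hh)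
      obtain ⟨p, q, h1, h2, h3, h4⟩ := (hc v hv w hw).exit hY hwY
      obtain ⟨c, d, h5⟩ := h.base.tube p h1.right.2
      exact hS q h2 (h5 p (Jn.refl h1.right.2) q h3 h4).1
    have hKf : K ⊆ (S ∪ Y)ᶜ := fun v hv hh => hh.elim (hS v hv) (hY v hv)
    have hr : r / 4 ≤ r := by linarith
    have hP : Pc T F (S ∪ Y)ᶜ r K := ⟨hKf, hc, fun v hv w hw => (hsm v hv w hw).trans hr⟩
    have hnt : ¬ Tch T K S := fun ht => hwZ ((h.axis j).near K hP ht ⟨hw, hwX⟩)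
    obtain ⟨k, i, hbZ⟩ := (e6_mem.1 hb).resolve_left fun hh => hnt ⟨u, hu, b, hh, a.symm⟩
    obtain ⟨k', i', hyZ⟩ := (e6_mem.1 hy).resolve_left fun hh => hnt ⟨x, hx, y, hh, a'⟩
    have c1 : Conn T ({b} : Set V) := by
      rintro _ rfl _ rfl
      exact Jn.refl rfl
    have c2 : Conn T ({y} : Set V) := by
      rintro _ rfl _ rfl
      exact Jn.refl rfl
    have hG' : K ∪ {b} ∪ {y} ⊆ G :=
      union_subset (union_subset (fun v hv => (hsub hv).1) (singleton_subset_iff.2 hb'))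
        (singleton_subset_iff.2 hy')
    have hP' : Pc T F (S ∪ Y)ᶜ r (K ∪ {b} ∪ {y}) :=
      ⟨union_subset (union_subset hKf (singleton_subset_iff.2 (e6_fr h hbZ)))
        (singleton_subset_iff.2 (e6_fr h hyZ)),
        (hc.union c1 (.inr ⟨u, hu, b, rfl, a.symm⟩)).union c2 (.inr ⟨x, .inl hx, y, rfl, a'⟩),
        fun v hv w hw => (hG v (hG' hv) w (hG' hw)).trans hr⟩
    obtain ⟨rfl, rfl⟩ := e6_zone h hP' (.inl (.inr rfl)) (.inr rfl) hbZ hyZ
    exact (((h.axis k).zone i).2.1 b hbZ y hyZ).mono fun v hv => e6_mem.2 (.inr ⟨k, i, hv⟩)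
  · have hP : Pc T F (Zs S Z ∪ Md X Z)ᶜ (r / 4) K :=
      ⟨fun v hv hh => hh.elim (hsub hv).2 fun h2 => hm ⟨v, hv, h2⟩, hc, hsm⟩
    obtain ⟨p, hp, hd⟩ := (hc u hu x hx).fill
    obtain ⟨Q, c, hc1, hc2, -⟩ := hs K hP u hu x hx b hb y hy a a' p hp hd
    refine jn_of_chain hb hc1 ?_
    have := congrArg d1 hc2
    rw [d1_add, d1_add, d1_add, d1_edge, d1_edge, hd, ends_add, ends_add, d1_d2 hT, zero_add] at this
    exact this.symm

/-- Two vertices of `Zs S Z` in a small connected set are joined in `Zs S Z`. -/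
theorem e6_jn (hT : IsSurf T) (h : Inv T F N ρ r B₀ S Y root m X Z) (h0 : 0 ≤ r)
    (hs : Sep T F (Md X Z) (Zs S Z) (r / 4)) {G : Set V} (hG : Small F (r / 4) G) {x y : V}
    (hx : x ∈ Zs S Z) (hy : y ∈ Zs S Z) (hj : Jn T G x y) : Jn T (Zs S Z) x y := by
  have key : (y ∈ Zs S Z ∧ Jn T (Zs S Z) x y) ∨ ∃ b ∈ G, Jn T (Zs S Z) x b ∧ ∃ u, Adj T b u ∧
      Jn T (G \ Zs S Z) u y := by
    clear hy
    obtain ⟨h1, h2⟩ := hj
    induction h2 with
    | refl => exact .inl ⟨hx, Jn.refl hx⟩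
    | @tail p q h3 h4 ih =>
      have hp : p ∈ G := Jn.right ⟨h1, h3⟩
      by_cases hq : q ∈ Zs S Z
      · refine .inl ⟨hq, ?_⟩
        rcases ih with ⟨-, h5⟩ | ⟨b, hb, h5, u, h6, h7⟩
        · exact h5.step hq h4.2
        · exact h5.trans (e6_exc hT h h0 hs hG h5.right hq hb h4.1 h6 h4.2 h7)
      · refine .inr ?_
        rcases ih with ⟨-, h5⟩ | ⟨b, hb, h5, u, h6, h7⟩
        · exact ⟨p, hp, h5, q, h4.2, Jn.refl ⟨h4.1, hq⟩⟩
        · exact ⟨b, hb, h5, u, h6, h7.step ⟨h4.1, hq⟩ h4.2⟩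
  rcases key with ⟨-, h5⟩ | ⟨b, -, -, u, -, h7⟩
  · exact h5
  · exact absurd hy h7.right.2

/-- The label of a vertex of `Zs S Z`. -/
def e6_HL (S : Set V) (lab : V → V) (Z : Fin m → Bool → Set V) (z : Fin m → Bool → V) (a v : V) :
    Prop :=
  (v ∈ S ∧ lab v = a) ∨ ∃ j i, v ∈ Z j i ∧ z j i = a

theorem e6_uniq (h : Inv T F N ρ r B₀ S Y root m X Z) (h0 : 0 ≤ r) {a a' v : V}
    (h1 : e6_HL S lab Z z a v) (h2 : e6_HL S lab Z z a' v) : a = a' := by
  rcases h1 with ⟨h1, rfl⟩ | ⟨j, i, h1, rfl⟩ <;> rcases h2 with ⟨h2, rfl⟩ | ⟨k, i', h2, rfl⟩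
  · rfl
  · exact absurd (.inl h1) (e6_fr h h2)
  · exact absurd (.inl h2) (e6_fr h h1)
  · obtain ⟨rfl, rfl⟩ := e6_zone h (pc_single (e6_fr h h1) h0) rfl rfl h1 h2
    rfl

/-- A triangle with a vertex in a zone and a vertex in `S` lies in the end of the band. -/
theorem e6_tri (h : Pre T F S Y W L N ρ r r' B₀ root X Z) (h1 : Sk1 T F S Y lab W L z N' ρ' δ)
    {j : Fin m} {i : Bool} {t : Finset V} (ht : t ∈ T) {v s : V} (hv : v ∈ t) (hs : s ∈ t)
    (hv' : v ∈ Z j i) (hs' : s ∈ S) : t ∈ L j i := by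
  have h0 := h.pos
  have h2 := h.le
  have hX : v ∈ X j := ((h.inv.axis j).zone i).1 hv'
  have hW : v ∈ W j := by
    rw [h.eq j]
    exact subset_hull (sub_nb (h.inv.axis j).sub (by linarith) hX)
  have hsW : ∀ k, s ∉ W k := fun k hh => disjoint_left.1 (h1.out k) hh (.inl hs')
  obtain ⟨i', hi⟩ : ∃ i', t ∈ L j i' := by
    by_contra hn
    rcases (h1.band j).rest t ⟨ht, ⟨v, hv, hW⟩, s, hs, hsW j⟩ (fun hh => hn ⟨_, hh⟩)
      (fun hh => hn ⟨_, hh⟩) s hs with h3 | h3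
    · exact hsW j h3
    · exact h3 (.inl (.inl hs'))
  obtain ⟨K, -, h3, -, h4⟩ := h.close j i' t hi v hv hW
  obtain ⟨-, rfl⟩ := e6_zone h.inv (pc_single (e6_fr h.inv hv') (by linarith)) rfl rfl hv'
    (h4 ⟨h3, hX⟩)
  exact hi

/-- A free label does not change along an edge. -/
theorem e6_edge (hF : Sad T F ω) (hω : 20 * ω ≤ r') (h : Pre T F S Y W L N ρ r r' B₀ root X Z)
    (h1 : Sk1 T F S Y lab W L z N' ρ' δ) {a v w : V} (ha : a ∉ Bd T) (hv : e6_HL S lab Z z a v)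
    (hw : w ∈ Zs S Z) (hj : Adj T v w) : e6_HL S lab Z z a w := by
  have h0 := h.pos
  have h2 := h.le
  have h3 := hF.nonneg
  obtain ⟨t, ht, hvt, hwt⟩ := hj.2
  rcases hv with ⟨hv, rfl⟩ | ⟨j, i, hv, rfl⟩ <;> rcases e6_mem.1 hw with hw | ⟨k, i', hw⟩
  · exact .inl ⟨hw, h1.free_adj v hv ha w hw hj⟩
  · exact .inr ⟨k, i', hw,
      (h1.free_L k i' t (e6_tri h h1 ht hwt hvt hw hv) v hvt hv (.inl ha)).symm⟩
  · exact .inl ⟨hw, h1.free_L j i t (e6_tri h h1 ht hvt hwt hv hw) w hwt hw (.inr ha)⟩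
  · have hP := ((pc_single (F := F) (T := T) (e6_fr h.inv hv) le_rfl).union_adj hF
      (pc_single (e6_fr h.inv hw) le_rfl) ⟨v, rfl, w, rfl, hj⟩)
    obtain ⟨rfl, rfl⟩ := e6_zone h.inv (hP.mono hP.1 (by linarith)) (.inl rfl) (.inr rfl) hv hw
    exact .inr ⟨j, i, hw, rfl⟩

theorem e6_own (h : Pre T F S Y W L N ρ r r' B₀ root X Z) {a v : V}
    (hv : v ∈ Own S lab W L z a) : ∃ K, Pc T F univ (2 * r' / 5) K ∧ v ∈ K ∧
      ∃ w ∈ K, w ∈ Zs S Z ∧ e6_HL S lab Z z a w := by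
  have h0 := h.pos
  rcases hv with hv | ⟨j, i, hz, hW, t, ht, hv⟩
  · exact ⟨{v}, pc_single trivial (by linarith), rfl, v, rfl, e6_mem.2 (.inl hv.1), .inl hv⟩
  · obtain ⟨K, h1, h2, ⟨w, h3, h4⟩, -⟩ := h.close j i t ht v hv hW
    exact ⟨K, h1.mono (subset_univ _) le_rfl, h2, w, h3, e6_mem.2 (.inr ⟨j, i, h4⟩),
      .inr ⟨j, i, h4, hz⟩⟩

/-- Plan: add the sets of `Pre.close` to get a connected set of size at most `r / 4` through two
vertices `h`, `h'` of `H = Zs S Z`. Along a path, every excursion outside `H` returns to the same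
component of `H`: if it meets the middle of an axis by `Axis.near`, `Inv.sep`, `Axis.long`, else
by `Pre.sep` and `jn_of_chain`. Along an edge of `H` a free label does not change
(`free_adj`, `free_L`; a triangle with a vertex in `Z j i` and one in `S` lies in `L j i`). -/
theorem Pre.iso (hT : IsSurf T) (hF : Sad T F ω) (hω : 20 * ω ≤ r')
    (h : Pre T F S Y W L N ρ r r' B₀ root X Z) (h1 : Sk1 T F S Y lab W L z N' ρ' δ) :
    Iso T F S lab W L z (r' / 20) := by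
  rintro K hK a a' ha ⟨v, hv, hv'⟩ ⟨w, hw, hw'⟩
  have h0 := h.pos
  have h2 := h.le
  obtain ⟨K₁, p1, p2, x, p3, p4, p5⟩ := e6_own h hv'
  obtain ⟨K₂, q1, q2, y, q3, q4, q5⟩ := e6_own h hw'
  have hG := (hK.union p1 ⟨v, hv, p2⟩).union q1 ⟨w, .inl hw, q2⟩
  have hG' := hG.mono hG.1 (show _ ≤ r / 4 by linarith)
  obtain ⟨-, h4⟩ := e6_jn hT h.inv (by linarith) h.sep hG'.2.2 p4 q4
    (hG.2.1 x (.inl (.inr p3)) y (.inr q3))
  refine e6_uniq h.inv (by linarith) ?_ q5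
  clear q3 q4 q5
  induction h4 with
  | refl => exact p5
  | tail _ h5 ih => exact e6_edge hF hω h h1 ha ih h5.1 h5.2

end Pool.Agent.MP_17e62b_gt.T55

end
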