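import Pool.Agent.MP_17e62b_gt.Mg.T55_ME1
import Pool.Agent.MP_17e62b_gt.Mg.T55_MB2
import Pool.Agent.MP_17e62b_gt.Mg.T55_MB1

section

/-!
A small set reaches one arc only.
-/

namespace Pool.Agent.MP_17e62b_gt.T55

open Set Metric Topology
open scoped InnerProductSpace Manifold

variable {V : Type} [Fintype V] [DecidableEq V] {T : Finset (Finset V)}
variable {n : ℕ} {F : V → EuclideanSpace ℝ (Fin n)}

variable {N N' m : ℕ} {ω ρ ρ' r r' δ : ℝ} {B₀ S Y : Set V} {root lab : V → V}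
  {X W : Fin m → Set V} {Z : Fin m → Bool → Set V} {L : Fin m → Bool → Set (Finset V)}
  {z : Fin m → Bool → V}

theorem e7_nb (h : Pre T F S Y W L N ρ r r' B₀ root X Z) {K : Set V} {R : ℝ} (hR : R ≤ r' / 5)
    (hK : Pc T F (S ∪ Y)ᶜ R K) {j : Fin m} (hn : (K ∩ X j).Nonempty) : K ⊆ W j := fun v hv => by
  rw [h.eq j]
  exact subset_hull ⟨K, hK.mono hK.1 hR, hv, hn⟩

theorem e7_xw (h : Pre T F S Y W L N ρ r r' B₀ root X Z) (j : Fin m) : X j ⊆ W j := by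
  rw [h.eq j]
  exact (sub_nb (h.inv.axis j).sub (by linarith [h.pos])).trans subset_hull

omit [Fintype V] [DecidableEq V] in
theorem e7_uw {u : V} (hu : u ∈ Uu S Y W) (j : Fin m) : u ∉ W j :=
  fun hw => hu (Or.inr (mem_iUnion.2 ⟨j, hw⟩))

omit [Fintype V] [DecidableEq V] in
theorem e7_us {u : V} (hu : u ∈ Uu S Y W) : u ∈ (S ∪ Y)ᶜ := fun h => hu (Or.inl h)

theorem e7_ws (h1 : Sk1 T F S Y lab W L z N' ρ' δ) (j : Fin m) : W j ⊆ (S ∪ Y)ᶜ :=
  fun _ hw => Set.disjoint_left.1 (h1.out j) hw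

theorem e7_rest (h1 : Sk1 T F S Y lab W L z N' ρ' δ) {j : Fin m} {t : Finset V}
    (ht : t ∈ Rest T (W j) (L j)) {v : V} (hv : v ∈ t) : v ∈ W j ∨ v ∈ Uu S Y W :=
  (h1.band j).rest t ht.1 (fun h => ht.2 (Or.inl h)) (fun h => ht.2 (Or.inr h)) v hv

theorem e7_same (h1 : Sk1 T F S Y lab W L z N' ρ' δ) {j k : Fin m} {v : V} (hj : v ∈ W j)
    (hk : v ∈ W k) : j = k := by
  by_contra hne
  exact Set.disjoint_left.1 (h1.sep j k hne).1 hj hk

theorem e7_bdW (h1 : Sk1 T F S Y lab W L z N' ρ' δ) (j : Fin m) : Disjoint (W j) (Bd T) :=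
  Set.disjoint_left.2 fun v hv hb => e7_ws h1 j hv (Or.inl (h1.bd v hb).1)

theorem e7_bdU (h1 : Sk1 T F S Y lab W L z N' ρ' δ) : Disjoint (Uu S Y W) (Bd T) :=
  Set.disjoint_left.2 fun v hv hb => e7_us hv (Or.inl (h1.bd v hb).1)

omit [Fintype V] [DecidableEq V] in
theorem e7_nrest {j : Fin m} {i : Bool} {t : Finset V} (hc : t ∈ L j i) :
    t ∉ Rest T (W j) (L j) := fun h => h.2 (by
  cases i
  · exact Or.inl hc
  · exact Or.inr hc)

theorem e7_ft (h1 : Sk1 T F S Y lab W L z N' ρ' δ) {t : Finset V}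
    (ht : t ∈ FT T S Y lab W L z) (j : Fin m) : t ∉ Rest T (W j) (L j) := fun hr => by
  obtain ⟨v, hv, hU⟩ := ht.1.2.2
  have hW := (e7_rest h1 hr hv).resolve_right hU
  rcases ht.2 v hv hU with h | ⟨k, i, -, hk, hc⟩
  · exact e7_ws h1 j hW (Or.inl h.1)
  · obtain rfl := e7_same h1 hW hk
    exact e7_nrest hc hr

theorem e7_apart (h1 : Sk1 T F S Y lab W L z N' ρ' δ) {j : Fin m} {i i' : Bool}
    {c c' : Finset V} (hc : c ∈ L j i) (hc' : c' ∈ L j i') {w : V} (hw : w ∈ W j) (m1 : w ∈ c)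
    (m2 : w ∈ c') : i = i' := by
  cases i <;> cases i'
  · rfl
  · exact absurd m2 ((h1.band j).apart c hc c' hc' w hw m1)
  · exact absurd m1 ((h1.band j).apart c' hc' c hc w hw m2)
  · rfl

theorem e7_zs (h : Pre T F S Y W L N ρ r r' B₀ root X Z) {u : V} (hu : u ∈ Uu S Y W) :
    u ∉ Zs S Z := by
  rintro (hs | hz)
  · exact e7_us hu (Or.inl hs)
  · obtain ⟨j, hj⟩ := mem_iUnion.1 hz
    exact e7_uw hu j (e7_xw h j (hj.elim (fun a => ((h.inv.axis j).zone false).1 a)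
      fun a => ((h.inv.axis j).zone true).1 a))

omit [Fintype V] [DecidableEq V] in
theorem e7_on0 {A : Set V} {g : V → V → ZMod 2} (hg : On T A g) {u : V} (hu : u ∉ A) (v : V) :
    g u v = 0 := by
  by_contra h0
  exact hu (hg.2 u v h0).1

/-- From a vertex of an end triangle to the zone. -/
theorem e7_zone (h : Pre T F S Y W L N ρ r r' B₀ root X Z) (h1 : Sk1 T F S Y lab W L z N' ρ' δ)
    {j : Fin m} {i : Bool} {t : Finset V} (ht : t ∈ L j i) {y : V} (hy : y ∈ t) (hW : y ∈ W j)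
    (hX : y ∉ X j) : ∃ A u₀ b p, Pc T F (S ∪ Y ∪ ⋃ j, X j)ᶜ (2 * r' / 5) A ∧ y ∈ A ∧ u₀ ∈ A ∧
      b ∈ Zs S Z ∧ Adj T b u₀ ∧ On T A p ∧ d1 p = ends u₀ y ∧ On T (W j) (edge b u₀ + p) ∧
      ∃ K₁, Pc T F (S ∪ Y)ᶜ r' K₁ ∧ y ∈ K₁ ∧ (K₁ ∩ Z j i).Nonempty := by
  obtain ⟨K₁, hK, hy1, ⟨b₀, hb₀, hb₀'⟩, hsub⟩ := h.close j i t ht y hy hW
  have hyZ : y ∈ (Z j i)ᶜ := fun a => hX (((h.inv.axis j).zone i).1 a)
  obtain ⟨u₀, b, hj, hb, hbZ, hadj⟩ := (hK.2.1 y hy1 b₀ hb₀).exit hyZ (fun a => a hb₀')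
  have hbZ' : b ∈ Z j i := not_not.1 hbZ
  have hA : {v | Jn T (K₁ ∩ (Z j i)ᶜ) y v} ⊆ K₁ ∩ (Z j i)ᶜ := fun v hv => Jn.right hv
  have hy0 : y ∈ {v | Jn T (K₁ ∩ (Z j i)ᶜ) y v} := Jn.refl ⟨hy1, hyZ⟩
  obtain ⟨p, hp, hd⟩ := (conn_comp (T := T) (K₁ ∩ (Z j i)ᶜ) y u₀ hj y hy0).fill
  refine ⟨_, u₀, b, p, ⟨fun v hv => ?_, conn_comp _ _, fun u hu v hv => hK.2.2 u (hA hu).1 v
    (hA hv).1⟩, hy0, hj, Or.inr (mem_iUnion.2 ⟨j, ?_⟩), hadj.symm, hp, hd,
    (on_edge hadj.symm (hK.1 hb) (hK.1 (hA hj).1)).add (hp.mono fun v hv => hK.1 (hA hv).1),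
    K₁, hK.mono (hK.1.trans (e7_ws h1 j)) (by linarith [h.pos]), hy1, b, hb, hbZ'⟩
  · rintro (hs | hx)
    · exact e7_ws h1 j (hK.1 (hA hv).1) hs
    · obtain ⟨k, hk⟩ := mem_iUnion.1 hx
      obtain rfl := e7_same h1 (hK.1 (hA hv).1) (e7_xw h k hk)
      exact (hA hv).2 (hsub ⟨(hA hv).1, hk⟩)
  · cases i
    · exact Or.inl hbZ'
    · exact Or.inr hbZ'

variable (T F S Y lab W L z X Z) in
/-- The data of one end of the chord. -/
structure e7End (r' : ℝ) (K : Set V) (c : Finset V) (x u₀ b eu ev : V) (A : Set V)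
    (p : V → V → ZMod 2) : Prop where
  xK : x ∈ K
  xA : x ∈ A
  uA : u₀ ∈ A
  bH : b ∈ Zs S Z
  adj : Adj T b u₀
  pc : Pc T F (S ∪ Y ∪ ⋃ j, X j)ᶜ (9 * r' / 20) A
  on : On T A p
  d : d1 p = ends u₀ x
  ft : c ∈ FT T S Y lab W L z
  eU : eu ∈ Uu S Y W
  eV : ev ∉ Uu S Y W
  ec : eu ∈ c ∧ ev ∈ c
  near : ∀ j, ev ∈ W j → ∃ i, c ∈ L j i ∧ ∃ K₁, Pc T F (S ∪ Y)ᶜ r' K₁ ∧ (K₁ ∩ A).Nonempty ∧
    (K₁ ∩ Z j i).Nonempty
  typ : (x ∈ Uu S Y W ∧ ∀ u ∈ Uu S Y W, ∀ v, (edge b u₀ + p) u v = edge eu ev u v) ∨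
    ∃ j, x ∈ W j ∧ ev ∈ W j ∧ (∀ u ∈ Uu S Y W, ∀ v, (edge b u₀ + p) u v = 0) ∧
      ∃ t₀ t₁, (∃ v ∈ t₀, v ∈ K) ∧ FJn (W j) (Rest T (W j) (L j)) t₀ t₁ ∧ eu ∈ t₁ ∧ ev ∈ t₁

theorem e7_out (h : Pre T F S Y W L N ρ r r' B₀ root X Z) {u : V} (hu : u ∈ Uu S Y W) :
    u ∈ (S ∪ Y ∪ ⋃ j, X j)ᶜ := by
  rintro (hs | hx)
  · exact e7_us hu hs
  · obtain ⟨k, hk⟩ := mem_iUnion.1 hx
    exact e7_uw hu k (e7_xw h k hk)

theorem e7_end (hT : IsSurf T) (hF : Sad T F ω) (hω : 20 * ω ≤ r')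
    (h : Pre T F S Y W L N ρ r r' B₀ root X Z) (h1 : Sk1 T F S Y lab W L z N' ρ' δ) {K : Set V}
    (hX : ∀ j, Disjoint K (X j)) {c : Finset V} (hc : Pos T S Y lab W L z K c) :
    ∃ x u₀ b eu ev A p, e7End T F S Y lab X W Z L z r' K c x u₀ b eu ev A p := by
  have h0 := h.pos
  rcases hc with ⟨hc, x, hxc, hxK, hxU⟩ |
    ⟨j, i, hz, ⟨t, ht, x, hxt, hxK, hxW⟩, hc, t₀, t₁, hK, hj, w, hw, u, hu, m1, m2, m3, m4⟩
  · obtain ⟨y, hyc, hyU⟩ := hc.1.2.2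
    have hadj : Adj T x y := b12_adj hc.1.1 hxc hyc hxU hyU
    rcases hc.2 y hyc hyU with hs | ⟨j, i, -, hyW, hL⟩
    · refine ⟨x, x, y, x, y, {x}, 0, hxK, rfl, rfl, Or.inl hs.1, hadj.symm,
        pc_single (e7_out h hxU) (by linarith), On.zero,
        (ends_self x).symm ▸ funext fun v => Finset.sum_const_zero, hc, hxU, hyU, ⟨hxc, hyc⟩,
        fun j hj => absurd (Or.inl hs.1) (e7_ws h1 j hj), Or.inl ⟨hxU, fun u _ v => ?_⟩⟩
      rw [add_zero, edge_comm]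
    · have hyX : y ∉ X j := fun a => e7_uw hxU j (e7_nb h (R := ω) (by linarith only [hω, h0])
        (b8_edge hF (e7_us hxU) (e7_ws h1 j hyW) hadj) ⟨y, Or.inr rfl, a⟩ (Or.inl rfl))
      obtain ⟨A, u₀, b, p, hA, hyA, huA, hb, hab, hp, hd, hon, K₁, hK₁, hy1, hZ⟩ :=
        e7_zone h h1 hL hyc hyW hyX
      refine ⟨x, u₀, b, x, y, A ∪ {x}, p + edge y x, hxK, Or.inr rfl, Or.inl huA, hb, hab,
        ?_, (hp.mono subset_union_left).add (on_edge hadj.symm (Or.inl hyA) (Or.inr rfl)),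
        by rw [d1_add, hd, d1_edge, ends_add], hc, hxU, hyU, ⟨hxc, hyc⟩, fun k hk => ?_,
        Or.inl ⟨hxU, fun u hu v => ?_⟩⟩
      · have := hA.union_adj hF (pc_single (e7_out h hxU) le_rfl) ⟨y, hyA, x, rfl, hadj.symm⟩
        exact this.mono this.1 (by linarith)
      · obtain rfl := e7_same h1 hyW hk
        exact ⟨i, hL, K₁, hK₁, ⟨y, hy1, Or.inl hyA⟩, hZ⟩
      · rw [← add_assoc, Pi.add_apply, Pi.add_apply, e7_on0 hon (e7_uw hu j), zero_add, edge_comm]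
  · have hxX : x ∉ X j := Set.disjoint_left.1 (hX j) hxK
    obtain ⟨A, u₀, b, p, hA, hyA, huA, hb, hab, hp, hd, hon, K₁, hK₁, hy1, hZ⟩ :=
      e7_zone h h1 ht hxt hxW hxX
    have hU : u ∈ Uu S Y W := (e7_rest h1 (b2_right hj) m2).resolve_left hu
    refine ⟨x, u₀, b, u, w, A, p, hxK, hyA, huA, hb, hab, hA.mono hA.1 (by linarith), hp, hd,
      h1.ft_corner hT hz hc m4 hU, hU, fun a => e7_uw a j hw, ⟨m4, m3⟩, fun k hk => ?_,
      Or.inr ⟨j, hxW, hw, fun u hu v => e7_on0 hon (e7_uw hu j) v, t₀, t₁, hK, hj, m2, m1⟩⟩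
    obtain rfl := e7_same h1 hw hk
    exact ⟨i, hc, K₁, hK₁, ⟨x, hy1, hyA⟩, hZ⟩

omit [DecidableEq V] in
theorem e7_pr {C : Set V} {ψ ψ' g g' : V → V → ZMod 2}
    (h : ∀ w ∈ C, ∀ y, y ∉ C → ψ w y * g w y = ψ' w y * g' w y) : b4Pr C ψ g = b4Pr C ψ' g' := by
  unfold b4Pr
  refine Finset.sum_congr rfl fun c _ => Finset.sum_congr rfl fun w _ => ?_
  split_ifs with h1
  · exact h c h1.1 w h1.2
  · rfl

omit [DecidableEq V] in
theorem e7_pr0 {C : Set V} {ψ g : V → V → ZMod 2}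
    (h : ∀ w ∈ C, ∀ y, y ∉ C → ψ w y * g w y = 0) : b4Pr C ψ g = 0 :=
  (e7_pr (ψ' := ψ) (g' := 0) fun w hw y hy => (h w hw y hy).trans (mul_zero _).symm).trans
    (b4_pr_zero fun _ _ _ _ => rfl)

open Classical in
/-- The indicator of a proposition. -/
noncomputable def e7I (P : Prop) : ZMod 2 := if P then 1 else 0

theorem e7_I1 {P : Prop} (h : P) : e7I P = 1 := if_pos h

theorem e7_I0 {P : Prop} (h : ¬ P) : e7I P = 0 := if_neg h

omit [Fintype V] in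
theorem e7_ne {a b u v : V} (h : edge a b u v ≠ 0) : (u = a ∧ v = b) ∨ (u = b ∧ v = a) := by
  by_contra h'
  exact h (if_neg fun a => h' a.2)

theorem e7_par (C : Set V) (a b : V) : b4Pr C 1 (edge a b) = e7I (a ∈ C) + e7I (b ∈ C) := by
  by_cases ha : a ∈ C <;> by_cases hb : b ∈ C
  · rw [e7_I1 ha, e7_I1 hb, b2_self]
    refine b4_pr_zero fun c _ w hw => ?_
    by_contra h0
    rcases e7_ne h0 with h | h
    · exact hw (h.2 ▸ hb)
    · exact hw (h.2 ▸ ha)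
  · rw [e7_I1 ha, e7_I0 hb, b4_pr_edge _ ha hb, add_zero]
    rfl
  · rw [e7_I0 ha, e7_I1 hb, edge_comm, b4_pr_edge _ hb ha, zero_add]
    rfl
  · rw [e7_I0 ha, e7_I0 hb, add_zero]
    refine b4_pr_zero fun c hc w _ => ?_
    by_contra h0
    rcases e7_ne h0 with h | h
    · exact ha (h.1 ▸ hc)
    · exact hb (h.1 ▸ hc)

omit [Fintype V] [DecidableEq V] in
theorem e7_stp {a b : V} (h : Stp T S Y W L a b) : Stp T S Y W L b a := by
  refine ⟨⟨h.1.1.symm, ?_⟩, ?_⟩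
  · obtain ⟨t, ht, h1, h2⟩ := h.1.2
    exact ⟨t, ht, h2, h1⟩
  · rcases h.2 with h | ⟨j, h | ⟨t, ht, h⟩⟩
    · exact Or.inl h.symm
    · exact Or.inr ⟨j, Or.inl h.symm⟩
    · exact Or.inr ⟨j, Or.inr ⟨t, ht, h.symm⟩⟩

/-- The middle part of the chord. -/
theorem e7_mid {K : Set V} {x x' : V} (hx : x ∈ K)
    (h : Relation.ReflTransGen (fun a b => b ∈ K ∧ Stp T S Y W L a b) x x') :
    x' ∈ K ∧ ∃ μ, On T K μ ∧ d1 μ = ends x x' ∧ (∀ u v, μ u v ≠ 0 → Stp T S Y W L u v) ∧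
      ∀ C, b4Pr C 1 μ = e7I (x ∈ C) + e7I (x' ∈ C) := by
  induction h with
  | refl =>
    exact ⟨hx, 0, On.zero, (ends_self x).symm ▸ funext fun v => Finset.sum_const_zero,
      fun u v h => absurd rfl h, fun C => by
        rw [b2_self]; exact b4_pr_zero fun _ _ _ _ => rfl⟩
  | @tail a b _ h ih =>
    obtain ⟨ha, μ, h1, h2, h3, h4⟩ := ih
    refine ⟨h.1, μ + edge a b, h1.add (on_edge h.2.1 ha h.1), by
      rw [d1_add, h2, d1_edge, ends_add], fun u v h0 => ?_, fun C => ?_⟩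
    · by_cases h5 : μ u v = 0
      · rw [Pi.add_apply, Pi.add_apply, h5, zero_add] at h0
        rcases e7_ne h0 with ⟨rfl, rfl⟩ | ⟨rfl, rfl⟩
        · exact h.2
        · exact e7_stp h.2
      · exact h3 u v h5
    · rw [b4_pr_add, h4, e7_par, add_assoc, ← add_assoc (e7I (a ∈ C)), b2_self, zero_add]

/-- The edges of the long side of `a`. -/
noncomputable def e7P (T : Finset (Finset V)) (W : Set V) (L : Bool → Set (Finset V))
    (a : Finset V) (w y : V) : ZMod 2 := e7I (∃ t, FJn W (Rest T W L) a t ∧ w ∈ t ∧ y ∈ t)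

/-- The parity of a boundary on the edges of a long side. -/
theorem e7_side (hT : IsSurf T) (h1 : Sk1 T F S Y lab W L z N' ρ' δ) {j : Fin m} {i : Bool}
    {a c : Finset V} (ha : a ∈ Rest T (W j) (L j)) (hc : c ∈ L j i) {v u : V} (hv : v ∈ W j)
    (hu : u ∉ W j) (ma : v ∈ a ∧ u ∈ a) (mc : v ∈ c ∧ u ∈ c) {Q : Finset V → ZMod 2}
    (h0 : ∀ c ∈ L j (!i), ∀ t ∈ Rest T (W j) (L j), ∀ w ∈ W j, ∀ y, y ∉ W j → w ∈ c ∧ y ∈ c →
      w ∈ t ∧ y ∈ t → Q c = 0) : b4Pr (W j) (e7P T (W j) (L j) a) (d2 T Q) = Q c := by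
  have hb := e7_bdW h1 j
  have haa : FJn (W j) (Rest T (W j) (L j)) a a := ⟨ha, .refl⟩
  have hcT : c ∈ T := ((h1.band j).mix i c hc).1
  obtain ⟨e, -, he⟩ := (h1.band j).corner hT hb ha i
  have hvu : (v, u) = e := he (v, u) ⟨hv, hu, ⟨a, haa, ma⟩, c, hc, mc⟩
  have key : ∀ s s' w y, w ∈ W j → y ∉ W j → (s ∈ T ∧ w ∈ s ∧ y ∈ s) → (s' ∈ T ∧ w ∈ s' ∧ y ∈ s') →
      (∀ t ∈ T, w ∈ t ∧ y ∈ t → t = s ∨ t = s') → FJn (W j) (Rest T (W j) (L j)) a s →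
      ¬ FJn (W j) (Rest T (W j) (L j)) a s' → Q s' = Q c * edge v u w y := by
    intro s s' w y hw hy hs hs' hall hj hn
    have hr : s' ∉ Rest T (W j) (L j) := fun hr => hn (b2_step hj hr hw hy hs.2 hs'.2)
    have hL : s' ∈ L j false ∪ L j true := by
      by_contra h'
      exact hr ⟨⟨hs'.1, ⟨w, hs'.2.1, hw⟩, y, hs'.2.2, hy⟩, h'⟩
    have hL' : s' ∈ L j i ∨ s' ∈ L j (!i) := by
      cases i
      · exact hL
      · exact hL.symm
    rw [b2_edge hv hu hw]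
    rcases hL' with hL' | hL'
    · have e1 : (w, y) = (v, u) := (he (w, y) ⟨hw, hy, ⟨s, hj, hs.2⟩, s', hL', hs'.2⟩).trans hvu.symm
      rw [if_pos e1, mul_one]
      obtain ⟨rfl, rfl⟩ := Prod.mk.inj e1
      rcases hall c hcT mc with rfl | rfl
      · exact absurd (b2_right hj) (e7_nrest hc)
      · rfl
    · rw [h0 s' hL' s (b2_right hj) w hw y hy hs'.2 hs.2, if_neg, mul_zero]
      intro e1
      obtain ⟨rfl, rfl⟩ := Prod.mk.inj e1
      have := e7_apart h1 hc hL' hw mc.1 hs'.2.1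
      cases i <;> simp at this
  have hz : b4Pr (W j) 1 (d2 T fun t => e7I (FJn (W j) (Rest T (W j) (L j)) a t) * Q t) = 0 :=
    b4_pr_d2 hT (Q := 1) (fun _ _ _ _ _ _ _ _ => rfl) _
  have h2 : b4Pr (W j) 1 (d2 T fun t => e7I (FJn (W j) (Rest T (W j) (L j)) a t) * Q t) =
      b4Pr (W j) 1 ((fun w y => e7P T (W j) (L j) a w y * d2 T Q w y) +
        fun w y => Q c * edge v u w y) := by
    refine e7_pr fun w hw y hy => congrArg _ ?_
    rw [Pi.add_apply, Pi.add_apply]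
    rcases b2_cases hT hb hw hy with ⟨hn, hd⟩ | ⟨s, s', hs, hs', -, hall, hd⟩
    · rw [hd, hd, b2_edge hv hu hw, if_neg]
      · simp
      · intro e1
        obtain ⟨rfl, rfl⟩ := Prod.mk.inj e1
        exact hn c hcT mc
    · rw [hd, hd]
      unfold e7P
      by_cases k1 : FJn (W j) (Rest T (W j) (L j)) a s <;>
        by_cases k2 : FJn (W j) (Rest T (W j) (L j)) a s'
      · rw [e7_I1 k1, e7_I1 k2, e7_I1 ⟨s, k1, hs.2⟩, b2_edge hv hu hw, if_neg]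
        · simp
        · intro e1
          obtain ⟨rfl, rfl⟩ := Prod.mk.inj e1
          rcases hall c hcT mc with rfl | rfl
          · exact e7_nrest hc (b2_right k1)
          · exact e7_nrest hc (b2_right k2)
      · rw [e7_I1 k1, e7_I0 k2, e7_I1 ⟨s, k1, hs.2⟩, ← key s s' w y hw hy hs hs' hall k1 k2,
          one_mul, one_mul, zero_mul, add_assoc, b2_self]
      · rw [e7_I0 k1, e7_I1 k2, e7_I1 ⟨s', k2, hs'.2⟩,
          ← key s' s w y hw hy hs' hs (fun t ht h => (hall t ht h).symm) k2 k1,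
          one_mul, one_mul, zero_mul, add_comm (Q s), add_assoc, b2_self, zero_add, add_zero]
      · rw [e7_I0 k1, e7_I0 k2, e7_I0, b2_edge hv hu hw, if_neg]
        · simp
        · intro e1
          obtain ⟨rfl, rfl⟩ := Prod.mk.inj e1
          rcases hall a ha.1.1 ma with rfl | rfl
          · exact k1 haa
          · exact k2 haa
        · rintro ⟨t, ht, hm⟩
          rcases hall t (b2_right ht).1.1 hm with rfl | rfl
          · exact k1 ht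
          · exact k2 ht
  rw [h2, b4_pr_add] at hz
  have h3 : b4Pr (W j) 1 (fun w y => Q c * edge v u w y) = Q c :=
    (e7_pr (ψ' := fun _ _ => Q c) (g' := edge v u) fun _ _ _ _ => one_mul _).trans
      (b4_pr_edge _ hv hu)
  rw [h3] at hz
  exact (e7_pr fun _ _ _ _ => (one_mul _).symm).trans (b2_eq hz)

/-- The contribution of one end at a corner whose opposite end is far. -/
theorem e7_one (hT : IsSurf T) (hF : Sad T F ω) (hω : 20 * ω ≤ r')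
    (h : Pre T F S Y W L N ρ r r' B₀ root X Z) (h1 : Sk1 T F S Y lab W L z N' ρ' δ) {K A G : Set V}
    (hK : Pc T F (S ∪ Y)ᶜ (r' / 20) K) {c : Finset V} {x u₀ b eu ev : V} {p : V → V → ZMod 2}
    (E : e7End T F S Y lab X W Z L z r' K c x u₀ b eu ev A p) (hG : A ⊆ G) {j : Fin m} {i : Bool}
    (far : ∀ K, Pc T F (S ∪ Y)ᶜ r' K → (K ∩ G).Nonempty → ¬ (K ∩ Z j (!i)).Nonempty)
    {a c₀ : Finset V} (ha : a ∈ Rest T (W j) (L j)) (hc : c₀ ∈ L j i) {v u : V} (hv : v ∈ W j)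
    (hu : u ∉ W j) (ma : v ∈ a ∧ u ∈ a) (mc : v ∈ c₀ ∧ u ∈ c₀) :
    b4Pr (W j) (e7P T (W j) (L j) a) (edge b u₀ + p) +
      e7I (∃ t, FJn (W j) (Rest T (W j) (L j)) a t ∧ ∃ v ∈ t, v ∈ K) * e7I (x ∈ W j) =
        edge eu ev u v := by
  have haa : FJn (W j) (Rest T (W j) (L j)) a a := ⟨ha, .refl⟩
  have hU : u ∈ Uu S Y W := (e7_rest h1 ha ma.2).resolve_left hu
  have uniq : ∀ t, FJn (W j) (Rest T (W j) (L j)) a t → eu ∈ t → ev ∈ t → ev ∈ W j →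
      (u, v) = (eu, ev) := by
    intro t ht m1 m2 hW
    obtain ⟨i', hc', K₁, hK₁, ⟨y, hy, hy'⟩, hZ⟩ := E.near j hW
    have hi : i' = i := by
      by_contra hne
      have : i' = !i := by cases i <;> cases i' <;> simp_all
      exact far K₁ hK₁ ⟨y, hy, hG hy'⟩ (this ▸ hZ)
    subst hi
    obtain ⟨e, -, he⟩ := (h1.band j).corner hT (e7_bdW h1 j) ha i'
    have e1 := (he (v, u) ⟨hv, hu, ⟨a, haa, ma⟩, c₀, hc, mc⟩).trans
      (he (ev, eu) ⟨hW, e7_uw E.eU j, ⟨t, ht, m2, m1⟩, c, hc', E.ec.2, E.ec.1⟩).symm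
    obtain ⟨rfl, rfl⟩ := Prod.mk.inj e1
    rfl
  have hsym : ∀ w y, (edge b u₀ + p) w y = (edge b u₀ + p) y w := fun w y => by
    rw [Pi.add_apply, Pi.add_apply, Pi.add_apply, Pi.add_apply, E.on.1 w y, b2_esymm]
  have hP : ∀ w y, y ∉ W j → y ∉ Uu S Y W → e7P T (W j) (L j) a w y = 0 := fun w y hy hy' =>
    e7_I0 fun ⟨t, ht, hm⟩ => (e7_rest h1 (b2_right ht) hm.2).elim hy hy'
  rw [b2_edge E.eU E.eV hU]
  rcases E.typ with ⟨hx, hα⟩ | ⟨k, hx, hk, hα, t₀, t₁, hm, hj, m1, m2⟩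
  · rw [e7_I0 (e7_uw hx j), mul_zero, add_zero]
    have h2 : b4Pr (W j) (e7P T (W j) (L j) a) (edge b u₀ + p) =
        b4Pr (W j) (e7P T (W j) (L j) a) (edge ev eu) := by
      refine e7_pr fun w _ y hy => ?_
      by_cases hy' : y ∈ Uu S Y W
      · rw [hsym, hα y hy', edge_comm, b2_esymm]
      · rw [hP w y hy hy', zero_mul, zero_mul]
    rw [h2]
    by_cases hW : ev ∈ W j
    · rw [b4_pr_edge _ hW (e7_uw E.eU j)]
      unfold e7P
      split_ifs with e1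
      · obtain ⟨rfl, rfl⟩ := Prod.mk.inj e1
        exact e7_I1 ⟨a, haa, ma⟩
      · exact e7_I0 fun ⟨t, ht, hm⟩ => e1 (uniq t ht hm.2 hm.1 hW)
    · rw [if_neg fun e1 : (u, v) = (eu, ev) => hW ((Prod.mk.inj e1).2 ▸ hv)]
      refine b4_pr_zero fun w hw y _ => ?_
      by_contra h0
      rcases e7_ne h0 with h' | h'
      · exact hW (h'.1 ▸ hw)
      · exact e7_uw E.eU j (h'.1 ▸ hw)
  · have h2 : b4Pr (W j) (e7P T (W j) (L j) a) (edge b u₀ + p) = 0 := by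
      refine e7_pr0 fun w _ y hy => ?_
      by_cases hy' : y ∈ Uu S Y W
      · rw [hsym, hα y hy', mul_zero]
      · rw [hP w y hy hy', zero_mul]
    rw [h2, zero_add]
    by_cases hjk : j = k
    · subst hjk
      rw [e7_I1 hx, mul_one]
      split_ifs with e1
      · obtain ⟨rfl, rfl⟩ := Prod.mk.inj e1
        exact e7_I1 ⟨t₀, (b2_step haa (b2_right hj) hv hu ma ⟨m2, m1⟩).trans hj.symm, hm⟩
      · refine e7_I0 fun ⟨t, ht, hm'⟩ => e1 (uniq t₁ ?_ m1 m2 hk)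
        exact (ht.trans (h.wide hT hF hω h1 hK (b2_right ht) hj.1 hm' hm).2).trans hj
    · rw [e7_I0 fun hx' : x ∈ W j => hjk (e7_same h1 hx' hx), mul_zero,
        if_neg fun e1 : (u, v) = (eu, ev) => hjk (e7_same h1 hv ((Prod.mk.inj e1).2 ▸ hk))]

/-- The contribution of one end at an edge that lies on no long side. -/
theorem e7_two {K A : Set V} {c : Finset V} {x u₀ b eu ev : V} {p : V → V → ZMod 2}
    (E : e7End T F S Y lab X W Z L z r' K c x u₀ b eu ev A p) {u v : V} (hu : u ∈ Uu S Y W)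
    (hn : ∀ j, ∀ t ∈ Rest T (W j) (L j), ¬ (u ∈ t ∧ v ∈ t)) :
    (edge b u₀ + p) u v = edge eu ev u v := by
  rcases E.typ with ⟨-, hα⟩ | ⟨k, -, -, hα, t₀, t₁, -, hj, m1, m2⟩
  · exact hα u hu v
  · rw [hα u hu v, b2_edge E.eU E.eV hu, if_neg]
    intro e1
    obtain ⟨rfl, rfl⟩ := Prod.mk.inj e1
    exact hn k t₁ (b2_right hj) ⟨m1, m2⟩

/-- The boundary of the restricted 2-chain on the edges that leave `Uu S Y W`. -/
theorem e7_core (hT : IsSurf T) (hF : Sad T F ω) (hω : 20 * ω ≤ r')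
    (h : Pre T F S Y W L N ρ r r' B₀ root X Z) (h1 : Sk1 T F S Y lab W L z N' ρ' δ)
    {K A A' : Set V} (hK : Pc T F (S ∪ Y)ᶜ (r' / 20) K) (hX : ∀ j, Disjoint K (X j))
    {c c' : Finset V} {x u₀ b eu ev x' u₀' b' eu' ev' : V} {p p' : V → V → ZMod 2}
    (E : e7End T F S Y lab X W Z L z r' K c x u₀ b eu ev A p)
    (E' : e7End T F S Y lab X W Z L z r' K c' x' u₀' b' eu' ev' A' p')
    (hp : Relation.ReflTransGen (fun a b => b ∈ K ∧ Stp T S Y W L a b) x x') :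
    ∃ Q : Finset V → ZMod 2, (∀ j, ∀ t ∈ Rest T (W j) (L j), Q t = 0) ∧
      ∀ u ∈ Uu S Y W, ∀ v, v ∉ Uu S Y W → d2 T Q u v = (edge eu ev + edge eu' ev') u v := by
  have h0 := h.pos
  have hle := h.le
  obtain ⟨-, μ, m1, m2, m3, m4⟩ := e7_mid E.xK hp
  have hK' : Pc T F (S ∪ Y ∪ ⋃ j, X j)ᶜ (r' / 20) K := hK.mono (by
    rintro v hv (hs | hx)
    · exact hK.1 hv hs
    · obtain ⟨j, hj⟩ := mem_iUnion.1 hx
      exact Set.disjoint_left.1 (hX j) hv hj) le_rfl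
  have hG : Pc T F (S ∪ Y ∪ ⋃ j, X j)ᶜ (9 * r' / 20 + r' / 20 + 9 * r' / 20) (A ∪ K ∪ A') :=
    (E.pc.union hK' ⟨x, E.xA, E.xK⟩).union E'.pc ⟨x', Or.inr E'.xK, E'.xA⟩
  have hG1 : A ∪ K ∪ A' ⊆ (Zs S Z ∪ Md X Z)ᶜ := by
    rintro v hv ((hs | hz) | hm)
    · exact hG.1 hv (Or.inl (Or.inl hs))
    · obtain ⟨j, hj⟩ := mem_iUnion.1 hz
      exact hG.1 hv (Or.inr (mem_iUnion.2 ⟨j, hj.elim (fun a => ((h.inv.axis j).zone false).1 a)
        fun a => ((h.inv.axis j).zone true).1 a⟩))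
    · obtain ⟨j, hj⟩ := mem_iUnion.1 hm
      exact hG.1 hv (Or.inr (mem_iUnion.2 ⟨j, hj.1⟩))
  have hon : On T (A ∪ K ∪ A') (p + μ + p') :=
    ((E.on.mono fun v hv => Or.inl (Or.inl hv)).add (m1.mono fun v hv => Or.inl (Or.inr hv))).add
      (E'.on.mono fun v hv => Or.inr hv)
  obtain ⟨Q, aH, haH, hQ, hQ0⟩ := h.sep _ (hG.mono hG1 (by linarith)) u₀ (Or.inl (Or.inl E.uA)) u₀'
    (Or.inr E'.uA) b E.bH b' E'.bH E.adj E'.adj.symm _ hon
    (by rw [d1_add, d1_add, E.d, m2, E'.d, ends_add, ends_comm u₀', ends_add])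
  have hd : d2 T Q = (edge b u₀ + p) + μ + (edge b' u₀' + p') + aH := by
    have : d2 T Q = d2 T Q + aH + aH := by rw [add_assoc, add_self1, add_zero]
    rw [this, ← hQ, edge_comm u₀']
    abel
  have hQon : On T (A ∪ K ∪ A' ∪ Zs S Z) (d2 T Q) := by
    have : d2 T Q = d2 T Q + aH + aH := by rw [add_assoc, add_self1, add_zero]
    rw [this, ← hQ]
    exact (((on_edge E.adj (Or.inr E.bH) (Or.inl (Or.inl (Or.inl E.uA)))).add
      (hon.mono subset_union_left)).add (on_edge E'.adj.symm (Or.inl (Or.inr E'.uA))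
        (Or.inr E'.bH))).add (haH.mono subset_union_right)
  have hQv : ∀ v, v ∉ A ∪ K ∪ A' ∪ Zs S Z → ∀ u, d2 T Q u v = 0 := fun v hv u => by
    rw [b2_symm]
    exact e7_on0 hQon hv u
  have hGs : Pc T F (S ∪ Y)ᶜ r' (A ∪ K ∪ A') :=
    hG.mono (fun v hv hs => hG.1 hv (Or.inl hs)) (by linarith only [h0])
  have hfar : ∀ j i, (∀ K₁, Pc T F (S ∪ Y)ᶜ r' K₁ → (K₁ ∩ (A ∪ K ∪ A')).Nonempty →
      ¬ (K₁ ∩ Z j i).Nonempty) ∨ ∀ K₁, Pc T F (S ∪ Y)ᶜ r' K₁ → (K₁ ∩ (A ∪ K ∪ A')).Nonempty →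
      ¬ (K₁ ∩ Z j (!i)).Nonempty := by
    intro j i
    by_contra hne
    push Not at hne
    obtain ⟨⟨K₁, a1, a2, y₁, a3, a4⟩, K₂, b1, ⟨y, b2, b2'⟩, y₂, b3, b4⟩ := hne
    have hu := (a1.union hGs a2).union b1 ⟨y, Or.inr b2', b2⟩
    have hl := (h.inv.axis j).long _ (hu.mono hu.1 (by linarith only [h0, hle]))
    cases i
    · exact hl ⟨y₁, Or.inl (Or.inl a3), a4⟩ ⟨y₂, Or.inr b3, b4⟩
    · exact hl ⟨y₂, Or.inr b3, b4⟩ ⟨y₁, Or.inl (Or.inl a3), a4⟩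
  -- the value at a corner
  have corner : ∀ u ∈ Uu S Y W, ∀ v, v ∉ Uu S Y W → ∀ j, ∀ a ∈ Rest T (W j) (L j), ∀ c₀ ∈ T,
      (∀ k, c₀ ∉ Rest T (W k) (L k)) → u ∈ a ∧ v ∈ a → u ∈ c₀ ∧ v ∈ c₀ →
      Q c₀ = (edge eu ev + edge eu' ev') u v := by
    intro u hu v hv j a ha c₀ hc₀ hn ma mc
    have hvW : v ∈ W j := (e7_rest h1 ha ma.2).resolve_right hv
    have huW := e7_uw hu j
    obtain ⟨i, hi⟩ : ∃ i, c₀ ∈ L j i := by
      by_contra h'
      exact hn j ⟨⟨hc₀, ⟨v, mc.2, hvW⟩, u, mc.1, huW⟩,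
        fun a => a.elim (fun a => h' ⟨_, a⟩) fun a => h' ⟨_, a⟩⟩
    rw [Pi.add_apply, Pi.add_apply]
    rcases hfar j i with far | far
    · have k1 : ∀ {c x u₀ b eu ev A₁ p}, e7End T F S Y lab X W Z L z r' K c x u₀ b eu ev A₁ p →
          A₁ ⊆ A ∪ K ∪ A' → edge eu ev u v = 0 := by
        intro c x u₀ b eu ev A₁ p E hA
        rw [b2_edge E.eU E.eV hu, if_neg]
        intro e1
        obtain ⟨rfl, rfl⟩ := Prod.mk.inj e1
        obtain ⟨i', hc', K₁, hK₁, ⟨y, hy, hy'⟩, hZ⟩ := E.near j hvW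
        obtain rfl := e7_apart h1 hc' hi hvW E.ec.2 mc.2
        exact far K₁ hK₁ ⟨y, hy, hA hy'⟩ hZ
      rw [h.far_zero hT hF hω h1 hQv hQ0 far hi ha hvW huW mc.symm ma.symm,
        k1 E fun v hv => Or.inl (Or.inl hv), k1 E' fun v hv => Or.inr hv, add_zero]
    · have k0 := e7_side hT h1 ha hi hvW huW ma.symm mc.symm (Q := Q)
        fun c hc t ht w hw y hy a1 a2 => h.far_zero hT hF hω h1 hQv hQ0 far hc ht hw hy a1 a2
      have k1 := e7_one hT hF hω h h1 hK E (fun v hv => Or.inl (Or.inl hv)) far ha hi hvW huW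
        ma.symm mc.symm
      have k2 := e7_one hT hF hω h h1 hK E' (fun v hv => Or.inr hv) far ha hi hvW huW
        ma.symm mc.symm
      have k3 : b4Pr (W j) (e7P T (W j) (L j) a) aH = 0 := by
        refine e7_pr0 fun w _ y hy => ?_
        by_cases hy' : y ∈ Uu S Y W
        · rw [haH.1, e7_on0 haH (e7_zs h hy'), mul_zero]
        · rw [show e7P T (W j) (L j) a w y = 0 from
            e7_I0 fun ⟨t, ht, hm⟩ => (e7_rest h1 (b2_right ht) hm.2).elim hy hy', zero_mul]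
      have k4 : b4Pr (W j) (e7P T (W j) (L j) a) μ =
          e7I (∃ t, FJn (W j) (Rest T (W j) (L j)) a t ∧ ∃ v ∈ t, v ∈ K) *
            (e7I (x ∈ W j) + e7I (x' ∈ W j)) := by
        by_cases hR : ∃ t, FJn (W j) (Rest T (W j) (L j)) a t ∧ ∃ v ∈ t, v ∈ K
        · rw [e7_I1 hR, one_mul, ← m4]
          refine e7_pr fun w hw y hy => ?_
          by_cases h5 : μ w y = 0
          · rw [h5, mul_zero, mul_zero]
          · obtain ⟨t, ht, hm⟩ := hR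
            rcases (m3 w y h5).2 with h6 | ⟨k, h6 | ⟨s, hs, h6⟩⟩
            · exact absurd hw (e7_uw h6.1 j)
            · obtain rfl := e7_same h1 hw h6.1
              exact absurd h6.2 hy
            · obtain rfl := e7_same h1 hw ((e7_rest h1 hs h6.1).resolve_right fun a => e7_uw a j hw)
              rw [show e7P T (W j) (L j) a w y = 1 from e7_I1 ⟨s, ht.trans (h.wide hT hF hω h1 hK
                (b2_right ht) hs hm ⟨w, h6.1, (m1.2 w y h5).1⟩).2, h6⟩]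
              rfl
        · rw [e7_I0 hR, zero_mul]
          refine e7_pr0 fun w _ y _ => ?_
          by_cases h5 : μ w y = 0
          · rw [h5, mul_zero]
          · rw [show e7P T (W j) (L j) a w y = 0 from
              e7_I0 fun ⟨t, ht, hm⟩ => hR ⟨t, ht, w, hm.1, (m1.2 w y h5).1⟩, zero_mul]
      rw [← k0, hd, b4_pr_add, b4_pr_add _ _ _ (edge b' u₀' + p'), b4_pr_add _ _ _ μ, k3, k4, ← k1,
        ← k2]
      ring
  refine ⟨fun t => e7I (∀ j, t ∉ Rest T (W j) (L j)) * Q t, fun j t ht => by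
    beta_reduce; rw [e7_I0 fun a => a j ht, zero_mul], fun u hu v hv => ?_⟩
  have ne1 : ∀ {c x u₀ b eu ev A₁ p}, e7End T F S Y lab X W Z L z r' K c x u₀ b eu ev A₁ p →
      (∀ t ∈ T, u ∈ t ∧ v ∈ t → ¬ ∀ j, t ∉ Rest T (W j) (L j)) → edge eu ev u v = 0 := by
    intro c x u₀ b eu ev A₁ p E hn
    rw [b2_edge E.eU E.eV hu, if_neg]
    intro e1
    obtain ⟨rfl, rfl⟩ := Prod.mk.inj e1
    exact hn c E.ft.1.1 E.ec (e7_ft h1 E.ft)
  rcases b2_cases hT (e7_bdU h1) hu hv with ⟨hn, hd'⟩ | ⟨s, s', hs, hs', -, hall, hd'⟩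
  · rw [hd', Pi.add_apply, Pi.add_apply, ne1 E fun t ht hm => absurd hm (hn t ht),
      ne1 E' fun t ht hm => absurd hm (hn t ht), add_zero]
  · rw [hd']
    by_cases k1 : ∀ j, s ∉ Rest T (W j) (L j) <;> by_cases k2 : ∀ j, s' ∉ Rest T (W j) (L j)
    · have hn : ∀ j, ∀ t ∈ Rest T (W j) (L j), ¬ (u ∈ t ∧ v ∈ t) := fun j t ht hm => by
        rcases hall t ht.1.1 hm with rfl | rfl
        · exact k1 j ht
        · exact k2 j ht
      have k3 : μ u v = 0 := by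
        by_contra h5
        rcases (m3 u v h5).2 with h6 | ⟨k, h6 | ⟨t, ht, h6⟩⟩
        · exact hv h6.2
        · exact e7_uw hu k h6.1
        · exact hn k t ht h6
      rw [e7_I1 k1, e7_I1 k2, one_mul, one_mul, ← hd', hd]
      have e1 := e7_two E hu hn
      have e2 := e7_two E' hu hn
      have e3 := e7_on0 haH (e7_zs h hu) v
      simp only [Pi.add_apply] at e1 e2 ⊢
      rw [e1, e2, k3, e3, add_zero, add_zero]
    · rw [e7_I1 k1, e7_I0 k2, one_mul, zero_mul, add_zero]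
      obtain ⟨j, hj⟩ := not_forall.1 k2
      exact corner u hu v hv j s' (not_not.1 hj) s hs.1 k1 hs'.2 hs.2
    · rw [e7_I0 k1, e7_I1 k2, one_mul, zero_mul, zero_add]
      obtain ⟨j, hj⟩ := not_forall.1 k1
      exact corner u hu v hv j s (not_not.1 hj) s' hs'.1 k2 hs.2 hs'.2
    · have hn : ∀ t ∈ T, u ∈ t ∧ v ∈ t → ¬ ∀ j, t ∉ Rest T (W j) (L j) := fun t ht hm => by
        rcases hall t ht hm with rfl | rfl
        · exact k1
        · exact k2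
      rw [e7_I0 k1, e7_I0 k2, Pi.add_apply, Pi.add_apply, ne1 E hn, ne1 E' hn]
      simp

/-- Plan. `K` misses the axes (else it lies in a band and meets no long side). Join each position
to `H = Zs S Z`: by an edge to `S`, or by a set of `Pre.close` up to its first vertex in the zone
(after an edge into the band if the position is of the first kind). Let `γ` be the chain of the
resulting chord, with a middle part that uses `Stp` edges of `K` only; `Pre.sep` gives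
`γ = d2 T Q + a`. Let `L'` be `Q` on the mixed triangles of `U = Uu S Y W` that lie on no long
side. Its boundary on the edges that leave `U`: `γ` on an edge between two such triangles, `Q c` on
the corner edge of a corner `c`. For a long side, `Q c₀ + Q c₁` is the parity of `γ` on its edges
(each mixed triangle has two edges that leave `W j`; `Band.corner`), one of the two terms is zero
(`Pre.far_zero`, `Axis.long`), only one long side of a band is met (`Pre.wide`), and the parity of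
`γ` on all edges that leave `W j` is the number of ends of `γ` in `W j`. So the boundary is
`e + e'` with `e ⊆ c`, `e' ⊆ c'`. `side_conn` for the component of `U`, `ft_step`, `ft_corner`. -/
theorem Pre.sepa (hT : IsSurf T) (hF : Sad T F ω) (hω : 20 * ω ≤ r')
    (h : Pre T F S Y W L N ρ r r' B₀ root X Z) (h1 : Sk1 T F S Y lab W L z N' ρ' δ) :
    Sepa T F S Y lab W L z (r' / 20) := by
  intro K hKs hsm hj c c' hc hc'
  have h0 := h.pos
  have hK : Pc T F (S ∪ Y)ᶜ (r' / 20) K := ⟨hKs, fun a ha b hb => by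
    have h2 := hj a ha b hb
    clear hb
    induction h2 with
    | refl => exact Jn.refl ha
    | tail _ h3 ih => exact ih.step h3.1 h3.2.1, hsm⟩
  have hX : ∀ j, Disjoint K (X j) := fun j => by
    rw [Set.disjoint_iff_inter_eq_empty, ← Set.not_nonempty_iff_eq_empty]
    intro hn
    have hW := e7_nb h (by linarith) hK hn
    rcases hc with ⟨-, v, -, hv, hU⟩ | ⟨k, i, -, ⟨t, -, w, -, hw, hw'⟩, -, t₀, t₁, hm, hf, -⟩
    · exact e7_uw hU j (hW hv)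
    · obtain rfl := e7_same h1 (hW hw) hw'
      exact Set.not_disjoint_iff_nonempty_inter.2 hn (h.wide hT hF hω h1 hK hf.1 hf.1 hm hm).1
  obtain ⟨x, u₀, b, eu, ev, A, p, E⟩ := e7_end hT hF hω h h1 hX hc
  obtain ⟨x', u₀', b', eu', ev', A', p', E'⟩ := e7_end hT hF hω h h1 hX hc'
  obtain ⟨Q, hQ0, hQ⟩ := e7_core hT hF hω h h1 hK hX E E' (hj x E.xK x' E'.xK)
  by_cases hne : (eu, ev) = (eu', ev')
  · obtain ⟨rfl, rfl⟩ := Prod.mk.inj hne
    exact b12_step E.ft E'.ft E.eU E.eV E.ec E'.ec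
  have hDU : {v | Jn T (Uu S Y W) eu v} ⊆ Uu S Y W := fun v hv => Jn.right hv
  have hout : ∀ w ∈ {v | Jn T (Uu S Y W) eu v}, ∀ v, v ∉ {v | Jn T (Uu S Y W) eu v} → ∀ t ∈ T,
      w ∈ t → v ∈ t → v ∉ Uu S Y W := fun w hw v hv t ht m1 m2 hU =>
    hv (Jn.step hw hU (b12_adj ht m1 m2 hw hv))
  have hS : Side T {v | Jn T (Uu S Y W) eu v}
      (fun t => e7I (Mixed T {v | Jn T (Uu S Y W) eu v} t) * Q t) (edge eu ev + edge eu' ev') := by
    refine ⟨fun t _ h0 => by_contra fun hm => h0 (by beta_reduce; rw [e7_I0 hm, zero_mul]),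
      fun w hw v hv => ?_⟩
    by_cases hU : v ∈ Uu S Y W
    · rw [Pi.add_apply, Pi.add_apply, b2_edge0 E.eV (hDU hw) hU, b2_edge0 E'.eV (hDU hw) hU,
        add_zero]
      unfold d2
      split_ifs
      · rfl
      · refine Finset.sum_eq_zero fun t ht => ?_
        have := Finset.mem_filter.1 ht
        exact absurd hU (hout w hw v hv t this.1 this.2.1 this.2.2)
    · rw [← hQ w (hDU hw) v hU]
      unfold d2
      split_ifs
      · rfl
      · refine Finset.sum_congr rfl fun t ht => ?_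
        have := Finset.mem_filter.1 ht
        beta_reduce
        rw [e7_I1 ⟨this.1, ⟨w, this.2.1, hw⟩, v, this.2.2, hv⟩, one_mul]
  have d0 : eu ∈ {v | Jn T (Uu S Y W) eu v} := Jn.refl E.eU
  have n0 : ev ∉ {v | Jn T (Uu S Y W) eu v} := fun a => E.eV (hDU a)
  have n1 : ev' ∉ {v | Jn T (Uu S Y W) eu v} := fun a => E'.eV (hDU a)
  have d1' : eu' ∈ {v | Jn T (Uu S Y W) eu v} := by
    by_contra hn
    have k1 := b4_pr_d2 hT (C := {v | Jn T (Uu S Y W) eu v}) (ψ := 1) (Q := 1)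
      (fun _ _ _ _ _ _ _ _ => rfl) fun t => e7I (Mixed T {v | Jn T (Uu S Y W) eu v} t) * Q t
    rw [e7_pr (ψ' := 1) (g' := edge eu ev + edge eu' ev') fun w hw y hy => by rw [hS.2 w hw y hy],
      b4_pr_add, e7_par, e7_par, e7_I1 d0, e7_I0 n0, e7_I0 hn, e7_I0 n1] at k1
    simp only [add_zero, one_ne_zero] at k1
  obtain ⟨hc1, ⟨τ, hτ, hτ0, mτ⟩, τ', hτ', hτ0', mτ'⟩ := side_conn hT (conn_comp _ _) (h1.disc eu)
    ((e7_bdU h1).mono_left hDU) hS d0 n0 (b12_adj E.ft.1.1 E.ec.1 E.ec.2 E.eU E.eV) d1' n1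
    (b12_adj E'.ft.1.1 E'.ec.1 E'.ec.2 E'.eU E'.eV) hne
  have hr : ∀ s, e7I (Mixed T {v | Jn T (Uu S Y W) eu v} s) * Q s ≠ 0 →
      ∀ j, s ∉ Rest T (W j) (L j) := fun s hs j hj => hs (by rw [hQ0 j s hj, mul_zero])
  have hall : ∀ s, Relation.ReflTransGen (fun a b =>
      b ∈ {s | s ∈ T ∧ e7I (Mixed T {v | Jn T (Uu S Y W) eu v} s) * Q s ≠ 0} ∧
        ∃ w ∈ {v | Jn T (Uu S Y W) eu v}, ∃ v, v ∉ {v | Jn T (Uu S Y W) eu v} ∧ w ∈ a ∧ v ∈ a ∧
          w ∈ b ∧ v ∈ b) τ s → FJn (Uu S Y W) (FT T S Y lab W L z) c s := by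
    intro s hs
    induction hs with
    | refl =>
      exact b12_step E.ft (h1.ft_step hT E.ft hτ E.eU E.eV E.ec mτ (hr τ hτ0)) E.eU E.eV E.ec mτ
    | tail _ h2 ih =>
      obtain ⟨⟨a1, a2⟩, w, hw, v, hv, a3, a4, a5, a6⟩ := h2
      have hU := hout w hw v hv _ a1 a5 a6
      exact b2_step ih (h1.ft_step hT (b2_right ih) a1 (hDU hw) hU ⟨a3, a4⟩ ⟨a5, a6⟩ (hr _ a2))
        (hDU hw) hU ⟨a3, a4⟩ ⟨a5, a6⟩
  exact b2_step (hall τ' (hc1 τ ⟨hτ, hτ0⟩ τ' ⟨hτ', hτ0'⟩).2) E'.ft E'.eU E'.eV mτ' E'.ec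

end Pool.Agent.MP_17e62b_gt.T55

end

section

/-!
Absorbing the trivial discs.
-/

namespace Pool.Agent.MP_17e62b_gt.T55

open Set Metric Topology
open scoped InnerProductSpace Manifold

variable {V : Type} [Fintype V] [DecidableEq V] {T : Finset (Finset V)}
variable {n : ℕ} {F : V → EuclideanSpace ℝ (Fin n)}

variable {N N' m : ℕ} {ω ρ ρ' r r' δ : ℝ} {B₀ S Y : Set V} {root lab : V → V}
  {X W : Fin m → Set V} {Z : Fin m → Bool → Set V} {L : Fin m → Bool → Set (Finset V)}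
  {z : Fin m → Bool → V}

variable (T S Y lab W L z) in
/-- The triangle `t` faces the free label `a` only. -/
def e8Fc (t : Finset V) (a : V) : Prop := a ∉ Bd T ∧ ∀ v ∈ t, v ∉ Uu S Y W →
  (v ∈ S ∧ lab v = a) ∨ ∃ j i, z j i = a ∧ v ∈ W j ∧ t ∈ L j i

omit [Fintype V] [DecidableEq V] in
theorem e8_adj {t : Finset V} (ht : t ∈ T) {u v : V} (hu : u ∈ t) (hv : v ∈ t) :
    u = v ∨ Adj T u v := (eq_or_ne u v).imp_right fun h => ⟨h, t, ht, hu, hv⟩

theorem e8_jn {A : Set V} {t : Finset V} (ht : t ∈ T) {x u v : V} (hu : u ∈ t) (hv : v ∈ t)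
    (h : Jn T A x u) (hA : v ∈ A) : Jn T A x v :=
  (e8_adj ht hu hv).elim (fun e => e ▸ h) (h.step hA)

theorem e8_in {A B : Set V} {x y : V} (h : Jn T A x y) (hB : ∀ u, Jn T A x u → u ∈ B) :
    Jn T B x y :=
  (conn_comp A x x (Jn.refl h.1) y h).mono hB

section

variable (h : Sk1 T F S Y lab W L z N ρ δ)
include h

theorem e8_WS {j : Fin m} {v : V} (hv : v ∈ W j) : v ∉ S :=
  fun e => disjoint_left.1 (h.out j) hv (.inl e)

theorem e8_eq {j k : Fin m} {t : Finset V} (ht : t ∈ T) {v w : V} (h1 : v ∈ t) (h2 : w ∈ t)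
    (hv : v ∈ W j) (hw : w ∈ W k) : j = k := by
  by_contra e
  rcases e8_adj ht h1 h2 with rfl | a
  · exact disjoint_left.1 (h.sep j k e).1 hv hw
  · exact (h.sep j k e).2 ⟨v, hv, w, hw, a⟩

theorem e8_side {j : Fin m} {i i' : Bool} {t t' : Finset V} (ht : t ∈ L j i) (ht' : t' ∈ L j i')
    {v : V} (hv : v ∈ W j) (h1 : v ∈ t) (h2 : v ∈ t') : i = i' := by
  cases i <;> cases i'
  exacts [rfl, absurd h2 ((h.band j).apart t ht t' ht' v hv h1),
    absurd h1 ((h.band j).apart t' ht' t ht v hv h2), rfl]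

theorem e8_uniq {t t' : Finset V} {a a' v : V} (ht : t ∈ T) (h1 : e8Fc T S Y lab W L z t a)
    (h2 : e8Fc T S Y lab W L z t' a') (hv : v ∉ Uu S Y W) (h3 : v ∈ t) (h4 : v ∈ t') : a = a' := by
  rcases h1.2 v h3 hv with ⟨b1, rfl⟩ | ⟨j, i, rfl, b1, b2⟩ <;>
    rcases h2.2 v h4 hv with ⟨c1, rfl⟩ | ⟨k, i', rfl, c1, c2⟩
  · rfl
  · exact absurd b1 (e8_WS h c1)
  · exact absurd c1 (e8_WS h b1)
  · obtain rfl := e8_eq h ht h3 h3 b1 c1
    rw [e8_side h b2 c2 b1 h3 h4]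

theorem e8_fc {t : Finset V} (ht : t ∈ FT T S Y lab W L z) : ∃ a, e8Fc T S Y lab W L z t a := by
  obtain ⟨⟨h1, -, v, hv, hU⟩, h2⟩ := ht
  rcases h2 v hv hU with ⟨b1, b2⟩ | ⟨j, i, b1, b2, b3⟩
  · refine ⟨lab v, b2, fun w hw hw' => ?_⟩
    rcases h2 w hw hw' with ⟨c1, -⟩ | ⟨k, i', -, c2, c3⟩
    · exact .inl ⟨c1, (e8_adj h1 hv hw).elim (fun e => e ▸ rfl) (h.free_adj v b1 b2 w c1)⟩
    · exact .inr ⟨k, i', (h.free_L k i' t c3 v hv b1 (.inl b2)).symm, c2, c3⟩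
  · refine ⟨z j i, b1, fun w hw hw' => ?_⟩
    rcases h2 w hw hw' with ⟨c1, -⟩ | ⟨k, i', -, c2, -⟩
    · exact .inl ⟨c1, h.free_L j i t b3 w hw c1 (.inr b1)⟩
    · obtain rfl := e8_eq h h1 hv hw b2 c2
      exact .inr ⟨j, i, rfl, c2, b3⟩

theorem e8_bd (u : V) : Disjoint {v | Jn T (Uu S Y W) u v} (Bd T) :=
  disjoint_left.2 fun v hv hb => Jn.right hv (.inl (.inl (h.bd v hb).1))

theorem e8_exit (hT : IsSurf T) {u : V} (hu : u ∈ Uu S Y W) :
    ∃ x w, Jn T (Uu S Y W) u x ∧ w ∉ Uu S Y W ∧ Adj T x w := by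
  obtain ⟨b, hb⟩ := hT.bd
  obtain ⟨x, w, a1, -, a2, a3⟩ := (hT.conn u (mem_univ _) b (mem_univ _)).exit hu
    fun e => e (.inl (.inl (h.bd b hb).1))
  exact ⟨x, w, a1.mono inter_subset_right, a2, a3⟩

theorem e8_lab (hT : IsSurf T) {u : V} (hu : u ∈ Uu S Y W)
    (hD : ∀ t, Mixed T (Uu S Y W) t → (∃ v ∈ t, Jn T (Uu S Y W) u v) → t ∈ FT T S Y lab W L z) :
    ∃ a, ∀ t, Mixed T (Uu S Y W) t → (∃ v ∈ t, Jn T (Uu S Y W) u v) →
      e8Fc T S Y lab W L z t a := by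
  obtain ⟨x, w, a1, a2, -, t₀, a3, a4, a5⟩ := e8_exit h hT hu
  obtain ⟨a, ha⟩ := e8_fc h (hD t₀ ⟨a3, ⟨x, a4, a1.right⟩, w, a5, a2⟩ ⟨x, a4, a1⟩)
  refine ⟨a, fun t ht hv => ?_⟩
  obtain ⟨y, b1, b2⟩ := ht.2.2
  obtain ⟨b3, hj⟩ := fjn_all hT (conn_comp _ u) (h.disc u) (e8_bd h u)
    ⟨a3, ⟨x, a4, a1⟩, w, a5, fun e => a2 (Jn.right e)⟩ ⟨ht.1, hv, y, b1, fun e => b2 (Jn.right e)⟩
  clear ht hv b1 b2
  suffices h' : t ∈ T ∧ e8Fc T S Y lab W L z t a from h'.2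
  induction hj with
  | refl => exact ⟨a3, ha⟩
  | @tail s s' _ hs ih =>
    obtain ⟨c1, p, hp, q, hq, c2, c3, c4, c5⟩ := hs
    have c6 : q ∉ Uu S Y W := fun e => hq (e8_jn c1.1 c4 c5 hp e)
    obtain ⟨a', ha'⟩ := e8_fc h (hD s' ⟨c1.1, ⟨p, c4, Jn.right hp⟩, q, c5, c6⟩ ⟨p, c4, hp⟩)
    exact ⟨c1.1, e8_uniq h ih.1 ih.2 ha' c6 c3 c5 ▸ ha'⟩

end

/-- Plan: a component `D` of `Uu S Y W` is trivial if all its mixed triangles are free. They are
joined by `fjn_all`, so they all face one label, which `D` gets; `Sad.dist_le`. A vertex of `D` is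
joined in `D` to a mixed triangle, then `Lk`. A triangle of a long side is not free. For `iso`: a
connected set that meets `D` lies in `D` or contains a neighbour of `D`. For `sepa`: `K` misses
`D`, and a chain of free triangles that starts at a vertex of the new `Uu` stays in its
component. -/
theorem Sk1.absorb (hT : IsSurf T) (hF : Sad T F ω) (h : Sk1 T F S Y lab W L z N ρ δ)
    (h1 : Iso T F S lab W L z δ) (h2 : Sepa T F S Y lab W L z δ) :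
    ∃ S' lab', Sk T F S' Y lab' W L z N (ρ + ω) δ := by
  classical
  have : Nonempty V := ⟨hT.bd.some⟩
  have h0 := hF.nonneg
  set U := Uu S Y W with hU
  let P : V → V → Prop := fun u a =>
    ∀ t, Mixed T U t → (∃ v ∈ t, Jn T U u v) → e8Fc T S Y lab W L z t a
  let D : Set V := {u ∈ U | ∀ t, Mixed T U t → (∃ v ∈ t, Jn T U u v) → t ∈ FT T S Y lab W L z}
  let r : V → V := fun u => if u ∈ D then Classical.epsilon (P u) else lab u
  have hUS : ∀ v ∈ U, v ∉ S := fun v hv e => hv (.inl (.inl e))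
  have hUW : ∀ j, ∀ v ∈ W j, v ∉ U := fun j v hv e => e (.inr (mem_iUnion.2 ⟨j, hv⟩))
  have hr : ∀ v, v ∉ D → r v = lab v := fun v hv => if_neg hv
  have hS : ∀ v ∈ S, r v = lab v := fun v hv => hr v fun e => hUS v e.1 hv
  have hDj : ∀ u ∈ D, ∀ v, Jn T U u v → v ∈ D := fun u hu v hj =>
    ⟨hj.right, fun t ht ⟨x, a1, a2⟩ => hu.2 t ht ⟨x, a1, hj.trans a2⟩⟩
  have hrj : ∀ u ∈ D, ∀ v, Jn T U u v → r v = r u := fun u hu v hj => by
    simp only [r, if_pos hu, if_pos (hDj u hu v hj)]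
    refine congrArg Classical.epsilon (funext fun a => propext (forall_congr' fun t =>
      imp_congr_right fun _ => imp_congr_left (exists_congr fun x => and_congr_right fun _ =>
        ⟨hj.trans, hj.symm.trans⟩)))
  have hP : ∀ u ∈ D, ∀ t ∈ T, u ∈ t → ∀ w ∈ t, w ∉ U → r u ∉ Bd T ∧
      ((w ∈ S ∧ lab w = r u) ∨ ∃ j i, z j i = r u ∧ w ∈ W j ∧ t ∈ L j i) :=
    fun u hu t ht a1 w a2 a3 => by
      have a4 := Classical.epsilon_spec (p := P u) (e8_lab h hT hu.1 hu.2) t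
        ⟨ht, ⟨u, a1, hu.1⟩, w, a2, a3⟩ ⟨u, a1, Jn.refl hu.1⟩
      rw [show Classical.epsilon (P u) = r u from (if_pos hu).symm] at a4
      exact ⟨a4.1, a4.2 w a2 a3⟩
  have hU' : ∀ v, v ∈ Uu (S ∪ D) Y W ↔ v ∈ U ∧ v ∉ D := fun v => by
    simp only [hU, Uu, mem_compl_iff, mem_union, not_or]
    tauto
  have hj' : ∀ u v, u ∉ D → Jn T U u v → Jn T (Uu (S ∪ D) Y W) u v := fun u v hu hj =>
    e8_in hj fun x hx => (hU' x).2 ⟨hx.right, fun e => hu (hDj x e u hx.symm)⟩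
  have hsub : Uu (S ∪ D) Y W ⊆ U := fun v hv => ((hU' v).1 hv).1
  have htri : ∀ t ∈ T, ∀ u ∈ t, u ∈ Uu (S ∪ D) Y W → ∀ v ∈ t, v ∉ D := fun t ht u a1 hu v a2 hv =>
    ((hU' u).1 hu).2 (hDj v hv u (e8_jn ht a2 a1 (Jn.refl hv.1) (hsub hu)))
  have hFT : ∀ t ∈ T, ∀ u ∈ t, u ∈ Uu (S ∪ D) Y W →
      (t ∈ FT T (S ∪ D) Y r W L z ↔ t ∈ FT T S Y lab W L z) := fun t ht u a1 hu => by
    have a2 := htri t ht u a1 hu
    have a3 : ∀ v ∈ t, (v ∈ Uu (S ∪ D) Y W ↔ v ∈ U) := fun v hv =>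
      (hU' v).trans (and_iff_left (a2 v hv))
    refine and_congr (and_congr_right fun _ => and_congr ?_ ?_) ?_
    · exact exists_congr fun v => and_congr_right (a3 v)
    · exact exists_congr fun v => and_congr_right fun hv => (a3 v hv).not
    · refine forall₂_congr fun v hv => imp_congr (a3 v hv).not (or_congr_left ?_)
      rw [hr v (a2 v hv), mem_union, or_iff_left (a2 v hv)]
  have hFT' : FT T (S ∪ D) Y r W L z ⊆ FT T S Y lab W L z := fun t ht => by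
    obtain ⟨u, a1, a2⟩ := ht.1.2.1
    exact (hFT t ht.1.1 u a1 a2).1 ht
  have hlk : ∀ s ∈ S, Relation.ReflTransGen (Lk T (S ∪ D) r L z) s (lab s) := fun s hs => by
    have a1 : ∀ b, Relation.ReflTransGen (Lk T S lab L z) s b →
        b ∈ S ∧ Relation.ReflTransGen (Lk T (S ∪ D) r L z) s b := fun b hb => by
      induction hb with
      | refl => exact ⟨hs, .refl⟩
      | tail _ a2 ih =>
        refine ⟨a2.1, ih.2.tail ⟨.inl a2.1, ?_⟩⟩
        rw [hS _ a2.1, hS _ ih.1]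
        exact a2.2
    exact (a1 _ (h.cls s hs).2.2).2
  have hD : ∀ u ∈ D, ∃ s ∈ S, lab s = r u ∧ Relation.ReflTransGen (Lk T (S ∪ D) r L z) u s :=
    fun u hu => by
      obtain ⟨x, w, a1, a2, a3, t, a4, a5, a6⟩ := e8_exit h hT hu.1
      have a7 : Relation.ReflTransGen (Lk T (S ∪ D) r L z) u x := by
        obtain ⟨a8, a9⟩ := a1
        clear a3 a5
        induction a9 with
        | refl => exact .refl
        | @tail p q b1 b2 ih =>
          have b3 : Jn T U u p := ⟨a8, b1⟩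
          have b4 : Jn T U u q := b3.step b2.1 b2.2
          exact ih.tail ⟨.inr (hDj u hu q b4), (hrj u hu q b4).trans (hrj u hu p b3).symm, .inl b2.2⟩
      rw [← hrj u hu x a1]
      rcases (hP x (hDj u hu x a1) t a4 a5 w a6 a2).2 with ⟨b1, b2⟩ | ⟨j, i, b1, -, b2⟩
      · exact ⟨w, b1, b2, a7.tail ⟨.inl b1, (hS w b1).trans b2, .inl ⟨a3, t, a4, a5, a6⟩⟩⟩
      · obtain ⟨t', b3, s, b4, b5, b6⟩ := h.touch j i
        exact ⟨s, b5, b6.trans b1, a7.tail ⟨.inl b5, (hS s b5).trans (b6.trans b1),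
          .inr ⟨j, i, b1, ⟨t, b2, a5⟩, t', b3, b4⟩⟩⟩
  have hrest : ∀ j t, Mixed T (W j) t → t ∉ L j false → t ∉ L j true →
      ∀ v ∈ t, v ∈ W j ∨ v ∈ Uu (S ∪ D) Y W := fun j t ht a1 a2 v hv => by
    refine ((h.band j).rest t ht a1 a2 v hv).imp_right fun a3 => (hU' v).2 ⟨a3, fun a4 => ?_⟩
    obtain ⟨w, a5, a6⟩ := ht.2.1
    rcases (hP v a4 t ht.1 hv w a5 (hUW j w a6)).2 with ⟨b1, -⟩ | ⟨k, i, -, b1, b2⟩
    · exact e8_WS h a6 b1
    · obtain rfl := e8_eq h ht.1 a5 a5 a6 b1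
      cases i
      exacts [a1 b2, a2 b2]
  have hDS : ∀ u ∈ D, ∀ s ∈ S, Adj T u s → lab s = r u := by
    rintro u hu s hs ⟨-, t, a1, a2, a3⟩
    rcases (hP u hu t a1 a2 s a3 fun e => hUS s e hs).2 with ⟨-, b1⟩ | ⟨j, -, -, b1, -⟩
    exacts [b1, absurd hs (e8_WS h b1)]
  refine ⟨S ∪ D, r, {
    few := le_trans (ncard_le_ncard (sdiff_subset_sdiff_left ?_) (toFinite _)) h.few
    m_le := h.m_le
    rad := ?_
    radL := fun j i t ht v hv => (h.radL j i t ht v hv).trans (by linarith)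
    bd := fun v hv => ⟨.inl (h.bd v hv).1, hS v (h.bd v hv).1 ▸ (h.bd v hv).2⟩
    cls := ?_
    touch := fun j i => ?_
    disj := disjoint_union_left.2 ⟨h.disj, disjoint_left.2 fun v hv e => hv.1 (.inl (.inr e))⟩
    tube := fun y hy => ?_
    out := fun j => disjoint_left.2 fun v hv e => ?_
    sep := h.sep
    band := fun j => { h.band j with
      rest := hrest j
      small := fun i u hu v hv => ((h.band j).small i u hu v hv).trans (by linarith only [h0])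
      touch := fun i => ((h.band j).touch i).imp fun t ht =>
        ⟨ht.1, ht.2.imp fun v hv => ⟨hv.1, .inl hv.2⟩⟩ }
    disc := fun u => ?_
    free_adj := ?_
    free_L := ?_
    iso := fun K hK a a' ha => ?_
    sepa := fun K a1 a2 a3 c c' a4 a5 => ?_
    nontriv := fun u hu => ?_ }⟩
  · rintro _ ⟨v, hv | hv, rfl⟩
    · exact ⟨v, hv, (hS v hv).symm⟩
    · obtain ⟨s, a1, a2, -⟩ := hD v hv
      exact ⟨s, a1, a2⟩
  · rintro v (hv | hv)
    · rw [hS v hv]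
      linarith [h.rad v hv]
    · refine hF.dist_le hT (e8_bd h v) (fun x hx w hw ⟨a1, t, a2, a3, a4⟩ => ?_) v (Jn.refl hv.1)
      rw [← hrj v hv x hx]
      rcases (hP x (hDj v hv x hx) t a2 a3 w a4 fun e => hw (e8_jn a2 a3 a4 hx e)).2 with
        ⟨b1, b2⟩ | ⟨j, i, b1, -, b2⟩
      exacts [b2 ▸ h.rad w b1, b1 ▸ h.radL j i t b2 w a4]
  · rintro v (hv | hv)
    · rw [hS v hv, hS _ (h.cls v hv).1]
      exact ⟨.inl (h.cls v hv).1, (h.cls v hv).2.1, hlk v hv⟩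
    · obtain ⟨s, a1, a2, a3⟩ := hD v hv
      rw [← a2, hS _ (h.cls s a1).1]
      exact ⟨.inl (h.cls s a1).1, (h.cls s a1).2.1, a3.trans (hlk s a1)⟩
  · obtain ⟨t, a1, s, a2, a3, a4⟩ := h.touch j i
    exact ⟨t, a1, s, a2, .inl a3, (hS s a3).trans a4⟩
  · obtain ⟨a, b, a1⟩ := h.tube y hy
    refine ⟨a, b, fun u hu w hw ha => ?_⟩
    obtain ⟨a2, a3⟩ := a1 u hu w hw ha
    exact ⟨.inl a2, hS w a2 ▸ a3⟩
  · rcases e with (e | e) | e
    exacts [e8_WS h hv e, hUW j v hv e.1, disjoint_left.1 (h.out j) hv (.inr e)]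
  · by_cases hu : u ∈ D
    · refine fun c hc => ⟨0, fun t _ e => absurd rfl e, d2_zero.trans ?_⟩
      funext x y
      by_contra e
      exact ((hU' u).1 (hc.1.2 x y (Ne.symm e)).1.1).2 hu
    · rw [show {v | Jn T (Uu (S ∪ D) Y W) u v} = {v | Jn T U u v} from
        Set.ext fun v => ⟨fun e => Jn.mono e hsub, hj' u v hu⟩]
      exact h.disc u
  · rintro s (hs | hs) a1 s' (hs' | hs') a2
    · rw [hS s hs] at a1 ⊢
      rw [hS s' hs']
      exact h.free_adj s hs a1 s' hs' a2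
    · rw [hS s hs, hDS s' hs' s hs a2.symm]
    · rw [hS s' hs', hDS s hs s' hs' a2]
    · exact hrj s hs s' ((Jn.refl hs.1).step hs'.1 a2)
  · rintro j i t ht s a1 (hs | hs) a2
    · rw [hS s hs] at a2 ⊢
      exact h.free_L j i t ht s a1 hs a2
    · obtain ⟨a3, ⟨w, a4, a5⟩, -⟩ := (h.band j).mix i t ht
      rcases (hP s hs t a3 a1 w a4 (hUW j w a5)).2 with ⟨b1, -⟩ | ⟨k, i', b1, b2, b3⟩
      · exact absurd b1 (e8_WS h a5)
      · obtain rfl := e8_eq h a3 a4 a4 a5 b2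
        rw [← b1, e8_side h ht b3 a5 a4 a4]
  · have a1 : ∀ b, ∀ x ∈ K ∩ Own (S ∪ D) r W L z b, (K ∩ Own S lab W L z b).Nonempty ∨
        ∀ b', ∀ y ∈ K ∩ Own (S ∪ D) r W L z b', b = b' := by
      rintro b x ⟨hx, ⟨b1 | b1, rfl⟩ | b1⟩
      · exact .inl ⟨x, hx, .inl ⟨b1, (hS x b1).symm⟩⟩
      · by_cases b2 : ∀ y ∈ K, Jn T U x y
        · refine .inr ?_
          rintro b' y ⟨hy, ⟨-, rfl⟩ | ⟨j, -, -, b3, -⟩⟩
          · exact (hrj x b1 y (b2 y hy)).symm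
          · exact absurd (b2 y hy).right (hUW j y b3)
        · push Not at b2
          obtain ⟨y, hy, b2⟩ := b2
          obtain ⟨p, q, c1, c2, c3, -, t, c4, c5, c6⟩ :=
            (hK.2.1 x hx y hy).exit (C := {v | Jn T U x v}) (Jn.refl b1.1) b2
          have c7 : Jn T U x p := c1.right.2
          refine .inl ⟨q, c2, ?_⟩
          rw [← hrj x b1 p c7]
          exact (hP p (hDj x b1 p c7) t c4 c5 q c6 fun e => c3 (e8_jn c4 c5 c6 c7 e)).2.imp_right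
            fun ⟨j, i, d1, d2, d3⟩ => ⟨j, i, d1, d2, t, d3, c6⟩
      · exact .inl ⟨x, hx, .inr b1⟩
    rintro ⟨x, hx⟩ ⟨y, hy⟩
    rcases a1 a x hx with b1 | b1
    · exact (a1 a' y hy).elim (h1 K hK a a' ha b1) fun b2 => (b2 a x hx).symm
    · exact b1 a' y hy
  · have b1 : ∀ c, Pos T (S ∪ D) Y r W L z K c → Pos T S Y lab W L z K c := fun c hc =>
      hc.imp_left fun ⟨d1, v, d2, d3, d4⟩ => ⟨hFT' d1, v, d2, d3, hsub d4⟩
    obtain ⟨b2, b3⟩ := h2 K (fun v hv e => a1 hv (e.imp_left .inl)) a2 (fun x hx y hy =>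
      Relation.ReflTransGen.mono (fun p q e => ⟨e.1, e.2.1, e.2.2.imp_left fun d =>
        ⟨hsub d.1, hsub d.2⟩⟩) _ _ (a3 x hx y hy))
      c c' (b1 c a4) (b1 c' a5)
    have b4 : c ∈ FT T (S ∪ D) Y r W L z := by
      rcases a4 with ⟨d1, -⟩ | ⟨j, i, -, -, -, t₀, t₁, -, d1, w, -, u, d2, -, d3, -, d4⟩
      · exact d1
      · obtain ⟨d5, d6⟩ := d1.symm.1
        exact (hFT c b2.1.1 u d4 ((hrest j t₁ d5 (fun e => d6 (.inl e)) (fun e => d6 (.inr e))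
          u d3).resolve_left d2)).2 b2
    refine ⟨b4, ?_⟩
    clear a5
    suffices h' : c' ∈ FT T (S ∪ D) Y r W L z ∧ _ from h'.2
    induction b3 with
    | refl => exact ⟨b4, .refl⟩
    | @tail s s' _ hs ih =>
      obtain ⟨c1, p, hp, q, hq, c2, c3, c4, c5⟩ := hs
      obtain ⟨u, d1, d2⟩ := ih.1.1.2.1
      have d3 : p ∈ Uu (S ∪ D) Y W := (hU' p).2 ⟨hp, htri s ih.1.1.1 u d1 d2 p c2⟩
      have d4 := (hFT s' c1.1.1 p c4 d3).2 c1
      exact ⟨d4, ih.2.tail ⟨d4, p, d3, q, fun e => hq (hsub e), c2, c3, c4, c5⟩⟩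
  · obtain ⟨a1, a2⟩ := (hU' u).1 hu
    have a3 : ¬ ∀ t, Mixed T U t → (∃ v ∈ t, Jn T U u v) → t ∈ FT T S Y lab W L z :=
      fun e => a2 ⟨a1, e⟩
    simp only [not_forall] at a3
    obtain ⟨t, ⟨b1, -, w, b2, b3⟩, ⟨v, b4, b5⟩, b6⟩ := a3
    have b7 := hj' u v a2 b5
    exact ⟨t, ⟨b1, ⟨v, b4, b7.right⟩, w, b2, fun e => b3 (hsub e)⟩, ⟨v, b4, b7⟩,
      fun e => b6 (hFT' e)⟩

end Pool.Agent.MP_17e62b_gt.T55

end

section

/-!
The labelled skeleton exists.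
-/

namespace Pool.Agent.MP_17e62b_gt.T55

open Set Metric Topology
open scoped InnerProductSpace Manifold

variable {V : Type} [Fintype V] [DecidableEq V] {T : Finset (Finset V)}
variable {n : ℕ} {F : V → EuclideanSpace ℝ (Fin n)}

variable {N N' m : ℕ} {ω ρ ρ' r r' δ : ℝ} {B₀ S Y : Set V} {root lab : V → V}
  {X W : Fin m → Set V} {Z : Fin m → Bool → Set V} {L : Fin m → Bool → Set (Finset V)}
  {z : Fin m → Bool → V}

theorem Sk.mono (h : Sk T F S Y lab W L z N ρ δ) {δ' : ℝ} (hρ : ρ ≤ ρ') (hδ : δ' ≤ δ) :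
    Sk T F S Y lab W L z N ρ' δ' := by
  refine { h with
    rad := fun v hv => (h.rad v hv).trans hρ
    radL := fun j i t ht v hv => (h.radL j i t ht v hv).trans hρ
    band := fun j => { h.band j with
      small := fun i u hu v hv => ((h.band j).small i u hu v hv).trans hρ
      long := fun K hK => (h.band j).long K (hK.mono hK.1 hδ)
      wide := fun K hK => (h.band j).wide K (hK.mono hK.1 hδ) }
    iso := fun K hK => h.iso K (hK.mono hK.1 hδ)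
    sepa := fun K h1 h2 => h.sepa K h1 fun u hu v hv => (h2 u hu v hv).trans hδ }

/-- Plan: `rk`, `inv_sep`, `Inv.anti` with `r' = r / 10`, `Inv.skel`, `Skel.label`, `Pre.iso`,
`Pre.sepa`, `Sk1.absorb`, `Sk.mono`. -/
theorem sk (n N₀ : ℕ) : ∃ N : ℕ, ∀ ρ : ℝ, 0 < ρ → ∃ δ : ℝ, 0 < δ ∧ δ ≤ ρ ∧
    ∀ (V : Type) [Fintype V] [DecidableEq V] (T : Finset (Finset V))
      (F : V → EuclideanSpace ℝ (Fin n)), IsSurf T → 1 - chi T ≤ N₀ → Sad T F δ →
      ∃ (S Y : Set V) (lab : V → V) (m : ℕ) (W : Fin m → Set V)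
        (L : Fin m → Bool → Set (Finset V)) (z : Fin m → Bool → V),
        Sk T F S Y lab W L z N ρ (3 * δ) := by
  obtain ⟨N, hN⟩ := inv_sep n N₀
  refine ⟨N, fun ρ hρ => ?_⟩
  have h0 : (0 : ℝ) ≤ N := Nat.cast_nonneg N
  obtain ⟨ρ₁, e⟩ : ∃ ρ₁ : ℝ, ρ = (21 * N + 21) * ρ₁ := ⟨ρ / (21 * N + 21), by field_simp⟩
  have h1 : 0 < ρ₁ := (pos_iff_pos_of_mul_pos (e ▸ hρ : 0 < (21 * N + 21) * ρ₁)).1 (by positivity)
  have h2 : 0 ≤ N * ρ₁ := by positivity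
  obtain ⟨r₀, a1, a2, a3⟩ := hN ρ₁ h1
  refine ⟨r₀ / 10000000, by positivity, by linarith, fun V _ _ T F hT hc hF => ?_⟩
  obtain ⟨B₀, S, Y, root, m, X, Z, r, b1, b2, b3, b4, b5, b6⟩ :=
    a3 V T F _ hT (rk hT hc) hF (by linarith only [])
  have c1 : 20 * (r₀ / 10000000) ≤ r / 10 := by linarith only [a1, b2]
  obtain ⟨W, L, c2, c3, c4⟩ := (b4.anti hT (r' := r / 10) (by linarith only [a1, b2]) (by linarith only [a1, b2])).skel hT hF c1
    h1.le b5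
  obtain ⟨lab, z, c5⟩ := c2.label hF (by linarith only [h1, a1, b2]) b1
  have c6 : Pre T F S Y W L N ρ₁ r (r / 10) B₀ root X Z :=
    ⟨b4, b6, by linarith only [a1, b2], by linarith only [], c3, c4⟩
  obtain ⟨S', lab', c7⟩ := c5.absorb hT hF (c6.iso hT hF c1 c5) (c6.sepa hT hF c1 c5)
  refine ⟨S', Y, lab', m, W, L, z, c7.mono ?_ (by linarith only [a1, b2])⟩
  linarith only [mul_le_mul_of_nonneg_left b3 h0, e, h1, h2, a2, b3]

end Pool.Agent.MP_17e62b_gt.T55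

end

section

/-!
Values on the tubes.
-/

namespace Pool.Agent.MP_17e62b_gt.T55

open Set Metric Topology
open scoped InnerProductSpace

variable {V : Type} [Fintype V] [DecidableEq V] {T : Finset (Finset V)}
variable {n : ℕ} {F : V → EuclideanSpace ℝ (Fin n)}

theorem f7_bound {H : Set V} {f g : V → ℝ} {ω c : ℝ} (h0 : 0 ≤ ω) (hfg : ∀ v, f v ≤ g v) {v : V}
    (he : ∀ u ∈ Hᶜ, ¬ Jn T {w ∈ univ | f w < c} v u)
    (h : ∀ H' ⊆ H, ∀ c : ℝ, (∀ v ∈ H', ∀ w, w ∉ H' → Adj T v w → -g w ≤ c) →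
      ∀ v ∈ H', -g v ≤ c + ω) : c ≤ g v + ω := by
  rcases le_or_gt c (g v) with h1 | h1
  · linarith
  have := h {u | Jn T {w | g w < c} v u} (fun u hu => by
      by_contra h2
      exact he u h2 (Jn.mono hu fun w hw => ⟨mem_univ _, (hfg w).trans_lt hw⟩)) (-c)
    (fun u hu w hw ha => neg_le_neg (not_lt.1 fun h2 => hw (Jn.step hu h2 ha))) v (Jn.refl h1)
  linarith

/-- Levelling. Plan: `τ₁ v` is the largest `c` such that a path with `c ≤ τ₀` leads from `v` out of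
`H`; `τ v` is the smallest `c` such that a path with `τ₁ ≤ c` leads out of `H`. A plateau of `τ` at
the level `c` either has a point with `τ₁ = c`, or a path leaves it and gives a smaller level. -/
theorem level {H : Set V} (hH : ∀ v ∈ H, ∃ u w, Jn T H v u ∧ w ∉ H ∧ Adj T u w) {τ₀ : V → ℝ}
    {ω : ℝ} (h0 : 0 ≤ ω)
    (h : ∀ (s : ℝ), s = 1 ∨ s = -1 → ∀ H' ⊆ H, ∀ c : ℝ,
      (∀ v ∈ H', ∀ w, w ∉ H' → Adj T v w → s * τ₀ w ≤ c) → ∀ v ∈ H', s * τ₀ v ≤ c + ω) :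
    ∃ τ : V → ℝ, (∀ v, v ∉ H → τ v = τ₀ v) ∧ (∀ v, |τ v - τ₀ v| ≤ ω) ∧ (∀ v, τ v ∈ range τ₀) ∧
      ∀ (s : ℝ), s = 1 ∨ s = -1 → ∀ X ⊆ H, ∀ c : ℝ,
        (∀ v ∈ X, s * τ v = c ∧ ∀ w, Adj T v w → s * τ w ≤ c ∧ (s * τ w = c → w ∈ X)) →
        X = ∅ := by
  have hG : ∀ v ∈ (univ : Set V), ∃ u ∈ Hᶜ, Jn T univ v u := fun v _ => by
    by_cases hv : v ∈ H
    · obtain ⟨u, w, h1, h2, h3⟩ := hH v hv
      exact ⟨w, h2, (h1.mono (subset_univ _)).step (mem_univ _) h3⟩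
    · exact ⟨v, hv, .refl (mem_univ _)⟩
  obtain ⟨k, hk⟩ := b5_minimax (T := T) (fun v => -τ₀ v) hG
  obtain ⟨τ, hτ⟩ := b5_minimax (T := T) (fun v => -k v) hG
  replace hk := fun v => hk v (mem_univ _)
  replace hτ := fun v => hτ v (mem_univ _)
  have k1 : ∀ v, -τ₀ v ≤ k v := fun v => (hk v).2.1
  have t1 : ∀ v, -k v ≤ τ v := fun v => (hτ v).2.1
  have k2 : ∀ v, k v ≤ -τ₀ v + ω := fun v =>
    f7_bound (f := fun v => -τ₀ v) (g := fun v => -τ₀ v) h0 (fun _ => le_rfl) (hk v).2.2.2.2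
      (by simpa only [neg_neg, one_mul] using h 1 (.inl rfl))
  have t2 : ∀ v, τ v ≤ τ₀ v + ω := fun v =>
    f7_bound (f := fun v => -k v) h0 (fun v => by linarith [k1 v]) (hτ v).2.2.2.2
      (by simpa only [neg_mul, one_mul] using h (-1) (.inr rfl))
  refine ⟨τ, fun v hv => ?_, fun v => ?_, fun v => ?_, ?_⟩
  · have a1 : k v ≤ -τ₀ v := not_lt.1 fun e => (hk v).2.2.2.2 v hv (.refl ⟨mem_univ _, e⟩)
    have a2 : τ v ≤ -k v := not_lt.1 fun e => (hτ v).2.2.2.2 v hv (.refl ⟨mem_univ _, e⟩)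
    linarith [k1 v, t1 v]
  · rw [abs_le]
    constructor <;> linarith [k2 v, t1 v, t2 v]
  · obtain ⟨w, -, e⟩ := (hτ v).1
    obtain ⟨w', -, e'⟩ := (hk w).1
    exact ⟨w', by rw [e, e', neg_neg]⟩
  rintro s (rfl | rfl) X hX c hc <;> refine eq_empty_of_forall_notMem fun v hv => ?_
  · simp only [one_mul] at hc
    by_cases h1 : ∃ x ∈ X, -k x = c
    · obtain ⟨x, hx, e⟩ := h1
      obtain ⟨u, hu, hj⟩ := (hk x).2.2.2.1
      obtain ⟨u', w, b1, b2, b3, b4⟩ := hj.exit hx fun e => hu (hX e)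
      obtain ⟨c1, c2⟩ := (hc u' b1.right.2).2 w b4
      exact b3 (c2 (le_antisymm c1 (by linarith [t1 w, b2.2])))
    · obtain ⟨u, hu, hj⟩ := hG v (mem_univ _)
      obtain ⟨u', w, b1, -, b3, b4⟩ := hj.exit hv fun e => hu (hX e)
      have hu' := b1.right.2
      obtain ⟨c0, c3⟩ := hc u' hu'
      obtain ⟨c1, c2⟩ := c3 w b4
      have c4 : τ w < τ u' := c0 ▸ lt_of_le_of_ne c1 fun e => b3 (c2 e)
      have c5 : -k u' < τ u' := lt_of_le_of_ne (t1 u') fun e => h1 ⟨u', hu', e.trans c0⟩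
      obtain ⟨x, hx, hj'⟩ := (hτ w).2.2.1
      refine (hτ u').2.2.2.2 x hx (Jn.trans (Jn.step (.refl ⟨mem_univ _, c5⟩)
        ⟨mem_univ _, (t1 w).trans_lt c4⟩ b4) (hj'.mono fun y hy => ⟨hy.1, hy.2.trans_lt c4⟩))
  · simp only [neg_mul, one_mul] at hc
    obtain ⟨u, hu, hj⟩ := (hτ v).2.2.2.1
    obtain ⟨u', w, b1, b2, b3, b4⟩ := hj.exit hv fun e => hu (hX e)
    obtain ⟨c1, c2⟩ := (hc u' b1.right.2).2 w b4
    exact b3 (c2 (le_antisymm c1 (by linarith [(hc v hv).1, b2.2])))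

variable {N m : ℕ} {ω ρ δ ε : ℝ} {S Y : Set V} {lab : V → V} {W : Fin m → Set V}
  {L : Fin m → Bool → Set (Finset V)} {z : Fin m → Bool → V}

theorem f7_max (hF : Sad T F ω) {C D : Set V} (hb : Disjoint C (Bd T)) (hD : D ⊆ C)
    (ν q : EuclideanSpace ℝ (Fin n)) {c : ℝ}
    (h : ∀ u ∈ D, ∀ w, w ∉ D → Adj T u w → ⟪ν, F w - q⟫_ℝ ≤ c) {v : V} (hv : v ∈ D) :
    ⟪ν, F v - q⟫_ℝ ≤ c + ω * ‖ν‖ := by
  have := hF.maxp D ν (c + ⟪ν, q⟫_ℝ) (hb.mono_left hD) (fun u hu w hw ha => by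
      have := h u hu w hw ha
      rw [inner_sub_right] at this
      linarith) v hv
  rw [inner_sub_right]
  linarith

theorem f7_comp (hF : Sad T F ω) (hρ : 0 ≤ ρ) {C : Set V} (hb : Disjoint C (Bd T)) {a b : V}
    (hC : ∀ u ∈ C, ∀ w, w ∉ C → Adj T u w →
      (lab w = a ∨ lab w = b) ∧ dist (F w) (F (lab w)) ≤ ρ)
    (hH : ∀ v ∈ C, ∃ u w, Jn T C v u ∧ w ∉ C ∧ Adj T u w) :
    ∃ τ : V → ℝ, (∀ v, v ∉ C → τ v = if lab v = a then 0 else 1) ∧ (∀ v, 0 ≤ τ v ∧ τ v ≤ 1) ∧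
      (∀ v ∈ C, ‖F v - F a - τ v • (F b - F a)‖ ≤ 4 * (ρ + ω)) ∧
      ∀ (s : ℝ), s = 1 ∨ s = -1 → ∀ X ⊆ C, ∀ c : ℝ,
        (∀ v ∈ X, s * τ v = c ∧ ∀ w, Adj T v w → s * τ w ≤ c ∧ (s * τ w = c → w ∈ X)) →
        X = ∅ := by
  classical
  have h0 := hF.nonneg
  set d := F b - F a with hdd
  set l := ‖d‖ with hl
  have hl0 : 0 ≤ l := norm_nonneg _
  let s : V → ℝ := fun v => ⟪d, F v - F a⟫_ℝ
  have hi : ∀ ν w x, dist (F w) (F x) ≤ ρ → ⟪ν, F w - F x⟫_ℝ ≤ ρ * ‖ν‖ := fun ν w x hw => by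
    refine (real_inner_le_norm _ _).trans ?_
    rw [mul_comm, ← dist_eq_norm]
    exact mul_le_mul_of_nonneg_right hw (norm_nonneg _)
  have ht1 : ∀ ν w, ⟪ν, F w - F a⟫_ℝ = ⟪ν, F w - F b⟫_ℝ + ⟪ν, d⟫_ℝ := fun ν w => by
    rw [← inner_add_right, hdd, sub_add_sub_cancel]
  have hdd2 : ⟪d, d⟫_ℝ = l ^ 2 := real_inner_self_eq_norm_sq d
  have hρl : 0 ≤ ρ * l := by positivity
  have hωl : 0 ≤ ω * l := by positivity
  have hl2 : 0 ≤ l ^ 2 := by positivity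
  have hsa : ∀ w, dist (F w) (F a) ≤ ρ → -(ρ * l) ≤ s w ∧ s w ≤ ρ * l := fun w hw => by
    have a1 := hi (-d) w a hw
    rw [inner_neg_left, norm_neg] at a1
    exact ⟨by simp only [s]; linarith, hi d w a hw⟩
  have hsb : ∀ w, dist (F w) (F b) ≤ ρ → l ^ 2 - ρ * l ≤ s w ∧ s w ≤ l ^ 2 + ρ * l :=
    fun w hw => by
    have a1 := hi (-d) w b hw
    have a2 := hi d w b hw
    rw [inner_neg_left, norm_neg] at a1
    simp only [s, ht1 d w, hdd2]
    constructor <;> linarith only [a1, a2]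
  have up : ∀ D ⊆ C, ∀ v ∈ D, ∀ c, (∀ u ∈ D, ∀ w, w ∉ D → Adj T u w → s w ≤ c) →
      s v ≤ c + ω * l := fun D hD v hv c h => f7_max hF hb hD d _ h hv
  have lo : ∀ D ⊆ C, ∀ v ∈ D, ∀ c, (∀ u ∈ D, ∀ w, w ∉ D → Adj T u w → c ≤ s w) →
      c - ω * l ≤ s v := fun D hD v hv c h => by
    have := f7_max hF hb hD (-d) (F a) (c := -c) (fun u a1 w a2 a3 => by
      rw [inner_neg_left]
      exact neg_le_neg (h u a1 w a2 a3)) hv
    rw [inner_neg_left, norm_neg] at this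
    simp only [s]
    linarith
  have hsC : ∀ v ∈ C, -((ρ + ω) * l) ≤ s v ∧ s v ≤ l ^ 2 + (ρ + ω) * l := fun v hv => by
    have a1 := lo C subset_rfl v hv (-(ρ * l)) fun u a1 w a2 a3 => by
      obtain ⟨e | e, e'⟩ := hC u a1 w a2 a3 <;> rw [e] at e'
      · exact (hsa w e').1
      · linarith [(hsb w e').1]
    have a2 := up C subset_rfl v hv (l ^ 2 + ρ * l) fun u a1 w a2 a3 => by
      obtain ⟨e | e, e'⟩ := hC u a1 w a2 a3 <;> rw [e] at e'
      · linarith [(hsa w e').2]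
      · exact (hsb w e').2
    constructor <;> linarith
  let τ₀ : V → ℝ := fun v =>
    if v ∈ C then max 0 (min 1 (s v / l ^ 2)) else if lab v = a then 0 else 1
  have t0 : ∀ v, 0 ≤ τ₀ v ∧ τ₀ v ≤ 1 := fun v => by
    simp only [τ₀]
    split_ifs
    exacts [⟨le_max_left _ _, max_le zero_le_one (min_le_left _ _)⟩, ⟨le_rfl, zero_le_one⟩,
      ⟨zero_le_one, le_rfl⟩]
  have hex : ∀ D ⊆ C, ∀ v ∈ D, ∃ u ∈ D, ∃ w, w ∉ D ∧ Adj T u w := fun D hD v hv => by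
    by_contra h1
    have := up D hD v hv (s v - ω * l - 1) fun u a1 w a2 a3 => (h1 ⟨u, a1, w, a2, a3⟩).elim
    linarith only [this]
  obtain ⟨ω', w0, w1, w2⟩ : ∃ ω' : ℝ, 0 ≤ ω' ∧ ω' * l ^ 2 ≤ (ρ + ω) * l ∧
      (1 ≤ ω' ∨ (0 < l ∧ (ρ + ω) * l ≤ ω' * l ^ 2)) := by
    rcases hl0.eq_or_lt with e | e
    · exact ⟨1, zero_le_one, by simp [← e], .inl le_rfl⟩
    · have : (ρ + ω) / l * l ^ 2 = (ρ + ω) * l := by field_simp
      exact ⟨(ρ + ω) / l, by positivity, this.le, .inr ⟨e, this.ge⟩⟩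
  obtain ⟨τ, a1, a2, a3, a4⟩ := level (τ₀ := τ₀) hH w0 (by
    rintro σ (rfl | rfl) D hD c hc v hv
    · simp only [one_mul] at hc ⊢
      obtain ⟨u₀, hu₀, w₀, b1, b2⟩ := hex D hD v hv
      have c0 : 0 ≤ c := (t0 w₀).1.trans (hc u₀ hu₀ w₀ b1 b2)
      rcases le_or_gt 1 c with c1 | c1
      · linarith only [(t0 v).2, w0, c1]
      rcases w2 with w2 | ⟨w2, w3⟩
      · linarith [(t0 v).2]
      have h3 : 0 < l ^ 2 := pow_pos w2 2
      have h4 : 0 ≤ c * l ^ 2 := by positivity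
      have := up D hD v hv (c * l ^ 2 + ρ * l) fun u b3 w b4 b5 => by
        have b6 := hc u b3 w b4 b5
        simp only [τ₀] at b6
        split_ifs at b6 with b7 b8
        · have b9 : s w / l ^ 2 ≤ c :=
            (min_le_iff.1 ((le_max_right _ _).trans b6)).resolve_left c1.not_ge
          linarith only [(div_le_iff₀ h3).1 b9, hρl]
        · linarith only [(hsa w (b8 ▸ (hC u (hD b3) w b7 b5).2)).2, h4]
        · exact absurd b6 c1.not_ge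
      simp only [τ₀, if_pos (hD hv)]
      exact max_le (by linarith) ((min_le_right _ _).trans ((div_le_iff₀ h3).2 (by linarith)))
    · simp only [neg_mul, one_mul] at hc ⊢
      obtain ⟨u₀, hu₀, w₀, b1, b2⟩ := hex D hD v hv
      have c0 : -1 ≤ c := by linarith only [(t0 w₀).2, hc u₀ hu₀ w₀ b1 b2]
      rcases le_or_gt 0 c with c1 | c1
      · linarith [(t0 v).1]
      rcases w2 with w2 | ⟨w2, w3⟩
      · linarith [(t0 v).1]
      have h3 : 0 < l ^ 2 := pow_pos w2 2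
      have h4 : -c * l ^ 2 ≤ l ^ 2 := by nlinarith only [c0]
      have := lo D hD v hv (-c * l ^ 2 - ρ * l) fun u b3 w b4 b5 => by
        have b6 := neg_le.1 (hc u b3 w b4 b5)
        simp only [τ₀] at b6
        split_ifs at b6 with b7 b8
        · have b9 : -c ≤ s w / l ^ 2 :=
            ((le_max_iff.1 b6).resolve_left (by linarith only [c1])).trans (min_le_right _ _)
          linarith only [(le_div_iff₀ h3).1 b9, hρl]
        · linarith only [c1, b6]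
        · obtain ⟨e, e'⟩ := hC u (hD b3) w b7 b5
          linarith [(hsb w (e.resolve_left b8 ▸ e')).1]
      simp only [τ₀, if_pos (hD hv)]
      have h5 : -c - ω' ≤ min 1 (s v / l ^ 2) :=
        le_min (by linarith) ((le_div_iff₀ h3).2 (by linarith))
      linarith [le_max_right 0 (min 1 (s v / l ^ 2))])
  refine ⟨τ, fun v hv => by rw [a1 v hv]; exact if_neg hv, fun v => ?_, fun v hv => ?_, a4⟩
  · obtain ⟨w, e⟩ := a3 v
    exact e ▸ t0 w
  have hκ : 0 ≤ ρ + ω := add_nonneg hρ h0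
  refine b5_geo hκ (fun ν hν => ?_) ?_
  · have := f7_max hF hb subset_rfl ν (F a) (c := ρ * ‖ν‖) (fun u b1 w b2 b3 => by
      obtain ⟨e | e, e'⟩ := hC u b1 w b2 b3 <;> rw [e] at e'
      · exact hi ν w a e'
      · rw [ht1, hν, add_zero]
        exact hi ν w b e') hv
    linarith
  · have b1 := b5_clamp hl0 hκ (hsC v hv).1 (hsC v hv).2
    have b2 := a2 v
    simp only [τ₀, if_pos hv] at b2
    have b3 := mul_le_mul_of_nonneg_right (abs_le.1 b2).1 hl2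
    have b4 := mul_le_mul_of_nonneg_right (abs_le.1 b2).2 hl2
    have b5 : 0 ≤ (ρ + ω) * l := mul_nonneg hκ hl0
    rw [abs_le] at b1 ⊢
    change -(3 * (ρ + ω) * l) ≤ s v - τ v * l ^ 2 ∧ s v - τ v * l ^ 2 ≤ 3 * (ρ + ω) * l
    constructor <;> linarith only [b1.1, b1.2, hρl, hωl, w1, b4, b3]

/-- Plan: on a component `H` of `Y` with the labels `a`, `b` put `val = G a + τ • (G b - G a)`,
where `τ` levels the coordinate along the segment from `F a` to `F b`, cut off to `[0, 1]`, and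
put to `0` or `1` on `S`. By `Sad.maxp` the values of `F` on `H` are close to the segment. -/
theorem Sk1.tube_val (hT : IsSurf T) (hF : Sad T F ω) (hρ : 0 ≤ ρ)
    (h : Sk1 T F S Y lab W L z N ρ δ) (G : V → EuclideanSpace ℝ (Fin n))
    (hG : ∀ s ∈ S, dist (G (lab s)) (F (lab s)) ≤ ε) :
    ∃ val : V → EuclideanSpace ℝ (Fin n), (∀ s ∈ S, val s = G (lab s)) ∧
      (∀ y ∈ Y, dist (val y) (F y) ≤ ε + 4 * (ρ + ω)) ∧
      ∀ (l : EuclideanSpace ℝ (Fin n) →L[ℝ] ℝ) (c : ℝ) (X : Set V),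
        (∀ v ∈ X, v ∈ S ∪ Y ∧ l (val v) = c ∧ ∀ w ∈ S ∪ Y, Adj T v w →
          l (val w) ≤ c ∧ (l (val w) = c → w ∈ X)) →
        (X.Nonempty → ∃ s ∈ X, s ∈ S) ∧ ∀ y u u', Jn T Y y u → Jn T Y y u' → ∀ s ∈ X, s ∈ S →
          ∀ s' ∈ S, Adj T u s → Adj T u' s' → l (val s') ≤ c ∧
            (l (val s') = c → ∃ s'' ∈ X, s'' ∈ S ∧ lab s'' = lab s') := by
  classical
  obtain ⟨b₀, hb₀⟩ := hT.bd
  let cp : V → Set V := fun y => {u | Jn T Y y u}
  have hcp : ∀ y u, u ∈ cp y → cp u = cp y := fun y u hu =>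
    Set.ext fun x => ⟨fun hx => Jn.trans hu hx, fun hx => (Jn.symm hu).trans hx⟩
  have hout : ∀ y, ∀ u ∈ cp y, ∀ w, w ∉ cp y → Adj T u w → w ∉ Y := fun y u hu w hw ha e =>
    hw (Jn.step hu e ha)
  have hH : ∀ y, ∀ v ∈ cp y, ∃ u w, Jn T (cp y) v u ∧ w ∉ cp y ∧ Adj T u w := fun y v hv => by
    obtain ⟨u, w, h1, -, h2, h3⟩ := (hT.conn v (mem_univ _) b₀ (mem_univ _)).exit hv
      fun e => disjoint_left.1 h.disj (h.bd b₀ hb₀).1 (Jn.right e)
    exact ⟨u, w, h1.mono inter_subset_right, h2, h3⟩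
  have key : ∀ C : Set V, ∃ (a b : V) (τ : V → ℝ), ∀ y ∈ Y, C = cp y →
      dist (G a) (F a) ≤ ε ∧ dist (G b) (F b) ≤ ε ∧
      (∀ u ∈ C, ∀ w, w ∉ C → Adj T u w → w ∈ S ∧ (lab w = a ∨ lab w = b)) ∧
      (∀ v, v ∉ C → τ v = if lab v = a then 0 else 1) ∧ (∀ v, 0 ≤ τ v ∧ τ v ≤ 1) ∧
      (∀ v ∈ C, ‖F v - F a - τ v • (F b - F a)‖ ≤ 4 * (ρ + ω)) ∧
      ∀ (s : ℝ), s = 1 ∨ s = -1 → ∀ X ⊆ C, ∀ c : ℝ,
        (∀ v ∈ X, s * τ v = c ∧ ∀ w, Adj T v w → s * τ w ≤ c ∧ (s * τ w = c → w ∈ X)) →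
        X = ∅ := fun C => by
    by_cases hy : ∃ y ∈ Y, C = cp y
    swap
    · exact ⟨b₀, b₀, fun _ => 0, fun y h1 h2 => (hy ⟨y, h1, h2⟩).elim⟩
    obtain ⟨y, hy, rfl⟩ := hy
    obtain ⟨a, b, h1⟩ := h.tube y hy
    have h2 : ∀ a, ∃ a', dist (G a') (F a') ≤ ε ∧ ∀ w ∈ S, lab w = a → lab w = a' := fun a => by
      by_cases e : ∃ w ∈ S, lab w = a
      · obtain ⟨w, hw, rfl⟩ := e
        exact ⟨_, hG w hw, fun _ _ e => e⟩
      · exact ⟨_, hG b₀ (h.bd b₀ hb₀).1, fun w hw e' => (e ⟨w, hw, e'⟩).elim⟩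
    obtain ⟨a', a1, a2⟩ := h2 a
    obtain ⟨b', b1, b2⟩ := h2 b
    have h3 : ∀ u ∈ cp y, ∀ w, w ∉ cp y → Adj T u w → w ∈ S ∧ (lab w = a' ∨ lab w = b') :=
      fun u hu w hw ha => by
      obtain ⟨c1, c2⟩ := h1 u hu w (hout y u hu w hw ha) ha
      exact ⟨c1, c2.imp (a2 w c1) (b2 w c1)⟩
    obtain ⟨τ, hτ⟩ := f7_comp (a := a') (b := b') (lab := lab) hF hρ
      (disjoint_left.2 fun u hu e => disjoint_left.1 h.disj (h.bd u e).1 (Jn.right hu))
      (fun u hu w hw ha => ⟨(h3 u hu w hw ha).2, h.rad w (h3 u hu w hw ha).1⟩) (hH y)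
    exact ⟨a', b', τ, fun _ _ _ => ⟨a1, b1, h3, hτ⟩⟩
  choose A B τ hk using key
  replace hk := fun y hy => hk (cp y) y hy rfl
  let val : V → EuclideanSpace ℝ (Fin n) := fun v =>
    if v ∈ S then G (lab v) else G (A (cp v)) + τ (cp v) v • (G (B (cp v)) - G (A (cp v)))
  have hS : ∀ s ∈ S, val s = G (lab s) := fun s hs => if_pos hs
  have hin : ∀ y, ∀ w ∈ cp y,
      val w = G (A (cp y)) + τ (cp y) w • (G (B (cp y)) - G (A (cp y))) := fun y w hw => by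
    simp only [val, if_neg (disjoint_right.1 h.disj (Jn.right hw)), hcp y w hw]
  have hnb : ∀ y ∈ Y, ∀ u ∈ cp y, ∀ w, Adj T u w → w ∈ S ∪ Y ∧
      val w = G (A (cp y)) + τ (cp y) w • (G (B (cp y)) - G (A (cp y))) :=
    fun y hy u hu w ha => by
    by_cases hw : w ∈ cp y
    · exact ⟨.inr (Jn.right hw), hin y w hw⟩
    obtain ⟨-, -, h1, h2, -⟩ := hk y hy
    obtain ⟨c1, c2⟩ := h1 u hu w hw ha
    refine ⟨.inl c1, ?_⟩
    rw [hS w c1, h2 w hw]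
    split_ifs with e
    · simp [e]
    · simp [c2.resolve_left e]
  refine ⟨val, hS, fun y hy => ?_, fun l c X hX => ?_⟩
  · obtain ⟨h1, h2, -, -, h3, h4, -⟩ := hk y hy
    have h5 := h4 y (Jn.refl hy)
    obtain ⟨t0, t1⟩ := h3 y
    rw [hin y y (Jn.refl hy), dist_eq_norm]
    rw [dist_eq_norm] at h1 h2
    generalize A (cp y) = a at *
    generalize B (cp y) = b at *
    generalize τ (cp y) y = t at *
    have e : G a + t • (G b - G a) - F y =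
        (1 - t) • (G a - F a) + t • (G b - F b) - (F y - F a - t • (F b - F a)) := by
      simp only [sub_smul, smul_sub, one_smul]
      abel
    have h6 := norm_sub_le ((1 - t) • (G a - F a) + t • (G b - F b)) (F y - F a - t • (F b - F a))
    have h7 := norm_add_le ((1 - t) • (G a - F a)) (t • (G b - F b))
    rw [norm_smul, norm_smul, Real.norm_of_nonneg t0, Real.norm_of_nonneg (sub_nonneg.2 t1)] at h7
    have h8 := mul_le_mul_of_nonneg_left h1 (sub_nonneg.2 t1)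
    have h9 := mul_le_mul_of_nonneg_left h2 t0
    rw [e]
    linarith
  have spread : ∀ y ∈ Y, (∀ u ∈ cp y, ∀ w, Adj T u w → c ≤ l (val w)) → ∀ u ∈ cp y, u ∈ X →
      ∀ u' ∈ cp y, ∀ w, Adj T u' w → w ∈ X := fun y hy hc u hu hx u' hu' w ha => by
    have h1 : ∀ x ∈ cp y, x ∈ X → ∀ w, Adj T x w → w ∈ X := fun x h1 h2 w h3 => by
      obtain ⟨c1, c2⟩ := (hX x h2).2.2 w (hnb y hy x h1 w h3).1 h3
      exact c2 (le_antisymm c1 (hc x h1 w h3))
    refine h1 u' hu' ?_ w ha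
    by_contra h2
    obtain ⟨x, x', b1, -, b2, b3⟩ := ((Jn.symm hu).trans hu').exit hx h2
    exact b2 (h1 x (Jn.trans hu (b1.mono inter_subset_left)) b1.right.2 x' b3)
  have hl : ∀ y ∈ Y, ∀ u ∈ cp y, ∀ w, Adj T u w → l (val w) =
      l (G (A (cp y))) + τ (cp y) w * (l (G (B (cp y))) - l (G (A (cp y)))) :=
    fun y hy u hu w ha => by
    rw [(hnb y hy u hu w ha).2, map_add, map_smul, map_sub, smul_eq_mul]
  have hl' : ∀ y, ∀ w ∈ cp y, l (val w) =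
      l (G (A (cp y))) + τ (cp y) w * (l (G (B (cp y))) - l (G (A (cp y)))) := fun y w hw => by
    rw [hin y w hw, map_add, map_smul, map_sub, smul_eq_mul]
  refine ⟨fun ⟨y, hx⟩ => ?_, fun y u u' hu hu' s hs hs' s' hs'' ha ha' => ?_⟩
  · by_contra hn
    have hy : y ∈ Y := (hX y hx).1.resolve_left fun e => hn ⟨y, hx, e⟩
    obtain ⟨-, -, h1, -, -, -, h2⟩ := hk y hy
    have hyy : y ∈ cp y := Jn.refl hy
    have e0 := hl' y y hyy
    rw [(hX y hx).2.1] at e0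
    have h3 := hl y hy
    have h4 := hl' y
    generalize l (G (B (cp y))) - l (G (A (cp y))) = κ at e0 h3 h4
    have h5 : ∀ σ : ℝ, σ = 1 ∨ σ = -1 → 0 < σ * κ → False := fun σ hσ hκ => by
      have hσ2 : σ * σ = 1 := by rcases hσ with rfl | rfl <;> norm_num
      have h6 : ∀ w, l (val w) = l (G (A (cp y))) + τ (cp y) w * κ →
          l (val w) - c = (σ * τ (cp y) w - σ * τ (cp y) y) * (σ * κ) := fun w e => by
        rw [e, e0]
        linear_combination (τ (cp y) y - τ (cp y) w) * κ * hσ2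
      have := h2 σ hσ (X ∩ cp y) inter_subset_right (σ * τ (cp y) y) fun v hv => by
        obtain ⟨-, c1, c2⟩ := hX v hv.1
        refine ⟨?_, fun w ha => ?_⟩
        · have := h6 v (h4 v hv.2)
          rw [c1, sub_self] at this
          exact sub_eq_zero.1 ((mul_eq_zero.1 this.symm).resolve_right hκ.ne')
        obtain ⟨c3, c4⟩ := c2 w (hnb y hy v hv.2 w ha).1 ha
        have c5 := h6 w (h3 v hv.2 w ha)
        refine ⟨sub_nonpos.1 (nonpos_of_mul_nonpos_left ?_ hκ), fun e => ?_⟩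
        · linarith
        rw [e, sub_self, zero_mul] at c5
        have c6 := c4 (sub_eq_zero.1 c5)
        refine ⟨c6, by_contra fun c7 => hn ⟨w, c6, (h1 v hv.2 w c7 ha).1⟩⟩
      exact (this ▸ (⟨hx, hyy⟩ : y ∈ X ∩ cp y) : y ∈ (∅ : Set V))
    rcases lt_trichotomy κ 0 with e | e | e
    · exact h5 (-1) (.inr rfl) (by linarith)
    · obtain ⟨u, w, b1, b2, b3⟩ := hH y y hyy
      refine hn ⟨w, spread y hy (fun u hu w ha => ?_) y hyy hx u b1.right w b3,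
        (h1 u b1.right w b2 b3).1⟩
      rw [h3 u hu w ha, e0, e, mul_zero, mul_zero]
    · exact h5 1 (.inl rfl) (by linarith)
  have hy : y ∈ Y := hu.1
  obtain ⟨-, c1, c2⟩ := hX s hs
  by_cases e : lab s = lab s'
  · have : l (val s') = c := by rw [← c1, hS s hs', hS s' hs'', e]
    exact ⟨this.le, fun _ => ⟨s, hs, hs', e⟩⟩
  rcases lt_or_ge (l (val s')) c with e1 | e1
  · exact ⟨e1.le, fun e2 => absurd e2 e1.ne⟩
  obtain ⟨-, -, h1, -, h2, -⟩ := hk y hy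
  have hns : ∀ x ∈ S, x ∉ cp y := fun x hx e => disjoint_left.1 h.disj hx (Jn.right e)
  have hab : c ≤ l (G (A (cp y))) ∧ c ≤ l (G (B (cp y))) := by
    rw [hS s hs'] at c1
    rw [hS s' hs''] at e1
    rcases (h1 u hu s (hns s hs') ha).2 with d1 | d1 <;>
      rcases (h1 u' hu' s' (hns s' hs'') ha').2 with d2 | d2
    · exact absurd (d1.trans d2.symm) e
    · exact ⟨d1 ▸ c1.ge, d2 ▸ e1⟩
    · exact ⟨d2 ▸ e1, d1 ▸ c1.ge⟩
    · exact absurd (d1.trans d2.symm) e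
  have hge : ∀ w, c ≤
      l (G (A (cp y))) + τ (cp y) w * (l (G (B (cp y))) - l (G (A (cp y)))) := fun w => by
    have d1 := mul_nonneg (h2 w).1 (sub_nonneg.2 hab.2)
    have d2 := mul_nonneg (sub_nonneg.2 (h2 w).2) (sub_nonneg.2 hab.1)
    linarith
  obtain ⟨d1, d2⟩ := c2 u (.inr hu.right) ha.symm
  have d3 := spread y hy (fun x hx w ha => hl y hy x hx w ha ▸ hge w) u hu
    (d2 (le_antisymm d1 (hl' y u hu ▸ hge u))) u' hu' s' ha'
  exact ⟨(hX s' d3).2.1.le, fun _ => ⟨s', d3, hs'', rfl⟩⟩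

end Pool.Agent.MP_17e62b_gt.T55

end
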