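import Pool.Agent.MP_17e62b_gt.Mg.G_H72Iface
import Pool.Agent.MP_17e62b_gt.Mg.T55_MA1

attribute [-instance] ProperSMul.toContinuousSMul TotallySeparatedSpace.t2Space
  NonUnitalNonAssocSemiring.toAddCommMonoid AddQuantale.instAddLeftMono Valued.toUniformSpace
  RKHS.instFunLike NumberField.to_charZero IsTopologicalTorsor.toContinuousSMul
  NonUnitalNonAssocRing.toAddCommGroup CommSemiring.toSemiring AddGroupWithOne.toAddGroup
  Group.IsPerfect.subsingleton_of_isMulCommutative littleWedderburn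
  NonarchimedeanAddGroup.toIsTopologicalAddGroup RightPreLieAlgebra.toModule
  LeftPreLieAlgebra.toModule CStarAlgebra.instOrderClosedTopology
  NonUnitalNonAssocSemiring.toMulZeroClass continuousSub_of_discreteTopology
  LinearOrderedAddCommMonoidWithTop.toAddCommMonoid AddQuantale.instAddRightMono
  LinearOrderedCommMonoidWithZero.toPosMulStrictMono IdemSemiring.toCanonicallyOrderedAdd
  NonarchimedeanRing.toIsTopologicalRing CStarAlgebra.toNormedRing DivisionRing.toRing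
  MulSemiringAction.toDistribMulAction

section

/-!
From a triangulation with vertex values to a saddle polyhedron.
-/

namespace Pool.Agent.MP_17e62b_gt.T55

open Set Metric Topology
open scoped InnerProductSpace Manifold

section Aux

variable {M : Type} [TopologicalSpace M]

theorem a6_mem (K : Tri (univ : Set M)) (x : M) :
    K.lam x ∈ stdSimplex ℝ K.V ∧ ∃ t ∈ K.T, x ∈ K.face t := by
  have h : K.lam x ∈ K.lam '' univ := mem_image_of_mem _ (mem_univ x)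
  rw [K.img] at h
  obtain ⟨h1, t, ht, h2⟩ := h
  exact ⟨h1, t, ht, mem_univ x, h2⟩

theorem a6_pt_face (K : Tri (univ : Set M)) {t : Finset K.V} {v : K.V} (hv : v ∈ t) :
    K.pt v ∈ K.face t := by
  refine ⟨mem_univ _, fun w hw => ?_⟩
  rw [K.lam_pt]
  have h : w ≠ v := fun h => hw (h ▸ hv)
  exact Pi.single_eq_of_ne h _

theorem a6_sum_pt (K : Tri (univ : Set M)) (a : K.V → ℝ) (v : K.V) :
    ∑ w, K.lam (K.pt v) w * a w = a v := by
  rw [K.lam_pt, Finset.sum_eq_single v]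
  · simp
  · intro w _ hw
    rw [Pi.single_eq_of_ne hw, zero_mul]
  · intro h
    exact absurd (Finset.mem_univ v) h

/-- Two points of one triangle above the level `c` lie both in a crust or both outside. -/
theorem a6_seg [CompactSpace M] (K : Tri (univ : Set M)) (a : K.V → ℝ) {c : ℝ} {U : Set M}
    (hU : IsOpen U) (hfr : ∀ x ∈ closure U \ U, ∑ w, K.lam x w * a w = c)
    {t : Finset K.V} (ht : t ∈ K.T) {x y : M} (hx : x ∈ K.face t) (hy : y ∈ K.face t)
    (hxU : x ∈ U) (hcx : c < ∑ w, K.lam x w * a w) (hcy : c < ∑ w, K.lam y w * a w) : y ∈ U := by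
  have hcont : Continuous K.lam := continuousOn_univ.1 K.cont
  have hinj : Function.Injective K.lam := injOn_univ.1 K.inj
  have hind : IsInducing K.lam := (hcont.isClosedEmbedding hinj).isInducing
  have hsub : segment ℝ (K.lam x) (K.lam y) ⊆ range K.lam := by
    rintro z ⟨p, q, hp, hq, hpq, rfl⟩
    rw [← image_univ, K.img]
    refine ⟨convex_stdSimplex ℝ K.V (a6_mem K x).1 (a6_mem K y).1 hp hq hpq, t, ht, fun v hv => ?_⟩
    simp [hx.2 v hv, hy.2 v hv]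
  have hpre : IsPreconnected (K.lam ⁻¹' segment ℝ (K.lam x) (K.lam y)) := by
    rw [← hind.isPreconnected_image, image_preimage_eq_of_subset hsub]
    exact (convex_segment _ _).isPreconnected
  have hall : K.lam ⁻¹' segment ℝ (K.lam x) (K.lam y) ⊆ U := by
    refine hpre.subset_of_closure_inter_subset hU ⟨x, left_mem_segment ℝ _ _, hxU⟩ ?_
    rintro z ⟨hz1, p, q, hp, hq, hpq, hz2⟩
    by_contra hzU
    have h1 := hfr z ⟨hz1, hzU⟩
    have h2 : ∑ w, K.lam z w * a w =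
        p * ∑ w, K.lam x w * a w + q * ∑ w, K.lam y w * a w := by
      rw [← hz2, Finset.mul_sum, Finset.mul_sum, ← Finset.sum_add_distrib]
      refine Finset.sum_congr rfl fun w _ => ?_
      simp only [Pi.add_apply, Pi.smul_apply, smul_eq_mul]
      ring
    have h3 : c = p * c + q * c := by rw [← add_mul, hpq, one_mul]
    rcases hp.eq_or_lt with hp0 | hp0
    · have hq1 : q = 1 := by linarith only [hp, hpq, hp0]
      rw [← hp0, hq1] at h2
      linarith only [hcy, h1, h2]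
    · have h4 := mul_lt_mul_of_pos_left hcx hp0
      have h5 := mul_le_mul_of_nonneg_left hcy.le hq
      linarith
  exact hall (right_mem_segment ℝ _ _)

/-- A crust gives a non-empty set of vertices in the crust where a local maximum is attained. -/
theorem a6_crust [CompactSpace M] (K : Tri (univ : Set M)) (a : K.V → ℝ) {c : ℝ} {U : Set M}
    (hne : U.Nonempty) (hU : IsOpen U) (hin : ∀ x ∈ U, c < ∑ w, K.lam x w * a w)
    (hfr : ∀ x ∈ closure U \ U, ∑ w, K.lam x w * a w = c) :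
    ∃ (m : ℝ) (X : Set K.V), X.Nonempty ∧ (∀ v ∈ X, a v = m) ∧
      (∀ v ∈ X, ∀ w, Adj K.T v w → a w ≤ m ∧ (a w = m → w ∈ X)) ∧ ∀ v ∈ X, K.pt v ∈ U := by
  have hcont : Continuous K.lam := continuousOn_univ.1 K.cont
  have hφ : Continuous fun x => ∑ w, K.lam x w * a w :=
    continuous_finsetSum _ fun w _ => ((continuous_apply w).comp hcont).mul continuous_const
  obtain ⟨x₀, hx₀, hmax⟩ :=
    (isClosed_closure (s := U)).isCompact.exists_isMaxOn hne.closure hφ.continuousOn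
  set m := ∑ w, K.lam x₀ w * a w with hm
  have hle : ∀ x ∈ U, ∑ w, K.lam x w * a w ≤ m := fun x hx => hmax (subset_closure hx)
  have hcm : c < m := by
    obtain ⟨x, hx⟩ := hne
    exact (hin x hx).trans_le (hle x hx)
  have hx₀U : x₀ ∈ U := by
    by_contra h
    exact hcm.ne' (hfr x₀ ⟨hx₀, h⟩)
  have key : ∀ t ∈ K.T, ∀ x ∈ K.face t, x ∈ U → ∀ w ∈ t,
      a w ≤ m ∧ (a w = m → K.pt w ∈ U) := by
    intro t ht x hx hxU w hw
    have h1 : c < a w → K.pt w ∈ U := fun h =>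
      a6_seg K a hU hfr ht hx (a6_pt_face K hw) hxU (hin x hxU) (by rwa [a6_sum_pt])
    refine ⟨?_, fun h => h1 (h ▸ hcm)⟩
    by_contra h
    have h2 := hle _ (h1 (hcm.trans (not_le.1 h)))
    rw [a6_sum_pt] at h2
    exact h h2
  refine ⟨m, {v | K.pt v ∈ U ∧ a v = m}, ?_, fun v hv => hv.2, ?_, fun v hv => hv.1⟩
  · obtain ⟨hs, t, ht, hxt⟩ := a6_mem K x₀
    by_contra hX
    have h1 : ∀ w ∈ t, a w < m := by
      intro w hw
      obtain ⟨h2, h3⟩ := key t ht x₀ hxt hx₀U w hw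
      exact lt_of_le_of_ne h2 fun h => hX ⟨w, h3 h, h⟩
    have h2 : ∃ w, 0 < K.lam x₀ w := by
      by_contra h
      have h3 : ∑ w, K.lam x₀ w ≤ 0 := Finset.sum_nonpos fun w _ => not_lt.1 fun h' => h ⟨w, h'⟩
      rw [hs.2] at h3
      linarith
    obtain ⟨w, hw⟩ := h2
    have hwt : w ∈ t := by
      by_contra h
      exact hw.ne' (hxt.2 w h)
    have h3 : ∑ w, K.lam x₀ w * a w < ∑ w, K.lam x₀ w * m := by
      refine Finset.sum_lt_sum (fun u _ => ?_)
        ⟨w, Finset.mem_univ _, mul_lt_mul_of_pos_left (h1 w hwt) hw⟩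
      by_cases hu : u ∈ t
      · exact mul_le_mul_of_nonneg_left (h1 u hu).le (hs.1 u)
      · rw [hxt.2 u hu, zero_mul, zero_mul]
    rw [← Finset.sum_mul, hs.2, one_mul] at h3
    exact lt_irrefl _ h3
  · rintro v hv w ⟨-, t, ht, hvt, hwt⟩
    obtain ⟨h2, h3⟩ := key t ht _ (a6_pt_face K hvt) hv.1 w hwt
    exact ⟨h2, fun h => ⟨h3 h, h⟩⟩

/-- The geometric complex of a triangulation. -/
theorem a6_complex [CompactSpace M] (K : Tri (univ : Set M)) :
    ∃ (N : ℕ) (e : K.V ≃ Fin N)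
      (C : Geometry.SimplicialComplex ℝ (EuclideanSpace ℝ (Fin N))) (h : M ≃ₜ C.space),
      C.faces.Finite ∧ ∀ x v, (h x : EuclideanSpace ℝ (Fin N)) (e v) = K.lam x v := by
  classical
  have hcont : Continuous K.lam := continuousOn_univ.1 K.cont
  have hinj : Function.Injective K.lam := injOn_univ.1 K.inj
  set N := Fintype.card K.V
  let e : K.V ≃ Fin N := Fintype.equivFin K.V
  let b : K.V → EuclideanSpace ℝ (Fin N) := fun v => EuclideanSpace.single (e v) 1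
  have hb : AffineIndependent ℝ b := by
    have h1 : LinearIndependent ℝ fun i : Fin N => EuclideanSpace.single (𝕜 := ℝ) i 1 := by
      have h2 := (EuclideanSpace.basisFun (Fin N) ℝ).toBasis.linearIndependent
      have h3 : ⇑(EuclideanSpace.basisFun (Fin N) ℝ).toBasis =
          fun i : Fin N => EuclideanSpace.single (𝕜 := ℝ) i 1 := by
        funext i
        simp
      rwa [h3] at h2
    exact (h1.comp e e.injective).affineIndependent
  have hb' : AffineIndependent ℝ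
      ((↑) : ↥(Finset.univ.image b) → EuclideanSpace ℝ (Fin N)) := by
    have h1 := hb.range
    have h2 : range b = ((Finset.univ.image b : Finset _) : Set _) := by simp only [Finset.coe_image, Finset.coe_univ, image_univ]
    rw [h2] at h1
    exact h1
  have hsubb : ∀ t : Finset K.V, t.image b ⊆ Finset.univ.image b := fun t =>
    Finset.image_subset_image (Finset.subset_univ t)
  let C : Geometry.SimplicialComplex ℝ (EuclideanSpace ℝ (Fin N)) :=
    Geometry.SimplicialComplex.ofErase {s | ∃ t ∈ K.T, s ⊆ t.image b}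
      (by
        rintro s ⟨t, -, hst⟩
        exact AffineIndependent.mono (t := ((Finset.univ.image b : Finset _) : Set _)) hb'
          (Finset.coe_subset.2 (hst.trans (hsubb t))))
      (by
        rintro s s' hs ⟨t, ht, hst⟩
        exact ⟨t, ht, Finset.Subset.trans hs hst⟩)
      (by
        rintro s ⟨t, -, hst⟩ s' ⟨t', -, hst'⟩
        rw [hb'.convexHull_inter (hst.trans (hsubb t)) (hst'.trans (hsubb t'))])
  let L : (K.V → ℝ) →ₗ[ℝ] EuclideanSpace ℝ (Fin N) := Fintype.linearCombination ℝ b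
  have hL : ∀ y, L y = ∑ v, y v • b v := fun y => Fintype.linearCombination_apply _ _ _
  have hLe : ∀ y v, L y (e v) = y v := by
    intro y v
    rw [hL]
    simp only [WithLp.ofLp_sum, Finset.sum_apply, WithLp.ofLp_smul, Pi.smul_apply, b, smul_eq_mul]
    rw [Finset.sum_eq_single v]
    · simp
    · intro w _ hw
      have : e v ≠ e w := fun h => hw (e.injective h).symm
      simp [this]
    · intro h
      exact absurd (Finset.mem_univ v) h
  have hmem : ∀ x, L (K.lam x) ∈ C.space := by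
    intro x
    obtain ⟨hs, t, ht, hxt⟩ := a6_mem K x
    have hne : t.Nonempty := Finset.card_pos.1 (by rw [K.card t ht]; norm_num)
    refine Geometry.SimplicialComplex.mem_space_iff.2
      ⟨t.image b, ⟨⟨t, ht, Finset.Subset.refl _⟩, (hne.image b).ne_empty⟩, ?_⟩
    rw [hL, ← Finset.sum_subset (Finset.subset_univ t)
      (fun v _ hv => by rw [hxt.2 v hv, zero_smul])]
    refine (convex_convexHull ℝ _).sum_mem (fun v _ => hs.1 v) ?_ fun v hv =>
      subset_convexHull ℝ _ (Finset.mem_coe.2 (Finset.mem_image_of_mem b hv))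
    rw [Finset.sum_subset (Finset.subset_univ t) (fun v _ hv => hxt.2 v hv)]
    exact hs.2
  let f : M → C.space := fun x => ⟨L (K.lam x), hmem x⟩
  have hf : Function.Bijective f := by
    constructor
    · intro x y hxy
      have h1 : L (K.lam x) = L (K.lam y) := congrArg Subtype.val hxy
      refine hinj (funext fun v => ?_)
      rw [← hLe (K.lam x) v, h1, hLe]
    · rintro ⟨z, hz⟩
      obtain ⟨s, ⟨⟨t, ht, hst⟩, -⟩, hzs⟩ := Geometry.SimplicialComplex.mem_space_iff.1 hz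
      have hconv : Convex ℝ {y : K.V → ℝ | y ∈ stdSimplex ℝ K.V ∧ ∀ v, v ∉ t → y v = 0} := by
        intro y hy y' hy' p q hp hq hpq
        refine ⟨convex_stdSimplex ℝ K.V hy.1 hy'.1 hp hq hpq, fun v hv => ?_⟩
        simp [hy.2 v hv, hy'.2 v hv]
      have h1 : z ∈ L '' {y : K.V → ℝ | y ∈ stdSimplex ℝ K.V ∧ ∀ v, v ∉ t → y v = 0} := by
        refine convexHull_min ?_ (hconv.linear_image L) hzs
        intro u hu
        obtain ⟨v, hv, rfl⟩ := Finset.mem_image.1 (hst (Finset.mem_coe.1 hu))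
        refine ⟨K.lam (K.pt v), ⟨(a6_mem K _).1, (a6_pt_face K hv).2⟩, ?_⟩
        rw [K.lam_pt, hL, Finset.sum_eq_single v]
        · simp
        · intro w _ hw
          rw [Pi.single_eq_of_ne hw, zero_smul]
        · intro h
          exact absurd (Finset.mem_univ v) h
      obtain ⟨y, hy, rfl⟩ := h1
      have h2 : y ∈ K.lam '' univ := by
        rw [K.img]
        exact ⟨hy.1, t, ht, hy.2⟩
      obtain ⟨x, -, rfl⟩ := h2
      exact ⟨x, rfl⟩
  have hfc : Continuous (Equiv.ofBijective f hf) :=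
    (L.continuous_of_finiteDimensional.comp hcont).subtype_mk _
  refine ⟨N, e, C, hfc.homeoOfEquivCompactToT2, ?_, fun x v => hLe _ _⟩
  refine (Finset.univ.image b).powerset.finite_toSet.subset ?_
  rintro s ⟨⟨t, -, hst⟩, -⟩
  exact Finset.mem_coe.2 (Finset.mem_powerset.2 (hst.trans (hsubb t)))

end Aux

/-- Plan: the new surface has the same `M` and the map `x ↦ ∑ v, K.lam x v • G v`. The complex
lives in `EuclideanSpace ℝ (Fin N)`, `N` the number of vertices, its faces are the non-empty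
subsets of triangles, as sets of basis vectors; `Continuous.homeoOfEquivCompactToT2`. Saddle: for a
crust `U`, the maximum `m > c` of `⟪ν, g⟫` on the closure is attained in `U`; a connected set that
meets `U` and on which `⟪ν, g⟫ > c` lies in `U` (faces are images of convex sets under the
continuous inverse of `lam`); apply `hsc` to the vertices in `U` with value `m`. -/
theorem tri_poly {n : ℕ} (S : Surface n) (K : Tri (univ : Set S.M))
    (G : K.V → EuclideanSpace ℝ (Fin n))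
    (hsc : ∀ (ν : EuclideanSpace ℝ (Fin n)) (m : ℝ) (X : Set K.V), X.Nonempty →
      (∀ v ∈ X, ⟪ν, G v⟫_ℝ = m) →
      (∀ v ∈ X, ∀ w, Adj K.T v w → ⟪ν, G w⟫_ℝ ≤ m ∧ (⟪ν, G w⟫_ℝ = m → w ∈ X)) →
      ∃ v ∈ X, K.pt v ∈ (𝓡∂ 2).boundary S.M)
    {ε : ℝ} (hε : ∀ t ∈ K.T, ∀ x ∈ K.face t, ∀ v ∈ t, dist (S.f x) (G v) ≤ ε) :
    ∃ T : Surface n, T.IsSaddle ∧ T.IsPolyhedron ∧ frechetDist S T ≤ ENNReal.ofReal ε := by
  have hcomp : CompactSpace S.M := S.compact
  have hcont : Continuous K.lam := continuousOn_univ.1 K.cont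
  let T : Surface n :=
    { S with
      f := fun x => ∑ v, K.lam x v • G v
      continuous := continuous_finsetSum _ fun w _ =>
        ((continuous_apply w).comp hcont).smul continuous_const }
  refine ⟨T, ?_, ?_, ?_⟩
  · rintro ν c U - ⟨hne, hU, -, hdis, hin, hfr⟩
    have hφ : ∀ x : S.M, ⟪ν, T.f x⟫_ℝ = ∑ w, K.lam x w * ⟪ν, G w⟫_ℝ := by
      intro x
      show ⟪ν, ∑ v, K.lam x v • G v⟫_ℝ = _
      rw [inner_sum]
      exact Finset.sum_congr rfl fun w _ => real_inner_smul_right _ _ _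
    obtain ⟨m, X, h1, h2, h3, h4⟩ := a6_crust K (fun w => ⟪ν, G w⟫_ℝ) (c := c) (U := U) hne hU
      (fun x hx => hφ x ▸ hin x hx) (fun x hx => hφ x ▸ hfr x hx)
    obtain ⟨v, hv, hvb⟩ := hsc ν m X h1 h2 h3
    exact disjoint_left.1 hdis (subset_closure (h4 v hv)) hvb
  · obtain ⟨N, e, C, h, hfin, hh⟩ := a6_complex K
    refine ⟨N, C, h, hfin, fun s _ => ?_⟩
    let A : EuclideanSpace ℝ (Fin N) →ₗ[ℝ] EuclideanSpace ℝ (Fin n) :=
      { toFun := fun z => ∑ v, z (e v) • G v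
        map_add' := fun z z' => by simp only [PiLp.add_apply, add_smul, Finset.sum_add_distrib]
        map_smul' := fun r z => by simp only [PiLp.smul_apply, smul_eq_mul, mul_smul, Real.ringHom_apply, Finset.smul_sum] }
    refine ⟨A.toAffineMap, fun x _ => ?_⟩
    show ∑ v, K.lam x v • G v = ∑ v, (h x : EuclideanSpace ℝ (Fin N)) (e v) • G v
    exact Finset.sum_congr rfl fun v _ => by rw [hh]
  · refine iInf_le_of_le (Homeomorph.refl S.M) (iSup_le fun x => ?_)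
    rw [edist_dist]
    refine ENNReal.ofReal_le_ofReal ?_
    show dist (S.f x) (∑ v, K.lam x v • G v) ≤ ε
    obtain ⟨hs, t, ht, hxt⟩ := a6_mem K x
    rw [← Finset.sum_subset (Finset.subset_univ t)
      (fun v _ hv => by rw [hxt.2 v hv, zero_smul]), dist_comm]
    refine (convex_closedBall (S.f x) ε).sum_mem (fun v _ => hs.1 v) ?_ fun v hv => ?_
    · rw [Finset.sum_subset (Finset.subset_univ t) (fun v _ hv => hxt.2 v hv)]
      exact hs.2
    · rw [mem_closedBall, dist_comm]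
      exact hε t ht x hxt v hv

end Pool.Agent.MP_17e62b_gt.T55

end

section

/-!
From a cell complex with values at the points to a saddle polyhedron.
-/

namespace Pool.Agent.MP_17e62b_gt.T55

open Set Metric Topology
open scoped InnerProductSpace Manifold

/-- Plan: `Cells.tri`; an edge gets the mean of the values at its two ends, a disc the mean of the
values at the points of `P` on it (all adjacent to it in the flag complex). If `X` contains a disc
or an edge it contains the points on it; then apply `hsc` to the points in `X`. -/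
theorem poly_of_cells {n : ℕ} (S : Surface n) (C : Cells (univ : Set S.M))
    (g : S.M → EuclideanSpace ℝ (Fin n))
    (hsc : ∀ (ν : EuclideanSpace ℝ (Fin n)) (m : ℝ) (X : Set S.M), X.Nonempty → X ⊆ C.P →
      (∀ p ∈ X, ⟪ν, g p⟫_ℝ = m) →
      (∀ p ∈ X, ∀ q ∈ C.P, (∃ e ∈ C.E, p ∈ e ∧ q ∈ e) →
        ⟪ν, g q⟫_ℝ ≤ m ∧ (⟪ν, g q⟫_ℝ = m → q ∈ X)) →
      ∃ p ∈ X, p ∈ (𝓡∂ 2).boundary S.M)
    {ε : ℝ} (hε : ∀ d ∈ C.D, ∀ x ∈ d.1, ∀ p ∈ C.P, p ∈ d.1 → dist (S.f x) (g p) ≤ ε) :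
    ∃ T : Surface n, T.IsSaddle ∧ T.IsPolyhedron ∧ frechetDist S T ≤ ENNReal.ofReal ε := by
  classical
  have := S.t2
  obtain ⟨K, c, hc, hr, hT, hpt, hf⟩ := C.tri
  obtain ⟨Q, hQ⟩ : ∃ Q : K.V → Finset S.M, ∀ v p, p ∈ Q v ↔ p ∈ C.P ∧ p ∈ c v :=
    ⟨fun v => C.finP.toFinset.filter (· ∈ c v), fun v p => by simp⟩
  have rP : ∀ p ∈ C.P, ∃ u, c u = {p} := fun p hp =>
    show {p} ∈ range c from hr ▸ Or.inl (Or.inl ⟨p, hp, rfl⟩)
  have rE : ∀ e ∈ C.E, ∃ u, c u = e := fun e he => show e ∈ range c from hr ▸ Or.inl (Or.inr he)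
  have rD : ∀ d ∈ C.D, ∃ u, c u = d.1 := fun d hd =>
    show d.1 ∈ range c from hr ▸ Or.inr ⟨d, hd, rfl⟩
  have cs : ∀ v, (∃ p ∈ C.P, {p} = c v) ∨ c v ∈ C.E ∨ ∃ d ∈ C.D, d.1 = c v := fun v =>
    or_assoc.1 (show c v ∈ (fun p => {p}) '' C.P ∪ C.E ∪ Prod.fst '' C.D from hr ▸ ⟨v, rfl⟩)
  have eP : ∀ e ∈ C.E, ∃ p ∈ C.P, p ∈ e := fun e he => by
    obtain ⟨a, b, -, h⟩ := C.arc e he
    have h1 : a ∈ e ∩ C.P := h ▸ Or.inl rfl
    exact ⟨a, h1.2, h1.1⟩
  have dJ : ∀ d ∈ C.D, d.2 ⊆ d.1 := fun d hd => (C.dsc d hd).basic.2.2.1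
  have Q0 : ∀ v, (Q v).Nonempty := fun v => by
    rcases cs v with ⟨p, hp, h⟩ | h | ⟨d, hd, h⟩
    · exact ⟨p, (hQ v p).2 ⟨hp, h ▸ rfl⟩⟩
    · obtain ⟨p, hp, h1⟩ := eP _ h
      exact ⟨p, (hQ v p).2 ⟨hp, h1⟩⟩
    · obtain ⟨x, hx⟩ := (C.dsc d hd).basic.2.2.2.2.2.2.2.1.nonempty
      obtain ⟨e, he, -, h1⟩ := C.bdy d hd x hx
      obtain ⟨p, hp, h2⟩ := eP _ he
      exact ⟨p, (hQ v p).2 ⟨hp, h ▸ dJ d hd (h1 h2)⟩⟩
  have adj : ∀ v u p, p ∈ Q v → c u = {p} → u ≠ v → ∃ t ∈ K.T, u ∈ t ∧ v ∈ t :=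
    fun v u p hp hu huv => by
    obtain ⟨h1, h2⟩ := (hQ v p).1 hp
    rcases cs v with ⟨q, -, h⟩ | h | ⟨d, hd, h⟩
    · rw [← h] at h2
      exact absurd (hc (by rw [hu, ← h, h2])) huv
    · obtain ⟨d, hd, h3⟩ := C.ed _ h
      obtain ⟨w, hw⟩ := rD d hd
      exact ⟨{u, v, w}, (hT _).2 ⟨u, v, w, rfl, ⟨p, h1, hu⟩, h, ⟨d, hd, hw⟩,
        hu ▸ singleton_subset_iff.2 h2, hw ▸ h3.trans (dJ d hd)⟩, by simp, by simp⟩
    · obtain ⟨e', he', h3⟩ := C.pe p h1
      obtain ⟨e, he, h4, h5⟩ := C.bdy d hd p (C.de d hd e' he' ⟨h ▸ h2, h3⟩)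
      obtain ⟨w, rfl⟩ := rE e he
      exact ⟨{u, w, v}, (hT _).2 ⟨u, w, v, rfl, ⟨p, h1, hu⟩, he, ⟨d, hd, h.symm⟩,
        hu ▸ singleton_subset_iff.2 h4, h ▸ h5.trans (dJ d hd)⟩, by simp, by simp⟩
  obtain ⟨G, hG⟩ : ∃ G : K.V → EuclideanSpace ℝ (Fin n),
      ∀ v, G v = ∑ p ∈ Q v, ((Q v).card : ℝ)⁻¹ • g p := ⟨_, fun _ => rfl⟩
  have c0 : ∀ v, (0 : ℝ) < (Q v).card := fun v => Nat.cast_pos.2 (Q0 v).card_pos
  have G1 : ∀ u p, p ∈ C.P → c u = {p} → G u = g p := fun u p hp hu => by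
    have h : Q u = {p} := Finset.ext fun q => by
      rw [hQ, hu, Finset.mem_singleton]
      exact ⟨fun h => h.2, fun h => ⟨h ▸ hp, h⟩⟩
    rw [hG, h]
    simp
  refine tri_poly S K G (fun ν m X hX h1 h2 => ?_) fun t ht x hx v hv => ?_
  · have G2 : ∀ v, ∑ p ∈ Q v, (⟪ν, g p⟫_ℝ - m) = (Q v).card * (⟪ν, G v⟫_ℝ - m) := fun v => by
      rw [hG, inner_sum, Finset.sum_sub_distrib, Finset.sum_const, nsmul_eq_mul, mul_sub,
        Finset.mul_sum]
      congr 1
      refine Finset.sum_congr rfl fun p _ => ?_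
      rw [real_inner_smul_right, mul_inv_cancel_left₀ (c0 v).ne']
    have key : ∀ v ∈ X, ∀ p ∈ Q v, ∃ u ∈ X, c u = {p} := fun v hv => by
      have h3 : ∀ p ∈ Q v, ∃ u, c u = {p} ∧ ⟪ν, g p⟫_ℝ ≤ m ∧ (⟪ν, g p⟫_ℝ = m → u ∈ X) :=
        fun p hp => by
        obtain ⟨u, hu⟩ := rP p ((hQ v p).1 hp).1
        refine ⟨u, hu, ?_⟩
        rw [← G1 u p ((hQ v p).1 hp).1 hu]
        by_cases h : u = v
        · exact ⟨h ▸ (h1 v hv).le, fun _ => h ▸ hv⟩
        · obtain ⟨t, ht, h4, h5⟩ := adj v u p hp hu h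
          exact h2 v hv u ⟨Ne.symm h, t, ht, h5, h4⟩
      have h4 := G2 v
      rw [h1 v hv, sub_self, mul_zero, Finset.sum_eq_zero_iff_of_nonpos fun p hp =>
        sub_nonpos.2 (h3 p hp).choose_spec.2.1] at h4
      intro p hp
      obtain ⟨u, hu, -, h5⟩ := h3 p hp
      exact ⟨u, h5 (sub_eq_zero.1 (h4 p hp)), hu⟩
    have hv : ∀ p ∈ C.P, ∀ u ∈ X, c u = {p} → ⟪ν, g p⟫_ℝ = m := fun p hp u hu h =>
      G1 u p hp h ▸ h1 u hu
    obtain ⟨p, ⟨-, u, hu, h⟩, hp⟩ := hsc ν m {p ∈ C.P | ∃ u ∈ X, c u = {p}}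
      (by
        obtain ⟨v, hv⟩ := hX
        obtain ⟨p, hp⟩ := Q0 v
        exact ⟨p, ((hQ v p).1 hp).1, key v hv p hp⟩)
      (fun _ h => h.1) (fun p ⟨hp, u, hu, h⟩ => hv p hp u hu h)
      (by
        rintro p ⟨hp, u, hu, h⟩ q hq ⟨e, he, pe, qe⟩
        by_cases hpq : p = q
        · exact ⟨hpq ▸ (hv p hp u hu h).le, fun _ => ⟨hq, u, hu, hpq ▸ h⟩⟩
        obtain ⟨a, b, -, h3⟩ := C.arc e he
        obtain ⟨v, rfl⟩ := rE e he
        have h4 : Q v = {p, q} := Finset.ext fun r => by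
          have a1 : p ∈ ({a, b} : Set S.M) := h3 ▸ ⟨pe, hp⟩
          have a2 : q ∈ ({a, b} : Set S.M) := h3 ▸ ⟨qe, hq⟩
          rw [hQ, and_comm, ← mem_inter_iff, h3]
          simp only [mem_insert_iff, mem_singleton_iff, Finset.mem_insert,
            Finset.mem_singleton] at a1 a2 ⊢
          rcases a1 with rfl | rfl <;> rcases a2 with rfl | rfl <;> tauto
        have huv : u ≠ v := fun h5 => by
          rw [← h5, h] at qe
          exact hpq (Eq.symm qe)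
        obtain ⟨t, ht, h5, h6⟩ := adj v u p ((hQ v p).2 ⟨hp, pe⟩) h huv
        obtain ⟨h7, h8⟩ := h2 u hu v ⟨huv, t, ht, h5, h6⟩
        have h9 := G2 v
        rw [h4, Finset.sum_pair hpq, Finset.card_pair hpq, hv p hp u hu h] at h9
        push_cast at h9
        exact ⟨by linarith only [h7, h9], fun h0 => ⟨hq, key v (h8 (by linarith only [h7, h9, h0])) q ((hQ v q).2 ⟨hq, qe⟩)⟩⟩)
    exact ⟨u, hu, (hpt u p h).symm ▸ hp⟩
  · obtain ⟨a, b, w, rfl, -, -, ⟨d, hd, hw⟩, h1, h2⟩ := (hT t).1 ht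
    have h3 := hf _ ht w (by simp) ⟨d, hd, hw⟩ hx
    have h4 : c v ⊆ c w := by
      simp only [Finset.mem_insert, Finset.mem_singleton] at hv
      rcases hv with rfl | rfl | rfl
      exacts [h1.trans h2, h2, subset_rfl]
    rw [hw] at h3 h4
    rw [hG, ← mem_closedBall']
    refine (convex_closedBall _ _).sum_mem (fun _ _ => (inv_pos.2 (c0 v)).le) ?_ fun p hp => ?_
    · rw [Finset.sum_const, nsmul_eq_mul, mul_inv_cancel₀ (c0 v).ne']
    · exact mem_closedBall'.2 (hε d hd x h3 p ((hQ v p).1 hp).1 (h4 ((hQ v p).1 hp).2))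

end Pool.Agent.MP_17e62b_gt.T55

end

section

/-!
Barycentric subdivision.
-/

namespace Pool.Agent.MP_17e62b_gt.T55

open Set Metric Topology
open scoped InnerProductSpace Manifold

section Comb

variable {V : Type} [Fintype V] [DecidableEq V] {T : Finset (Finset V)}

variable (T) in
/-- The faces. -/
abbrev a8_F : Type := {s : Finset V // s.Nonempty ∧ ∃ t ∈ T, s ⊆ t}

variable (T) in
/-- The flags. -/
def a8_P : Finset (a8_F T × a8_F T × a8_F T) :=
  Finset.univ.filter fun p => p.1 < p.2.1 ∧ p.2.1 < p.2.2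

variable (T) in
/-- The triangles of the subdivision. -/
def a8_T : Finset (Finset (a8_F T)) := (a8_P T).image fun p => {p.1, p.2.1, p.2.2}

variable (T) in
/-- The polyhedron. -/
def a8_S : Set (V → ℝ) := {y | y ∈ stdSimplex ℝ V ∧ ∃ t ∈ T, ∀ v, v ∉ t → y v = 0}

/-- The barycentre of a face. -/
noncomputable def a8_b (s : a8_F T) (v : V) : ℝ := if v ∈ s.1 then ((s.1.card : ℝ))⁻¹ else 0

/-- Old coordinates from new coordinates. -/
noncomputable def a8_G (w : a8_F T → ℝ) : V → ℝ := ∑ s, w s • a8_b s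

theorem a8_mem {c : Finset (a8_F T)} :
    c ∈ a8_T T ↔ ∃ x y z : a8_F T, x < y ∧ y < z ∧ c = {x, y, z} := by
  simp only [a8_T, a8_P, Finset.mem_image, Finset.mem_filter, Finset.mem_univ, true_and]
  exact ⟨fun ⟨p, h, e⟩ => ⟨_, _, _, h.1, h.2, e.symm⟩,
    fun ⟨x, y, z, h, h', e⟩ => ⟨(x, y, z), ⟨h, h'⟩, e.symm⟩⟩

omit [Fintype V] [DecidableEq V] in
theorem a8_card (h3 : ∀ t ∈ T, t.card = 3) (s : a8_F T) : 0 < s.1.card ∧ s.1.card ≤ 3 := by
  obtain ⟨t, ht, h⟩ := s.2.2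
  exact ⟨s.2.1.card_pos, h3 t ht ▸ Finset.card_le_card h⟩

omit [Fintype V] [DecidableEq V] in
theorem a8_flag (h3 : ∀ t ∈ T, t.card = 3) {x y z : a8_F T} (h : x < y) (h' : y < z) :
    x.1.card = 1 ∧ y.1.card = 2 ∧ z.1.card = 3 := by
  have h1 : x.1.card < y.1.card := Finset.card_lt_card h
  have h2 : y.1.card < z.1.card := Finset.card_lt_card h'
  have := (a8_card h3 x).1
  have := (a8_card h3 z).2
  omega

theorem a8_chain {c : Finset (a8_F T)} (hc : c ∈ a8_T T) :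
    (∀ a ∈ c, ∀ b ∈ c, a.1 ⊆ b.1 ∨ b.1 ⊆ a.1) ∧ ∃ t ∈ T, ∀ a ∈ c, a.1 ⊆ t := by
  obtain ⟨x, y, z, h, h', rfl⟩ := a8_mem.1 hc
  have h1 : x.1 ⊆ y.1 := h.le
  have h2 : y.1 ⊆ z.1 := h'.le
  have h3 := h1.trans h2
  obtain ⟨t, ht, hz⟩ := z.2.2
  refine ⟨by simp only [Finset.mem_insert, Finset.mem_singleton, Subtype.coe_le_coe, forall_eq_or_imp, forall_eq, Std.le_refl, or_self, h.le, true_or, (h.trans h').le, and_self, or_true, h'.le], t, ht, ?_⟩
  simp only [Finset.mem_insert, Finset.mem_singleton, forall_eq_or_imp, h3.trans hz, h2.trans hz, forall_eq, hz, and_self]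

theorem a8_ext (h3 : ∀ t ∈ T, t.card = 3) {a b : a8_F T} (h : a.1 ⊆ b.1) :
    ∃ c ∈ a8_T T, a ∈ c ∧ b ∈ c := by
  obtain ⟨t, ht, hb⟩ := b.2.2
  have ca := a8_card h3 a
  have cb := a8_card h3 b
  have ct := h3 t ht
  have hab := Finset.card_le_card h
  obtain ⟨s, sa, s1⟩ := Finset.exists_subset_card_eq (s := a.1) (n := 1) ca.1
  obtain ⟨u, su, ut, u2, ua, ub⟩ : ∃ u, s ⊆ u ∧ u ⊆ t ∧ u.card = 2 ∧ (a.1.card = 2 → a.1 = u) ∧
      (b.1.card = 2 → b.1 = u) := by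
    by_cases e : b.1.card = 2
    · exact ⟨b.1, sa.trans h, hb, e, fun e' => Finset.eq_of_subset_of_card_le h (by omega),
        fun _ => rfl⟩
    by_cases e' : a.1.card = 2
    · exact ⟨a.1, sa, h.trans hb, e', fun _ => rfl, fun e'' => absurd e'' e⟩
    obtain ⟨u, su, ut, u2⟩ := Finset.exists_subsuperset_card_eq (n := 2) (sa.trans (h.trans hb))
      (by omega) (by omega)
    exact ⟨u, su, ut, u2, fun e'' => absurd e'' e', fun e'' => absurd e'' e⟩
  have key : ∀ d : a8_F T, s ⊆ d.1 → d.1 ⊆ t → (d.1.card = 2 → d.1 = u) →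
      d.1 = s ∨ d.1 = u ∨ d.1 = t := fun d d1 d2 d3 => by
    have := a8_card h3 d
    by_cases e : d.1.card = 1
    · exact Or.inl (Finset.eq_of_subset_of_card_le d1 (by omega)).symm
    by_cases e' : d.1.card = 2
    · exact Or.inr (Or.inl (d3 e'))
    exact Or.inr (Or.inr (Finset.eq_of_subset_of_card_le d2 (by omega)))
  refine ⟨_, a8_mem.2 ⟨⟨s, Finset.card_pos.1 (by omega), t, ht, su.trans ut⟩,
    ⟨u, Finset.card_pos.1 (by omega), t, ht, ut⟩, ⟨t, Finset.card_pos.1 (by omega), t, ht, le_rfl⟩,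
    lt_of_le_of_ne su fun e => ?_, lt_of_le_of_ne ut fun e => ?_, rfl⟩, ?_, ?_⟩
  · obtain rfl : s = u := congrArg Subtype.val e
    omega
  · obtain rfl : u = t := congrArg Subtype.val e
    omega
  · simpa [Subtype.ext_iff] using key a sa (h.trans hb) ua
  · simpa [Subtype.ext_iff] using key b (sa.trans h) hb ub

theorem a8_sum_lt (c : a8_F T) (h : ℕ → ℤ) : ∑ b with b < c, h b.1.card =
    ∑ k ∈ Finset.range (c.1.card + 1), c.1.card.choose k • h k - h c.1.card - h 0 := by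
  have h0 : ∅ ∈ c.1.powerset.erase c.1 :=
    Finset.mem_erase.2 ⟨c.2.1.ne_empty.symm, Finset.empty_mem_powerset _⟩
  rw [← Finset.sum_powerset_apply_card, ← Finset.add_sum_erase _ _ (Finset.mem_powerset_self c.1),
    ← Finset.add_sum_erase _ _ h0, Finset.card_empty, add_sub_cancel_left, add_sub_cancel_left]
  refine Finset.sum_bij (fun b _ => b.1) (fun b hb => ?_) (fun _ _ _ _ e => Subtype.ext e)
    (fun b hb => ?_) fun _ _ => rfl
  · have hb := (Finset.mem_filter.1 hb).2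
    exact Finset.mem_erase.2 ⟨b.2.1.ne_empty, Finset.mem_erase.2
      ⟨fun e => hb.ne (Subtype.ext e), Finset.mem_powerset.2 hb.le⟩⟩
  · obtain ⟨b1, b2⟩ := Finset.mem_erase.1 hb
    obtain ⟨b2, b3⟩ := Finset.mem_erase.1 b2
    obtain ⟨t, ht, hc⟩ := c.2.2
    have b4 := Finset.mem_powerset.1 b3
    exact ⟨⟨b, Finset.nonempty_iff_ne_empty.2 b1, t, ht, b4.trans hc⟩, Finset.mem_filter.2
      ⟨Finset.mem_univ _, lt_of_le_of_ne b4 fun e => b2 (congrArg Subtype.val e)⟩, rfl⟩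

theorem a8_below (h3 : ∀ t ∈ T, t.card = 3) (c : a8_F T) :
    ((Finset.univ.filter fun b => b < c).card : ℤ) = 2 ^ c.1.card - 2 := by
  have h := a8_sum_lt c fun _ => 1
  rw [Finset.sum_const, nsmul_one] at h
  obtain ⟨h1, h2⟩ := a8_card h3 c
  rw [h]
  generalize c.1.card = n at *
  interval_cases n <;> decide

theorem a8_chi (h3 : ∀ t ∈ T, t.card = 3) (hu : ∀ v, ∃ t ∈ T, v ∈ t) : chi (a8_T T) = chi T := by
  have e3 : ((a8_T T).card : ℤ) = ∑ c : a8_F T, ∑ b with b < c, (2 ^ b.1.card - 2 : ℤ) := by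
    rw [a8_T, Finset.card_image_of_injOn]
    · simp only [← a8_below h3, a8_P, Finset.card_filter, Finset.sum_filter, Nat.cast_sum,
        Fintype.sum_prod_type_right]
      refine Finset.sum_congr rfl fun c _ => Finset.sum_congr rfl fun b _ => ?_
      by_cases h : b < c <;> simp only [h, and_true, Nat.cast_ite, Nat.cast_one, CharP.cast_eq_zero, Finset.sum_boole, ↓ reduceIte, and_false, Finset.sum_const_zero]
    · rintro ⟨x, y, z⟩ hp ⟨x', y', z'⟩ hp' e
      have hp := (Finset.mem_filter.1 hp).2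
      have hp' := (Finset.mem_filter.1 hp').2
      obtain ⟨a1, a2, a3⟩ := a8_flag h3 hp.1 hp.2
      obtain ⟨b1, b2, b3⟩ := a8_flag h3 hp'.1 hp'.2
      dsimp only at e a1 a2 a3 b1 b2 b3
      have hx : x ∈ ({x', y', z'} : Finset _) := e ▸ by simp
      have hy : y ∈ ({x', y', z'} : Finset _) := e ▸ by simp
      have hz : z ∈ ({x', y', z'} : Finset _) := e ▸ by simp
      simp only [Finset.mem_insert, Finset.mem_singleton] at hx hy hz
      rcases hx with rfl | rfl | rfl <;> try omega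
      rcases hy with rfl | rfl | rfl <;> try omega
      rcases hz with rfl | rfl | rfl <;> first | omega | rfl
  have e2 : ({s : Finset (a8_F T) | s.card = 2 ∧ ∃ t ∈ a8_T T, s ⊆ t}.ncard : ℤ) =
      ∑ c : a8_F T, (2 ^ c.1.card - 2 : ℤ) := by
    have : {s : Finset (a8_F T) | s.card = 2 ∧ ∃ t ∈ a8_T T, s ⊆ t} =
        (fun p : a8_F T × a8_F T => ({p.1, p.2} : Finset (a8_F T))) ''
          ((Finset.univ.filter fun p : a8_F T × a8_F T => p.1 < p.2 :) : Set _) := by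
      ext s
      constructor
      · rintro ⟨h, t, ht, hs⟩
        obtain ⟨a, b, hab, rfl⟩ := Finset.card_eq_two.1 h
        rcases (a8_chain ht).1 a (hs (by simp)) b (hs (by simp)) with h1 | h1
        · exact ⟨(a, b), by simpa only [Finset.coe_filter, Finset.mem_univ, true_and, mem_ofPred_eq] using lt_of_le_of_ne (a := a) h1 hab, rfl⟩
        · exact ⟨(b, a), by simpa only [Finset.coe_filter, Finset.mem_univ, true_and, mem_ofPred_eq] using lt_of_le_of_ne (a := b) h1 hab.symm, Finset.pair_comm _ _⟩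
      · rintro ⟨⟨a, b⟩, h, rfl⟩
        have h : a < b := by simpa only [Finset.coe_filter, Finset.mem_univ, true_and, mem_ofPred_eq] using h
        obtain ⟨c, hc, h1, h2⟩ := a8_ext h3 h.le
        exact ⟨Finset.card_pair h.ne, c, hc, by simp [Finset.insert_subset_iff, h1, h2]⟩
    rw [this, InjOn.ncard_image, ncard_coe_finset]
    · simp only [← a8_below h3, Finset.card_filter, Nat.cast_sum, Fintype.sum_prod_type_right]
    · rintro ⟨a, b⟩ h ⟨a', b'⟩ h' e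
      have h : a < b := by simpa only [Finset.coe_filter, Finset.mem_univ, true_and, mem_ofPred_eq] using h
      have h' : a' < b' := by simpa only [Finset.coe_filter, Finset.mem_univ, true_and, mem_ofPred_eq] using h'
      have e' : ({a, b} : Set (a8_F T)) = {a', b'} := by simpa using congrArg SetLike.coe e
      rcases pair_eq_pair_iff.1 e' with ⟨rfl, rfl⟩ | ⟨rfl, rfl⟩
      · rfl
      · exact absurd h h'.asymm
  have f : ∀ (k : ℕ) (S : Finset (Finset V)), 0 < k → (∀ s, s ∈ S ↔ s.card = k ∧ ∃ t ∈ T, s ⊆ t) →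
      (S.card : ℤ) = ∑ c : a8_F T, if c.1.card = k then 1 else 0 := fun k S hk hS => by
    rw [Finset.sum_boole]
    congr 1
    symm
    refine Finset.card_bij (fun c _ => c.1) (fun c hc => ?_) (fun _ _ _ _ e => Subtype.ext e)
      fun s hs => ?_
    · exact (hS _).2 ⟨(Finset.mem_filter.1 hc).2, c.2.2⟩
    · obtain ⟨h1, h2⟩ := (hS s).1 hs
      exact ⟨⟨s, Finset.card_pos.1 (h1 ▸ hk), h2⟩, Finset.mem_filter.2 ⟨Finset.mem_univ _, h1⟩, rfl⟩
  have f1 := f 1 (Finset.univ.powersetCard 1) one_pos fun s => by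
    rw [Finset.mem_powersetCard_univ]
    refine ⟨fun h => ⟨h, ?_⟩, fun h => h.1⟩
    obtain ⟨v, rfl⟩ := Finset.card_eq_one.1 h
    simpa using hu v
  have f2 := f 2 (Finset.univ.filter fun s => s.card = 2 ∧ ∃ t ∈ T, s ⊆ t) two_pos (by simp only [Finset.mem_filter, Finset.mem_univ, true_and, implies_true])
  have f3 := f 3 T three_pos fun s => ⟨fun h => ⟨h3 s h, s, h, le_rfl⟩, fun ⟨h, t, ht, hs⟩ =>
    Finset.eq_of_subset_of_card_le hs (by rw [h, h3 t ht]) ▸ ht⟩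
  rw [Finset.card_powersetCard, Nat.choose_one_right, Finset.card_univ] at f1
  rw [← ncard_coe_finset, Finset.coe_filter_univ] at f2
  rw [chi, chi, e3, e2, f1, f2, f3, Fintype.card_eq_sum_ones, Nat.cast_sum,
    ← Finset.sum_sub_distrib, ← Finset.sum_sub_distrib, ← Finset.sum_add_distrib,
    ← Finset.sum_add_distrib]
  refine Finset.sum_congr rfl fun c _ => ?_
  rw [a8_sum_lt c fun k => 2 ^ k - 2]
  obtain ⟨h1, h2⟩ := a8_card h3 c
  generalize c.1.card = n at *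
  interval_cases n <;> decide

omit [Fintype V] in
theorem a8_b_nonneg (s : a8_F T) (v : V) : 0 ≤ a8_b s v := by
  rw [a8_b]
  split_ifs <;> positivity

theorem a8_b_sum {E : Type} [AddCommGroup E] [Module ℝ E] (s : a8_F T) (f : V → E) :
    ∑ v, a8_b s v • f v = ((s.1.card : ℝ))⁻¹ • ∑ v ∈ s.1, f v := by
  simp only [a8_b, ite_smul, zero_smul, Finset.sum_ite_mem, Finset.univ_inter, Finset.smul_sum]

theorem a8_G_apply (w : a8_F T → ℝ) (v : V) : a8_G w v = ∑ s, w s * a8_b s v := by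
  simp only [a8_G, Finset.sum_apply, Pi.smul_apply, smul_eq_mul]

theorem a8_G_sum (w : a8_F T → ℝ) : ∑ v, a8_G w v = ∑ s, w s := by
  simp only [a8_G_apply]
  rw [Finset.sum_comm]
  refine Finset.sum_congr rfl fun s _ => ?_
  have h : (s.1.card : ℝ) ≠ 0 := Nat.cast_ne_zero.2 s.2.1.card_pos.ne'
  have := a8_b_sum s fun _ => (1 : ℝ)
  simp only [smul_eq_mul, mul_one, Finset.sum_const, nsmul_eq_mul, inv_mul_cancel₀ h] at this
  rw [← Finset.mul_sum, this, mul_one]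

theorem a8_G_single (s : a8_F T) (r : ℝ) : a8_G (Pi.single s r) = r • a8_b s := by
  simp only [a8_G, Pi.single_apply, ite_smul, zero_smul, Finset.sum_ite_eq', Finset.mem_univ, ↓ reduceIte]

theorem a8_G_add (w w' : a8_F T → ℝ) : a8_G (w + w') = a8_G w + a8_G w' := by
  simp only [a8_G, Pi.add_apply, add_smul, Finset.sum_add_distrib]

theorem a8_top {p : a8_F T → ℝ} (h0 : ∀ s, 0 ≤ p s) {c : Finset (a8_F T)} (hc : c ∈ a8_T T)
    (hp : ∀ s, s ∉ c → p s = 0) (h : ∃ s, p s ≠ 0) :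
    ∃ s, p s ≠ 0 ∧ ∀ v, a8_G p v ≠ 0 ↔ v ∈ s.1 := by
  obtain ⟨s, hs, hm⟩ := (Finset.univ.filter fun s => p s ≠ 0).exists_max_image (fun s => s.1.card)
    (by simpa only [Finset.Nonempty, ne_eq, Finset.mem_filter, Finset.mem_univ, true_and, Subtype.exists] using h)
  have hs := (Finset.mem_filter.1 hs).2
  refine ⟨s, hs, fun v => ⟨fun h1 => ?_, fun h1 => ?_⟩⟩
  · rw [a8_G_apply] at h1
    obtain ⟨s', -, h2⟩ := Finset.exists_ne_zero_of_sum_ne_zero h1
    have h3 := left_ne_zero_of_mul h2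
    have h4 : v ∈ s'.1 := by
      by_contra h4
      exact right_ne_zero_of_mul h2 (if_neg h4)
    rcases (a8_chain hc).1 s' (by_contra fun e => h3 (hp _ e)) s (by_contra fun e => hs (hp _ e))
      with h5 | h5
    · exact h5 h4
    · rwa [Finset.eq_of_subset_of_card_le h5 (hm s' (by simpa only [ne_eq, Finset.mem_filter, Finset.mem_univ, true_and] using h3))]
  · rw [a8_G_apply]
    refine (Finset.sum_pos' (fun s _ => mul_nonneg (h0 s) (a8_b_nonneg s v))
      ⟨s, Finset.mem_univ _, mul_pos ((h0 s).lt_of_ne' hs) ?_⟩).ne'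
    rw [a8_b, if_pos h1]
    exact inv_pos.2 (Nat.cast_pos.2 s.2.1.card_pos)

theorem a8_inj : InjOn a8_G (a8_S (a8_T T)) := by
  have key : ∀ w ∈ a8_S (a8_T T), ∀ w' ∈ a8_S (a8_T T), a8_G w = a8_G w' → w ≤ w' := by
    rintro w ⟨h, c, hc, hw⟩ w' ⟨h', c', hc', hw'⟩ e s
    by_contra hs
    have e' : a8_G (w - w ⊓ w') = a8_G (w' - w ⊓ w') := by
      apply add_right_cancel (b := a8_G (w ⊓ w'))
      rw [← a8_G_add, ← a8_G_add, sub_add_cancel, sub_add_cancel, e]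
    obtain ⟨a, a1, a2⟩ := a8_top (p := w - w ⊓ w') (fun s => sub_nonneg.2 (min_le_left _ _)) hc
      (fun s h1 => by simp only [Pi.sub_apply, hw s h1, Pi.inf_apply, h'.1 s, inf_of_le_left, sub_self]) ⟨s, by
        simpa only [Pi.sub_apply, Pi.inf_apply, min_eq_right (not_le.1 hs).le, ne_eq, sub_eq_zero] using (not_le.1 hs).ne'⟩
    obtain ⟨v, hv⟩ := a.2.1
    have h1 := (a2 v).2 hv
    rw [e', a8_G_apply] at h1
    obtain ⟨s', -, h2⟩ := Finset.exists_ne_zero_of_sum_ne_zero h1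
    obtain ⟨b, b1, b2⟩ := a8_top (p := w' - w ⊓ w') (fun s => sub_nonneg.2 (min_le_right _ _)) hc'
      (fun s h1 => by simp only [Pi.sub_apply, hw' s h1, Pi.inf_apply, h.1 s, inf_of_le_right, sub_self]) ⟨s', left_ne_zero_of_mul h2⟩
    obtain rfl : a = b := Subtype.ext (Finset.ext fun v => by rw [← a2, ← b2, e'])
    rcases le_total (w a) (w' a) with h3 | h3
    · exact a1 (by simp only [Pi.sub_apply, Pi.inf_apply, h3, inf_of_le_left, sub_self])
    · exact b1 (by simp only [Pi.sub_apply, Pi.inf_apply, h3, inf_of_le_right, sub_self])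
  exact fun w h w' h' e => le_antisymm (key w h w' h' e) (key w' h' w h e.symm)

omit [Fintype V] in
theorem a8_sort {t : Finset V} (h : t.card = 3) (f : V → ℝ) :
    ∃ a b c, a ≠ b ∧ a ≠ c ∧ b ≠ c ∧ t = {a, b, c} ∧ f b ≤ f a ∧ f c ≤ f b := by
  obtain ⟨a, ha, hm⟩ := t.exists_max_image f (Finset.card_pos.1 (by omega))
  obtain ⟨b, c, hbc, e⟩ := Finset.card_eq_two.1 (show (t.erase a).card = 2 by
    rw [Finset.card_erase_of_mem ha, h])
  obtain ⟨b1, b2⟩ := Finset.mem_erase.1 (show b ∈ t.erase a by simp [e])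
  obtain ⟨c1, c2⟩ := Finset.mem_erase.1 (show c ∈ t.erase a by simp [e])
  have e' : t = {a, b, c} := by rw [← e, Finset.insert_erase ha]
  rcases le_total (f b) (f c) with h1 | h1
  · exact ⟨a, c, b, c1.symm, b1.symm, hbc.symm, by rw [e', Finset.pair_comm], hm c c2, h1⟩
  · exact ⟨a, b, c, b1.symm, c1.symm, hbc, e', hm b b2, h1⟩

theorem a8_img (h3 : ∀ t ∈ T, t.card = 3) : a8_G '' a8_S (a8_T T) = a8_S T := by
  refine Subset.antisymm ?_ ?_
  · rintro _ ⟨w, ⟨h, c, hc, hw⟩, rfl⟩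
    obtain ⟨t, ht, h1⟩ := (a8_chain hc).2
    refine ⟨⟨fun v => ?_, (a8_G_sum w).trans h.2⟩, t, ht, fun v hv => ?_⟩
    · rw [a8_G_apply]
      exact Finset.sum_nonneg fun s _ => mul_nonneg (h.1 s) (a8_b_nonneg s v)
    · rw [a8_G_apply]
      refine Finset.sum_eq_zero fun s _ => ?_
      by_cases hs : s ∈ c
      · rw [a8_b, if_neg fun e => hv (h1 s hs e), mul_zero]
      · rw [hw s hs, zero_mul]
  · rintro y ⟨h, t, ht, hy⟩
    obtain ⟨a, b, c, ab, ac, bc, rfl, h1, h2⟩ := a8_sort (h3 t ht) y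
    let A : a8_F T := ⟨{a}, by simp, _, ht, by simp⟩
    let B : a8_F T := ⟨{a, b}, by simp, _, ht, by simp [Finset.insert_subset_iff]⟩
    let C : a8_F T := ⟨{a, b, c}, by simp, _, ht, le_rfl⟩
    have e : a8_G (Pi.single A (y a - y b) + Pi.single B (2 * (y b - y c)) +
        Pi.single C (3 * y c)) = y := by
      rw [a8_G_add, a8_G_add, a8_G_single, a8_G_single, a8_G_single]
      funext v
      simp only [Pi.add_apply, Pi.smul_apply, a8_b, A, B, C, h3 _ ht, Finset.card_pair ab,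
        Finset.card_singleton, smul_eq_mul, Finset.mem_insert, Finset.mem_singleton]
      by_cases va : v = a
      · simp only [va, true_or, if_true]
        push_cast
        ring
      by_cases vb : v = b
      · simp only [vb, ab.symm, true_or, or_true, if_true, if_false]
        push_cast
        ring
      by_cases vc : v = c
      · simp only [vc, ac.symm, bc.symm, or_true, or_self, if_true, if_false]
        push_cast
        ring
      · simp [va, vb, vc, hy v]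
    refine ⟨_, ⟨⟨fun s => ?_, by rw [← a8_G_sum, e, h.2]⟩, _, a8_mem.2 ⟨A, B, C, ?_, ?_, rfl⟩,
      fun s hs => ?_⟩, e⟩
    · have n : ∀ (D : a8_F T) (r : ℝ), 0 ≤ r → (0 : a8_F T → ℝ) ≤ Pi.single D r := fun _ _ h =>
        by rwa [Pi.single_nonneg]
      exact add_nonneg (add_nonneg (n A _ (sub_nonneg.2 h1) s) (n B _ (mul_nonneg zero_le_two
        (sub_nonneg.2 h2)) s)) (n C _ (mul_nonneg zero_le_three (h.1 c)) s)
    · exact Finset.ssubset_iff_of_subset (by simp [A, B]) |>.2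
        ⟨b, by simp [B], by simp [A, ab.symm]⟩
    · exact Finset.ssubset_iff_of_subset (by simp [B, C, Finset.insert_subset_iff]) |>.2
        ⟨c, by simp [C], by simp [B, ac.symm, bc.symm]⟩
    · simp only [Finset.mem_insert, Finset.mem_singleton, not_or] at hs
      simp [hs]

omit [DecidableEq V] in
theorem a8_compact : IsCompact (a8_S T) := by
  refine (isCompact_stdSimplex ℝ V).inter_right (t := {y | ∃ t ∈ T, ∀ v, v ∉ t → y v = 0}) ?_
  simp only [← exists_prop, ofPred_exists, ofPred_forall]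
  exact isClosed_biUnion_finset fun t _ => isClosed_iInter fun v => isClosed_iInter fun _ =>
    isClosed_eq (continuous_apply v) continuous_const

theorem a8_cont (h3 : ∀ t ∈ T, t.card = 3) :
    ContinuousOn (Function.invFunOn a8_G (a8_S (a8_T T))) (a8_S T) := by
  have hG : Continuous (a8_G (T := T)) :=
    continuous_finsetSum _ fun s _ => (continuous_apply s).smul continuous_const
  refine continuousOn_iff_isClosed.2 fun C hC => ⟨a8_G '' (a8_S (a8_T T) ∩ C),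
    ((a8_compact.inter_right hC).image hG).isClosed, ?_⟩
  rw [← a8_img h3]
  ext y
  constructor
  · rintro ⟨h, w, hw, rfl⟩
    rw [mem_preimage, a8_inj.leftInvOn_invFunOn hw] at h
    exact ⟨⟨w, ⟨hw, h⟩, rfl⟩, w, hw, rfl⟩
  · rintro ⟨⟨w, ⟨hw, h⟩, rfl⟩, h'⟩
    exact ⟨by rwa [mem_preimage, a8_inj.leftInvOn_invFunOn hw], h'⟩

theorem a8_single (h3 : ∀ t ∈ T, t.card = 3) (s : a8_F T) : Pi.single s 1 ∈ a8_S (a8_T T) := by
  obtain ⟨c, hc, h, -⟩ := a8_ext h3 (le_refl s.1)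
  exact ⟨single_mem_stdSimplex ℝ s, c, hc, fun v hv =>
    Pi.single_eq_of_ne (ne_of_mem_of_not_mem h hv).symm _⟩

theorem a8_mesh {E : Type} [NormedAddCommGroup E] [NormedSpace ℝ E] (h3 : ∀ t ∈ T, t.card = 3)
    {f : V → E} {r : ℝ} (h : ∀ t ∈ T, ∀ u ∈ t, ∀ v ∈ t, ‖f u - f v‖ ≤ r) {a b : a8_F T}
    (hab : a.1 ⊆ b.1) : ‖∑ v, a8_b a v • f v - ∑ v, a8_b b v • f v‖ ≤ 2 / 3 * r := by
  obtain ⟨t, ht, hb⟩ := b.2.2
  obtain ⟨b0, b3⟩ := a8_card h3 b
  have a0 : (0 : ℝ) < a.1.card := Nat.cast_pos.2 (a8_card h3 a).1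
  have b1 : (0 : ℝ) < b.1.card := Nat.cast_pos.2 b0
  have b4 : (b.1.card : ℝ) ≤ 3 := by exact_mod_cast b3
  have h1 : ∀ u ∈ a.1, ‖f u - ∑ v, a8_b b v • f v‖ ≤ 2 / 3 * r := fun u hu => by
    have r0 : 0 ≤ r := (norm_nonneg _).trans (h t ht u (hb (hab hu)) u (hb (hab hu)))
    have e : f u - ∑ v, a8_b b v • f v = ((b.1.card : ℝ))⁻¹ • ∑ v ∈ b.1.erase u, (f u - f v) := by
      rw [Finset.sum_erase _ (sub_self _), a8_b_sum, Finset.sum_sub_distrib, Finset.sum_const,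
        smul_sub, ← Nat.cast_smul_eq_nsmul ℝ, inv_smul_smul₀ b1.ne']
    have h2 := (norm_sum_le _ _).trans (Finset.sum_le_card_nsmul (b.1.erase u)
      (fun v => ‖f u - f v‖) r fun v hv =>
        h t ht u (hb (hab hu)) v (hb (Finset.mem_of_mem_erase hv)))
    rw [Finset.card_erase_of_mem (hab hu), nsmul_eq_mul, Nat.cast_pred b0] at h2
    rw [e, norm_smul, Real.norm_eq_abs, abs_of_pos (inv_pos.2 b1), inv_mul_le_iff₀ b1]
    linarith only [mul_nonneg r0 (sub_nonneg.2 b4), h2]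
  generalize ∑ v, a8_b b v • f v = z at h1
  have e : ∑ v, a8_b a v • f v - z = ((a.1.card : ℝ))⁻¹ • ∑ v ∈ a.1, (f v - z) := by
    rw [a8_b_sum, Finset.sum_sub_distrib, Finset.sum_const, smul_sub, ← Nat.cast_smul_eq_nsmul ℝ,
      inv_smul_smul₀ a0.ne']
  rw [e, norm_smul, Real.norm_eq_abs, abs_of_pos (inv_pos.2 a0), inv_mul_le_iff₀ a0,
    ← nsmul_eq_mul]
  exact (norm_sum_le _ _).trans (Finset.sum_le_card_nsmul _ _ _ h1)

end Comb

variable {M : Type} [TopologicalSpace M] {A : Set M}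

/-- One subdivision. Plan: vertices are the non-empty subsets `s` of triangles, triangles are the
chains; `lam' x s = card s * max 0 (min of lam x on s - max of lam x off s)` (maximum `0` if the
complement is empty), and `lam x v = ∑ s ∋ v, lam' x s / card s`. Count: `V + E + T` vertices,
`2 E + 6 T` edges, `6 T` triangles. The map `e` is any map that is affine on the faces. -/
theorem Tri.sub1 (K : Tri A) : ∃ K' : Tri A, chi K'.T = chi K.T ∧
    ∀ {E : Type} [NormedAddCommGroup E] [NormedSpace ℝ E] (e : M → E) (r : ℝ),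
      (∀ x ∈ A, e x = ∑ v, K.lam x v • e (K.pt v)) →
      (∀ t ∈ K.T, ∀ u ∈ t, ∀ v ∈ t, ‖e (K.pt u) - e (K.pt v)‖ ≤ r) →
      (∀ x ∈ A, e x = ∑ v, K'.lam x v • e (K'.pt v)) ∧
      ∀ t ∈ K'.T, ∀ u ∈ t, ∀ v ∈ t, ‖e (K'.pt u) - e (K'.pt v)‖ ≤ 2 / 3 * r := by
  have hi : K.lam '' A = a8_G '' a8_S (a8_T K.T) := K.img.trans (a8_img K.card).symm
  have hx : ∀ x ∈ A, ∃ w ∈ a8_S (a8_T K.T), a8_G w = K.lam x := fun x hx =>
    hi.subset (mem_image_of_mem _ hx)
  have hp : ∀ s : a8_F K.T, ∃ x ∈ A, K.lam x = a8_G (Pi.single s 1) := fun s =>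
    hi.symm.subset (mem_image_of_mem _ (a8_single K.card s))
  choose pt h1 h2 using hp
  refine ⟨⟨a8_F K.T, a8_T K.T, fun c hc => ?_, fun s => ?_,
    fun x => Function.invFunOn a8_G (a8_S (a8_T K.T)) (K.lam x), pt,
    (a8_cont K.card).comp K.cont fun x hx => K.img.subset (mem_image_of_mem _ hx),
    fun x h x' h' e => K.inj h h' ?_, ?_, h1, fun s => ?_⟩, a8_chi K.card K.used,
    fun e r he hr => ?_⟩
  · obtain ⟨x, y, z, h, h', rfl⟩ := a8_mem.1 hc
    exact Finset.card_eq_three.2 ⟨x, y, z, h.ne, (h.trans h').ne, h'.ne, rfl⟩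
  · obtain ⟨c, hc, h, -⟩ := a8_ext K.card (le_refl s.1)
    exact ⟨c, hc, h⟩
  · rw [← Function.invFunOn_eq (hx x h), ← Function.invFunOn_eq (hx x' h')]
    exact congrArg _ e
  · rw [← image_image (Function.invFunOn a8_G (a8_S (a8_T K.T))), hi]
    exact a8_inj.invFunOn_image Subset.rfl
  · rw [h2]
    exact a8_inj.leftInvOn_invFunOn (a8_single K.card s)
  have h3 : ∀ s, e (pt s) = ∑ v, a8_b s v • e (K.pt v) := fun s => by
    rw [he _ (h1 s), h2, a8_G_single, one_smul]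
  refine ⟨fun x h => ?_, fun c hc u hu v hv => ?_⟩
  · have h4 := Function.invFunOn_eq (hx x h)
    dsimp only
    generalize Function.invFunOn a8_G (a8_S (a8_T K.T)) (K.lam x) = w at h4
    simp only [he x h, h3, ← h4, a8_G_apply, Finset.sum_smul, Finset.smul_sum, mul_smul]
    exact Finset.sum_comm
  · dsimp only
    rw [h3, h3]
    rcases (a8_chain hc).1 u hu v hv with h | h
    · exact a8_mesh K.card hr h
    · rw [norm_sub_rev]
      exact a8_mesh K.card hr h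

/-- Plan: iterate `Tri.sub1` with `e = K.lam`; the inverse of `K.lam` is uniformly continuous on
the compact image. -/
theorem Tri.fine {M : Type} [MetricSpace M] {A : Set M} (hA : IsCompact A) (K : Tri A) {ε : ℝ}
    (hε : 0 < ε) : ∃ K' : Tri A, chi K'.T = chi K.T ∧
      ∀ t ∈ K'.T, ∀ x ∈ K'.face t, ∀ y ∈ K'.face t, dist x y ≤ ε := by
  have it : ∀ n : ℕ, ∃ K' : Tri A, chi K'.T = chi K.T ∧
      (∀ x ∈ A, K.lam x = ∑ v, K'.lam x v • K.lam (K'.pt v)) ∧
      ∀ t ∈ K'.T, ∀ u ∈ t, ∀ v ∈ t, ‖K.lam (K'.pt u) - K.lam (K'.pt v)‖ ≤ (2 / 3) ^ n * 2 := by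
    intro n
    induction n with
    | zero =>
      refine ⟨K, rfl, fun x _ => ?_, fun t _ u _ v _ => (norm_sub_le _ _).trans ?_⟩
      · simp only [K.lam_pt]
        exact pi_eq_sum_univ' _
      · simp only [K.lam_pt, Pi.norm_single]
        norm_num
    | succ n ih =>
      obtain ⟨K₁, h1, h2, h3⟩ := ih
      obtain ⟨K₂, h4, h5⟩ := K₁.sub1
      obtain ⟨h6, h7⟩ := h5 K.lam _ h2 h3
      exact ⟨K₂, h4.trans h1, h6, by simpa only [pow_succ', mul_assoc] using h7⟩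
  obtain ⟨δ, δ0, hδ⟩ := ((hA.prod hA).inter_right (isClosed_le (continuous_const (y := ε))
    continuous_dist)).exists_forall_le' (f := fun p : M × M => ‖K.lam p.1 - K.lam p.2‖) (a := 0)
    ((K.cont.comp continuousOn_fst fun p hp => hp.1.1).sub
      (K.cont.comp continuousOn_snd fun p hp => hp.1.2)).norm fun p hp => by
      refine norm_pos_iff.2 (sub_ne_zero.2 fun e => ?_)
      have h := hp.2
      rw [mem_ofPred, K.inj hp.1.1 hp.1.2 e, dist_self] at h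
      exact h.not_gt hε
  obtain ⟨n, hn⟩ := exists_pow_lt_of_lt_one (show 0 < δ / 4 by positivity)
    (show (2 / 3 : ℝ) < 1 by norm_num)
  obtain ⟨K', h1, h2, h3⟩ := it n
  refine ⟨K', h1, fun t ht x hx y hy => ?_⟩
  obtain ⟨v, hv⟩ := Finset.card_pos.1 (show 0 < t.card by rw [K'.card t ht]; norm_num)
  have h4 : ∀ x ∈ K'.face t, ‖K.lam x - K.lam (K'.pt v)‖ ≤ (2 / 3) ^ n * 2 := fun x hx => by
    have h5 := (K'.img.subset (mem_image_of_mem _ hx.1)).1
    rw [h2 x hx.1, ← one_smul ℝ (K.lam (K'.pt v)), ← one_mul (_ * _), ← h5.2, Finset.sum_smul,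
      ← Finset.sum_sub_distrib, Finset.sum_mul]
    refine (norm_sum_le _ _).trans (Finset.sum_le_sum fun u _ => ?_)
    rw [← smul_sub, norm_smul, Real.norm_eq_abs, abs_of_nonneg (h5.1 u)]
    by_cases hu : u ∈ t
    · exact mul_le_mul_of_nonneg_left (h3 t ht u hu v hv) (h5.1 u)
    · rw [hx.2 u hu, zero_mul, zero_mul]
  by_contra h5
  have h6 := hδ (x, y) ⟨⟨hx.1, hy.1⟩, (not_le.1 h5).le⟩
  have h7 := norm_sub_le_norm_sub_add_norm_sub (K.lam x) (K.lam (K'.pt v)) (K.lam y)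
  rw [norm_sub_rev (K.lam (K'.pt v))] at h7
  linarith [h4 x hx, h4 y hy]

end Pool.Agent.MP_17e62b_gt.T55

end

section

/-!
Local structure of a triangulation of a surface.
-/

namespace Pool.Agent.MP_17e62b_gt.T55

open Set Metric Topology
open scoped InnerProductSpace Manifold

variable {M : Type} [TopologicalSpace M] [T2Space M] {A B : Set M}

omit [T2Space M] in
theorem Tri.basic (K : Tri A) {x : M} (hx : x ∈ A) :
    (∀ v, 0 ≤ K.lam x v) ∧ ∑ v, K.lam x v = 1 ∧ ∃ t ∈ K.T, x ∈ K.face t := by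
  have h : K.lam x ∈ K.lam '' A := mem_image_of_mem _ hx
  rw [K.img] at h
  obtain ⟨h1, t, ht, h2⟩ := h
  exact ⟨h1.1, h1.2, t, ht, hx, h2⟩

/-- The inverse of the coordinates. -/
theorem Tri.exists_inv (K : Tri A) (hA : IsCompact A) [Nonempty M] :
    ∃ σ : (K.V → ℝ) → M, ContinuousOn σ (K.lam '' A) ∧ (∀ x ∈ A, σ (K.lam x) = x) := by
  have : CompactSpace A := isCompact_iff_compactSpace.1 hA
  have h := (K.cont.domRestrict.isClosedEmbedding (injOn_iff_injective.1 K.inj)).isEmbedding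
  refine ⟨Function.invFunOn K.lam A, continuousOn_iff_continuous_domRestrict.2 ?_,
    fun x hx => K.inj.leftInvOn_invFunOn hx⟩
  have h1 : Continuous fun y : K.lam '' A =>
      (⟨Function.invFunOn K.lam A y, Function.invFunOn_mem y.2⟩ : A) :=
    h.continuous_iff.2 (continuous_subtype_val.congr fun y => (Function.invFunOn_eq y.2).symm)
  exact continuous_subtype_val.comp h1

theorem a9_param (K : Tri A) (hA : IsCompact A) (u : K.V) {S : Set ℂ} {y : ℂ → K.V → ℝ}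
    (hy : Continuous y) (h0 : ∀ z ∈ S, ∀ v, 0 ≤ y z v) (h1 : ∀ z ∈ S, ∑ v, y z v = 1)
    (h2 : ∀ z ∈ S, ∃ t ∈ K.T, ∀ v, v ∉ t → y z v = 0) :
    ∃ Ψ : ℂ → M, ContinuousOn Ψ S ∧ (∀ z ∈ S, Ψ z ∈ A ∧ K.lam (Ψ z) = y z) := by
  have : Nonempty M := ⟨K.pt u⟩
  obtain ⟨σ, hc, hσ⟩ := K.exists_inv hA
  have hm : MapsTo y S (K.lam '' A) := fun z hz => by
    rw [K.img]
    exact ⟨⟨h0 z hz, h1 z hz⟩, h2 z hz⟩
  refine ⟨σ ∘ y, hc.comp hy.continuousOn hm, fun z hz => ?_⟩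
  obtain ⟨x, hx, e⟩ := hm hz
  rw [Function.comp_apply, ← e, hσ x hx]
  exact ⟨hx, rfl⟩

theorem a9_cs {V : Type} [DecidableEq V] (v : V) {f : ℂ → ℝ} (h : Continuous f) :
    Continuous fun z => (Pi.single v (f z) : V → ℝ) := (continuous_single v).comp h

theorem a9_sn {V : Type} [DecidableEq V] (v a : V) {r : ℝ} (h : 0 ≤ r) :
    0 ≤ (Pi.single v r : V → ℝ) a := by
  rw [Pi.single_apply]
  split_ifs
  exacts [h, le_rfl]

theorem a9_ne {V : Type} [DecidableEq V] {u v w : V} (h : ({u, v, w} : Finset V).card = 3) :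
    u ≠ v ∧ u ≠ w ∧ v ≠ w := by
  refine ⟨?_, ?_, ?_⟩ <;> rintro rfl
  · rw [Finset.insert_idem] at h
    exact absurd (h ▸ Finset.card_le_two) (by norm_num)
  · rw [Finset.insert_comm, Finset.insert_eq_of_mem (Finset.mem_singleton_self _)] at h
    exact absurd (h ▸ Finset.card_le_two) (by norm_num)
  · rw [Finset.insert_eq_of_mem (Finset.mem_singleton_self _)] at h
    exact absurd (h ▸ Finset.card_le_two) (by norm_num)

theorem a9_third {V : Type} [DecidableEq V] {t : Finset V} (h : t.card = 3) {u v : V}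
    (huv : u ≠ v) (hu : u ∈ t) (hv : v ∈ t) : ∃ w, (w ≠ u ∧ w ≠ v) ∧ t = {u, v, w} := by
  obtain ⟨w, hw, hw'⟩ := Finset.exists_mem_notMem_of_card_lt_card (s := {u, v}) (t := t)
    (Finset.card_le_two.trans_lt (by omega))
  simp only [Finset.mem_insert, Finset.mem_singleton, not_or] at hw'
  refine ⟨w, hw', (Finset.eq_of_subset_of_card_le (fun a ha => ?_) ?_).symm⟩
  · simp only [Finset.mem_insert, Finset.mem_singleton] at ha
    rcases ha with rfl | rfl | rfl <;> assumption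
  · rw [h, Finset.card_eq_three.2 ⟨u, v, w, huv, Ne.symm hw'.1, Ne.symm hw'.2, rfl⟩]

omit [T2Space M] in
theorem a9_sum (K : Tri A) {u v w : K.V} (h1 : u ≠ v) (h2 : u ≠ w) (h3 : v ≠ w) {x : M}
    (hx : x ∈ K.face {u, v, w}) : K.lam x u + K.lam x v + K.lam x w = 1 := by
  rw [← (K.basic hx.1).2.1, ← Finset.sum_subset (Finset.subset_univ {u, v, w})
    fun a _ ha => hx.2 a ha, Finset.sum_insert (by simp [h1, h2]), Finset.sum_pair h3, add_assoc]

omit [T2Space M] in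
theorem a9_ext (K : Tri A) {u v w : K.V} {x : M} (hx : x ∈ K.face {u, v, w}) {y : K.V → ℝ}
    (h : ∀ a, a ∉ ({u, v, w} : Finset K.V) → y a = 0) (h1 : y u = K.lam x u)
    (h2 : y v = K.lam x v) (h3 : y w = K.lam x w) : y = K.lam x := by
  funext a
  by_cases ha : a ∈ ({u, v, w} : Finset K.V)
  · simp only [Finset.mem_insert, Finset.mem_singleton] at ha
    rcases ha with rfl | rfl | rfl <;> assumption
  · rw [h a ha, hx.2 a ha]

/-- An affine parametrisation of a triangle by the standard triangle of the plane. -/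
theorem Tri.face_param (K : Tri A) (hA : IsCompact A) {u v w : K.V} (ht : {u, v, w} ∈ K.T) :
    ∃ Ψ : ℂ → M, ContinuousOn Ψ {z | 0 ≤ z.re ∧ 0 ≤ z.im ∧ z.re + z.im ≤ 1} ∧
      InjOn Ψ {z | 0 ≤ z.re ∧ 0 ≤ z.im ∧ z.re + z.im ≤ 1} ∧
      Ψ '' {z | 0 ≤ z.re ∧ 0 ≤ z.im ∧ z.re + z.im ≤ 1} = K.face {u, v, w} ∧
      ∀ z : ℂ, 0 ≤ z.re → 0 ≤ z.im → z.re + z.im ≤ 1 →
        K.lam (Ψ z) v = z.re ∧ K.lam (Ψ z) w = z.im ∧ K.lam (Ψ z) u = 1 - z.re - z.im := by
  obtain ⟨h1, h2, h3⟩ := a9_ne (K.card _ ht)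
  set y : ℂ → K.V → ℝ := fun z =>
    Pi.single v z.re + Pi.single w z.im + Pi.single u (1 - z.re - z.im) with hy
  have yv : ∀ z, y z v = z.re := fun z => by simp [hy, h1.symm, h3]
  have yw : ∀ z, y z w = z.im := fun z => by simp [hy, h2.symm, h3.symm]
  have yu : ∀ z, y z u = 1 - z.re - z.im := fun z => by simp [hy, h1, h2]
  have y0 : ∀ z a, a ∉ ({u, v, w} : Finset K.V) → y z a = 0 := fun z a ha => by
    simp only [Finset.mem_insert, Finset.mem_singleton, not_or] at ha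
    simp [hy, ha]
  obtain ⟨Ψ, hc, hΨ⟩ := a9_param K hA u (S := {z | 0 ≤ z.re ∧ 0 ≤ z.im ∧ z.re + z.im ≤ 1})
    (y := y) (((a9_cs v (by fun_prop)).add (a9_cs w (by fun_prop))).add (a9_cs u (by fun_prop)))
    (fun z hz a => add_nonneg (add_nonneg (a9_sn v a hz.1) (a9_sn w a hz.2.1))
      (a9_sn u a (show 0 ≤ 1 - z.re - z.im by linarith [hz.2.2])))
    (fun z _ => by simp only [hy, Pi.add_apply, Finset.sum_add_distrib, Finset.sum_pi_single', Finset.mem_univ, ↓ reduceIte, add_add_sub_cancel, add_sub_cancel]) fun z _ => ⟨_, ht, y0 z⟩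
  refine ⟨Ψ, hc, fun z hz z' hz' e => ?_, Subset.antisymm ?_ fun x hx => ?_, fun z a b c => ?_⟩
  · have e' : y z = y z' := by rw [← (hΨ z hz).2, e, (hΨ z' hz').2]
    exact Complex.ext (by rw [← yv, e', yv]) (by rw [← yw, e', yw])
  · rintro _ ⟨z, hz, rfl⟩
    exact ⟨(hΨ z hz).1, fun a ha => by rw [(hΨ z hz).2, y0 z a ha]⟩
  · have s := a9_sum K h1 h2 h3 hx
    have n := (K.basic hx.1).1
    have hz : (⟨K.lam x v, K.lam x w⟩ : ℂ) ∈ {z : ℂ | 0 ≤ z.re ∧ 0 ≤ z.im ∧ z.re + z.im ≤ 1} :=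
      ⟨n v, n w, by dsimp only; linarith [n u]⟩
    exact ⟨_, hz, K.inj (hΨ _ hz).1 hx.1 ((hΨ _ hz).2.trans (a9_ext K hx (y0 _)
      (by rw [yu]; dsimp only; linarith) (yv _) (yw _)))⟩
  · rw [(hΨ z ⟨a, b, c⟩).2]
    exact ⟨yv z, yw z, yu z⟩

/-- Two triangles with a common edge, parametrised by a rhombus. -/
theorem Tri.pair_param (K : Tri A) (hA : IsCompact A) {u v w w' : K.V} (ht : {u, v, w} ∈ K.T)
    (ht' : {u, v, w'} ∈ K.T) (huv : u ≠ v) (hw : w ≠ u ∧ w ≠ v) (hw' : w' ≠ u ∧ w' ≠ v)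
    (hne : w ≠ w') :
    ∃ Ψ : ℂ → M, ContinuousOn Ψ {z | |z.re| + |z.im| ≤ 1} ∧ InjOn Ψ {z | |z.re| + |z.im| ≤ 1} ∧
      Ψ '' {z | |z.re| + |z.im| ≤ 1} = K.face {u, v, w} ∪ K.face {u, v, w'} ∧
      ∀ z : ℂ, |z.re| + |z.im| ≤ 1 → K.lam (Ψ z) w = max z.im 0 ∧ K.lam (Ψ z) w' = max (-z.im) 0 ∧
        K.lam (Ψ z) v = (1 - |z.im| + z.re) / 2 ∧ K.lam (Ψ z) u = (1 - |z.im| - z.re) / 2 := by
  set y : ℂ → K.V → ℝ := fun z => Pi.single w (max z.im 0) + Pi.single w' (max (-z.im) 0) +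
    Pi.single v ((1 - |z.im| + z.re) / 2) + Pi.single u ((1 - |z.im| - z.re) / 2) with hy
  have yw : ∀ z, y z w = max z.im 0 := fun z => by simp only [hy, Pi.add_apply, Pi.single_eq_same, ne_eq, hne, not_false_eq_true, Pi.single_eq_of_ne, add_zero, hw.2, hw.1]
  have yw' : ∀ z, y z w' = max (-z.im) 0 := fun z => by simp only [hy, Pi.add_apply, ne_eq, hne.symm, not_false_eq_true, Pi.single_eq_of_ne, Pi.single_eq_same, zero_add, hw'.2, add_zero, hw'.1]
  have yv : ∀ z, y z v = (1 - |z.im| + z.re) / 2 := fun z => by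
    simp only [hy, Pi.add_apply, ne_eq, hw.2.symm, not_false_eq_true, Pi.single_eq_of_ne, hw'.2.symm, add_zero, Pi.single_eq_same, zero_add, huv.symm]
  have yu : ∀ z, y z u = (1 - |z.im| - z.re) / 2 := fun z => by
    simp only [hy, Pi.add_apply, ne_eq, hw.1.symm, not_false_eq_true, Pi.single_eq_of_ne, hw'.1.symm, add_zero, huv, Pi.single_eq_same, zero_add]
  have y0 : ∀ z : ℂ, 0 ≤ z.im → ∀ a, a ∉ ({u, v, w} : Finset K.V) → y z a = 0 := fun z h a ha => by
    simp only [Finset.mem_insert, Finset.mem_singleton, not_or] at ha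
    simp only [hy, Pi.add_apply, h, sup_of_le_left, Left.neg_nonpos_iff, sup_of_le_right, Pi.single_zero, add_zero, ne_eq, ha, not_false_eq_true, Pi.single_eq_of_ne]
  have y1 : ∀ z : ℂ, z.im ≤ 0 → ∀ a, a ∉ ({u, v, w'} : Finset K.V) → y z a = 0 := fun z h a ha => by
    simp only [Finset.mem_insert, Finset.mem_singleton, not_or] at ha
    simp only [hy, Pi.add_apply, h, sup_of_le_right, Pi.single_zero, Left.nonneg_neg_iff, sup_of_le_left, zero_add, ne_eq, ha, not_false_eq_true, Pi.single_eq_of_ne, add_zero]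
  obtain ⟨Ψ, hc, hΨ⟩ := a9_param K hA u (S := {z | |z.re| + |z.im| ≤ 1}) (y := y)
    ((((a9_cs w (by fun_prop)).add (a9_cs w' (by fun_prop))).add (a9_cs v (by fun_prop))).add
      (a9_cs u (by fun_prop)))
    (fun z (hz : |z.re| + |z.im| ≤ 1) a => add_nonneg (add_nonneg (add_nonneg
      (a9_sn w a (le_max_right z.im 0)) (a9_sn w' a (le_max_right (-z.im) 0)))
      (a9_sn v a (show 0 ≤ (1 - |z.im| + z.re) / 2 by linarith only [neg_abs_le z.re, hz])))
      (a9_sn u a (show 0 ≤ (1 - |z.im| - z.re) / 2 by linarith only [le_abs_self z.re, hz])))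
    (fun z _ => by
      simp only [hy, Pi.add_apply, Finset.sum_add_distrib, Finset.sum_pi_single', Finset.mem_univ,
        if_true, max_zero_add_max_neg_zero_eq_abs_self]
      ring)
    fun z _ => (le_total 0 z.im).elim (fun h => ⟨_, ht, y0 z h⟩) fun h => ⟨_, ht', y1 z h⟩
  refine ⟨Ψ, hc, fun z hz z' hz' e => ?_, Subset.antisymm ?_ ?_, fun z hz => ?_⟩
  · have e' : y z = y z' := by rw [← (hΨ z hz).2, e, (hΨ z' hz').2]
    have e1 : z.im = z'.im := by
      rw [← max_zero_sub_max_neg_zero_eq_self z.im, ← yw, ← yw', e', yw, yw',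
        max_zero_sub_max_neg_zero_eq_self]
    have e2 := congrFun e' v
    rw [yv, yv, e1] at e2
    exact Complex.ext (by linarith only [e2]) e1
  · rintro _ ⟨z, hz, rfl⟩
    exact (le_total 0 z.im).imp
      (fun h => ⟨(hΨ z hz).1, fun a ha => by rw [(hΨ z hz).2, y0 z h a ha]⟩)
      fun h => ⟨(hΨ z hz).1, fun a ha => by rw [(hΨ z hz).2, y1 z h a ha]⟩
  · rintro x (hx | hx)
    · have s := a9_sum K huv hw.1.symm hw.2.symm hx
      have n := (K.basic hx.1).1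
      have hz : (⟨K.lam x v - K.lam x u, K.lam x w⟩ : ℂ) ∈ {z : ℂ | |z.re| + |z.im| ≤ 1} := by
        have : |K.lam x v - K.lam x u| ≤ K.lam x u + K.lam x v :=
          abs_le.2 ⟨by linarith [n v], by linarith [n u]⟩
        change |K.lam x v - K.lam x u| + |K.lam x w| ≤ 1
        rw [abs_of_nonneg (n w)]
        linarith
      exact ⟨_, hz, K.inj (hΨ _ hz).1 hx.1 ((hΨ _ hz).2.trans (a9_ext K hx (y0 _ (n w))
        (by rw [yu]; dsimp only; rw [abs_of_nonneg (n w)]; linarith only [s])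
        (by rw [yv]; dsimp only; rw [abs_of_nonneg (n w)]; linarith only [s])
        ((yw _).trans (max_eq_left (n w)))))⟩
    · have s := a9_sum K huv hw'.1.symm hw'.2.symm hx
      have n := (K.basic hx.1).1
      have hz : (⟨K.lam x v - K.lam x u, -K.lam x w'⟩ : ℂ) ∈ {z : ℂ | |z.re| + |z.im| ≤ 1} := by
        have : |K.lam x v - K.lam x u| ≤ K.lam x u + K.lam x v :=
          abs_le.2 ⟨by linarith [n v], by linarith [n u]⟩
        change |K.lam x v - K.lam x u| + |-K.lam x w'| ≤ 1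
        rw [abs_neg, abs_of_nonneg (n w')]
        linarith
      exact ⟨_, hz, K.inj (hΨ _ hz).1 hx.1 ((hΨ _ hz).2.trans (a9_ext K hx
        (y1 _ (neg_nonpos.2 (n w')))
        (by rw [yu]; dsimp only; rw [abs_neg, abs_of_nonneg (n w')]; linarith only [s])
        (by rw [yv]; dsimp only; rw [abs_neg, abs_of_nonneg (n w')]; linarith only [s])
        ((yw' _).trans (by dsimp only; rw [neg_neg, max_eq_left (n w')]))))⟩
  · rw [(hΨ z hz).2]
    exact ⟨yw z, yw' z, yv z, yu z⟩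

/-- Near `x` only the triangles that contain `x` are seen. -/
theorem Tri.near (K : Tri A) {x : M} (hx : x ∈ A) :
    ∀ᶠ y in 𝓝[A] x, ∃ t ∈ K.T, x ∈ K.face t ∧ y ∈ K.face t := by
  have h : ∀ t ∈ K.T, ∀ᶠ y in 𝓝[A] x, y ∈ K.face t → x ∈ K.face t := fun t _ => by
    by_cases h : x ∈ K.face t
    · exact Filter.Eventually.of_forall fun _ _ => h
    · obtain ⟨v, hv⟩ := not_forall.1 fun e => h ⟨hx, e⟩
      obtain ⟨h1, h2⟩ := Classical.not_imp.1 hv
      filter_upwards [(continuousOn_pi.1 K.cont v x hx).eventually_ne h2] with y h3 h4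
      exact absurd (h4.2 v h1) h3
  filter_upwards [(Filter.eventually_all_finset K.T).2 h, self_mem_nhdsWithin] with y h1 h2
  obtain ⟨t, ht, h3⟩ := (K.basic h2).2.2
  exact ⟨t, ht, h1 t ht h3, h3⟩

theorem Tri.open_face (hM : Atl M B) (K : Tri A) (hA : IsCompact A) {t : Finset K.V}
    (ht : t ∈ K.T) {x : M} (hx : x ∈ K.face t) (hp : ∀ v ∈ t, 0 < K.lam x v) :
    x ∉ B ∧ x ∈ interior (K.face t) := by
  obtain ⟨u, v, w, -, -, -, rfl⟩ := Finset.card_eq_three.1 (K.card t ht)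
  obtain ⟨Ψ, hc, hi, he, hl⟩ := K.face_param hA ht
  have hs : {z : ℂ | 0 < z.re ∧ 0 < z.im ∧ z.re + z.im < 1} ⊆
      {z | 0 ≤ z.re ∧ 0 ≤ z.im ∧ z.re + z.im ≤ 1} := fun z h => ⟨h.1.le, h.2.1.le, h.2.2.le⟩
  obtain ⟨h1, h2⟩ := hM.open_emb ((isOpen_lt continuous_const Complex.continuous_re).inter
    ((isOpen_lt continuous_const Complex.continuous_im).inter
      (isOpen_lt (Complex.continuous_re.add Complex.continuous_im) continuous_const)))
    (hc.mono hs) (hi.mono hs)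
  rw [← he] at hx ⊢
  obtain ⟨z, hz, rfl⟩ := hx
  obtain ⟨a, b, c⟩ := hl z hz.1 hz.2.1 hz.2.2
  have h3 := mem_image_of_mem Ψ (show z ∈ {z : ℂ | 0 < z.re ∧ 0 < z.im ∧ z.re + z.im < 1} from
    ⟨a ▸ hp v (by simp), b ▸ hp w (by simp), by linarith [hp u (by simp)]⟩)
  exact ⟨disjoint_left.1 h2 h3, interior_maximal (image_mono hs) h1 h3⟩

theorem a9_pair (hM : Atl M B) (K : Tri A) (hA : IsCompact A) {u v w w' : K.V}
    (ht : {u, v, w} ∈ K.T) (ht' : {u, v, w'} ∈ K.T) (huv : u ≠ v) (hw : w ≠ u ∧ w ≠ v)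
    (hw' : w' ≠ u ∧ w' ≠ v) (hne : w ≠ w') {x : M} (hx : x ∈ K.face {u, v}) (hu : 0 < K.lam x u)
    (hv : 0 < K.lam x v) : x ∉ B ∧ x ∈ interior (K.face {u, v, w} ∪ K.face {u, v, w'}) := by
  obtain ⟨Ψ, hc, hi, he, hl⟩ := K.pair_param hA ht ht' huv hw hw' hne
  have hs : {z : ℂ | |z.re| + |z.im| < 1} ⊆ {z | |z.re| + |z.im| ≤ 1} :=
    fun z (h : |z.re| + |z.im| < 1) => h.le
  obtain ⟨h1, h2⟩ := hM.open_emb (isOpen_lt (by fun_prop) continuous_const) (hc.mono hs)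
    (hi.mono hs)
  have hx' : x ∈ K.face {u, v, w} ∪ K.face {u, v, w'} :=
    Or.inl ⟨hx.1, fun a ha => hx.2 a fun e => ha (by
      simp only [Finset.mem_insert, Finset.mem_singleton] at e ⊢; tauto)⟩
  rw [← he] at hx' ⊢
  obtain ⟨z, hz, rfl⟩ := hx'
  obtain ⟨-, -, c, d⟩ := hl z hz
  have h3 := mem_image_of_mem Ψ (show z ∈ {z : ℂ | |z.re| + |z.im| < 1} from
    lt_sub_iff_add_lt.1 (show |z.re| < 1 - |z.im| from abs_lt.2 ⟨by linarith only [hv, c], by linarith only [hu, d]⟩))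
  exact ⟨disjoint_left.1 h2 h3, interior_maximal (image_mono hs) h1 h3⟩

theorem a9_acc (K : Tri A) (hA : IsCompact A) {u v w : K.V} (ht : {u, v, w} ∈ K.T) {x : M}
    (hx : x ∈ K.face {u, v}) {N : Set M} (hN : N ∈ 𝓝 x) : ∃ y ∈ N, K.lam y w ≠ 0 := by
  obtain ⟨-, h2, h3⟩ := a9_ne (K.card _ ht)
  obtain ⟨Ψ, hc, -, he, hl⟩ := K.face_param hA ht
  have hx' : x ∈ K.face {u, v, w} := ⟨hx.1, fun a ha => hx.2 a fun e => ha (by
    simp only [Finset.mem_insert, Finset.mem_singleton] at e ⊢; tauto)⟩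
  rw [← he] at hx'
  obtain ⟨z, hz, rfl⟩ := hx'
  have hm : ∀ s ∈ Icc (0 : ℝ) 1, (⟨(1 - s) * z.re, s⟩ : ℂ) ∈
      {z : ℂ | 0 ≤ z.re ∧ 0 ≤ z.im ∧ z.re + z.im ≤ 1} := fun s hs =>
    ⟨mul_nonneg (sub_nonneg.2 hs.2) hz.1, hs.1, by
      have := mul_le_mul_of_nonneg_left (show z.re ≤ 1 by linarith [hz.2.1, hz.2.2])
        (sub_nonneg.2 hs.2)
      dsimp only
      linarith⟩
  have h0 : z.im = 0 := (hl z hz.1 hz.2.1 hz.2.2).2.1.symm.trans
    (hx.2 w (by simp [h2.symm, h3.symm]))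
  have h4 : Continuous fun s : ℝ => (⟨(1 - s) * z.re, s⟩ : ℂ) := by
    simp only [Complex.mk_eq_add_mul_I]
    fun_prop
  have h5 := (hc.comp h4.continuousOn hm 0 (left_mem_Icc.2 zero_le_one)).mono Ioc_subset_Icc_self
  have h6 : (Ψ ∘ fun s : ℝ => (⟨(1 - s) * z.re, s⟩ : ℂ)) 0 = Ψ z :=
    congrArg Ψ (Complex.ext (by simp) h0.symm)
  have : (𝓝[Ioc (0 : ℝ) 1] 0).NeBot := left_nhdsWithin_Ioc_neBot zero_lt_one
  obtain ⟨s, h7, h8⟩ := ((h5.tendsto.eventually (h6 ▸ hN)).and self_mem_nhdsWithin).exists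
  have h9 := hm s (Ioc_subset_Icc_self h8)
  exact ⟨_, h7, ((hl _ h9.1 h9.2.1 h9.2.2).2.1.trans_gt h8.1).ne'⟩

/-- Plan: two triangles give an open rhombus (`Atl.open_emb`), and points of a third triangle near
`x` are not in it. One triangle: it is a neighbourhood of `x`, use `Atl.open_co`. -/
theorem Tri.open_edge (hM : Atl M B) (K : Tri A) (hA : IsCompact A) {u v : K.V} (huv : u ≠ v)
    {x : M} (hx : x ∈ K.face {u, v}) (hu : 0 < K.lam x u) (hv : 0 < K.lam x v) :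
    deg K.T u v ≤ 2 ∧ (deg K.T u v = 2 → x ∉ B ∧ x ∈ interior A) ∧
      (deg K.T u v = 1 → x ∈ interior A → x ∈ B) := by
  have h3 : ∀ t ∈ K.T.filter fun t => u ∈ t ∧ v ∈ t, ∃ w, (w ≠ u ∧ w ≠ v) ∧ t = {u, v, w} :=
    fun t ht => a9_third (K.card t (Finset.mem_filter.1 ht).1) huv (Finset.mem_filter.1 ht).2.1
      (Finset.mem_filter.1 ht).2.2
  refine ⟨not_lt.1 fun h => ?_, fun h => ?_, fun h hi => by_contra fun hB => ?_⟩
  · obtain ⟨a, b, c, ha, hb, hc, ab, ac, bc⟩ := Finset.two_lt_card_iff.1 h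
    obtain ⟨w, hw, rfl⟩ := h3 a ha
    obtain ⟨w', hw', rfl⟩ := h3 b hb
    obtain ⟨w'', hw'', rfl⟩ := h3 c hc
    obtain ⟨y, h1, h2⟩ := a9_acc K hA (Finset.mem_filter.1 hc).1 hx (mem_interior_iff_mem_nhds.1
      (a9_pair hM K hA (Finset.mem_filter.1 ha).1 (Finset.mem_filter.1 hb).1 huv hw hw'
        (fun e => ab (by rw [e])) hx hu hv).2)
    have n1 : w'' ≠ w := fun e => ac (by rw [e])
    have n2 : w'' ≠ w' := fun e => bc (by rw [e])
    exact h1.elim (fun h1 => h2 (h1.2 _ (by simp [hw''.1, hw''.2, n1])))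
      fun h1 => h2 (h1.2 _ (by simp [hw''.1, hw''.2, n2]))
  · obtain ⟨a, ha, b, hb, ab⟩ := Finset.one_lt_card.1 (show 1 < deg K.T u v by omega)
    obtain ⟨w, hw, rfl⟩ := h3 a ha
    obtain ⟨w', hw', rfl⟩ := h3 b hb
    have h1 := a9_pair hM K hA (Finset.mem_filter.1 ha).1 (Finset.mem_filter.1 hb).1 huv hw hw'
      (fun e => ab (by rw [e])) hx hu hv
    exact ⟨h1.1, interior_mono (union_subset (sep_subset _ _) (sep_subset _ _)) h1.2⟩
  · obtain ⟨a, ha⟩ := Finset.card_eq_one.1 h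
    obtain ⟨w, hw, rfl⟩ := h3 a (ha ▸ Finset.mem_singleton_self a)
    have h1 := K.near hx.1
    rw [nhdsWithin_eq_nhds.2 (mem_interior_iff_mem_nhds.1 hi)] at h1
    have h2 : x ∈ interior (K.face {u, v, w}) := mem_interior_iff_mem_nhds.2 (h1.mono (by
      rintro y ⟨t, ht, b1, b2⟩
      have b3 : t ∈ K.T.filter fun t => u ∈ t ∧ v ∈ t := Finset.mem_filter.2 ⟨ht,
        by_contra fun e => hu.ne' (b1.2 u e), by_contra fun e => hv.ne' (b1.2 v e)⟩
      rw [ha, Finset.mem_singleton] at b3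
      exact b3 ▸ b2))
    have hs : interior (K.face {u, v, w}) \ B ⊆ K.face {u, v, w} :=
      sdiff_subset.trans interior_subset
    have hc := fun a => (continuousOn_pi.1 K.cont a).mono (hs.trans (sep_subset _ _))
    have h4 := hM.open_co (isOpen_interior.sdiff hM.closed) disjoint_sdiff_left
      (g := fun y => (K.lam y v : ℂ) + K.lam y w * Complex.I)
      ((Complex.continuous_ofReal.comp_continuousOn (hc v)).add
        ((Complex.continuous_ofReal.comp_continuousOn (hc w)).mul continuousOn_const))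
      fun y hy y' hy' e => by
        have e1 : K.lam y v = K.lam y' v := by simpa using congrArg Complex.re e
        have e2 : K.lam y w = K.lam y' w := by simpa using congrArg Complex.im e
        have s1 := a9_sum K huv hw.1.symm hw.2.symm (hs hy)
        have s2 := a9_sum K huv hw.1.symm hw.2.symm (hs hy')
        exact K.inj (hs hy).1 (hs hy').1 (a9_ext K (hs hy') (hs hy).2 (by linarith only [e1, e2, s1, s2]) e1 e2)
    obtain ⟨_, hr, _, ⟨y, hy, rfl⟩, rfl⟩ := Filter.Eventually.exists_lt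
      ((Complex.isOpenMap_im _ h4).mem_nhds (mem_image_of_mem _ (mem_image_of_mem _ ⟨h2, hB⟩)))
    have h5 : K.lam y w < K.lam x w := by simpa using hr
    rw [hx.2 w (by simp [hw.1, hw.2])] at h5
    exact h5.not_ge ((K.basic (hs hy).1).1 w)

end Pool.Agent.MP_17e62b_gt.T55

end

section

/-!
A triangulation of the whole surface is a combinatorial surface.
-/

namespace Pool.Agent.MP_17e62b_gt.T55

open Set Metric Topology
open scoped InnerProductSpace Manifold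

variable {M : Type} [TopologicalSpace M] [T2Space M] [CompactSpace M] {B : Set M}

omit [T2Space M] [CompactSpace M] in
theorem a10_cont (K : Tri (univ : Set M)) (v : K.V) : Continuous fun x => K.lam x v :=
  (continuous_apply v).comp (continuousOn_univ.1 K.cont)

omit [T2Space M] [CompactSpace M] in
theorem a10_closed (K : Tri (univ : Set M)) (s : Finset K.V) : IsClosed (K.face s) := by
  have h : K.face s = ⋂ v ∈ {v | v ∉ s}, {x | K.lam x v = 0} := by
    ext x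
    simp only [Tri.face, mem_univ, true_and, mem_ofPred_eq, mem_iInter]
  rw [h]
  exact isClosed_biInter fun v _ => isClosed_eq (a10_cont K v) continuous_const

omit [T2Space M] [CompactSpace M] in
theorem a10_closed_un (K : Tri (univ : Set M)) (p : Finset K.V → Prop) :
    IsClosed (⋃ t ∈ {t | p t}, K.face t) :=
  (toFinite _).isClosed_biUnion fun t _ => a10_closed K t

omit [T2Space M] [CompactSpace M] in
theorem a10_mem {K : Tri (univ : Set M)} {s : Finset K.V} {x : M} (hx : x ∈ K.face s) {v : K.V}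
    (hv : K.lam x v ≠ 0) : v ∈ s := by
  by_contra h
  exact hv (hx.2 v h)

omit [T2Space M] [CompactSpace M] in
theorem a10_pt {K : Tri (univ : Set M)} {s : Finset K.V} {v : K.V} : K.pt v ∈ K.face s ↔ v ∈ s := by
  refine ⟨fun h => a10_mem h (by simp [K.lam_pt]), fun h => ⟨trivial, fun w hw => ?_⟩⟩
  rw [K.lam_pt, Pi.single_eq_of_ne]
  rintro rfl
  exact hw h

omit [T2Space M] [CompactSpace M] in
theorem a10_ne (K : Tri (univ : Set M)) (x : M) : ∃ v, K.lam x v ≠ 0 := by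
  by_contra h
  push Not at h
  have := (K.basic (mem_univ x)).2.1
  simp only [h, Finset.sum_const_zero, zero_ne_one] at this

omit [T2Space M] [CompactSpace M] in
theorem a10_other (K : Tri (univ : Set M)) {x : M} {v : K.V} (hx : x ≠ K.pt v) :
    ∃ u, u ≠ v ∧ K.lam x u ≠ 0 := by
  by_contra h
  push Not at h
  refine hx (K.inj trivial trivial ?_)
  have h1 := (K.basic (mem_univ x)).2.1
  rw [Finset.sum_eq_single v (fun u _ hu => h u hu) (by simp only [Finset.mem_univ, not_true_eq_false, IsEmpty.forall_iff])] at h1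
  rw [K.lam_pt]
  funext u
  by_cases hu : u = v
  · rw [hu, h1, Pi.single_eq_same]
  · rw [h u hu, Pi.single_eq_of_ne hu]

theorem a10_acc (K : Tri (univ : Set M)) {t : Finset K.V} (ht : t ∈ K.T) {u v : K.V} (huv : u ≠ v)
    (hu : u ∈ t) (hv : v ∈ t) :
    K.pt v ∈ closure {x | x ∈ K.face {u, v} ∧ 0 < K.lam x u ∧ 0 < K.lam x v} := by
  set S := {x | x ∈ K.face {u, v} ∧ 0 < K.lam x u ∧ 0 < K.lam x v}
  have hc : Continuous K.lam := continuousOn_univ.1 K.cont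
  have h1 : openSegment ℝ (Pi.single v 1 : K.V → ℝ) (Pi.single u 1) ⊆ K.lam '' closure S := by
    rintro y ⟨a, b, ha, hb, hab, rfl⟩
    have h0 : ∀ w, w ∉ ({u, v} : Finset K.V) →
        (a • (Pi.single v 1 : K.V → ℝ) + b • (Pi.single u 1 : K.V → ℝ)) w = 0 := fun w hw => by
      simp only [Finset.mem_insert, Finset.mem_singleton, not_or] at hw
      simp [Pi.single_eq_of_ne hw.1, Pi.single_eq_of_ne hw.2]
    have h2 : a • (Pi.single v 1 : K.V → ℝ) + b • (Pi.single u 1 : K.V → ℝ) ∈ K.lam '' univ := by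
      rw [K.img]
      refine ⟨convex_stdSimplex ℝ K.V (single_mem_stdSimplex ℝ v) (single_mem_stdSimplex ℝ u)
        ha.le hb.le hab, t, ht, fun w hw => h0 w fun h => hw ?_⟩
      simp only [Finset.mem_insert, Finset.mem_singleton] at h
      rcases h with rfl | rfl <;> assumption
    obtain ⟨x, -, hx⟩ := h2
    refine ⟨x, subset_closure ⟨⟨trivial, fun w hw => by rw [hx, h0 w hw]⟩, ?_, ?_⟩, hx⟩
    · simp [hx, Pi.single_eq_of_ne huv, hb]
    · simp [hx, Pi.single_eq_of_ne huv.symm, ha]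
  obtain ⟨x, hx, he⟩ := closure_minimal h1 (isClosed_closure.isCompact.image hc).isClosed
    (segment_subset_closure_openSegment (left_mem_segment ℝ _ _))
  rwa [K.inj trivial trivial (he.trans (K.lam_pt v).symm)] at hx

theorem a10_edge (hM : Atl M B) (K : Tri (univ : Set M)) {x : M} (hx : x ∈ B) {u v : K.V}
    (huv : u ≠ v) (hu : K.lam x u ≠ 0) (hv : K.lam x v ≠ 0) : deg K.T u v = 1 := by
  obtain ⟨h0, -, t, ht, hxt⟩ := K.basic (mem_univ x)
  have hut := a10_mem hxt hu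
  have hvt := a10_mem hxt hv
  obtain ⟨w, hw, hw0⟩ : ∃ w ∈ t, K.lam x w = 0 := by
    by_contra h
    push Not at h
    exact (K.open_face hM isCompact_univ ht hxt fun w hw => (h0 w).lt_of_ne' (h w hw)).1 hx
  have hwu : w ≠ u := fun h => hu (h ▸ hw0)
  have hwv : w ≠ v := fun h => hv (h ▸ hw0)
  have he : ({u, v, w} : Finset K.V) = t := by
    refine Finset.eq_of_subset_of_card_le (fun z hz => ?_) ?_
    · simp only [Finset.mem_insert, Finset.mem_singleton] at hz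
      rcases hz with rfl | rfl | rfl <;> assumption
    · rw [K.card t ht, Finset.card_eq_three.2 ⟨u, v, w, huv, hwu.symm, hwv.symm, rfl⟩]
  have hf : x ∈ K.face {u, v} := ⟨trivial, fun z hz => by
    by_contra h
    have h1 := a10_mem hxt h
    rw [← he] at h1
    simp only [Finset.mem_insert, Finset.mem_singleton] at h1 hz
    rcases h1 with h1 | h1 | h1
    · exact hz (Or.inl h1)
    · exact hz (Or.inr h1)
    · exact h (h1 ▸ hw0)⟩
  obtain ⟨h1, h2, -⟩ := K.open_edge hM isCompact_univ huv hf ((h0 u).lt_of_ne' hu)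
    ((h0 v).lt_of_ne' hv)
  have h3 : 0 < deg K.T u v := Finset.card_pos.2 ⟨t, Finset.mem_filter.2 ⟨ht, hut, hvt⟩⟩
  have h4 : deg K.T u v ≠ 2 := fun h => (h2 h).1 hx
  omega

/-- Plan: first clause by the carrier of `x` (`Tri.open_face`, `Tri.open_edge`; at a vertex use
`Atl.acc` and `Tri.near`). Second clause: `B` is closed and contains the open edge. -/
theorem Tri.bd_iff (hM : Atl M B) (K : Tri (univ : Set M)) :
    (∀ x ∈ B, ∀ v, K.lam x v ≠ 0 → v ∈ Bd K.T) ∧ ∀ v ∈ Bd K.T, K.pt v ∈ B := by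
  constructor
  · intro x hx v hv
    obtain ⟨y, hy, hne, hyv⟩ : ∃ y ∈ B, y ≠ K.pt v ∧ K.lam y v ≠ 0 := by
      by_cases h : x = K.pt v
      · obtain ⟨y, hy1, hy2, hy3⟩ := mem_closure_iff.1 (hM.acc hx) {y | K.lam y v ≠ 0}
          (isOpen_ne_fun (a10_cont K v) continuous_const) hv
        exact ⟨y, hy2, h ▸ hy3, hy1⟩
      · exact ⟨x, hx, h, hv⟩
    obtain ⟨u, huv, hu⟩ := a10_other K hne
    exact ⟨u, huv, a10_edge hM K hy huv hu hyv⟩
  · rintro v ⟨u, huv, hd⟩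
    obtain ⟨t, ht⟩ := Finset.card_pos.1 (show 0 < deg K.T u v by omega)
    obtain ⟨ht, hu, hv⟩ := Finset.mem_filter.1 ht
    refine closure_minimal (fun x hx => ?_) hM.closed (a10_acc K ht huv hu hv)
    exact (K.open_edge hM isCompact_univ huv hx.1 hx.2.1 hx.2.2).2.2 hd (by simp)

/-- Plan: `link` from `Atl.punct` and `Tri.near`: the triangles at `v` in `Q` and those not in `Q`
give two closed sets that cover a punctured neighbourhood and are disjoint there. `conn`: the faces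
of a component and the other faces are disjoint closed sets. -/
theorem Tri.isSurf [PreconnectedSpace M] (hM : Atl M B) (hB : B.Nonempty)
    (K : Tri (univ : Set M)) : IsSurf K.T := by
  refine ⟨K.card, K.used, fun u v huv => ?_, fun v Q hQ t ht t' ht' hv hv' htQ => ?_,
    fun x _ y _ => ⟨trivial, ?_⟩, ?_⟩
  · rcases Nat.eq_zero_or_pos (deg K.T u v) with h | h
    · omega
    obtain ⟨t, ht⟩ := Finset.card_pos.1 h
    obtain ⟨ht, hu, hv⟩ := Finset.mem_filter.1 ht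
    obtain ⟨x, hx⟩ := closure_nonempty_iff.1 ⟨_, a10_acc K ht huv hu hv⟩
    exact (K.open_edge hM isCompact_univ huv hx.1 hx.2.1 hx.2.2).1
  · by_contra hn
    have hN := K.near (mem_univ (K.pt v))
    rw [nhdsWithin_univ] at hN
    obtain ⟨W, hW, hWN, hp, -⟩ := hM.punct (K.pt v) hN
    have key : ∀ s ∈ K.T, v ∈ s → ∃ y ∈ W \ {K.pt v}, y ∈ K.face s := fun s hs hvs => by
      obtain ⟨u, hu, huv⟩ := Finset.exists_mem_ne (by rw [K.card s hs]; norm_num) v
      obtain ⟨y, hy1, hy2, hy3, -⟩ := mem_closure_iff_nhds.1 (a10_acc K hs huv hu hvs) W hW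
      refine ⟨y, ⟨hy1, fun h => ?_⟩, trivial, fun w hw => hy2.2 w fun h => hw ?_⟩
      · rw [mem_singleton_iff.1 h, K.lam_pt, Pi.single_eq_of_ne huv] at hy3
        exact lt_irrefl _ hy3
      · simp only [Finset.mem_insert, Finset.mem_singleton] at h
        rcases h with rfl | rfl <;> assumption
    obtain ⟨y, hy, h1, h2⟩ := isPreconnected_closed_iff.1 hp _ _
      (a10_closed_un K fun s => s ∈ K.T ∧ v ∈ s ∧ s ∈ Q)
      (a10_closed_un K fun s => s ∈ K.T ∧ v ∈ s ∧ s ∉ Q)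
      (fun y hy => by
        obtain ⟨s, hs, h1, h2⟩ := hWN hy.1
        by_cases h : s ∈ Q
        · exact Or.inl (mem_biUnion (show s ∈ {s | _} from ⟨hs, a10_pt.1 h1, h⟩) h2)
        · exact Or.inr (mem_biUnion (show s ∈ {s | _} from ⟨hs, a10_pt.1 h1, h⟩) h2))
      (by
        obtain ⟨y, h1, h2⟩ := key t ht hv
        exact ⟨y, h1, mem_biUnion (show t ∈ {s | _} from ⟨ht, hv, htQ⟩) h2⟩)
      (by
        obtain ⟨y, h1, h2⟩ := key t' ht' hv'
        exact ⟨y, h1, mem_biUnion (show t' ∈ {s | _} from ⟨ht', hv', hn⟩) h2⟩)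
    obtain ⟨s, ⟨hs, hvs, hsQ⟩, h1⟩ := mem_iUnion₂.1 h1
    obtain ⟨s', ⟨hs', hvs', hsQ'⟩, h2⟩ := mem_iUnion₂.1 h2
    obtain ⟨w, hwv, hw⟩ := a10_other K (show y ≠ K.pt v from hy.2)
    exact hsQ' (hQ s hs s' hs' w hwv hvs (a10_mem h1 hw) hvs' (a10_mem h2 hw) hsQ)
  · by_contra hn
    set R := Relation.ReflTransGen (fun a b => b ∈ (univ : Set K.V) ∧ Adj K.T a b) x
    have key : ∀ s ∈ K.T, ∀ r ∈ s, R r → ∀ w ∈ s, R w := fun s hs r hr h w hw => by
      by_cases e : r = w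
      · exact e ▸ h
      · exact h.tail ⟨trivial, e, s, hs, hr, hw⟩
    obtain ⟨z, -, h1, h2⟩ := isPreconnected_closed_iff.1 (isPreconnected_univ (α := M)) _ _
      (a10_closed_un K fun s => s ∈ K.T ∧ ∃ r ∈ s, R r)
      (a10_closed_un K fun s => s ∈ K.T ∧ ¬ ∃ r ∈ s, R r)
      (fun z _ => by
        obtain ⟨-, -, s, hs, h2⟩ := K.basic (mem_univ z)
        by_cases h : ∃ r ∈ s, R r
        · exact Or.inl (mem_biUnion (show s ∈ {s | _} from ⟨hs, h⟩) h2)
        · exact Or.inr (mem_biUnion (show s ∈ {s | _} from ⟨hs, h⟩) h2))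
      (by
        obtain ⟨s, hs, h⟩ := K.used x
        exact ⟨K.pt x, trivial, mem_biUnion
          (show s ∈ {s | _} from ⟨hs, x, h, Relation.ReflTransGen.refl⟩) (a10_pt.2 h)⟩)
      (by
        obtain ⟨s, hs, h⟩ := K.used y
        exact ⟨K.pt y, trivial, mem_biUnion
          (show s ∈ {s | _} from ⟨hs, fun ⟨r, hr, h'⟩ => hn (key s hs r hr h' y h)⟩) (a10_pt.2 h)⟩)
    obtain ⟨s, ⟨hs, r, hr, hR⟩, h1⟩ := mem_iUnion₂.1 h1
    obtain ⟨s', ⟨-, hs'⟩, h2⟩ := mem_iUnion₂.1 h2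
    obtain ⟨w, hw⟩ := a10_ne K z
    exact hs' ⟨w, a10_mem h2 hw, key s hs r hr hR w (a10_mem h1 hw)⟩
  · obtain ⟨x, hx⟩ := hB
    obtain ⟨v, hv⟩ := a10_ne K x
    exact ⟨v, (K.bd_iff hM).1 x hx v hv⟩

/-- Plan: if `⟪ν, f (pt v)⟫ > c + ω ‖ν‖`, the set of `x` with `lam x u > 0` for some `u ∈ H` and
`⟪ν, f x⟫ > c'` is a crust for `c'` slightly above `c + ω ‖ν‖`: a point of the closure with
`lam x u = 0` for all `u ∈ H` lies in a triangle with a vertex in `H` (`Tri.near`) and has a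
positive coordinate at a vertex outside `H`. Use `atl` and `Tri.bd_iff`. -/
theorem Tri.sad {n : ℕ} (S : Surface n) (hS : S.IsSaddle) (K : Tri (univ : Set S.M)) {ω : ℝ}
    (h0 : 0 ≤ ω) (hω : ∀ t ∈ K.T, ∀ x ∈ K.face t, ∀ y ∈ K.face t, dist (S.f x) (S.f y) ≤ ω) :
    Sad K.T (fun v => S.f (K.pt v)) ω := by
  have := S.t2
  have := S.compact
  have := S.connected
  refine ⟨h0, fun u v ⟨_, t, ht, hu, hv⟩ => hω t ht _ (a10_pt.2 hu) _ (a10_pt.2 hv),
    fun H ν c hH hc v hv => ?_⟩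
  by_contra hn
  obtain ⟨c', h1, h2⟩ := exists_between (not_le.1 hn)
  have hg : Continuous fun x => ⟪ν, S.f x⟫_ℝ := continuous_const.inner S.continuous
  set U : Set S.M := {x | (∃ u ∈ H, K.lam x u ≠ 0) ∧ c' < ⟪ν, S.f x⟫_ℝ} with hU
  have hUo : IsOpen U := by
    have e : U = (⋃ u ∈ H, {x | K.lam x u ≠ 0}) ∩ {x | c' < ⟪ν, S.f x⟫_ℝ} := by
      ext x
      simp only [hU, ne_eq, mem_ofPred_eq, mem_inter_iff, mem_iUnion, exists_prop]
    rw [e]
    exact (isOpen_biUnion fun u _ => isOpen_ne_fun (a10_cont K u) continuous_const).inter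
      (isOpen_lt continuous_const hg)
  have hUn : U.Nonempty := ⟨K.pt v, ⟨v, hv, by simp [K.lam_pt]⟩, h2⟩
  have hle : ∀ x ∈ closure U, c' ≤ ⟪ν, S.f x⟫_ℝ := fun x hx =>
    closure_minimal (fun y hy => hy.2.le) (isClosed_le continuous_const hg) hx
  have key : ∀ x ∈ closure U, ∃ u ∈ H, K.lam x u ≠ 0 := fun x hx => by
    have hN := K.near (mem_univ x)
    rw [nhdsWithin_univ] at hN
    obtain ⟨y, ⟨t, ht, hxt, hyt⟩, ⟨u, hu, hyu⟩, -⟩ := mem_closure_iff_nhds.1 hx _ hN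
    obtain ⟨w, hw⟩ := a10_ne K x
    by_cases hwH : w ∈ H
    · exact ⟨w, hwH, hw⟩
    have h3 := hc u hu w hwH ⟨fun h => hwH (h ▸ hu), t, ht, a10_mem hyt hyu, a10_mem hxt hw⟩
    have h4 := hω t ht x hxt _ (a10_pt.2 (a10_mem hxt hw))
    have h5 := real_inner_le_norm ν (S.f x - S.f (K.pt w))
    rw [inner_sub_right, ← dist_eq_norm] at h5
    have h6 := mul_le_mul_of_nonneg_left h4 (norm_nonneg ν)
    have h7 := hle x hx
    exact absurd h1 (not_lt.2 (by linarith))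
  have hd : Disjoint (closure U) ((𝓡∂ 2).boundary S.M) := disjoint_left.2 fun x hx hb => by
    obtain ⟨u, hu, hxu⟩ := key x hx
    exact disjoint_left.1 hH hu ((K.bd_iff (atl S)).1 x hb u hxu)
  by_cases hν : ν = 0
  · have hcl : IsClosed U := closure_subset_iff_isClosed.1 fun x hx =>
      ⟨key x hx, by simpa [hν] using h2⟩
    obtain ⟨b, hb⟩ := S.boundary_nonempty
    have e := IsClopen.eq_univ ⟨hcl, hUo⟩ hUn
    exact disjoint_left.1 hd (subset_closure (e ▸ mem_univ b)) hb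
  · exact hS ν c' U hν ⟨hUn, hUo, isClosed_closure.isCompact, hd, fun x hx => hx.2,
      fun x hx => le_antisymm (not_lt.1 fun h => hx.2 ⟨key x hx.1, h⟩) (hle x hx.1)⟩

end Pool.Agent.MP_17e62b_gt.T55

end

section

/-!
The cells of the half neighbourhood of a set of vertices.
-/

namespace Pool.Agent.MP_17e62b_gt.T55

open Set Metric Topology
open scoped InnerProductSpace Manifold

variable {M : Type} [TopologicalSpace M] [T2Space M] {A : Set M}

/-- A closed half plane. -/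
def a12_hp (a b c : ℝ) : Set ℂ := {z | 0 ≤ a * z.re + b * z.im + c}

theorem a12_closed (a b c : ℝ) : IsClosed (a12_hp a b c) :=
  isClosed_le continuous_const (by fun_prop)

theorem a12_conv (a b c : ℝ) : Convex ℝ (a12_hp a b c) := fun x hx y hy s t hs ht hst => by
  have h1 := mul_nonneg hs (show 0 ≤ _ from hx)
  have h2 := mul_nonneg ht (show 0 ≤ _ from hy)
  simp only [a12_hp, mem_ofPred_eq, Complex.add_re, Complex.add_im, Complex.smul_re,
    Complex.smul_im, smul_eq_mul]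
  have h3 : c * (s + t) = c := by rw [hst, mul_one]
  linarith

theorem a12_int {a b c : ℝ} {z₀ : ℂ} (h : 0 < a * z₀.re + b * z₀.im + c) :
    interior (a12_hp a b c) = {z | 0 < a * z.re + b * z.im + c} := by
  refine Subset.antisymm (fun z hz => ?_) (interior_maximal
    (fun z hz => (le_of_lt hz : 0 ≤ a * z.re + b * z.im + c))
    (isOpen_lt continuous_const (by fun_prop)))
  have h5 : z ∈ a12_hp a b c := interior_subset hz
  refine lt_of_le_of_ne (show 0 ≤ a * z.re + b * z.im + c from h5) fun h0 => ?_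
  have h1 : Filter.Tendsto (fun s : ℝ => z + s • (z - z₀)) (𝓝 0) (𝓝 z) :=
    Continuous.tendsto' (by fun_prop) _ _ (by simp)
  obtain ⟨s, s1, s2⟩ := (((h1.eventually (mem_interior_iff_mem_nhds.1 hz)).filter_mono
    (nhdsWithin_le_nhds (s := Ioi 0))).and self_mem_nhdsWithin).exists
  have h2 := mul_pos (show 0 < s from s2) h
  simp only [a12_hp, mem_ofPred_eq, Complex.add_re, Complex.add_im, Complex.smul_re,
    Complex.smul_im, smul_eq_mul, Complex.sub_re, Complex.sub_im] at s1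
  have h3 : s * (a * z.re + b * z.im + c) = 0 := by rw [← h0, mul_zero]
  linarith

omit [T2Space M] in
theorem a12_w (K : Tri A) (H : Finset K.V) {u v w : K.V} (huv : u ≠ v) (huw : u ≠ w)
    (hvw : v ≠ w) {x : M} (hx : x ∈ K.face {u, v, w}) : ∑ y ∈ H, K.lam x y =
      (if u ∈ H then 1 else 0) * K.lam x u + (if v ∈ H then 1 else 0) * K.lam x v +
        (if w ∈ H then 1 else 0) * K.lam x w := by
  rw [← Finset.sum_subset (Finset.inter_subset_right (s₁ := {u, v, w})) fun y h1 h2 =>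
      hx.2 y fun h3 => h2 (Finset.mem_inter.2 ⟨h3, h1⟩), ← Finset.sum_ite_mem,
    Finset.sum_insert (by simp [huv, huw]), Finset.sum_pair hvw, add_assoc]
  simp only [ite_mul, one_mul, zero_mul]

theorem a12_third {V : Type} [DecidableEq V] {t : Finset V} (ht : t.card = 3) {u v : V}
    (hu : u ∈ t) (hv : v ∈ t) (huv : u ≠ v) : ∃ w, u ≠ w ∧ v ≠ w ∧ t = {u, v, w} := by
  have h1 : ({u, v} : Finset V) ⊆ t := by simp [Finset.insert_subset_iff, hu, hv]
  obtain ⟨w, h2, h3⟩ := Finset.exists_mem_notMem_of_card_lt_card (s := {u, v}) (t := t)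
    (by rw [ht, Finset.card_pair huv]; decide)
  have h4 : u ≠ w := fun h => h3 (by simp [h])
  have h5 : v ≠ w := fun h => h3 (by simp [h])
  refine ⟨w, h4, h5, (Finset.eq_of_subset_of_card_le
    (by simp [Finset.insert_subset_iff, hu, hv, h2]) ?_).symm⟩
  rw [ht, Finset.card_eq_three.2 ⟨u, v, w, huv, h4, h5, rfl⟩]

omit [T2Space M] in
theorem a12_card (K : Tri A) {s r : Finset K.V} {x : M} (hx : x ∈ K.face s)
    (h : ∀ v ∈ r, K.lam x v ≠ 0) : r.card ≤ s.card :=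
  Finset.card_le_card fun v hv => by_contra fun h1 => h v hv (hx.2 v h1)

theorem a12_inter {V : Type} [DecidableEq V] {s r : Finset V} {n : ℕ} (hs : s.card = n + 1)
    (hr : r.card = n + 1) (h : s ≠ r) : (s ∩ r).card ≤ n := by
  have h2 := Finset.card_lt_card (⟨Finset.inter_subset_left, fun h1 => h
    (Finset.eq_of_subset_of_card_le (h1.trans Finset.inter_subset_right) (by omega))⟩ : s ∩ r ⊂ s)
  omega

omit [T2Space M] in
theorem a12_meet (K : Tri A) {H s : Finset K.V} {x : M} (hx : x ∈ K.face s)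
    (h : x ∈ K.half H) : ∃ u ∈ s, u ∈ H := by
  by_contra h1
  have h2 := h.2
  rw [Finset.sum_eq_zero fun v hv => hx.2 v fun h3 => h1 ⟨v, h3, hv⟩] at h2
  norm_num at h2

/-- The points of the complex. -/
def a12_P (K : Tri A) (H : Finset K.V) : Set M :=
  {x ∈ K.half H | ∃ s, x ∈ K.face s ∧
    (s.card ≤ 1 ∨ (s.card ≤ 2 ∧ ∑ v ∈ H, K.lam x v = 1 / 2))}

/-- The boundary curve of the disc in `t`. -/
def a12_J (K : Tri A) (H t : Finset K.V) : Set M :=
  {x ∈ K.face t ∩ K.half H | ∑ v ∈ H, K.lam x v = 1 / 2 ∨ ∃ v ∈ t, K.lam x v = 0}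

theorem a12_param (K : Tri A) (hA : IsCompact A) {u v w : K.V} (ht : {u, v, w} ∈ K.T) :
    ∃ Ψ : ℂ → M, ∃ Δ : Set ℂ, (∀ z, z ∈ Δ ↔ 0 ≤ z.re ∧ 0 ≤ z.im ∧ z.re + z.im ≤ 1) ∧
      ContinuousOn Ψ Δ ∧ InjOn Ψ Δ ∧ (∀ z ∈ Δ, Ψ z ∈ K.face {u, v, w} ∧ K.lam (Ψ z) v = z.re ∧
        K.lam (Ψ z) w = z.im ∧ K.lam (Ψ z) u = 1 - z.re - z.im) ∧
      ∀ (S : Set M) (L : Set ℂ), S ⊆ K.face {u, v, w} → L ⊆ Δ → (∀ z ∈ Δ, Ψ z ∈ S ↔ z ∈ L) →
        Ψ '' L = S := by
  obtain ⟨Ψ, h1, h2, h3, h4⟩ := K.face_param hA ht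
  refine ⟨Ψ, _, fun _ => Iff.rfl, h1, h2, fun z hz =>
    ⟨h3 ▸ mem_image_of_mem _ hz, h4 z hz.1 hz.2.1 hz.2.2⟩, fun S L hS hL h => ?_⟩
  refine Subset.antisymm ?_ fun x hx => ?_
  · rintro _ ⟨z, hz, rfl⟩
    exact (h z (hL hz)).2 hz
  · obtain ⟨z, hz, rfl⟩ := h3.symm ▸ hS hx
    exact ⟨z, (h z hz).1 hx, rfl⟩

theorem a12_seg {a b z : ℂ} : z ∈ segment ℝ a b ↔ ∃ s : ℝ, 0 ≤ s ∧ s ≤ 1 ∧
    z.re = (1 - s) * a.re + s * b.re ∧ z.im = (1 - s) * a.im + s * b.im := by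
  rw [segment_eq_image]
  constructor
  · rintro ⟨s, hs, rfl⟩
    exact ⟨s, hs.1, hs.2, by simp, by simp⟩
  · rintro ⟨s, h1, h2, h3, h4⟩
    exact ⟨s, ⟨h1, h2⟩, Complex.ext (by simp [h3]) (by simp [h4])⟩

theorem a12_dsc (K : Tri A) (hA : IsCompact A) (H : Finset K.V) {t : Finset K.V} (ht : t ∈ K.T)
    {u : K.V} (hu : u ∈ t) (huH : u ∈ H) : Dsc (K.face t ∩ K.half H) (a12_J K H t) := by
  obtain ⟨v, hv, huv⟩ := Finset.exists_mem_ne (by rw [K.card t ht]; decide : 1 < t.card) u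
  obtain ⟨w, huw, hvw, rfl⟩ := a12_third (K.card t ht) hu hv huv.symm
  obtain ⟨Ψ, Δ, hΔ, h1, h2, h3, h4⟩ := a12_param K hA ht
  have hw := fun x hx => a12_w K H huv.symm huw hvw (x := x) hx
  rw [if_pos huH] at hw
  have hb : (0 : ℝ) ≤ if v ∈ H then 1 else 0 := by positivity
  have hc : (0 : ℝ) ≤ if w ∈ H then 1 else 0 := by positivity
  generalize (if v ∈ H then (1 : ℝ) else 0) = b at hw hb
  generalize (if w ∈ H then (1 : ℝ) else 0) = c at hw hc
  let L := a12_hp 1 0 0 ∩ a12_hp 0 1 0 ∩ a12_hp (-1) (-1) 1 ∩ a12_hp (b - 1) (c - 1) (1 / 2)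
  have l1 : IsClosed L := (((a12_closed ..).inter (a12_closed ..)).inter (a12_closed ..)).inter
    (a12_closed ..)
  have l2 : L ⊆ Δ := fun z ⟨⟨⟨z1, z2⟩, z3⟩, _⟩ => by
    simp only [a12_hp, mem_ofPred_eq] at z1 z2 z3
    exact (hΔ z).2 ⟨by linarith, by linarith, by linarith⟩
  have l3 : interior L = {z | 0 < 1 * z.re + 0 * z.im + 0} ∩ {z | 0 < 0 * z.re + 1 * z.im + 0} ∩
      {z | 0 < -1 * z.re + -1 * z.im + 1} ∩ {z | 0 < (b - 1) * z.re + (c - 1) * z.im + 1 / 2} := by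
    rw [interior_inter, interior_inter, interior_inter, a12_int (z₀ := ⟨1 / 8, 1 / 8⟩),
      a12_int (z₀ := ⟨1 / 8, 1 / 8⟩), a12_int (z₀ := ⟨1 / 8, 1 / 8⟩),
      a12_int (z₀ := ⟨1 / 8, 1 / 8⟩)] <;> dsimp only <;> linarith
  have l4 : ∀ z ∈ Δ, Ψ z ∈ K.face {u, v, w} ∩ K.half H ↔ z ∈ L := fun z hz => by
    obtain ⟨k0, k1, k2, k3⟩ := h3 z hz
    obtain ⟨z1, z2, z3⟩ := (hΔ z).1 hz
    have k4 := hw _ k0
    rw [k1, k2, k3] at k4
    simp only [L, a12_hp, Tri.half, mem_inter_iff, mem_ofPred_eq, k0, k0.1, true_and, k4]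
    exact ⟨fun h => ⟨⟨⟨by linarith only [z1], by linarith only [z2]⟩, by linarith only [z3]⟩, by linarith⟩,
      fun h => by linarith only [h.2]⟩
  have l5 := dsc_convex (K := L) ((isCompact_Icc.reProdIm isCompact_Icc).of_isClosed_subset l1
    (fun z hz => by
      obtain ⟨z1, z2, z3⟩ := (hΔ z).1 (l2 hz)
      exact (⟨⟨z1, by linarith⟩, z2, by linarith⟩ : z.re ∈ Icc (0 : ℝ) 1 ∧ z.im ∈ Icc (0 : ℝ) 1)))
    ((((a12_conv ..).inter (a12_conv ..)).inter (a12_conv ..)).inter (a12_conv ..))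
    ⟨⟨1 / 8, 1 / 8⟩, by
      rw [l3]
      refine ⟨⟨⟨?_, ?_⟩, ?_⟩, ?_⟩ <;> simp only [mem_ofPred_eq] <;> linarith⟩
    (h1.mono l2) (h2.mono l2)
  rw [h4 _ L inter_subset_left l2 l4, h4 (a12_J K H {u, v, w}) _ (fun x hx => hx.1.1)
    (l1.frontier_subset.trans l2) fun z hz => ?_] at l5
  · exact l5
  obtain ⟨k0, k1, k2, k3⟩ := h3 z hz
  have k4 := hw _ k0
  rw [k1, k2, k3] at k4
  rw [l1.frontier_eq, l3, a12_J, mem_sep_iff, l4 z hz, mem_sdiff, k4]
  refine and_congr_right fun ⟨⟨⟨z1, z2⟩, z3⟩, z4⟩ => ?_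
  simp only [a12_hp, mem_ofPred_eq] at z1 z2 z3 z4
  simp only [Finset.mem_insert, Finset.mem_singleton, exists_eq_or_imp, exists_eq_left, k1, k2, k3,
    mem_inter_iff, mem_ofPred_eq]
  constructor
  · rintro (h | h | h | h) ⟨⟨⟨y1, y2⟩, y3⟩, y4⟩ <;> linarith only [h, y4, y3, y1, y2]
  · intro h
    by_contra h0
    simp only [not_or] at h0
    exact h ⟨⟨⟨lt_of_le_of_ne z1 fun e => h0.2.2.1 (by linarith only [z1, e]),
      lt_of_le_of_ne z2 fun e => h0.2.2.2 (by linarith only [z2, e])⟩,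
      lt_of_le_of_ne z3 fun e => h0.2.1 (by linarith only [z3, e])⟩,
      lt_of_le_of_ne z4 fun e => h0.1 (by linarith only [e])⟩

theorem a12_edge (K : Tri A) (hA : IsCompact A) (H : Finset K.V) {s t : Finset K.V} (ht : t ∈ K.T)
    (hs : s.card = 2) (hst : s ⊆ t) {u : K.V} (hu : u ∈ s) (huH : u ∈ H) :
    ∃ a b, Arc (K.face s ∩ K.half H) a b ∧ K.face s ∩ K.half H ∩ a12_P K H = {a, b} := by
  obtain ⟨v, hv, huv⟩ := Finset.exists_mem_ne (by rw [hs]; decide : 1 < s.card) u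
  obtain rfl : {u, v} = s := Finset.eq_of_subset_of_card_le
    (by simp [Finset.insert_subset_iff, hu, hv]) (by rw [hs, Finset.card_pair huv.symm])
  obtain ⟨w, huw, hvw, rfl⟩ := a12_third (K.card t ht) (hst hu) (hst hv) huv.symm
  obtain ⟨Ψ, Δ, hΔ, h1, h2, h3, h4⟩ := a12_param K hA ht
  have hf : ∀ z ∈ Δ, ∀ r ⊆ {u, v, w}, (∀ y ∈ ({u, v, w} : Finset _), y ∉ r → K.lam (Ψ z) y = 0) →
      Ψ z ∈ K.face r := fun z hz r _ h => ⟨(h3 z hz).1.1, fun y hy => by
    by_cases h5 : y ∈ ({u, v, w} : Finset _)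
    exacts [h y h5 hy, (h3 z hz).1.2 y h5]⟩
  have hw : ∀ z ∈ Δ, z.im = 0 → ∑ y ∈ H, K.lam (Ψ z) y =
      1 - z.re + (if v ∈ H then 1 else 0) * z.re := fun z hz h => by
    obtain ⟨k0, k1, k2, k3⟩ := h3 z hz
    rw [a12_w K H huv.symm huw hvw k0, if_pos huH, k1, k2, k3, h]
    ring
  obtain ⟨b, ρ, hb, hρ⟩ : ∃ b ρ : ℝ, (if v ∈ H then 1 else 0) = b ∧
      ((b = 1 ∧ ρ = 1) ∨ (b = 0 ∧ ρ = 1 / 2)) := by
    split_ifs
    exacts [⟨1, 1, rfl, Or.inl ⟨rfl, rfl⟩⟩, ⟨0, 1 / 2, rfl, Or.inr ⟨rfl, rfl⟩⟩]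
  rw [hb] at hw
  have ρ0 : 0 < ρ ∧ ρ ≤ 1 := by rcases hρ with h | h <;> rw [h.2] <;> norm_num
  have l1 : ∀ z : ℂ, z ∈ segment ℝ (0 : ℂ) ρ ↔ 0 ≤ z.re ∧ z.re ≤ ρ ∧ z.im = 0 := fun z => by
    rw [a12_seg]
    simp only [Complex.zero_re, Complex.zero_im, Complex.ofReal_re, Complex.ofReal_im, mul_zero,
      zero_add]
    constructor
    · rintro ⟨s, s1, s2, s3, s4⟩
      exact ⟨s3 ▸ mul_nonneg s1 ρ0.1.le, s3 ▸ mul_le_of_le_one_left ρ0.1.le s2, s4⟩
    · rintro ⟨s1, s2, s3⟩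
      exact ⟨z.re / ρ, div_nonneg s1 ρ0.1.le, (div_le_one ρ0.1).2 s2,
        (div_mul_cancel₀ _ ρ0.1.ne').symm, s3⟩
  have l2 : segment ℝ (0 : ℂ) ρ ⊆ Δ := fun z hz => by
    obtain ⟨z1, z2, z3⟩ := (l1 z).1 hz
    exact (hΔ z).2 ⟨z1, z3.ge, by linarith only [ρ0.2, z2, z3]⟩
  have l3 : ∀ z ∈ Δ, Ψ z ∈ K.face {u, v} ∩ K.half H ↔ z ∈ segment ℝ (0 : ℂ) ρ := fun z hz => by
    obtain ⟨k0, k1, k2, k3⟩ := h3 z hz
    obtain ⟨z1, z2, z3⟩ := (hΔ z).1 hz
    rw [l1]
    constructor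
    · rintro ⟨y1, -, y2⟩
      have y3 : z.im = 0 := k2 ▸ y1.2 w (by simp [huw.symm, hvw.symm])
      rw [hw z hz y3] at y2
      refine ⟨z1, ?_, y3⟩
      rcases hρ with ⟨rfl, rfl⟩ | ⟨rfl, rfl⟩ <;> linarith only [z2, z3, y2]
    · rintro ⟨-, y1, y2⟩
      refine ⟨hf z hz _ hst (by simp only [Finset.mem_insert, Finset.mem_singleton, not_or, and_imp, forall_eq_or_imp, not_true_eq_false, IsEmpty.forall_iff, implies_true, forall_eq, k2, y2, and_self]), k0.1, ?_⟩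
      rw [hw z hz y2]
      rcases hρ with ⟨rfl, rfl⟩ | ⟨rfl, rfl⟩ <;> linarith only [y1]
  have l4 := h4 _ _ (fun x hx => ⟨hx.1.1, fun y hy => hx.1.2 y fun h => hy (hst h)⟩) l2 l3
  have m0 := left_mem_segment ℝ (0 : ℂ) ρ
  have m1 := right_mem_segment ℝ (0 : ℂ) ρ
  refine ⟨Ψ 0, Ψ ρ, l4 ▸ arc_seg (by exact_mod_cast ρ0.1.ne) (h1.mono l2) (h2.mono l2),
    Subset.antisymm ?_ ?_⟩
  · rintro x ⟨hx, -, r, r1, r2⟩
    obtain ⟨z, hz, rfl⟩ := l4.symm ▸ hx
    obtain ⟨k0, k1, k2, k3⟩ := h3 z (l2 hz)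
    obtain ⟨z1, z2, z3⟩ := (l1 z).1 hz
    have e : z.re = 0 ∨ z.re = ρ := by
      by_contra h
      rw [not_or] at h
      have h5 := lt_of_le_of_ne z2 h.2
      have h6 := a12_card K r1 (r := {u, v}) (by
        simp only [Finset.mem_insert, Finset.mem_singleton, forall_eq_or_imp, forall_eq, k1, k3]
        exact ⟨by linarith only [ρ0.2, z3, h5], h.1⟩)
      rw [hs] at h6
      rcases r2 with r2 | ⟨-, r2⟩
      · omega
      · rw [hw z (l2 hz) z3] at r2
        rcases hρ with ⟨rfl, rfl⟩ | ⟨rfl, rfl⟩ <;> linarith only [r2, h5]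
    rcases e with e | e
    · exact Or.inl (congrArg Ψ (Complex.ext e z3))
    · exact Or.inr (congrArg Ψ (Complex.ext e z3))
  · rintro x (rfl | rfl)
    · obtain ⟨k0, k1, k2, k3⟩ := h3 _ (l2 m0)
      have h5 := (l3 _ (l2 m0)).2 m0
      exact ⟨h5, h5.2, {u}, hf _ (l2 m0) _ (by simp) (by simp only [Finset.mem_insert, Finset.mem_singleton, forall_eq_or_imp, not_true_eq_false, IsEmpty.forall_iff, k1, Complex.zero_re, implies_true, forall_eq, k2, Complex.zero_im, and_self]), Or.inl (by simp)⟩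
    · obtain ⟨k0, k1, k2, k3⟩ := h3 _ (l2 m1)
      have h5 := (l3 _ (l2 m1)).2 m1
      rcases hρ with ⟨rfl, rfl⟩ | ⟨rfl, rfl⟩
      · exact ⟨h5, h5.2, {v}, hf _ (l2 m1) _ (by simp) (by simp only [Finset.mem_insert, Finset.mem_singleton, forall_eq_or_imp, k3, Complex.ofReal_re, sub_self, Complex.ofReal_im, implies_true, not_true_eq_false, IsEmpty.forall_iff, forall_eq, k2, and_self]),
          Or.inl (by simp)⟩
      · refine ⟨h5, h5.2, _, h5.1, Or.inr ⟨hs.le, ?_⟩⟩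
        rw [hw _ (l2 m1) (Complex.ofReal_im _), Complex.ofReal_re]
        norm_num

theorem a12_mid (K : Tri A) (hA : IsCompact A) (H : Finset K.V) {u v w : K.V}
    (ht : {u, v, w} ∈ K.T) (huv : u ≠ v) (huw : u ≠ w) (hvw : v ≠ w)
    (hH : (u ∈ H ∧ v ∉ H ∧ w ∉ H) ∨ (u ∉ H ∧ v ∈ H ∧ w ∈ H)) :
    ∃ a b, Arc (K.mid H {u, v, w}) a b ∧ K.mid H {u, v, w} ∩ a12_P K H = {a, b} := by
  obtain ⟨Ψ, Δ, hΔ, h1, h2, h3, h4⟩ := a12_param K hA ht
  have hf : ∀ z ∈ Δ, ∀ r ⊆ {u, v, w}, (∀ y ∈ ({u, v, w} : Finset _), y ∉ r → K.lam (Ψ z) y = 0) →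
      Ψ z ∈ K.face r := fun z hz r _ h => ⟨(h3 z hz).1.1, fun y hy => by
    by_cases h5 : y ∈ ({u, v, w} : Finset _)
    exacts [h y h5 hy, (h3 z hz).1.2 y h5]⟩
  have l1 : ∀ z : ℂ, z ∈ segment ℝ (⟨1 / 2, 0⟩ : ℂ) ⟨0, 1 / 2⟩ ↔
      0 ≤ z.re ∧ 0 ≤ z.im ∧ z.re + z.im = 1 / 2 := fun z => by
    rw [a12_seg]
    constructor
    · rintro ⟨s, s1, s2, s3, s4⟩
      exact ⟨by linarith only [s2, s3], by linarith only [s1, s4], by linarith⟩
    · rintro ⟨s1, s2, s3⟩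
      exact ⟨2 * z.im, by linarith, by linarith, by linarith, by linarith only []⟩
  have l2 : segment ℝ (⟨1 / 2, 0⟩ : ℂ) ⟨0, 1 / 2⟩ ⊆ Δ := fun z hz => by
    obtain ⟨z1, z2, z3⟩ := (l1 z).1 hz
    exact (hΔ z).2 ⟨z1, z2, by linarith⟩
  have l3 : ∀ z ∈ Δ, Ψ z ∈ K.mid H {u, v, w} ↔ z ∈ segment ℝ (⟨1 / 2, 0⟩ : ℂ) ⟨0, 1 / 2⟩ :=
    fun z hz => by
      obtain ⟨k0, k1, k2, k3⟩ := h3 z hz
      obtain ⟨z1, z2, z3⟩ := (hΔ z).1 hz
      rw [l1, Tri.mid, mem_sep_iff, a12_w K H huv huw hvw k0, k1, k2, k3]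
      rcases hH with ⟨a, b, c⟩ | ⟨a, b, c⟩ <;> simp only [a, b, c, if_true, if_false] <;>
        exact ⟨fun h => ⟨z1, z2, by linarith only [h.2]⟩, fun h => ⟨k0, by linarith only [h.2.2]⟩⟩
  have l4 := h4 _ _ (fun x hx => hx.1) l2 l3
  have m0 := left_mem_segment ℝ (⟨1 / 2, 0⟩ : ℂ) ⟨0, 1 / 2⟩
  have m1 := right_mem_segment ℝ (⟨1 / 2, 0⟩ : ℂ) ⟨0, 1 / 2⟩
  refine ⟨Ψ _, Ψ _, l4 ▸ arc_seg (fun h => by simpa using congrArg Complex.re h) (h1.mono l2)
    (h2.mono l2), Subset.antisymm ?_ ?_⟩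
  · rintro x ⟨hx, -, r, r1, r2⟩
    obtain ⟨z, hz, rfl⟩ := l4.symm ▸ hx
    obtain ⟨k0, k1, k2, k3⟩ := h3 z (l2 hz)
    obtain ⟨z1, z2, z3⟩ := (l1 z).1 hz
    have e : z.im = 0 ∨ z.re = 0 := by
      by_contra h
      rw [not_or] at h
      have h6 := a12_card K r1 (r := {u, v, w}) (by
        simp only [Finset.mem_insert, Finset.mem_singleton, forall_eq_or_imp, forall_eq, k1, k2, k3]
        exact ⟨by linarith only [z3], h.2, h.1⟩)
      rw [K.card _ ht] at h6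
      omega
    rcases e with e | e
    · exact Or.inl (congrArg Ψ (Complex.ext (by dsimp only; linarith only [z3, e]) e))
    · exact Or.inr (congrArg Ψ (Complex.ext e (by dsimp only; linarith)))
  · rintro x (rfl | rfl)
    · obtain ⟨k0, k1, k2, k3⟩ := h3 _ (l2 m0)
      have h5 := (l3 _ (l2 m0)).2 m0
      exact ⟨h5, ⟨k0.1, h5.2.ge⟩, {u, v}, hf _ (l2 m0) _ (by simp) (by simp only [Finset.mem_insert, Finset.mem_singleton, not_or, and_imp, forall_eq_or_imp, not_true_eq_false, IsEmpty.forall_iff, implies_true, forall_eq, k2, and_self]),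
        Or.inr ⟨Finset.card_le_two, h5.2⟩⟩
    · obtain ⟨k0, k1, k2, k3⟩ := h3 _ (l2 m1)
      have h5 := (l3 _ (l2 m1)).2 m1
      exact ⟨h5, ⟨k0.1, h5.2.ge⟩, {u, w}, hf _ (l2 m1) _ (by simp) (by simp only [Finset.mem_insert, Finset.mem_singleton, not_or, and_imp, forall_eq_or_imp, not_true_eq_false, IsEmpty.forall_iff, k1, implies_true, forall_eq, and_self]),
        Or.inr ⟨Finset.card_le_two, h5.2⟩⟩

omit [T2Space M] in
theorem a12_fin (K : Tri A) (H : Finset K.V) : (a12_P K H).Finite := by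
  refine Finite.of_injOn (f := K.lam) (t := univ.pi fun _ => {0, 1 / 2, 1}) ?_
    (K.inj.mono fun x hx => hx.1.1) (Finite.pi fun _ => toFinite _)
  rintro x ⟨hx, s, h1, h2⟩ v -
  by_cases h0 : K.lam x v = 0
  · exact Or.inl h0
  have hv : v ∈ s := by_contra fun h => h0 (h1.2 v h)
  have h3 : ∑ y ∈ s, K.lam x y = 1 := by
    rw [← (K.basic hx.1).2.1]
    exact Finset.sum_subset (Finset.subset_univ _) fun y _ hy => h1.2 y hy
  by_cases h4 : s.card ≤ 1
  · rw [Finset.sum_eq_single_of_mem v hv fun y hy h =>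
      absurd (Finset.card_le_one.1 h4 y hy v hv) h] at h3
    exact Or.inr (Or.inr h3)
  obtain ⟨h5, h6⟩ := h2.resolve_left h4
  obtain ⟨u, hu, huv⟩ := Finset.exists_mem_ne (not_le.1 h4) v
  obtain rfl : {u, v} = s := Finset.eq_of_subset_of_card_le
    (by simp [Finset.insert_subset_iff, hu, hv]) (by rwa [Finset.card_pair huv])
  rw [← Finset.sum_subset (Finset.inter_subset_right (s₁ := {u, v})) fun y y1 y2 =>
    h1.2 y fun y3 => y2 (Finset.mem_inter.2 ⟨y3, y1⟩), ← Finset.sum_ite_mem,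
    Finset.sum_pair huv] at h6
  rw [Finset.sum_pair huv] at h3
  refine Or.inr (Or.inl ?_)
  split_ifs at h6 <;> linarith only [h3, h6]

/-- Plan: discs are the sets `face t ∩ half H` for the triangles `t` that meet `H` (a triangle, a
small triangle or a trapezoid; `Tri.face_param`, `dsc_convex`); edges are the sets
`face {u, v} ∩ half H` for edges that meet `H`, and the sets `mid H t`; points are the vertices in
`H` and the midpoints of the edges with exactly one end in `H`. -/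
theorem Tri.half_cells (K : Tri A) (hA : IsCompact A) (H : Finset K.V) :
    ∃ C : Cells (K.half H), ∀ t ∈ K.T, (∃ u ∈ t, u ∈ H) → (∃ v ∈ t, v ∉ H) → K.mid H t ∈ C.E := by
  let E : Set (Set M) := (fun s => K.face s ∩ K.half H) ''
    {s | s.card = 2 ∧ (∃ u ∈ s, u ∈ H) ∧ ∃ t ∈ K.T, s ⊆ t} ∪
      K.mid H '' {t | t ∈ K.T ∧ (∃ u ∈ t, u ∈ H) ∧ ∃ v ∈ t, v ∉ H}
  have hm : ∀ t, K.mid H t ⊆ a12_J K H t := fun t x hx =>
    ⟨⟨hx.1, hx.1.1, hx.2.ge⟩, Or.inl hx.2⟩
  have he : ∀ t ∈ K.T, ∀ s : Finset K.V, s.card ≤ 2 → ∀ x ∈ K.face t ∩ K.half H, x ∈ K.face s →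
      x ∈ a12_J K H t := fun t ht s hs x hx h => by
    obtain ⟨v, h1, h2⟩ := Finset.exists_mem_notMem_of_card_lt_card (s := s) (t := t)
      (by rw [K.card t ht]; omega)
    exact ⟨hx, Or.inr ⟨v, h1, h.2 v h2⟩⟩
  have hs : ∀ t ∈ K.T, ∀ s : Finset K.V, s.card = 2 → s ⊆ t →
      K.face s ∩ K.half H ⊆ a12_J K H t := fun t ht s hs h x hx =>
    he t ht s hs.le x ⟨⟨hx.1.1, fun v hv => hx.1.2 v fun h1 => hv (h h1)⟩, hx.2⟩ hx.1
  have hi : ∀ {s s' x}, x ∈ K.face s → x ∈ K.face s' → x ∈ K.face (s ∩ s') := fun h h' =>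
    ⟨h.1, fun v hv => (not_and_or.1 (mt Finset.mem_inter.2 hv)).elim (h.2 v) (h'.2 v)⟩
  have hb : ∀ t ∈ K.T, ∀ x ∈ a12_J K H t, ∃ e ∈ E, x ∈ e ∧ e ⊆ a12_J K H t := by
    rintro t ht x ⟨hx, h | ⟨v, h1, h2⟩⟩
    · refine ⟨_, Or.inr ⟨t, ⟨ht, a12_meet K hx.1 hx.2, by_contra fun h1 => ?_⟩, rfl⟩,
        ⟨hx.1, h⟩, hm t⟩
      rw [Finset.sum_subset (Finset.subset_univ H) fun y _ hy => hx.1.2 y fun h2 => h1 ⟨y, h2, hy⟩,
        (K.basic hx.1.1).2.1] at h
      norm_num at h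
    · have h3 : (t.erase v).card = 2 := by rw [Finset.card_erase_of_mem h1, K.card t ht]
      have h4 : x ∈ K.face (t.erase v) := ⟨hx.1.1, fun y hy => by
        by_cases h : y = v
        exacts [h ▸ h2, hx.1.2 y fun h5 => hy (Finset.mem_erase.2 ⟨h, h5⟩)]⟩
      exact ⟨_, Or.inl ⟨_, ⟨h3, a12_meet K h4 hx.2, t, ht, Finset.erase_subset _ _⟩, rfl⟩,
        ⟨h4, hx.2⟩, hs t ht _ h3 (Finset.erase_subset _ _)⟩
  refine ⟨⟨a12_P K H, E, (fun t => (K.face t ∩ K.half H, a12_J K H t)) ''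
    {t | t ∈ K.T ∧ ∃ u ∈ t, u ∈ H}, a12_fin K H,
    ((toFinite _).image _).union ((toFinite _).image _), (toFinite _).image _,
    ?_, ?_, ?_, ?_, ?_, ?_, ?_, ?_, ?_⟩, fun t ht h1 h2 => Or.inr ⟨t, ⟨ht, h1, h2⟩, rfl⟩⟩
  · rintro _ (⟨s, ⟨h1, ⟨u, h2, h3⟩, t, ht, h4⟩, rfl⟩ | ⟨t, ⟨ht, ⟨u, h1, h2⟩, v, h3, h4⟩, rfl⟩)
    · exact a12_edge K hA H ht h1 h4 h2 h3
    · have huv : u ≠ v := fun h => h4 (h ▸ h2)
      obtain ⟨w, huw, hvw, rfl⟩ := a12_third (K.card t ht) h1 h3 huv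
      by_cases hw : w ∈ H
      · rw [Finset.insert_comm] at ht ⊢
        exact a12_mid K hA H ht huv.symm hvw huw (Or.inr ⟨h4, h2, hw⟩)
      · exact a12_mid K hA H ht huv huw hvw (Or.inl ⟨h2, h4, hw⟩)
  · rintro _ (⟨s, h1, rfl⟩ | ⟨t, h1, rfl⟩) _ (⟨s', h2, rfl⟩ | ⟨t', h2, rfl⟩) hne x ⟨hx, hx'⟩
    · exact ⟨hx.2, _, hi hx.1 hx'.1, Or.inl (a12_inter h1.1 h2.1 fun h => hne (h ▸ rfl))⟩
    · exact ⟨hx.2, _, hx.1, Or.inr ⟨h1.1.le, hx'.2⟩⟩
    · exact ⟨hx'.2, _, hx'.1, Or.inr ⟨h2.1.le, hx.2⟩⟩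
    · exact ⟨⟨hx.1.1, hx.2.ge⟩, _, hi hx.1 hx'.1, Or.inr ⟨a12_inter (K.card _ h1.1)
        (K.card _ h2.1) fun h => hne (h ▸ rfl), hx.2⟩⟩
  · rintro _ ⟨t, ⟨ht, u, h1, h2⟩, rfl⟩
    exact a12_dsc K hA H ht h1 h2
  · rintro _ ⟨t, ht, rfl⟩
    exact hb t ht.1
  · rintro _ ⟨t, ht, rfl⟩ _ (⟨s, h1, rfl⟩ | ⟨s, h1, rfl⟩) x ⟨hx, hx'⟩
    · exact he t ht.1 s h1.1.le x hx hx'.1
    · exact ⟨hx, Or.inl hx'.2⟩
  · rintro _ ⟨t, ht, rfl⟩ _ ⟨t', ht', rfl⟩ hne x ⟨hx, hx'⟩
    exact he t ht.1 _ (a12_inter (K.card _ ht.1) (K.card _ ht'.1) fun h => hne (h ▸ rfl)) x hx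
      (hi hx.1 hx'.1)
  · rintro x ⟨hx, s, h1, h2⟩
    obtain ⟨t, ht, h3⟩ := (K.basic hx.1).2.2
    obtain ⟨e, h4, h5, -⟩ := hb t ht x (he t ht s (by omega) x ⟨h3, hx⟩ h1)
    exact ⟨e, h4, h5⟩
  · rintro _ (⟨s, ⟨h1, ⟨u, h2, h3⟩, t, ht, h4⟩, rfl⟩ | ⟨t, h1, rfl⟩)
    · exact ⟨_, ⟨t, ⟨ht, u, h4 h2, h3⟩, rfl⟩, hs t ht s h1 h4⟩
    · exact ⟨_, ⟨t, ⟨h1.1, h1.2.1⟩, rfl⟩, hm t⟩
  · refine Subset.antisymm (iUnion₂_subset ?_) fun x hx => ?_
    · rintro _ ⟨t, -, rfl⟩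
      exact inter_subset_right
    · obtain ⟨t, ht, h3⟩ := (K.basic hx.1).2.2
      exact mem_iUnion₂.2 ⟨_, ⟨t, ⟨ht, a12_meet K h3 hx⟩, rfl⟩, h3, hx⟩

end Pool.Agent.MP_17e62b_gt.T55

end
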