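import Pool.Agent.MP_17e62b_gt.Mg.T55_MA2
import Pool.Agent.MP_17e62b_gt.Mg.T55_MA1
import Pool.Agent.MP_17e62b_gt.Mg.T55_MB1
import Pool.Agent.MP_17e62b_gt.Mg.G_H72Iface
import Pool.Agent.MP_17e62b_gt.Mg.G_H14Iface

section

/-!
Dual cells: points, segments, quadrilaterals.
-/

namespace Pool.Agent.MP_17e62b_gt.T55

open Set Metric Topology
open scoped InnerProductSpace Manifold

section Aux

variable {M : Type} [TopologicalSpace M] (K : Tri (univ : Set M))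

theorem c1_pos {v : K.V} {x : M} (h : x ∈ K.tile v) : 0 < K.lam x v := by
  refine not_le.1 fun g => ?_
  have := Finset.sum_nonpos (s := Finset.univ) fun w _ => (h.2 w).trans g
  rw [(K.basic h.1).2.1] at this
  exact absurd this (by norm_num)

theorem c1_mem {v : K.V} {x : M} {t : Finset K.V} (h : x ∈ K.tile v) (ht : x ∈ K.face t) :
    v ∈ t := by_contra fun g => (c1_pos K h).ne' (ht.2 v g)

theorem c1_mono {s t : Finset K.V} (h : s ⊆ t) : K.face s ⊆ K.face t :=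
  fun _ hx => ⟨hx.1, fun v hv => hx.2 v fun g => hv (h g)⟩

theorem c1_seg {s s' : Finset K.V} (hs : s ⊆ s') (hc : s'.card = s.card + 1) {x : M} :
    x ∈ K.seg s s' ↔ x ∈ K.face s' ∧ ∀ v ∈ s, x ∈ K.tile v := by
  refine ⟨fun h => ⟨h.1, fun v hv => ⟨trivial, h.2.1 v hv⟩⟩,
    fun h => ⟨h.1, fun v hv => (h.2 v hv).2, fun v hv w hw => ?_⟩⟩
  have : (s' \ s).card ≤ 1 := by rw [Finset.card_sdiff_of_subset hs]; omega
  rw [Finset.card_le_one.1 this v hv w hw]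

theorem c1_sub (s : Finset K.V) : (K.ctr s).Subsingleton := fun _ hx _ hy =>
  K.inj trivial trivial (funext fun v => (hx.2 v).trans (hy.2 v).symm)

theorem c1_ctr {s : Finset K.V} {x : M} (h : x ∈ K.ctr s) :
    x ∈ K.face s ∧ (∀ v ∈ s, x ∈ K.tile v) ∧ ∀ v ∈ s, K.lam x v ≠ 0 := by
  refine ⟨⟨trivial, fun v hv => (h.2 v).trans (if_neg hv)⟩, fun v hv => ⟨trivial, fun w => ?_⟩,
    fun v hv => ?_⟩
  · rw [h.2 v, h.2 w, if_pos hv]
    split_ifs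
    exacts [le_rfl, by positivity]
  · rw [h.2 v, if_pos hv]
    exact inv_ne_zero (Nat.cast_ne_zero.2 (Finset.card_ne_zero_of_mem hv))

theorem c1_ctr' {s : Finset K.V} {x : M} (h : x ∈ K.face s) (h' : ∀ v ∈ s, x ∈ K.tile v) :
    x ∈ K.ctr s := by
  refine ⟨trivial, fun v => ?_⟩
  split_ifs with hv
  · have e := (K.basic h.1).2.1
    rw [← Finset.sum_subset (Finset.subset_univ s) fun a _ ha => h.2 a ha,
      Finset.sum_congr rfl fun a ha => le_antisymm ((h' v hv).2 a) ((h' a ha).2 v),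
      Finset.sum_const, nsmul_eq_mul] at e
    exact eq_inv_of_mul_eq_one_right e
  · exact h.2 v hv

/-- A point of a segment is an end, or it determines the segment. -/
theorem c1_key {s s' : Finset K.V} (hs : s ⊆ s') (hc : s'.card = s.card + 1) {x : M}
    (h : x ∈ K.seg s s') : x ∈ K.ctr s ∨ x ∈ K.ctr s' ∨
      (∀ v, v ∈ s ↔ x ∈ K.tile v) ∧ ∀ v, v ∈ s' ↔ K.lam x v ≠ 0 := by
  obtain ⟨h1, h2⟩ := (c1_seg K hs hc).1 h
  obtain ⟨a, ha, rfl⟩ := Finset.exists_eq_insert_iff.2 ⟨hs, hc.symm⟩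
  by_cases g0 : K.lam x a = 0
  · refine .inl (c1_ctr' K ⟨trivial, fun v hv => ?_⟩ h2)
    by_cases e : v = a
    · exact e ▸ g0
    · exact h1.2 v (by simp [e, hv])
  by_cases g1 : x ∈ K.tile a
  · exact .inr (.inl (c1_ctr' K h1 (Finset.forall_mem_insert _ _ _ |>.2 ⟨g1, h2⟩)))
  refine .inr (.inr ⟨fun v => ⟨h2 v, fun hv => ?_⟩, fun v => ⟨fun hv => ?_, fun hv => ?_⟩⟩)
  · exact (Finset.mem_insert.1 (c1_mem K hv h1)).resolve_left fun e => g1 (e ▸ hv)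
  · rcases Finset.mem_insert.1 hv with rfl | hv
    exacts [g0, (c1_pos K (h2 v hv)).ne']
  · exact by_contra fun g => hv (h1.2 v g)

/-- The boundary of a quadrilateral. -/
def c1_bd (v : K.V) (t : Finset K.V) : Set M :=
  {x ∈ K.tile v ∩ K.face t | ∃ a ∈ t, a ≠ v ∧ (K.lam x a = 0 ∨ x ∈ K.tile a)}

theorem c1_in {v : K.V} {t s s' : Finset K.V} (ht : t ∈ K.T) (hs : s ⊆ s')
    (hc : s'.card = s.card + 1) {x : M} (h : x ∈ K.tile v ∩ K.face t) (h' : x ∈ K.seg s s') :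
    x ∈ c1_bd K v t := by
  obtain ⟨h1, h2⟩ := (c1_seg K hs hc).1 h'
  refine ⟨h, by_contra fun g => ?_⟩
  push Not at g
  have a1 : s ⊆ {v} := fun a ha => Finset.mem_singleton.2 (by_contra fun e =>
    (g a (c1_mem K (h2 a ha) h.2) e).2 (h2 a ha))
  have a2 : t ⊆ s' := fun a ha => by_contra fun e => by
    by_cases e' : a = v
    · exact e (e' ▸ c1_mem K h.1 h1)
    · exact (g a ha e').1 (h1.2 a e)
  have := Finset.card_le_card a1
  have := Finset.card_le_card a2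
  have := K.card t ht
  simp only [Finset.card_singleton] at *
  omega

theorem c1_bd_eq {v a b : K.V} (ht : {v, a, b} ∈ K.T) : c1_bd K v {v, a, b} =
    K.seg {v} {v, a} ∪ K.seg {v} {v, b} ∪ K.seg {v, a} {v, a, b} ∪ K.seg {v, b} {v, a, b} := by
  obtain ⟨h1, h2, h3⟩ := a9_ne (K.card _ ht)
  have c3 := K.card _ ht
  have s1 : ({v} : Finset K.V) ⊆ {v, a} := by simp
  have s2 : ({v} : Finset K.V) ⊆ {v, b} := by simp
  have s3 : ({v, a} : Finset K.V) ⊆ {v, a, b} := by simp [Finset.insert_subset_iff]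
  have s4 : ({v, b} : Finset K.V) ⊆ {v, a, b} := by simp [Finset.insert_subset_iff]
  have k1 : ({v, a} : Finset K.V).card = ({v} : Finset K.V).card + 1 := by
    rw [Finset.card_pair h1, Finset.card_singleton]
  have k2 : ({v, b} : Finset K.V).card = ({v} : Finset K.V).card + 1 := by
    rw [Finset.card_pair h2, Finset.card_singleton]
  have k3 : ({v, a, b} : Finset K.V).card = ({v, a} : Finset K.V).card + 1 := by
    rw [Finset.card_pair h1, c3]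
  have k4 : ({v, a, b} : Finset K.V).card = ({v, b} : Finset K.V).card + 1 := by
    rw [Finset.card_pair h2, c3]
  refine Subset.antisymm ?_ ?_
  · rintro x ⟨⟨g1, g2⟩, c, hc, hv, g⟩
    have hc' : c = a ∨ c = b := by simpa [hv] using hc
    rcases hc' with rfl | rfl <;> rcases g with g | g
    · refine .inl (.inl (.inr ((c1_seg K s2 k2).2 ⟨⟨trivial, fun w hw => ?_⟩, by simpa using g1⟩)))
      by_cases e : w = c
      · exact e ▸ g
      · exact g2.2 w (by simpa [e] using hw)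
    · exact .inl (.inr ((c1_seg K s3 k3).2 ⟨g2, by simp [g1, g]⟩))
    · refine .inl (.inl (.inl ((c1_seg K s1 k1).2 ⟨⟨trivial, fun w hw => ?_⟩, by simpa using g1⟩)))
      by_cases e : w = c
      · exact e ▸ g
      · exact g2.2 w (by simpa [e] using hw)
    · exact .inr ((c1_seg K s4 k4).2 ⟨g2, by simp [g1, g]⟩)
  · rintro x (((h | h) | h) | h)
    · exact c1_in K ht s1 k1 ⟨⟨trivial, h.2.1 v (by simp)⟩, c1_mono K s3 h.1⟩ h
    · exact c1_in K ht s2 k2 ⟨⟨trivial, h.2.1 v (by simp)⟩, c1_mono K s4 h.1⟩ h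
    · exact c1_in K ht s3 k3 ⟨⟨trivial, h.2.1 v (by simp)⟩, h.1⟩ h
    · exact c1_in K ht s4 k4 ⟨⟨trivial, h.2.1 v (by simp)⟩, h.1⟩ h

theorem c1_three {t : Finset K.V} (ht : t ∈ K.T) {v : K.V} (hv : v ∈ t) :
    ∃ a b, t = {v, a, b} := by
  obtain ⟨a, ha, h⟩ := Finset.exists_mem_ne (by rw [K.card t ht]; norm_num : 1 < t.card) v
  obtain ⟨b, -, e⟩ := a9_third (K.card t ht) h.symm hv ha
  exact ⟨a, b, e⟩

theorem c1_pair {t : Finset K.V} (ht : t ∈ K.T) {u v : K.V} (h : u ≠ v) (hu : u ∈ t) (hv : v ∈ t)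
    {x : M} (h1 : x ∈ K.face t) (h2 : x ∈ K.tile u) (h3 : x ∈ K.tile v) : x ∈ K.seg {u, v} t :=
  (c1_seg K (by simp [Finset.insert_subset_iff, hu, hv])
    (by rw [K.card t ht, Finset.card_pair h])).2 ⟨h1, by simp [h2, h3]⟩

end Aux

variable {M : Type} [TopologicalSpace M] [T2Space M] [CompactSpace M] (K : Tri (univ : Set M))

omit [T2Space M] [CompactSpace M] in
theorem Tri.ctr_single {s t : Finset K.V} (ht : t ∈ K.T) (hs : s ⊆ t) (hn : s.Nonempty) :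
    ∃ p, K.ctr s = {p} := by
  have h : (fun v => if v ∈ s then ((s.card : ℝ))⁻¹ else 0) ∈ K.lam '' univ := by
    rw [K.img]
    refine ⟨⟨fun v => ?_, ?_⟩, t, ht, fun v hv => if_neg fun g => hv (hs g)⟩
    · dsimp only
      split_ifs
      exacts [by positivity, le_rfl]
    · rw [Finset.sum_ite_mem, Finset.univ_inter, Finset.sum_const, nsmul_eq_mul]
      exact mul_inv_cancel₀ (Nat.cast_ne_zero.2 hn.card_pos.ne')
  obtain ⟨p, -, hp⟩ := h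
  exact ⟨p, (c1_sub K s).eq_singleton_of_mem ⟨trivial, congrFun hp⟩⟩

omit [T2Space M] [CompactSpace M] in
theorem Tri.ctr_pt (v : K.V) : K.ctr {v} = {K.pt v} := by
  refine (c1_sub K _).eq_singleton_of_mem ⟨trivial, fun w => ?_⟩
  simp [K.lam_pt, Pi.single_apply]

omit [T2Space M] [CompactSpace M] in
theorem Tri.tile_basic : (∀ v, IsClosed (K.tile v)) ∧ (∀ x, ∃ v, x ∈ K.tile v) ∧
    (∀ v x, x ∈ K.tile v → 0 < K.lam x v) ∧ (∀ v, K.pt v ∈ K.tile v) ∧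
    (∀ u v x, x ∈ K.tile u → x ∈ K.tile v → u = v ∨ Adj K.T u v) ∧
    (∀ v x, x ∈ K.tile v → ∃ t ∈ K.T, x ∈ K.face t ∧ K.pt v ∈ K.face t ∧ v ∈ t) ∧
    ∀ u v, u ≠ v → K.tile u ∩ K.tile v = ⋃ t ∈ {t ∈ K.T | u ∈ t ∧ v ∈ t}, K.seg {u, v} t := by
  have hc := continuous_pi_iff.1 (continuousOn_univ.1 K.cont)
  refine ⟨fun v => ?_, fun x => ?_, fun v x => c1_pos K, fun v => ⟨trivial, fun w => ?_⟩,
    fun u v x hu hv => ?_, fun v x hx => ?_, fun u v h => Subset.antisymm (fun x hx => ?_) ?_⟩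
  · rw [show K.tile v = ⋂ w, {x | K.lam x w ≤ K.lam x v} by ext; simp only [tile, mem_univ, true_and, mem_ofPred_eq, mem_iInter]]
    exact isClosed_iInter fun w => isClosed_le (hc w) (hc v)
  · obtain ⟨t, ht, -⟩ := (K.basic (mem_univ x)).2.2
    obtain ⟨a, -⟩ := Finset.card_pos.1 (by rw [K.card t ht]; norm_num : 0 < t.card)
    obtain ⟨v, -, hv⟩ := Finset.exists_max_image Finset.univ (K.lam x) ⟨a, Finset.mem_univ a⟩
    exact ⟨v, trivial, fun w => hv w (Finset.mem_univ w)⟩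
  · rw [K.lam_pt, Pi.single_eq_same, Pi.single_apply]
    split_ifs
    exacts [le_rfl, zero_le_one]
  · obtain ⟨t, ht, hx⟩ := (K.basic (mem_univ x)).2.2
    exact or_iff_not_imp_left.2 fun h => ⟨h, t, ht, c1_mem K hu hx, c1_mem K hv hx⟩
  · obtain ⟨t, ht, h⟩ := (K.basic (mem_univ x)).2.2
    refine ⟨t, ht, h, ⟨trivial, fun w hw => ?_⟩, c1_mem K hx h⟩
    rw [K.lam_pt, Pi.single_eq_of_ne fun e : w = v => hw (e ▸ c1_mem K hx h)]
  · obtain ⟨t, ht, g⟩ := (K.basic (mem_univ x)).2.2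
    exact mem_iUnion₂.2 ⟨t, by simp [ht, c1_mem K hx.1 g, c1_mem K hx.2 g],
      c1_pair K ht h (c1_mem K hx.1 g) (c1_mem K hx.2 g) g hx.1 hx.2⟩
  · exact iUnion₂_subset fun t _ x hx =>
      ⟨⟨trivial, hx.2.1 u (by simp)⟩, ⟨trivial, hx.2.1 v (by simp)⟩⟩

theorem Tri.seg_arc {s s' t : Finset K.V} (ht : t ∈ K.T) (hs : s ⊆ s') (hs' : s' ⊆ t)
    (hn : s.Nonempty) (hc : s'.card = s.card + 1) {p q : M} (hp : p ∈ K.ctr s)
    (hq : q ∈ K.ctr s') : Arc (K.seg s s') p q := by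
  have : Nonempty M := ⟨p⟩
  obtain ⟨σ, h1, h2⟩ := K.exists_inv isCompact_univ
  obtain ⟨p1, p2, -⟩ := c1_ctr K hp
  obtain ⟨q1, q2, q3⟩ := c1_ctr K hq
  have key : ∀ y ∈ segment ℝ (K.lam p) (K.lam q), ∃ x ∈ K.seg s s', K.lam x = y := by
    rintro _ ⟨a, b, ha, hb, hab, rfl⟩
    have z : ∀ v, v ∉ s' → (a • K.lam p + b • K.lam q) v = 0 := fun v hv => by
      simp [(c1_mono K hs p1).2 v hv, q1.2 v hv]
    have : a • K.lam p + b • K.lam q ∈ K.lam '' univ := by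
      rw [K.img]
      exact ⟨convex_stdSimplex ℝ _ ⟨(K.basic p1.1).1, (K.basic p1.1).2.1⟩
        ⟨(K.basic q1.1).1, (K.basic q1.1).2.1⟩ ha hb hab, t, ht, fun v hv => z v fun g => hv (hs' g)⟩
    obtain ⟨x, -, hx⟩ := this
    refine ⟨x, (c1_seg K hs hc).2 ⟨⟨trivial, hx ▸ z⟩, fun v hv => ⟨trivial, fun w => ?_⟩⟩, hx⟩
    rw [hx]
    exact add_le_add (mul_le_mul_of_nonneg_left ((p2 v hv).2 w) ha)
      (mul_le_mul_of_nonneg_left ((q2 v (hs hv)).2 w) hb)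
  obtain ⟨a, ha, rfl⟩ := Finset.exists_eq_insert_iff.2 ⟨hs, hc.symm⟩
  have h := a2_map (a2_seg (a := K.lam p) (b := K.lam q) fun e =>
    q3 a (by simp) (e ▸ p1.2 a ha)) (h1.mono fun y hy => (key y hy).imp fun x hx => ⟨trivial, hx.2⟩)
    fun y hy y' hy' e => by
      obtain ⟨x, -, rfl⟩ := key y hy
      obtain ⟨x', -, rfl⟩ := key y' hy'
      rw [h2 x trivial, h2 x' trivial] at e
      rw [e]
  rw [h2 p trivial, h2 q trivial] at h
  convert h using 1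
  refine Subset.antisymm (fun x hx => ⟨K.lam x, ?_, h2 x trivial⟩) ?_
  · obtain ⟨g1, g2⟩ := (c1_seg K hs hc).1 hx
    obtain ⟨u, hu⟩ := hn
    have n0 : (0 : ℝ) < s.card := Nat.cast_pos.2 (Finset.card_pos.2 ⟨u, hu⟩)
    have e : ∀ v ∈ s, K.lam x a + s.card * K.lam x v = 1 := fun v hv => by
      rw [← (K.basic g1.1).2.1, ← Finset.sum_subset (Finset.subset_univ _)
        fun b _ hb => g1.2 b hb, Finset.sum_insert ha,
        Finset.sum_congr rfl fun b hb => le_antisymm ((g2 v hv).2 b) ((g2 b hb).2 v),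
        Finset.sum_const, nsmul_eq_mul]
    refine ⟨1 - (s.card + 1) * K.lam x a, (s.card + 1) * K.lam x a, ?_,
      mul_nonneg (by positivity) ((K.basic g1.1).1 a), by ring, funext fun v => ?_⟩
    · nlinarith only [e u hu, (g2 u hu).2 a]
    · simp only [Pi.add_apply, Pi.smul_apply, smul_eq_mul, hp.2 v, hq.2 v, hc]
      push_cast
      by_cases hv : v ∈ s
      · rw [if_pos hv, if_pos (hs hv)]
        field_simp
        linear_combination -e v hv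
      · by_cases hv' : v = a
        · rw [if_neg hv, if_pos (by simp [hv']), hv']
          field_simp
          ring
        · have : v ∉ insert a s := by simp [hv, hv']
          rw [if_neg hv, if_neg this, g1.2 v this]
          ring
  · rintro _ ⟨y, hy, rfl⟩
    obtain ⟨x, hx, rfl⟩ := key y hy
    rwa [h2 x trivial]

theorem Tri.quad_dsc {v a b : K.V} (ht : {v, a, b} ∈ K.T) :
    Dsc (K.tile v ∩ K.face {v, a, b}) (K.seg {v} {v, a} ∪ K.seg {v} {v, b} ∪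
      K.seg {v, a} {v, a, b} ∪ K.seg {v, b} {v, a, b}) := by
  obtain ⟨h1, h2, h3⟩ := a9_ne (K.card _ ht)
  obtain ⟨g, hg⟩ : ∃ g : ℂ → ℝ, g = fun z => (1 + |z.re| + |z.im|)⁻¹ := ⟨_, rfl⟩
  have g0 : ∀ z, 0 < g z := fun z => by rw [hg]; positivity
  have gc : Continuous g := hg ▸ Continuous.inv₀ (by fun_prop) fun z => by positivity
  have g1 : ∀ z ∈ Icc (0 : ℝ) 1 ×ℂ Icc (0 : ℝ) 1, g z + z.re * g z + z.im * g z = 1 := fun z hz => by
    have a1 := hz.1.1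
    have a2 := hz.2.1
    rw [hg]
    dsimp only
    rw [abs_of_nonneg a1, abs_of_nonneg a2]
    field_simp
  set y : ℂ → K.V → ℝ := fun z =>
    Pi.single v (g z) + Pi.single a (z.re * g z) + Pi.single b (z.im * g z) with hy
  have yv : ∀ z, y z v = g z := fun z => by simp [hy, h1, h2]
  have ya : ∀ z, y z a = z.re * g z := fun z => by simp [hy, h1.symm, h3]
  have yb : ∀ z, y z b = z.im * g z := fun z => by simp [hy, h2.symm, h3.symm]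
  have y0 : ∀ z c, c ∉ ({v, a, b} : Finset K.V) → y z c = 0 := fun z c hc => by
    simp only [Finset.mem_insert, Finset.mem_singleton, not_or] at hc
    simp [hy, hc]
  obtain ⟨Ψ, hc, hΨ⟩ := a9_param K isCompact_univ v (S := Icc (0 : ℝ) 1 ×ℂ Icc (0 : ℝ) 1) (y := y)
    (((a9_cs v gc).add (a9_cs a (by fun_prop))).add (a9_cs b (by fun_prop)))
    (fun z hz c => add_nonneg (add_nonneg (a9_sn v c (g0 z).le)
      (a9_sn a c (mul_nonneg hz.1.1 (g0 z).le))) (a9_sn b c (mul_nonneg hz.2.1 (g0 z).le)))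
    (fun z hz => by simp only [hy, Pi.add_apply, Finset.sum_add_distrib, Finset.sum_pi_single', Finset.mem_univ, ↓ reduceIte, g1 z hz]) fun z _ => ⟨_, ht, y0 z⟩
  have m : ∀ z ∈ Icc (0 : ℝ) 1 ×ℂ Icc (0 : ℝ) 1, Ψ z ∈ K.tile v ∩ K.face {v, a, b} := fun z hz => by
    refine ⟨⟨trivial, fun c => ?_⟩, trivial, fun c hc => by rw [(hΨ z hz).2, y0 z c hc]⟩
    rw [(hΨ z hz).2, yv]
    by_cases hc : c ∈ ({v, a, b} : Finset K.V)
    · simp only [Finset.mem_insert, Finset.mem_singleton] at hc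
      rcases hc with rfl | rfl | rfl
      · rw [yv]
      · rw [ya]
        exact mul_le_of_le_one_left (g0 z).le hz.1.2
      · rw [yb]
        exact mul_le_of_le_one_left (g0 z).le hz.2.2
    · rw [y0 z c hc]
      exact (g0 z).le
  have su : ∀ x ∈ K.tile v ∩ K.face {v, a, b}, ∃ z ∈ Icc (0 : ℝ) 1 ×ℂ Icc (0 : ℝ) 1, Ψ z = x := by
    rintro x ⟨x1, x2⟩
    have p := c1_pos K x1
    have n := (K.basic x1.1).1
    have hz : (⟨K.lam x a / K.lam x v, K.lam x b / K.lam x v⟩ : ℂ) ∈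
        Icc (0 : ℝ) 1 ×ℂ Icc (0 : ℝ) 1 :=
      ⟨⟨div_nonneg (n a) p.le, (div_le_one p).2 (x1.2 a)⟩,
        div_nonneg (n b) p.le, (div_le_one p).2 (x1.2 b)⟩
    have e : g ⟨K.lam x a / K.lam x v, K.lam x b / K.lam x v⟩ = K.lam x v := by
      have e1 := g1 _ hz
      have e2 := a9_sum K h1 h2 h3 x2
      dsimp only at e1
      field_simp at e1
      rw [e2, mul_one] at e1
      exact e1
    exact ⟨_, hz, K.inj trivial trivial ((hΨ _ hz).2.trans (a9_ext K x2 (y0 _) ((yv _).trans e)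
      (by rw [ya, e]; exact div_mul_cancel₀ _ p.ne') (by rw [yb, e]; exact div_mul_cancel₀ _ p.ne')))⟩
  have t1 : ∀ z ∈ Icc (0 : ℝ) 1 ×ℂ Icc (0 : ℝ) 1, ∀ c r, y z c = r * g z →
      (K.lam (Ψ z) c = 0 ∨ Ψ z ∈ K.tile c ↔ r ∈ ({0, 1} : Set ℝ)) := fun z hz c r e => by
    refine or_congr (by rw [(hΨ z hz).2, e, mul_eq_zero, or_iff_left (g0 z).ne']) ⟨fun h => ?_, fun h => ?_⟩
    · have := le_antisymm ((m z hz).1.2 c) (h.2 v)
      rw [(hΨ z hz).2, e, yv] at this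
      exact mul_right_cancel₀ (g0 z).ne' (this.trans (one_mul _).symm)
    · refine ⟨trivial, fun w => ((m z hz).1.2 w).trans_eq ?_⟩
      rw [(hΨ z hz).2, e, yv, mem_singleton_iff.1 h, one_mul]
  have h := dsc_convex (isCompact_Icc.reProdIm isCompact_Icc)
    (((convex_Icc 0 1).linear_preimage Complex.reLm).inter
      ((convex_Icc 0 1).linear_preimage Complex.imLm))
    ⟨⟨1 / 2, 1 / 2⟩, by
      rw [Complex.interior_reProdIm, interior_Icc]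
      exact ⟨by norm_num, by norm_num⟩⟩ hc fun z hz z' hz' e => by
    have e' : y z = y z' := by rw [← (hΨ z hz).2, e, (hΨ z' hz').2]
    have e1 : g z = g z' := by rw [← yv, e', yv]
    exact Complex.ext (mul_right_cancel₀ (g0 z).ne' (by rw [← ya, e', ya, e1]))
      (mul_right_cancel₀ (g0 z).ne' (by rw [← yb, e', yb, e1]))
  rw [Complex.frontier_reProdIm, closure_Icc, frontier_Icc zero_le_one] at h
  have i1 : ({0, 1} : Set ℝ) ⊆ Icc 0 1 := pair_subset (by simp only [mem_Icc, Std.le_refl, zero_le_one, and_self]) (by simp only [mem_Icc, zero_le_one, Std.le_refl, and_self])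
  convert h using 1
  · exact Subset.antisymm su (image_subset_iff.2 m)
  rw [← c1_bd_eq K ht]
  refine Subset.antisymm ?_ ?_
  · rintro x ⟨hx, c, hc, hv, g⟩
    obtain ⟨z, hz, rfl⟩ := su x hx
    have hc' : c = a ∨ c = b := by simpa [hv] using hc
    rcases hc' with rfl | rfl
    · exact ⟨z, .inr ⟨(t1 z hz c _ (ya z)).1 g, hz.2⟩, rfl⟩
    · exact ⟨z, .inl ⟨hz.1, (t1 z hz c _ (yb z)).1 g⟩, rfl⟩
  · rintro _ ⟨z, hz | hz, rfl⟩
    · exact ⟨m z ⟨hz.1, i1 hz.2⟩, b, by simp, h2.symm, (t1 z ⟨hz.1, i1 hz.2⟩ b _ (yb z)).2 hz.2⟩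
    · exact ⟨m z ⟨i1 hz.1, hz.2⟩, a, by simp, h1.symm, (t1 z ⟨i1 hz.1, hz.2⟩ a _ (ya z)).2 hz.1⟩

omit [T2Space M] [CompactSpace M] in
/-- The frontier inside a mixed triangle consists of two segments. -/
theorem Tri.J_eq (H : Set K.V) {t : Finset K.V} (ht : t ∈ K.T) :
    K.J H t = {x | ∃ w ∈ t, ∃ v ∈ t, w ∈ H ∧ v ∉ H ∧ x ∈ K.seg {w, v} t} := by
  refine Subset.antisymm ?_ ?_
  · rintro x ⟨⟨h1, h2⟩, h3⟩
    obtain ⟨w, hw, h2⟩ := mem_iUnion₂.1 h2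
    obtain ⟨v, hv, h3⟩ := mem_iUnion₂.1 h3
    exact ⟨w, c1_mem K h2 h1, v, c1_mem K h3 h1, hw, hv,
      c1_pair K ht (fun e : w = v => hv (e ▸ hw)) (c1_mem K h2 h1) (c1_mem K h3 h1) h1 h2 h3⟩
  · rintro x ⟨w, -, v, -, hw, hv, h⟩
    exact ⟨⟨h.1, mem_iUnion₂.2 ⟨w, hw, trivial, h.2.1 w (by simp)⟩⟩,
      mem_iUnion₂.2 ⟨v, hv, trivial, h.2.1 v (by simp)⟩⟩

omit [T2Space M] [CompactSpace M] in
/-- The vertices whose dual cells meet a connected set form a connected set. -/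
theorem Tri.conn_tiles (H : Set K.V) {C : Set M} (hC : IsPreconnected C) (hH : C ⊆ K.N H) :
    Conn K.T {v ∈ H | (K.tile v ∩ C).Nonempty} := by
  intro u hu v hv
  set S := {v ∈ H | (K.tile v ∩ C).Nonempty}
  refine by_contra fun g => ?_
  have cl : ∀ R : Set K.V, IsClosed (K.N R) := fun R =>
    R.toFinite.isClosed_biUnion fun w _ => K.tile_basic.1 w
  obtain ⟨x, -, h1, h2⟩ := isPreconnected_closed_iff.1 hC _ _ (cl {w | Jn K.T S u w})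
    (cl {w ∈ S | ¬ Jn K.T S u w}) (fun x hx => by
      obtain ⟨w, hw, h⟩ := mem_iUnion₂.1 (hH hx)
      by_cases e : Jn K.T S u w
      · exact .inl (mem_iUnion₂.2 ⟨w, e, h⟩)
      · exact .inr (mem_iUnion₂.2 ⟨w, ⟨⟨hw, x, h, hx⟩, e⟩, h⟩))
    (hu.2.imp fun x hx => ⟨hx.2, mem_iUnion₂.2 ⟨u, ⟨hu, .refl⟩, hx.1⟩⟩)
    (hv.2.imp fun x hx => ⟨hx.2, mem_iUnion₂.2 ⟨v, ⟨hv, g⟩, hx.1⟩⟩)
  obtain ⟨w, hw, h1⟩ := mem_iUnion₂.1 h1
  obtain ⟨w', hw', h2⟩ := mem_iUnion₂.1 h2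
  rcases K.tile_basic.2.2.2.2.1 w w' x h1 h2 with rfl | e
  · exact hw'.2 hw
  · exact hw'.2 ⟨hu, hw.2.tail ⟨hw'.1, e⟩⟩

theorem Tri.tile_cells (H : Set K.V) : ∃ C : Cells (K.N H),
    C.P = {p | ∃ s : Finset K.V, (∃ t ∈ K.T, s ⊆ t) ∧ (∃ v ∈ s, v ∈ H) ∧ p ∈ K.ctr s} ∧
    C.E = {e | ∃ s s' : Finset K.V, (∃ t ∈ K.T, s' ⊆ t) ∧ s ⊆ s' ∧ s'.card = s.card + 1 ∧
      (∃ v ∈ s, v ∈ H) ∧ e = K.seg s s'} ∧
    C.D = {d | ∃ v ∈ H, ∃ t ∈ K.T, v ∈ t ∧ d = (K.tile v ∩ K.face t, c1_bd K v t)} := by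
  refine ⟨⟨_, _, {d | ∃ v ∈ H, ∃ t ∈ K.T, v ∈ t ∧ d = (K.tile v ∩ K.face t, c1_bd K v t)}, ?_, ?_, ?_,
    ?_, ?_, ?_, ?_, ?_, ?_, ?_, ?_, ?_⟩, rfl, rfl, rfl⟩
  · exact (finite_iUnion fun s => (c1_sub K s).finite).subset
      fun p ⟨s, _, _, h⟩ => mem_iUnion.2 ⟨s, h⟩
  · exact (finite_range fun p : Finset K.V × Finset K.V => K.seg p.1 p.2).subset
      fun e ⟨s, s', _, _, _, _, h⟩ => ⟨(s, s'), h.symm⟩
  · exact (finite_range fun p : K.V × Finset K.V =>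
      (K.tile p.1 ∩ K.face p.2, c1_bd K p.1 p.2)).subset fun d ⟨v, _, t, _, _, h⟩ => ⟨(v, t), h.symm⟩
  · rintro _ ⟨s, s', ⟨t, ht, h1⟩, h2, h3, ⟨v, hv, hv'⟩, rfl⟩
    obtain ⟨p, hp⟩ := K.ctr_single ht (h2.trans h1) ⟨v, hv⟩
    obtain ⟨q, hq⟩ := K.ctr_single ht h1 ⟨v, h2 hv⟩
    have mp : p ∈ K.ctr s := hp ▸ rfl
    have mq : q ∈ K.ctr s' := hq ▸ rfl
    have h := K.seg_arc ht h2 h1 ⟨v, hv⟩ h3 mp mq
    refine ⟨p, q, h, Subset.antisymm ?_ (pair_subset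
      ⟨h.basic.2.2.1, s, ⟨t, ht, h2.trans h1⟩, ⟨v, hv, hv'⟩, mp⟩
      ⟨h.basic.2.2.2.1, s', ⟨t, ht, h1⟩, ⟨v, h2 hv, hv'⟩, mq⟩)⟩
    rintro x ⟨hx, r, -, -, hr⟩
    obtain ⟨r1, r2, -⟩ := c1_ctr K hr
    rcases c1_key K h2 h3 hx with g | g | ⟨g1, g2⟩
    · exact .inl (c1_sub K s g mp)
    · exact .inr (c1_sub K s' g mq)
    · have := Finset.card_le_card (show s' ⊆ s from fun w hw =>
        (g1 w).2 (r2 w (by_contra fun e => (g2 w).1 hw (r1.2 w e))))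
      omega
  · rintro _ ⟨s, s', ⟨t, ht, h1⟩, h2, h3, ⟨v, hv, hv'⟩, rfl⟩ _
      ⟨r, r', ⟨t', ht', k1⟩, k2, k3, ⟨w, hw, hw'⟩, rfl⟩ ne x ⟨hx, hx'⟩
    rcases c1_key K h2 h3 hx with g | g | ⟨g1, g2⟩
    · exact ⟨s, ⟨t, ht, h2.trans h1⟩, ⟨v, hv, hv'⟩, g⟩
    · exact ⟨s', ⟨t, ht, h1⟩, ⟨v, h2 hv, hv'⟩, g⟩
    rcases c1_key K k2 k3 hx' with g | g | ⟨g3, g4⟩
    · exact ⟨r, ⟨t', ht', k2.trans k1⟩, ⟨w, hw, hw'⟩, g⟩
    · exact ⟨r', ⟨t', ht', k1⟩, ⟨w, k2 hw, hw'⟩, g⟩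
    · exact absurd (by rw [Finset.ext fun a => (g1 a).trans (g3 a).symm,
        Finset.ext fun a => (g2 a).trans (g4 a).symm]) ne
  · rintro _ ⟨v, -, t, ht, hv, rfl⟩
    obtain ⟨a, b, rfl⟩ := c1_three K ht hv
    rw [c1_bd_eq K ht]
    exact K.quad_dsc ht
  · rintro _ ⟨v, hH, t, ht, hv, rfl⟩ x hx
    obtain ⟨a, b, rfl⟩ := c1_three K ht hv
    obtain ⟨h1, h2, h3⟩ := a9_ne (K.card _ ht)
    rw [c1_bd_eq K ht] at hx ⊢
    rcases hx with ((h | h) | h) | h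
    · exact ⟨_, ⟨{v}, {v, a}, ⟨_, ht, by simp [Finset.insert_subset_iff]⟩, by simp,
        by simp [Finset.card_pair h1], ⟨v, by simp, hH⟩, rfl⟩, h, fun _ g => .inl (.inl (.inl g))⟩
    · exact ⟨_, ⟨{v}, {v, b}, ⟨_, ht, by simp [Finset.insert_subset_iff]⟩, by simp,
        by simp [Finset.card_pair h2], ⟨v, by simp, hH⟩, rfl⟩, h, fun _ g => .inl (.inl (.inr g))⟩
    · exact ⟨_, ⟨{v, a}, {v, a, b}, ⟨_, ht, subset_rfl⟩, by simp [Finset.insert_subset_iff],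
        by rw [K.card _ ht, Finset.card_pair h1], ⟨v, by simp, hH⟩, rfl⟩, h,
        fun _ g => .inl (.inr g)⟩
    · exact ⟨_, ⟨{v, b}, {v, a, b}, ⟨_, ht, subset_rfl⟩, by simp [Finset.insert_subset_iff],
        by rw [K.card _ ht, Finset.card_pair h2], ⟨v, by simp, hH⟩, rfl⟩, h, fun _ g => .inr g⟩
  · rintro _ ⟨v, -, t, ht, -, rfl⟩ _ ⟨s, s', -, h2, h3, -, rfl⟩ x hx
    exact c1_in K ht h2 h3 hx.1 hx.2
  · rintro _ ⟨v, -, t, ht, -, rfl⟩ _ ⟨v', -, t', ht', -, rfl⟩ ne x ⟨hx, hx'⟩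
    refine ⟨hx, by_contra fun g => ne ?_⟩
    push Not at g
    obtain rfl : v' = v := by_contra fun e => (g v' (c1_mem K hx'.1 hx.2) e).2 hx'.1
    obtain rfl : t = t' := Finset.eq_of_subset_of_card_le (fun a ha => by_contra fun e => by
      by_cases e' : a = v'
      · exact e (e' ▸ c1_mem K hx.1 hx'.2)
      · exact (g a ha e').1 (hx'.2.2 a e)) (by rw [K.card t ht, K.card t' ht'])
    rfl
  · rintro p ⟨s, ⟨t, ht, h1⟩, ⟨v, hv, hv'⟩, hp⟩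
    obtain ⟨p1, p2, -⟩ := c1_ctr K hp
    rcases h1.eq_or_ssubset with rfl | h
    · obtain ⟨a, ha, h⟩ := Finset.exists_mem_ne (by rw [K.card s ht]; norm_num : 1 < s.card) v
      exact ⟨_, ⟨{v, a}, s, ⟨s, ht, subset_rfl⟩, by simp [Finset.insert_subset_iff, hv, ha],
        by rw [K.card _ ht, Finset.card_pair h.symm], ⟨v, by simp, hv'⟩, rfl⟩,
        c1_pair K ht h.symm hv ha p1 (p2 v hv) (p2 a ha)⟩
    · obtain ⟨a, ha, h⟩ := Finset.exists_of_ssubset h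
      exact ⟨_, ⟨s, insert a s, ⟨t, ht, Finset.insert_subset ha h1⟩, Finset.subset_insert _ _,
        Finset.card_insert_of_notMem h, ⟨v, hv, hv'⟩, rfl⟩,
        (c1_seg K (Finset.subset_insert _ _) (Finset.card_insert_of_notMem h)).2
          ⟨c1_mono K (Finset.subset_insert _ _) p1, p2⟩⟩
  · rintro _ ⟨s, s', ⟨t, ht, h1⟩, h2, h3, ⟨v, hv, hv'⟩, rfl⟩
    exact ⟨_, ⟨v, hv', t, ht, h1 (h2 hv), rfl⟩, fun x hx =>
      c1_in K ht h2 h3 ⟨⟨trivial, hx.2.1 v hv⟩, c1_mono K h1 hx.1⟩ hx⟩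
  · refine Subset.antisymm (iUnion₂_subset ?_) (iUnion₂_subset fun v hv x hx => ?_)
    · rintro _ ⟨v, hv, t, -, -, rfl⟩ x hx
      exact mem_iUnion₂.2 ⟨v, hv, hx.1⟩
    · obtain ⟨t, ht, h, -, h'⟩ := K.tile_basic.2.2.2.2.2.1 v x hx
      exact mem_iUnion₂.2 ⟨_, ⟨v, hv, t, ht, h', rfl⟩, hx, h⟩

end Pool.Agent.MP_17e62b_gt.T55

end

section

/-!
The dual region of a connected acyclic set of vertices is a disc.
-/

namespace Pool.Agent.MP_17e62b_gt.T55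

open Set Metric Topology
open scoped InnerProductSpace Manifold

variable {M : Type} [TopologicalSpace M] [T2Space M] [CompactSpace M] (K : Tri (univ : Set M))

/-- `y` lies in the quadrilateral of the flag `r`. -/
def c2_F (r : K.V × Finset K.V) (y : M) : Prop := r.2 ∈ K.T ∧ y ∈ K.tile r.1 ∧ y ∈ K.face r.2

/-- A union of quadrilaterals. -/
def c2_D (P : Set (K.V × Finset K.V)) : Set M := {y | ∃ r ∈ P, c2_F K r y}

/-- The largest coordinates are those of `a`, the positive ones those of `s`. -/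
def c2_C (a s : Finset K.V) : Set M :=
  {y | (∀ u, y ∈ K.tile u ↔ u ∈ a) ∧ ∀ t, y ∈ K.face t ↔ s ⊆ t}

theorem c2_in {x : M} {v : K.V} {t : Finset K.V} (h : x ∈ K.tile v) (h' : x ∈ K.face t) : v ∈ t :=
  by_contra fun e => (K.tile_basic.2.2.1 v x h).ne' (h'.2 v e)

theorem c2_closed (P : Set (K.V × Finset K.V)) : IsClosed (c2_D K P) := by
  have e : c2_D K P = ⋃ r ∈ {r ∈ P | r.2 ∈ K.T}, K.tile r.1 ∩ ⋂ v ∈ {v | v ∉ r.2},
      {x | K.lam x v = 0} := by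
    ext y
    simp only [c2_D, c2_F, Tri.face, mem_iUnion, mem_inter_iff, mem_iInter, mem_ofPred, exists_prop,
      and_assoc, mem_univ, true_and]
  rw [e]
  exact (toFinite _).isClosed_biUnion fun r _ => (K.tile_basic.1 _).inter (isClosed_biInter
    fun v _ => isClosed_eq ((continuous_apply v).comp (continuousOn_univ.1 K.cont)) continuous_const)

omit [T2Space M] [CompactSpace M] in
theorem c2_N (H : Set K.V) : K.N H = c2_D K {r | r.1 ∈ H} := by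
  ext y
  simp only [Tri.N, mem_iUnion, c2_D, mem_ofPred]
  refine ⟨fun ⟨v, hv, h⟩ => ?_, fun ⟨r, hr, h⟩ => ⟨_, hr, h.2.1⟩⟩
  obtain ⟨t, ht, h'⟩ := (K.basic (mem_univ y)).2.2
  exact ⟨(v, t), hv, ht, h, h'⟩

theorem c2_z {V : Type} [Fintype V] [DecidableEq V] {a s : Finset V} (ha : a.Nonempty) (h : a ⊆ s) :
    ∃ z ∈ stdSimplex ℝ V, (∀ u, u ∉ s → z u = 0) ∧ (∀ u ∈ s, 0 < z u) ∧
      (∀ u ∈ a, ∀ w, z w ≤ z u) ∧ ∀ u ∈ a, ∀ w, w ∉ a → z w < z u := by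
  have h0 : (0 : ℝ) < a.card + s.card :=
    add_pos_of_pos_of_nonneg (Nat.cast_pos.2 ha.card_pos) (Nat.cast_nonneg _)
  refine ⟨fun u => ((if u ∈ a then 1 else 0) + if u ∈ s then 1 else 0) / (a.card + s.card),
    ⟨fun u => ?_, ?_⟩, fun u hu => ?_, fun u hu => ?_, fun u hu w => ?_, fun u hu w hw => ?_⟩
  · dsimp only
    split_ifs <;> positivity
  · rw [← Finset.sum_div, Finset.sum_add_distrib]
    simp only [Finset.sum_ite_mem, Finset.univ_inter, Finset.sum_const, nsmul_eq_mul, mul_one, ne_eq, h0.ne', not_false_eq_true, div_self]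
  · simp [hu, mt (@h u) hu]
  · simp only [hu, if_true]
    split_ifs <;> positivity
  · refine div_le_div_of_nonneg_right ?_ h0.le
    rw [if_pos hu, if_pos (h hu)]
    split_ifs <;> norm_num
  · refine div_lt_div_of_pos_right ?_ h0
    rw [if_pos hu, if_pos (h hu), if_neg hw]
    split_ifs <;> norm_num

omit [T2Space M] [CompactSpace M] in
theorem c2_cell {a s : Finset K.V} (ha : a.Nonempty) {y : M} (h1 : ∀ u, u ∉ s → K.lam y u = 0)
    (h2 : ∀ u ∈ s, 0 < K.lam y u) (h3 : ∀ u ∈ a, ∀ w, K.lam y w ≤ K.lam y u)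
    (h4 : ∀ u ∈ a, ∀ w, w ∉ a → K.lam y w < K.lam y u) : y ∈ c2_C K a s := by
  obtain ⟨b, hb⟩ := ha
  exact ⟨fun u => ⟨fun h => by_contra fun e => (h4 b hb u e).not_ge (h.2 b),
    fun h => ⟨trivial, h3 u h⟩⟩, fun t => ⟨fun h u hu => by_contra fun e => (h2 u hu).ne' (h.2 u e),
      fun h => ⟨trivial, fun u hu => h1 u fun e => hu (h e)⟩⟩⟩

omit [T2Space M] [CompactSpace M] in
theorem c2_pt {a t : Finset K.V} (ht : t ∈ K.T) (ha : a.Nonempty) (h : a ⊆ t) :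
    ∃ y, y ∈ c2_C K a a := by
  obtain ⟨z, z0, z1, z2, z3, z4⟩ := c2_z ha (Finset.Subset.refl a)
  obtain ⟨y, -, rfl⟩ := K.img.symm.subset ⟨z0, t, ht, fun u hu => z1 u fun e => hu (h e)⟩
  exact ⟨y, c2_cell K ha z1 z2 z3 z4⟩

theorem c2_move {a s t : Finset K.V} (ht : t ∈ K.T) (ha : a.Nonempty) (h : a ⊆ s) (hs : s ⊆ t)
    {x : M} (h1 : ∀ u ∈ a, x ∈ K.tile u) (h2 : x ∈ K.face s) : x ∈ closure (c2_C K a s) := by
  obtain ⟨z, z0, z1, z2, z3, z4⟩ := c2_z ha h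
  have : Nonempty M := ⟨x⟩
  obtain ⟨σ, hc, hσ⟩ := K.exists_inv isCompact_univ
  obtain ⟨x0, x1, -⟩ := K.basic (mem_univ x)
  have hm : ∀ r ∈ Icc (0 : ℝ) 1, (1 - r) • K.lam x + r • z ∈ K.lam '' univ := fun r hr =>
    K.img.symm.subset ⟨convex_stdSimplex ℝ _ ⟨x0, x1⟩ z0 (sub_nonneg.2 hr.2) hr.1 (by ring), t, ht,
      fun u hu => by simp [h2.2 u fun e => hu (hs e), z1 u fun e => hu (hs e)]⟩
  have h3 : ContinuousOn (fun r : ℝ => σ ((1 - r) • K.lam x + r • z)) (Icc 0 1) :=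
    hc.comp (by fun_prop) hm
  have h4 := ((h3 0 (by simp only [mem_Icc, Std.le_refl, zero_le_one, and_self])).mono Ioc_subset_Icc_self).mem_closure_image (by simp only [ne_eq, zero_ne_one, not_false_eq_true, closure_Ioc, mem_Icc, Std.le_refl, zero_le_one, and_self])
  simp only [sub_zero, one_smul, zero_smul, add_zero, hσ x trivial] at h4
  refine closure_mono ?_ h4
  rintro _ ⟨r, hr, rfl⟩
  obtain ⟨y, -, e⟩ := hm r (Ioc_subset_Icc_self hr)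
  have e' : ∀ u, K.lam y u = (1 - r) * K.lam x u + r * z u := fun u => congrFun e u
  have r1 := sub_nonneg.2 hr.2
  dsimp only
  rw [← e, hσ y trivial]
  refine c2_cell K ha (fun u hu => ?_) (fun u hu => ?_) (fun u hu w => ?_) fun u hu w hw => ?_
  · rw [e', h2.2 u hu, z1 u hu, mul_zero, mul_zero, add_zero]
  · rw [e']
    exact add_pos_of_nonneg_of_pos (mul_nonneg r1 (x0 u)) (mul_pos hr.1 (z2 u hu))
  · rw [e', e']
    exact add_le_add (mul_le_mul_of_nonneg_left ((h1 u hu).2 w) r1)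
      (mul_le_mul_of_nonneg_left (z3 u hu w) hr.1.le)
  · rw [e', e']
    exact add_lt_add_of_le_of_lt (mul_le_mul_of_nonneg_left ((h1 u hu).2 w) r1)
      (mul_lt_mul_of_pos_left (z4 u hu w hw) hr.1)

theorem c2_conn (a : Finset K.V) {s t : Finset K.V} (ht : t ∈ K.T) (hs : s ⊆ t) :
    IsPreconnected {x | (∀ u ∈ a, x ∈ K.tile u) ∧ x ∈ K.face s} := by
  rcases isEmpty_or_nonempty M with h | h
  · exact Set.subsingleton_of_subsingleton.isPreconnected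
  obtain ⟨σ, hc, hσ⟩ := K.exists_inv isCompact_univ
  have hm : {y ∈ stdSimplex ℝ K.V | (∀ u ∈ a, ∀ w, y w ≤ y u) ∧ ∀ u, u ∉ s → y u = 0} ⊆
      K.lam '' univ := fun y hy =>
    K.img.symm.subset ⟨hy.1, t, ht, fun u hu => hy.2.2 u fun e => hu (hs e)⟩
  have hv : Convex ℝ {y ∈ stdSimplex ℝ K.V | (∀ u ∈ a, ∀ w, y w ≤ y u) ∧ ∀ u, u ∉ s → y u = 0} :=
    fun x hx y hy p q hp hq e => ⟨convex_stdSimplex ℝ _ hx.1 hy.1 hp hq e, fun u hu w =>
      add_le_add (mul_le_mul_of_nonneg_left (hx.2.1 u hu w) hp)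
        (mul_le_mul_of_nonneg_left (hy.2.1 u hu w) hq),
      fun u hu => by simp [hx.2.2 u hu, hy.2.2 u hu]⟩
  convert hv.isPreconnected.image σ (hc.mono hm) using 1
  ext x
  constructor
  · rintro ⟨h1, h2⟩
    obtain ⟨x0, x1, -⟩ := K.basic (mem_univ x)
    exact ⟨_, ⟨⟨x0, x1⟩, fun u hu => (h1 u hu).2, h2.2⟩, hσ x trivial⟩
  · rintro ⟨y, hy, rfl⟩
    obtain ⟨x, -, rfl⟩ := hm hy
    rw [hσ x trivial]
    exact ⟨fun u hu => ⟨trivial, hy.2.1 u hu⟩, trivial, hy.2.2⟩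

theorem c2_front (hT : IsSurf K.T) {P : Set (K.V × Finset K.V)} {x : M} (h : x ∈ c2_D K P)
    (h' : x ∈ c2_D K Pᶜ) : x ∈ closure {y | ∃ p ∈ P, ∃ q, q ∉ P ∧ c2_F K p y ∧ c2_F K q y ∧
      ∀ r, c2_F K r y → r = p ∨ r = q} := by
  obtain ⟨⟨v, t⟩, hP, ht, xv, xt⟩ := h
  obtain ⟨⟨v', t'⟩, hP', ht', xv', xt'⟩ := h'
  by_cases h : (v', t) ∈ P
  · obtain ⟨t₁, h1, t₂, h2, w, hw, a1, a2, a3, a4, a5, a6, xw⟩ : ∃ t₁ ∈ K.T, ∃ t₂ ∈ K.T, ∃ w,
        w ≠ v' ∧ v' ∈ t₁ ∧ w ∈ t₁ ∧ v' ∈ t₂ ∧ w ∈ t₂ ∧ (v', t₁) ∈ P ∧ (v', t₂) ∉ P ∧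
          x ∈ K.face {v', w} := by
      by_cases hx : ∃ w, w ≠ v' ∧ K.lam x w ≠ 0
      · obtain ⟨w, hw, hx⟩ := hx
        have m : ∀ u, K.lam x u ≠ 0 → u ∈ t ∧ u ∈ t' := fun u hu =>
          ⟨by_contra fun e => hu (xt.2 u e), by_contra fun e => hu (xt'.2 u e)⟩
        refine ⟨t, ht, t', ht', w, hw, c2_in K xv' xt, (m w hx).1, c2_in K xv' xt', (m w hx).2, h,
          hP', trivial, fun u hu => by_contra fun e => hP' ?_⟩
        have c : ({u, v', w} : Finset K.V).card = 3 := by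
          rw [Finset.card_insert_of_notMem hu, Finset.card_pair hw.symm]
        have e1 : ∀ s ∈ K.T, x ∈ K.face s → u ∈ s → w ∈ s → {u, v', w} = s := fun s hs a b d =>
          Finset.eq_of_subset_of_card_le (by simp [Finset.insert_subset_iff, b, d, c2_in K xv' a])
            (by rw [c, K.card s hs])
        rwa [← e1 t ht xt (m u e).1 (m w hx).1, e1 t' ht' xt' (m u e).2 (m w hx).2] at h
      · by_contra hn
        refine hP' (hT.link v' {s | (v', s) ∈ P} (fun t₁ h1 t₂ h2 w hw a1 a2 a3 a4 a5 => ?_) t ht t'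
          ht' (c2_in K xv' xt) (c2_in K xv' xt') h)
        by_contra a6
        exact hn ⟨t₁, h1, t₂, h2, w, hw, a1, a2, a3, a4, a5, a6, trivial, fun u hu =>
          by_contra fun e => hx ⟨u, fun e' => hu (by simp [e']), e⟩⟩
    refine closure_mono (fun y hy => ?_) (c2_move K (a := {v'}) h1 (by simp) (by simp)
      (by simp [Finset.insert_subset_iff, a1, a2]) (by simpa using xv') xw)
    have y1 := (hy.1 v').2 (by simp)
    refine ⟨_, a5, _, a6, ⟨h1, y1, (hy.2 _).2 (by simp [Finset.insert_subset_iff, a1, a2])⟩,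
      ⟨h2, y1, (hy.2 _).2 (by simp [Finset.insert_subset_iff, a3, a4])⟩, ?_⟩
    rintro ⟨u, s⟩ ⟨hs, y2, y3⟩
    obtain rfl : u = v' := by simpa using (hy.1 u).1 y2
    have y4 := (hy.2 s).1 y3
    by_contra hn
    simp only [Prod.mk.injEq, true_and, not_or] at hn
    refine (hT.two u w hw.symm).not_gt (Finset.two_lt_card.2 ⟨s, ?_, t₁, ?_, t₂, ?_, hn.1, hn.2,
      fun e => a6 (e ▸ a5)⟩)
    · exact Finset.mem_filter.2 ⟨hs, y4 (by simp), y4 (by simp)⟩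
    · exact Finset.mem_filter.2 ⟨h1, a1, a2⟩
    · exact Finset.mem_filter.2 ⟨h2, a3, a4⟩
  · refine closure_mono (fun y hy => ?_) (c2_move K (a := {v, v'}) ht (by simp)
      (by simp [Finset.insert_subset_iff, c2_in K xv xt, c2_in K xv' xt]) le_rfl
      (by simpa using ⟨xv, xv'⟩) xt)
    have y1 := (hy.2 t).2 le_rfl
    refine ⟨_, hP, _, h, ⟨ht, (hy.1 v).2 (by simp), y1⟩, ⟨ht, (hy.1 v').2 (by simp), y1⟩, ?_⟩
    rintro ⟨u, s⟩ ⟨hs, y2, y3⟩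
    obtain rfl : t = s := Finset.eq_of_subset_of_card_le ((hy.2 s).1 y3)
      (by rw [K.card _ hs, K.card _ ht])
    simpa using (hy.1 u).1 y2

theorem c2_glue (hT : IsSurf K.T) {I I' : Set (K.V × Finset K.V)} (hd : Disjoint I I')
    (h : Dsc (c2_D K I) (c2_D K I ∩ c2_D K Iᶜ)) (h' : Dsc (c2_D K I') (c2_D K I' ∩ c2_D K I'ᶜ))
    (hc : IsPreconnected (c2_D K I ∩ c2_D K I')) (hn : (c2_D K I ∩ c2_D K I').Nontrivial)
    (hx : ∃ x ∈ c2_D K I' ∩ c2_D K I'ᶜ, x ∉ c2_D K I) :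
    Dsc (c2_D K (I ∪ I')) (c2_D K (I ∪ I') ∩ c2_D K (I ∪ I')ᶜ) := by
  have hs : c2_D K I ∩ c2_D K I' ⊆ (c2_D K I ∩ c2_D K Iᶜ) ∩ (c2_D K I' ∩ c2_D K I'ᶜ) := by
    rintro y ⟨⟨p, hp, a⟩, q, hq, b⟩
    exact ⟨⟨⟨p, hp, a⟩, q, hd.notMem_of_mem_right hq, b⟩, ⟨q, hq, b⟩, p,
      hd.notMem_of_mem_left hp, a⟩
  obtain ⟨x, x1, x2⟩ := hx
  obtain ⟨a, b, hab, -⟩ := h'.sub_arc (fun y hy => (hs hy).2)
    ((c2_closed K I).inter (c2_closed K I')) hc hn fun e => x2 (e.symm.subset x1).1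
  convert h.glue h' hab hs using 1
  · ext y
    simp only [c2_D, mem_union, or_and_right, exists_or, Prod.exists, mem_ofPred_eq]
  refine Subset.antisymm (fun y hy => closure_mono ?_ (c2_front K hT hy.1 hy.2))
    (closure_minimal ?_ ((c2_closed K _).inter (c2_closed K _)))
  · rintro y ⟨p, hp, q, hq, a, b, c⟩
    refine ⟨hp.imp (fun hp => ⟨⟨p, hp, a⟩, q, fun e => hq (Or.inl e), b⟩)
      fun hp => ⟨⟨p, hp, a⟩, q, fun e => hq (Or.inr e), b⟩, ?_⟩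
    rintro ⟨⟨r, hr, d⟩, r', hr', d'⟩
    obtain rfl := (c r d).resolve_right fun e => hq (Or.inl (e ▸ hr))
    obtain rfl := (c r' d').resolve_right fun e => hq (Or.inr (e ▸ hr'))
    exact hd.notMem_of_mem_left hr hr'
  · rintro y ⟨⟨⟨p, hp, a⟩, q, hq, b⟩ | ⟨⟨p, hp, a⟩, q, hq, b⟩, c⟩
    · exact ⟨⟨p, Or.inl hp, a⟩, q, fun e => e.elim hq fun e => c ⟨⟨p, hp, a⟩, q, e, b⟩, b⟩
    · exact ⟨⟨p, Or.inr hp, a⟩, q, fun e => e.elim (fun e => c ⟨⟨q, e, b⟩, p, hp, a⟩) hq, b⟩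

theorem c2_quad (hT : IsSurf K.T) {v : K.V} (hv : v ∉ Bd K.T) {t : Finset K.V} (ht : t ∈ K.T)
    (h : v ∈ t) : Dsc (c2_D K {(v, t)}) (c2_D K {(v, t)} ∩ c2_D K {(v, t)}ᶜ) := by
  obtain ⟨a, b, hab, e⟩ := Finset.card_eq_two.1 (show (t.erase v).card = 2 by
    rw [Finset.card_erase_of_mem h, K.card t ht])
  obtain ⟨a1, a2⟩ := Finset.mem_erase.1 (show a ∈ t.erase v by simp [e])
  obtain ⟨b1, b2⟩ := Finset.mem_erase.1 (show b ∈ t.erase v by simp [e])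
  have e' : t = {v, a, b} := by rw [← e, Finset.insert_erase h]
  have e1 : c2_D K {(v, t)} = K.tile v ∩ K.face t := by
    ext y
    simp only [c2_D, mem_singleton_iff, c2_F, exists_eq_left, ht, true_and, sep_mem_eq, mem_inter_iff]
  have k1 : ∀ c ∈ t, c ≠ v → K.seg {v} {v, c} ⊆ K.tile v ∩ K.face t ∩ c2_D K {(v, t)}ᶜ := by
    intro c hc c1 y hy
    have y1 : y ∈ K.tile v := ⟨trivial, hy.2.1 v (by simp)⟩
    have y2 : ∀ s, v ∈ s → c ∈ s → y ∈ K.face s := fun s p q =>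
      ⟨trivial, fun u hu => hy.1.2 u fun e => hu (Finset.insert_subset p (by simpa using q) e)⟩
    obtain ⟨s, hs, s', hs', n, f⟩ := two_tri hT ⟨c1.symm, t, ht, h, hc⟩ hv
    have m := (Finset.mem_filter.1 (f.ge (Finset.mem_insert_self s {s'}))).2
    have m' := (Finset.mem_filter.1 (f.ge (by simp : s' ∈ ({s, s'} : Finset _)))).2
    refine ⟨⟨y1, y2 t h hc⟩, ?_⟩
    by_cases st : s = t
    · exact ⟨(v, s'), by simpa [← st] using n.symm, hs', y1, y2 s' m'.1 m'.2⟩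
    · exact ⟨(v, s), by simpa using st, hs, y1, y2 s m.1 m.2⟩
  have k2 : ∀ c, c ≠ v → K.seg {v, c} t ⊆ K.tile v ∩ K.face t ∩ c2_D K {(v, t)}ᶜ :=
    fun c c1 y hy => ⟨⟨⟨trivial, hy.2.1 v (by simp)⟩, hy.1⟩, (c, t), by simp [c1], ht,
      ⟨trivial, hy.2.1 c (by simp)⟩, hy.1⟩
  have k3 : ∀ c d y, t = {v, c, d} → y ∈ K.tile v ∩ K.face t → y ∈ K.tile c →
      y ∈ K.seg {v, c} t := by
    rintro c d y rfl ⟨y1, y2⟩ y3
    refine ⟨y2, by simpa only [Finset.mem_insert, Finset.mem_singleton, forall_eq_or_imp, forall_eq] using ⟨y1.2, y3.2⟩, fun p hp q hq => ?_⟩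
    simp only [Finset.mem_sdiff, Finset.mem_insert, Finset.mem_singleton] at hp hq
    rw [show p = d by tauto, show q = d by tauto]
  have k4 : ∀ c d y, t = {v, c, d} → y ∈ K.tile v ∩ K.face t → K.lam y d = 0 →
      y ∈ K.seg {v} {v, c} := by
    rintro c d y rfl ⟨y1, y2⟩ y3
    refine ⟨⟨trivial, fun u hu => ?_⟩, by simpa only [Finset.mem_singleton, forall_eq] using y1.2, fun p hp q hq => ?_⟩
    · by_cases ud : u = d
      · rwa [ud]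
      · exact y2.2 u (by simpa [ud] using hu)
    · simp only [Finset.mem_sdiff, Finset.mem_insert, Finset.mem_singleton] at hp hq
      rw [show p = c by tauto, show q = c by tauto]
  have e'' : t = {v, b, a} := by rw [e', Finset.pair_comm]
  have q := K.quad_dsc (e' ▸ ht)
  rw [← e'] at q
  rw [e1]
  convert q using 1
  refine Subset.antisymm ?_ (union_subset (union_subset (union_subset (k1 a a2 a1) (k1 b b2 b1))
    (k2 a a1)) (k2 b b1))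
  rintro y ⟨hy, ⟨u, s⟩, n, hs, y1, y2⟩
  by_cases uv : u = v
  · subst uv
    by_cases ya : K.lam y a = 0
    · exact Or.inl (Or.inl (Or.inr (k4 b a y e'' hy ya)))
    by_cases yb : K.lam y b = 0
    · exact Or.inl (Or.inl (Or.inl (k4 a b y e' hy yb)))
    refine (n (congrArg _ (Finset.eq_of_subset_of_card_le ?_
      (by rw [K.card _ hs, K.card _ ht])).symm)).elim
    rw [e']
    simp only [Finset.insert_subset_iff, Finset.singleton_subset_iff]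
    exact ⟨c2_in K y1 y2, by_contra fun e => ya (y2.2 a e), by_contra fun e => yb (y2.2 b e)⟩
  · have m := c2_in K y1 hy.2
    simp only [e', Finset.mem_insert, Finset.mem_singleton, uv, false_or] at m
    rcases m with rfl | rfl
    · exact Or.inl (Or.inr (k3 _ _ y e' hy y1))
    · exact Or.inr (k3 _ _ y e'' hy y1)

/-- Plan: add the quadrilaterals at `v` one by one, each along one or two segments from `v`
(`IsSurf.link`, `two_tri`, `Dsc.glue`); for a set `I` of triangles at `v` the boundary consists of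
the outer segments and of the segments `seg {v} {v, a}` on edges with exactly one triangle in
`I`. -/
theorem Tri.tile_dsc (hT : IsSurf K.T) {v : K.V} (hv : v ∉ Bd K.T) :
    Dsc (K.tile v) (K.tile v ∩ K.N {v}ᶜ) := by
  obtain ⟨t₀, h0, v0⟩ := hT.used v
  obtain ⟨S, ⟨⟨t₁, h1⟩, hS, hD⟩, hm⟩ := (toFinite {S : Set (Finset K.V) | S.Nonempty ∧
    (∀ t ∈ S, t ∈ K.T ∧ v ∈ t) ∧ Dsc (c2_D K ({v} ×ˢ S)) (c2_D K ({v} ×ˢ S) ∩
      c2_D K ({v} ×ˢ S)ᶜ)}).exists_maximal ⟨{t₀}, singleton_nonempty _, by simp [h0, v0], by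
        simpa only [singleton_prod_singleton] using c2_quad K hT hv h0 v0⟩
  have key : ∀ t ∈ K.T, v ∈ t → t ∈ S := fun t ht a => by
    refine hT.link v S (fun s hs s' hs' w hw a1 a2 a3 a4 a5 => by_contra fun a6 => ?_) t₁
      (hS _ h1).1 t ht (hS _ h1).2 a h1
    obtain ⟨p, hp⟩ := c2_pt K (a := {v}) hs (by simp) (by simpa using a1)
    obtain ⟨q, hq⟩ := c2_pt K (a := {v, w}) hs (by simp)
      (by simp [Finset.insert_subset_iff, a1, a2])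
    obtain ⟨r, hr⟩ := c2_pt K hs' ⟨v, a3⟩ le_rfl
    have pv := (hp.1 v).2 (by simp)
    have qv := (hq.1 v).2 (by simp)
    have g := c2_glue K hT (I' := {(v, s')}) (by simpa using a6) hD (c2_quad K hT hv hs' a3)
      (isPreconnected_of_forall p ?_) ⟨p, ⟨⟨(v, s), ⟨rfl, a5⟩, hs, pv, (hp.2 _).2 (by simpa)⟩,
        _, rfl, hs', pv, (hp.2 _).2 (by simpa)⟩, q, ⟨⟨(v, s), ⟨rfl, a5⟩, hs, qv,
          (hq.2 _).2 (by simp [Finset.insert_subset_iff, a1, a2])⟩, _, rfl, hs', qv,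
          (hq.2 _).2 (by simp [Finset.insert_subset_iff, a3, a4])⟩,
        fun e => hw (by simpa using (hp.1 w).1 (e ▸ (hq.1 w).2 (by simp)))⟩
      ⟨r, ⟨⟨_, rfl, hs', (hr.1 v).2 a3, (hr.2 _).2 le_rfl⟩, (w, s'), by simp [hw], hs',
        (hr.1 w).2 a4, (hr.2 _).2 le_rfl⟩, ?_⟩
    · rw [← singleton_prod_singleton, ← prod_union] at g
      exact a6 (hm (y := S ∪ {s'}) ⟨⟨t₁, Or.inl h1⟩, fun t ht => ht.elim (hS t)
        fun e => e ▸ ⟨hs', a3⟩, g⟩ subset_union_left (Or.inr rfl))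
    · rintro y ⟨⟨⟨u, d⟩, ⟨rfl, b1⟩, b2, b3, b4⟩, _, rfl, -, -, b5⟩
      refine ⟨_, ?_, ?_, ?_, c2_conn K {u} (s := d ∩ s') hs' Finset.inter_subset_right⟩
      · rintro z ⟨z1, z2⟩
        have z3 := z1 u (by simp)
        exact ⟨⟨(u, d), ⟨rfl, b1⟩, b2, z3, trivial, fun c hc => z2.2 c (by simp [hc])⟩, _, rfl, hs',
          z3, trivial, fun c hc => z2.2 c (by simp [hc])⟩
      · exact ⟨by simpa using pv, (hp.2 _).2 (by simp [a3, (hS _ b1).2])⟩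
      · exact ⟨by simpa using b3, trivial, fun c hc => by
          by_cases e : c ∈ d
          exacts [b5.2 c fun e' => hc (Finset.mem_inter.2 ⟨e, e'⟩), b4.2 c e]⟩
    · rintro ⟨⟨u, d⟩, ⟨-, b1⟩, b2, -, b3⟩
      exact a6 (Finset.eq_of_subset_of_card_le ((hr.2 d).1 b3)
        (by rw [K.card _ hs', K.card _ b2]) ▸ b1)
  have e1 : c2_D K ({v} ×ˢ S) = K.tile v := by
    ext y
    refine ⟨fun ⟨r, hr, h⟩ => hr.1 ▸ h.2.1, fun h => ?_⟩
    obtain ⟨t, ht, h'⟩ := (K.basic (mem_univ y)).2.2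
    exact ⟨(v, t), ⟨rfl, key t ht (c2_in K h h')⟩, ht, h, h'⟩
  have e2 : c2_D K ({v} ×ˢ S)ᶜ = K.N {v}ᶜ := by
    rw [c2_N]
    ext y
    refine exists_congr fun r => and_congr_left fun h => not_congr ⟨fun e => e.1, fun e => ⟨e, ?_⟩⟩
    exact key _ h.1 (e ▸ c2_in K h.2.1 h.2.2)
  rwa [e1, e2] at hD

theorem c2_edge {v w : K.V} (h : Adj K.T v w) : IsPreconnected (K.tile v ∩ K.tile w) := by
  obtain ⟨-, t, ht, a1, a2⟩ := h
  obtain ⟨p, hp⟩ := c2_pt K (a := {v, w}) ht (by simp) (by simp [Finset.insert_subset_iff, a1, a2])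
  refine isPreconnected_of_forall p fun y hy => ?_
  obtain ⟨s, hs, h'⟩ := (K.basic (mem_univ y)).2.2
  refine ⟨_, ?_, ?_, ?_, c2_conn K {v, w} hs le_rfl⟩
  · exact fun z hz => ⟨hz.1 v (by simp), hz.1 w (by simp)⟩
  · exact ⟨fun u hu => (hp.1 u).2 hu,
      (hp.2 _).2 (by simp [Finset.insert_subset_iff, c2_in K hy.1 h', c2_in K hy.2 h'])⟩
  · exact ⟨by simpa using hy, h'⟩

/-- Plan: induction with `shell`; `K.N (A \ {v}) ∩ K.tile v` is a closed connected proper subset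
of the boundary of the tile (`Dsc.sub_arc`); `Dsc.glue`. -/
theorem Tri.disc_of_acyc (hT : IsSurf K.T) {A : Set K.V} (hn : A.Nonempty) (hc : Conn K.T A)
    (ha : Acyc K.T A) (hb : Disjoint A (Bd K.T)) : Dsc (K.N A) (K.N A ∩ K.N Aᶜ) := by
  induction A using (Finite.wellFounded_of_trans_of_irrefl (α := Set K.V) (· < ·)).induction with
  | _ A ih => ?_
  have e0 : ∀ v, K.N {v} = K.tile v := fun v => by simp only [N, mem_singleton_iff, iUnion_iUnion_eq_left]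
  rcases hn.exists_eq_singleton_or_nontrivial with ⟨v, rfl⟩ | h
  · rw [e0]
    exact K.tile_dsc hT (hb.notMem_of_mem_left rfl)
  obtain ⟨v, hv, c1, c2, ⟨u, uA, vu⟩, c3⟩ := shell hT hc ha hb h
  obtain ⟨w₁, w1, w2⟩ := h.exists_ne v
  obtain ⟨v', w, j, wA, wv, vw⟩ := (hc v hv w₁ w1).exit (C := {v}) rfl w2
  obtain rfl : v' = v := j.right.2
  have d1 := ih (A \ {v'}) (sdiff_singleton_ssubset.2 hv) ⟨w, wA, wv⟩ c1 c2
    (hb.mono_left sdiff_subset)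
  have d2 := K.tile_dsc hT (hb.notMem_of_mem_left hv)
  have sub : ∀ b ∈ A, b ≠ v' → K.tile v' ∩ K.tile b ⊆ K.N (A \ {v'}) ∩ K.N {v'} := fun b b1 b2 y hy =>
    ⟨mem_biUnion (show b ∈ A \ {v'} from ⟨b1, b2⟩) hy.2, e0 v' ▸ hy.1⟩
  obtain ⟨-, t, ht, a1, a2⟩ := id vw
  obtain ⟨-, s, hs, a3, a4⟩ := id vu
  obtain ⟨p, hp⟩ := c2_pt K (a := {v', w}) ht (by simp) (by simp [Finset.insert_subset_iff, a1, a2])
  obtain ⟨q, hq⟩ := c2_pt K ht ⟨_, a1⟩ le_rfl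
  obtain ⟨r, hr⟩ := c2_pt K (a := {v', u}) hs (by simp) (by simp [Finset.insert_subset_iff, a3, a4])
  have pw : p ∈ K.tile v' ∩ K.tile w := ⟨(hp.1 _).2 (by simp), (hp.1 _).2 (by simp)⟩
  have key : ∀ b, Relation.ReflTransGen (fun a b => b ∈ A ∧ ({v', a, b} : Finset K.V) ∈ K.T) w b →
      ∃ C, C ⊆ K.N (A \ {v'}) ∩ K.N {v'} ∧ p ∈ C ∧ K.tile v' ∩ K.tile b ⊆ C ∧ IsPreconnected C := by
    intro b hb
    induction hb with
    | refl => exact ⟨_, sub w wA wv, pw, Subset.rfl, c2_edge K vw⟩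
    | @tail a b _ h ih =>
      obtain ⟨C, C1, C2, C3, C4⟩ := ih
      obtain ⟨x, hx⟩ := c2_pt K h.2 (by simp) le_rfl
      have n : v' ≠ b := by
        rintro rfl
        have := K.card _ h.2
        rw [Finset.pair_comm, Finset.insert_idem] at this
        exact absurd (this ▸ Finset.card_le_two) (by norm_num)
      exact ⟨C ∪ K.tile v' ∩ K.tile b, union_subset C1 (sub b h.1 n.symm), Or.inl C2,
        subset_union_right, C4.union x (C3 ⟨(hx.1 _).2 (by simp), (hx.1 _).2 (by simp)⟩)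
          ⟨(hx.1 _).2 (by simp), (hx.1 _).2 (by simp)⟩
          (c2_edge K ⟨n, _, h.2, by simp, by simp⟩)⟩
  have hp' : IsPreconnected (K.N (A \ {v'}) ∩ K.N {v'}) := isPreconnected_of_forall p fun y hy => by
    obtain ⟨b, b1, b2⟩ := mem_iUnion₂.1 hy.1
    have b3 : y ∈ K.tile v' := e0 v' ▸ hy.2
    obtain ⟨C, C1, C2, C3, C4⟩ := key b (c3 w wA b b1.1 vw
      ((K.tile_basic.2.2.2.2.1 _ _ y b3 b2).resolve_left (Ne.symm b1.2)))
    exact ⟨C, C1, C2, C3 ⟨b3, b2⟩, C4⟩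
  have hn' : (K.N (A \ {v'}) ∩ K.N {v'}).Nontrivial :=
    ⟨p, sub w wA wv pw, q, sub w wA wv ⟨(hq.1 _).2 a1, (hq.1 _).2 a2⟩, fun e => by
      have := Finset.card_le_card ((hq.2 _).1 (e ▸ (hp.2 _).2 le_rfl))
      rw [K.card t ht] at this
      exact absurd (this.trans Finset.card_le_two) (by norm_num)⟩
  have hx : ∃ x ∈ K.N {v'} ∩ K.N {v'}ᶜ, x ∉ K.N (A \ {v'}) :=
    ⟨r, ⟨e0 v' ▸ (hr.1 _).2 (by simp), mem_biUnion (show u ∈ ({v'}ᶜ : Set K.V) from vu.1.symm)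
      ((hr.1 _).2 (by simp))⟩, fun h => by
      obtain ⟨b, b1, b2⟩ := mem_iUnion₂.1 h
      rcases Finset.mem_insert.1 ((hr.1 b).1 b2) with e | e
      exacts [b1.2 e, uA (Finset.mem_singleton.1 e ▸ b1.1)]⟩
  rw [← e0] at d2
  simp only [c2_N] at d1 d2 hp' hn' hx ⊢
  have g := c2_glue K hT (disjoint_left.2 fun r a b => a.2 b) d1 d2 hp' hn' hx
  have e : {r : K.V × Finset K.V | r.1 ∈ A \ {v'}} ∪ {r | r.1 ∈ ({v'} : Set K.V)} =
      {r | r.1 ∈ A} := by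
    rw [← ofPred_or]
    exact congrArg (fun B => {r : K.V × Finset K.V | r.1 ∈ B}) (sdiff_union_of_subset (by simpa))
  rwa [e] at g

end Pool.Agent.MP_17e62b_gt.T55

end

section

/-!
A band is an embedded square.
-/

namespace Pool.Agent.MP_17e62b_gt.T55

open Set Metric Topology
open scoped InnerProductSpace Manifold

variable {M : Type} [TopologicalSpace M] [T2Space M] [CompactSpace M] (K : Tri (univ : Set M))

omit [T2Space M] [CompactSpace M] in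
theorem c3_face_closed (t : Finset K.V) : IsClosed (K.face t) := by
  have hcont : Continuous K.lam := continuousOn_univ.1 K.cont
  have h : K.face t = ⋂ v ∈ {v | v ∉ t}, {x | K.lam x v = 0} := by
    ext x
    simp only [Tri.face, mem_univ, true_and, mem_ofPred_eq, mem_iInter]
  rw [h]
  exact isClosed_biInter fun v _ =>
    isClosed_eq ((continuous_apply v).comp hcont) continuous_const

theorem c3_N_closed (H : Set K.V) : IsClosed (K.N H) :=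
  (toFinite H).isClosed_biUnion fun v _ => K.tile_basic.1 v

theorem c3_union_closed (W : Set K.V) (R : Set (Finset K.V)) : IsClosed (⋃ t ∈ R, K.J W t) :=
  (toFinite R).isClosed_biUnion fun t _ =>
    ((c3_face_closed K t).inter (c3_N_closed K W)).inter (c3_N_closed K Wᶜ)

/-- A point of the frontier in `t` lies in the dual cell of a vertex of `t` in `W`. -/
theorem c3_vertex {W : Set K.V} {t : Finset K.V} {x : M} (hx : x ∈ K.J W t) :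
    ∃ w ∈ W, w ∈ t ∧ x ∈ K.tile w := by
  obtain ⟨w, hw, hxw⟩ := mem_iUnion₂.1 hx.1.2
  refine ⟨w, hw, ?_, hxw⟩
  by_contra h
  exact (K.tile_basic.2.2.1 w x hxw).ne' (hx.1.1.2 w h)

theorem c3_seg {W : Set K.V} {t : Finset K.V} (ht : t ∈ K.T) {w v : K.V} (hwt : w ∈ t)
    (hvt : v ∈ t) (hw : w ∈ W) (hv : v ∉ W) {p q : M} (hp : p ∈ K.ctr {w, v}) (hq : q ∈ K.ctr t) :
    Arc (K.seg {w, v} t) p q ∧ K.seg {w, v} t ⊆ K.J W t := by
  have hne : w ≠ v := fun h => hv (h ▸ hw)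
  refine ⟨K.seg_arc ht ?_ (Finset.Subset.refl t) (Finset.insert_nonempty _ _) ?_ hp hq, ?_⟩
  · exact Finset.insert_subset hwt (Finset.singleton_subset_iff.2 hvt)
  · rw [K.card t ht, Finset.card_pair hne]
  · intro x hx
    rw [K.J_eq W ht]
    exact ⟨w, hwt, v, hvt, hw, hv, hx⟩

theorem c3_ctr {s t : Finset K.V} (ht : t ∈ K.T) (hs : s ⊆ t) (hn : s.Nonempty) :
    ∃ p, p ∈ K.ctr s := by
  obtain ⟨p, hp⟩ := K.ctr_single ht hs hn
  exact ⟨p, hp ▸ mem_singleton p⟩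

theorem c3_ctr2 {t : Finset K.V} (ht : t ∈ K.T) {w v : K.V} (hwt : w ∈ t) (hvt : v ∈ t) :
    ∃ p, p ∈ K.ctr {w, v} :=
  c3_ctr K ht (Finset.insert_subset hwt (Finset.singleton_subset_iff.2 hvt))
    (Finset.insert_nonempty _ _)

theorem c3_J_conn (W : Set K.V) {t : Finset K.V} (ht : t ∈ K.T) : IsPreconnected (K.J W t) := by
  have hn : t.Nonempty := Finset.card_pos.1 (by rw [K.card t ht]; norm_num)
  obtain ⟨q, hq⟩ := c3_ctr K ht (Finset.Subset.refl t) hn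
  refine isPreconnected_of_forall q fun y hy => ?_
  rw [K.J_eq W ht] at hy
  obtain ⟨w, hwt, v, hvt, hw, hv, hy⟩ := hy
  obtain ⟨p, hp⟩ := c3_ctr2 K ht hwt hvt
  obtain ⟨h1, h2⟩ := c3_seg K ht hwt hvt hw hv hp hq
  exact ⟨_, h2, h1.basic.2.2.2.1, hy, h1.basic.2.1⟩

theorem c3_J_nontrivial {W : Set K.V} {t : Finset K.V} (h : Mixed K.T W t) :
    (K.J W t).Nontrivial := by
  obtain ⟨ht, ⟨w, hwt, hw⟩, v, hvt, hv⟩ := h
  obtain ⟨q, hq⟩ := c3_ctr K ht (Finset.Subset.refl t) ⟨w, hwt⟩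
  obtain ⟨p, hp⟩ := c3_ctr2 K ht hwt hvt
  obtain ⟨h1, h2⟩ := c3_seg K ht hwt hvt hw hv hp hq
  exact ⟨p, h2 h1.basic.2.2.1, q, h2 h1.basic.2.2.2.1, h1.basic.2.2.2.2.1⟩

/-- A chain of mixed triangles gives a connected part of the frontier. -/
theorem c3_chain {W : Set K.V} {R : Set (Finset K.V)} (hR : ∀ t ∈ R, t ∈ K.T)
    {t t' : Finset K.V} (h : FJn W R t t') :
    ∃ Z, Z ⊆ ⋃ s ∈ R, K.J W s ∧ K.J W t ⊆ Z ∧ K.J W t' ⊆ Z ∧ IsPreconnected Z ∧ t' ∈ R := by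
  obtain ⟨ht, h⟩ := h
  induction h with
  | refl =>
    exact ⟨K.J W t, subset_biUnion_of_mem (u := fun s => K.J W s) ht, Subset.rfl, Subset.rfl,
      c3_J_conn K W (hR t ht), ht⟩
  | @tail a b _ hab ih =>
    obtain ⟨Z, h1, h2, h3, h4, ha⟩ := ih
    obtain ⟨hb, w, hw, v, hv, hwa, hva, hwb, hvb⟩ := hab
    obtain ⟨p, hp⟩ := c3_ctr2 K (hR a ha) hwa hva
    obtain ⟨q, hq⟩ := c3_ctr K (hR a ha) (Finset.Subset.refl a) ⟨w, hwa⟩
    obtain ⟨q', hq'⟩ := c3_ctr K (hR b hb) (Finset.Subset.refl b) ⟨w, hwb⟩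
    obtain ⟨a1, a2⟩ := c3_seg K (hR a ha) hwa hva hw hv hp hq
    obtain ⟨b1, b2⟩ := c3_seg K (hR b hb) hwb hvb hw hv hp hq'
    exact ⟨Z ∪ K.J W b,
      union_subset h1 (subset_biUnion_of_mem (u := fun s => K.J W s) hb),
      h2.trans subset_union_left, subset_union_right,
      h4.union p (h3 (a2 a1.basic.2.2.1)) (b2 b1.basic.2.2.1) (c3_J_conn K W (hR b hb)), hb⟩

theorem c3_front (W : Set K.V) {x : M} (hx : x ∈ K.N W ∩ K.N Wᶜ) :
    ∃ t, Mixed K.T W t ∧ x ∈ K.J W t := by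
  obtain ⟨-, -, t, ht, hxt⟩ := K.basic (mem_univ x)
  have h : x ∈ K.J W t := ⟨⟨hxt, hx.1⟩, hx.2⟩
  have h' := h
  rw [K.J_eq W ht] at h'
  obtain ⟨w, hwt, v, hvt, hw, hv, -⟩ := h'
  exact ⟨t, ⟨ht, ⟨w, hwt, hw⟩, v, hvt, hv⟩, h⟩

/-- The points of the frontier in `t` that lie in no other triangle are dense. -/
theorem c3_dense (W : Set K.V) {t : Finset K.V} (ht : t ∈ K.T) :
    K.J W t ⊆ closure {y ∈ K.J W t | ∀ t' ∈ K.T, y ∈ K.face t' → t' = t} := by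
  intro x hx
  rw [K.J_eq W ht] at hx
  obtain ⟨w, hwt, v, hvt, hw, hv, hx⟩ := hx
  have hne : w ≠ v := fun h => hv (h ▸ hw)
  obtain ⟨q, hq⟩ := c3_ctr K ht (Finset.Subset.refl t) ⟨w, hwt⟩
  obtain ⟨p, hp⟩ := K.ctr_single ht
    (Finset.insert_subset hwt (Finset.singleton_subset_iff.2 hvt)) (Finset.insert_nonempty _ _)
  obtain ⟨h1, h2⟩ := c3_seg K ht hwt hvt hw hv (hp ▸ mem_singleton p) hq
  refine closure_mono ?_ (h1.basic.2.2.2.2.2.2 hx)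
  rintro y ⟨hy, hyp⟩
  refine ⟨h2 hy, fun t' ht' hyt => ?_⟩
  obtain ⟨u, ⟨huw, huv⟩, rfl⟩ := a9_third (K.card t ht) hne hwt hvt
  have hsum := a9_sum K hne huw.symm huv.symm hy.1
  have e1 : K.lam y v ≤ K.lam y w := hy.2.1 w (by simp) v
  have e2 : K.lam y w ≤ K.lam y v := hy.2.1 v (by simp) w
  have e3 : K.lam y u ≤ K.lam y w := hy.2.1 w (by simp) u
  have hu : K.lam y u ≠ 0 := by
    intro h0
    have hc : y ∈ K.ctr {w, v} := by
      refine ⟨mem_univ y, fun a => ?_⟩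
      rw [Finset.card_pair hne]
      by_cases haw : a = w
      · rw [haw, if_pos (by simp)]
        push_cast
        linarith only [hsum, e1, e2, h0]
      by_cases hav : a = v
      · rw [hav, if_pos (by simp)]
        push_cast
        linarith only [hsum, e1, e2, h0]
      rw [if_neg (by simp [haw, hav])]
      by_cases hau : a = u
      · rw [hau, h0]
      · exact hy.1.2 a (by simp [haw, hav, hau])
    rw [hp] at hc
    exact hyp (Or.inl hc)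
  have hpos : 0 < K.lam y u := lt_of_le_of_ne ((K.basic (mem_univ y)).1 u) hu.symm
  have hin : ∀ a, 0 < K.lam y a → a ∈ t' := by
    intro a ha
    by_contra h
    exact ha.ne' (hyt.2 a h)
  refine (Finset.eq_of_subset_of_card_le ?_ (by rw [K.card _ ht, K.card _ ht'])).symm
  refine Finset.insert_subset (hin w (by linarith only [e3, hpos])) (Finset.insert_subset (hin v (by linarith))
    (Finset.singleton_subset_iff.2 (hin u hpos)))

theorem c3_V (i : Bool) : IsCompact (SqV i) ∧ SqV i ⊆ frontier Sq ∧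
    SqV i ⊆ closure (SqV i \ (SqH false ∪ SqH true)) := by
  have h1 : SqV i ⊆ frontier Sq := by
    rw [sq_basic.2.2.2]
    cases i
    · exact fun z hz => Or.inl (Or.inr hz)
    · exact fun z hz => Or.inr hz
  have hc : Continuous fun y : ℝ => (⟨if i then 1 else 0, y⟩ : ℂ) := by
    have : (fun y : ℝ => (⟨if i then 1 else 0, y⟩ : ℂ)) =
        fun y : ℝ => (((if i then 1 else 0 : ℝ) : ℝ) : ℂ) + (y : ℂ) * Complex.I := by
      funext y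
      apply Complex.ext <;> simp
    rw [this]
    fun_prop
  have h2 : SqV i = (fun y : ℝ => (⟨if i then 1 else 0, y⟩ : ℂ)) '' Icc 0 1 := by
    ext z
    constructor
    · rintro ⟨h, h'⟩
      exact ⟨z.im, h', Complex.ext h.symm rfl⟩
    · rintro ⟨y, hy, rfl⟩
      exact ⟨rfl, hy⟩
  refine ⟨h2 ▸ isCompact_Icc.image hc, h1, ?_⟩
  intro z hz
  rw [h2, ← closure_Ioo zero_ne_one] at hz
  refine closure_mono ?_ (image_closure_subset_closure_image hc hz)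
  rintro _ ⟨y, hy, rfl⟩
  refine ⟨⟨rfl, hy.1.le, hy.2.le⟩, ?_⟩
  rintro (h | h)
  · exact hy.1.ne' h.2
  · exact hy.2.ne h.2

/-- Plan: `Tri.disc_of_acyc`; the boundary curve is the union of the sets `K.J W t` over mixed `t`;
two of them meet only in a midpoint of a common edge that leaves `W`. The unions over `L i` are
disjoint closed connected sets, hence arcs (`Dsc.sub_arc`); `Dsc.square`. `Tri.conn_tiles` turns
a connected set into a piece of size `3 δ`. -/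
theorem Tri.band_square (hT : IsSurf K.T) {n : ℕ} {f : M → EuclideanSpace ℝ (Fin n)} {ρ δ : ℝ}
    (hf : ∀ t ∈ K.T, ∀ x ∈ K.face t, ∀ y ∈ K.face t, dist (f x) (f y) ≤ δ) {S U W : Set K.V}
    {L : Bool → Set (Finset K.V)} (hb : Disjoint W (Bd K.T))
    (h : Band K.T (fun v => f (K.pt v)) ρ (3 * δ) S U W L) :
    ∃ Ψ : ℂ → M, ContinuousOn Ψ Sq ∧ InjOn Ψ Sq ∧ Ψ '' Sq = K.N W ∧
      Ψ '' frontier Sq = K.N W ∩ K.N Wᶜ ∧ (∀ i, Ψ '' SqH i = ⋃ t ∈ L i, K.J W t) ∧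
      Ψ '' (SqV false ∪ SqV true) = ⋃ t ∈ {t | Mixed K.T W t} \ (L false ∪ L true), K.J W t ∧
      ∀ C ⊆ Sq, IsPreconnected C → (∀ x ∈ C, ∀ y ∈ C, dist (f (Ψ x)) (f (Ψ y)) ≤ δ) →
        ¬ ((C ∩ SqH false).Nonempty ∧ (C ∩ SqH true).Nonempty) ∧
        ¬ ((C ∩ SqV false).Nonempty ∧ (C ∩ SqV true).Nonempty) := by
  have hW : W.Nonempty := by
    obtain ⟨t, ht, -⟩ := h.touch false
    obtain ⟨-, ⟨w, -, hw⟩, -⟩ := h.mix false t ht
    exact ⟨w, hw⟩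
  have hD := K.disc_of_acyc hT hW h.conn h.acyc hb
  have hJ : ∀ R : Set (Finset K.V), (⋃ t ∈ R, K.J W t) ⊆ K.N W ∩ K.N Wᶜ := fun R =>
    iUnion₂_subset fun t _ x hx => ⟨hx.1.2, hx.2⟩
  have hd : Disjoint (⋃ t ∈ L false, K.J W t) (⋃ t ∈ L true, K.J W t) := by
    refine disjoint_left.2 fun x hx hx' => ?_
    obtain ⟨t, ht, hxt⟩ := mem_iUnion₂.1 hx
    obtain ⟨t', ht', hxt'⟩ := mem_iUnion₂.1 hx'
    obtain ⟨w, hw, hwt, hxw⟩ := c3_vertex K hxt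
    exact (K.tile_basic.2.2.1 w x hxw).ne' (hxt'.1.1.2 w (h.apart t ht t' ht' w hw hwt))
  have hnt : ∀ i, (⋃ t ∈ L i, K.J W t).Nontrivial := by
    intro i
    obtain ⟨t, ht, -⟩ := h.touch i
    exact (c3_J_nontrivial K (h.mix i t ht)).mono
      (subset_biUnion_of_mem (u := fun s => K.J W s) ht)
  have harc : ∀ i, ∃ a b, Arc (⋃ t ∈ L i, K.J W t) a b := by
    intro i
    have h1 : IsPreconnected (⋃ t ∈ L i, K.J W t) := by
      refine isPreconnected_of_forall_pair fun x hx y hy => ?_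
      obtain ⟨t, ht, hxt⟩ := mem_iUnion₂.1 hx
      obtain ⟨t', ht', hyt⟩ := mem_iUnion₂.1 hy
      obtain ⟨Z, z1, z2, z3, z4, -⟩ :=
        c3_chain K (fun s hs => (h.mix i s hs).1) (h.lconn i t ht t' ht')
      exact ⟨Z, z1, z2 hxt, z3 hyt, z4⟩
    have h2 : (⋃ t ∈ L i, K.J W t) ≠ K.N W ∩ K.N Wᶜ := by
      intro he
      cases i
      · obtain ⟨x, hx⟩ := (hnt true).nonempty
        exact disjoint_left.1 hd (he ▸ hJ _ hx) hx
      · obtain ⟨x, hx⟩ := (hnt false).nonempty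
        exact disjoint_left.1 hd hx (he ▸ hJ _ hx)
    obtain ⟨a, b, hab, -⟩ := hD.sub_arc (hJ _) (c3_union_closed K W _) h1 (hnt i) h2
    exact ⟨a, b, hab⟩
  choose a b hab using harc
  obtain ⟨Ψ, hc, hi, him, hfr, hH⟩ :=
    hD.square (s := fun i => ⋃ t ∈ L i, K.J W t) hab (fun i => hJ _) hd
  have hFS : frontier Sq ⊆ Sq := sq_basic.1.isClosed.frontier_subset
  have hVS : ∀ i, SqV i ⊆ Sq := fun i => (c3_V i).2.1.trans hFS
  have hHS : ∀ i, SqH i ⊆ Sq := by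
    intro i z hz
    refine hFS ?_
    rw [sq_basic.2.2.2]
    cases i
    · exact Or.inl (Or.inl (Or.inl hz))
    · exact Or.inl (Or.inl (Or.inr hz))
  have hVc : ∀ i, IsClosed (Ψ '' SqV i) := fun i =>
    ((c3_V i).1.image_of_continuousOn (hc.mono (hVS i))).isClosed
  have hV : Ψ '' (SqV false ∪ SqV true) =
      ⋃ t ∈ {t | Mixed K.T W t} \ (L false ∪ L true), K.J W t := by
    apply Subset.antisymm
    · have h1 : ∀ i, Ψ '' SqV i ⊆ ⋃ t ∈ {t | Mixed K.T W t} \ (L false ∪ L true), K.J W t := by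
        rintro i _ ⟨z, hz, rfl⟩
        have h2 := ((hc z (hVS i hz)).mono (sdiff_subset.trans (hVS i))).mem_closure_image
          ((c3_V i).2.2 hz)
        refine (c3_union_closed K W _).closure_subset_iff.2 ?_ h2
        rintro _ ⟨y, ⟨hy, hy'⟩, rfl⟩
        obtain ⟨t, ht, hyt⟩ := c3_front K W (hfr ▸ mem_image_of_mem Ψ ((c3_V i).2.1 hy))
        refine mem_iUnion₂.2 ⟨t, ⟨ht, fun hL => hy' ?_⟩, hyt⟩
        have h3 : ∀ j, t ∈ L j → y ∈ SqH j := by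
          intro j hj
          have h4 : Ψ y ∈ Ψ '' SqH j := by
            rw [hH j]
            exact mem_iUnion₂.2 ⟨t, hj, hyt⟩
          obtain ⟨y', h5, h6⟩ := h4
          exact hi (hHS j h5) (hVS i hy) h6 ▸ h5
        exact hL.imp (h3 false) (h3 true)
      rw [image_union]
      exact union_subset (h1 false) (h1 true)
    · refine iUnion₂_subset fun t ht => (c3_dense K W ht.1.1).trans ?_
      rw [image_union]
      refine ((hVc false).union (hVc true)).closure_subset_iff.2 ?_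
      rintro y ⟨hy, hy'⟩
      have h1 : y ∈ Ψ '' frontier Sq := by
        rw [hfr]
        exact ⟨hy.1.2, hy.2⟩
      obtain ⟨z, hz, rfl⟩ := h1
      have h2 : ∀ j, z ∉ SqH j := by
        intro j hj
        have h3 := mem_image_of_mem Ψ hj
        rw [hH j] at h3
        obtain ⟨t', ht', h4⟩ := mem_iUnion₂.1 h3
        have h5 := hy' t' (h.mix j t' ht').1 h4.1.1
        refine ht.2 ?_
        rw [← h5]
        cases j
        · exact Or.inl ht'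
        · exact Or.inr ht'
      rw [sq_basic.2.2.2] at hz
      rcases hz with ((hz | hz) | hz) | hz
      · exact absurd hz (h2 false)
      · exact absurd hz (h2 true)
      · exact Or.inl (mem_image_of_mem Ψ hz)
      · exact Or.inr (mem_image_of_mem Ψ hz)
  refine ⟨Ψ, hc, hi, him, hfr, hH, hV, fun C hC hpre hsm => ?_⟩
  have hPc : Pc K.T (fun v => f (K.pt v)) W (3 * δ) {v ∈ W | (K.tile v ∩ Ψ '' C).Nonempty} := by
    refine ⟨fun v hv => hv.1,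
      K.conn_tiles W (hpre.image Ψ (hc.mono hC)) (him ▸ image_mono hC), ?_⟩
    rintro u ⟨-, _, hx, x, hxC, rfl⟩ v ⟨-, _, hy, y, hyC, rfl⟩
    obtain ⟨t, ht, t1, t2, -⟩ := K.tile_basic.2.2.2.2.2.1 u _ hx
    obtain ⟨t', ht', t3, t4, -⟩ := K.tile_basic.2.2.2.2.2.1 v _ hy
    have h1 := hf t ht _ t2 _ t1
    have h2 := hf t' ht' _ t3 _ t4
    have h3 := hsm x hxC y hyC
    have h4 := dist_triangle4 (f (K.pt u)) (f (Ψ x)) (f (Ψ y)) (f (K.pt v))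
    show dist (f (K.pt u)) (f (K.pt v)) ≤ 3 * δ
    linarith
  have hmeet : ∀ (R : Set (Finset K.V)), ∀ z ∈ C, Ψ z ∈ ⋃ t ∈ R, K.J W t →
      ∃ t ∈ R, Ψ z ∈ K.J W t ∧ ∃ v ∈ t, v ∈ {v ∈ W | (K.tile v ∩ Ψ '' C).Nonempty} := by
    intro R z hz hzR
    obtain ⟨t, ht, hzt⟩ := mem_iUnion₂.1 hzR
    obtain ⟨w, hw, hwt, hzw⟩ := c3_vertex K hzt
    exact ⟨t, ht, hzt, w, hwt, hw, _, hzw, mem_image_of_mem Ψ hz⟩
  constructor
  · rintro ⟨⟨z, hz, hz'⟩, z₁, hz₁, hz₁'⟩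
    obtain ⟨t, ht, -, h1⟩ := hmeet (L false) z hz (hH false ▸ mem_image_of_mem Ψ hz')
    obtain ⟨t', ht', -, h2⟩ := hmeet (L true) z₁ hz₁ (hH true ▸ mem_image_of_mem Ψ hz₁')
    exact h.long _ hPc ⟨t, ht, h1⟩ ⟨t', ht', h2⟩
  · rintro ⟨⟨z, hz, hz'⟩, z₁, hz₁, hz₁'⟩
    obtain ⟨t, ht, h0, h1⟩ := hmeet _ z hz (hV ▸ mem_image_of_mem Ψ (Or.inl hz'))
    obtain ⟨t', ht', h0', h2⟩ := hmeet _ z₁ hz₁ (hV ▸ mem_image_of_mem Ψ (Or.inr hz₁'))
    obtain ⟨Z, z1, z2, z3, z4, -⟩ :=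
      c3_chain K (fun s hs => hs.1.1) (h.wide _ hPc t t' ht ht' h1 h2)
    rw [← hV, image_union] at z1
    obtain ⟨_, -, ⟨y, hy, rfl⟩, y', hy', he⟩ := isPreconnected_closed_iff.1 z4 _ _ (hVc false)
      (hVc true) z1 ⟨_, z2 h0, mem_image_of_mem Ψ hz'⟩ ⟨_, z3 h0', mem_image_of_mem Ψ hz₁'⟩
    have h3 := hi (hVS true hy') (hVS false hy) he
    have h4 : y'.re = 1 := hy'.1
    have h5 : y.re = 0 := hy.1
    rw [h3, h5] at h4
    exact zero_ne_one h4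

end Pool.Agent.MP_17e62b_gt.T55

end

section

/-!
Squares cut along the middle line as cells.
-/

namespace Pool.Agent.MP_17e62b_gt.T55

open Set Metric Topology G

variable {M : Type} [TopologicalSpace M] [T2Space M]

/-- The middle line of the square. -/
def Mid : Set ℂ := {z ∈ Sq | z.re = 1 / 2}

theorem half_basic (σ : Bool) : IsCompact (Half σ) ∧ Convex ℝ (Half σ) ∧
    (interior (Half σ)).Nonempty ∧
    frontier (Half σ) = {y ∈ Half σ | y ∈ SqV σ ∨ y.re = 1 / 2 ∨ y ∈ SqH false ∪ SqH true} := by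
  have key : ∀ a b : ℝ, a < b → IsCompact (Icc a b ×ℂ Icc (0 : ℝ) 1) ∧
      Convex ℝ (Icc a b ×ℂ Icc (0 : ℝ) 1) ∧ (interior (Icc a b ×ℂ Icc (0 : ℝ) 1)).Nonempty ∧
      frontier (Icc a b ×ℂ Icc (0 : ℝ) 1) =
        {z : ℂ | ((a ≤ z.re ∧ z.re ≤ b) ∧ (z.im = 0 ∨ z.im = 1)) ∨
          ((z.re = a ∨ z.re = b) ∧ 0 ≤ z.im ∧ z.im ≤ 1)} := by
    intro a b hab
    refine ⟨isCompact_Icc.reProdIm isCompact_Icc, ?_, ?_, ?_⟩
    · exact ((convex_Icc a b).linear_preimage Complex.reLm).inter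
        ((convex_Icc 0 1).linear_preimage Complex.imLm)
    · rw [Complex.interior_reProdIm, interior_Icc, interior_Icc]
      refine ⟨⟨(a + b) / 2, 1 / 2⟩, ?_, ?_⟩
      · constructor
        · show a < (a + b) / 2
          linarith
        · show (a + b) / 2 < b
          linarith only [hab]
      · constructor <;> norm_num
    · rw [Complex.frontier_reProdIm, closure_Icc, closure_Icc, frontier_Icc zero_le_one,
        frontier_Icc hab.le]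
      ext z
      simp only [mem_union, Complex.mem_reProdIm, mem_insert_iff, mem_singleton_iff,
        mem_ofPred_eq, mem_Icc]
  cases σ
  · have e : Half false = Icc (0 : ℝ) (1 / 2) ×ℂ Icc (0 : ℝ) 1 := by
      ext z
      simp only [Half, Sq, mem_ofPred_eq, Complex.mem_reProdIm, mem_Icc, Bool.false_eq_true,
        if_false]
      constructor
      · rintro ⟨⟨⟨a, b⟩, c⟩, d⟩
        exact ⟨⟨a, d⟩, c⟩
      · rintro ⟨⟨a, b⟩, c⟩
        exact ⟨⟨⟨a, by linarith only [b]⟩, c⟩, b⟩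
    obtain ⟨k1, k2, k3, k4⟩ := key 0 (1 / 2) (by norm_num)
    rw [e]
    refine ⟨k1, k2, k3, k4.trans ?_⟩
    ext z
    simp only [SqH, SqV, mem_union, mem_ofPred_eq, Complex.mem_reProdIm, mem_Icc,
      Bool.false_eq_true, if_false, if_true]
    grind
  · have e : Half true = Icc (1 / 2 : ℝ) 1 ×ℂ Icc (0 : ℝ) 1 := by
      ext z
      simp only [Half, Sq, mem_ofPred_eq, Complex.mem_reProdIm, mem_Icc, if_true]
      constructor
      · rintro ⟨⟨⟨a, b⟩, c⟩, d⟩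
        exact ⟨⟨d, b⟩, c⟩
      · rintro ⟨⟨a, b⟩, c⟩
        exact ⟨⟨⟨by linarith only [a], b⟩, c⟩, a⟩
    obtain ⟨k1, k2, k3, k4⟩ := key (1 / 2) 1 (by norm_num)
    rw [e]
    refine ⟨k1, k2, k3, k4.trans ?_⟩
    ext z
    simp only [SqH, SqV, mem_union, mem_ofPred_eq, Complex.mem_reProdIm, mem_Icc,
      Bool.false_eq_true, if_false, if_true]
    grind

theorem f6_sub (σ : Bool) : Half σ ⊆ Sq := fun _ h => h.1

theorem f6_union : Half false ∪ Half true = Sq := by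
  refine (union_subset (f6_sub _) (f6_sub _)).antisymm fun z hz => ?_
  rcases le_total z.re (1 / 2) with h | h
  · exact Or.inl ⟨hz, by simpa using h⟩
  · exact Or.inr ⟨hz, by simpa only [↓ reduceIte, one_div] using h⟩

theorem f6_inter {σ τ : Bool} (h : σ ≠ τ) : Half σ ∩ Half τ ⊆ Mid := by
  rintro z ⟨⟨a, b⟩, -, c⟩
  refine ⟨a, ?_⟩
  cases σ <;> cases τ <;> simp only [Bool.false_eq_true, if_false, if_true] at b c
  · exact absurd rfl h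
  · linarith
  · linarith
  · exact absurd rfl h

theorem f6_mid (σ : Bool) : Mid ⊆ frontier (Half σ) := by
  rw [(half_basic σ).2.2.2]
  rintro z ⟨a, b⟩
  refine ⟨⟨a, ?_⟩, Or.inr (Or.inl b)⟩
  cases σ <;> simp [b]

theorem f6_front (σ : Bool) : frontier Sq ∩ Half σ ⊆ frontier (Half σ) := by
  rw [(half_basic σ).2.2.2, sq_basic.2.2.2]
  rintro z ⟨a, b⟩
  refine ⟨b, ?_⟩
  have c := b.2
  cases σ <;> simp only [SqH, SqV, mem_union, mem_ofPred_eq, mem_Icc, Bool.false_eq_true,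
    if_false, if_true] at a c ⊢ <;> grind

theorem f6_front' (σ : Bool) : frontier (Half σ) ⊆ Mid ∪ frontier Sq ∩ Half σ := by
  rw [(half_basic σ).2.2.2, sq_basic.2.2.2]
  rintro z ⟨a, b | b | b⟩
  · refine Or.inr ⟨?_, a⟩
    cases σ
    · exact Or.inl (Or.inr b)
    · exact Or.inr b
  · exact Or.inl ⟨a.1, b⟩
  · exact Or.inr ⟨Or.inl (Or.inl b), a⟩

theorem f6_seg : Mid = segment ℝ (⟨1 / 2, 0⟩ : ℂ) ⟨1 / 2, 1⟩ := by
  ext z
  rw [segment_eq_image_lineMap]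
  simp only [Mid, Sq, mem_ofPred_eq, mem_Icc, mem_image, AffineMap.lineMap_apply]
  constructor
  · rintro ⟨⟨-, a⟩, b⟩
    exact ⟨z.im, a, Complex.ext (by simp [b]) (by simp)⟩
  · rintro ⟨t, ht, rfl⟩
    simp only [one_div, vsub_eq_sub, Complex.real_smul, vadd_eq_add, Complex.add_re, Complex.mul_re, Complex.ofReal_re, Complex.sub_re, sub_self, mul_zero, Complex.ofReal_im, Complex.sub_im, sub_zero, mul_one, zero_add, inv_nonneg, Nat.ofNat_nonneg, true_and, Complex.add_im, Complex.mul_im, add_zero, ht.1, ht.2, and_self, and_true]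
    norm_num

theorem f6_ends : Mid ∩ frontier Sq = {(⟨1 / 2, 0⟩ : ℂ), ⟨1 / 2, 1⟩} := by
  rw [sq_basic.2.2.2]
  ext z
  simp only [Mid, Sq, SqH, SqV, mem_inter_iff, mem_union, mem_ofPred_eq, mem_Icc,
    Bool.false_eq_true, if_false, if_true, mem_insert_iff, mem_singleton_iff, Complex.ext_iff]
  constructor
  · rintro ⟨⟨-, a⟩, ((⟨-, b⟩ | ⟨-, b⟩) | ⟨b, -⟩) | ⟨b, -⟩⟩
    · exact Or.inl ⟨a, b⟩
    · exact Or.inr ⟨a, b⟩
    · linarith
    · linarith only [a, b]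
  · rintro (⟨a, b⟩ | ⟨a, b⟩) <;> rw [a, b] <;> norm_num

omit [T2Space M] in
theorem f6_cast {A B : Set M} (h : A = B) (C : Cells A) :
    ∃ C' : Cells B, C'.P = C.P ∧ C'.E = C.E ∧ C'.D = C.D := by
  subst h
  exact ⟨C, rfl, rfl, rfl⟩

theorem f6_step {A : Set M} (C : Cells A) {Ψ : ℂ → M} (h1 : ContinuousOn Ψ Sq) (h2 : InjOn Ψ Sq)
    (h3 : Ψ '' Sq ∩ A = Ψ '' frontier Sq)
    (h5 : ∀ x ∈ Ψ '' frontier Sq, ∃ e ∈ C.E, x ∈ e ∧ e ⊆ Ψ '' frontier Sq) :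
    ∃ C' : Cells (A ∪ Ψ '' Sq), C.P ⊆ C'.P ∧ C.D ⊆ C'.D ∧
      (∀ e ∈ C.E, ∀ x ∈ e, ∃ e' ∈ C'.E, x ∈ e' ∧ e' ⊆ e) ∧ Ψ '' Mid ∈ C'.E := by
  have fS : frontier Sq ⊆ Sq := sq_basic.1.isClosed.frontier_subset
  have mS : Mid ⊆ Sq := fun _ h => h.1
  have hH : ∀ σ, frontier (Half σ) ⊆ Half σ := fun σ =>
    (half_basic σ).1.isClosed.frontier_subset
  have hends : Ψ '' Mid ∩ Ψ '' frontier Sq = {Ψ ⟨1 / 2, 0⟩, Ψ ⟨1 / 2, 1⟩} := by
    rw [← h2.image_inter mS fS, f6_ends, image_pair]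
  have harc : Arc (Ψ '' Mid) (Ψ ⟨1 / 2, 0⟩) (Ψ ⟨1 / 2, 1⟩) := by
    rw [f6_seg]
    exact arc_seg (by simp [Complex.ext_iff]) (h1.mono (f6_seg ▸ mS)) (h2.mono (f6_seg ▸ mS))
  obtain ⟨C1, p1, p2, -, p4, -⟩ := C.subdiv (Z := {Ψ ⟨1 / 2, 0⟩, Ψ ⟨1 / 2, 1⟩}) (toFinite _)
    fun z hz => by
      obtain ⟨e, a, b, -⟩ := h5 z (hends.ge hz).2
      exact ⟨e, a, b⟩
  have hZ : ({Ψ ⟨1 / 2, 0⟩, Ψ ⟨1 / 2, 1⟩} : Set M) ⊆ C1.P := p1 ▸ subset_union_right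
  have hA : Ψ '' Mid ∩ A ⊆ {Ψ ⟨1 / 2, 0⟩, Ψ ⟨1 / 2, 1⟩} := fun x hx =>
    hends.le ⟨hx.1, h3.le ⟨image_mono mS hx.1, hx.2⟩⟩
  have hAJ : ∀ σ, A ∩ Ψ '' Half σ ⊆ Ψ '' frontier (Half σ) := fun σ x hx => by
    have := (h2.image_inter fS (f6_sub σ)).ge ⟨h3.le ⟨image_mono (f6_sub σ) hx.2, hx.1⟩, hx.2⟩
    exact image_mono (f6_front σ) this
  have hHH : ∀ σ τ, σ ≠ τ → Ψ '' Half σ ∩ Ψ '' Half τ ⊆ Ψ '' Mid := fun σ τ h => by
    rw [← h2.image_inter (f6_sub σ) (f6_sub τ)]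
    exact image_mono (f6_inter h)
  have hcl : ∀ σ, IsClosed (Ψ '' Half σ) := fun σ =>
    ((half_basic σ).1.image_of_continuousOn (h1.mono (f6_sub σ))).isClosed
  have hedge : ∀ σ, ∀ x ∈ A ∩ Ψ '' Half σ, x ∉ Ψ '' Mid →
      ∃ e ∈ C1.E, x ∈ e ∧ e ⊆ Ψ '' frontier (Half σ) := by
    intro σ x hx hm
    obtain ⟨e0, a1, a2, a3⟩ := h5 x (h3.le ⟨image_mono (f6_sub σ) hx.2, hx.1⟩)
    obtain ⟨e, b1, b2, b3⟩ := p4 e0 a1 x a2
    obtain ⟨a, b, c1, c2⟩ := C1.arc e b1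
    obtain ⟨-, -, -, -, -, c3, c4⟩ := c1.basic
    have d1 : ∃ τ, e \ {a, b} ⊆ Ψ '' Half τ := by
      rcases isPreconnected_iff_subset_of_disjoint_closed.1 c3 _ _ (hcl false) (hcl true)
        (fun y hy => by
          rw [← image_union, f6_union]
          exact image_mono fS (a3 (b3 hy.1)))
        (eq_empty_of_forall_notMem fun y hy => hy.1.2 (c2.le ⟨hy.1.1,
          hZ (hends.le ⟨hHH _ _ (by decide) hy.2, a3 (b3 hy.1.1)⟩)⟩)) with h | h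
      exacts [⟨_, h⟩, ⟨_, h⟩]
    obtain ⟨τ, d1⟩ := d1
    have d2 : e ⊆ Ψ '' Half τ := c4.trans (closure_minimal d1 (hcl τ))
    obtain rfl : σ = τ := by_contra fun h => hm (hHH _ _ h ⟨hx.2, d2 b2⟩)
    exact ⟨e, b1, b2, fun y hy => hAJ σ ⟨a4_e C1 b1 hy, d2 hy⟩⟩
  have hone : ∀ σ, ∃ C2 : Cells (Ψ '' Half σ), C2.P = C1.P ∩ Ψ '' frontier (Half σ) ∧
      C2.E = insert (Ψ '' Mid) {e ∈ C1.E | e ⊆ Ψ '' frontier (Half σ)} := by
    intro σ
    have hZ' : ({Ψ ⟨1 / 2, 0⟩, Ψ ⟨1 / 2, 1⟩} : Set M) ⊆ C1.P ∩ Ψ '' frontier (Half σ) :=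
      fun x hx => ⟨hZ hx, image_mono (f6_mid σ) (hends.ge hx).1⟩
    obtain ⟨C2, a, b, -⟩ := Cells.one (P := C1.P ∩ Ψ '' frontier (Half σ))
      (E := insert (Ψ '' Mid) {e ∈ C1.E | e ⊆ Ψ '' frontier (Half σ)})
      (dsc_convex (half_basic σ).1 (half_basic σ).2.1 (half_basic σ).2.2.1
        (h1.mono (f6_sub σ)) (h2.mono (f6_sub σ))) (C1.finP.inter_of_left _)
      ((C1.finE.subset (sep_subset _ _)).insert _)
      (by
        rintro e (rfl | ⟨a, b⟩)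
        · exact ⟨_, _, harc, Subset.antisymm (fun x hx => hA ⟨hx.1, a4_p C1 hx.2.1⟩)
            fun x hx => ⟨(hends.ge hx).1, hZ' hx⟩⟩
        · obtain ⟨u, v, c1, c2⟩ := C1.arc e a
          exact ⟨u, v, c1, by rw [← c2, inter_comm C1.P, ← inter_assoc, inter_eq_left.2 b]⟩)
      (by
        rintro e (rfl | ⟨a, b⟩) e' (rfl | ⟨a', b'⟩) hne
        · exact absurd rfl hne
        · exact fun x hx => hZ' (hA ⟨hx.1, a4_e C1 a' hx.2⟩)
        · exact fun x hx => hZ' (hA ⟨hx.2, a4_e C1 a hx.1⟩)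
        · exact fun x hx => ⟨C1.ee e a e' a' hne hx, b hx.1⟩)
      (by
        refine Subset.antisymm ?_ fun x hx => ?_
        · rintro x ⟨e, rfl | ⟨-, b⟩, hx⟩
          exacts [image_mono (f6_mid σ) hx, b hx]
        · by_cases hm : x ∈ Ψ '' Mid
          · exact ⟨_, Or.inl rfl, hm⟩
          obtain ⟨y, hy, rfl⟩ := hx
          rcases f6_front' σ hy with c | c
          · exact absurd (mem_image_of_mem _ c) hm
          · obtain ⟨e, d1, d2, d3⟩ := hedge σ _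
              ⟨(h3.ge (mem_image_of_mem _ c.1)).2, mem_image_of_mem _ c.2⟩ hm
            exact ⟨e, Or.inr ⟨d1, d3⟩, d2⟩) inter_subset_right
    exact ⟨C2, a, b⟩
  choose C2 q1 q2 using hone
  have hcommon : ∀ σ, ∀ x ∈ A ∩ Ψ '' Half σ,
      x ∈ C1.P ∩ (C2 σ).P ∨ ∃ e ∈ C1.E ∩ (C2 σ).E, x ∈ e := by
    intro σ x hx
    by_cases hm : x ∈ Ψ '' Mid
    · have := hZ (hA ⟨hm, hx.1⟩)
      exact Or.inl ⟨this, q1 σ ▸ ⟨this, hAJ σ hx⟩⟩
    · obtain ⟨e, d1, d2, d3⟩ := hedge σ x hx hm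
      exact Or.inr ⟨e, ⟨d1, q2 σ ▸ Or.inr ⟨d1, d3⟩⟩, d2⟩
  have hP : ∀ σ, C1.P ∩ Ψ '' Half σ ⊆ (C2 σ).P := fun σ x hx =>
    q1 σ ▸ ⟨hx.1, hAJ σ ⟨a4_p C1 hx.1, hx.2⟩⟩
  have hP' : ∀ σ, (C2 σ).P ⊆ C1.P := fun σ => q1 σ ▸ inter_subset_left
  have hM : ∀ σ, Ψ '' Mid ∈ (C2 σ).E := fun σ => q2 σ ▸ Or.inl rfl
  obtain ⟨C3, r1, r2, r3⟩ := C1.glue (C2 false) (hcommon false) (hP false)
    fun x hx => hP' _ hx.1
  obtain ⟨C4, s1, s2, s3⟩ := C3.glue (C2 true)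
    (by
      rintro x ⟨hx | hx, hx'⟩
      · rcases hcommon true x ⟨hx, hx'⟩ with c | ⟨e, c, d⟩
        · exact Or.inl ⟨r1 ▸ Or.inl c.1, c.2⟩
        · exact Or.inr ⟨e, ⟨r2 ▸ Or.inl c.1, c.2⟩, d⟩
      · exact Or.inr ⟨_, ⟨r2 ▸ Or.inr (hM _), hM _⟩, hHH _ _ (by decide) ⟨hx, hx'⟩⟩)
    (by
      rw [r1]
      rintro x ⟨hx | hx, hx'⟩
      exacts [hP _ ⟨hx, hx'⟩, hP _ ⟨hP' _ hx, hx'⟩])
    fun x hx => r1 ▸ Or.inl (hP' _ hx.1)
  obtain ⟨C5, t1, t2, t3⟩ := f6_cast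
    (show A ∪ Ψ '' Half false ∪ Ψ '' Half true = A ∪ Ψ '' Sq by
      rw [union_assoc, ← image_union, f6_union]) C4
  refine ⟨C5, ?_, ?_, fun e he x hx => ?_, ?_⟩
  · rw [t1, s1, r1, p1]
    exact fun x hx => Or.inl (Or.inl (Or.inl hx))
  · rw [t3, s3, r3, p2]
    exact fun x hx => Or.inl (Or.inl hx)
  · obtain ⟨e', a, b⟩ := p4 e he x hx
    exact ⟨e', by rw [t2, s2, r2]; exact Or.inl (Or.inl a), b⟩
  · rw [t2, s2]
    exact Or.inr (hM _)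

/-- Plan: subdivide `C` at the ends of the middle lines (`Cells.subdiv`); an edge in the frontier of
a square then lies in the frontier of one half; `Cells.one` for the halves, `Cells.iglue` over
`Option (ι × Bool)`. -/
theorem Cells.bands {ι : Type} [Finite ι] {A : Set M} (C : Cells A) {Ψ : ι → ℂ → M}
    (h1 : ∀ j, ContinuousOn (Ψ j) Sq) (h2 : ∀ j, InjOn (Ψ j) Sq)
    (h3 : ∀ j, Ψ j '' Sq ∩ A = Ψ j '' frontier Sq)
    (h4 : ∀ j k, j ≠ k → Disjoint (Ψ j '' Sq) (Ψ k '' Sq))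
    (h5 : ∀ j, ∀ x ∈ Ψ j '' frontier Sq, ∃ e ∈ C.E, x ∈ e ∧ e ⊆ Ψ j '' frontier Sq) :
    ∃ C' : Cells (A ∪ ⋃ j, Ψ j '' Sq), C.P ⊆ C'.P ∧ C.D ⊆ C'.D ∧ ⋃₀ C.E ⊆ ⋃₀ C'.E ∧
      ∀ j, Ψ j '' Mid ⊆ ⋃₀ C'.E := by
  have key : ∀ s : Set ι, ∃ C' : Cells (A ∪ ⋃ j ∈ s, Ψ j '' Sq), C.P ⊆ C'.P ∧ C.D ⊆ C'.D ∧
      (∀ e ∈ C.E, ∀ x ∈ e, ∃ e' ∈ C'.E, x ∈ e' ∧ e' ⊆ e) ∧ ∀ j ∈ s, Ψ j '' Mid ⊆ ⋃₀ C'.E := by
    intro s
    induction s, s.toFinite using Set.Finite.induction_on with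
    | empty =>
      obtain ⟨C', a, b, c⟩ := f6_cast (show A = A ∪ ⋃ j ∈ (∅ : Set ι), Ψ j '' Sq by simp only [mem_empty_iff_false, iUnion_of_empty, iUnion_empty, union_empty]) C
      exact ⟨C', a.ge, c.ge, fun e he x hx => ⟨e, b ▸ he, hx, Subset.rfl⟩, by simp only [mem_empty_iff_false, image_subset_iff, preimage_sUnion, IsEmpty.forall_iff, implies_true]⟩
    | @insert k s hk _ ih =>
      obtain ⟨C1, a1, a2, a3, a4⟩ := ih
      obtain ⟨C2, b1, b2, b3, b4⟩ := f6_step C1 (h1 k) (h2 k)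
        (by
          rw [inter_union_distrib_left, h3, union_eq_left]
          rintro x ⟨hx, hx'⟩
          obtain ⟨j, hj, hx'⟩ := mem_iUnion₂.1 hx'
          exact absurd hx' (disjoint_left.1 (h4 k j fun e => hk (e ▸ hj)) hx))
        fun x hx => by
          obtain ⟨e, c1, c2, c3⟩ := h5 k x hx
          obtain ⟨e', d1, d2, d3⟩ := a3 e c1 x c2
          exact ⟨e', d1, d2, d3.trans c3⟩
      obtain ⟨C3, c1, c2, c3⟩ := f6_cast
        (show (A ∪ ⋃ j ∈ s, Ψ j '' Sq) ∪ Ψ k '' Sq = A ∪ ⋃ j ∈ insert k s, Ψ j '' Sq by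
          rw [biUnion_insert, union_assoc, union_comm (Ψ k '' Sq)]) C2
      refine ⟨C3, c1 ▸ a1.trans b1, c3 ▸ a2.trans b2, fun e he x hx => ?_, ?_⟩
      · obtain ⟨e', d1, d2, d3⟩ := a3 e he x hx
        obtain ⟨e'', f1, f2, f3⟩ := b3 e' d1 x d2
        exact ⟨e'', c2 ▸ f1, f2, f3.trans d3⟩
      · rw [c2]
        rintro j (rfl | hj)
        · exact subset_sUnion_of_mem b4
        · intro x hx
          obtain ⟨e, d1, d2⟩ := a4 j hj hx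
          obtain ⟨e', f1, f2, -⟩ := b3 e d1 x d2
          exact ⟨e', f1, f2⟩
  obtain ⟨C1, a1, a2, a3, a4⟩ := key univ
  obtain ⟨C2, b1, b2, b3⟩ := f6_cast
    (show (A ∪ ⋃ j ∈ (univ : Set ι), Ψ j '' Sq) = A ∪ ⋃ j, Ψ j '' Sq by simp only [mem_univ, iUnion_true]) C1
  refine ⟨C2, b1 ▸ a1, b3 ▸ a2, ?_, fun j => b2 ▸ a4 j trivial⟩
  rintro x ⟨e, he, hx⟩
  obtain ⟨e', c1, c2, -⟩ := a3 e he x hx
  exact ⟨e', b2 ▸ c1, c2⟩

end Pool.Agent.MP_17e62b_gt.T55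

end

section

/-!
The skeleton on a triangulated surface: data, sites, glued discs, the core.
-/

namespace Pool.Agent.MP_17e62b_gt.T55

open Set Metric Topology H14 G
open scoped Manifold

section Strata

variable {M : Type} [TopologicalSpace M] {A : Set M}

/-- `x` and `y` lie in the same dual cells and in the same faces. -/
def Tri.Same (K : Tri A) (x y : M) : Prop :=
  (∀ v, x ∈ K.tile v ↔ y ∈ K.tile v) ∧ ∀ v, K.lam x v = 0 ↔ K.lam y v = 0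

/-- The union of the edges of the complex of dual cells on `K.N H`. -/
def Tri.skel (K : Tri A) (H : Set K.V) : Set M :=
  {y | ∃ s s' : Finset K.V, (∃ t ∈ K.T, s' ⊆ t) ∧ s ⊆ s' ∧ s'.card = s.card + 1 ∧
    (∃ v ∈ s, v ∈ H) ∧ y ∈ K.seg s s'}

end Strata

/-- The skeleton on a fine triangulation, with squares for the bands. -/
structure GD {n : ℕ} (S : Surface n) (N : ℕ) (ρ δ : ℝ) where
  K : Tri (univ : Set S.M)
  Sv : Set K.V
  Y : Set K.V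
  lab : K.V → K.V
  m : ℕ
  W : Fin m → Set K.V
  L : Fin m → Bool → Set (Finset K.V)
  z : Fin m → Bool → K.V
  Ψ : Fin m → ℂ → S.M
  pos : 0 < δ
  le : 2 * δ ≤ ρ
  surf : IsSurf K.T
  mesh : ∀ t ∈ K.T, ∀ x ∈ K.face t, ∀ y ∈ K.face t, dist (S.f x) (S.f y) ≤ δ
  sad : Sad K.T (fun v => S.f (K.pt v)) δ
  sk : Sk K.T (fun v => S.f (K.pt v)) Sv Y lab W L z N (ρ / 2) (3 * δ)
  cont : ∀ j, Continuous (Ψ j)
  inj : ∀ j, InjOn (Ψ j) Sq
  img : ∀ j, Ψ j '' Sq = K.N (W j)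
  fr : ∀ j, Ψ j '' frontier Sq = K.N (W j) ∩ K.N (W j)ᶜ
  sH : ∀ j i, Ψ j '' SqH i = ⋃ t ∈ L j i, K.J (W j) t
  sV : ∀ j, Ψ j '' (SqV false ∪ SqV true) = ⋃ t ∈ Rest K.T (W j) (L j), K.J (W j) t
  long : ∀ j, ∀ a ∈ SqH false, ∀ b ∈ SqH true, ¬ Near (fun z => S.f (Ψ j z)) Sq δ a b
  wide : ∀ j, ∀ a ∈ SqV false, ∀ b ∈ SqV true, ¬ Near (fun z => S.f (Ψ j z)) Sq δ a b

variable {n : ℕ} {S : Surface n} {N : ℕ} {ρ δ : ℝ} (g : GD S N ρ δ)

/-- The vertices of the discs. -/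
def GD.U : Set g.K.V := Uu g.Sv g.Y g.W

/-- The labels. -/
abbrev GD.κ : Type := {a : g.K.V // a ∈ g.Sv ∧ g.lab a = a}

/-- The class with the label `a`. -/
def GD.Cl (a : g.K.V) : Set S.M :=
  {y | y ∈ g.K.N {v ∈ g.Sv | g.lab v = a} ∨ ∃ j i, g.z j i = a ∧ y ∈ g.Ψ j '' SqH i}

/-- The tube through `y`. -/
def GD.Tb (y : g.K.V) : Set S.M := g.K.N {u | Jn g.K.T g.Y y u}

/-- The discs. -/
abbrev GD.Cp : Type := {A : Set g.K.V // ∃ u ∈ g.U, A = {v | Jn g.K.T g.U u v}}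

/-- The class at an end of a band. -/
def GD.en (j : Fin g.m) (i : Bool) : g.κ :=
  ⟨g.z j i, by
    obtain ⟨t, -, s, -, hs, e⟩ := g.sk.touch j i
    exact e ▸ ⟨(g.sk.cls s hs).1, (g.sk.cls s hs).2.1⟩⟩

/-- The ends and the middle lines of the bands. -/
def GD.Lines : Set S.M := ⋃ j, g.Ψ j '' (SqH false ∪ SqH true ∪ Mid)

/-- The graph that carries the sites. -/
def GD.Gam : Set S.M := g.K.skel (g.Sv ∪ g.Y) ∪ g.Lines

/-- Networks on the bands. -/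
abbrev GD.BN (e η s : ℝ) (M : ℕ) : Type 1 :=
  ∀ j, BandNet (fun z => S.f (g.Ψ j z)) (δ / 1000) (δ / 10) e η s M

variable {g} {e η s : ℝ} {M : ℕ}

/-- The nodes. -/
abbrev GD.BN.Nu (B : g.BN e η s M) : Type := g.κ ⊕ (Σ j : Fin g.m, {p // (B j).IsCut p})

/-- The value of the surface at a node. -/
noncomputable def GD.BN.fn (B : g.BN e η s M) : B.Nu → EuclideanSpace ℝ (Fin n)
  | .inl x => S.f (g.K.pt x.1)
  | .inr u => S.f (g.Ψ u.1 ((B u.1).pt u.2))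

/-- The sites of free classes. -/
def GD.BN.Fr (B : g.BN e η s M) : Set (B.Nu ⊕ g.K.V) :=
  {a | ∃ x : g.κ, x.1 ∉ Bd g.K.T ∧ a = .inl (.inl x)}

/-- Every point gets a site: a node or a vertex; `ch y` is a chosen dual cell through `y`. -/
structure Site (B : g.BN e η s M) where
  σ : S.M → B.Nu ⊕ g.K.V
  ch : S.M → g.K.V
  ch_mem : ∀ y, y ∈ g.K.tile (ch y)
  ch_S : ∀ y ∈ g.K.N g.Sv, ch y ∈ g.Sv
  ch_Y : ∀ y ∈ g.K.N (g.Sv ∪ g.Y), ch y ∈ g.Sv ∪ g.Y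
  ch_min : ∀ y y', (∀ v, y' ∈ g.K.tile v → y ∈ g.K.tile v) → y' ∈ g.K.tile (ch y) → ch y' = ch y
  en : ∀ j i, ∀ y ∈ (B j).En i, σ (g.Ψ j y) = .inl (.inl (g.en j i))
  cut : ∀ j (p : {p // (B j).IsCut p}), σ (g.Ψ j ((B j).pt p)) = .inl (.inr ⟨j, p⟩)
  mid : ∀ j, ∀ y ∈ Mid, y.im ∈ Icc (B j).y0 (B j).y1 → ∃ p : {p // (B j).IsCut p},
    σ (g.Ψ j y) = .inl (.inr ⟨j, p⟩) ∧ ‖S.f (g.Ψ j y) - S.f (g.Ψ j ((B j).pt p))‖ ≤ e
  mid_conn : ∀ j (p : {p // (B j).IsCut p}), IsPreconnected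
    {y ∈ Mid | y.im ∈ Icc (B j).y0 (B j).y1 ∧ σ (g.Ψ j y) = .inl (.inr ⟨j, p⟩)}
  offS : ∀ y, y ∉ g.Lines → ch y ∈ g.Sv → ∃ x : g.κ, x.1 = g.lab (ch y) ∧ σ y = .inl (.inl x)
  offY : ∀ y, y ∉ g.Lines → ch y ∉ g.Sv → σ y = .inr (ch y)

/-- The discs with the halves of the bands attached. -/
structure Glued (g : GD S N ρ δ) where
  Δ : g.Cp → Set ℂ
  J : g.Cp → Set ℂ
  A : g.Cp → Set ℂ
  θ : g.Cp → ℂ → S.M
  d : Fin g.m → Bool → g.Cp
  ι : Fin g.m → Bool → ℂ → ℂ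
  dsc : ∀ c, Dsc (Δ c) (J c)
  cont : ∀ c, Continuous (θ c)
  A_closed : ∀ c, IsClosed (A c)
  A_sub : ∀ c, A c ⊆ Δ c
  injA : ∀ c, InjOn (θ c) (A c)
  imgA : ∀ c, θ c '' A c = g.K.N c.1
  ι_cont : ∀ j σ, ContinuousOn (ι j σ) (Half σ)
  ι_inj : ∀ j σ, InjOn (ι j σ) (Half σ)
  ι_mem : ∀ j σ, MapsTo (ι j σ) (Half σ) (Δ (d j σ))
  ι_comm : ∀ j σ, ∀ y ∈ Half σ, θ (d j σ) (ι j σ y) = g.Ψ j y
  ι_disj : ∀ j σ j' σ', d j σ = d j' σ' → ∀ y ∈ Half σ, ∀ y' ∈ Half σ', ι j σ y = ι j' σ' y' →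
    j = j' ∧ σ = σ'
  pieces : ∀ c, ∀ z ∈ Δ c, z ∈ A c ∨ ∃ j σ, d j σ = c ∧ z ∈ ι j σ '' Half σ
  A_inter : ∀ j σ, ∀ y ∈ Half σ, ι j σ y ∈ A (d j σ) ↔ y ∈ SqV σ
  ι_fr : ∀ j σ, ∀ y ∈ Half σ, ι j σ y ∈ J (d j σ) ↔ y.re = 1 / 2 ∨ y ∈ SqH false ∪ SqH true
  A_fr : ∀ c, ∀ b ∈ A c, b ∈ J c ↔ θ c b ∈ g.K.N c.1ᶜ ∧
    ∀ j, θ c b ∉ g.Ψ j '' ((SqV false ∪ SqV true) \ (SqH false ∪ SqH true))

/-- What the last step needs to know about the part outside the big discs. -/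
structure Core {G : Geo S N ρ δ} {X : Nets G e η s M} {C : Type} {Mx : ℕ} (D : Big X C Mx) where
  Cx : Cells (univ : Set S.M)
  D₀ : Set (Set S.M × Set S.M)
  Γ : Set S.M
  T : Type
  σ : S.M → X.Nu ⊕ T
  sub : D₀ ⊆ Cx.D
  skel : Γ ⊆ ⋃₀ Cx.E
  bdy : ∀ d ∈ D₀, d.2 ⊆ Γ
  cover : ∀ y, (∃ d ∈ D₀, y ∈ d.1) ∨ ∃ c, y ∈ D.Θ c '' (lens (D.m c)).P
  off : ∀ c, ∀ z ∈ interior (lens (D.m c)).P, D.Θ c z ∉ Γ ∧ ∀ d ∈ D₀, D.Θ c z ∉ d.1
  disj : ∀ c c', ∀ z ∈ interior (lens (D.m c)).P, ∀ z' ∈ (lens (D.m c')).P,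
    D.Θ c z = D.Θ c' z' → c = c' ∧ z = z'
  fin : ∀ c y, {b ∈ frontier (lens (D.m c)).P | D.Θ c b = y}.Finite
  arc : ∀ c u a b, Arc u a b → u ⊆ frontier (lens (D.m c)).P →
    (∀ z ∈ u, D.Θ c z ∈ Cx.P → z = a ∨ z = b) → InjOn (D.Θ c) u
  fr : ∀ c, ∀ b ∈ frontier (lens (D.m c)).P, D.Θ c b ∈ Γ ∧ ∃ u, σ (D.Θ c b) = .inl u ∧
    ‖S.f (D.Θ c b) - X.fn u‖ ≤ 3 * ρ
  vt : ∀ c (v : (lens (D.m c)).Vt), σ (D.Θ c v) = .inl (D.app c v)
  conn : ∀ a, IsPreconnected {y ∈ Γ | σ y = a}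
  dir : ∀ x ∈ G.Dir, ∃ y ∈ Γ, y ∈ Cx.P ∧ y ∈ (𝓡∂ 2).boundary S.M ∧ σ y = .inl (.inl x)
  tube : ∀ (ε : ℝ) (F' : X.Nu → EuclideanSpace ℝ (Fin n)), (∀ u, ‖F' u - X.fn u‖ ≤ ε) →
    ∃ val : X.Nu ⊕ T → EuclideanSpace ℝ (Fin n), (∀ u, val (.inl u) = F' u) ∧
      (∀ d ∈ D₀, ∀ x ∈ d.1, ∀ y ∈ d.2, ‖S.f x - val (σ y)‖ ≤ ε + 10 * ρ) ∧
      ∀ (l : EuclideanSpace ℝ (Fin n) →L[ℝ] ℝ) (r : ℝ) (A : Set (X.Nu ⊕ T)),
        (∀ a ∈ A, l (val a) = r) →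
        (∀ Q ⊆ Γ, IsPreconnected Q → ∀ p ∈ Q ∩ Cx.P, ∀ q ∈ Q ∩ Cx.P, σ p ∈ A →
          (∀ y ∈ Q, σ y = σ p ∨ σ y = σ q) →
          l (val (σ q)) ≤ r ∧ (l (val (σ q)) = r → σ q ∈ A)) →
        (∀ a ∈ A, ∃ y ∈ Γ, σ y = a) →
        (A.Nonempty → ∃ u, .inl u ∈ A) ∧ ∀ u v, .inl u ∈ A → X.Link u v →
          l (F' v) ≤ r ∧ (l (F' v) = r → .inl v ∈ A)

end Pool.Agent.MP_17e62b_gt.T55

end

section

/-!
Strata of the dual cells.
-/

namespace Pool.Agent.MP_17e62b_gt.T55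

open Set Metric Topology H14 G
open scoped Manifold

variable {M : Type} [TopologicalSpace M] [T2Space M] [CompactSpace M] (K : Tri (univ : Set M))

omit [T2Space M] [CompactSpace M] in
theorem Tri.same_equiv : Equivalence K.Same := by
  exact ⟨fun _ => ⟨fun _ => Iff.rfl, fun _ => Iff.rfl⟩,
    fun h => ⟨fun v => (h.1 v).symm, fun v => (h.2 v).symm⟩,
    fun h h' => ⟨fun v => (h.1 v).trans (h'.1 v), fun v => (h.2 v).trans (h'.2 v)⟩⟩

omit [T2Space M] [CompactSpace M] in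
theorem Tri.Same.mem {K : Tri (univ : Set M)} {x y : M} (h : K.Same x y) :
    (∀ H, x ∈ K.N H → y ∈ K.N H) ∧ (∀ t, x ∈ K.face t → y ∈ K.face t) ∧
      (∀ H t, x ∈ K.J H t → y ∈ K.J H t) ∧ ∀ H, x ∈ K.skel H → y ∈ K.skel H := by
  have h1 : ∀ H, x ∈ K.N H → y ∈ K.N H := fun H hx => by
    obtain ⟨v, hv, g⟩ := mem_iUnion₂.1 hx
    exact mem_iUnion₂.2 ⟨v, hv, (h.1 v).1 g⟩
  have h2 : ∀ t, x ∈ K.face t → y ∈ K.face t := fun t hx =>
    ⟨trivial, fun v hv => (h.2 v).1 (hx.2 v hv)⟩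
  refine ⟨h1, h2, fun H t hx => ⟨⟨h2 t hx.1.1, h1 H hx.1.2⟩, h1 _ hx.2⟩, ?_⟩
  rintro H ⟨s, s', ht, hs, hc, hv, hx⟩
  obtain ⟨g1, g2⟩ := (c1_seg K hs hc).1 hx
  exact ⟨s, s', ht, hs, hc, hv, (c1_seg K hs hc).2 ⟨h2 _ g1, fun v hv => (h.1 v).1 (g2 v hv)⟩⟩

/-- Plan: the stratum is convex in barycentric coordinates (`Tri.exists_inv`). -/
theorem Tri.same_conn (x : M) : IsPreconnected {y | K.Same x y} := by
  have : Nonempty M := ⟨x⟩
  obtain ⟨σ, hc, hσ⟩ := K.exists_inv isCompact_univ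
  obtain ⟨t, ht, hx⟩ := (K.basic (mem_univ x)).2.2
  obtain ⟨u, hu⟩ := K.tile_basic.2.1 x
  have hm : {y ∈ stdSimplex ℝ K.V | (∀ v, x ∈ K.tile v ↔ ∀ w, y w ≤ y v) ∧
      ∀ v, K.lam x v = 0 ↔ y v = 0} ⊆ K.lam '' univ := fun y hy =>
    K.img.symm.subset ⟨hy.1, t, ht, fun v hv => (hy.2.2 v).1 (hx.2 v hv)⟩
  have hv : Convex ℝ {y ∈ stdSimplex ℝ K.V | (∀ v, x ∈ K.tile v ↔ ∀ w, y w ≤ y v) ∧
      ∀ v, K.lam x v = 0 ↔ y v = 0} := by
    intro y hy z hz p q hp hq e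
    refine ⟨convex_stdSimplex ℝ _ hy.1 hz.1 hp hq e, fun v => ⟨fun g w =>
      add_le_add (mul_le_mul_of_nonneg_left ((hy.2.1 v).1 g w) hp)
        (mul_le_mul_of_nonneg_left ((hz.2.1 v).1 g w) hq), fun g => ?_⟩,
      fun v => ⟨fun g => by simp [(hy.2.2 v).1 g, (hz.2.2 v).1 g], fun g => ?_⟩⟩
    · have a1 := (hy.2.1 u).1 hu
      have a2 := (hz.2.1 u).1 hu
      have a3 : p * y u + q * z u ≤ p * y v + q * z v := g u
      have a4 := mul_le_mul_of_nonneg_left (a1 v) hp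
      have a5 := mul_le_mul_of_nonneg_left (a2 v) hq
      rcases hp.eq_or_lt with rfl | hp'
      · obtain rfl : q = 1 := by linarith only [e]
        exact (hz.2.1 v).2 fun w => (a2 w).trans (by linarith)
      · exact (hy.2.1 v).2 fun w => (a1 w).trans (le_of_mul_le_mul_left (by linarith) hp')
    · have a3 : p * y v + q * z v = 0 := g
      have a4 := mul_nonneg hp (hy.1.1 v)
      have a5 := mul_nonneg hq (hz.1.1 v)
      rcases hp.eq_or_lt with rfl | hp'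
      · obtain rfl : q = 1 := by linarith
        exact (hz.2.2 v).2 (by linarith)
      · exact (hy.2.2 v).2 ((mul_eq_zero.1 (by linarith : p * y v = 0)).resolve_left hp'.ne')
  convert hv.isPreconnected.image σ (hc.mono hm) using 1
  ext y
  constructor
  · rintro ⟨h1, h2⟩
    obtain ⟨y0, y1, -⟩ := K.basic (mem_univ y)
    exact ⟨_, ⟨⟨y0, y1⟩, fun v => (h1 v).trans ⟨fun g => g.2, fun g => ⟨trivial, g⟩⟩, h2⟩,
      hσ y trivial⟩
  · rintro ⟨z, hz, rfl⟩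
    obtain ⟨y, -, rfl⟩ := hm hz
    rw [hσ y trivial]
    exact ⟨fun v => (hz.2.1 v).trans ⟨fun g => ⟨trivial, g⟩, fun g => g.2⟩, hz.2.2⟩

omit [T2Space M] [CompactSpace M] in
theorem Tri.same_card : (range fun x => {y | K.Same x y}).Finite ∧
    (range fun x => {y | K.Same x y}).ncard ≤ 4 ^ Fintype.card K.V := by
  classical
  have h : (range fun x => {y | K.Same x y}) ⊆ (fun p : Set K.V × Set K.V =>
      {y | (∀ v, v ∈ p.1 ↔ y ∈ K.tile v) ∧ ∀ v, v ∈ p.2 ↔ K.lam y v = 0}) '' univ := by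
    rintro _ ⟨x, rfl⟩
    exact ⟨({v | x ∈ K.tile v}, {v | K.lam x v = 0}), trivial, rfl⟩
  refine ⟨(finite_univ.image _).subset h, (ncard_le_ncard h (finite_univ.image _)).trans
    ((ncard_image_le finite_univ).trans_eq ?_)⟩
  rw [ncard_univ, Nat.card_eq_fintype_card, Fintype.card_prod, Fintype.card_set, ← mul_pow]
  rfl

omit [T2Space M] [CompactSpace M] in
theorem g1_two {H : Set K.V} {u v : K.V} (huv : u ≠ v) (hu : u ∈ H) {x : M}
    (h1 : x ∈ K.tile u) (h2 : x ∈ K.tile v) : x ∈ K.skel H := by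
  obtain ⟨t, ht, g⟩ := (K.basic (mem_univ x)).2.2
  have a1 := c1_mem K h1 g
  have a2 := c1_mem K h2 g
  exact ⟨{u, v}, t, ⟨t, ht, subset_rfl⟩, by simp [Finset.insert_subset_iff, a1, a2],
    by rw [K.card t ht, Finset.card_pair huv], ⟨u, by simp, hu⟩, c1_pair K ht huv a1 a2 g h1 h2⟩

theorem Tri.skel_iff (H : Set K.V) (x : M) : x ∈ K.skel H ↔ x ∈ K.skel univ ∧ x ∈ K.N H := by
  refine ⟨?_, ?_⟩
  · rintro ⟨s, s', ht, hs, hc, ⟨v, hv, hH⟩, hx⟩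
    exact ⟨⟨s, s', ht, hs, hc, ⟨v, hv, trivial⟩, hx⟩,
      mem_iUnion₂.2 ⟨v, hH, ((c1_seg K hs hc).1 hx).2 v hv⟩⟩
  · rintro ⟨⟨s, s', ht, hs, hc, ⟨v, hv, -⟩, hx⟩, hN⟩
    obtain ⟨w, hw, g⟩ := mem_iUnion₂.1 hN
    by_cases e : w = v
    · exact ⟨s, s', ht, hs, hc, ⟨v, hv, e ▸ hw⟩, hx⟩
    · exact g1_two K e hw g (((c1_seg K hs hc).1 hx).2 v hv)

/-- A point in two dual cells lies on an edge. -/
theorem Tri.skel_two {H : Set K.V} {u v : K.V} (huv : u ≠ v) (hu : u ∈ H) {x : M}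
    (h1 : x ∈ K.tile u) (h2 : x ∈ K.tile v) : x ∈ K.skel H := by
  exact g1_two K huv hu h1 h2

theorem Tri.N_disj {H H' : Set K.V} (h : Disjoint H H') (h' : ¬ Tch K.T H H') :
    Disjoint (K.N H) (K.N H') := by
  refine disjoint_left.2 fun x h1 h2 => ?_
  obtain ⟨u, hu, g1⟩ := mem_iUnion₂.1 h1
  obtain ⟨v, hv, g2⟩ := mem_iUnion₂.1 h2
  rcases K.tile_basic.2.2.2.2.1 u v x g1 g2 with rfl | e
  · exact disjoint_left.1 h hu hv
  · exact h' ⟨u, hu, v, hv, e⟩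

/-- The two half edges from `u` to `v`. -/
theorem Tri.half_edge {u v : K.V} (h : Adj K.T u v) : ∃ p, K.ctr {u, v} = {p} ∧
    Arc (K.seg {u} {u, v}) (K.pt u) p ∧ (∀ w, p ∈ K.tile w ↔ w = u ∨ w = v) ∧
    ∀ x ∈ K.seg {u} {u, v}, x ≠ p → ∀ w, x ∈ K.tile w ↔ w = u := by
  obtain ⟨huv, t, ht, hu, hv⟩ := h
  have s1 : ({u, v} : Finset K.V) ⊆ t := by simp [Finset.insert_subset_iff, hu, hv]
  have s2 : ({u} : Finset K.V) ⊆ {u, v} := by simp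
  have k : ({u, v} : Finset K.V).card = ({u} : Finset K.V).card + 1 := by
    rw [Finset.card_pair huv, Finset.card_singleton]
  obtain ⟨p, hp⟩ := K.ctr_single ht s1 (Finset.insert_nonempty _ _)
  have mp : p ∈ K.ctr {u, v} := hp ▸ rfl
  obtain ⟨p1, p2, -⟩ := c1_ctr K mp
  refine ⟨p, hp, K.seg_arc ht s2 s1 (Finset.singleton_nonempty _) k (K.ctr_pt u ▸ rfl) mp,
    fun w => ⟨fun g => by simpa using c1_mem K g p1, fun g => p2 w (by simpa using g)⟩,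
    fun x hx hne w => ?_⟩
  obtain ⟨g1, g2⟩ := (c1_seg K s2 k).1 hx
  have g3 := g2 u (Finset.mem_singleton_self u)
  refine ⟨fun g => ?_, fun g => g ▸ g3⟩
  refine (Finset.mem_insert.1 (c1_mem K g g1)).resolve_right fun e => hne ?_
  rw [Finset.mem_singleton.1 e] at g
  exact c1_sub K _ (c1_ctr' K g1 (by simp [g, g3])) mp

/-- The segment from the middle of an edge to the middle of a triangle. -/
theorem Tri.mid_edge {u v : K.V} {t : Finset K.V} (ht : t ∈ K.T) (huv : u ≠ v) (hu : u ∈ t)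
    (hv : v ∈ t) : ∃ p q, K.ctr {u, v} = {p} ∧ K.ctr t = {q} ∧ Arc (K.seg {u, v} t) p q ∧
    (∀ w, q ∈ K.tile w ↔ w ∈ t) ∧ K.seg {u, v} t ⊆ K.face t ∧
    ∀ x ∈ K.seg {u, v} t, x ≠ q → ∀ w, x ∈ K.tile w ↔ w = u ∨ w = v := by
  have s1 : ({u, v} : Finset K.V) ⊆ t := by simp [Finset.insert_subset_iff, hu, hv]
  have k : t.card = ({u, v} : Finset K.V).card + 1 := by rw [Finset.card_pair huv, K.card t ht]
  obtain ⟨p, hp⟩ := K.ctr_single ht s1 (Finset.insert_nonempty _ _)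
  obtain ⟨q, hq⟩ := K.ctr_single ht subset_rfl ⟨u, hu⟩
  have mp : p ∈ K.ctr {u, v} := hp ▸ rfl
  have mq : q ∈ K.ctr t := hq ▸ rfl
  obtain ⟨q1, q2, -⟩ := c1_ctr K mq
  refine ⟨p, q, hp, hq, K.seg_arc ht s1 subset_rfl (Finset.insert_nonempty _ _) k mp mq,
    fun w => ⟨fun g => c1_mem K g q1, q2 w⟩, fun x hx => hx.1, fun x hx hne w => ?_⟩
  obtain ⟨g1, g2⟩ := (c1_seg K s1 k).1 hx
  refine ⟨fun g => by_contra fun e => hne ?_, fun g => g2 w (by simpa using g)⟩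
  have e' : w ∉ ({u, v} : Finset K.V) := by simpa using e
  have e2 : insert w {u, v} = t := Finset.eq_of_subset_of_card_le
    (Finset.insert_subset (c1_mem K g g1) s1) (by rw [Finset.card_insert_of_notMem e', k])
  refine c1_sub K _ (c1_ctr' K g1 fun a ha => ?_) mq
  rcases Finset.mem_insert.1 (e2 ▸ ha : a ∈ insert w {u, v}) with rfl | ha
  exacts [g, g2 a ha]

/-- Two different triangles: the pieces of the frontier meet in the middle of a common edge. -/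
theorem Tri.J_inter {H : Set K.V} {t t' : Finset K.V} (ht : t ∈ K.T) (ht' : t' ∈ K.T)
    (hne : t ≠ t') {x : M} (h : x ∈ K.J H t) (h' : x ∈ K.J H t') :
    ∃ w ∈ H, ∃ v, v ∉ H ∧ w ∈ t ∧ v ∈ t ∧ w ∈ t' ∧ v ∈ t' ∧ x ∈ K.ctr {w, v} := by
  obtain ⟨w, hw, g1⟩ := mem_iUnion₂.1 h.1.2
  obtain ⟨v, hv, g2⟩ := mem_iUnion₂.1 h.2
  have hwv : w ≠ v := fun e => hv (e ▸ hw)
  have key : ∀ s ∈ K.T, x ∈ K.face s → ∀ a ∈ s, a ∉ ({w, v} : Finset K.V) →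
      insert a {w, v} = s := fun s hs hx a ha e => Finset.eq_of_subset_of_card_le
    (Finset.insert_subset ha (by simp [Finset.insert_subset_iff, c1_mem K g1 hx, c1_mem K g2 hx]))
    (by rw [Finset.card_insert_of_notMem e, Finset.card_pair hwv, K.card s hs])
  refine ⟨w, hw, v, hv, c1_mem K g1 h.1.1, c1_mem K g2 h.1.1, c1_mem K g1 h'.1.1,
    c1_mem K g2 h'.1.1, c1_ctr' K ⟨trivial, fun a ha => ?_⟩ (by simp [g1, g2])⟩
  by_cases e : a ∈ t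
  · by_cases e' : a ∈ t'
    · exact absurd ((key t ht h.1.1 a e ha).symm.trans (key t' ht' h'.1.1 a e' ha)) hne
    · exact h'.1.1.2 a e'
  · exact h.1.1.2 a e

/-- A connected set covered by pieces of the frontier gives a chain of triangles. -/
theorem Tri.fjn_of_conn {H : Set K.V} {R : Set (Finset K.V)} (hR : ∀ t ∈ R, t ∈ K.T) {C : Set M}
    (hC : IsPreconnected C) (h : C ⊆ ⋃ t ∈ R, K.J H t) {t t' : Finset K.V} (ht : t ∈ R)
    (ht' : t' ∈ R) (h1 : (C ∩ K.J H t).Nonempty) (h2 : (C ∩ K.J H t').Nonempty) :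
    FJn H R t t' := by
  refine by_contra fun g => ?_
  obtain ⟨x, -, k1, k2⟩ := isPreconnected_closed_iff.1 hC _ _
    (c3_union_closed K H {s ∈ R | FJn H R t s}) (c3_union_closed K H {s ∈ R | ¬ FJn H R t s})
    (fun x hx => by
      obtain ⟨s, hs, a⟩ := mem_iUnion₂.1 (h hx)
      by_cases e : FJn H R t s
      · exact .inl (mem_iUnion₂.2 ⟨s, ⟨hs, e⟩, a⟩)
      · exact .inr (mem_iUnion₂.2 ⟨s, ⟨hs, e⟩, a⟩))
    (h1.imp fun x hx => ⟨hx.1, mem_iUnion₂.2 ⟨t, ⟨ht, ht, .refl⟩, hx.2⟩⟩)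
    (h2.imp fun x hx => ⟨hx.1, mem_iUnion₂.2 ⟨t', ⟨ht', g⟩, hx.2⟩⟩)
  obtain ⟨s, hs, k1⟩ := mem_iUnion₂.1 k1
  obtain ⟨s', hs', k2⟩ := mem_iUnion₂.1 k2
  by_cases e : s = s'
  · exact hs'.2 (e ▸ hs.2)
  · obtain ⟨w, hw, v, hv, a1, a2, a3, a4, -⟩ := K.J_inter (hR s hs.1) (hR s' hs'.1) e k1 k2
    exact hs'.2 ⟨ht, hs.2.2.tail ⟨hs'.1, w, hw, v, hv, a1, a2, a3, a4⟩⟩

end Pool.Agent.MP_17e62b_gt.T55

end

section

/-!
Basic facts on the skeleton; the structure `Geo`.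
-/

namespace Pool.Agent.MP_17e62b_gt.T55

open Set Metric Topology H14 G
open scoped Manifold

variable {n : ℕ} {S : Surface n} {N : ℕ} {ρ δ : ℝ} (g : GD S N ρ δ)

theorem g2_H (i : Bool) : SqH i ⊆ frontier Sq := by
  rw [sq_basic.2.2.2]
  cases i
  · exact fun _ hz => .inl (.inl (.inl hz))
  · exact fun _ hz => .inl (.inl (.inr hz))

theorem g2_fr : frontier Sq ⊆ Sq := sq_basic.1.isClosed.frontier_subset

theorem g2_img (j : Fin g.m) {y : ℂ} (hy : y ∈ Sq) : g.Ψ j y ∈ g.K.N (g.W j) :=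
  g.img j ▸ mem_image_of_mem _ hy

theorem g2_bd {y : S.M} (hy : y ∈ (𝓡∂ 2).boundary S.M) {v : g.K.V} (h : y ∈ g.K.tile v) :
    v ∈ Bd g.K.T := by
  have := S.t2
  have := S.compact
  exact (Tri.bd_iff (atl S) g.K).1 y hy v (c1_pos g.K h).ne'

/-- A point of a class lies in the dual cell of a vertex that carries the class. -/
theorem g2_own {a : g.K.V} {y : S.M} (hy : y ∈ g.Cl a) :
    ∃ v ∈ Own g.Sv g.lab g.W g.L g.z a, y ∈ g.K.tile v := by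
  have := S.t2
  have := S.compact
  rcases hy with h | ⟨j, i, e, h⟩
  · obtain ⟨v, hv, h⟩ := mem_iUnion₂.1 h
    exact ⟨v, .inl hv, h⟩
  · rw [g.sH] at h
    obtain ⟨t, ht, h⟩ := mem_iUnion₂.1 h
    obtain ⟨w, hw, hwt, h⟩ := c3_vertex g.K h
    exact ⟨w, .inr ⟨j, i, e, hw, t, ht, hwt⟩, h⟩

theorem g2_cl {v : g.K.V} (hv : v ∈ g.Sv) {y : S.M} (h : y ∈ g.K.tile v) :
    ∃ x : g.κ, x.1 = g.lab v ∧ y ∈ g.Cl x.1 :=
  ⟨⟨g.lab v, (g.sk.cls v hv).1, (g.sk.cls v hv).2.1⟩, rfl, .inl (mem_iUnion₂.2 ⟨v, ⟨hv, rfl⟩, h⟩)⟩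

theorem GD.bd_disj : Disjoint g.Y (Bd g.K.T) ∧ Disjoint g.U (Bd g.K.T) ∧
    ∀ j, Disjoint (g.W j) (Bd g.K.T) := by
  refine ⟨disjoint_left.2 fun v hv hb => disjoint_left.1 g.sk.disj (g.sk.bd v hb).1 hv,
    disjoint_left.2 fun v hv hb => hv (.inl (.inl (g.sk.bd v hb).1)),
    fun j => disjoint_left.2 fun v hv hb => disjoint_left.1 (g.sk.out j) hv (.inl (g.sk.bd v hb).1)⟩

theorem GD.disj : Disjoint (g.K.N g.Y) (g.K.N (g.Sv ∪ g.Y)ᶜ) ∧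
    (∀ j k, j ≠ k → Disjoint (g.K.N (g.W j)) (g.K.N (g.W k))) ∧
    ∀ c c' : g.Cp, c ≠ c' → Disjoint (g.K.N c.1) (g.K.N c'.1) := by
  have := S.t2
  have := S.compact
  refine ⟨g.K.N_disj (disjoint_left.2 fun v hv h => h (.inr hv)) ?_,
    fun j k h => g.K.N_disj (g.sk.sep j k h).1 (g.sk.sep j k h).2, fun c c' h => ?_⟩
  · rintro ⟨y, hy, w, hw, h⟩
    obtain ⟨a, b, hab⟩ := g.sk.tube y hy
    exact hw (.inl (hab y (Jn.refl hy) w (fun e => hw (.inr e)) h).1)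
  · obtain ⟨A, u, hu, rfl⟩ := c
    obtain ⟨A', u', hu', rfl⟩ := c'
    have key : ¬ Jn g.K.T g.U u u' := fun e => h (Subtype.ext
      (Set.ext fun v => ⟨fun hv => e.symm.trans hv, fun hv => e.trans hv⟩))
    refine g.K.N_disj (disjoint_left.2 fun v hv hv' => key (Jn.trans hv (Jn.symm hv'))) ?_
    rintro ⟨v, hv, w, hw, e⟩
    exact key (Jn.trans (Jn.step hv (Jn.right hw) e) (Jn.symm hw))

theorem GD.int_band (j : Fin g.m) {y : ℂ} (hy : y ∈ Sq) :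
    g.Ψ j y ∈ g.K.N (g.W j)ᶜ ↔ y ∈ frontier Sq := by
  constructor
  · intro h
    have h1 : g.Ψ j y ∈ g.Ψ j '' frontier Sq := g.fr j ▸ ⟨g2_img g j hy, h⟩
    obtain ⟨y', hy', e⟩ := h1
    exact g.inj j (g2_fr hy') hy e ▸ hy'
  · intro h
    have h1 : g.Ψ j y ∈ g.K.N (g.W j) ∩ g.K.N (g.W j)ᶜ := g.fr j ▸ mem_image_of_mem _ h
    exact h1.2

/-- A point of a band in a dual cell of a class lies on an end. -/
theorem GD.band_S (j : Fin g.m) {y : ℂ} (hy : y ∈ Sq) (h : g.Ψ j y ∈ g.K.N (g.Sv ∪ g.Y)) :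
    y ∈ SqH false ∪ SqH true := by
  obtain ⟨v, hv, h⟩ := mem_iUnion₂.1 h
  have hW : v ∉ g.W j := fun e => disjoint_left.1 (g.sk.out j) e hv
  have h1 := (g.int_band j hy).1 (mem_iUnion₂.2 ⟨v, hW, h⟩)
  rw [sq_basic.2.2.2, union_assoc] at h1
  refine h1.resolve_right fun h2 => ?_
  have h3 : g.Ψ j y ∈ ⋃ t ∈ Rest g.K.T (g.W j) (g.L j), g.K.J (g.W j) t :=
    g.sV j ▸ mem_image_of_mem _ h2
  obtain ⟨t, ht, h3⟩ := mem_iUnion₂.1 h3
  rcases (g.sk.band j).rest t ht.1 (fun e => ht.2 (.inl e)) (fun e => ht.2 (.inr e)) v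
    (c1_mem g.K h h3.1.1) with e | e
  · exact hW e
  · exact e (.inl hv)

theorem GD.near_pt {v : g.K.V} {y : S.M} (h : y ∈ g.K.tile v) : ‖S.f y - S.f (g.K.pt v)‖ ≤ δ := by
  obtain ⟨t, ht, h1, h2, -⟩ := g.K.tile_basic.2.2.2.2.2.1 v y h
  exact dist_eq_norm (S.f y) _ ▸ g.mesh t ht y h1 _ h2

theorem GD.cl_closed (a : g.K.V) : IsClosed (g.Cl a) := by
  have := S.t2
  have := S.compact
  have e : g.Cl a = g.K.N {v ∈ g.Sv | g.lab v = a} ∪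
      ⋃ p ∈ {p : Fin g.m × Bool | g.z p.1 p.2 = a}, g.Ψ p.1 '' SqH p.2 := by
    ext y
    simp only [GD.Cl, mem_union, mem_iUnion₂, mem_ofPred_eq, Prod.exists, exists_prop]
  rw [e]
  refine (c3_N_closed g.K _).union ((toFinite _).isClosed_biUnion fun p _ => ?_)
  rw [g.sH]
  exact c3_union_closed g.K _ _

theorem GD.pt_mem {v : g.K.V} (hv : v ∈ g.Sv) : g.K.pt v ∈ g.Cl (g.lab v) := by
  exact .inl (mem_iUnion₂.2 ⟨v, ⟨hv, rfl⟩, g.K.tile_basic.2.2.2.1 v⟩)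

theorem GD.rad (a : g.K.V) : ∀ y ∈ g.Cl a, ‖S.f y - S.f (g.K.pt a)‖ ≤ ρ := by
  intro y hy
  obtain ⟨v, hv, h⟩ := g2_own g hy
  have h1 := g.near_pt h
  have h2 : dist (S.f (g.K.pt v)) (S.f (g.K.pt a)) ≤ ρ / 2 := by
    rcases hv with ⟨hv, rfl⟩ | ⟨j, i, rfl, -, t, ht, hv⟩
    · exact g.sk.rad v hv
    · exact g.sk.radL j i t ht v hv
  have h3 := dist_triangle (S.f y) (S.f (g.K.pt v)) (S.f (g.K.pt a))
  have h4 := g.le
  rw [← dist_eq_norm] at h1 ⊢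
  linarith

theorem GD.few : ({x : g.κ | x.1 ∈ Bd g.K.T}ᶜ).ncard ≤ N := by
  refine le_trans (ncard_le_ncard_of_injOn (fun x : g.κ => x.1) (fun x hx => ?_)
    Subtype.val_injective.injOn (toFinite _)) g.sk.few
  exact ⟨⟨x.1, x.2.1, x.2.2⟩, hx⟩

theorem GD.bd : ∀ y ∈ (𝓡∂ 2).boundary S.M, ∃ x ∈ {x : g.κ | x.1 ∈ Bd g.K.T}, y ∈ g.Cl x.1 := by
  intro y hy
  obtain ⟨v, h⟩ := g.K.tile_basic.2.1 y
  obtain ⟨h1, h2⟩ := g.sk.bd v (g2_bd g hy h)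
  obtain ⟨x, e, hx⟩ := g2_cl g h1 h
  exact ⟨x, show x.1 ∈ Bd g.K.T from e ▸ h2, hx⟩

/-- Plan: `Tri.conn_tiles` for `univ`, `Sk.iso`. -/
theorem GD.iso {a a' : g.K.V} (ha : a ∉ Bd g.K.T) {y y' : S.M} (hy : y ∈ g.Cl a)
    (hy' : y' ∈ g.Cl a') (h : Near S.f univ δ y y') : a' = a := by
  obtain ⟨C, -, hC, h1, h2, h3⟩ := h
  obtain ⟨v, hv, hyv⟩ := g2_own g hy
  obtain ⟨v', hv', hyv'⟩ := g2_own g hy'
  refine (g.sk.iso {u ∈ univ | (g.K.tile u ∩ C).Nonempty} ⟨subset_univ _,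
    g.K.conn_tiles univ hC fun x _ => ?_, ?_⟩ a a' ha ⟨v, ⟨trivial, y, hyv, h1⟩, hv⟩
    ⟨v', ⟨trivial, y', hyv', h2⟩, hv'⟩).symm
  · obtain ⟨u, hu⟩ := g.K.tile_basic.2.1 x
    exact mem_iUnion₂.2 ⟨u, trivial, hu⟩
  · rintro u ⟨-, x, hx, hxC⟩ w ⟨-, x', hx', hxC'⟩
    have e1 := g.near_pt hx
    have e2 := g.near_pt hx'
    have e3 := h3 x hxC x' hxC'
    have e4 := dist_triangle4 (S.f (g.K.pt u)) (S.f x) (S.f x') (S.f (g.K.pt w))
    rw [← dist_eq_norm] at e1 e2 e3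
    rw [dist_comm] at e1
    show dist (S.f (g.K.pt u)) (S.f (g.K.pt w)) ≤ 3 * δ
    linarith

theorem GD.free {a a' : g.K.V} (ha : a ∉ Bd g.K.T) {y : S.M} (hy : y ∈ g.Cl a)
    (hy' : y ∈ g.Cl a') : a' = a := by
  refine g.iso ha hy hy' ⟨{y}, subset_univ _, isPreconnected_singleton, rfl, rfl, ?_⟩
  rintro _ rfl _ rfl
  simpa only [sub_self, norm_zero] using g.pos.le

theorem GD.tb_closed (v : g.K.V) : IsClosed (g.Tb v) := by
  have := S.t2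
  have := S.compact
  exact c3_N_closed g.K _

theorem GD.tb_open (v : g.K.V) : IsOpen (g.Tb v \ ⋃ x : g.κ, g.Cl x.1) := by
  have := S.t2
  have := S.compact
  have e : g.Tb v \ ⋃ x : g.κ, g.Cl x.1 =
      (g.K.N {u | Jn g.K.T g.Y v u}ᶜ)ᶜ ∩ (⋃ x : g.κ, g.Cl x.1)ᶜ := by
    refine Subset.antisymm (fun y hy => ⟨fun h => hy.2 ?_, hy.2⟩) fun y hy => ⟨?_, hy.2⟩
    · obtain ⟨u, hu, h1⟩ := mem_iUnion₂.1 hy.1
      obtain ⟨w, hw, h2⟩ := mem_iUnion₂.1 h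
      have ha : Adj g.K.T u w :=
        (g.K.tile_basic.2.2.2.2.1 u w y h1 h2).resolve_left fun e => hw (e ▸ hu)
      obtain ⟨a, b, hab⟩ := g.sk.tube v hu.1
      obtain ⟨x, -, hx⟩ := g2_cl g (hab u hu w (fun e => hw (Jn.step hu e ha)) ha).1 h2
      exact mem_iUnion.2 ⟨x, hx⟩
    · obtain ⟨w, hw⟩ := g.K.tile_basic.2.1 y
      exact mem_iUnion₂.2 ⟨w, by_contra fun e => hy.1 (mem_iUnion₂.2 ⟨w, e, hw⟩), hw⟩
  rw [e]
  exact (c3_N_closed g.K _).isOpen_compl.inter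
    (isClosed_iUnion_of_finite fun x : g.κ => g.cl_closed x.1).isOpen_compl

theorem GD.tb_bd (v : g.K.V) : Disjoint (g.Tb v) ((𝓡∂ 2).boundary S.M) := by
  refine disjoint_left.2 fun y hy hb => ?_
  obtain ⟨u, hu, h⟩ := mem_iUnion₂.1 hy
  exact disjoint_left.1 g.bd_disj.1 (Jn.right hu) (g2_bd g hb h)

theorem GD.band_cl (j : Fin g.m) (a : g.K.V) : Disjoint (g.Ψ j '' interior Sq) (g.Cl a) := by
  refine disjoint_left.2 ?_
  rintro _ ⟨y, hy, rfl⟩ h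
  have hs : y ∈ Sq := interior_subset hy
  refine disjoint_left.1 disjoint_interior_frontier hy ?_
  rcases h with h | ⟨k, i, -, y', hy', e⟩
  · obtain ⟨v, hv, h⟩ := mem_iUnion₂.1 h
    exact (g.band_S j hs (mem_iUnion₂.2 ⟨v, .inl hv.1, h⟩)).elim (g2_H false ·) (g2_H true ·)
  · have hs' := g2_fr (g2_H i hy')
    by_cases hk : k = j
    · subst hk
      exact g.inj k hs' hs e ▸ g2_H i hy'
    · exact absurd (g2_img g j hs) (disjoint_left.1 (g.disj.2.1 k j hk) (e ▸ g2_img g k hs'))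

theorem GD.cl_sub (a : g.K.V) : g.Cl a ⊆ g.K.N g.Sv ∪ g.Lines := by
  rintro y (h | ⟨j, i, -, y', hy', rfl⟩)
  · obtain ⟨v, hv, h⟩ := mem_iUnion₂.1 h
    exact .inl (mem_iUnion₂.2 ⟨v, hv.1, h⟩)
  · refine .inr (mem_iUnion.2 ⟨j, y', .inl ?_, rfl⟩)
    cases i
    exacts [.inl hy', .inr hy']

/-- The structure `Geo` of the skeleton. -/
@[reducible] noncomputable def GD.geo : Geo S N ρ δ where
  κ := g.κ
  τ := g.K.V
  β := Fin g.m
  fκ := Fintype.ofFinite _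
  Cl x := g.Cl x.1
  root x := g.K.pt x.1
  Dir := {x | x.1 ∈ Bd g.K.T}
  Tb := g.Tb
  Ψ := g.Ψ
  en := g.en
  cl_closed x := g.cl_closed x.1
  cl_ne x := ⟨_, x.2.2 ▸ g.pt_mem x.2.1⟩
  rad x := g.rad x.1
  few := g.few
  bd := g.bd
  iso _ hx _ _ hy _ hy' h := Subtype.ext (g.iso hx hy hy' h)
  tb_closed := g.tb_closed
  tb_open := g.tb_open
  tb_bd := g.tb_bd
  cont := g.cont
  inj := g.inj
  band_cl j x := g.band_cl j x.1
  ends j i _ hz := Or.inr ⟨j, i, rfl, mem_image_of_mem _ hz⟩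
  long := g.long
  wide := g.wide

end Pool.Agent.MP_17e62b_gt.T55

end
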