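import Pool.Agent.MP_17e62b_gt.Mg.T55_MA3
import Pool.Agent.MP_17e62b_gt.Mg.G_H14Iface
import Pool.Agent.MP_17e62b_gt.Mg.T55_MC
import Pool.Agent.MP_17e62b_gt.Mg.T55_MA2

attribute [-instance] LieAdmissibleAlgebra.toModule LeftPreLieAlgebra.toModule
  RightPreLieAlgebra.toModule AddQuantale.instAddLeftMono IsPurelyInseparable.isIntegral
  instCoeTCOfCoe RKHS.instFunLike Algebra.WeaklyEtale.flat AddQuantale.instAddRightMono
  Valued.toUniformSpace ProperSMul.toContinuousSMul NumberField.to_charZero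
  NonUnitalNonAssocRing.toAddCommGroup Topology.IsScott.instClosedIicTopologyOfUnivSet
  instCoeHTCTOfCoeTailOfCoeHTC Quantale.instMulRightMono instCoeOutOfCoeSort
  LinearOrderedCommMonoidWithZero.toPosMulStrictMono instCoeHTCOfCoeHeadOfCoeOTC Algebra.Smooth.flat

section

/-!
The frontier of a lens: sides and labels.
-/

namespace Pool.Agent.MP_17e62b_gt.T55

open Set Metric Topology H14 G

theorem f2_spec (m : ℕ) : (lens m).up = upm m ∧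
    ∀ v, v ∈ (lens m).Vt ↔ ∃ k ≤ m + 2, v = vk (m + 2) k 1 ∨ v = vk (m + 2) k (-1) :=
  (exists_lens m).choose_spec

theorem f2_fr {m : ℕ} {z : ℂ} : z ∈ frontier (lens m).P ↔ |z.re| ≤ 1 ∧ |z.im| = upm m z.re := by
  have h := (lens m).mem_frontier (s := 0) (z := z)
  rw [← (f2_spec m).1]
  refine h.trans ⟨?_, fun h => ⟨⟨h.1, by simp [h.2]⟩, Or.inr (by simp [h.2])⟩⟩
  rintro ⟨⟨h1, h2⟩, h3 | h3⟩
  · have h4 := (lens m).le_two h1
    have h5 := (lens m).half_le h1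
    have := abs_nonneg z.im
    rw [h3] at h4 h5
    exact ⟨h1, by linarith only [h2, h4, this]⟩
  · exact ⟨h1, by simpa using h3⟩

theorem f2_strict (n : ℕ) : StrictMono (tk (n + 2)) := strictMono_nat_of_lt_succ fun k => by
  rw [exists_lens_succ]
  have : (0 : ℝ) < 2 / (n + 2 : ℕ) := by positivity
  linarith

theorem f2_pos {m : ℕ} {x : ℝ} (hx : |x| < 1) : 0 < upm m x := by
  have := (lens m).half_le hx.le
  rw [(f2_spec m).1] at this
  linarith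

theorem lens_basic (m : ℕ) : IsCompact (lens m).P ∧ Convex ℝ (lens m).P ∧
    (0 : ℂ) ∈ interior (lens m).P ∧ (((lens m).Vt : Set ℂ) ⊆ frontier (lens m).P) ∧
    (lens m).Vt.card = 2 * (m + 2) := by
  classical
  refine ⟨(lens m).compact_reg 0, (lens m).convex_reg 0,
    mem_interior_iff_mem_nhds.2 ((lens m).nhds_reg le_rfl), fun v hv => ?_, ?_⟩
  · rw [f2_fr, ← (f2_spec m).1]
    exact (lens m).vt v hv
  have inj : ∀ e, Function.Injective fun k => vk (m + 2) k e := fun e a b h =>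
    (f2_strict m).injective (congrArg Complex.re h)
  have : (lens m).Vt = (Finset.range (m + 3)).image (fun k => vk (m + 2) k 1) ∪
      (Finset.Ioo 0 (m + 2)).image fun k => vk (m + 2) k (-1) := by
    ext v
    simp only [(f2_spec m).2, Finset.mem_union, Finset.mem_image, Finset.mem_range, Finset.mem_Ioo]
    constructor
    · rintro ⟨k, hk, rfl | rfl⟩
      · exact Or.inl ⟨k, by omega, rfl⟩
      by_cases h0 : k = 0
      · exact Or.inl ⟨k, by omega, by simp only [vk, h0, exists_lens_zero, even_two, Even.neg_pow, one_pow, sub_self, mul_zero]⟩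
      by_cases h1 : k = m + 2
      · exact Or.inl ⟨k, by omega, by simp only [h1, vk, exists_lens_last]; norm_num⟩
      · exact Or.inr ⟨k, by omega, rfl⟩
    · rintro (⟨k, hk, rfl⟩ | ⟨k, hk, rfl⟩)
      exacts [⟨k, by omega, Or.inl rfl⟩, ⟨k, by omega, Or.inr rfl⟩]
  rw [this, Finset.card_union_of_disjoint, Finset.card_image_of_injective _ (inj _),
    Finset.card_image_of_injective _ (inj _)]
  · simp only [Finset.card_range, Nat.card_Ioo, tsub_zero, Nat.add_one_sub_one]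
    omega
  · simp only [Finset.disjoint_left, Finset.mem_image, Finset.mem_range, Finset.mem_Ioo]
    rintro _ ⟨k, -, rfl⟩ ⟨j, hj, e⟩
    obtain rfl : j = k := (f2_strict m).injective (congrArg Complex.re e)
    have h1 := congrArg Complex.im e
    have h2 := f2_strict m hj.1
    have h3 := f2_strict m hj.2
    rw [exists_lens_zero] at h2
    rw [exists_lens_last] at h3
    simp only [vk] at h1
    nlinarith only [h1, h2, h3]

/-- The points of a side. -/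
theorem f2_seg {m k : ℕ} (hk : k < m + 2) (e : ℝ) {z : ℂ} :
    z ∈ segment ℝ (vk (m + 2) k e) (vk (m + 2) (k + 1) e) ↔
      tk (m + 2) k ≤ z.re ∧ z.re ≤ tk (m + 2) (k + 1) ∧ z.im = e * upm m z.re := by
  have h0 : (0 : ℝ) < 2 / (m + 2 : ℕ) := by positivity
  rw [segment_eq_image_lineMap, exists_lens_succ]
  constructor
  · rintro ⟨s, hs, rfl⟩
    rw [exists_lens_side hk e hs]
    exact ⟨by simpa only [Nat.cast_add, Nat.cast_ofNat, le_add_iff_nonneg_right] using mul_nonneg hs.1 h0.le, by simpa only [Nat.cast_add, Nat.cast_ofNat, add_le_add_iff_left] using mul_le_of_le_one_left h0.le hs.2,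
      rfl⟩
  · rintro ⟨h1, h2, h3⟩
    have hs : (z.re - tk (m + 2) k) / (2 / (m + 2 : ℕ)) ∈ Icc (0 : ℝ) 1 :=
      ⟨div_nonneg (by linarith only [h1]) h0.le, (div_le_one h0).2 (by linarith only [h2])⟩
    refine ⟨_, hs, ?_⟩
    rw [exists_lens_side hk e hs, div_mul_cancel₀ _ h0.ne', add_sub_cancel, ← h3]

theorem LSide.seg {m : ℕ} {v v' : ℂ} (h : LSide m v v') :
    v ≠ v' ∧ segment ℝ v v' ⊆ frontier (lens m).P ∧
      ∀ w ∈ (lens m).Vt, w ∈ segment ℝ v v' → w = v ∨ w = v' := by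
  obtain ⟨k, hk, e, he, rfl, rfl⟩ := h
  refine ⟨fun h => (f2_strict m (Nat.lt_succ_self k)).ne (congrArg Complex.re h), fun z hz => ?_,
    fun w hw hz => ?_⟩
  · obtain ⟨h1, h2, h3⟩ := (f2_seg hk e).1 hz
    have h4 : |z.re| ≤ 1 := abs_le.2 ⟨(abs_le.1 (exists_lens_abs hk.le)).1.trans h1,
      h2.trans (abs_le.1 (exists_lens_abs hk)).2⟩
    have h5 := (lens m).half_le h4
    rw [(f2_spec m).1] at h5
    refine f2_fr.2 ⟨h4, ?_⟩
    rw [h3, abs_mul, abs_of_nonneg (by linarith only [h4, h5] : 0 ≤ upm m z.re)]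
    rcases he with rfl | rfl <;> simp
  · obtain ⟨h1, h2, h3⟩ := (f2_seg hk e).1 hz
    obtain ⟨j, hj, h⟩ := ((f2_spec m).2 w).1 hw
    have h4 : w.re = tk (m + 2) j := by rcases h with rfl | rfl <;> rfl
    rw [h4] at h1 h2 h3
    rw [exists_lens_tk hj] at h3
    have h5 := (f2_strict m).le_iff_le.1 h1
    have h6 := (f2_strict m).le_iff_le.1 h2
    obtain rfl | rfl : j = k ∨ j = k + 1 := by omega
    exacts [Or.inl (Complex.ext h4 h3), Or.inr (Complex.ext h4 h3)]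

theorem f2_sep {m : ℕ} {v v' : ℂ} (h : LSide m v v') {a b : ℂ} (ha : a ∈ segment ℝ v v')
    (hb : b ∈ segment ℝ v v') (hab : a.re < b.re) {C : Set ℂ} (hC : IsPreconnected C)
    (h1 : C ⊆ frontier (lens m).P) (h2 : a ∉ C) (h3 : b ∉ C)
    (h4 : (C ∩ openSegment ℝ a b).Nonempty) : C ⊆ openSegment ℝ a b := by
  obtain ⟨k, hk, e, he, rfl, rfl⟩ := h
  obtain ⟨a1, a2, a3⟩ := (f2_seg hk e).1 ha
  obtain ⟨b1, b2, b3⟩ := (f2_seg hk e).1 hb
  have c1 := (abs_le.1 (exists_lens_abs hk.le)).1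
  have c2 := (abs_le.1 (exists_lens_abs (m := m) (k := k + 1) hk)).2
  have hsub : segment ℝ a b ⊆ segment ℝ _ _ := (convex_segment _ _).segment_subset ha hb
  have hU : IsOpen {z : ℂ | a.re < z.re ∧ z.re < b.re ∧ 0 < e * z.im} :=
    (isOpen_lt continuous_const Complex.continuous_re).inter
      ((isOpen_lt Complex.continuous_re continuous_const).inter
        (isOpen_lt continuous_const (continuous_const.mul Complex.continuous_im)))
  have k1 : ∀ z ∈ openSegment ℝ a b, a.re < z.re ∧ z.re < b.re ∧ 0 < e * z.im := by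
    intro z hz
    have h5 := ((f2_seg hk e).1 (hsub (openSegment_subset_segment _ _ _ hz))).2.2
    obtain ⟨s, t, hs, ht, hst, rfl⟩ := hz
    have r1 : (s • a + t • b).re = s * a.re + t * b.re := by simp
    have r2 : a.re < (s • a + t • b).re := by rw [r1]; nlinarith only [hab, a1, c1, ht, hst]
    have r3 : (s • a + t • b).re < b.re := by rw [r1]; nlinarith only [hab, a1, c1, hs, hst]
    have := f2_pos (m := m) (abs_lt.2 ⟨by linarith only [a1, c1, r2], (by linarith only [b2, c2, r3] : (s • a + t • b).re < 1)⟩)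
    refine ⟨r2, r3, ?_⟩
    rw [h5]
    rcases he with rfl | rfl <;> linarith only [this]
  have k2 : ∀ z ∈ frontier (lens m).P, a.re < z.re → z.re < b.re → 0 < e * z.im →
      z ∈ openSegment ℝ a b := by
    intro z hz z1 z2 z3
    have z4 : z.im = e * upm m z.re := by
      rw [← (f2_fr.1 hz).2]
      rcases he with rfl | rfl
      · rw [abs_of_pos (by linarith only [z3])]; ring
      · rw [abs_of_neg (by linarith only [z3])]; ring
    have hd : 0 < b.re - a.re := by linarith only [z1, z2]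
    have hw : ((b.re - z.re) / (b.re - a.re)) • a + ((z.re - a.re) / (b.re - a.re)) • b ∈
        openSegment ℝ a b := ⟨_, _, div_pos (by linarith only [z2]) hd, div_pos (by linarith only [z1]) hd,
      by field_simp; ring, rfl⟩
    have h5 := ((f2_seg hk e).1 (hsub (openSegment_subset_segment _ _ _ hw))).2.2
    have h6 : (((b.re - z.re) / (b.re - a.re)) • a + ((z.re - a.re) / (b.re - a.re)) • b).re =
        z.re := by
      simp only [Complex.add_re, Complex.smul_re, smul_eq_mul]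
      field_simp
      ring
    rw [h6, ← z4] at h5
    exact (Complex.ext h6 h5 : _ = z) ▸ hw
  have hcl : IsClosed (segment ℝ a b) := by
    rw [segment_eq_image_lineMap]
    exact (isCompact_Icc.image AffineMap.lineMap_continuous).isClosed
  rcases isPreconnected_iff_subset_of_disjoint.1 hC _ _ hU hcl.isOpen_compl (fun z hz => by
      by_cases hs : z ∈ segment ℝ a b
      · rw [← insert_endpoints_openSegment] at hs
        rcases hs with rfl | rfl | hs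
        exacts [absurd hz h2, absurd hz h3, Or.inl (k1 z hs)]
      · exact Or.inr hs)
    (eq_empty_of_forall_notMem fun z hz => hz.2.2
      (openSegment_subset_segment _ _ _ (k2 z (h1 hz.1) hz.2.1.1 hz.2.1.2.1 hz.2.1.2.2))) with
    h | h
  · exact fun z hz => k2 z (h1 hz) (h hz).1 (h hz).2.1 (h hz).2.2
  · obtain ⟨z, hz, hz'⟩ := h4
    exact absurd (openSegment_subset_segment _ _ _ hz') (h hz)

/-- An open piece of a side is open and closed in the frontier without its two ends. -/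
theorem LSide.sep {m : ℕ} {v v' : ℂ} (h : LSide m v v') {a b : ℂ} (ha : a ∈ segment ℝ v v')
    (hb : b ∈ segment ℝ v v') {C : Set ℂ} (hC : IsPreconnected C) (h1 : C ⊆ frontier (lens m).P)
    (h2 : a ∉ C) (h3 : b ∉ C) (h4 : (C ∩ openSegment ℝ a b).Nonempty) :
    C ⊆ openSegment ℝ a b := by
  rcases lt_trichotomy a.re b.re with hab | hab | hab
  · exact f2_sep h ha hb hab hC h1 h2 h3 h4
  · obtain ⟨k, hk, e, -, rfl, rfl⟩ := h
    obtain rfl : a = b := Complex.ext hab (by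
      rw [((f2_seg hk e).1 ha).2.2, ((f2_seg hk e).1 hb).2.2, hab])
    obtain ⟨z, hz, hz'⟩ := h4
    rw [openSegment_same] at hz'
    exact absurd (hz' ▸ hz) h2
  · rw [openSegment_symm] at h4 ⊢
    exact f2_sep h hb ha hab hC h1 h3 h2 h4

/-- Labels with connected fibres are monotone on the sides. -/
theorem lab_side {m : ℕ} {lab : ℂ → (lens m).Vt} (h1 : ∀ v : (lens m).Vt, lab v = v)
    (h2 : ∀ v, IsPreconnected {b ∈ frontier (lens m).P | lab b = v}) {v v' : (lens m).Vt}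
    (h : LSide m v v') : (∀ b ∈ segment ℝ (v : ℂ) v', lab b = v ∨ lab b = v') ∧
      ∀ s ∈ Icc (0 : ℝ) 1, lab (AffineMap.lineMap (v : ℂ) (v' : ℂ) s) = v ∨
        ∀ s' ∈ Icc s 1, lab (AffineMap.lineMap (v : ℂ) (v' : ℂ) s') = v' := by
  obtain ⟨s1, s2, s3⟩ := LSide.seg h
  have hv : ∀ w : (lens m).Vt, (w : ℂ) ∈ {b ∈ frontier (lens m).P | lab b = w} := fun w =>
    ⟨(lens_basic m).2.2.2.1 w.2, h1 w⟩
  have key : ∀ b ∈ segment ℝ (v : ℂ) v', lab b = v ∨ lab b = v' := by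
    intro b hb
    by_contra hn
    rw [not_or] at hn
    have hb' := hb
    rw [← insert_endpoints_openSegment] at hb'
    rcases hb' with rfl | rfl | hb'
    · exact hn.1 (h1 v)
    · exact hn.2 (h1 v')
    have := LSide.sep h (left_mem_segment _ _ _) (right_mem_segment _ _ _) (h2 (lab b))
      (fun _ hz => hz.1) (fun hz => hn.1 (hz.2.symm.trans (h1 v)))
      (fun hz => hn.2 (hz.2.symm.trans (h1 v'))) ⟨b, ⟨s2 hb, rfl⟩, hb'⟩ (hv (lab b))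
    rcases s3 _ (lab b).2 (openSegment_subset_segment _ _ _ this) with e | e
    exacts [hn.1 (Subtype.ext e), hn.2 (Subtype.ext e)]
  refine ⟨key, fun s hs => or_iff_not_imp_left.2 fun hn s' hs' => ?_⟩
  have hm : ∀ t ∈ Icc (0 : ℝ) 1, AffineMap.lineMap (v : ℂ) (v' : ℂ) t ∈ segment ℝ (v : ℂ) v' :=
    fun t ht => by
      rw [segment_eq_image_lineMap]
      exact mem_image_of_mem _ ht
  have hs'' : s' ∈ Icc (0 : ℝ) 1 := ⟨hs.1.trans hs'.1, hs'.2⟩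
  refine (key _ (hm s' hs'')).resolve_left fun e => ?_
  have hne : v' ≠ v := fun e => s1 (congrArg Subtype.val e).symm
  have n1 : s < s' := hs'.1.lt_of_ne fun e' => hn (e' ▸ e)
  have n2 : s' < 1 := hs'.2.lt_of_ne fun e' => hne (by
    rw [e', AffineMap.lineMap_apply_one, h1] at e
    exact e)
  have n3 : 0 < s := hs.1.lt_of_ne fun e' => hn (by rw [← e', AffineMap.lineMap_apply_zero, h1])
  have := LSide.sep h (hm s hs) (right_mem_segment _ _ _) (h2 v) (fun _ hz => hz.1)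
    (fun hz => hn hz.2) (fun hz => hne ((h1 v').symm.trans hz.2))
    ⟨_, ⟨s2 (hm s' hs''), e⟩, (1 - s') / (1 - s), (s' - s) / (1 - s),
      div_pos (by linarith only [n2]) (by linarith only [n1, n2]), div_pos (by linarith) (by linarith), by
        have : 1 - s ≠ 0 := by linarith
        field_simp
        ring, by
        have : 1 - s ≠ 0 := by linarith
        simp only [AffineMap.lineMap_apply_module]
        match_scalars <;> field_simp <;> ring⟩ (hv v)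
  obtain ⟨x, y, hx, hy, hxy, e'⟩ := this
  rw [AffineMap.lineMap_apply_module] at e'
  have e2 : (x * s + y) • ((v' : ℂ) - v) = 0 := by
    rw [← sub_eq_zero] at e'
    rw [← e', show y = 1 - x by linarith only [hxy]]
    module
  rcases smul_eq_zero.1 e2 with e3 | e3
  · nlinarith only [n1, n2, n3, hy, hxy, e3]
  · exact s1 (sub_eq_zero.1 e3).symm

theorem near_side {E : Type} [NormedAddCommGroup E] {v v' : ℂ} {f : ℂ → E} (hf : Continuous f)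
    {a a' : E} {r : ℝ} (h0 : ‖f v - a‖ ≤ r) (h1 : ‖f v' - a'‖ ≤ r)
    (h : ∀ b ∈ segment ℝ v v', ‖f b - a‖ ≤ r ∨ ‖f b - a'‖ ≤ r) :
    ∀ b ∈ segment ℝ v v', ‖f b - a‖ ≤ 3 * r ∧ ‖f b - a'‖ ≤ 3 * r := by
  have hc : ∀ x : E, IsClosed {z | ‖f z - x‖ ≤ r} := fun x =>
    isClosed_le (hf.sub continuous_const).norm continuous_const
  obtain ⟨w, -, w1, w2⟩ := isPreconnected_closed_iff.1 (convex_segment v v').isPreconnected _ _
    (hc a) (hc a') h ⟨v, left_mem_segment _ _ _, h0⟩ ⟨v', right_mem_segment _ _ _, h1⟩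
  have h2 : ‖a - a'‖ ≤ 2 * r := by
    have := norm_sub_le_norm_sub_add_norm_sub a (f w) a'
    rw [norm_sub_rev a (f w)] at this
    exact this.trans (by linarith [show ‖f w - a‖ ≤ r from w1, show ‖f w - a'‖ ≤ r from w2])
  have hr : 0 ≤ r := (norm_nonneg _).trans h0
  intro b hb
  have h3 := norm_sub_le_norm_sub_add_norm_sub (f b) a a'
  have h4 := norm_sub_le_norm_sub_add_norm_sub (f b) a' a
  rw [norm_sub_rev a' a] at h4
  rcases h b hb with h5 | h5 <;> constructor <;> linarith only [hr, h5, h2, h3, h4]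

end Pool.Agent.MP_17e62b_gt.T55

end

section

/-!
Marks on a closed curve.
-/

namespace Pool.Agent.MP_17e62b_gt.T55

open Set Metric Topology H14 G

variable {M : Type} [TopologicalSpace M] [T2Space M]

/-- Plan: if `Q = J`, split off a point; else `Q` is an interval in the loop that starts at a point
outside `Q` (`Dsc.loop`). -/
theorem Dsc.split {d J Q : Set M} (h : Dsc d J) (hQ : Q ⊆ J) (hc : IsPreconnected Q)
    (hi : Q.Infinite) : ∃ Q₁ Q₂, Q₁ ∪ Q₂ = Q ∧ Disjoint Q₁ Q₂ ∧ IsPreconnected Q₁ ∧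
      IsPreconnected Q₂ ∧ Q₁.Nonempty ∧ Q₂.Infinite := by
  by_cases hJ : ∃ p ∈ J, p ∉ Q
  · obtain ⟨p, hp, hpQ⟩ := hJ
    obtain ⟨γ, c, i, g0, g1, e⟩ := h.loop hp
    set S : Set ℝ := {t ∈ Ico (0 : ℝ) 1 | γ t ∈ Q} with hS
    have sS : S ⊆ Ico 0 1 := fun t ht => ht.1
    have eS : γ '' S = Q := by
      refine Subset.antisymm (by rintro _ ⟨t, ht, rfl⟩; exact ht.2) fun x hx => ?_
      obtain ⟨t, ht, rfl⟩ := e.symm ▸ hQ hx
      exact ⟨t, ⟨ht, hx⟩, rfl⟩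
    have oS : S.OrdConnected := by
      refine ⟨fun a ha b hb t ht => ?_⟩
      have t0 : 0 ≤ t := ha.1.1.trans ht.1
      have t1 : t < 1 := ht.2.trans_lt hb.1.2
      refine ⟨⟨t0, t1⟩, by_contra fun hn => ?_⟩
      have k1 : IsClosed (γ '' Icc 0 t) :=
        (isCompact_Icc.image_of_continuousOn (c.mono (Icc_subset_Icc_right t1.le))).isClosed
      have k2 : IsClosed (γ '' Icc t 1) :=
        (isCompact_Icc.image_of_continuousOn (c.mono (Icc_subset_Icc_left t0))).isClosed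
      obtain ⟨x, hx, ⟨u, hu, rfl⟩, v, hv, huv⟩ := isPreconnected_closed_iff.1 hc _ _ k1 k2
        (by
          intro x hx
          obtain ⟨u, hu, rfl⟩ := eS.symm ▸ hx
          rcases le_total u t with l | l
          · exact Or.inl ⟨u, ⟨hu.1.1, l⟩, rfl⟩
          · exact Or.inr ⟨u, ⟨l, hu.1.2.le⟩, rfl⟩)
        ⟨_, ha.2, a, ⟨ha.1.1, ht.1⟩, rfl⟩ ⟨_, hb.2, b, ⟨ht.2, hb.1.2.le⟩, rfl⟩
      rcases hv.2.eq_or_lt with rfl | l
      · exact hpQ (g1 ▸ huv ▸ hx)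
      · have e1 : v = u := i ⟨t0.trans hv.1, l⟩ ⟨hu.1, hu.2.trans_lt t1⟩ huv
        have e2 : u = t := le_antisymm hu.2 (e1 ▸ hv.1)
        exact hn (e2 ▸ hx)
    obtain ⟨a, ha, b, hb, hab⟩ : ∃ a ∈ S, ∃ b ∈ S, a < b := by
      obtain ⟨a, ha, b, hb, hab⟩ := (Infinite.of_image γ (eS.symm ▸ hi)).nontrivial
      rcases lt_or_gt_of_ne hab with l | l
      · exact ⟨a, ha, b, hb, l⟩
      · exact ⟨b, hb, a, ha, l⟩
    have cS : ContinuousOn γ S := c.mono (sS.trans Ico_subset_Icc_self)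
    have iS : InjOn γ S := i.mono sS
    refine ⟨γ '' (S ∩ Iic a), γ '' (S ∩ Ioi a), ?_, ?_,
      (oS.inter ordConnected_Iic).isPreconnected.image _ (cS.mono inter_subset_left),
      (oS.inter ordConnected_Ioi).isPreconnected.image _ (cS.mono inter_subset_left),
      ⟨_, a, ⟨ha, self_mem_Iic⟩, rfl⟩, ?_⟩
    · rw [← image_union, ← inter_union_distrib_left, Iic_union_Ioi, inter_univ, eS]
    · rw [Set.disjoint_left]
      rintro _ ⟨u, hu, rfl⟩ ⟨v, hv, huv⟩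
      exact absurd (mem_Ioi.1 (iS hv.1 hu.1 huv ▸ hv.2)) (not_lt.2 hu.2)
    · refine Infinite.image (iS.mono inter_subset_left) ((Ioo_infinite hab).mono fun t ht => ?_)
      exact ⟨oS.out ha hb (Ioo_subset_Icc_self ht), ht.1⟩
  · push Not at hJ
    obtain ⟨p, hp⟩ := hi.nonempty
    obtain ⟨γ, c, i, g0, g1, e⟩ := h.loop (hQ hp)
    have e1 : γ '' Ioo 0 1 = Q \ {p} := by
      rw [← Ico_sdiff_left, i.image_sdiff_subset (singleton_subset_iff.2 ⟨le_rfl, zero_lt_one⟩), e,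
        image_singleton, g0, Subset.antisymm hQ hJ]
    refine ⟨{p}, Q \ {p}, union_sdiff_cancel (singleton_subset_iff.2 hp), disjoint_sdiff_right,
      isPreconnected_singleton, ?_, singleton_nonempty p, hi.sdiff (finite_singleton p)⟩
    exact e1 ▸ isPreconnected_Ioo.image _ (c.mono Ioo_subset_Icc_self)

/-- A partition of `J` into finitely many connected pieces with base points. -/
def f3_Inv (J : Set M) {ν : Type} (Λ : M → ν) (Fr : Set ν) (Z : Set M) (π : M → M) : Prop :=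
  Z ⊆ J ∧ Z.Finite ∧ (∀ x ∈ J, π x ∈ Z ∧ Λ (π x) = Λ x) ∧ (∀ z ∈ Z, π z = z) ∧
    (∀ z, IsPreconnected {x ∈ J | π x = z}) ∧
    ∀ C ⊆ J, IsPreconnected C → (∀ x ∈ C, ∀ y ∈ C, Λ x = Λ y) → ∀ x ∈ C, ∀ y ∈ C, Λ x ∈ Fr →
      π x = π y

omit [T2Space M] in
theorem f3_cut {J : Set M} {ν : Type} {Λ : M → ν} {Fr : Set ν} {Z : Set M} {π : M → M}
    (h : f3_Inv J Λ Fr Z π) {z : M} (hz : Λ z ∉ Fr) {A B : Set M}
    (e : A ∪ B = {x ∈ J | π x = z}) (hd : Disjoint A B) (hA : IsPreconnected A)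
    (hB : IsPreconnected B) (hzA : z ∈ A) (hne : B.Nonempty) :
    ∃ Z' π', f3_Inv J Λ Fr Z' π' ∧ Z'.ncard = Z.ncard + 1 := by
  classical
  obtain ⟨h1, h2, h3, h4, h5, h6⟩ := h
  obtain ⟨w, hw⟩ := hne
  have mA : ∀ x ∈ A, x ∈ J ∧ π x = z := fun x hx => (e.le (Or.inl hx) :)
  have mB : ∀ x ∈ B, x ∈ J ∧ π x = z := fun x hx => (e.le (Or.inr hx) :)
  have lB : ∀ x ∈ B, Λ x = Λ z := fun x hx => by rw [← (h3 x (mB x hx).1).2, (mB x hx).2]
  have zB : ∀ x ∈ Z, x ∉ B := fun x hx hb =>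
    Set.disjoint_left.1 hd hzA (((h4 x hx).symm.trans (mB x hb).2) ▸ hb)
  have wZ : w ∉ Z := fun hx => zB w hx hw
  refine ⟨insert w Z, fun x => if x ∈ B then w else π x,
    ⟨insert_subset (mB w hw).1 h1, h2.insert w, fun x hx => ?_, ?_, fun y => ?_,
      fun C hC pC lC x hx y hy hF => ?_⟩, ncard_insert_of_notMem wZ h2⟩
  · by_cases hb : x ∈ B
    · simp only [if_pos hb]
      exact ⟨mem_insert _ _, (lB w hw).trans (lB x hb).symm⟩
    · simp only [if_neg hb]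
      exact ⟨mem_insert_of_mem _ (h3 x hx).1, (h3 x hx).2⟩
  · rintro x (rfl | hx)
    · exact if_pos hw
    · exact (if_neg (zB x hx)).trans (h4 x hx)
  · by_cases hy : y = w
    · convert hB using 1
      ext x
      refine ⟨fun hx => by_contra fun hb => wZ ?_, fun hb => ⟨(mB x hb).1, (if_pos hb).trans hy.symm⟩⟩
      rw [← hy, ← (if_neg hb).symm.trans hx.2]
      exact (h3 x hx.1).1
    have nb : ∀ x, (if x ∈ B then w else π x) = y → x ∉ B := fun x hx hb =>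
      hy (hx.symm.trans (if_pos hb))
    by_cases hy' : y = z
    · convert hA using 1
      ext x
      refine ⟨fun hx => ?_, fun ha => ⟨(mA x ha).1, ?_⟩⟩
      · have hb := nb x hx.2
        exact (e.ge ⟨hx.1, ((if_neg hb).symm.trans hx.2).trans hy'⟩).resolve_right hb
      · exact (if_neg (Set.disjoint_left.1 hd ha)).trans ((mA x ha).2.trans hy'.symm)
    · convert h5 y using 1
      ext x
      refine ⟨fun hx => ⟨hx.1, (if_neg (nb x hx.2)).symm.trans hx.2⟩, fun hx => ⟨hx.1, ?_⟩⟩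
      exact (if_neg fun hb => hy' (hx.2.symm.trans (mB x hb).2)).trans hx.2
  · have n1 : x ∉ B := fun hb => hz (lB x hb ▸ hF)
    have n2 : y ∉ B := fun hb => hz (lB y hb ▸ lC x hx y hy ▸ hF)
    simp only [if_neg n1, if_neg n2]
    exact h6 C hC pC lC x hx y hy hF

theorem f3_step {d J : Set M} (h : Dsc d J) {ν : Type} {Λ : M → ν} {Fr : Set ν}
    (hi : {x ∈ J | Λ x ∉ Fr}.Infinite) {Z : Set M} {π : M → M} (hI : f3_Inv J Λ Fr Z π) :
    ∃ Z' π', f3_Inv J Λ Fr Z' π' ∧ Z'.ncard = Z.ncard + 1 := by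
  obtain ⟨z, hZ, hz, hf⟩ : ∃ z ∈ Z, Λ z ∉ Fr ∧ {x ∈ J | π x = z}.Infinite := by
    by_contra hn
    push Not at hn
    refine hi (((hI.2.1.subset (sep_subset Z fun z => Λ z ∉ Fr)).biUnion
      fun z hz => hn z hz.1 hz.2).subset fun x hx => ?_)
    exact mem_biUnion (x := π x) ⟨(hI.2.2.1 x hx.1).1, (hI.2.2.1 x hx.1).2 ▸ hx.2⟩ ⟨hx.1, rfl⟩
  obtain ⟨A, B, e, hd, hA, hB, nA, iB⟩ := h.split (sep_subset _ _) (hI.2.2.2.2.1 z) hf
  rcases e.ge ⟨hI.1 hZ, hI.2.2.2.1 z hZ⟩ with hm | hm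
  · exact f3_cut hI hz e hd hA hB hm iB.nonempty
  · exact f3_cut hI hz ((union_comm _ _).trans e) hd.symm hB hA hm nA

omit [T2Space M] in
theorem f3_init [Nonempty M] {J : Set M} {ν : Type} (Λ : M → ν) (Fr : Set ν) {R : Set (Set M)}
    (f : R.Finite) (hJ : J ⊆ ⋃₀ R)
    (hR : ∀ s ∈ R, s ⊆ J ∧ IsPreconnected s ∧ ∀ x ∈ s, ∀ y ∈ s, Λ x = Λ y) :
    ∃ Z π, f3_Inv J Λ Fr Z π ∧ Z.ncard ≤ R.ncard := by
  obtain ⟨c, hc⟩ : ∃ c : Set M → M, ∀ s : Set M, s.Nonempty → c s ∈ s :=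
    ⟨fun s => Classical.epsilon (· ∈ s), fun s hs => Classical.epsilon_spec hs⟩
  set K : M → Set M := fun x => connectedComponentIn {y ∈ J | Λ y = Λ x} x with hK
  have k1 : ∀ x ∈ J, x ∈ K x := fun x hx => mem_connectedComponentIn ⟨hx, rfl⟩
  have k2 : ∀ x, ∀ y ∈ K x, y ∈ J ∧ Λ y = Λ x := fun x y hy =>
    connectedComponentIn_subset {y ∈ J | Λ y = Λ x} x hy
  have k3 : ∀ x, ∀ y ∈ K x, K y = K x := fun x y hy => by
    simp only [hK, (k2 x y hy).2]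
    exact (connectedComponentIn_eq hy).symm
  have k4 : ∀ x ∈ J, c (K x) ∈ K x := fun x hx => hc _ ⟨x, k1 x hx⟩
  have k5 : ∀ C ⊆ J, IsPreconnected C → (∀ x ∈ C, ∀ y ∈ C, Λ x = Λ y) → ∀ x ∈ C, ∀ y ∈ C,
      c (K x) = c (K y) := fun C hC pC lC x hx y hy => by
    rw [k3 x y (pC.subset_connectedComponentIn (F := {y ∈ J | Λ y = Λ x}) hx
      (fun z hz => ⟨hC hz, lC z hz x hx⟩) hy)]
  have k6 : (fun x => c (K x)) '' J ⊆ (fun s => c (K (c s))) '' R := by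
    rintro _ ⟨x, hx, rfl⟩
    obtain ⟨s, hs, hxs⟩ := hJ hx
    exact ⟨s, hs, k5 s (hR s hs).1 (hR s hs).2.1 (hR s hs).2.2 _ (hc s ⟨x, hxs⟩) x hxs⟩
  refine ⟨(fun x => c (K x)) '' J, fun x => c (K x), ⟨?_, (f.image _).subset k6,
    fun x hx => ⟨mem_image_of_mem _ hx, (k2 x _ (k4 x hx)).2⟩, ?_, fun z => ?_,
    fun C hC pC lC x hx y hy _ => k5 C hC pC lC x hx y hy⟩,
    (ncard_le_ncard k6 (f.image _)).trans (ncard_image_le f)⟩
  · rintro _ ⟨x, hx, rfl⟩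
    exact (k2 x _ (k4 x hx)).1
  · rintro _ ⟨x, hx, rfl⟩
    exact congrArg c (k3 x _ (k4 x hx))
  · rcases eq_empty_or_nonempty {x ∈ J | c (K x) = z} with he | ⟨x, hx, rfl⟩
    · exact he ▸ isPreconnected_empty
    · convert (isPreconnected_connectedComponentIn : IsPreconnected (K x)) using 1
      ext y
      refine ⟨fun hy => ?_, fun hy => ⟨(k2 x y hy).1, congrArg c (k3 x y hy)⟩⟩
      exact ((k3 y _ (k4 y hy.1)).symm.trans ((congrArg K hy.2).trans (k3 x _ (k4 x hx)))).le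
        (k1 y hy.1)

/-- A partition into `2 (m + 2)` connected pieces with base points. Plan: start with the connected
components of the fibres of `Λ` in `J`; there are at most `n`. One of them is infinite with `Λ`
outside `Fr`; split it (`Dsc.split`) until the number is even and at least four. -/
theorem Dsc.pieces {d J : Set M} (h : Dsc d J) {ν : Type} (Λ : M → ν) (Fr : Set ν) {n : ℕ}
    {R : Set (Set M)} (f : R.Finite) (hn : R.ncard ≤ n) (hJ : J ⊆ ⋃₀ R)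
    (hR : ∀ s ∈ R, s ⊆ J ∧ IsPreconnected s ∧ ∀ x ∈ s, ∀ y ∈ s, Λ x = Λ y)
    (hi : {x ∈ J | Λ x ∉ Fr}.Infinite) :
    ∃ m ≤ n, ∃ (Z : Set M) (π : M → M), Z ⊆ J ∧ Z.Finite ∧ Z.ncard = 2 * (m + 2) ∧
      (∀ x ∈ J, π x ∈ Z ∧ Λ (π x) = Λ x) ∧ (∀ z ∈ Z, π z = z) ∧
      (∀ z, IsPreconnected {x ∈ J | π x = z}) ∧
      ∀ C ⊆ J, IsPreconnected C → (∀ x ∈ C, ∀ y ∈ C, Λ x = Λ y) → ∀ x ∈ C, ∀ y ∈ C, Λ x ∈ Fr →
        π x = π y := by
  have : Nonempty M := ⟨hi.nonempty.some⟩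
  obtain ⟨Z₀, π₀, h0, n0⟩ := f3_init Λ Fr f hJ hR
  have key : ∀ k, ∃ Z π, f3_Inv J Λ Fr Z π ∧ Z.ncard = Z₀.ncard + k := by
    intro k
    induction k with
    | zero => exact ⟨Z₀, π₀, h0, rfl⟩
    | succ k ih =>
      obtain ⟨Z, π, h1, h2⟩ := ih
      obtain ⟨Z', π', h3, h4⟩ := f3_step h hi h1
      exact ⟨Z', π', h3, by omega⟩
  obtain ⟨Z, π, ⟨h1, h2, h3⟩, h4⟩ := key (2 * (n + 2) - Z₀.ncard)
  exact ⟨n, le_rfl, Z, π, h1, h2, by omega, h3⟩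

/-- Plan: `Dsc.pieces`, `lens_basic`, `Dsc.param_marks`. -/
theorem Dsc.marks {d J : Set M} (h : Dsc d J) {ν : Type} (Λ : M → ν) (Fr : Set ν) {n : ℕ}
    {R : Set (Set M)} (f : R.Finite) (hn : R.ncard ≤ n) (hJ : J ⊆ ⋃₀ R)
    (hR : ∀ s ∈ R, s ⊆ J ∧ IsPreconnected s ∧ ∀ x ∈ s, ∀ y ∈ s, Λ x = Λ y)
    (hi : {x ∈ J | Λ x ∉ Fr}.Infinite) :
    ∃ m ≤ n, ∃ (Ψ : ℂ → M) (lab : ℂ → (lens m).Vt), ContinuousOn Ψ (lens m).P ∧
      InjOn Ψ (lens m).P ∧ Ψ '' (lens m).P = d ∧ Ψ '' frontier (lens m).P = J ∧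
      (∀ v : (lens m).Vt, lab v = v) ∧
      (∀ v, IsPreconnected {b ∈ frontier (lens m).P | lab b = v}) ∧
      (∀ b ∈ frontier (lens m).P, Λ (Ψ (lab b)) = Λ (Ψ b)) ∧
      ∀ C ⊆ J, IsPreconnected C → (∀ x ∈ C, ∀ y ∈ C, Λ x = Λ y) →
        ∀ b ∈ frontier (lens m).P, ∀ b' ∈ frontier (lens m).P, Ψ b ∈ C → Ψ b' ∈ C →
          Λ (Ψ b) ∈ Fr → lab b = lab b' := by
  obtain ⟨m, hm, Z, π, h1, h2, h3, h4, h5, h6, h7⟩ := h.pieces Λ Fr f hn hJ hR hi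
  obtain ⟨l1, l2, l3, l4, l5⟩ := lens_basic m
  obtain ⟨Ψ, p1, p2, p3, p4, p5⟩ := h.param_marks l1 l2 ⟨0, l3⟩ l4 h1 (Finset.finite_toSet _) h2
    (nonempty_of_ncard_ne_zero (by omega)) (by rw [ncard_coe_finset, l5, h3])
  have sP : frontier (lens m).P ⊆ (lens m).P := l1.isClosed.frontier_subset
  have mJ : ∀ b ∈ frontier (lens m).P, Ψ b ∈ J := fun b hb => p4 ▸ mem_image_of_mem Ψ hb
  have mZ : ∀ v : (lens m).Vt, Ψ v ∈ Z := fun v => p5 ▸ mem_image_of_mem Ψ v.2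
  obtain ⟨r, hr⟩ : ∃ r : M → (lens m).Vt, ∀ z ∈ Z, Ψ (r z) = z := by
    have : ∀ z, ∃ v : (lens m).Vt, z ∈ Z → Ψ v = z := fun z => by
      by_cases hz : z ∈ Z
      · obtain ⟨v, hv, e⟩ := p5.ge hz
        exact ⟨⟨v, hv⟩, fun _ => e⟩
      · exact ⟨⟨1, (lens m).one_mem⟩, fun g => absurd g hz⟩
    choose r hr using this
    exact ⟨r, hr⟩
  have rv : ∀ v : (lens m).Vt, r (Ψ v) = v := fun v =>
    Subtype.ext (p2 (sP (l4 (r _).2)) (sP (l4 v.2)) (hr _ (mZ v)))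
  obtain ⟨g, g1, g2⟩ := a2_inv l1 p1 p2
  refine ⟨m, hm, Ψ, fun b => r (π (Ψ b)), p1, p2, p3, p4, fun v => ?_, fun v => ?_,
    fun b hb => ?_, fun C hC pC lC b _ b' _ hb hb' hF => congrArg r (h7 C hC pC lC _ hb _ hb' hF)⟩
  · exact (congrArg r (h5 _ (mZ v))).trans (rv v)
  · convert (h6 (Ψ v)).image g (g1.mono fun x hx => image_mono sP (p4.ge hx.1)) using 1
    ext b
    refine ⟨fun hb => ⟨Ψ b, ⟨mJ b hb.1, ?_⟩, g2 b (sP hb.1)⟩, ?_⟩
    · rw [← hb.2, hr _ (h4 _ (mJ b hb.1)).1]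
    · rintro ⟨x, ⟨hx, e⟩, rfl⟩
      obtain ⟨b, hb, rfl⟩ := p4.ge hx
      rw [g2 b (sP hb)]
      exact ⟨hb, (congrArg r e).trans (rv v)⟩
  · exact (congrArg Λ (hr _ (h4 _ (mJ b hb)).1)).trans (h4 _ (mJ b hb)).2

end Pool.Agent.MP_17e62b_gt.T55

end

section

/-!
The final cell complex.
-/

namespace Pool.Agent.MP_17e62b_gt.T55

open Set Metric Topology H14 G
open scoped Manifold InnerProductSpace

variable {n : ℕ} {S : Surface n} {N : ℕ} {ρ δ : ℝ} {G : Geo S N ρ δ} {e η s : ℝ} {M : ℕ}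
  {X : Nets G e η s M} {C : Type} {Mx : ℕ} {D : Big X C Mx}

/-- The complex `Cf` consists of the core, the shrunken complexes `K c` and collars. -/
structure Fit (Z : Core D) (K : ∀ c, Cells (lens (D.m c)).P) (t : ℝ)
    (Cf : Cells (univ : Set S.M)) : Prop where
  skel : Z.Γ ⊆ ⋃₀ Cf.E
  old : Z.Γ ∩ Z.Cx.P ⊆ Cf.P
  pts : ∀ p ∈ Cf.P, p ∈ Z.Γ ∨ ∃ c, ∃ q ∈ (lens (D.m c)).P, p = D.Θ c (t • q) ∧
    (q ∈ (K c).P ∨ q ∈ frontier (lens (D.m c)).P)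
  inner : ∀ c, ∀ q ∈ (K c).P, D.Θ c (t • q) ∈ Cf.P
  radial : ∀ c, ∀ q ∈ frontier (lens (D.m c)).P, D.Θ c (t • q) ∈ Cf.P →
    D.Θ c q ∈ Cf.P ∧ ∃ u ∈ Cf.E, D.Θ c (t • q) ∈ u ∧ D.Θ c q ∈ u
  edges : ∀ c, ∀ u ∈ (K c).E, ¬ u ⊆ frontier (lens (D.m c)).P →
    D.Θ c '' ((fun z => t • z) '' u) ∈ Cf.E
  cells : ∀ d ∈ Cf.D, d ∈ Z.D₀ ∨ ∃ c, ∃ d₀ ∈ (K c).D, d.1 = D.Θ c '' ((fun z => t • z) '' d₀.1) ∨
    ∃ u ⊆ frontier (lens (D.m c)).P, u ⊆ d₀.1 ∧ d.1 = D.Θ c '' cone t u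

theorem h1_split (m : ℕ) {z : ℂ} (hz : z ∈ (lens m).P) :
    z ∈ interior (lens m).P ∨ z ∈ frontier (lens m).P := by
  rw [(lens_basic m).1.isClosed.frontier_eq]
  by_cases h : z ∈ interior (lens m).P
  · exact Or.inl h
  · exact Or.inr ⟨hz, h⟩

/-- The complex on the image of one disc. -/
theorem h1_disc (Z : Core D) (c : C) (K : Cells (lens (D.m c)).P)
    (hfr : ∀ y ∈ frontier (lens (D.m c)).P, ∃ u ∈ K.E, y ∈ u ∧ u ⊆ frontier (lens (D.m c)).P)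
    {t : ℝ} (ht : 0 < t) (ht' : t < 1) (H : Cells (univ : Set S.M)) (hH1 : Z.Cx.P ⊆ H.P)
    (hH2 : Z.Γ ⊆ ⋃₀ H.E) (hH3 : ∀ q ∈ K.P, q ∈ frontier (lens (D.m c)).P → D.Θ c q ∈ H.P) :
    ∃ B : Cells (D.Θ c '' (lens (D.m c)).P),
      (∀ z ∈ frontier (lens (D.m c)).P, (D.Θ c z ∈ H.P → D.Θ c z ∈ B.P) ∧
        ∀ u ∈ H.E, D.Θ c z ∈ u → D.Θ c z ∉ H.P → u ∈ B.E) ∧
      (∀ p ∈ B.P, (p ∈ Z.Γ ∧ p ∈ H.P) ∨ ∃ q ∈ (lens (D.m c)).P, p = D.Θ c (t • q) ∧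
        (q ∈ K.P ∨ q ∈ frontier (lens (D.m c)).P)) ∧
      (∀ q ∈ K.P, D.Θ c (t • q) ∈ B.P) ∧
      (∀ q ∈ frontier (lens (D.m c)).P, D.Θ c (t • q) ∈ B.P →
        D.Θ c q ∈ B.P ∧ ∃ u ∈ B.E, D.Θ c (t • q) ∈ u ∧ D.Θ c q ∈ u) ∧
      (∀ u ∈ K.E, ¬ u ⊆ frontier (lens (D.m c)).P → D.Θ c '' ((fun z => t • z) '' u) ∈ B.E) ∧
      ∀ d ∈ B.D, ∃ d₀ ∈ K.D, d.1 = D.Θ c '' ((fun z => t • z) '' d₀.1) ∨
        ∃ u ⊆ frontier (lens (D.m c)).P, u ⊆ d₀.1 ∧ d.1 = D.Θ c '' cone t u := by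
  have := S.t2
  obtain ⟨hQ, hc, h0, -, -⟩ := lens_basic (D.m c)
  have hsplit := fun z => h1_split (D.m c) (z := z)
  have hdisj := fun z hz z' hz' h => (Z.disj c c z hz z' hz' h).2
  have hfin := Z.fin c
  have harc := Z.arc c
  have hΓ := fun b hb => (Z.fr c b hb).1
  have hcont := D.cont c
  generalize (lens (D.m c)).P = Q at *
  generalize D.Θ c = Θ at *
  have hFQ : frontier Q ⊆ Q := hQ.isClosed.frontier_subset
  obtain ⟨hin, hcone⟩ := cone_basic hQ hc h0 ht ht'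
  have hnot : ∀ z ∈ Q, t • z ∉ frontier Q := fun z hz h => h.2 (hin z hz)
  have hY : {b ∈ frontier Q | Θ b ∈ H.P}.Finite :=
    (H.finP.biUnion fun y _ => hfin y).subset fun b hb =>
      mem_biUnion hb.2 ⟨hb.1, rfl⟩
  obtain ⟨K', kP, kD, -, k3, k4⟩ := K.subdiv hY fun z hz => by
    obtain ⟨u, h1, h2, -⟩ := hfr z hz.1
    exact ⟨u, h1, h2⟩
  have hfr' : ∀ y ∈ frontier Q, ∃ u ∈ K'.E, y ∈ u ∧ u ⊆ frontier Q := fun y hy => by
    obtain ⟨u, h1, h2, h3⟩ := hfr y hy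
    obtain ⟨u', h4, h5, h6⟩ := k3 u h1 y h2
    exact ⟨u', h4, h5, h6.trans h3⟩
  have hP' : ∀ x ∈ frontier Q, x ∈ K'.P ↔ Θ x ∈ H.P := fun x hx => by
    rw [kP]
    exact ⟨fun h => h.elim (fun h => hH3 x h hx) fun h => h.2, fun h => Or.inr ⟨hx, h⟩⟩
  obtain ⟨C', cP, cE, cD⟩ := K'.collar hQ hc h0 hfr' ht ht'
  have h2 : ∀ x ∈ Q, ∀ y ∈ Q, Θ x = Θ y → x = y ∨ (x ∈ frontier Q ∧ y ∈ frontier Q) :=
    fun x hx y hy h => by
      rcases hsplit x hx with h1 | h1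
      · exact Or.inl (hdisj x h1 y hy h)
      · rcases hsplit y hy with h3 | h3
        · exact Or.inl (hdisj y h3 x hx h.symm).symm
        · exact Or.inr ⟨h1, h3⟩
  have h3 : ∀ x ∈ frontier Q, ∃ u ∈ C'.E, x ∈ u ∧ u ⊆ frontier Q := fun x hx => by
    obtain ⟨u, h1, h4, h5⟩ := hfr' x hx
    exact ⟨u, cE ▸ Or.inl (Or.inr ⟨h1, h5⟩), h4, h5⟩
  have h4 : ∀ x ∈ frontier Q, x ∈ C'.P ↔ Θ x ∈ H.P := fun x hx => by
    rw [cP, ← hP' x hx]
    refine ⟨fun h => h.elim ?_ fun h => h.1, fun h => Or.inr ⟨h, hx⟩⟩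
    rintro ⟨z, hz, rfl⟩
    exact absurd hx (hnot z (a4_p K' hz))
  obtain ⟨B, bP, bE, bD, bF⟩ := C'.push H hcont.continuousOn hFQ (fun d hd x hx y hy h => by
      have hdQ := (a4_d C' hd).1
      refine (h2 x (hdQ hx) y (hdQ hy) h).elim id fun hF => ?_
      rcases cD d hd with ⟨d₀, h5, h6⟩ | ⟨u, h5, h6, h7⟩
      · rw [h6] at hx
        obtain ⟨z, hz, rfl⟩ := hx
        exact absurd hF.1 (hnot z ((a4_d K' h5).1 hz))
      · obtain ⟨a, b, h8, h9⟩ := K'.arc u h5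
        have h10 := (hcone u h6).1
        refine harc u a b h8 h6 (fun z hz hz' => ?_) (h10 ▸ ⟨h7 ▸ hx, hF.1⟩)
          (h10 ▸ ⟨h7 ▸ hy, hF.2⟩) h
        have h11 : z ∈ u ∩ K'.P := ⟨hz, (hP' z (h6 hz)).2 (hH1 hz')⟩
        rwa [h9] at h11) h2 h3 h4 fun x hx => hH2 (hΓ x hx)
  refine ⟨B, fun z hz => ⟨fun h => bP ▸ mem_image_of_mem _ ((h4 z hz).2 h), fun u hu h5 h6 => ?_⟩,
    fun p hp => ?_, fun q hq => ?_, fun q hq h => ?_, fun u hu h => ?_, fun d hd => ?_⟩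
  · obtain ⟨u', h7, h8, h9⟩ := h3 z hz
    have h10 : u = Θ '' u' := by
      by_contra h10
      exact h6 (H.ee u hu _ (bF u' h7 h9) h10 ⟨h5, mem_image_of_mem _ h8⟩)
    rw [h10, bE]
    exact mem_image_of_mem _ h7
  · rw [bP] at hp
    obtain ⟨z, hz, rfl⟩ := hp
    have hz' := hz
    rw [cP] at hz'
    rcases hz' with ⟨q, hq, rfl⟩ | ⟨-, h5⟩
    · refine Or.inr ⟨q, a4_p K' hq, rfl, ?_⟩
      rw [kP] at hq
      exact hq.imp id fun h => h.1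
    · exact Or.inl ⟨hΓ z h5, (h4 z h5).1 hz⟩
  · rw [bP, cP, kP]
    exact mem_image_of_mem _ (Or.inl (mem_image_of_mem _ (Or.inl hq)))
  · rw [bP] at h ⊢
    obtain ⟨z, hz, h5⟩ := h
    obtain rfl : t • q = z := hdisj _ (hin q (hFQ hq)) z (a4_p C' hz) h5.symm
    rw [cP] at hz ⊢
    have h6 : q ∈ K'.P := by
      rcases hz with ⟨q', h6, h7⟩ | ⟨-, h6⟩
      · rwa [← smul_right_injective ℂ ht.ne' h7]
      · exact absurd h6 (hnot q (hFQ hq))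
    refine ⟨mem_image_of_mem _ (Or.inr ⟨h6, hq⟩), Θ '' cone t {q}, ?_,
      mem_image_of_mem _ ⟨t, ⟨le_rfl, ht'.le⟩, q, rfl, rfl⟩,
      mem_image_of_mem _ ⟨1, ⟨ht'.le, le_rfl⟩, q, rfl, (one_smul _ _).symm⟩⟩
    rw [bE, cE]
    exact mem_image_of_mem _ (Or.inr (mem_image_of_mem _ ⟨h6, hq⟩))
  · obtain ⟨a, b, h5, h6⟩ := K.arc u hu
    have h7 : u ∈ K'.E := k4 u hu u a b h5 subset_rfl (by
      rw [kP, inter_union_distrib_left, h6]
      refine union_eq_left.2 fun y hy => ?_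
      obtain ⟨u', h8, h9, h10⟩ := hfr y hy.2.1
      exact h6 ▸ ⟨hy.1, K.ee u hu u' h8 (fun e => h (e ▸ h10)) ⟨hy.1, h9⟩⟩)
    rw [bE, cE]
    exact mem_image_of_mem _ (Or.inl (Or.inl (mem_image_of_mem _ h7)))
  · rw [bD] at hd
    obtain ⟨d', h5, rfl⟩ := hd
    rcases cD d' h5 with ⟨d₀, h6, h7⟩ | ⟨u, h6, h7, h8⟩
    · exact ⟨d₀, kD ▸ h6, Or.inl (by rw [← h7])⟩
    · obtain ⟨d₀, h9, h10⟩ := K'.ed u h6
      exact ⟨d₀, kD ▸ h9, Or.inr ⟨u, h7, h10.trans (K'.dsc d₀ h9).basic.2.2.1, by rw [← h8]⟩⟩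

/-- Plan: subdivide `Z.Cx` at the images of the points of `K c` on the frontiers, then `K c` at
the preimages of the new points (`Cells.subdiv`, `Core.fin`; an edge that is not in the frontier
survives). `Cells.collar`, `Cells.push` with `F` the frontier (`Core.disj`, `Core.arc`,
`cone_basic`), `Cells.sub` for `D₀`, `Cells.iglue` over `Option C` (`Cells.edge_sub`). -/
theorem Core.fit [Finite C] (Z : Core D) (K : ∀ c, Cells (lens (D.m c)).P)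
    (hfr : ∀ c, ∀ y ∈ frontier (lens (D.m c)).P, ∃ u ∈ (K c).E, y ∈ u ∧
      u ⊆ frontier (lens (D.m c)).P) {t : ℝ} (ht : 0 < t) (ht' : t < 1) :
    ∃ Cf, Fit Z K t Cf := by
  have := S.t2
  obtain ⟨H, gP, gD, -, g3, -⟩ := Z.Cx.subdiv
    (Z := ⋃ c, D.Θ c '' ((K c).P ∩ frontier (lens (D.m c)).P))
    (finite_iUnion fun c => ((K c).finP.inter_of_left _).image _) (by
      simp only [mem_iUnion]
      rintro _ ⟨c, b, hb, rfl⟩
      exact Z.skel (Z.fr c b hb.2).1)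
  have hH1 : Z.Cx.P ⊆ H.P := gP ▸ subset_union_left
  have hH2 : Z.Γ ⊆ ⋃₀ H.E := fun y hy => by
    obtain ⟨u, h1, h2⟩ := Z.skel hy
    obtain ⟨u', h3, h4, -⟩ := g3 u h1 y h2
    exact ⟨u', h3, h4⟩
  choose B b1 b2 b3 b4 b5 b6 using fun c => h1_disc Z c (K c) (hfr c) ht ht' H hH1 hH2
    fun q hq hq' => gP ▸ Or.inr (mem_iUnion.2 ⟨c, mem_image_of_mem _ ⟨hq, hq'⟩⟩)
  obtain ⟨B₀, aD, aE, aP⟩ := H.sub (D' := Z.D₀) (gD ▸ Z.sub)
  let A : Option C → Set S.M := fun i => i.elim (⋃ d ∈ Z.D₀, d.1) fun c =>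
    D.Θ c '' (lens (D.m c)).P
  let W : ∀ i, Cells (A i) := fun i => match i with
    | none => B₀
    | some c => B c
  have hin := fun c => (cone_basic (lens_basic (D.m c)).1 (lens_basic (D.m c)).2.1
    (lens_basic (D.m c)).2.2.1 ht ht').1
  have hnone : ∀ x ∈ A none, (x ∈ H.P → x ∈ B₀.P) ∧
      ∀ u ∈ H.E, x ∈ u → x ∉ H.P → u ∈ B₀.E := fun x hx => by
    obtain ⟨d, hd, hx⟩ := mem_iUnion₂.1 hx
    have h1 := H.edge_sub (gD ▸ Z.sub hd) hx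
    rw [aP, aE]
    exact ⟨fun h => ⟨h, d, hd, h1.1 h⟩, fun u hu h2 h3 => ⟨hu, d, hd, h1.2 u hu h2 h3⟩⟩
  have hown : ∀ c, ∀ z ∈ interior (lens (D.m c)).P, ∀ j, D.Θ c z ∈ A j → j = some c := by
    rintro c z hz (_ | c') hx
    · obtain ⟨d, hd, hx⟩ := mem_iUnion₂.1 hx
      exact absurd hx ((Z.off c z hz).2 d hd)
    · obtain ⟨z', h1, h2⟩ := hx
      rw [(Z.disj c c' z hz z' h1 h2.symm).1]
  have hΓ : ∀ i, ∀ x ∈ A i, x ∈ Z.Γ → (x ∈ H.P → x ∈ (W i).P) ∧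
      ∀ u ∈ H.E, x ∈ u → x ∉ H.P → u ∈ (W i).E := by
    rintro (_ | c) x hx h
    · exact hnone x hx
    · obtain ⟨z, hz, rfl⟩ := hx
      exact b1 c z ((h1_split _ hz).resolve_left fun h' => (Z.off c z h').1 h)
  have htwo : ∀ i j, i ≠ j → ∀ x ∈ A i, x ∈ A j → x ∈ Z.Γ := by
    have key : ∀ c j, some c ≠ j → ∀ x ∈ A (some c), x ∈ A j → x ∈ Z.Γ := by
      rintro c j hne _ ⟨z, hz, rfl⟩ hx
      exact (Z.fr c z ((h1_split _ hz).resolve_left fun h' => hne (hown c z h' j hx).symm)).1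
    rintro (_ | c) j hne x hx hx'
    · rcases j with _ | c
      · exact absurd rfl hne
      · exact key c none hne.symm x hx' hx
    · exact key c j hne x hx hx'
  have hWP : ∀ i, ∀ x ∈ (W i).P, x ∈ Z.Γ → x ∈ H.P := by
    rintro (_ | c) x hx h
    · have h1 : x ∈ B₀.P := hx
      rw [aP] at h1
      exact h1.1
    · rcases b2 c x hx with h1 | ⟨q, h1, rfl, -⟩
      · exact h1.2
      · exact absurd h (Z.off c _ (hin c q h1)).1
  have hcov : ∀ y, ∃ i, y ∈ A i := fun y => by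
    rcases Z.cover y with ⟨d, hd, h⟩ | ⟨c, h⟩
    · exact ⟨none, mem_biUnion hd h⟩
    · exact ⟨some c, h⟩
  obtain ⟨Cf, fP, fE, fD⟩ := a4_glue W (fun i j hne x hx => by
      have h1 := htwo i j hne x hx.1 hx.2
      by_cases h2 : x ∈ H.P
      · exact Or.inl ⟨(hΓ i x hx.1 h1).1 h2, (hΓ j x hx.2 h1).1 h2⟩
      · obtain ⟨u, h3, h4⟩ := hH2 h1
        exact Or.inr ⟨u, ⟨(hΓ i x hx.1 h1).2 u h3 h4 h2, (hΓ j x hx.2 h1).2 u h3 h4 h2⟩, h4⟩)
    (fun i j x hx => by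
      rcases eq_or_ne i j with rfl | hne
      · exact hx.1
      · have h1 := htwo i j hne x (a4_p (W i) hx.1) hx.2
        exact (hΓ j x hx.2 h1).1 (hWP i x hx.1 h1))
    (B := univ) (eq_univ_of_forall fun y => mem_iUnion.2 (hcov y))
  have inP : ∀ i, ∀ x ∈ (W i).P, x ∈ Cf.P := fun i x hx => fP ▸ mem_iUnion.2 ⟨i, hx⟩
  have inE : ∀ i, ∀ u ∈ (W i).E, u ∈ Cf.E := fun i x hx => fE ▸ mem_iUnion.2 ⟨i, hx⟩
  refine ⟨Cf, fun y hy => ?_, fun y hy => ?_, fun p hp => ?_,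
    fun c q hq => inP (some c) _ (b3 c q hq), fun c q hq h => ?_,
    fun c u hu h => inE (some c) _ (b5 c u hu h), fun d hd => ?_⟩
  · obtain ⟨i, hi⟩ := hcov y
    by_cases h2 : y ∈ H.P
    · obtain ⟨u, h3, h4⟩ := (W i).pe y ((hΓ i y hi hy).1 h2)
      exact ⟨u, inE i u h3, h4⟩
    · obtain ⟨u, h3, h4⟩ := hH2 hy
      exact ⟨u, inE i u ((hΓ i y hi hy).2 u h3 h4 h2), h4⟩
  · obtain ⟨i, hi⟩ := hcov y
    exact inP i y ((hΓ i y hi hy.1).1 (hH1 hy.2))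
  · rw [fP] at hp
    obtain ⟨_ | c, hp⟩ := mem_iUnion.1 hp
    · have h1 : p ∈ B₀.P := hp
      rw [aP] at h1
      obtain ⟨-, d, hd, h2⟩ := h1
      exact Or.inl (Z.bdy d hd h2)
    · exact (b2 c p hp).imp (fun h => h.1) fun h => ⟨c, h⟩
  · rw [fP] at h
    obtain ⟨i, h⟩ := mem_iUnion.1 h
    obtain rfl := hown c _ (hin c q ((lens_basic (D.m c)).1.isClosed.frontier_subset hq)) i
      (a4_p (W i) h)
    obtain ⟨h1, u, h2, h3⟩ := b4 c q hq h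
    exact ⟨inP (some c) _ h1, u, inE (some c) u h2, h3⟩
  · rw [fD] at hd
    obtain ⟨_ | c, hd⟩ := mem_iUnion.1 hd
    · exact Or.inl (aD ▸ hd)
    · exact Or.inr ⟨c, b6 c d hd⟩

end Pool.Agent.MP_17e62b_gt.T55

end

section

/-!
No plateau.
-/

namespace Pool.Agent.MP_17e62b_gt.T55

open Set Metric Topology H14 G
open scoped Manifold InnerProductSpace

variable {n : ℕ} {S : Surface n} {N : ℕ} {ρ δ : ℝ} {G : Geo S N ρ δ} {e η s : ℝ} {M : ℕ}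
  {X : Nets G e η s M} {C : Type} {Mx : ℕ} {D : Big X C Mx}

theorem Core.exists_val (Z : Core D) {t : ℝ} (ht : 0 < t) (ht' : t < 1) {E : Type}
    (a : S.M → E) (b : C → ℂ → E) : ∃ v : S.M → E, (∀ y ∈ Z.Γ, v y = a y) ∧
      ∀ c, ∀ q ∈ (lens (D.m c)).P, v (D.Θ c (t • q)) = b c q := by
  classical
  have hin : ∀ c, ∀ q ∈ (lens (D.m c)).P, t • q ∈ interior (lens (D.m c)).P := by
    intro c q hq
    obtain ⟨k1, k2, k3, -⟩ := lens_basic (D.m c)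
    obtain ⟨g, g1, g2, -, g4⟩ := f4_gauge k1 k2 k3
    rw [g4, g1 t ht.le]
    have := (g2 q).1 hq
    nlinarith only [ht, ht', this]
  refine ⟨fun y => if y ∈ Z.Γ then a y else
    if h : ∃ p : C × ℂ, p.2 ∈ (lens (D.m p.1)).P ∧ y = D.Θ p.1 (t • p.2) then
      b h.choose.1 h.choose.2 else a y, fun y hy => if_pos hy, fun c q hq => ?_⟩
  have h : ∃ p : C × ℂ, p.2 ∈ (lens (D.m p.1)).P ∧ D.Θ c (t • q) = D.Θ p.1 (t • p.2) :=
    ⟨(c, q), hq, rfl⟩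
  simp only [if_neg (Z.off c _ (hin c q hq)).1, dif_pos h]
  obtain ⟨s1, s2⟩ := h.choose_spec
  obtain ⟨e1, e2⟩ := Z.disj c _ _ (hin c q hq) _ (interior_subset (hin _ _ s1)) s2
  rw [← e1, ← f4_smul_inj ht e2]

/-- Plan: let `A` be the set of the sites of the points of `Y ∩ Γ`. By `Core.conn` and
`Cells.walk` every point of `Cf.P ∩ Γ` with a site in `A` lies in `Y`; `Cells.walk` again for the
second hypothesis of `hv`. Apply `DiscOut.max` to the nodes in `A` and to the points `q` of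
`(K c).P`, inner or corners, with `Θ c (t • q) ∈ Y`. `Core.dir`. -/
theorem Fit.plateau [Fintype C] {Z : Core D} {K : ∀ c, Cells (lens (D.m c)).P} {t : ℝ}
    {Cf : Cells (univ : Set S.M)} (h : Fit Z K t Cf) {ε : ℝ} {a : X.Nu → X.Nu → ℝ}
    {F F' : X.Nu → EuclideanSpace ℝ (Fin n)} {Φ : ∀ c, ℂ → (lens (D.m c)).Vt → ℝ}
    {g : C → ℂ → EuclideanSpace ℝ (Fin n)}
    (hO : DiscOut (fun c => lens (D.m c)) D.app (Sum.inl '' G.Dir) a F Φ ε F' K g)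
    (hL : ∀ u v, 0 < a u v → X.Link u v) {val : X.Nu ⊕ Z.T → EuclideanSpace ℝ (Fin n)}
    (h0 : ∀ u, val (.inl u) = F' u)
    (hv : ∀ (l : EuclideanSpace ℝ (Fin n) →L[ℝ] ℝ) (r : ℝ) (A : Set (X.Nu ⊕ Z.T)),
      (∀ a ∈ A, l (val a) = r) →
      (∀ Q ⊆ Z.Γ, IsPreconnected Q → ∀ p ∈ Q ∩ Z.Cx.P, ∀ q ∈ Q ∩ Z.Cx.P, Z.σ p ∈ A →
        (∀ y ∈ Q, Z.σ y = Z.σ p ∨ Z.σ y = Z.σ q) →
        l (val (Z.σ q)) ≤ r ∧ (l (val (Z.σ q)) = r → Z.σ q ∈ A)) →
      (∀ a ∈ A, ∃ y ∈ Z.Γ, Z.σ y = a) →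
      (A.Nonempty → ∃ u, .inl u ∈ A) ∧ ∀ u v, .inl u ∈ A → X.Link u v →
        l (F' v) ≤ r ∧ (l (F' v) = r → .inl v ∈ A))
    {v : S.M → EuclideanSpace ℝ (Fin n)} (h1 : ∀ y ∈ Z.Γ, v y = val (Z.σ y))
    (h2 : ∀ c, ∀ q ∈ interior (lens (D.m c)).P, v (D.Θ c (t • q)) = g c q)
    (h3 : ∀ c, ∀ q ∈ frontier (lens (D.m c)).P, v (D.Θ c (t • q)) = val (Z.σ (D.Θ c q)))
    (ν : EuclideanSpace ℝ (Fin n)) (r : ℝ) (Y : Set S.M) (hn : Y.Nonempty) (hY : Y ⊆ Cf.P)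
    (h4 : ∀ p ∈ Y, ⟪ν, v p⟫_ℝ = r)
    (h5 : ∀ p ∈ Y, ∀ q ∈ Cf.P, (∃ u ∈ Cf.E, p ∈ u ∧ q ∈ u) →
      ⟪ν, v q⟫_ℝ ≤ r ∧ (⟪ν, v q⟫_ℝ = r → q ∈ Y)) :
    ∃ p ∈ Y, p ∈ (𝓡∂ 2).boundary S.M := by
  have := S.t2
  have vY : ∀ y ∈ Y, y ∈ Z.Γ → ⟪ν, val (Z.σ y)⟫_ℝ = r := fun y hy hy' => h1 y hy' ▸ h4 y hy
  have W : ∀ Q ⊆ Z.Γ, IsPreconnected Q → ∀ p ∈ Q ∩ Cf.P, ∀ q ∈ Q ∩ Cf.P, p ∈ Y →
      (∀ y ∈ Q, Z.σ y = Z.σ p ∨ Z.σ y = Z.σ q) → q ∈ Y ∨ ⟪ν, val (Z.σ q)⟫_ℝ < r := by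
    intro Q hQ hc p hp q hq hpY hs
    have key : ∀ b, Relation.ReflTransGen
        (fun a b => b ∈ Q ∩ Cf.P ∧ ∃ e ∈ Cf.E, a ∈ e ∧ b ∈ e) p b →
        b ∈ Y ∨ ⟪ν, val (Z.σ q)⟫_ℝ < r := by
      intro b hb
      induction hb with
      | refl => exact Or.inl hpY
      | @tail x b _ hb ih =>
        rcases ih with ih | ih
        · obtain ⟨k1, k2⟩ := h5 x ih b hb.1.2 hb.2
          rw [h1 b (hQ hb.1.1)] at k1 k2
          rcases hs b hb.1.1 with e | e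
          · exact Or.inl (k2 (e ▸ vY p hpY (hQ hp.1)))
          · rcases k1.lt_or_eq with k | k
            · exact Or.inr (e ▸ k)
            · exact Or.inl (k2 k)
        · exact Or.inr ih
    exact key q (Cf.walk hc (hQ.trans h.skel) hp hq)
  set A : Set (X.Nu ⊕ Z.T) := {a | ∃ y ∈ Y, y ∈ Z.Γ ∧ Z.σ y = a} with hA
  have vA : ∀ a ∈ A, ⟪ν, val a⟫_ℝ = r := by
    rintro a ⟨y, y1, y2, rfl⟩
    exact vY y y1 y2
  have St : ∀ q ∈ Cf.P, q ∈ Z.Γ → Z.σ q ∈ A → q ∈ Y := by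
    intro q hq hq' hs
    obtain ⟨y, y1, y2, y3⟩ := id hs
    rcases W {z ∈ Z.Γ | Z.σ z = Z.σ q} (sep_subset _ _) (Z.conn _) y ⟨⟨y2, y3⟩, hY y1⟩ q
      ⟨⟨hq', rfl⟩, hq⟩ y1 (fun z hz => Or.inr hz.2) with k | k
    · exact k
    · exact absurd (vA _ hs) k.ne
  obtain ⟨A1, A2⟩ := hv (innerSL ℝ ν) r A vA (fun Q hQ hc p hp q hq hs hs' => by
      have hp' := h.old ⟨hQ hp.1, hp.2⟩
      rcases W Q hQ hc p ⟨hp.1, hp'⟩ q ⟨hq.1, h.old ⟨hQ hq.1, hq.2⟩⟩ (St p hp' (hQ hp.1) hs) hs'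
        with k | k
      · exact ⟨(vY q k (hQ hq.1)).le, fun _ => ⟨q, k, hQ hq.1, rfl⟩⟩
      · exact ⟨k.le, fun k' => absurd k' k.ne⟩)
    (fun a ⟨y, _, y2, y3⟩ => ⟨y, y2, y3⟩)
  have R : ∀ c, ∀ q ∈ frontier (lens (D.m c)).P, D.Θ c (t • q) ∈ Cf.P →
      (D.Θ c (t • q) ∈ Y ↔ Z.σ (D.Θ c q) ∈ A) := by
    intro c q hq hP
    obtain ⟨r1, u, u1, u2, u3⟩ := h.radial c q hq hP
    have f1 := (Z.fr c q hq).1
    have e : v (D.Θ c (t • q)) = v (D.Θ c q) := by rw [h3 c q hq, h1 _ f1]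
    refine ⟨fun k => ⟨_, (h5 _ k _ r1 ⟨u, u1, u2, u3⟩).2 (e ▸ h4 _ k), f1, rfl⟩, fun k => ?_⟩
    have k' := St _ r1 f1 k
    exact (h5 _ k' _ hP ⟨u, u1, u3, u2⟩).2 (e ▸ h4 _ k')
  have V : ∀ c q, (q ∈ interior (lens (D.m c)).P ∨ q ∈ (lens (D.m c)).Vt) →
      v (D.Θ c (t • q)) = g c q := by
    rintro c q (hq | hq)
    · exact h2 c q hq
    · rw [h3 c q ((lens_basic (D.m c)).2.2.2.1 hq), Z.vt c ⟨q, hq⟩, h0]
      exact (hO.vt c ⟨q, hq⟩).2.symm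
  obtain ⟨x, hx, x0, hx0, rfl⟩ := hO.max (innerSL ℝ ν) r {u | Sum.inl u ∈ A}
    (fun c => {q | q ∈ (K c).P ∧ (q ∈ interior (lens (D.m c)).P ∨ q ∈ (lens (D.m c)).Vt) ∧
      D.Θ c (t • q) ∈ Y})
    (fun x hx => ⟨h0 x ▸ vA _ hx, fun y hy => A2 x y hx (hL x y hy)⟩)
    (fun c p ⟨p1, p2, p3⟩ => ⟨p1, p2, V c p p2 ▸ h4 _ p3, fun q q1 q2 ⟨u, u1, u2, u3, u4⟩ => by
      obtain ⟨k1, k2⟩ := h5 _ p3 _ (h.inner c q q1) ⟨_, h.edges c u u1 u2,
        mem_image_of_mem _ (mem_image_of_mem _ u3), mem_image_of_mem _ (mem_image_of_mem _ u4)⟩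
      rw [V c q q2] at k1 k2
      exact ⟨k1, fun k => ⟨q1, q2, k2 k⟩⟩⟩)
    (fun c α => by
      have k := R c α ((lens_basic (D.m c)).2.2.2.1 α.2) (h.inner c α (hO.vt c α).1)
      rw [Z.vt c α] at k
      exact ⟨fun k' => k.1 k'.2.2, fun k' => ⟨(hO.vt c α).1, Or.inr α.2, k.2 k'⟩⟩)
    (by
      obtain ⟨y, hy⟩ := hn
      rcases h.pts y (hY hy) with k | ⟨c, q, q1, rfl, q2⟩
      · exact Or.inl (A1 ⟨_, y, hy, k, rfl⟩)
      · by_cases q3 : q ∈ frontier (lens (D.m c)).P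
        · exact Or.inl (A1 ⟨_, (R c q q3 (hY hy)).1 hy⟩)
        · exact Or.inr ⟨c, q, q2.resolve_right q3,
            Or.inl ((mem_interior_iff_notMem_frontier q1).2 q3), hy⟩)
  obtain ⟨y, y1, y2, y3, y4⟩ := Z.dir x0 hx0
  exact ⟨y, St y (h.old ⟨y1, y2⟩) y1 (y4 ▸ hx), y3⟩

end Pool.Agent.MP_17e62b_gt.T55

end

section

/-!
The saddle polyhedron.
-/

namespace Pool.Agent.MP_17e62b_gt.T55

open Set Metric Topology H14 G
open scoped Manifold InnerProductSpace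

variable {n : ℕ} {S : Surface n} {N : ℕ} {ρ δ : ℝ} {G : Geo S N ρ δ} {e η s : ℝ} {M : ℕ}
  {X : Nets G e η s M} {C : Type} {Mx : ℕ} {D : Big X C Mx}

/-- A radius factor close to one moves the values only a little. -/
theorem h3_radius {E : Type} [NormedAddCommGroup E] {Q : Set ℂ} (hQ : IsCompact Q)
    (hc : Convex ℝ Q) (h0 : (0 : ℂ) ∈ Q) {f : ℂ → E} (hf : Continuous f) {ρ : ℝ} (hρ : 0 < ρ) :
    ∀ᶠ t in 𝓝 (1 : ℝ), ∀ z ∈ Q, ∀ r ∈ Icc t 1, 0 ≤ r → ‖f (r • z) - f z‖ ≤ ρ := by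
  obtain ⟨R, hR0, hR⟩ := hQ.isBounded.exists_pos_norm_le
  obtain ⟨d, hd, hu⟩ := Metric.uniformContinuousOn_iff.1
    (hQ.uniformContinuousOn_of_continuous hf.continuousOn) ρ hρ
  have hlt : 1 - d / R < 1 := by
    have := div_pos hd hR0
    linarith
  filter_upwards [Ioi_mem_nhds hlt] with t ht z hz r hr hr0
  have hm : r • z ∈ Q := hc.smul_mem_of_zero_mem h0 hz ⟨hr0, hr.2⟩
  have h1 : dist (r • z) z < d := by
    have e : r • z - z = (r - 1) • z := by rw [sub_smul, one_smul]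
    rw [dist_eq_norm, e, norm_smul, Real.norm_eq_abs, abs_of_nonpos (by linarith only [hr.2])]
    have h2 : 1 - r < d / R := by
      have : 1 - d / R < t := ht
      linarith [hr.1]
    have h3 : (1 - r) * R < d := (lt_div_iff₀ hR0).1 h2
    have h4 := mul_le_mul_of_nonneg_left (hR z hz) (by linarith only [hr.2] : 0 ≤ 1 - r)
    linarith only [h3, h4]
  have := hu _ hm _ hz h1
  rw [dist_eq_norm] at this
  exact this.le

theorem h3_tri {E : Type} [NormedAddCommGroup E] {a b c : E} {x y : ℝ} (h1 : ‖a - b‖ ≤ x)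
    (h2 : ‖b - c‖ ≤ y) : ‖a - c‖ ≤ x + y := by
  have := norm_sub_le_norm_sub_add_norm_sub a b c
  linarith

theorem h3_symm {E : Type} [NormedAddCommGroup E] {a b : E} {x : ℝ} (h : ‖a - b‖ ≤ x) :
    ‖b - a‖ ≤ x := by
  rwa [norm_sub_rev]

/-- Plan: choose `t < 1` such that `f (Θ c (r • z))` is `ρ`-close to `f (Θ c z)` for `r ∈ [t, 1]`.
`Core.fit`, `Core.tube` with `2 ε`, `Core.exists_val`, `Fit.plateau`, `poly_of_cells`. A point of
`Cf.P` in a cell of `D₀` lies in its boundary (`Cells.edge_sub`); in the other cells use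
`Core.off`, `Core.disj`, `cone_basic`, `Core.fr`, `DiscOut.small`, `DiscOut.val`. -/
theorem Core.assemble [Fintype C] (Z : Core D) (hρ : 0 < ρ) {ε : ℝ} {a : X.Nu → X.Nu → ℝ}
    {F F' : X.Nu → EuclideanSpace ℝ (Fin n)} {Φ : ∀ c, ℂ → (lens (D.m c)).Vt → ℝ}
    {K : ∀ c, Cells (lens (D.m c)).P} {g : C → ℂ → EuclideanSpace ℝ (Fin n)}
    (hO : DiscOut (fun c => lens (D.m c)) D.app (Sum.inl '' G.Dir) a F Φ ε F' K g)
    (hL : ∀ u v, 0 < a u v → X.Link u v) (hF : ∀ u, ‖F u - X.fn u‖ ≤ ε)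
    (hΦ : ∀ c, ∀ z ∈ (lens (D.m c)).P,
      ‖cmb (fun v => F (D.app c v)) (Φ c z) - S.f (D.Θ c z)‖ ≤ ε) :
    ∃ T : Surface n, T.IsSaddle ∧ T.IsPolyhedron ∧
      frechetDist S T ≤ ENNReal.ofReal (100 * (ε + ρ)) := by
  classical
  have := S.t2
  have hε : 0 ≤ ε := by
    obtain ⟨y, hy⟩ := S.boundary_nonempty
    obtain ⟨x, -, -⟩ := G.bd y hy
    exact (norm_nonneg _).trans (hF (.inl x))
  have hb := fun c => lens_basic (D.m c)
  have hev : ∀ᶠ t in 𝓝 (1 : ℝ), ∀ c, ∀ z ∈ (lens (D.m c)).P, ∀ r ∈ Icc t 1, 0 ≤ r →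
      ‖S.f (D.Θ c (r • z)) - S.f (D.Θ c z)‖ ≤ ρ :=
    Filter.eventually_all.2 fun c => h3_radius (f := fun z => S.f (D.Θ c z)) (hb c).1 (hb c).2.1
      (interior_subset (hb c).2.2.1) (S.continuous.comp (D.cont c)) hρ
  obtain ⟨t, ⟨hrad, ht⟩, ht'⟩ : ∃ t : ℝ, ((∀ c, ∀ z ∈ (lens (D.m c)).P, ∀ r ∈ Icc t 1, 0 ≤ r →
      ‖S.f (D.Θ c (r • z)) - S.f (D.Θ c z)‖ ≤ ρ) ∧ 0 < t) ∧ t < 1 := by
    have h1 := (hev.and (Ioi_mem_nhds (zero_lt_one' ℝ))).filter_mono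
      (nhdsWithin_le_nhds (s := Iio (1 : ℝ)))
    exact (h1.and self_mem_nhdsWithin).exists
  obtain ⟨Cf, hfit⟩ := Z.fit K hO.fr ht ht'
  have hF' : ∀ u, ‖F' u - X.fn u‖ ≤ 2 * ε := fun u => by
    have := h3_tri (hO.close u) (hF u)
    linarith
  obtain ⟨val, h0, hD, hv⟩ := Z.tube (2 * ε) F' hF'
  obtain ⟨v, h1, hb'⟩ := Z.exists_val ht ht' (fun y => val (Z.σ y))
    (fun c q => if q ∈ interior (lens (D.m c)).P then g c q else val (Z.σ (D.Θ c q)))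
  have hfrP : ∀ c, frontier (lens (D.m c)).P ⊆ (lens (D.m c)).P := fun c =>
    (hb c).1.isClosed.frontier_subset
  have h2 : ∀ c, ∀ q ∈ interior (lens (D.m c)).P, v (D.Θ c (t • q)) = g c q := fun c q hq => by
    rw [hb' c q (interior_subset hq), if_pos hq]
  have h3 : ∀ c, ∀ q ∈ frontier (lens (D.m c)).P,
      v (D.Θ c (t • q)) = val (Z.σ (D.Θ c q)) := fun c q hq => by
    rw [hb' c q (hfrP c hq), if_neg hq.2]
  have hcone := fun c => cone_basic (hb c).1 (hb c).2.1 (hb c).2.2.1 ht ht'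
  have hcell : ∀ c, ∀ d₀ ∈ (K c).D, d₀.1 ⊆ (lens (D.m c)).P := fun c d₀ hd z hz => by
    rw [← (K c).cover]
    exact mem_biUnion hd hz
  have hfr : ∀ c, ∀ q ∈ (lens (D.m c)).P, q ∉ interior (lens (D.m c)).P →
      q ∈ frontier (lens (D.m c)).P := fun c q hq hq' => ⟨subset_closure hq, hq'⟩
  have hw : ∀ c, ∀ w ∈ frontier (lens (D.m c)).P,
      ‖cmb (fun v => F (D.app c v)) (Φ c w) - val (Z.σ (D.Θ c w))‖ ≤ ε + (3 * ρ + 2 * ε) := by
    intro c w hw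
    obtain ⟨-, u, hu, hn⟩ := Z.fr c w hw
    rw [hu, h0]
    exact h3_tri (hΦ c w (hfrP c hw)) (h3_tri hn (h3_symm (hF' u)))
  have hx : ∀ c, ∀ d₀ ∈ (K c).D, ∀ w ∈ d₀.1, ∀ w' ∈ d₀.1, ∀ r ∈ Icc t 1,
      ‖S.f (D.Θ c (r • w)) - cmb (fun v => F (D.app c v)) (Φ c w')‖ ≤ ρ + (ε + ε) :=
    fun c d₀ hd w hw w' hw' r hr =>
      h3_tri (hrad c w (hcell c d₀ hd hw) r hr (ht.le.trans hr.1))
        (h3_tri (h3_symm (hΦ c w (hcell c d₀ hd hw))) (hO.small c d₀ hd w hw w' hw'))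
  refine poly_of_cells S Cf v (fun ν r Y hn hY h4 h5 =>
    hfit.plateau hO hL h0 hv h1 h2 h3 ν r Y hn hY h4 h5) ?_
  intro d hd x hx' p hp hpd
  rw [dist_eq_norm]
  rcases hfit.cells d hd with hd0 | ⟨c, d₀, hd₀, hd1 | ⟨u, hu, hud, hd1⟩⟩
  · have hp2 := (Cf.edge_sub hd hpd).1 hp
    rw [h1 p (Z.bdy d hd0 hp2)]
    have := hD d hd0 x hx' p hp2
    linarith
  · rw [hd1] at hx' hpd
    obtain ⟨_, ⟨w, hw', rfl⟩, rfl⟩ := hx'
    obtain ⟨_, ⟨q, hq, rfl⟩, rfl⟩ := hpd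
    have hqP := hcell c d₀ hd₀ hq
    have e1 := hx c d₀ hd₀ w hw' q hq t ⟨le_rfl, ht'.le⟩
    by_cases hi : q ∈ interior (lens (D.m c)).P
    · have hK : q ∈ (K c).P := by
        rcases hfit.pts _ hp with hΓ | ⟨c', q', hq', e, hh⟩
        · exact absurd hΓ (Z.off c _ ((hcone c).1 q hqP)).1
        · obtain ⟨rfl, e'⟩ := Z.disj c c' _ ((hcone c).1 q hqP) _
            (interior_subset ((hcone c').1 q' hq')) e
          have e'' : q = q' := smul_right_injective ℂ ht.ne' e'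
          subst e''
          exact hh.resolve_right fun h => h.2 hi
      rw [h2 c q hi]
      have := h3_tri e1 (h3_symm (hO.val c q hK hi))
      linarith only [hρ, hε, this]
    · rw [h3 c q (hfr c q hqP hi)]
      have := h3_tri e1 (hw c q (hfr c q hqP hi))
      linarith
  · rw [hd1] at hx' hpd
    obtain ⟨_, ⟨r, hr, w, hw', rfl⟩, rfl⟩ := hx'
    obtain ⟨z, hz, rfl⟩ := hpd
    have hzP : z ∈ (lens (D.m c)).P := by
      obtain ⟨r', hr', w', hw'', rfl⟩ := hz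
      exact (hb c).2.1.smul_mem_of_zero_mem (interior_subset (hb c).2.2.1) (hfrP c (hu hw''))
        ⟨ht.le.trans hr'.1, hr'.2⟩
    have key : ∃ q ∈ u, v (D.Θ c z) = val (Z.σ (D.Θ c q)) := by
      rcases hfit.pts _ hp with hΓ | ⟨c', q', hq', e, -⟩
      · have hz' : z ∈ frontier (lens (D.m c)).P :=
          hfr c z hzP fun hi => (Z.off c z hi).1 hΓ
        have : z ∈ u := by
          rw [← ((hcone c).2 u hu).1]
          exact ⟨hz, hz'⟩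
        exact ⟨z, this, h1 _ hΓ⟩
      · obtain ⟨rfl, e'⟩ := Z.disj c' c _ ((hcone c').1 q' hq') _ hzP e.symm
        have : q' ∈ u := ((hcone c').2 u hu).2 q' hq' (e' ▸ hz)
        exact ⟨q', this, by rw [e]; exact h3 c' q' (hu this)⟩
    obtain ⟨q, hq, e⟩ := key
    rw [e]
    have := h3_tri (hx c d₀ hd₀ w (hud hw') q (hud hq) r hr) (hw c q (hu hq))
    linarith

end Pool.Agent.MP_17e62b_gt.T55

end
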