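import Pool.Agent.MP_17e62b_gt.Mg.T55_MG1
import Pool.Agent.MP_17e62b_gt.Mg.T55_ME1
import Pool.Agent.MP_17e62b_gt.Mg.T55_ME2
import Pool.Agent.MP_17e62b_gt.Mg.T55_MF

section

/-!
The pieces of the frontier.
-/

namespace Pool.Agent.MP_17e62b_gt.T55

open Set Metric Topology H14 G
open scoped Manifold

variable {n : ℕ} {S : Surface n} {N : ℕ} {ρ δ : ℝ} {g : GD S N ρ δ} {e η s : ℝ} {M : ℕ}
  {B : g.BN e η s M}

theorem g8_cut (B : g.BN e η s M) (j : Fin g.m) : Nat.card {p // (B j).IsCut p} ≤ M := by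
  have h := (B j).cut_card
  rw [← Nat.card_coe_set_eq] at h
  exact h

theorem g8_sigma (B : g.BN e η s M) :
    Nat.card (Σ j : Fin g.m, {p // (B j).IsCut p}) ≤ g.m * M := by
  classical
  rw [Nat.card_sigma]
  calc _ ≤ ∑ _j : Fin g.m, M := Finset.sum_le_sum fun j _ => g8_cut B j
    _ = _ := by simp only [Finset.sum_const, Finset.card_univ, Fintype.card_fin, smul_eq_mul]

theorem g8_range {ι α : Type} [Finite ι] (f : ι → α) : (range f).ncard ≤ Nat.card ι := by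
  rw [← image_univ, ← ncard_univ]
  exact ncard_image_le finite_univ

theorem g8_U (c : g.Cp) : c.1 ⊆ g.U := by
  obtain ⟨A, u, hu, rfl⟩ := c
  rintro v ⟨-, h⟩
  rcases h.cases_tail with h | ⟨w, -, h⟩
  · exact h ▸ hu
  · exact h.1

theorem g8_mono {H H' : Set g.K.V} (h : H ⊆ H') : g.K.N H ⊆ g.K.N H' :=
  biUnion_subset_biUnion_left h

theorem g8_H {i : Bool} {y : ℂ} (h : y ∈ SqH i) : y ∈ Sq := by
  obtain ⟨h1, h2⟩ := h
  refine ⟨h1, ?_⟩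
  rw [h2]
  cases i <;> simp only [Bool.false_eq_true, ↓ reduceIte, mem_Icc, Std.le_refl, zero_le_one, and_self]

theorem g8_V {i : Bool} {y : ℂ} (h : y ∈ SqV i) : y ∈ Half i := by
  obtain ⟨h1, h2⟩ := h
  cases i
  · simp only [Bool.false_eq_true, if_false] at h1
    refine ⟨⟨?_, h2⟩, ?_⟩ <;> simp only [h1, mem_Icc, Std.le_refl, zero_le_one, and_self, Bool.false_eq_true, ↓ reduceIte, one_div, inv_nonneg, Nat.ofNat_nonneg]
  · simp only [if_true] at h1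
    refine ⟨⟨?_, h2⟩, ?_⟩
    · simp only [h1, mem_Icc, zero_le_one, Std.le_refl, and_self]
    · simp only [if_true, h1]
      norm_num

theorem g8_mid (σ : Bool) {y : ℂ} (h : y ∈ Mid) : y ∈ Half σ := by
  refine ⟨h.1, ?_⟩
  have h2 : y.re = 1 / 2 := h.2
  cases σ
  · simp only [Bool.false_eq_true, if_false]
    exact h2.le
  · simp only [if_true]
    exact h2.ge

theorem g8_J (D : Glued g) (c : g.Cp) : D.J c ⊆ D.Δ c := by
  obtain ⟨Ψ, -, -, h1, h2⟩ := D.dsc c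
  rw [← h1, ← h2]
  exact image_mono sphere_subset_closedBall

theorem g8_A (D : Glued g) {c : g.Cp} {b : ℂ} (hb : b ∈ D.A c) : D.θ c b ∈ g.K.N c.1 :=
  D.imgA c ▸ mem_image_of_mem _ hb

theorem g8_union {W : Set g.K.V} {R : Set (Finset g.K.V)} {x y : S.M} (h : g.K.Same x y)
    (hx : x ∈ ⋃ t ∈ R, g.K.J W t) : y ∈ ⋃ t ∈ R, g.K.J W t := by
  obtain ⟨t, ht, hx⟩ := mem_iUnion₂.1 hx
  exact mem_iUnion₂.2 ⟨t, ht, h.mem.2.2.1 _ _ hx⟩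

theorem g8_stratum (D : Glued g) {c : g.Cp} {b z : ℂ} (hb : b ∈ D.A c) (hJ : b ∈ D.J c)
    (hz : z ∈ D.A c) (h : g.K.Same (D.θ c b) (D.θ c z)) : z ∈ D.J c := by
  obtain ⟨h1, h2⟩ := (D.A_fr c b hb).1 hJ
  refine (D.A_fr c z hz).2 ⟨h.mem.1 _ h1, ?_⟩
  rintro j ⟨y, ⟨hV, hH⟩, hy⟩
  have h3 : D.θ c b ∈ g.Ψ j '' (SqV false ∪ SqV true) := by
    rw [g.sV]
    refine g8_union (g.K.same_equiv.symm h) ?_
    rw [← g.sV]
    exact ⟨y, hV, hy⟩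
  obtain ⟨y', hV', hy'⟩ := h3
  have h4 : y' ∈ SqH false ∪ SqH true := by
    by_contra h4
    exact h2 j ⟨y', ⟨hV', h4⟩, hy'⟩
  have hyS : y ∈ Sq := by
    rcases hV with hV | hV <;> exact (g8_V hV).1
  have key : ∀ i, y' ∈ SqH i → y ∈ SqH i := by
    intro i hi
    have h5 : D.θ c z ∈ g.Ψ j '' SqH i := by
      rw [g.sH]
      refine g8_union h ?_
      rw [← g.sH]
      exact ⟨y', hi, hy'⟩
    obtain ⟨y'', hi', hy''⟩ := h5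
    have : y'' = y := g.inj j (g8_H hi') hyS (hy''.trans hy.symm)
    exact this ▸ hi'
  exact hH (h4.imp (key _) (key _))

theorem g8_piece (D : Glued g) (Z : Site B) (c : g.Cp) (j : Fin g.m) (σ : Bool) {C : Set ℂ}
    (h1 : C ⊆ Half σ) (h2 : IsPreconnected C)
    (h3 : ∀ y ∈ C, y.re = 1 / 2 ∨ y ∈ SqH false ∪ SqH true) {a : B.Nu ⊕ g.K.V}
    (h4 : ∀ y ∈ C, Z.σ (g.Ψ j y) = a) :
    {z | D.d j σ = c ∧ z ∈ D.ι j σ '' C} ⊆ D.J c ∧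
      IsPreconnected {z | D.d j σ = c ∧ z ∈ D.ι j σ '' C} ∧
      ∀ x ∈ {z | D.d j σ = c ∧ z ∈ D.ι j σ '' C}, ∀ y ∈ {z | D.d j σ = c ∧ z ∈ D.ι j σ '' C},
        Z.σ (D.θ c x) = Z.σ (D.θ c y) := by
  refine ⟨?_, ?_, ?_⟩
  · rintro _ ⟨rfl, y, hy, rfl⟩
    exact (D.ι_fr j σ y (h1 hy)).2 (h3 y hy)
  · by_cases hc : D.d j σ = c
    · have : {z | D.d j σ = c ∧ z ∈ D.ι j σ '' C} = D.ι j σ '' C := by
        ext z
        simp only [hc, true_and, mem_ofPred_eq]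
      rw [this]
      exact h2.image _ ((D.ι_cont j σ).mono h1)
    · have : {z | D.d j σ = c ∧ z ∈ D.ι j σ '' C} = ∅ := by
        ext z
        simp only [hc, false_and, mem_ofPred_eq, mem_empty_iff_false]
      rw [this]
      exact isPreconnected_empty
  · rintro _ ⟨rfl, x, hx, rfl⟩ _ ⟨-, y, hy, rfl⟩
    rw [D.ι_comm j σ x (h1 hx), D.ι_comm j σ y (h1 hy), h4 x hx, h4 y hy]

/-- Plan: the strata (`Tri.same_card`) that meet `θ c '' (A c ∩ J c)` lie in it (`A_fr`, `sH`,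
`sV`, `Tri.Same.mem`) and lift (`Glued.lift`, `Site.same`); for each half two ends (`en_conn`)
and at most `M` fibres of cut nodes (`mid_conn`, `cut_card`). -/
theorem Glued.parts (D : Glued g) (Z : Site B) (c : g.Cp) :
    ∃ R : Set (Set ℂ), R.Finite ∧ R.ncard ≤ 4 ^ Fintype.card g.K.V + 2 * g.m * (M + 2) ∧
      D.J c ⊆ ⋃₀ R ∧ ∀ u ∈ R, u ⊆ D.J c ∧ IsPreconnected u ∧
        ∀ x ∈ u, ∀ y ∈ u, Z.σ (D.θ c x) = Z.σ (D.θ c y) := by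
  classical
  have := S.t2
  have := S.compact
  let F1 : Set S.M → Set ℂ := fun T => {z ∈ D.A c | D.θ c z ∈ T}
  let R1 : Set (Set ℂ) := (fun b => F1 {y | g.K.Same (D.θ c b) y}) '' (D.A c ∩ D.J c)
  let F2 : Fin g.m × Bool × Bool → Set ℂ := fun q =>
    {z | D.d q.1 q.2.1 = c ∧ z ∈ D.ι q.1 q.2.1 '' (Half q.2.1 ∩ (B q.1).En q.2.2)}
  let F3 : (Σ j : Fin g.m, {p // (B j).IsCut p}) × Bool → Set ℂ := fun q =>
    {z | D.d q.1.1 q.2 = c ∧ z ∈ D.ι q.1.1 q.2 '' {y ∈ Mid | y.im ∈ Icc (B q.1.1).y0 (B q.1.1).y1 ∧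
      Z.σ (g.Ψ q.1.1 y) = .inl (.inr ⟨q.1.1, q.1.2⟩)}}
  have s1 : R1 ⊆ F1 '' range fun x => {y | g.K.Same x y} := by
    rintro _ ⟨b, -, rfl⟩
    exact ⟨_, ⟨_, rfl⟩, rfl⟩
  have f1 : (F1 '' range fun x => {y | g.K.Same x y}).Finite := g.K.same_card.1.image _
  refine ⟨R1 ∪ range F2 ∪ range F3, ((f1.subset s1).union (finite_range _)).union (finite_range _),
    ?_, ?_, ?_⟩
  · have c1 : R1.ncard ≤ 4 ^ Fintype.card g.K.V :=
      (ncard_le_ncard s1 f1).trans ((ncard_image_le g.K.same_card.1).trans g.K.same_card.2)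
    have c2 : (range F2).ncard ≤ g.m * 4 := (g8_range F2).trans (by simp only [Nat.card_eq_fintype_card, Fintype.card_prod, Fintype.card_fin, Fintype.card_bool, Nat.reduceMul, Std.le_refl])
    have c3 : (range F3).ncard ≤ g.m * M * 2 := by
      refine (g8_range F3).trans ?_
      rw [Nat.card_prod, Nat.card_eq_fintype_card (α := Bool), Fintype.card_bool]
      exact Nat.mul_le_mul_right _ (g8_sigma B)
    have c4 := ncard_union_le (R1 ∪ range F2) (range F3)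
    have c5 := ncard_union_le R1 (range F2)
    have c6 : 2 * g.m * (M + 2) = g.m * 4 + g.m * M * 2 := by ring
    omega
  · intro b hb
    rcases D.pieces c b (g8_J D c hb) with hA | ⟨j, σ, hc, y, hy, rfl⟩
    · exact ⟨_, Or.inl (Or.inl ⟨b, ⟨hA, hb⟩, rfl⟩), hA, g.K.same_equiv.refl _⟩
    · have h1 := (D.ι_fr j σ y hy).1 (hc ▸ hb)
      have h2 : y ∈ SqH false ∪ SqH true ∪ Mid := by
        rcases h1 with h1 | h1
        · exact Or.inr ⟨hy.1, h1⟩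
        · exact Or.inl h1
      rcases lines_cases B j h2 with ⟨i, hi⟩ | ⟨h3, h4⟩
      · exact ⟨_, Or.inl (Or.inr ⟨(j, σ, i), rfl⟩), hc, y, ⟨hy, hi⟩, rfl⟩
      · obtain ⟨p, hp, -⟩ := Z.mid j y h3 h4
        exact ⟨_, Or.inr ⟨(⟨j, p⟩, σ), rfl⟩, hc, y, ⟨h3, h4, hp⟩, rfl⟩
  · rintro _ ((⟨b, ⟨hA, hJ⟩, rfl⟩ | ⟨⟨j, σ, i⟩, rfl⟩) | ⟨⟨⟨j, p⟩, σ⟩, rfl⟩)
    · refine ⟨fun z hz => g8_stratum D hA hJ hz.1 hz.2,
        D.lift (g.K.same_conn _) fun y hy => Tri.Same.mem hy |>.1 _ (g8_A D hA), ?_⟩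
      intro x hx y hy
      have hU := g8_mono (g8_U c) (g8_A D hA)
      exact (Z.same hU hx.2).symm.trans (Z.same hU hy.2)
    · refine g8_piece D Z c j σ inter_subset_left (en_conn B j i σ).2.1 ?_
        fun y hy => Z.en j i y hy.2
      rintro y ⟨-, -, h | h⟩
      · cases i
        · exact Or.inr (Or.inl h)
        · exact Or.inr (Or.inr h)
      · exact Or.inl h.1
    · exact g8_piece D Z c j σ (fun y hy => g8_mid σ hy.1) (Z.mid_conn j p)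
        (fun y hy => Or.inl hy.1.2) fun y hy => hy.2.2

/-- Plan: if a half is attached to `c`, the part of the middle line between `y0` and `y1`.
Otherwise `Sk.nontriv` gives a triangle `t` and an edge `u`, `v`; take the open segment of
`Tri.mid_edge`. -/
theorem Glued.infinite (D : Glued g) (Z : Site B) (c : g.Cp) :
    {b ∈ D.J c | Z.σ (D.θ c b) ∉ B.Fr}.Infinite := by
  have := S.t2
  have := S.compact
  by_cases hc : ∃ j σ, D.d j σ = c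
  · obtain ⟨j, σ, rfl⟩ := hc
    obtain ⟨l0, l1, l2⟩ := (B j).y_lt
    have hm : ∀ t ∈ Icc (B j).y0 (B j).y1, (⟨1 / 2, t⟩ : ℂ) ∈ Mid := fun t ht =>
      ⟨⟨⟨by norm_num, by norm_num⟩, l0.le.trans ht.1, ht.2.trans l2.le⟩, rfl⟩
    refine infinite_of_injOn_mapsTo (f := fun t : ℝ => D.ι j σ ⟨1 / 2, t⟩)
      (s := Icc (B j).y0 (B j).y1) ?_ ?_ (Icc_infinite l1)
    · intro t ht t' ht' h
      exact congrArg Complex.im (D.ι_inj j σ (g8_mid σ (hm t ht)) (g8_mid σ (hm t' ht')) h)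
    · intro t ht
      refine ⟨(D.ι_fr j σ _ (g8_mid σ (hm t ht))).2 (Or.inl rfl), ?_⟩
      obtain ⟨p, hp, -⟩ := Z.mid j _ (hm t ht) ht
      rw [D.ι_comm j σ _ (g8_mid σ (hm t ht)), hp]
      rintro ⟨x, -, h⟩
      simp at h
  · obtain ⟨u, hu, hcu⟩ := c.2
    obtain ⟨t, hM, ⟨v, hvt, hv⟩, hF⟩ := g.sk.nontriv u hu
    have hvc : v ∈ c.1 := hcu ▸ hv
    have hvU : v ∈ g.U := g8_U c hvc
    obtain ⟨w, hwt, hwU, hw⟩ : ∃ w ∈ t, w ∉ g.U ∧ ¬ ((w ∈ g.Sv ∧ g.lab w ∉ Bd g.K.T) ∨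
        ∃ j i, g.z j i ∉ Bd g.K.T ∧ w ∈ g.W j ∧ t ∈ g.L j i) := by
      by_contra h
      refine hF ⟨hM, fun w hwt hwU => ?_⟩
      by_contra h'
      exact h ⟨w, hwt, hwU, h'⟩
    have hvw : v ≠ w := fun h => hwU (h ▸ hvU)
    obtain ⟨p, q, hp, -, ⟨γ, -, hγ, -, -, hi⟩, -, hface, htile⟩ := g.K.mid_edge hM.1 hvw hvt hwt
    have hinf : (g.K.seg {v, w} t \ {p, q}).Infinite := by
      refine Infinite.sdiff ?_ (toFinite _)
      rw [← hi]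
      exact (Icc_infinite zero_lt_one).image hγ
    refine Infinite.of_image (D.θ c) (hinf.mono ?_)
    rintro x ⟨hx, hpq⟩
    have hxp : x ≠ p := fun h => hpq (Or.inl h)
    have ht := htile x hx fun h => hpq (Or.inr h)
    have hxc : x ∈ g.K.N c.1 := mem_biUnion hvc ((ht v).2 (Or.inl rfl))
    obtain ⟨b, hb, rfl⟩ : x ∈ D.θ c '' D.A c := (D.imgA c).symm ▸ hxc
    have hJ : b ∈ D.J c := by
      refine (D.A_fr c b hb).2
        ⟨mem_biUnion (fun h => hwU (g8_U c h) : w ∈ c.1ᶜ) ((ht w).2 (Or.inr rfl)), ?_⟩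
      rintro j ⟨y, ⟨hV, -⟩, hy⟩
      have key : ∀ σ, y ∉ SqV σ := by
        intro σ hσ
        have h1 := g8_A D ((D.A_inter j σ y (g8_V hσ)).2 hσ)
        rw [D.ι_comm j σ y (g8_V hσ), hy] at h1
        exact disjoint_left.1 (g.disj.2.2 _ _ fun h => hc ⟨j, σ, h⟩) h1 hxc
      exact hV.elim (key _) (key _)
    refine ⟨b, ⟨hJ, ?_⟩, rfl⟩
    rintro ⟨a, ha, hσ⟩
    obtain ⟨a', h1, h2⟩ := Z.cl ((D.fr hJ).2.2 hb)
    obtain rfl : a = a' := Sum.inl.inj (Sum.inl.inj (hσ.symm.trans h1))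
    rcases h2 with h2 | ⟨j, i, hz, h2⟩
    · obtain ⟨r, ⟨hr, hl⟩, h3⟩ := mem_iUnion₂.1 h2
      rcases (ht r).1 h3 with rfl | rfl
      · exact hvU (Or.inl (Or.inl hr))
      · exact hw (Or.inl ⟨hr, hl ▸ ha⟩)
    · rw [g.sH] at h2
      obtain ⟨t', ht', h3⟩ := mem_iUnion₂.1 h2
      have hvW : v ∉ g.W j := fun h => hvU (Or.inr (mem_iUnion.2 ⟨j, h⟩))
      have hwW : w ∈ g.W j := by
        obtain ⟨r, hr, h4⟩ := mem_iUnion₂.1 h3.1.2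
        rcases (ht r).1 h4 with rfl | rfl
        · exact (hvW hr).elim
        · exact hr
      by_cases htt : t = t'
      · exact hw (Or.inr ⟨j, i, hz ▸ ha, hwW, htt ▸ ht'⟩)
      · obtain ⟨w', hw', v', hv', -, -, -, -, h4⟩ := g.K.J_inter hM.1
          ((g.sk.band j).mix i t' ht').1 htt ⟨⟨hface hx, h3.1.2⟩, h3.2⟩ h3
        have e1 : w' = w := by
          rcases (ht w').1 ((c1_ctr g.K h4).2.1 w' (by simp)) with h | h
          · exact (hvW (h ▸ hw')).elim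
          · exact h
        have e2 : v' = v := by
          rcases (ht v').1 ((c1_ctr g.K h4).2.1 v' (by simp)) with h | h
          · exact h
          · exact (hv' (h ▸ hwW)).elim
        rw [e1, e2, Finset.pair_comm, hp] at h4
        exact hxp h4

theorem nu_card (B : g.BN e η s M) : Nat.card B.Nu ≤ Fintype.card g.K.V + g.m * M := by
  rw [Nat.card_sum]
  refine add_le_add ?_ (g8_sigma B)
  rw [← Nat.card_eq_fintype_card]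
  exact Nat.card_le_card_of_injective _ Subtype.val_injective

end Pool.Agent.MP_17e62b_gt.T55

end

section

/-!
Free arcs of the frontier.
-/

namespace Pool.Agent.MP_17e62b_gt.T55

open Set Metric Topology H14 G
open scoped Manifold

variable {n : ℕ} {S : Surface n} {N : ℕ} {ρ δ : ℝ} {g : GD S N ρ δ} {e η s : ℝ} {M : ℕ}
  {B : g.BN e η s M}

/-- A vertex of a disc has no neighbour in a tube. -/
theorem g9_notY {u v : g.K.V} (hu : u ∈ g.U) (hv : v ∈ g.Y) {t : Finset g.K.V} (ht : t ∈ g.K.T)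
    (h1 : u ∈ t) (h2 : v ∈ t) : False := by
  have e : u ∉ g.Y := fun h => hu (.inl (.inr h))
  obtain ⟨a, b, h⟩ := g.sk.tube v hv
  exact hu (.inl (.inl (h v ⟨hv, .refl⟩ u e ⟨fun q => e (q ▸ hv), t, ht, h2, h1⟩).1))

theorem g9_notW {u : g.K.V} (hu : u ∈ g.U) (j : Fin g.m) : u ∉ g.W j :=
  fun h => hu (.inr (mem_iUnion.2 ⟨j, h⟩))

theorem g9_cases {v : g.K.V} (hv : v ∉ g.U) : v ∈ g.Sv ∨ v ∈ g.Y ∨ ∃ j, v ∈ g.W j := by
  rcases not_not.1 hv with (h | h) | h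
  exacts [.inl h, .inr (.inl h), .inr (.inr (mem_iUnion.1 h))]

theorem g9_sub (c : g.Cp) : c.1 ⊆ g.U := by
  obtain ⟨_, u, -, rfl⟩ := c
  exact fun v hv => Jn.right hv

theorem g9_comp (c : g.Cp) {u v : g.K.V} (hu : u ∈ c.1) (h : Jn g.K.T g.U u v) : v ∈ c.1 := by
  obtain ⟨_, w, hw, rfl⟩ := c
  exact Jn.trans hu h

theorem g9_N {H : Set g.K.V} {v : g.K.V} {x : S.M} (hv : v ∈ H) (hx : x ∈ g.K.tile v) :
    x ∈ g.K.N H := mem_iUnion₂.2 ⟨v, hv, hx⟩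

theorem g9_H (i : Bool) : SqH i ⊆ Sq := by
  rintro z ⟨h1, h2⟩
  refine ⟨h1, ?_⟩
  rw [h2]
  cases i <;> simp only [Bool.false_eq_true, ↓ reduceIte, mem_Icc, Std.le_refl, zero_le_one, and_self]

theorem g9_V (i : Bool) : SqV i ⊆ Sq := by
  rintro z ⟨h1, h2⟩
  refine ⟨?_, h2⟩
  rw [h1]
  cases i <;> simp only [Bool.false_eq_true, ↓ reduceIte, mem_Icc, Std.le_refl, zero_le_one, and_self]

theorem g9_tile (D : Glued g) {c : g.Cp} {b : ℂ} (hA : b ∈ D.A c) :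
    ∃ u ∈ c.1, D.θ c b ∈ g.K.tile u := by
  obtain ⟨u, hu, h⟩ := mem_iUnion₂.1 ((D.imgA c).subset (mem_image_of_mem _ hA))
  exact ⟨u, hu, h⟩

/-- Plan: by the number of dual cells through the point; `GD.free`, `Site.cl`, `free_adj`,
`free_L`. A point on the frontier of a band lies on an end (`A_fr`). -/
theorem Glued.pos (D : Glued g) (Z : Site B) {c : g.Cp} {b : ℂ} (hA : b ∈ D.A c) (hJ : b ∈ D.J c)
    (hf : Z.σ (D.θ c b) ∈ B.Fr) : ∃ t ∈ FT g.K.T g.Sv g.Y g.lab g.W g.L g.z,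
      D.θ c b ∈ g.K.J g.U t ∧ ∃ u ∈ t, u ∈ g.U ∧ D.θ c b ∈ g.K.tile u := by
  have := S.t2
  have := S.compact
  obtain ⟨u, hu, xu⟩ := g9_tile D hA
  replace hu := g9_sub c hu
  have h0 := (D.fr hJ).2.2 hA
  obtain ⟨a, e, ha⟩ := Z.cl h0
  obtain ⟨a', fa, e'⟩ := hf
  obtain rfl : a = a' := by simpa [e] using e'
  rcases h0 with h0 | ⟨j, i, h0⟩
  · obtain ⟨w, hw, xw⟩ := mem_iUnion₂.1 h0
    have wU : w ∉ g.U := fun h => h (.inl (.inl hw))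
    have lw : g.lab w ∉ Bd g.K.T := g.free fa ha (.inl (g9_N ⟨hw, rfl⟩ xw)) ▸ fa
    obtain ⟨-, -, t, ht, xt⟩ := g.K.basic (mem_univ (D.θ c b))
    have ut := c1_mem g.K xu xt
    have wt := c1_mem g.K xw xt
    refine ⟨t, ⟨⟨ht, ⟨u, ut, hu⟩, w, wt, wU⟩, fun v vt vU => ?_⟩,
      ⟨⟨xt, g9_N hu xu⟩, g9_N wU xw⟩, u, ut, hu, xu⟩
    rcases g9_cases vU with hv | hv | ⟨j, hv⟩
    · refine .inl ⟨hv, ?_⟩
      rcases eq_or_ne w v with rfl | q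
      · exact lw
      · exact g.sk.free_adj w hw lw v hv ⟨q, t, ht, wt, vt⟩ ▸ lw
    · exact (g9_notY hu hv ht ut vt).elim
    · have : ∃ i, t ∈ g.L j i := by
        by_contra q
        rcases (g.sk.band j).rest t ⟨ht, ⟨v, vt, hv⟩, u, ut, g9_notW hu j⟩ (fun r => q ⟨_, r⟩)
          (fun r => q ⟨_, r⟩) w wt with r | r
        · exact Set.disjoint_left.1 (g.sk.out j) r (.inl hw)
        · exact wU r
      obtain ⟨i, hi⟩ := this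
      exact .inr ⟨j, i, g.sk.free_L j i t hi w wt hw (.inl lw) ▸ lw, hv, hi⟩
  · have lz : g.z j i ∉ Bd g.K.T := g.free fa ha (.inr ⟨j, i, rfl, h0⟩) ▸ fa
    rw [g.sH] at h0
    obtain ⟨t, hi, xt⟩ := mem_iUnion₂.1 h0
    have ht := ((g.sk.band j).mix i t hi).1
    obtain ⟨w, hw, wt, xw⟩ := c3_vertex g.K xt
    have wU : w ∉ g.U := fun h => g9_notW h j hw
    have ut := c1_mem g.K xu xt.1.1
    refine ⟨t, ⟨⟨ht, ⟨u, ut, hu⟩, w, wt, wU⟩, fun v vt vU => ?_⟩,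
      ⟨⟨xt.1.1, g9_N hu xu⟩, g9_N wU xw⟩, u, ut, hu, xu⟩
    rcases g9_cases vU with hv | hv | ⟨k, hv⟩
    · exact .inl ⟨hv, (g.sk.free_L j i t hi v vt hv (.inr lz)).symm ▸ lz⟩
    · exact (g9_notY hu hv ht ut vt).elim
    · rcases eq_or_ne j k with rfl | q
      · exact .inr ⟨j, i, lz, hv, hi⟩
      · obtain ⟨q1, q2⟩ := g.sk.sep j k q
        exact (q2 ⟨w, hw, v, hv, fun r => Set.disjoint_left.1 q1 hw (r ▸ hv), t, ht, wt, vt⟩).elim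

/-- The points of a free triangle lie in free classes and off the open long sides. -/
theorem GD.ft_mem {t : Finset g.K.V} (ht : t ∈ FT g.K.T g.Sv g.Y g.lab g.W g.L g.z) {x : S.M}
    (hx : x ∈ g.K.J g.U t) : (∃ a, a ∉ Bd g.K.T ∧ x ∈ g.Cl a) ∧
      (x ∈ g.K.N g.Sv ∨ ∃ j i, x ∈ g.Ψ j '' SqH i) ∧
      ∀ j, x ∉ g.Ψ j '' ((SqV false ∪ SqV true) \ (SqH false ∪ SqH true)) := by
  obtain ⟨u, hu, xu⟩ := mem_iUnion₂.1 hx.1.2
  obtain ⟨v, hv, xv⟩ := mem_iUnion₂.1 hx.2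
  have vt := c1_mem g.K xv hx.1.1
  have sq : ∀ {y : ℂ}, y ∈ SqV false ∪ SqV true → y ∈ Sq := fun h =>
    h.elim (fun h => g9_V _ h) fun h => g9_V _ h
  rcases ht.2 v vt hv with ⟨h1, h2⟩ | ⟨j, i, h1, h2, h3⟩
  · refine ⟨⟨_, h2, .inl (g9_N ⟨h1, rfl⟩ xv)⟩, .inl (g9_N h1 xv), ?_⟩
    rintro k ⟨y, ⟨y1, y2⟩, rfl⟩
    exact y2 (g.band_S k (sq y1) (g9_N (.inl h1) xv))
  · have h0 : x ∈ g.Ψ j '' SqH i := by
      rw [g.sH]
      exact mem_iUnion₂.2 ⟨t, h3, ⟨hx.1.1, g9_N h2 xv⟩, g9_N (g9_notW hu j) xu⟩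
    refine ⟨⟨_, h1, .inr ⟨j, i, rfl, h0⟩⟩, .inr ⟨j, i, h0⟩, ?_⟩
    rintro k ⟨y, ⟨y1, y2⟩, rfl⟩
    rcases eq_or_ne j k with rfl | q
    · obtain ⟨y', a1, a2⟩ := h0
      obtain rfl := g.inj j (g9_H i a1) (sq y1) a2
      cases i
      exacts [y2 (.inl a1), y2 (.inr a1)]
    · exact Set.disjoint_left.1 (g.disj.2.1 j k q) (g9_N h2 xv)
        ((g.img k).subset (mem_image_of_mem _ (sq y1)))

/-- Plan: the union of the pieces along the chain is connected (`c3_chain`), lies in one disc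
(`Tri.conn_tiles` or `GD.disj`) and in one free class (closed, pairwise disjoint); lift it. -/
theorem Glued.ft_path (D : Glued g) (Z : Site B) {c : g.Cp} {b b' : ℂ} (hb : b ∈ D.A c)
    (hb' : b' ∈ D.A c) {t t' : Finset g.K.V}
    (h : FJn g.U (FT g.K.T g.Sv g.Y g.lab g.W g.L g.z) t t') (h1 : D.θ c b ∈ g.K.J g.U t)
    (h2 : D.θ c b' ∈ g.K.J g.U t') : ∃ C ⊆ D.J c, IsPreconnected C ∧ b ∈ C ∧ b' ∈ C ∧
      ∀ x ∈ C, ∀ y ∈ C, Z.σ (D.θ c x) = Z.σ (D.θ c y) := by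
  have := S.t2
  have := S.compact
  obtain ⟨Q, q1, q2, q3, q4, -⟩ := c3_chain g.K (fun s hs => hs.1.1) h
  have m : ∀ x ∈ Q, ∃ s ∈ FT g.K.T g.Sv g.Y g.lab g.W g.L g.z, x ∈ g.K.J g.U s := fun x hx => by
    obtain ⟨s, a1, a2⟩ := mem_iUnion₂.1 (q1 hx)
    exact ⟨s, a1, a2⟩
  have hU : Q ⊆ g.K.N g.U := fun x hx => (m x hx).elim fun s hs => hs.2.1.2
  obtain ⟨u, hu, xu⟩ := g9_tile D hb
  have hc : Q ⊆ g.K.N c.1 := fun x hx => by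
    obtain ⟨v, hv, xv⟩ := mem_iUnion₂.1 (hU hx)
    exact g9_N (g9_comp c hu ((g.K.conn_tiles g.U q4 hU u ⟨g9_sub c hu, _, xu, q2 h1⟩ v
      ⟨hv, x, xv, hx⟩).mono fun _ r => r.1)) xv
  have fr : ∀ x ∈ Q, ∃ a : g.κ, a.1 ∉ Bd g.K.T ∧ Z.σ x = .inl (.inl a) ∧ x ∈ g.Cl a.1 :=
    fun x hx => by
      obtain ⟨s, a1, a2⟩ := m x hx
      obtain ⟨⟨a, a3, a4⟩, a5, -⟩ := GD.ft_mem a1 a2
      obtain ⟨a', a6, a7⟩ := Z.cl a5
      exact ⟨a', g.free a3 a4 a7 ▸ a3, a6, a7⟩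
  refine ⟨_, fun x hx => ?_, D.lift q4 hc, ⟨hb, q2 h1⟩, ⟨hb', q3 h2⟩, fun x hx y hy => ?_⟩
  · obtain ⟨s, a1, a2⟩ := m _ hx.2
    refine (D.A_fr c x hx.1).2 ⟨?_, (GD.ft_mem a1 a2).2.2⟩
    obtain ⟨v, hv, xv⟩ := mem_iUnion₂.1 a2.2
    exact g9_N (fun r => hv (g9_sub c r)) xv
  · obtain ⟨a, a1, a2, a3⟩ := fr _ hx.2
    obtain ⟨a', -, b2, b3⟩ := fr _ hy.2
    rw [a2, b2]
    by_contra q
    have ne : a'.1 ≠ a.1 := fun r => q (by rw [Subtype.ext r])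
    obtain ⟨p, -, p1, p2⟩ := isPreconnected_closed_iff.1 q4 _ _ (g.cl_closed a.1)
      ((toFinite {v | v ≠ a.1}).isClosed_biUnion fun v _ => g.cl_closed v) (fun p hp => by
        obtain ⟨v, -, -, r⟩ := fr p hp
        by_cases e : v.1 = a.1
        · exact .inl (e ▸ r)
        · exact .inr (mem_iUnion₂.2 ⟨v.1, e, r⟩)) ⟨_, hx.2, a3⟩
      ⟨_, hy.2, mem_iUnion₂.2 ⟨a'.1, ne, b3⟩⟩
    obtain ⟨v, r1, r2⟩ := mem_iUnion₂.1 p2
    exact r1 (g.free a1 p1 r2)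

/-- The vertices under a subset of a glued disc. -/
def Glued.under (D : Glued g) (c : g.Cp) (C : Set ℂ) : Set g.K.V :=
  {v | (v ∈ g.U ∧ ∃ y ∈ C, y ∈ D.A c ∧ D.θ c y ∈ g.K.tile v) ∨
    ∃ j σ, D.d j σ = c ∧ v ∈ g.W j ∧ ∃ y ∈ Half σ, D.ι j σ y ∈ C ∧ g.Ψ j y ∈ g.K.tile v}

/-- The points of a glued disc over the dual cell of `v`. -/
def g9_P (D : Glued g) (c : g.Cp) (v : g.K.V) : Set ℂ :=
  {p | (v ∈ g.U ∧ p ∈ D.A c ∧ D.θ c p ∈ g.K.tile v) ∨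
    ∃ j σ, D.d j σ = c ∧ v ∈ g.W j ∧ p ∈ D.ι j σ '' (Half σ ∩ g.Ψ j ⁻¹' g.K.tile v)}

theorem g9_closed (D : Glued g) (c : g.Cp) (v : g.K.V) : IsClosed (g9_P D c v) := by
  have e : g9_P D c v = (⋃ _ : v ∈ g.U, D.A c ∩ D.θ c ⁻¹' g.K.tile v) ∪
      ⋃ j, ⋃ σ, ⋃ _ : D.d j σ = c, ⋃ _ : v ∈ g.W j,
        D.ι j σ '' (Half σ ∩ g.Ψ j ⁻¹' g.K.tile v) := by
    ext p
    simp only [g9_P, mem_ofPred_eq, mem_union, mem_iUnion, mem_inter_iff, mem_preimage, exists_prop]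
  rw [e]
  refine (isClosed_iUnion_of_finite fun _ =>
    (D.A_closed c).inter ((g.K.tile_basic.1 v).preimage (D.cont c))).union
    (isClosed_iUnion_of_finite fun j => isClosed_iUnion_of_finite fun σ =>
      isClosed_iUnion_of_finite fun _ => isClosed_iUnion_of_finite fun _ => ?_)
  exact (((half_basic σ).1.inter_right
    ((g.K.tile_basic.1 v).preimage (g.cont j))).image_of_continuousOn
      ((D.ι_cont j σ).mono inter_subset_left)).isClosed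

theorem g9_under (D : Glued g) (c : g.Cp) (C : Set ℂ) (v : g.K.V) :
    v ∈ D.under c C ↔ ∃ p ∈ C, p ∈ g9_P D c v := by
  constructor
  · rintro (⟨a, y, b1, b2⟩ | ⟨j, σ, a1, a2, y, b1, b2, b3⟩)
    exacts [⟨y, b1, .inl ⟨a, b2⟩⟩, ⟨_, b2, .inr ⟨j, σ, a1, a2, y, ⟨b1, b3⟩, rfl⟩⟩]
  · rintro ⟨p, hp, ⟨a, b⟩ | ⟨j, σ, a1, a2, y, ⟨b1, b3⟩, rfl⟩⟩
    exacts [.inl ⟨a, p, hp, b⟩, .inr ⟨j, σ, a1, a2, y, b1, hp, b3⟩]

theorem g9_P_tile (D : Glued g) {c : g.Cp} {v : g.K.V} {p : ℂ} (h : p ∈ g9_P D c v) :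
    D.θ c p ∈ g.K.tile v := by
  rcases h with h | ⟨j, σ, rfl, -, y, ⟨b1, b3⟩, rfl⟩
  · exact h.2.2
  · rw [D.ι_comm j σ y b1]
    exact b3

theorem g9_side (D : Glued g) {j : Fin g.m} {σ : Bool} {y : ℂ} (hy : y ∈ Half σ)
    (hA : D.ι j σ y ∈ D.A (D.d j σ)) : ∃ t ∈ Rest g.K.T (g.W j) (g.L j),
      ∀ v, D.θ (D.d j σ) (D.ι j σ y) ∈ g.K.tile v → v ∈ t := by
  have h := (D.A_inter j σ y hy).1 hA
  have h' : y ∈ SqV false ∪ SqV true := by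
    cases σ
    exacts [.inl h, .inr h]
  obtain ⟨t, ht, xt⟩ := mem_iUnion₂.1 ((g.sV j).subset (mem_image_of_mem _ h'))
  exact ⟨t, ht, fun v hv => c1_mem g.K (D.ι_comm j σ y hy ▸ hv) xt.1.1⟩

theorem g9_step (D : Glued g) {c : g.Cp} {v w : g.K.V} {p : ℂ} (h : p ∈ g9_P D c v)
    (h' : p ∈ g9_P D c w) : v = w ∨ Stp g.K.T g.Sv g.Y g.W g.L v w := by
  have t1 := g9_P_tile D h
  have t2 := g9_P_tile D h'
  refine (g.K.tile_basic.2.2.2.2.1 v w _ t1 t2).imp_right fun a => ⟨a, ?_⟩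
  rcases h with h | ⟨j, σ, e, a2, y, ⟨b1, -⟩, rfl⟩
  · rcases h' with h' | ⟨j, σ, rfl, -, y, ⟨b1, -⟩, rfl⟩
    · exact .inl ⟨h.1, h'.1⟩
    · obtain ⟨t, ht, r⟩ := g9_side D b1 h.2.1
      exact .inr ⟨j, .inr ⟨t, ht, r v t1, r w t2⟩⟩
  · rcases h' with h' | ⟨j', σ', e', a2', y', ⟨b1', -⟩, r⟩
    · subst e
      obtain ⟨t, ht, r⟩ := g9_side D b1 h'.2.1
      exact .inr ⟨j, .inr ⟨t, ht, r v t1, r w t2⟩⟩
    · obtain ⟨rfl, -⟩ := D.ι_disj j σ j' σ' (e.trans e'.symm) y b1 y' b1' r.symm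
      exact .inr ⟨j, .inl ⟨a2, a2'⟩⟩

theorem g9_cover (D : Glued g) {c : g.Cp} {p : ℂ} (h : p ∈ D.Δ c) : ∃ v, p ∈ g9_P D c v := by
  rcases D.pieces c p h with h | ⟨j, σ, e, y, hy, rfl⟩
  · obtain ⟨u, hu, xu⟩ := g9_tile D h
    exact ⟨u, .inl ⟨g9_sub c hu, h, xu⟩⟩
  · obtain ⟨v, hv, xv⟩ := mem_iUnion₂.1 ((g.img j).subset (mem_image_of_mem _ hy.1))
    exact ⟨v, .inr ⟨j, σ, e, hv, y, ⟨hy, xv⟩, rfl⟩⟩

/-- Plan: `C` is covered by finitely many closed sets, one for each vertex and each piece; if two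
of them meet, the vertices are equal or joined by a step (compare `Tri.conn_tiles`). -/
theorem Glued.stp (D : Glued g) {c : g.Cp} {C : Set ℂ} (h1 : C ⊆ D.Δ c) (h2 : IsPreconnected C)
    (h3 : ∀ x ∈ C, ∀ y ∈ C, ‖S.f (D.θ c x) - S.f (D.θ c y)‖ ≤ δ) :
    D.under c C ⊆ (g.Sv ∪ g.Y)ᶜ ∧ Small (fun v => S.f (g.K.pt v)) (3 * δ) (D.under c C) ∧
      ∀ a ∈ D.under c C, ∀ b ∈ D.under c C, Relation.ReflTransGen
        (fun x y => y ∈ D.under c C ∧ Stp g.K.T g.Sv g.Y g.W g.L x y) a b := by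
  refine ⟨?_, fun u hu v hv => ?_, fun a ha b hb => ?_⟩
  · rintro v (h | ⟨j, σ, -, h, -⟩)
    · exact fun r => h.1 (.inl r)
    · exact Set.disjoint_left.1 (g.sk.out j) h
  · obtain ⟨p, p1, p2⟩ := (g9_under D c C u).1 hu
    obtain ⟨q, q1, q2⟩ := (g9_under D c C v).1 hv
    have a1 := g.near_pt (g9_P_tile D p2)
    have a2 := g.near_pt (g9_P_tile D q2)
    have a3 := h3 p p1 q q1
    rw [← dist_eq_norm] at a1 a2 a3
    have a4 := dist_triangle4 (S.f (g.K.pt u)) (S.f (D.θ c p)) (S.f (D.θ c q)) (S.f (g.K.pt v))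
    rw [dist_comm (S.f (g.K.pt u)) (S.f (D.θ c p))] at a4
    show dist (S.f (g.K.pt u)) (S.f (g.K.pt v)) ≤ 3 * δ
    linarith
  · by_contra q
    set R := {v | Relation.ReflTransGen
      (fun x y => y ∈ D.under c C ∧ Stp g.K.T g.Sv g.Y g.W g.L x y) a v}
    have cl : ∀ R : Set g.K.V, IsClosed (⋃ v ∈ R, g9_P D c v) := fun R =>
      R.toFinite.isClosed_biUnion fun v _ => g9_closed D c v
    obtain ⟨p, p0, p1, p2⟩ := isPreconnected_closed_iff.1 h2 _ _ (cl R) (cl Rᶜ) (fun p hp => by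
        obtain ⟨v, hv⟩ := g9_cover D (h1 hp)
        by_cases e : v ∈ R
        · exact .inl (mem_iUnion₂.2 ⟨v, e, hv⟩)
        · exact .inr (mem_iUnion₂.2 ⟨v, e, hv⟩))
      (((g9_under D c C a).1 ha).imp fun p hp => ⟨hp.1, mem_iUnion₂.2 ⟨a, .refl, hp.2⟩⟩)
      (((g9_under D c C b).1 hb).imp fun p hp => ⟨hp.1, mem_iUnion₂.2 ⟨b, q, hp.2⟩⟩)
    obtain ⟨v, v1, v2⟩ := mem_iUnion₂.1 p1
    obtain ⟨w, w1, w2⟩ := mem_iUnion₂.1 p2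
    rcases g9_step D v2 w2 with rfl | e
    · exact w1 v1
    · exact w1 (Relation.ReflTransGen.tail v1 ⟨(g9_under D c C w).2 ⟨p, p0, w2⟩, e⟩)

end Pool.Agent.MP_17e62b_gt.T55

end

section

/-!
Separation of the free arcs.
-/

namespace Pool.Agent.MP_17e62b_gt.T55

open Set Metric Topology H14 G
open scoped Manifold

variable {n : ℕ} {S : Surface n} {N : ℕ} {ρ δ : ℝ} {g : GD S N ρ δ} {e η s : ℝ} {M : ℕ}
  {B : g.BN e η s M}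

theorem g10_convH (i : Bool) : Convex ℝ (SqH i) :=
  ((convex_Icc (0 : ℝ) 1).is_linear_preimage Complex.reLm.isLinear).inter
    ((convex_singleton (if i then (1 : ℝ) else 0)).is_linear_preimage Complex.imLm.isLinear)

theorem g10_convV (i : Bool) : Convex ℝ (SqV i) :=
  ((convex_singleton (if i then (1 : ℝ) else 0)).is_linear_preimage Complex.reLm.isLinear).inter
    ((convex_Icc (0 : ℝ) 1).is_linear_preimage Complex.imLm.isLinear)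

theorem g10_H {i : Bool} {y : ℂ} (h : y ∈ SqH i) : y ∈ SqH false ∪ SqH true := by
  cases i
  exacts [Or.inl h, Or.inr h]

theorem g10_V {i : Bool} {y : ℂ} (h : y ∈ SqV i) : y ∈ SqV false ∪ SqV true := by
  cases i
  exacts [Or.inl h, Or.inr h]

theorem g10_corner (σ i : Bool) : ∃ y ∈ Half σ, y ∈ SqV σ ∧ y ∈ SqH i := by
  refine ⟨⟨if σ then 1 else 0, if i then 1 else 0⟩, ?_, ?_, ?_⟩ <;> cases σ <;> cases i <;>
    norm_num only [Half, Sq, mem_Icc, mem_ofPred_eq, Bool.false_eq_true, ite_false, and_self, ite_true, SqV, SqH]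

theorem g10_ctr {X : Type} [TopologicalSpace X] (K : Tri (univ : Set X)) {H : Set K.V}
    {w u : K.V} {t : Finset K.V} (hw : w ∈ H) (hu : u ∉ H) (hwt : w ∈ t) (hut : u ∈ t) {x : X}
    (hx : x ∈ K.ctr {w, u}) : x ∈ K.J H t := by
  obtain ⟨h1, h2, -⟩ := c1_ctr K hx
  exact ⟨⟨c1_mono K (Finset.insert_subset hwt (Finset.singleton_subset_iff.2 hut)) h1,
    mem_iUnion₂.2 ⟨w, hw, h2 w (by simp)⟩⟩, mem_iUnion₂.2 ⟨u, hu, h2 u (by simp)⟩⟩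

/-- A connected set that meets a half meets its long side or lies in the half. -/
theorem g10_split (D : Glued g) (j : Fin g.m) (σ : Bool) {C : Set ℂ} (h1 : C ⊆ D.Δ (D.d j σ))
    (h2 : IsPreconnected C) {y : ℂ} (hy : y ∈ Half σ) (hC : D.ι j σ y ∈ C) :
    (∃ y₀ ∈ Half σ, y₀ ∈ SqV σ ∧ D.ι j σ y₀ ∈ C) ∨
      (C ⊆ D.ι j σ '' Half σ ∧ ¬ (C ∩ D.A (D.d j σ)).Nonempty) := by
  have hc : ∀ k τ, IsClosed (D.ι k τ '' Half τ) := fun k τ =>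
    ((half_basic τ).1.image_of_continuousOn (D.ι_cont k τ)).isClosed
  have hU : IsClosed (D.A (D.d j σ) ∪
      ⋃ p ∈ {p : Fin g.m × Bool | D.d p.1 p.2 = D.d j σ ∧ p ≠ (j, σ)}, D.ι p.1 p.2 '' Half p.2) :=
    (D.A_closed _).union ((toFinite _).isClosed_biUnion fun p _ => hc p.1 p.2)
  have hcov : C ⊆ D.ι j σ '' Half σ ∪ (D.A (D.d j σ) ∪
      ⋃ p ∈ {p : Fin g.m × Bool | D.d p.1 p.2 = D.d j σ ∧ p ≠ (j, σ)},
        D.ι p.1 p.2 '' Half p.2) := by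
    intro x hx
    rcases D.pieces _ x (h1 hx) with h | ⟨k, τ, hk, h⟩
    · exact Or.inr (Or.inl h)
    · by_cases he : (k, τ) = (j, σ)
      · obtain ⟨rfl, rfl⟩ := Prod.mk.inj he
        exact Or.inl h
      · exact Or.inr (Or.inr (mem_iUnion₂.2 ⟨(k, τ), ⟨hk, he⟩, h⟩))
  by_cases hne : (C ∩ (D.A (D.d j σ) ∪
      ⋃ p ∈ {p : Fin g.m × Bool | D.d p.1 p.2 = D.d j σ ∧ p ≠ (j, σ)},
        D.ι p.1 p.2 '' Half p.2)).Nonempty
  · obtain ⟨x, hx, ⟨y₀, h0, rfl⟩, h | h⟩ := isPreconnected_closed_iff.1 h2 _ _ (hc j σ) hU hcov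
      ⟨_, hC, y, hy, rfl⟩ hne
    · exact Or.inl ⟨y₀, h0, (D.A_inter j σ y₀ h0).1 h, hx⟩
    · obtain ⟨p, hp, y', hy', he⟩ := mem_iUnion₂.1 h
      obtain ⟨e1, e2⟩ := D.ι_disj _ _ _ _ hp.1 y' hy' y₀ h0 he
      exact absurd (Prod.ext e1 e2) hp.2
  · exact Or.inr ⟨fun x hx => (hcov hx).resolve_right fun h => hne ⟨x, hx, h⟩,
      fun ⟨x, hx, h⟩ => hne ⟨x, hx, Or.inl h⟩⟩

theorem g10_site (D : Glued g) (Z : Site B) (j : Fin g.m) {σ i : Bool} {y : ℂ} (h1 : y ∈ Half σ)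
    (h2 : y ∈ (B j).En i) : Z.σ (D.θ (D.d j σ) (D.ι j σ y)) = .inl (.inl (g.en j i)) := by
  rw [D.ι_comm j σ y h1, Z.en j i y h2]

/-- `b` and `b'` are joined in the frontier inside the fibre of one site. -/
def g10_R (D : Glued g) (Z : Site B) (c : g.Cp) (b b' : ℂ) : Prop :=
  ∃ Q ⊆ D.J c, IsPreconnected Q ∧ b ∈ Q ∧ b' ∈ Q ∧
    ∀ x ∈ Q, ∀ y ∈ Q, Z.σ (D.θ c x) = Z.σ (D.θ c y)

theorem g10_symm {D : Glued g} {Z : Site B} {c : g.Cp} {b b' : ℂ} (h : g10_R D Z c b b') :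
    g10_R D Z c b' b :=
  let ⟨Q, h1, h2, h3, h4, h5⟩ := h
  ⟨Q, h1, h2, h4, h3, h5⟩

theorem g10_trans {D : Glued g} {Z : Site B} {c : g.Cp} {b b' b'' : ℂ} (h : g10_R D Z c b b')
    (h' : g10_R D Z c b' b'') : g10_R D Z c b b'' := by
  obtain ⟨Q, h1, h2, h3, h4, h5⟩ := h
  obtain ⟨Q', k1, k2, k3, k4, k5⟩ := h'
  have e : ∀ x ∈ Q ∪ Q', Z.σ (D.θ c x) = Z.σ (D.θ c b') := fun x hx =>
    hx.elim (fun hx => h5 x hx b' h4) fun hx => k5 x hx b' k3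
  exact ⟨Q ∪ Q', union_subset h1 k1, h2.union b' h4 k3 k2, Or.inl h3, Or.inr k4,
    fun x hx y hy => (e x hx).trans (e y hy).symm⟩

theorem g10_end (D : Glued g) (Z : Site B) (j : Fin g.m) {σ i : Bool} {y y' : ℂ}
    (h : y ∈ Half σ ∩ SqH i) (h' : y' ∈ Half σ ∩ SqH i) :
    g10_R D Z (D.d j σ) (D.ι j σ y) (D.ι j σ y') := by
  refine ⟨D.ι j σ '' (Half σ ∩ SqH i), ?_, ((half_basic σ).2.1.inter
    (g10_convH i)).isPreconnected.image _ ((D.ι_cont j σ).mono inter_subset_left),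
    mem_image_of_mem _ h, mem_image_of_mem _ h', ?_⟩
  · rintro _ ⟨p, hp, rfl⟩
    exact (D.ι_fr j σ p hp.1).2 (Or.inr (g10_H hp.2))
  · rintro _ ⟨p, hp, rfl⟩ _ ⟨q, hq, rfl⟩
    rw [g10_site D Z j hp.1 ((en_conn B j i σ).2.2 hp.2),
      g10_site D Z j hq.1 ((en_conn B j i σ).2.2 hq.2)]

/-- Moving a point along the small end part of a middle line. -/
theorem g10_move (D : Glued g) (Z : Site B) {c : g.Cp} {b : ℂ} (hb : b ∈ D.J c)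
    (h : b ∈ D.A c ∨ ∃ j σ i, D.d j σ = c ∧ b ∈ D.ι j σ '' (Half σ ∩ (B j).En i)) :
    ∃ a, (a ∈ D.A c ∨ ∃ j σ i, D.d j σ = c ∧ a ∈ D.ι j σ '' (Half σ ∩ SqH i)) ∧
      ∃ Q ⊆ D.J c, IsPreconnected Q ∧ b ∈ Q ∧ a ∈ Q ∧
        (∀ x ∈ Q, ∀ y ∈ Q, Z.σ (D.θ c x) = Z.σ (D.θ c y)) ∧
        ∀ x ∈ Q, ‖S.f (D.θ c x) - S.f (D.θ c b)‖ ≤ δ / 10 := by
  have h0 : (b ∈ D.A c ∨ ∃ j σ i, D.d j σ = c ∧ b ∈ D.ι j σ '' (Half σ ∩ SqH i)) →
      ∃ a, (a ∈ D.A c ∨ ∃ j σ i, D.d j σ = c ∧ a ∈ D.ι j σ '' (Half σ ∩ SqH i)) ∧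
      ∃ Q ⊆ D.J c, IsPreconnected Q ∧ b ∈ Q ∧ a ∈ Q ∧
        (∀ x ∈ Q, ∀ y ∈ Q, Z.σ (D.θ c x) = Z.σ (D.θ c y)) ∧
        ∀ x ∈ Q, ‖S.f (D.θ c x) - S.f (D.θ c b)‖ ≤ δ / 10 := fun h =>
    ⟨b, h, {b}, singleton_subset_iff.2 hb, isPreconnected_singleton, rfl, rfl,
      by rintro _ rfl _ rfl; rfl, by
        rintro _ rfl
        rw [sub_self, norm_zero]
        exact div_nonneg g.pos.le (by norm_num)⟩
  rcases h with h | ⟨j, σ, i, rfl, y, ⟨hy, hq, hi | ⟨hr, hi⟩⟩, rfl⟩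
  · exact h0 (Or.inl h)
  · exact h0 (Or.inr ⟨j, σ, i, rfl, y, ⟨hy, hi⟩, rfl⟩)
  obtain ⟨l0, l1, l2⟩ := (B j).y_lt
  obtain ⟨I, hI, hIc⟩ : ∃ I : Set ℝ, I = (if i then Ioc (B j).y1 1 else Ico 0 (B j).y0) ∧
      Convex ℝ I := ⟨_, rfl, by
    split_ifs
    exacts [convex_Ioc _ _, convex_Ico _ _]⟩
  have hE : Convex ℝ {p : ℂ | p.re = 1 / 2 ∧ p.im ∈ I} :=
    ((convex_singleton (1 / 2 : ℝ)).is_linear_preimage Complex.reLm.isLinear).inter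
      (hIc.is_linear_preimage Complex.imLm.isLinear)
  have hm : ∀ p ∈ {p : ℂ | p.re = 1 / 2 ∧ p.im ∈ I}, p ∈ Half σ ∧ p ∈ (B j).En i := by
    rintro p ⟨p1, p2⟩
    have hs : p ∈ Sq := by
      refine ⟨by rw [p1]; norm_num, ?_⟩
      cases i <;> simp only [hI, Bool.false_eq_true, if_false, if_true] at p2
      · exact ⟨p2.1, by linarith only [p2.2, l1, l2]⟩
      · exact ⟨by linarith only [p2.1, l0, l1], p2.2⟩
    refine ⟨⟨hs, by cases σ <;> simp [p1]⟩, hs, Or.inr ⟨p1, ?_⟩⟩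
    cases i <;> simp only [hI, Bool.false_eq_true, if_false, if_true] at p2 ⊢
    exacts [p2.2, p2.1]
  have hy' : y ∈ {p : ℂ | p.re = 1 / 2 ∧ p.im ∈ I} := by
    refine ⟨hr, ?_⟩
    cases i <;> simp only [hI, Bool.false_eq_true, if_false, if_true] at hi ⊢
    exacts [⟨hq.2.1, hi⟩, ⟨hi, hq.2.2⟩]
  have ha : (⟨1 / 2, if i then 1 else 0⟩ : ℂ) ∈ {p : ℂ | p.re = 1 / 2 ∧ p.im ∈ I} := by
    refine ⟨rfl, ?_⟩
    cases i <;> simp only [hI, Bool.false_eq_true, if_false, if_true]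
    exacts [⟨le_rfl, l0⟩, ⟨l2, le_rfl⟩]
  refine ⟨D.ι j σ ⟨1 / 2, if i then 1 else 0⟩,
    Or.inr ⟨j, σ, i, rfl, _, ⟨(hm _ ha).1, by norm_num, rfl⟩, rfl⟩,
    D.ι j σ '' {p : ℂ | p.re = 1 / 2 ∧ p.im ∈ I}, ?_,
    hE.isPreconnected.image _ ((D.ι_cont j σ).mono fun p hp => (hm p hp).1),
    mem_image_of_mem _ hy', mem_image_of_mem _ ha, ?_, ?_⟩
  · rintro _ ⟨p, hp, rfl⟩
    exact (D.ι_fr j σ p (hm p hp).1).2 (Or.inl hp.1)
  · rintro _ ⟨p, hp, rfl⟩ _ ⟨q, hq, rfl⟩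
    rw [g10_site D Z j (hm p hp).1 (hm p hp).2, g10_site D Z j (hm q hq).1 (hm q hq).2]
  · rintro _ ⟨p, hp, rfl⟩
    rw [D.ι_comm j σ p (hm p hp).1, D.ι_comm j σ y hy]
    have e1 : p = ⟨1 / 2, p.im⟩ := Complex.ext hp.1 rfl
    have e2 : y = ⟨1 / 2, y.im⟩ := Complex.ext hr rfl
    rw [e1, e2]
    refine (B j).ends p.im y.im ?_
    have p2 := hp.2
    have q2 := hy'.2
    cases i <;> simp only [hI, Bool.false_eq_true, if_false, if_true] at p2 q2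
    · exact Or.inl ⟨Ico_subset_Icc_self p2, Ico_subset_Icc_self q2⟩
    · exact Or.inr ⟨Ioc_subset_Icc_self p2, Ioc_subset_Icc_self q2⟩

/-- A position in the sense of `Pos`, reached from `b` along the frontier. Plan: if `b ∈ A c`,
`Glued.pos`. If `b` lies on an end of a half, `b₁` is the corner (`GD.corner`, `en_conn`); `C`
meets the image of `SqV σ`; `Tri.fjn_of_conn` along `SqV σ`. -/
theorem Glued.reach (D : Glued g) (Z : Site B) {c : g.Cp} {C : Set ℂ} (h1 : C ⊆ D.Δ c)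
    (h2 : IsPreconnected C) (hA : (C ∩ D.A c).Nonempty) {b : ℂ} (hb : b ∈ C) (hJ : b ∈ D.J c)
    (h : b ∈ D.A c ∨ ∃ j σ i, D.d j σ = c ∧ b ∈ D.ι j σ '' (Half σ ∩ SqH i))
    (hf : Z.σ (D.θ c b) ∈ B.Fr) :
    ∃ t, Pos g.K.T g.Sv g.Y g.lab g.W g.L g.z (D.under c C) t ∧ ∃ b₁ ∈ D.A c,
      D.θ c b₁ ∈ g.K.J g.U t ∧ ∃ Q ⊆ D.J c, IsPreconnected Q ∧ b ∈ Q ∧ b₁ ∈ Q ∧
        ∀ x ∈ Q, ∀ y ∈ Q, Z.σ (D.θ c x) = Z.σ (D.θ c y) := by
  have := S.t2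
  have := S.compact
  rcases h with h | ⟨j, σ, i, rfl, y, hy, rfl⟩
  · obtain ⟨t, ht, hx, u, hut, hu, hbu⟩ := D.pos Z h hJ hf
    exact ⟨t, Or.inl ⟨ht, u, hut, Or.inl ⟨hu, b, hb, h, hbu⟩, hu⟩, b, h, hx, {b},
      singleton_subset_iff.2 hJ, isPreconnected_singleton, rfl, rfl, by rintro _ rfl _ rfl; rfl⟩
  obtain ⟨y₁, a1, a2, a3⟩ := g10_corner σ i
  obtain ⟨w, hw, u, hu, t, ht, t₁, ht₁, b1, b2, b3, b4, b5⟩ := g.corner j a2 a3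
  have huW : u ∉ g.W j := fun h => hu (Or.inr (mem_iUnion.2 ⟨j, h⟩))
  have hwU : w ∉ g.U := fun h => h (Or.inr (mem_iUnion.2 ⟨j, hw⟩))
  obtain ⟨y₀, c1, c2, c3⟩ := (g10_split D j σ h1 h2 hy.1 hb).resolve_right fun h => h.2 hA
  have hV : g.Ψ j '' SqV σ ⊆ ⋃ t ∈ Rest g.K.T (g.W j) (g.L j), g.K.J (g.W j) t :=
    g.sV j ▸ image_mono fun _ => g10_V
  obtain ⟨t₀, ht₀, d1⟩ := mem_iUnion₂.1 (hV (mem_image_of_mem _ c2))
  obtain ⟨v, hv, hvt, d2⟩ := c3_vertex g.K d1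
  obtain ⟨t₂, ht₂, e1⟩ := mem_iUnion₂.1 (g.sH j i ▸ mem_image_of_mem (g.Ψ j) hy.2)
  obtain ⟨w', hw', hwt, e2⟩ := c3_vertex g.K e1
  refine ⟨t, Or.inr ⟨j, i, ?_, ⟨t₂, ht₂, w', hwt, Or.inr ⟨j, σ, rfl, hw', y, hy.1, hb, e2⟩, hw'⟩,
    ht, t₀, t₁, ⟨v, hvt, Or.inr ⟨j, σ, rfl, hv, y₀, c1, c3, d2⟩⟩,
    g.K.fjn_of_conn (fun t h => h.1.1) ((g10_convV σ).isPreconnected.image _
      (g.cont j).continuousOn) hV ht₀ ht₁ ⟨_, mem_image_of_mem _ c2, d1⟩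
      ⟨_, mem_image_of_mem _ a2, g10_ctr g.K hw huW b3 b4 b5⟩, w, hw, u, huW, b3, b4, b1, b2⟩,
    D.ι j σ y₁, (D.A_inter j σ y₁ a1).2 a2, ?_, g10_end D Z j hy ⟨a1, a3⟩⟩
  · rw [g10_site D Z j hy.1 ((en_conn B j i σ).2.2 hy.2)] at hf
    obtain ⟨x, hx, he⟩ := hf
    rwa [← Sum.inl.inj (Sum.inl.inj he)] at hx
  · rw [D.ι_comm j σ y₁ a1]
    exact g10_ctr g.K hu hwU b2 b1 (Finset.pair_comm w u ▸ b5)

/-- Plan: add to the connected set the end parts of the middle lines, so that both points may be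
moved to `A c` or to an image of `SqH i` (`BandNet.ends`; the set stays smaller than `δ`). If the
set misses `A c`, it lies in one half and both ends agree (`GD.long`). Otherwise `reach`, `stp`,
`Sk.sepa`, `ft_path`. -/
theorem Glued.sep (D : Glued g) (Z : Site B) {c : g.Cp} {b b' : ℂ} (hb : b ∈ D.J c)
    (hb' : b' ∈ D.J c)
    (h : b ∈ D.A c ∨ ∃ j σ i, D.d j σ = c ∧ b ∈ D.ι j σ '' (Half σ ∩ (B j).En i))
    (h' : b' ∈ D.A c ∨ ∃ j σ i, D.d j σ = c ∧ b' ∈ D.ι j σ '' (Half σ ∩ (B j).En i))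
    (hf : Z.σ (D.θ c b) ∈ B.Fr) (hf' : Z.σ (D.θ c b') ∈ B.Fr)
    (hn : Near (fun z => S.f (D.θ c z)) (D.Δ c) (δ / 1000) b b') :
    ∃ Q ⊆ D.J c, IsPreconnected Q ∧ b ∈ Q ∧ b' ∈ Q ∧
      ∀ x ∈ Q, ∀ y ∈ Q, Z.σ (D.θ c x) = Z.σ (D.θ c y) := by
  obtain ⟨C₀, c1, c2, c3, c4, c5⟩ := hn
  obtain ⟨a, ha, P, p1, p2, p3, p4, p5, p6⟩ := g10_move D Z hb h
  obtain ⟨a', ha', P', q1, q2, q3, q4, q5, q6⟩ := g10_move D Z hb' h'
  have hJ := (D.dsc c).basic.2.2.1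
  have hδ := g.pos
  have C1 : P ∪ C₀ ∪ P' ⊆ D.Δ c := union_subset (union_subset (p1.trans hJ) c1) (q1.trans hJ)
  have C2 : IsPreconnected (P ∪ C₀ ∪ P') := (p2.union b p3 c3 c2).union b' (Or.inr c4) q3 q2
  have C3 : ∀ x ∈ P ∪ C₀ ∪ P', ‖S.f (D.θ c x) - S.f (D.θ c b)‖ ≤ δ / 2 := by
    rintro x ((hx | hx) | hx)
    · linarith [p6 x hx]
    · linarith only [c5 x hx b c3, hδ]
    · linarith [q6 x hx, c5 b' c4 b c3,
        norm_sub_le_norm_sub_add_norm_sub (S.f (D.θ c x)) (S.f (D.θ c b')) (S.f (D.θ c b))]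
  have C4 : ∀ x ∈ P ∪ C₀ ∪ P', ∀ y ∈ P ∪ C₀ ∪ P', ‖S.f (D.θ c x) - S.f (D.θ c y)‖ ≤ δ := by
    intro x hx y hy
    linarith [C3 x hx, C3 y hy, norm_sub_rev (S.f (D.θ c b)) (S.f (D.θ c y)),
      norm_sub_le_norm_sub_add_norm_sub (S.f (D.θ c x)) (S.f (D.θ c b)) (S.f (D.θ c y))]
  have m1 : a ∈ P ∪ C₀ ∪ P' := Or.inl (Or.inl p4)
  have m2 : a' ∈ P ∪ C₀ ∪ P' := Or.inr q4
  have f1 : Z.σ (D.θ c a) ∈ B.Fr := p5 b p3 a p4 ▸ hf
  have f2 : Z.σ (D.θ c a') ∈ B.Fr := q5 b' q3 a' q4 ▸ hf'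
  have j1 := p1 p4
  have j2 := q1 q4
  refine g10_trans (g10_trans ⟨P, p1, p2, p3, p4, p5⟩ ?_) (g10_symm ⟨P', q1, q2, q3, q4, q5⟩)
  generalize P ∪ C₀ ∪ P' = C at C1 C2 C4 m1 m2
  by_cases hA : (C ∩ D.A c).Nonempty
  · obtain ⟨t, r1, b₁, r2, r3, r4⟩ := D.reach Z C1 C2 hA m1 j1 ha f1
    obtain ⟨t', s1, b₂, s2, s3, s4⟩ := D.reach Z C1 C2 hA m2 j2 ha' f2
    obtain ⟨u1, u2, u3⟩ := D.stp C1 C2 C4
    exact g10_trans (g10_trans r4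
      (D.ft_path Z r2 s2 (g.sk.sepa _ u1 u2 u3 t t' r1 s1) r3 s3)) (g10_symm s4)
  obtain ⟨j, σ, i, hc, y, hy, rfl⟩ := ha.resolve_left fun h => hA ⟨_, m1, h⟩
  obtain ⟨j', σ', i', hc', y', hy', rfl⟩ := ha'.resolve_left fun h => hA ⟨_, m2, h⟩
  subst hc
  have hs : C ⊆ D.ι j σ '' Half σ := ((g10_split D j σ C1 C2 hy.1 m1).resolve_left
    fun ⟨y₀, k1, k2, k3⟩ => hA ⟨_, k3, (D.A_inter j σ y₀ k1).2 k2⟩).1
  obtain ⟨y₂, k1, k2⟩ := hs m2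
  obtain ⟨rfl, rfl⟩ := D.ι_disj _ _ _ _ hc' y' hy'.1 y₂ k1 k2.symm
  by_cases hi : i = i'
  · subst hi
    exact g10_end D Z j' hy hy'
  obtain ⟨κ, l1, l2⟩ := a2_inv (half_basic σ').1 (D.ι_cont j' σ') (D.ι_inj j' σ')
  have hk : ∀ x ∈ κ '' C, x ∈ Half σ' ∧ D.ι j' σ' x ∈ C := by
    rintro _ ⟨x, hx, rfl⟩
    obtain ⟨p, hp, rfl⟩ := hs hx
    rw [l2 p hp]
    exact ⟨hp, hx⟩
  have hN : ∀ p ∈ Half σ', ∀ q ∈ Half σ', D.ι j' σ' p ∈ C → D.ι j' σ' q ∈ C →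
      Near (fun z => S.f (g.Ψ j' z)) Sq δ p q := fun p hp q hq h1 h2 =>
    ⟨κ '' C, fun x hx => (hk x hx).1.1, C2.image _ (l1.mono hs), ⟨_, h1, l2 p hp⟩,
      ⟨_, h2, l2 q hq⟩, fun x hx x' hx' => by
        have := C4 _ (hk x hx).2 _ (hk x' hx').2
        rwa [D.ι_comm _ _ x (hk x hx).1, D.ι_comm _ _ x' (hk x' hx').1] at this⟩
  cases i <;> cases i'
  · exact absurd rfl hi
  · exact absurd (hN y hy.1 y' hy'.1 m1 m2) (g.long j' y hy.2 y' hy'.2)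
  · exact absurd (hN y' hy'.1 y hy.1 m2 m1) (g.long j' y' hy'.2 y hy.2)
  · exact absurd rfl hi

end Pool.Agent.MP_17e62b_gt.T55

end

section

/-!
The complex on the surface and the values at the sites.
-/

namespace Pool.Agent.MP_17e62b_gt.T55

open Set Metric Topology H14 G
open scoped Manifold

variable {n : ℕ} {S : Surface n} {N : ℕ} {ρ δ : ℝ} {g : GD S N ρ δ} {e η s : ℝ} {M : ℕ}
  {B : g.BN e η s M}

/-- A dual cell that meets a band and is not in it belongs to no band. -/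
theorem g11_out (g : GD S N ρ δ) (j : Fin g.m) {x : S.M} (hx : x ∈ g.K.N (g.W j)) {v : g.K.V}
    (hv : v ∉ g.W j) (h : x ∈ g.K.tile v) : v ∈ (⋃ k, g.W k)ᶜ := fun e => by
  obtain ⟨k, hk⟩ := mem_iUnion.1 e
  exact disjoint_left.1 (g.disj.2.1 j k fun e' => hv (e' ▸ hk)) hx (mem_iUnion₂.2 ⟨v, hk, h⟩)

theorem g11_sub (g : GD S N ρ δ) : g.Sv ∪ g.Y ⊆ (⋃ k, g.W k)ᶜ := fun _ hv e => by
  obtain ⟨k, hk⟩ := mem_iUnion.1 e
  exact disjoint_left.1 (g.sk.out k) hk hv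

theorem g11_H (i : Bool) : SqH i ⊆ frontier Sq := by
  rw [sq_basic.2.2.2]
  cases i
  · exact fun z hz => Or.inl (Or.inl (Or.inl hz))
  · exact fun z hz => Or.inl (Or.inl (Or.inr hz))

/-- A point of a tube in a class lies in a dual cell of the class next to the tube. -/
theorem g11_tb (g : GD S N ρ δ) {v a : g.K.V} (h : (g.Tb v ∩ g.Cl a).Nonempty) :
    ∃ u s, Jn g.K.T g.Y v u ∧ s ∈ g.Sv ∧ g.lab s = a ∧ Adj g.K.T u s := by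
  obtain ⟨p, h1, h2⟩ := h
  obtain ⟨u, hu, h1⟩ := mem_iUnion₂.1 h1
  have hY : u ∈ g.Y := Jn.right hu
  rcases h2 with h2 | ⟨j, i, -, h2⟩
  · obtain ⟨s, ⟨hs, hl⟩, h2⟩ := mem_iUnion₂.1 h2
    refine ⟨u, s, hu, hs, hl, (g.K.tile_basic.2.2.2.2.1 u s p h1 h2).resolve_left fun e => ?_⟩
    exact disjoint_left.1 g.sk.disj hs (e ▸ hY)
  · have h3 : p ∈ g.K.N (g.W j) := ((g.fr j).subset (image_mono (g11_H i) h2)).1
    obtain ⟨w, hw, h3⟩ := mem_iUnion₂.1 h3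
    exact absurd (mem_iUnion₂.2 ⟨w, disjoint_left.1 (g.sk.out j) hw, h3⟩)
      (disjoint_left.1 g.disj.1 (mem_iUnion₂.2 ⟨u, hY, h1⟩))

/-- Plan: `Tri.tile_cells` for the vertices outside the bands, `Cells.bands`. -/
theorem GD.complex (g : GD S N ρ δ) : ∃ (Cx : Cells (univ : Set S.M))
    (D₀ : Set (Set S.M × Set S.M)), D₀ ⊆ Cx.D ∧ g.Gam ⊆ ⋃₀ Cx.E ∧
      (∀ d ∈ D₀, d.2 ⊆ g.K.skel (g.Sv ∪ g.Y) ∧ d.1 ⊆ g.K.N (g.Sv ∪ g.Y) ∧
        ∃ t ∈ g.K.T, d.1 ⊆ g.K.face t) ∧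
      (∀ y ∈ g.K.N (g.Sv ∪ g.Y), ∃ d ∈ D₀, y ∈ d.1) ∧
      (∀ v ∈ g.Sv ∪ g.Y, g.K.pt v ∈ Cx.P) ∧
      ∀ j σ i, ∀ y ∈ SqV σ, y ∈ SqH i → g.Ψ j y ∈ Cx.P := by
  have := S.t2
  have := S.compact
  obtain ⟨C, hP, hE, hD⟩ := g.K.tile_cells (⋃ k, g.W k)ᶜ
  have h5 : ∀ j, ∀ x ∈ g.Ψ j '' frontier Sq, ∃ e ∈ C.E, x ∈ e ∧ e ⊆ g.Ψ j '' frontier Sq := by
    intro j x hx
    rw [g.fr j] at hx ⊢
    obtain ⟨t, ht, h⟩ := c3_front g.K (g.W j) hx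
    rw [g.K.J_eq _ ht.1] at h
    obtain ⟨w, hwt, v, hvt, hw, hv, h⟩ := h
    have hne : w ≠ v := fun e => hv (e ▸ hw)
    have h1 : ({w, v} : Finset g.K.V) ⊆ t :=
      Finset.insert_subset hwt (Finset.singleton_subset_iff.2 hvt)
    have h2 : t.card = ({w, v} : Finset g.K.V).card + 1 := by
      rw [g.K.card t ht.1, Finset.card_pair hne]
    refine ⟨g.K.seg {w, v} t, ?_, h, fun y hy => ?_⟩
    · rw [hE]
      exact ⟨{w, v}, t, ⟨t, ht.1, Finset.Subset.refl t⟩, h1, h2, ⟨v, by simp,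
        g11_out g j hx.1 hv (((c1_seg g.K h1 h2).1 h).2 v (by simp))⟩, rfl⟩
    · have h3 := ((c1_seg g.K h1 h2).1 hy).2
      exact ⟨mem_iUnion₂.2 ⟨w, hw, h3 w (by simp)⟩, mem_iUnion₂.2 ⟨v, hv, h3 v (by simp)⟩⟩
  obtain ⟨C1, a1, a2, a3, a4⟩ := C.bands (Ψ := g.Ψ) (fun j => (g.cont j).continuousOn) g.inj
    (fun j => by
      rw [g.img j, g.fr j]
      refine Subset.antisymm (fun x hx => ⟨hx.1, ?_⟩) fun x hx => ⟨hx.1, ?_⟩
      · obtain ⟨v, hv, h⟩ := mem_iUnion₂.1 hx.2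
        exact mem_iUnion₂.2 ⟨v, fun e => hv (mem_iUnion.2 ⟨j, e⟩), h⟩
      · obtain ⟨v, hv, h⟩ := mem_iUnion₂.1 hx.2
        exact mem_iUnion₂.2 ⟨v, g11_out g j hx.1 hv h, h⟩)
    (fun j k h => by
      rw [g.img j, g.img k]
      exact g.disj.2.1 j k h) h5
  obtain ⟨Cx, b1, b2, b3⟩ := f6_cast (show g.K.N (⋃ k, g.W k)ᶜ ∪ ⋃ j, g.Ψ j '' Sq = univ from
    eq_univ_of_forall fun x => by
      obtain ⟨v, hv⟩ := g.K.tile_basic.2.1 x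
      by_cases h : v ∈ ⋃ k, g.W k
      · obtain ⟨k, hk⟩ := mem_iUnion.1 h
        exact Or.inr (mem_iUnion.2 ⟨k, (g.img k).symm.subset (mem_iUnion₂.2 ⟨v, hk, hv⟩)⟩)
      · exact Or.inl (mem_iUnion₂.2 ⟨v, h, hv⟩)) C1
  refine ⟨Cx, {d | ∃ v ∈ g.Sv ∪ g.Y, ∃ t ∈ g.K.T, v ∈ t ∧
    d = (g.K.tile v ∩ g.K.face t, c1_bd g.K v t)}, ?_, ?_, ?_, ?_, ?_, ?_⟩
  · rintro d ⟨v, hv, h⟩
    rw [b3]
    refine a2 ?_
    rw [hD]
    exact ⟨v, g11_sub g hv, h⟩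
  · rw [b2]
    rintro y (⟨s, s', c1, c2, c3, ⟨v, c4, c5⟩, c6⟩ | hy)
    · refine a3 ⟨g.K.seg s s', ?_, c6⟩
      rw [hE]
      exact ⟨s, s', c1, c2, c3, ⟨v, c4, g11_sub g c5⟩, rfl⟩
    · obtain ⟨j, z, hz, rfl⟩ := mem_iUnion.1 hy
      rcases hz with (hz | hz) | hz
      · obtain ⟨e, c1, c2, -⟩ := h5 j _ (mem_image_of_mem _ (g11_H false hz))
        exact a3 ⟨e, c1, c2⟩
      · obtain ⟨e, c1, c2, -⟩ := h5 j _ (mem_image_of_mem _ (g11_H true hz))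
        exact a3 ⟨e, c1, c2⟩
      · exact a4 j (mem_image_of_mem _ hz)
  · rintro _ ⟨v, hv, t, ht, hvt, rfl⟩
    refine ⟨?_, fun x hx => mem_iUnion₂.2 ⟨v, hv, hx.1⟩, t, ht, inter_subset_right⟩
    rintro x ⟨hx, a, ha, hav, h | h⟩
    · have h1 : ({v} : Finset g.K.V) ⊆ t.erase a :=
        Finset.singleton_subset_iff.2 (Finset.mem_erase.2 ⟨hav.symm, hvt⟩)
      have h2 : (t.erase a).card = ({v} : Finset g.K.V).card + 1 := by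
        rw [Finset.card_erase_of_mem ha, g.K.card t ht, Finset.card_singleton]
      refine ⟨{v}, t.erase a, ⟨t, ht, Finset.erase_subset a t⟩, h1, h2, ⟨v, by simp, hv⟩,
        (c1_seg g.K h1 h2).2 ⟨⟨trivial, fun u hu => ?_⟩, fun u hu => ?_⟩⟩
      · by_cases e : u = a
        · exact e ▸ h
        · exact hx.2.2 u fun e' => hu (Finset.mem_erase.2 ⟨e, e'⟩)
      · rw [Finset.mem_singleton.1 hu]
        exact hx.1
    · exact g.K.skel_two hav.symm hv hx.1 h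
  · intro y hy
    obtain ⟨v, hv, h⟩ := mem_iUnion₂.1 hy
    obtain ⟨t, ht, c1, -, c2⟩ := g.K.tile_basic.2.2.2.2.2.1 v y h
    exact ⟨_, ⟨v, hv, t, ht, c2, rfl⟩, h, c1⟩
  · intro v hv
    rw [b1]
    refine a1 ?_
    rw [hP]
    obtain ⟨t, ht, h⟩ := g.K.used v
    exact ⟨{v}, ⟨t, ht, Finset.singleton_subset_iff.2 h⟩, ⟨v, by simp, g11_sub g hv⟩,
      (g.K.ctr_pt v).symm.subset rfl⟩
  · intro j σ i y h1 h2
    obtain ⟨w, -, u, hu, -, -, t, ht, -, -, c1, c2, c3⟩ := g.corner j h1 h2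
    rw [b1]
    refine a1 ?_
    rw [hP]
    exact ⟨{w, u}, ⟨t, ht.1.1, Finset.insert_subset c1 (Finset.singleton_subset_iff.2 c2)⟩,
      ⟨u, by simp, fun e => hu (Or.inr e)⟩, c3⟩

/-- Plan: `Sk1.tube_val` with `G a = F' (inl a)` for labels, and with the set of the vertices
`v ∈ Sv ∪ Y` with `σ (pt v) ∈ A`; `Site.adj`, `Site.vtx`, `Site.inr`, `Site.val`. -/
theorem Site.tube (Z : Site B) (he : e ≤ δ / 10) {P : Set S.M}
    (hP : ∀ v ∈ g.Sv ∪ g.Y, g.K.pt v ∈ P) (ε : ℝ) (F' : B.Nu → EuclideanSpace ℝ (Fin n))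
    (hF : ∀ u, ‖F' u - B.fn u‖ ≤ ε) :
    ∃ val : B.Nu ⊕ g.K.V → EuclideanSpace ℝ (Fin n), (∀ u, val (.inl u) = F' u) ∧
      (∀ y ∈ g.K.skel (g.Sv ∪ g.Y), ‖S.f y - val (Z.σ y)‖ ≤ ε + 9 * ρ) ∧
      ∀ (l : EuclideanSpace ℝ (Fin n) →L[ℝ] ℝ) (r : ℝ) (A : Set (B.Nu ⊕ g.K.V)),
        (∀ a ∈ A, l (val a) = r) →
        (∀ Q ⊆ g.Gam, IsPreconnected Q → ∀ p ∈ Q ∩ P, ∀ q ∈ Q ∩ P, Z.σ p ∈ A →
          (∀ y ∈ Q, Z.σ y = Z.σ p ∨ Z.σ y = Z.σ q) →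
          l (val (Z.σ q)) ≤ r ∧ (l (val (Z.σ q)) = r → Z.σ q ∈ A)) →
        (∀ a ∈ A, ∃ y ∈ g.Gam, Z.σ y = a) →
        (A.Nonempty → ∃ u, .inl u ∈ A) ∧ ∀ (x y : g.κ) (v : g.K.V), .inl (.inl x) ∈ A →
          (g.Tb v ∩ g.Cl x.1).Nonempty → (g.Tb v ∩ g.Cl y.1).Nonempty →
          l (F' (.inl y)) ≤ r ∧ (l (F' (.inl y)) = r → .inl (.inl y) ∈ A) := by
  classical
  have hδ := g.pos
  have hρ := g.le
  obtain ⟨G, hG⟩ : ∃ G : g.K.V → EuclideanSpace ℝ (Fin n), ∀ x : g.κ, G x.1 = F' (.inl x) :=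
    ⟨fun a => if h : a ∈ g.Sv ∧ g.lab a = a then F' (.inl ⟨a, h⟩) else 0, fun x => dif_pos x.2⟩
  obtain ⟨v₀, h1, h2, h3⟩ := g.sk.toSk1.tube_val g.surf g.sad (by linarith only [hδ, hρ]) G (ε := ε)
    fun s hs => by
      have := hF (.inl ⟨g.lab s, (g.sk.cls s hs).1, (g.sk.cls s hs).2.1⟩)
      rw [← hG] at this
      rw [dist_eq_norm]
      exact this
  have hS : ∀ s ∈ g.Sv, ∀ x : g.κ, g.lab s = x.1 → Z.σ (g.K.pt s) = .inl (.inl x) := by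
    intro s hs x hx
    obtain ⟨x', e, h⟩ := (Z.vtx s).2.1 hs
    rw [h, Subtype.ext (e.trans hx)]
  have hv : ∀ v ∈ g.Sv ∪ g.Y, Sum.elim F' v₀ (Z.σ (g.K.pt v)) = v₀ v := by
    rintro v (h | h)
    · obtain ⟨x, e, h'⟩ := (Z.vtx v).2.1 h
      rw [h', h1 v h, ← e, hG]
      rfl
    · rw [(Z.vtx v).2.2 h]
      rfl
  refine ⟨Sum.elim F' v₀, fun _ => rfl, fun y hy => ?_, fun l r A a1 a2 a3 => ?_⟩
  · cases e : Z.σ y with
    | inl u =>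
      have h : y ∈ g.K.N g.Sv ∪ g.Lines := by
        by_cases c : y ∈ g.Lines
        · exact Or.inr c
        · refine Or.inl (mem_iUnion₂.2 ⟨Z.ch y, by_contra fun c' => ?_, Z.ch_mem y⟩)
          rw [Z.offY y c c'] at e
          cases e
      obtain ⟨u', e', h⟩ := Z.val he h
      rw [e] at e'
      cases e'
      have := norm_sub_le_norm_sub_add_norm_sub (S.f y) (B.fn u) (F' u)
      have h' := hF u
      rw [norm_sub_rev] at h'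
      change ‖S.f y - F' u‖ ≤ _
      linarith only [hδ, hρ, h, this, h']
    | inr v =>
      obtain ⟨c1, c2⟩ := Z.inr (Or.inl hy) e
      have c3 := h2 v c1
      rw [dist_comm, dist_eq_norm] at c3
      have c4 := g.near_pt c2
      have := norm_sub_le_norm_sub_add_norm_sub (S.f y) (S.f (g.K.pt v)) (v₀ v)
      change ‖S.f y - v₀ v‖ ≤ _
      linarith
  · obtain ⟨b1, b2⟩ := h3 l r {v ∈ g.Sv ∪ g.Y | Z.σ (g.K.pt v) ∈ A} fun v ⟨c1, c2⟩ => by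
      refine ⟨c1, hv v c1 ▸ a1 _ c2, fun w hw ha => ?_⟩
      obtain ⟨C, d1, d2, d3, d4, d5⟩ := Z.adj c1 hw ha
      have := a2 C d1 d2 _ ⟨d3, hP v c1⟩ _ ⟨d4, hP w hw⟩ c2 d5
      rw [hv w hw] at this
      exact ⟨this.1, fun e => ⟨hw, this.2 e⟩⟩
    refine ⟨?_, fun x y v hx h h' => ?_⟩
    · rintro ⟨u | v, ha⟩
      · exact ⟨u, ha⟩
      · obtain ⟨y, hy, e⟩ := a3 _ ha
        have c := (Z.inr hy e).1
        obtain ⟨s, c1, c2⟩ := b1 ⟨v, Or.inr c, by rw [(Z.vtx v).2.2 c]; exact ha⟩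
        obtain ⟨x, -, c3⟩ := (Z.vtx s).2.1 c2
        exact ⟨_, c3 ▸ c1.2⟩
    · obtain ⟨u, s, c1, c2, c3, c4⟩ := g11_tb g h
      obtain ⟨u', s', d1, d2, d3, d4⟩ := g11_tb g h'
      have := b2 v u u' c1 d1 s ⟨Or.inl c2, by rw [hS s c2 x c3]; exact hx⟩ c2 s' d2 c4 d4
      rw [h1 s' d2, d3, hG] at this
      refine ⟨this.1, fun e => ?_⟩
      obtain ⟨s'', e1, e2, e3⟩ := this.2 e
      exact hS s'' e2 y e3 ▸ e1.2

end Pool.Agent.MP_17e62b_gt.T55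

end

section

/-!
The big discs and the core.
-/

namespace Pool.Agent.MP_17e62b_gt.T55

open Set Metric Topology H14 G
open scoped Manifold

variable {n : ℕ} {S : Surface n} {N : ℕ} {ρ δ : ℝ} {e η s : ℝ} {M : ℕ}

theorem exists_lens_glued {g : GD S N ρ δ} {B : g.BN e η s M} (Z : Site B) :
    ∃ (m : g.Cp → ℕ) (D : Glued g) (lab : ∀ c, ℂ → (lens (m c)).Vt),
      (∀ c, m c ≤ 4 ^ Fintype.card g.K.V + 2 * g.m * (M + 2)) ∧
      (∀ c, D.Δ c = (lens (m c)).P) ∧ (∀ c, D.J c = frontier (lens (m c)).P) ∧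
      (∀ c (v : (lens (m c)).Vt), lab c v = v) ∧
      (∀ c v, IsPreconnected {b ∈ frontier (lens (m c)).P | lab c b = v}) ∧
      (∀ c, ∀ b ∈ frontier (lens (m c)).P, Z.σ (D.θ c (lab c b)) = Z.σ (D.θ c b)) ∧
      ∀ c, ∀ Q ⊆ D.J c, IsPreconnected Q → (∀ x ∈ Q, ∀ y ∈ Q, Z.σ (D.θ c x) = Z.σ (D.θ c y)) →
        ∀ b ∈ Q, ∀ b' ∈ Q, Z.σ (D.θ c b) ∈ B.Fr → lab c b = lab c b' := by
  obtain ⟨D⟩ := exists_glued g
  choose R r1 r2 r3 r4 using D.parts Z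
  choose m hm h lab h1 h2 h3 h4 h5 h6 h7 h8 using fun c =>
    (D.dsc c).marks (fun x => Z.σ (D.θ c x)) B.Fr (r1 c) (r2 c) (r3 c) (r4 c) (D.infinite Z c)
  obtain ⟨D', e1, e2, e3⟩ := D.reparam (Q := fun c => (lens (m c)).P) (h := h)
    (fun c => (lens_basic _).1) (fun c => (lens_basic _).2.1)
    (fun c => ⟨0, (lens_basic _).2.2.1⟩) h1 h2 h3 h4
  have hf : ∀ c, frontier (lens (m c)).P ⊆ (lens (m c)).P := fun c =>
    (lens_basic _).1.isClosed.frontier_subset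
  refine ⟨m, D', lab, hm, fun c => by rw [e1], e2, h5, h6, fun c b hb => ?_,
    fun c Q hQ hc hs b hb b' hb' hF => ?_⟩
  · rw [e3 c b (hf c hb), e3 c _ ((lens (m c)).vt_mem (lab c b).2)]
    exact h7 c b hb
  · rw [e2] at hQ
    refine h8 c (h c '' Q) (h4 c ▸ image_mono hQ) (hc.image _ ((h1 c).mono (hQ.trans (hf c)))) ?_
      b (hQ hb) b' (hQ hb') (mem_image_of_mem _ hb) (mem_image_of_mem _ hb') ?_
    · rintro _ ⟨x, hx, rfl⟩ _ ⟨y, hy, rfl⟩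
      rw [← e3 c x (hf c (hQ hx)), ← e3 c y (hf c (hQ hy))]
      exact hs x hx y hy
    · rwa [← e3 c b (hf c (hQ hb))]

theorem g12_fn (g : GD S N ρ δ) (X : Nets g.geo e η s M) (u : X.Nu) :
    GD.BN.fn (g := g.tw X) X.B u = X.fn u := by
  cases u <;> rfl

theorem exists_big (g : GD S N ρ δ) (X : Nets g.geo e η s M) (he : e ≤ δ / 10) :
    ∃ D : Big X g.Cp (4 ^ Fintype.card g.K.V + Fintype.card g.K.V + 2 * g.m * (M + 2)),
      Nonempty (Core D) := by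
  obtain ⟨Z⟩ := exists_site (g := g.tw X) X.B he
  obtain ⟨m, D, lab, hm, hΔ, hJ, l1, l2, l3, l4⟩ := exists_lens_glued Z
  have hcl : ∀ c, IsClosed (lens (m c)).P := fun c => (lens_basic _).1.isClosed
  have hf : ∀ c, frontier (lens (m c)).P ⊆ (lens (m c)).P := fun c => (hcl c).frontier_subset
  have hvt : ∀ c (v : (lens (m c)).Vt), (v : ℂ) ∈ frontier (lens (m c)).P := fun c v =>
    (lens_basic _).2.2.2.1 v.2
  have hint : ∀ c, ∀ z ∈ interior (lens (m c)).P, z ∈ D.Δ c ∧ z ∉ D.J c := fun c z hz => by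
    rw [hΔ, hJ]
    exact ⟨interior_subset hz, fun h => h.2 hz⟩
  have hval : ∀ c, ∀ b ∈ frontier (lens (m c)).P, ∃ u : X.Nu, Z.σ (D.θ c b) = .inl u ∧
      ‖S.f (D.θ c b) - X.fn u‖ ≤ 3 * ρ := fun c b hb => by
    obtain ⟨u, h1, h2⟩ := Z.val he (D.fr (c := c) (b := b) (hJ c ▸ hb)).2.1
    exact ⟨u, h1, g12_fn g X u ▸ h2⟩
  choose app happ happ' using fun c (v : (lens (m c)).Vt) => hval c v (hvt c v)
  have hlab : ∀ c, ∀ b ∈ frontier (lens (m c)).P, Z.σ (D.θ c b) = .inl (app c (lab c b)) :=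
    fun c b hb => (l3 c b hb).symm.trans (happ c _)
  have hι : ∀ j σ, ∀ y ∈ Half σ, D.ι j σ y ∈ frontier (lens (m (D.d j σ))).P ↔
      y.re = 1 / 2 ∨ y ∈ SqH false ∪ SqH true := fun j σ y hy => hJ _ ▸ D.ι_fr j σ y hy
  have hcl' : ∀ {y : S.M}, y ∈ g.K.N g.Sv ∨ (∃ j i, y ∈ (g.tw X).Ψ j '' SqH i) →
      ∃ x : g.κ, Z.σ y = .inl (.inl x) ∧ y ∈ g.Cl x.1 := fun h => by
    obtain ⟨x, h1, h2⟩ := Z.cl h
    exact ⟨x, h1, g.tw_cl X x.1 ▸ h2⟩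
  obtain ⟨Cx, D₀, c1, c2, c3, c4, c5, c6⟩ := (g.tw X).complex
  refine ⟨⟨m, D.θ, D.A, D.d, D.ι, app, lab, ⟨?_, fun c => (hm c).trans (by
      change _ ≤ 4 ^ Fintype.card g.K.V + Fintype.card g.K.V + 2 * g.m * (M + 2)
      change 4 ^ Fintype.card g.K.V + 2 * g.m * (M + 2) ≤ _
      omega)⟩, D.cont,
    fun c z hz z' hz' h => (D.disj (hint c z hz).1 (hint c z hz).2 (hint c z' hz').1 h).2,
    ?_, ?_, D.ι_cont, D.ι_inj, fun j σ => hΔ _ ▸ D.ι_mem j σ, D.ι_comm, D.ι_disj, D.A_closed,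
    fun c => hΔ c ▸ D.A_sub c, fun c z hz => D.pieces c z (hΔ c ▸ hz),
    fun j σ y hy h => (D.A_inter j σ y hy).1 h, hι, ?_, ?_, ?_, ?_, ?_, ?_⟩,
    ⟨⟨Cx, D₀, (g.tw X).Gam, g.K.V, Z.σ, c1, c2, fun d hd => (c3 d hd).1.trans subset_union_left,
      ?_, ?_, ?_, ?_, ?_, ?_, happ, Z.conn, ?_, ?_⟩⟩⟩
  · have := nu_card (g := g.tw X) X.B
    refine ((@Nat.card_eq_fintype_card _ (_)).symm.trans_le this).trans ?_
    change Fintype.card g.K.V + g.m * M ≤ _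
    linarith only [Nat.zero_le (4 ^ Fintype.card g.K.V), Nat.zero_le (g.m * M)]
  · intro c x
    refine disjoint_left.2 ?_
    rintro _ ⟨z, hz, rfl⟩ hx
    have h1 := D.int (hint c z hz).1 (hint c z hz).2
    have h2 : D.θ c z ∈ (g.tw X).Cl x.1 := by
      rw [g.tw_cl]
      exact hx
    rcases (g.tw X).cl_sub _ h2 with h | h
    · exact h1.1 (biUnion_subset_biUnion_left subset_union_left h)
    · exact h1.2 h
  · intro y
    have hS : y ∈ g.K.N g.Sv → ∃ x, y ∈ g.geo.Cl x := fun h => by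
      obtain ⟨x, -, hx⟩ := hcl' (Or.inl h)
      exact ⟨x, hx⟩
    rcases D.cover y with h | ⟨c, z, hz, rfl⟩
    · obtain ⟨v, hv, hy⟩ := mem_iUnion₂.1 h
      rcases hv with hv | hv
      · exact Or.inl (hS (mem_iUnion₂.2 ⟨v, hv, hy⟩))
      · exact Or.inr (Or.inl ⟨v, mem_iUnion₂.2 ⟨v, Jn.refl hv, hy⟩⟩)
    by_cases hb : z ∈ D.J c
    · rcases (D.fr hb).2.1 with h | h
      · exact Or.inl (hS h)
      obtain ⟨j, w, hw, h⟩ := mem_iUnion.1 h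
      rcases hw with hw | hw
      · obtain ⟨x, -, hx⟩ := hcl' (y := D.θ c z) (Or.inr (by
          rcases hw with hw | hw
          exacts [⟨j, false, w, hw, h⟩, ⟨j, true, w, hw, h⟩]))
        exact Or.inl ⟨x, hx⟩
      · exact Or.inr (Or.inr (Or.inr ⟨j, w, hw.1, hw.2, h.symm⟩))
    · rw [hΔ] at hz
      rw [hJ] at hb
      exact Or.inr (Or.inr (Or.inl ⟨c, z, by_contra fun h => hb ⟨subset_closure hz, h⟩, rfl⟩))
  · intro c b hb hb'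
    obtain ⟨x, h1, h2⟩ := hcl' ((D.fr (hJ c ▸ hb')).2.2 hb)
    exact ⟨x, Sum.inl_injective ((hlab c b hb').symm.trans h1), h2⟩
  · intro j σ i y hy hE
    have h1 : D.ι j σ y ∈ frontier (lens (m (D.d j σ))).P := (hι j σ y hy).2 (by
      rcases hE.2 with h | h
      · cases i
        exacts [Or.inr (Or.inl h), Or.inr (Or.inr h)]
      · exact Or.inl h.1)
    have h2 := hlab _ _ h1
    rw [D.ι_comm j σ y hy, Z.en j i y hE] at h2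
    exact (Sum.inl_injective h2).symm
  · intro j σ p
    have hy : (X.B j).pt p ∈ Half σ := ⟨(X.B j).mem p, by
      cases σ
      · exact p.2.1.le
      · exact p.2.1.ge⟩
    have h2 := hlab _ _ ((hι j σ _ hy).2 (Or.inl p.2.1))
    rw [D.ι_comm j σ _ hy] at h2
    exact (Sum.inl_injective ((Z.cut j p).symm.trans h2)).symm
  · exact fun c v v' h => ⟨l1 c v, l1 c v', (lab_side (l1 c) (l2 c) h).2⟩
  · intro c b hb b' hb' h h' x x' hx hx' e1 e2 hn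
    have f1 : Z.σ (D.θ c b) ∈ GD.BN.Fr (g := g.tw X) X.B := ⟨x, hx, by rw [hlab c b hb, e1]⟩
    have f2 : Z.σ (D.θ c b') ∈ GD.BN.Fr (g := g.tw X) X.B := ⟨x', hx', by rw [hlab c b' hb', e2]⟩
    obtain ⟨Q, q1, q2, q3, q4, q5⟩ := D.sep Z (hJ c ▸ hb) (hJ c ▸ hb') h h' f1 f2 (hΔ c ▸ hn)
    exact l4 c Q q1 q2 q5 b q3 b' q4 f1
  · intro c v v' h b hb
    have hρ : 0 ≤ ρ := by linarith only [g.pos, g.le]
    have := near_side (f := fun z => S.f (D.θ c z)) (S.continuous.comp (D.cont c)) (happ' c v)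
      (happ' c v') (fun w hw => by
        obtain ⟨u, h1, h2⟩ := hval c w ((LSide.seg h).2.1 hw)
        have h3 := Sum.inl_injective (h1.symm.trans (hlab c w ((LSide.seg h).2.1 hw)))
        rcases (lab_side (l1 c) (l2 c) h).1 w hw with h4 | h4
        · exact Or.inl (by rw [← h4, ← h3]; exact h2)
        · exact Or.inr (by rw [← h4, ← h3]; exact h2)) b hb
    exact ⟨this.1.trans (by linarith), this.2.trans (by linarith)⟩
  · intro y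
    rcases D.cover y with h | ⟨c, h⟩
    · exact Or.inl (c4 y h)
    · exact Or.inr ⟨c, hΔ c ▸ h⟩
  · intro c z hz
    have h1 := D.int (hint c z hz).1 (hint c z hz).2
    refine ⟨?_, fun d hd h => h1.1 ((c3 d hd).2.1 h)⟩
    have := S.t2
    have := S.compact
    rintro (h | h)
    · exact h1.1 ((g.K.skel_iff _ _).1 h).2
    · exact h1.2 h
  · exact fun c c' z hz z' hz' h => D.disj (hint c z hz).1 (hint c z hz).2 (hΔ c' ▸ hz') h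
  · exact fun c y => (D.fin c y).subset fun b hb => ⟨hΔ c ▸ hf c hb.1, hb.2⟩
  · exact fun c u a b h hu h' => D.arc h (hJ c ▸ hu) c6 h'
  · exact fun c b hb => ⟨(D.fr (hJ c ▸ hb)).1, hval c b hb⟩
  · intro x hx
    have := S.t2
    have := S.compact
    obtain ⟨h1, h2, -⟩ := Z.vtx x.1
    obtain ⟨x', e1, e2⟩ := h2 x.2.1
    obtain rfl : x' = x := Subtype.ext (e1.trans x.2.2)
    refine ⟨g.K.pt x'.1, Or.inl ?_, c5 _ (Or.inl x'.2.1), (g.K.bd_iff (atl S)).2 _ hx, e2⟩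
    obtain ⟨a, a', h3, h4, h5, ⟨v, hv, rfl⟩, h6⟩ := h1
    exact ⟨a, a', h3, h4, h5, ⟨_, hv, Or.inl x'.2.1⟩, h6⟩
  · intro ε F' hF
    obtain ⟨val, v1, v2, v3⟩ := Z.tube he c5 ε F' (fun u => g12_fn g X u ▸ hF u)
    refine ⟨val, v1, fun d hd x hx y hy => ?_, fun l r A a1 a2 a3 => ?_⟩
    · obtain ⟨h1, -, t, ht, h2⟩ := c3 d hd
      have := S.t2
      have h3 := g.mesh t ht x (h2 hx) y (h2 ((Cx.dsc d (c1 hd)).basic.2.2.1 hy))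
      have h4 := v2 y (h1 hy)
      rw [dist_eq_norm] at h3
      have h5 := norm_sub_le_norm_sub_add_norm_sub (S.f x) (S.f y) (val (Z.σ y))
      linarith only [g.pos, g.le, h3, h4, h5]
    · obtain ⟨b1, b2⟩ := v3 l r A a1 a2 a3
      refine ⟨b1, ?_⟩
      rintro _ _ hu ⟨x, y, i, rfl, rfl, h1, h2⟩
      exact b2 x y i hu (g.tw_cl X x.1 ▸ h1) (g.tw_cl X y.1 ▸ h2)

end Pool.Agent.MP_17e62b_gt.T55

end

section

/-!
The parts TOP, GEO and ASSEMBLY.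
-/

namespace Pool.Agent.MP_17e62b_gt.T55

open Set Metric Topology H14 G
open scoped Manifold InnerProductSpace

theorem top : TopStmt := by
  intro n S hS
  obtain ⟨N, hN⟩ := exists_gd S hS
  refine ⟨N, fun ρ hρ => ?_⟩
  obtain ⟨δ, h0, h1, ⟨g⟩⟩ := hN ρ hρ
  refine ⟨δ, h0, h1, g.geo, g.Cp, Fintype.ofFinite _, fun M =>
    ⟨4 ^ Fintype.card g.K.V + Fintype.card g.K.V + 2 * g.m * (M + 2), fun e η s X he => ?_⟩⟩
  obtain ⟨D, ⟨Z⟩⟩ := exists_big g X he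
  let _ : Fintype g.Cp := Fintype.ofFinite _
  exact ⟨D, fun ε a F F' Φ K v hO hL hF hΦ => Z.assemble hρ hO hL hF hΦ⟩

end Pool.Agent.MP_17e62b_gt.T55

end
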