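import Pool.Agent.MP_17e62b_gt.Mg.G_GD
import Pool.Agent.MP_17e62b_gt.Mg.G_H72M5
import Pool.Agent.MP_17e62b_gt.Mg.G_H16S6
import Pool.Agent.MP_17e62b_gt.Mg.T55_MG2
import Pool.Agent.MP_17e62b_gt.H14.PDefs

/-! Saddle surfaces are limits of saddle polyhedra. -/

namespace Pool.Agent.MP_17e62b_gt.G

open scoped ENNReal

theorem all_main {n : ℕ} (S : Surface n) (hS : S.IsSaddle) {ε : ℝ≥0∞} (hε : 0 < ε) :
    ∃ T : Surface n, T.IsSaddle ∧ T.IsPolyhedral ∧ frechetDist S T < ε :=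
  main_of T55.top band globStmt discStmt S hS hε

end Pool.Agent.MP_17e62b_gt.G
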