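import Pool.Agent.MP_17e62b_gt.Mg.G_H16Nodes
import Pool.Agent.MP_17e62b_gt.Mg.G_H72Iface

attribute [-instance] FunLike.toDecidableEq NonUnitalNonAssocSemiring.toAddCommMonoid
  AddQuantale.instAddLeftMono AddMonoidWithOne.toAddMonoid AddGroupWithOne.toAddGroup
  CommSemiring.toSemiring NonUnitalAlgSemiHomClass.toDistribMulActionSemiHomClass
  LinearOrder.toDecidableEq littleWedderburn NonUnitalNonAssocRing.toAddCommGroup
  IdemSemiring.toCanonicallyOrderedAdd NonUnitalNonAssocSemiring.toMulZeroClass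
  NumberField.to_charZero Algebra.toSMul decidableEq_of_subsingleton NormedRing.toRing
  MonoidWithZeroHomClass.toZeroHomClass instSMulZeroClass MulSemiringAction.toDistribMulAction
  AddCommMonoidWithOne.toAddCommMonoid NonUnitalNormedRing.toNonUnitalSeminormedRing
  AddQuantale.instAddRightMono FirstOrder.Language.instDecidableEqRelations
  CoalgHomClass.toSemilinearMapClass LinearOrderedCommMonoidWithZero.toPosMulStrictMono
  MulZeroOneClass.toMulZeroClass LieAdmissibleAlgebra.toModule Torsor.toMulAction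
  IdemSemiring.toSemiring LeftPreLieAlgebra.toModule Nontrivial.to_nonempty Ring.toAddCommGroup
  FinEnum.decEq RCLike.toDecidableEq Zero.instNonempty RightPreLieAlgebra.toModule
  LieRing.toAddCommGroup FirstOrder.Language.instDecidableEqFunctions SeminormedRing.toRing
  RingHomClass.toLinearMapClassNNRat Quantale.instMulRightMono AddTorsor.nonempty bot_nonempty
  LinearOrderedAddCommMonoidWithTop.toAddCommMonoid SemilinearIsometryClass.toSemilinearMapClass
  NonUnitalNormedCommRing.toNonUnitalSeminormedCommRing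
  MulSemiringActionSemiHomClass.toDistribMulActionSemiHomClass One.instNonempty

/-! Local maximum principles and push-forward of rates. -/

set_option linter.unusedSectionVars false

namespace Pool.Agent.MP_17e62b_gt.G

open Set H14
open scoped BigOperators

variable {V : Type} [Fintype V]

theorem gen_add {E : Type} [AddCommGroup E] [Module ℝ E] (R : V → V → ℝ) (u v : V → E) (a : V) :
    gen R (fun b => u b + v b) a = gen R u a + gen R v a := by
  simp only [gen, ← Finset.sum_add_distrib, ← smul_add]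
  exact Finset.sum_congr rfl fun b _ => by rw [add_sub_add_comm]

theorem gen_sub {E : Type} [AddCommGroup E] [Module ℝ E] (R : V → V → ℝ) (u v : V → E) (a : V) :
    gen R (fun b => u b - v b) a = gen R u a - gen R v a := by
  simp only [gen, ← Finset.sum_sub_distrib, ← smul_sub]
  exact Finset.sum_congr rfl fun b _ => by rw [sub_sub_sub_comm]

theorem gen_mul (R : V → V → ℝ) (x : ℝ) (u : V → ℝ) (a : V) :
    gen R (fun b => x * u b) a = x * gen R u a := by
  simp only [gen, smul_eq_mul, Finset.mul_sum]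
  exact Finset.sum_congr rfl fun b _ => by ring

theorem gen_const {E : Type} [AddCommGroup E] [Module ℝ E] (R : V → V → ℝ) (x : E) (a : V) :
    gen R (fun _ => x) a = 0 := by
  simp only [gen, sub_self, smul_zero, Finset.sum_const_zero]

theorem min_on_congr {E : Type} [AddCommGroup E] [Module ℝ E] {R : V → V → ℝ}
    (hR : ∀ a b, 0 ≤ R a b) {u v : V → E} {a : V} (ha : u a = v a)
    (h : ∀ b, 0 < R a b → u b = v b) : gen R u a = gen R v a := by
  refine Finset.sum_congr rfl fun b _ => ?_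
  rcases (hR a b).eq_or_lt with h1 | h1
  · rw [← h1, zero_smul, zero_smul]
  · rw [ha, h b h1]

/-- P1. Minimum principle on a set `U`. Hint: `mat_det_min` with the absorbing set `Uᶜ`
(`Abs.mono`) for the function equal to `w` on `U` and to `max (w b) 0` off `U`. -/
theorem min_on {R : V → V → ℝ} {B U : Set V} (hR : ∀ a b, 0 ≤ R a b) (hA : Abs R B)
    (hU : Disjoint U B) {w : V → ℝ} (hw : ∀ a ∈ U, gen R w a ≤ 0)
    (hx : ∀ a ∈ U, ∀ b, 0 < R a b → b ∉ U → 0 ≤ w b) : ∀ a ∈ U, 0 ≤ w a := by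
  classical
  intro a ha
  have h1 := mat_det_min hR (hA.mono (B' := Uᶜ) (fun b hb h => disjoint_left.1 hU h hb)
    fun _ _ h => h) (u := fun b => if b ∈ U then w b else max (w b) 0) (fun x hx' => by
      have h2 : x ∈ U := not_not.1 hx'
      rw [min_on_congr hR (v := w) (if_pos h2) fun b hb => ?_]
      · exact hw x h2
      · by_cases h3 : b ∈ U
        · exact if_pos h3
        · rw [if_neg h3, max_eq_left (hx x h2 b hb h3)])
    (fun b hb => by
      rw [if_neg hb]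
      exact le_max_right _ _) a
  rwa [if_pos ha] at h1

/-- P2. The convex version. Hint: `U` non-empty can be left, so `H` has a point `x`; `harm_mem`
with the absorbing set `Uᶜ` for the function equal to `u` on `U ∪ u ⁻¹' H` and `x` elsewhere. -/
theorem mem_on {E : Type} [AddCommGroup E] [Module ℝ E] {R : V → V → ℝ} {B U : Set V}
    (hR : ∀ a b, 0 ≤ R a b) (hA : Abs R B) (hU : Disjoint U B) {u : V → E}
    (hu : ∀ a ∈ U, gen R u a = 0) {H : Set E} (hH : Convex ℝ H)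
    (hx : ∀ a ∈ U, ∀ b, 0 < R a b → b ∉ U → u b ∈ H) : ∀ a ∈ U, u a ∈ H := by
  classical
  intro a ha
  obtain ⟨a', h1, b', h2, h3⟩ := hA U ⟨a, ha⟩ hU
  have h4 := harm_mem hR (hA.mono (B' := Uᶜ) (fun b hb h => disjoint_left.1 hU h hb)
    fun _ _ h => h) (u := fun b => if b ∈ U ∨ u b ∈ H then u b else u b') (fun x hx' => by
      have h5 : x ∈ U := not_not.1 hx'
      rw [min_on_congr hR (v := u) (if_pos (.inl h5)) fun b hb => if_pos ?_]
      · exact hu x h5
      · by_cases h6 : b ∈ U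
        · exact .inl h6
        · exact .inr (hx x h5 b hb h6)) hH
    (fun b hb => by
      by_cases h5 : b ∈ U ∨ u b ∈ H
      · rw [if_pos h5]
        exact h5.resolve_left hb
      · rw [if_neg h5]
        exact hx a' h1 b' h3 h2) a
  rwa [if_pos (.inl ha)] at h4

/-- P3. Hint: a norming functional `l` of `w a` (`exists_dual_vector''`), `mat_det_min` for
`k - l w`, `gen_map`. -/
theorem norm_le_super {E : Type} [NormedAddCommGroup E] [NormedSpace ℝ E] {R : V → V → ℝ}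
    {B : Set V} (hR : ∀ a b, 0 ≤ R a b) (hA : Abs R B) {w : V → E} {k : V → ℝ}
    (hw : ∀ a, a ∉ B → gen R w a = 0) (hk : ∀ a, a ∉ B → gen R k a ≤ 0)
    (hB : ∀ b ∈ B, ‖w b‖ ≤ k b) (a : V) : ‖w a‖ ≤ k a := by
  obtain ⟨l, h1, h2⟩ := exists_dual_vector'' ℝ (w a)
  have h3 := mat_det_min hR hA (u := fun b => k b - l (w b)) (fun x hx => by
      have h4 : gen R (fun b => l (w b)) x = l (gen R w x) := by
        simp only [gen, map_sum, map_smul, map_sub]
      rw [gen_sub, h4, hw x hx, map_zero, sub_zero]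
      exact hk x hx)
    (fun b hb => sub_nonneg.2 (((le_abs_self _).trans (l.le_of_opNorm_le h1 (w b))).trans
      (by rw [one_mul]; exact hB b hb))) a
  have h5 : l (w a) = ‖w a‖ := h2
  rw [h5] at h3
  exact sub_nonneg.1 h3

/-- P4. A weak Lyapunov function. Hint: if `S` cannot be left, the points of `S` where `h` is
minimal on `S` form a closed set on which `gen R h = 0`. -/
theorem abs_of_weak {R : V → V → ℝ} {B Gd : Set V} (hR : ∀ a b, 0 ≤ R a b) {h : V → ℝ}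
    (h0 : ∀ a, a ∉ B → gen R h a ≤ 0) (h1 : ∀ a ∈ Gd, a ∉ B → gen R h a < 0)
    (hS : ∀ S : Set V, S.Nonempty → Disjoint S B → (∀ a ∈ S, ∀ b, 0 < R a b → b ∈ S) →
      (S ∩ Gd).Nonempty) : Abs R B := by
  intro S hne hd
  by_contra hn
  have h2 : ∀ a ∈ S, ∀ b, 0 < R a b → b ∈ S := fun a ha b hb => by
    by_contra h3
    exact hn ⟨a, ha, b, h3, hb⟩
  obtain ⟨m, hm, hM⟩ := Set.exists_min_image S h (toFinite S) hne
  have h3 : ∀ a ∈ S, h a = h m → ∀ b, 0 ≤ R a b • (h b - h a) := fun a ha e b => by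
    rcases (hR a b).eq_or_lt with h4 | h4
    · rw [← h4, zero_smul]
    · exact mul_nonneg h4.le (sub_nonneg.2 (e ▸ hM b (h2 a ha b h4)))
  obtain ⟨x, ⟨h4, h5⟩, h6⟩ := hS {a ∈ S | h a = h m} ⟨m, hm, rfl⟩
    (hd.mono_left fun a ha => ha.1) fun a ha b hb => by
      refine ⟨h2 a ha.1 b hb, ?_⟩
      have h7 := (Finset.sum_eq_zero_iff_of_nonneg fun b _ => h3 a ha.1 ha.2 b).1
        (le_antisymm (h0 a (disjoint_left.1 hd ha.1))
          (Finset.sum_nonneg fun b _ => h3 a ha.1 ha.2 b)) b (Finset.mem_univ b)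
      exact (sub_eq_zero.1 ((mul_eq_zero.1 h7).resolve_left hb.ne')).trans ha.2
  exact (h1 x h6 (disjoint_left.1 hd h4)).not_ge (Finset.sum_nonneg fun b _ => h3 x h4 h5 b)

variable {N : Type} [Fintype N]

open Classical in
/-- The total rate out of `p`. -/
noncomputable def tot (r : N → N → ℝ) (p : N) : ℝ := ∑ q, if q = p then 0 else r p q

open Classical in
/-- The normalised jump law of `p`, transported by `tg`. -/
noncomputable def push (r : N → N → ℝ) (p : N) (tg : N → V) (v : V) : ℝ :=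
  ∑ q, if q ≠ p ∧ tg q = v then r p q / tot r p else 0

variable {r : N → N → ℝ} {p : N} {tg : N → V}

/-- Hint: `Abs` for the set `{p}`. -/
theorem tot_pos (hr : ∀ p q, 0 ≤ r p q) {B : Set N} (hA : Abs r B) (hp : p ∉ B) :
    0 < tot r p := by
  obtain ⟨a, ha, b, hb, h⟩ := hA {p} (singleton_nonempty p) (disjoint_singleton_left.2 hp)
  rw [mem_singleton_iff] at ha hb
  subst ha
  refine Finset.sum_pos' (fun q _ => ?_) ⟨b, Finset.mem_univ b, by rwa [if_neg hb]⟩
  split_ifs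
  · exact le_rfl
  · exact hr a q

theorem push_nonneg (hr : ∀ p q, 0 ≤ r p q) (v : V) : 0 ≤ push r p tg v := by
  refine Finset.sum_nonneg fun q _ => ?_
  split_ifs
  · refine div_nonneg (hr p q) (Finset.sum_nonneg fun q _ => ?_)
    split_ifs
    · exact le_rfl
    · exact hr p q
  · exact le_rfl

open Classical in
theorem push_sum_smul {E : Type} [AddCommGroup E] [Module ℝ E] (φ : V → E) :
    ∑ v, push r p tg v • φ v = ∑ q, (if q = p then 0 else r p q / tot r p) • φ (tg q) := by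
  simp only [push, Finset.sum_smul]
  rw [Finset.sum_comm]
  refine Finset.sum_congr rfl fun q _ => ?_
  by_cases h : q = p
  · simp only [h, ne_eq, not_true_eq_false, false_and, ↓ reduceIte, zero_smul, Finset.sum_const_zero]
  · simp only [ne_eq, h, not_false_eq_true, true_and, ite_smul, zero_smul, Finset.sum_ite_eq, Finset.mem_univ, ↓ reduceIte]

theorem push_sum (h : 0 < tot r p) : ∑ v, push r p tg v = 1 := by
  have h1 := push_sum_smul (r := r) (p := p) (tg := tg) (fun _ => (1 : ℝ))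
  simp only [smul_eq_mul, mul_one] at h1
  rw [h1, ← div_self h.ne']
  nth_rewrite 2 [tot]
  rw [Finset.sum_div]
  refine Finset.sum_congr rfl fun q _ => ?_
  split_ifs
  · rw [zero_div]
  · rfl

theorem push_pos (hr : ∀ p q, 0 ≤ r p q) (h : 0 < tot r p) {v : V} :
    0 < push r p tg v ↔ ∃ q, q ≠ p ∧ 0 < r p q ∧ tg q = v := by
  constructor
  · intro h1
    by_contra hn
    refine h1.ne' (Finset.sum_eq_zero fun q _ => ?_)
    split_ifs with h2
    · rw [le_antisymm (not_lt.1 fun h3 => hn ⟨q, h2.1, h3, h2.2⟩) (hr p q), zero_div]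
    · rfl
  · rintro ⟨q, h1, h2, h3⟩
    refine Finset.sum_pos' (fun q _ => ?_)
      ⟨q, Finset.mem_univ q, by rw [if_pos ⟨h1, h3⟩]; exact div_pos h2 h⟩
    split_ifs
    · exact div_nonneg (hr p q) h.le
    · exact le_rfl

/-- P5. -/
theorem push_gen {E : Type} [AddCommGroup E] [Module ℝ E] (hr : ∀ p q, 0 ≤ r p q) {φ : V → E}
    {ψ : N → E} (h : ∀ q, q ≠ p → 0 < r p q → φ (tg q) = ψ q) :
    ∑ v, push r p tg v • (φ v - ψ p) = (tot r p)⁻¹ • gen r ψ p := by
  rw [push_sum_smul (fun v => φ v - ψ p), gen, Finset.smul_sum]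
  refine Finset.sum_congr rfl fun q _ => ?_
  split_ifs with h1
  · rw [h1, sub_self, zero_smul, smul_zero, smul_zero]
  · rcases (hr p q).eq_or_lt with h2 | h2
    · rw [← h2, zero_div, zero_smul, zero_smul, smul_zero]
    · rw [h q h1 h2, smul_smul, div_eq_inv_mul]

end Pool.Agent.MP_17e62b_gt.G

/-! The potentials of the chain before mixing. -/

set_option linter.unusedSectionVars false

namespace Pool.Agent.MP_17e62b_gt.G

open Set H14
open scoped BigOperators

variable {V E : Type} [Fintype V] [NormedAddCommGroup E] [InnerProductSpace ℝ E]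

/-- A chain with long steps (`Rs`) and other steps controlled by `ψ` and `τ`. -/
structure Steps (P : V → V → ℝ) (B Rs Hit Cut : Set V) (nb : V → V → Prop) (F : V → E)
    (ψ τ : V → ℝ) (M r β c₁ c₂ ρ t : ℝ) : Prop where
  nonneg : ∀ a b, 0 ≤ P a b
  bound : ∀ a, ‖F a‖ ≤ M
  psi : ∀ a, 0 ≤ ψ a ∧ ψ a ≤ M ^ 2
  tau : ∀ a, 0 ≤ τ a ∧ τ a ≤ t
  long : ∀ a ∈ Rs, a ∉ B → ∑ v, P a v = 1 ∧ ‖gen P F a‖ ≤ β ∧ ψ a = M ^ 2 - ‖F a‖ ^ 2 ∧
    τ a = 0 ∧ ∀ v, 0 < P a v → (r ≤ ‖F v - F a‖ ∨ (a ∉ Hit ∧ v ∈ Hit)) ∧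
      ψ v = M ^ 2 - ‖F v‖ ^ 2 ∧ τ v = 0
  other : ∀ a, a ∉ Rs → a ∉ B → 0 ≤ -gen P ψ a ∧ ‖gen P F a‖ ≤ c₁ * -gen P ψ a ∧
    0 ≤ -gen P (fun v => τ v + c₂ * ψ v) a ∧ (a ∉ Hit ∨ ∀ v, 0 < P a v → v ∈ Hit)
  cut : ∀ a ∈ Cut, a ∉ B → a ∉ Rs ∧ ∑ v, P a v ≤ -gen P (fun v => τ v + c₂ * ψ v) a
  near : ∀ a b, nb a b → ‖F a - F b‖ ≤ ρ ∧ ψ a = M ^ 2 - ‖F a‖ ^ 2 ∧ ψ b = M ^ 2 - ‖F b‖ ^ 2 ∧
    τ a = 0 ∧ τ b = 0
  meet : ∀ S : Set V, S.Nonempty → Disjoint S B → (∀ a ∈ S, ∀ b, 0 < P a b → b ∈ S) →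
    (S ∩ Rs).Nonempty

variable {P : V → V → ℝ} {B Rs Hit Cut : Set V} {nb : V → V → Prop} {F : V → E} {ψ τ : V → ℝ}
  {M r β c₁ c₂ ρ t : ℝ}

open Classical in
/-- The potential of the number of long steps. -/
noncomputable def kr (Hit : Set V) (ψ : V → ℝ) (r : ℝ) (a : V) : ℝ :=
  4 / r ^ 2 * ψ a + if a ∈ Hit then 0 else 2

open Classical in
theorem kr_long_gen (P : V → V → ℝ) (Hit : Set V) (ψ : V → ℝ) (r : ℝ) (a : V) :
    -gen P (kr Hit ψ r) a = 4 / r ^ 2 * -gen P ψ a +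
      ∑ v, P a v * ((if a ∈ Hit then 0 else 2) - if v ∈ Hit then 0 else 2) := by
  simp only [gen, kr, smul_eq_mul, Finset.mul_sum, ← Finset.sum_neg_distrib,
    ← Finset.sum_add_distrib]
  exact Finset.sum_congr rfl fun v _ => by ring

theorem kr_long_congr {R : V → V → ℝ} {a : V} (hR : ∀ b, 0 ≤ R a b) {u v : V → ℝ}
    (ha : u a = v a) (h : ∀ b, 0 < R a b → u b = v b) : gen R u a = gen R v a := by
  refine Finset.sum_congr rfl fun b _ => ?_
  rcases (hR b).eq_or_lt with e | e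
  · rw [← e, zero_smul, zero_smul]
  · rw [ha, h b e]

/-- B1. Hint: at `a ∈ Rs`, `gen P ψ a = - gen P ‖F‖² a` (only positive rates matter), and
`gen_norm_sq` gives `- gen P ψ a ≥ r ^ 2 * m - 2 M β`, `m` the mass of the long jumps. The
indicator term gives at least `2 (1 - m)` if `a ∉ Hit`, and at least `- 2` otherwise (then
`m = 1`). -/
theorem Steps.kr_long (h : Steps P B Rs Hit Cut nb F ψ τ M r β c₁ c₂ ρ t) (hr : 0 < r)
    (hβ : 8 * M * β ≤ r ^ 2) {a : V} (ha : a ∈ Rs) (hB : a ∉ B) :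
    1 ≤ -gen P (kr Hit ψ r) a ∧ -(2 * M * β) ≤ -gen P ψ a ∧ gen P τ a = 0 := by
  classical
  obtain ⟨h1, h2, h3, h4, h5⟩ := h.long a ha hB
  have e1 : -gen P ψ a = gen P (fun b => ‖F b‖ ^ 2) a := by
    rw [kr_long_congr (h.nonneg a) (v := fun b => M ^ 2 - ‖F b‖ ^ 2) h3 fun b hb => (h5 b hb).2.1,
      gen_sub, gen_const, zero_sub, neg_neg]
  have e2 := mix_inner P (h.bound a) h2
  rw [← e1] at e2
  have hr2 : 0 < r ^ 2 := by positivity
  refine ⟨?_, ?_, ?_⟩
  · have e3 : ∑ v, P a v * 2 ≤ ∑ v, (4 / r ^ 2 * (P a v * ‖F v - F a‖ ^ 2) +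
        P a v * ((if a ∈ Hit then 0 else 2) - if v ∈ Hit then 0 else 2)) := by
      refine Finset.sum_le_sum fun v _ => ?_
      rcases (h.nonneg a v).eq_or_lt with e | e
      · simp [← e]
      rw [mul_left_comm, ← mul_add]
      refine mul_le_mul_of_nonneg_left ?_ e.le
      rcases (h5 v e).1 with h6 | ⟨h6, h7⟩
      · have h8 : 4 ≤ 4 / r ^ 2 * ‖F v - F a‖ ^ 2 := by
          rw [div_mul_eq_mul_div, le_div_iff₀ hr2]
          exact mul_le_mul_of_nonneg_left (pow_le_pow_left₀ hr.le h6 2) (by norm_num)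
        split_ifs <;> linarith only [h8]
      · have h8 : 0 ≤ 4 / r ^ 2 * ‖F v - F a‖ ^ 2 := by positivity
        rw [if_neg h6, if_pos h7]
        linarith
    rw [← Finset.sum_mul, h1, Finset.sum_add_distrib, ← Finset.mul_sum] at e3
    have e4 := mul_le_mul_of_nonneg_left e2 (by positivity : 0 ≤ 4 / r ^ 2)
    have e5 : 4 / r ^ 2 * (2 * M * β) ≤ 1 := by
      rw [div_mul_eq_mul_div, div_le_one hr2]
      linarith only [hβ]
    rw [kr_long_gen]
    rw [mul_sub] at e4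
    linarith
  · have : 0 ≤ ∑ v, P a v * ‖F v - F a‖ ^ 2 :=
      Finset.sum_nonneg fun v _ => mul_nonneg (h.nonneg a v) (sq_nonneg _)
    linarith
  · rw [kr_long_congr (h.nonneg a) (v := fun _ => 0) h4 fun b hb => (h5 b hb).2.2, gen_const]

theorem Steps.kr_other (h : Steps P B Rs Hit Cut nb F ψ τ M r β c₁ c₂ ρ t) {a : V} (ha : a ∉ Rs)
    (hB : a ∉ B) : 0 ≤ -gen P (kr Hit ψ r) a := by
  classical
  obtain ⟨h1, -, -, h4⟩ := h.other a ha hB
  rw [kr_long_gen]
  refine add_nonneg (mul_nonneg (by positivity) h1) (Finset.sum_nonneg fun v _ => ?_)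
  rcases (h.nonneg a v).eq_or_lt with e | e
  · rw [← e, zero_mul]
  refine mul_nonneg e.le ?_
  rcases h4 with h4 | h4
  · rw [if_neg h4]
    split_ifs <;> norm_num
  · rw [if_pos (h4 v e)]
    split_ifs <;> norm_num

/-- B2. `abs_of_weak` with `kr`. -/
theorem Steps.abs (h : Steps P B Rs Hit Cut nb F ψ τ M r β c₁ c₂ ρ t) (hr : 0 < r)
    (hβ : 8 * M * β ≤ r ^ 2) : Abs P B := by
  refine abs_of_weak (Gd := Rs) (h := kr Hit ψ r) h.nonneg (fun a hB => ?_) (fun a ha hB => ?_) h.meet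
  · by_cases ha : a ∈ Rs
    · linarith [(h.kr_long hr hβ ha hB).1]
    · linarith [h.kr_other ha hB]
  · linarith [(h.kr_long hr hβ ha hB).1]

theorem Steps.drift_kr (h : Steps P B Rs Hit Cut nb F ψ τ M r β c₁ c₂ ρ t) (a : V) :
    0 ≤ kr Hit ψ r a ∧ kr Hit ψ r a ≤ 4 * M ^ 2 / r ^ 2 + 2 := by
  have h1 : 0 ≤ 4 / r ^ 2 * ψ a := mul_nonneg (by positivity) (h.psi a).1
  have h2 : 4 / r ^ 2 * ψ a ≤ 4 * M ^ 2 / r ^ 2 := by
    rw [mul_div_right_comm]
    exact mul_le_mul_of_nonneg_left (h.psi a).2 (by positivity)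
  unfold kr
  split_ifs <;> constructor <;> linarith only [h1, h2]

theorem Steps.drift_nb (h : Steps P B Rs Hit Cut nb F ψ τ M r β c₁ c₂ ρ t) {a b : V}
    (hab : nb a b) : |ψ a - ψ b| ≤ 2 * M * ρ ∧
      |kr Hit ψ r a - kr Hit ψ r b| ≤ 4 / r ^ 2 * (2 * M * ρ) + 2 := by
  obtain ⟨h1, h2, h3, -⟩ := h.near a b hab
  have e : |ψ a - ψ b| ≤ 2 * M * ρ := by
    have : ψ a - ψ b = -((‖F a‖ + ‖F b‖) * (‖F a‖ - ‖F b‖)) := by rw [h2, h3]; ring
    rw [this, abs_neg, abs_mul, abs_of_nonneg (by positivity)]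
    exact mul_le_mul (by linarith [h.bound a, h.bound b]) ((abs_norm_sub_norm_le _ _).trans h1)
      (abs_nonneg _) (by linarith [h.bound a, norm_nonneg (F a)])
  refine ⟨e, ?_⟩
  have e' : |4 / r ^ 2 * ψ a - 4 / r ^ 2 * ψ b| ≤ 4 / r ^ 2 * (2 * M * ρ) := by
    rw [← mul_sub, abs_mul, abs_of_nonneg (by positivity)]
    exact mul_le_mul_of_nonneg_left e (by positivity)
  rw [abs_le] at e' ⊢
  unfold kr
  split_ifs <;> constructor <;> linarith only [e'.1, e'.2]

theorem Steps.drift_lin {x y u v p q : ℝ} (hx : 0 ≤ x) (hy : 0 ≤ y) (hu : |u| ≤ p)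
    (hv : |v| ≤ q) : |x * u + y * v| ≤ x * p + y * q := by
  refine (abs_add_le _ _).trans (add_le_add ?_ ?_)
  · rw [abs_mul, abs_of_nonneg hx]
    exact mul_le_mul_of_nonneg_left hu hx
  · rw [abs_mul, abs_of_nonneg hy]
    exact mul_le_mul_of_nonneg_left hv hy

/-- B3. Hint: `k = 2 β kr + c₁ ψ`; on neighbours `|ψ a - ψ b| ≤ 2 M ρ`. -/
theorem Steps.drift (h : Steps P B Rs Hit Cut nb F ψ τ M r β c₁ c₂ ρ t) (hr : 0 < r)
    (hβ0 : 0 ≤ β) (hβ : 8 * M * β ≤ r ^ 2) (hc0 : 0 ≤ c₁) (hc : 2 * M * c₁ ≤ 1)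
    (hρ : 4 * β ≤ ρ) :
    ∃ k : V → ℝ, (∀ a, 0 ≤ k a ∧ k a ≤ 2 * β * (4 * M ^ 2 / r ^ 2 + 2) + c₁ * M ^ 2) ∧
      (∀ a, a ∉ B → ‖gen P F a‖ ≤ -gen P k a) ∧ ∀ a b, nb a b → |k a - k b| ≤ 4 * ρ := by
  have hr2 : 0 < r ^ 2 := by positivity
  have hb2 : 0 ≤ 2 * β := by linarith
  have e5 : 4 / r ^ 2 * (2 * M * β) ≤ 1 := by
    rw [div_mul_eq_mul_div, div_le_one hr2]
    linarith
  refine ⟨fun a => 2 * β * kr Hit ψ r a + c₁ * ψ a, fun a => ⟨?_, ?_⟩, fun a hB => ?_,
    fun a b hab => ?_⟩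
  · exact add_nonneg (mul_nonneg hb2 (h.drift_kr a).1) (mul_nonneg hc0 (h.psi a).1)
  · exact add_le_add (mul_le_mul_of_nonneg_left (h.drift_kr a).2 hb2)
      (mul_le_mul_of_nonneg_left (h.psi a).2 hc0)
  · rw [gen_add, gen_mul, gen_mul]
    by_cases ha : a ∈ Rs
    · obtain ⟨h1, h2, -⟩ := h.kr_long hr hβ ha hB
      have h3 := mul_le_mul_of_nonneg_left h1 hb2
      have h4 := mul_le_mul_of_nonneg_left h2 hc0
      have h5 := mul_le_mul_of_nonneg_left hc hβ0
      linarith only [(h.long a ha hB).2.1, h3, h4, h5]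
    · have h3 := mul_nonneg hb2 (h.kr_other (r := r) ha hB)
      linarith only [(h.other a ha hB).2.1, h3]
  · obtain ⟨h1, h2⟩ := h.drift_nb hab
    have h3 := Steps.drift_lin hb2 hc0 h2 h1
    have hρ0 : 0 ≤ ρ := by linarith only [hβ0, hρ]
    have h4 := mul_le_mul_of_nonneg_left e5 hρ0
    have h5 := mul_le_mul_of_nonneg_left hc hρ0
    have e : 2 * β * kr Hit ψ r a + c₁ * ψ a - (2 * β * kr Hit ψ r b + c₁ * ψ b) =
      2 * β * (kr Hit ψ r a - kr Hit ψ r b) + c₁ * (ψ a - ψ b) := by ring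
    show |2 * β * kr Hit ψ r a + c₁ * ψ a - (2 * β * kr Hit ψ r b + c₁ * ψ b)| ≤ 4 * ρ
    rw [e]
    linarith only [hρ, h3, h4, h5]

/-- B4. Hint: `k = τ + c₂ ψ + 2 c₂ M β kr`. -/
theorem Steps.count (h : Steps P B Rs Hit Cut nb F ψ τ M r β c₁ c₂ ρ t) (hr : 0 < r)
    (hβ0 : 0 ≤ β) (hβ : 8 * M * β ≤ r ^ 2) (hc0 : 0 ≤ c₂) (hρ : 4 * β ≤ ρ) :
    ∃ k : V → ℝ, (∀ a, 0 ≤ k a ∧ k a ≤ t + c₂ * (2 * M ^ 2 + r ^ 2)) ∧
      (∀ a, a ∉ B → 0 ≤ -gen P k a) ∧ (∀ a ∈ Cut, a ∉ B → ∑ v, P a v ≤ -gen P k a) ∧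
      ∀ a b, nb a b → |k a - k b| ≤ 5 * c₂ * M * ρ := by
  have hr2 : 0 < r ^ 2 := by positivity
  have hM : ∀ a : V, 0 ≤ M := fun a => (norm_nonneg _).trans (h.bound a)
  have hx : ∀ a : V, 0 ≤ 2 * c₂ * M * β := fun a => by have := hM a; positivity
  have e5 : 4 / r ^ 2 * (2 * M * β) ≤ 1 := by
    rw [div_mul_eq_mul_div, div_le_one hr2]
    linarith
  have hg : ∀ a, gen P (fun a => (τ a + c₂ * ψ a) + 2 * c₂ * M * β * kr Hit ψ r a) a =
      gen P (fun v => τ v + c₂ * ψ v) a + 2 * c₂ * M * β * gen P (kr Hit ψ r) a := fun a => by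
    rw [gen_add, gen_mul]
  refine ⟨fun a => (τ a + c₂ * ψ a) + 2 * c₂ * M * β * kr Hit ψ r a, fun a => ⟨?_, ?_⟩,
    fun a hB => ?_, fun a ha hB => ?_, fun a b hab => ?_⟩
  · exact add_nonneg (add_nonneg (h.tau a).1 (mul_nonneg hc0 (h.psi a).1))
      (mul_nonneg (hx a) (h.drift_kr a).1)
  · have h1 := mul_le_mul_of_nonneg_left (h.drift_kr (r := r) a).2 (hx a)
    have h2 := mul_le_mul_of_nonneg_left (h.psi a).2 hc0
    have h3 := mul_le_mul_of_nonneg_left e5 (mul_nonneg hc0 (sq_nonneg M))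
    have h4 := mul_le_mul_of_nonneg_left hβ hc0
    have h5 := mul_nonneg hc0 hr2.le
    have e : 2 * c₂ * M * β * (4 * M ^ 2 / r ^ 2 + 2) =
      c₂ * M ^ 2 * (4 / r ^ 2 * (2 * M * β)) + 4 * c₂ * M * β := by ring
    show τ a + c₂ * ψ a + 2 * c₂ * M * β * kr Hit ψ r a ≤ _
    linarith [(h.tau a).2]
  · rw [hg]
    by_cases ha : a ∈ Rs
    · obtain ⟨h1, h2, h3⟩ := h.kr_long hr hβ ha hB
      have h4 := mul_le_mul_of_nonneg_left h1 (hx a)
      have h5 := mul_le_mul_of_nonneg_left h2 hc0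
      rw [gen_add, gen_mul, h3]
      linarith only [h4, h5]
    · have h3 := mul_nonneg (hx a) (h.kr_other (r := r) ha hB)
      linarith only [(h.other a ha hB).2.2.1, h3]
  · obtain ⟨h1, h2⟩ := h.cut a ha hB
    have h3 := mul_nonneg (hx a) (h.kr_other (r := r) h1 hB)
    rw [hg]
    linarith only [h2, h3]
  · obtain ⟨h1, h2⟩ := h.drift_nb hab
    obtain ⟨-, -, -, t1, t2⟩ := h.near a b hab
    have h3 := Steps.drift_lin hc0 (hx a) h1 h2
    have hρ0 : 0 ≤ ρ := by linarith only [hβ0, hρ]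
    have h0 := mul_nonneg hc0 (hM a)
    have h4 := mul_le_mul_of_nonneg_left e5 (mul_nonneg h0 hρ0)
    have h5 := mul_le_mul_of_nonneg_left hρ h0
    have e : τ a + c₂ * ψ a + 2 * c₂ * M * β * kr Hit ψ r a -
        (τ b + c₂ * ψ b + 2 * c₂ * M * β * kr Hit ψ r b) =
      c₂ * (ψ a - ψ b) + 2 * c₂ * M * β * (kr Hit ψ r a - kr Hit ψ r b) := by rw [t1, t2]; ring
    show |τ a + c₂ * ψ a + 2 * c₂ * M * β * kr Hit ψ r a -
        (τ b + c₂ * ψ b + 2 * c₂ * M * β * kr Hit ψ r b)| ≤ 5 * c₂ * M * ρ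
    rw [e]
    linarith only [h3, h4, h5]

end Pool.Agent.MP_17e62b_gt.G

/-! Mixing inside the discs, and the potentials of the mixed chain. -/

set_option linter.unusedSectionVars false

namespace Pool.Agent.MP_17e62b_gt.G

open Set H14
open scoped BigOperators

variable {D O K : Type} [Fintype D] [Fintype O] [Fintype K]

/-- Inner states `D` are left only through gates. -/
structure Gated (P : D ⊕ O → D ⊕ O → ℝ) (B : Set O) (gate : D → Prop) (out : D → O) : Prop where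
  nonneg : ∀ a b, 0 ≤ P a b
  abs : Abs P (Sum.inr '' B)
  gate_out : ∀ u, gate u → P (.inl u) (.inr (out u)) = 1 ∧
    ∀ v, v ≠ .inr (out u) → P (.inl u) v = 0
  inner : ∀ s, ¬ gate s → ∑ v, P (.inl s) v = 1 ∧ ∀ o, P (.inl s) (.inr o) = 0

/-- The rates after mixing. -/
def mixR (P : D ⊕ O → D ⊕ O → ℝ) (c : D → D → ℝ) : D ⊕ O → D ⊕ O → ℝ
  | .inl s, .inl s' => P (.inl s) (.inl s') + c s s'
  | .inl s, .inr o => P (.inl s) (.inr o)
  | .inr o, v => P (.inr o) v

open Classical in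
/-- The chain killed at the gates. -/
noncomputable def locR (P : D ⊕ O → D ⊕ O → ℝ) (gate : D → Prop) (c : D → D → ℝ) :
    D ⊕ D → D ⊕ D → ℝ
  | .inl s, .inl s' => P (.inl s) (.inl s') + c s s'
  | .inl s, .inr s' => if s' = s ∧ gate s then 1 else 0
  | .inr _, _ => 0

open Classical in
/-- Mixing rates `c` and the exit law `Φ`. -/
structure Law (P : D ⊕ O → D ⊕ O → ℝ) (gate : D → Prop) (lab : D → K) (nb : D → D → Prop) (κ : ℝ)
    (c : D → D → ℝ) (Φ : D → K → ℝ) : Prop where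
  c_nonneg : ∀ s s', 0 ≤ c s s'
  c_pos : ∀ s s', 0 < c s s' → nb s s' ∧ κ ^ 2 / 4 ≤ ∑ v, (Φ s' v - Φ s v) ^ 2
  close : ∀ s s', nb s s' → ‖Φ s - Φ s'‖ ≤ κ
  simplex : ∀ s, Φ s ∈ stdSimplex ℝ K
  harm : ∀ s, ∑ s', (P (.inl s) (.inl s') + c s s') • (Φ s' - Φ s) +
    (if gate s then Pi.single (lab s) 1 - Φ s else 0) = 0

variable {P : D ⊕ O → D ⊕ O → ℝ} {B : Set O} {gate : D → Prop} {out : D → O} {c : D → D → ℝ}

theorem Gated.mixR_nonneg (h : Gated P B gate out) (hc : ∀ s s', 0 ≤ c s s') (a b : D ⊕ O) :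
    0 ≤ mixR P c a b := by
  rcases a with s | o
  · rcases b with s' | o'
    · exact add_nonneg (h.nonneg _ _) (hc _ _)
    · exact h.nonneg _ _
  · exact h.nonneg _ _

theorem Gated.mixR_abs (h : Gated P B gate out) (hc : ∀ s s', 0 ≤ c s s') :
    Abs (mixR P c) (Sum.inr '' B) := by
  refine h.abs.mono subset_rfl fun a b hab => ?_
  rcases a with s | o
  · rcases b with s' | o'
    · exact add_pos_of_pos_of_nonneg hab (hc _ _)
    · exact hab
  · exact hab

theorem Gated.locR_nonneg (h : Gated P B gate out) (hc : ∀ s s', 0 ≤ c s s') (a b : D ⊕ D) :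
    0 ≤ locR P gate c a b := by
  rcases a with s | o
  · rcases b with s' | o'
    · exact add_nonneg (h.nonneg _ _) (hc _ _)
    · simp only [locR]
      split_ifs
      · exact zero_le_one
      · exact le_rfl
  · exact le_rfl

/-- A1. Hint: a set `S` off `range inr` that cannot be left has no gate; its copy in `D ⊕ O`
cannot be left by `P`. -/
theorem Gated.locR_abs (h : Gated P B gate out) (hc : ∀ s s', 0 ≤ c s s') :
    Abs (locR P gate c) (range Sum.inr) := by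
  intro S hS hd
  obtain ⟨a₀, ha₀⟩ := hS
  have hne : ({v : D ⊕ O | ∃ s, v = .inl s ∧ Sum.inl s ∈ S}).Nonempty := by
    rcases a₀ with s | s
    · exact ⟨.inl s, s, rfl, ha₀⟩
    · exact absurd (mem_range_self s) (disjoint_left.1 hd ha₀)
  obtain ⟨a, ⟨s, rfl, hs⟩, b, hb, hab⟩ := h.abs _ hne (disjoint_left.2 (by
    rintro _ ⟨s, rfl, -⟩ ⟨o, -, ho⟩
    exact Sum.inr_ne_inl ho))
  by_cases hg : gate s
  · refine ⟨.inl s, hs, .inr s, fun h' => disjoint_left.1 hd h' (mem_range_self s), ?_⟩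
    simp [locR, hg]
  · rcases b with s' | o
    · exact ⟨.inl s, hs, .inl s', fun h' => hb ⟨s', rfl, h'⟩,
        add_pos_of_pos_of_nonneg hab (hc _ _)⟩
    · exact absurd ((h.inner s hg).2 o) hab.ne'

open Classical in
theorem gen_locR {X : Type} [AddCommGroup X] [Module ℝ X] (φ : D ⊕ D → X) (s : D) :
    gen (locR P gate c) φ (.inl s) =
      ∑ s', (P (.inl s) (.inl s') + c s s') • (φ (.inl s') - φ (.inl s)) +
        if gate s then φ (.inr s) - φ (.inl s) else 0 := by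
  simp only [gen, Fintype.sum_sum_type, locR]
  congr 1
  by_cases hg : gate s
  · simp only [hg, and_true, ite_smul, one_smul, zero_smul, Finset.sum_ite_eq', Finset.mem_univ, ↓ reduceIte]
  · simp only [hg, and_false, ↓ reduceIte, zero_smul, Finset.sum_const_zero]

open Classical in
theorem Gated.gen_mixR (h : Gated P B gate out) {X : Type} [AddCommGroup X] [Module ℝ X]
    (φ : D ⊕ O → X) (s : D) :
    gen (mixR P c) φ (.inl s) =
      ∑ s', (P (.inl s) (.inl s') + c s s') • (φ (.inl s') - φ (.inl s)) +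
        if gate s then φ (.inr (out s)) - φ (.inl s) else 0 := by
  simp only [gen, Fintype.sum_sum_type, mixR]
  congr 1
  by_cases hg : gate s
  · rw [if_pos hg, Finset.sum_eq_single (out s), (h.gate_out s hg).1, one_smul]
    · intro o _ ho
      rw [(h.gate_out s hg).2 _ fun e => ho (Sum.inr_injective e), zero_smul]
    · exact fun h' => absurd (Finset.mem_univ _) h'
  · rw [if_neg hg]
    exact Finset.sum_eq_zero fun o _ => by rw [(h.inner s hg).2 o, zero_smul]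

theorem gen_mixR_inl {X : Type} [AddCommGroup X] [Module ℝ X] (φ : D ⊕ O → X) (s : D) :
    gen (mixR P c) φ (.inl s) = gen P φ (.inl s) + gen c (fun s' => φ (.inl s')) s := by
  simp only [gen, Fintype.sum_sum_type, mixR, add_smul, Finset.sum_add_distrib]
  abel

theorem gen_mixR_inr {X : Type} [AddCommGroup X] [Module ℝ X] (φ : D ⊕ O → X) (o : O) :
    gen (mixR P c) φ (.inr o) = gen P φ (.inr o) := rfl

/-- A2. Hint: `mix_fix` for `locR P gate 0` on `D ⊕ D`, `X = EuclideanSpace ℝ K`, data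
`EuclideanSpace.single (lab s) 1` at `inr s`, neighbours `inl s`, `inl s'` with `nb s s'`. The
rates `c'` it gives vanish off `inl, inl`, so `locR P gate 0 + c' = locR P gate c`. `harm_mem`,
`harm_gen`, `harm_bd`, `gen_locR`; the sup norm is at most the Euclidean norm. -/
theorem exists_law (h : Gated P B gate out) (lab : D → K) {nb : D → D → Prop}
    (hs : ∀ s s', nb s s' → nb s' s) {κ : ℝ} (hκ : 0 < κ) : ∃ c Φ, Law P gate lab nb κ c Φ := by
  classical
  have h0 : ∀ s s' : D, (0 : ℝ) ≤ (0 : D → D → ℝ) s s' := fun _ _ => le_rfl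
  obtain ⟨c', c0, c1, c2⟩ := mix_fix (X := EuclideanSpace ℝ K) (P := locR P gate 0)
    (B := range Sum.inr) (nb := fun a b => ∃ s s', a = .inl s ∧ b = .inl s' ∧ nb s s')
    (ω := Sum.elim (fun _ => 0) fun s => EuclideanSpace.single (lab s) 1) (D := 1) (κ := κ)
    (h.locR_nonneg h0) (by
      rintro (s | s) ha
      · simp only [Fintype.sum_sum_type, locR, Pi.zero_apply, add_zero]
        by_cases hg : gate s
        · rw [Finset.sum_eq_zero fun s' _ => (h.gate_out s hg).2 _ Sum.inl_ne_inr]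
          simp only [hg, and_true, Finset.sum_ite_eq', Finset.mem_univ, ↓ reduceIte, zero_add]
        · have h1 := (h.inner s hg).1
          rw [Fintype.sum_sum_type, Finset.sum_eq_zero fun o _ => (h.inner s hg).2 o] at h1
          simpa only [hg, and_false, ↓ reduceIte, Finset.sum_const_zero, add_zero] using h1
      · exact absurd (mem_range_self s) ha) (h.locR_abs h0)
    (by
      rintro _ _ ⟨s, s', rfl, rfl, hn⟩
      exact ⟨s', s, rfl, rfl, hs _ _ hn⟩)
    (by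
      rintro _ _ ⟨s, s', rfl, rfl, -⟩ ⟨o, ho⟩
      exact Sum.inr_ne_inl ho)
    (by
      rintro _ ⟨s, rfl⟩
      simp) hκ
  have hz : ∀ a b, (¬ ∃ s s', a = Sum.inl s ∧ b = Sum.inl s' ∧ nb s s') → c' a b = 0 :=
    fun a b hn => le_antisymm (not_lt.1 fun h' => hn (c1 a b h').1) (c0 a b)
  have he : (fun a b => locR P gate 0 a b + c' a b) =
      locR P gate fun s s' => c' (.inl s) (.inl s') := by
    funext a b
    rcases a with s | s
    · rcases b with s' | s'
      · simp [locR]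
      · rw [hz _ _ (by simp only [Sum.inl.injEq, reduceCtorEq, false_and, and_false, exists_false, not_false_eq_true]), add_zero]
        rfl
    · rw [hz _ _ (by simp only [reduceCtorEq, false_and, exists_false, not_false_eq_true]), add_zero]
      rfl
  rw [he] at c1 c2
  have hc : ∀ s s', 0 ≤ c' (.inl s) (.inl s') := fun s s' => c0 _ _
  have hR := h.locR_nonneg (c := fun s s' => c' (.inl s) (.inl s')) hc
  have hA := h.locR_abs (c := fun s s' => c' (.inl s) (.inl s')) hc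
  have hb := fun a => harm_bd hR hA
    (Sum.elim (fun _ => 0) fun s => EuclideanSpace.single (lab s) (1 : ℝ)) (a := a)
  have hg := fun a => harm_gen hR hA
    (Sum.elim (fun _ => 0) fun s => EuclideanSpace.single (lab s) (1 : ℝ)) (a := a)
  generalize harm (locR P gate fun s s' => c' (.inl s) (.inl s')) (range Sum.inr)
    (Sum.elim (fun _ => 0) fun s => EuclideanSpace.single (lab s) (1 : ℝ)) = Z at c1 c2 hb hg
  have hg' : ∀ a, a ∉ range Sum.inr → gen (locR P gate fun s s' => c' (.inl s) (.inl s'))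
      (fun b => (Z b).ofLp) a = 0 := fun a ha => by
    have h1 := gen_map (locR P gate fun s s' => c' (.inl s) (.inl s')) Z
      (WithLp.linearEquiv 2 ℝ (K → ℝ)).toLinearMap a
    rw [hg a ha, map_zero] at h1
    exact h1
  have hb' : ∀ s, (Z (.inr s)).ofLp = Pi.single (lab s) 1 := fun s => by
    rw [hb _ (mem_range_self s)]
    rfl
  refine ⟨fun s s' => c' (.inl s) (.inl s'), fun s => (Z (.inl s)).ofLp, hc, fun s s' h' => ?_,
    fun s s' h' => ?_, fun s => ?_, fun s => ?_⟩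
  · obtain ⟨⟨t, t', e, e', hn⟩, h2⟩ := c1 _ _ h'
    rw [Sum.inl_injective e, Sum.inl_injective e']
    refine ⟨hn, ?_⟩
    rw [e, e', norm_sub_rev] at h2
    have h3 := pow_le_pow_left₀ (half_pos hκ).le h2 2
    rw [EuclideanSpace.real_norm_sq_eq] at h3
    simp only [PiLp.sub_apply] at h3
    linarith only [h3]
  · refine (pi_norm_le_iff_of_nonneg hκ.le).2 fun v => ?_
    exact (PiLp.norm_apply_le (Z (.inl s) - Z (.inl s')) v).trans
      (c2 _ _ ⟨s, s', rfl, rfl, h'⟩)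
  · refine harm_mem hR hA hg' (convex_stdSimplex ℝ K) ?_ (.inl s)
    rintro _ ⟨t, rfl⟩
    rw [hb']
    exact single_mem_stdSimplex ℝ _
  · have h1 := hg' (.inl s) (by simp only [mem_range, reduceCtorEq, exists_false, not_false_eq_true])
    rw [gen_locR, hb'] at h1
    exact h1

variable {lab : D → K} {nb : D → D → Prop} {κ : ℝ} {Φ : D → K → ℝ}

/-- A3. The law lives on the corners of the own disc. Hint: `mem_on` for `locR`, the set of
`inl s'` with `dsc s' = dsc s`, and the `v`-th coordinate. -/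
theorem Law.supp (h : Gated P B gate out) (hL : Law P gate lab nb κ c Φ) {C : Type} {dsc : D → C}
    {kc : K → C} (h1 : ∀ s s', 0 < P (.inl s) (.inl s') → dsc s = dsc s')
    (h2 : ∀ s s', nb s s' → dsc s = dsc s') (h3 : ∀ s, kc (lab s) = dsc s) {s : D} {v : K}
    (hv : kc v ≠ dsc s) : Φ s v = 0 := by
  classical
  have h4 := mem_on (h.locR_nonneg hL.c_nonneg) (h.locR_abs hL.c_nonneg)
    (U := {a | ∃ t, a = .inl t ∧ dsc t = dsc s})
    (disjoint_left.2 (by
      rintro _ ⟨t, rfl, -⟩ ⟨o, ho⟩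
      exact Sum.inr_ne_inl ho))
    (u := Sum.elim (fun t => Φ t v) fun t => (Pi.single (lab t) 1 : K → ℝ) v)
    (by
      rintro _ ⟨t, rfl, -⟩
      have h5 := congrFun (hL.harm t) v
      rw [gen_locR]
      by_cases hg : gate t
      · simpa only [Sum.elim_inl, smul_eq_mul, hg, ↓ reduceIte, Sum.elim_inr, Pi.add_apply, Finset.sum_apply, Pi.smul_apply, Pi.sub_apply, Pi.zero_apply] using h5
      · simpa only [Sum.elim_inl, smul_eq_mul, hg, ↓ reduceIte, add_zero, Pi.add_apply, Finset.sum_apply, Pi.smul_apply, Pi.sub_apply, Pi.zero_apply] using h5) (convex_singleton (0 : ℝ))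
    (by
      rintro _ ⟨t, rfl, ht⟩ (t' | t') hb hU
      · refine absurd ⟨t', rfl, Eq.trans ?_ ht⟩ hU
        rcases lt_or_ge 0 (P (.inl t) (.inl t')) with h5 | h5
        · exact (h1 _ _ h5).symm
        · have h6 : 0 < P (.inl t) (.inl t') + c t t' := hb
          exact (h2 _ _ (hL.c_pos t t' (by linarith)).1).symm
      · have h5 : t' = t := by
          by_contra h5
          simp [locR, h5] at hb
        have h6 : v ≠ lab t' := fun e => hv (by rw [e, h3, h5, ht])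
        simp [h6])
  exact h4 (.inl s) ⟨s, rfl, rfl⟩

variable {E : Type} [NormedAddCommGroup E] [InnerProductSpace ℝ E]

open Classical in
theorem Law.pass_harm (hL : Law P gate lab nb κ c Φ) (s : D) (v : K) :
    ∑ s', (P (.inl s) (.inl s') + c s s') * (Φ s' v - Φ s v) =
      -(if gate s then (if v = lab s then 1 else 0) - Φ s v else 0) := by
  have h := congrFun (hL.harm s) v
  rw [Pi.add_apply, Finset.sum_apply] at h
  simp only [Pi.smul_apply, Pi.sub_apply, smul_eq_mul, Pi.zero_apply] at h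
  rw [eq_neg_iff_add_eq_zero]
  by_cases hg : gate s
  · simpa only [hg, ↓ reduceIte, Pi.sub_apply, Pi.single_apply] using h
  · simpa only [hg, ↓ reduceIte, add_zero, Pi.zero_apply] using h

open Classical in
/-- A4. A passage costs energy. Hint: `min_on` for `locR` on the set `U` of the `inl s` reachable
from `y`, and `w = ‖Z - x‖ ^ 2 + e - d ^ 2 * u`, where `Z (inl s) = Z (inr s) = F s` and `u` is the
mass of the law on `A` (the indicator of `lab s ∈ A` at `inr s`); `gen_norm_sq`. If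
`d ≤ ‖F y - x‖` use `u ≤ 1`. -/
theorem Law.pass (h : Gated P B gate out) (hL : Law P gate lab nb κ c Φ) {F : D → E} {M d : ℝ}
    (hd : 0 ≤ d) {x : E} (hM : ∀ s, ‖F s - x‖ ≤ 2 * M) {e : D ⊕ D → ℝ} (he0 : ∀ a, 0 ≤ e a)
    (he : ∀ s, ∑ s', (P (.inl s) (.inl s') + c s s') * ‖F s' - F s‖ ^ 2 +
      4 * M * ‖∑ s', (P (.inl s) (.inl s') + c s s') • (F s' - F s)‖ ≤
        -gen (locR P gate c) e (.inl s))
    (A : Set K) (y : D)
    (hfar : ‖F y - x‖ < d → ∀ u, gate u → Relation.ReflTransGen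
      (fun s s' => (0 < P (.inl s) (.inl s') ∨ nb s s') ∧ ‖F s' - x‖ < d) y u → lab u ∉ A) :
    d ^ 2 * ∑ v, (if v ∈ A then Φ y v else 0) ≤ ‖F y - x‖ ^ 2 + e (.inl y) := by
  have hu1 : ∀ s, ∑ v, (if v ∈ A then Φ s v else 0) ≤ 1 := fun s => by
    rw [← (hL.simplex s).2]
    refine Finset.sum_le_sum fun v _ => ?_
    split_ifs
    · exact le_rfl
    · exact (hL.simplex s).1 v
  have hfa : ∀ s, d ≤ ‖F s - x‖ →
      d ^ 2 * ∑ v, (if v ∈ A then Φ s v else 0) ≤ ‖F s - x‖ ^ 2 + e (.inl s) := fun s hs => by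
    have h1 : d ^ 2 ≤ ‖F s - x‖ ^ 2 := pow_le_pow_left₀ hd hs 2
    have h2 := mul_le_mul_of_nonneg_left (hu1 s) (sq_nonneg d)
    have h3 := he0 (.inl s)
    linarith
  rcases le_or_gt d ‖F y - x‖ with hy | hy
  · exact hfa y hy
  let Z : D ⊕ D → E := Sum.elim (fun s => F s - x) (fun s => F s - x)
  let u : D ⊕ D → ℝ :=
    Sum.elim (fun s => ∑ v, (if v ∈ A then Φ s v else 0)) (fun s => if lab s ∈ A then 1 else 0)
  let U : Set (D ⊕ D) := Sum.inl '' {s | Relation.ReflTransGen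
      (fun s s' => (0 < P (.inl s) (.inl s') ∨ nb s s') ∧ ‖F s' - x‖ < d) y s}
  have hu : ∀ s, gen (locR P gate c) u (.inl s) = 0 := fun s => by
    rw [gen_locR]
    have h1 : ∑ s', (P (.inl s) (.inl s') + c s s') • (u (.inl s') - u (.inl s)) =
        ∑ v, if v ∈ A then ∑ s', (P (.inl s) (.inl s') + c s s') * (Φ s' v - Φ s v) else 0 := by
      simp only [u, Sum.elim_inl, smul_eq_mul, ← Finset.sum_sub_distrib, Finset.mul_sum]
      rw [Finset.sum_comm]
      refine Finset.sum_congr rfl fun v _ => ?_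
      by_cases hv : v ∈ A <;> simp only [hv, ↓ reduceIte, sub_self, mul_zero, Finset.sum_const_zero]
    rw [h1]
    simp only [hL.pass_harm s, u, Sum.elim_inl, Sum.elim_inr]
    by_cases hg : gate s
    · simp only [hg, if_true]
      have h2 : (if lab s ∈ A then (1 : ℝ) else 0) =
          ∑ v, if v ∈ A then (if v = lab s then (1 : ℝ) else 0) else 0 := by
        rw [Finset.sum_eq_single (lab s)]
        · simp
        · intro v _ hv
          simp [hv]
        · simp only [Finset.mem_univ, not_true_eq_false, ↓ reduceIte, ite_eq_right_iff, one_ne_zero, imp_false, IsEmpty.forall_iff]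
      rw [h2, ← Finset.sum_sub_distrib, ← Finset.sum_add_distrib]
      refine Finset.sum_eq_zero fun v _ => ?_
      by_cases hv : v ∈ A <;> simp [hv]
    · simp only [hg, ↓ reduceIte, neg_zero, ite_self, Finset.sum_const_zero, add_zero]
  have hZ : ∀ s, gen (locR P gate c) (fun b => ‖Z b‖ ^ 2) (.inl s) ≤
      -gen (locR P gate c) e (.inl s) := fun s => by
    refine le_trans ?_ (he s)
    have h1 := gen_norm_sq (fun a b => P (.inl a) (.inl b) + c a b) (fun s => F s - x) s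
    have h2 : gen (locR P gate c) (fun b => ‖Z b‖ ^ 2) (.inl s) =
        gen (fun a b => P (.inl a) (.inl b) + c a b) (fun s => ‖F s - x‖ ^ 2) s := by
      rw [gen_locR]
      simp only [Z, Sum.elim_inl, smul_eq_mul, Sum.elim_inr, sub_self, ite_self, add_zero, gen]
    rw [h2, h1]
    simp only [gen, sub_sub_sub_cancel_right]
    have h3 := real_inner_le_norm (F s - x)
      (∑ s', (P (.inl s) (.inl s') + c s s') • (F s' - F s))
    have h4 := mul_le_mul_of_nonneg_right (hM s)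
      (norm_nonneg (∑ s', (P (.inl s) (.inl s') + c s s') • (F s' - F s)))
    linarith only [h3, h4]
  have key := min_on (U := U) (h.locR_nonneg hL.c_nonneg) (h.locR_abs hL.c_nonneg)
    (w := fun b => 1 * ‖Z b‖ ^ 2 + 1 * e b + (-d ^ 2) * u b + 0) ?_ ?_ ?_ (.inl y)
    ⟨y, Relation.ReflTransGen.refl, rfl⟩
  · simp only [Z, u, Sum.elim_inl] at key
    linarith
  · rw [Set.disjoint_left]
    rintro _ ⟨s, -, rfl⟩ ⟨s', hs'⟩
    cases hs'
  · rintro _ ⟨s, -, rfl⟩
    rw [mix_lin, hu s]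
    have := hZ s
    linarith
  · rintro _ ⟨s, hs, rfl⟩ b hb hbU
    rcases b with s' | s'
    · have h1 : 0 < P (.inl s) (.inl s') ∨ nb s s' := by
        by_cases h0 : 0 < c s s'
        · exact Or.inr (hL.c_pos s s' h0).1
        · left
          have h2 : 0 < P (.inl s) (.inl s') + c s s' := hb
          linarith [not_lt.1 h0]
      have h2 : d ≤ ‖F s' - x‖ := by
        by_contra h3
        exact hbU ⟨s', Relation.ReflTransGen.tail hs ⟨h1, not_le.1 h3⟩, rfl⟩
      have := hfa s' h2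
      simp only [Z, u, Sum.elim_inl]
      linarith
    · have h1 : s' = s ∧ gate s := by
        by_contra h2
        simp only [locR, h2, if_false, lt_self_iff_false] at hb
      obtain ⟨rfl, hg⟩ := h1
      have h2 := hfar hy s' hg hs
      simp only [Z, u, Sum.elim_inr, h2, if_false]
      have := he0 (.inr s')
      have := sq_nonneg ‖F s' - x‖
      linarith

/-- A5. The potential of the mixing jumps is bounded by a potential of the passages. Hint:
`q = 1 - ∑ v, Φ s v ^ 2` on `D`, zero on `O`; `0 ≤ q ≤ 2 (1 - Φ s v)` for every `v`. On `D`,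
`- gen q ≥ κ ^ 2 / 4 * ∑ c` (`Gated.gen_mixR`, expand the squares, `Law.harm`); compare
`4 / κ ^ 2 * (q + 2 k) - p` with zero (`mat_det_min`). -/
theorem Law.mix_le (h : Gated P B gate out) (hL : Law P gate lab nb κ c Φ) (hκ : 0 < κ)
    {elb : O → D → K} {k p : D ⊕ O → ℝ} {J : ℝ} (hk : ∀ a, 0 ≤ k a ∧ k a ≤ J)
    (hk1 : ∀ s, 0 ≤ -gen (mixR P c) k (.inl s))
    (hk2 : ∀ o, o ∉ B → ∑ s, P (.inr o) (.inl s) * (1 - Φ s (elb o s)) ≤
      -gen (mixR P c) k (.inr o))
    (hp0 : ∀ b ∈ B, p (.inr b) = 0) (hp1 : ∀ s, gen (mixR P c) p (.inl s) = -∑ s', c s s')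
    (hp2 : ∀ o, o ∉ B → gen (mixR P c) p (.inr o) = 0) (a : D ⊕ O) :
    p a ≤ 4 / κ ^ 2 * (1 + 2 * J) := by
  classical
  let q : D ⊕ O → ℝ := Sum.elim (fun s => 1 - ∑ v, Φ s v ^ 2) (fun _ => 0)
  have hκ2 : 0 < 4 / κ ^ 2 := by positivity
  have hsq : ∀ s v, Φ s v ^ 2 ≤ ∑ v, Φ s v ^ 2 := fun s v =>
    Finset.single_le_sum (f := fun v => Φ s v ^ 2) (fun v _ => sq_nonneg _) (Finset.mem_univ v)
  have hq1 : ∀ b, q b ≤ 1 := by
    rintro (s | o)
    · have : 0 ≤ ∑ v, Φ s v ^ 2 := Finset.sum_nonneg fun v _ => sq_nonneg _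
      simp only [q, Sum.elim_inl]
      linarith
    · simp only [q, Sum.elim_inr, zero_le_one]
  have hq2 : ∀ s v, q (.inl s) ≤ 2 * (1 - Φ s v) := fun s v => by
    have h1 := hsq s v
    have h2 := sq_nonneg (1 - Φ s v)
    simp only [q, Sum.elim_inl]
    nlinarith
  have hD : ∀ s, gen (mixR P c) q (.inl s) ≤ -(κ ^ 2 / 4 * ∑ s', c s s') := fun s => by
    rw [h.gen_mixR]
    have h1 : ∑ s', (P (.inl s) (.inl s') + c s s') • (q (.inl s') - q (.inl s)) =
        -(∑ s', (P (.inl s) (.inl s') + c s s') * ∑ v, (Φ s' v - Φ s v) ^ 2) -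
          2 * ∑ v, Φ s v * ∑ s', (P (.inl s) (.inl s') + c s s') * (Φ s' v - Φ s v) := by
      simp only [q, Sum.elim_inl, smul_eq_mul, sub_sub_sub_cancel_left, Finset.mul_sum,
        ← Finset.sum_sub_distrib, ← Finset.sum_neg_distrib]
      rw [Finset.sum_comm (s := Finset.univ (α := K)), ← Finset.sum_sub_distrib]
      refine Finset.sum_congr rfl fun s' _ => ?_
      rw [← Finset.sum_sub_distrib]
      exact Finset.sum_congr rfl fun v _ => by ring
    have h2 : κ ^ 2 / 4 * ∑ s', c s s' ≤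
        ∑ s', (P (.inl s) (.inl s') + c s s') * ∑ v, (Φ s' v - Φ s v) ^ 2 := by
      rw [Finset.mul_sum]
      refine Finset.sum_le_sum fun s' _ => ?_
      have h3 : 0 ≤ ∑ v, (Φ s' v - Φ s v) ^ 2 := Finset.sum_nonneg fun v _ => sq_nonneg _
      have h4 := mul_nonneg (h.nonneg (.inl s) (.inl s')) h3
      rcases (hL.c_nonneg s s').eq_or_lt with h0 | h0
      · rw [← h0]
        linarith only [h4]
      · have h5 := mul_le_mul_of_nonneg_left (hL.c_pos s s' h0).2 h0.le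
        linarith
    rw [h1]
    simp only [hL.pass_harm s]
    by_cases hg : gate s
    · simp only [hg, if_true, q, Sum.elim_inl, Sum.elim_inr]
      have h3 : ∑ v, Φ s v * -((if v = lab s then 1 else 0) - Φ s v) =
          ∑ v, Φ s v ^ 2 - Φ s (lab s) := by
        have h4 : Φ s (lab s) = ∑ v, Φ s v * (if v = lab s then 1 else 0) := by simp only [mul_ite, mul_one, mul_zero, Finset.sum_ite_eq', Finset.mem_univ, ↓ reduceIte]
        rw [h4, ← Finset.sum_sub_distrib]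
        exact Finset.sum_congr rfl fun v _ => by ring
      rw [h3]
      have h4 := hsq s (lab s)
      have h5 := sq_nonneg (1 - Φ s (lab s))
      nlinarith
    · simp only [hg, if_false, neg_zero, mul_zero, Finset.sum_const_zero]
      linarith
  have hO : ∀ o, gen (mixR P c) q (.inr o) ≤
      2 * ∑ s, P (.inr o) (.inl s) * (1 - Φ s (elb o s)) := fun o => by
    rw [gen_mixR_inr, gen, Fintype.sum_sum_type, Finset.mul_sum]
    have h1 : ∑ o', P (.inr o) (.inr o') • (q (.inr o') - q (.inr o)) = 0 := by simp only [q, Sum.elim_inr, sub_self, smul_eq_mul, mul_zero, Finset.sum_const_zero]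
    rw [h1, add_zero]
    refine Finset.sum_le_sum fun s _ => ?_
    have h2 := mul_le_mul_of_nonneg_left (hq2 s (elb o s)) (h.nonneg (.inr o) (.inl s))
    have h3 : q (.inr o) = 0 := rfl
    rw [h3, smul_eq_mul]
    linarith
  have key := mat_det_min (h.mixR_nonneg hL.c_nonneg) (h.mixR_abs hL.c_nonneg)
    (u := fun b => 4 / κ ^ 2 * q b + 4 / κ ^ 2 * 2 * k b + (-1) * p b + 0) ?_ ?_ a
  · have h1 := mul_le_mul_of_nonneg_left (hq1 a) hκ2.le
    have h2 := mul_le_mul_of_nonneg_left (hk a).2 hκ2.le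
    linarith
  · rintro (s | o) hb
    · rw [mix_lin, hp1 s]
      have h1 := mul_le_mul_of_nonneg_left (hD s) hκ2.le
      have h2 := mul_nonneg hκ2.le (hk1 s)
      have h3 : 4 / κ ^ 2 * -(κ ^ 2 / 4 * ∑ s', c s s') = -∑ s', c s s' := by
        field_simp
      linarith
    · have ho : o ∉ B := fun ho => hb ⟨o, ho, rfl⟩
      rw [mix_lin, hp2 o ho]
      have h1 := mul_le_mul_of_nonneg_left (hO o) hκ2.le
      have h2 := mul_le_mul_of_nonneg_left (hk2 o ho) hκ2.le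
      linarith
  · rintro _ ⟨o, ho, rfl⟩
    have h1 := mul_nonneg hκ2.le (hk (.inr o)).1
    have h3 : q (.inr o) = 0 := rfl
    rw [hp0 o ho, h3]
    linarith

open Classical in
theorem Law.passages_ind (h : Gated P B gate out) (hL : Law P gate lab nb κ c Φ) {A : Set K}
    {Q : Set O} (hA : ∀ u, gate u → lab u ∈ A → out u ∈ Q) :
    ∃ ι : D ⊕ O → ℝ, (∀ a, 0 ≤ ι a ∧ ι a ≤ 1) ∧ (∀ s, gen (mixR P c) ι (.inl s) ≤ 0) ∧
      (∀ o, o ∉ Q → ∑ s, P (.inr o) (.inl s) * ∑ v, (if v ∈ A then Φ s v else 0) ≤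
        -gen P ι (.inr o)) ∧ ∀ o, gen P ι (.inr o) ≤ ∑ v, P (.inr o) v := by
  have hm : ∀ s, 0 ≤ ∑ v, (if v ∈ A then Φ s v else 0) ∧
      ∑ v, (if v ∈ A then Φ s v else 0) ≤ 1 := fun s => by
    have h0 := (hL.simplex s).1
    refine ⟨Finset.sum_nonneg fun v _ => ?_, (Finset.sum_le_sum fun v _ => ?_).trans
      (hL.simplex s).2.le⟩ <;> split_ifs
    exacts [h0 v, le_rfl, le_rfl, h0 v]
  obtain ⟨ι, h1, h2⟩ : ∃ ι : D ⊕ O → ℝ,
      (∀ s, ι (.inl s) = 1 - ∑ v, (if v ∈ A then Φ s v else 0)) ∧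
        ∀ o, ι (.inr o) = if o ∈ Q then 0 else 1 :=
    ⟨Sum.elim _ _, fun _ => rfl, fun _ => rfl⟩
  have hι : ∀ a, 0 ≤ ι a ∧ ι a ≤ 1 := by
    rintro (s | o)
    · rw [h1]
      constructor <;> linarith [hm s]
    · rw [h2]
      split_ifs <;> norm_num
  refine ⟨ι, hι, fun s => ?_, fun o ho => ?_, fun o => ?_⟩
  · have h3 : ∑ s', (P (.inl s) (.inl s') + c s s') • (ι (.inl s') - ι (.inl s)) =
        ∑ v, if v ∈ A then (if gate s then Pi.single (lab s) 1 - Φ s else 0 : K → ℝ) v else 0 := by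
      have h4 : ∀ v, (if gate s then Pi.single (lab s) 1 - Φ s else 0 : K → ℝ) v =
          ∑ s', (P (.inl s) (.inl s') + c s s') * (Φ s v - Φ s' v) := fun v => by
        have h5 := congrFun (hL.harm s) v
        rw [Pi.add_apply, Finset.sum_apply, Pi.zero_apply, add_eq_zero_iff_eq_neg'] at h5
        rw [h5, ← Finset.sum_neg_distrib]
        refine Finset.sum_congr rfl fun s' _ => ?_
        simp only [Pi.smul_apply, Pi.sub_apply, smul_eq_mul]
        ring
      simp only [h1, h4, smul_eq_mul, sub_sub_sub_cancel_left, ← Finset.sum_sub_distrib,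
        Finset.mul_sum]
      rw [Finset.sum_comm]
      refine Finset.sum_congr rfl fun v _ => ?_
      split_ifs <;> simp only [sub_self, mul_zero, Finset.sum_const_zero]
    rw [h.gen_mixR, h3]
    by_cases hs : gate s
    · have h4 : (∑ v, if v ∈ A then (Pi.single (lab s) 1 - Φ s : K → ℝ) v else 0) =
          (if lab s ∈ A then 1 else 0) - ∑ v, (if v ∈ A then Φ s v else 0) := by
        rw [eq_sub_iff_add_eq, ← Finset.sum_add_distrib, Finset.sum_eq_single (lab s)]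
        · split_ifs <;> simp
        · intro v _ hv
          split_ifs <;> simp [hv]
        · simp only [Finset.mem_univ, not_true_eq_false, Pi.sub_apply, Pi.single_eq_same, IsEmpty.forall_iff]
      simp only [if_pos hs]
      rw [h4, h1, h2]
      by_cases hl : lab s ∈ A
      · rw [if_pos hl, if_pos (hA s hs hl)]
        linarith
      · rw [if_neg hl]
        split_ifs <;> linarith
    · simp only [hs, ↓ reduceIte, Pi.zero_apply, ite_self, Finset.sum_const_zero, add_zero, Std.le_refl]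
  · rw [gen, ← Finset.sum_neg_distrib, Fintype.sum_sum_type]
    refine le_add_of_le_of_nonneg (Finset.sum_le_sum fun s _ => le_of_eq ?_)
      (Finset.sum_nonneg fun o' _ => ?_)
    · rw [h1, h2, if_neg ho, smul_eq_mul]
      ring
    · rw [h2 o, if_neg ho, smul_eq_mul, ← mul_neg]
      exact mul_nonneg (h.nonneg _ _) (by linarith [(hι (.inr o')).2])
  · refine Finset.sum_le_sum fun b _ => ?_
    rw [smul_eq_mul]
    exact mul_le_of_le_one_right (h.nonneg _ _) (by linarith [(hι b).2, (hι (.inr o)).1])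

theorem Law.passages_en (h : Gated P B gate out) (hc : ∀ s s', 0 ≤ c s s') {F : D ⊕ O → E}
    {M : ℝ} {kd : D ⊕ O → ℝ} (hM : ∀ a, ‖F a‖ ≤ M)
    (hFg : ∀ u, gate u → F (.inr (out u)) = F (.inl u)) (hkd : ∀ a, 0 ≤ kd a)
    (hdr : ∀ a, a ∉ Sum.inr '' B → ‖gen (mixR P c) F a‖ ≤ -gen (mixR P c) kd a) :
    ∃ (e : D ⊕ D → ℝ) (w : D ⊕ O → ℝ), (∀ a, 0 ≤ e a) ∧
      (∀ s, ∑ s', (P (.inl s) (.inl s') + c s s') * ‖F (.inl s') - F (.inl s)‖ ^ 2 +
        4 * M * ‖∑ s', (P (.inl s) (.inl s') + c s s') • (F (.inl s') - F (.inl s))‖ ≤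
          -gen (locR P gate c) e (.inl s)) ∧
      (∀ a, 0 ≤ w a ∧ w a ≤ M ^ 2 + 6 * M * kd a) ∧ (∀ s, gen (mixR P c) w (.inl s) ≤ 0) ∧
      ∀ o, o ∉ B → ∑ s, P (.inr o) (.inl s) * (‖F (.inl s) - F (.inr o)‖ ^ 2 + e (.inl s)) ≤
        -gen (mixR P c) w (.inr o) := by
  classical
  have hM0 : ∀ a : D ⊕ O, 0 ≤ M := fun a => (norm_nonneg _).trans (hM a)
  obtain ⟨e, he0, he⟩ := exists_pot (h.locR_nonneg hc) (h.locR_abs hc) (Sum.elim (fun s =>
    ∑ s', (P (.inl s) (.inl s') + c s s') * ‖F (.inl s') - F (.inl s)‖ ^ 2 +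
      4 * M * ‖∑ s', (P (.inl s) (.inl s') + c s s') • (F (.inl s') - F (.inl s))‖) fun _ => 0)
  have he1 := fun s => he (.inl s) (by simp only [mem_range, reduceCtorEq, exists_false, not_false_eq_true])
  simp only [Sum.elim_inl] at he1
  have hen : ∀ a, 0 ≤ e a := by
    refine mat_det_min (h.locR_nonneg hc) (h.locR_abs hc) ?_ fun b hb => (he0 b hb).ge
    rintro (s | s) ha
    · rw [he1, neg_nonpos]
      have := hM0 (.inl s)
      exact add_nonneg (Finset.sum_nonneg fun s' _ =>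
        mul_nonneg (add_nonneg (h.nonneg _ _) (hc _ _)) (sq_nonneg _)) (by positivity)
    · exact absurd ⟨s, rfl⟩ ha
  obtain ⟨e', h1, h2⟩ : ∃ e' : D ⊕ O → ℝ, (∀ s, e' (.inl s) = e (.inl s)) ∧ ∀ o, e' (.inr o) = 0 :=
    ⟨Sum.elim _ _, fun _ => rfl, fun _ => rfl⟩
  have hw : ∀ a, a ∉ Sum.inr '' B →
      ∑ b, mixR P c a b * ‖F b - F a‖ ^ 2 + 4 * M * ‖gen (mixR P c) F a‖ + gen (mixR P c) e' a ≤
        -gen (mixR P c) (fun b => -1 * ‖F b‖ ^ 2 + 6 * M * kd b + -1 * e' b + M ^ 2) a := by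
    intro a ha
    have h3 := mix_inner (mixR P c) (hM a) (le_refl ‖gen (mixR P c) F a‖)
    have h4 := mul_le_mul_of_nonneg_left (hdr a ha) (hM0 a)
    rw [mix_lin]
    linarith
  have hl : ∀ s, gen (mixR P c) (fun b => -1 * ‖F b‖ ^ 2 + 6 * M * kd b + -1 * e' b + M ^ 2)
      (.inl s) ≤ 0 := fun s => by
    have h3 := hw (.inl s) (by simp only [mem_image, reduceCtorEq, and_false, exists_false, not_false_eq_true])
    have h4 : ∑ b, mixR P c (.inl s) b * ‖F b - F (.inl s)‖ ^ 2 =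
        ∑ s', (P (.inl s) (.inl s') + c s s') * ‖F (.inl s') - F (.inl s)‖ ^ 2 := by
      have h5 := h.gen_mixR (c := c) (fun b => ‖F b - F (.inl s)‖ ^ 2) s
      by_cases hs : gate s
      · simpa only [Fintype.sum_sum_type, gen, sub_self, norm_zero, ne_eq, OfNat.ofNat_ne_zero, not_false_eq_true, zero_pow, sub_zero, smul_eq_mul, hs, ↓ reduceIte, hFg s hs, add_zero] using h5
      · simpa only [Fintype.sum_sum_type, gen, sub_self, norm_zero, ne_eq, OfNat.ofNat_ne_zero, not_false_eq_true, zero_pow, sub_zero, smul_eq_mul, hs, ↓ reduceIte, add_zero] using h5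
    have h5 : gen (mixR P c) F (.inl s) =
        ∑ s', (P (.inl s) (.inl s') + c s s') • (F (.inl s') - F (.inl s)) := by
      rw [h.gen_mixR]
      by_cases hs : gate s
      · rw [if_pos hs, hFg s hs, sub_self, add_zero]
      · rw [if_neg hs, add_zero]
    have h6 : gen (mixR P c) e' (.inl s) = gen (locR P gate c) e (.inl s) := by
      rw [h.gen_mixR, gen_locR, he0 (.inr s) ⟨s, rfl⟩]
      simp only [h1, h2]
    rw [h4, h5, h6, he1] at h3
    linarith only [h3]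
  have hr : ∀ o, o ∉ B →
      ∑ s, P (.inr o) (.inl s) * (‖F (.inl s) - F (.inr o)‖ ^ 2 + e (.inl s)) ≤
        -gen (mixR P c) (fun b => -1 * ‖F b‖ ^ 2 + 6 * M * kd b + -1 * e' b + M ^ 2) (.inr o) := by
    intro o ho
    refine le_trans ?_ (hw (.inr o) (by simpa only [mem_image, Sum.inr.injEq, exists_eq_right] using ho))
    have h3 : gen (mixR P c) e' (.inr o) = ∑ s, P (.inr o) (.inl s) * e (.inl s) := by
      simp only [gen, mixR, h2, sub_zero, smul_eq_mul, Fintype.sum_sum_type, h1, mul_zero, Finset.sum_const_zero, add_zero]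
    have h4 : ∑ s, P (.inr o) (.inl s) * ‖F (.inl s) - F (.inr o)‖ ^ 2 ≤
        ∑ b, mixR P c (.inr o) b * ‖F b - F (.inr o)‖ ^ 2 := by
      rw [Fintype.sum_sum_type]
      exact le_add_of_nonneg_right (Finset.sum_nonneg fun o' _ =>
        mul_nonneg (h.nonneg _ _) (sq_nonneg _))
    have h5 : 0 ≤ 4 * M * ‖gen (mixR P c) F (.inr o)‖ := by
      have := hM0 (.inr o)
      positivity
    simp only [mul_add, Finset.sum_add_distrib]
    linarith
  refine ⟨e, _, hen, fun s => by rw [he1, neg_neg], fun a => ⟨?_, ?_⟩, hl, hr⟩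
  · refine mat_det_min (h.mixR_nonneg hc) (h.mixR_abs hc)
      (u := fun b => -1 * ‖F b‖ ^ 2 + 6 * M * kd b + -1 * e' b + M ^ 2) ?_ ?_ a
    · rintro (s | o) ha
      · exact hl s
      · refine neg_nonneg.1 (le_trans (Finset.sum_nonneg fun s _ => ?_) (hr o (by simpa only [mem_image, Sum.inr.injEq, exists_eq_right] using ha)))
        exact mul_nonneg (h.nonneg _ _) (add_nonneg (sq_nonneg _) (hen _))
    · rintro _ ⟨o, -, rfl⟩
      have h3 := pow_le_pow_left₀ (norm_nonneg _) (hM (.inr o)) 2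
      have h4 := mul_nonneg (hM0 (.inr o)) (hkd (.inr o))
      simp only [h2]
      linarith
  · have h3 : 0 ≤ e' a := by
      rcases a with s | o
      exacts [h1 s ▸ hen _, (h2 o).ge]
    linarith [sq_nonneg ‖F a‖]

/-- A6. The potential of the passages, given a potential `kd` of the drift and a potential `p` of
the mixing jumps. Hint: `k = ι + χ + 2 kT + 2 ρT p + (ψ - e) / d ^ 2` with
`ι = 1 - (mass on Kd)` on `D`, the indicator of `Bᶜ` on `O`; `χ = 1 - (mass on Kc)` on `D`, the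
indicator of `Cutᶜ` on `O`; `ψ = M ^ 2 - ‖F‖ ^ 2 + 6 M kd`; `e` the potential (`exists_pot` for
`locR`) of the left side of `he` in `Law.pass`, read on `D` and zero on `O`. `ψ - e ≥ 0` by
`mat_det_min`. Off `Cut` use `Law.pass` with `A = {v | v ∉ Kd, v ∉ Kc, v ≠ elb o y}`. -/
theorem Law.passages (h : Gated P B gate out) (hL : Law P gate lab nb κ c Φ) {F : D ⊕ O → E}
    {M ρT θ JT n d : ℝ} {Cut : Set O} {Kd Kc : Set K} {elb : O → D → K} {kd kT p : D ⊕ O → ℝ}
    (hM : ∀ a, ‖F a‖ ≤ M) (hFg : ∀ u, gate u → F (.inr (out u)) = F (.inl u))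
    (hkd : ∀ a, 0 ≤ kd a ∧ kd a ≤ θ)
    (hdr : ∀ a, a ∉ Sum.inr '' B → ‖gen (mixR P c) F a‖ ≤ -gen (mixR P c) kd a)
    (hkT : ∀ a, 0 ≤ kT a ∧ kT a ≤ JT) (hT0 : ∀ a, a ∉ Sum.inr '' B → 0 ≤ -gen P kT a)
    (hT1 : ∀ o ∈ Cut, o ∉ B → ∑ v, P (.inr o) v ≤ -gen P kT (.inr o))
    (hnb : ∀ s s', nb s s' → |kT (.inl s) - kT (.inl s')| ≤ ρT) (hρT : 0 ≤ ρT)
    (hp : ∀ a, 0 ≤ p a ∧ p a ≤ n) (hp1 : ∀ s, gen (mixR P c) p (.inl s) = -∑ s', c s s')
    (hp2 : ∀ o, o ∉ B → gen (mixR P c) p (.inr o) = 0)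
    (hKd : ∀ u, gate u → lab u ∈ Kd → out u ∈ B) (hKc : ∀ u, gate u → lab u ∈ Kc → out u ∈ Cut)
    (hfar : ∀ o, o ∉ B → o ∉ Cut → ∀ y, 0 < P (.inr o) (.inl y) →
      ‖F (.inl y) - F (.inr o)‖ < d → ∀ u, gate u → lab u ∉ Kd → lab u ∉ Kc →
      Relation.ReflTransGen (fun s s' => (0 < P (.inl s) (.inl s') ∨ nb s s') ∧
        ‖F (.inl s') - F (.inr o)‖ < d) y u → lab u = elb o y) (hd : 0 < d) :
    ∃ k : D ⊕ O → ℝ,
      (∀ a, 0 ≤ k a ∧ k a ≤ 2 + 2 * JT + 2 * ρT * n + (M ^ 2 + 6 * M * θ) / d ^ 2) ∧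
      (∀ s, 0 ≤ -gen (mixR P c) k (.inl s)) ∧
      ∀ o, o ∉ B → ∑ s, P (.inr o) (.inl s) * (1 - Φ s (elb o s)) ≤
        -gen (mixR P c) k (.inr o) := by
  classical
  have hc := hL.c_nonneg
  have hM0 : ∀ a : D ⊕ O, 0 ≤ M := fun a => (norm_nonneg _).trans (hM a)
  have hd2 : 0 < 1 / d ^ 2 := by positivity
  obtain ⟨ι, i0, i1, i2, -⟩ := hL.passages_ind h hKd
  obtain ⟨χ, c0, c1, c2, c3⟩ := hL.passages_ind h hKc
  obtain ⟨e, w, e0, e1, w0, w1, w2⟩ := Law.passages_en h hc hM hFg (fun a => (hkd a).1) hdr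
  have hg : ∀ a, gen (mixR P c)
      (fun b => (ι b + χ b) + (2 * kT b + 2 * ρT * p b + 1 / d ^ 2 * w b + 0)) a =
      gen (mixR P c) ι a + gen (mixR P c) χ a + (2 * gen (mixR P c) kT a +
        2 * ρT * gen (mixR P c) p a + 1 / d ^ 2 * gen (mixR P c) w a) := fun a => by
    rw [gen_add, gen_add, mix_lin]
  refine ⟨fun b => (ι b + χ b) + (2 * kT b + 2 * ρT * p b + 1 / d ^ 2 * w b + 0),
    fun a => ?_, fun s => ?_, fun o ho => ?_⟩
  · have h1 := mul_le_mul_of_nonneg_left (hp a).2 hρT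
    have h2 := mul_nonneg hρT (hp a).1
    have h3 := mul_nonneg hd2.le (w0 a).1
    have h4 := mul_le_mul_of_nonneg_left (hkd a).2 (hM0 a)
    have h5 : 1 / d ^ 2 * w a ≤ (M ^ 2 + 6 * M * θ) / d ^ 2 := by
      rw [one_div_mul_eq_div]
      exact div_le_div_of_nonneg_right (by linarith only [w0 a, h4]) (sq_nonneg d)
    constructor <;> linarith only [i0 a, c0 a, hkT a, h2, h3, h1, h5]
  · have h1 := mix_norm (hc s) (u := fun s' => kT (.inl s')) (ρ := ρT) fun b hb => by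
      rw [Real.norm_eq_abs, abs_sub_comm]
      exact hnb _ _ (hL.c_pos _ _ hb).1
    have h2 := (le_abs_self _).trans h1
    have h3 := mul_le_mul_of_nonneg_left (w1 s) hd2.le
    rw [hg, gen_mixR_inl kT, hp1]
    linarith [i1 s, c1 s, hT0 (.inl s) (by simp only [mem_image, reduceCtorEq, and_false, exists_false, not_false_eq_true])]
  · have hP := h.nonneg (.inr o)
    have hΦ := fun s => (hL.simplex s).1
    have m0 : ∀ A : Set K, 0 ≤ ∑ s, P (.inr o) (.inl s) * ∑ v, (if v ∈ A then Φ s v else 0) :=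
      fun A => Finset.sum_nonneg fun s _ => mul_nonneg (hP _) (Finset.sum_nonneg fun v _ => by
        split_ifs
        exacts [hΦ s v, le_rfl])
    have h1 := mul_le_mul_of_nonneg_left (w2 o ho) hd2.le
    have h2 := i2 o ho
    rw [hg, hp2 o ho, gen_mixR_inr ι, gen_mixR_inr χ, gen_mixR_inr kT]
    by_cases hC : o ∈ Cut
    · have h3 : ∑ s, P (.inr o) (.inl s) * (1 - Φ s (elb o s)) ≤ ∑ v, P (.inr o) v := by
        rw [Fintype.sum_sum_type]
        exact le_add_of_le_of_nonneg (Finset.sum_le_sum fun s _ =>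
          mul_le_of_le_one_right (hP _) (by linarith only [hΦ s (elb o s)]))
          (Finset.sum_nonneg fun _ _ => hP _)
      have h4 : 0 ≤ 1 / d ^ 2 * ∑ s, P (.inr o) (.inl s) *
          (‖F (.inl s) - F (.inr o)‖ ^ 2 + e (.inl s)) := mul_nonneg hd2.le
        (Finset.sum_nonneg fun s _ => mul_nonneg (hP _) (add_nonneg (sq_nonneg _) (e0 _)))
      linarith [c3 o, hT1 o hC ho, m0 Kd]
    · have h3 : ∑ s, P (.inr o) (.inl s) * (1 - Φ s (elb o s)) ≤
          ∑ s, P (.inr o) (.inl s) * ∑ v, (if v ∈ Kd then Φ s v else 0) +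
          ∑ s, P (.inr o) (.inl s) * ∑ v, (if v ∈ Kc then Φ s v else 0) +
          1 / d ^ 2 * ∑ s, P (.inr o) (.inl s) * (‖F (.inl s) - F (.inr o)‖ ^ 2 + e (.inl s)) := by
        rw [Finset.mul_sum, ← Finset.sum_add_distrib, ← Finset.sum_add_distrib]
        refine Finset.sum_le_sum fun y _ => ?_
        rcases (hP (.inl y)).eq_or_lt with h0 | h0
        · simp only [← h0, zero_mul, add_zero, one_div, mul_zero, Std.le_refl]
        rw [mul_left_comm, ← mul_add, ← mul_add]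
        refine mul_le_mul_of_nonneg_left ?_ h0.le
        have h4 := hL.pass h (F := fun s => F (.inl s)) (x := F (.inr o)) hd.le
          (fun s => (norm_sub_le _ _).trans (by linarith only [hM (.inl s), hM (.inr o)])) e0 e1
          {v | v ∉ Kd ∧ v ∉ Kc ∧ v ≠ elb o y} y fun h5 u hu hr hA =>
            hA.2.2 (hfar o ho hC y h0 h5 u hu hA.1 hA.2.1 hr)
        rw [mul_comm, ← le_div_iff₀ (by positivity), ← one_div_mul_eq_div] at h4
        refine le_trans ?_ (add_le_add le_rfl h4)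
        rw [← (hL.simplex y).2, sub_le_iff_le_add, ← Finset.sum_add_distrib,
          ← Finset.sum_add_distrib, ← Fintype.sum_ite_eq' (elb o y) (Φ y),
          ← Finset.sum_add_distrib]
        refine Finset.sum_le_sum fun v _ => ?_
        have h5 := hΦ y v
        simp only [mem_ofPred_eq]
        split_ifs <;> first | linarith only [h5] | tauto
      linarith [c2 o hC, hT0 (.inr o) (by simpa only [mem_image, Sum.inr.injEq, exists_eq_right] using ho)]

/-- A7. Hint: `p` from `exists_pot` for `mixR` with the source `∑ c` on `D` and zero on `O`;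
`p ≥ 0`; `n` its maximum. `kd = k₀ + 2 ρ p` (`gen_mixR_inl`, `mix_norm`), `Law.passages` with
`θ + 2 ρ n`, `Law.mix_le`: `n ≤ 4 / κ ^ 2 * (1 + 2 J) + n / 2`. -/
theorem Law.acc (h : Gated P B gate out) (hL : Law P gate lab nb κ c Φ) {F : D ⊕ O → E}
    {M ρ ρT θ JT J d : ℝ} {Cut : Set O} {Kd Kc : Set K} {elb : O → D → K} {k₀ kT : D ⊕ O → ℝ}
    (hM : ∀ a, ‖F a‖ ≤ M) (hFg : ∀ u, gate u → F (.inr (out u)) = F (.inl u))
    (hk₀ : ∀ a, 0 ≤ k₀ a ∧ k₀ a ≤ θ) (hdr : ∀ a, a ∉ Sum.inr '' B → ‖gen P F a‖ ≤ -gen P k₀ a)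
    (hkT : ∀ a, 0 ≤ kT a ∧ kT a ≤ JT) (hT0 : ∀ a, a ∉ Sum.inr '' B → 0 ≤ -gen P kT a)
    (hT1 : ∀ o ∈ Cut, o ∉ B → ∑ v, P (.inr o) v ≤ -gen P kT (.inr o))
    (hnb : ∀ s s', nb s s' → ‖F (.inl s) - F (.inl s')‖ ≤ ρ ∧
      |k₀ (.inl s) - k₀ (.inl s')| ≤ ρ ∧ |kT (.inl s) - kT (.inl s')| ≤ ρT)
    (hKd : ∀ u, gate u → lab u ∈ Kd → out u ∈ B) (hKc : ∀ u, gate u → lab u ∈ Kc → out u ∈ Cut)
    (hfar : ∀ o, o ∉ B → o ∉ Cut → ∀ y, 0 < P (.inr o) (.inl y) →
      ‖F (.inl y) - F (.inr o)‖ < d → ∀ u, gate u → lab u ∉ Kd → lab u ∉ Kc →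
      Relation.ReflTransGen (fun s s' => (0 < P (.inl s) (.inl s') ∨ nb s s') ∧
        ‖F (.inl s') - F (.inr o)‖ < d) y u → lab u = elb o y)
    (hd : 0 < d) (hκ : 0 < κ) (hM0 : 0 ≤ M) (hρ : 0 ≤ ρ) (hρT : 0 ≤ ρT) (hθ : 0 ≤ θ)
    (hJT : 0 ≤ JT) (hsm : 8 / κ ^ 2 * (12 * M * ρ / d ^ 2 + 2 * ρT) ≤ 1 / 2)
    (hJ : J = 2 + 2 * JT + (M ^ 2 + 6 * M * θ) / d ^ 2) :
    (∃ k : D ⊕ O → ℝ, (∀ a, 0 ≤ k a ∧ k a ≤ θ + 16 * ρ * (1 + 2 * J) / κ ^ 2) ∧
      ∀ a, a ∉ Sum.inr '' B → ‖gen (mixR P c) F a‖ ≤ -gen (mixR P c) k a) ∧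
    ∃ k : D ⊕ O → ℝ, (∀ a, 0 ≤ k a ∧ k a ≤ 2 * J + 1) ∧ (∀ s, 0 ≤ -gen (mixR P c) k (.inl s)) ∧
      ∀ o, o ∉ B → ∑ s, P (.inr o) (.inl s) * (1 - Φ s (elb o s)) ≤
        -gen (mixR P c) k (.inr o) := by
  rcases isEmpty_or_nonempty (D ⊕ O) with hE | hE
  · exact ⟨⟨fun _ => 0, fun a => hE.elim a, fun a => hE.elim a⟩, fun _ => 0, fun a => hE.elim a,
      fun s => hE.elim (.inl s), fun o => hE.elim (.inr o)⟩
  have hR := h.mixR_nonneg hL.c_nonneg
  have hA := h.mixR_abs hL.c_nonneg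
  obtain ⟨p, hp0, hp⟩ := exists_pot hR hA (Sum.elim (fun s => ∑ s', c s s') fun _ => 0)
  have hc : ∀ s, 0 ≤ ∑ s', c s s' := fun s => Finset.sum_nonneg fun s' _ => hL.c_nonneg s s'
  have hp1 : ∀ s, gen (mixR P c) p (.inl s) = -∑ s', c s s' := fun s =>
    hp (.inl s) (by simp only [mem_image, reduceCtorEq, and_false, exists_false, not_false_eq_true])
  have hp2 : ∀ o, o ∉ B → gen (mixR P c) p (.inr o) = 0 := fun o ho => by
    rw [hp (.inr o) (by simpa only [mem_image, Sum.inr.injEq, exists_eq_right] using ho)]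
    simp only [Sum.elim_inr, neg_zero]
  have hpn : ∀ a, 0 ≤ p a := mat_det_min hR hA (fun a ha => by
    rcases a with s | o
    · rw [hp1]
      linarith only [hc s]
    · exact (hp2 o fun ho => ha ⟨o, ho, rfl⟩).le) fun b hb => (hp0 b hb).ge
  obtain ⟨a₀, ha₀⟩ := Finite.exists_max p
  have hkd : ∀ a, 0 ≤ k₀ a + 2 * ρ * p a ∧ k₀ a + 2 * ρ * p a ≤ θ + 2 * ρ * p a₀ := fun a => by
    have h1 := mul_nonneg hρ (hpn a)
    have h2 := mul_le_mul_of_nonneg_left (ha₀ a) hρ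
    have h3 := hk₀ a
    constructor <;> linarith only [h3.1, h3.2, h1, h2]
  have hdr' : ∀ a, a ∉ Sum.inr '' B →
      ‖gen (mixR P c) F a‖ ≤ -gen (mixR P c) (fun a => k₀ a + 2 * ρ * p a) a := fun a ha => by
    rw [gen_add, gen_mul]
    have h0 := hdr a ha
    rcases a with s | o
    · rw [hp1, gen_mixR_inl, gen_mixR_inl]
      have h1 : ‖gen c (fun s' => F (.inl s')) s‖ ≤ ρ * ∑ s', c s s' :=
        mix_norm (hL.c_nonneg s) fun b hb => by
          rw [norm_sub_rev]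
          exact (hnb s b (hL.c_pos s b hb).1).1
      have h2 : ‖gen c (fun s' => k₀ (.inl s')) s‖ ≤ ρ * ∑ s', c s s' :=
        mix_norm (hL.c_nonneg s) fun b hb => by
          rw [norm_sub_rev]
          exact (hnb s b (hL.c_pos s b hb).1).2.1
      have h3 := le_abs_self (gen c (fun s' => k₀ (.inl s')) s)
      rw [Real.norm_eq_abs] at h2
      have h4 := norm_add_le (gen P F (.inl s)) (gen c (fun s' => F (.inl s')) s)
      linarith only [h0, h1, h2, h3, h4]
    · rw [hp2 o fun ho => ha ⟨o, ho, rfl⟩, gen_mixR_inr, gen_mixR_inr]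
      linarith only [h0]
  obtain ⟨k, hk, hk1, hk2⟩ := hL.passages h hM hFg hkd hdr' hkT hT0 hT1
    (fun s s' hs => (hnb s s' hs).2.2) hρT (fun a => ⟨hpn a, ha₀ a⟩) hp1 hp2 hKd hKc hfar hd
  have hn := hL.mix_le h hκ hk hk1 hk2 (fun b hb => hp0 _ ⟨b, hb, rfl⟩) hp1 hp2 a₀
  have e1 : 2 + 2 * JT + 2 * ρT * p a₀ + (M ^ 2 + 6 * M * (θ + 2 * ρ * p a₀)) / d ^ 2 =
      J + (12 * M * ρ / d ^ 2 + 2 * ρT) * p a₀ := by
    rw [hJ]
    ring
  rw [e1] at hk hn
  have hJ0 : 0 ≤ J := by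
    rw [hJ]
    positivity
  have hσ : 0 ≤ 12 * M * ρ / d ^ 2 + 2 * ρT := by positivity
  generalize 12 * M * ρ / d ^ 2 + 2 * ρT = σ at hk hn hsm hσ
  have e2 : 16 * ρ * (1 + 2 * J) / κ ^ 2 = 2 * ρ * (8 / κ ^ 2 * (1 + 2 * J)) := by ring
  have h1 := mul_le_mul_of_nonneg_right hsm (hpn a₀)
  have h2 : p a₀ ≤ 8 / κ ^ 2 * (1 + 2 * J) := by
    have e3 : 4 / κ ^ 2 * (1 + 2 * (J + σ * p a₀)) =
        8 / κ ^ 2 * (1 + 2 * J) / 2 + 8 / κ ^ 2 * σ * p a₀ := by ring
    linarith only [hn, h1, e3]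
  have h3 := mul_le_mul_of_nonneg_left h2 hσ
  have h4 := mul_le_mul_of_nonneg_right hsm (by linarith only [hJ0] : 0 ≤ 1 + 2 * J)
  have h5 : σ * (8 / κ ^ 2 * (1 + 2 * J)) = 8 / κ ^ 2 * σ * (1 + 2 * J) := by ring
  refine ⟨⟨_, fun a => ⟨(hkd a).1, (hkd a).2.trans ?_⟩, hdr'⟩, k,
    fun a => ⟨(hk a).1, (hk a).2.trans (by linarith only [h3, h4])⟩, hk1, hk2⟩
  have h6 := mul_le_mul_of_nonneg_left h2 hρ
  rw [e2]
  linarith only [h6]

end Pool.Agent.MP_17e62b_gt.G

/-! The trace of the merged chain on the nodes. -/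

set_option linter.unusedSectionVars false

namespace Pool.Agent.MP_17e62b_gt.G

open Set H14
open scoped BigOperators

variable {D T Z ν C : Type} [Fintype D] [Fintype T] [Fintype Z] [Fintype ν] [Fintype C]
  {Λ : C → Lens}

/-- All corners. -/
abbrev Corner (Λ : C → Lens) : Type := Σ c, (Λ c).Vt

/-- How the states `D` (discs), `T` (tubes), `Z` (classes and cut nodes) fit the nodes. -/
structure Shape (P : D ⊕ (T ⊕ Z) → D ⊕ (T ⊕ Z) → ℝ) (gate : D → Prop) (out : D → T ⊕ Z)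
    (lab : D → Corner Λ) (elb : T ⊕ Z → D → Corner Λ) (nb : D → D → Prop) (dsc : D → C)
    (cl : Z → ν) (app : ∀ c, (Λ c).Vt → ν) (B₀ : Set ν) (Fr : Finset ν) (adj : T → ν → Prop) :
    Prop where
  surj : Function.Surjective cl
  fr : ∀ x ∈ Fr, x ∉ B₀
  inj : ∀ z z', cl z = cl z' → z = z' ∨ cl z ∈ Fr ∨ cl z ∈ B₀
  dsc_P : ∀ s s', 0 < P (.inl s) (.inl s') → dsc s = dsc s'
  dsc_nb : ∀ s s', nb s s' → dsc s = dsc s'
  lab_dsc : ∀ s, (lab s).1 = dsc s
  out_cl : ∀ u, gate u → ∃ z, out u = .inr z ∧ cl z = app (lab u).1 (lab u).2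
  elb_cl : ∀ z s, cl z ∉ B₀ → 0 < P (.inr (.inr z)) (.inl s) →
    (elb (.inr z) s).1 = dsc s ∧ app (elb (.inr z) s).1 (elb (.inr z) s).2 = cl z
  tube_D : ∀ t s, P (.inr (.inl t)) (.inl s) = 0
  intra : ∀ z z', cl z ∉ B₀ → 0 < P (.inr (.inr z)) (.inr (.inr z')) → cl z = cl z'
  adj_TT : ∀ t t', 0 < P (.inr (.inl t)) (.inr (.inl t')) → adj t = adj t'
  adj_TZ : ∀ t z, 0 < P (.inr (.inl t)) (.inr (.inr z)) → adj t (cl z)
  adj_ZT : ∀ z t, cl z ∉ B₀ → 0 < P (.inr (.inr z)) (.inr (.inl t)) → adj t (cl z)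

/-- The absorbing states. -/
def absZ (T : Type) (cl : Z → ν) (B₀ : Set ν) : Set (T ⊕ Z) := Sum.inr '' (cl ⁻¹' B₀)

/-- The merging map. -/
def mrgZ (D T : Type) (cl : Z → ν) : D ⊕ (T ⊕ Z) → D ⊕ (T ⊕ ν) := Sum.map id (Sum.map id cl)

open Classical in
/-- The free nodes. -/
noncomputable def freeZ (D T : Type) (Fr : Finset ν) : Finset (D ⊕ (T ⊕ ν)) :=
  Fr.image fun x => .inr (.inr x)

variable {P : D ⊕ (T ⊕ Z) → D ⊕ (T ⊕ Z) → ℝ} {gate : D → Prop} {out : D → T ⊕ Z}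
  {lab : D → Corner Λ} {elb : T ⊕ Z → D → Corner Λ} {nb : D → D → Prop} {dsc : D → C}
  {cl : Z → ν} {app : ∀ c, (Λ c).Vt → ν} {B₀ : Set ν} {Fr : Finset ν} {adj : T → ν → Prop}
  {κ : ℝ} {c : D → D → ℝ} {Φ : D → Corner Λ → ℝ}

theorem fib_free {p : D ⊕ (T ⊕ ν)} : p ∈ freeZ D T Fr ↔ ∃ x ∈ Fr, Sum.inr (Sum.inr x) = p := by
  simp only [freeZ, Finset.mem_image]

theorem fib_abs {a : D ⊕ (T ⊕ Z)} :
    a ∈ Sum.inr '' absZ T cl B₀ ↔ ∃ z, cl z ∈ B₀ ∧ Sum.inr (Sum.inr z) = a := by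
  simp only [absZ, image_image, mem_image, mem_preimage]

theorem Shape.fib (h : Shape P gate out lab elb nb dsc cl app B₀ Fr adj) :
    Fib (mrgZ D T cl) (Sum.inr '' absZ T cl B₀) (freeZ D T Fr) := by
  refine ⟨Function.surjective_id.sumMap (Function.surjective_id.sumMap h.surj), fun a ha hb => ?_,
    fun a a' e => ?_⟩
  · obtain ⟨z, hz, rfl⟩ := fib_abs.1 hb
    obtain ⟨x, hx, e⟩ := fib_free.1 ha
    exact h.fr x hx (Sum.inr_injective (Sum.inr_injective e) ▸ hz)
  · rcases a with s | t | z <;> rcases a' with s' | t' | z' <;> simp [mrgZ] at e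
    · exact .inl (e ▸ rfl)
    · exact .inl (e ▸ rfl)
    · rcases h.inj z z' e with h1 | h1 | h1
      · exact .inl (h1 ▸ rfl)
      · exact .inr (.inl (fib_free.2 ⟨_, h1, rfl⟩))
      · exact .inr (.inr ⟨fib_abs.2 ⟨z, h1, rfl⟩, fib_abs.2 ⟨z', e ▸ h1, rfl⟩⟩)

theorem Shape.image_abs (h : Shape P gate out lab elb nb dsc cl app B₀ Fr adj) :
    mrgZ D T cl '' (Sum.inr '' absZ T cl B₀) = (fun x => Sum.inr (Sum.inr x)) '' B₀ := by
  ext p
  constructor
  · rintro ⟨a, ha, rfl⟩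
    obtain ⟨z, hz, rfl⟩ := fib_abs.1 ha
    exact ⟨_, hz, rfl⟩
  · rintro ⟨x, hx, rfl⟩
    obtain ⟨z, rfl⟩ := h.surj x
    exact ⟨_, fib_abs.2 ⟨z, hx, rfl⟩, rfl⟩

theorem card_freeZ : (freeZ D T Fr).card = Fr.card := by
  classical
  unfold freeZ
  convert Finset.card_image_of_injective Fr (f := fun x => (Sum.inr (Sum.inr x) : D ⊕ (T ⊕ ν)))
    (Sum.inr_injective.comp Sum.inr_injective)

/-- The merged chain. -/
noncomputable def mrgR (P : D ⊕ (T ⊕ Z) → D ⊕ (T ⊕ Z) → ℝ) (c : D → D → ℝ) (cl : Z → ν)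
    (B₀ : Set ν) (Fr : Finset ν) : D ⊕ (T ⊕ ν) → D ⊕ (T ⊕ ν) → ℝ :=
  nrate (mixR P c) (Sum.inr '' absZ T cl B₀) (mrgZ D T cl) (freeZ D T Fr)

/-- The emission weights. -/
noncomputable def wZ (P : D ⊕ (T ⊕ Z) → D ⊕ (T ⊕ Z) → ℝ) (c : D → D → ℝ) (cl : Z → ν)
    (B₀ : Set ν) (Fr : Finset ν) (z : Z) : ℝ :=
  nw (mixR P c) (Sum.inr '' absZ T cl B₀) (mrgZ D T cl) (freeZ D T Fr) (.inr (.inr z))

open Classical in
/-- T1. The exit law of the tubes. Hint: `harm (mrgR ..) {p | ∀ t, p ≠ inr (inl t)}` with the data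
`Pi.single x 1` at `inr (inr x)` (`abs_nrate`, `Abs.mono`), `gen_nrate_single`. For the support use
`mem_on` on the set of the `t'` with `adj t' = adj t` and the convex set of the points of the
simplex that vanish off `adj t`. -/
theorem Shape.tube_law (h : Shape P gate out lab elb nb dsc cl app B₀ Fr adj)
    (hG : Gated P (absZ T cl B₀) gate out) (hc : ∀ s s', 0 ≤ c s s') :
    ∃ H : T → ν → ℝ, (∀ t, H t ∈ stdSimplex ℝ ν) ∧ (∀ t x, H t x ≠ 0 → adj t x) ∧
      ∀ t, ∑ t', P (.inr (.inl t)) (.inr (.inl t')) • (H t' - H t) +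
        ∑ z, P (.inr (.inl t)) (.inr (.inr z)) • (Pi.single (cl z) 1 - H t) = 0 := by
  have _ := hc
  have hA : Abs P {p | ∀ t, p ≠ .inr (.inl t)} := hG.abs.mono (fun a ha t e => by
    obtain ⟨z, -, rfl⟩ := fib_abs.1 ha
    simp at e) fun _ _ h => h
  obtain ⟨u, hu, hu'⟩ : ∃ u : D ⊕ (T ⊕ Z) → ν → ℝ,
      (∀ z, u (.inr (.inr z)) = Pi.single (cl z) 1) ∧ ∀ t, gen P u (.inr (.inl t)) = 0 :=
    ⟨harm P {p | ∀ t, p ≠ .inr (.inl t)}
      (Sum.elim 0 (Sum.elim 0 fun z => Pi.single (cl z) 1)),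
      fun z => harm_bd hG.nonneg hA _ fun t => by simp,
      fun t => harm_gen hG.nonneg hA _ fun h => h t rfl⟩
  have key : ∀ t, u (.inr (.inl t)) ∈ stdSimplex ℝ ν ∩ {f | ∀ x, ¬ adj t x → f x = 0} := by
    intro t
    refine mem_on hG.nonneg hG.abs (U := {a | ∃ t', adj t' = adj t ∧ .inr (.inl t') = a})
      (disjoint_left.2 ?_) ?_ ((convex_stdSimplex ℝ ν).inter ?_) ?_ _ ⟨t, rfl, rfl⟩
    · rintro _ ⟨t', -, rfl⟩ ha
      obtain ⟨z, -, e⟩ := fib_abs.1 ha
      simp at e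
    · rintro _ ⟨t', -, rfl⟩
      exact hu' t'
    · intro f hf g hg a b _ _ _ x hx
      simp [hf x hx, hg x hx]
    · rintro _ ⟨t', e, rfl⟩ (s | t'' | z) hb hn
      · exact absurd (h.tube_D t' s) hb.ne'
      · exact absurd ⟨t'', (h.adj_TT t' t'' hb).symm.trans e, rfl⟩ hn
      · rw [hu]
        exact ⟨single_mem_stdSimplex ℝ _, fun x hx => Pi.single_eq_of_ne
          (fun e' : x = cl z => hx (e' ▸ e ▸ h.adj_TZ t' z hb)) _⟩
  refine ⟨fun t => u (.inr (.inl t)), fun t => (key t).1,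
    fun t x hx => by_contra fun hn => hx ((key t).2 x hn), fun t => ?_⟩
  have := hu' t
  simp only [gen, Fintype.sum_sum_type, h.tube_D, zero_smul, Finset.sum_const_zero, zero_add,
    hu] at this
  exact this

/-- The extension of node values by the exit laws. -/
noncomputable def extN {X : Type} [AddCommGroup X] [Module ℝ X] (app : ∀ c, (Λ c).Vt → ν)
    (Φ : D → Corner Λ → ℝ) (H : T → ν → ℝ) (φ : ν → X) : D ⊕ (T ⊕ ν) → X
  | .inl s => cmb (fun v : Corner Λ => φ (app v.1 v.2)) (Φ s)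
  | .inr (.inl t) => cmb φ (H t)
  | .inr (.inr x) => φ x

open Classical in
/-- The direct rates. -/
noncomputable def aN (P : D ⊕ (T ⊕ Z) → D ⊕ (T ⊕ Z) → ℝ) (q : Z → ℝ) (cl : Z → ν) (B₀ : Set ν)
    (H : T → ν → ℝ) (x y : ν) : ℝ :=
  if x ∈ B₀ ∨ y = x then 0 else
    ∑ z, if cl z = x then q z * ∑ t, P (.inr (.inr z)) (.inr (.inl t)) * H t y else 0

open Classical in
/-- The exit intensities. -/
noncomputable def wN (P : D ⊕ (T ⊕ Z) → D ⊕ (T ⊕ Z) → ℝ) (q : Z → ℝ) (cl : Z → ν) (B₀ : Set ν)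
    (app : ∀ c, (Λ c).Vt → ν) (elb : T ⊕ Z → D → Corner Λ) (Φ : D → Corner Λ → ℝ) (i : C)
    (α β : (Λ i).Vt) : ℝ :=
  if app i α ∈ B₀ ∨ β = α then 0 else ∑ z, if cl z = app i α then q z * ∑ s,
    (if elb (.inr z) s = ⟨i, α⟩ then P (.inr (.inr z)) (.inl s) * Φ s ⟨i, β⟩ else 0) else 0

section

variable {X : Type} [AddCommGroup X] [Module ℝ X] {H : T → ν → ℝ}

omit [Fintype D] [Fintype T] [Fintype Z] [Fintype ν] [Fintype C] in
theorem ext_disc_lin {N : Type} [Fintype N] (φ : N → X) (p : N → ℝ) :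
    cmb φ p = Fintype.linearCombination ℝ φ p := (Fintype.linearCombination_apply ℝ φ p).symm

/-- T2. Hint: `gen_nrate_single`, `Gated.gen_mixR`; apply the linear map `cmb _` to `Law.harm`. -/
theorem Shape.ext_disc (h : Shape P gate out lab elb nb dsc cl app B₀ Fr adj)
    (hG : Gated P (absZ T cl B₀) gate out) (hL : Law P gate lab nb κ c Φ) (φ : ν → X) (s : D) :
    gen (mrgR P c cl B₀ Fr) (extN app Φ H φ) (.inl s) = 0 := by
  classical
  refine (gen_nrate_single h.fib (extN app Φ H φ) (a := .inl s)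
    (fun ha => by obtain ⟨_, -, e⟩ := ha; simp at e)
    (fun ha => by obtain ⟨_, -, e⟩ := fib_free.1 ha; simp [mrgZ] at e)).trans ?_
  have h1 := congrArg (Fintype.linearCombination ℝ fun v : Corner Λ => φ (app v.1 v.2)) (hL.harm s)
  rw [hG.gen_mixR]
  refine Eq.trans ?_ (h1.trans (map_zero _))
  simp only [map_add, map_sum, map_smul, map_sub, mrgZ, Sum.map_inl, Sum.map_inr, id, extN,
    ext_disc_lin]
  congr 1
  split_ifs with hg
  · obtain ⟨z, h2, h3⟩ := h.out_cl s hg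
    simp only [h2, Sum.map_inr, extN, h3, map_sub, Fintype.linearCombination_apply_single,
      one_smul]
  · exact (map_zero _).symm

open Classical in
theorem Shape.ext_tube (h : Shape P gate out lab elb nb dsc cl app B₀ Fr adj)
    (hH : ∀ t, ∑ t', P (.inr (.inl t)) (.inr (.inl t')) • (H t' - H t) +
      ∑ z, P (.inr (.inl t)) (.inr (.inr z)) • (Pi.single (cl z) 1 - H t) = 0)
    (φ : ν → X) (t : T) : gen (mrgR P c cl B₀ Fr) (extN app Φ H φ) (.inr (.inl t)) = 0 := by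
  refine (gen_nrate_single h.fib (extN app Φ H φ) (a := .inr (.inl t))
    (fun ha => by obtain ⟨_, -, e⟩ := fib_abs.1 ha; simp at e)
    (fun ha => by obtain ⟨_, -, e⟩ := fib_free.1 ha; simp [mrgZ] at e)).trans ?_
  have h1 := congrArg (Fintype.linearCombination ℝ φ) (hH t)
  simp only [map_add, map_sum, map_smul, map_sub, map_zero,
    Fintype.linearCombination_apply_single, one_smul] at h1
  rw [gen_mixR_inr]
  simp only [gen, Fintype.sum_sum_type, h.tube_D, zero_smul, Finset.sum_const_zero, zero_add, mrgZ,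
    Sum.map_inl, Sum.map_inr, id, extN, ext_disc_lin]
  exact h1

open Classical in
theorem ext_node_trace (a : ν → ν → ℝ) (w : ∀ i, (Λ i).Vt → (Λ i).Vt → ℝ) (φ : ν → X) (x : ν) :
    gen (trace app a w) φ x = ∑ y, a x y • (φ y - φ x) +
      ∑ i, ∑ α, ∑ β, if app i α = x then w i α β • (φ (app i β) - φ x) else 0 := by
  simp only [gen, trace, add_smul, Finset.sum_add_distrib, Finset.sum_smul]
  congr 1
  refine Finset.sum_comm.trans (Finset.sum_congr rfl fun i _ => Finset.sum_comm.trans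
    (Finset.sum_congr rfl fun α _ => Finset.sum_comm.trans (Finset.sum_congr rfl fun β _ => ?_)))
  by_cases h : app i α = x <;> simp only [h, true_and, ite_smul, zero_smul, Finset.sum_ite_eq, Finset.mem_univ, ↓ reduceIte, false_and, Finset.sum_const_zero]

theorem ext_node_own (h : Shape P gate out lab elb nb dsc cl app B₀ Fr adj)
    (hG : Gated P (absZ T cl B₀) gate out) (hL : Law P gate lab nb κ c Φ) {s : D} {i : C}
    (hs : i = dsc s) (ψ : Corner Λ → X) : ∑ v, Φ s v • ψ v = ∑ β, Φ s ⟨i, β⟩ • ψ ⟨i, β⟩ := by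
  rw [Fintype.sum_sigma, Finset.sum_eq_single i]
  · refine fun j _ hj => Finset.sum_eq_zero fun β _ => ?_
    rw [hL.supp hG (kc := Sigma.fst) h.dsc_P h.dsc_nb h.lab_dsc (v := ⟨j, β⟩) (hs ▸ hj), zero_smul]
  · simp only [Finset.mem_univ, not_true_eq_false, Finset.univ_eq_attach, IsEmpty.forall_iff]

open Classical in
theorem ext_node_row (q : Z → ℝ) {i : C} {α : (Λ i).Vt} (hα : app i α ∉ B₀)
    (ψ : (Λ i).Vt → X) : ∑ β, wN P q cl B₀ app elb Φ i α β • ψ β = ∑ z, ∑ s,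
      if elb (.inr z) s = ⟨i, α⟩ ∧ cl z = app i α then (q z * P (.inr (.inr z)) (.inl s)) •
        (∑ β, Φ s ⟨i, β⟩ • ψ β - Φ s ⟨i, α⟩ • ψ α) else 0 := by
  have h1 : ∀ β, wN P q cl B₀ app elb Φ i α β • ψ β = ∑ z, ∑ s,
      if elb (.inr z) s = ⟨i, α⟩ ∧ cl z = app i α then (q z * P (.inr (.inr z)) (.inl s)) •
        (Φ s ⟨i, β⟩ • ψ β - if β = α then Φ s ⟨i, α⟩ • ψ α else 0) else 0 := fun β => by
    by_cases hβ : β = α
    · simp only [wN, hβ, or_true, ↓ reduceIte, zero_smul, sub_self, smul_zero, ite_self, Finset.sum_const_zero]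
    · simp only [wN, hα, hβ, or_self, if_false, Finset.sum_smul, sub_zero]
      refine Finset.sum_congr rfl fun z _ => ?_
      by_cases hz : cl z = app i α
      · simp only [hz, if_true, and_true, Finset.mul_sum, Finset.sum_smul]
        refine Finset.sum_congr rfl fun s _ => ?_
        split_ifs
        · rw [smul_smul, mul_assoc]
        · simp
      · simp only [hz, ↓ reduceIte, zero_smul, and_false, Finset.sum_const_zero]
  simp only [h1]
  refine Finset.sum_comm.trans (Finset.sum_congr rfl fun z _ => Finset.sum_comm.trans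
    (Finset.sum_congr rfl fun s _ => ?_))
  split_ifs
  · rw [← Finset.smul_sum, Finset.sum_sub_distrib, Finset.sum_ite_eq', if_pos (Finset.mem_univ _)]
  · simp only [Finset.univ_eq_attach, Finset.sum_const_zero]

open Classical in
theorem ext_node_sum (h : Shape P gate out lab elb nb dsc cl app B₀ Fr adj)
    (hG : Gated P (absZ T cl B₀) gate out) (hL : Law P gate lab nb κ c Φ) (q : Z → ℝ) {x : ν}
    (hx : x ∉ B₀) (ψ : Corner Λ → X) :
    (∑ i, ∑ α, ∑ β, if app i α = x then wN P q cl B₀ app elb Φ i α β • ψ ⟨i, β⟩ else 0) =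
      ∑ z, if cl z = x then q z • ∑ s, P (.inr (.inr z)) (.inl s) •
        (∑ v, Φ s v • ψ v - Φ s (elb (.inr z) s) • ψ (elb (.inr z) s)) else 0 := by
  have h1 : ∀ v : Corner Λ, (∑ β, if app v.1 v.2 = x then
      wN P q cl B₀ app elb Φ v.1 v.2 β • ψ ⟨v.1, β⟩ else 0) = ∑ z, ∑ s,
        if elb (.inr z) s = v then (if cl z = x ∧ app v.1 v.2 = x then
          (q z * P (.inr (.inr z)) (.inl s)) •
            (∑ β, Φ s ⟨v.1, β⟩ • ψ ⟨v.1, β⟩ - Φ s v • ψ v) else 0) else 0 := fun v => by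
    by_cases hv : app v.1 v.2 = x
    · simp only [hv, if_true, and_true, ext_node_row q (hv ▸ hx : app v.1 v.2 ∉ B₀), ite_and]
    · simp only [Finset.univ_eq_attach, hv, ↓ reduceIte, Finset.sum_const_zero, and_false, ite_self]
  rw [← Fintype.sum_sigma fun v : Corner Λ => ∑ β, if app v.1 v.2 = x then
    wN P q cl B₀ app elb Φ v.1 v.2 β • ψ ⟨v.1, β⟩ else 0]
  simp only [h1]
  refine Finset.sum_comm.trans (Finset.sum_congr rfl fun z _ => Finset.sum_comm.trans ?_)
  simp only [Finset.sum_ite_eq, Finset.mem_univ, if_true]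
  by_cases hz : cl z = x
  · simp only [hz, true_and, if_true, Finset.smul_sum, smul_smul]
    refine Finset.sum_congr rfl fun s _ => ?_
    rcases (hG.nonneg (.inr (.inr z)) (.inl s)).eq_or_lt with h0 | h0
    · simp only [← h0, mul_zero, Finset.univ_eq_attach, zero_smul, ite_self]
    · obtain ⟨h2, h3⟩ := h.elb_cl z s (hz ▸ hx) h0
      rw [if_pos (h3.trans hz), ext_node_own h hG hL h2]
  · simp only [hz, false_and, ↓ reduceIte, Finset.sum_const_zero]

theorem ext_node_cmb {N : Type} [Fintype N] {p : N → ℝ} (hp : p ∈ stdSimplex ℝ N) (φ : N → X)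
    (x : X) : cmb φ p - x = ∑ y, p y • (φ y - x) := by
  simp only [cmb, smul_sub, Finset.sum_sub_distrib, ← Finset.sum_smul, hp.2, one_smul]

open Classical in
theorem ext_node_fib (f : D ⊕ (T ⊕ Z) → X) (x : ν)
    {_ : ∀ a, Decidable (mrgZ D T cl a = .inr (.inr x))} :
    (∑ a, if mrgZ D T cl a = .inr (.inr x) then f a else 0) =
      ∑ z, if cl z = x then f (.inr (.inr z)) else 0 := by
  simp only [mrgZ, Fintype.sum_sum_type, Sum.map_inl, id_eq, reduceCtorEq, ↓ reduceIte, Finset.sum_const_zero, Sum.map_inr, Sum.inr.injEq, zero_add]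

/-- T3. Hint: `gen_nrate`; both sides are the sum over `z` with `cl z = x` of `wZ z` times
`∑ s, P z s • ∑ v, Φ s v • (φ (app v) - φ x) + ∑ t, P z t • ∑ y, H t y • (φ y - φ x)`. In the first
sum the corner `elb z s` contributes zero and the corners of other discs have weight zero
(`Law.supp`, `Fintype.sum_sigma`). -/
theorem Shape.ext_node (h : Shape P gate out lab elb nb dsc cl app B₀ Fr adj)
    (hG : Gated P (absZ T cl B₀) gate out) (hL : Law P gate lab nb κ c Φ)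
    (hH : ∀ t, H t ∈ stdSimplex ℝ ν) (φ : ν → X) {x : ν} (hx : x ∉ B₀) :
    gen (mrgR P c cl B₀ Fr) (extN app Φ H φ) (.inr (.inr x)) =
      gen (trace app (aN P (wZ P c cl B₀ Fr) cl B₀ H)
        (wN P (wZ P c cl B₀ Fr) cl B₀ app elb Φ)) φ x := by
  classical
  rw [mrgR, gen_nrate]
  refine (ext_node_fib _ x).trans ?_
  rw [ext_node_trace,
    ext_node_sum h hG hL _ hx fun v => φ (app v.1 v.2) - φ x]
  have h1 : ∀ y, aN P (wZ P c cl B₀ Fr) cl B₀ H x y • (φ y - φ x) = ∑ z, if cl z = x then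
      wZ P c cl B₀ Fr z • ∑ t, P (.inr (.inr z)) (.inr (.inl t)) • H t y • (φ y - φ x) else 0 :=
    fun y => by
      by_cases hy : y = x
      · simp only [hy, sub_self, smul_zero, Finset.sum_const_zero, ite_self]
      · simp only [aN, hx, hy, or_self, if_false, Finset.sum_smul, ite_smul, zero_smul, mul_smul]
  simp only [h1]
  rw [Finset.sum_comm, ← Finset.sum_add_distrib]
  refine Finset.sum_congr rfl fun z _ => ?_
  by_cases hz : cl z = x
  swap
  · simp only [hz, ↓ reduceIte, Finset.sum_const_zero, add_zero]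
  subst hz
  simp only [if_true]
  rw [← Finset.smul_sum, ← smul_add, gen_mixR_inr, gen, Fintype.sum_sum_type, Fintype.sum_sum_type,
    Finset.sum_comm, add_comm (∑ t : T, ∑ y : ν, _)]
  congr 2
  · refine Finset.sum_congr rfl fun s _ => ?_
    rcases (hG.nonneg (.inr (.inr z)) (.inl s)).eq_or_lt with h0 | h0
    · simp only [← h0, zero_smul]
    · rw [(h.elb_cl z s hx h0).2, sub_self, smul_zero, sub_zero]
      exact congrArg _ (ext_node_cmb (hL.simplex s) _ _)
  · rw [Finset.sum_eq_zero (s := (Finset.univ : Finset Z)), add_zero]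
    · refine Finset.sum_congr rfl fun t _ => ?_
      rw [← Finset.smul_sum]
      exact congrArg _ (ext_node_cmb (hH t) _ _)
    · intro z' _
      rcases (hG.nonneg (.inr (.inr z)) (.inr (.inr z'))).eq_or_lt with h0 | h0
      · simp [← h0]
      · simp [mrgZ, extN, h.intra z z' hx h0]

open Classical in
/-- T4. -/
theorem Shape.sum_w (h : Shape P gate out lab elb nb dsc cl app B₀ Fr adj)
    (hG : Gated P (absZ T cl B₀) gate out) (hL : Law P gate lab nb κ c Φ) (q : Z → ℝ) {x : ν}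
    (hx : x ∉ B₀) :
    (∑ i, ∑ α, ∑ β, if app i α = x then wN P q cl B₀ app elb Φ i α β else 0) =
      ∑ z, if cl z = x then q z * ∑ s, P (.inr (.inr z)) (.inl s) * (1 - Φ s (elb (.inr z) s))
        else 0 := by
  simpa only [smul_eq_mul, mul_one, fun s => (hL.simplex s).2] using
    ext_node_sum h hG hL q hx fun _ => (1 : ℝ)

end

open Classical in
/-- The finite part of `DiscNet`. -/
structure FinNet {E : Type} [NormedAddCommGroup E] [NormedSpace ℝ E] (app : ∀ c, (Λ c).Vt → ν)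
    (B : Set ν) (a : ν → ν → ℝ) (w : ∀ c, (Λ c).Vt → (Λ c).Vt → ℝ) (F : ν → E) (J R : ℝ) :
    Prop where
  a_nonneg : ∀ x y, 0 ≤ a x y
  w_nonneg : ∀ c α β, 0 ≤ w c α β
  w_self : ∀ c α, w c α α = 0
  a_stop : ∀ x ∈ B, ∀ y, a x y = 0
  w_stop : ∀ c α β, app c α ∈ B → w c α β = 0
  abs : Abs (trace app a w) B
  harm : ∀ x, x ∉ B → gen (trace app a w) F x = 0
  bound : ∀ x, ‖F x‖ ≤ R
  pot : ∃ k : ν → ℝ, (∀ x, 0 ≤ k x) ∧ (∀ x, k x ≤ J) ∧ ∀ x, x ∉ B →
    (∑ c, ∑ α, ∑ β, if app c α = x then w c α β else 0) ≤ -gen (trace app a w) k x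

open Classical in
/-- T5. Hint: `H` from `tube_law`, `a = aN`, `w = wN`. `Abs`: if `A` cannot be left, the extension
of its indicator is subharmonic for `mrgR` and zero on the absorbing nodes (`mat_det_max`).
`F = harm (trace ..) B₀ fn`; `nodes_err` for `extN app Φ H F`. Potential: `nodes_pot` with the
source `∑ s, P o s * (1 - Φ s (elb o s))` on `O` and zero on `D` gives `k'`; `k'` equals the
extension of its node values (both are harmonic on `D` and `T`: `mem_on` with `{0}`); `sum_w`.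
Last clause: a positive sum has a positive term;
`∑ β, Φ s ⟨i, β⟩ * (l (single β) - l (single α)) = l (Φ s ⟨i, ·⟩) - l (single α)`. -/
theorem Shape.net {E : Type} [NormedAddCommGroup E] [NormedSpace ℝ E]
    (h : Shape P gate out lab elb nb dsc cl app B₀ Fr adj)
    (hG : Gated P (absZ T cl B₀) gate out) (hL : Law P gate lab nb κ c Φ)
    {F₁ : D ⊕ (T ⊕ Z) → E} {fn : ν → E} {M θ J ρ : ℝ} (hρ : 0 ≤ ρ) (hM : ∀ x, ‖fn x‖ ≤ M)
    (hfn : ∀ z, ‖F₁ (.inr (.inr z)) - fn (cl z)‖ ≤ ρ) {k k₃ : D ⊕ (T ⊕ Z) → ℝ}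
    (hk : ∀ a, 0 ≤ k a ∧ k a ≤ θ)
    (hdr : ∀ a, a ∉ Sum.inr '' absZ T cl B₀ → ‖gen (mixR P c) F₁ a‖ ≤ -gen (mixR P c) k a)
    (hk₃ : ∀ a, 0 ≤ k₃ a ∧ k₃ a ≤ J) (h1 : ∀ s, 0 ≤ -gen (mixR P c) k₃ (.inl s))
    (h2 : ∀ o, o ∉ absZ T cl B₀ → ∑ s, P (.inr o) (.inl s) * (1 - Φ s (elb o s)) ≤
      -gen (mixR P c) k₃ (.inr o)) :
    ∃ (a : ν → ν → ℝ) (w : ∀ i, (Λ i).Vt → (Λ i).Vt → ℝ) (F : ν → E),
      FinNet app B₀ a w F ((Fr.card + 1) * J) M ∧
      (∀ x y, 0 < a x y → ∃ t, adj t x ∧ adj t y) ∧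
      (∀ x, ‖F x - fn x‖ ≤ (Fr.card + 1) * (θ + 4 * ρ)) ∧
      (∀ s, ‖cmb (fun v => F (app (dsc s) v)) (fun v => Φ s ⟨dsc s, v⟩) - F₁ (.inl s)‖ ≤
        (Fr.card + 1) * (θ + 4 * ρ)) ∧
      ∀ i (α : (Λ i).Vt) (l : ((Λ i).Vt → ℝ) →L[ℝ] ℝ),
        0 < gen (w i) (fun β => l (Pi.single β 1)) α → ∃ z s, cl z ∉ B₀ ∧
          0 < P (.inr (.inr z)) (.inl s) ∧ elb (.inr z) s = ⟨i, α⟩ ∧
          l (Pi.single α 1) < l fun v => Φ s ⟨i, v⟩ := by
  obtain ⟨H, hH, hH1, hH2⟩ := h.tube_law hG hL.c_nonneg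
  have hR := hG.mixR_nonneg hL.c_nonneg
  have hA := hG.mixR_abs hL.c_nonneg
  have hf := h.fib
  have hq : ∀ z, 0 < wZ P c cl B₀ Fr z := fun z => nw_pos hR hA hf _
  have hR' : ∀ p p', 0 ≤ mrgR P c cl B₀ Fr p p' := nrate_nonneg hR hA hf
  have hA' : Abs (mrgR P c cl B₀ Fr) _ := abs_nrate hR hA hf
  set q := wZ P c cl B₀ Fr with hqd
  have ha : ∀ x y, 0 ≤ aN P q cl B₀ H x y := fun x y => by
    unfold aN
    split_ifs
    · exact le_rfl
    · refine Finset.sum_nonneg fun z _ => ?_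
      split_ifs
      exacts [mul_nonneg (hq z).le (Finset.sum_nonneg fun t _ =>
        mul_nonneg (hG.nonneg _ _) ((hH t).1 y)), le_rfl]
  have hw : ∀ i α β, 0 ≤ wN P q cl B₀ app elb Φ i α β := fun i α β => by
    unfold wN
    split_ifs
    · exact le_rfl
    · refine Finset.sum_nonneg fun z _ => ?_
      split_ifs
      · refine mul_nonneg (hq z).le (Finset.sum_nonneg fun s _ => ?_)
        split_ifs
        exacts [mul_nonneg (hG.nonneg _ _) ((hL.simplex s).1 _), le_rfl]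
      · exact le_rfl
  set τ := trace app (aN P q cl B₀ H) (wN P q cl B₀ app elb Φ) with hτ
  have ht : ∀ x y, 0 ≤ τ x y := fun x y => add_nonneg (ha x y) (Finset.sum_nonneg fun i _ =>
    Finset.sum_nonneg fun α _ => Finset.sum_nonneg fun β _ => by
      split_ifs
      exacts [hw i α β, le_rfl])
  have hB : ∀ x, (.inr (.inr x) : D ⊕ (T ⊕ ν)) ∈
      mrgZ D T cl '' (Sum.inr '' absZ T cl B₀) ↔ x ∈ B₀ := fun x => by simp only [h.image_abs, mem_image, Sum.inr.injEq, exists_eq_right]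
  have hAτ : Abs τ B₀ := by
    rintro S ⟨x, hx⟩ hd
    by_contra hn
    have := mat_det_max hR' hA' (u := extN app Φ H (S.indicator 1)) (fun p hp => ?_)
      (fun p hp => ?_) (.inr (.inr x))
    · simp only [extN, indicator_of_mem hx, Pi.one_apply] at this
      linarith
    · rcases p with s | t | y
      · exact (h.ext_disc hG hL _ s).ge
      · exact (h.ext_tube hH2 _ t).ge
      · rw [h.ext_node hG hL hH _ (mt (hB y).2 hp)]
        refine Finset.sum_nonneg fun y' _ => ?_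
        by_cases h3 : y ∈ S <;> by_cases h4 : y' ∈ S <;> simp only [h4, indicator_of_mem, Pi.one_apply, h3, sub_self, smul_eq_mul, mul_zero, Std.le_refl, not_false_eq_true, indicator_of_notMem, zero_sub, mul_neg, mul_one, Left.nonneg_neg_iff, sub_zero]
        exacts [not_lt.1 fun h5 => hn ⟨y, h3, y', h4, h5⟩, ht y y']
    · rw [h.image_abs] at hp
      obtain ⟨y, hy, rfl⟩ := hp
      exact (indicator_of_notMem (fun e => disjoint_left.1 hd e hy) _).le
  have hE := nodes_err hR hA hf (w := F₁) (g := extN app Φ H (harm τ B₀ fn)) (ρ := 2 * ρ) hρ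
    (by linarith) (fun a => (hk a).1) (fun a => (hk a).2) hdr (by
      rintro _ ⟨_, ⟨z, hz, rfl⟩, rfl⟩
      change ‖harm τ B₀ fn (cl z) - _‖ ≤ ρ
      rw [harm_bd ht hAτ fn hz, norm_sub_rev]
      exact hfn z) (by
      rintro (s | t | z) (s' | t' | z') e he <;> simp only [mrgZ, Sum.map_inl, id_eq, Sum.inl.injEq, freeZ, Finset.mem_image, reduceCtorEq, and_false, exists_false, Sum.map_inr, Sum.inr.injEq, exists_eq_right] at e he
      linarith [hfn z, hfn z', norm_sub_le_norm_sub_add_norm_sub (F₁ (.inr (.inr z))) (fn (cl z))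
        (F₁ (.inr (.inr z'))), norm_sub_rev (fn (cl z)) (F₁ (.inr (.inr z'))), e ▸ hfn z']) (by
      rintro (s | t | y) hp
      exacts [h.ext_disc hG hL _ s, h.ext_tube hH2 _ t, (h.ext_node hG hL hH _
        (mt (hB y).2 hp)).trans (harm_gen ht hAτ fn (mt (hB y).2 hp))])
  rw [card_freeZ] at hE
  obtain ⟨k', p1, p2, -, p3⟩ := nodes_pot hR hA hf (φ := Sum.elim (fun _ => 0) fun o =>
    ∑ s, P (.inr o) (.inl s) * (1 - Φ s (elb o s))) (by
      rintro (s | o)
      exacts [le_rfl, Finset.sum_nonneg fun s _ => mul_nonneg (hG.nonneg _ _)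
        (sub_nonneg.2 (mem_Icc_of_mem_stdSimplex (hL.simplex s) _).2)])
    (fun a => (hk₃ a).1) (fun a => (hk₃ a).2) (by
      rintro (s | o) ha
      exacts [h1 s, h2 o fun e => ha (mem_image_of_mem _ e)])
  rw [card_freeZ] at p2
  have p4 : extN app Φ H (fun x => k' (.inr (.inr x))) = k' := by
    have p5 := mem_on hR' hA' (U := {p | ∀ x, p ≠ .inr (.inr x)})
      (u := fun p => extN app Φ H (fun x => k' (.inr (.inr x))) p - k' p) (H := {0})
      (disjoint_left.2 fun p hp e => by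
        rw [h.image_abs] at e
        obtain ⟨y, -, rfl⟩ := e
        exact hp y rfl) (by
        rintro (s | t | y) hp
        · rw [gen_sub, h.ext_disc hG hL, mrgR, p3 _ (by simp only [h.image_abs, mem_image, reduceCtorEq, and_false, exists_false, not_false_eq_true])]
          simp only [mrgZ, Fintype.sum_sum_type, Sum.map_inl, id_eq, Sum.inl.injEq, Sum.elim_inl, mul_zero, ite_self, Finset.sum_const_zero, Sum.map_inr, reduceCtorEq, ↓ reduceIte, add_zero, neg_zero, sub_self]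
        · rw [gen_sub, h.ext_tube hH2, mrgR, p3 _ (by simp only [h.image_abs, mem_image, Sum.inr.injEq, reduceCtorEq, and_false, exists_false, not_false_eq_true])]
          simp only [mrgZ, Fintype.sum_sum_type, Sum.map_inl, id_eq, reduceCtorEq, ↓ reduceIte, Finset.sum_const_zero, Sum.map_inr, Sum.inr.injEq, Sum.elim_inr, Sum.inl.injEq, h.tube_D, zero_mul, mul_zero, ite_self, add_zero, neg_zero, sub_self]
        · exact absurd rfl (hp y)) (convex_singleton 0) (by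
        rintro - - (s | t | y) - hp
        exacts [absurd (by simp only [ne_eq, mem_ofPred_eq, reduceCtorEq, not_false_eq_true, implies_true]) hp, absurd (by simp) hp, sub_self _])
    funext p
    rcases p with s | t | y
    exacts [sub_eq_zero.1 (p5 _ (by simp)), sub_eq_zero.1 (p5 _ (by simp)), rfl]
  refine ⟨aN P q cl B₀ H, wN P q cl B₀ app elb Φ, harm τ B₀ fn, ⟨ha, hw,
    fun i α => if_pos (.inr rfl), fun x hx y => if_pos (.inl hx), fun i α β hx => if_pos (.inl hx),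
    hAτ, fun x => harm_gen ht hAτ fn, fun x => mem_closedBall_zero_iff.1 (harm_mem ht hAτ
      (fun x => harm_gen ht hAτ fn) (convex_closedBall 0 M) (fun b hb => ?_) x),
    fun x => k' (.inr (.inr x)), fun x => p1 _, fun x => p2 _, fun x hx => ?_⟩,
    fun x y hxy => ?_, fun x => ?_, fun s => ?_, fun i α l hl => ?_⟩
  · rw [harm_bd ht hAτ fn hb]
    exact mem_closedBall_zero_iff.2 (hM b)
  · rw [← h.ext_node hG hL hH _ hx, p4, mrgR, p3 _ (mt (hB x).1 hx), neg_neg,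
      h.sum_w hG hL q hx]
    exact ge_of_eq ((ext_node_fib (X := ℝ) _ x).trans rfl)
  · unfold aN at hxy
    split_ifs at hxy with h3
    · exact absurd hxy (lt_irrefl _)
    obtain ⟨z, -, hz⟩ := Finset.exists_ne_zero_of_sum_ne_zero hxy.ne'
    obtain ⟨rfl, h4⟩ := ite_ne_right_iff.1 hz
    obtain ⟨t, -, h5⟩ := Finset.exists_ne_zero_of_sum_ne_zero (right_ne_zero_of_mul h4)
    exact ⟨t, h.adj_ZT z t (fun e => h3 (.inl e))
      ((hG.nonneg _ _).lt_of_ne' (left_ne_zero_of_mul h5)), hH1 t y (right_ne_zero_of_mul h5)⟩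
  · obtain ⟨z, rfl⟩ := h.surj x
    have : ‖harm τ B₀ fn (cl z) - _‖ ≤ _ := hE (.inr (.inr z))
    linarith [hfn z, norm_sub_le_norm_sub_add_norm_sub (harm τ B₀ fn (cl z)) (F₁ (.inr (.inr z)))
      (fn (cl z))]
  · have : ‖cmb _ _ - _‖ ≤ _ := hE (.inl s)
    rw [cmb, ext_node_own h hG hL rfl] at this
    exact le_trans this (by linarith)
  · by_contra hn
    refine hl.not_ge ?_
    by_cases hα : app i α ∈ B₀
    · simp only [gen, Finset.univ_eq_attach, wN, hα, true_or, ↓ reduceIte, smul_eq_mul, zero_mul, Finset.sum_const_zero, Std.le_refl]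
    rw [gen, ext_node_row q hα]
    refine Finset.sum_nonpos fun z _ => Finset.sum_nonpos fun s _ => ?_
    split_ifs with h3
    swap
    · exact le_rfl
    rcases (hG.nonneg (.inr (.inr z)) (.inl s)).eq_or_lt with h0 | h0
    · simp only [← h0, mul_zero, Finset.univ_eq_attach, smul_eq_mul, sub_self, sub_zero, zero_mul, Std.le_refl]
    have h4 : cl z ∉ B₀ := h3.2 ▸ hα
    have h5 : i = dsc s := by
      rw [← (h.elb_cl z s h4 h0).1, h3.1]
    have h6 : ∑ β, Φ s ⟨i, β⟩ = 1 := by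
      simpa only [smul_eq_mul, mul_one, (hL.simplex s).2] using
        (ext_node_own h hG hL h5 fun _ => (1 : ℝ)).symm
    have h7 : l (fun v => Φ s ⟨i, v⟩) = ∑ β, Φ s ⟨i, β⟩ * l (Pi.single β 1) := by
      rw [pi_eq_sum_univ' fun v => Φ s ⟨i, v⟩, map_sum]
      simp only [map_smul, smul_eq_mul]
    refine mul_nonpos_of_nonneg_of_nonpos (mul_pos (hq z) h0).le ?_
    simp only [smul_eq_mul, mul_sub, Finset.sum_sub_distrib, ← Finset.sum_mul, h6, ← h7, one_mul,
      sub_self, mul_zero, sub_zero, sub_nonpos]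
    exact not_lt.1 fun e => hn ⟨z, s, h4, h0, h3.1, e⟩

/-- T6. The law restricted to the corners of the own disc. -/
theorem Shape.simplex (h : Shape P gate out lab elb nb dsc cl app B₀ Fr adj)
    (hG : Gated P (absZ T cl B₀) gate out) (hL : Law P gate lab nb κ c Φ) {s : D} {i : C}
    (hs : dsc s = i) : (fun v => Φ s ⟨i, v⟩) ∈ stdSimplex ℝ (Λ i).Vt := by
  refine ⟨fun v => (hL.simplex s).1 _, ?_⟩
  rw [← (hL.simplex s).2, Fintype.sum_sigma]
  symm
  refine Finset.sum_eq_single i (fun j _ hj => ?_) fun hi => absurd (Finset.mem_univ i) hi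
  exact Finset.sum_eq_zero fun v _ =>
    hL.supp hG (kc := Sigma.fst) h.dsc_P h.dsc_nb h.lab_dsc (hs ▸ hj)

end Pool.Agent.MP_17e62b_gt.G
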