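import Pool.Agent.MP_17e62b_gt.Mg.G_H14Iface
import Pool.Agent.MP_17e62b_gt.Mg.G_GB
import Pool.Agent.MP_17e62b_gt.Mg.G_GA
import Pool.Agent.MP_17e62b_gt.Mg.T55_MA1

/-! Potentials on the network of a band. -/

namespace Pool.Agent.MP_17e62b_gt.G

open Set H14 T55
open scoped BigOperators

variable {E : Type} [NormedAddCommGroup E] [InnerProductSpace ℝ E] {f : ℂ → E}
  {d ρ e η s : ℝ} {M : ℕ}

/-- The points that are close to the frontier of the square. -/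
def NF (f : ℂ → E) (t : ℝ) : Set ℂ := {y | ∃ b ∈ frontier Sq, Near f Sq t y b}

/-- The test function `u` and the potentials `ψ`, `τ`. -/
structure BandPot (B : BandNet f d ρ e η s M) (t R : ℝ) (u : B.N → E) (ψ τ : B.N → ℝ) :
    Prop where
  near : ∀ p, B.pt p ∈ NF f t → u p = B.g p ∧ ψ p = R ^ 2 - ‖u p‖ ^ 2 ∧ τ p = 0
  bound : ∀ p, ‖u p‖ ≤ R
  close : ∀ p, ‖u p - f (B.pt p)‖ ≤ 3 * e
  psi : ∀ p, 0 ≤ ψ p ∧ ψ p ≤ R ^ 2
  tau : ∀ p, 0 ≤ τ p ∧ τ p ≤ 4 / s ^ 2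
  step : ∀ p, B.pt p ∉ frontier Sq → 0 ≤ -gen B.r ψ p ∧
    ‖gen B.r u p‖ ≤ 512 * e / d ^ 2 * -gen B.r ψ p ∧
    0 ≤ -gen B.r (fun q => τ q + 512 / (s ^ 2 * d ^ 2) * ψ q) p
  cut : ∀ p, B.IsCut p → tot B.r p ≤ -gen B.r (fun q => τ q + 512 / (s ^ 2 * d ^ 2) * ψ q) p

theorem BandNet.not_zone (B : BandNet f d ρ e η s M) {t : ℝ} (ht : t ≤ d) {y : ℂ}
    (hy : y ∈ NF f t) : y ∉ B.Z := by
  obtain ⟨b, hb, hn⟩ := hy
  exact fun hz => B.far y hz b hb (hn.mono subset_rfl ht)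

theorem BandNet.cut_zone (B : BandNet f d ρ e η s M) {p : B.N} (hp : B.IsCut p) :
    B.pt p ∈ B.Z := by
  have h := B.cut_Z _ hp.2
  have e : (⟨1 / 2, (B.pt p).im⟩ : ℂ) = B.pt p := Complex.ext hp.1.symm rfl
  rwa [e] at h

theorem half_sub (i : Bool) : Half i ⊆ Sq := fun _ h => h.1

theorem isCompact_half (i : Bool) : IsCompact (Half i) := by
  have hS : IsCompact Sq := isCompact_Icc.reProdIm isCompact_Icc
  cases i
  · exact hS.inter_right (isClosed_le Complex.continuous_re continuous_const)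
  · exact hS.inter_right (isClosed_le continuous_const Complex.continuous_re)

/-- X1. The energy from the zone to the rim. Hint: `min_on` on the set of nodes reachable from `z`
by jumps inside `‖u - u z‖ < d / 8`, for `‖u - u z‖ ^ 2 + V - d ^ 2 / 64`; this function differs
from `‖u‖ ^ 2 + V` by an affine function of `u`. The set misses `A` by `near_chain` (`B.edge`,
`ρ = e`, `c = u z`, `R = d / 8 + 3 e`), `Near.trans` and `B.far`. -/
theorem BandNet.energy (B : BandNet f d ρ e η s M) (hd : 0 < d) (he0 : 0 ≤ e) (he : e ≤ d / 100)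
    {t : ℝ} (ht0 : 0 ≤ t) (ht : t ≤ d / 2) {u : B.N → E} {V : B.N → ℝ}
    (hu : ∀ p, ‖u p - f (B.pt p)‖ ≤ 3 * e) (hV : ∀ p, 0 ≤ V p)
    (h1 : ∀ p, B.pt p ∉ NF f t → gen B.r u p = 0)
    (h2 : ∀ p, B.pt p ∉ NF f t → gen B.r (fun q => ‖u q‖ ^ 2 + V q) p = 0) {z : B.N}
    (hz : B.pt z ∈ B.Z) : d ^ 2 / 64 ≤ V z := by
  let rel : B.N → B.N → Prop := fun p q => 0 < B.r p q ∧ ‖u q - u z‖ < d / 8
  have hrel : ∀ p q, rel p q →
      Near f Sq e (B.pt p) (B.pt q) ∧ ‖f (B.pt q) - u z‖ ≤ d / 8 + 3 * e := by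
    intro p q h
    obtain ⟨i, C, hC, hc, hp, hq, -, hv, -⟩ := B.edge p q h.1
    refine ⟨⟨C, hC.trans (half_sub i), hc, hp, hq, hv⟩, ?_⟩
    have h3 := norm_sub_le_norm_sub_add_norm_sub (f (B.pt q)) (u q) (u z)
    have h4 := hu q
    rw [norm_sub_rev] at h4
    linarith only [h.2, h3, h4]
  have hNF : ∀ p, Relation.ReflTransGen rel z p → B.pt p ∉ NF f t := by
    rintro p hp ⟨b, hb, hn⟩
    have h4 := hu z
    rw [norm_sub_rev] at h4
    have h5 := near_chain (pos := B.pt) (c := u z) (R := d / 8 + 3 * e) hrel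
      (Near.refl (B.mem z) he0) (by linarith only [hd, h4]) hp
    exact B.far _ hz b hb ((h5.trans hn).mono subset_rfl (by linarith))
  have key := min_on (R := B.r) (U := {p | Relation.ReflTransGen rel z p}) B.nonneg B.abs
    (w := fun p => ‖u p - u z‖ ^ 2 + V p - d ^ 2 / 64) ?_ ?_ ?_ z Relation.ReflTransGen.refl
  · simp only [sub_self, norm_zero] at key
    linarith only [key]
  · rw [Set.disjoint_left]
    intro p hp hf
    exact hNF p hp ⟨_, hf, Near.refl (B.mem p) ht0⟩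
  · intro p hp
    have e1 : (fun q => ‖u q - u z‖ ^ 2 + V q - d ^ 2 / 64) = fun q =>
        ((‖u q‖ ^ 2 + V q) - 2 * (innerₛₗ ℝ (u z)) (u q)) + (‖u z‖ ^ 2 - d ^ 2 / 64) := by
      funext q
      rw [norm_sub_sq_real, innerₛₗ_apply_apply, real_inner_comm]
      ring
    rw [e1, gen_add, gen_sub, gen_mul, gen_const, gen_map, h1 p (hNF p hp), h2 p (hNF p hp)]
    simp
  · intro a ha b hab hb
    have h6 : d / 8 ≤ ‖u b - u z‖ := not_lt.1 fun h => hb (Relation.ReflTransGen.tail ha ⟨hab, h⟩)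
    have h7 := hV b
    have h8 : (d / 8) ^ 2 ≤ ‖u b - u z‖ ^ 2 := pow_le_pow_left₀ (by positivity) h6 2
    linarith only [h7, h8]

theorem pot_gen_le {N F : Type} [Fintype N] [NormedAddCommGroup F] [NormedSpace ℝ F]
    {r : N → N → ℝ} (hr : ∀ p q, 0 ≤ r p q) {w : N → F} {k : N → ℝ} (h : ∀ q, ‖w q‖ ≤ k q)
    {p : N} (hw : w p = 0) (hk : k p = 0) : ‖gen r w p‖ ≤ gen r k p := by
  simp only [gen, hw, hk, sub_zero, smul_eq_mul]
  refine (norm_sum_le _ _).trans (Finset.sum_le_sum fun q _ => ?_)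
  rw [norm_smul, Real.norm_of_nonneg (hr p q)]
  exact mul_le_mul_of_nonneg_left (h q) (hr p q)

theorem pot_tot_nonneg {N : Type} [Fintype N] {r : N → N → ℝ} (hr : ∀ p q, 0 ≤ r p q) (p : N) :
    0 ≤ tot r p := by
  unfold tot
  refine Finset.sum_nonneg fun q _ => ?_
  split_ifs
  exacts [le_rfl, hr p q]

theorem pot_tot_le {N : Type} [Fintype N] {r : N → N → ℝ} (hr : ∀ p q, 0 ≤ r p q) {T : N → ℂ}
    {p : N} {s : ℝ} (hs : 0 < s) (h : ∀ q, q ≠ p → s ≤ ‖T q - T p‖) :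
    s ^ 2 * tot r p ≤ ∑ q, r p q * ‖T q - T p‖ ^ 2 := by
  unfold tot
  rw [Finset.mul_sum]
  refine Finset.sum_le_sum fun q _ => ?_
  split_ifs with hq
  · rw [mul_zero]
    exact mul_nonneg (hr p q) (sq_nonneg _)
  · rw [mul_comm]
    exact mul_le_mul_of_nonneg_left (pow_le_pow_left₀ hs.le (h q hq) 2) (hr p q)

/-- The potential that counts the visits to the cut nodes. -/
theorem pot_tau (B : BandNet f d ρ e η s M) (hd : 0 < d) (hs : 0 < s) {A : Set B.N}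
    (hF : ∀ p, B.pt p ∈ frontier Sq → p ∈ A) {V : B.N → ℝ} (hV0 : ∀ p ∈ A, V p = 0)
    (hV : ∀ p, p ∉ A → gen B.r V p ≤ 0) (hZ : ∀ p, B.pt p ∈ B.Z → d ^ 2 / 64 ≤ V p) :
    ∃ τ : B.N → ℝ, (∀ p ∈ A, τ p = 0) ∧ (∀ p, 0 ≤ τ p ∧ τ p ≤ 4 / s ^ 2) ∧
      (∀ p, p ∉ A → gen B.r τ p ≤ 0) ∧ (∀ p, p ∉ A → B.IsCut p → gen B.r τ p = -tot B.r p) ∧
      ∀ p ∈ A, gen B.r τ p ≤ 256 / (s ^ 2 * d ^ 2) * gen B.r V p := by
  classical
  have hr := B.nonneg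
  have hA : Abs B.r A := B.abs.mono (fun p hp => hF p hp) fun _ _ h => h
  obtain ⟨τ, t0, t1⟩ := exists_pot hr hA fun p => if B.IsCut p then tot B.r p else 0
  have t2 : ∀ p, p ∉ A → gen B.r τ p ≤ 0 := fun p hp => by
    rw [t1 p hp, neg_nonpos]
    split_ifs
    exacts [pot_tot_nonneg hr p, le_rfl]
  have t3 : ∀ p, 0 ≤ τ p := mat_det_min hr hA t2 fun p hp => (t0 p hp).ge
  have hs2 : 0 < s ^ 2 := by positivity
  have hH : ∀ p, harm B.r A (fun q => ‖B.T q‖ ^ 2) p ∈ Iic (4 : ℝ) :=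
    harm_mem hr hA (fun p hp => harm_gen hr hA _ hp) (convex_Iic _) fun p hp => by
      rw [harm_bd hr hA _ hp, mem_Iic]
      nlinarith only [B.T_le p, norm_nonneg (B.T p)]
  have t4 : ∀ p, 0 ≤ harm B.r A (fun q => ‖B.T q‖ ^ 2) p - ‖B.T p‖ ^ 2 - s ^ 2 * τ p := by
    refine mat_det_min hr hA (fun p hp => ?_) fun p hp => ?_
    · rw [gen_sub, gen_sub, gen_mul, harm_gen hr hA _ hp, gen_norm_sq,
        B.T_harm p fun h => hp (hF p h), inner_zero_right, t1 p hp]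
      have h0 : 0 ≤ ∑ q, B.r p q * ‖B.T q - B.T p‖ ^ 2 :=
        Finset.sum_nonneg fun q _ => mul_nonneg (hr p q) (sq_nonneg _)
      split_ifs with hc
      · have := pot_tot_le hr hs (B.cut_sep p hc.1 hc.2)
        linarith
      · linarith
    · rw [harm_bd hr hA _ hp, t0 p hp]
      simp
  have t5 : ∀ p, τ p ≤ 4 / s ^ 2 := fun p => by
    rw [le_div_iff₀ hs2]
    have h1 := t4 p
    have h2 : harm B.r A (fun q => ‖B.T q‖ ^ 2) p ≤ 4 := hH p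
    linarith only [sq_nonneg ‖B.T p‖, h1, h2]
  have hc : 0 ≤ 256 / (s ^ 2 * d ^ 2) := by positivity
  have t6 : ∀ p, 0 ≤ 256 / (s ^ 2 * d ^ 2) * V p - τ p := by
    refine mat_det_min hr (B := A ∪ {p | B.pt p ∈ B.Z}) (hA.mono subset_union_left fun _ _ h => h)
      (fun p hp => ?_) fun p hp => ?_
    · have hp1 : p ∉ A := fun h => hp (Or.inl h)
      have hp2 : ¬ B.IsCut p := fun h => hp (Or.inr (B.cut_zone h))
      rw [gen_sub, gen_mul, t1 p hp1, if_neg hp2, neg_zero, sub_zero]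
      exact mul_nonpos_of_nonneg_of_nonpos hc (hV p hp1)
    · rcases hp with hp | hp
      · rw [hV0 p hp, t0 p hp]
        simp
      · have h1 := mul_le_mul_of_nonneg_left (hZ p hp) hc
        have h2 : 256 / (s ^ 2 * d ^ 2) * (d ^ 2 / 64) = 4 / s ^ 2 := by
          field_simp
          norm_num
        linarith [t5 p]
  refine ⟨τ, t0, fun p => ⟨t3 p, t5 p⟩, t2, fun p hp hc => by rw [t1 p hp, if_pos hc],
    fun p hp => ?_⟩
  have h := pot_gen_le hr (w := τ) (k := fun q => 256 / (s ^ 2 * d ^ 2) * V q)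
    (fun q => by rw [Real.norm_of_nonneg (t3 q)]; linarith [t6 q]) (t0 p hp)
    (by rw [hV0 p hp, mul_zero])
  rw [gen_mul] at h
  exact (le_abs_self _).trans h

/-- X2. Hint: `A = {p | pt p ∈ NF f t}` contains the frontier nodes. `u = harm r A g`,
`h = harm r A ‖g‖²`, `V = h - ‖u‖²`, `ψ = R² - h`. `V ≥ 0` is superharmonic off `A`
(`gen_norm_sq`, `mat_det_min`). `‖u - g0‖ ≤ η + e` (`harm_mem`), `‖u - g‖ ≤ 4 e`, so
`‖u - g‖ ≤ 256 e / d² * V` (`norm_le_super` with `A ∪ {p | pt p ∈ Z}`, `energy`). At `p ∈ A` off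
the frontier: `gen u = gen (u - g)`, `‖gen u‖ ≤ 256 e / d² * gen V`, `- gen ψ ≥ gen V / 2`.
`τ` from `exists_pot` on `A` with the source `tot r p` at cut nodes; compare it with
`(harm r A ‖T‖² - ‖T‖²) / s²` (`cut_sep`) and with `256 / (s² d²) * V`. -/
theorem BandNet.pot (B : BandNet f d ρ e η s M) (hd : 0 < d) (hs : 0 < s) (hη : η ≤ e)
    (he0 : 0 ≤ e) (he : e ≤ d / 100) (he1 : e ≤ 1) {t R : ℝ} (ht0 : 0 ≤ t) (ht : t ≤ d / 2)
    (hR : ∀ z ∈ Sq, ‖f z‖ + 1 ≤ R) (heR : 1024 * R * e ≤ d ^ 2) :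
    ∃ u ψ τ, BandPot B t R u ψ τ := by
  have hr := B.nonneg
  obtain ⟨A, hAm⟩ : ∃ A : Set B.N, ∀ p, p ∈ A ↔ B.pt p ∈ NF f t :=
    ⟨{p | B.pt p ∈ NF f t}, fun _ => Iff.rfl⟩
  have hF : ∀ p, B.pt p ∈ frontier Sq → p ∈ A := fun p hp =>
    (hAm p).2 ⟨_, hp, Near.refl (B.mem p) ht0⟩
  have hA : Abs B.r A := B.abs.mono (fun p hp => hF p hp) fun _ _ h => h
  have hAZ : ∀ p ∈ A, B.pt p ∉ B.Z := fun p hp => B.not_zone (by linarith only [hd, ht]) ((hAm p).1 hp)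
  obtain ⟨u, u0, u1⟩ : ∃ u : B.N → E, (∀ p ∈ A, u p = B.g p) ∧ ∀ p, p ∉ A → gen B.r u p = 0 :=
    ⟨harm B.r A B.g, fun p hp => harm_bd hr hA _ hp, fun p hp => harm_gen hr hA _ hp⟩
  obtain ⟨h, h0, h1⟩ : ∃ h : B.N → ℝ, (∀ p ∈ A, h p = ‖B.g p‖ ^ 2) ∧
      ∀ p, p ∉ A → gen B.r h p = 0 :=
    ⟨harm B.r A fun q => ‖B.g q‖ ^ 2, fun p hp => harm_bd hr hA _ hp,
      fun p hp => harm_gen hr hA _ hp⟩
  have hg : ∀ p, ‖B.g p‖ ≤ R := fun p => by
    have a1 := B.g_near p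
    have a2 := hR _ (B.mem p)
    have a3 := norm_sub_norm_le (B.g p) (f (B.pt p))
    linarith only [hη, he1, a1, a2, a3]
  have hu : ∀ p, ‖u p‖ ≤ R := fun p => mem_closedBall_zero_iff.1
    (harm_mem hr hA u1 (convex_closedBall 0 R)
      (fun q hq => mem_closedBall_zero_iff.2 (by rw [u0 q hq]; exact hg q)) p)
  have hh : ∀ p, h p ∈ Icc 0 (R ^ 2) := harm_mem hr hA h1 (convex_Icc _ _) fun q hq => by
    rw [h0 q hq]
    exact ⟨sq_nonneg _, pow_le_pow_left₀ (norm_nonneg _) (hg q) 2⟩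
  have hc0 : ∀ p, ‖u p - B.g0 p‖ ≤ 2 * e := fun p => mem_closedBall_zero_iff.1
    (harm_mem hr hA (u := fun q => u q - B.g0 q) (fun q hq => by
      rw [gen_sub, u1 q hq, B.g0_harm q fun h => hq (hF q h), sub_zero])
      (convex_closedBall 0 (2 * e)) (fun q hq => mem_closedBall_zero_iff.2 (by
        have a1 := B.g_near q
        have a2 := B.g0_near q
        have a3 := norm_sub_le_norm_sub_add_norm_sub (B.g q) (f (B.pt q)) (B.g0 q)
        rw [norm_sub_rev] at a2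
        rw [u0 q hq]
        linarith only [hη, a1, a2, a3])) p)
  have hcl : ∀ p, ‖u p - f (B.pt p)‖ ≤ 3 * e := fun p => by
    have a3 := norm_sub_le_norm_sub_add_norm_sub (u p) (B.g0 p) (f (B.pt p))
    linarith only [hc0 p, B.g0_near p, a3]
  have hD : ∀ p, 0 ≤ ∑ q, B.r p q * ‖u q - u p‖ ^ 2 := fun p =>
    Finset.sum_nonneg fun q _ => mul_nonneg (hr p q) (sq_nonneg _)
  obtain ⟨V, hVd⟩ : ∃ V : B.N → ℝ, ∀ p, V p = h p - ‖u p‖ ^ 2 := ⟨_, fun _ => rfl⟩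
  have hVg : ∀ p, gen B.r V p = gen B.r h p -
      (∑ q, B.r p q * ‖u q - u p‖ ^ 2 + 2 * inner ℝ (u p) (gen B.r u p)) := fun p => by
    rw [← gen_norm_sq, ← gen_sub, funext hVd]
  have hV0 : ∀ p ∈ A, V p = 0 := fun p hp => by rw [hVd, h0 p hp, u0 p hp, sub_self]
  have hV1 : ∀ p, p ∉ A → gen B.r V p ≤ 0 := fun p hp => by
    rw [hVg, h1 p hp, u1 p hp, inner_zero_right]
    linarith only [hD p]
  have hV : ∀ p, 0 ≤ V p := mat_det_min hr hA hV1 fun p hp => (hV0 p hp).ge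
  have hZ : ∀ p, B.pt p ∈ B.Z → d ^ 2 / 64 ≤ V p := fun p hp =>
    B.energy hd he0 he ht0 ht hcl hV (fun q hq => u1 q fun h => hq ((hAm q).1 h))
      (fun q hq => by
        have : (fun q => ‖u q‖ ^ 2 + V q) = h := funext fun q => by rw [hVd]; ring
        rw [this]
        exact h1 q fun h => hq ((hAm q).1 h)) hp
  have hc : 0 ≤ 256 * e / d ^ 2 := by positivity
  have hug : ∀ p, ‖u p - B.g p‖ ≤ 256 * e / d ^ 2 * V p := by
    refine norm_le_super hr (B := A ∪ {p | B.pt p ∈ B.Z})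
      (hA.mono subset_union_left fun _ _ h => h) (fun p hp => ?_) (fun p hp => ?_) fun p hp => ?_
    · have hp1 : p ∉ A := fun h => hp (Or.inl h)
      rw [gen_sub, u1 p hp1, B.g_harm p (fun h => hp1 (hF p h)) fun h => hp (Or.inr h), sub_zero]
    · rw [gen_mul]
      exact mul_nonpos_of_nonneg_of_nonpos hc (hV1 p fun h => hp (Or.inl h))
    · rcases hp with hp | hp
      · rw [u0 p hp, hV0 p hp]
        simp
      · have a1 := mul_le_mul_of_nonneg_left (hZ p hp) hc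
        have a2 : 256 * e / d ^ 2 * (d ^ 2 / 64) = 4 * e := by
          field_simp
          ring
        have a3 := norm_sub_le_norm_sub_add_norm_sub (u p) (f (B.pt p)) (B.g p)
        have a4 := B.g_near p
        rw [norm_sub_rev] at a4
        linarith only [hcl p, hη, a1, a2, a3, a4]
  have hψ : ∀ p, -gen B.r (fun q => R ^ 2 - h q) p = gen B.r h p := fun p => by
    rw [gen_sub, gen_const, zero_sub, neg_neg]
  have key : ∀ p ∈ A, B.pt p ∉ frontier Sq → 0 ≤ gen B.r V p ∧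
      ‖gen B.r u p‖ ≤ 256 * e / d ^ 2 * gen B.r V p ∧ gen B.r V p ≤ 2 * gen B.r h p := by
    intro p hp hf
    have a1 := pot_gen_le hr hug (p := p) (by rw [u0 p hp, sub_self]) (by rw [hV0 p hp, mul_zero])
    rw [gen_sub, gen_mul, B.g_harm p hf (hAZ p hp), sub_zero] at a1
    have a2 : 0 ≤ gen B.r V p := by
      simp only [gen, hV0 p hp, sub_zero, smul_eq_mul]
      exact Finset.sum_nonneg fun q _ => mul_nonneg (hr p q) (hV q)
    refine ⟨a2, a1, ?_⟩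
    have hR0 : 0 ≤ R := (norm_nonneg _).trans (hu p)
    have a3 : |inner ℝ (u p) (gen B.r u p)| ≤ R * (256 * e / d ^ 2 * gen B.r V p) :=
      (abs_real_inner_le_norm _ _).trans (mul_le_mul (hu p) a1 (norm_nonneg _) hR0)
    have a4 : R * (256 * e / d ^ 2) ≤ 1 / 4 := by
      rw [← mul_div_assoc, div_le_iff₀ (by positivity)]
      linarith only [heR]
    have a5 := mul_le_mul_of_nonneg_right a4 a2
    have a6 := hVg p
    have a7 := neg_abs_le (inner ℝ (u p) (gen B.r u p))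
    rw [← mul_assoc] at a3
    linarith only [hD p, a3, a5, a6, a7]
  obtain ⟨τ, t0, t1, t2, t3, t4⟩ := pot_tau B hd hs hF hV0 hV1 hZ
  have hτ : ∀ p, -gen B.r (fun q => τ q + 512 / (s ^ 2 * d ^ 2) * (R ^ 2 - h q)) p =
      -gen B.r τ p + 512 / (s ^ 2 * d ^ 2) * gen B.r h p := fun p => by
    rw [gen_add, gen_mul, ← hψ]
    ring
  refine ⟨u, fun q => R ^ 2 - h q, τ, fun p hp => ?_, hu, hcl, fun p => ?_, t1, fun p hf => ?_,
    fun p hp => ?_⟩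
  · have hp' := (hAm p).2 hp
    exact ⟨u0 p hp', by rw [h0 p hp', u0 p hp'], t0 p hp'⟩
  · constructor <;> linarith only [(hh p).1, (hh p).2]
  · rw [hψ, hτ]
    by_cases hp : p ∈ A
    · obtain ⟨a1, a2, a3⟩ := key p hp hf
      have a4 := mul_le_mul_of_nonneg_left a3 hc
      have a5 := mul_le_mul_of_nonneg_left a3
        (show 0 ≤ 256 / (s ^ 2 * d ^ 2) by positivity)
      have a6 := t4 p hp
      have a7 : 256 * e / d ^ 2 * (2 * gen B.r h p) = 512 * e / d ^ 2 * gen B.r h p := by ring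
      have a8 : 256 / (s ^ 2 * d ^ 2) * (2 * gen B.r h p) =
          512 / (s ^ 2 * d ^ 2) * gen B.r h p := by ring
      exact ⟨by linarith only [a1, a3], by linarith only [a2, a4, a7], by linarith only [a5, a6, a8]⟩
    · rw [h1 p hp, u1 p hp, norm_zero, mul_zero, mul_zero]
      exact ⟨le_rfl, le_rfl, by linarith only [t2 p hp]⟩
  · have hp' : p ∉ A := fun h => hAZ p h (B.cut_zone hp)
    rw [hτ, h1 p hp', t3 p hp' hp]
    simp

end Pool.Agent.MP_17e62b_gt.G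

/-! Geometry of the big discs. -/

set_option linter.unusedSectionVars false

namespace Pool.Agent.MP_17e62b_gt.G

open Set H14 T55
open scoped Manifold

section

variable {E : Type} [NormedAddCommGroup E] [InnerProductSpace ℝ E] {f : ℂ → E} {t t' : ℝ}
  {y y' : ℂ}

theorem nf_mono (h : y ∈ NF f t) (ht : t ≤ t') : y ∈ NF f t' := by
  obtain ⟨b, hb, h⟩ := h
  exact ⟨b, hb, h.mono subset_rfl ht⟩

/-- `sq_basic`. -/
theorem nf_of_frontier (h : y ∈ frontier Sq) (ht : 0 ≤ t) : y ∈ NF f t := by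
  exact ⟨y, h, Near.refl (sq_basic.1.isClosed.frontier_subset h) ht⟩

theorem nf_near (h : y ∈ NF f t) (h' : Near f Sq t' y y') : y' ∈ NF f (t + t') := by
  obtain ⟨b, hb, h⟩ := h
  exact ⟨b, hb, add_comm t' t ▸ h'.symm.trans h⟩

variable {d ρ e η s : ℝ} {M : ℕ}

theorem BandNet.mid_en_of (B : BandNet f d ρ e η s M) (hy : y ∈ Sq) (h : y.re = 1 / 2)
    (hc : y.im ∉ Icc B.y0 B.y1) : ∃ i, y ∈ B.En i := by
  rcases not_and_or.1 hc with h1 | h1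
  · exact ⟨false, hy, .inr ⟨h, not_le.1 h1⟩⟩
  · exact ⟨true, hy, .inr ⟨h, not_le.1 h1⟩⟩

theorem BandNet.mid_en (B : BandNet f d ρ e η s M) (hy : y ∈ Sq) (h : y.re = 1 / 2)
    (hZ : y ∉ B.Z) : ∃ i, y ∈ B.En i := by
  refine B.mid_en_of hy h fun hc => hZ ?_
  have := B.cut_Z _ hc
  rwa [← h] at this

theorem BandNet.sqH_en (B : BandNet f d ρ e η s M) {i : Bool} (hy : y ∈ SqH i) : y ∈ B.En i := by
  refine ⟨⟨hy.1, ?_⟩, .inl hy⟩
  rw [hy.2]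
  cases i <;> simp only [Bool.false_eq_true, ↓ reduceIte, mem_Icc, Std.le_refl, zero_le_one, and_self]

theorem BandNet.en_iff (B : BandNet f d ρ e η s M) {i : Bool} (hy : y ∈ B.En i) :
    decide (B.y1 < y.im) = i := by
  obtain ⟨h1, h2, h3⟩ := B.y_lt
  cases i <;> rcases hy.2 with h | h <;>
    simp only [SqH, mem_ofPred_eq, Bool.false_eq_true, if_false, if_true, decide_eq_false_iff_not,
      decide_eq_true_eq, not_lt] at h ⊢ <;> linarith only [h.2, h1, h2, h3]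

/-- The segment of the middle line from `y` to the side; `B.ends`. -/
theorem BandNet.en_near (B : BandNet f d ρ e η s M) (hρ : 0 ≤ ρ) {i : Bool} (hy : y ∈ B.En i) :
    ∃ b ∈ SqH i, Near f Sq ρ y b := by
  obtain ⟨h1, h2, h3⟩ := B.y_lt
  rcases hy.2 with h | h
  · exact ⟨y, h, Near.refl hy.1 hρ⟩
  have key : ∀ a b c : ℝ, 0 ≤ a → b ≤ 1 → y.im ∈ Icc a b → c ∈ Icc a b →
      (∀ t ∈ Icc a b, ∀ t' ∈ Icc a b, ‖f ⟨1 / 2, t⟩ - f ⟨1 / 2, t'⟩‖ ≤ ρ) →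
      Near f Sq ρ y ⟨1 / 2, c⟩ := fun a b c ha hb hy hc hf => by
    refine ⟨(fun t : ℝ => (⟨1 / 2, t⟩ : ℂ)) '' Icc a b, ?_, isPreconnected_Icc.image _ ?_,
      ⟨_, hy, Complex.ext h.1.symm rfl⟩, ⟨c, hc, rfl⟩, ?_⟩
    · rintro _ ⟨t, ht, rfl⟩
      exact ⟨by norm_num, ha.trans ht.1, ht.2.trans hb⟩
    · simp only [Complex.mk_eq_add_mul_I]
      fun_prop
    · rintro _ ⟨t, ht, rfl⟩ _ ⟨t', ht', rfl⟩
      exact hf t ht t' ht'
  cases i
  · exact ⟨⟨1 / 2, 0⟩, ⟨by norm_num, rfl⟩, key 0 B.y0 0 le_rfl (by linarith only [h2, h3]) ⟨hy.1.2.1, le_of_lt h.2⟩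
      ⟨le_rfl, h1.le⟩ fun t ht t' ht' => B.ends t t' (.inl ⟨ht, ht'⟩)⟩
  · exact ⟨⟨1 / 2, 1⟩, ⟨by norm_num, rfl⟩, key B.y1 1 1 (by linarith only [h1, h2]) le_rfl ⟨le_of_lt h.2, hy.1.2.2⟩
      ⟨h3.le, le_rfl⟩ fun t ht t' ht' => B.ends t t' (.inr ⟨ht, ht'⟩)⟩

end

variable {n : ℕ} {S : Surface n} {N : ℕ} {ρ δ : ℝ} {G : Geo S N ρ δ} {e η s : ℝ} {M : ℕ}
  {X : Nets G e η s M} {C : Type} {Mx : ℕ}

/-- The surface on a band. -/
noncomputable abbrev Nets.fb (X : Nets G e η s M) (j : G.β) : ℂ → EuclideanSpace ℝ (Fin n) :=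
  fun z => S.f (G.Ψ j (X.k j z))

/-- The nodes on the middle line or on an end of the band. -/
def Nets.Zt (X : Nets G e η s M) (j : G.β) (p : (X.B j).N) : Prop :=
  ((X.B j).pt p).re = 1 / 2 ∨ (X.B j).pt p ∈ SqH false ∪ SqH true

open Classical in
/-- The node of the trace chain to which a node of the band belongs. -/
noncomputable def Nets.clN (X : Nets G e η s M) (j : G.β) (p : (X.B j).N) : X.Nu :=
  if h : (X.B j).IsCut p then .inr ⟨j, ⟨p, h⟩⟩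
  else .inl (G.en j (decide ((X.B j).y1 < ((X.B j).pt p).im)))

/-- `q` belongs to the same node as `p`. -/
def Nets.Same (X : Nets G e η s M) (j : G.β) (p q : (X.B j).N) : Prop :=
  X.Zt j q ∧ X.clN j q = X.clN j p

/-- An edge of the network in the half `σ`. -/
def Nets.Edge (X : Nets G e η s M) (j : G.β) (σ : Bool) (p q : (X.B j).N) : Prop :=
  0 < (X.B j).r p q ∧ ∃ K ⊆ Half σ, IsPreconnected K ∧ (X.B j).pt p ∈ K ∧ (X.B j).pt q ∈ K ∧
    (∀ z ∈ K, ∀ m, (X.B j).lam σ z m ≠ 0 → m = p ∨ m = q) ∧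
    (∀ a ∈ K, ∀ b ∈ K, ‖X.fb j a - X.fb j b‖ ≤ e) ∧
    ((X.B j).pt p ∉ (X.B j).Z → ∀ a ∈ K, ∀ b ∈ K, ‖X.fb j a - X.fb j b‖ ≤ η)

theorem Nets.exists_edge (X : Nets G e η s M) {j : G.β} {p q : (X.B j).N}
    (h : 0 < (X.B j).r p q) : ∃ σ, X.Edge j σ p q := by
  obtain ⟨σ, hσ⟩ := (X.B j).edge p q h
  exact ⟨σ, h, hσ⟩

theorem Nets.Edge.near {j : G.β} {σ : Bool} {p q : (X.B j).N} (h : X.Edge j σ p q) :
    Near (X.fb j) (Half σ) e ((X.B j).pt p) ((X.B j).pt q) ∧ ((X.B j).pt p ∉ (X.B j).Z →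
      Near (X.fb j) (Half σ) η ((X.B j).pt p) ((X.B j).pt q)) ∧
      (X.B j).pt p ∉ frontier Sq := by
  obtain ⟨h0, K, h1, h2, h3, h4, -, h5, h6⟩ := h
  exact ⟨⟨K, h1, h2, h3, h4, h5⟩, fun hz => ⟨K, h1, h2, h3, h4, h6 hz⟩,
    fun hf => h0.ne' ((X.B j).stop p q hf)⟩

theorem Nets.zt_en (X : Nets G e η s M) {j : G.β} {p : (X.B j).N} (h : X.Zt j p)
    (hc : ¬ (X.B j).IsCut p) : ∃ i, (X.B j).pt p ∈ (X.B j).En i ∧ X.clN j p = .inl (G.en j i) := by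
  obtain ⟨i, hi⟩ : ∃ i, (X.B j).pt p ∈ (X.B j).En i := by
    rcases h with h | h | h
    · exact (X.B j).mid_en_of ((X.B j).mem p) h fun h' => hc ⟨h, h'⟩
    · exact ⟨_, (X.B j).sqH_en h⟩
    · exact ⟨_, (X.B j).sqH_en h⟩
  exact ⟨i, hi, by rw [Nets.clN, dif_neg hc, (X.B j).en_iff hi]⟩

theorem Nets.sqH_cl (X : Nets G e η s M) {j : G.β} {i : Bool} {y : ℂ} (hy : y ∈ SqH i) :
    G.Ψ j (X.k j y) ∈ G.Cl (G.en j i) := by
  exact G.ends j i _ (X.sqH j i ▸ mem_image_of_mem _ hy)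

/-- G1. Hint: `en_near` twice, `Near.image` under `k j`, `G.long`. -/
theorem Nets.en_eq (X : Nets G e η s M) (hδ : 0 < δ) {j : G.β} {i i' : Bool} {y y' : ℂ}
    (hy : y ∈ (X.B j).En i) (hy' : y' ∈ (X.B j).En i') {t : ℝ} (ht : t ≤ δ / 2)
    (h : Near (X.fb j) Sq t y y') : i = i' := by
  obtain ⟨b, hb, h1⟩ := (X.B j).en_near (by linarith) hy
  obtain ⟨b', hb', h2⟩ := (X.B j).en_near (by linarith only [hδ]) hy'
  have h3 : Near (fun z => S.f (G.Ψ j z)) Sq δ (X.k j b) (X.k j b') :=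
    (((h1.symm.trans h).trans h2).mono subset_rfl (by linarith)).image
      (X.k j).continuous.continuousOn (fun z hz => X.sq j ▸ mem_image_of_mem _ hz) fun _ _ => rfl
  have h4 : X.k j b ∈ SqH i := X.sqH j i ▸ mem_image_of_mem _ hb
  have h5 : X.k j b' ∈ SqH i' := X.sqH j i' ▸ mem_image_of_mem _ hb'
  cases i <;> cases i'
  · rfl
  · exact (G.long j _ h4 _ h5 h3).elim
  · exact (G.long j _ h5 _ h4 h3.symm).elim
  · rfl

theorem Nets.en_close (X : Nets G e η s M) (hδ : 0 < δ) {j : G.β} {i : Bool} {y : ℂ}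
    (hy : y ∈ (X.B j).En i) : ‖X.fb j y - S.f (G.root (G.en j i))‖ ≤ ρ + δ / 10 := by
  obtain ⟨b, hb, h1⟩ := (X.B j).en_near (by linarith) hy
  have h2 := G.rad _ _ (X.sqH_cl (j := j) hb)
  have h3 := norm_sub_le_norm_sub_add_norm_sub (X.fb j y) (X.fb j b) (S.f (G.root (G.en j i)))
  have h4 : ‖X.fb j y - X.fb j b‖ ≤ δ / 10 := h1.norm_le
  linarith only [h2, h3, h4]

/-- G2. Hint: `pull_surf` for `Ψ j ∘ k j` (the homeomorphism `k j` maps `interior Sq` onto itself,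
`G.band_cl`) gives `b ∈ frontier Sq`; `b ∉ SqV i` by `side`; `G.iso`, `en_eq`. -/
theorem Nets.mid_class (X : Nets G e η s M) (hδ : 0 < δ) {x : G.κ} (hx : x ∉ G.Dir) {z : S.M}
    (hz : z ∈ G.Cl x) {j : G.β} {y : ℂ} (hy : y ∈ Sq) (h1 : y.re = 1 / 2) {t : ℝ} (ht : 0 < t)
    (ht' : 3 * t ≤ δ / 1000) (h : Near S.f univ t z (G.Ψ j (X.k j y))) :
    y ∈ NF (X.fb j) (3 * t) ∧ ∃ i, y ∈ (X.B j).En i ∧ G.en j i = x := by
  have hk : MapsTo (X.k j) Sq Sq := fun w hw => (X.sq j).le ⟨w, hw, rfl⟩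
  have hki : MapsTo (X.k j) (interior Sq) (interior Sq) := fun w hw => by
    have e := (X.k j).image_interior Sq
    rw [X.sq j] at e
    exact e.le ⟨w, hw, rfl⟩
  obtain ⟨b, hb, h2, h3⟩ := pull_surf (Ψ := fun w => G.Ψ j (X.k j w)) sq_basic.1
    ((G.cont j).comp (X.k j).continuous) ((G.inj j).comp (X.k j).injective.injOn hk)
    (by
      rintro ⟨w, hw, rfl⟩
      exact disjoint_left.1 (G.band_cl j x) ⟨_, hki hw, rfl⟩ hz) hy ht h
  have h4 : y ∈ NF (X.fb j) (3 * t) := ⟨b, hb, h2.symm⟩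
  obtain ⟨i, hi⟩ := (X.B j).mid_en hy h1 ((X.B j).not_zone ht' h4)
  have h5 : ∀ i', b ∉ SqV i' := fun i' hb' => by
    have e : (⟨1 / 2, y.im⟩ : ℂ) = y := Complex.ext h1.symm rfl
    exact (X.B j).side y.im hy.2 i' b hb' (by rw [e]; exact h2.symm.mono Subset.rfl ht')
  obtain ⟨i', h6⟩ : ∃ i', b ∈ SqH i' := by
    rw [sq_basic.2.2.2] at hb
    rcases hb with ((hb | hb) | hb) | hb
    · exact ⟨_, hb⟩
    · exact ⟨_, hb⟩
    · exact absurd hb (h5 _)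
    · exact absurd hb (h5 _)
  have h7 : i = i' := X.en_eq hδ hi ((X.B j).sqH_en h6) (by linarith only [ht, ht']) h2.symm
  exact ⟨h4, i, hi, h7 ▸ G.iso x hx _ z hz _ (X.sqH_cl h6) (h3.mono Subset.rfl (by linarith only [ht, ht']))⟩

/-- G3. Hint: the witness meets the open set `O = Tb i \ ⋃ Cl` and its complement, so it has a
point of `closure O \ O`; `G.iso`. -/
theorem Geo.tube_adj (G : Geo S N ρ δ) {x : G.κ} (hx : x ∉ G.Dir) {z y : S.M} (hz : z ∈ G.Cl x)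
    {i : G.τ} (hy : y ∈ G.Tb i \ ⋃ x, G.Cl x) {t : ℝ} (ht : t ≤ δ) (h : Near S.f univ t z y) :
    (G.Tb i ∩ G.Cl x).Nonempty := by
  obtain ⟨K, -, h1, h2, h3, h4⟩ := h
  obtain ⟨w, ⟨h5, h6⟩, h7⟩ := not_subset.1 fun h5 =>
    (h1.subset_of_closure_inter_subset (G.tb_open i) ⟨y, h3, hy⟩ h5 h2).2 (mem_iUnion.2 ⟨x, hz⟩)
  have h8 : w ∈ G.Tb i := closure_minimal sdiff_subset (G.tb_closed i) h5
  obtain ⟨x', h9⟩ := mem_iUnion.1 (not_not.1 fun h9 => h7 ⟨h8, h9⟩)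
  obtain rfl := G.iso x hx x' z hz w h9
    ⟨K, subset_univ _, h1, h2, h6, fun a ha b hb => (h4 a ha b hb).trans ht⟩
  exact ⟨w, h8, h9⟩

/-- The polygon of a disc. -/
noncomputable abbrev Big.P (D : Big X C Mx) (c : C) : Set ℂ := (lens (D.m c)).P

/-- The surface on a disc. -/
noncomputable abbrev Big.fc (D : Big X C Mx) (c : C) : ℂ → EuclideanSpace ℝ (Fin n) := fun z => S.f (D.Θ c z)

/-- The images of subsets of the half bands. -/
def Big.Im (D : Big X C Mx) (c : C) (U : G.β → Bool → Set ℂ) : Set ℂ :=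
  {b | ∃ j σ, D.d j σ = c ∧ b ∈ D.ι j σ '' (Half σ ∩ U j σ)}

/-- The part of the frontier that lies in classes. -/
def Big.Fb (D : Big X C Mx) (c : C) : Set ℂ :=
  frontier (D.P c) ∩ (D.A c ∪ D.Im c fun _ _ => SqH false ∪ SqH true)

/-- The roots. -/
def Big.Rt (D : Big X C Mx) (c : C) (t : ℝ) : Set ℂ := D.A c ∪ D.Im c fun j _ => NF (X.fb j) t

/-- The starting points of long steps. -/
def Big.Sv (D : Big X C Mx) (c : C) : Set ℂ := D.A c ∪ D.Im c fun _ σ => SqV σ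

/-- The points of `Big.sep`. -/
def Big.Sd (D : Big X C Mx) (c : C) : Set ℂ :=
  {b | b ∈ D.A c ∨ ∃ j σ i, D.d j σ = c ∧ b ∈ D.ι j σ '' (Half σ ∩ (X.B j).En i)}

variable {D : Big X C Mx} {c : C} {j : G.β} {σ : Bool} {t t₀ : ℝ}

theorem Big.near_up {x y : ℂ} (h : Near (X.fb j) (Half σ) t x y) :
    Near (D.fc (D.d j σ)) (D.P (D.d j σ)) t (D.ι j σ x) (D.ι j σ y) := by
  exact h.image (D.ι_cont j σ) (D.ι_mem j σ) fun a ha => congrArg S.f (D.ι_comm j σ a ha)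

theorem Big.near_surf {x y : ℂ} (h : Near (D.fc c) (D.P c) t x y) :
    Near S.f univ t (D.Θ c x) (D.Θ c y) := by
  exact h.image (D.cont c).continuousOn (mapsTo_univ _ _) fun _ _ => rfl

theorem sv_rt_V {i : Bool} {y : ℂ} (h : y ∈ SqV i) : y ∈ frontier Sq := by
  rw [sq_basic.2.2.2]
  cases i
  · exact Or.inl (Or.inr h)
  · exact Or.inr h

theorem Big.sv_rt (ht : 0 ≤ t) : D.Sv c ⊆ D.Rt c t := by
  rintro b (hb | ⟨j, σ, e, y, ⟨h1, h2⟩, rfl⟩)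
  · exact Or.inl hb
  · exact Or.inr ⟨j, σ, e, y, ⟨h1, nf_of_frontier (sv_rt_V h2) ht⟩, rfl⟩

theorem Big.rt_sub : D.Rt c t ⊆ D.P c := by
  rintro b (hb | ⟨j, σ, rfl, y, ⟨h1, -⟩, rfl⟩)
  · exact D.A_sub c hb
  · exact D.ι_mem j σ h1

theorem Big.fb_spec (ht : 0 ≤ t) {b : ℂ} (hb : b ∈ D.Fb c) : b ∈ D.Rt c t ∧ b ∈ D.Sd c ∧
    ∃ x, D.app c (D.lab c b) = .inl x ∧ D.Θ c b ∈ G.Cl x := by
  obtain ⟨hf, hb | ⟨j, σ, rfl, y, ⟨h1, h2⟩, rfl⟩⟩ := hb
  · exact ⟨Or.inl hb, Or.inl hb, D.lab_A c b hb hf⟩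
  · obtain ⟨i, hi⟩ : ∃ i, y ∈ SqH i := h2.elim (fun g => ⟨_, g⟩) fun g => ⟨_, g⟩
    have h3 : y ∈ frontier Sq := by
      rw [sq_basic.2.2.2]
      exact Or.inl (Or.inl h2)
    have h4 := (X.B j).sqH_en hi
    refine ⟨Or.inr ⟨j, σ, rfl, y, ⟨h1, nf_of_frontier h3 ht⟩, rfl⟩,
      Or.inr ⟨j, σ, i, rfl, y, ⟨h1, h4⟩, rfl⟩, G.en j i, D.lab_en j σ i y h1 h4, ?_⟩
    rw [D.ι_comm j σ y h1]
    exact X.sqH_cl hi

theorem Big.app_nd {p : (X.B j).N} (hp : (X.B j).pt p ∈ Half σ) (h : X.Zt j p) :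
    D.app (D.d j σ) (D.lab (D.d j σ) (D.ι j σ ((X.B j).pt p))) = X.clN j p := by
  by_cases hc : (X.B j).IsCut p
  · rw [Nets.clN, dif_pos hc]
    exact D.lab_cut j σ ⟨p, hc⟩
  · obtain ⟨i, h1, h2⟩ := X.zt_en h hc
    rw [h2]
    exact D.lab_en j σ i _ hp h1

/-- G4. Hint: `joined_of_convex` with `u z = - ‖fc z - fc (ι y)‖`, `c = - 3 t / 2`; `joined_tail`
with `A c` and the sets `ι j' σ' '' Half σ'`, `d j' σ' = d j σ`; `joined_pull`, `A_inter`,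
`Near.of_joinedIn`. -/
theorem Big.pull {x y : ℂ} (hy : y ∈ Half σ) (ht : 0 < t)
    (h : Near (D.fc (D.d j σ)) (D.P (D.d j σ)) t x (D.ι j σ y)) :
    ∃ b ∈ Half σ, Near (X.fb j) (Half σ) (3 * t) b y ∧ (x = D.ι j σ b ∨ b ∈ SqV σ) := by
  obtain ⟨K, hK, pK, xK, yK, hv⟩ := h
  have cf : Continuous (D.fc (D.d j σ)) := S.continuous.comp (D.cont _)
  set w := D.fc (D.d j σ) (D.ι j σ y) with hw
  have j1 := joined_of_convex (K := D.P (D.d j σ)) ((lens _).convex_reg 0)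
    (u := fun z => -‖D.fc (D.d j σ) z - w‖) (cf.sub continuous_const).norm.neg.continuousOn pK hK
    (c := -(3 * t / 2)) (fun z hz => by linarith [hv z hz _ yK]) xK yK
  have fin : ∀ b ∈ Half σ, JoinedIn ({z | z ∈ D.P (D.d j σ) ∧
      -(3 * t / 2) ≤ -‖D.fc (D.d j σ) z - w‖} ∩ D.ι j σ '' Half σ) (D.ι j σ b) (D.ι j σ y) →
      Near (X.fb j) (Half σ) (3 * t) b y := fun b hb g => by
    rw [show 3 * t = 2 * (3 * t / 2) by ring]
    refine Near.of_joinedIn (c := w) ((joined_pull (isCompact_half σ) (D.ι_cont j σ) (D.ι_inj j σ)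
      hb hy g).mono fun a ha => ⟨ha.1, ?_⟩)
    have h1 : D.fc (D.d j σ) (D.ι j σ a) = X.fb j a := congrArg S.f (D.ι_comm j σ a ha.1)
    rw [← h1]
    exact neg_le_neg_iff.1 ha.2.2
  rcases joined_tail (F := fun q : {q : G.β × Bool // D.d q.1 q.2 = D.d j σ} =>
      D.ι q.1.1 q.1.2 '' Half q.1.2) (i := ⟨(j, σ), rfl⟩) (D.A_closed (D.d j σ))
    (fun q => ((isCompact_half _).image_of_continuousOn (D.ι_cont _ _)).isClosed)
    (fun q q' g => disjoint_left.2 fun _ ⟨a, ha, e1⟩ ⟨a', ha', e2⟩ => g (Subtype.ext (Prod.ext_iff.2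
      (D.ι_disj _ _ _ _ (q.2.trans q'.2.symm) a ha a' ha' (e1.trans e2.symm)))))
    (fun z hz => (D.pieces _ z hz.1).imp id fun ⟨j', σ', e1, e2⟩ =>
      mem_iUnion.2 ⟨⟨(j', σ'), e1⟩, e2⟩) j1 (mem_image_of_mem _ hy) with g | ⟨_, ⟨hA, b, hb, rfl⟩, g, -⟩
  · obtain ⟨b, hb, rfl⟩ := g.source_mem.2
    exact ⟨b, hb, fin b hb g, Or.inl rfl⟩
  · exact ⟨b, hb, fin b hb g, Or.inr (D.A_inter j σ b hb hA)⟩

/-- G5. Hint: `pull`, `A_inter`, `ι_disj`, `ι_inj`. -/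
theorem Big.root_pull {x y : ℂ} (hy : y ∈ Half σ) (ht : 0 < t) (ht₀ : 0 ≤ t₀)
    (hx : x ∈ D.Rt (D.d j σ) t₀) (h : Near (D.fc (D.d j σ)) (D.P (D.d j σ)) t x (D.ι j σ y)) :
    y ∈ NF (X.fb j) (t₀ + 3 * t) := by
  obtain ⟨b, hb, hn, hx'⟩ := Big.pull hy ht h
  refine nf_near ?_ (hn.mono (half_sub σ) le_rfl)
  rcases hx' with rfl | hV
  · rcases hx with hA | ⟨j', σ', e1, y', ⟨h1, h2⟩, e2⟩
    · exact nf_of_frontier (sv_rt_V (D.A_inter j σ b hb hA)) ht₀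
    · obtain ⟨rfl, rfl⟩ := D.ι_disj _ _ _ _ e1 y' h1 b hb e2
      exact D.ι_inj _ _ h1 hb e2 ▸ h2
  · exact nf_of_frontier (sv_rt_V hV) ht₀

/-- G6. Hint: `pieces`, `ι_fr`; the middle line is excluded by `pull` and `side`. -/
theorem Big.exit_fr {a y : ℂ} (ha : a ∈ D.Sv c) (hy : y ∈ frontier (D.P c)) (ht : 0 < t)
    (ht' : 3 * t ≤ δ / 1000) (h : Near (D.fc c) (D.P c) t a y) : y ∈ D.Fb c := by
  refine ⟨hy, ?_⟩
  rcases D.pieces c y h.mem.2 with hA | ⟨j, σ, rfl, w, hw, rfl⟩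
  · exact Or.inl hA
  · rcases (D.ι_fr j σ w hw).1 hy with h1 | h1
    · exfalso
      obtain ⟨b, hb, hn, hx⟩ := Big.pull hw ht h
      have hV : b ∈ SqV σ := by
        rcases hx with rfl | hV
        · rcases ha with hA | ⟨j', σ', e1, y', ⟨h2, h3⟩, e2⟩
          · exact D.A_inter j σ b hb hA
          · obtain ⟨rfl, rfl⟩ := D.ι_disj _ _ _ _ e1 y' h2 b hb e2
            exact D.ι_inj _ _ h2 hb e2 ▸ h3
        · exact hV
      have e1 : (⟨1 / 2, w.im⟩ : ℂ) = w := Complex.ext h1.symm rfl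
      refine (X.B j).side w.im hw.1.2 σ b hV ?_
      rw [e1]
      exact hn.symm.mono (half_sub σ) ht'
    · exact Or.inr ⟨j, σ, rfl, w, ⟨hw, h1⟩, rfl⟩

theorem Big.emit_mid (D : Big X C Mx) {r : ℝ} (hr : 0 < r) (hr' : 1000 * r ≤ δ / 1000) {x : G.κ}
    (hx : x ∉ G.Dir) {z : S.M} (hz : z ∈ G.Cl x) {u : ℂ} (hu : u ∈ Half σ) (h1 : u.re = 1 / 2)
    (h : Near S.f univ (20 * r) z (G.Ψ j (X.k j u))) :
    D.ι j σ u ∈ D.Rt (D.d j σ) (60 * r) ∧ D.ι j σ u ∈ D.Sd (D.d j σ) ∧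
      D.app (D.d j σ) (D.lab (D.d j σ) (D.ι j σ u)) = .inl x := by
  obtain ⟨h2, i, h3, rfl⟩ := X.mid_class (by linarith only [hr, hr']) hx hz hu.1 h1 (by linarith only [hr]) (by linarith) h
  exact ⟨Or.inr ⟨j, σ, rfl, u, ⟨hu, nf_mono h2 (by linarith only [])⟩, rfl⟩,
    Or.inr ⟨j, σ, i, rfl, u, ⟨hu, h3⟩, rfl⟩, D.lab_en j σ i u hu h3⟩

/-- G7. Emission into a disc. Hint: in the first case `back_to_frontier` gives `b`; if
`b ∈ Fb c` use `fb_spec` and `G.iso`, otherwise `b` is on a middle line: `mid_class` with `20 r`,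
`lab_en`. In the second case `b = y' = ι j false z`. -/
theorem Big.emit (D : Big X C Mx) {r : ℝ} (hr : 0 < r) (hr' : 1000 * r ≤ δ / 1000) {x : G.κ}
    (hx : x ∉ G.Dir) {z y : S.M} (hz : z ∈ G.Cl x) (h : Near S.f univ (4 * r) z y)
    (hy : (∃ c, y ∈ D.Θ c '' interior (D.P c)) ∨
      ∃ j, ∃ w ∈ Sq, w.re = 1 / 2 ∧ y = G.Ψ j (X.k j w)) :
    ∃ c, ∃ b ∈ frontier (D.P c), b ∈ D.Rt c (60 * r) ∧ b ∈ D.Sd c ∧
      D.app c (D.lab c b) = .inl x ∧ ∃ y', D.Θ c y' = y ∧ Near (D.fc c) (D.P c) (16 * r) b y' := by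
  rcases hy with ⟨c, w, hw, rfl⟩ | ⟨j, w, hw, h1, rfl⟩
  · have hP : IsCompact (D.P c) := (lens (D.m c)).compact_reg 0
    obtain ⟨b, hb, h2, h3⟩ := back_to_frontier hP (D.cont c) (D.inj c)
      (fun h2 => disjoint_left.1 (D.off c x) h2 hz) hw (by linarith only [hr]) h
    have h4 : Near S.f univ (20 * r) z (D.Θ c b) := h3.mono Subset.rfl (by linarith only [])
    suffices h5 : b ∈ D.Rt c (60 * r) ∧ b ∈ D.Sd c ∧ D.app c (D.lab c b) = .inl x from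
      ⟨c, b, hb, h5.1, h5.2.1, h5.2.2, w, rfl, h2.mono Subset.rfl (by linarith only [])⟩
    by_cases hF : b ∈ D.Fb c
    · obtain ⟨h5, h6, x', h7, h8⟩ := Big.fb_spec (t := 60 * r) (by linarith only [hr]) hF
      exact ⟨h5, h6, G.iso x hx x' z hz _ h8 (h4.mono Subset.rfl (by linarith)) ▸ h7⟩
    · obtain ⟨j, σ, rfl, u, hu, rfl⟩ := (D.pieces c b (hP.isClosed.frontier_subset hb)).resolve_left
        fun h5 => hF ⟨hb, Or.inl h5⟩
      refine D.emit_mid hr hr' hx hz hu (((D.ι_fr j σ u hu).1 hb).resolve_right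
        fun h5 => hF ⟨hb, Or.inr ⟨j, σ, rfl, u, ⟨hu, h5⟩, rfl⟩⟩) ?_
      rwa [D.ι_comm j σ u hu] at h4
  · have hu : w ∈ Half false := ⟨hw, h1.le⟩
    obtain ⟨h2, h3, h4⟩ := D.emit_mid hr hr' hx hz hu h1 (h.mono Subset.rfl (by linarith only [hr]))
    exact ⟨_, _, (D.ι_fr j false w hu).2 (Or.inl h1), h2, h3, h4, _, D.ι_comm j false w hu,
      Near.refl (D.ι_mem j false hu) (by linarith only [hr])⟩

end Pool.Agent.MP_17e62b_gt.G

/-! The states of the global chain. -/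

set_option linter.unusedSectionVars false

namespace Pool.Agent.MP_17e62b_gt.G

open Set H14 T55
open scoped BigOperators Manifold

/-- The order of the small constants. -/
structure Par (ρ δ e η r : ℝ) : Prop where
  η0 : 0 < η
  ηr : 100 * η ≤ r
  rd : 1000 * r ≤ δ / 1000
  ηe : η ≤ e
  ed : 100 * e ≤ δ / 1000
  δρ : δ ≤ ρ

variable {n : ℕ} {S : Surface n} {N : ℕ} {ρ δ : ℝ} {G : Geo S N ρ δ} {e η s : ℝ} {M : ℕ}
  {X : Nets G e η s M} {C : Type} [Fintype C] {Mx : ℕ} {D : Big X C Mx}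

/-- Finite nets in the discs, the classes and the tubes. -/
structure Pts (D : Big X C Mx) where
  net : C → Finset ℂ
  zn : G.κ → Finset S.M
  tn : G.τ → Finset S.M
  η₀ : ℝ
  pos : 0 < η₀
  unif : ∀ c, ∀ y ∈ D.P c, ∀ y' ∈ D.P c, ‖y - y'‖ ≤ η₀ → ‖D.fc c y - D.fc c y'‖ ≤ η
  net_sub : ∀ c, ∀ z ∈ net c, z ∈ D.A c ∨ z ∈ D.Fb c
  net_A : ∀ c, ∀ y ∈ D.A c, ∃ z ∈ net c, ‖y - z‖ < η₀
  net_Fb : ∀ c, ∀ y ∈ D.Fb c, ∃ z ∈ net c, z ∈ D.Fb c ∧ ‖y - z‖ < η₀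
  zn_sub : ∀ x, ∀ z ∈ zn x, z ∈ G.Cl x
  zn_dense : ∀ x, ∀ y ∈ G.Cl x, ∃ z ∈ zn x, ‖S.f y - S.f z‖ < η
  zn_net : ∀ c, ∀ z ∈ net c, ∀ x, D.Θ c z ∈ G.Cl x → D.Θ c z ∈ zn x
  tn_sub : ∀ i, ∀ z ∈ tn i, z ∈ G.Tb i \ ⋃ x, G.Cl x
  tn_dense : ∀ i, ∀ y ∈ G.Tb i \ ⋃ x, G.Cl x, ∃ z ∈ tn i, ‖S.f y - S.f z‖ < η

theorem exists_pts_unif (D : Big X C Mx) (hη : 0 < η) : ∃ t > 0, ∀ c, ∀ y ∈ D.P c, ∀ y' ∈ D.P c,
    ‖y - y'‖ ≤ t → ‖D.fc c y - D.fc c y'‖ ≤ η := by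
  have h : ∀ c, ∀ᶠ t in nhdsWithin (0 : ℝ) (Ioi 0), ∀ y ∈ D.P c, ∀ y' ∈ D.P c,
      ‖y - y'‖ ≤ t → ‖D.fc c y - D.fc c y'‖ ≤ η := fun c => by
    obtain ⟨t, ht, h⟩ := Metric.uniformContinuousOn_iff_le.1
      (IsCompact.uniformContinuousOn_of_continuous (s := D.P c) ((lens (D.m c)).compact_reg 0)
        (f := D.fc c) (S.continuous.comp (D.cont c)).continuousOn) η hη
    filter_upwards [Ioc_mem_nhdsGT ht] with t' ht' y hy y' hy' h'
    rw [← dist_eq_norm] at h' ⊢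
    exact h y hy y' hy' (h'.trans ht'.2)
  obtain ⟨t, h1, h2⟩ := ((Filter.eventually_all.2 h).and self_mem_nhdsWithin).exists
  exact ⟨t, h2, h1⟩

/-- S1. Hint: uniform continuity on the compact polygons, finitely many `c`; `exists_fnet` for the
identity of `ℂ` and for `S.f` (bounded: `S.compact`). -/
theorem exists_pts (D : Big X C Mx) (hη : 0 < η) : Nonempty (Pts D) := by
  classical
  have := S.compact
  obtain ⟨t, ht, hu⟩ := exists_pts_unif D hη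
  have hP : ∀ c, IsCompact (D.P c) := fun c => (lens (D.m c)).compact_reg 0
  have h1 : ∀ c, ∀ U ⊆ D.P c, ∃ Z : Finset ℂ, (∀ z ∈ Z, z ∈ U) ∧ ∀ x ∈ U, ∃ z ∈ Z, ‖x - z‖ < t :=
    fun c U hU => by
      obtain ⟨R, hR⟩ := (hP c).isBounded.exists_norm_le
      exact exists_fnet (fun z : ℂ => z) U (fun x hx => hR x (hU hx)) ht
  have h2 : ∀ U : Set S.M, ∃ Z : Finset S.M, (∀ z ∈ Z, z ∈ U) ∧
      ∀ x ∈ U, ∃ z ∈ Z, ‖S.f x - S.f z‖ < η := fun U => by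
    obtain ⟨R, hR⟩ := (isCompact_range S.continuous).isBounded.exists_norm_le
    exact exists_fnet S.f U (fun x _ => hR _ (mem_range_self x)) hη
  choose ZA a1 a2 using fun c => h1 c _ (D.A_sub c)
  choose ZF b1 b2 using fun c =>
    h1 c (D.Fb c) (inter_subset_left.trans (hP c).isClosed.frontier_subset)
  choose Z z1 z2 using h2
  refine ⟨⟨fun c => ZA c ∪ ZF c, fun x => Z (G.Cl x) ∪
    (Finset.univ.biUnion fun c => (ZA c ∪ ZF c).image (D.Θ c)).filter (· ∈ G.Cl x),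
    fun i => Z (G.Tb i \ ⋃ x, G.Cl x), t, ht, hu, fun c z hz => ?_, fun c y hy => ?_,
    fun c y hy => ?_, fun x z hz => ?_, fun x y hy => ?_, fun c z hz x hx => ?_,
    fun i => z1 _, fun i => z2 _⟩⟩
  · exact (Finset.mem_union.1 hz).imp (a1 c z) (b1 c z)
  · obtain ⟨z, hz, h⟩ := a2 c y hy
    exact ⟨z, Finset.mem_union_left _ hz, h⟩
  · obtain ⟨z, hz, h⟩ := b2 c y hy
    exact ⟨z, Finset.mem_union_right _ hz, b1 c z hz, h⟩
  · exact (Finset.mem_union.1 hz).elim (z1 _ z) fun h => (Finset.mem_filter.1 h).2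
  · obtain ⟨z, hz, h⟩ := z2 _ y hy
    exact ⟨z, Finset.mem_union_left _ hz, h⟩
  · exact Finset.mem_union_right _ (Finset.mem_filter.2 ⟨Finset.mem_biUnion.2
      ⟨c, Finset.mem_univ _, Finset.mem_image_of_mem _ hz⟩, hx⟩)

/-- States in the discs. -/
inductive DSt (Q : Pts D) : Type
  | pt (c : C) (z : ℂ) (h : z ∈ Q.net c)
  | nd (j : G.β) (σ : Bool) (p : (X.B j).N) (h : (X.B j).pt p ∈ Half σ)

/-- States in the tubes. -/
structure TSt (Q : Pts D) : Type where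
  i : G.τ
  y : S.M
  h : y ∈ Q.tn i

/-- States in the classes and on the middle lines. -/
inductive ZSt (Q : Pts D) : Type
  | cn (x : G.κ) (y : S.M) (h : y ∈ Q.zn x)
  | nd (j : G.β) (p : (X.B j).N) (h : X.Zt j p)

variable {Q : Pts D}

instance : Finite (DSt Q) := by
  refine Finite.of_surjective (α := (Σ c, Q.net c) ⊕ (Σ j, Σ σ : Bool,
    {p // (X.B j).pt p ∈ Half σ})) (Sum.elim (fun a => .pt a.1 a.2.1 a.2.2)
      fun a => .nd a.1 a.2.1 a.2.2.1 a.2.2.2) ?_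
  rintro (⟨c, z, h⟩ | ⟨j, σ, p, h⟩)
  exacts [⟨.inl ⟨c, z, h⟩, rfl⟩, ⟨.inr ⟨j, σ, p, h⟩, rfl⟩]

instance : Finite (TSt Q) :=
  Finite.of_surjective (α := Σ i, Q.tn i) (fun a => ⟨a.1, a.2.1, a.2.2⟩)
    fun t => ⟨⟨t.i, t.y, t.h⟩, rfl⟩

instance : Finite (ZSt Q) := by
  refine Finite.of_surjective (α := (Σ x, Q.zn x) ⊕ (Σ j, {p // X.Zt j p}))
    (Sum.elim (fun a => .cn a.1 a.2.1 a.2.2) fun a => .nd a.1 a.2.1 a.2.2) ?_
  rintro (⟨c, z, h⟩ | ⟨j, p, h⟩)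
  exacts [⟨.inl ⟨c, z, h⟩, rfl⟩, ⟨.inr ⟨j, p, h⟩, rfl⟩]

noncomputable instance : Fintype (DSt Q) := Fintype.ofFinite _

noncomputable instance : Fintype (TSt Q) := Fintype.ofFinite _

noncomputable instance : Fintype (ZSt Q) := Fintype.ofFinite _

/-- All states. -/
abbrev St (Q : Pts D) : Type := DSt Q ⊕ (TSt Q ⊕ ZSt Q)

/-- The disc of a state. -/
def DSt.dsc : DSt Q → C
  | .pt c _ _ => c
  | .nd j σ _ _ => D.d j σ

/-- The position in the polygon. -/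
def DSt.pos : DSt Q → ℂ
  | .pt _ z _ => z
  | .nd j σ p _ => D.ι j σ ((X.B j).pt p)

/-- The states on the frontier. -/
def DSt.gate (u : DSt Q) : Prop := u.pos ∈ frontier (D.P u.dsc)

/-- The corner to which a gate belongs. -/
def DSt.lab (u : DSt Q) : Corner fun c => lens (D.m c) := ⟨u.dsc, D.lab u.dsc u.pos⟩

/-- The node of an outer state. -/
noncomputable def ZSt.cl : ZSt Q → X.Nu
  | .cn x _ _ => .inl x
  | .nd j p _ => X.clN j p

/-- The outer states in a class. -/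
def ZSt.Hit : ZSt Q → Prop
  | .cn _ _ _ => True
  | .nd j p _ => (X.B j).pt p ∈ frontier Sq

/-- The cut nodes. -/
def ZSt.Cut : ZSt Q → Prop
  | .cn _ _ _ => False
  | .nd j p _ => (X.B j).IsCut p

/-- The tube of `t` meets the class `u`. -/
def TSt.adj (t : TSt Q) (u : X.Nu) : Prop := ∃ x, u = .inl x ∧ (G.Tb t.i ∩ G.Cl x).Nonempty

/-- The absorbing states. -/
def Ab (Q : Pts D) : Set (St Q) := Sum.inr '' absZ (TSt Q) ZSt.cl (Sum.inl '' G.Dir)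

/-- The states that make long steps. -/
def Rs (Q : Pts D) : St Q → Prop
  | .inl (.pt c z _) => z ∉ frontier (D.P c)
  | .inl (.nd j _ p _) => ¬ X.Zt j p ∧ (X.B j).pt p ∈ frontier Sq
  | .inr (.inl _) => True
  | .inr (.inr z) => z.Hit

/-- A function on the states from a function on the surface and functions on the networks. -/
def ev {Y : Type} (Q : Pts D) (a : S.M → Y) (b : ∀ j, (X.B j).N → Y) : St Q → Y
  | .inl (.pt c z _) => a (D.Θ c z)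
  | .inl (.nd j _ p _) => b j p
  | .inr (.inl t) => a t.y
  | .inr (.inr (.cn _ y _)) => a y
  | .inr (.inr (.nd j p _)) => b j p

open Classical in
/-- The weights on a half band. -/
noncomputable def mu (Q : Pts D) (j : G.β) (σ : Bool) (y : ℂ) : DSt Q → ℝ
  | .pt _ _ _ => 0
  | .nd j' σ' p _ => if j' = j ∧ σ' = σ then (X.B j').lam σ' y p else 0

theorem mu_ne_nd {j : G.β} {σ : Bool} (y : ℂ) (p : (X.B j).N) (hp : (X.B j).pt p ∈ Half σ) :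
    mu Q j σ y (.nd j σ p hp) = (X.B j).lam σ y p := if_pos ⟨rfl, rfl⟩

theorem mu_ne {j : G.β} {σ : Bool} {y : ℂ} {u : DSt Q} (h : mu Q j σ y u ≠ 0) :
    ∃ p hp, u = .nd j σ p hp ∧ (X.B j).lam σ y p ≠ 0 := by
  rcases u with ⟨c, z, hz⟩ | ⟨j', σ', p, hp⟩
  · exact absurd rfl h
  · by_cases e : j' = j ∧ σ' = σ
    · obtain ⟨rfl, rfl⟩ := e
      exact ⟨p, hp, rfl, by rwa [mu_ne_nd] at h⟩
    · exact absurd (if_neg e) h

/-- S2. Hint: a node with non-zero weight lies in the half (`BandNet.loc`, `Near.mem`);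
`Finset.sum_bij_ne_zero` or `Finset.sum_of_injOn`. -/
theorem cmb_mu {Y : Type} [AddCommGroup Y] [Module ℝ Y] {j : G.β} {σ : Bool} {y : ℂ}
    (hy : y ∈ Half σ) {φ : DSt Q → Y} {ψ : (X.B j).N → Y} (h : ∀ p hp, φ (.nd j σ p hp) = ψ p) :
    cmb φ (mu Q j σ y) = cmb ψ ((X.B j).lam σ y) := by
  have hm : ∀ p, (X.B j).lam σ y p • ψ p ≠ 0 → (X.B j).pt p ∈ Half σ := fun p hp =>
    ((X.B j).loc σ y hy p (left_ne_zero_of_smul hp)).1.mem.2
  refine (Finset.sum_bij_ne_zero (fun p _ hp => DSt.nd j σ p (hm p hp))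
    (fun _ _ _ => Finset.mem_univ _) (fun p _ _ q _ _ e => ?_) (fun u _ hu => ?_)
    fun p _ hp => ?_).symm
  · injection e
  · obtain ⟨p, hp, rfl, -⟩ := mu_ne (left_ne_zero_of_smul hu)
    exact ⟨p, Finset.mem_univ _, by rwa [mu_ne_nd, h] at hu, rfl⟩
  · rw [mu_ne_nd, h]

theorem mu_simplex {j : G.β} {σ : Bool} {y : ℂ} (hy : y ∈ Half σ) :
    mu Q j σ y ∈ stdSimplex ℝ (DSt Q) := by
  refine ⟨fun u => ?_, ?_⟩
  · rcases eq_or_ne (mu Q j σ y u) 0 with h | h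
    · exact h.ge
    · obtain ⟨p, hp, rfl, -⟩ := mu_ne h
      rw [mu_ne_nd]
      exact ((X.B j).simplex σ y hy).1 p
  · have := cmb_mu (Q := Q) (j := j) hy (φ := fun _ => (1 : ℝ)) (ψ := fun _ => 1) fun _ _ => rfl
    simpa only [cmb, smul_eq_mul, mul_one, ((X.B j).simplex σ y hy).2] using this

theorem DSt.pos_mem (u : DSt Q) : u.pos ∈ D.P u.dsc := by
  rcases u with ⟨c, z, hz⟩ | ⟨j, σ, p, hp⟩
  · exact (Q.net_sub c z hz).elim (fun h => D.A_sub c h) fun h =>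
      ((lens (D.m c)).compact_reg 0).isClosed.frontier_subset h.1
  · exact D.ι_mem j σ hp

theorem DSt.gate_nd {j : G.β} {σ : Bool} {p : (X.B j).N} {h : (X.B j).pt p ∈ Half σ} :
    (DSt.nd j σ p h : DSt Q).gate ↔ X.Zt j p := by
  exact D.ι_fr j σ _ h

/-- Weights, exits from the gates and potentials on the bands. -/
structure Aux (Q : Pts D) (r R : ℝ) where
  lam : C → ℂ → DSt Q → ℝ
  out : DSt Q → ZSt Q
  u : ∀ j, (X.B j).N → EuclideanSpace ℝ (Fin n)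
  ψ : ∀ j, (X.B j).N → ℝ
  τ : ∀ j, (X.B j).N → ℝ
  bd : ∀ y, ‖S.f y‖ + 1 ≤ R
  cont : ∀ c, ContinuousOn (lam c) (D.P c)
  simplex : ∀ c, ∀ y ∈ D.P c, lam c y ∈ stdSimplex ℝ (DSt Q)
  half : ∀ j σ, ∀ y ∈ Half σ, lam (D.d j σ) (D.ι j σ y) = mu Q j σ y
  loc : ∀ c, ∀ y ∈ D.P c, ∀ v, lam c y v ≠ 0 →
    (∃ z h, v = .pt c z h ∧ Near (D.fc c) (D.P c) η y z) ∨
      ∃ j σ p h, ∃ y' ∈ Half σ, v = .nd j σ p h ∧ D.d j σ = c ∧
        Near (D.fc c) (D.P c) η y (D.ι j σ y') ∧ (X.B j).lam σ y' p ≠ 0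
  out_pt : ∀ c z h, z ∈ frontier (D.P c) → ∃ x h', out (.pt c z h) = .cn x (D.Θ c z) h' ∧
    D.app c (D.lab c z) = .inl x
  out_nd : ∀ j σ p h h', out (.nd j σ p h) = .nd j p h'
  pot : ∀ j, BandPot (X.B j) (120 * r) R (u j) (ψ j) (τ j)

theorem exists_aux_cont (j : G.β) (σ : Bool) : ContinuousOn (mu Q j σ) (Half σ) := by
  refine continuousOn_pi.2 ?_
  rintro (⟨c, z, h⟩ | ⟨j', σ', p, h⟩)
  · exact continuousOn_const
  · by_cases h1 : j' = j ∧ σ' = σ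
    · obtain ⟨rfl, rfl⟩ := h1
      simp only [mu, and_self, if_true]
      exact (continuous_apply p).comp_continuousOn ((X.B j').cont σ')
    · simp only [mu, if_neg h1]
      exact continuousOn_const

theorem exists_aux_lam (Q : Pts D) (c : C) : ∃ lam : ℂ → DSt Q → ℝ, ContinuousOn lam (D.P c) ∧
    (∀ y ∈ D.P c, lam y ∈ stdSimplex ℝ (DSt Q)) ∧
    (∀ j σ, D.d j σ = c → ∀ y ∈ Half σ, lam (D.ι j σ y) = mu Q j σ y) ∧
    ∀ y ∈ D.P c, ∀ v, lam y v ≠ 0 →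
      (∃ z h, v = .pt c z h ∧ Near (D.fc c) (D.P c) η y z) ∨
        ∃ j σ p h, ∃ y' ∈ Half σ, v = .nd j σ p h ∧ D.d j σ = c ∧
          Near (D.fc c) (D.P c) η y (D.ι j σ y') ∧ (X.B j).lam σ y' p ≠ 0 := by
  have hK : Convex ℝ (D.P c) := (lens _).convex_reg 0
  have hm : ∀ j σ, D.d j σ = c → ∀ y ∈ Half σ, D.ι j σ y ∈ D.P c := by
    rintro j σ rfl y hy
    exact D.ι_mem j σ hy
  obtain ⟨lam, h1, h2, h3, h4⟩ := exists_weights (I := {a : G.β × Bool // D.d a.1 a.2 = c})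
    (D := DSt Q) (P := D.P c) (A := D.A c) (H := fun a => Half a.1.2)
    (fun _ => isCompact_half _) (ι := fun a => D.ι a.1.1 a.1.2) (fun _ => D.ι_cont _ _)
    (fun _ => D.ι_inj _ _) (fun a a' y hy y' hy' g => Subtype.ext (Prod.ext_iff.2
      (D.ι_disj _ _ _ _ (a.2.trans a'.2.symm) y hy y' hy' g)))
    (μ := fun a => mu Q a.1.1 a.1.2) (fun _ => exists_aux_cont _ _) (fun _ _ hy => mu_simplex hy)
    (fun z hz => (D.pieces c z hz).imp id fun ⟨j, σ, e1, e2⟩ => ⟨⟨(j, σ), e1⟩, e2⟩)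
    (pos := DSt.pos) (D₀ := {v | ∃ z h, v = .pt c z h}) Q.pos (fun y hy => by
      obtain ⟨z, hz, h⟩ := Q.net_A c y hy
      exact ⟨.pt c z hz, ⟨z, hz, rfl⟩, h⟩)
  refine ⟨lam, h1, h2, fun j σ g y hy => h3 ⟨(j, σ), g⟩ y hy (hm j σ g y hy), fun y hy v hv => ?_⟩
  rcases h4 y hy v hv with ⟨⟨z, h, rfl⟩, g⟩ | ⟨⟨⟨j, σ⟩, g⟩, y', hy', g1, g2⟩
  · exact Or.inl ⟨z, h, rfl, near_of_close hK (Q.unif c) hy (DSt.pos_mem (.pt c z h)) g.le⟩
  · obtain ⟨p, hp, rfl, g3⟩ := mu_ne g2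
    exact Or.inr ⟨j, σ, p, hp, y', hy', rfl, g,
      near_of_close hK (Q.unif c) hy (hm j σ g y' hy') g1.le, g3⟩

theorem exists_aux_out (Q : Pts D) : ∃ out : DSt Q → ZSt Q,
    (∀ c z h, z ∈ frontier (D.P c) → ∃ x h', out (.pt c z h) = .cn x (D.Θ c z) h' ∧
      D.app c (D.lab c z) = .inl x) ∧ ∀ j σ p h h', out (.nd j σ p h) = .nd j p h' := by
  obtain ⟨o⟩ : Nonempty (ZSt Q) := by
    obtain ⟨b, hb⟩ := S.boundary_nonempty
    obtain ⟨x, -, hx⟩ := G.bd b hb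
    obtain ⟨z, hz, -⟩ := Q.zn_dense x b hx
    exact ⟨.cn x z hz⟩
  have h1 : ∀ c, ∀ z ∈ Q.net c, ∃ o : ZSt Q, z ∈ frontier (D.P c) →
      ∃ x h', o = .cn x (D.Θ c z) h' ∧ D.app c (D.lab c z) = .inl x := fun c z h => by
    by_cases hf : z ∈ frontier (D.P c)
    · obtain ⟨-, -, x, g1, g2⟩ := Big.fb_spec (D := D) (t := 0) le_rfl
        ((Q.net_sub c z h).elim (fun g => ⟨hf, Or.inl g⟩) id)
      exact ⟨.cn x _ (Q.zn_net c z h x g2), fun _ => ⟨x, _, rfl, g1⟩⟩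
    · exact ⟨o, fun g => absurd g hf⟩
  have h2 : ∀ j p, ∃ o : ZSt Q, ∀ h', o = .nd j p h' := fun j p => by
    by_cases h : X.Zt j p
    · exact ⟨.nd j p h, fun _ => rfl⟩
    · exact ⟨o, fun g => absurd g h⟩
  choose o1 g1 using h1
  choose o2 g2 using h2
  exact ⟨fun u => match u with
    | .pt c z h => o1 c z h
    | .nd j _ p _ => o2 j p, g1, fun j _ p _ => g2 j p⟩

/-- S3. Hint: for every `c`, `exists_weights` with the index type `{a : β × Bool // d a.1 a.2 = c}`,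
`D₀` the states `pt c z h`; `near_of_close`. `out` by cases (`fb_spec`, `zn_net`; `ZSt Q` is not
empty by `S.boundary_nonempty`, `G.bd`, `zn_dense`); `BandNet.pot`. -/
theorem exists_aux (Q : Pts D) {r R : ℝ} (hp : Par ρ δ e η r) (hs : 0 < s) (he1 : e ≤ 1)
    (hR : ∀ y, ‖S.f y‖ + 1 ≤ R) (heR : 1024 * R * e ≤ (δ / 1000) ^ 2) : Nonempty (Aux Q r R) := by
  obtain ⟨p1, p2, p3, p4, p5, -⟩ := hp
  choose lam h1 h2 h3 h4 using exists_aux_lam Q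
  obtain ⟨out, h5, h6⟩ := exists_aux_out Q
  choose u ψ τ h7 using fun j => (X.B j).pot (t := 120 * r) (R := R) (by linarith only [p1, p2, p3]) hs p4
    (by linarith only [p1, p4]) (by linarith only [p5]) he1 (by linarith only [p1, p2]) (by linarith only [p1, p2, p3]) (fun _ _ => hR _) heR
  exact ⟨⟨lam, out, u, ψ, τ, hR, h1, h2, fun j σ => h3 _ j σ rfl, h4, h5, h6, h7⟩⟩

variable {r R : ℝ}

/-- The test function. -/
noncomputable def Aux.F (A : Aux Q r R) : St Q → EuclideanSpace ℝ (Fin n) := ev Q S.f A.u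

/-- The energy potential. -/
noncomputable def Aux.psi (A : Aux Q r R) : St Q → ℝ := ev Q (fun y => R ^ 2 - ‖S.f y‖ ^ 2) A.ψ

/-- The potential of the cut nodes. -/
noncomputable def Aux.tau (A : Aux Q r R) : St Q → ℝ := ev Q (fun _ => 0) A.τ

/-- The states away from the zones. -/
def Aux.Good (A : Aux Q r R) (a : St Q) : Prop := A.psi a = R ^ 2 - ‖A.F a‖ ^ 2 ∧ A.tau a = 0

/-- The states in a class and their gates. -/
def Aux.Hit (A : Aux Q r R) : St Q → Prop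
  | .inl u => u.gate ∧ (A.out u).Hit
  | .inr (.inl _) => False
  | .inr (.inr z) => z.Hit

/-- The state `u` is seen from the point `y₀`. -/
def Aux.Seen (A : Aux Q r R) (c : C) (y₀ : ℂ) (u : DSt Q) : Prop :=
  u.dsc = c ∧ ∃ y, Near (D.fc c) (D.P c) (16 * r) y₀ y ∧ (A.lam c y u ≠ 0 ∨ u.pos = y)

/-- Seen from a common root. -/
def Aux.nbR (A : Aux Q r R) (u v : DSt Q) : Prop :=
  ∃ c, ∃ y₀ ∈ D.Rt c (60 * r), A.Seen c y₀ u ∧ A.Seen c y₀ v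

/-- The extra pairs: edges that start at the end parts of a middle line. -/
def nbX (Q : Pts D) (r : ℝ) (u v : DSt Q) : Prop :=
  ∃ j σ p q h h', u = .nd j σ p h ∧ v = .nd j σ q h' ∧ ((X.B j).pt p).re = 1 / 2 ∧
    (X.B j).pt p ∈ NF (X.fb j) (112 * r) ∧ X.Edge j σ p q ∧ ¬ X.Same j p q

/-- Neighbours. -/
def Aux.nb (A : Aux Q r R) (u v : DSt Q) : Prop := A.nbR u v ∨ nbX Q r u v ∨ nbX Q r v u

/-- Emission by a long step. -/
def Aux.EmR (A : Aux Q r R) (z : ZSt Q) (u : DSt Q) (b : ℂ) : Prop :=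
  b ∈ frontier (D.P u.dsc) ∧ D.app u.dsc (D.lab u.dsc b) = z.cl ∧ b ∈ D.Rt u.dsc (60 * r) ∧
    b ∈ D.Sd u.dsc ∧ A.Seen u.dsc b u

/-- Emission along an edge. -/
def EmN (z : ZSt Q) (u : DSt Q) (b : ℂ) : Prop :=
  ∃ j σ p q h h', z = .nd j p h ∧ u = .nd j σ q h' ∧ b = D.ι j σ ((X.B j).pt p) ∧
    X.Edge j σ p q ∧ ¬ X.Same j p q

open Classical in
/-- The point of emission. -/
noncomputable def Aux.ep (A : Aux Q r R) : TSt Q ⊕ ZSt Q → DSt Q → ℂ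
  | .inl _, _ => 0
  | .inr z, u => epsilon fun b => A.EmR z u b ∨ EmN z u b

/-- The corner of emission. -/
noncomputable def Aux.elb (A : Aux Q r R) (o : TSt Q ⊕ ZSt Q) (u : DSt Q) :
    Corner fun c => lens (D.m c) := ⟨u.dsc, D.lab u.dsc (A.ep o u)⟩

/-- The targets of the long steps. -/
def Aux.Tg (A : Aux Q r R) : St Q → St Q → Prop
  | .inl u, .inl v => A.nbR u v ∧ (r ≤ ‖A.F (.inl v) - A.F (.inl u)‖ ∨ A.Hit (.inl v))
  | .inl _, .inr _ => False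
  | .inr (.inl _), .inl _ => False
  | .inr (.inl t), .inr (.inl t') =>
      t.i = t'.i ∧ r ≤ ‖A.F (.inr (.inl t')) - A.F (.inr (.inl t))‖
  | .inr (.inl t), .inr (.inr z) => (∃ x y h, z = .cn x y h) ∧ t.adj z.cl
  | .inr (.inr z), .inl v => r ≤ ‖A.F (.inl v) - A.F (.inr (.inr z))‖ ∧ ∃ b, A.EmR z v b
  | .inr (.inr z), .inr (.inl t) => r ≤ ‖A.F (.inr (.inl t)) - A.F (.inr (.inr z))‖ ∧ t.adj z.cl
  | .inr (.inr z), .inr (.inr z') => r ≤ ‖A.F (.inr (.inr z')) - A.F (.inr (.inr z))‖ ∧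
      (∃ x y h, z' = .cn x y h) ∧ z'.cl = z.cl

/-- The chain before mixing. -/
structure Chain (A : Aux Q r R) (P : St Q → St Q → ℝ) : Prop where
  nonneg : ∀ a b, 0 ≤ P a b
  gate : ∀ u : DSt Q, u.gate → P (.inl u) (.inr (.inr (A.out u))) = 1 ∧
    ∀ v, v ≠ .inr (.inr (A.out u)) → P (.inl u) v = 0
  long : ∀ a, Rs Q a → a ∉ Ab Q → ∑ v, P a v = 1 ∧ ‖gen P A.F a‖ ≤ 5 * η ∧
    ∀ v, 0 < P a v → A.Tg a v
  nD : ∀ j σ p h, ¬ X.Zt j p → (X.B j).pt p ∉ frontier Sq → ∃ tg,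
    P (.inl (.nd j σ p h)) = push (X.B j).r p tg ∧ ∀ q, q ≠ p → 0 < (X.B j).r p q →
      ∃ h', tg q = .inl (.nd j σ q h') ∧ X.Edge j σ p q
  nZ : ∀ j p h, (X.B j).pt p ∉ frontier Sq → ∃ tg,
    P (.inr (.inr (.nd j p h))) = push (X.B j).r p tg ∧ ∀ q, q ≠ p → 0 < (X.B j).r p q →
      (∃ h', tg q = .inr (.inr (.nd j q h')) ∧ X.Same j p q) ∨
        ∃ σ h', tg q = .inl (.nd j σ q h') ∧ X.Edge j σ p q ∧ ¬ X.Same j p q

end Pool.Agent.MP_17e62b_gt.G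

/-! Neighbours and tracks. -/

set_option linter.unusedSectionVars false

namespace Pool.Agent.MP_17e62b_gt.G

open Set H14 T55
open scoped BigOperators Manifold

variable {n : ℕ} {S : Surface n} {N : ℕ} {ρ δ : ℝ} {G : Geo S N ρ δ} {e η s : ℝ} {M : ℕ}
  {X : Nets G e η s M} {C : Type} [Fintype C] {Mx : ℕ} {D : Big X C Mx} {Q : Pts D} {r R : ℝ}
  {A : Aux Q r R} {c : C} {y y₀ : ℂ} {u v : DSt Q} {j : G.β} {σ : Bool} {p q : (X.B j).N}

theorem Aux.lam_dsc (hy : y ∈ D.P c) (h : A.lam c y v ≠ 0) : v.dsc = c := by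
  rcases A.loc c y hy v h with ⟨z, _, rfl, -⟩ | ⟨j, σ, p, _, -, -, rfl, h1, -⟩
  exacts [rfl, h1]

theorem Aux.F_le (A : Aux Q r R) (a : St Q) : ‖A.F a‖ ≤ R := by
  have h : ∀ y, ‖S.f y‖ ≤ R := fun y => by linarith [A.bd y]
  rcases a with (_ | ⟨j, _, p, _⟩) | _ | _ | ⟨j, p, _⟩
  exacts [h _, (A.pot j).bound p, h _, h _, (A.pot j).bound p]

/-- `BandPot.close`, `ι_comm`. -/
theorem Aux.F_pos (A : Aux Q r R) (hp : Par ρ δ e η r) (v : DSt Q) :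
    ‖A.F (.inl v) - D.fc v.dsc v.pos‖ ≤ 3 * e := by
  rcases v with ⟨c, z, h⟩ | ⟨j, σ, p, h⟩
  · exact (norm_eq_zero.2 (sub_self _)).trans_le (by linarith [hp.η0, hp.ηe])
  · change ‖A.u j p - S.f (D.Θ (D.d j σ) (D.ι j σ _))‖ ≤ _
    rw [D.ι_comm j σ _ h]
    exact (A.pot j).close p

theorem Aux.coarse (hp : Par ρ δ e η r) (hy : y ∈ D.P c) (h : A.lam c y v ≠ 0) :
    ‖A.F (.inl v) - D.fc c y‖ ≤ 5 * e := by
  have h1 : Near (D.fc c) (D.P c) (η + e) y v.pos := by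
    rcases A.loc c y hy v h with ⟨z, _, rfl, h1⟩ | ⟨j, σ, p, _, y', hy', rfl, rfl, h1, h2⟩
    · exact h1.mono subset_rfl (by linarith [hp.η0, hp.ηe])
    · exact h1.trans (Big.near_up ((X.B j).loc σ y' hy' p h2).1)
  obtain rfl := Aux.lam_dsc hy h
  have h2 := norm_sub_le_norm_sub_add_norm_sub (A.F (.inl v)) (D.fc v.dsc v.pos) (D.fc v.dsc y)
  linarith [A.F_pos hp v, h1.symm.norm_le, hp.ηe]

/-- `BandPot.near`, `g_near`. -/
theorem Aux.good_nd (A : Aux Q r R) (h : (X.B j).pt p ∈ NF (X.fb j) (120 * r)) :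
    ‖A.u j p - X.fb j ((X.B j).pt p)‖ ≤ η ∧ A.ψ j p = R ^ 2 - ‖A.u j p‖ ^ 2 ∧ A.τ j p = 0 := by
  obtain ⟨h1, h2⟩ := (A.pot j).near p h
  exact ⟨h1 ▸ (X.B j).g_near p, h2⟩

/-- K1. Hint: `A.loc`; in the second case `root_pull` with `17 r`, `not_zone`, `BandNet.loc`,
`near_up`. -/
theorem Aux.fine (hp : Par ρ δ e η r) (h₀ : y₀ ∈ D.Rt c (60 * r))
    (hy : Near (D.fc c) (D.P c) (16 * r) y₀ y) (h : A.lam c y v ≠ 0) :
    Near (D.fc c) (D.P c) (2 * η) y v.pos := by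
  obtain ⟨h1, h2, h3, -⟩ := hp
  rcases A.loc c y hy.mem.2 v h with ⟨z, _, rfl, h4⟩ | ⟨j, σ, p, _, y', hy', rfl, rfl, h4, h5⟩
  · exact h4.mono subset_rfl (by linarith only [h1])
  · have h6 := Big.root_pull hy' (t := 17 * r) (by linarith only [h1, h2]) (by linarith only [h1, h2]) h₀
      ((hy.trans h4).mono subset_rfl (by linarith only [h1, h2]))
    exact two_mul η ▸ h4.trans (Big.near_up (((X.B j).loc σ y' hy' p h5).2
      ((X.B j).not_zone (by linarith) h6)))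

theorem Aux.Seen.near (hp : Par ρ δ e η r) (h₀ : y₀ ∈ D.Rt c (60 * r)) (h : A.Seen c y₀ v) :
    Near (D.fc c) (D.P c) (17 * r) y₀ v.pos := by
  obtain ⟨-, y, h1, h2 | rfl⟩ := h
  · exact (h1.trans (Aux.fine hp h₀ h1 h2)).mono subset_rfl (by linarith [hp.η0, hp.ηr])
  · exact h1.mono subset_rfl (by linarith [hp.η0, hp.ηr])

theorem Aux.Seen.nf (hp : Par ρ δ e η r) (h₀ : y₀ ∈ D.Rt c (60 * r))
    {hq : (X.B j).pt p ∈ Half σ} (h : A.Seen c y₀ (.nd j σ p hq)) :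
    (X.B j).pt p ∈ NF (X.fb j) (111 * r) := by
  have h1 := h.near hp h₀
  obtain rfl : D.d j σ = c := h.1
  have := hp.η0
  have := hp.ηr
  exact nf_mono (Big.root_pull hq (by linarith) (by linarith) h₀ h1) (by linarith)

theorem Aux.Seen.good (hp : Par ρ δ e η r) (h₀ : y₀ ∈ D.Rt c (60 * r)) (h : A.Seen c y₀ v) :
    A.Good (.inl v) ∧ ‖A.F (.inl v) - D.fc c v.pos‖ ≤ η := by
  rcases v with ⟨c', z, h'⟩ | ⟨j, σ, p, h'⟩
  · obtain rfl : c' = c := h.1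
    exact ⟨⟨rfl, rfl⟩, (norm_eq_zero.2 (sub_self _)).trans_le hp.η0.le⟩
  · obtain ⟨h1, h2⟩ := A.good_nd (nf_mono (h.nf hp h₀) (by linarith [hp.η0, hp.ηr]))
    obtain rfl : D.d j σ = c := h.1
    refine ⟨h2, ?_⟩
    change ‖A.u j p - S.f (D.Θ _ (D.ι j σ _))‖ ≤ _
    rwa [D.ι_comm j σ _ h']

theorem Aux.seen_self (A : Aux Q r R) (hp : Par ρ δ e η r) (v : DSt Q) :
    A.Seen v.dsc v.pos v := by
  exact ⟨rfl, v.pos, Near.refl v.pos_mem (by linarith [hp.η0, hp.ηr]), .inr rfl⟩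

/-- K2. The track from a root to a state. Hint: all points `z` of the witness `K₀` of
`Near (16 r) y₀ y` are near `y₀`, so the active states at `z` are seen from `y₀`. Continue from `y`
to the state: if `y ∈ A c`, by the witness of `fine` with the root `y`; if `y = ι j σ y'`, by the
image of the set given by `BandNet.star` (`A.half`, `mu_ne`). -/
theorem Aux.Seen.trk (hp : Par ρ δ e η r) (h₀ : y₀ ∈ D.Rt c (60 * r)) (h : A.Seen c y₀ v) :
    ∃ K ⊆ D.P c, IsPreconnected K ∧ y₀ ∈ K ∧ v.pos ∈ K ∧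
      ∀ z ∈ K, ∀ w, A.lam c z w ≠ 0 → A.nbR v w := by
  obtain ⟨hd, y, hn, hv⟩ := id h
  obtain ⟨K, k1, k2, k3, k4, k5⟩ := id hn
  have hK : ∀ z ∈ K, ∀ w, A.lam c z w ≠ 0 → A.nbR v w := fun z hz w hw =>
    ⟨c, y₀, h₀, h, Aux.lam_dsc (k1 hz) hw, z, ⟨K, k1, k2, k3, hz, k5⟩, .inl hw⟩
  rcases hv with hv | rfl
  swap
  · exact ⟨K, k1, k2, k3, k4, hK⟩
  obtain ⟨K', l1, l2, l3, l4, l5⟩ : ∃ K' ⊆ D.P c, IsPreconnected K' ∧ y ∈ K' ∧ v.pos ∈ K' ∧
      ∀ z ∈ K', ∀ w, A.lam c z w ≠ 0 → A.nbR v w := by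
    rcases D.pieces c y (k1 k4) with hA | ⟨j, σ, rfl, y', hy', rfl⟩
    · obtain ⟨K', l1, l2, l3, l4, l5⟩ := Aux.fine hp h₀ hn hv
      have := hp.η0
      have := hp.ηr
      exact ⟨K', l1, l2, l3, l4, fun z hz w hw => ⟨c, y, .inl hA,
        ⟨hd, y, Near.refl (k1 k4) (by linarith), .inl hv⟩, Aux.lam_dsc (l1 hz) hw, z,
        Near.mono ⟨K', l1, l2, l3, hz, l5⟩ subset_rfl (by linarith), .inl hw⟩⟩
    · obtain ⟨p, hp', rfl, h1⟩ := mu_ne (A.half j σ y' hy' ▸ hv)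
      obtain ⟨K', l1, l2, l3, l4, l5⟩ := (X.B j).star σ y' hy' p h1
      refine ⟨D.ι j σ '' K', ((D.ι_mem j σ).mono_left l1).image_subset,
        l2.image _ ((D.ι_cont j σ).mono l1), mem_image_of_mem _ l3, mem_image_of_mem _ l4, ?_⟩
      rintro _ ⟨z, hz, rfl⟩ w hw
      obtain ⟨q, hq, rfl, h2⟩ := mu_ne (A.half j σ z (l1 hz) ▸ hw)
      refine ⟨_, y₀, h₀, h, rfl, _, hn, .inl ?_⟩
      rw [A.half j σ y' hy', mu, if_pos ⟨rfl, rfl⟩]
      exact l5 z hz q h2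
  exact ⟨K ∪ K', union_subset k1 l1, k2.union y k4 l3 l2, .inl k3, .inr l4,
    fun z hz => hz.elim (hK z) (l5 z)⟩

theorem Aux.edge_trk (A : Aux Q r R) (h : X.Edge j σ p q) (hp : (X.B j).pt p ∈ Half σ)
    (hq : (X.B j).pt q ∈ Half σ) :
    ∃ K ⊆ D.P (D.d j σ), IsPreconnected K ∧ D.ι j σ ((X.B j).pt p) ∈ K ∧
      D.ι j σ ((X.B j).pt q) ∈ K ∧
      ∀ z ∈ K, ∀ w, A.lam (D.d j σ) z w ≠ 0 → w = .nd j σ p hp ∨ w = .nd j σ q hq := by
  obtain ⟨-, K, k1, k2, k3, k4, k5, -⟩ := h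
  refine ⟨D.ι j σ '' K, ((D.ι_mem j σ).mono_left k1).image_subset,
    k2.image _ ((D.ι_cont j σ).mono k1), mem_image_of_mem _ k3, mem_image_of_mem _ k4, ?_⟩
  rintro _ ⟨z, hz, rfl⟩ w hw
  obtain ⟨m, hm, rfl, h2⟩ := mu_ne (A.half j σ z (k1 hz) ▸ hw)
  rcases k5 z hz m h2 with rfl | rfl
  exacts [.inl rfl, .inr rfl]

theorem Aux.nb_symm (A : Aux Q r R) (u v : DSt Q) (h : A.nb u v) : A.nb v u := by
  rcases h with ⟨c, y, h1, h2, h3⟩ | h | h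
  exacts [.inl ⟨c, y, h1, h3, h2⟩, .inr (.inr h), .inr (.inl h)]

theorem Aux.nb_dsc (h : A.nb u v) : u.dsc = v.dsc := by
  rcases h with ⟨c, y, -, h2, h3⟩ | ⟨j, σ, p, q, h, h', rfl, rfl, -⟩ |
    ⟨j, σ, p, q, h, h', rfl, rfl, -⟩
  exacts [h2.1.trans h3.1.symm, rfl, rfl]

/-- K3. -/
theorem Aux.nb_near (hp : Par ρ δ e η r) (h : A.nb u v) :
    Near (D.fc u.dsc) (D.P u.dsc) (34 * r) u.pos v.pos ∧
      ‖A.F (.inl u) - A.F (.inl v)‖ ≤ 36 * r ∧ A.Good (.inl u) ∧ A.Good (.inl v) := by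
  obtain ⟨e1, e2, e3, e4, e5, e6⟩ := id hp
  have tri : ∀ a b a' b' : EuclideanSpace ℝ (Fin n), ‖a - a'‖ ≤ η → ‖b - b'‖ ≤ η →
      ‖a' - b'‖ ≤ 34 * r → ‖a - b‖ ≤ 36 * r := fun a b a' b' k1 k2 k3 => by
    have k4 := norm_sub_le_norm_sub_add_norm_sub a a' b
    have k5 := norm_sub_le_norm_sub_add_norm_sub a' b' b
    rw [norm_sub_rev] at k2
    linarith only [e1, e2, k1, k2, k3, k4, k5]
  have X' : ∀ u v : DSt Q, nbX Q r u v → Near (D.fc u.dsc) (D.P u.dsc) (34 * r) u.pos v.pos ∧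
      ‖A.F (.inl u) - A.F (.inl v)‖ ≤ 36 * r ∧ A.Good (.inl u) ∧ A.Good (.inl v) := by
    rintro _ _ ⟨j, σ, p, q, h, h', rfl, rfl, -, k1, k2, -⟩
    have k3 := k2.near.2.1 ((X.B j).not_zone (by linarith only [e1, e2, e3]) k1)
    obtain ⟨a1, a2⟩ := A.good_nd (nf_mono k1 (by linarith only [e1, e2]))
    obtain ⟨b1, b2⟩ := A.good_nd (nf_mono (nf_near k1 (k3.mono (half_sub σ) le_rfl)) (by linarith only [e1, e2]))
    exact ⟨(Big.near_up k3).mono subset_rfl (by linarith only [e1, e2]),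
      tri _ _ _ _ a1 b1 (k3.norm_le.trans (by linarith only [e1, e2])), a2, b2⟩
  rcases h with ⟨c, y, h1, h2, h3⟩ | h | h
  · obtain rfl := h2.1
    have k : Near (D.fc u.dsc) (D.P u.dsc) (34 * r) u.pos v.pos :=
      ((h2.near hp h1).symm.trans (h3.near hp h1)).mono subset_rfl (by linarith only [])
    exact ⟨k, tri _ _ _ _ (h2.good hp h1).2 (h3.good hp h1).2 k.norm_le, (h2.good hp h1).1,
      (h3.good hp h1).1⟩
  · exact X' u v h
  · obtain ⟨k1, k2, k3, k4⟩ := X' v u h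
    rw [Aux.nb_dsc (A := A) (.inr (.inl h))] at k1
    exact ⟨k1.symm, norm_sub_rev (A.F (.inl v)) _ ▸ k2, k4, k3⟩

/-- K4. Hint: `Seen.nf`; if the state is the second member of an extra pair, both nodes are
outside the zone, so in `En i` and `En i'` (`mid_en`), `i = i'` by `en_eq`, and `Same` holds
(`cut_zone`, `zt_en`, `en_iff`). -/
theorem Aux.unmixed (A : Aux Q r R) (hp : Par ρ δ e η r) (hq : (X.B j).pt p ∈ Half σ)
    (h1 : ((X.B j).pt p).re = 1 / 2) (h2 : (X.B j).pt p ∉ NF (X.fb j) (112 * r)) (v : DSt Q) :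
    ¬ A.nb (.nd j σ p hq) v := by
  obtain ⟨e1, e2, e3, e4, e5, e6⟩ := id hp
  rintro (⟨c, y, k1, k2, -⟩ | ⟨j', σ', p', q, h, h', k, -, -, k1, -⟩ |
    ⟨j', σ', p', q, h, h', -, k, k0, k1, k2, k3⟩)
  · exact h2 (nf_mono (k2.nf hp k1) (by linarith only [e1, e2]))
  · cases k
    exact h2 k1
  · cases k
    have z1 := (X.B j).not_zone (by linarith only [e1, e2, e3]) k1
    have k4 := (k2.near.2.1 z1).mono (half_sub σ) le_rfl
    have z2 := (X.B j).not_zone (by linarith only [e1, e2, e3]) (nf_near k1 k4)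
    obtain ⟨i, a1, a2⟩ := X.zt_en (Or.inl k0) fun k => z1 ((X.B j).cut_zone k)
    obtain ⟨i', b1, b2⟩ := X.zt_en (Or.inl h1) fun k => z2 ((X.B j).cut_zone k)
    obtain rfl := X.en_eq (by linarith only [e1, e2, e3]) a1 b1 (by linarith only [e1, e2, e3]) k4
    exact k3 ⟨Or.inl h1, b2.trans a2.symm⟩

theorem Aux.out_cl (A : Aux Q r R) (hu : u.gate) : (A.out u).cl = D.app u.lab.1 u.lab.2 := by
  rcases u with ⟨c, z, h⟩ | ⟨j, σ, p, h⟩
  · obtain ⟨x, h', e1, e2⟩ := A.out_pt c z h hu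
    rw [e1]
    exact e2.symm
  · rw [A.out_nd j σ p h (DSt.gate_nd.1 hu)]
    exact (Big.app_nd h (DSt.gate_nd.1 hu)).symm

theorem Aux.ev_out (A : Aux Q r R) {Y : Type} (a : S.M → Y) (b : ∀ j, (X.B j).N → Y)
    (hu : u.gate) : ev Q a b (.inr (.inr (A.out u))) = ev Q a b (.inl u) := by
  rcases u with ⟨c, z, h⟩ | ⟨j, σ, p, h⟩
  · obtain ⟨x, h', e1, -⟩ := A.out_pt c z h hu
    rw [e1]
    rfl
  · rw [A.out_nd j σ p h (DSt.gate_nd.1 hu)]
    rfl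

/-- `net_sub`, `fb_spec`, `app_nd`, `zt_en`. -/
theorem DSt.gate_sd (hu : u.gate) (h : ∀ w, D.app u.lab.1 u.lab.2 ≠ .inr w) :
    u.pos ∈ D.Sd u.dsc := by
  rcases u with ⟨c, z, hz⟩ | ⟨j, σ, p, hz⟩
  · exact (Q.net_sub c z hz).elim Or.inl fun k => (Big.fb_spec le_rfl k).2.1
  · have k := DSt.gate_nd.1 hu
    obtain ⟨i, k1, -⟩ := X.zt_en k fun hc => h ⟨j, p, hc⟩ ((Big.app_nd hz k).trans (dif_pos hc))
    exact Or.inr ⟨j, σ, i, rfl, _, ⟨hz, k1⟩, rfl⟩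

theorem ZSt.cl_inr {z : ZSt Q} {w} (h : z.cl = .inr w) : z.Cut := by
  rcases z with ⟨x, y, hy⟩ | ⟨j, p, hz⟩
  · cases h
  · by_contra hc
    obtain ⟨i, -, k⟩ := X.zt_en hz hc
    cases k.symm.trans h

theorem Aux.hit_spec (A : Aux Q r R) (hp : Par ρ δ e η r) {z : ZSt Q} (h : z.Hit) :
    ∃ x, ∃ z₀ ∈ G.Cl x, z.cl = .inl x ∧ ‖A.F (.inr (.inr z)) - S.f z₀‖ ≤ η ∧
      A.Good (.inr (.inr z)) := by
  obtain ⟨e1, e2, e3, e4, e5, e6⟩ := id hp
  rcases z with ⟨x, y, hy⟩ | ⟨j, p, hz⟩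
  · refine ⟨x, y, Q.zn_sub x y hy, rfl, ?_, rfl, rfl⟩
    show ‖S.f y - S.f y‖ ≤ η
    rw [sub_self, norm_zero]
    exact e1.le
  · have hf : (X.B j).pt p ∈ frontier Sq := h
    obtain ⟨i, hi⟩ : ∃ i, (X.B j).pt p ∈ SqH i := by
      rcases hz with k | k | k
      · rw [sq_basic.2.2.2] at hf
        rcases hf with ((hf | hf) | hf) | hf
        · exact ⟨_, hf⟩
        · exact ⟨_, hf⟩
        · have := k.symm.trans hf.1
          norm_num at this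
        · have := k.symm.trans hf.1
          norm_num at this
      · exact ⟨_, k⟩
      · exact ⟨_, k⟩
    have hc : ¬ (X.B j).IsCut p := fun k =>
      (X.B j).not_zone (by linarith only [e1, e2, e3]) (nf_of_frontier hf le_rfl) ((X.B j).cut_zone k)
    obtain ⟨a1, a2⟩ := A.good_nd (nf_of_frontier hf (by linarith only [e1, e2]))
    refine ⟨G.en j i, _, X.sqH_cl hi, ?_, a1, a2⟩
    show X.clN j p = _
    rw [Nets.clN, dif_neg hc, (X.B j).en_iff ((X.B j).sqH_en hi)]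

/-- `G.rad`, `en_close`. -/
theorem Aux.F_cl (A : Aux Q r R) (hp : Par ρ δ e η r) (z : ZSt Q) :
    ‖A.F (.inr (.inr z)) - X.fn z.cl‖ ≤ 2 * ρ := by
  obtain ⟨e1, e2, e3, e4, e5, e6⟩ := id hp
  rcases z with ⟨x, y, hy⟩ | ⟨j, p, hz⟩
  · exact (G.rad x y (Q.zn_sub x y hy)).trans (by linarith)
  · have k := (A.pot j).close p
    show ‖A.u j p - X.fn (X.clN j p)‖ ≤ 2 * ρ
    by_cases hc : (X.B j).IsCut p
    · rw [Nets.clN, dif_pos hc]
      exact k.trans (by linarith only [e1, e2, e3, e5, e6])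
    · obtain ⟨i, k1, k2⟩ := X.zt_en hz hc
      have k3 := X.en_close (by linarith only [e1, e2, e3]) k1
      have k4 := norm_sub_le_norm_sub_add_norm_sub (A.u j p) (X.fb j ((X.B j).pt p))
        (S.f (G.root (G.en j i)))
      rw [k2]
      exact k4.trans (by linarith)

theorem rs_disc (hp : Par ρ δ e η r) (h : Rs Q (.inl u)) :
    u.pos ∈ D.Sv u.dsc ∧ u.pos ∈ interior (D.P u.dsc) ∧ ¬ u.gate := by
  have k : ¬ u.gate → u.pos ∈ interior (D.P u.dsc) ∧ ¬ u.gate := fun k =>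
    ⟨(mem_interior_iff_notMem_frontier u.pos_mem).2 k, k⟩
  rcases u with ⟨c, z, hz⟩ | ⟨j, σ, p, hz⟩
  · exact ⟨Or.inl ((Q.net_sub c z hz).resolve_right fun k' => h k'.1), k h⟩
  · refine ⟨Or.inr ⟨j, σ, rfl, _, ⟨hz, ?_⟩, rfl⟩, k fun k' => h.1 (DSt.gate_nd.1 k')⟩
    have hf := h.2
    rw [sq_basic.2.2.2] at hf
    rcases hf with (hf | hf) | hf
    · exact absurd (Or.inr hf) h.1
    · cases σ
      · exact hf
      · have h1 : 1 / 2 ≤ ((X.B j).pt p).re := hz.2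
        have h2 : ((X.B j).pt p).re = 0 := hf.1
        linarith
    · cases σ
      · have h1 : ((X.B j).pt p).re ≤ 1 / 2 := hz.2
        have h2 : ((X.B j).pt p).re = 1 := hf.1
        linarith only [h1, h2]
      · exact hf

end Pool.Agent.MP_17e62b_gt.G

/-! The long steps and the existence of the chain. -/

set_option linter.unusedSectionVars false

namespace Pool.Agent.MP_17e62b_gt.G

open Set H14 T55
open scoped BigOperators Manifold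

variable {n : ℕ} {S : Surface n} {N : ℕ} {ρ δ : ℝ} {G : Geo S N ρ δ} {e η s : ℝ} {M : ℕ}
  {X : Nets G e η s M} {C : Type} [Fintype C] {Mx : ℕ} {D : Big X C Mx} {Q : Pts D} {r R : ℝ}

/-- A functional of norm at most one does not increase distances. -/
theorem asc_disc_le {E : Type} [NormedAddCommGroup E] [NormedSpace ℝ E] {l : E →L[ℝ] ℝ}
    (hl : ‖l‖ ≤ 1) {a b : E} {t : ℝ} (h : ‖a - b‖ ≤ t) : l a - t ≤ l b := by
  have h1 : l (a - b) ≤ ‖a - b‖ :=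
    (Real.le_norm_self _).trans ((l.le_opNorm _).trans (mul_le_of_le_one_left (norm_nonneg _) hl))
  rw [map_sub] at h1
  linarith

/-- The distance of the target from the start. -/
theorem asc_disc_far {E : Type} [NormedAddCommGroup E] {a y u v : E} {r t t' : ℝ}
    (h : ‖y - a‖ = 2 * r) (h1 : ‖u - a‖ ≤ t) (h2 : ‖y - v‖ ≤ t') (ht : t + t' ≤ r) :
    r ≤ ‖v - u‖ := by
  have h3 := norm_sub_le_norm_sub_add_norm_sub y v a
  have h4 := norm_sub_le_norm_sub_add_norm_sub v u a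
  linarith

/-- A state that is active at a point near a root. -/
theorem Aux.asc_disc_act (A : Aux Q r R) (hp : Par ρ δ e η r) {c : C} {b y : ℂ}
    (hb : b ∈ D.Rt c (60 * r)) (hy : Near (D.fc c) (D.P c) (16 * r) b y) :
    ∃ v : DSt Q, A.Seen c b v ∧ ‖D.fc c y - A.F (.inl v)‖ ≤ 3 * η := by
  obtain ⟨v, -, hv⟩ := Finset.exists_ne_zero_of_sum_ne_zero
    (((A.simplex c y hy.mem.2).2).trans_ne one_ne_zero)
  have h1 : A.Seen c b v := ⟨Aux.lam_dsc hy.mem.2 hv, y, hy, .inl hv⟩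
  have h2 := (Aux.fine hp hb hy hv).norm_le
  have h3 := (h1.good hp hb).2
  have h4 := norm_sub_le_norm_sub_add_norm_sub (D.fc c y) (D.fc c v.pos) (A.F (.inl v))
  rw [norm_sub_rev] at h3
  exact ⟨v, h1, by linarith⟩

/-- R1. Hint: `rs_disc`, `exit_plane` (`mp_emb`) from `u.pos`, which is a root (`sv_rt`). If the
exit point `y` is at distance `2 r`, take a state that is active at `y` (`fine`, `Seen.good`); if
it is on the frontier, `exit_fr`, `net_Fb`, `near_of_close`, `out_pt`. -/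
theorem Aux.asc_disc (A : Aux Q r R) (hS : S.IsSaddle) (hp : Par ρ δ e η r) {u : DSt Q}
    (hu : Rs Q (.inl u)) (l : EuclideanSpace ℝ (Fin n) →L[ℝ] ℝ) (hl : ‖l‖ ≤ 1) :
    ∃ v, A.Tg (.inl u) v ∧ l (A.F (.inl u)) - 5 * η ≤ l (A.F v) := by
  have hη := hp.η0
  have hr := hp.ηr
  have hd := hp.rd
  obtain ⟨h1, h2, -⟩ := rs_disc hp hu
  have h0 : u.pos ∈ D.Rt u.dsc (60 * r) := Big.sv_rt (by linarith only [hη, hr]) h1
  have hs := A.seen_self hp u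
  have hg := (hs.good hp h0).2
  have hg' := asc_disc_le hl hg
  obtain ⟨y, hy, h3, h4, h5⟩ := exit_plane (f := D.fc u.dsc)
    ((lens (D.m u.dsc)).compact_reg 0) (S.continuous.comp (D.cont u.dsc))
    (fun l' => mp_emb hS isOpen_interior (D.cont u.dsc) (D.inj u.dsc) l') (r := r) (by linarith only [hη, hr]) h2 l
  rcases h4 with h4 | h4
  · obtain ⟨v, hv, h6⟩ := A.asc_disc_act hp h0 (h5.mono subset_rfl (by linarith only [hη, hr]))
    have h7 := asc_disc_le hl h6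
    exact ⟨.inl v, ⟨⟨_, _, h0, hs, hv⟩, .inl (asc_disc_far h4 hg h6 (by linarith only [hη, hr]))⟩, by linarith only [hη, hg', h3, h7]⟩
  · obtain ⟨z, hz, h6, h7⟩ := Q.net_Fb _ y (Big.exit_fr h1 h4 (by linarith only [hη, hr]) (by linarith) h5)
    have h8 : Near (D.fc u.dsc) (D.P u.dsc) η y z :=
      near_of_close ((lens (D.m u.dsc)).convex_reg 0) (Q.unif u.dsc) hy
        (Big.rt_sub (Big.fb_spec le_rfl h6).1) h7.le
    have h9 := asc_disc_le hl h8.norm_le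
    obtain ⟨x, h', h10, -⟩ := A.out_pt _ z hz h6.1
    refine ⟨.inl (.pt u.dsc z hz), ⟨⟨_, _, h0, hs, rfl, z,
      (h5.trans h8).mono subset_rfl (by linarith only [hη, hr]), .inr rfl⟩, .inr ⟨h6.1, ?_⟩⟩, ?_⟩
    · rw [h10]
      trivial
    · change _ ≤ l (D.fc u.dsc z)
      linarith only [hη, hg', h3, h9]

/-- R2. Hint: `exit_surf` with `O = Tb i \ ⋃ Cl`, `tb_bd`, `tn_dense`, `zn_dense`. -/
theorem Aux.asc_tube (A : Aux Q r R) (hS : S.IsSaddle) (hp : Par ρ δ e η r) (t : TSt Q)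
    (l : EuclideanSpace ℝ (Fin n) →L[ℝ] ℝ) (hl : ‖l‖ ≤ 1) :
    ∃ v, A.Tg (.inr (.inl t)) v ∧ l (A.F (.inr (.inl t))) - 5 * η ≤ l (A.F v) := by
  have hη := hp.η0
  have hr := hp.ηr
  have hc : closure (G.Tb t.i \ ⋃ x, G.Cl x) ⊆ G.Tb t.i :=
    closure_minimal sdiff_subset (G.tb_closed t.i)
  obtain ⟨y, hy, h1, h2, -⟩ := exit_surf hS (G.tb_open t.i) (r := r) (by linarith)
    (Q.tn_sub _ _ t.h) (fun y hb hy => (disjoint_left.1 (G.tb_bd t.i) (hc hy) hb).elim) l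
  rcases h2 with ⟨h2, h3⟩ | h2
  · obtain ⟨z, hz, h4⟩ := Q.tn_dense _ y h2
    have h5 := asc_disc_le hl h4.le
    refine ⟨.inr (.inl ⟨t.i, z, hz⟩), ⟨rfl, ?_⟩, ?_⟩
    · exact asc_disc_far (t := 0) h3 (by rw [show A.F (.inr (.inl t)) = S.f t.y from rfl]; simp)
        h4.le (by linarith only [hη, hr])
    · change l (S.f t.y) - _ ≤ l (S.f z)
      linarith
  · obtain ⟨x, hx⟩ : ∃ x, y ∈ G.Cl x := mem_iUnion.1 (not_not.1 fun h => h2 ⟨hc hy, h⟩)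
    obtain ⟨z, hz, h4⟩ := Q.zn_dense x y hx
    have h5 := asc_disc_le hl h4.le
    refine ⟨.inr (.inr (.cn x z hz)), ⟨⟨x, z, hz, rfl⟩, x, rfl, y, hc hy, hx⟩, ?_⟩
    change l (S.f t.y) - _ ≤ l (S.f z)
    linarith

/-- R3. Hint: `hit_spec`, `exit_surf` with `O = univ` (`G.bd`, `G.iso`). If the exit point is in a
class use `G.iso` and `zn_dense`; else `D.cover`, `tube_adj` and `tn_dense`, or `Big.emit` and a
state that is active at `y'` (`fine`, `Seen.good`). -/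
theorem Aux.asc_class (A : Aux Q r R) (hS : S.IsSaddle) (hp : Par ρ δ e η r) {z : ZSt Q}
    (hz : z.Hit) (hb : z.cl ∉ Sum.inl '' G.Dir) (l : EuclideanSpace ℝ (Fin n) →L[ℝ] ℝ)
    (hl : ‖l‖ ≤ 1) :
    ∃ v, A.Tg (.inr (.inr z)) v ∧ l (A.F (.inr (.inr z))) - 5 * η ≤ l (A.F v) := by
  have hη := hp.η0
  have hr := hp.ηr
  have hd := hp.rd
  obtain ⟨x, z₀, h0, hx, hg, -⟩ := A.hit_spec hp hz
  have hx' : x ∉ G.Dir := fun h => hb ⟨x, h, hx.symm⟩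
  have hg' := asc_disc_le hl hg
  have hδ : 4 * r ≤ δ := by linarith
  obtain ⟨y, -, h1, h2, h3⟩ := exit_surf hS isOpen_univ (r := r) (by linarith only [hη, hr]) (mem_univ z₀)
    (fun y hy _ hn => by
      obtain ⟨x', h4, h5⟩ := G.bd y hy
      exact hx' (G.iso x hx' x' z₀ h0 y h5 (hn.mono subset_rfl hδ) ▸ h4)) l
  have h4 : ‖S.f y - S.f z₀‖ = 2 * r := (h2.resolve_right fun h => h (mem_univ y)).2
  by_cases hy : ∃ x', y ∈ G.Cl x'
  · obtain ⟨x', hy⟩ := hy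
    obtain rfl := G.iso x hx' x' z₀ h0 y hy (h3.mono subset_rfl hδ)
    obtain ⟨w, hw, h5⟩ := Q.zn_dense _ y hy
    have h6 := asc_disc_le hl h5.le
    refine ⟨.inr (.inr (.cn _ w hw)),
      ⟨asc_disc_far h4 hg h5.le (by linarith only [hη, hr]), ⟨_, w, hw, rfl⟩, hx.symm⟩, ?_⟩
    change _ ≤ l (S.f w)
    linarith
  rcases (D.cover y).resolve_left hy with ⟨i, hi⟩ | h5
  · have h5 : y ∈ G.Tb i \ ⋃ x, G.Cl x := ⟨hi, fun h => hy (mem_iUnion.1 h)⟩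
    obtain ⟨w, hw, h6⟩ := Q.tn_dense i y h5
    have h7 := asc_disc_le hl h6.le
    refine ⟨.inr (.inl ⟨i, w, hw⟩),
      ⟨asc_disc_far h4 hg h6.le (by linarith only [hη, hr]), x, hx, G.tube_adj hx' h0 h5 hδ h3⟩, ?_⟩
    change _ ≤ l (S.f w)
    linarith
  · obtain ⟨c, b, h6, h7, h8, h9, y', rfl, h10⟩ := D.emit (by linarith only [hη, hr]) hd hx' h0 h3 h5
    obtain ⟨v, hv, h11⟩ := A.asc_disc_act hp h7 h10
    have h12 := asc_disc_le hl h11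
    obtain rfl := hv.1
    exact ⟨.inl v, ⟨asc_disc_far h4 hg h11 (by linarith only [hη, hr]), b, h6, h9.trans hx.symm, h7, h8, hv⟩,
      by linarith⟩

theorem mem_ab {a : St Q} : a ∈ Ab Q ↔ ∃ z : ZSt Q, a = .inr (.inr z) ∧ z.cl ∈ Sum.inl '' G.Dir := by
  constructor
  · rintro ⟨_, ⟨z, hz, rfl⟩, rfl⟩
    exact ⟨z, rfl, hz⟩
  · rintro ⟨z, rfl, hz⟩
    exact ⟨_, ⟨z, hz, rfl⟩, rfl⟩

theorem exists_chain_long (A : Aux Q r R) (hS : S.IsSaddle) (hp : Par ρ δ e η r) {a : St Q}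
    (ha : Rs Q a) : ∃ w : St Q → ℝ, (∀ b, 0 ≤ w b) ∧ (a ∉ Ab Q → ∑ v, w v = 1 ∧
      ‖∑ v, w v • (A.F v - A.F a)‖ ≤ 5 * η ∧ ∀ v, 0 < w v → A.Tg a v) := by
  by_cases hb : a ∈ Ab Q
  · exact ⟨0, fun _ => le_rfl, fun h => absurd hb h⟩
  obtain ⟨w, h1, h2, h3, h4⟩ := hull_approx A.F {v | A.Tg a v} (A.F a) (δ := 5 * η)
    (by linarith [hp.η0]) fun l hl => by
      rcases a with u | t | z
      exacts [A.asc_disc hS hp ha l hl, A.asc_tube hS hp t l hl,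
        A.asc_class hS hp ha (fun h => hb (mem_ab.2 ⟨z, rfl, h⟩)) l hl]
  refine ⟨w, h1, fun _ => ⟨h2, ?_, fun v hv => h3 v hv.ne'⟩⟩
  simpa only [smul_sub, Finset.sum_sub_distrib, ← Finset.sum_smul, h2, one_smul] using h4

theorem exists_chain_mem {j : G.β} {σ : Bool} {p q : (X.B j).N} (h : X.Edge j σ p q) :
    (X.B j).pt p ∈ Half σ ∧ (X.B j).pt q ∈ Half σ :=
  let ⟨_, _, hK, _, h1, h2, _⟩ := h
  ⟨hK h1, hK h2⟩

theorem exists_chain_nD (Q : Pts D) {j : G.β} {σ : Bool} {p : (X.B j).N}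
    (h : (X.B j).pt p ∈ Half σ) (h1 : ¬ X.Zt j p) (q : (X.B j).N) : ∃ t : St Q,
      0 < (X.B j).r p q → ∃ h', t = .inl (.nd j σ q h') ∧ X.Edge j σ p q := by
  by_cases h0 : 0 < (X.B j).r p q
  · obtain ⟨σ', hσ⟩ := X.exists_edge h0
    obtain rfl : σ' = σ := by
      have h2 := (exists_chain_mem hσ).1.2
      have h3 := h.2
      cases σ <;> cases σ' <;> first | rfl | exact absurd (.inl (by
        simp only [Bool.false_eq_true, if_false, if_true] at h2 h3; linarith)) h1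
    exact ⟨_, fun _ => ⟨(exists_chain_mem hσ).2, rfl, hσ⟩⟩
  · exact ⟨.inl (.nd j σ p h), fun h => absurd h h0⟩

theorem exists_chain_nZ (Q : Pts D) {j : G.β} {p : (X.B j).N} (h : X.Zt j p) (q : (X.B j).N) :
    ∃ t : St Q, 0 < (X.B j).r p q → (∃ h', t = .inr (.inr (.nd j q h')) ∧ X.Same j p q) ∨
      ∃ σ h', t = .inl (.nd j σ q h') ∧ X.Edge j σ p q ∧ ¬ X.Same j p q := by
  by_cases h0 : 0 < (X.B j).r p q
  · by_cases h1 : X.Same j p q
    · exact ⟨_, fun _ => .inl ⟨h1.1, rfl, h1⟩⟩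
    · obtain ⟨σ, hσ⟩ := X.exists_edge h0
      exact ⟨_, fun _ => .inr ⟨σ, (exists_chain_mem hσ).2, rfl, hσ, h1⟩⟩
  · exact ⟨.inr (.inr (.nd j p h)), fun h => absurd h h0⟩

/-- R4. Hint: for every state `a` there is a row with the five properties (by cases; the cases
exclude each other: `rs_disc`, `gate_nd`); `hull_approx` for the long steps; for the other steps
choose the target of every `q` (`exists_edge`; off the middle line the half is determined;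
`push_nonneg`). -/
theorem Aux.exists_chain (A : Aux Q r R) (hS : S.IsSaddle) (hp : Par ρ δ e η r) :
    ∃ P, Chain A P := by
  classical
  have key : ∀ a : St Q, ∃ w : St Q → ℝ, (∀ b, 0 ≤ w b) ∧
      (∀ u : DSt Q, a = .inl u → u.gate → w (.inr (.inr (A.out u))) = 1 ∧
        ∀ v, v ≠ .inr (.inr (A.out u)) → w v = 0) ∧
      (Rs Q a → a ∉ Ab Q → ∑ v, w v = 1 ∧ ‖∑ v, w v • (A.F v - A.F a)‖ ≤ 5 * η ∧
        ∀ v, 0 < w v → A.Tg a v) ∧
      (∀ j σ p h, a = .inl (.nd j σ p h) → ¬ X.Zt j p → (X.B j).pt p ∉ frontier Sq → ∃ tg,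
        w = push (X.B j).r p tg ∧ ∀ q, q ≠ p → 0 < (X.B j).r p q →
          ∃ h', tg q = .inl (.nd j σ q h') ∧ X.Edge j σ p q) ∧
      ∀ j p h, a = .inr (.inr (.nd j p h)) → (X.B j).pt p ∉ frontier Sq → ∃ tg,
        w = push (X.B j).r p tg ∧ ∀ q, q ≠ p → 0 < (X.B j).r p q →
          (∃ h', tg q = .inr (.inr (.nd j q h')) ∧ X.Same j p q) ∨
            ∃ σ h', tg q = .inl (.nd j σ q h') ∧ X.Edge j σ p q ∧ ¬ X.Same j p q := by
    intro a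
    by_cases ha : Rs Q a
    · obtain ⟨w, h1, h2⟩ := exists_chain_long A hS hp ha
      refine ⟨w, h1, ?_, fun _ => h2, ?_, ?_⟩
      · rintro u rfl hu
        exact absurd hu (rs_disc hp ha).2.2
      · rintro j σ p h rfl - h3
        exact absurd ha.2 h3
      · rintro j p h rfl h3
        exact absurd ha h3
    by_cases hg : ∃ u : DSt Q, a = .inl u ∧ u.gate
    · obtain ⟨u, rfl, hu⟩ := hg
      refine ⟨Pi.single (.inr (.inr (A.out u))) 1, fun b => ?_, ?_, fun h => absurd h ha, ?_, ?_⟩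
      · rw [Pi.single_apply]
        split_ifs
        exacts [zero_le_one, le_rfl]
      · rintro _ ⟨⟩ -
        exact ⟨Pi.single_eq_same _ _, fun v hv => Pi.single_eq_of_ne hv _⟩
      · rintro j σ p h ⟨⟩ h3
        exact absurd (DSt.gate_nd.1 hu) h3
      · rintro j p h ⟨⟩
    have hg' : ∀ {Y : DSt Q → Prop} (u : DSt Q), a = .inl u → u.gate → Y u :=
      fun u h1 h2 => absurd ⟨u, h1, h2⟩ hg
    rcases a with (⟨c, z, h⟩ | ⟨j, σ, p, h⟩) | t | ⟨x, y, h⟩ | ⟨j, p, h⟩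
    · exact absurd ⟨_, rfl, not_not.1 ha⟩ hg
    · choose tg ht using exists_chain_nD Q h fun h1 => hg ⟨_, rfl, DSt.gate_nd.2 h1⟩
      refine ⟨push (X.B j).r p tg, push_nonneg (X.B j).nonneg, hg', fun h => absurd h ha, ?_, ?_⟩
      · rintro _ _ _ _ ⟨⟩ - -
        exact ⟨tg, rfl, fun q _ => ht q⟩
      · rintro _ _ _ ⟨⟩
    · exact absurd trivial ha
    · exact absurd trivial ha
    · choose tg ht using exists_chain_nZ Q h
      refine ⟨push (X.B j).r p tg, push_nonneg (X.B j).nonneg, hg', fun h => absurd h ha, ?_, ?_⟩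
      · rintro _ _ _ _ ⟨⟩
      · rintro _ _ _ ⟨⟩ -
        exact ⟨tg, rfl, fun q _ => ht q⟩
  choose P h1 h2 h3 h4 h5 using key
  exact ⟨P, h1, fun u => h2 _ u rfl, h3, fun j σ p h => h4 _ j σ p h rfl,
    fun j p h => h5 _ j p h rfl⟩

end Pool.Agent.MP_17e62b_gt.G
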