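import Pool.Agent.MP_17e62b_gt.Mg.G_GC
import Pool.Agent.MP_17e62b_gt.Mg.G_GA
import Pool.Agent.MP_17e62b_gt.Mg.G_GB
import Pool.Agent.MP_17e62b_gt.Mg.G_H14Iface

/-! The chain has the properties `Steps`, `Gated`, `Shape`. -/

set_option linter.unusedSectionVars false

namespace Pool.Agent.MP_17e62b_gt.G

open Set H14 T55
open scoped BigOperators Manifold

variable {n : ℕ} {S : Surface n} {N : ℕ} {ρ δ : ℝ} {G : Geo S N ρ δ} {e η s : ℝ} {M : ℕ}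
  {X : Nets G e η s M} {C : Type} [Fintype C] {Mx : ℕ} {D : Big X C Mx} {Q : Pts D} {r R : ℝ}
  {A : Aux Q r R} {P : St Q → St Q → ℝ} {j : G.β} {σ : Bool} {p : (X.B j).N}

section

variable {Y : Type} [AddCommGroup Y] [Module ℝ Y] (a : S.M → Y) (b : ∀ j, (X.B j).N → Y)

theorem Chain.gen_gate (h : Chain A P) {u : DSt Q} (hu : u.gate) :
    gen P (ev Q a b) (.inl u) = 0 := by
  obtain ⟨-, h2⟩ := h.gate u hu
  refine Finset.sum_eq_zero fun v _ => ?_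
  by_cases hv : v = .inr (.inr (A.out u))
  · rw [hv, A.ev_out a b hu, sub_self, smul_zero]
  · rw [h2 v hv, zero_smul]

/-- `push_gen`. -/
theorem Chain.gen_nD (h : Chain A P) (hp : (X.B j).pt p ∈ Half σ) (h1 : ¬ X.Zt j p)
    (h2 : (X.B j).pt p ∉ frontier Sq) :
    gen P (ev Q a b) (.inl (.nd j σ p hp)) = (tot (X.B j).r p)⁻¹ • gen (X.B j).r (b j) p := by
  obtain ⟨tg, h3, h4⟩ := h.nD j σ p hp h1 h2
  rw [gen, h3]
  refine push_gen (φ := ev Q a b) (ψ := b j) (X.B j).nonneg fun q hq hr => ?_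
  obtain ⟨h', e1, -⟩ := h4 q hq hr
  rw [e1]
  rfl

theorem Chain.gen_nZ (h : Chain A P) (hp : X.Zt j p) (h2 : (X.B j).pt p ∉ frontier Sq) :
    gen P (ev Q a b) (.inr (.inr (.nd j p hp))) =
      (tot (X.B j).r p)⁻¹ • gen (X.B j).r (b j) p := by
  obtain ⟨tg, h3, h4⟩ := h.nZ j p hp h2
  rw [gen, h3]
  refine push_gen (φ := ev Q a b) (ψ := b j) (X.B j).nonneg fun q hq hr => ?_
  rcases h4 q hq hr with ⟨h', e1, -⟩ | ⟨σ, h', e1, -⟩ <;> rw [e1] <;> rfl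

end

/-- The four kinds of states. -/
theorem st_cases (a : St Q) : Rs Q a ∨ (∃ u : DSt Q, a = .inl u ∧ u.gate) ∨
    (∃ j σ p h, a = .inl (.nd j σ p h) ∧ ¬ X.Zt j p ∧ (X.B j).pt p ∉ frontier Sq) ∨
    ∃ j p h, a = .inr (.inr (.nd j p h)) ∧ (X.B j).pt p ∉ frontier Sq := by
  rcases a with (⟨c, z, h⟩ | ⟨j, σ, p, h⟩) | t | ⟨x, y, h⟩ | ⟨j, p, h⟩
  · by_cases hz : z ∈ frontier (D.P c)
    · exact .inr (.inl ⟨_, rfl, hz⟩)
    · exact .inl hz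
  · by_cases hz : X.Zt j p
    · exact .inr (.inl ⟨_, rfl, DSt.gate_nd.2 hz⟩)
    · by_cases hf : (X.B j).pt p ∈ frontier Sq
      · exact .inl ⟨hz, hf⟩
      · exact .inr (.inr (.inl ⟨j, σ, p, h, rfl, hz, hf⟩))
  · exact .inl trivial
  · exact .inl trivial
  · by_cases hf : (X.B j).pt p ∈ frontier Sq
    · exact .inl hf
    · exact .inr (.inr (.inr ⟨j, p, h, rfl, hf⟩))

/-- V1. Hint: `Seen.good`, `nb_near`, `hit_spec`, `rs_disc`, `seen_self`, `sv_rt`. -/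
theorem Chain.long_good (h : Chain A P) (hp : Par ρ δ e η r) {a : St Q} (ha : Rs Q a)
    (hb : a ∉ Ab Q) : A.Good a ∧ ∀ v, 0 < P a v →
      (r ≤ ‖A.F v - A.F a‖ ∨ (¬ A.Hit a ∧ A.Hit v)) ∧ A.Good v := by
  obtain ⟨-, -, h3⟩ := h.long a ha hb
  have hr : 0 ≤ 60 * r := by linarith [hp.η0, hp.ηr]
  rcases a with u | t | z
  · obtain ⟨h4, -, h5⟩ := rs_disc hp ha
    refine ⟨(Aux.Seen.good hp (Big.sv_rt hr h4) (A.seen_self hp u)).1, fun v hv => ?_⟩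
    have h6 := h3 v hv
    rcases v with v | v
    · exact ⟨h6.2.imp id fun g => ⟨fun g' => h5 g'.1, g⟩, (Aux.nb_near hp (.inl h6.1)).2.2.2⟩
    · exact h6.elim
  · refine ⟨⟨rfl, rfl⟩, fun v hv => ?_⟩
    have h6 := h3 v hv
    rcases v with v | t' | z
    · exact h6.elim
    · exact ⟨.inl h6.2, rfl, rfl⟩
    · obtain ⟨⟨x, y, g, rfl⟩, -⟩ := h6
      exact ⟨.inr ⟨id, trivial⟩, rfl, rfl⟩
  · obtain ⟨-, -, -, -, -, h4⟩ := A.hit_spec hp (z := z) ha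
    refine ⟨h4, fun v hv => ?_⟩
    have h6 := h3 v hv
    rcases v with v | t' | z'
    · obtain ⟨h7, b, -, -, h8, -, h9⟩ := h6
      exact ⟨.inl h7, (Aux.Seen.good hp h8 h9).1⟩
    · exact ⟨.inl h6.1, rfl, rfl⟩
    · obtain ⟨h7, ⟨x, y, g, rfl⟩, -⟩ := h6
      exact ⟨.inl h7, rfl, rfl⟩

theorem Aux.other_ev (A : Aux Q r R) (c : ℝ) : (fun v => A.tau v + c * A.psi v) =
    ev Q (fun y => 0 + c * (R ^ 2 - ‖S.f y‖ ^ 2)) fun j p => A.τ j p + c * A.ψ j p := by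
  funext v
  rcases v with (_ | _) | _ | _ | _ <;> rfl

theorem Aux.other_step (A : Aux Q r R) (h2 : (X.B j).pt p ∉ frontier Sq) :
    0 ≤ -((tot (X.B j).r p)⁻¹ • gen (X.B j).r (A.ψ j) p) ∧
      ‖(tot (X.B j).r p)⁻¹ • gen (X.B j).r (A.u j) p‖ ≤
        512 * e / (δ / 1000) ^ 2 * -((tot (X.B j).r p)⁻¹ • gen (X.B j).r (A.ψ j) p) ∧
      0 ≤ -((tot (X.B j).r p)⁻¹ • gen (X.B j).r
        (fun q => A.τ j q + 512 / (s ^ 2 * (δ / 1000) ^ 2) * A.ψ j q) p) := by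
  obtain ⟨h3, h4, h5⟩ := (A.pot j).step p h2
  have h0 : 0 ≤ (tot (X.B j).r p)⁻¹ := inv_nonneg.2 (pot_tot_nonneg (X.B j).nonneg p)
  rw [norm_smul, Real.norm_of_nonneg h0, smul_eq_mul, smul_eq_mul, ← mul_neg, ← mul_neg,
    mul_left_comm]
  exact ⟨mul_nonneg h0 h3, mul_le_mul_of_nonneg_left h4 h0, mul_nonneg h0 h5⟩

/-- V2. Hint: `st_cases`; `gen_gate`, `gen_nD`, `gen_nZ` (`fun v => tau v + c * psi v` is again of
the form `ev`), `tot_pos`, `BandPot.step`. -/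
theorem Chain.other (h : Chain A P) {a : St Q} (ha : ¬ Rs Q a) :
    0 ≤ -gen P A.psi a ∧ ‖gen P A.F a‖ ≤ 512 * e / (δ / 1000) ^ 2 * -gen P A.psi a ∧
      0 ≤ -gen P (fun v => A.tau v + 512 / (s ^ 2 * (δ / 1000) ^ 2) * A.psi v) a ∧
      (¬ A.Hit a ∨ ∀ v, 0 < P a v → A.Hit v) := by
  rw [A.other_ev, Aux.psi, Aux.F]
  rcases st_cases a with g | ⟨u, rfl, hu⟩ | ⟨j, σ, p, g, rfl, h1, h2⟩ | ⟨j, p, g, rfl, h2⟩
  · exact (ha g).elim
  · rw [h.gen_gate _ _ hu, h.gen_gate _ _ hu, h.gen_gate _ _ hu, norm_zero, neg_zero, mul_zero]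
    refine ⟨le_rfl, le_rfl, le_rfl, ?_⟩
    by_cases g : A.Hit (.inl u)
    · refine .inr fun v hv => ?_
      have : v = .inr (.inr (A.out u)) := by_contra fun g' => hv.ne' ((h.gate u hu).2 v g')
      rw [this]
      exact g.2
    · exact .inl g
  · rw [h.gen_nD _ _ g h1 h2, h.gen_nD _ _ g h1 h2, h.gen_nD _ _ g h1 h2]
    obtain ⟨h3, h4, h5⟩ := A.other_step h2
    exact ⟨h3, h4, h5, .inl fun g' => h1 (DSt.gate_nd.1 g'.1)⟩
  · rw [h.gen_nZ _ _ g h2, h.gen_nZ _ _ g h2, h.gen_nZ _ _ g h2]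
    obtain ⟨h3, h4, h5⟩ := A.other_step h2
    exact ⟨h3, h4, h5, .inl h2⟩

theorem Chain.cut (h : Chain A P) {z : ZSt Q} (hz : z.Cut) : ¬ Rs Q (.inr (.inr z)) ∧
    ∑ v, P (.inr (.inr z)) v ≤
      -gen P (fun v => A.tau v + 512 / (s ^ 2 * (δ / 1000) ^ 2) * A.psi v) (.inr (.inr z)) := by
  rcases z with _ | ⟨j, p, g⟩
  · exact hz.elim
  have h2 : (X.B j).pt p ∉ frontier Sq := by
    obtain ⟨h1, h2, h3⟩ := (X.B j).y_lt
    obtain ⟨h4, h5, h6⟩ := hz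
    rw [sq_basic.2.2.2]
    rintro (((g | g) | g) | g) <;>
      simp only [SqH, SqV, mem_ofPred_eq, Bool.false_eq_true, if_false, if_true] at g <;>
      linarith only [g.1, g.2, h1, h5, h3, h6, h4]
  have h0 : 0 < tot (X.B j).r p := tot_pos (X.B j).nonneg (X.B j).abs h2
  refine ⟨h2, ?_⟩
  rw [A.other_ev, h.gen_nZ _ _ g h2]
  obtain ⟨tg, h3, -⟩ := h.nZ j p g h2
  rw [h3, push_sum h0, smul_eq_mul, ← mul_neg, ← inv_mul_cancel₀ h0.ne']
  exact mul_le_mul_of_nonneg_left ((A.pot j).cut p hz) (inv_nonneg.2 h0.le)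

/-- V3. Hint: otherwise `U` has only gates and copies of nodes; with a gate it contains `out u`.
For a band `j` that occurs, the set of the nodes with a copy in `U` misses the frontier and cannot
be left by `(X.B j).r` (`push_pos`), against `abs`. -/
theorem Chain.meet (h : Chain A P) (U : Set (St Q)) (h0 : U.Nonempty) (h1 : Disjoint U (Ab Q))
    (h2 : ∀ a ∈ U, ∀ b, 0 < P a b → b ∈ U) : (U ∩ {a | Rs Q a}).Nonempty := by
  by_contra hn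
  have hR : ∀ a ∈ U, ¬ Rs Q a := fun a ha hr => hn ⟨a, ha, hr⟩
  have hg : ∀ u : DSt Q, .inl u ∈ U → u.gate → .inr (.inr (A.out u)) ∈ U := fun u hu hg =>
    h2 _ hu _ (by rw [(h.gate u hg).1]; exact one_pos)
  let W : ∀ j, Set (X.B j).N := fun j => {p | (X.B j).pt p ∉ frontier Sq ∧
    ((∃ σ hp, .inl (.nd j σ p hp) ∈ U ∧ ¬ X.Zt j p) ∨ ∃ hp, .inr (.inr (.nd j p hp)) ∈ U)}
  have kZ : ∀ j p hp, .inr (.inr (.nd j p hp)) ∈ U → p ∈ W j := fun j p hp hu =>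
    ⟨hR _ hu, .inr ⟨hp, hu⟩⟩
  have kD : ∀ j σ p hp, .inl (.nd j σ p hp) ∈ U → p ∈ W j := fun j σ p hp hu => by
    by_cases hz : X.Zt j p
    · exact kZ j p hz (A.out_nd j σ p hp hz ▸ hg _ hu (DSt.gate_nd.2 hz))
    · exact ⟨fun hf => hR _ hu ⟨hz, hf⟩, .inl ⟨σ, hp, hu, hz⟩⟩
  obtain ⟨j, hj⟩ : ∃ j, (W j).Nonempty := by
    obtain ⟨(⟨c, z, hz⟩ | ⟨j, σ, p, hp⟩) | t | (⟨x, y, hy⟩ | ⟨j, p, hp⟩), ha⟩ := h0
    · have hf : z ∈ frontier (D.P c) := not_not.1 (hR _ ha)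
      obtain ⟨x, h', e1, -⟩ := A.out_pt c z hz hf
      have h3 := hg _ ha hf
      rw [e1] at h3
      exact (hR _ h3 trivial).elim
    · exact ⟨j, p, kD j σ p hp ha⟩
    · exact (hR _ ha trivial).elim
    · exact (hR _ ha trivial).elim
    · exact ⟨j, p, kZ j p hp ha⟩
  obtain ⟨p, hp, q, hq, hpq⟩ := (X.B j).abs (W j) hj (disjoint_left.2 fun p hp => hp.1)
  have hne : q ≠ p := fun e1 => hq (e1 ▸ hp)
  have hpos : ∀ tg : (X.B j).N → St Q, 0 < push (X.B j).r p tg (tg q) := fun tg =>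
    (push_pos (X.B j).nonneg (tot_pos (X.B j).nonneg (X.B j).abs hp.1)).2 ⟨q, hne, hpq, rfl⟩
  obtain ⟨hf, ⟨σ, hp', hu, hz⟩ | ⟨hp', hu⟩⟩ := hp
  · obtain ⟨tg, e1, ht⟩ := h.nD j σ p hp' hz hf
    obtain ⟨h', e2, -⟩ := ht q hne hpq
    exact hq (kD j σ q h' (e2 ▸ h2 _ hu _ (e1 ▸ hpos tg)))
  · obtain ⟨tg, e1, ht⟩ := h.nZ j p hp' hf
    have hm := h2 _ hu _ (e1 ▸ hpos tg)
    rcases ht q hne hpq with ⟨h', e2, -⟩ | ⟨σ, h', e2, -⟩
    · exact hq (kZ j q h' (e2 ▸ hm))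
    · exact hq (kD j σ q h' (e2 ▸ hm))

/-- V4. -/
theorem Chain.steps (h : Chain A P) (hp : Par ρ δ e η r) :
    Steps P (Ab Q) {a | Rs Q a} {a | A.Hit a} {a | ∃ z : ZSt Q, a = .inr (.inr z) ∧ z.Cut}
      (fun a b => ∃ u v, a = .inl u ∧ b = .inl v ∧ A.nb u v) A.F A.psi A.tau R r (5 * η)
      (512 * e / (δ / 1000) ^ 2) (512 / (s ^ 2 * (δ / 1000) ^ 2)) (36 * r) (4 / s ^ 2) := by
  have e1 : ∀ y, 0 ≤ R ^ 2 - ‖S.f y‖ ^ 2 ∧ R ^ 2 - ‖S.f y‖ ^ 2 ≤ R ^ 2 := fun y =>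
    ⟨sub_nonneg.2 (pow_le_pow_left₀ (norm_nonneg _) (by linarith [A.bd y]) 2),
      sub_le_self _ (sq_nonneg _)⟩
  have e2 : (0 : ℝ) ≤ 0 ∧ (0 : ℝ) ≤ 4 / s ^ 2 := ⟨le_rfl, by positivity⟩
  refine ⟨h.nonneg, A.F_le, ?_, ?_, fun a ha hb => ?_, fun a ha _ => h.other ha, ?_, ?_, h.meet⟩
  · rintro ((⟨c, z, hz⟩ | ⟨j, σ, p, hq⟩) | t | (⟨x, y, hy⟩ | ⟨j, p, hq⟩))
    exacts [e1 _, (A.pot j).psi p, e1 _, e1 _, (A.pot j).psi p]
  · rintro ((⟨c, z, hz⟩ | ⟨j, σ, p, hq⟩) | t | (⟨x, y, hy⟩ | ⟨j, p, hq⟩))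
    exacts [e2, (A.pot j).tau p, e2, e2, (A.pot j).tau p]
  · obtain ⟨h1, h2, -⟩ := h.long a ha hb
    obtain ⟨h3, h4⟩ := h.long_good hp ha hb
    exact ⟨h1, h2, h3.1, h3.2, h4⟩
  · rintro _ ⟨z, rfl, hz⟩ -
    exact h.cut hz
  · rintro _ _ ⟨u, v, rfl, rfl, huv⟩
    obtain ⟨-, h1, h2, h3⟩ := Aux.nb_near hp huv
    exact ⟨h1, h2.1, h3.1, h2.2, h3.2⟩

theorem Chain.gated (h : Chain A P) (hA : Abs P (Ab Q)) :
    Gated P (absZ (TSt Q) ZSt.cl (Sum.inl '' G.Dir)) DSt.gate fun u => .inr (A.out u) := by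
  refine ⟨h.nonneg, hA, h.gate, fun u hu => ?_⟩
  rcases st_cases (Q := Q) (.inl u) with h1 | ⟨_, e1, h1⟩ | ⟨j, σ, p, hp, e1, h1, h2⟩ |
    ⟨j, p, hp, e1, -⟩
  · obtain ⟨h2, -, h3⟩ := h.long _ h1 (by rintro ⟨_, -, e1⟩; cases e1)
    exact ⟨h2, fun o => le_antisymm (not_lt.1 fun h4 => h3 _ h4) (h.nonneg _ _)⟩
  · cases e1
    exact (hu h1).elim
  · obtain ⟨tg, e2, ht⟩ := h.nD j σ p hp h1 h2
    have h3 := tot_pos (X.B j).nonneg (X.B j).abs h2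
    rw [e1, e2]
    refine ⟨push_sum h3, fun o => le_antisymm (not_lt.1 fun h4 => ?_)
      (push_nonneg (X.B j).nonneg _)⟩
    obtain ⟨q, h5, h6, e3⟩ := (push_pos (X.B j).nonneg h3).1 h4
    obtain ⟨h', e4, -⟩ := ht q h5 h6
    cases e3.symm.trans e4
  · cases e1

/-- A jump inside the discs is a jump to a neighbour or along an edge. -/
theorem Chain.inner (h : Chain A P) {u v : DSt Q} (huv : 0 < P (.inl u) (.inl v)) :
    A.nbR u v ∨ ∃ j σ p q hp hq, u = .nd j σ p hp ∧ v = .nd j σ q hq ∧ X.Edge j σ p q := by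
  rcases st_cases (Q := Q) (.inl u) with h1 | ⟨_, e1, h1⟩ | ⟨j, σ, p, hp, e1, h1, h2⟩ |
    ⟨j, p, hp, e1, -⟩
  · exact .inl ((h.long _ h1 (by rintro ⟨_, -, e1⟩; cases e1)).2.2 _ huv).1
  · cases e1
    exact (huv.ne' ((h.gate u h1).2 _ Sum.inl_ne_inr)).elim
  · obtain ⟨tg, e2, ht⟩ := h.nD j σ p hp h1 h2
    rw [e1, e2] at huv
    obtain ⟨q, h5, h6, e3⟩ :=
      (push_pos (X.B j).nonneg (tot_pos (X.B j).nonneg (X.B j).abs h2)).1 huv
    obtain ⟨h', e4, h7⟩ := ht q h5 h6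
    exact .inr ⟨j, σ, p, q, hp, h', Sum.inl_injective e1, Sum.inl_injective (e3.symm.trans e4), h7⟩
  · cases e1

/-- `Classical.epsilon_spec`. -/
theorem Chain.ep_spec (h : Chain A P) {z : ZSt Q} {u : DSt Q} (hz : z.cl ∉ Sum.inl '' G.Dir)
    (hu : 0 < P (.inr (.inr z)) (.inl u)) :
    A.EmR z u (A.ep (.inr z) u) ∨ EmN z u (A.ep (.inr z) u) := by
  refine Classical.epsilon_spec (p := fun b => A.EmR z u b ∨ EmN z u b) ?_
  by_cases hH : z.Hit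
  · obtain ⟨b, hb⟩ := ((h.long (.inr (.inr z)) hH fun hb => by
      obtain ⟨z', e1, h1⟩ := mem_ab.1 hb
      cases e1
      exact hz h1).2.2 _ hu).2
    exact ⟨b, .inl hb⟩
  · rcases z with ⟨x, y, hy⟩ | ⟨j, p, hp⟩
    · exact (hH trivial).elim
    obtain ⟨tg, e2, ht⟩ := h.nZ j p hp hH
    rw [e2] at hu
    obtain ⟨q, h5, h6, e3⟩ :=
      (push_pos (X.B j).nonneg (tot_pos (X.B j).nonneg (X.B j).abs hH)).1 hu
    rcases ht q h5 h6 with ⟨h', e4, -⟩ | ⟨σ, h', e4, h7, h8⟩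
    · cases e3.symm.trans e4
    · exact ⟨_, .inr ⟨j, σ, p, q, hp, h', rfl, Sum.inl_injective (e3.symm.trans e4), rfl, h7, h8⟩⟩

theorem EmN.spec {z : ZSt Q} {u : DSt Q} {b : ℂ} (h : EmN z u b) :
    b ∈ frontier (D.P u.dsc) ∧ D.app u.dsc (D.lab u.dsc b) = z.cl ∧ (¬ z.Cut → b ∈ D.Sd u.dsc) ∧
      Near (D.fc u.dsc) (D.P u.dsc) e b u.pos := by
  obtain ⟨j, σ, p, q, hz, hq, rfl, rfl, rfl, he, -⟩ := h
  have hp : (X.B j).pt p ∈ Half σ := he.near.1.mem.1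
  refine ⟨(D.ι_fr j σ _ hp).2 hz, Big.app_nd hp hz, fun hc => ?_, Big.near_up he.near.1⟩
  obtain ⟨i, hi, -⟩ := X.zt_en hz hc
  exact .inr ⟨j, σ, i, rfl, _, ⟨hp, hi⟩, rfl⟩

open Classical in
/-- The free classes. -/
noncomputable def Nets.Fr (X : Nets G e η s M) : Finset X.Nu :=
  Finset.univ.filter fun w => ∃ x, x ∉ G.Dir ∧ w = .inl x

theorem Nets.card_Fr_mem (X : Nets G e η s M) {w : X.Nu} :
    w ∈ X.Fr ↔ ∃ x, x ∉ G.Dir ∧ w = .inl x := by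
  simp only [Nets.Fr, Finset.mem_filter, Finset.mem_univ, true_and]

theorem Nets.card_Fr (X : Nets G e η s M) : X.Fr.card ≤ N := by
  have h : (X.Fr : Set X.Nu) = Sum.inl '' G.Dirᶜ := by
    ext w
    rw [Finset.mem_coe, X.card_Fr_mem]
    exact ⟨fun ⟨x, h1, h2⟩ => ⟨x, h1, h2.symm⟩, fun ⟨x, h1, h2⟩ => ⟨x, h1, h2.symm⟩⟩
  rw [← Set.ncard_coe_finset, h, Set.ncard_image_of_injective _ Sum.inl_injective]
  exact G.few

theorem Chain.shape_t (h : Chain A P) (t : TSt Q) {v : St Q} (hv : 0 < P (.inr (.inl t)) v) :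
    A.Tg (.inr (.inl t)) v := by
  refine (h.long (.inr (.inl t)) trivial fun hb => ?_).2.2 v hv
  obtain ⟨z, hz, -⟩ := mem_ab.1 hb
  cases hz

theorem Chain.shape_z (h : Chain A P) {z : ZSt Q} (hz : z.cl ∉ Sum.inl '' G.Dir) {v : St Q}
    (hv : 0 < P (.inr (.inr z)) v) : A.Tg (.inr (.inr z)) v ∨
      (∃ z' : ZSt Q, v = .inr (.inr z') ∧ z'.cl = z.cl) ∨ ∃ u, v = .inl u := by
  by_cases hh : z.Hit
  · refine .inl ((h.long (.inr (.inr z)) hh fun hb => ?_).2.2 v hv)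
    obtain ⟨z', h1, h2⟩ := mem_ab.1 hb
    cases h1
    exact hz h2
  · cases z with
    | cn x y hy => exact absurd trivial hh
    | nd j p hp =>
      obtain ⟨tg, h1, h2⟩ := h.nZ j p hp hh
      rw [h1] at hv
      obtain ⟨q, q1, q2, rfl⟩ :=
        (push_pos (X.B j).nonneg (tot_pos (X.B j).nonneg (X.B j).abs hh)).1 hv
      rcases h2 q q1 q2 with ⟨h', h3, h4⟩ | ⟨σ, h', h3, -⟩
      · exact .inr (.inl ⟨_, h3, h4.2⟩)
      · exact .inr (.inr ⟨_, h3⟩)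

theorem shape_inj {z z' : ZSt Q} (h1 : z.Cut) (h2 : z'.Cut) (h : z.cl = z'.cl) : z = z' := by
  cases z with
  | cn x y hy => exact h1.elim
  | nd j p hp =>
    cases z' with
    | cn x y hy => exact h2.elim
    | nd j' p' hp' =>
      have h1' : (X.B j).IsCut p := h1
      have h2' : (X.B j').IsCut p' := h2
      simp only [ZSt.cl, Nets.clN, dif_pos h1', dif_pos h2'] at h
      cases h
      rfl

/-- V5. -/
theorem Chain.shape (h : Chain A P) :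
    Shape P DSt.gate (fun u => .inr (A.out u)) DSt.lab A.elb A.nb DSt.dsc ZSt.cl D.app
      (Sum.inl '' G.Dir) X.Fr TSt.adj := by
  refine ⟨?_, ?_, fun z z' hz => ?_, fun u v huv => ?_, fun u v huv => Aux.nb_dsc huv,
    fun _ => rfl, fun u hu => ⟨_, rfl, A.out_cl hu⟩, fun z u hz hu => ⟨rfl, ?_⟩, fun t u => ?_,
    fun z z' hz hv => ?_, fun t t' hv => ?_, fun t z hv => (h.shape_t t hv).2,
    fun z t hz hv => ?_⟩
  · rintro (x | ⟨j, p, hp⟩)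
    · obtain ⟨y, hy⟩ := G.cl_ne x
      obtain ⟨w, hw, -⟩ := Q.zn_dense x y hy
      exact ⟨.cn x w hw, rfl⟩
    · exact ⟨.nd j p (.inl hp.1), dif_pos hp⟩
  · rintro w hw ⟨x, hx, rfl⟩
    obtain ⟨x', h1, h2⟩ := X.card_Fr_mem.1 hw
    cases h2
    exact h1 hx
  · rcases hw : z.cl with x | w
    · by_cases hx : x ∈ G.Dir
      · exact .inr (.inr ⟨x, hx, rfl⟩)
      · exact .inr (.inl (X.card_Fr_mem.2 ⟨x, hx, rfl⟩))
    · exact .inl (shape_inj (ZSt.cl_inr hw) (ZSt.cl_inr (hz.symm.trans hw)) hz)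
  · rcases h.inner huv with h1 | ⟨j, σ, p, q, hp, hq, rfl, rfl, -⟩
    · exact Aux.nb_dsc (.inl h1)
    · rfl
  · rcases h.ep_spec hz hu with h1 | h1
    · exact h1.2.1
    · exact h1.spec.2.1
  · exact le_antisymm (not_lt.1 fun hv => h.shape_t t hv) (h.nonneg _ _)
  · rcases h.shape_z hz hv with h1 | ⟨w, h1, h2⟩ | ⟨u, h1⟩
    · exact h1.2.2.symm
    · cases h1
      exact h2.symm
    · cases h1
  · have h1 : t.i = t'.i := (h.shape_t t hv).1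
    funext u
    simp only [TSt.adj, h1]
  · rcases h.shape_z hz hv with h1 | ⟨w, h1, -⟩ | ⟨u, h1⟩
    · exact h1.2
    · cases h1
    · cases h1

theorem Chain.far_step (h : Chain A P) (hp : Par ρ δ e η r) {v v' : DSt Q}
    (hv : 0 < P (.inl v) (.inl v') ∨ A.nb v v') :
    v.dsc = v'.dsc ∧ Near (D.fc v.dsc) (D.P v.dsc) (δ / 1000 / 25) v.pos v'.pos := by
  have key : A.nb v v' →
      v.dsc = v'.dsc ∧ Near (D.fc v.dsc) (D.P v.dsc) (δ / 1000 / 25) v.pos v'.pos := fun h1 =>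
    ⟨Aux.nb_dsc h1, (Aux.nb_near hp h1).1.mono subset_rfl (by linarith [hp.η0, hp.ηr, hp.rd])⟩
  rcases hv with hv | hv
  · rcases h.inner hv with h1 | ⟨j, σ, p, q, hp', hq, rfl, rfl, h1⟩
    · exact key (.inl h1)
    · exact ⟨rfl, (Big.near_up h1.near.1).mono subset_rfl (by linarith only [hp.η0, hp.ηe, hp.ed])⟩
  · exact key hv

/-- V6. Hint: all states of the chain lie in the disc of `y`; `near_chain` with
`ρ = δ / 1000 / 25`, `R = δ / 1000 / 4 + 3 e` (`inner`, `nb_near`, `Edge.near`, `near_up`, `F_pos`),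
started at the point of emission (`ep_spec`, `Seen.near`, `EmN.spec`); `gate_sd`, `D.sep`. -/
theorem Chain.far (h : Chain A P) (hp : Par ρ δ e η r) {z : ZSt Q}
    (hz : z.cl ∉ Sum.inl '' G.Dir) (hc : ¬ z.Cut) {y u : DSt Q}
    (hy : 0 < P (.inr (.inr z)) (.inl y))
    (hd : ‖A.F (.inl y) - A.F (.inr (.inr z))‖ < δ / 1000 / 4) (hu : u.gate)
    (h1 : D.app u.lab.1 u.lab.2 ∉ Sum.inl '' G.Dir) (h2 : ∀ w, D.app u.lab.1 u.lab.2 ≠ .inr w)
    (hr : Relation.ReflTransGen (fun v v' => (0 < P (.inl v) (.inl v') ∨ A.nb v v') ∧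
      ‖A.F (.inl v') - A.F (.inr (.inr z))‖ < δ / 1000 / 4) y u) :
    u.lab = A.elb (.inr z) y := by
  have hF : ∀ v : DSt Q, ‖A.F (.inl v) - A.F (.inr (.inr z))‖ < δ / 1000 / 4 →
      ‖D.fc v.dsc v.pos - A.F (.inr (.inr z))‖ ≤ δ / 1000 / 4 + 3 * e := fun v hv => by
    have a1 := A.F_pos hp v
    have a2 := norm_sub_le_norm_sub_add_norm_sub (D.fc v.dsc v.pos) (A.F (.inl v))
      (A.F (.inr (.inr z)))
    rw [norm_sub_rev] at a1
    linarith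
  have key : ∀ w : DSt Q, Relation.ReflTransGen (fun v v' =>
      (0 < P (.inl v) (.inl v') ∨ A.nb v v') ∧
        ‖A.F (.inl v') - A.F (.inr (.inr z))‖ < δ / 1000 / 4) y w → w.dsc = y.dsc ∧
      Relation.ReflTransGen (fun v v' : DSt Q =>
        Near (D.fc y.dsc) (D.P y.dsc) (δ / 1000 / 25) v.pos v'.pos ∧
          ‖D.fc y.dsc v'.pos - A.F (.inr (.inr z))‖ ≤ δ / 1000 / 4 + 3 * e) y w := by
    intro w hw
    induction hw with
    | refl => exact ⟨rfl, .refl⟩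
    | tail _ hst ih =>
      obtain ⟨a1, a2⟩ := h.far_step hp hst.1
      have a3 := hF _ hst.2
      rw [← a1, ih.1] at a3
      rw [ih.1] at a2
      exact ⟨a1.symm.trans ih.1, ih.2.tail ⟨a2, a3⟩⟩
  obtain ⟨e1, hch⟩ := key u hr
  obtain ⟨b1, b2, b3, b4⟩ : A.ep (.inr z) y ∈ frontier (D.P y.dsc) ∧
      D.app y.dsc (D.lab y.dsc (A.ep (.inr z) y)) = z.cl ∧ A.ep (.inr z) y ∈ D.Sd y.dsc ∧
      Near (D.fc y.dsc) (D.P y.dsc) (δ / 1000 / 25) (A.ep (.inr z) y) y.pos := by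
    rcases h.ep_spec hz hy with g | g
    · exact ⟨g.1, g.2.1, g.2.2.2.1, (Aux.Seen.near hp g.2.2.1 g.2.2.2.2).mono subset_rfl
        (by linarith only [hp.η0, hp.ηr, hp.rd])⟩
    · exact ⟨g.spec.1, g.spec.2.1, g.spec.2.2.1 hc, g.spec.2.2.2.mono subset_rfl
        (by linarith [hp.η0, hp.ηe, hp.ed])⟩
  have hn := (near_chain (pos := DSt.pos) (fun _ _ g => g) b4 (hF y hd) hch).mono subset_rfl
    (show _ ≤ δ / 1000 by linarith only [hp.η0, hp.ηe, hp.ed])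
  have c1 : u.pos ∈ frontier (D.P u.dsc) := hu
  have c2 := DSt.gate_sd hu h2
  obtain ⟨x', c3⟩ : ∃ x', D.app u.dsc (D.lab u.dsc u.pos) = .inl x' := by
    rcases hw : D.app u.dsc (D.lab u.dsc u.pos) with x' | w
    · exact ⟨x', rfl⟩
    · exact absurd hw (h2 w)
  have c4 : x' ∉ G.Dir := fun g => h1 ⟨x', g, c3.symm⟩
  obtain ⟨x, c5⟩ : ∃ x, z.cl = .inl x := by
    rcases hw : z.cl with x | w
    · exact ⟨x, rfl⟩
    · exact absurd (ZSt.cl_inr hw) hc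
  have c6 : x ∉ G.Dir := fun g => hz ⟨x, g, c5.symm⟩
  rw [e1] at c1 c2 c3
  have c7 := D.sep y.dsc _ b1 _ c1 b3 c2 x x' c6 c4 (b2.trans c5) c3 hn
  change (⟨u.dsc, D.lab u.dsc u.pos⟩ : Corner fun c => lens (D.m c)) =
    ⟨y.dsc, D.lab y.dsc (A.ep (.inr z) y)⟩
  rw [e1, c7]

end Pool.Agent.MP_17e62b_gt.G

/-! The exit law on one disc. -/

set_option linter.unusedSectionVars false

namespace Pool.Agent.MP_17e62b_gt.G

open Set H14 T55
open scoped BigOperators Manifold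

variable {n : ℕ} {S : Surface n} {N : ℕ} {ρ δ : ℝ} {G : Geo S N ρ δ} {e η s : ℝ} {M : ℕ}
  {X : Nets G e η s M} {C : Type} [Fintype C] {Mx : ℕ} {D : Big X C Mx} {Q : Pts D} {r R : ℝ}
  {A : Aux Q r R} {P : St Q → St Q → ℝ} {κ : ℝ} {cm : DSt Q → DSt Q → ℝ}
  {Φ : DSt Q → Corner (fun c => lens (D.m c)) → ℝ} {c : C}

/-- The law on the corners of the disc `c`. -/
def res (Φ : DSt Q → Corner (fun c => lens (D.m c)) → ℝ) (c : C) (v : DSt Q) :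
    (lens (D.m c)).Vt → ℝ := fun α => Φ v ⟨c, α⟩

/-- The interpolated law. -/
noncomputable def Aux.W (A : Aux Q r R) (Φ : DSt Q → Corner (fun c => lens (D.m c)) → ℝ) (c : C)
    (y : ℂ) : (lens (D.m c)).Vt → ℝ := cmb (res Φ c) (A.lam c y)

theorem res_sub (l : ((lens (D.m c)).Vt → ℝ) →L[ℝ] ℝ) (hl : ‖l‖ ≤ 1) {u v : DSt Q}
    (h : ‖Φ u - Φ v‖ ≤ κ) : ‖res Φ c u - res Φ c v‖ ≤ κ ∧ l (res Φ c u) - κ ≤ l (res Φ c v) := by
  have h1 : ‖res Φ c u - res Φ c v‖ ≤ κ :=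
    (pi_norm_le_iff_of_nonneg ((norm_nonneg _).trans h)).2 fun α =>
      (norm_le_pi_norm (Φ u - Φ v) ⟨c, α⟩).trans h
  have h2 := (le_abs_self _).trans (l.le_of_opNorm_le_of_le hl h1)
  rw [map_sub] at h2
  exact ⟨h1, by linarith⟩

theorem abv_map {V Y Z : Type} [Fintype V] [NormedAddCommGroup Y] [NormedSpace ℝ Y]
    [NormedAddCommGroup Z] [NormedSpace ℝ Z] (l : Y →L[ℝ] Z) (φ : V → Y) (p : V → ℝ) :
    l (cmb φ p) = cmb (fun w => l (φ w)) p := by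
  simp only [cmb, map_sum, map_smul]

theorem abv_mem {V Y : Type} [Fintype V] [AddCommGroup Y] [Module ℝ Y] {φ : V → Y} {p : V → ℝ}
    (hp : p ∈ stdSimplex ℝ V) {U : Set Y} (hU : Convex ℝ U) (h : ∀ w, p w ≠ 0 → φ w ∈ U) :
    cmb φ p ∈ U := by
  classical
  have e1 : ∑ w ∈ Finset.univ.filter (fun w => p w ≠ 0), p w = 1 := by
    rw [Finset.sum_filter_ne_zero, hp.2]
  have e2 : cmb φ p = ∑ w ∈ Finset.univ.filter (fun w => p w ≠ 0), p w • φ w := by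
    refine (Finset.sum_filter_of_ne (p := fun w => p w ≠ 0) fun w _ h1 h2 => h1 ?_).symm
    rw [h2, zero_smul]
  rw [e2]
  exact hU.sum_mem (fun w _ => hp.1 w) e1 fun w hw => h w (Finset.mem_filter.1 hw).2

/-- A convex combination of numbers that are at least `m`. -/
theorem Aux.abv (A : Aux Q r R) (l : ((lens (D.m c)).Vt → ℝ) →L[ℝ] ℝ) {K : Set ℂ}
    (hK : K ⊆ D.P c) (hc : IsPreconnected K) {x y : ℂ} (hx : x ∈ K) (hy : y ∈ K) {m : ℝ}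
    (h : ∀ z ∈ K, ∀ w, A.lam c z w ≠ 0 → m ≤ l (res Φ c w)) :
    Abv (D.P c) (fun z => l (A.W Φ c z)) m x y := by
  refine ⟨K, hK, hc, hx, hy, fun z hz => ?_⟩
  change m ≤ l (cmb _ _)
  rw [abv_map]
  exact abv_mem (A.simplex c z (hK hz)) (convex_Ici m) (h z hz)

theorem Aux.at_pos_seen (A : Aux Q r R) (hp : Par ρ δ e η r) {x : ℂ} (hx : x ∈ D.P c)
    {w : DSt Q} (hw : A.lam c x w ≠ 0) : A.Seen c x w :=
  ⟨Aux.lam_dsc hx hw, x, Near.refl hx (by linarith [hp.η0, hp.ηr]), Or.inl hw⟩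

/-- L1. Hint: at `nd` equality (`A.half`, `cmb_mu`, `BandNet.node`); a point of the net is a root
(`net_sub`, `fb_spec`) that sees the state and all the active states. -/
theorem Aux.at_pos (A : Aux Q r R) (hp : Par ρ δ e η r) (hκ : 0 ≤ κ)
    (hL : ∀ u v, A.nb u v → ‖Φ u - Φ v‖ ≤ κ) {v : DSt Q} (hv : v.dsc = c) :
    ‖A.W Φ c v.pos - res Φ c v‖ ≤ κ := by
  subst hv
  rw [← mem_closedBall_iff_norm]
  refine abv_mem (A.simplex _ _ v.pos_mem) (convex_closedBall _ _) fun w hw => ?_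
  rw [mem_closedBall_iff_norm]
  rcases v with ⟨c, z, h⟩ | ⟨j, σ, p, h⟩
  · have h1 : z ∈ D.Rt c (60 * r) := (Q.net_sub c z h).elim Or.inl fun g =>
      (Big.fb_spec (by linarith [hp.η0, hp.ηr]) g).1
    exact (res_sub 0 (by simp) (hL _ _ (Or.inl ⟨c, z, h1, A.at_pos_seen hp (Big.rt_sub h1) hw,
      A.seen_self hp (.pt c z h)⟩))).1
  · have h1 : mu Q j σ ((X.B j).pt p) w ≠ 0 := A.half j σ _ h ▸ hw
    obtain ⟨q, hq, rfl, h2⟩ := mu_ne h1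
    obtain rfl : q = p := not_not.1 fun g => h2 ((X.B j).node σ p h q g)
    rw [sub_self, norm_zero]
    exact hκ

theorem Aux.up_trk (hp : Par ρ δ e η r) (hL : ∀ u v, A.nb u v → ‖Φ u - Φ v‖ ≤ κ) {x : ℂ}
    (hx : x ∈ D.Rt c (60 * r)) {v : DSt Q} (hv : A.Seen c x v)
    (l : ((lens (D.m c)).Vt → ℝ) →L[ℝ] ℝ) (hl : ‖l‖ ≤ 1) :
    Abv (D.P c) (fun z => l (A.W Φ c z)) (l (res Φ c v) - κ) x v.pos := by
  obtain ⟨K, h1, h2, h3, h4, h5⟩ := hv.trk hp hx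
  exact A.abv l h1 h2 h3 h4 fun z hz w hw => (res_sub l hl (hL _ _ (Or.inl (h5 z hz w hw)))).2

/-- L2. Hint: `pieces`. If `x ∈ A c`, take an active state `v` at `x` with the largest value and
`Seen.trk`. If `x = ι j σ y`, use `BandNet.up` with `u p = l (res Φ c (nd j σ p _))` (`cmb_mu`). -/
theorem Aux.up (A : Aux Q r R) (hp : Par ρ δ e η r) (hκ : 0 ≤ κ)
    (hL : ∀ u v, A.nb u v → ‖Φ u - Φ v‖ ≤ κ) {x : ℂ} (hx : x ∈ D.P c)
    (l : ((lens (D.m c)).Vt → ℝ) →L[ℝ] ℝ) (hl : ‖l‖ ≤ 1) :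
    ∃ v : DSt Q, v.dsc = c ∧ l (A.W Φ c x) - κ ≤ l (res Φ c v) ∧
      Abv (D.P c) (fun z => l (A.W Φ c z)) (l (A.W Φ c x) - κ) x v.pos := by
  classical
  rcases D.pieces c x hx with hA | ⟨j, σ, rfl, y, hy, rfl⟩
  · obtain ⟨v, h1, h2⟩ : ∃ v, A.lam c x v ≠ 0 ∧ l (A.W Φ c x) ≤ l (res Φ c v) := by
      by_contra h
      have h1 := abv_mem (φ := fun w => l (res Φ c w)) (A.simplex c x hx)
        (convex_Iio (l (A.W Φ c x))) fun w hw => not_le.1 fun g => h ⟨w, hw, g⟩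
      rw [← abv_map] at h1
      exact lt_irrefl _ (mem_Iio.1 h1)
    exact ⟨v, Aux.lam_dsc hx h1, by linarith,
      (Aux.up_trk hp hL (Or.inl hA) (A.at_pos_seen hp hx h1) l hl).mono (by linarith)⟩
  · obtain ⟨u, hu⟩ : ∃ u : (X.B j).N → ℝ, ∀ p h, l (res Φ (D.d j σ) (.nd j σ p h)) = u p :=
      ⟨fun p => if h : (X.B j).pt p ∈ Half σ then l (res Φ (D.d j σ) (.nd j σ p h)) else 0,
        fun p h => by simp only [dif_pos h]⟩
    have key : ∀ z ∈ Half σ, l (A.W Φ (D.d j σ) (D.ι j σ z)) = cmb u ((X.B j).lam σ z) :=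
      fun z hz => by rw [Aux.W, A.half j σ z hz, abv_map, cmb_mu hz hu]
    obtain ⟨p, K, h1, h2, h3, h4, h5⟩ := (X.B j).up σ y hy u
    have h6 := (le_abs_self _).trans (l.le_of_opNorm_le_of_le hl
      (A.at_pos hp hκ hL (v := .nd j σ p (h1 h4)) rfl))
    have h7 := h5 _ h4
    rw [← key _ hy, ← key _ (h1 h4)] at h7
    rw [map_sub] at h6
    refine ⟨.nd j σ p (h1 h4), rfl, ?_, D.ι j σ '' K, ((D.ι_mem j σ).mono_left h1).image_subset,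
      h2.image _ ((D.ι_cont j σ).mono h1), mem_image_of_mem _ h3, mem_image_of_mem _ h4, ?_⟩
    · change l (A.W Φ (D.d j σ) (D.ι j σ ((X.B j).pt p))) - _ ≤ _ at h6
      linarith
    · rintro _ ⟨z, hz, rfl⟩
      have h8 := h5 z hz
      rw [← key _ hy, ← key _ (h1 hz)] at h8
      exact (sub_le_self _ hκ).trans h8

theorem Chain.jump_edge (A : Aux Q r R) (hκ : 0 ≤ κ) {j : G.β} {σ : Bool} {p q : (X.B j).N}
    (h : X.Edge j σ p q) (hp : (X.B j).pt p ∈ Half σ) (hq : (X.B j).pt q ∈ Half σ)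
    (l : ((lens (D.m (D.d j σ))).Vt → ℝ) →L[ℝ] ℝ) :
    Abv (D.P (D.d j σ)) (fun z => l (A.W Φ (D.d j σ) z))
      (min (l (res Φ (D.d j σ) (.nd j σ p hp))) (l (res Φ (D.d j σ) (.nd j σ q hq))) - κ)
      (D.ι j σ ((X.B j).pt p)) (D.ι j σ ((X.B j).pt q)) := by
  obtain ⟨K, h1, h2, h3, h4, h5⟩ := A.edge_trk h hp hq
  refine A.abv l h1 h2 h3 h4 fun z hz w hw => (sub_le_self _ hκ).trans ?_
  rcases h5 z hz w hw with rfl | rfl
  exacts [min_le_left _ _, min_le_right _ _]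

/-- L3. Hint: `Chain.inner`; `Seen.trk` twice and `Abv.trans`, or `edge_trk`. -/
theorem Chain.jump (h : Chain A P) (hp : Par ρ δ e η r) (hκ : 0 ≤ κ)
    (hL : ∀ u v, A.nb u v → ‖Φ u - Φ v‖ ≤ κ) {u v : DSt Q} (hu : u.dsc = c)
    (huv : 0 < P (.inl u) (.inl v) ∨ A.nb u v) (l : ((lens (D.m c)).Vt → ℝ) →L[ℝ] ℝ)
    (hl : ‖l‖ ≤ 1) : Abv (D.P c) (fun z => l (A.W Φ c z))
      (min (l (res Φ c u)) (l (res Φ c v)) - κ) u.pos v.pos := by
  have key : A.nbR u v → Abv (D.P c) (fun z => l (A.W Φ c z))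
      (min (l (res Φ c u)) (l (res Φ c v)) - κ) u.pos v.pos := by
    rintro ⟨c', y, hy, h1, h2⟩
    obtain rfl : c = c' := hu.symm.trans h1.1
    exact ((Aux.up_trk hp hL hy h1 l hl).symm.mono (sub_le_sub_right (min_le_left _ _) κ)).trans
      ((Aux.up_trk hp hL hy h2 l hl).mono (sub_le_sub_right (min_le_right _ _) κ))
  rcases huv with g | g | ⟨j, σ, p, q, h1, h2, rfl, rfl, -, -, g, -⟩ |
    ⟨j, σ, p, q, h1, h2, rfl, rfl, -, -, g, -⟩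
  · rcases h.inner g with g' | ⟨j, σ, p, q, h1, h2, rfl, rfl, g'⟩
    · exact key g'
    · subst hu
      exact Chain.jump_edge A hκ g' h1 h2 l
  · exact key g
  · subst hu
    exact Chain.jump_edge A hκ g h1 h2 l
  · subst hu
    rw [min_comm]
    exact (Chain.jump_edge A hκ g h1 h2 l).symm

theorem loc_single {ι : Type} {β : ι → Type} [DecidableEq (Σ i, β i)] {i : ι} [DecidableEq (β i)]
    (a b : β i) : (Pi.single (⟨i, a⟩ : Σ i, β i) (1 : ℝ) : (Σ i, β i) → ℝ) ⟨i, b⟩ =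
      (Pi.single a (1 : ℝ) : β i → ℝ) b := by
  simp only [Pi.single_apply, sigma_mk_injective.eq_iff]

/-- L4. Hint: `Gated.locR_abs`, `Law.harm` at the coordinates `⟨c, α⟩`, `Shape.simplex`. -/
theorem Chain.loc (h : Chain A P) (hp : Par ρ δ e η r) (hκ : 0 ≤ κ) (hA : Abs P (Ab Q))
    (hL : Law P DSt.gate DSt.lab A.nb κ cm Φ) (c : C) :
    Loc14 (D.lab c) {v : DSt Q | v.dsc = c} DSt.pos (fun u v => P (.inl u) (.inl v) + cm u v)
      (res Φ c) (A.W Φ c) κ := by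
  have hG := h.gated hA
  have hq : ∀ u v, 0 < P (.inl u) (.inl v) + cm u v → 0 < P (.inl u) (.inl v) ∨ A.nb u v :=
    fun u v huv => (h.nonneg (.inl u) (.inl v)).eq_or_lt.symm.imp_right fun e =>
      (hL.c_pos u v (by rwa [← e, zero_add] at huv)).1
  refine ⟨fun u v => add_nonneg (h.nonneg _ _) (hL.c_nonneg _ _), fun u hu v huv => ?_,
    fun u hu => ?_, fun U hU hUc hcl => ?_, fun u hu => ?_, ?_, fun y hy => ⟨fun α => ?_, ?_⟩,
    fun u hu => A.at_pos hp hκ hL.close hu, fun x hx l hl => A.up hp hκ hL.close hx l hl,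
    fun u hu v huv l hl => h.jump hp hκ hL.close hu (hq u v huv) l hl, D.lab_side c⟩
  · exact ((hq u v huv).elim (h.shape.dsc_P u v) Aux.nb_dsc).symm.trans hu
  · obtain rfl : u.dsc = c := hu
    exact u.pos_mem
  · obtain ⟨_, ⟨u, hu, rfl⟩, b, hb, hab⟩ := hG.locR_abs hL.c_nonneg (Sum.inl '' U) (hU.image _)
      (disjoint_left.2 (by rintro _ ⟨u, -, rfl⟩ ⟨o, ho⟩; exact Sum.inr_ne_inl ho))
    rcases b with v | v
    · exact absurd (mem_image_of_mem _ (hcl u hu v hab)) hb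
    · obtain rfl : u.dsc = c := hUc hu
      refine ⟨u, hu, by_contra fun hg => ?_⟩
      simp only [locR] at hab
      rw [if_neg fun h' => hg h'.2] at hab
      exact lt_irrefl _ hab
  · obtain rfl : u.dsc = c := hu
    funext α
    have h1 := congrFun (hL.harm u) ⟨u.dsc, α⟩
    by_cases hg : u.gate
    · rw [if_pos hg] at h1
      rw [if_pos (show u.pos ∈ frontier (lens (D.m u.dsc)).P from hg)]
      simp only [Pi.add_apply, Finset.sum_apply, Pi.smul_apply, Pi.sub_apply, DSt.lab,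
        loc_single] at h1 ⊢
      exact h1
    · rw [if_neg hg] at h1
      rw [if_neg (show ¬ u.pos ∈ frontier (lens (D.m u.dsc)).P from hg)]
      simp only [Pi.add_apply, Finset.sum_apply, Pi.smul_apply, Pi.sub_apply] at h1 ⊢
      exact h1
  · exact continuousOn_finsetSum _ fun v _ =>
      ((continuous_apply v).comp_continuousOn (A.cont c)).smul continuousOn_const
  · simp only [Aux.W, cmb, Finset.sum_apply, Pi.smul_apply, smul_eq_mul]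
    exact Finset.sum_nonneg fun v _ => mul_nonneg ((A.simplex c y hy).1 v) ((hL.simplex v).1 _)
  · simp only [Aux.W, cmb, Finset.sum_apply, Pi.smul_apply, smul_eq_mul]
    rw [Finset.sum_comm, ← (A.simplex c y hy).2]
    refine Finset.sum_congr rfl fun v _ => ?_
    rw [← Finset.mul_sum]
    by_cases h0 : A.lam c y v = 0
    · rw [h0, zero_mul]
    · exact mul_right_eq_self₀.2 (Or.inl (h.shape.simplex hG hL (Aux.lam_dsc hy h0)).2)

open Classical in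
/-- L5. Hint: `ep_spec`. For `EmR` use `Seen.trk`. For `EmN` use `edge_trk`; the value at the
copy of `p` is at least `l (single α 1) - κ`: by the extra pair if `pt p ∈ NF (112 r)`, otherwise
the copy is a gate without neighbours (`unmixed`) and `Law.harm` gives its law. -/
theorem Chain.em (h : Chain A P) (hp : Par ρ δ e η r) (hκ : 0 ≤ κ)
    (hL : Law P DSt.gate DSt.lab A.nb κ cm Φ) {z : ZSt Q} {u : DSt Q}
    (hz : z.cl ∉ Sum.inl '' G.Dir) (hu : 0 < P (.inr (.inr z)) (.inl u)) {α : (lens (D.m c)).Vt}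
    (he : A.elb (.inr z) u = ⟨c, α⟩) (l : ((lens (D.m c)).Vt → ℝ) →L[ℝ] ℝ) (hl : ‖l‖ ≤ 1)
    (hlt : l (Pi.single α 1) < l (res Φ c u)) :
    u.dsc = c ∧ A.ep (.inr z) u ∈ frontier (D.P c) ∧ D.lab c (A.ep (.inr z) u) = α ∧
      Abv (D.P c) (fun y => l (A.W Φ c y)) (l (Pi.single α 1) - κ) (A.ep (.inr z) u) u.pos := by
  obtain rfl : u.dsc = c := congrArg Sigma.fst he
  have hα : D.lab u.dsc (A.ep (.inr z) u) = α := eq_of_heq (Sigma.mk.inj he).2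
  have hs := h.ep_spec hz hu
  generalize A.ep (.inr z) u = b at hα hs
  rcases hs with ⟨h1, -, h3, -, h5⟩ | hs
  · obtain ⟨K, k1, k2, k3, k4, k5⟩ := h5.trk hp h3
    exact ⟨rfl, h1, hα, A.abv l k1 k2 k3 k4 fun y hy w hw => (sub_le_sub_right hlt.le κ).trans
      (res_sub l hl (hL.close _ _ (Or.inl (k5 y hy w hw)))).2⟩
  refine ⟨rfl, hs.spec.1, hα, ?_⟩
  obtain ⟨j, σ, p, q, h1, h2, rfl, rfl, rfl, h3, h4⟩ := hs
  have hp' : (X.B j).pt p ∈ Half σ := by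
    obtain ⟨-, K, k1, -, k3, -⟩ := h3
    exact k1 k3
  have hre : ((X.B j).pt p).re = 1 / 2 := h1.resolve_right fun h' => h3.near.2.2 (by
    rw [sq_basic.2.2.2]
    exact Or.inl (Or.inl h'))
  obtain ⟨K, k1, k2, k3, k4, k5⟩ := A.edge_trk h3 hp' h2
  refine A.abv l k1 k2 k3 k4 fun y hy w hw => ?_
  rcases k5 y hy w hw with rfl | rfl
  · by_cases hn : (X.B j).pt p ∈ NF (X.fb j) (112 * r)
    · exact (sub_le_sub_right hlt.le κ).trans (res_sub l hl (hL.close _ _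
        (Or.inr (Or.inr ⟨j, σ, p, q, hp', h2, rfl, rfl, hre, hn, h3, h4⟩)))).2
    · have hg : (DSt.nd j σ p hp' : DSt Q).gate := DSt.gate_nd.2 h1
      have h5 := hL.harm (.nd j σ p hp')
      rw [if_pos hg, Finset.sum_eq_zero fun v _ => by
        rw [(h.gate _ hg).2 _ Sum.inl_ne_inr, ((hL.c_nonneg _ v).eq_or_lt.resolve_right
          fun h' => A.unmixed hp hp' hre hn v (hL.c_pos _ v h').1).symm, add_zero, zero_smul],
        zero_add, sub_eq_zero] at h5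
      have h6 : res Φ (D.d j σ) (.nd j σ p hp') = Pi.single α 1 := by
        funext β
        rw [← hα, res, ← h5]
        simp only [DSt.lab, DSt.dsc, DSt.pos, loc_single]
        congr
      exact (sub_le_self _ hκ).trans (le_of_eq (congrArg l h6.symm))
  · exact (sub_le_self _ hκ).trans hlt.le

/-- L6. Hint: exchange the sums; `coarse`, `lam_dsc`. -/
theorem Aux.close (A : Aux Q r R) (hp : Par ρ δ e η r) {F : X.Nu → EuclideanSpace ℝ (Fin n)}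
    {ε : ℝ} (h : ∀ v : DSt Q,
      ‖cmb (fun α => F (D.app v.dsc α)) (fun α => Φ v ⟨v.dsc, α⟩) - A.F (.inl v)‖ ≤ ε)
    {y : ℂ} (hy : y ∈ D.P c) :
    ‖cmb (fun α => F (D.app c α)) (A.W Φ c y) - D.fc c y‖ ≤ ε + 5 * e := by
  have e1 : cmb (fun α => F (D.app c α)) (A.W Φ c y) =
      cmb (fun w => cmb (fun α => F (D.app c α)) (res Φ c w)) (A.lam c y) := by
    simp only [Aux.W, cmb, Finset.sum_apply, Pi.smul_apply, Finset.sum_smul, Finset.smul_sum,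
      smul_assoc]
    exact Finset.sum_comm
  rw [e1, ← mem_closedBall_iff_norm]
  refine abv_mem (A.simplex c y hy) (convex_closedBall _ _) fun w hw => ?_
  have h1 := Aux.coarse hp hy hw
  obtain rfl := Aux.lam_dsc hy hw
  exact mem_closedBall_iff_norm.2
    ((norm_sub_le_norm_sub_add_norm_sub _ _ _).trans (add_le_add (h w) h1))

end Pool.Agent.MP_17e62b_gt.G

/-! Part GLOBAL. -/

set_option linter.unusedSectionVars false

namespace Pool.Agent.MP_17e62b_gt.G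

open Set H14 T55
open scoped BigOperators Manifold

variable {n : ℕ} {S : Surface n} {N : ℕ} {ρ δ : ℝ} {G : Geo S N ρ δ} {e η s : ℝ} {M : ℕ}
  {X : Nets G e η s M} {C : Type} [Fintype C] {Mx : ℕ} {D : Big X C Mx} {Q : Pts D} {r R : ℝ}
  {A : Aux Q r R} {P : St Q → St Q → ℝ} {κ J : ℝ}

/-- The bound for the potential of the passages. -/
noncomputable def bigJ (ρ d s R : ℝ) : ℝ :=
  2 + 2 * (4 / s ^ 2 + 512 / (s ^ 2 * d ^ 2) * (2 * R ^ 2 + 1)) +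
    (R ^ 2 + 6 * R * (2 * ρ)) / (d / 4) ^ 2

/-- The inequalities between the constants; `d = δ / 1000`. -/
structure Num (ρ d e η r s R κ : ℝ) : Prop where
  s0 : 0 < s
  κ0 : 0 < κ
  r1 : r ≤ 1
  h1 : 40 * R * η ≤ r ^ 2
  h2 : 1024 * R * e ≤ d ^ 2
  h3 : 10 * η * (4 * R ^ 2 / r ^ 2 + 2) ≤ ρ
  h4 : 512 * e / d ^ 2 * R ^ 2 ≤ ρ
  h5 : 8 / κ ^ 2 * (12 * R * (144 * r) / (d / 4) ^ 2 +
    2 * (5 * (512 / (s ^ 2 * d ^ 2)) * R * (36 * r))) ≤ 1 / 2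
  h6 : 16 * (144 * r) * (1 + 2 * bigJ ρ d s R) / κ ^ 2 ≤ ρ

/-- Z1. The potentials. Hint: `Chain.steps`, `Steps.abs`, `Steps.drift` (bound `2 ρ`),
`Steps.count`, `Chain.gated`, `exists_law`, `Law.acc` with `ρ = 144 r`, `d = δ / 1000 / 4`,
`Cut = {o | ∃ z, o = inr z ∧ z.Cut}`, `Kd` and `Kc` the corners of Dirichlet classes and of cut
nodes (`ev_out`, `out_cl`, `cl_inr`, `Chain.far`, `Shape.tube_D`). -/
theorem Chain.pots (h : Chain A P) (hp : Par ρ δ e η r) (hn : Num ρ (δ / 1000) e η r s R κ) :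
    Abs P (Ab Q) ∧ ∃ cm Φ, Law P DSt.gate DSt.lab A.nb κ cm Φ ∧
      (∃ k : St Q → ℝ, (∀ a, 0 ≤ k a ∧ k a ≤ 3 * ρ) ∧
        ∀ a, a ∉ Ab Q → ‖gen (mixR P cm) A.F a‖ ≤ -gen (mixR P cm) k a) ∧
      ∃ k : St Q → ℝ, (∀ a, 0 ≤ k a ∧ k a ≤ 2 * bigJ ρ (δ / 1000) s R + 1) ∧
        (∀ u, 0 ≤ -gen (mixR P cm) k (.inl u)) ∧
        ∀ o, o ∉ absZ (TSt Q) ZSt.cl (Sum.inl '' G.Dir) →
          ∑ u, P (.inr o) (.inl u) * (1 - Φ u (A.elb o u)) ≤ -gen (mixR P cm) k (.inr o) := by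
  obtain ⟨η0, ηr, rd, ηe, -, δρ⟩ := id hp
  obtain ⟨s0, κ0, r1, h1, h2, h3, h4, h5, h6⟩ := hn
  have hr : 0 < r := by linarith only [η0, ηr]
  have hd : 0 < δ / 1000 := by linarith only [η0, ηr, rd]
  have he : 0 < e := by linarith only [η0, ηe]
  have hρ : 0 < ρ := by linarith only [η0, ηr, rd, δρ]
  have hR : 0 ≤ R := by
    obtain ⟨y, -⟩ := S.boundary_nonempty
    linarith only [A.bd y, norm_nonneg (S.f y), η0, ηr, r1]
  have hs := h.steps hp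
  have hβ : 8 * R * (5 * η) ≤ r ^ 2 := by linarith only [h1]
  have hA := hs.abs hr hβ
  have hG := h.gated hA
  have c2 : 0 ≤ 512 / (s ^ 2 * (δ / 1000) ^ 2) := by positivity
  obtain ⟨k₀, a1, a2, a3⟩ := hs.drift hr (by linarith only [η0]) hβ (by positivity) (by
    rw [← mul_div_assoc, div_le_one (by positivity)]
    linarith only [h2]) (by linarith only [η0, ηr])
  obtain ⟨kT, b1, b2, b3, b4⟩ := hs.count hr (by linarith only [η0]) hβ c2 (by linarith only [η0, ηr])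
  obtain ⟨cm, Φ, hL⟩ := exists_law hG DSt.lab A.nb_symm κ0
  obtain ⟨⟨k, k1, k2⟩, hk⟩ := hL.acc hG (F := A.F) (M := R) (ρ := 144 * r)
    (ρT := 5 * (512 / (s ^ 2 * (δ / 1000) ^ 2)) * R * (36 * r)) (θ := 2 * ρ)
    (JT := 4 / s ^ 2 + 512 / (s ^ 2 * (δ / 1000) ^ 2) * (2 * R ^ 2 + 1))
    (J := bigJ ρ (δ / 1000) s R) (d := δ / 1000 / 4)
    (Cut := {o | ∃ z : ZSt Q, o = .inr z ∧ z.Cut})
    (Kd := {v | D.app v.1 v.2 ∈ Sum.inl '' G.Dir}) (Kc := {v | ∃ w, D.app v.1 v.2 = .inr w})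
    (elb := A.elb) (k₀ := k₀) (kT := kT) hs.bound (fun u hu => A.ev_out S.f A.u hu)
    (fun a => ⟨(a1 a).1, by linarith only [(a1 a).2, h3, h4]⟩) a2
    (fun a => ⟨(b1 a).1, (b1 a).2.trans (add_le_add le_rfl (mul_le_mul_of_nonneg_left
      (add_le_add le_rfl (pow_le_one₀ hr.le r1)) c2))⟩) b2
    (by
      rintro _ ⟨z, rfl, hz⟩ ho
      exact b3 _ ⟨z, rfl, hz⟩ fun ⟨o, h7, h8⟩ => ho (Sum.inr_injective h8 ▸ h7))
    (fun u v huv => ⟨by linarith only [(A.nb_near hp huv).2.1, η0, ηr],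
      by linarith only [a3 _ _ ⟨u, v, rfl, rfl, huv⟩], b4 _ _ ⟨u, v, rfl, rfl, huv⟩⟩)
    (fun u hu hv => ⟨A.out u, by rwa [mem_preimage, A.out_cl hu], rfl⟩)
    (fun u hu ⟨w, hw⟩ => ⟨A.out u, rfl, ZSt.cl_inr ((A.out_cl hu).trans hw)⟩)
    (by
      rintro (t | z) ho hc y hy hy' u hu h7 h8 h9
      · exact absurd (h.shape.tube_D t y) hy.ne'
      · exact h.far hp (fun a => ho ⟨z, a, rfl⟩) (fun a => hc ⟨z, rfl, a⟩) hy hy' hu h7
          (fun w a => h8 ⟨w, a⟩) h9)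
    (by linarith only [η0, ηr, rd]) κ0 hR (by linarith only [η0, ηr]) (by positivity) (by linarith only [η0, ηr, rd, δρ]) (by positivity) h5 rfl
  exact ⟨hA, cm, Φ, hL, ⟨k, fun a => ⟨(k1 a).1, by linarith only [(k1 a).2, h6]⟩, k2⟩, hk⟩

/-- Z2. Hint: `pots`, `Shape.net` with `θ = 3 ρ` and `2 ρ` (`F_cl`, `card_Fr`); for every disc
`Chain.loc` and `Loc14.phi` with `Eb` the range of `A.ep`, `ε = 11 (N + 1) ρ + 10 ρ`, `ε' = ρ`
(`Aux.close`, `D.near`); `Chain.em`. -/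
theorem Chain.core (h : Chain A P) (hp : Par ρ δ e η r) (hn : Num ρ (δ / 1000) e η r s R κ) :
    ∃ (a : X.Nu → X.Nu → ℝ) (w : ∀ c, (lens (D.m c)).Vt → (lens (D.m c)).Vt → ℝ)
      (F : X.Nu → EuclideanSpace ℝ (Fin n)) (Φ : ∀ c, ℂ → (lens (D.m c)).Vt → ℝ),
      DiscNet (fun c => lens (D.m c)) D.app (Sum.inl '' G.Dir) a w F Φ
        ((N + 1) * (2 * bigJ ρ (δ / 1000) s R + 1)) R (3 * κ) ∧
      (∀ u v, 0 < a u v → X.Link u v) ∧ (∀ u, ‖F u - X.fn u‖ ≤ 100 * (N + 1) * ρ) ∧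
      ∀ c, ∀ z ∈ (lens (D.m c)).P,
        ‖cmb (fun v => F (D.app c v)) (Φ c z) - S.f (D.Θ c z)‖ ≤ 100 * (N + 1) * ρ := by
  classical
  obtain ⟨hA, cm, Φ, hL, ⟨k, hk, hdr⟩, k₃, hk₃, h1, h2⟩ := h.pots hp hn
  have he : 0 < e := hp.η0.trans_le hp.ηe
  have heρ : 100000 * e ≤ ρ := by linarith [hp.ed, hp.δρ]
  have hρ : 0 < ρ := by linarith
  have hM : ∀ x, ‖X.fn x‖ ≤ R := by
    rintro (x | x) <;> exact (le_add_of_nonneg_right zero_le_one).trans (A.bd _)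
  obtain ⟨a, w, F, hF, hlink, hx, hs, hem⟩ := h.shape.net (h.gated hA) hL (F₁ := A.F) (fn := X.fn)
    (ρ := 2 * ρ) (by linarith) hM (A.F_cl hp) hk hdr hk₃ h1 h2
  have hN : (X.Fr.card : ℝ) + 1 ≤ N + 1 := by
    have := X.card_Fr
    exact_mod_cast Nat.succ_le_succ this
  have hN0 : (0 : ℝ) ≤ N := N.cast_nonneg
  have hb : ((X.Fr.card : ℝ) + 1) * (3 * ρ + 4 * (2 * ρ)) ≤ 11 * (N + 1) * ρ := by nlinarith only [he, heρ, hN]
  have hNρ : 0 ≤ (N : ℝ) * ρ := mul_nonneg hN0 hρ.le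
  have hphi := fun c => (h.loc hp hn.κ0.le hA hL c).phi hn.κ0
    (Eb := range fun p : (TSt Q ⊕ ZSt Q) × DSt Q => A.ep p.1 p.2) (finite_range _) (g := D.fc c)
    (S.continuous.comp (D.cont c)) (φ := fun v => F (D.app c v))
    (ε := 11 * (N + 1) * ρ + 10 * ρ) (ε' := ρ) hρ
    (fun y hy => (A.close hp (fun v => (hs v).trans hb) hy).trans (by linarith))
    (fun v v' hv b hb' => by
      obtain ⟨g1, g2⟩ := D.near c v v' hv b hb'
      rw [norm_sub_rev] at g1 g2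
      exact ⟨(norm_sub_le_norm_sub_add_norm_sub _ _ _).trans (add_le_add ((hx _).trans hb) g1),
        (norm_sub_le_norm_sub_add_norm_sub _ _ _).trans (add_le_add ((hx _).trans hb) g2)⟩)
  choose Z Zc Zs Zv Zh Zb Ze Zg using hphi
  refine ⟨a, w, F, Z, ⟨hF.a_nonneg, hF.w_nonneg, hF.w_self, hF.a_stop, hF.w_stop, hF.abs, hF.harm,
    hF.bound, ?_, Zc, Zs, fun c α => by convert Zv c α, Zh, Zb, fun c α l hl hg => ?_⟩,
    fun u v huv => ?_, fun u => (hx u).trans (hb.trans (by linarith only [he, heρ, hNρ])),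
    fun c z hz => (Zg c z hz).trans (by linarith only [he, heρ, hNρ])⟩
  · obtain ⟨k', g0, g1, g2⟩ := hF.pot
    refine ⟨k', g0, fun x => (g1 x).trans (mul_le_mul_of_nonneg_right hN ?_), g2⟩
    have h3 : (0 : ℝ) < X.Fr.card + 1 := by positivity
    exact nonneg_of_mul_nonneg_right ((g0 x).trans (g1 x)) h3
  · obtain ⟨z, u, g1, g2, g3, g4⟩ := hem c α l (by convert hg)
    obtain ⟨e1, e2, e3, e4⟩ := h.em hp hn.κ0.le hL g1 g2 g3 l hl (by convert g4; rfl)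
    subst e3
    obtain ⟨β, b1, b2⟩ := Ze c _ ⟨(.inr z, u), rfl⟩ e2 u e1 l hl (by convert g4; rfl) (by convert e4)
    exact ⟨β, b1, by convert b2⟩
  · obtain ⟨t, ⟨x, rfl, g1⟩, y, rfl, g2⟩ := hlink u v huv
    exact ⟨x, y, t.i, rfl, rfl, g1, g2⟩

theorem exists_num_pos : ∀ᶠ x in nhdsWithin (0 : ℝ) (Ioi 0), 0 < x := self_mem_nhdsWithin

theorem exists_num_ev (K : ℝ) {c : ℝ} (hc : 0 < c) :
    ∀ᶠ x in nhdsWithin (0 : ℝ) (Ioi 0), K * x ≤ c := by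
  have h : Filter.Tendsto (fun x : ℝ => K * x) (nhds 0) (nhds 0) :=
    (continuous_const.mul continuous_id).tendsto' _ _ (mul_zero K)
  exact (h.eventually (eventually_le_nhds hc)).filter_mono nhdsWithin_le_nhds

/-- Z3. The choice of the constants. -/
theorem exists_num {ρ δ R : ℝ} (hδ : 0 < δ) (hρ : δ ≤ ρ) (hR : 1 ≤ R) :
    ∃ e > 0, e ≤ δ / 10 ∧ e ≤ 1 ∧ ∀ s > 0, ∀ κ > 0, ∃ η > 0, ∃ r,
      Par ρ δ e η r ∧ Num ρ (δ / 1000) e η r s R κ := by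
  have hd : 0 < δ / 1000 := by linarith
  have hρ0 : 0 < ρ := by linarith only [hδ, hρ]
  obtain ⟨e, e0, e1, e2, e3, e4⟩ := ((exists_num_pos.and (exists_num_ev 1 one_pos)).and
    ((exists_num_ev 100 hd).and ((exists_num_ev (1024 * R) (pow_pos hd 2)).and
      (exists_num_ev (512 / (δ / 1000) ^ 2 * R ^ 2) hρ0)))).exists.imp fun _ a => and_assoc.1 a
  refine ⟨e, e0, by linarith only [e0, e2], by linarith only [e1], fun s hs κ hκ => ?_⟩
  obtain ⟨r, r0, r1, r2, r3, r4⟩ := ((exists_num_pos.and (exists_num_ev 1 one_pos)).and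
    ((exists_num_ev 1000 hd).and ((exists_num_ev (8 / κ ^ 2 * (12 * R * 144 / (δ / 1000 / 4) ^ 2 +
      2 * (5 * (512 / (s ^ 2 * (δ / 1000) ^ 2)) * R * 36))) one_half_pos).and
      (exists_num_ev (16 * 144 * (1 + 2 * bigJ ρ (δ / 1000) s R) / κ ^ 2) hρ0)))).exists.imp
        fun _ a => and_assoc.1 a
  obtain ⟨η, η0, η1, η2, η3, η4⟩ := ((exists_num_pos.and (exists_num_ev 1 e0)).and
    ((exists_num_ev 100 r0).and ((exists_num_ev (40 * R) (pow_pos r0 2)).and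
      (exists_num_ev (10 * (4 * R ^ 2 / r ^ 2 + 2)) hρ0)))).exists.imp fun _ a => and_assoc.1 a
  refine ⟨η, η0, r, ⟨η0, η2, r2, by linarith only [η1], e2, hρ⟩, hs, hκ, by linarith only [r1], η3, e3,
    η4.trans_eq' ?_, e4.trans_eq' ?_, r3.trans_eq' ?_, r4.trans_eq' ?_⟩ <;> ring

/-- Z4. Hint: `R` a bound of `‖f‖ + 1`, `κ = ϑ / 3`; `exists_pts`, `exists_aux`, `exists_chain`,
`Chain.core`. -/
theorem globStmt : GlobStmt := by
  intro n S hS N ρ δ hδ hρ G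
  have := S.compact
  obtain ⟨R₀, hR₀⟩ := (isCompact_range S.continuous).isBounded.exists_norm_le
  obtain ⟨R, hR1, hR⟩ : ∃ R : ℝ, 1 ≤ R ∧ ∀ y, ‖S.f y‖ + 1 ≤ R :=
    ⟨|R₀| + 1, le_add_of_nonneg_left (abs_nonneg _), fun y => by
      linarith [hR₀ _ (mem_range_self y), le_abs_self R₀]⟩
  obtain ⟨e, he, heδ, he1, hs⟩ := exists_num hδ hρ hR1
  refine ⟨e, he, heδ, fun s hs0 => ⟨(N + 1) * (2 * bigJ ρ (δ / 1000) s R + 1), R, fun ϑ hϑ => ?_⟩⟩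
  obtain ⟨η, hη, r, hp, hn⟩ := hs s hs0 (ϑ / 3) (by positivity)
  refine ⟨η, hη, fun M X C _ Mx D => ?_⟩
  obtain ⟨Q⟩ := exists_pts D hη
  obtain ⟨A⟩ := exists_aux Q hp hs0 he1 hR hn.h2
  obtain ⟨P, hP⟩ := A.exists_chain hS hp
  have h := hP.core hp hn
  rwa [show 3 * (ϑ / 3) = ϑ by ring] at h

end Pool.Agent.MP_17e62b_gt.G

/-! The four parts give the theorem. -/

namespace Pool.Agent.MP_17e62b_gt.G

open Set H14 T55
open scoped Manifold ENNReal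

theorem BandNet.exists_mono {E : Type} [NormedAddCommGroup E] [NormedSpace ℝ E] {f : ℂ → E}
    {d ρ e η s s' : ℝ} {M M' : ℕ} (B : BandNet f d ρ e η s M) (hs : s' ≤ s) (hM : M ≤ M') :
    Nonempty (BandNet f d ρ e η s' M') :=
  ⟨{ B with
      cut_card := B.cut_card.trans hM
      cut_sep := fun x h1 h2 p hp => hs.trans (B.cut_sep x h1 h2 p hp) }⟩

theorem DiscNet.mono {E ν ι : Type} [NormedAddCommGroup E] [NormedSpace ℝ E] [Fintype ν]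
    [Fintype ι] {Λ : ι → Lens} {app : ∀ c, (Λ c).Vt → ν} {B : Set ν} {a : ν → ν → ℝ}
    {w : ∀ c, (Λ c).Vt → (Λ c).Vt → ℝ} {F : ν → E} {Φ : ∀ c, ℂ → (Λ c).Vt → ℝ} {J R δ δ' : ℝ}
    (h : DiscNet Λ app B a w F Φ J R δ) (hδ : δ ≤ δ') : DiscNet Λ app B a w F Φ J R δ' :=
  { h with
    hp := fun c => (h.hp c).mono hδ
    bdy := fun c => by
      obtain ⟨β, h1, h2, h3, h4⟩ := h.bdy c
      exact ⟨β, h1, h2, h3, fun y hy => (h4 y hy).trans hδ⟩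
    em := fun c α l hl hg => by
      obtain ⟨β, h1, h2⟩ := h.em c α l hl hg
      exact ⟨β, h1, h2.mono fun y hy => ⟨hy.1, by linarith [hy.2]⟩⟩ }

/-- Finitely many positive numbers have a positive lower bound. -/
theorem main_of_lb {ι : Type} [Finite ι] (u : ι → ℝ) (hu : ∀ i, 0 < u i) :
    ∃ s > 0, ∀ i, s ≤ u i := by
  rcases isEmpty_or_nonempty ι with h | h
  · exact ⟨1, one_pos, fun i => isEmptyElim i⟩
  · obtain ⟨i, hi⟩ := Finite.exists_min u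
    exact ⟨u i, hu i, hi⟩

/-- Hint: `N` from `hT`; a real `ε₀ > 0` with `ofReal ε₀ < ε`; `ρ` with
`100 * (100 * (N + 1) * ρ + ρ) ≤ ε₀`; `δ, G, C` from `hT`; `e` from `hG`; `M j`, `s j` from `hB` for
every band (`mp_emb`, `G.long`, `G.wide`), `M` an upper bound and `s > 0` a lower bound of them;
`Mx` from `hT`; `J, R` from `hG`; `ϑ > 0` a lower bound of the numbers given by `hD` for the
finitely many families `fun c => lens (m c)`, `m : C → Fin (Mx + 1)`, with `K = Mx` and the error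
`100 * (N + 1) * ρ`; `η` from `hG`; `X` from `hB` (`exists_mono`); `D` from `hT`. -/
theorem main_of (hT : TopStmt) (hB : BandStmt) (hG : GlobStmt) (hD : DiscStmt) {n : ℕ}
    (S : Surface n) (hS : S.IsSaddle) {ε : ℝ≥0∞} (hε : 0 < ε) :
    ∃ T : Surface n, T.IsSaddle ∧ T.IsPolyhedron ∧ frechetDist S T < ε := by
  obtain ⟨N, hN⟩ := hT n S hS
  obtain ⟨ε₀, h0, hε₀⟩ : ∃ ε₀ : ℝ, 0 < ε₀ ∧ ENNReal.ofReal ε₀ < ε := by
    obtain ⟨r, -, hr1, hr2⟩ := ENNReal.lt_iff_exists_real_btwn.1 hε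
    exact ⟨r, ENNReal.ofReal_pos.1 hr1, hr2⟩
  obtain ⟨ρ, hρ, hρε⟩ : ∃ ρ : ℝ, 0 < ρ ∧ 100 * (100 * (N + 1) * ρ + ρ) ≤ ε₀ := by
    refine ⟨ε₀ / (100 * (100 * (N + 1) + 1)), by positivity, le_of_eq ?_⟩
    field_simp
  obtain ⟨δ, hδ, hδρ, G, C, fC, hM⟩ := hN ρ hρ
  obtain ⟨e, he, heδ, hs⟩ := hG n S hS N ρ δ hδ hδρ G
  have hb := fun j : G.β => hB (EuclideanSpace ℝ (Fin n)) (fun z => S.f (G.Ψ j z))
    (S.continuous.comp (G.cont j))
    (fun l => mp_emb hS isOpen_interior (G.cont j) ((G.inj j).mono interior_subset) l) δ hδ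
    (G.long j) (G.wide j) e he
  choose Mj sj hsj hk using hb
  obtain ⟨M, hMj⟩ : ∃ M, ∀ j, Mj j ≤ M := by
    obtain ⟨M, hM⟩ := (finite_range Mj).bddAbove
    exact ⟨M, fun j => hM (mem_range_self j)⟩
  obtain ⟨s, hs0, hss⟩ := main_of_lb sj hsj
  obtain ⟨Mx, hMx⟩ := hM M
  obtain ⟨J, R, hϑ⟩ := hs s hs0
  have hd := fun m : C → Fin (Mx + 1) => hD (EuclideanSpace ℝ (Fin n)) C
    (fun c => lens (m c)) Mx J R (100 * (N + 1) * ρ) (by positivity)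
  choose θ hθ hθ' using hd
  obtain ⟨ϑ, hϑ0, hϑ'⟩ := main_of_lb θ hθ
  obtain ⟨η, hη, hX⟩ := hϑ ϑ hϑ0
  choose k hk1 hk2 hk3 hk4 using fun j => hk j η hη
  let X : Nets G e η s M :=
    ⟨k, hk1, hk2, hk3, fun j => ((hk4 j).some.exists_mono (hss j) (hMj j)).some⟩
  obtain ⟨D, hDD⟩ := hMx e η s X heδ
  obtain ⟨a, w, F, Φ, hnet, hlink, hF, hΦ⟩ := hX M X C Mx D
  obtain ⟨F', K, g, hout⟩ := hθ' (fun c => ⟨D.m c, Nat.lt_succ_of_le (D.card.2 c)⟩) X.Nu D.card.1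
    D.app _ a w F Φ (hnet.mono (hϑ' _))
  obtain ⟨T, h1, h2, h3⟩ := hDD _ a F F' Φ K g hout hlink hF hΦ
  exact ⟨T, h1, h2, h3.trans_lt ((ENNReal.ofReal_le_ofReal hρε).trans_lt hε₀)⟩

end Pool.Agent.MP_17e62b_gt.G
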