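import Pool.Agent.MP_17e62b_gt.Mg.H14_M3
import Pool.Agent.MP_17e62b_gt.Mg.G_H72Iface

attribute [-instance] AddQuantale.instAddLeftMono RKHS.instFunLike LieAdmissibleAlgebra.toModule
  RightPreLieAlgebra.toModule LeftPreLieAlgebra.toModule NonUnitalNonAssocSemiring.toAddCommMonoid
  instCoeTCOfCoe decidableEq_of_subsingleton AddQuantale.instAddRightMono LinearOrder.toDecidableEq
  NonUnitalAlgSemiHomClass.toDistribMulActionSemiHomClass IdemSemiring.toCanonicallyOrderedAdd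
  NonUnitalRing.toNonUnitalNonAssocRing Quantale.instMulRightMono littleWedderburn
  CommRing.toCommSemiring LinearOrderedCommMonoidWithZero.toPosMulStrictMono FunLike.toDecidableEq
  NumberField.to_charZero MonoidWithZeroHomClass.toZeroHomClass CommRing.toRing NormedRing.toRing
  DivisionRing.toRing SemilinearIsometryClass.toSemilinearMapClass
  MulSemiringAction.toDistribMulAction CoalgHomClass.toSemilinearMapClass
  NonUnitalNormedRing.toNonUnitalSeminormedRing Nontrivial.to_nonempty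
  FirstOrder.Language.instDecidableEqRelations NormedRing.toSeminormedRing instSMulZeroClass
  Zero.instNonempty NonAssocSemiring.toAddCommMonoidWithOne
  FirstOrder.Language.instDecidableEqFunctions LieAdmissibleRing.toNonUnitalNonAssocRing bot_nonempty

/-! Discs glued at nodes: the glued chain, emitting corners, planar networks. -/

set_option linter.unusedSectionVars false

namespace Pool.Agent.MP_17e62b_gt.G

section H16Defs

open Set H14 T55
open scoped BigOperators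

section Glue

variable {C Nn : Type} [Fintype C] [Fintype Nn] {U : C → Type} [∀ c, Fintype (U c)]

/-- The functions on the discs agree with the function on the nodes at the corners. -/
def Cmp {X : Type} (B : ∀ c, Set (U c)) (nd : ∀ c, U c → Nn) (uN : Nn → X) (u : ∀ c, U c → X) :
    Prop := ∀ c, ∀ b ∈ B c, u c b = uN (nd c b)

open Classical in
/-- The sum over the corners at the node `a`. -/
noncomputable def nsum {X : Type} [AddCommMonoid X] (B : ∀ c, Set (U c)) (nd : ∀ c, U c → Nn)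
    (f : ∀ c, U c → X) (a : Nn) : X := ∑ c, ∑ b, if b ∈ B c ∧ nd c b = a then f c b else 0

/-- The generator of the glued chain at the node `a`. -/
noncomputable def ngen {X : Type} [AddCommGroup X] [Module ℝ X] (D : Nn → Nn → ℝ)
    (R : ∀ c, U c → U c → ℝ) (B : ∀ c, Set (U c)) (nd : ∀ c, U c → Nn) (uN : Nn → X)
    (u : ∀ c, U c → X) (a : Nn) : X :=
  gen D uN a + nsum B nd (fun c b => gen (R c) (u c) b) a

/-- Every non-empty closed set of states of the glued chain meets `B0`. -/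
def GAbs (D : Nn → Nn → ℝ) (R : ∀ c, U c → U c → ℝ) (B : ∀ c, Set (U c)) (nd : ∀ c, U c → Nn)
    (B0 : Set Nn) : Prop :=
  ∀ (SN : Set Nn) (S : ∀ c, Set (U c)), (∀ c, ∀ b ∈ B c, b ∈ S c ↔ nd c b ∈ SN) →
    (∀ a ∈ SN, ∀ b, 0 < D a b → b ∈ SN) → (∀ c, ∀ x ∈ S c, ∀ y, 0 < R c x y → y ∈ S c) →
    (SN.Nonempty ∨ ∃ c, (S c).Nonempty) → ∃ a ∈ SN, a ∈ B0

/-- The pairing of the weights `(wN, w)` with the generator of `(uN, u)`. -/
noncomputable def gsum (D : Nn → Nn → ℝ) (R : ∀ c, U c → U c → ℝ) (wN : Nn → ℝ)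
    (w : ∀ c, U c → ℝ) (uN : Nn → ℝ) (u : ∀ c, U c → ℝ) : ℝ :=
  ∑ a, wN a * gen D uN a + ∑ c, ∑ x, w c x * gen (R c) (u c) x

open Classical in
/-- The sum over the states that are not absorbing. -/
noncomputable def msum (B : ∀ c, Set (U c)) (B0 : Set Nn) (fN : Nn → ℝ) (f : ∀ c, U c → ℝ) : ℝ :=
  (∑ a, if a ∈ B0 then 0 else fN a) + ∑ c, ∑ x, if x ∈ B c then 0 else f c x

end Glue

/-- A flow with harmonic positions in general position; the corners may emit. -/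
structure Flow0 {V : Type} [Fintype V] (Λ : Lens) (q : V → V → ℝ) (T : V → ℂ) : Prop where
  nonneg : ∀ a b, 0 ≤ q a b
  abs : Abs q {a | T a ∈ Λ.Vt}
  int : ∀ a, T a ∉ Λ.Vt → T a ∈ interior Λ.P
  all : ∀ v ∈ Λ.Vt, ∃ b, T b = v
  novv : ∀ a b, T a ∈ Λ.Vt → T b ∈ Λ.Vt → q a b = 0
  harmT : ∀ a, T a ∉ Λ.Vt → gen q T a = 0
  vert : ∀ a b, 0 < q a b → (T a).re ≠ (T b).re

open Classical in
/-- The chain on one disc. The state `a` sits at the point `x a` of the disc and is drawn at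
`T a`. -/
structure DChain {V : Type} [Fintype V] (Λ : Lens) (Φ : ℂ → Λ.Vt → ℝ) (w : Λ.Vt → Λ.Vt → ℝ)
    (κ ϑ : ℝ) (R : V → V → ℝ) (T x : V → ℂ) : Prop where
  nonneg : ∀ a b, 0 ≤ R a b
  int : ∀ a, T a ∉ Λ.Vt → T a ∈ interior Λ.P
  all : ∀ v ∈ Λ.Vt, ∃ b, T b = v
  inj : Function.Injective T
  novv : ∀ a b, T a ∈ Λ.Vt → T b ∈ Λ.Vt → R a b = 0
  harmT : ∀ a, T a ∉ Λ.Vt → gen R T a = 0
  vert : ∀ a b, 0 < R a b → (T a).re ≠ (T b).re
  gen3 : ∀ a b d, 0 < R a b → d ≠ a → d ≠ b → det2 (T b - T a) (T d - T a) ≠ 0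
  corner : ∀ a, T a ∉ Λ.Vt → ∀ b, T b = 1 ∨ T b = -1 → 0 < R a b
  xmem : ∀ a, x a ∈ Λ.P
  xvt : ∀ a, T a ∈ Λ.Vt → x a = T a
  move : ∀ a, ‖T a - cmb (fun v : Λ.Vt => (v : ℂ)) (Φ (x a))‖ ≤ 3 * ϑ
  drift : ∀ a, T a ∉ Λ.Vt → ‖gen R (fun b => Φ (x b)) a‖ ≤ 5 * ϑ
  lyap : ∀ a, T a ∉ Λ.Vt →
    1 ≤ -gen R (fun b => 16 * (4 - ‖T b‖ ^ 2) / κ ^ 2 + if T b ∈ Λ.Vt then 0 else 1) a
  steps : ∀ a, T a ∉ Λ.Vt → ∀ (h : V → ℝ) (c₁ c₂ : ℝ), 0 ≤ c₁ → 0 ≤ c₂ → (∀ b, h b ≤ c₂) →
    (∀ b, ‖T b - T a‖ ≤ 3 * κ → h b ≤ c₁) → ∑ b, R a b * h b ≤ c₁ + 3 * ϑ * c₂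
  em_drift : ∀ a (α : Λ.Vt), T a = α →
    ‖gen R (fun b => Φ (x b)) a - gen w (fun v => (Pi.single v 1 : Λ.Vt → ℝ)) α‖ ≤ ϑ * ∑ v, w α v
  em_short : ∀ a b, T a ∈ Λ.Vt → 0 < R a b → ‖T b - T a‖ ≤ 3 * κ
  em_len : ∀ a (α : Λ.Vt), T a = α → ∑ b, R a b * ‖T b - T a‖ ≤ 5 * ∑ v, w α v
  em_rate : ∀ a (α : Λ.Vt), T a = α → κ * ∑ b, R a b ≤ 8 * ∑ v, w α v
  net : ∀ y ∈ Λ.P, ∃ a, T a ∉ Λ.Vt ∧ ‖Φ (x a) - Φ y‖ ≤ ϑ ∧
    ‖T a - cmb (fun v : Λ.Vt => (v : ℂ)) (Φ y)‖ ≤ 4 * ϑ

section Iface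

variable {C Nn E : Type} [Fintype C] [Fintype Nn] [NormedAddCommGroup E] [NormedSpace ℝ E]

open Classical in
/-- The node of a corner, as a function on the plane. -/
noncomputable def appx {Λ : C → Lens} (app : ∀ c, (Λ c).Vt → Nn) (c : C) (z : ℂ) : Nn :=
  if h : z ∈ (Λ c).Vt then app c ⟨z, h⟩ else app c ⟨1, (Λ c).one_mem⟩

omit [Fintype C] [Fintype Nn] in
theorem appx_vt {Λ : C → Lens} (app : ∀ c, (Λ c).Vt → Nn) (c : C) (v : (Λ c).Vt) :
    appx app c v = app c v := dif_pos v.2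

/-- The corners among the states. -/
def cor (Λ : C → Lens) {V : C → Type} (T : ∀ c, V c → ℂ) (c : C) : Set (V c) :=
  {a | T c a ∈ (Λ c).Vt}

/-- The finite chain in general position on all discs; corners emit. -/
structure GChain {V : C → Type} [∀ c, Fintype (V c)] (Λ : C → Lens) (app : C → ℂ → Nn)
    (B0 : Set Nn) (D : Nn → Nn → ℝ) (φ : Nn → E) (L β η S : ℝ) (R : ∀ c, V c → V c → ℝ)
    (T : ∀ c, V c → ℂ) (F : ∀ c, V c → E) : Prop where
  dnn : ∀ a b, 0 ≤ D a b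
  nonneg : ∀ c a b, 0 ≤ R c a b
  int : ∀ c a, T c a ∉ (Λ c).Vt → T c a ∈ interior (Λ c).P
  bd : ∀ c b, T c b ∈ (Λ c).Vt → F c b = φ (app c (T c b))
  all : ∀ c, ∀ v ∈ (Λ c).Vt, ∃ b, T c b = v
  inj : ∀ c, Function.Injective (T c)
  novv : ∀ c a b, T c a ∈ (Λ c).Vt → T c b ∈ (Λ c).Vt → R c a b = 0
  harmT : ∀ c a, T c a ∉ (Λ c).Vt → gen (R c) (T c) a = 0
  lip : ∀ c a b, ‖F c a - F c b‖ ≤ L * ‖T c a - T c b‖ + η
  vert : ∀ c a b, 0 < R c a b → (T c a).re ≠ (T c b).re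
  gen3 : ∀ c a b d, 0 < R c a b → d ≠ a → d ≠ b → det2 (T c b - T c a) (T c d - T c a) ≠ 0
  corner : ∀ c a, T c a ∉ (Λ c).Vt → ∀ b, T c b = 1 ∨ T c b = -1 → 0 < R c a b
  pot : ∃ (kN : Nn → ℝ) (k : ∀ c, V c → ℝ), Cmp (cor Λ T) (fun c a => app c (T c a)) kN k ∧
    (∀ a, 0 ≤ kN a ∧ kN a ≤ β) ∧ (∀ c a, 0 ≤ k c a ∧ k c a ≤ β) ∧
    (∀ c a, T c a ∉ (Λ c).Vt → 0 < -gen (R c) (k c) a ∧ ‖gen (R c) (F c) a‖ ≤ -gen (R c) (k c) a ∧
      ∑ b, R c a b * (‖T c b - T c a‖ * (L * ‖T c b - T c a‖ + η) ^ 2) ≤ -gen (R c) (k c) a) ∧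
    ∀ a, a ∉ B0 → 0 < -ngen D R (cor Λ T) (fun c a => app c (T c a)) kN k a ∧
      ‖ngen D R (cor Λ T) (fun c a => app c (T c a)) φ F a‖ ≤
        -ngen D R (cor Λ T) (fun c a => app c (T c a)) kN k a ∧
      nsum (cor Λ T) (fun c a => app c (T c a))
          (fun c a => ∑ b, R c a b * (‖T c b - T c a‖ * (L * ‖T c b - T c a‖ + η) ^ 2)) a ≤
        -ngen D R (cor Λ T) (fun c a => app c (T c a)) kN k a
  emit : ∃ (kN : Nn → ℝ) (k : ∀ c, V c → ℝ), Cmp (cor Λ T) (fun c a => app c (T c a)) kN k ∧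
    (∀ a, 0 ≤ kN a ∧ kN a ≤ S) ∧ (∀ c a, 0 ≤ k c a ∧ k c a ≤ S) ∧
    (∀ c a, T c a ∉ (Λ c).Vt → 0 ≤ -gen (R c) (k c) a) ∧
    ∀ a, a ∉ B0 → nsum (cor Λ T) (fun c a => app c (T c a))
        (fun c a => ∑ b, R c a b * ‖T c b - T c a‖) a ≤
      -ngen D R (cor Λ T) (fun c a => app c (T c a)) kN k a

/-- Planar networks on the polygons with a function that is harmonic for the glued network. -/
structure GNet16 (Λ : C → Lens) (app : C → ℂ → Nn) (B0 : Set Nn) (D : Nn → Nn → ℝ)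
    (Nd : C → Finset ℂ) (r : ∀ c, Nd c → Nd c → ℝ) (g : ∀ c, Nd c → E) (gN : Nn → E) : Prop where
  pnet : ∀ c, PNet (Λ c) (Nd c) (r c)
  all : ∀ c, ∀ v ∈ (Λ c).Vt, v ∈ Nd c
  inner : ∀ c, ∀ z ∈ Eg (r c) ∪ Nd c, z ∈ frontier (Λ c).P → z ∈ (Λ c).Vt
  bd : ∀ c (p : Nd c), (p : ℂ) ∈ (Λ c).Vt → g c p = gN (app c p)
  harm : ∀ c (p : Nd c), (p : ℂ) ∉ (Λ c).Vt → gen (r c) (g c) p = 0
  plat : ∀ (l : E →L[ℝ] ℝ) (m : ℝ) (XN : Set Nn) (X : ∀ c, Set (Nd c)),
    (∀ c (p : Nd c), (p : ℂ) ∈ (Λ c).Vt → (p ∈ X c ↔ app c p ∈ XN)) → (∀ a ∈ XN, l (gN a) = m) →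
    (∀ c, ∀ p ∈ X c, l (g c p) = m) →
    (∀ a ∈ XN, ∀ b, 0 < D a b → l (gN b) ≤ m ∧ (l (gN b) = m → b ∈ XN)) →
    (∀ c, ∀ p ∈ X c, ∀ q, 0 < r c p q → l (g c q) ≤ m ∧ (l (g c q) = m → q ∈ X c)) →
    (XN.Nonempty ∨ ∃ c, (X c).Nonempty) → ∃ a ∈ XN, a ∈ B0

end Iface

end H16Defs

section H16Glue

open Set H14 T55 Filter Topology Metric
open scoped BigOperators InnerProductSpace

variable {C Nn : Type} [Fintype C] [Fintype Nn] {U : C → Type} [∀ c, Fintype (U c)]
  {D : Nn → Nn → ℝ} {R : ∀ c, U c → U c → ℝ} {B : ∀ c, Set (U c)} {nd : ∀ c, U c → Nn}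
  {B0 : Set Nn}

/-- The states of the glued chain, together with dead copies of the corners. -/
abbrev Gl (Nn : Type) (U : C → Type) : Type := Nn ⊕ (Σ c, U c)

open Classical in
/-- The state of the glued chain that a state of a disc represents. -/
noncomputable def emb (B : ∀ c, Set (U c)) (nd : ∀ c, U c → Nn) (c : C) (x : U c) : Gl Nn U :=
  if x ∈ B c then .inl (nd c x) else .inr ⟨c, x⟩

/-- The rates of the glued chain. -/
noncomputable def grate (D : Nn → Nn → ℝ) (R : ∀ c, U c → U c → ℝ) (B : ∀ c, Set (U c))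
    (nd : ∀ c, U c → Nn) (p q : Gl Nn U) : ℝ :=
  mrg Sum.inl D p q + ∑ c, mrg (emb B nd c) (R c) p q

/-- The absorbing states. -/
def gabs (B : ∀ c, Set (U c)) (B0 : Set Nn) : Set (Gl Nn U) :=
  {p | Sum.elim (fun a => a ∈ B0) (fun y => y.2 ∈ B y.1) p}

/-- A function on the glued states from a compatible pair. -/
def glue {X : Type} (uN : Nn → X) (u : ∀ c, U c → X) : Gl Nn U → X := Sum.elim uN fun y => u y.1 y.2

theorem emb_in {c : C} {x : U c} (h : x ∈ B c) : emb B nd c x = .inl (nd c x) := if_pos h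

theorem emb_out {c : C} {x : U c} (h : x ∉ B c) : emb B nd c x = .inr ⟨c, x⟩ := if_neg h

theorem glue_emb16 {X : Type} {uN : Nn → X} {u : ∀ c, U c → X} (h : Cmp B nd uN u) (c : C)
    (x : U c) : glue uN u (emb B nd c x) = u c x := by
  by_cases hx : x ∈ B c
  · rw [emb_in hx]
    exact (h c x hx).symm
  · rw [emb_out hx]
    rfl

theorem cmp_emb {X : Type} (g : Gl Nn U → X) :
    Cmp B nd (fun a => g (.inl a)) fun c x => g (emb B nd c x) := fun _ _ hb => by
  simp only [emb_in hb]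

theorem grate_nonneg (hD : ∀ a b, 0 ≤ D a b) (hR : ∀ c x y, 0 ≤ R c x y) (p q : Gl Nn U) :
    0 ≤ grate D R B nd p q :=
  add_nonneg (mrg_nonneg _ hD p q) (Finset.sum_nonneg fun c _ => mrg_nonneg _ (hR c) p q)

open Classical in
theorem gen_grate {E : Type} [AddCommGroup E] [Module ℝ E] (g : Gl Nn U → E) (p : Gl Nn U) :
    gen (grate D R B nd) g p =
      (∑ a, if Sum.inl a = p then gen D (fun a => g (.inl a)) a else 0) +
        ∑ c, ∑ x, if emb B nd c x = p then gen (R c) (fun y => g (emb B nd c y)) x else 0 := by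
  have h1 : gen (grate D R B nd) g p = gen (mrg Sum.inl D) g p +
      ∑ c, gen (mrg (emb B nd c) (R c)) g p := by
    simp only [gen, grate, add_smul, Finset.sum_add_distrib, Finset.sum_smul]
    rw [Finset.sum_comm]
  rw [h1, gen_mrg]
  simp only [gen_mrg]
  congr!

theorem gen_grate_inl {E : Type} [AddCommGroup E] [Module ℝ E] (g : Gl Nn U → E) (a : Nn) :
    gen (grate D R B nd) g (.inl a) =
      ngen D R B nd (fun a => g (.inl a)) (fun c x => g (emb B nd c x)) a := by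
  classical
  rw [gen_grate, ngen, nsum]
  congr 1
  · simp only [Sum.inl.injEq, Finset.sum_ite_eq', Finset.mem_univ, ↓ reduceIte]
  · refine Finset.sum_congr rfl fun c _ => Finset.sum_congr rfl fun x _ => ?_
    by_cases hx : x ∈ B c
    · simp [emb_in hx, hx]
    · simp [emb_out hx, hx]

theorem gen_grate_inr {E : Type} [AddCommGroup E] [Module ℝ E] (g : Gl Nn U → E) {c : C}
    {x : U c} (hx : x ∉ B c) : gen (grate D R B nd) g (.inr ⟨c, x⟩) =
      gen (R c) (fun y => g (emb B nd c y)) x := by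
  classical
  have h1 : ∀ c' y, emb B nd c' y = .inr ⟨c, x⟩ → (⟨c', y⟩ : Σ c, U c) = ⟨c, x⟩ := fun c' y h => by
    by_cases hy : y ∈ B c'
    · rw [emb_in hy] at h
      cases h
    · rw [emb_out hy] at h
      exact Sum.inr_injective h
  rw [gen_grate, Finset.sum_eq_zero fun a _ => if_neg Sum.inl_ne_inr, zero_add,
    Finset.sum_eq_single c (fun c' _ h => Finset.sum_eq_zero fun y _ => if_neg fun e =>
      h (congrArg Sigma.fst (h1 c' y e))) (by simp only [Finset.mem_univ, not_true_eq_false, IsEmpty.forall_iff]),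
    Finset.sum_eq_single x (fun y _ h => if_neg fun e => h (by simpa using h1 c y e)) (by simp only [Finset.mem_univ, not_true_eq_false, ite_eq_right_iff, IsEmpty.forall_iff]),
    if_pos (emb_out hx)]

theorem sum_grate (ψ g : Gl Nn U → ℝ) : ∑ p, ψ p * gen (grate D R B nd) g p =
    gsum D R (fun a => ψ (.inl a)) (fun c x => ψ (emb B nd c x)) (fun a => g (.inl a))
      fun c x => g (emb B nd c x) := by
  classical
  simp only [gen_grate, mul_add, Finset.sum_add_distrib, Finset.mul_sum, gsum]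
  congr 1
  · rw [Finset.sum_comm]
    simp only [mul_ite, mul_zero, Finset.sum_ite_eq, Finset.mem_univ, ↓ reduceIte]
  · rw [Finset.sum_comm]
    refine Finset.sum_congr rfl fun c _ => ?_
    rw [Finset.sum_comm]
    simp only [mul_ite, mul_zero, Finset.sum_ite_eq, Finset.mem_univ, ↓ reduceIte]

open Classical in
theorem sum_gabs (f : Gl Nn U → ℝ) : (∑ p, if p ∈ gabs B B0 then 0 else f p) =
    msum B B0 (fun a => f (.inl a)) fun c x => f (.inr ⟨c, x⟩) := by
  rw [Fintype.sum_sum_type, msum, Fintype.sum_sigma]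
  congr!

theorem msum_congr {fN fN' : Nn → ℝ} {f f' : ∀ c, U c → ℝ} (h1 : ∀ a, a ∉ B0 → fN a = fN' a)
    (h2 : ∀ c x, x ∉ B c → f c x = f' c x) : msum B B0 fN f = msum B B0 fN' f' := by
  classical
  unfold msum
  congr 1
  · refine Finset.sum_congr rfl fun a _ => ?_
    split_ifs with h
    exacts [rfl, h1 a h]
  · refine Finset.sum_congr rfl fun c _ => Finset.sum_congr rfl fun x _ => ?_
    split_ifs with h
    exacts [rfl, h2 c x h]

theorem msum_mono {fN fN' : Nn → ℝ} {f f' : ∀ c, U c → ℝ} (h1 : ∀ a, a ∉ B0 → fN a ≤ fN' a)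
    (h2 : ∀ c x, x ∉ B c → f c x ≤ f' c x) : msum B B0 fN f ≤ msum B B0 fN' f' := by
  classical
  unfold msum
  refine add_le_add (Finset.sum_le_sum fun a _ => ?_)
    (Finset.sum_le_sum fun c _ => Finset.sum_le_sum fun x _ => ?_)
  · split_ifs with h
    exacts [le_rfl, h1 a h]
  · split_ifs with h
    exacts [le_rfl, h2 c x h]

theorem msum_mul (K : ℝ) (fN : Nn → ℝ) (f : ∀ c, U c → ℝ) :
    msum B B0 (fun a => K * fN a) (fun c x => K * f c x) = K * msum B B0 fN f := by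
  classical
  simp only [msum, mul_add, Finset.mul_sum, mul_ite, mul_zero]

theorem grate_pos (hD : ∀ a b, 0 ≤ D a b) (hR : ∀ c x y, 0 ≤ R c x y) {p q : Gl Nn U} :
    0 < grate D R B nd p q ↔ (∃ a b, .inl a = p ∧ .inl b = q ∧ 0 < D a b) ∨
      ∃ c x y, emb B nd c x = p ∧ emb B nd c y = q ∧ 0 < R c x y := by
  have h1 := mrg_nonneg (N := Gl Nn U) Sum.inl hD p q
  have h2 : ∀ c, 0 ≤ mrg (emb B nd c) (R c) p q := fun c => mrg_nonneg _ (hR c) p q
  have h3 : 0 < ∑ c, mrg (emb B nd c) (R c) p q ↔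
      ∃ c x y, emb B nd c x = p ∧ emb B nd c y = q ∧ 0 < R c x y := by
    rw [Finset.sum_pos_iff_of_nonneg fun c _ => h2 c]
    simp only [Finset.mem_univ, true_and, mrg_pos_iff _ (hR _)]
  rw [← h3, ← mrg_pos_iff _ hD, grate]
  have h4 : 0 ≤ ∑ c, mrg (emb B nd c) (R c) p q := Finset.sum_nonneg fun c _ => h2 c
  constructor
  · intro h
    by_contra h5
    rw [not_or, not_lt, not_lt] at h5
    linarith [h5.1, h5.2]
  · rintro (h | h) <;> linarith

theorem GAbs.abs (hD : ∀ a b, 0 ≤ D a b) (hR : ∀ c x y, 0 ≤ R c x y) (hA : GAbs D R B nd B0) :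
    Abs (grate D R B nd) (gabs B B0) := by
  intro S hS hd
  by_contra hn
  have cl : ∀ p ∈ S, ∀ q, 0 < grate D R B nd p q → q ∈ S := fun p hp q h => by
    by_contra h'
    exact hn ⟨p, hp, q, h', h⟩
  obtain ⟨a, ha, hb⟩ := hA {a | .inl a ∈ S} (fun c => {x | emb B nd c x ∈ S})
    (fun c b hb => by simp only [mem_ofPred_eq, emb_in hb])
    (fun a ha b h => cl _ ha _ ((grate_pos hD hR).2 (.inl ⟨a, b, rfl, rfl, h⟩)))
    (fun c x hx y h => cl _ hx _ ((grate_pos hD hR).2 (.inr ⟨c, x, y, rfl, rfl, h⟩))) (by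
      obtain ⟨a | ⟨c, x⟩, hp⟩ := hS
      · exact .inl ⟨a, hp⟩
      · have hx : x ∉ B c := fun h => disjoint_left.1 hd hp h
        exact .inr ⟨c, x, by rwa [mem_ofPred_eq, emb_out hx]⟩)
  exact disjoint_left.1 hd ha hb

theorem gabs_of_abs (hD : ∀ a b, 0 ≤ D a b) (hR : ∀ c x y, 0 ≤ R c x y)
    (hA : Abs (grate D R B nd) (gabs B B0)) : GAbs D R B nd B0 := by
  intro SN S h1 h2 h3 h4
  by_contra hn
  have key : ∀ c x, emb B nd c x ∈ {p : Gl Nn U |
      Sum.elim (fun a => a ∈ SN) (fun y => y.2 ∈ S y.1 ∧ y.2 ∉ B y.1) p} ↔ x ∈ S c := fun c x => by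
    by_cases hx : x ∈ B c
    · rw [emb_in hx]
      exact (h1 c x hx).symm
    · rw [emb_out hx]
      exact and_iff_left hx
  obtain ⟨p, hp, q, hq, h⟩ := hA {p : Gl Nn U | Sum.elim (fun a => a ∈ SN)
    (fun y : Σ c, U c => y.2 ∈ S y.1 ∧ y.2 ∉ B y.1) p} (by
      rcases h4 with ⟨a, ha⟩ | ⟨c, x, hx⟩
      exacts [⟨.inl a, ha⟩, ⟨_, (key c x).2 hx⟩]) (disjoint_left.2 (by
      rintro (a | y) h5 h6
      exacts [hn ⟨a, h5, h6⟩, h5.2 h6]))
  rcases (grate_pos hD hR).1 h with ⟨a, b, rfl, rfl, h5⟩ | ⟨c, x, y, rfl, rfl, h5⟩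
  exacts [hq (h2 a hp b h5), hq ((key c y).2 (h3 c x ((key c x).1 hp) y h5))]

open Classical in
theorem gsum_split {wN uN : Nn → ℝ} {w u : ∀ c, U c → ℝ} (hw : Cmp B nd wN w) :
    gsum D R wN w uN u = ∑ a, wN a * ngen D R B nd uN u a +
      ∑ c, ∑ x, if x ∈ B c then 0 else w c x * gen (R c) (u c) x := by
  simp only [gsum, ngen, nsum, mul_add, Finset.sum_add_distrib, add_assoc, Finset.mul_sum]
  congr 1
  rw [Finset.sum_comm, ← Finset.sum_add_distrib]
  refine Finset.sum_congr rfl fun c _ => ?_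
  rw [Finset.sum_comm, ← Finset.sum_add_distrib]
  refine Finset.sum_congr rfl fun x _ => ?_
  by_cases hx : x ∈ B c
  · simp only [hw c x hx, hx, true_and, mul_ite, mul_zero, Finset.sum_ite_eq, Finset.mem_univ, ↓ reduceIte, add_zero]
  · simp only [hx, false_and, ↓ reduceIte, mul_zero, Finset.sum_const_zero, zero_add]

theorem gabs_of_lyap (hD : ∀ a b, 0 ≤ D a b) (hR : ∀ c x y, 0 ≤ R c x y) {kN : Nn → ℝ}
    {k : ∀ c, U c → ℝ} (hk : Cmp B nd kN k) (h1 : ∀ c x, x ∉ B c → gen (R c) (k c) x < 0)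
    (h2 : ∀ a, a ∉ B0 → ngen D R B nd kN k a < 0) : GAbs D R B nd B0 := by
  refine gabs_of_abs hD hR (abs_of_lyap (grate_nonneg hD hR) (h := glue kN k) ?_)
  rintro (a | ⟨c, x⟩) h
  · rw [gen_grate_inl]
    simp only [glue_emb16 hk]
    exact h2 a h
  · rw [gen_grate_inr _ (show x ∉ B c from h)]
    simp only [glue_emb16 hk]
    exact h1 c x h

theorem gharm {E : Type} [AddCommGroup E] [Module ℝ E] (hD : ∀ a b, 0 ≤ D a b)
    (hR : ∀ c x y, 0 ≤ R c x y) (hA : GAbs D R B nd B0) (φ : Nn → E) :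
    ∃ (gN : Nn → E) (g : ∀ c, U c → E), Cmp B nd gN g ∧ (∀ a ∈ B0, gN a = φ a) ∧
      (∀ c x, x ∉ B c → gen (R c) (g c) x = 0) ∧ (∀ a, a ∉ B0 → ngen D R B nd gN g a = 0) ∧
      ∀ Y : Set E, Convex ℝ Y → (∀ a, φ a ∈ Y) → ∀ a, gN a ∈ Y := by
  have h0 := grate_nonneg (B := B) (nd := nd) hD hR
  have h1 := hA.abs hD hR
  obtain ⟨g, hg⟩ : ∃ g, g = harm (grate D R B nd) (gabs B B0)
    (glue φ fun c x => φ (nd c x)) := ⟨_, rfl⟩
  have g1 : ∀ p ∈ gabs B B0, g p = glue φ (fun c x => φ (nd c x)) p :=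
    fun p hp => hg ▸ harm_bd h0 h1 _ hp
  have g2 : ∀ p, p ∉ gabs B B0 → gen (grate D R B nd) g p = 0 :=
    fun p hp => hg ▸ harm_gen h0 h1 _ hp
  refine ⟨fun a => g (.inl a), fun c x => g (emb B nd c x), cmp_emb g, fun a ha => g1 (.inl a) ha,
    fun c x hx => (gen_grate_inr g hx).symm.trans (g2 _ hx),
    fun a ha => (gen_grate_inl g a).symm.trans (g2 _ ha), fun Y hY h a =>
      harm_mem h0 h1 g2 hY (fun p hp => ?_) _⟩
  rw [g1 p hp]
  rcases p with a | y
  exacts [h a, h _]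

theorem ggreen (hD : ∀ a b, 0 ≤ D a b) (hR : ∀ c x y, 0 ≤ R c x y) (hA : GAbs D R B nd B0)
    {μN : Nn → ℝ} {μ : ∀ c, U c → ℝ} (hμN : ∀ a, 0 < μN a) (hμ : ∀ c x, 0 < μ c x) :
    ∃ (GN : Nn → ℝ) (G : ∀ c, U c → ℝ), Cmp B nd GN G ∧ (∀ a ∈ B0, GN a = 0) ∧
      (∀ a, a ∉ B0 → 0 < GN a) ∧ (∀ c x, x ∉ B c → 0 < G c x) ∧
      (∀ c x, x ∉ B c → μ c x = ∑ y, G c x * R c x y - ∑ y, G c y * R c y x) ∧
      ∀ (uN : Nn → ℝ) (u : ∀ c, U c → ℝ), Cmp B nd uN u → (∀ a ∈ B0, 0 ≤ uN a) →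
        -gsum D R GN G uN u ≤ msum B B0 (fun a => μN a * uN a) fun c x => μ c x * u c x := by
  classical
  have h0 := grate_nonneg (B := B) (nd := nd) hD hR
  have h1 := hA.abs hD hR
  have h2 : ∀ p, 0 < glue μN μ p := by
    rintro (a | y)
    exacts [hμN a, hμ _ _]
  obtain ⟨G, hG⟩ : ∃ G, G = green (grate D R B nd) (gabs B B0) (glue μN μ) := ⟨_, rfl⟩
  have g0 : ∀ p, 0 ≤ G p := hG ▸ green_nonneg h0 h1 fun p _ => (h2 p).le
  have g1 : ∀ p ∈ gabs B B0, G p = 0 := fun p hp => hG ▸ green_bd _ hp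
  have g2 : ∀ p, p ∉ gabs B B0 → 0 < G p := fun p hp => hG ▸ green_pos h0 h1 (fun p _ => h2 p) hp
  have g3 : ∀ p, p ∉ gabs B B0 → G p * ∑ c, grate D R B nd p c - ∑ a, G a * grate D R B nd a p =
      glue μN μ p := fun p hp => hG ▸ green_adj h0 h1 _ hp
  have key : ∀ (uN : Nn → ℝ) (u : ∀ c, U c → ℝ), Cmp B nd uN u → (∀ a ∈ B0, 0 ≤ uN a) →
      -gsum D R (fun a => G (.inl a)) (fun c x => G (emb B nd c x)) uN u ≤
        msum B B0 (fun a => μN a * uN a) fun c x => μ c x * u c x := fun uN u hu hu0 => by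
    obtain ⟨v, hv⟩ : ∃ v, v = glue uN fun c x => if x ∈ B c then 0 else u c x := ⟨_, rfl⟩
    have v1 : ∀ c x, v (emb B nd c x) = u c x := fun c x => by
      by_cases hx : x ∈ B c
      · rw [emb_in hx, hv, hu c x hx]
        rfl
      · rw [emb_out hx, hv]
        exact if_neg hx
    have v2 : ∀ a, v (.inl a) = uN a := fun a => hv ▸ rfl
    have e := dual g1 g3 v
    rw [sum_grate] at e
    simp only [v1, v2] at e
    rw [e, ← Finset.sum_neg_distrib,
      msum_congr (fN' := fun a => glue μN μ (.inl a) * v (.inl a))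
        (f' := fun c x => glue μN μ (.inr ⟨c, x⟩) * v (.inr ⟨c, x⟩)) (fun a _ => by rw [v2]; rfl)
        (fun c x hx => by rw [← v1, emb_out hx]; rfl),
      ← sum_gabs fun p => glue μN μ p * v p]
    refine Finset.sum_le_sum fun p _ => ?_
    split_ifs with hp
    · refine neg_nonpos.2 (mul_nonneg (Finset.sum_nonneg fun a _ => mul_nonneg (g0 a) (h0 a p)) ?_)
      rcases p with a | y
      · exact v2 a ▸ hu0 a hp
      · rw [hv]
        exact (if_pos hp).ge
    · exact (neg_neg _).le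
  refine ⟨fun a => G (.inl a), fun c x => G (emb B nd c x), cmp_emb G, fun a ha => g1 (.inl a) ha,
    fun a ha => g2 (.inl a) ha, fun c x hx => g2 _ (by rw [emb_out hx]; exact hx),
    fun c x hx => ?_, key⟩
  have e : ∀ t : ℝ, -(t * (∑ y, G (emb B nd c y) * R c y x - ∑ y, G (emb B nd c x) * R c x y)) ≤
      μ c x * t := fun t => by
    have h3 := key (fun _ => 0)
      (fun c' y => if (⟨c', y⟩ : Σ c, U c) = ⟨c, x⟩ then t else 0)
      (fun c' y hy => if_neg fun e => by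
        cases e
        exact hx hy) fun _ _ => le_rfl
    have h4 : ∀ c', c' ≠ c → ∀ y : U c', (⟨c', y⟩ : Σ c, U c) ≠ ⟨c, x⟩ :=
      fun c' h y e => h (congrArg Sigma.fst e)
    rw [gsum, msum, Finset.sum_eq_single c (fun c' _ h => by simp only [gen, h4 c' h, ↓ reduceIte, sub_self, smul_eq_mul, mul_zero, Finset.sum_const_zero]) (by simp only [Finset.mem_univ, not_true_eq_false, Sigma.mk.injEq, heq_eq_eq, true_and, IsEmpty.forall_iff]),
      Finset.sum_eq_single c (fun c' _ h => by simp only [h4 c' h, ↓ reduceIte, mul_zero, ite_self, Finset.sum_const_zero]) (by simp only [Finset.mem_univ, not_true_eq_false, Sigma.mk.injEq, heq_eq_eq, true_and, mul_ite, mul_zero, IsEmpty.forall_iff])] at h3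
    simp only [gen, sub_self, smul_zero, Finset.sum_const_zero, mul_zero, zero_add, ite_self,
      Sigma.mk.injEq, heq_eq_eq, true_and, smul_eq_mul, mul_sub, Finset.sum_sub_distrib,
      Finset.mul_sum, mul_ite] at h3
    rw [Finset.sum_eq_single x (f := fun y => if y ∈ B c then 0 else _)
      (fun y _ h => by simp [h]) (by simp only [Finset.mem_univ, not_true_eq_false, ↓ reduceIte, ite_eq_left_iff, mul_eq_zero, IsEmpty.forall_iff]), if_neg hx, if_pos rfl,
      Finset.sum_eq_single x (f := fun y => ∑ z, if y = x then _ else 0)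
      (fun y _ h => by simp only [h, ↓ reduceIte, Finset.sum_const_zero]) (by simp)] at h3
    simp only [Finset.sum_ite_eq', Finset.mem_univ, if_true] at h3
    refine le_trans (le_of_eq ?_) h3
    simp only [mul_sub, Finset.mul_sum]
    congr 2 <;> exact Finset.sum_congr rfl fun _ _ => by ring
  linarith [e 1, e (-1)]

theorem glue_zero {uN : Nn → ℝ} {u : ∀ c, U c → ℝ} (hu : Cmp B nd uN u) :
    ∃ v : Gl Nn U → ℝ, (∀ a, v (.inl a) = uN a) ∧ (∀ c x, v (emb B nd c x) = u c x) ∧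
      ∀ c, ∀ x ∈ B c, v (.inr ⟨c, x⟩) = 0 := by
  classical
  refine ⟨glue uN fun c x => if x ∈ B c then 0 else u c x, fun _ => rfl, fun c x => ?_,
    fun c x hx => if_pos hx⟩
  by_cases hx : x ∈ B c
  · rw [emb_in hx, hu c x hx]
    rfl
  · rw [emb_out hx]
    exact if_neg hx

theorem sum_mrg {V W : Type} [Fintype V] [Fintype W] (π : V → W) (Q : V → V → ℝ)
    (f : W → W → ℝ) : ∑ p, ∑ q, mrg π Q p q * f p q = ∑ a, ∑ b, Q a b * f (π a) (π b) := by
  classical
  have h : ∀ y : W × W, mrg π Q y.1 y.2 * f y.1 y.2 =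
      ∑ x : V × V, if (π x.1, π x.2) = y then Q x.1 x.2 * f (π x.1) (π x.2) else 0 := fun y => by
    simp only [mrg, Finset.sum_mul, Fintype.sum_prod_type, Prod.ext_iff]
    refine Finset.sum_congr rfl fun a _ => Finset.sum_congr rfl fun b _ => ?_
    split_ifs with h
    · rw [h.1, h.2]
    · exact zero_mul _
  rw [← Fintype.sum_prod_type', ← Fintype.sum_prod_type', Finset.sum_congr rfl fun y _ => h y,
    Finset.sum_comm]
  simp only [Finset.sum_ite_eq, Finset.mem_univ, ↓ reduceIte]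

theorem gpsi (hD : ∀ a b, 0 ≤ D a b) (hR : ∀ c x y, 0 ≤ R c x y) (hA : GAbs D R B nd B0)
    (sD : ∀ a ∈ B0, ∀ b, D a b = 0) (sR : ∀ c, ∀ b ∈ B c, nd c b ∈ B0 → ∀ y, R c b y = 0)
    {μN μN' : Nn → ℝ} {μ μ' : ∀ c, U c → ℝ} {K : ℝ} (hK : 0 ≤ K) (hμN : ∀ a, 0 ≤ μN a)
    (hμ : ∀ c x, 0 ≤ μ c x)
    (hcons : ∀ (uN : Nn → ℝ) (u : ∀ c, U c → ℝ), Cmp B nd uN u → (∀ a ∈ B0, uN a = 0) →
      (∀ a, 0 ≤ uN a) → (∀ c x, 0 ≤ u c x) → gsum D R (fun _ => 1) (fun _ _ => 1) uN u ≤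
        -msum B B0 (fun a => μN a * uN a) fun c x => μ c x * u c x)
    (h0N : ∀ a, 0 ≤ μN' a ∧ μN' a ≤ K * μN a) (h0 : ∀ c x, 0 ≤ μ' c x ∧ μ' c x ≤ K * μ c x) :
    ∃ (ψN : Nn → ℝ) (ψ : ∀ c, U c → ℝ), Cmp B nd ψN ψ ∧ (∀ a, 0 ≤ ψN a ∧ ψN a ≤ K) ∧
      (∀ c x, 0 ≤ ψ c x ∧ ψ c x ≤ K) ∧ (∀ a ∈ B0, ψN a = 0) ∧
      (∀ c, ∑ x, ∑ y, R c x y * (ψ c x - ψ c y) ^ 2 ≤ 2 * K * msum B B0 μN' μ') ∧
      ∀ (uN : Nn → ℝ) (u : ∀ c, U c → ℝ), Cmp B nd uN u → (∀ a ∈ B0, uN a = 0) →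
        gsum D R ψN ψ uN u = -msum B B0 (fun a => μN' a * uN a) fun c x => μ' c x * u c x := by
  classical
  have h1 := grate_nonneg (B := B) (nd := nd) hD hR
  have ms : ∀ (νN : Nn → ℝ) (ν : ∀ c, U c → ℝ) (v : Gl Nn U → ℝ),
      msum B B0 (fun a => νN a * v (.inl a)) (fun c x => ν c x * v (emb B nd c x)) =
        ∑ p, if p ∈ gabs B B0 then 0 else glue νN ν p * v p := fun νN ν v => by
    rw [sum_gabs fun p => glue νN ν p * v p]
    exact msum_congr (fun _ _ => rfl) fun c x hx => by rw [emb_out hx]; rfl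
  obtain ⟨ψ, p0, p1, p2, p3, p4⟩ := exists_psi (μ := glue μN μ) (μ' := glue μN' μ') h1
    (hA.abs hD hR) hK (by
      rintro (a | y) -
      exacts [hμN a, hμ _ _])
    (fun p hp => by
      have e := hcons _ _ (cmp_emb fun q => if q = p then (1 : ℝ) else 0)
        (fun a ha => if_neg fun e : Sum.inl a = p => hp (e ▸ ha)) (fun a => by split_ifs <;> norm_num)
        (fun c x => by split_ifs <;> norm_num)
      have e1 := sum_grate (D := D) (R := R) (B := B) (nd := nd) (fun _ => 1)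
        fun q => if q = p then (1 : ℝ) else 0
      rw [← e1, ms μN μ fun q => if q = p then (1 : ℝ) else 0,
        Finset.sum_eq_single p (f := fun q => if q ∈ gabs B B0 then 0 else _)
          (fun q _ h => by simp [h]) (by simp only [Finset.mem_univ, not_true_eq_false, ↓ reduceIte, mul_one, ite_eq_left_iff, IsEmpty.forall_iff]), if_neg hp, if_pos rfl, mul_one] at e
      simp only [gen, one_mul, smul_eq_mul, mul_sub, Finset.sum_sub_distrib, mul_ite, mul_one,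
        mul_zero, Finset.sum_ite_eq', Finset.mem_univ, if_true] at e
      rw [Finset.sum_eq_single p (f := fun q => ∑ z, if q = p then _ else 0)
        (fun q _ h => by simp only [h, ↓ reduceIte, Finset.sum_const_zero]) (by simp only [Finset.mem_univ, not_true_eq_false, ↓ reduceIte, Fintype.sum_sum_type, IsEmpty.forall_iff])] at e
      simp only [if_true] at e
      have e2 : (∑ b, if b ∈ gabs B B0 then 0 else grate D R B nd b p) ≤
          ∑ b, grate D R B nd b p := Finset.sum_le_sum fun b _ => by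
        split_ifs
        exacts [h1 b p, le_rfl]
      linarith)
    (by
      rintro (a | y) -
      exacts [(h0N a).1, (h0 _ _).1])
    (by
      rintro (a | y) -
      exacts [(h0N a).2, (h0 _ _).2])
  refine ⟨fun a => ψ (.inl a), fun c x => ψ (emb B nd c x), cmp_emb ψ, fun a => ⟨p0 _, p1 _⟩,
    fun c x => ⟨p0 _, p1 _⟩, fun a ha => p2 (.inl a) ha, fun c => ?_, fun uN u hu hu0 => ?_⟩
  · rw [sum_gabs (glue μN' μ')] at p3
    refine le_trans ?_ p3
    have e1 := sum_mrg (emb B nd c) (R c) fun p q => if p ∈ gabs B B0 then 0 else (ψ p - ψ q) ^ 2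
    refine le_trans (le_of_eq (Finset.sum_congr rfl fun x _ => Finset.sum_congr rfl
      fun y _ => ?_)) (e1.ge.trans (Finset.sum_le_sum fun p _ => ?_))
    · split_ifs with h
      · by_cases hx : x ∈ B c
        · rw [emb_in hx] at h
          rw [sR c x hx h y, zero_mul, zero_mul]
        · rw [emb_out hx] at h
          exact absurd h hx
      · rfl
    · split_ifs
      · simp only [mul_zero, Finset.sum_const_zero, Std.le_refl]
      · refine Finset.sum_le_sum fun q _ => mul_le_mul_of_nonneg_right ?_ (sq_nonneg _)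
        exact (Finset.single_le_sum (f := fun c => mrg (emb B nd c) (R c) p q)
          (fun c _ => mrg_nonneg _ (hR c) p q) (Finset.mem_univ c)).trans
          (le_add_of_nonneg_left (mrg_nonneg _ hD p q))
  · obtain ⟨v, v1, v2, v3⟩ := glue_zero hu
    have v4 : ∀ p ∈ gabs B B0, v p = 0 := by
      rintro (a | ⟨c, x⟩) hp
      exacts [(v1 a).trans (hu0 a hp), v3 c x hp]
    have e := p4 v v4
    rw [sum_grate] at e
    have e2 := ms μN' μ' v
    simp only [v1, v2] at e e2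
    rw [e, e2]
    refine congrArg _ (Finset.sum_congr rfl fun p _ => ?_)
    split_ifs with h
    · rw [v4 p h, mul_zero]
    · rfl

open Classical in
theorem gmerge_est {P : C → Type} [∀ c, Fintype (P c)] (π : ∀ c, U c → P c)
    {lk : ∀ c, U c → U c → ℝ} {μN μN' φ gN : Nn → ℝ} {μ μ' F : ∀ c, U c → ℝ}
    {g A : ∀ c, P c → ℝ} {K η A₀ M₀ : ℝ} (hD : ∀ a b, 0 ≤ D a b) (hR : ∀ c x y, 0 ≤ R c x y)
    (hA : GAbs D R B nd B0) (sD : ∀ a ∈ B0, ∀ b, D a b = 0)
    (sR : ∀ c, ∀ b ∈ B c, nd c b ∈ B0 → ∀ y, R c b y = 0) (hc : ∀ c a a', 0 ≤ lk c a a')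
    (hs : ∀ c a a', lk c a a' = lk c a' a)
    (hcπ : ∀ c a a', lk c a a' ≠ 0 → π c a = π c a' ∧ a ∉ B c) (hK : 0 ≤ K)
    (hμN : ∀ a, 0 ≤ μN a) (hμ : ∀ c x, 0 ≤ μ c x)
    (hcons : ∀ (uN : Nn → ℝ) (u : ∀ c, U c → ℝ), Cmp B nd uN u → (∀ a ∈ B0, uN a = 0) →
      (∀ a, 0 ≤ uN a) → (∀ c x, 0 ≤ u c x) → gsum D R (fun _ => 1) (fun _ _ => 1) uN u ≤
        -msum B B0 (fun a => μN a * uN a) fun c x => μ c x * u c x)
    (h0N : ∀ a, 0 ≤ μN' a ∧ μN' a ≤ K * μN a) (h0 : ∀ c x, 0 ≤ μ' c x ∧ μ' c x ≤ K * μ c x)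
    (h1 : msum B B0 μN' μ' ≤ 1) (hF : Cmp B nd φ F) (hg : Cmp B nd gN fun c x => g c (π c x))
    (hB : ∀ a ∈ B0, gN a = φ a)
    (hnode : ∀ a, a ∉ B0 → ngen D R B nd gN (fun c x => g c (π c x)) a = 0)
    (hfib : ∀ c p,
      (∑ a, if π c a = p ∧ a ∉ B c then gen (R c) (fun b => g c (π c b)) a else 0) = 0)
    (hA0 : ∀ c p, 0 ≤ A c p)
    (hk : ∀ c a a', a ∉ B c → a' ∉ B c → π c a = π c a' →
      0 < gen (R c) (fun b => g c (π c b)) a → gen (R c) (fun b => g c (π c b)) a' < 0 →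
        gen (R c) (fun b => g c (π c b)) a * -gen (R c) (fun b => g c (π c b)) a' ≤
          lk c a a' * A c (π c a))
    (hA₀ : ∀ c, ∑ p, A c p ≤ A₀)
    (hη : msum B B0 (fun a => |ngen D R B nd φ F a|) (fun c x => |gen (R c) (F c) x|) ≤ η)
    (hM : ∀ c, ∑ a, ∑ a', lk c a a' * (F c a - F c a') ^ 2 ≤ M₀) :
    |msum B B0 (fun a => μN' a * (gN a - φ a)) fun c x => μ' c x * (g c (π c x) - F c x)| ≤
      K * η + Fintype.card C * (√(2 * K) * (√A₀ + √M₀)) := by
  have c0 : ∀ c, ∀ a ∈ B c, ∀ b, lk c a b = 0 := fun c a ha b => by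
    by_contra h
    exact (hcπ c a b h).2 ha
  have ga : ∀ c (u : U c → ℝ) x, gen (fun a b => R c a b + lk c a b) u x =
      gen (R c) u x + gen (lk c) u x := fun c u x => by
    simp only [gen, add_smul, Finset.sum_add_distrib]
  obtain ⟨ψN, ψ, p0, p1, p2, p3, p4, p5⟩ := gpsi (R := fun c a b => R c a b + lk c a b) hD
    (fun c a b => add_nonneg (hR c a b) (hc c a b))
    (fun SN S q1 q2 q3 q4 => hA SN S q1 q2
      (fun c x hx y h => q3 c x hx y (add_pos_of_pos_of_nonneg h (hc c x y))) q4) sD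
    (fun c b hb h y => by rw [sR c b hb h y, c0 c b hb y, add_zero]) hK hμN hμ
    (fun uN u q1 q2 q3 q4 => le_trans (le_of_eq (by
      have e : ∀ c, ∑ x, gen (lk c) (u c) x = 0 := fun c => by
        have e1 := link_est (hc c) (hs c) (fun _ => 1) (u c)
        simpa only [one_mul, sub_self, ne_eq, OfNat.ofNat_ne_zero, not_false_eq_true, zero_pow, mul_zero, Finset.sum_const_zero, Real.sqrt_zero, zero_mul, abs_nonpos_iff] using e1
      simp only [gsum, ga, one_mul, Finset.sum_add_distrib, e, Finset.sum_const_zero, add_zero]))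
      (hcons uN u q1 q2 q3 q4)) h0N h0
  have hE : ∀ c, √(∑ a, ∑ b, lk c a b * (ψ c a - ψ c b) ^ 2) ≤ √(2 * K) := fun c =>
    Real.sqrt_le_sqrt (((Finset.sum_le_sum fun a _ => Finset.sum_le_sum fun b _ =>
      mul_le_mul_of_nonneg_right (le_add_of_nonneg_left (hR c a b)) (sq_nonneg _)).trans
      (p4 c)).trans (mul_le_of_le_one_right (by positivity) h1))
  have e0 := p5 (fun a => gN a - φ a) (fun c x => g c (π c x) - F c x)
    (fun c b hb => congrArg₂ _ (hg c b hb) (hF c b hb)) fun a ha => sub_eq_zero.2 (hB a ha)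
  have e1 : gsum D (fun c a b => R c a b + lk c a b) ψN ψ (fun a => gN a - φ a)
      (fun c x => g c (π c x) - F c x) = gsum D R ψN ψ gN (fun c x => g c (π c x)) -
        gsum D R ψN ψ φ F - ∑ c, ∑ x, ψ c x * gen (lk c) (F c) x := by
    have e2 : ∀ a, gen D (fun a => gN a - φ a) a = gen D gN a - gen D φ a := fun a => by
      simp only [gen, smul_eq_mul, ← Finset.sum_sub_distrib]
      exact Finset.sum_congr rfl fun b _ => by ring
    have e3 : ∀ c x, gen (fun a b => R c a b + lk c a b) (fun x => g c (π c x) - F c x) x =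
        gen (R c) (fun x => g c (π c x)) x - gen (R c) (F c) x - gen (lk c) (F c) x :=
      fun c x => by
        simp only [gen, smul_eq_mul, ← Finset.sum_sub_distrib]
        refine Finset.sum_congr rfl fun b _ => ?_
        by_cases h2 : lk c x b = 0
        · rw [h2]
          ring
        · rw [(hcπ c x b h2).1]
          ring
    simp only [gsum, e2, e3, mul_sub, Finset.sum_sub_distrib]
    ring
  have e2 : gsum D R ψN ψ gN (fun c x => g c (π c x)) =
      ∑ c, ∑ x, ψ c x * if x ∈ B c then 0 else gen (R c) (fun b => g c (π c b)) x := by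
    rw [gsum_split p0, Finset.sum_eq_zero fun a _ => ?_, zero_add]
    · simp only [mul_ite, mul_zero]
    · by_cases ha : a ∈ B0
      · rw [p3 a ha, zero_mul]
      · rw [hnode a ha, mul_zero]
  have e3 : ∀ c, |∑ x, ψ c x * if x ∈ B c then 0 else gen (R c) (fun b => g c (π c b)) x| ≤
      √(2 * K) * √A₀ := fun c =>
    (kink_est (π c) (k := fun a => if a ∈ B c then 0 else gen (R c) (fun b => g c (π c b)) a)
      (ψ := ψ c) (hc c) (hA0 c) (fun p => (Finset.sum_congr rfl fun a _ => by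
        by_cases h : a ∈ B c <;> simp [h]).trans (hfib c p)) fun a b h h3 h4 => by
        by_cases ha : a ∈ B c
        · simp [ha] at h3
        by_cases hb : b ∈ B c
        · simp [hb] at h4
        simp only [if_neg ha, if_neg hb] at h3 h4 ⊢
        exact hk c a b ha hb h h3 h4).trans
      (mul_le_mul (hE c) (Real.sqrt_le_sqrt (hA₀ c)) (Real.sqrt_nonneg _) (Real.sqrt_nonneg _))
  have e4 : ∀ c, |∑ x, ψ c x * gen (lk c) (F c) x| ≤ √(2 * K) * √M₀ := fun c =>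
    (link_est (hc c) (hs c) (ψ c) (F c)).trans
      (mul_le_mul (hE c) (Real.sqrt_le_sqrt (hM c)) (Real.sqrt_nonneg _) (Real.sqrt_nonneg _))
  have e5 : |gsum D R ψN ψ φ F| ≤ K * η := by
    refine le_trans ?_ (mul_le_mul_of_nonneg_left hη hK)
    rw [gsum_split p0, ← msum_mul, msum]
    refine (abs_add_le _ _).trans (add_le_add ((Finset.abs_sum_le_sum_abs _ _).trans
      (Finset.sum_le_sum fun a _ => ?_)) ((Finset.abs_sum_le_sum_abs _ _).trans
      (Finset.sum_le_sum fun c _ => (Finset.abs_sum_le_sum_abs _ _).trans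
        (Finset.sum_le_sum fun x _ => ?_))))
    · split_ifs with h
      · simp [p3 a h]
      · rw [abs_mul, abs_of_nonneg (p1 a).1]
        exact mul_le_mul_of_nonneg_right (p1 a).2 (abs_nonneg _)
    · split_ifs with h
      · simp
      · rw [abs_mul, abs_of_nonneg (p2 c x).1]
        exact mul_le_mul_of_nonneg_right (p2 c x).2 (abs_nonneg _)
  have e6 := (Finset.abs_sum_le_sum_abs _ Finset.univ).trans (Finset.sum_le_sum fun c _ => e3 c)
  have e7 := (Finset.abs_sum_le_sum_abs _ Finset.univ).trans (Finset.sum_le_sum fun c _ => e4 c)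
  rw [Finset.sum_const, Finset.card_univ, nsmul_eq_mul] at e6 e7
  rw [e1, e2] at e0
  rw [abs_le] at e5 e6 e7 ⊢
  constructor <;> linarith only [e5.1, e5.2, e6.1, e6.2, e7.1, e7.2, e0]

open Classical in
theorem sum_split {wN : Nn → ℝ} {w : ∀ c, U c → ℝ} (hw : Cmp B nd wN w) (h : ∀ c, U c → ℝ) :
    ∑ c, ∑ x, w c x * h c x = ∑ a, wN a * nsum B nd h a +
      ∑ c, ∑ x, if x ∈ B c then 0 else w c x * h c x := by
  simp only [nsum, Finset.mul_sum]
  rw [Finset.sum_comm (s := (Finset.univ : Finset Nn)), ← Finset.sum_add_distrib]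
  refine Finset.sum_congr rfl fun c _ => ?_
  rw [Finset.sum_comm (s := (Finset.univ : Finset Nn)), ← Finset.sum_add_distrib]
  refine Finset.sum_congr rfl fun x _ => ?_
  by_cases hx : x ∈ B c
  · simp only [hw c x hx, hx, true_and, mul_ite, mul_zero, Finset.sum_ite_eq, Finset.mem_univ, ↓ reduceIte, add_zero]
  · simp only [hx, false_and, ↓ reduceIte, mul_zero, Finset.sum_const_zero, zero_add]

theorem nsum_nonneg {f : ∀ c, U c → ℝ} (h : ∀ c x, 0 ≤ f c x) (a : Nn) : 0 ≤ nsum B nd f a := by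
  classical
  refine Finset.sum_nonneg fun c _ => Finset.sum_nonneg fun x _ => ?_
  split_ifs
  exacts [h c x, le_rfl]

theorem nsum_eq {U' : C → Type} [∀ c, Fintype (U' c)] {B' : ∀ c, Set (U' c)}
    {nd' : ∀ c, U' c → Nn} {X : Type} [AddCommMonoid X] (ι : ∀ c, U c → U' c)
    (hi : ∀ c, Function.Injective (ι c)) (h1 : ∀ c x, ι c x ∈ B' c ↔ x ∈ B c)
    (h2 : ∀ c, ∀ y ∈ B' c, ∃ x, ι c x = y) (h3 : ∀ c x, nd' c (ι c x) = nd c x)
    (f : ∀ c, U' c → X) (a : Nn) : nsum B' nd' f a = nsum B nd (fun c x => f c (ι c x)) a := by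
  classical
  refine Finset.sum_congr rfl fun c _ => (Fintype.sum_of_injective (ι c) (hi c) _ _
    (fun y hy => if_neg fun h => hy (h2 c y h.1)) fun x => ?_).symm
  simp only [h1, h3]

theorem nsum_congr {X : Type} [AddCommMonoid X] {f f' : ∀ c, U c → X} {a : Nn}
    (h : ∀ c, ∀ x ∈ B c, nd c x = a → f c x = f' c x) : nsum B nd f a = nsum B nd f' a := by
  classical
  refine Finset.sum_congr rfl fun c _ => Finset.sum_congr rfl fun x _ => ?_
  split_ifs with e
  exacts [h c x e.1 e.2, rfl]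

theorem nsum_smul {X : Type} [AddCommGroup X] [Module ℝ X] (t : ℝ) (f : ∀ c, U c → X) (a : Nn) :
    nsum B nd (fun c x => t • f c x) a = t • nsum B nd f a := by
  classical
  simp only [nsum, Finset.smul_sum, smul_ite, smul_zero]

theorem ngen_map {X Y : Type} [AddCommGroup X] [Module ℝ X] [AddCommGroup Y] [Module ℝ Y]
    (l : X →ₗ[ℝ] Y) (uN : Nn → X) (u : ∀ c, U c → X) (a : Nn) :
    ngen D R B nd (fun a => l (uN a)) (fun c x => l (u c x)) a = l (ngen D R B nd uN u a) := by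
  classical
  simp only [ngen, nsum, gen_map, map_add, map_sum, apply_ite l, map_zero]

/-- A plateau of a harmonic function contains an absorbing node. -/
theorem gplat (hD : ∀ a b, 0 ≤ D a b) (hR : ∀ c x y, 0 ≤ R c x y) (hA : GAbs D R B nd B0)
    {uN : Nn → ℝ} {u : ∀ c, U c → ℝ} (h1 : ∀ c x, x ∉ B c → gen (R c) (u c) x = 0)
    (h2 : ∀ a, a ∉ B0 → ngen D R B nd uN u a = 0) {m : ℝ} {XN : Set Nn} {X : ∀ c, Set (U c)}
    (hX : ∀ c, ∀ b ∈ B c, b ∈ X c ↔ nd c b ∈ XN) (h3 : ∀ a ∈ XN, uN a = m)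
    (h4 : ∀ c, ∀ x ∈ X c, u c x = m)
    (h5 : ∀ a ∈ XN, ∀ b, 0 < D a b → uN b ≤ m ∧ (uN b = m → b ∈ XN))
    (h6 : ∀ c, ∀ x ∈ X c, ∀ y, 0 < R c x y → u c y ≤ m ∧ (u c y = m → y ∈ X c))
    (h7 : XN.Nonempty ∨ ∃ c, (X c).Nonempty) : ∃ a ∈ XN, a ∈ B0 := by
  classical
  by_contra hn
  have key : ∀ {V : Type} [Fintype V] {Q : V → V → ℝ} {v : V → ℝ} {x : V}, (∀ y, 0 ≤ Q x y) →
      v x = m → (∀ y, 0 < Q x y → v y ≤ m) →
      gen Q v x ≤ 0 ∧ (gen Q v x = 0 → ∀ y, 0 < Q x y → v y = m) := by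
    intro V _ Q v x q0 q1 q2
    have q3 : ∀ y, Q x y • (v y - v x) ≤ 0 := fun y => by
      rcases (q0 y).eq_or_lt with h | h
      · rw [← h, zero_smul]
      · exact mul_nonpos_of_nonneg_of_nonpos h.le (sub_nonpos.2 ((q2 y h).trans q1.ge))
    refine ⟨Finset.sum_nonpos fun y _ => q3 y, fun h y hy => ?_⟩
    have q4 := (Finset.sum_eq_zero_iff_of_nonpos fun y _ => q3 y).1 h y (Finset.mem_univ y)
    exact (sub_eq_zero.1 ((mul_eq_zero.1 q4).resolve_left hy.ne')).trans q1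
  have kD := fun a (ha : a ∈ XN) => key (hD a) (h3 a ha) fun b h => (h5 a ha b h).1
  have kR := fun c x (hx : x ∈ X c) => key (hR c x) (h4 c x hx) fun y h => (h6 c x hx y h).1
  have t0 : ∀ a ∈ XN, ∀ c x, (if x ∈ B c ∧ nd c x = a then gen (R c) (u c) x else 0) ≤ 0 :=
    fun a ha c x => by
      split_ifs with h
      exacts [(kR c x ((hX c x h.1).2 (h.2 ▸ ha))).1, le_rfl]
  have t1 : ∀ a ∈ XN, gen D uN a = 0 ∧ nsum B nd (fun c b => gen (R c) (u c) b) a = 0 :=
    fun a ha => by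
      have e1 := h2 a fun h => hn ⟨a, ha, h⟩
      have e2 : nsum B nd (fun c b => gen (R c) (u c) b) a ≤ 0 :=
        Finset.sum_nonpos fun c _ => Finset.sum_nonpos fun x _ => t0 a ha c x
      rw [ngen] at e1
      constructor <;> linarith only [(kD a ha).1, e1, e2]
  refine hn (hA XN X hX (fun a ha b h => (h5 a ha b h).2 ((kD a ha).2 (t1 a ha).1 b h))
    (fun c x hx y h => (h6 c x hx y h).2 ((kR c x hx).2 ?_ y h)) h7)
  by_cases hb : x ∈ B c
  · have ha := (hX c x hb).1 hx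
    have e1 := (Finset.sum_eq_zero_iff_of_nonpos fun c _ =>
      Finset.sum_nonpos fun x _ => t0 _ ha c x).1 (t1 _ ha).2 c (Finset.mem_univ c)
    have e2 := (Finset.sum_eq_zero_iff_of_nonpos fun x _ => t0 _ ha c x).1 e1 x (Finset.mem_univ x)
    rwa [if_pos ⟨hb, rfl⟩] at e2
  · exact h1 c x hb

/-- A potential bounds the occupation integral. -/
theorem ggreen_le {GN μN kN fN : Nn → ℝ} {G μ k f : ∀ c, U c → ℝ} {δ : ℝ} (hG : Cmp B nd GN G)
    (g0 : ∀ a ∈ B0, GN a = 0) (g1 : ∀ a, 0 ≤ GN a) (g2 : ∀ c x, 0 ≤ G c x)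
    (hμN : ∀ a, 0 ≤ μN a) (hμ : ∀ c x, 0 ≤ μ c x)
    (h : -gsum D R GN G kN k ≤ msum B B0 (fun a => μN a * kN a) fun c x => μ c x * k c x)
    (k1 : ∀ a, kN a ≤ δ) (k2 : ∀ c x, k c x ≤ δ)
    (f1 : ∀ a, a ∉ B0 → fN a ≤ -ngen D R B nd kN k a)
    (f2 : ∀ c x, x ∉ B c → f c x ≤ -gen (R c) (k c) x) :
    msum B B0 (fun a => GN a * fN a) (fun c x => G c x * f c x) ≤ δ * msum B B0 μN μ := by
  classical
  rw [← msum_mul]
  refine le_trans ?_ (h.trans (msum_mono
    (fun a _ => (mul_le_mul_of_nonneg_left (k1 a) (hμN a)).trans_eq (mul_comm _ _))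
    fun c x _ => (mul_le_mul_of_nonneg_left (k2 c x) (hμ c x)).trans_eq (mul_comm _ _)))
  rw [gsum_split hG, msum, neg_add, ← Finset.sum_neg_distrib, ← Finset.sum_neg_distrib]
  refine add_le_add (Finset.sum_le_sum fun a _ => ?_) (Finset.sum_le_sum fun c _ => ?_)
  · split_ifs with ha
    · rw [g0 a ha, zero_mul, neg_zero]
    · rw [← mul_neg]
      exact mul_le_mul_of_nonneg_left (f1 a ha) (g1 a)
  · rw [← Finset.sum_neg_distrib]
    refine Finset.sum_le_sum fun x _ => ?_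
    split_ifs with hx
    · exact neg_zero.ge
    · rw [← mul_neg]
      exact mul_le_mul_of_nonneg_left (f2 c x hx) (g2 c x)

open Classical in
theorem msum_node {a : Nn} (ha : a ∉ B0) (fN : Nn → ℝ) (f : ∀ c, U c → ℝ) :
    msum B B0 (fun b => (if b = a then 1 else 0) * fN b) (fun c x => 0 * f c x) = fN a := by
  rw [msum, Finset.sum_eq_single a (fun b _ h => by simp [h]) (by simp only [Finset.mem_univ, not_true_eq_false, ↓ reduceIte, one_mul, ite_eq_left_iff, IsEmpty.forall_iff])]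
  simp only [ha, ↓ reduceIte, one_mul, zero_mul, ite_self, Finset.sum_const_zero, add_zero]

open Classical in
theorem msum_state {c : C} {x : U c} (hx : x ∉ B c) (fN : Nn → ℝ) (f : ∀ c, U c → ℝ) :
    msum B B0 (fun b => 0 * fN b)
      (fun c' y => (if (⟨c', y⟩ : Σ c, U c) = ⟨c, x⟩ then 1 else 0) * f c' y) = f c x := by
  have h4 : ∀ c', c' ≠ c → ∀ y : U c', (⟨c', y⟩ : Σ c, U c) ≠ ⟨c, x⟩ :=
    fun c' h y e => h (congrArg Sigma.fst e)
  rw [msum, Finset.sum_eq_single c (fun c' _ h => by simp only [h4 c' h, ↓ reduceIte, zero_mul, ite_self, Finset.sum_const_zero]) (by simp only [Finset.mem_univ, not_true_eq_false, Sigma.mk.injEq, heq_eq_eq, true_and, ite_mul, one_mul, zero_mul, IsEmpty.forall_iff]),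
    Finset.sum_eq_single x (fun y _ h => by simp [h]) (by simp only [Finset.mem_univ, not_true_eq_false, ↓ reduceIte, one_mul, ite_eq_left_iff, IsEmpty.forall_iff])]
  simp only [zero_mul, ite_self, Finset.sum_const_zero, hx, ↓ reduceIte, one_mul, zero_add]

end H16Glue

section H16FlowA

open Set H14 T55 Filter Topology Metric
open scoped BigOperators InnerProductSpace

variable {V : Type} [Fintype V] {Λ : Lens} {q : V → V → ℝ} {T : V → ℂ} {c : Cut V}

theorem Flow0.mem (h : Flow0 Λ q T) (a : V) : T a ∈ Λ.P := by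
  by_cases ha : T a ∈ Λ.Vt
  exacts [Λ.vt_mem ha, interior_subset (h.int a ha)]

/-- As `H14.Flow.place_vt`. -/
theorem Flow0.place_vt (h : Flow0 Λ q T) (hc : GoodCut T (fun e => 0 < q e.1 e.2) c) (u : c.Nd) :
    c.ext T u ∈ Λ.Vt ↔ ∃ b, T b ∈ Λ.Vt ∧ u = .inl b := by
  constructor
  · intro hu
    obtain ⟨b, hb⟩ := h.all _ hu
    exact ⟨b, hb ▸ hu, hc.old u b hb.symm⟩
  · rintro ⟨b, hb, rfl⟩
    exact hb

theorem h16flowa_edge (hq : ∀ a b, 0 ≤ q a b) {p p' : places c T}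
    (hp : 0 < mrg (place c T) (c.rate q) p p') : ∃ e : V × V, ∃ j ≤ c.N e, 0 < q e.1 e.2 ∧
      (((p : ℂ) = c.ext T (c.node e j) ∧ (p' : ℂ) = c.ext T (c.node e (j + 1))) ∨
        ((p : ℂ) = c.ext T (c.node e (j + 1)) ∧ (p' : ℂ) = c.ext T (c.node e j))) := by
  obtain ⟨a, a', rfl, rfl, hr⟩ := (mrg_pos_iff _ (c.rate_nonneg hq)).1 hp
  obtain ⟨e, j, hj, he, ⟨rfl, rfl⟩ | ⟨rfl, rfl⟩⟩ := c.of_rate_pos hq hr
  exacts [⟨e, j, hj, he, .inl ⟨rfl, rfl⟩⟩, ⟨e, j, hj, he, .inr ⟨rfl, rfl⟩⟩]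

/-- As `H14.Flow.pnet` (which does not use `stop`, `mu`, `src`). -/
theorem Flow0.pnet (h : Flow0 Λ q T) (hc : GoodCut T (fun e => 0 < q e.1 e.2) c) :
    PNet Λ (places c T) (mrg (place c T) (c.rate q)) := by
  have hre : ∀ (e : V × V) (j : ℕ), j ≤ c.N e → 0 < q e.1 e.2 →
      (c.ext T (c.node e j)).re ≠ (c.ext T (c.node e (j + 1))).re := fun e j hj he h0 => by
    rw [Flow.pnet_step T e hj, Complex.add_re, Complex.smul_re, left_eq_add, smul_eq_mul,
      mul_eq_zero, dir, Complex.sub_re, sub_eq_zero, Cut.len, sub_eq_zero] at h0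
    exact h0.elim (c.lt e j hj).ne' (h.vert _ _ he).symm
  refine ⟨mrg_nonneg _ (c.rate_nonneg h.nonneg), fun p hp => ?_, ?_, fun p hp => ?_,
    fun p p' hp => ?_, fun p p' hp r hr => ?_, fun p p' r r' hp hr z hz hz' => ?_⟩
  · obtain ⟨u, hu⟩ := Flow.pnet_surj (c := c) (T := T) ⟨p, hp⟩
    obtain rfl : c.ext T u = p := congrArg Subtype.val hu
    rcases u with a | ⟨e, j⟩
    · exact h.mem a
    · exact (Λ.convex_reg 0).lineMap_mem (h.mem _) (h.mem _)
        (c.τ_mem e (Nat.succ_le_succ j.2.le))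
  · refine (abs_mrg Flow.pnet_surj (c.rate_nonneg h.nonneg)
      (c.abs h.nonneg h.abs hc.act)).mono ?_ fun _ _ => id
    rintro _ ⟨u, ⟨b, hb, rfl⟩, rfl⟩
    exact hb
  · rw [gen_mrg]
    refine Finset.sum_eq_zero fun u _ => ?_
    split_ifs with hu
    · subst hu
      rcases u with a | ⟨e, j⟩
      · exact (c.gen_ext_inl T a).trans (h.harmT a hp)
      · exact c.gen_ext_inr T e j
    · rfl
  · obtain ⟨e, j, hj, he, ⟨h1, h2⟩ | ⟨h1, h2⟩⟩ := h16flowa_edge h.nonneg hp <;> rw [h1, h2]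
    exacts [hre e j hj he, (hre e j hj he).symm]
  · obtain ⟨u, rfl⟩ := Flow.pnet_surj r
    obtain ⟨e, j, hj, he, ⟨h1, h2⟩ | ⟨h1, h2⟩⟩ := h16flowa_edge h.nonneg hp
    · rw [h1, h2] at hr
      exact (hc.node e he j hj u hr).imp (fun e => Subtype.ext (e.trans h1.symm))
        fun e => Subtype.ext (e.trans h2.symm)
    · rw [h1, h2, segment_symm] at hr
      exact (hc.node e he j hj u hr).symm.imp (fun e => Subtype.ext (e.trans h1.symm))
        fun e => Subtype.ext (e.trans h2.symm)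
  · have hn : (∃ u, c.ext T u = z) → z ∈ places c T := by
      rintro ⟨u, rfl⟩
      exact (place c T u).2
    simp only [Subtype.ext_iff]
    obtain ⟨e, j, hj, he, ⟨h1, h2⟩ | ⟨h1, h2⟩⟩ := h16flowa_edge h.nonneg hp <;>
      obtain ⟨e', j', hj', he', ⟨h3, h4⟩ | ⟨h3, h4⟩⟩ := h16flowa_edge h.nonneg hr <;>
        rw [h1, h2] at hz ⊢ <;> rw [h3, h4] at hz' ⊢
    · exact (hc.planar e e' he he' j hj j' hj' z hz hz').imp_left hn
    · rw [segment_symm] at hz'
      exact (hc.planar e e' he he' j hj j' hj' z hz hz').imp hn Or.symm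
    · rw [segment_symm] at hz
      exact (hc.planar e e' he he' j hj j' hj' z hz hz').imp hn
        fun h => h.symm.imp And.symm And.symm
    · rw [segment_symm] at hz hz'
      exact (hc.planar e e' he he' j hj j' hj' z hz hz').imp hn fun h => h.imp And.symm And.symm

/-- As `H14.Flow.seg_sub`. -/
theorem Flow0.seg_sub (h : Flow0 Λ q T) {a b : V} (hab : 0 < q a b) :
    segment ℝ (T a) (T b) ⊆ Eg (mrg (place c T) (c.rate q)) := by
  classical
  intro z hz
  rw [segment_eq_image_lineMap] at hz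
  obtain ⟨t, ht, rfl⟩ := hz
  have hex : ∃ j, t ≤ c.τ (a, b) (j + 1) := ⟨c.N (a, b), by rw [c.one]; exact ht.2⟩
  have hj : Nat.find hex ≤ c.N (a, b) := Nat.find_min' hex (by rw [c.one]; exact ht.2)
  have h1 : c.τ (a, b) (Nat.find hex) ≤ t := by
    rcases Nat.eq_zero_or_eq_succ_pred (Nat.find hex) with h0 | h0
    · rw [h0, c.zero]
      exact ht.1
    · rw [h0]
      exact (not_le.1 (Nat.find_min hex (by omega))).le
  refine ⟨place c T (c.node (a, b) (Nat.find hex)), place c T (c.node (a, b) (Nat.find hex + 1)),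
    (mrg_pos_iff _ (c.rate_nonneg h.nonneg)).2 ⟨_, _, rfl, rfl, c.rate_fwd h.nonneg hab hj⟩, ?_⟩
  show _ ∈ segment ℝ (c.ext T _) (c.ext T _)
  rw [c.ext_node T _ (Nat.succ_le_succ hj), c.ext_node T _ (hj.trans (Nat.le_succ _)),
    ← image_segment ℝ (AffineMap.lineMap (T a) (T b)), segment_eq_Icc (c.lt _ _ hj).le]
  exact ⟨t, ⟨h1, Nat.find_spec hex⟩, rfl⟩

theorem h16flowa_node (T : V → ℂ) (e : V × V) {j : ℕ} (hj : j ≤ c.N e + 1) :
    c.ext T (c.node e j) ∈ segment ℝ (T e.1) (T e.2) := by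
  rw [c.ext_node T e hj, segment_eq_image_lineMap]
  exact ⟨_, c.τ_mem e hj, rfl⟩

theorem h16flowa_cable (h : Flow0 Λ q T) {a b : V} (hab : 0 < q a b) {z : ℂ}
    (hz : z ∈ segment ℝ (T a) (T b)) (hf : z ∈ frontier Λ.P) : z ∈ Λ.Vt := by
  have hP : Convex ℝ Λ.P := Λ.convex_reg 0
  rw [← insert_endpoints_openSegment] at hz
  rcases hz with rfl | rfl | hz
  · by_contra ha
    exact hf.2 (h.int a ha)
  · by_contra hb
    exact hf.2 (h.int b hb)
  · refine absurd ?_ hf.2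
    by_cases ha : T a ∈ Λ.Vt
    · have hb : T b ∉ Λ.Vt := fun hb => hab.ne' (h.novv a b ha hb)
      exact hP.openSegment_self_interior_subset_interior (h.mem a) (h.int b hb) hz
    · exact hP.openSegment_interior_self_subset_interior (h.int a ha) (h.mem b) hz

/-- Edges and nodes meet the frontier only in corners. Hint: an edge lies in a cable
`segment (T a) (T b)` with `0 < q a b`; one end is in the interior (`novv`, `int`), so a point of
the cable is an end or lies in the interior (`Convex.openSegment_interior_self_subset_interior`,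
`Convex.openSegment_self_interior_subset_interior`). A subdivision node lies on an active cable
(`hc.act`). -/
theorem Flow0.inner (h : Flow0 Λ q T) (hc : GoodCut T (fun e => 0 < q e.1 e.2) c) {z : ℂ}
    (hz : z ∈ Eg (mrg (place c T) (c.rate q)) ∪ places c T) (hf : z ∈ frontier Λ.P) :
    z ∈ Λ.Vt := by
  rcases hz with ⟨p, p', hp, hz⟩ | hz
  · obtain ⟨e, j, hj, he, hh⟩ := h16flowa_edge h.nonneg hp
    have k1 := h16flowa_node (c := c) T e (hj.trans (Nat.le_succ _))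
    have k2 := h16flowa_node (c := c) T e (Nat.succ_le_succ hj)
    refine h16flowa_cable h he ?_ hf
    rcases hh with ⟨h1, h2⟩ | ⟨h1, h2⟩ <;> rw [h1, h2] at hz
    · exact (convex_segment _ _).segment_subset k1 k2 hz
    · exact (convex_segment _ _).segment_subset k2 k1 hz
  · obtain ⟨u, hu⟩ := Flow.pnet_surj (c := c) (T := T) ⟨z, hz⟩
    obtain rfl : c.ext T u = z := congrArg Subtype.val hu
    rcases u with a | ⟨e, j⟩
    · by_contra ha
      exact hf.2 (h.int a ha)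
    · have hj := j.2
      refine h16flowa_cable h (hc.act e (by omega)) ?_ hf
      rw [← c.node_succ e j]
      exact h16flowa_node T e (by omega)

/-- At an old node the merged generator is the generator of the cut flow (`gen_mrg`, `hc.old`). -/
theorem Flow0.gen_old (hc : GoodCut T (fun e => 0 < q e.1 e.2) c) {E : Type} [AddCommGroup E]
    [Module ℝ E] (g : places c T → E) (a : V) :
    gen (mrg (place c T) (c.rate q)) g (place c T (.inl a)) =
      gen (c.rate q) (fun u => g (place c T u)) (.inl a) := by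
  classical
  rw [gen_mrg, Finset.sum_eq_single (Sum.inl a : c.Nd)]
  · rw [if_pos rfl]
  · intro u _ hu
    exact if_neg fun h' => hu (hc.old u a (congrArg Subtype.val h'))
  · intro h'
    exact absurd (Finset.mem_univ _) h'

/-- A set closed under the jumps of the cut flow, see the proof of `Cut.abs`. -/
theorem cut_closed (hq : ∀ a b, 0 ≤ q a b) (hN : ∀ e, c.N e ≠ 0 → 0 < q e.1 e.2) {S : Set c.Nd}
    (hS : ∀ u ∈ S, ∀ u', 0 < c.rate q u u' → u' ∈ S) :
    (∀ a b, Sum.inl a ∈ S → 0 < q a b → Sum.inl b ∈ S) ∧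
      (S.Nonempty → ∃ a, Sum.inl a ∈ S) := by
  have hlast : ∀ e : V × V, 0 < q e.1 e.2 → ∀ j, j ≤ c.N e + 1 → c.node e j ∈ S →
      Sum.inl e.2 ∈ S := by
    intro e he j hj hjS
    rw [← c.node_last e]
    induction hj' : c.N e + 1 - j generalizing j with
    | zero =>
      have : j = c.N e + 1 := by omega
      rwa [← this]
    | succ k ih =>
      exact ih (j + 1) (by omega) (hS _ hjS _ (c.rate_fwd hq he (by omega))) (by omega)
  refine ⟨fun a b ha hab => hlast (a, b) hab 0 (Nat.zero_le _) (by rwa [c.node_zero]), ?_⟩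
  rintro ⟨u, hu⟩
  rcases u with a | ⟨e, j⟩
  · exact ⟨a, hu⟩
  · have hj := j.2
    exact ⟨e.2, hlast e (hN e (by omega)) (j + 1) (by omega) (by rwa [c.node_succ])⟩

theorem h16flowa_xing_node (hq : ∀ a b, 0 ≤ q a b) (hc : GoodCut T (fun e => 0 < q e.1 e.2) c)
    (e : V × V) (j : Fin (c.N e)) :
    0 < c.len e j ∧ 0 < c.len e (j + 1) ∧ 0 < q e.1 e.2 * (1 - c.τ e (j + 1)) ∧
      0 < mrg (place c T) (c.rate q) (place c T (.inr ⟨e, j⟩)) (place c T (c.node e (j + 2))) ∧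
      0 < mrg (place c T) (c.rate q) (place c T (.inr ⟨e, j⟩)) (place c T (c.node e j)) ∧
      c.ext T (c.node e (j + 2)) = c.ext T (.inr ⟨e, j⟩) + c.len e (j + 1) • dir T e ∧
      c.ext T (c.node e j) = c.ext T (.inr ⟨e, j⟩) - c.len e j • dir T e := by
  have hj := j.2
  have he : 0 < q e.1 e.2 := hc.act e (by omega)
  have h1 : c.τ e (j + 1) < 1 := (c.τ_lt e (Nat.succ_lt_succ hj) le_rfl).trans_eq (c.one e)
  rw [← c.node_succ e j]
  refine ⟨sub_pos.2 (c.lt e j hj.le), sub_pos.2 (c.lt e _ hj), mul_pos he (sub_pos.2 h1),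
    (mrg_pos_iff _ (c.rate_nonneg hq)).2 ⟨_, _, rfl, rfl, c.rate_fwd hq he hj⟩,
    (mrg_pos_iff _ (c.rate_nonneg hq)).2 ⟨_, _, rfl, rfl, c.rate_bwd hq he hj⟩,
    Flow.pnet_step T e hj, ?_⟩
  rw [Flow.pnet_step T e hj.le, add_sub_cancel_right]

theorem h16flowa_xing (hq : ∀ a b, 0 ≤ q a b) (hc : GoodCut T (fun e => 0 < q e.1 e.2) c)
    {g : places c T → ℝ} {lam : ℝ} (hl : 0 < lam) {u u' : c.Nd}
    (hp : place c T u = place c T u')
    (h1 : 0 < gen (c.rate q) (fun b => g (place c T b)) u)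
    (h2 : gen (c.rate q) (fun b => g (place c T b)) u' < 0) :
    ∃ v w a a' b b', Xing (mrg (place c T) (c.rate q)) g (place c T u) v w a a' b b' ∧ a ≤ a' ∧
      b ≤ b' ∧ gen (c.rate q) (fun b => g (place c T b)) u *
        -gen (c.rate q) (fun b => g (place c T b)) u' =
          link c q T lam u u' * (lam⁻¹ * ((a' - a) * (b' - b) / |det2 v w|)) := by
  have hp' : c.ext T u = c.ext T u' := congrArg Subtype.val hp
  have hne : u ≠ u' := fun e => by
    subst e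
    exact lt_asymm h1 h2
  rcases u with a | ⟨e, j⟩
  · exact absurd (hc.old u' a hp'.symm).symm hne
  rcases u' with a | ⟨e', j'⟩
  · exact absurd (hc.old _ a hp') hne
  obtain ⟨l0, l1, hd, r1, r3, x1, x3⟩ := h16flowa_xing_node hq hc e j
  obtain ⟨l0', l1', hd', r2, r4, x2, x4⟩ := h16flowa_xing_node hq hc e' j'
  rw [c.gen_inr] at h1 h2 ⊢
  rw [c.gen_inr]
  simp only [smul_eq_mul] at h1 h2 ⊢
  rw [← hp] at h2 r2 r4 ⊢
  rw [← hp'] at x2 x4
  have k1 := (mul_pos_iff_of_pos_left hd).1 h1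
  have k2 := neg_of_mul_neg_right h2 hd'.le
  have hdet : det2 (dir T e) (dir T e') ≠ 0 := fun h0 => by
    rcases hc.par e e' j j' hp' h0 with ⟨rfl, h3⟩ | ⟨h3, h4, h5, h6⟩
    · exact hne (by rw [Fin.ext h3])
    · have e3 : place c T (c.node e j) = place c T (c.node e' (j' + 2)) := Subtype.ext h3
      have e4 : place c T (c.node e (j + 2)) = place c T (c.node e' j') := Subtype.ext h4
      rw [e3, e4, h5, h6] at k1
      linarith only [k1, k2]
  refine ⟨dir T e, dir T e', _, _, _, _, ⟨hdet, place c T (c.node e (j + 2)),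
    place c T (c.node e' (j' + 2)), place c T (c.node e j), place c T (c.node e' j'), _, _, _, _,
    l1, l1', l0, l0', r1, r2, r3, r4, x1, x3, x2, x4, (mul_inv_cancel_left₀ l1.ne' _).symm,
    (mul_inv_cancel_left₀ l0.ne' _).symm, (mul_inv_cancel_left₀ l1'.ne' _).symm,
    (mul_inv_cancel_left₀ l0'.ne' _).symm⟩, (sub_pos.1 k1).le, (sub_neg.1 k2).le, ?_⟩
  have ha : |det2 (dir T e) (dir T e')| ≠ 0 := abs_ne_zero.2 hdet
  have hl' := hl.ne'
  simp only [link, if_pos hp']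
  generalize (c.len e (j + 1))⁻¹ * _ = A', (c.len e j)⁻¹ * _ = A, (c.len e' (j' + 1))⁻¹ * _ = C,
    (c.len e' j')⁻¹ * _ = C'
  field_simp
  ring

/-- The kinks. Hint: copy `Flow.xing_node`, `Flow.xing` and the first half of `Flow.est`
(`est_max`, `PNet.kink_sum`); `A p` is `lam⁻¹` times the largest area at `p`. -/
theorem Flow0.area (h : Flow0 Λ q T) (hc : GoodCut T (fun e => 0 < q e.1 e.2) c)
    {g : places c T → ℝ}
    (hg : ∀ p : places c T, (p : ℂ) ∉ Λ.Vt → gen (mrg (place c T) (c.rate q)) g p = 0)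
    {L₀ lam : ℝ} (hL₀ : 0 ≤ L₀)
    (hb : ∀ a b : places c T, (a : ℂ) ∈ Λ.Vt → (b : ℂ) ∈ Λ.Vt → |g a - g b| ≤ L₀ * ‖(a : ℂ) - b‖)
    (hl : 0 < lam) :
    ∃ A : places c T → ℝ, (∀ p, 0 ≤ A p) ∧
      ∑ p, A p ≤ lam⁻¹ * ((Λ.Vt.card : ℝ) ^ 2 * (Real.pi * (L₀ / Λ.c₀ + 1) ^ 2)) ∧
      ∀ u u', c.ext T u ∉ Λ.Vt → c.ext T u' ∉ Λ.Vt → place c T u = place c T u' →
        0 < gen (c.rate q) (fun b => g (place c T b)) u →
        gen (c.rate q) (fun b => g (place c T b)) u' < 0 →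
        gen (c.rate q) (fun b => g (place c T b)) u *
          -gen (c.rate q) (fun b => g (place c T b)) u' ≤ link c q T lam u u' * A (place c T u) := by
  have hN := h.pnet hc
  have harea : ∀ p : places c T, ∃ x, 0 ≤ x ∧
      (x = 0 ∨ ∃ v w a a' b b', Xing (mrg (place c T) (c.rate q)) g p v w a a' b b' ∧ a ≤ a' ∧
        b ≤ b' ∧ x = (a' - a) * (b' - b) / |det2 v w|) ∧
      ∀ i : c.Nd × c.Nd, (place c T i.1 = p ∧ place c T i.1 = place c T i.2 ∧
        0 < gen (c.rate q) (fun b => g (place c T b)) i.1 ∧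
        gen (c.rate q) (fun b => g (place c T b)) i.2 < 0) →
        gen (c.rate q) (fun b => g (place c T b)) i.1 *
          -gen (c.rate q) (fun b => g (place c T b)) i.2 ≤
            link c q T lam i.1 i.2 * (lam⁻¹ * x) := by
    intro p
    refine est_max (Or.inl rfl) ?_ ?_
    · intro i x y hxy hx
      refine hx.trans (mul_le_mul_of_nonneg_left ?_ (link_nonneg c h.nonneg T hl.le _ _))
      exact mul_le_mul_of_nonneg_left hxy (inv_nonneg.2 hl.le)
    · rintro i ⟨rfl, i4, i5, i6⟩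
      obtain ⟨v, w, a, a', b, b', hx, ha, hb', he⟩ := h16flowa_xing h.nonneg hc hl i4 i5 i6
      exact ⟨_, div_nonneg (mul_nonneg (sub_nonneg.2 ha) (sub_nonneg.2 hb')) (abs_nonneg _),
        Or.inr ⟨v, w, a, a', b, b', hx, ha, hb', rfl⟩, he.le⟩
  choose A hA0 hA1 hA2 using harea
  have hsum := hN.kink_sum hg hL₀ hb hA1
  refine ⟨fun p => lam⁻¹ * A p, fun p => mul_nonneg (inv_nonneg.2 hl.le) (hA0 p), ?_,
    fun u u' _ _ hp k1 k2 => hA2 _ (u, u') ⟨rfl, hp, k1, k2⟩⟩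
  rw [← Finset.mul_sum]
  exact mul_le_mul_of_nonneg_left hsum (inv_nonneg.2 hl.le)

end H16FlowA

section H16Flow

open Set H14 T55 Filter Topology Metric
open scoped BigOperators InnerProductSpace

variable {V : Type} [Fintype V] {Λ : Lens} {q : V → V → ℝ} {T : V → ℂ} {c : Cut V}

theorem h16flow_sub (v p x y : ℂ) : det2 v (x - p) - det2 v (y - p) = det2 v (x - y) := by
  simp only [det2, Complex.sub_re, Complex.sub_im]
  ring

theorem h16flow_lip (v p x y : ℂ) : |det2 v (x - p)| - |det2 v (y - p)| ≤ ‖v‖ * ‖x - y‖ := by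
  have h1 := abs_sub_abs_le_abs_sub (det2 v (x - p)) (det2 v (y - p))
  rw [h16flow_sub] at h1
  exact h1.trans (est_det _ _)

theorem h16flow_det {a : V} (h2 : gen q T a = 0) (v p : ℂ) :
    ∑ b, q a b * (det2 v (T b - p) - det2 v (T a - p)) = 0 := by
  have h3 := congrArg Complex.re h2
  have h4 := congrArg Complex.im h2
  simp only [gen, Complex.re_sum, Complex.im_sum, Complex.smul_re, Complex.smul_im, smul_eq_mul,
    Complex.zero_re, Complex.zero_im] at h3 h4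
  have h5 : ∑ b, q a b * (det2 v (T b - p) - det2 v (T a - p)) =
      v.re * ∑ b, q a b * (T b - T a).im - v.im * ∑ b, q a b * (T b - T a).re := by
    rw [Finset.mul_sum, Finset.mul_sum, ← Finset.sum_sub_distrib]
    refine Finset.sum_congr rfl fun b _ => ?_
    simp only [det2, Complex.sub_re, Complex.sub_im]
    ring
  rw [h5, h3, h4, mul_zero, mul_zero, sub_self]

theorem h16flow_edge {v p x y : ℂ} {t : ℝ} (t0 : 0 < t) (t1 : t < 1)
    (t2 : det2 v (AffineMap.lineMap x y t - p) = 0) :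
    (1 - t) * |det2 v (y - x)| ≤
      |det2 v (y - p)| - (if 0 ≤ det2 v (x - p) then 1 else -1) * det2 v (y - p) := by
  have e1 : (1 - t) * det2 v (x - p) + t * det2 v (y - p) = 0 := by
    rw [← t2, AffineMap.lineMap_apply_module]
    simp only [det2, Complex.sub_re, Complex.sub_im, Complex.add_re, Complex.add_im,
      Complex.smul_re, Complex.smul_im, smul_eq_mul]
    ring
  have e3 : (1 - t) * |det2 v (y - x)| = |det2 v (y - p)| := by
    rw [← abs_of_pos (sub_pos.2 t1), ← abs_mul, ← h16flow_sub v p]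
    congr 1
    linear_combination -e1
  have e4 : (if 0 ≤ det2 v (x - p) then 1 else -1) * det2 v (y - p) ≤ 0 := by
    split_ifs with h0
    · rw [one_mul]
      by_contra h9
      have := mul_pos t0 (not_le.1 h9)
      have := mul_nonneg (sub_pos.2 t1).le h0
      linarith
    · rw [neg_one_mul, neg_nonpos]
      by_contra h9
      have := mul_pos t0 (neg_pos.2 (not_le.1 h9))
      have := mul_pos (sub_pos.2 t1) (neg_pos.2 (not_le.1 h0))
      linarith
  linarith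

/-- The harmonic extension near a corner. -/
theorem h16flow_corner (h : Flow0 Λ q T) (v p : ℂ) {b : V} (hb : T b ∈ Λ.Vt) (a : V) :
    harm q {a | T a ∈ Λ.Vt} (fun x => |det2 v (T x - p)|) a - |det2 v (T a - p)| ≤
      (1 + 1 / Λ.c₀) * ‖v‖ * ‖T a - T b‖ := by
  obtain ⟨n, hn, hn'⟩ := Λ.expo _ hb
  have hc := Λ.c_pos
  have hk : 0 ≤ ‖v‖ / Λ.c₀ := div_nonneg (norm_nonneg _) hc.le
  have h1 := mat_det_max h.nonneg h.abs (u := fun x =>
    harm q {a | T a ∈ Λ.Vt} (fun x => |det2 v (T x - p)|) x - |det2 v (T b - p)| -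
      ‖v‖ / Λ.c₀ * ⟪n, T x - T b⟫_ℝ) (fun x hx => ?_) (fun x hx => ?_) a
  · have h2 := h16flow_lip v p (T b) (T a)
    rw [norm_sub_rev] at h2
    have h3 := real_inner_le_norm n (T a - T b)
    rw [hn, one_mul] at h3
    have h4 := mul_le_mul_of_nonneg_left h3 hk
    have h5 : (1 + 1 / Λ.c₀) * ‖v‖ * ‖T a - T b‖ =
        ‖v‖ * ‖T a - T b‖ + ‖v‖ / Λ.c₀ * ‖T a - T b‖ := by ring
    linarith
  · have h2 := harm_gen h.nonneg h.abs (fun x => |det2 v (T x - p)|) hx
    have h3 := gen_map q T (innerₗ ℂ n) x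
    rw [h.harmT x hx, map_zero] at h3
    simp only [gen, smul_eq_mul, innerₗ_apply_apply] at h2 h3 ⊢
    refine le_of_eq ?_
    rw [← sub_zero (0 : ℝ), ← mul_zero (‖v‖ / Λ.c₀)]
    nth_rewrite 1 [mul_zero]
    rw [← h2]
    nth_rewrite 2 [h2]
    rw [← h3, Finset.mul_sum, ← Finset.sum_sub_distrib]
    refine Finset.sum_congr rfl fun y _ => ?_
    simp only [inner_sub_right]
    ring
  · rw [harm_bd h.nonneg h.abs _ hx]
    have h2 := h16flow_lip v p (T x) (T b)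
    have h3 := mul_le_mul_of_nonneg_left (hn' (T x) (h.mem x)) hk
    rw [← mul_assoc, div_mul_cancel₀ _ hc.ne'] at h3
    linarith

open Classical in
theorem h16flow_inner (h : Flow0 Λ q T) {μ : V → ℝ} (hμ : ∀ a, 0 ≤ μ a)
    (hsrc : ∀ a, T a ∉ Λ.Vt → μ a = ∑ b, q a b - ∑ b, q b a) {v p : ℂ} (hp : p ∈ Λ.P) :
    (∑ a, if T a ∈ Λ.Vt then 0 else ∑ b, q a b * (|det2 v (T b - p)| - |det2 v (T a - p)|)) ≤
      4 * ‖v‖ * (∑ a, if T a ∈ Λ.Vt then 0 else μ a) +
        (1 + 1 / Λ.c₀) * ‖v‖ * ∑ b, if T b ∈ Λ.Vt then ∑ a, q b a * ‖T a - T b‖ else 0 := by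
  obtain ⟨u, hu⟩ : ∃ u : V → ℝ, u = fun x => |det2 v (T x - p)| := ⟨_, rfl⟩
  obtain ⟨w, hw⟩ : ∃ w : V → ℝ, w = harm q {a | T a ∈ Λ.Vt} u := ⟨_, rfl⟩
  have hu' : ∀ x, |det2 v (T x - p)| = u x := fun x => by rw [hu]
  have h1 : ∀ a, T a ∈ Λ.Vt → w a = u a := fun a ha => hw ▸ harm_bd h.nonneg h.abs u ha
  have h2 : ∀ a, T a ∉ Λ.Vt → gen q w a = 0 := fun a ha => hw ▸ harm_gen h.nonneg h.abs u ha
  have h3 : ∀ a, w a ≤ 4 * ‖v‖ := fun a => by
    refine harm_mem h.nonneg h.abs h2 (convex_Iic (4 * ‖v‖)) (fun b hb => ?_) a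
    rw [mem_Iic, h1 b hb, ← hu']
    have e1 : ‖T b‖ ≤ 2 := Λ.norm_le (by norm_num) (h.mem b)
    have e2 : ‖p‖ ≤ 2 := Λ.norm_le (s := 0) (by norm_num) hp
    have e3 := norm_sub_le (T b) p
    have e4 := est_det v (T b - p)
    nlinarith only [norm_nonneg v, e1, e2, e3, e4]
  have h4 : ∀ b, T b ∈ Λ.Vt → ∀ a, w a - u a ≤ (1 + 1 / Λ.c₀) * ‖v‖ * ‖T a - T b‖ :=
    fun b hb a => by
      rw [hw, hu]
      exact h16flow_corner h v p hb a
  have h5 : ∑ a, ∑ b, q a b * ((u b - w b) - (u a - w a)) =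
      ∑ a, (u a - w a) * (∑ b, q b a - ∑ b, q a b) := by
    simp only [mul_sub (q _ _) (u _ - w _), mul_sub (u _ - w _), Finset.sum_sub_distrib]
    rw [Finset.sum_comm]
    simp only [mul_comm (u _ - w _), Finset.sum_mul]
  have h6 : ∑ a, (u a - w a) * (∑ b, q b a - ∑ b, q a b) ≤
      4 * ‖v‖ * (∑ a, if T a ∈ Λ.Vt then 0 else μ a) := by
    rw [Finset.mul_sum]
    refine Finset.sum_le_sum fun a _ => ?_
    split_ifs with ha
    · rw [h1 a ha, sub_self, zero_mul, mul_zero]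
    · have e1 : ∑ b, q b a - ∑ b, q a b = -μ a := by rw [hsrc a ha, neg_sub]
      have e2 : 0 ≤ u a := by rw [← hu']; exact abs_nonneg _
      have e3 := mul_le_mul_of_nonneg_right (show w a - u a ≤ 4 * ‖v‖ by linarith [h3 a]) (hμ a)
      rw [e1]
      linarith
  simp only [hu']
  refine le_trans ?_ (add_le_add (h5.trans_le h6) le_rfl)
  rw [Finset.mul_sum, ← Finset.sum_add_distrib]
  refine Finset.sum_le_sum fun a _ => ?_
  split_ifs with ha
  · rw [Finset.mul_sum, ← Finset.sum_add_distrib]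
    refine Finset.sum_nonneg fun b _ => ?_
    have e1 := mul_le_mul_of_nonneg_left (h4 a ha b) (h.nonneg a b)
    rw [h1 a ha]
    linarith
  · have e1 := h2 a ha
    simp only [gen, smul_eq_mul] at e1
    rw [mul_zero, add_zero, ← sub_zero (∑ b, q a b * (u b - u a)), ← e1, ← Finset.sum_sub_distrib]
    exact le_of_eq (Finset.sum_congr rfl fun b _ => by ring)

open Classical in
/-- Local time on a line when the corners emit. Plan: `h a = det2 v (T a - p)`, `u = |h|`,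
`B = {a | T a ∈ Λ.Vt}`, `S = ∑ over b ∈ B, a of q b a * ‖T a - T b‖`. Cables that start in `B`
contribute at most `‖v‖ * S` (`est_det`). For `a ∉ B`, as in `H14.local_time`,
`gen q u a = ∑ b, q a b * (|h b| - σ a * h b)`, so the other cables contribute at most
`∑ over a ∉ B of gen q u a`. Let `u' = harm q B u`, `f = u - u'` (zero on `B`, and
`gen q f = gen q u` off `B`). Exchange of sums: `∑ a, gen q f a = ∑ a, f a * (in a - out a) =
- ∑ over a ∉ B of μ a * f a ≤ 4 ‖v‖ ∑ μ` since `- f ≤ u' ≤ 4 ‖v‖` (`harm_mem`, `p ∈ Λ.P`,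
`norm_le`). For `b ∈ B`: `- gen q f b = ∑ a, q b a * (u' a - u a)`, and
`u' a - u a ≤ (1 + 1 / c₀) ‖v‖ ‖T a - T b‖`: `u b - u a ≤ ‖v‖ ‖T a - T b‖`, and with `n` from
`Λ.expo` at `T b` the harmonic function `u' - u b - (‖v‖ / c₀) ⟪n, T · - T b⟫` is `≤ 0` on `B`,
so everywhere (`mat_det_max`, `gen_map`). -/
theorem Flow0.local_time (h : Flow0 Λ q T) {μ : V → ℝ} (hμ : ∀ a, 0 ≤ μ a)
    (hsrc : ∀ a, T a ∉ Λ.Vt → μ a = ∑ b, q a b - ∑ b, q b a) {v p : ℂ} (hp : p ∈ Λ.P)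
    (s : Finset (V × V)) (t : V × V → ℝ) (ht : ∀ e ∈ s, 0 < t e ∧ t e < 1 ∧
      det2 v (AffineMap.lineMap (T e.1) (T e.2) (t e) - p) = 0) :
    ∑ e ∈ s, q e.1 e.2 * (1 - t e) * |det2 v (dir T e)| ≤
      (4 * (∑ a, if T a ∈ Λ.Vt then 0 else μ a) +
        (2 + 1 / Λ.c₀) * ∑ b, if T b ∈ Λ.Vt then ∑ a, q b a * ‖T a - T b‖ else 0) * ‖v‖ := by
  have h0 := h16flow_inner h hμ hsrc (v := v) hp
  obtain ⟨W, hW⟩ : ∃ W : V × V → ℝ, ∀ e, W e = if T e.1 ∈ Λ.Vt then
      q e.1 e.2 * (‖v‖ * ‖T e.2 - T e.1‖) else q e.1 e.2 * (|det2 v (T e.2 - p)| -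
        (if 0 ≤ det2 v (T e.1 - p) then 1 else -1) * det2 v (T e.2 - p)) := ⟨_, fun _ => rfl⟩
  have h1 : ∀ e, 0 ≤ W e := fun e => by
    rw [hW]
    split_ifs
    · exact mul_nonneg (h.nonneg _ _) (mul_nonneg (norm_nonneg _) (norm_nonneg _))
    · exact mul_nonneg (h.nonneg _ _) (by linarith only [le_abs_self (det2 v (T e.2 - p))])
    · exact mul_nonneg (h.nonneg _ _) (by linarith only [neg_le_abs (det2 v (T e.2 - p))])
  have h2 : ∀ e ∈ s, q e.1 e.2 * (1 - t e) * |det2 v (dir T e)| ≤ W e := fun e he => by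
    obtain ⟨t0, t1, t2⟩ := ht e he
    rw [hW, mul_assoc, dir]
    by_cases ha : T e.1 ∈ Λ.Vt
    · rw [if_pos ha]
      refine mul_le_mul_of_nonneg_left ?_ (h.nonneg _ _)
      exact (mul_le_of_le_one_left (abs_nonneg _) (by linarith only [t0])).trans (est_det _ _)
    · rw [if_neg ha]
      exact mul_le_mul_of_nonneg_left (h16flow_edge t0 t1 t2) (h.nonneg _ _)
  have h3 : ∀ a, ∑ b, W (a, b) =
      (if T a ∈ Λ.Vt then 0 else ∑ b, q a b * (|det2 v (T b - p)| - |det2 v (T a - p)|)) +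
        ‖v‖ * if T a ∈ Λ.Vt then ∑ b, q a b * ‖T b - T a‖ else 0 := fun a => by
    simp only [hW]
    by_cases ha : T a ∈ Λ.Vt
    · simp only [if_pos ha, zero_add, Finset.mul_sum]
      exact Finset.sum_congr rfl fun b _ => by ring
    · simp only [if_neg ha, mul_zero, add_zero]
      have e1 := h16flow_det (h.harmT a ha) v p
      have e2 : (if 0 ≤ det2 v (T a - p) then 1 else -1) * det2 v (T a - p) =
          |det2 v (T a - p)| := by
        split_ifs with h0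
        · rw [one_mul, abs_of_nonneg h0]
        · rw [neg_one_mul, abs_of_neg (not_le.1 h0)]
      have e3 : ∀ σ : ℝ, σ * det2 v (T a - p) = |det2 v (T a - p)| →
          ∑ b, q a b * (|det2 v (T b - p)| - σ * det2 v (T b - p)) =
          ∑ b, q a b * (|det2 v (T b - p)| - |det2 v (T a - p)|) -
            σ * ∑ b, q a b * (det2 v (T b - p) - det2 v (T a - p)) := fun σ hσ => by
        rw [Finset.mul_sum, ← Finset.sum_sub_distrib]
        refine Finset.sum_congr rfl fun b _ => ?_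
        rw [← hσ]
        ring
      exact (e3 _ e2).trans (by rw [e1, mul_zero, sub_zero])
  calc _ ≤ ∑ e ∈ s, W e := Finset.sum_le_sum h2
    _ ≤ ∑ e : V × V, W e :=
      Finset.sum_le_sum_of_subset_of_nonneg (Finset.subset_univ _) fun e _ _ => h1 e
    _ ≤ _ := by
      rw [Fintype.sum_prod_type]
      simp only [h3]
      rw [Finset.sum_add_distrib, ← Finset.mul_sum]
      linarith

open Classical in
/-- The mass of the links: `link_mass` with `Flow0.local_time` (see `est_mass`). -/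
theorem Flow0.mass (h : Flow0 Λ q T) {μ : V → ℝ} (hμ : ∀ a, 0 ≤ μ a)
    (hsrc : ∀ a, T a ∉ Λ.Vt → μ a = ∑ b, q a b - ∑ b, q b a) {F : V → ℝ} {L η lam m γ : ℝ}
    (hL : 0 ≤ L) (hη : 0 ≤ η) (hF : ∀ a b, |F a - F b| ≤ L * ‖T a - T b‖ + η) (hl : 0 < lam)
    (hm : 4 * (∑ a, if T a ∈ Λ.Vt then 0 else μ a) +
      (2 + 1 / Λ.c₀) * (∑ b, if T b ∈ Λ.Vt then ∑ a, q b a * ‖T a - T b‖ else 0) ≤ m)
    (h2 : ∑ a, ∑ b, q a b * (‖T b - T a‖ * (L * ‖T b - T a‖ + η) ^ 2) ≤ γ) :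
    ∑ u, ∑ u', link c q T lam u u' * (c.ext F u - c.ext F u') ^ 2 ≤ 4 * lam * m * γ := by
  have hm' := link_mass c h.nonneg (m := m) hL hη hl.le hF fun e s t ht =>
    (h.local_time hμ hsrc (h.mem e.1) s t ht).trans
      (mul_le_mul_of_nonneg_right hm (norm_nonneg _))
  have h0 : 0 ≤ m := by
    refine le_trans (add_nonneg (mul_nonneg (by norm_num) (Finset.sum_nonneg fun a _ => ?_))
      (mul_nonneg ?_ (Finset.sum_nonneg fun a _ => ?_))) hm
    · split_ifs
      exacts [le_rfl, hμ a]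
    · have := Λ.c_pos
      positivity
    · split_ifs
      exacts [Finset.sum_nonneg fun b _ => mul_nonneg (h.nonneg _ _) (norm_nonneg _), le_rfl]
  exact hm'.trans (mul_le_mul_of_nonneg_left h2 (by positivity))

end H16Flow

section H16Build

open Set H14 T55 Filter Topology Metric
open scoped BigOperators InnerProductSpace

variable {C E : Type} [Fintype C] [NormedAddCommGroup E] [NormedSpace ℝ E]

section Cut

variable {Nn : Type} [Fintype Nn] {V : C → Type} [∀ c, Fintype (V c)] {Λ : C → Lens}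
  {app : C → ℂ → Nn} {B0 : Set Nn} {D : Nn → Nn → ℝ} {q : ∀ c, V c → V c → ℝ} {T : ∀ c, V c → ℂ}
  {ct : ∀ c, Cut (V c)}

theorem gabs_cut (h : ∀ c, Flow0 (Λ c) (q c) (T c))
    (hc : ∀ c, GoodCut (T c) (fun e => 0 < q c e.1 e.2) (ct c))
    (hA : GAbs D q (cor Λ T) (fun c a => app c (T c a)) B0) :
    GAbs D (fun c => (ct c).rate (q c)) (cor Λ fun c => (ct c).ext (T c))
      (fun c u => app c ((ct c).ext (T c) u)) B0 := fun SN S h1 h2 h3 h4 =>
  hA SN (fun c => {a | Sum.inl a ∈ S c}) (fun c b hb => h1 c (.inl b) hb) h2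
    (fun c x hx y hxy => (cut_closed (h c).nonneg (hc c).act (h3 c)).1 x y hx hxy)
    (h4.imp_right fun ⟨c, hS⟩ => ⟨c, (cut_closed (h c).nonneg (hc c).act (h3 c)).2 hS⟩)

theorem gabs_place (h : ∀ c, Flow0 (Λ c) (q c) (T c))
    (hc : ∀ c, GoodCut (T c) (fun e => 0 < q c e.1 e.2) (ct c))
    (hA : GAbs D q (cor Λ T) (fun c a => app c (T c a)) B0) :
    GAbs D (fun c => mrg (place (ct c) (T c)) ((ct c).rate (q c)))
      (cor Λ fun c (p : places (ct c) (T c)) => (p : ℂ)) (fun c p => app c p) B0 :=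
  fun SN S h1 h2 h3 h4 =>
  gabs_cut h hc hA SN (fun c => place (ct c) (T c) ⁻¹' S c)
    (fun c b hb => h1 c (place (ct c) (T c) b) hb) h2
    (fun c x hx y hxy => h3 c _ hx _
      ((mrg_pos_iff _ ((ct c).rate_nonneg (h c).nonneg)).2 ⟨x, y, rfl, rfl, hxy⟩))
    (h4.imp_right fun ⟨c, p, hp⟩ => by
      obtain ⟨u, rfl⟩ := est_place_surj (ct c) (T c) p
      exact ⟨c, u, hp⟩)

theorem msum_cut (fN : Nn → ℝ) {f : ∀ c, (ct c).Nd → ℝ} (hf : ∀ c u, f c (.inr u) = 0) :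
    msum (cor Λ fun c => (ct c).ext (T c)) B0 fN f =
      msum (cor Λ T) B0 fN fun c x => f c (.inl x) := by
  classical
  unfold msum
  congr 1
  refine Finset.sum_congr rfl fun c _ => ?_
  rw [Fintype.sum_sum_type]
  simp only [hf, ite_self, Finset.sum_const_zero, add_zero]
  congr!

theorem ngen_cut {X : Type} [AddCommGroup X] [Module ℝ X] (h : ∀ c, Flow0 (Λ c) (q c) (T c))
    (hc : ∀ c, GoodCut (T c) (fun e => 0 < q c e.1 e.2) (ct c)) (uN : Nn → X)
    (u : ∀ c, (ct c).Nd → X) (a : Nn) :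
    ngen D (fun c => (ct c).rate (q c)) (cor Λ fun c => (ct c).ext (T c))
      (fun c u => app c ((ct c).ext (T c) u)) uN u a = gen D uN a +
        nsum (cor Λ T) (fun c a => app c (T c a))
          (fun c x => gen ((ct c).rate (q c)) (u c) (.inl x)) a :=
  congrArg _ (nsum_eq (fun _ => Sum.inl) (fun _ => Sum.inl_injective) (fun _ _ => Iff.rfl)
    (fun c y hy => (((h c).place_vt (hc c) y).1 hy).imp fun _ hb => hb.2.symm) (fun _ _ => rfl) _ a)

theorem ngen_place {X : Type} [AddCommGroup X] [Module ℝ X] (h : ∀ c, Flow0 (Λ c) (q c) (T c))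
    (hc : ∀ c, GoodCut (T c) (fun e => 0 < q c e.1 e.2) (ct c)) (uN : Nn → X)
    (g : ∀ c, places (ct c) (T c) → X) (a : Nn) :
    ngen D (fun c => (ct c).rate (q c)) (cor Λ fun c => (ct c).ext (T c))
      (fun c u => app c ((ct c).ext (T c) u)) uN (fun c u => g c (place (ct c) (T c) u)) a =
    ngen D (fun c => mrg (place (ct c) (T c)) ((ct c).rate (q c)))
      (cor Λ fun c (p : places (ct c) (T c)) => (p : ℂ)) (fun c p => app c p) uN g a := by
  rw [ngen_cut h hc, ngen, nsum_eq (B := cor Λ T) (nd := fun c a => app c (T c a))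
    (fun c x => place (ct c) (T c) (.inl x))
    (fun c x y e => Sum.inl_injective ((hc c).old _ y (congrArg Subtype.val e)))
    (fun _ _ => Iff.rfl) (fun c p hp => by
      obtain ⟨u, rfl⟩ := est_place_surj (ct c) (T c) p
      obtain ⟨b, -, rfl⟩ := ((h c).place_vt (hc c) u).1 hp
      exact ⟨b, rfl⟩) fun _ _ => rfl]
  simp only [Flow0.gen_old (hc _)]

open Classical in
/-- The real-valued estimate. -/
theorem gest (h : ∀ c, Flow0 (Λ c) (q c) (T c))
    (hc : ∀ c, GoodCut (T c) (fun e => 0 < q c e.1 e.2) (ct c)) (hD : ∀ a b, 0 ≤ D a b)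
    (hA : GAbs D q (cor Λ T) (fun c a => app c (T c a)) B0) (sD : ∀ a ∈ B0, ∀ b, D a b = 0)
    (sq : ∀ c b, T c b ∈ (Λ c).Vt → app c (T c b) ∈ B0 → ∀ y, q c b y = 0) {μN νN : Nn → ℝ}
    {μ ν : ∀ c, V c → ℝ} (hμN : ∀ a, 0 ≤ μN a) (hμ : ∀ c x, 0 ≤ μ c x)
    (hsrc : ∀ c a, T c a ∉ (Λ c).Vt → μ c a = ∑ b, q c a b - ∑ b, q c b a)
    (hcons : ∀ (uN : Nn → ℝ) (u : ∀ c, V c → ℝ), Cmp (cor Λ T) (fun c a => app c (T c a)) uN u →
      (∀ a ∈ B0, uN a = 0) → gsum D q (fun _ => 1) (fun _ _ => 1) uN u ≤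
        -msum (cor Λ T) B0 (fun a => μN a * uN a) fun c x => μ c x * u c x)
    {gN φ : Nn → ℝ} {g : ∀ c, places (ct c) (T c) → ℝ} {F : ∀ c, V c → ℝ}
    (hg1 : ∀ c (p : places (ct c) (T c)), (p : ℂ) ∈ (Λ c).Vt → g c p = gN (app c p))
    (hg2 : ∀ c (p : places (ct c) (T c)), (p : ℂ) ∉ (Λ c).Vt →
      gen (mrg (place (ct c) (T c)) ((ct c).rate (q c))) (g c) p = 0)
    (hg3 : ∀ a, a ∉ B0 → ngen D (fun c => mrg (place (ct c) (T c)) ((ct c).rate (q c)))
      (cor Λ fun c (p : places (ct c) (T c)) => (p : ℂ)) (fun c p => app c p) gN g a = 0)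
    (hB : ∀ a ∈ B0, gN a = φ a) (hF : Cmp (cor Λ T) (fun c a => app c (T c a)) φ F)
    {L₀ L η lam K γ A m : ℝ} (hL₀ : 0 ≤ L₀)
    (hb : ∀ c, ∀ a ∈ (Λ c).Vt, ∀ b ∈ (Λ c).Vt, |gN (app c a) - gN (app c b)| ≤ L₀ * ‖a - b‖)
    (hL : 0 ≤ L) (hη : 0 ≤ η) (hlip : ∀ c a b, |F c a - F c b| ≤ L * ‖T c a - T c b‖ + η)
    (hl : 0 < lam) (hK : 0 ≤ K)
    (hAm : ∀ c, ((Λ c).Vt.card : ℝ) ^ 2 * (Real.pi * (L₀ / (Λ c).c₀ + 1) ^ 2) ≤ A)
    (hm : ∀ c, 4 * (∑ a, if T c a ∈ (Λ c).Vt then 0 else μ c a) + (2 + 1 / (Λ c).c₀) *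
      (∑ b, if T c b ∈ (Λ c).Vt then ∑ a, q c b a * ‖T c a - T c b‖ else 0) ≤ m)
    (h1 : msum (cor Λ T) B0 (fun a => |ngen D q (cor Λ T) (fun c a => app c (T c a)) φ F a|)
      (fun c x => |gen (q c) (F c) x|) ≤ γ)
    (h2 : ∀ c, ∑ a, ∑ b, q c a b * (‖T c b - T c a‖ * (L * ‖T c b - T c a‖ + η) ^ 2) ≤ γ)
    (h0N : ∀ a, 0 ≤ νN a ∧ νN a ≤ K * μN a) (h0 : ∀ c x, 0 ≤ ν c x ∧ ν c x ≤ K * μ c x)
    (h3 : msum (cor Λ T) B0 νN ν ≤ 1) :
    |msum (cor Λ T) B0 (fun a => νN a * (gN a - φ a))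
      fun c x => ν c x * (g c (place (ct c) (T c) (.inl x)) - F c x)| ≤
      K * γ + Fintype.card C * (√(2 * K) * (√(lam⁻¹ * A) + √(4 * lam * m * γ))) := by
  choose Ar a1 a2 a3 using fun c => (h c).area (hc c) (hg2 c) hL₀
    (fun a b ha hb' => by rw [hg1 c a ha, hg1 c b hb']; exact hb c _ ha _ hb') hl
  have key := gmerge_est (D := D) (R := fun c => (ct c).rate (q c))
    (B := cor Λ fun c => (ct c).ext (T c)) (nd := fun c u => app c ((ct c).ext (T c) u)) (B0 := B0)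
    (fun c => place (ct c) (T c)) (lk := fun c => link (ct c) (q c) (T c) lam) (μN := μN)
    (μN' := νN) (φ := φ) (gN := gN) (μ := fun c => Sum.elim (μ c) fun _ => 0)
    (μ' := fun c => Sum.elim (ν c) fun _ => 0) (F := fun c => (ct c).ext (F c)) (g := g) (A := Ar)
    (K := K) (η := γ) (A₀ := lam⁻¹ * A) (M₀ := 4 * lam * m * γ) hD
    (fun c => (ct c).rate_nonneg (h c).nonneg) (gabs_cut h hc hA) sD
    (fun c u hu h4 y => by
      obtain ⟨b, hb', rfl⟩ := ((h c).place_vt (hc c) u).1 hu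
      exact (ct c).rate_stop (sq c b hb' h4) y)
    (fun c => link_nonneg _ (h c).nonneg _ hl.le) (fun c => link_symm _ _ _ _)
    (fun c u u' hne => by
      obtain ⟨e1, e2⟩ := link_ne _ _ _ _ hne
      refine ⟨Subtype.ext e1, fun hu => ?_⟩
      obtain ⟨b, -, hb'⟩ := ((h c).place_vt (hc c) u).1 hu
      exact e2 b hb') hK hμN
    (by
      rintro c (x | u)
      exacts [hμ c x, le_rfl])
    (fun uN u u1 u2 _ _ => by
      rw [msum_cut _ fun c u => zero_mul _]
      refine le_trans (le_of_eq ?_)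
        (hcons uN (fun c x => u c (.inl x)) (fun c b hb => u1 c (.inl b) hb) u2)
      unfold gsum
      congr 1
      refine Finset.sum_congr rfl fun c _ => ?_
      have e := (ct c).cons_inl_master (q := q c) fun x => -u c x
      rw [Fintype.sum_prod_type] at e
      simp only [neg_sub_neg] at e
      simpa only [gen, one_mul, smul_eq_mul] using e) h0N
    (by
      rintro c (x | u)
      exacts [h0 c x, ⟨le_rfl, (mul_zero K).ge⟩])
    (by rwa [msum_cut _ fun c u => rfl])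
    (fun c u hu => by
      obtain ⟨b, hb', rfl⟩ := ((h c).place_vt (hc c) u).1 hu
      exact hF c b hb')
    (fun c u hu => hg1 c _ hu) hB (fun a ha => (ngen_place h hc gN g a).trans (hg3 a ha))
    (fun c p => by
      by_cases hp : (p : ℂ) ∈ (Λ c).Vt
      · refine Finset.sum_eq_zero fun u _ => if_neg ?_
        rintro ⟨rfl, hu⟩
        exact hu hp
      · refine Eq.trans ?_ ((gen_mrg (place (ct c) (T c)) _ (g c) p).symm.trans (hg2 c p hp))
        refine Finset.sum_congr rfl fun u _ => ?_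
        by_cases hu : place (ct c) (T c) u = p
        · rw [if_pos hu, if_pos ⟨hu, fun hu' => hp (hu ▸ hu')⟩]
        · rw [if_neg hu, if_neg fun h' => hu h'.1])
    a1 a3 (fun c => (a2 c).trans (mul_le_mul_of_nonneg_left (hAm c) (inv_nonneg.2 hl.le)))
    (by
      rw [msum_cut _ fun c u => by rw [(ct c).gen_ext_inr (F c) u.1 u.2, abs_zero]]
      simp only [ngen_cut h hc, Cut.gen_ext_inl]
      exact h1)
    fun c => (h c).mass (hμ c) (hsrc c) hL hη (hlip c) hl (hm c) (h2 c)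
  rwa [msum_cut _ fun c u => zero_mul _] at key

end Cut

theorem gbuild_const {A K m N W ε : ℝ} (hA : 0 ≤ A) (hK : 0 < K) (hm : 0 ≤ m) (hN : 0 ≤ N)
    (hW : 0 ≤ W) (hε : 0 < ε) : ∃ lam > 0, ∃ β > 0,
      K * (β * W) + N * (√(2 * K) * (√(lam⁻¹ * A) + √(4 * lam * m * (β * W)))) ≤ ε := by
  obtain ⟨lam, hl, β, hβ, h⟩ := build_const hA hK (ε := ε / (N + 1)) (by positivity)
  refine ⟨lam, hl, β / ((W + 1) * (m + 1)), by positivity, ?_⟩
  have h1 : β / ((W + 1) * (m + 1)) * W * (m + 1) ≤ β := by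
    rw [show β / ((W + 1) * (m + 1)) * W * (m + 1) = β * (W / (W + 1)) by field_simp]
    exact mul_le_of_le_one_right hβ.le ((div_le_one (by positivity)).2 (by linarith only []))
  have h0 : 0 ≤ β / ((W + 1) * (m + 1)) * W := by positivity
  generalize β / ((W + 1) * (m + 1)) * W = γ at h0 h1
  have h2 : K * γ ≤ K * (2 * β) := mul_le_mul_of_nonneg_left (by nlinarith only [hm, h0, h1]) hK.le
  have h3 : √(4 * lam * m * γ) ≤ √(32 * lam * (2 * β)) :=
    Real.sqrt_le_sqrt (by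
      linarith only [mul_le_mul_of_nonneg_left h1 hl.le, mul_nonneg hl.le h0, mul_pos hl hβ])
  have h4 := mul_le_mul_of_nonneg_left (add_le_add_right h3 √(lam⁻¹ * A)) (Real.sqrt_nonneg (2 * K))
  have h5 : 0 ≤ √(2 * K) * (√(lam⁻¹ * A) + √(32 * lam * (2 * β))) := by positivity
  have h6 : 0 ≤ K * (2 * β) := by positivity
  rw [le_div_iff₀ (by positivity)] at h
  linarith only [mul_le_mul_of_nonneg_left h4 hN, mul_nonneg hN h6, h, h2, h5]

theorem gbuild (Λ : C → Lens) {M S L₀ ε : ℝ} (hS : 0 ≤ S) (hL₀ : 0 ≤ L₀)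
    (hsep : ∀ c, ∀ a ∈ (Λ c).Vt, ∀ b ∈ (Λ c).Vt, a ≠ b → 2 * M ≤ L₀ * ‖a - b‖) (K : ℕ)
    (hε : 0 < ε) :
    ∃ β > 0, ∀ (Nn : Type) [Fintype Nn] (app : C → ℂ → Nn) (B0 : Set Nn) (D : Nn → Nn → ℝ)
      (φ : Nn → E) (V : C → Type) [∀ c, Fintype (V c)] (R : ∀ c, V c → V c → ℝ)
      (T : ∀ c, V c → ℂ) (F : ∀ c, V c → E) (L η : ℝ), 0 ≤ L → 0 ≤ η → (∀ a, ‖φ a‖ ≤ M) →
      GChain Λ app B0 D φ L β η S R T F → Fintype.card Nn ≤ K → ∀ Z₀ : ∀ c, Finset (V c),
      (∀ c, ∀ z ∈ Z₀ c, T c z ∉ (Λ c).Vt) → (∀ c, (Z₀ c).card ≤ K) →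
      ∃ (Nd : C → Finset ℂ) (r : ∀ c, Nd c → Nd c → ℝ) (g : ∀ c, Nd c → E) (gN : Nn → E),
        GNet16 Λ app B0 D Nd r g gN ∧ (∀ a, ‖gN a‖ ≤ M) ∧ (∀ a, ‖gN a - φ a‖ ≤ ε) ∧
        (∀ c a b, T c a ∉ (Λ c).Vt → 0 < R c a b → segment ℝ (T c a) (T c b) ⊆ Eg (r c)) ∧
        ∀ c, ∀ z ∈ Z₀ c, ∃ p : Nd c, (p : ℂ) = T c z ∧ ‖g c p - F c z‖ ≤ ε := by
  classical
  have c0 := fun c => (Λ c).c_pos.le
  obtain ⟨W, hW⟩ : ∃ W : ℝ, W = 1 + 2 * Fintype.card C := ⟨_, rfl⟩
  have W0 : 0 ≤ W := by rw [hW]; positivity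
  obtain ⟨lam, hl, β, hβ, hconst⟩ := gbuild_const
    (A := ∑ c, ((Λ c).Vt.card : ℝ) ^ 2 * (Real.pi * (L₀ / (Λ c).c₀ + 1) ^ 2)) (K := (K : ℝ) + 1)
    (m := 8 + ∑ c, (2 + 1 / (Λ c).c₀) * (S * W)) (N := Fintype.card C)
    (Finset.sum_nonneg fun c _ => by positivity) (by positivity)
    (add_nonneg (by norm_num) (Finset.sum_nonneg fun c _ => by have := c0 c; positivity))
    (by positivity) W0 hε
  refine ⟨β, hβ, fun Nn _ app B0 D φ V _ R T F L η hL hη hφ hC hNn Z₀ hZ hZK => ?_⟩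
  obtain ⟨kN, k, k1, k2, k3, k4, k5⟩ := hC.pot
  obtain ⟨eN, e, e1, e2, e3, e4, e5⟩ := hC.emit
  have hA : GAbs D R (cor Λ T) (fun c a => app c (T c a)) B0 := gabs_of_lyap hC.dnn hC.nonneg k1
    (fun c x hx => neg_pos.1 (k4 c x hx).1) fun a ha => neg_pos.1 (k5 a ha).1
  have ne : ∀ c, Nonempty (V c) := fun c => (hC.all c 1 (Λ c).one_mem).elim fun b _ => ⟨b⟩
  choose μ m0 m1 m2 using fun c => build_mu (cor Λ T c) (Z₀ c) (hZK c)
  have K0 : (0 : ℝ) < K + 1 := by positivity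
  obtain ⟨GN, G, g1, g2, g3, g4, g5, g6⟩ := ggreen hC.dnn hC.nonneg hA
    (μN := fun _ => ((K : ℝ) + 1)⁻¹) (fun _ => inv_pos.2 K0) m0
  have gN0 : ∀ a, 0 ≤ GN a := fun a => by
    by_cases ha : a ∈ B0
    exacts [(g2 a ha).ge, (g3 a ha).le]
  have g0 : ∀ c x, 0 ≤ G c x := fun c x => by
    by_cases hx : x ∈ cor Λ T c
    exacts [g1 c x hx ▸ gN0 _, (g4 c x hx).le]
  have mass : msum (cor Λ T) B0 (fun _ => ((K : ℝ) + 1)⁻¹) μ ≤ W := by
    rw [hW, msum]
    refine add_le_add ((Finset.sum_le_card_nsmul _ _ ((K : ℝ) + 1)⁻¹ fun a _ => ?_).trans ?_)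
      ((Finset.sum_le_card_nsmul _ _ 2 fun c _ => m1 c).trans_eq ?_)
    · split_ifs
      exacts [(inv_pos.2 K0).le, le_rfl]
    · rw [Finset.card_univ, nsmul_eq_mul, ← div_eq_mul_inv, div_le_one K0]
      exact (Nat.cast_le.2 hNn).trans (le_add_of_nonneg_right zero_le_one)
    · rw [Finset.card_univ, nsmul_eq_mul, mul_comm]
  have hk := fun fN f => ggreen_le (fN := fN) (f := f) g1 g2 gN0 g0 (fun _ => (inv_pos.2 K0).le)
    (fun c x => (m0 c x).le) (g6 kN k k1 fun a _ => (k2 a).1) (fun a => (k2 a).2)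
    fun c x => (k3 c x).2
  have he := ggreen_le g1 g2 gN0 g0 (fun _ => (inv_pos.2 K0).le)
    (fun c x => (m0 c x).le) (g6 eN e e1 fun a _ => (e2 a).1) (fun a => (e2 a).2)
    (fun c x => (e3 c x).2) e5 e4
  have hq' : ∀ c a b, 0 < G c a * R c a b → 0 < R c a b := fun c a b hab =>
    (hC.nonneg c a b).lt_of_ne fun h0 => by rw [← h0, mul_zero] at hab; exact lt_irrefl _ hab
  have hD' : ∀ a b, 0 < GN a * D a b → 0 < D a b := fun a b hab =>
    (hC.dnn a b).lt_of_ne fun h0 => by rw [← h0, mul_zero] at hab; exact lt_irrefl _ hab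
  have hgen : ∀ {V : Type} [Fintype V] (G : V → ℝ) (R : V → V → ℝ) {X : Type} [AddCommGroup X]
      [Module ℝ X] (u : V → X) (a : V), gen (fun a b => G a * R a b) u a = G a • gen R u a := by
    intro V _ G R X _ _ u a
    simp only [gen, Finset.smul_sum, mul_smul]
  have hF : ∀ c, Flow0 (Λ c) (fun a b => G c a * R c a b) (T c) := fun c =>
    { nonneg := fun a b => mul_nonneg (g0 c a) (hC.nonneg c a b)
      abs := fun S ⟨a, ha⟩ hd => by
        obtain ⟨b, hb⟩ := hC.all c 1 (Λ c).one_mem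
        have h1 : T c a ∉ (Λ c).Vt := disjoint_left.1 hd ha
        exact ⟨a, ha, b, fun h => disjoint_left.1 hd h (hb ▸ (Λ c).one_mem : T c b ∈ (Λ c).Vt),
          mul_pos (g4 c a h1) (hC.corner c a h1 b (.inl hb))⟩
      int := hC.int c
      all := hC.all c
      novv := fun a b ha hb => by rw [hC.novv c a b ha hb, mul_zero]
      harmT := fun a ha => by rw [hgen, hC.harmT c a ha, smul_zero]
      vert := fun a b hab => hC.vert c a b (hq' c a b hab) }
  choose ct hc using fun c => exists_goodCut (hC.inj c)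
    (Act := fun e => 0 < G c e.1 * R c e.1 e.2)
    (fun e he h => hC.vert c _ _ (hq' c _ _ he) (by rw [h]))
    fun e he d h1 h2 => hC.gen3 c _ _ d (hq' c _ _ he) h1 h2
  have D0 : ∀ a b, 0 ≤ GN a * D a b := fun a b => mul_nonneg (gN0 a) (hC.dnn a b)
  have hA' : GAbs (fun a b => GN a * D a b) (fun c a b => G c a * R c a b) (cor Λ T)
      (fun c a => app c (T c a)) B0 := fun SN S h1 h2 h3 h4 => by
    by_contra hn
    refine hn (hA SN S h1 (fun a ha b h => h2 a ha b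
      (mul_pos (g3 a fun h' => hn ⟨a, ha, h'⟩) h)) (fun c x hx y h => h3 c x hx y (mul_pos ?_ h)) h4)
    by_cases hb : x ∈ cor Λ T c
    · rw [g1 c x hb]
      exact g3 _ fun h' => hn ⟨_, (h1 c x hb).1 hx, h'⟩
    · exact g4 c x hb
  have hN := fun c => (hF c).pnet (hc c)
  obtain ⟨gN, g, q1, q2, q3, q4, q5⟩ := gharm D0 (fun c => (hN c).nonneg) (gabs_place hF hc hA') φ
  have gM : ∀ a, ‖gN a‖ ≤ M := fun a => mem_closedBall_zero_iff.1
    (q5 _ (convex_closedBall 0 M) (fun a => mem_closedBall_zero_iff.2 (hφ a)) a)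
  have one : ∀ (c : C) {f : ∀ c, V c → ℝ}, (∀ c x, 0 ≤ f c x) → ∑ x, G c x * f c x ≤
      msum (cor Λ T) B0 (fun a => GN a * nsum (cor Λ T) (fun c a => app c (T c a)) f a)
        fun c x => G c x * f c x := fun c f f0 => by
    refine (Finset.single_le_sum (f := fun c => ∑ x, G c x * f c x) (fun c _ =>
      Finset.sum_nonneg fun x _ => mul_nonneg (g0 c x) (f0 c x)) (Finset.mem_univ c)).trans ?_
    rw [sum_split g1, msum]
    refine add_le_add (Finset.sum_le_sum fun a _ => ?_) le_rfl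
    split_ifs with ha
    · rw [g2 a ha, zero_mul]
    · exact le_rfl
  have key : ∀ (l : E →L[ℝ] ℝ), ‖l‖ ≤ 1 → ∀ (νN : Nn → ℝ) (ν : ∀ c, V c → ℝ),
      (∀ a, 0 ≤ νN a ∧ νN a ≤ (K + 1) * ((K : ℝ) + 1)⁻¹) →
      (∀ c x, 0 ≤ ν c x ∧ ν c x ≤ (K + 1) * μ c x) → msum (cor Λ T) B0 νN ν ≤ 1 →
      |msum (cor Λ T) B0 (fun a => νN a * (l (gN a) - l (φ a)))
        fun c x => ν c x * (l (g c (place (ct c) (T c) (.inl x))) - l (F c x))| ≤ ε :=
    fun l hl1 νN ν n1 n2 n3 => by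
    have hll : ∀ x : E, |l x| ≤ ‖x‖ := fun x =>
      (l.le_opNorm x).trans (mul_le_of_le_one_left (norm_nonneg _) hl1)
    refine (gest hF hc D0 hA' (fun a ha b => by rw [g2 a ha, zero_mul])
      (fun c b hb h y => by rw [g1 c b hb, g2 _ h, zero_mul]) (fun _ => (inv_pos.2 K0).le)
      (fun c x => (m0 c x).le) g5 (fun uN u u1 u2 => ?_) (gN := fun a => l (gN a))
      (φ := fun a => l (φ a)) (g := fun c p => l (g c p)) (F := fun c x => l (F c x))
      (fun c p hp => congrArg l (q1 c p hp))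
      (fun c p hp => (gen_map _ (g c) l.toLinearMap p).trans (by rw [q3 c p hp, map_zero]))
      (fun a ha => (ngen_map l.toLinearMap gN g a).trans (by rw [q4 a ha, map_zero]))
      (fun a ha => congrArg l (q2 a ha)) (fun c b hb => congrArg l (hC.bd c b hb)) hL₀
      (fun c a ha b hb => ?_) hL hη
      (fun c a b => by rw [← map_sub]; exact (hll _).trans (hC.lip c a b)) hl K0.le
      (fun c => Finset.single_le_sum
        (f := fun c => ((Λ c).Vt.card : ℝ) ^ 2 * (Real.pi * (L₀ / (Λ c).c₀ + 1) ^ 2))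
        (fun c _ => by positivity) (Finset.mem_univ c))
      (fun c => ?_) ?_ (fun c => ?_) n1 n2 n3).trans hconst
    · have h1 := g6 (fun a => -uN a) (fun c x => -u c x) (fun c b hb => congrArg _ (u1 c b hb))
        fun a ha => by rw [u2 a ha, neg_zero]
      have h2 := msum_mul (B := cor Λ T) (B0 := B0) (-1) (fun a => ((K : ℝ) + 1)⁻¹ * uN a)
        fun c x => μ c x * u c x
      have h3 : ∀ {V : Type} [Fintype V] (R : V → V → ℝ) (u : V → ℝ) (a : V),
          gen R (fun x => -u x) a = -gen R u a := fun R u a => by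
        simp only [gen, smul_eq_mul, ← Finset.sum_neg_distrib]
        exact Finset.sum_congr rfl fun _ _ => by ring
      simp only [neg_one_mul] at h2
      simp only [gsum, h3, mul_neg, Finset.sum_neg_distrib, h2, neg_add, neg_neg] at h1
      simpa only [gsum, hgen, one_mul, smul_eq_mul] using h1
    · rcases eq_or_ne a b with rfl | hab
      · simp
      · rw [← map_sub]
        exact (hll _).trans ((norm_sub_le_of_le (gM _) (gM _)).trans
          (by linarith only [hsep c a ha b hb hab]))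
    · have h1 : (∑ a, if T c a ∈ (Λ c).Vt then 0 else μ c a) ≤ 2 := by
        refine le_trans (le_of_eq ?_) (m1 c)
        congr!
      have h2 := one c (f := fun c b => if T c b ∈ (Λ c).Vt then ∑ a, R c b a * ‖T c a - T c b‖
        else 0) fun c b => by
          split_ifs
          exacts [Finset.sum_nonneg fun a _ => mul_nonneg (hC.nonneg c b a) (norm_nonneg _), le_rfl]
      have h3 := (h2.trans_eq (msum_congr (fun a _ => congrArg _
        (nsum_congr fun c x hx _ => if_pos hx)) fun c x hx => congrArg _ (if_neg hx))).trans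
        (he.trans (mul_le_mul_of_nonneg_left mass hS))
      have h4 := Finset.single_le_sum (f := fun c => (2 + 1 / (Λ c).c₀) * (S * W))
        (fun c _ => by have := c0 c; positivity) (Finset.mem_univ c)
      have h5 : (∑ b, if T c b ∈ (Λ c).Vt then ∑ a, G c b * R c b a * ‖T c a - T c b‖ else 0) ≤
          S * W := by simpa only [mul_ite, mul_zero, Finset.mul_sum, mul_assoc] using h3
      have h6 := mul_le_mul_of_nonneg_left h5 (show 0 ≤ 2 + 1 / (Λ c).c₀ by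
        have := c0 c; positivity)
      linarith only [h1, h4, h6]
    · refine le_trans (msum_mono (fun a _ => ?_) fun c x _ => ?_)
        ((hk _ _ (fun a ha => (k5 a ha).2.1) fun c x hx => (k4 c x hx).2.1).trans
          (mul_le_mul_of_nonneg_left mass hβ.le))
      · have h1 : ngen (fun a b => GN a * D a b) (fun c a b => G c a * R c a b) (cor Λ T)
            (fun c a => app c (T c a)) φ F a =
            GN a • ngen D R (cor Λ T) (fun c a => app c (T c a)) φ F a := by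
          simp only [ngen, hgen, smul_add, ← nsum_smul]
          exact congrArg _ (nsum_congr fun c x hx h => by rw [g1 c x hx, ← h])
        refine (congrArg abs (ngen_map l.toLinearMap φ F a)).trans_le ((hll _).trans ?_)
        rw [h1, norm_smul, Real.norm_of_nonneg (gN0 a)]
      · refine (congrArg abs (gen_map _ (F c) l.toLinearMap x)).trans_le ((hll _).trans ?_)
        rw [hgen, norm_smul, Real.norm_of_nonneg (g0 c x)]
    · have h1 := (one c fun c a => Finset.sum_nonneg fun b _ => mul_nonneg (hC.nonneg c a b)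
        (by positivity)).trans ((hk _ _ (fun a ha => (k5 a ha).2.2)
          fun c x hx => (k4 c x hx).2.2).trans (mul_le_mul_of_nonneg_left mass hβ.le))
      simpa only [Finset.mul_sum, mul_assoc] using h1
  refine ⟨fun c => places (ct c) (T c), _, g, gN, ⟨hN, fun c v hv => ?_,
    fun c z hz => (hF c).inner (hc c) hz, q1, q3, fun l m XN X x1 x2 x3 x4 x5 =>
      gplat D0 (fun c => (hN c).nonneg) (gabs_place hF hc hA') (uN := fun a => l (gN a))
        (u := fun c p => l (g c p))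
        (fun c p hp => (gen_map _ (g c) l.toLinearMap p).trans (by rw [q3 c p hp, map_zero]))
        (fun a ha => (ngen_map l.toLinearMap gN g a).trans (by rw [q4 a ha, map_zero])) x1 x2 x3
        (fun a ha b h => x4 a ha b (hD' a b h)) x5⟩, gM, fun a => ?_,
    fun c a b ha hab => (hF c).seg_sub (mul_pos (g4 c a ha) hab), fun c z hz =>
      ⟨place (ct c) (T c) (.inl z), rfl, ?_⟩⟩
  · obtain ⟨b, rfl⟩ := hC.all c v hv
    exact (place (ct c) (T c) (.inl b)).2
  · by_cases ha : a ∈ B0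
    · rw [q2 a ha, sub_self, norm_zero]
      exact hε.le
    obtain ⟨l, l1, l2⟩ := exists_dual_vector'' ℝ (gN a - φ a)
    have h1 := key l l1 (fun b => if b = a then 1 else 0) (fun _ _ => 0)
      (fun b => by
        rw [mul_inv_cancel₀ K0.ne']
        split_ifs <;> norm_num)
      (fun c x => ⟨le_rfl, mul_nonneg K0.le (m0 c x).le⟩)
      (by simpa using (msum_node (B := cor Λ T) ha (fun _ => 1) fun _ _ => 1).le)
    rw [msum_node ha, ← map_sub, l2] at h1
    exact (le_abs_self _).trans h1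
  · obtain ⟨l, l1, l2⟩ := exists_dual_vector'' ℝ (g c (place (ct c) (T c) (.inl z)) - F c z)
    have h1 := key l l1 (fun _ => 0)
      (fun c' y => if (⟨c', y⟩ : Σ c, V c) = ⟨c, z⟩ then 1 else 0)
      (fun b => ⟨le_rfl, by positivity⟩)
      (fun c' y => by
        split_ifs with h
        · cases h
          exact ⟨zero_le_one, m2 c z hz⟩
        · exact ⟨le_rfl, mul_nonneg K0.le (m0 c' y).le⟩)
      (by simpa only [Sigma.mk.injEq, mul_one] using (msum_state (B := cor Λ T) (B0 := B0) (hZ c z hz) (fun _ => 1)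
        fun _ _ => 1).le)
    rw [msum_state (B := cor Λ T) (hZ c z hz), ← map_sub, l2] at h1
    exact (le_abs_self _).trans h1

end H16Build

end Pool.Agent.MP_17e62b_gt.G
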