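import Pool.Agent.MP_17e62b_gt.Mg.G_H72M1
import Pool.Agent.MP_17e62b_gt.Mg.T55_MA1
import Pool.Agent.MP_17e62b_gt.Mg.T55_MA2
import Pool.Agent.MP_17e62b_gt.Mg.G_H72M3
import Pool.Agent.MP_17e62b_gt.Mg.G_H72M2

attribute [-instance] LieAdmissibleAlgebra.toModule instCoeTCOfCoe LeftPreLieAlgebra.toModule
  RightPreLieAlgebra.toModule AddQuantale.instAddLeftMono instCoeHTCTOfCoeTailOfCoeHTC
  RKHS.instFunLike ProperSMul.toContinuousSMul NumberField.to_charZero AddQuantale.instAddRightMono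
  IsTopologicalTorsor.toContinuousSMul Valued.toUniformSpace Quantale.instMulRightMono
  LinearOrderedCommMonoidWithZero.toPosMulStrictMono Group.IsPerfect.subsingleton_of_isMulCommutative
  IdemSemiring.toCanonicallyOrderedAdd instCoeTOfCoeDep TestFunctionClass.toDFunLike
  ContDiffMapSupportedInClass.toDFunLike NonUnitalNonAssocRing.toAddCommGroup
  instCoeHTCOfCoeHeadOfCoeOTC NonarchimedeanRing.toIsTopologicalRing instCoeHTCT
  NonUnitalNonAssocSemiring.toAddCommMonoid CommRing.toRing DivisionRing.toRing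
  Algebra.WeaklyEtale.flat NonUnitalAlgSemiHomClass.toDistribMulActionSemiHomClass NeZero.of_gt'
  instFiniteSubtypeLtOfLocallyFiniteOrderBot CStarAlgebra.instOrderClosedTopology
  UpgradedStandardBorel.toTopologicalSpace Bialgebra.toAlgebra
  Topology.IsScott.instClosedIicTopologyOfUnivSet FiniteField.instGrindPowIdentity NormedRing.toRing
  CompleteSemilatticeSup.toPartialOrder instCoeHTC

section
/-! Forests and lines. -/

namespace Pool.Agent.MP_17e62b_gt.G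

open Set Filter Topology Metric
open scoped BigOperators InnerProductSpace Classical
open H14
open T55 (af Sq SqH SqV Cells Nbr vert)
open Pool.Agent.MP_4a6971_al.H83 (PArc)

variable {Λ : Lens} {L₀ : Finset (ℂ × ℝ)} {μ : ℝ} {n : ℕ} {v : ℕ → ℂ} {γ : ℝ → ℂ} {k : ℂ ≃ₜ ℂ}
  {Nd : Finset ℂ} {r : Nd → Nd → ℝ}

theorem forest_dist {Vx Tg : Set ℂ} (hV : Vx.Finite) {Adj : ℂ → ℂ → Prop}
    (hA : ∀ a b, Adj a b → a ∈ Vx ∧ b ∈ Vx ∧ a ≠ b)
    (hall : ∀ a ∈ Vx, ∃ b ∈ Tg, Relation.ReflTransGen Adj a b) :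
    ∃ D : ℂ → ℝ, (∀ a ∈ Vx, 0 ≤ D a) ∧ (∀ a ∈ Tg, D a = 0) ∧
      (∀ a b, Adj a b → D a ≤ D b + ‖a - b‖) ∧
      ∀ a ∈ Vx, a ∉ Tg → ∃ b, Adj a b ∧ D a = D b + ‖a - b‖ := by
  let F : Set (ℂ → ℝ) := {f | (∀ a ∈ Tg, f a ≤ 0) ∧ ∀ a b, Adj a b → f a ≤ f b + ‖a - b‖}
  have F0 : (0 : ℂ → ℝ) ∈ F := ⟨fun _ _ => le_rfl, fun a b _ => by simp⟩
  have hne : ∀ a, ((fun f : ℂ → ℝ => f a) '' F).Nonempty := fun a => ⟨_, 0, F0, rfl⟩
  have hT : ∀ a ∈ Tg, (0 : ℝ) ∈ upperBounds ((fun f : ℂ → ℝ => f a) '' F) := by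
    rintro a ha _ ⟨f, hf, rfl⟩
    exact hf.1 a ha
  have hbd : ∀ a ∈ Vx, BddAbove ((fun f : ℂ → ℝ => f a) '' F) := by
    intro a ha
    obtain ⟨b, hb, h⟩ := hall a ha
    clear ha
    induction h using Relation.ReflTransGen.head_induction_on with
    | refl => exact ⟨0, hT b hb⟩
    | @head x y hxy _ ih =>
      obtain ⟨B, hB⟩ := ih
      refine ⟨B + ‖x - y‖, ?_⟩
      rintro _ ⟨f, hf, rfl⟩
      linarith [hf.2 x y hxy, hB ⟨f, hf, rfl⟩]
  let D : ℂ → ℝ := fun a => sSup ((fun f : ℂ → ℝ => f a) '' F)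
  have hle : ∀ a ∈ Vx, ∀ f ∈ F, f a ≤ D a := fun a ha f hf => le_csSup (hbd a ha) ⟨f, hf, rfl⟩
  have DT : ∀ a ∈ Tg, D a = 0 := fun a ha =>
    le_antisymm (csSup_le (hne a) (hT a ha)) (le_csSup ⟨0, hT a ha⟩ ⟨0, F0, rfl⟩)
  have DA : ∀ a b, Adj a b → D a ≤ D b + ‖a - b‖ := fun a b h => csSup_le (hne a) (by
    rintro _ ⟨f, hf, rfl⟩
    linarith [hf.2 a b h, hle b (hA a b h).2.1 f hf])
  refine ⟨D, fun a ha => hle a ha 0 F0, DT, DA, fun a ha haT => ?_⟩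
  by_contra hc
  push Not at hc
  have hfin : {b | Adj a b}.Finite := hV.subset fun b hb => (hA a b hb).2.1
  have hev : ∀ᶠ x in 𝓝 (D a), ∀ b ∈ {b | Adj a b}, x < D b + ‖a - b‖ :=
    (eventually_all_finite hfin).2 fun b hb => gt_mem_nhds ((DA a b hb).lt_of_ne (hc b hb))
  obtain ⟨x, hx1, hx2⟩ := ((hev.filter_mono nhdsWithin_le_nhds).and
    (self_mem_nhdsWithin (s := Ioi (D a)))).exists
  have hx3 : D a < x := hx2
  have hup : ∀ y, D y ≤ Function.update D a x y := fun y => by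
    by_cases e : y = a
    · rw [e, Function.update_self]
      exact hx3.le
    · rw [Function.update_of_ne e]
  have hF : Function.update D a x ∈ F := by
    refine ⟨fun t ht => ?_, fun y z h => ?_⟩
    · rw [Function.update_of_ne fun e : t = a => haT (e ▸ ht), DT t ht]
    · by_cases e : y = a
      · subst e
        rw [Function.update_self]
        linarith [hx1 z h, hup z]
      · rw [Function.update_of_ne e]
        linarith [DA y z h, hup z]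
  have := hle a ha _ hF
  rw [Function.update_self] at this
  linarith

/-- I1. A shortest path forest. Hint: `D a` is the least length of a walk from `a` to `Tg` (or the
largest function with the two inequalities); for `a ∉ Tg` some neighbour `b` has
`D a = D b + ‖a - b‖`; recursion on the rank of `D a`. -/
theorem forest {Vx Tg : Set ℂ} (hV : Vx.Finite) {Adj : ℂ → ℂ → Prop}
    (hA : ∀ a b, Adj a b → a ∈ Vx ∧ b ∈ Vx ∧ a ≠ b)
    (hall : ∀ a ∈ Vx, ∃ b ∈ Tg, Relation.ReflTransGen Adj a b) :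
    ∃ (D : ℂ → ℝ) (rep : ℂ → ℂ), (∀ a ∈ Tg, D a = 0 ∧ rep a = a) ∧
      (∀ a b, Adj a b → D a ≤ D b + ‖a - b‖) ∧ ∀ a ∈ Vx, rep a ∈ Tg ∧ rep a ∈ Vx ∧
        Relation.ReflTransGen (fun x y => Adj x y ∧ rep y = rep a ∧ ‖y - a‖ ≤ D a) a (rep a) := by
  obtain ⟨D, D0, DT, DA, Dn⟩ := forest_dist hV hA hall
  choose! nx hn1 hn2 using Dn
  let S : ℂ → ℂ → Prop := fun x y => x ∈ Vx ∧ x ∉ Tg ∧ y = nx x
  have hU : Relator.RightUnique S := fun _ _ _ h h' => h.2.2.trans h'.2.2.symm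
  have hend : ∀ t ∈ Tg, ∀ t', Relation.ReflTransGen S t t' → t = t' := fun t ht t' h =>
    h.cases_head.elim id fun ⟨_, hc, _⟩ => absurd ht hc.2.1
  have huniq : ∀ a, ∀ t ∈ Tg, ∀ t' ∈ Tg, Relation.ReflTransGen S a t →
      Relation.ReflTransGen S a t' → t = t' := fun a t ht t' ht' h h' =>
    (h.total_of_right_unique hU h').elim (hend t ht t') fun e => (hend t' ht' t e).symm
  have hex : ∀ a ∈ Vx, ∃ t ∈ Tg, Relation.ReflTransGen S a t := by
    by_contra hc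
    push Not at hc
    obtain ⟨a, ⟨ha, hb⟩, hmin⟩ := exists_min_image
      {a | a ∈ Vx ∧ ∀ t ∈ Tg, ¬ Relation.ReflTransGen S a t} D (hV.subset fun _ h => h.1) hc
    have haT : a ∉ Tg := fun h => hb a h .refl
    have h1 := hA _ _ (hn1 a ha haT)
    have h2 := hmin (nx a) ⟨h1.2.1, fun t ht h => hb t ht (.head ⟨ha, haT, rfl⟩ h)⟩
    have h3 : 0 < ‖a - nx a‖ := norm_pos_iff.2 (sub_ne_zero.2 h1.2.2)
    linarith [hn2 a ha haT]
  let rep : ℂ → ℂ := fun a => if h : ∃ t ∈ Tg, Relation.ReflTransGen S a t then h.choose else a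
  have hrep : ∀ a, ∀ t ∈ Tg, Relation.ReflTransGen S a t → rep a = t := fun a t ht h => by
    have e : ∃ t ∈ Tg, Relation.ReflTransGen S a t := ⟨t, ht, h⟩
    simp only [rep, dif_pos e]
    exact huniq a _ e.choose_spec.1 t ht e.choose_spec.2 h
  refine ⟨D, rep, fun a ha => ⟨DT a ha, hrep a a ha .refl⟩, DA, fun a ha => ?_⟩
  obtain ⟨t, ht, h⟩ := hex a ha
  rw [hrep a t ht h]
  have key : ∀ x, Relation.ReflTransGen S x t → x ∈ Vx → ‖x - a‖ + D x ≤ D a → t ∈ Vx ∧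
      Relation.ReflTransGen (fun x y => Adj x y ∧ rep y = t ∧ ‖y - a‖ ≤ D a) x t := by
    intro x hx
    induction hx using Relation.ReflTransGen.head_induction_on with
    | refl => exact fun h _ => ⟨h, .refl⟩
    | @head x y hxy hy ih =>
      intro _ hle
      obtain ⟨h1, h2, rfl⟩ := hxy
      have h3 := hn1 x h1 h2
      have h4 : ‖nx x - a‖ ≤ ‖x - nx x‖ + ‖x - a‖ := by
        rw [norm_sub_rev x (nx x)]
        exact norm_sub_le_norm_sub_add_norm_sub _ _ _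
      have h5 := hn2 x h1 h2
      have h6 := D0 _ (hA _ _ h3).2.1
      obtain ⟨i1, i2⟩ := ih (hA _ _ h3).2.1 (by linarith)
      exact ⟨i1, .head ⟨h3, hrep _ t ht hy, by linarith⟩ i2⟩
  obtain ⟨k1, k2⟩ := key a h ha (by simp)
  exact ⟨ht, k1, k2⟩

theorem seg_ind_fin (L : Finset (ℂ × ℝ)) (Q : Set ℂ) : (vert L Q).Finite := by
  have h : ∀ l l' : ℂ × ℝ, {z | af l z = 0 ∧ af l' z = 0 ∧
      (l.1 * (starRingEnd ℂ) l'.1).im ≠ 0}.Finite := fun l l' => by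
    refine Set.Subsingleton.finite ?_
    rintro z ⟨h1, h2, h3⟩ w ⟨h4, h5, -⟩
    simp only [af, Complex.mul_re, Complex.mul_im, Complex.conj_re, Complex.conj_im] at *
    apply Complex.ext
    · refine mul_left_cancel₀ h3 ?_
      linear_combination (-l'.1.im) * h1 + l.1.im * h2 + l'.1.im * h4 - l.1.im * h5
    · refine mul_left_cancel₀ h3 ?_
      linear_combination (-l'.1.re) * h1 + l.1.re * h2 + l'.1.re * h4 - l.1.re * h5
  refine (L.finite_toSet.biUnion fun l _ => L.finite_toSet.biUnion fun l' _ => h l l').subset ?_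
  rintro z ⟨-, l, hl, l', hl', hz⟩
  exact mem_biUnion hl (mem_biUnion hl' hz)

theorem seg_ind_af {l : ℂ × ℝ} {a b c : ℂ} (la : af l a = 0) (lb : af l b = 0)
    (hc : c ∈ segment ℝ a b) : af l c = 0 := by
  obtain ⟨u, w, -, -, huw, rfl⟩ := hc
  simp only [af, Complex.mul_re, Complex.add_re, Complex.add_im, Complex.smul_re, Complex.smul_im,
    smul_eq_mul] at *
  linear_combination u * la + w * lb + l.2 * huw

theorem seg_ind_sub {a b c : ℂ} (hc : c ∈ openSegment ℝ a b) :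
    openSegment ℝ a c ⊆ openSegment ℝ a b := by
  obtain ⟨u, w, hu, hw, huw, rfl⟩ := hc
  rintro _ ⟨p, q, hp, hq, hpq, rfl⟩
  refine ⟨p + q * u, q * w, by positivity, by positivity, by linear_combination hpq + q * huw, ?_⟩
  module

/-- I2. Induction along a line. Hint: on the number of vertices in the open segment; `vert L Q` is
finite. -/
theorem seg_ind {L : Finset (ℂ × ℝ)} {Q : Set ℂ} {Pr : ℂ → ℂ → Prop}
    (h0 : ∀ a ∈ vert L Q, Pr a a) (h1 : ∀ a b, Nbr L Q a b → Pr a b)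
    (h2 : ∀ a ∈ vert L Q, ∀ b ∈ vert L Q, ∀ c ∈ vert L Q, c ∈ segment ℝ a b → Pr a c → Pr c b →
      Pr a b) {l : ℂ × ℝ} (hl : l ∈ L)
    {a b : ℂ} (ha : a ∈ vert L Q) (hb : b ∈ vert L Q) (la : af l a = 0) (lb : af l b = 0) :
    Pr a b := by
  have hf : ∀ a b : ℂ, (openSegment ℝ a b ∩ vert L Q).Finite := fun a b =>
    (seg_ind_fin L Q).inter_of_right _
  induction hN : (openSegment ℝ a b ∩ vert L Q).ncard using Nat.strong_induction_on
    generalizing a b with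
  | _ N ih =>
  by_cases hab : a = b
  · exact hab ▸ h0 a ha
  by_cases hd : Disjoint (openSegment ℝ a b) (vert L Q)
  · exact h1 a b ⟨ha, hb, hab, ⟨l, hl, la, lb⟩, hd⟩
  obtain ⟨c, hc, hc'⟩ := not_disjoint_iff.1 hd
  have hs := openSegment_subset_segment ℝ a b hc
  have lc := seg_ind_af la lb hs
  have hlt : ∀ x y : ℂ, x ≠ y → c ∈ openSegment ℝ x y →
      (openSegment ℝ x c ∩ vert L Q).ncard < (openSegment ℝ x y ∩ vert L Q).ncard := by
    intro x y hxy h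
    refine ncard_lt_ncard ((ssubset_iff_of_subset
      (inter_subset_inter_left _ (seg_ind_sub h))).2 ⟨c, ⟨h, hc'⟩, fun e => ?_⟩) (hf x y)
    have e1 : x = c := right_mem_openSegment_iff.1 e.1
    subst e1
    exact hxy (left_mem_openSegment_iff.1 h)
  refine h2 a ha b hb c hc' hs (ih _ (hN ▸ hlt a b hab hc) ha hc' la lc rfl)
    (ih _ ?_ hc' hb lc lb rfl)
  rw [← hN, openSegment_symm ℝ c b, openSegment_symm ℝ a b]
  exact hlt b a (Ne.symm hab) (openSegment_symm ℝ a b ▸ hc)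

/-- I4. Hint: suppose that `z` is not a node. Points of the segment from `z` to `w` near `z` lie on
edges; one edge contains such points arbitrarily near `z`, so it contains `z`, and by `planar` it
has the same ends as the given edge. -/
theorem node_of_cross {Λ : Lens} {Nd : Finset ℂ} {r : Nd → Nd → ℝ} (h : PNet Λ Nd r) {z w : ℂ}
    (hw : segment ℝ z w ⊆ Eg r) {p p' : Nd} (hp : 0 < r p p') (hz : z ∈ segment ℝ (p : ℂ) p')
    (hd : det2 (w - z) (p' - p) ≠ 0) : z ∈ Nd := by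
  let U : Nd × Nd → Set ℂ := fun e =>
    {y | y ∈ openSegment ℝ z w ∧ 0 < r e.1 e.2 ∧ y ∈ segment ℝ (e.1 : ℂ) e.2}
  have h1 : openSegment ℝ z w ⊆ ⋃ e, U e := fun y hy => by
    obtain ⟨q, q', hq, hy'⟩ := hw (openSegment_subset_segment ℝ z w hy)
    exact mem_iUnion.2 ⟨(q, q'), hy, hq, hy'⟩
  have h2 := closure_mono h1 (segment_subset_closure_openSegment (left_mem_segment ℝ z w))
  rw [closure_iUnion_of_finite] at h2
  obtain ⟨⟨q, q'⟩, h3⟩ := mem_iUnion.1 h2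
  obtain ⟨y, hy1, hq, hy2⟩ := closure_nonempty_iff.1 ⟨z, h3⟩
  have hcl : IsClosed (segment ℝ (q : ℂ) q') := by
    rw [segment_eq_image_lineMap]
    exact (isCompact_Icc.image AffineMap.lineMap_continuous).isClosed
  have hz' : z ∈ segment ℝ (q : ℂ) q' := closure_minimal (fun y hy => hy.2.2) hcl h3
  refine (h.planar p p' q q' hp hq z hz hz').resolve_right fun e => hd ?_
  have hy3 : y ∈ segment ℝ (p : ℂ) p' := by
    rcases e with ⟨rfl, rfl⟩ | ⟨rfl, rfl⟩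
    · exact hy2
    · rw [segment_symm]
      exact hy2
  rw [segment_eq_image'] at hy3 hz
  rw [openSegment_eq_image'] at hy1
  obtain ⟨s, -, hs⟩ := hz
  obtain ⟨s', -, hs'⟩ := hy3
  obtain ⟨t, ht, ht'⟩ := hy1
  have e1 : t • (w - z) = (s' - s) • ((p' : ℂ) - p) := by
    simp only at hs hs' ht'
    rw [sub_smul]
    linear_combination ht' - hs' + hs
  have e2 := congrArg Complex.re e1
  have e3 := congrArg Complex.im e1
  simp only [Complex.smul_re, Complex.smul_im, smul_eq_mul] at e2 e3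
  refine mul_left_cancel₀ ht.1.ne' ?_
  unfold det2
  linear_combination ((p' : ℂ) - p).im * e2 - ((p' : ℂ) - p).re * e3

theorem along_edge_aff {E : Type} [AddCommGroup E] [Module ℝ E] {g : Nd → E} {G : ℂ → E}
    (hG : IsExt r g G) {p q : Nd} (hp : 0 < r p q) {a b c : ℂ} (ha : a ∈ segment ℝ (p : ℂ) q)
    (hb : b ∈ segment ℝ (p : ℂ) q) (hc : c ∈ segment ℝ a b) : G c ∈ segment ℝ (G a) (G b) := by
  rw [segment_eq_image_lineMap] at ha hb
  obtain ⟨s, hs, rfl⟩ := ha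
  obtain ⟨t, ht, rfl⟩ := hb
  obtain ⟨u, w, hu, hw, huw, rfl⟩ := hc
  have hm : u * s + w * t ∈ Icc (0 : ℝ) 1 := convex_Icc (𝕜 := ℝ) (0 : ℝ) 1 hs ht hu hw huw
  obtain rfl : u = 1 - w := by linarith
  have e : (1 - w) • AffineMap.lineMap (p : ℂ) (q : ℂ) s + w • AffineMap.lineMap (p : ℂ) (q : ℂ) t =
      AffineMap.lineMap (p : ℂ) (q : ℂ) ((1 - w) * s + w * t) := by
    simp only [AffineMap.lineMap_apply_module]
    module
  rw [e, hG.2 p q hp _ hm, hG.2 p q hp _ hs, hG.2 p q hp _ ht]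
  refine ⟨1 - w, w, hu, hw, huw, ?_⟩
  simp only [AffineMap.lineMap_apply_module]
  module

/-- I12a. Along an edge of the network. `G` extends the unit vectors. Hint: `seg_ind` for
`segment a b ⊆ segment p q → ∃ S, ...`; all vertices on the edge have `val = G`, which is affine
on it. -/
theorem along_edge {L : Finset (ℂ × ℝ)} {H : Set ℂ} {σ : ℝ} {lam val G : ℂ → Nd → ℝ}
    (hG : IsExt r (fun p => Pi.single p (1 : ℝ)) G)
    (hv : ∀ z ∈ vert L Λ.P, z ∈ Eg r → val z = G z) (hl : ∀ z ∈ vert L Λ.P, z ∈ H → lam z = val z)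
    (he : ∀ a b, Nbr L Λ.P a b → segment ℝ a b ⊆ H → ∃ S ⊆ H, IsPreconnected S ∧ a ∈ S ∧ b ∈ S ∧
      ∀ z ∈ S, lam z ∈ segment ℝ (val a) (val b) ∧ ‖z - a‖ ≤ σ)
    {p q : Nd} (hp : 0 < r p q) (hH : segment ℝ (p : ℂ) q ⊆ H) {l : ℂ × ℝ} (hlL : l ∈ L)
    (l1 : af l p = 0) (l2 : af l q = 0) (hσ : 0 ≤ σ) {a b : ℂ} (ha : a ∈ vert L Λ.P)
    (hb : b ∈ vert L Λ.P) (ha' : a ∈ segment ℝ (p : ℂ) q) (hb' : b ∈ segment ℝ (p : ℂ) q) :
    ∃ S ⊆ H, IsPreconnected S ∧ a ∈ S ∧ b ∈ S ∧ ∀ z ∈ S, lam z ∈ segment ℝ (G a) (G b) ∧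
      ∃ w ∈ segment ℝ a b, ‖z - w‖ ≤ σ := by
  have hE : ∀ x ∈ segment ℝ (p : ℂ) q, x ∈ Eg r := fun x hx => ⟨p, q, hp, hx⟩
  have hsub : ∀ {x y : ℂ}, x ∈ segment ℝ (p : ℂ) q → y ∈ segment ℝ (p : ℂ) q →
      segment ℝ x y ⊆ segment ℝ (p : ℂ) q := fun hx hy => (convex_segment _ _).segment_subset hx hy
  refine seg_ind (Pr := fun a b => a ∈ segment ℝ (p : ℂ) q → b ∈ segment ℝ (p : ℂ) q →
    ∃ S ⊆ H, IsPreconnected S ∧ a ∈ S ∧ b ∈ S ∧ ∀ z ∈ S, lam z ∈ segment ℝ (G a) (G b) ∧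
      ∃ w ∈ segment ℝ a b, ‖z - w‖ ≤ σ) ?_ ?_ ?_ hlL ha hb (seg_ind_af l1 l2 ha')
    (seg_ind_af l1 l2 hb') ha' hb'
  · intro x hx hx' _
    refine ⟨{x}, singleton_subset_iff.2 (hH hx'), isPreconnected_singleton, rfl, rfl, ?_⟩
    rintro _ rfl
    rw [hl _ hx (hH hx'), hv _ hx (hE _ hx')]
    exact ⟨left_mem_segment _ _ _, _, left_mem_segment _ _ _, by simpa only [sub_self, norm_zero] using hσ⟩
  · intro x y hxy hx hy
    obtain ⟨S, s1, s2, s3, s4, s5⟩ := he x y hxy ((hsub hx hy).trans hH)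
    rw [hv _ hxy.1 (hE _ hx), hv _ hxy.2.1 (hE _ hy)] at s5
    exact ⟨S, s1, s2, s3, s4, fun z hz => ⟨(s5 z hz).1, x, left_mem_segment _ _ _, (s5 z hz).2⟩⟩
  · intro x _ y _ c _ hc i1 i2 hx hy
    have hc' := hsub hx hy hc
    obtain ⟨S, s1, s2, s3, s4, s5⟩ := i1 hx hc'
    obtain ⟨S', t1, t2, t3, t4, t5⟩ := i2 hc' hy
    have hGc := along_edge_aff hG hp hx hy hc
    refine ⟨S ∪ S', union_subset s1 t1, s2.union c s4 t3 t2, .inl s3, .inr t4, ?_⟩
    rintro z (hz | hz)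
    · obtain ⟨u1, w, u2, u3⟩ := s5 z hz
      exact ⟨(convex_segment _ _).segment_subset (left_mem_segment _ _ _) hGc u1, w,
        (convex_segment _ _).segment_subset (left_mem_segment _ _ _) hc u2, u3⟩
    · obtain ⟨u1, w, u2, u3⟩ := t5 z hz
      exact ⟨(convex_segment _ _).segment_subset hGc (right_mem_segment _ _ _) u1, w,
        (convex_segment _ _).segment_subset hc (right_mem_segment _ _ _) u2, u3⟩

end Pool.Agent.MP_17e62b_gt.G

end

section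
/-! Weights on a cell complex. -/

namespace Pool.Agent.MP_17e62b_gt.G

open Set Filter Topology Metric
open scoped BigOperators InnerProductSpace Classical
open H14
open T55 (af Sq SqH SqV Cells Nbr vert)
open Pool.Agent.MP_4a6971_al.H83 (PArc)

/-- Two points of a triangle are joined by the image of a segment. -/
theorem cell_weights_seg {A : Set ℂ} (K : T55.Tri A) (hA : IsCompact A) {t : Finset K.V}
    (ht : t ∈ K.T) {x y : ℂ} (hx : x ∈ K.face t) (hy : y ∈ K.face t) :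
    ∃ S ⊆ K.face t, IsPreconnected S ∧ x ∈ S ∧ y ∈ S ∧
      ∀ z ∈ S, K.lam z ∈ segment ℝ (K.lam x) (K.lam y) := by
  obtain ⟨σ, hc, hσ⟩ := K.exists_inv hA
  have h0 : ∀ f ∈ segment ℝ (K.lam x) (K.lam y), ∀ v, v ∉ t → f v = 0 := by
    rintro _ ⟨a, b, -, -, -, rfl⟩ v hv
    simp [hx.2 v hv, hy.2 v hv]
  have hm : segment ℝ (K.lam x) (K.lam y) ⊆ K.lam '' A := fun f hf => by
    rw [K.img]
    exact ⟨(convex_stdSimplex ℝ K.V).segment_subset ⟨(K.basic hx.1).1, (K.basic hx.1).2.1⟩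
      ⟨(K.basic hy.1).1, (K.basic hy.1).2.1⟩ hf, t, ht, h0 f hf⟩
  have h1 : ∀ f ∈ segment ℝ (K.lam x) (K.lam y), σ f ∈ A ∧ K.lam (σ f) = f := fun f hf => by
    obtain ⟨z, hz, rfl⟩ := hm hf
    rw [hσ z hz]
    exact ⟨hz, rfl⟩
  refine ⟨σ '' segment ℝ (K.lam x) (K.lam y), ?_,
    (convex_segment _ _).isPreconnected.image σ (hc.mono hm),
    ⟨_, left_mem_segment ℝ _ _, hσ x hx.1⟩, ⟨_, right_mem_segment ℝ _ _, hσ y hy.1⟩, ?_⟩
  · rintro _ ⟨f, hf, rfl⟩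
    exact ⟨(h1 f hf).1, fun v hv => by rw [(h1 f hf).2]; exact h0 f hf v hv⟩
  · rintro _ ⟨f, hf, rfl⟩
    rw [(h1 f hf).2]
    exact hf

theorem cell_weights_lin {N : Type} [Fintype N] (u : N → ℝ) :
    IsLinearMap ℝ fun f : N → ℝ => cmb u f :=
  ⟨fun f g => by simp only [cmb, Pi.add_apply, smul_eq_mul, add_mul, Finset.sum_add_distrib],
    fun a f => by simp only [cmb, Pi.smul_apply, smul_eq_mul, mul_assoc, Finset.mul_sum]⟩

/-- A convex combination does not exceed the largest term. -/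
theorem cell_weights_max {N ι : Type} [Fintype N] (u : N → ℝ) {s : Finset ι} {w : ι → ℝ}
    (h0 : ∀ i ∈ s, 0 ≤ w i) (h1 : ∑ i ∈ s, w i = 1) (f : ι → N → ℝ) :
    ∃ i ∈ s, cmb u (∑ j ∈ s, w j • f j) ≤ cmb u (f i) := by
  have hs : s.Nonempty := Finset.nonempty_of_ne_empty fun h => by simp [h] at h1
  obtain ⟨i, hi, h⟩ := s.exists_max_image (fun j => cmb u (f j)) hs
  exact ⟨i, hi, (convex_halfSpace_le (cell_weights_lin u) (cmb u (f i))).sum_mem h0 h1 h⟩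

/-- I3. Weights on a cell complex. Hint: `Cells.tri`; a point gets `val`, an edge the mean of the
values at its two ends, a disc the mean of the values at the points on it; `lam y` is the
combination with the barycentric coordinates. The connecting sets are images of segments under
the inverse of the coordinates (`Tri.exists_inv`); they lie in a triangle, so in a disc. Compare
`poly_of_cells`. -/
theorem cell_weights {N : Type} [Fintype N] {A : Set ℂ} (C : Cells A) {val : ℂ → N → ℝ}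
    (hv : ∀ p ∈ C.P, val p ∈ stdSimplex ℝ N) :
    ∃ lam : ℂ → N → ℝ, ContinuousOn lam A ∧ (∀ y ∈ A, lam y ∈ stdSimplex ℝ N) ∧
      (∀ p ∈ C.P, lam p = val p) ∧
      (∀ e ∈ C.E, ∀ a ∈ C.P, ∀ b ∈ C.P, a ∈ e → b ∈ e → ∃ d ∈ C.D, e ⊆ d.1 ∧ ∃ S ⊆ d.1,
        IsPreconnected S ∧ a ∈ S ∧ b ∈ S ∧ ∀ z ∈ S, lam z ∈ segment ℝ (val a) (val b)) ∧
      ∀ y ∈ A, ∃ d ∈ C.D, y ∈ d.1 ∧
        (∀ n, lam y n ≠ 0 → ∃ p ∈ C.P, val p n ≠ 0 ∧ ∃ S ⊆ d.1, IsPreconnected S ∧ y ∈ S ∧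
          p ∈ S ∧ ∀ z ∈ S, ∀ n', lam z n' ≠ 0 → lam y n' ≠ 0) ∧
        ∀ u : N → ℝ, ∃ p ∈ C.P, ∃ S ⊆ d.1, IsPreconnected S ∧ y ∈ S ∧ p ∈ S ∧
          ∀ z ∈ S, cmb u (lam y) ≤ cmb u (lam z) := by
  obtain ⟨K, c, hc, hr, hT, hpt, hf⟩ := C.tri
  have hA := C.compact
  obtain ⟨Q, hQ⟩ : ∃ Q : K.V → Finset ℂ, ∀ v p, p ∈ Q v ↔ p ∈ C.P ∧ p ∈ c v :=
    ⟨fun v => C.finP.toFinset.filter (· ∈ c v), fun v p => by simp⟩
  have rP : ∀ p ∈ C.P, ∃ u, c u = {p} := fun p hp =>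
    show {p} ∈ range c from hr ▸ Or.inl (Or.inl ⟨p, hp, rfl⟩)
  have rE : ∀ e ∈ C.E, ∃ u, c u = e := fun e he => show e ∈ range c from hr ▸ Or.inl (Or.inr he)
  have rD : ∀ d ∈ C.D, ∃ u, c u = d.1 := fun d hd =>
    show d.1 ∈ range c from hr ▸ Or.inr ⟨d, hd, rfl⟩
  have dJ : ∀ d ∈ C.D, d.2 ⊆ d.1 := fun d hd => (C.dsc d hd).basic.2.2.1
  have Q0 : ∀ v, (Q v).Nonempty := fun v => by
    obtain ⟨t, ht, hvt⟩ := K.used v
    obtain ⟨a, b, w, rfl, ⟨p, hp, h0⟩, -, -, h1, h2⟩ := (hT t).1 ht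
    have h3 : p ∈ c a := h0 ▸ rfl
    simp only [Finset.mem_insert, Finset.mem_singleton] at hvt
    refine ⟨p, (hQ v p).2 ⟨hp, ?_⟩⟩
    rcases hvt with rfl | rfl | rfl
    exacts [h3, h1 h3, h2 (h1 h3)]
  obtain ⟨G, hG⟩ : ∃ G : K.V → N → ℝ, ∀ v, G v = ∑ p ∈ Q v, ((Q v).card : ℝ)⁻¹ • val p :=
    ⟨_, fun _ => rfl⟩
  have c0 : ∀ v, (0 : ℝ) < (Q v).card := fun v => Nat.cast_pos.2 (Q0 v).card_pos
  have c1 : ∀ v, ∑ _p ∈ Q v, ((Q v).card : ℝ)⁻¹ = 1 := fun v => by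
    rw [Finset.sum_const, nsmul_eq_mul, mul_inv_cancel₀ (c0 v).ne']
  have GW : ∀ v (W : Set (N → ℝ)), Convex ℝ W → (∀ p ∈ Q v, val p ∈ W) → G v ∈ W :=
    fun v W hW h => hG v ▸ hW.sum_mem (fun _ _ => (inv_pos.2 (c0 v)).le) (c1 v) h
  have GS : ∀ v, G v ∈ stdSimplex ℝ N := fun v =>
    GW v _ (convex_stdSimplex ℝ N) fun p hp => hv p ((hQ v p).1 hp).1
  obtain ⟨lam, hlam⟩ : ∃ lam : ℂ → N → ℝ, ∀ y, lam y = ∑ v, K.lam y v • G v := ⟨_, fun _ => rfl⟩
  have lpt : ∀ v, lam (K.pt v) = G v := fun v => by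
    rw [hlam, K.lam_pt, Finset.sum_eq_single v (fun b _ hb => by simp [hb]) (by simp only [Finset.mem_univ, not_true_eq_false, Pi.single_eq_same, one_smul, IsEmpty.forall_iff])]
    simp
  have lP : ∀ p ∈ C.P, lam p = val p := fun p hp => by
    obtain ⟨u, hu⟩ := rP p hp
    have h := GW u {val p} (convex_singleton _) fun q hq => by
      have h1 := ((hQ u q).1 hq).2
      rw [hu] at h1
      exact congrArg val h1
    rw [← hpt u p hu, lpt, hpt u p hu]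
    exact h
  have fpt : ∀ (t : Finset K.V), ∀ v ∈ t, K.pt v ∈ K.face t := fun t v hvt =>
    ⟨K.pt_mem v, fun w hw => by
      rw [K.lam_pt]
      exact Pi.single_eq_of_ne (fun h : w = v => hw (h ▸ hvt)) _⟩
  have sg : ∀ t ∈ K.T, ∀ x ∈ K.face t, ∀ y ∈ K.face t, ∃ S ⊆ K.face t, IsPreconnected S ∧ x ∈ S ∧
      y ∈ S ∧ ∀ z ∈ S, lam z ∈ segment ℝ (lam x) (lam y) := fun t ht x hx y hy => by
    obtain ⟨S, h1, h2, h3, h4, h5⟩ := cell_weights_seg K hA ht hx hy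
    refine ⟨S, h1, h2, h3, h4, fun z hz => ?_⟩
    obtain ⟨a, b, ha, hb, hab, h6⟩ := h5 z hz
    refine ⟨a, b, ha, hb, hab, ?_⟩
    simp only [hlam, ← h6, Finset.smul_sum, ← Finset.sum_add_distrib, Pi.add_apply, Pi.smul_apply,
      smul_eq_mul, add_smul, mul_smul]
  have path : ∀ t ∈ K.T, ∀ w ∈ t, ∀ d ∈ C.D, c w = d.1 → (∀ x ∈ t, ∀ p ∈ Q x, ∀ u, c u = {p} →
      ∃ t' ∈ K.T, u ∈ t' ∧ x ∈ t' ∧ w ∈ t') → ∀ y ∈ K.face t, ∀ x ∈ t, ∀ p ∈ Q x,
      ∃ S ⊆ d.1, IsPreconnected S ∧ y ∈ S ∧ p ∈ S ∧ ∀ W : Set (N → ℝ), Convex ℝ W → lam y ∈ W →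
        G x ∈ W → val p ∈ W → ∀ z ∈ S, lam z ∈ W := fun t ht w hw d hd hwd h y hy x hx p hp => by
    have hp' := ((hQ x p).1 hp).1
    obtain ⟨u, hu⟩ := rP p hp'
    obtain ⟨t', ht', h1, h2, h3⟩ := h x hx p hp u hu
    obtain ⟨S, a1, a2, a3, a4, a5⟩ := sg t ht y hy _ (fpt t x hx)
    obtain ⟨S', b1, b2, b3, b4, b5⟩ := sg t' ht' _ (fpt t' x h2) _ (fpt t' u h1)
    rw [hpt u p hu] at b4 b5
    rw [lpt] at a5 b5
    rw [lP p hp'] at b5
    refine ⟨S ∪ S', hwd ▸ union_subset (a1.trans (hf t ht w hw ⟨d, hd, hwd⟩))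
      (b1.trans (hf t' ht' w h3 ⟨d, hd, hwd⟩)), a2.union _ a4 b3 b2, Or.inl a3, Or.inr b4,
      fun W hW w1 w2 w3 z hz => ?_⟩
    exact hz.elim (fun hz => hW.segment_subset w1 w2 (a5 z hz))
      fun hz => hW.segment_subset w2 w3 (b5 z hz)
  have adj : ∀ a b w, (∃ p ∈ C.P, c a = {p}) → c b ∈ C.E → ∀ d ∈ C.D, c w = d.1 → c a ⊆ c b →
      c b ⊆ c w → ∀ x ∈ ({a, b, w} : Finset K.V), ∀ p ∈ Q x, ∀ u, c u = {p} →
      ∃ t' ∈ K.T, u ∈ t' ∧ x ∈ t' ∧ w ∈ t' := by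
    rintro a b w ⟨q, hq, ha⟩ hb d hd hw h1 h2 x hx p hp u hu
    obtain ⟨p1, p2⟩ := (hQ x p).1 hp
    simp only [Finset.mem_insert, Finset.mem_singleton] at hx
    rcases hx with rfl | rfl | rfl
    · rw [ha] at p2
      obtain rfl : u = x := hc (by rw [hu, ha, p2])
      exact ⟨{u, b, w}, (hT _).2 ⟨u, b, w, rfl, ⟨q, hq, ha⟩, hb, ⟨d, hd, hw⟩, h1, h2⟩, by simp,
        by simp, by simp⟩
    · exact ⟨{u, x, w}, (hT _).2 ⟨u, x, w, rfl, ⟨p, p1, hu⟩, hb, ⟨d, hd, hw⟩,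
        hu ▸ singleton_subset_iff.2 p2, h2⟩, by simp, by simp, by simp⟩
    · obtain ⟨e', he', h3⟩ := C.pe p p1
      obtain ⟨e, he, h4, h5⟩ := C.bdy d hd p (C.de d hd e' he' ⟨hw ▸ p2, h3⟩)
      obtain ⟨v, rfl⟩ := rE e he
      exact ⟨{u, v, x}, (hT _).2 ⟨u, v, x, rfl, ⟨p, p1, hu⟩, he, ⟨d, hd, hw⟩,
        hu ▸ singleton_subset_iff.2 h4, hw ▸ h5.trans (dJ d hd)⟩, by simp, by simp, by simp⟩
  refine ⟨lam, ?_, fun y hy => ?_, lP, fun e he a ha b hb ae be => ?_, fun y hy => ?_⟩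
  · rw [funext hlam]
    exact continuousOn_finsetSum _ fun v _ =>
      ((continuous_apply v).comp_continuousOn K.cont).smul continuousOn_const
  · exact hlam y ▸ (convex_stdSimplex ℝ N).sum_mem (fun v _ => (K.basic hy).1 v) (K.basic hy).2.1
      fun v _ => GS v
  · obtain ⟨d, hd, h1⟩ := C.ed e he
    have h2 := h1.trans (dJ d hd)
    refine ⟨d, hd, h2, ?_⟩
    by_cases hab : a = b
    · subst hab
      exact ⟨{a}, singleton_subset_iff.2 (h2 ae), isPreconnected_singleton, rfl, rfl,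
        fun z hz => by rw [hz, lP a ha]; exact left_mem_segment ℝ _ _⟩
    obtain ⟨v, rfl⟩ := rE e he
    obtain ⟨w, hw⟩ := rD d hd
    obtain ⟨u, hu⟩ := rP a ha
    have h3 : c u ⊆ c v := hu ▸ singleton_subset_iff.2 ae
    have h4 : c v ⊆ c w := hw ▸ h2
    obtain ⟨S, s1, s2, s3, s4, s5⟩ := path {u, v, w}
      ((hT _).2 ⟨u, v, w, rfl, ⟨a, ha, hu⟩, he, ⟨d, hd, hw⟩, h3, h4⟩) w (by simp) d hd hw
      (adj u v w ⟨a, ha, hu⟩ he d hd hw h3 h4) a (hpt u a hu ▸ fpt _ u (by simp)) v (by simp) b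
      ((hQ v b).2 ⟨hb, be⟩)
    refine ⟨S, s1, s2, s3, s4, s5 _ (convex_segment _ _) (lP a ha ▸ left_mem_segment ℝ _ _)
      (GW v _ (convex_segment _ _) fun p hp => ?_) (right_mem_segment ℝ _ _)⟩
    obtain ⟨a', b', -, h5⟩ := C.arc _ he
    have a1 : a ∈ ({a', b'} : Set ℂ) := h5 ▸ ⟨ae, ha⟩
    have a2 : b ∈ ({a', b'} : Set ℂ) := h5 ▸ ⟨be, hb⟩
    have a3 : p ∈ ({a', b'} : Set ℂ) := h5 ▸ ((hQ v p).1 hp).symm
    have a4 : p = a ∨ p = b := by
      simp only [mem_insert_iff, mem_singleton_iff] at a1 a2 a3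
      rcases a1 with rfl | rfl <;> rcases a2 with rfl | rfl <;> tauto
    rcases a4 with rfl | rfl
    exacts [left_mem_segment ℝ _ _, right_mem_segment ℝ _ _]
  · obtain ⟨y0, y1, t, ht, hyt⟩ := K.basic hy
    obtain ⟨a, b, w, rfl, ha, hb, ⟨d, hd, hw⟩, h1, h2⟩ := (hT t).1 ht
    have pa := path _ ht w (by simp) d hd hw (adj a b w ha hb d hd hw h1 h2) y hyt
    refine ⟨d, hd, hw ▸ hf _ ht w (by simp) ⟨d, hd, hw⟩ hyt, fun n hn => ?_, fun u => ?_⟩
    · rw [hlam, Finset.sum_apply] at hn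
      obtain ⟨x, -, hx⟩ := Finset.exists_ne_zero_of_sum_ne_zero hn
      rw [Pi.smul_apply, smul_eq_mul, mul_ne_zero_iff, hG, Finset.sum_apply] at hx
      obtain ⟨p, hp, hp'⟩ := Finset.exists_ne_zero_of_sum_ne_zero hx.2
      rw [Pi.smul_apply, smul_eq_mul, mul_ne_zero_iff] at hp'
      obtain ⟨S, s1, s2, s3, s4, s5⟩ := pa x (by_contra fun h => hx.1 (hyt.2 x h)) p hp
      have g1 : ∀ m, lam y m = 0 → G x m = 0 := fun m hm => by
        rw [hlam, Finset.sum_apply] at hm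
        exact (mul_eq_zero.1 ((Finset.sum_eq_zero_iff_of_nonneg fun v _ =>
          mul_nonneg (y0 v) ((GS v).1 m)).1 hm x (Finset.mem_univ x))).resolve_left hx.1
      have g2 : ∀ m, G x m = 0 → val p m = 0 := fun m hm => by
        rw [hG, Finset.sum_apply] at hm
        exact (mul_eq_zero.1 ((Finset.sum_eq_zero_iff_of_nonneg fun q hq => mul_nonneg
          (inv_pos.2 (c0 x)).le ((hv q ((hQ x q).1 hq).1).1 m)).1 hm p hp)).resolve_left hp'.1
      refine ⟨p, ((hQ x p).1 hp).1, hp'.2, S, s1, s2, s3, s4, fun z hz m hm h => hm ?_⟩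
      refine s5 {f | f m = 0} (fun f hf g hg s r _ _ _ => ?_) h (g1 m h) (g2 m (g1 m h)) z hz
      simp [show f m = 0 from hf, show g m = 0 from hg]
    · have e1 : ∑ v ∈ ({a, b, w} : Finset K.V), K.lam y v = 1 :=
        (Finset.sum_subset (Finset.subset_univ _) fun v _ h => hyt.2 v h).trans y1
      have e2 : ∑ v ∈ ({a, b, w} : Finset K.V), K.lam y v • G v = lam y :=
        (Finset.sum_subset (Finset.subset_univ _) fun v _ h => by
          rw [hyt.2 v h, zero_smul]).trans (hlam y).symm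
      obtain ⟨x, hx, g1⟩ := cell_weights_max u (fun v _ => y0 v) e1 G
      obtain ⟨p, hp, g2⟩ := cell_weights_max u (fun _ _ => (inv_pos.2 (c0 x)).le) (c1 x) val
      rw [e2] at g1
      rw [← hG] at g2
      obtain ⟨S, s1, s2, s3, s4, s5⟩ := pa x hx p hp
      exact ⟨p, ((hQ x p).1 hp).1, S, s1, s2, s3, s4,
        s5 _ (convex_halfSpace_ge (cell_weights_lin u) (cmb u (lam y))) (le_refl (cmb u (lam y))) g1
          (g1.trans g2)⟩

end Pool.Agent.MP_17e62b_gt.G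

end

section
/-! The two halves. -/

namespace Pool.Agent.MP_17e62b_gt.G

open Set Filter Topology Metric
open scoped BigOperators InnerProductSpace Classical
open H14
open T55 (af Sq SqH SqV Cells Nbr vert)
open Pool.Agent.MP_4a6971_al.H83 (PArc)

variable {Λ : Lens} {L₀ : Finset (ℂ × ℝ)} {μ : ℝ} {n : ℕ} {v : ℕ → ℂ} {γ : ℝ → ℂ} {k : ℂ ≃ₜ ℂ}
  {Nd : Finset ℂ} {r : Nd → Nd → ℝ}

theorem side_mem (k : ℂ ≃ₜ ℂ) (A : Set ℂ) (w : ℂ) : w ∈ k '' A ↔ k.symm w ∈ A :=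
  ⟨by rintro ⟨z, hz, rfl⟩; simpa using hz, fun h => ⟨_, h, k.apply_symm_apply w⟩⟩

theorem side_arc (h : Setup Λ L₀ μ n v γ k Nd r) (w : ℂ) :
    w ∈ γ '' Icc 0 1 ↔ k.symm w ∈ Sq ∧ (k.symm w).re = 1 / 2 := by
  constructor
  · rintro ⟨t, ht, rfl⟩
    rw [← h.mid t ht, k.symm_apply_apply]
    exact ⟨⟨⟨by norm_num, by norm_num⟩, ht⟩, rfl⟩
  · rintro ⟨h1, h2⟩
    refine ⟨(k.symm w).im, h1.2, ?_⟩
    rw [← h.mid _ h1.2, ← h2]
    exact k.apply_symm_apply w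

theorem side_closed (i : Bool) : IsClosed (Half i) := by
  have h1 : IsClosed Sq := (isClosed_Icc.preimage Complex.continuous_re).inter
    (isClosed_Icc.preimage Complex.continuous_im)
  cases i
  · exact h1.inter (isClosed_le Complex.continuous_re continuous_const)
  · exact h1.inter (isClosed_le continuous_const Complex.continuous_re)

theorem side_dense (i : Bool) : Half i ⊆ closure (Half i \ {z | z.re = 1 / 2}) := by
  intro z hz
  by_cases e : z.re = 1 / 2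
  swap
  · exact subset_closure ⟨hz, e⟩
  refine closure_mono ?_ (segment_subset_closure_openSegment
    (left_mem_segment ℝ z (⟨if i then 1 else 0, z.im⟩ : ℂ)))
  rintro _ ⟨a, b, ha, hb, hab, rfl⟩
  have h2 : (a • z + b • (⟨if i then 1 else 0, z.im⟩ : ℂ)).im = z.im := by
    simp only [Complex.add_im, Complex.smul_im, smul_eq_mul]
    rw [← add_mul, hab, one_mul]
  have h1 : (a • z + b • (⟨if i then 1 else 0, z.im⟩ : ℂ)).re =
      a * (1 / 2) + b * if i then 1 else 0 := by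
    simp only [Complex.add_re, Complex.smul_re, smul_eq_mul, e]
  refine ⟨⟨⟨?_, by rw [h2]; exact hz.1.2⟩, ?_⟩, ?_⟩
  · rw [h1]
    cases i <;> simp only [if_true, if_false, Bool.false_eq_true] <;> constructor <;> linarith only [ha, hb, hab]
  · rw [h1]
    cases i <;> simp only [if_true, if_false, Bool.false_eq_true] <;> linarith only [hb, hab]
  · rw [mem_ofPred_eq, h1]
    cases i <;> simp only [if_true, if_false, Bool.false_eq_true] <;> intro q <;> linarith only [hb, hab, q]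

/-- I5. A connected set that misses the arc lies in one half. -/
theorem Setup.side (h : Setup Λ L₀ μ n v γ k Nd r) :
    (k '' Half false ∪ k '' Half true = Λ.P) ∧ (k '' Half false ∩ k '' Half true = γ '' Icc 0 1) ∧
      (∀ i, IsClosed (k '' Half i)) ∧ (∀ i, k '' Half i ⊆ closure (k '' Half i \ γ '' Icc 0 1)) ∧
      ∀ S ⊆ Λ.P, IsPreconnected S → Disjoint S (γ '' Icc 0 1) → ∀ i,
        (S ∩ k '' Half i).Nonempty → S ⊆ k '' Half i := by
  have hP : ∀ w, w ∈ Λ.P ↔ k.symm w ∈ Sq := fun w => by rw [← h.sq, side_mem]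
  refine ⟨?_, ?_, fun i => k.isClosedMap _ (side_closed i), fun i => ?_, ?_⟩
  · ext w
    rw [mem_union, side_mem, side_mem, hP]
    refine ⟨fun q => q.elim (·.1) (·.1), fun q => ?_⟩
    rcases le_total (k.symm w).re (1 / 2) with e | e
    · exact Or.inl ⟨q, e⟩
    · exact Or.inr ⟨q, e⟩
  · ext w
    rw [mem_inter_iff, side_mem, side_mem, side_arc h]
    exact ⟨fun q => ⟨q.1.1, le_antisymm q.1.2 q.2.2⟩, fun q => ⟨⟨q.1, q.2.le⟩, q.1, q.2.ge⟩⟩
  · refine (image_mono (side_dense i)).trans ((image_closure_subset_closure_image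
      k.continuous).trans (closure_mono ?_))
    rintro _ ⟨z, hz, rfl⟩
    refine ⟨mem_image_of_mem _ hz.1, fun q => hz.2 ?_⟩
    simpa using ((side_arc h _).1 q).2
  · rintro S hS hc hd i ⟨a, ha, ha'⟩ b hb
    have key : ∀ x ∈ S, ∀ y ∈ S, (k.symm x).re ≤ 1 / 2 → ¬ 1 / 2 ≤ (k.symm y).re := by
      intro x hx y hy h1 h2
      obtain ⟨w, hw, e⟩ := hc.intermediate_value hx hy (f := fun w => (k.symm w).re)
        (Continuous.continuousOn (by fun_prop)) ⟨h1, h2⟩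
      exact disjoint_left.1 hd hw ((side_arc h w).2 ⟨(hP w).1 (hS hw), e⟩)
    rw [side_mem] at ha' ⊢
    refine ⟨(hP b).1 (hS hb), ?_⟩
    cases i
    · exact (not_le.1 (key a ha b hb ha'.2)).le
    · exact le_of_not_ge fun q => key b hb a ha q ha'.2

theorem edge_half_up (hn : 0 < n) {t : ℝ} (ht : t ∈ Ico (0 : ℝ) 1) :
    ∃ i < n, ∃ τ ∈ Ico (0 : ℝ) 1, t = (i + τ) / n := by
  have h0 : (0 : ℝ) < n := by exact_mod_cast hn
  have h1 : 0 ≤ t * n := mul_nonneg ht.1 h0.le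
  refine ⟨⌊t * n⌋₊, (Nat.floor_lt h1).2 (by nlinarith only [ht.2, h0]), t * n - ⌊t * n⌋₊,
    ⟨sub_nonneg.2 (Nat.floor_le h1), by linarith only [Nat.lt_floor_add_one (t * n)]⟩, ?_⟩
  field_simp
  ring

theorem edge_half_down (hn : 0 < n) {t : ℝ} (ht : t ∈ Ioc (0 : ℝ) 1) :
    ∃ i < n, ∃ τ ∈ Ioc (0 : ℝ) 1, t = (i + τ) / n := by
  have h0 : (0 : ℝ) < n := by exact_mod_cast hn
  obtain ⟨i, hi, τ, hτ, e⟩ := edge_half_up hn (t := 1 - t) ⟨by linarith only [ht.2], by linarith only [ht.1]⟩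
  refine ⟨n - (i + 1), by omega, 1 - τ, ⟨by linarith only [hτ.2], by linarith only [hτ.1]⟩, ?_⟩
  rw [eq_div_iff h0.ne'] at e ⊢
  rw [Nat.cast_sub (by omega)]
  push_cast
  linarith only [e]

theorem edge_half_grid {l : ℂ × ℝ} (hl : l ∈ grid μ) : l.1 ≠ 0 := by
  intro e
  have e' := congrArg Complex.re e
  simp only [grid, Finset.mem_union, Finset.mem_image] at hl
  rcases hl with ⟨j, -, rfl⟩ | ⟨j, -, rfl⟩ <;> norm_num at e'

theorem edge_half_af {l : ℂ × ℝ} {a b : ℂ} (ha : af l a = 0) (hb : af l b = 0) (t : ℝ) :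
    af l (AffineMap.lineMap a b t) = 0 := by
  rw [AffineMap.lineMap_apply, vsub_eq_sub, vadd_eq_add, add_comm, T55.a11_add, T55.a11_sub, ha, hb]
  ring

theorem edge_half_ne (h : Setup Λ L₀ μ n v γ k Nd r) {p p' : Nd} (hp : 0 < r p p') {z : ℂ}
    (hz : z ∈ openSegment ℝ (p : ℂ) p') : z ≠ p ∧ z ≠ p' := by
  have hne : (p : ℂ) ≠ p' := fun e => h.good.pnet.vert p p' hp (by rw [e])
  exact ⟨fun e => hne (left_mem_openSegment_iff.1 (e ▸ hz)),
    fun e => hne (right_mem_openSegment_iff.1 (e ▸ hz))⟩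

theorem edge_half_piece (h : Setup Λ L₀ μ n v γ k Nd r) {p p' : Nd} (hp : 0 < r p p') {i : ℕ}
    (hi : i < n) {τ : ℝ} (hτ : τ ∈ Icc (0 : ℝ) 1)
    (hz : γ ((i + τ) / n) ∈ openSegment ℝ (p : ℂ) p') {s : ℝ} (h1 : (i : ℝ) / n ≤ s)
    (h2 : s ≤ (i + 1) / n) : ∃ c : ℝ, γ s = p + c • ((p' : ℂ) - p) := by
  have h0 : (0 : ℝ) < n := by exact_mod_cast (Nat.zero_le i).trans_lt hi
  have hne : (p : ℂ) ≠ p' := fun e => h.good.pnet.vert p p' hp (by rw [e])
  obtain ⟨l, hl, ha, hb⟩ := h.arc.line i hi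
  have h3 : af l (γ ((i + τ) / n)) = 0 := by rw [h.arc.lin i hi τ hτ]; exact edge_half_af ha hb τ
  have h4 : af l p = af l p' := by
    by_contra q
    exact (h.cut p p' hp l hl q _ (openSegment_subset_segment _ _ _ hz) h3).elim
      (edge_half_ne h hp hz).1 (edge_half_ne h hp hz).2
  have h5 : (l.1 * ((p' : ℂ) - p)).re = 0 := by rw [T55.a11_sub, h4, sub_self]
  have h6 : af l p = 0 := by
    rw [openSegment_eq_image'] at hz
    obtain ⟨c, -, e⟩ := hz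
    rw [← e] at h3
    rwa [T55.a11_add, h5, mul_zero, add_zero] at h3
  have h7 : af l (γ s) = 0 := by
    rw [div_le_iff₀ h0] at h1
    rw [le_div_iff₀ h0] at h2
    have e : s = (i + (s * n - i)) / n := by field_simp; ring
    rw [e, h.arc.lin i hi _ ⟨by linarith only [h1], by linarith only [h2]⟩]
    exact edge_half_af ha hb _
  obtain ⟨c, hc⟩ := T55.a11_col (edge_half_grid hl) (sub_ne_zero.2 hne.symm) h5
    (w := γ s - p) (by rw [T55.a11_sub, h6, h7, sub_self])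
  exact ⟨c, by rw [← hc]; ring⟩

theorem edge_half_near (h : Setup Λ L₀ μ n v γ k Nd r) {p p' : Nd} (hp : 0 < r p p') {c₀ : ℝ}
    (hc : c₀ ∈ Ioo (0 : ℝ) 1) (hz : p + c₀ • ((p' : ℂ) - p) ∈ γ '' Icc 0 1) :
    ∀ᶠ c in 𝓝 c₀, p + c • ((p' : ℂ) - p) ∈ γ '' Icc 0 1 := by
  obtain ⟨t, ht, e⟩ := hz
  have ho : γ t ∈ openSegment ℝ (p : ℂ) p' := by
    rw [openSegment_eq_image']
    exact ⟨c₀, hc, e.symm⟩
  have hn : 0 < n := by have := h.arc.two; omega
  have h0 : (0 : ℝ) < n := by exact_mod_cast hn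
  have hi : γ t ∈ Λ.P → γ t ∈ interior Λ.P := fun hm => by
    by_contra q
    have hs := openSegment_subset_segment _ _ _ ho
    have h1 := h.good.vt _ (h.good.fr _ ⟨p, p', hp, hs⟩ ⟨subset_closure hm, q⟩)
    rcases h.good.pnet.node p p' hp ⟨_, h1⟩ hs with q | q
    · exact (edge_half_ne h hp ho).1 (congrArg Subtype.val q)
    · exact (edge_half_ne h hp ho).2 (congrArg Subtype.val q)
  have t0 : 0 < t := ht.1.lt_of_ne fun q => by
    subst q
    exact h.arc.arc.n0 (hi h.arc.arc.m0)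
  have t1 : t < 1 := ht.2.lt_of_ne fun q => by
    subst q
    exact h.arc.arc.n1 (hi h.arc.arc.m1)
  obtain ⟨i, hi, τ, hτ, e1⟩ := edge_half_up hn ⟨ht.1, t1⟩
  obtain ⟨j, hj, τ', hτ', e2⟩ := edge_half_down hn ⟨t0, ht.2⟩
  have ha : (j : ℝ) / n < t := by rw [e2]; gcongr; linarith only [hτ'.1]
  have ha' : t ≤ (j + 1) / n := by rw [e2]; gcongr; exact hτ'.2
  have hb : t < (i + 1) / n := by rw [e1]; gcongr; exact hτ.2
  have hb' : (i : ℝ) / n ≤ t := by rw [e1]; gcongr; linarith only [hτ.1]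
  have hsub : Icc ((j : ℝ) / n) ((i + 1) / n) ⊆ Icc 0 1 :=
    Icc_subset_Icc (by positivity) ((div_le_one h0).2 (by exact_mod_cast hi))
  have hl : ∀ s ∈ Icc ((j : ℝ) / n) ((i + 1) / n), ∃ c : ℝ, γ s = p + c • ((p' : ℂ) - p) := by
    intro s hs
    rcases le_total s t with q | q
    · exact edge_half_piece h hp hj (Ioc_subset_Icc_self hτ') (e2 ▸ ho) hs.1 (q.trans ha')
    · exact edge_half_piece h hp hi (Ico_subset_Icc_self hτ) (e1 ▸ ho) (hb'.trans q) hs.2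
  have hu : ((p' : ℂ) - p).re ≠ 0 := by
    rw [Complex.sub_re]
    exact sub_ne_zero.2 (h.good.pnet.vert p p' hp).symm
  have hre : ∀ c c' : ℝ, (p + c • ((p' : ℂ) - p)).re = (p + c' • ((p' : ℂ) - p)).re → c = c' := by
    intro c c' q
    simp only [Complex.add_re, Complex.smul_re, smul_eq_mul, add_right_inj] at q
    exact mul_right_cancel₀ hu q
  have hg : ContinuousOn (fun s => (γ s).re) (Icc ((j : ℝ) / n) ((i + 1) / n)) :=
    Complex.continuous_re.comp_continuousOn (h.arc.arc.cont.mono hsub)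
  have hinj : InjOn (fun s => (γ s).re) (Icc ((j : ℝ) / n) ((i + 1) / n)) := by
    intro s hs s' hs' q
    obtain ⟨c, f⟩ := hl s hs
    obtain ⟨c', f'⟩ := hl s' hs'
    refine h.arc.arc.inj (hsub hs) (hsub hs') ?_
    simp only [f, f'] at q
    rw [f, f', hre c c' q]
  have hab := (ha.trans hb).le
  have hev : ∀ᶠ x in 𝓝 (γ t).re, x ∈ (fun s => (γ s).re) '' Icc ((j : ℝ) / n) ((i + 1) / n) := by
    rcases hg.strictMonoOn_of_injOn_Icc' hab hinj with q | q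
    · exact mem_of_superset (Icc_mem_nhds (q (left_mem_Icc.2 hab) ⟨ha.le, hb.le⟩ ha)
        (q ⟨ha.le, hb.le⟩ (right_mem_Icc.2 hab) hb)) (intermediate_value_Icc hab hg)
    · exact mem_of_superset (Icc_mem_nhds (q ⟨ha.le, hb.le⟩ (right_mem_Icc.2 hab) hb)
        (q (left_mem_Icc.2 hab) ⟨ha.le, hb.le⟩ ha)) (intermediate_value_Icc' hab hg)
  have hφ : Tendsto (fun c : ℝ => (p + c • ((p' : ℂ) - p)).re) (𝓝 c₀) (𝓝 (γ t).re) :=
    Continuous.tendsto' (by fun_prop) _ _ (by rw [e])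
  filter_upwards [hφ.eventually hev] with c ⟨s, hs, q⟩
  obtain ⟨c', f⟩ := hl s hs
  simp only [f] at q
  exact ⟨s, hsub hs, by rw [f, hre c' c q]⟩

theorem edge_half_arc (h : Setup Λ L₀ μ n v γ k Nd r) {p p' : Nd} (hp : 0 < r p p')
    (hz : ¬ Disjoint (openSegment ℝ (p : ℂ) p') (γ '' Icc 0 1)) :
    segment ℝ (p : ℂ) p' ⊆ γ '' Icc 0 1 := by
  have hc : IsClosed (γ '' Icc 0 1) := (isCompact_Icc.image_of_continuousOn h.arc.arc.cont).isClosed
  refine segment_subset_closure_openSegment.trans (closure_minimal ?_ hc)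
  rw [openSegment_eq_image'] at hz ⊢
  obtain ⟨_, ⟨c₀, h1, rfl⟩, h2⟩ := not_disjoint_iff.1 hz
  have hc' : IsClosed {c : ℝ | p + c • ((p' : ℂ) - p) ∈ γ '' Icc 0 1} :=
    hc.preimage (f := fun c : ℝ => p + c • ((p' : ℂ) - p)) (by fun_prop)
  have key := isPreconnected_Ioo.subset_of_closure_inter_subset
    (u := interior {c : ℝ | p + c • ((p' : ℂ) - p) ∈ γ '' Icc 0 1}) isOpen_interior
    ⟨c₀, h1, mem_interior_iff_mem_nhds.2 (edge_half_near h hp h1 h2)⟩ fun c q =>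
      mem_interior_iff_mem_nhds.2 (edge_half_near h hp q.2
        (closure_minimal interior_subset hc' q.1))
  rintro _ ⟨c, q, rfl⟩
  have q' := interior_subset (key q)
  exact q'

/-- I6. Hint: if the open edge meets the arc in `z`, the edge lies on the line of every piece of
the arc through `z` (`cut`); `z` is not an end of the arc (`Good.fr`, `PNet.node`); so the points
of the open edge on the arc form an open and closed subset. Otherwise `Setup.side`. -/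
theorem Setup.edge_half (h : Setup Λ L₀ μ n v γ k Nd r) {p p' : Nd} (hp : 0 < r p p') :
    (∃ i, segment ℝ (p : ℂ) p' ⊆ k '' Half i) ∧ ∀ i, ∀ w ∈ openSegment ℝ (p : ℂ) p',
      w ∈ k '' Half i → segment ℝ (p : ℂ) p' ⊆ k '' Half i := by
  obtain ⟨s1, s2, s3, -, s5⟩ := h.side
  have hP : openSegment ℝ (p : ℂ) p' ⊆ Λ.P := fun z hz =>
    h.good.pnet.eg_sub ⟨p, p', hp, openSegment_subset_segment _ _ _ hz⟩
  have key : ∀ i, ∀ w ∈ openSegment ℝ (p : ℂ) p', w ∈ k '' Half i →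
      segment ℝ (p : ℂ) p' ⊆ k '' Half i := by
    intro i w hw hw'
    by_cases hd : Disjoint (openSegment ℝ (p : ℂ) p') (γ '' Icc 0 1)
    · exact segment_subset_closure_openSegment.trans (closure_minimal
        (s5 _ hP (convex_openSegment _ _).isPreconnected hd i ⟨w, hw, hw'⟩) (s3 i))
    · refine (edge_half_arc h hp hd).trans ?_
      rw [← s2]
      cases i
      · exact inter_subset_left
      · exact inter_subset_right
  refine ⟨?_, key⟩
  have hm : midpoint ℝ (p : ℂ) p' ∈ openSegment ℝ (p : ℂ) p' := midpoint_mem_openSegment _ _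
  have hm' := hP hm
  rw [← s1] at hm'
  exact hm'.elim (fun q => ⟨_, key _ _ hm q⟩) fun q => ⟨_, key _ _ hm q⟩

theorem cells_cast {A B : Set ℂ} (e : A = B) (C : Cells A) :
    ∃ C' : Cells B, C'.P = C.P ∧ C'.E = C.E ∧ C'.D = C.D := by
  subst e
  exact ⟨C, rfl, rfl, rfl⟩

theorem cells_line (h : Setup Λ L₀ μ n v γ k Nd r) {w : ℂ} (hw : w ∈ γ '' Icc 0 1) :
    ∃ l ∈ grid μ, af l w = 0 := by
  obtain ⟨t, ht, rfl⟩ := hw
  have hn : 0 < n := by have := h.arc.two; omega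
  obtain ⟨i, hi, τ, hτ, e⟩ : ∃ i < n, ∃ τ ∈ Icc (0 : ℝ) 1, t = (i + τ) / n := by
    rcases ht.1.eq_or_lt with q | q
    · exact ⟨0, hn, 0, left_mem_Icc.2 zero_le_one, by simp [← q]⟩
    · obtain ⟨i, hi, τ, hτ, e⟩ := edge_half_down hn ⟨q, ht.2⟩
      exact ⟨i, hi, τ, Ioc_subset_Icc_self hτ, e⟩
  obtain ⟨l, hl, ha, hb⟩ := h.arc.line i hi
  exact ⟨l, hl, by rw [e, h.arc.lin i hi τ hτ]; exact edge_half_af ha hb τ⟩

theorem cells_open {l : ℂ × ℝ} {z w x : ℂ} (hz : af l z ≠ 0) (hw : 0 ≤ af l z * af l w)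
    (hx : x ∈ openSegment ℝ z w) : af l x ≠ 0 := by
  rw [openSegment_eq_image'] at hx
  obtain ⟨c, hc, rfl⟩ := hx
  intro e
  simp only [T55.a11_add, T55.a11_sub] at e
  have h1 := mul_pos (sub_pos.2 hc.2) (mul_self_pos.2 hz)
  have h2 := mul_nonneg hc.1.le hw
  have h3 : af l z * (af l z + c * (af l w - af l z)) = 0 := by rw [e, mul_zero]
  linarith only [h1, h2, h3]

theorem cells_side (h : Setup Λ L₀ μ n v γ k Nd r) {L : Finset (ℂ × ℝ)} (hL : grid μ ⊆ L)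
    {z : ℂ} (hz : ∀ l ∈ L, af l z ≠ 0) {d : Set ℂ} (hd : d = {w | ∀ l ∈ L, 0 ≤ af l z * af l w})
    (hP : d ⊆ Λ.P) (hc : Convex ℝ d) (i : Bool) {w : ℂ} (hw : w ∈ d) (h1 : w ∉ γ '' Icc 0 1)
    (h2 : w ∈ k '' Half i) : d ⊆ k '' Half i := by
  obtain ⟨-, -, s3, -, s5⟩ := h.side
  have hzd : z ∈ d := hd ▸ fun l _ => mul_self_nonneg _
  have k1 : ∀ y ∈ d, ∀ x ∈ openSegment ℝ z y, x ∉ γ '' Icc 0 1 := fun y hy x hx q => by
    obtain ⟨l, hl, e⟩ := cells_line h q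
    exact cells_open (hz l (hL hl)) (hd.le hy l (hL hl)) hx e
  have k2 : ∀ y ∈ d, y ∉ γ '' Icc 0 1 → (segment ℝ z y ∩ k '' Half i).Nonempty →
      segment ℝ z y ⊆ k '' Half i := fun y hy q => by
    refine s5 _ ((hc.segment_subset hzd hy).trans hP) (convex_segment _ _).isPreconnected
      (disjoint_left.2 fun x hx => ?_) i
    rw [← insert_endpoints_openSegment] at hx
    rcases hx with rfl | rfl | hx
    · exact k1 x hzd x (by simp)
    · exact q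
    · exact k1 y hy x hx
  have k3 := k2 w hw h1 ⟨w, right_mem_segment _ _ _, h2⟩ (left_mem_segment _ _ _)
  intro y hy
  refine closure_minimal (fun x hx => ?_) (s3 i)
    (segment_subset_closure_openSegment (right_mem_segment ℝ z y))
  exact k2 x (hc.openSegment_subset hzd hy hx) (k1 y hy x hx) ⟨z, left_mem_segment _ _ _, k3⟩
    (right_mem_segment _ _ _)

/-- I10. Hint: `arrangement`, `Cells.sub` with the discs inside the half. The interior of a disc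
misses the arc; `Setup.side`. -/
theorem Setup.cells (h : Setup Λ L₀ μ n v γ k Nd r) {σ : ℝ} {L : Finset (ℂ × ℝ)}
    (hL : Lines Λ L₀ μ n v r σ L) (i : Bool) :
    ∃ C : Cells (k '' Half i), C.P = vert L Λ.P ∩ k '' Half i ∧
      C.E = {e | ∃ a b, Nbr L Λ.P a b ∧ e = segment ℝ a b ∧ e ⊆ k '' Half i} ∧
      ∀ d ∈ C.D, ∀ x ∈ d.1, ∀ y ∈ d.1, ‖x - y‖ ≤ 2 * σ := by
  obtain ⟨s1, -, -, s4, -⟩ := h.side
  obtain ⟨C, p1, p2, p3, p4⟩ := T55.arrangement hL.sub.1 hL.ne h.poly.2 (Λ.compact_reg 0)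
    ⟨0, mem_interior_iff_mem_nhds.2 (Λ.nhds_reg le_rfl)⟩
  obtain ⟨C', q1, q2, q3⟩ := C.sub (D' := {d ∈ C.D | d.1 ⊆ k '' Half i}) (sep_subset _ _)
  have hP : k '' Half i ⊆ Λ.P := by
    rw [← s1]
    cases i
    · exact subset_union_left
    · exact subset_union_right
  have e : ⋃ d ∈ {d ∈ C.D | d.1 ⊆ k '' Half i}, d.1 = k '' Half i := by
    refine Subset.antisymm (iUnion₂_subset fun d hd => hd.2)
      ((s4 i).trans (closure_minimal (fun w hw => ?_) C'.compact.isClosed))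
    have h1 := hP hw.1
    rw [← C.cover] at h1
    obtain ⟨d, hd, h2⟩ := mem_iUnion₂.1 h1
    obtain ⟨z, -, h3, h4, -⟩ : d ∈ {d : Set ℂ × Set ℂ | _} := p3 ▸ hd
    exact mem_iUnion₂.2 ⟨d, ⟨hd, cells_side h hL.sub.2 h3 h4 (T55.a4_d C hd).1 (p4 d hd).1 i h2
      hw.2 hw.1⟩, h2⟩
  have hd2 : ∀ d ∈ C.D, d.2 ⊆ d.1 := fun d hd => (C.dsc d hd).basic.2.2.1
  obtain ⟨C'', r1, r2, r3⟩ := cells_cast e C'
  refine ⟨C'', ?_, ?_, fun d hd x hx y hy => ?_⟩
  · rw [r1, q3]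
    refine Subset.antisymm (fun x ⟨hx, d, hd, h1⟩ => ⟨p1 ▸ hx, hd.2 (hd2 d hd.1 h1)⟩)
      fun x hx => ?_
    have h1 : x ∈ C.P := p1 ▸ hx.1
    obtain ⟨d, hd, h2⟩ := mem_iUnion₂.1 (e.ge hx.2)
    obtain ⟨f, hf, h3⟩ := C.pe x h1
    exact ⟨h1, d, hd, C.de d hd.1 f hf ⟨h2, h3⟩⟩
  · rw [r2, q2]
    refine Subset.antisymm (fun f ⟨hf, d, hd, h1⟩ => ?_) fun f ⟨a, b, h1, h2, h3⟩ => ?_
    · obtain ⟨a, b, h2, h3⟩ : f ∈ {e : Set ℂ | _} := p2 ▸ hf
      exact ⟨a, b, h2, h3, h1.trans ((hd2 d hd.1).trans hd.2)⟩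
    · have hf : f ∈ C.E := p2 ▸ ⟨a, b, h1, h2⟩
      have hm : midpoint ℝ a b ∈ openSegment ℝ a b := midpoint_mem_openSegment _ _
      obtain ⟨d, hd, h4⟩ := mem_iUnion₂.1 (e.ge (h3 (h2 ▸ openSegment_subset_segment _ _ _ hm)))
      refine ⟨hf, d, hd, fun y hy => C.de d hd.1 f hf ⟨?_, hy⟩⟩
      obtain ⟨z, -, -, h5, -⟩ : d ∈ {d : Set ℂ × Set ℂ | _} := p3 ▸ hd.1
      have h6 := (T55.a11_face hL.ne (Λ.convex_reg 0) h1 hm y).1 (h2 ▸ hy)
      rw [h5] at h4 ⊢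
      exact fun l hl => T55.a11_sign (h4 l hl) (h6 l hl).1 (h6 l hl).2
  · rw [r3, q1] at hd
    obtain ⟨z, hz, -, h5, -⟩ : d ∈ {d : Set ℂ × Set ℂ | _} := p3 ▸ hd.1
    have k1 : ∀ x ∈ d.1, ‖x - z‖ ≤ σ := fun x hx =>
      hL.small z hz x ((T55.a4_d C hd.1).1 hx) (h5.le hx)
    have k2 := norm_sub_le (x - z) (y - z)
    rw [sub_sub_sub_cancel_right] at k2
    linarith only [k1 x hx, k1 y hy, k2]

end Pool.Agent.MP_17e62b_gt.G

end

section
/-! Reaching the network. -/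

namespace Pool.Agent.MP_17e62b_gt.G

open Set Filter Topology Metric
open scoped BigOperators InnerProductSpace Classical
open H14
open T55 (af Sq SqH SqV Cells Nbr vert)
open Pool.Agent.MP_4a6971_al.H83 (PArc)

variable {Λ : Lens} {L₀ : Finset (ℂ × ℝ)} {μ : ℝ} {n : ℕ} {v : ℕ → ℂ} {γ : ℝ → ℂ} {k : ℂ ≃ₜ ℂ}
  {Nd : Finset ℂ} {r : Nd → Nd → ℝ}

theorem piece_af (l : ℂ × ℝ) (a b : ℂ) (t : ℝ) :
    af l (AffineMap.lineMap a b t) = (1 - t) * af l a + t * af l b := by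
  rw [AffineMap.lineMap_apply_module', add_comm, T55.a11_add, T55.a11_sub]
  ring

theorem piece_af_seg {l : ℂ × ℝ} {a b z : ℂ} (la : af l a = 0) (lb : af l b = 0)
    (hz : z ∈ segment ℝ a b) : af l z = 0 := by
  rw [segment_eq_image_lineMap] at hz
  obtain ⟨t, -, rfl⟩ := hz
  rw [piece_af, la, lb]
  ring

theorem piece_norm (a b : ℂ) (s t : ℝ) :
    ‖(AffineMap.lineMap a b t : ℂ) - AffineMap.lineMap a b s‖ = |t - s| * ‖b - a‖ := by
  have : (AffineMap.lineMap a b t : ℂ) - AffineMap.lineMap a b s = (t - s) • (b - a) := by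
    rw [AffineMap.lineMap_apply_module', AffineMap.lineMap_apply_module', sub_smul]
    abel
  rw [this, norm_smul, Real.norm_eq_abs]

/-- I7. A straight piece of the arc of length `3 σ` contains a node. Hint: `Den` at the midpoint in
the direction of the piece gives `z` on an edge; either the edge is not parallel to the line
(`cut`), or `node_of_cross` applies. -/
theorem Setup.piece (h : Setup Λ L₀ μ n v γ k Nd r) {l : ℂ × ℝ} (hl : l ∈ grid μ) {a b : ℂ}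
    (la : af l a = 0) (lb : af l b = 0) {σ : ℝ} (hσ : 0 < σ) (hab : 3 * σ ≤ ‖b - a‖)
    (hd : Den r (midpoint ℝ a b) σ) : ∃ z ∈ openSegment ℝ a b, z ∈ Nd := by
  obtain ⟨-, hs⟩ := grid_steep hl
  have hN : 0 < ‖b - a‖ := by linarith
  have hst := hs a b (la.trans lb.symm)
  obtain ⟨t, ht, w, hw, hseg, hfl⟩ := hd ((‖b - a‖⁻¹ : ℝ) • (b - a))
    (by rw [norm_smul, norm_inv, norm_norm, inv_mul_cancel₀ hN.ne'])
    (by
      rw [Complex.smul_re, Complex.smul_im, smul_eq_mul, smul_eq_mul, abs_mul, abs_mul, ← hst]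
      exact le_of_eq (by ring))
  have hz : midpoint ℝ a b + t • ((‖b - a‖⁻¹ : ℝ) • (b - a)) =
      AffineMap.lineMap a b (1 / 2 + t * ‖b - a‖⁻¹) := by
    rw [midpoint, AffineMap.lineMap_apply_module', AffineMap.lineMap_apply_module', smul_smul,
      add_smul, invOf_eq_inv, one_div]
    abel
  rw [hz] at hw hseg hfl
  set z : ℂ := AffineMap.lineMap a b (1 / 2 + t * ‖b - a‖⁻¹) with hzd
  have hb : |t * ‖b - a‖⁻¹| < 1 / 2 := by
    rw [abs_mul, abs_of_pos (inv_pos.2 hN), ← div_eq_mul_inv, div_lt_iff₀ hN]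
    linarith only [hσ, hab, ht]
  refine ⟨z, ?_, ?_⟩
  · rw [openSegment_eq_image_lineMap]
    exact ⟨_, ⟨by linarith only [(abs_lt.1 hb).1], by linarith only [(abs_lt.1 hb).2]⟩, rfl⟩
  have lz : af l z = 0 := by
    rw [hzd, piece_af, la, lb]
    ring
  obtain ⟨p, p', hp, hzp⟩ := hseg (left_mem_segment ℝ z w)
  by_cases e : af l p = af l p'
  · refine node_of_cross h.good.pnet hseg hp hzp ?_
    have h1 := hs _ _ e
    have h2 : ((p' : ℂ) - p).re ≠ 0 := by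
      rw [Complex.sub_re]
      exact sub_ne_zero.2 (h.good.pnet.vert p p' hp).symm
    have h3 : (w - z).re ≠ 0 := by
      intro h0
      rw [h0, abs_zero, mul_zero] at hfl
      exact hw (sub_eq_zero.1 (Complex.ext h0 (abs_nonpos_iff.1 hfl)))
    intro h4
    have h5 : (w - z).re * ((p' : ℂ) - p).im = (w - z).im * ((p' : ℂ) - p).re := by
      unfold det2 at h4
      linarith only [h4]
    have h6 := congrArg abs h5
    rw [abs_mul, abs_mul, ← h1] at h6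
    have h7 := abs_pos.2 h2
    have h8 := abs_pos.2 h3
    linarith only [mul_pos h7 h8, mul_le_mul_of_nonneg_right hfl h7.le, h6]
  · rcases h.cut p p' hp l hl e z hzp lz with h1 | h1
    · exact h1 ▸ p.2
    · exact h1 ▸ p'.2

theorem gap_mem {i : ℕ} (hi : i < n) {t : ℝ}
    (ht : t ∈ Icc (0 : ℝ) 1) : ((i : ℝ) + t) / n ∈ Icc (0 : ℝ) 1 := by
  have h1 : (i : ℝ) + 1 ≤ n := by exact_mod_cast hi
  have h2 : (0 : ℝ) ≤ i := Nat.cast_nonneg i
  have hn : (0 : ℝ) < n := by linarith only [h1]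
  exact ⟨div_nonneg (by linarith only [ht.1]) hn.le, (div_le_one hn).2 (by linarith [ht.2])⟩

theorem gap_seg (h : Setup Λ L₀ μ n v γ k Nd r) {i : ℕ} (hi : i < n) :
    segment ℝ (v i) (v (i + 1)) ⊆ γ '' Icc 0 1 := by
  rw [segment_eq_image_lineMap]
  rintro z ⟨t, ht, rfl⟩
  exact ⟨_, gap_mem hi ht, h.arc.lin i hi t ht⟩

theorem gap_eq (h : Setup Λ L₀ μ n v γ k Nd r) {i : ℕ} (hi : i < n) {s : ℝ}
    (h0 : (i : ℝ) ≤ s * n) (h1 : s * n ≤ i + 1) :
    γ s = AffineMap.lineMap (v i) (v (i + 1)) (s * n - i) := by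
  have hn : (n : ℝ) ≠ 0 := by exact_mod_cast (by omega : n ≠ 0)
  rw [← h.arc.lin i hi _ ⟨by linarith only [h0], by linarith only [h1]⟩]
  congr 1
  field_simp
  ring

theorem gap_part (h : Setup Λ L₀ μ n v γ k Nd r) {σ : ℝ} (hσ : 0 < σ)
    (hd : ∀ z ∈ Λ.P, Den r z σ) {i : ℕ} (hi : i < n) {s s' : ℝ} (h0 : (i : ℝ) ≤ s * n)
    (hs : s ≤ s') (h1 : s' * n ≤ i + 1) (hn : ∀ τ ∈ Ioo s s', γ τ ∉ Nd) :
    ‖γ s' - γ s‖ < 3 * σ := by
  have hn0 : (0 : ℝ) < n := by exact_mod_cast (by omega : 0 < n)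
  have hss : s * n ≤ s' * n := mul_le_mul_of_nonneg_right hs hn0.le
  by_contra hc
  obtain ⟨l, hl, l0, l1⟩ := h.arc.line i hi
  have e := gap_eq h hi h0 (hss.trans h1)
  have e' := gap_eq h hi (h0.trans hss) h1
  have hP : ∀ x, (i : ℝ) ≤ x * n → x * n ≤ i + 1 → γ x ∈ Λ.P := fun x a b => by
    have := h.arc.arc.mem (gap_mem hi (t := x * n - i) ⟨by linarith only [a], by linarith only [b]⟩)
    rwa [h.arc.lin i hi _ ⟨by linarith only [a], by linarith only [b]⟩, ← gap_eq h hi a b] at this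
  obtain ⟨z, hz, hzN⟩ := h.piece hl (a := γ s) (b := γ s') (by rw [e, piece_af, l0, l1]; ring)
    (by rw [e', piece_af, l0, l1]; ring) hσ (not_lt.1 hc)
    (hd _ ((Λ.convex_reg 0).midpoint_mem (hP s h0 (hss.trans h1)) (hP s' (h0.trans hss) h1)))
  have hlt : s < s' := by
    refine hs.lt_of_ne fun e0 => hc ?_
    rw [e0, sub_self, norm_zero]
    linarith
  rw [openSegment_eq_image_lineMap] at hz
  obtain ⟨t, ht, rfl⟩ := hz
  have a1 : s < s + t * (s' - s) := by nlinarith only [ht.1, hlt]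
  have a2 : s + t * (s' - s) < s' := by nlinarith only [ht.2, hlt]
  refine hn (s + t * (s' - s)) ⟨a1, a2⟩ ?_
  rw [gap_eq h hi (h0.trans (mul_le_mul_of_nonneg_right a1.le hn0.le))
    ((mul_le_mul_of_nonneg_right a2.le hn0.le).trans h1)]
  convert hzN using 1
  rw [e, e']
  simp only [AffineMap.lineMap_apply_module']
  module

theorem gap_index (h : Setup Λ L₀ μ n v γ k Nd r) {t : ℝ} (ht : t ∈ Icc (0 : ℝ) 1) :
    ∃ i < n, (i : ℝ) ≤ t * n ∧ t * n ≤ i + 1 := by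
  have hn := h.arc.two
  have hn0 : (0 : ℝ) < n := by exact_mod_cast (by omega : 0 < n)
  have h0 : 0 ≤ t * n := mul_nonneg ht.1 hn0.le
  by_cases hc : ⌊t * n⌋₊ < n
  · exact ⟨_, hc, Nat.floor_le h0, (Nat.lt_floor_add_one _).le⟩
  · have h1 : (n : ℝ) ≤ t * n := by
      have : ((n : ℕ) : ℝ) ≤ (⌊t * n⌋₊ : ℝ) := by exact_mod_cast not_lt.1 hc
      exact this.trans (Nat.floor_le h0)
    have h2 : ((n - 1 : ℕ) : ℝ) = n - 1 := by
      rw [Nat.cast_sub (by omega), Nat.cast_one]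
    refine ⟨n - 1, by omega, by rw [h2]; linarith only [h1], ?_⟩
    rw [h2]
    nlinarith only [ht.2]

/-- I8. A part of the arc without nodes is short. Hint: it meets at most two pieces in more than a
point (`CutArc.long`), each in a segment shorter than `3 σ`. -/
theorem Setup.gap (h : Setup Λ L₀ μ n v γ k Nd r) {σ : ℝ} (hσ : 0 < σ) (hμ : 10 * σ ≤ μ)
    (hd : ∀ z ∈ Λ.P, Den r z σ) {t t' : ℝ} (h0 : 0 ≤ t) (htt : t ≤ t') (h1 : t' ≤ 1)
    (hn : ∀ τ ∈ Ioo t t', γ τ ∉ Nd) : ‖γ t' - γ t‖ ≤ 6 * σ := by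
  have hn2 := h.arc.two
  have hn0 : (0 : ℝ) < n := by exact_mod_cast (by omega : 0 < n)
  obtain ⟨i, hi, a0, a1⟩ := gap_index h (t := t) ⟨h0, htt.trans h1⟩
  by_cases c : t' * n ≤ i + 1
  · linarith only [gap_part h hσ hd hi a0 htt c hn, hσ]
  push Not at c
  have e1 : ((i : ℝ) + 1) / n * n = i + 1 := div_mul_cancel₀ _ hn0.ne'
  have b0 : t ≤ ((i : ℝ) + 1) / n := (le_div_iff₀ hn0).2 a1
  have b1 : ((i : ℝ) + 1) / n < t' := (div_lt_iff₀ hn0).2 c
  have hi1 : i + 1 < n := by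
    have : (i : ℝ) + 1 < n := by nlinarith only [h1, c]
    exact_mod_cast this
  have p1 := gap_part h hσ hd hi a0 b0 e1.le fun τ hτ => hn τ ⟨hτ.1, hτ.2.trans b1⟩
  have c2 : t' * n ≤ ((i + 1 : ℕ) : ℝ) + 1 := by
    by_contra c2
    push Not at c2
    have e2 : (((i + 1 : ℕ) : ℝ) + 1) / n * n = ((i + 1 : ℕ) : ℝ) + 1 := div_mul_cancel₀ _ hn0.ne'
    have b2 : (((i + 1 : ℕ) : ℝ) + 1) / n < t' := (div_lt_iff₀ hn0).2 c2
    have hi2 : i + 1 + 1 < n := by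
      have : ((i + 1 : ℕ) : ℝ) + 1 < n := by nlinarith only [h1, c2]
      exact_mod_cast this
    have p2 := gap_part h hσ hd hi1 (s := ((i : ℝ) + 1) / n) (s' := (((i + 1 : ℕ) : ℝ) + 1) / n)
      (by rw [e1]; push_cast; exact le_rfl)
      (div_le_div_of_nonneg_right (by push_cast; linarith only []) hn0.le) e2.le
      fun τ hτ => hn τ ⟨b0.trans_lt hτ.1, hτ.2.trans b2⟩
    have q0 := h.arc.lin (i + 1) hi1 0 ⟨le_rfl, zero_le_one⟩
    have q1 := h.arc.lin (i + 1) hi1 1 ⟨zero_le_one, le_rfl⟩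
    rw [AffineMap.lineMap_apply_zero, add_zero] at q0
    rw [AffineMap.lineMap_apply_one] at q1
    push_cast at q0
    rw [q0, q1] at p2
    linarith only [h.arc.long (i + 1) (by omega) hi2, hσ, hμ, p2]
  have p2 := gap_part h hσ hd hi1 (s := ((i : ℝ) + 1) / n) (s' := t')
    (by rw [e1]; push_cast; exact le_rfl) b1.le c2 fun τ hτ => hn τ ⟨b0.trans_lt hτ.1, hτ.2⟩
  linarith only [norm_sub_le_norm_sub_add_norm_sub (γ t') (γ (((i : ℝ) + 1) / n)) (γ t), p1, p2]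

theorem lines_vert {L : Finset (ℂ × ℝ)} {Q : Set ℂ} {z : ℂ} (hz : z ∈ Q)
    (h1 : ((1 : ℂ), z.re) ∈ L) {l : ℂ × ℝ} (hl : l ∈ L) (h2 : l.1.im ≠ 0) (h3 : af l z = 0) :
    z ∈ vert L Q :=
  ⟨hz, l, hl, _, h1, h3, by simp [af], by simpa using h2⟩

theorem lines_corner (h : Setup Λ L₀ μ n v γ k Nd r) {i : ℕ} (hi : i ≤ n) :
    v i ∈ γ '' Icc 0 1 := by
  have := h.arc.two
  rcases hi.eq_or_lt with rfl | hi
  · obtain ⟨m, rfl⟩ : ∃ m, i = m + 1 := ⟨i - 1, by omega⟩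
    exact gap_seg h (Nat.lt_succ_self m) (right_mem_segment ℝ _ _)
  · exact gap_seg h hi (left_mem_segment ℝ _ _)

theorem lines_arc (h : Setup Λ L₀ μ n v γ k Nd r) : γ '' Icc 0 1 ⊆ Λ.P := by
  rintro z ⟨t, ht, rfl⟩
  exact h.arc.arc.mem ht

/-- I9. Hint: `L₁` holds `L₀`, the grid, the lines of `exists_hv`, the lines of the edges and the
horizontal and vertical lines through the nodes and the `v i`; add the vertical lines through the
points of `vert L₁ univ`. -/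
theorem Setup.lines (h : Setup Λ L₀ μ n v γ k Nd r) {σ : ℝ} (hσ : 0 < σ) :
    ∃ L, Lines Λ L₀ μ n v r σ L := by
  obtain ⟨L₂, n2, s2⟩ := exists_hv hσ
  set X : Finset ℂ := Nd ∪ (Finset.range (n + 1)).image v with hX
  set L₃ : Finset (ℂ × ℝ) := (Finset.univ.filter fun e : Nd × Nd => 0 < r e.1 e.2).image fun e =>
    (Complex.I * (starRingEnd ℂ) ((e.2 : ℂ) - e.1),
      (Complex.I * (starRingEnd ℂ) ((e.2 : ℂ) - e.1) * e.1).re) with hL₃
  set L₁ : Finset (ℂ × ℝ) := L₀ ∪ grid μ ∪ L₂ ∪ L₃ ∪ X.image (fun z => (-Complex.I, z.im)) ∪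
    X.image fun z => ((1 : ℂ), z.re) with hL₁
  set L : Finset (ℂ × ℝ) := L₁ ∪ (T55.a11_finP (L := L₁) (Q := univ)).toFinset.image
    fun z => ((1 : ℂ), z.re) with hL
  have e3 : ∀ p p' : Nd, 0 < r p p' → (Complex.I * (starRingEnd ℂ) ((p' : ℂ) - p)).im ≠ 0 := by
    intro p p' hp
    simpa only [map_sub, Complex.mul_im, Complex.I_re, Complex.sub_im, Complex.conj_im, sub_neg_eq_add, zero_mul, Complex.I_im, Complex.sub_re, Complex.conj_re, one_mul, zero_add, ne_eq] using sub_ne_zero.2 (h.good.pnet.vert p p' hp).symm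
  have hXv : ∀ z ∈ X, z ∈ Λ.P → z ∈ vert L Λ.P := fun z hz hP =>
    lines_vert hP (by simp only [hL, hL₁, Finset.mem_union, Finset.mem_image]; grind)
      (l := (-Complex.I, z.im)) (by simp only [hL, hL₁, Finset.mem_union, Finset.mem_image]; grind)
      (by simp) (by simp [af])
  refine ⟨L, ⟨⟨fun l hl => ?_, fun l hl => ?_⟩, fun l hl => ?_, fun p p' hp => ?_,
    fun p hp => ?_, fun i hi => ?_, fun z hz => ?_, fun p hp p' hp' hl => ?_⟩⟩
  · simp only [hL, hL₁, Finset.mem_union]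
    tauto
  · simp only [hL, hL₁, Finset.mem_union]
    tauto
  · simp only [hL, hL₁, hL₃, Finset.mem_union, Finset.mem_image, Finset.mem_filter] at hl
    rcases hl with (((((hl | hl) | hl) | ⟨e, he, rfl⟩) | ⟨z, -, rfl⟩) | ⟨z, -, rfl⟩) | ⟨z, -, rfl⟩
    · exact h.poly.1 l hl
    · exact (grid_steep hl).1
    · exact n2 l hl
    · exact fun h0 => e3 _ _ he.2 (by simp only at h0; rw [h0]; rfl)
    · simp
    · simp
    · simp
  · refine ⟨(Complex.I * (starRingEnd ℂ) ((p' : ℂ) - p),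
      (Complex.I * (starRingEnd ℂ) ((p' : ℂ) - p) * p).re), ?_, e3 p p' hp,
        by simp only [af, sub_self], ?_⟩
    · have : (Complex.I * (starRingEnd ℂ) ((p' : ℂ) - p),
          (Complex.I * (starRingEnd ℂ) ((p' : ℂ) - p) * p).re) ∈ L₃ :=
        Finset.mem_image.2 ⟨(p, p'), by simpa only [Finset.mem_filter, Finset.mem_univ, true_and] using hp, rfl⟩
      simp only [hL, hL₁, Finset.mem_union]
      tauto
    · simp only [af, map_sub, Complex.mul_re, Complex.I_re, Complex.sub_re, Complex.conj_re, zero_mul, Complex.I_im, Complex.sub_im, Complex.conj_im, sub_neg_eq_add, one_mul, zero_sub, neg_add_rev, neg_neg, Complex.mul_im, zero_add]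
      ring
  · exact hXv p (Finset.mem_union_left _ hp) (h.good.pnet.mem p hp)
  · exact hXv _ (Finset.mem_union_right _ (Finset.mem_image_of_mem v (Finset.mem_range.2 (by omega))))
      (lines_arc h (lines_corner h hi))
  · obtain ⟨-, l, hl, l', hl', a, a', d⟩ := hz
    have key : ∀ l ∈ L, af l z = 0 → l ∈ L₁ ∨ ((1 : ℂ), z.re) ∈ L := by
      intro l hl a
      rcases Finset.mem_union.1 hl with h1 | h1
      · exact Or.inl h1
      · obtain ⟨y, -, rfl⟩ := Finset.mem_image.1 h1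
        have : z.re = y.re := by simpa [af, sub_eq_zero] using a
        exact Or.inr (this ▸ hl)
    rcases key l hl a with h1 | h1
    · rcases key l' hl' a' with h2 | h2
      · exact Finset.mem_union_right _ (Finset.mem_image_of_mem _
          ((Finite.mem_toFinset _).2 ⟨mem_univ z, l, h1, l', h2, a, a', d⟩))
      · exact h2
    · exact h1
  · refine s2 p p' (Λ.norm_le (by norm_num) hp) (Λ.norm_le (by norm_num) hp') fun l hl' => hl l ?_
    simp only [hL, hL₁, Finset.mem_union]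
    tauto

theorem reach_self {L : Finset (ℂ × ℝ)} {Q H : Set ℂ} {a : ℂ} (ha : a ∈ vert L Q) (hH : a ∈ H)
    {σ : ℝ} (hσ : 0 ≤ σ) : Hop L Q H a a σ := by
  obtain ⟨-, l, hl, -, -, h1, -⟩ := id ha
  exact ⟨ha, ha, ⟨l, hl, h1, h1⟩, by simpa using hH, by simpa only [sub_self, norm_zero] using hσ⟩

theorem reach_go (h : Setup Λ L₀ μ n v γ k Nd r) {σ₀ σ : ℝ} {L : Finset (ℂ × ℝ)}
    (hL : Lines Λ L₀ μ n v r σ₀ L) (hσ : 0 < σ) {H : Set ℂ} (hH : H ⊆ Λ.P) {l : ℂ × ℝ}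
    (hl : l ∈ grid μ) {a b : ℂ} (la : af l a = 0) (lb : af l b = 0) (hs : segment ℝ a b ⊆ H)
    (hab : 3 * σ ≤ ‖b - a‖) (ha : a ∈ vert L Λ.P)
    (hd : ∀ w ∈ Λ.P, ‖w - a‖ ≤ 3 * σ → Den r w σ) : ∃ z ∈ Nd, Hop L Λ.P H a z (3 * σ) := by
  have hN : 0 < ‖b - a‖ := by linarith
  have hc : 3 * σ / ‖b - a‖ ∈ Icc (0 : ℝ) 1 := ⟨by positivity, (div_le_one hN).2 hab⟩
  set b' : ℂ := AffineMap.lineMap a b (3 * σ / ‖b - a‖) with hb'
  have hb : b' ∈ segment ℝ a b := lineMap_mem_segment ℝ a b hc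
  have hn : ‖b' - a‖ = 3 * σ := by
    have := piece_norm a b 0 (3 * σ / ‖b - a‖)
    rwa [AffineMap.lineMap_apply_zero, sub_zero, abs_of_nonneg hc.1, div_mul_cancel₀ _ hN.ne']
      at this
  have hsub : segment ℝ a b' ⊆ segment ℝ a b :=
    (convex_segment a b).segment_subset (left_mem_segment ℝ a b) hb
  have hle : ∀ w ∈ segment ℝ a b', ‖w - a‖ ≤ 3 * σ := fun w hw => hn ▸ norm_sub_le_of_mem_segment hw
  obtain ⟨z, hz, hzN⟩ := h.piece hl la (piece_af_seg la lb hb) hσ hn.ge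
    (hd _ (hH (hs (hsub (midpoint_mem_segment a b')))) (hle _ (midpoint_mem_segment a b')))
  have hz' := openSegment_subset_segment ℝ a b' hz
  exact ⟨z, hzN, ha, hL.node z hzN, ⟨l, hL.sub.2 hl, la, piece_af_seg la lb (hsub hz')⟩,
    ((convex_segment a b).segment_subset (left_mem_segment ℝ a b) (hsub hz')).trans hs, hle z hz'⟩

theorem reach_closed {Nd : Finset ℂ} (r : Nd → Nd → ℝ) : IsClosed (Eg r) := by
  have : Eg r = ⋃ e : {e : Nd × Nd // 0 < r e.1 e.2}, segment ℝ (e.1.1 : ℂ) e.1.2 := by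
    ext z
    simp only [Eg, mem_ofPred_eq, mem_iUnion, Subtype.exists, Prod.exists, exists_prop]
  rw [this]
  refine isClosed_iUnion_of_finite fun e => ?_
  rw [segment_eq_image_lineMap]
  exact (isCompact_Icc.image AffineMap.lineMap_continuous).isClosed

theorem reach_first (h : Setup Λ L₀ μ n v γ k Nd r) {σ₀ σ : ℝ} {L : Finset (ℂ × ℝ)}
    (hL : Lines Λ L₀ μ n v r σ₀ L) {i : Bool} {z : ℂ} (hz : z ∈ vert L Λ.P)
    (hi : z ∈ k '' Half i) (hd : Den r z σ) :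
    ∃ z₁ ∈ Eg r ∪ γ '' Icc 0 1, Hop L Λ.P (k '' Half i) z z₁ σ := by
  obtain ⟨t, ht, w, -, hseg, -⟩ := hd Complex.I Complex.norm_I (by simp)
  have hE := hseg (left_mem_segment ℝ _ _)
  set y := z + t • Complex.I with hy
  have hcl : IsClosed (Eg r ∪ γ '' Icc 0 1) :=
    (reach_closed r).union (isCompact_Icc.image_of_continuousOn h.arc.arc.cont).isClosed
  have hK : IsCompact (Icc (0 : ℝ) 1 ∩ (fun s : ℝ => (AffineMap.lineMap z y s : ℂ)) ⁻¹'
      (Eg r ∪ γ '' Icc 0 1)) :=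
    isCompact_Icc.inter_right (hcl.preimage AffineMap.lineMap_continuous)
  obtain ⟨s, ⟨hs, hm⟩, hmin⟩ := hK.exists_isLeast
    ⟨1, ⟨zero_le_one, le_rfl⟩, Or.inl (by simpa using hE)⟩
  have hP : ∀ s ∈ Icc (0 : ℝ) 1, (AffineMap.lineMap z y s : ℂ) ∈ Λ.P := fun s hs =>
    (Λ.convex_reg 0).segment_subset hz.1 (h.good.pnet.eg_sub hE) (lineMap_mem_segment ℝ z y hs)
  have hre : (AffineMap.lineMap z y s : ℂ).re = z.re := by
    simp [AffineMap.lineMap_apply_module', hy]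
  have hH : ∀ s' ∈ Icc (0 : ℝ) s, (AffineMap.lineMap z y s' : ℂ) ∈ k '' Half i := by
    rcases hs.1.eq_or_lt with e | e
    · intro s' hs'
      have : s' = 0 := le_antisymm (hs'.2.trans e.ge) hs'.1
      simpa [this] using hi
    have h1 : (fun s : ℝ => (AffineMap.lineMap z y s : ℂ)) '' Ico 0 s ⊆ k '' Half i := by
      refine h.side.2.2.2.2 _ ?_ (isPreconnected_Ico.image _ AffineMap.lineMap_continuous.continuousOn)
        ?_ i ⟨z, ⟨0, ⟨le_rfl, e⟩, by simp⟩, hi⟩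
      · rintro _ ⟨s', hs', rfl⟩
        exact hP s' ⟨hs'.1, hs'.2.le.trans hs.2⟩
      · rw [disjoint_left]
        rintro _ ⟨s', hs', rfl⟩ hg
        exact (hmin ⟨⟨hs'.1, hs'.2.le.trans hs.2⟩, Or.inr hg⟩).not_gt hs'.2
    have h2 : Icc 0 s ⊆ (fun s : ℝ => (AffineMap.lineMap z y s : ℂ)) ⁻¹' (k '' Half i) := by
      rw [← closure_Ico e.ne]
      exact closure_minimal (image_subset_iff.1 h1)
        ((h.side.2.2.1 i).preimage AffineMap.lineMap_continuous)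
    exact h2
  have hv := hL.vertical z hz
  refine ⟨_, hm, hz, ?_, ⟨_, hv, by simp [af], by simp [af, hre]⟩, ?_, ?_⟩
  · rcases hm with ⟨p, p', hp, hm⟩ | ⟨τ, hτ, hm⟩
    · obtain ⟨l, hl, a, b, c⟩ := hL.edge p p' hp
      exact lines_vert (hP s hs) (hre ▸ hv) hl a (piece_af_seg b c hm)
    · obtain ⟨j, hj, a0, a1⟩ := gap_index h hτ
      obtain ⟨l, hl, b, c⟩ := h.arc.line j hj
      refine lines_vert (hP s hs) (hre ▸ hv) (hL.sub.2 hl) (fun h0 => ?_) ?_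
      · simpa using (grid_steep hl).2 0 Complex.I (by simp [af, h0])
      · simp only at hm ⊢
        rw [← hm, gap_eq h hj a0 a1, piece_af, b, c]
        ring
  · rw [segment_eq_image_lineMap]
    rintro _ ⟨u, hu, rfl⟩
    have : (AffineMap.lineMap z (AffineMap.lineMap z y s : ℂ) u : ℂ) =
        AffineMap.lineMap z y (u * s) := by
      simp only [AffineMap.lineMap_apply_module']
      module
    rw [this]
    exact hH _ ⟨mul_nonneg hu.1 hs.1, mul_le_of_le_one_left hs.1 hu.2⟩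
  · refine (norm_sub_le_of_mem_segment (lineMap_mem_segment ℝ z y hs)).trans ?_
    simpa [hy] using ht

/-- I11. Hint: `Den` in the vertical direction gives a point of `Eg r` within `σ`; let `z₁` be the
first point of `Eg r ∪ γ '' Icc 0 1` on the way. If `z₁` is on the `j`-th piece of the arc, go `3 σ`
along it in a direction where this is possible (`Setup.piece`); if the piece is too short in both
directions it is the first or the last one: go to its inner end and continue on the next piece, or,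
if `n = 2`, note that the two pieces cannot both be short. -/
theorem Setup.reach (h : Setup Λ L₀ μ n v γ k Nd r) {σ₀ σ : ℝ} {L : Finset (ℂ × ℝ)}
    (hL : Lines Λ L₀ μ n v r σ₀ L) (hσ : 0 < σ) (hμ : 10 * σ ≤ μ) (hlong : μ ≤ ‖γ 1 - γ 0‖)
    {i : Bool} {z : ℂ} (hz : z ∈ vert L Λ.P) (hi : z ∈ k '' Half i)
    (hd : ∀ w ∈ Λ.P, ‖w - z‖ ≤ 10 * σ → Den r w σ) :
    ∃ z₁ z₂ z₃, z₃ ∈ Eg r ∪ Nd ∧ Hop L Λ.P (k '' Half i) z z₁ σ ∧
      Hop L Λ.P (k '' Half i) z₁ z₂ (3 * σ) ∧ Hop L Λ.P (k '' Half i) z₂ z₃ (3 * σ) := by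
  have hn := h.arc.two
  obtain ⟨z₁, hm, h1⟩ := reach_first h hL hz hi (hd z hz.1 (by simp only [sub_self, norm_zero, Nat.ofNat_pos, mul_nonneg_iff_of_pos_left]; linarith only [hσ]))
  have hH : k '' Half i ⊆ Λ.P := by
    rw [← h.side.1]
    cases i
    · exact subset_union_left
    · exact subset_union_right
  have hγ : γ '' Icc 0 1 ⊆ k '' Half i := by
    rw [← h.side.2.1]
    cases i
    · exact inter_subset_left
    · exact inter_subset_right
  have s1 := reach_self h1.2.1 (h1.2.2.2.1 (right_mem_segment ℝ _ _)) (σ := 3 * σ) (by linarith only [hσ])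
  rcases hm with hm | ⟨τ, hτ, rfl⟩
  · exact ⟨z₁, z₁, z₁, Or.inl hm, h1, s1, s1⟩
  obtain ⟨j, hj, a0, a1⟩ := gap_index h hτ
  obtain ⟨l, hl, b, c⟩ := h.arc.line j hj
  have hs : γ τ ∈ segment ℝ (v j) (v (j + 1)) := by
    rw [gap_eq h hj a0 a1]
    exact lineMap_mem_segment ℝ _ _ ⟨by linarith only [a0], by linarith only [a1]⟩
  have lz := piece_af_seg b c hs
  have hj' := (gap_seg h hj).trans hγ
  have sA : segment ℝ (γ τ) (v j) ⊆ k '' Half i :=
    ((convex_segment _ _).segment_subset hs (left_mem_segment ℝ _ _)).trans hj'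
  have sB : segment ℝ (γ τ) (v (j + 1)) ⊆ k '' Half i :=
    ((convex_segment _ _).segment_subset hs (right_mem_segment ℝ _ _)).trans hj'
  have hd' : ∀ a, ‖a - γ τ‖ ≤ 3 * σ → ∀ w ∈ Λ.P, ‖w - a‖ ≤ 3 * σ → Den r w σ :=
    fun a ha w hw hwa => hd w hw (by
      linarith only [norm_sub_le_norm_sub_add_norm_sub w a z, norm_sub_le_norm_sub_add_norm_sub a (γ τ) z, h1.2.2.2.2, hσ, ha, hwa])
  have h00 : ‖γ τ - γ τ‖ ≤ 3 * σ := s1.2.2.2.2
  by_cases cA : 3 * σ ≤ ‖v j - γ τ‖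
  · obtain ⟨z₃, h3, h4⟩ := reach_go h hL hσ hH hl lz b sA cA h1.2.1 (hd' _ h00)
    exact ⟨_, _, z₃, Or.inr h3, h1, s1, h4⟩
  by_cases cB : 3 * σ ≤ ‖v (j + 1) - γ τ‖
  · obtain ⟨z₃, h3, h4⟩ := reach_go h hL hσ hH hl lz c sB cB h1.2.1 (hd' _ h00)
    exact ⟨_, _, z₃, Or.inr h3, h1, s1, h4⟩
  push Not at cA cB
  have sh : ‖v (j + 1) - v j‖ < 6 * σ := by
    linarith only [norm_sub_le_norm_sub_add_norm_sub (v (j + 1)) (γ τ) (v j), norm_sub_rev (γ τ) (v j), cA, cB]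
  have two : n = 2 → μ ≤ ‖v (1 + 1) - v 1‖ + ‖v (0 + 1) - v 0‖ := by
    rintro rfl
    have q0 := h.arc.lin 0 (by omega) 0 ⟨le_rfl, zero_le_one⟩
    have q1 := h.arc.lin 1 (by omega) 1 ⟨zero_le_one, le_rfl⟩
    rw [AffineMap.lineMap_apply_zero] at q0
    rw [AffineMap.lineMap_apply_one] at q1
    norm_num at q0 q1
    rw [q0, q1] at hlong
    exact hlong.trans (norm_sub_le_norm_sub_add_norm_sub _ _ _)
  rcases j with _ | j
  · obtain ⟨l', hl', b', c'⟩ := h.arc.line (0 + 1) (by omega)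
    have lg : 3 * σ ≤ ‖v (0 + 1 + 1) - v (0 + 1)‖ := by
      rcases hn.eq_or_lt with e | e
      · have := two e.symm
        simp only [zero_add] at *
        linarith only [hσ, hμ, sh, this]
      · linarith only [h.arc.long (0 + 1) (by omega) (by omega), hσ, hμ]
    obtain ⟨z₃, h3, h4⟩ := reach_go h hL hσ hH hl' b' c' ((gap_seg h (by omega)).trans hγ) lg
      (hL.corner _ (by omega)) (hd' _ cB.le)
    exact ⟨_, _, z₃, Or.inr h3, h1, ⟨h1.2.1, h4.1, ⟨l, hL.sub.2 hl, lz, c⟩, sB, cB.le⟩, h4⟩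
  · have e : j + 1 + 1 = n := by
      by_contra e
      linarith only [h.arc.long (j + 1) (by omega) (by omega), hσ, hμ, sh]
    obtain ⟨l', hl', b', c'⟩ := h.arc.line j (by omega)
    have lg : 3 * σ ≤ ‖v j - v (j + 1)‖ := by
      rw [norm_sub_rev]
      rcases j with _ | j
      · have := two e.symm
        simp only [zero_add] at *
        linarith only [hσ, hμ, sh, this]
      · linarith only [h.arc.long (j + 1) (by omega) (by omega), hσ, hμ]
    obtain ⟨z₃, h3, h4⟩ := reach_go h hL hσ hH hl' c' b'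
      (segment_symm ℝ (v j) (v (j + 1)) ▸ (gap_seg h (by omega)).trans hγ) lg
      (hL.corner _ (by omega)) (hd' _ cA.le)
    exact ⟨_, _, z₃, Or.inr h3, h1, ⟨h1.2.1, h4.1, ⟨l, hL.sub.2 hl, lz, b⟩, sA, cA.le⟩, h4⟩

end Pool.Agent.MP_17e62b_gt.G

end

section
/-! The interpolation weights. -/

namespace Pool.Agent.MP_17e62b_gt.G

open Set Filter Topology Metric
open scoped BigOperators InnerProductSpace Classical
open H14
open T55 (af Sq SqH SqV Cells Nbr vert)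
open Pool.Agent.MP_4a6971_al.H83 (PArc)

variable {Λ : Lens} {L₀ : Finset (ℂ × ℝ)} {μ : ℝ} {n : ℕ} {v : ℕ → ℂ} {γ : ℝ → ℂ} {k : ℂ ≃ₜ ℂ}
  {Nd : Finset ℂ} {r : Nd → Nd → ℝ}

theorem interp_sub {a b c : ℂ} (hc : c ∈ segment ℝ a b) :
    segment ℝ a c ⊆ segment ℝ a b ∧ segment ℝ c b ⊆ segment ℝ a b :=
  ⟨(convex_segment a b).segment_subset (left_mem_segment ℝ a b) hc,
    (convex_segment a b).segment_subset hc (right_mem_segment ℝ a b)⟩

theorem interp_diam {p q w t : ℂ} (hw : w ∈ segment ℝ p q) (ht : t ∈ segment ℝ p q) :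
    ‖w - t‖ ≤ ‖q - p‖ := by
  have h1 := dist_add_dist_of_mem_segment ht
  have h2 := dist_nonneg (x := t) (y := q)
  have h3 := dist_nonneg (x := p) (y := t)
  have h4 : w ∈ closedBall t (dist p q) := (convex_closedBall t _).segment_subset
    (mem_closedBall.2 (by linarith)) (mem_closedBall'.2 (by linarith)) hw
  rwa [mem_closedBall, dist_eq_norm, dist_eq_norm, norm_sub_rev p] at h4

theorem interp_hop_walk {L : Finset (ℂ × ℝ)} {Q H : Set ℂ} {a b : ℂ} {σ : ℝ}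
    (h : Hop L Q H a b σ) :
    Relation.ReflTransGen (fun a b => Nbr L Q a b ∧ segment ℝ a b ⊆ H) a b := by
  obtain ⟨ha, hb, ⟨l, hl, la, lb⟩, hs, -⟩ := h
  refine seg_ind (Pr := fun a b => segment ℝ a b ⊆ H →
    Relation.ReflTransGen (fun a b => Nbr L Q a b ∧ segment ℝ a b ⊆ H) a b)
    (fun _ _ _ => .refl) (fun _ _ h1 h2 => .single ⟨h1, h2⟩) ?_ hl ha hb la lb hs
  intro a _ b _ c _ hc h1 h2 hs
  exact (h1 ((interp_sub hc).1.trans hs)).trans (h2 ((interp_sub hc).2.trans hs))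

theorem interp_hop_le {L : Finset (ℂ × ℝ)} {Q H : Set ℂ} {D : ℂ → ℝ}
    (hD : ∀ a b, Nbr L Q a b ∧ segment ℝ a b ⊆ H → D a ≤ D b + ‖a - b‖) {a b : ℂ} {σ : ℝ}
    (h : Hop L Q H a b σ) : D a ≤ D b + σ := by
  obtain ⟨ha, hb, ⟨l, hl, la, lb⟩, hs, hσ⟩ := h
  have key : D a ≤ D b + ‖a - b‖ := by
    refine seg_ind (Pr := fun a b => segment ℝ a b ⊆ H → D a ≤ D b + ‖a - b‖)
      (fun _ _ _ => by simp) (fun a b h1 h2 => hD a b ⟨h1, h2⟩) ?_ hl ha hb la lb hs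
    intro a _ b _ c _ hc h1 h2 hs
    have h3 := h1 ((interp_sub hc).1.trans hs)
    have h4 := h2 ((interp_sub hc).2.trans hs)
    have h5 := dist_add_dist_of_mem_segment hc
    simp only [dist_eq_norm] at h5
    linarith
  rw [norm_sub_rev] at hσ
  linarith

theorem interp_supp {N : Type} {x y z : N → ℝ} (hz : z ∈ segment ℝ x y) {m : N} (hm : z m ≠ 0) :
    x m ≠ 0 ∨ y m ≠ 0 := by
  obtain ⟨a, b, -, -, -, rfl⟩ := hz
  by_contra hc
  rw [not_or, not_not, not_not] at hc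
  exact hm (by simp [hc.1, hc.2])

theorem interp_cmb {N : Type} [Fintype N] (u x y : N → ℝ) (a b : ℝ) :
    cmb u (a • x + b • y) = a * cmb u x + b * cmb u y := by
  simp only [cmb, Pi.add_apply, Pi.smul_apply, smul_eq_mul, Finset.mul_sum,
    ← Finset.sum_add_distrib]
  exact Finset.sum_congr rfl fun _ _ => by ring

theorem interp_cmb_le {N : Type} [Fintype N] {u x y z : N → ℝ} (hz : z ∈ segment ℝ x y) {c : ℝ}
    (hx : c ≤ cmb u x) (hy : c ≤ cmb u y) : c ≤ cmb u z := by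
  obtain ⟨a, b, ha, hb, hab, rfl⟩ := hz
  rw [interp_cmb]
  have h1 := mul_le_mul_of_nonneg_left hx ha
  have h2 := mul_le_mul_of_nonneg_left hy hb
  have h3 : c = a * c + b * c := by rw [← add_mul, hab, one_mul]
  linarith

theorem interp_cmb_ge {N : Type} [Fintype N] {u x y z : N → ℝ} (hz : z ∈ segment ℝ x y) :
    cmb u z ≤ cmb u x ∨ cmb u z ≤ cmb u y := by
  obtain ⟨a, b, ha, hb, hab, rfl⟩ := hz
  rw [interp_cmb]
  rcases le_total (cmb u x) (cmb u y) with h | h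
  · have h1 := mul_le_mul_of_nonneg_left h ha
    have h3 : cmb u y = a * cmb u y + b * cmb u y := by rw [← add_mul, hab, one_mul]
    exact Or.inr (by linarith)
  · have h1 := mul_le_mul_of_nonneg_left h hb
    have h3 : cmb u x = a * cmb u x + b * cmb u x := by rw [← add_mul, hab, one_mul]
    exact Or.inl (by linarith)

theorem interp_ext {E : Type} [AddCommGroup E] [Module ℝ E] {g : Nd → E} {G : ℂ → E}
    (hG : IsExt r g G) {p q : Nd} (hp : 0 < r p q) {t : ℂ} (ht : t ∈ segment ℝ (p : ℂ) q) :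
    G t ∈ segment ℝ (g p) (g q) := by
  rw [segment_eq_image_lineMap] at ht ⊢
  obtain ⟨s, hs, rfl⟩ := ht
  exact ⟨s, hs, (hG.2 p q hp s hs).symm⟩

/-- I12. Hint: `Setup.lines` for `σ₀`, `Setup.cells`, `forest` with `Vx = C.P`, `Tg = Eg r ∪ Nd`,
`Adj a b := Nbr L P a b ∧ segment a b ⊆ H`; `seg_ind` turns a `Hop` into a walk and into
`D a ≤ D b + ‖a - b‖`, so `D ≤ 7 σ` by `Setup.reach`. `val z = G (rep z)`, `G` from
`PNet.exists_ext` for the unit vectors; `cell_weights`. From `y` go to a point `p` of its cell,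
along the forest to `rep p` (the weights are constant), and along the edge through `rep p` to an
end (`Setup.edge_half`, `along_edge`). -/
theorem interp (h : Setup Λ L₀ μ n v γ k Nd r) {σ₀ σ₁ : ℝ} (h0 : 0 < σ₀) (h1 : 0 < σ₁)
    (hμ : 10 * σ₁ ≤ μ) (hd : ∀ z ∈ Λ.P, Den r z σ₁) (hlong : μ ≤ ‖γ 1 - γ 0‖) (i : Bool) :
    ∃ lam, Wts Λ μ σ₀ r (k '' Half i) lam := by
  obtain ⟨L, hL⟩ := h.lines h0
  obtain ⟨C, hP, hE, hD⟩ := h.cells hL i
  have hreach := fun {σ : ℝ} (hσ : 0 < σ) (hμ : 10 * σ ≤ μ) {z : ℂ} (hz : z ∈ C.P) =>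
    h.reach hL hσ hμ hlong (hP ▸ hz).1 (hP ▸ hz).2
  have hhalf := fun {p q : Nd} (hp : 0 < r p q) => (h.edge_half hp).2 i
  have hN := h.good.pnet
  generalize k '' Half i = H at *
  have hdH : ∀ d ∈ C.D, d.1 ⊆ H := fun d hd => by
    rw [← C.cover]
    exact subset_biUnion_of_mem (u := fun d : Set ℂ × Set ℂ => d.1) hd
  have hA : ∀ a b, Nbr L Λ.P a b ∧ segment ℝ a b ⊆ H → a ∈ C.P ∧ b ∈ C.P ∧ a ≠ b :=
    fun a b hab => by
      rw [hP]
      exact ⟨⟨hab.1.1, hab.2 (left_mem_segment ℝ a b)⟩,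
        ⟨hab.1.2.1, hab.2 (right_mem_segment ℝ a b)⟩, hab.1.2.2.1⟩
  obtain ⟨D, rep, hT, hDle, hrep⟩ := forest (Tg := Eg r ∪ Nd) C.finP hA fun a ha => by
    obtain ⟨z₁, z₂, z₃, h3, k1, k2, k3⟩ := hreach h1 hμ ha fun w hw _ => hd w hw
    exact ⟨z₃, h3, ((interp_hop_walk k1).trans (interp_hop_walk k2)).trans (interp_hop_walk k3)⟩
  have hD7 : ∀ σ, 0 < σ → 10 * σ ≤ μ → ∀ a ∈ C.P,
      (∀ w ∈ Λ.P, ‖w - a‖ ≤ 10 * σ → Den r w σ) → D a ≤ 7 * σ := fun σ hσ hμ a ha hw => by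
    obtain ⟨z₁, z₂, z₃, h3, k1, k2, k3⟩ := hreach hσ hμ ha hw
    have e1 := interp_hop_le hDle k1
    have e2 := interp_hop_le hDle k2
    have e3 := interp_hop_le hDle k3
    have e4 := (hT z₃ h3).1
    linarith
  obtain ⟨G, hG⟩ := hN.exists_ext (fun p : Nd => (Pi.single p (1 : ℝ) : Nd → ℝ))
  have hval : ∀ p ∈ C.P, G (rep p) ∈ stdSimplex ℝ Nd := fun p hp => by
    rcases (hrep p hp).1 with ⟨a, b, hab, ht⟩ | ht
    · exact (convex_stdSimplex ℝ Nd).segment_subset (single_mem_stdSimplex ℝ a)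
        (single_mem_stdSimplex ℝ b) (interp_ext hG hab ht)
    · rw [hG.1 ⟨_, ht⟩]
      exact single_mem_stdSimplex ℝ _
  obtain ⟨lam, l1, l2, l3, l4, l5⟩ := cell_weights (val := fun z => G (rep z)) C hval
  have he : ∀ a b, Nbr L Λ.P a b → segment ℝ a b ⊆ H → ∃ S ⊆ H, IsPreconnected S ∧ a ∈ S ∧
      b ∈ S ∧ ∀ z ∈ S, lam z ∈ segment ℝ (G (rep a)) (G (rep b)) ∧ ‖z - a‖ ≤ 2 * σ₀ :=
    fun a b hab hs => by
      obtain ⟨ha, hb, -⟩ := hA a b ⟨hab, hs⟩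
      obtain ⟨d, hd, hed, S, hS, hc, haS, hbS, hz⟩ := l4 (segment ℝ a b)
        (by rw [hE]; exact ⟨a, b, hab, rfl, hs⟩) a ha b hb (left_mem_segment ℝ a b)
        (right_mem_segment ℝ a b)
      exact ⟨S, hS.trans (hdH d hd), hc, haS, hbS, fun z hzS =>
        ⟨hz z hzS, hD d hd z (hS hzS) a (hS haS)⟩⟩
  have hPH : ∀ a ∈ C.P, a ∈ vert L Λ.P ∧ a ∈ H := fun a ha => by rwa [hP] at ha
  have halong := fun {p q : Nd} (hp : 0 < r p q) (hH : segment ℝ (p : ℂ) q ⊆ H) {a b : ℂ}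
      (ha : a ∈ vert L Λ.P) (hb : b ∈ vert L Λ.P) (ha' : a ∈ segment ℝ (p : ℂ) q)
      (hb' : b ∈ segment ℝ (p : ℂ) q) =>
    along_edge (val := fun z => G (rep z)) (lam := lam) (σ := 2 * σ₀) hG
      (fun z _ hz => by rw [(hT z (Or.inl hz)).2])
      (fun z hz hz' => l3 z (by rw [hP]; exact ⟨hz, hz'⟩)) he hp hH
      (hL.edge p q hp).choose_spec.1 (hL.edge p q hp).choose_spec.2.2.1
      (hL.edge p q hp).choose_spec.2.2.2 (by positivity) ha hb ha' hb'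
  have hwalk : ∀ a ∈ C.P, ∃ S ⊆ H, IsPreconnected S ∧ a ∈ S ∧ rep a ∈ S ∧
      ‖rep a - a‖ ≤ max (D a) 0 ∧
      ∀ z ∈ S, lam z = G (rep a) ∧ ‖z - a‖ ≤ max (D a) 0 + 2 * σ₀ := fun a ha => by
    have key : ∀ b, Relation.ReflTransGen (fun x y => (Nbr L Λ.P x y ∧ segment ℝ x y ⊆ H) ∧
        rep y = rep a ∧ ‖y - a‖ ≤ D a) a b → rep b = rep a ∧ ∃ S ⊆ H, IsPreconnected S ∧ a ∈ S ∧
        b ∈ S ∧ ‖b - a‖ ≤ max (D a) 0 ∧
        ∀ z ∈ S, lam z = G (rep a) ∧ ‖z - a‖ ≤ max (D a) 0 + 2 * σ₀ := by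
      intro b hb
      have hm := le_max_right (D a) 0
      induction hb with
      | refl =>
        refine ⟨rfl, {a}, singleton_subset_iff.2 (hPH a ha).2, isPreconnected_singleton, rfl, rfl,
          by simp only [sub_self, norm_zero, le_sup_right], ?_⟩
        rintro z rfl
        refine ⟨l3 z ha, ?_⟩
        rw [sub_self, norm_zero]
        positivity
      | @tail b c _ hbc ih =>
        obtain ⟨e1, S, hS, hc, haS, hbS, hb, hz⟩ := ih
        obtain ⟨⟨n1, n2⟩, e2, n3⟩ := hbc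
        obtain ⟨S', hS', hc', hbS', hcS', hz'⟩ := he b c n1 n2
        refine ⟨e2, S ∪ S', union_subset hS hS', hc.union b hbS hbS' hc', Or.inl haS, Or.inr hcS',
          n3.trans (le_max_left _ _), ?_⟩
        rintro z (hzS | hzS)
        · exact hz z hzS
        · obtain ⟨k1, k2⟩ := hz' z hzS
          rw [e1, e2, segment_same] at k1
          have k3 := norm_sub_le_norm_sub_add_norm_sub z b a
          exact ⟨k1, by linarith only [hb, k2, k3]⟩
    exact (key _ (hrep a ha).2.2).2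
  have hend : ∀ t ∈ Eg r ∪ (Nd : Set ℂ), t ∈ C.P → ∃ p q : Nd,
      G t ∈ segment ℝ (Pi.single p (1 : ℝ) : Nd → ℝ) (Pi.single q 1) ∧ ∀ m : Nd, m = p ∨ m = q →
      ∃ S ⊆ H, IsPreconnected S ∧ t ∈ S ∧ (m : ℂ) ∈ S ∧ ∀ z ∈ S,
        lam z ∈ segment ℝ (G t) (Pi.single m 1) ∧ ∀ σ, 0 ≤ σ →
          (∀ p p', 0 < r p p' → t ∈ segment ℝ (p : ℂ) p' → ‖(p' : ℂ) - p‖ ≤ σ) →
            ‖z - t‖ ≤ σ + 2 * σ₀ := fun t ht htP => by
    by_cases hn : t ∈ Nd
    · refine ⟨⟨t, hn⟩, ⟨t, hn⟩, by rw [segment_same]; exact hG.1 ⟨t, hn⟩, ?_⟩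
      intro m hm
      obtain rfl : m = ⟨t, hn⟩ := hm.elim id id
      refine ⟨{t}, singleton_subset_iff.2 (hPH t htP).2, isPreconnected_singleton, rfl, rfl, ?_⟩
      rintro z rfl
      refine ⟨?_, fun σ hσ _ => ?_⟩
      · rw [l3 z htP, (hT z ht).2]
        exact left_mem_segment ℝ _ _
      · rw [sub_self, norm_zero]
        positivity
    · obtain ⟨p, q, hpq, hs⟩ : t ∈ Eg r := ht.resolve_right hn
      have ho : t ∈ openSegment ℝ (p : ℂ) q :=
        mem_openSegment_of_ne_left_right (fun e => hn (e ▸ p.2)) (fun e => hn (e ▸ q.2)) hs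
      have hH := hhalf hpq t ho (hPH t htP).2
      refine ⟨p, q, interp_ext hG hpq hs, fun m hm => ?_⟩
      have hm' : (m : ℂ) ∈ segment ℝ (p : ℂ) q := by
        rcases hm with rfl | rfl
        · exact left_mem_segment ℝ _ _
        · exact right_mem_segment ℝ _ _
      obtain ⟨S, hS, hc, h1, h2, hz⟩ := halong hpq hH (hPH t htP).1 (hL.node m m.2) hs hm'
      refine ⟨S, hS, hc, h1, h2, fun z hzS => ?_⟩
      obtain ⟨k1, w, hw, k2⟩ := hz z hzS
      rw [hG.1 m] at k1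
      refine ⟨k1, fun σ _ hσ => ?_⟩
      have k3 := hσ p q hpq hs
      have hw' := (convex_segment (p : ℂ) q).segment_subset hs hm' hw
      have k4 := interp_diam hw' hs
      have k5 := norm_sub_le_norm_sub_add_norm_sub z w t
      linarith only [k2, k3, k4, k5]
  have hsingle : ∀ {m p : Nd}, (Pi.single p (1 : ℝ) : Nd → ℝ) m ≠ 0 → m = p := fun hm => by
    by_contra hc
    exact hm (Pi.single_eq_of_ne hc _)
  refine ⟨lam, l1, l2, fun p hp m hm => ?_, fun y hy m hm => ?_, fun y hy u => ?_,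
    fun p q hpq hH => ?_⟩
  · rw [l3 p (by rw [hP]; exact ⟨hL.node p p.2, hp⟩), (hT p (Or.inr p.2)).2, hG.1 p]
    exact Pi.single_eq_of_ne hm _
  · obtain ⟨d, hd', hyd, k1, -⟩ := l5 y hy
    obtain ⟨a, ha, hv, S₁, hS₁, c₁, hy₁, ha₁, hz₁⟩ := k1 m hm
    obtain ⟨S₂, hS₂, c₂, ha₂, ht₂, ht, hz₂⟩ := hwalk a ha
    obtain ⟨p, q, hpq, k2⟩ := hend _ (hrep a ha).1 (hrep a ha).2.1
    obtain ⟨S₃, hS₃, c₃, ht₃, hm₃, hz₃⟩ := k2 m ((interp_supp hpq hv).imp hsingle hsingle)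
    have hs : ∀ n', G (rep a) n' ≠ 0 → lam y n' ≠ 0 := fun n' hn' =>
      hz₁ a ha₁ n' (by rwa [l3 a ha])
    refine ⟨S₁ ∪ S₂ ∪ S₃, union_subset (union_subset (hS₁.trans (hdH d hd')) hS₂) hS₃,
      (c₁.union a ha₁ ha₂ c₂).union _ (Or.inr ht₂) ht₃ c₃, Or.inl (Or.inl hy₁), Or.inr hm₃, ?_,
      fun σ hσ hμ' hloc => ?_⟩
    · rintro z ((hz | hz) | hz) n' hn'
      · exact hz₁ z hz n' hn'
      · exact hs n' (by rwa [(hz₂ z hz).1] at hn')
      · rcases interp_supp (hz₃ z hz).1 hn' with e | e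
        · exact hs n' e
        · rwa [hsingle e]
    · have hσ0 : 0 < σ := h0.trans_le hσ
      have e1 := hD d hd' a (hS₁ ha₁) y hyd
      have e2 : max (D a) 0 ≤ 7 * σ := max_le (hD7 σ hσ0 hμ' a ha fun w hw hw' => hloc.1 w hw (by
        have := norm_sub_le_norm_sub_add_norm_sub w a y
        linarith)) (by positivity)
      have e3 := norm_sub_le_norm_sub_add_norm_sub (rep a) a y
      rintro z ((hz | hz) | hz)
      · have := hD d hd' z (hS₁ hz) y hyd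
        linarith
      · have := (hz₂ z hz).2
        have := norm_sub_le_norm_sub_add_norm_sub z a y
        linarith
      · have := (hz₃ z hz).2 σ hσ0.le fun p p' hp hs => hloc.2 p p' hp _ hs (by linarith)
        have := norm_sub_le_norm_sub_add_norm_sub z (rep a) y
        linarith
  · obtain ⟨d, hd', -, -, k1⟩ := l5 y hy
    obtain ⟨a, ha, S₁, hS₁, c₁, hy₁, ha₁, hz₁⟩ := k1 u
    obtain ⟨S₂, hS₂, c₂, ha₂, ht₂, -, hz₂⟩ := hwalk a ha
    obtain ⟨p, q, hpq, k2⟩ := hend _ (hrep a ha).1 (hrep a ha).2.1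
    obtain ⟨m, hm, hu⟩ : ∃ m : Nd, (m = p ∨ m = q) ∧
        cmb u (G (rep a)) ≤ cmb u (Pi.single m (1 : ℝ) : Nd → ℝ) :=
      (interp_cmb_ge hpq).elim (fun e => ⟨p, Or.inl rfl, e⟩) fun e => ⟨q, Or.inr rfl, e⟩
    obtain ⟨S₃, hS₃, c₃, ht₃, hm₃, hz₃⟩ := k2 m hm
    have hs : cmb u (lam y) ≤ cmb u (G (rep a)) := by
      have := hz₁ a ha₁
      rwa [l3 a ha] at this
    refine ⟨m, S₁ ∪ S₂ ∪ S₃, union_subset (union_subset (hS₁.trans (hdH d hd')) hS₂) hS₃,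
      (c₁.union a ha₁ ha₂ c₂).union _ (Or.inr ht₂) ht₃ c₃, Or.inl (Or.inl hy₁), Or.inr hm₃, ?_⟩
    rintro z ((hz | hz) | hz)
    · exact hz₁ z hz
    · rwa [(hz₂ z hz).1]
    · exact interp_cmb_le (hz₃ z hz).1 hs (hs.trans hu)
  · obtain ⟨S, hS, hc, h1, h2, hz⟩ := halong hpq hH (hL.node p p.2) (hL.node q q.2)
      (left_mem_segment ℝ _ _) (right_mem_segment ℝ _ _)
    refine ⟨S, hS, hc, h1, h2, fun z hzS m hm => ?_, fun z hzS => (hz z hzS).2⟩
    have k1 := (hz z hzS).1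
    rw [hG.1 p, hG.1 q] at k1
    exact (interp_supp k1 hm).imp hsingle hsingle

end Pool.Agent.MP_17e62b_gt.G

end

section
/-! Transport to the square. -/

namespace Pool.Agent.MP_17e62b_gt.G

open Set Filter Topology Metric
open scoped BigOperators InnerProductSpace Classical
open H14
open T55 (af Sq SqH SqV Cells Nbr vert)
open Pool.Agent.MP_4a6971_al.H83 (PArc)

theorem net_of_fr {Λ : Lens} {Nd : Finset ℂ} {r : Nd → Nd → ℝ} (h : Good Λ Nd r) (p : Nd) :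
    (p : ℂ) ∈ frontier Λ.P ↔ (p : ℂ) ∈ Λ.Vt := by
  refine ⟨fun hp => ?_, fun hp => ?_⟩
  · by_contra hn
    obtain ⟨a, ha, b, -, hab⟩ := h.pnet.abs {p} (singleton_nonempty p) (disjoint_singleton_left.2 hn)
    obtain rfl : a = p := ha
    exact hn (h.fr _ ⟨a, b, hab, left_mem_segment ℝ _ _⟩ hp)
  · rw [Lens.P, Λ.mem_frontier, add_zero]
    exact ⟨h.pnet.mem _ p.2, Or.inr (Λ.vt _ hp).2⟩

theorem net_of_norm (Λ : Lens) {z : ℂ} (hz : z ∈ Λ.P) : ‖z‖ ≤ 2 := by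
  have h1 := Complex.norm_le_abs_re_add_abs_im z
  have h2 := Λ.up_le _ hz.1
  have h3 := hz.1
  have h4 := hz.2
  linarith

theorem net_of_seg {p q w w' : ℂ} (hw : w ∈ segment ℝ p q) (hw' : w' ∈ segment ℝ p q) :
    ‖w - w'‖ ≤ ‖q - p‖ := by
  rw [segment_eq_image'] at hw hw'
  obtain ⟨t, ht, rfl⟩ := hw
  obtain ⟨t', ht', rfl⟩ := hw'
  have e : p + t • (q - p) - (p + t' • (q - p)) = (t - t') • (q - p) := by module
  show ‖p + t • (q - p) - (p + t' • (q - p))‖ ≤ _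
  rw [e, norm_smul, Real.norm_eq_abs]
  exact mul_le_of_le_one_left (norm_nonneg _)
    (abs_le.2 ⟨by linarith [ht.1, ht'.2], by linarith [ht.2, ht'.1]⟩)

theorem net_of_tri (a b c : ℂ) {x y : ℝ} (ha : ‖a - c‖ ≤ x) (hb : ‖b - c‖ ≤ y) :
    ‖a - b‖ ≤ x + y := by
  have e : a - b = (a - c) - (b - c) := by ring
  rw [e]
  exact (norm_sub_le _ _).trans (add_le_add ha hb)

theorem net_of_inf {ℓ : Set ℂ} {y z : ℂ} {x : ℝ} (h : ‖z - y‖ ≤ x) :
    infDist y ℓ ≤ infDist z ℓ + x := by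
  have := infDist_le_infDist_add_dist (x := y) (y := z) (s := ℓ)
  rw [dist_comm, dist_eq_norm] at this
  linarith

theorem net_of_pull (K : ℂ ≃ₜ ℂ) {H C : Set ℂ} (hC : C ⊆ K '' H) : K ⁻¹' C ⊆ H := by
  intro z hz
  obtain ⟨w, hw, e⟩ := hC hz
  rwa [← K.injective e]

/-- B1. Transport to the square. `ℓ = γ '' Icc y₀ y₁`, the zone is `infDist ≤ 14 k`. Hint:
`pt = K.symm`, `T` is the position, `g p = G p` on `Eg r ∪ Nd` and `f p` elsewhere,
`lam i y = lam i (K y)` from `interp` with `σ₀ = s`, `σ₁ = 2 k`. A node is on the frontier iff it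
is a vertex (`Good.fr`). `Loc Λ r' (2 k) y` holds everywhere, `Loc Λ r' s y` off the zone.
`Near.map`, `near_seg`, `Setup.gap`, `Setup.edge_half`. -/
theorem net_of {E : Type} [NormedAddCommGroup E] [NormedSpace ℝ E] {Λ : Lens}
    {L₀ : Finset (ℂ × ℝ)} {μ : ℝ} {n : ℕ} {v : ℕ → ℂ} {γ : ℝ → ℂ} {K : ℂ ≃ₜ ℂ}
    {Nd Nd' X : Finset ℂ} {r : Nd → Nd → ℝ} {r' : Nd' → Nd' → ℝ} {k s s₀ y₀ y₁ d ρ e η : ℝ}
    {f G : ℂ → E} {g : Nd → E} {g₀ : Nd' → E} (h : Setup Λ L₀ μ n v γ K Nd' r')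
    (hT : Thinned Λ r (γ '' Icc y₀ y₁) (grid μ) X k s Nd' r') (hy : 0 < y₀ ∧ y₀ < y₁ ∧ y₁ < 1)
    (hs : 0 < s) (hsk : 100 * s ≤ k) (hkμ : 100 * k ≤ μ) (hlong : μ ≤ ‖γ 1 - γ 0‖)
    (hX : ∀ x ∈ X, ∀ x' ∈ X, x ≠ x' → s₀ ≤ ‖x - x'‖) (hs₀ : s₀ ≤ k) (hG : IsExt r g G)
    (hg : ∀ p : Nd, (p : ℂ) ∉ Λ.Vt → gen r g p = 0) (hη : 0 ≤ η)
    (hGf : ∀ z ∈ Eg r ∪ Nd, z ∈ Λ.P → ‖G z - f z‖ ≤ η)
    (hg₀ : ∀ p : Nd', (p : ℂ) ∉ Λ.Vt → gen r' g₀ p = 0) (hg₀f : ∀ p : Nd', ‖g₀ p - f p‖ ≤ e)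
    (m1 : ∀ z ∈ Λ.P, ∀ z' ∈ Λ.P, ‖z - z'‖ ≤ 100 * s → ‖f z - f z'‖ ≤ η)
    (m2 : ∀ z ∈ Λ.P, ∀ z' ∈ Λ.P, ‖z - z'‖ ≤ 2 * μ → ‖f z - f z'‖ ≤ min e d)
    (far : ∀ t ∈ Icc y₀ y₁, ∀ w ∈ frontier Λ.P, ¬ Near f Λ.P (2 * d) (γ t) w)
    (side : ∀ t ∈ Icc (0 : ℝ) 1, ∀ i, ∀ w ∈ K '' SqV i, ¬ Near f Λ.P d (γ t) w)
    (ends : ∀ t t', t ∈ Icc 0 y₀ ∧ t' ∈ Icc 0 y₀ ∨ t ∈ Icc y₁ 1 ∧ t' ∈ Icc y₁ 1 →
      ‖f (γ t) - f (γ t')‖ ≤ ρ) :
    Nonempty (BandNet (fun z => f (K z)) d ρ e η s₀ X.card) := by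
  set ℓ := γ '' Icc y₀ y₁ with hℓ
  have hk : 0 < k := by linarith
  have hN := h.good
  choose lam hl using fun i => interp h (σ₁ := 2 * k) hs (by linarith only [hs, hsk]) (by linarith) hT.den hlong i
  have hK : ∀ z : ℂ, K (K.symm z) = z := K.apply_symm_apply
  have hfr : K '' frontier Sq = frontier Λ.P := by rw [K.image_frontier, h.sq]
  have hfp : ∀ p : Nd', K.symm p ∈ frontier Sq ↔ (p : ℂ) ∈ Λ.Vt := fun p => by
    rw [← net_of_fr hN, ← hfr, ← K.injective.mem_set_image, hK]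
  have hI : Icc y₀ y₁ ⊆ Icc 0 1 := Icc_subset_Icc hy.1.le hy.2.2.le
  have hH : ∀ i, K '' Half i ⊆ Λ.P := fun i => by
    rw [← h.sq]
    exact image_mono fun z hz => hz.1
  have hp : ∀ (i : Bool) (p : Nd'), K.symm p ∈ Half i → (p : ℂ) ∈ K '' Half i := fun i p hp =>
    ⟨_, hp, hK _⟩
  have hcut : ∀ p : Nd', (K.symm p).re = 1 / 2 → (K.symm p).im ∈ Icc y₀ y₁ →
      infDist (p : ℂ) ℓ = 0 := fun p h1 h2 => by
    refine infDist_zero_of_mem ⟨_, h2, ?_⟩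
    rw [← h.mid _ (hI h2), ← h1]
    exact hK _
  have me : ∀ z ∈ Λ.P, ∀ z' ∈ Λ.P, ‖z - z'‖ ≤ 2 * μ → ‖f z - f z'‖ ≤ e := fun z a z' b c =>
    (m2 z a z' b c).trans (min_le_left _ _)
  have md : ∀ z ∈ Λ.P, ∀ z' ∈ Λ.P, ‖z - z'‖ ≤ 2 * μ → ‖f z - f z'‖ ≤ d := fun z a z' b c =>
    (m2 z a z' b c).trans (min_le_right _ _)
  have L1 : ∀ y, Loc Λ r' (2 * k) y := fun y =>
    ⟨fun z hz _ => hT.den z hz, fun p p' hpp _ _ _ => hT.short p p' hpp⟩
  have L2 : ∀ y, ¬ infDist y ℓ ≤ 14 * k → Loc Λ r' s y := fun y hy =>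
    ⟨fun z hz hzy => hT.den' z hz (by linarith [net_of_inf (ℓ := ℓ) hzy, not_le.1 hy]),
      fun p p' hpp z hz hzy =>
        (hT.short' p p' hpp z hz (by linarith only [net_of_inf (ℓ := ℓ) hzy, hs, hsk, hy])).1⟩
  refine ⟨{
    N := Nd'
    r := r'
    pt := fun p => K.symm p
    T := fun p => p
    g := fun p => if (p : ℂ) ∈ Eg r ∪ Nd then G p else f p
    g0 := g₀
    Z := {y | infDist (K y) ℓ ≤ 14 * k}
    y0 := y₀
    y1 := y₁
    lam := fun i y => lam i (K y)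
    nonneg := hN.pnet.nonneg
    stop := fun p q a => hN.stop p q ((hfp p).1 a)
    abs := hN.pnet.abs.mono (fun p a => (hfp p).2 a) fun _ _ a => a
    mem := fun p => ?_
    inj := K.symm.injective.comp Subtype.val_injective
    T_le := fun p => net_of_norm Λ (hN.pnet.mem _ p.2)
    T_harm := fun p a => hN.pnet.harm p fun b => a ((hfp p).2 b)
    g_near := fun p => ?_
    g_harm := fun p a b => ?_
    g0_near := fun p => by simpa only [hK] using hg₀f p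
    g0_harm := fun p a => hg₀ p fun b => a ((hfp p).2 b)
    far := fun z hz b hb hn => ?_
    y_lt := hy
    cut_Z := fun t ht => ?_
    cut_card := ?_
    cut_sep := fun x h1 h2 p hpx => ?_
    ends := fun t t' ht => ?_
    side := fun t ht i b hb hn => ?_
    gap := fun t t' h0 htt h1 hn => ?_
    cont := fun i => (hl i).cont.comp K.continuous.continuousOn (mapsTo_image _ _)
    simplex := fun i y a => (hl i).simplex _ ⟨y, a, rfl⟩
    node := fun i p a m hm => by simpa only [hK] using (hl i).node p (hp i p a) m hm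
    loc := fun i y a m hm => ?_
    star := fun i y a m hm => ?_
    up := fun i y a u => ?_
    edge := fun p q hpq => ?_ }⟩
  · have := hN.pnet.mem _ p.2
    rw [← h.sq, ← hK p] at this
    exact K.injective.mem_set_image.1 this
  · simp only [hK]
    split_ifs with a
    · exact hGf _ a (hN.pnet.mem _ p.2)
    · simpa only [sub_self, norm_zero] using hη
  · have b' : 137 / 10 * k ≤ infDist (p : ℂ) ℓ := by
      have : ¬ infDist (K (K.symm p)) ℓ ≤ 14 * k := b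
      rw [hK] at this
      linarith only [hs, hsk, this]
    obtain ⟨h1, h2⟩ := hT.far p b'
    rw [← h2 E g G hG hg fun c => a ((hfp p).2 c)]
    refine Finset.sum_congr rfl fun q _ => ?_
    rcases (hN.pnet.nonneg p q).eq_or_lt with c | c
    · rw [← c, zero_smul, zero_smul]
    · have h3 : (q : ℂ) ∈ Eg r ∪ Nd := Or.inl
        ((hT.short' p q c _ (left_mem_segment ℝ _ _) b').2 (right_mem_segment ℝ _ _))
      simp only [if_pos h1, if_pos h3]
  · rw [Near.map, h.sq] at hn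
    have hc : IsCompact ℓ := isCompact_Icc.image_of_continuousOn (h.arc.arc.cont.mono hI)
    obtain ⟨w, ⟨t, ht, rfl⟩, hw⟩ := hc.exists_infDist_eq_dist
      ⟨_, y₀, ⟨le_rfl, hy.2.1.le⟩, rfl⟩ (K z)
    have hz' : infDist (K z) ℓ ≤ 14 * k := hz
    have hzP : K z ∈ Λ.P := by
      obtain ⟨C, hC, -, hzC, -⟩ := hn
      exact hC hzC
    have h1 : Near f Λ.P d (γ t) (K z) := near_seg (Λ.convex_reg 0) md (h.arc.arc.mem (hI ht)) hzP
      (by rw [← dist_eq_norm, dist_comm, ← hw]; linarith only [hs, hsk, hkμ, hz'])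
    refine far t ht (K b) (hfr ▸ mem_image_of_mem K hb) ?_
    rw [two_mul]
    exact h1.trans hn
  · show infDist (K _) ℓ ≤ 14 * k
    rw [h.mid t (hI ht), infDist_zero_of_mem (mem_image_of_mem γ ht)]
    linarith
  · rw [← Set.ncard_coe_finset]
    exact Set.ncard_le_ncard_of_injOn (fun p : Nd' => (p : ℂ))
      (fun p a => hT.deep _ p.2 (by rw [hcut p a.1 a.2]; exact hk.le))
      Subtype.val_injective.injOn X.finite_toSet
  · have h3 := hcut x h1 h2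
    rcases le_total ‖(p : ℂ) - x‖ k with c | c
    · refine hX _ (hT.deep _ p.2 ?_) _ (hT.deep _ x.2 (by rw [h3]; exact hk.le))
        fun c => hpx (Subtype.ext c)
      rw [norm_sub_rev] at c
      linarith only [net_of_inf (ℓ := ℓ) c, h3]
    · exact hs₀.trans c
  · have : t ∈ Icc (0 : ℝ) 1 ∧ t' ∈ Icc (0 : ℝ) 1 := by
      obtain ⟨h0, h1, h2⟩ := hy
      rcases ht with ⟨⟨a, b⟩, c, c'⟩ | ⟨⟨a, b⟩, c, c'⟩ <;>
        exact ⟨⟨by linarith, by linarith⟩, by linarith, by linarith⟩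
    simp only [h.mid t this.1, h.mid t' this.2]
    exact ends t t' ht
  · rw [Near.map, h.sq, h.mid t ht] at hn
    exact side t ht i _ (mem_image_of_mem K hb) hn
  · have a : t ∈ Icc (0 : ℝ) 1 := ⟨h0, htt.trans h1⟩
    have b : t' ∈ Icc (0 : ℝ) 1 := ⟨h0.trans htt, h1⟩
    have h2 := h.gap (σ := 2 * k) (by linarith) (by linarith) hT.den h0 htt h1 fun τ hτ c => by
      have e : K.symm (γ τ) = ⟨1 / 2, τ⟩ := by
        rw [← h.mid τ ⟨h0.trans hτ.1.le, hτ.2.le.trans h1⟩, K.symm_apply_apply]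
      refine hn ⟨γ τ, c⟩ (by simp only [e]) ?_
      simpa only [e] using hτ
    simp only [h.mid t a, h.mid t' b]
    refine me _ (h.arc.arc.mem a) _ (h.arc.arc.mem b) ?_
    rw [norm_sub_rev]
    linarith
  · obtain ⟨C, hC, h1, h2, h3, -, h5⟩ := (hl i).loc _ ⟨y, a, rfl⟩ m hm
    simp only [Near.map, hK]
    refine ⟨⟨C, hC, h1, h2, h3, fun z hz z' hz' => me _ (hH i (hC hz)) _ (hH i (hC hz')) ?_⟩,
      fun b => ⟨C, hC, h1, h2, h3, fun z hz z' hz' => m1 _ (hH i (hC hz)) _ (hH i (hC hz')) ?_⟩⟩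
    · have h6 := h5 (2 * k) (by linarith only [hs, hsk]) (by linarith) (L1 _)
      linarith [net_of_tri _ _ _ (h6 z hz) (h6 z' hz')]
    · have h6 := h5 s le_rfl (by linarith) (L2 _ b)
      linarith [net_of_tri _ _ _ (h6 z hz) (h6 z' hz')]
  · obtain ⟨C, hC, h1, h2, h3, h4, -⟩ := (hl i).loc _ ⟨y, a, rfl⟩ m hm
    exact ⟨K ⁻¹' C, net_of_pull K hC, K.isPreconnected_preimage.2 h1, h2,
      by simpa only [mem_preimage, hK] using h3, fun z hz => h4 _ hz⟩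
  · obtain ⟨m, C, hC, h1, h2, h3, h4⟩ := (hl i).up _ ⟨y, a, rfl⟩ u
    exact ⟨m, K ⁻¹' C, net_of_pull K hC, K.isPreconnected_preimage.2 h1, h2,
      by simpa only [mem_preimage, hK] using h3, fun z hz => h4 _ hz⟩
  · obtain ⟨⟨i, hi⟩, -⟩ := h.edge_half hpq
    obtain ⟨C, hC, h1, h2, h3, h4, h5⟩ := (hl i).edge p q hpq hi
    have h6 : ∀ z ∈ C, ∀ z' ∈ C, ‖z - z'‖ ≤ 4 * s + ‖(q : ℂ) - p‖ := fun z hz z' hz' => by
      obtain ⟨w, hw, a⟩ := h5 z hz
      obtain ⟨w', hw', a'⟩ := h5 z' hz'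
      linarith only [net_of_tri _ _ _ a (net_of_tri z' w w' a' (net_of_seg hw hw'))]
    refine ⟨i, K ⁻¹' C, net_of_pull K hC, K.isPreconnected_preimage.2 h1,
      by simpa only [mem_preimage, hK] using h2, by simpa only [mem_preimage, hK] using h3,
      fun z hz => h4 _ hz, fun z hz z' hz' => me _ (hH i (hC hz)) _ (hH i (hC hz')) ?_,
      fun b z hz z' hz' => m1 _ (hH i (hC hz)) _ (hH i (hC hz')) ?_⟩
    · linarith [h6 _ hz _ hz', hT.short p q hpq]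
    · have b' : ¬ infDist (K (K.symm p)) ℓ ≤ 14 * k := b
      rw [hK] at b'
      linarith [h6 _ hz _ hz', (hT.short' p q hpq _ (left_mem_segment ℝ _ _)
        (by linarith [not_le.1 b'])).1]

end Pool.Agent.MP_17e62b_gt.G

end
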