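import Pool.Agent.MP_17e62b_gt.Mg.T55_MA2
import Pool.Agent.MP_17e62b_gt.Mg.T55_MA1
import Pool.Agent.MP_4a6971_al.H83.Schoen

attribute [-instance] LeftPreLieAlgebra.toModule RightPreLieAlgebra.toModule Valued.toUniformSpace
  AddQuantale.instAddLeftMono TotallySeparatedSpace.t2Space RKHS.instFunLike NumberField.to_charZero
  Action.FintypeCat.instMulActionObjFiniteOf IsScalarTower.complexToReal
  GrpTypeEquivalenceGrp.grpGroup ProperSMul.toContinuousSMul continuousSub_of_discreteTopology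
  AddQuantale.instAddRightMono IsPurelyInseparable.isIntegral CStarAlgebra.instOrderClosedTopology
  NonarchimedeanAddGroup.toIsTopologicalAddGroup NonarchimedeanRing.toIsTopologicalRing
  NonUnitalSeminormedRing.toPseudoMetricSpace NonUnitalNonAssocRing.toAddCommGroup
  IdemSemiring.toCanonicallyOrderedAdd Quantale.instMulRightMono LieRinehartAlgebra.toIsScalarTower
  LinearOrderedCommMonoidWithZero.toPosMulStrictMono continuousSub_of_indiscreteTopology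
  Topology.IsScott.instClosedIicTopologyOfUnivSet TestFunctionClass.toDFunLike
  IsModuleTopology.toContinuousSMul UpgradedStandardBorel.toTopologicalSpace
  IsTopologicalTorsor.toContinuousSMul Algebra.Smooth.flat Fintype.decidableExistsFintype
  Module.Invertible.instFaithfulSMul Torsor.toMulAction
  NonUnitalAlgSemiHomClass.toDistribMulActionSemiHomClass SeminormedGroup.toPseudoMetricSpace
  LinearOrderedCommMonoidWithZero.toIsBotZeroClass

section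

/-!
Straightening of the frontier arcs in a chart.
-/

namespace Pool.Agent.MP_17e62b_gt.T55

open Set Metric Topology
open scoped InnerProductSpace Manifold

open Pool.Agent.MP_4a6971_al.H83

variable {M : Type} [TopologicalSpace M] [T2Space M] {A B : Set M}

theorem a13_map (hM : Atl M B) {K : Set ℂ} (hK : IsCompact K) {Ψ : ℂ → M}
    (h1 : ContinuousOn Ψ K) (h2 : InjOn Ψ K) {h : ℂ ≃ₜ ℂ} (hs : Supp h K) :
    ∃ g : M → M, Continuous g ∧ (∀ x, x ∉ Ψ '' interior K → g x = x) ∧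
      ∀ z ∈ K, g (Ψ z) = Ψ (h z) := by
  classical
  let g : M → M := fun x => if x ∈ Ψ '' K then Ψ (h (Function.invFunOn Ψ K x)) else x
  have e2 : ∀ z ∈ K, g (Ψ z) = Ψ (h z) := fun z hz => by
    simp only [g, if_pos (mem_image_of_mem Ψ hz), h2.leftInvOn_invFunOn hz]
  have e1 : ∀ x, x ∉ Ψ '' interior K → g x = x := fun x hx => by
    by_cases c : x ∈ Ψ '' K
    · obtain ⟨z, hz, rfl⟩ := c
      rw [e2 z hz, hs z fun d => hx (mem_image_of_mem Ψ d)]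
    · simp only [g, if_neg c]
  refine ⟨g, ?_, e1, e2⟩
  have o : IsOpen (Ψ '' interior K) :=
    (hM.open_emb isOpen_interior (h1.mono interior_subset) (h2.mono interior_subset)).1
  have c1 : ContinuousOn g (Ψ '' K) := by
    have : ContinuousOn (fun x => Ψ (h (Function.invFunOn Ψ K x))) (Ψ '' K) := by
      refine h1.comp (h.continuous.comp_continuousOn (Arc_inv hK h1 h2)) ?_
      rintro _ ⟨z, hz, rfl⟩
      simp only [h2.leftInvOn_invFunOn hz]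
      exact hs.mem.2 hz
    exact this.congr fun x hx => by simp only [g, if_pos hx]
  have c2 : ContinuousOn g (Ψ '' interior K)ᶜ := continuousOn_id.congr fun x hx => e1 x hx
  have u : Ψ '' K ∪ (Ψ '' interior K)ᶜ = univ := by
    refine eq_univ_of_forall fun x => ?_
    by_cases c : x ∈ Ψ '' interior K
    · exact Or.inl (image_mono interior_subset c)
    · exact Or.inr c
  rw [← continuousOn_univ, ← u]
  exact c1.union_of_isClosed c2 (hK.image_of_continuousOn h1).isClosed o.isClosed_compl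

theorem a13_pull {K : Set ℂ} (hK : IsCompact K) (hc : Convex ℝ K) {γ : ℝ → ℂ} (hγ : PArc K γ)
    {θ : ℂ → ℂ} (h1 : ContinuousOn θ K) (h2 : InjOn θ K) {β : ℝ → ℂ}
    (b1 : ContinuousOn β (Icc 0 1)) (b2 : InjOn β (Icc 0 1)) (e0 : β 0 = θ (γ 0))
    (e1 : β 1 = θ (γ 1)) (b3 : ∀ t ∈ Ioo (0 : ℝ) 1, β t ∈ θ '' interior K) :
    ∃ h : ℂ ≃ₜ ℂ, Supp h K ∧ ∀ t ∈ Icc (0 : ℝ) 1, θ (h (γ t)) = β t := by
  have m : ∀ t ∈ Icc (0 : ℝ) 1, β t ∈ θ '' K := fun t ht => by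
    rcases ht.1.eq_or_lt with rfl | a
    · exact e0 ▸ mem_image_of_mem θ hγ.m0
    rcases ht.2.eq_or_lt with rfl | b
    · exact e1 ▸ mem_image_of_mem θ hγ.m1
    exact image_mono interior_subset (b3 t ⟨a, b⟩)
  have r : ∀ t ∈ Icc (0 : ℝ) 1, θ (Function.invFunOn θ K (β t)) = β t := fun t ht =>
    Function.invFunOn_eq (m t ht)
  have f0 : Function.invFunOn θ K (β 0) = γ 0 := by rw [e0, h2.leftInvOn_invFunOn hγ.m0]
  have f1 : Function.invFunOn θ K (β 1) = γ 1 := by rw [e1, h2.leftInvOn_invFunOn hγ.m1]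
  have P : PArc K fun t => Function.invFunOn θ K (β t) :=
    { cont := (Arc_inv hK h1 h2).comp b1 m
      inj := fun t ht t' ht' e => b2 ht ht' (by
        rw [← r t ht, ← r t' ht']
        exact congrArg θ e)
      m0 := by rw [f0]; exact hγ.m0
      n0 := by rw [f0]; exact hγ.n0
      m1 := by rw [f1]; exact hγ.m1
      n1 := by rw [f1]; exact hγ.n1
      mid := fun t ht => by
        obtain ⟨z, hz, e⟩ := b3 t ht
        rw [← e, h2.leftInvOn_invFunOn (interior_subset hz)]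
        exact hz }
  obtain ⟨h, hs, hh⟩ := arc_lemma hK hc hγ P f0.symm f1.symm
  exact ⟨h, hs, fun t ht => by rw [hh t ht, r t ht]⟩

/-- A short cut: the middle of an arc is replaced by a segment. -/
theorem a13_cut {c : ℝ → ℂ} (c1 : ContinuousOn c (Icc 0 1)) (c2 : InjOn c (Icc 0 1)) {t₁ t₂ : ℝ}
    (h0 : 0 ≤ t₁) (h12 : t₁ < t₂) (h1 : t₂ ≤ 1) :
    ∃ s₁ ∈ Icc 0 t₁, ∃ s₂ ∈ Icc t₂ 1, c s₁ ∈ segment ℝ (c t₁) (c t₂) ∧
      c s₂ ∈ segment ℝ (c t₁) (c t₂) ∧ ∀ w ∈ Ioo (0 : ℝ) 1, ∀ t ∈ Icc 0 s₁ ∪ Icc s₂ 1,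
        c s₁ + w • (c s₂ - c s₁) ≠ c t := by
  let σ : ℝ → ℂ := fun u => c t₁ + u • (c t₂ - c t₁)
  have σc : Continuous σ := by fun_prop
  have s1 : Icc 0 t₁ ⊆ Icc (0 : ℝ) 1 := Icc_subset_Icc_right (h12.le.trans h1)
  have s2 : Icc t₂ 1 ⊆ Icc (0 : ℝ) 1 := Icc_subset_Icc_left (h0.trans h12.le)
  have k1 : IsClosed (c '' Icc 0 t₁) := (isCompact_Icc.image_of_continuousOn (c1.mono s1)).isClosed
  have k2 : IsClosed (c '' Icc t₂ 1) := (isCompact_Icc.image_of_continuousOn (c1.mono s2)).isClosed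
  obtain ⟨u₁, ⟨hu₁, s₁, hs₁, e₁⟩, m₁⟩ :=
    ((isCompact_Icc (a := (0 : ℝ)) (b := 1)).inter_right (k1.preimage σc)).exists_isGreatest
      ⟨0, left_mem_Icc.2 zero_le_one, t₁, right_mem_Icc.2 h0, by simp [σ]⟩
  obtain ⟨u₂, ⟨hu₂, s₂, hs₂, e₂⟩, m₂⟩ :=
    ((isCompact_Icc (a := u₁) (b := 1)).inter_right (k2.preimage σc)).exists_isLeast
      ⟨1, right_mem_Icc.2 hu₁.2, t₂, left_mem_Icc.2 h1, by simp [σ]⟩
  have lt : u₁ < u₂ := by
    refine hu₂.1.lt_of_ne fun e => ?_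
    have := c2 (s1 hs₁) (s2 hs₂) (by rw [e₁, e₂, e])
    linarith [hs₁.2, hs₂.1]
  refine ⟨s₁, hs₁, s₂, hs₂, e₁ ▸ Cone_seg _ _ hu₁.1 hu₁.2,
    e₂ ▸ Cone_seg _ _ (hu₁.1.trans hu₂.1) hu₂.2, fun w hw t ht e => ?_⟩
  have a1 : u₁ < u₁ + w * (u₂ - u₁) := by nlinarith only [hw.1, lt]
  have a2 : u₁ + w * (u₂ - u₁) < u₂ := by nlinarith only [hw.2, lt]
  have e' : c t = σ (u₁ + w * (u₂ - u₁)) := by
    rw [← e, e₁, e₂]
    simp only [σ]
    module
  rcases ht with ht | ht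
  · exact a1.not_ge (m₁ ⟨⟨hu₁.1.trans a1.le, a2.le.trans hu₂.2⟩, t,
      ⟨ht.1, ht.2.trans hs₁.2⟩, e'⟩)
  · exact a2.not_ge (m₂ ⟨⟨a1.le, a2.le.trans hu₂.2⟩, t, ⟨hs₂.1.trans ht.1, ht.2⟩, e'⟩)

/-- A homeomorphism of the plane supported in a convex set acts on `M` through an embedding. -/
theorem transplant (hM : Atl M B) {K : Set ℂ} (hK : IsCompact K) {Ψ : ℂ → M}
    (h1 : ContinuousOn Ψ K) (h2 : InjOn Ψ K) {h : ℂ ≃ₜ ℂ} (hs : Supp h K) :
    ∃ g : M ≃ₜ M, (∀ x, x ∉ Ψ '' interior K → g x = x) ∧ ∀ z ∈ K, g (Ψ z) = Ψ (h z) := by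
  obtain ⟨g, g1, g2, g3⟩ := a13_map hM hK h1 h2 hs
  obtain ⟨f, f1, f2, f3⟩ := a13_map hM hK h1 h2 hs.inv
  refine ⟨⟨⟨g, f, fun x => ?_, fun x => ?_⟩, g1, f1⟩, g2, g3⟩
  · by_cases c : x ∈ Ψ '' interior K
    · obtain ⟨z, hz, rfl⟩ := c
      rw [g3 z (interior_subset hz), f3 _ (hs.mem.2 (interior_subset hz))]
      exact congrArg Ψ (h.symm_apply_apply z)
    · rw [g2 x c, f2 x c]
  · by_cases c : x ∈ Ψ '' interior K
    · obtain ⟨z, hz, rfl⟩ := c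
      rw [f3 z (interior_subset hz), g3 _ (hs.inv.mem.2 (interior_subset hz))]
      exact congrArg Ψ (h.apply_symm_apply z)
    · rw [f2 x c, g2 x c]

/-- Round one. An arc through the point `γ (1/2)` is moved so that it is straight near that point
in a second coordinate `θ`. Plan: `θ '' interior K` is open (`invariance`); choose `t₁ < 1/2 < t₂`
with `θ ∘ γ` of `[t₁, t₂]` in a ball inside it; on the segment between `θ (γ t₁)` and `θ (γ t₂)`
take the last point on `γ [0, t₁]` and the first later point on `γ [t₂, 1]`; replace the middle of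
`γ` by that piece of the segment, with `1/2` sent to its midpoint; `arc_lemma`. -/
theorem round_one {K : Set ℂ} (hK : IsCompact K) (hc : Convex ℝ K) {γ : ℝ → ℂ} (hγ : PArc K γ)
    {θ : ℂ → ℂ} (h1 : ContinuousOn θ K) (h2 : InjOn θ K) :
    ∃ h : ℂ ≃ₜ ℂ, Supp h K ∧ ∃ δ > 0, ∃ v : ℂ, v ≠ 0 ∧
      ∀ s ∈ Icc (-δ) δ, θ (h (γ (1 / 2 + s))) = θ (h (γ (1 / 2))) + s • v := by
  let c : ℝ → ℂ := fun t => θ (γ t)
  have c1 : ContinuousOn c (Icc 0 1) := h1.comp hγ.cont fun t ht => hγ.mem ht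
  have c2 : InjOn c (Icc 0 1) := fun t ht t' ht' e =>
    hγ.inj ht ht' (h2 (hγ.mem ht) (hγ.mem ht') e)
  have o : IsOpen (θ '' interior K) :=
    invariance isOpen_interior (h1.mono interior_subset) (h2.mono interior_subset)
  have c3 : ∀ t ∈ Ioo (0 : ℝ) 1, c t ∈ θ '' interior K := fun t ht =>
    mem_image_of_mem θ (hγ.mid t ht)
  obtain ⟨r, hr, hb⟩ := Metric.isOpen_iff.1 o _ (c3 (1 / 2) ⟨by norm_num, by norm_num⟩)
  have ca : ContinuousAt c (1 / 2) := c1.continuousAt (Icc_mem_nhds (by norm_num) (by norm_num))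
  obtain ⟨ε, hε, hd⟩ := Metric.continuousAt_iff.1 ca r hr
  obtain ⟨δ, d0, d1, d2⟩ : ∃ δ : ℝ, 0 < δ ∧ δ < ε ∧ δ ≤ 1 / 4 :=
    ⟨min (ε / 2) (1 / 4), by positivity, (min_le_left _ _).trans_lt (by linarith), min_le_right _ _⟩
  obtain ⟨s₁, hs₁, s₂, hs₂, m₁, m₂, hn⟩ := a13_cut c1 c2 (t₁ := 1 / 2 - δ) (t₂ := 1 / 2 + δ)
    (by linarith only [d2]) (by linarith) (by linarith)
  have sb : segment ℝ (c (1 / 2 - δ)) (c (1 / 2 + δ)) ⊆ ball (c (1 / 2)) r :=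
    (convex_ball _ _).segment_subset
      (hd (by rw [Real.dist_eq, abs_lt]; constructor <;> linarith))
      (hd (by rw [Real.dist_eq, abs_lt]; constructor <;> linarith))
  have lt : s₁ < s₂ := by linarith [hs₁.2, hs₂.1]
  have i₁ : s₁ ∈ Icc (0 : ℝ) 1 := ⟨hs₁.1, by linarith only [hs₁.2, d0]⟩
  have i₂ : s₂ ∈ Icc (0 : ℝ) 1 := ⟨by linarith [hs₂.1], hs₂.2⟩
  have p : 0 < s₂ - s₁ := sub_pos.2 lt
  let v : ℂ := (s₂ - s₁)⁻¹ • (c s₂ - c s₁)
  have hv : v ≠ 0 := smul_ne_zero (inv_ne_zero p.ne')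
    (sub_ne_zero.2 fun e => lt.ne' (c2 i₂ i₁ e))
  let β : ℝ → ℂ := fun t => c (min t s₁) + (c (max t s₂) - c s₂) + (max (min t s₂) s₁ - s₁) • v
  have p1 : ∀ t, t ≤ s₁ → β t = c t := fun t ht => by
    simp only [β]
    rw [min_eq_left ht, max_eq_right (ht.trans lt.le), min_eq_left (ht.trans lt.le),
      max_eq_right ht]
    simp
  have p2 : ∀ t, s₁ ≤ t → t ≤ s₂ → β t = c s₁ + (t - s₁) • v := fun t a b => by
    simp only [β]
    rw [min_eq_right a, max_eq_right b, min_eq_left b, max_eq_left a]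
    simp
  have p3 : ∀ t, s₂ ≤ t → β t = c t := fun t ht => by
    simp only [β, v]
    rw [min_eq_right (lt.le.trans ht), max_eq_left ht, min_eq_right ht, max_eq_left lt.le,
      smul_smul, mul_inv_cancel₀ p.ne', one_smul]
    ring
  have p4 : ∀ t, (t - s₁) • v = ((t - s₁) / (s₂ - s₁)) • (c s₂ - c s₁) := fun t => by
    simp only [v]
    rw [smul_smul, div_eq_mul_inv]
  have q : ∀ t, s₁ < t → t < s₂ → (t - s₁) / (s₂ - s₁) ∈ Ioo (0 : ℝ) 1 := fun t a b =>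
    ⟨div_pos (sub_pos.2 a) p, (div_lt_one p).2 (by linarith only [b])⟩
  have out : ∀ t ∈ Icc 0 s₁ ∪ Icc s₂ 1, β t = c t := fun t ht =>
    ht.elim (fun a => p1 t a.2) fun a => p3 t a.1
  have tri : ∀ t ∈ Icc (0 : ℝ) 1, t ∈ Icc 0 s₁ ∪ Icc s₂ 1 ∨ (s₁ < t ∧ t < s₂) := fun t ht => by
    rcases le_or_gt t s₁ with a | a
    · exact Or.inl (Or.inl ⟨ht.1, a⟩)
    rcases le_or_gt s₂ t with b | b
    · exact Or.inl (Or.inr ⟨b, ht.2⟩)
    · exact Or.inr ⟨a, b⟩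
  have b1 : ContinuousOn β (Icc 0 1) := by
    refine ((c1.comp (by fun_prop) fun t ht => ?_).add
      ((c1.comp (by fun_prop) fun t ht => ?_).sub continuousOn_const)).add (by fun_prop)
    · exact ⟨le_min ht.1 i₁.1, (min_le_left _ _).trans ht.2⟩
    · exact ⟨ht.1.trans (le_max_left _ _), max_le ht.2 i₂.2⟩
  have b2 : InjOn β (Icc 0 1) := fun t ht t' ht' e => by
    rcases tri t ht with a | a <;> rcases tri t' ht' with a' | a'
    · exact c2 ht ht' (by rw [← out t a, ← out t' a', e])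
    · rw [out t a, p2 t' a'.1.le a'.2.le, p4] at e
      exact (hn _ (q t' a'.1 a'.2) t a e.symm).elim
    · rw [out t' a', p2 t a.1.le a.2.le, p4] at e
      exact (hn _ (q t a.1 a.2) t' a' e).elim
    · rw [p2 t a.1.le a.2.le, p2 t' a'.1.le a'.2.le] at e
      linarith only [smul_left_injective ℝ hv (add_left_cancel e)]
  have b3 : ∀ t ∈ Ioo (0 : ℝ) 1, β t ∈ θ '' interior K := fun t ht => by
    rcases tri t (Ioo_subset_Icc_self ht) with a | a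
    · rw [out t a]
      exact c3 t ht
    · rw [p2 t a.1.le a.2.le, p4]
      exact hb ((convex_ball _ _).segment_subset (sb m₁) (sb m₂)
        (Cone_seg _ _ (q t a.1 a.2).1.le (q t a.1 a.2).2.le))
  obtain ⟨h, hs, hh⟩ := a13_pull hK hc hγ h1 h2 b1 b2 (p1 0 i₁.1) (p3 1 i₂.2) b3
  refine ⟨h, hs, δ, d0, v, hv, fun s hs' => ?_⟩
  rw [hh _ ⟨by linarith [hs'.1], by linarith [hs'.2]⟩, hh _ ⟨by norm_num, by norm_num⟩,
    p2 _ (by linarith [hs'.1, hs₁.2]) (by linarith [hs'.2, hs₂.1]),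
    p2 _ (by linarith [hs₁.2]) (by linarith [hs₂.1])]
  module

/-- Round two. Plan: `poly_arc` in `θ '' interior K`, pulled back by the inverse of `θ`, and
`arc_lemma`. -/
theorem round_two {K : Set ℂ} (hK : IsCompact K) (hc : Convex ℝ K) {γ : ℝ → ℂ} (hγ : PArc K γ)
    {θ : ℂ → ℂ} (h1 : ContinuousOn θ K) (h2 : InjOn θ K)
    (ha : ∃ a' ∈ θ '' interior K, segment ℝ (θ (γ 0)) a' \ {θ (γ 0)} ⊆ θ '' interior K)
    (hb : ∃ b' ∈ θ '' interior K, segment ℝ (θ (γ 1)) b' \ {θ (γ 1)} ⊆ θ '' interior K) :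
    ∃ h : ℂ ≃ₜ ℂ, Supp h K ∧ ∃ s : Finset (ℂ × ℂ),
      ∀ t ∈ Icc (0 : ℝ) 1, ∃ e ∈ s, θ (h (γ t)) ∈ segment ℝ e.1 e.2 := by
  obtain ⟨a', a1, a2⟩ := ha
  obtain ⟨b', b1, b2⟩ := hb
  have o : IsOpen (θ '' interior K) :=
    invariance isOpen_interior (h1.mono interior_subset) (h2.mono interior_subset)
  obtain ⟨β, c1, c2, e0, e1, c3, s, -, c4⟩ := poly_arc o
    (hc.interior.isPreconnected.image θ (h1.mono interior_subset))
    (fun e => hγ.ne (h2 hγ.m0 hγ.m1 e)) a1 b1 a2 b2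
  obtain ⟨h, hs, hh⟩ := a13_pull hK hc hγ h1 h2 c1 c2 e0 e1 c3
  exact ⟨h, hs, s, fun t ht => by rw [hh t ht]; exact c4 t ht⟩

end Pool.Agent.MP_17e62b_gt.T55

end

section

/-!
Straightening of all frontier arcs that lie in a chart.
-/

namespace Pool.Agent.MP_17e62b_gt.T55

open Set Metric Topology
open scoped InnerProductSpace Manifold

variable {M : Type} [TopologicalSpace M] [T2Space M] {A B : Set M}

omit [T2Space M] in
theorem a14_map {g : M ≃ₜ M} {S : Set M} (h : ∀ x, x ∉ S → g x = x) {x : M} (hx : x ∈ S) :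
    g x ∈ S := by
  by_contra c
  exact c ((g.injective (h _ c)).symm ▸ hx)

omit [T2Space M] in
theorem a14_prod {ι : Type} (s : Finset ι) (g : ι → M ≃ₜ M) (S : ι → Set M)
    (hs : ∀ i ∈ s, ∀ x, x ∉ S i → g i x = x)
    (hd : ∀ i ∈ s, ∀ j ∈ s, ∀ x ∈ S i, x ∈ S j → i = j) :
    ∃ h : M ≃ₜ M, (∀ x, (∀ i ∈ s, x ∉ S i) → h x = x) ∧ ∀ i ∈ s, ∀ x ∈ S i, h x = g i x := by
  classical
  induction s using Finset.induction_on with
  | empty => exact ⟨.refl _, fun _ _ => rfl, by simp only [Finset.notMem_empty, Homeomorph.refl_apply, id_eq, IsEmpty.forall_iff, implies_true]⟩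
  | insert a s ha ih =>
    have m := fun i (hi : i ∈ s) => Finset.mem_insert_of_mem (b := a) hi
    have ma := Finset.mem_insert_self a s
    obtain ⟨h, h1, h2⟩ := ih (fun i hi => hs i (m i hi)) fun i hi j hj => hd i (m i hi) j (m j hj)
    refine ⟨h.trans (g a), fun x hx => ?_, fun i hi x hx => ?_⟩
    · rw [Homeomorph.trans_apply, h1 x fun i hi => hx i (m i hi), hs a ma x (hx a ma)]
    rw [Homeomorph.trans_apply]
    rcases Finset.mem_insert.1 hi with rfl | hi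
    · rw [h1 x fun j hj c => ha (hd i ma j (m j hj) x hx c ▸ hj)]
    · rw [h2 i hi x hx, hs a ma _ fun c =>
        ha (hd i (m i hi) a ma _ (a14_map (hs i (m i hi)) hx) c ▸ hi)]

theorem a14_third {V : Type} [DecidableEq V] {t : Finset V} (ht : t.card = 3) {u v : V}
    (hu : u ∈ t) (hv : v ∈ t) (h : u ≠ v) : ∃ w, w ≠ u ∧ w ≠ v ∧ t = {u, v, w} := by
  have h1 : ({u, v} : Finset V) ⊆ t := Finset.insert_subset hu (Finset.singleton_subset_iff.2 hv)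
  obtain ⟨w, hw⟩ := Finset.card_eq_one.1
    (show (t \ {u, v}).card = 1 by rw [Finset.card_sdiff_of_subset h1, ht, Finset.card_pair h])
  have h2 : w ∈ t \ {u, v} := hw ▸ Finset.mem_singleton_self w
  simp only [Finset.mem_sdiff, Finset.mem_insert, Finset.mem_singleton, not_or] at h2
  refine ⟨w, h2.2.1, h2.2.2, ?_⟩
  rw [← Finset.union_sdiff_of_subset h1, hw]
  ext a
  simp only [Finset.mem_union, Finset.mem_insert, Finset.mem_singleton, or_assoc]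

theorem a14_two {V : Type} [DecidableEq V] {t t' : Finset V} {u v : V} (h : u ≠ v) (h1 : u ∈ t)
    (h2 : v ∈ t) (h3 : u ∈ t') (h4 : v ∈ t') : 2 ≤ (t ∩ t').card :=
  Finset.one_lt_card.2 ⟨u, Finset.mem_inter.2 ⟨h1, h3⟩, v, Finset.mem_inter.2 ⟨h2, h4⟩, h⟩

/-- A neighbourhood of the midpoint of an edge. -/
def a14_S (K : Tri A) (u v : K.V) : Set M := {x ∈ A | 1 / 3 < K.lam x u ∧ 1 / 3 < K.lam x v}

/-- The open triangle. -/
def a14_O (K : Tri A) (t : Finset K.V) : Set M := {x ∈ K.face t | ∀ v ∈ t, 0 < K.lam x v}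

/-- A segment from `p` enters `W`. -/
def a14_Acc (W : Set ℂ) (p : ℂ) : Prop := ∃ a ∈ W, segment ℝ p a \ {p} ⊆ W

theorem a14_acc {W : Set ℂ} {p v : ℂ} {δ : ℝ} (hδ : 0 < δ)
    (h : ∀ s ∈ Ioc 0 δ, p + s • v ∈ W) : a14_Acc W p := by
  refine ⟨_, h δ ⟨hδ, le_rfl⟩, ?_⟩
  rintro _ ⟨hz, h1⟩
  obtain ⟨s, hs, rfl⟩ := segment_eq_image' ℝ p _ ▸ hz
  dsimp only at h1 ⊢
  rw [add_sub_cancel_left, smul_smul] at h1 ⊢
  refine h _ ⟨mul_pos (hs.1.lt_of_ne ?_) hδ, mul_le_of_le_one_left hδ.le hs.2⟩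
  rintro rfl
  simp at h1

omit [T2Space M] in
theorem a14_mem (K : Tri A) {t : Finset K.V} {x : M} (hx : x ∈ K.face t) {v : K.V}
    (h : 0 < K.lam x v) : v ∈ t := not_not.1 fun c => h.ne' (hx.2 v c)

omit [T2Space M] in
theorem a14_le (K : Tri A) {x : M} (hx : x ∈ A) (s : Finset K.V) : ∑ v ∈ s, K.lam x v ≤ 1 :=
  (K.basic hx).2.1 ▸ Finset.sum_le_sum_of_subset_of_nonneg (Finset.subset_univ s)
    fun v _ _ => (K.basic hx).1 v

omit [T2Space M] in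
theorem a14_three (K : Tri A) {x : M} (hx : x ∈ A) {u v w : K.V} (h1 : u ≠ v) (h2 : w ≠ u)
    (h3 : w ≠ v) : K.lam x u + K.lam x v + K.lam x w ≤ 1 := by
  have := a14_le K hx {u, v, w}
  rwa [Finset.sum_insert (by simp [h1, h2.symm]), Finset.sum_pair h3.symm, ← add_assoc] at this

omit [T2Space M] in
theorem a14_edge (K : Tri A) {x : M} (hx : x ∈ A) {u v : K.V} (h : u ≠ v)
    (h1 : K.lam x u = 1 / 2) (h2 : K.lam x v = 1 / 2) : x ∈ K.face {u, v} :=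
  ⟨hx, fun w hw => by
    simp only [Finset.mem_insert, Finset.mem_singleton, not_or] at hw
    linarith [a14_three K hx h hw.1 hw.2, (K.basic hx).1 w]⟩

omit [T2Space M] in
theorem a14_eq (K : Tri A) {t t' : Finset K.V} (ht : t ∈ K.T) (ht' : t' ∈ K.T) {x : M}
    (h : x ∈ a14_O K t) (h' : x ∈ K.face t') : t = t' :=
  Finset.eq_of_subset_of_card_le (fun v hv => a14_mem K h' (h.2 v hv))
    (by rw [K.card t ht, K.card t' ht'])

theorem a14_bd (hM : Atl M B) (c : Chart M B) (K : Tri A) (hA : IsCompact A) {u v : K.V}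
    (huv : u ≠ v) (hd : deg K.T u v ≠ 2) {t : Finset K.V} (ht : t ∈ K.T) (hu : u ∈ t) (hv : v ∈ t)
    (hU : K.face t ⊆ c.U ∩ interior A) {m : M} (hm : m ∈ A) (h1 : K.lam m u = 1 / 2)
    (h2 : K.lam m v = 1 / 2) : a14_Acc (c.φ '' (a14_O K t ∩ a14_S K u v)) (c.φ m) := by
  have m1 := a14_edge K hm huv h1 h2
  have m2 : m ∈ K.face t := ⟨hm, fun w hw => m1.2 w fun h => hw
    (Finset.insert_subset hu (Finset.singleton_subset_iff.2 hv) h)⟩
  obtain ⟨d1, -, d2⟩ := K.open_edge hM hA huv m1 (by linarith only [h1]) (by linarith only [h2])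
  have d3 : t ∈ K.T.filter fun t => u ∈ t ∧ v ∈ t := Finset.mem_filter.2 ⟨ht, hu, hv⟩
  have d4 : deg K.T u v = 1 := by
    have : 0 < deg K.T u v := Finset.card_pos.2 ⟨t, d3⟩
    omega
  obtain ⟨mU, mA⟩ := hU m2
  have p0 := (c.bd m mU).1 (d2 d4 mA)
  have cl : ∀ a, ContinuousWithinAt (fun x => K.lam x a) A m := fun a =>
    (continuous_apply a).continuousAt.comp_continuousWithinAt (K.cont m hm)
  have n1 : ∀ᶠ y in 𝓝 m, y ∈ K.face t ∧ y ∈ a14_S K u v := by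
    rw [← nhdsWithin_eq_nhds.2 (mem_interior_iff_mem_nhds.1 mA)]
    filter_upwards [K.near hm,
      (cl u).tendsto.eventually_const_lt (show (1 / 3 : ℝ) < K.lam m u by linarith only [h1]),
      (cl v).tendsto.eventually_const_lt (show (1 / 3 : ℝ) < K.lam m v by linarith only [h2])]
      with y ⟨t', a1, a2, a3⟩ a4 a5
    rw [Finset.card_le_one.1 d4.le t d3 t' (Finset.mem_filter.2
      ⟨a1, a14_mem K a2 (by linarith only [h1]), a14_mem K a2 (by linarith only [h2])⟩)]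
    exact ⟨a3, a3.1, a4, a5⟩
  have n2 := (c.contψ _ (c.mapφ mU)).eventually (p := fun y => y ∈ K.face t ∧ y ∈ a14_S K u v)
    (by rwa [c.left m mU])
  obtain ⟨r, r0, hr⟩ := Metric.eventually_nhds_iff.1
    ((eventually_nhdsWithin_iff.1 n2).and (c.openO.mem_nhds (c.mapφ mU).1))
  refine a14_acc (v := Complex.I) (half_pos r0) fun s hs => ?_
  obtain ⟨b1, b2⟩ := hr (y := c.φ m + s • Complex.I) (by
    rw [dist_self_add_left, norm_smul, Complex.norm_I, mul_one, Real.norm_of_nonneg hs.1.le]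
    linarith only [hs.2, r0])
  have e : (c.φ m + s • Complex.I).im = s := by simp [p0]
  have z1 : c.φ m + s • Complex.I ∈ c.O ∩ {z : ℂ | 0 ≤ z.im} := ⟨b2, hs.1.le.trans e.ge⟩
  obtain ⟨b3, b4⟩ := b1 z1
  refine ⟨_, ⟨⟨b3, fun w hw => ((K.basic b3.1).1 w).lt_of_ne fun h0 => ?_⟩, b4⟩, c.right _ z1⟩
  have a4 := b4.2.1
  have a5 := b4.2.2
  obtain ⟨w', w1, w2, rfl⟩ := a14_third (K.card t ht) hu hv huv
  have b5 := (K.open_edge hM hA huv (x := c.ψ (c.φ m + s • Complex.I)) ⟨b3.1, fun a ha => ?_⟩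
    (by linarith only [a4]) (by linarith only [a5])).2.2 d4 (hU b3).2
  · rw [c.bd _ (c.mapψ z1), c.right _ z1, e] at b5
    exact hs.1.ne' b5
  simp only [Finset.mem_insert, Finset.mem_singleton, not_or] at hw ha
  by_cases h : a = w'
  · rcases hw with rfl | rfl | rfl
    · linarith only [h0, a4]
    · linarith only [h0, a5]
    · rw [h, ← h0]
  · exact b3.2 a (by simp [ha.1, ha.2, h])

theorem a14_in (hM : Atl M B) (c : Chart M B) (K : Tri A) (hA : IsCompact A) {u v : K.V}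
    (huv : u ≠ v) (hd : deg K.T u v = 2) (hU : ∀ t ∈ K.T, u ∈ t → v ∈ t → K.face t ⊆ c.U) :
    ∃ g : M ≃ₜ M, (∀ x, x ∉ a14_S K u v → g x = x) ∧ ∀ t ∈ K.T, u ∈ t → v ∈ t → ∀ m ∈ A,
      K.lam m u = 1 / 2 → K.lam m v = 1 / 2 →
        a14_Acc ((fun x => c.φ (g x)) '' (a14_O K t ∩ a14_S K u v)) (c.φ (g m)) := by
  obtain ⟨t₁, t₂, t12, hT⟩ := Finset.card_eq_two.1 hd
  have mT : ∀ t, (t ∈ K.T ∧ u ∈ t ∧ v ∈ t) ↔ t = t₁ ∨ t = t₂ := fun t => by
    rw [← Finset.mem_filter (p := fun t => u ∈ t ∧ v ∈ t), hT, Finset.mem_insert,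
      Finset.mem_singleton]
  obtain ⟨a1, a2, a3⟩ := (mT t₁).2 (Or.inl rfl)
  obtain ⟨b1, b2, b3⟩ := (mT t₂).2 (Or.inr rfl)
  obtain ⟨w, w1, w2, rfl⟩ := a14_third (K.card _ a1) a2 a3 huv
  obtain ⟨w', w3, w4, rfl⟩ := a14_third (K.card _ b1) b2 b3 huv
  have ww : w ≠ w' := fun h => t12 (by rw [h])
  obtain ⟨Ψ, p1, p2, p3, p4⟩ := K.pair_param hA a1 b1 huv ⟨w1, w2⟩ ⟨w3, w4⟩ ww
  have q0 : ∀ z ∈ closedBall (0 : ℂ) (1 / 20), |z.re| ≤ 1 / 20 ∧ |z.im| ≤ 1 / 20 := fun z hz =>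
    ⟨(Complex.abs_re_le_norm z).trans (mem_closedBall_zero_iff.1 hz),
      (Complex.abs_im_le_norm z).trans (mem_closedBall_zero_iff.1 hz)⟩
  have q1 : closedBall (0 : ℂ) (1 / 20) ⊆ {z | |z.re| + |z.im| ≤ 1} := fun z hz => by
    have := q0 z hz
    rw [mem_ofPred_eq]
    linarith only [this]
  have q2 : ∀ z ∈ closedBall (0 : ℂ) (1 / 20), Ψ z ∈ K.face {u, v, w} ∪ K.face {u, v, w'} :=
    fun z hz => p3 ▸ mem_image_of_mem _ (q1 hz)
  have q3 : MapsTo Ψ (closedBall 0 (1 / 20)) c.U := fun z hz =>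
    (q2 z hz).elim (fun h => hU _ a1 a2 a3 h) fun h => hU _ b1 b2 b3 h
  have q4 : ∀ z ∈ closedBall (0 : ℂ) (1 / 20), Ψ z ∈ a14_S K u v := fun z hz => by
    obtain ⟨-, -, e1, e2⟩ := p4 z (q1 hz)
    obtain ⟨e3, e4⟩ := q0 z hz
    obtain ⟨e5, e6⟩ := abs_le.1 e3
    exact ⟨(q2 z hz).elim And.left And.left, by linarith only [e2, e4, e6], by linarith only [e1, e4, e5]⟩
  obtain ⟨γ, hγ⟩ : ∃ γ : ℝ → ℂ, γ = fun t => ((t - 1 / 2) / 10) • Complex.I := ⟨_, rfl⟩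
  have g1 : ∀ t, ‖γ t‖ = |t - 1 / 2| / 10 := fun t => by
    rw [hγ, norm_smul, Complex.norm_I, mul_one, Real.norm_eq_abs, abs_div, Nat.abs_ofNat]
  have g2 : ∀ t, (γ t).im = (t - 1 / 2) / 10 := fun t => by simp only [hγ, one_div, Complex.real_smul, Complex.ofReal_div, Complex.ofReal_sub, Complex.ofReal_inv, Complex.ofReal_ofNat, Complex.mul_im, Complex.div_ofNat_re, Complex.sub_re, Complex.ofReal_re, Complex.inv_re, Complex.re_ofNat, Complex.normSq_ofNat, div_self_mul_self', Complex.I_im, mul_one, Complex.div_ofNat_im, Complex.sub_im, Complex.ofReal_im, Complex.inv_im, Complex.im_ofNat, neg_zero, zero_div, sub_self, Complex.I_re, mul_zero, add_zero]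
  have g3 : interior (closedBall (0 : ℂ) (1 / 20)) = ball 0 (1 / 20) :=
    interior_closedBall _ (by norm_num)
  obtain ⟨h, h1, δ, δ0, V, -, h2⟩ := round_one (isCompact_closedBall (0 : ℂ) (1 / 20))
    (convex_closedBall _ _) (γ := γ) ⟨by rw [hγ]; fun_prop, fun s _ t _ e => by
      have := congrArg Complex.im e
      rw [g2, g2] at this
      linarith only [this], by rw [mem_closedBall_zero_iff, g1]; norm_num [abs_of_nonneg],
      by rw [g3, mem_ball_zero_iff, g1]; norm_num [abs_of_nonneg],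
      by rw [mem_closedBall_zero_iff, g1]; norm_num [abs_of_nonneg],
      by rw [g3, mem_ball_zero_iff, g1]; norm_num [abs_of_nonneg], fun t ht => by
        have : |t - 1 / 2| < 1 / 2 := abs_lt.2 ⟨by linarith only [ht.1], by linarith only [ht.2]⟩
        rw [g3, mem_ball_zero_iff, g1]
        linarith only [this]⟩ (θ := fun z => c.φ (Ψ z)) (c.contφ.comp (p1.mono q1) q3)
    ((LeftInvOn.injOn c.left).comp (p2.mono q1) q3)
  obtain ⟨g, k1, k2⟩ := transplant hM (isCompact_closedBall (0 : ℂ) (1 / 20)) (p1.mono q1)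
    (p2.mono q1) h1
  refine ⟨g, fun x hx => k1 x fun ⟨z, hz, e⟩ => hx (e ▸ q4 z (interior_subset hz)),
    fun t ht hu hv m hm m1 m2 => ?_⟩
  have g4 : ∀ s : ℝ, |s| ≤ 1 / 2 → γ (1 / 2 + s) ∈ closedBall (0 : ℂ) (1 / 20) := fun s hs => by
    rw [mem_closedBall_zero_iff, g1, add_sub_cancel_left]
    linarith only [hs]
  have g5 := g4 0 (by norm_num)
  rw [add_zero] at g5
  have em : m = Ψ (γ (1 / 2)) := by
    obtain ⟨-, -, e1, e2⟩ := p4 _ (q1 g5)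
    have e0 : γ (1 / 2) = 0 := by simp [hγ]
    rw [e0] at e1 e2 g5 ⊢
    simp only [Complex.zero_im, Complex.zero_re, abs_zero, sub_zero, add_zero] at e1 e2
    have f1 := a14_edge K hm huv m1 m2
    have f2 := a14_edge K (q4 _ g5).1 huv e2 e1
    refine K.inj hm f2.1 (funext fun a => ?_)
    by_cases ha : a ∈ ({u, v} : Finset K.V)
    · rcases Finset.mem_insert.1 ha with rfl | ha
      · rw [m1, e2]
      · rw [Finset.mem_singleton.1 ha, m2, e1]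
    · rw [f1.2 a ha, f2.2 a ha]
  have key : ∀ (σ : ℝ) (a b : K.V), |σ| = 1 → a ≠ u → a ≠ v → a ≠ b →
      (∀ z ∈ closedBall (0 : ℂ) (1 / 20), Ψ z ∈ K.face {u, v, a} ∪ K.face {u, v, b}) →
      (∀ s : ℝ, 0 < s → s ≤ 1 / 2 → 0 < K.lam (Ψ (γ (1 / 2 + σ * s))) a) →
      a14_Acc ((fun x => c.φ (g x)) '' (a14_O K {u, v, a} ∩ a14_S K u v)) (c.φ (g m)) :=
    fun σ a b hσ n1 n2 n3 hf hp => by
      refine a14_acc (v := σ • V) (lt_min δ0 one_half_pos) fun s hs => ?_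
      have s1 : |σ * s| = s := by rw [abs_mul, hσ, one_mul, abs_of_pos hs.1]
      have s2 := hs.2.trans (min_le_right _ _)
      have s3 := g4 _ (s1.le.trans s2)
      have s4 := hp s hs.1 s2
      have s5 := q4 _ s3
      refine ⟨_, ⟨⟨(hf _ s3).resolve_right fun h => ?_, fun d hd => ?_⟩, s5⟩, ?_⟩
      · have := a14_mem K h s4
        simp [n1, n2, n3] at this
      · simp only [Finset.mem_insert, Finset.mem_singleton] at hd
        rcases hd with rfl | rfl | rfl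
        · linarith only [s5.2.1]
        · linarith only [s5.2.2]
        · exact s4
      · dsimp only
        rw [em, k2 _ s3, k2 _ g5, smul_smul, mul_comm s]
        exact h2 _ (abs_le.1 (s1.le.trans (hs.2.trans (min_le_left _ _))))
  rcases (mT t).1 ⟨ht, hu, hv⟩ with rfl | rfl
  · refine key 1 w w' abs_one w1 w2 ww q2 fun s s0 s1 => ?_
    rw [(p4 _ (q1 (g4 _ (by rwa [one_mul, abs_of_pos s0])))).1, g2]
    exact lt_max_of_lt_left (by linarith only [s0])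
  · refine key (-1) w' w (by simp) w3 w4 ww.symm (fun z hz => (q2 z hz).symm) fun s s0 s1 => ?_
    rw [(p4 _ (q1 (g4 _ (by rwa [neg_one_mul, abs_neg, abs_of_pos s0])))).2.1, g2]
    exact lt_max_of_lt_left (by linarith only [s0])

theorem a14_int {z : ℂ} : z ∈ interior {z : ℂ | 0 ≤ z.re ∧ 0 ≤ z.im ∧ z.re + z.im ≤ 1} ↔
    0 < z.re ∧ 0 < z.im ∧ z.re + z.im < 1 := by
  constructor
  · intro h
    obtain ⟨ε, ε0, hb⟩ := Metric.mem_nhds_iff.1 (mem_interior_iff_mem_nhds.1 h)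
    have key : ∀ d : ℂ, ‖d‖ = 1 → z + (ε / 2) • d ∈ ball z ε := fun d hd => by
      rw [mem_ball, dist_self_add_left, norm_smul, hd, mul_one, Real.norm_of_nonneg (by linarith)]
      linarith only [ε0]
    have h1 := (hb (key (-1) (by simp))).1
    have h2 := (hb (key (-Complex.I) (by simp))).2.1
    have h3 := (hb (key 1 (by simp))).2.2
    simp only [smul_neg, Complex.real_smul, Complex.ofReal_div, Complex.ofReal_ofNat, mul_one, Complex.add_re, Complex.neg_re, Complex.div_ofNat_re, Complex.ofReal_re, le_add_neg_iff_add_le, zero_add, Complex.add_im, Complex.neg_im, Complex.mul_im, Complex.I_im, Complex.div_ofNat_im, Complex.ofReal_im, zero_div, Complex.I_re, mul_zero, add_zero] at h1 h2 h3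
    exact ⟨by linarith only [ε0, h1], by linarith only [ε0, h2], by linarith only [ε0, h3]⟩
  · have o : IsOpen {z : ℂ | 0 < z.re ∧ 0 < z.im ∧ z.re + z.im < 1} :=
      (isOpen_lt continuous_const Complex.continuous_re).and
        ((isOpen_lt continuous_const Complex.continuous_im).and
          (isOpen_lt (Complex.continuous_re.add Complex.continuous_im) continuous_const))
    exact fun h => interior_maximal (fun (z : ℂ) (hz : 0 < z.re ∧ 0 < z.im ∧ z.re + z.im < 1) =>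
      (⟨hz.1.le, hz.2.1.le, hz.2.2.le⟩ : 0 ≤ z.re ∧ 0 ≤ z.im ∧ z.re + z.im ≤ 1)) o h

theorem a14_tri : IsCompact {z : ℂ | 0 ≤ z.re ∧ 0 ≤ z.im ∧ z.re + z.im ≤ 1} ∧
    Convex ℝ {z : ℂ | 0 ≤ z.re ∧ 0 ≤ z.im ∧ z.re + z.im ≤ 1} := by
  refine ⟨(isCompact_closedBall (0 : ℂ) 1).of_isClosed_subset
    ((isClosed_le continuous_const Complex.continuous_re).and
      ((isClosed_le continuous_const Complex.continuous_im).and (isClosed_le
        (Complex.continuous_re.add Complex.continuous_im) continuous_const))) fun z hz => ?_,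
    fun x hx y hy a b ha hb hab => ?_⟩
  · rw [mem_closedBall_zero_iff]
    refine (Complex.norm_le_abs_re_add_abs_im z).trans ?_
    rw [abs_of_nonneg hz.1, abs_of_nonneg hz.2.1]
    exact hz.2.2
  · obtain ⟨x1, x2, x3⟩ := hx
    obtain ⟨y1, y2, y3⟩ := hy
    simp only [mem_ofPred_eq, Complex.add_re, Complex.add_im, Complex.smul_re, Complex.smul_im,
      smul_eq_mul]
    refine ⟨by positivity, by positivity, ?_⟩
    linarith [mul_le_mul_of_nonneg_left x3 ha, mul_le_mul_of_nonneg_left y3 hb]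

theorem a14_face (hM : Atl M B) (c : Chart M B) (K : Tri A) (hA : IsCompact A) {u v w : K.V}
    (ht : {u, v, w} ∈ K.T) (h : M ≃ₜ M) (hU : ∀ x ∈ K.face {u, v, w}, h x ∈ c.U)
    (ha : ∀ a ∈ ({v, w} : Finset K.V), ∀ m ∈ A, K.lam m u = 1 / 2 → K.lam m a = 1 / 2 →
      a14_Acc ((fun x => c.φ (h x)) '' a14_O K {u, v, w}) (c.φ (h m))) :
    ∃ g : M ≃ₜ M, (∀ x, x ∉ h '' a14_O K {u, v, w} → g x = x) ∧ ∃ s : Finset (ℂ × ℂ),
      ∀ x ∈ K.face {u, v, w}, K.lam x u = 1 / 2 → ∃ e ∈ s, c.φ (g (h x)) ∈ segment ℝ e.1 e.2 := by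
  obtain ⟨Ψ, p1, p2, p3, p4⟩ := K.face_param hA ht
  have hi := @a14_int
  obtain ⟨hc, hv⟩ := a14_tri
  have mΔ : ∀ z, z ∈ {z : ℂ | 0 ≤ z.re ∧ 0 ≤ z.im ∧ z.re + z.im ≤ 1} ↔
    0 ≤ z.re ∧ 0 ≤ z.im ∧ z.re + z.im ≤ 1 := fun _ => Iff.rfl
  generalize {z : ℂ | 0 ≤ z.re ∧ 0 ≤ z.im ∧ z.re + z.im ≤ 1} = Δ at *
  have p5 := fun z (hz : z ∈ Δ) => p4 z ((mΔ z).1 hz).1 ((mΔ z).1 hz).2.1 ((mΔ z).1 hz).2.2
  have p6 : ∀ z ∈ Δ, Ψ z ∈ K.face {u, v, w} := fun z hz => p3 ▸ mem_image_of_mem _ hz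
  have eO : Ψ '' interior Δ = a14_O K {u, v, w} := by
    refine Subset.antisymm ?_ fun x hx => ?_
    · rintro _ ⟨z, hz, rfl⟩
      obtain ⟨e1, e2, e3⟩ := p5 z (interior_subset hz)
      obtain ⟨e4, e5, e6⟩ := hi.1 hz
      refine ⟨p6 z (interior_subset hz), fun a ha => ?_⟩
      simp only [Finset.mem_insert, Finset.mem_singleton] at ha
      rcases ha with rfl | rfl | rfl <;> linarith only [e6, e3, e4, e1, e5, e2]
    · obtain ⟨z, hz, rfl⟩ := p3.symm ▸ hx.1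
      obtain ⟨e1, e2, e3⟩ := p5 z hz
      exact ⟨z, hi.2 ⟨e1 ▸ hx.2 v (by simp), e2 ▸ hx.2 w (by simp),
        by linarith only [hx.2 u (by simp), e3]⟩, rfl⟩
  obtain ⟨γ, g1, g2, g3⟩ : ∃ γ : ℝ → ℂ, Continuous γ ∧ (∀ s, (γ s).re = (1 - s) / 2) ∧
      ∀ s, (γ s).im = s / 2 :=
    ⟨fun s => ((1 - s) / 2) • 1 + (s / 2) • Complex.I, by fun_prop, by simp, by simp⟩
  have g4 : ∀ s ∈ Icc (0 : ℝ) 1, γ s ∈ Δ := fun s hs => by
    rw [mΔ, g2, g3]
    exact ⟨by linarith only [hs.2], by linarith [hs.1], by linarith⟩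
  have c1 : ContinuousOn (fun z => h (Ψ z)) Δ := h.continuous.comp_continuousOn p1
  have c2 : InjOn (fun z => h (Ψ z)) Δ := h.injective.comp_injOn p2
  have c3 : MapsTo (fun z => h (Ψ z)) Δ c.U := fun z hz => hU _ (p6 z hz)
  rw [← eO, image_image] at ha
  have m0 := g4 0 ⟨le_rfl, zero_le_one⟩
  have m1 := g4 1 ⟨zero_le_one, le_rfl⟩
  obtain ⟨k, k1, s, k2⟩ := round_two hc hv (γ := γ) ⟨g1.continuousOn, fun s _ t _ e => by
      have := congrArg Complex.im e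
      rw [g3, g3] at this
      linarith, m0, by rw [hi, g3]; simp, m1, by rw [hi, g2]; simp, fun t ht => by
        rw [hi, g2, g3]
        exact ⟨by linarith only [ht.2], by linarith [ht.1], by linarith⟩⟩
    (θ := fun z => c.φ (h (Ψ z))) (c.contφ.comp c1 c3) ((LeftInvOn.injOn c.left).comp c2 c3)
    (ha v (by simp) _ (p6 _ m0).1 (by rw [(p5 _ m0).2.2, g2, g3]; norm_num)
      (by rw [(p5 _ m0).1, g2]; norm_num))
    (ha w (by simp) _ (p6 _ m1).1 (by rw [(p5 _ m1).2.2, g2, g3]; norm_num)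
      (by rw [(p5 _ m1).2.1, g3]))
  obtain ⟨g, f1, f2⟩ := transplant hM hc c1 c2 k1
  refine ⟨g, fun x hx => f1 x (by rwa [← eO, image_image] at hx), s, fun x hx e => ?_⟩
  obtain ⟨z, hz, rfl⟩ := p3.symm ▸ hx
  obtain ⟨z1, z2, z3⟩ := (mΔ z).1 hz
  rw [(p5 z hz).2.2] at e
  rw [f2 z hz, show z = γ (2 * z.im) from Complex.ext (by rw [g2]; linarith) (by rw [g3]; ring)]
  exact k2 _ ⟨by linarith only [z2], by linarith⟩

/-- Plan: for every edge `{u, v}` with one end in `H` that lies in a triangle of `G` and in two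
triangles, apply `round_one` in a small convex quadrilateral about the midpoint in the rhombus of
`Tri.pair_param` (two opposite corners on the two mid segments, which make up the arc; the
quadrilaterals are disjoint and miss the points of weight one), and `transplant`; let `h₁` be the
product. For `t ∈ G` apply `round_two` to `c.φ ∘ h₁ ∘ Ψ` with `Ψ` from `Tri.face_param`; at an end
on an edge with one triangle the point is in `B` (`Tri.open_edge`), the face is a neighbourhood of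
it (`Tri.near`), and a short vertical segment gives access. The supports `h₁ '' (open face)` are
disjoint. -/
theorem Tri.straighten (hM : Atl M B) (c : Chart M B) (K : Tri A) (hA : IsCompact A)
    (H : Finset K.V) (G : Finset (Finset K.V)) (hG : G ⊆ K.T)
    (hm : ∀ t ∈ G, (∃ u ∈ t, u ∈ H) ∧ ∃ v ∈ t, v ∉ H)
    (hU : ∀ t ∈ G, ∀ t' ∈ K.T, 2 ≤ (t ∩ t').card → K.face t' ⊆ c.U ∩ interior A) :
    ∃ h : M ≃ₜ M, (∀ x, x ∉ A → h x = x) ∧ (∀ x ∈ A, ∑ v ∈ H, K.lam x v = 1 → h x = x) ∧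
      (∀ t ∈ K.T, ∀ x ∈ K.face t, ∃ t' ∈ K.T, 2 ≤ (t ∩ t').card ∧ h x ∈ K.face t') ∧
      ∀ t ∈ G, ∃ s : Finset (ℂ × ℂ), ∀ x ∈ K.mid H t,
        ∃ e ∈ s, c.φ (h x) ∈ segment ℝ e.1 e.2 := by
  have L1 : ∀ p : K.V × K.V, ∃ g : M ≃ₜ M, (∀ x, x ∉ a14_S K p.1 p.2 → g x = x) ∧ (p.1 ≠ p.2 →
      ∀ t ∈ G, p.1 ∈ t → p.2 ∈ t → ∀ m ∈ A, K.lam m p.1 = 1 / 2 → K.lam m p.2 = 1 / 2 →
        a14_Acc ((fun x => c.φ (g x)) '' (a14_O K t ∩ a14_S K p.1 p.2)) (c.φ (g m))) :=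
    fun ⟨u, v⟩ => by
      by_cases h : u ≠ v ∧ deg K.T u v = 2 ∧ ∃ t ∈ G, u ∈ t ∧ v ∈ t
      · obtain ⟨h1, h2, t, h3, h4, h5⟩ := h
        obtain ⟨g, g1, g2⟩ := a14_in hM c K hA h1 h2 fun t' ht' h6 h7 =>
          (hU t h3 t' ht' (a14_two h1 h4 h5 h6 h7)).trans inter_subset_left
        exact ⟨g, g1, fun _ t ht => g2 t (hG ht)⟩
      · exact ⟨.refl _, fun _ _ => rfl, fun h1 t ht h2 h3 m hm => a14_bd hM c K hA h1
          (fun h4 => h ⟨h1, h4, t, ht, h2, h3⟩) (hG ht) h2 h3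
          (hU t ht t (hG ht) (a14_two h1 h2 h3 h2 h3)) hm⟩
  choose g g1 g2 using L1
  have ne : ∀ {u v : K.V}, u ∈ H → v ∉ H → u ≠ v := fun a b e => b (e ▸ a)
  have mP : ∀ p : K.V × K.V, p ∈ H ×ˢ Hᶜ ↔ p.1 ∈ H ∧ p.2 ∉ H := fun p => by
    rw [Finset.mem_product, Finset.mem_compl]
  obtain ⟨h₁, a1, a2⟩ := a14_prod (H ×ˢ Hᶜ) g (fun p => a14_S K p.1 p.2) (fun p _ => g1 p)
    fun p hp q hq x ⟨x1, x2, x3⟩ ⟨_, x4, x5⟩ => by
      obtain ⟨p1, p2⟩ := (mP p).1 hp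
      obtain ⟨q1, q2⟩ := (mP q).1 hq
      refine Prod.ext (not_not.1 fun h => ?_) (not_not.1 fun h => ?_)
      · linarith [a14_three K x1 (ne q1 q2) h (ne p1 q2)]
      · linarith only [a14_three K x1 (ne q1 q2) (ne q1 p2).symm h, x3, x4, x5]
  have a3 : ∀ t ∈ K.T, ∀ x ∈ K.face t, ∃ t' ∈ K.T, 2 ≤ (t ∩ t').card ∧ h₁ x ∈ K.face t' :=
    fun t ht x hx => by
      by_cases h : ∃ p ∈ H ×ˢ Hᶜ, x ∈ a14_S K p.1 p.2
      · obtain ⟨p, hp, h⟩ := h
        have h' := a14_map (g1 p) h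
        rw [← a2 p hp x h] at h'
        obtain ⟨t', b1, b2⟩ := (K.basic h'.1).2.2
        exact ⟨t', b1, a14_two (ne ((mP p).1 hp).1 ((mP p).1 hp).2)
          (a14_mem K hx (by linarith only [h.2.1])) (a14_mem K hx (by linarith [h.2.2]))
          (a14_mem K b2 (by linarith [h'.2.1])) (a14_mem K b2 (by linarith [h'.2.2])), b2⟩
      · refine ⟨t, ht, by rw [Finset.inter_self, K.card t ht]; norm_num, ?_⟩
        rwa [a1 x fun p hp c => h ⟨p, hp, c⟩]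
  have a4 : ∀ t ∈ G, ∀ u ∈ t, ∀ v ∈ t, u ∈ H → v ∉ H → ∀ m ∈ A, K.lam m u = 1 / 2 →
      K.lam m v = 1 / 2 → a14_Acc ((fun x => c.φ (h₁ x)) '' a14_O K t) (c.φ (h₁ m)) :=
    fun t ht u hu v hv u1 v1 m m0 m1 m2 => by
      have hp := (mP (u, v)).2 ⟨u1, v1⟩
      obtain ⟨a, b1, b2⟩ := g2 (u, v) (ne u1 v1) t ht hu hv m m0 m1 m2
      have b3 : (fun x => c.φ (g (u, v) x)) '' (a14_O K t ∩ a14_S K u v) ⊆
          (fun x => c.φ (h₁ x)) '' a14_O K t := by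
        rintro _ ⟨x, hx, rfl⟩
        exact ⟨x, hx.1, congrArg c.φ (a2 _ hp x hx.2)⟩
      rw [a2 _ hp m ⟨m0, by linarith, by linarith⟩]
      exact ⟨a, b3 b1, b2.trans b3⟩
  have L2 : ∀ t, ∃ g : M ≃ₜ M, (∀ x, x ∉ h₁ '' a14_O K t → g x = x) ∧ (t ∈ G →
      ∃ s : Finset (ℂ × ℂ), ∀ x ∈ K.mid H t, ∃ e ∈ s, c.φ (g (h₁ x)) ∈ segment ℝ e.1 e.2) :=
    fun t => by
      by_cases ht : t ∈ G
      swap
      · exact ⟨.refl _, fun _ _ => rfl, fun h => absurd h ht⟩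
      have U1 : ∀ x ∈ K.face t, h₁ x ∈ c.U := fun x hx => by
        obtain ⟨t', b1, b2, b3⟩ := a3 t (hG ht) x hx
        exact (hU t ht t' b1 b2 b3).1
      have sm : ∀ (J : Finset K.V) (u : K.V), u ∈ J → (∀ a ∈ t, a ∈ J → a = u) →
          ∀ x ∈ K.face t, ∑ v ∈ J, K.lam x v = K.lam x u := fun J u h1 h2 x hx =>
        Finset.sum_eq_single_of_mem u h1 fun a h3 h4 => hx.2 a fun h5 => h4 (h2 a h5 h3)
      obtain ⟨⟨u, u1, u2⟩, v, v1, v2⟩ := hm t ht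
      obtain ⟨w, -, -, e⟩ := a14_third (K.card t (hG ht)) u1 v1 (ne u2 v2)
      have w1 : w ∈ t := by simp [e]
      by_cases hw : w ∈ H
      · rw [Finset.insert_comm] at e
        have := a14_face hM c K hA (e ▸ hG ht) h₁ (e ▸ U1) fun a ha m m0 m1 m2 => by
          rw [← e]
          rcases Finset.mem_insert.1 ha with rfl | ha
          · exact a4 t ht a u1 v v1 u2 v2 m m0 m2 m1
          · exact a4 t ht w w1 v v1 hw v2 m m0 (Finset.mem_singleton.1 ha ▸ m2) m1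
        rw [← e] at this
        obtain ⟨g, b1, s, b2⟩ := this
        refine ⟨g, b1, fun _ => ⟨s, fun x hx => b2 x hx.1 ?_⟩⟩
        rw [← sm Hᶜ v (Finset.mem_compl.2 v2) (fun a h1 h2 => ?_) x hx.1]
        · linarith [Finset.sum_add_sum_compl H (K.lam x), hx.2, (K.basic hx.1.1).2.1]
        · rw [e] at h1
          simp only [Finset.mem_insert, Finset.mem_singleton] at h1
          rcases h1 with rfl | rfl | rfl
          exacts [rfl, absurd u2 (Finset.mem_compl.1 h2), absurd hw (Finset.mem_compl.1 h2)]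
      · have := a14_face hM c K hA (e ▸ hG ht) h₁ (e ▸ U1) fun a ha m m0 m1 m2 => by
          rw [← e]
          rcases Finset.mem_insert.1 ha with rfl | ha
          · exact a4 t ht u u1 a v1 u2 v2 m m0 m1 m2
          · exact a4 t ht u u1 w w1 u2 hw m m0 m1 (Finset.mem_singleton.1 ha ▸ m2)
        rw [← e] at this
        obtain ⟨g, b1, s, b2⟩ := this
        refine ⟨g, b1, fun _ => ⟨s, fun x hx => b2 x hx.1 ?_⟩⟩
        rw [← sm H u u2 (fun a h1 h2 => ?_) x hx.1, hx.2]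
        rw [e] at h1
        simp only [Finset.mem_insert, Finset.mem_singleton] at h1
        rcases h1 with rfl | rfl | rfl
        exacts [rfl, absurd h2 v2, absurd h2 hw]
  choose f f1 f2 using L2
  have mO : ∀ {t x}, h₁ x ∈ h₁ '' a14_O K t ↔ x ∈ a14_O K t := h₁.injective.mem_set_image
  obtain ⟨h₂, b1, b2⟩ := a14_prod G f (fun t => h₁ '' a14_O K t) (fun t _ => f1 t) (by
    rintro t ht t' ht' _ ⟨x, hx, rfl⟩ hx'
    exact a14_eq K (hG ht) (hG ht') hx (mO.1 hx').1)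
  have fix : ∀ x, (x ∈ A → ∑ v ∈ H, K.lam x v = 1) → h₂ (h₁ x) = x := fun x hx => by
    have k : x ∈ A → ∀ v, v ∉ H → ¬ 0 < K.lam x v := fun h v hv h0 => by
      have := a14_le K h (insert v H)
      rw [Finset.sum_insert hv, hx h] at this
      linarith
    rw [b1 _ fun t ht c => ?_, a1 x fun p hp c => k c.1 _ ((mP p).1 hp).2 (by linarith [c.2.2])]
    obtain ⟨-, v, v1, v2⟩ := hm t ht
    exact k (mO.1 c).1.1 v v2 ((mO.1 c).2 v v1)
  refine ⟨h₁.trans h₂, fun x hx => fix x fun h => absurd h hx, fun x _ hx => fix x fun _ => hx,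
    fun t ht x hx => ?_, fun t ht => (f2 t ht).imp fun s hs x hx => ?_⟩
  · rw [Homeomorph.trans_apply]
    by_cases h : ∃ t' ∈ G, x ∈ a14_O K t'
    · obtain ⟨t', c1, c2⟩ := h
      obtain ⟨y, y1, y2⟩ := a14_map (f1 t') (mO.2 c2)
      rw [b2 t' c1 _ (mO.2 c2), ← y2]
      exact a3 t ht y (a14_eq K (hG c1) ht c2 hx ▸ y1.1)
    · rw [b1 _ fun t' c1 c2 => h ⟨t', c1, mO.1 c2⟩]
      exact a3 t ht x hx
  · rw [Homeomorph.trans_apply]
    by_cases h : x ∈ a14_O K t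
    · rw [b2 t ht _ (mO.2 h)]
      exact hs x hx
    · rw [b1 _ fun t' c1 c2 => h (a14_eq K (hG c1) (hG ht) (mO.1 c2) hx.1 ▸ mO.1 c2),
        ← f1 t _ (mt mO.1 h)]
      exact hs x hx

end Pool.Agent.MP_17e62b_gt.T55

end

section

/-!
Adding a polygon of a chart to a cell complex.
-/

namespace Pool.Agent.MP_17e62b_gt.T55

open Set Metric Topology
open scoped InnerProductSpace Manifold

theorem a15_real {f : ℝ → ℝ} {s t u : ℝ} (h1 : s < t) (h2 : t < u)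
    (hc : ContinuousOn f (Icc s u)) (hi : InjOn f (Icc s u)) : f '' Icc s u ∈ 𝓝 (f t) := by
  have hsu : s ≤ u := (h1.trans h2).le
  have ms : s ∈ Icc s u := left_mem_Icc.2 hsu
  have mu : u ∈ Icc s u := right_mem_Icc.2 hsu
  have mt : t ∈ Icc s u := ⟨h1.le, h2.le⟩
  rcases hc.strictMonoOn_of_injOn_Icc' hsu hi with hm | hm
  · exact Filter.mem_of_superset (Icc_mem_nhds (hm ms mt h1) (hm mt mu h2))
      (intermediate_value_Icc hsu hc)
  · exact Filter.mem_of_superset (Icc_mem_nhds (hm mt mu h2) (hm ms mt h1))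
      (intermediate_value_Icc' hsu hc)

theorem a15_cont (l : ℂ × ℝ) : Continuous (af l) := by
  unfold af
  fun_prop

theorem a15_line (p q : ℂ) : ∃ l : ℂ × ℝ, l.1 ≠ 0 ∧ ∀ z ∈ segment ℝ p q, af l z = 0 := by
  by_cases h : p = q
  · subst h
    refine ⟨(1, p.re), one_ne_zero, fun z hz => ?_⟩
    rw [segment_same, mem_singleton_iff] at hz
    simp [af, hz]
  · refine ⟨(Complex.I * (starRingEnd ℂ) (q - p), (Complex.I * (starRingEnd ℂ) (q - p) * p).re),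
      mul_ne_zero Complex.I_ne_zero ?_, ?_⟩
    · rw [map_ne_zero]
      exact sub_ne_zero.2 (Ne.symm h)
    · rintro z ⟨a, b, -, -, hab, rfl⟩
      obtain rfl : a = 1 - b := by linarith
      simp only [af, map_sub, Complex.real_smul, Complex.ofReal_sub, Complex.ofReal_one, Complex.mul_re, Complex.I_re, Complex.sub_re, Complex.conj_re, zero_mul, Complex.I_im, Complex.sub_im, Complex.conj_im, sub_neg_eq_add, one_mul, zero_sub, neg_add_rev, neg_neg, Complex.add_re, Complex.one_re, Complex.ofReal_re, Complex.one_im, Complex.ofReal_im, sub_self, sub_zero, Complex.mul_im, zero_add, Complex.add_im, add_zero]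
      ring

theorem a15_lines {X : Type} {E : Set (Set X)} (hE : E.Finite) {P : Set X} (hP : P.Finite)
    (φ : X → ℂ) {L₀ : Finset (ℂ × ℝ)} (hL : ∀ l ∈ L₀, l.1 ≠ 0) (Q : Set ℂ) :
    ∃ L : Finset (ℂ × ℝ), L₀ ⊆ L ∧ (∀ l ∈ L, l.1 ≠ 0) ∧
      (∀ e ∈ E, (∃ s : Finset (ℂ × ℂ), ∀ y ∈ e, ∃ p ∈ s, φ y ∈ segment ℝ p.1 p.2) →
        ∀ y ∈ e, ∃ l ∈ L, af l (φ y) = 0) ∧ ∀ p ∈ P, φ p ∈ Q → φ p ∈ vert L Q := by
  classical
  choose ln hln using a15_line
  have h1 : ∀ e : Set X, ∃ Le : Finset (ℂ × ℝ), (∀ l ∈ Le, l.1 ≠ 0) ∧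
      ((∃ s : Finset (ℂ × ℂ), ∀ y ∈ e, ∃ p ∈ s, φ y ∈ segment ℝ p.1 p.2) →
        ∀ y ∈ e, ∃ l ∈ Le, af l (φ y) = 0) := by
    intro e
    by_cases h : ∃ s : Finset (ℂ × ℂ), ∀ y ∈ e, ∃ p ∈ s, φ y ∈ segment ℝ p.1 p.2
    · obtain ⟨s, hs⟩ := h
      refine ⟨s.image fun p => ln p.1 p.2, ?_, fun _ y hy => ?_⟩
      · intro l hl
        obtain ⟨p, -, rfl⟩ := Finset.mem_image.1 hl
        exact (hln _ _).1
      · obtain ⟨p, hp, h⟩ := hs y hy
        exact ⟨_, Finset.mem_image_of_mem _ hp, (hln _ _).2 _ h⟩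
    · exact ⟨∅, by simp, fun h' => absurd h' h⟩
  choose Le hLe using h1
  refine ⟨L₀ ∪ hE.toFinset.biUnion Le ∪ hP.toFinset.biUnion
    (fun p => {((1 : ℂ), (φ p).re), (Complex.I, (Complex.I * φ p).re)}), ?_, ?_, ?_, ?_⟩
  · exact Finset.subset_union_left.trans Finset.subset_union_left
  · intro l hl
    rcases Finset.mem_union.1 hl with hl | hl
    · rcases Finset.mem_union.1 hl with hl | hl
      · exact hL l hl
      · obtain ⟨e, -, he⟩ := Finset.mem_biUnion.1 hl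
        exact (hLe e).1 l he
    · obtain ⟨p, -, hp⟩ := Finset.mem_biUnion.1 hl
      rcases Finset.mem_insert.1 hp with rfl | hp
      · exact one_ne_zero
      · rw [Finset.mem_singleton.1 hp]
        exact Complex.I_ne_zero
  · intro e he hs y hy
    obtain ⟨l, hl, h⟩ := (hLe e).2 hs y hy
    exact ⟨l, Finset.mem_union_left _ (Finset.mem_union_right _
      (Finset.mem_biUnion.2 ⟨e, hE.mem_toFinset.2 he, hl⟩)), h⟩
  · intro p hp hQ
    refine ⟨hQ, ((1 : ℂ), (φ p).re), ?_, (Complex.I, (Complex.I * φ p).re), ?_, ?_, ?_, ?_⟩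
    · exact Finset.mem_union_right _ (Finset.mem_biUnion.2 ⟨p, hP.mem_toFinset.2 hp, by simp⟩)
    · exact Finset.mem_union_right _ (Finset.mem_biUnion.2 ⟨p, hP.mem_toFinset.2 hp, by simp⟩)
    · simp [af]
    · simp [af]
    · simp

/-- Near a point that is not a vertex there is only one line. -/
theorem a15_near {L : Finset (ℂ × ℝ)} (hL : ∀ l ∈ L, l.1 ≠ 0) {Q : Set ℂ} {w : ℂ} (hw : w ∈ Q)
    (hv : w ∉ vert L Q) {l₀ : ℂ × ℝ} (h0 : l₀ ∈ L) (hz : af l₀ w = 0) :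
    ∀ᶠ u in 𝓝 w, ∀ l ∈ L, af l u = 0 → af l₀ u = 0 := by
  rw [Filter.eventually_all_finset]
  intro l hl
  by_cases h : af l w = 0
  · refine Filter.Eventually.of_forall fun u hu => ?_
    have hp : (l.1 * (starRingEnd ℂ) l₀.1).im = 0 := by
      by_contra hp
      exact hv ⟨hw, l, hl, l₀, h0, h, hz, hp⟩
    simp only [af, Complex.mul_re, Complex.mul_im, Complex.conj_re, Complex.conj_im] at *
    by_contra hne
    refine hL l hl (Complex.ext ?_ ?_)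
    · refine (mul_eq_zero.1 ?_).resolve_right hne
      linear_combination l₀.1.re * hu - l₀.1.re * h + l.1.re * hz + (u.im - w.im) * hp
    · refine (mul_eq_zero.1 ?_).resolve_right hne
      linear_combination l₀.1.im * hu - l₀.1.im * h + l.1.im * hz + (u.re - w.re) * hp
  · filter_upwards [(a15_cont l).continuousAt.eventually_ne h] with u hu h' using absurd h' hu

theorem a15_coord {l : ℂ × ℝ} (hl : l.1 ≠ 0) {a b u : ℂ} (hab : a ≠ b) (ha : af l a = 0)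
    (hb : af l b = 0) (hu : af l u = 0) :
    a + (((u - a) / (b - a)).re : ℂ) * (b - a) = u := by
  have hba : b - a ≠ 0 := sub_ne_zero.2 hab.symm
  set v := (u - a) / (b - a) with hv
  have h1 : u - a = v * (b - a) := by rw [hv]; field_simp
  have h2 : (l.1 * (b - a)).re = 0 := by
    rw [mul_sub, Complex.sub_re]
    unfold af at ha hb
    linarith only [ha, hb]
  have h3 : (l.1 * (b - a) * v).re = 0 := by
    rw [mul_assoc, mul_comm (b - a), ← h1, mul_sub, Complex.sub_re]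
    unfold af at ha hu
    linarith only [ha, hu]
  have h4 : (l.1 * (b - a)).im ≠ 0 := fun h =>
    mul_ne_zero hl hba (Complex.ext h2 h)
  rw [Complex.mul_re, h2] at h3
  have h5 : v.im = 0 := by
    refine (mul_eq_zero.1 ?_).resolve_left h4
    linarith only [h3]
  have h6 : (v.re : ℂ) = v := Complex.ext (by simp) (by simp [h5])
  rw [h6, ← h1]
  ring

variable {M : Type} [TopologicalSpace M] [T2Space M] {A B : Set M}

/-- An edge of the arrangement whose interior meets a polygonal arc lies in the arc. -/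
theorem a15_sub (c : Chart M B) {L : Finset (ℂ × ℝ)} (hL : ∀ l ∈ L, l.1 ≠ 0) {Q : Set ℂ}
    (hO : Q ⊆ c.O ∩ {z | 0 ≤ z.im}) {a b : ℂ} (hn : Nbr L Q a b) (hs : segment ℝ a b ⊆ Q)
    {e : Set M} {p q : M} (he : Arc e p q) (hU : e ⊆ c.U)
    (hl : ∀ y ∈ e, ∃ l ∈ L, af l (c.φ y) = 0) (hp : c.φ p ∈ Q → c.φ p ∈ vert L Q)
    (hq : c.φ q ∈ Q → c.φ q ∈ vert L Q) {z : ℂ} (hz : z ∈ openSegment ℝ a b) (hze : c.ψ z ∈ e) :
    c.ψ '' segment ℝ a b ⊆ e := by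
  have hcl : IsClosed e := he.basic.1.isClosed
  obtain ⟨-, -, hab, ⟨l₀, h0, ha, hb⟩, hdis⟩ := hn
  obtain ⟨γ, γc, γi, γ0, γ1, γe⟩ := he
  have hba : b - a ≠ 0 := sub_ne_zero.2 hab.symm
  let w : ℝ → ℂ := fun τ => a + (τ : ℂ) * (b - a)
  have wc : Continuous w := by fun_prop
  have hseg : segment ℝ a b = w '' Icc 0 1 := by
    rw [segment_eq_image']
    simp only [Complex.real_smul, w]
  have hos : openSegment ℝ a b = w '' Ioo 0 1 := by
    rw [openSegment_eq_image']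
    simp only [Complex.real_smul, w]
  have wQ : MapsTo w (Icc 0 1) Q := fun τ hτ => hs (hseg ▸ mem_image_of_mem w hτ)
  have hT : IsClosed (Icc (0 : ℝ) 1 ∩ (c.ψ ∘ w) ⁻¹' e) :=
    ContinuousOn.preimage_isClosed_of_isClosed
      (c.contψ.comp wc.continuousOn fun τ hτ => hO (wQ hτ)) isClosed_Icc hcl
  have hop : ∀ τ ∈ Ioo (0 : ℝ) 1, c.ψ (w τ) ∈ e →
      τ ∈ interior (Icc (0 : ℝ) 1 ∩ (c.ψ ∘ w) ⁻¹' e) := by
    intro τ hτ hτe
    have hQ : w τ ∈ Q := wQ (Ioo_subset_Icc_self hτ)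
    have hnv : w τ ∉ vert L Q := disjoint_left.1 hdis (hos ▸ mem_image_of_mem w hτ)
    have hφ : c.φ (c.ψ (w τ)) = w τ := c.right _ (hO hQ)
    obtain ⟨t, ht, hγt⟩ : c.ψ (w τ) ∈ γ '' Icc 0 1 := γe ▸ hτe
    have ht0 : 0 < t := by
      refine lt_of_le_of_ne ht.1 fun h => hnv ?_
      rw [← h, γ0] at hγt
      rw [hγt, hφ] at hp
      exact hp hQ
    have ht1 : t < 1 := by
      refine lt_of_le_of_ne ht.2 fun h => hnv ?_
      rw [h, γ1] at hγt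
      rw [hγt, hφ] at hq
      exact hq hQ
    have γm : ∀ s ∈ Icc (0 : ℝ) 1, γ s ∈ e := fun s hs => γe ▸ mem_image_of_mem γ hs
    have gc : ContinuousOn (c.φ ∘ γ) (Icc 0 1) := c.contφ.comp γc fun s hs => hU (γm s hs)
    have hw0 : af l₀ (w τ) = 0 := by
      simp only [af, w, mul_add, Complex.add_re] at ha hb ⊢
      rw [mul_left_comm, Complex.re_ofReal_mul, mul_sub, Complex.sub_re]
      linear_combination (1 - τ) * ha + τ * hb
    have hev : ∀ᶠ s in 𝓝 t, ∀ l ∈ L, af l (c.φ (γ s)) = 0 → af l₀ (c.φ (γ s)) = 0 := by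
      have h1 : ContinuousAt (c.φ ∘ γ) t := gc.continuousAt (Icc_mem_nhds ht0 ht1)
      have h2 : (c.φ ∘ γ) t = w τ := by simp [hγt, hφ]
      have h3 := a15_near hL hQ hnv h0 hw0
      rw [← h2] at h3
      exact h1.eventually h3
    obtain ⟨s, u, -, hnb, hsub⟩ :=
      exists_Icc_mem_subset_of_mem_nhds (Filter.inter_mem hev (Icc_mem_nhds ht0 ht1))
    obtain ⟨hst, htu⟩ := Icc_mem_nhds_iff.1 hnb
    let f : ℝ → ℝ := fun r => ((c.φ (γ r) - a) / (b - a)).re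
    have hf : ∀ r ∈ Icc s u, w (f r) = c.φ (γ r) := by
      intro r hr
      obtain ⟨l, hl1, hl2⟩ := hl _ (γm r (hsub hr).2)
      exact a15_coord (hL _ h0) hab ha hb ((hsub hr).1 l hl1 hl2)
    have fc : ContinuousOn f (Icc s u) := by
      have h1 : Continuous fun y : ℂ => ((y - a) / (b - a)).re := by fun_prop
      exact h1.comp_continuousOn (gc.mono fun r hr => (hsub hr).2)
    have fi : InjOn f (Icc s u) := by
      intro r hr r' hr' h
      have h1 : c.φ (γ r) = c.φ (γ r') := by rw [← hf r hr, ← hf r' hr', h]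
      refine γi (hsub hr).2 (hsub hr').2 ?_
      rw [← c.left _ (hU (γm r (hsub hr).2)), h1, c.left _ (hU (γm r' (hsub hr').2))]
    have ft : f t = τ := by
      simp only [f, hγt, hφ, w]
      rw [add_sub_cancel_left, mul_div_assoc, div_self hba, mul_one, Complex.ofReal_re]
    have hN := a15_real hst htu fc fi
    rw [ft] at hN
    rw [mem_interior_iff_mem_nhds]
    refine Filter.inter_mem (Icc_mem_nhds hτ.1 hτ.2) (Filter.mem_of_superset hN ?_)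
    rintro _ ⟨r, hr, rfl⟩
    change c.ψ (w (f r)) ∈ e
    rw [hf r hr, c.left _ (hU (γm r (hsub hr).2))]
    exact γm r (hsub hr).2
  obtain ⟨τ, hτ, rfl⟩ : z ∈ w '' Ioo 0 1 := hos ▸ hz
  have h1 : Ioo (0 : ℝ) 1 ⊆ interior (Icc (0 : ℝ) 1 ∩ (c.ψ ∘ w) ⁻¹' e) := by
    refine isPreconnected_Ioo.subset_of_closure_inter_subset isOpen_interior
      ⟨τ, hτ, hop τ hτ hze⟩ ?_
    rintro r ⟨hr, hr'⟩
    exact hop r hr' (closure_minimal interior_subset hT hr).2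
  have h2 : Icc (0 : ℝ) 1 ⊆ Icc (0 : ℝ) 1 ∩ (c.ψ ∘ w) ⁻¹' e := by
    have := closure_minimal (h1.trans interior_subset) hT
    rwa [closure_Ioo zero_ne_one] at this
  rw [hseg]
  rintro _ ⟨_, ⟨r, hr, rfl⟩, rfl⟩
  exact (h2 hr).2

omit [T2Space M] in
theorem a15_edge (C : Cells A) {e : Set M} (he : e ∈ C.E) : e ⊆ A := by
  obtain ⟨d, hd, h⟩ := C.ed e he
  rw [← C.cover]
  exact (h.trans (C.dsc d hd).basic.2.2.1).trans (subset_biUnion_of_mem (u := fun d => d.1) hd)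

/-- Plan: let `L` contain `L₀`, the lines through the segments of the polygonal edges, and the
horizontal and the vertical line through every end of a segment and through `c.φ p` for
`p ∈ C.P ∩ c.U`. Take `arrangement`, keep the discs whose interior misses `c.φ '' (A ∩ c.U)`
(an open disc misses the frontier of `A`, so it is inside or outside), `Cells.sub`, `Cells.map`
by `c.ψ`. Subdivide `C` at the new points in `A` (`Cells.subdiv`). A new edge whose interior meets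
`A` lies in one old edge (the intersection is open and closed in the open segment: an injective
path inside a line is open) and is an edge of the subdivision. `Cells.glue`. -/
theorem Cells.merge (hM : Atl M B) (c : Chart M B) (C : Cells A) {L₀ : Finset (ℂ × ℝ)}
    (hL : ∀ l ∈ L₀, l.1 ≠ 0) {Q : Set ℂ} (hQ : Q = {z | ∀ l ∈ L₀, 0 ≤ af l z}) (hc : IsCompact Q)
    (hn : (interior Q).Nonempty) (hO : Q ⊆ c.O ∩ {z | 0 ≤ z.im})
    (hfr : ∀ x ∈ A ∩ closure Aᶜ ∩ c.ψ '' Q, ∃ e ∈ C.E, x ∈ e ∧ e ⊆ c.U ∧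
      ∃ s : Finset (ℂ × ℂ), ∀ y ∈ e, ∃ p ∈ s, c.φ y ∈ segment ℝ p.1 p.2) :
    Nonempty (Cells (A ∪ c.ψ '' Q)) := by
  obtain ⟨L, h0, hL', hE, hP⟩ := a15_lines C.finE C.finP c.φ hL Q
  obtain ⟨G, GP, GE, GD, -⟩ := arrangement h0 hL' hQ hc hn
  have hA : IsClosed A := C.compact.isClosed
  have ψc : ContinuousOn c.ψ Q := c.contψ.mono hO
  have φψ : ∀ z ∈ Q, c.φ (c.ψ z) = z := fun z hz => c.right z (hO hz)
  have ψi : InjOn c.ψ Q := fun z hz z' hz' h => by rw [← φψ z hz, h, φψ z' hz']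
  have dQ : ∀ d ∈ G.D, d.1 ⊆ Q := fun d hd => by
    conv_rhs => rw [← G.cover]
    exact subset_biUnion_of_mem (u := fun d => d.1) hd
  have d2 : ∀ d ∈ G.D, ∀ z ∈ d.1, ∀ l ∈ L, af l z = 0 → z ∈ d.2 := by
    intro d hd z hz l hl h
    rw [GD] at hd
    obtain ⟨_, -, -, -, h2⟩ := hd
    rw [h2]
    exact ⟨hz, l, hl, h⟩
  have dcl : ∀ d ∈ G.D, ∀ z ∈ d.1, c.ψ z ∈ closure (c.ψ '' (d.1 \ d.2)) := fun d hd z hz =>
    ((ψc z (dQ d hd hz)).mono (sdiff_subset.trans (dQ d hd))).mem_closure_image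
      ((G.dsc d hd).basic.2.2.2.2.2.2.2.2 hz)
  have fr : ∀ z ∈ Q, c.ψ z ∈ A → c.ψ z ∈ closure Aᶜ → ∃ e ∈ C.E, c.ψ z ∈ e ∧ e ⊆ c.U ∧
      ∀ y ∈ e, ∃ l ∈ L, af l (c.φ y) = 0 := by
    intro z hz h1 h2
    obtain ⟨e, he, h3, h4, h5⟩ := hfr _ ⟨⟨h1, h2⟩, mem_image_of_mem _ hz⟩
    exact ⟨e, he, h3, h4, hE e he h5⟩
  let D' : Set (Set ℂ × Set ℂ) := {d ∈ G.D | c.ψ '' (d.1 \ d.2) ⊆ Aᶜ}
  have alt : ∀ d ∈ G.D, d ∈ D' ∨ c.ψ '' d.1 ⊆ A := by
    intro d hd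
    have h1 : IsPreconnected (c.ψ '' (d.1 \ d.2)) :=
      (G.dsc d hd).basic.2.2.2.2.2.1.image _ (ψc.mono (sdiff_subset.trans (dQ d hd)))
    have h2 : c.ψ '' (d.1 \ d.2) ⊆ Aᶜ ∪ interior A := by
      rintro _ ⟨z, hz, rfl⟩
      by_contra h
      rw [mem_union, not_or, mem_compl_iff, not_not, ← mem_compl_iff, ← closure_compl] at h
      obtain ⟨e, -, h3, -, h4⟩ := fr z (dQ d hd hz.1) h.1 h.2
      obtain ⟨l, hl, h5⟩ := h4 _ h3
      rw [φψ z (dQ d hd hz.1)] at h5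
      exact hz.2 (d2 d hd z hz.1 l hl h5)
    rcases h1.subset_or_subset hA.isOpen_compl isOpen_interior
      (disjoint_compl_left.mono_right interior_subset) h2 with h | h
    · exact Or.inl ⟨hd, h⟩
    · right
      rintro _ ⟨z, hz, rfl⟩
      exact closure_minimal (h.trans interior_subset) hA (dcl d hd z hz)
  obtain ⟨G₁, -, G₁E, G₁P⟩ := G.sub (D' := D') fun d hd => hd.1
  have Q₂ : (⋃ d ∈ D', d.1) ⊆ Q := iUnion₂_subset fun d hd => dQ d hd.1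
  obtain ⟨G₂, G₂P, G₂E, -⟩ := G₁.map (ψc.mono Q₂) (ψi.mono Q₂)
  rw [G₁P, GP] at G₂P
  rw [G₁E] at G₂E
  have fr' : ∀ d ∈ D', ∀ z ∈ d.1, c.ψ z ∈ A → ∃ e ∈ C.E, c.ψ z ∈ e ∧ e ⊆ c.U ∧
      ∀ y ∈ e, ∃ l ∈ L, af l (c.φ y) = 0 := fun d hd z hz h =>
    fr z (dQ d hd.1 hz) h (closure_mono hd.2 (dcl d hd.1 z hz))
  obtain ⟨C', C'P, -, -, -, C'E⟩ := C.subdiv (Z := G₂.P ∩ A) (G₂.finP.inter_of_left A) (by
    rintro x ⟨h1, h2⟩
    rw [G₂P] at h1
    obtain ⟨z, ⟨-, d, hd, hz⟩, rfl⟩ := h1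
    obtain ⟨e, he, h, -⟩ := fr' d hd z ((G.dsc d hd.1).basic.2.2.1 hz) h2
    exact ⟨e, he, h⟩)
  have h₁ : C'.P ∩ c.ψ '' (⋃ d ∈ D', d.1) ⊆ G₂.P := by
    rintro _ ⟨h1, z, hz, rfl⟩
    rw [C'P] at h1
    rcases h1 with h1 | h1
    · obtain ⟨d, hd, hz'⟩ := mem_iUnion₂.1 hz
      have h2 := hP _ h1
      rw [φψ z (Q₂ hz)] at h2
      have h3 := h2 (Q₂ hz)
      rw [G₂P]
      refine ⟨z, ⟨h3, d, hd, ?_⟩, rfl⟩
      obtain ⟨-, l, hl, -, -, h4, -⟩ := h3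
      exact d2 d hd.1 z hz' l hl h4
    · exact h1.1
  have h₂ : G₂.P ∩ A ⊆ C'.P := C'P ▸ subset_union_right
  obtain ⟨F, -⟩ := C'.glue G₂ (by
    rintro _ ⟨hx, z, hz, rfl⟩
    obtain ⟨d, hd, hz'⟩ := mem_iUnion₂.1 hz
    have hz2 : z ∈ d.2 := by
      by_contra h
      exact hd.2 ⟨z, ⟨hz', h⟩, rfl⟩ hx
    have inP : ∀ v ∈ vert L Q, v ∈ d.2 → c.ψ v ∈ G₂.P := fun v hv h =>
      G₂P ▸ ⟨v, ⟨hv, d, hd, h⟩, rfl⟩
    by_cases hv : z ∈ vert L Q
    · exact Or.inl ⟨h₂ ⟨inP z hv hz2, hx⟩, inP z hv hz2⟩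
    right
    obtain ⟨g, hg, hzg, hgd⟩ := G.bdy d hd.1 z hz2
    have hg' := hg
    rw [GE] at hg'
    obtain ⟨a, b, hab, rfl⟩ := hg'
    have hd1 : segment ℝ a b ⊆ d.1 := hgd.trans (G.dsc d hd.1).basic.2.2.1
    have hs : segment ℝ a b ⊆ Q := hd1.trans (dQ d hd.1)
    have hopen : ∀ v ∈ segment ℝ a b, v = a ∨ v = b ∨ v ∈ openSegment ℝ a b := by
      intro v h
      rw [← insert_endpoints_openSegment] at h
      exact h
    have hzo : z ∈ openSegment ℝ a b := by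
      rcases hopen z hzg with rfl | rfl | h
      · exact absurd hab.1 hv
      · exact absurd hab.2.1 hv
      · exact h
    obtain ⟨e, he, hze, hU, hl⟩ := fr' d hd z hz' hx
    obtain ⟨p, q, harc, hpq⟩ := C.arc e he
    have hp : p ∈ C.P := (hpq.symm ▸ mem_insert p {q} : p ∈ e ∩ C.P).2
    have hq : q ∈ C.P := (hpq.symm ▸ mem_insert_of_mem p (mem_singleton q) : q ∈ e ∩ C.P).2
    have hsub := a15_sub c hL' hO hab hs harc hU hl (hP p hp) (hP q hq) hzo hze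
    refine ⟨c.ψ '' segment ℝ a b, ⟨?_, ?_⟩, mem_image_of_mem _ hzg⟩
    · refine C'E e he _ _ _ (arc_seg hab.2.2.1 (ψc.mono hs) (ψi.mono hs)) hsub ?_
      apply Subset.antisymm
      · rintro _ ⟨⟨v, hv1, rfl⟩, hv2⟩
        have h1 := h₁ ⟨hv2, v, mem_iUnion₂.2 ⟨d, hd, hd1 hv1⟩, rfl⟩
        rw [G₂P] at h1
        obtain ⟨v', ⟨h2, -⟩, h3⟩ := h1
        obtain rfl : v' = v := ψi h2.1 (hs hv1) h3
        rcases hopen v' hv1 with rfl | rfl | h
        · exact Or.inl rfl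
        · exact Or.inr rfl
        · exact absurd h2 (disjoint_left.1 hab.2.2.2.2 h)
      · have key : ∀ v ∈ segment ℝ a b, v ∈ vert L Q → c.ψ v ∈ c.ψ '' segment ℝ a b ∩ C'.P :=
          fun v h1 h2 => ⟨mem_image_of_mem _ h1,
            h₂ ⟨inP v h2 (hgd h1), a15_edge C he (hsub (mem_image_of_mem _ h1))⟩⟩
        rintro _ (rfl | rfl)
        · exact key a (left_mem_segment ℝ a b) hab.1
        · exact key b (right_mem_segment ℝ a b) hab.2.1
    · rw [G₂E]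
      exact ⟨_, ⟨hg, d, hd, hgd⟩, rfl⟩) h₁ h₂
  have hU : A ∪ c.ψ '' (⋃ d ∈ D', d.1) = A ∪ c.ψ '' Q := by
    refine Subset.antisymm (union_subset_union_right _ (image_mono Q₂))
      (union_subset subset_union_left ?_)
    rintro _ ⟨z, hz, rfl⟩
    rw [← G.cover] at hz
    obtain ⟨d, hd, hz'⟩ := mem_iUnion₂.1 hz
    rcases alt d hd with h | h
    · exact Or.inr ⟨z, mem_iUnion₂.2 ⟨d, h, hz'⟩, rfl⟩
    · exact Or.inl (h (mem_image_of_mem _ hz'))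
  exact ⟨hU ▸ F⟩

end Pool.Agent.MP_17e62b_gt.T55

end

section

/-!
Every compact surface with boundary has a triangulation.
-/

namespace Pool.Agent.MP_17e62b_gt.T55

open Set Metric Topology
open scoped InnerProductSpace Manifold

variable {M : Type} [MetricSpace M] [CompactSpace M] {B : Set M}

omit [CompactSpace M] in
theorem a16_pt {A : Set M} (K : Tri A) {t : Finset K.V} {v : K.V} (hv : v ∈ t) :
    K.pt v ∈ K.face t := by
  refine ⟨K.pt_mem v, fun w hw => ?_⟩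
  rw [K.lam_pt v]
  exact Pi.single_eq_of_ne (fun h : w = v => hw (h ▸ hv)) _

omit [CompactSpace M] in
theorem a16_adj {A : Set M} (K : Tri A) {ε : ℝ}
    (hm : ∀ t ∈ K.T, ∀ x ∈ K.face t, ∀ y ∈ K.face t, dist x y ≤ ε) {t t' : Finset K.V}
    (ht : t ∈ K.T) (ht' : t' ∈ K.T) (h2 : 2 ≤ (t ∩ t').card) {x y : M} (hx : x ∈ K.face t)
    (hy : y ∈ K.face t') : dist x y ≤ 2 * ε := by
  obtain ⟨u, hu⟩ : (t ∩ t').Nonempty := Finset.card_pos.1 (by omega)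
  rw [Finset.mem_inter] at hu
  have h3 := hm t ht x hx _ (a16_pt K hu.1)
  have h4 := hm t' ht' _ (a16_pt K hu.2) y hy
  have h5 := dist_triangle x (K.pt u) y
  linarith only [h3, h4, h5]

omit [CompactSpace M] in
theorem a16_pos {A : Set M} (K : Tri A) {x : M} {t H : Finset K.V} (hx : x ∈ K.face t)
    (h : ∑ v ∈ H, K.lam x v ≠ 0) : ∃ u ∈ t, u ∈ H := by
  obtain ⟨u, hu, h0⟩ := Finset.exists_ne_zero_of_sum_ne_zero h
  by_contra hn
  exact h0 (hx.2 u fun hut => hn ⟨u, hut, hu⟩)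

omit [CompactSpace M] in
theorem a16_one {A : Set M} (K : Tri A) {x : M} {t H : Finset K.V} (hx : x ∈ K.face t)
    (h : ∀ v ∈ t, v ∈ H) : ∑ v ∈ H, K.lam x v = 1 := by
  rw [← (K.basic hx.1).2.1]
  refine Finset.sum_subset (Finset.subset_univ _) fun v _ hv => hx.2 v fun hvt => hv (h v hvt)

omit [CompactSpace M] in
theorem a16_int {A : Set M} (K : Tri A) (H : Finset K.V) {x : M} (hx : x ∈ interior A)
    (h : 1 / 2 < ∑ v ∈ H, K.lam x v) : x ∈ interior (K.half H) := by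
  have hA : A ∈ 𝓝 x := mem_interior_iff_mem_nhds.1 hx
  have hc : ContinuousAt (fun y => ∑ v ∈ H, K.lam y v) x := by
    have h1 : ContinuousAt K.lam x := K.cont.continuousAt hA
    exact tendsto_finset_sum H fun v _ => ((continuous_apply v).continuousAt.comp h1)
  rw [mem_interior_iff_mem_nhds]
  filter_upwards [hA, hc.eventually (lt_mem_nhds h)] with y hy h2
  exact ⟨hy, h2.le⟩

/-- Plan: `Cells.tri`, `Tri.fine` with a mesh `ε` such that `C₀ := cthickening ε₀ Z ⊆ interior A`,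
points within `ε` of `C₀` are in `interior A` with margin, and points within `4 ε` of `c.ψ '' Q`
lie in `c.U`. `H` = vertices of the triangles that meet `C₀`. `G` = mixed triangles all of whose
neighbours along edges lie in `c.U ∩ interior A`. `Tri.half_cells`, `Tri.straighten`, `Cells.map`
by `h`, `Cells.merge`. A point of `half H` of weight above one half is interior. -/
theorem rado_step (hM : Atl M B) (c : Chart M B) {A Z : Set M} (C : Cells A) (hZ : IsCompact Z)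
    (hZA : Z ⊆ interior A) {L₀ : Finset (ℂ × ℝ)} (hL : ∀ l ∈ L₀, l.1 ≠ 0) {Q : Set ℂ}
    (hQ : Q = {z | ∀ l ∈ L₀, 0 ≤ af l z}) (hc : IsCompact Q) (hn : (interior Q).Nonempty)
    (hO : Q ⊆ c.O ∩ {z | 0 ≤ z.im}) :
    ∃ A' : Set M, Nonempty (Cells A') ∧ Z ⊆ interior A' ∧ c.ψ '' Q ⊆ A' := by
  classical
  have hA : IsCompact A := C.compact
  obtain ⟨K₀, -⟩ := C.tri
  have hQc : IsCompact (c.ψ '' Q) := hc.image_of_continuousOn (c.contψ.mono hO)
  have hQU : c.ψ '' Q ⊆ c.U := by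
    rintro _ ⟨z, hz, rfl⟩
    exact c.mapψ (hO hz)
  obtain ⟨δ₁, hδ₁, h1⟩ := hZ.exists_thickening_subset_open isOpen_interior hZA
  obtain ⟨δ₂, hδ₂, h2⟩ := hQc.exists_thickening_subset_open c.openU hQU
  obtain ⟨ε, hε, hε1, hε2⟩ : ∃ ε : ℝ, 0 < ε ∧ 5 * ε < δ₁ ∧ 4 * ε < δ₂ := by
    have h3 := min_le_left δ₁ δ₂
    have h4 := min_le_right δ₁ δ₂
    have h5 := lt_min hδ₁ hδ₂
    exact ⟨min δ₁ δ₂ / 6, by linarith only [h5], by linarith only [hδ₁, h3], by linarith⟩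
  have hnZ : ∀ y, ∀ z ∈ Z, dist y z ≤ 5 * ε → y ∈ interior A := fun y z hz hd =>
    h1 (mem_thickening_iff.2 ⟨z, hz, by linarith⟩)
  have hnQ : ∀ y, ∀ z ∈ c.ψ '' Q, dist y z ≤ 4 * ε → y ∈ c.U := fun y z hz hd =>
    h2 (mem_thickening_iff.2 ⟨z, hz, by linarith⟩)
  obtain ⟨K, -, hm⟩ := K₀.fine hA hε
  obtain ⟨H, hH⟩ : ∃ H : Finset K.V, ∀ v, v ∈ H ↔
      ∃ t ∈ K.T, v ∈ t ∧ ∃ y ∈ K.face t, ∃ z ∈ Z, dist y z ≤ ε :=
    ⟨Finset.univ.filter fun v => ∃ t ∈ K.T, v ∈ t ∧ ∃ y ∈ K.face t, ∃ z ∈ Z, dist y z ≤ ε,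
      fun v => by simp only [Finset.mem_filter, Finset.mem_univ, true_and]⟩
  obtain ⟨G, hG⟩ : ∃ G : Finset (Finset K.V), ∀ t, t ∈ G ↔ t ∈ K.T ∧
      ((∃ u ∈ t, u ∈ H) ∧ ∃ v ∈ t, v ∉ H) ∧
        ∀ t' ∈ K.T, 2 ≤ (t ∩ t').card → K.face t' ⊆ c.U ∩ interior A :=
    ⟨K.T.filter fun t => ((∃ u ∈ t, u ∈ H) ∧ ∃ v ∈ t, v ∉ H) ∧
        ∀ t' ∈ K.T, 2 ≤ (t ∩ t').card → K.face t' ⊆ c.U ∩ interior A,
      fun t => Finset.mem_filter⟩
  obtain ⟨C₁, hC₁⟩ := K.half_cells hA H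
  obtain ⟨h, -, hfix, hmove, hseg⟩ := K.straighten hM c hA H G (fun t ht => ((hG t).1 ht).1)
    (fun t ht => ((hG t).1 ht).2.1) fun t ht => ((hG t).1 ht).2.2
  obtain ⟨C₂, -, hE, -⟩ := C₁.map (Ψ := h) h.continuous.continuousOn h.injective.injOn
  have hnear : ∀ t ∈ K.T, (∃ u ∈ t, u ∈ H) → ∀ x ∈ K.face t, ∃ z ∈ Z, dist x z ≤ 3 * ε := by
    rintro t ht ⟨u, hu, huH⟩ x hx
    obtain ⟨t₀, ht₀, hu₀, y, hy, z, hz, hyz⟩ := (hH u).1 huH
    have h3 := hm t ht x hx _ (a16_pt K hu)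
    have h4 := hm t₀ ht₀ _ (a16_pt K hu₀) y hy
    have h5 := dist_triangle4 x (K.pt u) y z
    exact ⟨z, hz, by linarith only [hyz, h3, h4, h5]⟩
  have hfr : ∀ x ∈ h '' K.half H ∩ closure (h '' K.half H)ᶜ ∩ c.ψ '' Q, ∃ e ∈ C₂.E, x ∈ e ∧
      e ⊆ c.U ∧ ∃ s : Finset (ℂ × ℂ), ∀ y ∈ e, ∃ p ∈ s, c.φ y ∈ segment ℝ p.1 p.2 := by
    rintro _ ⟨⟨⟨x, hx, rfl⟩, hcl⟩, hxQ⟩
    have hni : x ∉ interior (K.half H) := by
      intro hi
      rw [closure_compl] at hcl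
      apply hcl
      rw [← h.image_interior]
      exact mem_image_of_mem _ hi
    obtain ⟨-, -, t, ht, hxt⟩ := K.basic hx.1
    have hw : 1 / 2 ≤ ∑ v ∈ H, K.lam x v := hx.2
    have hu : ∃ u ∈ t, u ∈ H := a16_pos K hxt (by linarith only [hw])
    obtain ⟨z, hz, hxz⟩ := hnear t ht hu x hxt
    have hxi : x ∈ interior A := hnZ x z hz (by linarith only [hε, hxz])
    have hw' : ∑ v ∈ H, K.lam x v = 1 / 2 :=
      le_antisymm (not_lt.1 fun hlt => hni (a16_int K H hxi hlt)) hw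
    have hv : ∃ v ∈ t, v ∉ H := by
      by_contra hn
      push Not at hn
      have h3 := a16_one K hxt hn
      linarith only [hw', h3]
    obtain ⟨t₁, ht₁, h21, hx1⟩ := hmove t ht x hxt
    have h3 := a16_adj K hm ht ht₁ h21 hxt hx1
    have htG : t ∈ G := by
      refine (hG t).2 ⟨ht, ⟨hu, hv⟩, fun t' ht' h2' y hy => ?_⟩
      have h4 := a16_adj K hm ht ht' h2' hxt hy
      rw [dist_comm] at h4
      have h5 := dist_triangle y x z
      have h6 := dist_triangle y x (h x)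
      exact ⟨hnQ y _ hxQ (by linarith only [h3, h4, h6]), hnZ y z hz (by linarith only [hxz, h4, h5])⟩
    obtain ⟨s, hs⟩ := hseg t htG
    refine ⟨h '' K.mid H t, ?_, mem_image_of_mem _ ⟨hxt, hw'⟩, ?_, s, ?_⟩
    · rw [hE]
      exact mem_image_of_mem _ (hC₁ t ht hu hv)
    · rintro _ ⟨y, hy, rfl⟩
      obtain ⟨t', ht', h2', hy'⟩ := hmove t ht y hy.1
      exact (((hG t).1 htG).2.2 t' ht' h2' hy').1
    · rintro _ ⟨y, hy, rfl⟩
      exact hs y hy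
  refine ⟨h '' K.half H ∪ c.ψ '' Q, C₂.merge hM c hL hQ hc hn hO hfr, fun z hz => ?_,
    subset_union_right⟩
  rw [mem_interior_iff_mem_nhds]
  refine Filter.mem_of_superset (closedBall_mem_nhds z hε) fun y hy => Or.inl ?_
  have hyz : dist y z ≤ ε := hy
  have hyA : y ∈ A := interior_subset (hnZ y z hz (by linarith))
  obtain ⟨-, -, t, ht, hyt⟩ := K.basic hyA
  have h3 : ∑ v ∈ H, K.lam y v = 1 :=
    a16_one K hyt fun v hv => (hH v).2 ⟨t, ht, hv, y, hyt, z, hz, hyz⟩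
  exact ⟨y, ⟨hyA, by linarith⟩, hfix y hyA h3⟩

omit [CompactSpace M] in
theorem a16_rect (c : Chart M B) {x : M} (hx : x ∈ c.U) :
    ∃ (L₀ : Finset (ℂ × ℝ)) (Q : Set ℂ), (∀ l ∈ L₀, l.1 ≠ 0) ∧ Q = {z | ∀ l ∈ L₀, 0 ≤ af l z} ∧
      IsCompact Q ∧ (interior Q).Nonempty ∧ Q ⊆ c.O ∩ {z | 0 ≤ z.im} ∧ c.ψ '' Q ∈ 𝓝 x := by
  classical
  obtain ⟨hO, him⟩ := c.mapφ hx
  have him' : 0 ≤ (c.φ x).im := him
  obtain ⟨r, hr, hball⟩ := nhds_basis_closedBall.mem_iff.1 (c.openO.mem_nhds hO)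
  obtain ⟨ρ, hρ, hρr⟩ : ∃ ρ : ℝ, 0 < ρ ∧ 2 * ρ = r := ⟨r / 2, by linarith, by ring⟩
  obtain ⟨Q, hQ⟩ : ∃ Q : Set ℂ, Q = {z | (c.φ x).re - ρ ≤ z.re ∧ z.re ≤ (c.φ x).re + ρ ∧
      (c.φ x).im - ρ ≤ z.im ∧ z.im ≤ (c.φ x).im + ρ ∧ 0 ≤ z.im} := ⟨_, rfl⟩
  have hsub : Q ⊆ closedBall (c.φ x) r := by
    intro z hz
    rw [hQ] at hz
    obtain ⟨h1, h2, h3, h4, -⟩ := hz
    rw [mem_closedBall, dist_eq_norm]
    have h5 := Complex.norm_le_abs_re_add_abs_im (z - c.φ x)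
    have h6 : |(z - c.φ x).re| ≤ ρ := by
      rw [Complex.sub_re, abs_le]
      constructor <;> linarith only [h1, h2]
    have h7 : |(z - c.φ x).im| ≤ ρ := by
      rw [Complex.sub_im, abs_le]
      constructor <;> linarith
    linarith
  have hin : ∀ z : ℂ, ‖z - c.φ x‖ ≤ ρ → 0 ≤ z.im → z ∈ Q := by
    intro z hz h0
    have h1 := (Complex.abs_re_le_norm (z - c.φ x)).trans hz
    have h2 := (Complex.abs_im_le_norm (z - c.φ x)).trans hz
    rw [Complex.sub_re, abs_le] at h1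
    rw [Complex.sub_im, abs_le] at h2
    rw [hQ]
    exact ⟨by linarith [h1.1], by linarith [h1.2], by linarith [h2.1], by linarith [h2.2], h0⟩
  refine ⟨{(1, (c.φ x).re - ρ), (-1, -((c.φ x).re + ρ)), (-Complex.I, (c.φ x).im - ρ),
    (Complex.I, -((c.φ x).im + ρ)), (-Complex.I, 0)}, Q, ?_, ?_, ?_, ?_, ?_, ?_⟩
  · intro l hl
    simp only [Finset.mem_insert, Finset.mem_singleton] at hl
    rcases hl with rfl | rfl | rfl | rfl | rfl <;> simp
  · rw [hQ]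
    ext z
    simp only [mem_setOf_eq, Finset.mem_insert, Finset.mem_singleton, forall_eq_or_imp, forall_eq,
      af, one_mul, neg_mul, Complex.neg_re, Complex.mul_re, Complex.I_re, Complex.I_im, zero_mul,
      Complex.one_re, Complex.one_im, Complex.neg_im]
    constructor
    · rintro ⟨h1, h2, h3, h4, h5⟩
      exact ⟨by linarith only [h1], by linarith, by linarith, by linarith, by linarith⟩
    · rintro ⟨h1, h2, h3, h4, h5⟩
      exact ⟨by linarith, by linarith, by linarith, by linarith, by linarith⟩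
  · refine (isCompact_closedBall (c.φ x) r).of_isClosed_subset ?_ hsub
    rw [hQ]
    simp only [setOf_and]
    exact (isClosed_le continuous_const Complex.continuous_re).inter
      ((isClosed_le Complex.continuous_re continuous_const).inter
        ((isClosed_le continuous_const Complex.continuous_im).inter
          ((isClosed_le Complex.continuous_im continuous_const).inter
            (isClosed_le continuous_const Complex.continuous_im))))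
  · refine ⟨c.φ x + (ρ / 2 : ℝ) * Complex.I, mem_interior_iff_mem_nhds.2 ?_⟩
    refine Filter.mem_of_superset (closedBall_mem_nhds _ (half_pos hρ)) fun z hz => ?_
    rw [mem_closedBall, dist_eq_norm] at hz
    have h1 := (Complex.abs_re_le_norm _).trans hz
    have h2 := (Complex.abs_im_le_norm _).trans hz
    simp only [Complex.sub_re, Complex.add_re, Complex.mul_re, Complex.ofReal_re, Complex.I_re,
      Complex.ofReal_im, Complex.I_im, Complex.sub_im, Complex.add_im, Complex.mul_im, mul_zero,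
      mul_one, sub_zero, add_zero, zero_mul, abs_le] at h1 h2
    rw [hQ]
    exact ⟨by linarith only [h1.1, hρ], by linarith only [h1.2, hρ], by linarith only [h2.1, hρ], by linarith only [h2.2],
      by linarith only [h2.1, him']⟩
  · intro z hz
    refine ⟨hball (hsub hz), ?_⟩
    rw [hQ] at hz
    exact hz.2.2.2.2
  · have hU : c.U ∈ 𝓝 x := c.openU.mem_nhds hx
    have hc : ContinuousAt c.φ x := c.contφ.continuousAt hU
    filter_upwards [hU, hc.eventually (closedBall_mem_nhds _ hρ)] with y hy h1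
    refine ⟨c.φ y, hin _ ?_ (c.mapφ hy).2, c.left y hy⟩
    rw [← dist_eq_norm]
    exact h1

/-- Plan: every point has a compact neighbourhood in the interior of the image of a rectangle of a
chart; finitely many cover; induction with `rado_step`. -/
theorem rado (hM : Atl M B) : Nonempty (Tri (univ : Set M)) := by
  classical
  have hstep : ∀ x : M, ∃ W : Set M, W ∈ 𝓝 x ∧ IsCompact W ∧ ∀ A Z : Set M, Nonempty (Cells A) →
      IsCompact Z → Z ⊆ interior A → ∃ A' : Set M, Nonempty (Cells A') ∧ W ∪ Z ⊆ interior A' := by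
    intro x
    obtain ⟨c, hx⟩ := hM x
    obtain ⟨L₀, Q, hL, hQ, hc, hn, hO, hN⟩ := a16_rect c hx
    obtain ⟨W, hW, hWs, hWc⟩ := local_compact_nhds (interior_mem_nhds.2 hN)
    refine ⟨W, hW, hWc, fun A Z ⟨C⟩ hZ hZA => ?_⟩
    obtain ⟨A', h1, h2, h3⟩ := rado_step hM c C hZ hZA hL hQ hc hn hO
    exact ⟨A', h1, union_subset (hWs.trans (interior_mono h3)) h2⟩
  choose W hW hWc hWs using hstep
  have hind : ∀ s : Finset M, ∃ A : Set M, Nonempty (Cells A) ∧ ⋃ x ∈ s, W x ⊆ interior A := by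
    intro s
    induction s using Finset.induction_on with
    | empty => exact ⟨∅, Cells.empty, by simp only [Finset.notMem_empty, iUnion_of_empty, iUnion_empty, interior_empty, Std.le_refl]⟩
    | insert x s _ ih =>
      obtain ⟨A, hA, hs⟩ := ih
      obtain ⟨A', h1, h2⟩ := hWs x A _ hA (s.isCompact_biUnion fun y _ => hWc y) hs
      refine ⟨A', h1, ?_⟩
      rw [Finset.set_biUnion_insert]
      exact h2
  obtain ⟨s, -, hs⟩ := isCompact_univ.elim_nhds_subcover W fun x _ => hW x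
  obtain ⟨A, ⟨C⟩, hA⟩ := hind s
  have hu : A = univ := eq_univ_of_univ_subset ((hs.trans hA).trans interior_subset)
  subst hu
  obtain ⟨K, -⟩ := C.tri
  exact ⟨K⟩

end Pool.Agent.MP_17e62b_gt.T55

end

section

/-!
Gluing several discs; retractions; marked parametrisations.
-/

namespace Pool.Agent.MP_17e62b_gt.T55

open Set Metric Topology

variable {M : Type} [TopologicalSpace M] [T2Space M]

theorem f1_cl {d J s : Set M} {a b : M} (h : Dsc d J) (hs : Arc s a b) (hJ : s ⊆ J) :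
    closure (J \ s) = J \ (s \ {a, b}) := by
  obtain ⟨-, k2, k3⟩ := a3_compl h hs hJ
  ext x
  constructor
  · exact fun hx => ⟨k3.le (Or.inr hx), fun hx' => hx'.2 (k2.le ⟨hx'.1, hx⟩)⟩
  · rintro ⟨h1, h2⟩
    by_cases hx : x ∈ s
    · exact (k2.ge (by_contra fun hn => h2 ⟨hx, hn⟩)).2
    · exact (k3.ge h1).resolve_left hx

theorem f1_glue {D J d j : Set M} {a b : M} (h : Dsc D J) (h' : Dsc d j) (hs : Arc (D ∩ d) a b)
    (hJ : D ∩ d ⊆ J ∩ j) : Dsc (D ∪ d) ((J ∪ j) \ ((D ∩ d) \ {a, b})) := by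
  have := h.glue h' hs hJ
  rwa [union_sdiff_distrib, closure_union, f1_cl h hs fun y hy => (hJ hy).1,
    f1_cl h' hs fun y hy => (hJ hy).2, ← union_sdiff_distrib] at this

/-- Plan: induction on a `Finset ι`, `Dsc.glue`; `closure (J \ s) = J \ (s \ {a, b})` by
`Dsc.sub_arc` and `Arc.ends_eq`. -/
theorem Dsc.iglue {ι : Type} [Finite ι] {D J : Set M} {d j : ι → Set M} {a b : ι → M}
    (h : Dsc D J) (h' : ∀ i, Dsc (d i) (j i)) (hs : ∀ i, Arc (D ∩ d i) (a i) (b i))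
    (hJ : ∀ i, D ∩ d i ⊆ J ∩ j i) (hd : ∀ i k, i ≠ k → Disjoint (d i) (d k)) :
    Dsc (D ∪ ⋃ i, d i) ((J ∪ ⋃ i, j i) \ ⋃ i, ((D ∩ d i) \ {a i, b i})) := by
  classical
  have key : ∀ S : Finset ι, Dsc (D ∪ ⋃ i ∈ S, d i)
      ((J ∪ ⋃ i ∈ S, j i) \ ⋃ i ∈ S, ((D ∩ d i) \ {a i, b i})) := by
    intro S
    induction S using Finset.induction_on with
    | empty => simpa only [Finset.notMem_empty, iUnion_of_empty, iUnion_empty, union_empty, sdiff_empty] using h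
    | insert k S hk ih =>
      have hn : ∀ i ∈ S, ∀ x ∈ d k, x ∉ d i := fun i hi x hx =>
        disjoint_left.1 (hd k i fun e => hk (e ▸ hi)) hx
      have e1 : (D ∪ ⋃ i ∈ S, d i) ∩ d k = D ∩ d k := by
        ext x
        simp only [mem_inter_iff, mem_union, mem_iUnion]
        constructor
        · rintro ⟨h1 | ⟨i, hi, h1⟩, h2⟩
          · exact ⟨h1, h2⟩
          · exact absurd h1 (hn i hi x h2)
        · exact fun hx => ⟨Or.inl hx.1, hx.2⟩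
      have := f1_glue ih (h' k) (e1 ▸ hs k) (by
        rw [e1]
        intro x hx
        refine ⟨⟨Or.inl (hJ k hx).1, fun h1 => ?_⟩, (hJ k hx).2⟩
        obtain ⟨i, hi, h2⟩ := mem_iUnion₂.1 h1
        exact hn i hi x hx.2 h2.1.2)
      rw [e1] at this
      rw [Finset.set_biUnion_insert, Finset.set_biUnion_insert, Finset.set_biUnion_insert]
      convert this using 1
      · rw [union_comm (d k), union_assoc]
      · ext x
        constructor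
        · rintro ⟨h1, h2⟩
          refine ⟨?_, fun h3 => h2 (Or.inl h3)⟩
          rcases h1 with h1 | h1 | h1
          · exact Or.inl ⟨Or.inl h1, fun h3 => h2 (Or.inr h3)⟩
          · exact Or.inr h1
          · exact Or.inl ⟨Or.inr h1, fun h3 => h2 (Or.inr h3)⟩
        · rintro ⟨⟨h1, h3⟩ | h1, h2⟩
          · exact ⟨h1.imp_right Or.inr, fun h4 => h4.elim h2 h3⟩
          · refine ⟨Or.inr (Or.inl h1), fun h4 => h4.elim h2 fun h5 => ?_⟩
            obtain ⟨i, hi, h6⟩ := mem_iUnion₂.1 h5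
            exact hn i hi x ((h' k).basic.2.2.1 h1) h6.1.2
  have := Fintype.ofFinite ι
  simpa only [Finset.mem_univ, iUnion_true] using key Finset.univ

/-- Plan: Tietze for maps to the closed unit disc, or Tietze for `ℂ` and a radial retraction. -/
theorem Dsc.retract {d J : Set ℂ} (h : Dsc d J) :
    ∃ r : ℂ → ℂ, Continuous r ∧ (∀ z, r z ∈ d) ∧ ∀ z ∈ d, r z = z := by
  obtain ⟨Ψ, h1, h2, h3, h4⟩ := id h
  obtain ⟨g, g1, g2⟩ := a2_inv (isCompact_closedBall 0 1) h1 h2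
  rw [h3] at g1
  have hm : ∀ x : d, g x ∈ closedBall (0 : ℂ) 1 := by
    rintro ⟨x, hx⟩
    obtain ⟨z, hz, rfl⟩ := h3.ge hx
    simpa only [g2 z hz] using hz
  have := Metric.instTietzeExtensionClosedBall.{0} ℂ (0 : ℂ) (r := 1) one_pos
  obtain ⟨G, G1, G2⟩ := ContinuousMap.exists_forall_mem_restrict_eq h.basic.1.isClosed
    ⟨fun x : d => g x, continuousOn_iff_continuous_domRestrict.1 g1⟩ hm
  refine ⟨fun z => Ψ (G z), h1.comp_continuous G.continuous G1, fun z => h3.le ⟨_, G1 z, rfl⟩,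
    fun z hz => ?_⟩
  have e : G z = g z := DFunLike.congr_fun G2 ⟨z, hz⟩
  obtain ⟨w, hw, rfl⟩ := h3.ge hz
  simp only [e, g2 w hw]

theorem f1_marks (n : ℕ) : ∀ (A B : Set ℝ) (p q : ℝ), 0 < p → 0 < q → A.Finite → B.Finite →
    A ⊆ Ioo 0 p → B ⊆ Ioo 0 q → A.ncard = n → B.ncard = n →
    ∃ u : ℝ → ℝ, Continuous u ∧ StrictMono u ∧ u 0 = 0 ∧ u p = q ∧ u '' A = B := by
  induction n with
  | zero =>
    intro A B p q hp hq hA hB _ _ h1 h2
    rw [ncard_eq_zero hA] at h1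
    rw [ncard_eq_zero hB] at h2
    refine ⟨fun t => t * (q / p), by fun_prop, fun s t hst => ?_, by simp, ?_, by simp [h1, h2]⟩
    · exact mul_lt_mul_of_pos_right hst (div_pos hq hp)
    · show p * (q / p) = q
      field_simp
  | succ n ih =>
    intro A B p q hp hq hA hB h1 h2 h3 h4
    obtain ⟨a, ha, ma⟩ := exists_max_image A id hA (nonempty_of_ncard_ne_zero (by omega))
    obtain ⟨b, hb, mb⟩ := exists_max_image B id hB (nonempty_of_ncard_ne_zero (by omega))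
    obtain ⟨u, u1, u2, u3, u4, u5⟩ := ih (A \ {a}) (B \ {b}) a b (h1 ha).1 (h2 hb).1 hA.sdiff hB.sdiff
      (fun x hx => ⟨(h1 hx.1).1, lt_of_le_of_ne (ma x hx.1) hx.2⟩)
      (fun x hx => ⟨(h2 hx.1).1, lt_of_le_of_ne (mb x hx.1) hx.2⟩)
      (by rw [ncard_sdiff_singleton_of_mem ha, h3]; rfl)
      (by rw [ncard_sdiff_singleton_of_mem hb, h4]; rfl)
    have p1 : 0 < p - a := sub_pos.2 (h1 ha).2
    have p2 : 0 < (q - b) / (p - a) := div_pos (sub_pos.2 (h2 hb).2) p1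
    have e : ∀ t ≤ a, u (min t a) + (max t a - a) * ((q - b) / (p - a)) = u t := fun t ht => by
      rw [min_eq_left ht, max_eq_right ht, sub_self, zero_mul, add_zero]
    refine ⟨fun t => u (min t a) + (max t a - a) * ((q - b) / (p - a)), by fun_prop,
      fun s t hst => ?_, (e 0 (h1 ha).1.le).trans u3, ?_, ?_⟩
    · rcases lt_or_ge s a with hs | hs
      · refine add_lt_add_of_lt_of_le (u2 ?_) (mul_le_mul_of_nonneg_right
          (sub_le_sub_right (max_le_max_right a hst.le) a) p2.le)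
        rw [min_eq_left hs.le]
        exact lt_min hst hs
      · refine add_lt_add_of_le_of_lt (u2.monotone (min_le_min_right a hst.le))
          (mul_lt_mul_of_pos_right (sub_lt_sub_right ?_ a) p2)
        rw [max_eq_left hs]
        exact lt_max_of_lt_left hst
    · show u (min p a) + (max p a - a) * ((q - b) / (p - a)) = q
      rw [min_eq_right (h1 ha).2.le, max_eq_left (h1 ha).2.le, u4]
      field_simp
      ring
    · rw [image_congr fun t ht => e t (ma t ht), ← insert_eq_of_mem ha, ← insert_sdiff_singleton,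
        image_insert_eq, u4, u5, insert_sdiff_singleton, insert_eq_of_mem hb]

/-- Plan: induction on the number of points; move the largest point by a piecewise linear map. -/
theorem mono_marks {A B : Set ℝ} (hA : A.Finite) (hB : B.Finite) (h1 : A ⊆ Ioo 0 1)
    (h2 : B ⊆ Ioo 0 1) (h : A.ncard = B.ncard) :
    ∃ u : ℝ → ℝ, Continuous u ∧ StrictMono u ∧ u 0 = 0 ∧ u 1 = 1 ∧ u '' A = B := by
  exact f1_marks _ A B 1 1 one_pos one_pos hA hB h1 h2 h rfl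

/-- A closed curve as a loop that starts at a given point. -/
theorem Dsc.loop {d J : Set M} (h : Dsc d J) {p : M} (hp : p ∈ J) :
    ∃ γ : ℝ → M, ContinuousOn γ (Icc 0 1) ∧ InjOn γ (Ico 0 1) ∧ γ 0 = p ∧ γ 1 = p ∧
      γ '' Ico 0 1 = J := by
  obtain ⟨Ψ, h1, h2, -, h4⟩ := h
  have hr : range (circleMap 0 1) = sphere (0 : ℂ) 1 := by rw [range_circleMap, abs_one]
  have hs : ∀ θ, circleMap 0 1 θ ∈ closedBall (0 : ℂ) 1 := fun θ =>
    sphere_subset_closedBall (hr.le ⟨θ, rfl⟩)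
  obtain ⟨z, hz, rfl⟩ := h4.ge hp
  obtain ⟨θ, rfl⟩ := hr.ge hz
  have hπ := Real.two_pi_pos
  have hm : ∀ t ∈ Ico (0 : ℝ) 1, θ + 2 * Real.pi * t ∈ Ico θ (θ + 2 * Real.pi) := fun t ht =>
    ⟨le_add_of_nonneg_right (mul_nonneg hπ.le ht.1), by nlinarith only [ht.2, hπ]⟩
  refine ⟨fun t => Ψ (circleMap 0 1 (θ + 2 * Real.pi * t)),
    (h1.comp_continuous (by fun_prop) fun t => hs _).continuousOn, fun s hs' t ht e => ?_, by simp,
    ?_, ?_⟩
  · have := injOn_circleMap_of_abs_sub_le' (c := 0) one_ne_zero (by linarith only []) (hm s hs') (hm t ht)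
      (h2 (hs _) (hs _) e)
    exact mul_left_cancel₀ hπ.ne' (add_left_cancel this)
  · simp only [mul_one, periodic_circleMap 0 1 θ]
  · rw [← h4]
    apply Subset.antisymm
    · rintro _ ⟨t, -, rfl⟩
      exact ⟨_, hr.le ⟨_, rfl⟩, rfl⟩
    · rintro _ ⟨w, hw, rfl⟩
      obtain ⟨φ, rfl⟩ := hr.ge hw
      obtain ⟨y, hy, e⟩ := (periodic_circleMap 0 1).exists_mem_Ico hπ φ θ
      refine ⟨(y - θ) / (2 * Real.pi), ⟨div_nonneg (sub_nonneg.2 hy.1) hπ.le,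
        (div_lt_one hπ).2 (by linarith only [hy.2])⟩, ?_⟩
      have : θ + 2 * Real.pi * ((y - θ) / (2 * Real.pi)) = y := by
        field_simp
        ring
      simp only [this, e]

theorem f1_quot {X Y : Type} [TopologicalSpace X] [TopologicalSpace Y] {S : Set X}
    (hS : IsCompact S) {g : X → M} {β : M → Y} (h1 : ContinuousOn g S)
    (h2 : ContinuousOn (fun x => β (g x)) S) : ContinuousOn β (g '' S) := by
  refine continuousOn_iff_isClosed.2 fun t ht => ?_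
  obtain ⟨c, hc, e⟩ := continuousOn_iff_isClosed.1 h2 t ht
  refine ⟨g '' (S ∩ c), ((hS.inter_right hc).image_of_continuousOn
    (h1.mono inter_subset_left)).isClosed, Subset.antisymm ?_ ?_⟩
  · rintro _ ⟨h3, x, hx, rfl⟩
    exact ⟨⟨x, ⟨hx, (e.le ⟨h3, hx⟩).1⟩, rfl⟩, x, hx, rfl⟩
  · rintro _ ⟨⟨x, hx, rfl⟩, h3⟩
    exact ⟨(e.ge ⟨hx.2, hx.1⟩).1, h3⟩

omit [TopologicalSpace M] [T2Space M] in
theorem f1_count {J Z : Set M} {γ : ℝ → M} (hi : InjOn γ (Ico 0 1)) (hJ : γ '' Ico 0 1 = J)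
    (hZ : Z ⊆ J) (f : Z.Finite) (h0 : γ 0 ∈ Z) :
    (Ioo 0 1 ∩ γ ⁻¹' Z).Finite ∧ (Ioo 0 1 ∩ γ ⁻¹' Z).ncard = Z.ncard - 1 := by
  have hs : Ioo 0 1 ∩ γ ⁻¹' Z ⊆ Ico 0 1 := fun t ht => Ioo_subset_Ico_self ht.1
  have e : γ '' (Ioo 0 1 ∩ γ ⁻¹' Z) = Z \ {γ 0} := by
    apply Subset.antisymm
    · rintro _ ⟨t, ht, rfl⟩
      exact ⟨ht.2, fun e => ht.1.1.ne' (hi (hs ht) ⟨le_rfl, one_pos⟩ e)⟩
    · rintro z ⟨h1, h2⟩
      obtain ⟨t, ht, rfl⟩ := hJ.ge (hZ h1)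
      exact ⟨t, ⟨⟨lt_of_le_of_ne ht.1 fun e => h2 (e ▸ rfl), ht.2⟩, h1⟩, rfl⟩
  refine ⟨Finite.of_finite_image (e ▸ f.sdiff) (hi.mono hs), ?_⟩
  rw [← (hi.mono hs).ncard_image, e, ncard_sdiff_singleton_of_mem h0]

/-- Plan: loops (`Dsc.loop`, `dsc_convex`) that start at a point of `Z'` and of `Z`, `mono_marks`;
the map `γ' t ↦ γ (u t)` is continuous since `γ'` is a quotient map on `Icc 0 1`; `Dsc.param`. -/
theorem Dsc.param_marks {d J : Set M} (h : Dsc d J) {K : Set ℂ} (hK : IsCompact K)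
    (hc : Convex ℝ K) (hn : (interior K).Nonempty) {Z' : Set ℂ} {Z : Set M} (h1 : Z' ⊆ frontier K)
    (h2 : Z ⊆ J) (f1 : Z'.Finite) (f2 : Z.Finite) (hne : Z.Nonempty) (he : Z'.ncard = Z.ncard) :
    ∃ Ψ : ℂ → M, ContinuousOn Ψ K ∧ InjOn Ψ K ∧ Ψ '' K = d ∧ Ψ '' frontier K = J ∧
      Ψ '' Z' = Z := by
  obtain ⟨p, hp⟩ := hne
  obtain ⟨p', hp'⟩ : Z'.Nonempty :=
    nonempty_of_ncard_ne_zero (he ▸ ((ncard_pos f2).2 ⟨p, hp⟩).ne')
  have hD : Dsc K (frontier K) := by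
    simpa using dsc_convex hK hc hn (Ψ := id) continuousOn_id (injOn_id _)
  obtain ⟨γ, c1, c2, c3, c4, c5⟩ := h.loop (h2 hp)
  obtain ⟨δ, e1, e2, e3, e4, e5⟩ := hD.loop (h1 hp')
  obtain ⟨a1, a2⟩ := f1_count e2 e5 h1 f1 (e3 ▸ hp')
  obtain ⟨b1, b2⟩ := f1_count c2 c5 h2 f2 (c3 ▸ hp)
  obtain ⟨u, u1, u2, u3, u4, u5⟩ := mono_marks a1 b1 inter_subset_left inter_subset_left
    (by rw [a2, b2, he])
  have m0 : (0 : ℝ) ∈ Ico (0 : ℝ) 1 := ⟨le_rfl, one_pos⟩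
  have um : ∀ t ∈ Ico (0 : ℝ) 1, u t ∈ Ico (0 : ℝ) 1 := fun t ht =>
    ⟨u3 ▸ u2.monotone ht.1, u4 ▸ u2 ht.2⟩
  have um' : ∀ t ∈ Icc (0 : ℝ) 1, u t ∈ Icc (0 : ℝ) 1 := fun t ht =>
    ⟨u3 ▸ u2.monotone ht.1, u4 ▸ u2.monotone ht.2⟩
  have us : Ico (0 : ℝ) 1 ⊆ u '' Ico 0 1 := by
    simpa only [u3, u4] using intermediate_value_Ico zero_le_one u1.continuousOn
  set β : ℂ → M := fun z => γ (u (Function.invFunOn δ (Ico 0 1) z)) with hβ
  have b0 : ∀ t ∈ Ico (0 : ℝ) 1, β (δ t) = γ (u t) := fun t ht => by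
    simp only [hβ, e2.leftInvOn_invFunOn ht]
  have b0' : ∀ t ∈ Icc (0 : ℝ) 1, β (δ t) = γ (u t) := fun t ht => by
    rcases ht.2.lt_or_eq with h3 | h3
    · exact b0 t ⟨ht.1, h3⟩
    · rw [h3, e4, ← e3, b0 0 m0, u3, u4, c3, c4]
  have cβ : ContinuousOn β (frontier K) :=
    (f1_quot (β := β) isCompact_Icc e1 ((c1.comp u1.continuousOn um').congr b0')).mono
      (e5 ▸ image_mono Ico_subset_Icc_self)
  have bβ : BijOn β (frontier K) J := by
    refine ⟨fun z hz => ?_, fun z hz w hw e => ?_, fun x hx => ?_⟩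
    · obtain ⟨t, ht, rfl⟩ := e5.ge hz
      exact c5.le ⟨_, um t ht, (b0 t ht).symm⟩
    · obtain ⟨t, ht, rfl⟩ := e5.ge hz
      obtain ⟨s, hs, rfl⟩ := e5.ge hw
      rw [b0 t ht, b0 s hs] at e
      rw [u2.injective (c2 (um t ht) (um s hs) e)]
    · obtain ⟨s, hs, rfl⟩ := c5.ge hx
      obtain ⟨t, ht, rfl⟩ := us hs
      exact ⟨δ t, e5.le ⟨t, ht, rfl⟩, b0 t ht⟩
  obtain ⟨Ψ, k1, k2, k3, k4⟩ := h.param hK hc hn cβ bβ
  refine ⟨Ψ, k1, k2, k3, k4.image_eq.trans bβ.image_eq, (k4.mono h1).image_eq.trans ?_⟩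
  apply Subset.antisymm
  · rintro _ ⟨z, hz, rfl⟩
    obtain ⟨t, ht, rfl⟩ := e5.ge (h1 hz)
    rw [b0 t ht]
    rcases ht.1.lt_or_eq with h3 | h3
    · exact (u5.le ⟨t, ⟨⟨h3, ht.2⟩, hz⟩, rfl⟩).2
    · rwa [← h3, u3, c3]
  · intro x hx
    obtain ⟨s, hs, rfl⟩ := c5.ge (h2 hx)
    rcases hs.1.lt_or_eq with h3 | h3
    · obtain ⟨t, ht, rfl⟩ := u5.ge ⟨⟨h3, hs.2⟩, hx⟩
      exact ⟨δ t, ht.2, b0 t (Ioo_subset_Ico_self ht.1)⟩
    · exact ⟨δ 0, e3 ▸ hp', by rw [b0 0 m0, u3, h3]⟩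

end Pool.Agent.MP_17e62b_gt.T55

end

section

/-!
A collar along the frontier of a convex set.
-/

namespace Pool.Agent.MP_17e62b_gt.T55

open Set Metric Topology

/-- The cone over `e` between the factors `t` and `1`. -/
def cone (t : ℝ) (e : Set ℂ) : Set ℂ := {z | ∃ r ∈ Icc t 1, ∃ w ∈ e, z = r • w}

/-- The gauge of a compact convex neighbourhood of the origin. -/
theorem f4_gauge {Q : Set ℂ} (hQ : IsCompact Q) (hc : Convex ℝ Q) (h0 : (0 : ℂ) ∈ interior Q) :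
    ∃ g : ℂ → ℝ, (∀ r : ℝ, 0 ≤ r → ∀ z, g (r • z) = r * g z) ∧ (∀ z, z ∈ Q ↔ g z ≤ 1) ∧
      (∀ z, z ∈ frontier Q ↔ g z = 1) ∧ (∀ z, z ∈ interior Q ↔ g z < 1) := by
  have hn : Q ∈ 𝓝 (0 : ℂ) := mem_interior_iff_mem_nhds.1 h0
  refine ⟨gauge Q, fun r hr z => ?_, fun z => ?_, fun z => ?_, fun z => ?_⟩
  · rw [gauge_smul_of_nonneg hr, smul_eq_mul]
  · rw [gauge_le_one_iff_mem_closure hc hn, hQ.isClosed.closure_eq]
  · exact (gauge_eq_one_iff_mem_frontier hc hn).symm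
  · rw [← setOfPred_gauge_lt_one_eq_interior hc hn]; rfl

theorem f4_smul_inj {r : ℝ} (hr : 0 < r) {x y : ℂ} (h : r • x = r • y) : x = y :=
  smul_right_injective ℂ hr.ne' h

theorem f4_cone_mono {t : ℝ} {e e' : Set ℂ} (h : e ⊆ e') : cone t e ⊆ cone t e' := by
  rintro z ⟨r, hr, w, hw, rfl⟩
  exact ⟨r, hr, w, h hw, rfl⟩

theorem f4_par {t : ℝ} (ht' : t < 1) {s : ℝ} (hs : s ∈ Icc (0 : ℝ) 1) :
    t + (1 - t) * s ∈ Icc t 1 := by
  obtain ⟨h1, h2⟩ := hs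
  constructor <;> nlinarith only [ht', h1, h2]

theorem f4_par' {t : ℝ} (ht' : t < 1) {r : ℝ} (hr : r ∈ Icc t 1) :
    ∃ s ∈ Icc (0 : ℝ) 1, t + (1 - t) * s = r := by
  have h : 0 < 1 - t := by linarith
  refine ⟨(r - t) / (1 - t), ⟨div_nonneg (by linarith [hr.1]) h.le, ?_⟩, ?_⟩
  · rw [div_le_one h]; linarith [hr.2]
  · field_simp; ring

theorem f4_arc {t : ℝ} (ht' : t < 1) {p : ℂ} (hp : p ≠ 0) : Arc (cone t {p}) (t • p) p := by
  refine ⟨fun s => (t + (1 - t) * s) • p, by fun_prop, ?_, by simp, by simp, ?_⟩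
  · intro s _ s' _ h
    have h1 := smul_left_injective ℝ hp h
    have h2 : (1 - t) * s = (1 - t) * s' := by simpa only [mul_eq_mul_left_iff, add_right_inj] using h1
    exact mul_left_cancel₀ (by linarith) h2
  · ext z
    constructor
    · rintro ⟨s, hs, rfl⟩
      exact ⟨_, f4_par ht' hs, p, rfl, rfl⟩
    · rintro ⟨r, hr, w, hw, rfl⟩
      obtain ⟨s, hs, rfl⟩ := f4_par' ht' hr
      rw [mem_singleton_iff.1 hw]
      exact ⟨s, hs, rfl⟩

theorem f4_dsc {g : ℂ → ℝ} (hg : ∀ r : ℝ, 0 ≤ r → ∀ z, g (r • z) = r * g z) {t : ℝ} (ht : 0 < t)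
    (ht' : t < 1) {e : Set ℂ} {a b : ℂ} (h : Arc e a b) (he : ∀ w ∈ e, g w = 1) :
    Dsc (cone t e) ((fun z => t • z) '' e ∪ e ∪ cone t {a, b}) := by
  obtain ⟨γ, cγ, iγ, rfl, rfl, rfl⟩ := h
  obtain ⟨h1, h2, h3, h4⟩ := sq_basic
  have hc : ContinuousOn (fun z : ℂ => (t + (1 - t) * z.im) • γ z.re) Sq := by
    have c1 : Continuous fun z : ℂ => t + (1 - t) * z.im := by fun_prop
    have c2 : ContinuousOn (fun z : ℂ => γ z.re) Sq :=
      cγ.comp Complex.continuous_re.continuousOn fun z hz => hz.1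
    exact c1.continuousOn.smul c2
  have hi : InjOn (fun z : ℂ => (t + (1 - t) * z.im) • γ z.re) Sq := by
    intro z hz z' hz' h
    have p1 := f4_par ht' hz.2
    have p2 := f4_par ht' hz'.2
    have h5 := congrArg g h
    simp only at h h5
    rw [hg _ (by linarith [p1.1]), hg _ (by linarith [p2.1]), he _ ⟨_, hz.1, rfl⟩,
      he _ ⟨_, hz'.1, rfl⟩, mul_one, mul_one] at h5
    have h6 : z.im = z'.im :=
      mul_left_cancel₀ (show (1 - t) ≠ 0 by linarith) (by linarith)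
    rw [← h5] at h
    exact Complex.ext (iγ hz.1 hz'.1 (f4_smul_inj (by linarith [p1.1]) h)) h6
  have key := dsc_convex h1 h2 h3 hc hi
  have e1 : (fun z : ℂ => (t + (1 - t) * z.im) • γ z.re) '' Sq = cone t (γ '' Icc 0 1) := by
    ext x
    constructor
    · rintro ⟨z, hz, rfl⟩
      exact ⟨_, f4_par ht' hz.2, _, ⟨_, hz.1, rfl⟩, rfl⟩
    · rintro ⟨r, hr, _, ⟨u, hu, rfl⟩, rfl⟩
      obtain ⟨s, hs, rfl⟩ := f4_par' ht' hr
      exact ⟨⟨u, s⟩, ⟨hu, hs⟩, rfl⟩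
  have e2 : (fun z : ℂ => (t + (1 - t) * z.im) • γ z.re) '' frontier Sq =
      (fun z => t • z) '' (γ '' Icc 0 1) ∪ γ '' Icc 0 1 ∪ cone t {γ 0, γ 1} := by
    rw [h4]
    ext x
    constructor
    · rintro ⟨z, ((hz | hz) | hz) | hz, rfl⟩
      · have hz2 : z.im = 0 := by simpa using hz.2
        exact Or.inl (Or.inl ⟨_, ⟨_, hz.1, rfl⟩, by simp [hz2]⟩)
      · have hz2 : z.im = 1 := by simpa using hz.2
        exact Or.inl (Or.inr ⟨_, hz.1, by simp [hz2]⟩)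
      · have hz2 : z.re = 0 := by simpa using hz.1
        exact Or.inr ⟨_, f4_par ht' hz.2, γ 0, by simp, by simp only [hz2]⟩
      · have hz2 : z.re = 1 := by simpa using hz.1
        exact Or.inr ⟨_, f4_par ht' hz.2, γ 1, by simp, by simp only [hz2]⟩
    · rintro ((⟨_, ⟨u, hu, rfl⟩, rfl⟩ | ⟨u, hu, rfl⟩) | ⟨r, hr, w, hw, rfl⟩)
      · exact ⟨⟨u, 0⟩, Or.inl (Or.inl (Or.inl ⟨hu, by simp⟩)), by simp⟩
      · exact ⟨⟨u, 1⟩, Or.inl (Or.inl (Or.inr ⟨hu, by simp⟩)), by simp⟩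
      · obtain ⟨s, hs, rfl⟩ := f4_par' ht' hr
        rcases hw with rfl | rfl
        · exact ⟨⟨0, s⟩, Or.inl (Or.inr ⟨by simp, hs⟩), rfl⟩
        · exact ⟨⟨1, s⟩, Or.inr ⟨by simp, hs⟩, rfl⟩
  rwa [e1, e2] at key

/-- Plan: the gauge of `Q` is `1` on the frontier and less in the interior. `Cells.map` for
`z ↦ t • z`; the cone over an edge `γ` of the frontier is the image of `Sq` under
`z ↦ (t + (1 - t) z.im) • γ z.re` (`dsc_convex`, `sq_basic`); `Cells.one` with four points and four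
edges, `Cells.iglue`, `Cells.glue`; or check the fields of `Cells` directly. -/
theorem Cells.collar {Q : Set ℂ} (hQ : IsCompact Q) (hc : Convex ℝ Q) (h0 : (0 : ℂ) ∈ interior Q)
    (C : Cells Q) (hfr : ∀ y ∈ frontier Q, ∃ e ∈ C.E, y ∈ e ∧ e ⊆ frontier Q) {t : ℝ}
    (ht : 0 < t) (ht' : t < 1) :
    ∃ C' : Cells Q, C'.P = (fun z => t • z) '' C.P ∪ C.P ∩ frontier Q ∧
      C'.E = (fun e => (fun z => t • z) '' e) '' C.E ∪ {e ∈ C.E | e ⊆ frontier Q} ∪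
        (fun p => cone t {p}) '' (C.P ∩ frontier Q) ∧
      ∀ d ∈ C'.D, (∃ d₀ ∈ C.D, d.1 = (fun z => t • z) '' d₀.1) ∨
        ∃ e ∈ C.E, e ⊆ frontier Q ∧ d.1 = cone t e := by
  obtain ⟨g, hg, hQg, hF, -⟩ := f4_gauge hQ hc h0
  obtain ⟨C1, hP, hE, hD⟩ := C.map (Ψ := fun z : ℂ => t • z) (by fun_prop)
    fun x _ y _ h => f4_smul_inj ht h
  -- values of the gauge
  have gin : ∀ y ∈ Q, g (t • y) ≤ t := fun y hy => by
    rw [hg t ht.le]
    nlinarith only [(hQg y).1 hy, ht]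
  have gfr : ∀ r ∈ Icc t 1, ∀ w ∈ frontier Q, g (r • w) = r := fun r hr w hw => by
    rw [hg r (by linarith only [hr.1, ht]), (hF w).1 hw, mul_one]
  have nin : ∀ y ∈ Q, t • y ∉ frontier Q := fun y hy h => by
    have := gin y hy
    rw [(hF _).1 h] at this
    linarith
  have low : ∀ y ∈ Q, ∀ r ∈ Icc t 1, ∀ w ∈ frontier Q, t • y = r • w → r = t ∧ y = w := by
    intro y hy r hr w hw h
    have h1 := gin y hy
    rw [h, gfr r hr w hw] at h1
    have h2 : r = t := le_antisymm h1 hr.1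
    rw [h2] at h
    exact ⟨h2, f4_smul_inj ht h⟩
  have top : ∀ r ∈ Icc t 1, ∀ w ∈ frontier Q, r • w ∈ frontier Q → r • w = w := by
    intro r hr w hw h
    have h1 := (hF _).1 h
    rw [gfr r hr w hw] at h1
    rw [h1, one_smul]
  have pol : ∀ r ∈ Icc t 1, ∀ w ∈ frontier Q, ∀ r' ∈ Icc t 1, ∀ w' ∈ frontier Q,
      r • w = r' • w' → w = w' := by
    intro r hr w hw r' hr' w' hw' h
    have h1 := gfr r hr w hw
    rw [h, gfr r' hr' w' hw'] at h1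
    rw [h1] at h
    exact f4_smul_inj (by linarith [hr.1]) h
  have one : (1 : ℝ) ∈ Icc t 1 := ⟨ht'.le, le_rfl⟩
  have tt : t ∈ Icc t 1 := ⟨le_rfl, ht'.le⟩
  have mE1 : ∀ e ∈ C.E, (fun z : ℂ => t • z) '' e ∈ C1.E := fun e he => by
    rw [hE]; exact ⟨e, he, rfl⟩
  have mD1 : ∀ d ∈ C.D, ((fun z : ℂ => t • z) '' d.1, (fun z : ℂ => t • z) '' d.2) ∈ C1.D :=
    fun d hd => by rw [hD]; exact ⟨d, hd, rfl⟩
  have oE1 : ∀ e ∈ C1.E, e ∈ (fun e => (fun z : ℂ => t • z) '' e) '' C.E := fun e he => by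
    rwa [hE] at he
  have oD1 : ∀ d ∈ C1.D, d ∈ (fun d : Set ℂ × Set ℂ =>
      ((fun z : ℂ => t • z) '' d.1, (fun z : ℂ => t • z) '' d.2)) '' C.D := fun d hd => by
    rwa [hD] at hd
  refine ⟨⟨(fun z => t • z) '' C.P ∪ C.P ∩ frontier Q,
    (fun e => (fun z => t • z) '' e) '' C.E ∪ {e ∈ C.E | e ⊆ frontier Q} ∪
      (fun p => cone t {p}) '' (C.P ∩ frontier Q),
    (fun d : Set ℂ × Set ℂ => ((fun z : ℂ => t • z) '' d.1, (fun z : ℂ => t • z) '' d.2)) '' C.D ∪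
      (fun e => (cone t e, (fun z => t • z) '' e ∪ e ∪ cone t (e ∩ C.P))) ''
        {e ∈ C.E | e ⊆ frontier Q},
    ?_, ?_, ?_, ?_, ?_, ?_, ?_, ?_, ?_, ?_, ?_, ?_⟩, rfl, rfl, ?_⟩
  · exact (C.finP.image _).union (C.finP.inter_of_left _)
  · exact ((C.finE.image _).union (C.finE.subset fun e he => he.1)).union
      ((C.finP.inter_of_left _).image _)
  · exact (C.finD.image _).union ((C.finE.subset fun e he => he.1).image _)
  · rintro _ ((⟨e, he, rfl⟩ | ⟨he, hf⟩) | ⟨p, ⟨hp, hf⟩, rfl⟩)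
    · obtain ⟨a, b, h1, h2⟩ := C1.arc _ (mE1 e he)
      refine ⟨a, b, h1, ?_⟩
      rw [← h2, hP, inter_union_distrib_left]
      refine union_eq_left.2 ?_
      rintro _ ⟨⟨y, hy, rfl⟩, -, h⟩
      exact absurd h (nin y (a4_e C he hy))
    · obtain ⟨a, b, h1, h2⟩ := C.arc _ he
      refine ⟨a, b, h1, ?_⟩
      rw [← h2]
      ext x
      constructor
      · rintro ⟨hx, ⟨y, hy, rfl⟩ | h⟩
        · exact absurd (hf hx) (nin y (a4_p C hy))
        · exact ⟨hx, h.1⟩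
      · exact fun h => ⟨h.1, Or.inr ⟨h.2, hf h.1⟩⟩
    · have hp0 : p ≠ 0 := by
        rintro rfl
        exact hf.2 h0
      refine ⟨t • p, p, f4_arc ht' hp0, ?_⟩
      ext x
      constructor
      · rintro ⟨⟨r, hr, w, hw, rfl⟩, h⟩
        rw [mem_singleton_iff.1 hw] at h ⊢
        rcases h with ⟨y, hy, h⟩ | h
        · rw [(low y (a4_p C hy) r hr p hf h).1]
          exact Or.inl rfl
        · exact Or.inr (top r hr p hf h.2)
      · rintro (rfl | rfl)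
        · exact ⟨⟨t, tt, p, rfl, rfl⟩, Or.inl ⟨p, hp, rfl⟩⟩
        · exact ⟨⟨1, one, x, rfl, (one_smul _ _).symm⟩, Or.inr ⟨hp, hf⟩⟩
  · rintro _ ((⟨e, he, rfl⟩ | ⟨he, hf⟩) | ⟨p, ⟨hp, hf⟩, rfl⟩) _
      ((⟨e', he', rfl⟩ | ⟨he', hf'⟩) | ⟨p', ⟨hp', hf'⟩, rfl⟩) hne
    · exact fun x hx => Or.inl (hP ▸ C1.ee _ (mE1 e he) _ (mE1 e' he') hne hx)
    · rintro _ ⟨⟨y, hy, rfl⟩, h⟩
      exact absurd (hf' h) (nin y (a4_e C he hy))
    · rintro _ ⟨⟨y, hy, rfl⟩, r, hr, w, hw, h⟩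
      rw [mem_singleton_iff.1 hw] at h
      exact Or.inl ⟨p', hp', by rw [(low y (a4_e C he hy) r hr p' hf' h).2]⟩
    · rintro _ ⟨h, ⟨y, hy, rfl⟩⟩
      exact absurd (hf h) (nin y (a4_e C he' hy))
    · exact fun x hx => Or.inr ⟨C.ee _ he _ he' hne hx, hf hx.1⟩
    · rintro _ ⟨h, r, hr, w, hw, rfl⟩
      rw [mem_singleton_iff.1 hw] at h ⊢
      rw [top r hr p' hf' (hf h)]
      exact Or.inr ⟨hp', hf'⟩
    · rintro _ ⟨⟨r, hr, w, hw, h⟩, y, hy, rfl⟩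
      rw [mem_singleton_iff.1 hw] at h
      exact Or.inl ⟨p, hp, by rw [(low y (a4_e C he' hy) r hr p hf h).2]⟩
    · rintro _ ⟨⟨r, hr, w, hw, rfl⟩, h⟩
      rw [mem_singleton_iff.1 hw] at h ⊢
      rw [top r hr p hf (hf' h)]
      exact Or.inr ⟨hp, hf⟩
    · rintro _ ⟨⟨r, hr, w, hw, rfl⟩, r', hr', w', hw', h⟩
      rw [mem_singleton_iff.1 hw, mem_singleton_iff.1 hw'] at h
      exact absurd (by rw [pol r hr p hf r' hr' p' hf' h]) hne
  · rintro _ (⟨d, hd, rfl⟩ | ⟨e, ⟨he, hf⟩, rfl⟩)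
    · exact C1.dsc _ (mD1 d hd)
    · obtain ⟨a, b, h1, h2⟩ := C.arc _ he
      show Dsc (cone t e) ((fun z => t • z) '' e ∪ e ∪ cone t (e ∩ C.P))
      rw [h2]
      exact f4_dsc hg ht ht' h1 fun w hw => (hF w).1 (hf hw)
  · rintro _ (⟨d, hd, rfl⟩ | ⟨e, ⟨he, hf⟩, rfl⟩) x hx
    · obtain ⟨e, he, h1, h2⟩ := C1.bdy _ (mD1 d hd) x hx
      exact ⟨e, Or.inl (Or.inl (oE1 e he)), h1, h2⟩
    · rcases hx with (hx | hx) | ⟨r, hr, w, hw, rfl⟩
      · exact ⟨_, Or.inl (Or.inl ⟨e, he, rfl⟩), hx, fun y hy => Or.inl (Or.inl hy)⟩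
      · exact ⟨e, Or.inl (Or.inr ⟨he, hf⟩), hx, fun y hy => Or.inl (Or.inr hy)⟩
      · exact ⟨_, Or.inr ⟨w, ⟨hw.2, hf hw.1⟩, rfl⟩, ⟨r, hr, w, rfl, rfl⟩,
          fun y hy => Or.inr (f4_cone_mono (singleton_subset_iff.2 hw) hy)⟩
  · rintro _ (⟨d, hd, rfl⟩ | ⟨e, ⟨he, hf⟩, rfl⟩) _
      ((⟨e', he', rfl⟩ | ⟨he', hf'⟩) | ⟨p', ⟨hp', hf'⟩, rfl⟩)
    · exact C1.de _ (mD1 d hd) _ (mE1 e' he')
    · rintro _ ⟨⟨y, hy, rfl⟩, h⟩
      exact absurd (hf' h) (nin y ((a4_d C hd).1 hy))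
    · rintro _ ⟨⟨y, hy, rfl⟩, r, hr, w, hw, h⟩
      rw [mem_singleton_iff.1 hw] at h
      have h1 := (low y ((a4_d C hd).1 hy) r hr p' hf' h).2
      obtain ⟨e, he, h2⟩ := C.pe p' hp'
      exact ⟨y, C.de d hd e he ⟨hy, h1 ▸ h2⟩, rfl⟩
    · rintro _ ⟨⟨r, hr, w, hw, h⟩, y, hy, rfl⟩
      exact Or.inl (Or.inl ⟨w, hw, by rw [(low y (a4_e C he' hy) r hr w (hf hw) h).2]⟩)
    · rintro _ ⟨⟨r, hr, w, hw, rfl⟩, h⟩
      rw [top r hr w (hf hw) (hf' h)]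
      exact Or.inl (Or.inr hw)
    · rintro _ ⟨⟨r, hr, w, hw, rfl⟩, r', hr', w', hw', h⟩
      rw [mem_singleton_iff.1 hw'] at h
      have h1 := pol r hr w (hf hw) r' hr' p' hf' h
      exact Or.inr ⟨r, hr, w, ⟨hw, h1 ▸ hp'⟩, rfl⟩
  · rintro _ (⟨d, hd, rfl⟩ | ⟨e, ⟨he, hf⟩, rfl⟩) _ (⟨d', hd', rfl⟩ | ⟨e', ⟨he', hf'⟩, rfl⟩) hne
    · exact C1.dd _ (mD1 d hd) _ (mD1 d' hd') hne
    · rintro _ ⟨⟨y, hy, rfl⟩, r, hr, w, hw, h⟩
      have h1 := (low y ((a4_d C hd).1 hy) r hr w (hf' hw) h).2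
      exact ⟨y, C.de d hd e' he' ⟨hy, h1 ▸ hw⟩, rfl⟩
    · rintro _ ⟨⟨r, hr, w, hw, h⟩, y, hy, rfl⟩
      exact Or.inl (Or.inl ⟨w, hw, by rw [(low y ((a4_d C hd').1 hy) r hr w (hf hw) h).2]⟩)
    · rintro _ ⟨⟨r, hr, w, hw, rfl⟩, r', hr', w', hw', h⟩
      have h1 := pol r hr w (hf hw) r' hr' w' (hf' hw') h
      have h2 : e ≠ e' := by
        rintro rfl
        exact hne rfl
      exact Or.inr ⟨r, hr, w, ⟨hw, C.ee e he e' he' h2 ⟨hw, h1 ▸ hw'⟩⟩, rfl⟩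
  · rintro p (hp | hp)
    · obtain ⟨e, he, h⟩ := C1.pe p (hP ▸ hp)
      exact ⟨e, Or.inl (Or.inl (oE1 e he)), h⟩
    · exact ⟨_, Or.inr ⟨p, hp, rfl⟩, 1, one, p, rfl, (one_smul _ _).symm⟩
  · rintro _ ((⟨e, he, rfl⟩ | ⟨he, hf⟩) | ⟨p, ⟨hp, hf⟩, rfl⟩)
    · obtain ⟨d, hd, h⟩ := C1.ed _ (mE1 e he)
      exact ⟨d, Or.inl (oD1 d hd), h⟩
    · exact ⟨_, Or.inr ⟨_, ⟨he, hf⟩, rfl⟩, fun y hy => Or.inl (Or.inr hy)⟩
    · obtain ⟨e, he, h1, h2⟩ := hfr p hf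
      exact ⟨_, Or.inr ⟨e, ⟨he, h2⟩, rfl⟩,
        fun y hy => Or.inr (f4_cone_mono (singleton_subset_iff.2 (mem_inter h1 hp)) hy)⟩
  · ext z
    simp only [mem_iUnion, exists_prop]
    constructor
    · rintro ⟨_, ⟨d, hd, rfl⟩ | ⟨e, ⟨he, hf⟩, rfl⟩, hz⟩
      · obtain ⟨y, hy, rfl⟩ := hz
        exact (hQg _).2 ((gin y ((a4_d C hd).1 hy)).trans ht'.le)
      · obtain ⟨r, hr, w, hw, rfl⟩ := hz
        exact (hQg _).2 ((gfr r hr w (hf hw)).le.trans hr.2)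
    · intro hz
      by_cases h : g z ≤ t
      · have h1 : t⁻¹ • z ∈ Q := by
          rw [hQg, hg _ (inv_nonneg.2 ht.le), inv_mul_le_iff₀ ht, mul_one]
          exact h
        rw [← C.cover] at h1
        simp only [mem_iUnion, exists_prop] at h1
        obtain ⟨d, hd, h1⟩ := h1
        exact ⟨_, Or.inl ⟨d, hd, rfl⟩, _, h1, smul_inv_smul₀ ht.ne' z⟩
      · have h2 : 0 < g z := by linarith only [ht, h]
        have h1 : (g z)⁻¹ • z ∈ frontier Q := by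
          rw [hF, hg _ (inv_nonneg.2 h2.le), inv_mul_cancel₀ h2.ne']
        obtain ⟨e, he, h3, h4⟩ := hfr _ h1
        exact ⟨_, Or.inr ⟨e, ⟨he, h4⟩, rfl⟩, g z, ⟨(not_le.1 h).le, (hQg z).1 hz⟩, _, h3,
          (smul_inv_smul₀ h2.ne' z).symm⟩
  · rintro _ (⟨d, hd, rfl⟩ | ⟨e, ⟨he, hf⟩, rfl⟩)
    · exact Or.inl ⟨d, hd, rfl⟩
    · exact Or.inr ⟨e, he, hf, rfl⟩

theorem cone_basic {Q : Set ℂ} (hQ : IsCompact Q) (hc : Convex ℝ Q) (h0 : (0 : ℂ) ∈ interior Q)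
    {t : ℝ} (ht : 0 < t) (ht' : t < 1) : (∀ z ∈ Q, t • z ∈ interior Q) ∧
      ∀ e ⊆ frontier Q, cone t e ∩ frontier Q = e ∧
        ∀ z ∈ Q, t • z ∈ cone t e → z ∈ e := by
  obtain ⟨g, hg, hQg, hF, hI⟩ := f4_gauge hQ hc h0
  have gin : ∀ y ∈ Q, g (t • y) ≤ t := fun y hy => by
    rw [hg t ht.le]
    nlinarith only [(hQg y).1 hy, ht]
  have gfr : ∀ r ∈ Icc t 1, ∀ w ∈ frontier Q, g (r • w) = r := fun r hr w hw => by
    rw [hg r (by linarith [hr.1]), (hF w).1 hw, mul_one]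
  refine ⟨fun z hz => (hI _).2 ((gin z hz).trans_lt ht'), fun e he => ⟨?_, ?_⟩⟩
  · ext x
    constructor
    · rintro ⟨⟨r, hr, w, hw, rfl⟩, h⟩
      have h1 := (hF _).1 h
      rw [gfr r hr w (he hw)] at h1
      rw [h1, one_smul]
      exact hw
    · exact fun hx => ⟨⟨1, ⟨ht'.le, le_rfl⟩, x, hx, (one_smul _ _).symm⟩, he hx⟩
  · rintro z hz ⟨r, hr, w, hw, h⟩
    have h1 := gin z hz
    rw [h, gfr r hr w (he hw)] at h1
    rw [le_antisymm h1 hr.1] at h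
    rw [f4_smul_inj ht h]
    exact hw

end Pool.Agent.MP_17e62b_gt.T55

end

section

/-!
Pushing a complex forward; walks in connected sets of edges.
-/

namespace Pool.Agent.MP_17e62b_gt.T55

open Set Metric Topology

variable {M : Type} [TopologicalSpace M] [T2Space M]

/-- `Θ` may identify points of `F` only, and maps `F` to the edges of `G`. Plan: the image of an
edge inside `F` is an edge of `G` (`a4_arc`). An edge that is not inside `F` meets `F` in points of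
`C.P` only. A cell meets `F` in its boundary only. -/
theorem Cells.push {X : Type} [TopologicalSpace X] [T2Space X] {A F : Set X} (C : Cells A)
    {B : Set M} (G : Cells B) {Θ : X → M} (hc : ContinuousOn Θ A) (hF : F ⊆ A)
    (h1 : ∀ d ∈ C.D, InjOn Θ d.1) (h2 : ∀ x ∈ A, ∀ y ∈ A, Θ x = Θ y → x = y ∨ (x ∈ F ∧ y ∈ F))
    (h3 : ∀ x ∈ F, ∃ e ∈ C.E, x ∈ e ∧ e ⊆ F) (h4 : ∀ x ∈ F, x ∈ C.P ↔ Θ x ∈ G.P)
    (h5 : ∀ x ∈ F, Θ x ∈ ⋃₀ G.E) :
    ∃ C' : Cells (Θ '' A), C'.P = Θ '' C.P ∧ C'.E = (fun e => Θ '' e) '' C.E ∧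
      C'.D = (fun d => (Θ '' d.1, Θ '' d.2)) '' C.D ∧ ∀ e ∈ C.E, e ⊆ F → Θ '' e ∈ G.E := by
  have ie : ∀ e ∈ C.E, InjOn Θ e := fun e he => by
    obtain ⟨d, hd, h⟩ := C.ed e he
    exact (h1 d hd).mono (h.trans (C.dsc d hd).basic.2.2.1)
  have eF : ∀ e ∈ C.E, ¬ e ⊆ F → ∀ x ∈ e, x ∈ F → x ∈ C.P := fun e he q x hx hxF => by
    obtain ⟨e', he', r, t⟩ := h3 x hxF
    exact C.ee e he e' he' (fun u => q (u ▸ t)) ⟨hx, r⟩
  have dF : ∀ d ∈ C.D, ∀ x ∈ d.1, x ∈ F → x ∈ d.2 := fun d hd x hx hxF => by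
    obtain ⟨e, he, r, -⟩ := h3 x hxF
    exact C.de d hd e he ⟨hx, r⟩
  have hP : ∀ x ∈ A, Θ x ∈ Θ '' C.P → x ∈ C.P := by
    rintro x hx ⟨p, hp, q⟩
    obtain rfl | ⟨r, t⟩ := h2 p (a4_p C hp) x hx q
    · exact hp
    · exact (h4 x t).2 (q ▸ (h4 p r).1 hp)
  have eG : ∀ e ∈ C.E, e ⊆ F → Θ '' e ∈ G.E := fun e he q => by
    obtain ⟨a, b, g, h⟩ := C.arc e he
    refine a4_arc G (a2_map g (hc.mono (a4_e C he)) (ie e he)) ?_ ?_
    · rintro _ ⟨x, hx, rfl⟩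
      exact h5 x (q hx)
    · rw [← image_pair, ← h]
      refine Subset.antisymm ?_ ?_
      · rintro _ ⟨⟨x, hx, rfl⟩, r⟩
        exact ⟨x, ⟨hx, (h4 x (q hx)).2 r⟩, rfl⟩
      · rintro _ ⟨x, hx, rfl⟩
        exact ⟨⟨x, hx.1, rfl⟩, (h4 x (q hx.1)).1 hx.2⟩
  have dA : ∀ d ∈ C.D, ∀ x ∈ d.1, ∀ y ∈ A, Θ y = Θ x → (y = x → x ∈ d.2) → Θ x ∈ Θ '' d.2 :=
    fun d hd x hx y hy q r => by
      obtain t | t := h2 y hy x ((a4_d C hd).1 hx) q
      exacts [⟨x, r t, rfl⟩, ⟨x, dF d hd x hx t.2, rfl⟩]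
  refine ⟨⟨Θ '' C.P, (fun e => Θ '' e) '' C.E, (fun d => (Θ '' d.1, Θ '' d.2)) '' C.D,
    C.finP.image _, C.finE.image _, C.finD.image _, ?_, ?_, ?_, ?_, ?_, ?_, ?_, ?_, ?_⟩,
    rfl, rfl, rfl, eG⟩
  · rintro _ ⟨e, he, rfl⟩
    obtain ⟨a, b, g, h⟩ := C.arc e he
    refine ⟨Θ a, Θ b, a2_map g (hc.mono (a4_e C he)) (ie e he), ?_⟩
    rw [← image_pair, ← h]
    refine Subset.antisymm ?_ (image_inter_subset _ _ _)
    rintro _ ⟨⟨x, hx, rfl⟩, r⟩
    exact ⟨x, ⟨hx, hP x (a4_e C he hx) r⟩, rfl⟩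
  · rintro _ ⟨e, he, rfl⟩ _ ⟨e', he', rfl⟩ h _ ⟨⟨x, hx, rfl⟩, y, hy, q⟩
    obtain rfl | ⟨r, t⟩ := h2 y (a4_e C he' hy) x (a4_e C he hx) q
    · exact ⟨y, C.ee e he e' he' (fun u => h (u ▸ rfl)) ⟨hx, hy⟩, rfl⟩
    by_cases u : e ⊆ F
    · by_cases u' : e' ⊆ F
      · exact ⟨x, (h4 x t).2 (G.ee _ (eG e he u) _ (eG e' he' u') h ⟨⟨x, hx, rfl⟩, y, hy, q⟩), rfl⟩
      · exact ⟨y, eF e' he' u' y hy r, q⟩
    · exact ⟨x, eF e he u x hx t, rfl⟩
  · rintro _ ⟨d, hd, rfl⟩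
    obtain ⟨γ, g1, g2, g3, g4⟩ := C.dsc d hd
    have m : MapsTo γ (closedBall 0 1) d.1 := fun t ht => g3 ▸ mem_image_of_mem γ ht
    exact ⟨Θ ∘ γ, (hc.mono (a4_d C hd).1).comp g1 m, (h1 d hd).comp g2 m, by rw [image_comp, g3],
      by rw [image_comp, g4]⟩
  · rintro _ ⟨d, hd, rfl⟩ _ ⟨x, hx, rfl⟩
    obtain ⟨e, he, p, q⟩ := C.bdy d hd x hx
    exact ⟨_, mem_image_of_mem _ he, mem_image_of_mem _ p, image_mono q⟩
  · rintro _ ⟨d, hd, rfl⟩ _ ⟨e, he, rfl⟩ _ ⟨⟨x, hx, rfl⟩, y, hy, q⟩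
    exact dA d hd x hx y (a4_e C he hy) q fun r => C.de d hd e he ⟨hx, r ▸ hy⟩
  · rintro _ ⟨d, hd, rfl⟩ _ ⟨d', hd', rfl⟩ h _ ⟨⟨x, hx, rfl⟩, y, hy, q⟩
    exact dA d hd x hx y ((a4_d C hd').1 hy) q fun r =>
      C.dd d hd d' hd' (fun u => h (u ▸ rfl)) ⟨hx, r ▸ hy⟩
  · rintro _ ⟨p, hp, rfl⟩
    obtain ⟨e, he, h⟩ := C.pe p hp
    exact ⟨_, mem_image_of_mem _ he, mem_image_of_mem _ h⟩
  · rintro _ ⟨e, he, rfl⟩
    obtain ⟨d, hd, h⟩ := C.ed e he
    exact ⟨_, mem_image_of_mem _ hd, image_mono h⟩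
  · rw [biUnion_image, ← image_iUnion₂, C.cover]

/-- Plan: let `R` be the set of points reached from `p`; the edges that meet `R` and the other edges
form two closed sets that cover `s` and do not meet in `s`. -/
theorem Cells.walk {A : Set M} (C : Cells A) {s : Set M} (hs : IsPreconnected s)
    (h : s ⊆ ⋃₀ C.E) {p q : M} (hp : p ∈ s ∩ C.P) (hq : q ∈ s ∩ C.P) :
    Relation.ReflTransGen (fun a b => b ∈ s ∩ C.P ∧ ∃ e ∈ C.E, a ∈ e ∧ b ∈ e) p q := by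
  set R : Set M := {x | Relation.ReflTransGen
    (fun a b => b ∈ s ∩ C.P ∧ ∃ e ∈ C.E, a ∈ e ∧ b ∈ e) p x}
  have cl : ∀ Q : Set M → Prop, IsClosed (⋃ e ∈ {e ∈ C.E | Q e}, e) := fun Q =>
    (C.finE.subset (sep_subset _ _)).isClosed_biUnion fun e he => by
      obtain ⟨a, b, g, -⟩ := C.arc e he.1
      exact g.basic.1.isClosed
  have st : ∀ x ∈ s ∩ C.P, ∀ e ∈ C.E, (e ∩ R).Nonempty → x ∈ e → x ∈ R :=
    fun x hx e he ⟨r, r1, r2⟩ hxe => Relation.ReflTransGen.tail r2 ⟨hx, e, he, r1, hxe⟩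
  obtain k | k := isPreconnected_iff_subset_of_disjoint_closed.1 hs _ _
    (cl fun e => (e ∩ R).Nonempty) (cl fun e => ¬ (e ∩ R).Nonempty) (fun x hx => by
      obtain ⟨e, he, r⟩ := h hx
      by_cases u : (e ∩ R).Nonempty
      exacts [Or.inl (mem_iUnion₂.2 ⟨e, ⟨he, u⟩, r⟩), Or.inr (mem_iUnion₂.2 ⟨e, ⟨he, u⟩, r⟩)])
    (eq_empty_of_forall_notMem fun x hx => by
      obtain ⟨e, he, r⟩ := mem_iUnion₂.1 hx.2.1
      obtain ⟨e', he', r'⟩ := mem_iUnion₂.1 hx.2.2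
      exact he'.2 ⟨x, r', st x ⟨hx.1, C.ee e he.1 e' he'.1 (fun u => he'.2 (u ▸ he.2)) ⟨r, r'⟩⟩
        e he.1 he.2 r⟩)
  · obtain ⟨e, he, r⟩ := mem_iUnion₂.1 (k hq.1)
    exact st q hq e he.1 he.2 r
  · obtain ⟨e, he, r⟩ := mem_iUnion₂.1 (k hp.1)
    exact absurd ⟨p, r, Relation.ReflTransGen.refl⟩ he.2

/-- A map that is injective on each set of a finite closed cover is injective on an arc whose inner
points lie in one set of the cover only. -/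
theorem Arc.injOn {X : Type} [TopologicalSpace X] [T2Space X] {e : Set X} {a b : X} (h : Arc e a b)
    {ι : Type} [Finite ι] {R : ι → Set X} (h1 : ∀ i, IsClosed (R i)) (h2 : e ⊆ ⋃ i, R i)
    (h3 : ∀ i k, i ≠ k → e ∩ R i ∩ R k ⊆ {a, b}) {Θ : X → M} (h4 : ∀ i, InjOn Θ (R i)) :
    InjOn Θ e := by
  obtain ⟨-, -, ha, -, -, hc, hcl⟩ := h.basic
  obtain ⟨x, hx⟩ := closure_nonempty_iff.1 ⟨a, hcl ha⟩
  obtain ⟨i, hi⟩ := mem_iUnion.1 (h2 hx.1)
  have dj : ∀ y ∈ e \ {a, b}, y ∈ R i → y ∉ ⋃ k : {k // i ≠ k}, R k := fun y hy p q => by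
    obtain ⟨k, hk⟩ := mem_iUnion.1 q
    exact hy.2 (h3 i k k.2 ⟨⟨hy.1, p⟩, hk⟩)
  refine (h4 i).mono (hcl.trans (closure_minimal
    ((isPreconnected_iff_subset_of_disjoint_closed.1 hc (R i) _ (h1 i)
      (isClosed_iUnion_of_finite fun k : {k // i ≠ k} => h1 k) (fun y hy => ?_)
      (eq_empty_of_forall_notMem fun y hy => dj y hy.1 hy.2.1 hy.2.2)).resolve_right
        fun q => dj x hx hi (q hx)) (h1 i)))
  obtain ⟨k, hk⟩ := mem_iUnion.1 (h2 hy.1)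
  by_cases q : i = k
  exacts [Or.inl (q ▸ hk), Or.inr (mem_iUnion.2 ⟨⟨k, q⟩, hk⟩)]

/-- An edge of `G` that contains a point of a cell outside `G.P` lies in its boundary. -/
theorem Cells.edge_sub {A : Set M} (G : Cells A) {d : Set M × Set M} (hd : d ∈ G.D) {x : M}
    (hx : x ∈ d.1) : (x ∈ G.P → x ∈ d.2) ∧ ∀ e ∈ G.E, x ∈ e → x ∉ G.P → e ⊆ d.2 := by
  refine ⟨fun hp => ?_, fun e he hxe hp => ?_⟩
  · obtain ⟨e, he, r⟩ := G.pe x hp
    exact G.de d hd e he ⟨hx, r⟩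
  · obtain ⟨e', he', r, t⟩ := G.bdy d hd x (G.de d hd e he ⟨hx, hxe⟩)
    by_cases q : e = e'
    exacts [q ▸ t, absurd (G.ee e he e' he' q ⟨hxe, r⟩) hp]

end Pool.Agent.MP_17e62b_gt.T55

end
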