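import Pool.Agent.MP_17e62b_gt.Mg.T55_MB2
import Pool.Agent.MP_17e62b_gt.Mg.T55_MB1

section

/-!
Operations that keep the invariant.
-/

namespace Pool.Agent.MP_17e62b_gt.T55

open Set Metric Topology
open scoped InnerProductSpace Manifold

variable {V : Type} [Fintype V] [DecidableEq V] {T : Finset (Finset V)}
variable {n : ℕ} {F : V → EuclideanSpace ℝ (Fin n)}

variable {N m : ℕ} {ω ρ r s : ℝ} {B₀ S Y : Set V} {root : V → V} {X : Fin m → Set V}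
  {Z : Fin m → Bool → Set V}

theorem b11_ess {B B' : Set V} (hB : B ⊆ B')
    (h : ∀ v ∈ B, (∃ b ∈ B₀, Jn T B v b) ∨ ∃ z, Cyc T {u | Jn T B v u} z ∧ ¬ ∃ Q, d2 T Q = z)
    (h' : ∀ v ∈ B', (∃ s ∈ B, Jn T B' v s) ∨
      ∃ z, Cyc T {u | Jn T B' v u} z ∧ ¬ ∃ Q, d2 T Q = z) :
    ∀ v ∈ B', (∃ b ∈ B₀, Jn T B' v b) ∨ ∃ z, Cyc T {u | Jn T B' v u} z ∧ ¬ ∃ Q, d2 T Q = z := by
  intro v hv
  rcases h' v hv with ⟨s, hs, hj⟩ | h1
  · rcases h s hs with ⟨b, hb, hsb⟩ | ⟨z, hz, hn⟩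
    · exact Or.inl ⟨b, hb, hj.trans (hsb.mono hB)⟩
    · exact Or.inr ⟨z, ⟨hz.1.mono fun u hu => hj.trans (Jn.mono hu hB), hz.2⟩, hn⟩
  · exact Or.inr h1

theorem b11_nb {U U' A : Set V} {r' : ℝ} (hU : U' ⊆ U) (hr : r' ≤ r) :
    nb T F U' r' A ⊆ nb T F U r A := by
  rintro v ⟨K, hK, hv, hn⟩
  exact ⟨K, hK.mono (hK.1.trans hU) hr, hv, hn⟩

/-- An axis survives when `S` grows and the scale drops. -/
theorem b11_axis (hT : IsSurf T) {S' A : Set V} {W : Bool → Set V} {ρ' r' : ℝ}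
    (ha : Axis T F ρ r S (S ∪ Y)ᶜ A W) (hS : S ⊆ S') (hA : A ⊆ (S' ∪ Y)ᶜ) (hρ : ρ ≤ ρ')
    (hr : r' ≤ r)
    (hd : ∀ v ∈ S', ∃ w, w ∉ hull T S (nb T F (S ∪ Y)ᶜ r A) ∧
      Jn T (hull T S' (nb T F (S' ∪ Y)ᶜ r' A))ᶜ v w)
    (hn : ∀ K, Pc T F (S' ∪ Y)ᶜ r' K → Tch T K S' → K ∩ A ⊆ W false ∪ W true) :
    Axis T F ρ' r' S' (S' ∪ Y)ᶜ A W := by
  have hU : (S' ∪ Y)ᶜ ⊆ (S ∪ Y)ᶜ := compl_subset_compl.2 (union_subset_union_left _ hS)
  refine ⟨hA, ha.conn, ha.acyc, fun i => ?_, ?_, hn, fun K hK =>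
    ha.long K (hK.mono (hK.1.trans hU) hr)⟩
  · obtain ⟨h1, h2, h3, h4, u, hu, s, hs, hus⟩ := ha.zone i
    exact ⟨h1, h2, h3, fun a ha b hb => (h4 a ha b hb).trans hρ, u, hu, s, hS hs, hus⟩
  · refine acyc_sub hT ha.disc ?_ fun v hv => ?_
    · rintro v hv ⟨s, hs, hj⟩
      exact hv ⟨s, hS hs, hj.mono (compl_subset_compl.2 (b11_nb hU hr))⟩
    · obtain ⟨s, hs, hj⟩ := hull_out hv
      obtain ⟨w, hw, hj'⟩ := hd s hs
      exact ⟨w, hw, hj.trans hj'⟩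

theorem b11_disj {A : Set V} : Disjoint (hull T S (nb T F (S ∪ Y)ᶜ r A)) S :=
  hull_disj (Set.disjoint_left.2 fun _ hv hs => nb_sub hv (Or.inl hs))

omit [Fintype V] [DecidableEq V] in
theorem b11_cons (X' : Set V) (X : Fin m → Set V) :
    (⋃ j, (Fin.cons X' X : Fin (m + 1) → Set V) j) = X' ∪ ⋃ j, X j := by
  ext v
  simp only [iUnion_cons, mem_union, mem_iUnion]

omit [Fintype V] [DecidableEq V] in
theorem b11_sep {U X' : Set V}
    (h : ∀ j k, j ≠ k → ∀ K, Pc T F U r K → (K ∩ X j).Nonempty → ¬ (K ∩ X k).Nonempty)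
    (hs : ∀ j K, Pc T F U r K → (K ∩ X').Nonempty → ¬ (K ∩ X j).Nonempty) :
    ∀ j k, j ≠ k → ∀ K, Pc T F U r K → (K ∩ (Fin.cons X' X : Fin (m + 1) → Set V) j).Nonempty →
      ¬ (K ∩ (Fin.cons X' X : Fin (m + 1) → Set V) k).Nonempty := by
  intro j k hjk K hK
  refine Fin.cases ?_ (fun j => ?_) j hjk <;> refine Fin.cases ?_ (fun k => ?_) k <;> intro hjk
  · exact absurd rfl hjk
  · simpa only [Fin.cons_zero, Fin.cons_succ] using hs k K hK
  · simpa only [Fin.cons_zero, Fin.cons_succ] using fun h1 h2 => hs j K hK h2 h1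
  · simpa only [Fin.cons_succ] using h j k (fun h => hjk (by rw [h])) K hK

/-- Plan: a vertex of `B` in the hull has its whole component of `B` in the hull (`hull_adj`);
`Inv.ess`. -/
theorem Inv.sys (hT : IsSurf T) (h : Inv T F N ρ r B₀ S Y root m X Z) (hs : Sys T F B₀ s) :
    Sys T F (S ∪ Y ∪ ⋃ j, X j) s := by
  intro A hA
  have hB : B₀ ⊆ S ∪ Y ∪ ⋃ j, X j := h.sub.trans subset_union_left
  obtain ⟨h1, h2⟩ := hs A (hA.mono (hA.1.trans (compl_subset_compl.2 hB)) le_rfl)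
  refine ⟨h1, fun v hv hvB => ?_⟩
  have key : ∀ u, Jn T (S ∪ Y ∪ ⋃ j, X j) v u → u ∈ hull T (Bd T) A := by
    intro u hu
    by_contra hn
    obtain ⟨a, b, ha, -, hb, hab⟩ := hu.exit hv hn
    exact hb (hull_adj ha.right.2 (fun haA => hA.1 haA ha.right.1) hab)
  rcases h.ess v hvB with ⟨b, hb, hj⟩ | ⟨z, hz, hn⟩
  · exact h2 (key b hj) hb
  · obtain ⟨Q, -, hQ⟩ := h1 z ⟨hz.1.mono key, hz.2⟩
    exact hn ⟨Q, hQ⟩

/-- Small cycles outside `B` bound away from `B` (`Sys`, `Inv.ess`, `status_jn`). -/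
theorem Inv.small (hT : IsSurf T) (h : Inv T F N ρ r B₀ S Y root m X Z) (hs : Sys T F B₀ s)
    {K : Set V} (hK : Pc T F (S ∪ Y ∪ ⋃ j, X j)ᶜ s K) {z : V → V → ZMod 2} (hz : Cyc T K z) :
    Bnd T (S ∪ Y ∪ ⋃ j, X j) z := by
  obtain ⟨h1, h2⟩ := h.sys hT hs K hK
  exact h1.bnd (Set.disjoint_left.2 fun v hv => h2 hv) ⟨hz.1.mono subset_hull, hz.2⟩

/-- Absorbing small sets that touch `S`. -/
theorem Inv.grow (hT : IsSurf T) (hF : Sad T F ω) (h : Inv T F N ρ r B₀ S Y root m X Z)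
    {E : Bool → Set V} {R r' : ℝ} (hE : ∀ i, Pc T F (S ∪ Y ∪ ⋃ j, X j)ᶜ R (E i) ∧ Tch T (E i) S)
    (h0 : 0 ≤ r') (hr : r' + R + ω ≤ r) :
    ∃ root', Inv T F N (ρ + 2 * R + 2 * ω) r' B₀ (S ∪ (E false ∪ E true)) Y root' m X Z := by
  have hω := hF.nonneg
  have hR : 0 ≤ R := by
    obtain ⟨u, hu, -⟩ := (hE false).2
    simpa only [dist_self] using (hE false).1.2.2 u hu u hu
  have hEi : ∀ v ∈ E false ∪ E true, ∃ i, v ∈ E i := by
    rintro v (hv | hv)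
    exacts [⟨_, hv⟩, ⟨_, hv⟩]
  have hsub : ∀ i, E i ⊆ E false ∪ E true := by
    rintro (_ | _)
    exacts [subset_union_left, subset_union_right]
  have hES : ∀ i, ∀ v ∈ E i, v ∉ S := fun i v hv hs => (hE i).1.1 hv (Or.inl (Or.inl hs))
  have hjn : ∀ i, ∀ v ∈ E i, ∃ u s, Jn T (E i) v u ∧ s ∈ S ∧ Adj T u s := by
    intro i v hv
    obtain ⟨u, hu, s, hs, hus⟩ := (hE i).2
    exact ⟨u, s, (hE i).1.2.1 v hv u hu, hs, hus⟩
  have hjn' : ∀ A : Set V, S ∪ (E false ∪ E true) ⊆ A → ∀ v ∈ S ∪ (E false ∪ E true),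
      ∃ s ∈ S, Jn T A v s := by
    rintro A hA v (hv | hv)
    · exact ⟨v, hv, Jn.refl (hA (Or.inl hv))⟩
    · obtain ⟨i, hi⟩ := hEi v hv
      obtain ⟨u, s, hu, hs, hus⟩ := hjn i v hi
      exact ⟨s, hs, (hu.mono fun a ha => hA (Or.inr (hsub i ha))).step (hA (Or.inl hs)) hus⟩
  obtain ⟨root', hb, -⟩ := h.base.absorb hF (K := E false ∪ E true) (R := 2 * R + ω)
    (Set.disjoint_left.2 fun v hv hy => by
      obtain ⟨i, hi⟩ := hEi v hv
      exact (hE i).1.1 hi (Or.inl (Or.inr hy)))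
    (by linarith)
    (fun v hv _ => by
      obtain ⟨i, hi⟩ := hEi v hv
      obtain ⟨u, s, hu, hs, hus⟩ := hjn i v hi
      exact ⟨u, s, hu.mono fun a ha => ⟨hsub i ha, hES i a ha⟩, hs, hus⟩)
    (fun v u hj => by
      obtain ⟨i, hi⟩ := hEi v hj.1.1
      by_cases hu : u ∈ E i
      · linarith [(hE i).1.2.2 v hi u hu]
      · obtain ⟨a, b, ha, hb, hbi, hab⟩ := hj.exit hi hu
        obtain ⟨k, hk⟩ := hEi b hb.1
        obtain ⟨l, hl⟩ := hEi u hj.right.1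
        have hkl : k = l := by
          have h1 : k ≠ i := fun e => hbi (e ▸ hk)
          have h2 : l ≠ i := fun e => hu (e ▸ hl)
          revert h1 h2
          cases i <;> cases k <;> cases l <;> simp
        subst hkl
        have h1 := (hE i).1.2.2 v hi a ha.right.2
        have h2 := hF.jump a b hab
        have h3 := (hE k).1.2.2 b hk u hl
        linarith [dist_triangle4 (F v) (F a) (F b) (F u)])
  have hU : (S ∪ (E false ∪ E true) ∪ Y)ᶜ ⊆ (S ∪ Y)ᶜ :=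
    compl_subset_compl.2 (union_subset_union_left _ subset_union_left)
  refine ⟨root', hb.mono le_rfl (by linarith),
    h.sub.trans (union_subset_union_left _ subset_union_left), fun j => ?_,
    fun j k hjk K hK => h.sep j k hjk K (hK.mono (hK.1.trans hU) (by linarith)), ?_⟩
  · refine b11_axis hT (h.axis j) subset_union_left ?_ (by linarith) (by linarith) ?_ ?_
    · rintro v hv ((hs | he) | hy)
      · exact (h.axis j).sub hv (Or.inl hs)
      · obtain ⟨i, hi⟩ := hEi v he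
        exact (hE i).1.1 hi (Or.inr (mem_iUnion.2 ⟨j, hv⟩))
      · exact (h.axis j).sub hv (Or.inr hy)
    · intro v hv
      obtain ⟨s, hs, hj⟩ := hjn' _ (fun a ha hh => Set.disjoint_left.1 b11_disj hh ha) v hv
      exact ⟨s, fun hh => Set.disjoint_left.1 b11_disj hh hs, hj⟩
    · rintro K hK ⟨u, hu, s, hs | hs, hus⟩
      · exact (h.axis j).near K (hK.mono (hK.1.trans hU) (by linarith)) ⟨u, hu, s, hs, hus⟩
      · obtain ⟨i, hi⟩ := hEi s hs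
        have h1 : Pc T F (S ∪ Y)ᶜ R (E i) :=
          (hE i).1.mono ((hE i).1.1.trans (compl_subset_compl.2 subset_union_left)) le_rfl
        have h2 := (hK.mono (hK.1.trans hU) le_rfl).union_adj hF h1 ⟨u, hu, s, hi, hus⟩
        obtain ⟨a, ha, b, hb, hab⟩ := (hE i).2
        exact (inter_subset_inter_left _ subset_union_left).trans
          ((h.axis j).near _ (h2.mono h2.1 hr) ⟨a, Or.inr ha, b, hb, hab⟩)
  · refine b11_ess (union_subset_union_left _ (union_subset_union_left _ subset_union_left))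
      h.ess fun v hv => Or.inl ?_
    rcases hv with (hv | hv) | hv
    · obtain ⟨s, hs, hj⟩ := hjn' _ (subset_union_left.trans subset_union_left) v hv
      exact ⟨s, Or.inl (Or.inl hs), hj⟩
    · exact ⟨v, Or.inl (Or.inr hv), Jn.refl (Or.inl (Or.inr hv))⟩
    · exact ⟨v, Or.inr hv, Jn.refl (Or.inr hv)⟩

/-- Adding an axis that is attached to `S`. -/
theorem Inv.cons (h : Inv T F N ρ r B₀ S Y root m X Z) {X' : Set V} {Z' : Bool → Set V}
    (ha : Axis T F ρ r S (S ∪ Y)ᶜ X' Z')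
    (hs : ∀ j K, Pc T F (S ∪ Y)ᶜ r K → (K ∩ X').Nonempty → ¬ (K ∩ X j).Nonempty) :
    Inv T F N ρ r B₀ S Y root (m + 1) (Fin.cons X' X) (Fin.cons Z' Z) := by
  refine ⟨h.base, h.sub, fun j => Fin.cases ha (fun j => h.axis j) j, b11_sep h.sep hs, ?_⟩
  rw [b11_cons]
  refine b11_ess (union_subset_union_right _ subset_union_right) h.ess fun v hv => Or.inl ?_
  rcases hv with hv | hv | hv
  · exact ⟨v, Or.inl hv, Jn.refl (Or.inl hv)⟩
  · obtain ⟨h1, -, -, -, u, hu, s, hs, hus⟩ := ha.zone false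
    exact ⟨s, Or.inl (Or.inl hs), ((ha.conn v hv u (h1 hu)).mono fun a ha =>
      Or.inr (Or.inl ha)).step (Or.inl (Or.inl hs)) hus⟩
  · exact ⟨v, Or.inr hv, Jn.refl (Or.inr (Or.inr hv))⟩

/-- Adding a new class `E` far from the old axes together with an axis that closes it up. Plan for
`Axis.disc` of an old axis: a cycle bounds in the old acyclic set; the filling vanishes at `S`; if
it does not vanish at `E`, the connected set `E ∪ X'` lies in the old acyclic set and `z` bounds. -/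
theorem Inv.node (hT : IsSurf T) (hF : Sad T F ω) (h : Inv T F N ρ r B₀ S Y root m X Z)
    {E X' : Set V} {Z' : Bool → Set V} {R r' : ℝ} (hE : Pc T F (S ∪ Y ∪ ⋃ j, X j)ᶜ R E)
    (hR : R ≤ ρ) (h0 : 0 ≤ r') (hr : r' ≤ r)
    (hfar : ∀ j K, Pc T F (S ∪ Y)ᶜ (r' + R + ω) K → (K ∩ E).Nonempty → ¬ (K ∩ X j).Nonempty)
    (ha : Axis T F ρ r' (S ∪ E) (S ∪ E ∪ Y)ᶜ X' Z')
    (hs : ∀ j K, Pc T F (S ∪ E ∪ Y)ᶜ r' K → (K ∩ X').Nonempty → ¬ (K ∩ X j).Nonempty)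
    (ht : Tch T X' E) {z : V → V → ZMod 2} (hz : Cyc T (E ∪ X') z) (hn : ¬ ∃ Q, d2 T Q = z) :
    ∃ root', Inv T F (N + 1) ρ r' B₀ (S ∪ E) Y root' (m + 1) (Fin.cons X' X) (Fin.cons Z' Z) := by
  have hE' : Pc T F (S ∪ Y)ᶜ R E :=
    hE.mono (hE.1.trans (compl_subset_compl.2 subset_union_left)) le_rfl
  have hne : E.Nonempty := by
    obtain ⟨-, -, e, he, -⟩ := ht
    exact ⟨e, he⟩
  obtain ⟨root', hb, -⟩ := h.base.new (hE'.mono hE'.1 hR) hne
  have hU : (S ∪ E ∪ Y)ᶜ ⊆ (S ∪ Y)ᶜ :=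
    compl_subset_compl.2 (union_subset_union_left _ subset_union_left)
  have hc : Conn T (E ∪ X') := hE.2.1.union ha.conn (Or.inr ht.symm)
  refine ⟨root', hb, h.sub.trans (union_subset_union_left _ subset_union_left),
    fun j => ?_,
    b11_sep (fun j k hjk K hK => h.sep j k hjk K (hK.mono (hK.1.trans hU) hr)) hs, ?_⟩
  · refine Fin.cases ha (fun j => ?_) j
    simp only [Fin.cons_succ]
    refine b11_axis hT (h.axis j) subset_union_left ?_ le_rfl hr ?_ ?_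
    · rintro v hv ((hs | he) | hy)
      · exact (h.axis j).sub hv (Or.inl hs)
      · exact hE.1 he (Or.inr (mem_iUnion.2 ⟨j, hv⟩))
      · exact (h.axis j).sub hv (Or.inr hy)
    · rintro v (hv | hv)
      · exact ⟨v, fun hh => Set.disjoint_left.1 b11_disj hh hv,
          Jn.refl fun hh => Set.disjoint_left.1 b11_disj hh (Or.inl hv)⟩
      · have h1 : E ∪ X' ⊆ (nb T F (S ∪ E ∪ Y)ᶜ r' (X j))ᶜ := by
          rintro a (ha | ha) hn
          · exact nb_sub hn (Or.inl (Or.inr ha))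
          · obtain ⟨K, hK, haK, hKj⟩ := hn
            exact hs j K hK ⟨a, haK, ha⟩ hKj
        have h2 : E ∪ X' ⊆ (hull T (S ∪ E) (nb T F (S ∪ E ∪ Y)ᶜ r' (X j)))ᶜ := fun a ha hh =>
          hh ⟨v, Or.inr hv, (hc a ha v (Or.inl hv)).mono h1⟩
        have h3 : ¬ E ∪ X' ⊆ hull T S (nb T F (S ∪ Y)ᶜ r (X j)) := fun hh => by
          obtain ⟨Q, -, hQ⟩ := (h.axis j).disc z ⟨hz.1.mono hh, hz.2⟩
          exact hn ⟨Q, hQ⟩
        obtain ⟨w, hw, hw'⟩ := not_subset.1 h3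
        exact ⟨w, hw', (hc v (Or.inl hv) w hw).mono h2⟩
    · rintro K hK ⟨u, hu, s, hs | hs, hus⟩
      · exact (h.axis j).near K (hK.mono (hK.1.trans hU) hr) ⟨u, hu, s, hs, hus⟩
      · have h2 := (hK.mono (hK.1.trans hU) le_rfl).union_adj hF hE' ⟨u, hu, s, hs, hus⟩
        intro a ha
        exact absurd ⟨a, Or.inl ha.1, ha.2⟩ (hfar j _ h2 ⟨s, Or.inr hs, hs⟩)
  · rw [b11_cons]
    have hsub : E ∪ X' ⊆ S ∪ E ∪ Y ∪ (X' ∪ ⋃ j, X j) := by
      rintro a (ha | ha)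
      exacts [Or.inl (Or.inl (Or.inr ha)), Or.inr (Or.inl ha)]
    have hB : (S ∪ Y ∪ ⋃ j, X j) ⊆ S ∪ E ∪ Y ∪ (X' ∪ ⋃ j, X j) :=
      union_subset_union (union_subset_union_left _ subset_union_left) subset_union_right
    refine b11_ess hB h.ess fun v hv => ?_
    by_cases hv' : v ∈ E ∪ X'
    · exact Or.inr ⟨z, ⟨hz.1.mono fun u hu => (hc v hv' u hu).mono hsub, hz.2⟩, hn⟩
    · refine Or.inl ⟨v, ?_, Jn.refl hv⟩
      rcases hv with ((hv | hv) | hv) | hv | hv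
      exacts [Or.inl (Or.inl hv), absurd (Or.inl hv) hv', Or.inl (Or.inr hv),
        absurd (Or.inr hv) hv', Or.inr hv]

end Pool.Agent.MP_17e62b_gt.T55

end

section

/-!
From axes to bands.
-/

namespace Pool.Agent.MP_17e62b_gt.T55

open Set Metric Topology
open scoped InnerProductSpace Manifold

variable {V : Type} [Fintype V] [DecidableEq V] {T : Finset (Finset V)}
variable {n : ℕ} {F : V → EuclideanSpace ℝ (Fin n)}

theorem b12_nb_mono {U X : Set V} {r r' : ℝ} (hr : r ≤ r') : nb T F U r X ⊆ nb T F U r' X := by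
  rintro v ⟨K, hK, hv, hX⟩
  exact ⟨K, hK.mono hK.1 hr, hv, hX⟩

theorem b12_hull_mono {R A A' : Set V} (h : A ⊆ A') : hull T R A ⊆ hull T R A' := by
  rintro v hv ⟨s, hs, hj⟩
  exact hv ⟨s, hs, hj.mono (compl_subset_compl.2 h)⟩

theorem b12_sub {S Y X : Set V} {r : ℝ} (hY' : ∀ y ∈ Y, ∃ s ∈ S, Jn T (S ∪ Y) y s) :
    hull T S (nb T F (S ∪ Y)ᶜ r X) ⊆ (S ∪ Y)ᶜ := by
  have hsub : S ∪ Y ⊆ (nb T F (S ∪ Y)ᶜ r X)ᶜ := fun u hu hn => nb_sub hn hu
  rintro v hv (hS | hY)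
  · exact hv ⟨v, hS, Jn.refl (hsub (Or.inl hS))⟩
  · obtain ⟨s, hs, hj⟩ := hY' v hY
    exact hv ⟨s, hs, hj.mono hsub⟩

omit [Fintype V] in
theorem b12_edge_zero {W : Set V} {a b x y : V} (ha : a ∈ W) (hb : b ∉ W) (hx : x ∈ W)
    (hne : (a, b) ≠ (x, y)) : edge a b x y = 0 := by
  unfold edge
  rw [if_neg]
  rintro ⟨-, ⟨rfl, rfl⟩ | ⟨rfl, rfl⟩⟩
  · exact hne rfl
  · exact hb hx

omit [Fintype V] [DecidableEq V] in
theorem b12_adj {a b : V} {t : Finset V} {W : Set V} (ht : t ∈ T) (ha : a ∈ t) (hb : b ∈ t)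
    (haW : a ∈ W) (hbW : b ∉ W) : Adj T a b :=
  ⟨fun e => hbW (e ▸ haW), t, ht, ha, hb⟩

omit [Fintype V] [DecidableEq V] in
theorem b12_step {W : Set V} {A : Set (Finset V)} {t t' : Finset V} {w v : V} (ht : t ∈ A)
    (ht' : t' ∈ A) (hw : w ∈ W) (hv : v ∉ W) (h1 : w ∈ t ∧ v ∈ t) (h2 : w ∈ t' ∧ v ∈ t') :
    FJn W A t t' :=
  ⟨ht, Relation.ReflTransGen.single ⟨ht', w, hw, v, hv, h1.1, h1.2, h2.1, h2.2⟩⟩

theorem b12_zmod (a : ZMod 2) (h : a ≠ 0) : a + 1 = 0 := by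
  revert a
  decide

/-- A side between two edges that vanishes at a third edge. -/
theorem b12_side (hT : IsSurf T) {W : Set V} (hc : Conn T W) (ha : Acyc T W)
    (hb : Disjoint W (Bd T)) {w₀ v₀ w₁ v₁ x y : V} (h0 : w₀ ∈ W) (h0' : v₀ ∉ W)
    (a0 : Adj T w₀ v₀) (h1 : w₁ ∈ W) (h1' : v₁ ∉ W) (a1 : Adj T w₁ v₁) (hx : x ∈ W) (hy : y ∉ W)
    (axy : Adj T x y) (n0 : (w₀, v₀) ≠ (x, y)) (n1 : (w₁, v₁) ≠ (x, y)) :
    ∃ L, Side T W L (edge w₀ v₀ + edge w₁ v₁) ∧ ∀ s ∈ T, x ∈ s → y ∈ s → L s = 0 := by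
  obtain ⟨L, hL⟩ := side_exists hT hc ha hb h0 h0' a0 h1 h1' a1
  obtain ⟨-, t, ht, hxt, hyt⟩ := axy
  have hg : (edge w₀ v₀ + edge w₁ v₁ : V → V → ZMod 2) x y = 0 := by
    simp only [Pi.add_apply, b12_edge_zero h0 h0' hx n0, b12_edge_zero h1 h1' hx n1, add_zero]
  have key : ∀ s ∈ T, x ∈ s → y ∈ s → L s = L t := fun s hs h h' =>
    (side_same hT hb hL hx hy hs ht ⟨h, h'⟩ ⟨hxt, hyt⟩).1 hg
  by_cases h : L t = 0
  · exact ⟨L, hL, fun s hs h1 h2 => (key s hs h1 h2).trans h⟩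
  · obtain ⟨L', hL', he⟩ := side_compl hT hb hL
    refine ⟨L', hL', fun s hs h1 h2 => ?_⟩
    rw [he s ⟨hs, ⟨x, h1, hx⟩, y, h2, hy⟩, key s hs h1 h2]
    exact b12_zmod _ h

omit [Fintype V] in
theorem b12_three (hT : IsSurf T) {u v : V} (huv : u ≠ v) {a b c : Finset V} (ha : a ∈ T)
    (hb : b ∈ T) (hc : c ∈ T) (h1 : u ∈ a ∧ v ∈ a) (h2 : u ∈ b ∧ v ∈ b) (h3 : u ∈ c ∧ v ∈ c)
    (hac : a ≠ c) (hbc : b ≠ c) : a = b := by
  by_contra hab
  have hsub : ({a, b, c} : Finset (Finset V)) ⊆ T.filter fun t => u ∈ t ∧ v ∈ t := by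
    intro s hs
    simp only [Finset.mem_insert, Finset.mem_singleton] at hs
    rcases hs with rfl | rfl | rfl <;> simp [*]
  have h3 := Finset.card_le_card hsub
  rw [Finset.card_eq_three.2 ⟨a, b, c, hab, hac, hbc, rfl⟩] at h3
  have := hT.two u v huv
  unfold deg at this
  omega

/-- A side is constant along a joined family that misses one triangle on each end edge. -/
theorem b12_const (hT : IsSurf T) {W : Set V} (hb : Disjoint W (Bd T)) {x y : Bool → V}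
    {L : Finset V → ZMod 2} (hL : Side T W L (edge (x false) (y false) + edge (x true) (y true)))
    (hx : ∀ j, x j ∈ W ∧ y j ∉ W) {τ : Bool → Finset V}
    (hτ : ∀ j, τ j ∈ T ∧ x j ∈ τ j ∧ y j ∈ τ j) {A : Set (Finset V)} (hA : ∀ t ∈ A, t ∈ T)
    (hn : ∀ j, τ j ∉ A) {t t' : Finset V} (h : FJn W A t t') : L t = L t' := by
  obtain ⟨ht, h⟩ := h
  have key : t' ∈ A ∧ L t = L t' := by
    induction h with
    | refl => exact ⟨ht, rfl⟩
    | @tail a b _ hab ih =>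
      obtain ⟨hb', w, hw, v, hv, hwa, hva, hwb, hvb⟩ := hab
      refine ⟨hb', ih.2.trans ?_⟩
      by_cases hj : ∃ j, (x j, y j) = (w, v)
      · obtain ⟨j, hj⟩ := hj
        obtain ⟨rfl, rfl⟩ := Prod.mk.inj hj
        have : a = b := b12_three hT (fun e : x j = y j => hv (e ▸ hw)) (hA a ih.1) (hA b hb') (hτ j).1
          ⟨hwa, hva⟩ ⟨hwb, hvb⟩ (hτ j).2 (fun e => hn j (e ▸ ih.1)) (fun e => hn j (e ▸ hb'))
        rw [this]
      · push Not at hj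
        refine (side_same hT hb hL hw hv (hA a ih.1) (hA b hb') ⟨hwa, hva⟩ ⟨hwb, hvb⟩).1 ?_
        simp only [Pi.add_apply, b12_edge_zero (hx false).1 (hx false).2 hw (hj false),
          b12_edge_zero (hx true).1 (hx true).2 hw (hj true), add_zero]
  exact key.2

/-- Plan: `W = hull S (nb Fr (r/5) X)`. Fix edges `e i` from `Z i` to `S`. An edge from `W` to `S`
is of type `i` if a set of size `r/5` joins its inner end to `Z i` (`Axis.near`, `Axis.long`). For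
such an edge `e ≠ e i` let `L e` be the side between `e i` and `e` that vanishes at the other
fixed edge (`side_exists`, `side_compl`); `L i` is the union of their supports and of the
triangles on edges of type `i`. `lconn`: `side_conn`. An inner vertex of a triangle of `L i` is
joined to `Z i` by a set of size `2r/5` (`side_ext`, `status_jn` on the connected set `X \ Z i`).
`wide`: `K` misses `X`, so it touches one side only (`side_cross`); the side between two edges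
on the same side that vanishes at `e false` misses `L false ∪ L true` (`side_inter`). -/
theorem Axis.band (hT : IsSurf T) {ω ρ r : ℝ} (hF : Sad T F ω) (hω : 20 * ω ≤ r)
    {S Y U X : Set V} {Z : Bool → Set V} (hb : Bd T ⊆ S) (h : Axis T F ρ r S (S ∪ Y)ᶜ X Z)
    (hY : ∀ u, u ∉ S ∪ Y → ∀ y ∈ Y, ¬ Adj T u y) (hY' : ∀ y ∈ Y, ∃ s ∈ S, Jn T (S ∪ Y) y s)
    (hU : ∀ a ∈ hull T S (nb T F (S ∪ Y)ᶜ (r / 5) X), ∀ b,
      b ∉ hull T S (nb T F (S ∪ Y)ᶜ (r / 5) X) → Adj T a b → b ∈ S ∪ U) :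
    hull T S (nb T F (S ∪ Y)ᶜ (r / 5) X) ⊆ (S ∪ Y)ᶜ ∧
      ∃ L, Band T F (2 * ρ + 2 * r) (r / 20) S U (hull T S (nb T F (S ∪ Y)ᶜ (r / 5) X)) L ∧
        ∀ i, ∀ t ∈ L i, ∀ u ∈ t, u ∈ hull T S (nb T F (S ∪ Y)ᶜ (r / 5) X) →
          ∃ K, Pc T F (hull T S (nb T F (S ∪ Y)ᶜ (r / 5) X)) (2 * r / 5) K ∧ u ∈ K ∧
            (K ∩ Z i).Nonempty ∧ K ∩ X ⊆ Z i := by
  have hω0 := hF.nonneg
  have hr : 0 ≤ r := by linarith
  have hWF := b12_sub (T := T) (F := F) (X := X) (r := r / 5) hY'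
  refine ⟨hWF, ?_⟩
  obtain ⟨W, hW⟩ : ∃ W, W = hull T S (nb T F (S ∪ Y)ᶜ (r / 5) X) := ⟨_, rfl⟩
  obtain ⟨A, hA⟩ : ∃ A, A = nb T F (S ∪ Y)ᶜ (r / 5) X := ⟨_, rfl⟩
  have hSne : S.Nonempty := hT.bd.mono hb
  have hc : Conn T W := hW ▸ hull_conn hT hSne (nb_conn h.sub (by linarith only [hω, hω0]) h.conn)
  have ha : Acyc T W := by
    rw [hW]
    refine acyc_hull hT fun z hz => h.disc.bnd (hull_disj ?_) ⟨hz.1.mono ?_, hz.2⟩
    · exact disjoint_left.2 fun u hu hS => nb_sub hu (Or.inl hS)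
    · exact b12_hull_mono (b12_nb_mono (by linarith))
  have hKW : ∀ K, Pc T F (S ∪ Y)ᶜ (r / 5) K → (K ∩ X).Nonempty → K ⊆ W := fun K hK hX u hu =>
    hW ▸ subset_hull ⟨K, hK, hu, hX⟩
  have hin : ∀ a ∈ W, ∀ b, b ∉ W → Adj T a b →
      ∃ K, Pc T F (S ∪ Y)ᶜ (r / 5) K ∧ a ∈ K ∧ (K ∩ X).Nonempty := by
    intro a haW b hbW hab
    by_contra hn
    exact hbW (hW ▸ hull_adj (hW ▸ haW) hn hab)
  rw [← hW] at hWF hU ⊢
  clear hW hA A
  have hWS : ∀ s ∈ S, s ∉ W := fun s hs hw => hWF hw (Or.inl hs)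
  have hbd : Disjoint W (Bd T) := disjoint_left.2 fun u hu hb' => hWS u (hb hb') hu
  have hXW : X ⊆ W := fun x hx =>
    hKW {x} (pc_single (h.sub hx) (by linarith)) ⟨x, rfl, hx⟩ rfl
  have hZX : ∀ i, Z i ⊆ X := fun i => (h.zone i).1
  have hlong : ∀ i K, Pc T F (S ∪ Y)ᶜ r K → (K ∩ Z i).Nonempty → ¬ (K ∩ Z (!i)).Nonempty := by
    intro i K hK h1 h2
    cases i
    · exact h.long K hK h1 h2
    · exact h.long K hK h2 h1
  choose w hw v hv hwv using fun i => (h.zone i).2.2.2.2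
  have hwW : ∀ i, w i ∈ W := fun i => hXW (hZX i (hw i))
  have hvW : ∀ i, v i ∉ W := fun i => hWS _ (hv i)
  choose τ hτ hwτ hvτ using fun i => (hwv i).2
  have hρ : 0 ≤ ρ := by simpa only [dist_self] using (h.zone false).2.2.2.1 _ (hw false) _ (hw false)
  -- edges of type `i`
  obtain ⟨Ty, hTy⟩ : ∃ Ty : Bool → V → V → Prop, ∀ i a b, Ty i a b ↔ (a ∈ W ∧ b ∈ S ∧ Adj T a b ∧
      ∃ K, Pc T F (S ∪ Y)ᶜ (r / 5) K ∧ a ∈ K ∧ (K ∩ Z i).Nonempty) := ⟨_, fun _ _ _ => Iff.rfl⟩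
  have hTyw : ∀ i, Ty i (w i) (v i) := fun i => (hTy _ _ _).2 ⟨hwW i, hv i, hwv i, {w i},
    pc_single (hWF (hwW i)) (by linarith only [hω, hω0]), rfl, w i, rfl, hw i⟩
  have hTyn : ∀ i a b, Ty i a b → (a, b) ≠ (w (!i), v (!i)) := by
    intro i a b hab e
    obtain ⟨rfl, rfl⟩ := Prod.mk.inj e
    obtain ⟨-, -, -, K, hK, haK, hKZ⟩ := (hTy _ _ _).1 hab
    exact hlong i K (hK.mono hK.1 (by linarith only [hω, hω0])) hKZ ⟨_, haK, hw _⟩
  have hTye : ∀ a ∈ W, ∀ b ∈ S, Adj T a b → ∃ i, Ty i a b := by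
    intro a haW b hbS hab
    obtain ⟨K, hK, haK, x, hxK, hxX⟩ := hin a haW b (hWS b hbS) hab
    rcases h.near K (hK.mono hK.1 (by linarith)) ⟨a, haK, b, hbS, hab⟩ ⟨hxK, hxX⟩ with hz | hz
    · exact ⟨false, (hTy _ _ _).2 ⟨haW, hbS, hab, K, hK, haK, x, hxK, hz⟩⟩
    · exact ⟨true, (hTy _ _ _).2 ⟨haW, hbS, hab, K, hK, haK, x, hxK, hz⟩⟩
  obtain ⟨L, hL⟩ : ∃ L : Bool → Set (Finset V), ∀ i t, t ∈ L i ↔ (t ∈ T ∧ ∃ a b, Ty i a b ∧
      ((a ∈ t ∧ b ∈ t) ∨ ((w i, v i) ≠ (a, b) ∧ ∃ Lc, Side T W Lc (edge (w i) (v i) + edge a b) ∧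
        (∀ s ∈ T, w (!i) ∈ s → v (!i) ∈ s → Lc s = 0) ∧ Lc t ≠ 0))) :=
    ⟨fun i => {t | _}, fun _ _ => Iff.rfl⟩
  have hLT : ∀ i, ∀ t ∈ L i, t ∈ T := fun i t ht => ((hL i t).1 ht).1
  have hL1 : ∀ i a b, Ty i a b → ∀ t ∈ T, a ∈ t → b ∈ t → t ∈ L i := fun i a b hab t ht h1 h2 =>
    (hL i t).2 ⟨ht, a, b, hab, Or.inl ⟨h1, h2⟩⟩
  have hτL : ∀ i, τ i ∈ L i := fun i => hL1 i _ _ (hTyw i) _ (hτ i) (hwτ i) (hvτ i)
  have hmix : ∀ i, ∀ t ∈ L i, Mixed T W t := by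
    intro i t ht
    obtain ⟨htT, a, b, hab, ⟨h1, h2⟩ | ⟨-, Lc, hLc, -, h0⟩⟩ := (hL i t).1 ht
    · obtain ⟨haW, hbS, -⟩ := (hTy _ _ _).1 hab
      exact ⟨htT, ⟨a, h1, haW⟩, b, h2, hWS b hbS⟩
    · exact hLc.1 t htT h0
  -- every triangle of `L i` is joined to `τ i`
  have hjoin2 : ∀ i a b, Ty i a b → (w i, v i) ≠ (a, b) → ∀ Lc,
      Side T W Lc (edge (w i) (v i) + edge a b) →
      (∀ s ∈ T, w (!i) ∈ s → v (!i) ∈ s → Lc s = 0) →
      (∀ t ∈ T, Lc t ≠ 0 → FJn W (L i) t (τ i)) ∧ ∃ t ∈ T, Lc t ≠ 0 ∧ a ∈ t ∧ b ∈ t := by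
    intro i a b hab hne Lc hLc h0
    obtain ⟨haW, hbS, hab', -⟩ := (hTy _ _ _).1 hab
    obtain ⟨h1, ⟨t₀, ht₀, h2, h3⟩, h4⟩ := side_conn hT hc ha hbd hLc (hwW i) (hvW i) (hwv i) haW
      (hWS b hbS) hab' hne
    have hsub : {s | s ∈ T ∧ Lc s ≠ 0} ⊆ L i := fun s hs =>
      (hL i s).2 ⟨hs.1, a, b, hab, Or.inr ⟨hne, Lc, hLc, h0, hs.2⟩⟩
    refine ⟨fun t ht h5 => ((h1 t ⟨ht, h5⟩ t₀ ⟨ht₀, h2⟩).mono hsub).trans ?_, h4⟩
    exact b12_step (hsub ⟨ht₀, h2⟩) (hτL i) (hwW i) (hvW i) h3 ⟨hwτ i, hvτ i⟩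
  have hjoin : ∀ i, ∀ t ∈ L i, FJn W (L i) t (τ i) := by
    intro i t ht
    obtain ⟨htT, a, b, hab, ⟨h1, h2⟩ | ⟨hne, Lc, hLc, h0, h1⟩⟩ := (hL i t).1 ht
    · obtain ⟨haW, hbS, hab', -⟩ := (hTy _ _ _).1 hab
      by_cases hne : (w i, v i) = (a, b)
      · obtain ⟨rfl, rfl⟩ := Prod.mk.inj hne
        exact b12_step ht (hτL i) (hwW i) (hvW i) ⟨h1, h2⟩ ⟨hwτ i, hvτ i⟩
      · obtain ⟨Lc, hLc, h0⟩ := b12_side hT hc ha hbd (hwW i) (hvW i) (hwv i) haW (hWS b hbS) hab'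
          (hwW (!i)) (hvW (!i)) (hwv (!i)) (hTyn i _ _ (hTyw i)) (hTyn i _ _ hab)
        obtain ⟨h3, t₁, ht₁, h4, h5⟩ := hjoin2 i a b hab hne Lc hLc h0
        exact (b12_step ht (hL1 i a b hab t₁ ht₁ h5.1 h5.2) haW (hWS b hbS) ⟨h1, h2⟩ h5).trans
          (h3 t₁ ht₁ h4)
    · exact (hjoin2 i a b hab hne Lc hLc h0).1 t htT h1
  -- inner vertices of triangles of `L i` are close to `Z i`
  have hclose' : ∀ i, ∀ t ∈ L i, ∀ u ∈ t, u ∈ W →
      ∃ K, Pc T F W (2 * r / 5) K ∧ u ∈ K ∧ (K ∩ Z i).Nonempty ∧ K ∩ X ⊆ Z i := by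
    intro i t ht u hut huW
    have hm := hmix i t ht
    obtain ⟨htT, a, b, hab, hcase⟩ := (hL i t).1 ht
    obtain ⟨haW, hbS, hab', K₀, hK₀, haK, z, hzK, hzZ⟩ := (hTy _ _ _).1 hab
    have hKZ : ∀ K, Pc T F (S ∪ Y)ᶜ r K → a ∈ K → z ∈ K → K ∩ X ⊆ Z i := by
      rintro K hK h1 h2 x ⟨hx, hxX⟩
      have hn : x ∉ Z (!i) := fun hh => hlong i K hK ⟨z, h2, hzZ⟩ ⟨x, hx, hh⟩
      have := h.near K hK ⟨a, h1, b, hbS, hab'⟩ ⟨hx, hxX⟩
      cases i
      · exact this.resolve_right hn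
      · exact this.resolve_left hn
    have hK₀r := hK₀.mono hK₀.1 (show r / 5 ≤ r by linarith only [hω, hω0])
    have hK₀X : K₀ ∩ X ⊆ Z i := hKZ K₀ hK₀r haK hzK
    have hK₀W : K₀ ⊆ W := hKW K₀ hK₀ ⟨z, hzK, hZX i hzZ⟩
    rcases hcase with ⟨h1, -⟩ | ⟨-, Lc, hLc, h0, h1⟩
    · by_cases hua : u = a
      · exact ⟨K₀, hK₀.mono hK₀W (by linarith only [hω, hω0]), hua ▸ haK, ⟨z, hzK, hzZ⟩, hK₀X⟩
      · have := hK₀.union_adj hF (pc_single (hWF huW) le_rfl)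
          ⟨a, haK, u, rfl, Ne.symm hua, t, htT, h1, hut⟩
        exact ⟨_, this.mono (union_subset hK₀W (singleton_subset_iff.2 huW)) (by linarith),
          Or.inr rfl, ⟨z, Or.inl hzK, hzZ⟩,
          hKZ _ (this.mono this.1 (by linarith)) (Or.inl haK) (Or.inl hzK)⟩
    · obtain ⟨-, -, y, hyt, hyW⟩ := id hm
      obtain ⟨K₁, hK₁, huK, hKX⟩ := hin u huW y hyW (b12_adj htT hut hyt huW hyW)
      have hK₁W := hKW K₁ hK₁ hKX
      by_cases hc1 : u ∈ Z i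
      · exact ⟨{u}, pc_single huW (by linarith only [hω, hω0]), rfl, ⟨u, rfl, hc1⟩, fun x hx => hx.1 ▸ hc1⟩
      by_cases hc2 : u ∈ K₀
      · exact ⟨K₀, hK₀.mono hK₀W (by linarith only [hω, hω0]), hc2, ⟨z, hzK, hzZ⟩, hK₀X⟩
      obtain ⟨D, hDe⟩ : ∃ D, D = {k | Jn T (K₁ \ (Z i ∪ K₀)) u k} := ⟨_, rfl⟩
      have hDc : Conn T D := hDe ▸ conn_comp _ _
      have hDs : D ⊆ K₁ \ (Z i ∪ K₀) := fun k hk => by
        rw [hDe] at hk
        exact Jn.right hk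
      have huD : u ∈ D := by
        rw [hDe]
        exact Jn.refl ⟨huK, fun hh => hh.elim hc1 hc2⟩
      by_cases hDX : (D ∩ X).Nonempty
      swap
      · obtain ⟨x, hxK, hxX⟩ := id hKX
        obtain ⟨a', b', h2, h3, h4, h5⟩ := (hK₁.2.1 u huK x hxK).exit (C := D) huD
          (fun hh => hDX ⟨x, hh, hxX⟩)
        have ha' : a' ∈ D := h2.right.2
        have hb' : b' ∈ Z i ∪ K₀ := by
          by_contra hn
          refine h4 ?_
          rw [hDe] at ha' ⊢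
          exact Jn.step ha' ⟨h3, hn⟩ h5
        have hsub : D ∪ {b'} ⊆ K₁ :=
          union_subset (fun k hk => (hDs hk).1) (singleton_subset_iff.2 h3)
        have hP : Pc T F W (r / 5) (D ∪ {b'}) :=
          ⟨hsub.trans hK₁W, hDc.union (pc_single (T := T) (F := F) (mem_univ b') le_rfl).2.1
            (Or.inr ⟨a', ha', b', rfl, h5⟩), fun k hk k' hk' => hK₁.2.2 k (hsub hk) k' (hsub hk')⟩
        rcases hb' with hb' | hb'
        · refine ⟨_, hP.mono hP.1 (by linarith only [hω, hω0]), Or.inl huD, ⟨b', Or.inr rfl, hb'⟩, ?_⟩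
          rintro k ⟨hk | hk, hkX⟩
          · exact absurd ⟨k, hk, hkX⟩ hDX
          · exact hk ▸ hb'
        · have := hP.union (hK₀.mono hK₀W le_rfl) ⟨b', Or.inr rfl, hb'⟩
          refine ⟨_, this.mono this.1 (by linarith), Or.inl (Or.inl huD), ⟨z, Or.inr hzK, hzZ⟩, ?_⟩
          rintro k ⟨(hk | hk) | hk, hkX⟩
          · exact absurd ⟨k, hk, hkX⟩ hDX
          · exact hK₀X ⟨hk ▸ hb', hkX⟩
          · exact hK₀X ⟨hk, hkX⟩
      exfalso
      have hcon : Conn T (Z i ∪ K₀) := (h.zone i).2.1.union hK₀.2.1 (Or.inl ⟨z, hzZ, hzK⟩)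
      obtain ⟨p, hp, hd⟩ := (hcon (w i) (Or.inl (hw i)) a (Or.inr haK)).fill
      obtain ⟨x, hxK, hxX⟩ := id hDX
      have hD : Conn T (D ∪ (X \ Z i)) := hDc.union (h.zone i).2.2.1
        (Or.inl ⟨x, hxK, hxX, fun hh => (hDs hxK).2 (Or.inl hh)⟩)
      have hDn : ∀ k ∈ D ∪ (X \ Z i), k ∉ Z i ∪ K₀ := by
        rintro k (hk | hk) hk'
        · exact (hDs hk).2 hk'
        · rcases hk' with hk' | hk'
          · exact hk.2 hk'
          · exact hk.2 (hK₀X ⟨hk', hk.1⟩)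
      have hwn : w (!i) ∉ Z i := fun hh => hlong i {w (!i)} (pc_single (hWF (hwW _)) hr)
        ⟨_, rfl, hh⟩ ⟨_, rfl, hw _⟩
      have := side_cross hT ha hLc (hwW i) (hvW i) haW (hWS b hbS)
        (hp.mono (union_subset ((hZX i).trans hXW) hK₀W)) hd
        (union_subset (fun k hk => hK₁W (hDs hk).1) (sdiff_subset.trans hXW)) hD
        (fun k hk => ⟨fun e => hDn k hk (Or.inl (e ▸ hw i)), fun e => hDn k hk (Or.inr (e ▸ haK)),
          fun u => by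
            by_contra hne
            exact hDn k hk (hp.2 u k hne).2.1⟩)
        hm (hmix _ _ (hτL (!i))) ⟨u, hut, Or.inl huD⟩
        ⟨w (!i), hwτ _, Or.inr ⟨hZX _ (hw _), hwn⟩⟩
      exact h1 (this.trans (h0 _ (hτ _) (hwτ _) (hvτ _)))
  have hclose : ∀ i, ∀ t ∈ L i, ∀ u ∈ t, u ∈ W →
      ∃ K, Pc T F (S ∪ Y)ᶜ (2 * r / 5) K ∧ u ∈ K ∧ (K ∩ Z i).Nonempty := by
    intro i t ht u hut huW
    obtain ⟨K, hK, h1, h2, -⟩ := hclose' i t ht u hut huW
    exact ⟨K, hK.mono (hK.1.trans hWF) le_rfl, h1, h2⟩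
  have hrest : ∀ t, Mixed T W t → t ∉ L false → t ∉ L true → ∀ u ∈ t, u ∉ S := by
    intro t hm h0 h1 u hut huS
    obtain ⟨htT, ⟨a, hat, haW⟩, -⟩ := hm
    obtain ⟨i, hi⟩ := hTye a haW u huS (b12_adj htT hat hut haW (hWS u huS))
    have := hL1 i a u hi t htT hat hut
    cases i
    · exact h0 this
    · exact h1 this
  refine ⟨L, ⟨hc, ha, hmix, fun i t ht t' ht' => (hjoin i t ht).trans (hjoin i t' ht').symm, ?_, ?_,
    ?_, fun i => ⟨τ i, hτL i, v i, hvτ i, hv i⟩, ?_, ?_⟩, hclose'⟩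
  · intro t ht t' ht' u huW h1 h2
    obtain ⟨K, hK, hu, z, hz, hz'⟩ := hclose _ t ht u h1 huW
    obtain ⟨K', hK', hu', y, hy, hy'⟩ := hclose _ t' ht' u h2 huW
    have := hK.union hK' ⟨u, hu, hu'⟩
    exact h.long _ (this.mono this.1 (by linarith)) ⟨z, Or.inl hz, hz'⟩ ⟨y, Or.inr hy, hy'⟩
  · intro t hm h0 h1 u hut
    by_cases huW : u ∈ W
    · exact Or.inl huW
    obtain ⟨htT, ⟨a, hat, haW⟩, -⟩ := id hm
    exact Or.inr ((hU a haW u huW (b12_adj htT hat hut haW huW)).resolve_left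
      (hrest t hm h0 h1 u hut))
  · intro i
    have key : ∀ u ∈ {v | ∃ t ∈ L i, v ∈ t}, ∃ z ∈ Z i, dist (F u) (F z) ≤ ω + 2 * r / 5 := by
      rintro u ⟨t, ht, hut⟩
      obtain ⟨htT, ⟨a, hat, haW⟩, -⟩ := hmix i t ht
      obtain ⟨K, hK, haK, z, hz, hz'⟩ := hclose i t ht a hat haW
      refine ⟨z, hz', (dist_triangle _ (F a) _).trans (add_le_add ?_ (hK.2.2 a haK z hz))⟩
      by_cases hua : u = a
      · simp [hua, hω0]
      · exact hF.jump u a ⟨hua, t, htT, hut, hat⟩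
    intro u hu u' hu'
    obtain ⟨z, hz, h1⟩ := key u hu
    obtain ⟨z', hz', h2⟩ := key u' hu'
    have h3 := (h.zone i).2.2.2.1 z hz z' hz'
    have h4 := dist_triangle4 (F u) (F z) (F z') (F u')
    rw [dist_comm (F z')] at h4
    linarith
  · rintro K hK ⟨t, ht, u, hut, huK⟩ ⟨t', ht', u', hut', huK'⟩
    obtain ⟨K₁, hK₁, hu, z, hz, hz'⟩ := hclose _ t ht u hut (hK.1 huK)
    obtain ⟨K₂, hK₂, hu', y, hy, hy'⟩ := hclose _ t' ht' u' hut' (hK.1 huK')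
    have := (hK₁.union (hK.mono (hK.1.trans hWF) le_rfl) ⟨u, hu, huK⟩).union hK₂
      ⟨u', Or.inr huK', hu'⟩
    exact h.long _ (this.mono this.1 (by linarith)) ⟨z, Or.inl (Or.inl hz), hz'⟩
      ⟨y, Or.inr hy, hy'⟩
  · rintro K hK t t' ht ht' ⟨u, hut, huK⟩ ⟨u', hut', huK'⟩
    have hKF := hK.mono (hK.1.trans hWF) le_rfl
    have hn : ∀ i, t ∉ L i ∧ t' ∉ L i := by
      intro i
      cases i
      · exact ⟨fun hh => ht.2 (Or.inl hh), fun hh => ht'.2 (Or.inl hh)⟩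
      · exact ⟨fun hh => ht.2 (Or.inr hh), fun hh => ht'.2 (Or.inr hh)⟩
    obtain ⟨htT, -, y, hyt, hyW⟩ := id ht.1
    obtain ⟨htT', -, y', hyt', hyW'⟩ := id ht'.1
    have huW := hK.1 huK
    have huW' := hK.1 huK'
    have auy := b12_adj htT hut hyt huW hyW
    have auy' := b12_adj htT' hut' hyt' huW' hyW'
    have hKX : ∀ k ∈ K, k ∉ X := by
      intro k hk hkX
      have hyF : y ∈ (S ∪ Y)ᶜ := by
        rintro (hh | hh)
        · exact hrest t ht.1 (hn false).1 (hn true).1 y hyt hh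
        · exact hY u (hWF huW) y hh auy
      have := hKF.union_adj hF (pc_single hyF le_rfl) ⟨u, huK, y, rfl, auy⟩
      exact hyW (hKW _ (this.mono this.1 (by linarith)) ⟨k, Or.inl hk, hkX⟩ (Or.inr rfl))
    by_cases he : (u, y) = (u', y')
    · obtain ⟨rfl, rfl⟩ := Prod.mk.inj he
      exact b12_step ht ht' huW hyW ⟨hut, hyt⟩ ⟨hut', hyt'⟩
    obtain ⟨L₀, hL₀⟩ := side_exists hT hc ha hbd (hwW false) (hvW false) (hwv false) (hwW true)
      (hvW true) (hwv true)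
    obtain ⟨p, hp, hd⟩ := (h.conn _ (hZX _ (hw false)) _ (hZX _ (hw true))).fill
    have e0 : L₀ t = L₀ t' := side_cross hT ha hL₀ (hwW false) (hvW false) (hwW true) (hvW true)
      (hp.mono hXW) hd hK.1 hK.2.1
      (fun k hk => ⟨fun e => hKX k hk (e ▸ hZX _ (hw false)),
        fun e => hKX k hk (e ▸ hZX _ (hw true)), fun u => by
          by_contra hne
          exact hKX k hk (hp.2 u k hne).2.1⟩) ht.1 ht'.1 ⟨u, hut, huK⟩ ⟨u', hut', huK'⟩
    have n1 : ∀ i, (u, y) ≠ (w i, v i) := fun i e => by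
      obtain ⟨rfl, rfl⟩ := Prod.mk.inj e
      exact (hn i).1 (hL1 i _ _ (hTyw i) t htT hut hyt)
    have n2 : ∀ i, (u', y') ≠ (w i, v i) := fun i e => by
      obtain ⟨rfl, rfl⟩ := Prod.mk.inj e
      exact (hn i).2 (hL1 i _ _ (hTyw i) t' htT' hut' hyt')
    obtain ⟨L', hL', h0⟩ := b12_side hT hc ha hbd huW hyW auy huW' hyW' auy' (hwW false)
      (hvW false) (hwv false) (n1 false) (n2 false)
    have hx : ∀ j : Bool, (bif j then u' else u) ∈ W ∧ (bif j then y' else y) ∉ W := by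
      intro j
      cases j
      · exact ⟨huW, hyW⟩
      · exact ⟨huW', hyW'⟩
    have hrr : ∀ j : Bool, (bif j then t' else t) ∈ T ∧
        (bif j then u' else u) ∈ (bif j then t' else t) ∧
        (bif j then y' else y) ∈ (bif j then t' else t) := by
      intro j
      cases j
      · exact ⟨htT, hut, hyt⟩
      · exact ⟨htT', hut', hyt'⟩
    have e1 := side_inter hT hc ha hbd (w := w) (v := v) (x := fun j => bif j then u' else u)
      (y := fun j => bif j then y' else y) hL₀ hL' (fun i => ⟨hwW i, hvW i⟩) hx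
      (fun i j => by
        cases j
        · exact (n1 i).symm
        · exact (n2 i).symm) (s := τ) (r := fun j => bif j then t' else t)
      (fun i => ⟨hτ i, hwτ i, hvτ i⟩) hrr
    have e2 : ∀ i, L' (τ i) = 0 := by
      have e3 := h0 _ (hτ false) (hwτ false) (hvτ false)
      intro i
      cases i
      · exact e3
      · simp only [cond_false, cond_true, e0, e3, zero_add] at e1
        rw [e1]
        exact CharTwo.add_self_eq_zero _
    have hsub : {s | s ∈ T ∧ L' s ≠ 0} ⊆ {t | Mixed T W t} \ (L false ∪ L true) := by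
      intro s hs
      have : ∀ i, s ∉ L i := fun i hi => hs.2 ((b12_const hT hbd
        (x := fun j => bif j then u' else u) (y := fun j => bif j then y' else y) hL' hx hrr
        (hLT i) (fun j => by
          cases j
          · exact (hn i).1
          · exact (hn i).2) (hjoin i s hi)).trans (e2 i))
      exact ⟨hL'.1 s hs.1 hs.2, fun hh => hh.elim (this false) (this true)⟩
    obtain ⟨h1, ⟨t₀, ht₀, h2, h3⟩, t₁, ht₁, h4, h5⟩ :=
      side_conn hT hc ha hbd hL' huW hyW auy huW' hyW' auy' he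
    exact ((b12_step ht (hsub ⟨ht₀, h2⟩) huW hyW ⟨hut, hyt⟩ h3).trans
      ((h1 t₀ ⟨ht₀, h2⟩ t₁ ⟨ht₁, h4⟩).mono hsub)).trans
      (b12_step (hsub ⟨ht₁, h4⟩) ht' huW' hyW' h5 ⟨hut', hyt'⟩)

theorem Inv.skel (hT : IsSurf T) {ω ρ r : ℝ} (hF : Sad T F ω) (hω : 20 * ω ≤ r) (hρ : 0 ≤ ρ)
    {N m : ℕ} {B₀ S Y : Set V} {root : V → V} {X : Fin m → Set V} {Z : Fin m → Bool → Set V}
    (h : Inv T F N ρ r B₀ S Y root m X Z)
    (hn : ∀ z, Rel T (S ∪ Y ∪ ⋃ j, X j) z → Nul T (S ∪ Y ∪ ⋃ j, X j) z) :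
    ∃ W L, Skel T F N (2 * ρ + 2 * r) (r / 20) S Y root m W L ∧
      (∀ j, W j = hull T S (nb T F (S ∪ Y)ᶜ (r / 5) (X j))) ∧
      ∀ j i, ∀ t ∈ L j i, ∀ u ∈ t, u ∈ W j →
        ∃ K, Pc T F (W j) (2 * r / 5) K ∧ u ∈ K ∧ (K ∩ Z j i).Nonempty ∧ K ∩ X j ⊆ Z j i := by
  have hω0 := hF.nonneg
  have hr : 0 ≤ r := by linarith
  have hb : Bd T ⊆ S := fun v hv => (h.base.bd v hv).1
  have hSne : S.Nonempty := hT.bd.mono hb
  have hY : ∀ u, u ∉ S ∪ Y → ∀ y ∈ Y, ¬ Adj T u y := fun u hu y hy => h.base.not_adj hu hy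
  have hY' : ∀ y ∈ Y, ∃ s ∈ S, Jn T (S ∪ Y) y s := by
    intro y hy
    obtain ⟨u, s, h1, h2, h3⟩ := h.base.tube_tch hT hy
    exact ⟨s, h2, (h1.mono subset_union_right).step (Or.inl h2) h3⟩
  obtain ⟨A, hA⟩ : ∃ A : Fin m → Set V, ∀ j, A j = nb T F (S ∪ Y)ᶜ (r / 5) (X j) :=
    ⟨_, fun _ => rfl⟩
  obtain ⟨W, hW⟩ : ∃ W : Fin m → Set V, ∀ j, W j = hull T S (A j) := ⟨_, fun _ => rfl⟩
  have hWF : ∀ j, W j ⊆ (S ∪ Y)ᶜ := fun j => by
    rw [hW, hA]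
    exact b12_sub hY'
  have hXA : ∀ j, X j ⊆ A j := fun j => hA j ▸ sub_nb (h.axis j).sub (by linarith only [hω, hω0])
  have hAW : ∀ j, A j ⊆ W j := fun j => hW j ▸ subset_hull
  have hAc : ∀ j, Conn T (A j) := fun j =>
    hA j ▸ nb_conn (h.axis j).sub (by linarith) (h.axis j).conn
  have hAA : ∀ j k, j ≠ k → ∀ u ∈ A j, ∀ u' ∈ A k, u ≠ u' ∧ ¬ Adj T u u' := by
    intro j k hjk u hu u' hu'
    rw [hA] at hu hu'
    obtain ⟨K, hK, huK, x, hx, hx'⟩ := hu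
    obtain ⟨K', hK', huK', y, hy, hy'⟩ := hu'
    constructor
    · rintro rfl
      have := hK.union hK' ⟨u, huK, huK'⟩
      exact h.sep j k hjk _ (this.mono this.1 (by linarith)) ⟨x, Or.inl hx, hx'⟩
        ⟨y, Or.inr hy, hy'⟩
    · intro hadj
      have := hK.union_adj hF hK' ⟨u, huK, u', huK', hadj⟩
      exact h.sep j k hjk _ (this.mono this.1 (by linarith)) ⟨x, Or.inl hx, hx'⟩
        ⟨y, Or.inr hy, hy'⟩
  have hAW' : ∀ j k, j ≠ k → ∀ u ∈ A k, u ∉ W j := by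
    intro j k hjk u hu hw
    obtain ⟨hz, -, -, -, z, hzZ, s, hs, hzs⟩ := (h.axis k).zone false
    rw [hW] at hw
    refine hw ⟨s, hs, ((hAc k u hu z (hXA k (hz hzZ))).mono ?_).step ?_ hzs⟩
    · exact fun a ha ha' => (hAA j k hjk a ha' a ha).1 rfl
    · exact fun ha => hWF j (hAW j ha) (Or.inl hs)
  have hadj : ∀ j, ∀ u ∈ W j, u ∉ A j → ∀ u', Adj T u u' → u' ∈ W j := by
    intro j u hu hu' u' ha
    rw [hW] at hu ⊢
    exact hull_adj hu hu' ha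
  have hdis : ∀ j k, j ≠ k → Disjoint (W j) (W k) := by
    intro j k hjk
    refine disjoint_left.2 fun u hu hu' => ?_
    obtain ⟨s, hs⟩ := hSne
    obtain ⟨a, b, h1, -, h2, h3⟩ := (hT.conn u trivial s trivial).exit (C := W j ∩ W k) ⟨hu, hu'⟩
      (fun hh => hWF j hh.1 (Or.inl hs))
    have ha := h1.right.2
    exact h2 ⟨hadj j a ha.1 (fun hh => hAW' k j hjk.symm a hh ha.2) b h3,
      hadj k a ha.2 (fun hh => hAW' j k hjk a hh ha.1) b h3⟩
  have htch : ∀ j k, j ≠ k → ¬ Tch T (W j) (W k) := by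
    rintro j k hjk ⟨u, hu, u', hu', ha⟩
    by_cases h1 : u ∈ A j
    · by_cases h2 : u' ∈ A k
      · exact (hAA j k hjk u h1 u' h2).2 ha
      · exact disjoint_left.1 (hdis j k hjk) hu (hadj k u' hu' h2 u ha.symm)
    · exact disjoint_left.1 (hdis j k hjk) (hadj j u hu h1 u' ha) hu'
  have hband : ∀ j, ∃ L, Band T F (2 * ρ + 2 * r) (r / 20) S (S ∪ Y ∪ ⋃ j, W j)ᶜ (W j) L ∧
      ∀ i, ∀ t ∈ L i, ∀ u ∈ t, u ∈ W j →
        ∃ K, Pc T F (W j) (2 * r / 5) K ∧ u ∈ K ∧ (K ∩ Z j i).Nonempty ∧ K ∩ X j ⊆ Z j i := by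
    intro j
    have e : W j = hull T S (nb T F (S ∪ Y)ᶜ (r / 5) (X j)) := by rw [hW, hA]
    have := (h.axis j).band (U := (S ∪ Y ∪ ⋃ j, W j)ᶜ) hT hF hω hb hY hY' (by
      rw [← e]
      intro a ha b hb' hab
      by_cases hS : b ∈ S
      · exact Or.inl hS
      refine Or.inr ?_
      rintro ((h1 | h1) | h1)
      · exact hS h1
      · exact hY a (hWF j ha) b h1 hab
      · obtain ⟨k, hk⟩ := mem_iUnion.1 h1
        by_cases hjk : j = k
        · exact hb' (hjk ▸ hk)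
        · exact htch j k hjk ⟨a, ha, b, hk, hab⟩)
    rw [← e] at this
    exact this.2
  choose L hL hL' using hband
  refine ⟨W, L, ⟨h.base.mono le_rfl (by linarith only [hω, hρ, hω0]), fun j => disjoint_left.2 (hWF j),
    fun j k hjk => ⟨hdis j k hjk, htch j k hjk⟩, hL, fun u => null_acyc hT
      (fun v hv => Or.inl (Or.inl (hb hv))) (null_att ?_ ?_ hn) u⟩,
    fun j => by rw [hW, hA], hL'⟩
  · exact union_subset_union_right _ (iUnion_mono fun j => (hXA j).trans (hAW j))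
  · rintro v (hv | hv)
    · exact ⟨v, Or.inl hv, Jn.refl (Or.inl hv)⟩
    · obtain ⟨j, hj⟩ := mem_iUnion.1 hv
      obtain ⟨hz, -, -, -, z, hzZ, -⟩ := (h.axis j).zone false
      exact ⟨z, Or.inr (mem_iUnion.2 ⟨j, hz hzZ⟩),
        ((hL j).conn v hj z (hAW j (hXA j (hz hzZ)))).mono
          fun a ha => Or.inr (mem_iUnion.2 ⟨j, ha⟩)⟩

end Pool.Agent.MP_17e62b_gt.T55

end

section

/-!
The thick band is acyclic.
-/

namespace Pool.Agent.MP_17e62b_gt.T55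

open Set Metric Topology
open scoped InnerProductSpace Manifold

variable {V : Type} [Fintype V] [DecidableEq V] {T : Finset (Finset V)}
variable {n : ℕ} {F : V → EuclideanSpace ℝ (Fin n)}

variable {S U K₀ : Set V} {ω η : ℝ} {k : ℕ} {x : ℕ → V} {P : ℕ → Set V}
  {c : ℕ → V → V → ZMod 2}

theorem b14_round {G : (V → V → ZMod 2) → Prop} (h0 : G 0)
    (hadd : ∀ z z', G z → G z' → G (z + z')) {L : ℕ} (hL : 3 ≤ L) (hk : 200 < k) {A : Set V}
    {J : V → ℕ → Prop} (hex : ∀ v ∈ A, ∃ j, 11 ≤ j ∧ j + 12 ≤ k ∧ J v j)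
    (hadj : ∀ u v, Adj T u v → ∀ i j, J u i → J v j → i ≤ j + L)
    (hc : ∀ a b, a = 11 ∨ (13 ≤ a ∧ a + 17 ≤ k) → b + 12 = k ∨ (16 ≤ b ∧ b + 14 ≤ k) →
      Conn T {v | ∃ j, a ≤ j ∧ j ≤ b ∧ J v j})
    (hG : ∀ a b, a = 11 ∨ (13 ≤ a ∧ a + 17 ≤ k) → b + 12 = k ∨ (16 ≤ b ∧ b + 14 ≤ k) →
      b ≤ a + 2 * L → ∀ z, Cyc T {v | ∃ j, a ≤ j ∧ j ≤ b ∧ J v j} z → G z)
    {z : V → V → ZMod 2} (hz : Cyc T A z) : G z := by
  choose! idx h1 h2 h3 using hex
  have hm : ∀ l, L * l = 0 ∨ L ≤ L * l := fun l =>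
    (Nat.eq_zero_or_pos l).imp (fun e => by rw [e, mul_zero]) (Nat.le_mul_of_pos_right L)
  refine chain_lemma h0 hadd (fun v => (idx v - 11) / L) (fun l => {v | ∃ j,
    min (11 + L * l) (k - 17) ≤ j ∧
      j ≤ (if L * l + L + 24 ≤ k then max 16 (10 + L * l + L) else k - 12) ∧ J v j})
    (fun u hu v hv h => ?_) (fun v hv => ⟨idx v, ?_, ?_, h3 v hv⟩) (fun l => hc _ _ ?_ ?_)
    (fun l z hz => hG (min (11 + L * l) (k - 17))
      (if L * l + L + L + 24 ≤ k then max 16 (10 + L * l + L + L) else k - 12) ?_ ?_ ?_ z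
      ⟨hz.1.mono ?_, hz.2⟩) hz
  · have := hadj u v h _ _ (h3 u hu) (h3 v hv)
    rw [← Nat.add_div_right _ (by omega : 0 < L)]
    exact Nat.div_le_div_right (by omega)
  · have := Nat.mul_div_le (idx v - 11) L
    have := h1 v hv
    omega
  · have := Nat.lt_mul_div_succ (idx v - 11) (by omega : 0 < L)
    have := h2 v hv
    rw [Nat.mul_succ] at *
    split_ifs <;> omega
  · have := hm l
    omega
  · split_ifs <;> omega
  · have := hm l
    omega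
  · split_ifs <;> omega
  · split_ifs <;> omega
  · rintro v (⟨j, a1, a2, a3⟩ | ⟨j, a1, a2, a3⟩) <;> refine ⟨j, ?_, ?_, a3⟩
    · exact a1
    · split_ifs at a2 ⊢ <;> omega
    · rw [Nat.mul_succ] at a1
      omega
    · rwa [Nat.mul_succ, ← add_assoc] at a2

theorem b14_hole (hT : IsSurf T) {H A : Set V} (hb : Disjoint H (Bd T)) {h : V} (hh : h ∈ H)
    (hn : ∀ v ∈ H, ∀ u, Adj T v u → u ∈ H ∨ u ∈ A) : ∃ z, Cyc T A z ∧ ¬ Bnd T H z := by
  classical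
  set χ : Finset V → ZMod 2 := fun t => if ∃ v ∈ t, v ∈ H then 1 else 0 with hχ
  have h1 : On T univ (d2 T χ) := on_d2 fun _ _ _ _ _ => mem_univ _
  have h2 : ∀ u v, d2 T χ u v ≠ 0 → u ∈ A := fun u v e => by
    have a := (h1.2 u v e).2.2
    rw [d2, if_neg a.1] at e
    have hu : u ∉ H := fun hu => by
      obtain ⟨t, -, t', -, n, e'⟩ := two_tri hT a (disjoint_left.1 hb hu)
      have m : ∀ s ∈ ({t, t'} : Finset (Finset V)), χ s = 1 := fun s hs =>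
        if_pos ⟨u, (Finset.mem_filter.1 (e' ▸ hs)).2.1, hu⟩
      rw [e', Finset.sum_pair n, m t (by simp), m t' (by simp)] at e
      exact e rfl
    obtain ⟨t, ht, e'⟩ := Finset.exists_ne_zero_of_sum_ne_zero e
    obtain ⟨w, hw, hw'⟩ : ∃ v ∈ t, v ∈ H := by_contra fun n => e' (if_neg n)
    have ht := Finset.mem_filter.1 ht
    exact (hn w hw' u ⟨fun e => hu (e ▸ hw'), t, ht.1, hw, ht.2.1⟩).resolve_left hu
  refine ⟨_, ⟨⟨h1.1, fun u v e => ⟨h2 u v e, h2 v u (h1.1 u v ▸ e), (h1.2 u v e).2.2⟩⟩,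
    d1_d2 hT χ⟩, fun ⟨Q, q1, q2⟩ => ?_⟩
  obtain ⟨t, ht, m⟩ := hT.used h
  have := d2_inj hT q2 t ht
  rw [q1 t ht ⟨h, m, hh⟩, hχ] at this
  exact zero_ne_one (this.trans (if_pos ⟨h, m, hh⟩))

theorem b14_small (hT : IsSurf T) (hF : Sad T F ω) {H B : Set V} {ρ : ℝ} (hb : Disjoint H (Bd T))
    (hn : ∀ v ∈ H, ∀ w, w ∉ H → Adj T v w → w ∈ B) (hB : Small F ρ B) :
    Small F (ρ + 2 * ω) (B ∪ H) := by
  have h0 := hF.nonneg
  have h1 : ∀ u ∈ B, ∀ v ∈ H, dist (F v) (F u) ≤ ρ + ω := fun u hu =>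
    hF.dist_le hT hb fun v hv w hw a => hB w (hn v hv w hw a) u hu
  rintro u (hu | hu) v (hv | hv)
  · linarith [hB u hu v hv]
  · linarith [h1 u hu v hv, dist_comm (F u) (F v)]
  · linarith [h1 v hv u hu]
  · linarith [hF.dist_le hT hb (r := ρ + ω) (p := F v)
      (fun v' hv' w hw a => (dist_comm _ _).trans_le (h1 w (hn v' hv' w hw a) v hv)) u hu]

/-- Plan: `chain_lemma` twice, with `G = Bnd T (Uᶜ ∪ P 0 ∪ P (k - 1))`. Let `A₀` be the
neighbourhood `nb` of the spine and `idx v ∈ [11, k - 12]` the least index of a piece whose part in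
the spine is within `η / 10` of `v`; `idx` differs by at most `2` on edges (`T1`). First round for
`A₀`: level `(idx cut off to [18, k - 19]) / 3`, `D l ⊆ A₀` the neighbourhood of the part of the
spine in the pieces of level `l` (`spine_win`; empty for levels that do not occur). For a hole `H`,
the sum of the triangles that meet `H` is bounded by a cycle of `A₀`; the chain lemma with
`Bnd T (Uᶜ ∪ P 0 ∪ P (k - 1) ∪ H)` fails (`d2_inj`), so the filling of a cycle of some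
`D l ∪ D (l + 1)` is one at `H`, and then the neighbours of `H` have `idx` in a window of length at
most `17` (else they are joined to `P 0` or `P (k - 1)` outside `D l ∪ D (l + 1)`). Second round
with blocks of length `17` and the holes added at the level of their least `idx`
(`Sad.dist_le` twice). Finally `Bnd.grow` and `acyc_hull`. `wout_basic` applies with `S = ∅`. -/
theorem wout_acyc (hT : IsSurf T) (hF : Sad T F ω) (hω : 100 * ω ≤ η) (hb : Bd T ⊆ Uᶜ)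
    (h : Seq T F U η k x P c) (h1 : T1 T F U η k P) (hk : 200 < k)
    (h0 : K₀ = ∅ ∨ (Pc T F U (η / 10) K₀ ∧ (K₀ ∩ P 0).Nonempty))
    (H0 : ∀ D a, Pc T F U (100 * η) D → Disjoint D K₀ → 1 ≤ a → a + 62 ≤ k →
      (∀ j < k, (P j ∩ D).Nonempty → a ≤ j ∧ j ≤ a + 60) →
      ∀ z, Cyc T D z → Bnd T (Uᶜ ∪ P 0 ∪ P (k - 1)) z) :
    Acyc T (Wout T F U η k x P K₀) := by
  have hω0 := hF.nonneg
  have hη : 0 ≤ η / 10 := by linarith only [hω, hω0]
  obtain ⟨s1, s2, s3⟩ := spine_win hF hω h h1 hk h0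
  obtain ⟨-, w2, w3, -, -, w6, -, -⟩ := wout_basic (S := ∅) hT hF hω hb (empty_disjoint _) h h1
    (fun _ _ _ _ _ ⟨_, _, _, hs, _⟩ => hs.elim) hk h0
  have e0 : ∀ j ≤ 10, P j ⊆ End k P K₀ false := fun j hj v hv => Or.inr ⟨j, hj, hv⟩
  have e1 : ∀ j < k, k ≤ j + 11 → P j ⊆ End k P K₀ true := fun j hj hj' v hv => ⟨j, hj, hj', hv⟩
  have eK : K₀ ⊆ End k P K₀ false := subset_union_left
  have j0 := (w6 false).2.1
  have j1 := (w6 true).2.1
  clear w6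
  unfold Wout at w2 w3 ⊢
  generalize Spine T k x P K₀ = Sp at *
  generalize End k P K₀ false = E₀ at *
  generalize End k P K₀ true = E₁ at *
  set U' := U \ (E₀ ∪ E₁) with hU'
  set A₀ := nb T F U' (η / 10) Sp with hA₀
  set W := hull T U'ᶜ A₀ with hW
  have aW : A₀ ⊆ W := subset_hull
  have sA : Sp ⊆ A₀ := sub_nb (w3.trans w2) hη
  have WB : Disjoint W (Bd T) := disjoint_left.2 fun v hv hv' => hb hv' (w2 hv).1
  have hH : ∀ v ∈ W, ∀ u, Jn T A₀ᶜ v u → u ∈ W := fun v hv u a ⟨r, hr, b⟩ => hv ⟨r, hr, a.trans b⟩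
  have f1 : ∀ K, Pc T F U η K → ∀ i j, 11 ≤ i → i + 12 ≤ k → j < k → (K ∩ P i).Nonempty →
      (K ∩ P j).Nonempty → i ≤ j + 2 ∧ j ≤ i + 2 := fun K hK i j a b c d e => by
    rcases le_total i j with l | l
    · have := h1 i j l c K hK d e
      omega
    · have := h1 j i l (by omega) K hK e d
      omega
  obtain ⟨J, hJ⟩ : ∃ J : V → ℕ → Prop, ∀ v j, J v j ↔ 11 ≤ j ∧ j + 12 ≤ k ∧
    ∃ K, Pc T F U' (η / 10) K ∧ v ∈ K ∧ (K ∩ (Sp ∩ P j)).Nonempty := ⟨_, fun _ _ => Iff.rfl⟩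
  have JA : ∀ v j, J v j → v ∈ A₀ := fun v j a =>
    let ⟨_, _, K, b, c, y, d, e, _⟩ := (hJ v j).1 a
    ⟨K, b, c, y, d, e⟩
  have Jex : ∀ v ∈ A₀, ∃ j, 11 ≤ j ∧ j + 12 ≤ k ∧ J v j := fun v ⟨K, b, c, y, d, e⟩ =>
    let ⟨j, a1, a2, a3⟩ := s2 y e
    ⟨j, a1, a2, (hJ v j).2 ⟨a1, a2, K, b, c, y, d, e, a3⟩⟩
  have JP : ∀ v i j, J v i → j < k → v ∈ P j → i ≤ j + 2 ∧ j ≤ i + 2 := fun v i j a hj hv =>
    let ⟨a1, a2, K, b, c, y, d, _, e⟩ := (hJ v i).1 a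
    f1 K (b.mono (b.1.trans sdiff_subset) (by linarith only [hω, hω0])) i j a1 a2 hj ⟨y, d, e⟩ ⟨v, c, hv⟩
  have Jadj : ∀ u v, Adj T u v ∨ u = v → ∀ i j, J u i → J v j → i ≤ j + 2 :=
    fun u v huv i j a a' => by
    obtain ⟨a1, a2, K, b, c, y, d, _, e⟩ := (hJ u i).1 a
    obtain ⟨-, a2', K', b', c', y', d', _, e'⟩ := (hJ v j).1 a'
    have m : Pc T F U η (K ∪ K') := by
      rcases huv with huv | rfl
      · have := b.union_adj hF b' ⟨u, c, v, c', huv⟩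
        exact this.mono (this.1.trans sdiff_subset) (by linarith only [hω, hω0])
      · have := b.union b' ⟨u, c, c'⟩
        exact this.mono (this.1.trans sdiff_subset) (by linarith only [hω, hω0])
    exact (f1 _ m i j a1 a2 (by omega) ⟨y, Or.inl d, e⟩ ⟨y', Or.inr d', e'⟩).1
  have c1 : ∀ a b, a = 11 ∨ (13 ≤ a ∧ a + 17 ≤ k) → b + 12 = k ∨ (16 ≤ b ∧ b + 14 ≤ k) →
      Conn T {v | ∃ j, a ≤ j ∧ j ≤ b ∧ J v j} := fun a b ha hb => by
    convert nb_conn (F := F) (inter_subset_left.trans (w3.trans w2)) hη (s3 a b ha hb) using 1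
    ext v
    refine ⟨fun ⟨j, a1, a2, a3⟩ => ?_, fun ⟨K, b1, b2, y, b3, b4, j, a1, a2, b5⟩ =>
      ⟨j, a1, a2, (hJ v j).2 ⟨by omega, by omega, K, b1, b2, y, b3, b4, b5⟩⟩⟩
    obtain ⟨-, -, K, b1, b2, y, b3, b4, b5⟩ := (hJ v j).1 a3
    exact ⟨K, b1, b2, y, b3, b4, j, a1, a2, b5⟩
  have m1 : ∀ a, Small F (41 * η + 2 * (η / 10)) {v | ∃ j, a ≤ j ∧ j ≤ a + 40 ∧ J v j} :=
    fun a => by
    have b1 := nb_small (T := T) (U := U') hη
      (h.run (a := min a (k - 41)) (l := 41) (by omega)).1.2.2 (by push_cast; linarith only [hω, hω0])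
    have b2 : {v | ∃ j, a ≤ j ∧ j ≤ a + 40 ∧ J v j} ⊆ nb T F U' (η / 10)
        {v | ∃ j, min a (k - 41) ≤ j ∧ j < min a (k - 41) + 41 ∧ v ∈ P j} :=
      fun v ⟨j, a1, a2, a3⟩ =>
        let ⟨_, _, K, b, c, y, d, _, e⟩ := (hJ v j).1 a3
        ⟨K, b, c, y, d, j, by omega, by omega, e⟩
    exact fun u hu v hv => by exact_mod_cast b1 u (b2 hu) v (b2 hv)
  have hD : ∀ D a, Conn T D → D ⊆ U' → Small F (41 * η + 2 * (η / 10) + 2 * ω) D →
      (∀ j < k, ∀ v ∈ D, v ∈ P j → a ≤ j + 12 ∧ j ≤ a + 32) → ∀ z, Cyc T D z →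
        Bnd T (Uᶜ ∪ P 0 ∪ P (k - 1)) z := fun D a d1 d2 d3 d4 =>
    H0 D (max 1 (min (a - 12) (k - 62))) ⟨d2.trans sdiff_subset, d1, fun u hu v hv =>
      (d3 u hu v hv).trans (by linarith only [hω, hω0])⟩ (disjoint_left.2 fun v hv hv' =>
        (d2 hv).2 (Or.inl (eK hv'))) (by omega) (by omega) fun j hj ⟨v, hv, hv'⟩ => by
      have := d4 j hj v hv' hv
      have : ¬ j ≤ 10 := fun e => (d2 hv').2 (Or.inl (e0 j e hv))
      have : ¬ k ≤ j + 11 := fun e => (d2 hv').2 (Or.inr (e1 j hj e hv))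
      omega
  have x0 := (h 0 (by omega)).2.1
  have x1 := (h (k - 1) (by omega)).2.1
  have hole : ∀ v ∈ W, ∀ u w i u' w' i', Jn T A₀ᶜ v u → Adj T u w → J w i → Jn T A₀ᶜ v u' →
      Adj T u' w' → J w' i' → i ≤ i' + 10 := fun v hv u w i u' w' i' a1 a2 a3 a4 a5 a6 => by
    by_contra hn
    obtain ⟨z, z1, z2⟩ := b14_hole hT (H := {y | Jn T A₀ᶜ v y}) (A := A₀)
      (WB.mono_left fun y hy => hH v hv y hy) a1
      fun y hy y' e => (em (y' ∈ A₀)).symm.imp_left fun n => Jn.step hy n e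
    refine z2 (b14_round Bnd.zero (fun _ _ => Bnd.add) le_rfl hk Jex
      (fun u v e i j a b => (Jadj u v (Or.inl e) i j a b).trans (by omega)) c1
      (fun a b ha hb hab z hz => ?_) z1)
    have sub : {v | ∃ j, a ≤ j ∧ j ≤ b ∧ J v j} ⊆ A₀ := fun y ⟨j, _, _, e⟩ => JA y j e
    have key : ∀ u w i, Jn T A₀ᶜ v u → Adj T u w → J w i → i + 3 ≤ a ∨ b + 3 ≤ i →
        ∀ y, Jn T A₀ᶜ v y → ∃ r ∈ Uᶜ ∪ P 0 ∪ P (k - 1),
          Jn T {v | ∃ j, a ≤ j ∧ j ≤ b ∧ J v j}ᶜ y r := fun u w i b1 b2 b3 b4 y hy => by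
      obtain ⟨c1, c2, K, c3, c4, y', c5, c6⟩ := (hJ w i).1 b3
      have kD : K ⊆ {v | ∃ j, a ≤ j ∧ j ≤ b ∧ J v j}ᶜ := fun q hq ⟨j, d1, d2, d3⟩ => by
        have d4 := (hJ q i).2 ⟨c1, c2, K, c3, hq, y', c5, c6⟩
        have := Jadj q q (Or.inr rfl) i j d4 d3
        have := Jadj q q (Or.inr rfl) j i d3 d4
        omega
      have t1 := (((hy.symm.trans b1).mono (compl_subset_compl.2 sub)).step (kD c4) b2).trans
        ((c3.2.1 w c4 y' c5).mono kD)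
      rcases b4 with b4 | b4
      · exact ⟨x 0, Or.inl (Or.inr x0), t1.trans (((h.run (a := 0) (l := i + 1) (by omega)).1.2.1
          y' ⟨i, by omega, by omega, c6.2⟩ (x 0) ⟨0, by omega, by omega, x0⟩).mono
            fun q ⟨j, _, _, d⟩ ⟨j', _, _, d'⟩ => by
              have := JP q j' j d' (by omega) d
              omega)⟩
      · exact ⟨x (k - 1), Or.inr x1, t1.trans (((h.run (a := i) (l := k - i) (by omega)).1.2.1
          y' ⟨i, by omega, by omega, c6.2⟩ (x (k - 1)) ⟨k - 1, by omega, by omega, x1⟩).mono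
            fun q ⟨j, _, _, d⟩ ⟨j', _, _, d'⟩ => by
              have := JP q j' j d' (by omega) d
              omega)⟩
    refine (hD _ a (c1 a b ha hb) (sub.trans nb_sub) (fun p ⟨i, _, _, d⟩ q ⟨j, _, _, d'⟩ =>
      (m1 a p ⟨i, by omega, by omega, d⟩ q ⟨j, by omega, by omega, d'⟩).trans (by linarith only [hω0]))
      (fun j hj y ⟨i, _, _, d⟩ e => by
        have := JP y i j d hj e
        omega) z hz).grow hT hz.1 ?_
    by_cases hi : b + 3 ≤ i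
    · exact key u w i a1 a2 a3 (Or.inr hi)
    · exact key u' w' i' a4 a5 a6 (Or.inl (by omega))
  obtain ⟨J₂, hJ₂⟩ : ∃ J₂ : V → ℕ → Prop, ∀ v j, J₂ v j ↔ v ∈ W ∧
    (J v j ∨ ∃ u w, Jn T A₀ᶜ v u ∧ Adj T u w ∧ J w j) := ⟨_, fun _ _ => Iff.rfl⟩
  have adj2 : ∀ u v, Adj T u v → ∀ i j, J₂ u i → J₂ v j → i ≤ j + 10 := fun u v e i j a b => by
    obtain ⟨hu, a | ⟨u', w, a1, a2, a3⟩⟩ := (hJ₂ u i).1 a <;>
      obtain ⟨hv, b | ⟨v', w', b1, b2, b3⟩⟩ := (hJ₂ v j).1 b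
    · exact (Jadj u v (Or.inl e) i j a b).trans (by omega)
    · exact hole v hv v u i v' w' j (Jn.refl b1.1) e.symm a b1 b2 b3
    · exact hole u hu u' w i u v j a1 a2 a3 (Jn.refl a1.1) e b
    · exact hole u hu u' w i v' w' j a1 a2 a3 (((Jn.refl a1.1).step b1.1 e).trans b1) b2 b3
  have c2 : ∀ a b, a = 11 ∨ (13 ≤ a ∧ a + 17 ≤ k) → b + 12 = k ∨ (16 ≤ b ∧ b + 14 ≤ k) →
      Conn T {v | ∃ j, a ≤ j ∧ j ≤ b ∧ J₂ v j} := fun a b ha hb => by
    have sub : {v | ∃ j, a ≤ j ∧ j ≤ b ∧ J v j} ⊆ {v | ∃ j, a ≤ j ∧ j ≤ b ∧ J₂ v j} :=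
      fun v ⟨j, a1, a2, a3⟩ => ⟨j, a1, a2, (hJ₂ v j).2 ⟨aW (JA v j a3), Or.inl a3⟩⟩
    have key : ∀ v ∈ {v | ∃ j, a ≤ j ∧ j ≤ b ∧ J₂ v j}, ∃ w ∈ {v | ∃ j, a ≤ j ∧ j ≤ b ∧ J v j},
        Jn T {v | ∃ j, a ≤ j ∧ j ≤ b ∧ J₂ v j} v w := fun v hv => by
      obtain ⟨j, a1, a2, a3⟩ := id hv
      obtain ⟨hv', b | ⟨u, w, b1, b2, b3⟩⟩ := (hJ₂ v j).1 a3
      · exact ⟨v, ⟨j, a1, a2, b⟩, Jn.refl hv⟩
      · exact ⟨w, ⟨j, a1, a2, b3⟩, Jn.step ((conn_comp A₀ᶜ v v (Jn.refl b1.1) u b1).mono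
          fun y hy => ⟨j, a1, a2, (hJ₂ y j).2 ⟨hH v hv' y hy, Or.inr ⟨u, w, (Jn.symm hy).trans b1,
            b2, b3⟩⟩⟩) (sub ⟨j, a1, a2, b3⟩) b2⟩
    intro u hu v hv
    obtain ⟨w, a1, a2⟩ := key u hu
    obtain ⟨w', b1, b2⟩ := key v hv
    exact (a2.trans ((c1 a b ha hb w a1 w' b1).mono sub)).trans b2.symm
  refine acyc_hull hT fun z hz => (b14_round (J := J₂) (L := 10) Bnd.zero (fun _ _ => Bnd.add)
    (by omega) hk (fun v hv => ?_) adj2 c2 (fun a b ha hb hab => hD _ a (c2 a b ha hb)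
      (fun v ⟨j, _, _, e⟩ => w2 ((hJ₂ v j).1 e).1) ?_ ?_) hz).grow hT hz.1 fun v hv => ?_
  · by_cases hA : v ∈ A₀
    · obtain ⟨j, a1, a2, a3⟩ := Jex v hA
      exact ⟨j, a1, a2, (hJ₂ v j).2 ⟨hv, Or.inl a3⟩⟩
    · obtain ⟨u, w, a1, -, a2, a3⟩ := (hT.conn v trivial (x 100) trivial).exit (C := A₀ᶜ) hA
        (not_not.2 (sA (s1 100 (by omega) (by omega) (h 100 (by omega)).2.1)))
      obtain ⟨j, b1, b2, b3⟩ := Jex w (not_not.1 a2)
      exact ⟨j, b1, b2, (hJ₂ v j).2 ⟨hv, Or.inr ⟨u, w, a1.mono inter_subset_right, a3, b3⟩⟩⟩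
  · have b1 := b14_small hT hF (H := {v | ∃ j, a ≤ j ∧ j ≤ b ∧ J₂ v j} \ A₀)
      (WB.mono_left fun v ⟨⟨j, _, _, e⟩, _⟩ => ((hJ₂ v j).1 e).1)
      (fun v ⟨⟨j, a1, a2, a3⟩, hA⟩ w hw e => by
        obtain ⟨hv, b | ⟨u, w', b1, b2, b3⟩⟩ := (hJ₂ v j).1 a3
        · exact absurd (JA v j b) hA
        have hw' : w ∈ A₀ := by_contra fun n => hw ⟨⟨j, a1, a2, (hJ₂ w j).2
          ⟨hull_adj hv hA e, Or.inr ⟨u, w', ((Jn.refl n).step hA e.symm).trans b1, b2, b3⟩⟩⟩, n⟩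
        obtain ⟨i, -, -, d⟩ := Jex w hw'
        have := hole v hv v w i u w' j (Jn.refl hA) e d b1 b2 b3
        have := hole v hv u w' j v w i b1 b2 b3 (Jn.refl hA) e d
        exact ⟨i, by omega, by omega, d⟩) (m1 (a - 10))
    have b2 : {v | ∃ j, a ≤ j ∧ j ≤ b ∧ J₂ v j} ⊆
        {v | ∃ j, a - 10 ≤ j ∧ j ≤ a - 10 + 40 ∧ J v j} ∪
          {v | ∃ j, a ≤ j ∧ j ≤ b ∧ J₂ v j} \ A₀ := fun v hv => by
      obtain ⟨j, a1, a2, a3⟩ := id hv
      obtain ⟨-, b | ⟨u, -, b1, -⟩⟩ := (hJ₂ v j).1 a3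
      · exact Or.inl ⟨j, by omega, by omega, b⟩
      · exact Or.inr ⟨hv, b1.1⟩
    exact fun u hu v hv => b1 u (b2 hu) v (b2 hv)
  · rintro j hj v ⟨i, a1, a2, a3⟩ hv
    obtain ⟨hv', b | ⟨u, w, b1, b2, b3⟩⟩ := (hJ₂ v i).1 a3
    · have := JP v i j b hj hv
      omega
    obtain ⟨p1, p2, p3, -⟩ := h j hj
    obtain ⟨y, hy, hy'⟩ : ∃ y ∈ P j, y ∈ A₀ := by
      by_contra! hn
      have n : ∀ y ∈ P j, ∀ l < k, y ∉ P l ∨ (11 ≤ l ∧ l ≤ 12) ∨ (k ≤ l + 13 ∧ l + 12 ≤ k) :=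
        fun y hy l hl => by
        have q := w2 (hH v hv' y ((p1.2.1 v hv y hy).mono hn))
        by_contra! hc
        have : ¬ l ≤ 10 := fun e => q.2 (Or.inl (e0 l e hc.1))
        have : ¬ k ≤ l + 11 := fun e => q.2 (Or.inr (e1 l hl e hc.1))
        exact hn y hy (sA (s1 l (by omega) (by omega) hc.1))
      have n1 := (n v hv j hj).resolve_left (not_not.2 hv)
      obtain ⟨l, rfl⟩ : ∃ l, j = l + 1 := ⟨j - 1, by omega⟩
      have n2 := (n _ p2 l (by omega)).resolve_left (not_not.2 (h l (by omega)).2.2.1)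
      have n3 := (n _ p3 (l + 1 + 1) (by omega)).resolve_left
        (not_not.2 (h (l + 1 + 1) (by omega)).2.1)
      omega
    obtain ⟨u', w', d1, d2, d3, d4⟩ := (p1.2.1 v hv y hy).exit (C := A₀ᶜ) b1.1 (not_not.2 hy')
    obtain ⟨i', -, -, d⟩ := Jex w' (not_not.1 d3)
    have := JP w' i' j d hj d2
    have := hole v hv' u' w' i' u w i (d1.mono inter_subset_right) d4 d b1 b2 b3
    have := hole v hv' u w i u' w' i' b1 b2 b3 (d1.mono inter_subset_right) d4 d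
    omega
  · by_cases hU : v ∈ U
    · rcases not_not.1 fun e => hv ⟨hU, e⟩ with e | e
      · exact ⟨x 0, Or.inl (Or.inr x0), (j0 v e _ (e0 0 (by omega) x0)).mono
          fun y hy hy' => (w2 hy').2 (Or.inl hy)⟩
      · exact ⟨x (k - 1), Or.inr x1, (j1 v e _ (e1 _ (by omega) (by omega) x1)).mono
          fun y hy hy' => (w2 hy').2 (Or.inr hy)⟩
    · exact ⟨v, Or.inl (Or.inl hU), Jn.refl fun e => hU (w2 e).1⟩

end Pool.Agent.MP_17e62b_gt.T55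

end

section

/-!
The new axis.
-/

namespace Pool.Agent.MP_17e62b_gt.T55

open Set Metric Topology
open scoped InnerProductSpace Manifold

variable {V : Type} [Fintype V] [DecidableEq V] {T : Finset (Finset V)}
variable {n : ℕ} {F : V → EuclideanSpace ℝ (Fin n)}

omit [Fintype V] [DecidableEq V] in
theorem b15_seq {U : Set V} {ρ : V → ℕ} {s e : V} (hs : s ∈ U)
    (h : Relation.ReflTransGen (fun a b => b ∈ U ∧ Adj T a b ∧ ρ a ≤ ρ b) s e) :
    ∃ k, ∃ x : ℕ → V, x 0 = s ∧ x k = e ∧ (∀ i ≤ k, x i ∈ U) ∧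
      (∀ i < k, Adj T (x i) (x (i + 1))) ∧ ∀ i j, i ≤ j → j ≤ k → ρ (x i) ≤ ρ (x j) := by
  induction h with
  | refl => exact ⟨0, fun _ => s, rfl, rfl, fun _ _ => hs, fun _ h => absurd h (by omega),
      fun _ _ _ _ => le_rfl⟩
  | @tail b c _ hbc ih =>
    obtain ⟨k, x, h0, hk, hU, hA, hm⟩ := ih
    refine ⟨k + 1, fun i => if i ≤ k then x i else c, by simp [h0], by simp, ?_, ?_, ?_⟩
    · intro i _
      by_cases h : i ≤ k
      · simp only [if_pos h]; exact hU i h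
      · simp only [if_neg h]; exact hbc.1
    · intro i hi
      by_cases h : i < k
      · simp only [if_pos h.le, if_pos (show i + 1 ≤ k from h)]; exact hA i h
      · have : i = k := by omega
        subst this
        simp only [le_refl, if_true, if_neg (show ¬ i + 1 ≤ i by omega), hk]
        exact hbc.2.1
    · intro i j hij hj
      by_cases h : j ≤ k
      · simp only [if_pos h, if_pos (hij.trans h)]; exact hm i j hij h
      · by_cases h' : i ≤ k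
        · simp only [if_pos h', if_neg h]
          exact (hm i k h' le_rfl).trans (hk ▸ hbc.2.2)
        · simp only [if_neg h', if_neg h, le_refl]

omit [Fintype V] in
theorem b15_ind {U : Set V} {ρ : V → ℕ} {s e : V} (hs : s ∈ U)
    (h : Relation.ReflTransGen (fun a b => b ∈ U ∧ Adj T a b ∧ ρ a ≤ ρ b) s e) :
    ∃ k, ∃ x : ℕ → V, (x 0 = s ∧ x k = e ∧ (∀ i ≤ k, x i ∈ U) ∧
      (∀ i < k, Adj T (x i) (x (i + 1))) ∧ ∀ i j, i ≤ j → j ≤ k → ρ (x i) ≤ ρ (x j)) ∧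
      ∀ i j, i < j → j ≤ k → Adj T (x i) (x j) → j = i + 1 := by
  classical
  have hex := b15_seq hs h
  obtain ⟨x, hx⟩ := Nat.find_spec hex
  refine ⟨Nat.find hex, x, hx, ?_⟩
  intro i j hij hj ha
  by_contra hne
  obtain ⟨h0, hk, hU, hA, hm⟩ := hx
  obtain ⟨d, rfl⟩ : ∃ d, j = i + 1 + d := ⟨j - (i + 1), by omega⟩
  have hlt : Nat.find hex - d < Nat.find hex := by omega
  apply Nat.find_min hex hlt
  refine ⟨fun m => if m ≤ i then x m else x (m + d), by simp [h0], ?_, ?_, ?_, ?_⟩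
  · simp only [if_neg (show ¬ Nat.find hex - d ≤ i by omega)]
    rw [show Nat.find hex - d + d = Nat.find hex by omega]; exact hk
  · intro m hm'
    by_cases h : m ≤ i
    · simp only [if_pos h]; exact hU m (by omega)
    · simp only [if_neg h]; exact hU _ (by omega)
  · intro m hm'
    by_cases h : m < i
    · simp only [if_pos h.le, if_pos (show m + 1 ≤ i from h)]; exact hA m (by omega)
    · by_cases h' : m = i
      · subst h'
        simp only [le_refl, if_true, if_neg (show ¬ m + 1 ≤ m by omega)]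
        exact ha
      · simp only [if_neg (show ¬ m ≤ i by omega), if_neg (show ¬ m + 1 ≤ i by omega)]
        rw [show m + 1 + d = m + d + 1 by omega]
        exact hA _ (by omega)
  · intro a b hab hb
    by_cases h : b ≤ i
    · simp only [if_pos h, if_pos (hab.trans h)]; exact hm a b hab (by omega)
    · by_cases h' : a ≤ i
      · simp only [if_pos h', if_neg h]; exact hm _ _ (by omega) (by omega)
      · simp only [if_neg h', if_neg h]; exact hm _ _ (by omega) (by omega)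

theorem b15_acyc {k : ℕ} {x : ℕ → V}
    (h : ∀ i j, i < j → j ≤ k → Adj T (x i) (x j) → j = i + 1) :
    Acyc T {u | ∃ i ≤ k, x i = u} := by
  intro z hz
  have key : ∀ j, j ≤ k → ∀ u, z u (x j) = 0 := by
    intro j
    induction j using Nat.strong_induction_on with
    | _ j ih =>
      intro hj
      have h1 : ∀ u, u ≠ x (j + 1) → z u (x j) = 0 := by
        intro u hu
        by_contra hne
        obtain ⟨⟨i, hi, rfl⟩, -, ha⟩ := hz.1.2 u (x j) hne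
        rcases lt_trichotomy i j with hij | hij | hij
        · exact hne ((hz.1.1 _ _).trans (ih i hij hi _))
        · exact ha.1 (by rw [hij])
        · exact hu (by rw [h j i hij hi ha.symm])
      have h2 : d1 z (x j) = z (x (j + 1)) (x j) :=
        Finset.sum_eq_single _ (fun u _ hu => h1 u hu) (fun h => absurd (Finset.mem_univ _) h)
      intro u
      by_cases hu : u = x (j + 1)
      · rw [hu, ← h2, hz.2]; rfl
      · exact h1 u hu
  refine ⟨0, fun _ _ h => absurd rfl h, ?_⟩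
  rw [d2_zero]
  funext u y
  by_contra hne
  obtain ⟨-, ⟨i, hi, rfl⟩, -⟩ := hz.1.2 u y (fun h => hne (by rw [h]; rfl))
  exact hne (by rw [key i hi u]; rfl)

theorem b15_conn {k : ℕ} {x : ℕ → V} {ρ : V → ℕ} (hA : ∀ i < k, Adj T (x i) (x (i + 1)))
    (hm : ∀ i j, i ≤ j → j ≤ k → ρ (x i) ≤ ρ (x j)) {B : Set V} (lo hi : ℕ)
    (hB : ∀ u, u ∈ B ↔ (∃ i ≤ k, x i = u) ∧ lo ≤ ρ u ∧ ρ u ≤ hi) : Conn T B := by
  have key : ∀ i, x i ∈ B → ∀ j, i ≤ j → j ≤ k → ρ (x j) ≤ hi → Jn T B (x i) (x j) := by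
    intro i hi' j hij
    induction j, hij using Nat.le_induction with
    | base => exact fun _ _ => Jn.refl hi'
    | succ j hij ih =>
      intro hj hr
      refine (ih (by omega) ((hm _ _ (Nat.le_succ j) hj).trans hr)).step ?_ (hA j (by omega))
      exact (hB _).2 ⟨⟨j + 1, hj, rfl⟩, ((hB _).1 hi').2.1.trans (hm _ _ (by omega) hj), hr⟩
  intro u hu y hy
  obtain ⟨⟨i, hi', rfl⟩, -, h2⟩ := (hB _).1 hu
  obtain ⟨⟨j, hj, rfl⟩, -, h4⟩ := (hB _).1 hy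
  rcases le_total i j with h | h
  · exact key i hu j h hj h4
  · exact (key j hy i h hi' h2).symm

theorem b15_lift {U B : Set V} {ρ : V → ℕ} {c : ℕ} {s e : V} (hB : B ⊆ U)
    (hc : ∀ u ∈ B, ρ u = c) (h : Jn T B s e) :
    Relation.ReflTransGen (fun a b => b ∈ U ∧ Adj T a b ∧ ρ a ≤ ρ b) s e := by
  obtain ⟨hs, h⟩ := h
  induction h with
  | refl => exact Relation.ReflTransGen.refl
  | @tail b c' hb hbc ih =>
    refine ih.tail ⟨hB hbc.1, hbc.2, ?_⟩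
    rw [hc _ hbc.1, hc _ (Jn.right ⟨hs, hb⟩)]

omit [Fintype V] [DecidableEq V] in
theorem b15_tch {K K' B : Set V} (h : Tch T K B) (hK : K ⊆ K') : Tch T K' B := by
  obtain ⟨u, hu, s, hs, ha⟩ := h
  exact ⟨u, hK hu, s, hs, ha⟩

/-- The two sides of the frontier are far apart. -/
theorem b15_sides {W A : Set V} {E : Bool → Set V} {w v : Bool → V} {δ : ℝ} (hT : IsSurf T)
    (hc : Conn T W) (ha : Acyc T W) (hb : Disjoint W (Bd T))
    (hE : ∀ i, Disjoint W (E i)) (hA : A ⊆ W) (hAc : Conn T A)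
    (hw : ∀ i, w i ∈ A ∧ v i ∈ E i ∧ Adj T (w i) (v i))
    (HQ : ∀ K, Pc T F W δ K → (K ∩ A).Nonempty → ∀ a ∈ K, ∀ a' ∈ K, ∀ b b',
      b ∉ W ∪ E false ∪ E true → b' ∉ W ∪ E false ∪ E true → Adj T a b → Adj T a' b' →
      ∀ p, On T K p → d1 p = ends a a' → ∃ Q,
        (∀ y ∈ W, ∀ u, d2 T Q u y = (p + edge a b + edge a' b') u y) ∧
        ∀ t ∈ T, ∀ t' ∈ T, v false ∈ t → v true ∈ t' → Q t = Q t')
    {L : Finset V → ZMod 2}
    (hL : Side T W L (edge (w false) (v false) + edge (w true) (v true)))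
    {K : Set V} (hK : Pc T F W δ K) {a a' b b' : V} {t t' : Finset V} (h1 : a ∈ K) (h2 : a' ∈ K)
    (ht : t ∈ T) (ht' : t' ∈ T) (h3 : a ∈ t) (h4 : b ∈ t) (h5 : a' ∈ t') (h6 : b' ∈ t')
    (h7 : b ∉ W ∪ E false ∪ E true) (h8 : b' ∉ W ∪ E false ∪ E true) : L t = L t' := by
  classical
  have hv : ∀ i, v i ∉ W := fun i h => Set.disjoint_left.1 (hE i) h (hw i).2.1
  have hbW : b ∉ W := fun h => h7 (Or.inl (Or.inl h))
  have hbW' : b' ∉ W := fun h => h8 (Or.inl (Or.inl h))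
  have haW := hK.1 h1
  have haW' := hK.1 h2
  have mt : Mixed T W t := ⟨ht, ⟨a, h3, haW⟩, b, h4, hbW⟩
  have mt' : Mixed T W t' := ⟨ht', ⟨a', h5, haW'⟩, b', h6, hbW'⟩
  by_cases hn : (K ∩ A).Nonempty
  · obtain ⟨p, hp, hd⟩ := (hK.2.1 a h1 a' h2).fill
    obtain ⟨Q, hQ, hQ'⟩ := HQ K hK hn a h1 a' h2 b b' h7 h8
      ⟨fun h => hbW (h ▸ haW), t, ht, h3, h4⟩ ⟨fun h => hbW' (h ▸ haW'), t', ht', h5, h6⟩ p hp hd
    have hL' : Side T W (fun s => if Mixed T W s then Q s else 0) (edge a b + edge a' b') := by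
      refine ⟨fun s _ h => ?_, fun y hy u hu => ?_⟩
      · by_contra hm
        exact h (if_neg hm)
      · have e1 : d2 T (fun s => if Mixed T W s then Q s else 0) y u = d2 T Q u y := by
          unfold d2
          have hne : y ≠ u := fun h => hu (h ▸ hy)
          rw [if_neg hne, if_neg hne.symm]
          refine Finset.sum_congr (Finset.filter_congr fun s _ => and_comm) fun s hs => ?_
          obtain ⟨s1, s2, s3⟩ := Finset.mem_filter.1 hs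
          exact if_pos ⟨s1, ⟨y, s3, hy⟩, u, s2, hu⟩
        have e2 : p u y = 0 := by
          by_contra h
          exact hu (hK.1 (hp.2 _ _ h).1)
        have e3 : ∀ c d : V, edge c d u y = edge c d y u := by
          intro c d
          unfold edge
          exact if_congr (by tauto) rfl rfl
        rw [e1, hQ y hy u]
        simp only [Pi.add_apply, e2, zero_add, e3]
    choose s hs using fun i => (hw i).2.2.2
    have hi := side_inter hT hc ha hb (w := w) (v := v) (x := fun i => if i then a' else a)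
      (y := fun i => if i then b' else b) hL hL' (fun i => ⟨hA (hw i).1, hv i⟩)
      (fun i => by cases i; exacts [⟨haW, hbW⟩, ⟨haW', hbW'⟩])
      (fun i j h => by
        have e : v i = if j then b' else b := congrArg Prod.snd h
        have hm : v i ∈ W ∪ E false ∪ E true := by
          cases i
          · exact Or.inl (Or.inr (hw false).2.1)
          · exact Or.inr (hw true).2.1
        cases j
        · exact h7 (by simpa [e] using hm)
        · exact h8 (by simpa [e] using hm))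
      (s := s) (r := fun i => if i then t' else t) hs
      (fun i => by cases i; exacts [⟨ht, h3, h4⟩, ⟨ht', h5, h6⟩])
    have ms : ∀ i, Mixed T W (s i) := fun i =>
      ⟨(hs i).1, ⟨w i, (hs i).2.1, hA (hw i).1⟩, v i, (hs i).2.2, hv i⟩
    simp only [if_pos (ms false), if_pos (ms true)] at hi
    rw [hQ' _ (hs false).1 _ (hs true).1 (hs false).2.2 (hs true).2.2, CharTwo.add_self_eq_zero]
      at hi
    exact CharTwo.add_eq_zero.1 hi.symm
  · obtain ⟨p, hp, hd⟩ := (hAc _ (hw false).1 _ (hw true).1).fill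
    refine side_cross hT ha hL (hA (hw false).1) (hv false) (hA (hw true).1) (hv true)
      (hp.mono hA) hd hK.1 hK.2.1 (fun k hk => ?_) mt mt' ⟨a, h3, h1⟩ ⟨a', h5, h2⟩
    have hk' : k ∉ A := fun h => hn ⟨k, hk, h⟩
    refine ⟨fun h => hk' (h ▸ (hw false).1), fun h => hk' (h ▸ (hw true).1), fun u => ?_⟩
    by_contra h
    exact hk' (hp.2 _ _ h).2.1

/-- Plan: `L` from `side_exists`; `Λ₁`, `Λ₀` the vertices of `W` on an edge to the outside of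
`W ∪ E false ∪ E true` in a triangle with `L ≠ 0`, `L = 0`. No `Pc T F W δ` set meets both
(`side_cross` if it misses `A`; else `HQ`, `side_ext`, `status_jn`, `side_inter`). `hex` with
`Lo = nb W (2δ/5) Λ₁`, `Hi = W \ nb W (3δ/5) Λ₁`. On the path take the last vertex `a` within
`δ/10` of `E false` and the first later vertex `b` within `δ/10` of `E true`, with their small
sets `Ka`, `Kb`. Take a shortest path from `Ka` to `Kb` in the union, and extend its second and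
its last but one vertex by shortest paths through `Ka`, `Kb` to neighbours of the end sets (these
are the zones). The result is an induced path, hence acyclic. -/
theorem new_axis {W A : Set V} {E : Bool → Set V} {w v : Bool → V} {ω δ : ℝ} (hT : IsSurf T)
    (hF : Sad T F ω) (hω : 100 * ω ≤ δ) (hc : Conn T W) (ha : Acyc T W) (hb : Disjoint W (Bd T))
    (hE : ∀ i, Disjoint W (E i)) (hA : A ⊆ W) (hAc : Conn T A)
    (hw : ∀ i, w i ∈ A ∧ v i ∈ E i ∧ Adj T (w i) (v i))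
    (hfar : ∀ K, Pc T F W δ K → Tch T K (E false) → ¬ Tch T K (E true))
    (HQ : ∀ K, Pc T F W δ K → (K ∩ A).Nonempty → ∀ a ∈ K, ∀ a' ∈ K, ∀ b b',
      b ∉ W ∪ E false ∪ E true → b' ∉ W ∪ E false ∪ E true → Adj T a b → Adj T a' b' →
      ∀ p, On T K p → d1 p = ends a a' → ∃ Q,
        (∀ y ∈ W, ∀ u, d2 T Q u y = (p + edge a b + edge a' b') u y) ∧
        ∀ t ∈ T, ∀ t' ∈ T, v false ∈ t → v true ∈ t' → Q t = Q t') :
    ∃ (X : Set V) (Z : Bool → Set V), X ⊆ W ∧ Conn T X ∧ Acyc T X ∧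
      (∀ i, Z i ⊆ X ∧ Conn T (Z i) ∧ Conn T (X \ Z i) ∧ Small F δ (Z i) ∧ Tch T (Z i) (E i)) ∧
      (∀ K, Pc T F (E false ∪ E true)ᶜ (δ / 20) K → (K ∩ X).Nonempty → K ⊆ W) ∧
      (∀ K, Pc T F W (δ / 20) K → Tch T K (E false ∪ E true) → K ∩ X ⊆ Z false ∪ Z true) ∧
      ∀ K, Pc T F W (δ / 20) K → (K ∩ Z false).Nonempty → ¬ (K ∩ Z true).Nonempty := by
  classical
  have ω0 := hF.nonneg
  have δ0 : 0 ≤ δ := by linarith
  have hv : ∀ i, v i ∉ W := fun i h => Set.disjoint_left.1 (hE i) h (hw i).2.1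
  obtain ⟨L, hL⟩ := side_exists hT hc ha hb (hA (hw false).1) (hv false) (hw false).2.2
    (hA (hw true).1) (hv true) (hw true).2.2
  have sides := fun (K : Set V) (hK : Pc T F W δ K) (a a' b b' : V) (t t' : Finset V) =>
    b15_sides hT hc ha hb hE hA hAc hw HQ hL hK (a := a) (a' := a') (b := b) (b' := b') (t := t)
      (t' := t')
  set Λ : Set V := {a ∈ W | ∃ t ∈ T, ∃ b ∈ t, a ∈ t ∧ b ∉ W ∪ E false ∪ E true ∧ L t ≠ 0}
    with hΛ
  have hΛW : Λ ⊆ W := fun a h => h.1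
  have hsub : nb T F W (2 * δ / 5) Λ ⊆ nb T F W (3 * δ / 5) Λ := by
    rintro y ⟨K, hK, h1, h2⟩
    exact ⟨K, hK.mono hK.1 (by linarith only [hω, ω0]), h1, h2⟩
  set Y : Set V := nb T F W (3 * δ / 5) Λ \ nb T F W (2 * δ / 5) Λ with hY
  have hYW : Y ⊆ W := fun y h => nb_sub h.1
  obtain ⟨y₀, y₁, hj, t₀, t₁⟩ := hex hT (W := W) (Lo := nb T F W (2 * δ / 5) Λ)
    (Hi := W \ nb T F W (3 * δ / 5) Λ) (Y := Y) (E := E) (w := w) (v := v) (L := L) hb
    (by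
      ext y
      constructor
      · intro h
        by_cases h1 : y ∈ nb T F W (2 * δ / 5) Λ
        · exact Or.inl (Or.inl h1)
        · by_cases h2 : y ∈ nb T F W (3 * δ / 5) Λ
          · exact Or.inr ⟨h2, h1⟩
          · exact Or.inl (Or.inr ⟨h, h2⟩)
      · rintro ((h | h) | h)
        exacts [nb_sub h, h.1, hYW h])
    (Set.disjoint_left.2 fun y h h' => h'.2 (hsub h))
    (Set.disjoint_left.2 fun y h h' => h'.2 h)
    (Set.disjoint_left.2 fun y h h' => h.2 h'.1)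
    (by
      rintro ⟨u, ⟨K, hK, h1, c, h2, h3⟩, s, hs, hus⟩
      have := hK.union_adj hF (pc_single (F := F) (T := T) hs.1 le_rfl) ⟨u, h1, s, rfl, hus⟩
      exact hs.2 ⟨_, this.mono this.1 (by linarith only [hω, ω0]), Or.inr rfl, c, Or.inl h2, h3⟩)
    hE (fun u hu => hfar _ (pc_single hu δ0)) (fun i => ⟨hA (hw i).1, (hw i).2⟩) hL
    (by
      intro t ht a h1 b h2 h3 h4 h5 h6
      have h7 : b ∉ W ∪ E false ∪ E true := by
        rintro ((h | h) | h)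
        exacts [h4 h, h5 h, h6 h]
      refine ⟨fun h => sub_nb hΛW (by linarith) ⟨h3, t, ht, b, h2, h1, h7, h⟩, fun h => ⟨h3, ?_⟩⟩
      rintro ⟨K, hK, k1, c, k2, -, t', ht', b', k3, k4, k5, k6⟩
      exact k6 ((sides K (hK.mono hK.1 (by linarith)) c a b' b t' t k2 k1 ht' ht k4 k3 h1 h2
        k5 h7).trans h))
  have hout : ∀ K, Pc T F W (2 * δ / 5) K → ∀ y ∈ K, y ∈ Y → ∀ u ∈ K, ∀ b,
      b ∉ W ∪ E false ∪ E true → ¬ Adj T u b := by
    rintro K hK y h1 h2 u h3 b h4 ⟨-, t, ht, h5, h6⟩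
    by_cases h : L t = 0
    · obtain ⟨K', hK', k1, c, k2, -, t', ht', b', k3, k4, k5, k6⟩ := h2.1
      have := hK.union hK' ⟨y, h1, k1⟩
      exact k6 ((sides _ (this.mono this.1 (by linarith only [])) c u b' b t' t (Or.inr k2) (Or.inl h3)
        ht' ht k4 k3 h5 h6 k5 h4).trans h)
    · exact h2.2 ⟨K, hK, h1, u, h3, hK.1 h3, t, ht, b, h6, h5, h4, h⟩
  set N : Bool → Set V := fun i => {y | ∃ K, Pc T F W (δ / 10) K ∧ y ∈ K ∧ Tch T K (E i)}
    with hN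
  have hNN : ∀ y ∈ N false, y ∉ N true := by
    rintro y ⟨K, hK, h1, h2⟩ ⟨K', hK', h3, h4⟩
    have := hK.union hK' ⟨y, h1, h3⟩
    exact hfar _ (this.mono this.1 (by linarith only [hω, ω0])) (b15_tch h2 subset_union_left)
      (b15_tch h4 subset_union_right)
  have n₀ : y₀ ∈ N false := ⟨_, pc_single (hYW hj.1) (by linarith), rfl, t₀⟩
  have n₁ : y₁ ∈ N true := ⟨_, pc_single (hYW hj.right) (by linarith), rfl, t₁⟩
  obtain ⟨u, a, j1, aY, aN, ua⟩ := hj.symm.exit (C := (N false)ᶜ) (fun h => hNN _ h n₁)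
    (fun h => h n₀)
  obtain ⟨Ka, hKa, aK, tKa⟩ : a ∈ N false := not_not.1 aN
  have uN : u ∈ (N true)ᶜ := by
    rintro ⟨K', hK', h3, h4⟩
    have := hKa.union_adj hF hK' ⟨a, aK, u, h3, ua.symm⟩
    exact hfar _ (this.mono this.1 (by linarith)) (b15_tch tKa subset_union_left)
      (b15_tch h4 subset_union_right)
  obtain ⟨u', b, j2, bY, bN, ub⟩ := j1.symm.exit (C := (N true)ᶜ) uN (fun h => h n₁)
  obtain ⟨Kb, hKb, bK, tKb⟩ : b ∈ N true := not_not.1 bN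
  set M : Set V := Y ∩ (N false)ᶜ ∩ (N true)ᶜ with hM
  have KaN : Ka ⊆ N false := fun y h => ⟨Ka, hKa, h, tKa⟩
  have KbN : Kb ⊆ N true := fun y h => ⟨Kb, hKb, h, tKb⟩
  let ρ : V → ℕ := fun y => if y ∈ Ka then 0 else if y ∈ Kb then 2 else 1
  have r0 : ∀ y ∈ Ka, ρ y = 0 := fun y h => if_pos h
  have r1 : ∀ y ∈ M, ρ y = 1 := fun y h => by
    simp only [ρ, if_neg fun h' => h.1.2 (KaN h'), if_neg fun h' => h.2 (KbN h')]
  have r2 : ∀ y ∈ Kb, ρ y = 2 := fun y h => by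
    simp only [ρ, if_neg fun h' => hNN y (KaN h') (KbN h), if_pos h]
  obtain ⟨s, sK, s', hs', ss⟩ := id tKa
  obtain ⟨e, eK, e', he', ee⟩ := id tKb
  have U0 : Ka ⊆ Ka ∪ M ∪ Kb := fun y h => Or.inl (Or.inl h)
  have U1 : M ⊆ Ka ∪ M ∪ Kb := fun y h => Or.inl (Or.inr h)
  have U2 : Kb ⊆ Ka ∪ M ∪ Kb := fun y h => Or.inr h
  have path := (((b15_lift U0 r0 (hKa.2.1 s sK a aK)).tail
    ⟨U1 j2.1, ua.symm, by rw [r0 a aK]; exact Nat.zero_le _⟩).trans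
    ((b15_lift U1 r1 j2).tail ⟨U2 bK, ub, by rw [r1 _ j2.right, r2 b bK]; omega⟩)).trans
    (b15_lift U2 r2 (hKb.2.1 b bK e eK))
  obtain ⟨k, x, ⟨x0, xk, xU, xA, xm⟩, xi⟩ := b15_ind (U0 sK) path
  set X : Set V := {u | ∃ i ≤ k, x i = u} with hX
  have XU : X ⊆ Ka ∪ M ∪ Kb := by
    rintro _ ⟨i, hi, rfl⟩
    exact xU i hi
  have XW : X ⊆ W := by
    intro y h
    rcases XU h with (h | h) | h
    exacts [hKa.1 h, hYW h.1.1, hKb.1 h]
  have rr : ∀ y, (y ∈ Ka ∧ y ∉ Kb ∧ ρ y = 0) ∨ (y ∉ Ka ∧ y ∉ Kb ∧ ρ y = 1) ∨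
      (y ∉ Ka ∧ y ∈ Kb ∧ ρ y = 2) := by
    intro y
    by_cases h : y ∈ Ka
    · exact Or.inl ⟨h, fun h' => hNN y (KaN h) (KbN h'), r0 y h⟩
    · by_cases h' : y ∈ Kb
      · exact Or.inr (Or.inr ⟨h, h', r2 y h'⟩)
      · exact Or.inr (Or.inl ⟨h, h', by simp only [ρ, if_neg h, if_neg h']⟩)
  have cn : ∀ (B : Set V) (lo hi : ℕ), (∀ u, u ∈ B ↔ u ∈ X ∧ lo ≤ ρ u ∧ ρ u ≤ hi) → Conn T B :=
    fun B lo hi h => b15_conn xA xm lo hi h
  refine ⟨X, fun i => if i then X ∩ Kb else X ∩ Ka, XW, cn _ 0 2 fun y => ?_, b15_acyc xi,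
    fun i => ?_, ?_, ?_, ?_⟩
  · rcases rr y with h | h | h <;> simp [h]
  · cases i
    · refine ⟨inter_subset_left, cn _ 0 0 fun y => ?_, cn _ 1 2 fun y => ?_, fun y h y' h' =>
        (hKa.2.2 y h.2 y' h'.2).trans (by linarith only [hω, ω0]), s, ⟨⟨0, Nat.zero_le _, x0⟩, sK⟩, s', hs', ss⟩
      · rcases rr y with h | h | h <;> simp [h]
      · rcases rr y with h | h | h <;> simp [h]
    · refine ⟨inter_subset_left, cn _ 2 2 fun y => ?_, cn _ 0 1 fun y => ?_, fun y h y' h' =>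
        (hKb.2.2 y h.2 y' h'.2).trans (by linarith only [hω, ω0]), e, ⟨⟨k, le_rfl, xk⟩, eK⟩, e', he', ee⟩
      · rcases rr y with h | h | h <;> simp [h]
      · rcases rr y with h | h | h <;> simp [h]
  · rintro K hK ⟨y, yK, yX⟩ c cK
    by_contra cW
    obtain ⟨p, q, j3, qK, qW, pq⟩ := (hK.2.1 y yK c cK).exit (XW yX) cW
    have hq : q ∉ W ∪ E false ∪ E true := by
      rintro ((h | h) | h)
      exacts [qW h, hK.1 qK (Or.inl h), hK.1 qK (Or.inr h)]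
    have hP : Pc T F W (δ / 20) {u | Jn T (K ∩ W) y u} :=
      ⟨fun u h => (Jn.right h).2, conn_comp _ _, fun u h u' h' =>
        hK.2.2 u (Jn.right h).1 u' (Jn.right h').1⟩
    have yP : y ∈ {u | Jn T (K ∩ W) y u} := Jn.refl ⟨yK, XW yX⟩
    rcases XU yX with (h | h) | h
    · have := hP.union hKa ⟨y, yP, h⟩
      exact hout _ (this.mono this.1 (by linarith)) a (Or.inr aK) aY p (Or.inl j3) q hq pq
    · exact hout _ (hP.mono hP.1 (by linarith)) y yP h.1.1 p j3 q hq pq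
    · have := hP.union hKb ⟨y, yP, h⟩
      exact hout _ (this.mono this.1 (by linarith)) b (Or.inr bK) bY.1 p (Or.inl j3) q hq pq
  · rintro K hK ⟨c, cK, d, hd, cd⟩ y ⟨yK, yX⟩
    rcases XU yX with (h | h) | h
    · exact Or.inl ⟨yX, h⟩
    · rcases hd with hd | hd
      · exact absurd ⟨K, hK.mono hK.1 (by linarith), yK, c, cK, d, hd, cd⟩ h.1.2
      · exact absurd ⟨K, hK.mono hK.1 (by linarith), yK, c, cK, d, hd, cd⟩ h.2
    · exact Or.inr ⟨yX, h⟩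
  · rintro K hK ⟨y, yK, -, ya⟩ ⟨y', yK', -, yb⟩
    have := (hK.union hKa ⟨y, yK, ya⟩).union hKb ⟨y', Or.inl yK', yb⟩
    exact hfar _ (this.mono this.1 (by linarith))
      (b15_tch tKa fun z h => Or.inl (Or.inr h)) (b15_tch tKb subset_union_right)

end Pool.Agent.MP_17e62b_gt.T55

end

section

/-!
The new axis inside the invariant.
-/

namespace Pool.Agent.MP_17e62b_gt.T55

open Set Metric Topology
open scoped InnerProductSpace Manifold

variable {V : Type} [Fintype V] [DecidableEq V] {T : Finset (Finset V)}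
variable {n : ℕ} {F : V → EuclideanSpace ℝ (Fin n)}

variable {N m : ℕ} {ω ρ r s : ℝ} {B₀ S Y : Set V} {root : V → V} {X : Fin m → Set V}
  {Z : Fin m → Bool → Set V}

theorem b16_zero (hT : IsSurf T) {A D : Set V} {Q : Finset V → ZMod 2}
    (hz : On T D (d2 T Q)) (hA : Disjoint A D) {a b : V} (hj : Jn T A a b) {t t' : Finset V}
    (ht : t ∈ T) (ht' : t' ∈ T) (ha : a ∈ t) (hb : b ∈ t') : Q t = Q t' := by
  refine status_jn hT (fun v hv u => ?_) hj ht ht' ha hb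
  by_contra hne
  exact Set.disjoint_left.1 hA hv (hz.2 u v hne).2.1

theorem b16_h0 (hT : IsSurf T) (hF : Sad T F ω) (h : Inv T F N ρ r B₀ S Y root m X Z)
    (hs : Sys T F B₀ s) (hrs : r ≤ s) (hω : 10000000 * ω ≤ r) {k : ℕ} {x : ℕ → V}
    {P : ℕ → Set V} {c : ℕ → V → V → ZMod 2}
    (hq : Seq T F (S ∪ Y ∪ ⋃ j, X j)ᶜ (r / 1000) k x P c)
    (hc : (x k = x 0 ∧ ¬ Nul T (S ∪ Y ∪ ⋃ j, X j) (∑ i ∈ Finset.range k, c i)) ∨
      (Tch T (P 0) S ∧ Tch T (P (k - 1)) S)) (D : Set V) (a : ℕ)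
    (hD : Pc T F (S ∪ Y ∪ ⋃ j, X j)ᶜ (100 * (r / 1000)) D) (ha : 1 ≤ a) (hak : a + 62 ≤ k)
    (hw : ∀ j < k, (P j ∩ D).Nonempty → a ≤ j ∧ j ≤ a + 60) (z : V → V → ZMod 2)
    (hz : Cyc T D z) : Bnd T ((S ∪ Y ∪ ⋃ j, X j) ∪ P 0 ∪ P (k - 1)) z := by
  have hω0 := hF.nonneg
  have hD' : Pc T F (S ∪ Y ∪ ⋃ j, X j)ᶜ s D := hD.mono hD.1 (by linarith only [hrs, hω, hω0])
  obtain ⟨Q, hQ, rfl⟩ := h.small hT hs hD' hz
  have hPD : ∀ j < k, j < a ∨ a + 60 < j → Disjoint (P j) D := fun j hj hj' =>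
    Set.disjoint_iff_inter_eq_empty.2 (Set.not_nonempty_iff_eq_empty.1 fun hne => by
      have := hw j hj hne
      omega)
  have key : ∀ t ∈ T, ∀ v ∈ t, v ∈ P 0 ∪ P (k - 1) → Q t = 0 := by
    rcases hc with ⟨hx, hn⟩ | ⟨h0, h1⟩
    · by_contra hcon
      push Not at hcon
      obtain ⟨t, ht, v, hv, hvP, hQt⟩ := hcon
      have r1 := (hq.run (a := 0) (l := a) (by omega)).1
      have r2 := (hq.run (a := a + 61) (l := k - (a + 61)) (by omega)).1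
      have r3 := (hq.run (a := a) (l := 61) (by omega)).1
      have r4 := (hq.run (a := 0) (l := k) (by omega)).2.2
      have x0 : x 0 ∈ P 0 := (hq 0 (by omega)).2.1
      have xk : x 0 ∈ P (k - 1) := by
        have := (hq (k - 1) (by omega)).2.2.1
        rwa [Nat.sub_add_cancel (by omega), hx] at this
      have hO := r1.2.1.union r2.2.1 (Or.inl ⟨x 0, ⟨0, le_rfl, by omega, x0⟩,
        ⟨k - 1, by omega, by omega, xk⟩⟩)
      have hOD : Disjoint ({v | ∃ j, 0 ≤ j ∧ j < 0 + a ∧ v ∈ P j} ∪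
          {v | ∃ j, a + 61 ≤ j ∧ j < a + 61 + (k - (a + 61)) ∧ v ∈ P j}) D := by
        rw [Set.disjoint_left]
        rintro u (⟨j, -, h2, h3⟩ | ⟨j, h1, h2, h3⟩)
        · exact Set.disjoint_left.1 (hPD j (by omega) (by omega)) h3
        · exact Set.disjoint_left.1 (hPD j (by omega) (by omega)) h3
      have hvO : v ∈ {v | ∃ j, 0 ≤ j ∧ j < 0 + a ∧ v ∈ P j} ∪
          {v | ∃ j, a + 61 ≤ j ∧ j < a + 61 + (k - (a + 61)) ∧ v ∈ P j} := by
        rcases hvP with h' | h'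
        · exact Or.inl ⟨0, le_rfl, by omega, h'⟩
        · exact Or.inr ⟨k - 1, by omega, by omega, h'⟩
      have hOH : ∀ j < k, j < a ∨ a + 60 < j → P j ⊆ hull T (Bd T) D := by
        rintro j hj hj' u hu ⟨b, hb, hjn⟩
        have huO : u ∈ {v | ∃ j, 0 ≤ j ∧ j < 0 + a ∧ v ∈ P j} ∪
            {v | ∃ j, a + 61 ≤ j ∧ j < a + 61 + (k - (a + 61)) ∧ v ∈ P j} := by
          rcases hj' with h' | h'
          · exact Or.inl ⟨j, Nat.zero_le _, by omega, hu⟩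
          · exact Or.inr ⟨j, by omega, by omega, hu⟩
        obtain ⟨t1, ht1, hu1⟩ := hT.used u
        obtain ⟨t2, ht2, hb2⟩ := hT.used b
        apply hQt
        rw [b16_zero hT hz.1 hOD (hO v hvO u huO) ht ht1 hv hu1,
          b16_zero hT hz.1 disjoint_compl_left hjn ht1 ht2 hu1 hb2]
        exact hQ t2 ht2 ⟨b, hb2, Or.inl (Or.inl (h.base.bd b hb).1)⟩
      have hH : Pc T F (S ∪ Y ∪ ⋃ j, X j)ᶜ (100 * (r / 1000) + 2 * ω) (hull T (Bd T) D) :=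
        ⟨(h.sys hT hs D hD').2, hull_conn hT hT.bd hD.2.1, hull_small hT hF subset_rfl hD.2.2⟩
      have xa : x a ∈ P (a - 1) := by
        have := (hq (a - 1) (by omega)).2.2.1
        rwa [Nat.sub_add_cancel ha] at this
      have hK := hH.union r3 ⟨x a, hOH (a - 1) (by omega) (by omega) xa,
        a, le_rfl, by omega, (hq a (by omega)).2.1⟩
      obtain ⟨Q', -, hQ'⟩ := h.small hT hs (hK.mono hK.1 (by push_cast; linarith only [hrs, hω, hω0]))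
        (z := ∑ i ∈ Finset.range k, c i) ⟨On.sum fun i hi => by
          have hi' := Finset.mem_range.1 hi
          refine (hq i hi').2.2.2.1.mono fun u hu => ?_
          by_cases h' : i < a ∨ a + 60 < i
          · exact Or.inl (hOH i hi' h' hu)
          · exact Or.inr ⟨i, by omega, by omega, hu⟩, by
          rw [Nat.Ico_zero_eq_range, zero_add] at r4
          rw [r4, hx, ends_self]⟩
      exact hn (hQ' ▸ nul_d2 Q')
    · have aux : ∀ j < k, j < a ∨ a + 60 < j → Tch T (P j) S →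
          ∀ t ∈ T, ∀ v ∈ t, v ∈ P j → Q t = 0 := by
        rintro j hj hj' ⟨u, hu, s', hs', -, t', ht', hu', hs''⟩ t ht v hv hvP
        rw [b16_zero hT hz.1 (hPD j hj hj') ((hq j hj).1.2.1 v hvP u hu) ht ht' hv hu']
        exact hQ t' ht' ⟨s', hs'', Or.inl (Or.inl hs')⟩
      rintro t ht v hv (h' | h')
      · exact aux 0 (by omega) (by omega) h0 t ht v hv h'
      · exact aux (k - 1) (by omega) (by omega) h1 t ht v hv h'
  refine ⟨Q, ?_, rfl⟩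
  rintro t ht ⟨v, hv, (h' | h') | h'⟩
  · exact hQ t ht ⟨v, hv, h'⟩
  · exact key t ht v hv (Or.inl h')
  · exact key t ht v hv (Or.inr h')

/-- Plan: `η = r / 1000`, `W = Wout`; `wout_basic`, `wout_acyc`, `new_axis` with `A` the spine and
`δ = η / 20`, `wout_class`. `H0`: the filling of `Inv.small` vanishes at `B`; the pieces outside
the window miss `D`; in the closed case they form one connected set, and if the filling is one
there, all pieces lie in the small connected set `hull T (Bd T) D ∪ window` (`Inv.sys`,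
`hull_small`, `Seq.run`) and the cycle bounds. `HQ`: `b`, `b'` lie on one old axis (`Inv.sep`);
close up along it and fill by `Axis.disc`. -/
theorem Inv.new (hT : IsSurf T) (hF : Sad T F ω) (h : Inv T F N ρ r B₀ S Y root m X Z)
    (hs : Sys T F B₀ s) (hrs : r ≤ s) (hω : 10000000 * ω ≤ r) {k : ℕ} {x : ℕ → V}
    {P : ℕ → Set V} {c : ℕ → V → V → ZMod 2} {K₀ : Set V}
    (hq : Seq T F (S ∪ Y ∪ ⋃ j, X j)ᶜ (r / 1000) k x P c)
    (h1 : T1 T F (S ∪ Y ∪ ⋃ j, X j)ᶜ (r / 1000) k P)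
    (h2 : T2 T F S (S ∪ Y ∪ ⋃ j, X j)ᶜ (r / 1000 / 10) k P) (hk : 200 < k)
    (h0 : K₀ = ∅ ∨ (Pc T F (S ∪ Y ∪ ⋃ j, X j)ᶜ (r / 1000 / 10) K₀ ∧ (K₀ ∩ P 0).Nonempty))
    (hc : (x k = x 0 ∧ ¬ Nul T (S ∪ Y ∪ ⋃ j, X j) (∑ i ∈ Finset.range k, c i)) ∨
      (Tch T (P 0) S ∧ Tch T (P (k - 1)) S)) :
    ∃ (X' : Set V) (Z' : Bool → Set V), X' ⊆ (S ∪ Y ∪ ⋃ j, X j)ᶜ ∧
      Axis T F r (r / 400000) (S ∪ (End k P K₀ false ∪ End k P K₀ true))
        (S ∪ (End k P K₀ false ∪ End k P K₀ true) ∪ Y)ᶜ X' Z' ∧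
      (∀ j K, Pc T F (S ∪ (End k P K₀ false ∪ End k P K₀ true) ∪ Y)ᶜ (r / 400000) K →
        (K ∩ X').Nonempty → ¬ (K ∩ X j).Nonempty) ∧
      (∀ i, Tch T X' (End k P K₀ i)) ∧
      (∀ i, Pc T F (S ∪ Y ∪ ⋃ j, X j)ᶜ (12 * (r / 1000)) (End k P K₀ i)) ∧
      ∃ z, On T (End k P K₀ false ∪ End k P K₀ true ∪ X') z ∧ d1 z = ends (x 0) (x k) ∧
        Nul T (S ∪ Y ∪ ⋃ j, X j) (∑ i ∈ Finset.range k, c i + z) := by
  have hω0 := hF.nonneg
  have hb : Bd T ⊆ (S ∪ Y ∪ ⋃ j, X j)ᶜᶜ := fun v hv hv' =>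
    hv' (Or.inl (Or.inl (h.base.bd v hv).1))
  have hS : Disjoint S (S ∪ Y ∪ ⋃ j, X j)ᶜ :=
    Set.disjoint_left.2 fun v hv hv' => hv' (Or.inl (Or.inl hv))
  have hω1 : 100 * ω ≤ r / 1000 := by linarith only [hω, hω0]
  obtain ⟨wa, wb, wc, wd, we, wf, wg, wh⟩ := wout_basic hT hF hω1 hb hS hq h1 h2 hk h0
  have ha := wout_acyc hT hF hω1 hb hq h1 hk h0 (fun D a hD _ h1 h2 h3 z hz => by
    rw [compl_compl]
    exact b16_h0 hT hF h hs hrs hω hq hc D a hD h1 h2 h3 z hz)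
  have hcl := @wout_class V _ _ T n F _ K₀ ω _ k x P c hT hF hω1 hb hq h1 hk h0
    (fun K hK z hz => by
      obtain ⟨Q, -, hQ⟩ := h.small hT hs (hK.mono hK.1 (by linarith only [hrs, hω, hω0])) hz
      exact hQ ▸ nul_d2 Q) ha
  have hP0 : P 0 ⊆ End k P K₀ false := fun v hv => Or.inr ⟨0, by omega, hv⟩
  have hPk : P (k - 1) ⊆ End k P K₀ true := fun v hv => ⟨k - 1, by omega, by omega, hv⟩
  have hnb : ∀ K, Pc T F ((S ∪ Y ∪ ⋃ j, X j)ᶜ \ (End k P K₀ false ∪ End k P K₀ true))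
      (r / 1000 / 10) K → (K ∩ Spine T k x P K₀).Nonempty →
      K ⊆ Wout T F (S ∪ Y ∪ ⋃ j, X j)ᶜ (r / 1000) k x P K₀ := fun K hK hn v hv =>
    subset_hull ⟨K, hK, hv, hn⟩
  have hout : ∀ v, v ∉ Wout T F (S ∪ Y ∪ ⋃ j, X j)ᶜ (r / 1000) k x P K₀ →
      ∃ b ∈ ((S ∪ Y ∪ ⋃ j, X j)ᶜ \ (End k P K₀ false ∪ End k P K₀ true))ᶜ,
        Jn T (Wout T F (S ∪ Y ∪ ⋃ j, X j)ᶜ (r / 1000) k x P K₀)ᶜ v b := fun v hv => hull_out hv
  generalize Wout T F (S ∪ Y ∪ ⋃ j, X j)ᶜ (r / 1000) k x P K₀ = W at *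
  generalize Spine T k x P K₀ = A at *
  generalize End k P K₀ = E at *
  have hWS : ∀ v ∈ W, v ∉ S := fun v hv h' => (wb hv).1 (Or.inl (Or.inl h'))
  have hWY : ∀ v ∈ W, v ∉ Y := fun v hv h' => (wb hv).1 (Or.inl (Or.inr h'))
  have hWX : ∀ j, ∀ v ∈ W, v ∉ X j := fun j v hv h' => (wb hv).1 (Or.inr (mem_iUnion.2 ⟨j, h'⟩))
  have hWF : W ⊆ (S ∪ Y)ᶜ := fun v hv h' => (wb hv).1 (Or.inl h')
  have hE : ∀ i, Disjoint W (E i) := fun i => Set.disjoint_left.2 fun v hv h' => by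
    cases i
    · exact (wb hv).2 (Or.inl h')
    · exact (wb hv).2 (Or.inr h')
  choose w hw v hv hwv using we
  obtain ⟨X', Z', n1, n2, n3, n4, n5, n6, n7⟩ := new_axis (W := W) (A := A) (E := E) (w := w)
    (v := v) (δ := r / 1000 / 20) hT hF (by linarith only [hω, hω0]) wa ha
    (Set.disjoint_left.2 fun u hu h' => hb h' (wb hu).1) hE wc wd (fun i => ⟨hw i, hv i, hwv i⟩)
    (fun K hK => wh K (hK.mono hK.1 (by linarith only [hω, hω0]))) (by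
      intro K hK hn a haK a' haK' b b' hb1 hb2 ab ab' p hp hdp
      have ax : ∀ a ∈ K, ∀ b, b ∉ W ∪ E false ∪ E true → Adj T a b → ∃ j, b ∈ X j := by
        intro a ha b hb1 ab
        by_cases hbU : b ∈ (S ∪ Y ∪ ⋃ j, X j)ᶜ
        · exfalso
          have hbU' : b ∈ (S ∪ Y ∪ ⋃ j, X j)ᶜ \ (E false ∪ E true) :=
            ⟨hbU, fun h' => hb1 (h'.elim (fun h => Or.inl (Or.inr h)) Or.inr)⟩
          have h3 := (hK.mono (hK.1.trans wb) le_rfl).union_adj hF (pc_single hbU' le_rfl)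
            ⟨a, ha, b, rfl, ab⟩
          exact hb1 (Or.inl (Or.inl (hnb _ (h3.mono h3.1 (by linarith only [hω, hω0]))
            (hn.mono (Set.inter_subset_inter_left _ Set.subset_union_left)) (Or.inr rfl))))
        · rcases not_not.1 hbU with (h' | h') | h'
          · exact absurd ⟨a, hK.1 ha, b, h', ab⟩ wg
          · exact absurd ab (h.base.not_adj (hWF (hK.1 ha)) h')
          · exact mem_iUnion.1 h'
      obtain ⟨j, hj⟩ := ax a haK b hb1 ab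
      obtain ⟨j', hj'⟩ := ax a' haK' b' hb2 ab'
      have k1 := (hK.mono (hK.1.trans hWF) le_rfl).union_adj hF
        (pc_single ((h.axis j).sub hj) le_rfl) ⟨a, haK, b, rfl, ab⟩
      have k2 := k1.union_adj hF (pc_single ((h.axis j').sub hj') le_rfl)
        ⟨a', Or.inl haK', b', rfl, ab'⟩
      have k3 : Pc T F (S ∪ Y)ᶜ r (K ∪ {b} ∪ {b'}) := k2.mono k2.1 (by linarith only [hω, hω0])
      obtain rfl : j = j' := by
        by_contra hne
        exact h.sep j j' hne _ k3 ⟨b, Or.inl (Or.inr rfl), hj⟩ ⟨b', Or.inr rfl, hj'⟩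
      obtain ⟨g, hg, hdg⟩ := ((h.axis j).conn b hj b' hj').fill
      have hon : On T (K ∪ X j) (p + edge a b + edge a' b' + g) :=
        (((hp.mono subset_union_left).add (on_edge ab (Or.inl haK) (Or.inr hj))).add
          (on_edge ab' (Or.inl haK') (Or.inr hj'))).add (hg.mono subset_union_right)
      obtain ⟨Q, hQ1, hQ2⟩ := (h.axis j).disc _ ⟨hon.mono (Set.Subset.trans (by
        rintro u (hu | hu)
        · exact ⟨_, k3, Or.inl (Or.inl hu), b, Or.inl (Or.inr rfl), hj⟩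
        · exact sub_nb (h.axis j).sub (by linarith only [hω, hω0]) hu) subset_hull), by
        rw [d1_add, d1_add, d1_add, hdp, hdg, d1_edge, d1_edge, ends_comm a a', ends_add,
          ends_comm a' b, ends_add, ← ends_self b, ← ends_add b b' b, ends_comm b' b]⟩
      rw [← hQ2] at hon
      have hEK : ∀ i, Disjoint (E i) (K ∪ X j) := fun i => Set.disjoint_left.2 (by
        rintro u hu (h' | h')
        · exact Set.disjoint_left.1 (hE i) (hK.1 h') hu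
        · exact (wf i).1 hu (Or.inr (mem_iUnion.2 ⟨j, h'⟩)))
      refine ⟨Q, fun y hy u => ?_, fun t ht t' ht' h3 h4 => ?_⟩
      · have : g u y = 0 := by
          by_contra hne
          exact hWX j y hy (hg.2 u y hne).2.1
        rw [hQ2, Pi.add_apply _ g, Pi.add_apply _ (g u), this, add_zero]
      · rcases hc with ⟨hx, -⟩ | ⟨c0, c1⟩
        · obtain ⟨t0, ht0, hx0⟩ := hT.used (x 0)
          have x0 : x 0 ∈ E false := hP0 (hq 0 (by omega)).2.1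
          have xk : x 0 ∈ E true := hPk (by
            have := (hq (k - 1) (by omega)).2.2.1
            rwa [Nat.sub_add_cancel (by omega), hx] at this)
          rw [b16_zero hT hon (hEK false) ((wf false).2.1 _ (hv false) _ x0) ht ht0 h3 hx0,
            b16_zero hT hon (hEK true) ((wf true).2.1 _ (hv true) _ xk) ht' ht0 h4 hx0]
        · have aux : ∀ i (D : Set V), D ⊆ E i → Tch T D S → ∀ t ∈ T, v i ∈ t → Q t = 0 := by
            rintro i D hD ⟨u, hu, s', hs', -, t0, ht0, hu0, hs0⟩ t ht h3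
            rw [b16_zero hT hon (hEK i) ((wf i).2.1 _ (hv i) _ (hD hu)) ht ht0 h3 hu0]
            by_contra hne
            exact Set.disjoint_left.1 (hull_disj (Set.disjoint_left.2 fun y hy h' =>
              (nb_sub hy : y ∈ (S ∪ Y)ᶜ) (Or.inl h'))) (hQ1 t0 ht0 hne s' hs0) hs'
          rw [aux false _ hP0 c0 t ht h3, aux true _ hPk c1 t' ht' h4])
  have e4 : r / 1000 / 20 / 20 = r / 400000 := by ring
  rw [e4] at n5 n6 n7
  have hin : ∀ K, Pc T F (S ∪ (E false ∪ E true) ∪ Y)ᶜ (r / 400000) K → (K ∩ X').Nonempty →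
      Pc T F W (r / 400000) K := fun K hK hn =>
    hK.mono (n5 K (hK.mono (fun u hu h' => hK.1 hu (Or.inl (Or.inr h'))) le_rfl) hn) le_rfl
  have hES : ∀ i, E i ⊆ S ∪ (E false ∪ E true) := fun i u hu => by
    cases i
    · exact Or.inr (Or.inl hu)
    · exact Or.inr (Or.inr hu)
  have hsub : hull T (S ∪ (E false ∪ E true))
      (nb T F (S ∪ (E false ∪ E true) ∪ Y)ᶜ (r / 400000) X') ⊆ W := by
    intro u hu
    by_contra huW
    have hN : Wᶜ ⊆ (nb T F (S ∪ (E false ∪ E true) ∪ Y)ᶜ (r / 400000) X')ᶜ := by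
      rintro y hy ⟨K, hK, hyK, hn⟩
      exact hy ((hin K hK hn).1 hyK)
    obtain ⟨b, hb1, hb2⟩ := hout u huW
    apply hu
    by_cases hbE : b ∈ E false ∪ E true
    · exact ⟨b, Or.inr hbE, hb2.mono hN⟩
    have hbB : b ∈ S ∪ Y ∪ ⋃ j, X j := by
      by_contra h'
      exact hb1 ⟨h', hbE⟩
    rcases hbB with (h' | h') | h'
    · exact ⟨b, Or.inl h', hb2.mono hN⟩
    · obtain ⟨y, s', j1, j2, j3⟩ := h.base.tube_tch hT h'
      exact ⟨s', Or.inl j2, ((hb2.trans (j1.mono fun y hy hW => hWY y hW hy)).step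
        (fun hW => hWS _ hW j2) j3).mono hN⟩
    · obtain ⟨j, hj⟩ := mem_iUnion.1 h'
      obtain ⟨z1, -, -, -, y, hy, s', j2, j3⟩ := (h.axis j).zone false
      exact ⟨s', Or.inl j2, ((hb2.trans (((h.axis j).conn b hj y (z1 hy)).mono
        fun y hy hW => hWX j y hW hy)).step (fun hW => hWS _ hW j2) j3).mono hN⟩
  choose w' hw' v' hv' hwv' using fun i => (n4 i).2.2.2.2
  refine ⟨X', Z', fun u hu => (wb (n1 hu)).1, ⟨?_, n2, n3, fun i => ⟨(n4 i).1, (n4 i).2.1,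
    (n4 i).2.2.1, fun a ha b hb => ((n4 i).2.2.2.1 a ha b hb).trans (by linarith only [hω, hω0]),
    w' i, hw' i, v' i, hES i (hv' i), hwv' i⟩, ?_, fun K hK ht => ?_, fun K hK hn => ?_⟩,
    fun j K hK hn => ?_, fun i => ⟨w' i, (n4 i).1 (hw' i), v' i, hv' i, hwv' i⟩, wf, ?_⟩
  · rintro u hu ((h' | h') | h')
    · exact hWS u (n1 hu) h'
    · exact (wb (n1 hu)).2 h'
    · exact hWY u (n1 hu) h'
  · refine acyc_hull hT fun z hz => ha.bnd (Set.disjoint_left.2 ?_) ⟨hz.1.mono hsub, hz.2⟩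
    rintro u hu (h' | h')
    · exact hWS u hu h'
    · exact (wb hu).2 h'
  · intro u hu
    have hK' := hin K hK ⟨u, hu⟩
    obtain ⟨a, haK, b, hb1 | hb1, ab⟩ := ht
    · exact absurd ⟨a, hK'.1 haK, b, hb1, ab⟩ wg
    · exact n6 K hK' ⟨a, haK, b, hb1, ab⟩ hu
  · exact n7 K (hin K hK (hn.mono (Set.inter_subset_inter_right _ (n4 false).1))) hn
  · rintro ⟨u, hu, hu'⟩
    exact hWX j u ((hin K hK hn).1 hu) hu'
  · obtain ⟨q, hq1, hq2⟩ := (n2 _ ((n4 false).1 (hw' false)) _ ((n4 true).1 (hw' true))).fill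
    obtain ⟨a₀, a₁, b1, b2, b3, b4, b5⟩ := @hcl w' v'
      (fun i => ⟨n1 ((n4 i).1 (hw' i)), hv' i, hwv' i⟩) q (hq1.mono n1) hq2
    rw [compl_compl] at b5
    refine ⟨_, ?_, ?_, b5⟩
    · exact ((((b1.mono fun u hu => Or.inl (Or.inl hu)).add (on_edge (hwv' false).symm
        (Or.inl (Or.inl (hv' false))) (Or.inr ((n4 false).1 (hw' false))))).add
        (hq1.mono subset_union_right)).add (on_edge (hwv' true)
        (Or.inr ((n4 true).1 (hw' true))) (Or.inl (Or.inr (hv' true))))).add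
        (b3.mono fun u hu => Or.inl (Or.inr hu))
    · rw [d1_add, d1_add, d1_add, d1_add, b2, b4, hq2, d1_edge, d1_edge, ends_add, ends_add,
        ends_add, ends_add]

end Pool.Agent.MP_17e62b_gt.T55

end

section

/-!
One step of the induction.
-/

namespace Pool.Agent.MP_17e62b_gt.T55

open Set Metric Topology
open scoped InnerProductSpace Manifold

variable {V : Type} [Fintype V] [DecidableEq V] {T : Finset (Finset V)}
variable {n : ℕ} {F : V → EuclideanSpace ℝ (Fin n)}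

variable {N m : ℕ} {ω ρ r s : ℝ} {B₀ S Y : Set V} {root : V → V} {X : Fin m → Set V}
  {Z : Fin m → Bool → Set V}

omit [Fintype V] [DecidableEq V] in
theorem b17_cons (X' : Set V) (X : Fin m → Set V) :
    ⋃ j, (Fin.cons X' X : Fin (m + 1) → Set V) j = X' ∪ ⋃ j, X j := by
  ext v
  simp only [iUnion_cons, mem_union, mem_iUnion]

theorem b17_axis {ρ' : ℝ} {Fr A : Set V} {C : Bool → Set V} (h : Axis T F ρ r S Fr A C)
    (hρ : ρ ≤ ρ') : Axis T F ρ' r S Fr A C :=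
  ⟨h.sub, h.conn, h.acyc, fun i => ⟨(h.zone i).1, (h.zone i).2.1, (h.zone i).2.2.1,
    fun u hu v hv => ((h.zone i).2.2.2.1 u hu v hv).trans hρ, (h.zone i).2.2.2.2⟩, h.disc, h.near,
    h.long⟩

theorem b17_mono {N' : ℕ} {ρ' : ℝ} (h : Inv T F N ρ r B₀ S Y root m X Z) (hN : N ≤ N')
    (hρ : ρ ≤ ρ') : Inv T F N' ρ' r B₀ S Y root m X Z :=
  ⟨h.base.mono hN hρ, h.sub, fun j => b17_axis (h.axis j) hρ, h.sep, h.ess⟩

theorem b17_nul {B : Set V} {z z' : V → V → ZMod 2} (h : Nul T B (z + z')) (h' : Nul T B z') :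
    Nul T B z := by
  have := h.add h'
  rwa [add_assoc, add_self1, add_zero] at this

/-- A connected set that touches `C` is joined to `C`. -/
theorem b17_jn {A C D : Set V} (hA : Conn T A) (ht : Tch T A C) (h1 : A ⊆ D) (h2 : C ⊆ D) {v : V}
    (hv : v ∈ A) : ∃ b ∈ C, Jn T D v b := by
  obtain ⟨u, hu, b, hb, e⟩ := ht
  exact ⟨b, hb, ((hA v hv u hu).mono h1).step (h2 hb) e⟩

section
variable {U K₀ : Set V} {η : ℝ} {k : ℕ} {x : ℕ → V} {P : ℕ → Set V} {c : ℕ → V → V → ZMod 2}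

theorem b17_last (h : Seq T F U η k x P c) (hk : 0 < k) : x k ∈ P (k - 1) := by
  have := (h (k - 1) (by omega)).2.2.1
  rwa [Nat.sub_add_cancel hk] at this

theorem b17_run (h : Seq T F U η k x P c) :
    Pc T F U (k * η) {v | ∃ j < k, v ∈ P j} ∧
      On T {v | ∃ j < k, v ∈ P j} (∑ j ∈ Finset.range k, c j) ∧
      d1 (∑ j ∈ Finset.range k, c j) = ends (x 0) (x k) := by
  have := h.run (a := 0) (l := k) (by omega)
  simp only [zero_add, zero_le, true_and, ← Finset.range_eq_Ico] at this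
  exact this

theorem b17_e0 (h : Seq T F U η k x P c) (hk : 0 < k) : x 0 ∈ End k P K₀ false :=
  Or.inr ⟨0, by omega, (h 0 hk).2.1⟩

theorem b17_e1 (h : Seq T F U η k x P c) (hk : 0 < k) : x k ∈ End k P K₀ true :=
  ⟨k - 1, by omega, by omega, b17_last h hk⟩

theorem b17_rel {B : Set V} {s₀ s₁ : V} (h : Seq T F U η k x P c) (h0 : s₀ ∈ B) (h1 : s₁ ∈ B)
    (a0 : Adj T s₀ (x 0)) (a1 : Adj T (x k) s₁) :
    Rel T B (edge s₀ (x 0) + ∑ i ∈ Finset.range k, c i + edge (x k) s₁) := by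
  obtain ⟨-, b1, b2⟩ := b17_run h
  refine ⟨((on_edge a0 (mem_univ _) (mem_univ _)).add (b1.mono (subset_univ _))).add
    (on_edge a1 (mem_univ _) (mem_univ _)), fun v hv => ?_⟩
  rw [d1_add, d1_add, d1_edge, d1_edge, b2, ends_add, ends_add]
  have e0 : v ≠ s₀ := fun e => hv (e ▸ h0)
  have e1 : v ≠ s₁ := fun e => hv (e ▸ h1)
  simp [ends, e0, e1]

/-- If all pieces are near axes, they are near one axis, and a closed chain bounds. -/
theorem b17_far (h : Inv T F N ρ r B₀ S Y root m X Z) (hη : 0 ≤ η) (hr : 4 * η ≤ r)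
    (hU : U ⊆ (S ∪ Y)ᶜ) (hq : Seq T F U η k x P c) (hk : 0 < k) (hx : x k = x 0)
    (hn : ¬ ∃ Q, d2 T Q = ∑ i ∈ Finset.range k, c i) :
    ∃ i < k, ∀ j K, Pc T F (S ∪ Y)ᶜ (r / 4) K → (K ∩ P i).Nonempty → ¬ (K ∩ X j).Nonempty := by
  by_contra hc
  push Not at hc
  have pc : ∀ i < k, Pc T F (S ∪ Y)ᶜ η (P i) := fun i hi =>
    (hq i hi).1.mono ((hq i hi).1.1.trans hU) le_rfl
  obtain ⟨j₀, h0⟩ := hc 0 hk
  have key : ∀ i < k, ∃ K, Pc T F (S ∪ Y)ᶜ (r / 4) K ∧ (K ∩ P i).Nonempty ∧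
      (K ∩ X j₀).Nonempty := by
    intro i
    induction i with
    | zero => exact fun _ => h0
    | succ i ih =>
      intro hi
      obtain ⟨K, a1, a2, a3⟩ := ih (by omega)
      obtain ⟨j, K', b1, b2, b3⟩ := hc _ hi
      obtain rfl : j₀ = j := by
        by_contra e
        have p := (a1.union (pc i (by omega)) a2).union (b1.union (pc _ hi) b2)
          ⟨x (i + 1), Or.inr (hq i (by omega)).2.2.1, Or.inr (hq _ hi).2.1⟩
        exact h.sep _ _ e _ (p.mono p.1 (by linarith only [hr]))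
          (a3.mono (inter_subset_inter_left _ (subset_union_left.trans subset_union_left)))
          (b3.mono (inter_subset_inter_left _ (subset_union_left.trans subset_union_right)))
      exact ⟨K', b1, b2, b3⟩
  obtain ⟨-, b1, b2⟩ := b17_run hq
  obtain ⟨Q, -, e⟩ := (h.axis j₀).disc _ ⟨b1.mono fun v ⟨i, hi, hv⟩ => subset_hull (by
    obtain ⟨K, a1, a2, a3⟩ := key i hi
    have p := a1.union (pc i hi) a2
    exact ⟨_, p.mono p.1 (by linarith only [hη, hr]), Or.inr hv,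
      a3.mono (inter_subset_inter_left _ subset_union_left)⟩), by rw [b2, hx, ends_self]⟩
  exact hn ⟨Q, e⟩

end

/-- The end of the cases with an attached axis. -/
theorem b17_fin {S' X' : Set V} {Z' : Bool → Set V} (h : Inv T F N ρ r B₀ S' Y root m X Z)
    (hS : S ⊆ S') (ha : Axis T F ρ r S' (S' ∪ Y)ᶜ X' Z')
    (hs : ∀ j K, Pc T F (S' ∪ Y)ᶜ r K → (K ∩ X').Nonempty → ¬ (K ∩ X j).Nonempty)
    (hj : ∀ v ∈ S', ∃ b ∈ S, Jn T S' v b) {z z' : V → V → ZMod 2}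
    (h1 : ¬ Nul T (S ∪ Y ∪ ⋃ j, X j) z) (h2 : Nul T (S ∪ Y ∪ ⋃ j, X j) (z + z'))
    (h3 : On T (S' ∪ X') z') (h4 : Rel T (S ∪ Y ∪ ⋃ j, X j) z) :
    ∃ (S' : Set V) (root' : V → V) (m' : ℕ) (X' : Fin m' → Set V) (Z' : Fin m' → Bool → Set V),
      m' ≤ m + 1 ∧ Inv T F N ρ r B₀ S' Y root' m' X' Z' ∧
      (S ∪ Y ∪ ⋃ j, X j) ⊆ (S' ∪ Y ∪ ⋃ j, X' j) ∧
      ∃ z, ¬ Nul T (S ∪ Y ∪ ⋃ j, X j) z ∧ Nul T (S' ∪ Y ∪ ⋃ j, X' j) z ∧
        ((Rel T (S ∪ Y ∪ ⋃ j, X j) z ∧ ∀ v ∈ S' ∪ Y ∪ ⋃ j, X' j,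
            ∃ b ∈ S ∪ Y ∪ ⋃ j, X j, Jn T (S' ∪ Y ∪ ⋃ j, X' j) v b) ∨
          (Cyc T (S ∪ Y ∪ ⋃ j, X j)ᶜ z ∧ ∃ y, ∀ v ∈ S' ∪ Y ∪ ⋃ j, X' j,
            (∃ b ∈ S ∪ Y ∪ ⋃ j, X j, Jn T (S' ∪ Y ∪ ⋃ j, X' j) v b) ∨
              Jn T (S' ∪ Y ∪ ⋃ j, X' j) v y)) := by
  refine ⟨S', root, m + 1, Fin.cons X' X, Fin.cons Z' Z, le_rfl, h.cons ha hs, ?_⟩
  rw [b17_cons]
  have s1 : (S ∪ Y ∪ ⋃ j, X j) ⊆ S' ∪ Y ∪ (X' ∪ ⋃ j, X j) :=
    union_subset_union (union_subset_union_left _ hS) subset_union_right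
  have s2 : S' ⊆ S' ∪ Y ∪ (X' ∪ ⋃ j, X j) := subset_union_left.trans subset_union_left
  have s3 : X' ⊆ S' ∪ Y ∪ (X' ∪ ⋃ j, X j) := subset_union_left.trans subset_union_right
  have j1 : ∀ v ∈ S', ∃ b ∈ S ∪ Y ∪ ⋃ j, X j, Jn T (S' ∪ Y ∪ (X' ∪ ⋃ j, X j)) v b :=
    fun v hv => (hj v hv).imp fun b hb => ⟨Or.inl (Or.inl hb.1), hb.2.mono s2⟩
  refine ⟨s1, z, h1, b17_nul (h2.mono s1) (h3.mono (union_subset s2 s3)).nul,
    Or.inl ⟨h4, fun v hv => ?_⟩⟩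
  rcases hv with (h | h) | h | h
  · exact j1 v h
  · exact ⟨v, Or.inl (Or.inr h), Jn.refl (Or.inl (Or.inr h))⟩
  · obtain ⟨u, hu, b, hb, e⟩ := (ha.zone false).2.2.2.2
    obtain ⟨b', c1, c2⟩ := j1 b hb
    exact ⟨b', c1, (((ha.conn v h u ((ha.zone false).1 hu)).mono s3).step (s2 hb) e).trans c2⟩
  · exact ⟨v, Or.inr h, Jn.refl (Or.inr (Or.inr h))⟩

theorem b17_att {E : Bool → Set V} (hE : ∀ i, Conn T (E i) ∧ Tch T (E i) S) :
    ∀ v ∈ S ∪ (E false ∪ E true), ∃ b ∈ S, Jn T (S ∪ (E false ∪ E true)) v b := by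
  rintro v (h | h | h)
  · exact ⟨v, h, Jn.refl (Or.inl h)⟩
  · exact b17_jn (hE _).1 (hE _).2 (subset_union_left.trans subset_union_right)
      subset_union_left h
  · exact b17_jn (hE _).1 (hE _).2 (subset_union_right.trans subset_union_right)
      subset_union_left h

/-- Plan: `η = r / 1000`. `obj_exists`, `tame`. If `k ≤ 200` the object is not closed
(`Inv.small`, `Seq.run`); absorb it (`Inv.grow`). Otherwise three cases, each with `Inv.new`.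
(A) From `S` to `S`: `K₀ = ∅`, `Inv.grow`, `Inv.cons`. (B) Closed, and some set `K₀` of size
`η / 10` meets a piece and touches `S`: `rotate` that piece to the start; both sets for `Inv.grow`
are the union of the end zones; `Inv.cons`. (C) Closed and far from `S`: some piece is not within
`r / 4` of an axis (else all pieces lie near one axis, by `Inv.sep`, and the cycle bounds by
`Axis.disc`); `rotate`; the union of the end zones is a new class (`Inv.node`). -/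
theorem Inv.step (hT : IsSurf T) (hF : Sad T F ω) (h : Inv T F N ρ r B₀ S Y root m X Z)
    (hs : Sys T F B₀ s) (hrs : r ≤ s) (hω : 10000000 * ω ≤ r) (hρ : r ≤ ρ)
    (hn : ¬ ∀ z, Rel T (S ∪ Y ∪ ⋃ j, X j) z → Nul T (S ∪ Y ∪ ⋃ j, X j) z) :
    ∃ (S' : Set V) (root' : V → V) (m' : ℕ) (X' : Fin m' → Set V) (Z' : Fin m' → Bool → Set V),
      m' ≤ m + 1 ∧ Inv T F (N + 1) (ρ + r) (r / 400000) B₀ S' Y root' m' X' Z' ∧
      (S ∪ Y ∪ ⋃ j, X j) ⊆ (S' ∪ Y ∪ ⋃ j, X' j) ∧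
      ∃ z, ¬ Nul T (S ∪ Y ∪ ⋃ j, X j) z ∧ Nul T (S' ∪ Y ∪ ⋃ j, X' j) z ∧
        ((Rel T (S ∪ Y ∪ ⋃ j, X j) z ∧ ∀ v ∈ S' ∪ Y ∪ ⋃ j, X' j,
            ∃ b ∈ S ∪ Y ∪ ⋃ j, X j, Jn T (S' ∪ Y ∪ ⋃ j, X' j) v b) ∨
          (Cyc T (S ∪ Y ∪ ⋃ j, X j)ᶜ z ∧ ∃ y, ∀ v ∈ S' ∪ Y ∪ ⋃ j, X' j,
            (∃ b ∈ S ∪ Y ∪ ⋃ j, X j, Jn T (S' ∪ Y ∪ ⋃ j, X' j) v b) ∨
              Jn T (S' ∪ Y ∪ ⋃ j, X' j) v y)) := by
  have w0 := hF.nonneg
  have sm : ∀ K, Pc T F (S ∪ Y ∪ ⋃ j, X j)ᶜ r K → ∀ z, Cyc T K z →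
      Nul T (S ∪ Y ∪ ⋃ j, X j)ᶜᶜ z := fun K hK z hz => by
    obtain ⟨Q, -, rfl⟩ := h.small hT hs (hK.mono hK.1 hrs) hz
    exact nul_d2 Q
  obtain ⟨k, x, P, c, k0, hq, h1, h2⟩ := tame (F := F) (S := S) (U := (S ∪ Y ∪ ⋃ j, X j)ᶜ)
    (η := r / 1000) (disjoint_compl_right.mono_left (subset_union_left.trans subset_union_left))
    (fun K hK => sm K (hK.mono hK.1 (by linarith))) (by
      obtain ⟨k, x, P, c, a1, a2, a3⟩ := obj_exists hT hF (by linarith) h hn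
      exact ⟨k, x, P, c, a1, fun i hi => ⟨(a2 i hi).1.mono (a2 i hi).1.1 (by linarith only [hω, w0]),
        (a2 i hi).2⟩, a3⟩)
  rw [compl_compl] at h2 sm
  have sS : S ⊆ S ∪ Y ∪ ⋃ j, X j := subset_union_left.trans subset_union_left
  have sU : (S ∪ Y ∪ ⋃ j, X j)ᶜ ⊆ (S ∪ Y)ᶜ := compl_subset_compl.2 subset_union_left
  by_cases hk : k ≤ 200
  · obtain ⟨p1, p2, p3⟩ := b17_run hq
    have p4 := p1.mono p1.1 (show k * (r / 1000) ≤ r / 5 by
      have : (k : ℝ) ≤ 200 := by exact_mod_cast hk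
      nlinarith only [hω, w0, this])
    rcases h2 with ⟨s₀, m0, s₁, m1, a0, a1, n1, -⟩ | ⟨e, n1, -⟩
    swap
    · exact absurd (sm _ (p4.mono p4.1 (by linarith only [hω, w0])) _ ⟨p2, by rw [p3, e, ends_self]⟩) n1
    have x0 : x 0 ∈ {v | ∃ j < k, v ∈ P j} := ⟨0, k0, (hq 0 k0).2.1⟩
    have x1 : x k ∈ {v | ∃ j < k, v ∈ P j} := ⟨k - 1, by omega, b17_last hq k0⟩
    have t0 : Tch T {v | ∃ j < k, v ∈ P j} S := ⟨_, x0, _, m0, a0.symm⟩
    obtain ⟨root', i1⟩ := h.grow hT hF (E := fun _ => {v | ∃ j < k, v ∈ P j}) (r' := r / 400000)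
      (fun _ => ⟨p4, t0⟩) (by linarith only [hω, w0]) (by linarith only [hω, w0])
    have j1 := b17_att (T := T) (S := S) (E := fun _ => {v | ∃ j < k, v ∈ P j})
      fun _ => ⟨p1.2.1, t0⟩
    rw [union_self] at i1 j1
    have s1 : (S ∪ Y ∪ ⋃ j, X j) ⊆ S ∪ {v | ∃ j < k, v ∈ P j} ∪ Y ∪ ⋃ j, X j :=
      union_subset_union_left _ (union_subset_union_left _ subset_union_left)
    have s2 : S ∪ {v | ∃ j < k, v ∈ P j} ⊆ S ∪ {v | ∃ j < k, v ∈ P j} ∪ Y ∪ ⋃ j, X j :=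
      subset_union_left.trans subset_union_left
    refine ⟨_, root', m, X, Z, m.le_succ, b17_mono i1 N.le_succ (by linarith only [hω, w0]), s1, _, n1,
      ((((on_edge a0 (Or.inl m0) (Or.inr x0)).add (p2.mono subset_union_right)).add
        (on_edge a1 (Or.inr x1) (Or.inl m1))).mono s2).nul,
      Or.inl ⟨b17_rel hq (sS m0) (sS m1) a0 a1, fun v hv => ?_⟩⟩
    rcases hv with (h | h) | h
    · exact (j1 v h).imp fun b hb => ⟨sS hb.1, hb.2.mono s2⟩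
    · exact ⟨v, Or.inl (Or.inr h), Jn.refl (Or.inl (Or.inr h))⟩
    · exact ⟨v, Or.inr h, Jn.refl (Or.inr h)⟩
  rw [not_le] at hk
  rcases h2 with ⟨s₀, m0, s₁, m1, a0, a1, n1, h2⟩ | ⟨e, n1, h2⟩
  · obtain ⟨X', Z', -, b2, b3, -, b5, z, b6, -, b8⟩ := h.new hT hF hs hrs hω (K₀ := ∅) hq h1
      (fun i hi K hK => h2 i hi K (hK.mono hK.1 (by linarith only [hω, w0]))) hk (Or.inl rfl)
      (Or.inr ⟨⟨_, (hq 0 k0).2.1, _, m0, a0.symm⟩, _, b17_last hq k0, _, m1, a1⟩)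
    have t : ∀ i, Tch T (End k P ∅ i) S := fun i => by
      cases i
      exacts [⟨_, b17_e0 hq k0, _, m0, a0.symm⟩, ⟨_, b17_e1 hq k0, _, m1, a1⟩]
    obtain ⟨root', i1⟩ := h.grow hT hF (E := End k P ∅) (r' := r / 400000)
      (fun i => ⟨b5 i, t i⟩) (by linarith only [hω, w0]) (by linarith only [hω, w0])
    refine b17_fin (b17_mono i1 N.le_succ (by linarith only [hω, w0])) subset_union_left
      (b17_axis b2 (by linarith)) b3 (b17_att fun i => ⟨(b5 i).2.1, t i⟩)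
      (z' := edge s₀ (x 0) + z + edge (x k) s₁) n1 ?_ ?_ (b17_rel hq (sS m0) (sS m1) a0 a1)
    · convert b8 using 1
      linear_combination add_self1 (edge s₀ (x 0)) + add_self1 (edge (x k) s₁)
    · exact ((on_edge a0 (Or.inl (Or.inl m0)) (Or.inl (Or.inr (Or.inl (b17_e0 hq k0))))).add
        (b6.mono (union_subset_union_left _ subset_union_right))).add
        (on_edge a1 (Or.inl (Or.inr (Or.inr (b17_e1 hq k0)))) (Or.inl (Or.inl m1)))
  by_cases hB : ∃ i < k, ∃ K, Pc T F (S ∪ Y ∪ ⋃ j, X j)ᶜ (r / 1000 / 10) K ∧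
      (K ∩ P i).Nonempty ∧ Tch T K S
  · obtain ⟨i₀, i0, K₀, c1, c2, c3⟩ := hB
    obtain ⟨x', c', q1, q2, q3, q4⟩ := rotate hq e h1 i0
    rw [← q3] at n1
    obtain ⟨X', Z', -, b2, b3, -, b5, z, b6, -, b8⟩ := h.new hT hF hs hrs hω (K₀ := K₀) q1 q4
      (fun i hi K hK d1 d2 => by
        have u1 := hK.mono hK.1 (show _ ≤ r / 1000 by linarith only [hω, w0])
        have u2 := c1.mono c1.1 (show _ ≤ r / 1000 by linarith only [hω, w0])
        by_cases l : i + i₀ < k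
        · rw [Nat.mod_eq_of_lt l] at d1
          have := h2 i₀ (i + i₀) (by omega) l K₀ K u2 u1 c2 d1 c3 d2
          omega
        · rw [Nat.mod_eq_sub_mod (by omega), Nat.mod_eq_of_lt (by omega)] at d1
          have := h2 (i + i₀ - k) i₀ (by omega) i0 K K₀ u1 u2 d1 c2 d2 c3
          omega)
      hk (Or.inr ⟨c1, by rwa [zero_add, Nat.mod_eq_of_lt i0]⟩) (Or.inl ⟨q2, n1⟩)
    have p := (b5 false).union (b5 true) ⟨_, b17_e0 q1 k0, q2 ▸ b17_e1 q1 k0⟩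
    obtain ⟨u, u1, u2⟩ := c3
    have t : Tch T (End k (fun i => P ((i + i₀) % k)) K₀ false ∪
        End k (fun i => P ((i + i₀) % k)) K₀ true) S := ⟨u, Or.inl (Or.inl u1), u2⟩
    obtain ⟨root', i1⟩ := h.grow hT hF (E := fun _ => _) (r' := r / 400000) (fun _ => ⟨p, t⟩)
      (by linarith only [hω, w0]) (by linarith only [hω, w0])
    have j1 := b17_att (T := T) (S := S) (E := fun _ => _) fun _ => ⟨p.2.1, t⟩
    rw [union_self] at i1 j1
    obtain ⟨-, p2, p3⟩ := b17_run q1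
    exact b17_fin (b17_mono i1 N.le_succ (by linarith only [hω, w0])) subset_union_left
      (b17_axis b2 (by linarith only [hω, hρ, w0])) b3 j1 n1 b8
      (b6.mono (union_subset_union_left _ subset_union_right))
      ⟨p2.mono (subset_univ _), fun v _ => by rw [p3, q2, ends_self]; rfl⟩
  obtain ⟨i₀, i0, hf⟩ := b17_far h (by linarith only [hω, w0]) (by linarith only [hω, w0]) sU hq k0 e
    fun ⟨Q, hQ⟩ => n1 (hQ ▸ nul_d2 Q)
  obtain ⟨x', c', q1, q2, q3, q4⟩ := rotate hq e h1 i0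
  rw [← q3] at n1
  obtain ⟨X', Z', -, b2, b3, b4, b5, z, b6, b7, b8⟩ := h.new hT hF hs hrs hω (K₀ := ∅) q1 q4
    (fun i _ K hK d1 d2 => absurd ⟨_, Nat.mod_lt _ k0, K, hK, d1, d2⟩ hB) hk (Or.inl rfl)
    (Or.inl ⟨q2, n1⟩)
  have x0 := b17_e0 (K₀ := ∅) q1 k0
  have p := (b5 false).union (b5 true) ⟨_, x0, q2 ▸ b17_e1 q1 k0⟩
  have x1 : x' 0 ∈ P i₀ := by
    have : x' 0 ∈ P ((0 + i₀) % k) := (q1 0 k0).2.1
    rwa [zero_add, Nat.mod_eq_of_lt i0] at this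
  obtain ⟨p1, p2, p3⟩ := b17_run q1
  generalize End k (fun i => P ((i + i₀) % k)) ∅ = E at *
  have t : Tch T X' (E false ∪ E true) := by
    obtain ⟨u, u1, v, v1, a⟩ := b4 false
    exact ⟨u, u1, v, Or.inl v1, a⟩
  obtain ⟨root', i1⟩ := h.node hT hF (r' := r / 400000) p (by linarith only [hω, hρ, w0]) (by linarith only [hω, w0])
    (by linarith only [hω, w0]) (fun j K hK d1 d2 => by
      have p' := hK.union (p.mono (p.1.trans sU) le_rfl) d1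
      exact hf j _ (p'.mono p'.1 (by linarith only [hω, w0])) ⟨_, Or.inr (Or.inl x0), x1⟩
        (d2.mono (inter_subset_inter_left _ subset_union_left)))
    (b17_axis b2 hρ) b3 t ⟨b6, by rw [b7, q2, ends_self]⟩
    fun ⟨Q, hQ⟩ => n1 (b17_nul b8 (hQ ▸ nul_d2 Q))
  refine ⟨_, root', m + 1, _, _, le_rfl, b17_mono i1 le_rfl (by linarith only [hω, w0]), ?_⟩
  rw [b17_cons]
  have s1 : (S ∪ Y ∪ ⋃ j, X j) ⊆ S ∪ (E false ∪ E true) ∪ Y ∪ (X' ∪ ⋃ j, X j) :=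
    union_subset_union (union_subset_union_left _ subset_union_left) subset_union_right
  have s2 : E false ∪ E true ⊆ S ∪ (E false ∪ E true) ∪ Y ∪ (X' ∪ ⋃ j, X j) :=
    (subset_union_right.trans subset_union_left).trans subset_union_left
  have s3 : X' ⊆ S ∪ (E false ∪ E true) ∪ Y ∪ (X' ∪ ⋃ j, X j) :=
    subset_union_left.trans subset_union_right
  refine ⟨s1, _, n1, b17_nul (b8.mono s1) (b6.mono (union_subset s2 s3)).nul,
    Or.inr ⟨⟨p2.mono p1.1, by rw [p3, q2, ends_self]⟩, x' 0, fun v hv => ?_⟩⟩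
  by_cases hv' : v ∈ S ∪ Y ∪ ⋃ j, X j
  · exact Or.inl ⟨v, hv', Jn.refl hv⟩
  rcases hv with ((h | h) | h) | h | h
  · exact absurd (sS h) hv'
  · exact Or.inr ((p.2.1 v h _ (Or.inl x0)).mono s2)
  · exact absurd (Or.inl (Or.inr h)) hv'
  · obtain ⟨b, c1, c2⟩ := b17_jn b2.conn t s3 s2 h
    exact Or.inr (c2.trans ((p.2.1 b c1 _ (Or.inl x0)).mono s2))
  · exact absurd (Or.inr h) hv'

end Pool.Agent.MP_17e62b_gt.T55

end

section

/-!
The skeleton.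
-/

namespace Pool.Agent.MP_17e62b_gt.T55

open Set Metric Topology
open scoped InnerProductSpace Manifold

section

variable {V : Type} [Fintype V] [DecidableEq V] {T : Finset (Finset V)}
variable {n : ℕ} {F : V → EuclideanSpace ℝ (Fin n)}

theorem b13_band {ρ ρ' δ δ' : ℝ} {S U W : Set V} {L : Bool → Set (Finset V)}
    (h : Band T F ρ δ S U W L) (hρ : ρ ≤ ρ') (hδ : δ' ≤ δ) : Band T F ρ' δ' S U W L where
  conn := h.conn
  acyc := h.acyc
  mix := h.mix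
  lconn := h.lconn
  apart := h.apart
  rest := h.rest
  small := fun i u hu v hv => (h.small i u hu v hv).trans hρ
  touch := h.touch
  long := fun K hK => h.long K (hK.mono hK.1 hδ)
  wide := fun K hK => h.wide K (hK.mono hK.1 hδ)

theorem b13_skel {N N' m : ℕ} {ρ ρ' δ δ' : ℝ} {S Y : Set V} {root : V → V} {W : Fin m → Set V}
    {L : Fin m → Bool → Set (Finset V)} (h : Skel T F N ρ δ S Y root m W L) (hN : N ≤ N')
    (hρ : ρ ≤ ρ') (hδ : δ' ≤ δ) : Skel T F N' ρ' δ' S Y root m W L where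
  base := h.base.mono hN hρ
  out := h.out
  sep := h.sep
  band := fun j => b13_band (h.band j) hρ hδ
  disc := h.disc

theorem b13_iter (hT : IsSurf T) {δ s : ℝ} (hF : Sad T F δ) {B₀ Y : Set V} (hs : Sys T F B₀ s)
    (μ : Set V → ℕ)
    (h1 : ∀ B B' z, B ⊆ B' → (∀ v ∈ B', ∃ b ∈ B, Jn T B' v b) → Rel T B z → ¬ Nul T B z →
      Nul T B' z → μ B' < μ B)
    (h2 : ∀ B B' x z, B ⊆ B' → (∀ v ∈ B', (∃ b ∈ B, Jn T B' v b) ∨ Jn T B' v x) → Cyc T Bᶜ z →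
      ¬ Nul T B z → Nul T B' z → μ B' < μ B) (k : ℕ) :
    ∀ (N m : ℕ) (ρ r : ℝ) (S : Set V) (root : V → V) (X : Fin m → Set V)
      (Z : Fin m → Bool → Set V), Inv T F N ρ r B₀ S Y root m X Z →
      μ (S ∪ Y ∪ ⋃ j, X j) ≤ k → r ≤ s → r ≤ ρ → 10000000 * 400000 ^ k * δ ≤ r →
      ∃ (S' : Set V) (root' : V → V) (m' : ℕ) (X' : Fin m' → Set V)
        (Z' : Fin m' → Bool → Set V) (r' : ℝ), m' ≤ m + k ∧ r / 400000 ^ k ≤ r' ∧ r' ≤ r ∧
        Inv T F (N + k) (ρ + k * s) r' B₀ S' Y root' m' X' Z' ∧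
        ∀ z, Rel T (S' ∪ Y ∪ ⋃ j, X' j) z → Nul T (S' ∪ Y ∪ ⋃ j, X' j) z := by
  have h0 := hF.nonneg
  have pw : ∀ (k : ℕ) (r : ℝ), 10000000 * 400000 ^ k * δ ≤ r → 10000000 * δ ≤ r := by
    intro k r h
    have h1 : (1 : ℝ) ≤ 400000 ^ k := one_le_pow₀ (by norm_num)
    linarith only [mul_nonneg (sub_nonneg.2 h1) h0, h]
  have fin : ∀ (k N m : ℕ) (ρ r : ℝ) (S : Set V) (root : V → V) (X : Fin m → Set V)
      (Z : Fin m → Bool → Set V), Inv T F N ρ r B₀ S Y root m X Z → r ≤ s →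
      10000000 * δ ≤ r →
      (∀ z, Rel T (S ∪ Y ∪ ⋃ j, X j) z → Nul T (S ∪ Y ∪ ⋃ j, X j) z) →
      ∃ (S' : Set V) (root' : V → V) (m' : ℕ) (X' : Fin m' → Set V)
        (Z' : Fin m' → Bool → Set V) (r' : ℝ), m' ≤ m + k ∧ r / 400000 ^ k ≤ r' ∧ r' ≤ r ∧
        Inv T F (N + k) (ρ + k * s) r' B₀ S' Y root' m' X' Z' ∧
        ∀ z, Rel T (S' ∪ Y ∪ ⋃ j, X' j) z → Nul T (S' ∪ Y ∪ ⋃ j, X' j) z := by
    intro k N m ρ r S root X Z h hrs hω hn
    have hk : (0 : ℝ) ≤ k * s := mul_nonneg (Nat.cast_nonneg k) (by linarith)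
    exact ⟨S, root, m, X, Z, r, Nat.le_add_right _ _,
      div_le_self (by linarith) (one_le_pow₀ (by norm_num)), le_rfl,
      b17_mono h (Nat.le_add_right _ _) (by linarith), hn⟩
  have dec : ∀ (N m : ℕ) (ρ r : ℝ) (S : Set V) (root : V → V) (X : Fin m → Set V)
      (Z : Fin m → Bool → Set V), Inv T F N ρ r B₀ S Y root m X Z → r ≤ s → r ≤ ρ →
      10000000 * δ ≤ r →
      (¬ ∀ z, Rel T (S ∪ Y ∪ ⋃ j, X j) z → Nul T (S ∪ Y ∪ ⋃ j, X j) z) →
      ∃ (S' : Set V) (root' : V → V) (m' : ℕ) (X' : Fin m' → Set V)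
        (Z' : Fin m' → Bool → Set V), m' ≤ m + 1 ∧
        Inv T F (N + 1) (ρ + r) (r / 400000) B₀ S' Y root' m' X' Z' ∧
          μ (S' ∪ Y ∪ ⋃ j, X' j) < μ (S ∪ Y ∪ ⋃ j, X j) := by
    intro N m ρ r S root X Z h hrs hrρ hω hn
    obtain ⟨S', root', m', X', Z', hm, hI, hsub, z, hz, hz', hc⟩ := h.step hT hF hs hrs hω hrρ hn
    refine ⟨S', root', m', X', Z', hm, hI, ?_⟩
    rcases hc with ⟨ha, hb⟩ | ⟨ha, y, hb⟩
    · exact h1 _ _ z hsub hb ha hz hz'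
    · exact h2 _ _ y z hsub hb ha hz hz'
  induction k with
  | zero =>
    intro N m ρ r S root X Z h hμ hrs hrρ hω
    by_cases hn : ∀ z, Rel T (S ∪ Y ∪ ⋃ j, X j) z → Nul T (S ∪ Y ∪ ⋃ j, X j) z
    · exact fin 0 N m ρ r S root X Z h hrs (pw _ _ hω) hn
    · obtain ⟨S', root', m', X', Z', -, -, hlt⟩ :=
        dec N m ρ r S root X Z h hrs hrρ (pw _ _ hω) hn
      omega
  | succ k ih =>
    intro N m ρ r S root X Z h hμ hrs hrρ hω
    have hω' := pw _ _ hω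
    by_cases hn : ∀ z, Rel T (S ∪ Y ∪ ⋃ j, X j) z → Nul T (S ∪ Y ∪ ⋃ j, X j) z
    · exact fin (k + 1) N m ρ r S root X Z h hrs hω' hn
    · obtain ⟨S', root', m', X', Z', hm, hI, hlt⟩ := dec N m ρ r S root X Z h hrs hrρ hω' hn
      obtain ⟨S'', root'', m'', X'', Z'', r'', a1, a2, a3, a4, a5⟩ := ih (N + 1) m' (ρ + r)
        (r / 400000) S' root' X' Z' hI
        (by omega) (by linarith only [h0, hrs, hω']) (by linarith only [h0, hrρ, hω']) (by rw [pow_succ] at hω; linarith only [hω])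
      refine ⟨S'', root'', m'', X'', Z'', r'', by omega, ?_, by linarith only [h0, hω', a3],
        b17_mono a4 (by omega) ?_, a5⟩
      · rwa [div_div, ← pow_succ'] at a2
      · push_cast
        linarith only [hrs]

end

/-- The final state of the induction. -/
theorem skel_inv (n N₀ : ℕ) : ∃ N : ℕ, ∀ ρ : ℝ, 0 < ρ → ∃ r₀ : ℝ, 0 < r₀ ∧ r₀ ≤ ρ ∧
    ∀ (V : Type) [Fintype V] [DecidableEq V] (T : Finset (Finset V))
      (F : V → EuclideanSpace ℝ (Fin n)) (ω : ℝ), IsSurf T → Rk T N₀ → Sad T F ω →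
      10000000 * ω ≤ r₀ → ∃ (B₀ S Y : Set V) (root : V → V) (m : ℕ) (X : Fin m → Set V)
        (Z : Fin m → Bool → Set V) (r : ℝ), m ≤ N ∧ r₀ ≤ r ∧ r ≤ ρ ∧
        Inv T F N ρ r B₀ S Y root m X Z ∧
        ∀ z, Rel T (S ∪ Y ∪ ⋃ j, X j) z → Nul T (S ∪ Y ∪ ⋃ j, X j) z := by
  obtain ⟨C, hC, hthin⟩ := thin n
  refine ⟨30 * (N₀ + 1) + (33 * N₀ + 31), fun ρ hρ => ?_⟩
  obtain ⟨M, hM⟩ : ∃ M : ℕ, M = 33 * N₀ + 31 := ⟨_, rfl⟩
  rw [← hM]
  have hM0 : (0 : ℝ) ≤ M := Nat.cast_nonneg M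
  have hD : (0 : ℝ) < C + 1 + M := by linarith only [hC]
  obtain ⟨s, hs0, hs⟩ : ∃ s : ℝ, 0 < s ∧ (C + 1 + M) * s = ρ :=
    ⟨ρ / (C + 1 + M), div_pos hρ hD, by field_simp⟩
  have hP : (1 : ℝ) ≤ 400000 ^ M := one_le_pow₀ (by norm_num)
  have hr : s / 400000 ^ M ≤ s := div_le_self hs0.le hP
  have hCs : 0 < C * s := mul_pos hC hs0
  have hMs : 0 ≤ M * s := mul_nonneg hM0 hs0.le
  refine ⟨s / 400000 ^ M, div_pos hs0 (by linarith only [hP]), by linarith only [hs, hr, hCs, hMs],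
    fun V _ _ T F ω hT hR hF hω => ?_⟩
  have h0 := hF.nonneg
  obtain ⟨S, Y, root, R, hB, hSys, hcard, hJ⟩ := hthin V T F ω s N₀ hT hR hF (by linarith only [hs0, hr, hω]) hs0
  obtain ⟨μ, hμ0, hμ1, hμ2⟩ := exists_mu hT hR
  have he : (S ∪ Y ∪ ⋃ j : Fin 0, (fun _ => (∅ : Set V)) j) = S ∪ Y := by simp
  have hI : Inv T F (30 * (N₀ + 1)) (C * s + s) s (S ∪ Y) S Y root 0 (fun _ => ∅)
      (fun _ _ => ∅) :=
    { base := hB.mono le_rfl (by linarith only [hs0])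
      sub := Subset.rfl
      axis := fun j => j.elim0
      sep := fun j => j.elim0
      ess := by
        rw [he]
        exact fun v hv => Or.inl ⟨v, hv, hv, Relation.ReflTransGen.refl⟩ }
  obtain ⟨S', root', m', X', Z', r', a1, a2, a3, a4, a5⟩ := b13_iter hT hF hSys μ hμ1 hμ2 M _ 0 _
    s S root _ _ hI (by rw [he]; have := hμ0 _ R hJ; omega) le_rfl (by linarith only [hCs]) (by
      rw [le_div_iff₀ (by linarith only [hP])] at hω
      linarith only [hω])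
  exact ⟨_, S', Y, root', m', X', Z', r', by omega, a2, by linarith only [hs, hCs, hMs, a3],
    b17_mono a4 le_rfl (by linarith only [hs]), a5⟩

end Pool.Agent.MP_17e62b_gt.T55

end
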