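import Pool.Agent.MP_17e62b_gt.Mg.T55_MC
import Pool.Agent.MP_17e62b_gt.Mg.T55_ME2
import Pool.Agent.MP_17e62b_gt.Mg.T55_MA3
import Pool.Agent.MP_17e62b_gt.Mg.T55_MA2

section

/-!
The skeleton exists; change of the charts of the bands; discs and sides.
-/

namespace Pool.Agent.MP_17e62b_gt.T55

open Set Metric Topology H14 G
open scoped Manifold

variable {n : ℕ} {S : Surface n} {N : ℕ} {ρ δ : ℝ}

/-- Plan: `S.M` is metrizable (compact, Hausdorff, second countable by charts); `atl`, `rado`,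
`sk` with `N₀ = (1 - chi K.T).toNat` and `ρ / 2`, `Tri.fine`, `Tri.isSurf`, `Tri.sad`,
`Tri.band_square`; compose with a retraction onto `Sq` (`Dsc.retract`, `dsc_convex`). -/
theorem exists_gd (S : Surface n) (hS : S.IsSaddle) :
    ∃ N : ℕ, ∀ ρ > 0, ∃ δ > 0, δ ≤ ρ ∧ Nonempty (GD S N ρ δ) := by
  have := S.t2
  have := S.compact
  have := S.connected
  have : SecondCountableTopology (EuclideanHalfSpace 2) :=
    inferInstanceAs (SecondCountableTopology {x : EuclideanSpace ℝ (Fin 2) // 0 ≤ x 0})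
  have := ChartedSpace.secondCountable_of_sigmaCompact (EuclideanHalfSpace 2) S.M
  let := TopologicalSpace.metrizableSpaceMetric S.M
  obtain ⟨K₀⟩ := rado (atl S)
  obtain ⟨N, hN⟩ := sk n (1 - chi K₀.T).toNat
  refine ⟨N, fun ρ hρ => ?_⟩
  obtain ⟨δ, h0, h1, hsk⟩ := hN (ρ / 2) (half_pos hρ)
  obtain ⟨ε, hε, hf⟩ := Metric.uniformContinuous_iff_le.1
    (CompactSpace.uniformContinuous_of_continuous S.continuous) δ h0
  obtain ⟨K, hχ, hK⟩ := K₀.fine isCompact_univ hε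
  have mesh : ∀ t ∈ K.T, ∀ x ∈ K.face t, ∀ y ∈ K.face t, dist (S.f x) (S.f y) ≤ δ :=
    fun t ht x hx y hy => hf (hK t ht x hx y hy)
  have surf := K.isSurf (atl S) S.boundary_nonempty
  have sad := Tri.sad S hS K h0.le mesh
  obtain ⟨Sv, Y, lab, m, W, L, z, sk⟩ := hsk _ _ _ surf (hχ ▸ Int.self_le_toNat _) sad
  choose Ψ c1 c2 c3 c4 c5 c6 c7 using fun j => K.band_square surf mesh
    ((sk.out j).mono_right fun v hv => Or.inl (sk.bd v hv).1) (sk.band j)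
  obtain ⟨s1, s2, s3, s4⟩ := sq_basic
  have hd := dsc_convex s1 s2 s3 continuousOn_id (injOn_id _)
  rw [image_id] at hd
  obtain ⟨r, r1, r2, r3⟩ := hd.retract
  have hi : ∀ j, ∀ A ⊆ Sq, (fun z => Ψ j (r z)) '' A = Ψ j '' A := fun j A hA =>
    image_congr fun z hz => by rw [r3 z (hA hz)]
  have hF : frontier Sq ⊆ Sq := s1.isClosed.frontier_subset
  have hn : ∀ j a b, Near (fun z => S.f (Ψ j (r z))) Sq δ a b → ∃ C ⊆ Sq, IsPreconnected C ∧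
      a ∈ C ∧ b ∈ C ∧ ∀ x ∈ C, ∀ y ∈ C, dist (S.f (Ψ j x)) (S.f (Ψ j y)) ≤ δ := by
    rintro j a b ⟨C, a1, a2, a3, a4, a5⟩
    refine ⟨C, a1, a2, a3, a4, fun x hx y hy => ?_⟩
    have := a5 x hx y hy
    simpa only [r3 x (a1 hx), r3 y (a1 hy), ← dist_eq_norm] using this
  refine ⟨δ, h0, by linarith, ⟨⟨K, Sv, Y, lab, m, W, L, z, fun j z => Ψ j (r z), h0, by linarith only [h1],
    surf, mesh, sad, sk, fun j => (c1 j).comp_continuous r1 r2, fun j x hx y hy h => ?_,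
    fun j => (hi j _ Subset.rfl).trans (c3 j), fun j => (hi j _ hF).trans (c4 j),
    fun j i => (hi j _ (Subset.trans ?_ hF)).trans (c5 j i),
    fun j => (hi j _ (union_subset ((c3_V _).2.1.trans hF) ((c3_V _).2.1.trans hF))).trans (c6 j),
    fun j a ha b hb h => ?_, fun j a ha b hb h => ?_⟩⟩⟩
  · simp only [r3 x hx, r3 y hy] at h
    exact c2 j hx hy h
  · rw [s4]
    cases i
    exacts [fun _ h => Or.inl (Or.inl (Or.inl h)), fun _ h => Or.inl (Or.inl (Or.inr h))]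
  · obtain ⟨C, a1, a2, a3, a4, a5⟩ := hn j a b h
    exact (c7 j C a1 a2 a5).1 ⟨⟨a, a3, ha⟩, b, a4, hb⟩
  · obtain ⟨C, a1, a2, a3, a4, a5⟩ := hn j a b h
    exact (c7 j C a1 a2 a5).2 ⟨⟨a, a3, ha⟩, b, a4, hb⟩

theorem near_homeo_sq {E : Type} [NormedAddCommGroup E] {f : ℂ → E} (k : ℂ ≃ₜ ℂ)
    (hk : k '' Sq = Sq) {r : ℝ} {a b : ℂ} (h : Near (fun z => f (k z)) Sq r a b) :
    Near f Sq r (k a) (k b) := by
  obtain ⟨C, a1, a2, a3, a4, a5⟩ := h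
  refine ⟨k '' C, hk ▸ image_mono a1, a2.image _ k.continuous.continuousOn, mem_image_of_mem _ a3,
    mem_image_of_mem _ a4, ?_⟩
  rintro _ ⟨x, hx, rfl⟩ _ ⟨y, hy, rfl⟩
  exact a5 x hx y hy

variable (g : GD S N ρ δ)

/-- The same skeleton in the charts of the networks. -/
@[reducible] noncomputable def GD.tw {e η s : ℝ} {M : ℕ} (X : Nets g.geo e η s M) :
    GD S N ρ δ :=
  { g with
    Ψ := fun j z => g.Ψ j (X.k j z)
    cont := fun j => (g.cont j).comp (X.k j).continuous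
    inj := fun j => (g.inj j).comp (X.k j).injective.injOn fun z hz =>
      X.sq j ▸ mem_image_of_mem _ hz
    img := fun j => by rw [← image_image (g.Ψ j), X.sq, g.img]
    fr := fun j => by rw [← image_image (g.Ψ j), (X.k j).image_frontier, X.sq, g.fr]
    sH := fun j i => by rw [← image_image (g.Ψ j), X.sqH, g.sH]
    sV := fun j => by rw [← image_image (g.Ψ j), image_union (X.k j), X.sqV, X.sqV, g.sV]
    long := fun j a ha b hb h => g.long j _ (X.sqH j false ▸ mem_image_of_mem _ ha) _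
      (X.sqH j true ▸ mem_image_of_mem _ hb)
      (near_homeo_sq (f := fun z => S.f (g.Ψ j z)) (X.k j) (X.sq j) h)
    wide := fun j a ha b hb h => g.wide j _ (X.sqV j false ▸ mem_image_of_mem _ ha) _
      (X.sqV j true ▸ mem_image_of_mem _ hb)
      (near_homeo_sq (f := fun z => S.f (g.Ψ j z)) (X.k j) (X.sq j) h) }

theorem GD.tw_cl {e η s : ℝ} {M : ℕ} (X : Nets g.geo e η s M) (a : g.K.V) :
    (g.tw X).Cl a = g.Cl a := by
  unfold GD.Cl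
  simp only [(g.tw X).sH, g.sH]

/-- `Tri.disc_of_acyc`. -/
theorem GD.disc (c : g.Cp) : Dsc (g.K.N c.1) (g.K.N c.1 ∩ g.K.N c.1ᶜ) := by
  have := S.t2
  have := S.compact
  obtain ⟨_, u, hu, rfl⟩ := c
  exact g.K.disc_of_acyc g.surf ⟨u, Jn.refl hu⟩ (conn_comp _ _) (g.sk.disc u)
    (g.bd_disj.2.1.mono_left fun v hv => Jn.right hv)

/-- A long side lies on the frontier of one disc (`Tri.conn_tiles`). -/
theorem GD.side (j : Fin g.m) (σ : Bool) :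
    ∃ c : g.Cp, g.Ψ j '' SqV σ ⊆ g.K.N c.1 ∩ g.K.N c.1ᶜ := by
  have := S.t2
  have := S.compact
  have h1 : ∀ x ∈ g.Ψ j '' SqV σ, x ∈ g.K.N g.U ∧ x ∈ g.K.N (g.W j) := by
    intro x hx
    have h2 : x ∈ g.Ψ j '' (SqV false ∪ SqV true) := by
      refine image_mono ?_ hx
      cases σ
      exacts [subset_union_left, subset_union_right]
    rw [g.sV] at h2
    obtain ⟨t, ht, hx⟩ := mem_iUnion₂.1 h2
    obtain ⟨v, hv, hxv⟩ := mem_iUnion₂.1 hx.2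
    have hvt : v ∈ t := by
      by_contra h
      exact (g.K.tile_basic.2.2.1 v x hxv).ne' (hx.1.1.2 v h)
    exact ⟨mem_biUnion (((g.sk.band j).rest t ht.1 (fun h => ht.2 (Or.inl h))
      (fun h => ht.2 (Or.inr h)) v hvt).resolve_left hv) hxv, hx.1.2⟩
  have h2 : Convex ℝ (SqV σ) :=
    ((convex_singleton (if σ then 1 else 0 : ℝ)).linear_preimage Complex.reLm).inter
      ((convex_Icc 0 1).linear_preimage Complex.imLm)
  have h3 := g.K.conn_tiles g.U (h2.isPreconnected.image _ (g.cont j).continuousOn)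
    fun x hx => (h1 x hx).1
  have h4 : g.Ψ j ⟨if σ then 1 else 0, 0⟩ ∈ g.Ψ j '' SqV σ :=
    mem_image_of_mem _ ⟨rfl, le_rfl, zero_le_one⟩
  obtain ⟨u, hu, hxu⟩ := mem_iUnion₂.1 (h1 _ h4).1
  refine ⟨⟨_, u, hu, rfl⟩, fun x hx => ⟨?_, ?_⟩⟩
  · obtain ⟨v, hv, hxv⟩ := mem_iUnion₂.1 (h1 x hx).1
    exact mem_biUnion ((h3 u ⟨hu, _, hxu, h4⟩ v ⟨hv, x, hxv, hx⟩).mono fun _ h => h.1) hxv
  · obtain ⟨w, hw, hxw⟩ := mem_iUnion₂.1 (h1 x hx).2
    exact mem_biUnion (fun h => Jn.right h (Or.inr (mem_iUnion.2 ⟨j, hw⟩))) hxw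

/-- A corner of a band (`Tri.J_inter`). -/
theorem GD.corner (j : Fin g.m) {σ i : Bool} {y : ℂ} (h1 : y ∈ SqV σ) (h2 : y ∈ SqH i) :
    ∃ w ∈ g.W j, ∃ u ∈ g.U, ∃ c ∈ g.L j i, ∃ t ∈ Rest g.K.T (g.W j) (g.L j),
      w ∈ c ∧ u ∈ c ∧ w ∈ t ∧ u ∈ t ∧ g.Ψ j y ∈ g.K.ctr {w, u} := by
  have := S.t2
  have := S.compact
  have h3 : g.Ψ j y ∈ g.Ψ j '' (SqV false ∪ SqV true) := by
    refine mem_image_of_mem _ ?_
    cases σ
    exacts [Or.inl h1, Or.inr h1]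
  have h4 := mem_image_of_mem (g.Ψ j) h2
  rw [g.sV] at h3
  rw [g.sH] at h4
  obtain ⟨t, ht, hx⟩ := mem_iUnion₂.1 h3
  obtain ⟨c, hc, hx'⟩ := mem_iUnion₂.1 h4
  have hne : c ≠ t := by
    rintro rfl
    cases i
    exacts [ht.2 (Or.inl hc), ht.2 (Or.inr hc)]
  obtain ⟨w, hw, v, hv, a1, a2, a3, a4, a5⟩ :=
    g.K.J_inter ((g.sk.band j).mix i c hc).1 ht.1.1 hne hx' hx
  exact ⟨w, hw, v, ((g.sk.band j).rest t ht.1 (fun h => ht.2 (Or.inl h))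
    (fun h => ht.2 (Or.inr h)) v a4).resolve_left hv, c, hc, t, ht, a1, a2, a3, a4, a5⟩

/-- The frontier of a disc lies in classes and in the frontiers of bands. -/
theorem GD.disc_fr (c : g.Cp) {x : S.M} (h : x ∈ g.K.N c.1) (h' : x ∈ g.K.N c.1ᶜ) :
    x ∈ g.K.N g.Sv ∨ ∃ j, x ∈ g.Ψ j '' frontier Sq := by
  have := S.t2
  have := S.compact
  obtain ⟨_, u₀, hu₀, rfl⟩ := c
  obtain ⟨u, hu, hxu⟩ := mem_iUnion₂.1 h
  obtain ⟨v, hv, hxv⟩ := mem_iUnion₂.1 h'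
  have hU : u ∈ g.U := Jn.right hu
  have ha := (g.K.tile_basic.2.2.2.2.1 u v x hxu hxv).resolve_left fun e => hv (e ▸ hu)
  have hv' : v ∈ g.Sv ∪ g.Y ∪ ⋃ j, g.W j := not_not.1 fun e => hv (Jn.step hu e ha)
  rcases hv' with (hv' | hv') | hv'
  · exact Or.inl (mem_biUnion hv' hxv)
  · exact (disjoint_left.1 g.disj.1 (mem_biUnion hv' hxv)
      (mem_biUnion (fun e => hU (Or.inl e)) hxu)).elim
  · obtain ⟨j, hj⟩ := mem_iUnion.1 hv'
    refine Or.inr ⟨j, ?_⟩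
    rw [g.fr]
    exact ⟨mem_biUnion hj hxv, mem_biUnion (fun e => hU (Or.inr (mem_iUnion.2 ⟨j, e⟩))) hxu⟩

theorem GD.cover (x : S.M) : x ∈ g.K.N (g.Sv ∪ g.Y) ∨ (∃ c : g.Cp, x ∈ g.K.N c.1) ∨
    ∃ j, x ∈ g.Ψ j '' Sq := by
  have := S.t2
  have := S.compact
  obtain ⟨v, hv⟩ := g.K.tile_basic.2.1 x
  by_cases hU : v ∈ g.U
  · exact Or.inr (Or.inl ⟨⟨_, v, hU, rfl⟩, mem_biUnion (Jn.refl hU) hv⟩)
  rcases (not_not.1 hU : v ∈ g.Sv ∪ g.Y ∪ ⋃ j, g.W j) with h | h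
  · exact Or.inl (mem_biUnion h hv)
  · obtain ⟨j, hj⟩ := mem_iUnion.1 h
    refine Or.inr (Or.inr ⟨j, ?_⟩)
    rw [g.img]
    exact mem_biUnion hj hv

end Pool.Agent.MP_17e62b_gt.T55

end

section

/-!
Sites exist.
-/

namespace Pool.Agent.MP_17e62b_gt.T55

open Set Metric Topology H14 G
open scoped Manifold

theorem g4_mid {y : ℂ} (h : y.re = 1 / 2) : y = ⟨1 / 2, y.im⟩ := Complex.ext h rfl

theorem g4_H (i : Bool) : SqH i ⊆ Sq := fun z h => ⟨h.1, by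
  rw [h.2]
  cases i <;> simp only [Bool.false_eq_true, ↓ reduceIte, mem_Icc, Std.le_refl, zero_le_one, and_self]⟩

theorem g4_lines : SqH false ∪ SqH true ∪ Mid ⊆ Sq :=
  union_subset (union_subset (g4_H _) (g4_H _)) fun _ h => h.1

theorem g4_Hl (i : Bool) : SqH i ⊆ SqH false ∪ SqH true ∪ Mid := by
  cases i
  · exact fun _ h => Or.inl (Or.inl h)
  · exact fun _ h => Or.inl (Or.inr h)

theorem g4_pt (i : Bool) : (⟨1 / 2, if i then 1 else 0⟩ : ℂ) ∈ SqH i :=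
  ⟨⟨by norm_num, by norm_num⟩, rfl⟩

/-- Plan: a cut node exists, since otherwise the whole middle line is small (`ends`, `gap`). The
label of `t` is the highest cut node below `t`, or else the lowest cut node. -/
theorem cut_label {E : Type} [NormedAddCommGroup E] [NormedSpace ℝ E] {f : ℂ → E}
    {d δ e η s : ℝ} {M : ℕ} (B : BandNet f d (δ / 10) e η s M) (he : e ≤ δ / 10)
    (hl : ∀ a ∈ SqH false, ∀ b ∈ SqH true, ¬ Near f Sq δ a b) :
    ∃ ν : ℂ → {p // B.IsCut p}, (∀ p : {p // B.IsCut p}, ν (B.pt p) = p) ∧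
      (∀ y ∈ Mid, y.im ∈ Icc B.y0 B.y1 → ‖f y - f (B.pt (ν y))‖ ≤ e) ∧
      ∀ p, IsPreconnected {y ∈ Mid | y.im ∈ Icc B.y0 B.y1 ∧ ν y = p} := by
  obtain ⟨y1, y2, y3⟩ := B.y_lt
  have ne : Nonempty {p // B.IsCut p} := by
    by_contra hn
    have a1 : ∀ t ∈ Icc B.y0 B.y1, ‖f ⟨1 / 2, B.y0⟩ - f ⟨1 / 2, t⟩‖ ≤ e := fun t ht =>
      B.gap _ _ y1.le ht.1 (ht.2.trans y3.le) fun p hp h =>
        hn ⟨⟨p, hp, h.1.le, h.2.le.trans ht.2⟩⟩
    have a0 : 0 ≤ e := (norm_nonneg _).trans (a1 _ ⟨le_rfl, y2.le⟩)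
    have a2 : ∀ z ∈ Mid, ‖f ⟨1 / 2, B.y0⟩ - f z‖ ≤ δ / 5 := by
      intro z hz
      rw [g4_mid hz.2]
      rcases le_total z.im B.y0 with h | h
      · linarith only [B.ends _ _ (Or.inl ⟨⟨y1.le, le_rfl⟩, ⟨hz.1.2.1, h⟩⟩), he, a0]
      · rcases le_total z.im B.y1 with h' | h'
        · linarith only [a1 _ ⟨h, h'⟩, he, a0]
        · linarith [B.ends _ _ (Or.inr ⟨⟨le_rfl, y3.le⟩, ⟨h', hz.1.2.2⟩⟩), a1 _ ⟨y2.le, le_rfl⟩,
            norm_sub_le_norm_sub_add_norm_sub (f ⟨1 / 2, B.y0⟩) (f ⟨1 / 2, B.y1⟩)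
              (f ⟨1 / 2, z.im⟩)]
    refine hl _ (g4_pt false) _ (g4_pt true) ⟨Mid, fun _ h => h.1,
      f6_seg ▸ (convex_segment _ _).isPreconnected, ⟨g4_H _ (g4_pt _), rfl⟩,
      ⟨g4_H _ (g4_pt _), rfl⟩, fun a ha b hb => ?_⟩
    linarith [a2 a ha, a2 b hb, norm_sub_rev (f a) (f ⟨1 / 2, B.y0⟩),
      norm_sub_le_norm_sub_add_norm_sub (f a) (f ⟨1 / 2, B.y0⟩) (f b)]
  have inj : ∀ p q : {p // B.IsCut p}, (B.pt p).im = (B.pt q).im → p = q := fun p q h =>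
    Subtype.ext (B.inj (Complex.ext (p.2.1.trans q.2.1.symm) h))
  have ex : ∀ t : ℝ, ∃ p : {p // B.IsCut p}, ((B.pt p).im ≤ t ∧
      ∀ q : {p // B.IsCut p}, (B.pt q).im ≤ t → (B.pt q).im ≤ (B.pt p).im) ∨
      ∀ q : {p // B.IsCut p}, t < (B.pt q).im ∧ (B.pt p).im ≤ (B.pt q).im := by
    intro t
    rcases {q : {p // B.IsCut p} | (B.pt q).im ≤ t}.eq_empty_or_nonempty with h | h
    · obtain ⟨p, hp⟩ := Finite.exists_min fun q : {p // B.IsCut p} => (B.pt q).im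
      exact ⟨p, Or.inr fun q => ⟨not_le.1 fun g => (h.subset g).elim, hp q⟩⟩
    · obtain ⟨p, h1, h2⟩ := exists_max_image _ (fun q : {p // B.IsCut p} => (B.pt q).im)
        (toFinite _) h
      exact ⟨p, Or.inl ⟨h1, h2⟩⟩
  choose ν hν using ex
  have mono : ∀ t t', t ≤ t' → (B.pt (ν t)).im ≤ (B.pt (ν t')).im := by
    intro t t' h
    rcases hν t with g | g
    · rcases hν t' with g' | g'
      · exact g'.2 _ (g.1.trans h)
      · exact absurd (g.1.trans h) (g' _).1.not_ge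
    · exact (g _).2
  refine ⟨fun y => ν y.im, fun p => inj _ _ ?_, fun y hy hi => ?_, fun p => ?_⟩
  · rcases hν (B.pt p).im with g | g
    · exact g.1.antisymm (g.2 p le_rfl)
    · exact absurd (g p).1 (lt_irrefl _)
  · have c := (ν y.im).2
    rw [g4_mid hy.2, g4_mid c.1]
    rcases hν y.im with g | g
    · rw [norm_sub_rev]
      exact B.gap _ _ (y1.le.trans c.2.1) g.1 hy.1.2.2 fun q hq h =>
        (g.2 ⟨q, hq, c.2.1.trans h.1.le, h.2.le.trans hi.2⟩ h.2.le).not_gt h.1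
    · exact B.gap _ _ hy.1.2.1 (g _).1.le (c.2.2.trans y3.le) fun q hq h =>
        (g ⟨q, hq, hi.1.trans h.1.le, h.2.le.trans c.2.2⟩).2.not_gt h.2
  · have o : ({t | t ∈ Icc B.y0 B.y1 ∧ ν t = p}).OrdConnected := ⟨fun a ha b hb t ht =>
      ⟨⟨ha.1.1.trans ht.1, ht.2.trans hb.1.2⟩,
        inj _ _ ((hb.2 ▸ mono _ _ ht.2).antisymm (ha.2 ▸ mono _ _ ht.1))⟩⟩
    convert o.isPreconnected.image (fun t : ℝ => (⟨1 / 2, t⟩ : ℂ))
      (Complex.equivRealProdCLM.symm.continuous.comp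
        (continuous_const.prodMk continuous_id)).continuousOn using 1
    ext y
    constructor
    · rintro ⟨h1, h2⟩
      exact ⟨y.im, h2, (g4_mid h1.2).symm⟩
    · rintro ⟨t, h, rfl⟩
      exact ⟨⟨⟨⟨by norm_num, by norm_num⟩, y1.le.trans h.1.1, h.1.2.trans y3.le⟩, rfl⟩, h⟩

theorem g4_conn {E : Type} [NormedAddCommGroup E] [NormedSpace ℝ E] {f : ℂ → E}
    {d r e η s : ℝ} {M : ℕ} (B : BandNet f d r e η s M) (i : Bool) {H : Set ℂ} (hH : Convex ℝ H)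
    (h : Mid ⊆ H) : IsPreconnected (H ∩ B.En i) := by
  have c1 : Convex ℝ (SqH i) := ((convex_Icc 0 1).linear_preimage Complex.reLm).inter
    ((convex_singleton _).linear_preimage Complex.imLm)
  have c2 : Convex ℝ {z ∈ Mid | if i then B.y1 < z.im else z.im < B.y0} := by
    refine (f6_seg ▸ convex_segment _ _ : Convex ℝ Mid).inter ?_
    cases i
    · exact convex_halfSpace_im_lt _
    · exact convex_halfSpace_im_gt _
  have m : (⟨1 / 2, if i then 1 else 0⟩ : ℂ) ∈ Mid := ⟨g4_H _ (g4_pt i), rfl⟩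
  have m' : (⟨1 / 2, if i then 1 else 0⟩ : ℂ) ∈
      {z ∈ Mid | if i then B.y1 < z.im else z.im < B.y0} := by
    refine ⟨m, ?_⟩
    cases i
    · exact B.y_lt.1
    · exact B.y_lt.2.2
  convert IsPreconnected.union _ (mem_inter (h m) (g4_pt i)) m' (hH.inter c1).isPreconnected
    c2.isPreconnected using 1
  ext z
  constructor
  · rintro ⟨h1, h2, h3 | h3⟩
    · exact Or.inl ⟨h1, h3⟩
    · exact Or.inr ⟨⟨h2, h3.1⟩, h3.2⟩
  · rintro (⟨h1, h2⟩ | ⟨h1, h2⟩)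
    · exact ⟨h1, g4_H i h2, Or.inl h2⟩
    · exact ⟨h h1, h1.1, Or.inr ⟨h1.2, h2⟩⟩

theorem g4_en {E : Type} [NormedAddCommGroup E] [NormedSpace ℝ E] {f : ℂ → E}
    {d r e η s : ℝ} {M : ℕ} (B : BandNet f d r e η s M) {i : Bool} {y : ℂ} (h : y ∈ B.En i) :
    y ∈ SqH false ∪ SqH true ∪ Mid ∧ if i then B.y1 < y.im else y.im < B.y0 := by
  rcases h with ⟨h1, h2 | h2⟩
  · refine ⟨g4_Hl i h2, ?_⟩
    rw [h2.2]
    cases i
    · exact B.y_lt.1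
    · exact B.y_lt.2.2
  · exact ⟨Or.inr ⟨h1, h2.1⟩, h2.2⟩

variable {n : ℕ} {S : Surface n} {N : ℕ} {ρ δ : ℝ} {g : GD S N ρ δ} {e η s : ℝ} {M : ℕ}
  {B : g.BN e η s M}

theorem g4_N (g : GD S N ρ δ) (j : Fin g.m) {y : ℂ} (h : y ∈ Sq) : g.Ψ j y ∈ g.K.N (g.W j) :=
  g.img j ▸ mem_image_of_mem _ h

theorem g4_uniq (g : GD S N ρ δ) {j k : Fin g.m} {y y' : ℂ} (h : y ∈ Sq) (h' : y' ∈ Sq)
    (e : g.Ψ j y = g.Ψ k y') : j = k ∧ y = y' := by
  obtain rfl : j = k := by_contra fun c =>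
    disjoint_left.1 (g.disj.2.1 j k c) (g4_N g j h) (e ▸ g4_N g k h')
  exact ⟨rfl, g.inj j h h' e⟩

theorem g4_end (g : GD S N ρ δ) {y : S.M} (h : y ∈ g.K.N g.U) (h' : y ∈ g.Lines) :
    ∃ j i, y ∈ g.Ψ j '' SqH i := by
  obtain ⟨j, z, hz, rfl⟩ := mem_iUnion.1 h'
  obtain ⟨u, hu, h⟩ := mem_iUnion₂.1 h
  have h1 := (g.int_band j (g4_lines hz)).1
    (mem_iUnion₂.2 ⟨u, fun c => hu (Or.inr (mem_iUnion.2 ⟨j, c⟩)), h⟩)
  rcases hz with (hz | hz) | hz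
  · exact ⟨j, false, z, hz, rfl⟩
  · exact ⟨j, true, z, hz, rfl⟩
  · rcases f6_ends.subset ⟨hz, h1⟩ with rfl | rfl
    · exact ⟨j, false, _, g4_pt false, rfl⟩
    · exact ⟨j, true, _, g4_pt true, rfl⟩

theorem g4_sub (g : GD S N ρ δ) (j : Fin g.m) (i : Bool) : g.Ψ j '' SqH i ⊆ g.Lines :=
  (image_mono (g4_Hl i)).trans (subset_iUnion (fun j => g.Ψ j '' _) j)

theorem en_conn (B : g.BN e η s M) (j : Fin g.m) (i σ : Bool) : IsPreconnected ((B j).En i) ∧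
    IsPreconnected (Half σ ∩ (B j).En i) ∧ SqH i ⊆ (B j).En i := by
  refine ⟨?_, g4_conn _ i (half_basic σ).2.1 ((f6_mid σ).trans
    (half_basic σ).1.isClosed.frontier_subset), fun z h => ⟨g4_H i h, Or.inl h⟩⟩
  simpa using g4_conn (B j) i convex_univ (subset_univ _)

theorem lines_cases (B : g.BN e η s M) (j : Fin g.m) {y : ℂ}
    (h : y ∈ SqH false ∪ SqH true ∪ Mid) :
    (∃ i, y ∈ (B j).En i) ∨ (y ∈ Mid ∧ y.im ∈ Icc (B j).y0 (B j).y1) := by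
  rcases h with (h | h) | h
  · exact Or.inl ⟨false, g4_H _ h, Or.inl h⟩
  · exact Or.inl ⟨true, g4_H _ h, Or.inl h⟩
  · rcases lt_or_ge y.im (B j).y0 with h1 | h1
    · exact Or.inl ⟨false, h.1, Or.inr ⟨h.2, h1⟩⟩
    · rcases lt_or_ge (B j).y1 y.im with h2 | h2
      · exact Or.inl ⟨true, h.1, Or.inr ⟨h.2, h2⟩⟩
      · exact Or.inr ⟨h, h1, h2⟩

/-- Plan: `ch y` is the least vertex whose dual cell contains `y`, for an injective rank that puts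
`Sv` first and `Y` next. The bands are disjoint and `g.Ψ j` is injective on `Sq`. -/
theorem exists_site (B : g.BN e η s M) (he : e ≤ δ / 10) : Nonempty (Site B) := by
  classical
  choose ν n1 n2 n3 using fun j => cut_label (B j) he (g.long j)
  obtain ⟨r, r1, r2, r3⟩ : ∃ r : g.K.V → ℕ ×ₗ ℕ, Function.Injective r ∧
      (∀ v w, r v ≤ r w → w ∈ g.Sv → v ∈ g.Sv) ∧
      ∀ v w, r v ≤ r w → w ∈ g.Sv ∪ g.Y → v ∈ g.Sv ∪ g.Y := by
    refine ⟨fun v => toLex (if v ∈ g.Sv then 0 else if v ∈ g.Y then 1 else 2,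
      (Fintype.equivFin _ v : ℕ)), fun v w h => (Fintype.equivFin _).injective
        (Fin.ext (congrArg (fun x => (ofLex x).2) h)), fun v w h hw => ?_, fun v w h hw => ?_⟩
    · have := Prod.Lex.monotone_fst _ _ h
      by_contra c
      simp only [ofLex_toLex, if_pos hw, if_neg c] at this
      split_ifs at this <;> omega
    · have := Prod.Lex.monotone_fst _ _ h
      by_contra c
      simp only [ofLex_toLex, if_neg fun a => c (Or.inl a), if_neg fun a => c (Or.inr a)] at this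
      split_ifs at this with h1 h2
      · omega
      · omega
      · exact hw.elim h1 h2
  choose ch c1 c2 using fun y : S.M => exists_min_image {v | y ∈ g.K.tile v} r (toFinite _)
    (g.K.tile_basic.2.1 y)
  have ex : ∀ y : S.M, ∃ a : B.Nu ⊕ g.K.V,
      (∀ j i, ∀ z ∈ (B j).En i, g.Ψ j z = y → a = .inl (.inl (g.en j i))) ∧
      (∀ j, ∀ z ∈ Mid, z.im ∈ Icc (B j).y0 (B j).y1 → g.Ψ j z = y → a = .inl (.inr ⟨j, ν j z⟩)) ∧
      (y ∉ g.Lines → ch y ∈ g.Sv → ∃ x : g.κ, x.1 = g.lab (ch y) ∧ a = .inl (.inl x)) ∧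
      (y ∉ g.Lines → ch y ∉ g.Sv → a = .inr (ch y)) := by
    intro y
    by_cases hy : y ∈ g.Lines
    · obtain ⟨j, z, hz, rfl⟩ := mem_iUnion.1 hy
      rcases lines_cases B j hz with ⟨i, h⟩ | h
      · refine ⟨.inl (.inl (g.en j i)), fun k i' z' h' e => ?_, fun k z' h' h'' e => ?_,
          fun c => absurd hy c, fun c => absurd hy c⟩
        · obtain ⟨rfl, rfl⟩ := g4_uniq g h'.1 h.1 e
          have a1 := (g4_en _ h).2
          have a2 := (g4_en _ h').2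
          have a3 := (B k).y_lt.2.1
          cases i <;> cases i' <;> simp only [Bool.false_eq_true, if_false, if_true] at a1 a2 <;>
            first | rfl | linarith only [a3, a1, a2]
        · obtain ⟨rfl, rfl⟩ := g4_uniq g h'.1 h.1 e
          have a1 := (g4_en _ h).2
          cases i <;> simp only [Bool.false_eq_true, if_false, if_true] at a1 <;>
            linarith only [h''.1, h''.2, a1]
      · refine ⟨.inl (.inr ⟨j, ν j z⟩), fun k i z' h' e => ?_, fun k z' h' h'' e => ?_,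
          fun c => absurd hy c, fun c => absurd hy c⟩
        · obtain ⟨rfl, rfl⟩ := g4_uniq g h'.1 h.1.1 e
          have a1 := (g4_en _ h').2
          cases i <;> simp only [Bool.false_eq_true, if_false, if_true] at a1 <;>
            linarith only [h.2.1, h.2.2, a1]
        · obtain ⟨rfl, rfl⟩ := g4_uniq g h'.1 h.1.1 e
          rfl
    · have a1 : ∀ j, ∀ z ∈ SqH false ∪ SqH true ∪ Mid, g.Ψ j z ≠ y := fun j z hz e =>
        hy (mem_iUnion.2 ⟨j, z, hz, e⟩)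
      by_cases hS : ch y ∈ g.Sv
      · exact ⟨.inl (.inl ⟨g.lab (ch y), (g.sk.cls _ hS).1, (g.sk.cls _ hS).2.1⟩),
          fun j i z h e => absurd e (a1 j z (g4_en _ h).1),
          fun j z h _ e => absurd e (a1 j z (Or.inr h)), fun _ _ => ⟨_, rfl, rfl⟩,
          fun _ c => absurd hS c⟩
      · exact ⟨.inr (ch y), fun j i z h e => absurd e (a1 j z (g4_en _ h).1),
          fun j z h _ e => absurd e (a1 j z (Or.inr h)), fun _ c => absurd c hS, fun _ _ => rfl⟩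
  choose σ s1 s2 s3 s4 using ex
  refine ⟨⟨σ, ch, c1, fun y hy => ?_, fun y hy => ?_,
    fun y y' h h' => r1 ((c2 y' _ h').antisymm (c2 y _ (h _ (c1 y')))),
    fun j i y h => s1 _ j i y h rfl, fun j p => ?_,
    fun j y h h' => ⟨ν j y, s2 _ j y h h' rfl, n2 j y h h'⟩, fun j p => ?_, s3, s4⟩⟩
  · obtain ⟨w, h1, h2⟩ := mem_iUnion₂.1 hy
    exact r2 _ w (c2 y w h2) h1
  · obtain ⟨w, h1, h2⟩ := mem_iUnion₂.1 hy
    exact r3 _ w (c2 y w h2) h1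
  · rw [s2 _ j _ ⟨(B j).mem p, p.2.1⟩ p.2.2 rfl, n1]
  · convert n3 j p using 1
    ext y
    refine and_congr_right fun h => and_congr_right fun h' => ?_
    rw [s2 _ j y h h' rfl, Sum.inl.injEq, Sum.inr.injEq]
    exact sigma_mk_injective.eq_iff

theorem Site.cl (Z : Site B) {y : S.M} (h : y ∈ g.K.N g.Sv ∨ ∃ j i, y ∈ g.Ψ j '' SqH i) :
    ∃ x : g.κ, Z.σ y = .inl (.inl x) ∧ y ∈ g.Cl x.1 := by
  have a : ∀ j i, y ∈ g.Ψ j '' SqH i → ∃ x : g.κ, Z.σ y = .inl (.inl x) ∧ y ∈ g.Cl x.1 := by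
    rintro j i ⟨z, hz, rfl⟩
    exact ⟨g.en j i, Z.en j i z ((en_conn B j i i).2.2 hz), Or.inr ⟨j, i, rfl, z, hz, rfl⟩⟩
  rcases h with h | ⟨j, i, h⟩
  · by_cases hy : y ∈ g.Lines
    · obtain ⟨j, z, hz, rfl⟩ := mem_iUnion.1 hy
      rcases g.band_S j (g4_lines hz) (biUnion_subset_biUnion_left subset_union_left h) with c | c
      · exact a j false ⟨z, c, rfl⟩
      · exact a j true ⟨z, c, rfl⟩
    · obtain ⟨x, h1, h2⟩ := Z.offS y hy (Z.ch_S y h)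
      exact ⟨x, h2, Or.inl (mem_iUnion₂.2 ⟨Z.ch y, ⟨Z.ch_S y h, h1.symm⟩, Z.ch_mem y⟩)⟩
  · exact a j i h

theorem Site.vtx (Z : Site B) (v : g.K.V) : g.K.pt v ∈ g.K.skel {v} ∧
    (v ∈ g.Sv → ∃ x : g.κ, x.1 = g.lab v ∧ Z.σ (g.K.pt v) = .inl (.inl x)) ∧
    (v ∈ g.Y → Z.σ (g.K.pt v) = .inr v) := by
  have a1 : ∀ w, g.K.pt v ∈ g.K.tile w → w = v := fun w h => by_contra fun c =>
    (c1_pos g.K h).ne' (by rw [g.K.lam_pt, Pi.single_eq_of_ne c])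
  have a2 : v ∈ g.Sv ∪ g.Y → g.K.pt v ∉ g.Lines := fun hv h => by
    obtain ⟨j, z, hz, e⟩ := mem_iUnion.1 h
    obtain ⟨w, h1, h2⟩ := mem_iUnion₂.1 (e ▸ g4_N g j (g4_lines hz))
    exact disjoint_left.1 (g.sk.out j) (a1 w h2 ▸ h1) hv
  have a3 : Z.ch (g.K.pt v) = v := a1 _ (Z.ch_mem _)
  refine ⟨?_, fun h => ?_, fun h => ?_⟩
  · obtain ⟨t, ht, hv⟩ := g.K.used v
    obtain ⟨w, hw, ne⟩ := Finset.exists_mem_ne (by rw [g.K.card t ht]; norm_num : 1 < t.card) v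
    have b1 : ({v} : Finset g.K.V) ⊆ {v, w} := by simp
    have b2 : ({v, w} : Finset g.K.V).card = ({v} : Finset g.K.V).card + 1 := by
      rw [Finset.card_pair ne.symm, Finset.card_singleton]
    refine ⟨{v}, {v, w}, ⟨t, ht, by simp [Finset.insert_subset_iff, hv, hw]⟩, b1, b2,
      ⟨v, by simp, rfl⟩, (c1_seg g.K b1 b2).2 ⟨⟨trivial, fun u hu => ?_⟩, fun u hu => ?_⟩⟩
    · rw [g.K.lam_pt, Pi.single_eq_of_ne fun c => hu (by simp [c])]
    · rw [Finset.mem_singleton.1 hu]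
      exact g.K.tile_basic.2.2.2.1 v
  · simpa only [a3] using Z.offS _ (a2 (Or.inl h)) (a3.symm ▸ h)
  · simpa only [a3] using Z.offY _ (a2 (Or.inr h))
      (a3.symm ▸ fun c => disjoint_left.1 g.sk.disj c h)

theorem Site.same (Z : Site B) {y y' : S.M} (hy : y ∈ g.K.N g.U) (h : g.K.Same y y') :
    Z.σ y = Z.σ y' := by
  have a : ∀ {x x' : S.M}, g.K.Same x x' → ∀ j i, x ∈ g.Ψ j '' SqH i → x' ∈ g.Ψ j '' SqH i := by
    intro x x' h j i hx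
    rw [g.sH] at hx ⊢
    obtain ⟨t, h1, h2⟩ := mem_iUnion₂.1 hx
    exact mem_iUnion₂.2 ⟨t, h1, h.mem.2.2.1 _ t h2⟩
  by_cases h1 : y ∈ g.Lines
  · obtain ⟨j, i, h2⟩ := g4_end g hy h1
    obtain ⟨z', hz', rfl⟩ := a h j i h2
    obtain ⟨z, hz, rfl⟩ := h2
    rw [Z.en j i z ((en_conn B j i i).2.2 hz), Z.en j i z' ((en_conn B j i i).2.2 hz')]
  · have h2 : y' ∉ g.Lines := fun c => by
      obtain ⟨j, i, h2⟩ := g4_end g (h.mem.1 _ hy) c
      exact h1 (g4_sub g j i (a (g.K.same_equiv.symm h) j i h2))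
    have h3 : Z.ch y' = Z.ch y :=
      Z.ch_min y y' (fun v => (h.1 v).2) ((h.1 _).1 (Z.ch_mem y))
    by_cases hS : Z.ch y ∈ g.Sv
    · obtain ⟨x, e1, e2⟩ := Z.offS y h1 hS
      obtain ⟨x', e1', e2'⟩ := Z.offS y' h2 (h3.symm ▸ hS)
      rw [e2, e2', Subtype.ext (e1.trans (h3 ▸ e1').symm)]
    · rw [Z.offY y h1 hS, Z.offY y' h2 (h3.symm ▸ hS), h3]

theorem Site.inr (Z : Site B) {y : S.M} (hy : y ∈ g.Gam) {v : g.K.V} (h : Z.σ y = .inr v) :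
    v ∈ g.Y ∧ y ∈ g.K.tile v := by
  have := S.t2
  have := S.compact
  have h1 : y ∉ g.Lines := fun c => by
    obtain ⟨j, z, hz, rfl⟩ := mem_iUnion.1 c
    rcases lines_cases B j hz with ⟨i, c⟩ | c
    · exact Sum.inl_ne_inr ((Z.en j i z c).symm.trans h)
    · obtain ⟨p, e, -⟩ := Z.mid j z c.1 c.2
      exact Sum.inl_ne_inr (e.symm.trans h)
  have h2 : Z.ch y ∉ g.Sv := fun c => by
    obtain ⟨x, -, e⟩ := Z.offS y h1 c
    exact Sum.inl_ne_inr (e.symm.trans h)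
  obtain rfl := Sum.inr.inj ((Z.offY y h1 h2).symm.trans h)
  exact ⟨(Z.ch_Y y ((g.K.skel_iff _ y).1 (hy.resolve_right h1)).2).resolve_left h2, Z.ch_mem y⟩

theorem Site.val (Z : Site B) (he : e ≤ δ / 10) {y : S.M} (h : y ∈ g.K.N g.Sv ∪ g.Lines) :
    ∃ u, Z.σ y = .inl u ∧ ‖S.f y - B.fn u‖ ≤ 3 * ρ := by
  have p1 := g.pos
  have p2 := g.le
  have a : (y ∈ g.K.N g.Sv ∨ ∃ j i, y ∈ g.Ψ j '' SqH i) →
      ∃ u, Z.σ y = .inl u ∧ ‖S.f y - B.fn u‖ ≤ 3 * ρ := fun c => by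
    obtain ⟨x, h1, h2⟩ := Z.cl c
    exact ⟨_, h1, (g.rad _ y h2).trans (by linarith only [p1, p2])⟩
  rcases h with h | h
  · exact a (Or.inl h)
  obtain ⟨j, z, hz, rfl⟩ := mem_iUnion.1 h
  rcases lines_cases B j hz with ⟨i, c⟩ | c
  · rcases c.2 with c' | c'
    · exact a (Or.inr ⟨j, i, z, c', rfl⟩)
    · refine ⟨_, Z.en j i z c, ?_⟩
      have b1 := g.rad (g.z j i) _ (Or.inr ⟨j, i, rfl, _, g4_pt i, rfl⟩)
      have b2 := (B j).ends z.im (if i then 1 else 0) (by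
        cases i
        · exact Or.inl ⟨⟨c.1.2.1, le_of_lt c'.2⟩, le_rfl, (B j).y_lt.1.le⟩
        · exact Or.inr ⟨⟨le_of_lt c'.2, c.1.2.2⟩, (B j).y_lt.2.2.le, le_rfl⟩)
      rw [← g4_mid c'.1] at b2
      exact (norm_sub_le_norm_sub_add_norm_sub _ _ _).trans
        ((add_le_add b2 b1).trans (by linarith only [p1, p2]))
  · obtain ⟨p, h1, h2⟩ := Z.mid j z c.1 c.2
    exact ⟨_, h1, h2.trans (by linarith)⟩

end Pool.Agent.MP_17e62b_gt.T55

end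

section

/-!
The fibres of the sites are connected.
-/

namespace Pool.Agent.MP_17e62b_gt.T55

open Set Metric Topology H14 G
open scoped Manifold

section Aux

variable {M : Type} [TopologicalSpace M] [T2Space M]

omit [T2Space M] in
theorem g5_arc {e C : Set M} {a b : M} (h : Arc e a b) (h1 : e \ {a, b} ⊆ C) (h2 : C ⊆ e) :
    IsPreconnected C :=
  h.basic.2.2.2.2.2.1.subset_closure h1 (h2.trans h.basic.2.2.2.2.2.2)

variable [CompactSpace M] (K : Tri (univ : Set M))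

omit [T2Space M] [CompactSpace M] in
theorem g5_pt {u w : K.V} (h : K.pt u ∈ K.tile w) : w = u := by
  by_contra hne
  have := c1_pos K h
  rw [K.lam_pt, Pi.single_eq_of_ne hne] at this
  exact lt_irrefl _ this

omit [T2Space M] [CompactSpace M] in
theorem g5_half {H : Set K.V} {u v : K.V} (hu : u ∈ H) (h : Adj K.T u v) :
    K.seg {u} {u, v} ⊆ K.skel H := by
  obtain ⟨hne, t, ht, h1, h2⟩ := h
  exact fun x hx => ⟨{u}, {u, v}, ⟨t, ht, by simp [Finset.insert_subset_iff, h1, h2]⟩, by simp,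
    by rw [Finset.card_pair hne, Finset.card_singleton], ⟨u, by simp, hu⟩, hx⟩

omit [T2Space M] [CompactSpace M] in
theorem g5_mid {H : Set K.V} {u v : K.V} {t : Finset K.V} (hu : u ∈ H) (ht : t ∈ K.T)
    (hne : u ≠ v) (h1 : u ∈ t) (h2 : v ∈ t) : K.seg {u, v} t ⊆ K.skel H :=
  fun x hx => ⟨{u, v}, t, ⟨t, ht, Finset.Subset.refl t⟩,
    by simp [Finset.insert_subset_iff, h1, h2], by rw [Finset.card_pair hne, K.card t ht],
    ⟨u, by simp, hu⟩, hx⟩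

theorem g5_down {H H' : Set K.V} {u : K.V} (hu : u ∈ H) {y : M} (hy : y ∈ K.skel H')
    (hyu : y ∈ K.tile u) : ∃ C ⊆ K.skel H, IsPreconnected C ∧ y ∈ C ∧ K.pt u ∈ C ∧
      ∀ x ∈ C, x ∈ K.tile u ∧ ∀ v, x ∈ K.tile v → y ∈ K.tile v := by
  by_cases hv : ∃ v, v ≠ u ∧ y ∈ K.tile v
  · obtain ⟨v, hvu, hyv⟩ := hv
    have hm : y ∈ K.tile u ∩ K.tile v := ⟨hyu, hyv⟩
    rw [K.tile_basic.2.2.2.2.2.2 u v hvu.symm] at hm
    obtain ⟨t, ht, hyt⟩ := mem_iUnion₂.1 hm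
    have ht' : t ∈ K.T ∧ u ∈ t ∧ v ∈ t := by simpa using ht
    obtain ⟨ht, h1, h2⟩ := ht'
    have hadj : Adj K.T u v := ⟨hvu.symm, t, ht, h1, h2⟩
    obtain ⟨p, e1, a1, a2, a3⟩ := K.half_edge hadj
    obtain ⟨p', q, e2, -, b1, -, -, b4⟩ := K.mid_edge ht hvu.symm h1 h2
    obtain rfl : p = p' := singleton_injective (e1.symm.trans e2)
    refine ⟨{x ∈ K.seg {u, v} t | x ≠ q ∨ x = y} ∪ K.seg {u} {u, v},
      union_subset (fun x hx => g5_mid K hu ht hvu.symm h1 h2 hx.1) (g5_half K hu hadj),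
      IsPreconnected.union p ⟨b1.basic.2.2.1, Or.inl b1.basic.2.2.2.2.1⟩ a1.basic.2.2.2.1
        (g5_arc b1 (fun x hx => ⟨hx.1, Or.inl fun e => hx.2 (Or.inr e)⟩) fun x hx => hx.1)
        a1.basic.2.1, Or.inl ⟨hyt, Or.inr rfl⟩, Or.inr a1.basic.2.2.1, ?_⟩
    have key : ∀ x, (∀ w, x ∈ K.tile w → w = u ∨ w = v) → ∀ w, x ∈ K.tile w → y ∈ K.tile w := by
      intro x hx w hw
      rcases hx w hw with rfl | rfl
      exacts [hyu, hyv]
    rintro x (⟨hx, hq | rfl⟩ | hx)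
    · exact ⟨(b4 x hx hq u).2 (Or.inl rfl), key x fun w hw => (b4 x hx hq w).1 hw⟩
    · exact ⟨hyu, fun _ h => h⟩
    · by_cases hp : x = p
      · subst hp
        exact ⟨(a2 u).2 (Or.inl rfl), key x fun w hw => (a2 w).1 hw⟩
      · exact ⟨(a3 x hx hp u).2 rfl, key x fun w hw => Or.inl ((a3 x hx hp w).1 hw)⟩
  · have hv' : ∀ v, y ∈ K.tile v → v = u := fun v h => by_contra fun e => hv ⟨v, e, h⟩
    obtain ⟨s, s', ⟨t, ht, hst⟩, hs, hc, ⟨w, hw, -⟩, hy⟩ := hy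
    have h2 := ((c1_seg K hs hc).1 hy).2
    obtain rfl : s = {u} :=
      Finset.eq_singleton_iff_unique_mem.2 ⟨hv' w (h2 w hw) ▸ hw, fun v h => hv' v (h2 v h)⟩
    obtain ⟨v, hvs, rfl⟩ := Finset.exists_eq_insert_iff.2 ⟨hs, hc.symm⟩
    have hne : u ≠ v := fun e => hvs (by simp [e])
    have hadj : Adj K.T u v := ⟨hne, t, ht, hst (by simp), hst (by simp)⟩
    obtain ⟨p, -, a1, a2, a3⟩ := K.half_edge hadj
    rw [show (insert v {u} : Finset K.V) = {u, v} from Finset.pair_comm v u] at hy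
    refine ⟨K.seg {u} {u, v} \ {p}, fun x hx => g5_half K hu hadj hx.1,
      g5_arc a1 (fun x hx => ⟨hx.1, fun e => hx.2 (Or.inr e)⟩) fun x hx => hx.1,
      ⟨hy, fun e => ?_⟩, ⟨a1.basic.2.2.1, a1.basic.2.2.2.2.1⟩, fun x hx =>
        ⟨(a3 x hx.1 hx.2 u).2 rfl, fun w hw => ((a3 x hx.1 hx.2 w).1 hw).symm ▸ hyu⟩⟩
    rw [mem_singleton_iff.1 e] at hv'
    exact hne (hv' v ((a2 v).2 (Or.inr rfl))).symm

/-- Two points are joined by a connected subset of `A`. -/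
def g5_R {M : Type} [TopologicalSpace M] (A : Set M) (p q : M) : Prop :=
  ∃ C ⊆ A, p ∈ C ∧ q ∈ C ∧ IsPreconnected C

omit [T2Space M] [CompactSpace M] in
theorem g5_trans {A : Set M} {p q r : M} (h : g5_R A p q) (h' : g5_R A q r) : g5_R A p r := by
  obtain ⟨C, c1, c2, c3, c4⟩ := h
  obtain ⟨D, d1, d2, d3, d4⟩ := h'
  exact ⟨C ∪ D, union_subset c1 d1, Or.inl c2, Or.inr d3, c4.union q c3 d2 d4⟩

end Aux

variable {n : ℕ} {S : Surface n} {N : ℕ} {ρ δ : ℝ} {g : GD S N ρ δ} {e η s : ℝ} {M : ℕ}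
  {B : g.BN e η s M}

theorem g5_sqH (i : Bool) : SqH i ⊆ Sq := by
  intro z hz
  refine ⟨hz.1, ?_⟩
  rw [hz.2]
  cases i <;> simp only [Bool.false_eq_true, ↓ reduceIte, mem_Icc, Std.le_refl, zero_le_one, and_self]

theorem g5_lines {y : S.M} (h : y ∈ g.Lines) : ∃ j, ∃ w ∈ g.W j, y ∈ g.K.tile w := by
  obtain ⟨j, z, hz, rfl⟩ := mem_iUnion.1 h
  have hs : z ∈ Sq := by
    rcases hz with (hz | hz) | hz
    exacts [g5_sqH _ hz, g5_sqH _ hz, hz.1]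
  obtain ⟨w, hw, h⟩ := mem_iUnion₂.1 ((g.img j).le (mem_image_of_mem _ hs))
  exact ⟨j, w, hw, h⟩

theorem g5_band {y : S.M} (h : y ∈ g.K.N (g.Sv ∪ g.Y)) {j : Fin g.m} {w : g.K.V} (hw : w ∈ g.W j)
    (hy : y ∈ g.K.tile w) : y ∈ g.Lines := by
  obtain ⟨z, hz, rfl⟩ := (g.img j).ge (mem_iUnion₂.2 ⟨w, hw, hy⟩)
  exact mem_iUnion.2 ⟨j, z, Or.inl (g.band_S j hz h), rfl⟩

theorem g5_off {y : S.M} (h : ∀ w, y ∈ g.K.tile w → w ∈ g.Sv ∪ g.Y) : y ∉ g.Lines := by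
  intro hl
  obtain ⟨j, w, hw, hy⟩ := g5_lines hl
  exact disjoint_left.1 (g.sk.out j) hw (h w hy)

theorem g5_en (j : Fin g.m) (i : Bool) : g.Ψ j '' (B j).En i ⊆ g.Lines := by
  rintro _ ⟨z, ⟨hz, h⟩, rfl⟩
  refine mem_iUnion.2 ⟨j, z, ?_, rfl⟩
  rcases h with h | h
  · cases i
    exacts [Or.inl (Or.inl h), Or.inl (Or.inr h)]
  · exact Or.inr ⟨hz, h.1⟩

theorem g5_same (Z : Site B) {y y' : S.M} (h : y ∉ g.Lines) (h' : y' ∉ g.Lines)
    (hc : Z.ch y' = Z.ch y) : Z.σ y' = Z.σ y := by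
  by_cases hS : Z.ch y ∈ g.Sv
  · obtain ⟨x, x1, x2⟩ := Z.offS y h hS
    obtain ⟨x', x3, x4⟩ := Z.offS y' h' (hc ▸ hS)
    rw [x2, x4, Subtype.ext (x3.trans ((congrArg g.lab hc).trans x1.symm))]
  · rw [Z.offY y h hS, Z.offY y' h' (hc ▸ hS), hc]

theorem g5_vtx (Z : Site B) {y : S.M} (h : ∀ w, y ∈ g.K.tile w → w ∈ g.Sv ∪ g.Y) :
    Z.σ y = Z.σ (g.K.pt (Z.ch y)) :=
  (g5_same Z (g5_off h) (g5_off fun _ hw => (g5_pt g.K hw).symm ▸ h _ (Z.ch_mem y))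
    (g5_pt g.K (Z.ch_mem _))).symm

/-- Plan: by the number of dual cells through `y` (`Tri.half_edge`, `Tri.mid_edge`). None of
them belongs to a band: a triangle with a vertex in `Sv` and a vertex in `W j` lies in `L j i`. -/
theorem Site.down (Z : Site B) {y : S.M} (hy : y ∈ g.K.skel (g.Sv ∪ g.Y)) (ho : y ∉ g.Lines) :
    ∃ C ⊆ g.K.skel (g.Sv ∪ g.Y), IsPreconnected C ∧ y ∈ C ∧ g.K.pt (Z.ch y) ∈ C ∧
      ∀ y' ∈ C, Z.σ y' = Z.σ y := by
  have := S.t2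
  have := S.compact
  have hN := ((g.K.skel_iff _ y).1 hy).2
  obtain ⟨C, c1, c2, c3, c4, c5⟩ := g5_down g.K (Z.ch_Y y hN) hy (Z.ch_mem y)
  refine ⟨C, c1, c2, c3, c4, fun y' hy' => g5_same Z ho (fun hl => ?_)
    (Z.ch_min y y' (c5 y' hy').2 (c5 y' hy').1)⟩
  obtain ⟨j, w, hw, h⟩ := g5_lines hl
  exact ho (g5_band hN hw ((c5 y' hy').2 w h))

theorem Site.adj (Z : Site B) {v w : g.K.V} (hv : v ∈ g.Sv ∪ g.Y) (hw : w ∈ g.Sv ∪ g.Y)
    (h : Adj g.K.T v w) : ∃ C ⊆ g.Gam, IsPreconnected C ∧ g.K.pt v ∈ C ∧ g.K.pt w ∈ C ∧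
      ∀ y ∈ C, Z.σ y = Z.σ (g.K.pt v) ∨ Z.σ y = Z.σ (g.K.pt w) := by
  have := S.t2
  have := S.compact
  have h' : Adj g.K.T w v := ⟨h.1.symm, h.2.imp fun t ht => ⟨ht.1, ht.2.2, ht.2.1⟩⟩
  obtain ⟨p, e1, a1, a2, a3⟩ := g.K.half_edge h
  obtain ⟨p', e2, b1, -, b3⟩ := g.K.half_edge h'
  rw [Finset.pair_comm w v] at e2
  obtain rfl : p = p' := singleton_injective (e1.symm.trans e2)
  refine ⟨g.K.seg {v} {v, w} ∪ g.K.seg {w} {w, v},
    union_subset (fun x hx => Or.inl (g5_half g.K hv h hx)) fun x hx =>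
      Or.inl (g5_half g.K hw h' hx),
    a1.basic.2.1.union p a1.basic.2.2.2.1 b1.basic.2.2.2.1 b1.basic.2.1, Or.inl a1.basic.2.2.1,
    Or.inr b1.basic.2.2.1, fun y hy => ?_⟩
  have key : ∀ u, y ∈ g.K.tile u → u = v ∨ u = w := by
    intro u hu
    by_cases hp : y = p
    · exact (a2 u).1 (hp ▸ hu)
    · exact hy.imp (fun hy => (a3 y hy hp u).1 hu) fun hy => (b3 y hy hp u).1 hu
  have e := g5_vtx Z (y := y) fun u hu => by
    rcases key u hu with rfl | rfl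
    exacts [hv, hw]
  rcases key _ (Z.ch_mem y) with h | h <;> rw [h] at e
  exacts [Or.inl e, Or.inr e]

/-- From a vertex of a class to the end of a band. -/
theorem Site.to_end (Z : Site B) {j : Fin g.m} {i : Bool} {t : Finset g.K.V} (ht : t ∈ g.L j i)
    {a : g.K.V} (ha : a ∈ t) (hS : a ∈ g.Sv) (hz : g.lab a = g.z j i) :
    ∃ C ⊆ g.Gam, IsPreconnected C ∧ g.K.pt a ∈ C ∧ g.Ψ j '' (B j).En i ⊆ C ∧
      ∀ y ∈ C, Z.σ y = .inl (.inl (g.en j i)) := by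
  have := S.t2
  have := S.compact
  obtain ⟨htT, ⟨w, hwt, hw⟩, -⟩ := (g.sk.band j).mix i t ht
  have haW : a ∉ g.W j := fun h => disjoint_left.1 (g.sk.out j) h (Or.inl hS)
  have hadj : Adj g.K.T a w := ⟨fun e => haW (e ▸ hw), t, htT, ha, hwt⟩
  obtain ⟨p, e1, a1, -, a3⟩ := g.K.half_edge hadj
  obtain ⟨q, hq⟩ := c3_ctr g.K htT (Finset.Subset.refl t) ⟨a, ha⟩
  have hp : p ∈ g.K.ctr {w, a} := by
    rw [Finset.pair_comm w a, e1]
    exact mem_singleton p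
  obtain ⟨b1, b2⟩ := c3_seg g.K htT hwt ha hw haW hp hq
  have hpE : p ∈ g.Ψ j '' (B j).En i :=
    image_mono (en_conn B j i false).2.2
      ((g.sH j i).ge (mem_iUnion₂.2 ⟨t, ht, b2 b1.basic.2.2.1⟩))
  have hE : ∀ y ∈ g.Ψ j '' (B j).En i, Z.σ y = .inl (.inl (g.en j i)) := by
    rintro _ ⟨z, hz, rfl⟩
    exact Z.en j i z hz
  refine ⟨g.K.seg {a} {a, w} ∪ g.Ψ j '' (B j).En i,
    union_subset (fun x hx => Or.inl (g5_half g.K (Or.inl hS) hadj hx)) fun x hx =>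
      Or.inr (g5_en j i hx),
    a1.basic.2.1.union p a1.basic.2.2.2.1 hpE
      ((en_conn B j i false).1.image _ (g.cont j).continuousOn),
    Or.inl a1.basic.2.2.1, subset_union_right, ?_⟩
  rintro y (hy | hy)
  · by_cases hp : y = p
    · exact hE y (hp ▸ hpE)
    · have hc : Z.ch y = a := (a3 y hy hp _).1 (Z.ch_mem y)
      obtain ⟨x, x1, x2⟩ := Z.offS y
        (g5_off fun u hu => ((a3 y hy hp u).1 hu).symm ▸ Or.inl hS) (hc.symm ▸ hS)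
      rw [x2, show x = g.en j i from Subtype.ext (x1.trans ((congrArg g.lab hc).trans hz))]
  · exact hE y hy

theorem g5_sig (Z : Site B) (x : g.κ) {v : g.K.V} (hv : v ∈ g.Sv) (hl : g.lab v = x.1) :
    Z.σ (g.K.pt v) = .inl (.inl x) := by
  obtain ⟨x', x1, x2⟩ := (Z.vtx v).2.1 hv
  rw [x2, show x' = x from Subtype.ext (x1.trans hl)]

theorem g5_cls (Z : Site B) (x : g.κ) {v : g.K.V} (hv : v ∈ g.Sv) (hl : g.lab v = x.1) :
    g5_R {y ∈ g.Gam | Z.σ y = .inl (.inl x)} (g.K.pt x.1) (g.K.pt v) := by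
  have key : ∀ b, Relation.ReflTransGen (Lk g.K.T g.Sv g.lab g.L g.z) v b →
      b ∈ g.Sv ∧ g.lab b = x.1 ∧
        g5_R {y ∈ g.Gam | Z.σ y = .inl (.inl x)} (g.K.pt b) (g.K.pt v) := by
    intro b hb
    induction hb with
    | refl =>
      refine ⟨hv, hl, {g.K.pt v}, singleton_subset_iff.2 ⟨Or.inl ?_, g5_sig Z x hv hl⟩, rfl, rfl,
        isPreconnected_singleton⟩
      obtain ⟨s, s', h1, h2, h3, ⟨u, hu, hu'⟩, h4⟩ := (Z.vtx v).1
      exact ⟨s, s', h1, h2, h3, ⟨u, hu, (mem_singleton_iff.1 hu').symm ▸ Or.inl hv⟩, h4⟩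
    | @tail a b _ hab ih =>
      obtain ⟨ha, hla, hR⟩ := ih
      obtain ⟨hb, hlb, hab⟩ := hab
      refine ⟨hb, hlb.trans hla, g5_trans ?_ hR⟩
      rcases hab with hab | ⟨j, i, hz, ⟨t, ht, hat⟩, t', ht', hbt⟩
      · obtain ⟨C, c1, c2, c3, c4, c5⟩ := Z.adj (Or.inl ha) (Or.inl hb) hab
        exact ⟨C, fun y hy => ⟨c1 hy, (c5 y hy).elim (fun h => h.trans (g5_sig Z x ha hla))
          fun h => h.trans (g5_sig Z x hb (hlb.trans hla))⟩, c4, c3, c2⟩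
      · obtain ⟨C, c1, c2, c3, c4, c5⟩ := Z.to_end ht hat ha hz.symm
        obtain ⟨D, d1, d2, d3, d4, d5⟩ := Z.to_end ht' hbt hb (hlb.trans hz.symm)
        have ex : g.en j i = x := Subtype.ext (hz.trans hla)
        have hq : (⟨0, if i then 1 else 0⟩ : ℂ) ∈ (B j).En i :=
          (en_conn B j i false).2.2 ⟨⟨le_rfl, zero_le_one⟩, rfl⟩
        exact g5_trans ⟨D, fun y hy => ⟨d1 hy, ex ▸ d5 y hy⟩, d3, d4 (mem_image_of_mem _ hq), d2⟩
          ⟨C, fun y hy => ⟨c1 hy, ex ▸ c5 y hy⟩, c4 (mem_image_of_mem _ hq), c3, c2⟩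
  exact hl ▸ (key _ (g.sk.cls v hv).2.2).2.2

/-- Plan: every point of the fibre of a class `x` is joined in the fibre to `pt x` (`down`,
`to_end`, `Sk1.touch`, `Sk1.cls`, `adj`); a vertex of a tube: `down`; a cut node: `mid_conn`. -/
theorem Site.conn (Z : Site B) (a : B.Nu ⊕ g.K.V) : IsPreconnected {y ∈ g.Gam | Z.σ y = a} := by
  have off : ∀ y, y ∉ g.Lines → (Z.ch y ∈ g.Sv ∧ ∃ x : g.κ, x.1 = g.lab (Z.ch y) ∧
      Z.σ y = .inl (.inl x)) ∨ Z.σ y = .inr (Z.ch y) := fun y hy => by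
    by_cases hS : Z.ch y ∈ g.Sv
    exacts [Or.inl ⟨hS, Z.offS y hy hS⟩, Or.inr (Z.offY y hy hS)]
  have on : ∀ y ∈ g.Lines, ∃ j z, y = g.Ψ j z ∧
      ((∃ i, z ∈ (B j).En i ∧ Z.σ y = .inl (.inl (g.en j i))) ∨
        (z ∈ Mid ∧ z.im ∈ Icc (B j).y0 (B j).y1 ∧
          ∃ p : {p // (B j).IsCut p}, Z.σ y = .inl (.inr ⟨j, p⟩))) := fun y hy => by
    obtain ⟨j, z, hz, rfl⟩ := mem_iUnion.1 hy
    refine ⟨j, z, rfl, ?_⟩
    rcases lines_cases B j hz with ⟨i, hi⟩ | ⟨h1, h2⟩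
    · exact Or.inl ⟨i, hi, Z.en j i z hi⟩
    · obtain ⟨p, hp, -⟩ := Z.mid j z h1 h2
      exact Or.inr ⟨h1, h2, p, hp⟩
  have dn : ∀ y ∈ g.Gam, y ∉ g.Lines →
      g5_R {y' ∈ g.Gam | Z.σ y' = Z.σ y} (g.K.pt (Z.ch y)) y := fun y hy ho => by
    obtain ⟨C, c1, c2, c3, c4, c5⟩ := Z.down (hy.resolve_right ho) ho
    exact ⟨C, fun y' hy' => ⟨Or.inl (c1 hy'), c5 y' hy'⟩, c4, c3, c2⟩
  rcases a with (x | ⟨j, p⟩) | v
  · refine isPreconnected_of_forall (g.K.pt x.1) fun y hy => ?_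
    obtain ⟨hy, hσ⟩ := hy
    by_cases ho : y ∈ g.Lines
    · obtain ⟨j, z, rfl, ⟨i, hi, h⟩ | ⟨-, -, p, h⟩⟩ := on y ho
      · have ex : g.en j i = x := Sum.inl_injective (Sum.inl_injective (h.symm.trans hσ))
        obtain ⟨t, ht, u, hu, huS, hl⟩ := g.sk.touch j i
        obtain ⟨C, c1, c2, c3, c4, c5⟩ := Z.to_end ht hu huS hl
        exact g5_trans (g5_cls Z x huS (hl.trans (congrArg Subtype.val ex)))
          ⟨C, fun y hy => ⟨c1 hy, ex ▸ c5 y hy⟩, c3, c4 (mem_image_of_mem _ hi), c2⟩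
      · exact absurd (Sum.inl_injective (h.symm.trans hσ)) Sum.inr_ne_inl
    · rcases off y ho with ⟨hS, x', x1, x2⟩ | h
      · have ex : x' = x := Sum.inl_injective (Sum.inl_injective (x2.symm.trans hσ))
        exact g5_trans (g5_cls Z x hS (ex ▸ x1.symm)) (hσ ▸ dn y hy ho)
      · exact absurd (h.symm.trans hσ) Sum.inr_ne_inl
  · convert (Z.mid_conn j p).image _ (g.cont j).continuousOn using 1
    ext y
    constructor
    · rintro ⟨hy, hσ⟩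
      by_cases ho : y ∈ g.Lines
      · obtain ⟨k, z, rfl, ⟨i, -, h⟩ | ⟨h1, h2, p', h⟩⟩ := on y ho
        · exact absurd (Sum.inl_injective (h.symm.trans hσ)) Sum.inl_ne_inr
        · obtain rfl : k = j :=
            congrArg Sigma.fst (Sum.inr_injective (Sum.inl_injective (h.symm.trans hσ)))
          exact ⟨z, ⟨h1, h2, hσ⟩, rfl⟩
      · rcases off y ho with ⟨-, x', -, x2⟩ | h
        · exact absurd (Sum.inl_injective (x2.symm.trans hσ)) Sum.inl_ne_inr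
        · exact absurd (h.symm.trans hσ) Sum.inr_ne_inl
    · rintro ⟨z, ⟨h1, -, h3⟩, rfl⟩
      exact ⟨Or.inr (mem_iUnion.2 ⟨j, z, Or.inr h1, rfl⟩), h3⟩
  · refine isPreconnected_of_forall (g.K.pt v) fun y hy => ?_
    obtain ⟨hy, hσ⟩ := hy
    by_cases ho : y ∈ g.Lines
    · obtain ⟨j, z, rfl, ⟨i, -, h⟩ | ⟨-, -, p, h⟩⟩ := on y ho
      · exact absurd (h.symm.trans hσ) Sum.inl_ne_inr
      · exact absurd (h.symm.trans hσ) Sum.inl_ne_inr
    · rcases off y ho with ⟨-, x', -, x2⟩ | h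
      · exact absurd (x2.symm.trans hσ) Sum.inl_ne_inr
      · have ev : Z.ch y = v := Sum.inr_injective (h.symm.trans hσ)
        have := dn y hy ho
        rw [ev, hσ] at this
        exact this

end Pool.Agent.MP_17e62b_gt.T55

end

section

/-!
The glued discs exist.
-/

namespace Pool.Agent.MP_17e62b_gt.T55

open Set Metric Topology H14 G
open scoped Manifold

variable {n : ℕ} {S : Surface n} {N : ℕ} {ρ δ : ℝ}

theorem g6_sub (σ : Bool) : SqV σ ⊆ Half σ := by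
  rintro y ⟨h1, h2⟩
  cases σ
  · simp only [Bool.false_eq_true, if_false] at h1
    refine ⟨⟨?_, h2⟩, ?_⟩
    · rw [h1]; exact ⟨le_rfl, zero_le_one⟩
    · simp only [Bool.false_eq_true, if_false, h1]; norm_num
  · simp only [if_true] at h1
    refine ⟨⟨?_, h2⟩, ?_⟩
    · rw [h1]; exact ⟨zero_le_one, le_rfl⟩
    · simp only [if_true, h1]; norm_num

theorem g6_seg (σ : Bool) :
    SqV σ = segment ℝ (⟨if σ then 1 else 0, 0⟩ : ℂ) ⟨if σ then 1 else 0, 1⟩ := by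
  ext y
  rw [segment_eq_image']
  constructor
  · rintro ⟨h1, h2⟩
    refine ⟨y.im, h2, Complex.ext ?_ ?_⟩
    · simp [h1]
    · simp
  · rintro ⟨t, ht, rfl⟩
    exact ⟨by simp, by simpa only [Complex.real_smul, Complex.add_im, Complex.mul_im, Complex.ofReal_re, Complex.sub_im, sub_zero, mul_one, Complex.ofReal_im, Complex.sub_re, sub_self, mul_zero, add_zero, zero_add, mem_Icc] using ht⟩

theorem g6_corner {σ : Bool} {y : ℂ} (hy : y ∈ SqV σ) : y ∈ SqH false ∪ SqH true ↔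
    y = ⟨if σ then 1 else 0, 0⟩ ∨ y = ⟨if σ then 1 else 0, 1⟩ := by
  have h := (g6_sub σ hy).1.1
  constructor
  · rintro (h' | h')
    · exact Or.inl (Complex.ext hy.1 h'.2)
    · exact Or.inr (Complex.ext hy.1 h'.2)
  · rintro (h' | h')
    · exact Or.inl ⟨h, by rw [h']; rfl⟩
    · exact Or.inr ⟨h, by rw [h']; rfl⟩

theorem g6_iota (σ : Bool) {β : ℂ → ℂ} (hc : ContinuousOn β (SqV σ)) (hi : InjOn β (SqV σ))
    (hm : MapsTo β (SqV σ) (sphere 0 1)) :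
    ∃ ι : ℂ → ℂ, ContinuousOn ι (Half σ) ∧ InjOn ι (Half σ) ∧ (∀ y ∈ SqV σ, ι y = β y) ∧
      ∀ y ∈ Half σ, (‖ι y‖ ≤ 1 ↔ y ∈ SqV σ) ∧ 1 ≤ ‖ι y‖ ∧ ∃ y₀ ∈ SqV σ, ι y = ‖ι y‖ • β y₀ := by
  obtain ⟨s, hs⟩ : ∃ s : ℝ, s = if σ then 1 else 0 := ⟨_, rfl⟩
  have hp : ∀ y ∈ Half σ, (⟨s, y.im⟩ : ℂ) ∈ SqV σ := fun y hy => ⟨hs, hy.1.2⟩
  have hn : ∀ y ∈ Half σ, ‖(1 + 2 * |y.re - s|) • β ⟨s, y.im⟩‖ = 1 + 2 * |y.re - s| := by
    intro y hy
    rw [norm_smul, mem_sphere_zero_iff_norm.1 (hm (hp y hy)), mul_one,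
      Real.norm_of_nonneg (by positivity)]
  refine ⟨fun y => (1 + 2 * |y.re - s|) • β ⟨s, y.im⟩, ?_, ?_, ?_, fun y hy => ⟨?_, ?_, ?_⟩⟩
  · refine ContinuousOn.smul (f := fun y : ℂ => 1 + 2 * |y.re - s|) (by fun_prop) (hc.comp ?_ hp)
    have : (fun y : ℂ => (⟨s, y.im⟩ : ℂ)) = fun y : ℂ => (s : ℂ) + (y.im : ℂ) * Complex.I := by
      funext y
      exact Complex.mk_eq_add_mul_I _ _
    rw [this]
    fun_prop
  · intro y hy y' hy' h
    have h1 : 1 + 2 * |y.re - s| = 1 + 2 * |y'.re - s| := by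
      rw [← hn y hy, ← hn y' hy']
      exact congrArg norm h
    dsimp only at h
    rw [← h1] at h
    have h2 := hi (hp y hy) (hp y' hy') (smul_right_injective ℂ (by positivity) h)
    refine Complex.ext ?_ (Complex.ext_iff.1 h2).2
    have h3 := hy.1.1
    have h4 := hy'.1.1
    cases σ
    · simp only [Bool.false_eq_true, if_false] at hs
      rw [hs, sub_zero, sub_zero, abs_of_nonneg h3.1, abs_of_nonneg h4.1] at h1
      linarith
    · simp only [if_true] at hs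
      rw [hs, abs_of_nonpos (by linarith [h3.2]), abs_of_nonpos (by linarith [h4.2])] at h1
      linarith
  · intro y hy
    have h1 : y.re = s := hy.1.trans hs.symm
    simp only [← h1, sub_self, abs_zero, mul_zero, add_zero, one_smul]
  · dsimp only
    rw [hn y hy]
    constructor
    · intro h
      have : |y.re - s| = 0 := le_antisymm (by linarith) (abs_nonneg _)
      exact ⟨(sub_eq_zero.1 (abs_eq_zero.1 this)).trans hs, hy.1.2⟩
    · intro h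
      rw [h.1.trans hs.symm, sub_self, abs_zero]
      norm_num
  · dsimp only
    rw [hn y hy]
    linarith [abs_nonneg (y.re - s)]
  · exact ⟨_, hp y hy, by dsimp only; rw [hn y hy]⟩

/-- Plan: `A c` is the closed unit disc with the parametrisation `ψ c` of `GD.disc`, `d` comes
from `GD.side`. Let `α j σ t` be the point of the unit circle over the point of `SqV σ` at height
`t`; `ι j σ y = (1 + 2 |y.re - σ|) • α j σ y.im`. `Δ c` is the union, `J c` as in `Dsc.iglue`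
(`dsc_convex`, `half_basic`); `θ c` is `ψ c` on `A c` and `g.Ψ j` after the inverse of `ι j σ` on
its image, composed with `Dsc.retract`. -/
theorem exists_glued (g : GD S N ρ δ) : Nonempty (Glued g) := by
  have := S.t2
  choose ψ hψc hψi hψd hψJ using g.disc
  choose d hd using g.side
  have hinv := fun c => a2_inv (isCompact_closedBall (0 : ℂ) 1) (hψc c) (hψi c)
  choose φ hφc hφ using hinv
  have hsq : ∀ σ, SqV σ ⊆ Sq := fun σ y hy => (g6_sub σ hy).1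
  have hβ : ∀ j σ, ∀ y ∈ SqV σ, φ (d j σ) (g.Ψ j y) ∈ sphere (0 : ℂ) 1 ∧
      ψ (d j σ) (φ (d j σ) (g.Ψ j y)) = g.Ψ j y := by
    intro j σ y hy
    have h := hd j σ (mem_image_of_mem _ hy)
    rw [← hψJ] at h
    obtain ⟨z, hz, e⟩ := h
    rw [← e, hφ _ z (sphere_subset_closedBall hz)]
    exact ⟨hz, rfl⟩
  have hex := fun j σ => g6_iota σ (β := fun y => φ (d j σ) (g.Ψ j y))
    ((hφc (d j σ)).comp (g.cont j).continuousOn fun y hy => by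
      rw [hψd]; exact (hd j σ (mem_image_of_mem _ hy)).1)
    (fun y hy y' hy' h => g.inj j (hsq σ hy) (hsq σ hy') (by
      rw [← (hβ j σ y hy).2, ← (hβ j σ y' hy').2]
      exact congrArg _ h)) (fun y hy => (hβ j σ y hy).1)
  choose ι hιc hιi hιV hιn using hex
  have hdisj : ∀ j σ j' σ', d j σ = d j' σ' → ∀ y ∈ Half σ, ∀ y' ∈ Half σ',
      ι j σ y = ι j' σ' y' → j = j' ∧ σ = σ' := by
    intro j σ j' σ' hdd y hy y' hy' h
    obtain ⟨-, h1, y₀, h2, h3⟩ := hιn j σ y hy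
    obtain ⟨-, -, y₁, h4, h5⟩ := hιn j' σ' y' hy'
    rw [← h, h3] at h5
    rw [← h3] at h5
    have h6 : φ (d j σ) (g.Ψ j y₀) = φ (d j' σ') (g.Ψ j' y₁) :=
      smul_right_injective ℂ (by linarith : ‖ι j σ y‖ ≠ 0) (h3.symm.trans h5)
    have h7 : g.Ψ j y₀ = g.Ψ j' y₁ := by
      rw [← (hβ j σ y₀ h2).2, ← (hβ j' σ' y₁ h4).2, h6, hdd]
    obtain rfl : j = j' := by
      by_contra hne
      refine disjoint_left.1 (g.disj.2.1 j j' hne) (g.img j ▸ mem_image_of_mem _ (hsq σ h2)) ?_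
      rw [h7]
      exact g.img j' ▸ mem_image_of_mem _ (hsq σ' h4)
    refine ⟨rfl, ?_⟩
    have h8 := g.inj j (hsq σ h2) (hsq σ' h4) h7
    have h9 := h2.1.symm.trans (h8 ▸ h4.1)
    clear * - h9
    cases σ <;> cases σ' <;> simp at h9 ⊢
  have hint : ∀ j σ, closedBall (0 : ℂ) 1 ∩ ι j σ '' Half σ = ι j σ '' SqV σ := by
    intro j σ
    ext z
    constructor
    · rintro ⟨h1, y, hy, rfl⟩
      exact ⟨y, (hιn j σ y hy).1.1 (mem_closedBall_zero_iff.1 h1), rfl⟩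
    · rintro ⟨y, hy, rfl⟩
      exact ⟨mem_closedBall_zero_iff.2 ((hιn j σ y (g6_sub σ hy)).1.2 hy), y, g6_sub σ hy, rfl⟩
  have hcor : ∀ j σ, ∀ y ∈ SqV σ, ι j σ y ∈ ({ι j σ ⟨if σ then 1 else 0, 0⟩,
      ι j σ ⟨if σ then 1 else 0, 1⟩} : Set ℂ) ↔ y ∈ SqH false ∪ SqH true := by
    intro j σ y hy
    rw [g6_corner hy]
    refine or_congr ⟨fun h => ?_, fun h => by rw [h]⟩ ⟨fun h => ?_, fun h => by rw [h]; rfl⟩
    · exact hιi j σ (g6_sub σ hy) (g6_sub σ (g6_seg σ ▸ left_mem_segment ℝ _ _)) h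
    · exact hιi j σ (g6_sub σ hy) (g6_sub σ (g6_seg σ ▸ right_mem_segment ℝ _ _)) h
  have hfr : ∀ σ, frontier (Half σ) ⊆ Half σ := fun σ y hy => ((half_basic σ).2.2.2 ▸ hy).1
  have hdsc : ∀ c, Dsc (closedBall (0 : ℂ) 1 ∪ ⋃ i : {p : Fin g.m × Bool // d p.1 p.2 = c},
      ι i.1.1 i.1.2 '' Half i.1.2)
      ((sphere (0 : ℂ) 1 ∪ ⋃ i : {p : Fin g.m × Bool // d p.1 p.2 = c},
        ι i.1.1 i.1.2 '' frontier (Half i.1.2)) \
        ⋃ i : {p : Fin g.m × Bool // d p.1 p.2 = c}, ((closedBall (0 : ℂ) 1 ∩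
          ι i.1.1 i.1.2 '' Half i.1.2) \ {ι i.1.1 i.1.2 ⟨if i.1.2 then 1 else 0, 0⟩,
            ι i.1.1 i.1.2 ⟨if i.1.2 then 1 else 0, 1⟩})) := by
    intro c
    refine Dsc.iglue ⟨id, continuousOn_id, injOn_id _, image_id _, image_id _⟩
      (fun i => dsc_convex (half_basic _).1 (half_basic _).2.1 (half_basic _).2.2.1
        (hιc _ _) (hιi _ _)) (fun i => ?_) (fun i => ?_) fun i k hik => ?_
    · rw [hint, g6_seg]
      refine arc_seg (fun h => ?_) ((hιc _ _).mono (g6_seg _ ▸ g6_sub _))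
        ((hιi _ _).mono (g6_seg _ ▸ g6_sub _))
      simpa using congrArg Complex.im h
    · rw [hint]
      rintro _ ⟨y, hy, rfl⟩
      refine ⟨hιV _ _ y hy ▸ (hβ _ _ y hy).1, y, ?_, rfl⟩
      rw [(half_basic _).2.2.2]
      exact ⟨g6_sub _ hy, Or.inl hy⟩
    · rw [disjoint_left]
      rintro _ ⟨y, hy, rfl⟩ ⟨y', hy', h⟩
      obtain ⟨h1, h2⟩ := hdisj _ _ _ _ (i.2.trans k.2.symm) y hy y' hy' h.symm
      exact hik (Subtype.ext (Prod.ext h1 h2))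
  have hth : ∀ c, ∃ θ₀ : ℂ → S.M, (∀ z ∈ closedBall (0 : ℂ) 1, θ₀ z = ψ c z) ∧
      ∀ j σ, d j σ = c → ∀ y ∈ Half σ, θ₀ (ι j σ y) = g.Ψ j y := by
    intro c
    classical
    refine ⟨fun z => if h : ∃ p : (Fin g.m × Bool) × ℂ, d p.1.1 p.1.2 = c ∧ p.2 ∈ Half p.1.2 ∧
      ι p.1.1 p.1.2 p.2 = z then g.Ψ h.choose.1.1 h.choose.2 else ψ c z, fun z hz => ?_,
      fun j σ hc y hy => ?_⟩
    · dsimp only
      split_ifs with h
      · obtain ⟨h1, h2, h3⟩ := h.choose_spec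
        generalize h.choose = p at h1 h2 h3
        have h4 := (hιn _ _ _ h2).1.1 (h3 ▸ mem_closedBall_zero_iff.1 hz)
        rw [← h3, hιV _ _ _ h4, ← h1, (hβ _ _ _ h4).2]
      · rfl
    · have h : ∃ p : (Fin g.m × Bool) × ℂ, d p.1.1 p.1.2 = c ∧ p.2 ∈ Half p.1.2 ∧
        ι p.1.1 p.1.2 p.2 = ι j σ y := ⟨((j, σ), y), hc, hy, rfl⟩
      dsimp only
      rw [dif_pos h]
      obtain ⟨h1, h2, h3⟩ := h.choose_spec
      generalize h.choose = p at h1 h2 h3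
      obtain ⟨⟨j', σ'⟩, y'⟩ := p
      obtain ⟨rfl, rfl⟩ := hdisj _ _ _ _ (h1.trans hc.symm) _ h2 _ hy h3
      rw [hιi _ _ h2 hy h3]
  choose θ₀ hθA hθι using hth
  choose r hrc hrm hri using fun c => (hdsc c).retract
  have hθr : ∀ c, ∀ z ∈ closedBall (0 : ℂ) 1, θ₀ c (r c z) = ψ c z := fun c z hz => by
    rw [hri c z (Or.inl hz), hθA c z hz]
  have hmem : ∀ j σ, ∀ y ∈ Half σ, ι j σ y ∈ closedBall (0 : ℂ) 1 ∪
      ⋃ i : {p : Fin g.m × Bool // d p.1 p.2 = d j σ}, ι i.1.1 i.1.2 '' Half i.1.2 :=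
    fun j σ y hy => Or.inr (mem_iUnion.2 ⟨⟨(j, σ), rfl⟩, y, hy, rfl⟩)
  refine ⟨⟨_, _, fun _ => closedBall 0 1, fun c z => θ₀ c (r c z), d, ι, hdsc, fun c => ?_,
    fun _ => isClosed_closedBall, fun _ => subset_union_left, fun c => ?_, fun c => ?_, hιc, hιi,
    hmem, fun j σ y hy => ?_, hdisj, fun c z hz => ?_, fun j σ y hy => ?_, fun j σ y hy => ?_,
    fun c b hb => ?_⟩⟩
  · refine ContinuousOn.comp_continuous (ContinuousOn.union_of_isClosed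
      ((hψc c).congr (hθA c)) ?_ isClosed_closedBall ?_) (hrc c) (hrm c)
    · refine (locallyFinite_of_finite _).continuousOn_iUnion (fun i =>
        ((half_basic _).1.image_of_continuousOn (hιc _ _)).isClosed) fun i => ?_
      exact f1_quot (half_basic _).1 (hιc _ _)
        ((g.cont i.1.1).continuousOn.congr (hθι c _ _ i.2))
    · exact isClosed_iUnion_of_finite fun i =>
        ((half_basic _).1.image_of_continuousOn (hιc _ _)).isClosed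
  · exact (hψi c).congr fun z hz => (hθr c z hz).symm
  · rw [← hψd c]
    exact image_congr (hθr c)
  · rw [hri _ _ (hmem j σ y hy), hθι _ j σ rfl y hy]
  · rcases hz with hz | hz
    · exact Or.inl hz
    · obtain ⟨i, hi⟩ := mem_iUnion.1 hz
      exact Or.inr ⟨i.1.1, i.1.2, i.2, hi⟩
  · rw [mem_closedBall_zero_iff]
    exact (hιn j σ y hy).1
  · constructor
    · rintro ⟨h1, h2⟩
      by_cases hV : y ∈ SqV σ
      · refine Or.inr ((hcor j σ y hV).1 (by_contra fun hn => h2 ?_))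
        exact mem_iUnion.2 ⟨⟨(j, σ), rfl⟩, hint j σ ▸ mem_image_of_mem _ hV, hn⟩
      · rcases h1 with h1 | h1
        · exact absurd ((hιn j σ y hy).1.1 (mem_sphere_zero_iff_norm.1 h1).le) hV
        · obtain ⟨⟨⟨j', σ'⟩, hi⟩, y', hy', e⟩ := mem_iUnion.1 h1
          obtain ⟨rfl, rfl⟩ := hdisj _ _ _ _ hi _ (hfr _ hy') _ hy e
          obtain rfl := hιi _ _ (hfr _ hy') hy e
          rw [(half_basic _).2.2.2] at hy'
          exact hy'.2.resolve_left hV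
    · intro h
      refine ⟨Or.inr (mem_iUnion.2 ⟨⟨(j, σ), rfl⟩, y, ?_, rfl⟩), fun hn => ?_⟩
      · rw [(half_basic _).2.2.2]
        exact ⟨hy, Or.inr h⟩
      · obtain ⟨⟨⟨j', σ'⟩, hi⟩, ⟨h1, y', hy', e⟩, h2⟩ := mem_iUnion.1 hn
        obtain ⟨rfl, rfl⟩ := hdisj _ _ _ _ hi _ hy' _ hy e
        have hV := (hιn _ _ y hy).1.1 (mem_closedBall_zero_iff.1 h1)
        rcases h with h | h
        · have h3 := hV.1.symm.trans h
          cases σ' <;> norm_num at h3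
        · exact h2 ((hcor _ _ y hV).2 h)
  · have hs : ψ c b ∈ g.K.N c.1ᶜ ↔ b ∈ sphere (0 : ℂ) 1 := by
      constructor
      · intro h
        have h1 : ψ c b ∈ ψ c '' sphere 0 1 := by
          rw [hψJ]; exact ⟨hψd c ▸ mem_image_of_mem _ hb, h⟩
        obtain ⟨z, hz, e⟩ := h1
        rwa [← hψi c (sphere_subset_closedBall hz) hb e]
      · intro h
        exact (hψJ c ▸ mem_image_of_mem (ψ c) h).2
    rw [hθr c b hb, hs]
    constructor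
    · rintro ⟨h1, h2⟩
      refine ⟨h1.elim id fun h => ?_, ?_⟩
      · obtain ⟨i, y, hy, rfl⟩ := mem_iUnion.1 h
        exact mem_sphere_zero_iff_norm.2 (le_antisymm (mem_closedBall_zero_iff.1 hb)
          (hιn _ _ y (hfr _ hy)).2.1)
      · rintro j ⟨y, ⟨h3, h4⟩, e⟩
        obtain ⟨σ, hV⟩ : ∃ σ, y ∈ SqV σ := h3.elim (fun h => ⟨_, h⟩) fun h => ⟨_, h⟩
        obtain rfl : d j σ = c := by
          by_contra hne
          refine disjoint_left.1 (g.disj.2.2 _ _ hne) (hd j σ (mem_image_of_mem _ hV)).1 ?_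
          rw [e]
          exact hψd c ▸ mem_image_of_mem _ hb
        have h5 : ι j σ y = b := by rw [hιV j σ y hV, e, hφ _ b hb]
        refine h2 (mem_iUnion.2 ⟨⟨(j, σ), rfl⟩, ⟨hb, y, g6_sub σ hV, h5⟩, fun h6 => h4 ?_⟩)
        exact (hcor j σ y hV).1 (h5 ▸ h6)
    · rintro ⟨h1, h2⟩
      refine ⟨Or.inl h1, fun hn => ?_⟩
      obtain ⟨⟨⟨j, σ⟩, hi⟩, ⟨-, y, hy, rfl⟩, h3⟩ := mem_iUnion.1 hn
      have hV := (hιn _ _ y hy).1.1 (mem_closedBall_zero_iff.1 hb)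
      refine h2 j ⟨y, ⟨?_, fun h => h3 ((hcor j σ y hV).2 h)⟩, ?_⟩
      · cases σ
        · exact Or.inl hV
        · exact Or.inr hV
      · rw [← hθA c _ hb, hθι c j σ hi y hy]

end Pool.Agent.MP_17e62b_gt.T55

end

section

/-!
Properties of the glued discs.
-/

namespace Pool.Agent.MP_17e62b_gt.T55

open Set Metric Topology H14 G
open scoped Manifold

variable {n : ℕ} {S : Surface n} {N : ℕ} {ρ δ : ℝ} {g : GD S N ρ δ} (D : Glued g)

theorem g7_H (i : Bool) : SqH i ⊆ Sq := fun z h => ⟨h.1, by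
  rw [h.2]
  cases i <;> simp only [Bool.false_eq_true, ↓ reduceIte, mem_Icc, Std.le_refl, zero_le_one, and_self]⟩

theorem g7_V (i : Bool) : SqV i ⊆ Sq := fun z h => ⟨by
  rw [h.1]
  cases i <;> simp only [Bool.false_eq_true, ↓ reduceIte, mem_Icc, Std.le_refl, zero_le_one, and_self], h.2⟩

theorem g7_lines : SqH false ∪ SqH true ∪ Mid ⊆ Sq :=
  union_subset (union_subset (g7_H _) (g7_H _)) fun _ h => h.1

theorem g7_re {i : Bool} {y : ℂ} (h : y ∈ SqV i) : y.re ≠ 1 / 2 := by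
  rw [h.1]
  cases i <;> norm_num

theorem g7_N (g : GD S N ρ δ) (j : Fin g.m) {y : ℂ} (h : y ∈ Sq) : g.Ψ j y ∈ g.K.N (g.W j) :=
  g.img j ▸ mem_image_of_mem _ h

theorem g7_uniq (g : GD S N ρ δ) {j k : Fin g.m} {y y' : ℂ} (h : y ∈ Sq) (h' : y' ∈ Sq)
    (e : g.Ψ j y = g.Ψ k y') : j = k ∧ y = y' := by
  obtain rfl : j = k := by_contra fun c =>
    disjoint_left.1 (g.disj.2.1 j k c) (g7_N g j h) (e ▸ g7_N g k h')
  exact ⟨rfl, g.inj j h h' e⟩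

theorem g7_U (c : g.Cp) {v : g.K.V} (h : v ∈ c.1) : v ∉ g.Sv ∪ g.Y ∧ ∀ j, v ∉ g.W j := by
  obtain ⟨u, -, e⟩ := c.2
  rw [e] at h
  have a : v ∈ g.U := by
    obtain ⟨h1, h2⟩ := h
    cases h2 with
    | refl => exact h1
    | tail _ h3 => exact h3.1
  exact ⟨fun b => a (Or.inl b), fun j b => a (Or.inr (mem_iUnion.2 ⟨j, b⟩))⟩

theorem g7_off (g : GD S N ρ δ) (j : Fin g.m) {y : ℂ} (h : y ∈ Sq) (h1 : y.re ≠ 1 / 2)
    (h2 : y ∉ SqH false ∪ SqH true) : g.Ψ j y ∉ g.K.N (g.Sv ∪ g.Y) ∧ g.Ψ j y ∉ g.Lines := by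
  refine ⟨fun c => h2 (g.band_S j h c), fun c => ?_⟩
  obtain ⟨k, z, hz, e⟩ := mem_iUnion.1 c
  obtain ⟨-, rfl⟩ := g7_uniq g (g7_lines hz) h e
  exact hz.elim h2 fun a => h1 a.2

theorem g7_mem {c : g.Cp} {z : ℂ} (h : z ∈ D.A c) : D.θ c z ∈ g.K.N c.1 :=
  D.imgA c ▸ mem_image_of_mem _ h

theorem g7_A {c c' : g.Cp} {z : ℂ} (hz : z ∈ D.Δ c) (h : D.θ c z ∈ g.K.N c'.1)
    (h' : D.θ c z ∉ g.Lines) : z ∈ D.A c := by
  rcases D.pieces c z hz with a | ⟨j, σ, rfl, y, hy, rfl⟩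
  · exact a
  rw [D.ι_comm j σ y hy] at h h'
  have a := (g.int_band j hy.1).1
    (biUnion_subset_biUnion_left (fun v hv => (g7_U c' hv).2 j) h)
  rw [sq_basic.2.2.2] at a
  refine (D.A_inter j σ y hy).2 ?_
  have b := hy.2
  rcases a with (a | a) | a
  · exact (h' (mem_iUnion.2 ⟨j, y, Or.inl a, rfl⟩)).elim
  · cases σ
    · exact a
    · rw [a.1] at b
      norm_num only [Bool.false_eq_true, ite_false, ite_true] at b
  · cases σ
    · rw [a.1] at b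
      norm_num only [Bool.false_eq_true, ite_true, half_le_self_iff, ite_false] at b
    · exact a

/-- Change of the domains. -/
theorem Glued.reparam {Q : g.Cp → Set ℂ} {h : g.Cp → ℂ → ℂ} (h1 : ∀ c, IsCompact (Q c))
    (h2 : ∀ c, Convex ℝ (Q c)) (h3 : ∀ c, (interior (Q c)).Nonempty)
    (h4 : ∀ c, ContinuousOn (h c) (Q c)) (h5 : ∀ c, InjOn (h c) (Q c))
    (h6 : ∀ c, h c '' Q c = D.Δ c) (h7 : ∀ c, h c '' frontier (Q c) = D.J c) :
    ∃ D' : Glued g, D'.Δ = Q ∧ (∀ c, D'.J c = frontier (Q c)) ∧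
      ∀ c, ∀ z ∈ Q c, D'.θ c z = D.θ c (h c z) := by
  choose k k1 k2 using fun c => a2_inv (h1 c) (h4 c) (h5 c)
  have d1 : ∀ c, Dsc (Q c) (frontier (Q c)) := fun c => by
    simpa only [image_id] using dsc_convex (h1 c) (h2 c) (h3 c) continuousOn_id (injOn_id _)
  choose r r1 r2 r3 using fun c => (d1 c).retract
  have k3 : ∀ c, ∀ z ∈ D.Δ c, k c z ∈ Q c ∧ h c (k c z) = z := by
    intro c z hz
    obtain ⟨w, hw, rfl⟩ := (h6 c).ge hz
    rw [k2 c w hw]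
    exact ⟨hw, rfl⟩
  have f1 : ∀ c, ∀ w ∈ Q c, w ∈ frontier (Q c) ↔ h c w ∈ D.J c := fun c w hw =>
    h7 c ▸ ((h5 c).mem_image_iff (h1 c).isClosed.frontier_subset hw).symm
  refine ⟨⟨Q, fun c => frontier (Q c), fun c => Q c ∩ h c ⁻¹' D.A c,
    fun c z => D.θ c (h c (r c z)), D.d, fun j σ y => k (D.d j σ) (D.ι j σ y), d1,
    fun c => (D.cont c).comp ((h4 c).comp_continuous (r1 c) (r2 c)),
    fun c => (h4 c).preimage_isClosed_of_isClosed (h1 c).isClosed (D.A_closed c),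
    fun c => inter_subset_left, fun c x hx y hy e => ?_, fun c => ?_,
    fun j σ => (h6 _ ▸ k1 (D.d j σ)).comp (D.ι_cont j σ) (D.ι_mem j σ),
    fun j σ x hx y hy e => D.ι_inj j σ hx hy ?_, fun j σ y hy => (k3 _ _ (D.ι_mem j σ hy)).1,
    fun j σ y hy => ?_, fun j σ j' σ' e y hy y' hy' e' => D.ι_disj j σ j' σ' e y hy y' hy' ?_,
    fun c z hz => ?_, fun j σ y hy => ?_, fun j σ y hy => ?_, fun c b hb => ?_⟩, rfl,
    fun _ => rfl, fun c z hz => by simp only [r3 c z hz]⟩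
  · simp only [r3 c x hx.1, r3 c y hy.1] at e
    exact h5 c hx.1 hy.1 (D.injA c hx.2 hy.2 e)
  · rw [← D.imgA]
    ext y
    constructor
    · rintro ⟨z, hz, rfl⟩
      exact ⟨h c z, hz.2, by simp only [r3 c z hz.1]⟩
    · rintro ⟨z, hz, rfl⟩
      obtain ⟨w, hw, rfl⟩ := (h6 c).ge (D.A_sub c hz)
      exact ⟨w, ⟨hw, hz⟩, by simp only [r3 c w hw]⟩
  · exact (k3 _ _ (D.ι_mem j σ hx)).2.symm.trans
      ((congrArg _ e).trans (k3 _ _ (D.ι_mem j σ hy)).2)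
  · have a := k3 _ _ (D.ι_mem j σ hy)
    simp only [r3 _ _ a.1, a.2, D.ι_comm j σ y hy]
  · have a := (k3 _ _ (D.ι_mem j' σ' hy')).2
    rw [← e', ← e, (k3 _ _ (D.ι_mem j σ hy)).2] at a
    exact a
  · rcases D.pieces c (h c z) ((h6 c).le ⟨z, hz, rfl⟩) with a | ⟨j, σ, rfl, y, hy, e⟩
    · exact Or.inl ⟨hz, a⟩
    · exact Or.inr ⟨j, σ, rfl, y, hy, by simp only [e, k2 _ z hz]⟩
  · have a := k3 _ _ (D.ι_mem j σ hy)
    rw [← D.A_inter j σ y hy, mem_inter_iff, mem_preimage, a.2, and_iff_right a.1]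
  · have a := k3 _ _ (D.ι_mem j σ hy)
    rw [← D.ι_fr j σ y hy, f1 _ _ a.1, a.2]
  · simp only [r3 c b hb.1]
    rw [f1 c b hb.1]
    exact D.A_fr c _ hb.2

theorem Glued.int {c : g.Cp} {z : ℂ} (hz : z ∈ D.Δ c) (hJ : z ∉ D.J c) :
    D.θ c z ∉ g.K.N (g.Sv ∪ g.Y) ∧ D.θ c z ∉ g.Lines := by
  rcases D.pieces c z hz with a | ⟨j, σ, rfl, y, hy, rfl⟩
  · rw [D.A_fr c z a, not_and_or] at hJ
    rcases hJ with b | b
    · refine ⟨fun d => b (biUnion_subset_biUnion_left (fun v hv u => (g7_U c u).1 hv) d),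
        fun d => b ?_⟩
      obtain ⟨j, y, hy, e⟩ := mem_iUnion.1 d
      exact biUnion_subset_biUnion_left (fun v hv u => (g7_U c u).2 j hv)
        (e ▸ g7_N g j (g7_lines hy))
    · obtain ⟨j, b⟩ := not_forall.1 b
      obtain ⟨y, hy, e⟩ := not_not.1 b
      exact e ▸ g7_off g j (hy.1.elim (g7_V _ ·) (g7_V _ ·)) (hy.1.elim g7_re g7_re) hy.2
  · rw [D.ι_fr j σ y hy, not_or] at hJ
    rw [D.ι_comm j σ y hy]
    exact g7_off g j hy.1 hJ.1 hJ.2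

theorem Glued.disj {c c' : g.Cp} {z z' : ℂ} (hz : z ∈ D.Δ c) (hJ : z ∉ D.J c) (hz' : z' ∈ D.Δ c')
    (h : D.θ c z = D.θ c' z') : c = c' ∧ z = z' := by
  have a := (D.int hz hJ).2
  have b : z ∈ D.A c → z' ∈ D.A c' → c = c' ∧ z = z' := fun h1 h2 => by
    obtain rfl : c = c' := by_contra fun d =>
      disjoint_left.1 (g.disj.2.2 c c' d) (g7_mem D h1) (h ▸ g7_mem D h2)
    exact ⟨rfl, D.injA c h1 h2 h⟩
  rcases D.pieces c z hz with h1 | ⟨j, σ, rfl, y, hy, rfl⟩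
  · exact b h1 (g7_A D hz' (h ▸ g7_mem D h1) (h ▸ a))
  rcases D.pieces c' z' hz' with h2 | ⟨j', σ', rfl, y', hy', rfl⟩
  · exact b (g7_A D hz (h ▸ g7_mem D h2) a) h2
  rw [D.ι_comm j σ y hy, D.ι_comm j' σ' y' hy'] at h
  obtain ⟨rfl, rfl⟩ := g7_uniq g hy.1 hy'.1 h
  obtain rfl : σ = σ' := by_contra fun d =>
    hJ ((D.ι_fr j σ y hy).2 (Or.inl (f6_inter d ⟨hy, hy'⟩).2))
  exact ⟨rfl, rfl⟩

theorem Glued.cover (y : S.M) : y ∈ g.K.N (g.Sv ∪ g.Y) ∨ ∃ c, y ∈ D.θ c '' D.Δ c := by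
  rcases g.cover y with h | ⟨c, h⟩ | ⟨j, z, hz, rfl⟩
  · exact Or.inl h
  · exact Or.inr ⟨c, image_mono (D.A_sub c) ((D.imgA c).ge h)⟩
  · obtain ⟨σ, h⟩ : ∃ σ, z ∈ Half σ := (f6_union.ge hz).elim (⟨_, ·⟩) (⟨_, ·⟩)
    exact Or.inr ⟨_, _, D.ι_mem j σ h, D.ι_comm j σ z h⟩

theorem Glued.fr {c : g.Cp} {b : ℂ} (hb : b ∈ D.J c) : D.θ c b ∈ g.Gam ∧
    D.θ c b ∈ g.K.N g.Sv ∪ g.Lines ∧
    (b ∈ D.A c → D.θ c b ∈ g.K.N g.Sv ∨ ∃ j i, D.θ c b ∈ g.Ψ j '' SqH i) := by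
  have := S.t2
  have := S.compact
  by_cases h : b ∈ D.A c
  · obtain ⟨h1, h2⟩ := (D.A_fr c b h).1 hb
    rcases g.disc_fr c (g7_mem D h) h1 with a | ⟨j, y, hy, e⟩
    · refine ⟨Or.inl ?_, Or.inl a, fun _ => Or.inl a⟩
      obtain ⟨u, u1, u2⟩ := mem_iUnion₂.1 a
      obtain ⟨v, v1, v2⟩ := mem_iUnion₂.1 (g7_mem D h)
      exact g.K.skel_two (fun e : u = v => (g7_U c v1).1 (Or.inl (e ▸ u1))) (Or.inl u1) u2 v2
    · have a : y ∈ SqH false ∪ SqH true := by_contra fun d => by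
        rw [sq_basic.2.2.2, union_assoc] at hy
        exact h2 j ⟨y, ⟨hy.resolve_left d, d⟩, e⟩
      have a' : D.θ c b ∈ g.Lines := mem_iUnion.2 ⟨j, y, Or.inl a, e⟩
      exact ⟨Or.inr a', Or.inr a', fun _ => Or.inr ⟨j, a.elim (⟨_, y, ·, e⟩) (⟨_, y, ·, e⟩)⟩⟩
  · obtain ⟨j, σ, rfl, y, hy, rfl⟩ := (D.pieces c b ((D.dsc c).basic.2.2.1 hb)).resolve_left h
    have a : D.θ (D.d j σ) (D.ι j σ y) ∈ g.Lines := mem_iUnion.2 ⟨j, y,
      ((D.ι_fr j σ y hy).1 hb).elim (fun a => Or.inr ⟨hy.1, a⟩) Or.inl, (D.ι_comm j σ y hy).symm⟩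
    exact ⟨Or.inr a, Or.inr a, fun d => absurd d h⟩

theorem Glued.fin (c : g.Cp) (y : S.M) : {b ∈ D.Δ c | D.θ c b = y}.Finite := by
  have a : {b ∈ D.A c | D.θ c b = y}.Subsingleton := fun _ h _ h' =>
    D.injA c h.1 h'.1 (h.2.trans h'.2.symm)
  have b : ∀ j σ, {z ∈ Half σ | g.Ψ j z = y}.Subsingleton := fun j σ _ h _ h' =>
    g.inj j h.1.1 h'.1.1 (h.2.trans h'.2.symm)
  refine (a.finite.union (finite_iUnion fun j => finite_iUnion fun σ =>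
    (b j σ).finite.image (D.ι j σ))).subset fun z hz => ?_
  rcases D.pieces c z hz.1 with h | ⟨j, σ, rfl, w, hw, rfl⟩
  · exact Or.inl ⟨h, hz.2⟩
  · exact Or.inr (mem_iUnion₂.2 ⟨j, σ, w, ⟨hw, (D.ι_comm j σ w hw).symm.trans hz.2⟩, rfl⟩)

/-- Plan: `Arc.injOn` for the cover by `A c` and the images of the halves. -/
theorem Glued.arc {c : g.Cp} {u : Set ℂ} {a b : ℂ} (h : Arc u a b) (hu : u ⊆ D.J c) {P : Set S.M}
    (hP : ∀ j σ i, ∀ y ∈ SqV σ, y ∈ SqH i → g.Ψ j y ∈ P)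
    (h' : ∀ z ∈ u, D.θ c z ∈ P → z = a ∨ z = b) : InjOn (D.θ c) u := by
  have := S.t2
  have k : ∀ j σ, D.d j σ = c → u ∩ D.A c ∩ D.ι j σ '' Half σ ⊆ {a, b} := by
    rintro j σ rfl _ ⟨⟨h1, h2⟩, y, hy, rfl⟩
    have v := (D.A_inter j σ y hy).1 h2
    refine h' _ h1 ?_
    rw [D.ι_comm j σ y hy]
    exact (((D.ι_fr j σ y hy).1 (hu h1)).resolve_left (g7_re v)).elim (hP j σ _ y v) (hP j σ _ y v)
  refine h.injOn (ι := Option {p : Fin g.m × Bool // D.d p.1 p.2 = c})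
    (R := fun o => o.elim (D.A c) fun p => D.ι p.1.1 p.1.2 '' Half p.1.2) ?_ (fun z hz => ?_) ?_ ?_
  · rintro (_ | p)
    · exact D.A_closed c
    · exact ((half_basic _).1.image_of_continuousOn (D.ι_cont _ _)).isClosed
  · rcases D.pieces c z ((D.dsc c).basic.2.2.1 (hu hz)) with a | ⟨j, σ, e, a⟩
    · exact mem_iUnion.2 ⟨none, a⟩
    · exact mem_iUnion.2 ⟨some ⟨(j, σ), e⟩, a⟩
  · rintro (_ | p) (_ | q) ne
    · exact absurd rfl ne
    · exact k _ _ q.2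
    · exact fun z hz => k _ _ p.2 ⟨⟨hz.1.1, hz.2⟩, hz.1.2⟩
    · rintro _ ⟨⟨-, y, hy, rfl⟩, y', hy', e⟩
      obtain ⟨e1, e2⟩ := D.ι_disj _ _ _ _ (p.2.trans q.2.symm) y hy y' hy' e.symm
      exact absurd (congrArg some (Subtype.ext (Prod.ext e1 e2))) ne
  · rintro (_ | ⟨⟨j, σ⟩, rfl⟩)
    · exact D.injA c
    · rintro _ ⟨y, hy, rfl⟩ _ ⟨y', hy', rfl⟩ e
      rw [D.ι_comm j σ y hy, D.ι_comm j σ y' hy'] at e
      rw [g.inj j hy.1 hy'.1 e]

/-- A connected subset of the disc lifts. -/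
theorem Glued.lift {c : g.Cp} {C : Set S.M} (hC : IsPreconnected C) (h : C ⊆ g.K.N c.1) :
    IsPreconnected {z ∈ D.A c | D.θ c z ∈ C} := by
  have := S.t2
  obtain ⟨k, k1, k2⟩ := a2_inv ((D.dsc c).basic.1.of_isClosed_subset (D.A_closed c) (D.A_sub c))
    (D.cont c).continuousOn (D.injA c)
  rw [← D.imgA] at h
  convert hC.image k (k1.mono h) using 1
  ext z
  constructor
  · rintro ⟨h1, h2⟩
    exact ⟨_, h2, k2 z h1⟩
  · rintro ⟨y, hy, rfl⟩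
    obtain ⟨w, hw, rfl⟩ := h hy
    rw [k2 w hw]
    exact ⟨hw, hy⟩

end Pool.Agent.MP_17e62b_gt.T55

end
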